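import Mathlib
import Pool.Agent.H98.KB.Defs

/-! Blow-up for `u_t + u^k u_x + u_xxx - u_xx = 0`, part G01: this file joins several modules
to save build time (`Pool/Agent/H98/{KB,KC}`, `H72/{KB,KC}`, `H68/KC`, `H37/{KB,KC}`). -/

section S_H98_KB_Cla

/-!
# Cla : calculus of the class `Cl p q`

`bd p q y = exp(-(p max(y,0)) - q max(-y,0))`, `Cl p q f` : `f` smooth and every derivative is `O(bd p q)`.
Everything is elementary.  `Cl_mul`: Leibniz (`iteratedDeriv` of a product; in Mathlib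
`norm_iteratedFDeriv_mul_le` + `norm_iteratedFDeriv_eq_norm_iteratedDeriv`, or induction on `j` using
`deriv (f g) = f' g + f g'` and the fact that the class is closed under derivatives).  `Cl_ibp`: `f g` is
in `Cl (p+p') (q+q')`, tends to `0` at `±∞`, use `integral_mul_deriv_eq_deriv_mul_of_integrable` or
`integral_of_hasDerivAt_of_tendsto`.
-/

open MeasureTheory Filter Topology Set
open scoped ContDiff

namespace H98KB

theorem bd_pos (p q y : ℝ) : 0 < bd p q y := by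
  exact Real.exp_pos _

theorem bd_mul (p q p' q' y : ℝ) : bd p q y * bd p' q' y = bd (p + p') (q + q') y := by
  unfold bd
  rw [← Real.exp_add]
  congr 1
  ring

theorem bd_mono {p q p' q' : ℝ} (hp : p' ≤ p) (hq : q' ≤ q) (y : ℝ) : bd p q y ≤ bd p' q' y := by
  unfold bd
  apply Real.exp_le_exp.mpr
  have h1 : 0 ≤ max y 0 := le_max_right _ _
  have h2 : 0 ≤ max (-y) 0 := le_max_right _ _
  nlinarith [mul_nonneg (sub_nonneg.mpr hp) h1, mul_nonneg (sub_nonneg.mpr hq) h2]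

theorem bd_zero (y : ℝ) : bd 0 0 y = 1 := by
  simp [bd]

theorem bd_abs (p y : ℝ) : bd p p y = Real.exp (-(p * |y|)) := by
  unfold bd
  congr 1
  rcases le_total 0 y with h | h
  · rw [max_eq_left h, max_eq_right (by linarith : -y ≤ 0), abs_of_nonneg h]
    ring
  · rw [max_eq_right h, max_eq_left (by linarith : (0:ℝ) ≤ -y), abs_of_nonpos h]
    ring

theorem bd_of_nonneg {p q y : ℝ} (hy : 0 ≤ y) : bd p q y = Real.exp (-(p * y)) := by
  unfold bd
  rw [max_eq_left hy, max_eq_right (by linarith : -y ≤ 0)]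
  congr 1
  ring

theorem bd_of_nonpos {p q y : ℝ} (hy : y ≤ 0) : bd p q y = Real.exp (q * y) := by
  unfold bd
  rw [max_eq_right hy, max_eq_left (by linarith : (0:ℝ) ≤ -y)]
  congr 1
  ring

theorem bd_cont (p q : ℝ) : Continuous (bd p q) := by
  unfold bd
  fun_prop

variable {p q p' q' : ℝ} {f g : ℝ → ℝ}

/-- constructor with nonnegative constants -/
theorem Cl_bnd (h : Cl p q f) : ∃ C : ℝ, 0 ≤ C ∧ ∀ y, |f y| ≤ C * bd p q y := by
  obtain ⟨C, hC⟩ := h.2 0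
  refine ⟨max C 0, le_max_right _ _, fun y => ?_⟩
  have h1 := hC y
  rw [iteratedDeriv_zero] at h1
  exact h1.trans (mul_le_mul_of_nonneg_right (le_max_left _ _) (bd_pos p q y).le)

theorem Cl_bndj (h : Cl p q f) (j : ℕ) : ∃ C : ℝ, 0 ≤ C ∧ ∀ y, |iteratedDeriv j f y| ≤ C * bd p q y := by
  obtain ⟨C, hC⟩ := h.2 j
  refine ⟨max C 0, le_max_right _ _, fun y => (hC y).trans ?_⟩
  exact mul_le_mul_of_nonneg_right (le_max_left _ _) (bd_pos p q y).le

theorem Cl_mono (h : Cl p q f) (hp : p' ≤ p) (hq : q' ≤ q) : Cl p' q' f := by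
  refine ⟨h.1, fun j => ?_⟩
  obtain ⟨C, hC0, hC⟩ := Cl_bndj h j
  exact ⟨C, fun y => (hC y).trans (mul_le_mul_of_nonneg_left (bd_mono hp hq y) hC0)⟩

theorem Cl_cont (h : Cl p q f) : Continuous f := by
  exact h.1.continuous

theorem Cl_hd (h : Cl p q f) (y : ℝ) : HasDerivAt f (deriv f y) y := by
  exact ((contDiff_infty_iff_deriv.mp h.1).1 y).hasDerivAt

theorem Cl_der (h : Cl p q f) : Cl p q (deriv f) := by
  refine ⟨(contDiff_infty_iff_deriv.mp h.1).2, fun j => ?_⟩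
  obtain ⟨C, hC⟩ := h.2 (j + 1)
  refine ⟨C, fun y => ?_⟩
  rw [← iteratedDeriv_succ']
  exact hC y

/-- the class can be checked on `f` and its derivative -/
theorem Cl_of_deriv {g : ℝ → ℝ} (hfg : ∀ y, HasDerivAt f (g y) y) (hg : Cl p q g)
    (hb : ∃ C : ℝ, ∀ y, |f y| ≤ C * bd p q y) : Cl p q f := by
  have hd : deriv f = g := funext fun y => (hfg y).deriv
  refine ⟨contDiff_infty_iff_deriv.mpr ⟨fun y => (hfg y).differentiableAt, hd ▸ hg.1⟩, fun j => ?_⟩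
  cases j with
  | zero =>
    obtain ⟨C, hC⟩ := hb
    refine ⟨C, fun y => ?_⟩
    rw [iteratedDeriv_zero]
    exact hC y
  | succ j =>
    rw [iteratedDeriv_succ', hd]
    exact hg.2 j

theorem Cl_add (hf : Cl p q f) (hg : Cl p q g) : Cl p q (fun y => f y + g y) := by
  refine ⟨hf.1.add hg.1, fun j => ?_⟩
  obtain ⟨C, hC⟩ := hf.2 j
  obtain ⟨D, hD⟩ := hg.2 j
  refine ⟨C + D, fun y => ?_⟩
  rw [iteratedDeriv_fun_add ((hf.1.of_le (by exact_mod_cast le_top)).contDiffAt)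
    ((hg.1.of_le (by exact_mod_cast le_top)).contDiffAt), add_mul]
  exact (abs_add_le _ _).trans (add_le_add (hC y) (hD y))

theorem Cla_neg (hf : Cl p q f) : Cl p q (fun y => -f y) := by
  refine ⟨hf.1.neg, fun j => ?_⟩
  obtain ⟨C, hC⟩ := hf.2 j
  refine ⟨C, fun y => ?_⟩
  rw [iteratedDeriv_fun_neg, abs_neg]
  exact hC y

theorem Cl_sub (hf : Cl p q f) (hg : Cl p q g) : Cl p q (fun y => f y - g y) := by
  have h := Cl_add hf (Cla_neg hg)
  simpa only [sub_eq_add_neg] using h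

theorem Cl_neg (hf : Cl p q f) : Cl p q (fun y => -f y) := by
  refine ⟨hf.1.neg, fun j => ?_⟩
  obtain ⟨C, hC⟩ := hf.2 j
  refine ⟨C, fun y => ?_⟩
  rw [iteratedDeriv_fun_neg, abs_neg]
  exact hC y

theorem Cl_smul (c : ℝ) (hf : Cl p q f) : Cl p q (fun y => c * f y) := by
  refine ⟨contDiff_const.mul hf.1, fun j => ?_⟩
  obtain ⟨C, hC⟩ := hf.2 j
  refine ⟨|c| * C, fun y => ?_⟩
  rw [iteratedDeriv_const_mul_field, abs_mul, mul_assoc]
  exact mul_le_mul_of_nonneg_left (hC y) (abs_nonneg c)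

theorem Cl_mul (hf : Cl p q f) (hg : Cl p' q' g) : Cl (p + p') (q + q') (fun y => f y * g y) := by
  refine ⟨hf.1.mul hg.1, fun j => ?_⟩
  induction j generalizing f g with
  | zero =>
    obtain ⟨C, hC0, hC⟩ := Cl_bnd hf
    obtain ⟨D, hD0, hD⟩ := Cl_bnd hg
    refine ⟨C * D, fun y => ?_⟩
    rw [iteratedDeriv_zero, abs_mul, ← bd_mul]
    calc |f y| * |g y| ≤ (C * bd p q y) * (D * bd p' q' y) :=
          mul_le_mul (hC y) (hD y) (abs_nonneg _) (mul_nonneg hC0 (bd_pos _ _ _).le)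
      _ = C * D * (bd p q y * bd p' q' y) := by ring
  | succ j ih =>
    obtain ⟨C, hC⟩ := ih (Cl_der hf) hg
    obtain ⟨D, hD⟩ := ih hf (Cl_der hg)
    refine ⟨C + D, fun y => ?_⟩
    have hd : deriv (fun y => f y * g y) = fun y => deriv f y * g y + f y * deriv g y := by
      funext y
      exact ((Cl_hd hf y).mul (Cl_hd hg y)).deriv
    rw [iteratedDeriv_succ', hd]
    have e1 : ContDiff ℝ ∞ (fun y => deriv f y * g y) := (Cl_der hf).1.mul hg.1
    have e2 : ContDiff ℝ ∞ (fun y => f y * deriv g y) := hf.1.mul (Cl_der hg).1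
    rw [iteratedDeriv_fun_add ((e1.of_le (by exact_mod_cast le_top)).contDiffAt)
      ((e2.of_le (by exact_mod_cast le_top)).contDiffAt), add_mul]
    exact (abs_add_le _ _).trans (add_le_add (hC y) (hD y))

/-- product with a bounded factor -/
theorem Cl_mul0 (hf : Cl 0 0 f) (hg : Cl p q g) : Cl p q (fun y => f y * g y) := by
  have h := Cl_mul hf hg
  simpa only [zero_add] using h

theorem Cl_const (c : ℝ) : Cl 0 0 (fun _ => c) := by
  refine ⟨contDiff_const, fun j => ?_⟩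
  cases j with
  | zero =>
    refine ⟨|c|, fun y => ?_⟩
    rw [iteratedDeriv_zero, bd_zero, mul_one]
  | succ j =>
    refine ⟨0, fun y => ?_⟩
    rw [iteratedDeriv_succ', deriv_const', iteratedDeriv_fun_const_zero]
    simp

theorem Cl_zero : Cl p q (fun _ => 0) := by
  refine ⟨contDiff_const, fun j => ⟨0, fun y => ?_⟩⟩
  rw [iteratedDeriv_fun_const_zero]
  simp

theorem Cl_pow (hf : Cl p q f) (n : ℕ) : Cl (n * p) (n * q) (fun y => f y ^ n) := by
  induction n with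
  | zero =>
    simpa only [Nat.cast_zero, zero_mul, pow_zero] using Cl_const 1
  | succ n ih =>
    have h := Cl_mul ih hf
    have e1 : (((n + 1 : ℕ) : ℝ)) * p = n * p + p := by
      push_cast
      ring
    have e2 : (((n + 1 : ℕ) : ℝ)) * q = n * q + q := by
      push_cast
      ring
    rw [e1, e2]
    simpa only [pow_succ] using h

theorem Cl_pow' (hf : Cl p q f) (hp : 0 ≤ p) (hq : 0 ≤ q) (n : ℕ) (hn : 1 ≤ n) :
    Cl p q (fun y => f y ^ n) := by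
  refine Cl_mono (Cl_pow hf n) ?_ ?_
  · have : (1 : ℝ) ≤ n := by exact_mod_cast hn
    nlinarith
  · have : (1 : ℝ) ≤ n := by exact_mod_cast hn
    nlinarith

theorem Cl_pow0 (hf : Cl 0 0 f) (n : ℕ) : Cl 0 0 (fun y => f y ^ n) := by
  have h := Cl_pow hf n
  simpa only [mul_zero] using h

theorem Cl_id {c : ℝ} (hc : 0 < c) : Cl (-c) (-c) (fun y => y) := by
  refine Cl_of_deriv (g := fun _ => 1) (fun y => hasDerivAt_id y) ?_ ?_
  · exact Cl_mono (Cl_const 1) (by linarith) (by linarith)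
  · refine ⟨1 / c, fun y => ?_⟩
    rw [bd_abs]
    have h1 : c * |y| ≤ Real.exp (c * |y|) := by
      have := Real.add_one_le_exp (c * |y|)
      linarith
    have h2 : -(-c * |y|) = c * |y| := by ring
    rw [h2, div_mul_eq_mul_div, one_mul, le_div_iff₀ hc, mul_comm]
    exact h1

theorem Cl_exp (c : ℝ) : Cl (-c) c (fun y => Real.exp (c * y)) := by
  refine ⟨by fun_prop, fun j => ⟨|c| ^ j, fun y => ?_⟩⟩
  have h1 : iteratedDeriv j (fun y => Real.exp (c * y)) y = c ^ j * Real.exp (c * y) := by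
    induction j generalizing y with
    | zero => simp
    | succ j ih =>
      rw [iteratedDeriv_succ, funext ih]
      have h2 : HasDerivAt (fun y => c ^ j * Real.exp (c * y))
          (c ^ j * (Real.exp (c * y) * (c * 1))) y :=
        (((hasDerivAt_id y).const_mul c).exp).const_mul _
      rw [h2.deriv]
      ring
  have h3 : Real.exp (c * y) = bd (-c) c y := by
    unfold bd
    congr 1
    rcases le_total 0 y with h | h
    · rw [max_eq_left h, max_eq_right (by linarith : -y ≤ 0)]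
      ring
    · rw [max_eq_right h, max_eq_left (by linarith : (0:ℝ) ≤ -y)]
      ring
  rw [h1, abs_mul, abs_pow, Real.abs_exp, h3]

/-- reflection -/
theorem Cl_refl (hf : Cl p q f) : Cl q p (fun y => f (-y)) := by
  refine ⟨hf.1.comp contDiff_neg, fun j => ?_⟩
  obtain ⟨C, hC⟩ := hf.2 j
  refine ⟨C, fun y => ?_⟩
  have h1 : bd q p y = bd p q (-y) := by
    unfold bd
    rw [neg_neg]
    congr 1
    ring
  rw [iteratedDeriv_comp_neg, h1, smul_eq_mul, abs_mul, abs_pow, abs_neg, abs_one, one_pow, one_mul]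
  exact hC (-y)

end H98KB

end S_H98_KB_Cla

section S_H98_KB_Tan

/-!
# Tan : `tanh`, `sech` and the weights `Th`, `om`, `ch`, `loc` in the class `Cl`

`tanh(cy)' = c(1-tanh²)`, `1/cosh² = 1 - tanh²`, `1/cosh(cy) ≤ 2 e^{-c|y|}`.
`Cl_tanh`: by `Cl_of_deriv` bootstrapping, or: every iterated derivative of `T=tanh(c y)` is a polynomial in
`T` (induction) hence bounded; and it is a multiple of `1-T²` for `j ≥ 1`.
`Th B y = (1+tanh(y/(2B)))/2`, `Th ≤ e^{y/B}` for `y ≤ 0`.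
-/

open MeasureTheory Filter Topology Set
open scoped ContDiff

namespace H98KB

theorem Tan_sub_sq (x : ℝ) : 1 - Real.tanh x ^ 2 = 1 / Real.cosh x ^ 2 := by
  have hc : Real.cosh x ≠ 0 := (Real.cosh_pos x).ne'
  rw [Real.tanh_eq_sinh_div_cosh]
  have h := Real.cosh_sq x
  field_simp
  linarith

theorem Tan_sub_pos (x : ℝ) : 0 < 1 - Real.tanh x ^ 2 := by
  rw [Tan_sub_sq]
  have := Real.cosh_pos x
  positivity

theorem Tan_hd0 (x : ℝ) : HasDerivAt Real.tanh (1 - Real.tanh x ^ 2) x := by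
  have hc : Real.cosh x ≠ 0 := (Real.cosh_pos x).ne'
  have h := (Real.hasDerivAt_sinh x).div (Real.hasDerivAt_cosh x) hc
  have e : Real.tanh = fun y => Real.sinh y / Real.cosh y := funext Real.tanh_eq_sinh_div_cosh
  have e2 : 1 - Real.tanh x ^ 2
      = (Real.cosh x * Real.cosh x - Real.sinh x * Real.sinh x) / Real.cosh x ^ 2 := by
    rw [Real.tanh_eq_sinh_div_cosh]
    field_simp
  rw [e2, e]
  exact h

theorem tanh_hd (c y : ℝ) : HasDerivAt (fun y => Real.tanh (c * y)) (c * (1 - Real.tanh (c * y) ^ 2)) y := by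
  have h1 : HasDerivAt (fun y : ℝ => c * y) (c * 1) y := (hasDerivAt_id y).const_mul c
  have h2 := (Tan_hd0 (c * y)).comp y h1
  refine h2.congr_deriv ?_
  ring

theorem tanh_abs_lt (x : ℝ) : |Real.tanh x| < 1 := by
  have h := Tan_sub_pos x
  rw [← sq_lt_one_iff_abs_lt_one]
  linarith

theorem se2_eq (c y : ℝ) : se2 c y = 1 - Real.tanh (c * y) ^ 2 := by
  rw [Tan_sub_sq, se2, div_pow, one_pow]

theorem ch_eq (B y : ℝ) : ch B y = 1 - Real.tanh (y / B) ^ 2 := by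
  rw [Tan_sub_sq, ch, div_pow, one_pow]

theorem ch_eq' (B y : ℝ) : ch B y = se2 (1 / B) y := by
  unfold ch se2
  rw [div_mul_eq_mul_div, one_mul]

theorem th_eq (k : ℕ) (y : ℝ) : th k y = Real.tanh ((k : ℝ) / 2 * y) := by
  unfold th
  congr 1
  ring

theorem th_hd (k : ℕ) (y : ℝ) : HasDerivAt (th k) ((k : ℝ) / 2 * (1 - th k y ^ 2)) y := by
  have e : th k = fun y => Real.tanh ((k : ℝ) / 2 * y) := funext (th_eq k)
  rw [th_eq k y, e]
  exact tanh_hd _ _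

theorem th_abs_lt (k : ℕ) (y : ℝ) : |th k y| < 1 := by
  rw [th_eq]
  exact tanh_abs_lt _

theorem th_neg (k : ℕ) (y : ℝ) : th k (-y) = -th k y := by
  rw [th_eq, th_eq, mul_neg, Real.tanh_neg]

theorem se2_pos (c y : ℝ) : 0 < se2 c y := by
  rw [se2_eq]
  exact Tan_sub_pos _

theorem se2_le_one (c y : ℝ) : se2 c y ≤ 1 := by
  rw [se2_eq]
  nlinarith [sq_nonneg (Real.tanh (c * y))]

theorem se2_neg (c y : ℝ) : se2 c (-y) = se2 c y := by
  rw [se2_eq, se2_eq, mul_neg, Real.tanh_neg, neg_sq]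

theorem se2_hd (c y : ℝ) : HasDerivAt (se2 c) (-2 * c * Real.tanh (c * y) * se2 c y) y := by
  have e : se2 c = fun y => 1 - Real.tanh (c * y) ^ 2 := funext (se2_eq c)
  have h := ((tanh_hd c y).pow 2).const_sub 1
  rw [se2_eq c y, e]
  refine h.congr_deriv ?_
  ring

theorem Tan_cosh_le (x : ℝ) : Real.cosh x ≤ Real.exp |x| := by
  rw [Real.cosh_eq]
  have h1 : Real.exp x ≤ Real.exp |x| := Real.exp_le_exp.mpr (le_abs_self x)
  have h2 : Real.exp (-x) ≤ Real.exp |x| := Real.exp_le_exp.mpr (neg_le_abs x)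
  linarith

theorem Tan_le_cosh (x : ℝ) : Real.exp |x| ≤ 2 * Real.cosh x := by
  rw [Real.cosh_eq]
  have h1 := Real.exp_abs_le x
  linarith

/-- `e^{-2|c y|} ≤ se2 c y ≤ 4 e^{-2|c y|}` -/
theorem se2_lo (c y : ℝ) : Real.exp (-(2 * |c * y|)) ≤ se2 c y := by
  have h0 := Real.cosh_pos (c * y)
  have h1 := Tan_cosh_le (c * y)
  have h2 : Real.exp (-(2 * |c * y|)) = (1 / Real.exp |c * y|) ^ 2 := by
    rw [one_div, ← Real.exp_neg, ← Real.exp_nat_mul]
    congr 1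
    push_cast
    ring
  rw [h2, se2]
  have h3 : 1 / Real.exp |c * y| ≤ 1 / Real.cosh (c * y) := one_div_le_one_div_of_le h0 h1
  have h4 : 0 ≤ 1 / Real.exp |c * y| := by positivity
  exact pow_le_pow_left₀ h4 h3 2

theorem Tan_sech_le (x : ℝ) : 1 / Real.cosh x ≤ 2 * Real.exp (-|x|) := by
  have h0 := Real.cosh_pos x
  have h1 := Tan_le_cosh x
  rw [div_le_iff₀ h0]
  have h2 : Real.exp (-|x|) * Real.exp |x| = 1 := by
    rw [← Real.exp_add]
    simp
  have h3 : 0 < Real.exp (-|x|) := Real.exp_pos _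
  nlinarith

theorem se2_hi (c y : ℝ) : se2 c y ≤ 4 * Real.exp (-(2 * |c * y|)) := by
  have h0 := Real.cosh_pos (c * y)
  have h1 := Tan_sech_le (c * y)
  have h2 : Real.exp (-(2 * |c * y|)) = (Real.exp (-|c * y|)) ^ 2 := by
    rw [← Real.exp_nat_mul]
    congr 1
    push_cast
    ring
  rw [h2, se2]
  have h4 : 0 ≤ 1 / Real.cosh (c * y) := by positivity
  have h5 := pow_le_pow_left₀ h4 h1 2
  calc (1 / Real.cosh (c * y)) ^ 2 ≤ (2 * Real.exp (-|c * y|)) ^ 2 := h5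
    _ = 4 * Real.exp (-|c * y|) ^ 2 := by ring

/-! general principle: `w' = w R(T)` -/

theorem Tan_step (c : ℝ) (w : ℝ → ℝ) (R : Polynomial ℝ)
    (hw : ∀ y, HasDerivAt w (w y * R.eval (Real.tanh (c * y))) y) (P : Polynomial ℝ) (y : ℝ) :
    HasDerivAt (fun y => w y * P.eval (Real.tanh (c * y)))
      (w y * (R * P + Polynomial.C c * (1 - Polynomial.X ^ 2) * Polynomial.derivative P).eval
        (Real.tanh (c * y))) y := by
  have h1 : HasDerivAt (fun y => P.eval (Real.tanh (c * y)))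
      ((Polynomial.derivative P).eval (Real.tanh (c * y)) * (c * (1 - Real.tanh (c * y) ^ 2))) y :=
    HasDerivAt.comp (h₂ := fun t => P.eval t) y (P.hasDerivAt (Real.tanh (c * y))) (tanh_hd c y)
  have h2 := (hw y).mul h1
  refine h2.congr_deriv ?_
  simp only [Polynomial.eval_add, Polynomial.eval_mul, Polynomial.eval_sub, Polynomial.eval_one,
    Polynomial.eval_pow, Polynomial.eval_X, Polynomial.eval_C]
  ring

theorem Tan_iter (c : ℝ) (w : ℝ → ℝ) (R : Polynomial ℝ)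
    (hw : ∀ y, HasDerivAt w (w y * R.eval (Real.tanh (c * y))) y) (j : ℕ) :
    ∀ P : Polynomial ℝ, ∃ Q : Polynomial ℝ,
      iteratedDeriv j (fun y => w y * P.eval (Real.tanh (c * y)))
        = fun y => w y * Q.eval (Real.tanh (c * y)) := by
  induction j with
  | zero =>
    intro P
    exact ⟨P, iteratedDeriv_zero⟩
  | succ j ih =>
    intro P
    obtain ⟨Q, hQ⟩ := ih (R * P + Polynomial.C c * (1 - Polynomial.X ^ 2) * Polynomial.derivative P)
    refine ⟨Q, ?_⟩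
    rw [iteratedDeriv_succ', ← hQ]
    congr 1
    funext y
    exact (Tan_step c w R hw P y).deriv

theorem Tan_bdd (P : Polynomial ℝ) : ∃ C : ℝ, ∀ x : ℝ, |x| ≤ 1 → |P.eval x| ≤ C := by
  obtain ⟨C, hC⟩ := (isCompact_Icc (a := (-1 : ℝ)) (b := 1)).exists_bound_of_continuousOn
    (f := fun x => P.eval x) P.continuous.continuousOn
  refine ⟨C, fun x hx => ?_⟩
  exact hC x (abs_le.mp hx)

theorem Tan_Cl {c p q K : ℝ} {w : ℝ → ℝ} {R : Polynomial ℝ}
    (hw : ∀ y, HasDerivAt w (w y * R.eval (Real.tanh (c * y))) y)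
    (hb : ∀ y, |w y| ≤ K * bd p q y) (P : Polynomial ℝ) :
    Cl p q (fun y => w y * P.eval (Real.tanh (c * y))) := by
  constructor
  · have h := contDiff_of_differentiable_iteratedDeriv (n := ⊤)
      (f := fun y => w y * P.eval (Real.tanh (c * y))) (𝕜 := ℝ) ?_
    · exact h
    · intro m _
      obtain ⟨Q, hQ⟩ := Tan_iter c w R hw m P
      rw [hQ]
      exact fun y => (Tan_step c w R hw Q y).differentiableAt
  · intro j
    obtain ⟨Q, hQ⟩ := Tan_iter c w R hw j P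
    obtain ⟨C, hC⟩ := Tan_bdd Q
    refine ⟨C * K, fun y => ?_⟩
    rw [hQ]
    show |w y * Q.eval (Real.tanh (c * y))| ≤ _
    rw [abs_mul]
    have h1 := hC _ (tanh_abs_lt (c * y)).le
    have h2 := hb y
    have h3 : 0 ≤ |w y| := abs_nonneg _
    have h4 : 0 ≤ |Q.eval (Real.tanh (c * y))| := abs_nonneg _
    calc |w y| * |Q.eval (Real.tanh (c * y))| ≤ (K * bd p q y) * C :=
          mul_le_mul h2 h1 h4 (h3.trans h2)
      _ = C * K * bd p q y := by ring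

theorem Cl_tanh (c : ℝ) : Cl 0 0 (fun y => Real.tanh (c * y)) := by
  have h := Tan_Cl (c := c) (p := 0) (q := 0) (K := 1) (w := fun _ => 1) (R := 0)
    (fun y => by simpa using hasDerivAt_const y (1 : ℝ)) (fun y => by simp [bd_zero]) Polynomial.X
  simpa using h

theorem Cl_th (k : ℕ) : Cl 0 0 (th k) := by
  have e : th k = fun y => Real.tanh ((k : ℝ) / 2 * y) := funext (th_eq k)
  rw [e]
  exact Cl_tanh _

theorem Cl_se2 {c : ℝ} (hc : 0 < c) : Cl (2 * c) (2 * c) (se2 c) := by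
  have h := Tan_Cl (c := c) (p := 2 * c) (q := 2 * c) (K := 4) (w := se2 c)
    (R := Polynomial.C (-2 * c) * Polynomial.X) (fun y => by
      refine (se2_hd c y).congr_deriv ?_
      simp only [Polynomial.eval_mul, Polynomial.eval_C, Polynomial.eval_X]
      ring) (fun y => by
      rw [abs_of_pos (se2_pos c y), bd_abs]
      refine (se2_hi c y).trans (le_of_eq ?_)
      rw [abs_mul, abs_of_pos hc]
      congr 3
      ring) 1
  simpa using h

theorem Cl_ch {B : ℝ} (hB : 0 < B) : Cl (2 / B) (2 / B) (ch B) := by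
  have e : ch B = se2 (1 / B) := funext (ch_eq' B)
  have h := Cl_se2 (c := 1 / B) (by positivity)
  rw [e]
  have e2 : 2 * (1 / B) = 2 / B := by ring
  rw [e2] at h
  exact h

theorem Cl_sech {c : ℝ} (hc : 0 < c) : Cl c c (fun y => 1 / Real.cosh (c * y)) := by
  have h := Tan_Cl (c := c) (p := c) (q := c) (K := 2) (w := fun y => 1 / Real.cosh (c * y))
    (R := Polynomial.C (-c) * Polynomial.X) (fun y => by
      have h0 : Real.cosh (c * y) ≠ 0 := (Real.cosh_pos _).ne'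
      have h1 : HasDerivAt (fun y : ℝ => c * y) (c * 1) y := (hasDerivAt_id y).const_mul c
      have h2 := ((Real.hasDerivAt_cosh (c * y)).comp y h1).inv h0
      have h3 : (fun y => 1 / Real.cosh (c * y)) = (Real.cosh ∘ fun y => c * y)⁻¹ := by
        funext y
        simp
      rw [h3]
      refine h2.congr_deriv ?_
      simp only [Polynomial.eval_mul, Polynomial.eval_C, Polynomial.eval_X, Function.comp]
      rw [Real.tanh_eq_sinh_div_cosh]
      field_simp) (fun y => by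
      have h0 := Real.cosh_pos (c * y)
      rw [abs_of_pos (by positivity), bd_abs]
      refine (Tan_sech_le (c * y)).trans (le_of_eq ?_)
      rw [abs_mul, abs_of_pos hc]) 1
  simpa using h

end H98KB

end S_H98_KB_Tan

section S_H98_KB_Clb

/-!
# Clb (second half of Cla) : calculus of the class `Cl p q`

`bd p q y = exp(-(p max(y,0)) - q max(-y,0))`, `Cl p q f` : `f` smooth and every derivative is `O(bd p q)`.
Everything is elementary.  `Cl_mul`: Leibniz (`iteratedDeriv` of a product; in Mathlib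
`norm_iteratedFDeriv_mul_le` + `norm_iteratedFDeriv_eq_norm_iteratedDeriv`, or induction on `j` using
`deriv (f g) = f' g + f g'` and the fact that the class is closed under derivatives).  `Cl_ibp`: `f g` is
in `Cl (p+p') (q+q')`, tends to `0` at `±∞`, use `integral_mul_deriv_eq_deriv_mul_of_integrable` or
`integral_of_hasDerivAt_of_tendsto`.
-/

open MeasureTheory Filter Topology Set
open scoped ContDiff

namespace H98KB

variable {p q p' q' : ℝ} {f g : ℝ → ℝ}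

theorem bd_int {p q : ℝ} (hp : 0 < p) (hq : 0 < q) : Integrable (bd p q) := by
  rw [← integrableOn_univ, ← Set.Iic_union_Ioi (a := (0 : ℝ))]
  refine IntegrableOn.union ?_ ?_
  · refine (integrableOn_exp_mul_Iic hq 0).congr_fun ?_ measurableSet_Iic
    intro y hy
    exact (bd_of_nonpos hy).symm
  · refine (exp_neg_integrableOn_Ioi 0 hp).congr_fun ?_ measurableSet_Ioi
    intro y hy
    have hy' : 0 < y := hy
    show Real.exp (-p * y) = bd p q y
    rw [bd_of_nonneg hy'.le]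
    congr 1
    ring

/-- a continuous function dominated by `bd` is integrable -/
theorem Clb_int_of_bd {F : ℝ → ℝ} (hF : Continuous F) (hp : 0 < p) (hq : 0 < q)
    (h : ∃ C : ℝ, ∀ y, |F y| ≤ C * bd p q y) : Integrable F := by
  obtain ⟨C, hC⟩ := h
  refine ((bd_int hp hq).const_mul C).mono' hF.aestronglyMeasurable ?_
  exact Eventually.of_forall fun y => by rw [Real.norm_eq_abs]; exact hC y

theorem Cl_int (h : Cl p q f) (hp : 0 < p) (hq : 0 < q) : Integrable f := by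
  obtain ⟨C, _, hC⟩ := Cl_bnd h
  exact Clb_int_of_bd (Cl_cont h) hp hq ⟨C, hC⟩

theorem Cl_tendsto_top (h : Cl p q f) (hp : 0 < p) : Tendsto f atTop (𝓝 0) := by
  obtain ⟨C, _, hC⟩ := Cl_bnd h
  have h1 : Tendsto (fun y : ℝ => C * Real.exp (-(p * y))) atTop (𝓝 0) := by
    have h2 : Tendsto (fun y : ℝ => p * y) atTop atTop := tendsto_id.const_mul_atTop hp
    have h3 := (Real.tendsto_exp_neg_atTop_nhds_zero.comp h2).const_mul C
    rw [mul_zero] at h3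
    exact h3
  refine squeeze_zero_norm' ?_ h1
  filter_upwards [eventually_ge_atTop (0 : ℝ)] with y hy
  rw [Real.norm_eq_abs, ← bd_of_nonneg (q := q) hy]
  exact hC y

theorem Cl_tendsto_bot (h : Cl p q f) (hq : 0 < q) : Tendsto f atBot (𝓝 0) := by
  have h1 := Cl_tendsto_top (Cl_refl h) hq
  have h2 := h1.comp tendsto_neg_atBot_atTop
  refine h2.congr fun y => ?_
  simp

theorem Clb_der_int (h : Cl p q f) (hp : 0 < p) (hq : 0 < q) : Integrable (deriv f) :=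
  Cl_int (Cl_der h) hp hq

theorem Cl_int_deriv (h : Cl p q f) (hp : 0 < p) (hq : 0 < q) : ∫ y, deriv f y = 0 := by
  have h1 := integral_of_hasDerivAt_of_tendsto (fun y => Cl_hd h y) (Clb_der_int h hp hq)
    (Cl_tendsto_bot h hq) (Cl_tendsto_top h hp)
  rw [h1, sub_zero]

theorem Cl_ibp (hf : Cl p q f) (hg : Cl p' q' g) (hp : 0 < p + p') (hq : 0 < q + q') :
    ∫ y, deriv f y * g y = -∫ y, f y * deriv g y := by
  have h1 := Cl_int_deriv (Cl_mul hf hg) hp hq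
  have h2 : (fun y => deriv (fun z => f z * g z) y) = fun y => deriv f y * g y + f y * deriv g y := by
    funext y
    exact ((Cl_hd hf y).mul (Cl_hd hg y)).deriv
  have i1 : Integrable (fun y => deriv f y * g y) := Cl_int (Cl_mul (Cl_der hf) hg) hp hq
  have i2 : Integrable (fun y => f y * deriv g y) := Cl_int (Cl_mul hf (Cl_der hg)) hp hq
  rw [h2, integral_add i1 i2] at h1
  linarith

/-- the main tool for integrations by parts: exhibit a primitive `H` of the difference -/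
theorem Cl_int_eq {F G H : ℝ → ℝ} (hF : Integrable F) (hG : Integrable G) (hH : Cl p q H)
    (hp : 0 < p) (hq : 0 < q) (h : ∀ y, F y - G y = deriv H y) : ∫ y, F y = ∫ y, G y := by
  have h1 := Cl_int_deriv hH hp hq
  have h2 : (fun y => deriv H y) = fun y => F y - G y := by
    funext y
    exact (h y).symm
  rw [h2, integral_sub hF hG] at h1
  linarith

/-- same with an inequality -/
theorem Cl_int_le {F G H : ℝ → ℝ} (hF : Integrable F) (hG : Integrable G) (hH : Cl p q H)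
    (hp : 0 < p) (hq : 0 < q) (h : ∀ y, F y ≤ G y + deriv H y) : ∫ y, F y ≤ ∫ y, G y := by
  have h1 := Cl_int_deriv hH hp hq
  have h2 : ∫ y, F y ≤ ∫ y, (G y + deriv H y) :=
    integral_mono hF (hG.add (Clb_der_int hH hp hq)) h
  rw [integral_add hG (Clb_der_int hH hp hq), h1, add_zero] at h2
  exact h2

/-- a continuous function dominated by `bd` is integrable -/
theorem int_of_bd {F : ℝ → ℝ} (hF : Continuous F) (hp : 0 < p) (hq : 0 < q)
    (h : ∃ C : ℝ, ∀ y, |F y| ≤ C * bd p q y) : Integrable F :=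
  Clb_int_of_bd hF hp hq h

/-- Cauchy-Schwarz for integrals of continuous functions -/
theorem cs_int {F G : ℝ → ℝ} (hF : Continuous F) (hG : Continuous G)
    (hF2 : Integrable (fun y => F y ^ 2)) (hG2 : Integrable (fun y => G y ^ 2)) :
    Integrable (fun y => F y * G y) ∧ |∫ y, F y * G y| ≤ √(∫ y, F y ^ 2) * √(∫ y, G y ^ 2) := by
  have hI : Integrable (fun y => F y * G y) := by
    refine (hF2.add hG2).mono' (hF.mul hG).aestronglyMeasurable ?_
    refine Eventually.of_forall fun y => ?_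
    rw [Real.norm_eq_abs, abs_mul]
    show |F y| * |G y| ≤ F y ^ 2 + G y ^ 2
    have h1 := sq_nonneg (|F y| - |G y|)
    have h2 := sq_abs (F y)
    have h3 := sq_abs (G y)
    nlinarith [mul_nonneg (abs_nonneg (F y)) (abs_nonneg (G y))]
  refine ⟨hI, ?_⟩
  have hA : 0 ≤ ∫ y, F y ^ 2 := integral_nonneg fun y => sq_nonneg _
  have hd : discrim (∫ y, F y ^ 2) (-(2 * ∫ y, F y * G y)) (∫ y, G y ^ 2) ≤ 0 := by
    refine discrim_le_zero fun s => ?_
    have h1 : 0 ≤ ∫ y, (s * F y - G y) ^ 2 := integral_nonneg fun y => sq_nonneg _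
    have h2 : ∫ y, (s * F y - G y) ^ 2 = ∫ y, (s ^ 2 * F y ^ 2 - 2 * s * (F y * G y) + G y ^ 2) := by
      congr 1
      funext y
      ring
    have i1 : Integrable (fun y => s ^ 2 * F y ^ 2 - 2 * s * (F y * G y)) :=
      (hF2.const_mul (s ^ 2)).sub (hI.const_mul (2 * s))
    rw [h2, integral_add i1 hG2,
      integral_sub (hF2.const_mul (s ^ 2)) (hI.const_mul (2 * s)), integral_const_mul,
      integral_const_mul] at h1
    linarith
  have hd2 : (∫ y, F y * G y) ^ 2 ≤ (∫ y, F y ^ 2) * ∫ y, G y ^ 2 := by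
    unfold discrim at hd
    nlinarith
  rw [← Real.sqrt_mul hA]
  exact Real.abs_le_sqrt hd2

/-- weighted Cauchy-Schwarz: `|∫ f φ| ≤ C √(∫ W f²)` when `φ² ≤ C₀ W * (integrable)`. -/
theorem cs_wt {F φ W : ℝ → ℝ} (hF : Continuous F) (hφ : Continuous φ) (hW : Continuous W)
    (hWp : ∀ y, 0 < W y) (hF2 : Integrable (fun y => W y * F y ^ 2))
    (hφ2 : Integrable (fun y => φ y ^ 2 / W y)) :
    Integrable (fun y => F y * φ y) ∧
      |∫ y, F y * φ y| ≤ √(∫ y, φ y ^ 2 / W y) * √(∫ y, W y * F y ^ 2) := by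
  have hs : Continuous (fun y => √(W y)) := Real.continuous_sqrt.comp hW
  have hs0 : ∀ y, 0 < √(W y) := fun y => Real.sqrt_pos.mpr (hWp y)
  have e1 : (fun y => (φ y / √(W y)) ^ 2) = fun y => φ y ^ 2 / W y := by
    funext y
    rw [div_pow, Real.sq_sqrt (hWp y).le]
  have e2 : (fun y => (√(W y) * F y) ^ 2) = fun y => W y * F y ^ 2 := by
    funext y
    rw [mul_pow, Real.sq_sqrt (hWp y).le]
  have e3 : (fun y => (φ y / √(W y)) * (√(W y) * F y)) = fun y => F y * φ y := by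
    funext y
    have := (hs0 y).ne'
    field_simp
  have h := cs_int (F := fun y => φ y / √(W y)) (G := fun y => √(W y) * F y)
    (hφ.div hs fun y => (hs0 y).ne') (hs.mul hF) (by rw [e1]; exact hφ2) (by rw [e2]; exact hF2)
  rw [e1, e2, e3] at h
  exact h

/-- one dimensional Sobolev inequality -/
theorem sup_le (h : Cl p q f) (hp : 0 < p) (hq : 0 < q) (y : ℝ) :
    f y ^ 2 ≤ 2 * √(∫ z, f z ^ 2) * √(∫ z, deriv f z ^ 2) := by
  have hf2 : Integrable (fun z => f z ^ 2) := by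
    have h1 := Cl_int (Cl_mul h h) (by linarith) (by linarith)
    refine h1.congr (Eventually.of_forall fun z => ?_)
    show f z * f z = f z ^ 2
    ring
  have hd2 : Integrable (fun z => deriv f z ^ 2) := by
    have h1 := Cl_int (Cl_mul (Cl_der h) (Cl_der h)) (by linarith) (by linarith)
    refine h1.congr (Eventually.of_forall fun z => ?_)
    show deriv f z * deriv f z = deriv f z ^ 2
    ring
  have ha : Integrable (fun z => (|f z|) ^ 2) := hf2.congr (Eventually.of_forall fun z => (sq_abs _).symm)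
  have hb : Integrable (fun z => (|deriv f z|) ^ 2) :=
    hd2.congr (Eventually.of_forall fun z => (sq_abs _).symm)
  obtain ⟨hI, hcs⟩ := cs_int (Cl_cont h).abs (Cl_cont (Cl_der h)).abs ha hb
  have hsq : ∀ z, HasDerivAt (fun w => f w * f w) (2 * (f z * deriv f z)) z := by
    intro z
    refine ((Cl_hd h z).mul (Cl_hd h z)).congr_deriv ?_
    ring
  have hfd : Integrable (fun z => 2 * (f z * deriv f z)) :=
    (Cl_int (Cl_mul h (Cl_der h)) (by linarith) (by linarith)).const_mul 2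
  have hbot : Tendsto (fun w => f w * f w) atBot (𝓝 0) :=
    Cl_tendsto_bot (Cl_mul h h) (by linarith)
  have h1 : ∫ z in Iic y, 2 * (f z * deriv f z) = f y * f y - 0 :=
    integral_Iic_of_hasDerivAt_of_tendsto (hsq y).continuousAt.continuousWithinAt
      (fun z _ => hsq z) hfd.integrableOn hbot
  have h2 : |∫ z in Iic y, 2 * (f z * deriv f z)| ≤ ∫ z in Iic y, |2 * (f z * deriv f z)| :=
    abs_integral_le_integral_abs
  have h3 : ∫ z in Iic y, |2 * (f z * deriv f z)| ≤ ∫ z, |2 * (f z * deriv f z)| :=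
    setIntegral_le_integral hfd.abs (Eventually.of_forall fun z => abs_nonneg _)
  have h4 : ∫ z, |2 * (f z * deriv f z)| = 2 * ∫ z, |f z| * |deriv f z| := by
    rw [← integral_const_mul]
    congr 1
    funext z
    rw [abs_mul, abs_mul, abs_two]
  have h5 : (fun z => (|f z|) ^ 2) = fun z => f z ^ 2 := by
    funext z
    exact sq_abs _
  have h6 : (fun z => (|deriv f z|) ^ 2) = fun z => deriv f z ^ 2 := by
    funext z
    exact sq_abs _
  rw [h5, h6] at hcs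
  have h7 := le_abs_self (∫ z, |f z| * |deriv f z|)
  have h8 := le_abs_self (∫ z in Iic y, 2 * (f z * deriv f z))
  nlinarith

end H98KB

end S_H98_KB_Clb

section S_H98_KB_Sol

/-!
# Sol : the soliton

Write `t = th k y`, `κ = k/2`, `C0 = (k+1)(k+2)/2`; `t' = κ(1-t²)`.
* `Q' = -tQ` : `Q = A cosh(κy)^{-2/k}` (rpow), derivative `A (-(2/k)) cosh^{-2/k-1} sinh κ = -t Q`.
* `Q^k = C0 cosh(κ y)^{-2} = C0 (1-t²)` (`Real.rpow_natCast`, `Real.rpow_mul`).
* `Q'' = -t'Q + t²Q = (t² - κ(1-t²)) Q = Q - Q^{k+1}/(k+1)` since `C0/(k+1) = (k+2)/2 = 1+κ`.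
* bounds: `e^{|κy|}/2 ≤ cosh(κy) ≤ e^{|κy|}` so `A e^{-|y|} ≤ Q ≤ A 2^{2/k} e^{-|y|}`.
* `Cl_Qf`: `Cl_of_deriv`-type bootstrap: `Q' = -t Q` with `t ∈ Cl 0 0`: every iterated derivative of `Q` is
  (an element of `Cl 0 0`) times `Q` (induction).
-/

open MeasureTheory Filter Topology Set
open scoped ContDiff

namespace H98KB

/-- `C0 = (k+1)(k+2)/2` -/
noncomputable def C0 (k : ℕ) : ℝ := ((k : ℝ) + 1) * ((k : ℝ) + 2) / 2

variable {k : ℕ}

theorem Sol_C0_pos (k : ℕ) : 0 < C0 k := by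
  unfold C0
  positivity

theorem Sol_Qf (k : ℕ) (y : ℝ) : Qf k y = C0 k ^ (1 / (k : ℝ)) *
    (Real.cosh ((k : ℝ) * y / 2)) ^ (-(2 / (k : ℝ))) := rfl

theorem Sol_A_pos (k : ℕ) : 0 < C0 k ^ (1 / (k : ℝ)) := Real.rpow_pos_of_pos (Sol_C0_pos k) _

theorem Qf_pos (k : ℕ) (y : ℝ) : 0 < Qf k y := by
  rw [Sol_Qf]
  exact mul_pos (Sol_A_pos k) (Real.rpow_pos_of_pos (Real.cosh_pos _) _)

theorem Qf_neg (k : ℕ) (y : ℝ) : Qf k (-y) = Qf k y := by
  rw [Sol_Qf, Sol_Qf]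
  have e : (k : ℝ) * -y / 2 = -((k : ℝ) * y / 2) := by ring
  rw [e, Real.cosh_neg]

theorem Sol_cosh_hd (k : ℕ) (y : ℝ) : HasDerivAt (fun y => Real.cosh ((k : ℝ) * y / 2))
    (Real.sinh ((k : ℝ) * y / 2) * ((k : ℝ) / 2)) y := by
  have e0 : HasDerivAt (fun y : ℝ => (k : ℝ) * y / 2) ((k : ℝ) / 2) y := by
    have := ((hasDerivAt_id' y).const_mul (k : ℝ)).div_const 2
    rw [mul_one] at this
    exact this
  exact e0.cosh

theorem Qf_hd (hk : 1 ≤ k) (y : ℝ) : HasDerivAt (Qf k) (-(th k y) * Qf k y) y := by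
  have hk0 : (k : ℝ) ≠ 0 := by
    have : (1 : ℝ) ≤ k := by exact_mod_cast hk
    linarith
  have hc : Real.cosh ((k : ℝ) * y / 2) ≠ 0 := (Real.cosh_pos _).ne'
  have h1 := ((Sol_cosh_hd k y).rpow_const (p := -(2 / (k : ℝ))) (Or.inl hc)).const_mul
    (C0 k ^ (1 / (k : ℝ)))
  refine h1.congr_deriv ?_
  rw [Real.rpow_sub_one hc, Sol_Qf, th, Real.tanh_eq_sinh_div_cosh]
  field_simp

theorem Qf_deriv (hk : 1 ≤ k) : deriv (Qf k) = fun y => -(th k y) * Qf k y := by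
  funext y
  exact (Qf_hd hk y).deriv

theorem Sol_one_sub (k : ℕ) (y : ℝ) : 1 - th k y ^ 2 = (Real.cosh ((k : ℝ) * y / 2) ^ 2)⁻¹ := by
  have hc : Real.cosh ((k : ℝ) * y / 2) ≠ 0 := (Real.cosh_pos _).ne'
  have h2 := Real.cosh_sq ((k : ℝ) * y / 2)
  rw [th, Real.tanh_eq_sinh_div_cosh]
  field_simp
  rw [h2]
  ring

theorem Qf_pow (hk : 1 ≤ k) (y : ℝ) : Qf k y ^ k = C0 k * (1 - th k y ^ 2) := by
  have hk0 : (k : ℝ) ≠ 0 := by
    have : (1 : ℝ) ≤ k := by exact_mod_cast hk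
    linarith
  have hc := Real.cosh_pos ((k : ℝ) * y / 2)
  have hA : (C0 k ^ (1 / (k : ℝ))) ^ k = C0 k := by
    rw [one_div]
    exact Real.rpow_inv_natCast_pow (Sol_C0_pos k).le (by omega)
  have hB : (Real.cosh ((k : ℝ) * y / 2) ^ (-(2 / (k : ℝ)))) ^ k =
      (Real.cosh ((k : ℝ) * y / 2) ^ 2)⁻¹ := by
    rw [← Real.rpow_natCast, ← Real.rpow_mul hc.le]
    have e : -(2 / (k : ℝ)) * (k : ℝ) = -(2 : ℕ) := by
      push_cast
      field_simp
    rw [e, Real.rpow_neg hc.le, Real.rpow_natCast]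
  rw [Sol_Qf, mul_pow, hA, hB, Sol_one_sub]

theorem Qf_deriv2 (hk : 1 ≤ k) (y : ℝ) : deriv (deriv (Qf k)) y =
    (th k y ^ 2 - (k : ℝ) / 2 * (1 - th k y ^ 2)) * Qf k y := by
  rw [Qf_deriv hk]
  have h1 := ((th_hd k y).neg).mul (Qf_hd hk y)
  have h2 : HasDerivAt (fun y => -(th k y) * Qf k y)
      ((th k y ^ 2 - (k : ℝ) / 2 * (1 - th k y ^ 2)) * Qf k y) y := by
    refine h1.congr_deriv ?_
    simp only [Pi.neg_apply]
    ring
  exact h2.deriv

theorem Qf_eq (hk : 1 ≤ k) (y : ℝ) : deriv (deriv (Qf k)) y = Qf k y - fl k (Qf k y) := by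
  rw [Qf_deriv2 hk, fl, pow_succ (Qf k y) k, Qf_pow hk, C0]
  have h1 : (k : ℝ) + 1 ≠ 0 := by positivity
  field_simp
  ring

theorem Sol_exp (hk : 1 ≤ k) (y : ℝ) :
    Real.exp |(k : ℝ) * y / 2| ^ (-(2 / (k : ℝ))) = Real.exp (-|y|) := by
  have hk1 : (0 : ℝ) < k := by
    have : (1 : ℝ) ≤ k := by exact_mod_cast hk
    linarith
  rw [← Real.exp_mul, abs_div, abs_mul, abs_of_pos hk1, abs_of_pos (by norm_num : (0 : ℝ) < 2)]
  congr 1
  field_simp

theorem Sol_r (hk : 1 ≤ k) : -(2 / (k : ℝ)) ≤ 0 := by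
  have : 0 ≤ 2 / (k : ℝ) := by positivity
  linarith

theorem Qf_lo (hk : 1 ≤ k) : ∃ c : ℝ, 0 < c ∧ ∀ y, c * Real.exp (-|y|) ≤ Qf k y := by
  refine ⟨C0 k ^ (1 / (k : ℝ)), Sol_A_pos k, fun y => ?_⟩
  rw [Sol_Qf, ← Sol_exp hk]
  apply mul_le_mul_of_nonneg_left _ (Sol_A_pos k).le
  apply Real.rpow_le_rpow_of_nonpos (Real.cosh_pos _) _ (Sol_r hk)
  rw [← Real.cosh_abs, Real.cosh_eq]
  have h1 : Real.exp (-|(k : ℝ) * y / 2|) ≤ Real.exp |(k : ℝ) * y / 2| :=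
    Real.exp_le_exp.2 (by linarith [abs_nonneg ((k : ℝ) * y / 2)])
  linarith

theorem Qf_hi (hk : 1 ≤ k) : ∃ C : ℝ, 0 < C ∧ ∀ y, Qf k y ≤ C * Real.exp (-|y|) := by
  refine ⟨C0 k ^ (1 / (k : ℝ)) * (1 / 2 : ℝ) ^ (-(2 / (k : ℝ))), ?_, fun y => ?_⟩
  · exact mul_pos (Sol_A_pos k) (Real.rpow_pos_of_pos (by norm_num) _)
  · rw [Sol_Qf, ← Sol_exp hk, mul_assoc]
    apply mul_le_mul_of_nonneg_left _ (Sol_A_pos k).le
    rw [← Real.mul_rpow (by norm_num) (Real.exp_pos _).le]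
    apply Real.rpow_le_rpow_of_nonpos (by positivity) _ (Sol_r hk)
    rw [← Real.cosh_abs, Real.cosh_eq]
    have h1 := Real.exp_pos (-|(k : ℝ) * y / 2|)
    linarith

theorem Sol_iter (hk : 1 ≤ k) (j : ℕ) :
    ∃ g : ℝ → ℝ, Cl 0 0 g ∧ iteratedDeriv j (Qf k) = fun y => g y * Qf k y := by
  induction j with
  | zero =>
    refine ⟨fun _ => 1, Cl_const 1, ?_⟩
    rw [iteratedDeriv_zero]
    funext y
    rw [one_mul]
  | succ j ih =>
    obtain ⟨g, hg, hj⟩ := ih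
    refine ⟨fun y => deriv g y - th k y * g y, Cl_sub (Cl_der hg) (Cl_mul0 (Cl_th k) hg), ?_⟩
    rw [iteratedDeriv_succ, hj]
    funext y
    have h1 := (Cl_hd hg y).mul (Qf_hd hk y)
    have h2 : HasDerivAt (fun y => g y * Qf k y) ((deriv g y - th k y * g y) * Qf k y) y := by
      refine h1.congr_deriv ?_
      ring
    exact h2.deriv

theorem Cl_Qf (hk : 1 ≤ k) : Cl 1 1 (Qf k) := by
  constructor
  · have h1 : ContDiff ℝ ∞ (fun y : ℝ => Real.cosh ((k : ℝ) * y / 2)) := by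
      fun_prop
    have h2 : ContDiff ℝ ∞ (fun y : ℝ => Real.cosh ((k : ℝ) * y / 2) ^ (-(2 / (k : ℝ)))) :=
      h1.rpow_const_of_ne fun y => (Real.cosh_pos _).ne'
    exact contDiff_const.mul h2
  · intro j
    obtain ⟨g, hg, hj⟩ := Sol_iter hk j
    obtain ⟨C, hC, hC'⟩ := Qf_hi hk
    obtain ⟨C2, hC2, hC2'⟩ := Cl_bnd hg
    refine ⟨C2 * C, fun y => ?_⟩
    rw [hj, bd_abs, one_mul]
    simp only
    rw [abs_mul, abs_of_pos (Qf_pos k y)]
    have h1 := hC2' y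
    rw [bd_zero, mul_one] at h1
    calc |g y| * Qf k y ≤ C2 * (C * Real.exp (-|y|)) :=
          mul_le_mul h1 (hC' y) (Qf_pos k y).le hC2
      _ = C2 * C * Real.exp (-|y|) := by ring

theorem Cl_Qk (hk : 1 ≤ k) : Cl k k (fun y => Qf k y ^ k) := by
  have := Cl_pow (Cl_Qf hk) k
  rwa [mul_one] at this

/-- `(Q^k)' = -k t Q^k` -/
theorem Qk_hd (hk : 1 ≤ k) (y : ℝ) :
    HasDerivAt (fun y => Qf k y ^ k) (-(k : ℝ) * th k y * Qf k y ^ k) y := by
  have h1 := (Qf_hd hk y).pow k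
  refine h1.congr_deriv ?_
  obtain ⟨n, rfl⟩ : ∃ n, k = n + 1 := ⟨k - 1, by omega⟩
  rw [Nat.add_sub_cancel, pow_succ]
  ring

end H98KB

end S_H98_KB_Sol

section S_H98_KB_Som

/-!
# Som (second half of Sol) : the soliton

Write `t = th k y`, `κ = k/2`, `C0 = (k+1)(k+2)/2`; `t' = κ(1-t²)`.
* `Q' = -tQ` : `Q = A cosh(κy)^{-2/k}` (rpow), derivative `A (-(2/k)) cosh^{-2/k-1} sinh κ = -t Q`.
* `Q^k = C0 cosh(κ y)^{-2} = C0 (1-t²)` (`Real.rpow_natCast`, `Real.rpow_mul`).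
* `Q'' = -t'Q + t²Q = (t² - κ(1-t²)) Q = Q - Q^{k+1}/(k+1)` since `C0/(k+1) = (k+2)/2 = 1+κ`.
* bounds: `e^{|κy|}/2 ≤ cosh(κy) ≤ e^{|κy|}` so `A e^{-|y|} ≤ Q ≤ A 2^{2/k} e^{-|y|}`.
* `Cl_Qf`: `Cl_of_deriv`-type bootstrap: `Q' = -t Q` with `t ∈ Cl 0 0`: every iterated derivative of `Q` is
  (an element of `Cl 0 0`) times `Q` (induction).
-/

open MeasureTheory Filter Topology Set
open scoped ContDiff

namespace H98KB

variable {k : ℕ}

/-- `Λ Q = (2/k - y t) Q` -/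
theorem LamQ_eq (hk : 1 ≤ k) (y : ℝ) : Lam k (Qf k) y = (2 / (k : ℝ) - y * th k y) * Qf k y := by
  unfold Lam
  rw [Qf_deriv hk]
  ring

theorem Som_Cl_Lam {p q c : ℝ} {f : ℝ → ℝ} (k : ℕ) (hf : Cl p q f) (hc : 0 < c) :
    Cl (p - c) (q - c) (Lam k f) := by
  have h1 : Cl (p - c) (q - c) (fun y => 2 / (k : ℝ) * f y) :=
    Cl_mono (Cl_smul _ hf) (by linarith) (by linarith)
  have h2 : Cl (p - c) (q - c) (fun y => y * deriv f y) := by
    have h := Cl_mul (Cl_id hc) (Cl_der hf)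
    have e1 : -c + p = p - c := by ring
    have e2 : -c + q = q - c := by ring
    rw [e1, e2] at h
    exact h
  exact Cl_add h1 h2

theorem Cl_LamQ (hk : 1 ≤ k) {c : ℝ} (hc : c < 1) : Cl c c (Lam k (Qf k)) := by
  have h := Som_Cl_Lam k (Cl_Qf hk) (c := 1 - c) (by linarith)
  have e1 : (1 : ℝ) - (1 - c) = c := by ring
  rw [e1] at h
  exact h

theorem Cl_nf (hk : 1 ≤ k) {c : ℝ} (hc : c < 1) : Cl c c (nf k) :=
  Cl_add (Cl_LamQ hk hc) (Cl_smul _ (Cl_mono (Cl_Qf hk) hc.le hc.le))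

theorem Cl_ph0 (hk : 1 ≤ k) : Cl (1 + (k : ℝ) / 2) (1 + (k : ℝ) / 2) (ph0 k) := by
  have hk' : (0 : ℝ) < (k : ℝ) / 2 := by
    have : (1 : ℝ) ≤ k := by exact_mod_cast hk
    linarith
  have h := Cl_mul (Cl_Qf hk) (Cl_sech hk')
  have e : (fun y => Qf k y * (1 / Real.cosh ((k : ℝ) / 2 * y))) = ph0 k := by
    funext y
    unfold ph0
    rw [show (k : ℝ) / 2 * y = (k : ℝ) * y / 2 by ring]
    ring
  rw [e] at h
  exact h

theorem ph0_pos (k : ℕ) (y : ℝ) : 0 < ph0 k y :=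
  div_pos (Qf_pos k y) (Real.cosh_pos _)

/-- `φ₀' = -(1+κ) t φ₀` -/
theorem ph0_hd (hk : 1 ≤ k) (y : ℝ) :
    HasDerivAt (ph0 k) (-(1 + (k : ℝ) / 2) * th k y * ph0 k y) y := by
  have h0 : HasDerivAt (fun y : ℝ => (k : ℝ) * y / 2) ((k : ℝ) / 2) y := by
    have := ((hasDerivAt_id y).const_mul (k : ℝ)).div_const 2
    simpa using this
  have h1 : HasDerivAt (fun y => Real.cosh ((k : ℝ) * y / 2))
      (Real.sinh ((k : ℝ) * y / 2) * ((k : ℝ) / 2)) y := h0.cosh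
  have hc : Real.cosh ((k : ℝ) * y / 2) ≠ 0 := (Real.cosh_pos _).ne'
  have h2 := (Qf_hd hk y).div h1 hc
  refine h2.congr_deriv ?_
  unfold ph0 th
  rw [Real.tanh_eq_sinh_div_cosh]
  field_simp
  ring

theorem Cl_Lop {p q : ℝ} {f : ℝ → ℝ} (hk : 1 ≤ k) (hf : Cl p q f) : Cl p q (Lop k f) := by
  have hk0 : (0 : ℝ) ≤ k := by exact_mod_cast Nat.zero_le k
  have h1 : Cl 0 0 (fun y => Qf k y ^ k) := Cl_mono (Cl_Qk hk) hk0 hk0
  exact Cl_sub (Cl_add (Cl_neg (Cl_der (Cl_der hf))) hf) (Cl_mul0 h1 hf)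

theorem Cl_Lam {p q c : ℝ} {f : ℝ → ℝ} (k : ℕ) (hf : Cl p q f) (hc : 0 < c) :
    Cl (p - c) (q - c) (Lam k f) := Som_Cl_Lam k hf hc

theorem Lop_symm {p q p' q' : ℝ} {f g : ℝ → ℝ} (hk : 1 ≤ k) (hf : Cl p q f) (hg : Cl p' q' g)
    (hp : 0 < p + p') (hq : 0 < q + q') : ip (Lop k f) g = ip f (Lop k g) := by
  unfold ip
  have hH : Cl (p + p') (q + q') (fun y => f y * deriv g y - deriv f y * g y) :=
    Cl_sub (Cl_mul hf (Cl_der hg)) (Cl_mul (Cl_der hf) hg)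
  refine Cl_int_eq (Cl_int (Cl_mul (Cl_Lop hk hf) hg) hp hq)
    (Cl_int (Cl_mul hf (Cl_Lop hk hg)) hp hq) hH hp hq ?_
  intro y
  have h1 : HasDerivAt (fun y => f y * deriv g y - deriv f y * g y)
      ((deriv f y * deriv g y + f y * deriv (deriv g) y) -
        (deriv (deriv f) y * g y + deriv f y * deriv g y)) y :=
    ((Cl_hd hf y).mul (Cl_hd (Cl_der hg) y)).sub ((Cl_hd (Cl_der hf) y).mul (Cl_hd hg y))
  rw [h1.deriv]
  unfold Lop
  ring

end H98KB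

end S_H98_KB_Som

section S_H98_KB_IfG

/-!
# Interface of the static part (sections 2-6 of the note): owner helper98

`Good k γ η δ M B c C` collects every static inequality needed by the bootstrap.  All constants
`γ η δ M B c C` depend on `k` only.
-/

open MeasureTheory Filter Topology Set
open scoped ContDiff

namespace H98KB

/-- hypotheses on a function `ε` (rescaled variable) for a weight with parameter `ρ` -/
def Adm (ρ p q : ℝ) (ε : ℝ → ℝ) : Prop := ρ < p ∧ p ≤ 1 / 2 ∧ 0 < q ∧ q ≤ 1 / 2 ∧ Cl p q ε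

/-- `b, m` solve the modulation system -/
def Orth (k : ℕ) (b m l : ℝ) (ε e : ℝ → ℝ) : Prop :=
  ip (zeta k b m l ε e) (Qf k) = 0 ∧ ip (zeta k b m l ε e) (deriv (Qf k)) = 0

structure Good (k : ℕ) (γ η δ M B c C : ℝ) : Prop where
  hγ : 0 < γ
  hη : 0 < η
  hδ : 0 < δ
  hM : 0 < M
  hB : 16 ≤ B
  hc : 0 < c
  hc1 : c ≤ 1
  hC : 1 ≤ C
  /-- main differential inequality -/
  ML : ∀ R, C ≤ R → ∃ l₁ : ℝ, 0 < l₁ ∧ l₁ ≤ 1 ∧ ∀ l, 0 < l → l ≤ l₁ → ∀ (p q : ℝ) (ε e : ℝ → ℝ),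
    Adm (R * l) p q ε → Adm (R * l) p q e → (∀ y, |ε y| ≤ c) → ln γ B ε ≤ c →
    Gn B (R * l) e ≤ c → ∀ b m, 0 ≤ b → b ≤ 2 * kap k * l → Orth k b m l ε e →
    M * DE k B (R * l) b ε (zeta k b m l ε e) + DV k η γ B δ ε (zeta k b m l ε e) ≤
      -c * (Tn B (R * l) ε + ln γ B ε) - c * R * l * Gn B (R * l) ε
        + C * (l ^ 2 + (ip ε (Qf k)) ^ 2 + (ip ε (deriv (Qf k))) ^ 2) + C / l * Gn B (R * l) e
  /-- bounds for the modulation parameters -/
  BM : ∀ ρ, Slow B ρ → ∀ l, 0 < l → l ≤ 1 → ∀ (p q : ℝ) (ε e : ℝ → ℝ),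
    Adm ρ p q ε → Adm ρ p q e → (∀ y, |ε y| ≤ c) → ln γ B ε ≤ c → Gn B ρ e ≤ c →
    ∀ b m, Orth k b m l ε e →
    |b - kap k * l| ≤ C * (l * √(ln γ B ε) + ln γ B ε + |ip ε (deriv (Qf k))| + √(Gn B ρ e)) ∧
    |m| ≤ C * (√(ln γ B ε) + √(Gn B ρ e))
  /-- coercivity -/
  CO : ∀ ρ, Slow B ρ → ∀ (p q : ℝ) (ε : ℝ → ℝ), Adm ρ p q ε → (∀ y, |ε y| ≤ c) →
    Gn B ρ ε ≤ C * (LL k η γ δ M B ρ ε + C * ((ip ε (ph0 k)) ^ 2 + (ip ε (deriv (Qf k))) ^ 2)) ∧
    |LL k η γ δ M B ρ ε| ≤ C * Gn B ρ ε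
  /-- the unstable direction -/
  DL : ∀ ρ, Slow B ρ → ∀ l, 0 < l → l ≤ 1 → ∀ (p q : ℝ) (ε e : ℝ → ℝ),
    Adm ρ p q ε → Adm ρ p q e → (∀ y, |ε y| ≤ c) → ln γ B ε ≤ c → Gn B ρ e ≤ c →
    ∀ b m, 0 ≤ b → b ≤ 2 * kap k * l → Orth k b m l ε e →
    |ip (zeta k b m l ε e) (ph0 k)| ≤ C * (√(ln γ B ε) + l + √(Gn B ρ e))
  /-- the gradient norm -/
  DX : ∀ ρ, Slow B ρ → ∀ l, 0 < l → l ≤ 1 → ∀ (p q : ℝ) (ε e : ℝ → ℝ),
    Adm ρ p q ε → Adm ρ p q e → (∀ y, |ε y| ≤ c) → ln γ B ε ≤ c → Gn B ρ e ≤ c →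
    (∀ y, |ε y| ^ (4 * (k - 1)) * (Xn ε) ^ 5 ≤ l ^ 7) →
    ∀ b m, 0 ≤ b → b ≤ 2 * kap k * l → Orth k b m l ε e →
    ip (deriv ε) (deriv (zeta k b m l ε e)) ≤ -b * (1 - sc k) * Xn ε
      + C * (Tn B ρ ε + ln γ B ε) + C * l ^ 2 + C * Gn B ρ e + C / l * Xn e
  /-- local norms are controlled -/
  LN : ∀ ρ, Slow B ρ → ∀ (p q : ℝ) (ε : ℝ → ℝ), Adm ρ p q ε →
    ln γ B ε ≤ C * Gn B ρ ε ∧ |ip ε (ph0 k)| ≤ C * √(ln γ B ε) ∧
    |ip ε (Qf k)| ≤ C * √(ln γ B ε) ∧ |ip ε (deriv (Qf k))| ≤ C * √(ln γ B ε)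
  /-- Lipschitz bound for the Lyapunov functional -/
  LIP : ∀ ρ, Slow B ρ → ∀ (p q : ℝ) (ε ε' : ℝ → ℝ), Adm ρ p q ε → Adm ρ p q ε' →
    (∀ y, |ε y| ≤ c) → (∀ y, |ε' y| ≤ c) →
    |LL k η γ δ M B ρ ε - LL k η γ δ M B ρ ε'| ≤
      C * √(Gn B ρ (fun y => ε y - ε' y)) * (√(Gn B ρ ε) + √(Gn B ρ ε'))
  /-- initial data -/
  IN : ∃ cn : ℝ, 0 < cn ∧ ∀ ρ, Slow B ρ → ∀ a : ℝ, |a| ≤ c →
    |LL k η γ δ M B ρ (fun y => a * nf k y) + cn * a ^ 2| ≤ C * (ρ * a ^ 2 + |a| ^ 3)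

/-- what the static part delivers -/
def ThmG : Prop := ∀ k : ℕ, 5 ≤ k → ∃ γ η δ M B c C : ℝ, Good k γ η δ M B c C

/-- facts about `n` -/
def ThmN : Prop := ∀ k : ℕ, 5 ≤ k → Cl (1 / 2) (1 / 2) (nf k) ∧ ip (nf k) (Qf k) = 0 ∧
  ip (nf k) (deriv (Qf k)) = 0 ∧ ip (nf k) (ph0 k) ≠ 0

end H98KB

end S_H98_KB_IfG

section S_H72_KB_ClA

/-!
# Row ClA: the weights `bd p q`

`bd p q y = exp(-(p * max y 0) - q * max (-y) 0)`: equals `e^{-p y}` for `y ≥ 0` and `e^{q y}` for `y ≤ 0`.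
(`p`, `q` may be negative in `bd_pos bd_cont bd_anti bd_mul bd_le_exp bd_poly`.)

* `bd_le_exp`: `p max y 0 + q max (-y) 0 ≥ (min p q) (max y 0 + max (-y) 0) = (min p q) |y|`.
* `bd_int`: continuous and `≤ exp (-(min p q) * |y|)` which is integrable (on `Ioi 0`:
  `exp_neg_integrableOn_Ioi`, by symmetry on `Iic 0`; or `integrable_of_isBigO_exp_neg`-type lemmas).
* `bd_poly`: with `s = min (p-p') (q-q') > 0`: `(1+|y|)^n e^{-s|y|}` is bounded
  (`Real.add_one_le_exp`: `1+|y| ≤ (n+1)/s' * exp (s'|y|/(n+1))`-type bound, or continuity + limit 0), and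
  `bd p q y = bd (p-p') (q-q') y * bd p' q' y ≤ e^{-s|y|} bd p' q' y` (`bd_mul`, `bd_le_exp`).
* `bd_shift`: `max (ly+x) 0 ≥ max (ly) 0 - |x| = l max y 0 - |x|` and the same for the negative part.
-/

open MeasureTheory Filter Topology Set
open scoped ContDiff

namespace H72KB

open H98KB

theorem ClA_abs (y : ℝ) : max y 0 + max (-y) 0 = |y| := by
  rcases le_total 0 y with h | h
  · rw [max_eq_left h, max_eq_right (by linarith : -y ≤ (0 : ℝ)), abs_of_nonneg h, add_zero]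
  · rw [max_eq_right h, max_eq_left (by linarith : (0 : ℝ) ≤ -y), abs_of_nonpos h, zero_add]

theorem bd_pos (p q y : ℝ) : 0 < bd p q y := by
  exact Real.exp_pos _

theorem bd_cont (p q : ℝ) : Continuous (bd p q) := by
  unfold bd
  fun_prop

theorem bd_le_one {p q : ℝ} (hp : 0 ≤ p) (hq : 0 ≤ q) (y : ℝ) : bd p q y ≤ 1 := by
  unfold bd
  rw [Real.exp_le_one_iff]
  have h1 := mul_nonneg hp (le_max_right y 0)
  have h2 := mul_nonneg hq (le_max_right (-y) 0)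
  linarith

theorem bd_anti {p p' q q' : ℝ} (hp : p ≤ p') (hq : q ≤ q') (y : ℝ) : bd p' q' y ≤ bd p q y := by
  unfold bd
  rw [Real.exp_le_exp]
  have h1 := mul_le_mul_of_nonneg_right hp (le_max_right y 0)
  have h2 := mul_le_mul_of_nonneg_right hq (le_max_right (-y) 0)
  linarith

theorem bd_mul (p q p' q' y : ℝ) : bd p q y * bd p' q' y = bd (p + p') (q + q') y := by
  unfold bd
  rw [← Real.exp_add]
  congr 1
  ring

theorem bd_le_exp {p q : ℝ} (y : ℝ) : bd p q y ≤ Real.exp (-(min p q) * |y|) := by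
  unfold bd
  rw [Real.exp_le_exp]
  have h1 := mul_le_mul_of_nonneg_right (min_le_left p q) (le_max_right y 0)
  have h2 := mul_le_mul_of_nonneg_right (min_le_right p q) (le_max_right (-y) 0)
  have h3 := ClA_abs y
  rw [← h3]
  nlinarith

theorem bd_int {p q : ℝ} (hp : 0 < p) (hq : 0 < q) : Integrable (bd p q) := by
  rw [← integrableOn_univ, ← Set.Iic_union_Ioi (a := (0 : ℝ))]
  refine IntegrableOn.union ?_ ?_
  · refine (integrableOn_exp_mul_Iic hq 0).congr_fun ?_ measurableSet_Iic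
    intro y hy
    have hy' : y ≤ 0 := hy
    show Real.exp (q * y) = bd p q y
    unfold bd
    rw [max_eq_right hy', max_eq_left (by linarith : (0 : ℝ) ≤ -y)]
    congr 1
    ring
  · refine (exp_neg_integrableOn_Ioi 0 hp).congr_fun ?_ measurableSet_Ioi
    intro y hy
    have hy' : 0 < y := hy
    show Real.exp (-p * y) = bd p q y
    unfold bd
    rw [max_eq_left hy'.le, max_eq_right (by linarith : -y ≤ (0 : ℝ))]
    congr 1
    ring

theorem bd_poly (n : ℕ) {p p' q q' : ℝ} (hp : p' < p) (hq : q' < q) :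
    ∃ C : ℝ, 0 < C ∧ ∀ y, (1 + |y|) ^ n * bd p q y ≤ C * bd p' q' y := by
  have hs : 0 < min (p - p') (q - q') := lt_min (by linarith) (by linarith)
  set s := min (p - p') (q - q') with hsdef
  have ha : 0 < s / ((n : ℝ) + 1) := by positivity
  set a := s / ((n : ℝ) + 1) with hadef
  refine ⟨(1 + 1 / a) ^ n, by positivity, fun y => ?_⟩
  have h0 : 0 ≤ |y| := abs_nonneg y
  have h1 : 1 + |y| ≤ (1 + 1 / a) * Real.exp (a * |y|) := by
    have h2 : a * |y| + 1 ≤ Real.exp (a * |y|) := Real.add_one_le_exp _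
    have h3 : 0 < 1 + 1 / a := by positivity
    have h4 := mul_le_mul_of_nonneg_left h2 h3.le
    have h5 : (1 + 1 / a) * (a * |y| + 1) = a * |y| + 1 + |y| + 1 / a := by
      field_simp
      ring
    have h6 : 0 ≤ a * |y| := mul_nonneg ha.le h0
    have h7 : 0 < 1 / a := by positivity
    linarith
  have h2 : (1 + |y|) ^ n ≤ (1 + 1 / a) ^ n * Real.exp (s * |y|) := by
    calc (1 + |y|) ^ n ≤ ((1 + 1 / a) * Real.exp (a * |y|)) ^ n :=
          pow_le_pow_left₀ (by positivity) h1 n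
      _ = (1 + 1 / a) ^ n * Real.exp (n * (a * |y|)) := by rw [mul_pow, ← Real.exp_nat_mul]
      _ ≤ (1 + 1 / a) ^ n * Real.exp (s * |y|) := by
          refine mul_le_mul_of_nonneg_left ?_ (by positivity)
          rw [Real.exp_le_exp]
          have h3 : (n : ℝ) * a ≤ s := by
            rw [hadef, mul_div_assoc', div_le_iff₀ (by positivity)]
            nlinarith
          have h4 := mul_le_mul_of_nonneg_right h3 h0
          linarith
  have h3 : bd p q y = bd (p - p') (q - q') y * bd p' q' y := by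
    rw [bd_mul, sub_add_cancel, sub_add_cancel]
  have h4 : bd (p - p') (q - q') y ≤ Real.exp (-s * |y|) := bd_le_exp y
  have h5 : 0 < bd p' q' y := bd_pos p' q' y
  rw [h3, ← mul_assoc]
  refine mul_le_mul_of_nonneg_right ?_ h5.le
  calc (1 + |y|) ^ n * bd (p - p') (q - q') y
      ≤ ((1 + 1 / a) ^ n * Real.exp (s * |y|)) * Real.exp (-s * |y|) :=
        mul_le_mul h2 h4 (bd_pos _ _ _).le (by positivity)
    _ = (1 + 1 / a) ^ n := by
        rw [mul_assoc, ← Real.exp_add]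
        have : s * |y| + -s * |y| = 0 := by ring
        rw [this, Real.exp_zero, mul_one]

theorem bd_shift {p q l : ℝ} (hp : 0 ≤ p) (hq : 0 ≤ q) (hl : 0 ≤ l) (x y : ℝ) :
    bd p q (l * y + x) ≤ Real.exp ((p + q) * |x|) * bd (l * p) (l * q) y := by
  unfold bd
  rw [← Real.exp_add, Real.exp_le_exp]
  have h1 : l * max y 0 - |x| ≤ max (l * y + x) 0 := by
    have h3 := neg_abs_le x
    rcases le_total 0 y with h | h
    · rw [max_eq_left h]
      exact le_trans (by linarith) (le_max_left _ _)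
    · rw [max_eq_right h]
      exact le_trans (by linarith [abs_nonneg x]) (le_max_right _ _)
  have h2 : l * max (-y) 0 - |x| ≤ max (-(l * y + x)) 0 := by
    have h3 := le_abs_self x
    rcases le_total 0 (-y) with h | h
    · rw [max_eq_left h]
      exact le_trans (by linarith) (le_max_left _ _)
    · rw [max_eq_right h]
      exact le_trans (by linarith [abs_nonneg x]) (le_max_right _ _)
  have h3 := mul_le_mul_of_nonneg_left h1 hp
  have h4 := mul_le_mul_of_nonneg_left h2 hq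
  nlinarith

end H72KB

end S_H72_KB_ClA

section S_H72_KB_ClB

/-!
# Row ClB: algebra of the classes `Cl p q`

* `Cl_mul`: Leibniz formula for `iteratedDeriv` of a product (`iteratedDeriv_mul`/`iteratedDeriv_fun_mul` if
  present, or induction on `j` for the statement for all pairs `f,g`: `deriv (f g) = f' g + f g'`, both again
  products of functions of class `Cl`; `iteratedDeriv_succ'`).  Weights multiply by `bd_mul`.
* `Cl_pow`: induction, `Cl (p+p) (q+q) ⊆ Cl p q` for `p,q ≥ 0`.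
* `Cl_ymul`: `iteratedDeriv j (y f) = y f^{(j)} + j f^{(j-1)}` by induction, then `bd_poly` with `n = 1`.
* `iter_comp`: induction (or `iteratedDeriv_comp_const_mul`-type lemmas).
* `Cl_comp`: `iter_comp`, then `bd_shift`.
-/

open MeasureTheory Filter Topology Set
open scoped ContDiff

namespace H72KB

open H98KB

theorem ClB_at {f : ℝ → ℝ} (h : ContDiff ℝ ∞ f) (j : ℕ) (y : ℝ) : ContDiffAt ℝ j f y :=
  (contDiff_infty.1 h j).contDiffAt

theorem ClB_pos {p q : ℝ} {f : ℝ → ℝ} (h : Cl p q f) (j : ℕ) :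
    ∃ C : ℝ, 0 ≤ C ∧ ∀ y, |iteratedDeriv j f y| ≤ C * bd p q y := by
  obtain ⟨C, hC⟩ := h.2 j
  refine ⟨|C|, abs_nonneg C, fun y => (hC y).trans ?_⟩
  exact mul_le_mul_of_nonneg_right (le_abs_self C) (bd_pos p q y).le

theorem Cl_mono {p p' q q' : ℝ} {f : ℝ → ℝ} (hp : p' ≤ p) (hq : q' ≤ q) (h : Cl p q f) :
    Cl p' q' f := by
  refine ⟨h.1, fun j => ?_⟩
  obtain ⟨C, hC0, hC⟩ := ClB_pos h j
  refine ⟨C, fun y => (hC y).trans ?_⟩
  exact mul_le_mul_of_nonneg_left (bd_anti hp hq y) hC0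

theorem Cl_add {p q : ℝ} {f g : ℝ → ℝ} (hf : Cl p q f) (hg : Cl p q g) :
    Cl p q (fun y => f y + g y) := by
  refine ⟨hf.1.add hg.1, fun j => ?_⟩
  obtain ⟨A, hA⟩ := hf.2 j
  obtain ⟨B, hB⟩ := hg.2 j
  refine ⟨A + B, fun y => ?_⟩
  rw [iteratedDeriv_fun_add (ClB_at hf.1 j y) (ClB_at hg.1 j y), add_mul]
  exact (abs_add_le _ _).trans (add_le_add (hA y) (hB y))

theorem Cl_smul {p q : ℝ} {f : ℝ → ℝ} (c : ℝ) (hf : Cl p q f) : Cl p q (fun y => c * f y) := by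
  refine ⟨contDiff_const.mul hf.1, fun j => ?_⟩
  obtain ⟨A, hA⟩ := hf.2 j
  refine ⟨|c| * A, fun y => ?_⟩
  rw [iteratedDeriv_const_mul_field, abs_mul, mul_assoc]
  exact mul_le_mul_of_nonneg_left (hA y) (abs_nonneg c)

theorem Cl_sub {p q : ℝ} {f g : ℝ → ℝ} (hf : Cl p q f) (hg : Cl p q g) :
    Cl p q (fun y => f y - g y) := by
  have h := Cl_add hf (Cl_smul (-1) hg)
  have e : (fun y => f y - g y) = fun y => f y + -1 * g y := by
    funext y
    ring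
  rw [e]
  exact h

theorem Cl_mul {p q p' q' : ℝ} {f g : ℝ → ℝ} (hf : Cl p q f) (hg : Cl p' q' g) :
    Cl (p + p') (q + q') (fun y => f y * g y) := by
  refine ⟨hf.1.mul hg.1, fun j => ?_⟩
  choose A hA0 hA using ClB_pos hf
  choose B hB0 hB using ClB_pos hg
  refine ⟨∑ i ∈ Finset.range (j + 1), (j.choose i : ℝ) * A i * B (j - i), fun y => ?_⟩
  rw [iteratedDeriv_fun_mul (ClB_at hf.1 j y) (ClB_at hg.1 j y), Finset.sum_mul]
  refine (Finset.abs_sum_le_sum_abs _ _).trans (Finset.sum_le_sum fun i _ => ?_)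
  rw [abs_mul, abs_mul, Nat.abs_cast, ← bd_mul, mul_assoc]
  have h1 : |iteratedDeriv i f y| * |iteratedDeriv (j - i) g y|
      ≤ (A i * bd p q y) * (B (j - i) * bd p' q' y) :=
    mul_le_mul (hA i y) (hB (j - i) y) (abs_nonneg _)
      (mul_nonneg (hA0 i) (bd_pos p q y).le)
  calc (j.choose i : ℝ) * (|iteratedDeriv i f y| * |iteratedDeriv (j - i) g y|)
      ≤ (j.choose i : ℝ) * ((A i * bd p q y) * (B (j - i) * bd p' q' y)) :=
        mul_le_mul_of_nonneg_left h1 (Nat.cast_nonneg _)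
    _ = (j.choose i : ℝ) * A i * B (j - i) * (bd p q y * bd p' q' y) := by ring

theorem Cl_pow {p q : ℝ} {f : ℝ → ℝ} (hp : 0 ≤ p) (hq : 0 ≤ q) (hf : Cl p q f) (n : ℕ)
    (hn : 1 ≤ n) : Cl p q (fun y => f y ^ n) := by
  induction n, hn using Nat.le_induction with
  | base =>
    have e : (fun y => f y ^ 1) = f := by
      funext y
      rw [pow_one]
    rw [e]
    exact hf
  | succ n hn ih =>
    have e : (fun y => f y ^ (n + 1)) = fun y => f y ^ n * f y := by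
      funext y
      rw [pow_succ]
    rw [e]
    exact Cl_mono (by linarith) (by linarith) (Cl_mul ih hf)

theorem Cl_deriv {p q : ℝ} {f : ℝ → ℝ} (hf : Cl p q f) : Cl p q (deriv f) := by
  refine ⟨(contDiff_infty_iff_deriv.1 hf.1).2, fun j => ?_⟩
  obtain ⟨C, hC⟩ := hf.2 (j + 1)
  refine ⟨C, fun y => ?_⟩
  rw [← iteratedDeriv_succ']
  exact hC y

theorem Cl_iter {p q : ℝ} {f : ℝ → ℝ} (hf : Cl p q f) (j : ℕ) : Cl p q (iteratedDeriv j f) := by
  induction j with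
  | zero =>
    rw [iteratedDeriv_zero]
    exact hf
  | succ j ih =>
    rw [iteratedDeriv_succ]
    exact Cl_deriv ih

theorem Cl_ymul {p q p' q' : ℝ} {f : ℝ → ℝ} (hp : p' < p) (hq : q' < q) (hf : Cl p q f) :
    Cl p' q' (fun y => y * f y) := by
  have hid : ContDiff ℝ ∞ (fun y : ℝ => y) := contDiff_fun_id
  refine ⟨hid.mul hf.1, fun j => ?_⟩
  choose A hA0 hA using ClB_pos hf
  obtain ⟨C, hC0, hC⟩ := bd_poly 1 hp hq
  refine ⟨(∑ i ∈ Finset.range (j + 1), (j.choose i : ℝ) * A (j - i)) * C, fun y => ?_⟩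
  rw [iteratedDeriv_fun_mul (ClB_at hid j y) (ClB_at hf.1 j y)]
  have hw : ∀ i : ℕ, |iteratedDeriv i (fun y : ℝ => y) y| ≤ 1 + |y| := by
    intro i
    rw [iteratedDeriv_fun_id]
    have := abs_nonneg y
    split_ifs
    · linarith
    · rw [abs_one]
      linarith
    · rw [abs_zero]
      linarith
  have h1 : |∑ i ∈ Finset.range (j + 1), (j.choose i : ℝ) * iteratedDeriv i (fun y : ℝ => y) y *
      iteratedDeriv (j - i) f y| ≤
      (∑ i ∈ Finset.range (j + 1), (j.choose i : ℝ) * A (j - i)) * ((1 + |y|) * bd p q y) := by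
    rw [Finset.sum_mul]
    refine (Finset.abs_sum_le_sum_abs _ _).trans (Finset.sum_le_sum fun i _ => ?_)
    rw [abs_mul, abs_mul, Nat.abs_cast, mul_assoc]
    have h2 : |iteratedDeriv i (fun y : ℝ => y) y| * |iteratedDeriv (j - i) f y|
        ≤ (1 + |y|) * (A (j - i) * bd p q y) :=
      mul_le_mul (hw i) (hA (j - i) y) (abs_nonneg _) (by positivity)
    calc (j.choose i : ℝ) * (|iteratedDeriv i (fun y : ℝ => y) y| * |iteratedDeriv (j - i) f y|)
        ≤ (j.choose i : ℝ) * ((1 + |y|) * (A (j - i) * bd p q y)) :=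
          mul_le_mul_of_nonneg_left h2 (Nat.cast_nonneg _)
      _ = (j.choose i : ℝ) * A (j - i) * ((1 + |y|) * bd p q y) := by ring
  refine h1.trans ?_
  rw [mul_assoc]
  have h3 := hC y
  rw [pow_one] at h3
  exact mul_le_mul_of_nonneg_left h3
    (Finset.sum_nonneg fun i _ => mul_nonneg (Nat.cast_nonneg _) (hA0 _))

theorem iter_comp {f : ℝ → ℝ} (hf : ContDiff ℝ ∞ f) (l x : ℝ) (j : ℕ) (y : ℝ) :
    iteratedDeriv j (fun z => f (l * z + x)) y = l ^ j * iteratedDeriv j f (l * y + x) := by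
  have hid : ContDiff ℝ ∞ (fun z : ℝ => z + x) := contDiff_fun_id.add contDiff_const
  have hg : ContDiff ℝ j (fun z => f (z + x)) := contDiff_infty.1 (hf.comp hid) j
  have h1 := congrFun (iteratedDeriv_comp_const_mul hg l) y
  have h2 := congrFun (iteratedDeriv_comp_add_const j f x) (l * y)
  refine h1.trans ?_
  rw [h2]

theorem Cl_comp {p q l : ℝ} {f : ℝ → ℝ} (hp : 0 ≤ p) (hq : 0 ≤ q) (hl : 0 ≤ l) (x : ℝ)
    (hf : Cl p q f) : Cl (l * p) (l * q) (fun y => f (l * y + x)) := by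
  have hid : ContDiff ℝ ∞ (fun z : ℝ => l * z + x) :=
    (contDiff_const.mul contDiff_fun_id).add contDiff_const
  refine ⟨hf.1.comp hid, fun j => ?_⟩
  obtain ⟨C, hC0, hC⟩ := ClB_pos hf j
  refine ⟨l ^ j * (C * Real.exp ((p + q) * |x|)), fun y => ?_⟩
  rw [iter_comp hf.1, abs_mul, abs_of_nonneg (pow_nonneg hl j), mul_assoc]
  refine mul_le_mul_of_nonneg_left ?_ (pow_nonneg hl j)
  refine (hC _).trans ?_
  rw [mul_assoc]
  exact mul_le_mul_of_nonneg_left (bd_shift hp hq hl x y) hC0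

end H72KB

end S_H72_KB_ClB

section S_H72_KB_QBas

/-!
# Row QBas: basic facts on the soliton `Q`

`Q = C0^{1/k} cosh(ky/2)^{-2/k}`, `C0 = (k+1)(k+2)/2`, `t = tanh(ky/2)`.
* `Q' = -t Q` (derivative of a real power of `cosh`), `t' = (k/2)(1 - t²)`.
* `Q^k = C0 cosh^{-2} = C0 (1 - t²)`.
* `Q'' = -t' Q + t² Q = Q (t² - (k/2)(1-t²)) = Q - (1-t²)(1+k/2) Q = Q - Q^{k+1}/(k+1)` as
  `(1+k/2)(1-t²) = ((k+2)/2)(1-t²) = Q^k/(k+1)`.
* `Cl 1 1 Q`: by induction `iteratedDeriv j Q = P_j(t) Q` with a real polynomial `P_j`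
  (`P_{j+1} = (k/2)(1-X²) P_j' - X P_j`), `|t| ≤ 1`, and `0 < Q ≤ C e^{-|y|}` because `cosh z ≥ e^{|z|}/2`.
* `Q`, `Q'` are not identically zero and continuous, so the integrals of the squares are positive.
* oddness of `Q'`, evenness of `Q`.
-/

open MeasureTheory Filter Topology Set
open scoped ContDiff

namespace H72KB

open H98KB

theorem qbas_k0 {k : ℕ} (hk : 1 ≤ k) : (k : ℝ) ≠ 0 := by
  have : k ≠ 0 := by omega
  exact_mod_cast this

theorem qbas_kpos {k : ℕ} (hk : 1 ≤ k) : (0 : ℝ) < (k : ℝ) := by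
  have : 0 < k := by omega
  exact_mod_cast this

theorem qbas_C0 (k : ℕ) : (0 : ℝ) < ((k : ℝ) + 1) * ((k : ℝ) + 2) / 2 := by
  positivity

theorem Q_pos {k : ℕ} (hk : 1 ≤ k) (y : ℝ) : 0 < Qf k y := by
  unfold Qf
  exact mul_pos (Real.rpow_pos_of_pos (qbas_C0 k) _)
    (Real.rpow_pos_of_pos (Real.cosh_pos _) _)

theorem qbas_lin (k : ℕ) (y : ℝ) :
    HasDerivAt (fun y : ℝ => (k : ℝ) * y / 2) ((k : ℝ) / 2) y := by
  have h := ((hasDerivAt_id y).const_mul (k : ℝ)).div_const 2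
  simpa using h

theorem qbas_cosh (k : ℕ) (y : ℝ) :
    HasDerivAt (fun y : ℝ => Real.cosh ((k : ℝ) * y / 2))
      (Real.sinh ((k : ℝ) * y / 2) * ((k : ℝ) / 2)) y :=
  (Real.hasDerivAt_cosh _).comp y (qbas_lin k y)

theorem qbas_sinh (k : ℕ) (y : ℝ) :
    HasDerivAt (fun y : ℝ => Real.sinh ((k : ℝ) * y / 2))
      (Real.cosh ((k : ℝ) * y / 2) * ((k : ℝ) / 2)) y :=
  (Real.hasDerivAt_sinh _).comp y (qbas_lin k y)

theorem qbas_th_eq (k : ℕ) (y : ℝ) :
    th k y = Real.sinh ((k : ℝ) * y / 2) / Real.cosh ((k : ℝ) * y / 2) := by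
  unfold th
  rw [Real.tanh_eq_sinh_div_cosh]

theorem qbas_one_sub (k : ℕ) (y : ℝ) :
    1 - (th k y) ^ 2 = 1 / (Real.cosh ((k : ℝ) * y / 2)) ^ 2 := by
  have hc : Real.cosh ((k : ℝ) * y / 2) ≠ 0 := (Real.cosh_pos _).ne'
  have h := Real.cosh_sq_sub_sinh_sq ((k : ℝ) * y / 2)
  rw [qbas_th_eq]
  field_simp
  linarith

theorem qbas_th_der (k : ℕ) (y : ℝ) :
    HasDerivAt (th k) ((k : ℝ) / 2 * (1 - (th k y) ^ 2)) y := by
  have hc : Real.cosh ((k : ℝ) * y / 2) ≠ 0 := (Real.cosh_pos _).ne'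
  have h := (qbas_sinh k y).div (qbas_cosh k y) hc
  have e : th k = fun y : ℝ => Real.sinh ((k : ℝ) * y / 2) / Real.cosh ((k : ℝ) * y / 2) := by
    funext z
    exact qbas_th_eq k z
  rw [e]
  refine h.congr_deriv ?_
  field_simp

theorem Q_der {k : ℕ} (hk : 1 ≤ k) (y : ℝ) : HasDerivAt (Qf k) (-(th k y) * Qf k y) y := by
  have hk0 := qbas_k0 hk
  have hc := Real.cosh_pos ((k : ℝ) * y / 2)
  have h1 := (qbas_cosh k y).rpow_const (p := -(2 / (k : ℝ))) (Or.inl hc.ne')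
  have h2 := h1.const_mul ((((k : ℝ) + 1) * ((k : ℝ) + 2) / 2) ^ (1 / (k : ℝ)))
  have e : Qf k = fun y : ℝ => (((k : ℝ) + 1) * ((k : ℝ) + 2) / 2) ^ (1 / (k : ℝ)) *
    (Real.cosh ((k : ℝ) * y / 2)) ^ (-(2 / (k : ℝ))) := by
    funext z
    rfl
  have e2 : Qf k y = (((k : ℝ) + 1) * ((k : ℝ) + 2) / 2) ^ (1 / (k : ℝ)) *
    (Real.cosh ((k : ℝ) * y / 2)) ^ (-(2 / (k : ℝ))) := rfl
  rw [e2, qbas_th_eq, e]
  refine h2.congr_deriv ?_
  rw [Real.rpow_sub_one hc.ne']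
  field_simp

theorem Q_pow {k : ℕ} (hk : 1 ≤ k) (y : ℝ) :
    (Qf k y) ^ k = ((k : ℝ) + 1) * ((k : ℝ) + 2) / 2 * (1 - (th k y) ^ 2) := by
  have hk0 := qbas_k0 hk
  have hc := Real.cosh_pos ((k : ℝ) * y / 2)
  unfold Qf
  rw [mul_pow, ← Real.rpow_natCast, ← Real.rpow_mul (qbas_C0 k).le,
    ← Real.rpow_natCast ((Real.cosh ((k : ℝ) * y / 2)) ^ (-(2 / (k : ℝ)))),
    ← Real.rpow_mul hc.le, qbas_one_sub]
  have e1 : 1 / (k : ℝ) * (k : ℝ) = 1 := by field_simp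
  have e2 : -(2 / (k : ℝ)) * (k : ℝ) = -2 := by field_simp
  rw [e1, e2, Real.rpow_one, Real.rpow_neg hc.le]
  norm_num

theorem qbas_deriv {k : ℕ} (hk : 1 ≤ k) : deriv (Qf k) = fun y => -(th k y) * Qf k y := by
  funext y
  exact (Q_der hk y).deriv

theorem Q_ode {k : ℕ} (hk : 1 ≤ k) (y : ℝ) :
    deriv (deriv (Qf k)) y = Qf k y - fl k (Qf k y) := by
  rw [qbas_deriv hk]
  have h := ((qbas_th_der k y).neg).mul (Q_der hk y)
  have h1 : deriv (fun y => -(th k y) * Qf k y) y =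
      -((k : ℝ) / 2 * (1 - (th k y) ^ 2)) * Qf k y + -(th k y) * (-(th k y) * Qf k y) :=
    h.deriv
  rw [h1]
  unfold fl
  rw [pow_succ (Qf k y) k, Q_pow hk]
  have : (k : ℝ) + 1 ≠ 0 := by positivity
  field_simp
  ring

theorem qbas_poly {k : ℕ} (hk : 1 ≤ k) (j : ℕ) :
    ∃ P : Polynomial ℝ, ∀ y, iteratedDeriv j (Qf k) y = P.eval (th k y) * Qf k y := by
  induction j with
  | zero => exact ⟨1, fun y => by simp⟩
  | succ n ih =>
    obtain ⟨P, hP⟩ := ih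
    refine ⟨Polynomial.C ((k : ℝ) / 2) * (1 - Polynomial.X ^ 2) * Polynomial.derivative P -
      Polynomial.X * P, fun y => ?_⟩
    rw [iteratedDeriv_succ]
    have e : iteratedDeriv n (Qf k) = fun y => P.eval (th k y) * Qf k y := funext hP
    rw [e]
    have h1 : HasDerivAt (fun y => P.eval (th k y))
        (P.derivative.eval (th k y) * ((k : ℝ) / 2 * (1 - (th k y) ^ 2))) y :=
      (P.hasDerivAt (th k y)).comp y (qbas_th_der k y)
    have h2 := h1.mul (Q_der hk y)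
    have h3 : deriv (fun y => P.eval (th k y) * Qf k y) y =
        P.derivative.eval (th k y) * ((k : ℝ) / 2 * (1 - (th k y) ^ 2)) * Qf k y +
          P.eval (th k y) * (-(th k y) * Qf k y) := h2.deriv
    rw [h3]
    simp only [Polynomial.eval_sub, Polynomial.eval_mul, Polynomial.eval_C,
      Polynomial.eval_one, Polynomial.eval_pow, Polynomial.eval_X]
    ring

theorem qbas_th_abs (k : ℕ) (y : ℝ) : |th k y| ≤ 1 := by
  unfold th
  exact (Real.abs_tanh_lt_one _).le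

theorem qbas_poly_bd (P : Polynomial ℝ) : ∃ C : ℝ, 0 ≤ C ∧ ∀ t : ℝ, |t| ≤ 1 → |P.eval t| ≤ C := by
  obtain ⟨C, hC⟩ := (isCompact_Icc (a := (-1 : ℝ)) (b := 1)).exists_bound_of_continuousOn
    (f := fun t => P.eval t) P.continuous.continuousOn
  refine ⟨|C|, abs_nonneg _, fun t ht => ?_⟩
  have h1 := hC t ⟨(abs_le.1 ht).1, (abs_le.1 ht).2⟩
  rw [Real.norm_eq_abs] at h1
  exact h1.trans (le_abs_self C)

theorem qbas_bd (y : ℝ) : bd 1 1 y = Real.exp (-|y|) := by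
  unfold bd
  congr 1
  rcases le_total 0 y with h | h
  · rw [max_eq_left h, max_eq_right (by linarith), abs_of_nonneg h]
    ring
  · rw [max_eq_right h, max_eq_left (by linarith), abs_of_nonpos h]
    ring

theorem qbas_decay {k : ℕ} (hk : 1 ≤ k) : ∃ C : ℝ, 0 ≤ C ∧ ∀ y, Qf k y ≤ C * bd 1 1 y := by
  have hk0 := qbas_kpos hk
  refine ⟨(((k : ℝ) + 1) * ((k : ℝ) + 2) / 2) ^ (1 / (k : ℝ)) * (1 / 2 : ℝ) ^ (-(2 / (k : ℝ))),
    by positivity, fun y => ?_⟩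
  unfold Qf
  rw [mul_assoc, qbas_bd]
  refine mul_le_mul_of_nonneg_left ?_ (Real.rpow_nonneg (qbas_C0 k).le _)
  have h1 : 1 / 2 * Real.exp ((k : ℝ) * |y| / 2) ≤ Real.cosh ((k : ℝ) * y / 2) := by
    rw [← Real.cosh_abs, Real.cosh_eq]
    have e : |(k : ℝ) * y / 2| = (k : ℝ) * |y| / 2 := by
      rw [abs_div, abs_mul, abs_of_pos hk0, abs_of_pos (by norm_num : (0 : ℝ) < 2)]
    rw [e]
    have := Real.exp_pos (-((k : ℝ) * |y| / 2))
    linarith
  have h2 : (0 : ℝ) < 1 / 2 * Real.exp ((k : ℝ) * |y| / 2) := by positivity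
  have h3 := Real.rpow_le_rpow_of_nonpos h2 h1 (z := -(2 / (k : ℝ)))
    (by
      have : 0 < 2 / (k : ℝ) := by positivity
      linarith)
  refine h3.trans (le_of_eq ?_)
  rw [Real.mul_rpow (by norm_num) (Real.exp_pos _).le, ← Real.exp_mul]
  congr 2
  field_simp

theorem qbas_smooth {k : ℕ} (hk : 1 ≤ k) : ContDiff ℝ ∞ (Qf k) := by
  have h1 : ContDiff ℝ ∞ (fun y : ℝ => Real.cosh ((k : ℝ) * y / 2)) :=
    Real.contDiff_cosh.comp ((contDiff_const.mul contDiff_id).div_const 2)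
  have h2 : ContDiff ℝ ∞ (fun y : ℝ => (Real.cosh ((k : ℝ) * y / 2)) ^ (-(2 / (k : ℝ)))) :=
    h1.rpow_const_of_ne (fun y => (Real.cosh_pos _).ne')
  exact contDiff_const.mul h2

theorem Q_cl {k : ℕ} (hk : 1 ≤ k) : Cl 1 1 (Qf k) := by
  refine ⟨qbas_smooth hk, fun j => ?_⟩
  obtain ⟨P, hP⟩ := qbas_poly hk j
  obtain ⟨C, hC0, hC⟩ := qbas_poly_bd P
  obtain ⟨D, hD0, hD⟩ := qbas_decay hk
  refine ⟨C * D, fun y => ?_⟩
  rw [hP, abs_mul, abs_of_pos (Q_pos hk y), mul_assoc]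
  exact mul_le_mul (hC _ (qbas_th_abs k y)) (hD y) (Q_pos hk y).le hC0

theorem Q_even (k : ℕ) (y : ℝ) : Qf k (-y) = Qf k y := by
  unfold Qf
  have e : (k : ℝ) * -y / 2 = -((k : ℝ) * y / 2) := by ring
  rw [e, Real.cosh_neg]

theorem qbas_sq_int {f : ℝ → ℝ} (hf : Cl 1 1 f) : Integrable (fun y => (f y) ^ 2) := by
  obtain ⟨C, hC⟩ := hf.2 0
  have h2 : Integrable (fun y => C ^ 2 * bd 2 2 y) :=
    (bd_int (by norm_num) (by norm_num)).const_mul _
  refine h2.mono' ((hf.1.continuous.pow 2).aestronglyMeasurable) (Eventually.of_forall ?_)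
  intro y
  have h3 := hC y
  rw [iteratedDeriv_zero] at h3
  have h4 : bd 1 1 y * bd 1 1 y = bd 2 2 y := by
    rw [bd_mul]
    norm_num
  rw [Real.norm_eq_abs, abs_of_nonneg (sq_nonneg _), ← sq_abs, ← h4]
  calc |f y| ^ 2 ≤ (C * bd 1 1 y) ^ 2 := pow_le_pow_left₀ (abs_nonneg _) h3 2
    _ = C ^ 2 * (bd 1 1 y * bd 1 1 y) := by ring

theorem Qsq_pos {k : ℕ} (hk : 1 ≤ k) : 0 < ∫ y, (Qf k y) ^ 2 := by
  have h0 : (0 : ℝ → ℝ) ≤ fun y => (Qf k y) ^ 2 := fun y => sq_nonneg _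
  rw [integral_pos_iff_support_of_nonneg h0 (qbas_sq_int (Q_cl hk))]
  have hs : Function.support (fun y => (Qf k y) ^ 2) = univ := by
    ext y
    simp only [Function.mem_support, mem_univ, iff_true]
    exact (pow_pos (Q_pos hk y) 2).ne'
  rw [hs]
  simp

theorem Q'sq_pos {k : ℕ} (hk : 1 ≤ k) : 0 < ∫ y, (deriv (Qf k) y) ^ 2 := by
  have h0 : (0 : ℝ → ℝ) ≤ fun y => (deriv (Qf k) y) ^ 2 := fun y => sq_nonneg _
  rw [integral_pos_iff_support_of_nonneg h0 (qbas_sq_int (Cl_deriv (Q_cl hk)))]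
  have hs : Ioi (0 : ℝ) ⊆ Function.support (fun y => (deriv (Qf k) y) ^ 2) := by
    intro y hy
    rw [Function.mem_support, qbas_deriv hk]
    have hy0 : (0 : ℝ) < y := hy
    have h1 : 0 < th k y := by
      rw [qbas_th_eq]
      have hk0 := qbas_kpos hk
      exact div_pos (Real.sinh_pos_iff.2 (by positivity)) (Real.cosh_pos _)
    have h2 := Q_pos hk y
    have h3 : -(th k y) * Qf k y ≠ 0 := by
      intro h
      rcases mul_eq_zero.1 h with h | h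
      · linarith
      · linarith
    exact pow_ne_zero 2 h3
  refine lt_of_lt_of_le ?_ (measure_mono hs)
  simp

theorem sc_pos {k : ℕ} (hk : 5 ≤ k) : 0 < sc k ∧ sc k < 1 / 2 := by
  have h5 : (5 : ℝ) ≤ (k : ℝ) := by exact_mod_cast hk
  unfold sc
  have h1 : 2 / (k : ℝ) ≤ 2 / 5 := div_le_div_of_nonneg_left (by norm_num) (by norm_num) h5
  have h2 : 0 < 2 / (k : ℝ) := by positivity
  constructor
  · linarith
  · linarith

theorem kap_pos {k : ℕ} (hk : 5 ≤ k) : 0 < kap k := by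
  unfold kap
  have h1 : 1 ≤ k := by omega
  exact div_pos (Q'sq_pos h1) (mul_pos (sc_pos hk).1 (Qsq_pos h1))

end H72KB

end S_H72_KB_QBas

section S_H98_KB_IfA

/-!
# Interface of part A (Theorem A of the note): owner helper37
-/

open MeasureTheory Filter Topology Set
open scoped ContDiff

namespace H98KB

/-- Statement of Theorem A.  `K` does not depend on `ν`; the constants in `App.bound` and in the
Lipschitz bounds may depend on `ν`. -/
def ThmA : Prop :=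
  ∀ (k : ℕ) (_ : 5 ≤ k) (l₀ T α a₁ : ℝ) (_ : 0 < l₀) (_ : l₀ ≤ 1) (_ : 0 < T) (_ : 1 ≤ α)
    (_ : 8 * α * l₀ ≤ 1) (_ : 0 < a₁) (_ : a₁ ≤ 1)
    (u p : ℝ → ℝ → ℝ → ℝ)
    (_ : ∀ a ∈ Icc (-a₁) a₁, IsGlobalSol k (dat k l₀ a) (u a) (p a)),
    ∃ K : ℝ, 0 < K ∧ ∀ ν : ℝ, 0 < ν → ∃ U e : ℝ → ℝ → ℝ → ℝ,
      (∀ a ∈ Icc (-a₁) a₁, App k T α (U a) (e a) ∧
        (∀ t ∈ Icc 0 T, nw α (U a t) ≤ K ∧ nw α (e a t) ≤ ν) ∧
        nw α (fun x => U a 0 x - dat k l₀ a x) ≤ ν) ∧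
      (∀ j : ℕ, ∃ C : ℝ, ∀ a ∈ Icc (-a₁) a₁, ∀ a' ∈ Icc (-a₁) a₁, ∀ t ∈ Icc 0 T, ∀ x,
        |iteratedDeriv j (U a t) x - iteratedDeriv j (U a' t) x| ≤
            C * |a - a'| * bd (α / 2) (1 / 16) x ∧
        |iteratedDeriv j (e a t) x - iteratedDeriv j (e a' t) x| ≤
            C * |a - a'| * bd (α / 2) (1 / 16) x)

end H98KB

end S_H98_KB_IfA

section S_H72_KB_Base

/-!
# Part 2 of MP_95be7d (ODE for the modulation parameters, bootstrap, shooting): definitions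

Owner helper72.  Mathematical plan: `/team-store/H98_95be7d.md` (sections 1 and 8) and
`/team-store/H72_95be7d.md`.
-/

open MeasureTheory Filter Topology Set
open scoped ContDiff

noncomputable section

namespace H72KB

open H98KB

/-- clipping to `[lo, hi]` -/
def clp (lo hi s : ℝ) : ℝ := max lo (min s hi)

/-- rescaled function `W(y) = l^{2/k} U(l y + x)` -/
def Wf (k : ℕ) (U : ℝ → ℝ) (l x y : ℝ) : ℝ := l ^ (2 / (k : ℝ)) * U (l * y + x)

/-- rescaled forcing `l^{2/k+2} e(l y + x)` -/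
def ef (k : ℕ) (e : ℝ → ℝ) (l x y : ℝ) : ℝ := l ^ 2 * Wf k e l x y

/-- `ε(y) = l^{2/k} U(l y + x) - Q(y)` -/
def epf (k : ℕ) (U : ℝ → ℝ) (l x y : ℝ) : ℝ := Wf k U l x y - Qf k y

/-! ## The modulation system, integrated by parts

`(ζ, φ) = I1 - b IA - m IB` for `W = Q + ε`. -/

def I1 (k : ℕ) (l : ℝ) (W E φ : ℝ → ℝ) : ℝ :=
  ∫ y, (W y * (iteratedDeriv 3 φ y - deriv φ y + l * iteratedDeriv 2 φ y)
    + fl k (W y) * deriv φ y + E y * deriv φ y)

def IA (k : ℕ) (W φ : ℝ → ℝ) : ℝ := ∫ y, W y * ((2 / (k : ℝ) - 1) * φ y - y * deriv φ y)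

def IB (W φ : ℝ → ℝ) : ℝ := ∫ y, W y * deriv φ y

/-- determinant of the modulation system -/
def Det (k : ℕ) (W : ℝ → ℝ) : ℝ :=
  IA k W (Qf k) * IB W (deriv (Qf k)) - IA k W (deriv (Qf k)) * IB W (Qf k)

/-- half of `Det k Q` -/
def d0 (k : ℕ) : ℝ := sc k * (∫ y, (Qf k y) ^ 2) * (∫ y, (deriv (Qf k) y) ^ 2) / 2

/-- the parameter `b` (with clipped determinant) -/
def bfn (k : ℕ) (l : ℝ) (W E : ℝ → ℝ) : ℝ :=
  (I1 k l W E (Qf k) * IB W (deriv (Qf k)) - I1 k l W E (deriv (Qf k)) * IB W (Qf k))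
    / max (Det k W) (d0 k)

/-- the parameter `m` (with clipped determinant) -/
def mfn (k : ℕ) (l : ℝ) (W E : ℝ → ℝ) : ℝ :=
  (IA k W (Qf k) * I1 k l W E (deriv (Qf k)) - IA k W (deriv (Qf k)) * I1 k l W E (Qf k))
    / max (Det k W) (d0 k)

/-- clipped vector field for `(λ, x)` -/
def VF (k : ℕ) (lo hi X₀ : ℝ) (U e : ℝ → ℝ → ℝ) (t : ℝ) (P : ℝ × ℝ) : ℝ × ℝ :=
  (-(bfn k (clp lo hi P.1) (Wf k (U t) (clp lo hi P.1) (clp (-X₀) X₀ P.2))
        (ef k (e t) (clp lo hi P.1) (clp (-X₀) X₀ P.2))) / (clp lo hi P.1) ^ 2,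
    (1 + mfn k (clp lo hi P.1) (Wf k (U t) (clp lo hi P.1) (clp (-X₀) X₀ P.2))
        (ef k (e t) (clp lo hi P.1) (clp (-X₀) X₀ P.2))) / (clp lo hi P.1) ^ 2)

/-! ## Families of approximate solutions and trajectories -/

/-- output of Theorem A for a fixed `ν` -/
structure UF (k : ℕ) (T α a₁ : ℝ) (U e : ℝ → ℝ → ℝ → ℝ) : Prop where
  app : ∀ a ∈ Icc (-a₁) a₁, App k T α (U a) (e a)
  lip : ∀ j : ℕ, ∃ C : ℝ, ∀ a ∈ Icc (-a₁) a₁, ∀ a' ∈ Icc (-a₁) a₁, ∀ t ∈ Icc 0 T, ∀ x,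
    |iteratedDeriv j (U a t) x - iteratedDeriv j (U a' t) x| ≤ C * |a - a'| * bd (α / 2) (1 / 16) x ∧
    |iteratedDeriv j (e a t) x - iteratedDeriv j (e a' t) x| ≤ C * |a - a'| * bd (α / 2) (1 / 16) x

/-- the trajectories `P a t = (λ_a(t), x_a(t))` -/
structure Traj (k : ℕ) (T a₁ l₀ lo hi X₀ : ℝ) (U e : ℝ → ℝ → ℝ → ℝ) (P : ℝ → ℝ → ℝ × ℝ) :
    Prop where
  init : ∀ a ∈ Icc (-a₁) a₁, P a 0 = (l₀, 0)
  cont : ContinuousOn (fun z : ℝ × ℝ => P z.1 z.2) (Icc (-a₁) a₁ ×ˢ Icc 0 T)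
  ode : ∀ a ∈ Icc (-a₁) a₁, ∀ t ∈ Ioo 0 T,
    HasDerivAt (P a) (VF k lo hi X₀ (U a) (e a) t (P a t)) t

/-- clipped `λ` along a trajectory -/
def lb (lo hi : ℝ) (P : ℝ → ℝ → ℝ × ℝ) (a t : ℝ) : ℝ := clp lo hi (P a t).1

/-- clipped `x` along a trajectory -/
def xb (X₀ : ℝ) (P : ℝ → ℝ → ℝ × ℝ) (a t : ℝ) : ℝ := clp (-X₀) X₀ (P a t).2

/-- `ε` along a trajectory -/
def epa (k : ℕ) (lo hi X₀ : ℝ) (U : ℝ → ℝ → ℝ → ℝ) (P : ℝ → ℝ → ℝ × ℝ) (a t : ℝ) : ℝ → ℝ :=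
  epf k (U a t) (lb lo hi P a t) (xb X₀ P a t)

/-- rescaled forcing along a trajectory -/
def eaa (k : ℕ) (lo hi X₀ : ℝ) (e : ℝ → ℝ → ℝ → ℝ) (P : ℝ → ℝ → ℝ × ℝ) (a t : ℝ) : ℝ → ℝ :=
  ef k (e a t) (lb lo hi P a t) (xb X₀ P a t)

/-- `b` along a trajectory -/
def ba (k : ℕ) (lo hi X₀ : ℝ) (U e : ℝ → ℝ → ℝ → ℝ) (P : ℝ → ℝ → ℝ × ℝ) (a t : ℝ) : ℝ :=
  bfn k (lb lo hi P a t) (Wf k (U a t) (lb lo hi P a t) (xb X₀ P a t))
    (eaa k lo hi X₀ e P a t)

/-- `m` along a trajectory -/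
def ma (k : ℕ) (lo hi X₀ : ℝ) (U e : ℝ → ℝ → ℝ → ℝ) (P : ℝ → ℝ → ℝ × ℝ) (a t : ℝ) : ℝ :=
  mfn k (lb lo hi P a t) (Wf k (U a t) (lb lo hi P a t) (xb X₀ P a t))
    (eaa k lo hi X₀ e P a t)

/-! ## Abstract flows and families (the only input of the differentiation and continuity rows) -/

/-- a smooth solution of the rescaled equation on an open set `J` of times, with uniform exponential
decay slightly faster than the weight `e^{R λ(t) y}` for `y > 0` -/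
structure Flow (k : ℕ) (R θ : ℝ) (J : Set ℝ) (lam b m : ℝ → ℝ) (ε e : ℝ → ℝ → ℝ) : Prop where
  op : IsOpen J
  R0 : 0 ≤ R
  θ0 : 0 < θ
  lo : ∀ t ∈ J, θ ≤ lam t
  hi : ∀ t ∈ J, lam t ≤ 1
  hr : ∀ t ∈ J, R * lam t + θ ≤ 1 / 2
  dl : ∀ t ∈ J, HasDerivAt lam (-(b t) / (lam t) ^ 2) t
  bm : ∃ C : ℝ, ∀ t ∈ J, |b t| ≤ C ∧ |m t| ≤ C
  sm : ∀ t ∈ J, ContDiff ℝ ∞ (ε t)
  se : ∀ t ∈ J, ContDiff ℝ ∞ (e t)
  bd : ∀ j : ℕ, ∃ C : ℝ, ∀ t ∈ J, ∀ y, |iteratedDeriv j (ε t) y| ≤ C * bd (R * lam t + θ) θ y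
  be : ∀ j : ℕ, ∃ C : ℝ, ∀ t ∈ J, ∀ y, |iteratedDeriv j (e t) y| ≤ C * H98KB.bd (R * lam t + θ) θ y
  ev : ∀ j : ℕ, ∀ t ∈ J, ∀ y, HasDerivAt (fun τ => iteratedDeriv j (ε τ) y)
    (iteratedDeriv j (zeta k (b t) (m t) (lam t) (ε t) (e t)) y / (lam t) ^ 3) t

/-- a family of functions indexed by `z = (a, t)`, with uniform exponential decay, pointwise
continuous in `z` -/
structure Fam (R θ : ℝ) (S : Set (ℝ × ℝ)) (lam : ℝ × ℝ → ℝ) (ε : ℝ × ℝ → ℝ → ℝ) : Prop where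
  R0 : 0 ≤ R
  θ0 : 0 < θ
  lo : ∀ z ∈ S, θ ≤ lam z
  hi : ∀ z ∈ S, lam z ≤ 1
  hr : ∀ z ∈ S, R * lam z + θ ≤ 1 / 2
  cl : ContinuousOn lam S
  sm : ∀ z ∈ S, ContDiff ℝ ∞ (ε z)
  bd : ∀ j : ℕ, ∃ C : ℝ, ∀ z ∈ S, ∀ y, |iteratedDeriv j (ε z) y| ≤ C * bd (R * lam z + θ) θ y
  co : ∀ (j : ℕ) (y : ℝ), ContinuousOn (fun z => iteratedDeriv j (ε z) y) S

end H72KB

end

end S_H72_KB_Base
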