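import Mathlib
import Pool.Agent.H98.KB.Defs
import Pool.Agent.H98.BU.G01

/-! Blow-up for `u_t + u^k u_x + u_xxx - u_xx = 0`, part G02: this file joins several modules
to save build time (`Pool/Agent/H98/{KB,KC}`, `H72/{KB,KC}`, `H68/KC`, `H37/{KB,KC}`). -/

section S_H68_KC_Defs

/-!
# MP_95be7d : the L²-critical case `k = 4` of `u_t + u^k u_x + u_xxx - u_xx = 0`  (definitions)

Note with the complete proof: `/team-store/H68_95be7d_K4.md`.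

Parametrisation: `r = λ^{1/8}`, `l = λ = r^8`, `s = λ^{1/4} = r^2` (slow scale), `Y = 1/s`.
`W` = rescaled solution, `e = W - Q`, `h = b P + α E`, `ε = e - h`.
-/

open MeasureTheory Filter Topology Set
open scoped ContDiff

noncomputable section

namespace H68KC

open H98KB

/-! ## Constants and profiles -/

/-- `I = ∫ Q` -/
def Iq : ℝ := ∫ y, Qf 4 y

/-- `c_ν = 16 |Q'|² / I²` -/
def cnu : ℝ := 16 * (∫ y, (deriv (Qf 4) y) ^ 2) / Iq ^ 2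

/-- `c₀ = 1 + c_ν`; the trap for `β = b λ^{-1/2}` is `(2c₀, 4c₀)` -/
def c0 : ℝ := 1 + cnu

/-- the background -/
def f0 : ℝ := -c0 * Iq

/-- `ρ = Q³ Q'² = L Q'' / 4` -/
def rho (y : ℝ) : ℝ := (Qf 4 y) ^ 3 * (deriv (Qf 4) y) ^ 2

/-- `J(y) = ∫_y^∞ ΛQ = -I/4 - ∫_0^y ΛQ` -/
def Jf (y : ℝ) : ℝ := -(Iq / 4) - ∫ z in (0:ℝ)..y, Lam 4 (Qf 4) z

/-- the profiles `P`, `E` -/
structure Prof (P E : ℝ → ℝ) : Prop where
  cP : Cl 0 0 P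
  dP : Cl (3 / 4) (3 / 4) (deriv P)
  P0 : ∃ C : ℝ, ∀ y, 0 ≤ y → |P y| ≤ C * Real.exp (-(3 / 4) * y)
  P1 : ∃ C : ℝ, ∀ y, y ≤ 0 → |P y - Iq / 2| ≤ C * Real.exp (3 / 4 * y)
  E1 : Cl (3 / 4) (3 / 4) (fun y => E y - 1)
  Ee : ∀ y, E (-y) = E y
  LP : ∀ y, Lop 4 P y = -Jf y
  LE : ∀ y, Lop 4 E y = 1
  PQ : ip P (deriv (Qf 4)) = 0

/-- weight for the average defining `α` -/
def pw (ξ : ℝ) : ℝ := 630 * (ξ - 1) ^ 4 * (2 - ξ) ^ 4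

/-- `α = ∫_1^2 W(ξ/s) p(ξ) dξ` -/
def alf (s : ℝ) (W : ℝ → ℝ) : ℝ := ∫ ξ in (1:ℝ)..2, W (ξ / s) * pw ξ

/-- `b = ((e,Q) - α (E,Q)) / (P,Q)`, `(E,Q) = I/4`, `(P,Q) = I²/16` -/
def bq (s : ℝ) (W : ℝ → ℝ) : ℝ :=
  (ip (fun y => W y - Qf 4 y) (Qf 4) - alf s W * (Iq / 4)) * (16 / Iq ^ 2)

/-- `h = b P + α E` -/
def hf (P E : ℝ → ℝ) (b α y : ℝ) : ℝ := b * P y + α * E y

/-- `ε = W - Q - h` -/
def ep (P E : ℝ → ℝ) (s : ℝ) (W : ℝ → ℝ) (y : ℝ) : ℝ :=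
  W y - Qf 4 y - hf P E (bq s W) (alf s W) y

/-! ## Time derivatives (`λ³ d/dt`); `w = -λ_s/λ`, `x_s/λ = 1 + m` -/

/-- `λ³ W_t` -/
def ze (w m l : ℝ) (W et : ℝ → ℝ) : ℝ → ℝ := zeta 4 w m l (fun y => W y - Qf 4 y) et

/-- `λ³ α_t` (`Z = λ³ W_t`) -/
def alD (s w : ℝ) (W Z : ℝ → ℝ) : ℝ :=
  ∫ ξ in (1:ℝ)..2, (Z (ξ / s) + 1 / 4 * w * (ξ / s) * deriv W (ξ / s)) * pw ξ

/-- `λ³ b_t` -/
def bqD (s w : ℝ) (W Z : ℝ → ℝ) : ℝ := (ip Z (Qf 4) - alD s w W Z * (Iq / 4)) * (16 / Iq ^ 2)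

/-- `λ³ ε_t` -/
def epD (P E : ℝ → ℝ) (s w : ℝ) (W Z : ℝ → ℝ) (y : ℝ) : ℝ :=
  Z y - bqD s w W Z * P y - alD s w W Z * E y

/-! ## Functionals -/

/-- slow unimodal factor -/
def Zf (ξ : ℝ) : ℝ := (1 / Real.cosh (ξ - 2)) ^ 2

/-- energy weight `Th_B(y) Z(s y)` -/
def om4 (B s y : ℝ) : ℝ := Th B y * Zf (s * y)

def E4 (B s : ℝ) (ε : ℝ → ℝ) : ℝ :=
  1 / 2 * ∫ y, om4 B s y * ((deriv ε y) ^ 2 + (ε y) ^ 2 - 2 * bF 4 ε y)

/-- `λ³ dE4/dt` (`D = λ³ ε_t`, `λ³ s_t = -w s/4`) -/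
def DE4 (B s w : ℝ) (ε D : ℝ → ℝ) : ℝ :=
  (∫ y, om4 B s y * (deriv ε y * deriv D y + (ε y - Df 4 ε y) * D y))
    - 1 / 8 * w * s * ∫ y, y * Th B y * deriv Zf (s * y) * ((deriv ε y) ^ 2 + (ε y) ^ 2 - 2 * bF 4 ε y)

/-- front of width `4` at `Y/2` -/
def Ph (s y : ℝ) : ℝ := Th 4 (y - 1 / (2 * s))

/-- `N = ∫ Φ W'²` -/
def Nn (s : ℝ) (W : ℝ → ℝ) : ℝ := ∫ y, Ph s y * (deriv W y) ^ 2

/-- `λ³ dN/dt` (`λ³ Y_t = w Y / 4`) -/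
def DNn (s w : ℝ) (W Z : ℝ → ℝ) : ℝ :=
  (∫ y, 2 * Ph s y * (deriv W y * deriv Z y)) - w / (8 * s) * ∫ y, deriv (Ph s) y * (deriv W y) ^ 2

/-- the energy of `W` -/
def EW (W : ℝ → ℝ) : ℝ := 1 / 2 * (∫ y, (deriv W y) ^ 2) - 1 / 30 * ∫ y, (W y) ^ 6

/-- `λ³ dEW/dt` -/
def DEW (W Z : ℝ → ℝ) : ℝ := ∫ y, (deriv W y * deriv Z y - fl 4 (W y) * Z y)

/-- the Lyapunov functional, `r = λ^{1/8}` -/
def LL4 (P E : ℝ → ℝ) (η γ δ M B K0 r : ℝ) (W : ℝ → ℝ) : ℝ :=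
  M * E4 B (r ^ 2) (ep P E (r ^ 2) W) + Vf 4 η γ B δ (ep P E (r ^ 2) W)
    + K0 / r ^ 6 * Nn (r ^ 2) W

/-- `λ³ dLL4/dt`  (`λ³ r_t = -w r/8`) -/
def DLL4 (P E : ℝ → ℝ) (η γ δ M B K0 r w : ℝ) (W Z : ℝ → ℝ) : ℝ :=
  M * DE4 B (r ^ 2) w (ep P E (r ^ 2) W) (epD P E (r ^ 2) w W Z)
    + DV 4 η γ B δ (ep P E (r ^ 2) W) (epD P E (r ^ 2) w W Z)
    + K0 / r ^ 6 * (DNn (r ^ 2) w W Z + 3 / 4 * w * Nn (r ^ 2) W)

/-! ## Norms -/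

/-- `∫ om (ε² + ε'²)` -/
def G4 (B s : ℝ) (ε : ℝ → ℝ) : ℝ := ∫ y, om4 B s y * ((ε y) ^ 2 + (deriv ε y) ^ 2)

/-- `∫ (Th' Z + s Th Z) (ε² + ε'² + ε''²)` (in particular `≥ s G4`) -/
def T4 (B s : ℝ) (ε : ℝ → ℝ) : ℝ :=
  ∫ y, (deriv (Th B) y + s * Th B y) * Zf (s * y) *
    ((ε y) ^ 2 + (deriv ε y) ^ 2 + (deriv (deriv ε) y) ^ 2)

/-- the bad set `y ≥ Y = 1/s`: `s ∫_{y ≥ 1/s} sech(s y - 2) (ε² + ε'² + ε''²)` -/
def Bad (s : ℝ) (ε : ℝ → ℝ) : ℝ :=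
  s * ∫ y in Ici (1 / s), 1 / Real.cosh (s * y - 2) *
    ((ε y) ^ 2 + (deriv ε y) ^ 2 + (deriv (deriv ε) y) ^ 2)

end H68KC

end

end S_H68_KC_Defs

section S_H68_KC_If4

/-!
# Interfaces of the static parts for `k = 4`

Owners: ML4, CO4 helper98;  AH, AL, BA helper37;  MO, EN, XE, profiles, initial data, trap helper68.
-/

open MeasureTheory Filter Topology Set
open scoped ContDiff

noncomputable section

namespace H68KC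

open H98KB

/-- `∫ (et² + et'²)` -/
def ne2 (et : ℝ → ℝ) : ℝ := ∫ y, ((et y) ^ 2 + (deriv et y) ^ 2)

/-- `α̇ = λ³ α_t + w α / 2` -/
def alm (s w : ℝ) (W Z : ℝ → ℝ) : ℝ := alD s w W Z + 1 / 2 * w * alf s W

/-- the situation in all static inequalities (`r = λ^{1/8}`) -/
structure Sit (P E : ℝ → ℝ) (γ B c Ca r w m : ℝ) (W et : ℝ → ℝ) : Prop where
  pr : Prof P E
  r0 : 0 < r
  cl : ∃ p q : ℝ, 0 < p ∧ p ≤ 1 / 2 ∧ 0 < q ∧ q ≤ 1 / 2 ∧ Cl p q (fun y => W y - Qf 4 y) ∧ Cl p q et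
  or1 : ip (ze w m (r ^ 8) W et) rho = 0
  or2 : ip (ze w m (r ^ 8) W et) (deriv (Qf 4)) = 0
  w0 : 0 ≤ w
  w1 : w ≤ 5 * c0 * r ^ 4
  b1 : |bq (r ^ 2) W| ≤ 5 * c0 * r ^ 4
  a1 : |alf (r ^ 2) W| ≤ (|f0| + 1) * r ^ 4
  sup : ∀ y, |W y - Qf 4 y| ≤ c
  supe : ∀ y, |ep P E (r ^ 2) W y| ≤ c
  lnc : ln γ B (ep P E (r ^ 2) W) ≤ c
  N1 : Nn (r ^ 2) W ≤ Ca * r ^ 16
  X1 : Xn (fun y => W y - Qf 4 y) ≤ 1
  L1 : (∫ y, (W y - Qf 4 y) ^ 2) ≤ 1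
  e1 : ne2 et ≤ c

/-- helper98: main inequality and coercivity -/
structure GoodA (P E : ℝ → ℝ) (γ η δ M B c C : ℝ) : Prop where
  hγ : 0 < γ
  hγ1 : γ ≤ 1 / 8
  hη : 0 < η
  hδ : 0 < δ
  hM : 0 < M
  hB : 16 ≤ B
  hc : 0 < c
  hc1 : c ≤ 1 / 10
  hC : 1 ≤ C
  /-- main differential inequality -/
  ML : ∀ Ca : ℝ, ∃ r1 : ℝ, 0 < r1 ∧ ∀ r w m W et, r ≤ r1 → Sit P E γ B c Ca r w m W et →
    M * DE4 B (r ^ 2) w (ep P E (r ^ 2) W) (epD P E (r ^ 2) w W (ze w m (r ^ 8) W et))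
      + DV 4 η γ B δ (ep P E (r ^ 2) W) (epD P E (r ^ 2) w W (ze w m (r ^ 8) W et)) ≤
    -c * (T4 B (r ^ 2) (ep P E (r ^ 2) W) + ln γ B (ep P E (r ^ 2) W))
      + C * Bad (r ^ 2) (ep P E (r ^ 2) W)
      + C * (r ^ 16 + (alm (r ^ 2) w W (ze w m (r ^ 8) W et)) ^ 2 / r ^ 4
        + (ip W (deriv (Qf 4))) ^ 2 + (ip (fun y => W y - Qf 4 y) rho) ^ 2)
      + C / r ^ 2 * ne2 et
  /-- coercivity -/
  CO : ∃ r1 : ℝ, 0 < r1 ∧ ∀ r W, 0 < r → r ≤ r1 →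
    (∃ p q : ℝ, 0 < p ∧ p ≤ 1 / 2 ∧ 0 < q ∧ q ≤ 1 / 2 ∧ Cl p q (fun y => W y - Qf 4 y)) →
    (∀ y, |ep P E (r ^ 2) W y| ≤ c) →
    G4 B (r ^ 2) (ep P E (r ^ 2) W) ≤
      C * (M * E4 B (r ^ 2) (ep P E (r ^ 2) W) + Vf 4 η γ B δ (ep P E (r ^ 2) W)
        + C * ((ip W (deriv (Qf 4))) ^ 2 + (ip (fun y => W y - Qf 4 y) rho) ^ 2)) ∧
    |M * E4 B (r ^ 2) (ep P E (r ^ 2) W) + Vf 4 η γ B δ (ep P E (r ^ 2) W)| ≤
      C * G4 B (r ^ 2) (ep P E (r ^ 2) W) ∧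
    ln γ B (ep P E (r ^ 2) W) ≤ C * G4 B (r ^ 2) (ep P E (r ^ 2) W)

/-- helper37: ahead of the soliton -/
structure GoodB (P E : ℝ → ℝ) (γ B c : ℝ) : Prop where
  /-- front functional -/
  AH : ∀ Ca : ℝ, ∃ C r1 : ℝ, 0 < C ∧ 0 < r1 ∧ ∀ r w m W et, r ≤ r1 → |m| ≤ 1 / 4 →
    Sit P E γ B c Ca r w m W et →
    DNn (r ^ 2) w W (ze w m (r ^ 8) W et) ≤
      -2 * w * Nn (r ^ 2) W - r ^ 8 * (∫ y, Ph (r ^ 2) y * (deriv (deriv W) y) ^ 2)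
        + C * r ^ 40 + C / r ^ 8 * ne2 et
  /-- drift of `α` -/
  AL : ∃ C r1 : ℝ, 0 < C ∧ 0 < r1 ∧ ∀ Ca r w m W et, r ≤ r1 → |m| ≤ 1 / 4 →
    Sit P E γ B c Ca r w m W et →
    |alm (r ^ 2) w W (ze w m (r ^ 8) W et)| ≤ C * (r * √(Nn (r ^ 2) W) + √(ne2 et))
  /-- the bad set -/
  BA : ∃ C r1 : ℝ, 0 < C ∧ 0 < r1 ∧ ∀ Ca r w m W et, r ≤ r1 →
    Sit P E γ B c Ca r w m W et →
    Bad (r ^ 2) (ep P E (r ^ 2) W) ≤
      C * (r ^ 2 * (∫ y, Ph (r ^ 2) y * (deriv (deriv W) y) ^ 2) + Nn (r ^ 2) W / r ^ 2 + r ^ 16)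

/-- helper68: modulation equations, b-law, energy -/
structure GoodC (P E : ℝ → ℝ) (γ B c C : ℝ) : Prop where
  /-- modulation equations and the law of `b` -/
  MO : ∃ r1 : ℝ, 0 < r1 ∧ ∀ Ca r w m W et, r ≤ r1 → Sit P E γ B c Ca r w m W et →
    |m| ≤ C * (√(ln γ B (ep P E (r ^ 2) W)) + r ^ 8 + √(ne2 et)) ∧
    |bq (r ^ 2) W - w| ≤ C * (√(ln γ B (ep P E (r ^ 2) W)) + r ^ 8 + √(ne2 et)) ∧
    |(bq (r ^ 2) W - w) * ip (Lam 4 (Qf 4)) rho - ip (Lop 4 (ep P E (r ^ 2) W)) (deriv rho)| ≤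
      C * (r ^ 8 + r ^ 4 * √(ln γ B (ep P E (r ^ 2) W)) + ln γ B (ep P E (r ^ 2) W) + √(ne2 et)) ∧
    |bqD (r ^ 2) w W (ze w m (r ^ 8) W et) + 2 * (bq (r ^ 2) W) ^ 2
        + 6 / Iq * alf (r ^ 2) W * bq (r ^ 2) W + cnu * r ^ 8| ≤
      C * (r ^ 12 + r ^ 4 * √(ln γ B (ep P E (r ^ 2) W)) + ln γ B (ep P E (r ^ 2) W)
        + |alm (r ^ 2) w W (ze w m (r ^ 8) W et)| + |ip W (deriv (Qf 4))| + √(ne2 et))
  /-- energy -/
  EN : ∀ Ca r w m W et, r ≤ 1 → Sit P E γ B c Ca r w m W et →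
    DEW W (ze w m (r ^ 8) W et) ≤ -2 * w * EW W + C * r ^ 8 + C / r ^ 8 * ne2 et
  XE : ∃ r1 : ℝ, 0 < r1 ∧ ∀ Ca r w m W et, r ≤ r1 → Sit P E γ B c Ca r w m W et →
    Xn (fun y => W y - Qf 4 y) ≤ 4 * EW W + C * (r ^ 4 + ln γ B (ep P E (r ^ 2) W)) ∧
    -C * (r ^ 4 + ln γ B (ep P E (r ^ 2) W)) ≤ EW W

end H68KC

end

end S_H68_KC_If4

section S_H98_KB_Sol2

/-!
# Sol2 : identities for the soliton (only the statements of `Sol` are used)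

`t=th k y`, `κ=k/2`.  Pointwise identities: write every function as `P(t,y) Q`, `t'=κ(1-t²)`, `Q'=-tQ`,
`Q^k = C0(1-t²)`, `C0=(1+κ)(2κ+1)`.
* `L Q' = 0` : differentiate `Q'' = Q - Q^{k+1}/(k+1)`, or by the polynomial identity.
* `L ΛQ = -2Q`;  `L φ₀ = -((1+κ)²-1) φ₀`;  `L Q = -(k/(k+1)) Q^{k+1}`.
* `(ΛQ,Q) = (2/k)|Q|² + ∫ y Q'Q = (2/k - 1/2)|Q|²` (`y Q'Q = (y Q²/2)' - Q²/2`).
* parity: `ΛQ`, `Q`, `Q''` even, `Q'` odd; or exact derivatives (`Q Q' = (Q²/2)'`, ...);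
  `(ΛQ,Q')=0`: integrand odd.
* `(L n, n) = s(-2|Q|² - s k/(k+1) ∫ Q^{k+2}) < 0`, `s = s_c`, since `(n,Q)=0`, `L n = -2Q + s LQ`,
  `(Ln,n) = s (LQ,n) = s(Q,Ln)`.
-/

open MeasureTheory Filter Topology Set
open scoped ContDiff

namespace H98KB

variable {k : ℕ}

theorem Sol2_k0 (hk : 1 ≤ k) : (k : ℝ) ≠ 0 := by
  have : (1 : ℝ) ≤ k := by exact_mod_cast hk
  linarith

theorem Sol2_d1 (hk : 1 ≤ k) (y : ℝ) : HasDerivAt (fun y => -(th k y) * Qf k y)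
    (((1 + (k : ℝ) / 2) * th k y ^ 2 - (k : ℝ) / 2) * Qf k y) y := by
  have h := (th_hd k y).neg.mul (Qf_hd hk y)
  refine h.congr_deriv ?_
  simp only [Pi.neg_apply]
  ring

theorem Sol2_dd (hk : 1 ≤ k) : deriv (deriv (Qf k)) =
    fun y => ((1 + (k : ℝ) / 2) * th k y ^ 2 - (k : ℝ) / 2) * Qf k y := by
  rw [Qf_deriv hk]
  funext y
  exact (Sol2_d1 hk y).deriv

theorem Sol2_d2 (hk : 1 ≤ k) (y : ℝ) :
    HasDerivAt (fun y => ((1 + (k : ℝ) / 2) * th k y ^ 2 - (k : ℝ) / 2) * Qf k y)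
    ((1 + (k : ℝ) / 2) * (2 * th k y * ((k : ℝ) / 2 * (1 - th k y ^ 2))) * Qf k y +
      ((1 + (k : ℝ) / 2) * th k y ^ 2 - (k : ℝ) / 2) * (-(th k y) * Qf k y)) y := by
  have h := ((((th_hd k y).pow 2).const_mul (1 + (k : ℝ) / 2)).sub_const ((k : ℝ) / 2)).mul
    (Qf_hd hk y)
  refine h.congr_deriv ?_
  simp only [Nat.cast_ofNat, Nat.add_one_sub_one, pow_one, Pi.pow_apply]

theorem L_Qd (hk : 1 ≤ k) (y : ℝ) : Lop k (deriv (Qf k)) y = 0 := by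
  unfold Lop
  rw [Sol2_dd hk, (Sol2_d2 hk y).deriv, Qf_pow hk y, Qf_deriv hk, C0]
  ring

/-- `f = (a - y t) Q` -/
theorem Sol2_f1 (hk : 1 ≤ k) (a y : ℝ) : HasDerivAt (fun y => (a - y * th k y) * Qf k y)
    ((-(th k y) - y * ((k : ℝ) / 2 * (1 - th k y ^ 2)) - a * th k y + y * th k y ^ 2) * Qf k y) y := by
  have h := (((hasDerivAt_id y).mul (th_hd k y)).const_sub a).mul (Qf_hd hk y)
  refine h.congr_deriv ?_
  simp only [id, Pi.mul_apply]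
  ring

theorem Sol2_f2 (hk : 1 ≤ k) (a y : ℝ) : HasDerivAt
    (fun y => (-(th k y) - y * ((k : ℝ) / 2 * (1 - th k y ^ 2)) - a * th k y + y * th k y ^ 2) * Qf k y)
    ((-((k : ℝ) * (1 - th k y ^ 2)) + (k : ℝ) ^ 2 / 2 * y * th k y * (1 - th k y ^ 2)
      - a * ((k : ℝ) / 2) * (1 - th k y ^ 2) + th k y ^ 2 + (k : ℝ) * y * th k y * (1 - th k y ^ 2)
      - th k y * (-(th k y) - y * ((k : ℝ) / 2 * (1 - th k y ^ 2)) - a * th k y + y * th k y ^ 2)) *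
      Qf k y) y := by
  have ht := th_hd k y
  have hi := hasDerivAt_id y
  have h := ((((ht.neg).sub (hi.mul (((ht.pow 2).const_sub 1).const_mul ((k : ℝ) / 2)))).sub
    (ht.const_mul a)).add (hi.mul (ht.pow 2))).mul (Qf_hd hk y)
  refine h.congr_deriv ?_
  simp only [id, Nat.cast_ofNat, Nat.add_one_sub_one, pow_one, Pi.neg_apply, Pi.sub_apply,
    Pi.mul_apply, Pi.add_apply, Pi.pow_apply]
  ring

theorem Sol2_L (hk : 1 ≤ k) (a y : ℝ) : Lop k (fun y => (a - y * th k y) * Qf k y) y =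
    (-2 + 2 * (1 - th k y ^ 2) * (1 + (k : ℝ) / 2) * (1 - a * ((k : ℝ) / 2))) * Qf k y := by
  unfold Lop
  have h1 : deriv (fun y => (a - y * th k y) * Qf k y) = fun y =>
      (-(th k y) - y * ((k : ℝ) / 2 * (1 - th k y ^ 2)) - a * th k y + y * th k y ^ 2) * Qf k y := by
    funext z
    exact (Sol2_f1 hk a z).deriv
  rw [h1, (Sol2_f2 hk a y).deriv, Qf_pow hk y, C0]
  ring

theorem Sol2_LamQ (hk : 1 ≤ k) : Lam k (Qf k) = fun y => (2 / (k : ℝ) - y * th k y) * Qf k y := by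
  funext y
  exact LamQ_eq hk y

theorem Sol2_nf (hk : 1 ≤ k) : nf k = fun y => (1 / 2 - y * th k y) * Qf k y := by
  funext y
  unfold nf
  rw [LamQ_eq hk y, sc]
  ring

theorem L_LamQ (hk : 1 ≤ k) (y : ℝ) : Lop k (Lam k (Qf k)) y = -2 * Qf k y := by
  rw [Sol2_LamQ hk, Sol2_L hk]
  have h := Sol2_k0 hk
  have h1 : 2 / (k : ℝ) * ((k : ℝ) / 2) = 1 := by field_simp
  rw [h1]
  ring

theorem L_ph0 (hk : 1 ≤ k) (y : ℝ) : Lop k (ph0 k) y = -((1 + (k : ℝ) / 2) ^ 2 - 1) * ph0 k y := by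
  unfold Lop
  have h1 : deriv (ph0 k) = fun y => -(1 + (k : ℝ) / 2) * th k y * ph0 k y := by
    funext z
    exact (ph0_hd hk z).deriv
  have h2 : HasDerivAt (fun y => -(1 + (k : ℝ) / 2) * th k y * ph0 k y)
      (-(1 + (k : ℝ) / 2) * ((k : ℝ) / 2 * (1 - th k y ^ 2)) * ph0 k y +
        -(1 + (k : ℝ) / 2) * th k y * (-(1 + (k : ℝ) / 2) * th k y * ph0 k y)) y :=
    ((th_hd k y).const_mul (-(1 + (k : ℝ) / 2))).mul (ph0_hd hk y)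
  rw [h1, h2.deriv, Qf_pow hk y, C0]
  ring

theorem L_Q (hk : 1 ≤ k) (y : ℝ) : Lop k (Qf k) y = -((k : ℝ) / (k + 1)) * Qf k y ^ (k + 1) := by
  unfold Lop
  rw [Qf_eq hk y, fl]
  have h : (k : ℝ) + 1 ≠ 0 := by positivity
  rw [pow_succ]
  field_simp
  ring

theorem sc_pos (hk : 5 ≤ k) : 0 < sc k := by
  unfold sc
  have h : (5 : ℝ) ≤ k := by exact_mod_cast hk
  have h1 : 2 / (k : ℝ) ≤ 2 / 5 := by
    apply div_le_div_of_nonneg_left (by norm_num) (by norm_num) h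
  linarith

theorem Sol2_C2 (hk : 1 ≤ k) : Cl 2 2 (fun y => Qf k y ^ 2) := by
  have h := Cl_pow (Cl_Qf hk) 2
  norm_num at h
  exact h

theorem Sol2_Cd (hk : 1 ≤ k) : Cl 1 1 (deriv (Qf k)) := Cl_der (Cl_Qf hk)

theorem Q2_pos (hk : 1 ≤ k) : 0 < ∫ y, (Qf k y) ^ 2 := by
  have h := Sol2_C2 hk
  refine integral_pos_of_integrable_nonneg_nonzero (x := 0) (Cl_cont h)
    (Cl_int h (by norm_num) (by norm_num)) (fun y => sq_nonneg _) ?_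
  exact (pow_pos (Qf_pos k 0) 2).ne'

theorem Sol2_th1 (hk : 1 ≤ k) : 0 < th k 1 := by
  have h : (1 : ℝ) ≤ k := by exact_mod_cast hk
  unfold th
  rw [Real.tanh_eq_sinh_div_cosh]
  exact div_pos (Real.sinh_pos_iff.2 (by linarith)) (Real.cosh_pos _)

theorem Qd2_pos (hk : 1 ≤ k) : 0 < ∫ y, (deriv (Qf k) y) ^ 2 := by
  have h : Cl 2 2 (fun y => deriv (Qf k) y ^ 2) := by
    have h := Cl_pow (Sol2_Cd hk) 2
    norm_num at h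
    exact h
  refine integral_pos_of_integrable_nonneg_nonzero (x := 1) (Cl_cont h)
    (Cl_int h (by norm_num) (by norm_num)) (fun y => sq_nonneg _) ?_
  refine pow_ne_zero 2 ?_
  rw [Qf_deriv hk]
  exact mul_ne_zero (neg_ne_zero.2 (Sol2_th1 hk).ne') (Qf_pos k 1).ne'

theorem kap_pos (hk : 5 ≤ k) : 0 < kap k :=
  div_pos (Qd2_pos (by omega)) (mul_pos (sc_pos hk) (Q2_pos (by omega)))

/-- `(y Q²)' = (1 - 2 y t) Q²` -/
theorem Sol2_yQ (hk : 1 ≤ k) (y : ℝ) : HasDerivAt (fun y => y * Qf k y ^ 2)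
    ((1 - 2 * y * th k y) * Qf k y ^ 2) y := by
  have h := (hasDerivAt_id y).mul ((Qf_hd hk y).pow 2)
  refine h.congr_deriv ?_
  simp only [id, Nat.cast_ofNat, Nat.add_one_sub_one, pow_one, Pi.pow_apply]
  ring

theorem Sol2_CyQ (hk : 1 ≤ k) : Cl 1 1 (fun y => y * Qf k y ^ 2) := by
  have h := Cl_mul (Cl_id (c := 1) one_pos) (Sol2_C2 hk)
  norm_num at h
  exact h

theorem ip_LamQ_Q (hk : 1 ≤ k) : ip (Lam k (Qf k)) (Qf k) = -sc k * ∫ y, (Qf k y) ^ 2 := by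
  unfold ip
  have hC : Cl (1 / 2 + 1) (1 / 2 + 1) (fun y => Lam k (Qf k) y * Qf k y) :=
    Cl_mul (Cl_LamQ hk (by norm_num)) (Cl_Qf hk)
  have hG := Sol2_C2 hk
  have h := Cl_int_eq (F := fun y => Lam k (Qf k) y * Qf k y) (G := fun y => -sc k * Qf k y ^ 2)
    (H := fun y => 1 / 2 * (y * Qf k y ^ 2)) (Cl_int hC (by norm_num) (by norm_num))
    ((Cl_int hG (by norm_num) (by norm_num)).const_mul _) (Cl_smul (1 / 2) (Sol2_CyQ hk)) one_pos one_pos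
    (fun y => by
      rw [((Sol2_yQ hk y).const_mul (1 / 2)).deriv, LamQ_eq hk y, sc]
      ring)
  rw [h, integral_const_mul]

theorem Sol2_odd {F : ℝ → ℝ} (h : ∀ y, F (-y) = -F y) : ∫ y, F y = 0 := by
  have h1 := integral_neg_eq_self F volume
  simp only [h, integral_neg] at h1
  linarith

theorem nf_neg (hk : 1 ≤ k) (y : ℝ) : nf k (-y) = nf k y := by
  rw [Sol2_nf hk]
  simp only [th_neg, Qf_neg]
  ring

theorem ip_LamQ_Qd (hk : 1 ≤ k) : ip (Lam k (Qf k)) (deriv (Qf k)) = 0 := by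
  unfold ip
  rw [Sol2_LamQ hk, Qf_deriv hk]
  refine Sol2_odd fun y => ?_
  simp only [th_neg, Qf_neg]
  ring

theorem ip_Q_Qd (hk : 1 ≤ k) : ip (Qf k) (deriv (Qf k)) = 0 := by
  unfold ip
  rw [Qf_deriv hk]
  refine Sol2_odd fun y => ?_
  simp only [th_neg, Qf_neg]
  ring

theorem ip_Qdd_Qd (hk : 1 ≤ k) : ip (deriv (deriv (Qf k))) (deriv (Qf k)) = 0 := by
  unfold ip
  rw [Sol2_dd hk, Qf_deriv hk]
  refine Sol2_odd fun y => ?_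
  simp only [th_neg, Qf_neg]
  ring

theorem ip_Qdd_Q (hk : 1 ≤ k) : ip (deriv (deriv (Qf k))) (Qf k) = -∫ y, (deriv (Qf k) y) ^ 2 := by
  unfold ip
  rw [Cl_ibp (Sol2_Cd hk) (Cl_Qf hk) (by norm_num) (by norm_num)]
  congr 1
  refine integral_congr_ae (Eventually.of_forall fun y => ?_)
  simp only
  ring

theorem ip_n_Q (hk : 1 ≤ k) : ip (nf k) (Qf k) = 0 := by
  unfold ip
  have hC : Cl (1 / 2 + 1) (1 / 2 + 1) (fun y => nf k y * Qf k y) :=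
    Cl_mul (Cl_nf hk (by norm_num)) (Cl_Qf hk)
  have h := Cl_int_eq (F := fun y => nf k y * Qf k y) (G := fun _ => (0 : ℝ))
    (H := fun y => 1 / 2 * (y * Qf k y ^ 2)) (Cl_int hC (by norm_num) (by norm_num))
    (integrable_zero _ _ _) (Cl_smul (1 / 2) (Sol2_CyQ hk)) one_pos one_pos
    (fun y => by
      rw [((Sol2_yQ hk y).const_mul (1 / 2)).deriv, Sol2_nf hk]
      ring)
  rw [h, integral_zero]

theorem ip_n_Qd (hk : 1 ≤ k) : ip (nf k) (deriv (Qf k)) = 0 := by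
  unfold ip
  rw [Qf_deriv hk]
  refine Sol2_odd fun y => ?_
  simp only [nf_neg hk, th_neg, Qf_neg]
  ring

theorem Sol2_w (k : ℕ) : Cl 0 0 (fun y => 1 - th k y ^ 2) :=
  Cl_sub (Cl_const 1) (Cl_pow0 (Cl_th k) 2)

/-- `(y w Q²)' = (1 - 2 (1 + κ) y t) w Q²` -/
theorem Sol2_ywQ (hk : 1 ≤ k) (y : ℝ) : HasDerivAt (fun y => (1 - th k y ^ 2) * (y * Qf k y ^ 2))
    ((1 - 2 * (1 + (k : ℝ) / 2) * y * th k y) * (1 - th k y ^ 2) * Qf k y ^ 2) y := by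
  have h := (((th_hd k y).pow 2).const_sub 1).mul (Sol2_yQ hk y)
  refine h.congr_deriv ?_
  simp only [Nat.cast_ofNat, Nat.add_one_sub_one, pow_one, Pi.pow_apply]
  ring

theorem Sol2_wQ_pos (hk : 1 ≤ k) : 0 < ∫ y, (1 - th k y ^ 2) * Qf k y ^ 2 := by
  have h : Cl 2 2 (fun y => (1 - th k y ^ 2) * Qf k y ^ 2) := Cl_mul0 (Sol2_w k) (Sol2_C2 hk)
  have hw : ∀ y, 0 < 1 - th k y ^ 2 := by
    intro y
    have h1 := th_abs_lt k y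
    have h2 := (sq_lt_one_iff_abs_lt_one (th k y)).2 h1
    linarith
  refine integral_pos_of_integrable_nonneg_nonzero (x := 0) (Cl_cont h)
    (Cl_int h (by norm_num) (by norm_num)) (fun y => ?_) ?_
  · exact mul_nonneg (hw y).le (sq_nonneg _)
  · exact (mul_pos (hw 0) (pow_pos (Qf_pos k 0) 2)).ne'

theorem ip_Ln_n (hk : 5 ≤ k) : ip (Lop k (nf k)) (nf k) < 0 := by
  have hk1 : 1 ≤ k := by omega
  unfold ip
  have hC : Cl (1 / 2 + 1 / 2) (1 / 2 + 1 / 2) (fun y => Lop k (nf k) y * nf k y) :=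
    Cl_mul (Cl_Lop hk1 (Cl_nf hk1 (by norm_num))) (Cl_nf hk1 (by norm_num))
  have hG : Cl 2 2 (fun y => (1 - th k y ^ 2) * Qf k y ^ 2) := Cl_mul0 (Sol2_w k) (Sol2_C2 hk1)
  have hH : Cl 1 1 (fun y => (-1) * (y * Qf k y ^ 2) +
      (1 - (k : ℝ) / 4) * ((1 - th k y ^ 2) * (y * Qf k y ^ 2))) :=
    Cl_add (Cl_smul (-1) (Sol2_CyQ hk1)) (Cl_smul _ (Cl_mul0 (Sol2_w k) (Sol2_CyQ hk1)))
  have h := Cl_int_eq (F := fun y => Lop k (nf k) y * nf k y)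
    (G := fun y => (k : ℝ) / 2 * (1 - (k : ℝ) / 4) * ((1 - th k y ^ 2) * Qf k y ^ 2))
    (Cl_int hC (by norm_num) (by norm_num))
    ((Cl_int hG (by norm_num) (by norm_num)).const_mul _) hH one_pos one_pos
    (fun y => by
      have h1 : HasDerivAt (fun y => (-1) * (y * Qf k y ^ 2) +
          (1 - (k : ℝ) / 4) * ((1 - th k y ^ 2) * (y * Qf k y ^ 2)))
          ((-1) * ((1 - 2 * y * th k y) * Qf k y ^ 2) + (1 - (k : ℝ) / 4) *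
            ((1 - 2 * (1 + (k : ℝ) / 2) * y * th k y) * (1 - th k y ^ 2) * Qf k y ^ 2)) y :=
        ((Sol2_yQ hk1 y).const_mul (-1)).add ((Sol2_ywQ hk1 y).const_mul _)
      rw [h1.deriv, Sol2_nf hk1, Sol2_L hk1]
      ring)
  rw [h, integral_const_mul]
  have h5 : (5 : ℝ) ≤ k := by exact_mod_cast hk
  have h6 := Sol2_wQ_pos hk1
  have h7 : (k : ℝ) / 2 * (1 - (k : ℝ) / 4) < 0 :=
    mul_neg_of_pos_of_neg (by linarith) (by linarith)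
  exact mul_neg_of_neg_of_pos h7 h6

end H98KB

end S_H98_KB_Sol2

section S_H68_KC_PRe

/-!
# Row PRe (MP_95be7d_K4): the function `J(y) = ∫_y^∞ ΛQ`

`ΛQ = (1/2) Q + y Q'` (`k = 4`), `Cl (3/4) (3/4) (ΛQ)` by `Cl_LamQ` (`c = 3/4`), `ΛQ` even (`LamQ_eq`, `Qf_neg`, `th_neg`).

## Proofs
* `Jf_hd`: fundamental theorem of calculus.
* `Iq_pos`: `∫ Q > 0` (`Qf_pos`, continuous, integrable: `integral_pos_of_...`, or `Qf_lo` and monotonicity).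
* `int_LamQ`: `∫ ΛQ = -I/2` : `ΛQ = (yQ)' - Q/2`, `∫ (yQ)' = 0` (`Cl_int_deriv`; `y Q` is of class `Cl (3/4) (3/4)`:
  `Cl_mul (Cl_id ..) (Cl_Qf ..)` with `c = 1/4`).
* `int_LamQ_Ioi`: `∫_{Ioi 0} ΛQ = -I/4` by evenness (`integral_comp_neg_Ioi` / `∫_ℝ = ∫_{Iic 0} + ∫_{Ioi 0}`).
* `Jf_eq`: `J y = ∫_{Ioi y} ΛQ` (`∫_{Ioi 0} = ∫_0^y + ∫_{Ioi y}`, for both signs of `y`;
  `intervalIntegral.integral_Ioi_sub_Ioi` or `integral_interval_add_Ioi`).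
* `Jf_neg`: `J(-y) = -I/2 - J y`: `∫_0^{-y} ΛQ = -∫_0^y ΛQ`.
* `Jf_bd`: `y ≥ 0`: `|J y| ≤ C ∫_y^∞ e^{-3z/4} = (4C/3) e^{-3y/4}`. For `y ≤ 0` the second one follows from `Jf_neg`:
  `J y + I/2 = -J(-y)`.
* `Jf_cl`: `Cl_of_deriv` with `g = -ΛQ` (`Cl_mono` to class `0 0`) and the bound `|J| ≤ C`.
* `Fp_cl`: `(ΛQ)' - Q⁴ J` : `Cl_der`, `Cl_mul (Cl_pow (Cl_Qf _) 4) Jf_cl` and `Cl_mono` from class `4 + 0`.
* `Fp_orth`: `∫ ((ΛQ)' - Q⁴ J) Q' = 0`:  `∫ (ΛQ)' Q' = -∫ ΛQ Q''` (`Cl_ibp`); `Q⁴ Q' = (Q⁵/5)'`, so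
  `∫ Q⁴ J Q' = ∫ (Q⁵/5)' J = -∫ (Q⁵/5) J' = ∫ (Q⁵/5) ΛQ`; the difference is
  `-∫ ΛQ (Q'' + Q⁵/5) = -∫ ΛQ Q = 0` by `Qf_eq` (`fl 4 Q = Q^5/5`) and `ip_LamQ_Q` with `sc 4 = 0`.
-/

open MeasureTheory Filter Topology Set
open scoped ContDiff

noncomputable section

namespace H68KC

open H98KB

theorem PRe_CL : Cl (3 / 4) (3 / 4) (Lam 4 (Qf 4)) := Cl_LamQ (by norm_num) (by norm_num)

theorem PRe_cont : Continuous (Lam 4 (Qf 4)) := Cl_cont PRe_CL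

theorem PRe_int : Integrable (Lam 4 (Qf 4)) := Cl_int PRe_CL (by norm_num) (by norm_num)

theorem Jf_hd (y : ℝ) : HasDerivAt Jf (-Lam 4 (Qf 4) y) y := by
  have h := (PRe_cont.integral_hasStrictDerivAt 0 y).hasDerivAt
  exact h.const_sub (-(Iq / 4))

theorem PRe_Qint : Integrable (Qf 4) := Cl_int (Cl_Qf (by norm_num)) one_pos one_pos

theorem Iq_pos : 0 < Iq := by
  unfold Iq
  exact integral_pos_of_integrable_nonneg_nonzero (x := 0) (Cl_cont (Cl_Qf (by norm_num)))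
    PRe_Qint (fun y => (Qf_pos 4 y).le) (Qf_pos 4 0).ne'

theorem PRe_yQ : Cl (3 / 4) (3 / 4) (fun y => y * Qf 4 y) := by
  have h := Cl_mul (Cl_id (c := 1 / 4) (by norm_num)) (Cl_Qf (k := 4) (by norm_num))
  have e : -(1 / 4 : ℝ) + 1 = 3 / 4 := by norm_num
  rwa [e] at h

theorem PRe_Lam (y : ℝ) : Lam 4 (Qf 4) y = 1 / 2 * Qf 4 y + y * deriv (Qf 4) y := by
  unfold Lam
  norm_num

theorem int_LamQ : ∫ y, Lam 4 (Qf 4) y = -(Iq / 2) := by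
  have hG : Integrable (fun y => -(1 / 2) * Qf 4 y) := PRe_Qint.const_mul _
  have h := Cl_int_eq (F := fun y => Lam 4 (Qf 4) y) (G := fun y => -(1 / 2) * Qf 4 y)
    (H := fun y => y * Qf 4 y) PRe_int hG PRe_yQ (by norm_num) (by norm_num) ?_
  · rw [h, integral_const_mul]
    unfold Iq
    ring
  · intro y
    have h1 := (hasDerivAt_id y).mul (Cl_hd (Cl_Qf (k := 4) (by norm_num)) y)
    have h2 : deriv (fun y => y * Qf 4 y) y = 1 * Qf 4 y + y * deriv (Qf 4) y := h1.deriv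
    rw [h2]
    simp only [PRe_Lam]
    ring

theorem PRe_even (y : ℝ) : Lam 4 (Qf 4) (-y) = Lam 4 (Qf 4) y := by
  rw [LamQ_eq (by norm_num), LamQ_eq (by norm_num), th_neg, Qf_neg]
  ring

theorem int_LamQ_Ioi : ∫ y in Ioi (0:ℝ), Lam 4 (Qf 4) y = -(Iq / 4) := by
  have h1 := intervalIntegral.integral_Iic_add_Ioi (b := (0:ℝ)) PRe_int.integrableOn
    PRe_int.integrableOn
  have h2 := integral_comp_neg_Ioi (0:ℝ) (Lam 4 (Qf 4))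
  simp only [PRe_even, neg_zero] at h2
  rw [int_LamQ, ← h2] at h1
  linarith

theorem Jf_eq (y : ℝ) : Jf y = ∫ z in Ioi y, Lam 4 (Qf 4) z := by
  have h := intervalIntegral.integral_interval_add_Ioi (a := (0:ℝ)) (b := y)
    PRe_int.integrableOn PRe_int.integrableOn
  rw [int_LamQ_Ioi] at h
  unfold Jf
  linarith

theorem Jf_neg (y : ℝ) : Jf (-y) = -(Iq / 2) - Jf y := by
  have h : (∫ z in (0:ℝ)..-y, Lam 4 (Qf 4) z) = -∫ z in (0:ℝ)..y, Lam 4 (Qf 4) z := by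
    have h1 := intervalIntegral.integral_comp_neg (a := (0:ℝ)) (b := y) (Lam 4 (Qf 4))
    simp only [PRe_even, neg_zero] at h1
    rw [h1, intervalIntegral.integral_symm]
  unfold Jf
  rw [h]
  ring

theorem PRe_pos_bd : ∃ C : ℝ, 0 ≤ C ∧ ∀ y, 0 ≤ y → |Jf y| ≤ C * Real.exp (-(3 / 4) * y) := by
  obtain ⟨C, hC0, hC⟩ := Cl_bnd PRe_CL
  refine ⟨C * (4 / 3), by positivity, fun y hy => ?_⟩
  have hE : IntegrableOn (fun z : ℝ => Real.exp (-(3 / 4) * z)) (Ioi y) := by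
    have := integrableOn_exp_mul_Ioi (a := -(3 / 4 : ℝ)) (by norm_num) y
    simpa using this
  have hv : ∫ z in Ioi y, Real.exp (-(3 / 4) * z) = 4 / 3 * Real.exp (-(3 / 4) * y) := by
    rw [integral_exp_mul_Ioi (a := -(3 / 4 : ℝ)) (by norm_num) y]
    ring
  rw [Jf_eq]
  calc |∫ z in Ioi y, Lam 4 (Qf 4) z| ≤ ∫ z in Ioi y, |Lam 4 (Qf 4) z| :=
        abs_integral_le_integral_abs
    _ ≤ ∫ z in Ioi y, C * Real.exp (-(3 / 4) * z) := by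
        refine setIntegral_mono_on PRe_int.abs.integrableOn (hE.const_mul C) measurableSet_Ioi ?_
        intro z hz
        have hz0 : 0 ≤ z := hy.trans (le_of_lt hz)
        have h := hC z
        rw [bd_of_nonneg hz0] at h
        have e : -(3 / 4 : ℝ) * z = -(3 / 4 * z) := by ring
        rw [e]
        exact h
    _ = C * (4 / 3) * Real.exp (-(3 / 4) * y) := by
        rw [integral_const_mul, hv]
        ring

theorem Jf_bd : ∃ C : ℝ, 0 ≤ C ∧ (∀ y, 0 ≤ y → |Jf y| ≤ C * Real.exp (-(3 / 4) * y)) ∧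
    (∀ y, y ≤ 0 → |Jf y + Iq / 2| ≤ C * Real.exp (3 / 4 * y)) := by
  obtain ⟨C, hC0, hC⟩ := PRe_pos_bd
  refine ⟨C, hC0, hC, fun y hy => ?_⟩
  have h := hC (-y) (by linarith)
  rw [Jf_neg] at h
  have e1 : -(Iq / 2) - Jf y = -(Jf y + Iq / 2) := by ring
  have e2 : -(3 / 4 : ℝ) * -y = 3 / 4 * y := by ring
  rw [e1, abs_neg, e2] at h
  exact h

theorem Jf_cl : Cl 0 0 Jf := by
  obtain ⟨C, hC0, hC, hC'⟩ := Jf_bd
  have hg : Cl 0 0 (fun y => -Lam 4 (Qf 4) y) :=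
    Cl_mono (Cl_neg PRe_CL) (by norm_num) (by norm_num)
  refine Cl_of_deriv (g := fun y => -Lam 4 (Qf 4) y) Jf_hd hg ⟨C + Iq / 2, fun y => ?_⟩
  rw [bd_zero, mul_one]
  have hI := Iq_pos
  rcases le_total 0 y with hy | hy
  · have h1 := hC y hy
    have h2 : Real.exp (-(3 / 4) * y) ≤ 1 := Real.exp_le_one_iff.2 (by nlinarith)
    have h3 := mul_le_mul_of_nonneg_left h2 hC0
    linarith
  · have h1 := hC' y hy
    have h2 : Real.exp (3 / 4 * y) ≤ 1 := Real.exp_le_one_iff.2 (by nlinarith)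
    have h3 := mul_le_mul_of_nonneg_left h2 hC0
    have h4 : |Jf y| ≤ |Jf y + Iq / 2| + |Iq / 2| := by
      have e : Jf y = (Jf y + Iq / 2) - Iq / 2 := by ring
      calc |Jf y| = |(Jf y + Iq / 2) - Iq / 2| := by rw [← e]
        _ ≤ |Jf y + Iq / 2| + |Iq / 2| := abs_sub _ _
    have h5 : |Iq / 2| = Iq / 2 := abs_of_pos (by linarith)
    linarith

theorem PRe_Q4J : Cl 4 4 (fun y => (Qf 4 y) ^ 4 * Jf y) := by
  have h := Cl_mul (Cl_pow (Cl_Qf (k := 4) (by norm_num)) 4) Jf_cl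
  have e : ((4 : ℕ) : ℝ) * 1 + 0 = 4 := by norm_num
  rwa [e] at h

theorem Fp_cl : Cl (3 / 4) (3 / 4) (fun y => deriv (Lam 4 (Qf 4)) y - (Qf 4 y) ^ 4 * Jf y) :=
  Cl_sub (Cl_der PRe_CL) (Cl_mono PRe_Q4J (by norm_num) (by norm_num))

theorem Fp_orth : ip (fun y => deriv (Lam 4 (Qf 4)) y - (Qf 4 y) ^ 4 * Jf y) (deriv (Qf 4)) = 0 := by
  have hk : 1 ≤ 4 := by norm_num
  have hQ := Cl_Qf (k := 4) hk
  have hQd := Cl_der hQ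
  have hQdd := Cl_der hQd
  have h5 : Cl 5 5 (fun y => (Qf 4 y) ^ 5) := by
    have h := Cl_pow hQ 5
    have e : ((5 : ℕ) : ℝ) * 1 = 5 := by norm_num
    rwa [e] at h
  have h5d : ∀ y, deriv (fun y => (Qf 4 y) ^ 5) y = 5 * (Qf 4 y) ^ 4 * deriv (Qf 4) y := by
    intro y
    have h : HasDerivAt (fun y => (Qf 4 y) ^ 5) (((5 : ℕ) : ℝ) * (Qf 4 y) ^ (5 - 1) * deriv (Qf 4) y) y :=
      (Cl_hd hQ y).pow 5
    rw [h.deriv]
    norm_num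
  have hJd : ∀ y, deriv Jf y = -Lam 4 (Qf 4) y := fun y => (Jf_hd y).deriv
  have A1 := Cl_ibp (f := Lam 4 (Qf 4)) (g := deriv (Qf 4)) PRe_CL hQd (by norm_num) (by norm_num)
  have A2 := Cl_ibp (f := fun y => (Qf 4 y) ^ 5) (g := Jf) h5 Jf_cl (by norm_num) (by norm_num)
  have i1 : Integrable (fun y => deriv (Lam 4 (Qf 4)) y * deriv (Qf 4) y) :=
    Cl_int (Cl_mul (Cl_der PRe_CL) hQd) (by norm_num) (by norm_num)
  have i2 : Integrable (fun y => (Qf 4 y) ^ 4 * Jf y * deriv (Qf 4) y) :=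
    Cl_int (Cl_mul PRe_Q4J hQd) (by norm_num) (by norm_num)
  have i3 : Integrable (fun y => Lam 4 (Qf 4) y * deriv (deriv (Qf 4)) y) :=
    Cl_int (Cl_mul PRe_CL hQdd) (by norm_num) (by norm_num)
  have i4 : Integrable (fun y => (Qf 4 y) ^ 5 * Lam 4 (Qf 4) y) :=
    Cl_int (Cl_mul h5 PRe_CL) (by norm_num) (by norm_num)
  have B2 : ∫ y, (Qf 4 y) ^ 4 * Jf y * deriv (Qf 4) y = 1 / 5 * ∫ y, (Qf 4 y) ^ 5 * Lam 4 (Qf 4) y := by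
    have e1 : (fun y => deriv (fun y => (Qf 4 y) ^ 5) y * Jf y) =
        fun y => 5 * ((Qf 4 y) ^ 4 * Jf y * deriv (Qf 4) y) := by
      funext y
      rw [h5d]
      ring
    have e2 : (fun y => (Qf 4 y) ^ 5 * deriv Jf y) = fun y => -((Qf 4 y) ^ 5 * Lam 4 (Qf 4) y) := by
      funext y
      rw [hJd]
      ring
    rw [e1, e2, integral_const_mul, integral_neg] at A2
    linarith
  have S := ip_LamQ_Q (k := 4) hk
  have hsc : sc 4 = 0 := by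
    unfold sc
    norm_num
  rw [hsc, neg_zero, zero_mul] at S
  unfold ip at S ⊢
  have C1 : ∫ y, (deriv (Lam 4 (Qf 4)) y - (Qf 4 y) ^ 4 * Jf y) * deriv (Qf 4) y =
      (∫ y, deriv (Lam 4 (Qf 4)) y * deriv (Qf 4) y) - ∫ y, (Qf 4 y) ^ 4 * Jf y * deriv (Qf 4) y := by
    rw [← integral_sub i1 i2]
    congr 1
    funext y
    ring
  have C2 : ∫ y, Lam 4 (Qf 4) y * Qf 4 y = (∫ y, Lam 4 (Qf 4) y * deriv (deriv (Qf 4)) y) +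
      1 / 5 * ∫ y, (Qf 4 y) ^ 5 * Lam 4 (Qf 4) y := by
    rw [← integral_const_mul, ← integral_add i3 (i4.const_mul _)]
    congr 1
    funext y
    rw [Qf_eq hk]
    unfold fl
    norm_num
    ring
  rw [C1, B2, A1]
  linarith

end H68KC

end

end S_H68_KC_PRe

section S_H68_KC_PRg

/-!
# Row PRg (MP_95be7d_K4): identities for the profiles

Here `Prof P E`; `E` is of class `Cl 0 0` (`E = 1 + (E - 1)`), `Lop_symm` (`Som`) with classes `0 0` and `c c`, `c > 0`.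

## Proofs
* `E_cl`: `Cl_add (Cl_const 1)` and `Cl_mono`.
* `ip_PQ`: `Lop 4 (ΛQ) = -2 Q` (`L_LamQ`), so `-2 (P,Q) = (P, L ΛQ) = (LP, ΛQ) = -(J, ΛQ) = ∫ J J'` and
  `∫ J J' = (1/2)[J²]_{-∞}^{∞} = -(1/2)(I/2)² = -I²/8` (`Jf_bd` gives the limits; e.g.
  `integral_of_hasDerivAt_of_tendsto`). Hence `(P,Q) = I²/16`.
* `ip_EQ`: `-2 (E,Q) = (LE, ΛQ) = ∫ ΛQ = -I/2` (`int_LamQ`).
* `L_Qdd`: `Lop 4 Q'' = 4 ρ`: differentiate `Lop 4 Q' = 0` (`L_Qd`): `-Q'''' + Q'' - Q⁴ Q'' - 4 Q³ Q'² = 0`.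
  (Or direct computation with `t`, `Q⁴ = 15 (1-t²)`.)
* `rho_cl`: `Cl_mul (Cl_pow ..) (Cl_pow ..)` and `Cl_mono`.
* `ip_Erho`: `4 (E,ρ) = (E, LQ'') = (LE, Q'') = ∫ Q'' = 0`.
* `ip_Prho`: `4 (P,ρ) = (P, LQ'') = (LP,Q'') = -∫ J Q'' = ∫ J' Q' = -∫ ΛQ Q' = 0` (`Cl_ibp` with `Jf_cl`, `ip_LamQ_Qd`).
* `ip_Qdrho`: odd integrand (`Sol2_odd`), or `4 (Q',ρ) = (LQ',Q'') = 0`.
* `ip_LamQrho`: `4 (ΛQ,ρ) = (LΛQ, Q'') = -2 (Q,Q'') = 2 ∫ Q'²` (`ip_Qdd_Q`).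
-/

open MeasureTheory Filter Topology Set
open scoped ContDiff

noncomputable section

namespace H68KC

open H98KB

variable {P E : ℝ → ℝ}

theorem PRg_k : 1 ≤ 4 := by norm_num

theorem PRg_Lam : Cl (1 / 2) (1 / 2) (Lam 4 (Qf 4)) := Cl_LamQ PRg_k (by norm_num)

theorem PRg_Qdd : Cl 1 1 (deriv (deriv (Qf 4))) := Cl_der (Cl_der (Cl_Qf PRg_k))

theorem E_cl (h : Prof P E) : Cl 0 0 E := by
  have h1 := Cl_add (Cl_mono h.E1 (p' := 0) (q' := 0) (by norm_num) (by norm_num)) (Cl_const 1)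
  simpa only [sub_add_cancel] using h1

theorem rho_cl : Cl 3 3 rho := by
  have h1 := Cl_pow (Cl_Qf PRg_k) 3
  have h2 := Cl_pow (Cl_der (Cl_Qf PRg_k)) 2
  have h3 := Cl_mul h1 h2
  exact Cl_mono h3 (by norm_num) (by norm_num)

theorem PRg_top : Tendsto Jf atTop (𝓝 0) := by
  obtain ⟨C, _, hC, _⟩ := Jf_bd
  have h1 : Tendsto (fun y : ℝ => C * Real.exp (-(3 / 4) * y)) atTop (𝓝 0) := by
    have h2 : Tendsto (fun y : ℝ => (3 / 4 : ℝ) * y) atTop atTop :=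
      tendsto_id.const_mul_atTop (by norm_num)
    have h3 := (Real.tendsto_exp_neg_atTop_nhds_zero.comp h2).const_mul C
    rw [mul_zero] at h3
    refine h3.congr fun y => ?_
    simp only [Function.comp_apply, neg_mul]
  refine squeeze_zero_norm' ?_ h1
  filter_upwards [eventually_ge_atTop (0 : ℝ)] with y hy
  rw [Real.norm_eq_abs]
  exact hC y hy

theorem PRg_bot : Tendsto Jf atBot (𝓝 (-(Iq / 2))) := by
  have h1 : Tendsto (fun y => -(Iq / 2) - Jf (-y)) atBot (𝓝 (-(Iq / 2) - 0)) :=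
    (PRg_top.comp tendsto_neg_atBot_atTop).const_sub _
  rw [sub_zero] at h1
  refine h1.congr fun y => ?_
  rw [← Jf_neg (-y), neg_neg]

theorem PRg_JL : ∫ y, Jf y * -Lam 4 (Qf 4) y = -(Iq ^ 2 / 8) := by
  have hd : ∀ y, HasDerivAt (fun y => (Jf y) ^ 2 / 2) (Jf y * -Lam 4 (Qf 4) y) y := by
    intro y
    have := ((Jf_hd y).pow 2).div_const 2
    refine this.congr_deriv ?_
    push_cast
    ring
  have hi : Integrable (fun y => Jf y * -Lam 4 (Qf 4) y) :=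
    Cl_int (Cl_mul Jf_cl (Cl_neg PRg_Lam)) (by norm_num) (by norm_num)
  have h1 := integral_of_hasDerivAt_of_tendsto hd hi ((PRg_bot.pow 2).div_const 2)
    ((PRg_top.pow 2).div_const 2)
  rw [h1]
  ring

theorem ip_PQ (h : Prof P E) : ip P (Qf 4) = Iq ^ 2 / 16 := by
  have h1 := Lop_symm PRg_k h.cP PRg_Lam (by norm_num) (by norm_num)
  have h2 : ip P (Lop 4 (Lam 4 (Qf 4))) = -2 * ip P (Qf 4) := by
    unfold ip
    rw [← integral_const_mul]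
    refine integral_congr_ae (Eventually.of_forall fun y => ?_)
    simp only
    rw [L_LamQ PRg_k]
    ring
  have h3 : ip (Lop 4 P) (Lam 4 (Qf 4)) = -(Iq ^ 2 / 8) := by
    rw [← PRg_JL]
    unfold ip
    refine integral_congr_ae (Eventually.of_forall fun y => ?_)
    simp only
    rw [h.LP]
    ring
  rw [h2, h3] at h1
  linarith

theorem ip_EQ (h : Prof P E) : ip E (Qf 4) = Iq / 4 := by
  have h1 := Lop_symm PRg_k (E_cl h) PRg_Lam (by norm_num) (by norm_num)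
  have h2 : ip E (Lop 4 (Lam 4 (Qf 4))) = -2 * ip E (Qf 4) := by
    unfold ip
    rw [← integral_const_mul]
    refine integral_congr_ae (Eventually.of_forall fun y => ?_)
    simp only
    rw [L_LamQ PRg_k]
    ring
  have h3 : ip (Lop 4 E) (Lam 4 (Qf 4)) = -(Iq / 2) := by
    rw [← int_LamQ]
    unfold ip
    refine integral_congr_ae (Eventually.of_forall fun y => ?_)
    simp only
    rw [h.LE]
    ring
  rw [h2, h3] at h1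
  linarith

theorem ip_EQd (h : Prof P E) : ip E (deriv (Qf 4)) = 0 := by
  unfold ip
  rw [Qf_deriv PRg_k]
  refine Sol2_odd fun y => ?_
  simp only [th_neg, Qf_neg, h.Ee]
  ring

theorem L_Qdd (y : ℝ) : Lop 4 (deriv (deriv (Qf 4))) y = 4 * rho y := by
  have hQ := Cl_Qf (k := 4) PRg_k
  have h3 : deriv (deriv (deriv (Qf 4))) = fun y => deriv (Qf 4) y - (Qf 4 y) ^ 4 * deriv (Qf 4) y := by
    funext z
    have := L_Qd (k := 4) PRg_k z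
    unfold Lop at this
    linarith
  have h4 : HasDerivAt (fun y => deriv (Qf 4) y - (Qf 4 y) ^ 4 * deriv (Qf 4) y)
      (deriv (deriv (Qf 4)) y - (4 * (Qf 4 y) ^ 3 * deriv (Qf 4) y * deriv (Qf 4) y +
        (Qf 4 y) ^ 4 * deriv (deriv (Qf 4)) y)) y := by
    have a := Cl_hd (Cl_der hQ) y
    have b := Cl_hd hQ y
    refine (a.sub ((b.pow 4).mul a)).congr_deriv ?_
    simp only [Pi.pow_apply]
    push_cast
    ring
  unfold Lop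
  rw [h3, h4.deriv, rho]
  ring

theorem PRg_rho {f : ℝ → ℝ} (hf : Cl 0 0 f) : 4 * ip f rho = ip (Lop 4 f) (deriv (deriv (Qf 4))) := by
  rw [Lop_symm PRg_k hf PRg_Qdd (by norm_num) (by norm_num)]
  unfold ip
  rw [← integral_const_mul]
  refine integral_congr_ae (Eventually.of_forall fun y => ?_)
  simp only
  rw [L_Qdd]
  ring

theorem ip_Erho (h : Prof P E) : ip E rho = 0 := by
  have h1 := PRg_rho (E_cl h)
  have h2 : ip (Lop 4 E) (deriv (deriv (Qf 4))) = 0 := by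
    have h3 := Cl_int_deriv (Cl_der (Cl_Qf (k := 4) PRg_k)) (by norm_num) (by norm_num)
    rw [← h3]
    unfold ip
    refine integral_congr_ae (Eventually.of_forall fun y => ?_)
    simp only
    rw [h.LE]
    ring
  rw [h2] at h1
  linarith

theorem ip_Prho (h : Prof P E) : ip P rho = 0 := by
  have h1 := PRg_rho h.cP
  have h2 : ip (Lop 4 P) (deriv (deriv (Qf 4))) = 0 := by
    have h3 := Cl_ibp (Cl_der (Cl_Qf (k := 4) PRg_k)) Jf_cl (by norm_num) (by norm_num)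
    have h4 : ∫ y, deriv (Qf 4) y * deriv Jf y = 0 := by
      have h5 := ip_LamQ_Qd (k := 4) PRg_k
      have h6 : ∫ y, deriv (Qf 4) y * deriv Jf y = -ip (Lam 4 (Qf 4)) (deriv (Qf 4)) := by
        unfold ip
        rw [← integral_neg]
        refine integral_congr_ae (Eventually.of_forall fun y => ?_)
        simp only
        rw [(Jf_hd y).deriv]
        ring
      rw [h6, h5, neg_zero]
    rw [h4, neg_zero] at h3
    have h7 : ip (Lop 4 P) (deriv (deriv (Qf 4))) = -∫ y, deriv (deriv (Qf 4)) y * Jf y := by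
      unfold ip
      rw [← integral_neg]
      refine integral_congr_ae (Eventually.of_forall fun y => ?_)
      simp only
      rw [h.LP]
      ring
    rw [h7, h3, neg_zero]
  rw [h2] at h1
  linarith

theorem ip_Qdrho : ip (deriv (Qf 4)) rho = 0 := by
  have e : rho = fun y => (Qf 4 y) ^ 3 * (deriv (Qf 4) y) ^ 2 := rfl
  unfold ip
  rw [e, Qf_deriv PRg_k]
  refine Sol2_odd fun y => ?_
  simp only [th_neg, Qf_neg]
  ring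

theorem ip_LamQrho : ip (Lam 4 (Qf 4)) rho = 1 / 2 * ∫ y, (deriv (Qf 4) y) ^ 2 := by
  have h1 := PRg_rho (Cl_mono PRg_Lam (p' := 0) (q' := 0) (by norm_num) (by norm_num))
  have h2 : ip (Lop 4 (Lam 4 (Qf 4))) (deriv (deriv (Qf 4))) =
      -2 * ip (deriv (deriv (Qf 4))) (Qf 4) := by
    unfold ip
    rw [← integral_const_mul]
    refine integral_congr_ae (Eventually.of_forall fun y => ?_)
    simp only
    rw [L_LamQ PRg_k]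
    ring
  rw [h2, ip_Qdd_Q PRg_k] at h1
  linarith

end H68KC

end

end S_H68_KC_PRg

section S_H68_KC_Stat4

/-!
# The trap for `k = 4`: definitions (`Fac` + `Trd` → `Dyn4`)

`D` below means `λ³ d/dt`; `D (r^n) = -(n/8) w r^n`, `D t = r^24`.
-/

open MeasureTheory Filter Topology Set
open scoped ContDiff

noncomputable section

namespace H68KC

open H98KB

/-- facts which hold along the trajectory independently of the trap -/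
structure Fac (P E : ℝ → ℝ) (r w m : ℝ) (W et : ℝ → ℝ) : Prop where
  pr : Prof P E
  r0 : 0 < r
  cl : ∃ p q : ℝ, 0 < p ∧ p ≤ 1 / 2 ∧ 0 < q ∧ q ≤ 1 / 2 ∧ Cl p q (fun y => W y - Qf 4 y) ∧ Cl p q et
  or1 : ip (ze w m (r ^ 8) W et) rho = 0
  or2 : ip (ze w m (r ^ 8) W et) (deriv (Qf 4)) = 0
  ne : ne2 et ≤ r ^ 60
  mq : |ip W (deriv (Qf 4))| ≤ r ^ 30
  mr : |ip (fun y => W y - Qf 4 y) rho| ≤ r ^ 30
  ms : (∫ y, (W y) ^ 2) ≤ (∫ y, (Qf 4 y) ^ 2) + 1 / 2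

/-- the trapped region (`g₁, …, g₉ > 0`) -/
structure Trd (P E : ℝ → ℝ) (η γ δ M B K0 K9 KE Ca KN K5 σ t r : ℝ) (W : ℝ → ℝ) : Prop where
  g1 : LL4 P E η γ δ M B K0 r W < K9 * r ^ 10
  g2 : bq (r ^ 2) W < 4 * c0 * r ^ 4
  g3 : 2 * c0 * r ^ 4 < bq (r ^ 2) W
  g4 : EW W < KE * r ^ 4
  g5 : Nn (r ^ 2) W < (Ca + KN * t) * r ^ 16
  g6 : alf (r ^ 2) W + K5 * r ^ 5 < (f0 + σ) * r ^ 4
  g7 : (f0 - σ) * r ^ 4 < alf (r ^ 2) W - K5 * r ^ 5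
  g8 : Xn (fun y => W y - Qf 4 y) < r ^ 2
  g9 : (∫ y, (W y - Qf 4 y) ^ 2) < 1

/-- consequences: strict improvement at the boundary of the trapped region -/
structure Dyn4 (P E : ℝ → ℝ) (η γ δ M B K0 K9 KE KN K5 δ0 r w m : ℝ) (W et : ℝ → ℝ) :
    Prop where
  w1 : c0 * r ^ 4 ≤ w
  w2 : w ≤ 5 * c0 * r ^ 4
  m1 : |m| ≤ 1 / 4
  d1 : K9 / 2 * r ^ 10 ≤ LL4 P E η γ δ M B K0 r W →
    DLL4 P E η γ δ M B K0 r w W (ze w m (r ^ 8) W et) ≤ -(5 / 4) * w * K9 * r ^ 10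
  d2 : (4 * c0 - δ0) * r ^ 4 ≤ bq (r ^ 2) W →
    bqD (r ^ 2) w W (ze w m (r ^ 8) W et) + 2 * c0 * w * r ^ 4 ≤ 0
  d3 : bq (r ^ 2) W ≤ (2 * c0 + δ0) * r ^ 4 →
    0 ≤ bqD (r ^ 2) w W (ze w m (r ^ 8) W et) + c0 * w * r ^ 4
  d4 : KE / 2 * r ^ 4 ≤ EW W → DEW W (ze w m (r ^ 8) W et) ≤ -(1 / 2) * w * KE * r ^ 4
  d5 : DNn (r ^ 2) w W (ze w m (r ^ 8) W et) + 2 * w * Nn (r ^ 2) W ≤ KN * r ^ 40
  d6 : |alm (r ^ 2) w W (ze w m (r ^ 8) W et)| ≤ K5 / 8 * w * r ^ 5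
  s8 : Xn (fun y => W y - Qf 4 y) ≤ r ^ 2 / 2
  s9 : (∫ y, (W y - Qf 4 y) ^ 2) ≤ 3 / 4
  x1 : 1 / 4 * (∫ y, (deriv (Qf 4) y) ^ 2) ≤ ∫ y, (deriv W y) ^ 2

/-- what the static part delivers for the trap; `Ca`, `KI` come from the initial data -/
def ThmTrap : Prop :=
  ∀ (P E : ℝ → ℝ) (γ η δ M B c C : ℝ), Prof P E → GoodA P E γ η δ M B c C → GoodB P E γ B c →
    GoodC P E γ B c C → ∀ (Ca KI : ℝ), 1 ≤ Ca → 1 ≤ KI →
    ∃ K0 K9 KE KN K5 σ0 δ0 r1 : ℝ, 0 < K0 ∧ 4 * K0 * (Ca + 1) ≤ K9 ∧ KI ≤ KE ∧ 0 < KN ∧ 0 < K5 ∧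
      0 < σ0 ∧ 0 < δ0 ∧ 0 < r1 ∧ r1 ≤ 1 ∧ ∀ (σ t r w m : ℝ) (W et : ℝ → ℝ), r ≤ r1 → 0 ≤ t →
      KN * t ≤ 1 → σ ≤ σ0 →
      Fac P E r w m W et → Trd P E η γ δ M B K0 K9 KE Ca KN K5 σ t r W →
      Dyn4 P E η γ δ M B K0 K9 KE KN K5 δ0 r w m W et

/-! ## Initial data -/

/-- background profile -/
def kap4 (w1 x : ℝ) : ℝ := 1 / Real.cosh (x / w1)

/-- `h₀ = 3 c₀ r⁴ P + f₀ r⁴ E`, cut at the physical scale `w1` -/
def hk4 (P E : ℝ → ℝ) (w1 r y : ℝ) : ℝ := hf P E (3 * c0 * r ^ 4) (f0 * r ^ 4) y * kap4 w1 (r ^ 8 * y)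

/-- the initial datum in the rescaled variable -/
def W0 (P E : ℝ → ℝ) (w1 r y : ℝ) : ℝ :=
  Qf 4 y + hk4 P E w1 r y
    - ip (hk4 P E w1 r) (deriv (Qf 4)) / (∫ y, (deriv (Qf 4) y) ^ 2) * deriv (Qf 4) y
    - ip (hk4 P E w1 r) rho / ip (Lam 4 (Qf 4)) rho * Lam 4 (Qf 4) y

/-- the initial datum `φ(x) = λ₀^{-1/2} W0(x/λ₀)`, `λ₀ = r^8` -/
def dat4 (P E : ℝ → ℝ) (w1 r x : ℝ) : ℝ := 1 / r ^ 4 * W0 P E w1 r (x / r ^ 8)

/-- initial conditions; `W` is `ν`-close to `W0` in `H¹` -/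
def ThmIni : Prop :=
  ∀ (P E : ℝ → ℝ) (γ η δ M B c C : ℝ), Prof P E → GoodA P E γ η δ M B c C →
    ∃ w1 Ca KI : ℝ, 0 < w1 ∧ w1 ≤ 1 ∧ 1 ≤ Ca ∧ 1 ≤ KI ∧
    ∀ K0 K9 KE KN K5 : ℝ, 0 < K0 → 4 * K0 * (Ca + 1) ≤ K9 → KI ≤ KE → 0 < K5 →
    ∃ r1 : ℝ, 0 < r1 ∧ r1 ≤ 1 / 2 ∧ ∀ r, 0 < r → r ≤ r1 →
      Cl 4 4 (dat4 P E w1 r) ∧
      ∃ ν C' : ℝ, 0 < ν ∧ 0 < C' ∧ ∀ W : ℝ → ℝ,
        (∃ p q : ℝ, 0 < p ∧ p ≤ 1 / 2 ∧ 0 < q ∧ q ≤ 1 / 2 ∧ Cl p q (fun y => W y - Qf 4 y)) →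
        ne2 (fun y => W y - W0 P E w1 r y) ≤ ν →
        Trd P E η γ δ M B K0 K9 KE Ca KN K5 (2 * K5 * r) 0 r W ∧
        (∫ y, (W y) ^ 2) ≤ (∫ y, (Qf 4 y) ^ 2) + 1 / 4 ∧
        |ip W (deriv (Qf 4))| ≤ C' * √(ne2 (fun y => W y - W0 P E w1 r y)) ∧
        |ip (fun y => W y - Qf 4 y) rho| ≤ C' * √(ne2 (fun y => W y - W0 P E w1 r y))

end H68KC

end

end S_H68_KC_Stat4

section S_H68_KC_PRa

open MeasureTheory Filter Topology Set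
open scoped ContDiff

noncomputable section

/-!
# Row PRa (MP_95be7d_K4): the second solution of `L G = 0` for `k = 4`, explicitly

`A0 = Q(0)`, `q = Q/A0 = cosh(2y)^{-1/2}`, `G2 = 1/q - 2 q^3`.

All lemmas on `Q` are in `Pool.Agent.H98.KB.Sol`, `Sol2`, `Tan` (use them with `k = 4`, `hk : 1 ≤ 4`):
`Qf_hd` (`Q' = -t Q`, `t = th 4 y`), `th_hd` (`t' = 2 (1 - t²)`), `Qf_pow` (`Q⁴ = C0 4 * (1 - t²)`, and
`C0 4 = (4+1)(4+2)/2 = 15`, unfold `C0`), `Qf_deriv`, `Sol2_dd`, `Qf_neg`, `th_neg`, `Qf_pos`, `Qf_lo`, `Qf_hi`.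

## Proofs
* `A0_pow`: `Qf_pow` at `y = 0`, `th 4 0 = tanh 0 = 0`.
* `G2_hd`: `(1/Q)' = t/Q`, `((Q/A0)^3)' = -3 t (Q/A0)^3`.
* `G2_hd2` (derivative of the right hand side of `G2_hd`): with `t' = 2(1-t²)`:
  `(t/Q)' = (2(1-t²) + t²)/Q`, `(t q³)' = 2(1-t²) q³ - 3 t² q³`. So
  `G2'' = A0 (2 - t²)/Q + 6 (2 - 5 t²) q³`.
* `G2_L`: `-G2'' + G2 - Q⁴ G2` with `Q⁴ = 15 (1-t²)` and `q⁴ = Q⁴/A0⁴ = 1 - t²`:
  terms with `A0/Q = 1/q`: `-(2 - t²) + 1 - 15 (1-t²) = -16 (1 - t²)`;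
  terms with `q³`: `-6 (2 - 5t²) - 2 + 30 (1-t²) = 16` ; and `q³ = (1/q) q⁴ = (1/q)(1-t²)`, so the sum vanishes.
  (In Lean: write everything with `q`, `A0 = Q/q`; or multiply by `Q` and use `Q⁴ = 15(1-t²)`, `A0⁴ = 15`:
  `q³ = Q³/A0³ = A0 Q³/15`, `A0/Q = A0 Q³/(15 (1-t²))`.)
* `G2_wr`: `Q' G2' - Q'' G2` : `Q' = -tQ`, `Q'' = (3t² - 2) Q` (`Sol2_dd` with `k = 4`):
  `-t Q (A0 t/Q + 6 t q³) - (3t²-2) Q (A0/Q - 2 q³) = A0(-t² - 3t² + 2) + Q q³ (-6t² + 6t² - 4)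
  = A0 (2 - 4t²) - 4 A0 q⁴ = A0 (2 - 4t² - 4 + 4t²) = -2 A0`.
* `G2_bd`: `|G2| , |G2'| ≤ C e^{|y|}`: `Q ≥ c e^{-|y|}` (`Qf_lo`), `Q ≤ C` (`Qf_hi`), `|t| < 1` (`th_abs_lt`).
* `G2_neg`: `Qf_neg`.
-/

namespace H68KC

open H98KB

/-- `Q(0)` -/
def A0 : ℝ := Qf 4 0

/-- second solution of `L G = 0` -/
def G2 (y : ℝ) : ℝ := A0 / Qf 4 y - 2 * (Qf 4 y / A0) ^ 3

theorem A0_pos : 0 < A0 := Qf_pos 4 0

theorem Q4_pow (y : ℝ) : (Qf 4 y) ^ 4 = 15 * (1 - th 4 y ^ 2) := by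
  have h := Qf_pow (k := 4) (by norm_num) y
  have h2 : C0 4 = 15 := by unfold C0; norm_num
  rw [h2] at h
  exact h

theorem A0_pow : A0 ^ 4 = 15 := by
  have h := Q4_pow 0
  have h1 : th 4 0 = 0 := by rw [th_eq]; simp
  rw [h1] at h
  unfold A0
  rw [h]
  norm_num

theorem PRa_thd (y : ℝ) : HasDerivAt (th 4) (2 * (1 - th 4 y ^ 2)) y := by
  have h := th_hd 4 y
  have h2 : ((4 : ℕ) : ℝ) / 2 * (1 - th 4 y ^ 2) = 2 * (1 - th 4 y ^ 2) := by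
    norm_num
  rw [h2] at h
  exact h

theorem PRa_qhd (y : ℝ) : HasDerivAt (Qf 4) (-(th 4 y) * Qf 4 y) y := Qf_hd (by norm_num) y

/-- derivative of `A0 / Q` -/
theorem PRa_ihd (y : ℝ) : HasDerivAt (fun y => A0 / Qf 4 y) (A0 * th 4 y / Qf 4 y) y := by
  have hq := PRa_qhd y
  have hp : Qf 4 y ≠ 0 := (Qf_pos 4 y).ne'
  have h1 := (hasDerivAt_const y A0).div hq hp
  refine HasDerivAt.congr_deriv (f := fun y => A0 / Qf 4 y) h1 ?_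
  field_simp
  ring

/-- derivative of `(Q / A0)^3` -/
theorem PRa_chd (y : ℝ) : HasDerivAt (fun y => (Qf 4 y / A0) ^ 3) (-3 * th 4 y * (Qf 4 y / A0) ^ 3) y := by
  have hq := PRa_qhd y
  have h2 := (hq.div_const A0).pow 3
  refine HasDerivAt.congr_deriv (f := fun y => (Qf 4 y / A0) ^ 3) h2 ?_
  norm_num
  ring

theorem G2_hd (y : ℝ) :
    HasDerivAt G2 (A0 * th 4 y / Qf 4 y + 6 * th 4 y * (Qf 4 y / A0) ^ 3) y := by
  have h3 := (PRa_ihd y).sub ((PRa_chd y).const_mul 2)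
  refine HasDerivAt.congr_deriv (f := G2) h3 ?_
  ring

theorem PRa_e3 (y : ℝ) : A0 / Qf 4 y * (1 - th 4 y ^ 2) = (Qf 4 y / A0) ^ 3 := by
  have hp : Qf 4 y ≠ 0 := (Qf_pos 4 y).ne'
  have hA : A0 ≠ 0 := A0_pos.ne'
  have : A0 ^ 4 * (1 - th 4 y ^ 2) = Qf 4 y ^ 4 := by rw [Q4_pow y, A0_pow]
  rw [div_pow, div_mul_eq_mul_div, div_eq_div_iff hp (pow_ne_zero 3 hA)]
  linarith [this]

theorem G2_hd2 (y : ℝ) :
    HasDerivAt (fun y => A0 * th 4 y / Qf 4 y + 6 * th 4 y * (Qf 4 y / A0) ^ 3)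
      ((1 - (Qf 4 y) ^ 4) * G2 y) y := by
  have ht := PRa_thd y
  have h1 := ht.mul (PRa_ihd y)
  have h2 := (ht.const_mul 6).mul (PRa_chd y)
  have h3 := h1.add h2
  have h4 : (fun y => A0 * th 4 y / Qf 4 y + 6 * th 4 y * (Qf 4 y / A0) ^ 3) =
      fun y => th 4 y * (A0 / Qf 4 y) + 6 * th 4 y * (Qf 4 y / A0) ^ 3 := by
    funext z; ring
  rw [h4]
  refine HasDerivAt.congr_deriv h3 ?_
  have e1 := Q4_pow y
  have e3 := PRa_e3 y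
  unfold G2
  rw [e1]
  have e4 : A0 * th 4 y / Qf 4 y = th 4 y * (A0 / Qf 4 y) := by ring
  rw [e4]
  generalize (Qf 4 y / A0) ^ 3 = c at *
  generalize A0 / Qf 4 y = v at *
  rw [← e3]
  ring

theorem PRa_d : deriv G2 = fun y => A0 * th 4 y / Qf 4 y + 6 * th 4 y * (Qf 4 y / A0) ^ 3 :=
  funext fun y => (G2_hd y).deriv

theorem G2_L (y : ℝ) : Lop 4 G2 y = 0 := by
  unfold Lop
  rw [PRa_d, (G2_hd2 y).deriv]
  ring

theorem G2_wr (y : ℝ) :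
    deriv (Qf 4) y * deriv G2 y - deriv (deriv (Qf 4)) y * G2 y = -2 * A0 := by
  have hp : Qf 4 y ≠ 0 := (Qf_pos 4 y).ne'
  have hA : A0 ≠ 0 := A0_pos.ne'
  rw [PRa_d, (PRa_qhd y).deriv, Qf_deriv2 (by norm_num) y]
  unfold G2
  have e3 := PRa_e3 y
  have e5 : Qf 4 y * (Qf 4 y / A0) ^ 3 = A0 * (1 - th 4 y ^ 2) := by
    rw [← e3]; field_simp
  have e6 : Qf 4 y * (A0 / Qf 4 y) = A0 := by field_simp
  have e7 : -(th 4 y) * Qf 4 y * (A0 * th 4 y / Qf 4 y + 6 * th 4 y * (Qf 4 y / A0) ^ 3) -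
      (th 4 y ^ 2 - ((4 : ℕ) : ℝ) / 2 * (1 - th 4 y ^ 2)) * Qf 4 y *
        (A0 / Qf 4 y - 2 * (Qf 4 y / A0) ^ 3) =
      -(th 4 y) ^ 2 * (Qf 4 y * (A0 / Qf 4 y)) - 6 * th 4 y ^ 2 * (Qf 4 y * (Qf 4 y / A0) ^ 3) -
      (th 4 y ^ 2 - 2 * (1 - th 4 y ^ 2)) * (Qf 4 y * (A0 / Qf 4 y)) +
      2 * (th 4 y ^ 2 - 2 * (1 - th 4 y ^ 2)) * (Qf 4 y * (Qf 4 y / A0) ^ 3) := by
    push_cast
    ring
  rw [e7, e5, e6]
  ring

theorem G2_bd : ∃ C : ℝ, 0 ≤ C ∧ ∀ y, |G2 y| ≤ C * Real.exp |y| ∧ |deriv G2 y| ≤ C * Real.exp |y| := by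
  obtain ⟨c, hc, hlo⟩ := Qf_lo (k := 4) (by norm_num)
  obtain ⟨C, hC, hhi⟩ := Qf_hi (k := 4) (by norm_num)
  have hA := A0_pos
  have b1 : ∀ y, A0 / Qf 4 y ≤ A0 / c * Real.exp |y| := by
    intro y
    have hq := Qf_pos 4 y
    rw [div_le_iff₀ hq]
    have h1 := hlo y
    have h2 : Real.exp |y| * Real.exp (-|y|) = 1 := by rw [← Real.exp_add]; simp
    calc A0 = A0 / c * (c * (Real.exp |y| * Real.exp (-|y|))) := by rw [h2]; field_simp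
      _ = A0 / c * Real.exp |y| * (c * Real.exp (-|y|)) := by ring
      _ ≤ A0 / c * Real.exp |y| * Qf 4 y := mul_le_mul_of_nonneg_left h1 (by positivity)
  have b2 : ∀ y, (Qf 4 y / A0) ^ 3 ≤ (C / A0) ^ 3 * Real.exp |y| := by
    intro y
    have hq := Qf_pos 4 y
    have h1 : Qf 4 y ≤ C := by
      refine (hhi y).trans ?_
      have : Real.exp (-|y|) ≤ 1 := Real.exp_le_one_iff.mpr (by simp)
      nlinarith
    have h2 : (Qf 4 y / A0) ^ 3 ≤ (C / A0) ^ 3 := by gcongr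
    have h3 : 1 ≤ Real.exp |y| := Real.one_le_exp (abs_nonneg y)
    have h4 : 0 ≤ (C / A0) ^ 3 := by positivity
    nlinarith
  refine ⟨A0 / c + 6 * (C / A0) ^ 3, by positivity, fun y => ?_⟩
  have hq := Qf_pos 4 y
  have v0 : 0 < A0 / Qf 4 y := by positivity
  have w0 : 0 < (Qf 4 y / A0) ^ 3 := by positivity
  have h1 := b1 y
  have h2 := b2 y
  have ht := th_abs_lt 4 y
  have hE := Real.exp_pos |y|
  have hc3 : 0 ≤ (C / A0) ^ 3 * Real.exp |y| := by positivity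
  constructor
  · unfold G2
    rw [abs_le]
    constructor
    · nlinarith
    · nlinarith
  · rw [PRa_d]
    have e : A0 * th 4 y / Qf 4 y + 6 * th 4 y * (Qf 4 y / A0) ^ 3 =
        th 4 y * (A0 / Qf 4 y + 6 * (Qf 4 y / A0) ^ 3) := by ring
    show |A0 * th 4 y / Qf 4 y + 6 * th 4 y * (Qf 4 y / A0) ^ 3| ≤ _
    rw [e, abs_mul, abs_of_pos (show 0 < A0 / Qf 4 y + 6 * (Qf 4 y / A0) ^ 3 by positivity)]
    calc |th 4 y| * (A0 / Qf 4 y + 6 * (Qf 4 y / A0) ^ 3)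
        ≤ 1 * (A0 / Qf 4 y + 6 * (Qf 4 y / A0) ^ 3) :=
          mul_le_mul_of_nonneg_right ht.le (by positivity)
      _ ≤ _ := by nlinarith

theorem G2_neg (y : ℝ) : G2 (-y) = G2 y := by
  unfold G2
  rw [Qf_neg]

end H68KC

end

end S_H68_KC_PRa
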