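import Mathlib
import Pool.Agent.H98.BU.G01

/-! Blow-up for `u_t + u^k u_x + u_xxx - u_xx = 0`, part G03: this file joins several modules
to save build time (`Pool/Agent/H98/{KB,KC}`, `H72/{KB,KC}`, `H68/KC`, `H37/{KB,KC}`). -/

section S_H98_KB_Tbn

/-!
# Tbn (second half of Tan) : `tanh`, `sech` and the weights `Th`, `om`, `ch`, `loc` in the class `Cl`

`tanh(cy)' = c(1-tanh²)`, `1/cosh² = 1 - tanh²`, `1/cosh(cy) ≤ 2 e^{-c|y|}`.
`Cl_tanh`: by `Cl_of_deriv` bootstrapping, or: every iterated derivative of `T=tanh(c y)` is a polynomial in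
`T` (induction) hence bounded; and it is a multiple of `1-T²` for `j ≥ 1`.
`Th B y = (1+tanh(y/(2B)))/2`, `Th ≤ e^{y/B}` for `y ≤ 0`.
-/

open MeasureTheory Filter Topology Set
open scoped ContDiff

namespace H98KB

theorem Th_eq {B : ℝ} (hB : 0 < B) (y : ℝ) : Th B y = (1 + Real.tanh (y / (2 * B))) / 2 := by
  have h1 : Real.exp (-y / B) = Real.exp (-(y / (2 * B))) / Real.exp (y / (2 * B)) := by
    rw [← Real.exp_sub]
    congr 1
    field_simp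
    ring
  have h2 := Real.exp_pos (y / (2 * B))
  have h3 := Real.exp_pos (-(y / (2 * B)))
  unfold Th
  rw [Real.tanh_eq_sinh_div_cosh, Real.sinh_eq, Real.cosh_eq, h1]
  have h4 : Real.exp (y / (2 * B)) + Real.exp (-(y / (2 * B))) ≠ 0 := by positivity
  field_simp
  ring

theorem Th_pos (B y : ℝ) : 0 < Th B y := by
  unfold Th
  have := Real.exp_pos (-y / B)
  positivity

theorem Th_lt_one (B y : ℝ) : Th B y < 1 := by
  unfold Th
  have := Real.exp_pos (-y / B)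
  rw [div_lt_one (by positivity)]
  linarith

theorem Th_neg {B : ℝ} (hB : 0 < B) (y : ℝ) : Th B y + Th B (-y) = 1 := by
  rw [Th_eq hB, Th_eq hB, neg_div, Real.tanh_neg]
  ring

theorem Th_hd {B : ℝ} (hB : 0 < B) (y : ℝ) : HasDerivAt (Th B) (Th B y * (1 - Th B y) / B) y := by
  have e : Th B = fun y => (1 + Real.tanh (1 / (2 * B) * y)) / 2 := by
    funext z
    rw [Th_eq hB]
    congr 3
    field_simp
  have h := ((tanh_hd (1 / (2 * B)) y).const_add 1).div_const 2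
  rw [e]
  refine h.congr_deriv ?_
  field_simp
  ring

theorem Cl_Th {B : ℝ} (hB : 0 < B) : Cl 0 (1 / B) (Th B) := by
  have e : ∀ y, Th B y = (1 + Real.tanh (1 / (2 * B) * y)) / 2 := by
    intro z
    rw [Th_eq hB]
    congr 3
    field_simp
  have h := Tan_Cl (c := 1 / (2 * B)) (p := 0) (q := 1 / B) (K := 1) (w := Th B)
    (R := Polynomial.C (1 / (2 * B)) * (1 - Polynomial.X)) (fun y => by
      refine (Th_hd hB y).congr_deriv ?_
      simp only [Polynomial.eval_mul, Polynomial.eval_C, Polynomial.eval_X, Polynomial.eval_sub,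
        Polynomial.eval_one]
      have h1 : Real.tanh (1 / (2 * B) * y) = 2 * Th B y - 1 := by
        rw [e y]
        ring
      rw [h1]
      field_simp
      ring) (fun y => by
      rw [abs_of_pos (Th_pos B y), one_mul]
      rcases le_total 0 y with hy | hy
      · rw [bd_of_nonneg hy, zero_mul, neg_zero, Real.exp_zero]
        exact (Th_lt_one B y).le
      · rw [bd_of_nonpos hy]
        unfold Th
        have h1 := Real.exp_pos (-y / B)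
        rw [div_le_iff₀ (by positivity)]
        have h2 : Real.exp (1 / B * y) * Real.exp (-y / B) = 1 := by
          rw [← Real.exp_add]
          have : 1 / B * y + -y / B = 0 := by
            field_simp
            ring
          rw [this, Real.exp_zero]
        have h3 := Real.exp_pos (1 / B * y)
        nlinarith) 1
  simpa using h

theorem Cl_om {B : ℝ} (hB : 0 < B) (ρ : ℝ) : Cl (-(2 * ρ)) (2 * ρ + 1 / B) (om B ρ) := by
  have h := Cl_mul (Cl_Th hB) (Cl_exp (2 * ρ))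
  have e1 : (0 : ℝ) + -(2 * ρ) = -(2 * ρ) := by ring
  have e2 : 1 / B + 2 * ρ = 2 * ρ + 1 / B := by ring
  rw [e1, e2] at h
  exact h

theorem om_pos (B ρ y : ℝ) : 0 < om B ρ y := by
  exact mul_pos (Th_pos B y) (Real.exp_pos _)

theorem om_hd {B : ℝ} (hB : 0 < B) (ρ y : ℝ) :
    HasDerivAt (om B ρ) ((Th B y * (1 - Th B y) / B + 2 * ρ * Th B y) * Real.exp (2 * ρ * y)) y := by
  have h1 : HasDerivAt (fun y : ℝ => 2 * ρ * y) (2 * ρ * 1) y := (hasDerivAt_id y).const_mul (2 * ρ)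
  have h2 := (Th_hd hB y).mul h1.exp
  refine h2.congr_deriv ?_
  ring

end H98KB

end S_H98_KB_Tbn

section S_H98_KB_Wts

/-!
# Wts : inequalities between the weights

`Slow B ρ : 16 ≤ B, 0 < ρ, 4ρB ≤ 1`; so `1/B + 4ρ ≤ 2/B`.  Put `T = Th`, `T' = T(1-T)/B`,
`T'' = T'(1-2T)/B`, `T''' = (T''(1-2T) - 2T'^2)/B`, hence `|T''| ≤ T'/B`, `|T'''| ≤ (3/2)T'/B²`.
`om' = (T'+2ρT)E`, `om'' = (T''+4ρT'+4ρ²T)E`, `om''' = (T'''+6ρT''+12ρ²T'+8ρ³T)E`, `E = e^{2ρy}`.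
* `om1_ge : om' ≥ 2ρ om`, `om1_le : om' ≤ (2/B) om` (`T' ≤ T/B`, `1/B + 2ρ ≤ 2/B`).
* `om2_le : |om''| ≤ (1/B+4ρ) om' ≤ (2/B) om'`, `om3_le : |om'''| ≤ ((3/2)/B²+6ρ/B+12ρ²+4ρ²) om' ≤ (8/B²) om'`
  (use `4ρ ≤ 1/B`).
* lower bounds: `T' = (1/(4B)) sech²(y/(2B))`.  For `y ≥ 0`: `om' ≥ T' ≥ (1/4B) sech²(y/B)`.  For `y ≤ 0`:
  `e^{2ρy} ≥ e^{-|y|/(2B)}`, `sech²(y/2B) ≥ e^{-|y|/B}`, so `om' ≥ (1/4B) e^{-3|y|/(2B)}` (this also holds for `y ≥ 0`),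
  `ch B y ≤ 4 e^{-2|y|/B}`, whence `ch ≤ 16 B om'`; `|y| e^{-|y|/(2B)} ≤ 2B` gives `(1+|y|) ch ≤ 48 B² om'`.
* `ch ≤ 8 om`: `y ≥ 0`: `om ≥ 1/2`; `y ≤ 0`: `om ≥ (1/2)e^{-|y|/B} e^{-|y|/(2B)}`.
* `loc ≥ e^{-|y|/2}` if `0 < γ ≤ 1/8`, `B ≥ 16` (`2γ+2/B ≤ 3/8`).
-/

open MeasureTheory Filter Topology Set
open scoped ContDiff

namespace H98KB

variable {B ρ : ℝ}

theorem Wts_poly (a b c T : ℝ) :
    HasDerivAt (fun T : ℝ => a * T + b * T ^ 2 + c * T ^ 3) (a + 2 * b * T + 3 * c * T ^ 2) T := by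
  have h1 := (hasDerivAt_id T).const_mul a
  have h2 := (hasDerivAt_pow 2 T).const_mul b
  have h3 := (hasDerivAt_pow 3 T).const_mul c
  refine ((h1.add h2).add h3).congr_deriv ?_
  norm_num
  ring

theorem Wts_gen (hB : 0 < B) (ρ a b c y : ℝ) :
    HasDerivAt (fun y => (a * Th B y + b * (Th B y) ^ 2 + c * (Th B y) ^ 3) * Real.exp (2 * ρ * y))
      (((a + 2 * b * Th B y + 3 * c * (Th B y) ^ 2) * (1 / B * (Th B y * (1 - Th B y))) +
        2 * ρ * (a * Th B y + b * (Th B y) ^ 2 + c * (Th B y) ^ 3)) * Real.exp (2 * ρ * y)) y := by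
  have h1 := (Wts_poly a b c (Th B y)).comp y (Th_hd hB y)
  have h2 : HasDerivAt (fun y : ℝ => Real.exp (2 * ρ * y)) (Real.exp (2 * ρ * y) * (2 * ρ)) y := by
    have h3 := ((hasDerivAt_id y).const_mul (2 * ρ)).exp
    simpa using h3
  have h4 := h1.mul h2
  refine h4.congr_deriv ?_
  simp only [Function.comp]
  ring

theorem Wts_e0 (B ρ : ℝ) : om B ρ = fun y =>
    (1 * Th B y + 0 * (Th B y) ^ 2 + 0 * (Th B y) ^ 3) * Real.exp (2 * ρ * y) := by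
  funext y
  rw [om]
  ring

theorem Wts_e1 (hB : 0 < B) (ρ : ℝ) : deriv (om B ρ) = fun y =>
    ((1 / B + 2 * ρ) * Th B y + (-(1 / B)) * (Th B y) ^ 2 + 0 * (Th B y) ^ 3) *
      Real.exp (2 * ρ * y) := by
  funext y
  rw [Wts_e0, (Wts_gen hB ρ 1 0 0 y).deriv]
  ring

theorem Wts_e2 (hB : 0 < B) (ρ : ℝ) : deriv (deriv (om B ρ)) = fun y =>
    ((1 / B + 2 * ρ) ^ 2 * Th B y + (-(3 * (1 / B) ^ 2 + 4 * ρ * (1 / B))) * (Th B y) ^ 2 +
      (2 * (1 / B) ^ 2) * (Th B y) ^ 3) * Real.exp (2 * ρ * y) := by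
  funext y
  rw [Wts_e1 hB, (Wts_gen hB ρ _ _ _ y).deriv]
  ring

theorem Wts_e3 (hB : 0 < B) (ρ y : ℝ) : deriv (deriv (deriv (om B ρ))) y =
    (((1 / B + 2 * ρ) ^ 2 + 2 * (-(3 * (1 / B) ^ 2 + 4 * ρ * (1 / B))) * Th B y +
      3 * (2 * (1 / B) ^ 2) * (Th B y) ^ 2) * (1 / B * (Th B y * (1 - Th B y))) +
        2 * ρ * ((1 / B + 2 * ρ) ^ 2 * Th B y + (-(3 * (1 / B) ^ 2 + 4 * ρ * (1 / B))) * (Th B y) ^ 2 +
      (2 * (1 / B) ^ 2) * (Th B y) ^ 3)) * Real.exp (2 * ρ * y) := by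
  rw [Wts_e2 hB, (Wts_gen hB ρ _ _ _ y).deriv]

theorem Wts_slow (h : Slow B ρ) : 0 < B ∧ 16 ≤ B ∧ 0 < ρ ∧ 2 * (2 * ρ) ≤ 1 / B := by
  obtain ⟨h1, h2, h3⟩ := h
  refine ⟨by linarith, h1, h2, ?_⟩
  rw [le_div_iff₀ (by linarith)]
  linarith

theorem Wts_a2 {T β ρ : ℝ} (hT : 0 < T) (hT1 : T < 1) (hβ : 0 < β) (hρ : 0 < ρ) (h : 2 * (2 * ρ) ≤ β) :
    |(β + 2 * ρ) ^ 2 * T + (-(3 * β ^ 2 + 4 * ρ * β)) * T ^ 2 + (2 * β ^ 2) * T ^ 3| ≤
      2 * β * ((β + 2 * ρ) * T + (-β) * T ^ 2 + 0 * T ^ 3) := by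
  have hp : 0 < 1 - T := by linarith
  have h1 : 2 * β * ((β + 2 * ρ) * T + (-β) * T ^ 2 + 0 * T ^ 3) -
      ((β + 2 * ρ) ^ 2 * T + (-(3 * β ^ 2 + 4 * ρ * β)) * T ^ 2 + (2 * β ^ 2) * T ^ 3) =
      T * ((1 - T) * (β - 2 * ρ) * (β + 2 * ρ) + 2 * β ^ 2 * T * (1 - T) + T * (2 * ρ) * (2 * β - 2 * ρ)) := by
    ring
  have h2 : 2 * β * ((β + 2 * ρ) * T + (-β) * T ^ 2 + 0 * T ^ 3) +
      ((β + 2 * ρ) ^ 2 * T + (-(3 * β ^ 2 + 4 * ρ * β)) * T ^ 2 + (2 * β ^ 2) * T ^ 3) =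
      T * ((1 - T) * (β ^ 2 + 2 * β ^ 2 * (1 - T) + 2 * (2 * ρ) * β) + (2 * ρ) ^ 2 + 2 * β * (2 * ρ)) := by
    ring
  have h3 : 0 ≤ β - 2 * ρ := by linarith
  have h4 : 0 ≤ 2 * β - 2 * ρ := by linarith
  rw [abs_le]
  constructor
  · have : 0 ≤ T * ((1 - T) * (β ^ 2 + 2 * β ^ 2 * (1 - T) + 2 * (2 * ρ) * β) + (2 * ρ) ^ 2 + 2 * β * (2 * ρ)) := by
      positivity
    linarith
  · have : 0 ≤ T * ((1 - T) * (β - 2 * ρ) * (β + 2 * ρ) + 2 * β ^ 2 * T * (1 - T) + T * (2 * ρ) * (2 * β - 2 * ρ)) := by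
      positivity
    linarith

theorem Wts_a3 {T β ρ : ℝ} (hT : 0 < T) (hT1 : T < 1) (hβ : 0 < β) (hρ : 0 < ρ) (h : 2 * (2 * ρ) ≤ β) :
    |((β + 2 * ρ) ^ 2 + 2 * (-(3 * β ^ 2 + 4 * ρ * β)) * T + 3 * (2 * β ^ 2) * T ^ 2) *
      (β * (T * (1 - T))) + 2 * ρ * ((β + 2 * ρ) ^ 2 * T + (-(3 * β ^ 2 + 4 * ρ * β)) * T ^ 2 +
      (2 * β ^ 2) * T ^ 3)| ≤ 8 * β ^ 2 * ((β + 2 * ρ) * T + (-β) * T ^ 2 + 0 * T ^ 3) := by
  have hp : 0 < 1 - T := by linarith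
  obtain ⟨r, hr⟩ : ∃ r, r = 2 * ρ := ⟨_, rfl⟩
  have hr0 : 0 < r := by rw [hr]; positivity
  have hrβ : 2 * r ≤ β := by rw [hr]; linarith
  have e1 : ((β + 2 * ρ) ^ 2 + 2 * (-(3 * β ^ 2 + 4 * ρ * β)) * T + 3 * (2 * β ^ 2) * T ^ 2) *
      (β * (T * (1 - T))) + 2 * ρ * ((β + 2 * ρ) ^ 2 * T + (-(3 * β ^ 2 + 4 * ρ * β)) * T ^ 2 +
      (2 * β ^ 2) * T ^ 3) = T * (1 - T) * (β ^ 3 * (1 - 6 * T + 6 * T ^ 2) +
        3 * r * β ^ 2 * (1 - 2 * T) + 3 * r ^ 2 * β) + T * r ^ 3 := by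
    rw [hr]; ring
  have e2 : 8 * β ^ 2 * ((β + 2 * ρ) * T + (-β) * T ^ 2 + 0 * T ^ 3) =
      T * (1 - T) * (8 * β ^ 3) + T * (8 * β ^ 2 * r) := by
    rw [hr]; ring
  rw [e1, e2]
  have hq1 : 1 - 6 * T + 6 * T ^ 2 ≤ 1 := by nlinarith [mul_pos hT hp]
  have hq2 : -1 ≤ 1 - 6 * T + 6 * T ^ 2 := by (first | linarith only [sq_nonneg (T - 1 / 2)] | nlinarith only [sq_nonneg (T - 1 / 2)])
  have hb3 : 0 < β ^ 3 := by positivity
  have hb2 : 0 < β ^ 2 := by positivity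
  have k1 : r * β ^ 2 ≤ β ^ 3 / 2 := by
    have := mul_le_mul_of_nonneg_right hrβ hb2.le
    (first | linarith only [this] | nlinarith only [this])
  have k2 : r ^ 2 * β ≤ β ^ 3 / 4 := by
    have h5 : r ^ 2 ≤ (β / 2) ^ 2 := pow_le_pow_left₀ hr0.le (by linarith) 2
    have := mul_le_mul_of_nonneg_right h5 hβ.le
    (first | linarith only [this] | nlinarith only [this])
  have k3 : r ^ 3 ≤ β ^ 2 * r := by
    have h5 : r ^ 2 ≤ β ^ 2 := pow_le_pow_left₀ hr0.le (by linarith) 2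
    have := mul_le_mul_of_nonneg_right h5 hr0.le
    nlinarith
  have k4 : β ^ 3 * (1 - 6 * T + 6 * T ^ 2) ≤ β ^ 3 * 1 := mul_le_mul_of_nonneg_left hq1 hb3.le
  have k5 : β ^ 3 * (-1) ≤ β ^ 3 * (1 - 6 * T + 6 * T ^ 2) := mul_le_mul_of_nonneg_left hq2 hb3.le
  have hrb : 0 < r * β ^ 2 := by positivity
  have k6 : r * β ^ 2 * (1 - 2 * T) ≤ r * β ^ 2 * 1 :=
    mul_le_mul_of_nonneg_left (by linarith) hrb.le
  have k7 : r * β ^ 2 * (-1) ≤ r * β ^ 2 * (1 - 2 * T) :=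
    mul_le_mul_of_nonneg_left (by linarith) hrb.le
  have hr2b : 0 < r ^ 2 * β := by positivity
  have hr3 : 0 < r ^ 3 := by positivity
  have hb2r : 0 < β ^ 2 * r := by positivity
  have m1 : β ^ 3 * (1 - 6 * T + 6 * T ^ 2) + 3 * r * β ^ 2 * (1 - 2 * T) + 3 * r ^ 2 * β ≤ 8 * β ^ 3 := by
    (first | linarith only [hr2b, k1, k2, k4, k6] | nlinarith only [hr2b, k1, k2, k4, k6])
  have m2 : -(8 * β ^ 3) ≤ β ^ 3 * (1 - 6 * T + 6 * T ^ 2) + 3 * r * β ^ 2 * (1 - 2 * T) + 3 * r ^ 2 * β := by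
    (first | linarith only [hr2b, k1, k2, k5, k7] | nlinarith only [hr2b, k1, k2, k5, k7])
  have hTp : 0 < T * (1 - T) := mul_pos hT hp
  have n1 := mul_le_mul_of_nonneg_left m1 hTp.le
  have n2 := mul_le_mul_of_nonneg_left m2 hTp.le
  have n3 : T * r ^ 3 ≤ T * (8 * β ^ 2 * r) := mul_le_mul_of_nonneg_left (by linarith) hT.le
  have n4 : T * (-(8 * β ^ 2 * r)) ≤ T * r ^ 3 := mul_le_mul_of_nonneg_left (by linarith) hT.le
  rw [abs_le]
  constructor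
  · (first | linarith only [n2, n4] | nlinarith only [n2, n4])
  · linarith

theorem om1_pos (h : Slow B ρ) (y : ℝ) : 0 < deriv (om B ρ) y := by
  obtain ⟨hB, _, hρ, _⟩ := Wts_slow h
  have h1 := Th_pos B y
  have h2 : 0 < 1 - Th B y := by linarith [Th_lt_one B y]
  rw [Wts_e1 hB]
  have h3 : ((1 / B + 2 * ρ) * Th B y + (-(1 / B)) * (Th B y) ^ 2 + 0 * (Th B y) ^ 3) *
      Real.exp (2 * ρ * y) = (1 / B * (Th B y * (1 - Th B y)) + 2 * ρ * Th B y) * Real.exp (2 * ρ * y) := by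
    ring
  show 0 < ((1 / B + 2 * ρ) * Th B y + (-(1 / B)) * (Th B y) ^ 2 + 0 * (Th B y) ^ 3) *
      Real.exp (2 * ρ * y)
  rw [h3]
  positivity

theorem Wts_v1 (hB : 0 < B) (ρ y : ℝ) : deriv (om B ρ) y =
    1 / B * (Th B y * (1 - Th B y)) * Real.exp (2 * ρ * y) + 2 * ρ * om B ρ y := by
  rw [Wts_e1 hB, om]
  ring

theorem om1_ge (h : Slow B ρ) (y : ℝ) : 2 * ρ * om B ρ y ≤ deriv (om B ρ) y := by
  obtain ⟨hB, _, hρ, _⟩ := Wts_slow h
  have h1 := Th_pos B y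
  have h2 : 0 < 1 - Th B y := by linarith [Th_lt_one B y]
  rw [Wts_v1 hB]
  have : 0 < 1 / B * (Th B y * (1 - Th B y)) * Real.exp (2 * ρ * y) := by positivity
  linarith

theorem om1_le (h : Slow B ρ) (y : ℝ) : deriv (om B ρ) y ≤ 2 / B * om B ρ y := by
  obtain ⟨hB, _, hρ, h4⟩ := Wts_slow h
  have h1 := Th_pos B y
  have h2 : 0 < 1 - Th B y := by linarith [Th_lt_one B y]
  rw [Wts_v1 hB]
  have h3 : 1 / B * (Th B y * (1 - Th B y)) * Real.exp (2 * ρ * y) ≤ 1 / B * om B ρ y := by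
    rw [om]
    have h5 : Th B y * (1 - Th B y) ≤ Th B y * 1 := mul_le_mul_of_nonneg_left (by linarith) h1.le
    have h6 := mul_le_mul_of_nonneg_left h5 (by positivity : (0 : ℝ) ≤ 1 / B * Real.exp (2 * ρ * y))
    linarith
  have h7 : 2 * ρ * om B ρ y ≤ 1 / B * om B ρ y :=
    mul_le_mul_of_nonneg_right (by linarith) (om_pos B ρ y).le
  have h8 : 2 / B * om B ρ y = 1 / B * om B ρ y + 1 / B * om B ρ y := by ring
  rw [h8]
  exact add_le_add h3 h7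

theorem om2_le (h : Slow B ρ) (y : ℝ) : |deriv (deriv (om B ρ)) y| ≤ 2 / B * deriv (om B ρ) y := by
  obtain ⟨hB, _, hρ, h4⟩ := Wts_slow h
  have h1 := Th_pos B y
  have h2 := Th_lt_one B y
  have hE := Real.exp_pos (2 * ρ * y)
  have key := Wts_a2 h1 h2 (by positivity : (0 : ℝ) < 1 / B) hρ h4
  rw [Wts_e2 hB, Wts_e1 hB]
  simp only []
  rw [abs_mul, abs_of_pos hE]
  have := mul_le_mul_of_nonneg_right key hE.le
  refine this.trans (le_of_eq ?_)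
  ring

theorem om3_le (h : Slow B ρ) (y : ℝ) :
    |deriv (deriv (deriv (om B ρ))) y| ≤ 8 / B ^ 2 * deriv (om B ρ) y := by
  obtain ⟨hB, _, hρ, h4⟩ := Wts_slow h
  have h1 := Th_pos B y
  have h2 := Th_lt_one B y
  have hE := Real.exp_pos (2 * ρ * y)
  have key := Wts_a3 h1 h2 (by positivity : (0 : ℝ) < 1 / B) hρ h4
  rw [Wts_e3 hB, Wts_e1 hB]
  simp only []
  rw [abs_mul, abs_of_pos hE]
  have := mul_le_mul_of_nonneg_right key hE.le
  refine this.trans (le_of_eq ?_)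
  ring

theorem Wts_half (hB : 0 < B) {y : ℝ} (hy : 0 ≤ y) : 1 / 2 ≤ Th B y := by
  rw [Th]
  have h1 : Real.exp (-y / B) ≤ 1 := by
    rw [Real.exp_le_one_iff]
    exact div_nonpos_of_nonpos_of_nonneg (by linarith) hB.le
  have h2 := Real.exp_pos (-y / B)
  exact one_div_le_one_div_of_le (by linarith) (by linarith)

theorem Wts_lo (hB : 0 < B) (y : ℝ) : 1 / 2 * Real.exp (-(|y| / B)) ≤ Th B y := by
  rcases le_or_gt 0 y with hy | hy
  · have h1 := Wts_half hB hy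
    have h2 : Real.exp (-(|y| / B)) ≤ 1 := by
      rw [Real.exp_le_one_iff]
      have : 0 ≤ |y| / B := by positivity
      linarith
    linarith
  · rw [Th, abs_of_neg hy]
    have h1 : 1 ≤ Real.exp (-y / B) := Real.one_le_exp (div_nonneg (by linarith) hB.le)
    have h2 : Real.exp (-(-y / B)) = 1 / Real.exp (-y / B) := by
      rw [Real.exp_neg, one_div]
    rw [h2, one_div_mul_one_div]
    exact one_div_le_one_div_of_le (by linarith) (by linarith)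

theorem Wts_lo2 (hB : 0 < B) (y : ℝ) :
    1 / 4 * Real.exp (-(|y| / B)) ≤ Th B y * (1 - Th B y) := by
  have h0 : 1 - Th B y = Th B (-y) := by linarith [Th_neg hB y]
  rw [h0]
  rcases le_or_gt 0 y with hy | hy
  · have h1 := Wts_half hB hy
    have h2 := Wts_lo hB (-y)
    rw [abs_neg] at h2
    have h3 := mul_le_mul h1 h2 (by positivity) (Th_pos B y).le
    linarith
  · have h1 := Wts_half hB (show 0 ≤ -y by linarith)
    have h2 := Wts_lo hB y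
    have h3 := mul_le_mul h2 h1 (by positivity) (Th_pos B y).le
    linarith

theorem Wts_Elo (h : Slow B ρ) (y : ℝ) : Real.exp (-(|y| / (2 * B))) ≤ Real.exp (2 * ρ * y) := by
  obtain ⟨hB, _, hρ, h4⟩ := Wts_slow h
  rw [Real.exp_le_exp]
  have h1 : 2 * ρ * |y| ≤ |y| / (2 * B) := by
    have h2 : |y| / (2 * B) = 1 / B / 2 * |y| := by ring
    rw [h2]
    exact mul_le_mul_of_nonneg_right (by linarith) (abs_nonneg y)
  have h3 : -(2 * ρ * |y|) ≤ 2 * ρ * y := by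
    have h5 := mul_le_mul_of_nonneg_left (neg_abs_le y) (by positivity : (0 : ℝ) ≤ 2 * ρ)
    linarith
  linarith

theorem Wts_Ehi (h : Slow B ρ) (y : ℝ) : Real.exp (2 * ρ * y) ≤ Real.exp (|y| / 32) := by
  obtain ⟨hB, hB16, hρ, h4⟩ := Wts_slow h
  rw [Real.exp_le_exp]
  have h1 : 1 / B ≤ 1 / 16 := one_div_le_one_div_of_le (by norm_num) hB16
  have h2 : 2 * ρ * y ≤ 2 * ρ * |y| := mul_le_mul_of_nonneg_left (le_abs_self y) (by positivity)
  have h3 : 2 * ρ * |y| ≤ 1 / 32 * |y| := mul_le_mul_of_nonneg_right (by linarith) (abs_nonneg y)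
  linarith

theorem Wts_exp (B y : ℝ) : Real.exp (-(3 * |y| / (2 * B))) =
    Real.exp (-(|y| / B)) * Real.exp (-(|y| / (2 * B))) := by
  rw [← Real.exp_add]
  congr 1
  ring

theorem om1_lo (h : Slow B ρ) (y : ℝ) :
    1 / (4 * B) * Real.exp (-(3 * |y| / (2 * B))) ≤ deriv (om B ρ) y := by
  obtain ⟨hB, _, hρ, _⟩ := Wts_slow h
  rw [Wts_v1 hB, Wts_exp]
  have h1 := mul_le_mul (Wts_lo2 hB y) (Wts_Elo h y) (Real.exp_pos _).le
    (mul_nonneg (Th_pos B y).le (by linarith [Th_lt_one B y]))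
  have h2 := mul_le_mul_of_nonneg_left h1 (by positivity : (0 : ℝ) ≤ 1 / B)
  have h3 : 0 < 2 * ρ * om B ρ y := mul_pos (by linarith) (om_pos B ρ y)
  have h4 : 1 / B * (1 / 4 * Real.exp (-(|y| / B)) * Real.exp (-(|y| / (2 * B)))) =
      1 / (4 * B) * (Real.exp (-(|y| / B)) * Real.exp (-(|y| / (2 * B)))) := by
    field_simp
  rw [h4] at h2
  linarith

theorem om_lo (h : Slow B ρ) (y : ℝ) : 1 / 2 * Real.exp (-(3 * |y| / (2 * B))) ≤ om B ρ y := by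
  obtain ⟨hB, _, hρ, _⟩ := Wts_slow h
  rw [om, Wts_exp]
  have h1 := mul_le_mul (Wts_lo hB y) (Wts_Elo h y) (Real.exp_pos _).le (Th_pos B y).le
  linarith

theorem om_hi (h : Slow B ρ) (y : ℝ) : om B ρ y ≤ Real.exp (|y| / 32) := by
  rw [om]
  have h1 := mul_le_mul (Th_lt_one B y).le (Wts_Ehi h y) (Real.exp_pos _).le zero_le_one
  linarith

theorem om1_hi (h : Slow B ρ) (y : ℝ) : deriv (om B ρ) y ≤ 2 / B * Real.exp (|y| / 32) := by
  obtain ⟨hB, _, hρ, _⟩ := Wts_slow h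
  exact (om1_le h y).trans (mul_le_mul_of_nonneg_left (om_hi h y) (by positivity))

theorem Wts_abs (hB : 0 < B) (y : ℝ) : 2 * |1 / B * y| = 2 * |y| / B := by
  rw [abs_mul, abs_of_pos (by positivity : (0 : ℝ) < 1 / B)]
  ring

theorem Wts_ch (hB : 0 < B) (y : ℝ) : ch B y ≤ 4 * Real.exp (-(2 * |y| / B)) := by
  have h1 := se2_hi (1 / B) y
  rw [Wts_abs hB, ← ch_eq'] at h1
  exact h1

theorem Wts_ch' (hB : 0 < B) (y : ℝ) : Real.exp (-(2 * |y| / B)) ≤ ch B y := by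
  have h1 := se2_lo (1 / B) y
  rw [Wts_abs hB, ← ch_eq'] at h1
  exact h1

theorem Wts_mono (hB : 0 < B) (y : ℝ) :
    Real.exp (-(2 * |y| / B)) ≤ Real.exp (-(3 * |y| / (2 * B))) := by
  rw [Real.exp_le_exp]
  have h1 : 0 ≤ |y| / B := by positivity
  have h2 : 2 * |y| / B = 2 * (|y| / B) := by ring
  have h3 : 3 * |y| / (2 * B) = 3 / 2 * (|y| / B) := by ring
  rw [h2, h3]
  linarith

theorem ch_le_om (h : Slow B ρ) (y : ℝ) : ch B y ≤ 8 * om B ρ y := by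
  obtain ⟨hB, _, hρ, _⟩ := Wts_slow h
  linarith [Wts_ch hB y, om_lo h y, Wts_mono hB y]

theorem Wts_lo' (h : Slow B ρ) (y : ℝ) :
    Real.exp (-(3 * |y| / (2 * B))) ≤ 4 * B * deriv (om B ρ) y := by
  obtain ⟨hB, _, hρ, _⟩ := Wts_slow h
  have h1 := mul_le_mul_of_nonneg_left (om1_lo h y) (by positivity : (0 : ℝ) ≤ 4 * B)
  have h2 : 4 * B * (1 / (4 * B) * Real.exp (-(3 * |y| / (2 * B)))) =
      Real.exp (-(3 * |y| / (2 * B))) := by
    field_simp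
  rwa [h2] at h1

theorem ch_le_om1 (h : Slow B ρ) (y : ℝ) : ch B y ≤ 16 * B * deriv (om B ρ) y := by
  obtain ⟨hB, _, hρ, _⟩ := Wts_slow h
  linarith [Wts_ch hB y, Wts_lo' h y, Wts_mono hB y]

theorem ych_le_om1 (h : Slow B ρ) (y : ℝ) : (1 + |y|) * ch B y ≤ 48 * B ^ 2 * deriv (om B ρ) y := by
  obtain ⟨hB, hB16, hρ, _⟩ := Wts_slow h
  have h0 := abs_nonneg y
  have h1 := mul_le_mul_of_nonneg_left (Wts_ch hB y) (by linarith : (0 : ℝ) ≤ 1 + |y|)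
  have h2 : Real.exp (-(2 * |y| / B)) =
      Real.exp (-(3 * |y| / (2 * B))) * Real.exp (-(|y| / (2 * B))) := by
    rw [← Real.exp_add]
    congr 1
    ring
  have h3 : (1 + |y|) * Real.exp (-(|y| / (2 * B))) ≤ 3 * B := by
    have h4 := Real.add_one_le_exp (|y| / (2 * B))
    have h5 : |y| ≤ 2 * B * Real.exp (|y| / (2 * B)) := by
      have h6 : |y| / (2 * B) ≤ Real.exp (|y| / (2 * B)) := by linarith
      rw [div_le_iff₀ (by positivity)] at h6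
      linarith
    have h7 : Real.exp (-(|y| / (2 * B))) ≤ 1 := by
      rw [Real.exp_le_one_iff]
      have : 0 ≤ |y| / (2 * B) := by positivity
      linarith
    have h8 := mul_le_mul_of_nonneg_right h5 (Real.exp_pos (-(|y| / (2 * B)))).le
    have h9 : 2 * B * Real.exp (|y| / (2 * B)) * Real.exp (-(|y| / (2 * B))) = 2 * B := by
      rw [mul_assoc, ← Real.exp_add, add_neg_cancel, Real.exp_zero, mul_one]
    rw [h9] at h8
    nlinarith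
  have h10 := mul_le_mul_of_nonneg_left h3 (Real.exp_pos (-(3 * |y| / (2 * B)))).le
  have h11 := mul_le_mul_of_nonneg_left (Wts_lo' h y) (by positivity : (0 : ℝ) ≤ 12 * B)
  rw [h2] at h1
  nlinarith

theorem ex_le_om1 (h : Slow B ρ) (y : ℝ) : Real.exp (-(|y| / 2)) ≤ 4 * B * deriv (om B ρ) y := by
  obtain ⟨hB, hB16, hρ, _⟩ := Wts_slow h
  refine le_trans ?_ (Wts_lo' h y)
  rw [Real.exp_le_exp]
  have h1 : 1 / B ≤ 1 / 16 := one_div_le_one_div_of_le (by norm_num) hB16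
  have h2 := mul_le_mul_of_nonneg_right h1 (abs_nonneg y)
  have h3 : 3 * |y| / (2 * B) = 3 / 2 * (1 / B * |y|) := by ring
  rw [h3]
  have := abs_nonneg y
  linarith

theorem ex_le_om (h : Slow B ρ) (y : ℝ) : Real.exp (-(|y| / 2)) ≤ 2 * om B ρ y := by
  obtain ⟨hB, hB16, hρ, _⟩ := Wts_slow h
  have h4 := om_lo h y
  refine le_trans ?_ (by linarith : Real.exp (-(3 * |y| / (2 * B))) ≤ 2 * om B ρ y)
  rw [Real.exp_le_exp]
  have h1 : 1 / B ≤ 1 / 16 := one_div_le_one_div_of_le (by norm_num) hB16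
  have h2 := mul_le_mul_of_nonneg_right h1 (abs_nonneg y)
  have h3 : 3 * |y| / (2 * B) = 3 / 2 * (1 / B * |y|) := by ring
  rw [h3]
  have := abs_nonneg y
  linarith

theorem loc_pos (γ B y : ℝ) : 0 < loc γ B y := by
  rw [loc, ch_eq']
  exact mul_pos (se2_pos _ _) (se2_pos _ _)

theorem loc_le_ch (γ B y : ℝ) : loc γ B y ≤ ch B y := by
  rw [loc, ch_eq']
  have h1 := mul_le_mul_of_nonneg_right (se2_le_one γ y) (se2_pos (1 / B) y).le
  linarith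

theorem loc_le_one (γ B y : ℝ) : loc γ B y ≤ 1 := by
  refine (loc_le_ch γ B y).trans ?_
  rw [ch_eq']
  exact se2_le_one _ _

theorem ex_le_loc {γ : ℝ} (hγ : 0 < γ) (hγ' : γ ≤ 1 / 8) (hB : 16 ≤ B) (y : ℝ) :
    Real.exp (-(|y| / 2)) ≤ loc γ B y := by
  have hB0 : 0 < B := by linarith
  rw [loc]
  have h1 := se2_lo γ y
  have h2 := Wts_ch' hB0 y
  have h3 := mul_le_mul h1 h2 (Real.exp_pos _).le (se2_pos γ y).le
  refine le_trans ?_ h3
  rw [← Real.exp_add, Real.exp_le_exp, abs_mul, abs_of_pos hγ]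
  have h4 : 1 / B ≤ 1 / 16 := one_div_le_one_div_of_le (by norm_num) hB
  have h5 := mul_le_mul_of_nonneg_right h4 (abs_nonneg y)
  have h6 := mul_le_mul_of_nonneg_right hγ' (abs_nonneg y)
  have h7 : 2 * |y| / B = 2 * (1 / B * |y|) := by ring
  rw [h7]
  have := abs_nonneg y
  linarith

theorem Wts_tp (a b c d T : ℝ) :
    HasDerivAt (fun T : ℝ => a * T + b * T ^ 2 + c * T ^ 3 + d * T ^ 4)
      (a + 2 * b * T + 3 * c * T ^ 2 + 4 * d * T ^ 3) T := by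
  have h1 := (Wts_poly a b c T).add ((hasDerivAt_pow 4 T).const_mul d)
  refine h1.congr_deriv ?_
  simp
  ring

theorem Wts_tg (s a b c d y : ℝ) :
    HasDerivAt (fun y => a * Real.tanh (s * y) + b * (Real.tanh (s * y)) ^ 2 +
      c * (Real.tanh (s * y)) ^ 3 + d * (Real.tanh (s * y)) ^ 4)
      ((a + 2 * b * Real.tanh (s * y) + 3 * c * (Real.tanh (s * y)) ^ 2 +
        4 * d * (Real.tanh (s * y)) ^ 3) * (s * (1 - (Real.tanh (s * y)) ^ 2))) y := by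
  have h := Wts_tp a b c d (Real.tanh (s * y))
  have h2 := HasDerivAt.comp y h (tanh_hd s y)
  exact h2

theorem Wts_c1 (s : ℝ) : deriv (se2 s) = fun y => (-(2 * s)) * Real.tanh (s * y) +
    0 * (Real.tanh (s * y)) ^ 2 + (2 * s) * (Real.tanh (s * y)) ^ 3 + 0 * (Real.tanh (s * y)) ^ 4 := by
  funext y
  rw [(se2_hd s y).deriv, se2_eq]
  ring

theorem Wts_c2 (s : ℝ) : deriv (deriv (se2 s)) = fun y => -(2 * s ^ 2) +
    (0 * Real.tanh (s * y) +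
    (8 * s ^ 2) * (Real.tanh (s * y)) ^ 2 + 0 * (Real.tanh (s * y)) ^ 3 +
      (-(6 * s ^ 2)) * (Real.tanh (s * y)) ^ 4) := by
  funext y
  rw [Wts_c1, (Wts_tg s _ _ _ _ y).deriv]
  ring

theorem Wts_c3 (s y : ℝ) : deriv (deriv (deriv (se2 s))) y =
    (16 * s ^ 2 * Real.tanh (s * y) - 24 * s ^ 2 * (Real.tanh (s * y)) ^ 3) *
      (s * (1 - (Real.tanh (s * y)) ^ 2)) := by
  rw [Wts_c2, ((Wts_tg s _ _ _ _ y).const_add (-(2 * s ^ 2))).deriv]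
  ring

theorem Wts_chf (B : ℝ) : ch B = se2 (1 / B) := funext (ch_eq' B)

/-- derivatives of `ch` -/
theorem ch1_le (hB : 1 ≤ B) (y : ℝ) : |deriv (ch B) y| ≤ 2 / B * ch B y := by
  have hB0 : 0 < B := by linarith
  rw [Wts_chf, (se2_hd (1 / B) y).deriv]
  have h1 := tanh_abs_lt (1 / B * y)
  have h2 := se2_pos (1 / B) y
  rw [abs_mul, abs_of_pos h2, abs_mul, abs_mul]
  have h3 : |(-2 : ℝ)| = 2 := by norm_num
  rw [h3, abs_of_pos (by positivity : (0 : ℝ) < 1 / B)]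
  have h4 : 2 * (1 / B) * |Real.tanh (1 / B * y)| ≤ 2 / B := by
    have := mul_le_mul_of_nonneg_left h1.le (by positivity : (0 : ℝ) ≤ 2 * (1 / B))
    calc _ ≤ 2 * (1 / B) * 1 := this
      _ = 2 / B := by ring
  exact mul_le_mul_of_nonneg_right h4 h2.le

theorem ch2_le (hB : 1 ≤ B) (y : ℝ) : |deriv (deriv (ch B)) y| ≤ 8 / B ^ 2 * ch B y := by
  have hB0 : 0 < B := by linarith
  obtain ⟨t, ht⟩ : ∃ t, t = Real.tanh (1 / B * y) := ⟨_, rfl⟩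
  have h1 := tanh_abs_lt (1 / B * y)
  rw [← ht] at h1
  have h2 : t ^ 2 < 1 := by
    rw [← sq_abs]
    nlinarith [abs_nonneg t]
  have h5 := sq_nonneg t
  rw [Wts_chf, Wts_c2, se2_eq]
  simp only []
  rw [← ht]
  have h3 : -(2 * (1 / B) ^ 2) + (0 * t + 8 * (1 / B) ^ 2 * t ^ 2 + 0 * t ^ 3 + -(6 * (1 / B) ^ 2) * t ^ 4) =
      (1 / B) ^ 2 * (1 - t ^ 2) * (6 * t ^ 2 - 2) := by ring
  rw [h3, abs_mul, abs_of_pos (mul_pos (by positivity : (0 : ℝ) < (1 / B) ^ 2) (by linarith))]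
  have h4 : |6 * t ^ 2 - 2| ≤ 8 := by
    rw [abs_le]
    constructor <;> linarith
  have h6 := mul_le_mul_of_nonneg_left h4
    (mul_nonneg (by positivity : (0 : ℝ) ≤ (1 / B) ^ 2) (by linarith : 0 ≤ 1 - t ^ 2))
  refine h6.trans (le_of_eq ?_)
  ring

theorem ch3_le (hB : 1 ≤ B) (y : ℝ) : |deriv (deriv (deriv (ch B))) y| ≤ 40 / B ^ 3 * ch B y := by
  have hB0 : 0 < B := by linarith
  obtain ⟨t, ht⟩ : ∃ t, t = Real.tanh (1 / B * y) := ⟨_, rfl⟩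
  have h1 := tanh_abs_lt (1 / B * y)
  rw [← ht] at h1
  have h2 : t ^ 2 < 1 := by
    rw [← sq_abs]
    nlinarith [abs_nonneg t]
  have h5 := sq_nonneg t
  rw [Wts_chf, Wts_c3, se2_eq, ← ht]
  have h3 : (16 * (1 / B) ^ 2 * t - 24 * (1 / B) ^ 2 * t ^ 3) * (1 / B * (1 - t ^ 2)) =
      (1 / B) ^ 3 * (1 - t ^ 2) * (t * (16 - 24 * t ^ 2)) := by ring
  rw [h3, abs_mul, abs_of_pos (mul_pos (by positivity : (0 : ℝ) < (1 / B) ^ 3) (by linarith)), abs_mul]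
  have h4 : |16 - 24 * t ^ 2| ≤ 40 := by
    rw [abs_le]
    constructor <;> linarith
  have h7 : |t| * |16 - 24 * t ^ 2| ≤ 1 * 40 := mul_le_mul h1.le h4 (abs_nonneg _) zero_le_one
  have h6 := mul_le_mul_of_nonneg_left h7
    (mul_nonneg (by positivity : (0 : ℝ) ≤ (1 / B) ^ 3) (by linarith : 0 ≤ 1 - t ^ 2))
  refine h6.trans (le_of_eq ?_)
  ring

end H98KB

end S_H98_KB_Wts
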