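import Mathlib
import Pool.Agent.H98.BU.G01

/-! Blow-up for `u_t + u^k u_x + u_xxx - u_xx = 0`, part G04: this file joins several modules
to save build time (`Pool/Agent/H98/{KB,KC}`, `H72/{KB,KC}`, `H68/KC`, `H37/{KB,KC}`). -/

section S_H98_KB_Nla

/-!
# Nla : the nonlinear terms `D, R, bF, g, ζ`

`D = f(Q+ε)-f(Q)`, `R = D - Q^kε`, `bF = F(Q+ε)-F(Q)-f(Q)ε`, `F'=f`, `f'=u^k`.
* `D_le`: `|(Q+ε)^{k+1}-Q^{k+1}| ≤ (k+1)|ε|(Q+|ε|)^k`, `(Q+|ε|)^k ≤ 2^k(Q^k+|ε|^k)`.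
* Taylor with `Q ≤ C`, `|ε| ≤ 1`: `|R| ≤ Cε²`; `R' = [f'(Q+ε)-Q^k]ε' + [f'(Q+ε)-f'(Q)-f''(Q)ε]Q'`, so
  `|R'| ≤ C|ε|(|ε|+|ε'|)`; `|bF| ≤ C(Q^k+|ε|^k)ε²`; `|bF-(1/2)Q^kε²| ≤ C|ε|³`.
  (polynomial estimates: e.g. `u^{n}-v^{n}` factorisation, or the mean value theorem.)
* `bF_hd`: `bF' = D ε' + R Q'`.
* classes: `D = ε·(polynomial in Q, ε)`, use `(Q+ε)^{k+1}-Q^{k+1} = ε Σ (Q+ε)^i Q^{k-i}` (`Commute.geom_sum₂`/
  `sub_eq...`/`Finset.sum`), with `Q+ε ∈ Cl 0 0`-bounded; or `Cl_of_deriv`.  For `R`, `bF`: from `D` and products.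
  All in `Cl p q` for `0 ≤ p,q`, (`p,q ≤ 1`).  Hint: it is enough that these functions are in `Cl p q`: each is a
  finite sum of products of `Q`, `ε` with at least one factor `ε`.
* `zeta ∈ Cl p' q'` for `p'<p`, `q'<q`, `p',q' < 1` (because of `Λ`).
-/

open MeasureTheory Filter Topology Set
open scoped ContDiff

namespace H98KB

variable {k : ℕ} {p q : ℝ} {ε e : ℝ → ℝ}

/-- `Σ a^i b^(n-1-i)` -/
noncomputable def Nla_H (n : ℕ) (a b : ℝ → ℝ) (y : ℝ) : ℝ :=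
  ∑ i ∈ Finset.range n, a y ^ i * b y ^ (n - 1 - i)

theorem Nla_sum {ι : Type*} (s : Finset ι) (f : ι → ℝ → ℝ) (h : ∀ i ∈ s, Cl 0 0 (f i)) :
    Cl 0 0 (fun y => ∑ i ∈ s, f i y) := by
  classical
  induction s using Finset.induction_on with
  | empty => simpa using (Cl_zero (p := 0) (q := 0))
  | insert a s ha ih =>
    have h1 := Cl_add (h a (Finset.mem_insert_self a s))
      (ih fun i hi => h i (Finset.mem_insert_of_mem hi))
    simpa only [Finset.sum_insert ha] using h1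

theorem Nla_H_cl (n : ℕ) {a b : ℝ → ℝ} (ha : Cl 0 0 a) (hb : Cl 0 0 b) : Cl 0 0 (Nla_H n a b) :=
  Nla_sum _ (fun i y => a y ^ i * b y ^ (n - 1 - i)) fun _ _ =>
    Cl_mul0 (Cl_pow0 ha _) (Cl_pow0 hb _)

theorem Nla_H_eq (n : ℕ) (a b : ℝ → ℝ) (y : ℝ) :
    (a y - b y) * Nla_H n a b y = a y ^ n - b y ^ n :=
  (Commute.all (a y) (b y)).mul_geom_sum₂ n

theorem Nla_Q (hk : 1 ≤ k) : Cl 0 0 (Qf k) := Cl_mono (Cl_Qf hk) zero_le_one zero_le_one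

theorem Nla_Qe (hk : 1 ≤ k) (hp : 0 ≤ p) (hq : 0 ≤ q) (hε : Cl p q ε) :
    Cl 0 0 (fun y => Qf k y + ε y) := Cl_add (Nla_Q hk) (Cl_mono hε hp hq)

theorem Nla_mulr {f g : ℝ → ℝ} (hf : Cl p q f) (hg : Cl 0 0 g) : Cl p q (fun y => f y * g y) := by
  have h := Cl_mul hf hg
  simpa only [add_zero] using h

theorem Nla_Df (hk : 1 ≤ k) (ε : ℝ → ℝ) (y : ℝ) : Df k ε y =
    ε y * (1 / ((k : ℝ) + 1) * Nla_H (k + 1) (fun y => Qf k y + ε y) (Qf k) y) := by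
  have h := Nla_H_eq (k + 1) (fun y => Qf k y + ε y) (Qf k) y
  simp only [add_sub_cancel_left] at h
  rw [Df, fl, fl]
  have h1 : (Qf k y + ε y) ^ (k + 1) / ((k : ℝ) + 1) - Qf k y ^ (k + 1) / ((k : ℝ) + 1) =
      1 / ((k : ℝ) + 1) * ((Qf k y + ε y) ^ (k + 1) - Qf k y ^ (k + 1)) := by ring
  rw [h1, ← h]
  ring

theorem Cl_Df (hk : 1 ≤ k) (hp : 0 ≤ p) (hq : 0 ≤ q) (hε : Cl p q ε) : Cl p q (Df k ε) := by
  have h : Df k ε = fun y => ε y *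
      (1 / ((k : ℝ) + 1) * Nla_H (k + 1) (fun y => Qf k y + ε y) (Qf k) y) :=
    funext fun y => Nla_Df hk ε y
  rw [h]
  exact Nla_mulr hε (Cl_smul _ (Nla_H_cl _ (Nla_Qe hk hp hq hε) (Nla_Q hk)))

theorem Cl_Rf (hk : 1 ≤ k) (hp : 0 ≤ p) (hq : 0 ≤ q) (hε : Cl p q ε) : Cl p q (Rf k ε) := by
  have h2 : Cl p q (fun y => Qf k y ^ k * ε y) := Cl_mul0 (Cl_pow0 (Nla_Q hk) k) hε
  exact Cl_sub (Cl_Df hk hp hq hε) h2

theorem Nla_bF (hk : 1 ≤ k) (ε : ℝ → ℝ) (y : ℝ) : bF k ε y =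
    (ε y * ε y) * (1 / (((k : ℝ) + 1) * ((k : ℝ) + 2)) *
      ∑ i ∈ Finset.range (k + 2), Nla_H i (fun y => Qf k y + ε y) (Qf k) y *
        Qf k y ^ (k + 1 - i)) := by
  have h := Nla_H_eq (k + 2) (fun y => Qf k y + ε y) (Qf k) y
  simp only [add_sub_cancel_left] at h
  have h2 : ε y * ∑ i ∈ Finset.range (k + 2), Nla_H i (fun y => Qf k y + ε y) (Qf k) y *
        Qf k y ^ (k + 1 - i) =
      Nla_H (k + 2) (fun y => Qf k y + ε y) (Qf k) y - ((k : ℝ) + 2) * Qf k y ^ (k + 1) := by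
    have h3 : ((k : ℝ) + 2) * Qf k y ^ (k + 1) =
        ∑ i ∈ Finset.range (k + 2), Qf k y ^ i * Qf k y ^ (k + 1 - i) := by
      have h4 : ∀ i ∈ Finset.range (k + 2), Qf k y ^ i * Qf k y ^ (k + 1 - i) = Qf k y ^ (k + 1) := by
        intro i hi
        rw [← pow_add]
        congr 1
        have := Finset.mem_range.1 hi
        omega
      rw [Finset.sum_congr rfl h4]
      simp
    rw [h3, Nla_H, Finset.mul_sum, ← Finset.sum_sub_distrib]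
    refine Finset.sum_congr rfl fun i hi => ?_
    have h5 := Nla_H_eq i (fun y => Qf k y + ε y) (Qf k) y
    simp only [add_sub_cancel_left] at h5
    have h6 : k + 2 - 1 - i = k + 1 - i := by omega
    rw [← mul_assoc, h5, h6]
    ring
  have hk1 : (k : ℝ) + 1 ≠ 0 := by positivity
  have hk2 : (k : ℝ) + 2 ≠ 0 := by positivity
  have h7 : (ε y * ε y) * (1 / (((k : ℝ) + 1) * ((k : ℝ) + 2)) *
      ∑ i ∈ Finset.range (k + 2), Nla_H i (fun y => Qf k y + ε y) (Qf k) y *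
        Qf k y ^ (k + 1 - i)) =
      1 / (((k : ℝ) + 1) * ((k : ℝ) + 2)) * (ε y * (ε y * ∑ i ∈ Finset.range (k + 2),
        Nla_H i (fun y => Qf k y + ε y) (Qf k) y * Qf k y ^ (k + 1 - i))) := by ring
  rw [h7, h2, bF, Fl, Fl, fl, mul_sub, h]
  field_simp

theorem Cl_bF (hk : 1 ≤ k) (hp : 0 ≤ p) (hq : 0 ≤ q) (hp1 : p ≤ 1) (hq1 : q ≤ 1) (hε : Cl p q ε) :
    Cl (2 * p) (2 * q) (bF k ε) := by
  have h : bF k ε = fun y => (ε y * ε y) * (1 / (((k : ℝ) + 1) * ((k : ℝ) + 2)) *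
      ∑ i ∈ Finset.range (k + 2), Nla_H i (fun y => Qf k y + ε y) (Qf k) y *
        Qf k y ^ (k + 1 - i)) :=
    funext fun y => Nla_bF hk ε y
  rw [h, two_mul, two_mul]
  refine Nla_mulr (Cl_mul hε hε) (Cl_smul _ (Nla_sum _ (fun i y =>
    Nla_H i (fun y => Qf k y + ε y) (Qf k) y * Qf k y ^ (k + 1 - i)) fun i _ => ?_))
  exact Cl_mul0 (Nla_H_cl i (Nla_Qe hk hp hq hε) (Nla_Q hk)) (Cl_pow0 (Nla_Q hk) _)

theorem Cl_gf (hk : 1 ≤ k) (hp : 0 ≤ p) (hq : 0 ≤ q) (hε : Cl p q ε) : Cl p q (gf k ε) :=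
  Cl_sub (Cl_add (Cl_neg (Cl_der (Cl_der hε))) hε) (Cl_Df hk hp hq hε)

theorem Cl_zeta (hk : 1 ≤ k) (hp : 0 < p) (hq : 0 < q) (hp1 : p ≤ 1) (hq1 : q ≤ 1)
    (hε : Cl p q ε) (he : Cl p q e) (b m l : ℝ) {p' q' : ℝ} (hp' : p' < p) (hq' : q' < q) :
    Cl p' q' (zeta k b m l ε e) := by
  have hg : Cl p' q' (deriv (gf k ε)) :=
    Cl_mono (Cl_der (Cl_gf hk hp.le hq.le hε)) hp'.le hq'.le
  have he' : Cl p' q' (deriv e) := Cl_mono (Cl_der he) hp'.le hq'.le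
  have hLQ : Cl p' q' (Lam k (Qf k)) := by
    have hc : max p' q' < 1 := max_lt (lt_of_lt_of_le hp' hp1) (lt_of_lt_of_le hq' hq1)
    exact Cl_mono (Cl_LamQ hk hc) (le_max_left _ _) (le_max_right _ _)
  have hQ1 : Cl p' q' (deriv (Qf k)) :=
    Cl_mono (Cl_der (Cl_Qf hk)) (by linarith) (by linarith)
  have hQ2 : Cl p' q' (deriv (deriv (Qf k))) :=
    Cl_mono (Cl_der (Cl_der (Cl_Qf hk))) (by linarith) (by linarith)
  have hLe : Cl p' q' (Lam k ε) := by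
    have hc : 0 < min (p - p') (q - q') := lt_min (by linarith) (by linarith)
    refine Cl_mono (Cl_Lam k hε hc) ?_ ?_
    · have := min_le_left (p - p') (q - q')
      linarith
    · have := min_le_right (p - p') (q - q')
      linarith
  have he1 : Cl p' q' (deriv ε) := Cl_mono (Cl_der hε) hp'.le hq'.le
  have he2 : Cl p' q' (deriv (deriv ε)) := Cl_mono (Cl_der (Cl_der hε)) hp'.le hq'.le
  have hN : Cl p' q' (Nf k b m l ε) :=
    Cl_add (Cl_add (Cl_sub (Cl_add (Cl_add (Cl_smul (-b) hLQ) (Cl_smul m hQ1)) (Cl_smul l hQ2))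
      (Cl_smul b hLe)) (Cl_smul m he1)) (Cl_smul l he2)
  exact Cl_sub (Cl_add hg hN) he'

theorem gf_eq (k : ℕ) (ε : ℝ → ℝ) (y : ℝ) : gf k ε y = Lop k ε y - Rf k ε y := by
  rw [gf, Lop, Rf]
  ring

end H98KB

end S_H98_KB_Nla

section S_H98_KB_Nlb

/-!
# Nlb (second half of Nla) : the nonlinear terms `D, R, bF, g, ζ`

`D = f(Q+ε)-f(Q)`, `R = D - Q^kε`, `bF = F(Q+ε)-F(Q)-f(Q)ε`, `F'=f`, `f'=u^k`.
* `D_le`: `|(Q+ε)^{k+1}-Q^{k+1}| ≤ (k+1)|ε|(Q+|ε|)^k`, `(Q+|ε|)^k ≤ 2^k(Q^k+|ε|^k)`.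
* Taylor with `Q ≤ C`, `|ε| ≤ 1`: `|R| ≤ Cε²`; `R' = [f'(Q+ε)-Q^k]ε' + [f'(Q+ε)-f'(Q)-f''(Q)ε]Q'`, so
  `|R'| ≤ C|ε|(|ε|+|ε'|)`; `|bF| ≤ C(Q^k+|ε|^k)ε²`; `|bF-(1/2)Q^kε²| ≤ C|ε|³`.
  (polynomial estimates: e.g. `u^{n}-v^{n}` factorisation, or the mean value theorem.)
* `bF_hd`: `bF' = D ε' + R Q'`.
* classes: `D = ε·(polynomial in Q, ε)`, use `(Q+ε)^{k+1}-Q^{k+1} = ε Σ (Q+ε)^i Q^{k-i}` (`Commute.geom_sum₂`/
  `sub_eq...`/`Finset.sum`), with `Q+ε ∈ Cl 0 0`-bounded; or `Cl_of_deriv`.  For `R`, `bF`: from `D` and products.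
  All in `Cl p q` for `0 ≤ p,q`, (`p,q ≤ 1`).  Hint: it is enough that these functions are in `Cl p q`: each is a
  finite sum of products of `Q`, `ε` with at least one factor `ε`.
* `zeta ∈ Cl p' q'` for `p'<p`, `q'<q`, `p',q' < 1` (because of `Λ`).
-/

open MeasureTheory Filter Topology Set
open scoped ContDiff

namespace H98KB

variable {k : ℕ} {p q : ℝ} {ε e : ℝ → ℝ}

/-- first order remainder -/
theorem Nlb_T1 {a x B : ℝ} (ha : |a| ≤ B) (hx : |a + x| ≤ B) (n : ℕ) :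
    |(a + x) ^ (n + 1) - a ^ (n + 1)| ≤ ((n : ℝ) + 1) * B ^ n * |x| := by
  have hB : 0 ≤ B := (abs_nonneg a).trans ha
  induction n with
  | zero => simp
  | succ n ih =>
    have e1 : (a + x) ^ (n + 1 + 1) - a ^ (n + 1 + 1) =
        (a + x) * ((a + x) ^ (n + 1) - a ^ (n + 1)) + x * a ^ (n + 1) := by ring
    rw [e1]
    refine (abs_add_le _ _).trans ?_
    rw [abs_mul, abs_mul, abs_pow]
    have h1 : |a + x| * |(a + x) ^ (n + 1) - a ^ (n + 1)| ≤ B * (((n : ℝ) + 1) * B ^ n * |x|) :=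
      mul_le_mul hx ih (abs_nonneg _) hB
    have h2 : |x| * |a| ^ (n + 1) ≤ |x| * B ^ (n + 1) :=
      mul_le_mul_of_nonneg_left (pow_le_pow_left₀ (abs_nonneg _) ha _) (abs_nonneg _)
    push_cast
    calc _ ≤ B * (((n : ℝ) + 1) * B ^ n * |x|) + |x| * B ^ (n + 1) := add_le_add h1 h2
      _ = _ := by ring

/-- second order remainder -/
theorem Nlb_T2 {a x B : ℝ} (ha : |a| ≤ B) (hx : |a + x| ≤ B) (n : ℕ) :
    |(a + x) ^ (n + 2) - a ^ (n + 2) - ((n : ℝ) + 2) * a ^ (n + 1) * x| ≤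
      ((n : ℝ) + 2) ^ 2 * B ^ n * x ^ 2 := by
  have hB : 0 ≤ B := (abs_nonneg a).trans ha
  induction n with
  | zero =>
    have e1 : (a + x) ^ (0 + 2) - a ^ (0 + 2) - (((0 : ℕ) : ℝ) + 2) * a ^ (0 + 1) * x = x ^ 2 := by
      push_cast; ring
    rw [e1, abs_of_nonneg (sq_nonneg x)]
    push_cast
    nlinarith [sq_nonneg x]
  | succ n ih =>
    have e1 : (a + x) ^ (n + 1 + 2) - a ^ (n + 1 + 2) - (((n + 1 : ℕ) : ℝ) + 2) * a ^ (n + 1 + 1) * x =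
        (a + x) * ((a + x) ^ (n + 2) - a ^ (n + 2) - ((n : ℝ) + 2) * a ^ (n + 1) * x)
          + ((n : ℝ) + 2) * a ^ (n + 1) * x ^ 2 := by
      push_cast; ring
    rw [e1]
    refine (abs_add_le _ _).trans ?_
    rw [abs_mul (a + x)]
    have h1 := mul_le_mul hx ih (abs_nonneg _) hB
    have h2 : |((n : ℝ) + 2) * a ^ (n + 1) * x ^ 2| ≤ ((n : ℝ) + 2) * B ^ (n + 1) * x ^ 2 := by
      rw [abs_mul, abs_mul, abs_pow, abs_of_nonneg (by positivity : (0 : ℝ) ≤ (n : ℝ) + 2),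
        abs_of_nonneg (sq_nonneg x)]
      gcongr
    have h3 : 0 ≤ B ^ (n + 1) * x ^ 2 := by positivity
    push_cast
    calc _ ≤ B * (((n : ℝ) + 2) ^ 2 * B ^ n * x ^ 2) + ((n : ℝ) + 2) * B ^ (n + 1) * x ^ 2 :=
          add_le_add h1 h2
      _ = (((n : ℝ) + 2) ^ 2 + ((n : ℝ) + 2)) * (B ^ (n + 1) * x ^ 2) := by ring
      _ ≤ ((n : ℝ) + 1 + 2) ^ 2 * (B ^ (n + 1) * x ^ 2) := by
          apply mul_le_mul_of_nonneg_right _ h3
          have : (0 : ℝ) ≤ n := Nat.cast_nonneg n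
          nlinarith
      _ = _ := by ring

/-- third order remainder -/
theorem Nlb_T3 {a x B : ℝ} (ha : |a| ≤ B) (hx : |a + x| ≤ B) (n : ℕ) :
    |(a + x) ^ (n + 3) - a ^ (n + 3) - ((n : ℝ) + 3) * a ^ (n + 2) * x
      - ((n : ℝ) + 3) * ((n : ℝ) + 2) / 2 * a ^ (n + 1) * x ^ 2| ≤
      ((n : ℝ) + 3) ^ 3 * B ^ n * |x| ^ 3 := by
  have hB : 0 ≤ B := (abs_nonneg a).trans ha
  induction n with
  | zero =>
    have e1 : (a + x) ^ (0 + 3) - a ^ (0 + 3) - (((0 : ℕ) : ℝ) + 3) * a ^ (0 + 2) * x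
        - (((0 : ℕ) : ℝ) + 3) * (((0 : ℕ) : ℝ) + 2) / 2 * a ^ (0 + 1) * x ^ 2 = x ^ 3 := by
      push_cast; ring
    rw [e1, abs_pow]
    push_cast
    have : 0 ≤ |x| ^ 3 := by positivity
    nlinarith
  | succ n ih =>
    have e1 : (a + x) ^ (n + 1 + 3) - a ^ (n + 1 + 3) - (((n + 1 : ℕ) : ℝ) + 3) * a ^ (n + 1 + 2) * x
        - (((n + 1 : ℕ) : ℝ) + 3) * (((n + 1 : ℕ) : ℝ) + 2) / 2 * a ^ (n + 1 + 1) * x ^ 2 =
        (a + x) * ((a + x) ^ (n + 3) - a ^ (n + 3) - ((n : ℝ) + 3) * a ^ (n + 2) * x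
          - ((n : ℝ) + 3) * ((n : ℝ) + 2) / 2 * a ^ (n + 1) * x ^ 2)
          + ((n : ℝ) + 3) * ((n : ℝ) + 2) / 2 * a ^ (n + 1) * x ^ 3 := by
      push_cast; ring
    rw [e1]
    refine (abs_add_le _ _).trans ?_
    rw [abs_mul (a + x)]
    have h1 := mul_le_mul hx ih (abs_nonneg _) hB
    have h2 : |((n : ℝ) + 3) * ((n : ℝ) + 2) / 2 * a ^ (n + 1) * x ^ 3| ≤
        ((n : ℝ) + 3) * ((n : ℝ) + 2) / 2 * B ^ (n + 1) * |x| ^ 3 := by
      rw [abs_mul, abs_mul, abs_pow, abs_pow,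
        abs_of_nonneg (by positivity : (0 : ℝ) ≤ ((n : ℝ) + 3) * ((n : ℝ) + 2) / 2)]
      gcongr
    have h3 : 0 ≤ B ^ (n + 1) * |x| ^ 3 := by positivity
    push_cast
    calc _ ≤ B * (((n : ℝ) + 3) ^ 3 * B ^ n * |x| ^ 3)
            + ((n : ℝ) + 3) * ((n : ℝ) + 2) / 2 * B ^ (n + 1) * |x| ^ 3 := add_le_add h1 h2
      _ = (((n : ℝ) + 3) ^ 3 + ((n : ℝ) + 3) * ((n : ℝ) + 2) / 2) * (B ^ (n + 1) * |x| ^ 3) := by ring
      _ ≤ ((n : ℝ) + 1 + 3) ^ 3 * (B ^ (n + 1) * |x| ^ 3) := by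
          apply mul_le_mul_of_nonneg_right _ h3
          have : (0 : ℝ) ≤ n := Nat.cast_nonneg n
          (first | linarith only [mul_nonneg this this] | nlinarith only [mul_nonneg this this])
      _ = _ := by ring

theorem Nlb_two {a b : ℝ} (ha : 0 ≤ a) (hb : 0 ≤ b) (k : ℕ) :
    (a + b) ^ k ≤ 2 ^ k * (a ^ k + b ^ k) := by
  have h1 : a + b ≤ 2 * max a b := by
    have := le_max_left a b
    have := le_max_right a b
    linarith
  calc (a + b) ^ k ≤ (2 * max a b) ^ k := pow_le_pow_left₀ (by positivity) h1 k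
    _ = 2 ^ k * (max a b) ^ k := by rw [mul_pow]
    _ ≤ 2 ^ k * (a ^ k + b ^ k) := by
        apply mul_le_mul_of_nonneg_left _ (by positivity)
        have hak : 0 ≤ a ^ k := by positivity
        have hbk : 0 ≤ b ^ k := by positivity
        rcases le_total a b with h | h
        · rw [max_eq_right h]; linarith
        · rw [max_eq_left h]; linarith

theorem Nlb_bd (k : ℕ) (ε : ℝ → ℝ) (y : ℝ) : |Qf k y| ≤ Qf k y + |ε y| ∧
    |Qf k y + ε y| ≤ Qf k y + |ε y| := by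
  have h := (Qf_pos k y).le
  constructor
  · rw [abs_of_nonneg h]
    linarith [abs_nonneg (ε y)]
  · refine (abs_add_le _ _).trans ?_
    rw [abs_of_nonneg h]

theorem Nlb_max (hk : 1 ≤ k) : ∃ M : ℝ, 1 ≤ M ∧ (∀ y, Qf k y ≤ M) ∧ ∀ (ε : ℝ → ℝ) (y : ℝ),
    |ε y| ≤ 1 → |Qf k y| ≤ M ∧ |Qf k y + ε y| ≤ M := by
  obtain ⟨C, hC, h⟩ := Qf_hi hk
  have hQ : ∀ y, Qf k y ≤ C := fun y => (h y).trans (by
    have : Real.exp (-|y|) ≤ 1 := Real.exp_le_one_iff.mpr (by linarith [abs_nonneg y])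
    nlinarith)
  refine ⟨C + 1, by linarith, fun y => by linarith [hQ y], fun ε y hε => ?_⟩
  obtain ⟨h1, h2⟩ := Nlb_bd k ε y
  have := hQ y
  exact ⟨by linarith, by linarith⟩

theorem D_le (k : ℕ) (ε : ℝ → ℝ) (y : ℝ) :
    |Df k ε y| ≤ 2 ^ k * (Qf k y ^ k + |ε y| ^ k) * |ε y| := by
  obtain ⟨h1, h2⟩ := Nlb_bd k ε y
  have h3 := Nlb_T1 h1 h2 k
  have hk1 : (0 : ℝ) < (k : ℝ) + 1 := by positivity
  have e1 : Df k ε y = ((Qf k y + ε y) ^ (k + 1) - Qf k y ^ (k + 1)) / ((k : ℝ) + 1) := by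
    simp only [Df, fl]
    ring
  rw [e1, abs_div, abs_of_pos hk1, div_le_iff₀ hk1]
  have h4 := Nlb_two (Qf_pos k y).le (abs_nonneg (ε y)) k
  calc _ ≤ ((k : ℝ) + 1) * (Qf k y + |ε y|) ^ k * |ε y| := h3
    _ ≤ ((k : ℝ) + 1) * (2 ^ k * (Qf k y ^ k + |ε y| ^ k)) * |ε y| := by gcongr
    _ = _ := by ring

theorem Nlb_R_eq (j : ℕ) (ε : ℝ → ℝ) (y : ℝ) : Rf (j + 1) ε y =
    ((Qf (j + 1) y + ε y) ^ (j + 2) - Qf (j + 1) y ^ (j + 2)
      - ((j : ℝ) + 2) * Qf (j + 1) y ^ (j + 1) * ε y) / ((j : ℝ) + 2) := by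
  have h : (j : ℝ) + 2 ≠ 0 := by positivity
  have h' : (j : ℝ) + 1 + 1 ≠ 0 := by positivity
  simp only [Rf, Df, fl]
  push_cast
  field_simp
  ring

theorem R_le (k : ℕ) (hk : 2 ≤ k) : ∃ C : ℝ, 0 < C ∧ ∀ (ε : ℝ → ℝ) (y : ℝ), |ε y| ≤ 1 →
    |Rf k ε y| ≤ C * (ε y) ^ 2 := by
  obtain ⟨j, rfl⟩ : ∃ j, k = j + 1 := ⟨k - 1, by omega⟩
  obtain ⟨M, hM, -, hQ⟩ := Nlb_max (k := j + 1) (by omega)
  refine ⟨((j : ℝ) + 2) * M ^ j, by positivity, fun ε y hε => ?_⟩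
  obtain ⟨h1, h2⟩ := hQ ε y hε
  have h3 := Nlb_T2 h1 h2 j
  have hj : (0 : ℝ) < (j : ℝ) + 2 := by positivity
  rw [Nlb_R_eq, abs_div, abs_of_pos hj, div_le_iff₀ hj]
  calc _ ≤ ((j : ℝ) + 2) ^ 2 * M ^ j * (ε y) ^ 2 := h3
    _ = _ := by ring

theorem Nlb_Qhd (hk : 1 ≤ k) (y : ℝ) : HasDerivAt (Qf k) (deriv (Qf k) y) y :=
  (Qf_hd hk y).differentiableAt.hasDerivAt

theorem Nlb_fl_hd (k : ℕ) {u : ℝ → ℝ} {u' y : ℝ} (hu : HasDerivAt u u' y) :
    HasDerivAt (fun z => fl k (u z)) (u y ^ k * u') y := by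
  have hk1 : (k : ℝ) + 1 ≠ 0 := by positivity
  have := (hu.pow (k + 1)).div_const ((k : ℝ) + 1)
  refine this.congr_deriv ?_
  push_cast
  field_simp

theorem Nlb_Fl_hd (k : ℕ) {u : ℝ → ℝ} {u' y : ℝ} (hu : HasDerivAt u u' y) :
    HasDerivAt (fun z => Fl k (u z)) (fl k (u y) * u') y := by
  have hk1 : (k : ℝ) + 1 ≠ 0 := by positivity
  have hk2 : (k : ℝ) + 2 ≠ 0 := by positivity
  have := (hu.pow (k + 2)).div_const (((k : ℝ) + 1) * ((k : ℝ) + 2))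
  refine this.congr_deriv ?_
  push_cast
  rw [fl]
  field_simp

theorem Nlb_Rf_hd (hk : 1 ≤ k) {ε : ℝ → ℝ} {e' : ℝ} {y : ℝ} (hε : HasDerivAt ε e' y) :
    HasDerivAt (Rf k ε) (((Qf k y + ε y) ^ k - Qf k y ^ k) * e'
      + ((Qf k y + ε y) ^ k - Qf k y ^ k - (k : ℝ) * Qf k y ^ (k - 1) * ε y) * deriv (Qf k) y) y := by
  have hQ := Nlb_Qhd hk y
  have h1 := Nlb_fl_hd k (hQ.add hε)
  have h2 := Nlb_fl_hd k hQ
  have h3 := ((hQ.pow k).mul hε)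
  refine (((h1.sub h2).sub h3).congr_deriv ?_)
  simp only [Pi.add_apply, Pi.pow_apply]
  ring

theorem Rd_le (k : ℕ) (hk : 2 ≤ k) : ∃ C : ℝ, 0 < C ∧ ∀ (p q : ℝ) (ε : ℝ → ℝ), Cl p q ε →
    ∀ y : ℝ, |ε y| ≤ 1 →
    |deriv (Rf k ε) y| ≤ C * |ε y| * (|ε y| + |deriv ε y|) := by
  obtain ⟨j, rfl⟩ : ∃ j, k = j + 2 := ⟨k - 2, by omega⟩
  obtain ⟨M, hM, hQM, hQ⟩ := Nlb_max (k := j + 2) (by omega)
  refine ⟨((j : ℝ) + 2) ^ 2 * M ^ (j + 1), by positivity, fun p q ε hcl y hε => ?_⟩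
  obtain ⟨h1, h2⟩ := hQ ε y hε
  have h3 := Nlb_T2 h1 h2 j
  have h4 := Nlb_T1 h1 h2 (j + 1)
  rw [(Nlb_Rf_hd (by omega) (Cl_hd hcl y)).deriv]
  have hj : (0 : ℝ) ≤ (j : ℝ) := Nat.cast_nonneg j
  have hQ' : |deriv (Qf (j + 2)) y| ≤ M := by
    rw [Qf_deriv (by omega)]
    have ht : |th (j + 2) y| ≤ 1 := by
      unfold th
      rw [abs_le]
      exact ⟨(Real.neg_one_lt_tanh _).le, (Real.tanh_lt_one _).le⟩
    show |(-(th (j + 2) y) * Qf (j + 2) y)| ≤ M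
    rw [abs_mul, abs_neg]
    calc _ ≤ 1 * |Qf (j + 2) y| := by gcongr
      _ ≤ M := by rw [one_mul]; exact h1
  have e1 : j + 2 - 1 = j + 1 := by omega
  rw [e1]
  have hMj : M ^ j * M = M ^ (j + 1) := by ring
  refine (abs_add_le _ _).trans ?_
  rw [abs_mul, abs_mul]
  have hA : |(Qf (j + 2) y + ε y) ^ (j + 2) - Qf (j + 2) y ^ (j + 2)| * |deriv ε y| ≤
      (((j : ℝ) + 2) * M ^ (j + 1) * |ε y|) * |deriv ε y| := by
    refine mul_le_mul_of_nonneg_right ?_ (abs_nonneg _)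
    refine h4.trans (le_of_eq ?_)
    push_cast; ring
  have hB : |(Qf (j + 2) y + ε y) ^ (j + 2) - Qf (j + 2) y ^ (j + 2)
      - ((j + 2 : ℕ) : ℝ) * Qf (j + 2) y ^ (j + 1) * ε y| * |deriv (Qf (j + 2)) y| ≤
      (((j : ℝ) + 2) ^ 2 * M ^ j * (ε y) ^ 2) * M := by
    refine mul_le_mul ?_ hQ' (abs_nonneg _) (by positivity)
    push_cast
    exact h3
  have hpos : 0 ≤ M ^ (j + 1) * |ε y| * |deriv ε y| := by positivity
  calc _ ≤ (((j : ℝ) + 2) * M ^ (j + 1) * |ε y|) * |deriv ε y|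
        + (((j : ℝ) + 2) ^ 2 * M ^ j * (ε y) ^ 2) * M := add_le_add hA hB
    _ = ((j : ℝ) + 2) * (M ^ (j + 1) * |ε y| * |deriv ε y|)
        + ((j : ℝ) + 2) ^ 2 * M ^ (j + 1) * |ε y| * |ε y| := by
        rw [← sq_abs (ε y)]; ring
    _ ≤ ((j : ℝ) + 2) ^ 2 * (M ^ (j + 1) * |ε y| * |deriv ε y|)
        + ((j : ℝ) + 2) ^ 2 * M ^ (j + 1) * |ε y| * |ε y| := by
        have : ((j : ℝ) + 2) ≤ ((j : ℝ) + 2) ^ 2 := by (first | linarith only [] | nlinarith only [])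
        gcongr
    _ = _ := by ring

theorem Nlb_bF_eq (k : ℕ) (ε : ℝ → ℝ) (y : ℝ) : bF k ε y =
    ((Qf k y + ε y) ^ (k + 2) - Qf k y ^ (k + 2)
      - ((k : ℝ) + 2) * Qf k y ^ (k + 1) * ε y) / (((k : ℝ) + 1) * ((k : ℝ) + 2)) := by
  have h1 : (k : ℝ) + 1 ≠ 0 := by positivity
  have h2 : (k : ℝ) + 2 ≠ 0 := by positivity
  simp only [bF, Fl, fl]
  field_simp

theorem bF_le (k : ℕ) (hk : 2 ≤ k) : ∃ C : ℝ, 0 < C ∧ ∀ (ε : ℝ → ℝ) (y : ℝ),
    |bF k ε y| ≤ C * (Qf k y ^ k + |ε y| ^ k) * (ε y) ^ 2 := by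
  refine ⟨((k : ℝ) + 2) * 2 ^ k, by positivity, fun ε y => ?_⟩
  obtain ⟨h1, h2⟩ := Nlb_bd k ε y
  have h3 := Nlb_T2 h1 h2 k
  have hk1 : (0 : ℝ) < (k : ℝ) + 1 := by positivity
  have hk2 : (0 : ℝ) < (k : ℝ) + 2 := by positivity
  rw [Nlb_bF_eq, abs_div, abs_of_pos (mul_pos hk1 hk2), div_le_iff₀ (mul_pos hk1 hk2)]
  have h4 := Nlb_two (Qf_pos k y).le (abs_nonneg (ε y)) k
  have h0 : 0 ≤ 2 ^ k * (Qf k y ^ k + |ε y| ^ k) * (ε y) ^ 2 := by
    have := (Qf_pos k y).le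
    positivity
  have hk0 : (0 : ℝ) ≤ k := Nat.cast_nonneg k
  calc _ ≤ ((k : ℝ) + 2) ^ 2 * (Qf k y + |ε y|) ^ k * (ε y) ^ 2 := h3
    _ ≤ ((k : ℝ) + 2) ^ 2 * (2 ^ k * (Qf k y ^ k + |ε y| ^ k)) * (ε y) ^ 2 := by gcongr
    _ = ((k : ℝ) + 2) ^ 2 * (2 ^ k * (Qf k y ^ k + |ε y| ^ k) * (ε y) ^ 2) := by ring
    _ ≤ (((k : ℝ) + 2) ^ 2 * ((k : ℝ) + 1)) * (2 ^ k * (Qf k y ^ k + |ε y| ^ k) * (ε y) ^ 2) := by
        apply mul_le_mul_of_nonneg_right _ h0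
        nlinarith [sq_nonneg ((k : ℝ) + 2)]
    _ = _ := by ring

theorem bF_cub (k : ℕ) (hk : 2 ≤ k) : ∃ C : ℝ, 0 < C ∧ ∀ (ε : ℝ → ℝ) (y : ℝ), |ε y| ≤ 1 →
    |bF k ε y - 1 / 2 * (Qf k y ^ k * (ε y) ^ 2)| ≤ C * |ε y| ^ 3 := by
  obtain ⟨j, rfl⟩ : ∃ j, k = j + 1 := ⟨k - 1, by omega⟩
  obtain ⟨M, hM, -, hQ⟩ := Nlb_max (k := j + 1) (by omega)
  refine ⟨((j : ℝ) + 3) ^ 3 * M ^ j, by positivity, fun ε y hε => ?_⟩
  obtain ⟨h1, h2⟩ := hQ ε y hε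
  have h3 := Nlb_T3 h1 h2 j
  have hj2 : (0 : ℝ) < (j : ℝ) + 2 := by positivity
  have hj3 : (0 : ℝ) < (j : ℝ) + 3 := by positivity
  have e1 : bF (j + 1) ε y - 1 / 2 * (Qf (j + 1) y ^ (j + 1) * (ε y) ^ 2) =
      ((Qf (j + 1) y + ε y) ^ (j + 3) - Qf (j + 1) y ^ (j + 3)
        - ((j : ℝ) + 3) * Qf (j + 1) y ^ (j + 2) * ε y
        - ((j : ℝ) + 3) * ((j : ℝ) + 2) / 2 * Qf (j + 1) y ^ (j + 1) * (ε y) ^ 2)
        / (((j : ℝ) + 2) * ((j : ℝ) + 3)) := by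
    rw [Nlb_bF_eq]
    have e2 : (((j + 1 : ℕ) : ℝ) + 1) = (j : ℝ) + 2 := by push_cast; ring
    have e3 : (((j + 1 : ℕ) : ℝ) + 2) = (j : ℝ) + 3 := by push_cast; ring
    rw [e2, e3]
    field_simp
  rw [e1, abs_div, abs_of_pos (mul_pos hj2 hj3)]
  refine (div_le_self (abs_nonneg _) ?_).trans h3
  have hj : (0 : ℝ) ≤ (j : ℝ) := Nat.cast_nonneg j
  nlinarith

theorem bF_hd (hk : 1 ≤ k) (hε : Cl p q ε) (y : ℝ) :
    HasDerivAt (bF k ε) (Df k ε y * deriv ε y + Rf k ε y * deriv (Qf k) y) y := by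
  have hQ := Nlb_Qhd hk y
  have he := Cl_hd hε y
  have h1 := Nlb_Fl_hd k (hQ.add he)
  have h2 := Nlb_Fl_hd k hQ
  have h3 := (Nlb_fl_hd k hQ).mul he
  refine (((h1.sub h2).sub h3).congr_deriv ?_)
  simp only [Pi.add_apply, Rf, Df]
  ring

/-- Lipschitz versions -/
theorem bF_lip (k : ℕ) (hk : 2 ≤ k) : ∃ C : ℝ, 0 < C ∧ ∀ (ε ε' : ℝ → ℝ) (y : ℝ), |ε y| ≤ 1 →
    |ε' y| ≤ 1 → |bF k ε y - bF k ε' y| ≤ C * |ε y - ε' y| * (|ε y| + |ε' y|) := by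
  obtain ⟨M, hM, -, hQ⟩ := Nlb_max (k := k) (by omega)
  refine ⟨2 * (((k : ℝ) + 2) ^ 2 * M ^ k), by positivity, fun ε ε' y hε hε' => ?_⟩
  obtain ⟨h1, h2⟩ := hQ ε y hε
  obtain ⟨h1', h2'⟩ := hQ ε' y hε'
  have e0 : Qf k y + ε' y + (ε y - ε' y) = Qf k y + ε y := by ring
  have h3 := Nlb_T2 (x := ε y - ε' y) h2' (by rw [e0]; exact h2) k
  rw [e0] at h3
  have h4 := Nlb_T1 h1' h2' k
  have hk1 : (0 : ℝ) < (k : ℝ) + 1 := by positivity
  have hk2 : (0 : ℝ) < (k : ℝ) + 2 := by positivity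
  have hk0 : (0 : ℝ) ≤ (k : ℝ) := Nat.cast_nonneg k
  have e1 : bF k ε y - bF k ε' y =
      (((Qf k y + ε y) ^ (k + 2) - (Qf k y + ε' y) ^ (k + 2)
          - ((k : ℝ) + 2) * (Qf k y + ε' y) ^ (k + 1) * (ε y - ε' y))
        + ((k : ℝ) + 2) * ((Qf k y + ε' y) ^ (k + 1) - Qf k y ^ (k + 1)) * (ε y - ε' y))
        / (((k : ℝ) + 1) * ((k : ℝ) + 2)) := by
    rw [Nlb_bF_eq, Nlb_bF_eq]
    field_simp
    ring
  rw [e1, abs_div, abs_of_pos (mul_pos hk1 hk2)]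
  refine (div_le_self (abs_nonneg _) (by nlinarith)).trans ?_
  refine (abs_add_le _ _).trans ?_
  have hA : ((k : ℝ) + 2) ^ 2 * M ^ k * (ε y - ε' y) ^ 2 ≤
      ((k : ℝ) + 2) ^ 2 * M ^ k * (|ε y - ε' y| * (|ε y| + |ε' y|)) := by
    apply mul_le_mul_of_nonneg_left _ (by positivity)
    rw [← sq_abs, sq]
    exact mul_le_mul_of_nonneg_left (abs_sub (ε y) (ε' y)) (abs_nonneg _)
  have hB : |((k : ℝ) + 2) * ((Qf k y + ε' y) ^ (k + 1) - Qf k y ^ (k + 1)) * (ε y - ε' y)| ≤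
      ((k : ℝ) + 2) ^ 2 * M ^ k * (|ε y - ε' y| * (|ε y| + |ε' y|)) := by
    rw [abs_mul, abs_mul, abs_of_pos hk2]
    calc _ ≤ ((k : ℝ) + 2) * (((k : ℝ) + 1) * M ^ k * |ε' y|) * |ε y - ε' y| := by gcongr
      _ ≤ ((k : ℝ) + 2) * (((k : ℝ) + 2) * M ^ k * (|ε y| + |ε' y|)) * |ε y - ε' y| := by
          have : 0 ≤ |ε y| := abs_nonneg _
          gcongr <;> linarith
      _ = _ := by ring
  calc _ ≤ _ := add_le_add (h3.trans hA) hB
    _ = _ := by ring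

end H98KB

end S_H98_KB_Nlb

section S_H98_KB_Sma

/-!
# Sma : the smoothing operator `Sm δ = (1-δ∂²)^{-1}` on the class `Cl`

`s = √δ ≤ 1/4`, `K(z) = e^{-|z|/s}/(2s)`, `∫K=1`, `Sm δ f y = ∫ K(z) f(y-z) dz`.
`bd p q (y-z) ≤ bd p q y · e^{2|z|}` if `|p|,|q| ≤ 2`, and `K(z)e^{2|z|}` is integrable (`1/s ≥ 4`), so
differentiation under the integral sign is allowed: `(Sm f)' = Sm f'`, `Sm f ∈ Cl p q`.
`Sm_eq`: integrate by parts on each half line: `∫ K(z) f''(y-z) dz = (1/δ)(Sm f y - f y)`: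
on `z>0` : `∫_0^∞ K f''(y-z) = K(0)f'(y) - (1/s)K(0) f(y) + (1/s²)∫_0^∞ K f(y-z)`, on `z<0` similarly with
`-K(0)f'(y) - (1/s)K(0)f(y) + (1/s²)∫_{-∞}^0 K f(y-z)`, and `2K(0)/s = 1/δ`.
`Sm_symm`: Fubini, or from `Sm_eq` : `f = a - δa''`, `g = b - δ b''` (`a=Sm f`, `b = Sm g`),
`∫ a g = ∫ a b - δ∫ a b'' = ∫ a b - δ ∫ a'' b = ∫ f b` (needs `0<p+p'`, `0<q+q'` only, by `Cl_ibp` twice).
`Sm_wt`: with `v = Sm f`: multiply `v - δv'' = f` by `W v`: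
`∫Wv² + δ∫Wv'² - (δ/2)∫W''v² = ∫ W f v ≤ (1/2)∫Wf² + (1/2)∫Wv²`, and `δ|W''| ≤ W/4`.
-/

open MeasureTheory Filter Topology Set
open scoped ContDiff

namespace H98KB

variable {δ p q p' q' : ℝ} {f g : ℝ → ℝ}

/-- the kernel -/
private noncomputable def Sma_K (δ z : ℝ) : ℝ := Real.exp (-|z| / √δ) / (2 * √δ)

private theorem Sma_def (δ : ℝ) (f : ℝ → ℝ) (y : ℝ) :
    Sm δ f y = ∫ z, Sma_K δ z * f (y - z) := rfl

private theorem Sma_Kcont (δ : ℝ) : Continuous (Sma_K δ) := by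
  unfold Sma_K
  fun_prop

private theorem Sma_Knn (δ z : ℝ) : 0 ≤ Sma_K δ z := by
  unfold Sma_K
  positivity

private theorem Sma_sq (hδ : 0 < δ) : √δ * √δ = δ := Real.mul_self_sqrt hδ.le

private theorem Sma_s (hδ' : δ ≤ 1 / 16) : √δ ≤ 1 / 4 := by
  rw [Real.sqrt_le_left (by norm_num)]
  norm_num
  linarith

private theorem Sma_bd (hp : |p| ≤ 2) (hq : |q| ≤ 2) (y z : ℝ) :
    bd p q (y - z) ≤ bd p q y * Real.exp (2 * |z|) := by
  unfold bd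
  rw [← Real.exp_add, Real.exp_le_exp]
  set a := max y 0 - max (y - z) 0 with ha
  set b := max (-y) 0 - max (-(y - z)) 0 with hb
  have h1 : |a| + |b| ≤ |z| := by
    rcases le_total y 0 with h | h <;> rcases le_total (y - z) 0 with h' | h' <;>
    rcases le_total z 0 with h'' | h'' <;>
    simp only [ha, hb, max_eq_left, max_eq_right, h, h', neg_nonneg, Left.neg_nonpos_iff,
      abs_of_nonneg, abs_of_nonpos, h''] <;>
    first
    | (rw [abs_of_nonneg (by linarith), abs_of_nonneg (by linarith)]; linarith)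
    | (rw [abs_of_nonneg (by linarith), abs_of_nonpos (by linarith)]; linarith)
    | (rw [abs_of_nonpos (by linarith), abs_of_nonneg (by linarith)]; linarith)
  have h2 : p * a ≤ 2 * |a| := by
    calc p * a ≤ |p * a| := le_abs_self _
      _ = |p| * |a| := abs_mul _ _
      _ ≤ 2 * |a| := by gcongr
  have h3 : q * b ≤ 2 * |b| := by
    calc q * b ≤ |q * b| := le_abs_self _
      _ = |q| * |b| := abs_mul _ _
      _ ≤ 2 * |b| := by gcongr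
  have h4 : -(p * max (y - z) 0) - q * max (-(y - z)) 0 =
      -(p * max y 0) - q * max (-y) 0 + (p * a + q * b) := by
    simp only [ha, hb]; ring
  linarith

private theorem Sma_K4 (hδ : 0 < δ) (hδ' : δ ≤ 1 / 16) (z : ℝ) :
    Sma_K δ z ≤ Real.exp (-(4 * |z|)) / (2 * √δ) := by
  have hs := Sma_s hδ'
  have hs0 : 0 < √δ := Real.sqrt_pos.2 hδ
  unfold Sma_K
  apply div_le_div_of_nonneg_right _ (by positivity)
  rw [Real.exp_le_exp, neg_div, neg_le_neg_iff, le_div_iff₀ hs0]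
  nlinarith [abs_nonneg z]

private theorem Sma_dom (hδ : 0 < δ) (hδ' : δ ≤ 1 / 16) (hp : |p| ≤ 2) (hq : |q| ≤ 2) {C : ℝ}
    (hC : 0 ≤ C) (hf : ∀ y, |f y| ≤ C * bd p q y) (y z : ℝ) :
    |Sma_K δ z * f (y - z)| ≤ C * bd p q y / (2 * √δ) * bd 2 2 z := by
  have hs0 : 0 < √δ := Real.sqrt_pos.2 hδ
  rw [abs_mul, abs_of_nonneg (Sma_Knn δ z)]
  have h1 : |f (y - z)| ≤ C * (bd p q y * Real.exp (2 * |z|)) :=
    (hf _).trans (mul_le_mul_of_nonneg_left (Sma_bd hp hq y z) hC)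
  calc Sma_K δ z * |f (y - z)| ≤ (Real.exp (-(4 * |z|)) / (2 * √δ)) *
        (C * (bd p q y * Real.exp (2 * |z|))) :=
        mul_le_mul (Sma_K4 hδ hδ' z) h1 (abs_nonneg _) (by positivity)
    _ = C * bd p q y / (2 * √δ) * (Real.exp (-(4 * |z|)) * Real.exp (2 * |z|)) := by ring
    _ = C * bd p q y / (2 * √δ) * bd 2 2 z := by
        rw [bd_abs, ← Real.exp_add]; ring_nf

private theorem Sma_intg (hδ : 0 < δ) (hδ' : δ ≤ 1 / 16) (hp : |p| ≤ 2) (hq : |q| ≤ 2)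
    (hf : Cl p q f) (y : ℝ) : Integrable (fun z => Sma_K δ z * f (y - z)) := by
  obtain ⟨C, hC, hb⟩ := Cl_bnd hf
  have hc := Cl_cont hf
  refine int_of_bd (p := 2) (q := 2) ?_ (by norm_num) (by norm_num)
    ⟨C * bd p q y / (2 * √δ), fun z => Sma_dom hδ hδ' hp hq hC hb y z⟩
  have := Sma_Kcont δ
  fun_prop

private theorem Sma_bound (hδ : 0 < δ) (hδ' : δ ≤ 1 / 16) (hp : |p| ≤ 2) (hq : |q| ≤ 2)
    (hf : Cl p q f) : ∃ C : ℝ, ∀ y, |Sm δ f y| ≤ C * bd p q y := by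
  obtain ⟨C, hC, hb⟩ := Cl_bnd hf
  refine ⟨C / (2 * √δ) * ∫ z, bd 2 2 z, fun y => ?_⟩
  rw [Sma_def]
  have h2 : Integrable (bd 2 2) := bd_int (by norm_num) (by norm_num)
  calc |∫ z, Sma_K δ z * f (y - z)| ≤ ∫ z, |Sma_K δ z * f (y - z)| :=
        abs_integral_le_integral_abs
    _ ≤ ∫ z, C * bd p q y / (2 * √δ) * bd 2 2 z :=
        integral_mono (Sma_intg hδ hδ' hp hq hf y).abs (h2.const_mul _)
          (fun z => Sma_dom hδ hδ' hp hq hC hb y z)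
    _ = C / (2 * √δ) * (∫ z, bd 2 2 z) * bd p q y := by
        rw [integral_const_mul]; ring

private theorem Sma_hd (hδ : 0 < δ) (hδ' : δ ≤ 1 / 16) (hp : |p| ≤ 2) (hq : |q| ≤ 2)
    (hf : Cl p q f) (y : ℝ) : HasDerivAt (Sm δ f) (Sm δ (deriv f) y) y := by
  have hf' := Cl_der hf
  obtain ⟨C, hC, hb⟩ := Cl_bnd hf'
  have hc := Cl_cont hf
  have hc' := Cl_cont hf'
  have hK := Sma_Kcont δ
  have h2 : Integrable (bd 2 2) := bd_int (by norm_num) (by norm_num)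
  have key := hasDerivAt_integral_of_dominated_loc_of_deriv_le (μ := volume)
    (F := fun (x z : ℝ) => Sma_K δ z * f (x - z))
    (F' := fun (x z : ℝ) => Sma_K δ z * deriv f (x - z)) (x₀ := y) (s := Metric.ball y 1)
    (bound := fun z => C * (bd p q y * Real.exp 2) / (2 * √δ) * bd 2 2 z)
    (Metric.ball_mem_nhds y one_pos)
    (Filter.Eventually.of_forall fun x => (by fun_prop : Continuous _).aestronglyMeasurable)
    (Sma_intg hδ hδ' hp hq hf y)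
    ((by fun_prop : Continuous _).aestronglyMeasurable)
    (Filter.Eventually.of_forall fun z x hx => by
      rw [Real.norm_eq_abs]
      refine (Sma_dom hδ hδ' hp hq hC hb x z).trans ?_
      have h3 : bd p q x ≤ bd p q y * Real.exp 2 := by
        have h4 := Sma_bd hp hq y (y - x)
        rw [sub_sub_cancel] at h4
        refine h4.trans (mul_le_mul_of_nonneg_left ?_ (bd_pos _ _ _).le)
        rw [Real.exp_le_exp]
        rw [Metric.mem_ball, Real.dist_eq, abs_sub_comm] at hx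
        linarith
      have h5 := (bd_pos 2 2 z).le
      gcongr)
    (h2.const_mul _)
    (Filter.Eventually.of_forall fun z x hx => by
      have h6 : HasDerivAt (fun x => f (x - z)) (deriv f (x - z)) x := by
        have := (Cl_hd hf (x - z)).comp x ((hasDerivAt_id x).sub_const z)
        exact this.congr_deriv (mul_one _)
      exact h6.const_mul _)
  exact key.2

private theorem Sma_dv (hδ : 0 < δ) (hδ' : δ ≤ 1 / 16) (hp : |p| ≤ 2) (hq : |q| ≤ 2)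
    (hf : Cl p q f) : deriv (Sm δ f) = Sm δ (deriv f) :=
  funext fun y => (Sma_hd hδ hδ' hp hq hf y).deriv

private theorem Sma_it (hδ : 0 < δ) (hδ' : δ ≤ 1 / 16) (hp : |p| ≤ 2) (hq : |q| ≤ 2) (j : ℕ) :
    ∀ f : ℝ → ℝ, Cl p q f → iteratedDeriv j (Sm δ f) = Sm δ (iteratedDeriv j f) := by
  induction j with
  | zero => intro f hf; simp
  | succ j ih =>
    intro f hf
    rw [iteratedDeriv_succ', iteratedDeriv_succ', Sma_dv hδ hδ' hp hq hf, ih _ (Cl_der hf)]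

private theorem Sma_Clit (j : ℕ) : ∀ f : ℝ → ℝ, Cl p q f → Cl p q (iteratedDeriv j f) := by
  induction j with
  | zero => intro f hf; simpa using hf
  | succ j ih =>
    intro f hf
    rw [iteratedDeriv_succ']
    exact ih _ (Cl_der hf)

theorem Cl_Sm (hδ : 0 < δ) (hδ' : δ ≤ 1 / 16) (hp : |p| ≤ 2) (hq : |q| ≤ 2) (hf : Cl p q f) :
    Cl p q (Sm δ f) := by
  refine ⟨?_, fun j => ?_⟩
  · refine contDiff_of_differentiable_iteratedDeriv (fun m _ => ?_)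
    rw [Sma_it hδ hδ' hp hq m f hf]
    exact fun y => (Sma_hd hδ hδ' hp hq (Sma_Clit m f hf) y).differentiableAt
  · rw [Sma_it hδ hδ' hp hq j f hf]
    exact Sma_bound hδ hδ' hp hq (Sma_Clit j f hf)

theorem Sm_deriv (hδ : 0 < δ) (hδ' : δ ≤ 1 / 16) (hp : |p| ≤ 2) (hq : |q| ≤ 2) (hf : Cl p q f) :
    deriv (Sm δ f) = Sm δ (deriv f) := Sma_dv hδ hδ' hp hq hf

private theorem Sma_lim (hδ : 0 < δ) (hδ' : δ ≤ 1 / 16) (hp : |p| ≤ 2) (hq : |q| ≤ 2)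
    (hf : Cl p q f) (y : ℝ) :
    Tendsto (fun z => Sma_K δ z * f (y - z)) atTop (𝓝 0) ∧
    Tendsto (fun z => Sma_K δ z * f (y - z)) atBot (𝓝 0) := by
  obtain ⟨C, hC, hb⟩ := Cl_bnd hf
  have h2 : Cl 2 2 (fun z : ℝ => (0:ℝ)) := Cl_zero
  have hT : Tendsto (fun z : ℝ => C * bd p q y / (2 * √δ) * bd 2 2 z) atTop (𝓝 0) := by
    have : Tendsto (fun z : ℝ => bd 2 2 z) atTop (𝓝 0) := by
      have h : Tendsto (fun z : ℝ => Real.exp (-(2 * z))) atTop (𝓝 0) := by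
        apply Real.tendsto_exp_neg_atTop_nhds_zero.comp
        exact tendsto_id.const_mul_atTop (by norm_num)
      refine h.congr' ?_
      filter_upwards [eventually_ge_atTop 0] with z hz
      rw [bd_of_nonneg hz]
    simpa using this.const_mul (C * bd p q y / (2 * √δ))
  have hB : Tendsto (fun z : ℝ => C * bd p q y / (2 * √δ) * bd 2 2 z) atBot (𝓝 0) := by
    have : Tendsto (fun z : ℝ => bd 2 2 z) atBot (𝓝 0) := by
      have h : Tendsto (fun z : ℝ => Real.exp (2 * z)) atBot (𝓝 0) := by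
        apply Real.tendsto_exp_atBot.comp
        exact tendsto_id.const_mul_atBot (by norm_num)
      refine h.congr' ?_
      filter_upwards [eventually_le_atBot 0] with z hz
      rw [bd_of_nonpos hz]
    simpa using this.const_mul (C * bd p q y / (2 * √δ))
  exact ⟨squeeze_zero_norm (fun z => Sma_dom hδ hδ' hp hq hC hb y z) hT,
    squeeze_zero_norm (fun z => Sma_dom hδ hδ' hp hq hC hb y z) hB⟩

private theorem Sma_half (hδ : 0 < δ) (hδ' : δ ≤ 1 / 16) (hp : |p| ≤ 2) (hq : |q| ≤ 2)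
    (hf : Cl p q f) (y : ℝ) :
    ∫ z, Sma_K δ z * (deriv (deriv f) (y - z) - 1 / δ * f (y - z)) = -(f y / δ) := by
  have hs0 : 0 < √δ := Real.sqrt_pos.2 hδ
  have hss := Sma_sq hδ
  have hf1 := Cl_der hf
  have hf2 := Cl_der hf1
  have hI : Integrable (fun z => Sma_K δ z * (deriv (deriv f) (y - z) - 1 / δ * f (y - z))) := by
    have h := (Sma_intg hδ hδ' hp hq hf2 y).sub
      ((Sma_intg hδ hδ' hp hq hf y).const_mul (1 / δ))
    refine h.congr (Filter.Eventually.of_forall fun z => ?_)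
    simp only [Pi.sub_apply]
    ring
  have hdf : ∀ z, HasDerivAt (fun z => f (y - z)) (-deriv f (y - z)) z := by
    intro z
    have := (Cl_hd hf (y - z)).comp z ((hasDerivAt_id z).const_sub y)
    exact this.congr_deriv (by ring)
  have hdf1 : ∀ z, HasDerivAt (fun z => deriv f (y - z)) (-deriv (deriv f) (y - z)) z := by
    intro z
    have := (Cl_hd hf1 (y - z)).comp z ((hasDerivAt_id z).const_sub y)
    exact this.congr_deriv (by ring)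
  obtain ⟨l1, l1'⟩ := Sma_lim hδ hδ' hp hq hf y
  obtain ⟨l2, l2'⟩ := Sma_lim hδ hδ' hp hq hf1 y
  -- right half
  have hR : ∫ z in Ioi (0:ℝ), Sma_K δ z * (deriv (deriv f) (y - z) - 1 / δ * f (y - z)) =
      0 - (-(1 / (2 * √δ)) * deriv f y + 1 / √δ * (1 / (2 * √δ) * f y)) := by
    have hcR : ContinuousWithinAt (fun z => -(Sma_K δ z * deriv f (y - z)) +
        1 / √δ * (Sma_K δ z * f (y - z))) (Ici 0) 0 := by
      have hc := Cl_cont hf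
      have hc' := Cl_cont hf1
      have hK := Sma_Kcont δ
      exact (by fun_prop : Continuous _).continuousWithinAt
    have hv : -(Sma_K δ 0 * deriv f (y - 0)) + 1 / √δ * (Sma_K δ 0 * f (y - 0)) =
        (-(1 / (2 * √δ)) * deriv f y + 1 / √δ * (1 / (2 * √δ) * f y)) := by
      simp [Sma_K]
    rw [← hv]
    refine integral_Ioi_of_hasDerivAt_of_tendsto hcR (fun z hz => ?_) hI.integrableOn ?_
    · have hz0 : (0:ℝ) < z := hz
      have hK' : HasDerivAt (Sma_K δ) (-(1 / √δ) * Sma_K δ z) z := by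
        have h1 : HasDerivAt (fun z : ℝ => Real.exp (-z / √δ) / (2 * √δ))
            (Real.exp (-z / √δ) * (-1 / √δ) / (2 * √δ)) z :=
          ((((hasDerivAt_id z).neg).div_const (√δ)).exp).div_const _
        have h2 : Sma_K δ =ᶠ[𝓝 z] fun z : ℝ => Real.exp (-z / √δ) / (2 * √δ) := by
          filter_upwards [lt_mem_nhds hz0] with w hw
          simp only [Sma_K, abs_of_pos hw]
        refine (h1.congr_of_eventuallyEq h2).congr_deriv ?_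
        rw [h2.eq_of_nhds]
        ring
      have h3 := ((hK'.mul (hdf1 z)).neg).add ((hK'.mul (hdf z)).const_mul (1 / √δ))
      refine h3.congr_deriv ?_
      have e1 : 1 / √δ * (1 / √δ) = 1 / δ := by
        rw [div_mul_div_comm, hss, one_mul]
      linear_combination (-(Sma_K δ z * f (y - z))) * e1
    · have := (l2.neg).add (l1.const_mul (1 / √δ))
      simpa using this
  -- left half
  have hL : ∫ z in Iic (0:ℝ), Sma_K δ z * (deriv (deriv f) (y - z) - 1 / δ * f (y - z)) =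
      (-(1 / (2 * √δ)) * deriv f y - 1 / √δ * (1 / (2 * √δ) * f y)) - 0 := by
    have hcL : ContinuousWithinAt (fun z => -(Sma_K δ z * deriv f (y - z)) -
        1 / √δ * (Sma_K δ z * f (y - z))) (Iic 0) 0 := by
      have hc := Cl_cont hf
      have hc' := Cl_cont hf1
      have hK := Sma_Kcont δ
      exact (by fun_prop : Continuous _).continuousWithinAt
    have hv : -(Sma_K δ 0 * deriv f (y - 0)) - 1 / √δ * (Sma_K δ 0 * f (y - 0)) =
        (-(1 / (2 * √δ)) * deriv f y - 1 / √δ * (1 / (2 * √δ) * f y)) := by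
      simp [Sma_K]
    rw [← hv]
    refine integral_Iic_of_hasDerivAt_of_tendsto hcL (fun z hz => ?_) hI.integrableOn ?_
    · have hz0 : z < (0:ℝ) := hz
      have hK' : HasDerivAt (Sma_K δ) (1 / √δ * Sma_K δ z) z := by
        have h1 : HasDerivAt (fun z : ℝ => Real.exp (-(-z) / √δ) / (2 * √δ))
            (Real.exp (-(-z) / √δ) * (-(-1) / √δ) / (2 * √δ)) z :=
          ((((hasDerivAt_id z).neg).neg.div_const (√δ)).exp).div_const _
        have h2 : Sma_K δ =ᶠ[𝓝 z] fun z : ℝ => Real.exp (-(-z) / √δ) / (2 * √δ) := by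
          filter_upwards [gt_mem_nhds hz0] with w hw
          simp only [Sma_K, abs_of_neg hw]
        refine (h1.congr_of_eventuallyEq h2).congr_deriv ?_
        rw [h2.eq_of_nhds]
        ring
      have h3 := ((hK'.mul (hdf1 z)).neg).sub ((hK'.mul (hdf z)).const_mul (1 / √δ))
      refine h3.congr_deriv ?_
      have e1 : 1 / √δ * (1 / √δ) = 1 / δ := by
        rw [div_mul_div_comm, hss, one_mul]
      linear_combination (-(Sma_K δ z * f (y - z))) * e1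
    · have := (l2'.neg).sub (l1'.const_mul (1 / √δ))
      simpa using this
  rw [← intervalIntegral.integral_Iic_add_Ioi hI.integrableOn hI.integrableOn, hL, hR]
  have e1 : 1 / √δ * (1 / √δ) = 1 / δ := by
    rw [div_mul_div_comm, hss, one_mul]
  have e2 : 1 / (2 * √δ) = 1 / 2 * (1 / √δ) := by rw [div_mul_div_comm, one_mul]
  rw [e2]
  linear_combination (-(f y)) * e1

theorem Sm_eq (hδ : 0 < δ) (hδ' : δ ≤ 1 / 16) (hp : |p| ≤ 2) (hq : |q| ≤ 2) (hf : Cl p q f) (y : ℝ) :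
    Sm δ f y - δ * deriv (deriv (Sm δ f)) y = f y := by
  have hf1 := Cl_der hf
  have hf2 := Cl_der hf1
  rw [Sma_dv hδ hδ' hp hq hf, Sma_dv hδ hδ' hp hq hf1, Sma_def, Sma_def]
  have h := Sma_half hδ hδ' hp hq hf y
  have h1 : ∫ z, Sma_K δ z * (deriv (deriv f) (y - z) - 1 / δ * f (y - z)) =
      (∫ z, Sma_K δ z * deriv (deriv f) (y - z)) - 1 / δ * ∫ z, Sma_K δ z * f (y - z) := by
    rw [← integral_const_mul, ← integral_sub (Sma_intg hδ hδ' hp hq hf2 y)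
      ((Sma_intg hδ hδ' hp hq hf y).const_mul _)]
    congr 1
    funext z
    ring
  rw [h1] at h
  have hd : δ ≠ 0 := hδ.ne'
  field_simp at h
  linarith

theorem Sm_add (hδ : 0 < δ) (hδ' : δ ≤ 1 / 16) (hp : |p| ≤ 2) (hq : |q| ≤ 2) (hp' : |p'| ≤ 2)
    (hq' : |q'| ≤ 2) (hf : Cl p q f) (hg : Cl p' q' g) (y : ℝ) :
    Sm δ (fun y => f y + g y) y = Sm δ f y + Sm δ g y := by
  rw [Sma_def, Sma_def, Sma_def, ← integral_add (Sma_intg hδ hδ' hp hq hf y)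
    (Sma_intg hδ hδ' hp' hq' hg y)]
  congr 1
  funext z
  ring

theorem Sm_smul (c : ℝ) (y : ℝ) : Sm δ (fun y => c * f y) y = c * Sm δ f y := by
  rw [Sma_def, Sma_def, ← integral_const_mul]
  congr 1
  funext z
  ring

theorem Sm_zero (y : ℝ) : Sm δ (fun _ => 0) y = 0 := by
  rw [Sma_def]
  simp

/-- parity -/
theorem Sm_refl (f : ℝ → ℝ) (y : ℝ) : Sm δ (fun y => f (-y)) y = Sm δ f (-y) := by
  rw [Sma_def, Sma_def, ← integral_neg_eq_self]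
  congr 1
  funext z
  have : Sma_K δ (-z) = Sma_K δ z := by simp [Sma_K]
  rw [this]
  congr 2
  ring

theorem Sm_symm (hδ : 0 < δ) (hδ' : δ ≤ 1 / 16) (hp : |p| ≤ 2) (hq : |q| ≤ 2) (hp' : |p'| ≤ 2)
    (hq' : |q'| ≤ 2) (hf : Cl p q f) (hg : Cl p' q' g) (h1 : 0 < p + p') (h2 : 0 < q + q') :
    ip (Sm δ f) g = ip f (Sm δ g) := by
  have ha := Cl_Sm hδ hδ' hp hq hf
  have hb := Cl_Sm hδ hδ' hp' hq' hg
  have ha1 := Cl_der ha
  have hb1 := Cl_der hb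
  have ha2 := Cl_der ha1
  have hb2 := Cl_der hb1
  unfold ip
  have e1 : ∫ y, Sm δ f y * g y = (∫ y, Sm δ f y * Sm δ g y) -
      δ * ∫ y, Sm δ f y * deriv (deriv (Sm δ g)) y := by
    rw [← integral_const_mul, ← integral_sub (Cl_int (Cl_mul ha hb) h1 h2)
      ((Cl_int (Cl_mul ha hb2) h1 h2).const_mul _)]
    congr 1
    funext y
    rw [← Sm_eq hδ hδ' hp' hq' hg y]
    ring
  have e2 : ∫ y, f y * Sm δ g y = (∫ y, Sm δ f y * Sm δ g y) -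
      δ * ∫ y, deriv (deriv (Sm δ f)) y * Sm δ g y := by
    rw [← integral_const_mul, ← integral_sub (Cl_int (Cl_mul ha hb) h1 h2)
      ((Cl_int (Cl_mul ha2 hb) h1 h2).const_mul _)]
    congr 1
    funext y
    rw [← Sm_eq hδ hδ' hp hq hf y]
    ring
  rw [e1, e2, Cl_ibp ha1 hb h1 h2]
  have e3 := Cl_ibp ha hb1 h1 h2
  rw [e3]
  ring

theorem Sm_wt {W : ℝ → ℝ} {pw qw : ℝ} (hδ : 0 < δ) (hδ' : δ ≤ 1 / 16) (hp : |p| ≤ 2) (hq : |q| ≤ 2)
    (hf : Cl p q f) (hW : Cl pw qw W) (hWp : ∀ y, 0 < W y)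
    (hW2 : ∀ y, δ * |deriv (deriv W) y| ≤ W y / 4) (h1 : 0 < 2 * p + pw) (h2 : 0 < 2 * q + qw) :
    (∫ y, W y * (Sm δ f y) ^ 2) ≤ 4 / 3 * ∫ y, W y * (f y) ^ 2 ∧
    δ * (∫ y, W y * (deriv (Sm δ f) y) ^ 2) ≤ ∫ y, W y * (f y) ^ 2 := by
  have hv := Cl_Sm hδ hδ' hp hq hf
  have hE := Sm_eq hδ hδ' hp hq hf
  set v := Sm δ f with hvdef
  have hv1 := Cl_der hv
  have hv2 := Cl_der hv1
  have hW1 := Cl_der hW
  have hWW := Cl_der hW1
  have aux : ∀ {a b : ℝ → ℝ}, Cl p q a → Cl p q b → ∀ {w : ℝ → ℝ}, Cl pw qw w →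
      Cl (2 * p + pw) (2 * q + qw) (fun y => w y * (a y * b y)) := by
    intro a b ha hb w hw
    have := Cl_mul hw (Cl_mul ha hb)
    have e1 : pw + (p + p) = 2 * p + pw := by ring
    have e2 : qw + (q + q) = 2 * q + qw := by ring
    rwa [e1, e2] at this
  have hH1 := aux hv hv1 hW
  have hH2 := aux hv hv hW1
  have hH : Cl (2 * p + pw) (2 * q + qw)
      (fun y => δ * (W y * (v y * deriv v y)) - δ / 2 * (deriv W y * (v y * v y))) :=
    Cl_sub (Cl_smul δ hH1) (Cl_smul (δ / 2) hH2)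
  have hdH : ∀ y, deriv (fun y => δ * (W y * (v y * deriv v y)) -
      δ / 2 * (deriv W y * (v y * v y))) y =
      δ * (W y * (deriv v y) ^ 2) + δ * (W y * v y * deriv (deriv v) y) -
        δ / 2 * (deriv (deriv W) y * (v y) ^ 2) := by
    intro y
    have a1 := (Cl_hd hW y).mul ((Cl_hd hv y).mul (Cl_hd hv1 y))
    have a2 := (Cl_hd hW1 y).mul ((Cl_hd hv y).mul (Cl_hd hv y))
    have a3 := (a1.const_mul δ).sub (a2.const_mul (δ / 2))
    refine (HasDerivAt.deriv (f := fun y => δ * (W y * (v y * deriv v y)) -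
      δ / 2 * (deriv W y * (v y * v y))) a3).trans ?_
    simp only [Pi.mul_apply]
    ring
  have iv : Integrable (fun y => W y * (v y) ^ 2) := by
    have := Cl_int (aux hv hv hW) h1 h2
    refine this.congr (Filter.Eventually.of_forall fun y => ?_)
    simp only; ring
  have iv1 : Integrable (fun y => W y * (deriv v y) ^ 2) := by
    have := Cl_int (aux hv1 hv1 hW) h1 h2
    refine this.congr (Filter.Eventually.of_forall fun y => ?_)
    simp only; ring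
  have iF : Integrable (fun y => W y * (f y) ^ 2) := by
    have := Cl_int (aux hf hf hW) h1 h2
    refine this.congr (Filter.Eventually.of_forall fun y => ?_)
    simp only; ring
  have key := Cl_int_le (F := fun y => 3 / 8 * (W y * (v y) ^ 2) + δ * (W y * (deriv v y) ^ 2))
    (G := fun y => 1 / 2 * (W y * (f y) ^ 2))
    ((iv.const_mul _).add (iv1.const_mul _)) (iF.const_mul _) hH h1 h2 (fun y => by
      rw [hdH y]
      have w0 := hWp y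
      have w2 := hW2 y
      have e := hE y
      have w3 : δ * deriv (deriv W) y ≤ W y / 4 := by
        refine le_trans ?_ w2
        exact mul_le_mul_of_nonneg_left (le_abs_self _) hδ.le
      have w4 : δ * deriv (deriv W) y * v y ^ 2 ≤ W y / 4 * v y ^ 2 :=
        mul_le_mul_of_nonneg_right w3 (sq_nonneg _)
      have w5 : 0 ≤ W y * (f y - v y) ^ 2 := by positivity
      have e' : δ * deriv (deriv v) y = v y - f y := by linarith
      have e'' : δ * (W y * v y * deriv (deriv v) y) = W y * v y * (v y - f y) := by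
        rw [← e']; ring
      rw [e'']
      nlinarith)
  rw [integral_add (iv.const_mul _) (iv1.const_mul _), integral_const_mul, integral_const_mul,
    integral_const_mul] at key
  have n1 : 0 ≤ ∫ y, W y * (v y) ^ 2 :=
    integral_nonneg fun y => mul_nonneg (hWp y).le (sq_nonneg _)
  have n2 : 0 ≤ δ * ∫ y, W y * (deriv v y) ^ 2 :=
    mul_nonneg hδ.le (integral_nonneg fun y => mul_nonneg (hWp y).le (sq_nonneg _))
  have n3 : 0 ≤ ∫ y, W y * (f y) ^ 2 :=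
    integral_nonneg fun y => mul_nonneg (hWp y).le (sq_nonneg _)
  constructor
  · linarith
  · linarith

end H98KB

end S_H98_KB_Sma
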