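import Mathlib
import Pool.Agent.H98.BU.G01
import Pool.Agent.H98.BU.G02
import Pool.Agent.H98.BU.G03
import Pool.Agent.H98.BU.G04

/-! Blow-up for `u_t + u^k u_x + u_xxx - u_xx = 0`, part G06: this file joins several modules
to save build time (`Pool/Agent/H98/{KB,KC}`, `H72/{KB,KC}`, `H68/KC`, `H37/{KB,KC}`). -/

section S_H98_KB_Smb

/-!
# Smb : the function `v = vf k δ ε = Sm δ (L ε)`

`L ε = -ε''+ε-Q^kε`, `Sm δ ε'' = (Sm δ ε)'' = (Sm δ ε - ε)/δ`, so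
`v = ε/δ + (1-1/δ) Sm ε - Sm (Q^k ε)`   (`vf_eq`), `v - δ v'' = L ε` (`vf_L`), `v' = ε'/δ+(1-1/δ)Sm ε'-Sm((Q^kε)')`.
`vf_wt`: by `Sm_wt` (applied to `ε, ε', Q^kε, (Q^kε)'`, all in `Cl p q`); `Q^k ≤ C0`, `|(Q^k)'| ≤ k C0`.
`vf_wt0`: only `∫W h²` on the right for `Sm δ (L h)` itself.
`vf_Qd`: `L Q' = 0`;  `vf_LamQ`: `L ΛQ=-2Q`.
`ip_vf`: `(v, ΛQ - δ(ΛQ)'') = (v-δv'', ΛQ) = (Lε, ΛQ) = (ε, LΛQ) = -2(ε,Q)`.
-/

open MeasureTheory Filter Topology Set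
open scoped ContDiff

namespace H98KB

variable {k : ℕ} {δ p q : ℝ} {ε : ℝ → ℝ}

theorem Cl_vf (hk : 1 ≤ k) (hδ : 0 < δ) (hδ' : δ ≤ 1 / 16) (hp : |p| ≤ 2) (hq : |q| ≤ 2)
    (hε : Cl p q ε) : Cl p q (vf k δ ε) :=
  Cl_Sm hδ hδ' hp hq (Cl_Lop hk hε)

theorem Smb_QE (hk : 1 ≤ k) (hε : Cl p q ε) : Cl p q (fun y => Qf k y ^ k * ε y) := by
  have hk0 : (0 : ℝ) ≤ k := Nat.cast_nonneg k
  exact Cl_mono (Cl_mul (Cl_Qk hk) hε) (by linarith) (by linarith)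

theorem vf_eq (hk : 1 ≤ k) (hδ : 0 < δ) (hδ' : δ ≤ 1 / 16) (hp : |p| ≤ 2) (hq : |q| ≤ 2)
    (hε : Cl p q ε) (y : ℝ) :
    vf k δ ε y = ε y / δ + (1 - 1 / δ) * Sm δ ε y - Sm δ (fun y => Qf k y ^ k * ε y) y := by
  have h2 := Cl_der (Cl_der hε)
  have hQ := Smb_QE hk hε
  have hL : Lop k ε = fun y => ((-1) * deriv (deriv ε) y + ε y) +
      (-1) * (Qf k y ^ k * ε y) := by
    funext y
    unfold Lop
    ring
  have e1 : vf k δ ε y = (-1) * Sm δ (deriv (deriv ε)) y + Sm δ ε y +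
      (-1) * Sm δ (fun y => Qf k y ^ k * ε y) y := by
    unfold vf
    rw [hL, Sm_add hδ hδ' hp hq hp hq (Cl_add (Cl_smul (-1) h2) hε) (Cl_smul (-1) hQ),
      Sm_add hδ hδ' hp hq hp hq (Cl_smul (-1) h2) hε, Sm_smul, Sm_smul]
  have e2 : deriv (deriv (Sm δ ε)) = Sm δ (deriv (deriv ε)) := by
    rw [Sm_deriv hδ hδ' hp hq hε, Sm_deriv hδ hδ' hp hq (Cl_der hε)]
  have e3 := Sm_eq hδ hδ' hp hq hε y
  rw [e2] at e3
  rw [e1]
  field_simp
  linarith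

theorem vf_L (hk : 1 ≤ k) (hδ : 0 < δ) (hδ' : δ ≤ 1 / 16) (hp : |p| ≤ 2) (hq : |q| ≤ 2)
    (hε : Cl p q ε) (y : ℝ) :
    vf k δ ε y - δ * deriv (deriv (vf k δ ε)) y = Lop k ε y :=
  Sm_eq hδ hδ' hp hq (Cl_Lop hk hε) y

theorem vf_add (hk : 1 ≤ k) {ε' : ℝ → ℝ} (hδ : 0 < δ) (hδ' : δ ≤ 1 / 16) (hp : |p| ≤ 2)
    (hq : |q| ≤ 2) (hε : Cl p q ε) (hε' : Cl p q ε') (y : ℝ) :
    vf k δ (fun y => ε y + ε' y) y = vf k δ ε y + vf k δ ε' y := by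
  have d1 : deriv (fun y => ε y + ε' y) = fun y => deriv ε y + deriv ε' y := by
    funext z
    exact ((Cl_hd hε z).add (Cl_hd hε' z)).deriv
  have d2 : deriv (fun y => deriv ε y + deriv ε' y) =
      fun y => deriv (deriv ε) y + deriv (deriv ε') y := by
    funext z
    exact ((Cl_hd (Cl_der hε) z).add (Cl_hd (Cl_der hε') z)).deriv
  have hL : Lop k (fun y => ε y + ε' y) = fun y => Lop k ε y + Lop k ε' y := by
    funext z
    unfold Lop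
    rw [d1, d2]
    ring
  unfold vf
  rw [hL, Sm_add hδ hδ' hp hq hp hq (Cl_Lop hk hε) (Cl_Lop hk hε')]

theorem vf_smul (hk : 1 ≤ k) (c : ℝ) (hε : Cl p q ε) (y : ℝ) :
    vf k δ (fun y => c * ε y) y = c * vf k δ ε y := by
  have d1 : deriv (fun y => c * ε y) = fun y => c * deriv ε y := by
    funext z
    exact ((Cl_hd hε z).const_mul c).deriv
  have d2 : deriv (fun y => c * deriv ε y) = fun y => c * deriv (deriv ε) y := by
    funext z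
    exact ((Cl_hd (Cl_der hε) z).const_mul c).deriv
  have hL : Lop k (fun y => c * ε y) = fun y => c * Lop k ε y := by
    funext z
    unfold Lop
    rw [d1, d2]
    ring
  unfold vf
  rw [hL, Sm_smul]

theorem vf_Qd (hk : 1 ≤ k) (δ : ℝ) (y : ℝ) : vf k δ (deriv (Qf k)) y = 0 := by
  have hL : Lop k (deriv (Qf k)) = fun _ => 0 := funext (fun z => L_Qd hk z)
  unfold vf
  rw [hL, Sm_zero]

theorem vf_LamQ (hk : 1 ≤ k) (δ : ℝ) (y : ℝ) :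
    vf k δ (Lam k (Qf k)) y = -2 * Sm δ (Qf k) y := by
  have hL : Lop k (Lam k (Qf k)) = fun y => -2 * Qf k y := funext (fun z => L_LamQ hk z)
  unfold vf
  rw [hL, Sm_smul]

theorem ip_vf (hk : 1 ≤ k) (hδ : 0 < δ) (hδ' : δ ≤ 1 / 16) (hp : 0 < p) (hp' : p ≤ 2) (hq : 0 < q)
    (hq' : q ≤ 2) (hε : Cl p q ε) :
    ip (vf k δ ε) (fun y => Lam k (Qf k) y - δ * deriv (deriv (Lam k (Qf k))) y) =
      -2 * ip ε (Qf k) := by
  have hpa : |p| ≤ 2 := by rw [abs_of_pos hp]; exact hp'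
  have hqa : |q| ≤ 2 := by rw [abs_of_pos hq]; exact hq'
  have hv := Cl_vf hk hδ hδ' hpa hqa hε
  have hΛ : Cl (1 / 2) (1 / 2) (Lam k (Qf k)) := Cl_LamQ hk (by norm_num)
  have i1 : ∫ y, deriv (deriv (Lam k (Qf k))) y * vf k δ ε y =
      -∫ y, deriv (Lam k (Qf k)) y * deriv (vf k δ ε) y :=
    Cl_ibp (Cl_der hΛ) hv (by linarith) (by linarith)
  have i2 : ∫ y, deriv (Lam k (Qf k)) y * deriv (vf k δ ε) y =
      -∫ y, Lam k (Qf k) y * deriv (deriv (vf k δ ε)) y :=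
    Cl_ibp hΛ (Cl_der hv) (by linarith) (by linarith)
  have n1 : Integrable (fun y => vf k δ ε y * Lam k (Qf k) y) :=
    Cl_int (Cl_mul hv hΛ) (by linarith) (by linarith)
  have n2 : Integrable (fun y => deriv (deriv (Lam k (Qf k))) y * vf k δ ε y) :=
    Cl_int (Cl_mul (Cl_der (Cl_der hΛ)) hv) (by linarith) (by linarith)
  have n3 : Integrable (fun y => Lam k (Qf k) y * deriv (deriv (vf k δ ε)) y) :=
    Cl_int (Cl_mul hΛ (Cl_der (Cl_der hv))) (by linarith) (by linarith)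
  have s1 : ip (vf k δ ε) (fun y => Lam k (Qf k) y - δ * deriv (deriv (Lam k (Qf k))) y) =
      (∫ y, vf k δ ε y * Lam k (Qf k) y) -
        δ * ∫ y, deriv (deriv (Lam k (Qf k))) y * vf k δ ε y := by
    rw [← integral_const_mul, ← integral_sub n1 (n2.const_mul δ)]
    unfold ip
    congr 1
    funext y
    ring
  have s2 : ip (Lop k ε) (Lam k (Qf k)) = (∫ y, vf k δ ε y * Lam k (Qf k) y) -
        δ * ∫ y, Lam k (Qf k) y * deriv (deriv (vf k δ ε)) y := by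
    rw [← integral_const_mul, ← integral_sub n1 (n3.const_mul δ)]
    unfold ip
    congr 1
    funext y
    rw [← vf_L hk hδ hδ' hpa hqa hε y]
    ring
  have s3 := Lop_symm hk hε hΛ (by linarith) (by linarith)
  have s4 : ip ε (Lop k (Lam k (Qf k))) = -2 * ip ε (Qf k) := by
    unfold ip
    rw [← integral_const_mul]
    congr 1
    funext y
    rw [L_LamQ hk]
    ring
  rw [s1, i1, i2, neg_neg, ← s2, s3, s4]

theorem Smb_int {f W : ℝ → ℝ} {pw qw : ℝ} (hf : Cl p q f) (hW : Cl pw qw W)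
    (h1 : 0 < 2 * p + pw) (h2 : 0 < 2 * q + qw) : Integrable (fun y => W y * (f y) ^ 2) := by
  have h := Cl_int (Cl_mul hW (Cl_mul hf hf)) (by linarith) (by linarith)
  refine h.congr (Eventually.of_forall fun y => ?_)
  change W y * (f y * f y) = W y * f y ^ 2
  ring

theorem Smb_gen {f h W : ℝ → ℝ} {pw qw : ℝ} (hδ : 0 < δ) (hδ' : δ ≤ 1 / 16) (hp : |p| ≤ 2)
    (hq : |q| ≤ 2) (hf : Cl p q f) (hh : Cl p q h) (hW : Cl pw qw W) (hWp : ∀ y, 0 < W y)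
    (hW2 : ∀ y, δ * |deriv (deriv W) y| ≤ W y / 4) (h1 : 0 < 2 * p + pw) (h2 : 0 < 2 * q + qw)
    (a b : ℝ) :
    ∫ y, W y * (a * f y + b * Sm δ f y - Sm δ h y) ^ 2 ≤
      (3 * a ^ 2 + 4 * b ^ 2) * (∫ y, W y * (f y) ^ 2) + 4 * ∫ y, W y * (h y) ^ 2 := by
  have hSf := Cl_Sm hδ hδ' hp hq hf
  have hSh := Cl_Sm hδ hδ' hp hq hh
  have n1 := Smb_int hf hW h1 h2
  have n2 := Smb_int hSf hW h1 h2
  have n3 := Smb_int hSh hW h1 h2
  have n4 := Smb_int (Cl_sub (Cl_add (Cl_smul a hf) (Cl_smul b hSf)) hSh) hW h1 h2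
  have w1 := (Sm_wt hδ hδ' hp hq hf hW hWp hW2 h1 h2).1
  have w2 := (Sm_wt hδ hδ' hp hq hh hW hWp hW2 h1 h2).1
  have m1 : ∫ y, W y * (a * f y + b * Sm δ f y - Sm δ h y) ^ 2 ≤
      ∫ y, ((3 * a ^ 2) * (W y * (f y) ^ 2) + (3 * b ^ 2) * (W y * (Sm δ f y) ^ 2)) +
        3 * (W y * (Sm δ h y) ^ 2) := by
    refine integral_mono n4 (((n1.const_mul _).add (n2.const_mul _)).add (n3.const_mul _)) ?_
    intro y
    change W y * (a * f y + b * Sm δ f y - Sm δ h y) ^ 2 ≤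
      ((3 * a ^ 2) * (W y * (f y) ^ 2) + (3 * b ^ 2) * (W y * (Sm δ f y) ^ 2)) +
        3 * (W y * (Sm δ h y) ^ 2)
    have e : (a * f y + b * Sm δ f y - Sm δ h y) ^ 2 ≤
        3 * a ^ 2 * (f y) ^ 2 + 3 * b ^ 2 * (Sm δ f y) ^ 2 + 3 * (Sm δ h y) ^ 2 := by
      nlinarith [sq_nonneg (a * f y - b * Sm δ f y), sq_nonneg (a * f y + Sm δ h y),
        sq_nonneg (b * Sm δ f y + Sm δ h y)]
    have e2 := mul_le_mul_of_nonneg_left e (hWp y).le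
    linarith
  have n12 : Integrable (fun y => (3 * a ^ 2) * (W y * (f y) ^ 2) +
      (3 * b ^ 2) * (W y * (Sm δ f y) ^ 2)) := (n1.const_mul _).add (n2.const_mul _)
  rw [integral_add n12 (n3.const_mul _),
    integral_add (n1.const_mul _) (n2.const_mul _), integral_const_mul, integral_const_mul,
    integral_const_mul] at m1
  have e1 : 3 * b ^ 2 * (∫ y, W y * (Sm δ f y) ^ 2) ≤
      3 * b ^ 2 * (4 / 3 * ∫ y, W y * (f y) ^ 2) :=
    mul_le_mul_of_nonneg_left w1 (by positivity)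
  linarith

theorem Smb_C0 (k : ℕ) : 0 < C0 k := by
  unfold C0
  positivity

theorem Smb_Qk (hk : 1 ≤ k) (y : ℝ) : 0 ≤ Qf k y ^ k ∧ Qf k y ^ k ≤ C0 k := by
  have h0 := Qf_pow hk y
  have h1 := abs_lt.1 (th_abs_lt k y)
  have h2 : th k y ^ 2 ≤ 1 := by nlinarith
  have h3 := Smb_C0 k
  refine ⟨(pow_pos (Qf_pos k y) k).le, ?_⟩
  rw [h0]
  nlinarith [sq_nonneg (th k y)]

theorem Smb_QEd (hk : 1 ≤ k) (hε : Cl p q ε) (y : ℝ) :
    deriv (fun y => Qf k y ^ k * ε y) y =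
      (-(k : ℝ) * th k y * Qf k y ^ k) * ε y + Qf k y ^ k * deriv ε y :=
  ((Qk_hd hk y).mul (Cl_hd hε y)).deriv

theorem Smb_n1 {W : ℝ → ℝ} {pw qw : ℝ} (hk : 1 ≤ k) (hε : Cl p q ε) (hW : Cl pw qw W)
    (hWp : ∀ y, 0 < W y) (h1 : 0 < 2 * p + pw) (h2 : 0 < 2 * q + qw) :
    ∫ y, W y * (Qf k y ^ k * ε y) ^ 2 ≤ C0 k ^ 2 * ∫ y, W y * (ε y) ^ 2 := by
  rw [← integral_const_mul]
  refine integral_mono (Smb_int (Smb_QE hk hε) hW h1 h2)
    ((Smb_int hε hW h1 h2).const_mul _) ?_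
  intro y
  change W y * (Qf k y ^ k * ε y) ^ 2 ≤ C0 k ^ 2 * (W y * ε y ^ 2)
  obtain ⟨a1, a2⟩ := Smb_Qk hk y
  have e1 : (Qf k y ^ k) ^ 2 ≤ C0 k ^ 2 := pow_le_pow_left₀ a1 a2 2
  have e2 : 0 ≤ W y * ε y ^ 2 := mul_nonneg (hWp y).le (sq_nonneg _)
  have e3 := mul_le_mul_of_nonneg_right e1 e2
  have e4 : W y * (Qf k y ^ k * ε y) ^ 2 = (Qf k y ^ k) ^ 2 * (W y * ε y ^ 2) := by ring
  rw [e4]
  exact e3

theorem Smb_n2 {W : ℝ → ℝ} {pw qw : ℝ} (hk : 1 ≤ k) (hε : Cl p q ε) (hW : Cl pw qw W)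
    (hWp : ∀ y, 0 < W y) (h1 : 0 < 2 * p + pw) (h2 : 0 < 2 * q + qw) :
    ∫ y, W y * (deriv (fun y => Qf k y ^ k * ε y) y) ^ 2 ≤
      2 * (k : ℝ) ^ 2 * C0 k ^ 2 * (∫ y, W y * (ε y) ^ 2) +
        2 * C0 k ^ 2 * ∫ y, W y * (deriv ε y) ^ 2 := by
  have n1 := Smb_int hε hW h1 h2
  have n2 := Smb_int (Cl_der hε) hW h1 h2
  rw [← integral_const_mul, ← integral_const_mul, ← integral_add (n1.const_mul _)
    (n2.const_mul _)]
  refine integral_mono (Smb_int (Cl_der (Smb_QE hk hε)) hW h1 h2)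
    ((n1.const_mul _).add (n2.const_mul _)) ?_
  intro y
  change W y * (deriv (fun y => Qf k y ^ k * ε y) y) ^ 2 ≤
    2 * (k : ℝ) ^ 2 * C0 k ^ 2 * (W y * ε y ^ 2) + 2 * C0 k ^ 2 * (W y * deriv ε y ^ 2)
  rw [Smb_QEd hk hε]
  obtain ⟨a1, a2⟩ := Smb_Qk hk y
  have hth := abs_lt.1 (th_abs_lt k y)
  have ht2 : th k y ^ 2 ≤ 1 := by nlinarith
  set Qk := Qf k y ^ k with hQk
  have e1 : Qk ^ 2 ≤ C0 k ^ 2 := pow_le_pow_left₀ a1 a2 2
  have e0 : (-(k : ℝ) * th k y * Qk * ε y + Qk * deriv ε y) ^ 2 ≤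
      2 * (k : ℝ) ^ 2 * (th k y ^ 2) * (Qk ^ 2 * ε y ^ 2) + 2 * (Qk ^ 2 * deriv ε y ^ 2) := by
    nlinarith [sq_nonneg (-(k : ℝ) * th k y * Qk * ε y - Qk * deriv ε y)]
  have e2 : 0 ≤ 2 * (k : ℝ) ^ 2 * (Qk ^ 2 * ε y ^ 2) := by positivity
  have e3 : 2 * (k : ℝ) ^ 2 * (th k y ^ 2) * (Qk ^ 2 * ε y ^ 2) ≤
      2 * (k : ℝ) ^ 2 * (Qk ^ 2 * ε y ^ 2) := by
    have := mul_le_mul_of_nonneg_right ht2 e2
    linarith
  have e4 : 2 * (k : ℝ) ^ 2 * (Qk ^ 2 * ε y ^ 2) ≤ 2 * (k : ℝ) ^ 2 * (C0 k ^ 2 * ε y ^ 2) :=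
    mul_le_mul_of_nonneg_left (mul_le_mul_of_nonneg_right e1 (sq_nonneg _)) (by positivity)
  have e5 : Qk ^ 2 * deriv ε y ^ 2 ≤ C0 k ^ 2 * deriv ε y ^ 2 :=
    mul_le_mul_of_nonneg_right e1 (sq_nonneg _)
  have e6 : (-(k : ℝ) * th k y * Qk * ε y + Qk * deriv ε y) ^ 2 ≤
      2 * (k : ℝ) ^ 2 * (C0 k ^ 2 * ε y ^ 2) + 2 * (C0 k ^ 2 * deriv ε y ^ 2) := by linarith
  have e7 := mul_le_mul_of_nonneg_left e6 (hWp y).le
  linarith

/-- weighted bound `∫W(v²+v'²) ≤ C_δ ∫W(ε²+ε'²)` -/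
theorem vf_wt (k : ℕ) (hk : 1 ≤ k) (δ : ℝ) (hδ : 0 < δ) (hδ' : δ ≤ 1 / 16) : ∃ C : ℝ, 0 < C ∧
    ∀ (p q pw qw : ℝ) (ε W : ℝ → ℝ), |p| ≤ 2 → |q| ≤ 2 → Cl p q ε → Cl pw qw W →
    (∀ y, 0 < W y) → (∀ y, δ * |deriv (deriv W) y| ≤ W y / 4) → 0 < 2 * p + pw → 0 < 2 * q + qw →
    ∫ y, W y * ((vf k δ ε y) ^ 2 + (deriv (vf k δ ε) y) ^ 2) ≤
      C * ∫ y, W y * ((ε y) ^ 2 + (deriv ε y) ^ 2) := by
  have hC0 := Smb_C0 k
  refine ⟨(3 * (1 / δ) ^ 2 + 4 * (1 - 1 / δ) ^ 2) + 12 * C0 k ^ 2 + 8 * (k : ℝ) ^ 2 * C0 k ^ 2,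
    by positivity, ?_⟩
  intro p q pw qw ε W hp hq hε hW hWp hW2 h1 h2
  have hε' := Cl_der hε
  have hQ := Smb_QE hk hε
  have hv := Cl_vf hk hδ hδ' hp hq hε
  have n1 := Smb_int hε hW h1 h2
  have n2 := Smb_int hε' hW h1 h2
  have n3 := Smb_int hv hW h1 h2
  have n4 := Smb_int (Cl_der hv) hW h1 h2
  have g1 := Smb_gen hδ hδ' hp hq hε hQ hW hWp hW2 h1 h2 (1 / δ) (1 - 1 / δ)
  have g2 := Smb_gen hδ hδ' hp hq hε' (Cl_der hQ) hW hWp hW2 h1 h2 (1 / δ) (1 - 1 / δ)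
  have f1 : ∀ y, vf k δ ε y = 1 / δ * ε y + (1 - 1 / δ) * Sm δ ε y -
      Sm δ (fun y => Qf k y ^ k * ε y) y := by
    intro y
    rw [vf_eq hk hδ hδ' hp hq hε y]
    ring
  have f2 : ∀ y, deriv (vf k δ ε) y = 1 / δ * deriv ε y + (1 - 1 / δ) * Sm δ (deriv ε) y -
      Sm δ (deriv (fun y => Qf k y ^ k * ε y)) y := by
    intro y
    have e : vf k δ ε = fun y => 1 / δ * ε y + (1 - 1 / δ) * Sm δ ε y -
      Sm δ (fun y => Qf k y ^ k * ε y) y := funext f1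
    rw [e, ← Sm_deriv hδ hδ' hp hq hε, ← Sm_deriv hδ hδ' hp hq hQ]
    exact ((((Cl_hd hε y).const_mul (1 / δ)).add
      ((Cl_hd (Cl_Sm hδ hδ' hp hq hε) y).const_mul (1 - 1 / δ))).sub
      (Cl_hd (Cl_Sm hδ hδ' hp hq hQ) y)).deriv
  have s1 : ∫ y, W y * ((vf k δ ε y) ^ 2 + (deriv (vf k δ ε) y) ^ 2) =
      (∫ y, W y * (vf k δ ε y) ^ 2) + ∫ y, W y * (deriv (vf k δ ε) y) ^ 2 := by
    rw [← integral_add n3 n4]
    congr 1
    funext y
    ring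
  have s2 : ∫ y, W y * ((ε y) ^ 2 + (deriv ε y) ^ 2) =
      (∫ y, W y * (ε y) ^ 2) + ∫ y, W y * (deriv ε y) ^ 2 := by
    rw [← integral_add n1 n2]
    congr 1
    funext y
    ring
  simp only [← f1] at g1
  simp only [← f2] at g2
  rw [s1, s2]
  have q1 := Smb_n1 hk hε hW hWp h1 h2
  have q2 := Smb_n2 hk hε hW hWp h1 h2
  have p1 : 0 ≤ ∫ y, W y * (ε y) ^ 2 :=
    integral_nonneg fun y => mul_nonneg (hWp y).le (sq_nonneg _)
  have p2 : 0 ≤ ∫ y, W y * (deriv ε y) ^ 2 :=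
    integral_nonneg fun y => mul_nonneg (hWp y).le (sq_nonneg _)
  set I1 := ∫ y, W y * (ε y) ^ 2
  set I2 := ∫ y, W y * (deriv ε y) ^ 2
  have r1 : 0 ≤ C0 k ^ 2 * I1 := by positivity
  have r2 : 0 ≤ C0 k ^ 2 * I2 := by positivity
  have r3 : 0 ≤ (k : ℝ) ^ 2 * C0 k ^ 2 * I2 := by positivity
  nlinarith

/-- weighted bound without derivatives -/
theorem vf_wt0 (k : ℕ) (hk : 1 ≤ k) (δ : ℝ) (hδ : 0 < δ) (hδ' : δ ≤ 1 / 16) : ∃ C : ℝ, 0 < C ∧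
    ∀ (p q pw qw : ℝ) (ε W : ℝ → ℝ), |p| ≤ 2 → |q| ≤ 2 → Cl p q ε → Cl pw qw W →
    (∀ y, 0 < W y) → (∀ y, δ * |deriv (deriv W) y| ≤ W y / 4) → 0 < 2 * p + pw → 0 < 2 * q + qw →
    ∫ y, W y * (vf k δ ε y) ^ 2 ≤ C * ∫ y, W y * (ε y) ^ 2 := by
  have hC0 := Smb_C0 k
  refine ⟨(3 * (1 / δ) ^ 2 + 4 * (1 - 1 / δ) ^ 2) + 4 * C0 k ^ 2, by positivity, ?_⟩
  intro p q pw qw ε W hp hq hε hW hWp hW2 h1 h2
  have hQ := Smb_QE hk hε
  have g1 := Smb_gen hδ hδ' hp hq hε hQ hW hWp hW2 h1 h2 (1 / δ) (1 - 1 / δ)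
  have f1 : ∀ y, vf k δ ε y = 1 / δ * ε y + (1 - 1 / δ) * Sm δ ε y -
      Sm δ (fun y => Qf k y ^ k * ε y) y := by
    intro y
    rw [vf_eq hk hδ hδ' hp hq hε y]
    ring
  simp only [← f1] at g1
  have q1 := Smb_n1 hk hε hW hWp h1 h2
  linarith

end H98KB

end S_H98_KB_Smb

section S_H98_KB_Vid

/-!
# Vid : the virial form and its exact identities

`Hf k W v = ∫ (3/2)W'v'² + (1/2)(W'-W''')v² - (1/2)(W Q^k)' v²`.
* `vir_id`: `∫ W v L v' = ∫ W v(-v'''+v'-Q^kv') = -Hf k W v`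
  (`W v v''' = (W v v'')' - W'v v'' - W v'v''`, etc.; the difference of the integrands is the derivative of
   `-(W v v'') + W' v v' ... `: find the primitive with coefficients
   `H = -W v v'' + W' v v' + (1/2) W v'² - (1/2) W'' v² + (1/2) W v² - (1/2) W Q^k v²` : check by `ring` that
   `W v(-v'''+v'-Q^kv') + (3/2)W'v'²+(1/2)(W'-W''')v²-(1/2)(WQ^k)'v² = H'`).
* `vir_tanh`: with `t = th k`, `t'=κ(1-t²)`, `κ=k/2`, `Q^k=C0(1-t²)`, `C0=(k+1)(k+2)/2`: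
  `(3/2)t'(v'+tv)² = (3/2)t'v'² + (3/2)(t't v²)' - (3/2)(t't)'v² + (3/2)t't²v²` and
  `-(3/2)(t't)'+(3/2)t't² = (1/2)(t'-t''') - (1/2)(tQ^k)'` is a polynomial identity in `t`
  (`t''=-2κ t t'`, `t'''=-2κ t'^2+4κ²t²t'`).
* `vir_split`: `vf k δ (Lε)' = L v' + Ed`, `v = vf k δ ε`, `Ed = δ Sm((Q^k)''v') - 2δ (Sm((Q^k)'v'))'`:
  `(Lε) = v-δv''`, `L(w-δw'') = (Lw) - δ (Lw)'' - δ((Q^k)''w+2(Q^k)'w')` for `w=v'`, `Sm(x-δx'') = x`, and
  `(Q^k)''w+2(Q^k)'w' = 2((Q^k)'w)' - (Q^k)''w`.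
-/

open MeasureTheory Filter Topology Set
open scoped ContDiff

namespace H98KB

/-- the virial quadratic form -/
noncomputable def Hf (k : ℕ) (W v : ℝ → ℝ) : ℝ :=
  ∫ y, (3 / 2 * deriv W y * (deriv v y) ^ 2 + 1 / 2 * (deriv W y - deriv (deriv (deriv W)) y) * (v y) ^ 2
    - 1 / 2 * deriv (fun z => W z * Qf k z ^ k) y * (v y) ^ 2)

/-- the commutator error -/
noncomputable def Ed (k : ℕ) (δ : ℝ) (v : ℝ → ℝ) (y : ℝ) : ℝ :=
  δ * Sm δ (fun z => deriv (deriv (fun z => Qf k z ^ k)) z * deriv v z) y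
    - 2 * δ * deriv (Sm δ (fun z => deriv (fun z => Qf k z ^ k) z * deriv v z)) y

/-- `G_δ = ΛQ - δ(ΛQ)''` -/
noncomputable def Gd (k : ℕ) (δ : ℝ) (y : ℝ) : ℝ :=
  Lam k (Qf k) y - δ * deriv (deriv (Lam k (Qf k))) y

variable {k : ℕ}

theorem Vid_L (hk : 1 ≤ k) {p q : ℝ} {w : ℝ → ℝ} (hw : Cl p q w) : Cl p q (Lop k w) := by
  have hQ : Cl 0 0 (fun y => Qf k y ^ k) := Cl_mono (Cl_Qk hk) (by positivity) (by positivity)
  exact Cl_sub (Cl_add (Cl_neg (Cl_der (Cl_der hw))) hw) (Cl_mul0 hQ hw)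

theorem Vid_R (hk : 1 ≤ k) {p q : ℝ} {w : ℝ → ℝ} (hw : Cl p q w) :
    Cl p q (fun z => w z * Qf k z ^ k) := by
  have hQ : Cl 0 0 (fun y => Qf k y ^ k) := Cl_mono (Cl_Qk hk) (by positivity) (by positivity)
  have h := Cl_mul hw hQ
  simpa only [add_zero] using h

/-- the integrand of `Hf` is in the class -/
theorem Vid_G (hk : 1 ≤ k) {p q pw qw : ℝ} {W v : ℝ → ℝ} (hW : Cl pw qw W) (hv : Cl p q v) :
    Cl (pw + (p + p)) (qw + (q + q)) (fun y => 3 / 2 * deriv W y * (deriv v y) ^ 2 +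
      1 / 2 * (deriv W y - deriv (deriv (deriv W)) y) * (v y) ^ 2
      - 1 / 2 * deriv (fun z => W z * Qf k z ^ k) y * (v y) ^ 2) := by
  have hv2 : Cl (p + p) (q + q) (fun y => v y * v y) := Cl_mul hv hv
  have hd2 : Cl (p + p) (q + q) (fun y => deriv v y * deriv v y) := Cl_mul (Cl_der hv) (Cl_der hv)
  have h1 : Cl (pw + (p + p)) (qw + (q + q))
      (fun y => (3 / 2 * deriv W y) * (deriv v y * deriv v y)) :=
    Cl_mul (Cl_smul (3 / 2) (Cl_der hW)) hd2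
  have h2 : Cl (pw + (p + p)) (qw + (q + q))
      (fun y => (1 / 2 * (deriv W y - deriv (deriv (deriv W)) y)) * (v y * v y)) :=
    Cl_mul (Cl_smul (1 / 2) (Cl_sub (Cl_der hW) (Cl_der (Cl_der (Cl_der hW))))) hv2
  have h3 : Cl (pw + (p + p)) (qw + (q + q))
      (fun y => (1 / 2 * deriv (fun z => W z * Qf k z ^ k) y) * (v y * v y)) :=
    Cl_mul (Cl_smul (1 / 2) (Cl_der (Vid_R hk hW))) hv2
  have h4 := Cl_sub (Cl_add h1 h2) h3
  have e : (fun y => 3 / 2 * deriv W y * (deriv v y) ^ 2 +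
      1 / 2 * (deriv W y - deriv (deriv (deriv W)) y) * (v y) ^ 2
      - 1 / 2 * deriv (fun z => W z * Qf k z ^ k) y * (v y) ^ 2) = (fun y =>
      (3 / 2 * deriv W y) * (deriv v y * deriv v y) +
      (1 / 2 * (deriv W y - deriv (deriv (deriv W)) y)) * (v y * v y) -
      (1 / 2 * deriv (fun z => W z * Qf k z ^ k) y) * (v y * v y)) := by
    funext y
    ring
  rw [e]
  exact h4

theorem vir_id (hk : 1 ≤ k) {p q pw qw : ℝ} {W v : ℝ → ℝ} (hW : Cl pw qw W) (hv : Cl p q v)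
    (h1 : 0 < 2 * p + pw) (h2 : 0 < 2 * q + qw) :
    ∫ y, W y * (v y * Lop k (deriv v) y) = -Hf k W v := by
  obtain ⟨R, hRdef⟩ : ∃ R : ℝ → ℝ, R = fun z => W z * Qf k z ^ k := ⟨_, rfl⟩
  have hR : Cl pw qw R := by
    rw [hRdef]
    exact Vid_R hk hW
  have hG := Vid_G hk hW hv
  have hp' : 0 < pw + (p + p) := by linarith
  have hq' : 0 < qw + (q + q) := by linarith
  have hF : Cl (pw + (p + p)) (qw + (q + q)) (fun y => W y * (v y * Lop k (deriv v) y)) :=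
    Cl_mul hW (Cl_mul hv (Vid_L hk (Cl_der hv)))
  have hv1 := Cl_der hv
  have hv2 := Cl_der hv1
  have hW1 := Cl_der hW
  have hW2 := Cl_der hW1
  have hH : Cl (pw + (p + p)) (qw + (q + q)) (fun y => -(W y * (v y * deriv (deriv v) y)) +
      deriv W y * (v y * deriv v y) + 1 / 2 * (W y * (deriv v y * deriv v y)) -
      1 / 2 * (deriv (deriv W) y * (v y * v y)) + 1 / 2 * (W y * (v y * v y)) -
      1 / 2 * (R y * (v y * v y))) :=
    Cl_sub (Cl_add (Cl_sub (Cl_add (Cl_add (Cl_neg (Cl_mul hW (Cl_mul hv hv2)))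
      (Cl_mul hW1 (Cl_mul hv hv1))) (Cl_smul (1 / 2) (Cl_mul hW (Cl_mul hv1 hv1))))
      (Cl_smul (1 / 2) (Cl_mul hW2 (Cl_mul hv hv)))) (Cl_smul (1 / 2) (Cl_mul hW (Cl_mul hv hv))))
      (Cl_smul (1 / 2) (Cl_mul hR (Cl_mul hv hv)))
  unfold Hf
  rw [← integral_neg]
  refine Cl_int_eq (Cl_int hF hp' hq') (Cl_int (Cl_neg hG) hp' hq') hH hp' hq' fun y => ?_
  have dv := Cl_hd hv y
  have dv1 := Cl_hd hv1 y
  have dv2 := Cl_hd hv2 y
  have dW := Cl_hd hW y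
  have dW1 := Cl_hd hW1 y
  have dW2 := Cl_hd hW2 y
  have dR := Cl_hd hR y
  have hd : HasDerivAt (fun y => -(W y * (v y * deriv (deriv v) y)) +
      deriv W y * (v y * deriv v y) + 1 / 2 * (W y * (deriv v y * deriv v y)) -
      1 / 2 * (deriv (deriv W) y * (v y * v y)) + 1 / 2 * (W y * (v y * v y)) -
      1 / 2 * (R y * (v y * v y))) _ y :=
    ((((((dW.mul (dv.mul dv2)).neg).add (dW1.mul (dv.mul dv1))).add
      ((dW.mul (dv1.mul dv1)).const_mul (1 / 2))).sub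
      ((dW2.mul (dv.mul dv)).const_mul (1 / 2))).add ((dW.mul (dv.mul dv)).const_mul (1 / 2))).sub
      ((dR.mul (dv.mul dv)).const_mul (1 / 2))
  rw [hd.deriv, ← hRdef]
  have hRy : R y = W y * Qf k y ^ k := congrFun hRdef y
  simp only [Pi.mul_apply]
  rw [hRy]
  unfold Lop
  ring

theorem Vid_d1 (k : ℕ) : deriv (th k) = fun y => (k : ℝ) / 2 * (1 - th k y ^ 2) := by
  funext y
  exact (th_hd k y).deriv

theorem Vid_d2 (k : ℕ) : deriv (deriv (th k)) =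
    fun y => -2 * ((k : ℝ) / 2) ^ 2 * th k y * (1 - th k y ^ 2) := by
  rw [Vid_d1]
  funext y
  have h : HasDerivAt (fun y => (k : ℝ) / 2 * (1 - th k y ^ 2)) _ y :=
    (((th_hd k y).pow 2).const_sub 1).const_mul ((k : ℝ) / 2)
  rw [h.deriv]
  ring

theorem Vid_d3 (k : ℕ) : deriv (deriv (deriv (th k))) =
    fun y => -2 * ((k : ℝ) / 2) ^ 3 * (1 - th k y ^ 2) * (1 - 3 * th k y ^ 2) := by
  rw [Vid_d2]
  funext y
  have h : HasDerivAt (fun y => -2 * ((k : ℝ) / 2) ^ 2 * th k y * (1 - th k y ^ 2)) _ y :=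
    ((th_hd k y).const_mul (-2 * ((k : ℝ) / 2) ^ 2)).mul (((th_hd k y).pow 2).const_sub 1)
  rw [h.deriv]
  simp only [Nat.cast_ofNat, Nat.add_one_sub_one, pow_one]
  ring

theorem Vid_d4 (hk : 1 ≤ k) (y : ℝ) : deriv (fun z => th k z * Qf k z ^ k) y =
    C0 k * (1 - 3 * th k y ^ 2) * ((k : ℝ) / 2) * (1 - th k y ^ 2) := by
  have h : HasDerivAt (fun z => th k z * Qf k z ^ k) _ y := (th_hd k y).mul (Qk_hd hk y)
  rw [h.deriv, Qf_pow hk]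
  ring

theorem vir_tanh (hk : 1 ≤ k) {p q : ℝ} {v : ℝ → ℝ} (hv : Cl p q v) (hp : 0 < p) (hq : 0 < q) :
    Hf k (th k) v = 3 / 2 * ∫ y, deriv (th k) y * (deriv v y + th k y * v y) ^ 2 := by
  have hG := Vid_G hk (Cl_th k) hv
  have hp' : 0 < 0 + (p + p) := by linarith
  have hq' : 0 < 0 + (q + q) := by linarith
  have hv1 := Cl_der hv
  have hs : Cl p q (fun y => deriv v y + th k y * v y) := Cl_add hv1 (Cl_mul0 (Cl_th k) hv)
  have hF : Cl (0 + (p + p)) (0 + (q + q)) (fun y => 3 / 2 * (deriv (th k) y *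
      ((deriv v y + th k y * v y) * (deriv v y + th k y * v y)))) :=
    Cl_smul (3 / 2) (Cl_mul (Cl_der (Cl_th k)) (Cl_mul hs hs))
  have hH : Cl (0 + (p + p)) (0 + (q + q)) (fun y => -(3 / 2) * (deriv (th k) y * th k y *
      (v y * v y))) := by
    have h := Cl_smul (-(3 / 2)) (Cl_mul (Cl_mul (Cl_der (Cl_th k)) (Cl_th k)) (Cl_mul hv hv))
    simpa only [zero_add] using h
  unfold Hf
  rw [← integral_const_mul]
  have e : (fun y => 3 / 2 * (deriv (th k) y * (deriv v y + th k y * v y) ^ 2)) =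
      (fun y => 3 / 2 * (deriv (th k) y *
      ((deriv v y + th k y * v y) * (deriv v y + th k y * v y)))) := by
    funext y
    ring
  rw [e]
  refine Cl_int_eq (Cl_int hG hp' hq') (Cl_int hF hp' hq') hH hp' hq' fun y => ?_
  have dv := Cl_hd hv y
  have hd : HasDerivAt (fun y => -(3 / 2) * (deriv (th k) y * th k y * (v y * v y))) _ y :=
    (((Cl_hd (Cl_der (Cl_th k)) y).mul (Cl_hd (Cl_th k) y)).mul (dv.mul dv)).const_mul (-(3 / 2))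
  rw [hd.deriv, Vid_d4 hk, Vid_d3, Vid_d2, Vid_d1]
  simp only [Pi.mul_apply]
  unfold C0
  ring

end H98KB

end S_H98_KB_Vid

section S_H98_KB_Vie

/-!
# Vie (second half of Vid) : the virial form and its exact identities

`Hf k W v = ∫ (3/2)W'v'² + (1/2)(W'-W''')v² - (1/2)(W Q^k)' v²`.
* `vir_id`: `∫ W v L v' = ∫ W v(-v'''+v'-Q^kv') = -Hf k W v`
  (`W v v''' = (W v v'')' - W'v v'' - W v'v''`, etc.; the difference of the integrands is the derivative of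
   `-(W v v'') + W' v v' ... `: find the primitive with coefficients
   `H = -W v v'' + W' v v' + (1/2) W v'² - (1/2) W'' v² + (1/2) W v² - (1/2) W Q^k v²` : check by `ring` that
   `W v(-v'''+v'-Q^kv') + (3/2)W'v'²+(1/2)(W'-W''')v²-(1/2)(WQ^k)'v² = H'`).
* `vir_tanh`: with `t = th k`, `t'=κ(1-t²)`, `κ=k/2`, `Q^k=C0(1-t²)`, `C0=(k+1)(k+2)/2`:
  `(3/2)t'(v'+tv)² = (3/2)t'v'² + (3/2)(t't v²)' - (3/2)(t't)'v² + (3/2)t't²v²` and
  `-(3/2)(t't)'+(3/2)t't² = (1/2)(t'-t''') - (1/2)(tQ^k)'` is a polynomial identity in `t`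
  (`t''=-2κ t t'`, `t'''=-2κ t'^2+4κ²t²t'`).
* `vir_split`: `vf k δ (Lε)' = L v' + Ed`, `v = vf k δ ε`, `Ed = δ Sm((Q^k)''v') - 2δ (Sm((Q^k)'v'))'`:
  `(Lε) = v-δv''`, `L(w-δw'') = (Lw) - δ (Lw)'' - δ((Q^k)''w+2(Q^k)'w')` for `w=v'`, `Sm(x-δx'') = x`, and
  `(Q^k)''w+2(Q^k)'w' = 2((Q^k)'w)' - (Q^k)''w`.
-/

open MeasureTheory Filter Topology Set
open scoped ContDiff

namespace H98KB

variable {k : ℕ}

theorem Vie_PW (_hk : 1 ≤ k) {p q : ℝ} {P w : ℝ → ℝ} (hP : Cl k k P) (hw : Cl p q w) :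
    Cl p q (fun z => P z * w z) := by
  have hk0 : (0 : ℝ) ≤ k := Nat.cast_nonneg k
  exact Cl_mono (Cl_mul hP hw) (by linarith) (by linarith)

theorem Vie_alg (hk : 1 ≤ k) {p q : ℝ} {w : ℝ → ℝ} (hw : Cl p q w) (δ y : ℝ) :
    Lop k (fun y => w y - δ * deriv (deriv w) y) y =
      (Lop k w y + (-δ) * deriv (deriv (Lop k w)) y) +
      ((-(2 * δ)) * deriv (fun z => deriv (fun z => Qf k z ^ k) z * w z) y +
        δ * (deriv (deriv (fun z => Qf k z ^ k)) y * w y)) := by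
  have hP := Cl_Qk hk
  have hP1 := Cl_der hP
  have hP2 := Cl_der hP1
  have hw1 := Cl_der hw
  have hw2 := Cl_der hw1
  have hw3 := Cl_der hw2
  have hw4 := Cl_der hw3
  set P : ℝ → ℝ := fun z => Qf k z ^ k with hPdef
  have hL : ∀ f : ℝ → ℝ, Lop k f = fun y => -deriv (deriv f) y + f y - P y * f y :=
    fun f => rfl
  have a1 : deriv (fun y => w y - δ * deriv (deriv w) y) =
      fun y => deriv w y - δ * deriv (deriv (deriv w)) y := by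
    funext z
    exact ((Cl_hd hw z).sub ((Cl_hd hw2 z).const_mul δ)).deriv
  have a2 : deriv (fun y => deriv w y - δ * deriv (deriv (deriv w)) y) =
      fun y => deriv (deriv w) y - δ * deriv (deriv (deriv (deriv w))) y := by
    funext z
    exact ((Cl_hd hw1 z).sub ((Cl_hd hw3 z).const_mul δ)).deriv
  have b1 : deriv (fun y => -deriv (deriv w) y + w y - P y * w y) =
      fun y => -deriv (deriv (deriv w)) y + deriv w y - (deriv P y * w y + P y * deriv w y) := by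
    funext z
    exact ((((Cl_hd hw2 z).neg).add (Cl_hd hw z)).sub ((Cl_hd hP z).mul (Cl_hd hw z))).deriv
  have b2 : deriv (fun y => -deriv (deriv (deriv w)) y + deriv w y -
      (deriv P y * w y + P y * deriv w y)) =
      fun y => -deriv (deriv (deriv (deriv w))) y + deriv (deriv w) y -
        ((deriv (deriv P) y * w y + deriv P y * deriv w y) +
          (deriv P y * deriv w y + P y * deriv (deriv w) y)) := by
    funext z
    exact ((((Cl_hd hw3 z).neg).add (Cl_hd hw1 z)).sub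
      (((Cl_hd hP1 z).mul (Cl_hd hw z)).add ((Cl_hd hP z).mul (Cl_hd hw1 z)))).deriv
  have c1 : deriv (fun z => deriv P z * w z) y = deriv (deriv P) y * w y +
      deriv P y * deriv w y := ((Cl_hd hP1 y).mul (Cl_hd hw y)).deriv
  rw [c1, hL (fun y => w y - δ * deriv (deriv w) y), hL w, a1, a2, b1, b2]
  ring

theorem vir_split (hk : 1 ≤ k) {δ p q : ℝ} {ε : ℝ → ℝ} (hδ : 0 < δ) (hδ' : δ ≤ 1 / 16)
    (hp : |p| ≤ 2) (hq : |q| ≤ 2) (hε : Cl p q ε) (y : ℝ) :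
    vf k δ (deriv (Lop k ε)) y = Lop k (deriv (vf k δ ε)) y + Ed k δ (vf k δ ε) y := by
  have hv := Cl_vf hk hδ hδ' hp hq hε
  set v := vf k δ ε with hvdef
  have hw := Cl_der hv
  have hLv : Lop k ε = fun y => v y - δ * deriv (deriv v) y :=
    funext fun y => (vf_L hk hδ hδ' hp hq hε y).symm
  have hdL : deriv (Lop k ε) = fun y => deriv v y - δ * deriv (deriv (deriv v)) y := by
    rw [hLv]
    funext z
    exact ((Cl_hd hv z).sub ((Cl_hd (Cl_der hw) z).const_mul δ)).deriv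
  have hP := Cl_Qk hk
  have hF : Cl p q (fun z => deriv (deriv (fun z => Qf k z ^ k)) z * deriv v z) :=
    Vie_PW hk (Cl_der (Cl_der hP)) hw
  have hG : Cl p q (fun z => deriv (fun z => Qf k z ^ k) z * deriv v z) :=
    Vie_PW hk (Cl_der hP) hw
  have hx := Cl_Lop hk hw
  have hx2 := Cl_der (Cl_der hx)
  have hA := Cl_add hx (Cl_smul (-δ) hx2)
  have hB := Cl_add (Cl_smul (-(2 * δ)) (Cl_der hG)) (Cl_smul δ hF)
  have e1 : Lop k (fun y => deriv v y - δ * deriv (deriv (deriv v)) y) = fun y =>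
      (Lop k (deriv v) y + (-δ) * deriv (deriv (Lop k (deriv v))) y) +
      ((-(2 * δ)) * deriv (fun z => deriv (fun z => Qf k z ^ k) z * deriv v z) y +
        δ * (deriv (deriv (fun z => Qf k z ^ k)) y * deriv v y)) :=
    funext fun y => Vie_alg hk hw δ y
  have e2 : vf k δ (deriv (Lop k ε)) y = (Sm δ (Lop k (deriv v)) y +
      (-δ) * Sm δ (deriv (deriv (Lop k (deriv v)))) y) +
      ((-(2 * δ)) * Sm δ (deriv (fun z => deriv (fun z => Qf k z ^ k) z * deriv v z)) y +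
        δ * Sm δ (fun z => deriv (deriv (fun z => Qf k z ^ k)) z * deriv v z) y) := by
    unfold vf
    rw [hdL, e1, Sm_add hδ hδ' hp hq hp hq hA hB,
      Sm_add hδ hδ' hp hq hp hq hx (Cl_smul (-δ) hx2),
      Sm_add hδ hδ' hp hq hp hq (Cl_smul (-(2 * δ)) (Cl_der hG)) (Cl_smul δ hF),
      Sm_smul, Sm_smul, Sm_smul]
  have e3 : deriv (deriv (Sm δ (Lop k (deriv v)))) = Sm δ (deriv (deriv (Lop k (deriv v)))) := by
    rw [Sm_deriv hδ hδ' hp hq hx, Sm_deriv hδ hδ' hp hq (Cl_der hx)]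
  have e4 := Sm_eq hδ hδ' hp hq hx y
  rw [e3] at e4
  unfold Ed
  rw [e2, Sm_deriv hδ hδ' hp hq hG, ← e4]
  ring

theorem Cl_Ed (hk : 1 ≤ k) {δ p q : ℝ} {v : ℝ → ℝ} (hδ : 0 < δ) (hδ' : δ ≤ 1 / 16)
    (hp : |p| ≤ 2) (hq : |q| ≤ 2) (hv : Cl p q v) : Cl p q (Ed k δ v) := by
  have hw := Cl_der hv
  have hP := Cl_Qk hk
  have hF : Cl p q (fun z => deriv (deriv (fun z => Qf k z ^ k)) z * deriv v z) :=
    Vie_PW hk (Cl_der (Cl_der hP)) hw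
  have hG : Cl p q (fun z => deriv (fun z => Qf k z ^ k) z * deriv v z) :=
    Vie_PW hk (Cl_der hP) hw
  exact Cl_sub (Cl_smul δ (Cl_Sm hδ hδ' hp hq hF))
    (Cl_smul (2 * δ) (Cl_der (Cl_Sm hδ hδ' hp hq hG)))

theorem Cl_Gd (hk : 1 ≤ k) (δ : ℝ) {c : ℝ} (hc : c < 1) : Cl c c (Gd k δ) :=
  Cl_sub (Cl_LamQ hk hc) (Cl_smul δ (Cl_der (Cl_der (Cl_LamQ hk hc))))

theorem Cl_psi (k : ℕ) (η γ : ℝ) : Cl 0 0 (psi k η γ) :=
  Cl_add (Cl_th k) (Cl_smul η (Cl_tanh γ))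

theorem Cl_Psi (k : ℕ) (η γ : ℝ) {B : ℝ} (hB : 0 < B) : Cl (2 / B) (2 / B) (Psi k η γ B) :=
  Cl_mul0 (Cl_psi k η γ) (Cl_ch hB)

theorem psi_abs {η : ℝ} (hη : 0 ≤ η) (γ y : ℝ) : |psi k η γ y| ≤ 1 + η := by
  have h1 := th_abs_lt k y
  have h2 := tanh_abs_lt (γ * y)
  unfold psi
  calc |th k y + η * Real.tanh (γ * y)| ≤ |th k y| + |η * Real.tanh (γ * y)| := abs_add_le _ _
    _ = |th k y| + η * |Real.tanh (γ * y)| := by rw [abs_mul, abs_of_nonneg hη]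
    _ ≤ 1 + η * 1 := add_le_add h1.le (mul_le_mul_of_nonneg_left h2.le hη)
    _ = 1 + η := by ring

end H98KB

end S_H98_KB_Vie

section S_H68_KC_MOa

/-!
# Row MOa (MP_95be7d_K4): the function `ε`, orthogonality, pairing formula for `ζ`

`e := fun y => W y - Qf 4 y` is of class `Cl p q`, `0 < p`, `0 < q`.

## Proofs
* `ep_cl`: `Cl_mono` (to class `0 0`), `cP`, `E_cl`, `Cl_smul`, `Cl_sub`.
* `ep_split`: definitions, `ring`.
* `ep_Q`: `(ε,Q) = (e,Q) - b (P,Q) - α (E,Q) = (e,Q) - b I²/16 - α I/4 = 0` by the definition of `bq` (`ip_PQ`, `ip_EQ`, `Iq_pos`).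
* `ep_rho`, `ep_Qd`: `ip_Prho`, `ip_Erho`, `Prof.PQ`, `ip_EQd`, `ip_Q_Qd`.
* `pair_ze`: for `φ` of class `1 1`; `zeta = g' + N - et'`, `g = L e - R` (`gf_eq`).
  `(g',φ) = -(g,φ') = -(Le,φ') + (R,φ') = -(e,Lφ') + (R,φ')` (`Cl_ibp`, `Cl_gf`, `Lop_symm`, `Cl_Rf`);
  `(Λe,φ) = ∫ (e/2 + y e') φ = (1/2)(e,φ) - ∫ e (yφ)' = -(e,Λφ)` (here `2/(4:ℝ) = 1/2`);
  `(e',φ) = -(e,φ')`, `(e'',φ) = (e,φ'')`, `(et',φ) = -(et,φ')`. All functions are of class `Cl` with positive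
  exponents after multiplication (`y φ` is of class `3/4 3/4`: `Cl_id` with `c = 1/4`).
* `ze_cl`: `Cl_zeta` with `p' = p/2`, `q' = q/2`.
-/

open MeasureTheory Filter Topology Set
open scoped ContDiff

noncomputable section

namespace H68KC

open H98KB

variable {P E : ℝ → ℝ}

theorem hf_cl (h : Prof P E) (b α : ℝ) : Cl 0 0 (hf P E b α) :=
  Cl_add (Cl_smul b h.cP) (Cl_smul α (E_cl h))

theorem ep_cl (h : Prof P E) {p q s : ℝ} {W : ℝ → ℝ} (hp : 0 ≤ p) (hq : 0 ≤ q)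
    (hW : Cl p q (fun y => W y - Qf 4 y)) : Cl 0 0 (ep P E s W) :=
  Cl_sub (Cl_mono hW hp hq) (hf_cl h _ _)

theorem ep_split (P E : ℝ → ℝ) (s : ℝ) (W : ℝ → ℝ) (y : ℝ) :
    W y - Qf 4 y = hf P E (bq s W) (alf s W) y + ep P E s W y := by
  unfold ep
  ring

theorem MOa_c {p q : ℝ} {f φ : ℝ → ℝ} (hp : 0 ≤ p) (hq : 0 ≤ q) (hf : Cl p q f) (hφ : Cl 1 1 φ) :
    Cl (1 / 2) (1 / 2) (fun y => f y * φ y) :=
  Cl_mono (Cl_mul hf hφ) (by linarith) (by linarith)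

theorem MOa_i {p q : ℝ} {f φ : ℝ → ℝ} (hp : 0 ≤ p) (hq : 0 ≤ q) (hf : Cl p q f) (hφ : Cl 1 1 φ) :
    Integrable (fun y => f y * φ y) :=
  Cl_int (MOa_c hp hq hf hφ) (by norm_num) (by norm_num)

theorem MOa_rho : Cl 1 1 rho := Cl_mono rho_cl (by norm_num) (by norm_num)

theorem MOa_Q : Cl 1 1 (Qf 4) := Cl_Qf (by norm_num)

theorem MOa_ep (h : Prof P E) {p q s : ℝ} {W φ : ℝ → ℝ} (hp : 0 ≤ p) (hq : 0 ≤ q)
    (hW : Cl p q (fun y => W y - Qf 4 y)) (hφ : Cl 1 1 φ) :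
    ip (ep P E s W) φ = ip (fun y => W y - Qf 4 y) φ - bq s W * ip P φ - alf s W * ip E φ := by
  have i1 := MOa_i hp hq hW hφ
  have i2 := MOa_i le_rfl le_rfl h.cP hφ
  have i3 := MOa_i le_rfl le_rfl (E_cl h) hφ
  have k1 := integral_sub (i1.sub (i2.const_mul (bq s W))) (i3.const_mul (alf s W))
  have k2 := integral_sub i1 (i2.const_mul (bq s W))
  simp only [Pi.sub_apply] at k1 k2
  rw [integral_const_mul] at k1 k2
  unfold ip
  rw [← k2, ← k1]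
  congr 1
  funext y
  simp only [ep, hf]
  ring

theorem ep_Q (h : Prof P E) {p q s : ℝ} {W : ℝ → ℝ} (hp : 0 < p) (hq : 0 < q)
    (hW : Cl p q (fun y => W y - Qf 4 y)) : ip (ep P E s W) (Qf 4) = 0 := by
  rw [MOa_ep h hp.le hq.le hW MOa_Q, ip_PQ h, ip_EQ h, bq]
  have hI := Iq_pos
  field_simp
  ring

theorem ep_rho (h : Prof P E) {p q s : ℝ} {W : ℝ → ℝ} (hp : 0 < p) (hq : 0 < q)
    (hW : Cl p q (fun y => W y - Qf 4 y)) :
    ip (ep P E s W) rho = ip (fun y => W y - Qf 4 y) rho := by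
  rw [MOa_ep h hp.le hq.le hW MOa_rho, ip_Prho h, ip_Erho h]
  ring

theorem ep_Qd (h : Prof P E) {p q s : ℝ} {W : ℝ → ℝ} (hp : 0 < p) (hq : 0 < q)
    (hW : Cl p q (fun y => W y - Qf 4 y)) :
    ip (ep P E s W) (deriv (Qf 4)) = ip W (deriv (Qf 4)) ∧
    ip (fun y => W y - Qf 4 y) (deriv (Qf 4)) = ip W (deriv (Qf 4)) := by
  have hQd : Cl 1 1 (deriv (Qf 4)) := Cl_der MOa_Q
  have i1 := MOa_i hp.le hq.le hW hQd
  have i2 := MOa_i zero_le_one zero_le_one MOa_Q hQd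
  have h1 : ip W (deriv (Qf 4)) = ip (fun y => W y - Qf 4 y) (deriv (Qf 4)) + ip (Qf 4) (deriv (Qf 4)) := by
    unfold ip
    rw [← integral_add i1 i2]
    congr 1
    funext y
    ring
  have h2 := ip_Q_Qd (k := 4) (by norm_num)
  rw [h2, add_zero] at h1
  refine ⟨?_, h1.symm⟩
  rw [MOa_ep h hp.le hq.le hW hQd, h.PQ, ip_EQd h, h1]
  ring

theorem ze_cl {p q w m l : ℝ} {W et : ℝ → ℝ} (hp : 0 < p) (hq : 0 < q) (hp1 : p ≤ 1) (hq1 : q ≤ 1)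
    (hW : Cl p q (fun y => W y - Qf 4 y)) (he : Cl p q et) :
    Cl (p / 2) (q / 2) (ze w m l W et) :=
  Cl_zeta (by norm_num) hp hq hp1 hq1 hW he w m l (by linarith) (by linarith)

theorem MOa_pair {p q w m l : ℝ} {e et φ : ℝ → ℝ} (hp : 0 < p) (hq : 0 < q) (hp1 : p ≤ 1) (hq1 : q ≤ 1)
    (hW : Cl p q e) (he : Cl p q et) (hφ : Cl 1 1 φ) :
    ip (zeta 4 w m l e et) φ =
      -ip e (Lop 4 (deriv φ)) + ip (Rf 4 e) (deriv φ)
      - w * ip (Lam 4 (Qf 4)) φ + m * ip (deriv (Qf 4)) φ + l * ip (deriv (deriv (Qf 4))) φ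
      + w * ip e (Lam 4 φ) - m * ip e (deriv φ)
      + l * ip e (deriv (deriv φ)) + ip et (deriv φ) := by
  have hφ1 := Cl_der hφ
  have hφ2 := Cl_der hφ1
  have hLQ : Cl 0 0 (Lam 4 (Qf 4)) := Cl_LamQ (by norm_num) (by norm_num)
  have hQ1 : Cl 1 1 (deriv (Qf 4)) := Cl_der MOa_Q
  have hQ2 : Cl 1 1 (deriv (deriv (Qf 4))) := Cl_der hQ1
  have hR : Cl p q (Rf 4 e) := Cl_Rf (by norm_num) hp.le hq.le hW
  have hg : Cl p q (gf 4 e) := Cl_gf (by norm_num) hp.le hq.le hW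
  have hz : Cl (p / 2) (q / 2) (zeta 4 w m l e et) :=
    Cl_zeta (by norm_num) hp hq hp1 hq1 hW he w m l (by linarith) (by linarith)
  have hLφ : Cl 1 1 (Lop 4 (deriv φ)) := Cl_Lop (by norm_num) hφ1
  have hΛφ : Cl (3 / 4) (3 / 4) (Lam 4 φ) := by
    have h := Cl_Lam 4 hφ (c := 1 / 4) (by norm_num)
    have e1 : (1 : ℝ) - 1 / 4 = 3 / 4 := by norm_num
    rwa [e1] at h
  have i0 := MOa_i (by linarith : 0 ≤ p / 2) (by linarith : 0 ≤ q / 2) hz hφ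
  have i1 := MOa_i hp.le hq.le hW hLφ
  have i2 := MOa_i hp.le hq.le hR hφ1
  have i3 := MOa_i le_rfl le_rfl hLQ hφ
  have i4 := MOa_i zero_le_one zero_le_one hQ1 hφ
  have i5 := MOa_i zero_le_one zero_le_one hQ2 hφ
  have i6 : Integrable (fun y => e y * Lam 4 φ y) :=
    Cl_int (Cl_mul hW hΛφ) (by linarith) (by linarith)
  have i7 := MOa_i hp.le hq.le hW hφ1
  have i8 := MOa_i hp.le hq.le hW hφ2
  have i9 := MOa_i hp.le hq.le he hφ1
  have hH : Cl (1 / 2) (1 / 2) (fun y => (((((gf 4 e y * φ y + (deriv e y * deriv φ y -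
      e y * deriv (deriv φ) y)) - w * (y * (e y * φ y))) + m * (e y * φ y))
      + l * (deriv e y * φ y - e y * deriv φ y)) - et y * φ y)) := by
    refine Cl_sub (Cl_add (Cl_add (Cl_sub (Cl_add (MOa_c hp.le hq.le hg hφ)
      (Cl_sub (MOa_c hp.le hq.le (Cl_der hW) hφ1) (MOa_c hp.le hq.le hW hφ2))) (Cl_smul w ?_))
      (Cl_smul m (MOa_c hp.le hq.le hW hφ))) (Cl_smul l (Cl_sub (MOa_c hp.le hq.le (Cl_der hW) hφ)
      (MOa_c hp.le hq.le hW hφ1)))) (MOa_c hp.le hq.le he hφ)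
    exact Cl_mono (Cl_mul (Cl_id (c := 1 / 4) (by norm_num)) (Cl_mul hW hφ)) (by linarith) (by linarith)
  have key : ∫ y, zeta 4 w m l e et y * φ y = ∫ y, (((((((((-(e y * Lop 4 (deriv φ) y)
      + Rf 4 e y * deriv φ y) - w * (Lam 4 (Qf 4) y * φ y)) + m * (deriv (Qf 4) y * φ y))
      + l * (deriv (deriv (Qf 4)) y * φ y)) + w * (e y * Lam 4 φ y)) - m * (e y * deriv φ y))
      + l * (e y * deriv (deriv φ) y)) + et y * deriv φ y)) := by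
    refine Cl_int_eq i0 ?_ hH (by norm_num) (by norm_num) ?_
    · exact ((((((((i1.neg.add i2).sub (i3.const_mul w)).add (i4.const_mul m)).add
        (i5.const_mul l)).add (i6.const_mul w)).sub (i7.const_mul m)).add (i8.const_mul l)).add i9)
    · intro y
      have d1 := Cl_hd hg y
      have d2 := Cl_hd hφ y
      have d3 := Cl_hd (Cl_der hW) y
      have d4 := Cl_hd hφ1 y
      have d5 := Cl_hd hW y
      have d6 := Cl_hd hφ2 y
      have d7 := Cl_hd he y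
      have d8 := hasDerivAt_id y
      have hd := ((((((d1.mul d2).add ((d3.mul d4).sub (d5.mul d6))).sub
        ((d8.mul (d5.mul d2)).const_mul w)).add ((d5.mul d2).const_mul m)).add
        (((d3.mul d2).sub (d5.mul d4)).const_mul l)).sub (d7.mul d2))
      have hd2 := hd.deriv
      have e1 : deriv (fun y => (((((gf 4 e y * φ y + (deriv e y * deriv φ y -
          e y * deriv (deriv φ) y)) - w * (y * (e y * φ y))) + m * (e y * φ y))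
          + l * (deriv e y * φ y - e y * deriv φ y)) - et y * φ y)) y = _ := hd2
      rw [e1]
      simp only [zeta, Nf, Lam, Lop, Rf, gf, id, Pi.mul_apply]
      push_cast
      ring
  unfold ip
  rw [key]
  have j1 := i1.neg.add i2
  have j2 := j1.sub (i3.const_mul w)
  have j3 := j2.add (i4.const_mul m)
  have j4 := j3.add (i5.const_mul l)
  have j5 := j4.add (i6.const_mul w)
  have j6 := j5.sub (i7.const_mul m)
  have j7 := j6.add (i8.const_mul l)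
  have k1 := integral_add j7 i9
  have k2 := integral_add j6 (i8.const_mul l)
  have k3 := integral_sub j5 (i7.const_mul m)
  have k4 := integral_add j4 (i6.const_mul w)
  have k5 := integral_add j3 (i5.const_mul l)
  have k6 := integral_add j2 (i4.const_mul m)
  have k7 := integral_sub j1 (i3.const_mul w)
  have k8 := integral_add i1.neg i2
  simp only [Pi.add_apply, Pi.sub_apply, Pi.neg_apply] at k1 k2 k3 k4 k5 k6 k7 k8
  rw [k1, k2, k3, k4, k5, k6, k7, k8]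
  simp only [integral_const_mul, integral_neg]

theorem pair_ze {p q w m l : ℝ} {W et φ : ℝ → ℝ} (hp : 0 < p) (hq : 0 < q) (hp1 : p ≤ 1) (hq1 : q ≤ 1)
    (hW : Cl p q (fun y => W y - Qf 4 y)) (he : Cl p q et) (hφ : Cl 1 1 φ) :
    ip (ze w m l W et) φ =
      -ip (fun y => W y - Qf 4 y) (Lop 4 (deriv φ)) + ip (Rf 4 (fun y => W y - Qf 4 y)) (deriv φ)
      - w * ip (Lam 4 (Qf 4)) φ + m * ip (deriv (Qf 4)) φ + l * ip (deriv (deriv (Qf 4))) φ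
      + w * ip (fun y => W y - Qf 4 y) (Lam 4 φ) - m * ip (fun y => W y - Qf 4 y) (deriv φ)
      + l * ip (fun y => W y - Qf 4 y) (deriv (deriv φ)) + ip et (deriv φ) :=
  MOa_pair hp hq hp1 hq1 hW he hφ

end H68KC

end

end S_H68_KC_MOa

section S_H98_KB_Eid

/-!
# Eid : identities for `EE ζ = ∫ om(ε'ζ' + (ε-D)ζ)`

`g = -ε''+ε-D`.  All products below are in `Cl (>0) (>0)`: `om ∈ Cl (-2ρ) (2ρ+1/B)` and `ε ∈ Cl p q` with `p > ρ`.
* `EE_g`: `ε'ζ'om = (om ε'ζ)' - om'ε'ζ - om ε''ζ`.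
* `EE_main`: `ζ=g'`: `om g g' = (om g²/2)' - om'g²/2`; `om'ε'g' = (om'ε'g)' - om''ε'g - om'ε''g` and `ε''=ε-D-g`:
  result `-(3/2)∫om'g²+∫om'(ε-D)g+∫om''ε'g`.
* `EE_Qd`: `LQ'=0`: result `-∫om'εQ'' - ∫om R Q'`.
* `EE_d`: `-(1/2)∫om'(ε'²+ε²)+∫om' bF+∫om R Q'` (`bF_hd`).
* `EE_dd`: `-∫omε''²+(1/2)∫om''(ε'²+ε²)-∫omε'²-∫om D ε''`.
* `EE_Lam`: with `Tp = om' - 2ρ om` :
 `EE(Λε)+ρ∫y om(ε'²+ε²-2bF) = (1-s_c)∫omε'²-s_c∫omε²-(2/k)∫om D ε+∫om bF+∫om y R Q'-(1/2)∫y Tp (ε'²+ε²-2bF)`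
 from `ε'(Λε)' = (2/k+1)ε'²+yε'ε''`, `yomε'ε'' = (y om ε'²/2)'-(1/2)(om+y om')ε'²`, `εΛε=(2/k)ε²+yεε'`,
 `y om Dε' = (y om bF)' - (om + y om')bF - y om R Q'`; `2/k+1/2 = 1-s_c`, `2/k-1/2=-s_c`.
-/

open MeasureTheory Filter Topology Set
open scoped ContDiff

namespace H98KB

/-- the energy pairing -/
noncomputable def EE (k : ℕ) (B ρ : ℝ) (ε ζ : ℝ → ℝ) : ℝ :=
  ∫ y, om B ρ y * (deriv ε y * deriv ζ y + (ε y - Df k ε y) * ζ y)

variable {k : ℕ} {B ρ p q p' q' : ℝ} {ε ζ : ℝ → ℝ}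

theorem Eid_B (hs : Slow B ρ) : 0 < B := by have := hs.1; linarith

theorem Eid_pos (hs : Slow B ρ) (hε : Adm ρ p q ε) : 0 < p ∧ 0 < q ∧ 0 < ρ ∧ ρ < p ∧ 0 < 1 / B ∧ p ≤ 1 / 2 :=
  ⟨lt_trans hs.2.1 hε.1, hε.2.2.1, hs.2.1, hε.1, one_div_pos.mpr (Eid_B hs), hε.2.1⟩

theorem Eid_gcl (hk : 1 ≤ k) (hs : Slow B ρ) (hε : Adm ρ p q ε) : Cl p q (gf k ε) :=
  Cl_gf hk (Eid_pos hs hε).1.le hε.2.2.1.le hε.2.2.2.2

theorem Eid_Dcl (hk : 1 ≤ k) (hs : Slow B ρ) (hε : Adm ρ p q ε) : Cl p q (fun y => ε y - Df k ε y) :=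
  Cl_sub hε.2.2.2.2 (Cl_Df hk (Eid_pos hs hε).1.le hε.2.2.1.le hε.2.2.2.2)

theorem Eid_Ecl (hk : 1 ≤ k) (hs : Slow B ρ) (hε : Adm ρ p q ε) (hζ : Cl p' q' ζ) :
    Cl (p + p') (q + q') (fun y => deriv ε y * deriv ζ y + (ε y - Df k ε y) * ζ y) :=
  Cl_add (Cl_mul (Cl_der hε.2.2.2.2) (Cl_der hζ)) (Cl_mul (Eid_Dcl hk hs hε) hζ)

theorem EE_g (hk : 1 ≤ k) (hs : Slow B ρ) (hε : Adm ρ p q ε) (hζ : Cl p' q' ζ)
    (h1 : 2 * ρ < p + p') (h2 : 0 < q + q') :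
    EE k B ρ ε ζ = (∫ y, om B ρ y * (gf k ε y * ζ y)) - ∫ y, deriv (om B ρ) y * (deriv ε y * ζ y) := by
  obtain ⟨hp0, hq0, hρ, hρp, hB1, hp2⟩ := Eid_pos hs hε
  have hC := hε.2.2.2.2
  have hO := Cl_om (Eid_B hs) ρ
  have P1 : 0 < -(2 * ρ) + (p + p') := by linarith
  have P2 : 0 < 2 * ρ + 1 / B + (q + q') := by linarith
  have i1 : Integrable (fun y => om B ρ y * (gf k ε y * ζ y)) :=
    Cl_int (Cl_mul hO (Cl_mul (Eid_gcl hk hs hε) hζ)) P1 P2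
  have i2 : Integrable (fun y => deriv (om B ρ) y * (deriv ε y * ζ y)) :=
    Cl_int (Cl_mul (Cl_der hO) (Cl_mul (Cl_der hC) hζ)) P1 P2
  have i3 : Integrable (fun y => om B ρ y * (deriv ε y * deriv ζ y + (ε y - Df k ε y) * ζ y)) :=
    Cl_int (Cl_mul hO (Eid_Ecl hk hs hε hζ)) P1 P2
  rw [← integral_sub i1 i2, EE]
  refine Cl_int_eq i3 (i1.sub i2) (Cl_mul hO (Cl_mul (Cl_der hC) hζ)) P1 P2 fun y => ?_
  have hd := ((Cl_hd hO y).mul ((Cl_hd (Cl_der hC) y).mul (Cl_hd hζ y))).deriv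
  have e : deriv (fun z => om B ρ z * (deriv ε z * ζ z)) y = deriv (om B ρ) y * (deriv ε y * ζ y)
      + om B ρ y * (deriv (deriv ε) y * ζ y + deriv ε y * deriv ζ y) := hd
  rw [e]
  simp only [gf]
  ring

theorem EE_main (hk : 1 ≤ k) (hs : Slow B ρ) (hε : Adm ρ p q ε) :
    EE k B ρ ε (deriv (gf k ε)) = -(3 / 2) * (∫ y, deriv (om B ρ) y * (gf k ε y) ^ 2)
      + (∫ y, deriv (om B ρ) y * ((ε y - Df k ε y) * gf k ε y))
      + ∫ y, deriv (deriv (om B ρ)) y * (deriv ε y * gf k ε y) := by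
  obtain ⟨hp0, hq0, hρ, hρp, hB1, hp2⟩ := Eid_pos hs hε
  have hC := hε.2.2.2.2
  have hO := Cl_om (Eid_B hs) ρ
  have hg := Eid_gcl hk hs hε
  have hg' := Cl_der hg
  have P1 : 0 < -(2 * ρ) + (p + p) := by linarith
  have P2 : 0 < 2 * ρ + 1 / B + (q + q) := by linarith
  have hgg : Cl (p + p) (q + q) (fun y => (gf k ε y) ^ 2) := by
    have := Cl_mul hg hg
    simpa only [pow_two] using this
  have i1 : Integrable (fun y => deriv (om B ρ) y * (gf k ε y) ^ 2) :=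
    Cl_int (Cl_mul (Cl_der hO) hgg) P1 P2
  have i2 : Integrable (fun y => deriv (om B ρ) y * ((ε y - Df k ε y) * gf k ε y)) :=
    Cl_int (Cl_mul (Cl_der hO) (Cl_mul (Eid_Dcl hk hs hε) hg)) P1 P2
  have i3 : Integrable (fun y => deriv (deriv (om B ρ)) y * (deriv ε y * gf k ε y)) :=
    Cl_int (Cl_mul (Cl_der (Cl_der hO)) (Cl_mul (Cl_der hC) hg)) P1 P2
  have i4 : Integrable (fun y => om B ρ y * (deriv ε y * deriv (deriv (gf k ε)) y
      + (ε y - Df k ε y) * deriv (gf k ε) y)) :=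
    Cl_int (Cl_mul hO (Eid_Ecl hk hs hε hg')) P1 P2
  have i12 := (i1.const_mul (-(3 / 2))).add i2
  rw [EE, ← integral_const_mul, ← integral_add (i1.const_mul (-(3 / 2))) i2]
  have e3 : (∫ y, (-(3 / 2) * (deriv (om B ρ) y * (gf k ε y) ^ 2)
      + deriv (om B ρ) y * ((ε y - Df k ε y) * gf k ε y)))
      + ∫ y, deriv (deriv (om B ρ)) y * (deriv ε y * gf k ε y)
      = ∫ y, ((-(3 / 2) * (deriv (om B ρ) y * (gf k ε y) ^ 2)
      + deriv (om B ρ) y * ((ε y - Df k ε y) * gf k ε y))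
      + deriv (deriv (om B ρ)) y * (deriv ε y * gf k ε y)) := (integral_add i12 i3).symm
  rw [e3]
  have hH : Cl (-(2 * ρ) + (p + p)) (2 * ρ + 1 / B + (q + q))
      (fun y => (om B ρ y * (deriv ε y * deriv (gf k ε) y) + 1 / 2 * (om B ρ y * (gf k ε y) ^ 2))
        - deriv (om B ρ) y * (deriv ε y * gf k ε y)) :=
    Cl_sub (Cl_add (Cl_mul hO (Cl_mul (Cl_der hC) hg')) (Cl_smul (1 / 2) (Cl_mul hO hgg)))
      (Cl_mul (Cl_der hO) (Cl_mul (Cl_der hC) hg))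
  refine Cl_int_eq i4 (i12.add i3) hH P1 P2 fun y => ?_
  have hd : HasDerivAt (fun y => (om B ρ y * (deriv ε y * deriv (gf k ε) y)
      + 1 / 2 * (om B ρ y * (gf k ε y) ^ 2)) - deriv (om B ρ) y * (deriv ε y * gf k ε y))
      (((deriv (om B ρ) y * (deriv ε y * deriv (gf k ε) y) + om B ρ y *
          (deriv (deriv ε) y * deriv (gf k ε) y + deriv ε y * deriv (deriv (gf k ε)) y))
        + 1 / 2 * (deriv (om B ρ) y * (gf k ε y) ^ 2 + om B ρ y * (2 * gf k ε y * deriv (gf k ε) y)))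
        - (deriv (deriv (om B ρ)) y * (deriv ε y * gf k ε y) + deriv (om B ρ) y *
          (deriv (deriv ε) y * gf k ε y + deriv ε y * deriv (gf k ε) y))) y := by
    have a1 := (Cl_hd hO y).mul ((Cl_hd (Cl_der hC) y).mul (Cl_hd hg' y))
    have a2 := ((Cl_hd hO y).mul ((Cl_hd hg y).pow 2)).const_mul (1 / 2 : ℝ)
    have a3 := (Cl_hd (Cl_der hO) y).mul ((Cl_hd (Cl_der hC) y).mul (Cl_hd hg y))
    refine ((a1.add a2).sub a3).congr_deriv ?_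
    simp
  rw [hd.deriv]
  have hgy : gf k ε y = -deriv (deriv ε) y + ε y - Df k ε y := rfl
  have h3 : deriv (deriv ε) y = ε y - Df k ε y - gf k ε y := by rw [hgy]; ring
  rw [h3]
  ring

theorem EE_Qd (hk : 1 ≤ k) (hs : Slow B ρ) (hε : Adm ρ p q ε) :
    EE k B ρ ε (deriv (Qf k)) = -(∫ y, deriv (om B ρ) y * (ε y * deriv (deriv (Qf k)) y))
      - ∫ y, om B ρ y * (Rf k ε y * deriv (Qf k) y) := by
  obtain ⟨hp0, hq0, hρ, hρp, hB1, hp2⟩ := Eid_pos hs hε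
  have hC := hε.2.2.2.2
  have hO := Cl_om (Eid_B hs) ρ
  have hQ := Cl_Qf hk
  have P1 : 0 < -(2 * ρ) + (p + 1) := by linarith
  have P2 : 0 < 2 * ρ + 1 / B + (q + 1) := by linarith
  have i1 : Integrable (fun y => deriv (om B ρ) y * (ε y * deriv (deriv (Qf k)) y)) :=
    Cl_int (Cl_mul (Cl_der hO) (Cl_mul hC (Cl_der (Cl_der hQ)))) P1 P2
  have i2 : Integrable (fun y => om B ρ y * (Rf k ε y * deriv (Qf k) y)) :=
    Cl_int (Cl_mul hO (Cl_mul (Cl_Rf hk hp0.le hq0.le hC) (Cl_der hQ))) P1 P2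
  have i4 : Integrable (fun y => om B ρ y * (deriv ε y * deriv (deriv (Qf k)) y
      + (ε y - Df k ε y) * deriv (Qf k) y)) :=
    Cl_int (Cl_mul hO (Eid_Ecl hk hs hε (Cl_der hQ))) P1 P2
  have e2 : -(∫ y, deriv (om B ρ) y * (ε y * deriv (deriv (Qf k)) y))
      - ∫ y, om B ρ y * (Rf k ε y * deriv (Qf k) y)
      = ∫ y, (-(deriv (om B ρ) y * (ε y * deriv (deriv (Qf k)) y))
        - om B ρ y * (Rf k ε y * deriv (Qf k) y)) := by
    rw [← integral_neg]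
    exact (integral_sub i1.neg i2).symm
  rw [EE, e2]
  refine Cl_int_eq i4 (i1.neg.sub i2) (Cl_mul hO (Cl_mul hC (Cl_der (Cl_der hQ)))) P1 P2 fun y => ?_
  have hd := ((Cl_hd hO y).mul ((Cl_hd hC y).mul (Cl_hd (Cl_der (Cl_der hQ)) y))).deriv
  have e : deriv (fun z => om B ρ z * (ε z * deriv (deriv (Qf k)) z)) y
      = deriv (om B ρ) y * (ε y * deriv (deriv (Qf k)) y)
      + om B ρ y * (deriv ε y * deriv (deriv (Qf k)) y + ε y * deriv (deriv (deriv (Qf k))) y) := hd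
  rw [e]
  have hL := L_Qd hk y
  simp only [Lop] at hL
  have h3 : deriv (deriv (deriv (Qf k))) y = deriv (Qf k) y - (Qf k y) ^ k * deriv (Qf k) y := by linarith
  rw [h3]
  simp only [Rf]
  ring

end H98KB

end S_H98_KB_Eid

section S_H98_KB_Eie

/-!
# Eie (second half of Eid) : identities for `EE ζ = ∫ om(ε'ζ' + (ε-D)ζ)`

`g = -ε''+ε-D`.  All products below are in `Cl (>0) (>0)`: `om ∈ Cl (-2ρ) (2ρ+1/B)` and `ε ∈ Cl p q` with `p > ρ`.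
* `EE_g`: `ε'ζ'om = (om ε'ζ)' - om'ε'ζ - om ε''ζ`.
* `EE_main`: `ζ=g'`: `om g g' = (om g²/2)' - om'g²/2`; `om'ε'g' = (om'ε'g)' - om''ε'g - om'ε''g` and `ε''=ε-D-g`:
  result `-(3/2)∫om'g²+∫om'(ε-D)g+∫om''ε'g`.
* `EE_Qd`: `LQ'=0`: result `-∫om'εQ'' - ∫om R Q'`.
* `EE_d`: `-(1/2)∫om'(ε'²+ε²)+∫om' bF+∫om R Q'` (`bF_hd`).
* `EE_dd`: `-∫omε''²+(1/2)∫om''(ε'²+ε²)-∫omε'²-∫om D ε''`.
* `EE_Lam`: with `Tp = om' - 2ρ om` :
 `EE(Λε)+ρ∫y om(ε'²+ε²-2bF) = (1-s_c)∫omε'²-s_c∫omε²-(2/k)∫om D ε+∫om bF+∫om y R Q'-(1/2)∫y Tp (ε'²+ε²-2bF)`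
 from `ε'(Λε)' = (2/k+1)ε'²+yε'ε''`, `yomε'ε'' = (y om ε'²/2)'-(1/2)(om+y om')ε'²`, `εΛε=(2/k)ε²+yεε'`,
 `y om Dε' = (y om bF)' - (om + y om')bF - y om R Q'`; `2/k+1/2 = 1-s_c`, `2/k-1/2=-s_c`.
-/

open MeasureTheory Filter Topology Set
open scoped ContDiff

namespace H98KB

/-- decaying at both ends -/
def Eie_P (f : ℝ → ℝ) : Prop := ∃ p q : ℝ, 0 < p ∧ 0 < q ∧ Cl p q f

/-- decaying fast enough to be multiplied with `om` -/
def Eie_W (ρ : ℝ) (f : ℝ → ℝ) : Prop := ∃ p q : ℝ, 2 * ρ < p ∧ 0 < q ∧ Cl p q f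

variable {k : ℕ} {B ρ p q p' q' : ℝ} {ε ζ : ℝ → ℝ}

theorem Eie_P_int {f : ℝ → ℝ} (h : Eie_P f) : Integrable f := by
  obtain ⟨p, q, hp, hq, hf⟩ := h
  exact Cl_int hf hp hq

theorem Eie_P_der {f : ℝ → ℝ} (h : Eie_P f) : ∫ y, deriv f y = 0 := by
  obtain ⟨p, q, hp, hq, hf⟩ := h
  exact Cl_int_deriv hf hp hq

theorem Eie_P_add {f g : ℝ → ℝ} (hf : Eie_P f) (hg : Eie_P g) : Eie_P (fun y => f y + g y) := by
  obtain ⟨p, q, hp, hq, hf⟩ := hf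
  obtain ⟨p', q', hp', hq', hg⟩ := hg
  exact ⟨min p p', min q q', lt_min hp hp', lt_min hq hq',
    Cl_add (Cl_mono hf (min_le_left _ _) (min_le_left _ _))
      (Cl_mono hg (min_le_right _ _) (min_le_right _ _))⟩

theorem Eie_P_smul (c : ℝ) {f : ℝ → ℝ} (hf : Eie_P f) : Eie_P (fun y => c * f y) := by
  obtain ⟨p, q, hp, hq, hf⟩ := hf
  exact ⟨p, q, hp, hq, Cl_smul c hf⟩

theorem Eie_W_add {f g : ℝ → ℝ} (hf : Eie_W ρ f) (hg : Eie_W ρ g) :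
    Eie_W ρ (fun y => f y + g y) := by
  obtain ⟨p, q, hp, hq, hf⟩ := hf
  obtain ⟨p', q', hp', hq', hg⟩ := hg
  exact ⟨min p p', min q q', lt_min hp hp', lt_min hq hq',
    Cl_add (Cl_mono hf (min_le_left _ _) (min_le_left _ _))
      (Cl_mono hg (min_le_right _ _) (min_le_right _ _))⟩

theorem Eie_W_sub {f g : ℝ → ℝ} (hf : Eie_W ρ f) (hg : Eie_W ρ g) :
    Eie_W ρ (fun y => f y - g y) := by
  obtain ⟨p, q, hp, hq, hf⟩ := hf
  obtain ⟨p', q', hp', hq', hg⟩ := hg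
  exact ⟨min p p', min q q', lt_min hp hp', lt_min hq hq',
    Cl_sub (Cl_mono hf (min_le_left _ _) (min_le_left _ _))
      (Cl_mono hg (min_le_right _ _) (min_le_right _ _))⟩

theorem Eie_W_smul (c : ℝ) {f : ℝ → ℝ} (hf : Eie_W ρ f) : Eie_W ρ (fun y => c * f y) := by
  obtain ⟨p, q, hp, hq, hf⟩ := hf
  exact ⟨p, q, hp, hq, Cl_smul c hf⟩

theorem Eie_W_y {f : ℝ → ℝ} (hf : Eie_W ρ f) : Eie_W ρ (fun y => y * f y) := by
  obtain ⟨p, q, hp, hq, hf⟩ := hf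
  have hc : 0 < min ((p - 2 * ρ) / 2) (q / 2) := lt_min (by linarith) (by linarith)
  have h1 := min_le_left ((p - 2 * ρ) / 2) (q / 2)
  have h2 := min_le_right ((p - 2 * ρ) / 2) (q / 2)
  exact ⟨_, _, by linarith, by linarith, Cl_mul (Cl_id hc) hf⟩

theorem Eie_om (hs : Slow B ρ) {w f : ℝ → ℝ} (hw : Cl (-(2 * ρ)) (2 * ρ + 1 / B) w)
    (hf : Eie_W ρ f) : Eie_P (fun y => w y * f y) := by
  obtain ⟨p, q, hp, hq, hf⟩ := hf
  obtain ⟨hB, hρ, -⟩ := hs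
  have hB' : 0 < 1 / B := by positivity
  exact ⟨_, _, by linarith, by linarith, Cl_mul hw hf⟩

theorem Eie_om0 (hs : Slow B ρ) : Cl (-(2 * ρ)) (2 * ρ + 1 / B) (om B ρ) :=
  Cl_om (by linarith [hs.1]) ρ

theorem Eie_om1 (hs : Slow B ρ) : Cl (-(2 * ρ)) (2 * ρ + 1 / B) (deriv (om B ρ)) :=
  Cl_der (Eie_om0 hs)

theorem Eie_om2 (hs : Slow B ρ) : Cl (-(2 * ρ)) (2 * ρ + 1 / B) (deriv (deriv (om B ρ))) :=
  Cl_der (Eie_om1 hs)

/-- products of two functions of the class of `ε` -/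
theorem Eie_quad (hε : Adm ρ p q ε) {f g : ℝ → ℝ} (hf : Cl p q f) (hg : Cl p q g) :
    Eie_W ρ (fun y => f y * g y) := by
  obtain ⟨h1, h2, h3, h4, h5⟩ := hε
  exact ⟨_, _, by linarith, by linarith, Cl_mul hf hg⟩

theorem Eie_sq (hε : Adm ρ p q ε) {f : ℝ → ℝ} (hf : Cl p q f) :
    Eie_W ρ (fun y => f y ^ 2) := by
  have h := Eie_quad hε hf hf
  have e : (fun y => f y ^ 2) = fun y => f y * f y := by
    funext y
    ring
  rw [e]
  exact h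

theorem Eie_bF (hk : 1 ≤ k) (hs : Slow B ρ) (hε : Adm ρ p q ε) : Eie_W ρ (bF k ε) := by
  have hρ := hs.2.1
  obtain ⟨h1, h2, h3, h4, h5⟩ := hε
  exact ⟨_, _, by linarith, by linarith,
    Cl_bF hk (by linarith) h3.le (by linarith) (by linarith) h5⟩

theorem Eie_RQ (hk : 1 ≤ k) (hs : Slow B ρ) (hε : Adm ρ p q ε) :
    Eie_W ρ (fun y => Rf k ε y * deriv (Qf k) y) := by
  have hρ := hs.2.1
  obtain ⟨h1, h2, h3, h4, h5⟩ := hε
  exact ⟨_, _, by linarith, by linarith,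
    Cl_mul (Cl_Rf hk (by linarith) h3.le h5) (Cl_der (Cl_Qf hk))⟩

theorem Eie_cl (hε : Adm ρ p q ε) : Cl p q ε := hε.2.2.2.2

theorem Eie_D (hk : 1 ≤ k) (hs : Slow B ρ) (hε : Adm ρ p q ε) : Cl p q (Df k ε) := by
  have hρ := hs.2.1
  obtain ⟨h1, h2, h3, h4, h5⟩ := hε
  exact Cl_Df hk (by linarith) h3.le h5

theorem Eie_ia {f g : ℝ → ℝ} (hf : Integrable f) (hg : Integrable g) :
    Integrable (fun y => f y + g y) := hf.add hg

theorem Eie_is {f g : ℝ → ℝ} (hf : Integrable f) (hg : Integrable g) :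
    Integrable (fun y => f y - g y) := hf.sub hg

/-- integral identity from a primitive -/
theorem Eie_eq {F G H : ℝ → ℝ} (hG : Integrable G) (hH : Eie_P H)
    (h : ∀ y, F y = G y + deriv H y) : ∫ y, F y = ∫ y, G y := by
  obtain ⟨p, q, hp, hq, hH'⟩ := hH
  have hi : Integrable (deriv H) := Cl_int (Cl_der hH') hp hq
  have e : F = fun y => G y + deriv H y := funext h
  rw [e, integral_add hG hi, Cl_int_deriv hH' hp hq, add_zero]

theorem EE_d (hk : 1 ≤ k) (hs : Slow B ρ) (hε : Adm ρ p q ε) :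
    EE k B ρ ε (deriv ε) = -(1 / 2) * (∫ y, deriv (om B ρ) y * ((deriv ε y) ^ 2 + (ε y) ^ 2))
      + (∫ y, deriv (om B ρ) y * bF k ε y) + ∫ y, om B ρ y * (Rf k ε y * deriv (Qf k) y) := by
  have c0 := Eie_cl hε
  have c1 := Cl_der c0
  have w1 : Eie_W ρ (fun y => (deriv ε y) ^ 2 + (ε y) ^ 2) := Eie_W_add (Eie_sq hε c1) (Eie_sq hε c0)
  have w2 := Eie_bF hk hs hε
  have w3 := Eie_RQ hk hs hε
  have P1 : Integrable (fun y => deriv (om B ρ) y * ((deriv ε y) ^ 2 + (ε y) ^ 2)) :=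
    Eie_P_int (Eie_om hs (Eie_om1 hs) w1)
  have P2 : Integrable (fun y => deriv (om B ρ) y * bF k ε y) := Eie_P_int (Eie_om hs (Eie_om1 hs) w2)
  have P3 : Integrable (fun y => om B ρ y * (Rf k ε y * deriv (Qf k) y)) :=
    Eie_P_int (Eie_om hs (Eie_om0 hs) w3)
  have hH : Eie_P (fun y => om B ρ y * (1 / 2 * ((deriv ε y) ^ 2 + (ε y) ^ 2) - bF k ε y)) :=
    Eie_om hs (Eie_om0 hs) (Eie_W_sub (Eie_W_smul (1 / 2) w1) w2)
  have hG : Integrable (fun y => (-(1 / 2)) * (deriv (om B ρ) y * ((deriv ε y) ^ 2 + (ε y) ^ 2))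
      + deriv (om B ρ) y * bF k ε y + om B ρ y * (Rf k ε y * deriv (Qf k) y)) :=
    Eie_ia (Eie_ia (P1.const_mul _) P2) P3
  unfold EE
  rw [Eie_eq hG hH]
  · rw [integral_add (Eie_ia (P1.const_mul _) P2) P3]
    congr 1
    rw [integral_add (P1.const_mul _) P2, integral_const_mul]
  · intro y
    have d1 := Cl_hd (Eie_om0 hs) y
    have d2 := (Cl_hd c1 y).pow 2
    have d3 := (Cl_hd c0 y).pow 2
    have d4 := bF_hd hk c0 y
    have hd := d1.mul (((d2.add d3).const_mul (1 / 2)).sub d4)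
    have e1 : deriv (fun y => om B ρ y * (1 / 2 * ((deriv ε y) ^ 2 + (ε y) ^ 2) - bF k ε y)) y = _ :=
      hd.deriv
    rw [e1]
    simp only [Pi.pow_apply, Pi.add_apply, Pi.sub_apply]
    ring

theorem EE_dd (hk : 1 ≤ k) (hs : Slow B ρ) (hε : Adm ρ p q ε) :
    EE k B ρ ε (deriv (deriv ε)) = -(∫ y, om B ρ y * (deriv (deriv ε) y) ^ 2)
      + 1 / 2 * (∫ y, deriv (deriv (om B ρ)) y * ((deriv ε y) ^ 2 + (ε y) ^ 2))
      - (∫ y, om B ρ y * (deriv ε y) ^ 2) - ∫ y, om B ρ y * (Df k ε y * deriv (deriv ε) y) := by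
  have c0 := Eie_cl hε
  have c1 := Cl_der c0
  have c2 := Cl_der c1
  have cD := Eie_D hk hs hε
  have w0 := Eie_sq hε c0
  have w1 := Eie_sq hε c1
  have w2 := Eie_sq hε c2
  have w3 : Eie_W ρ (fun y => (deriv ε y) ^ 2 + (ε y) ^ 2) := Eie_W_add w1 w0
  have P1 : Integrable (fun y => om B ρ y * (deriv (deriv ε) y) ^ 2) :=
    Eie_P_int (Eie_om hs (Eie_om0 hs) w2)
  have P2 : Integrable (fun y => deriv (deriv (om B ρ)) y * ((deriv ε y) ^ 2 + (ε y) ^ 2)) :=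
    Eie_P_int (Eie_om hs (Eie_om2 hs) w3)
  have P3 : Integrable (fun y => om B ρ y * (deriv ε y) ^ 2) :=
    Eie_P_int (Eie_om hs (Eie_om0 hs) w1)
  have P4 : Integrable (fun y => om B ρ y * (Df k ε y * deriv (deriv ε) y)) :=
    Eie_P_int (Eie_om hs (Eie_om0 hs) (Eie_quad hε cD c2))
  have hH : Eie_P (fun y => om B ρ y * (deriv ε y * deriv (deriv ε) y + ε y * deriv ε y) +
      deriv (om B ρ) y * (-(1 / 2) * ((deriv ε y) ^ 2 + (ε y) ^ 2))) :=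
    Eie_P_add (Eie_om hs (Eie_om0 hs) (Eie_W_add (Eie_quad hε c1 c2) (Eie_quad hε c0 c1)))
      (Eie_om hs (Eie_om1 hs) (Eie_W_smul _ w3))
  have Q1 : Integrable (fun y => -(om B ρ y * (deriv (deriv ε) y) ^ 2)) := P1.neg
  have Q2 : Integrable (fun y => 1 / 2 * (deriv (deriv (om B ρ)) y * ((deriv ε y) ^ 2 + (ε y) ^ 2))) :=
    P2.const_mul _
  have Q12 := Eie_ia Q1 Q2
  have Q123 := Eie_is Q12 P3
  have hG : Integrable (fun y => -(om B ρ y * (deriv (deriv ε) y) ^ 2) +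
      1 / 2 * (deriv (deriv (om B ρ)) y * ((deriv ε y) ^ 2 + (ε y) ^ 2)) -
      om B ρ y * (deriv ε y) ^ 2 - om B ρ y * (Df k ε y * deriv (deriv ε) y)) := Q123.sub P4
  unfold EE
  rw [Eie_eq hG hH]
  · rw [integral_sub Q123 P4]
    congr 1
    rw [integral_sub Q12 P3]
    congr 1
    rw [integral_add Q1 Q2, integral_neg, integral_const_mul]
  · intro y
    have d0 := Cl_hd (Eie_om0 hs) y
    have d1 := Cl_hd (Eie_om1 hs) y
    have e0 := Cl_hd c0 y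
    have e1 := Cl_hd c1 y
    have e2 := Cl_hd c2 y
    have hd := (d0.mul ((e1.mul e2).add (e0.mul e1))).add
      (d1.mul (((e1.pow 2).add (e0.pow 2)).const_mul (-(1 / 2))))
    have f1 : deriv (fun y => om B ρ y * (deriv ε y * deriv (deriv ε) y + ε y * deriv ε y) +
      deriv (om B ρ) y * (-(1 / 2) * ((deriv ε y) ^ 2 + (ε y) ^ 2))) y = _ := hd.deriv
    rw [f1]
    simp only [Pi.pow_apply, Pi.add_apply, Pi.mul_apply]
    ring

theorem EE_Lam (hk : 1 ≤ k) (hs : Slow B ρ) (hε : Adm ρ p q ε) :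
    EE k B ρ ε (Lam k ε) + ρ * (∫ y, y * om B ρ y * ((deriv ε y) ^ 2 + (ε y) ^ 2 - 2 * bF k ε y)) =
      (1 - sc k) * (∫ y, om B ρ y * (deriv ε y) ^ 2) - sc k * (∫ y, om B ρ y * (ε y) ^ 2)
      - 2 / (k : ℝ) * (∫ y, om B ρ y * (Df k ε y * ε y)) + (∫ y, om B ρ y * bF k ε y)
      + (∫ y, om B ρ y * (y * (Rf k ε y * deriv (Qf k) y)))
      - 1 / 2 * ∫ y, y * (deriv (om B ρ) y - 2 * ρ * om B ρ y) *
          ((deriv ε y) ^ 2 + (ε y) ^ 2 - 2 * bF k ε y) := by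
  have c0 := Eie_cl hε
  have c1 := Cl_der c0
  have c2 := Cl_der c1
  have cD := Eie_D hk hs hε
  have w0 := Eie_sq hε c0
  have w1 := Eie_sq hε c1
  have wb := Eie_bF hk hs hε
  have wq : Eie_W ρ (fun y => (deriv ε y) ^ 2 + (ε y) ^ 2 - 2 * bF k ε y) :=
    Eie_W_sub (Eie_W_add w1 w0) (Eie_W_smul 2 wb)
  have wyq := Eie_W_y wq
  have wL : Cl p q (fun y => ε y - Df k ε y) := Cl_sub c0 cD
  -- the integrand of `EE`
  have hLam : ∀ y, HasDerivAt (Lam k ε) ((2 / (k : ℝ) + 1) * deriv ε y + y * deriv (deriv ε) y) y := by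
    intro y
    have h1 := ((Cl_hd c0 y).const_mul (2 / (k : ℝ))).add ((hasDerivAt_id' y).mul (Cl_hd c1 y))
    refine h1.congr_deriv ?_
    ring
  have hEE : ∀ y, om B ρ y * (deriv ε y * deriv (Lam k ε) y + (ε y - Df k ε y) * Lam k ε y) =
      om B ρ y * ((2 / (k : ℝ) + 1) * (deriv ε y) ^ 2 + y * (deriv ε y * deriv (deriv ε) y) +
        (2 / (k : ℝ) * ((ε y - Df k ε y) * ε y) + y * ((ε y - Df k ε y) * deriv ε y))) := by
    intro y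
    rw [(hLam y).deriv, Lam]
    ring
  have PE : Integrable (fun y => om B ρ y *
      (deriv ε y * deriv (Lam k ε) y + (ε y - Df k ε y) * Lam k ε y)) := by
    have h1 : Eie_P (fun y => om B ρ y * ((2 / (k : ℝ) + 1) * (deriv ε y) ^ 2 +
        y * (deriv ε y * deriv (deriv ε) y) +
        (2 / (k : ℝ) * ((ε y - Df k ε y) * ε y) + y * ((ε y - Df k ε y) * deriv ε y)))) :=
      Eie_om hs (Eie_om0 hs) (Eie_W_add (Eie_W_add (Eie_W_smul _ w1) (Eie_W_y (Eie_quad hε c1 c2)))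
        (Eie_W_add (Eie_W_smul _ (Eie_quad hε wL c0)) (Eie_W_y (Eie_quad hε wL c1))))
    have h2 := Eie_P_int h1
    refine h2.congr (Eventually.of_forall fun y => (hEE y).symm)
  have Pρ : Integrable (fun y => y * om B ρ y * ((deriv ε y) ^ 2 + (ε y) ^ 2 - 2 * bF k ε y)) := by
    refine (Eie_P_int (Eie_om hs (Eie_om0 hs) wyq)).congr (Eventually.of_forall fun y => ?_)
    simp only
    ring
  have P1 : Integrable (fun y => om B ρ y * (deriv ε y) ^ 2) :=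
    Eie_P_int (Eie_om hs (Eie_om0 hs) w1)
  have P2 : Integrable (fun y => om B ρ y * (ε y) ^ 2) :=
    Eie_P_int (Eie_om hs (Eie_om0 hs) w0)
  have P3 : Integrable (fun y => om B ρ y * (Df k ε y * ε y)) :=
    Eie_P_int (Eie_om hs (Eie_om0 hs) (Eie_quad hε cD c0))
  have P4 : Integrable (fun y => om B ρ y * bF k ε y) :=
    Eie_P_int (Eie_om hs (Eie_om0 hs) wb)
  have P5 : Integrable (fun y => om B ρ y * (y * (Rf k ε y * deriv (Qf k) y))) :=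
    Eie_P_int (Eie_om hs (Eie_om0 hs) (Eie_W_y (Eie_RQ hk hs hε)))
  have P6 : Integrable (fun y => y * (deriv (om B ρ) y - 2 * ρ * om B ρ y) *
      ((deriv ε y) ^ 2 + (ε y) ^ 2 - 2 * bF k ε y)) := by
    have h1 := Eie_P_int (Eie_om hs (Eie_om1 hs) wyq)
    have h2 := (Eie_P_int (Eie_om hs (Eie_om0 hs) wyq)).const_mul (2 * ρ)
    refine (h1.sub h2).congr (Eventually.of_forall fun y => ?_)
    simp only [Pi.sub_apply]
    ring
  have hH : Eie_P (fun y => om B ρ y *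
      (1 / 2 * (y * ((deriv ε y) ^ 2 + (ε y) ^ 2 - 2 * bF k ε y)))) :=
    Eie_om hs (Eie_om0 hs) (Eie_W_smul _ wyq)
  -- split both sides
  have Q1 : Integrable (fun y => (1 - sc k) * (om B ρ y * (deriv ε y) ^ 2)) := P1.const_mul _
  have Q2 : Integrable (fun y => sc k * (om B ρ y * (ε y) ^ 2)) := P2.const_mul _
  have Q3 : Integrable (fun y => 2 / (k : ℝ) * (om B ρ y * (Df k ε y * ε y))) := P3.const_mul _
  have Q6 : Integrable (fun y => 1 / 2 * (y * (deriv (om B ρ) y - 2 * ρ * om B ρ y) *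
      ((deriv ε y) ^ 2 + (ε y) ^ 2 - 2 * bF k ε y))) := P6.const_mul _
  have Qρ : Integrable (fun y => ρ * (y * om B ρ y *
      ((deriv ε y) ^ 2 + (ε y) ^ 2 - 2 * bF k ε y))) := Pρ.const_mul _
  have R1 := Eie_is Q1 Q2
  have R2 := Eie_is R1 Q3
  have R3 := Eie_ia R2 P4
  have R4 := Eie_ia R3 P5
  have R5 : Integrable (fun y => (1 - sc k) * (om B ρ y * (deriv ε y) ^ 2) -
      sc k * (om B ρ y * (ε y) ^ 2) - 2 / (k : ℝ) * (om B ρ y * (Df k ε y * ε y)) +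
      om B ρ y * bF k ε y + om B ρ y * (y * (Rf k ε y * deriv (Qf k) y)) -
      1 / 2 * (y * (deriv (om B ρ) y - 2 * ρ * om B ρ y) *
      ((deriv ε y) ^ 2 + (ε y) ^ 2 - 2 * bF k ε y))) := R4.sub Q6
  have eL : EE k B ρ ε (Lam k ε) +
      ρ * (∫ y, y * om B ρ y * ((deriv ε y) ^ 2 + (ε y) ^ 2 - 2 * bF k ε y)) =
      ∫ y, (om B ρ y * (deriv ε y * deriv (Lam k ε) y + (ε y - Df k ε y) * Lam k ε y) +
        ρ * (y * om B ρ y * ((deriv ε y) ^ 2 + (ε y) ^ 2 - 2 * bF k ε y))) := by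
    unfold EE
    rw [integral_add PE Qρ, integral_const_mul]
  rw [eL, Eie_eq R5 hH]
  · rw [integral_sub R4 Q6, integral_const_mul]
    congr 1
    rw [integral_add R3 P5]
    congr 1
    rw [integral_add R2 P4]
    congr 1
    rw [integral_sub R1 Q3, integral_const_mul]
    congr 1
    rw [integral_sub Q1 Q2, integral_const_mul, integral_const_mul]
  · intro y
    have d0 := Cl_hd (Eie_om0 hs) y
    have e0 := Cl_hd c0 y
    have e1 := Cl_hd c1 y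
    have d4 := bF_hd hk c0 y
    have hd := d0.mul (((hasDerivAt_id' y).mul
      ((((e1.pow 2).add (e0.pow 2)).sub (d4.const_mul 2)))).const_mul (1 / 2))
    have f1 : deriv (fun y => om B ρ y *
      (1 / 2 * (y * ((deriv ε y) ^ 2 + (ε y) ^ 2 - 2 * bF k ε y)))) y = _ := hd.deriv
    rw [f1, hEE, sc]
    simp only [Pi.pow_apply, Pi.add_apply, Pi.mul_apply, Pi.sub_apply]
    ring

end H98KB

end S_H98_KB_Eie
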