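import Mathlib
import Pool.Agent.H98.BU.G05
import Pool.Agent.H98.BU.G06

/-! Blow-up for `u_t + u^k u_x + u_xxx - u_xx = 0`, part G07: this file joins several modules
to save build time (`Pool/Agent/H98/{KB,KC}`, `H72/{KB,KC}`, `H68/KC`, `H37/{KB,KC}`). -/

section S_H98_KC_Wzb

/-!
# Wzb (MP_95be7d_S4): pointwise bounds for the weights (uses the statements of `Wza`)

* `om4_lo`: `Th B y = 1/(1+e^{-y/B}) ≥ (1/2)e^{-|y|/B}`, `Zf(s y) ≥ (1/15)e^{-2s|y|}`, `2s ≤ 1/(8B)`.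
* `ta_lo`: `deriv (Th B) = Th(1-Th)/B = 1/(B(2+2cosh(y/B))) ≥ (1/(4B))e^{-|y|/B}`.
* `ch B y ≤ 4 e^{-2|y|/B}` (`se2_hi`, `ch_eq'`).  `ych_le_ta`: `(1+|y|)e^{-|y|/(4B)} ≤ 4B` (`1+x ≤ e^x`: `1+|y| ≤ 4B(1+|y|/(4B)) ≤ 4B e^{|y|/4B}`), so
  `(1+|y|)²ch ≤ 64B²e^{-3|y|/(2B)} ≤ 64B²·60B·ta`.
* `rat_le`: `y ≤ 0`: `Th ≤ 1/2`... `Th' = Th(1-Th)/B ≥ Th/(2B)` so `ta ≥ om4/(2B)`, `om4² ≤ 2B om4 ta ≤ 2B e^{y/B}ta` (`om4 ≤ Th ≤ e^{y/B}`), `bd (1/2) 0 y = 1`.
  `y ≥ 0`: `ta ≥ Th'Z ≥ (1/(4B))e^{-y/B}Z`, `om4² ≤ Z² ≤ Z ≤ 4B e^{y/B} ta`, `bd(1/2) 0 y² = e^{-y}`, `e^{y/B-y} ≤ e^{-y/B}` (`2/B ≤ 1`).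
* `ta_bd`: `y ≤ 0`: `ta ≤ (2/B)om4 ≤ (2/B) Th ≤ (2/B) e^{y/B}`; `y ≥ 0`: `ta ≤ 2/B ≤ 1`, `e^{-y} ≤ e^{-y/B}`.
* `int_om4`: `om4 ≤ Zf(s y)`, `∫ sech²(s y - 2) dy = 2/s` (primitive `tanh(s y-2)/s`; or substitution and `∫ sech² = 2`), monotonicity.
* `bi_le_om`: for `y ≥ 1/s`: `|s y · Z'(s y)| ≤ 2ξ sech²(ξ-2)`, `ξ = (ξ-2)+2 ≤ 3 cosh(ξ-2)` (`x ≤ cosh x`, `1 ≤ cosh x`).
* `bi_int`: `bi s ≤ sech(s y-2)`, which is `Cl s s` (as in `Cl_Zs`), measurable indicator.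
-/

open MeasureTheory Filter Topology Set
open scoped ContDiff

noncomputable section

namespace H98KC

open H98KB H68KC

variable {B s : ℝ}

theorem Wzb_h (h : Slow4 B s) : 0 < B ∧ 16 ≤ B ∧ 0 < s ∧ 4 * s ≤ 1 / (2 * B) := by
  obtain ⟨h1, h2, h3⟩ := h
  refine ⟨by linarith, h1, h2, ?_⟩
  rw [le_div_iff₀ (by linarith)]
  nlinarith

theorem Wzb_sy (h : Slow4 B s) (y : ℝ) : 2 * |s * y| ≤ |y| / (2 * B) := by
  obtain ⟨hB, hB16, hs, h4⟩ := Wzb_h h
  rw [abs_mul, abs_of_pos hs]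
  have h5 := mul_le_mul_of_nonneg_right h4 (abs_nonneg y)
  have h6 : 1 / (2 * B) * |y| = |y| / (2 * B) := by ring
  rw [h6] at h5
  have h7 : 0 ≤ s * |y| := by positivity
  linarith

theorem Wzb_Z (h : Slow4 B s) (y : ℝ) : 1 / 15 * Real.exp (-(|y| / (2 * B))) ≤ Zf (s * y) := by
  refine le_trans ?_ (Zf_lo (s * y))
  apply mul_le_mul_of_nonneg_left _ (by norm_num)
  rw [Real.exp_le_exp]
  linarith [Wzb_sy h y]

theorem Wzb_d (h : Slow4 B s) (y : ℝ) : deriv (Th B) y = Th B y * (1 - Th B y) / B :=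
  (Th_hd (Wzb_h h).1 y).deriv

theorem om4_lo (h : Slow4 B s) (y : ℝ) :
    1 / 30 * Real.exp (-(3 * |y| / (2 * B))) ≤ om4 B s y := by
  obtain ⟨hB, hB16, hs, h4⟩ := Wzb_h h
  unfold om4
  rw [Wts_exp]
  have h1 := mul_le_mul (Wts_lo hB y) (Wzb_Z h y) (by positivity) (Th_pos B y).le
  refine le_trans (le_of_eq ?_) h1
  ring

theorem Wzb_ta (h : Slow4 B s) (y : ℝ) : Th B y * (1 - Th B y) / B * Zf (s * y) ≤ ta B s y := by
  obtain ⟨hB, hB16, hs, h4⟩ := Wzb_h h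
  unfold ta
  rw [Wzb_d h]
  apply mul_le_mul_of_nonneg_right _ (Zf_pos _).le
  have := mul_pos hs (Th_pos B y)
  linarith

theorem ta_lo (h : Slow4 B s) (y : ℝ) :
    1 / (60 * B) * Real.exp (-(3 * |y| / (2 * B))) ≤ ta B s y := by
  obtain ⟨hB, hB16, hs, h4⟩ := Wzb_h h
  refine le_trans ?_ (Wzb_ta h y)
  rw [Wts_exp]
  have h0 : 1 / 4 * Real.exp (-(|y| / B)) / B ≤ Th B y * (1 - Th B y) / B :=
    div_le_div_of_nonneg_right (Wts_lo2 hB y) hB.le
  have h2 : 0 ≤ Th B y * (1 - Th B y) / B := le_trans (by positivity) h0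
  have h1 := mul_le_mul h0 (Wzb_Z h y) (by positivity) h2
  refine le_trans (le_of_eq ?_) h1
  field_simp
  ring

theorem ta_hi (h : Slow4 B s) (y : ℝ) : ta B s y ≤ 2 / B := by
  obtain ⟨hB, hB16, hs, h4⟩ := Wzb_h h
  have h1 := ta_le h y
  have h2 := om4_le_one B s y
  have h3 : 0 ≤ 2 / B := by positivity
  have h5 := mul_le_mul_of_nonneg_left h2 h3
  linarith

theorem Wzb_lo (h : Slow4 B s) (y : ℝ) :
    Real.exp (-(3 * |y| / (2 * B))) ≤ 60 * B * ta B s y := by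
  obtain ⟨hB, hB16, hs, h4⟩ := Wzb_h h
  have h1 := mul_le_mul_of_nonneg_left (ta_lo h y) (by positivity : (0 : ℝ) ≤ 60 * B)
  have h2 : 60 * B * (1 / (60 * B) * Real.exp (-(3 * |y| / (2 * B)))) =
      Real.exp (-(3 * |y| / (2 * B))) := by
    field_simp
  rwa [h2] at h1

theorem ch_le_om4 (h : Slow4 B s) (y : ℝ) : ch B y ≤ 120 * om4 B s y := by
  obtain ⟨hB, hB16, hs, h4⟩ := Wzb_h h
  linarith [Wts_ch hB y, om4_lo h y, Wts_mono hB y]

theorem ch_le_ta (h : Slow4 B s) (y : ℝ) : ch B y ≤ 240 * B * ta B s y := by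
  obtain ⟨hB, hB16, hs, h4⟩ := Wzb_h h
  linarith [Wts_ch hB y, Wzb_lo h y, Wts_mono hB y]

theorem ych_le_ta (h : Slow4 B s) (y : ℝ) :
    (1 + |y|) ^ 2 * ch B y ≤ 4000 * B ^ 3 * ta B s y := by
  obtain ⟨hB, hB16, hs, h4⟩ := Wzb_h h
  have h0 := abs_nonneg y
  have hE : 0 < Real.exp (-(|y| / (4 * B))) := Real.exp_pos _
  have h3 : (1 + |y|) * Real.exp (-(|y| / (4 * B))) ≤ 4 * B := by
    have h5 := Real.add_one_le_exp (|y| / (4 * B))
    have h6 : 1 + |y| ≤ 4 * B * Real.exp (|y| / (4 * B)) := by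
      have h7 := mul_le_mul_of_nonneg_left h5 (by positivity : (0 : ℝ) ≤ 4 * B)
      have h8 : 4 * B * (|y| / (4 * B) + 1) = |y| + 4 * B := by
        field_simp
      rw [h8] at h7
      linarith
    have h8 := mul_le_mul_of_nonneg_right h6 hE.le
    have h9 : 4 * B * Real.exp (|y| / (4 * B)) * Real.exp (-(|y| / (4 * B))) = 4 * B := by
      rw [mul_assoc, ← Real.exp_add, add_neg_cancel, Real.exp_zero, mul_one]
    rw [h9] at h8
    exact h8
  have h2 : Real.exp (-(2 * |y| / B)) =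
      Real.exp (-(3 * |y| / (2 * B))) * (Real.exp (-(|y| / (4 * B)))) ^ 2 := by
    rw [← Real.exp_nat_mul, ← Real.exp_add]
    congr 1
    push_cast
    field_simp
    ring
  have h5 : ((1 + |y|) * Real.exp (-(|y| / (4 * B)))) ^ 2 ≤ (4 * B) ^ 2 :=
    pow_le_pow_left₀ (by positivity) h3 2
  have h6 := mul_le_mul_of_nonneg_left (Wts_ch hB y) (by positivity : (0 : ℝ) ≤ (1 + |y|) ^ 2)
  rw [h2] at h6
  have h7 := mul_le_mul_of_nonneg_left h5 (Real.exp_pos (-(3 * |y| / (2 * B)))).le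
  have h8 := mul_le_mul_of_nonneg_left (Wzb_lo h y) (by positivity : (0 : ℝ) ≤ 64 * B ^ 2)
  have h9 : 0 ≤ B ^ 3 * ta B s y := mul_nonneg (by positivity) (ta_pos h y).le
  have h10 : (1 + |y|) ^ 2 * (4 * (Real.exp (-(3 * |y| / (2 * B))) * (Real.exp (-(|y| / (4 * B)))) ^ 2)) =
      4 * (Real.exp (-(3 * |y| / (2 * B))) * ((1 + |y|) * Real.exp (-(|y| / (4 * B)))) ^ 2) := by ring
  rw [h10] at h6
  have h11 : 64 * B ^ 2 * (60 * B * ta B s y) = 3840 * (B ^ 3 * ta B s y) := by ring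
  rw [h11] at h8
  have h12 : Real.exp (-(3 * |y| / (2 * B))) * (4 * B) ^ 2 = 16 * B ^ 2 * Real.exp (-(3 * |y| / (2 * B))) := by ring
  rw [h12] at h7
  have h13 : 4000 * B ^ 3 * ta B s y = 4000 * (B ^ 3 * ta B s y) := by ring
  rw [h13]
  linarith

theorem Wzb_ex (h : Slow4 B s) (y : ℝ) :
    Real.exp (-(|y| / 2)) ≤ Real.exp (-(3 * |y| / (2 * B))) := by
  obtain ⟨hB, hB16, hs, h4⟩ := Wzb_h h
  rw [Real.exp_le_exp]
  have h1 : 1 / B ≤ 1 / 16 := one_div_le_one_div_of_le (by norm_num) hB16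
  have h2 := mul_le_mul_of_nonneg_right h1 (abs_nonneg y)
  have h3 : 3 * |y| / (2 * B) = 3 / 2 * (1 / B * |y|) := by ring
  rw [h3]
  have := abs_nonneg y
  linarith

theorem ex_le_ta (h : Slow4 B s) (y : ℝ) : Real.exp (-(|y| / 2)) ≤ 60 * B * ta B s y :=
  le_trans (Wzb_ex h y) (Wzb_lo h y)

theorem ex_le_om4 (h : Slow4 B s) (y : ℝ) : Real.exp (-(|y| / 2)) ≤ 30 * om4 B s y := by
  linarith [Wzb_ex h y, om4_lo h y]

theorem Wzb_Th (hB : 0 < B) {y : ℝ} : Th B y ≤ Real.exp (y / B) := by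
  unfold Th
  rw [div_le_iff₀ (by positivity), mul_add, mul_one, ← Real.exp_add]
  have h1 : y / B + -y / B = 0 := by ring
  rw [h1, Real.exp_zero]
  linarith [Real.exp_pos (y / B)]

theorem Wzb_Thle (hB : 0 < B) {y : ℝ} (hy : y ≤ 0) : Th B y ≤ 1 / 2 := by
  have h1 := Wts_half hB (y := -y) (by linarith)
  linarith [Th_neg hB y]

theorem Wzb_om (B s y : ℝ) : om4 B s y ≤ Th B y := by
  unfold om4
  exact mul_le_of_le_one_right (Th_pos B y).le (Zf_le_one _)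

theorem rat_le (h : Slow4 B s) (y : ℝ) : (om4 B s y) ^ 2 * (bd (1 / 2) 0 y) ^ 2 ≤
    4 * B * Real.exp (-(|y| / B)) * ta B s y := by
  obtain ⟨hB, hB16, hs, h4⟩ := Wzb_h h
  have ho := om4_pos B s y
  have ht := ta_pos h y
  have hta := Wzb_ta h y
  have hZ := Zf_pos (s * y)
  rcases le_total y 0 with hy | hy
  · rw [bd_of_nonpos hy, abs_of_nonpos hy]
    have e1 : (Real.exp (0 * y)) ^ 2 = 1 := by
      rw [zero_mul, Real.exp_zero]
      norm_num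
    rw [e1, mul_one]
    have h1 : om4 B s y ≤ 2 * B * ta B s y := by
      have h2 : Th B y * (1 / 2) / B * Zf (s * y) ≤ Th B y * (1 - Th B y) / B * Zf (s * y) := by
        apply mul_le_mul_of_nonneg_right _ hZ.le
        apply div_le_div_of_nonneg_right _ hB.le
        apply mul_le_mul_of_nonneg_left _ (Th_pos B y).le
        linarith [Wzb_Thle hB hy]
      have h3 : om4 B s y = 2 * B * (Th B y * (1 / 2) / B * Zf (s * y)) := by
        unfold om4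
        field_simp
      rw [h3]
      exact mul_le_mul_of_nonneg_left (h2.trans hta) (by positivity)
    have h2 : om4 B s y ≤ Real.exp (-(-y / B)) := by
      refine (Wzb_om B s y).trans ((Wzb_Th hB).trans (le_of_eq ?_))
      congr 1
      ring
    have h3 := mul_le_mul h2 h1 ho.le (Real.exp_pos _).le
    have h5 : 0 ≤ Real.exp (-(-y / B)) * (2 * B * ta B s y) := by positivity
    nlinarith
  · rw [bd_of_nonneg hy, abs_of_nonneg hy]
    have e1 : (Real.exp (-(1 / 2 * y))) ^ 2 = Real.exp (-y) := by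
      rw [← Real.exp_nat_mul]
      congr 1
      push_cast
      ring
    rw [e1]
    have h1 : Zf (s * y) ≤ 4 * B * Real.exp (y / B) * ta B s y := by
      have h2 : 1 / 4 * Real.exp (-(|y| / B)) / B * Zf (s * y) ≤ Th B y * (1 - Th B y) / B * Zf (s * y) := by
        apply mul_le_mul_of_nonneg_right _ hZ.le
        exact div_le_div_of_nonneg_right (Wts_lo2 hB y) hB.le
      rw [abs_of_nonneg hy] at h2
      have h3 : Zf (s * y) = 4 * B * Real.exp (y / B) * (1 / 4 * Real.exp (-(y / B)) / B * Zf (s * y)) := by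
        have e : Real.exp (y / B) * Real.exp (-(y / B)) = 1 := by
          rw [← Real.exp_add, add_neg_cancel, Real.exp_zero]
        calc Zf (s * y) = 1 * Zf (s * y) := by ring
          _ = (Real.exp (y / B) * Real.exp (-(y / B))) * Zf (s * y) := by rw [e]
          _ = _ := by
            field_simp
      calc Zf (s * y) = 4 * B * Real.exp (y / B) * (1 / 4 * Real.exp (-(y / B)) / B * Zf (s * y)) := h3
        _ ≤ 4 * B * Real.exp (y / B) * ta B s y :=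
          mul_le_mul_of_nonneg_left (h2.trans hta) (by positivity)
    have h2 : (om4 B s y) ^ 2 ≤ Zf (s * y) := by
      have h3 : om4 B s y ≤ Zf (s * y) := by
        unfold om4
        exact mul_le_of_le_one_left hZ.le (Th_lt_one B y).le
      have h5 := om4_le_one B s y
      nlinarith
    have h3 : Real.exp (y / B) * Real.exp (-y) ≤ Real.exp (-(y / B)) := by
      rw [← Real.exp_add, Real.exp_le_exp]
      have h5 : 1 / B ≤ 1 / 16 := one_div_le_one_div_of_le (by norm_num) hB16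
      have h6 := mul_le_mul_of_nonneg_right h5 hy
      have h7 : y / B = 1 / B * y := by ring
      rw [h7]
      linarith
    calc (om4 B s y) ^ 2 * Real.exp (-y) ≤ (4 * B * Real.exp (y / B) * ta B s y) * Real.exp (-y) :=
          mul_le_mul_of_nonneg_right (h2.trans h1) (Real.exp_pos _).le
      _ = 4 * B * (Real.exp (y / B) * Real.exp (-y)) * ta B s y := by ring
      _ ≤ 4 * B * Real.exp (-(y / B)) * ta B s y := by
          apply mul_le_mul_of_nonneg_right _ ht.le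
          exact mul_le_mul_of_nonneg_left h3 (by positivity)

theorem ta_bd (h : Slow4 B s) (y : ℝ) :
    ta B s y * (bd (1 / 2) 0 y) ^ 2 ≤ Real.exp (-(|y| / B)) := by
  obtain ⟨hB, hB16, hs, h4⟩ := Wzb_h h
  have h2B : 2 / B ≤ 1 := by
    rw [div_le_one hB]
    linarith
  have ht := ta_pos h y
  rcases le_total y 0 with hy | hy
  · rw [bd_of_nonpos hy, abs_of_nonpos hy]
    have e1 : (Real.exp (0 * y)) ^ 2 = 1 := by
      rw [zero_mul, Real.exp_zero]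
      norm_num
    rw [e1, mul_one]
    have h2 : om4 B s y ≤ Real.exp (-(-y / B)) := by
      refine (Wzb_om B s y).trans ((Wzb_Th hB).trans (le_of_eq ?_))
      congr 1
      ring
    have h3 := ta_le h y
    have h5 := mul_le_mul_of_nonneg_right h2B (om4_pos B s y).le
    linarith
  · rw [bd_of_nonneg hy, abs_of_nonneg hy]
    have e1 : (Real.exp (-(1 / 2 * y))) ^ 2 = Real.exp (-y) := by
      rw [← Real.exp_nat_mul]
      congr 1
      push_cast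
      ring
    rw [e1]
    have h3 : Real.exp (-y) ≤ Real.exp (-(y / B)) := by
      rw [Real.exp_le_exp]
      have h5 : 1 / B ≤ 1 / 16 := one_div_le_one_div_of_le (by norm_num) hB16
      have h6 := mul_le_mul_of_nonneg_right h5 hy
      have h7 : y / B = 1 / B * y := by ring
      rw [h7]
      linarith
    have h5 : ta B s y ≤ 1 := (ta_hi h y).trans h2B
    have h6 := mul_le_mul_of_nonneg_right h5 (Real.exp_pos (-y)).le
    linarith

theorem Wzb_Zeq (ξ : ℝ) : Zf ξ = 4 * (Th (1 / 2) (ξ - 2) * (1 - Th (1 / 2) (ξ - 2))) := by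
  have h1 := Th_eq (B := 1 / 2) (by norm_num) (ξ - 2)
  have h2 : (ξ - 2) / (2 * (1 / 2)) = ξ - 2 := by ring
  rw [h2] at h1
  have h3 : Zf ξ = 1 - Real.tanh (ξ - 2) ^ 2 := by
    unfold Zf
    rw [Tan_sub_sq, div_pow, one_pow]
  rw [h3, h1]
  ring

theorem Wzb_topTh : Tendsto (fun x : ℝ => Th (1 / 2) x) atTop (𝓝 1) := by
  have h1 : Tendsto (fun x : ℝ => Real.exp (-x / (1 / 2))) atTop (𝓝 0) := by
    have h2 : Tendsto (fun x : ℝ => -x / (1 / 2)) atTop atBot := by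
      have h3 : (fun x : ℝ => -x / (1 / 2)) = fun x => (-2) * x := by
        funext x
        ring
      rw [h3]
      exact tendsto_id.const_mul_atTop_of_neg (by norm_num)
    exact Real.tendsto_exp_atBot.comp h2
  have h4 : Tendsto (fun x : ℝ => 1 / (1 + Real.exp (-x / (1 / 2)))) atTop (𝓝 (1 / (1 + 0))) :=
    (tendsto_const_nhds (x := (1 : ℝ))).div (h1.const_add 1) (by norm_num)
  simpa [Th] using h4

theorem Wzb_botTh : Tendsto (fun x : ℝ => Th (1 / 2) x) atBot (𝓝 0) := by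
  have h1 : Tendsto (fun x : ℝ => Real.exp (-x / (1 / 2))) atBot atTop := by
    have h2 : Tendsto (fun x : ℝ => -x / (1 / 2)) atBot atTop := by
      have h3 : (fun x : ℝ => -x / (1 / 2)) = fun x => (-2) * x := by
        funext x
        ring
      rw [h3]
      exact tendsto_id.const_mul_atBot_of_neg (by norm_num)
    exact Real.tendsto_exp_atTop.comp h2
  have h4 : Tendsto (fun x : ℝ => 1 + Real.exp (-x / (1 / 2))) atBot atTop :=
    tendsto_atTop_add_const_left _ 1 h1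
  have h5 := h4.inv_tendsto_atTop
  refine h5.congr fun x => ?_
  simp [Th]

theorem Wzb_Zint (hs : 0 < s) : ∫ y, Zf (s * y) = 2 / s := by
  have hd : ∀ y, HasDerivAt (fun y => 2 / s * Th (1 / 2) (s * y - 2)) (Zf (s * y)) y := by
    intro y
    have h1 : HasDerivAt (fun y : ℝ => s * y - 2) s y := by
      have := ((hasDerivAt_id y).const_mul s).sub_const 2
      simpa using this
    have h2 := (Th_hd (B := 1 / 2) (by norm_num) (s * y - 2)).comp y h1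
    have h3 := h2.const_mul (2 / s)
    refine h3.congr_deriv ?_
    rw [Wzb_Zeq]
    field_simp
    ring
  have ht1 : Tendsto (fun y : ℝ => s * y - 2) atTop atTop :=
    tendsto_atTop_add_const_right _ (-2) (tendsto_id.const_mul_atTop hs)
  have ht2 : Tendsto (fun y : ℝ => s * y - 2) atBot atBot :=
    tendsto_atBot_add_const_right _ (-2) (tendsto_id.const_mul_atBot hs)
  have l1 : Tendsto (fun y => 2 / s * Th (1 / 2) (s * y - 2)) atTop (𝓝 (2 / s * 1)) :=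
    (Wzb_topTh.comp ht1).const_mul (2 / s)
  have l2 : Tendsto (fun y => 2 / s * Th (1 / 2) (s * y - 2)) atBot (𝓝 (2 / s * 0)) :=
    (Wzb_botTh.comp ht2).const_mul (2 / s)
  have h5 := integral_of_hasDerivAt_of_tendsto hd
    (Cl_int (Cl_Zs hs) (by positivity) (by positivity)) l2 l1
  rw [h5]
  ring

theorem int_om4 (h : Slow4 B s) : Integrable (om4 B s) ∧ ∫ y, om4 B s y ≤ 2 / s := by
  obtain ⟨hB, hB16, hs, h4⟩ := Wzb_h h
  have hi : Integrable (om4 B s) := Cl_int (Cl_om4 h) (by positivity) (by positivity)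
  refine ⟨hi, ?_⟩
  rw [← Wzb_Zint hs]
  refine integral_mono hi (Cl_int (Cl_Zs hs) (by positivity) (by positivity)) (fun y => ?_)
  unfold om4
  exact mul_le_of_le_one_left (Zf_pos _).le (Th_lt_one B y).le

theorem bi_nonneg (s y : ℝ) : 0 ≤ bi s y := by
  unfold bi
  apply indicator_nonneg
  intro z _
  have := Real.cosh_pos (s * z - 2)
  positivity

theorem bi_int (hs : 0 < s) {f : ℝ → ℝ} (hf : Cl 0 0 f) : Integrable (fun y => bi s y * f y) := by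
  obtain ⟨C, hC0, hC⟩ := Cl_bnd hf
  have hc : Continuous (fun z : ℝ => 1 / Real.cosh (s * z - 2)) := by
    apply Continuous.div continuous_const (by fun_prop)
    intro z
    exact (Real.cosh_pos _).ne'
  have hm : AEStronglyMeasurable (fun y => bi s y * f y) volume := by
    refine AEStronglyMeasurable.mul ?_ (Cl_cont hf).aestronglyMeasurable
    exact hc.aestronglyMeasurable.indicator measurableSet_Ici
  refine ((bd_int hs hs).const_mul (2 * Real.exp 2 * C)).mono' hm ?_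
  refine Eventually.of_forall fun y => ?_
  rw [Real.norm_eq_abs, abs_mul, abs_of_nonneg (bi_nonneg s y)]
  have h1 : bi s y ≤ 2 * Real.exp 2 * bd s s y := by
    have h2 : bi s y ≤ 1 / Real.cosh (s * y - 2) := by
      unfold bi
      apply indicator_le_self'
      intro _ _
      have := Real.cosh_pos (s * y - 2)
      positivity
    refine h2.trans ((Tan_sech_le _).trans ?_)
    rw [bd_abs, mul_assoc, ← Real.exp_add]
    apply mul_le_mul_of_nonneg_left _ (by norm_num)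
    rw [Real.exp_le_exp]
    have h3 : |s * y| ≤ |s * y - 2| + |(2 : ℝ)| := by
      have := abs_add_le (s * y - 2) 2
      simpa using this
    rw [abs_mul, abs_of_pos hs, abs_of_pos (by norm_num : (0 : ℝ) < 2)] at h3
    linarith
  have h2 : |f y| ≤ C := by
    have := hC y
    rw [bd_zero, mul_one] at this
    exact this
  calc bi s y * |f y| ≤ (2 * Real.exp 2 * bd s s y) * C :=
        mul_le_mul h1 h2 (abs_nonneg _) (mul_nonneg (by positivity) (bd_pos _ _ _).le)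
    _ = 2 * Real.exp 2 * C * bd s s y := by ring

theorem Wzb_cosh (x : ℝ) : x ≤ Real.cosh x := by
  rcases le_total 0 x with hx | hx
  · have h1 := Real.self_le_sinh_iff.mpr hx
    have h2 := Real.sinh_lt_cosh x
    linarith
  · have := Real.cosh_pos x
    linarith

theorem Z_le_bi (h : Slow4 B s) {y : ℝ} (hy : 1 / s ≤ y) :
    Zf (s * y) ≤ bi s y ∧ |y * (s * deriv Zf (s * y))| ≤ 6 * bi s y := by
  obtain ⟨hB, hB16, hs, h4⟩ := Wzb_h h
  have hbi : bi s y = 1 / Real.cosh (s * y - 2) := by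
    unfold bi
    rw [indicator_of_mem (show y ∈ Ici (1 / s) from hy)]
  have hc := Real.cosh_pos (s * y - 2)
  have hc1 := Real.one_le_cosh (s * y - 2)
  have hi0 : 0 < 1 / Real.cosh (s * y - 2) := by positivity
  have hi1 : 1 / Real.cosh (s * y - 2) ≤ 1 := by
    rw [div_le_one hc]
    exact hc1
  have hZ : Zf (s * y) = (1 / Real.cosh (s * y - 2)) ^ 2 := rfl
  have hsy : 1 ≤ s * y := by
    rw [div_le_iff₀ hs] at hy
    linarith
  rw [hbi]
  refine ⟨?_, ?_⟩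
  · rw [hZ]
    nlinarith
  · rw [(Zf_hd (s * y)).deriv]
    have e1 : y * (s * (-2 * Real.tanh (s * y - 2) * Zf (s * y))) =
        (-2) * (s * y) * Real.tanh (s * y - 2) * Zf (s * y) := by ring
    rw [e1, abs_mul, abs_mul, abs_mul, abs_of_pos (Zf_pos (s * y)), abs_of_pos (by linarith : 0 < s * y)]
    have e2 : |(-2 : ℝ)| = 2 := by norm_num
    rw [e2]
    have h5 := tanh_abs_lt (s * y - 2)
    have h6 : 2 * (s * y) * |Real.tanh (s * y - 2)| ≤ 2 * (s * y) := by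
      have : 0 ≤ 2 * (s * y) := by linarith
      nlinarith
    have h7 := mul_le_mul_of_nonneg_right h6 (Zf_pos (s * y)).le
    refine h7.trans ?_
    have h8 : s * y ≤ 3 * Real.cosh (s * y - 2) := by
      have := Wzb_cosh (s * y - 2)
      linarith
    have h9 : 2 * (s * y) * Zf (s * y) ≤ 2 * (3 * Real.cosh (s * y - 2)) * Zf (s * y) := by
      apply mul_le_mul_of_nonneg_right _ (Zf_pos (s * y)).le
      linarith
    refine h9.trans (le_of_eq ?_)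
    rw [hZ]
    field_simp
    ring

end H98KC

end

end S_H98_KC_Wzb

section S_H98_KC_Ida

/-!
# Ida (MP_95be7d_S4): identities for `EE4 ζ = ∫ om4 (ε'ζ' + (ε-D)ζ)` (variant of `KB/Eid.lean`; uses the statements of `Wza`)

`g = gf 4 ε = -ε''+ε-D`, `D = Df 4 ε = Q⁴ε+R`.  `ε ∈ Cl 0 0`, `g, D, R ∈ Cl 0 0` (`Cl_gf`, `Cl_Df`, `Cl_Rf` with `p=q=0`), `om4 ∈ Cl (2s)(2s+1/B)`.
* `EE4_g`: `ε'ζ'om = (om ε'ζ)' - om'ε'ζ - om ε''ζ`.
* `EE4_main`: `ζ=g'`: `om g g' = (om g²/2)' - om'g²/2`; `om'ε'g' = (om'ε'g)' - om''ε'g - om'ε''g` and `ε''=ε-D-g`.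
* `EE4_L`: `om ε'ζ' = (om ε ζ')' - om'εζ' - om εζ''` and `(ε-D)ζ = ε(1-Q⁴)ζ - Rζ`; `ζ ∈ Cl 0 0`.
Copy of the proofs of `EE_g`, `EE_main` in `KB/Eid.lean` with `Adm ρ p q ε` replaced by `Cl 0 0 ε`.
-/

open MeasureTheory Filter Topology Set
open scoped ContDiff

noncomputable section

namespace H98KC

open H98KB H68KC

variable {B s : ℝ} {ε ζ : ℝ → ℝ}

theorem Ida_B (h : Slow4 B s) : 0 < 1 / B := one_div_pos.mpr (by have := h.1; linarith)

theorem Ida_gcl (hε : Cl 0 0 ε) : Cl 0 0 (gf 4 ε) :=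
  Cl_gf (by norm_num) le_rfl le_rfl hε

theorem Ida_Dcl (hε : Cl 0 0 ε) : Cl 0 0 (fun y => ε y - Df 4 ε y) :=
  Cl_sub hε (Cl_Df (by norm_num) le_rfl le_rfl hε)

theorem Ida_Ecl {p' q' : ℝ} (hε : Cl 0 0 ε) (hζ : Cl p' q' ζ) :
    Cl (0 + p') (0 + q') (fun y => deriv ε y * deriv ζ y + (ε y - Df 4 ε y) * ζ y) :=
  Cl_add (Cl_mul (Cl_der hε) (Cl_der hζ)) (Cl_mul (Ida_Dcl hε) hζ)

theorem EE4_g (h : Slow4 B s) (hε : Cl 0 0 ε) (hζ : Cl (-(s / 2)) (-(s / 2)) ζ) :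
    EE4 B s ε ζ = (∫ y, om4 B s y * (gf 4 ε y * ζ y))
      - ∫ y, deriv (om4 B s) y * (deriv ε y * ζ y) := by
  have hs := h.2.1
  have hB1 := Ida_B h
  have hO := Cl_om4 h
  have P1 : 0 < 2 * s + (0 + -(s / 2)) := by linarith
  have P2 : 0 < 2 * s + 1 / B + (0 + -(s / 2)) := by linarith
  have i1 : Integrable (fun y => om4 B s y * (gf 4 ε y * ζ y)) :=
    Cl_int (Cl_mul hO (Cl_mul (Ida_gcl hε) hζ)) P1 P2
  have i2 : Integrable (fun y => deriv (om4 B s) y * (deriv ε y * ζ y)) :=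
    Cl_int (Cl_mul (Cl_der hO) (Cl_mul (Cl_der hε) hζ)) P1 P2
  have i3 : Integrable (fun y => om4 B s y * (deriv ε y * deriv ζ y + (ε y - Df 4 ε y) * ζ y)) :=
    Cl_int (Cl_mul hO (Ida_Ecl hε hζ)) P1 P2
  rw [← integral_sub i1 i2, EE4]
  refine Cl_int_eq i3 (i1.sub i2) (Cl_mul hO (Cl_mul (Cl_der hε) hζ)) P1 P2 fun y => ?_
  have hd := ((Cl_hd hO y).mul ((Cl_hd (Cl_der hε) y).mul (Cl_hd hζ y))).deriv
  have e : deriv (fun z => om4 B s z * (deriv ε z * ζ z)) y = deriv (om4 B s) y * (deriv ε y * ζ y)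
      + om4 B s y * (deriv (deriv ε) y * ζ y + deriv ε y * deriv ζ y) := hd
  rw [e]
  simp only [gf]
  ring

theorem EE4_main (h : Slow4 B s) (hε : Cl 0 0 ε) :
    EE4 B s ε (deriv (gf 4 ε)) = -(3 / 2) * (∫ y, deriv (om4 B s) y * (gf 4 ε y) ^ 2)
      + (∫ y, deriv (om4 B s) y * ((ε y - Df 4 ε y) * gf 4 ε y))
      + ∫ y, deriv (deriv (om4 B s)) y * (deriv ε y * gf 4 ε y) := by
  have hs := h.2.1
  have hB1 := Ida_B h
  have hO := Cl_om4 h
  have hg := Ida_gcl hε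
  have hg' := Cl_der hg
  have P1 : 0 < 2 * s + ((0 : ℝ) + 0) := by linarith
  have P2 : 0 < 2 * s + 1 / B + ((0 : ℝ) + 0) := by linarith
  have hgg : Cl (0 + 0) (0 + 0) (fun y => (gf 4 ε y) ^ 2) := by
    have := Cl_mul hg hg
    simpa only [pow_two] using this
  have i1 : Integrable (fun y => deriv (om4 B s) y * (gf 4 ε y) ^ 2) :=
    Cl_int (Cl_mul (Cl_der hO) hgg) P1 P2
  have i2 : Integrable (fun y => deriv (om4 B s) y * ((ε y - Df 4 ε y) * gf 4 ε y)) :=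
    Cl_int (Cl_mul (Cl_der hO) (Cl_mul (Ida_Dcl hε) hg)) P1 P2
  have i3 : Integrable (fun y => deriv (deriv (om4 B s)) y * (deriv ε y * gf 4 ε y)) :=
    Cl_int (Cl_mul (Cl_der (Cl_der hO)) (Cl_mul (Cl_der hε) hg)) P1 P2
  have i4 : Integrable (fun y => om4 B s y * (deriv ε y * deriv (deriv (gf 4 ε)) y
      + (ε y - Df 4 ε y) * deriv (gf 4 ε) y)) :=
    Cl_int (Cl_mul hO (Ida_Ecl hε hg')) P1 P2
  have i12 := (i1.const_mul (-(3 / 2))).add i2
  rw [EE4, ← integral_const_mul, ← integral_add (i1.const_mul (-(3 / 2))) i2]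
  have e3 : (∫ y, (-(3 / 2) * (deriv (om4 B s) y * (gf 4 ε y) ^ 2)
      + deriv (om4 B s) y * ((ε y - Df 4 ε y) * gf 4 ε y)))
      + ∫ y, deriv (deriv (om4 B s)) y * (deriv ε y * gf 4 ε y)
      = ∫ y, ((-(3 / 2) * (deriv (om4 B s) y * (gf 4 ε y) ^ 2)
      + deriv (om4 B s) y * ((ε y - Df 4 ε y) * gf 4 ε y))
      + deriv (deriv (om4 B s)) y * (deriv ε y * gf 4 ε y)) := (integral_add i12 i3).symm
  rw [e3]
  have hH : Cl (2 * s + (0 + 0)) (2 * s + 1 / B + (0 + 0))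
      (fun y => (om4 B s y * (deriv ε y * deriv (gf 4 ε) y) + 1 / 2 * (om4 B s y * (gf 4 ε y) ^ 2))
        - deriv (om4 B s) y * (deriv ε y * gf 4 ε y)) :=
    Cl_sub (Cl_add (Cl_mul hO (Cl_mul (Cl_der hε) hg')) (Cl_smul (1 / 2) (Cl_mul hO hgg)))
      (Cl_mul (Cl_der hO) (Cl_mul (Cl_der hε) hg))
  refine Cl_int_eq i4 (i12.add i3) hH P1 P2 fun y => ?_
  have hd : HasDerivAt (fun y => (om4 B s y * (deriv ε y * deriv (gf 4 ε) y)
      + 1 / 2 * (om4 B s y * (gf 4 ε y) ^ 2)) - deriv (om4 B s) y * (deriv ε y * gf 4 ε y))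
      (((deriv (om4 B s) y * (deriv ε y * deriv (gf 4 ε) y) + om4 B s y *
          (deriv (deriv ε) y * deriv (gf 4 ε) y + deriv ε y * deriv (deriv (gf 4 ε)) y))
        + 1 / 2 * (deriv (om4 B s) y * (gf 4 ε y) ^ 2 + om4 B s y * (2 * gf 4 ε y * deriv (gf 4 ε) y)))
        - (deriv (deriv (om4 B s)) y * (deriv ε y * gf 4 ε y) + deriv (om4 B s) y *
          (deriv (deriv ε) y * gf 4 ε y + deriv ε y * deriv (gf 4 ε) y))) y := by
    have a1 := (Cl_hd hO y).mul ((Cl_hd (Cl_der hε) y).mul (Cl_hd hg' y))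
    have a2 := ((Cl_hd hO y).mul ((Cl_hd hg y).pow 2)).const_mul (1 / 2 : ℝ)
    have a3 := (Cl_hd (Cl_der hO) y).mul ((Cl_hd (Cl_der hε) y).mul (Cl_hd hg y))
    refine ((a1.add a2).sub a3).congr_deriv ?_
    simp
  rw [hd.deriv]
  have hgy : gf 4 ε y = -deriv (deriv ε) y + ε y - Df 4 ε y := rfl
  have h3 : deriv (deriv ε) y = ε y - Df 4 ε y - gf 4 ε y := by rw [hgy]; ring
  rw [h3]
  ring

theorem EE4_L (h : Slow4 B s) (hε : Cl 0 0 ε) (hζ : Cl 0 0 ζ) :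
    EE4 B s ε ζ = (∫ y, om4 B s y * (ε y * Lop 4 ζ y))
      - (∫ y, deriv (om4 B s) y * (ε y * deriv ζ y)) - ∫ y, om4 B s y * (Rf 4 ε y * ζ y) := by
  have hs := h.2.1
  have hB1 := Ida_B h
  have hO := Cl_om4 h
  have P1 : 0 < 2 * s + ((0 : ℝ) + 0) := by linarith
  have P2 : 0 < 2 * s + 1 / B + ((0 : ℝ) + 0) := by linarith
  have hQ : Cl 0 0 (fun y => (Qf 4 y) ^ 4 * ζ y) := by
    have h4 := Cl_mul (Cl_pow (Cl_Qf (by norm_num : 1 ≤ 4)) 4) hζ
    exact Cl_mono h4 (by norm_num) (by norm_num)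
  have hL : Cl 0 0 (Lop 4 ζ) := by
    have h5 := Cl_sub (Cl_sub hζ (Cl_der (Cl_der hζ))) hQ
    have e5 : Lop 4 ζ = fun y => (ζ y - deriv (deriv ζ) y) - (Qf 4 y) ^ 4 * ζ y := by
      funext y
      simp only [Lop]
      ring
    rw [e5]
    exact h5
  have i1 : Integrable (fun y => om4 B s y * (ε y * Lop 4 ζ y)) :=
    Cl_int (Cl_mul hO (Cl_mul hε hL)) P1 P2
  have i2 : Integrable (fun y => deriv (om4 B s) y * (ε y * deriv ζ y)) :=
    Cl_int (Cl_mul (Cl_der hO) (Cl_mul hε (Cl_der hζ))) P1 P2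
  have i3 : Integrable (fun y => om4 B s y * (Rf 4 ε y * ζ y)) :=
    Cl_int (Cl_mul hO (Cl_mul (Cl_Rf (by norm_num : 1 ≤ 4) le_rfl le_rfl hε) hζ)) P1 P2
  have i4 : Integrable (fun y => om4 B s y * (deriv ε y * deriv ζ y + (ε y - Df 4 ε y) * ζ y)) :=
    Cl_int (Cl_mul hO (Ida_Ecl hε hζ)) P1 P2
  have e2 : (∫ y, om4 B s y * (ε y * Lop 4 ζ y))
      - (∫ y, deriv (om4 B s) y * (ε y * deriv ζ y)) - ∫ y, om4 B s y * (Rf 4 ε y * ζ y)
      = ∫ y, ((om4 B s y * (ε y * Lop 4 ζ y) - deriv (om4 B s) y * (ε y * deriv ζ y))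
        - om4 B s y * (Rf 4 ε y * ζ y)) := by
    rw [← integral_sub i1 i2]
    exact (integral_sub (i1.sub i2) i3).symm
  rw [EE4, e2]
  refine Cl_int_eq i4 ((i1.sub i2).sub i3) (Cl_mul hO (Cl_mul hε (Cl_der hζ))) P1 P2 fun y => ?_
  have hd := ((Cl_hd hO y).mul ((Cl_hd hε y).mul (Cl_hd (Cl_der hζ) y))).deriv
  have e : deriv (fun z => om4 B s z * (ε z * deriv ζ z)) y
      = deriv (om4 B s) y * (ε y * deriv ζ y)
      + om4 B s y * (deriv ε y * deriv ζ y + ε y * deriv (deriv ζ) y) := hd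
  rw [e]
  simp only [Rf, Lop]
  ring

end H98KC

end

end S_H98_KC_Ida

section S_H98_KC_Idb

/-!
# Idb (MP_95be7d_S4): identities for `EE4` at `ε'` and `Λε` (variant of `KB/Eie.lean`; uses the statements of `Wza`)

* `EE4_d`: `om(ε'ε''+εε'-Dε')`, `(bF)' = Dε'+RQ'` (`bF_hd`): `= (1/2)(om(ε'²+ε²))' - (1/2)om'(ε'²+ε²) - (om bF)' + om'bF + om RQ'`.
* `EE4_Lam`: `Λε = (1/2)ε+yε'` (`2/(4:ℝ) = 1/2`), `(Λε)' = (3/2)ε'+yε''`:
 `yomε'ε'' = (y om ε'²/2)'-(1/2)(om+y om')ε'²`, `y om εε' = (y om ε²/2)' - (1/2)(om+y om')ε²`,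
 `y om Dε' = (y om bF)' - (om + y om')bF - y om R Q'`.  `y·(class 0 0)` is of class `-c,-c` for every `c>0` (`Cl_id`, take `c = s/2`), so all
 products with `om4 ∈ Cl (2s) (2s+1/B)` are integrable and all primitives vanish at `±∞`.
-/

open MeasureTheory Filter Topology Set
open scoped ContDiff

noncomputable section

namespace H98KC

open H98KB H68KC

variable {B s : ℝ} {ε : ℝ → ℝ}

/-- decaying at both ends -/
def Idb_P (f : ℝ → ℝ) : Prop := ∃ p q : ℝ, 0 < p ∧ 0 < q ∧ Cl p q f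

theorem Idb_P_int {f : ℝ → ℝ} (h : Idb_P f) : Integrable f := by
  obtain ⟨p, q, hp, hq, hf⟩ := h
  exact Cl_int hf hp hq

/-- growing slowly enough to be multiplied with `om4` -/
def Idb_W (s : ℝ) (f : ℝ → ℝ) : Prop := Cl (-s) (-s) f

theorem Idb_W0 (hs : 0 < s) {f : ℝ → ℝ} (hf : Cl 0 0 f) : Idb_W s f :=
  Cl_mono hf (by linarith) (by linarith)

theorem Idb_Wy (hs : 0 < s) {f : ℝ → ℝ} (hf : Cl 0 0 f) : Idb_W s (fun y => y * f y) :=
  Cl_mono (Cl_mul (Cl_id hs) hf) (by linarith) (by linarith)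

theorem Idb_om (h : Slow4 B s) {w f : ℝ → ℝ} (hw : Cl (2 * s) (2 * s + 1 / B) w)
    (hf : Idb_W s f) : Idb_P (fun y => w y * f y) := by
  obtain ⟨hB, hs, -⟩ := h
  have hB' : 0 < 1 / B := by positivity
  exact ⟨_, _, by linarith, by linarith, Cl_mul hw hf⟩

theorem Idb_mul {f g : ℝ → ℝ} (hf : Cl 0 0 f) (hg : Cl 0 0 g) : Cl 0 0 (fun y => f y * g y) :=
  Cl_mul0 hf hg

theorem Idb_sq {f : ℝ → ℝ} (hf : Cl 0 0 f) : Cl 0 0 (fun y => f y ^ 2) := Cl_pow0 hf 2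

theorem Idb_bF (hε : Cl 0 0 ε) : Cl 0 0 (bF 4 ε) :=
  Cl_mono (Cl_bF (by norm_num) le_rfl le_rfl (by norm_num) (by norm_num) hε) (by norm_num)
    (by norm_num)

theorem Idb_D (hε : Cl 0 0 ε) : Cl 0 0 (Df 4 ε) := Cl_Df (by norm_num) le_rfl le_rfl hε

theorem Idb_RQ (hε : Cl 0 0 ε) : Cl 0 0 (fun y => Rf 4 ε y * deriv (Qf 4) y) :=
  Cl_mul0 (Cl_Rf (by norm_num) le_rfl le_rfl hε)
    (Cl_mono (Cl_der (Cl_Qf (by norm_num))) (by norm_num) (by norm_num))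

theorem Idb_ia {f g : ℝ → ℝ} (hf : Integrable f) (hg : Integrable g) :
    Integrable (fun y => f y + g y) := hf.add hg

theorem Idb_is {f g : ℝ → ℝ} (hf : Integrable f) (hg : Integrable g) :
    Integrable (fun y => f y - g y) := hf.sub hg

/-- integral identity from a primitive -/
theorem Idb_eq {F G H : ℝ → ℝ} (hG : Integrable G) (hH : Idb_P H)
    (h : ∀ y, F y = G y + deriv H y) : ∫ y, F y = ∫ y, G y := by
  obtain ⟨p, q, hp, hq, hH'⟩ := hH
  have hi : Integrable (deriv H) := Cl_int (Cl_der hH') hp hq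
  have e : F = fun y => G y + deriv H y := funext h
  rw [e, integral_add hG hi, Cl_int_deriv hH' hp hq, add_zero]

theorem EE4_d (h : Slow4 B s) (hε : Cl 0 0 ε) :
    EE4 B s ε (deriv ε) = -(1 / 2) * (∫ y, deriv (om4 B s) y * ((deriv ε y) ^ 2 + (ε y) ^ 2))
      + (∫ y, deriv (om4 B s) y * bF 4 ε y) + ∫ y, om4 B s y * (Rf 4 ε y * deriv (Qf 4) y) := by
  have hs := h.2.1
  have m0 := Cl_om4 h
  have m1 := Cl_der m0
  have c1 := Cl_der hε
  have k1 : Cl 0 0 (fun y => (deriv ε y) ^ 2 + (ε y) ^ 2) := Cl_add (Idb_sq c1) (Idb_sq hε)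
  have k2 := Idb_bF hε
  have k3 := Idb_RQ hε
  have P1 : Integrable (fun y => deriv (om4 B s) y * ((deriv ε y) ^ 2 + (ε y) ^ 2)) :=
    Idb_P_int (Idb_om h m1 (Idb_W0 hs k1))
  have P2 : Integrable (fun y => deriv (om4 B s) y * bF 4 ε y) :=
    Idb_P_int (Idb_om h m1 (Idb_W0 hs k2))
  have P3 : Integrable (fun y => om4 B s y * (Rf 4 ε y * deriv (Qf 4) y)) :=
    Idb_P_int (Idb_om h m0 (Idb_W0 hs k3))
  have hH : Idb_P (fun y => om4 B s y * (1 / 2 * ((deriv ε y) ^ 2 + (ε y) ^ 2) - bF 4 ε y)) :=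
    Idb_om h m0 (Idb_W0 hs (Cl_sub (Cl_smul (1 / 2) k1) k2))
  have hG : Integrable (fun y => (-(1 / 2)) * (deriv (om4 B s) y * ((deriv ε y) ^ 2 + (ε y) ^ 2))
      + deriv (om4 B s) y * bF 4 ε y + om4 B s y * (Rf 4 ε y * deriv (Qf 4) y)) :=
    Idb_ia (Idb_ia (P1.const_mul _) P2) P3
  unfold EE4
  rw [Idb_eq hG hH]
  · rw [integral_add (Idb_ia (P1.const_mul _) P2) P3]
    congr 1
    rw [integral_add (P1.const_mul _) P2, integral_const_mul]
  · intro y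
    have d1 := Cl_hd m0 y
    have d2 := (Cl_hd c1 y).pow 2
    have d3 := (Cl_hd hε y).pow 2
    have d4 := bF_hd (k := 4) (by norm_num) hε y
    have hd := d1.mul (((d2.add d3).const_mul (1 / 2)).sub d4)
    have e1 : deriv (fun y => om4 B s y * (1 / 2 * ((deriv ε y) ^ 2 + (ε y) ^ 2) - bF 4 ε y)) y = _ :=
      hd.deriv
    rw [e1]
    simp only [Pi.pow_apply, Pi.add_apply, Pi.sub_apply]
    ring

theorem EE4_Lam (h : Slow4 B s) (hε : Cl 0 0 ε) :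
    EE4 B s ε (Lam 4 ε) = (∫ y, om4 B s y * (deriv ε y) ^ 2)
      - 1 / 2 * (∫ y, om4 B s y * (Df 4 ε y * ε y)) + (∫ y, om4 B s y * bF 4 ε y)
      + (∫ y, om4 B s y * (y * (Rf 4 ε y * deriv (Qf 4) y)))
      - 1 / 2 * ∫ y, y * deriv (om4 B s) y *
          ((deriv ε y) ^ 2 + (ε y) ^ 2 - 2 * bF 4 ε y) := by
  have hs := h.2.1
  have m0 := Cl_om4 h
  have m1 := Cl_der m0
  have c1 := Cl_der hε
  have c2 := Cl_der c1
  have cD := Idb_D hε
  have kb := Idb_bF hε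
  have kq : Cl 0 0 (fun y => (deriv ε y) ^ 2 + (ε y) ^ 2 - 2 * bF 4 ε y) :=
    Cl_sub (Cl_add (Idb_sq c1) (Idb_sq hε)) (Cl_smul 2 kb)
  have wyq := Idb_Wy hs kq
  have wL : Cl 0 0 (fun y => ε y - Df 4 ε y) := Cl_sub hε cD
  have hLam : ∀ y, HasDerivAt (Lam 4 ε) (3 / 2 * deriv ε y + y * deriv (deriv ε) y) y := by
    intro y
    have h1 := ((Cl_hd hε y).const_mul (2 / ((4 : ℕ) : ℝ))).add
      ((hasDerivAt_id' y).mul (Cl_hd c1 y))
    refine h1.congr_deriv ?_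
    push_cast
    ring
  have hEE : ∀ y, om4 B s y * (deriv ε y * deriv (Lam 4 ε) y + (ε y - Df 4 ε y) * Lam 4 ε y) =
      om4 B s y * ((deriv ε y) ^ 2) + (-(1 / 2)) * (om4 B s y * (Df 4 ε y * ε y)) +
      om4 B s y * bF 4 ε y + om4 B s y * (y * (Rf 4 ε y * deriv (Qf 4) y)) +
      (-(1 / 2)) * (y * deriv (om4 B s) y * ((deriv ε y) ^ 2 + (ε y) ^ 2 - 2 * bF 4 ε y)) +
      deriv (fun y => om4 B s y *
        (1 / 2 * (y * ((deriv ε y) ^ 2 + (ε y) ^ 2 - 2 * bF 4 ε y)))) y := by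
    intro y
    have d0 := Cl_hd m0 y
    have e0 := Cl_hd hε y
    have e1 := Cl_hd c1 y
    have d4 := bF_hd (k := 4) (by norm_num) hε y
    have hd := d0.mul (((hasDerivAt_id' y).mul
      ((((e1.pow 2).add (e0.pow 2)).sub (d4.const_mul 2)))).const_mul (1 / 2))
    have f1 : deriv (fun y => om4 B s y *
      (1 / 2 * (y * ((deriv ε y) ^ 2 + (ε y) ^ 2 - 2 * bF 4 ε y)))) y = _ := hd.deriv
    rw [f1, (hLam y).deriv, Lam]
    simp only [Pi.pow_apply, Pi.add_apply, Pi.mul_apply, Pi.sub_apply]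
    push_cast
    ring
  have P1 : Integrable (fun y => om4 B s y * (deriv ε y) ^ 2) :=
    Idb_P_int (Idb_om h m0 (Idb_W0 hs (Idb_sq c1)))
  have P3 : Integrable (fun y => om4 B s y * (Df 4 ε y * ε y)) :=
    Idb_P_int (Idb_om h m0 (Idb_W0 hs (Idb_mul cD hε)))
  have P4 : Integrable (fun y => om4 B s y * bF 4 ε y) :=
    Idb_P_int (Idb_om h m0 (Idb_W0 hs kb))
  have P5 : Integrable (fun y => om4 B s y * (y * (Rf 4 ε y * deriv (Qf 4) y))) :=
    Idb_P_int (Idb_om h m0 (Idb_Wy hs (Idb_RQ hε)))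
  have P6 : Integrable (fun y => y * deriv (om4 B s) y *
      ((deriv ε y) ^ 2 + (ε y) ^ 2 - 2 * bF 4 ε y)) := by
    refine (Idb_P_int (Idb_om h m1 wyq)).congr (Eventually.of_forall fun y => ?_)
    simp only
    ring
  have hH : Idb_P (fun y => om4 B s y *
      (1 / 2 * (y * ((deriv ε y) ^ 2 + (ε y) ^ 2 - 2 * bF 4 ε y)))) :=
    Idb_om h m0 (Cl_smul (1 / 2) wyq)
  have Q3 : Integrable (fun y => (-(1 / 2)) * (om4 B s y * (Df 4 ε y * ε y))) := P3.const_mul _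
  have Q6 : Integrable (fun y => (-(1 / 2)) * (y * deriv (om4 B s) y *
      ((deriv ε y) ^ 2 + (ε y) ^ 2 - 2 * bF 4 ε y))) := P6.const_mul _
  have R1 := Idb_ia P1 Q3
  have R2 := Idb_ia R1 P4
  have R3 := Idb_ia R2 P5
  have R4 := Idb_ia R3 Q6
  unfold EE4
  rw [Idb_eq R4 hH hEE, integral_add R3 Q6, integral_add R2 P5, integral_add R1 P4,
    integral_add P1 Q3, integral_const_mul, integral_const_mul]
  ring

end H98KC

end

end S_H98_KC_Idb

section S_H98_KC_Vki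

/-!
# Vki (MP_95be7d_S4): generic forcing in the virial functional

`|Ψ| ≤ (1+η)ch B ≤ 2 ch B` (`psi_abs`).  Cauchy-Schwarz: `|∫Ψ v u| ≤ 2(∫ch v²)^{1/2}(∫ch u²)^{1/2}` with `v = vf 4 δ ε`, `u = vf 4 δ S`;
`vf_wt0` (KB/Smb) with `W = ch B ∈ Cl (2/B) (2/B)`: `∫ch (vf ε)² ≤ C∫ch ε²` (`p = q = 0`), `∫ch (vf S)² ≤ C∫ch S²` (`p = q = -1/(2B)`, `2p+2/B > 0`);
`δ|ch''| ≤ ch/4` (`ch2_le`: `|ch''| ≤ (8/B²)ch`).
-/

open MeasureTheory Filter Topology Set
open scoped ContDiff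

noncomputable section

namespace H98KC

open H98KB H68KC

private lemma Vki_int {a b c d : ℝ} {W f : ℝ → ℝ} (hW : Cl c d W) (hf : Cl a b f)
    (h1 : 0 < 2 * a + c) (h2 : 0 < 2 * b + d) : Integrable (fun y => W y * (f y) ^ 2) := by
  refine Cl_int (Cl_mul hW (Cl_pow hf 2)) ?_ ?_
  · push_cast
    linarith
  · push_cast
    linarith

private lemma Vki_chpos (B y : ℝ) : 0 < ch B y := by
  rw [ch_eq']
  exact se2_pos _ _

private lemma Vki_ch2 {δ B : ℝ} (hδ : 0 < δ) (hδ' : δ ≤ 1 / 16) (hB : 16 ≤ B) (y : ℝ) :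
    δ * |deriv (deriv (ch B)) y| ≤ ch B y / 4 := by
  have h1 := ch2_le (B := B) (by linarith) y
  have h2 : 0 < ch B y := Vki_chpos B y
  have h3 : 8 / B ^ 2 ≤ 1 := by
    rw [div_le_one (by positivity)]
    nlinarith
  have h4 : |deriv (deriv (ch B)) y| ≤ ch B y :=
    h1.trans (by nlinarith)
  have h5 := mul_le_mul hδ' h4 (abs_nonneg _) (by norm_num)
  linarith

theorem VF0 (γ η δ : ℝ) (hη : 0 < η) (hη' : η ≤ 1) (hδ : 0 < δ) (hδ' : δ ≤ 1 / 16) :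
    ∃ C : ℝ, 0 < C ∧ ∀ B : ℝ, 16 ≤ B → ∀ ε S : ℝ → ℝ, Cl 0 0 ε →
    Cl (-(1 / (2 * B))) (-(1 / (2 * B))) S →
    |∫ y, Psi 4 η γ B y * (vf 4 δ ε y * vf 4 δ S y)| ≤
      C * √(∫ y, ch B y * (ε y) ^ 2) * √(∫ y, ch B y * (S y) ^ 2) := by
  have hk1 : 1 ≤ 4 := by norm_num
  obtain ⟨Cv, hCv0, hCv⟩ := vf_wt0 4 hk1 δ hδ hδ'
  refine ⟨(1 + η) * Cv, by positivity, ?_⟩
  intro B hB ε S hε hS
  have hB0 : 0 < B := by linarith
  have h00 : |(0 : ℝ)| ≤ 2 := by rw [abs_zero]; norm_num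
  have h1B : 0 < 1 / (2 * B) := by positivity
  have h1B' : 1 / (2 * B) ≤ 1 := by
    rw [div_le_one (by linarith)]
    linarith
  have hpS : |(-(1 / (2 * B)) : ℝ)| ≤ 2 := by
    rw [abs_neg, abs_of_pos h1B]
    linarith
  have h2B : 2 / B = 4 * (1 / (2 * B)) := by
    field_simp
    norm_num
  have w1 : 0 < 2 * (0 : ℝ) + 2 / B := by rw [h2B]; linarith
  have w2 : 0 < 2 * (-(1 / (2 * B))) + 2 / B := by rw [h2B]; linarith
  have hχ := Cl_ch hB0
  have hchw := Vki_ch2 hδ hδ' hB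
  obtain ⟨v, hv⟩ : ∃ v, v = vf 4 δ ε := ⟨_, rfl⟩
  obtain ⟨u, hu⟩ : ∃ u, u = vf 4 δ S := ⟨_, rfl⟩
  have hvC : Cl 0 0 v := by rw [hv]; exact Cl_vf hk1 hδ hδ' h00 h00 hε
  have huC : Cl (-(1 / (2 * B))) (-(1 / (2 * B))) u := by
    rw [hu]; exact Cl_vf hk1 hδ hδ' hpS hpS hS
  have iv := Vki_int hχ hvC w1 w1
  have iu := Vki_int hχ huC w2 w2
  have e1 : ∫ y, ch B y * (v y) ^ 2 ≤ Cv * ∫ y, ch B y * (ε y) ^ 2 := by
    rw [hv]
    exact hCv 0 0 (2 / B) (2 / B) ε (ch B) h00 h00 hε hχ (Vki_chpos B) hchw w1 w1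
  have e2 : ∫ y, ch B y * (u y) ^ 2 ≤ Cv * ∫ y, ch B y * (S y) ^ 2 := by
    rw [hu]
    exact hCv _ _ (2 / B) (2 / B) S (ch B) hpS hpS hS hχ (Vki_chpos B) hchw w2 w2
  have hρ : Continuous (fun y : ℝ => 1 / Real.cosh (y / B)) := by
    apply Continuous.div continuous_const (Real.continuous_cosh.comp (continuous_id.div_const B))
    intro y
    exact (Real.cosh_pos _).ne'
  have hρ2 : ∀ y, (1 / Real.cosh (y / B)) ^ 2 = ch B y := fun y => rfl
  have hψc : Continuous (psi 4 η γ) := Cl_cont (Cl_psi 4 η γ)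
  have a1 : (fun y => (1 / Real.cosh (y / B) * v y) ^ 2) = fun y => ch B y * (v y) ^ 2 := by
    funext y
    rw [mul_pow, hρ2]
  have a2 : (fun y => (psi 4 η γ y * (1 / Real.cosh (y / B) * u y)) ^ 2) =
      fun y => (psi 4 η γ y) ^ 2 * (ch B y * (u y) ^ 2) := by
    funext y
    rw [mul_pow, mul_pow, hρ2]
  have hψ2 : ∀ y, (psi 4 η γ y) ^ 2 ≤ (1 + η) ^ 2 := by
    intro y
    rw [← sq_abs]
    exact pow_le_pow_left₀ (abs_nonneg _) (psi_abs hη.le γ y) 2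
  have iG : Integrable (fun y => (psi 4 η γ y) ^ 2 * (ch B y * (u y) ^ 2)) :=
    Cl_int (Cl_mul0 (Cl_pow0 (Cl_psi 4 η γ) 2) (Cl_mul hχ (Cl_pow huC 2)))
      (by push_cast; linarith) (by push_cast; linarith)
  have hcs := (cs_int (F := fun y => 1 / Real.cosh (y / B) * v y)
    (G := fun y => psi 4 η γ y * (1 / Real.cosh (y / B) * u y))
    (hρ.mul (Cl_cont hvC)) (hψc.mul (hρ.mul (Cl_cont huC)))
    (by rw [a1]; exact iv) (by rw [a2]; exact iG)).2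
  have a3 : (fun y => Psi 4 η γ B y * (v y * u y)) = fun y =>
      (1 / Real.cosh (y / B) * v y) * (psi 4 η γ y * (1 / Real.cosh (y / B) * u y)) := by
    funext y
    unfold Psi
    rw [← hρ2]
    ring
  rw [← hv, ← hu, a3]
  refine hcs.trans ?_
  rw [a1, a2]
  have b1 : ∫ y, (psi 4 η γ y) ^ 2 * (ch B y * (u y) ^ 2) ≤
      (1 + η) ^ 2 * ∫ y, ch B y * (u y) ^ 2 := by
    rw [← integral_const_mul]
    apply integral_mono iG (iu.const_mul _)
    intro y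
    exact mul_le_mul_of_nonneg_right (hψ2 y) (mul_nonneg (Vki_chpos B y).le (sq_nonneg _))
  have c1 : √(∫ y, ch B y * (v y) ^ 2) ≤ √Cv * √(∫ y, ch B y * (ε y) ^ 2) := by
    rw [← Real.sqrt_mul hCv0.le]
    exact Real.sqrt_le_sqrt e1
  have c2 : √(∫ y, (psi 4 η γ y) ^ 2 * (ch B y * (u y) ^ 2)) ≤
      (1 + η) * (√Cv * √(∫ y, ch B y * (S y) ^ 2)) := by
    have b2 : ∫ y, (psi 4 η γ y) ^ 2 * (ch B y * (u y) ^ 2) ≤
        (1 + η) ^ 2 * (Cv * ∫ y, ch B y * (S y) ^ 2) :=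
      b1.trans (mul_le_mul_of_nonneg_left e2 (sq_nonneg _))
    refine (Real.sqrt_le_sqrt b2).trans (le_of_eq ?_)
    rw [Real.sqrt_mul (sq_nonneg _), Real.sqrt_sq (by linarith), Real.sqrt_mul hCv0.le]
  refine (mul_le_mul c1 c2 (Real.sqrt_nonneg _) (by positivity)).trans (le_of_eq ?_)
  have c3 : √Cv * √Cv = Cv := Real.mul_self_sqrt hCv0.le
  calc √Cv * √(∫ y, ch B y * (ε y) ^ 2) * ((1 + η) * (√Cv * √(∫ y, ch B y * (S y) ^ 2)))
      = (1 + η) * (√Cv * √Cv) * √(∫ y, ch B y * (ε y) ^ 2) *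
          √(∫ y, ch B y * (S y) ^ 2) := by ring
    _ = (1 + η) * Cv * √(∫ y, ch B y * (ε y) ^ 2) * √(∫ y, ch B y * (S y) ^ 2) := by
        rw [c3]

end H98KC

end

end S_H98_KC_Vki
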