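import Mathlib
import Pool.Agent.H98.BU.G01
import Pool.Agent.H98.BU.G02
import Pool.Agent.H98.BU.G07

/-! Blow-up for `u_t + u^k u_x + u_xxx - u_xx = 0`, part G08: this file joins several modules
to save build time (`Pool/Agent/H98/{KB,KC}`, `H72/{KB,KC}`, `H68/KC`, `H37/{KB,KC}`). -/

section S_H98_KC_Fma

/-!
# Fma (MP_95be7d_S4): the main energy dissipation (variant of `KB/Ema.lean`; uses `EE4_main`, weights, `D_le`)

Write `g = g₀ - D`, `g₀ = ε-ε''`.  `(3/2)g²-(ε-D)g = (3/2)g₀²-εg₀+D(ε-2g₀)+(1/2)D²`.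
`∫om'((3/2)g₀²-εg₀)-∫om''ε'g₀ = ∫[(1/2)om'ε²+2om'ε'²+(3/2)om'ε''²-(1/2)om'''(ε²+ε'²)]` (`om = om4 B s`; exactly the computation of `KB/Ema.lean`).
Weights: `κ om' ≥ κ ta - 3κ s bi` for `κ ∈ {1/2, 2, 3/2}` (`om41_lo`), so the first three terms are
`≥ (1/2)∫ta(ε²+ε'²+ε''²) - 6s∫bi(ε²+ε'²+ε''²) = (1/2)T4 - 6 Bad` (`Bad_eq`, `T4_eq`).
`|om'''| ≤ (2/B²)ta ≤ ta/64`, `|om'| ≤ 2ta`, `|om''| ≤ (2/B) ta`.
Error: `≥ -∫2ta|D|(|ε|+2|g₀|) - ∫(2/B)ta|ε'||D| ≥ -2∫ta|D|(3|ε|+2|ε''|+|ε'|)`, `|D| ≤ 16(Q⁴+|ε|⁴)|ε|` (`D_le`).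
`|ε|⁴`-part: `≤ 32ν⁴∫ta(5ε²+ε''²+ε'²)` (small).  `Q⁴`-part:
`32Q⁴|ε|(3|ε|+2|ε''|+|ε'|) ≤ (1/16)(ε''²+ε'²)+C Q⁴ε²` (`Q⁸ ≤ C Q⁴`).  Total:
`EE4(g') ≤ -(1/4)T4 + C∫ta Q⁴ε² + 6 Bad`; `ta Q⁴ ≤ (2/B) C e^{-4|y|} ≤ (C/B)e^{-|y|/2} ≤ (C/B)loc` (`ta_hi`, `Cl_Qk`, `ex_le_loc`).
-/

open MeasureTheory Filter Topology Set
open scoped ContDiff

noncomputable section

namespace H98KC

open H98KB H68KC

theorem Fma_alg {P Pm a b c : ℝ} (hP : 0 ≤ P) (hPm : P ≤ Pm) (ha : 0 ≤ a) (hb : 0 ≤ b)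
    (hc : 0 ≤ c) : (P + 1 / 100) * a * (a + b + 2 * c) ≤
      1 / 100 * (5 / 2 * a ^ 2 + 1 / 2 * b ^ 2 + c ^ 2) + 1 / 8 * (b ^ 2 + c ^ 2)
        + (1 + 10 * Pm) * P * a ^ 2 := by
  have h1 : P * a * b ≤ 1 / 8 * b ^ 2 + 2 * P ^ 2 * a ^ 2 := by nlinarith [sq_nonneg (b - 4 * P * a)]
  have h2 : 2 * P * a * c ≤ 1 / 8 * c ^ 2 + 8 * P ^ 2 * a ^ 2 := by
    nlinarith [sq_nonneg (c - 8 * P * a)]
  have h3 : P ^ 2 * a ^ 2 ≤ Pm * P * a ^ 2 := by
    have : P ^ 2 ≤ Pm * P := by nlinarith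
    exact mul_le_mul_of_nonneg_right this (sq_nonneg a)
  have h4 : a * b ≤ 1 / 2 * (a ^ 2 + b ^ 2) := by nlinarith [sq_nonneg (a - b)]
  have h5 : a * c ≤ 1 / 2 * (a ^ 2 + c ^ 2) := by nlinarith [sq_nonneg (a - c)]
  have h6 : (P + 1 / 100) * a * (a + b + 2 * c) = P * a ^ 2 + P * a * b + 2 * P * a * c
      + 1 / 100 * (a ^ 2 + a * b + 2 * (a * c)) := by ring
  rw [h6]
  nlinarith

theorem Fma_pt {t sb w1 w2 w3 e e1 e2 D P Pm : ℝ} (ht : 0 ≤ t) (hsb : 0 ≤ sb) (hw1 : |w1| ≤ 2 * t)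
    (hw1' : t - 3 * sb ≤ w1) (hw2 : |w2| ≤ t)
    (hw3 : |w3| ≤ 1 / 32 * t) (hP : 0 ≤ P) (hPm : P ≤ Pm) (hD : |D| ≤ (P + 1 / 100) * |e|) :
    -(3 / 2) * (w1 * (-e2 + e - D) ^ 2) + w1 * ((e - D) * (-e2 + e - D))
        + w2 * (e1 * (-e2 + e - D)) ≤
      -(1 / 4) * (t * (e ^ 2 + e1 ^ 2 + e2 ^ 2)) + (3 + 21 * Pm) * P * (t * e ^ 2)
        + 6 * (sb * (e ^ 2 + e1 ^ 2 + e2 ^ 2))
        + ((2 * (w2 * (e * e1)) + 2 * (w1 * (e1 * e1)) + 2 * (w1 * (e * e2)))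
          - 1 / 2 * (w3 * (e ^ 2 + e1 ^ 2) + w2 * (2 * (e * e1) + 2 * (e1 * e2)))) := by
  have hid : -(3 / 2) * (w1 * (-e2 + e - D) ^ 2) + w1 * ((e - D) * (-e2 + e - D))
        + w2 * (e1 * (-e2 + e - D)) =
      -(w1 * (1 / 2 * e ^ 2 + 2 * e1 ^ 2 + 3 / 2 * e2 ^ 2)) + 1 / 2 * (w3 * (e ^ 2 + e1 ^ 2))
        + ((2 * (w2 * (e * e1)) + 2 * (w1 * (e1 * e1)) + 2 * (w1 * (e * e2)))
          - 1 / 2 * (w3 * (e ^ 2 + e1 ^ 2) + w2 * (2 * (e * e1) + 2 * (e1 * e2))))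
        + (w1 * (D * (e - 2 * e2)) - w1 * (1 / 2 * D ^ 2)) - w2 * e1 * D := by ring
  rw [hid]
  have hq0 : 0 ≤ e ^ 2 := sq_nonneg e
  have hq1 : 0 ≤ e1 ^ 2 := sq_nonneg e1
  have hq2 : 0 ≤ e2 ^ 2 := sq_nonneg e2
  have hmain : -(w1 * (1 / 2 * e ^ 2 + 2 * e1 ^ 2 + 3 / 2 * e2 ^ 2)) ≤
      -(t * (1 / 2 * e ^ 2 + 2 * e1 ^ 2 + 3 / 2 * e2 ^ 2)) + 6 * (sb * (e ^ 2 + e1 ^ 2 + e2 ^ 2)) := by
    have h1 : (t - 3 * sb) * (1 / 2 * e ^ 2 + 2 * e1 ^ 2 + 3 / 2 * e2 ^ 2) ≤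
        w1 * (1 / 2 * e ^ 2 + 2 * e1 ^ 2 + 3 / 2 * e2 ^ 2) :=
      mul_le_mul_of_nonneg_right hw1' (by positivity)
    (first | linarith only [mul_nonneg hsb hq0, mul_nonneg hsb hq1, mul_nonneg hsb hq2, h1, hq0, hq2, hsb] | nlinarith only [mul_nonneg hsb hq0, mul_nonneg hsb hq1, mul_nonneg hsb hq2, h1, hq0, hq2, hsb])
  have hw3' : w3 * (e ^ 2 + e1 ^ 2) ≤ 1 / 32 * t * (e ^ 2 + e1 ^ 2) :=
    mul_le_mul_of_nonneg_right ((le_abs_self _).trans hw3) (by positivity)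
  have hDD : D ^ 2 ≤ (P + 1 / 100) ^ 2 * e ^ 2 := by
    rw [← sq_abs D, ← sq_abs e, ← mul_pow]
    exact pow_le_pow_left₀ (abs_nonneg _) hD 2
  have hDD' : D ^ 2 ≤ (Pm * P + 1 / 50 * P + 1 / 10000) * e ^ 2 := by
    refine hDD.trans (mul_le_mul_of_nonneg_right ?_ hq0)
    (first | linarith only [hP, hPm] | nlinarith only [hP, hPm])
  have hD2 : -(w1 * (1 / 2 * D ^ 2)) ≤ t * D ^ 2 := by
    have h1 : -(w1 * (1 / 2 * D ^ 2)) ≤ |w1| * (1 / 2 * D ^ 2) := by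
      have := neg_abs_le w1
      have h2 : 0 ≤ 1 / 2 * D ^ 2 := by positivity
      (first | linarith only [this] | nlinarith only [this])
    have h2 : |w1| * (1 / 2 * D ^ 2) ≤ 2 * t * (1 / 2 * D ^ 2) :=
      mul_le_mul_of_nonneg_right hw1 (by positivity)
    linarith
  have hD3 : t * D ^ 2 ≤ t * ((Pm * P + 1 / 50 * P + 1 / 10000) * e ^ 2) :=
    mul_le_mul_of_nonneg_left hDD' ht
  have hE1 : w1 * (D * (e - 2 * e2)) ≤ 2 * t * (|D| * (|e| + 2 * |e2|)) := by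
    calc w1 * (D * (e - 2 * e2)) ≤ |w1 * (D * (e - 2 * e2))| := le_abs_self _
      _ = |w1| * (|D| * |e - 2 * e2|) := by rw [abs_mul, abs_mul]
      _ ≤ 2 * t * (|D| * (|e| + 2 * |e2|)) := by
        refine mul_le_mul hw1 ?_ (by positivity) (by positivity)
        apply mul_le_mul_of_nonneg_left _ (abs_nonneg _)
        calc |e - 2 * e2| ≤ |e| + |2 * e2| := abs_sub _ _
          _ = |e| + 2 * |e2| := by rw [abs_mul, abs_two]
  have hE2 : -(w2 * e1 * D) ≤ t * (|D| * |e1|) := by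
    calc -(w2 * e1 * D) ≤ |w2 * e1 * D| := neg_le_abs _
      _ = |w2| * (|D| * |e1|) := by rw [abs_mul, abs_mul]; ring
      _ ≤ t * (|D| * |e1|) := mul_le_mul_of_nonneg_right hw2 (by positivity)
  have hE2' : t * (|D| * |e1|) ≤ 2 * t * (|D| * |e1|) := by
    have : 0 ≤ t * (|D| * |e1|) := by positivity
    linarith
  have hE3 : |D| * (|e| + |e1| + 2 * |e2|) ≤ 1 / 100 * (5 / 2 * e ^ 2 + 1 / 2 * e1 ^ 2 + e2 ^ 2)
      + 1 / 8 * (e1 ^ 2 + e2 ^ 2) + (1 + 10 * Pm) * P * e ^ 2 := by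
    have h1 := Fma_alg hP hPm (abs_nonneg e) (abs_nonneg e1) (abs_nonneg e2)
    rw [sq_abs, sq_abs, sq_abs] at h1
    refine le_trans ?_ h1
    exact mul_le_mul_of_nonneg_right hD (by positivity)
  have hE4 := mul_le_mul_of_nonneg_left hE3 ht
  have hs0 : 0 ≤ t * e ^ 2 := by positivity
  have hs1 : 0 ≤ t * e1 ^ 2 := by positivity
  have hs2 : 0 ≤ t * e2 ^ 2 := by positivity
  have hPs : 0 ≤ P * (t * e ^ 2) := mul_nonneg hP hs0
  have hE5 : 2 * t * (|D| * (|e| + 2 * |e2|)) + 2 * t * (|D| * |e1|) =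
      2 * (t * (|D| * (|e| + |e1| + 2 * |e2|))) := by ring
  have hE6 : t * (1 / 100 * (5 / 2 * e ^ 2 + 1 / 2 * e1 ^ 2 + e2 ^ 2)
      + 1 / 8 * (e1 ^ 2 + e2 ^ 2) + (1 + 10 * Pm) * P * e ^ 2) =
      1 / 40 * (t * e ^ 2) + 1 / 200 * (t * e1 ^ 2) + 1 / 100 * (t * e2 ^ 2)
        + 1 / 8 * (t * e1 ^ 2) + 1 / 8 * (t * e2 ^ 2) + (1 + 10 * Pm) * (P * (t * e ^ 2)) := by
    ring
  have hE7 : t * ((Pm * P + 1 / 50 * P + 1 / 10000) * e ^ 2) =
      Pm * (P * (t * e ^ 2)) + 1 / 50 * (P * (t * e ^ 2)) + 1 / 10000 * (t * e ^ 2) := by ring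
  have hE8 : (3 + 21 * Pm) * P * (t * e ^ 2) = 3 * (P * (t * e ^ 2)) + 21 * (Pm * (P * (t * e ^ 2))) := by
    ring
  have hE9 : (1 + 10 * Pm) * (P * (t * e ^ 2)) = P * (t * e ^ 2) + 10 * (Pm * (P * (t * e ^ 2))) := by ring
  have hE10 : t * (1 / 2 * e ^ 2 + 2 * e1 ^ 2 + 3 / 2 * e2 ^ 2) =
      1 / 2 * (t * e ^ 2) + 2 * (t * e1 ^ 2) + 3 / 2 * (t * e2 ^ 2) := by ring
  have hE11 : 1 / 32 * t * (e ^ 2 + e1 ^ 2) = 1 / 32 * (t * e ^ 2) + 1 / 32 * (t * e1 ^ 2) := by ring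
  have hE12 : t * (e ^ 2 + e1 ^ 2 + e2 ^ 2) = t * e ^ 2 + t * e1 ^ 2 + t * e2 ^ 2 := by ring
  rw [hE6, hE9] at hE4
  rw [hE7] at hD3
  rw [hE10] at hmain
  rw [hE11] at hw3'
  rw [hE8, hE12]
  linarith

theorem Fma_cl {B s : ℝ} {w f g : ℝ → ℝ}
    (hw : Cl (2 * s) (2 * s + 1 / B) w) (hf : Cl 0 0 f) (hg : Cl 0 0 g) :
    Cl (2 * s) (2 * s + 1 / B) (fun y => w y * (f y * g y)) :=
  Cl_mono (Cl_mul hw (Cl_mul hf hg)) (by linarith) (by linarith)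

theorem FT1 : ∃ ν C : ℝ, 0 < ν ∧ ν ≤ 1 ∧ 0 < C ∧ ∀ γ : ℝ, 0 < γ → γ ≤ 1 / 8 →
    ∀ B s : ℝ, Slow4 B s → ∀ ε : ℝ → ℝ, Cl 0 0 ε → (∀ y, |ε y| ≤ ν) →
    EE4 B s ε (deriv (gf 4 ε)) ≤ -(1 / 4) * T4 B s ε + C / B * ln γ B ε + C * Bad s ε := by
  have hk1 : 1 ≤ 4 := by omega
  obtain ⟨C1, hC1, hQ⟩ := Qf_hi hk1
  set A : ℝ := 2 ^ 4 with hA
  have hA1 : 1 ≤ A := one_le_pow₀ (by norm_num)
  have hA0 : 0 < A := by linarith
  set K : ℝ := C1 ^ 4 with hK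
  have hK0 : 0 < K := by positivity
  have hQk : ∀ y, Qf 4 y ^ 4 ≤ K * Real.exp (-|y|) := by
    intro y
    have h1 : Qf 4 y ^ 4 ≤ (C1 * Real.exp (-|y|)) ^ 4 :=
      pow_le_pow_left₀ (Qf_pos 4 y).le (hQ y) 4
    rw [mul_pow] at h1
    have h2 : Real.exp (-|y|) ^ 4 ≤ Real.exp (-|y|) :=
      pow_le_of_le_one (Real.exp_pos _).le (Real.exp_le_one_iff.2 (by linarith [abs_nonneg y]))
        (by omega)
    exact h1.trans (mul_le_mul_of_nonneg_left h2 hK0.le)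
  have hQk' : ∀ y, Qf 4 y ^ 4 ≤ K := by
    intro y
    refine (hQk y).trans ?_
    have : Real.exp (-|y|) ≤ 1 := Real.exp_le_one_iff.2 (by linarith [abs_nonneg y])
    nlinarith
  set M : ℝ := (3 + 21 * (A * K)) * A * (2 * K) with hM
  have hM0 : 0 < M := by positivity
  refine ⟨1 / (100 * A), M + 6, by positivity, ?_, by positivity, ?_⟩
  · rw [div_le_one (by positivity)]; linarith
  intro γ hγ hγ' B s hs ε hcl hεν
  obtain ⟨hB, hs0, hsB⟩ := id hs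
  have hB0 : 0 < B := by linarith
  have hc1 : Cl 0 0 (deriv ε) := Cl_der hcl
  have hc2 : Cl 0 0 (deriv (deriv ε)) := Cl_der hc1
  have hcD : Cl 0 0 (Df 4 ε) := Cl_Df hk1 le_rfl le_rfl hcl
  have hcg : Cl 0 0 (gf 4 ε) := Cl_gf hk1 le_rfl le_rfl hcl
  have hw0 : Cl (2 * s) (2 * s + 1 / B) (om4 B s) := Cl_om4 hs
  have hw1 : Cl (2 * s) (2 * s + 1 / B) (deriv (om4 B s)) := Cl_der hw0
  have hw2 : Cl (2 * s) (2 * s + 1 / B) (deriv (deriv (om4 B s))) := Cl_der hw1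
  have hta : Cl (2 * s) (2 * s + 1 / B) (ta B s) := Cl_ta hs
  have hPp : 0 < 2 * s := by linarith
  have hQp : 0 < 2 * s + 1 / B := by positivity
  -- integrability of the pieces
  have i1 : Integrable (fun y => deriv (om4 B s) y * (gf 4 ε y) ^ 2) := by
    have := Cl_int (Fma_cl hw1 hcg hcg) hPp hQp
    refine this.congr (Eventually.of_forall fun y => ?_)
    simp only; ring
  have i2 : Integrable (fun y => deriv (om4 B s) y * ((ε y - Df 4 ε y) * gf 4 ε y)) :=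
    Cl_int (Fma_cl hw1 (Cl_sub hcl hcD) hcg) hPp hQp
  have i3 : Integrable (fun y => deriv (deriv (om4 B s)) y * (deriv ε y * gf 4 ε y)) :=
    Cl_int (Fma_cl hw2 hc1 hcg) hPp hQp
  have sqi : ∀ f : ℝ → ℝ, Cl 0 0 f → Integrable (fun y => ta B s y * (f y) ^ 2) := by
    intro f hf
    have := Cl_int (Fma_cl hta hf hf) hPp hQp
    refine this.congr (Eventually.of_forall fun y => ?_)
    simp only; ring
  have iT : Integrable (fun y => ta B s y *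
      ((ε y) ^ 2 + (deriv ε y) ^ 2 + (deriv (deriv ε) y) ^ 2)) := by
    refine (((sqi _ hcl).add (sqi _ hc1)).add (sqi _ hc2)).congr (Eventually.of_forall fun y => ?_)
    simp only [Pi.add_apply]; ring
  have hsum : Cl 0 0 (fun y => (ε y) ^ 2 + (deriv ε y) ^ 2 + (deriv (deriv ε) y) ^ 2) :=
    Cl_add (Cl_add (Cl_pow0 hcl 2) (Cl_pow0 hc1 2)) (Cl_pow0 hc2 2)
  have iBd : Integrable (fun y => bi s y *
      ((ε y) ^ 2 + (deriv ε y) ^ 2 + (deriv (deriv ε) y) ^ 2)) := bi_int hs0 hsum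
  have iL : Integrable (fun y => loc γ B y * ((ε y) ^ 2 + (deriv ε y) ^ 2)) := by
    have h := Cl_mul (Cl_se2 hγ) (Cl_ch hB0)
    have h1 := Cl_mul h (Cl_add (Cl_pow0 hcl 2) (Cl_pow0 hc1 2))
    exact Cl_int h1 (by positivity) (by positivity)
  -- the primitive
  set H : ℝ → ℝ := fun y => 2 * (deriv (om4 B s) y * (ε y * deriv ε y))
    - 1 / 2 * (deriv (deriv (om4 B s)) y * (ε y * ε y)
      + deriv (deriv (om4 B s)) y * (deriv ε y * deriv ε y)) with hH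
  have hHcl : Cl (2 * s) (2 * s + 1 / B) H :=
    Cl_sub (Cl_smul 2 (Fma_cl hw1 hcl hc1))
      (Cl_smul (1 / 2) (Cl_add (Fma_cl hw2 hcl hcl) (Fma_cl hw2 hc1 hc1)))
  have hHd : ∀ y, deriv H y = (2 * (deriv (deriv (om4 B s)) y * (ε y * deriv ε y))
      + 2 * (deriv (om4 B s) y * (deriv ε y * deriv ε y))
      + 2 * (deriv (om4 B s) y * (ε y * deriv (deriv ε) y)))
      - 1 / 2 * (deriv (deriv (deriv (om4 B s))) y * ((ε y) ^ 2 + (deriv ε y) ^ 2)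
        + deriv (deriv (om4 B s)) y * (2 * (ε y * deriv ε y)
          + 2 * (deriv ε y * deriv (deriv ε) y))) := by
    intro y
    have d0 := Cl_hd hcl y
    have d1 := Cl_hd hc1 y
    have w1 := Cl_hd hw1 y
    have w2 := Cl_hd hw2 y
    have hd : HasDerivAt H _ y :=
      ((w1.mul (d0.mul d1)).const_mul 2).sub
        (((w2.mul (d0.mul d0)).add (w2.mul (d1.mul d1))).const_mul (1 / 2))
    rw [hd.deriv]
    simp only [Pi.mul_apply]
    ring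
  -- pointwise estimate
  have hF : Integrable (fun y => -(3 / 2) * (deriv (om4 B s) y * (gf 4 ε y) ^ 2)
      + deriv (om4 B s) y * ((ε y - Df 4 ε y) * gf 4 ε y)
      + deriv (deriv (om4 B s)) y * (deriv ε y * gf 4 ε y)) :=
    ((i1.const_mul _).add i2).add i3
  have iTL : Integrable (fun y => -(1 / 4) * (ta B s y *
      ((ε y) ^ 2 + (deriv ε y) ^ 2 + (deriv (deriv ε) y) ^ 2))
      + M / B * (loc γ B y * ((ε y) ^ 2 + (deriv ε y) ^ 2))) :=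
    (iT.const_mul _).add (iL.const_mul _)
  have iB6 : Integrable (fun y => 6 * s * (bi s y *
      ((ε y) ^ 2 + (deriv ε y) ^ 2 + (deriv (deriv ε) y) ^ 2))) := iBd.const_mul _
  have hG : Integrable (fun y => -(1 / 4) * (ta B s y *
      ((ε y) ^ 2 + (deriv ε y) ^ 2 + (deriv (deriv ε) y) ^ 2))
      + M / B * (loc γ B y * ((ε y) ^ 2 + (deriv ε y) ^ 2))
      + 6 * s * (bi s y * ((ε y) ^ 2 + (deriv ε y) ^ 2 + (deriv (deriv ε) y) ^ 2))) :=
    iTL.add iB6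
  have hln0 : 0 ≤ ln γ B ε := by
    unfold ln
    exact integral_nonneg fun y => mul_nonneg (loc_pos γ B y).le (by positivity)
  have hBad0 : 0 ≤ Bad s ε := by
    rw [Bad_eq]
    exact mul_nonneg hs0.le (integral_nonneg fun y => mul_nonneg (bi_nonneg s y) (by positivity))
  have hle := Cl_int_le hF hG hHcl hPp hQp ?_
  · have hEE := EE4_main hs hcl
    have e1 : (∫ y, (-(3 / 2) * (deriv (om4 B s) y * (gf 4 ε y) ^ 2)
      + deriv (om4 B s) y * ((ε y - Df 4 ε y) * gf 4 ε y)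
      + deriv (deriv (om4 B s)) y * (deriv ε y * gf 4 ε y))) =
      -(3 / 2) * (∫ y, deriv (om4 B s) y * (gf 4 ε y) ^ 2)
      + (∫ y, deriv (om4 B s) y * ((ε y - Df 4 ε y) * gf 4 ε y))
      + ∫ y, deriv (deriv (om4 B s)) y * (deriv ε y * gf 4 ε y) := by
      have i12 : Integrable (fun y => -(3 / 2) * (deriv (om4 B s) y * (gf 4 ε y) ^ 2)
          + deriv (om4 B s) y * ((ε y - Df 4 ε y) * gf 4 ε y)) := (i1.const_mul _).add i2
      rw [integral_add i12 i3, integral_add (i1.const_mul _) i2, integral_const_mul]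
    have e2 : (∫ y, (-(1 / 4) * (ta B s y *
      ((ε y) ^ 2 + (deriv ε y) ^ 2 + (deriv (deriv ε) y) ^ 2))
      + M / B * (loc γ B y * ((ε y) ^ 2 + (deriv ε y) ^ 2))
      + 6 * s * (bi s y * ((ε y) ^ 2 + (deriv ε y) ^ 2 + (deriv (deriv ε) y) ^ 2)))) =
      -(1 / 4) * T4 B s ε + M / B * ln γ B ε + 6 * Bad s ε := by
      rw [integral_add iTL iB6, integral_add (iT.const_mul _) (iL.const_mul _), integral_const_mul,
        integral_const_mul, integral_const_mul, Bad_eq, T4_eq, mul_assoc 6 s]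
      rfl
    rw [hEE, ← e1]
    refine hle.trans ?_
    rw [e2]
    have h1 : M / B * ln γ B ε ≤ (M + 6) / B * ln γ B ε := by
      apply mul_le_mul_of_nonneg_right _ hln0
      apply div_le_div_of_nonneg_right _ hB0.le
      linarith
    have h2 : 6 * Bad s ε ≤ (M + 6) * Bad s ε := mul_le_mul_of_nonneg_right (by linarith) hBad0
    linarith
  · intro y
    rw [hHd]
    have hP : 0 ≤ A * Qf 4 y ^ 4 := mul_nonneg hA0.le (pow_nonneg (Qf_pos 4 y).le 4)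
    have hPm : A * Qf 4 y ^ 4 ≤ A * K := mul_le_mul_of_nonneg_left (hQk' y) hA0.le
    have ht0 : 0 ≤ ta B s y := (ta_pos hs y).le
    have hB2 : 2 / B ≤ 1 := by rw [div_le_one hB0]; linarith
    have hw2' : |deriv (deriv (om4 B s)) y| ≤ ta B s y := by
      refine (om42_le hs y).trans ?_
      calc 2 / B * ta B s y ≤ 1 * ta B s y :=
            mul_le_mul_of_nonneg_right hB2 ht0
        _ = _ := one_mul _
    have hw3' : |deriv (deriv (deriv (om4 B s))) y| ≤ 1 / 32 * ta B s y := by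
      refine (om43_le hs y).trans (mul_le_mul_of_nonneg_right ?_ ht0)
      rw [div_le_div_iff₀ (by positivity) (by norm_num)]
      nlinarith
    have hDle : |Df 4 ε y| ≤ (A * Qf 4 y ^ 4 + 1 / 100) * |ε y| := by
      refine (D_le 4 ε y).trans (mul_le_mul_of_nonneg_right ?_ (abs_nonneg _))
      have h1 : |ε y| ^ 4 ≤ 1 / (100 * A) := by
        have hle1 : |ε y| ≤ 1 := (hεν y).trans (by rw [div_le_one (by positivity)]; linarith)
        exact (pow_le_of_le_one (abs_nonneg _) hle1 (by omega)).trans (hεν y)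
      have h2 : A * |ε y| ^ 4 ≤ 1 / 100 := by
        calc A * |ε y| ^ 4 ≤ A * (1 / (100 * A)) := mul_le_mul_of_nonneg_left h1 hA0.le
          _ = 1 / 100 := by field_simp
      rw [← hA, mul_add]
      linarith
    have hsb : 0 ≤ s * bi s y := mul_nonneg hs0.le (bi_nonneg s y)
    have hlo : ta B s y - 3 * (s * bi s y) ≤ deriv (om4 B s) y := by
      have := om41_lo hs y
      linarith
    have hpt := Fma_pt (e1 := deriv ε y) (e2 := deriv (deriv ε) y) ht0 hsb (om41_le hs y) hlo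
      hw2' hw3' hP hPm hDle
    have hgf : gf 4 ε y = -deriv (deriv ε) y + ε y - Df 4 ε y := rfl
    rw [hgf]
    refine hpt.trans ?_
    have hlast : (3 + 21 * (A * K)) * (A * Qf 4 y ^ 4) * (ta B s y * ε y ^ 2) ≤
        M / B * (loc γ B y * ((ε y) ^ 2 + (deriv ε y) ^ 2)) := by
      have h1 : Qf 4 y ^ 4 * ta B s y ≤ 2 * K / B * loc γ B y := by
        calc Qf 4 y ^ 4 * ta B s y
            ≤ (K * Real.exp (-|y|)) * (2 / B) :=
              mul_le_mul (hQk y) (ta_hi hs y) ht0 (by positivity)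
          _ = 2 * K / B * Real.exp (-|y|) := by ring
          _ ≤ 2 * K / B * loc γ B y := by
              apply mul_le_mul_of_nonneg_left _ (by positivity)
              refine le_trans ?_ (ex_le_loc hγ hγ' hB y)
              apply Real.exp_le_exp.2
              linarith [abs_nonneg y]
      have h2 : (Qf 4 y ^ 4 * ta B s y) * ε y ^ 2 ≤
          (2 * K / B * loc γ B y) * ((ε y) ^ 2 + (deriv ε y) ^ 2) := by
        apply mul_le_mul h1 _ (by positivity) (by have := (loc_pos γ B y).le; positivity)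
        (first | linarith only [sq_nonneg (deriv ε y)] | nlinarith only [sq_nonneg (deriv ε y)])
      calc (3 + 21 * (A * K)) * (A * Qf 4 y ^ 4) * (ta B s y * ε y ^ 2)
          = ((3 + 21 * (A * K)) * A) * ((Qf 4 y ^ 4 * ta B s y) * ε y ^ 2) := by ring
        _ ≤ ((3 + 21 * (A * K)) * A) * ((2 * K / B * loc γ B y) *
            ((ε y) ^ 2 + (deriv ε y) ^ 2)) := mul_le_mul_of_nonneg_left h2 (by positivity)
        _ = _ := by rw [hM]; ring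
    have h6 : 6 * (s * bi s y * ((ε y) ^ 2 + (deriv ε y) ^ 2 + (deriv (deriv ε) y) ^ 2)) =
        6 * s * (bi s y * ((ε y) ^ 2 + (deriv ε y) ^ 2 + (deriv (deriv ε) y) ^ 2)) := by ring
    linarith

end H98KC

end

end S_H98_KC_Fma

section S_H98_KC_Fmd

/-!
# Fmd (MP_95be7d_S4): forcing terms in the energy (variant of `KB/Eme.lean`; uses `EE4_g`, `Wza`, `Wzb`)

`EE4(S) = ∫om g S - ∫om'ε'S`, `|g| ≤ C(|ε|+|ε''|)` (`D_le`, `Q` bounded, `|ε| ≤ 1`), so `∫ta g² ≤ C T4`; `|om'| ≤ 2ta`.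
* `FT8`: `τ₀`-part: `om ≤ ta/s`: `∫om|g|(|ε|+|ε'|+|ε''|) ≤ (C/s)T4`, `∫ta|ε'|(...) ≤ C T4 ≤ (C/s) T4` (`s ≤ 1`).
  `τ₁`-part: Cauchy-Schwarz, `∫om|g|bd ≤ (∫ta g²)^{1/2}(∫om²bd²/ta)^{1/2}`, `om²bd²/ta ≤ 4B e^{-|y|/B}` (`rat_le`), `∫e^{-|y|/B} = 2B`;
  `∫ta|ε'|bd ≤ (T4)^{1/2}(∫ta bd²)^{1/2}`, `ta_bd`.
  `τ₂`-part: `∫om|g| ≤ (∫ta g²)^{1/2}(∫om²/ta)^{1/2}`, `om²/ta ≤ om/s`, `∫om ≤ 2/s` (`int_om4`); `∫ta|ε'| ≤ (T4)^{1/2}(∫ta)^{1/2}`, `∫ta ≤ (2/B)∫om ≤ 2/s ≤ 2/s²`.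
* `FT7`: `ζ = et'`: `∫om|g||et'| ≤ (∫ta g²)^{1/2}(∫(om²/ta)et'²)^{1/2}`, `om²/ta ≤ om/s ≤ 1/s`; `∫|om'||ε'||et'| ≤ 2T4^{1/2}(∫ta et'²)^{1/2}`, `ta ≤ 1 ≤ 1/s`.
  (`ne2 et = ∫(et²+et'²)`.)
-/

open MeasureTheory Filter Topology Set
open scoped ContDiff

noncomputable section

namespace H98KC

open H98KB H68KC

/-- `ε² + ε'² + ε''²` -/
def Fmd_N (ε : ℝ → ℝ) (y : ℝ) : ℝ := (ε y) ^ 2 + (deriv ε y) ^ 2 + (deriv (deriv ε) y) ^ 2

theorem Fmd_N0 (ε : ℝ → ℝ) (y : ℝ) : 0 ≤ Fmd_N ε y := by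
  unfold Fmd_N; positivity

theorem Fmd_a (ε : ℝ → ℝ) (y : ℝ) : |ε y| ≤ √(Fmd_N ε y) ∧ |deriv ε y| ≤ √(Fmd_N ε y) ∧
    |deriv (deriv ε) y| ≤ √(Fmd_N ε y) := by
  have h1 := sq_nonneg (ε y)
  have h2 := sq_nonneg (deriv ε y)
  have h3 := sq_nonneg (deriv (deriv ε) y)
  refine ⟨Real.abs_le_sqrt ?_, Real.abs_le_sqrt ?_, Real.abs_le_sqrt ?_⟩ <;> unfold Fmd_N <;> linarith

theorem Fmd_g : ∃ K : ℝ, 0 < K ∧ ∀ (ε : ℝ → ℝ) (y : ℝ), |ε y| ≤ 1 →
    |gf 4 ε y| ≤ K * √(Fmd_N ε y) := by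
  obtain ⟨M, hM, hQ, -⟩ := Nlb_max (k := 4) (by norm_num)
  refine ⟨2 + 2 ^ 4 * (M ^ 4 + 1), by positivity, fun ε y h1 => ?_⟩
  obtain ⟨a1, -, a3⟩ := Fmd_a ε y
  have hD := D_le 4 ε y
  have hQk : Qf 4 y ^ 4 ≤ M ^ 4 := pow_le_pow_left₀ (Qf_pos 4 y).le (hQ y) 4
  have hek : |ε y| ^ 4 ≤ 1 := pow_le_one₀ (abs_nonneg _) h1
  have hD2 : |Df 4 ε y| ≤ 2 ^ 4 * (M ^ 4 + 1) * |ε y| := by
    refine hD.trans ?_
    apply mul_le_mul_of_nonneg_right _ (abs_nonneg _)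
    apply mul_le_mul_of_nonneg_left _ (by positivity)
    linarith
  have e1 : |gf 4 ε y| ≤ |deriv (deriv ε) y| + |ε y| + |Df 4 ε y| := by
    unfold gf
    have b1 := abs_sub (-deriv (deriv ε) y + ε y) (Df 4 ε y)
    have b2 := abs_add_le (-deriv (deriv ε) y) (ε y)
    rw [abs_neg] at b2
    linarith
  have e2 : 2 ^ 4 * (M ^ 4 + 1) * |ε y| ≤ 2 ^ 4 * (M ^ 4 + 1) * √(Fmd_N ε y) :=
    mul_le_mul_of_nonneg_left a1 (by positivity)
  calc |gf 4 ε y| ≤ √(Fmd_N ε y) + √(Fmd_N ε y) + 2 ^ 4 * (M ^ 4 + 1) * √(Fmd_N ε y) := by linarith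
    _ = (2 + 2 ^ 4 * (M ^ 4 + 1)) * √(Fmd_N ε y) := by ring

theorem Fmd_cs {F φ W V : ℝ → ℝ} (hF : Continuous F) (hφ : Continuous φ) (hW : Continuous W)
    (hWp : ∀ y, 0 < W y) (hF2 : Integrable (fun y => W y * F y ^ 2))
    (hV : Integrable V) (hVφ : ∀ y, φ y ^ 2 ≤ V y * W y) :
    Integrable (fun y => F y * φ y) ∧
      ∫ y, F y * φ y ≤ √(∫ y, V y) * √(∫ y, W y * F y ^ 2) := by
  have hc : Continuous fun y => φ y ^ 2 / W y := (hφ.pow 2).div₀ hW fun y => (hWp y).ne'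
  have hle : ∀ y, φ y ^ 2 / W y ≤ V y := fun y => by
    rw [div_le_iff₀ (hWp y)]
    exact hVφ y
  have hi : Integrable (fun y => φ y ^ 2 / W y) := by
    refine hV.mono' hc.aestronglyMeasurable (ae_of_all _ fun y => ?_)
    rw [Real.norm_eq_abs, abs_of_nonneg (div_nonneg (sq_nonneg _) (hWp y).le)]
    exact hle y
  obtain ⟨h1, h2⟩ := cs_wt hF hφ hW hWp hF2 hi
  refine ⟨h1, (le_abs_self _).trans (h2.trans ?_)⟩
  exact mul_le_mul_of_nonneg_right (Real.sqrt_le_sqrt (integral_mono hi hV hle)) (Real.sqrt_nonneg _)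

theorem Fmd_Nc {ε : ℝ → ℝ} (hε : Cl 0 0 ε) : Cl 0 0 (Fmd_N ε) :=
  Cl_add (Cl_add (Cl_pow0 hε 2) (Cl_pow0 (Cl_der hε) 2)) (Cl_pow0 (Cl_der (Cl_der hε)) 2)

theorem Fmd_nc {ε : ℝ → ℝ} (hε : Cl 0 0 ε) : Continuous (fun y => √(Fmd_N ε y)) :=
  Real.continuous_sqrt.comp (Cl_cont (Fmd_Nc hε))

theorem Fmd_T {B s : ℝ} {ε : ℝ → ℝ} (h : Slow4 B s) (hε : Cl 0 0 ε) :
    Integrable (fun y => ta B s y * (√(Fmd_N ε y)) ^ 2) ∧
      ∫ y, ta B s y * (√(Fmd_N ε y)) ^ 2 = T4 B s ε := by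
  have hs : 0 < s := h.2.1
  have hB : 0 < B := by linarith [h.1]
  have hb : 0 < 1 / B := by positivity
  have e : (fun y => ta B s y * (√(Fmd_N ε y)) ^ 2) = fun y => ta B s y * Fmd_N ε y := by
    funext y
    rw [Real.sq_sqrt (Fmd_N0 ε y)]
  rw [e]
  exact ⟨Cl_int (Cl_mul (Cl_ta h) (Fmd_Nc hε)) (by linarith) (by linarith), rfl⟩

theorem Fmd_abs {B s K : ℝ} {ε ζ Z : ℝ → ℝ} (h : Slow4 B s) (hε : Cl 0 0 ε)
    (hζ : Cl (-(s / 2)) (-(s / 2)) ζ) (hK : ∀ y, |gf 4 ε y| ≤ K * √(Fmd_N ε y))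
    (hK0 : 0 < K) (hZ : ∀ y, |ζ y| ≤ Z y)
    (hi : Integrable (fun y => √(Fmd_N ε y) * ((K * om4 B s y + 2 * ta B s y) * Z y))) :
    |EE4 B s ε ζ| ≤ ∫ y, √(Fmd_N ε y) * ((K * om4 B s y + 2 * ta B s y) * Z y) := by
  have hs : 0 < s := h.2.1
  have hB : 0 < B := by linarith [h.1]
  have hb : 0 < 1 / B := by positivity
  have cg : Cl 0 0 (gf 4 ε) := Cl_gf (by norm_num) le_rfl le_rfl hε
  have i1 : Integrable (fun y => om4 B s y * (gf 4 ε y * ζ y)) :=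
    Cl_int (Cl_mul (Cl_om4 h) (Cl_mul cg hζ)) (by linarith) (by linarith)
  have i2 : Integrable (fun y => deriv (om4 B s) y * (deriv ε y * ζ y)) :=
    Cl_int (Cl_mul (Cl_der (Cl_om4 h)) (Cl_mul (Cl_der hε) hζ)) (by linarith) (by linarith)
  rw [EE4_g h hε hζ, ← integral_sub i1 i2, ← Real.norm_eq_abs]
  refine norm_integral_le_of_norm_le hi (ae_of_all _ fun y => ?_)
  rw [Real.norm_eq_abs]
  obtain ⟨-, a2, -⟩ := Fmd_a ε y
  have a4 := om4_pos B s y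
  have a5 := ta_pos h y
  have a6 := om41_le h y
  have n0 := Real.sqrt_nonneg (Fmd_N ε y)
  have z0 := abs_nonneg (ζ y)
  have t1 : |om4 B s y * (gf 4 ε y * ζ y)| ≤ om4 B s y * (K * √(Fmd_N ε y) * |ζ y|) := by
    rw [abs_mul, abs_mul, abs_of_pos a4]
    exact mul_le_mul_of_nonneg_left (mul_le_mul_of_nonneg_right (hK y) z0) a4.le
  have t2 : |deriv (om4 B s) y * (deriv ε y * ζ y)| ≤ 2 * ta B s y * (√(Fmd_N ε y) * |ζ y|) := by
    rw [abs_mul, abs_mul]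
    exact mul_le_mul a6 (mul_le_mul_of_nonneg_right a2 z0) (by positivity) (by positivity)
  have t3 := abs_sub (om4 B s y * (gf 4 ε y * ζ y)) (deriv (om4 B s) y * (deriv ε y * ζ y))
  have t4 : √(Fmd_N ε y) * ((K * om4 B s y + 2 * ta B s y) * |ζ y|) ≤
      √(Fmd_N ε y) * ((K * om4 B s y + 2 * ta B s y) * Z y) :=
    mul_le_mul_of_nonneg_left (mul_le_mul_of_nonneg_left (hZ y) (by positivity)) n0
  refine t3.trans ((add_le_add t1 t2).trans (le_trans (le_of_eq ?_) t4))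
  ring

theorem Fmd_sq {B s K : ℝ} (h : Slow4 B s) (y : ℝ) : (K * om4 B s y + 2 * ta B s y) ^ 2 ≤
    2 * K ^ 2 * (om4 B s y) ^ 2 + 8 * (ta B s y) ^ 2 := by
  nlinarith [sq_nonneg (K * om4 B s y - 2 * ta B s y)]

theorem FT8 (B : ℝ) (hB : 16 ≤ B) : ∃ C : ℝ, 0 < C ∧ ∀ s : ℝ, Slow4 B s → ∀ ε S : ℝ → ℝ,
    Cl 0 0 ε → Cl 0 0 S → (∀ y, |ε y| ≤ 1) → ∀ τ₀ τ₁ τ₂ : ℝ, 0 ≤ τ₀ → 0 ≤ τ₁ → 0 ≤ τ₂ →
    SB τ₀ τ₁ τ₂ ε S →
    |EE4 B s ε S| ≤ C * (τ₀ / s) * T4 B s ε + C * √(T4 B s ε) * (τ₁ + τ₂ / s) := by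
  obtain ⟨K, hK, hg⟩ := Fmd_g
  have hB0 : 0 < B := by linarith
  obtain ⟨A1, hA1⟩ : ∃ A1 : ℝ, A1 = 3 * (K + 2) := ⟨_, rfl⟩
  obtain ⟨A2, hA2⟩ : ∃ A2 : ℝ, A2 = √(∫ y, (8 * K ^ 2 * B + 8) * Real.exp (-(|y| / B))) := ⟨_, rfl⟩
  obtain ⟨A3, hA3⟩ : ∃ A3 : ℝ, A3 = √(2 * (2 * K ^ 2 + 1)) := ⟨_, rfl⟩
  have p1 : 0 < A1 := by rw [hA1]; positivity
  have p2 : 0 ≤ A2 := by rw [hA2]; exact Real.sqrt_nonneg _
  have p3 : 0 ≤ A3 := by rw [hA3]; exact Real.sqrt_nonneg _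
  refine ⟨A1 + A2 + A3, by linarith, fun s h ε S hε hS h1 τ₀ τ₁ τ₂ h0 h1' h2 hb => ?_⟩
  have hs : 0 < s := h.2.1
  have hs1 : s ≤ 1 := by
    have := h.2.2
    nlinarith
  have hs1' : 1 ≤ 1 / s := by
    rw [le_div_iff₀ hs]; linarith
  have hbi : 0 < 1 / B := by positivity
  have co := Cl_cont (Cl_om4 h)
  have ct := Cl_cont (Cl_ta h)
  have cn := Fmd_nc hε
  obtain ⟨iT, eT⟩ := Fmd_T h hε
  have hT0 : 0 ≤ T4 B s ε := by
    rw [← eT]
    exact integral_nonneg fun y => mul_nonneg (ta_pos h y).le (sq_nonneg _)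
  -- pointwise bound of S
  have hZ : ∀ y, |S y| ≤ τ₀ * (3 * √(Fmd_N ε y)) + τ₁ * bd (1 / 2) 0 y + τ₂ := fun y => by
    obtain ⟨a1, a2, a3⟩ := Fmd_a ε y
    have a4 := hb y
    have a5 : τ₀ * (|ε y| + |deriv ε y| + |deriv (deriv ε) y|) ≤ τ₀ * (3 * √(Fmd_N ε y)) :=
      mul_le_mul_of_nonneg_left (by linarith) h0
    linarith
  -- the three parts
  have j0 : Integrable (fun y => (K * om4 B s y + 2 * ta B s y) * Fmd_N ε y) := by
    have := Cl_mul (Cl_add (Cl_smul K (Cl_om4 h)) (Cl_smul 2 (Cl_ta h))) (Fmd_Nc hε)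
    exact Cl_int this (by linarith) (by linarith)
  have jT : Integrable (fun y => ta B s y * Fmd_N ε y) :=
    Cl_int (Cl_mul (Cl_ta h) (Fmd_Nc hε)) (by linarith) (by linarith)
  have k0 : ∫ y, (K * om4 B s y + 2 * ta B s y) * Fmd_N ε y ≤ (K + 2) / s * T4 B s ε := by
    have e : (K + 2) / s * T4 B s ε = ∫ y, (K + 2) / s * (ta B s y * Fmd_N ε y) := by
      rw [integral_const_mul]; rfl
    rw [e]
    refine integral_mono j0 (jT.const_mul _) fun y => ?_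
    have a1 := ta_ge h y
    have a2 := (ta_pos h y).le
    have a3 : om4 B s y ≤ ta B s y / s := by
      rw [le_div_iff₀ hs]; linarith
    have a4 : ta B s y ≤ ta B s y / s := by
      rw [le_div_iff₀ hs]; (first | linarith only [a2, hs1] | nlinarith only [a2, hs1])
    have a5 : K * om4 B s y + 2 * ta B s y ≤ (K + 2) / s * ta B s y := by
      have := mul_le_mul_of_nonneg_left a3 hK.le
      have e3 : (K + 2) / s * ta B s y = K * (ta B s y / s) + 2 * (ta B s y / s) := by ring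
      rw [e3]
      linarith
    have := mul_le_mul_of_nonneg_right a5 (Fmd_N0 ε y)
    show (K * om4 B s y + 2 * ta B s y) * Fmd_N ε y ≤ (K + 2) / s * (ta B s y * Fmd_N ε y)
    linarith
  have iE : Integrable (fun y : ℝ => (8 * K ^ 2 * B + 8) * Real.exp (-(|y| / B))) := by
    have := (bd_int hbi hbi).const_mul (8 * K ^ 2 * B + 8)
    refine this.congr (ae_of_all _ fun y => ?_)
    show (8 * K ^ 2 * B + 8) * bd (1 / B) (1 / B) y = (8 * K ^ 2 * B + 8) * Real.exp (-(|y| / B))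
    rw [bd_abs]
    congr 3
    ring
  obtain ⟨j1, k1⟩ := Fmd_cs (F := fun y => √(Fmd_N ε y))
    (φ := fun y => (K * om4 B s y + 2 * ta B s y) * bd (1 / 2) 0 y) (W := ta B s)
    (V := fun y => (8 * K ^ 2 * B + 8) * Real.exp (-(|y| / B))) cn
    (((continuous_const.mul co).add (continuous_const.mul ct)).mul (bd_cont _ _)) ct (ta_pos h) iT iE
    (fun y => by
      have a1 := rat_le h y
      have a2 := ta_bd h y
      have a3 := (ta_pos h y).le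
      have a4 := Fmd_sq (K := K) h y
      have a5 : 0 ≤ (bd (1 / 2) 0 y) ^ 2 := sq_nonneg _
      have a6 := mul_le_mul_of_nonneg_right a4 a5
      have a7 := mul_le_mul_of_nonneg_left a1 (by positivity : 0 ≤ 2 * K ^ 2)
      have a8 := mul_le_mul_of_nonneg_left a2 (by positivity : 0 ≤ 8 * ta B s y)
      show ((K * om4 B s y + 2 * ta B s y) * bd (1 / 2) 0 y) ^ 2 ≤
        (8 * K ^ 2 * B + 8) * Real.exp (-(|y| / B)) * ta B s y
      calc ((K * om4 B s y + 2 * ta B s y) * bd (1 / 2) 0 y) ^ 2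
          = (K * om4 B s y + 2 * ta B s y) ^ 2 * (bd (1 / 2) 0 y) ^ 2 := by ring
        _ ≤ (2 * K ^ 2 * (om4 B s y) ^ 2 + 8 * (ta B s y) ^ 2) * (bd (1 / 2) 0 y) ^ 2 := a6
        _ = 2 * K ^ 2 * ((om4 B s y) ^ 2 * (bd (1 / 2) 0 y) ^ 2) +
            8 * ta B s y * (ta B s y * (bd (1 / 2) 0 y) ^ 2) := by ring
        _ ≤ 2 * K ^ 2 * (4 * B * Real.exp (-(|y| / B)) * ta B s y) +
            8 * ta B s y * Real.exp (-(|y| / B)) := add_le_add a7 a8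
        _ = (8 * K ^ 2 * B + 8) * Real.exp (-(|y| / B)) * ta B s y := by ring)
  obtain ⟨iO, hO⟩ := int_om4 h
  obtain ⟨j2, k2⟩ := Fmd_cs (F := fun y => √(Fmd_N ε y))
    (φ := fun y => K * om4 B s y + 2 * ta B s y) (W := ta B s)
    (V := fun y => (2 * K ^ 2 + 1) / s * om4 B s y) cn
    ((continuous_const.mul co).add (continuous_const.mul ct)) ct (ta_pos h) iT (iO.const_mul _)
    (fun y => by
      have a1 := ta_ge h y
      have a2 := (om4_pos B s y).le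
      have a3 := (ta_pos h y).le
      have a4 := Fmd_sq (K := K) h y
      have a5 := ta_le h y
      have b1 : om4 B s y ≤ ta B s y / s := by
        rw [le_div_iff₀ hs]; linarith
      have b2 : (om4 B s y) ^ 2 ≤ om4 B s y * (ta B s y / s) := by
        rw [sq]; exact mul_le_mul_of_nonneg_left b1 a2
      have b3 : 8 * ta B s y ≤ 1 / s * om4 B s y := by
        have c1 : 8 * (2 / B) ≤ 1 := by
          rw [← mul_div_assoc, div_le_one hB0]; linarith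
        have c2 : 8 * ta B s y ≤ 8 * (2 / B) * om4 B s y := by linarith
        have c3 := mul_le_mul_of_nonneg_right (c1.trans hs1') a2
        linarith
      have b4 := mul_le_mul_of_nonneg_right b3 a3
      have b5 := mul_le_mul_of_nonneg_left b2 (by positivity : 0 ≤ 2 * K ^ 2)
      show (K * om4 B s y + 2 * ta B s y) ^ 2 ≤ (2 * K ^ 2 + 1) / s * om4 B s y * ta B s y
      calc (K * om4 B s y + 2 * ta B s y) ^ 2
          ≤ 2 * K ^ 2 * (om4 B s y) ^ 2 + 8 * (ta B s y) ^ 2 := a4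
        _ = 2 * K ^ 2 * (om4 B s y) ^ 2 + 8 * ta B s y * ta B s y := by ring
        _ ≤ 2 * K ^ 2 * (om4 B s y * (ta B s y / s)) + 1 / s * om4 B s y * ta B s y :=
            add_le_add b5 b4
        _ = (2 * K ^ 2 + 1) / s * om4 B s y * ta B s y := by ring)
  rw [eT, ← hA2] at k1
  have k2' : ∫ y, √(Fmd_N ε y) * (K * om4 B s y + 2 * ta B s y) ≤ A3 / s * √(T4 B s ε) := by
    rw [eT] at k2
    refine k2.trans (mul_le_mul_of_nonneg_right ?_ (Real.sqrt_nonneg _))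
    rw [integral_const_mul, hA3]
    have e1 : √(2 * (2 * K ^ 2 + 1)) / s = √(2 * (2 * K ^ 2 + 1) / s ^ 2) := by
      rw [Real.sqrt_div (by positivity), Real.sqrt_sq hs.le]
    rw [e1]
    refine Real.sqrt_le_sqrt ?_
    calc (2 * K ^ 2 + 1) / s * ∫ y, om4 B s y ≤ (2 * K ^ 2 + 1) / s * (2 / s) :=
          mul_le_mul_of_nonneg_left hO (by positivity)
      _ = 2 * (2 * K ^ 2 + 1) / s ^ 2 := by
          field_simp
  have eZ : (fun y => √(Fmd_N ε y) * ((K * om4 B s y + 2 * ta B s y) *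
      (τ₀ * (3 * √(Fmd_N ε y)) + τ₁ * bd (1 / 2) 0 y + τ₂))) = fun y =>
      3 * τ₀ * ((K * om4 B s y + 2 * ta B s y) * Fmd_N ε y) +
      τ₁ * (√(Fmd_N ε y) * ((K * om4 B s y + 2 * ta B s y) * bd (1 / 2) 0 y)) +
      τ₂ * (√(Fmd_N ε y) * (K * om4 B s y + 2 * ta B s y)) := by
    funext y
    have e := Real.mul_self_sqrt (Fmd_N0 ε y)
    linear_combination 3 * τ₀ * (K * om4 B s y + 2 * ta B s y) * e
  have i3 := ((j0.const_mul (3 * τ₀)).add (j1.const_mul τ₁)).add (j2.const_mul τ₂)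
  have hi : Integrable (fun y => √(Fmd_N ε y) * ((K * om4 B s y + 2 * ta B s y) *
      (τ₀ * (3 * √(Fmd_N ε y)) + τ₁ * bd (1 / 2) 0 y + τ₂))) := by
    rw [eZ]; exact i3
  have hSc : Cl (-(s / 2)) (-(s / 2)) S := Cl_mono hS (by linarith) (by linarith)
  have main := Fmd_abs (Z := fun y => τ₀ * (3 * √(Fmd_N ε y)) + τ₁ * bd (1 / 2) 0 y + τ₂)
    h hε hSc (fun y => hg ε y (h1 y)) hK hZ hi
  have i4 : Integrable (fun y => 3 * τ₀ * ((K * om4 B s y + 2 * ta B s y) * Fmd_N ε y) +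
      τ₁ * (√(Fmd_N ε y) * ((K * om4 B s y + 2 * ta B s y) * bd (1 / 2) 0 y))) :=
    (j0.const_mul (3 * τ₀)).add (j1.const_mul τ₁)
  rw [eZ, integral_add i4 (j2.const_mul τ₂), integral_add (j0.const_mul (3 * τ₀)) (j1.const_mul τ₁),
    integral_const_mul, integral_const_mul, integral_const_mul] at main
  have sT := Real.sqrt_nonneg (T4 B s ε)
  have m0 := mul_le_mul_of_nonneg_left k0 (by positivity : 0 ≤ 3 * τ₀)
  have m1 := mul_le_mul_of_nonneg_left k1 h1'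
  have m2 := mul_le_mul_of_nonneg_left k2' h2
  have f0 : 3 * τ₀ * ((K + 2) / s * T4 B s ε) = A1 * (τ₀ / s * T4 B s ε) := by
    rw [hA1]; ring
  have f1 : A1 * (τ₀ / s * T4 B s ε) ≤ (A1 + A2 + A3) * (τ₀ / s * T4 B s ε) :=
    mul_le_mul_of_nonneg_right (by linarith) (by positivity)
  have f2 : A2 * (√(T4 B s ε) * τ₁) ≤ (A1 + A2 + A3) * (√(T4 B s ε) * τ₁) :=
    mul_le_mul_of_nonneg_right (by linarith) (by positivity)
  have f3 : A3 * (√(T4 B s ε) * (τ₂ / s)) ≤ (A1 + A2 + A3) * (√(T4 B s ε) * (τ₂ / s)) :=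
    mul_le_mul_of_nonneg_right (by linarith) (by positivity)
  have g1 : τ₁ * (A2 * √(T4 B s ε)) = A2 * (√(T4 B s ε) * τ₁) := by ring
  have g2 : τ₂ * (A3 / s * √(T4 B s ε)) = A3 * (√(T4 B s ε) * (τ₂ / s)) := by ring
  calc |EE4 B s ε S| ≤ _ := main
    _ ≤ 3 * τ₀ * ((K + 2) / s * T4 B s ε) + τ₁ * (A2 * √(T4 B s ε)) +
        τ₂ * (A3 / s * √(T4 B s ε)) := add_le_add (add_le_add m0 m1) m2
    _ ≤ (A1 + A2 + A3) * (τ₀ / s * T4 B s ε) + (A1 + A2 + A3) * (√(T4 B s ε) * τ₁) +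
        (A1 + A2 + A3) * (√(T4 B s ε) * (τ₂ / s)) := by
        rw [f0, g1, g2]
        exact add_le_add (add_le_add f1 f2) f3
    _ = (A1 + A2 + A3) * (τ₀ / s) * T4 B s ε + (A1 + A2 + A3) * √(T4 B s ε) * (τ₁ + τ₂ / s) := by
        ring

theorem FT7 : ∃ C : ℝ, 0 < C ∧ ∀ B s : ℝ, Slow4 B s → ∀ (p q : ℝ) (ε et : ℝ → ℝ),
    0 < p → 0 < q → Cl 0 0 ε → Cl p q et → (∀ y, |ε y| ≤ 1) →
    |EE4 B s ε (deriv et)| ≤ C * √(T4 B s ε) * √(ne2 et / s) := by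
  obtain ⟨K, hK, hg⟩ := Fmd_g
  refine ⟨√(2 * K ^ 2 + 8), Real.sqrt_pos.2 (by positivity),
    fun B s h p q ε et hp hq hε he h1 => ?_⟩
  have hB : 16 ≤ B := h.1
  have hB0 : 0 < B := by linarith
  have hs : 0 < s := h.2.1
  have hs1 : s ≤ 1 := by
    have := h.2.2
    nlinarith
  have hs1' : 1 ≤ 1 / s := by
    rw [le_div_iff₀ hs]; linarith
  have co := Cl_cont (Cl_om4 h)
  have ct := Cl_cont (Cl_ta h)
  have cn := Fmd_nc hε
  have ce := Cl_der he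
  obtain ⟨iT, eT⟩ := Fmd_T h hε
  have iN : Integrable (fun y => (et y) ^ 2 + (deriv et y) ^ 2) :=
    (Cl_int (Cl_pow' he hp.le hq.le 2 (by norm_num)) hp hq).add
      (Cl_int (Cl_pow' ce hp.le hq.le 2 (by norm_num)) hp hq)
  obtain ⟨j, k⟩ := Fmd_cs (F := fun y => √(Fmd_N ε y))
    (φ := fun y => (K * om4 B s y + 2 * ta B s y) * |deriv et y|) (W := ta B s)
    (V := fun y => (2 * K ^ 2 + 8) / s * ((et y) ^ 2 + (deriv et y) ^ 2)) cn
    (((continuous_const.mul co).add (continuous_const.mul ct)).mul (Cl_cont ce).abs) ct (ta_pos h)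
    iT (iN.const_mul _) (fun y => by
      have a1 := ta_ge h y
      have a2 := (om4_pos B s y).le
      have a3 := (ta_pos h y).le
      have a4 := Fmd_sq (K := K) h y
      have a5 := ta_hi h y
      have a6 := om4_le_one B s y
      have b1 : om4 B s y ≤ ta B s y / s := by
        rw [le_div_iff₀ hs]; linarith
      have b2 : (om4 B s y) ^ 2 ≤ ta B s y / s := by
        calc (om4 B s y) ^ 2 = om4 B s y * om4 B s y := sq _
          _ ≤ 1 * om4 B s y := mul_le_mul_of_nonneg_right a6 a2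
          _ ≤ ta B s y / s := by linarith
      have b3 : ta B s y ≤ 1 / s := by
        have c1 : 2 / B ≤ 1 := by
          rw [div_le_one hB0]; linarith
        linarith
      have b4 : (ta B s y) ^ 2 ≤ ta B s y / s := by
        calc (ta B s y) ^ 2 = ta B s y * ta B s y := sq _
          _ ≤ 1 / s * ta B s y := mul_le_mul_of_nonneg_right b3 a3
          _ = ta B s y / s := by ring
      have b5 := mul_le_mul_of_nonneg_left b2 (by positivity : 0 ≤ 2 * K ^ 2)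
      have b6 : (K * om4 B s y + 2 * ta B s y) ^ 2 ≤ (2 * K ^ 2 + 8) / s * ta B s y := by
        calc (K * om4 B s y + 2 * ta B s y) ^ 2
            ≤ 2 * K ^ 2 * (om4 B s y) ^ 2 + 8 * (ta B s y) ^ 2 := a4
          _ ≤ 2 * K ^ 2 * (ta B s y / s) + 8 * (ta B s y / s) := by linarith
          _ = (2 * K ^ 2 + 8) / s * ta B s y := by ring
      have b7 : |deriv et y| ^ 2 ≤ (et y) ^ 2 + (deriv et y) ^ 2 := by
        rw [sq_abs]
        linarith [sq_nonneg (et y)]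
      show ((K * om4 B s y + 2 * ta B s y) * |deriv et y|) ^ 2 ≤
        (2 * K ^ 2 + 8) / s * ((et y) ^ 2 + (deriv et y) ^ 2) * ta B s y
      calc ((K * om4 B s y + 2 * ta B s y) * |deriv et y|) ^ 2
          = (K * om4 B s y + 2 * ta B s y) ^ 2 * |deriv et y| ^ 2 := by ring
        _ ≤ (2 * K ^ 2 + 8) / s * ta B s y * ((et y) ^ 2 + (deriv et y) ^ 2) :=
            mul_le_mul b6 b7 (by positivity) (by positivity)
        _ = (2 * K ^ 2 + 8) / s * ((et y) ^ 2 + (deriv et y) ^ 2) * ta B s y := by ring)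
  have hc : Cl (-(s / 2)) (-(s / 2)) (deriv et) := Cl_mono ce (by linarith) (by linarith)
  have main := Fmd_abs (Z := fun y => |deriv et y|) h hε hc (fun y => hg ε y (h1 y)) hK
    (fun y => le_rfl) j
  refine (main.trans k).trans (le_of_eq ?_)
  have e1 : ∫ y, (2 * K ^ 2 + 8) / s * ((et y) ^ 2 + (deriv et y) ^ 2) =
      (2 * K ^ 2 + 8) * (ne2 et / s) := by
    rw [integral_const_mul, ne2]
    ring
  rw [eT, e1, Real.sqrt_mul (by positivity)]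
  ring

end H98KC

end

end S_H98_KC_Fmd

section S_H68_KC_PRb

/-!
# Row PRb (MP_95be7d_K4): a linear second order ODE propagates the class `Cl p q`

## Proof
Claim (induction on `j`): there are `A B G : ℝ → ℝ` with `Cl 0 0 A`, `Cl 0 0 B`, `Cl p q G` and
`iteratedDeriv j f = fun y => A y * f y + B y * f1 y + G y`.
`j = 0`: `A = 1`, `B = 0`, `G = 0` (`Cl_const`, `Cl_zero`). Step: the derivative of the right hand side is
`(A' + B a) f + (A + B') f1 + (B F + G')` (`Cl_hd`, `h0`, `h1`, product rule), and the coefficients are again in the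
classes (`Cl_der`, `Cl_mul0`, `Cl_add`, for two functions of class `0 0` use `Cl_mul` with `0 + 0`).
Together with the claim one also proves by induction that `iteratedDeriv j f` is differentiable (it is equal to a
differentiable function), so `f` is smooth: `contDiff_of_differentiable_iteratedDeriv` (for all `n`, `contDiff_infty`).
Bounds: `|A| ≤ C`, `|B| ≤ C` (`Cl_bnd` with `bd_zero`), `b0`, `b1`, `Cl_bnd` for `G`.
-/

open MeasureTheory Filter Topology Set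
open scoped ContDiff

noncomputable section

namespace H68KC

open H98KB

theorem PRb_hd {f f1 a F A B G : ℝ → ℝ} {p q : ℝ} (h0 : ∀ y, HasDerivAt f (f1 y) y)
    (h1 : ∀ y, HasDerivAt f1 (a y * f y + F y) y) (hA : Cl 0 0 A) (hB : Cl 0 0 B)
    (hG : Cl p q G) (y : ℝ) :
    HasDerivAt (fun y => A y * f y + B y * f1 y + G y)
      ((deriv A y + B y * a y) * f y + (A y + deriv B y) * f1 y + (B y * F y + deriv G y)) y := by
  have e1 := (Cl_hd hA y).mul (h0 y)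
  have e2 := (Cl_hd hB y).mul (h1 y)
  have e3 := (e1.add e2).add (Cl_hd hG y)
  refine e3.congr_deriv ?_
  ring

theorem PRb_rep {p q : ℝ} {f f1 a F : ℝ → ℝ} (h0 : ∀ y, HasDerivAt f (f1 y) y)
    (h1 : ∀ y, HasDerivAt f1 (a y * f y + F y) y) (ha : Cl 0 0 a) (hF : Cl p q F) (j : ℕ) :
    ∃ A B G : ℝ → ℝ, Cl 0 0 A ∧ Cl 0 0 B ∧ Cl p q G ∧
      iteratedDeriv j f = fun y => A y * f y + B y * f1 y + G y := by
  induction j with
  | zero =>
    refine ⟨fun _ => 1, fun _ => 0, fun _ => 0, Cl_const 1, Cl_zero, Cl_zero, ?_⟩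
    funext y
    rw [iteratedDeriv_zero]
    ring
  | succ j ih =>
    obtain ⟨A, B, G, hA, hB, hG, h⟩ := ih
    have hBa : Cl 0 0 (fun y => B y * a y) := Cl_mul0 hB ha
    refine ⟨fun y => deriv A y + B y * a y, fun y => A y + deriv B y,
      fun y => B y * F y + deriv G y, Cl_add (Cl_der hA) hBa, Cl_add hA (Cl_der hB),
      Cl_add (Cl_mul0 hB hF) (Cl_der hG), ?_⟩
    funext y
    rw [iteratedDeriv_succ, h]
    exact (PRb_hd h0 h1 hA hB hG y).deriv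

theorem Cl_of_ode {p q : ℝ} {f f1 a F : ℝ → ℝ} (h0 : ∀ y, HasDerivAt f (f1 y) y)
    (h1 : ∀ y, HasDerivAt f1 (a y * f y + F y) y) (ha : Cl 0 0 a) (hF : Cl p q F)
    (b0 : ∃ C : ℝ, ∀ y, |f y| ≤ C * bd p q y) (b1 : ∃ C : ℝ, ∀ y, |f1 y| ≤ C * bd p q y) :
    Cl p q f := by
  obtain ⟨C0, hC0⟩ := b0
  obtain ⟨C1, hC1⟩ := b1
  refine ⟨?_, fun j => ?_⟩
  · refine contDiff_of_differentiable_iteratedDeriv fun m _ => ?_
    obtain ⟨A, B, G, hA, hB, hG, h⟩ := PRb_rep h0 h1 ha hF m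
    rw [h]
    exact fun y => (PRb_hd h0 h1 hA hB hG y).differentiableAt
  · obtain ⟨A, B, G, hA, hB, hG, h⟩ := PRb_rep h0 h1 ha hF j
    obtain ⟨CA, hCA0, hCA⟩ := Cl_bnd hA
    obtain ⟨CB, hCB0, hCB⟩ := Cl_bnd hB
    obtain ⟨CG, hCG0, hCG⟩ := Cl_bnd hG
    refine ⟨CA * C0 + CB * C1 + CG, fun y => ?_⟩
    rw [h]
    have hb := bd_pos p q y
    have k1 : |A y * f y| ≤ CA * (C0 * bd p q y) := by
      rw [abs_mul]
      have e := hCA y
      rw [bd_zero, mul_one] at e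
      exact mul_le_mul e (hC0 y) (abs_nonneg _) hCA0
    have k2 : |B y * f1 y| ≤ CB * (C1 * bd p q y) := by
      rw [abs_mul]
      have e := hCB y
      rw [bd_zero, mul_one] at e
      exact mul_le_mul e (hC1 y) (abs_nonneg _) hCB0
    calc |A y * f y + B y * f1 y + G y| ≤ |A y * f y| + |B y * f1 y| + |G y| := abs_add_three _ _ _
      _ ≤ CA * (C0 * bd p q y) + CB * (C1 * bd p q y) + CG * bd p q y := by
        linarith [hCG y]
      _ = (CA * C0 + CB * C1 + CG) * bd p q y := by ring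

end H68KC

end

end S_H68_KC_PRb

section S_H68_KC_PRc

/-!
# Row PRc (MP_95be7d_K4): inverse of `L` by variation of constants, derivatives

`K F = -(1/(2 A0)) (Q' ∫_0^y F G2 + G2 ∫_y^∞ F Q')`.

## Proofs
`F` is continuous (`Cl_cont`), `G2` is continuous (`G2_hd`), `F Q'` is integrable (`Cl_int (Cl_mul hF (Cl_der (Cl_Qf _)))`).
* `d/dy ∫_0^y F G2 = F G2` (`intervalIntegral.integral_hasDerivAt_right`).
* `d/dy ∫_{Ioi y} F Q' = - F Q'`: `∫_{Ioi y} g = ∫_ℝ g - ∫_{Iic y} g` and `∫_{Iic y} g = ∫_{Iic 0} g + ∫_0^y g`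
  (`intervalIntegral.integral_Iic_sub_Iic`), or look for an existing lemma (`integral_Ioi` derivative).
* `KK_hd`: `(K F)' = c (Q'' A + Q' F G2 + G2' B - G2 F Q') = c (Q'' A + G2' B) = KK1`, `c = -1/(2A0)`.
* `KK1_hd`: `(KK1)' = c (Q''' A + Q'' F G2 + G2'' B - G2' F Q') = c (Q''' A + G2'' B) - c F (Q' G2' - Q'' G2)
  = c ((1 - Q⁴) Q' A + (1 - Q⁴) G2 B) - F` by `G2_wr` (`c * (-2 A0) = 1`, so `- c F (-2A0) = -F`),
  `L Q' = 0` (`L_Qd`, i.e. `Q''' = (1 - Q⁴) Q'`, unfold `Lop`) and `G2_hd2`.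
  `deriv G2` is the function of `G2_hd`; `Q''` has derivative `(1 - Q⁴) Q'` (`Cl_hd` applied to `deriv (deriv Q)`).
* `KK_neg`: for `F` even: `Q'` odd, `G2` even (`G2_neg`), `∫_0^{-y} F G2 = -∫_0^y F G2`,
  `∫_{Ioi (-y)} F Q' = ∫_{Ioi y} F Q'` because `∫_{-y}^{y} F Q' = 0` (odd integrand); `deriv Q (-y) = - deriv Q y`.
-/

open MeasureTheory Filter Topology Set
open scoped ContDiff

noncomputable section

namespace H68KC

open H98KB

def KK (F : ℝ → ℝ) (y : ℝ) : ℝ :=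
  -(1 / (2 * A0)) * (deriv (Qf 4) y * (∫ z in (0:ℝ)..y, F z * G2 z)
    + G2 y * (∫ z in Ioi y, F z * deriv (Qf 4) z))

def KK1 (F : ℝ → ℝ) (y : ℝ) : ℝ :=
  -(1 / (2 * A0)) * (deriv (deriv (Qf 4)) y * (∫ z in (0:ℝ)..y, F z * G2 z)
    + deriv G2 y * (∫ z in Ioi y, F z * deriv (Qf 4) z))

theorem tail_hd {g : ℝ → ℝ} (hg : Continuous g) (hi : Integrable g) (y : ℝ) :
    HasDerivAt (fun y => ∫ z in Ioi y, g z) (-g y) y := by
  have h1 : (fun y => ∫ z in Ioi y, g z) = fun y => (∫ z in Ioi (0:ℝ), g z) - ∫ z in (0:ℝ)..y, g z := by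
    funext x
    have h2 := intervalIntegral.integral_Ioi_sub_Ioi' (f := g) (μ := volume) (a := 0) (b := x)
      hi.integrableOn hi.integrableOn
    linarith
  rw [h1]
  have h3 : HasDerivAt (fun y => ∫ z in (0:ℝ)..y, g z) (g y) y :=
    (hg.integral_hasStrictDerivAt 0 y).hasDerivAt
  refine (h3.const_sub (∫ z in Ioi (0:ℝ), g z)).congr_deriv rfl

theorem PRc_G2 (y : ℝ) : HasDerivAt G2 (deriv G2 y) y := (G2_hd y).differentiableAt.hasDerivAt

theorem PRc_G2c : Continuous G2 :=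
  continuous_iff_continuousAt.2 fun y => (G2_hd y).continuousAt

theorem PRc_G2d (y : ℝ) : HasDerivAt (deriv G2) ((1 - (Qf 4 y) ^ 4) * G2 y) y := by
  have h1 : deriv G2 = fun y => A0 * th 4 y / Qf 4 y + 6 * th 4 y * (Qf 4 y / A0) ^ 3 := by
    funext z
    exact (G2_hd z).deriv
  rw [h1]
  exact G2_hd2 y

theorem PRc_Q : Cl 1 1 (Qf 4) := Cl_Qf (by norm_num)

theorem PRc_A {F : ℝ → ℝ} (hF : Cl (3 / 4) (3 / 4) F) (y : ℝ) :
    HasDerivAt (fun y => ∫ z in (0:ℝ)..y, F z * G2 z) (F y * G2 y) y :=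
  (((Cl_cont hF).mul PRc_G2c).integral_hasStrictDerivAt 0 y).hasDerivAt

theorem PRc_int {F : ℝ → ℝ} (hF : Cl (3 / 4) (3 / 4) F) :
    Integrable (fun z => F z * deriv (Qf 4) z) :=
  Cl_int (Cl_mul hF (Cl_der PRc_Q)) (by norm_num) (by norm_num)

theorem PRc_B {F : ℝ → ℝ} (hF : Cl (3 / 4) (3 / 4) F) (y : ℝ) :
    HasDerivAt (fun y => ∫ z in Ioi y, F z * deriv (Qf 4) z) (-(F y * deriv (Qf 4) y)) y :=
  tail_hd ((Cl_cont hF).mul (Cl_cont (Cl_der PRc_Q))) (PRc_int hF) y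

theorem KK_hd {F : ℝ → ℝ} (hF : Cl (3 / 4) (3 / 4) F) (y : ℝ) : HasDerivAt (KK F) (KK1 F y) y := by
  have hQ := Cl_hd (Cl_der PRc_Q) y
  refine (((hQ.mul (PRc_A hF y)).add ((PRc_G2 y).mul (PRc_B hF y))).const_mul
    (-(1 / (2 * A0)))).congr_deriv ?_
  unfold KK1
  ring

theorem PRc_Q3 (y : ℝ) : HasDerivAt (deriv (deriv (Qf 4))) ((1 - (Qf 4 y) ^ 4) * deriv (Qf 4) y) y := by
  have h1 := Cl_hd (Cl_der (Cl_der PRc_Q)) y
  have h2 := L_Qd (k := 4) (by norm_num) y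
  unfold Lop at h2
  refine h1.congr_deriv ?_
  linarith

theorem KK1_hd {F : ℝ → ℝ} (hF : Cl (3 / 4) (3 / 4) F) (y : ℝ) :
    HasDerivAt (KK1 F) ((1 - (Qf 4 y) ^ 4) * KK F y + -F y) y := by
  refine ((((PRc_Q3 y).mul (PRc_A hF y)).add ((PRc_G2d y).mul (PRc_B hF y))).const_mul
    (-(1 / (2 * A0)))).congr_deriv ?_
  have hw := G2_wr y
  have hA := A0_pos.ne'
  unfold KK
  have e1 : -(1 / (2 * A0)) * (F y * (-2 * A0)) = F y := by
    field_simp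
  rw [← hw] at e1
  linear_combination -e1

theorem PRc_Qn (y : ℝ) : deriv (Qf 4) (-y) = -deriv (Qf 4) y := by
  have h1 : (fun x => Qf 4 (-x)) = Qf 4 := funext fun x => Qf_neg 4 x
  have h2 := deriv_comp_neg (Qf 4) y
  rw [h1] at h2
  linarith

theorem KK_neg {F : ℝ → ℝ} (hF : Cl (3 / 4) (3 / 4) F) (he : ∀ y, F (-y) = F y) (y : ℝ) :
    KK F (-y) = KK F y := by
  have h1 : ∫ z in (0:ℝ)..(-y), F z * G2 z = -∫ z in (0:ℝ)..y, F z * G2 z := by
    have h2 := intervalIntegral.integral_comp_neg (a := 0) (b := y) (fun z => F z * G2 z)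
    simp only [he, G2_neg, neg_zero] at h2
    rw [h2, intervalIntegral.integral_symm]
  have hi := PRc_int hF
  have h3 : ∫ z, F z * deriv (Qf 4) z = 0 := by
    have h4 := integral_neg_eq_self (fun z => F z * deriv (Qf 4) z) volume
    simp only [he, PRc_Qn, mul_neg, integral_neg] at h4
    linarith
  have h5 : ∫ z in Ioi (-y), F z * deriv (Qf 4) z = ∫ z in Ioi y, F z * deriv (Qf 4) z := by
    have h6 := integral_comp_neg_Iic y (fun z => F z * deriv (Qf 4) z)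
    simp only [he, PRc_Qn, mul_neg, integral_neg] at h6
    have h7 := intervalIntegral.integral_Iic_add_Ioi (f := fun z => F z * deriv (Qf 4) z) (b := y)
      hi.integrableOn hi.integrableOn
    linarith
  unfold KK
  rw [h1, h5, PRc_Qn, G2_neg]
  ring

end H68KC

end

end S_H68_KC_PRc

section S_H68_KC_PRd

open MeasureTheory Filter Topology Set
open scoped ContDiff

noncomputable section

/-!
# Row PRd (MP_95be7d_K4): inverse of `L` on the class `Cl (3/4) (3/4)`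

## Proofs
Let `|F| ≤ C e^{-3|y|/4}` (`Cl_bnd`, `bd_abs`), `|Q'|, |Q''| ≤ C e^{-|y|}` (`Cl_bnd` of `Cl_der (Cl_Qf _)`), `|G2|, |G2'| ≤ C e^{|y|}` (`G2_bd`).
* `KK_bd`: `|∫_0^y F G2| ≤ C |∫_0^y e^{|z|/4}| ≤ 4 C e^{|y|/4}` (both signs of `y`;
  `intervalIntegral.norm_integral_le_integral_norm` or `norm_integral_le_of_norm_le`), so `|Q' ∫_0^y F G2| ≤ C e^{-3|y|/4}`.
  For `y ≥ 0`: `|∫_{Ioi y} F Q'| ≤ C ∫_y^∞ e^{-7z/4} = C (4/7) e^{-7y/4}`.
  For `y ≤ 0`: `∫_{Ioi y} F Q' = - ∫_{Iic y} F Q'` because `∫_ℝ F Q' = 0` (`h0`), and `|∫_{Iic y} F Q'| ≤ C ∫_{-∞}^y e^{7z/4} = C (4/7) e^{7y/4}`.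
  Hence `|G2 ∫_{Ioi y} F Q'| ≤ C e^{|y|} e^{-7|y|/4} = C e^{-3|y|/4}`. Same for `KK1` with `Q''`, `G2'`.
* `inv_cl`: `f = KK F`; `Cl_of_ode` (row PRb) with `f1 = KK1 F`, `a = 1 - Q⁴` (`Cl_sub (Cl_const 1)` and
  `Cl_mono (Cl_pow (Cl_Qf _) 4)`), `F := -F`; `Lop 4 f = -f'' + f - Q⁴ f = F` from `KK_hd`, `KK1_hd` (`deriv f = KK1 F` as functions).
-/

namespace H68KC

open H98KB

theorem PRd_head {g : ℝ → ℝ} {C : ℝ} (hb : ∀ y, |g y| ≤ C * Real.exp (|y| / 4)) (hC : 0 ≤ C) (y : ℝ) :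
    |∫ z in (0:ℝ)..y, g z| ≤ 4 * C * Real.exp (|y| / 4) := by
  rcases le_total 0 y with hy | hy
  · have h1 : ‖∫ z in (0:ℝ)..y, g z‖ ≤ ∫ z in (0:ℝ)..y, C * Real.exp (z / 4) := by
      refine intervalIntegral.norm_integral_le_of_norm_le hy ?_ ?_
      · refine Eventually.of_forall fun z hz => ?_
        have := hb z
        rw [abs_of_pos hz.1] at this
        rw [Real.norm_eq_abs]
        exact this
      · exact (Continuous.intervalIntegrable (by fun_prop) _ _)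
    have h2 : ∫ z in (0:ℝ)..y, C * Real.exp (z / 4) =
        4 * C * Real.exp (y / 4) - 4 * C * Real.exp (0 / 4) := by
      refine intervalIntegral.integral_eq_sub_of_hasDerivAt (f := fun z => 4 * C * Real.exp (z / 4)) ?_ ?_
      · intro x _
        have h3 : HasDerivAt (fun z : ℝ => z / 4) (1 / 4) x := (hasDerivAt_id x).div_const 4
        have h4 := (h3.exp).const_mul (4 * C)
        have h5 : 4 * C * (Real.exp (x / 4) * (1 / 4)) = C * Real.exp (x / 4) := by ring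
        rw [h5] at h4
        exact h4
      · exact (Continuous.intervalIntegrable (by fun_prop) _ _)
    rw [h2, Real.norm_eq_abs] at h1
    rw [abs_of_nonneg hy]
    have h5 : 0 ≤ 4 * C * Real.exp (0 / 4) := by positivity
    linarith
  · rw [intervalIntegral.integral_symm, abs_neg]
    have h1 : ‖∫ z in y..(0:ℝ), g z‖ ≤ ∫ z in y..(0:ℝ), C * Real.exp (-z / 4) := by
      refine intervalIntegral.norm_integral_le_of_norm_le hy ?_ ?_
      · refine Eventually.of_forall fun z hz => ?_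
        have := hb z
        rw [abs_of_nonpos hz.2] at this
        rw [Real.norm_eq_abs]
        exact this
      · exact (Continuous.intervalIntegrable (by fun_prop) _ _)
    have h2 : ∫ z in y..(0:ℝ), C * Real.exp (-z / 4) =
        -(4 * C) * Real.exp (-0 / 4) - -(4 * C) * Real.exp (-y / 4) := by
      refine intervalIntegral.integral_eq_sub_of_hasDerivAt
        (f := fun z => -(4 * C) * Real.exp (-z / 4)) ?_ ?_
      · intro x _
        have h3 : HasDerivAt (fun z : ℝ => -z / 4) (-1 / 4) x := (hasDerivAt_id x).neg.div_const 4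
        have h4 := (h3.exp).const_mul (-(4 * C))
        have h5 : -(4 * C) * (Real.exp (-x / 4) * (-1 / 4)) = C * Real.exp (-x / 4) := by ring
        rw [h5] at h4
        exact h4
      · exact (Continuous.intervalIntegrable (by fun_prop) _ _)
    rw [h2, Real.norm_eq_abs] at h1
    rw [abs_of_nonpos hy]
    have h5 : 0 ≤ 4 * C * Real.exp (-0 / 4) := by positivity
    linarith

theorem PRd_tail {g : ℝ → ℝ} {C : ℝ} (hi : Integrable g)
    (hb : ∀ y, |g y| ≤ C * Real.exp (-(7 / 4 * |y|))) (h0 : ∫ y, g y = 0) (y : ℝ) :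
    |∫ z in Ioi y, g z| ≤ 4 / 7 * C * Real.exp (-(7 / 4 * |y|)) := by
  rcases le_total 0 y with hy | hy
  · have h1 : ‖∫ z in Ioi y, g z‖ ≤ ∫ z in Ioi y, C * Real.exp (-(7 / 4) * z) := by
      refine norm_integral_le_of_norm_le ?_ ?_
      · exact (integrableOn_exp_mul_Ioi (by norm_num) y).const_mul C
      · filter_upwards [ae_restrict_mem measurableSet_Ioi] with z hz
        have hz' : 0 ≤ z := le_trans hy (le_of_lt hz)
        have := hb z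
        rw [abs_of_nonneg hz'] at this
        rw [Real.norm_eq_abs]
        convert this using 3
        ring
    rw [integral_const_mul, integral_exp_mul_Ioi (by norm_num), Real.norm_eq_abs] at h1
    rw [abs_of_nonneg hy]
    refine h1.trans (le_of_eq ?_)
    rw [show -(7 / 4) * y = -(7 / 4 * y) by ring]
    ring
  · have h1 : ‖∫ z in Iic y, g z‖ ≤ ∫ z in Iic y, C * Real.exp (7 / 4 * z) := by
      refine norm_integral_le_of_norm_le ?_ ?_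
      · exact (integrableOn_exp_mul_Iic (by norm_num) y).const_mul C
      · filter_upwards [ae_restrict_mem measurableSet_Iic] with z hz
        have hz' : z ≤ 0 := le_trans hz hy
        have := hb z
        rw [abs_of_nonpos hz'] at this
        rw [Real.norm_eq_abs]
        convert this using 3
        ring
    rw [integral_const_mul, integral_exp_mul_Iic (by norm_num), Real.norm_eq_abs] at h1
    have h2 : ∫ z in Ioi y, g z = -∫ z in Iic y, g z := by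
      have h3 := intervalIntegral.integral_Iic_add_Ioi (μ := volume) (b := y) hi.integrableOn hi.integrableOn
      rw [h0] at h3
      linarith
    rw [h2, abs_neg, abs_of_nonpos hy]
    refine h1.trans (le_of_eq ?_)
    rw [show 7 / 4 * y = -(7 / 4 * -y) by ring]
    ring

theorem PRd_comb {F G q : ℝ → ℝ} {Cf Cg Cq : ℝ} (hCf : 0 ≤ Cf) (hCg : 0 ≤ Cg) (_hCq : 0 ≤ Cq)
    (hF : ∀ y, |F y| ≤ Cf * Real.exp (-(3 / 4 * |y|)))
    (hG : ∀ y, |G y| ≤ Cg * Real.exp |y|) (hq : ∀ y, |q y| ≤ Cq * Real.exp (-|y|))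
    (hi : Integrable (fun y => F y * q y)) (h0 : ∫ y, F y * q y = 0)
    {u v : ℝ → ℝ} {Cu Cv : ℝ} (hCu : 0 ≤ Cu) (hCv : 0 ≤ Cv)
    (hu : ∀ y, |u y| ≤ Cu * Real.exp (-|y|)) (hv : ∀ y, |v y| ≤ Cv * Real.exp |y|) (c : ℝ) :
    ∃ C : ℝ, ∀ y, |c * (u y * (∫ z in (0:ℝ)..y, F z * G z) + v y * (∫ z in Ioi y, F z * q z))|
      ≤ C * bd (3 / 4) (3 / 4) y := by
  have e1 : ∀ y, |F y * G y| ≤ (Cf * Cg) * Real.exp (|y| / 4) := by
    intro y
    rw [abs_mul]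
    calc |F y| * |G y| ≤ (Cf * Real.exp (-(3 / 4 * |y|))) * (Cg * Real.exp |y|) :=
          mul_le_mul (hF y) (hG y) (abs_nonneg _) (by positivity)
      _ = (Cf * Cg) * (Real.exp (-(3 / 4 * |y|)) * Real.exp |y|) := by ring
      _ = (Cf * Cg) * Real.exp (|y| / 4) := by
          rw [← Real.exp_add]; congr 2; ring
  have e2 : ∀ y, |F y * q y| ≤ (Cf * Cq) * Real.exp (-(7 / 4 * |y|)) := by
    intro y
    rw [abs_mul]
    calc |F y| * |q y| ≤ (Cf * Real.exp (-(3 / 4 * |y|))) * (Cq * Real.exp (-|y|)) :=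
          mul_le_mul (hF y) (hq y) (abs_nonneg _) (by positivity)
      _ = (Cf * Cq) * (Real.exp (-(3 / 4 * |y|)) * Real.exp (-|y|)) := by ring
      _ = (Cf * Cq) * Real.exp (-(7 / 4 * |y|)) := by
          rw [← Real.exp_add]; congr 2; ring
  refine ⟨|c| * (Cu * (4 * (Cf * Cg)) + Cv * (4 / 7 * (Cf * Cq))), fun y => ?_⟩
  have a1 := PRd_head e1 (by positivity) y
  have a2 := PRd_tail hi e2 h0 y
  rw [bd_abs, abs_mul]
  have b1 : |u y * (∫ z in (0:ℝ)..y, F z * G z)| ≤ Cu * (4 * (Cf * Cg)) * Real.exp (-(3 / 4 * |y|)) := by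
    rw [abs_mul]
    calc |u y| * |∫ z in (0:ℝ)..y, F z * G z|
        ≤ (Cu * Real.exp (-|y|)) * (4 * (Cf * Cg) * Real.exp (|y| / 4)) :=
          mul_le_mul (hu y) a1 (abs_nonneg _) (by positivity)
      _ = Cu * (4 * (Cf * Cg)) * (Real.exp (-|y|) * Real.exp (|y| / 4)) := by ring
      _ = _ := by rw [← Real.exp_add]; congr 2; ring
  have b2 : |v y * (∫ z in Ioi y, F z * q z)| ≤ Cv * (4 / 7 * (Cf * Cq)) * Real.exp (-(3 / 4 * |y|)) := by
    rw [abs_mul]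
    calc |v y| * |∫ z in Ioi y, F z * q z|
        ≤ (Cv * Real.exp |y|) * (4 / 7 * (Cf * Cq) * Real.exp (-(7 / 4 * |y|))) :=
          mul_le_mul (hv y) a2 (abs_nonneg _) (by positivity)
      _ = Cv * (4 / 7 * (Cf * Cq)) * (Real.exp |y| * Real.exp (-(7 / 4 * |y|))) := by ring
      _ = _ := by rw [← Real.exp_add]; congr 2; ring
  have b3 := abs_add_le (u y * (∫ z in (0:ℝ)..y, F z * G z)) (v y * (∫ z in Ioi y, F z * q z))
  calc |c| * |u y * (∫ z in (0:ℝ)..y, F z * G z) + v y * (∫ z in Ioi y, F z * q z)|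
      ≤ |c| * (Cu * (4 * (Cf * Cg)) * Real.exp (-(3 / 4 * |y|)) +
          Cv * (4 / 7 * (Cf * Cq)) * Real.exp (-(3 / 4 * |y|))) :=
        mul_le_mul_of_nonneg_left (by linarith) (abs_nonneg _)
    _ = _ := by ring

theorem KK_bd {F : ℝ → ℝ} (hF : Cl (3 / 4) (3 / 4) F) (h0 : ip F (deriv (Qf 4)) = 0) :
    (∃ C : ℝ, ∀ y, |KK F y| ≤ C * bd (3 / 4) (3 / 4) y) ∧
    (∃ C : ℝ, ∀ y, |KK1 F y| ≤ C * bd (3 / 4) (3 / 4) y) := by
  have hk : 1 ≤ 4 := by norm_num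
  have cQ1 : Cl 1 1 (deriv (Qf 4)) := Cl_der (Cl_Qf hk)
  have cQ2 : Cl 1 1 (deriv (deriv (Qf 4))) := Cl_der cQ1
  obtain ⟨Cf, hCf, bF⟩ := Cl_bnd hF
  obtain ⟨C1, hC1, b1⟩ := Cl_bnd cQ1
  obtain ⟨C2, hC2, b2⟩ := Cl_bnd cQ2
  obtain ⟨Cg, hCg, bG⟩ := G2_bd
  have bF' : ∀ y, |F y| ≤ Cf * Real.exp (-(3 / 4 * |y|)) := fun y => by
    rw [← bd_abs]; exact bF y
  have b1' : ∀ y, |deriv (Qf 4) y| ≤ C1 * Real.exp (-|y|) := fun y => by
    have := b1 y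
    rw [bd_abs, one_mul] at this
    exact this
  have b2' : ∀ y, |deriv (deriv (Qf 4)) y| ≤ C2 * Real.exp (-|y|) := fun y => by
    have := b2 y
    rw [bd_abs, one_mul] at this
    exact this
  have hi : Integrable (fun y => F y * deriv (Qf 4) y) :=
    Cl_int (Cl_mul hF cQ1) (by norm_num) (by norm_num)
  constructor
  · exact PRd_comb hCf hCg hC1 bF' (fun y => (bG y).1) b1' hi h0 hC1 hCg b1' (fun y => (bG y).1) _
  · exact PRd_comb hCf hCg hC1 bF' (fun y => (bG y).1) b1' hi h0 hC2 hCg b2' (fun y => (bG y).2) _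

theorem inv_cl {F : ℝ → ℝ} (hF : Cl (3 / 4) (3 / 4) F) (h0 : ip F (deriv (Qf 4)) = 0) :
    Cl (3 / 4) (3 / 4) (KK F) ∧ ∀ y, Lop 4 (KK F) y = F y := by
  have hk : 1 ≤ 4 := by norm_num
  obtain ⟨k0, k1⟩ := KK_bd hF h0
  have ca : Cl 0 0 (fun y => 1 - (Qf 4 y) ^ 4) := by
    refine Cl_sub (Cl_const 1) (Cl_mono (Cl_pow (Cl_Qf hk) 4) (by norm_num) (by norm_num))
  refine ⟨Cl_of_ode (KK_hd hF) (KK1_hd hF) ca (Cl_neg hF) k0 k1, fun y => ?_⟩
  have d1 : deriv (KK F) = KK1 F := funext fun z => (KK_hd hF z).deriv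
  have d2 : deriv (deriv (KK F)) y = (1 - (Qf 4 y) ^ 4) * KK F y + -F y := by
    rw [d1]; exact (KK1_hd hF y).deriv
  unfold Lop
  rw [d2]
  ring

end H68KC

end

end S_H68_KC_PRd

section S_H68_KC_PRf

/-!
# Row PRf (MP_95be7d_K4): existence of the profiles `P`, `E`

## Proof
`E := fun y => 1 + KK (Q⁴) y`: `Q⁴` is of class `Cl 4 4 ⊂ Cl (3/4) (3/4)`, `ip Q⁴ Q' = 0` (odd integrand, `Sol2_odd`, or
`Q⁴Q' = (Q⁵/5)'`), `inv_cl`, `KK_neg` (`Q⁴` even). `Lop 4 (1 + r) = 1 - Q⁴ + Lop 4 r = 1`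
(`deriv (fun y => 1 + r y) = deriv r`).

`P := fun y => -Jf y + KK Fp y + c * Q' y`, `Fp = (ΛQ)' - Q⁴ J` (rows PRe: `Fp_cl`, `Fp_orth`),
`c = -(∫ (-J + KK Fp) Q') / ∫ Q'^2` (`Qd2_pos`). Then `P' = ΛQ + (KK Fp)' + c Q''` (`Jf_hd`) is of class `Cl (3/4) (3/4)`,
`P'' = (ΛQ)' + (KK Fp)'' + c Q'''`, and `Lop 4 P = -(ΛQ)' - J + Q⁴ J + Fp + c Lop 4 Q' = -J` (`inv_cl`, `L_Qd`).
`cP`: sum of `Jf_cl` and `Cl_mono` of classes `3/4 3/4` and `1 1`. `P0`, `P1`: `Jf_bd` and `Cl_bnd` of `KK Fp`, `Q'`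
with `bd_of_nonneg`, `bd_of_nonpos`. `PQ`: choice of `c` (integrability: `Cl_int (Cl_mul ..)`).
-/

open MeasureTheory Filter Topology Set
open scoped ContDiff

noncomputable section

namespace H68KC

open H98KB

theorem PRf_E : ∃ E : ℝ → ℝ, Cl (3 / 4) (3 / 4) (fun y => E y - 1) ∧ (∀ y, E (-y) = E y) ∧
    (∀ y, Lop 4 E y = 1) := by
  have hk : 1 ≤ 4 := by norm_num
  have hQ4 : Cl 4 4 (fun y => (Qf 4 y) ^ 4) := by
    have h := Cl_Qk (k := 4) hk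
    exact_mod_cast h
  have hF : Cl (3 / 4) (3 / 4) (fun y => (Qf 4 y) ^ 4) := Cl_mono hQ4 (by norm_num) (by norm_num)
  have h0 : ip (fun y => (Qf 4 y) ^ 4) (deriv (Qf 4)) = 0 := by
    unfold ip
    apply Sol2_odd
    intro y
    rw [Qf_deriv hk]
    simp only [th_neg, Qf_neg]
    ring
  obtain ⟨h1, h2⟩ := inv_cl hF h0
  refine ⟨fun y => 1 + KK (fun y => (Qf 4 y) ^ 4) y, ?_, ?_, ?_⟩
  · have e : (fun y => 1 + KK (fun y => (Qf 4 y) ^ 4) y - 1) = KK (fun y => (Qf 4 y) ^ 4) := by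
      funext y
      ring
    rw [e]
    exact h1
  · intro y
    show 1 + KK (fun y => (Qf 4 y) ^ 4) (-y) = 1 + KK (fun y => (Qf 4 y) ^ 4) y
    rw [KK_neg hF (fun y => by rw [Qf_neg])]
  · intro y
    have h3 := h2 y
    have d1 : deriv (fun y => 1 + KK (fun y => (Qf 4 y) ^ 4) y) =
        deriv (KK (fun y => (Qf 4 y) ^ 4)) := by
      funext z
      exact ((Cl_hd h1 z).const_add 1).deriv
    unfold Lop at h3 ⊢
    rw [d1]
    linear_combination h3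

theorem PRf_P : ∃ P : ℝ → ℝ, Cl 0 0 P ∧ Cl (3 / 4) (3 / 4) (deriv P) ∧
    (∃ C : ℝ, ∀ y, 0 ≤ y → |P y| ≤ C * Real.exp (-(3 / 4) * y)) ∧
    (∃ C : ℝ, ∀ y, y ≤ 0 → |P y - Iq / 2| ≤ C * Real.exp (3 / 4 * y)) ∧
    (∀ y, Lop 4 P y = -Jf y) ∧ ip P (deriv (Qf 4)) = 0 := by
  have hk : 1 ≤ 4 := by norm_num
  have hQ := Cl_Qf (k := 4) hk
  have hQd := Cl_der hQ
  have hQdd := Cl_der hQd
  set Fp : ℝ → ℝ := fun y => deriv (Lam 4 (Qf 4)) y - (Qf 4 y) ^ 4 * Jf y with hFp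
  obtain ⟨hR, hL⟩ := inv_cl Fp_cl Fp_orth
  rw [← hFp] at hR hL
  set R : ℝ → ℝ := KK Fp with hRd
  have hQpos := Qd2_pos (k := 4) hk
  have hP0 : Cl 0 0 (fun y => -Jf y + R y) :=
    Cl_add (Cl_neg Jf_cl) (Cl_mono hR (by norm_num) (by norm_num))
  set c : ℝ := -(∫ y, (-Jf y + R y) * deriv (Qf 4) y) / ∫ y, (deriv (Qf 4) y) ^ 2 with hc
  have hcQ : Cl 1 1 (fun y => c * deriv (Qf 4) y) := Cl_smul c hQd
  have hQm : Cl (3 / 4) (3 / 4) (deriv (Qf 4)) := Cl_mono hQd (by norm_num) (by norm_num)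
  have hd1 : ∀ y, HasDerivAt (fun y => -Jf y + R y + c * deriv (Qf 4) y)
      (Lam 4 (Qf 4) y + deriv R y + c * deriv (deriv (Qf 4)) y) y := by
    intro y
    have h := ((Jf_hd y).neg.add (Cl_hd hR y)).add ((Cl_hd hQd y).const_mul c)
    rw [neg_neg] at h
    exact h
  have hde : deriv (fun y => -Jf y + R y + c * deriv (Qf 4) y) =
      fun y => Lam 4 (Qf 4) y + deriv R y + c * deriv (deriv (Qf 4)) y :=
    funext fun y => (hd1 y).deriv
  have hd2 : ∀ y, HasDerivAt (fun y => Lam 4 (Qf 4) y + deriv R y + c * deriv (deriv (Qf 4)) y)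
      (deriv (Lam 4 (Qf 4)) y + deriv (deriv R) y + c * deriv (deriv (deriv (Qf 4))) y) y := by
    intro y
    exact ((Cl_hd PRe_CL y).add (Cl_hd (Cl_der hR) y)).add ((Cl_hd hQdd y).const_mul c)
  obtain ⟨CJ, hCJ0, hJ1, hJ2⟩ := Jf_bd
  obtain ⟨CR, hCR0, hCR⟩ := Cl_bnd hR
  obtain ⟨CQ, hCQ0, hCQ⟩ := Cl_bnd hQm
  refine ⟨fun y => -Jf y + R y + c * deriv (Qf 4) y, ?_, ?_, ?_, ?_, ?_, ?_⟩
  · exact Cl_add hP0 (Cl_mono hcQ (by norm_num) (by norm_num))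
  · rw [hde]
    exact Cl_add (Cl_add PRe_CL (Cl_der hR)) (Cl_smul c (Cl_mono hQdd (by norm_num) (by norm_num)))
  · refine ⟨CJ + CR + |c| * CQ, fun y hy => ?_⟩
    have e : -(3 / 4 : ℝ) * y = -(3 / 4 * y) := by ring
    have h1 := hJ1 y hy
    have h2 := hCR y
    have h3 := hCQ y
    rw [bd_of_nonneg hy, ← e] at h2 h3
    have h4 : |c * deriv (Qf 4) y| ≤ |c| * (CQ * Real.exp (-(3 / 4) * y)) := by
      rw [abs_mul]
      exact mul_le_mul_of_nonneg_left h3 (abs_nonneg c)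
    calc |-Jf y + R y + c * deriv (Qf 4) y| ≤ |-Jf y + R y| + |c * deriv (Qf 4) y| := abs_add_le _ _
      _ ≤ |-Jf y| + |R y| + |c * deriv (Qf 4) y| := by
          have := abs_add_le (-Jf y) (R y)
          linarith
      _ ≤ (CJ + CR + |c| * CQ) * Real.exp (-(3 / 4) * y) := by
          rw [abs_neg]
          linarith
  · refine ⟨CJ + CR + |c| * CQ, fun y hy => ?_⟩
    have h1 := hJ2 y hy
    have h2 := hCR y
    have h3 := hCQ y
    rw [bd_of_nonpos hy] at h2 h3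
    have h4 : |c * deriv (Qf 4) y| ≤ |c| * (CQ * Real.exp (3 / 4 * y)) := by
      rw [abs_mul]
      exact mul_le_mul_of_nonneg_left h3 (abs_nonneg c)
    have e1 : -Jf y + R y + c * deriv (Qf 4) y - Iq / 2 =
        -(Jf y + Iq / 2) + R y + c * deriv (Qf 4) y := by ring
    calc |-Jf y + R y + c * deriv (Qf 4) y - Iq / 2|
        = |-(Jf y + Iq / 2) + R y + c * deriv (Qf 4) y| := by rw [e1]
      _ ≤ |-(Jf y + Iq / 2) + R y| + |c * deriv (Qf 4) y| := abs_add_le _ _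
      _ ≤ |-(Jf y + Iq / 2)| + |R y| + |c * deriv (Qf 4) y| := by
          have := abs_add_le (-(Jf y + Iq / 2)) (R y)
          linarith
      _ ≤ (CJ + CR + |c| * CQ) * Real.exp (3 / 4 * y) := by
          rw [abs_neg]
          linarith
  · intro y
    have h3 := hL y
    have h4 := L_Qd (k := 4) hk y
    unfold Lop at h3 h4 ⊢
    rw [hde, (hd2 y).deriv]
    linear_combination h3 + c * h4
  · have i1 : Integrable (fun y => (-Jf y + R y) * deriv (Qf 4) y) :=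
      Cl_int (Cl_mul hP0 hQd) (by norm_num) (by norm_num)
    have i2 : Integrable (fun y => (deriv (Qf 4) y) ^ 2) := by
      have h := Cl_pow hQd 2
      exact Cl_int h (by norm_num) (by norm_num)
    unfold ip
    have e : (fun y => (-Jf y + R y + c * deriv (Qf 4) y) * deriv (Qf 4) y) =
        fun y => (-Jf y + R y) * deriv (Qf 4) y + c * (deriv (Qf 4) y) ^ 2 := by
      funext y
      ring
    rw [e, integral_add i1 (i2.const_mul c), integral_const_mul, hc]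
    field_simp
    ring

theorem prof_exists : ∃ P E : ℝ → ℝ, Prof P E := by
  obtain ⟨P, h1, h2, h3, h4, h5, h6⟩ := PRf_P
  obtain ⟨E, g1, g2, g3⟩ := PRf_E
  exact ⟨P, E, ⟨h1, h2, h3, h4, g1, g2, h5, g3, h6⟩⟩

end H68KC

end

end S_H68_KC_PRf
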