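import Mathlib
import Pool.Agent.H98.BU.G01
import Pool.Agent.H98.BU.G02
import Pool.Agent.H98.BU.G03
import Pool.Agent.H98.BU.G04

/-! Blow-up for `u_t + u^k u_x + u_xxx - u_xx = 0`, part G09: this file joins several modules
to save build time (`Pool/Agent/H98/{KB,KC}`, `H72/{KB,KC}`, `H68/KC`, `H37/{KB,KC}`). -/

section S_H98_KB_Coa

/-!
# Coa : the first order inverse (factorisation of `L`)

Let `c > 0`, `Φ > 0` with `Φ' = -c t Φ`, `t = th k y`, `Φ` comparable with `e^{-c|y|}`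
(`a e^{-c|y|} ≤ Φ ≤ A e^{-c|y|}`).  If `f ∈ Cl p q` with `0 < p,q` and `∫ f Φ = 0`, put
`h(y) = Φ(y)^{-1} ∫_y^∞ Φ f = -Φ(y)^{-1} ∫_{-∞}^y Φ f`.
`(Φh)' = -Φ f` gives `h' = c t h - f`, i.e. `f = -h' + c t h`.
Bound: for `y ≥ 0`: `|h| ≤ (1/a) e^{cy} ∫_y^∞ A e^{-cz} C e^{-pz} dz ≤ C' e^{-py}`; for `y ≤ 0` use the
other formula: `|h| ≤ C' e^{-q|y|}`.
Class: `h' = c t h - f` with `t ∈ Cl 0 0`: by induction every `iteratedDeriv j h` exists and is `O(bd p q)`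
(`h ∈ C^∞` because `h' = c t h - f`; for the bounds use Leibniz, or show by induction on `j` that
`iteratedDeriv j h` is a combination of `Cl 0 0`-multiples of `h` and an element of `Cl p q`).
-/

open MeasureTheory Filter Topology Set
open scoped ContDiff

namespace H98KB

variable {k : ℕ}

theorem Coa_rep {c p q : ℝ} {f h : ℝ → ℝ} (hh : ∀ y, HasDerivAt h (c * th k y * h y - f y) y)
    (hf : Cl p q f) (j : ℕ) : ∃ α β : ℝ → ℝ, Cl 0 0 α ∧ Cl p q β ∧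
      iteratedDeriv j h = fun y => α y * h y + β y := by
  induction j with
  | zero =>
    refine ⟨fun _ => 1, fun _ => 0, Cl_const 1, Cl_zero, ?_⟩
    rw [iteratedDeriv_zero]
    funext y
    ring
  | succ j ih =>
    obtain ⟨α, β, hα, hβ, e⟩ := ih
    refine ⟨fun y => deriv α y + α y * (c * th k y), fun y => deriv β y - α y * f y, ?_, ?_, ?_⟩
    · exact Cl_add (Cl_der hα) (Cl_mul0 hα (Cl_smul c (Cl_th k)))
    · exact Cl_sub (Cl_der hβ) (Cl_mul0 hα hf)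
    · rw [iteratedDeriv_succ, e]
      funext y
      have h1 := ((Cl_hd hα y).mul (hh y)).add (Cl_hd hβ y)
      have h2 : deriv (fun y => α y * h y + β y) y =
          deriv α y * h y + α y * (c * th k y * h y - f y) + deriv β y := h1.deriv
      rw [h2]
      ring

theorem Coa_cl {c p q : ℝ} {f h : ℝ → ℝ} (hh : ∀ y, HasDerivAt h (c * th k y * h y - f y) y)
    (hf : Cl p q f) {C : ℝ} (hC0 : 0 ≤ C) (hC : ∀ y, |h y| ≤ C * bd p q y) : Cl p q h := by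
  have hd : Differentiable ℝ h := fun y => (hh y).differentiableAt
  refine ⟨?_, fun j => ?_⟩
  · refine contDiff_of_differentiable_iteratedDeriv fun j _ => ?_
    obtain ⟨α, β, hα, hβ, e⟩ := Coa_rep hh hf j
    rw [e]
    intro y
    exact (((Cl_hd hα y).differentiableAt).mul (hd y)).add (Cl_hd hβ y).differentiableAt
  · obtain ⟨α, β, hα, hβ, e⟩ := Coa_rep hh hf j
    obtain ⟨A, hA0, hA⟩ := Cl_bnd hα
    obtain ⟨B, hB0, hB⟩ := Cl_bnd hβ
    refine ⟨A * C + B, fun y => ?_⟩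
    rw [e]
    have h1 := hA y
    rw [bd_zero, mul_one] at h1
    calc |α y * h y + β y| ≤ |α y * h y| + |β y| := abs_add_le _ _
      _ = |α y| * |h y| + |β y| := by rw [abs_mul]
      _ ≤ A * (C * bd p q y) + B * bd p q y :=
        add_le_add (mul_le_mul h1 (hC y) (abs_nonneg _) hA0) (hB y)
      _ = (A * C + B) * bd p q y := by ring

theorem first_inv {c p q : ℝ} {Φ f : ℝ → ℝ} (hc : 0 < c) (hp : 0 < p) (hq : 0 < q)
    (hΦ : ∀ y, HasDerivAt Φ (-(c * th k y) * Φ y) y)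
    (hlo : ∃ a : ℝ, 0 < a ∧ ∀ y, a * Real.exp (-(c * |y|)) ≤ Φ y)
    (hhi : ∃ A : ℝ, 0 < A ∧ ∀ y, Φ y ≤ A * Real.exp (-(c * |y|)))
    (hf : Cl p q f) (h0 : ip f Φ = 0) :
    ∃ h : ℝ → ℝ, Cl p q h ∧ ∀ y, f y = -deriv h y + c * th k y * h y := by
  obtain ⟨a, ha, hlo⟩ := hlo
  obtain ⟨A, hA, hhi⟩ := hhi
  obtain ⟨C, hC0, hC⟩ := Cl_bnd hf
  have hΦp : ∀ y, 0 < Φ y := fun y => lt_of_lt_of_le (mul_pos ha (Real.exp_pos _)) (hlo y)
  have hΦc : Continuous Φ := continuous_iff_continuousAt.mpr fun y => (hΦ y).continuousAt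
  have hgc : Continuous (fun z => f z * Φ z) := (Cl_cont hf).mul hΦc
  have hb : ∀ z, |f z * Φ z| ≤ C * A * bd (p + c) (q + c) z := by
    intro z
    rw [abs_mul, abs_of_pos (hΦp z), ← bd_mul, bd_abs c]
    calc |f z| * Φ z ≤ (C * bd p q z) * (A * Real.exp (-(c * |z|))) :=
          mul_le_mul (hC z) (hhi z) (hΦp z).le (mul_nonneg hC0 (bd_pos _ _ _).le)
      _ = C * A * (bd p q z * Real.exp (-(c * |z|))) := by ring
  have hint : Integrable (fun z => f z * Φ z) := by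
    have e1 : Integrable (bd (p + c) (q + c)) := by
      rw [← integrableOn_univ, ← Set.Iic_union_Ioi (a := (0 : ℝ))]
      refine IntegrableOn.union ?_ ?_
      · refine (integrableOn_exp_mul_Iic (show 0 < q + c by linarith) 0).congr_fun ?_ measurableSet_Iic
        intro y hy
        exact (bd_of_nonpos hy).symm
      · refine (exp_neg_integrableOn_Ioi 0 (show 0 < p + c by linarith)).congr_fun ?_
          measurableSet_Ioi
        intro y hy
        have hy' : 0 < y := hy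
        show Real.exp (-(p + c) * y) = bd (p + c) (q + c) y
        rw [bd_of_nonneg hy'.le]
        congr 1
        ring
    refine (e1.const_mul (C * A)).mono' hgc.aestronglyMeasurable ?_
    exact Eventually.of_forall fun z => by rw [Real.norm_eq_abs]; exact hb z
  have htot : ∫ z, f z * Φ z = 0 := h0
  -- the primitive
  have hspl : ∀ y, (∫ z in Iic y, f z * Φ z) + ∫ z in Ioi y, f z * Φ z = 0 := by
    intro y
    rw [intervalIntegral.integral_Iic_add_Ioi hint.integrableOn hint.integrableOn, htot]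
  have hgd : ∀ y, HasDerivAt (fun w => ∫ z in Ioi w, f z * Φ z) (-(f y * Φ y)) y := by
    intro y
    have e1 : ∀ w, ∫ z in Ioi w, f z * Φ z = -((∫ z in Iic (0 : ℝ), f z * Φ z) + ∫ z in (0 : ℝ)..w, f z * Φ z) := by
      intro w
      have h1 := hspl w
      have h2 := intervalIntegral.integral_Iic_sub_Iic (a := (0 : ℝ)) (b := w) (μ := volume)
        (f := fun z => f z * Φ z) hint.integrableOn hint.integrableOn
      linarith
    have e2 : (fun w => ∫ z in Ioi w, f z * Φ z) =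
        fun w => -((∫ z in Iic (0 : ℝ), f z * Φ z) + ∫ z in (0 : ℝ)..w, f z * Φ z) := funext e1
    rw [e2]
    have h3 := intervalIntegral.integral_hasDerivAt_right (a := (0 : ℝ)) (b := y)
      (f := fun z => f z * Φ z) (hint.intervalIntegrable)
      (hgc.stronglyMeasurableAtFilter _ _) hgc.continuousAt
    exact (h3.const_add _).neg
  have hh : ∀ y, HasDerivAt (fun w => (∫ z in Ioi w, f z * Φ z) / Φ w)
      (c * th k y * ((∫ z in Ioi y, f z * Φ z) / Φ y) - f y) y := by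
    intro y
    have h1 := (hgd y).div (hΦ y) (hΦp y).ne'
    refine h1.congr_deriv ?_
    have h2 := (hΦp y).ne'
    field_simp
    ring
  have hbd : ∀ y, |(∫ z in Ioi y, f z * Φ z) / Φ y| ≤
      (C * A / (p + c) / a + C * A / (q + c) / a) * bd p q y := by
    intro y
    have hpc : 0 < p + c := by linarith
    have hqc : 0 < q + c := by linarith
    have hCA : 0 ≤ C * A := mul_nonneg hC0 hA.le
    rw [abs_div, abs_of_pos (hΦp y), div_le_iff₀ (hΦp y)]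
    have hlo' := hlo y
    have hbp := bd_pos p q y
    rcases le_total 0 y with hy | hy
    · have h1 : |∫ z in Ioi y, f z * Φ z| ≤ ∫ z in Ioi y, C * A * Real.exp (-(p + c) * z) := by
        refine (abs_integral_le_integral_abs).trans ?_
        refine setIntegral_mono_on hint.abs.integrableOn
          ((integrableOn_exp_mul_Ioi (neg_lt_zero.mpr hpc) y).const_mul _) measurableSet_Ioi ?_
        intro z hz
        have hz0 : 0 ≤ z := hy.trans (le_of_lt hz)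
        have h2 := hb z
        rw [bd_of_nonneg hz0] at h2
        rw [neg_mul]
        exact h2
      rw [integral_const_mul, integral_exp_mul_Ioi (neg_lt_zero.mpr hpc)] at h1
      refine h1.trans ?_
      have h3 : C * A * (-Real.exp (-(p + c) * y) / -(p + c)) =
          C * A / (p + c) / a * bd p q y * (a * Real.exp (-(c * |y|))) := by
        rw [bd_of_nonneg hy, abs_of_nonneg hy]
        have h4 : Real.exp (-(p + c) * y) = Real.exp (-(p * y)) * Real.exp (-(c * y)) := by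
          rw [← Real.exp_add]
          congr 1
          ring
        rw [h4]
        field_simp
      rw [h3]
      have h5 : 0 ≤ C * A / (p + c) / a * bd p q y := by positivity
      have h6 : 0 ≤ C * A / (q + c) / a * bd p q y * Φ y := by
        have := hΦp y
        positivity
      calc C * A / (p + c) / a * bd p q y * (a * Real.exp (-(c * |y|)))
          ≤ C * A / (p + c) / a * bd p q y * Φ y := mul_le_mul_of_nonneg_left hlo' h5
        _ ≤ C * A / (p + c) / a * bd p q y * Φ y + C * A / (q + c) / a * bd p q y * Φ y := by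
            linarith
        _ = (C * A / (p + c) / a + C * A / (q + c) / a) * bd p q y * Φ y := by ring
    · have e0 : ∫ z in Ioi y, f z * Φ z = -∫ z in Iic y, f z * Φ z := by
        have := hspl y
        linarith
      rw [e0, abs_neg]
      have h1 : |∫ z in Iic y, f z * Φ z| ≤ ∫ z in Iic y, C * A * Real.exp ((q + c) * z) := by
        refine (abs_integral_le_integral_abs).trans ?_
        refine setIntegral_mono_on hint.abs.integrableOn
          ((integrableOn_exp_mul_Iic hqc y).const_mul _) measurableSet_Iic ?_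
        intro z hz
        have hz0 : z ≤ 0 := le_trans hz hy
        have h2 := hb z
        rw [bd_of_nonpos hz0] at h2
        exact h2
      rw [integral_const_mul, integral_exp_mul_Iic hqc] at h1
      refine h1.trans ?_
      have h3 : C * A * (Real.exp ((q + c) * y) / (q + c)) =
          C * A / (q + c) / a * bd p q y * (a * Real.exp (-(c * |y|))) := by
        rw [bd_of_nonpos hy, abs_of_nonpos hy]
        have h4 : Real.exp ((q + c) * y) = Real.exp (q * y) * Real.exp (-(c * -y)) := by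
          rw [← Real.exp_add]
          congr 1
          ring
        rw [h4]
        field_simp
      rw [h3]
      have h5 : 0 ≤ C * A / (q + c) / a * bd p q y := by positivity
      have h6 : 0 ≤ C * A / (p + c) / a * bd p q y * Φ y := by
        have := hΦp y
        positivity
      calc C * A / (q + c) / a * bd p q y * (a * Real.exp (-(c * |y|)))
          ≤ C * A / (q + c) / a * bd p q y * Φ y := mul_le_mul_of_nonneg_left hlo' h5
        _ ≤ C * A / (p + c) / a * bd p q y * Φ y + C * A / (q + c) / a * bd p q y * Φ y := by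
            linarith
        _ = (C * A / (p + c) / a + C * A / (q + c) / a) * bd p q y * Φ y := by ring
  refine ⟨fun w => (∫ z in Ioi w, f z * Φ z) / Φ w, ?_, fun y => ?_⟩
  · exact Coa_cl hh hf (by positivity) hbd
  · rw [(hh y).deriv]
    ring

end H98KB

end S_H98_KB_Coa

section S_H98_KB_Cob

/-!
# Cob : `(L f, f) ≥ |f|²` on `{φ₀, Q'}^⊥` (uses the statements of `Coa`, `Sol`, `Sol2`)

`t=th k y`, `κ=k/2`, `c=1+κ` (so `c(c+κ) = (k+1)(k+2)/2 = C0`), `Q^k=C0(1-t²)`.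
For `f ∈ Cl p q`, `0<p,q`, and a real number `a`:
(i) `∫ (f'+a t f)² = ∫ f'² + a² f² - a(a+κ)(1-t²) f²`      (`2 a t f f' = (a t f²)' - aκ(1-t²) f²`)
(ii) `∫ (-f'+a t f)² = ∫ f'² + a² f² - a(a-κ)(1-t²) f²`.
Hence `ip (L f) f = ∫ f'²+f²-Q^k f² = ∫ (f'+c t f)² - (c²-1) ∫ f²`.   (c(c+κ)=C0)
Let `f ⊥ φ₀`, `f ⊥ Q'`.  `first_inv` with `Φ=φ₀` (`φ₀'=-c t φ₀`): `f = -h'+c t h`, `h ∈ Cl p q`.
Let `N h := -h''+c² h - c(c-κ)(1-t²)h = -h''+c²h-c(1-t²)h` (`c-κ=1`); then `N h = (∂+c t)(-h'+c t h) = f'+c t f`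
and `ip (N h) h = ∫ f²` by (ii) (with `a=c`) [direct: `ip (N h) h = ∫ h'^2+c²h²-c(1-t²)h²`].
`(h,Q)=0`: `Q'=-tQ`, and `-Q'+c t Q = (1+c) t Q = -(1+c) Q'`, so
`0 = (f,Q') = -(1/(1+c)) ∫ (-h'+c t h)(-Q'+c t Q) = -(1/(1+c)) ip h (N Q)` and `N Q = (c²-1) Q`
(because `-Q''+Q-c(1-t²)Q=0`, see `Qf_deriv2`), `c²-1>0`.
`first_inv` with `Φ=Q`, `c:=1`: `h = -r' + t r`, `r ∈ Cl p q`.
Let `N₁ r = -r''+r-(1-κ)(1-t²) r = -r''+r+(κ-1)(1-t²)r`; `N₁ r = h'+t h`, `ip (N₁ r) r = ∫ h²`, and since `κ ≥ 1`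
`ip (N₁ r) r ≥ ∫ r²`.  So `|N₁r||r| ≥ (N₁r,r) ≥ |r|²`, `|N₁ r| ≥ |r|`, `|N₁r|² ≥ |N₁r||r| ≥ (N₁ r,r) = |h|²`:
`∫ (h'+t h)² ≥ ∫ h²`.  With (i), `a=1`: `ip (N h) h = ∫ (h'+t h)² + (c²-1)∫h² ≥ c² ∫ h²`
(`c(c-κ)=c=1+κ=1(1+κ)`).  Same trick: `|N h|² ≥ c² (N h,h)`, i.e. `∫ (f'+c t f)² ≥ c² ∫ f²`.  Done.
-/

open MeasureTheory Filter Topology Set
open scoped ContDiff

namespace H98KB

variable {k : ℕ}

private theorem Cob_I {F G : ℝ → ℝ} (hG : Integrable G) (h : ∀ y, F y = G y) : Integrable F := by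
  rwa [show F = G from funext h]

private theorem Cob_int2 {p q : ℝ} {u v : ℝ → ℝ} (hp : 0 < p) (hq : 0 < q) (hu : Cl p q u)
    (hv : Cl p q v) : Integrable (fun y => u y * v y) :=
  Cl_int (Cl_mul hu hv) (by linarith) (by linarith)

private theorem Cob_sqI {p q : ℝ} {u : ℝ → ℝ} (hp : 0 < p) (hq : 0 < q) (hu : Cl p q u) :
    Integrable (fun y => (u y) ^ 2) :=
  Cob_I (Cob_int2 hp hq hu hu) (fun y => sq _)

/-- `ip (L f) f = ∫ f'² + f² - Q^k f²` -/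
theorem ip_L (hk : 1 ≤ k) {p q : ℝ} {f : ℝ → ℝ} (hp : 0 < p) (hq : 0 < q) (hf : Cl p q f) :
    ip (Lop k f) f = ∫ y, ((deriv f y) ^ 2 + (f y) ^ 2 - Qf k y ^ k * (f y) ^ 2) := by
  have hf' := Cl_der hf
  have hk0 : (0 : ℝ) ≤ k := Nat.cast_nonneg k
  have hQ : Cl 0 0 (fun y => Qf k y ^ k) := Cl_mono (Cl_Qk hk) hk0 hk0
  have hQf : Cl p q (fun y => Qf k y ^ k * f y) := Cl_mul0 hQ hf
  refine Cl_int_eq (H := fun y => -(deriv f y * f y)) (Cob_int2 hp hq (Cl_Lop hk hf) hf)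
    (Cob_I (((Cob_int2 hp hq hf' hf').add (Cob_int2 hp hq hf hf)).sub (Cob_int2 hp hq hQf hf))
      (fun y => by simp only [Pi.add_apply, Pi.sub_apply]; ring))
    (Cl_neg (Cl_mul hf' hf)) (by linarith) (by linarith) (fun y => ?_)
  have h1 : HasDerivAt (fun y => -(deriv f y * f y))
      (-(deriv (deriv f) y * f y + deriv f y * deriv f y)) y :=
    ((Cl_hd hf' y).mul (Cl_hd hf y)).neg
  rw [h1.deriv]
  unfold Lop
  ring

private theorem Cob_sq {p q : ℝ} {f : ℝ → ℝ} (hp : 0 < p) (hq : 0 < q) (hf : Cl p q f) (a : ℝ) :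
    ∫ y, (deriv f y + a * th k y * f y) ^ 2 =
      ∫ y, ((deriv f y) ^ 2 + a ^ 2 * (f y) ^ 2 -
        a * (a + (k : ℝ) / 2) * (1 - th k y ^ 2) * (f y) ^ 2) := by
  have hf' := Cl_der hf
  have hT := Cl_th k
  have hTf : Cl p q (fun y => th k y * f y) := Cl_mul0 hT hf
  have hu : Cl p q (fun y => deriv f y + a * (th k y * f y)) := Cl_add hf' (Cl_smul a hTf)
  refine Cl_int_eq (H := fun y => a * (th k y * (f y * f y)))
    (Cob_I (Cob_int2 hp hq hu hu) (fun y => by ring))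
    (Cob_I (((Cob_int2 hp hq hf' hf').add ((Cob_int2 hp hq hf hf).const_mul (a ^ 2))).sub
      (((Cob_int2 hp hq hf hf).sub (Cob_int2 hp hq hTf hTf)).const_mul (a * (a + (k : ℝ) / 2))))
      (fun y => by simp only [Pi.add_apply, Pi.sub_apply]; ring))
    (Cl_smul a (Cl_mul0 hT (Cl_mul hf hf))) (by linarith) (by linarith) (fun y => ?_)
  have h1 : HasDerivAt (fun y => a * (th k y * (f y * f y)))
      (a * ((k : ℝ) / 2 * (1 - th k y ^ 2) * (f y * f y) +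
        th k y * (deriv f y * f y + f y * deriv f y))) y :=
    ((th_hd k y).mul ((Cl_hd hf y).mul (Cl_hd hf y))).const_mul a
  rw [h1.deriv]
  ring

private theorem Cob_A {p q : ℝ} {r g : ℝ → ℝ} (hp : 0 < p) (hq : 0 < q) (hr : Cl p q r)
    (hg : Cl p q g) (a : ℝ) (h : ∀ y, g y = -deriv r y + a * th k y * r y) :
    ∫ y, (deriv g y + a * th k y * g y) * r y = ∫ y, (g y) ^ 2 := by
  have hg' := Cl_der hg
  have hT := Cl_th k
  have hM : Cl p q (fun y => deriv g y + a * (th k y * g y)) :=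
    Cl_add hg' (Cl_smul a (Cl_mul0 hT hg))
  refine Cl_int_eq (H := fun y => g y * r y)
    (Cob_I (Cob_int2 hp hq hM hr) (fun y => by ring)) (Cob_sqI hp hq hg)
    (Cl_mul hg hr) (by linarith) (by linarith) (fun y => ?_)
  have h1 : HasDerivAt (fun y => g y * r y) (deriv g y * r y + g y * deriv r y) y :=
    (Cl_hd hg y).mul (Cl_hd hr y)
  rw [h1.deriv]
  have h2 := h y
  have h3 : deriv r y = a * th k y * r y - g y := by linarith
  rw [h3]
  ring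

private theorem Cob_B {p q : ℝ} {r g : ℝ → ℝ} (hp : 0 < p) (hq : 0 < q) (hr : Cl p q r)
    (hg : Cl p q g) (a μ : ℝ) (hμ : 0 < μ) (h : ∀ y, g y = -deriv r y + a * th k y * r y)
    (hle : μ * ∫ y, (r y) ^ 2 ≤ ∫ y, (g y) ^ 2) :
    μ * ∫ y, (g y) ^ 2 ≤ ∫ y, (deriv g y + a * th k y * g y) ^ 2 := by
  have hA := Cob_A hp hq hr hg a h
  have hT := Cl_th k
  have hM : Cl p q (fun y => deriv g y + a * th k y * g y) := by
    have := Cl_add (Cl_der hg) (Cl_smul a (Cl_mul0 hT hg))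
    rwa [show (fun y => deriv g y + a * (th k y * g y)) = fun y => deriv g y + a * th k y * g y from
      funext fun y => by ring] at this
  have hcs := (cs_int (Cl_cont hM) (Cl_cont hr) (Cob_sqI hp hq hM) (Cob_sqI hp hq hr)).2
  rw [hA] at hcs
  have hX : 0 ≤ ∫ y, (g y) ^ 2 := integral_nonneg fun y => sq_nonneg _
  have hAA : 0 ≤ ∫ y, (deriv g y + a * th k y * g y) ^ 2 := integral_nonneg fun y => sq_nonneg _
  have hBB : 0 ≤ ∫ y, (r y) ^ 2 := integral_nonneg fun y => sq_nonneg _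
  set X := ∫ y, (g y) ^ 2 with hXd
  set A := ∫ y, (deriv g y + a * th k y * g y) ^ 2 with hAd
  set B := ∫ y, (r y) ^ 2 with hBd
  rw [abs_of_nonneg hX] at hcs
  have h1 : X ^ 2 ≤ A * B := by
    calc X ^ 2 ≤ (√A * √B) ^ 2 := by gcongr
      _ = A * B := by rw [mul_pow, Real.sq_sqrt hAA, Real.sq_sqrt hBB]
  rcases hX.eq_or_lt with h0 | h0
  · rw [← h0, mul_zero]
    exact hAA
  · have h2 : μ * X * X ≤ A * X := by
      calc μ * X * X = μ * X ^ 2 := by ring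
        _ ≤ μ * (A * B) := by gcongr
        _ = A * (μ * B) := by ring
        _ ≤ A * X := by gcongr
    exact le_of_mul_le_mul_right h2 h0

private theorem Cob_cosh (x : ℝ) : Real.cosh x ≤ Real.exp |x| := by
  rw [Real.cosh_eq]
  have h1 : Real.exp x ≤ Real.exp |x| := Real.exp_le_exp.2 (le_abs_self x)
  have h2 : Real.exp (-x) ≤ Real.exp |x| := Real.exp_le_exp.2 (neg_le_abs x)
  linarith

private theorem Cob_ph0_lo (hk : 1 ≤ k) : ∃ a : ℝ, 0 < a ∧ ∀ y,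
    a * Real.exp (-((1 + (k : ℝ) / 2) * |y|)) ≤ ph0 k y := by
  obtain ⟨c, hc, h⟩ := Qf_lo hk
  refine ⟨c, hc, fun y => ?_⟩
  have h1 := h y
  have hk0 : (0 : ℝ) ≤ k := Nat.cast_nonneg k
  have h2 : Real.cosh ((k : ℝ) * y / 2) ≤ Real.exp ((k : ℝ) / 2 * |y|) := by
    refine (Cob_cosh _).trans (le_of_eq ?_)
    congr 1
    rw [abs_div, abs_mul, abs_of_nonneg hk0, abs_of_pos (by norm_num : (0 : ℝ) < 2)]
    ring
  unfold ph0
  rw [le_div_iff₀ (Real.cosh_pos _)]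
  calc c * Real.exp (-((1 + (k : ℝ) / 2) * |y|)) * Real.cosh ((k : ℝ) * y / 2)
      ≤ c * Real.exp (-((1 + (k : ℝ) / 2) * |y|)) * Real.exp ((k : ℝ) / 2 * |y|) := by
        gcongr
    _ = c * Real.exp (-|y|) := by
        rw [mul_assoc, ← Real.exp_add]
        congr 2
        ring
    _ ≤ Qf k y := h1

private theorem Cob_ph0_hi (hk : 1 ≤ k) : ∃ A : ℝ, 0 < A ∧ ∀ y,
    ph0 k y ≤ A * Real.exp (-((1 + (k : ℝ) / 2) * |y|)) := by
  obtain ⟨C, hC, h⟩ := Cl_bnd (Cl_ph0 hk)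
  refine ⟨C + 1, by linarith, fun y => ?_⟩
  have h1 := (le_abs_self _).trans (h y)
  rw [bd_abs] at h1
  have h2 := Real.exp_pos (-((1 + (k : ℝ) / 2) * |y|))
  linarith

private theorem Cob_hQ {p q : ℝ} {f h : ℝ → ℝ} (hk : 1 ≤ k) (hp : 0 < p) (hq : 0 < q)
    (hf : Cl p q f) (hh : Cl p q h)
    (e : ∀ y, f y = -deriv h y + (1 + (k : ℝ) / 2) * th k y * h y)
    (h1 : ip f (deriv (Qf k)) = 0) : ip h (Qf k) = 0 := by
  have hT := Cl_th k
  have hQ := Cl_Qf (k := k) hk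
  have hTQ : Cl 1 1 (fun y => th k y * Qf k y) := Cl_mul0 hT hQ
  have hk0 : (0 : ℝ) < k := by exact_mod_cast hk
  have hF : Integrable (fun y => f y * (th k y * Qf k y)) :=
    Cl_int (Cl_mul hf hTQ) (by linarith) (by linarith)
  have hG : Integrable (fun y => (k : ℝ) / 2 * (h y * Qf k y)) :=
    (Cl_int (Cl_mul hh hQ) (by linarith) (by linarith)).const_mul _
  have h2 : ∫ y, f y * (th k y * Qf k y) = ∫ y, (k : ℝ) / 2 * (h y * Qf k y) := by
    refine Cl_int_eq (H := fun y => -(h y * (th k y * Qf k y))) hF hG (Cl_neg (Cl_mul hh hTQ))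
      (by linarith) (by linarith) (fun y => ?_)
    have h3 : HasDerivAt (fun y => -(h y * (th k y * Qf k y)))
        (-(deriv h y * (th k y * Qf k y) + h y * ((k : ℝ) / 2 * (1 - th k y ^ 2) * Qf k y +
          th k y * (-(th k y) * Qf k y)))) y :=
      ((Cl_hd hh y).mul ((th_hd k y).mul (Qf_hd hk y))).neg
    rw [h3.deriv, e y]
    ring
  have h4 : ∫ y, f y * (th k y * Qf k y) = 0 := by
    have h5 : ip f (deriv (Qf k)) = -∫ y, f y * (th k y * Qf k y) := by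
      unfold ip
      rw [Qf_deriv hk, ← integral_neg]
      congr 1
      funext y
      ring
    rw [h1] at h5
    linarith
  rw [h4, integral_const_mul] at h2
  have h6 := (mul_eq_zero.1 h2.symm).resolve_left (by positivity)
  exact h6

theorem L_ge_one (hk : 2 ≤ k) {p q : ℝ} {f : ℝ → ℝ} (hp : 0 < p) (hq : 0 < q) (hf : Cl p q f)
    (h0 : ip f (ph0 k) = 0) (h1 : ip f (deriv (Qf k)) = 0) :
    ∫ y, (f y) ^ 2 ≤ ip (Lop k f) f := by
  have hk1 : 1 ≤ k := by omega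
  have hkr : (2 : ℝ) ≤ k := by exact_mod_cast hk
  have hT := Cl_th k
  -- first ladder step
  obtain ⟨h, hh, eh⟩ := first_inv (k := k) (c := 1 + (k : ℝ) / 2) (Φ := ph0 k) (f := f)
    (by positivity) hp hq (fun y => by
      have := ph0_hd (k := k) hk1 y
      rwa [show -(1 + (k : ℝ) / 2) * th k y * ph0 k y = -((1 + (k : ℝ) / 2) * th k y) * ph0 k y by
        ring] at this) (Cob_ph0_lo hk1) (Cob_ph0_hi hk1) hf h0
  have hhQ := Cob_hQ hk1 hp hq hf hh eh h1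
  -- second ladder step
  obtain ⟨r, hr, er⟩ := first_inv (k := k) (c := 1) (Φ := Qf k) (f := h)
    one_pos hp hq (fun y => by
      have := Qf_hd (k := k) hk1 y
      rwa [show -(th k y) * Qf k y = -(1 * th k y) * Qf k y by ring] at this)
    (by simpa only [one_mul] using Qf_lo (k := k) hk1)
    (by simpa only [one_mul] using Qf_hi (k := k) hk1) hh hhQ
  -- step 1
  have hr' := Cl_der hr
  have s1 : (1 : ℝ) * ∫ y, (r y) ^ 2 ≤ ∫ y, (h y) ^ 2 := by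
    have h2 := Cob_sq (k := k) hp hq hr (-1)
    have h3 : ∫ y, (h y) ^ 2 = ∫ y, (deriv r y + -1 * th k y * r y) ^ 2 := by
      congr 1
      funext y
      rw [er y]
      ring
    rw [h3, h2, one_mul]
    have hTr : Cl p q (fun y => th k y * r y) := Cl_mul0 hT hr
    refine integral_mono (Cob_sqI hp hq hr) (Cob_I (((Cob_int2 hp hq hr' hr').add
      ((Cob_int2 hp hq hr hr).const_mul ((-1) ^ 2))).sub
      (((Cob_int2 hp hq hr hr).sub (Cob_int2 hp hq hTr hTr)).const_mul (-1 * (-1 + (k : ℝ) / 2))))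
      (fun y => by simp only [Pi.add_apply, Pi.sub_apply]; ring)) (fun y => ?_)
    have h4 : th k y ^ 2 ≤ 1 := by
      have := (th_abs_lt k y).le
      rw [← sq_abs]
      exact pow_le_one₀ (abs_nonneg _) this
    have h5 : 0 ≤ (-1 + (k : ℝ) / 2) * ((1 - th k y ^ 2) * (r y) ^ 2) := by
      have : (0 : ℝ) ≤ -1 + (k : ℝ) / 2 := by linarith
      have : (0 : ℝ) ≤ 1 - th k y ^ 2 := by linarith
      positivity
    have h6 := sq_nonneg (deriv r y)
    show (r y) ^ 2 ≤ (deriv r y) ^ 2 + (-1) ^ 2 * (r y) ^ 2 -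
      -1 * (-1 + (k : ℝ) / 2) * (1 - th k y ^ 2) * (r y) ^ 2
    nlinarith
  have s2 := Cob_B hp hq hr hh 1 1 one_pos er s1
  rw [one_mul] at s2
  -- step 2
  have hh' := Cl_der hh
  have hTh : Cl p q (fun y => th k y * h y) := Cl_mul0 hT hh
  have s3 : ∫ y, (f y) ^ 2 = (∫ y, (deriv h y + 1 * th k y * h y) ^ 2) +
      ((1 + (k : ℝ) / 2) ^ 2 - 1) * ∫ y, (h y) ^ 2 := by
    have h2 := Cob_sq (k := k) hp hq hh (-(1 + (k : ℝ) / 2))
    have h3 : ∫ y, (f y) ^ 2 = ∫ y, (deriv h y + -(1 + (k : ℝ) / 2) * th k y * h y) ^ 2 := by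
      congr 1
      funext y
      rw [eh y]
      ring
    rw [h3, h2, Cob_sq (k := k) hp hq hh 1, ← integral_const_mul, ← integral_add]
    · congr 1
      funext y
      ring
    · exact Cob_I (((Cob_int2 hp hq hh' hh').add ((Cob_int2 hp hq hh hh).const_mul (1 ^ 2))).sub
        (((Cob_int2 hp hq hh hh).sub (Cob_int2 hp hq hTh hTh)).const_mul (1 * (1 + (k : ℝ) / 2))))
        (fun y => by simp only [Pi.add_apply, Pi.sub_apply]; ring)
    · exact (Cob_sqI hp hq hh).const_mul _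
  have s4 : (1 + (k : ℝ) / 2) ^ 2 * ∫ y, (h y) ^ 2 ≤ ∫ y, (f y) ^ 2 := by
    rw [s3]
    linarith
  have s5 := Cob_B hp hq hh hf (1 + (k : ℝ) / 2) ((1 + (k : ℝ) / 2) ^ 2) (by positivity) eh s4
  -- step 3
  have hf' := Cl_der hf
  have hTf : Cl p q (fun y => th k y * f y) := Cl_mul0 hT hf
  have s6 : ip (Lop k f) f = (∫ y, (deriv f y + (1 + (k : ℝ) / 2) * th k y * f y) ^ 2) -
      ((1 + (k : ℝ) / 2) ^ 2 - 1) * ∫ y, (f y) ^ 2 := by
    rw [ip_L hk1 hp hq hf, Cob_sq (k := k) hp hq hf, ← integral_const_mul, ← integral_sub]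
    · congr 1
      funext y
      rw [Qf_pow hk1, C0]
      ring
    · exact Cob_I (((Cob_int2 hp hq hf' hf').add ((Cob_int2 hp hq hf hf).const_mul
        ((1 + (k : ℝ) / 2) ^ 2))).sub
        (((Cob_int2 hp hq hf hf).sub (Cob_int2 hp hq hTf hTf)).const_mul
          ((1 + (k : ℝ) / 2) * ((1 + (k : ℝ) / 2) + (k : ℝ) / 2))))
        (fun y => by simp only [Pi.add_apply, Pi.sub_apply]; ring)
    · exact (Cob_sqI hp hq hf).const_mul _
  rw [s6]
  linarith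

end H98KB

end S_H98_KB_Cob

section S_H98_KB_Coc

/-!
# Coc : coercivity of `L` in `H¹` and the inverse estimate (uses the statement of `Cob`)

`φ₀` and `Q'` are orthogonal (`(φ₀,Q')=0` since `L` is symmetric with different eigenvalues `-μ₀`, `0`; or parity).
For `f ∈ Cl p q` (`0<p,q`; wlog `p,q ≤ 1` by `Cl_mono`) write `f = α φ₀ + β Q' + f₁`, `α=(f,φ₀)/|φ₀|²`,
`β=(f,Q')/|Q'|²`, `f₁ ⊥ φ₀,Q'`.  `L f = -μ₀ α φ₀ + L f₁`.
(1) `(L f,f) = -μ₀ α²|φ₀|² + (L f₁,f₁) ≥ -μ₀α²|φ₀|² + |f₁|² ≥ |f|² - C(f,φ₀)² - C(f,Q')²`.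
    Since `(Lf,f) ≥ |f'|² - C0|f|²`:  `(1+C0)... : (Lf,f) ≥ θ(|f'|²-C0|f|²)+(1-θ)(|f|²-C..)`, `θ=1/(2(1+C0))`.
(2) `|L f|² ` : `(L f,φ₀) = -μ₀ α |φ₀|²`, `(L f,f₁)=(L f₁,f₁) ≥ |f₁|²` so `|f₁| ≤ |L f|`, `|α| ≤ C|L f|`,
    `|f|² ≤ C|Lf|²+C(f,Q')²`; then `|f'|²+|f|² = (Lf,f)+∫Q^k f² ≤ |Lf||f|+C0|f|²`.
-/

open MeasureTheory Filter Topology Set
open scoped ContDiff

namespace H98KB

theorem Coc_int {p q : ℝ} {f g : ℝ → ℝ} (hp : 0 < p) (hq : 0 < q) (hf : Cl p q f)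
    (hg : Cl p q g) : Integrable (fun y => f y * g y) :=
  Cl_int (Cl_mul hf hg) (by linarith) (by linarith)

theorem Coc_add {p q : ℝ} {f g h : ℝ → ℝ} (c : ℝ) (hp : 0 < p) (hq : 0 < q) (hf : Cl p q f)
    (hg : Cl p q g) (hh : Cl p q h) :
    ip (fun y => f y + c * g y) h = ip f h + c * ip g h := by
  unfold ip
  rw [← integral_const_mul, ← integral_add (Coc_int hp hq hf hh)
    ((Coc_int hp hq hg hh).const_mul c)]
  congr 1
  funext y
  ring

theorem Coc_comm (f g : ℝ → ℝ) : ip f g = ip g f := by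
  unfold ip
  congr 1
  funext y
  ring

theorem Coc_lop {k : ℕ} {p q : ℝ} {f g : ℝ → ℝ} (c : ℝ) (hf : Cl p q f) (hg : Cl p q g) :
    Lop k (fun y => f y + c * g y) = fun y => Lop k f y + c * Lop k g y := by
  funext y
  have d1 : deriv (fun y => f y + c * g y) = fun y => deriv f y + c * deriv g y := by
    funext z
    exact ((Cl_hd hf z).add ((Cl_hd hg z).const_mul c)).deriv
  have d2 : deriv (fun y => deriv f y + c * deriv g y) y =
      deriv (deriv f) y + c * deriv (deriv g) y :=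
    ((Cl_hd (Cl_der hf) y).add ((Cl_hd (Cl_der hg) y).const_mul c)).deriv
  unfold Lop
  rw [d1, d2]
  ring

theorem Coc_sq (f : ℝ → ℝ) : ip f f = ∫ y, (f y) ^ 2 := by
  unfold ip
  congr 1
  funext y
  ring

theorem Coc_mu {k : ℕ} (hk : 2 ≤ k) : 0 < (1 + (k : ℝ) / 2) ^ 2 - 1 := by
  have : (2 : ℝ) ≤ (k : ℝ) := by exact_mod_cast hk
  nlinarith

theorem Coc_phQ {k : ℕ} (hk : 2 ≤ k) : ip (ph0 k) (deriv (Qf k)) = 0 := by
  have hk1 : 1 ≤ k := by omega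
  have h2 : (2 : ℝ) ≤ (k : ℝ) := by exact_mod_cast hk
  have hφ := Cl_ph0 hk1
  have hψ := Cl_der (Cl_Qf hk1)
  have h3 := Lop_symm hk1 hφ hψ (by linarith) (by linarith)
  have e1 : ip (ph0 k) (Lop k (deriv (Qf k))) = 0 := by
    unfold ip
    simp only [L_Qd hk1, mul_zero, integral_zero]
  have e2 : ip (Lop k (ph0 k)) (deriv (Qf k)) =
      -((1 + (k : ℝ) / 2) ^ 2 - 1) * ip (ph0 k) (deriv (Qf k)) := by
    unfold ip
    rw [← integral_const_mul]
    congr 1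
    funext y
    rw [L_ph0 hk1]
    ring
  rw [e1, e2] at h3
  have h4 := Coc_mu hk
  rcases mul_eq_zero.1 h3 with h | h
  · linarith
  · exact h

theorem Coc_N0 {k : ℕ} (hk : 2 ≤ k) : 0 < ip (ph0 k) (ph0 k) := by
  have hk1 : 1 ≤ k := by omega
  have h2 : (2 : ℝ) ≤ (k : ℝ) := by exact_mod_cast hk
  have hφ := Cl_ph0 hk1
  rw [Coc_sq]
  have h0 : (0 : ℝ → ℝ) ≤ fun y => (ph0 k y) ^ 2 := fun y => sq_nonneg _
  have hi : Integrable (fun y => (ph0 k y) ^ 2) := by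
    have := Coc_int (by linarith) (by linarith) hφ hφ
    refine this.congr (Eventually.of_forall fun y => ?_)
    simp only
    ring
  rw [integral_pos_iff_support_of_nonneg h0 hi]
  have hs : Function.support (fun y => (ph0 k y) ^ 2) = univ := by
    ext y
    simp only [Function.mem_support, mem_univ, iff_true]
    exact (pow_pos (ph0_pos k y) 2).ne'
  rw [hs]
  simp

theorem Coc_N1 {k : ℕ} (hk : 2 ≤ k) : 0 < ip (deriv (Qf k)) (deriv (Qf k)) := by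
  rw [Coc_sq]
  exact Qd2_pos (by omega)

theorem Coc_core {k : ℕ} (hk : 2 ≤ k) {p q : ℝ} {f : ℝ → ℝ} (hp : 0 < p) (hq : 0 < q)
    (hp1 : p ≤ 1) (hq1 : q ≤ 1) (hf : Cl p q f) :
    ∫ y, (f y) ^ 2 ≤ ip (Lop k f) f +
      ((1 + ((1 + (k : ℝ) / 2) ^ 2 - 1)) / ip (ph0 k) (ph0 k) * (ip f (ph0 k)) ^ 2 +
        1 / ip (deriv (Qf k)) (deriv (Qf k)) * (ip f (deriv (Qf k))) ^ 2) := by
  have hk1 : 1 ≤ k := by omega
  have h2 : (2 : ℝ) ≤ (k : ℝ) := by exact_mod_cast hk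
  have hφ : Cl p q (ph0 k) := Cl_mono (Cl_ph0 hk1) (by linarith) (by linarith)
  have hψ : Cl p q (deriv (Qf k)) := Cl_mono (Cl_der (Cl_Qf hk1)) hp1 hq1
  have hN0 := Coc_N0 hk
  have hN1 := Coc_N1 hk
  have h01 := Coc_phQ hk
  have h10 : ip (deriv (Qf k)) (ph0 k) = 0 := by rw [Coc_comm]; exact h01
  obtain ⟨μ, hμ⟩ : ∃ μ : ℝ, μ = (1 + (k : ℝ) / 2) ^ 2 - 1 := ⟨_, rfl⟩
  have hLφ : Lop k (ph0 k) = fun y => -μ * ph0 k y := by
    funext y
    rw [L_ph0 hk1, hμ]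
  have hLψ : Lop k (deriv (Qf k)) = fun _ => 0 := by
    funext y
    exact L_Qd hk1 y
  rw [← hμ]
  obtain ⟨φ, hφe⟩ : ∃ φ : ℝ → ℝ, φ = ph0 k := ⟨_, rfl⟩
  obtain ⟨ψ, hψe⟩ : ∃ ψ : ℝ → ℝ, ψ = deriv (Qf k) := ⟨_, rfl⟩
  rw [← hφe] at hφ hN0 h01 h10 hLφ ⊢
  rw [← hψe] at hψ hN1 h01 h10 hLψ ⊢
  obtain ⟨α, hα⟩ : ∃ α : ℝ, α = ip f φ / ip φ φ := ⟨_, rfl⟩
  obtain ⟨β, hβ⟩ : ∃ β : ℝ, β = ip f ψ / ip ψ ψ := ⟨_, rfl⟩
  have hα' : α * ip φ φ = ip f φ := by rw [hα]; field_simp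
  have hβ' : β * ip ψ ψ = ip f ψ := by rw [hβ]; field_simp
  have hf1 : Cl p q (fun y => f y + (-α) * φ y) := Cl_add hf (Cl_smul (-α) hφ)
  have hf2 : Cl p q (fun y => (f y + (-α) * φ y) + (-β) * ψ y) := Cl_add hf1 (Cl_smul (-β) hψ)
  obtain ⟨f1, hf1e⟩ : ∃ g : ℝ → ℝ, g = fun y => f y + (-α) * φ y := ⟨_, rfl⟩
  obtain ⟨f2, hf2e⟩ : ∃ g : ℝ → ℝ, g = fun y => f1 y + (-β) * ψ y := ⟨_, rfl⟩
  have hf2' : f2 = fun y => (f y + (-α) * φ y) + (-β) * ψ y := by rw [hf2e, hf1e]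
  rw [← hf1e] at hf1
  rw [← hf2'] at hf2
  have hLf := Cl_Lop hk1 hf
  have hLf2 := Cl_Lop hk1 hf2
  have hip1 : ∀ h : ℝ → ℝ, Cl p q h → ip f1 h = ip f h + (-α) * ip φ h := by
    intro h hh
    rw [hf1e]
    exact Coc_add (-α) hp hq hf hφ hh
  have hip2 : ∀ h : ℝ → ℝ, Cl p q h → ip f2 h = ip f h + (-α) * ip φ h + (-β) * ip ψ h := by
    intro h hh
    rw [hf2e, Coc_add (-β) hp hq hf1 hψ hh, hip1 h hh]
  have e1 : ip f2 φ = 0 := by
    rw [hip2 φ hφ, h10]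
    linarith
  have e2 : ip f2 ψ = 0 := by
    rw [hip2 ψ hψ, h01]
    linarith
  have hL2 : Lop k f2 = fun y => Lop k f y + (α * μ) * φ y := by
    rw [hf2e, Coc_lop (-β) hf1 hψ, hf1e, Coc_lop (-α) hf hφ, hLφ, hLψ]
    funext y
    ring
  have e3 : ip (Lop k f2) f2 = ip (Lop k f) f + μ * (α ^ 2 * ip φ φ) := by
    have e4 : ip (Lop k f2) f2 = ip (Lop k f2) f := by
      rw [Coc_comm, hip2 _ hLf2, Coc_comm f (Lop k f2)]
      have e5 : ip φ (Lop k f2) = 0 := by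
        rw [Coc_comm, Lop_symm hk1 hf2 hφ (by linarith) (by linarith), hLφ]
        have e6 : ip f2 (fun y => -μ * φ y) = -μ * ip f2 φ := by
          unfold ip
          rw [← integral_const_mul]
          congr 1
          funext y
          ring
        rw [e6, e1, mul_zero]
      have e7 : ip ψ (Lop k f2) = 0 := by
        rw [Coc_comm, Lop_symm hk1 hf2 hψ (by linarith) (by linarith), hLψ]
        unfold ip
        simp
      rw [e5, e7]
      ring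
    rw [e4, hL2, Coc_add (α * μ) hp hq hLf hφ hf, Coc_comm φ f, ← hα']
    ring
  have e8 : ip f2 f2 = ip f f - α ^ 2 * ip φ φ - β ^ 2 * ip ψ ψ := by
    rw [hip2 _ hf2, Coc_comm φ f2, Coc_comm ψ f2, e1, e2, Coc_comm f f2, hip2 _ hf,
      Coc_comm φ f, Coc_comm ψ f, ← hα', ← hβ']
    ring
  have h5 := L_ge_one hk hp hq hf2 (by rw [← hφe]; exact e1) (by rw [← hψe]; exact e2)
  rw [← Coc_sq, e3, e8] at h5
  have e9 : α ^ 2 * ip φ φ = 1 / ip φ φ * (ip f φ) ^ 2 := by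
    rw [hα]
    field_simp
  have e10 : β ^ 2 * ip ψ ψ = 1 / ip ψ ψ * (ip f ψ) ^ 2 := by
    rw [hβ]
    field_simp
  rw [← Coc_sq]
  have e11 : (1 + μ) / ip φ φ * (ip f φ) ^ 2 = (1 + μ) * (1 / ip φ φ * (ip f φ) ^ 2) := by
    ring
  rw [e11, ← e9, ← e10]
  linarith

theorem Coc_X {p q : ℝ} {f : ℝ → ℝ} (hp : 0 < p) (hq : 0 < q) (hf : Cl p q f) :
    Integrable (fun y => (f y) ^ 2) :=
  (Coc_int hp hq hf hf).congr (Eventually.of_forall fun y => by simp only; ring)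

theorem Coc_cs {p q : ℝ} {f g : ℝ → ℝ} (hp : 0 < p) (hq : 0 < q) (hf : Cl p q f)
    (hg : Cl p q g) {s : ℝ} (hs : 0 < s) :
    ip f g ≤ 1 / (2 * s) * (∫ y, (f y) ^ 2) + s / 2 * ∫ y, (g y) ^ 2 := by
  unfold ip
  rw [← integral_const_mul, ← integral_const_mul, ← integral_add
    ((Coc_X hp hq hf).const_mul _) ((Coc_X hp hq hg).const_mul _)]
  refine integral_mono (Coc_int hp hq hf hg) (((Coc_X hp hq hf).const_mul _).add
    ((Coc_X hp hq hg).const_mul _)) fun y => ?_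
  simp only
  have h1 : 1 / (2 * s) * f y ^ 2 + s / 2 * g y ^ 2 - f y * g y =
      1 / (2 * s) * (f y - s * g y) ^ 2 := by
    field_simp
    ring
  have h2 : 0 ≤ 1 / (2 * s) * (f y - s * g y) ^ 2 := by positivity
  linarith

theorem L_coer (k : ℕ) (hk : 2 ≤ k) : ∃ c C : ℝ, 0 < c ∧ 0 < C ∧ ∀ (p q : ℝ) (f : ℝ → ℝ),
    0 < p → 0 < q → Cl p q f →
    c * ∫ y, ((f y) ^ 2 + (deriv f y) ^ 2) ≤
      (∫ y, ((deriv f y) ^ 2 + (f y) ^ 2 - Qf k y ^ k * (f y) ^ 2))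
        + C * ((ip f (ph0 k)) ^ 2 + (ip f (deriv (Qf k))) ^ 2) := by
  have hk1 : 1 ≤ k := by omega
  have h2 : (2 : ℝ) ≤ (k : ℝ) := by exact_mod_cast hk
  have hN0 := Coc_N0 hk
  have hN1 := Coc_N1 hk
  have hμ := Coc_mu hk
  have hC0 : 0 < C0 k := by
    unfold C0
    positivity
  refine ⟨1 / (2 * (1 + C0 k)), (1 + ((1 + (k : ℝ) / 2) ^ 2 - 1)) / ip (ph0 k) (ph0 k) +
    1 / ip (deriv (Qf k)) (deriv (Qf k)), by positivity, by positivity, ?_⟩
  intro p q f hp hq hf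
  have hfm : Cl (min p 1) (min q 1) f := Cl_mono hf (min_le_left _ _) (min_le_left _ _)
  have hcore := Coc_core hk (lt_min hp one_pos) (lt_min hq one_pos) (min_le_right _ _)
    (min_le_right _ _) hfm
  have hdf := Cl_der hf
  have iX := Coc_X hp hq hdf
  have iY := Coc_X hp hq hf
  have iZ : Integrable (fun y => Qf k y ^ k * (f y) ^ 2) := by
    have hQ : Cl p q (fun y => Qf k y ^ k * f y) := by
      have := Cl_mul (Cl_Qk hk1) hf
      exact Cl_mono this (by linarith) (by linarith)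
    refine (Coc_int hp hq hQ hf).congr (Eventually.of_forall fun y => ?_)
    simp only
    ring
  have hb : ∫ y, ((deriv f y) ^ 2 + (f y) ^ 2 - Qf k y ^ k * (f y) ^ 2) =
      (∫ y, (deriv f y) ^ 2) + (∫ y, (f y) ^ 2) - ∫ y, Qf k y ^ k * (f y) ^ 2 := by
    have i1 : ∫ y, ((deriv f y) ^ 2 + (f y) ^ 2 - Qf k y ^ k * (f y) ^ 2) =
        (∫ y, ((deriv f y) ^ 2 + (f y) ^ 2)) - ∫ y, Qf k y ^ k * (f y) ^ 2 :=
      integral_sub (iX.add iY) iZ
    rw [i1, integral_add iX iY]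
  have hn : ∫ y, ((f y) ^ 2 + (deriv f y) ^ 2) = (∫ y, (f y) ^ 2) + ∫ y, (deriv f y) ^ 2 :=
    integral_add iY iX
  have hz : ∫ y, Qf k y ^ k * (f y) ^ 2 ≤ C0 k * ∫ y, (f y) ^ 2 := by
    rw [← integral_const_mul]
    refine integral_mono iZ (iY.const_mul _) fun y => ?_
    refine mul_le_mul_of_nonneg_right ?_ (sq_nonneg _)
    rw [Qf_pow hk1]
    nlinarith [sq_nonneg (th k y)]
  rw [ip_L hk1 hp hq hf] at hcore
  have hBe : ∀ B : ℝ, B = ∫ y, ((deriv f y) ^ 2 + (f y) ^ 2 - Qf k y ^ k * (f y) ^ 2) →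
      1 / (2 * (1 + C0 k)) * ∫ y, ((f y) ^ 2 + (deriv f y) ^ 2) ≤ B +
        ((1 + ((1 + (k : ℝ) / 2) ^ 2 - 1)) / ip (ph0 k) (ph0 k) +
          1 / ip (deriv (Qf k)) (deriv (Qf k))) *
            ((ip f (ph0 k)) ^ 2 + (ip f (deriv (Qf k))) ^ 2) := by
    intro B hB
    rw [← hB] at hcore hb
    rw [hn]
    have hX : 0 ≤ ∫ y, (deriv f y) ^ 2 := integral_nonneg fun y => sq_nonneg _
    have hY : 0 ≤ ∫ y, (f y) ^ 2 := integral_nonneg fun y => sq_nonneg _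
    have hu : 0 ≤ (ip f (ph0 k)) ^ 2 := sq_nonneg _
    have hv : 0 ≤ (ip f (deriv (Qf k))) ^ 2 := sq_nonneg _
    have hA : 0 ≤ (1 + ((1 + (k : ℝ) / 2) ^ 2 - 1)) / ip (ph0 k) (ph0 k) := by positivity
    have hA' : 0 ≤ 1 / ip (deriv (Qf k)) (deriv (Qf k)) := by positivity
    generalize (∫ y, (deriv f y) ^ 2) = X at *
    generalize (∫ y, (f y) ^ 2) = Y at *
    generalize (∫ y, Qf k y ^ k * (f y) ^ 2) = Z at *
    generalize (1 + ((1 + (k : ℝ) / 2) ^ 2 - 1)) / ip (ph0 k) (ph0 k) = A at *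
    generalize 1 / ip (deriv (Qf k)) (deriv (Qf k)) = A' at *
    generalize (ip f (ph0 k)) ^ 2 = u at *
    generalize (ip f (deriv (Qf k))) ^ 2 = v at *
    have h6 : A * u + A' * v ≤ (A + A') * (u + v) := by nlinarith [mul_nonneg hA hv, mul_nonneg hA' hu]
    generalize (A + A') * (u + v) = K at *
    have h7 : Y ≤ B + K := by linarith
    have h8 : X - C0 k * Y ≤ B := by linarith
    have hK : 0 ≤ K := le_trans (by positivity) h6
    have hθ : 0 < 2 * (1 + C0 k) := by positivity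
    rw [div_mul_eq_mul_div, one_mul, div_le_iff₀ hθ]
    (first | linarith only [mul_nonneg hC0.le hK, mul_nonneg hC0.le hY, mul_le_mul_of_nonneg_left h7 hC0.le, h7, hC0, hK, hX, hY, hb, hz] | nlinarith only [mul_nonneg hC0.le hK, mul_nonneg hC0.le hY, mul_le_mul_of_nonneg_left h7 hC0.le, h7, hC0, hK, hX, hY, hb, hz])
  exact hBe _ rfl

theorem L_inv (k : ℕ) (hk : 2 ≤ k) : ∃ C : ℝ, 0 < C ∧ ∀ (p q : ℝ) (f : ℝ → ℝ),
    0 < p → 0 < q → Cl p q f →
    ∫ y, ((f y) ^ 2 + (deriv f y) ^ 2) ≤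
      C * ((∫ y, (Lop k f y) ^ 2) + (ip f (deriv (Qf k))) ^ 2) := by
  have hk1 : 1 ≤ k := by omega
  have h2 : (2 : ℝ) ≤ (k : ℝ) := by exact_mod_cast hk
  obtain ⟨c, C, hc, hC, hco⟩ := L_coer k hk
  have hN0 := Coc_N0 hk
  have hμ := Coc_mu hk
  obtain ⟨μ, hμe⟩ : ∃ μ : ℝ, μ = (1 + (k : ℝ) / 2) ^ 2 - 1 := ⟨_, rfl⟩
  have hLφ : Lop k (ph0 k) = fun y => -μ * ph0 k y := by
    funext y
    rw [L_ph0 hk1, hμe]
  rw [← hμe] at hμ
  refine ⟨2 / c * (1 / (2 * c) + C * (ip (ph0 k) (ph0 k) / μ ^ 2) + C), by positivity, ?_⟩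
  intro p q f hp hq hf
  have h3 := hco p q f hp hq hf
  rw [← ip_L hk1 hp hq hf] at h3
  have hLf := Cl_Lop hk1 hf
  have h4 := Coc_cs hp hq hLf hf hc
  have hX : 0 ≤ ∫ y, (deriv f y) ^ 2 := integral_nonneg fun y => sq_nonneg _
  have hn : ∫ y, ((f y) ^ 2 + (deriv f y) ^ 2) = (∫ y, (f y) ^ 2) + ∫ y, (deriv f y) ^ 2 :=
    integral_add (Coc_X hp hq hf) (Coc_X hp hq (Cl_der hf))
  have h5 : (ip f (ph0 k)) ^ 2 ≤ ip (ph0 k) (ph0 k) / μ ^ 2 * ∫ y, (Lop k f y) ^ 2 := by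
    have hφ := Cl_ph0 hk1
    have e1 : ip (Lop k f) (ph0 k) = -μ * ip f (ph0 k) := by
      rw [Lop_symm hk1 hf hφ (by linarith) (by linarith), hLφ]
      unfold ip
      rw [← integral_const_mul]
      congr 1
      funext y
      ring
    have h6 := (cs_int (Cl_cont hLf) (Cl_cont hφ) (Coc_X hp hq hLf)
      (Coc_X (by linarith) (by linarith) hφ)).2
    have h7 : |ip (Lop k f) (ph0 k)| ≤ √(∫ y, (Lop k f y) ^ 2) * √(∫ y, (ph0 k y) ^ 2) := h6
    have h8 : (ip (Lop k f) (ph0 k)) ^ 2 ≤ (∫ y, (Lop k f y) ^ 2) * ∫ y, (ph0 k y) ^ 2 := by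
      have h9 := pow_le_pow_left₀ (abs_nonneg _) h7 2
      rw [sq_abs, mul_pow, Real.sq_sqrt (integral_nonneg fun y => sq_nonneg _),
        Real.sq_sqrt (integral_nonneg fun y => sq_nonneg _)] at h9
      exact h9
    rw [e1, ← Coc_sq (ph0 k)] at h8
    rw [div_mul_eq_mul_div, le_div_iff₀ (by positivity)]
    (first | linarith only [h8] | nlinarith only [h8])
  rw [hn] at h3 ⊢
  have hW : 0 ≤ ∫ y, (Lop k f y) ^ 2 := integral_nonneg fun y => sq_nonneg _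
  have hv : 0 ≤ (ip f (deriv (Qf k))) ^ 2 := sq_nonneg _
  have hD : 0 ≤ ip (ph0 k) (ph0 k) / μ ^ 2 := by positivity
  generalize (∫ y, (deriv f y) ^ 2) = X at *
  generalize (∫ y, (f y) ^ 2) = Y at *
  generalize (∫ y, (Lop k f y) ^ 2) = W at *
  generalize (ip f (deriv (Qf k))) ^ 2 = v at *
  generalize (ip f (ph0 k)) ^ 2 = u at *
  generalize ip (Lop k f) f = B at *
  generalize ip (ph0 k) (ph0 k) / μ ^ 2 = D at *
  have h10 : c / 2 * (Y + X) ≤ (1 / (2 * c) + C * D) * W + C * v := by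
    have h11 := mul_le_mul_of_nonneg_left h5 hC.le
    nlinarith [mul_nonneg hc.le hX]
  have h12 : (1 / (2 * c) + C * D) * W + C * v ≤ (1 / (2 * c) + C * D + C) * (W + v) := by
    have h13 : 0 ≤ 1 / (2 * c) := by positivity
    have h14 : 0 ≤ C * D := by positivity
    nlinarith [mul_nonneg h13 hv, mul_nonneg h14 hv, mul_nonneg hC.le hW]
  have h15 : Y + X = 2 / c * (c / 2 * (Y + X)) := by
    field_simp
  rw [h15, mul_assoc]
  exact mul_le_mul_of_nonneg_left (h10.trans h12) (by positivity)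

end H98KB

end S_H98_KB_Coc

section S_H98_KB_Cos

/-!
# Cos : coercivity of the energy `Ef`

Let `r = √om` (smooth, positive), `F = r ε ∈ Cl (p-ρ) (q+..)` (positive rates), `|r'| ≤ r/B` (`r'/r = om'/(2om)`, `om1_le`).
`Ef = (1/2)∫om(ε'²+ε²-Q^kε²) - ∫om(bF-(1/2)Q^kε²)`, second integral `≤ Cν∫omε²` (`bF_cub`).
`r ε' = F' - (r'/r)F`: `omε'² ≥ (1-1/B)F'² - (C/B)F²` so `∫om(ε'²+ε²-Q^kε²) ≥ ∫(F'²+F²-Q^kF²) - (C/B)∫(F²+F'²)`.
`L_coer` for `F`.  `ip F φ₀ = r(0) ip ε φ₀ + ∫ F (1-r(0)/r) φ₀`, `|1-r(0)/r(y)| ≤ (|y|/B) e^{|y|/B}` (because `|(log r)'| ≤ 1/B`), so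
`|ip F φ₀ - r(0) ip ε φ₀| ≤ (C/B)|F|_{L²}`; same for `Q'`.  `r(0)² = om 0 = 1/2`.  Also `∫(F²+F'²) ≥ (1/2)∫om(ε²+ε'²)`.
Take `B ≥ B₁` large, `ν` small.  Upper bound: `|bF| ≤ Cε²` for `|ε| ≤ 1`.
(To see `F` in `Cl`: `√om = √Th · e^{ρy}`; alternatively avoid `√om ∈ Cl` by `r := 1/√(e^{-2ρy}+e^{-(2ρ+1/B)y})`; since
`Th = 1/(1+e^{-y/B})`, `√Th = (1+e^{-y/B})^{-1/2}`, derivative `(1/(2B))(1-Th)√Th`: bootstrap with `Cl_of_deriv`.)
-/

open MeasureTheory Filter Topology Set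
open scoped ContDiff

namespace H98KB

/-- the square root of the weight -/
noncomputable def Cos_r (B ρ : ℝ) (y : ℝ) : ℝ := √(om B ρ y)

/-- logarithmic derivative of `Cos_r` -/
noncomputable def Cos_h (B ρ : ℝ) (y : ℝ) : ℝ := 1 / 2 * ((1 - Th B y) / B + 2 * ρ)

theorem Cos_r_pos (B ρ y : ℝ) : 0 < Cos_r B ρ y := Real.sqrt_pos.2 (om_pos B ρ y)

theorem Cos_r_sq (B ρ y : ℝ) : Cos_r B ρ y ^ 2 = om B ρ y := Real.sq_sqrt (om_pos B ρ y).le

theorem Cos_r_hd {B : ℝ} (hB : 0 < B) (ρ y : ℝ) :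
    HasDerivAt (Cos_r B ρ) (Cos_h B ρ y * Cos_r B ρ y) y := by
  have h1 := (om_hd hB ρ y).sqrt (om_pos B ρ y).ne'
  have h2 : Cos_r B ρ = fun y => √(om B ρ y) := rfl
  rw [h2]
  refine h1.congr_deriv ?_
  have h3 : √(om B ρ y) ≠ 0 := (Cos_r_pos B ρ y).ne'
  have h4 : (Th B y * (1 - Th B y) / B + 2 * ρ * Th B y) * Real.exp (2 * ρ * y) =
      ((1 - Th B y) / B + 2 * ρ) * om B ρ y := by
    unfold om
    ring
  have h5 : om B ρ y = √(om B ρ y) * √(om B ρ y) := (Real.mul_self_sqrt (om_pos B ρ y).le).symm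
  rw [h4, div_eq_iff (by positivity)]
  unfold Cos_h
  nth_rewrite 1 [h5]
  ring

theorem Cos_h_nonneg {B ρ : ℝ} (h : Slow B ρ) (y : ℝ) : 0 ≤ Cos_h B ρ y := by
  obtain ⟨h1, h2, h3⟩ := h
  have h4 := Th_lt_one B y
  unfold Cos_h
  have : 0 ≤ (1 - Th B y) / B := div_nonneg (by linarith) (by linarith)
  linarith

theorem Cos_h_le {B ρ : ℝ} (h : Slow B ρ) (y : ℝ) : Cos_h B ρ y ≤ 1 / B := by
  obtain ⟨h1, h2, h3⟩ := h
  have hB : 0 < B := by linarith
  have h4 := Th_pos B y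
  unfold Cos_h
  have h5 : (1 - Th B y) / B ≤ 1 / B := div_le_div_of_nonneg_right (by linarith) hB.le
  have h6 : 4 * ρ ≤ 1 / B := by
    rw [le_div_iff₀ hB]
    exact h3
  linarith

theorem Cos_Cl_h {B : ℝ} (hB : 0 < B) (ρ : ℝ) : Cl 0 0 (Cos_h B ρ) := by
  have h1 : Cl 0 0 (Th B) := Cl_mono (Cl_Th hB) le_rfl (by positivity)
  have h2 := Cl_sub (Cl_const (1 / 2 * (1 / B + 2 * ρ))) (Cl_smul (1 / (2 * B)) h1)
  have e : Cos_h B ρ = fun y => 1 / 2 * (1 / B + 2 * ρ) - 1 / (2 * B) * Th B y := by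
    funext y
    unfold Cos_h
    field_simp
    ring
  rw [e]
  exact h2

theorem Cos_bd_half (p q y : ℝ) : √(bd p q y) = bd (p / 2) (q / 2) y := by
  have h : bd (p / 2) (q / 2) y * bd (p / 2) (q / 2) y = bd p q y := by
    rw [bd_mul]
    congr 1 <;> ring
  rw [← h, Real.sqrt_mul_self (bd_pos _ _ _).le]

theorem Cos_smooth {B : ℝ} (hB : 0 < B) (ρ : ℝ) : ContDiff ℝ ∞ (Cos_r B ρ) :=
  (Cl_om hB ρ).1.sqrt (fun y => (om_pos B ρ y).ne')

theorem Cos_iter {B : ℝ} (hB : 0 < B) (ρ : ℝ) (j : ℕ) :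
    ∃ P : ℝ → ℝ, Cl 0 0 P ∧ ∀ y, iteratedDeriv j (Cos_r B ρ) y = P y * Cos_r B ρ y := by
  induction j with
  | zero => exact ⟨fun _ => 1, Cl_const 1, fun y => by simp⟩
  | succ j ih =>
    obtain ⟨P, hP, hj⟩ := ih
    refine ⟨fun y => deriv P y + P y * Cos_h B ρ y, Cl_add (Cl_der hP)
      (Cl_mul0 hP (Cos_Cl_h hB ρ)), fun y => ?_⟩
    rw [iteratedDeriv_succ]
    have e : iteratedDeriv j (Cos_r B ρ) = fun y => P y * Cos_r B ρ y := funext hj
    rw [e]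
    have h := ((Cl_hd hP y).mul (Cos_r_hd hB ρ y)).deriv
    have h' : deriv (fun y => P y * Cos_r B ρ y) y =
        deriv P y * Cos_r B ρ y + P y * (Cos_h B ρ y * Cos_r B ρ y) := h
    rw [h']
    ring

theorem Cos_Cl_r {B : ℝ} (hB : 0 < B) (ρ : ℝ) :
    Cl (-(2 * ρ) / 2) ((2 * ρ + 1 / B) / 2) (Cos_r B ρ) := by
  refine ⟨Cos_smooth hB ρ, fun j => ?_⟩
  obtain ⟨P, hP, hj⟩ := Cos_iter hB ρ j
  obtain ⟨A, hA0, hA⟩ := Cl_bnd hP
  obtain ⟨D, hD0, hD⟩ := Cl_bnd (Cl_om hB ρ)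
  refine ⟨A * √D, fun y => ?_⟩
  rw [hj, abs_mul, mul_assoc]
  have h1 : |P y| ≤ A := by
    have := hA y
    rwa [bd_zero, mul_one] at this
  have h2 : |Cos_r B ρ y| ≤ √D * bd (-(2 * ρ) / 2) ((2 * ρ + 1 / B) / 2) y := by
    rw [abs_of_pos (Cos_r_pos B ρ y), ← Cos_bd_half, ← Real.sqrt_mul hD0]
    exact Real.sqrt_le_sqrt ((le_abs_self _).trans (hD y))
  exact mul_le_mul h1 h2 (abs_nonneg _) hA0

theorem Cos_r_mono {B ρ : ℝ} (h : Slow B ρ) : Monotone (Cos_r B ρ) := by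
  have hB : 0 < B := by linarith [h.1]
  refine monotone_of_deriv_nonneg (fun y => (Cos_r_hd hB ρ y).differentiableAt) (fun y => ?_)
  rw [(Cos_r_hd hB ρ y).deriv]
  exact mul_nonneg (Cos_h_nonneg h y) (Cos_r_pos B ρ y).le

theorem Cos_r_anti {B ρ : ℝ} (h : Slow B ρ) :
    Antitone (fun y => Real.exp (-(1 / B * y)) * Cos_r B ρ y) := by
  have hB : 0 < B := by linarith [h.1]
  have hd : ∀ y, HasDerivAt (fun y => Real.exp (-(1 / B * y)) * Cos_r B ρ y)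
      (Real.exp (-(1 / B * y)) * (-(1 / B)) * Cos_r B ρ y +
        Real.exp (-(1 / B * y)) * (Cos_h B ρ y * Cos_r B ρ y)) y := by
    intro y
    have h1 : HasDerivAt (fun y : ℝ => -(1 / B * y)) (-(1 / B)) y := by
      have h0 := ((hasDerivAt_id y).const_mul (1 / B)).neg
      rw [mul_one] at h0
      exact h0
    exact h1.exp.mul (Cos_r_hd hB ρ y)
  refine antitone_of_deriv_nonpos (fun y => (hd y).differentiableAt) (fun y => ?_)
  rw [(hd y).deriv]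
  have h1 := Cos_h_le h y
  have h2 : 0 ≤ Real.exp (-(1 / B * y)) * Cos_r B ρ y :=
    mul_nonneg (Real.exp_pos _).le (Cos_r_pos B ρ y).le
  nlinarith

theorem Cos_exp_le (t : ℝ) : Real.exp t - 1 ≤ t * Real.exp t := by
  have h1 := Real.add_one_le_exp (-t)
  have h2 : Real.exp (-t) * Real.exp t = 1 := by
    rw [← Real.exp_add]
    simp
  nlinarith [Real.exp_pos t]

theorem Cos_ratio {B ρ : ℝ} (h : Slow B ρ) (y : ℝ) :
    |1 - Cos_r B ρ 0 / Cos_r B ρ y| ≤ 1 / B * (|y| * Real.exp (|y| / 16)) := by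
  have hB : 0 < B := by linarith [h.1]
  have hr := Cos_r_pos B ρ y
  have hr0 := Cos_r_pos B ρ 0
  have hexp : Real.exp (1 / B * |y|) ≤ Real.exp (|y| / 16) := by
    refine Real.exp_le_exp.2 ?_
    have h1 : 1 / B ≤ 1 / 16 := one_div_le_one_div_of_le (by norm_num) h.1
    have := mul_le_mul_of_nonneg_right h1 (abs_nonneg y)
    linarith
  have hy0 : 0 ≤ |y| := abs_nonneg y
  have hBi : 0 < 1 / B := by positivity
  have key : 1 / B * |y| * Real.exp (1 / B * |y|) ≤ 1 / B * (|y| * Real.exp (|y| / 16)) := by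
    rw [mul_assoc]
    exact mul_le_mul_of_nonneg_left (mul_le_mul_of_nonneg_left hexp hy0) hBi.le
  refine le_trans ?_ key
  have e0 : Real.exp (-(1 / B * 0)) * Cos_r B ρ 0 = Cos_r B ρ 0 := by simp
  rcases le_total 0 y with hy | hy
  · have m1 := Cos_r_mono h hy
    have m2 : Real.exp (-(1 / B * y)) * Cos_r B ρ y ≤ Real.exp (-(1 / B * 0)) * Cos_r B ρ 0 :=
      Cos_r_anti h hy
    rw [e0] at m2
    have q1 : Cos_r B ρ 0 / Cos_r B ρ y ≤ 1 := (div_le_one hr).2 m1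
    have q2 : Real.exp (-(1 / B * y)) ≤ Cos_r B ρ 0 / Cos_r B ρ y := (le_div_iff₀ hr).2 m2
    rw [abs_of_nonneg (by linarith), abs_of_nonneg hy]
    have h3 := Real.add_one_le_exp (-(1 / B * y))
    have h4 : 1 ≤ Real.exp (1 / B * y) := Real.one_le_exp (by positivity)
    have h5 : 0 ≤ 1 / B * y := by positivity
    (first | linarith only [h3, h4, q1, q2] | nlinarith only [h3, h4, q1, q2])
  · have m1 := Cos_r_mono h hy
    have m2 : Real.exp (-(1 / B * 0)) * Cos_r B ρ 0 ≤ Real.exp (-(1 / B * y)) * Cos_r B ρ y :=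
      Cos_r_anti h hy
    rw [e0] at m2
    have q1 : 1 ≤ Cos_r B ρ 0 / Cos_r B ρ y := (one_le_div hr).2 m1
    have q2 : Cos_r B ρ 0 / Cos_r B ρ y ≤ Real.exp (-(1 / B * y)) := (div_le_iff₀ hr).2 m2
    rw [abs_of_nonpos (by linarith), abs_of_nonpos hy]
    have h3 := Cos_exp_le (1 / B * -y)
    have e1 : -(1 / B * y) = 1 / B * -y := by ring
    rw [e1] at q2
    linarith

/-- the weight `(|y| e^{|y|/16} e^{-|y|})²` is integrable -/
theorem Cos_w_int : Integrable (fun y : ℝ => (|y| * Real.exp (|y| / 16) * bd 1 1 y) ^ 2) := by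
  refine int_of_bd (p := 1 / 2) (q := 1 / 2) (((continuous_abs.mul (by fun_prop)).mul
    (bd_cont 1 1)).pow 2) (by norm_num) (by norm_num) ⟨16, fun y => ?_⟩
  rw [abs_of_nonneg (sq_nonneg _), bd_abs, bd_abs]
  have h1 : |y| ≤ 4 * Real.exp (|y| / 4) := by
    have := Real.add_one_le_exp (|y| / 4)
    linarith
  have h0 : 0 ≤ |y| := abs_nonneg y
  have h2 : |y| * Real.exp (|y| / 16) * Real.exp (-(1 * |y|)) ≤
      4 * Real.exp (-(1 / 4 * |y|)) := by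
    have h3 : Real.exp (|y| / 16) * Real.exp (-(1 * |y|)) = Real.exp (-(15 / 16 * |y|)) := by
      rw [← Real.exp_add]
      congr 1
      ring
    rw [mul_assoc, h3]
    calc |y| * Real.exp (-(15 / 16 * |y|)) ≤ 4 * Real.exp (|y| / 4) * Real.exp (-(15 / 16 * |y|)) :=
          mul_le_mul_of_nonneg_right h1 (Real.exp_pos _).le
      _ = 4 * Real.exp (-(11 / 16 * |y|)) := by
          rw [mul_assoc, ← Real.exp_add]
          congr 2
          ring
      _ ≤ 4 * Real.exp (-(1 / 4 * |y|)) := by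
          refine mul_le_mul_of_nonneg_left (Real.exp_le_exp.2 ?_) (by norm_num)
          linarith
  have h4 : 0 ≤ |y| * Real.exp (|y| / 16) * Real.exp (-(1 * |y|)) := by positivity
  calc (|y| * Real.exp (|y| / 16) * Real.exp (-(1 * |y|))) ^ 2 ≤ (4 * Real.exp (-(1 / 4 * |y|))) ^ 2 :=
        pow_le_pow_left₀ h4 h2 2
    _ = 16 * Real.exp (-(1 / 2 * |y|)) := by
        rw [mul_pow, ← Real.exp_nat_mul]
        norm_num
        ring_nf

/-- change of the test function -/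
theorem Cos_ip {φ : ℝ → ℝ} (hφ : Cl 1 1 φ) : ∃ K : ℝ, 0 ≤ K ∧ ∀ B ρ : ℝ, Slow B ρ →
    ∀ (p q : ℝ) (ε : ℝ → ℝ), Adm ρ p q ε →
    (ip (fun y => Cos_r B ρ y * ε y) φ) ^ 2 ≤
      (ip ε φ) ^ 2 + K / B * ∫ y, (Cos_r B ρ y * ε y) ^ 2 := by
  obtain ⟨A, hA0, hA⟩ := Cl_bnd hφ
  refine ⟨2 * (A ^ 2 * ∫ y, (|y| * Real.exp (|y| / 16) * bd 1 1 y) ^ 2), ?_, ?_⟩
  · have : 0 ≤ ∫ y, (|y| * Real.exp (|y| / 16) * bd 1 1 y) ^ 2 :=
      integral_nonneg (fun y => sq_nonneg _)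
    positivity
  intro B ρ h p q ε hε
  obtain ⟨hp1, hp2, hq1, hq2, hcl⟩ := hε
  have hB : 0 < B := by linarith [h.1]
  have hρ : 0 < ρ := h.2.1
  have hBi : 0 < 1 / B := by positivity
  have hF := Cl_mul (Cos_Cl_r hB ρ) hcl
  have hp' : 0 < -(2 * ρ) / 2 + p := by linarith
  have hq' : 0 < (2 * ρ + 1 / B) / 2 + q := by linarith
  set F : ℝ → ℝ := fun y => Cos_r B ρ y * ε y with hFdef
  have hFφ := Cl_int (Cl_mul hF hφ) (by linarith) (by linarith)
  have hεφ := Cl_int (Cl_mul hcl hφ) (by linarith) (by linarith)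
  have hF2 : Integrable (fun y => F y ^ 2) := by
    have := Cl_int (Cl_mul hF hF) (by linarith) (by linarith)
    refine this.congr (Eventually.of_forall fun y => ?_)
    show F y * F y = F y ^ 2
    ring
  set G : ℝ → ℝ := fun y => φ y * (1 - Cos_r B ρ 0 / Cos_r B ρ y) with hG
  have hGc : Continuous G := by
    refine (Cl_cont hφ).mul (continuous_const.sub (continuous_const.div ?_ ?_))
    · exact (Cos_smooth hB ρ).continuous
    · exact fun y => (Cos_r_pos B ρ y).ne'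
  have hGle : ∀ y, G y ^ 2 ≤ (1 / B) ^ 2 * (A ^ 2 * (|y| * Real.exp (|y| / 16) * bd 1 1 y) ^ 2) := by
    intro y
    have h1 : |G y| ≤ 1 / B * (A * (|y| * Real.exp (|y| / 16) * bd 1 1 y)) := by
      rw [hG]
      show |φ y * (1 - Cos_r B ρ 0 / Cos_r B ρ y)| ≤ _
      rw [abs_mul]
      calc |φ y| * |1 - Cos_r B ρ 0 / Cos_r B ρ y| ≤
            (A * bd 1 1 y) * (1 / B * (|y| * Real.exp (|y| / 16))) :=
            mul_le_mul (hA y) (Cos_ratio h y) (abs_nonneg _) (mul_nonneg hA0 (bd_pos _ _ _).le)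
        _ = 1 / B * (A * (|y| * Real.exp (|y| / 16) * bd 1 1 y)) := by ring
    calc G y ^ 2 = |G y| ^ 2 := (sq_abs _).symm
      _ ≤ (1 / B * (A * (|y| * Real.exp (|y| / 16) * bd 1 1 y))) ^ 2 :=
          pow_le_pow_left₀ (abs_nonneg _) h1 2
      _ = (1 / B) ^ 2 * (A ^ 2 * (|y| * Real.exp (|y| / 16) * bd 1 1 y) ^ 2) := by ring
  have hWi : Integrable (fun y : ℝ => (1 / B) ^ 2 *
      (A ^ 2 * (|y| * Real.exp (|y| / 16) * bd 1 1 y) ^ 2)) :=
    (Cos_w_int.const_mul (A ^ 2)).const_mul ((1 / B) ^ 2)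
  have hG2 : Integrable (fun y => G y ^ 2) := by
    refine hWi.mono' (hGc.pow 2).aestronglyMeasurable (Eventually.of_forall fun y => ?_)
    rw [Real.norm_eq_abs, abs_of_nonneg (sq_nonneg _)]
    exact hGle y
  have hG2le : ∫ y, G y ^ 2 ≤ (1 / B) ^ 2 *
      (A ^ 2 * ∫ y, (|y| * Real.exp (|y| / 16) * bd 1 1 y) ^ 2) := by
    refine (integral_mono hG2 hWi hGle).trans (le_of_eq ?_)
    rw [integral_const_mul, integral_const_mul]
  obtain ⟨-, hcs⟩ := cs_int (Cl_cont hF) hGc hF2 hG2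
  have hdiff : ip F φ - Cos_r B ρ 0 * ip ε φ = ∫ y, F y * G y := by
    unfold ip
    rw [← integral_const_mul, ← integral_sub hFφ (hεφ.const_mul _)]
    refine integral_congr_ae (Eventually.of_forall fun y => ?_)
    show F y * φ y - Cos_r B ρ 0 * (ε y * φ y) = F y * (φ y * (1 - Cos_r B ρ 0 / Cos_r B ρ y))
    rw [hFdef]
    have hr := (Cos_r_pos B ρ y).ne'
    show Cos_r B ρ y * ε y * φ y - Cos_r B ρ 0 * (ε y * φ y) =
      Cos_r B ρ y * ε y * (φ y * (1 - Cos_r B ρ 0 / Cos_r B ρ y))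
    field_simp
  have hr0 : Cos_r B ρ 0 ^ 2 = 1 / 2 := by
    rw [Cos_r_sq]
    unfold om Th
    norm_num
  have hsq : (ip F φ - Cos_r B ρ 0 * ip ε φ) ^ 2 ≤ (∫ y, F y ^ 2) * ∫ y, G y ^ 2 := by
    rw [hdiff, ← sq_abs]
    calc |∫ y, F y * G y| ^ 2 ≤ (√(∫ y, F y ^ 2) * √(∫ y, G y ^ 2)) ^ 2 :=
          pow_le_pow_left₀ (abs_nonneg _) hcs 2
      _ = (∫ y, F y ^ 2) * ∫ y, G y ^ 2 := by
          rw [mul_pow, Real.sq_sqrt (integral_nonneg fun y => sq_nonneg _),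
            Real.sq_sqrt (integral_nonneg fun y => sq_nonneg _)]
  have hF0 : 0 ≤ ∫ y, F y ^ 2 := integral_nonneg fun y => sq_nonneg _
  have hW0 : 0 ≤ A ^ 2 * ∫ y, (|y| * Real.exp (|y| / 16) * bd 1 1 y) ^ 2 :=
    mul_nonneg (sq_nonneg _) (integral_nonneg fun y => sq_nonneg _)
  set W := A ^ 2 * ∫ y, (|y| * Real.exp (|y| / 16) * bd 1 1 y) ^ 2 with hWdef
  have hB2 : (1 / B) ^ 2 ≤ 1 / B := by
    have : 1 / B ≤ 1 := by
      rw [div_le_one hB]
      linarith [h.1]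
    (first | linarith only [hBi, hp1, hp2, hρ, this] | nlinarith only [hBi, hp1, hp2, hρ, this])
  have h9 : (∫ y, F y ^ 2) * ∫ y, G y ^ 2 ≤ 1 / B * W * ∫ y, F y ^ 2 := by
    have : ∫ y, G y ^ 2 ≤ 1 / B * W := hG2le.trans (mul_le_mul_of_nonneg_right hB2 hW0)
    (first | linarith only [hF0, hp1, hp2, hρ, this] | nlinarith only [hF0, hp1, hp2, hρ, this])
  have h10 : (ip F φ) ^ 2 ≤ 2 * (Cos_r B ρ 0 * ip ε φ) ^ 2 +
      2 * (ip F φ - Cos_r B ρ 0 * ip ε φ) ^ 2 := by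
    (first | linarith only [sq_nonneg (ip F φ - 2 * (Cos_r B ρ 0 * ip ε φ))] | nlinarith only [sq_nonneg (ip F φ - 2 * (Cos_r B ρ 0 * ip ε φ))])
  have h11 : (Cos_r B ρ 0 * ip ε φ) ^ 2 = 1 / 2 * (ip ε φ) ^ 2 := by
    rw [mul_pow, hr0]
  have h12 : 2 * W / B * ∫ y, F y ^ 2 = 2 * (1 / B * W * ∫ y, F y ^ 2) := by ring
  rw [h11] at h10
  show (ip F φ) ^ 2 ≤ (ip ε φ) ^ 2 + 2 * W / B * ∫ y, F y ^ 2
  rw [h12]
  linarith

/-- lower bound of the quadratic form -/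
theorem Cos_pt {δ a u v : ℝ} (hδ : 0 < δ) (ha : 0 ≤ a) (haδ : a ≤ δ) (hδ1 : δ ≤ 1) :
    (1 - δ) * u ^ 2 - δ * v ^ 2 ≤ (u - a * v) ^ 2 := by
  have h1 : 0 ≤ (δ * u - a * v) ^ 2 := sq_nonneg _
  have h2 : a ^ 2 ≤ δ ^ 2 := by nlinarith
  have h3 : a ^ 2 * v ^ 2 ≤ δ ^ 2 * v ^ 2 := mul_le_mul_of_nonneg_right h2 (sq_nonneg v)
  have h4 : 0 ≤ δ * ((u - a * v) ^ 2 - ((1 - δ) * u ^ 2 - δ * v ^ 2)) := by
    nlinarith [mul_nonneg hδ.le (mul_nonneg (sq_nonneg a) (sq_nonneg v))]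
  have h5 := nonneg_of_mul_nonneg_right h4 hδ
  linarith

theorem CO_E (k : ℕ) (hk : 5 ≤ k) : ∃ ν c C B₁ : ℝ, 0 < ν ∧ ν ≤ 1 ∧ 0 < c ∧ 0 < C ∧ 16 ≤ B₁ ∧
    ∀ B ρ : ℝ, Slow B ρ → B₁ ≤ B → ∀ (p q : ℝ) (ε : ℝ → ℝ), Adm ρ p q ε → (∀ y, |ε y| ≤ ν) →
    c * Gn B ρ ε ≤ Ef k B ρ ε + C * ((ip ε (ph0 k)) ^ 2 + (ip ε (deriv (Qf k))) ^ 2) := by
  have hk1 : 1 ≤ k := by omega
  obtain ⟨c0, C0', hc0, hC0', hco⟩ := L_coer k (by omega)
  obtain ⟨C1, hC1, hcub⟩ := bF_cub k (by omega)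
  have hph : Cl 1 1 (ph0 k) := by
    have hk0 : (0 : ℝ) ≤ (k : ℝ) := Nat.cast_nonneg k
    exact Cl_mono (Cl_ph0 hk1) (by linarith) (by linarith)
  obtain ⟨K1, hK1, hip1⟩ := Cos_ip hph
  obtain ⟨K2, hK2, hip2⟩ := Cos_ip (Cl_der (Cl_Qf hk1))
  have hν0 : 0 < c0 / (8 * C1) := by positivity
  refine ⟨min 1 (c0 / (8 * C1)), c0 / 16, C0', 16 + 4 * C0' * (K1 + K2) / c0 + 4 / c0,
    lt_min one_pos hν0, min_le_left _ _, by positivity, hC0', ?_, ?_⟩
  · have : 0 ≤ 4 * C0' * (K1 + K2) / c0 := by positivity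
    have : 0 ≤ 4 / c0 := by positivity
    linarith
  intro B ρ h hB1 p q ε hadm hεν
  have hadm' := hadm
  obtain ⟨hp1, hp2, hq1, hq2, hcl⟩ := hadm'
  have hB : 0 < B := by linarith [h.1]
  have hρ : 0 < ρ := h.2.1
  have hBi : 0 < 1 / B := by positivity
  have hBi1 : 1 / B ≤ 1 := by
    rw [div_le_one hB]
    linarith [h.1]
  have hF := Cl_mul (Cos_Cl_r hB ρ) hcl
  have hp' : 0 < -(2 * ρ) / 2 + p := by linarith
  have hq' : 0 < (2 * ρ + 1 / B) / 2 + q := by linarith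
  have hcoF := hco _ _ _ hp' hq' hF
  have hi1 := hip1 B ρ h p q ε hadm
  have hi2 := hip2 B ρ h p q ε hadm
  set F : ℝ → ℝ := fun y => Cos_r B ρ y * ε y with hFdef
  have hFd : ∀ y, deriv F y = Cos_r B ρ y * deriv ε y + Cos_h B ρ y * F y := by
    intro y
    have := ((Cos_r_hd hB ρ y).mul (Cl_hd hcl y)).deriv
    have h' : deriv F y = Cos_h B ρ y * Cos_r B ρ y * ε y + Cos_r B ρ y * deriv ε y := this
    rw [h']
    show _ = Cos_r B ρ y * deriv ε y + Cos_h B ρ y * (Cos_r B ρ y * ε y)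
    ring
  have hF2 : Integrable (fun y => F y ^ 2) := by
    refine (Cl_int (Cl_mul hF hF) (by linarith) (by linarith)).congr
      (Eventually.of_forall fun y => ?_)
    show F y * F y = F y ^ 2
    ring
  have hFd2 : Integrable (fun y => deriv F y ^ 2) := by
    refine (Cl_int (Cl_mul (Cl_der hF) (Cl_der hF)) (by linarith) (by linarith)).congr
      (Eventually.of_forall fun y => ?_)
    show deriv F y * deriv F y = deriv F y ^ 2
    ring
  have hQF : Integrable (fun y => Qf k y ^ k * F y ^ 2) := by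
    have hk0 : (0 : ℝ) ≤ (k : ℝ) := Nat.cast_nonneg k
    refine (Cl_int (Cl_mul (Cl_Qk hk1) (Cl_mul hF hF)) (by linarith) (by linarith)).congr
      (Eventually.of_forall fun y => ?_)
    show Qf k y ^ k * (F y * F y) = Qf k y ^ k * F y ^ 2
    ring
  have hL : Integrable (fun y => om B ρ y * ((deriv ε y) ^ 2 + (ε y) ^ 2 - 2 * bF k ε y)) := by
    have h1 := Cl_mul (Cl_der hcl) (Cl_der hcl)
    have h2 := Cl_mul hcl hcl
    have h3 : Cl (p + p) (q + q) (bF k ε) :=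
      Cl_mono (Cl_bF hk1 (by linarith) (by linarith) (by linarith) (by linarith) hcl)
        (by linarith) (by linarith)
    have h4 := Cl_mul (Cl_om hB ρ) (Cl_sub (Cl_add h1 h2) (Cl_smul 2 h3))
    refine (Cl_int h4 (by linarith) (by linarith)).congr (Eventually.of_forall fun y => ?_)
    show om B ρ y * (deriv ε y * deriv ε y + ε y * ε y - 2 * bF k ε y) = _
    ring
  have hGi : Integrable (fun y => om B ρ y * ((ε y) ^ 2 + (deriv ε y) ^ 2)) := by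
    have h1 := Cl_mul (Cl_der hcl) (Cl_der hcl)
    have h2 := Cl_mul hcl hcl
    have h4 := Cl_mul (Cl_om hB ρ) (Cl_add h2 h1)
    refine (Cl_int h4 (by linarith) (by linarith)).congr (Eventually.of_forall fun y => ?_)
    show om B ρ y * (ε y * ε y + deriv ε y * deriv ε y) = _
    ring
  set ν := min 1 (c0 / (8 * C1)) with hν
  have hν1 : ν ≤ 1 := min_le_left _ _
  have hν2 : C1 * ν ≤ c0 / 8 := by
    have : ν ≤ c0 / (8 * C1) := min_le_right _ _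
    calc C1 * ν ≤ C1 * (c0 / (8 * C1)) := mul_le_mul_of_nonneg_left this hC1.le
      _ = c0 / 8 := by
        field_simp
  have hFsq : ∀ y, om B ρ y * (ε y) ^ 2 = F y ^ 2 := by
    intro y
    show om B ρ y * (ε y) ^ 2 = (Cos_r B ρ y * ε y) ^ 2
    rw [mul_pow, Cos_r_sq]
  have hFdsq : ∀ y, om B ρ y * (deriv ε y) ^ 2 = (deriv F y - Cos_h B ρ y * F y) ^ 2 := by
    intro y
    rw [hFd y, ← Cos_r_sq]
    ring
  -- pointwise lower bound
  have hpt : ∀ y, (deriv F y) ^ 2 + (F y) ^ 2 - Qf k y ^ k * (F y) ^ 2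
      - (1 / B * ((F y) ^ 2 + (deriv F y) ^ 2) + 2 * (C1 * ν) * (F y) ^ 2) ≤
      om B ρ y * ((deriv ε y) ^ 2 + (ε y) ^ 2 - 2 * bF k ε y) := by
    intro y
    have h1 := Cos_pt (δ := 1 / B) (a := Cos_h B ρ y) (u := deriv F y) (v := F y) hBi
      (Cos_h_nonneg h y) (Cos_h_le h y) hBi1
    have h2 := hcub ε y ((hεν y).trans hν1)
    have h3 : |ε y| ^ 3 ≤ ν * (ε y) ^ 2 := by
      have : |ε y| ^ 3 = |ε y| * (ε y) ^ 2 := by
        rw [← sq_abs (ε y)]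
        ring
      rw [this]
      exact mul_le_mul_of_nonneg_right (hεν y) (sq_nonneg _)
    have h4 : bF k ε y - 1 / 2 * (Qf k y ^ k * (ε y) ^ 2) ≤ C1 * ν * (ε y) ^ 2 := by
      refine (le_abs_self _).trans (h2.trans ?_)
      rw [mul_assoc]
      exact mul_le_mul_of_nonneg_left h3 hC1.le
    have h5 := mul_le_mul_of_nonneg_left h4 (om_pos B ρ y).le
    have e1 : om B ρ y * ((deriv ε y) ^ 2 + (ε y) ^ 2 - 2 * bF k ε y) =
        om B ρ y * (deriv ε y) ^ 2 + om B ρ y * (ε y) ^ 2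
          - Qf k y ^ k * (om B ρ y * (ε y) ^ 2)
          - 2 * (om B ρ y * (bF k ε y - 1 / 2 * (Qf k y ^ k * (ε y) ^ 2))) := by ring
    have e2 : om B ρ y * (C1 * ν * (ε y) ^ 2) = C1 * ν * (om B ρ y * (ε y) ^ 2) := by ring
    rw [e2] at h5
    rw [e1, hFdsq, hFsq]
    rw [hFsq] at h5
    linarith
  have hint := integral_mono (((hFd2.add hF2).sub hQF).sub
    (((hF2.add hFd2).const_mul (1 / B)).add (hF2.const_mul (2 * (C1 * ν))))) hL hpt
  have e3 : ∫ y, ((deriv F y) ^ 2 + (F y) ^ 2 - Qf k y ^ k * (F y) ^ 2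
      - (1 / B * ((F y) ^ 2 + (deriv F y) ^ 2) + 2 * (C1 * ν) * (F y) ^ 2)) =
      (∫ y, ((deriv F y) ^ 2 + (F y) ^ 2 - Qf k y ^ k * (F y) ^ 2))
      - (1 / B * (∫ y, ((F y) ^ 2 + (deriv F y) ^ 2)) + 2 * (C1 * ν) * ∫ y, (F y) ^ 2) := by
    have gA : Integrable (fun y => (deriv F y) ^ 2 + (F y) ^ 2 - Qf k y ^ k * (F y) ^ 2) :=
      (hFd2.add hF2).sub hQF
    have gB : Integrable (fun y => 1 / B * ((F y) ^ 2 + (deriv F y) ^ 2)) :=
      (hF2.add hFd2).const_mul (1 / B)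
    have gC : Integrable (fun y => 2 * (C1 * ν) * (F y) ^ 2) := hF2.const_mul _
    have gS : Integrable (fun y => 1 / B * ((F y) ^ 2 + (deriv F y) ^ 2)
        + 2 * (C1 * ν) * (F y) ^ 2) := gB.add gC
    rw [integral_sub gA gS, integral_add gB gC, integral_const_mul, integral_const_mul]
  have hint' : (∫ y, ((deriv F y) ^ 2 + (F y) ^ 2 - Qf k y ^ k * (F y) ^ 2))
      - (1 / B * (∫ y, ((F y) ^ 2 + (deriv F y) ^ 2)) + 2 * (C1 * ν) * ∫ y, (F y) ^ 2) ≤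
      ∫ y, om B ρ y * ((deriv ε y) ^ 2 + (ε y) ^ 2 - 2 * bF k ε y) := by
    rw [← e3]
    exact hint
  have hN2 : ∫ y, (F y) ^ 2 ≤ ∫ y, ((F y) ^ 2 + (deriv F y) ^ 2) :=
    integral_mono hF2 (hF2.add hFd2) (fun y => by
      show F y ^ 2 ≤ F y ^ 2 + deriv F y ^ 2
      linarith [sq_nonneg (deriv F y)])
  have hN20 : 0 ≤ ∫ y, (F y) ^ 2 := integral_nonneg fun y => sq_nonneg _
  have hG : Gn B ρ ε ≤ 2 * ∫ y, ((F y) ^ 2 + (deriv F y) ^ 2) := by
    unfold Gn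
    rw [← integral_const_mul]
    refine integral_mono hGi ((hF2.add hFd2).const_mul 2) (fun y => ?_)
    show om B ρ y * ((ε y) ^ 2 + (deriv ε y) ^ 2) ≤ 2 * (F y ^ 2 + deriv F y ^ 2)
    rw [mul_add, hFsq, hFdsq]
    have h1 := Cos_h_nonneg h y
    have h2 : Cos_h B ρ y ≤ 1 / 16 :=
      (Cos_h_le h y).trans (one_div_le_one_div_of_le (by norm_num) h.1)
    have h3 : Cos_h B ρ y ^ 2 ≤ 1 / 256 := by (first | linarith only [h1, h2, hp1, hp2, hρ] | nlinarith only [h1, h2, hp1, hp2, hρ])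
    have h4 : Cos_h B ρ y ^ 2 * F y ^ 2 ≤ 1 / 256 * F y ^ 2 :=
      mul_le_mul_of_nonneg_right h3 (sq_nonneg _)
    (first | linarith only [sq_nonneg (deriv F y + Cos_h B ρ y * F y), sq_nonneg (F y), h4] | nlinarith only [sq_nonneg (deriv F y + Cos_h B ρ y * F y), sq_nonneg (F y), h4])
  set N := ∫ y, ((F y) ^ 2 + (deriv F y) ^ 2) with hNdef
  set N2 := ∫ y, (F y) ^ 2 with hN2def
  set I1 := (ip ε (ph0 k)) ^ 2 with hI1
  set I2 := (ip ε (deriv (Qf k))) ^ 2 with hI2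
  have hE : Ef k B ρ ε = 1 / 2 * ∫ y, om B ρ y * ((deriv ε y) ^ 2 + (ε y) ^ 2 - 2 * bF k ε y) := rfl
  have hI0 : 0 ≤ I1 + I2 := add_nonneg (sq_nonneg _) (sq_nonneg _)
  have hN0 : 0 ≤ N := hN20.trans hN2
  -- smallness of the parameters
  have hb1 : C0' * ((K1 + K2) / B) ≤ c0 / 4 := by
    have h1 : 4 * C0' * (K1 + K2) / c0 ≤ B := by
      have : 0 ≤ 4 / c0 := by positivity
      linarith
    rw [div_le_iff₀ hc0] at h1
    rw [mul_div_assoc', div_le_iff₀ hB]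
    linarith
  have hb2 : 1 / B ≤ c0 / 4 := by
    have h1 : 4 / c0 ≤ B := by
      have : 0 ≤ 4 * C0' * (K1 + K2) / c0 := by positivity
      linarith
    rw [div_le_iff₀ hc0] at h1
    rw [div_le_iff₀ hB]
    linarith
  have hKN : (K1 + K2) / B * N2 ≤ (K1 + K2) / B * N :=
    mul_le_mul_of_nonneg_left hN2 (by positivity)
  have hs1 : C0' * ((K1 + K2) / B * N2) ≤ c0 / 4 * N := by
    calc C0' * ((K1 + K2) / B * N2) ≤ C0' * ((K1 + K2) / B * N) :=
          mul_le_mul_of_nonneg_left hKN hC0'.le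
      _ = C0' * ((K1 + K2) / B) * N := by ring
      _ ≤ c0 / 4 * N := mul_le_mul_of_nonneg_right hb1 hN0
  have hs2 : 1 / B * N ≤ c0 / 4 * N := mul_le_mul_of_nonneg_right hb2 hN0
  have hs3 : 2 * (C1 * ν) * N2 ≤ c0 / 4 * N := by
    have h1 : 2 * (C1 * ν) ≤ c0 / 4 := by linarith
    calc 2 * (C1 * ν) * N2 ≤ c0 / 4 * N2 := mul_le_mul_of_nonneg_right h1 hN20
      _ ≤ c0 / 4 * N := mul_le_mul_of_nonneg_left hN2 (by positivity)
  have hs4 : C0' * ((ip F (ph0 k)) ^ 2 + (ip F (deriv (Qf k))) ^ 2) ≤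
      C0' * (I1 + I2) + C0' * ((K1 + K2) / B * N2) := by
    rw [← mul_add]
    refine mul_le_mul_of_nonneg_left ?_ hC0'.le
    have e5 : (K1 + K2) / B * N2 = K1 / B * N2 + K2 / B * N2 := by ring
    rw [e5]
    linarith
  have hC0I : 0 ≤ C0' * (I1 + I2) := mul_nonneg hC0'.le hI0
  rw [hE]
  have hfin : c0 / 16 * Gn B ρ ε ≤ c0 / 8 * N := by
    calc c0 / 16 * Gn B ρ ε ≤ c0 / 16 * (2 * N) := mul_le_mul_of_nonneg_left hG (by positivity)
      _ = c0 / 8 * N := by ring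
  linarith

end H98KB

end S_H98_KB_Cos
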