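import Mathlib
import Pool.Agent.H98.BU.G01
import Pool.Agent.H98.BU.G02
import Pool.Agent.H98.BU.G03
import Pool.Agent.H98.BU.G04
import Pool.Agent.H98.BU.G06
import Pool.Agent.H98.BU.G07
import Pool.Agent.H98.BU.G09

/-! Blow-up for `u_t + u^k u_x + u_xxx - u_xx = 0`, part G10: this file joins several modules
to save build time (`Pool/Agent/H98/{KB,KC}`, `H72/{KB,KC}`, `H68/KC`, `H37/{KB,KC}`). -/

section S_H98_KC_Fmb

/-!
# Fmb (MP_95be7d_S4): the terms `ΛQ`, `Q'`, `ε'` in the energy (variant of `KB/Emb.lean`, `KB/Emd.lean`; uses the statements of `Ida`, `Idb`, `Wzb`)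

Local bound used everywhere: for `φ` with `|φ| ≤ C e^{-3|y|/4}`: `∫|ε||φ| ≤ C(∫loc ε²)^{1/2} ≤ C √ln` since `loc ≥ e^{-|y|/2}` (`ex_le_loc`) and
`φ²e^{|y|/2}` is integrable; constants independent of `B, γ, s`.
* `FT2` for `ζ = ΛQ`: `EE4_L`, `Lζ = -2Q` (`L_LamQ`).  `∫om ε Lζ = -2om(0)(ε,Q) - 2∫(om-om(0))εQ`, `|om(y)-om(0)| ≤ (4/B)|y|` (mean value theorem,
  `|om'| ≤ 2ta ≤ 4/B`), `|y|Q ≤ Ce^{-3|y|/4}`: `≤ 2|(ε,Q)| + (C/B)√ln`.  `|∫om'εζ'| ≤ (4/B)∫|ε||ζ'| ≤ (C/B)√ln`.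
  `|R| ≤ Cε² ≤ Cτ|ε|` (`R_le`): `|∫om Rζ| ≤ Cτ√ln`.
* `ζ = Q'`: the same with `Lζ = 0` (`L_Qd`).
* `FT5`: `EE4_d`, `|om'| ≤ 2ta`, `|bF| ≤ C(Q⁴+ε⁴)ε² ≤ Cε²` (`bF_le`, `Q` bounded), `∫om|R||Q'| ≤ C∫ e^{-|y|}ε² ≤ C ln`.
-/

open MeasureTheory Filter Topology Set
open scoped ContDiff

noncomputable section

namespace H98KC

open H98KB H68KC

theorem Fmb_key : ∃ K : ℝ, 0 < K ∧ ∀ γ : ℝ, 0 < γ → γ ≤ 1 / 8 → ∀ B : ℝ, 16 ≤ B →
    ∀ (ε : ℝ → ℝ), Cl 0 0 ε → ∀ (A : ℝ) (f : ℝ → ℝ), 0 ≤ A →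
    (∀ y, |f y| ≤ A * (bd (3 / 4) (3 / 4) y * |ε y|)) →
    |∫ y, f y| ≤ A * K * √(ln γ B ε) := by
  refine ⟨√(∫ y, bd 1 1 y) + 1, by positivity, ?_⟩
  intro γ hγ hγ' B hB16 ε hC A f hA hf
  have hB : 0 < B := by linarith
  have hC' := Cl_der hC
  have h2 : Cl 0 0 (fun y => ε y ^ 2) := Cl_pow' hC le_rfl le_rfl 2 (by norm_num)
  have h2' : Cl 0 0 (fun y => deriv ε y ^ 2) := Cl_pow' hC' le_rfl le_rfl 2 (by norm_num)
  have hE := Cl_add h2 h2'
  have hFc : Continuous (fun y => |ε y|) := (Cl_cont hC).abs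
  have hWF : Integrable (fun y => bd (1 / 2) (1 / 2) y * |ε y| ^ 2) := by
    obtain ⟨C, hC0, hCb⟩ := Cl_bnd h2
    refine int_of_bd (p := 1 / 2) (q := 1 / 2) ((bd_cont _ _).mul (hFc.pow 2)) (by norm_num)
      (by norm_num) ⟨C, fun y => ?_⟩
    have hb := (bd_pos (1 / 2) (1 / 2) y).le
    rw [abs_of_nonneg (mul_nonneg hb (sq_nonneg _)), sq_abs]
    have h3 := (le_abs_self _).trans (hCb y)
    have h4 : bd 0 0 y = 1 := by unfold bd; simp
    rw [h4, mul_one] at h3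
    calc _ ≤ bd (1 / 2) (1 / 2) y * C := mul_le_mul_of_nonneg_left h3 hb
      _ = _ := by ring
  have hφ2 : ∀ y, bd (3 / 4) (3 / 4) y ^ 2 / bd (1 / 2) (1 / 2) y = bd 1 1 y := by
    intro y
    have hb := (bd_pos (1 / 2) (1 / 2) y).ne'
    rw [div_eq_iff hb, bd_mul, pow_two, bd_mul]
    norm_num
  have hI : Integrable (fun y => bd (3 / 4) (3 / 4) y ^ 2 / bd (1 / 2) (1 / 2) y) := by
    simp only [hφ2]
    exact bd_int (by norm_num) (by norm_num)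
  obtain ⟨hint, hcs⟩ := cs_wt (F := fun y => |ε y|) (φ := bd (3 / 4) (3 / 4))
    (W := bd (1 / 2) (1 / 2)) hFc (bd_cont _ _) (bd_cont _ _) (fun y => bd_pos _ _ y) hWF hI
  simp only [hφ2] at hcs
  have hln : ∫ y, bd (1 / 2) (1 / 2) y * |ε y| ^ 2 ≤ ln γ B ε := by
    unfold ln
    refine integral_mono hWF ?_ fun y => ?_
    · have h5 := Cl_mul (Cl_mul (Cl_se2 hγ) (Cl_ch hB)) hE
      have hB' : 0 < 2 / B := by positivity
      exact Cl_int h5 (by linarith) (by linarith)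
    · show bd (1 / 2) (1 / 2) y * |ε y| ^ 2 ≤
        loc γ B y * (ε y ^ 2 + deriv ε y ^ 2)
      have h6 : bd (1 / 2) (1 / 2) y ≤ loc γ B y := by
        rw [bd_abs]
        refine le_trans (le_of_eq ?_) (ex_le_loc hγ hγ' hB16 y)
        congr 1
        ring
      refine mul_le_mul h6 ?_ (by positivity) (loc_pos γ B y).le
      rw [sq_abs]
      nlinarith [sq_nonneg (deriv ε y)]
  have h7 : |∫ y, f y| ≤ ∫ y, A * (|ε y| * bd (3 / 4) (3 / 4) y) := by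
    rw [← Real.norm_eq_abs]
    refine norm_integral_le_of_norm_le (hint.const_mul A) (Eventually.of_forall fun y => ?_)
    rw [Real.norm_eq_abs]
    refine (hf y).trans (le_of_eq ?_)
    ring
  rw [integral_const_mul] at h7
  refine h7.trans ?_
  have h8 : ∫ y, |ε y| * bd (3 / 4) (3 / 4) y ≤
      √(∫ y, bd 1 1 y) * √(ln γ B ε) := by
    refine (le_abs_self _).trans (hcs.trans ?_)
    exact mul_le_mul_of_nonneg_left (Real.sqrt_le_sqrt hln) (Real.sqrt_nonneg _)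
  have h9 := Real.sqrt_nonneg (ln γ B ε)
  calc _ ≤ A * (√(∫ y, bd 1 1 y) * √(ln γ B ε)) :=
        mul_le_mul_of_nonneg_left h8 hA
    _ ≤ A * (√(∫ y, bd 1 1 y) * √(ln γ B ε)) + A * √(ln γ B ε) := by
        have := mul_nonneg hA h9
        linarith
    _ = _ := by ring

theorem Fmb_ta (B s y : ℝ) (h : Slow4 B s) : |deriv (om4 B s) y| ≤ 4 / B := by
  have h1 := om41_le h y
  have h2 := ta_hi h y
  have h3 : 2 * (2 / B) = 4 / B := by ring
  linarith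

theorem Fmb_L {ζ : ℝ → ℝ} (hζ : Cl (3 / 4) (3 / 4) ζ) : ∃ C : ℝ, 0 < C ∧
    ∀ γ : ℝ, 0 < γ → γ ≤ 1 / 8 →
    ∀ B s : ℝ, Slow4 B s → ∀ (τ : ℝ) (ε : ℝ → ℝ), Cl 0 0 ε → τ ≤ 1 → (∀ y, |ε y| ≤ τ) →
    |EE4 B s ε ζ - ∫ y, om4 B s y * (ε y * Lop 4 ζ y)| ≤ C * ((1 / B + τ) * √(ln γ B ε)) := by
  obtain ⟨K, hK, hkey⟩ := Fmb_key
  obtain ⟨CR, hCR, hR⟩ := R_le 4 (by norm_num)
  obtain ⟨C0, hC0, hz0⟩ := Cl_bnd hζ
  obtain ⟨C1, hC1, hz1⟩ := Cl_bnd (Cl_der hζ)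
  have hζ0 : Cl 0 0 ζ := Cl_mono hζ (by norm_num) (by norm_num)
  refine ⟨4 * C1 * K + CR * C0 * K + 1, by positivity, ?_⟩
  intro γ hγ hγ' B s hs τ ε hε hτ hb
  have hB16 := hs.1
  have hB : 0 < B := by linarith
  have hτ0 : 0 ≤ τ := (abs_nonneg _).trans (hb 0)
  rw [EE4_L hs hε hζ0]
  have h1 := hkey γ hγ hγ' B hB16 ε hε (4 / B * C1)
    (fun y => deriv (om4 B s) y * (ε y * deriv ζ y)) (by positivity) (by
      intro y
      have ho := Fmb_ta B s y hs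
      show |deriv (om4 B s) y * (ε y * deriv ζ y)| ≤ _
      rw [abs_mul, abs_mul]
      have e1 : |ε y| * |deriv ζ y| ≤ |ε y| * (C1 * bd (3 / 4) (3 / 4) y) :=
        mul_le_mul_of_nonneg_left (hz1 y) (abs_nonneg _)
      refine (mul_le_mul ho e1 (by positivity) (by positivity)).trans (le_of_eq ?_)
      ring)
  have h2 := hkey γ hγ hγ' B hB16 ε hε (CR * τ * C0)
    (fun y => om4 B s y * (Rf 4 ε y * ζ y)) (by positivity) (by
      intro y
      have ho := om4_le_one B s y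
      have hop := (om4_pos B s y).le
      have hbd := (bd_pos (3 / 4) (3 / 4) y).le
      show |om4 B s y * (Rf 4 ε y * ζ y)| ≤ _
      rw [abs_mul, abs_of_nonneg hop, abs_mul]
      have e0 : |Rf 4 ε y| ≤ CR * (τ * |ε y|) := by
        refine (hR ε y ((hb y).trans hτ)).trans ?_
        refine mul_le_mul_of_nonneg_left ?_ hCR.le
        rw [← sq_abs, pow_two]
        exact mul_le_mul_of_nonneg_right (hb y) (abs_nonneg _)
      have e1 : |Rf 4 ε y| * |ζ y| ≤ (CR * (τ * |ε y|)) * (C0 * bd (3 / 4) (3 / 4) y) :=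
        mul_le_mul e0 (hz0 y) (abs_nonneg _) (by positivity)
      refine (mul_le_mul ho e1 (by positivity) zero_le_one).trans (le_of_eq ?_)
      ring)
  have h3 := Real.sqrt_nonneg (ln γ B ε)
  have hB' : 0 < 1 / B := by positivity
  have e : ∀ x a b : ℝ, x - a - b - x = -a - b := by intro x a b; ring
  rw [e]
  have h4 : |-(∫ y, deriv (om4 B s) y * (ε y * deriv ζ y)) -
      ∫ y, om4 B s y * (Rf 4 ε y * ζ y)| ≤
      4 / B * C1 * K * √(ln γ B ε) + CR * τ * C0 * K * √(ln γ B ε) := by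
    refine (abs_sub _ _).trans ?_
    rw [abs_neg]
    exact add_le_add h1 h2
  refine h4.trans ?_
  have e : 4 / B = 4 * (1 / B) := by ring
  rw [e]
  have n1 : 0 ≤ 4 * C1 * K * τ * √(ln γ B ε) := by positivity
  have n2 : 0 ≤ CR * C0 * K * (1 / B) * √(ln γ B ε) := by positivity
  have n3 : 0 ≤ (1 / B + τ) * √(ln γ B ε) := by positivity
  (first | linarith only [n1, n2, n3] | nlinarith only [n1, n2, n3])

/-- `|om4 y - om4 0| ≤ (4/B)|y|` -/
theorem Fmb_mv {B s : ℝ} (h : Slow4 B s) (y : ℝ) : |om4 B s y - om4 B s 0| ≤ 4 / B * |y| := by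
  have h1 := Convex.norm_image_sub_le_of_norm_deriv_le (f := om4 B s) (s := univ) (x := 0) (y := y)
    (C := 4 / B) (fun x _ => (Cl_hd (Cl_om4 h) x).differentiableAt)
    (fun x _ => by rw [Real.norm_eq_abs]; exact Fmb_ta B s x h) convex_univ (mem_univ _) (mem_univ _)
  rw [Real.norm_eq_abs, Real.norm_eq_abs, sub_zero] at h1
  exact h1

theorem Fmb_Q : ∃ C : ℝ, 0 < C ∧ ∀ y, |y| * Qf 4 y ≤ C * bd (3 / 4) (3 / 4) y := by
  obtain ⟨C, hC, hQ⟩ := Qf_hi (k := 4) (by norm_num)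
  refine ⟨4 * C, by positivity, fun y => ?_⟩
  have h1 : |y| ≤ 4 * Real.exp (|y| / 4) := by
    have := Real.add_one_le_exp (|y| / 4)
    linarith
  have h2 : Real.exp (|y| / 4) * Real.exp (-|y|) = bd (3 / 4) (3 / 4) y := by
    rw [bd_abs, ← Real.exp_add]
    congr 1
    ring
  calc |y| * Qf 4 y ≤ (4 * Real.exp (|y| / 4)) * (C * Real.exp (-|y|)) :=
        mul_le_mul h1 (hQ y) (Qf_pos 4 y).le (by positivity)
    _ = 4 * C * (Real.exp (|y| / 4) * Real.exp (-|y|)) := by ring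
    _ = _ := by rw [h2]

theorem Fmb_LQ : ∃ C : ℝ, 0 < C ∧ ∀ γ : ℝ, 0 < γ → γ ≤ 1 / 8 →
    ∀ B s : ℝ, Slow4 B s → ∀ (ε : ℝ → ℝ), Cl 0 0 ε →
    |∫ y, om4 B s y * (ε y * Lop 4 (Lam 4 (Qf 4)) y)| ≤
      2 * |ip ε (Qf 4)| + C * (1 / B * √(ln γ B ε)) := by
  obtain ⟨K, hK, hkey⟩ := Fmb_key
  obtain ⟨C, hC, hQ⟩ := Fmb_Q
  refine ⟨8 * C * K, by positivity, ?_⟩
  intro γ hγ hγ' B s hs ε hε
  have hB16 := hs.1
  have hB : 0 < B := by linarith
  have hεQ : Cl 1 1 (fun y => ε y * Qf 4 y) := Cl_mul0 hε (Cl_Qf (by norm_num))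
  have i1 : Integrable (fun y => ε y * Qf 4 y) := Cl_int hεQ (by norm_num) (by norm_num)
  have i2 : Integrable (fun y => om4 B s y * (ε y * Qf 4 y)) := by
    have h := Cl_mul (Cl_om4 hs) hεQ
    have hs0 := hs.2.1
    exact Cl_int h (by linarith) (by positivity)
  have e1 : ∫ y, om4 B s y * (ε y * Lop 4 (Lam 4 (Qf 4)) y) =
      -2 * (om4 B s 0 * ip ε (Qf 4)) +
        ∫ y, -2 * ((om4 B s y - om4 B s 0) * (ε y * Qf 4 y)) := by
    unfold ip
    rw [← integral_const_mul, ← integral_const_mul, ← integral_add]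
    · congr 1
      funext y
      rw [L_LamQ (by norm_num)]
      ring
    · exact (i1.const_mul _).const_mul _
    · refine Integrable.const_mul ?_ _
      have : (fun y => (om4 B s y - om4 B s 0) * (ε y * Qf 4 y)) =
          fun y => om4 B s y * (ε y * Qf 4 y) - om4 B s 0 * (ε y * Qf 4 y) := by
        funext y; ring
      rw [this]
      exact i2.sub (i1.const_mul _)
  rw [e1]
  have h1 := hkey γ hγ hγ' B hB16 ε hε (8 / B * C)
    (fun y => -2 * ((om4 B s y - om4 B s 0) * (ε y * Qf 4 y))) (by positivity) (by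
      intro y
      have h2 := Fmb_mv hs y
      have h3 := hQ y
      have hQp := (Qf_pos 4 y).le
      show |(-2 : ℝ) * ((om4 B s y - om4 B s 0) * (ε y * Qf 4 y))| ≤ _
      rw [abs_mul, abs_mul, abs_mul, abs_neg, abs_two, abs_of_nonneg hQp]
      calc 2 * (|om4 B s y - om4 B s 0| * (|ε y| * Qf 4 y))
          ≤ 2 * ((4 / B * |y|) * (|ε y| * Qf 4 y)) := by
            have := mul_le_mul_of_nonneg_right h2 (mul_nonneg (abs_nonneg (ε y)) hQp)
            linarith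
        _ = (8 / B * |ε y|) * (|y| * Qf 4 y) := by ring
        _ ≤ (8 / B * |ε y|) * (C * bd (3 / 4) (3 / 4) y) :=
            mul_le_mul_of_nonneg_left h3 (by positivity)
        _ = _ := by ring)
  have h4 : |(-2 : ℝ) * (om4 B s 0 * ip ε (Qf 4))| ≤ 2 * |ip ε (Qf 4)| := by
    rw [abs_mul, abs_mul, abs_neg, abs_two, abs_of_pos (om4_pos B s 0)]
    have := mul_le_mul_of_nonneg_right (om4_le_one B s 0) (abs_nonneg (ip ε (Qf 4)))
    linarith
  refine (abs_add_le _ _).trans ((add_le_add h4 h1).trans (le_of_eq ?_))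
  ring

theorem FT2 : ∃ C : ℝ, 0 < C ∧ ∀ γ : ℝ, 0 < γ → γ ≤ 1 / 8 →
    ∀ B s : ℝ, Slow4 B s → ∀ (τ : ℝ) (ε : ℝ → ℝ), Cl 0 0 ε → τ ≤ 1 → (∀ y, |ε y| ≤ τ) →
    |EE4 B s ε (Lam 4 (Qf 4))| ≤ C * (|ip ε (Qf 4)| + (1 / B + τ) * √(ln γ B ε)) ∧
    |EE4 B s ε (deriv (Qf 4))| ≤ C * ((1 / B + τ) * √(ln γ B ε)) := by
  obtain ⟨C1, hC1, h1⟩ := Fmb_L (Cl_LamQ (k := 4) (by norm_num) (c := 3 / 4) (by norm_num))
  obtain ⟨C2, hC2, h2⟩ := Fmb_L (ζ := deriv (Qf 4))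
    (Cl_mono (Cl_der (Cl_Qf (by norm_num))) (by norm_num) (by norm_num))
  obtain ⟨C3, hC3, h3⟩ := Fmb_LQ
  refine ⟨2 + C1 + C2 + C3, by positivity, ?_⟩
  intro γ hγ hγ' B s hs τ ε hε hτ hb
  have hB : 0 < B := by linarith [hs.1]
  have hτ0 : 0 ≤ τ := (abs_nonneg _).trans (hb 0)
  have e1 := h1 γ hγ hγ' B s hs τ ε hε hτ hb
  have e2 := h2 γ hγ hγ' B s hs τ ε hε hτ hb
  have e3 := h3 γ hγ hγ' B s hs ε hε
  have hq := Real.sqrt_nonneg (ln γ B ε)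
  have hB' : 0 < 1 / B := by positivity
  have n0 : 0 ≤ (1 / B + τ) * √(ln γ B ε) := by positivity
  have n1 : 1 / B * √(ln γ B ε) ≤ (1 / B + τ) * √(ln γ B ε) :=
    mul_le_mul_of_nonneg_right (by linarith) hq
  have n2 : 0 ≤ |ip ε (Qf 4)| := abs_nonneg _
  constructor
  · have e4 : |EE4 B s ε (Lam 4 (Qf 4))| ≤
        |EE4 B s ε (Lam 4 (Qf 4)) - ∫ y, om4 B s y * (ε y * Lop 4 (Lam 4 (Qf 4)) y)| +
        |∫ y, om4 B s y * (ε y * Lop 4 (Lam 4 (Qf 4)) y)| := by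
      have := abs_add_le (EE4 B s ε (Lam 4 (Qf 4)) - ∫ y, om4 B s y * (ε y * Lop 4 (Lam 4 (Qf 4)) y))
        (∫ y, om4 B s y * (ε y * Lop 4 (Lam 4 (Qf 4)) y))
      rwa [sub_add_cancel] at this
    have n3 : C3 * (1 / B * √(ln γ B ε)) ≤ C3 * ((1 / B + τ) * √(ln γ B ε)) :=
      mul_le_mul_of_nonneg_left n1 hC3.le
    have n4 : 0 ≤ (C1 + C2 + C3) * |ip ε (Qf 4)| := by positivity
    have n5 : 0 ≤ (2 + C2) * ((1 / B + τ) * √(ln γ B ε)) := by positivity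
    calc |EE4 B s ε (Lam 4 (Qf 4))| ≤ C1 * ((1 / B + τ) * √(ln γ B ε)) +
          (2 * |ip ε (Qf 4)| + C3 * ((1 / B + τ) * √(ln γ B ε))) := by linarith
      _ ≤ _ := by (first | linarith only [n4, n5] | nlinarith only [n4, n5])
  · have e4 : ∫ y, om4 B s y * (ε y * Lop 4 (deriv (Qf 4)) y) = 0 := by
      have : (fun y => om4 B s y * (ε y * Lop 4 (deriv (Qf 4)) y)) = fun _ => (0 : ℝ) := by
        funext y
        rw [L_Qd (by norm_num)]
        ring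
      rw [this, integral_zero]
    rw [e4, sub_zero] at e2
    refine e2.trans ?_
    exact mul_le_mul_of_nonneg_right (by linarith) n0

theorem Fmb_Qd (y : ℝ) : |deriv (Qf 4) y| ≤ Qf 4 y := by
  rw [Qf_deriv (by norm_num), abs_mul, abs_neg, abs_of_pos (Qf_pos 4 y)]
  nlinarith [th_abs_lt 4 y, Qf_pos 4 y]

theorem FT5 : ∃ C : ℝ, 0 < C ∧ ∀ γ : ℝ, 0 < γ → γ ≤ 1 / 8 →
    ∀ B s : ℝ, Slow4 B s → ∀ ε : ℝ → ℝ, Cl 0 0 ε → (∀ y, |ε y| ≤ 1) →
    |EE4 B s ε (deriv ε)| ≤ C * (T4 B s ε + ln γ B ε) := by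
  obtain ⟨C1, hC1, hQ1⟩ := Qf_hi (k := 4) (by norm_num)
  obtain ⟨C2, hC2, hb⟩ := bF_le 4 (by norm_num)
  obtain ⟨C3, hC3, hR⟩ := R_le 4 (by norm_num)
  obtain ⟨M, hM, hQM, -⟩ := Nlb_max (k := 4) (by norm_num)
  refine ⟨1 + 2 * (C2 * (M ^ 4 + 1)) + C3 * C1, by positivity, fun γ hγ hγ' B s hs ε hε hb1 => ?_⟩
  have hB : 0 < B := by linarith [hs.1]
  have hs0 := hs.2.1
  have hBi : 0 < 1 / B := by positivity
  have s0 : Cl 0 0 (fun y => ε y ^ 2) := Cl_pow' hε le_rfl le_rfl 2 (by norm_num)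
  have s1 : Cl 0 0 (fun y => deriv ε y ^ 2) := Cl_pow' (Cl_der hε) le_rfl le_rfl 2 (by norm_num)
  have s2 : Cl 0 0 (fun y => deriv (deriv ε) y ^ 2) :=
    Cl_pow' (Cl_der (Cl_der hε)) le_rfl le_rfl 2 (by norm_num)
  have hta : ∀ {F : ℝ → ℝ}, Cl 0 0 F → Integrable (fun y => ta B s y * F y) := by
    intro F hF
    have h := Cl_mul (Cl_ta hs) hF
    exact Cl_int h (by linarith) (by linarith)
  have hloc : ∀ {F : ℝ → ℝ}, Cl 0 0 F → Integrable (fun y => loc γ B y * F y) := by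
    intro F hF
    have h5 := Cl_mul (Cl_mul (Cl_se2 hγ) (Cl_ch hB)) hF
    have hB' : 0 < 2 / B := by positivity
    exact Cl_int h5 (by linarith) (by linarith)
  -- bounds by `T4` and `ln`
  have T1 : (∫ y, ta B s y * (deriv ε y ^ 2 + ε y ^ 2)) ≤ T4 B s ε := by
    rw [T4_eq]
    refine integral_mono (hta (Cl_add s1 s0)) (hta (Cl_add (Cl_add s0 s1) s2)) fun y => ?_
    refine mul_le_mul_of_nonneg_left ?_ (ta_pos hs y).le
    nlinarith [sq_nonneg (deriv (deriv ε) y)]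
  have T2 : (∫ y, ta B s y * ε y ^ 2) ≤ T4 B s ε := by
    rw [T4_eq]
    refine integral_mono (hta s0) (hta (Cl_add (Cl_add s0 s1) s2)) fun y => ?_
    refine mul_le_mul_of_nonneg_left ?_ (ta_pos hs y).le
    nlinarith [sq_nonneg (deriv (deriv ε) y), sq_nonneg (deriv ε y)]
  have L1 : (∫ y, loc γ B y * ε y ^ 2) ≤ ln γ B ε := by
    refine integral_mono (hloc s0) (hloc (Cl_add s0 s1)) fun y => ?_
    refine mul_le_mul_of_nonneg_left ?_ (loc_pos γ B y).le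
    nlinarith [sq_nonneg (deriv ε y)]
  have hT0 : 0 ≤ T4 B s ε :=
    (integral_nonneg fun y => mul_nonneg (ta_pos hs y).le (sq_nonneg (ε y))).trans T2
  have hln : 0 ≤ ln γ B ε :=
    (integral_nonneg fun y => mul_nonneg (loc_pos γ B y).le (sq_nonneg (ε y))).trans L1
  rw [EE4_d hs hε]
  -- first term
  have f1 : |(-(1 / 2) * (∫ y, deriv (om4 B s) y * ((deriv ε y) ^ 2 + (ε y) ^ 2)))| ≤
      1 * T4 B s ε := by
    have h1 : |∫ y, deriv (om4 B s) y * ((deriv ε y) ^ 2 + (ε y) ^ 2)| ≤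
        ∫ y, 2 * (ta B s y * (deriv ε y ^ 2 + ε y ^ 2)) := by
      rw [← Real.norm_eq_abs]
      refine norm_integral_le_of_norm_le ((hta (Cl_add s1 s0)).const_mul _)
        (Eventually.of_forall fun y => ?_)
      rw [Real.norm_eq_abs, abs_mul, abs_of_nonneg (by positivity : 0 ≤ deriv ε y ^ 2 + ε y ^ 2)]
      have := mul_le_mul_of_nonneg_right (om41_le hs y)
        (by positivity : 0 ≤ deriv ε y ^ 2 + ε y ^ 2)
      linarith
    rw [integral_const_mul] at h1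
    rw [abs_mul, abs_neg, abs_of_pos (by norm_num : (0 : ℝ) < 1 / 2)]
    linarith
  -- the term with `bF`
  have f2 : |∫ y, deriv (om4 B s) y * bF 4 ε y| ≤ 2 * (C2 * (M ^ 4 + 1)) * T4 B s ε := by
    have h1 : |∫ y, deriv (om4 B s) y * bF 4 ε y| ≤
        ∫ y, 2 * (C2 * (M ^ 4 + 1)) * (ta B s y * (ε y) ^ 2) := by
      rw [← Real.norm_eq_abs]
      refine norm_integral_le_of_norm_le ((hta s0).const_mul _) (Eventually.of_forall fun y => ?_)
      rw [Real.norm_eq_abs, abs_mul]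
      have h2 : |bF 4 ε y| ≤ C2 * (M ^ 4 + 1) * (ε y) ^ 2 := by
        refine (hb ε y).trans ?_
        have h3 : Qf 4 y ^ 4 ≤ M ^ 4 := pow_le_pow_left₀ (Qf_pos 4 y).le (hQM y) 4
        have h4 : |ε y| ^ 4 ≤ 1 := pow_le_one₀ (abs_nonneg _) (hb1 y)
        refine mul_le_mul_of_nonneg_right ?_ (sq_nonneg _)
        exact mul_le_mul_of_nonneg_left (by linarith) hC2.le
      have h3 := om41_le hs y
      have h4 := (ta_pos hs y).le
      calc _ ≤ (2 * ta B s y) * (C2 * (M ^ 4 + 1) * (ε y) ^ 2) :=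
            mul_le_mul h3 h2 (abs_nonneg _) (by positivity)
        _ = _ := by ring
    rw [integral_const_mul] at h1
    exact h1.trans (mul_le_mul_of_nonneg_left T2 (by positivity))
  -- the term with `R Q'`
  have f3 : |∫ y, om4 B s y * (Rf 4 ε y * deriv (Qf 4) y)| ≤ C3 * C1 * ln γ B ε := by
    have h1 : |∫ y, om4 B s y * (Rf 4 ε y * deriv (Qf 4) y)| ≤
        ∫ y, C3 * C1 * (loc γ B y * (ε y) ^ 2) := by
      rw [← Real.norm_eq_abs]
      refine norm_integral_le_of_norm_le ((hloc s0).const_mul _) (Eventually.of_forall fun y => ?_)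
      rw [Real.norm_eq_abs, abs_mul, abs_mul, abs_of_pos (om4_pos B s y)]
      have h2 := hR ε y (hb1 y)
      have h3 := Fmb_Qd y
      have h4 : Qf 4 y ≤ C1 * loc γ B y := by
        refine (hQ1 y).trans (mul_le_mul_of_nonneg_left ?_ hC1.le)
        refine le_trans ?_ (ex_le_loc hγ hγ' hs.1 y)
        exact Real.exp_le_exp.2 (by linarith [abs_nonneg y])
      have h5 : |Rf 4 ε y| * |deriv (Qf 4) y| ≤ (C3 * (ε y) ^ 2) * (C1 * loc γ B y) :=
        mul_le_mul h2 (h3.trans h4) (abs_nonneg _) (by positivity)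
      calc om4 B s y * (|Rf 4 ε y| * |deriv (Qf 4) y|)
          ≤ 1 * ((C3 * (ε y) ^ 2) * (C1 * loc γ B y)) :=
            mul_le_mul (om4_le_one B s y) h5 (by positivity) zero_le_one
        _ = _ := by ring
    rw [integral_const_mul] at h1
    exact h1.trans (mul_le_mul_of_nonneg_left L1 (by positivity))
  refine (abs_add_le _ _).trans ((add_le_add (abs_add_le _ _) le_rfl).trans ?_)
  have g1 : 0 ≤ 2 * (C2 * (M ^ 4 + 1)) * ln γ B ε := by positivity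
  have g2 : 0 ≤ C3 * C1 * T4 B s ε := by positivity
  nlinarith

end H98KC

end

end S_H98_KC_Fmb

section S_H98_KC_Fmc

/-!
# Fmc (MP_95be7d_S4): the scaling term in the energy (variant of `KB/Emc.lean`, simpler; uses the statements `EE4_Lam`, `Wza`, `Wzb`)

`om4' = Th'Z + sThZ'` (`om41_eq`; `Z = Zf(s y)`, `Z' = deriv Zf (s y)`), `w ≥ 0`, `X(y) := ε'²+ε²-2bF`.  By `EE4_Lam` the left hand side is
`-w∫om ε'² + (w/2)∫om Dε - w∫om bF - w∫om yRQ' + (w/2)∫y Th'Z X + (w/2-w/8)∫y s Th Z' X`.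
Each term is `≤ C (w/s) (T4+Bad)`, using `om ≤ ta/s` (`ta_ge`), so `w∫om(ε²+ε'²) ≤ (w/s)T4`:
* `-w∫omε'² ≤ 0`; `|Dε| ≤ Cε²`, `|bF| ≤ C_b(Q⁴+|ε|⁴)ε² ≤ Cε²`, `|yRQ'| ≤ C|R| ≤ Cε²` (`D_le`, `bF_le`, `R_le`, `|yQ'| ≤ C`).
* `y ≤ 0`: `y X ≤ |y|(2|bF|-ε²) ≤ 2C_b|y|Q⁴ε² ≤ Cε²` if `2C_bν⁴ ≤ 1`; `0 ≤ Th'Z ≤ om/B`; `0 ≤ sThZ'(ξ)` for `ξ = sy ≤ 0` (`Z' = -2tanh(ξ-2)Z > 0`) and `≤ 2s om`.
* `y ≥ 0`: `|X| ≤ C(ε²+ε'²)`; `y Th' ≤ (y/B)e^{-y/B} ≤ 1 ≤ 2Th`.
* `0 ≤ y ≤ 1/s`: `|y s Z'| ≤ 2ξZ ≤ 2Z`; `y ≥ 1/s`: `|y s Z'| ≤ 6 bi` (`Z_le_bi`): `w∫bi(ε²+ε'²) ≤ (w/s)Bad`.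
-/

open MeasureTheory Filter Topology Set
open scoped ContDiff

noncomputable section

namespace H98KC

open H98KB H68KC

/-- constants of the soliton -/
theorem Fmc_c : ∃ K : ℝ, 0 < K ∧ ∀ y, Qf 4 y ^ 4 ≤ K ∧ |y| * |deriv (Qf 4) y| ≤ K ∧
    |y| * Qf 4 y ^ 4 ≤ K := by
  obtain ⟨C, hC, hQ⟩ := Qf_hi (k := 4) (by norm_num)
  refine ⟨C ^ 4 + C, by positivity, fun y => ?_⟩
  have hQp := Qf_pos 4 y
  have hy := abs_nonneg y
  have he : 0 < Real.exp (-|y|) := Real.exp_pos _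
  have he1 : Real.exp (-|y|) ≤ 1 := by
    rw [Real.exp_le_one_iff]
    linarith
  have hye : |y| * Real.exp (-|y|) ≤ 1 := by
    have h1 : |y| ≤ Real.exp |y| := by linarith [Real.add_one_le_exp |y|]
    calc |y| * Real.exp (-|y|) ≤ Real.exp |y| * Real.exp (-|y|) := by gcongr
      _ = 1 := by
        rw [← Real.exp_add]
        simp
  have hQ4 : Qf 4 y ^ 4 ≤ C ^ 4 * Real.exp (-|y|) := by
    have h1 := pow_le_pow_left₀ hQp.le (hQ y) 4
    rw [mul_pow] at h1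
    refine h1.trans ?_
    have h2 : Real.exp (-|y|) ^ 4 ≤ Real.exp (-|y|) ^ 1 :=
      pow_le_pow_of_le_one he.le he1 (by norm_num)
    rw [pow_one] at h2
    gcongr
  have hQd : |deriv (Qf 4) y| ≤ C * Real.exp (-|y|) := by
    have h0 : |deriv (Qf 4) y| ≤ Qf 4 y := by
      rw [Qf_deriv (by norm_num)]
      simp only [neg_mul, abs_neg, abs_mul, abs_of_pos hQp]
      nlinarith [th_abs_lt 4 y, abs_nonneg (th 4 y)]
    exact h0.trans (hQ y)
  have hC4 : 0 < C ^ 4 := by positivity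
  refine ⟨?_, ?_, ?_⟩
  · nlinarith
  · calc |y| * |deriv (Qf 4) y| ≤ |y| * (C * Real.exp (-|y|)) := by gcongr
      _ = C * (|y| * Real.exp (-|y|)) := by ring
      _ ≤ C * 1 := by gcongr
      _ ≤ C ^ 4 + C := by linarith
  · calc |y| * Qf 4 y ^ 4 ≤ |y| * (C ^ 4 * Real.exp (-|y|)) := by gcongr
      _ = C ^ 4 * (|y| * Real.exp (-|y|)) := by ring
      _ ≤ C ^ 4 * 1 := by gcongr
      _ ≤ C ^ 4 + C := by linarith

theorem Fmc_T0 {B : ℝ} (hB : 16 ≤ B) (y : ℝ) : 0 ≤ deriv (Th B) y ∧ deriv (Th B) y ≤ Th B y := by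
  have hB0 : 0 < B := by linarith
  have h0 := Th_pos B y
  have h1 := Th_lt_one B y
  rw [(Th_hd hB0 y).deriv]
  constructor
  · have : 0 ≤ 1 - Th B y := by linarith
    positivity
  · rw [div_le_iff₀ hB0]
    nlinarith

theorem Fmc_yT {B y : ℝ} (hB : 16 ≤ B) (hy : 0 ≤ y) : y * deriv (Th B) y ≤ Th B y := by
  have hB0 : 0 < B := by linarith
  have h0 := Th_pos B y
  have h1 := Th_lt_one B y
  have hE : 1 - Th B y ≤ Real.exp (-(y / B)) := by
    unfold Th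
    have he := Real.exp_pos (-y / B)
    have e1 : -y / B = -(y / B) := by ring
    rw [e1] at he ⊢
    rw [sub_le_iff_le_add, ← sub_le_iff_le_add', le_div_iff₀ (by linarith)]
    nlinarith [sq_nonneg (Real.exp (-(y / B)))]
  have hyB : 0 ≤ y / B := by positivity
  have hye : y / B * Real.exp (-(y / B)) ≤ 1 := by
    have h2 : y / B ≤ Real.exp (y / B) := by linarith [Real.add_one_le_exp (y / B)]
    calc y / B * Real.exp (-(y / B)) ≤ Real.exp (y / B) * Real.exp (-(y / B)) := by gcongr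
      _ = 1 := by
        rw [← Real.exp_add]
        simp
  rw [(Th_hd hB0 y).deriv]
  calc y * (Th B y * (1 - Th B y) / B) = Th B y * (y / B * (1 - Th B y)) := by ring
    _ ≤ Th B y * (y / B * Real.exp (-(y / B))) := by gcongr
    _ ≤ Th B y * 1 := by gcongr
    _ = Th B y := mul_one _

theorem Fmc_Z (ξ : ℝ) : |deriv Zf ξ| ≤ 2 * Zf ξ := by
  rw [(Zf_hd ξ).deriv, abs_mul, abs_mul, abs_of_pos (Zf_pos ξ)]
  have h1 : |Real.tanh (ξ - 2)| ≤ 1 := (Real.abs_tanh_lt_one _).le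
  have h2 : |(-2 : ℝ)| = 2 := by norm_num
  rw [h2]
  have h3 := Zf_pos ξ
  have h4 := mul_le_mul_of_nonneg_right h1 h3.le
  linarith

theorem Fmc_Z0 {ξ : ℝ} (hξ : ξ ≤ 0) : 0 ≤ deriv Zf ξ := by
  rw [(Zf_hd ξ).deriv]
  have h1 : Real.tanh (ξ - 2) ≤ 0 := by
    rw [Real.tanh_eq_sinh_div_cosh]
    refine div_nonpos_of_nonpos_of_nonneg ?_ (Real.cosh_pos _).le
    rw [Real.sinh_nonpos_iff]
    linarith
  have h3 := Zf_pos ξ
  have : 0 ≤ -Real.tanh (ξ - 2) := by linarith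
  have h4 := mul_nonneg this h3.le
  linarith

/-- the first group of terms -/
theorem Fmc_A {CF CR K Q E o e e1 D F r y Q' : ℝ} (hCR : 0 < CR)
    (hK : 0 < K) (hQ : 0 < Q) (hQK : Q ≤ K) (hyQ : |y| * |Q'| ≤ K) (hE : 0 ≤ E) (hE1 : E ≤ 1)
    (ho : 0 < o) (hD : |D| ≤ 16 * (Q + E) * |e|) (hF : |F| ≤ CF * (Q + E) * e ^ 2) (hCF : 0 < CF)
    (hr : |r| ≤ CR * e ^ 2) :
    -(o * e1 ^ 2) + 1 / 2 * (o * (D * e)) - o * F - o * (y * (r * Q')) ≤
      (8 * (K + 1) + CF * (K + 1) + CR * K) * (o * (e ^ 2 + e1 ^ 2)) := by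
  have he : 0 ≤ e ^ 2 := sq_nonneg e
  have he1 : 0 ≤ e1 ^ 2 := sq_nonneg e1
  have hQE : Q + E ≤ K + 1 := by linarith
  have t1 : 0 ≤ o * e1 ^ 2 := by positivity
  have t2 : D * e ≤ 16 * (K + 1) * e ^ 2 := by
    calc D * e ≤ |D * e| := le_abs_self _
      _ = |D| * |e| := abs_mul _ _
      _ ≤ 16 * (Q + E) * |e| * |e| := mul_le_mul_of_nonneg_right hD (abs_nonneg _)
      _ = 16 * (Q + E) * e ^ 2 := by rw [mul_assoc, abs_mul_abs_self, sq]
      _ ≤ 16 * (K + 1) * e ^ 2 := by gcongr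
  have t3 : -F ≤ CF * (K + 1) * e ^ 2 := by
    calc -F ≤ |F| := neg_le_abs _
      _ ≤ CF * (Q + E) * e ^ 2 := hF
      _ ≤ CF * (K + 1) * e ^ 2 := by gcongr
  have t4 : -(y * (r * Q')) ≤ CR * K * e ^ 2 := by
    calc -(y * (r * Q')) ≤ |y * (r * Q')| := neg_le_abs _
      _ = |r| * (|y| * |Q'|) := by
        rw [abs_mul, abs_mul]
        ring
      _ ≤ CR * e ^ 2 * K := mul_le_mul hr hyQ (by positivity) (by positivity)
      _ = CR * K * e ^ 2 := by ring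
  have s2 := mul_le_mul_of_nonneg_left t2 ho.le
  have s3 := mul_le_mul_of_nonneg_left t3 ho.le
  have s4 := mul_le_mul_of_nonneg_left t4 ho.le
  have s5 : 0 ≤ (8 * (K + 1) + CF * (K + 1) + CR * K) * (o * e1 ^ 2) := by positivity
  linarith

/-- the last terms, `y ≤ 0` -/
theorem Fmc_neg {CF K Q E o e e1 F y T1 T2 : ℝ} (hCF : 0 < CF) (hK : 0 < K)
    (hQ : 0 < Q) (hEν : 2 * CF * E ≤ 1) (ho : 0 < o)
    (hF : |F| ≤ CF * (Q + E) * e ^ 2) (hy : y ≤ 0) (hT1 : 0 ≤ T1) (hT1' : T1 ≤ o)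
    (hT2 : 0 ≤ T2) (hT2' : T2 ≤ o) (hyQ : |y| * Q ≤ K) :
    1 / 2 * (y * T1 * (e1 ^ 2 + e ^ 2 - 2 * F)) + 3 / 8 * (y * T2 * (e1 ^ 2 + e ^ 2 - 2 * F)) ≤
      2 * CF * K * (o * (e ^ 2 + e1 ^ 2)) := by
  have he : 0 ≤ e ^ 2 := sq_nonneg e
  have he1 : 0 ≤ e1 ^ 2 := sq_nonneg e1
  rw [abs_of_nonpos hy] at hyQ
  have h4 : 2 * F ≤ 2 * CF * Q * e ^ 2 + e ^ 2 := by
    have h5 := (le_abs_self F).trans hF
    have h7 := mul_le_mul_of_nonneg_right hEν he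
    linarith
  have h5 : y * (e1 ^ 2 + e ^ 2 - 2 * F) ≤ 2 * CF * K * e ^ 2 := by
    calc y * (e1 ^ 2 + e ^ 2 - 2 * F) = (-y) * (2 * F - e ^ 2 - e1 ^ 2) := by ring
      _ ≤ (-y) * (2 * CF * Q * e ^ 2) := by
        refine mul_le_mul_of_nonneg_left ?_ (by linarith)
        linarith
      _ = 2 * CF * (-y * Q) * e ^ 2 := by ring
      _ ≤ 2 * CF * K * e ^ 2 := by gcongr
  have h6 : 0 ≤ 2 * CF * K * e ^ 2 := by positivity
  have g1 : T1 * (y * (e1 ^ 2 + e ^ 2 - 2 * F)) ≤ o * (2 * CF * K * e ^ 2) :=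
    (mul_le_mul_of_nonneg_left h5 hT1).trans (mul_le_mul_of_nonneg_right hT1' h6)
  have g2 : T2 * (y * (e1 ^ 2 + e ^ 2 - 2 * F)) ≤ o * (2 * CF * K * e ^ 2) :=
    (mul_le_mul_of_nonneg_left h5 hT2).trans (mul_le_mul_of_nonneg_right hT2' h6)
  have g3 : 0 ≤ o * (2 * CF * K * e ^ 2) := by positivity
  have g4 : 0 ≤ 2 * CF * K * (o * e1 ^ 2) := by positivity
  linarith

/-- the last terms, `0 ≤ y` -/
theorem Fmc_pos {CF K Q E o b e e1 F y T1 T2 : ℝ} (hCF : 0 < CF) (hK : 0 < K)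
    (hQK : Q ≤ K) (hE1 : E ≤ 1) (ho : 0 < o) (hb : 0 ≤ b)
    (hF : |F| ≤ CF * (Q + E) * e ^ 2) (hT1 : |y * T1| ≤ o)
    (hT2 : |y * T2| ≤ 2 * o + 6 * b) :
    1 / 2 * (y * T1 * (e1 ^ 2 + e ^ 2 - 2 * F)) + 3 / 8 * (y * T2 * (e1 ^ 2 + e ^ 2 - 2 * F)) ≤
      3 * (1 + 2 * CF * (K + 1)) * ((o + b) * (e ^ 2 + e1 ^ 2)) := by
  have he : 0 ≤ e ^ 2 := sq_nonneg e
  have he1 : 0 ≤ e1 ^ 2 := sq_nonneg e1
  have hX : |e1 ^ 2 + e ^ 2 - 2 * F| ≤ (1 + 2 * CF * (K + 1)) * (e ^ 2 + e1 ^ 2) := by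
    have h4 : |F| ≤ CF * (K + 1) * e ^ 2 := by
      refine hF.trans ?_
      gcongr
    have h5 : 0 ≤ 2 * CF * (K + 1) * e1 ^ 2 := by positivity
    have h7 := abs_le.1 h4
    rw [abs_le]
    constructor
    · have : 0 ≤ CF * (K + 1) * e ^ 2 := by positivity
      linarith [h7.2]
    · linarith [h7.1]
  set C2 : ℝ := 1 + 2 * CF * (K + 1) with hC2
  have hC2p : 0 < C2 := by positivity
  have g1 : y * T1 * (e1 ^ 2 + e ^ 2 - 2 * F) ≤ o * (C2 * (e ^ 2 + e1 ^ 2)) := by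
    refine (le_abs_self _).trans ?_
    rw [abs_mul]
    exact mul_le_mul hT1 hX (abs_nonneg _) ho.le
  have g2 : y * T2 * (e1 ^ 2 + e ^ 2 - 2 * F) ≤ (2 * o + 6 * b) * (C2 * (e ^ 2 + e1 ^ 2)) := by
    refine (le_abs_self _).trans ?_
    rw [abs_mul]
    exact mul_le_mul hT2 hX (abs_nonneg _) (by positivity)
  have g3 : 0 ≤ o * (C2 * (e ^ 2 + e1 ^ 2)) := by positivity
  have g4 : 0 ≤ b * (C2 * (e ^ 2 + e1 ^ 2)) := by positivity
  linarith

/-- bounds of the weights -/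
theorem Fmc_w {B s : ℝ} (h : Slow4 B s) (y : ℝ) :
    (y ≤ 0 → 0 ≤ deriv (Th B) y * Zf (s * y) ∧ deriv (Th B) y * Zf (s * y) ≤ om4 B s y ∧
      0 ≤ s * (Th B y * deriv Zf (s * y)) ∧ s * (Th B y * deriv Zf (s * y)) ≤ om4 B s y) ∧
    (0 ≤ y → |y * (deriv (Th B) y * Zf (s * y))| ≤ om4 B s y ∧
      |y * (s * (Th B y * deriv Zf (s * y)))| ≤ 2 * om4 B s y + 6 * bi s y) := by
  obtain ⟨hB, hs, hsB⟩ := h
  have hB0 : 0 < B := by linarith
  have hs1 : 2 * s ≤ 1 := by nlinarith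
  have hT0 := Th_pos B y
  have hT1 := Th_lt_one B y
  have hZ0 := Zf_pos (s * y)
  obtain ⟨hT'0, hT'1⟩ := Fmc_T0 hB y
  have hZ' := Fmc_Z (s * y)
  have hbi := bi_nonneg s y
  refine ⟨fun hy => ?_, fun hy => ?_⟩
  · have hsy : s * y ≤ 0 := mul_nonpos_of_nonneg_of_nonpos hs.le hy
    have hZ'0 := Fmc_Z0 hsy
    refine ⟨by positivity, ?_, by positivity, ?_⟩
    · unfold om4
      gcongr
    · unfold om4
      have h1 : deriv Zf (s * y) ≤ 2 * Zf (s * y) := (le_abs_self _).trans hZ'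
      calc s * (Th B y * deriv Zf (s * y)) ≤ s * (Th B y * (2 * Zf (s * y))) := by gcongr
        _ = (2 * s) * (Th B y * Zf (s * y)) := by ring
        _ ≤ 1 * (Th B y * Zf (s * y)) := by gcongr
        _ = Th B y * Zf (s * y) := one_mul _
  · constructor
    · rw [abs_of_nonneg (by positivity)]
      unfold om4
      have h1 := Fmc_yT hB hy
      calc y * (deriv (Th B) y * Zf (s * y)) = (y * deriv (Th B) y) * Zf (s * y) := by ring
        _ ≤ Th B y * Zf (s * y) := by gcongr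
    · by_cases hy1 : y ≤ 1 / s
      · have hsy : s * y ≤ 1 := by
          rw [le_div_iff₀ hs] at hy1
          linarith
        have hsy0 : 0 ≤ s * y := by positivity
        have h1 : |y * (s * (Th B y * deriv Zf (s * y)))| =
            (s * y) * (Th B y * |deriv Zf (s * y)|) := by
          rw [abs_mul, abs_mul, abs_mul, abs_of_nonneg hy, abs_of_pos hs, abs_of_pos hT0]
          ring
        rw [h1]
        have h2 : (s * y) * (Th B y * |deriv Zf (s * y)|) ≤ 1 * (Th B y * (2 * Zf (s * y))) := by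
          gcongr
        unfold om4
        linarith
      · push Not at hy1
        have hZb := Z_le_bi (B := B) ⟨hB, hs, hsB⟩ hy1.le
        have h1 : |y * (s * (Th B y * deriv Zf (s * y)))| =
            Th B y * |y * (s * deriv Zf (s * y))| := by
          rw [abs_mul, abs_mul, abs_mul, abs_mul, abs_mul, abs_of_pos hT0]
          ring
        rw [h1]
        have h2 : Th B y * |y * (s * deriv Zf (s * y))| ≤ 1 * (6 * bi s y) := by
          refine mul_le_mul hT1.le hZb.2 (abs_nonneg _) zero_le_one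
        have h3 := om4_pos B s y
        linarith

theorem Fmc_pt {CF CR K B s w : ℝ} (hCF : 0 < CF) (hCR : 0 < CR) (hK : 0 < K)
    (h : Slow4 B s) (hw : 0 ≤ w) (y : ℝ)
    (hKy : Qf 4 y ^ 4 ≤ K ∧ |y| * |deriv (Qf 4) y| ≤ K ∧ |y| * Qf 4 y ^ 4 ≤ K)
    {e e1 e2 D F r : ℝ} (he1 : |e| ^ 4 ≤ 1) (heν : 2 * CF * |e| ^ 4 ≤ 1)
    (hD : |D| ≤ 16 * (Qf 4 y ^ 4 + |e| ^ 4) * |e|)
    (hF : |F| ≤ CF * (Qf 4 y ^ 4 + |e| ^ 4) * e ^ 2) (hr : |r| ≤ CR * e ^ 2) :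
    w * (-(om4 B s y * e1 ^ 2) + 1 / 2 * (om4 B s y * (D * e)) - om4 B s y * F
      - om4 B s y * (y * (r * deriv (Qf 4) y))
      + 1 / 2 * (y * deriv (om4 B s) y * (e1 ^ 2 + e ^ 2 - 2 * F)))
      - 1 / 8 * w * s * (y * Th B y * deriv Zf (s * y) * (e1 ^ 2 + e ^ 2 - 2 * F)) ≤
    (8 * (K + 1) + CF * (K + 1) + CR * K + 2 * CF * K + 3 * (1 + 2 * CF * (K + 1))) * (w / s) *
      (ta B s y * (e ^ 2 + e1 ^ 2 + e2 ^ 2) + s * (bi s y * (e ^ 2 + e1 ^ 2 + e2 ^ 2))) := by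
  obtain ⟨hQK, hyQ, hyQ4⟩ := hKy
  have hs : 0 < s := h.2.1
  have hQp : 0 < Qf 4 y ^ 4 := pow_pos (Qf_pos 4 y) 4
  have hE0 : 0 ≤ |e| ^ 4 := by positivity
  have ho := om4_pos B s y
  have hbi := bi_nonneg s y
  have hA := Fmc_A (e1 := e1) hCR hK hQp hQK hyQ hE0 he1 ho hD hF hCF hr
  obtain ⟨hw1, hw2⟩ := Fmc_w h y
  set T1 := deriv (Th B) y * Zf (s * y) with hT1
  set T2 := s * (Th B y * deriv Zf (s * y)) with hT2
  have heq : w * (-(om4 B s y * e1 ^ 2) + 1 / 2 * (om4 B s y * (D * e)) - om4 B s y * F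
      - om4 B s y * (y * (r * deriv (Qf 4) y))
      + 1 / 2 * (y * deriv (om4 B s) y * (e1 ^ 2 + e ^ 2 - 2 * F)))
      - 1 / 8 * w * s * (y * Th B y * deriv Zf (s * y) * (e1 ^ 2 + e ^ 2 - 2 * F)) =
      w * ((-(om4 B s y * e1 ^ 2) + 1 / 2 * (om4 B s y * (D * e)) - om4 B s y * F
      - om4 B s y * (y * (r * deriv (Qf 4) y))) + (1 / 2 * (y * T1 * (e1 ^ 2 + e ^ 2 - 2 * F))
        + 3 / 8 * (y * T2 * (e1 ^ 2 + e ^ 2 - 2 * F)))) := by
    rw [om41_eq h y, ← hT1, hT2]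
    ring
  rw [heq]
  have he : 0 ≤ e ^ 2 := sq_nonneg e
  have hee1 : 0 ≤ e1 ^ 2 := sq_nonneg e1
  have hee2 : 0 ≤ e2 ^ 2 := sq_nonneg e2
  have hC2 : 0 < 3 * (1 + 2 * CF * (K + 1)) := by positivity
  have hCFK : 0 < 2 * CF * K := by positivity
  have hC1 : 0 < 8 * (K + 1) + CF * (K + 1) + CR * K := by positivity
  have hE : 0 ≤ om4 B s y * (e ^ 2 + e1 ^ 2) := by positivity
  have hE' : 0 ≤ bi s y * (e ^ 2 + e1 ^ 2) := by positivity
  have hB' : 1 / 2 * (y * T1 * (e1 ^ 2 + e ^ 2 - 2 * F))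
        + 3 / 8 * (y * T2 * (e1 ^ 2 + e ^ 2 - 2 * F)) ≤
      (2 * CF * K + 3 * (1 + 2 * CF * (K + 1))) * ((om4 B s y + bi s y) * (e ^ 2 + e1 ^ 2)) := by
    rcases le_total y 0 with hy | hy
    · obtain ⟨a1, a2, a3, a4⟩ := hw1 hy
      have := Fmc_neg (e1 := e1) hCF hK hQp heν ho hF hy a1 a2 a3 a4 hyQ4
      have q1 : 0 ≤ (2 * CF * K) * (bi s y * (e ^ 2 + e1 ^ 2)) := by positivity
      have q2 : 0 ≤ 3 * (1 + 2 * CF * (K + 1)) * ((om4 B s y + bi s y) * (e ^ 2 + e1 ^ 2)) := by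
        positivity
      linarith
    · obtain ⟨a1, a2⟩ := hw2 hy
      have := Fmc_pos (e1 := e1) hCF hK hQK he1 ho hbi hF a1 a2
      have q1 : 0 ≤ (2 * CF * K) * ((om4 B s y + bi s y) * (e ^ 2 + e1 ^ 2)) := by positivity
      linarith
  have q3 : 0 ≤ (8 * (K + 1) + CF * (K + 1) + CR * K) * (bi s y * (e ^ 2 + e1 ^ 2)) := by
    positivity
  set CC : ℝ := 8 * (K + 1) + CF * (K + 1) + CR * K + 2 * CF * K
    + 3 * (1 + 2 * CF * (K + 1)) with hCC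
  have hCCp : 0 < CC := by positivity
  have hsum : (-(om4 B s y * e1 ^ 2) + 1 / 2 * (om4 B s y * (D * e)) - om4 B s y * F
      - om4 B s y * (y * (r * deriv (Qf 4) y))) + (1 / 2 * (y * T1 * (e1 ^ 2 + e ^ 2 - 2 * F))
        + 3 / 8 * (y * T2 * (e1 ^ 2 + e ^ 2 - 2 * F))) ≤
      CC * ((om4 B s y + bi s y) * (e ^ 2 + e1 ^ 2)) := by
    have e5 : CC * ((om4 B s y + bi s y) * (e ^ 2 + e1 ^ 2)) =
      (8 * (K + 1) + CF * (K + 1) + CR * K) * (om4 B s y * (e ^ 2 + e1 ^ 2)) +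
      (8 * (K + 1) + CF * (K + 1) + CR * K) * (bi s y * (e ^ 2 + e1 ^ 2)) +
      (2 * CF * K + 3 * (1 + 2 * CF * (K + 1))) *
        ((om4 B s y + bi s y) * (e ^ 2 + e1 ^ 2)) := by
      rw [hCC]
      ring
    rw [e5]
    linarith
  refine (mul_le_mul_of_nonneg_left hsum hw).trans ?_
  have hta := ta_ge h y
  have h9 : om4 B s y + bi s y ≤ 1 / s * (ta B s y + s * bi s y) := by
    rw [one_div, inv_mul_eq_div, le_div_iff₀ hs]
    linarith
  have hta0 := ta_pos h y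
  calc w * (CC * ((om4 B s y + bi s y) * (e ^ 2 + e1 ^ 2)))
      ≤ w * (CC * ((1 / s * (ta B s y + s * bi s y)) * (e ^ 2 + e1 ^ 2 + e2 ^ 2))) := by
        have : e ^ 2 + e1 ^ 2 ≤ e ^ 2 + e1 ^ 2 + e2 ^ 2 := by linarith
        gcongr
    _ = _ := by ring

theorem Fmc_six {f1 f2 f3 f4 f5 f6 : ℝ → ℝ} (i1 : Integrable f1) (i2 : Integrable f2)
    (i3 : Integrable f3) (i4 : Integrable f4) (i5 : Integrable f5) (i6 : Integrable f6)
    (w c2 c5 c6 : ℝ) :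
    ∫ y, (w * (-(f1 y) + c2 * f2 y - f3 y - f4 y + c5 * f5 y) - c6 * f6 y) =
      w * (-(∫ y, f1 y) + c2 * (∫ y, f2 y) - (∫ y, f3 y) - (∫ y, f4 y) + c5 * (∫ y, f5 y))
        - c6 * (∫ y, f6 y) := by
  have a1 : Integrable (fun y => -(f1 y)) := i1.neg
  have a2 : Integrable (fun y => c2 * f2 y) := i2.const_mul c2
  have a5 : Integrable (fun y => c5 * f5 y) := i5.const_mul c5
  have a6 : Integrable (fun y => c6 * f6 y) := i6.const_mul c6
  have b2 : Integrable (fun y => -(f1 y) + c2 * f2 y) := a1.add a2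
  have b3 : Integrable (fun y => -(f1 y) + c2 * f2 y - f3 y) := b2.sub i3
  have b4 : Integrable (fun y => -(f1 y) + c2 * f2 y - f3 y - f4 y) := b3.sub i4
  have b5 : Integrable (fun y => -(f1 y) + c2 * f2 y - f3 y - f4 y + c5 * f5 y) := b4.add a5
  have b6 : Integrable (fun y => w * (-(f1 y) + c2 * f2 y - f3 y - f4 y + c5 * f5 y)) :=
    b5.const_mul w
  rw [integral_sub b6 a6, integral_const_mul, integral_add b4 a5, integral_sub b3 i4,
    integral_sub b2 i3, integral_add a1 a2, integral_neg, integral_const_mul, integral_const_mul,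
    integral_const_mul]

theorem FT4 : ∃ ν C : ℝ, 0 < ν ∧ ν ≤ 1 ∧ 0 < C ∧
    ∀ B s : ℝ, Slow4 B s → ∀ ε : ℝ → ℝ, Cl 0 0 ε → (∀ y, |ε y| ≤ ν) → ∀ w : ℝ, 0 ≤ w →
    -w * EE4 B s ε (Lam 4 ε) - 1 / 8 * w * s * (∫ y, y * Th B y * deriv Zf (s * y) *
      ((deriv ε y) ^ 2 + (ε y) ^ 2 - 2 * bF 4 ε y)) ≤ C * (w / s) * (T4 B s ε + Bad s ε) := by
  obtain ⟨CF, hCF, hbF⟩ := bF_le 4 (by norm_num)
  obtain ⟨CR, hCR, hR'⟩ := R_le 4 (by norm_num)
  obtain ⟨K, hK, hKK⟩ := Fmc_c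
  refine ⟨min 1 (1 / (2 * CF)),
    8 * (K + 1) + CF * (K + 1) + CR * K + 2 * CF * K + 3 * (1 + 2 * CF * (K + 1)),
    by positivity, min_le_left _ _, by positivity, ?_⟩
  intro B s h ε hε hεν w hw
  obtain ⟨hB, hs, hsB⟩ := id h
  have hB0 : 0 < B := by linarith
  have hB1 : 0 < 1 / B := by positivity
  have hcl' := Cl_der hε
  have hcl'' := Cl_der hcl'
  have hom := Cl_om4 h
  have hom' := Cl_der hom
  have e2 := Cl_pow0 hε 2
  have e12 := Cl_pow0 hcl' 2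
  have e22 := Cl_pow0 hcl'' 2
  have hDf := Cl_Df (k := 4) (by norm_num) le_rfl le_rfl hε
  have hRf := Cl_Rf (k := 4) (by norm_num) le_rfl le_rfl hε
  have hbFc : Cl 0 0 (bF 4 ε) := by
    have := Cl_bF (k := 4) (by norm_num) le_rfl le_rfl zero_le_one zero_le_one hε
    simpa only [mul_zero] using this
  have hX : Cl 0 0 (fun y => (deriv ε y) ^ 2 + (ε y) ^ 2 - 2 * bF 4 ε y) :=
    Cl_sub (Cl_add e12 e2) (Cl_smul 2 hbFc)
  have hdZ : Cl (2 * s) (2 * s) (fun y => deriv Zf (s * y)) := by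
    have h1 := Cl_smul (1 / s) (Cl_der (Cl_Zs hs))
    have e3 : (fun y => 1 / s * deriv (fun y => Zf (s * y)) y) = fun y => deriv Zf (s * y) := by
      funext y
      have h2 : HasDerivAt (fun y => Zf (s * y))
          ((-2 * Real.tanh (s * y - 2) * Zf (s * y)) * (s * 1)) y :=
        HasDerivAt.comp y (Zf_hd (s * y)) ((hasDerivAt_id y).const_mul s)
      rw [h2.deriv, (Zf_hd (s * y)).deriv]
      field_simp
    rwa [e3] at h1
  have i1 : Integrable (fun y => om4 B s y * (deriv ε y) ^ 2) :=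
    Cl_int (Cl_mul hom e12) (by linarith) (by linarith)
  have i2 : Integrable (fun y => om4 B s y * (Df 4 ε y * ε y)) :=
    Cl_int (Cl_mul hom (Cl_mul hDf hε)) (by linarith) (by linarith)
  have i3 : Integrable (fun y => om4 B s y * bF 4 ε y) :=
    Cl_int (Cl_mul hom hbFc) (by linarith) (by linarith)
  have i4 : Integrable (fun y => om4 B s y * (y * (Rf 4 ε y * deriv (Qf 4) y))) :=
    Cl_int (Cl_mul hom (Cl_mul (Cl_id (c := 1 / 2) (by norm_num))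
      (Cl_mul hRf (Cl_der (Cl_Qf (k := 4) (by norm_num)))))) (by linarith) (by linarith)
  have i5 : Integrable (fun y => y * deriv (om4 B s) y *
      ((deriv ε y) ^ 2 + (ε y) ^ 2 - 2 * bF 4 ε y)) :=
    Cl_int (Cl_mul (Cl_mul (Cl_id hs) hom') hX) (by linarith) (by linarith)
  have i6 : Integrable (fun y => y * Th B y * deriv Zf (s * y) *
      ((deriv ε y) ^ 2 + (ε y) ^ 2 - 2 * bF 4 ε y)) :=
    Cl_int (Cl_mul (Cl_mul (Cl_mul (Cl_id hs) (Cl_Th hB0)) hdZ) hX) (by linarith) (by linarith)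
  have hEE : Cl 0 0 (fun y => (ε y) ^ 2 + (deriv ε y) ^ 2 + (deriv (deriv ε) y) ^ 2) :=
    Cl_add (Cl_add e2 e12) e22
  have j1 : Integrable (fun y => ta B s y *
      ((ε y) ^ 2 + (deriv ε y) ^ 2 + (deriv (deriv ε) y) ^ 2)) :=
    Cl_int (Cl_mul (Cl_ta h) hEE) (by linarith) (by linarith)
  have j2 : Integrable (fun y => bi s y *
      ((ε y) ^ 2 + (deriv ε y) ^ 2 + (deriv (deriv ε) y) ^ 2)) := bi_int hs hEE
  have hmain := EE4_Lam h hε
  have hL : -w * EE4 B s ε (Lam 4 ε) - 1 / 8 * w * s * (∫ y, y * Th B y * deriv Zf (s * y) *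
      ((deriv ε y) ^ 2 + (ε y) ^ 2 - 2 * bF 4 ε y)) =
      ∫ y, (w * (-(om4 B s y * (deriv ε y) ^ 2) + 1 / 2 * (om4 B s y * (Df 4 ε y * ε y))
        - om4 B s y * bF 4 ε y - om4 B s y * (y * (Rf 4 ε y * deriv (Qf 4) y))
        + 1 / 2 * (y * deriv (om4 B s) y * ((deriv ε y) ^ 2 + (ε y) ^ 2 - 2 * bF 4 ε y)))
        - 1 / 8 * w * s * (y * Th B y * deriv Zf (s * y) *
          ((deriv ε y) ^ 2 + (ε y) ^ 2 - 2 * bF 4 ε y))) := by
    rw [Fmc_six i1 i2 i3 i4 i5 i6 w (1 / 2) (1 / 2) (1 / 8 * w * s)]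
    rw [hmain]
    ring
  have hRt : (8 * (K + 1) + CF * (K + 1) + CR * K + 2 * CF * K + 3 * (1 + 2 * CF * (K + 1))) *
      (w / s) * (T4 B s ε + Bad s ε) =
      ∫ y, (8 * (K + 1) + CF * (K + 1) + CR * K + 2 * CF * K + 3 * (1 + 2 * CF * (K + 1))) *
      (w / s) * (ta B s y * ((ε y) ^ 2 + (deriv ε y) ^ 2 + (deriv (deriv ε) y) ^ 2)
        + s * (bi s y * ((ε y) ^ 2 + (deriv ε y) ^ 2 + (deriv (deriv ε) y) ^ 2))) := by
    rw [integral_const_mul, integral_add j1 (j2.const_mul s), integral_const_mul, Bad_eq, T4_eq]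
  rw [hL, hRt]
  refine integral_mono ?_ ?_ fun y => ?_
  · exact (((((i1.neg.add (i2.const_mul (1 / 2))).sub i3).sub i4).add
      (i5.const_mul (1 / 2))).const_mul w).sub (i6.const_mul (1 / 8 * w * s))
  · exact (j1.add (j2.const_mul s)).const_mul _
  · have hν := hεν y
    have hν1 : |ε y| ≤ 1 := hν.trans (min_le_left _ _)
    have hν2 : |ε y| ≤ 1 / (2 * CF) := hν.trans (min_le_right _ _)
    have h4 : |ε y| ^ 4 ≤ |ε y| := by
      calc |ε y| ^ 4 ≤ |ε y| ^ 1 := pow_le_pow_of_le_one (abs_nonneg _) hν1 (by norm_num)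
        _ = |ε y| := pow_one _
    have h5 : 2 * CF * |ε y| ^ 4 ≤ 1 := by
      calc 2 * CF * |ε y| ^ 4 ≤ 2 * CF * (1 / (2 * CF)) := by
            gcongr
            exact h4.trans hν2
        _ = 1 := by field_simp
    have hD := D_le 4 ε y
    norm_num at hD
    exact Fmc_pt hCF hCR hK h hw y (hKK y) (h4.trans hν1) h5 hD (hbF ε y) (hR' ε y hν1)

end H98KC

end

end S_H98_KC_Fmc

section S_H98_KC_Cog

/-!
# Cog (MP_95be7d_S4): upper bounds for `E4`, `Vf`, `ln` (variant of `KB/Cot`, `KB/Cov`, `LN_st`; uses the statements of `Wza`, `Wzb`)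

* `CO_up4`: `|bF 4 ε| ≤ C(Q⁴+ε⁴)ε² ≤ Cε²` (`bF_le`), integrability: `om4` decays, `ε ∈ Cl 0 0`.
* `CV4`: `|Ψ| ≤ (1+η)ch ≤ 2ch` (`psi_abs`), `∫ch v² ≤ C_δ∫ch ε²` (`vf_wt0` with `W = ch B`, `p = q = 0`, `δ|ch''| ≤ ch/4` by `ch2_le`), `ch ≤ 120 om4` (`ch_le_om4`); `C_δ` does not depend on `B`.
* `LN4`: `loc ≤ ch ≤ 120 om4` (`loc_le_ch`).   `sG_le`: `s om4 ≤ ta` (`ta_ge`).
-/

open MeasureTheory Filter Topology Set
open scoped ContDiff

noncomputable section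

namespace H98KC

open H98KB H68KC

variable {B s : ℝ}

private theorem Cog_ch_pos (B y : ℝ) : 0 < ch B y := by
  rw [ch_eq']
  exact se2_pos _ _

private theorem Cog_bi (s y : ℝ) : 0 ≤ bi s y := by
  unfold bi
  apply indicator_nonneg
  intro z _
  have := Real.cosh_pos (s * z - 2)
  positivity

private theorem Cog_cl (h : Slow4 B s) {w : ℝ → ℝ} (hw : Cl (2 * s) (2 * s + 1 / B) w)
    {f : ℝ → ℝ} (hf : Cl 0 0 f) : Integrable (fun y => w y * f y) := by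
  have hB : 0 < B := by linarith [h.1]
  have hs := h.2.1
  have hB' : 0 < 1 / B := by positivity
  exact Cl_int (Cl_mul hw hf) (by linarith) (by linarith)

private theorem Cog_sq {f : ℝ → ℝ} (hf : Cl 0 0 f) : Cl 0 0 (fun y => f y ^ 2) := Cl_pow0 hf 2

private theorem Cog_ch {B : ℝ} (hB : 0 < B) {f : ℝ → ℝ} (hf : Cl 0 0 f) :
    Integrable (fun y => ch B y * f y) := by
  have h2 : 0 < 2 / B := by positivity
  exact Cl_int (Cl_mul (Cl_ch hB) hf) (by linarith) (by linarith)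

theorem G4_nonneg (B s : ℝ) (ε : ℝ → ℝ) : 0 ≤ G4 B s ε := by
  unfold G4
  refine integral_nonneg fun y => ?_
  have := (om4_pos B s y).le
  positivity

theorem T4_nonneg (h : Slow4 B s) (ε : ℝ → ℝ) : 0 ≤ T4 B s ε := by
  rw [T4_eq]
  refine integral_nonneg fun y => ?_
  have := (ta_pos h y).le
  positivity

theorem Bad_nonneg (hs : 0 < s) (ε : ℝ → ℝ) : 0 ≤ Bad s ε := by
  rw [Bad_eq]
  refine mul_nonneg hs.le (integral_nonneg fun y => ?_)
  have := Cog_bi s y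
  positivity

theorem ln_nonneg (γ B : ℝ) (ε : ℝ → ℝ) : 0 ≤ ln γ B ε := by
  unfold ln
  refine integral_nonneg fun y => ?_
  have h1 := (se2_pos γ y).le
  have h2 := (Cog_ch_pos B y).le
  have h3 : 0 ≤ loc γ B y := mul_nonneg h1 h2
  positivity

theorem ne2_nonneg (et : ℝ → ℝ) : 0 ≤ ne2 et := by
  unfold ne2
  refine integral_nonneg fun y => ?_
  positivity

theorem sG_le (h : Slow4 B s) {ε : ℝ → ℝ} (hε : Cl 0 0 ε) : s * G4 B s ε ≤ T4 B s ε := by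
  have c1 := Cl_der hε
  have c2 := Cl_der c1
  rw [T4_eq]
  unfold G4
  rw [← integral_const_mul]
  refine integral_mono ((Cog_cl h (Cl_om4 h) (Cl_add (Cog_sq hε) (Cog_sq c1))).const_mul s)
    (Cog_cl h (Cl_ta h) (Cl_add (Cl_add (Cog_sq hε) (Cog_sq c1)) (Cog_sq c2))) fun y => ?_
  show s * (om4 B s y * ((ε y) ^ 2 + (deriv ε y) ^ 2)) ≤
    ta B s y * ((ε y) ^ 2 + (deriv ε y) ^ 2 + (deriv (deriv ε) y) ^ 2)
  have h1 := ta_ge h y
  have h2 : 0 ≤ (ε y) ^ 2 + (deriv ε y) ^ 2 := by positivity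
  have h3 := mul_le_mul_of_nonneg_right h1 h2
  have h4 : 0 ≤ ta B s y * (deriv (deriv ε) y) ^ 2 := mul_nonneg (ta_pos h y).le (sq_nonneg _)
  linarith

theorem LN4 {γ : ℝ} (hγ : 0 < γ) (h : Slow4 B s) {ε : ℝ → ℝ} (hε : Cl 0 0 ε) :
    ln γ B ε ≤ 120 * G4 B s ε := by
  have hB : 0 < B := by linarith [h.1]
  have c1 := Cl_der hε
  have hl : Cl (2 * γ + 2 / B) (2 * γ + 2 / B) (loc γ B) := Cl_mul (Cl_se2 hγ) (Cl_ch hB)
  have h2 : 0 < 2 / B := by positivity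
  have i1 : Integrable (fun y => loc γ B y * ((ε y) ^ 2 + (deriv ε y) ^ 2)) :=
    Cl_int (Cl_mul hl (Cl_add (Cog_sq hε) (Cog_sq c1))) (by linarith) (by linarith)
  unfold ln G4
  rw [← integral_const_mul]
  refine integral_mono i1
    ((Cog_cl h (Cl_om4 h) (Cl_add (Cog_sq hε) (Cog_sq c1))).const_mul 120) fun y => ?_
  show loc γ B y * ((ε y) ^ 2 + (deriv ε y) ^ 2) ≤
    120 * (om4 B s y * ((ε y) ^ 2 + (deriv ε y) ^ 2))
  have h3 := (loc_le_ch γ B y).trans (ch_le_om4 h y)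
  have h4 : 0 ≤ (ε y) ^ 2 + (deriv ε y) ^ 2 := by positivity
  have h5 := mul_le_mul_of_nonneg_right h3 h4
  linarith

private theorem Cog_Qk : ∃ C : ℝ, 0 ≤ C ∧ ∀ y, Qf 4 y ^ 4 ≤ C := by
  obtain ⟨C, hC, hb⟩ := Cl_bnd (Cl_mono (Cl_Qk (k := 4) (by norm_num))
    (by norm_num : (0 : ℝ) ≤ ((4 : ℕ) : ℝ)) (by norm_num : (0 : ℝ) ≤ ((4 : ℕ) : ℝ)))
  refine ⟨C, hC, fun y => ?_⟩
  have := hb y
  rw [bd_zero, mul_one] at this
  exact (le_abs_self _).trans this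

theorem CO_up4 : ∃ C : ℝ, 0 < C ∧ ∀ B s : ℝ, Slow4 B s → ∀ ε : ℝ → ℝ, Cl 0 0 ε →
    (∀ y, |ε y| ≤ 1) → |E4 B s ε| ≤ C * G4 B s ε := by
  obtain ⟨C1, hC1, hb⟩ := bF_le 4 (by norm_num)
  obtain ⟨C2, hC2, hq⟩ := Cog_Qk
  refine ⟨1 + C1 * (C2 + 1), by positivity, ?_⟩
  intro B s h ε hε h1
  have c1 := Cl_der hε
  have iG : Integrable (fun y => (2 + 2 * (C1 * (C2 + 1))) *
      (om4 B s y * ((ε y) ^ 2 + (deriv ε y) ^ 2))) :=
    (Cog_cl h (Cl_om4 h) (Cl_add (Cog_sq hε) (Cog_sq c1))).const_mul _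
  have hbd : ∀ y, ‖om4 B s y * ((deriv ε y) ^ 2 + (ε y) ^ 2 - 2 * bF 4 ε y)‖ ≤
      (2 + 2 * (C1 * (C2 + 1))) * (om4 B s y * ((ε y) ^ 2 + (deriv ε y) ^ 2)) := by
    intro y
    have hom := (om4_pos B s y).le
    rw [Real.norm_eq_abs, abs_mul, abs_of_nonneg hom]
    have hε4 : |ε y| ^ 4 ≤ 1 := pow_le_one₀ (abs_nonneg _) (h1 y)
    have hbF : |bF 4 ε y| ≤ C1 * (C2 + 1) * (ε y) ^ 2 := by
      refine (hb ε y).trans ?_
      apply mul_le_mul_of_nonneg_right _ (sq_nonneg _)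
      exact mul_le_mul_of_nonneg_left (add_le_add (hq y) hε4) hC1.le
    have h3 : |(deriv ε y) ^ 2 + (ε y) ^ 2 - 2 * bF 4 ε y| ≤
        (2 + 2 * (C1 * (C2 + 1))) * ((ε y) ^ 2 + (deriv ε y) ^ 2) := by
      have h4 := abs_sub ((deriv ε y) ^ 2 + (ε y) ^ 2) (2 * bF 4 ε y)
      have h5 : |(deriv ε y) ^ 2 + (ε y) ^ 2| = (deriv ε y) ^ 2 + (ε y) ^ 2 :=
        abs_of_nonneg (by positivity)
      have h6 : |2 * bF 4 ε y| = 2 * |bF 4 ε y| := by
        rw [abs_mul, abs_of_pos (by norm_num : (0 : ℝ) < 2)]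
      rw [h5, h6] at h4
      have h7 : 0 ≤ C1 * (C2 + 1) * (deriv ε y) ^ 2 := by positivity
      have h8 := sq_nonneg (ε y)
      have h9 := sq_nonneg (deriv ε y)
      nlinarith
    have h4 := mul_le_mul_of_nonneg_left h3 hom
    linarith
  have hfin := norm_integral_le_of_norm_le iG (Eventually.of_forall hbd)
  rw [integral_const_mul, Real.norm_eq_abs] at hfin
  unfold E4
  rw [abs_mul, abs_of_pos (by norm_num : (0 : ℝ) < 1 / 2)]
  unfold G4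
  linarith

theorem CV4 (γ η δ : ℝ) (hη : 0 < η) (hη' : η ≤ 1) (hδ : 0 < δ) (hδ' : δ ≤ 1 / 16) :
    ∃ C : ℝ, 0 < C ∧ ∀ B s : ℝ, Slow4 B s → ∀ ε : ℝ → ℝ, Cl 0 0 ε →
    |Vf 4 η γ B δ ε| ≤ C * G4 B s ε := by
  obtain ⟨Cd, hCd, hW⟩ := vf_wt0 4 (by norm_num) δ hδ hδ'
  refine ⟨120 * Cd, by positivity, ?_⟩
  intro B s h ε hε
  have hB16 := h.1
  have hB : 0 < B := by linarith
  have hB2 : 0 < 2 / B := by positivity
  have c1 := Cl_der hε
  have hab : |(0 : ℝ)| ≤ 2 := by norm_num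
  have hch2 : ∀ y, δ * |deriv (deriv (ch B)) y| ≤ ch B y / 4 := by
    intro y
    have g1 := ch2_le (by linarith : (1 : ℝ) ≤ B) y
    have hc := (Cog_ch_pos B y).le
    have g2 : 8 / B ^ 2 ≤ 1 := by
      rw [div_le_one (by positivity)]
      nlinarith
    have g3 : |deriv (deriv (ch B)) y| ≤ ch B y := g1.trans (mul_le_of_le_one_left hc g2)
    calc δ * |deriv (deriv (ch B)) y| ≤ 1 / 16 * ch B y :=
          mul_le_mul hδ' g3 (abs_nonneg _) (by norm_num)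
      _ ≤ ch B y / 4 := by linarith
  have hv := Cl_vf (k := 4) (by norm_num) hδ hδ' hab hab hε
  have key := hW 0 0 (2 / B) (2 / B) ε (ch B) hab hab hε (Cl_ch hB) (fun y => Cog_ch_pos B y)
    hch2 (by linarith) (by linarith)
  have hchG : ∫ y, ch B y * (ε y) ^ 2 ≤ 120 * G4 B s ε := by
    unfold G4
    rw [← integral_const_mul]
    refine integral_mono (Cog_ch hB (Cog_sq hε))
      ((Cog_cl h (Cl_om4 h) (Cl_add (Cog_sq hε) (Cog_sq c1))).const_mul 120) fun y => ?_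
    show ch B y * (ε y) ^ 2 ≤ 120 * (om4 B s y * ((ε y) ^ 2 + (deriv ε y) ^ 2))
    have g3 := mul_le_mul_of_nonneg_right (ch_le_om4 h y) (sq_nonneg (ε y))
    have g4 : 0 ≤ om4 B s y * (deriv ε y) ^ 2 := mul_nonneg (om4_pos B s y).le (sq_nonneg _)
    linarith
  have hint : Integrable (fun y => ch B y * (vf 4 δ ε y) ^ 2) := Cog_ch hB (Cog_sq hv)
  have hintP : Integrable (fun y => Psi 4 η γ B y * (vf 4 δ ε y) ^ 2) :=
    Cl_int (Cl_mul (Cl_Psi 4 η γ hB) (Cog_sq hv)) (by linarith) (by linarith)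
  have h1 : |∫ y, Psi 4 η γ B y * (vf 4 δ ε y) ^ 2| ≤ 2 * ∫ y, ch B y * (vf 4 δ ε y) ^ 2 := by
    rw [← integral_const_mul]
    refine (abs_integral_le_integral_abs).trans ?_
    refine integral_mono hintP.abs (hint.const_mul 2) fun y => ?_
    have h2 := (Cog_ch_pos B y).le
    have h3 : |psi 4 η γ y| ≤ 2 := (psi_abs hη.le γ y).trans (by linarith)
    show |Psi 4 η γ B y * (vf 4 δ ε y) ^ 2| ≤ 2 * (ch B y * (vf 4 δ ε y) ^ 2)
    rw [Psi, abs_mul, abs_mul, abs_of_nonneg h2, abs_of_nonneg (sq_nonneg (vf 4 δ ε y)), mul_assoc]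
    exact mul_le_mul_of_nonneg_right h3 (by positivity)
  have h5 := mul_le_mul_of_nonneg_left hchG hCd.le
  unfold Vf
  rw [abs_mul, abs_of_pos (by norm_num : (0 : ℝ) < 1 / 2)]
  linarith

end H98KC

end

end S_H98_KC_Cog

section S_H98_KB_Cot

/-!
# Cot (second half of Cos) : coercivity of the energy `Ef`

Let `r = √om` (smooth, positive), `F = r ε ∈ Cl (p-ρ) (q+..)` (positive rates), `|r'| ≤ r/B` (`r'/r = om'/(2om)`, `om1_le`).
`Ef = (1/2)∫om(ε'²+ε²-Q^kε²) - ∫om(bF-(1/2)Q^kε²)`, second integral `≤ Cν∫omε²` (`bF_cub`).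
`r ε' = F' - (r'/r)F`: `omε'² ≥ (1-1/B)F'² - (C/B)F²` so `∫om(ε'²+ε²-Q^kε²) ≥ ∫(F'²+F²-Q^kF²) - (C/B)∫(F²+F'²)`.
`L_coer` for `F`.  `ip F φ₀ = r(0) ip ε φ₀ + ∫ F (1-r(0)/r) φ₀`, `|1-r(0)/r(y)| ≤ (|y|/B) e^{|y|/B}` (because `|(log r)'| ≤ 1/B`), so
`|ip F φ₀ - r(0) ip ε φ₀| ≤ (C/B)|F|_{L²}`; same for `Q'`.  `r(0)² = om 0 = 1/2`.  Also `∫(F²+F'²) ≥ (1/2)∫om(ε²+ε'²)`.
Take `B ≥ B₁` large, `ν` small.  Upper bound: `|bF| ≤ Cε²` for `|ε| ≤ 1`.
(To see `F` in `Cl`: `√om = √Th · e^{ρy}`; alternatively avoid `√om ∈ Cl` by `r := 1/√(e^{-2ρy}+e^{-(2ρ+1/B)y})`; since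
`Th = 1/(1+e^{-y/B})`, `√Th = (1+e^{-y/B})^{-1/2}`, derivative `(1/(2B))(1-Th)√Th`: bootstrap with `Cl_of_deriv`.)
-/

open MeasureTheory Filter Topology Set
open scoped ContDiff

namespace H98KB

theorem Cot_om {B ρ p q : ℝ} (h : Slow B ρ) {f : ℝ → ℝ} (hf : Cl (2 * p) (2 * q) f) (hp : ρ < p)
    (hq : 0 < q) : Integrable (fun y => om B ρ y * f y) := by
  have hB : 0 < B := by linarith [h.1]
  have hB' : 0 < 1 / B := by positivity
  have hρ := h.2.1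
  exact Cl_int (Cl_mul (Cl_om hB ρ) hf) (by linarith) (by linarith)

theorem Cot_sq {p q : ℝ} {f : ℝ → ℝ} (hf : Cl p q f) : Cl (2 * p) (2 * q) (fun y => f y ^ 2) := by
  simpa using Cl_pow hf 2

theorem Cot_cs {B ρ p q : ℝ} (h : Slow B ρ) {f g : ℝ → ℝ} (hf : Cl p q f) (hg : Cl p q g)
    (hp : ρ < p) (hq : 0 < q) :
    Integrable (fun y => om B ρ y * (|f y| * |g y|)) ∧
      ∫ y, om B ρ y * (|f y| * |g y|) ≤
        √(∫ y, om B ρ y * f y ^ 2) * √(∫ y, om B ρ y * g y ^ 2) := by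
  have hB : 0 < B := by linarith [h.1]
  have hc : Continuous (om B ρ) := Cl_cont (Cl_om hB ρ)
  have i1 : Integrable (fun y => om B ρ y * (|f y|) ^ 2) := by
    simpa only [sq_abs] using Cot_om h (Cot_sq hf) hp hq
  have e2 : ∀ y, (om B ρ y * |g y|) ^ 2 / om B ρ y = om B ρ y * g y ^ 2 := by
    intro y
    have := (om_pos B ρ y).ne'
    rw [← sq_abs (g y)]
    field_simp
  have i2 : Integrable (fun y => (om B ρ y * |g y|) ^ 2 / om B ρ y) := by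
    simp only [e2]
    exact Cot_om h (Cot_sq hg) hp hq
  obtain ⟨h1, h2⟩ := cs_wt (F := fun y => |f y|) (φ := fun y => om B ρ y * |g y|) (W := om B ρ)
    (Cl_cont hf).abs (hc.mul (Cl_cont hg).abs) hc (om_pos B ρ) i1 i2
  simp only [e2, sq_abs] at h2
  have e3 : (fun y => |f y| * (om B ρ y * |g y|)) = fun y => om B ρ y * (|f y| * |g y|) := by
    funext y
    ring
  rw [e3] at h1 h2
  refine ⟨h1, ?_⟩
  have h3 := le_abs_self (∫ y, om B ρ y * (|f y| * |g y|))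
  rw [mul_comm (√(∫ y, om B ρ y * f y ^ 2))]
  exact h3.trans h2

theorem Cot_Gn {B ρ p q : ℝ} (h : Slow B ρ) {f : ℝ → ℝ} (hf : Cl p q f) (hp : ρ < p) (hq : 0 < q) :
    √(∫ y, om B ρ y * f y ^ 2) ≤ √(Gn B ρ f) ∧ √(∫ y, om B ρ y * deriv f y ^ 2) ≤ √(Gn B ρ f) := by
  have i1 := Cot_om h (Cot_sq hf) hp hq
  have i2 := Cot_om h (Cot_sq (Cl_der hf)) hp hq
  have e : Gn B ρ f = (∫ y, om B ρ y * f y ^ 2) + ∫ y, om B ρ y * deriv f y ^ 2 := by
    rw [← integral_add i1 i2]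
    unfold Gn
    congr 1
    funext y
    ring
  have p1 : 0 ≤ ∫ y, om B ρ y * f y ^ 2 :=
    integral_nonneg fun y => mul_nonneg (om_pos B ρ y).le (sq_nonneg _)
  have p2 : 0 ≤ ∫ y, om B ρ y * deriv f y ^ 2 :=
    integral_nonneg fun y => mul_nonneg (om_pos B ρ y).le (sq_nonneg _)
  exact ⟨Real.sqrt_le_sqrt (by linarith), Real.sqrt_le_sqrt (by linarith)⟩

theorem Cot_sqd (a b : ℝ) : |a ^ 2 - b ^ 2| ≤ |a - b| * |a| + |a - b| * |b| := by
  have e : a ^ 2 - b ^ 2 = (a - b) * (a + b) := by ring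
  rw [e, abs_mul, ← mul_add]
  exact mul_le_mul_of_nonneg_left (abs_add_le _ _) (abs_nonneg _)

theorem CO_up (k : ℕ) (hk : 5 ≤ k) : ∃ C : ℝ, 0 < C ∧
    ∀ B ρ : ℝ, Slow B ρ → ∀ (p q : ℝ) (ε ε' : ℝ → ℝ), Adm ρ p q ε → Adm ρ p q ε' →
    (∀ y, |ε y| ≤ 1) → (∀ y, |ε' y| ≤ 1) →
    |Ef k B ρ ε - Ef k B ρ ε'| ≤
      C * √(Gn B ρ (fun y => ε y - ε' y)) * (√(Gn B ρ ε) + √(Gn B ρ ε')) := by
  obtain ⟨C, hC, hl⟩ := bF_lip k (by omega)
  refine ⟨1 + 2 * C, by positivity, ?_⟩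
  rintro B ρ hs p q ε ε' ⟨hp, hp2, hq, hq2, hε⟩ ⟨-, -, -, -, hε'⟩ h1 h1'
  have hρ := hs.2.1
  have hd : Cl p q (fun y => ε y - ε' y) := Cl_sub hε hε'
  have hdd : deriv (fun y => ε y - ε' y) = fun y => deriv ε y - deriv ε' y :=
    funext fun y => ((Cl_hd hε y).sub (Cl_hd hε' y)).deriv
  have hd' := Cl_der hd
  obtain ⟨ia, ca⟩ := Cot_cs hs hd hε hp hq
  obtain ⟨ib, cb⟩ := Cot_cs hs hd hε' hp hq
  obtain ⟨ic, cc⟩ := Cot_cs hs hd' (Cl_der hε) hp hq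
  obtain ⟨id, cd⟩ := Cot_cs hs hd' (Cl_der hε') hp hq
  obtain ⟨g1, g2⟩ := Cot_Gn hs hd hp hq
  obtain ⟨g3, g4⟩ := Cot_Gn hs hε hp hq
  obtain ⟨g5, g6⟩ := Cot_Gn hs hε' hp hq
  have iE : ∀ e : ℝ → ℝ, Cl p q e →
      Integrable (fun y => om B ρ y * ((deriv e y) ^ 2 + (e y) ^ 2 - 2 * bF k e y)) := by
    intro e he
    refine Cot_om hs ?_ hp hq
    refine Cl_sub (Cl_add (Cot_sq (Cl_der he)) (Cot_sq he)) (Cl_smul 2 ?_)
    exact Cl_bF (by omega) (by linarith) hq.le (by linarith) (by linarith) he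
  have eq1 : Ef k B ρ ε - Ef k B ρ ε' = 1 / 2 * ∫ y,
      (om B ρ y * ((deriv ε y) ^ 2 + (ε y) ^ 2 - 2 * bF k ε y)
        - om B ρ y * ((deriv ε' y) ^ 2 + (ε' y) ^ 2 - 2 * bF k ε' y)) := by
    rw [integral_sub (iE ε hε) (iE ε' hε')]
    unfold Ef
    ring
  have hb : ∀ y, ‖om B ρ y * ((deriv ε y) ^ 2 + (ε y) ^ 2 - 2 * bF k ε y)
        - om B ρ y * ((deriv ε' y) ^ 2 + (ε' y) ^ 2 - 2 * bF k ε' y)‖ ≤
      (1 + 2 * C) * ((om B ρ y * (|ε y - ε' y| * |ε y|) + om B ρ y * (|ε y - ε' y| * |ε' y|))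
        + (om B ρ y * (|deriv (fun y => ε y - ε' y) y| * |deriv ε y|)
        + om B ρ y * (|deriv (fun y => ε y - ε' y) y| * |deriv ε' y|))) := by
    intro y
    rw [hdd]
    have hom := (om_pos B ρ y).le
    have e1 : om B ρ y * ((deriv ε y) ^ 2 + (ε y) ^ 2 - 2 * bF k ε y)
        - om B ρ y * ((deriv ε' y) ^ 2 + (ε' y) ^ 2 - 2 * bF k ε' y) =
        om B ρ y * (((deriv ε y) ^ 2 - (deriv ε' y) ^ 2) + ((ε y) ^ 2 - (ε' y) ^ 2)
          + (-2) * (bF k ε y - bF k ε' y)) := by ring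
    rw [Real.norm_eq_abs, e1, abs_mul, abs_of_nonneg hom]
    have t1 := Cot_sqd (deriv ε y) (deriv ε' y)
    have t2 := Cot_sqd (ε y) (ε' y)
    have t3 := hl ε ε' y (h1 y) (h1' y)
    have t4 : |((deriv ε y) ^ 2 - (deriv ε' y) ^ 2) + ((ε y) ^ 2 - (ε' y) ^ 2)
          + (-2) * (bF k ε y - bF k ε' y)| ≤ |(deriv ε y) ^ 2 - (deriv ε' y) ^ 2|
          + |(ε y) ^ 2 - (ε' y) ^ 2| + 2 * |bF k ε y - bF k ε' y| := by
      refine (abs_add_le _ _).trans ?_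
      have : |(-2) * (bF k ε y - bF k ε' y)| = 2 * |bF k ε y - bF k ε' y| := by
        rw [abs_mul]
        norm_num
      rw [this]
      have := abs_add_le ((deriv ε y) ^ 2 - (deriv ε' y) ^ 2) ((ε y) ^ 2 - (ε' y) ^ 2)
      linarith
    have n1 : 0 ≤ |deriv ε y - deriv ε' y| * |deriv ε y| := by positivity
    have n2 : 0 ≤ |deriv ε y - deriv ε' y| * |deriv ε' y| := by positivity
    have n3 : 0 ≤ C * (|deriv ε y - deriv ε' y| * |deriv ε y|) := by positivity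
    have n4 : 0 ≤ C * (|deriv ε y - deriv ε' y| * |deriv ε' y|) := by positivity
    have t5 : |(deriv ε y) ^ 2 - (deriv ε' y) ^ 2|
          + |(ε y) ^ 2 - (ε' y) ^ 2| + 2 * |bF k ε y - bF k ε' y| ≤
        (1 + 2 * C) * ((|ε y - ε' y| * |ε y| + |ε y - ε' y| * |ε' y|)
          + (|deriv ε y - deriv ε' y| * |deriv ε y| + |deriv ε y - deriv ε' y| * |deriv ε' y|)) := by
      (first | linarith only [n3, n4, t1, t2, t3] | nlinarith only [n3, n4, t1, t2, t3])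
    have t6 := mul_le_mul_of_nonneg_left (t4.trans t5) hom
    refine t6.trans (le_of_eq ?_)
    ring
  have hI : Integrable (fun y => (1 + 2 * C) * ((om B ρ y * (|ε y - ε' y| * |ε y|)
        + om B ρ y * (|ε y - ε' y| * |ε' y|))
        + (om B ρ y * (|deriv (fun y => ε y - ε' y) y| * |deriv ε y|)
        + om B ρ y * (|deriv (fun y => ε y - ε' y) y| * |deriv ε' y|)))) :=
    ((ia.add ib).add (ic.add id)).const_mul _
  have hfin := norm_integral_le_of_norm_le hI (Eventually.of_forall hb)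
  have iab : Integrable (fun y => om B ρ y * (|ε y - ε' y| * |ε y|)
      + om B ρ y * (|ε y - ε' y| * |ε' y|)) := ia.add ib
  have icd : Integrable (fun y => om B ρ y * (|deriv (fun y => ε y - ε' y) y| * |deriv ε y|)
        + om B ρ y * (|deriv (fun y => ε y - ε' y) y| * |deriv ε' y|)) := ic.add id
  rw [integral_const_mul, integral_add iab icd, integral_add ia ib, integral_add ic id] at hfin
  rw [Real.norm_eq_abs] at hfin
  rw [eq1, abs_mul, abs_of_pos (by norm_num : (0:ℝ) < 1 / 2)]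
  have s0 := Real.sqrt_nonneg (Gn B ρ (fun y => ε y - ε' y))
  have s1 := Real.sqrt_nonneg (Gn B ρ ε)
  have s2 := Real.sqrt_nonneg (Gn B ρ ε')
  have ca' := ca.trans (mul_le_mul g1 g3 (Real.sqrt_nonneg _) s0)
  have cb' := cb.trans (mul_le_mul g1 g5 (Real.sqrt_nonneg _) s0)
  have cc' := cc.trans (mul_le_mul g2 g4 (Real.sqrt_nonneg _) s0)
  have cd' := cd.trans (mul_le_mul g2 g6 (Real.sqrt_nonneg _) s0)
  have hsum : (∫ y, om B ρ y * (|ε y - ε' y| * |ε y|)) + (∫ y, om B ρ y * (|ε y - ε' y| * |ε' y|))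
        + ((∫ y, om B ρ y * (|deriv (fun y => ε y - ε' y) y| * |deriv ε y|))
        + ∫ y, om B ρ y * (|deriv (fun y => ε y - ε' y) y| * |deriv ε' y|)) ≤
      2 * (√(Gn B ρ (fun y => ε y - ε' y)) * (√(Gn B ρ ε) + √(Gn B ρ ε'))) := by
    linarith
  have hm := mul_le_mul_of_nonneg_left hsum (by positivity : (0:ℝ) ≤ 1 + 2 * C)
  (first | linarith only [hfin, hm] | nlinarith only [hfin, hm])

end H98KB

end S_H98_KB_Cot

section S_H98_KB_Cov

/-!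
# Cov : bounds for the virial functional `Vf`

`|Ψ| ≤ (1+η)ch ≤ 2 ch`, `∫ch v² ≤ C_δ∫ch ε² ≤ 8C_δ∫omε²` (`vf_wt0` with `W=ch B`, `ch_le_om`), constant independent of `B`.
Lipschitz: `Vf ε - Vf ε' = (1/2)∫Ψ(v-v')(v+v')`, `v-v' = vf(ε-ε')`.
`Vf_even`: for `ε` even, `L ε` is even, `Sm δ` preserves parity (`Sm_refl`), `Ψ` is odd, so `Vf = 0`.
-/

open MeasureTheory Filter Topology Set
open scoped ContDiff

namespace H98KB

theorem Cov_ch_pos (B y : ℝ) : 0 < ch B y := by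
  rw [ch_eq']
  exact se2_pos _ _

theorem Cov_ch2 {δ B : ℝ} (hδ : 0 < δ) (hδ' : δ ≤ 1 / 16) (hB : 16 ≤ B) (y : ℝ) :
    δ * |deriv (deriv (ch B)) y| ≤ ch B y / 4 := by
  have h1 := ch2_le (by linarith : (1 : ℝ) ≤ B) y
  have hc := (Cov_ch_pos B y).le
  have h2 : 8 / B ^ 2 ≤ 1 := by
    rw [div_le_one (by positivity)]
    nlinarith
  have h3 : |deriv (deriv (ch B)) y| ≤ ch B y :=
    h1.trans (mul_le_of_le_one_left hc h2)
  calc δ * |deriv (deriv (ch B)) y| ≤ 1 / 16 * ch B y :=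
        mul_le_mul hδ' h3 (abs_nonneg _) (by norm_num)
    _ ≤ ch B y / 4 := by linarith

theorem Cov_Gn_int {B ρ p q : ℝ} {f : ℝ → ℝ} (h : Slow B ρ) (hp : ρ < p) (hq : 0 < q)
    (hf : Cl p q f) : Integrable (fun y => om B ρ y * (f y) ^ 2) ∧
      Integrable (fun y => om B ρ y * (deriv f y) ^ 2) := by
  obtain ⟨hB, -, hρ, -⟩ := Wts_slow h
  have h1 : 0 < 2 * p + -(2 * ρ) := by linarith
  have h2 : 0 < 2 * q + (2 * ρ + 1 / B) := by
    have : 0 < 1 / B := by positivity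
    linarith
  exact ⟨Smb_int hf (Cl_om hB ρ) h1 h2, Smb_int (Cl_der hf) (Cl_om hB ρ) h1 h2⟩

theorem Cov_Gn_eq {B ρ p q : ℝ} {f : ℝ → ℝ} (h : Slow B ρ) (hp : ρ < p) (hq : 0 < q)
    (hf : Cl p q f) : Gn B ρ f = (∫ y, om B ρ y * (f y) ^ 2) + ∫ y, om B ρ y * (deriv f y) ^ 2 := by
  obtain ⟨h1, h2⟩ := Cov_Gn_int h hp hq hf
  unfold Gn
  rw [← integral_add h1 h2]
  refine integral_congr_ae (Eventually.of_forall fun y => ?_)
  simp only
  ring

theorem Cov_Gn_nonneg (B ρ : ℝ) (f : ℝ → ℝ) : 0 ≤ Gn B ρ f := by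
  unfold Gn
  refine integral_nonneg fun y => ?_
  have := (om_pos B ρ y).le
  positivity

theorem Cov_Gn_add {B ρ p q : ℝ} {f g : ℝ → ℝ} (h : Slow B ρ) (hp : ρ < p) (hq : 0 < q)
    (hf : Cl p q f) (hg : Cl p q g) :
    Gn B ρ (fun y => f y + g y) ≤ 2 * Gn B ρ f + 2 * Gn B ρ g := by
  obtain ⟨f1, f2⟩ := Cov_Gn_int h hp hq hf
  obtain ⟨g1, g2⟩ := Cov_Gn_int h hp hq hg
  obtain ⟨s1, s2⟩ := Cov_Gn_int h hp hq (Cl_add hf hg)
  rw [Cov_Gn_eq h hp hq hf, Cov_Gn_eq h hp hq hg, Cov_Gn_eq h hp hq (Cl_add hf hg)]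
  have a1 : ∫ y, om B ρ y * (f y + g y) ^ 2 ≤
      2 * (∫ y, om B ρ y * (f y) ^ 2) + 2 * ∫ y, om B ρ y * (g y) ^ 2 := by
    rw [← integral_const_mul, ← integral_const_mul, ← integral_add (f1.const_mul 2)
      (g1.const_mul 2)]
    refine integral_mono s1 ((f1.const_mul 2).add (g1.const_mul 2)) fun y => ?_
    have := (om_pos B ρ y).le
    simp only [Pi.add_apply]
    nlinarith [mul_nonneg this (sq_nonneg (f y - g y))]
  have a2 : ∫ y, om B ρ y * (deriv (fun y => f y + g y) y) ^ 2 ≤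
      2 * (∫ y, om B ρ y * (deriv f y) ^ 2) + 2 * ∫ y, om B ρ y * (deriv g y) ^ 2 := by
    rw [← integral_const_mul, ← integral_const_mul, ← integral_add (f2.const_mul 2)
      (g2.const_mul 2)]
    refine integral_mono s2 ((f2.const_mul 2).add (g2.const_mul 2)) fun y => ?_
    have := (om_pos B ρ y).le
    have e : deriv (fun y => f y + g y) y = deriv f y + deriv g y :=
      ((Cl_hd hf y).add (Cl_hd hg y)).deriv
    simp only [Pi.add_apply]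
    rw [e]
    nlinarith [mul_nonneg this (sq_nonneg (deriv f y - deriv g y))]
  linarith

theorem Cov_chom {B ρ p q : ℝ} {f : ℝ → ℝ} (h : Slow B ρ) (hp : ρ < p) (hq : 0 < q)
    (hf : Cl p q f) : ∫ y, ch B y * (f y) ^ 2 ≤ 8 * Gn B ρ f := by
  obtain ⟨hB, hB16, hρ, -⟩ := Wts_slow h
  obtain ⟨f1, f2⟩ := Cov_Gn_int h hp hq hf
  have hB2 : 0 < 2 / B := by positivity
  have hc : Integrable (fun y => ch B y * (f y) ^ 2) :=
    Smb_int hf (Cl_ch hB) (by linarith) (by linarith)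
  have h1 : ∫ y, ch B y * (f y) ^ 2 ≤ 8 * ∫ y, om B ρ y * (f y) ^ 2 := by
    rw [← integral_const_mul]
    refine integral_mono hc (f1.const_mul 8) fun y => ?_
    have := mul_le_mul_of_nonneg_right (ch_le_om h y) (sq_nonneg (f y))
    linarith
  have h2 : 0 ≤ ∫ y, om B ρ y * (deriv f y) ^ 2 := by
    refine integral_nonneg fun y => ?_
    have := (om_pos B ρ y).le
    positivity
  rw [Cov_Gn_eq h hp hq hf]
  linarith

theorem Cov_psi2 {k : ℕ} {η : ℝ} (hη : 0 < η) (hη' : η ≤ 1) (γ y : ℝ) : |psi k η γ y| ≤ 2 :=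
  (psi_abs hη.le γ y).trans (by linarith)

theorem Cov_sub {k : ℕ} (hk : 1 ≤ k) {δ p q : ℝ} {ε ε' : ℝ → ℝ} (hδ : 0 < δ) (hδ' : δ ≤ 1 / 16)
    (hp : |p| ≤ 2) (hq : |q| ≤ 2) (hε : Cl p q ε) (hε' : Cl p q ε') (y : ℝ) :
    vf k δ (fun y => ε y - ε' y) y = vf k δ ε y - vf k δ ε' y := by
  have h1 := vf_add hk hδ hδ' hp hq hε (Cl_smul (-1) hε') y
  have h2 := vf_smul (δ := δ) hk (-1) hε' y
  have e : (fun y => ε y - ε' y) = fun y => ε y + -1 * ε' y := by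
    funext y
    ring
  rw [e, h1, h2]
  ring

theorem Cov_sqrt {C a b X Y d : ℝ} (hC : 0 < C) (ha : 0 ≤ a) (hb : 0 ≤ b) (hd : 0 ≤ d)
    (hX : X ≤ 8 * C * d) (hY : Y ≤ 64 * C * (a + b)) :
    1 / 2 * (√X * √Y) ≤ 16 * C * √d * (√a + √b) := by
  have h1 : √X ≤ √(8 * C) * √d := by
    rw [← Real.sqrt_mul (by positivity)]
    exact Real.sqrt_le_sqrt hX
  have h2 : √Y ≤ √(8 * C) * (3 * (√a + √b)) := by
    have h3 : 64 * C * (a + b) ≤ (8 * C) * (3 * (√a + √b)) ^ 2 := by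
      have ha' := Real.sq_sqrt ha
      have hb' := Real.sq_sqrt hb
      have hab := mul_nonneg (Real.sqrt_nonneg a) (Real.sqrt_nonneg b)
      have h4 : a + b ≤ (√a + √b) ^ 2 := by
        nlinarith
      have h5 : 64 * C * (a + b) ≤ 64 * C * (√a + √b) ^ 2 :=
        mul_le_mul_of_nonneg_left h4 (by positivity)
      have h6 : 0 ≤ 8 * C * (√a + √b) ^ 2 := by positivity
      nlinarith
    calc √Y ≤ √((8 * C) * (3 * (√a + √b)) ^ 2) := Real.sqrt_le_sqrt (hY.trans h3)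
      _ = √(8 * C) * (3 * (√a + √b)) := by
        rw [Real.sqrt_mul (by positivity), Real.sqrt_sq (by positivity)]
  have h3 : √X * √Y ≤ (√(8 * C) * √d) * (√(8 * C) * (3 * (√a + √b))) :=
    mul_le_mul h1 h2 (Real.sqrt_nonneg _) (by positivity)
  have h4 : (√(8 * C) * √d) * (√(8 * C) * (3 * (√a + √b))) =
      24 * C * (√d * (√a + √b)) := by
    have := Real.mul_self_sqrt (by positivity : 0 ≤ 8 * C)
    calc (√(8 * C) * √d) * (√(8 * C) * (3 * (√a + √b))) =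
        (√(8 * C) * √(8 * C)) * (3 * (√d * (√a + √b))) := by ring
      _ = 24 * C * (√d * (√a + √b)) := by
        rw [this]
        ring
  have h5 : 0 ≤ C * (√d * (√a + √b)) := by positivity
  calc 1 / 2 * (√X * √Y) ≤ 1 / 2 * (24 * C * (√d * (√a + √b))) := by
        rw [← h4]
        linarith
    _ ≤ 16 * C * √d * (√a + √b) := by
        nlinarith

theorem CV (k : ℕ) (hk : 5 ≤ k) (γ η δ : ℝ) (hη : 0 < η) (hη' : η ≤ 1) (hδ : 0 < δ) (hδ' : δ ≤ 1 / 16) :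
    ∃ C : ℝ, 0 < C ∧ ∀ B ρ : ℝ, Slow B ρ → ∀ (p q : ℝ) (ε ε' : ℝ → ℝ), Adm ρ p q ε → Adm ρ p q ε' →
    |Vf k η γ B δ ε| ≤ C * Gn B ρ ε ∧
    |Vf k η γ B δ ε - Vf k η γ B δ ε'| ≤
      C * √(Gn B ρ (fun y => ε y - ε' y)) * (√(Gn B ρ ε) + √(Gn B ρ ε')) := by
  have hk1 : 1 ≤ k := by omega
  obtain ⟨Cd, hCd, hW⟩ := vf_wt0 k hk1 δ hδ hδ'
  refine ⟨16 * Cd, by positivity, ?_⟩
  intro B ρ hS p q ε ε' hε hε'
  obtain ⟨hB, hB16, hρ, -⟩ := Wts_slow hS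
  obtain ⟨hp, hp', hq, hq', hcl⟩ := hε
  obtain ⟨-, -, -, -, hcl'⟩ := hε'
  have hap : |p| ≤ 2 := by
    rw [abs_of_pos (by linarith)]
    linarith
  have haq : |q| ≤ 2 := by
    rw [abs_of_pos hq]
    linarith
  have hB2 : 0 < 2 / B := by positivity
  have c1 : 0 < 2 * p + 2 / B := by linarith
  have c2 : 0 < 2 * q + 2 / B := by linarith
  -- the basic bound
  have key : ∀ f : ℝ → ℝ, Cl p q f → ∫ y, ch B y * (vf k δ f y) ^ 2 ≤ 8 * Cd * Gn B ρ f := by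
    intro f hf
    have h1 := hW p q (2 / B) (2 / B) f (ch B) hap haq hf (Cl_ch hB) (fun y => Cov_ch_pos B y)
      (fun y => Cov_ch2 hδ hδ' hB16 y) c1 c2
    have h2 := mul_le_mul_of_nonneg_left (Cov_chom hS hp hq hf) hCd.le
    linarith
  have hint : ∀ f : ℝ → ℝ, Cl p q f → Integrable (fun y => ch B y * (vf k δ f y) ^ 2) :=
    fun f hf => Smb_int (Cl_vf hk1 hδ hδ' hap haq hf) (Cl_ch hB) c1 c2
  have hintP : ∀ f : ℝ → ℝ, Cl p q f → Integrable (fun y => Psi k η γ B y * (vf k δ f y) ^ 2) :=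
    fun f hf => Smb_int (Cl_vf hk1 hδ hδ' hap haq hf) (Cl_Psi k η γ hB) c1 c2
  have hpsi : ∀ y, |psi k η γ y| ≤ 2 := fun y => Cov_psi2 hη hη' γ y
  have hG := Cov_Gn_nonneg B ρ ε
  have hG' := Cov_Gn_nonneg B ρ ε'
  refine ⟨?_, ?_⟩
  · have h1 : |∫ y, Psi k η γ B y * (vf k δ ε y) ^ 2| ≤ 2 * ∫ y, ch B y * (vf k δ ε y) ^ 2 := by
      rw [← integral_const_mul]
      refine (abs_integral_le_integral_abs).trans ?_
      refine integral_mono (hintP ε hcl).abs ((hint ε hcl).const_mul 2) fun y => ?_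
      have h2 := (Cov_ch_pos B y).le
      have h3 := hpsi y
      show |Psi k η γ B y * (vf k δ ε y) ^ 2| ≤ 2 * (ch B y * (vf k δ ε y) ^ 2)
      rw [Psi, abs_mul, abs_mul, abs_of_nonneg h2, abs_of_nonneg (sq_nonneg (vf k δ ε y)), mul_assoc]
      exact mul_le_mul_of_nonneg_right h3 (by positivity)
    have h2 := key ε hcl
    unfold Vf
    rw [abs_mul, abs_of_pos (by norm_num : (0 : ℝ) < 1 / 2)]
    nlinarith [mul_nonneg hCd.le hG]
  · -- the Lipschitz bound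
    have hv := Cl_vf hk1 hδ hδ' hap haq hcl
    have hv' := Cl_vf hk1 hδ hδ' hap haq hcl'
    set F : ℝ → ℝ := fun y => √(ch B y) * (vf k δ ε y - vf k δ ε' y) with hF
    set G : ℝ → ℝ := fun y => √(ch B y) * psi k η γ y * (vf k δ ε y + vf k δ ε' y) with hGd
    have hsq : ∀ y, √(ch B y) ^ 2 = ch B y := fun y => Real.sq_sqrt (Cov_ch_pos B y).le
    have hF2 : ∀ y, F y ^ 2 = ch B y * (vf k δ (fun y => ε y - ε' y) y) ^ 2 := by
      intro y
      rw [hF, Cov_sub hk1 hδ hδ' hap haq hcl hcl']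
      simp only
      rw [mul_pow, hsq]
    have hG2 : ∀ y, G y ^ 2 = ch B y * (psi k η γ y * vf k δ (fun y => ε y + ε' y) y) ^ 2 := by
      intro y
      rw [hGd, vf_add hk1 hδ hδ' hap haq hcl hcl']
      simp only
      rw [mul_pow, mul_pow, mul_pow, hsq]
      ring
    have hsum := Cl_vf hk1 hδ hδ' hap haq (Cl_add hcl hcl')
    have hpv : Cl p q (fun y => psi k η γ y * vf k δ (fun y => ε y + ε' y) y) :=
      Cl_mul0 (Cl_psi k η γ) hsum
    have iF2 : Integrable (fun y => F y ^ 2) := by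
      simp only [hF2]
      exact hint _ (Cl_sub hcl hcl')
    have iG2 : Integrable (fun y => G y ^ 2) := by
      simp only [hG2]
      exact Smb_int hpv (Cl_ch hB) c1 c2
    have cch : Continuous (fun y => √(ch B y)) := Real.continuous_sqrt.comp (Cl_cont (Cl_ch hB))
    have cF : Continuous F := cch.mul ((Cl_cont hv).sub (Cl_cont hv'))
    have cG : Continuous G :=
      (cch.mul (Cl_cont (Cl_psi k η γ))).mul ((Cl_cont hv).add (Cl_cont hv'))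
    have hCS := (cs_int cF cG iF2 iG2).2
    have hX : ∫ y, F y ^ 2 ≤ 8 * Cd * Gn B ρ (fun y => ε y - ε' y) := by
      simp only [hF2]
      exact key _ (Cl_sub hcl hcl')
    have hY : ∫ y, G y ^ 2 ≤ 64 * Cd * (Gn B ρ ε + Gn B ρ ε') := by
      have h1 : ∫ y, G y ^ 2 ≤ 4 * ∫ y, ch B y * (vf k δ (fun y => ε y + ε' y) y) ^ 2 := by
        rw [← integral_const_mul]
        refine integral_mono iG2 ((hint _ (Cl_add hcl hcl')).const_mul 4) fun y => ?_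
        show G y ^ 2 ≤ 4 * (ch B y * (vf k δ (fun y => ε y + ε' y) y) ^ 2)
        rw [hG2, mul_pow]
        have h2 : psi k η γ y ^ 2 ≤ 4 := by
          have h3 := pow_le_pow_left₀ (abs_nonneg _) (hpsi y) 2
          rw [sq_abs] at h3
          linarith
        have h4 : 0 ≤ ch B y * (vf k δ (fun y => ε y + ε' y) y) ^ 2 :=
          mul_nonneg (Cov_ch_pos B y).le (sq_nonneg _)
        have h5 := mul_le_mul_of_nonneg_right h2 h4
        linarith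
      have h2 := key _ (Cl_add hcl hcl')
      have h3 := Cov_Gn_add hS hp hq hcl hcl'
      have h4 := mul_le_mul_of_nonneg_left h3 hCd.le
      linarith
    have hdiff : Vf k η γ B δ ε - Vf k η γ B δ ε' = 1 / 2 * ∫ y, F y * G y := by
      unfold Vf
      rw [← mul_sub, ← integral_sub (hintP ε hcl) (hintP ε' hcl')]
      congr 1
      refine integral_congr_ae (Eventually.of_forall fun y => ?_)
      have := hsq y
      rw [hF, hGd]
      simp only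
      rw [Psi]
      calc psi k η γ y * ch B y * (vf k δ ε y) ^ 2 - psi k η γ y * ch B y * (vf k δ ε' y) ^ 2 =
          ch B y * (psi k η γ y * (vf k δ ε y ^ 2 - vf k δ ε' y ^ 2)) := by ring
        _ = √(ch B y) ^ 2 * (psi k η γ y * (vf k δ ε y ^ 2 - vf k δ ε' y ^ 2)) := by rw [this]
        _ = _ := by ring
    rw [hdiff, abs_mul, abs_of_pos (by norm_num : (0 : ℝ) < 1 / 2)]
    refine (mul_le_mul_of_nonneg_left hCS (by norm_num)).trans ?_
    exact Cov_sqrt hCd hG hG' (Cov_Gn_nonneg B ρ _) hX hY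

theorem Vf_even (k : ℕ) (γ η δ B : ℝ) (ε : ℝ → ℝ) (hε : ∀ y, ε (-y) = ε y) :
    Vf k η γ B δ ε = 0 := by
  have hd : ∀ g : ℝ → ℝ, ∀ y, deriv (fun x => g (-x)) y = -deriv g (-y) := fun g y =>
    deriv_comp_neg g y
  have e0 : (fun y => ε (-y)) = ε := funext hε
  have h1 : ∀ y, deriv ε (-y) = -deriv ε y := by
    intro y
    have := hd ε y
    rw [e0] at this
    linarith
  have h2 : ∀ y, deriv (deriv ε) (-y) = deriv (deriv ε) y := by
    intro y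
    have h3 := hd (deriv ε) y
    have e1 : (fun x => deriv ε (-x)) = fun x => -deriv ε x := funext h1
    rw [e1, deriv.fun_neg] at h3
    linarith
  have hL : (fun y => Lop k ε (-y)) = Lop k ε := by
    funext y
    unfold Lop
    rw [h2, hε, Qf_neg]
  have hv : ∀ y, vf k δ ε (-y) = vf k δ ε y := by
    intro y
    unfold vf
    rw [← Sm_refl, hL]
  have hch : ∀ y, ch B (-y) = ch B y := by
    intro y
    rw [ch_eq', ch_eq', se2_neg]
  have hpsi : ∀ y, psi k η γ (-y) = -psi k η γ y := by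
    intro y
    unfold psi
    rw [th_neg, mul_neg, Real.tanh_neg]
    ring
  have h0 : ∫ y, Psi k η γ B y * (vf k δ ε y) ^ 2 = 0 := by
    refine Sol2_odd fun y => ?_
    unfold Psi
    rw [hpsi, hch, hv]
    ring
  unfold Vf
  rw [h0, mul_zero]

end H98KB

end S_H98_KB_Cov

section S_H98_KB_Ini

/-!
# Ini : initial data `ε = a n`

`Ef(an) = a²·(1/2)∫om(n'²+n²-Q^kn²) - ∫om(bF(an)-(1/2)Q^ka²n²)`, last term `O(|a|³)` (`bF_cub`, `|a n| ≤ 1` is needed: for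
`|a| ≤ c` with `c sup|n| ≤ 1`).  For an even integrable `h` (here `h=n'²+n²-Q^kn²`, `|h| ≤ Ce^{-|y|}`): `∫Th h = (1/2)∫h`
(`Th_neg`), `|om - Th| ≤ |e^{2ρy}-1| ≤ 2ρ|y|e^{|y|/32}`.  `∫h = ip (L n) n < 0` (`ip_L`, `ip_Ln_n`).  `Vf (an)=0` (`Vf_even`).
`cn = -(M/4) ip (L n) n`.
`ip_n_ph0`: if `(n,φ₀)=0`, then, since `(n,Q')=0`, `L_ge_one` gives `(Ln,n) ≥ ∫n² ≥ 0`, contradiction.
-/

open MeasureTheory Filter Topology Set
open scoped ContDiff

namespace H98KB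

theorem Ini_n (k : ℕ) (hk : 1 ≤ k) : Cl (1 / 2) (1 / 2) (nf k) := Cl_nf hk (by norm_num)

/-- the quadratic form density of `n` -/
noncomputable def Ini_h (k : ℕ) (y : ℝ) : ℝ :=
  (deriv (nf k) y) ^ 2 + (nf k y) ^ 2 - Qf k y ^ k * (nf k y) ^ 2

theorem Ini_Clh (k : ℕ) (hk : 1 ≤ k) : Cl 1 1 (Ini_h k) := by
  have hn := Ini_n k hk
  have hd := Cl_der hn
  have h1 : Cl 1 1 (fun y => deriv (nf k) y * deriv (nf k) y) :=
    Cl_mono (Cl_mul hd hd) (by norm_num) (by norm_num)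
  have h2 : Cl 1 1 (fun y => nf k y * nf k y) :=
    Cl_mono (Cl_mul hn hn) (by norm_num) (by norm_num)
  have h3 : Cl 1 1 (fun y => Qf k y ^ k * (nf k y * nf k y)) :=
    Cl_mono (Cl_mul (Cl_Qk hk) h2) (by have : (0 : ℝ) ≤ (k : ℝ) := by positivity
                                       linarith)
      (by have : (0 : ℝ) ≤ (k : ℝ) := by positivity
          linarith)
  have h4 := Cl_sub (Cl_add h1 h2) h3
  have e : Ini_h k = fun y => deriv (nf k) y * deriv (nf k) y + nf k y * nf k y -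
      Qf k y ^ k * (nf k y * nf k y) := by
    funext y
    unfold Ini_h
    ring
  rw [e]
  exact h4

theorem Ini_dneg (k : ℕ) (hk : 1 ≤ k) (y : ℝ) : deriv (nf k) (-y) = -deriv (nf k) y := by
  have e : nf k = fun y => nf k (-y) := by
    funext y
    rw [nf_neg hk]
  have h1 : deriv (fun y => nf k (-y)) y = -deriv (nf k) (-y) := deriv_comp_neg _ _
  rw [← e] at h1
  rw [h1]
  ring

theorem Ini_hneg (k : ℕ) (hk : 1 ≤ k) (y : ℝ) : Ini_h k (-y) = Ini_h k y := by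
  unfold Ini_h
  rw [Ini_dneg k hk, nf_neg hk, Qf_neg]
  ring

theorem Ini_hint (k : ℕ) (hk : 1 ≤ k) : ∫ y, Ini_h k y = ip (Lop k (nf k)) (nf k) := by
  rw [ip_L hk (by norm_num) (by norm_num) (Ini_n k hk)]
  rfl

theorem Ini_half (k : ℕ) (hk : 1 ≤ k) {B : ℝ} (hB : 0 < B) :
    ∫ y, Th B y * Ini_h k y = 1 / 2 * ∫ y, Ini_h k y := by
  have hh := Ini_Clh k hk
  have i1 : Integrable (fun y => Th B y * Ini_h k y) :=
    Cl_int (Cl_mul (Cl_Th hB) hh) (by norm_num) (by positivity)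
  have i2 : Integrable (fun y => Ini_h k y) := Cl_int hh one_pos one_pos
  have e1 : ∫ y, Th B y * Ini_h k y = ∫ y, Th B (-y) * Ini_h k (-y) :=
    (integral_neg_eq_self (fun y => Th B y * Ini_h k y) volume).symm
  have e2 : ∫ y, Th B (-y) * Ini_h k (-y) = ∫ y, (Ini_h k y - Th B y * Ini_h k y) := by
    congr 1
    funext y
    have := Th_neg hB y
    rw [Ini_hneg k hk]
    have h3 : Th B (-y) = 1 - Th B y := by linarith
    rw [h3]
    ring
  have e3 : ∫ y, (Ini_h k y - Th B y * Ini_h k y) =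
      (∫ y, Ini_h k y) - ∫ y, Th B y * Ini_h k y := integral_sub i2 i1
  rw [e2, e3] at e1
  linarith

theorem Ini_exp (x : ℝ) (c : ℝ) (hc : |x| ≤ c) : |Real.exp x - 1| ≤ |x| * Real.exp c := by
  have hc0 : 0 ≤ c := (abs_nonneg x).trans hc
  have h1 : 1 ≤ Real.exp c := Real.one_le_exp hc0
  rw [abs_le]
  constructor
  · have h2 := Real.add_one_le_exp x
    have h3 := neg_abs_le x
    nlinarith [abs_nonneg x]
  · have h2 : Real.exp x - 1 ≤ x * Real.exp x := by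
      have h4 := Real.add_one_le_exp (-x)
      have h5 : Real.exp x * Real.exp (-x) = 1 := by
        rw [← Real.exp_add]
        simp
      nlinarith [Real.exp_pos x]
    have h6 : x * Real.exp x ≤ |x| * Real.exp c := by
      have h7 : Real.exp x ≤ Real.exp c := Real.exp_le_exp.2 ((le_abs_self x).trans hc)
      have h8 := le_abs_self x
      calc x * Real.exp x ≤ |x| * Real.exp x := mul_le_mul_of_nonneg_right h8 (Real.exp_pos x).le
        _ ≤ |x| * Real.exp c := mul_le_mul_of_nonneg_left h7 (abs_nonneg x)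
    linarith

theorem Ini_J : 0 ≤ ∫ y, bd (1 / 2) (1 / 2) y := integral_nonneg fun y => (bd_pos _ _ y).le

theorem Ini_main (k : ℕ) (hk : 1 ≤ k) : ∃ K : ℝ, 0 ≤ K ∧ ∀ B ρ : ℝ, Slow B ρ →
    |(∫ y, om B ρ y * Ini_h k y) - 1 / 2 * ∫ y, Ini_h k y| ≤ K * ρ := by
  have hh := Ini_Clh k hk
  obtain ⟨C, hC0, hC⟩ := Cl_bnd hh
  refine ⟨8 * C * ∫ y, bd (1 / 2) (1 / 2) y, by have := Ini_J; positivity, ?_⟩
  intro B ρ hs
  obtain ⟨hB16, hρ, hρB⟩ := hs
  have hB : 0 < B := by linarith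
  have hρ64 : ρ ≤ 1 / 64 := by nlinarith
  have i1 : Integrable (fun y => Th B y * Ini_h k y) :=
    Cl_int (Cl_mul (Cl_Th hB) hh) (by norm_num) (by positivity)
  have i2 : Integrable (fun y => om B ρ y * Ini_h k y) :=
    Cl_int (Cl_mul (Cl_om hB ρ) hh) (by linarith) (by positivity)
  rw [← Ini_half k hk hB, ← integral_sub i2 i1]
  have hg : Integrable (fun y => 8 * C * ρ * bd (1 / 2) (1 / 2) y) :=
    (bd_int (by norm_num) (by norm_num)).const_mul _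
  have h1 := norm_integral_le_of_norm_le (f := fun y => om B ρ y * Ini_h k y -
    Th B y * Ini_h k y) hg (Eventually.of_forall fun y => ?_)
  · rw [Real.norm_eq_abs, integral_const_mul] at h1
    refine h1.trans (le_of_eq ?_)
    ring
  · rw [Real.norm_eq_abs]
    have e1 : om B ρ y * Ini_h k y - Th B y * Ini_h k y =
        Th B y * ((Real.exp (2 * ρ * y) - 1) * Ini_h k y) := by
      unfold om
      ring
    rw [e1, abs_mul, abs_mul, abs_of_pos (Th_pos B y)]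
    have h2 : |Real.exp (2 * ρ * y) - 1| ≤ |2 * ρ * y| * Real.exp (|y| / 32) := by
      apply Ini_exp
      rw [abs_mul, abs_of_pos (by positivity : (0 : ℝ) < 2 * ρ)]
      nlinarith [abs_nonneg y]
    have h3 := hC y
    have h4 : Th B y ≤ 1 := (Th_lt_one B y).le
    have h5 : |2 * ρ * y| = 2 * ρ * |y| := by
      rw [abs_mul, abs_of_pos (by positivity : (0 : ℝ) < 2 * ρ)]
    rw [h5] at h2
    have h6 : |y| ≤ 4 * Real.exp (|y| / 4) := by
      have := Real.add_one_le_exp (|y| / 4)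
      linarith
    have h7 : |Real.exp (2 * ρ * y) - 1| * |Ini_h k y| ≤
        (2 * ρ * |y| * Real.exp (|y| / 32)) * (C * bd 1 1 y) :=
      mul_le_mul h2 h3 (abs_nonneg _) (by positivity)
    have h8 : Th B y * (|Real.exp (2 * ρ * y) - 1| * |Ini_h k y|) ≤
        |Real.exp (2 * ρ * y) - 1| * |Ini_h k y| :=
      mul_le_of_le_one_left (by positivity) h4
    refine h8.trans (h7.trans ?_)
    have h9 : Real.exp (|y| / 4) * Real.exp (|y| / 32) * bd 1 1 y ≤ bd (1 / 2) (1 / 2) y := by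
      rw [bd_abs, bd_abs, ← Real.exp_add, ← Real.exp_add, Real.exp_le_exp]
      nlinarith [abs_nonneg y]
    have h10 := bd_pos 1 1 y
    calc (2 * ρ * |y| * Real.exp (|y| / 32)) * (C * bd 1 1 y) =
        2 * ρ * C * (|y| * (Real.exp (|y| / 32) * bd 1 1 y)) := by ring
      _ ≤ 2 * ρ * C * ((4 * Real.exp (|y| / 4)) * (Real.exp (|y| / 32) * bd 1 1 y)) := by
          refine mul_le_mul_of_nonneg_left ?_ (by positivity)
          exact mul_le_mul_of_nonneg_right h6 (by positivity)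
      _ = 8 * C * ρ * (Real.exp (|y| / 4) * Real.exp (|y| / 32) * bd 1 1 y) := by ring
      _ ≤ 8 * C * ρ * bd (1 / 2) (1 / 2) y :=
          mul_le_mul_of_nonneg_left h9 (by positivity)

/-- the cubic remainder density -/
noncomputable def Ini_r (k : ℕ) (a y : ℝ) : ℝ :=
  bF k (fun y => a * nf k y) y - 1 / 2 * (Qf k y ^ k * (a * nf k y) ^ 2)

theorem Ini_Clr (k : ℕ) (hk : 1 ≤ k) (a : ℝ) : Cl 1 1 (Ini_r k a) := by
  have hn := Ini_n k hk
  have ha : Cl (1 / 2) (1 / 2) (fun y => a * nf k y) := Cl_smul a hn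
  have h1 : Cl 1 1 (bF k (fun y => a * nf k y)) :=
    Cl_mono (Cl_bF hk (by norm_num) (by norm_num) (by norm_num) (by norm_num) ha)
      (by norm_num) (by norm_num)
  have h2 : Cl 1 1 (fun y => (a * nf k y) * (a * nf k y)) :=
    Cl_mono (Cl_mul ha ha) (by norm_num) (by norm_num)
  have h3 : Cl 1 1 (fun y => Qf k y ^ k * ((a * nf k y) * (a * nf k y))) :=
    Cl_mono (Cl_mul (Cl_Qk hk) h2) (by have : (0 : ℝ) ≤ (k : ℝ) := by positivity
                                       linarith)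
      (by have : (0 : ℝ) ≤ (k : ℝ) := by positivity
          linarith)
  have h4 := Cl_sub h1 (Cl_smul (1 / 2) h3)
  have e : Ini_r k a = fun y => bF k (fun y => a * nf k y) y -
      1 / 2 * (Qf k y ^ k * ((a * nf k y) * (a * nf k y))) := by
    funext y
    unfold Ini_r
    ring
  rw [e]
  exact h4

theorem Ini_rem (k : ℕ) (hk : 2 ≤ k) : ∃ c K : ℝ, 0 < c ∧ c ≤ 1 ∧ 0 ≤ K ∧
    ∀ B ρ : ℝ, Slow B ρ → ∀ a : ℝ, |a| ≤ c →
    |∫ y, om B ρ y * Ini_r k a y| ≤ K * |a| ^ 3 := by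
  have hk1 : 1 ≤ k := by omega
  have hn := Ini_n k hk1
  obtain ⟨C, hC0, hC⟩ := Cl_bnd hn
  obtain ⟨D, hD0, hD⟩ := bF_cub k hk
  have hb1 : ∀ y, bd (1 / 2) (1 / 2) y ≤ 1 := by
    intro y
    have h0 : bd (1 / 2) (1 / 2) y ≤ bd 0 0 y := bd_mono (by norm_num) (by norm_num) y
    exact h0.trans (bd_zero y).le
  refine ⟨1 / (C + 1), D * C ^ 3 * ∫ y, bd (1 / 2) (1 / 2) y, by positivity, ?_,
    by have := Ini_J; positivity, ?_⟩
  · rw [div_le_one (by positivity)]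
    linarith
  intro B ρ hs a ha
  have hg : Integrable (fun y => D * C ^ 3 * |a| ^ 3 * bd (1 / 2) (1 / 2) y) :=
    (bd_int (by norm_num) (by norm_num)).const_mul _
  have h1 := norm_integral_le_of_norm_le (f := fun y => om B ρ y * Ini_r k a y) hg
    (Eventually.of_forall fun y => ?_)
  · rw [Real.norm_eq_abs, integral_const_mul] at h1
    refine h1.trans (le_of_eq ?_)
    ring
  · rw [Real.norm_eq_abs, abs_mul, abs_of_pos (om_pos B ρ y)]
    have h2 : |a * nf k y| ≤ 1 := by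
      rw [abs_mul]
      have h3 : |nf k y| ≤ C := (hC y).trans (mul_le_of_le_one_right hC0 (hb1 y))
      calc |a| * |nf k y| ≤ 1 / (C + 1) * C := mul_le_mul ha h3 (abs_nonneg _) (by positivity)
        _ ≤ 1 := by
          rw [div_mul_eq_mul_div, one_mul, div_le_one (by positivity)]
          linarith
    have h4 : |Ini_r k a y| ≤ D * |a * nf k y| ^ 3 := hD (fun y => a * nf k y) y h2
    have h5 : |a * nf k y| ^ 3 ≤ |a| ^ 3 * (C * bd (1 / 2) (1 / 2) y) ^ 3 := by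
      rw [abs_mul, mul_pow]
      exact mul_le_mul_of_nonneg_left (pow_le_pow_left₀ (abs_nonneg _) (hC y) 3) (by positivity)
    have h6 := om_hi hs y
    have h7 : Real.exp (|y| / 32) * (bd (1 / 2) (1 / 2) y) ^ 3 ≤ bd (1 / 2) (1 / 2) y := by
      rw [bd_abs, ← Real.exp_nat_mul, ← Real.exp_add, Real.exp_le_exp]
      push_cast
      nlinarith [abs_nonneg y]
    have h8 := bd_pos (1 / 2) (1 / 2) y
    calc om B ρ y * |Ini_r k a y| ≤ Real.exp (|y| / 32) *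
          (D * (|a| ^ 3 * (C * bd (1 / 2) (1 / 2) y) ^ 3)) := by
          refine mul_le_mul h6 (h4.trans ?_) (abs_nonneg _) (Real.exp_pos _).le
          exact mul_le_mul_of_nonneg_left h5 hD0.le
      _ = D * C ^ 3 * |a| ^ 3 * (Real.exp (|y| / 32) * (bd (1 / 2) (1 / 2) y) ^ 3) := by ring
      _ ≤ D * C ^ 3 * |a| ^ 3 * bd (1 / 2) (1 / 2) y :=
          mul_le_mul_of_nonneg_left h7 (by positivity)

theorem Ini_Ef (k : ℕ) (hk : 1 ≤ k) {B ρ : ℝ} (hs : Slow B ρ) (a : ℝ) :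
    Ef k B ρ (fun y => a * nf k y) =
      a ^ 2 / 2 * (∫ y, om B ρ y * Ini_h k y) - ∫ y, om B ρ y * Ini_r k a y := by
  obtain ⟨hB16, hρ, hρB⟩ := hs
  have hB : 0 < B := by linarith
  have hρ64 : ρ ≤ 1 / 64 := by nlinarith
  have i1 : Integrable (fun y => om B ρ y * Ini_h k y) :=
    Cl_int (Cl_mul (Cl_om hB ρ) (Ini_Clh k hk)) (by linarith) (by positivity)
  have i2 : Integrable (fun y => om B ρ y * Ini_r k a y) :=
    Cl_int (Cl_mul (Cl_om hB ρ) (Ini_Clr k hk a)) (by linarith) (by positivity)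
  have hn := Ini_n k hk
  have hd : ∀ y, deriv (fun y => a * nf k y) y = a * deriv (nf k) y := fun y =>
    ((Cl_hd hn y).const_mul a).deriv
  have e1 : ∫ y, om B ρ y * ((deriv (fun y => a * nf k y) y) ^ 2 + (a * nf k y) ^ 2 -
      2 * bF k (fun y => a * nf k y) y) =
      ∫ y, (a ^ 2 * (om B ρ y * Ini_h k y) - 2 * (om B ρ y * Ini_r k a y)) := by
    congr 1
    funext y
    rw [hd y]
    unfold Ini_h Ini_r
    ring
  have e2 : ∫ y, (a ^ 2 * (om B ρ y * Ini_h k y) - 2 * (om B ρ y * Ini_r k a y)) =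
      a ^ 2 * (∫ y, om B ρ y * Ini_h k y) - 2 * ∫ y, om B ρ y * Ini_r k a y := by
    rw [← integral_const_mul, ← integral_const_mul]
    exact integral_sub (i1.const_mul _) (i2.const_mul _)
  unfold Ef
  rw [e1, e2]
  ring

theorem IN_st (k : ℕ) (hk : 5 ≤ k) (M : ℝ) (hM : 0 < M) : ∃ c C cn : ℝ, 0 < c ∧ c ≤ 1 ∧ 0 < C ∧ 0 < cn ∧
    ∀ γ η δ B ρ : ℝ, Slow B ρ → ∀ a : ℝ, |a| ≤ c →
    |LL k η γ δ M B ρ (fun y => a * nf k y) + cn * a ^ 2| ≤ C * (ρ * a ^ 2 + |a| ^ 3) := by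
  have hk1 : 1 ≤ k := by omega
  obtain ⟨K, hK0, hK⟩ := Ini_main k hk1
  obtain ⟨c, K', hc, hc1, hK'0, hK'⟩ := Ini_rem k (by omega)
  have hneg := ip_Ln_n hk
  refine ⟨c, M * (K + K') + 1, -(M / 4) * ip (Lop k (nf k)) (nf k), hc, hc1, by positivity,
    by nlinarith, ?_⟩
  intro γ η δ B ρ hs a ha
  have h1 := hK B ρ hs
  have h2 := hK' B ρ hs a ha
  have h3 : Vf k η γ B δ (fun y => a * nf k y) = 0 :=
    Vf_even k γ η δ B _ fun y => by simp only [nf_neg hk1]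
  have hρ : 0 < ρ := hs.2.1
  unfold LL
  rw [h3, Ini_Ef k hk1 hs a]
  rw [Ini_hint k hk1] at h1
  generalize (∫ y, om B ρ y * Ini_h k y) = X at *
  generalize (∫ y, om B ρ y * Ini_r k a y) = Y at *
  generalize ip (Lop k (nf k)) (nf k) = I at *
  have e : M * (a ^ 2 / 2 * X - Y) + 0 + -(M / 4) * I * a ^ 2 =
      M * (a ^ 2 / 2 * (X - 1 / 2 * I)) + -(M * Y) := by ring
  rw [e]
  refine (abs_add_le _ _).trans ?_
  rw [abs_neg, abs_mul, abs_mul M Y, abs_mul, abs_of_pos hM,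
    abs_of_nonneg (by positivity : (0 : ℝ) ≤ a ^ 2 / 2)]
  have ha2 : 0 ≤ a ^ 2 := sq_nonneg a
  have h4 : a ^ 2 / 2 * |X - 1 / 2 * I| ≤ a ^ 2 / 2 * (K * ρ) :=
    mul_le_mul_of_nonneg_left h1 (by positivity)
  have h5 : M * (a ^ 2 / 2 * |X - 1 / 2 * I|) ≤ M * (K * (ρ * a ^ 2)) := by
    refine mul_le_mul_of_nonneg_left (h4.trans ?_) hM.le
    have : 0 ≤ K * (ρ * a ^ 2) := by positivity
    nlinarith
  have h6 : M * |Y| ≤ M * (K' * |a| ^ 3) := mul_le_mul_of_nonneg_left h2 hM.le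
  have p1 : 0 ≤ ρ * a ^ 2 := by positivity
  have p2 : 0 ≤ |a| ^ 3 := by positivity
  have p3 : 0 ≤ M * K := by positivity
  have p4 : 0 ≤ M * K' := by positivity
  (first | linarith only [mul_nonneg p3 p2, mul_nonneg p4 p1, h5, h6, p1, p2, p3, p4] | nlinarith only [mul_nonneg p3 p2, mul_nonneg p4 p1, h5, h6, p1, p2, p3, p4])

theorem ip_n_ph0 (k : ℕ) (hk : 5 ≤ k) : ip (nf k) (ph0 k) ≠ 0 := by
  intro h0
  have hk1 : 1 ≤ k := by omega
  have h1 := L_ge_one (k := k) (by omega) (by norm_num) (by norm_num) (Ini_n k hk1) h0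
    (ip_n_Qd hk1)
  have h2 := ip_Ln_n hk
  have h3 : 0 ≤ ∫ y, (nf k y) ^ 2 := integral_nonneg fun y => sq_nonneg _
  linarith

theorem thmN : ThmN := by
  intro k hk
  have hk1 : 1 ≤ k := by omega
  exact ⟨Ini_n k hk1, ip_n_Q hk1, ip_n_Qd hk1, ip_n_ph0 k hk⟩

end H98KB

end S_H98_KB_Ini
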