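import Mathlib
import Pool.Agent.H98.BU.G05
import Pool.Agent.H98.BU.G06

/-! Blow-up for `u_t + u^k u_x + u_xxx - u_xx = 0`, part G11: this file joins several modules
to save build time (`Pool/Agent/H98/{KB,KC}`, `H72/{KB,KC}`, `H68/KC`, `H37/{KB,KC}`). -/

section S_H98_KB_Vco

/-!
# Vco : the local `L²` norm is controlled by the virial form up to a small weighted term (Lemma V3)

`t = th k y`, `κ = k/2`, `Q' = -tQ`, `q := v/Q`, `Q q' = v' + t v`.  `P := Q·ΛQ`, `|P| ≤ C(1+|y|)e^{-2|y|}`, even.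
`T(y) = ∫_y^∞ P` for `y ≥ 0`, `|T(y)| ≤ C(1+y)e^{-2y}`; `2T(0) = ∫QΛQ = -s_c∫Q² ≠ 0` (`k ≥ 5`).
Integrating by parts on each half line: `ip v ΛQ = ∫ P q = 2T(0)q(0) + ∫_0^∞ T(y)(q'(y) - q'(-y)) dy`
[`∫_0^∞ P q = T(0)q(0)+∫_0^∞ T q'`].
Put `A ≥ 1`, `W_A = A t' + w`, `w = se2 γ`, `t'=κ(1-t²)`.  Weighted AM-GM: `W_A ≥ (A t')^ϑ w^{1-ϑ}` with `ϑ=1/(2k)`
(`x+y ≥ x^ϑ y^{1-ϑ}`, or: if `A t' ≥ w` then `W_A ≥ A t' ≥ (At')^ϑ w^{1-ϑ}`, else `W_A ≥ w ≥ ...`), hence
`1/W_A ≤ C A^{-ϑ} e^{(kϑ+2γ)|y|} ≤ C A^{-ϑ} e^{3|y|/4}` (`t' ≥ κ e^{-k|y|}`, `w ≥ e^{-2γ|y|}`, `γ ≤ 1/8`).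
Set `I := ∫ W_A Q²q'² = A∫t'(v'+tv)² + ∫w(v'+tv)² ≤ A∫t'(v'+tv)²+2∫w(v²+v'²)`.
(1) `(∫|T(|y|)||q'|)² ≤ (∫T²/(Q²W_A)) I ≤ C A^{-ϑ} (∫(1+|y|)²e^{-4|y|+2|y|+3|y|/4}) I`; so
    `q(0)² ≤ C((ip v ΛQ)² + A^{-ϑ} I)`.
(2) `|q(y)-q(0)|² ≤ (∫_0^{|y|}..1/(Q²W_A)) I ≤ C A^{-ϑ} e^{(2+3/4)|y|}·I` and `∫(1+k|y|)Q^{k+2}e^{11|y|/4} < ∞`.
So `∫(1+k|y|)Q^kv² = ∫(1+k|y|)Q^{k+2}q² ≤ C(q(0)²+A^{-ϑ}I) ≤ C((ip v ΛQ)²+A^{-ϑ}I)`; given `ν` choose `A` with
`2C A^{-ϑ} ≤ ν`.
Hint: all integrals of `|q'|` can be written with `|q'| = |v'+tv|/Q`; work with continuous functions; to avoid half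
lines one may integrate the derivative of `sgn`-free quantities separately on `Ioi 0` and `Iic 0`
(`integral_Ioi_mul_deriv_eq_deriv_mul` etc., or `HasDerivAt` of `T q` on `[0,∞)` with `T q → 0`: `T q = T v/Q`,
`|T/Q| ≤ C(1+y)e^{-y}`).
-/

open MeasureTheory Filter Topology Set
open scoped ContDiff

namespace H98KB

/-- Cauchy-Schwarz on an interval -/
theorem Vco_csi {f g : ℝ → ℝ} (hf : Continuous f) (hg : Continuous g) {a b : ℝ} (hab : a ≤ b) :
    (∫ x in a..b, f x * g x) ^ 2 ≤ (∫ x in a..b, f x ^ 2) * ∫ x in a..b, g x ^ 2 := by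
  have key : ∀ s : ℝ, 0 ≤ (∫ x in a..b, f x ^ 2) * (s * s) + (2 * ∫ x in a..b, f x * g x) * s
      + ∫ x in a..b, g x ^ 2 := by
    intro s
    have h1 : (∫ x in a..b, (s * f x + g x) ^ 2) = (∫ x in a..b, f x ^ 2) * (s * s)
        + (2 * ∫ x in a..b, f x * g x) * s + ∫ x in a..b, g x ^ 2 := by
      have : (fun x => (s * f x + g x) ^ 2)
          = fun x => ((s * s) * f x ^ 2 + (2 * s) * (f x * g x)) + g x ^ 2 := by
        ext x; ring
      rw [this, intervalIntegral.integral_add, intervalIntegral.integral_add,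
        intervalIntegral.integral_const_mul, intervalIntegral.integral_const_mul]
      · ring
      all_goals exact Continuous.intervalIntegrable (by fun_prop) _ _
    rw [← h1]
    exact intervalIntegral.integral_nonneg hab (fun x _ => sq_nonneg _)
  have := discrim_le_zero key
  unfold discrim at this
  nlinarith

/-- `G = v' + t v` -/
theorem Vco_ClG (k : ℕ) {p q : ℝ} {v : ℝ → ℝ} (hv : Cl p q v) :
    Cl p q (fun y => deriv v y + th k y * v y) :=
  Cl_add (Cl_der hv) (Cl_mul0 (Cl_th k) hv)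

theorem Vco_rhd {k : ℕ} (hk : 1 ≤ k) {p q : ℝ} {v : ℝ → ℝ} (hv : Cl p q v) (y : ℝ) :
    HasDerivAt (fun y => v y / Qf k y) ((deriv v y + th k y * v y) / Qf k y) y := by
  have hQ := Qf_pos k y
  have h := (Cl_hd hv y).div (Qf_hd hk y) hQ.ne'
  have e : (deriv v y * Qf k y - v y * (-th k y * Qf k y)) / Qf k y ^ 2
      = (deriv v y + th k y * v y) / Qf k y := by
    rw [div_eq_div_iff (pow_pos hQ 2).ne' hQ.ne']
    ring
  rw [e] at h
  exact h

/-- increments of `v/Q` -/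
theorem Vco_incr {k : ℕ} (hk : 1 ≤ k) {c : ℝ} (hc : 0 < c)
    (hlo : ∀ y, c * Real.exp (-|y|) ≤ Qf k y)
    {p q : ℝ} {v : ℝ → ℝ} (hp : 0 < p) (hq : 0 < q) (hv : Cl p q v) {a b Y : ℝ} (hab : a ≤ b)
    (hY : ∀ z ∈ Icc a b, |z| ≤ Y) :
    (v b / Qf k b - v a / Qf k a) ^ 2 ≤
      (∫ z, Real.exp (-(3 / 4 * |z|)) * (deriv v z + th k z * v z) ^ 2) *
        ((b - a) * (Real.exp (11 / 4 * Y) / c ^ 2)) := by
  have hG := Vco_ClG k hv
  have hGc := Cl_cont hG
  have hQc := Cl_cont (Cl_Qf hk)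
  have hr : ∫ z in a..b, (deriv v z + th k z * v z) / Qf k z = v b / Qf k b - v a / Qf k a := by
    apply intervalIntegral.integral_eq_sub_of_hasDerivAt (fun x _ => Vco_rhd hk hv x)
    apply Continuous.intervalIntegrable
    exact hGc.div hQc (fun x => (Qf_pos k x).ne')
  have hf : Continuous (fun z : ℝ => Real.exp (-(3 / 8 * |z|)) * (deriv v z + th k z * v z)) := by
    exact (by fun_prop : Continuous (fun z : ℝ => Real.exp (-(3 / 8 * |z|)))).mul hGc
  have hg : Continuous (fun z : ℝ => Real.exp (3 / 8 * |z|) / Qf k z) := by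
    exact (by fun_prop : Continuous (fun z : ℝ => Real.exp (3 / 8 * |z|))).div hQc
      (fun x => (Qf_pos k x).ne')
  have h0 : (fun z => (deriv v z + th k z * v z) / Qf k z)
      = fun z => (Real.exp (-(3 / 8 * |z|)) * (deriv v z + th k z * v z)) *
        (Real.exp (3 / 8 * |z|) / Qf k z) := by
    ext z
    have h1 : Real.exp (-(3 / 8 * |z|)) * Real.exp (3 / 8 * |z|) = 1 := by
      rw [← Real.exp_add]; simp
    calc (deriv v z + th k z * v z) / Qf k z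
        = (Real.exp (-(3 / 8 * |z|)) * Real.exp (3 / 8 * |z|)) * ((deriv v z + th k z * v z) / Qf k z) := by
          rw [h1, one_mul]
      _ = _ := by ring
  rw [← hr, h0]
  refine (Vco_csi hf hg hab).trans ?_
  have hG2 : Integrable (fun z : ℝ => Real.exp (-(3 / 4 * |z|)) * (deriv v z + th k z * v z) ^ 2) := by
    have h2 : Integrable (fun z : ℝ => (deriv v z + th k z * v z) ^ 2) := by
      have := Cl_pow hG 2
      exact Cl_int this (by push_cast; linarith) (by push_cast; linarith)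
    refine h2.mono' ((by fun_prop : Continuous (fun z : ℝ => Real.exp (-(3 / 4 * |z|)))).mul
      (hGc.pow 2)).aestronglyMeasurable (Eventually.of_forall fun z => ?_)
    rw [Real.norm_eq_abs, abs_of_nonneg (by positivity)]
    have : Real.exp (-(3 / 4 * |z|)) ≤ 1 := Real.exp_le_one_iff.2 (by have := abs_nonneg z; linarith)
    nlinarith [sq_nonneg (deriv v z + th k z * v z)]
  have hA : (∫ x in a..b, (Real.exp (-(3 / 8 * |x|)) * (deriv v x + th k x * v x)) ^ 2)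
      ≤ ∫ z, Real.exp (-(3 / 4 * |z|)) * (deriv v z + th k z * v z) ^ 2 := by
    have h3 : (fun x : ℝ => (Real.exp (-(3 / 8 * |x|)) * (deriv v x + th k x * v x)) ^ 2)
        = fun z => Real.exp (-(3 / 4 * |z|)) * (deriv v z + th k z * v z) ^ 2 := by
      ext z
      rw [mul_pow, sq (Real.exp _), ← Real.exp_add]
      congr 2; ring
    rw [h3, intervalIntegral.integral_of_le hab]
    exact setIntegral_le_integral hG2 (Eventually.of_forall fun z => by positivity)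
  have hB : (∫ x in a..b, (Real.exp (3 / 8 * |x|) / Qf k x) ^ 2)
      ≤ (b - a) * (Real.exp (11 / 4 * Y) / c ^ 2) := by
    have h4 : ∀ x ∈ Icc a b, (Real.exp (3 / 8 * |x|) / Qf k x) ^ 2 ≤ Real.exp (11 / 4 * Y) / c ^ 2 := by
      intro x hx
      have hx' := hY x hx
      have hQ := Qf_pos k x
      have h5 : Real.exp (3 / 8 * |x|) / Qf k x ≤ Real.exp (11 / 8 * Y) / c := by
        rw [div_le_div_iff₀ hQ hc]
        have h6 := hlo x
        have h7 : Real.exp (3 / 8 * |x|) ≤ Real.exp (11 / 8 * Y) * Real.exp (-|x|) := by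
          rw [← Real.exp_add]
          apply Real.exp_le_exp.2
          linarith
        calc Real.exp (3 / 8 * |x|) * c ≤ (Real.exp (11 / 8 * Y) * Real.exp (-|x|)) * c := by gcongr
          _ = Real.exp (11 / 8 * Y) * (c * Real.exp (-|x|)) := by ring
          _ ≤ Real.exp (11 / 8 * Y) * Qf k x := by gcongr
      have h8 : (Real.exp (11 / 8 * Y) / c) ^ 2 = Real.exp (11 / 4 * Y) / c ^ 2 := by
        rw [div_pow, sq (Real.exp _), ← Real.exp_add]
        congr 2; ring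
      rw [← h8]
      exact pow_le_pow_left₀ (by positivity) h5 2
    calc (∫ x in a..b, (Real.exp (3 / 8 * |x|) / Qf k x) ^ 2)
        ≤ ∫ x in a..b, Real.exp (11 / 4 * Y) / c ^ 2 := by
          apply intervalIntegral.integral_mono_on hab
          · exact (hg.pow 2).intervalIntegrable _ _
          · exact continuous_const.intervalIntegrable _ _
          · exact h4
      _ = _ := by rw [intervalIntegral.integral_const, smul_eq_mul]
  have hA0 : 0 ≤ (∫ x in a..b, (Real.exp (3 / 8 * |x|) / Qf k x) ^ 2) :=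
    intervalIntegral.integral_nonneg hab (fun x _ => sq_nonneg _)
  have hB0 : 0 ≤ ∫ z, Real.exp (-(3 / 4 * |z|)) * (deriv v z + th k z * v z) ^ 2 :=
    integral_nonneg fun z => by positivity
  exact mul_le_mul hA hB hA0 hB0

/-- the difference `v - (v/Q)(0) Q` -/
theorem Vco_diff {k : ℕ} (hk : 1 ≤ k) : ∃ C : ℝ, 0 < C ∧
    ∀ (p q : ℝ) (v : ℝ → ℝ), 0 < p → 0 < q → Cl p q v → ∀ y,
      (v y - v 0 / Qf k 0 * Qf k y) ^ 2 ≤ C * Real.exp (7 / 8 * |y|) *
        ∫ z, Real.exp (-(3 / 4 * |z|)) * (deriv v z + th k z * v z) ^ 2 := by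
  obtain ⟨c, hc, hlo⟩ := Qf_lo hk
  obtain ⟨D, hD, hhi⟩ := Qf_hi hk
  refine ⟨8 * D ^ 2 / c ^ 2, by positivity, ?_⟩
  intro p q v hp hq hv y
  set J := ∫ z, Real.exp (-(3 / 4 * |z|)) * (deriv v z + th k z * v z) ^ 2 with hJ
  have hJ0 : 0 ≤ J := integral_nonneg fun z => by positivity
  have hkey : (v y / Qf k y - v 0 / Qf k 0) ^ 2 ≤ J * (|y| * (Real.exp (11 / 4 * |y|) / c ^ 2)) := by
    rcases le_total 0 y with hy | hy
    · have := Vco_incr hk hc hlo hp hq hv hy (Y := |y|) (fun z hz => by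
        rw [abs_of_nonneg hz.1, abs_of_nonneg hy]; exact hz.2)
      rw [sub_zero] at this
      nth_rewrite 1 [abs_of_nonneg hy]
      exact this
    · have := Vco_incr hk hc hlo hp hq hv hy (Y := |y|) (fun z hz => by
        rw [abs_of_nonpos hz.2, abs_of_nonpos hy]; linarith [hz.1])
      rw [zero_sub] at this
      nth_rewrite 1 [abs_of_nonpos hy]
      calc (v y / Qf k y - v 0 / Qf k 0) ^ 2 = (v 0 / Qf k 0 - v y / Qf k y) ^ 2 := by ring
        _ ≤ _ := this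
  have hQ := Qf_pos k y
  have h1 : v y - v 0 / Qf k 0 * Qf k y = (v y / Qf k y - v 0 / Qf k 0) * Qf k y := by
    field_simp
  have h2 : Qf k y ^ 2 ≤ (D * Real.exp (-|y|)) ^ 2 := pow_le_pow_left₀ hQ.le (hhi y) 2
  have h3 : |y| ≤ 8 * Real.exp (1 / 8 * |y|) := by
    have := Real.add_one_le_exp (1 / 8 * |y|)
    linarith
  rw [h1, mul_pow]
  calc (v y / Qf k y - v 0 / Qf k 0) ^ 2 * Qf k y ^ 2
      ≤ (J * (|y| * (Real.exp (11 / 4 * |y|) / c ^ 2))) * (D * Real.exp (-|y|)) ^ 2 := by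
        apply mul_le_mul hkey h2 (by positivity)
        have := abs_nonneg y
        positivity
    _ ≤ (J * ((8 * Real.exp (1 / 8 * |y|)) * (Real.exp (11 / 4 * |y|) / c ^ 2))) * (D * Real.exp (-|y|)) ^ 2 := by
        gcongr
    _ = 8 * D ^ 2 / c ^ 2 * (Real.exp (1 / 8 * |y|) * Real.exp (11 / 4 * |y|) * (Real.exp (-|y|) * Real.exp (-|y|))) * J := by
        ring
    _ = 8 * D ^ 2 / c ^ 2 * Real.exp (7 / 8 * |y|) * J := by
        rw [← Real.exp_add, ← Real.exp_add, ← Real.exp_add]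
        congr 3; ring

/-- the estimate with the weight `e^{-3|y|/4}` -/
theorem Vco_main {k : ℕ} (hk : 5 ≤ k) : ∃ C : ℝ, 0 < C ∧
    ∀ (p q : ℝ) (v : ℝ → ℝ), 0 < p → 0 < q → Cl p q v →
    ∫ y, (1 + k * |y|) * Qf k y ^ k * (v y) ^ 2 ≤
      C * ((ip v (Lam k (Qf k))) ^ 2 +
        ∫ z, Real.exp (-(3 / 4 * |z|)) * (deriv v z + th k z * v z) ^ 2) := by
  have hk1 : 1 ≤ k := by omega
  obtain ⟨C1, hC1, hdiff⟩ := Vco_diff hk1
  obtain ⟨D, hD, hhi⟩ := Qf_hi hk1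
  obtain ⟨E, hE, hLam⟩ := Cl_bnd (Cl_LamQ hk1 (c := 9 / 10) (by norm_num))
  set m := sc k * ∫ y, (Qf k y) ^ 2 with hm
  have hm0 : 0 < m := mul_pos (sc_pos hk) (Q2_pos hk1)
  set M := ∫ y, bd (37 / 80) (37 / 80) y with hM
  have hM0 : 0 ≤ M := integral_nonneg fun y => (bd_pos _ _ _).le
  set N := ∫ y, bd 1 1 y with hN
  have hN0 : 0 ≤ N := integral_nonneg fun y => (bd_pos _ _ _).le
  set K := 2 * (k : ℝ) * D ^ k * (D ^ 2 + C1) with hK
  have hK0 : 0 ≤ K := by positivity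
  refine ⟨K * N * (2 / m ^ 2 + 2 * C1 * E ^ 2 * M ^ 2 / m ^ 2 + 1) + 1, by positivity, ?_⟩
  intro p q v hp hq hv
  set J := ∫ z, Real.exp (-(3 / 4 * |z|)) * (deriv v z + th k z * v z) ^ 2 with hJ
  have hJ0 : 0 ≤ J := integral_nonneg fun z => by positivity
  set q0 := v 0 / Qf k 0 with hq0
  have hvc := Cl_cont hv
  have hQc := Cl_cont (Cl_Qf hk1)
  have hLc := Cl_cont (Cl_LamQ hk1 (c := 9 / 10) (by norm_num))
  -- bound for the difference
  have hd : ∀ y, (v y - q0 * Qf k y) ^ 2 ≤ C1 * Real.exp (7 / 8 * |y|) * J :=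
    fun y => hdiff p q v hp hq hv y
  set S := √(C1 * J) with hS
  have hS2 : S ^ 2 = C1 * J := Real.sq_sqrt (by positivity)
  have hS0 : 0 ≤ S := Real.sqrt_nonneg _
  have hd' : ∀ y, |v y - q0 * Qf k y| ≤ S * Real.exp (7 / 16 * |y|) := by
    intro y
    apply abs_le_of_sq_le_sq _ (by positivity)
    rw [mul_pow, hS2, sq (Real.exp _), ← Real.exp_add]
    have : 7 / 16 * |y| + 7 / 16 * |y| = 7 / 8 * |y| := by ring
    rw [this]
    linarith [hd y]
  -- the pairing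
  have hdL : |∫ y, (v y - q0 * Qf k y) * Lam k (Qf k) y| ≤ S * E * M := by
    have hpt : ∀ y, ‖(v y - q0 * Qf k y) * Lam k (Qf k) y‖ ≤ S * E * bd (37 / 80) (37 / 80) y := by
      intro y
      rw [norm_mul, Real.norm_eq_abs, Real.norm_eq_abs]
      have h1 := hLam y
      rw [bd_abs] at h1
      calc |v y - q0 * Qf k y| * |Lam k (Qf k) y|
          ≤ (S * Real.exp (7 / 16 * |y|)) * (E * Real.exp (-(9 / 10 * |y|))) :=
            mul_le_mul (hd' y) h1 (abs_nonneg _) (by positivity)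
        _ = S * E * (Real.exp (7 / 16 * |y|) * Real.exp (-(9 / 10 * |y|))) := by ring
        _ = S * E * bd (37 / 80) (37 / 80) y := by
            rw [← Real.exp_add, bd_abs]
            congr 2; ring
    have hb := norm_integral_le_of_norm_le ((bd_int (p := 37 / 80) (q := 37 / 80) (by norm_num)
      (by norm_num)).const_mul (S * E)) (Eventually.of_forall hpt)
    rw [integral_const_mul, Real.norm_eq_abs] at hb
    exact hb
  have hsplit : ip v (Lam k (Qf k)) = q0 * (-m) + ∫ y, (v y - q0 * Qf k y) * Lam k (Qf k) y := by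
    have h1 : ip (Lam k (Qf k)) (Qf k) = -m := by rw [ip_LamQ_Q hk1, hm]; ring
    have hvi : Integrable (fun y => v y * Lam k (Qf k) y) :=
      Cl_int (Cl_mul hv (Cl_LamQ hk1 (c := 9 / 10) (by norm_num))) (by linarith) (by linarith)
    have hQi : Integrable (fun y => Lam k (Qf k) y * Qf k y) :=
      Cl_int (Cl_mul (Cl_LamQ hk1 (c := 9 / 10) (by norm_num)) (Cl_Qf hk1)) (by norm_num) (by norm_num)
    rw [← h1]
    unfold ip
    rw [← integral_const_mul, ← integral_add (hQi.const_mul q0)]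
    · congr 1
      ext y
      ring
    · have h2 : (fun y => (v y - q0 * Qf k y) * Lam k (Qf k) y)
          = fun y => v y * Lam k (Qf k) y - q0 * (Lam k (Qf k) y * Qf k y) := by
        ext y; ring
      rw [h2]
      exact hvi.sub (hQi.const_mul q0)
  set X := ip v (Lam k (Qf k)) with hX
  set Z := ∫ y, (v y - q0 * Qf k y) * Lam k (Qf k) y with hZ
  have hZ2 : Z ^ 2 ≤ C1 * J * E ^ 2 * M ^ 2 := by
    have h1 : Z ^ 2 ≤ (S * E * M) ^ 2 := by
      rw [← sq_abs Z]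
      exact pow_le_pow_left₀ (abs_nonneg _) hdL 2
    calc Z ^ 2 ≤ (S * E * M) ^ 2 := h1
      _ = S ^ 2 * E ^ 2 * M ^ 2 := by ring
      _ = _ := by rw [hS2]
  have hq02 : q0 ^ 2 ≤ 2 / m ^ 2 * X ^ 2 + 2 * C1 * E ^ 2 * M ^ 2 / m ^ 2 * J := by
    have h1 : q0 * m = Z - X := by linarith
    have h2 : q0 ^ 2 * m ^ 2 ≤ 2 * X ^ 2 + 2 * Z ^ 2 := by
      have : q0 ^ 2 * m ^ 2 = (Z - X) ^ 2 := by rw [← h1]; ring
      rw [this]; (first | linarith only [sq_nonneg (Z + X)] | nlinarith only [sq_nonneg (Z + X)])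
    have h3 : q0 ^ 2 = (q0 ^ 2 * m ^ 2) / m ^ 2 := by field_simp
    rw [h3]
    calc (q0 ^ 2 * m ^ 2) / m ^ 2 ≤ (2 * X ^ 2 + 2 * (C1 * J * E ^ 2 * M ^ 2)) / m ^ 2 := by
          gcongr
          linarith
      _ = _ := by ring
  -- pointwise bound of the integrand
  have hpt : ∀ y, (1 + k * |y|) * Qf k y ^ k * (v y) ^ 2 ≤ K * (q0 ^ 2 + J) * bd 1 1 y := by
    intro y
    have hQ := Qf_pos k y
    have hy0 := abs_nonneg y
    have hk5 : (5 : ℝ) ≤ k := by exact_mod_cast hk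
    have h1 : Qf k y ^ k ≤ D ^ k * Real.exp (-(k * |y|)) := by
      calc Qf k y ^ k ≤ (D * Real.exp (-|y|)) ^ k := pow_le_pow_left₀ hQ.le (hhi y) k
        _ = D ^ k * Real.exp (-(k * |y|)) := by
            rw [mul_pow, ← Real.exp_nat_mul]
            congr 2; ring
    have h2 : (1 + k * |y|) ≤ k * Real.exp |y| := by
      have := Real.add_one_le_exp |y|
      (first | linarith only [hk5, this] | nlinarith only [hk5, this])
    have h3 : (1 + k * |y|) * Qf k y ^ k ≤ k * D ^ k * Real.exp (-(4 * |y|)) := by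
      calc (1 + k * |y|) * Qf k y ^ k ≤ (k * Real.exp |y|) * (D ^ k * Real.exp (-(k * |y|))) :=
            mul_le_mul h2 h1 (by positivity) (by positivity)
        _ = k * D ^ k * (Real.exp |y| * Real.exp (-(k * |y|))) := by ring
        _ ≤ k * D ^ k * Real.exp (-(4 * |y|)) := by
            rw [← Real.exp_add]
            gcongr
            (first | linarith only [hk5, hy0] | nlinarith only [hk5, hy0])
    have h4 : Qf k y ^ 2 ≤ D ^ 2 := by
      have : Qf k y ≤ D := by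
        have h5 := hhi y
        have : Real.exp (-|y|) ≤ 1 := Real.exp_le_one_iff.2 (by linarith)
        (first | linarith only [h5, hD, this] | nlinarith only [h5, hD, this])
      exact pow_le_pow_left₀ hQ.le this 2
    have h5 : v y ^ 2 ≤ 2 * q0 ^ 2 * D ^ 2 + 2 * (C1 * Real.exp (7 / 8 * |y|) * J) := by
      have h6 := hd y
      have h7 : v y ^ 2 ≤ 2 * (q0 * Qf k y) ^ 2 + 2 * (v y - q0 * Qf k y) ^ 2 := by
        (first | linarith only [sq_nonneg (v y - 2 * (q0 * Qf k y))] | nlinarith only [sq_nonneg (v y - 2 * (q0 * Qf k y))])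
      have h8 : (q0 * Qf k y) ^ 2 ≤ q0 ^ 2 * D ^ 2 := by
        rw [mul_pow]; gcongr
      linarith
    have he : 1 ≤ Real.exp (7 / 8 * |y|) := Real.one_le_exp (by positivity)
    have h9 : v y ^ 2 ≤ 2 * (D ^ 2 + C1) * (q0 ^ 2 + J) * Real.exp (7 / 8 * |y|) := by
      have h10 : 2 * q0 ^ 2 * D ^ 2 ≤ 2 * q0 ^ 2 * D ^ 2 * Real.exp (7 / 8 * |y|) :=
        le_mul_of_one_le_right (by positivity) he
      have h11 : 0 ≤ 2 * D ^ 2 * J * Real.exp (7 / 8 * |y|) := by positivity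
      have h12 : 0 ≤ 2 * C1 * q0 ^ 2 * Real.exp (7 / 8 * |y|) := by positivity
      (first | linarith only [h10, h11, h12, h5] | nlinarith only [h10, h11, h12, h5])
    calc (1 + k * |y|) * Qf k y ^ k * (v y) ^ 2
        ≤ (k * D ^ k * Real.exp (-(4 * |y|))) *
          (2 * (D ^ 2 + C1) * (q0 ^ 2 + J) * Real.exp (7 / 8 * |y|)) :=
          mul_le_mul h3 h9 (by positivity) (by positivity)
      _ = K * (q0 ^ 2 + J) * (Real.exp (-(4 * |y|)) * Real.exp (7 / 8 * |y|)) := by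
          rw [hK]; ring
      _ ≤ K * (q0 ^ 2 + J) * bd 1 1 y := by
          rw [← Real.exp_add, bd_abs]
          gcongr
          linarith
  have hfin : ∫ y, (1 + k * |y|) * Qf k y ^ k * (v y) ^ 2 ≤ K * (q0 ^ 2 + J) * N := by
    have h1 := integral_mono_of_nonneg (Eventually.of_forall (fun y => by
        have hQ := Qf_pos k y
        have hy0 := abs_nonneg y
        show (0 : ℝ) ≤ (1 + k * |y|) * Qf k y ^ k * (v y) ^ 2
        positivity))
      ((bd_int (p := 1) (q := 1) one_pos one_pos).const_mul (K * (q0 ^ 2 + J)))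
      (Eventually.of_forall hpt)
    rw [integral_const_mul] at h1
    exact h1
  refine hfin.trans ?_
  have hKN : 0 ≤ K * N := by positivity
  have hX2 : 0 ≤ X ^ 2 := sq_nonneg _
  have ha : 0 ≤ 2 / m ^ 2 := by positivity
  have hb : 0 ≤ 2 * C1 * E ^ 2 * M ^ 2 / m ^ 2 := by positivity
  calc K * (q0 ^ 2 + J) * N = K * N * (q0 ^ 2 + J) := by ring
    _ ≤ K * N * ((2 / m ^ 2 * X ^ 2 + 2 * C1 * E ^ 2 * M ^ 2 / m ^ 2 * J) + J) := by gcongr
    _ ≤ K * N * ((2 / m ^ 2 + 2 * C1 * E ^ 2 * M ^ 2 / m ^ 2 + 1) * (X ^ 2 + J)) := by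
        apply mul_le_mul_of_nonneg_left _ hKN
        (first | linarith only [mul_nonneg ha hJ0, mul_nonneg hb hX2, hJ0, hX2, ha, hb] | nlinarith only [mul_nonneg ha hJ0, mul_nonneg hb hX2, hJ0, hX2, ha, hb])
    _ ≤ _ := by (first | linarith only [hJ0] | nlinarith only [hJ0])

/-- the weight `A t' + w` dominates `e^{-3|y|/4}` -/
theorem Vco_wt (k : ℕ) (hk : 1 ≤ k) {ε : ℝ} (hε : 0 < ε) : ∃ A : ℝ, 0 < A ∧
    ∀ γ : ℝ, 0 < γ → γ ≤ 1 / 8 → ∀ y,
      Real.exp (-(3 / 4 * |y|)) ≤ ε * (A * deriv (th k) y + se2 γ y) := by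
  have hk' : (0 : ℝ) < k := by exact_mod_cast hk
  refine ⟨Real.exp (k * (2 / ε)) * (2 / k) / ε, by positivity, ?_⟩
  intro γ hγ hγ' y
  have hth : deriv (th k) y = (k : ℝ) / 2 * (1 - th k y ^ 2) := (th_hd k y).deriv
  have h1 : Real.exp (-(k * |y|)) ≤ 1 - th k y ^ 2 := by
    have := se2_lo ((k : ℝ) / 2) y
    rw [se2_eq, ← th_eq] at this
    convert this using 3
    rw [abs_mul, abs_of_pos (by positivity : (0 : ℝ) < k / 2)]
    ring
  have h2 : Real.exp (-(1 / 4 * |y|)) ≤ se2 γ y := by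
    refine le_trans ?_ (se2_lo γ y)
    apply Real.exp_le_exp.2
    rw [abs_mul, abs_of_pos hγ]
    nlinarith [abs_nonneg y]
  have hw := se2_pos γ y
  have ht : 0 ≤ deriv (th k) y := by
    rw [hth]
    have : 0 < 1 - th k y ^ 2 := lt_of_lt_of_le (Real.exp_pos _) h1
    positivity
  rcases le_total |y| (2 / ε) with hy | hy
  · have h3 : 1 ≤ ε * ((Real.exp (k * (2 / ε)) * (2 / k) / ε) * deriv (th k) y) := by
      have h4 : ε * ((Real.exp (k * (2 / ε)) * (2 / k) / ε) * deriv (th k) y)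
          = Real.exp (k * (2 / ε)) * (1 - th k y ^ 2) := by
        rw [hth]; field_simp
      rw [h4]
      calc (1 : ℝ) ≤ Real.exp (k * (2 / ε)) * Real.exp (-(k * |y|)) := by
            rw [← Real.exp_add]
            apply Real.one_le_exp
            have : (k : ℝ) * |y| ≤ k * (2 / ε) := by gcongr
            linarith
        _ ≤ _ := by gcongr
    have h5 : Real.exp (-(3 / 4 * |y|)) ≤ 1 :=
      Real.exp_le_one_iff.2 (by have := abs_nonneg y; linarith)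
    have h6 : 0 ≤ ε * se2 γ y := by positivity
    nlinarith
  · have h3 : 1 ≤ ε * Real.exp (1 / 2 * |y|) := by
      have h4 := Real.add_one_le_exp (1 / 2 * |y|)
      have h5 : 1 / ε ≤ 1 / 2 * |y| := by
        have : 1 / ε = 1 / 2 * (2 / ε) := by ring
        rw [this]; gcongr
      have h6 : 1 / ε ≤ Real.exp (1 / 2 * |y|) := by linarith
      calc (1 : ℝ) = ε * (1 / ε) := by field_simp
        _ ≤ _ := by gcongr
    have h7 : Real.exp (-(3 / 4 * |y|)) ≤ ε * Real.exp (-(1 / 4 * |y|)) := by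
      have h8 : Real.exp (-(1 / 4 * |y|)) = Real.exp (1 / 2 * |y|) * Real.exp (-(3 / 4 * |y|)) := by
        rw [← Real.exp_add]; congr 1; ring
      rw [h8, ← mul_assoc]
      have := Real.exp_pos (-(3 / 4 * |y|))
      nlinarith
    have h9 : 0 ≤ (Real.exp (k * (2 / ε)) * (2 / k) / ε) * deriv (th k) y := by positivity
    calc Real.exp (-(3 / 4 * |y|)) ≤ ε * Real.exp (-(1 / 4 * |y|)) := h7
      _ ≤ ε * se2 γ y := by gcongr
      _ ≤ _ := by
          apply mul_le_mul_of_nonneg_left _ hε.le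
          linarith

theorem vir_local (k : ℕ) (hk : 5 ≤ k) (ν : ℝ) (hν : 0 < ν) : ∃ C : ℝ, 0 < C ∧
    ∀ γ : ℝ, 0 < γ → γ ≤ 1 / 8 → ∀ (p q : ℝ) (v : ℝ → ℝ), 0 < p → 0 < q → Cl p q v →
    ∫ y, (1 + k * |y|) * Qf k y ^ k * (v y) ^ 2 ≤
      C * ((ip v (Lam k (Qf k))) ^ 2 + ∫ y, deriv (th k) y * (deriv v y + th k y * v y) ^ 2)
        + ν * ∫ y, se2 γ y * ((v y) ^ 2 + (deriv v y) ^ 2) := by
  have hk1 : 1 ≤ k := by omega
  obtain ⟨C1, hC1, hmain⟩ := Vco_main hk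
  obtain ⟨A, hA, hwt⟩ := Vco_wt k hk1 (ε := ν / (2 * C1)) (by positivity)
  refine ⟨C1 + ν / 2 * A, by positivity, ?_⟩
  intro γ hγ hγ' p q v hp hq hv
  refine (hmain p q v hp hq hv).trans ?_
  have hG := Vco_ClG k hv
  have hG2 := Cl_pow hG 2
  have hthd : deriv (th k) = fun y => (k : ℝ) / 2 * (1 - th k y ^ 2) := by
    ext y; exact (th_hd k y).deriv
  have hClt : Cl 0 0 (deriv (th k)) := Cl_der (Cl_th k)
  have hClw : Cl 0 0 (se2 γ) := Cl_mono (Cl_se2 hγ) (by linarith) (by linarith)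
  have hi1 : Integrable (fun y => deriv (th k) y * (deriv v y + th k y * v y) ^ 2) :=
    Cl_int (Cl_mul0 hClt hG2) (by push_cast; linarith) (by push_cast; linarith)
  have hi2 : Integrable (fun y => se2 γ y * (deriv v y + th k y * v y) ^ 2) :=
    Cl_int (Cl_mul0 hClw hG2) (by push_cast; linarith) (by push_cast; linarith)
  have hi3 : Integrable (fun y => se2 γ y * ((v y) ^ 2 + (deriv v y) ^ 2)) := by
    have := Cl_mul0 hClw (Cl_add (Cl_pow hv 2) (Cl_pow (Cl_der hv) 2))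
    exact Cl_int this (by push_cast; linarith) (by push_cast; linarith)
  have hJ : (∫ z, Real.exp (-(3 / 4 * |z|)) * (deriv v z + th k z * v z) ^ 2) ≤
      ν / (2 * C1) * (A * (∫ y, deriv (th k) y * (deriv v y + th k y * v y) ^ 2)
        + 2 * ∫ y, se2 γ y * ((v y) ^ 2 + (deriv v y) ^ 2)) := by
    rw [← integral_const_mul, ← integral_const_mul, ← integral_add (hi1.const_mul A) (hi3.const_mul 2),
      ← integral_const_mul]
    apply integral_mono_of_nonneg (Eventually.of_forall fun z => by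
      show (0 : ℝ) ≤ Real.exp (-(3 / 4 * |z|)) * (deriv v z + th k z * v z) ^ 2
      positivity)
    · exact ((hi1.const_mul A).add (hi3.const_mul 2)).const_mul _
    · refine Eventually.of_forall fun z => ?_
      show Real.exp (-(3 / 4 * |z|)) * (deriv v z + th k z * v z) ^ 2 ≤
        ν / (2 * C1) * (A * (deriv (th k) z * (deriv v z + th k z * v z) ^ 2)
          + 2 * (se2 γ z * ((v z) ^ 2 + (deriv v z) ^ 2)))
      have hw := se2_pos γ z
      have h1 := hwt γ hγ hγ' z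
      have h2 : (deriv v z + th k z * v z) ^ 2 ≤ 2 * ((v z) ^ 2 + (deriv v z) ^ 2) := by
        have ht := th_abs_lt k z
        have ht2 : th k z ^ 2 ≤ 1 := by
          rw [← sq_abs]
          have := abs_nonneg (th k z)
          nlinarith
        have h3 : (th k z * v z) ^ 2 ≤ v z ^ 2 := by
          rw [mul_pow]
          nlinarith [sq_nonneg (v z)]
        nlinarith [sq_nonneg (deriv v z - th k z * v z)]
      calc Real.exp (-(3 / 4 * |z|)) * (deriv v z + th k z * v z) ^ 2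
          ≤ (ν / (2 * C1) * (A * deriv (th k) z + se2 γ z)) * (deriv v z + th k z * v z) ^ 2 := by
            gcongr
        _ = ν / (2 * C1) * (A * (deriv (th k) z * (deriv v z + th k z * v z) ^ 2)
            + se2 γ z * (deriv v z + th k z * v z) ^ 2) := by ring
        _ ≤ ν / (2 * C1) * (A * (deriv (th k) z * (deriv v z + th k z * v z) ^ 2)
            + se2 γ z * (2 * ((v z) ^ 2 + (deriv v z) ^ 2))) := by gcongr
        _ = _ := by ring
  have hI1 : 0 ≤ ∫ y, deriv (th k) y * (deriv v y + th k y * v y) ^ 2 := by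
    apply integral_nonneg
    intro y
    have ht := th_abs_lt k y
    have ht2 : th k y ^ 2 ≤ 1 := by
      rw [← sq_abs]
      have := abs_nonneg (th k y)
      nlinarith
    have : 0 ≤ deriv (th k) y := by
      rw [hthd]
      have : 0 ≤ 1 - th k y ^ 2 := by linarith
      positivity
    show (0 : ℝ) ≤ _
    positivity
  set I1 := ∫ y, deriv (th k) y * (deriv v y + th k y * v y) ^ 2 with hI1d
  set I2 := ∫ y, se2 γ y * ((v y) ^ 2 + (deriv v y) ^ 2) with hI2d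
  set J := ∫ z, Real.exp (-(3 / 4 * |z|)) * (deriv v z + th k z * v z) ^ 2 with hJd
  set X := ip v (Lam k (Qf k)) with hX
  have h5 : C1 * (ν / (2 * C1) * (A * I1 + 2 * I2)) = ν / 2 * A * I1 + ν * I2 := by
    field_simp
  have h6 : C1 * J ≤ ν / 2 * A * I1 + ν * I2 := by
    rw [← h5]; gcongr
  have h7 : 0 ≤ ν / 2 * A * X ^ 2 := by positivity
  nlinarith [mul_nonneg hC1.le hI1]

end H98KB

end S_H98_KB_Vco

section S_H98_KC_Vka

/-!
# Vka (MP_95be7d_S4): the local norm is controlled by the virial form, constraint `Q''` (variant of `KB/Vco.lean`)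

Same proof as `vir_local` with `k = 4` and `ΛQ` replaced by `Q''`.  `q=v/Q`, `Q q' = v'+tv` (`t = th 4`, `Q' = -tQ`), `T(y)=∫_y^∞ Q Q''`
for `y>0`; `QQ''` is even, so `(v,Q'')=2T(0)q(0)+∫sgn(y)T(|y|)q'(y)dy`, `2T(0)=∫QQ''=-∫Q'² ≠ 0` (`ip_Qdd_Q`, `Qd2_pos`), `|T(y)| ≤ C e^{-2y}`.
Everything else (bound of `∫(1+4|y|)Q⁴v²` by `q(0)²` and `∫(int_0^{|y|}|q'|)²...`, interpolation between the weights `t'Q²` and `se2 γ Q²`) is
unchanged: several auxiliary lemmas of `KB/Vco.lean` (`Vco_csi`, `Vco_ClG`, `Vco_rhd`, `Vco_incr`, `Vco_diff`, `Vco_wt`, imported) can be used as they are;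
only the analogue of `Vco_main` (with `hk : 5 ≤ k` and `ΛQ`) has to be redone for `k = 4`, `Q''`.
-/

open MeasureTheory Filter Topology Set
open scoped ContDiff

noncomputable section

namespace H98KC

open H98KB H68KC

/-- the estimate with the weight `e^{-3|y|/4}` -/
theorem Vka_main {k : ℕ} (hk : 4 ≤ k) {L : ℝ → ℝ} (hL : Cl (9 / 10) (9 / 10) L) {m : ℝ}
    (hm0 : 0 < m) (hLm : ip L (Qf k) = -m) : ∃ C : ℝ, 0 < C ∧
    ∀ (p q : ℝ) (v : ℝ → ℝ), 0 < p → 0 < q → Cl p q v →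
    ∫ y, (1 + k * |y|) * Qf k y ^ k * (v y) ^ 2 ≤
      C * ((ip v L) ^ 2 +
        ∫ z, Real.exp (-(3 / 4 * |z|)) * (deriv v z + th k z * v z) ^ 2) := by
  have hk1 : 1 ≤ k := by omega
  obtain ⟨C1, hC1, hdiff⟩ := Vco_diff hk1
  obtain ⟨D, hD, hhi⟩ := Qf_hi hk1
  obtain ⟨E, hE, hLam⟩ := Cl_bnd hL
  set M := ∫ y, bd (37 / 80) (37 / 80) y with hM
  have hM0 : 0 ≤ M := integral_nonneg fun y => (bd_pos _ _ _).le
  set N := ∫ y, bd 1 1 y with hN
  have hN0 : 0 ≤ N := integral_nonneg fun y => (bd_pos _ _ _).le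
  set K := 2 * (k : ℝ) * D ^ k * (D ^ 2 + C1) with hK
  have hK0 : 0 ≤ K := by positivity
  refine ⟨K * N * (2 / m ^ 2 + 2 * C1 * E ^ 2 * M ^ 2 / m ^ 2 + 1) + 1, by positivity, ?_⟩
  intro p q v hp hq hv
  set J := ∫ z, Real.exp (-(3 / 4 * |z|)) * (deriv v z + th k z * v z) ^ 2 with hJ
  have hJ0 : 0 ≤ J := integral_nonneg fun z => by positivity
  set q0 := v 0 / Qf k 0 with hq0
  have hvc := Cl_cont hv
  have hQc := Cl_cont (Cl_Qf hk1)
  have hLc := Cl_cont hL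
  -- bound for the difference
  have hd : ∀ y, (v y - q0 * Qf k y) ^ 2 ≤ C1 * Real.exp (7 / 8 * |y|) * J :=
    fun y => hdiff p q v hp hq hv y
  set S := √(C1 * J) with hS
  have hS2 : S ^ 2 = C1 * J := Real.sq_sqrt (by positivity)
  have hS0 : 0 ≤ S := Real.sqrt_nonneg _
  have hd' : ∀ y, |v y - q0 * Qf k y| ≤ S * Real.exp (7 / 16 * |y|) := by
    intro y
    apply abs_le_of_sq_le_sq _ (by positivity)
    rw [mul_pow, hS2, sq (Real.exp _), ← Real.exp_add]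
    have : 7 / 16 * |y| + 7 / 16 * |y| = 7 / 8 * |y| := by ring
    rw [this]
    linarith [hd y]
  -- the pairing
  have hdL : |∫ y, (v y - q0 * Qf k y) * L y| ≤ S * E * M := by
    have hpt : ∀ y, ‖(v y - q0 * Qf k y) * L y‖ ≤ S * E * bd (37 / 80) (37 / 80) y := by
      intro y
      rw [norm_mul, Real.norm_eq_abs, Real.norm_eq_abs]
      have h1 := hLam y
      rw [bd_abs] at h1
      calc |v y - q0 * Qf k y| * |L y|
          ≤ (S * Real.exp (7 / 16 * |y|)) * (E * Real.exp (-(9 / 10 * |y|))) :=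
            mul_le_mul (hd' y) h1 (abs_nonneg _) (by positivity)
        _ = S * E * (Real.exp (7 / 16 * |y|) * Real.exp (-(9 / 10 * |y|))) := by ring
        _ = S * E * bd (37 / 80) (37 / 80) y := by
            rw [← Real.exp_add, bd_abs]
            congr 2; ring
    have hb := norm_integral_le_of_norm_le ((bd_int (p := 37 / 80) (q := 37 / 80) (by norm_num)
      (by norm_num)).const_mul (S * E)) (Eventually.of_forall hpt)
    rw [integral_const_mul, Real.norm_eq_abs] at hb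
    exact hb
  have hsplit : ip v L = q0 * (-m) + ∫ y, (v y - q0 * Qf k y) * L y := by
    have h1 : ip L (Qf k) = -m := hLm
    have hvi : Integrable (fun y => v y * L y) :=
      Cl_int (Cl_mul hv hL) (by linarith) (by linarith)
    have hQi : Integrable (fun y => L y * Qf k y) :=
      Cl_int (Cl_mul hL (Cl_Qf hk1)) (by norm_num) (by norm_num)
    rw [← h1]
    unfold ip
    rw [← integral_const_mul, ← integral_add (hQi.const_mul q0)]
    · congr 1
      ext y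
      ring
    · have h2 : (fun y => (v y - q0 * Qf k y) * L y)
          = fun y => v y * L y - q0 * (L y * Qf k y) := by
        ext y; ring
      rw [h2]
      exact hvi.sub (hQi.const_mul q0)
  set X := ip v L with hX
  set Z := ∫ y, (v y - q0 * Qf k y) * L y with hZ
  have hZ2 : Z ^ 2 ≤ C1 * J * E ^ 2 * M ^ 2 := by
    have h1 : Z ^ 2 ≤ (S * E * M) ^ 2 := by
      rw [← sq_abs Z]
      exact pow_le_pow_left₀ (abs_nonneg _) hdL 2
    calc Z ^ 2 ≤ (S * E * M) ^ 2 := h1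
      _ = S ^ 2 * E ^ 2 * M ^ 2 := by ring
      _ = _ := by rw [hS2]
  have hq02 : q0 ^ 2 ≤ 2 / m ^ 2 * X ^ 2 + 2 * C1 * E ^ 2 * M ^ 2 / m ^ 2 * J := by
    have h1 : q0 * m = Z - X := by linarith
    have h2 : q0 ^ 2 * m ^ 2 ≤ 2 * X ^ 2 + 2 * Z ^ 2 := by
      have : q0 ^ 2 * m ^ 2 = (Z - X) ^ 2 := by rw [← h1]; ring
      rw [this]; (first | linarith only [sq_nonneg (Z + X)] | nlinarith only [sq_nonneg (Z + X)])
    have h3 : q0 ^ 2 = (q0 ^ 2 * m ^ 2) / m ^ 2 := by field_simp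
    rw [h3]
    calc (q0 ^ 2 * m ^ 2) / m ^ 2 ≤ (2 * X ^ 2 + 2 * (C1 * J * E ^ 2 * M ^ 2)) / m ^ 2 := by
          gcongr
          linarith
      _ = _ := by ring
  -- pointwise bound of the integrand
  have hpt : ∀ y, (1 + k * |y|) * Qf k y ^ k * (v y) ^ 2 ≤ K * (q0 ^ 2 + J) * bd 1 1 y := by
    intro y
    have hQ := Qf_pos k y
    have hy0 := abs_nonneg y
    have hk5 : (4 : ℝ) ≤ k := by exact_mod_cast hk
    have h1 : Qf k y ^ k ≤ D ^ k * Real.exp (-(k * |y|)) := by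
      calc Qf k y ^ k ≤ (D * Real.exp (-|y|)) ^ k := pow_le_pow_left₀ hQ.le (hhi y) k
        _ = D ^ k * Real.exp (-(k * |y|)) := by
            rw [mul_pow, ← Real.exp_nat_mul]
            congr 2; ring
    have h2 : (1 + k * |y|) ≤ k * Real.exp |y| := by
      have := Real.add_one_le_exp |y|
      (first | linarith only [hk5, this] | nlinarith only [hk5, this])
    have h3 : (1 + k * |y|) * Qf k y ^ k ≤ k * D ^ k * Real.exp (-(3 * |y|)) := by
      calc (1 + k * |y|) * Qf k y ^ k ≤ (k * Real.exp |y|) * (D ^ k * Real.exp (-(k * |y|))) :=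
            mul_le_mul h2 h1 (by positivity) (by positivity)
        _ = k * D ^ k * (Real.exp |y| * Real.exp (-(k * |y|))) := by ring
        _ ≤ k * D ^ k * Real.exp (-(3 * |y|)) := by
            rw [← Real.exp_add]
            gcongr
            (first | linarith only [hk5, hy0] | nlinarith only [hk5, hy0])
    have h4 : Qf k y ^ 2 ≤ D ^ 2 := by
      have : Qf k y ≤ D := by
        have h5 := hhi y
        have : Real.exp (-|y|) ≤ 1 := Real.exp_le_one_iff.2 (by linarith)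
        (first | linarith only [h5, hD, this] | nlinarith only [h5, hD, this])
      exact pow_le_pow_left₀ hQ.le this 2
    have h5 : v y ^ 2 ≤ 2 * q0 ^ 2 * D ^ 2 + 2 * (C1 * Real.exp (7 / 8 * |y|) * J) := by
      have h6 := hd y
      have h7 : v y ^ 2 ≤ 2 * (q0 * Qf k y) ^ 2 + 2 * (v y - q0 * Qf k y) ^ 2 := by
        (first | linarith only [sq_nonneg (v y - 2 * (q0 * Qf k y))] | nlinarith only [sq_nonneg (v y - 2 * (q0 * Qf k y))])
      have h8 : (q0 * Qf k y) ^ 2 ≤ q0 ^ 2 * D ^ 2 := by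
        rw [mul_pow]; gcongr
      linarith
    have he : 1 ≤ Real.exp (7 / 8 * |y|) := Real.one_le_exp (by positivity)
    have h9 : v y ^ 2 ≤ 2 * (D ^ 2 + C1) * (q0 ^ 2 + J) * Real.exp (7 / 8 * |y|) := by
      have h10 : 2 * q0 ^ 2 * D ^ 2 ≤ 2 * q0 ^ 2 * D ^ 2 * Real.exp (7 / 8 * |y|) :=
        le_mul_of_one_le_right (by positivity) he
      have h11 : 0 ≤ 2 * D ^ 2 * J * Real.exp (7 / 8 * |y|) := by positivity
      have h12 : 0 ≤ 2 * C1 * q0 ^ 2 * Real.exp (7 / 8 * |y|) := by positivity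
      (first | linarith only [h10, h11, h12, h5] | nlinarith only [h10, h11, h12, h5])
    calc (1 + k * |y|) * Qf k y ^ k * (v y) ^ 2
        ≤ (k * D ^ k * Real.exp (-(3 * |y|))) *
          (2 * (D ^ 2 + C1) * (q0 ^ 2 + J) * Real.exp (7 / 8 * |y|)) :=
          mul_le_mul h3 h9 (by positivity) (by positivity)
      _ = K * (q0 ^ 2 + J) * (Real.exp (-(3 * |y|)) * Real.exp (7 / 8 * |y|)) := by
          rw [hK]; ring
      _ ≤ K * (q0 ^ 2 + J) * bd 1 1 y := by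
          rw [← Real.exp_add, bd_abs]
          gcongr
          linarith
  have hfin : ∫ y, (1 + k * |y|) * Qf k y ^ k * (v y) ^ 2 ≤ K * (q0 ^ 2 + J) * N := by
    have h1 := integral_mono_of_nonneg (Eventually.of_forall (fun y => by
        have hQ := Qf_pos k y
        have hy0 := abs_nonneg y
        show (0 : ℝ) ≤ (1 + k * |y|) * Qf k y ^ k * (v y) ^ 2
        positivity))
      ((bd_int (p := 1) (q := 1) one_pos one_pos).const_mul (K * (q0 ^ 2 + J)))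
      (Eventually.of_forall hpt)
    rw [integral_const_mul] at h1
    exact h1
  refine hfin.trans ?_
  have hKN : 0 ≤ K * N := by positivity
  have hX2 : 0 ≤ X ^ 2 := sq_nonneg _
  have ha : 0 ≤ 2 / m ^ 2 := by positivity
  have hb : 0 ≤ 2 * C1 * E ^ 2 * M ^ 2 / m ^ 2 := by positivity
  calc K * (q0 ^ 2 + J) * N = K * N * (q0 ^ 2 + J) := by ring
    _ ≤ K * N * ((2 / m ^ 2 * X ^ 2 + 2 * C1 * E ^ 2 * M ^ 2 / m ^ 2 * J) + J) := by gcongr
    _ ≤ K * N * ((2 / m ^ 2 + 2 * C1 * E ^ 2 * M ^ 2 / m ^ 2 + 1) * (X ^ 2 + J)) := by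
        apply mul_le_mul_of_nonneg_left _ hKN
        (first | linarith only [mul_nonneg ha hJ0, mul_nonneg hb hX2, hJ0, hX2, ha, hb] | nlinarith only [mul_nonneg ha hJ0, mul_nonneg hb hX2, hJ0, hX2, ha, hb])
    _ ≤ _ := by (first | linarith only [hJ0] | nlinarith only [hJ0])

theorem Vka_loc (k : ℕ) (hk : 4 ≤ k) {L : ℝ → ℝ} (hL : Cl (9 / 10) (9 / 10) L) {m : ℝ}
    (hm0 : 0 < m) (hLm : ip L (Qf k) = -m) (ν : ℝ) (hν : 0 < ν) : ∃ C : ℝ, 0 < C ∧
    ∀ γ : ℝ, 0 < γ → γ ≤ 1 / 8 → ∀ (p q : ℝ) (v : ℝ → ℝ), 0 < p → 0 < q → Cl p q v →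
    ∫ y, (1 + k * |y|) * Qf k y ^ k * (v y) ^ 2 ≤
      C * ((ip v L) ^ 2 + ∫ y, deriv (th k) y * (deriv v y + th k y * v y) ^ 2)
        + ν * ∫ y, se2 γ y * ((v y) ^ 2 + (deriv v y) ^ 2) := by
  have hk1 : 1 ≤ k := by omega
  obtain ⟨C1, hC1, hmain⟩ := Vka_main hk hL hm0 hLm
  obtain ⟨A, hA, hwt⟩ := Vco_wt k hk1 (ε := ν / (2 * C1)) (by positivity)
  refine ⟨C1 + ν / 2 * A, by positivity, ?_⟩
  intro γ hγ hγ' p q v hp hq hv
  refine (hmain p q v hp hq hv).trans ?_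
  have hG := Vco_ClG k hv
  have hG2 := Cl_pow hG 2
  have hthd : deriv (th k) = fun y => (k : ℝ) / 2 * (1 - th k y ^ 2) := by
    ext y; exact (th_hd k y).deriv
  have hClt : Cl 0 0 (deriv (th k)) := Cl_der (Cl_th k)
  have hClw : Cl 0 0 (se2 γ) := Cl_mono (Cl_se2 hγ) (by linarith) (by linarith)
  have hi1 : Integrable (fun y => deriv (th k) y * (deriv v y + th k y * v y) ^ 2) :=
    Cl_int (Cl_mul0 hClt hG2) (by push_cast; linarith) (by push_cast; linarith)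
  have hi2 : Integrable (fun y => se2 γ y * (deriv v y + th k y * v y) ^ 2) :=
    Cl_int (Cl_mul0 hClw hG2) (by push_cast; linarith) (by push_cast; linarith)
  have hi3 : Integrable (fun y => se2 γ y * ((v y) ^ 2 + (deriv v y) ^ 2)) := by
    have := Cl_mul0 hClw (Cl_add (Cl_pow hv 2) (Cl_pow (Cl_der hv) 2))
    exact Cl_int this (by push_cast; linarith) (by push_cast; linarith)
  have hJ : (∫ z, Real.exp (-(3 / 4 * |z|)) * (deriv v z + th k z * v z) ^ 2) ≤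
      ν / (2 * C1) * (A * (∫ y, deriv (th k) y * (deriv v y + th k y * v y) ^ 2)
        + 2 * ∫ y, se2 γ y * ((v y) ^ 2 + (deriv v y) ^ 2)) := by
    rw [← integral_const_mul, ← integral_const_mul, ← integral_add (hi1.const_mul A) (hi3.const_mul 2),
      ← integral_const_mul]
    apply integral_mono_of_nonneg (Eventually.of_forall fun z => by
      show (0 : ℝ) ≤ Real.exp (-(3 / 4 * |z|)) * (deriv v z + th k z * v z) ^ 2
      positivity)
    · exact ((hi1.const_mul A).add (hi3.const_mul 2)).const_mul _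
    · refine Eventually.of_forall fun z => ?_
      show Real.exp (-(3 / 4 * |z|)) * (deriv v z + th k z * v z) ^ 2 ≤
        ν / (2 * C1) * (A * (deriv (th k) z * (deriv v z + th k z * v z) ^ 2)
          + 2 * (se2 γ z * ((v z) ^ 2 + (deriv v z) ^ 2)))
      have hw := se2_pos γ z
      have h1 := hwt γ hγ hγ' z
      have h2 : (deriv v z + th k z * v z) ^ 2 ≤ 2 * ((v z) ^ 2 + (deriv v z) ^ 2) := by
        have ht := th_abs_lt k z
        have ht2 : th k z ^ 2 ≤ 1 := by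
          rw [← sq_abs]
          have := abs_nonneg (th k z)
          nlinarith
        have h3 : (th k z * v z) ^ 2 ≤ v z ^ 2 := by
          rw [mul_pow]
          nlinarith [sq_nonneg (v z)]
        nlinarith [sq_nonneg (deriv v z - th k z * v z)]
      calc Real.exp (-(3 / 4 * |z|)) * (deriv v z + th k z * v z) ^ 2
          ≤ (ν / (2 * C1) * (A * deriv (th k) z + se2 γ z)) * (deriv v z + th k z * v z) ^ 2 := by
            gcongr
        _ = ν / (2 * C1) * (A * (deriv (th k) z * (deriv v z + th k z * v z) ^ 2)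
            + se2 γ z * (deriv v z + th k z * v z) ^ 2) := by ring
        _ ≤ ν / (2 * C1) * (A * (deriv (th k) z * (deriv v z + th k z * v z) ^ 2)
            + se2 γ z * (2 * ((v z) ^ 2 + (deriv v z) ^ 2))) := by gcongr
        _ = _ := by ring
  have hI1 : 0 ≤ ∫ y, deriv (th k) y * (deriv v y + th k y * v y) ^ 2 := by
    apply integral_nonneg
    intro y
    have ht := th_abs_lt k y
    have ht2 : th k y ^ 2 ≤ 1 := by
      rw [← sq_abs]
      have := abs_nonneg (th k y)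
      nlinarith
    have : 0 ≤ deriv (th k) y := by
      rw [hthd]
      have : 0 ≤ 1 - th k y ^ 2 := by linarith
      positivity
    show (0 : ℝ) ≤ _
    positivity
  set I1 := ∫ y, deriv (th k) y * (deriv v y + th k y * v y) ^ 2 with hI1d
  set I2 := ∫ y, se2 γ y * ((v y) ^ 2 + (deriv v y) ^ 2) with hI2d
  set J := ∫ z, Real.exp (-(3 / 4 * |z|)) * (deriv v z + th k z * v z) ^ 2 with hJd
  set X := ip v L with hX
  have h5 : C1 * (ν / (2 * C1) * (A * I1 + 2 * I2)) = ν / 2 * A * I1 + ν * I2 := by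
    field_simp
  have h6 : C1 * J ≤ ν / 2 * A * I1 + ν * I2 := by
    rw [← h5]; gcongr
  have h7 : 0 ≤ ν / 2 * A * X ^ 2 := by positivity
  (first | linarith only [mul_nonneg hC1.le hI1, h6, h7, hC1, hI1] | nlinarith only [mul_nonneg hC1.le hI1, h6, h7, hC1, hI1])

theorem vir_local4 (ν : ℝ) (hν : 0 < ν) : ∃ C : ℝ, 0 < C ∧
    ∀ γ : ℝ, 0 < γ → γ ≤ 1 / 8 → ∀ (p q : ℝ) (v : ℝ → ℝ), 0 < p → 0 < q → Cl p q v →
    ∫ y, (1 + 4 * |y|) * Qf 4 y ^ 4 * (v y) ^ 2 ≤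
      C * ((ip v (deriv (deriv (Qf 4)))) ^ 2 + Jn v)
        + ν * ∫ y, se2 γ y * ((v y) ^ 2 + (deriv v y) ^ 2) := by
  have hL : Cl (9 / 10) (9 / 10) (deriv (deriv (Qf 4))) :=
    Cl_mono (Cl_der (Cl_der (Cl_Qf (k := 4) (by norm_num)))) (by norm_num) (by norm_num)
  obtain ⟨C, hC, h⟩ := Vka_loc 4 (le_refl 4) hL (Qd2_pos (k := 4) (by norm_num))
    (ip_Qdd_Q (k := 4) (by norm_num)) ν hν
  refine ⟨C, hC, fun γ hγ hγ' p q v hp hq hv => ?_⟩
  have h1 := h γ hγ hγ' p q v hp hq hv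
  unfold Jn
  norm_num at h1
  exact h1

end H98KC

end

end S_H98_KC_Vka

section S_H98_KB_Vcp

/-!
# Vcp : coercivity of the virial form (Lemmas V2, V4; uses the statement of `Vco`)

V2: `W₂ = tanh(γy)`, `W₂' = γ w`, `|W₂'''| ≤ 4γ³ w`, `(W₂Q^k)' = γ w Q^k - k t tanh(γy) Q^k`,
`|(W₂Q^k)'| ≤ γ(1+k|y|)Q^k`.  For `γ ≤ 1/8`, `η ≥ 0`, `σ=ηγ`:
`Hf k (η W₂) v ≥ σ∫w((3/2)v'²+(3/8)v²) - (σ/2)∫(1+k|y|)Q^kv²`  (`(1/2)(1-4γ²) ≥ 3/8`).
V4: `Hf k ψ v = Hf k t v + Hf k (ηW₂) v = (3/2)J + ...`, `J = ∫t'(v'+tv)²` (`vir_tanh`).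
Vco with `ν=1/8`: `∫(1+k|y|)Q^kv² ≤ C((ip v ΛQ)²+J)+(1/8)∫w(v²+v'²)`.
`(ip v ΛQ)² ≤ 2(ip v G_δ)² + 2δ²(∫ v (ΛQ)'')² ≤ 2(ip v G_δ)²+ C'δ²∫w v²` (`((ΛQ)'')²/w` integrable).
So `Hf k ψ v ≥ (3/2 - σC/2)J + σ∫w((3/2)v'²+(3/8)v²) - (σ/16)∫w(v²+v'²) - (σC/2)(2(ip v G_δ)²+C'δ²∫wv²)`.
Choose `σ ≤ 3/C` i.e. `η = 1/(Cγ)`-ish (any `η` with `ηγ C ≤ 3` works, e.g. `η = min 1 (1/(γ C))`... take `η=1/(γ(C+1))`
or smaller) and `δ₀` with `C C'δ₀² ≤ 1/8`.
-/

open MeasureTheory Filter Topology Set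
open scoped ContDiff

namespace H98KB

theorem Vcp_psi_d (k : ℕ) (η γ : ℝ) :
    deriv (psi k η γ) = fun y => deriv (th k) y + η * γ * se2 γ y := by
  funext y
  have h1 : HasDerivAt (th k) (deriv (th k) y) y := Cl_hd (Cl_th k) y
  have h2 := (tanh_hd γ y).const_mul η
  have h3 := (h1.add h2).deriv
  have e : psi k η γ = (th k + fun y => η * Real.tanh (γ * y)) := rfl
  rw [e, h3, se2_eq]
  ring

theorem Vcp_psi_ddd (k : ℕ) (η γ : ℝ) (y : ℝ) :
    deriv (deriv (deriv (psi k η γ))) y =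
      deriv (deriv (deriv (th k))) y + η * γ * (γ ^ 2 * se2 γ y * (4 - 6 * se2 γ y)) := by
  have c1 := Cl_der (Cl_th k)
  have c2 := Cl_der c1
  have e1 : deriv (deriv (psi k η γ)) =
      fun y => deriv (deriv (th k)) y + η * γ * (-2 * γ * Real.tanh (γ * y) * se2 γ y) := by
    rw [Vcp_psi_d]
    funext y
    exact ((Cl_hd c1 y).add ((se2_hd γ y).const_mul (η * γ))).deriv
  rw [e1]
  have h1 := ((tanh_hd γ y).const_mul (-2 * γ)).mul (se2_hd γ y)
  have h2 := ((Cl_hd c2 y).add (h1.const_mul (η * γ))).deriv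
  refine Eq.trans h2 ?_
  have hs := se2_eq γ y
  have ht : Real.tanh (γ * y) ^ 2 = 1 - se2 γ y := by rw [hs]; ring
  have e3 : -2 * γ * (γ * (1 - Real.tanh (γ * y) ^ 2)) * se2 γ y +
      -2 * γ * Real.tanh (γ * y) * (-2 * γ * Real.tanh (γ * y) * se2 γ y) =
      -2 * γ ^ 2 * (1 - Real.tanh (γ * y) ^ 2) * se2 γ y
        + 4 * γ ^ 2 * (Real.tanh (γ * y) ^ 2) * se2 γ y := by ring
  rw [e3, ht]
  ring

theorem Vcp_psi_Q (k : ℕ) (hk : 1 ≤ k) (η γ : ℝ) (y : ℝ) :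
    deriv (fun z => psi k η γ z * Qf k z ^ k) y =
      deriv (fun z => th k z * Qf k z ^ k) y
        + η * (γ * se2 γ y * Qf k y ^ k + Real.tanh (γ * y) * (-(k : ℝ) * th k y * Qf k y ^ k)) := by
  have h0 := Qk_hd hk y
  have h1 : HasDerivAt (fun z => th k z * Qf k z ^ k) _ y := (Cl_hd (Cl_th k) y).mul h0
  have h2 : HasDerivAt (fun z => η * (Real.tanh (γ * z) * Qf k z ^ k)) _ y :=
    ((tanh_hd γ y).mul h0).const_mul η
  have e : (fun z => psi k η γ z * Qf k z ^ k) =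
      (fun z => th k z * Qf k z ^ k) + fun z => η * (Real.tanh (γ * z) * Qf k z ^ k) := by
    funext z
    simp only [psi, Pi.add_apply]
    ring
  rw [e, (h1.add h2).deriv, h1.deriv, se2_eq]

theorem Vcp_tanh_le (x : ℝ) : |Real.tanh x| ≤ |x| := by
  have key : ∀ x : ℝ, 0 ≤ x → Real.tanh x ≤ x := by
    intro x hx
    have hmono : Monotone (fun z : ℝ => z - Real.tanh (1 * z)) := by
      refine monotone_of_deriv_nonneg ?_ ?_
      · intro z
        exact ((hasDerivAt_id z).sub (tanh_hd 1 z)).differentiableAt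
      · intro z
        have := ((hasDerivAt_id z).sub (tanh_hd 1 z)).deriv
        have e : (fun z : ℝ => z - Real.tanh (1 * z)) = (id - fun y => Real.tanh (1 * y)) := rfl
        rw [e, this]
        nlinarith [sq_nonneg (Real.tanh (1 * z))]
    have := hmono hx
    simp only [one_mul, Real.tanh_zero, sub_zero] at this
    linarith
  rcases le_total 0 x with h | h
  · have h1 := key x h
    have h2 : 0 ≤ Real.tanh x := by
      rw [Real.tanh_eq_sinh_div_cosh]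
      exact div_nonneg (Real.sinh_nonneg_iff.mpr h) (Real.cosh_pos x).le
    rw [abs_of_nonneg h, abs_of_nonneg h2]
    exact h1
  · have h1 := key (-x) (by linarith)
    have h2 : 0 ≤ Real.tanh (-x) := by
      rw [Real.tanh_eq_sinh_div_cosh]
      exact div_nonneg (Real.sinh_nonneg_iff.mpr (by linarith)) (Real.cosh_pos _).le
    rw [Real.tanh_neg] at h1 h2
    rw [abs_of_nonpos h, abs_of_nonpos (by linarith)]
    exact h1

/-- pointwise lower bound (V2) -/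
theorem Vcp_point (k : ℕ) (hk : 1 ≤ k) (η γ : ℝ) (hη : 0 ≤ η) (hγ : 0 < γ) (hγ' : γ ≤ 1 / 8)
    (a b y : ℝ) :
    (3 / 2 * deriv (th k) y * b ^ 2
      + 1 / 2 * (deriv (th k) y - deriv (deriv (deriv (th k))) y) * a ^ 2
      - 1 / 2 * deriv (fun z => th k z * Qf k z ^ k) y * a ^ 2)
    + η * γ * (3 / 2 * (se2 γ y * b ^ 2) + 3 / 8 * (se2 γ y * a ^ 2))
    - η * γ / 2 * ((1 + k * |y|) * Qf k y ^ k * a ^ 2) ≤
    3 / 2 * deriv (psi k η γ) y * b ^ 2
      + 1 / 2 * (deriv (psi k η γ) y - deriv (deriv (deriv (psi k η γ))) y) * a ^ 2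
      - 1 / 2 * deriv (fun z => psi k η γ z * Qf k z ^ k) y * a ^ 2 := by
  rw [Vcp_psi_ddd k η γ, Vcp_psi_Q k hk, Vcp_psi_d]
  have hs := se2_pos γ y
  have hs1 := se2_le_one γ y
  have hQ : 0 ≤ Qf k y ^ k := pow_nonneg (Qf_pos k y).le k
  have ht : |Real.tanh (γ * y)| ≤ γ * |y| := by
    refine (Vcp_tanh_le _).trans (le_of_eq ?_)
    rw [abs_mul, abs_of_pos hγ]
  have ht' : |th k y| ≤ 1 := (th_abs_lt k y).le
  have hp : γ * se2 γ y * Qf k y ^ k + Real.tanh (γ * y) * (-(k : ℝ) * th k y * Qf k y ^ k) ≤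
      γ * ((1 + k * |y|) * Qf k y ^ k) := by
    have h1 : γ * se2 γ y * Qf k y ^ k ≤ γ * 1 * Qf k y ^ k := by gcongr
    have h2 : Real.tanh (γ * y) * (-(k : ℝ) * th k y * Qf k y ^ k) ≤ γ * |y| * ((k : ℝ) * 1 * Qf k y ^ k) := by
      refine (le_abs_self _).trans ?_
      rw [abs_mul, abs_mul, abs_mul, abs_neg, Nat.abs_cast, abs_of_nonneg hQ]
      gcongr
    calc _ ≤ γ * 1 * Qf k y ^ k + γ * |y| * ((k : ℝ) * 1 * Qf k y ^ k) := add_le_add h1 h2
      _ = _ := by ring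
  have hηγ : 0 ≤ η * γ := mul_nonneg hη hγ.le
  have h3 : η * (γ * se2 γ y * Qf k y ^ k + Real.tanh (γ * y) * (-(k : ℝ) * th k y * Qf k y ^ k)) * a ^ 2
      ≤ η * γ * ((1 + k * |y|) * Qf k y ^ k * a ^ 2) := by
    calc _ ≤ η * (γ * ((1 + k * |y|) * Qf k y ^ k)) * a ^ 2 := by gcongr
      _ = _ := by ring
  have h4 : η * γ * (3 / 8 * (se2 γ y * a ^ 2)) ≤
      1 / 2 * (η * γ * se2 γ y - η * γ * (γ ^ 2 * se2 γ y * (4 - 6 * se2 γ y))) * a ^ 2 := by
    have h5 : γ ^ 2 * (4 - 6 * se2 γ y) ≤ 1 / 4 := by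
      have h6 : γ ^ 2 ≤ 1 / 64 := by nlinarith
      nlinarith [sq_nonneg γ, mul_nonneg (sq_nonneg γ) hs.le]
    have h7 : 0 ≤ η * γ * (se2 γ y * a ^ 2) := by positivity
    nlinarith
  linarith

theorem vir_coer (k : ℕ) (hk : 5 ≤ k) (γ : ℝ) (hγ : 0 < γ) (hγ' : γ ≤ 1 / 8) :
    ∃ η δ₀ C : ℝ, 0 < η ∧ η ≤ 1 ∧ 0 < δ₀ ∧ δ₀ ≤ 1 / 16 ∧ 0 < C ∧
    ∀ δ : ℝ, 0 < δ → δ ≤ δ₀ → ∀ (p q : ℝ) (v : ℝ → ℝ), 0 < p → 0 < q → Cl p q v →
    η * γ / 4 * (∫ y, se2 γ y * ((v y) ^ 2 + (deriv v y) ^ 2)) ≤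
      Hf k (psi k η γ) v + C * (ip v (Gd k δ)) ^ 2 := by
  have hk1 : 1 ≤ k := by omega
  obtain ⟨CV, hCV, hV⟩ := vir_local k hk (1 / 8) (by norm_num)
  -- the function `(ΛQ)''`
  set φ : ℝ → ℝ := deriv (deriv (Lam k (Qf k))) with hφ
  have cL : Cl (3 / 4) (3 / 4) (Lam k (Qf k)) := Cl_LamQ hk1 (by norm_num)
  have cφ : Cl (3 / 4) (3 / 4) φ := Cl_der (Cl_der cL)
  have cs : Cl (2 * γ) (2 * γ) (se2 γ) := Cl_se2 hγ
  have hsc : Continuous (se2 γ) := Cl_cont cs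
  have hφw : Integrable (fun y => φ y ^ 2 / se2 γ y) := by
    obtain ⟨C, hC, hb⟩ := Cl_bnd cφ
    refine int_of_bd (p := 1) (q := 1) (((Cl_cont cφ).pow 2).div hsc fun y => (se2_pos γ y).ne')
      one_pos one_pos ⟨C ^ 2, fun y => ?_⟩
    have h1 := hb y
    have h2 := se2_lo γ y
    have h3 := se2_pos γ y
    rw [abs_of_nonneg (by positivity), div_le_iff₀ h3, bd_abs]
    rw [bd_abs] at h1
    have h4 : φ y ^ 2 ≤ (C * Real.exp (-(3 / 4 * |y|))) ^ 2 := by
      rw [← sq_abs]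
      exact pow_le_pow_left₀ (abs_nonneg _) h1 2
    have h5 : Real.exp (-(|y| / 4)) ≤ se2 γ y := by
      refine le_trans (Real.exp_le_exp.mpr ?_) h2
      rw [abs_mul, abs_of_pos hγ]
      nlinarith [abs_nonneg y]
    calc φ y ^ 2 ≤ (C * Real.exp (-(3 / 4 * |y|))) ^ 2 := h4
      _ = C ^ 2 * Real.exp (-(3 / 2 * |y|)) := by
          rw [mul_pow, ← Real.exp_nat_mul]
          congr 2
          push_cast
          ring
      _ ≤ C ^ 2 * Real.exp (-(1 * |y|) + -(|y| / 4)) := by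
          apply mul_le_mul_of_nonneg_left _ (by positivity)
          apply Real.exp_le_exp.mpr
          linarith [abs_nonneg y]
      _ = C ^ 2 * Real.exp (-(1 * |y|)) * Real.exp (-(|y| / 4)) := by
          rw [Real.exp_add]; ring
      _ ≤ C ^ 2 * Real.exp (-(1 * |y|)) * se2 γ y := by gcongr
  set K : ℝ := ∫ y, φ y ^ 2 / se2 γ y with hK
  have hK0 : 0 ≤ K := integral_nonneg fun y => div_nonneg (sq_nonneg _) (se2_pos γ y).le
  refine ⟨min 1 (3 / (γ * CV)), min (1 / 16) (1 / (16 * (CV * K + 1))), 3 * CV, ?_, min_le_left _ _, ?_,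
    min_le_left _ _, by positivity, ?_⟩
  · exact lt_min one_pos (by positivity)
  · exact lt_min (by norm_num) (by positivity)
  intro δ hδ hδ₀ p q v hp hq hv
  set η : ℝ := min 1 (3 / (γ * CV)) with hη
  have hη0 : 0 < η := lt_min one_pos (by positivity)
  have hη1 : η ≤ 1 := min_le_left _ _
  have hσ : η * γ * CV ≤ 3 := by
    have h1 : η ≤ 3 / (γ * CV) := min_le_right _ _
    have h2 : 0 < γ * CV := by positivity
    rw [le_div_iff₀ h2] at h1
    linarith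
  have hδ16 : δ ≤ 1 / 16 := hδ₀.trans (min_le_left _ _)
  have hδK : CV * K * δ ^ 2 ≤ 1 / 16 := by
    have h1 : δ ≤ 1 / (16 * (CV * K + 1)) := hδ₀.trans (min_le_right _ _)
    have h0 : 0 ≤ CV * K := by positivity
    have h2 : (0 : ℝ) < 16 * (CV * K + 1) := by positivity
    rw [le_div_iff₀ h2] at h1
    have h3 : CV * K * δ ≤ 1 / 16 := by nlinarith
    calc CV * K * δ ^ 2 = (CV * K * δ) * δ := by ring
      _ ≤ (1 / 16) * 1 := by gcongr; linarith
      _ = 1 / 16 := by ring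
  -- classes and integrability
  have cv' := Cl_der hv
  have cv2 : Cl (p + p) (q + q) (fun y => v y * v y) := Cl_mul hv hv
  have cvd2 : Cl (p + p) (q + q) (fun y => deriv v y * deriv v y) := Cl_mul cv' cv'
  have hpp : 0 < p + p := by linarith
  have hqq : 0 < q + q := by linarith
  have i0 : Integrable (fun y => se2 γ y * (v y) ^ 2) := by
    have := Cl_int (Cl_mul cs cv2) (by linarith) (by linarith)
    refine this.congr (Eventually.of_forall fun y => ?_)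
    show se2 γ y * (v y * v y) = se2 γ y * (v y) ^ 2
    ring
  have i1 : Integrable (fun y => se2 γ y * (deriv v y) ^ 2) := by
    have := Cl_int (Cl_mul cs cvd2) (by linarith) (by linarith)
    refine this.congr (Eventually.of_forall fun y => ?_)
    show se2 γ y * (deriv v y * deriv v y) = se2 γ y * (deriv v y) ^ 2
    ring
  have iA : Integrable (fun y => (1 + k * |y|) * Qf k y ^ k * (v y) ^ 2) := by
    obtain ⟨C, hC, hQ⟩ := Qf_hi hk1
    have iv : Integrable (fun y => C ^ k * (v y * v y)) := (Cl_int cv2 hpp hqq).const_mul _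
    have hc : Continuous (fun y => (1 + k * |y|) * Qf k y ^ k * (v y) ^ 2) := by
      have h1 := Cl_cont (Cl_Qf hk1)
      have h2 := Cl_cont hv
      fun_prop
    refine iv.mono' hc.aestronglyMeasurable (Eventually.of_forall fun y => ?_)
    have h1 : (1 + k * |y|) * Qf k y ^ k ≤ C ^ k := by
      have h2 : Qf k y ^ k ≤ (C * Real.exp (-|y|)) ^ k :=
        pow_le_pow_left₀ (Qf_pos k y).le (hQ y) k
      have h3 : (C * Real.exp (-|y|)) ^ k = C ^ k * Real.exp (-(k * |y|)) := by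
        rw [mul_pow, ← Real.exp_nat_mul]
        congr 2
        ring
      rw [h3] at h2
      have h4 : 1 + k * |y| ≤ Real.exp (k * |y|) := by
        have := Real.add_one_le_exp ((k : ℝ) * |y|)
        linarith
      have h5 : (0 : ℝ) ≤ 1 + k * |y| := by positivity
      calc (1 + k * |y|) * Qf k y ^ k ≤ Real.exp (k * |y|) * (C ^ k * Real.exp (-(k * |y|))) := by
            have := pow_nonneg (Qf_pos k y).le k
            gcongr
        _ = C ^ k * (Real.exp (k * |y|) * Real.exp (-(k * |y|))) := by ring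
        _ = C ^ k := by rw [← Real.exp_add, add_neg_cancel, Real.exp_zero, mul_one]
    have h6 : 0 ≤ (1 + k * |y|) * Qf k y ^ k * (v y) ^ 2 := by
      have := pow_nonneg (Qf_pos k y).le k
      positivity
    rw [Real.norm_eq_abs, abs_of_nonneg h6]
    calc _ ≤ C ^ k * (v y) ^ 2 := by gcongr
      _ = _ := by ring
  have ct := Cl_th k
  have ct1 := Cl_der ct
  have ct3 := Cl_der (Cl_der ct1)
  have cQk : Cl k k (fun y => Qf k y ^ k) := Cl_Qk hk1
  have cQ0 : Cl 0 0 (fun y => Qf k y ^ k) := Cl_mono cQk (by positivity) (by positivity)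
  have ctQ : Cl 0 0 (deriv (fun z => th k z * Qf k z ^ k)) := Cl_der (Cl_mul0 ct cQ0)
  have iH : ∀ {W1 W3 WQ : ℝ → ℝ}, Cl 0 0 W1 → Cl 0 0 W3 → Cl 0 0 WQ →
      Integrable (fun y => 3 / 2 * W1 y * (deriv v y) ^ 2 + 1 / 2 * (W1 y - W3 y) * (v y) ^ 2
        - 1 / 2 * WQ y * (v y) ^ 2) := by
    intro W1 W3 WQ h1 h3 hQ
    have a1 := (Cl_int (Cl_mul0 h1 cvd2) hpp hqq).const_mul (3 / 2 : ℝ)
    have a2 := (Cl_int (Cl_mul0 (Cl_sub h1 h3) cv2) hpp hqq).const_mul (1 / 2 : ℝ)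
    have a3 := (Cl_int (Cl_mul0 hQ cv2) hpp hqq).const_mul (1 / 2 : ℝ)
    refine ((a1.add a2).sub a3).congr (Eventually.of_forall fun y => ?_)
    simp only [Pi.add_apply, Pi.sub_apply]
    ring
  have iT : Integrable (fun y => 3 / 2 * deriv (th k) y * (deriv v y) ^ 2
      + 1 / 2 * (deriv (th k) y - deriv (deriv (deriv (th k))) y) * (v y) ^ 2
      - 1 / 2 * deriv (fun z => th k z * Qf k z ^ k) y * (v y) ^ 2) := iH ct1 ct3 ctQ
  have cpsi : Cl 0 0 (psi k η γ) := Cl_psi k η γ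
  have iP : Integrable (fun y => 3 / 2 * deriv (psi k η γ) y * (deriv v y) ^ 2
      + 1 / 2 * (deriv (psi k η γ) y - deriv (deriv (deriv (psi k η γ))) y) * (v y) ^ 2
      - 1 / 2 * deriv (fun z => psi k η γ z * Qf k z ^ k) y * (v y) ^ 2) :=
    iH (Cl_der cpsi) (Cl_der (Cl_der (Cl_der cpsi))) (Cl_der (Cl_mul0 cpsi cQ0))
  set S0 : ℝ := ∫ y, se2 γ y * (v y) ^ 2 with hS0
  set S1 : ℝ := ∫ y, se2 γ y * (deriv v y) ^ 2 with hS1
  set A : ℝ := ∫ y, (1 + k * |y|) * Qf k y ^ k * (v y) ^ 2 with hA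
  have hS00 : 0 ≤ S0 := integral_nonneg fun y => mul_nonneg (se2_pos γ y).le (sq_nonneg _)
  have hS10 : 0 ≤ S1 := integral_nonneg fun y => mul_nonneg (se2_pos γ y).le (sq_nonneg _)
  have hS : ∫ y, se2 γ y * ((v y) ^ 2 + (deriv v y) ^ 2) = S0 + S1 := by
    rw [hS0, hS1, ← integral_add i0 i1]
    congr 1
    funext y
    ring
  -- the integrated form of V2
  have key : Hf k (th k) v + η * γ * (3 / 2 * S1 + 3 / 8 * S0) - η * γ / 2 * A ≤
      Hf k (psi k η γ) v := by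
    have i2 : Integrable (fun y => 3 / 2 * (se2 γ y * (deriv v y) ^ 2) + 3 / 8 * (se2 γ y * (v y) ^ 2)) :=
      (i1.const_mul _).add (i0.const_mul _)
    have i3 : Integrable (fun y => η * γ * (3 / 2 * (se2 γ y * (deriv v y) ^ 2)
      + 3 / 8 * (se2 γ y * (v y) ^ 2))) := i2.const_mul _
    have i4 := iT.add i3
    have i5 : Integrable (fun y => η * γ / 2 * ((1 + k * |y|) * Qf k y ^ k * (v y) ^ 2)) :=
      iA.const_mul _
    have h1 := integral_mono (i4.sub i5) iP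
      (fun y => Vcp_point k hk1 η γ hη0.le hγ hγ' (v y) (deriv v y) y)
    rw [integral_sub' i4 i5, integral_add' iT i3] at h1
    rw [integral_const_mul (η * γ), integral_const_mul (η * γ / 2),
      integral_add (i1.const_mul (3 / 2 : ℝ)) (i0.const_mul (3 / 8 : ℝ)),
      integral_const_mul, integral_const_mul] at h1
    exact h1
  rw [vir_tanh hk1 hv hp hq] at key
  set J : ℝ := ∫ y, deriv (th k) y * (deriv v y + th k y * v y) ^ 2 with hJ
  have hJ0 : 0 ≤ J := by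
    refine integral_nonneg fun y => mul_nonneg ?_ (sq_nonneg _)
    rw [(th_hd k y).deriv]
    have := th_abs_lt k y
    have h2 : th k y ^ 2 ≤ 1 := by
      rw [← sq_abs]
      (first | linarith only [abs_nonneg (th k y), hδ, hδ16, this] | nlinarith only [abs_nonneg (th k y), hδ, hδ16, this])
    have h3 : (0 : ℝ) ≤ (k : ℝ) / 2 := by positivity
    exact mul_nonneg h3 (by linarith)
  have hVv := hV γ hγ hγ' p q v hp hq hv
  rw [hS] at hVv
  -- the inner product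
  have hip : ip v (Lam k (Qf k)) = ip v (Gd k δ) + δ * ∫ y, v y * φ y := by
    have cG : Cl (3 / 4) (3 / 4) (Gd k δ) := Cl_Gd hk1 δ (by norm_num)
    have j1 : Integrable (fun y => v y * Gd k δ y) := Cl_int (Cl_mul hv cG) (by linarith) (by linarith)
    have j2 : Integrable (fun y => v y * φ y) := Cl_int (Cl_mul hv cφ) (by linarith) (by linarith)
    unfold ip
    rw [← integral_const_mul, ← integral_add j1 (j2.const_mul δ)]
    congr 1
    funext y
    simp only [Gd, hφ]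
    ring
  have hcs := (cs_wt (F := v) (φ := φ) (W := se2 γ) (Cl_cont hv) (Cl_cont cφ) hsc (fun y => se2_pos γ y) i0
    hφw).2
  have hcs2 : (∫ y, v y * φ y) ^ 2 ≤ K * S0 := by
    rw [← sq_abs]
    calc |∫ y, v y * φ y| ^ 2 ≤ (√K * √S0) ^ 2 := pow_le_pow_left₀ (abs_nonneg _) hcs 2
      _ = K * S0 := by rw [mul_pow, Real.sq_sqrt hK0, Real.sq_sqrt hS00]
  have hL2 : (ip v (Lam k (Qf k))) ^ 2 ≤ 2 * (ip v (Gd k δ)) ^ 2 + 2 * δ ^ 2 * (K * S0) := by
    rw [hip]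
    have h1 : (ip v (Gd k δ) + δ * ∫ y, v y * φ y) ^ 2 ≤
        2 * (ip v (Gd k δ)) ^ 2 + 2 * (δ * ∫ y, v y * φ y) ^ 2 := by
      (first | linarith only [sq_nonneg (ip v (Gd k δ) - δ * ∫ y, v y * φ y)] | nlinarith only [sq_nonneg (ip v (Gd k δ) - δ * ∫ y, v y * φ y)])
    have h2 : 2 * (δ * ∫ y, v y * φ y) ^ 2 ≤ 2 * δ ^ 2 * (K * S0) := by
      rw [mul_pow]
      (first | linarith only [sq_nonneg δ, hcs2] | nlinarith only [sq_nonneg δ, hcs2])
    linarith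
  rw [hS]
  set G : ℝ := (ip v (Gd k δ)) ^ 2 with hG
  have hG0 : 0 ≤ G := sq_nonneg _
  have hσ0 : 0 < η * γ := by positivity
  set σ : ℝ := η * γ with hσd
  have hA2 : A ≤ CV * (2 * G + 2 * δ ^ 2 * (K * S0) + J) + 1 / 8 * (S0 + S1) := by
    refine hVv.trans ?_
    have : CV * ((ip v (Lam k (Qf k))) ^ 2 + J) ≤ CV * (2 * G + 2 * δ ^ 2 * (K * S0) + J) := by
      gcongr
    linarith
  have h1 : σ / 2 * A ≤ σ / 2 * (CV * (2 * G + 2 * δ ^ 2 * (K * S0) + J) + 1 / 8 * (S0 + S1)) := by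
    gcongr
  have h2 : σ / 2 * (CV * J) ≤ 3 / 2 * J := by
    have : σ * CV * J ≤ 3 * J := mul_le_mul_of_nonneg_right hσ hJ0
    linarith
  have h3 : σ / 2 * (CV * (2 * δ ^ 2 * (K * S0))) ≤ σ * (1 / 16) * S0 := by
    have h4 : CV * K * δ ^ 2 * (σ * S0) ≤ 1 / 16 * (σ * S0) :=
      mul_le_mul_of_nonneg_right hδK (mul_nonneg hσ0.le hS00)
    calc _ = CV * K * δ ^ 2 * (σ * S0) := by ring
      _ ≤ _ := h4
      _ = _ := by ring
  have h5 : σ / 2 * (CV * (2 * G)) ≤ 3 * CV * G := by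
    have hσ1 : σ ≤ 3 := by
      have : σ ≤ 1 * (1 / 8) := by rw [hσd]; gcongr
      linarith
    have : σ * (CV * G) ≤ 3 * (CV * G) := mul_le_mul_of_nonneg_right hσ1 (by positivity)
    linarith
  have h6 : 0 ≤ σ * S1 := mul_nonneg hσ0.le hS10
  have h7 : 0 ≤ σ * S0 := mul_nonneg hσ0.le hS00
  (first | linarith only [h1, h2, h3, h5, h6, key] | nlinarith only [h1, h2, h3, h5, h6, key])

end H98KB

end S_H98_KB_Vcp

section S_H98_KC_Vkb

/-!
# Vkb (MP_95be7d_S4): coercivity of the virial form with constraint `Q''` (variant of `vir_coer` in `KB/Vcp.lean`; uses the statement `vir_local4`)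

`σ = ηγ`.  `H_psi(v) = H_th(v) + H_{η tanh(γ·)}(v)`, `H_th(v) = (3/2)Jn v` (`vir_tanh`, `k = 4`),
`H_{η tanh γ}(v) ≥ σ(3/8)∫w(v²+v'²) - (σ/2)∫(1+4|y|)Q⁴v²` (`w = se2 γ`; `Vcp_point` etc. of `KB/Vcp.lean`).
`vir_local4` with `ν = 1/8`, constant `C'`: `H_psi ≥ (3/2-σC'/2)Jn + σ(3/8-1/16)∫w(v²+v'²) - (σC'/2)(v,Q'')²`;
`(v,Q'')² ≤ 2(v,G_δ)²+2δ²(v,Q'''')²`, `(v,Q'''')² ≤ C''∫w v²` (Cauchy-Schwarz, `γ ≤ 1/8`, `|Q''''| ≤ Ce^{-|y|}`).  Choose `η ≤ 1/K` with `ηγC' ≤ 1`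
(so `3/2-σC'/2 ≥ 1`) and `δ₀ ≤ ηγ/K`, `δ₀ ≤ 1/16` with `C'C''δ₀² ≤ 1/16`.
-/

open MeasureTheory Filter Topology Set
open scoped ContDiff

noncomputable section

namespace H98KC

open H98KB H68KC

theorem vir_coer4 (γ : ℝ) (hγ : 0 < γ) (hγ' : γ ≤ 1 / 8) (K : ℝ) (hK : 1 ≤ K) :
    ∃ η δ₀ C : ℝ, 0 < η ∧ K * η ≤ 1 ∧ 0 < δ₀ ∧ δ₀ ≤ 1 / 16 ∧ K * δ₀ ≤ η * γ ∧ 0 < C ∧
    ∀ δ : ℝ, 0 < δ → δ ≤ δ₀ → ∀ (p q : ℝ) (v : ℝ → ℝ), 0 < p → 0 < q → Cl p q v →
    η * γ / 4 * (∫ y, se2 γ y * ((v y) ^ 2 + (deriv v y) ^ 2)) + Jn v ≤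
      Hf 4 (psi 4 η γ) v + C * (ip v (Gd4 δ)) ^ 2 := by
  have hk1 : 1 ≤ 4 := by norm_num
  obtain ⟨CV, hCV, hV0⟩ := vir_local4 (1 / 8) (by norm_num)
  have hV : ∀ γ : ℝ, 0 < γ → γ ≤ 1 / 8 → ∀ (p q : ℝ) (v : ℝ → ℝ), 0 < p → 0 < q → Cl p q v →
      ∫ y, (1 + ((4 : ℕ) : ℝ) * |y|) * Qf 4 y ^ 4 * (v y) ^ 2 ≤
      CV * ((ip v (deriv (deriv (Qf 4)))) ^ 2 + ∫ y, deriv (th 4) y * (deriv v y + th 4 y * v y) ^ 2)
        + 1 / 8 * ∫ y, se2 γ y * ((v y) ^ 2 + (deriv v y) ^ 2) := by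
    intro γ h1 h2 p q v h3 h4 h5
    refine le_trans (le_of_eq ?_) (hV0 γ h1 h2 p q v h3 h4 h5)
    norm_num
  -- the function `(ΛQ)''`
  set φ : ℝ → ℝ := deriv (deriv (deriv (deriv (Qf 4)))) with hφ
  have cL : Cl (3 / 4) (3 / 4) (deriv (deriv (Qf 4))) :=
    Cl_mono (Cl_der (Cl_der (Cl_Qf hk1))) (by norm_num) (by norm_num)
  have cφ : Cl (3 / 4) (3 / 4) φ := Cl_der (Cl_der cL)
  have cs : Cl (2 * γ) (2 * γ) (se2 γ) := Cl_se2 hγ
  have hsc : Continuous (se2 γ) := Cl_cont cs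
  have hφw : Integrable (fun y => φ y ^ 2 / se2 γ y) := by
    obtain ⟨C, hC, hb⟩ := Cl_bnd cφ
    refine int_of_bd (p := 1) (q := 1) (((Cl_cont cφ).pow 2).div hsc fun y => (se2_pos γ y).ne')
      one_pos one_pos ⟨C ^ 2, fun y => ?_⟩
    have h1 := hb y
    have h2 := se2_lo γ y
    have h3 := se2_pos γ y
    rw [abs_of_nonneg (by positivity), div_le_iff₀ h3, bd_abs]
    rw [bd_abs] at h1
    have h4 : φ y ^ 2 ≤ (C * Real.exp (-(3 / 4 * |y|))) ^ 2 := by
      rw [← sq_abs]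
      exact pow_le_pow_left₀ (abs_nonneg _) h1 2
    have h5 : Real.exp (-(|y| / 4)) ≤ se2 γ y := by
      refine le_trans (Real.exp_le_exp.mpr ?_) h2
      rw [abs_mul, abs_of_pos hγ]
      nlinarith [abs_nonneg y]
    calc φ y ^ 2 ≤ (C * Real.exp (-(3 / 4 * |y|))) ^ 2 := h4
      _ = C ^ 2 * Real.exp (-(3 / 2 * |y|)) := by
          rw [mul_pow, ← Real.exp_nat_mul]
          congr 2
          push_cast
          ring
      _ ≤ C ^ 2 * Real.exp (-(1 * |y|) + -(|y| / 4)) := by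
          apply mul_le_mul_of_nonneg_left _ (by positivity)
          apply Real.exp_le_exp.mpr
          linarith [abs_nonneg y]
      _ = C ^ 2 * Real.exp (-(1 * |y|)) * Real.exp (-(|y| / 4)) := by
          rw [Real.exp_add]; ring
      _ ≤ C ^ 2 * Real.exp (-(1 * |y|)) * se2 γ y := by gcongr
  set Kc : ℝ := ∫ y, φ y ^ 2 / se2 γ y with hKc
  have hKc0 : 0 ≤ Kc := integral_nonneg fun y => div_nonneg (sq_nonneg _) (se2_pos γ y).le
  set η : ℝ := min (1 / K) (1 / (γ * CV)) with hη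
  have hK0 : 0 < K := by linarith
  have hη0 : 0 < η := lt_min (by positivity) (by positivity)
  have hηK : K * η ≤ 1 := by
    have h1 : η ≤ 1 / K := min_le_left _ _
    rw [le_div_iff₀ hK0] at h1
    linarith
  have hη1 : η ≤ 1 := by nlinarith
  have hσ : η * γ * CV ≤ 1 := by
    have h1 : η ≤ 1 / (γ * CV) := min_le_right _ _
    have h2 : 0 < γ * CV := by positivity
    rw [le_div_iff₀ h2] at h1
    linarith
  refine ⟨η, min (1 / 16) (min (1 / (16 * (CV * Kc + 1))) (η * γ / K)), 1, hη0, hηK, ?_,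
    min_le_left _ _, ?_, one_pos, ?_⟩
  · exact lt_min (by norm_num) (lt_min (by positivity) (by positivity))
  · have h1 : min (1 / 16) (min (1 / (16 * (CV * Kc + 1))) (η * γ / K)) ≤ η * γ / K :=
      (min_le_right _ _).trans (min_le_right _ _)
    rw [le_div_iff₀ hK0] at h1
    linarith
  intro δ hδ hδ₀ p q v hp hq hv
  have hδ16 : δ ≤ 1 / 16 := hδ₀.trans (min_le_left _ _)
  have hδK : CV * Kc * δ ^ 2 ≤ 1 / 16 := by
    have h1 : δ ≤ 1 / (16 * (CV * Kc + 1)) := hδ₀.trans ((min_le_right _ _).trans (min_le_left _ _))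
    have h0 : 0 ≤ CV * Kc := by positivity
    have h2 : (0 : ℝ) < 16 * (CV * Kc + 1) := by positivity
    rw [le_div_iff₀ h2] at h1
    have h3 : CV * Kc * δ ≤ 1 / 16 := by nlinarith
    calc CV * Kc * δ ^ 2 = (CV * Kc * δ) * δ := by ring
      _ ≤ (1 / 16) * 1 := by gcongr; linarith
      _ = 1 / 16 := by ring
  -- classes and integrability
  have cv' := Cl_der hv
  have cv2 : Cl (p + p) (q + q) (fun y => v y * v y) := Cl_mul hv hv
  have cvd2 : Cl (p + p) (q + q) (fun y => deriv v y * deriv v y) := Cl_mul cv' cv'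
  have hpp : 0 < p + p := by linarith
  have hqq : 0 < q + q := by linarith
  have i0 : Integrable (fun y => se2 γ y * (v y) ^ 2) := by
    have := Cl_int (Cl_mul cs cv2) (by linarith) (by linarith)
    refine this.congr (Eventually.of_forall fun y => ?_)
    show se2 γ y * (v y * v y) = se2 γ y * (v y) ^ 2
    ring
  have i1 : Integrable (fun y => se2 γ y * (deriv v y) ^ 2) := by
    have := Cl_int (Cl_mul cs cvd2) (by linarith) (by linarith)
    refine this.congr (Eventually.of_forall fun y => ?_)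
    show se2 γ y * (deriv v y * deriv v y) = se2 γ y * (deriv v y) ^ 2
    ring
  have iA : Integrable (fun y => (1 + ((4 : ℕ) : ℝ) * |y|) * Qf 4 y ^ 4 * (v y) ^ 2) := by
    obtain ⟨C, hC, hQ⟩ := Qf_hi hk1
    have iv : Integrable (fun y => C ^ 4 * (v y * v y)) := (Cl_int cv2 hpp hqq).const_mul _
    have hc : Continuous (fun y => (1 + ((4 : ℕ) : ℝ) * |y|) * Qf 4 y ^ 4 * (v y) ^ 2) := by
      have h1 := Cl_cont (Cl_Qf hk1)
      have h2 := Cl_cont hv
      fun_prop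
    refine iv.mono' hc.aestronglyMeasurable (Eventually.of_forall fun y => ?_)
    have h1 : (1 + ((4 : ℕ) : ℝ) * |y|) * Qf 4 y ^ 4 ≤ C ^ 4 := by
      have h2 : Qf 4 y ^ 4 ≤ (C * Real.exp (-|y|)) ^ 4 :=
        pow_le_pow_left₀ (Qf_pos 4 y).le (hQ y) 4
      have h3 : (C * Real.exp (-|y|)) ^ 4 = C ^ 4 * Real.exp (-(((4 : ℕ) : ℝ) * |y|)) := by
        rw [mul_pow, ← Real.exp_nat_mul]
        congr 2
        ring
      rw [h3] at h2
      have h4 : 1 + ((4 : ℕ) : ℝ) * |y| ≤ Real.exp (((4 : ℕ) : ℝ) * |y|) := by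
        have := Real.add_one_le_exp (((4 : ℕ) : ℝ) * |y|)
        linarith
      have h5 : (0 : ℝ) ≤ 1 + ((4 : ℕ) : ℝ) * |y| := by positivity
      calc (1 + ((4 : ℕ) : ℝ) * |y|) * Qf 4 y ^ 4 ≤ Real.exp (((4 : ℕ) : ℝ) * |y|) * (C ^ 4 * Real.exp (-(((4 : ℕ) : ℝ) * |y|))) := by
            have := pow_nonneg (Qf_pos 4 y).le 4
            gcongr
        _ = C ^ 4 * (Real.exp (((4 : ℕ) : ℝ) * |y|) * Real.exp (-(((4 : ℕ) : ℝ) * |y|))) := by ring
        _ = C ^ 4 := by rw [← Real.exp_add, add_neg_cancel, Real.exp_zero, mul_one]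
    have h6 : 0 ≤ (1 + ((4 : ℕ) : ℝ) * |y|) * Qf 4 y ^ 4 * (v y) ^ 2 := by
      have := pow_nonneg (Qf_pos 4 y).le 4
      positivity
    rw [Real.norm_eq_abs, abs_of_nonneg h6]
    calc _ ≤ C ^ 4 * (v y) ^ 2 := by gcongr
      _ = _ := by ring
  have ct := Cl_th 4
  have ct1 := Cl_der ct
  have ct3 := Cl_der (Cl_der ct1)
  have cQk : Cl ((4 : ℕ) : ℝ) ((4 : ℕ) : ℝ) (fun y => Qf 4 y ^ 4) := Cl_Qk hk1
  have cQ0 : Cl 0 0 (fun y => Qf 4 y ^ 4) := Cl_mono cQk (by positivity) (by positivity)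
  have ctQ : Cl 0 0 (deriv (fun z => th 4 z * Qf 4 z ^ 4)) := Cl_der (Cl_mul0 ct cQ0)
  have iH : ∀ {W1 W3 WQ : ℝ → ℝ}, Cl 0 0 W1 → Cl 0 0 W3 → Cl 0 0 WQ →
      Integrable (fun y => 3 / 2 * W1 y * (deriv v y) ^ 2 + 1 / 2 * (W1 y - W3 y) * (v y) ^ 2
        - 1 / 2 * WQ y * (v y) ^ 2) := by
    intro W1 W3 WQ h1 h3 hQ
    have a1 := (Cl_int (Cl_mul0 h1 cvd2) hpp hqq).const_mul (3 / 2 : ℝ)
    have a2 := (Cl_int (Cl_mul0 (Cl_sub h1 h3) cv2) hpp hqq).const_mul (1 / 2 : ℝ)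
    have a3 := (Cl_int (Cl_mul0 hQ cv2) hpp hqq).const_mul (1 / 2 : ℝ)
    refine ((a1.add a2).sub a3).congr (Eventually.of_forall fun y => ?_)
    simp only [Pi.add_apply, Pi.sub_apply]
    ring
  have iT : Integrable (fun y => 3 / 2 * deriv (th 4) y * (deriv v y) ^ 2
      + 1 / 2 * (deriv (th 4) y - deriv (deriv (deriv (th 4))) y) * (v y) ^ 2
      - 1 / 2 * deriv (fun z => th 4 z * Qf 4 z ^ 4) y * (v y) ^ 2) := iH ct1 ct3 ctQ
  have cpsi : Cl 0 0 (psi 4 η γ) := Cl_psi 4 η γ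
  have iP : Integrable (fun y => 3 / 2 * deriv (psi 4 η γ) y * (deriv v y) ^ 2
      + 1 / 2 * (deriv (psi 4 η γ) y - deriv (deriv (deriv (psi 4 η γ))) y) * (v y) ^ 2
      - 1 / 2 * deriv (fun z => psi 4 η γ z * Qf 4 z ^ 4) y * (v y) ^ 2) :=
    iH (Cl_der cpsi) (Cl_der (Cl_der (Cl_der cpsi))) (Cl_der (Cl_mul0 cpsi cQ0))
  set S0 : ℝ := ∫ y, se2 γ y * (v y) ^ 2 with hS0
  set S1 : ℝ := ∫ y, se2 γ y * (deriv v y) ^ 2 with hS1
  set A : ℝ := ∫ y, (1 + ((4 : ℕ) : ℝ) * |y|) * Qf 4 y ^ 4 * (v y) ^ 2 with hA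
  have hS00 : 0 ≤ S0 := integral_nonneg fun y => mul_nonneg (se2_pos γ y).le (sq_nonneg _)
  have hS10 : 0 ≤ S1 := integral_nonneg fun y => mul_nonneg (se2_pos γ y).le (sq_nonneg _)
  have hS : ∫ y, se2 γ y * ((v y) ^ 2 + (deriv v y) ^ 2) = S0 + S1 := by
    rw [hS0, hS1, ← integral_add i0 i1]
    congr 1
    funext y
    ring
  -- the integrated form of V2
  have key : Hf 4 (th 4) v + η * γ * (3 / 2 * S1 + 3 / 8 * S0) - η * γ / 2 * A ≤
      Hf 4 (psi 4 η γ) v := by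
    have i2 : Integrable (fun y => 3 / 2 * (se2 γ y * (deriv v y) ^ 2) + 3 / 8 * (se2 γ y * (v y) ^ 2)) :=
      (i1.const_mul _).add (i0.const_mul _)
    have i3 : Integrable (fun y => η * γ * (3 / 2 * (se2 γ y * (deriv v y) ^ 2)
      + 3 / 8 * (se2 γ y * (v y) ^ 2))) := i2.const_mul _
    have i4 := iT.add i3
    have i5 : Integrable (fun y => η * γ / 2 * ((1 + ((4 : ℕ) : ℝ) * |y|) * Qf 4 y ^ 4 * (v y) ^ 2)) :=
      iA.const_mul _
    have h1 := integral_mono (i4.sub i5) iP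
      (fun y => Vcp_point 4 hk1 η γ hη0.le hγ hγ' (v y) (deriv v y) y)
    rw [integral_sub' i4 i5, integral_add' iT i3] at h1
    rw [integral_const_mul (η * γ), integral_const_mul (η * γ / 2),
      integral_add (i1.const_mul (3 / 2 : ℝ)) (i0.const_mul (3 / 8 : ℝ)),
      integral_const_mul, integral_const_mul] at h1
    exact h1
  rw [vir_tanh hk1 hv hp hq] at key
  set J : ℝ := ∫ y, deriv (th 4) y * (deriv v y + th 4 y * v y) ^ 2 with hJ
  have hJ0 : 0 ≤ J := by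
    refine integral_nonneg fun y => mul_nonneg ?_ (sq_nonneg _)
    rw [(th_hd 4 y).deriv]
    have := th_abs_lt 4 y
    have h2 : th 4 y ^ 2 ≤ 1 := by
      rw [← sq_abs]
      (first | linarith only [abs_nonneg (th 4 y), hδ, hδ16, this] | nlinarith only [abs_nonneg (th 4 y), hδ, hδ16, this])
    have h3 : (0 : ℝ) ≤ ((4 : ℕ) : ℝ) / 2 := by positivity
    exact mul_nonneg h3 (by linarith)
  have hVv := hV γ hγ hγ' p q v hp hq hv
  rw [hS] at hVv
  -- the inner product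
  have hip : ip v (deriv (deriv (Qf 4))) = ip v (Gd4 δ) + δ * ∫ y, v y * φ y := by
    have cG : Cl (3 / 4) (3 / 4) (Gd4 δ) := Cl_sub cL (Cl_smul δ cφ)
    have j1 : Integrable (fun y => v y * Gd4 δ y) := Cl_int (Cl_mul hv cG) (by linarith) (by linarith)
    have j2 : Integrable (fun y => v y * φ y) := Cl_int (Cl_mul hv cφ) (by linarith) (by linarith)
    unfold ip
    rw [← integral_const_mul, ← integral_add j1 (j2.const_mul δ)]
    congr 1
    funext y
    simp only [Gd4, hφ]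
    ring
  have hcs := (cs_wt (F := v) (φ := φ) (W := se2 γ) (Cl_cont hv) (Cl_cont cφ) hsc (fun y => se2_pos γ y) i0
    hφw).2
  have hcs2 : (∫ y, v y * φ y) ^ 2 ≤ Kc * S0 := by
    rw [← sq_abs]
    calc |∫ y, v y * φ y| ^ 2 ≤ (√Kc * √S0) ^ 2 := pow_le_pow_left₀ (abs_nonneg _) hcs 2
      _ = Kc * S0 := by rw [mul_pow, Real.sq_sqrt hKc0, Real.sq_sqrt hS00]
  have hL2 : (ip v (deriv (deriv (Qf 4)))) ^ 2 ≤ 2 * (ip v (Gd4 δ)) ^ 2 + 2 * δ ^ 2 * (Kc * S0) := by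
    rw [hip]
    have h1 : (ip v (Gd4 δ) + δ * ∫ y, v y * φ y) ^ 2 ≤
        2 * (ip v (Gd4 δ)) ^ 2 + 2 * (δ * ∫ y, v y * φ y) ^ 2 := by
      (first | linarith only [sq_nonneg (ip v (Gd4 δ) - δ * ∫ y, v y * φ y)] | nlinarith only [sq_nonneg (ip v (Gd4 δ) - δ * ∫ y, v y * φ y)])
    have h2 : 2 * (δ * ∫ y, v y * φ y) ^ 2 ≤ 2 * δ ^ 2 * (Kc * S0) := by
      rw [mul_pow]
      (first | linarith only [sq_nonneg δ, hcs2] | nlinarith only [sq_nonneg δ, hcs2])
    linarith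
  rw [hS]
  set G : ℝ := (ip v (Gd4 δ)) ^ 2 with hG
  have hG0 : 0 ≤ G := sq_nonneg _
  have hσ0 : 0 < η * γ := by positivity
  set σ : ℝ := η * γ with hσd
  have hA2 : A ≤ CV * (2 * G + 2 * δ ^ 2 * (Kc * S0) + J) + 1 / 8 * (S0 + S1) := by
    refine hVv.trans ?_
    have : CV * ((ip v (deriv (deriv (Qf 4)))) ^ 2 + J) ≤ CV * (2 * G + 2 * δ ^ 2 * (Kc * S0) + J) := by
      gcongr
    linarith
  have h1 : σ / 2 * A ≤ σ / 2 * (CV * (2 * G + 2 * δ ^ 2 * (Kc * S0) + J) + 1 / 8 * (S0 + S1)) := by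
    gcongr
  have h2 : σ / 2 * (CV * J) ≤ 1 / 2 * J := by
    have : σ * CV * J ≤ 1 * J := mul_le_mul_of_nonneg_right hσ hJ0
    linarith
  have h3 : σ / 2 * (CV * (2 * δ ^ 2 * (Kc * S0))) ≤ σ * (1 / 16) * S0 := by
    have h4 : CV * Kc * δ ^ 2 * (σ * S0) ≤ 1 / 16 * (σ * S0) :=
      mul_le_mul_of_nonneg_right hδK (mul_nonneg hσ0.le hS00)
    calc _ = CV * Kc * δ ^ 2 * (σ * S0) := by ring
      _ ≤ _ := h4
      _ = _ := by ring
  have h5 : σ / 2 * (CV * (2 * G)) ≤ 1 * G := by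
    have : σ * CV * G ≤ 1 * G := mul_le_mul_of_nonneg_right hσ hG0
    linarith
  have h6 : 0 ≤ σ * S1 := mul_nonneg hσ0.le hS10
  have h7 : 0 ≤ σ * S0 := mul_nonneg hσ0.le hS00
  have hJn : Jn v = J := rfl
  rw [hJn]
  (first | linarith only [h1, h2, h3, h5, h6, key] | nlinarith only [h1, h2, h3, h5, h6, key])

end H98KC

end

end S_H98_KC_Vkb
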