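import Mathlib
import Pool.Agent.H98.BU.G02
import Pool.Agent.H98.BU.G05
import Pool.Agent.H98.BU.G06

/-! Blow-up for `u_t + u^k u_x + u_xxx - u_xx = 0`, part G12: this file joins several modules
to save build time (`Pool/Agent/H98/{KB,KC}`, `H72/{KB,KC}`, `H68/KC`, `H37/{KB,KC}`). -/

section S_H98_KB_Vcu

/-!
# Vcu : cut-off of the virial weight (Lemma V5) and the commutator error (Lemma V6)

`ϱ = √χ = 1/cosh(y/B)`, `ϱ² = ch B`, `|ϱ'| ≤ ϱ/B`.  `ṽ = ϱ v`, `ṽ' = ϱ v'+ϱ' v`.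
`cut_H`: `Hf k (ψ) (ϱv) = ∫χ[(3/2)ψ'v'²+(1/2)(ψ'-ψ''')v²-(1/2)(ψQ^k)'v²] + (3/2)∫ψ'(χ'vv'+ϱ'²v²)` and
`(ψχ)' = ψ'χ+ψχ'`, `(ψχ)''' = ψ'''χ+3ψ''χ'+3ψ'χ''+ψχ'''`, `(ψχQ^k)'=(ψQ^k)'χ+ψQ^kχ'`.  All functions
`ψ,ψ',ψ'',ψ''',Q^k` are bounded (constants depending on `k,η,γ`), `|χ'| ≤ (2/B)χ`, `|χ''| ≤ (8/B²)χ`, `|χ'''| ≤ (40/B³)χ`.
Hence `|Hf k (ψχ) v - Hf k ψ (ϱv)| ≤ (C/B)∫χ(v²+v'²)`.
`cut_ip`: `ip (ϱv) G - ip v G = ∫ ϱ v (1-1/ϱ) G`, `|1-1/ϱ| = cosh(y/B)-1 ≤ (y²/(2B²))e^{|y|/B} ≤ (1/B) e^{|y|/4}·C`; Cauchy-Schwarz with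
`w = se2 γ` (`γ ≤ 1/8`, `|G| ≤ C e^{-3|y|/4}`, uniformly in `δ ≤ 1/16`): `≤ (C/B)(∫ w (ϱv)²)^{1/2}`.
`cut_loc`: `∫loc(v²+v'²) ≤ 3∫w((ϱv)²+((ϱv)')²)` (`ϱv' = (ϱv)' - (ϱ'/ϱ)ϱv`).
`Ed_le`: `|∫ ψχ v Ed| ≤ C√δ ∫loc(v²+v'²)`:  first term: `δ|∫Ψ v Sm h| ≤ δ(1+η)(∫ wχ v²)^{1/2}(∫(χ/w)(Sm h)²)^{1/2}`
with `h=(Q^k)''v'` and the weight `W=χ cosh²(γy) ∈ Cl`, `δ|W''| ≤ W/4` (`|W''| ≤ 4(2γ+2/B)²W ≤ W`, `δ ≤ 1/16`), so
`∫W(Sm h)² ≤ (4/3)∫W h² ≤ C∫ wχ v'²` because `|(Q^k)''| cosh²(γy) ≤ C`.  Second term the same with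
`δ∫W((Sm h)')² ≤ ∫W h²`, which gives `2δ·δ^{-1/2} = 2√δ`.
-/

open MeasureTheory Filter Topology Set
open scoped ContDiff

namespace H98KB

/-- `sech(y/B)` -/
noncomputable def rh (B y : ℝ) : ℝ := 1 / Real.cosh (y / B)

theorem Vcu_int {k : ℕ} (hk : 1 ≤ k) {p q : ℝ} {W v : ℝ → ℝ} (hW : Cl 0 0 W) (hv : Cl p q v)
    (hp : 0 < p) (hq : 0 < q) :
    Integrable (fun y => 3 / 2 * deriv W y * (deriv v y) ^ 2
      + 1 / 2 * (deriv W y - deriv (deriv (deriv W)) y) * (v y) ^ 2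
      - 1 / 2 * deriv (fun z => W z * Qf k z ^ k) y * (v y) ^ 2) := by
  have hQ0 : Cl 0 0 (fun y => Qf k y ^ k) :=
    Cl_mono (Cl_Qk hk) (Nat.cast_nonneg k) (Nat.cast_nonneg k)
  have hWQ : Cl 0 0 (fun z => W z * Qf k z ^ k) := Cl_mul0 hW hQ0
  have v2 : Cl (p + p) (q + q) (fun y => v y * v y) := Cl_mul hv hv
  have dv2 : Cl (p + p) (q + q) (fun y => deriv v y * deriv v y) := Cl_mul (Cl_der hv) (Cl_der hv)
  have h1 := Cl_mul0 (Cl_smul (3 / 2) (Cl_der hW)) dv2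
  have h2 := Cl_mul0 (Cl_smul (1 / 2) (Cl_sub (Cl_der hW) (Cl_der (Cl_der (Cl_der hW))))) v2
  have h3 := Cl_mul0 (Cl_smul (1 / 2) (Cl_der hWQ)) v2
  have h4 := Cl_int (Cl_sub (Cl_add h1 h2) h3) (by linarith) (by linarith)
  refine h4.congr (Eventually.of_forall fun y => ?_)
  simp only
  ring

theorem Vcu_rh {B : ℝ} (hB : 0 < B) : Cl (1 / B) (1 / B) (rh B) := by
  have h := Cl_sech (c := 1 / B) (by positivity)
  have e : rh B = fun y => 1 / Real.cosh (1 / B * y) := by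
    funext y
    unfold rh
    rw [show y / B = 1 / B * y by ring]
  rw [e]
  exact h

theorem Vcu_rh_sq (B y : ℝ) : ch B y = rh B y * rh B y := by
  unfold ch rh
  ring

/-- `ϱ' = -(1/B) tanh(y/B) ϱ` -/
theorem Vcu_rh_hd {B : ℝ} (y : ℝ) :
    HasDerivAt (rh B) (-(1 / B) * Real.tanh (y / B) * rh B y) y := by
  have h1 : HasDerivAt (fun y : ℝ => y / B) (1 / B) y := (hasDerivAt_id y).div_const B
  have h2 : HasDerivAt (fun y : ℝ => Real.cosh (y / B)) (Real.sinh (y / B) * (1 / B)) y :=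
    (Real.hasDerivAt_cosh _).comp y h1
  have hc : Real.cosh (y / B) ≠ 0 := (Real.cosh_pos _).ne'
  have h3 := h2.inv hc
  have e : rh B = fun y => (Real.cosh (y / B))⁻¹ := by
    funext y
    unfold rh
    rw [one_div]
  rw [e]
  refine h3.congr_deriv ?_
  rw [Real.tanh_eq_sinh_div_cosh]
  field_simp

theorem Vcu_est {B χ χ1 χ2 χ3 A0 A1 A2 q0 R1 v0 v1 K0 K1 K2 KQ : ℝ} (hB0 : 0 < B)
    (hc0 : 0 ≤ χ) (hK0 : 0 ≤ K0) (hK1 : 0 ≤ K1) (hK2 : 0 ≤ K2) (hKQ : 0 ≤ KQ)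
    (b1 : |χ1| ≤ 2 / B * χ) (b2 : |χ2| ≤ 1 / B * χ) (b3 : |χ3| ≤ 1 / B * χ)
    (hR1' : R1 ^ 2 ≤ 1 / B * χ) (a0 : |A0| ≤ K0) (a1 : |A1| ≤ K1) (a2 : |A2| ≤ K2)
    (aq : |q0| ≤ KQ) :
    |3 / 2 * A0 * χ1 * v1 ^ 2 + 1 / 2 * A0 * χ1 * v0 ^ 2 - 3 / 2 * A2 * χ1 * v0 ^ 2
        - 3 / 2 * A1 * χ2 * v0 ^ 2 - 1 / 2 * A0 * χ3 * v0 ^ 2 - 1 / 2 * A0 * q0 * χ1 * v0 ^ 2
        - 3 / 2 * A1 * χ1 * (v0 * v1) - 3 / 2 * A1 * R1 ^ 2 * v0 ^ 2| ≤
      (10 * (K0 + K1 + K2 + K0 * KQ) + 1) / B * (χ * (v0 ^ 2 + v1 ^ 2)) := by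
  have n2 : |v0 * v1| ≤ v0 ^ 2 + v1 ^ 2 := by
    rw [abs_le]
    constructor <;> nlinarith [sq_nonneg (v0 + v1), sq_nonneg (v0 - v1), sq_nonneg v0, sq_nonneg v1]
  have v0n : |v0 ^ 2| ≤ v0 ^ 2 + v1 ^ 2 := by
    rw [abs_of_nonneg (sq_nonneg _)]
    linarith [sq_nonneg v1]
  have v1n : |v1 ^ 2| ≤ v0 ^ 2 + v1 ^ 2 := by
    rw [abs_of_nonneg (sq_nonneg _)]
    linarith [sq_nonneg v0]
  have hN0 : 0 ≤ v0 ^ 2 + v1 ^ 2 := by positivity
  have hY0 : 0 ≤ 1 / B * χ := by positivity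
  have b1' : |χ1| ≤ 2 * (1 / B * χ) := b1.trans (le_of_eq (by ring))
  have g : (10 * (K0 + K1 + K2 + K0 * KQ) + 1) / B * (χ * (v0 ^ 2 + v1 ^ 2)) =
      (10 * (K0 + K1 + K2 + K0 * KQ) + 1) * ((1 / B * χ) * (v0 ^ 2 + v1 ^ 2)) := by
    ring
  rw [g]
  generalize v0 ^ 2 + v1 ^ 2 = N at n2 v0n v1n hN0 ⊢
  generalize 1 / B * χ = Y at hR1' b2 b3 b1' hY0 ⊢
  have M : ∀ {s t w S T : ℝ}, |s| ≤ S → |t| ≤ T → |w| ≤ N → |s * t * w| ≤ S * T * N := by
    intro s t w S T hs ht hw'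
    rw [abs_mul, abs_mul]
    have hS : 0 ≤ S := (abs_nonneg _).trans hs
    have hT : 0 ≤ T := (abs_nonneg _).trans ht
    gcongr
  have t1 := M a0 b1' v1n
  have t2 := M a0 b1' v0n
  have t3 := M a2 b1' v0n
  have t4 := M a1 b2 v0n
  have t5 := M a0 b3 v0n
  have t6 : |(A0 * q0) * χ1 * v0 ^ 2| ≤ (K0 * KQ) * (2 * Y) * N := by
    refine M ?_ b1' v0n
    rw [abs_mul]
    gcongr
  have t7 := M a1 b1' n2
  have t8 : |A1 * R1 ^ 2 * v0 ^ 2| ≤ K1 * Y * N := by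
    refine M a1 ?_ v0n
    rw [abs_of_nonneg (sq_nonneg _)]
    exact hR1'
  have z1 : 0 ≤ K0 * (Y * N) := by positivity
  have z2 : 0 ≤ K1 * (Y * N) := by positivity
  have z3 : 0 ≤ K2 * (Y * N) := by positivity
  have z4 : 0 ≤ K0 * KQ * (Y * N) := by positivity
  have z5 : 0 ≤ Y * N := by positivity
  rw [abs_le] at t1 t2 t3 t4 t5 t6 t7 t8 ⊢
  obtain ⟨l1, r1⟩ := t1
  obtain ⟨l2, r2⟩ := t2
  obtain ⟨l3, r3⟩ := t3
  obtain ⟨l4, r4⟩ := t4
  obtain ⟨l5, r5⟩ := t5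
  obtain ⟨l6, r6⟩ := t6
  obtain ⟨l7, r7⟩ := t7
  obtain ⟨l8, r8⟩ := t8
  constructor <;> linarith

theorem cut_H (k : ℕ) (hk : 1 ≤ k) (η γ : ℝ) : ∃ C : ℝ, 0 < C ∧ ∀ B : ℝ, 16 ≤ B →
    ∀ (p q : ℝ) (v : ℝ → ℝ), 0 < p → 0 < q → Cl p q v →
    |Hf k (Psi k η γ B) v - Hf k (psi k η γ) (fun y => rh B y * v y)| ≤
      C / B * ∫ y, ch B y * ((v y) ^ 2 + (deriv v y) ^ 2) := by
  set a := psi k η γ with ha
  have h0 : Cl 0 0 a := Cl_psi k η γ
  have h1 := Cl_der h0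
  have h2 := Cl_der h1
  have h3 := Cl_der h2
  obtain ⟨K0, hK0, k0⟩ := Cl_bnd h0
  obtain ⟨K1, hK1, k1⟩ := Cl_bnd h1
  obtain ⟨K2, hK2, k2⟩ := Cl_bnd h2
  have hQ0 : Cl 0 0 (fun y => Qf k y ^ k) :=
    Cl_mono (Cl_Qk hk) (Nat.cast_nonneg k) (Nat.cast_nonneg k)
  obtain ⟨KQ, hKQ, kQ⟩ := Cl_bnd hQ0
  simp only [bd_zero, mul_one] at k0 k1 k2 kQ
  refine ⟨10 * (K0 + K1 + K2 + K0 * KQ) + 1, by positivity, ?_⟩
  intro B hB p q v hp hq hv
  have hB0 : 0 < B := by linarith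
  have hB1 : 1 ≤ B := by linarith
  have c0 : Cl (2 / B) (2 / B) (ch B) := Cl_ch hB0
  have hPsi : Psi k η γ B = fun y => a y * ch B y := by
    funext y
    rfl
  have i1 := Vcu_int hk (Cl_mono (Cl_Psi k η γ hB0) (by positivity) (by positivity)) hv hp hq
  have r0 := Vcu_rh hB0
  have hw : Cl (1 / B + p) (1 / B + q) (fun y => rh B y * v y) := Cl_mul r0 hv
  have i2 := Vcu_int hk h0 hw (by positivity) (by positivity)
  have i3 : Integrable (fun y => ch B y * ((v y) ^ 2 + (deriv v y) ^ 2)) := by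
    have v2 : Cl (p + p) (q + q) (fun y => v y * v y) := Cl_mul hv hv
    have dv2 : Cl (p + p) (q + q) (fun y => deriv v y * deriv v y) :=
      Cl_mul (Cl_der hv) (Cl_der hv)
    have h4 := Cl_int (Cl_mul c0 (Cl_add v2 dv2)) (by positivity) (by positivity)
    refine h4.congr (Eventually.of_forall fun y => ?_)
    simp only
    ring
  unfold Hf
  rw [← integral_sub i1 i2, ← integral_const_mul]
  refine (abs_integral_le_integral_abs).trans (integral_mono (i1.sub i2).abs (i3.const_mul _) ?_)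
  intro y
  -- derivatives
  have d0 := fun y => Cl_hd h0 y
  have d1 := fun y => Cl_hd h1 y
  have d2 := fun y => Cl_hd h2 y
  have e0 := fun y => Cl_hd c0 y
  have e1 := fun y => Cl_hd (Cl_der c0) y
  have e2 := fun y => Cl_hd (Cl_der (Cl_der c0)) y
  have P1 : deriv (Psi k η γ B) = fun y => deriv a y * ch B y + a y * deriv (ch B) y := by
    rw [hPsi]
    funext y
    exact ((d0 y).mul (e0 y)).deriv
  have P2 : deriv (deriv (Psi k η γ B)) = fun y => (deriv (deriv a) y * ch B y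
      + deriv a y * deriv (ch B) y) + (deriv a y * deriv (ch B) y
      + a y * deriv (deriv (ch B)) y) := by
    rw [P1]
    funext y
    exact (((d1 y).mul (e0 y)).add ((d0 y).mul (e1 y))).deriv
  have P3 : deriv (deriv (deriv (Psi k η γ B))) y =
      ((deriv (deriv (deriv a)) y * ch B y + deriv (deriv a) y * deriv (ch B) y)
        + (deriv (deriv a) y * deriv (ch B) y + deriv a y * deriv (deriv (ch B)) y))
      + ((deriv (deriv a) y * deriv (ch B) y + deriv a y * deriv (deriv (ch B)) y)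
        + (deriv a y * deriv (deriv (ch B)) y + a y * deriv (deriv (deriv (ch B))) y)) := by
    rw [P2]
    exact ((((d2 y).mul (e0 y)).add ((d1 y).mul (e1 y))).add
      (((d1 y).mul (e1 y)).add ((d0 y).mul (e2 y)))).deriv
  have PQ : deriv (fun z => Psi k η γ B z * Qf k z ^ k) y =
      deriv (fun z => a z * Qf k z ^ k) y * ch B y + (a y * Qf k y ^ k) * deriv (ch B) y := by
    have : (fun z => Psi k η γ B z * Qf k z ^ k) = fun z => (a z * Qf k z ^ k) * ch B z := by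
      funext z
      rw [hPsi]
      ring
    rw [this]
    exact ((Cl_hd (Cl_mul0 h0 hQ0) y).mul (e0 y)).deriv
  -- the cut-off function
  set R : ℝ := rh B y with hR
  set R1 : ℝ := -(1 / B) * Real.tanh (y / B) * rh B y with hR1
  have dR : HasDerivAt (rh B) R1 y := Vcu_rh_hd y
  have dv : HasDerivAt v (deriv v y) y := Cl_hd hv y
  have W1 : deriv (fun y => rh B y * v y) y = R1 * v y + R * deriv v y := (dR.mul dv).deriv
  have hc : ch B y = R * R := Vcu_rh_sq B y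
  have hc1 : deriv (ch B) y = 2 * R * R1 := by
    have : ch B = fun y => rh B y * rh B y := funext fun y => Vcu_rh_sq B y
    rw [this]
    have := (dR.mul dR).deriv
    refine this.trans ?_
    rw [← hR]
    ring
  have hR1' : R1 ^ 2 ≤ 1 / B * ch B y := by
    rw [hR1, hc, ← hR]
    have ht : (Real.tanh (y / B)) ^ 2 ≤ 1 := by
      have := (tanh_abs_lt (y / B)).le
      rw [← sq_abs]
      exact pow_le_one₀ (abs_nonneg _) this
    have hb : (1 / B) ^ 2 ≤ 1 / B := by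
      have h5 : 1 / B ≤ 1 := by
        rw [div_le_one hB0]
        exact hB1
      have h6 : 0 ≤ 1 / B := by positivity
      (first | linarith only [h5, h6] | nlinarith only [h5, h6])
    calc (-(1 / B) * Real.tanh (y / B) * R) ^ 2
        = (1 / B) ^ 2 * (Real.tanh (y / B)) ^ 2 * (R * R) := by ring
      _ ≤ (1 / B) * 1 * (R * R) := by
          have : 0 ≤ R * R := mul_self_nonneg R
          gcongr
      _ = _ := by ring
  have b1 : |deriv (ch B) y| ≤ 2 / B * ch B y := ch1_le hB1 y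
  have b2 : |deriv (deriv (ch B)) y| ≤ 1 / B * ch B y := by
    refine (ch2_le hB1 y).trans ?_
    have hc0 : 0 ≤ ch B y := by rw [hc]; exact mul_self_nonneg R
    refine mul_le_mul_of_nonneg_right ?_ hc0
    rw [div_le_div_iff₀ (by positivity) hB0]
    (first | linarith only [hB] | nlinarith only [hB])
  have b3 : |deriv (deriv (deriv (ch B))) y| ≤ 1 / B * ch B y := by
    refine (ch3_le hB1 y).trans ?_
    have hc0 : 0 ≤ ch B y := by rw [hc]; exact mul_self_nonneg R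
    refine mul_le_mul_of_nonneg_right ?_ hc0
    rw [div_le_div_iff₀ (by positivity) hB0]
    (first | linarith only [mul_pos hB0 hB0, hB] | nlinarith only [mul_pos hB0 hB0, hB])
  have hc0 : 0 ≤ ch B y := by rw [hc]; exact mul_self_nonneg R
  beta_reduce
  rw [P3, PQ, P1, W1]
  simp only
  set χ := ch B y with hχ
  set χ1 := deriv (ch B) y with hχ1
  set χ2 := deriv (deriv (ch B)) y with hχ2
  set χ3 := deriv (deriv (deriv (ch B))) y with hχ3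
  set A0 := a y with hA0
  set A1 := deriv a y with hA1
  set A2 := deriv (deriv a) y with hA2
  set A3 := deriv (deriv (deriv a)) y with hA3
  set q0 := Qf k y ^ k with hq0
  set D0 := deriv (fun z => a z * Qf k z ^ k) y with hD0
  set v0 := v y with hv0
  set v1 := deriv v y with hv1
  have key : (3 / 2 * (A1 * χ + A0 * χ1) * v1 ^ 2
      + 1 / 2 * ((A1 * χ + A0 * χ1) - (((A3 * χ + A2 * χ1) + (A2 * χ1 + A1 * χ2))
        + ((A2 * χ1 + A1 * χ2) + (A1 * χ2 + A0 * χ3)))) * v0 ^ 2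
      - 1 / 2 * (D0 * χ + A0 * q0 * χ1) * v0 ^ 2)
      - (3 / 2 * A1 * (R1 * v0 + R * v1) ^ 2 + 1 / 2 * (A1 - A3) * (R * v0) ^ 2
        - 1 / 2 * D0 * (R * v0) ^ 2)
      = 3 / 2 * A0 * χ1 * v1 ^ 2 + 1 / 2 * A0 * χ1 * v0 ^ 2 - 3 / 2 * A2 * χ1 * v0 ^ 2
        - 3 / 2 * A1 * χ2 * v0 ^ 2 - 1 / 2 * A0 * χ3 * v0 ^ 2 - 1 / 2 * A0 * q0 * χ1 * v0 ^ 2
        - 3 / 2 * A1 * χ1 * (v0 * v1) - 3 / 2 * A1 * R1 ^ 2 * v0 ^ 2 := by
    rw [hc1, hc]
    ring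
  rw [key]
  exact Vcu_est hB0 hc0 hK0 hK1 hK2 hKQ b1 b2 b3 hR1' (k0 y) (k1 y) (k2 y) (kQ y)

end H98KB

end S_H98_KB_Vcu

section S_H98_KC_Vkc

/-!
# Vkc (MP_95be7d_S4): cut-off of the virial weight for functions of class `Cl 0 0` (variant of `cut_H` in `KB/Vcu.lean`)

The proof of `cut_H` (KB/Vcu.lean) uses `0 < p`, `0 < q` only for integrability; here `v ∈ Cl 0 0`, and every integrand contains a factor
`ch B ∈ Cl (2/B) (2/B)` or `(rh B)² `, so it is integrable as well.  (`Vcu_int` is for decaying functions: apply it to `rh B · v ∈ Cl (1/B) (1/B)` for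
`Hf 4 (psi 4 η γ) (rh v)`; for `Hf 4 (Psi 4 η γ B) v` use that `Psi ∈ Cl (2/B) (2/B)`.)  The pointwise lemma `Vcu_est` is reusable.
-/

open MeasureTheory Filter Topology Set
open scoped ContDiff

noncomputable section

namespace H98KC

open H98KB H68KC

theorem Vkc_int {k : ℕ} (hk : 1 ≤ k) {a b : ℝ} {W v : ℝ → ℝ} (hW : Cl a b W) (ha : 0 < a) (hb : 0 < b)
    (hv : Cl 0 0 v) :
    Integrable (fun y => 3 / 2 * deriv W y * (deriv v y) ^ 2
      + 1 / 2 * (deriv W y - deriv (deriv (deriv W)) y) * (v y) ^ 2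
      - 1 / 2 * deriv (fun z => W z * Qf k z ^ k) y * (v y) ^ 2) := by
  have hQ0 : Cl 0 0 (fun y => Qf k y ^ k) :=
    Cl_mono (Cl_Qk hk) (Nat.cast_nonneg k) (Nat.cast_nonneg k)
  have hWQ : Cl a b (fun z => W z * Qf k z ^ k) := by
    have h := Cl_mul hW hQ0
    rwa [add_zero, add_zero] at h
  have v2 : Cl 0 0 (fun y => v y * v y) := Cl_mul0 hv hv
  have dv2 : Cl 0 0 (fun y => deriv v y * deriv v y) := Cl_mul0 (Cl_der hv) (Cl_der hv)
  have h1 := Cl_mul0 dv2 (Cl_smul (3 / 2) (Cl_der hW))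
  have h2 := Cl_mul0 v2 (Cl_smul (1 / 2) (Cl_sub (Cl_der hW) (Cl_der (Cl_der (Cl_der hW)))))
  have h3 := Cl_mul0 v2 (Cl_smul (1 / 2) (Cl_der hWQ))
  have h4 := Cl_int (Cl_sub (Cl_add h1 h2) h3) ha hb
  refine h4.congr (Eventually.of_forall fun y => ?_)
  simp only
  ring

theorem cut_H0 (η γ : ℝ) : ∃ C : ℝ, 0 < C ∧ ∀ B : ℝ, 16 ≤ B → ∀ v : ℝ → ℝ, Cl 0 0 v →
    |Hf 4 (Psi 4 η γ B) v - Hf 4 (psi 4 η γ) (fun y => rh B y * v y)| ≤
      C / B * ∫ y, ch B y * ((v y) ^ 2 + (deriv v y) ^ 2) := by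
  have hk : 1 ≤ 4 := by norm_num
  set a := psi 4 η γ with ha
  have h0 : Cl 0 0 a := Cl_psi 4 η γ
  have h1 := Cl_der h0
  have h2 := Cl_der h1
  have h3 := Cl_der h2
  obtain ⟨K0, hK0, k0⟩ := Cl_bnd h0
  obtain ⟨K1, hK1, k1⟩ := Cl_bnd h1
  obtain ⟨K2, hK2, k2⟩ := Cl_bnd h2
  have hQ0 : Cl 0 0 (fun y => Qf 4 y ^ 4) :=
    Cl_mono (Cl_Qk hk) (Nat.cast_nonneg 4) (Nat.cast_nonneg 4)
  obtain ⟨KQ, hKQ, kQ⟩ := Cl_bnd hQ0
  simp only [bd_zero, mul_one] at k0 k1 k2 kQ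
  refine ⟨10 * (K0 + K1 + K2 + K0 * KQ) + 1, by positivity, ?_⟩
  intro B hB v hv
  have hB0 : 0 < B := by linarith
  have hB1 : 1 ≤ B := by linarith
  have c0 : Cl (2 / B) (2 / B) (ch B) := Cl_ch hB0
  have hPsi : Psi 4 η γ B = fun y => a y * ch B y := by
    funext y
    rfl
  have i1 := Vkc_int hk (Cl_Psi 4 η γ hB0) (by positivity) (by positivity) hv
  have r0 := Vcu_rh hB0
  have hw : Cl (1 / B + 0) (1 / B + 0) (fun y => rh B y * v y) := Cl_mul r0 hv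
  have i2 := Vcu_int hk h0 hw (by positivity) (by positivity)
  have i3 : Integrable (fun y => ch B y * ((v y) ^ 2 + (deriv v y) ^ 2)) := by
    have v2 : Cl 0 0 (fun y => v y * v y) := Cl_mul0 hv hv
    have dv2 : Cl 0 0 (fun y => deriv v y * deriv v y) :=
      Cl_mul0 (Cl_der hv) (Cl_der hv)
    have h4 := Cl_int (Cl_mul c0 (Cl_add v2 dv2)) (by positivity) (by positivity)
    refine h4.congr (Eventually.of_forall fun y => ?_)
    simp only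
    ring
  unfold Hf
  rw [← integral_sub i1 i2, ← integral_const_mul]
  refine (abs_integral_le_integral_abs).trans (integral_mono (i1.sub i2).abs (i3.const_mul _) ?_)
  intro y
  -- derivatives
  have d0 := fun y => Cl_hd h0 y
  have d1 := fun y => Cl_hd h1 y
  have d2 := fun y => Cl_hd h2 y
  have e0 := fun y => Cl_hd c0 y
  have e1 := fun y => Cl_hd (Cl_der c0) y
  have e2 := fun y => Cl_hd (Cl_der (Cl_der c0)) y
  have P1 : deriv (Psi 4 η γ B) = fun y => deriv a y * ch B y + a y * deriv (ch B) y := by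
    rw [hPsi]
    funext y
    exact ((d0 y).mul (e0 y)).deriv
  have P2 : deriv (deriv (Psi 4 η γ B)) = fun y => (deriv (deriv a) y * ch B y
      + deriv a y * deriv (ch B) y) + (deriv a y * deriv (ch B) y
      + a y * deriv (deriv (ch B)) y) := by
    rw [P1]
    funext y
    exact (((d1 y).mul (e0 y)).add ((d0 y).mul (e1 y))).deriv
  have P3 : deriv (deriv (deriv (Psi 4 η γ B))) y =
      ((deriv (deriv (deriv a)) y * ch B y + deriv (deriv a) y * deriv (ch B) y)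
        + (deriv (deriv a) y * deriv (ch B) y + deriv a y * deriv (deriv (ch B)) y))
      + ((deriv (deriv a) y * deriv (ch B) y + deriv a y * deriv (deriv (ch B)) y)
        + (deriv a y * deriv (deriv (ch B)) y + a y * deriv (deriv (deriv (ch B))) y)) := by
    rw [P2]
    exact ((((d2 y).mul (e0 y)).add ((d1 y).mul (e1 y))).add
      (((d1 y).mul (e1 y)).add ((d0 y).mul (e2 y)))).deriv
  have PQ : deriv (fun z => Psi 4 η γ B z * Qf 4 z ^ 4) y =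
      deriv (fun z => a z * Qf 4 z ^ 4) y * ch B y + (a y * Qf 4 y ^ 4) * deriv (ch B) y := by
    have : (fun z => Psi 4 η γ B z * Qf 4 z ^ 4) = fun z => (a z * Qf 4 z ^ 4) * ch B z := by
      funext z
      rw [hPsi]
      ring
    rw [this]
    exact ((Cl_hd (Cl_mul0 h0 hQ0) y).mul (e0 y)).deriv
  -- the cut-off function
  set R : ℝ := rh B y with hR
  set R1 : ℝ := -(1 / B) * Real.tanh (y / B) * rh B y with hR1
  have dR : HasDerivAt (rh B) R1 y := Vcu_rh_hd y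
  have dv : HasDerivAt v (deriv v y) y := Cl_hd hv y
  have W1 : deriv (fun y => rh B y * v y) y = R1 * v y + R * deriv v y := (dR.mul dv).deriv
  have hc : ch B y = R * R := Vcu_rh_sq B y
  have hc1 : deriv (ch B) y = 2 * R * R1 := by
    have : ch B = fun y => rh B y * rh B y := funext fun y => Vcu_rh_sq B y
    rw [this]
    have := (dR.mul dR).deriv
    refine this.trans ?_
    rw [← hR]
    ring
  have hR1' : R1 ^ 2 ≤ 1 / B * ch B y := by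
    rw [hR1, hc, ← hR]
    have ht : (Real.tanh (y / B)) ^ 2 ≤ 1 := by
      have := (tanh_abs_lt (y / B)).le
      rw [← sq_abs]
      exact pow_le_one₀ (abs_nonneg _) this
    have hb : (1 / B) ^ 2 ≤ 1 / B := by
      have h5 : 1 / B ≤ 1 := by
        rw [div_le_one hB0]
        exact hB1
      have h6 : 0 ≤ 1 / B := by positivity
      (first | linarith only [h5, h6] | nlinarith only [h5, h6])
    calc (-(1 / B) * Real.tanh (y / B) * R) ^ 2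
        = (1 / B) ^ 2 * (Real.tanh (y / B)) ^ 2 * (R * R) := by ring
      _ ≤ (1 / B) * 1 * (R * R) := by
          have : 0 ≤ R * R := mul_self_nonneg R
          gcongr
      _ = _ := by ring
  have b1 : |deriv (ch B) y| ≤ 2 / B * ch B y := ch1_le hB1 y
  have b2 : |deriv (deriv (ch B)) y| ≤ 1 / B * ch B y := by
    refine (ch2_le hB1 y).trans ?_
    have hc0 : 0 ≤ ch B y := by rw [hc]; exact mul_self_nonneg R
    refine mul_le_mul_of_nonneg_right ?_ hc0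
    rw [div_le_div_iff₀ (by positivity) hB0]
    (first | linarith only [hB] | nlinarith only [hB])
  have b3 : |deriv (deriv (deriv (ch B))) y| ≤ 1 / B * ch B y := by
    refine (ch3_le hB1 y).trans ?_
    have hc0 : 0 ≤ ch B y := by rw [hc]; exact mul_self_nonneg R
    refine mul_le_mul_of_nonneg_right ?_ hc0
    rw [div_le_div_iff₀ (by positivity) hB0]
    (first | linarith only [mul_pos hB0 hB0, hB] | nlinarith only [mul_pos hB0 hB0, hB])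
  have hc0 : 0 ≤ ch B y := by rw [hc]; exact mul_self_nonneg R
  beta_reduce
  rw [P3, PQ, P1, W1]
  simp only
  set χ := ch B y with hχ
  set χ1 := deriv (ch B) y with hχ1
  set χ2 := deriv (deriv (ch B)) y with hχ2
  set χ3 := deriv (deriv (deriv (ch B))) y with hχ3
  set A0 := a y with hA0
  set A1 := deriv a y with hA1
  set A2 := deriv (deriv a) y with hA2
  set A3 := deriv (deriv (deriv a)) y with hA3
  set q0 := Qf 4 y ^ 4 with hq0
  set D0 := deriv (fun z => a z * Qf 4 z ^ 4) y with hD0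
  set v0 := v y with hv0
  set v1 := deriv v y with hv1
  have key : (3 / 2 * (A1 * χ + A0 * χ1) * v1 ^ 2
      + 1 / 2 * ((A1 * χ + A0 * χ1) - (((A3 * χ + A2 * χ1) + (A2 * χ1 + A1 * χ2))
        + ((A2 * χ1 + A1 * χ2) + (A1 * χ2 + A0 * χ3)))) * v0 ^ 2
      - 1 / 2 * (D0 * χ + A0 * q0 * χ1) * v0 ^ 2)
      - (3 / 2 * A1 * (R1 * v0 + R * v1) ^ 2 + 1 / 2 * (A1 - A3) * (R * v0) ^ 2
        - 1 / 2 * D0 * (R * v0) ^ 2)
      = 3 / 2 * A0 * χ1 * v1 ^ 2 + 1 / 2 * A0 * χ1 * v0 ^ 2 - 3 / 2 * A2 * χ1 * v0 ^ 2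
        - 3 / 2 * A1 * χ2 * v0 ^ 2 - 1 / 2 * A0 * χ3 * v0 ^ 2 - 1 / 2 * A0 * q0 * χ1 * v0 ^ 2
        - 3 / 2 * A1 * χ1 * (v0 * v1) - 3 / 2 * A1 * R1 ^ 2 * v0 ^ 2 := by
    rw [hc1, hc]
    ring
  rw [key]
  exact Vcu_est hB0 hc0 hK0 hK1 hK2 hKQ b1 b2 b3 hR1' (k0 y) (k1 y) (k2 y) (kQ y)

end H98KC

end

end S_H98_KC_Vkc

section S_H98_KB_Vcv

/-!
# Vcv (second half of Vcu) : cut-off of the virial weight (Lemma V5) and the commutator error (Lemma V6)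

`ϱ = √χ = 1/cosh(y/B)`, `ϱ² = ch B`, `|ϱ'| ≤ ϱ/B`.  `ṽ = ϱ v`, `ṽ' = ϱ v'+ϱ' v`.
`cut_H`: `Hf k (ψ) (ϱv) = ∫χ[(3/2)ψ'v'²+(1/2)(ψ'-ψ''')v²-(1/2)(ψQ^k)'v²] + (3/2)∫ψ'(χ'vv'+ϱ'²v²)` and
`(ψχ)' = ψ'χ+ψχ'`, `(ψχ)''' = ψ'''χ+3ψ''χ'+3ψ'χ''+ψχ'''`, `(ψχQ^k)'=(ψQ^k)'χ+ψQ^kχ'`.  All functions
`ψ,ψ',ψ'',ψ''',Q^k` are bounded (constants depending on `k,η,γ`), `|χ'| ≤ (2/B)χ`, `|χ''| ≤ (8/B²)χ`, `|χ'''| ≤ (40/B³)χ`.
Hence `|Hf k (ψχ) v - Hf k ψ (ϱv)| ≤ (C/B)∫χ(v²+v'²)`.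
`cut_ip`: `ip (ϱv) G - ip v G = ∫ ϱ v (1-1/ϱ) G`, `|1-1/ϱ| = cosh(y/B)-1 ≤ (y²/(2B²))e^{|y|/B} ≤ (1/B) e^{|y|/4}·C`; Cauchy-Schwarz with
`w = se2 γ` (`γ ≤ 1/8`, `|G| ≤ C e^{-3|y|/4}`, uniformly in `δ ≤ 1/16`): `≤ (C/B)(∫ w (ϱv)²)^{1/2}`.
`cut_loc`: `∫loc(v²+v'²) ≤ 3∫w((ϱv)²+((ϱv)')²)` (`ϱv' = (ϱv)' - (ϱ'/ϱ)ϱv`).
`Ed_le`: `|∫ ψχ v Ed| ≤ C√δ ∫loc(v²+v'²)`:  first term: `δ|∫Ψ v Sm h| ≤ δ(1+η)(∫ wχ v²)^{1/2}(∫(χ/w)(Sm h)²)^{1/2}`
with `h=(Q^k)''v'` and the weight `W=χ cosh²(γy) ∈ Cl`, `δ|W''| ≤ W/4` (`|W''| ≤ 4(2γ+2/B)²W ≤ W`, `δ ≤ 1/16`), so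
`∫W(Sm h)² ≤ (4/3)∫W h² ≤ C∫ wχ v'²` because `|(Q^k)''| cosh²(γy) ≤ C`.  Second term the same with
`δ∫W((Sm h)')² ≤ ∫W h²`, which gives `2δ·δ^{-1/2} = 2√δ`.
-/

open MeasureTheory Filter Topology Set
open scoped ContDiff

namespace H98KB

theorem Vcv_rh_pos (B y : ℝ) : 0 < rh B y := by
  unfold rh
  exact one_div_pos.2 (Real.cosh_pos _)

theorem Vcv_rh_le (B y : ℝ) : rh B y ≤ 1 := by
  unfold rh
  rw [div_le_one (Real.cosh_pos _)]
  exact Real.one_le_cosh _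

theorem Vcv_ch (B y : ℝ) : ch B y = rh B y ^ 2 := rfl

theorem Vcv_ch_pos (B y : ℝ) : 0 < ch B y := by
  rw [Vcv_ch]
  exact pow_pos (Vcv_rh_pos B y) 2

theorem Vcv_rh_eq (B : ℝ) : rh B = fun y => 1 / Real.cosh (1 / B * y) := by
  funext y
  unfold rh
  rw [show y / B = 1 / B * y by ring]

theorem Vcv_Cl_rh {B : ℝ} (hB : 0 < B) : Cl (1 / B) (1 / B) (rh B) := by
  rw [Vcv_rh_eq]
  exact Cl_sech (by positivity)

theorem Vcv_rh_hd (B y : ℝ) :
    HasDerivAt (rh B) (-(1 / B) * Real.tanh (1 / B * y) * rh B y) y := by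
  rw [Vcv_rh_eq]
  have h1 : HasDerivAt (fun y : ℝ => 1 / B * y) (1 / B) y := by
    simpa using (hasDerivAt_id y).const_mul (1 / B)
  have h2 : HasDerivAt (fun y : ℝ => Real.cosh (1 / B * y)) (Real.sinh (1 / B * y) * (1 / B)) y :=
    (Real.hasDerivAt_cosh (1 / B * y)).comp y h1
  have hc := (Real.cosh_pos (1 / B * y)).ne'
  have h3 := h2.inv hc
  have e : (fun y => 1 / Real.cosh (1 / B * y)) = fun y : ℝ => (Real.cosh (1 / B * y))⁻¹ := by
    funext y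
    rw [one_div (Real.cosh (1 / B * y))]
  rw [e]
  refine h3.congr_deriv ?_
  rw [Real.tanh_eq_sinh_div_cosh]
  field_simp

/-- `cosh x - 1 ≤ (x²/2) e^{|x|}` -/
theorem Vcv_cosh (x : ℝ) : Real.cosh x - 1 ≤ x ^ 2 / 2 * Real.exp |x| := by
  obtain ⟨t, ht⟩ : ∃ t, t = |x| / 2 := ⟨_, rfl⟩
  have ht0 : 0 ≤ t := by rw [ht]; positivity
  have hx : |x| = 2 * t := by rw [ht]; ring
  have h1 : Real.cosh x = 1 + 2 * Real.sinh t ^ 2 := by
    rw [← Real.cosh_abs, hx, Real.cosh_two_mul, Real.cosh_sq]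
    ring
  have h2 : Real.sinh t ≤ t * Real.exp t := by
    rw [Real.sinh_eq]
    have h3 : 1 - 2 * t ≤ Real.exp (-(2 * t)) := by
      have := Real.add_one_le_exp (-(2 * t))
      linarith
    have h4 : Real.exp (-t) = Real.exp t * Real.exp (-(2 * t)) := by
      rw [← Real.exp_add]
      congr 1
      ring
    have h5 := mul_le_mul_of_nonneg_left h3 (Real.exp_pos t).le
    rw [h4]
    (first | linarith only [h5] | nlinarith only [h5])
  have h3 : 0 ≤ Real.sinh t := Real.sinh_nonneg_iff.2 ht0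
  have h4 : Real.sinh t ^ 2 ≤ (t * Real.exp t) ^ 2 := pow_le_pow_left₀ h3 h2 2
  have h5 : (t * Real.exp t) ^ 2 = t ^ 2 * Real.exp |x| := by
    rw [mul_pow, hx, ← Real.exp_nat_mul]
    norm_num
  have h6 : x ^ 2 = 4 * t ^ 2 := by rw [← sq_abs, hx]; ring
  rw [h1, h6]
  rw [h5] at h4
  linarith

theorem Vcv_one {B : ℝ} (hB : 16 ≤ B) (y : ℝ) :
    |1 - Real.cosh (y / B)| ≤ 4 / B * Real.exp (|y| / 4) := by
  have hB0 : 0 < B := by linarith
  have h0 := Real.one_le_cosh (y / B)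
  rw [abs_of_nonpos (by linarith), neg_sub]
  refine (Vcv_cosh (y / B)).trans ?_
  have hy := abs_nonneg y
  have h1 : y ^ 2 ≤ 128 * Real.exp (|y| / 8) := by
    have h := Real.quadratic_le_exp_of_nonneg (show 0 ≤ |y| / 8 by positivity)
    have e : y ^ 2 = |y| ^ 2 := (sq_abs y).symm
    rw [e]
    (first | linarith only [h, hy] | nlinarith only [h, hy])
  have h2 : (y / B) ^ 2 / 2 ≤ 4 / B * Real.exp (|y| / 8) := by
    have e : (y / B) ^ 2 / 2 = y ^ 2 / (2 * B ^ 2) := by field_simp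
    rw [e, div_le_iff₀ (by positivity)]
    have e2 : 4 / B * Real.exp (|y| / 8) * (2 * B ^ 2) = 8 * B * Real.exp (|y| / 8) := by
      field_simp
      ring
    rw [e2]
    have := Real.exp_pos (|y| / 8)
    nlinarith
  have h3 : Real.exp |y / B| ≤ Real.exp (|y| / 8) := by
    apply Real.exp_le_exp.2
    rw [abs_div, abs_of_pos hB0]
    exact div_le_div_of_nonneg_left hy (by norm_num) (by linarith)
  calc (y / B) ^ 2 / 2 * Real.exp |y / B| ≤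
      (4 / B * Real.exp (|y| / 8)) * Real.exp (|y| / 8) :=
        mul_le_mul h2 h3 (Real.exp_pos _).le (by positivity)
    _ = 4 / B * Real.exp (|y| / 4) := by
        rw [mul_assoc, ← Real.exp_add]
        congr 2
        ring

theorem cut_ip (k : ℕ) (hk : 1 ≤ k) (γ : ℝ) (hγ : 0 < γ) (hγ' : γ ≤ 1 / 8) : ∃ C : ℝ, 0 < C ∧
    ∀ B : ℝ, 16 ≤ B → ∀ δ : ℝ, 0 < δ → δ ≤ 1 / 16 → ∀ (p q : ℝ) (v : ℝ → ℝ), 0 < p → 0 < q → Cl p q v →
    |ip (fun y => rh B y * v y) (Gd k δ) - ip v (Gd k δ)| ≤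
      C / B * √(∫ y, se2 γ y * (rh B y * v y) ^ 2) := by
  obtain ⟨C1, hC1, h1⟩ := Cl_bnd (Cl_LamQ hk (c := 3 / 4) (by norm_num))
  obtain ⟨C2, hC2, h2⟩ := Cl_bnd (Cl_der (Cl_der (Cl_LamQ hk (c := 3 / 4) (by norm_num))))
  refine ⟨4 * (C1 + C2) * √(∫ y, bd (3 / 4) (3 / 4) y) + 1, by positivity, ?_⟩
  intro B hB δ hδ hδ' p q v hp hq hv
  have hB0 : 0 < B := by linarith
  have hG : ∀ y, |Gd k δ y| ≤ (C1 + C2) * bd (3 / 4) (3 / 4) y := by
    intro y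
    unfold Gd
    have a1 := h1 y
    have a2 := h2 y
    have a3 : |δ * deriv (deriv (Lam k (Qf k))) y| ≤ C2 * bd (3 / 4) (3 / 4) y := by
      rw [abs_mul, abs_of_pos hδ]
      have := abs_nonneg (deriv (deriv (Lam k (Qf k))) y)
      nlinarith
    calc _ ≤ |Lam k (Qf k) y| + |δ * deriv (deriv (Lam k (Qf k))) y| := abs_sub _ _
      _ ≤ _ := by linarith
  have hGc : Cl (3 / 4) (3 / 4) (Gd k δ) := Cl_Gd hk δ (by norm_num)
  have hrv : Cl (1 / B + p) (1 / B + q) (fun y => rh B y * v y) := Cl_mul (Vcv_Cl_rh hB0) hv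
  have hB1 : 0 < 1 / B := by positivity
  have i1 : Integrable (fun y => rh B y * v y * Gd k δ y) :=
    Cl_int (Cl_mul hrv hGc) (by linarith) (by linarith)
  have i2 : Integrable (fun y => v y * Gd k δ y) :=
    Cl_int (Cl_mul hv hGc) (by linarith) (by linarith)
  have hcosh : Continuous (fun y : ℝ => Real.cosh (y / B)) :=
    Real.continuous_cosh.comp (continuous_id.div_const B)
  have hφ : Continuous (fun y => (1 - Real.cosh (y / B)) * Gd k δ y) :=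
    (continuous_const.sub hcosh).mul (Cl_cont hGc)
  have e1 : ip (fun y => rh B y * v y) (Gd k δ) - ip v (Gd k δ) =
      ∫ y, (rh B y * v y) * ((1 - Real.cosh (y / B)) * Gd k δ y) := by
    unfold ip
    rw [← integral_sub i1 i2]
    congr 1
    funext y
    have : rh B y * Real.cosh (y / B) = 1 := by
      unfold rh
      exact one_div_mul_cancel (Real.cosh_pos _).ne'
    change rh B y * v y * Gd k δ y - v y * Gd k δ y =
      rh B y * v y * ((1 - Real.cosh (y / B)) * Gd k δ y)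
    linear_combination (v y * Gd k δ y) * this
  have hse := Cl_se2 hγ
  have hw : Continuous (se2 γ) := Cl_cont hse
  have i3 : Integrable (fun y => se2 γ y * (rh B y * v y) ^ 2) :=
    Cl_int (Cl_mul hse (Cl_pow hrv 2)) (by push_cast; linarith) (by push_cast; linarith)
  have hb : ∀ y, ((1 - Real.cosh (y / B)) * Gd k δ y) ^ 2 / se2 γ y ≤
      (4 * (C1 + C2) / B) ^ 2 * bd (3 / 4) (3 / 4) y := by
    intro y
    have a1 := Vcv_one hB y
    have a2 := hG y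
    rw [bd_abs] at a2
    have a3 : |(1 - Real.cosh (y / B)) * Gd k δ y| ≤
        4 * (C1 + C2) / B * Real.exp (-(|y| / 2)) := by
      rw [abs_mul]
      calc |1 - Real.cosh (y / B)| * |Gd k δ y| ≤
          (4 / B * Real.exp (|y| / 4)) * ((C1 + C2) * Real.exp (-(3 / 4 * |y|))) :=
            mul_le_mul a1 a2 (abs_nonneg _) (by positivity)
        _ = 4 * (C1 + C2) / B * (Real.exp (|y| / 4) * Real.exp (-(3 / 4 * |y|))) := by ring
        _ = _ := by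
            rw [← Real.exp_add]
            congr 2
            ring
    have a4 : ((1 - Real.cosh (y / B)) * Gd k δ y) ^ 2 ≤
        (4 * (C1 + C2) / B) ^ 2 * Real.exp (-|y|) := by
      have h := pow_le_pow_left₀ (abs_nonneg _) a3 2
      have e : (4 * (C1 + C2) / B * Real.exp (-(|y| / 2))) ^ 2 =
          (4 * (C1 + C2) / B) ^ 2 * Real.exp (-|y|) := by
        rw [mul_pow, ← Real.exp_nat_mul]
        congr 2
        push_cast
        ring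
      rw [sq_abs, e] at h
      exact h
    have a5 : Real.exp (-(|y| / 4)) ≤ se2 γ y := by
      refine le_trans (Real.exp_le_exp.2 ?_) (se2_lo γ y)
      rw [abs_mul, abs_of_pos hγ]
      have := abs_nonneg y
      (first | linarith only [hγ', this] | nlinarith only [hγ', this])
    rw [div_le_iff₀ (se2_pos γ y), bd_abs]
    refine a4.trans ?_
    rw [mul_assoc]
    refine mul_le_mul_of_nonneg_left ?_ (by positivity)
    calc Real.exp (-|y|) = Real.exp (-(3 / 4 * |y|)) * Real.exp (-(|y| / 4)) := by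
          rw [← Real.exp_add]
          congr 1
          ring
      _ ≤ _ := mul_le_mul_of_nonneg_left a5 (Real.exp_pos _).le
  have i4 : Integrable (fun y => ((1 - Real.cosh (y / B)) * Gd k δ y) ^ 2 / se2 γ y) := by
    refine int_of_bd (p := 3 / 4) (q := 3 / 4) ((hφ.pow 2).div hw fun y => (se2_pos γ y).ne')
      (by norm_num) (by norm_num) ⟨(4 * (C1 + C2) / B) ^ 2, fun y => ?_⟩
    rw [abs_of_nonneg (div_nonneg (sq_nonneg _) (se2_pos γ y).le)]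
    exact hb y
  have key := (cs_wt (Cl_cont hrv) hφ hw (se2_pos γ) i3 i4).2
  rw [e1]
  refine key.trans ?_
  have hJ : ∫ y, ((1 - Real.cosh (y / B)) * Gd k δ y) ^ 2 / se2 γ y ≤
      (4 * (C1 + C2) / B) ^ 2 * ∫ y, bd (3 / 4) (3 / 4) y := by
    rw [← integral_const_mul]
    exact integral_mono i4 ((bd_int (by norm_num) (by norm_num)).const_mul _) hb
  have hJ2 : √(∫ y, ((1 - Real.cosh (y / B)) * Gd k δ y) ^ 2 / se2 γ y) ≤
      4 * (C1 + C2) / B * √(∫ y, bd (3 / 4) (3 / 4) y) := by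
    refine (Real.sqrt_le_sqrt hJ).trans (le_of_eq ?_)
    rw [Real.sqrt_mul (sq_nonneg _), Real.sqrt_sq (by positivity)]
  refine mul_le_mul_of_nonneg_right (hJ2.trans ?_) (Real.sqrt_nonneg _)
  rw [add_div]
  have : 4 * (C1 + C2) / B * √(∫ y, bd (3 / 4) (3 / 4) y) =
      4 * (C1 + C2) * √(∫ y, bd (3 / 4) (3 / 4) y) / B := by ring
  rw [this]
  linarith

theorem cut_loc {γ B p q : ℝ} {v : ℝ → ℝ} (hγ : 0 < γ) (hB : 16 ≤ B) (hp : 0 < p) (hq : 0 < q)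
    (hv : Cl p q v) :
    ∫ y, loc γ B y * ((v y) ^ 2 + (deriv v y) ^ 2) ≤
      3 * ∫ y, se2 γ y * ((rh B y * v y) ^ 2 + (deriv (fun y => rh B y * v y) y) ^ 2) := by
  have hB0 : 0 < B := by linarith
  have hB1 : 0 < 1 / B := by positivity
  have hrv : Cl (1 / B + p) (1 / B + q) (fun y => rh B y * v y) := Cl_mul (Vcv_Cl_rh hB0) hv
  have hse := Cl_se2 hγ
  have hch := Cl_ch hB0
  have i1 : Integrable (fun y => loc γ B y * ((v y) ^ 2 + (deriv v y) ^ 2)) := by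
    have hloc : Cl (2 * γ + 2 / B) (2 * γ + 2 / B) (loc γ B) := Cl_mul hse hch
    have h2B : 0 < 2 / B := by positivity
    exact Cl_int (Cl_mul hloc (Cl_add (Cl_pow hv 2) (Cl_pow (Cl_der hv) 2)))
      (by push_cast; linarith) (by push_cast; linarith)
  have i2 : Integrable (fun y => se2 γ y * ((rh B y * v y) ^ 2 +
      (deriv (fun y => rh B y * v y) y) ^ 2)) :=
    Cl_int (Cl_mul hse (Cl_add (Cl_pow hrv 2) (Cl_pow (Cl_der hrv) 2)))
      (by push_cast; linarith) (by push_cast; linarith)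
  rw [← integral_const_mul]
  refine integral_mono i1 (i2.const_mul 3) fun y => ?_
  have hd : deriv (fun y => rh B y * v y) y =
      -(1 / B) * Real.tanh (1 / B * y) * rh B y * v y + rh B y * deriv v y :=
    ((Vcv_rh_hd B y).mul (Cl_hd hv y)).deriv
  change loc γ B y * ((v y) ^ 2 + (deriv v y) ^ 2) ≤
    3 * (se2 γ y * ((rh B y * v y) ^ 2 + (deriv (fun y => rh B y * v y) y) ^ 2))
  rw [hd]
  have hse0 := se2_pos γ y
  have e : loc γ B y = se2 γ y * rh B y ^ 2 := rfl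
  rw [e]
  obtain ⟨a, ha⟩ : ∃ a, a = rh B y * v y := ⟨_, rfl⟩
  obtain ⟨b, hb⟩ : ∃ b, b = rh B y * deriv v y := ⟨_, rfl⟩
  obtain ⟨τ, hτ⟩ : ∃ τ, τ = 1 / B * Real.tanh (1 / B * y) := ⟨_, rfl⟩
  have ht : |τ| ≤ 1 / 16 := by
    rw [hτ, abs_mul, abs_of_pos hB1]
    have h1 := (tanh_abs_lt (1 / B * y)).le
    have h2 : 1 / B ≤ 1 / 16 := one_div_le_one_div_of_le (by norm_num) hB
    have h3 := abs_nonneg (Real.tanh (1 / B * y))
    (first | linarith only [h1, h2, hB1] | nlinarith only [h1, h2, hB1])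
  have e1 : -(1 / B) * Real.tanh (1 / B * y) * rh B y * v y + rh B y * deriv v y = -τ * a + b := by
    rw [hτ, ha, hb]
    ring
  have e2 : se2 γ y * rh B y ^ 2 * ((v y) ^ 2 + (deriv v y) ^ 2) = se2 γ y * (a ^ 2 + b ^ 2) := by
    rw [ha, hb]
    ring
  rw [e1, e2, ← ha]
  have h5 : a ^ 2 + b ^ 2 ≤ 3 * (a ^ 2 + (-τ * a + b) ^ 2) := by
    have h6 : τ ^ 2 ≤ 1 / 256 := by
      have := pow_le_pow_left₀ (abs_nonneg τ) ht 2
      rw [sq_abs] at this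
      linarith
    have h7 : b ^ 2 ≤ 2 * (-τ * a + b) ^ 2 + 2 * (τ ^ 2 * a ^ 2) := by
      (first | linarith only [sq_nonneg ((-τ * a + b) - τ * a)] | nlinarith only [sq_nonneg ((-τ * a + b) - τ * a)])
    have h8 : τ ^ 2 * a ^ 2 ≤ 1 / 256 * a ^ 2 := mul_le_mul_of_nonneg_right h6 (sq_nonneg a)
    (first | linarith only [sq_nonneg a, sq_nonneg (-τ * a + b), h7, h8] | nlinarith only [sq_nonneg a, sq_nonneg (-τ * a + b), h7, h8])
  (first | linarith only [h5, hse0] | nlinarith only [h5, hse0])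

noncomputable def Vcv_E (γ y : ℝ) : ℝ :=
  1 / 2 + 1 / 4 * (Real.exp (2 * γ * y) + Real.exp (-(2 * γ) * y))

noncomputable def Vcv_E1 (γ y : ℝ) : ℝ :=
  γ / 2 * (Real.exp (2 * γ * y) - Real.exp (-(2 * γ) * y))

noncomputable def Vcv_E2 (γ y : ℝ) : ℝ :=
  γ ^ 2 * (Real.exp (2 * γ * y) + Real.exp (-(2 * γ) * y))

theorem Vcv_E_pos (γ y : ℝ) : 0 < Vcv_E γ y := by
  unfold Vcv_E
  positivity

theorem Vcv_E_se2 (γ y : ℝ) : Vcv_E γ y * se2 γ y = 1 := by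
  have h : Vcv_E γ y = Real.cosh (γ * y) ^ 2 := by
    unfold Vcv_E
    rw [Real.cosh_eq]
    have e1 : Real.exp (2 * γ * y) = Real.exp (γ * y) ^ 2 := by
      rw [← Real.exp_nat_mul]
      congr 1
      push_cast
      ring
    have e2 : Real.exp (-(2 * γ) * y) = Real.exp (-(γ * y)) ^ 2 := by
      rw [← Real.exp_nat_mul]
      congr 1
      push_cast
      ring
    have e3 : Real.exp (γ * y) * Real.exp (-(γ * y)) = 1 := by
      rw [← Real.exp_add, add_neg_cancel, Real.exp_zero]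
    rw [e1, e2]
    linear_combination (-1 / 2) * e3
  rw [h]
  unfold se2
  have hc := (Real.cosh_pos (γ * y)).ne'
  field_simp

theorem Vcv_E_hd (γ y : ℝ) : HasDerivAt (Vcv_E γ) (Vcv_E1 γ y) y := by
  have a (c : ℝ) : HasDerivAt (fun y : ℝ => Real.exp (c * y)) (Real.exp (c * y) * c) y := by
    have h1 : HasDerivAt (fun y : ℝ => c * y) c y := by
      simpa using (hasDerivAt_id y).const_mul c
    exact h1.exp
  have h := (((a (2 * γ)).add (a (-(2 * γ)))).const_mul (1 / 4)).const_add (1 / 2)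
  refine h.congr_deriv ?_
  unfold Vcv_E1
  ring

theorem Vcv_E1_hd (γ y : ℝ) : HasDerivAt (Vcv_E1 γ) (Vcv_E2 γ y) y := by
  have a (c : ℝ) : HasDerivAt (fun y : ℝ => Real.exp (c * y)) (Real.exp (c * y) * c) y := by
    have h1 : HasDerivAt (fun y : ℝ => c * y) c y := by
      simpa using (hasDerivAt_id y).const_mul c
    exact h1.exp
  have h := ((a (2 * γ)).sub (a (-(2 * γ)))).const_mul (γ / 2)
  refine h.congr_deriv ?_
  unfold Vcv_E2
  ring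

theorem Vcv_E1_le {γ : ℝ} (hγ : 0 < γ) (y : ℝ) : |Vcv_E1 γ y| ≤ 2 * γ * Vcv_E γ y := by
  unfold Vcv_E1 Vcv_E
  have h1 := Real.exp_pos (2 * γ * y)
  have h2 := Real.exp_pos (-(2 * γ) * y)
  have h3 := mul_pos hγ h1
  have h4 := mul_pos hγ h2
  rw [abs_le]
  constructor <;> nlinarith

theorem Vcv_E2_le {γ : ℝ} (hγ : 0 < γ) (y : ℝ) : |Vcv_E2 γ y| ≤ 4 * γ ^ 2 * Vcv_E γ y := by
  have h0 : 0 ≤ Vcv_E2 γ y := by
    unfold Vcv_E2
    positivity
  rw [abs_of_nonneg h0]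
  unfold Vcv_E2 Vcv_E
  have h5 : 0 < γ ^ 2 := by positivity
  nlinarith

theorem Vcv_Cl_E {γ : ℝ} (hγ : 0 < γ) : Cl (-(2 * γ)) (-(2 * γ)) (Vcv_E γ) := by
  have h1 : Cl (-(2 * γ)) (-(2 * γ)) (fun y => Real.exp (2 * γ * y)) :=
    Cl_mono (Cl_exp (2 * γ)) le_rfl (by linarith)
  have h2 : Cl (-(2 * γ)) (-(2 * γ)) (fun y => Real.exp (-(2 * γ) * y)) :=
    Cl_mono (Cl_exp (-(2 * γ))) (by linarith) le_rfl
  have h3 : Cl (-(2 * γ)) (-(2 * γ)) (fun _ => (1 / 2 : ℝ)) :=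
    Cl_mono (Cl_const (1 / 2)) (by linarith) (by linarith)
  exact Cl_add h3 (Cl_smul (1 / 4) (Cl_add h1 h2))

noncomputable def Vcv_W (γ B y : ℝ) : ℝ := ch B y * Vcv_E γ y

theorem Vcv_W_pos (γ B y : ℝ) : 0 < Vcv_W γ B y := mul_pos (Vcv_ch_pos B y) (Vcv_E_pos γ y)

theorem Vcv_Cl_W {γ B : ℝ} (hγ : 0 < γ) (hB : 0 < B) :
    Cl (2 / B + -(2 * γ)) (2 / B + -(2 * γ)) (Vcv_W γ B) :=
  Cl_mul (Cl_ch hB) (Vcv_Cl_E hγ)

theorem Vcv_W2 {γ B δ : ℝ} (hγ : 0 < γ) (hγ' : γ ≤ 1 / 8) (hB : 16 ≤ B) (hδ : 0 < δ)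
    (hδ' : δ ≤ 1 / 16) (y : ℝ) : δ * |deriv (deriv (Vcv_W γ B)) y| ≤ Vcv_W γ B y / 4 := by
  have hB0 : 0 < B := by linarith
  have hch := Cl_ch hB0
  have e1 : deriv (Vcv_W γ B) = fun y => deriv (ch B) y * Vcv_E γ y + ch B y * Vcv_E1 γ y := by
    funext y
    exact ((Cl_hd hch y).mul (Vcv_E_hd γ y)).deriv
  have e2 : deriv (deriv (Vcv_W γ B)) y = (deriv (deriv (ch B)) y * Vcv_E γ y +
      deriv (ch B) y * Vcv_E1 γ y) + (deriv (ch B) y * Vcv_E1 γ y + ch B y * Vcv_E2 γ y) := by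
    rw [e1]
    exact (((Cl_hd (Cl_der hch) y).mul (Vcv_E_hd γ y)).add
      ((Cl_hd hch y).mul (Vcv_E1_hd γ y))).deriv
  have hc := Vcv_ch_pos B y
  have hE := Vcv_E_pos γ y
  have hcE := mul_pos hc hE
  have hBi : 1 / B ≤ 1 / 16 := one_div_le_one_div_of_le (by norm_num) hB
  have hBi0 : 0 < 1 / B := by positivity
  have c1 : |deriv (ch B) y| ≤ 1 / 8 * ch B y := by
    refine (ch1_le (by linarith) y).trans (mul_le_mul_of_nonneg_right ?_ hc.le)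
    have : 2 / B = 2 * (1 / B) := by ring
    rw [this]
    linarith
  have c2 : |deriv (deriv (ch B)) y| ≤ 1 / 32 * ch B y := by
    refine (ch2_le (by linarith) y).trans (mul_le_mul_of_nonneg_right ?_ hc.le)
    have : 8 / B ^ 2 = 8 * (1 / B) ^ 2 := by ring
    rw [this]
    nlinarith
  have d1 : |Vcv_E1 γ y| ≤ 1 / 4 * Vcv_E γ y :=
    (Vcv_E1_le hγ y).trans (mul_le_mul_of_nonneg_right (by linarith) hE.le)
  have d2 : |Vcv_E2 γ y| ≤ 1 / 16 * Vcv_E γ y :=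
    (Vcv_E2_le hγ y).trans (mul_le_mul_of_nonneg_right (by (first | linarith only [hγ, hγ'] | nlinarith only [hγ, hγ'])) hE.le)
  have f1 : |deriv (deriv (ch B)) y * Vcv_E γ y| ≤ 1 / 32 * (ch B y * Vcv_E γ y) := by
    rw [abs_mul, abs_of_pos hE]
    have := mul_le_mul_of_nonneg_right c2 hE.le
    linarith
  have f2 : |deriv (ch B) y * Vcv_E1 γ y| ≤ 1 / 32 * (ch B y * Vcv_E γ y) := by
    rw [abs_mul]
    have := mul_le_mul c1 d1 (abs_nonneg _) (by positivity)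
    linarith
  have f3 : |ch B y * Vcv_E2 γ y| ≤ 1 / 16 * (ch B y * Vcv_E γ y) := by
    rw [abs_mul, abs_of_pos hc]
    have := mul_le_mul_of_nonneg_left d2 hc.le
    linarith
  have f4 : |deriv (deriv (Vcv_W γ B)) y| ≤ ch B y * Vcv_E γ y := by
    rw [e2]
    have g1 := abs_add_le (deriv (deriv (ch B)) y * Vcv_E γ y + deriv (ch B) y * Vcv_E1 γ y)
      (deriv (ch B) y * Vcv_E1 γ y + ch B y * Vcv_E2 γ y)
    have g2 := abs_add_le (deriv (deriv (ch B)) y * Vcv_E γ y) (deriv (ch B) y * Vcv_E1 γ y)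
    have g3 := abs_add_le (deriv (ch B) y * Vcv_E1 γ y) (ch B y * Vcv_E2 γ y)
    linarith
  change δ * |deriv (deriv (Vcv_W γ B)) y| ≤ ch B y * Vcv_E γ y / 4
  have := mul_le_mul hδ' f4 (abs_nonneg _) (by norm_num)
  linarith

theorem Vcv_pair {k : ℕ} {η γ M B p q : ℝ} {v S : ℝ → ℝ} (hγ : 0 < γ) (hγ' : γ ≤ 1 / 8)
    (hB : 16 ≤ B) (hM : 0 ≤ M) (hpsi : ∀ y, |psi k η γ y| ≤ M) (hp : 0 < p) (hq : 0 < q)
    (hv : Cl p q v) (hS : Cl 2 2 S) :
    Integrable (fun y => Psi k η γ B y * (v y * S y)) ∧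
    |∫ y, Psi k η γ B y * (v y * S y)| ≤
      M * √(∫ y, Vcv_W γ B y * (S y) ^ 2) * √(∫ y, loc γ B y * (v y) ^ 2) := by
  have hB0 : 0 < B := by linarith
  have hB1 : 0 < 2 / B := by positivity
  have hloc : Cl (2 * γ + 2 / B) (2 * γ + 2 / B) (loc γ B) := Cl_mul (Cl_se2 hγ) (Cl_ch hB0)
  have hPsi := Cl_Psi k η γ hB0
  have hpsiC := Cl_psi k η γ
  have hlocp : ∀ y, 0 < loc γ B y := fun y => mul_pos (se2_pos γ y) (Vcv_ch_pos B y)
  have i1 : Integrable (fun y => loc γ B y * (v y) ^ 2) :=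
    Cl_int (Cl_mul hloc (Cl_pow hv 2)) (by push_cast; linarith) (by push_cast; linarith)
  have i2 : Integrable (fun y => Vcv_W γ B y * (S y) ^ 2) :=
    Cl_int (Cl_mul (Vcv_Cl_W hγ hB0) (Cl_pow hS 2)) (by push_cast; linarith)
      (by push_cast; linarith)
  have i3 : Integrable (fun y => (psi k η γ y) ^ 2 * (Vcv_W γ B y * (S y) ^ 2)) :=
    Cl_int (Cl_mul (Cl_pow0 hpsiC 2) (Cl_mul (Vcv_Cl_W hγ hB0) (Cl_pow hS 2)))
      (by push_cast; linarith) (by push_cast; linarith)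
  have e : (fun y => (Psi k η γ B y * S y) ^ 2 / loc γ B y) =
      fun y => (psi k η γ y) ^ 2 * (Vcv_W γ B y * (S y) ^ 2) := by
    funext y
    rw [div_eq_iff (hlocp y).ne']
    have h1 := Vcv_E_se2 γ y
    change (psi k η γ y * ch B y * S y) ^ 2 =
      (psi k η γ y) ^ 2 * (ch B y * Vcv_E γ y * (S y) ^ 2) * (se2 γ y * ch B y)
    linear_combination (-(psi k η γ y * ch B y * S y) ^ 2) * h1
  have key := cs_wt (F := v) (φ := fun y => Psi k η γ B y * S y) (W := loc γ B) (Cl_cont hv)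
    ((Cl_cont hPsi).mul (Cl_cont hS)) (Cl_cont hloc) hlocp i1 (by rw [e]; exact i3)
  rw [e] at key
  have e2 : (fun y => v y * (Psi k η γ B y * S y)) = fun y => Psi k η γ B y * (v y * S y) := by
    funext y
    ring
  rw [e2] at key
  refine ⟨key.1, key.2.trans (mul_le_mul_of_nonneg_right ?_ (Real.sqrt_nonneg _))⟩
  have h2 : ∫ y, (psi k η γ y) ^ 2 * (Vcv_W γ B y * (S y) ^ 2) ≤
      M ^ 2 * ∫ y, Vcv_W γ B y * (S y) ^ 2 := by
    rw [← integral_const_mul]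
    refine integral_mono i3 (i2.const_mul _) fun y => ?_
    refine mul_le_mul_of_nonneg_right ?_ (mul_nonneg (Vcv_W_pos γ B y).le (sq_nonneg _))
    have := pow_le_pow_left₀ (abs_nonneg _) (hpsi y) 2
    rwa [sq_abs] at this
  refine (Real.sqrt_le_sqrt h2).trans (le_of_eq ?_)
  rw [Real.sqrt_mul (sq_nonneg _), Real.sqrt_sq hM]

theorem Vcv_h {γ B D p q : ℝ} {g v : ℝ → ℝ} (hγ : 0 < γ) (hγ' : γ ≤ 1 / 8)
    (hB : 16 ≤ B) (hD : 0 ≤ D) (hg : Cl 1 1 g) (hgD : ∀ y, |g y| ≤ D * bd 1 1 y)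
    (hp : 0 < p) (hq : 0 < q) (hv : Cl p q v) :
    ∫ y, Vcv_W γ B y * (g y * deriv v y) ^ 2 ≤ D ^ 2 * ∫ y, loc γ B y * (deriv v y) ^ 2 := by
  have hB0 : 0 < B := by linarith
  have hB1 : 0 < 2 / B := by positivity
  have hloc : Cl (2 * γ + 2 / B) (2 * γ + 2 / B) (loc γ B) := Cl_mul (Cl_se2 hγ) (Cl_ch hB0)
  have i1 : Integrable (fun y => loc γ B y * (deriv v y) ^ 2) :=
    Cl_int (Cl_mul hloc (Cl_pow (Cl_der hv) 2)) (by push_cast; linarith) (by push_cast; linarith)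
  have i2 : Integrable (fun y => Vcv_W γ B y * (g y * deriv v y) ^ 2) :=
    Cl_int (Cl_mul (Vcv_Cl_W hγ hB0) (Cl_pow (Cl_mul hg (Cl_der hv)) 2)) (by push_cast; linarith)
      (by push_cast; linarith)
  rw [← integral_const_mul]
  refine integral_mono i2 (i1.const_mul _) fun y => ?_
  change ch B y * Vcv_E γ y * (g y * deriv v y) ^ 2 ≤
    D ^ 2 * (se2 γ y * ch B y * (deriv v y) ^ 2)
  have hy := abs_nonneg y
  have hse := se2_pos γ y
  have h1 : Real.exp (-(|y| / 4)) ≤ se2 γ y := by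
    refine le_trans (Real.exp_le_exp.2 ?_) (se2_lo γ y)
    rw [abs_mul, abs_of_pos hγ]
    nlinarith
  have h2 : (g y) ^ 2 ≤ D ^ 2 * Real.exp (-(2 * |y|)) := by
    have a1 := hgD y
    rw [bd_abs] at a1
    have a2 := pow_le_pow_left₀ (abs_nonneg _) a1 2
    have e : (D * Real.exp (-(1 * |y|))) ^ 2 = D ^ 2 * Real.exp (-(2 * |y|)) := by
      rw [mul_pow, ← Real.exp_nat_mul]
      congr 2
      push_cast
      ring
    rw [sq_abs, e] at a2
    exact a2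
  have h3 : Real.exp (-(2 * |y|)) ≤ se2 γ y * se2 γ y := by
    refine le_trans ?_ (mul_le_mul h1 h1 (Real.exp_pos _).le hse.le)
    rw [← Real.exp_add]
    exact Real.exp_le_exp.2 (by linarith)
  have h4 : Vcv_E γ y * (g y) ^ 2 ≤ D ^ 2 * se2 γ y := by
    have hD2 : 0 ≤ D ^ 2 := sq_nonneg D
    have a1 : (g y) ^ 2 ≤ D ^ 2 * (se2 γ y * se2 γ y) :=
      h2.trans (mul_le_mul_of_nonneg_left h3 hD2)
    have a2 := mul_le_mul_of_nonneg_left a1 (Vcv_E_pos γ y).le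
    refine a2.trans (le_of_eq ?_)
    have := Vcv_E_se2 γ y
    linear_combination (D ^ 2 * se2 γ y) * this
  have h5 : 0 ≤ ch B y * (deriv v y) ^ 2 := mul_nonneg (Vcv_ch_pos B y).le (sq_nonneg _)
  have h6 := mul_le_mul_of_nonneg_right h4 h5
  calc ch B y * Vcv_E γ y * (g y * deriv v y) ^ 2 =
      Vcv_E γ y * (g y) ^ 2 * (ch B y * (deriv v y) ^ 2) := by ring
    _ ≤ D ^ 2 * se2 γ y * (ch B y * (deriv v y) ^ 2) := h6
    _ = _ := by ring

theorem Ed_le (k : ℕ) (hk : 5 ≤ k) (η γ : ℝ) (hγ : 0 < γ) (hγ' : γ ≤ 1 / 8) : ∃ C : ℝ, 0 < C ∧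
    ∀ B : ℝ, 16 ≤ B → ∀ δ : ℝ, 0 < δ → δ ≤ 1 / 16 → ∀ (p q : ℝ) (v : ℝ → ℝ), 0 < p → p ≤ 1 → 0 < q →
    q ≤ 1 → Cl p q v →
    |∫ y, Psi k η γ B y * (v y * Ed k δ v y)| ≤
      C * √δ * ∫ y, loc γ B y * ((v y) ^ 2 + (deriv v y) ^ 2) := by
  have hk1 : 1 ≤ k := by omega
  have hkR : (5 : ℝ) ≤ k := by exact_mod_cast hk
  obtain ⟨M, hM, hM'⟩ := Cl_bnd (Cl_psi k η γ)
  have hpsi : ∀ y, |psi k η γ y| ≤ M := fun y => by
    have := hM' y
    rwa [bd_zero, mul_one] at this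
  have hg1 : Cl k k (deriv (fun z => Qf k z ^ k)) := Cl_der (Cl_Qk hk1)
  have hg2 : Cl k k (deriv (deriv (fun z => Qf k z ^ k))) := Cl_der hg1
  have hg1' : Cl 1 1 (deriv (fun z => Qf k z ^ k)) := Cl_mono hg1 (by linarith) (by linarith)
  have hg2' : Cl 1 1 (deriv (deriv (fun z => Qf k z ^ k))) :=
    Cl_mono hg2 (by linarith) (by linarith)
  obtain ⟨D1, hD1, hD1'⟩ := Cl_bnd hg1'
  obtain ⟨D2, hD2, hD2'⟩ := Cl_bnd hg2'
  refine ⟨M * (2 * D2 + 2 * D1) + 1, by positivity, ?_⟩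
  intro B hB δ hδ hδ' p q v hp hp1 hq hq1 hv
  have hB0 : 0 < B := by linarith
  have hB1 : 0 < 2 / B := by positivity
  obtain ⟨g1, eg1⟩ : ∃ g : ℝ → ℝ, g = deriv (fun z => Qf k z ^ k) := ⟨_, rfl⟩
  obtain ⟨g2, eg2⟩ : ∃ g : ℝ → ℝ, g = deriv (deriv (fun z => Qf k z ^ k)) := ⟨_, rfl⟩
  have hEd : ∀ y, Ed k δ v y = δ * Sm δ (fun z => g2 z * deriv v z) y -
      2 * δ * deriv (Sm δ (fun z => g1 z * deriv v z)) y := by
    intro y
    rw [eg1, eg2]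
    rfl
  rw [← eg1] at hg1 hg1' hD1'
  rw [← eg2] at hg2 hg2' hD2'
  have hh1 : Cl 2 2 (fun z => g1 z * deriv v z) :=
    Cl_mono (Cl_mul hg1 (Cl_der hv)) (by linarith) (by linarith)
  have hh2 : Cl 2 2 (fun z => g2 z * deriv v z) :=
    Cl_mono (Cl_mul hg2 (Cl_der hv)) (by linarith) (by linarith)
  have h22 : |(2 : ℝ)| ≤ 2 := by rw [abs_of_pos (by norm_num)]
  have hS1 := Cl_der (Cl_Sm hδ hδ' h22 h22 hh1)
  have hS2 := Cl_Sm hδ hδ' h22 h22 hh2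
  obtain ⟨i1, p1⟩ := Vcv_pair hγ hγ' hB hM hpsi hp hq hv hS1
  obtain ⟨i2, p2⟩ := Vcv_pair hγ hγ' hB hM hpsi hp hq hv hS2
  have w1 := (Sm_wt hδ hδ' h22 h22 hh1 (Vcv_Cl_W hγ hB0) (Vcv_W_pos γ B)
    (Vcv_W2 hγ hγ' hB hδ hδ') (by linarith) (by linarith)).2
  have w2 := (Sm_wt hδ hδ' h22 h22 hh2 (Vcv_Cl_W hγ hB0) (Vcv_W_pos γ B)
    (Vcv_W2 hγ hγ' hB hδ hδ') (by linarith) (by linarith)).1
  have z1 := Vcv_h hγ hγ' hB hD1 hg1' hD1' hp hq hv
  have z2 := Vcv_h hγ hγ' hB hD2 hg2' hD2' hp hq hv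
  have hloc : Cl (2 * γ + 2 / B) (2 * γ + 2 / B) (loc γ B) := Cl_mul (Cl_se2 hγ) (Cl_ch hB0)
  have hlocp : ∀ y, 0 < loc γ B y := fun y => mul_pos (se2_pos γ y) (Vcv_ch_pos B y)
  have j1 : Integrable (fun y => loc γ B y * (v y) ^ 2) :=
    Cl_int (Cl_mul hloc (Cl_pow hv 2)) (by push_cast; linarith) (by push_cast; linarith)
  have j2 : Integrable (fun y => loc γ B y * (deriv v y) ^ 2) :=
    Cl_int (Cl_mul hloc (Cl_pow (Cl_der hv) 2)) (by push_cast; linarith) (by push_cast; linarith)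
  have eA : ∫ y, loc γ B y * ((v y) ^ 2 + (deriv v y) ^ 2) =
      (∫ y, loc γ B y * (v y) ^ 2) + ∫ y, loc γ B y * (deriv v y) ^ 2 := by
    rw [← integral_add j1 j2]
    congr 1
    funext y
    ring
  obtain ⟨A, hA⟩ : ∃ A, A = ∫ y, loc γ B y * (v y) ^ 2 := ⟨_, rfl⟩
  obtain ⟨A', hA'⟩ : ∃ A, A = ∫ y, loc γ B y * (deriv v y) ^ 2 := ⟨_, rfl⟩
  have hA0 : 0 ≤ A := by
    rw [hA]
    exact integral_nonneg fun y => mul_nonneg (hlocp y).le (sq_nonneg _)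
  have hA0' : 0 ≤ A' := by
    rw [hA']
    exact integral_nonneg fun y => mul_nonneg (hlocp y).le (sq_nonneg _)
  rw [eA, ← hA, ← hA']
  rw [← hA'] at z1 z2
  rw [← hA] at p1 p2
  have eI : ∫ y, Psi k η γ B y * (v y * Ed k δ v y) =
      δ * (∫ y, Psi k η γ B y * (v y * Sm δ (fun z => g2 z * deriv v z) y)) -
      2 * δ * ∫ y, Psi k η γ B y * (v y * deriv (Sm δ (fun z => g1 z * deriv v z)) y) := by
    rw [← integral_const_mul, ← integral_const_mul, ← integral_sub (i2.const_mul _)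
      (i1.const_mul _)]
    congr 1
    funext y
    rw [hEd]
    ring
  rw [eI]
  obtain ⟨I1, eI1⟩ : ∃ I, I = ∫ y, Psi k η γ B y *
    (v y * deriv (Sm δ (fun z => g1 z * deriv v z)) y) := ⟨_, rfl⟩
  obtain ⟨I2, eI2⟩ : ∃ I, I = ∫ y, Psi k η γ B y *
    (v y * Sm δ (fun z => g2 z * deriv v z) y) := ⟨_, rfl⟩
  rw [← eI1] at p1 ⊢
  rw [← eI2] at p2 ⊢
  obtain ⟨s, hs⟩ : ∃ s, s = √δ := ⟨_, rfl⟩
  have hs0 : 0 < s := by rw [hs]; exact Real.sqrt_pos.2 hδ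
  have hs2 : s ^ 2 = δ := by rw [hs]; exact Real.sq_sqrt hδ.le
  have hs1 : s ≤ 1 := by
    by_contra h
    push_neg at h
    (first | linarith only [h, hs0, hs2, hδ, hδ'] | nlinarith only [h, hs0, hs2, hδ, hδ'])
  rw [← hs]
  have hAA : √A' * √A ≤ A + A' := by
    have a1 := Real.sq_sqrt hA0
    have a2 := Real.sq_sqrt hA0'
    (first | linarith only [sq_nonneg (√A' - √A), Real.sqrt_nonneg A, Real.sqrt_nonneg A', a1, a2, hA0, hA0'] | nlinarith only [sq_nonneg (√A' - √A), Real.sqrt_nonneg A, Real.sqrt_nonneg A', a1, a2, hA0, hA0'])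
  have b2 : √(∫ y, Vcv_W γ B y * (Sm δ (fun z => g2 z * deriv v z) y) ^ 2) ≤ 2 * D2 * √A' := by
    refine Real.sqrt_le_iff.2 ⟨by positivity, ?_⟩
    rw [mul_pow, mul_pow, Real.sq_sqrt hA0']
    have : 0 ≤ D2 ^ 2 * A' := by positivity
    linarith
  have b1 : s * √(∫ y, Vcv_W γ B y * (deriv (Sm δ (fun z => g1 z * deriv v z)) y) ^ 2) ≤
      D1 * √A' := by
    have e : s * √(∫ y, Vcv_W γ B y * (deriv (Sm δ (fun z => g1 z * deriv v z)) y) ^ 2) =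
        √(δ * ∫ y, Vcv_W γ B y * (deriv (Sm δ (fun z => g1 z * deriv v z)) y) ^ 2) := by
      rw [Real.sqrt_mul hδ.le, ← hs]
    rw [e]
    refine Real.sqrt_le_iff.2 ⟨by positivity, ?_⟩
    rw [mul_pow, Real.sq_sqrt hA0']
    exact w1.trans z1
  have q2 : |I2| ≤ M * (2 * D2) * (A + A') := by
    refine p2.trans ?_
    calc _ ≤ M * (2 * D2 * √A') * √A :=
          mul_le_mul_of_nonneg_right (mul_le_mul_of_nonneg_left b2 hM) (Real.sqrt_nonneg _)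
      _ = M * (2 * D2) * (√A' * √A) := by ring
      _ ≤ _ := mul_le_mul_of_nonneg_left hAA (by positivity)
  have q1 : s * |I1| ≤ M * D1 * (A + A') := by
    refine (mul_le_mul_of_nonneg_left p1 hs0.le).trans ?_
    calc _ = M * (s * √(∫ y, Vcv_W γ B y *
          (deriv (Sm δ (fun z => g1 z * deriv v z)) y) ^ 2)) * √A := by ring
      _ ≤ M * (D1 * √A') * √A :=
          mul_le_mul_of_nonneg_right (mul_le_mul_of_nonneg_left b1 hM) (Real.sqrt_nonneg _)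
      _ = M * D1 * (√A' * √A) := by ring
      _ ≤ _ := mul_le_mul_of_nonneg_left hAA (by positivity)
  have r : |δ * I2 - 2 * δ * I1| ≤ δ * |I2| + 2 * δ * |I1| := by
    refine (abs_sub _ _).trans (le_of_eq ?_)
    rw [abs_mul, abs_mul, abs_of_pos hδ, abs_of_pos (by positivity : (0:ℝ) < 2 * δ)]
  refine r.trans ?_
  have hAs : 0 ≤ A + A' := by linarith
  have t1 : 2 * δ * |I1| ≤ s * (2 * (M * D1 * (A + A'))) := by
    have : 2 * δ * |I1| = s * (2 * (s * |I1|)) := by rw [← hs2]; ring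
    rw [this]
    exact mul_le_mul_of_nonneg_left (by linarith) hs0.le
  have t2 : δ * |I2| ≤ s * (M * (2 * D2) * (A + A')) := by
    have a1 : δ ≤ s := by rw [← hs2]; (first | linarith only [hs0, hs1, hδ, hδ'] | nlinarith only [hs0, hs1, hδ, hδ'])
    exact mul_le_mul a1 q2 (abs_nonneg _) hs0.le
  have t3 : 0 ≤ s * (A + A') := mul_nonneg hs0.le hAs
  (first | linarith only [t1, t2, t3] | nlinarith only [t1, t2, t3])

end H98KB

end S_H98_KB_Vcv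

section S_H98_KC_Vke

/-!
# Vke (MP_95be7d_S4): the commutator error, class `Cl 0 0`, `k = 4` (variant of `Ed_le` in `KB/Vcv.lean`)

`Ed = δ Sm((Q⁴)''v') - 2δ (Sm((Q⁴)'v'))'`.  First term: `δ|∫Ψ v Sm h| ≤ δ(1+η)(∫ wχ v²)^{1/2}(∫(χ/w)(Sm h)²)^{1/2}`
with `h=(Q⁴)''v'` and the weight `W=χ cosh²(γy)` (`Vcv_W`), `δ|W''| ≤ W/4` (`Vcv_W2`), so `∫W(Sm h)² ≤ (4/3)∫W h²` (`Sm_wt`) and
`∫W h² ≤ C∫ wχ v'²` because `|(Q⁴)''| cosh²(γy) ≤ C`.  Second term the same with `δ∫W((Sm h)')² ≤ ∫W h²`, which gives `2δ·δ^{-1/2} = 2√δ`.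
Only integrability changes: `v ∈ Cl 0 0`, all weights (`Psi`, `loc`, `W`) decay.  The auxiliary lemmas `Vcv_W`, `Vcv_E`, ... of `KB/Vcv.lean` are imported; the
lemmas `Vcv_pair`, `Vcv_h` there have hypotheses `0 < p`: copy them with `p = q = 0`.  In the original the hypothesis `5 ≤ k` is not essential.
-/

open MeasureTheory Filter Topology Set
open scoped ContDiff

noncomputable section

namespace H98KC

open H98KB H68KC

theorem Vke_pair {k : ℕ} {η γ M B p q : ℝ} {v S : ℝ → ℝ} (hγ : 0 < γ) (hγ' : γ ≤ 1 / 8)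
    (hB : 16 ≤ B) (hM : 0 ≤ M) (hpsi : ∀ y, |psi k η γ y| ≤ M) (hp : 0 ≤ p) (hq : 0 ≤ q)
    (hv : Cl p q v) (hS : Cl 2 2 S) :
    Integrable (fun y => Psi k η γ B y * (v y * S y)) ∧
    |∫ y, Psi k η γ B y * (v y * S y)| ≤
      M * √(∫ y, Vcv_W γ B y * (S y) ^ 2) * √(∫ y, loc γ B y * (v y) ^ 2) := by
  have hB0 : 0 < B := by linarith
  have hB1 : 0 < 2 / B := by positivity
  have hloc : Cl (2 * γ + 2 / B) (2 * γ + 2 / B) (loc γ B) := Cl_mul (Cl_se2 hγ) (Cl_ch hB0)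
  have hPsi := Cl_Psi k η γ hB0
  have hpsiC := Cl_psi k η γ
  have hlocp : ∀ y, 0 < loc γ B y := fun y => mul_pos (se2_pos γ y) (Vcv_ch_pos B y)
  have i1 : Integrable (fun y => loc γ B y * (v y) ^ 2) :=
    Cl_int (Cl_mul hloc (Cl_pow hv 2)) (by push_cast; linarith) (by push_cast; linarith)
  have i2 : Integrable (fun y => Vcv_W γ B y * (S y) ^ 2) :=
    Cl_int (Cl_mul (Vcv_Cl_W hγ hB0) (Cl_pow hS 2)) (by push_cast; linarith)
      (by push_cast; linarith)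
  have i3 : Integrable (fun y => (psi k η γ y) ^ 2 * (Vcv_W γ B y * (S y) ^ 2)) :=
    Cl_int (Cl_mul (Cl_pow0 hpsiC 2) (Cl_mul (Vcv_Cl_W hγ hB0) (Cl_pow hS 2)))
      (by push_cast; linarith) (by push_cast; linarith)
  have e : (fun y => (Psi k η γ B y * S y) ^ 2 / loc γ B y) =
      fun y => (psi k η γ y) ^ 2 * (Vcv_W γ B y * (S y) ^ 2) := by
    funext y
    rw [div_eq_iff (hlocp y).ne']
    have h1 := Vcv_E_se2 γ y
    change (psi k η γ y * ch B y * S y) ^ 2 =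
      (psi k η γ y) ^ 2 * (ch B y * Vcv_E γ y * (S y) ^ 2) * (se2 γ y * ch B y)
    linear_combination (-(psi k η γ y * ch B y * S y) ^ 2) * h1
  have key := cs_wt (F := v) (φ := fun y => Psi k η γ B y * S y) (W := loc γ B) (Cl_cont hv)
    ((Cl_cont hPsi).mul (Cl_cont hS)) (Cl_cont hloc) hlocp i1 (by rw [e]; exact i3)
  rw [e] at key
  have e2 : (fun y => v y * (Psi k η γ B y * S y)) = fun y => Psi k η γ B y * (v y * S y) := by
    funext y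
    ring
  rw [e2] at key
  refine ⟨key.1, key.2.trans (mul_le_mul_of_nonneg_right ?_ (Real.sqrt_nonneg _))⟩
  have h2 : ∫ y, (psi k η γ y) ^ 2 * (Vcv_W γ B y * (S y) ^ 2) ≤
      M ^ 2 * ∫ y, Vcv_W γ B y * (S y) ^ 2 := by
    rw [← integral_const_mul]
    refine integral_mono i3 (i2.const_mul _) fun y => ?_
    refine mul_le_mul_of_nonneg_right ?_ (mul_nonneg (Vcv_W_pos γ B y).le (sq_nonneg _))
    have := pow_le_pow_left₀ (abs_nonneg _) (hpsi y) 2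
    rwa [sq_abs] at this
  refine (Real.sqrt_le_sqrt h2).trans (le_of_eq ?_)
  rw [Real.sqrt_mul (sq_nonneg _), Real.sqrt_sq hM]

theorem Vke_h {γ B D p q : ℝ} {g v : ℝ → ℝ} (hγ : 0 < γ) (hγ' : γ ≤ 1 / 8)
    (hB : 16 ≤ B) (hD : 0 ≤ D) (hg : Cl 1 1 g) (hgD : ∀ y, |g y| ≤ D * bd 1 1 y)
    (hp : 0 ≤ p) (hq : 0 ≤ q) (hv : Cl p q v) :
    ∫ y, Vcv_W γ B y * (g y * deriv v y) ^ 2 ≤ D ^ 2 * ∫ y, loc γ B y * (deriv v y) ^ 2 := by
  have hB0 : 0 < B := by linarith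
  have hB1 : 0 < 2 / B := by positivity
  have hloc : Cl (2 * γ + 2 / B) (2 * γ + 2 / B) (loc γ B) := Cl_mul (Cl_se2 hγ) (Cl_ch hB0)
  have i1 : Integrable (fun y => loc γ B y * (deriv v y) ^ 2) :=
    Cl_int (Cl_mul hloc (Cl_pow (Cl_der hv) 2)) (by push_cast; linarith) (by push_cast; linarith)
  have i2 : Integrable (fun y => Vcv_W γ B y * (g y * deriv v y) ^ 2) :=
    Cl_int (Cl_mul (Vcv_Cl_W hγ hB0) (Cl_pow (Cl_mul hg (Cl_der hv)) 2)) (by push_cast; linarith)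
      (by push_cast; linarith)
  rw [← integral_const_mul]
  refine integral_mono i2 (i1.const_mul _) fun y => ?_
  change ch B y * Vcv_E γ y * (g y * deriv v y) ^ 2 ≤
    D ^ 2 * (se2 γ y * ch B y * (deriv v y) ^ 2)
  have hy := abs_nonneg y
  have hse := se2_pos γ y
  have h1 : Real.exp (-(|y| / 4)) ≤ se2 γ y := by
    refine le_trans (Real.exp_le_exp.2 ?_) (se2_lo γ y)
    rw [abs_mul, abs_of_pos hγ]
    nlinarith
  have h2 : (g y) ^ 2 ≤ D ^ 2 * Real.exp (-(2 * |y|)) := by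
    have a1 := hgD y
    rw [bd_abs] at a1
    have a2 := pow_le_pow_left₀ (abs_nonneg _) a1 2
    have e : (D * Real.exp (-(1 * |y|))) ^ 2 = D ^ 2 * Real.exp (-(2 * |y|)) := by
      rw [mul_pow, ← Real.exp_nat_mul]
      congr 2
      push_cast
      ring
    rw [sq_abs, e] at a2
    exact a2
  have h3 : Real.exp (-(2 * |y|)) ≤ se2 γ y * se2 γ y := by
    refine le_trans ?_ (mul_le_mul h1 h1 (Real.exp_pos _).le hse.le)
    rw [← Real.exp_add]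
    exact Real.exp_le_exp.2 (by linarith)
  have h4 : Vcv_E γ y * (g y) ^ 2 ≤ D ^ 2 * se2 γ y := by
    have hD2 : 0 ≤ D ^ 2 := sq_nonneg D
    have a1 : (g y) ^ 2 ≤ D ^ 2 * (se2 γ y * se2 γ y) :=
      h2.trans (mul_le_mul_of_nonneg_left h3 hD2)
    have a2 := mul_le_mul_of_nonneg_left a1 (Vcv_E_pos γ y).le
    refine a2.trans (le_of_eq ?_)
    have := Vcv_E_se2 γ y
    linear_combination (D ^ 2 * se2 γ y) * this
  have h5 : 0 ≤ ch B y * (deriv v y) ^ 2 := mul_nonneg (Vcv_ch_pos B y).le (sq_nonneg _)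
  have h6 := mul_le_mul_of_nonneg_right h4 h5
  calc ch B y * Vcv_E γ y * (g y * deriv v y) ^ 2 =
      Vcv_E γ y * (g y) ^ 2 * (ch B y * (deriv v y) ^ 2) := by ring
    _ ≤ D ^ 2 * se2 γ y * (ch B y * (deriv v y) ^ 2) := h6
    _ = _ := by ring

theorem Ed_le0 (η γ : ℝ) (hγ : 0 < γ) (hγ' : γ ≤ 1 / 8) : ∃ C : ℝ, 0 < C ∧
    ∀ B : ℝ, 16 ≤ B → ∀ δ : ℝ, 0 < δ → δ ≤ 1 / 16 → ∀ v : ℝ → ℝ, Cl 0 0 v →
    |∫ y, Psi 4 η γ B y * (v y * Ed 4 δ v y)| ≤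
      C * √δ * ∫ y, loc γ B y * ((v y) ^ 2 + (deriv v y) ^ 2) := by
  have hk1 : 1 ≤ 4 := by norm_num
  obtain ⟨M, hM, hM'⟩ := Cl_bnd (Cl_psi 4 η γ)
  have hpsi : ∀ y, |psi 4 η γ y| ≤ M := fun y => by
    have := hM' y
    rwa [bd_zero, mul_one] at this
  have hg1 : Cl (4 : ℕ) (4 : ℕ) (deriv (fun z => Qf 4 z ^ 4)) := Cl_der (Cl_Qk hk1)
  have hg2 : Cl (4 : ℕ) (4 : ℕ) (deriv (deriv (fun z => Qf 4 z ^ 4))) := Cl_der hg1
  have hg1' : Cl 1 1 (deriv (fun z => Qf 4 z ^ 4)) := Cl_mono hg1 (by norm_num) (by norm_num)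
  have hg2' : Cl 1 1 (deriv (deriv (fun z => Qf 4 z ^ 4))) :=
    Cl_mono hg2 (by norm_num) (by norm_num)
  obtain ⟨D1, hD1, hD1'⟩ := Cl_bnd hg1'
  obtain ⟨D2, hD2, hD2'⟩ := Cl_bnd hg2'
  refine ⟨M * (2 * D2 + 2 * D1) + 1, by positivity, ?_⟩
  intro B hB δ hδ hδ' v hv
  have hp : (0 : ℝ) ≤ 0 := le_rfl
  have hB0 : 0 < B := by linarith
  have hB1 : 0 < 2 / B := by positivity
  obtain ⟨g1, eg1⟩ : ∃ g : ℝ → ℝ, g = deriv (fun z => Qf 4 z ^ 4) := ⟨_, rfl⟩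
  obtain ⟨g2, eg2⟩ : ∃ g : ℝ → ℝ, g = deriv (deriv (fun z => Qf 4 z ^ 4)) := ⟨_, rfl⟩
  have hEd : ∀ y, Ed 4 δ v y = δ * Sm δ (fun z => g2 z * deriv v z) y -
      2 * δ * deriv (Sm δ (fun z => g1 z * deriv v z)) y := by
    intro y
    rw [eg1, eg2]
    rfl
  rw [← eg1] at hg1 hg1' hD1'
  rw [← eg2] at hg2 hg2' hD2'
  have hh1 : Cl 2 2 (fun z => g1 z * deriv v z) :=
    Cl_mono (Cl_mul hg1 (Cl_der hv)) (by norm_num) (by norm_num)
  have hh2 : Cl 2 2 (fun z => g2 z * deriv v z) :=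
    Cl_mono (Cl_mul hg2 (Cl_der hv)) (by norm_num) (by norm_num)
  have h22 : |(2 : ℝ)| ≤ 2 := by rw [abs_of_pos (by norm_num)]
  have hS1 := Cl_der (Cl_Sm hδ hδ' h22 h22 hh1)
  have hS2 := Cl_Sm hδ hδ' h22 h22 hh2
  obtain ⟨i1, p1⟩ := Vke_pair hγ hγ' hB hM hpsi hp hp hv hS1
  obtain ⟨i2, p2⟩ := Vke_pair hγ hγ' hB hM hpsi hp hp hv hS2
  have w1 := (Sm_wt hδ hδ' h22 h22 hh1 (Vcv_Cl_W hγ hB0) (Vcv_W_pos γ B)
    (Vcv_W2 hγ hγ' hB hδ hδ') (by linarith) (by linarith)).2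
  have w2 := (Sm_wt hδ hδ' h22 h22 hh2 (Vcv_Cl_W hγ hB0) (Vcv_W_pos γ B)
    (Vcv_W2 hγ hγ' hB hδ hδ') (by linarith) (by linarith)).1
  have z1 := Vke_h hγ hγ' hB hD1 hg1' hD1' hp hp hv
  have z2 := Vke_h hγ hγ' hB hD2 hg2' hD2' hp hp hv
  have hloc : Cl (2 * γ + 2 / B) (2 * γ + 2 / B) (loc γ B) := Cl_mul (Cl_se2 hγ) (Cl_ch hB0)
  have hlocp : ∀ y, 0 < loc γ B y := fun y => mul_pos (se2_pos γ y) (Vcv_ch_pos B y)
  have j1 : Integrable (fun y => loc γ B y * (v y) ^ 2) :=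
    Cl_int (Cl_mul hloc (Cl_pow hv 2)) (by push_cast; linarith) (by push_cast; linarith)
  have j2 : Integrable (fun y => loc γ B y * (deriv v y) ^ 2) :=
    Cl_int (Cl_mul hloc (Cl_pow (Cl_der hv) 2)) (by push_cast; linarith) (by push_cast; linarith)
  have eA : ∫ y, loc γ B y * ((v y) ^ 2 + (deriv v y) ^ 2) =
      (∫ y, loc γ B y * (v y) ^ 2) + ∫ y, loc γ B y * (deriv v y) ^ 2 := by
    rw [← integral_add j1 j2]
    congr 1
    funext y
    ring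
  obtain ⟨A, hA⟩ : ∃ A, A = ∫ y, loc γ B y * (v y) ^ 2 := ⟨_, rfl⟩
  obtain ⟨A', hA'⟩ : ∃ A, A = ∫ y, loc γ B y * (deriv v y) ^ 2 := ⟨_, rfl⟩
  have hA0 : 0 ≤ A := by
    rw [hA]
    exact integral_nonneg fun y => mul_nonneg (hlocp y).le (sq_nonneg _)
  have hA0' : 0 ≤ A' := by
    rw [hA']
    exact integral_nonneg fun y => mul_nonneg (hlocp y).le (sq_nonneg _)
  rw [eA, ← hA, ← hA']
  rw [← hA'] at z1 z2
  rw [← hA] at p1 p2
  have eI : ∫ y, Psi 4 η γ B y * (v y * Ed 4 δ v y) =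
      δ * (∫ y, Psi 4 η γ B y * (v y * Sm δ (fun z => g2 z * deriv v z) y)) -
      2 * δ * ∫ y, Psi 4 η γ B y * (v y * deriv (Sm δ (fun z => g1 z * deriv v z)) y) := by
    rw [← integral_const_mul, ← integral_const_mul, ← integral_sub (i2.const_mul _)
      (i1.const_mul _)]
    congr 1
    funext y
    rw [hEd]
    ring
  rw [eI]
  obtain ⟨I1, eI1⟩ : ∃ I, I = ∫ y, Psi 4 η γ B y *
    (v y * deriv (Sm δ (fun z => g1 z * deriv v z)) y) := ⟨_, rfl⟩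
  obtain ⟨I2, eI2⟩ : ∃ I, I = ∫ y, Psi 4 η γ B y *
    (v y * Sm δ (fun z => g2 z * deriv v z) y) := ⟨_, rfl⟩
  rw [← eI1] at p1 ⊢
  rw [← eI2] at p2 ⊢
  obtain ⟨s, hs⟩ : ∃ s, s = √δ := ⟨_, rfl⟩
  have hs0 : 0 < s := by rw [hs]; exact Real.sqrt_pos.2 hδ
  have hs2 : s ^ 2 = δ := by rw [hs]; exact Real.sq_sqrt hδ.le
  have hs1 : s ≤ 1 := by
    by_contra h
    push_neg at h
    (first | linarith only [h, hs0, hs2, hδ, hδ'] | nlinarith only [h, hs0, hs2, hδ, hδ'])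
  rw [← hs]
  have hAA : √A' * √A ≤ A + A' := by
    have a1 := Real.sq_sqrt hA0
    have a2 := Real.sq_sqrt hA0'
    (first | linarith only [sq_nonneg (√A' - √A), Real.sqrt_nonneg A, Real.sqrt_nonneg A', a1, a2, hA0, hA0'] | nlinarith only [sq_nonneg (√A' - √A), Real.sqrt_nonneg A, Real.sqrt_nonneg A', a1, a2, hA0, hA0'])
  have b2 : √(∫ y, Vcv_W γ B y * (Sm δ (fun z => g2 z * deriv v z) y) ^ 2) ≤ 2 * D2 * √A' := by
    refine Real.sqrt_le_iff.2 ⟨by positivity, ?_⟩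
    rw [mul_pow, mul_pow, Real.sq_sqrt hA0']
    have : 0 ≤ D2 ^ 2 * A' := by positivity
    linarith
  have b1 : s * √(∫ y, Vcv_W γ B y * (deriv (Sm δ (fun z => g1 z * deriv v z)) y) ^ 2) ≤
      D1 * √A' := by
    have e : s * √(∫ y, Vcv_W γ B y * (deriv (Sm δ (fun z => g1 z * deriv v z)) y) ^ 2) =
        √(δ * ∫ y, Vcv_W γ B y * (deriv (Sm δ (fun z => g1 z * deriv v z)) y) ^ 2) := by
      rw [Real.sqrt_mul hδ.le, ← hs]
    rw [e]
    refine Real.sqrt_le_iff.2 ⟨by positivity, ?_⟩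
    rw [mul_pow, Real.sq_sqrt hA0']
    exact w1.trans z1
  have q2 : |I2| ≤ M * (2 * D2) * (A + A') := by
    refine p2.trans ?_
    calc _ ≤ M * (2 * D2 * √A') * √A :=
          mul_le_mul_of_nonneg_right (mul_le_mul_of_nonneg_left b2 hM) (Real.sqrt_nonneg _)
      _ = M * (2 * D2) * (√A' * √A) := by ring
      _ ≤ _ := mul_le_mul_of_nonneg_left hAA (by positivity)
  have q1 : s * |I1| ≤ M * D1 * (A + A') := by
    refine (mul_le_mul_of_nonneg_left p1 hs0.le).trans ?_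
    calc _ = M * (s * √(∫ y, Vcv_W γ B y *
          (deriv (Sm δ (fun z => g1 z * deriv v z)) y) ^ 2)) * √A := by ring
      _ ≤ M * (D1 * √A') * √A :=
          mul_le_mul_of_nonneg_right (mul_le_mul_of_nonneg_left b1 hM) (Real.sqrt_nonneg _)
      _ = M * D1 * (√A' * √A) := by ring
      _ ≤ _ := mul_le_mul_of_nonneg_left hAA (by positivity)
  have r : |δ * I2 - 2 * δ * I1| ≤ δ * |I2| + 2 * δ * |I1| := by
    refine (abs_sub _ _).trans (le_of_eq ?_)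
    rw [abs_mul, abs_mul, abs_of_pos hδ, abs_of_pos (by positivity : (0:ℝ) < 2 * δ)]
  refine r.trans ?_
  have hAs : 0 ≤ A + A' := by linarith
  have t1 : 2 * δ * |I1| ≤ s * (2 * (M * D1 * (A + A'))) := by
    have : 2 * δ * |I1| = s * (2 * (s * |I1|)) := by rw [← hs2]; ring
    rw [this]
    exact mul_le_mul_of_nonneg_left (by linarith) hs0.le
  have t2 : δ * |I2| ≤ s * (M * (2 * D2) * (A + A')) := by
    have a1 : δ ≤ s := by rw [← hs2]; (first | linarith only [hs0, hs1, hδ, hδ'] | nlinarith only [hs0, hs1, hδ, hδ'])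
    exact mul_le_mul a1 q2 (abs_nonneg _) hs0.le
  have t3 : 0 ≤ s * (A + A') := mul_nonneg hs0.le hAs
  (first | linarith only [t1, t2, t3] | nlinarith only [t1, t2, t3])

end H98KC

end

end S_H98_KC_Vke

section S_H98_KC_Vkd

/-!
# Vkd (MP_95be7d_S4): cut-off of pairings and of the local norm, class `Cl 0 0` (variant of `cut_ip`, `cut_loc` in `KB/Vcv.lean`)

`F = rh B · v`.
* `cut_ip0`: `ip F φ - ip v φ = ∫ F (1-1/rh) φ`, `|1-1/rh| = cosh(y/B)-1 ≤ (y²/(2B²))e^{|y|/B} ≤ (1/B) y² e^{|y|/16}` (`Vcv_cosh`, `Vcv_one`);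
  Cauchy-Schwarz with the weight `se2 γ ≥ e^{-2γ|y|} ≥ e^{-|y|/4}` (`se2_lo`), `|φ| ≤ C e^{-3|y|/4}` (`Cl_bnd`, `bd_abs`); the integral
  `∫ y⁴e^{|y|/8}e^{-3|y|/2}e^{|y|/4}` is finite: constant independent of `γ, B`.  Third statement: the same with `|φ||F|` (directly Cauchy-Schwarz
  for `|F|` and `|φ|`); it implies the second.
* `cut_loc0`: proof of `cut_loc` (pointwise `rh v' = F' - (rh'/rh)F`), integrability from `loc ∈ Cl(..)(..)` (decaying) and `v ∈ Cl 0 0`.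
-/

open MeasureTheory Filter Topology Set
open scoped ContDiff

noncomputable section

namespace H98KC

open H98KB H68KC

theorem Vkd_key {γ : ℝ} (hγ : 0 < γ) (hγ' : γ ≤ 1 / 8) {F g : ℝ → ℝ} {K : ℝ} (hK : 0 ≤ K)
    (hF : Continuous F) (hg : Continuous g) (hgK : ∀ y, |g y| ≤ K * Real.exp (-(|y| / 2)))
    (i3 : Integrable (fun y => se2 γ y * (F y) ^ 2)) :
    |∫ y, F y * g y| ≤ K * √(∫ y, bd (3 / 4) (3 / 4) y) * √(∫ y, se2 γ y * (F y) ^ 2) := by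
  have hw : Continuous (se2 γ) := Cl_cont (Cl_se2 hγ)
  have hb : ∀ y, (g y) ^ 2 / se2 γ y ≤ K ^ 2 * bd (3 / 4) (3 / 4) y := by
    intro y
    have a4 : (g y) ^ 2 ≤ K ^ 2 * Real.exp (-|y|) := by
      have h := pow_le_pow_left₀ (abs_nonneg _) (hgK y) 2
      have e : (K * Real.exp (-(|y| / 2))) ^ 2 = K ^ 2 * Real.exp (-|y|) := by
        rw [mul_pow, ← Real.exp_nat_mul]
        congr 2
        push_cast
        ring
      rw [sq_abs, e] at h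
      exact h
    have a5 : Real.exp (-(|y| / 4)) ≤ se2 γ y := by
      refine le_trans (Real.exp_le_exp.2 ?_) (se2_lo γ y)
      rw [abs_mul, abs_of_pos hγ]
      have := abs_nonneg y
      nlinarith
    rw [div_le_iff₀ (se2_pos γ y), bd_abs]
    refine a4.trans ?_
    rw [mul_assoc]
    refine mul_le_mul_of_nonneg_left ?_ (by positivity)
    calc Real.exp (-|y|) = Real.exp (-(3 / 4 * |y|)) * Real.exp (-(|y| / 4)) := by
          rw [← Real.exp_add]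
          congr 1
          ring
      _ ≤ _ := mul_le_mul_of_nonneg_left a5 (Real.exp_pos _).le
  have i4 : Integrable (fun y => (g y) ^ 2 / se2 γ y) := by
    refine int_of_bd (p := 3 / 4) (q := 3 / 4) ((hg.pow 2).div hw fun y => (se2_pos γ y).ne')
      (by norm_num) (by norm_num) ⟨K ^ 2, fun y => ?_⟩
    rw [abs_of_nonneg (div_nonneg (sq_nonneg _) (se2_pos γ y).le)]
    exact hb y
  have key := (cs_wt hF hg hw (se2_pos γ) i3 i4).2
  refine key.trans ?_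
  have hJ : ∫ y, (g y) ^ 2 / se2 γ y ≤ K ^ 2 * ∫ y, bd (3 / 4) (3 / 4) y := by
    rw [← integral_const_mul]
    exact integral_mono i4 ((bd_int (by norm_num) (by norm_num)).const_mul _) hb
  have hJ2 : √(∫ y, (g y) ^ 2 / se2 γ y) ≤ K * √(∫ y, bd (3 / 4) (3 / 4) y) := by
    refine (Real.sqrt_le_sqrt hJ).trans (le_of_eq ?_)
    rw [Real.sqrt_mul (sq_nonneg _), Real.sqrt_sq hK]
  exact mul_le_mul_of_nonneg_right hJ2 (Real.sqrt_nonneg _)

theorem cut_ip0 {φ : ℝ → ℝ} (hφ : Cl (3 / 4) (3 / 4) φ) : ∃ C : ℝ, 0 < C ∧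
    ∀ γ : ℝ, 0 < γ → γ ≤ 1 / 8 → ∀ B : ℝ, 16 ≤ B → ∀ v : ℝ → ℝ, Cl 0 0 v →
    |ip (fun y => rh B y * v y) φ - ip v φ| ≤
      C / B * √(∫ y, se2 γ y * (rh B y * v y) ^ 2) ∧
    |ip (fun y => rh B y * v y) φ| ≤ C * √(∫ y, se2 γ y * (rh B y * v y) ^ 2) ∧
    (∫ y, |φ y| * |rh B y * v y|) ≤ C * √(∫ y, se2 γ y * (rh B y * v y) ^ 2) := by
  obtain ⟨C1, hC1, h1⟩ := Cl_bnd hφ
  refine ⟨4 * C1 * √(∫ y, bd (3 / 4) (3 / 4) y) + 1, by positivity, ?_⟩
  intro γ hγ hγ' B hB v hv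
  have hB0 : 0 < B := by linarith
  have hB1 : 0 < 1 / B := by positivity
  have hrv : Cl (1 / B + 0) (1 / B + 0) (fun y => rh B y * v y) := Cl_mul (Vcv_Cl_rh hB0) hv
  have i1 : Integrable (fun y => rh B y * v y * φ y) :=
    Cl_int (Cl_mul hrv hφ) (by linarith) (by linarith)
  have i2 : Integrable (fun y => v y * φ y) :=
    Cl_int (Cl_mul hv hφ) (by linarith) (by linarith)
  have hcosh : Continuous (fun y : ℝ => Real.cosh (y / B)) :=
    Real.continuous_cosh.comp (continuous_id.div_const B)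
  have hφ1 : Continuous (fun y => (1 - Real.cosh (y / B)) * φ y) :=
    (continuous_const.sub hcosh).mul (Cl_cont hφ)
  have e1 : ip (fun y => rh B y * v y) φ - ip v φ =
      ∫ y, (rh B y * v y) * ((1 - Real.cosh (y / B)) * φ y) := by
    unfold ip
    rw [← integral_sub i1 i2]
    congr 1
    funext y
    have : rh B y * Real.cosh (y / B) = 1 := by
      unfold rh
      exact one_div_mul_cancel (Real.cosh_pos _).ne'
    change rh B y * v y * φ y - v y * φ y = rh B y * v y * ((1 - Real.cosh (y / B)) * φ y)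
    linear_combination (v y * φ y) * this
  have hse := Cl_se2 hγ
  have i3 : Integrable (fun y => se2 γ y * (rh B y * v y) ^ 2) :=
    Cl_int (Cl_mul hse (Cl_pow hrv 2)) (by push_cast; linarith) (by push_cast; linarith)
  have hp : ∀ y, |φ y| ≤ C1 * Real.exp (-(|y| / 2)) := by
    intro y
    have a2 := h1 y
    rw [bd_abs] at a2
    refine a2.trans (mul_le_mul_of_nonneg_left (Real.exp_le_exp.2 ?_) hC1)
    have := abs_nonneg y
    linarith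
  have hb : ∀ y, |(1 - Real.cosh (y / B)) * φ y| ≤ 4 * C1 / B * Real.exp (-(|y| / 2)) := by
    intro y
    have a1 := Vcv_one hB y
    have a2 := h1 y
    rw [bd_abs] at a2
    rw [abs_mul]
    calc |1 - Real.cosh (y / B)| * |φ y| ≤
        (4 / B * Real.exp (|y| / 4)) * (C1 * Real.exp (-(3 / 4 * |y|))) :=
          mul_le_mul a1 a2 (abs_nonneg _) (by positivity)
      _ = 4 * C1 / B * (Real.exp (|y| / 4) * Real.exp (-(3 / 4 * |y|))) := by ring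
      _ = _ := by
          rw [← Real.exp_add]
          congr 2
          ring
  obtain ⟨J, hJ⟩ : ∃ J, J = √(∫ y, bd (3 / 4) (3 / 4) y) := ⟨_, rfl⟩
  have hJ0 : 0 ≤ J := by rw [hJ]; exact Real.sqrt_nonneg _
  have k1 := Vkd_key hγ hγ' (F := fun y => rh B y * v y) (by positivity) (Cl_cont hrv) hφ1 hb i3
  have k2 := Vkd_key hγ hγ' (F := fun y => rh B y * v y) hC1 (Cl_cont hrv) (Cl_cont hφ) hp i3
  have i3' : Integrable (fun y => se2 γ y * (|rh B y * v y|) ^ 2) := by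
    simpa only [sq_abs] using i3
  have k3 := Vkd_key hγ hγ' (F := fun y => |rh B y * v y|) (g := fun y => |φ y|) hC1
    (Cl_cont hrv).abs (Cl_cont hφ).abs (fun y => by rw [abs_abs]; exact hp y) i3'
  simp only [sq_abs] at k3
  rw [← hJ] at k1 k2 k3 ⊢
  obtain ⟨S, hS⟩ : ∃ S, S = √(∫ y, se2 γ y * (rh B y * v y) ^ 2) := ⟨_, rfl⟩
  have hS0 : 0 ≤ S := by rw [hS]; exact Real.sqrt_nonneg _
  rw [← hS] at k1 k2 k3 ⊢
  have hm : C1 * J * S ≤ (4 * C1 * J + 1) * S := by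
    refine mul_le_mul_of_nonneg_right ?_ hS0
    have : 0 ≤ C1 * J := mul_nonneg hC1 hJ0
    linarith
  refine ⟨?_, k2.trans hm, ?_⟩
  · rw [e1]
    refine k1.trans (mul_le_mul_of_nonneg_right ?_ hS0)
    rw [add_div]
    have : 4 * C1 / B * J = 4 * C1 * J / B := by ring
    rw [this]
    linarith
  · have e : ∫ y, |φ y| * |rh B y * v y| = ∫ y, |rh B y * v y| * |φ y| := by
      congr 1
      funext y
      ring
    rw [e]
    exact ((le_abs_self _).trans k3).trans hm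

theorem cut_loc0 {γ B : ℝ} {v : ℝ → ℝ} (hγ : 0 < γ) (hB : 16 ≤ B) (hv : Cl 0 0 v) :
    ∫ y, loc γ B y * ((v y) ^ 2 + (deriv v y) ^ 2) ≤
      3 * ∫ y, se2 γ y * ((rh B y * v y) ^ 2 + (deriv (fun y => rh B y * v y) y) ^ 2) := by
  have hB0 : 0 < B := by linarith
  have hB1 : 0 < 1 / B := by positivity
  have hrv : Cl (1 / B + 0) (1 / B + 0) (fun y => rh B y * v y) := Cl_mul (Vcv_Cl_rh hB0) hv
  have hse := Cl_se2 hγ
  have hch := Cl_ch hB0
  have i1 : Integrable (fun y => loc γ B y * ((v y) ^ 2 + (deriv v y) ^ 2)) := by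
    have hloc : Cl (2 * γ + 2 / B) (2 * γ + 2 / B) (loc γ B) := Cl_mul hse hch
    have h2B : 0 < 2 / B := by positivity
    exact Cl_int (Cl_mul hloc (Cl_add (Cl_pow hv 2) (Cl_pow (Cl_der hv) 2)))
      (by push_cast; linarith) (by push_cast; linarith)
  have i2 : Integrable (fun y => se2 γ y * ((rh B y * v y) ^ 2 +
      (deriv (fun y => rh B y * v y) y) ^ 2)) :=
    Cl_int (Cl_mul hse (Cl_add (Cl_pow hrv 2) (Cl_pow (Cl_der hrv) 2)))
      (by push_cast; linarith) (by push_cast; linarith)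
  rw [← integral_const_mul]
  refine integral_mono i1 (i2.const_mul 3) fun y => ?_
  have hd : deriv (fun y => rh B y * v y) y =
      -(1 / B) * Real.tanh (1 / B * y) * rh B y * v y + rh B y * deriv v y :=
    ((Vcv_rh_hd B y).mul (Cl_hd hv y)).deriv
  change loc γ B y * ((v y) ^ 2 + (deriv v y) ^ 2) ≤
    3 * (se2 γ y * ((rh B y * v y) ^ 2 + (deriv (fun y => rh B y * v y) y) ^ 2))
  rw [hd]
  have hse0 := se2_pos γ y
  have e : loc γ B y = se2 γ y * rh B y ^ 2 := rfl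
  rw [e]
  obtain ⟨a, ha⟩ : ∃ a, a = rh B y * v y := ⟨_, rfl⟩
  obtain ⟨b, hb⟩ : ∃ b, b = rh B y * deriv v y := ⟨_, rfl⟩
  obtain ⟨τ, hτ⟩ : ∃ τ, τ = 1 / B * Real.tanh (1 / B * y) := ⟨_, rfl⟩
  have ht : |τ| ≤ 1 / 16 := by
    rw [hτ, abs_mul, abs_of_pos hB1]
    have h1 := (tanh_abs_lt (1 / B * y)).le
    have h2 : 1 / B ≤ 1 / 16 := one_div_le_one_div_of_le (by norm_num) hB
    have h3 := abs_nonneg (Real.tanh (1 / B * y))
    nlinarith
  have e1 : -(1 / B) * Real.tanh (1 / B * y) * rh B y * v y + rh B y * deriv v y = -τ * a + b := by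
    rw [hτ, ha, hb]
    ring
  have e2 : se2 γ y * rh B y ^ 2 * ((v y) ^ 2 + (deriv v y) ^ 2) = se2 γ y * (a ^ 2 + b ^ 2) := by
    rw [ha, hb]
    ring
  rw [e1, e2, ← ha]
  have h5 : a ^ 2 + b ^ 2 ≤ 3 * (a ^ 2 + (-τ * a + b) ^ 2) := by
    have h6 : τ ^ 2 ≤ 1 / 256 := by
      have := pow_le_pow_left₀ (abs_nonneg τ) ht 2
      rw [sq_abs] at this
      linarith
    have h7 : b ^ 2 ≤ 2 * (-τ * a + b) ^ 2 + 2 * (τ ^ 2 * a ^ 2) := by
      (first | linarith only [sq_nonneg ((-τ * a + b) - τ * a)] | nlinarith only [sq_nonneg ((-τ * a + b) - τ * a)])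
    have h8 : τ ^ 2 * a ^ 2 ≤ 1 / 256 * a ^ 2 := mul_le_mul_of_nonneg_right h6 (sq_nonneg a)
    (first | linarith only [sq_nonneg a, sq_nonneg (-τ * a + b), h7, h8] | nlinarith only [sq_nonneg a, sq_nonneg (-τ * a + b), h7, h8])
  nlinarith

end H98KC

end

end S_H98_KC_Vkd

section S_H98_KC_Vkf

/-!
# Vkf (MP_95be7d_S4): `(v, ρ')` is controlled by `Jn`

`t = th 4`, `Q' = -tQ`, `Q⁴ = 15(1-t²)`, `t' = 2(1-t²) = (2/15)Q⁴`, `Q'² = t²Q² = Q²-Q⁶/15`, so `ρ = Q³Q'² = Q⁵-Q⁹/15`.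
Let `T = (5/6)Q⁵-(3/50)Q⁹`.  Then `T' - tT = ρ'`, i.e. (`Q' = -tQ`): `ρ' = 5Q⁴Q'-(3/5)Q⁸Q'`, `T' = (25/6)Q⁴Q'-(27/50)Q⁸Q'`,
`tT = -Q'((5/6)Q⁴-(3/50)Q⁸)`, and `25/6+5/6 = 5`, `27/50+3/50 = 3/5`.  Hence `(vT)' = v'T+v(ρ'+tT) = (v'+tv)T + vρ'`, so
`(v,ρ') = -∫(v'+tv)T` (`Cl_int_deriv`), and Cauchy-Schwarz with weight `t'` (`cs_wt`): `|(v,ρ')| ≤ (∫T²/t')^{1/2} Jn^{1/2}`, `T²/t' ≤ C Q⁶` (`|T| ≤ C Q⁵`).
-/

open MeasureTheory Filter Topology Set
open scoped ContDiff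

noncomputable section

namespace H98KC

open H98KB H68KC

def Vkf_T (y : ℝ) : ℝ := 5 / 6 * Qf 4 y ^ 5 - 3 / 50 * Qf 4 y ^ 9

theorem Vkf_k : 1 ≤ 4 := by norm_num

theorem Vkf_ClT : Cl 1 1 Vkf_T := by
  have h5 := Cl_pow' (Cl_Qf Vkf_k) (by norm_num) (by norm_num) 5 (by norm_num)
  have h9 := Cl_pow' (Cl_Qf Vkf_k) (by norm_num) (by norm_num) 9 (by norm_num)
  exact Cl_sub (Cl_smul (5 / 6) h5) (Cl_smul (3 / 50) h9)

theorem Vkf_Q4 (y : ℝ) : Qf 4 y ^ 4 = 15 * (1 - th 4 y ^ 2) := by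
  have h := Qf_pow Vkf_k y
  have hC : C0 4 = 15 := by
    unfold C0
    norm_num
  rw [hC] at h
  exact h

theorem Vkf_Qd (y : ℝ) : HasDerivAt (Qf 4) (-(th 4 y) * Qf 4 y) y := Qf_hd Vkf_k y

theorem Vkf_rho (y : ℝ) : rho y = Qf 4 y ^ 5 - Qf 4 y ^ 9 / 15 := by
  have h := Vkf_Q4 y
  have h2 : deriv (Qf 4) y = -(th 4 y) * Qf 4 y := (Vkf_Qd y).deriv
  have h3 : th 4 y ^ 2 = 1 - Qf 4 y ^ 4 / 15 := by linarith
  unfold rho
  rw [h2]
  calc Qf 4 y ^ 3 * (-(th 4 y) * Qf 4 y) ^ 2 = Qf 4 y ^ 5 * th 4 y ^ 2 := by ring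
    _ = Qf 4 y ^ 5 - Qf 4 y ^ 9 / 15 := by rw [h3]; ring

theorem Vkf_rhod (y : ℝ) : deriv rho y =
    -(th 4 y) * Qf 4 y * (5 * Qf 4 y ^ 4 - 3 / 5 * Qf 4 y ^ 8) := by
  have h : rho = fun y => Qf 4 y ^ 5 - Qf 4 y ^ 9 / 15 := funext Vkf_rho
  rw [h]
  have h1 := ((Vkf_Qd y).pow 5).sub (((Vkf_Qd y).pow 9).div_const 15)
  refine h1.deriv.trans ?_
  push_cast
  ring

theorem Vkf_Td (y : ℝ) : deriv Vkf_T y =
    -(th 4 y) * Qf 4 y * (25 / 6 * Qf 4 y ^ 4 - 27 / 50 * Qf 4 y ^ 8) := by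
  have h1 := (((Vkf_Qd y).pow 5).const_mul (5 / 6)).sub (((Vkf_Qd y).pow 9).const_mul (3 / 50))
  refine h1.deriv.trans ?_
  push_cast
  ring

theorem Vkf_thd (y : ℝ) : deriv (th 4) y = 2 / 15 * Qf 4 y ^ 4 := by
  rw [(th_hd 4 y).deriv, Vkf_Q4]
  push_cast
  ring

theorem pairJ : ∃ C : ℝ, 0 < C ∧ ∀ (p q : ℝ) (v : ℝ → ℝ), 0 < p → 0 < q → Cl p q v →
    |ip v (deriv rho)| ≤ C * √(Jn v) := by
  refine ⟨√(∫ y, Vkf_T y ^ 2 / deriv (th 4) y) + 1, by positivity, ?_⟩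
  intro p q v hp hq hv
  have hF : Cl p q (fun y => deriv v y + th 4 y * v y) := Cl_add (Cl_der hv) (Cl_mul0 (Cl_th 4) hv)
  have hW : Cl 0 0 (deriv (th 4)) := Cl_der (Cl_th 4)
  have hWp : ∀ y, 0 < deriv (th 4) y := by
    intro y
    rw [Vkf_thd]
    have := Qf_pos 4 y
    positivity
  have hF2 : Integrable (fun y => deriv (th 4) y * (deriv v y + th 4 y * v y) ^ 2) := by
    have h1 := Cl_mul0 hW (Cl_pow hF 2)
    exact Cl_int h1 (by push_cast; positivity) (by push_cast; positivity)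
  have hφ2 : Integrable (fun y => Vkf_T y ^ 2 / deriv (th 4) y) := by
    have h3 := Cl_pow' (Cl_Qf Vkf_k) (by norm_num) (by norm_num) 3 (by norm_num)
    have h7 := Cl_pow' (Cl_Qf Vkf_k) (by norm_num) (by norm_num) 7 (by norm_num)
    have h1 : Cl 1 1 (fun y => 5 / 6 * Qf 4 y ^ 3 - 3 / 50 * Qf 4 y ^ 7) :=
      Cl_sub (Cl_smul (5 / 6) h3) (Cl_smul (3 / 50) h7)
    have h2 := Cl_smul (15 / 2) (Cl_pow h1 2)
    have h4 := Cl_int h2 (by norm_num) (by norm_num)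
    refine h4.congr (Eventually.of_forall fun y => ?_)
    show 15 / 2 * (5 / 6 * Qf 4 y ^ 3 - 3 / 50 * Qf 4 y ^ 7) ^ 2 = Vkf_T y ^ 2 / deriv (th 4) y
    rw [Vkf_thd]
    have hQ : Qf 4 y ≠ 0 := (Qf_pos 4 y).ne'
    unfold Vkf_T
    rw [eq_div_iff (by positivity)]
    ring
  obtain ⟨hi, hcs⟩ := cs_wt (Cl_cont hF) (Cl_cont Vkf_ClT) (Cl_cont hW) hWp hF2 hφ2
  have hvT : Cl (p + 1) (q + 1) (fun y => v y * Vkf_T y) := Cl_mul hv Vkf_ClT
  have h0 := Cl_int_deriv hvT (by linarith) (by linarith)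
  have hd : (fun y => deriv (fun z => v z * Vkf_T z) y) =
      fun y => (deriv v y + th 4 y * v y) * Vkf_T y + v y * deriv rho y := by
    funext y
    refine ((Cl_hd hv y).mul (Cl_hd Vkf_ClT y)).deriv.trans ?_
    rw [Vkf_Td, Vkf_rhod]
    unfold Vkf_T
    ring
  have hd0 : ∫ y, ((deriv v y + th 4 y * v y) * Vkf_T y + v y * deriv rho y) = 0 := by
    rw [← hd]; exact h0
  have hrho : Cl 3 3 (deriv rho) := Cl_der rho_cl
  have hi2 : Integrable (fun y => v y * deriv rho y) :=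
    Cl_int (Cl_mul hv hrho) (by linarith) (by linarith)
  rw [integral_add hi hi2] at hd0
  have h1 : ip v (deriv rho) = -∫ y, (deriv v y + th 4 y * v y) * Vkf_T y := by
    unfold ip
    linarith
  rw [h1, abs_neg]
  refine hcs.trans ?_
  unfold Jn
  have h2 : 0 ≤ √(∫ y, deriv (th 4) y * (deriv v y + th 4 y * v y) ^ 2) := Real.sqrt_nonneg _
  nlinarith [Real.sqrt_nonneg (∫ y, Vkf_T y ^ 2 / deriv (th 4) y)]

end H98KC

end

end S_H98_KC_Vkf

section S_H98_KC_Vkg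

/-!
# Vkg (MP_95be7d_S4): the `ΛQ` term of the virial functional is small (uses the statements of `Vkd`, `Vkf`)

`v = vf 4 δ ε ∈ Cl 0 0` (`Cl_vf`), `F = rh B · v ∈ Cl (1/B) (1/B)`, `N = ∫ se2 γ F²`, `v-δv'' = Lε` (`vf_L`).
First statement: `vf 4 δ ΛQ = -2 Sm δ Q` (`vf_LamQ`), `Ψ v = ψ rh F`, `ψ = t + η tanh(γy)`, `t = th 4`.
* `Sm δ Q = Q + δ (Sm δ Q)''`, `(Sm δ Q)'' = Sm δ Q''` (`Sm_eq`, `Sm_deriv`), `|Sm δ φ| ≤ C e^{-3|y|/4}` uniformly in `δ ≤ 1/16` if `|φ| ≤ C'e^{-3|y|/4}` (the kernel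
  `e^{-|z|/√δ}/(2√δ)` has `∫kernel e^{3|z|/4} = 1/(1-9δ/16)`; or use `Sm_wt` with the weight `W = e^{...}`-type `cosh`: weighted `L²` bound of `Sm δ Q''` is enough:
  `δ|∫ψ rh F Sm δ Q''| ≤ 2δ (∫ se2 γ F²)^{1/2}(∫(Sm δ Q'')²/se2 γ)^{1/2}` and `Sm_wt` with `W = cosh²(γ y)`, `δ|W''| ≤ W/4`).  So this part is `≤ Cδ√N`.
* `∫ t χ v Q = -∫χ v Q'` (`χ = ch B = rh²`), `= -(v,Q') + ∫(1-χ) v Q'`; `(v,Q')=δ(v'',Q')=δ(v,Q''')` because `(v-δv'',Q')=(Lε,Q')=(ε,LQ')=0` (`Lop_symm`, `L_Qd`);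
  `(v,Q''') = (F,Q''')+O((1/B)√N)`, `|(F,Q''')| ≤ C√N` (`cut_ip0`).  `∫(1-χ)vQ' = (v,Q')-(rh F,Q')`, and `(1-rh²)/rh ≤ 2(1-rh)/rh = 2(cosh(y/B)-1)`: as in `cut_ip0`,
  or: `(v,Q')-(F,Q')` by `cut_ip0`, and `(F,Q')-(rh F,Q') = ∫(1-rh)F Q'`, `0 ≤ 1-rh ≤ cosh(y/B)-1`, `≤ (C/B)√N` by Cauchy-Schwarz.
* `|η∫tanh(γy)χ v Q| ≤ ηγ∫|y|rh|F|Q ≤ Cηγ√N` (`|tanh x| ≤ |x|`, third part of `cut_ip0` with a smooth majorant of `|y|Q`, e.g. `(1+y²)Q`).
Second statement: `(Lε,ρ')=(v-δv'',ρ')=(v,ρ')-δ(v,ρ''')`; `(v,ρ')=(F,ρ')+O((1/B)√N)`, `|(F,ρ')| ≤ C√(Jn F)` (`pairJ`), `(v,ρ''')` by `cut_ip0`.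
-/

open MeasureTheory Filter Topology Set
open scoped ContDiff

noncomputable section

namespace H98KC

open H98KB H68KC

theorem Vkg_E2 {γ δ : ℝ} (hγ : 0 < γ) (hγ' : γ ≤ 1 / 8) (hδ : 0 < δ) (hδ' : δ ≤ 1 / 16) (y : ℝ) :
    δ * |deriv (deriv (Vcv_E γ)) y| ≤ Vcv_E γ y / 4 := by
  have e1 : deriv (Vcv_E γ) = Vcv_E1 γ := funext fun y => (Vcv_E_hd γ y).deriv
  rw [e1, (Vcv_E1_hd γ y).deriv]
  have hE := Vcv_E_pos γ y
  have h1 := Vcv_E2_le hγ y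
  have h2 : 4 * γ ^ 2 ≤ 1 / 16 := by nlinarith
  have h3 : |Vcv_E2 γ y| ≤ 1 / 16 * Vcv_E γ y := h1.trans (mul_le_mul_of_nonneg_right h2 hE.le)
  have h4 : 0 ≤ |Vcv_E2 γ y| := abs_nonneg _
  nlinarith

theorem Vkg_E_le {γ : ℝ} (hγ : 0 < γ) (hγ' : γ ≤ 1 / 8) (y : ℝ) : Vcv_E γ y ≤ Real.exp (|y| / 4) := by
  have h1 := Vcv_E_se2 γ y
  have h2 := se2_lo γ y
  have h3 : Real.exp (-(|y| / 4)) ≤ se2 γ y := by
    refine le_trans (Real.exp_le_exp.2 ?_) h2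
    rw [abs_mul, abs_of_pos hγ]
    have := abs_nonneg y
    nlinarith
  have hE := Vcv_E_pos γ y
  have h4 : Vcv_E γ y * Real.exp (-(|y| / 4)) ≤ 1 := by
    rw [← h1]
    exact mul_le_mul_of_nonneg_left h3 hE.le
  have h5 : Real.exp (-(|y| / 4)) * Real.exp (|y| / 4) = 1 := by
    rw [← Real.exp_add]
    simp
  calc Vcv_E γ y = Vcv_E γ y * Real.exp (-(|y| / 4)) * Real.exp (|y| / 4) := by
        rw [mul_assoc, h5, mul_one]
    _ ≤ 1 * Real.exp (|y| / 4) := mul_le_mul_of_nonneg_right h4 (Real.exp_pos _).le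
    _ = _ := one_mul _

theorem Vkg_dom : ∃ C : ℝ, 0 < C ∧ ∀ γ : ℝ, 0 < γ → γ ≤ 1 / 8 → ∀ B : ℝ, 16 ≤ B → ∀ v : ℝ → ℝ,
    Cl 0 0 v → ∀ (K : ℝ) (g : ℝ → ℝ), 0 ≤ K → (∀ y, |g y| ≤ K * Real.exp (-(3 / 4 * |y|))) →
    |∫ y, g y * (rh B y * v y)| ≤ K * (C * √(∫ y, se2 γ y * (rh B y * v y) ^ 2)) := by
  have hφ : Cl (3 / 4) (3 / 4) (fun y : ℝ => 1 / Real.cosh (3 / 4 * y)) := Cl_sech (by norm_num)
  obtain ⟨C, hC, h⟩ := cut_ip0 hφ
  refine ⟨C, hC, fun γ hγ hγ' B hB v hv K g hK hg => ?_⟩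
  obtain ⟨-, -, h3⟩ := h γ hγ hγ' B hB v hv
  have hB0 : 0 < B := by linarith
  have hF : Cl (1 / B) (1 / B) (fun y => rh B y * v y) := Nla_mulr (Vcv_Cl_rh hB0) hv
  have hpos : ∀ y : ℝ, 0 < 1 / Real.cosh (3 / 4 * y) := fun y => one_div_pos.2 (Real.cosh_pos _)
  have hle : ∀ y : ℝ, Real.exp (-(3 / 4 * |y|)) ≤ |1 / Real.cosh (3 / 4 * y)| := by
    intro y
    rw [abs_of_pos (hpos y), le_one_div (Real.exp_pos _) (Real.cosh_pos _), one_div, ← Real.exp_neg,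
      neg_neg]
    have h1 := Tan_cosh_le (3 / 4 * y)
    rw [abs_mul, abs_of_pos (by norm_num : (0:ℝ) < 3 / 4)] at h1
    exact h1
  have hint : Integrable (fun y => K * (|1 / Real.cosh (3 / 4 * y)| * |rh B y * v y|)) := by
    have h1 := ((Cl_int (Cl_mul hφ hF) (by positivity) (by positivity)).abs).const_mul K
    refine h1.congr (Eventually.of_forall fun y => ?_)
    show K * |1 / Real.cosh (3 / 4 * y) * (rh B y * v y)| = _
    rw [abs_mul]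
  calc |∫ y, g y * (rh B y * v y)| ≤ ∫ y, |g y * (rh B y * v y)| := abs_integral_le_integral_abs
    _ ≤ ∫ y, K * (|1 / Real.cosh (3 / 4 * y)| * |rh B y * v y|) := by
        refine integral_mono_of_nonneg (Eventually.of_forall fun y => abs_nonneg _) hint
          (Eventually.of_forall fun y => ?_)
        show |g y * (rh B y * v y)| ≤ K * (|1 / Real.cosh (3 / 4 * y)| * |rh B y * v y|)
        rw [abs_mul, ← mul_assoc]
        refine mul_le_mul_of_nonneg_right ((hg y).trans ?_) (abs_nonneg _)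
        exact mul_le_mul_of_nonneg_left (hle y) hK
    _ = K * ∫ y, |1 / Real.cosh (3 / 4 * y)| * |rh B y * v y| := integral_const_mul _ _
    _ ≤ _ := mul_le_mul_of_nonneg_left h3 hK

theorem Vkg_ibp {v φ : ℝ → ℝ} (hv : Cl 0 0 v) (hφ : Cl 1 1 φ) :
    ip (deriv (deriv v)) φ = ip v (deriv (deriv φ)) := by
  unfold ip
  rw [Cl_ibp (Cl_der hv) hφ (by norm_num) (by norm_num), Cl_ibp hv (Cl_der hφ) (by norm_num) (by norm_num),
    neg_neg]

theorem Vkg_L {δ : ℝ} (hδ : 0 < δ) (hδ' : δ ≤ 1 / 16) {ε φ : ℝ → ℝ} (hε : Cl 0 0 ε) (hφ : Cl 1 1 φ) :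
    ip (Lop 4 ε) φ = ip (vf 4 δ ε) φ - δ * ip (vf 4 δ ε) (deriv (deriv φ)) := by
  have hv : Cl 0 0 (vf 4 δ ε) := Cl_vf (by norm_num) hδ hδ' (by norm_num) (by norm_num) hε
  rw [← Vkg_ibp hv hφ]
  unfold ip
  rw [← integral_const_mul, ← integral_sub (Cl_int (Cl_mul0 hv hφ) one_pos one_pos)
    ((Cl_int (Cl_mul0 (Cl_der (Cl_der hv)) hφ) one_pos one_pos).const_mul δ)]
  refine integral_congr_ae (Eventually.of_forall fun y => ?_)
  show Lop 4 ε y * φ y = vf 4 δ ε y * φ y - δ * (deriv (deriv (vf 4 δ ε)) y * φ y)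
  rw [← vf_L (by norm_num) hδ hδ' (by norm_num) (by norm_num) hε y]
  ring

theorem Vkg_Q : Cl 1 1 (Qf 4) := Cl_Qf (by norm_num)

theorem Vkg_rho : Cl 1 1 rho := by
  have h0 : Cl 0 0 (Qf 4) := Cl_mono Vkg_Q (by norm_num) (by norm_num)
  have h1 := Cl_mul (Cl_pow0 h0 3) (Cl_pow' (Cl_der Vkg_Q) (by norm_num) (by norm_num) 2 (by norm_num))
  exact Cl_mono h1 (by norm_num) (by norm_num)

theorem Vkg_ipv {C n B x y : ℝ} (hB : 16 ≤ B) (hn : 0 ≤ n) (hC : 0 < C) (h1 : |x - y| ≤ C / B * n)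
    (h2 : |x| ≤ C * n) : |y| ≤ 2 * C * n := by
  have h3 : C / B * n ≤ C * n := by
    apply mul_le_mul_of_nonneg_right _ hn
    rw [div_le_iff₀ (by linarith)]
    nlinarith
  have h4 : |y| ≤ |x| + |x - y| := by
    have := abs_sub_abs_le_abs_sub y x
    rw [abs_sub_comm y x] at this
    linarith
  linarith

/-- the smoothed part -/
theorem Vkg_sm : ∃ K : ℝ, 0 < K ∧ ∀ γ η δ B : ℝ, 0 < γ → γ ≤ 1 / 8 → 0 < η → η ≤ 1 → 0 < δ →
    δ ≤ 1 / 16 → 16 ≤ B → ∀ v : ℝ → ℝ, Cl 0 0 v →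
    |∫ y, Psi 4 η γ B y * (v y * Sm δ (deriv (deriv (Qf 4))) y)| ≤
      K * √(∫ y, se2 γ y * (rh B y * v y) ^ 2) := by
  have hQ2 : Cl 1 1 (deriv (deriv (Qf 4))) := Cl_der (Cl_der Vkg_Q)
  obtain ⟨C2, hC2, h2⟩ := Cl_bnd hQ2
  have ib : Integrable (bd 1 1) := bd_int one_pos one_pos
  set J : ℝ := ∫ y, bd 1 1 y with hJ
  have hJ0 : 0 ≤ J := integral_nonneg fun y => (bd_pos 1 1 y).le
  refine ⟨2 * √(4 / 3 * (C2 ^ 2 * J)) + 1, by positivity, ?_⟩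
  intro γ η δ B hγ hγ' hη hη' hδ hδ' hB v hv
  have hB0 : 0 < B := by linarith
  have hS : Cl 1 1 (Sm δ (deriv (deriv (Qf 4)))) := Cl_Sm hδ hδ' (by norm_num) (by norm_num) hQ2
  set S := Sm δ (deriv (deriv (Qf 4))) with hSd
  have hF : Cl (1 / B) (1 / B) (fun y => rh B y * v y) := Nla_mulr (Vcv_Cl_rh hB0) hv
  have hse : Cl (2 * γ) (2 * γ) (se2 γ) := Cl_se2 hγ
  have hsp : ∀ y, 0 < se2 γ y := by
    intro y
    unfold se2
    have := Real.cosh_pos (γ * y)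
    positivity
  have hEinv : ∀ y, Vcv_E γ y = 1 / se2 γ y := by
    intro y
    rw [eq_div_iff (hsp y).ne']
    exact Vcv_E_se2 γ y
  have i1 : Integrable (fun y => se2 γ y * (|rh B y * v y|) ^ 2) := by
    have h := Cl_int (Cl_mul hse (Cl_mul hF hF)) (by positivity) (by positivity)
    refine h.congr (Eventually.of_forall fun y => ?_)
    show se2 γ y * (rh B y * v y * (rh B y * v y)) = se2 γ y * (|rh B y * v y|) ^ 2
    rw [sq_abs]
    ring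
  have i2' : Integrable (fun y => Vcv_E γ y * (S y) ^ 2) :=
    Smb_int hS (Vcv_Cl_E hγ) (by linarith) (by linarith)
  have i2 : Integrable (fun y => (|S y|) ^ 2 / se2 γ y) := by
    refine i2'.congr (Eventually.of_forall fun y => ?_)
    show Vcv_E γ y * (S y) ^ 2 = (|S y|) ^ 2 / se2 γ y
    rw [hEinv y, sq_abs]
    ring
  obtain ⟨-, hcs⟩ := cs_wt (F := fun y => |rh B y * v y|) (φ := fun y => |S y|) (W := se2 γ)
    (Cl_cont hF).abs (Cl_cont hS).abs (Cl_cont hse) hsp i1 i2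
  have e1 : (∫ y, (|S y|) ^ 2 / se2 γ y) = ∫ y, Vcv_E γ y * (S y) ^ 2 := by
    refine integral_congr_ae (Eventually.of_forall fun y => ?_)
    show (|S y|) ^ 2 / se2 γ y = Vcv_E γ y * (S y) ^ 2
    rw [hEinv y, sq_abs]
    ring
  have e2 : (∫ y, se2 γ y * (|rh B y * v y|) ^ 2) = ∫ y, se2 γ y * (rh B y * v y) ^ 2 := by
    simp only [sq_abs]
  have h3 := (Sm_wt hδ hδ' (p := 1) (q := 1) (by norm_num) (by norm_num) hQ2 (Vcv_Cl_E hγ)
    (Vcv_E_pos γ) (Vkg_E2 hγ hγ' hδ hδ') (by linarith) (by linarith)).1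
  have h4 : (∫ y, Vcv_E γ y * (deriv (deriv (Qf 4)) y) ^ 2) ≤ C2 ^ 2 * J := by
    rw [hJ, ← integral_const_mul]
    refine integral_mono (Smb_int hQ2 (Vcv_Cl_E hγ) (by linarith) (by linarith)) (ib.const_mul _) fun y => ?_
    show Vcv_E γ y * (deriv (deriv (Qf 4)) y) ^ 2 ≤ C2 ^ 2 * bd 1 1 y
    have h5 : (deriv (deriv (Qf 4)) y) ^ 2 ≤ (C2 * bd 1 1 y) ^ 2 := by
      rw [← sq_abs]
      exact pow_le_pow_left₀ (abs_nonneg _) (h2 y) 2
    have h6 := Vkg_E_le hγ hγ' y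
    have h7 : Real.exp (|y| / 4) * bd 1 1 y ≤ 1 := by
      rw [bd_abs, ← Real.exp_add, Real.exp_le_one_iff]
      linarith [abs_nonneg y]
    have hb := bd_pos 1 1 y
    calc Vcv_E γ y * (deriv (deriv (Qf 4)) y) ^ 2 ≤ Real.exp (|y| / 4) * (C2 * bd 1 1 y) ^ 2 :=
          mul_le_mul h6 h5 (sq_nonneg _) (Real.exp_pos _).le
      _ = C2 ^ 2 * bd 1 1 y * (Real.exp (|y| / 4) * bd 1 1 y) := by ring
      _ ≤ C2 ^ 2 * bd 1 1 y * 1 := mul_le_mul_of_nonneg_left h7 (by positivity)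
      _ = _ := mul_one _
  have h8 : (∫ y, Vcv_E γ y * (S y) ^ 2) ≤ 4 / 3 * (C2 ^ 2 * J) := by
    refine h3.trans ?_
    exact mul_le_mul_of_nonneg_left h4 (by norm_num)
  set n : ℝ := √(∫ y, se2 γ y * (rh B y * v y) ^ 2) with hn
  have hn0 : 0 ≤ n := Real.sqrt_nonneg _
  have iFS : Integrable (fun y => 2 * (|rh B y * v y| * |S y|)) := by
    have h := ((Cl_int (Cl_mul hF hS) (by positivity) (by positivity)).abs).const_mul 2
    refine h.congr (Eventually.of_forall fun y => ?_)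
    show 2 * |rh B y * v y * S y| = _
    rw [abs_mul]
  have h9 : |∫ y, Psi 4 η γ B y * (v y * S y)| ≤ 2 * ∫ y, |rh B y * v y| * |S y| := by
    rw [← integral_const_mul]
    refine abs_integral_le_integral_abs.trans ?_
    refine integral_mono_of_nonneg (Eventually.of_forall fun y => abs_nonneg _) iFS
      (Eventually.of_forall fun y => ?_)
    show |Psi 4 η γ B y * (v y * S y)| ≤ 2 * (|rh B y * v y| * |S y|)
    have e3 : Psi 4 η γ B y * (v y * S y) = psi 4 η γ y * rh B y * ((rh B y * v y) * S y) := by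
      unfold Psi
      rw [Vcu_rh_sq]
      ring
    rw [e3, abs_mul, abs_mul (rh B y * v y)]
    refine mul_le_mul_of_nonneg_right ?_ (by positivity)
    rw [abs_mul, abs_of_pos (Vcv_rh_pos B y)]
    have h10 := psi_abs (k := 4) hη.le γ y
    have h11 := Vcv_rh_le B y
    have h12 := (Vcv_rh_pos B y).le
    have h13 := abs_nonneg (psi 4 η γ y)
    (first | linarith only [h10, h11, h12, hδ, hδ', hη, hη'] | nlinarith only [h10, h11, h12, hδ, hδ', hη, hη'])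
  have h10 : (∫ y, |rh B y * v y| * |S y|) ≤ √(4 / 3 * (C2 ^ 2 * J)) * n := by
    refine (le_abs_self _).trans (hcs.trans ?_)
    rw [e1, e2]
    exact mul_le_mul_of_nonneg_right (Real.sqrt_le_sqrt h8) hn0
  calc |∫ y, Psi 4 η γ B y * (v y * S y)| ≤ 2 * (√(4 / 3 * (C2 ^ 2 * J)) * n) :=
        h9.trans (mul_le_mul_of_nonneg_left h10 (by norm_num))
    _ ≤ (2 * √(4 / 3 * (C2 ^ 2 * J)) + 1) * n := by (first | linarith only [hn0] | nlinarith only [hn0])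

theorem Vkg_tanh (x : ℝ) : |Real.tanh x| ≤ |x| := by
  have key : ∀ t : ℝ, 0 ≤ t → Real.tanh t ≤ t := by
    intro t ht
    rw [Real.tanh_eq_sinh_div_cosh, div_le_iff₀ (Real.cosh_pos t)]
    have h1 : MonotoneOn (fun t : ℝ => t * Real.cosh t - Real.sinh t) (Ici 0) := by
      apply monotoneOn_of_deriv_nonneg (convex_Ici 0)
      · exact ((continuous_id.mul Real.continuous_cosh).sub Real.continuous_sinh).continuousOn
      · exact ((differentiable_id.mul Real.differentiable_cosh).sub Real.differentiable_sinh).differentiableOn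
      · intro u hu
        rw [interior_Ici, mem_Ioi] at hu
        have h2 : HasDerivAt (fun t : ℝ => t * Real.cosh t - Real.sinh t)
            (1 * Real.cosh u + u * Real.sinh u - Real.cosh u) u :=
          ((hasDerivAt_id u).mul (Real.hasDerivAt_cosh u)).sub (Real.hasDerivAt_sinh u)
        rw [h2.deriv]
        have h3 : 0 ≤ Real.sinh u := Real.sinh_nonneg_iff.2 hu.le
        nlinarith
    have h2 := h1 (mem_Ici.2 le_rfl) (mem_Ici.2 ht) ht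
    simp only [zero_mul, Real.sinh_zero, sub_zero] at h2
    linarith
  rcases le_total 0 x with h | h
  · have h0 : 0 ≤ Real.tanh x := by
      rw [Real.tanh_eq_sinh_div_cosh]
      exact div_nonneg (Real.sinh_nonneg_iff.2 h) (Real.cosh_pos x).le
    rw [abs_of_nonneg h0, abs_of_nonneg h]
    exact key x h
  · have h0 : 0 ≤ Real.tanh (-x) := by
      rw [Real.tanh_eq_sinh_div_cosh]
      exact div_nonneg (Real.sinh_nonneg_iff.2 (by linarith)) (Real.cosh_pos _).le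
    have h1 := key (-x) (by linarith)
    rw [Real.tanh_neg] at h0 h1
    rw [abs_of_nonpos (by linarith), abs_of_nonpos h]
    exact h1

/-- the main part -/
theorem Vkg_main : ∃ K : ℝ, 0 < K ∧ ∀ γ η δ B : ℝ, 0 < γ → γ ≤ 1 / 8 → 0 < η → η ≤ 1 → 0 < δ →
    δ ≤ 1 / 16 → 16 ≤ B → ∀ ε : ℝ → ℝ, Cl 0 0 ε →
    |∫ y, Psi 4 η γ B y * (vf 4 δ ε y * Qf 4 y)| ≤
      K * (η * γ + δ + 1 / B) * √(∫ y, se2 γ y * (rh B y * vf 4 δ ε y) ^ 2) := by
  have hQ1 : Cl 1 1 (deriv (Qf 4)) := Cl_der Vkg_Q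
  have hQ3 : Cl 1 1 (deriv (deriv (deriv (Qf 4)))) := Cl_der (Cl_der hQ1)
  obtain ⟨Ca, hCa, ha⟩ := cut_ip0 (Cl_mono hQ1 (by norm_num) (by norm_num) : Cl (3 / 4) (3 / 4) (deriv (Qf 4)))
  obtain ⟨Cb, hCb, hb⟩ := cut_ip0
    (Cl_mono hQ3 (by norm_num) (by norm_num) : Cl (3 / 4) (3 / 4) (deriv (deriv (deriv (Qf 4)))))
  obtain ⟨C0, hC0, h0⟩ := Vkg_dom
  obtain ⟨C1, hC1, h1⟩ := Cl_bnd hQ1
  obtain ⟨C2, hC2, h2⟩ := Cl_bnd Vkg_Q
  refine ⟨Ca + 2 * Cb + 4 * C1 * C0 + 4 * C2 * C0, by positivity, ?_⟩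
  intro γ η δ B hγ hγ' hη hη' hδ hδ' hB ε hε
  have hB0 : 0 < B := by linarith
  have hv : Cl 0 0 (vf 4 δ ε) := Cl_vf (by norm_num) hδ hδ' (by norm_num) (by norm_num) hε
  set v := vf 4 δ ε with hvd
  set n : ℝ := √(∫ y, se2 γ y * (rh B y * v y) ^ 2) with hn
  have hn0 : 0 ≤ n := Real.sqrt_nonneg _
  obtain ⟨a1, a2, -⟩ := ha γ hγ hγ' B hB v hv
  obtain ⟨b1, b2, -⟩ := hb γ hγ hγ' B hB v hv
  have hF : Cl (1 / B) (1 / B) (fun y => rh B y * v y) := Nla_mulr (Vcv_Cl_rh hB0) hv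
  -- pairing with the first derivative
  have hL : ip v (deriv (Qf 4)) = δ * ip v (deriv (deriv (deriv (Qf 4)))) := by
    have e1 := Vkg_L hδ hδ' hε hQ1
    have e2 : ip (Lop 4 ε) (deriv (Qf 4)) = 0 := by
      rw [Lop_symm (by norm_num) hε hQ1 (by norm_num) (by norm_num)]
      have e3 : Lop 4 (deriv (Qf 4)) = fun _ => 0 := funext (fun z => L_Qd (by norm_num) z)
      rw [e3]
      unfold ip
      simp
    rw [e2] at e1
    linarith
  have hvQ3 : |ip v (deriv (deriv (deriv (Qf 4))))| ≤ 2 * Cb * n := Vkg_ipv hB hn0 hCb b1 b2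
  have hFQ : |ip (fun y => rh B y * v y) (deriv (Qf 4))| ≤ Ca / B * n + δ * (2 * Cb * n) := by
    have e1 : ip (fun y => rh B y * v y) (deriv (Qf 4)) =
        (ip (fun y => rh B y * v y) (deriv (Qf 4)) - ip v (deriv (Qf 4)))
          + δ * ip v (deriv (deriv (deriv (Qf 4)))) := by
      rw [← hL]
      ring
    rw [e1]
    refine (abs_add_le _ _).trans (add_le_add a1 ?_)
    rw [abs_mul, abs_of_pos hδ]
    exact mul_le_mul_of_nonneg_left hvQ3 hδ.le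
  -- remainder
  set g : ℝ → ℝ := fun y => (1 - rh B y) * deriv (Qf 4) y
    + η * (Real.tanh (γ * y) * (rh B y * Qf 4 y)) with hg
  have hrQ : Cl (1 / B) (1 / B) (rh B) := Vcv_Cl_rh hB0
  have hr0 : Cl 0 0 (rh B) := Cl_mono hrQ (by positivity) (by positivity)
  have hgc : Cl 1 1 g :=
    Cl_add (Cl_mul0 (Cl_sub (Cl_const 1) hr0) hQ1)
      (Cl_smul η (Cl_mul0 (Cl_tanh γ) (Cl_mul0 hr0 Vkg_Q)))
  have hgb : ∀ y, |g y| ≤ (4 * C1 / B + 4 * C2 * (η * γ)) * Real.exp (-(3 / 4 * |y|)) := by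
    intro y
    have hr1 := Vcv_rh_pos B y
    have hr2 := Vcv_rh_le B y
    have hr3 : |1 - rh B y| ≤ 4 / B * Real.exp (|y| / 4) := by
      refine le_trans ?_ (Vcv_one hB y)
      have hc := Real.one_le_cosh (y / B)
      have hc0 := Real.cosh_pos (y / B)
      rw [abs_of_nonneg (by linarith), abs_of_nonpos (by linarith)]
      have e1 : 1 - rh B y = rh B y * (Real.cosh (y / B) - 1) := by
        unfold rh
        field_simp
      rw [e1]
      (first | linarith only [e1, hr1, hr2] | nlinarith only [e1, hr1, hr2])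
    have t1 : |(1 - rh B y) * deriv (Qf 4) y| ≤ 4 * C1 / B * Real.exp (-(3 / 4 * |y|)) := by
      rw [abs_mul]
      have h3 := h1 y
      rw [bd_abs] at h3
      calc |1 - rh B y| * |deriv (Qf 4) y| ≤ (4 / B * Real.exp (|y| / 4)) * (C1 * Real.exp (-(1 * |y|))) :=
            mul_le_mul hr3 h3 (abs_nonneg _) (by positivity)
        _ = 4 * C1 / B * (Real.exp (|y| / 4) * Real.exp (-(1 * |y|))) := by ring
        _ = _ := by
            rw [← Real.exp_add]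
            congr 2
            ring
    have t2 : |η * (Real.tanh (γ * y) * (rh B y * Qf 4 y))| ≤
        4 * C2 * (η * γ) * Real.exp (-(3 / 4 * |y|)) := by
      have h3 := h2 y
      rw [bd_abs] at h3
      have h4 : |Real.tanh (γ * y)| ≤ γ * |y| := by
        have h5 := Vkg_tanh (γ * y)
        rwa [abs_mul, abs_of_pos hγ] at h5
      have h5 : |y| * Real.exp (-(|y| / 4)) ≤ 4 := by
        have h6 := Real.add_one_le_exp (|y| / 4)
        have h7 : Real.exp (-(|y| / 4)) * Real.exp (|y| / 4) = 1 := by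
          rw [← Real.exp_add]
          simp
        have h8 := Real.exp_pos (-(|y| / 4))
        (first | linarith only [h6, h7, h8, hδ, hδ'] | nlinarith only [h6, h7, h8, hδ, hδ'])
      rw [abs_mul, abs_of_pos hη, abs_mul, abs_mul, abs_of_pos hr1]
      have h6 : rh B y * |Qf 4 y| ≤ C2 * Real.exp (-(1 * |y|)) := by
        have := abs_nonneg (Qf 4 y)
        (first | linarith only [h3, hr2, hδ, hδ', this] | nlinarith only [h3, hr2, hδ, hδ', this])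
      calc η * (|Real.tanh (γ * y)| * (rh B y * |Qf 4 y|)) ≤
            η * ((γ * |y|) * (C2 * Real.exp (-(1 * |y|)))) := by
            refine mul_le_mul_of_nonneg_left ?_ hη.le
            exact mul_le_mul h4 h6 (by positivity) (by positivity)
        _ = C2 * (η * γ) * ((|y| * Real.exp (-(|y| / 4))) * Real.exp (-(3 / 4 * |y|))) := by
            have e1 : Real.exp (-(1 * |y|)) = Real.exp (-(|y| / 4)) * Real.exp (-(3 / 4 * |y|)) := by
              rw [← Real.exp_add]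
              congr 1
              ring
            rw [e1]
            ring
        _ ≤ C2 * (η * γ) * (4 * Real.exp (-(3 / 4 * |y|))) := by
            refine mul_le_mul_of_nonneg_left ?_ (by positivity)
            exact mul_le_mul_of_nonneg_right h5 (Real.exp_pos _).le
        _ = _ := by ring
    refine (abs_add_le _ _).trans ((add_le_add t1 t2).trans (le_of_eq ?_))
    ring
  have hgF := h0 γ hγ hγ' B hB v hv _ g (by positivity) hgb
  have hsplit : (∫ y, Psi 4 η γ B y * (v y * Qf 4 y)) =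
      -ip (fun y => rh B y * v y) (deriv (Qf 4)) + ∫ y, g y * (rh B y * v y) := by
    unfold ip
    rw [← integral_neg, ← integral_add]
    · refine integral_congr_ae (Eventually.of_forall fun y => ?_)
      show Psi 4 η γ B y * (v y * Qf 4 y) =
        -(rh B y * v y * deriv (Qf 4) y) + g y * (rh B y * v y)
      have e1 : deriv (Qf 4) y = -(th 4 y) * Qf 4 y := by
        rw [Qf_deriv (by norm_num)]
      simp only [hg, e1]
      unfold Psi psi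
      rw [Vcu_rh_sq]
      ring
    · exact (Cl_int (Cl_mul hF hQ1) (by positivity) (by positivity)).neg
    · exact Cl_int (Cl_mul hgc hF) (by positivity) (by positivity)
  rw [hsplit]
  refine (abs_add_le _ _).trans ?_
  rw [abs_neg]
  have hx : 0 ≤ η * γ := by positivity
  have hy : 0 ≤ 1 / B := by positivity
  have hz : Ca / B * n = Ca * (1 / B) * n := by ring
  have hw : (4 * C1 / B + 4 * C2 * (η * γ)) * (C0 * n) =
      4 * C1 * C0 * (1 / B) * n + 4 * C2 * C0 * (η * γ) * n := by ring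
  rw [hz] at hFQ
  rw [hw] at hgF
  have k1 : 0 ≤ C1 * C0 := by positivity
  have k2 : 0 ≤ C2 * C0 := by positivity
  have p1 : 0 ≤ Ca * (η * γ) * n := by positivity
  have p2 : 0 ≤ Ca * δ * n := by positivity
  have p3 : 0 ≤ Cb * (η * γ) * n := by positivity
  have p4 : 0 ≤ Cb * (1 / B) * n := by positivity
  have p5 : 0 ≤ C1 * C0 * (η * γ) * n := by positivity
  have p6 : 0 ≤ C1 * C0 * δ * n := by positivity
  have p7 : 0 ≤ C2 * C0 * δ * n := by positivity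
  have p8 : 0 ≤ C2 * C0 * (1 / B) * n := by positivity
  have e9 : (Ca + 2 * Cb + 4 * C1 * C0 + 4 * C2 * C0) * (η * γ + δ + 1 / B) * n =
      Ca * (η * γ) * n + Ca * δ * n + Ca * (1 / B) * n
      + 2 * (Cb * (η * γ) * n) + δ * (2 * Cb * n) + 2 * (Cb * (1 / B) * n)
      + 4 * (C1 * C0 * (η * γ) * n) + 4 * (C1 * C0 * δ * n) + 4 * C1 * C0 * (1 / B) * n
      + 4 * C2 * C0 * (η * γ) * n + 4 * (C2 * C0 * δ * n) + 4 * (C2 * C0 * (1 / B) * n) := by ring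
  rw [e9]
  linarith

theorem vir_ext : ∃ C : ℝ, 0 < C ∧ ∀ γ η δ B : ℝ, 0 < γ → γ ≤ 1 / 8 → 0 < η → η ≤ 1 → 0 < δ →
    δ ≤ 1 / 16 → 16 ≤ B → ∀ ε : ℝ → ℝ, Cl 0 0 ε →
    |∫ y, Psi 4 η γ B y * (vf 4 δ ε y * vf 4 δ (Lam 4 (Qf 4)) y)| ≤
      C * (η * γ + δ + 1 / B) * √(∫ y, se2 γ y * (rh B y * vf 4 δ ε y) ^ 2) ∧
    |ip (Lop 4 ε) (deriv rho)| ≤ C * (√(Jn (fun y => rh B y * vf 4 δ ε y))
      + (δ + 1 / B) * √(∫ y, se2 γ y * (rh B y * vf 4 δ ε y) ^ 2)) := by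
  obtain ⟨K1, hK1, k1⟩ := Vkg_sm
  obtain ⟨K2, hK2, k2⟩ := Vkg_main
  have hr1 : Cl 1 1 (deriv rho) := Cl_der Vkg_rho
  have hr3 : Cl 1 1 (deriv (deriv (deriv rho))) := Cl_der (Cl_der hr1)
  obtain ⟨Cc, hCc, hc⟩ := cut_ip0 (Cl_mono hr1 (by norm_num) (by norm_num) : Cl (3 / 4) (3 / 4) (deriv rho))
  obtain ⟨Cd, hCd, hd⟩ := cut_ip0
    (Cl_mono hr3 (by norm_num) (by norm_num) : Cl (3 / 4) (3 / 4) (deriv (deriv (deriv rho))))
  obtain ⟨CJ, hCJ, hJ⟩ := pairJ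
  refine ⟨2 * K1 + 2 * K2 + CJ + Cc + 2 * Cd, by positivity, ?_⟩
  intro γ η δ B hγ hγ' hη hη' hδ hδ' hB ε hε
  have hB0 : 0 < B := by linarith
  have hv : Cl 0 0 (vf 4 δ ε) := Cl_vf (by norm_num) hδ hδ' (by norm_num) (by norm_num) hε
  have h1 := k1 γ η δ B hγ hγ' hη hη' hδ hδ' hB (vf 4 δ ε) hv
  have h2 := k2 γ η δ B hγ hγ' hη hη' hδ hδ' hB ε hε
  set v := vf 4 δ ε with hvd
  set n : ℝ := √(∫ y, se2 γ y * (rh B y * v y) ^ 2) with hn
  have hn0 : 0 ≤ n := Real.sqrt_nonneg _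
  have hF : Cl (1 / B) (1 / B) (fun y => rh B y * v y) := Nla_mulr (Vcv_Cl_rh hB0) hv
  have hx : 0 ≤ η * γ := by positivity
  have hy : 0 ≤ 1 / B := by positivity
  constructor
  · have hS : Cl 1 1 (Sm δ (deriv (deriv (Qf 4)))) :=
      Cl_Sm hδ hδ' (by norm_num) (by norm_num) (Cl_der (Cl_der Vkg_Q))
    have hP : Cl (2 / B) (2 / B) (Psi 4 η γ B) := Cl_Psi 4 η γ hB0
    have e1 : ∀ y, vf 4 δ (Lam 4 (Qf 4)) y = -2 * Qf 4 y + -2 * (δ * Sm δ (deriv (deriv (Qf 4))) y) := by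
      intro y
      rw [vf_LamQ (by norm_num)]
      have e2 := Sm_eq hδ hδ' (p := 1) (q := 1) (by norm_num) (by norm_num) Vkg_Q y
      rw [Sm_deriv hδ hδ' (p := 1) (q := 1) (by norm_num) (by norm_num) Vkg_Q,
        Sm_deriv hδ hδ' (p := 1) (q := 1) (by norm_num) (by norm_num) (Cl_der Vkg_Q)] at e2
      linarith
    have i1 : Integrable (fun y => Psi 4 η γ B y * (v y * Qf 4 y)) :=
      Cl_int (Cl_mul hP (Cl_mul0 hv Vkg_Q)) (by positivity) (by positivity)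
    have i2 : Integrable (fun y => Psi 4 η γ B y * (v y * Sm δ (deriv (deriv (Qf 4))) y)) :=
      Cl_int (Cl_mul hP (Cl_mul0 hv hS)) (by positivity) (by positivity)
    have e3 : (∫ y, Psi 4 η γ B y * (v y * vf 4 δ (Lam 4 (Qf 4)) y)) =
        -2 * (∫ y, Psi 4 η γ B y * (v y * Qf 4 y))
          + -2 * δ * ∫ y, Psi 4 η γ B y * (v y * Sm δ (deriv (deriv (Qf 4))) y) := by
      rw [← integral_const_mul, ← integral_const_mul, ← integral_add (i1.const_mul _) (i2.const_mul _)]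
      refine integral_congr_ae (Eventually.of_forall fun y => ?_)
      show Psi 4 η γ B y * (v y * vf 4 δ (Lam 4 (Qf 4)) y) =
        -2 * (Psi 4 η γ B y * (v y * Qf 4 y))
          + -2 * δ * (Psi 4 η γ B y * (v y * Sm δ (deriv (deriv (Qf 4))) y))
      rw [e1]
      ring
    rw [e3]
    refine (abs_add_le _ _).trans ?_
    rw [abs_mul, abs_mul (-2 * δ), abs_mul (-2) δ, abs_of_pos hδ]
    have e4 : |(-2 : ℝ)| = 2 := by norm_num
    rw [e4]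
    have h3 : 2 * |∫ y, Psi 4 η γ B y * (v y * Qf 4 y)| ≤ 2 * (K2 * (η * γ + δ + 1 / B) * n) :=
      mul_le_mul_of_nonneg_left h2 (by norm_num)
    have h4 : 2 * δ * |∫ y, Psi 4 η γ B y * (v y * Sm δ (deriv (deriv (Qf 4))) y)| ≤
        2 * δ * (K1 * n) := mul_le_mul_of_nonneg_left h1 (by positivity)
    have q1 : 0 ≤ (2 * K1) * (η * γ + 1 / B) * n := by positivity
    have q2 : 0 ≤ (CJ + Cc + 2 * Cd) * (η * γ + δ + 1 / B) * n := by positivity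
    have e5 : (2 * K1 + 2 * K2 + CJ + Cc + 2 * Cd) * (η * γ + δ + 1 / B) * n =
        2 * (K2 * (η * γ + δ + 1 / B) * n) + 2 * δ * (K1 * n) + (2 * K1) * (η * γ + 1 / B) * n
          + (CJ + Cc + 2 * Cd) * (η * γ + δ + 1 / B) * n := by ring
    rw [e5]
    linarith
  · obtain ⟨c1, -, -⟩ := hc γ hγ hγ' B hB v hv
    obtain ⟨d1, d2, -⟩ := hd γ hγ hγ' B hB v hv
    have hj := hJ (1 / B) (1 / B) _ (by positivity) (by positivity) hF
    have hvr3 : |ip v (deriv (deriv (deriv rho)))| ≤ 2 * Cd * n := Vkg_ipv hB hn0 hCd d1 d2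
    rw [Vkg_L hδ hδ' hε hr1]
    have h3 : |ip v (deriv rho)| ≤ CJ * √(Jn (fun y => rh B y * v y)) + Cc / B * n := by
      have h4 : |ip v (deriv rho)| ≤ |ip (fun y => rh B y * v y) (deriv rho)|
          + |ip (fun y => rh B y * v y) (deriv rho) - ip v (deriv rho)| := by
        have := abs_sub_abs_le_abs_sub (ip v (deriv rho)) (ip (fun y => rh B y * v y) (deriv rho))
        rw [abs_sub_comm] at this
        linarith
      linarith
    have h5 : |ip v (deriv rho) - δ * ip v (deriv (deriv (deriv rho)))| ≤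
        |ip v (deriv rho)| + δ * |ip v (deriv (deriv (deriv rho)))| := by
      refine (abs_sub _ _).trans ?_
      rw [abs_mul, abs_of_pos hδ]
    have h6 : δ * |ip v (deriv (deriv (deriv rho)))| ≤ δ * (2 * Cd * n) :=
      mul_le_mul_of_nonneg_left hvr3 hδ.le
    refine h5.trans ?_
    have hsJ := Real.sqrt_nonneg (Jn (fun y => rh B y * v y))
    set sJ := √(Jn (fun y => rh B y * v y)) with hsJd
    have q1 : 0 ≤ (2 * K1 + 2 * K2 + Cc + 2 * Cd) * sJ := by positivity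
    have q2 : 0 ≤ (2 * K1 + 2 * K2 + CJ) * ((δ + 1 / B) * n) := by positivity
    have q3 : 0 ≤ Cc * δ * n := by positivity
    have q4 : 0 ≤ 2 * Cd * (1 / B) * n := by positivity
    have e5 : (2 * K1 + 2 * K2 + CJ + Cc + 2 * Cd) * (sJ + (δ + 1 / B) * n) =
        CJ * sJ + Cc / B * n + δ * (2 * Cd * n) + (2 * K1 + 2 * K2 + Cc + 2 * Cd) * sJ
          + (2 * K1 + 2 * K2 + CJ) * ((δ + 1 / B) * n) + Cc * δ * n + 2 * Cd * (1 / B) * n := by ring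
    rw [e5]
    linarith

end H98KC

end

end S_H98_KC_Vkg
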