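import Mathlib
import Pool.Agent.H98.BU.G04
import Pool.Agent.H98.BU.G05
import Pool.Agent.H98.BU.G06

/-! Blow-up for `u_t + u^k u_x + u_xxx - u_xx = 0`, part G14: this file joins several modules
to save build time (`Pool/Agent/H98/{KB,KC}`, `H72/{KB,KC}`, `H68/KC`, `H37/{KB,KC}`). -/

section S_H98_KC_Dca

/-!
# Dca (MP_95be7d_S4): decomposition of the velocity of `ε` (uses the statements of `H68/KC/PRe, PRg, MOa`)

`h = hf P E b α`, `b = bq s W`, `α = alf s W`, `ε = ep P E s W`, `e = W - Q = h + ε` (`ep_split`), `Z = ze w m l W et = zeta 4 w m l e et = (gf 4 e)' + Nf - et'`.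
* `gf 4 (h+ε) = gf 4 ε + Lop 4 h - Kf h ε` pointwise (`Df 4 (h+ε) - Df 4 ε = fl(Q+h+ε)-fl(Q+ε) = Kf h ε + Q⁴h`; `(h+ε)'' = h''+ε''`).
* `Lop 4 h = -b Jf + α` (`Prof.LP`, `Prof.LE`, linearity), so `(Lop 4 h)' = b ΛQ` (`Jf_hd`).  Hence `(gf 4 e)' = (gf 4 ε)' + bΛQ - (Kf h ε)'`.
* `Nf 4 w m l e = -wΛQ+mQ'+lQ'' - wΛh - wΛε + mh'+mε' + lh''+lε''`, `Λh = (1/2)h+yh'` (`2/(4:ℝ) = 1/2`), and
  `-w(1/2)h + (1/2)wαE = -(1/2)wbP`.
* `epD = Z - bqD·P - alD·E`, `alm = alD + (1/2)wα` (definition), so `-alD·E = -alm·E + (1/2)wαE`.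
Sum: `epD = (gf 4 ε)' + (b-w)ΛQ + mQ' - wΛε + mε' - et' + Sf`.
`Kf_cl`: `Cl 0 0` (polynomial in functions of class `Cl 0 0`).  `Sf_cl`: all terms are of class `Cl 0 0`; `y h'`: `h' ∈ Cl (3/4) (3/4)` (`Prof.dP`, `Prof.E1`), `Cl_id`.
-/

open MeasureTheory Filter Topology Set
open scoped ContDiff

noncomputable section

namespace H98KC

open H98KB H68KC

variable {P E : ℝ → ℝ}

theorem Dca_dE (hp : Prof P E) : Cl (3 / 4) (3 / 4) (deriv E) := by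
  have h1 := Cl_der hp.E1
  have h2 : deriv (fun y => E y - 1) = deriv E := by
    funext y
    rw [deriv_sub_const]
  rwa [h2] at h1

theorem Dca_hd (hp : Prof P E) (b α y : ℝ) :
    HasDerivAt (hf P E b α) (b * deriv P y + α * deriv E y) y :=
  ((Cl_hd hp.cP y).const_mul b).add ((Cl_hd (E_cl hp) y).const_mul α)

theorem hf_der (hp : Prof P E) (b α : ℝ) : Cl (3 / 4) (3 / 4) (deriv (hf P E b α)) ∧
    ∀ y, deriv (hf P E b α) y = b * deriv P y + α * deriv E y := by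
  have h1 : ∀ y, deriv (hf P E b α) y = b * deriv P y + α * deriv E y := fun y =>
    (Dca_hd hp b α y).deriv
  refine ⟨?_, h1⟩
  have h2 : deriv (hf P E b α) = fun y => b * deriv P y + α * deriv E y := funext h1
  rw [h2]
  exact Cl_add (Cl_smul b hp.dP) (Cl_smul α (Dca_dE hp))

theorem Dca_Q : Cl 0 0 (Qf 4) := Cl_mono (Cl_Qf (k := 4) (by norm_num)) (by norm_num) (by norm_num)

theorem Dca_fl {f : ℝ → ℝ} (hf : Cl 0 0 f) : Cl 0 0 (fun y => fl 4 (f y)) := by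
  have h1 := Cl_smul (1 / 5) (Cl_pow0 hf 5)
  have h2 : (fun y => fl 4 (f y)) = fun y => 1 / 5 * f y ^ 5 := by
    funext y
    unfold fl
    norm_num
    ring
  rwa [h2]

theorem Kf_cl {h ε : ℝ → ℝ} (hh : Cl 0 0 h) (hε : Cl 0 0 ε) : Cl 0 0 (Kf h ε) := by
  have h1 := Dca_fl (Cl_add (Cl_add Dca_Q hh) hε)
  have h2 := Dca_fl (Cl_add Dca_Q hε)
  have h3 := Cl_mul0 (Cl_pow0 Dca_Q 4) hh
  exact Cl_sub (Cl_sub h1 h2) h3

theorem Sf_cl (hp : Prof P E) {p q s w m l : ℝ} {W et : ℝ → ℝ} (hp0 : 0 < p) (hq0 : 0 < q)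
    (hW : Cl p q (fun y => W y - Qf 4 y)) : Cl 0 0 (Sf P E s w m l W et) := by
  have hh : Cl 0 0 (hf P E (bq s W) (alf s W)) := hf_cl hp _ _
  have hε : Cl 0 0 (ep P E s W) := ep_cl hp hp0.le hq0.le hW
  have hQ2 := Cl_der (Cl_der Dca_Q)
  have hε2 := Cl_der (Cl_der hε)
  have hK := Cl_der (Kf_cl hh hε)
  have hd := (hf_der hp (bq s W) (alf s W)).1
  have hd0 : Cl 0 0 (deriv (hf P E (bq s W) (alf s W))) := Cl_mono hd (by norm_num) (by norm_num)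
  have hdd := Cl_der hd0
  have hy : Cl 0 0 (fun y => y * deriv (hf P E (bq s W) (alf s W)) y) :=
    Cl_mono (Cl_mul (Cl_id (c := 3 / 4) (by norm_num)) hd) (by norm_num) (by norm_num)
  have hE := E_cl hp
  exact Cl_sub (Cl_sub (Cl_add (Cl_add (Cl_sub (Cl_sub (Cl_sub (Cl_add (Cl_smul l hQ2)
    (Cl_smul l hε2)) hK) (Cl_smul (1 / 2 * w * bq s W) hp.cP)) (Cl_smul w hy)) (Cl_smul m hd0))
    (Cl_smul l hdd)) (Cl_smul (bqD s w W (ze w m l W et)) hp.cP))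
    (Cl_smul (alm s w W (ze w m l W et)) hE)

theorem Dca_add1 {f g : ℝ → ℝ} (hf : Cl 0 0 f) (hg : Cl 0 0 g) :
    deriv (fun y => f y + g y) = fun y => deriv f y + deriv g y := by
  funext y
  exact ((Cl_hd hf y).add (Cl_hd hg y)).deriv

theorem Dca_Lop (hp : Prof P E) (b α y : ℝ) : Lop 4 (hf P E b α) y = -b * Jf y + α := by
  have h1 : deriv (hf P E b α) = fun y => b * deriv P y + α * deriv E y :=
    funext (hf_der hp b α).2
  have h2 : deriv (deriv (hf P E b α)) y = b * deriv (deriv P) y + α * deriv (deriv E) y := by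
    rw [h1]
    exact (((Cl_hd hp.dP y).const_mul b).add ((Cl_hd (Dca_dE hp) y).const_mul α)).deriv
  have h3 := hp.LP y
  have h4 := hp.LE y
  unfold Lop at h3 h4 ⊢
  rw [h2]
  unfold hf
  linear_combination b * h3 + α * h4

theorem Dca_gf {h ε : ℝ → ℝ} (hh : Cl 0 0 h) (hε : Cl 0 0 ε) (y : ℝ) :
    gf 4 (fun z => h z + ε z) y = gf 4 ε y + Lop 4 h y - Kf h ε y := by
  have h1 := Dca_add1 hh hε
  have h2 : deriv (deriv (fun z => h z + ε z)) y = deriv (deriv h) y + deriv (deriv ε) y := by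
    rw [h1]
    exact ((Cl_hd (Cl_der hh) y).add (Cl_hd (Cl_der hε) y)).deriv
  have h3 : Qf 4 y + (h y + ε y) = Qf 4 y + h y + ε y := by ring
  unfold gf Lop Kf Df
  rw [h2, h3]
  ring

theorem Dca_gfd (hp : Prof P E) (b α : ℝ) {ε : ℝ → ℝ} (hε : Cl 0 0 ε) (y : ℝ) :
    deriv (gf 4 (fun z => hf P E b α z + ε z)) y =
      deriv (gf 4 ε) y + b * Lam 4 (Qf 4) y - deriv (Kf (hf P E b α) ε) y := by
  have hh : Cl 0 0 (hf P E b α) := hf_cl hp _ _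
  have e1 : gf 4 (fun z => hf P E b α z + ε z) =
      fun z => gf 4 ε z + (-b * Jf z + α) - Kf (hf P E b α) ε z := by
    funext z
    rw [Dca_gf hh hε, Dca_Lop hp]
  have hg : Cl 0 0 (gf 4 ε) := Cl_gf (by norm_num) le_rfl le_rfl hε
  have hK := Kf_cl hh hε
  have hd := ((Cl_hd hg y).add (((Jf_hd y).const_mul (-b)).add_const α)).sub (Cl_hd hK y)
  rw [e1]
  refine hd.deriv.trans ?_
  ring

theorem epD_eq (hp : Prof P E) {p q s w m l : ℝ} {W et : ℝ → ℝ} (hp0 : 0 < p) (hq0 : 0 < q)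
    (hW : Cl p q (fun y => W y - Qf 4 y)) (het : Cl p q et) :
    epD P E s w W (ze w m l W et) =
      Dz (bq s W - w) w m (ep P E s W) (Sf P E s w m l W et) et := by
  have hh : Cl 0 0 (hf P E (bq s W) (alf s W)) := hf_cl hp _ _
  have hε : Cl 0 0 (ep P E s W) := ep_cl hp hp0.le hq0.le hW
  have he : (fun y => W y - Qf 4 y) = fun y => hf P E (bq s W) (alf s W) y + ep P E s W y :=
    funext (ep_split P E s W)
  have hd1 := Dca_add1 hh hε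
  funext y
  have hd2 : deriv (deriv (fun z => hf P E (bq s W) (alf s W) z + ep P E s W z)) y =
      deriv (deriv (hf P E (bq s W) (alf s W))) y + deriv (deriv (ep P E s W)) y := by
    rw [hd1]
    exact ((Cl_hd (Cl_der hh) y).add (Cl_hd (Cl_der hε) y)).deriv
  have hg := Dca_gfd hp (bq s W) (alf s W) hε y
  have hz : ze w m l W et y = deriv (gf 4 (fun z => hf P E (bq s W) (alf s W) z + ep P E s W z)) y
      + Nf 4 w m l (fun z => hf P E (bq s W) (alf s W) z + ep P E s W z) y - deriv et y := by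
    unfold ze
    rw [he]
    rfl
  unfold epD Dz Sf alm
  rw [hz, hg]
  unfold Nf
  rw [hd2]
  have hL : Lam 4 (fun z => hf P E (bq s W) (alf s W) z + ep P E s W z) y =
      1 / 2 * (bq s W * P y + alf s W * E y + ep P E s W y)
      + y * (deriv (hf P E (bq s W) (alf s W)) y + deriv (ep P E s W) y) := by
    unfold Lam
    rw [hd1]
    unfold hf
    norm_num
  have hL2 : Lam 4 (ep P E s W) y = 1 / 2 * ep P E s W y + y * deriv (ep P E s W) y := by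
    unfold Lam
    norm_num
  rw [hL, hL2, hd1]
  ring

end H98KC

end

end S_H98_KC_Dca

section S_H98_KC_Dcb

/-!
# Dcb (MP_95be7d_S4): bounds for the forcing `Sf` (uses the statements of `Dca`)

`h = hf P E b α`, `|b|, |α| ≤ C r⁴`: `|h| ≤ Cr⁴`, `|h'|+|h''| ≤ C r⁴ e^{-3|y|/4}`, `|y h'| ≤ C r⁴ e^{-|y|/2}`; `Q`, `P`, `E`, `ε` bounded; `|Q'| ≤ Ce^{-|y|}`;
`|P y| ≤ C bd (1/2) 0 y` (`Prof.P0` for `y ≥ 0`, bounded for `y ≤ 0`); `e^{-|y|/2} ≤ bd (1/2) 0 y`.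
`(Kf h ε)' = [(Q+h+ε)⁴-(Q+ε)⁴]ε' + [(Q+h+ε)⁴-(Q+ε)⁴-4Q³h]Q' + [(Q+h+ε)⁴-Q⁴]h'` (`fl 4 u = u⁵/5`).
* first: `|(a+h)⁴-a⁴| ≤ C|h|` for bounded `a, h`: `≤ C r⁴|ε'|`.
* second: `|(Q+ε+h)⁴-(Q+ε)⁴-4Q³h| ≤ C(|ε||h|+h²)` (`= 4[(Q+ε)³-Q³]h + O(h²)`): `≤ C(r⁴|ε|+r⁸)e^{-|y|}`.
* third: `≤ C(|h|+|ε|)·Cr⁴e^{-3|y|/4}`.
So `|(Kf h ε)'| ≤ C r⁴(|ε|+|ε'|) + C r⁸ bd (1/2) 0 y`.
Other terms of `Sf` (`l = r⁸ ≤ r⁴`, `r ≤ 1`, `0 ≤ w ≤ Cr⁴`): `|lQ''| ≤ C r⁸ bd`, `|lε''| ≤ r⁴|ε''|`, `|(1/2)w b P| ≤ C r⁸ bd`, `|w y h'| ≤ C r⁸ bd`, `|m h'| ≤ C|m|r⁴ bd`,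
`|l h''| ≤ C r⁸ bd`, `|bqD·P| ≤ C|bqD| bd`, `|alm·E| ≤ C|alm|`.
(`c0`, `f0` are fixed numbers; the constant may depend on `P`, `E`.)
-/

open MeasureTheory Filter Topology Set
open scoped ContDiff

noncomputable section

namespace H98KC

open H98KB H68KC

variable {P E : ℝ → ℝ}

theorem Dcb_Ed (hp : Prof P E) : Cl (3 / 4) (3 / 4) (deriv E) := by
  have h := Cl_der hp.E1
  have e : deriv (fun y => E y - 1) = deriv E := by
    funext y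
    have h1 : HasDerivAt E (deriv E y) y := Cl_hd (E_cl hp) y
    exact (h1.sub_const 1).deriv
  rwa [e] at h

theorem Dcb_B {f : ℝ → ℝ} {p q : ℝ} (h : Cl p q f) (hp : 1 / 2 ≤ p) (hq : 0 ≤ q) :
    ∃ C : ℝ, 0 ≤ C ∧ ∀ y, |f y| ≤ C * bd (1 / 2) 0 y :=
  Cl_bnd (Cl_mono h hp hq)

theorem Dcb_B0 {f : ℝ → ℝ} (h : Cl 0 0 f) : ∃ C : ℝ, 0 ≤ C ∧ ∀ y, |f y| ≤ C := by
  obtain ⟨C, hC, h1⟩ := Cl_bnd h
  refine ⟨C, hC, fun y => ?_⟩
  have := h1 y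
  rwa [bd_zero, mul_one] at this

theorem Dcb_bd1 (y : ℝ) : bd (1 / 2) 0 y ≤ 1 := by
  exact (bd_mono (by norm_num) le_rfl y).trans_eq (bd_zero y)

theorem Dcb_P (hp : Prof P E) : ∃ C : ℝ, 0 ≤ C ∧ ∀ y, |P y| ≤ C * bd (1 / 2) 0 y := by
  obtain ⟨C1, hC1, h1⟩ := Dcb_B0 hp.cP
  obtain ⟨C2, h2⟩ := hp.P0
  have hC2 : 0 ≤ C2 := by
    have := h2 0 le_rfl
    rw [mul_zero, Real.exp_zero, mul_one] at this
    exact (abs_nonneg _).trans this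
  refine ⟨C1 + C2, by linarith, fun y => ?_⟩
  rcases le_total 0 y with hy | hy
  · have h3 : Real.exp (-(3 / 4) * y) ≤ bd (1 / 2) 0 y := by
      rw [bd_of_nonneg hy]
      apply Real.exp_le_exp.2
      linarith
    have h4 := h2 y hy
    have h5 : C2 * Real.exp (-(3 / 4) * y) ≤ C2 * bd (1 / 2) 0 y := mul_le_mul_of_nonneg_left h3 hC2
    have h6 : 0 ≤ C1 * bd (1 / 2) 0 y := mul_nonneg hC1 (bd_pos _ _ _).le
    linarith
  · have h3 : bd (1 / 2) 0 y = 1 := by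
      rw [bd_of_nonpos hy, zero_mul, Real.exp_zero]
    rw [h3, mul_one]
    linarith [h1 y]

theorem Dcb_all (hp : Prof P E) : ∃ K : ℝ, 1 ≤ K ∧ ∀ y,
    |P y| ≤ K ∧ |E y| ≤ K ∧ |Qf 4 y| ≤ K ∧ |P y| ≤ K * bd (1 / 2) 0 y ∧
    |deriv P y| ≤ K * bd (1 / 2) 0 y ∧ |deriv E y| ≤ K * bd (1 / 2) 0 y ∧
    |deriv (deriv P) y| ≤ K * bd (1 / 2) 0 y ∧ |deriv (deriv E) y| ≤ K * bd (1 / 2) 0 y ∧
    |y * deriv P y| ≤ K * bd (1 / 2) 0 y ∧ |y * deriv E y| ≤ K * bd (1 / 2) 0 y ∧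
    |deriv (Qf 4) y| ≤ K * bd (1 / 2) 0 y ∧ |deriv (deriv (Qf 4)) y| ≤ K * bd (1 / 2) 0 y := by
  have hid := Cl_id (c := 1 / 4) (by norm_num)
  obtain ⟨k1, p1, h1⟩ := Dcb_B0 hp.cP
  obtain ⟨k2, p2, h2⟩ := Dcb_B0 (E_cl hp)
  obtain ⟨k3, p3, h3⟩ := Dcb_B0 (Nla_Q (k := 4) (by norm_num))
  obtain ⟨k4, p4, h4⟩ := Dcb_P hp
  obtain ⟨k5, p5, h5⟩ := Dcb_B hp.dP (by norm_num) (by norm_num)
  obtain ⟨k6, p6, h6⟩ := Dcb_B (Dcb_Ed hp) (by norm_num) (by norm_num)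
  obtain ⟨k7, p7, h7⟩ := Dcb_B (Cl_der hp.dP) (by norm_num) (by norm_num)
  obtain ⟨k8, p8, h8⟩ := Dcb_B (Cl_der (Dcb_Ed hp)) (by norm_num) (by norm_num)
  obtain ⟨k9, p9, h9⟩ := Dcb_B (Cl_mul hid hp.dP) (by norm_num) (by norm_num)
  obtain ⟨k10, p10, h10⟩ := Dcb_B (Cl_mul hid (Dcb_Ed hp)) (by norm_num) (by norm_num)
  obtain ⟨k11, p11, h11⟩ := Dcb_B (Sol2_Cd (k := 4) (by norm_num)) (by norm_num) (by norm_num)
  obtain ⟨k12, p12, h12⟩ := Dcb_B PRg_Qdd (by norm_num) (by norm_num)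
  refine ⟨1 + k1 + k2 + k3 + k4 + k5 + k6 + k7 + k8 + k9 + k10 + k11 + k12, by linarith,
    fun y => ?_⟩
  have hb := (bd_pos (1 / 2) 0 y).le
  have key : ∀ {k x : ℝ}, x ≤ k * bd (1 / 2) 0 y →
      k ≤ 1 + k1 + k2 + k3 + k4 + k5 + k6 + k7 + k8 + k9 + k10 + k11 + k12 →
      x ≤ (1 + k1 + k2 + k3 + k4 + k5 + k6 + k7 + k8 + k9 + k10 + k11 + k12) * bd (1 / 2) 0 y :=
    fun hx hk => hx.trans (mul_le_mul_of_nonneg_right hk hb)
  exact ⟨(h1 y).trans (by linarith), (h2 y).trans (by linarith), (h3 y).trans (by linarith),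
    key (h4 y) (by linarith), key (h5 y) (by linarith), key (h6 y) (by linarith),
    key (h7 y) (by linarith), key (h8 y) (by linarith), key (h9 y) (by linarith),
    key (h10 y) (by linarith), key (h11 y) (by linarith), key (h12 y) (by linarith)⟩

theorem Dcb_comb {b α x y A K r4 B : ℝ} (hb : |b| ≤ A * r4) (hα : |α| ≤ A * r4)
    (hx : |x| ≤ K * B) (hy : |y| ≤ K * B) (hK : 0 ≤ K * B) (hA : 0 ≤ A * r4) :
    |b * x + α * y| ≤ 2 * A * K * r4 * B := by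
  have h1 : |b * x| ≤ A * r4 * (K * B) := by
    rw [abs_mul]; exact mul_le_mul hb hx (abs_nonneg _) hA
  have h2 : |α * y| ≤ A * r4 * (K * B) := by
    rw [abs_mul]; exact mul_le_mul hα hy (abs_nonneg _) hA
  have h3 := abs_add_le (b * x) (α * y)
  nlinarith

theorem Dcb_Kf {h ε : ℝ → ℝ} (hh : Cl 0 0 h) (hε : Cl 0 0 ε) (y : ℝ) :
    deriv (Kf h ε) y =
      ((Qf 4 y + ε y + h y) ^ 4 - (Qf 4 y + ε y) ^ 4) * deriv ε y
      + ((Qf 4 y + ε y + h y) ^ 4 - (Qf 4 y + ε y) ^ 4 - 4 * (Qf 4 y) ^ 3 * h y) * deriv (Qf 4) y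
      + ((Qf 4 y + (h y + ε y)) ^ 4 - (Qf 4 y) ^ 4) * deriv h y := by
  have hQ : HasDerivAt (Qf 4) (deriv (Qf 4) y) y := Nlb_Qhd (by norm_num) y
  have h1 : HasDerivAt h (deriv h y) y := Cl_hd hh y
  have h2 : HasDerivAt ε (deriv ε y) y := Cl_hd hε y
  have h3 := Nlb_fl_hd 4 ((hQ.add h1).add h2)
  have h4 := Nlb_fl_hd 4 (hQ.add h2)
  have h5 := (hQ.pow 4).mul h1
  have h6 := ((h3.sub h4).sub h5).deriv
  have e : Kf h ε = ((fun z => fl 4 (Qf 4 z + h z + ε z)) - fun z => fl 4 (Qf 4 z + ε z))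
      - ((Qf 4) ^ 4 * h) := by
    funext z; rfl
  rw [e]
  refine h6.trans ?_
  simp only [Pi.add_apply, Pi.pow_apply]
  push_cast
  ring

theorem Dcb_alg {a x h a' x' h' K K2 r4 r8 B M : ℝ} (hK : 1 ≤ K) (hK2 : 0 ≤ K2) (hr4 : 0 ≤ r4)
    (hr41 : r4 ≤ 1) (hr8 : r8 = r4 * r4) (hB : 0 ≤ B) (hB1 : B ≤ 1) (hM : M = K + K2 + 1)
    (ha : |a| ≤ K) (hx : |x| ≤ 1) (hh : |h| ≤ K2 * r4) (ha' : |a'| ≤ K * B)
    (hh' : |h'| ≤ K2 * r4 * B) :
    |((a + x + h) ^ 4 - (a + x) ^ 4) * x'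
      + ((a + x + h) ^ 4 - (a + x) ^ 4 - 4 * a ^ 3 * h) * a'
      + ((a + (h + x)) ^ 4 - a ^ 4) * h'| ≤
    r4 * (4 * M ^ 3 * K2) * |x'| + r4 * (12 * M ^ 2 * K2 * K + 4 * M ^ 3 * K2) * |x|
      + r8 * (16 * M ^ 2 * K2 ^ 2 * K + 4 * M ^ 3 * K2 ^ 2) * B := by
  have hh1 : |h| ≤ K2 := hh.trans (by nlinarith)
  have hM0 : 0 ≤ M := by linarith
  have hMa : |a| ≤ M := by linarith
  have hMax : |a + x| ≤ M := (abs_add_le a x).trans (by linarith)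
  have hMaxh : |a + x + h| ≤ M := (abs_add_le (a + x) h).trans (by
    have := abs_add_le a x
    linarith)
  have hMahx : |a + (h + x)| ≤ M := by
    have : a + (h + x) = a + x + h := by ring
    rw [this]; exact hMaxh
  have t1 : |(a + x + h) ^ 4 - (a + x) ^ 4| ≤ 4 * M ^ 3 * |h| := by
    have := Nlb_T1 hMax hMaxh 3
    norm_num at this
    exact this
  have t2 : |(a + x + h) ^ 4 - (a + x) ^ 4 - 4 * (a + x) ^ 3 * h| ≤ 16 * M ^ 2 * h ^ 2 := by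
    have := Nlb_T2 hMax hMaxh 2
    norm_num at this
    exact this
  have t3 : |(a + x) ^ 3 - a ^ 3| ≤ 3 * M ^ 2 * |x| := by
    have := Nlb_T1 hMa hMax 2
    norm_num at this
    exact this
  have t4 : |(a + (h + x)) ^ 4 - a ^ 4| ≤ 4 * M ^ 3 * |h + x| := by
    have := Nlb_T1 hMa hMahx 3
    norm_num at this
    exact this
  have t5 : |(a + x + h) ^ 4 - (a + x) ^ 4 - 4 * a ^ 3 * h| ≤
      16 * M ^ 2 * h ^ 2 + 12 * M ^ 2 * |x| * |h| := by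
    have e : (a + x + h) ^ 4 - (a + x) ^ 4 - 4 * a ^ 3 * h =
        ((a + x + h) ^ 4 - (a + x) ^ 4 - 4 * (a + x) ^ 3 * h) + 4 * (((a + x) ^ 3 - a ^ 3) * h) := by
      ring
    rw [e]
    refine (abs_add_le _ _).trans ?_
    have h7 : |4 * (((a + x) ^ 3 - a ^ 3) * h)| ≤ 4 * (3 * M ^ 2 * |x| * |h|) := by
      rw [abs_mul, abs_mul, abs_of_pos (by norm_num : (0:ℝ) < 4)]
      exact mul_le_mul_of_nonneg_left (mul_le_mul_of_nonneg_right t3 (abs_nonneg _)) (by norm_num)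
    linarith
  have hh2 : h ^ 2 ≤ K2 ^ 2 * r8 := by
    rw [hr8, ← sq_abs h]
    have := mul_le_mul hh hh (abs_nonneg _) (by positivity)
    (first | linarith only [this] | nlinarith only [this])
  have u1 : |((a + x + h) ^ 4 - (a + x) ^ 4) * x'| ≤ r4 * (4 * M ^ 3 * K2) * |x'| := by
    rw [abs_mul]
    refine mul_le_mul_of_nonneg_right (t1.trans ?_) (abs_nonneg _)
    have := mul_le_mul_of_nonneg_left hh (by positivity : 0 ≤ 4 * M ^ 3)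
    linarith
  have u2 : |((a + x + h) ^ 4 - (a + x) ^ 4 - 4 * a ^ 3 * h) * a'| ≤
      r4 * (12 * M ^ 2 * K2 * K) * |x| + r8 * (16 * M ^ 2 * K2 ^ 2 * K) * B := by
    rw [abs_mul]
    have v1 : 16 * M ^ 2 * h ^ 2 + 12 * M ^ 2 * |x| * |h| ≤
        16 * M ^ 2 * (K2 ^ 2 * r8) + 12 * M ^ 2 * |x| * (K2 * r4) :=
      add_le_add (mul_le_mul_of_nonneg_left hh2 (by positivity))
        (mul_le_mul_of_nonneg_left hh (by positivity))
    have hr80 : 0 ≤ r8 := by rw [hr8]; positivity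
    have v2 := mul_le_mul (t5.trans v1) ha' (abs_nonneg _) (by positivity)
    refine v2.trans ?_
    have v3 : 12 * M ^ 2 * |x| * (K2 * r4) * (K * B) ≤ 12 * M ^ 2 * |x| * (K2 * r4) * (K * 1) := by
      refine mul_le_mul_of_nonneg_left (mul_le_mul_of_nonneg_left hB1 (by linarith)) (by positivity)
    linarith
  have u3 : |((a + (h + x)) ^ 4 - a ^ 4) * h'| ≤
      r4 * (4 * M ^ 3 * K2) * |x| + r8 * (4 * M ^ 3 * K2 ^ 2) * B := by
    rw [abs_mul]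
    have v0 : |h + x| ≤ K2 * r4 + |x| := (abs_add_le h x).trans (by linarith)
    have v1 : 4 * M ^ 3 * |h + x| ≤ 4 * M ^ 3 * (K2 * r4 + |x|) :=
      mul_le_mul_of_nonneg_left v0 (by positivity)
    have v2 := mul_le_mul (t4.trans v1) hh' (abs_nonneg _) (by positivity)
    refine v2.trans ?_
    have v3 : 4 * M ^ 3 * |x| * (K2 * r4 * B) ≤ 4 * M ^ 3 * |x| * (K2 * r4 * 1) := by
      refine mul_le_mul_of_nonneg_left (mul_le_mul_of_nonneg_left hB1 (by positivity)) (by positivity)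
    rw [hr8]
    linarith
  have w1 := abs_add_three (((a + x + h) ^ 4 - (a + x) ^ 4) * x')
    (((a + x + h) ^ 4 - (a + x) ^ 4 - 4 * a ^ 3 * h) * a') (((a + (h + x)) ^ 4 - a ^ 4) * h')
  refine w1.trans ?_
  linarith

theorem Dcb_fin {C c1 c2 c3 c4 c5 c6 r4 r8 e0 e1 e2 B m bb al : ℝ} (hr4 : 0 ≤ r4) (hr8 : 0 ≤ r8)
    (h0 : 0 ≤ e0) (h1 : 0 ≤ e1) (h2 : 0 ≤ e2) (hB : 0 ≤ B) (hm : 0 ≤ m) (hb : 0 ≤ bb)
    (ha : 0 ≤ al) (k0 : 1 ≤ C) (k1 : c1 ≤ C) (k2 : c2 ≤ C) (k3 : c3 ≤ C) (k4 : c4 ≤ C)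
    (k5 : c5 ≤ C) (k6 : c6 ≤ C) :
    r4 * c1 * e1 + r4 * c2 * e0 + r4 * e2 + (r8 * c3 + r4 * m * c4 + bb * c5) * B + al * c6 ≤
      C * r4 * (e0 + e1 + e2) + C * (r8 + r4 * m + bb) * B + C * al := by
  have a1 := mul_le_mul_of_nonneg_right k1 (mul_nonneg hr4 h1)
  have a2 := mul_le_mul_of_nonneg_right k2 (mul_nonneg hr4 h0)
  have a3 := mul_le_mul_of_nonneg_right k0 (mul_nonneg hr4 h2)
  have a4 := mul_le_mul_of_nonneg_right k3 (mul_nonneg hr8 hB)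
  have a5 := mul_le_mul_of_nonneg_right k4 (mul_nonneg (mul_nonneg hr4 hm) hB)
  have a6 := mul_le_mul_of_nonneg_right k5 (mul_nonneg hb hB)
  have a7 := mul_le_mul_of_nonneg_right k6 ha
  linarith

theorem Sf_le (hp : Prof P E) : ∃ C : ℝ, 0 < C ∧ ∀ (r w m p q : ℝ) (W et : ℝ → ℝ), 0 < r → r ≤ 1 →
    0 < p → 0 < q → Cl p q (fun y => W y - Qf 4 y) → 0 ≤ w → w ≤ 5 * c0 * r ^ 4 →
    |bq (r ^ 2) W| ≤ 5 * c0 * r ^ 4 → |alf (r ^ 2) W| ≤ (|f0| + 1) * r ^ 4 →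
    (∀ y, |ep P E (r ^ 2) W y| ≤ 1) →
    SB (C * r ^ 4)
      (C * (r ^ 8 + r ^ 4 * |m| + |bqD (r ^ 2) w W (ze w m (r ^ 8) W et)|))
      (C * |alm (r ^ 2) w W (ze w m (r ^ 8) W et)|)
      (ep P E (r ^ 2) W) (Sf P E (r ^ 2) w m (r ^ 8) W et) := by
  obtain ⟨K, hK, hall⟩ := Dcb_all hp
  obtain ⟨A, hAdef⟩ : ∃ A : ℝ, A = 5 * |c0| + |f0| + 1 := ⟨_, rfl⟩
  obtain ⟨K2, hK2def⟩ : ∃ K2 : ℝ, K2 = 2 * A * K := ⟨_, rfl⟩
  obtain ⟨M, hMdef⟩ : ∃ M : ℝ, M = K + K2 + 1 := ⟨_, rfl⟩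
  have hA : 1 ≤ A := by
    rw [hAdef]
    have := abs_nonneg c0
    have := abs_nonneg f0
    linarith
  have hK0 : 0 ≤ K := by linarith
  have hA0 : 0 ≤ A := by linarith
  have hK2 : 0 ≤ K2 := by rw [hK2def]; positivity
  have hM : 0 ≤ M := by rw [hMdef]; linarith
  obtain ⟨C, hCdef⟩ : ∃ C : ℝ, C = 1 + 4 * M ^ 3 * K2 + (12 * M ^ 2 * K2 * K + 4 * M ^ 3 * K2) +
    (K + (16 * M ^ 2 * K2 ^ 2 * K + 4 * M ^ 3 * K2 ^ 2) + A ^ 2 * K + A * K2 + K2) + K2 + K + K :=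
    ⟨_, rfl⟩
  have q1 : 0 ≤ 4 * M ^ 3 * K2 := by positivity
  have q2 : 0 ≤ 12 * M ^ 2 * K2 * K + 4 * M ^ 3 * K2 := by positivity
  have q3 : 0 ≤ K + (16 * M ^ 2 * K2 ^ 2 * K + 4 * M ^ 3 * K2 ^ 2) + A ^ 2 * K + A * K2 + K2 := by
    positivity
  have hC1 : 1 ≤ C := by linarith
  refine ⟨C, by linarith, ?_⟩
  intro r w m p q W et hr hr1 hp0 hq0 hW hw0 hw1 hbq half hep y
  have hcl : Cl 0 0 (ep P E (r ^ 2) W) := ep_cl hp hp0.le hq0.le hW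
  have hhcl := hf_cl hp (bq (r ^ 2) W) (alf (r ^ 2) W)
  obtain ⟨z1, z2, z3, z4, z5, z6, z7, z8, z9, z10, z11, z12⟩ := hall y
  have hB0 := (bd_pos (1 / 2) 0 y).le
  have hB1 := Dcb_bd1 y
  have hr4 : 0 ≤ r ^ 4 := by positivity
  have hr41 : r ^ 4 ≤ 1 := pow_le_one₀ hr.le hr1
  have hr8 : r ^ 8 = r ^ 4 * r ^ 4 := by ring
  have hr80 : 0 ≤ r ^ 8 := by positivity
  have hr84 : r ^ 8 ≤ r ^ 4 := by rw [hr8]; (first | linarith only [hr4, hr41] | nlinarith only [hr4, hr41])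
  have hc0A : 5 * c0 ≤ A := by
    rw [hAdef]
    have := le_abs_self c0
    have := abs_nonneg f0
    linarith
  have hfA : |f0| + 1 ≤ A := by
    rw [hAdef]
    have := abs_nonneg c0
    linarith
  have hbA : |bq (r ^ 2) W| ≤ A * r ^ 4 := hbq.trans (mul_le_mul_of_nonneg_right hc0A hr4)
  have hαA : |alf (r ^ 2) W| ≤ A * r ^ 4 := half.trans (mul_le_mul_of_nonneg_right hfA hr4)
  have hwA : w ≤ A * r ^ 4 := hw1.trans (mul_le_mul_of_nonneg_right hc0A hr4)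
  have hAr : 0 ≤ A * r ^ 4 := by positivity
  have hKB : 0 ≤ K * bd (1 / 2) 0 y := by positivity
  obtain ⟨-, hd1⟩ := hf_der hp (bq (r ^ 2) W) (alf (r ^ 2) W)
  have hd2 : deriv (deriv (hf P E (bq (r ^ 2) W) (alf (r ^ 2) W))) y =
      bq (r ^ 2) W * deriv (deriv P) y + alf (r ^ 2) W * deriv (deriv E) y := by
    have e : deriv (hf P E (bq (r ^ 2) W) (alf (r ^ 2) W)) =
        fun y => bq (r ^ 2) W * deriv P y + alf (r ^ 2) W * deriv E y := funext hd1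
    rw [e]
    have g1 : HasDerivAt (deriv P) (deriv (deriv P) y) y := Cl_hd hp.dP y
    have g2 : HasDerivAt (deriv E) (deriv (deriv E) y) y := Cl_hd (Dcb_Ed hp) y
    exact ((g1.const_mul _).add (g2.const_mul _)).deriv
  -- bounds for `h`
  have b0 : |hf P E (bq (r ^ 2) W) (alf (r ^ 2) W) y| ≤ K2 * r ^ 4 := by
    have := Dcb_comb hbA hαA (x := P y) (y := E y) (K := K) (B := 1) (by rwa [mul_one])
      (by rwa [mul_one]) (by linarith) hAr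
    rw [hK2def]
    unfold hf
    linarith
  have b1 : |deriv (hf P E (bq (r ^ 2) W) (alf (r ^ 2) W)) y| ≤ K2 * r ^ 4 * bd (1 / 2) 0 y := by
    rw [hd1, hK2def]
    exact Dcb_comb hbA hαA z5 z6 hKB hAr
  have b2 : |deriv (deriv (hf P E (bq (r ^ 2) W) (alf (r ^ 2) W))) y| ≤
      K2 * r ^ 4 * bd (1 / 2) 0 y := by
    rw [hd2, hK2def]
    exact Dcb_comb hbA hαA z7 z8 hKB hAr
  have b3 : |y * deriv (hf P E (bq (r ^ 2) W) (alf (r ^ 2) W)) y| ≤ K2 * r ^ 4 * bd (1 / 2) 0 y := by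
    have e : y * deriv (hf P E (bq (r ^ 2) W) (alf (r ^ 2) W)) y =
        bq (r ^ 2) W * (y * deriv P y) + alf (r ^ 2) W * (y * deriv E y) := by
      rw [hd1]; ring
    rw [e, hK2def]
    exact Dcb_comb hbA hαA z9 z10 hKB hAr
  have bk : |deriv (Kf (hf P E (bq (r ^ 2) W) (alf (r ^ 2) W)) (ep P E (r ^ 2) W)) y| ≤
      r ^ 4 * (4 * M ^ 3 * K2) * |deriv (ep P E (r ^ 2) W) y|
      + r ^ 4 * (12 * M ^ 2 * K2 * K + 4 * M ^ 3 * K2) * |ep P E (r ^ 2) W y|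
      + r ^ 8 * (16 * M ^ 2 * K2 ^ 2 * K + 4 * M ^ 3 * K2 ^ 2) * bd (1 / 2) 0 y := by
    rw [Dcb_Kf hhcl hcl y]
    exact Dcb_alg hK hK2 hr4 hr41 hr8 hB0 hB1 hMdef z3 (hep y) b0 z11 b1
  -- the other terms
  have c1 : |r ^ 8 * deriv (deriv (Qf 4)) y| ≤ r ^ 8 * K * bd (1 / 2) 0 y := by
    rw [abs_mul, abs_of_nonneg hr80, mul_assoc]
    exact mul_le_mul_of_nonneg_left z12 hr80
  have c2 : |r ^ 8 * deriv (deriv (ep P E (r ^ 2) W)) y| ≤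
      r ^ 4 * |deriv (deriv (ep P E (r ^ 2) W)) y| := by
    rw [abs_mul, abs_of_nonneg hr80]
    exact mul_le_mul_of_nonneg_right hr84 (abs_nonneg _)
  have c3 : |1 / 2 * w * bq (r ^ 2) W * P y| ≤ r ^ 8 * (A ^ 2 * K) * bd (1 / 2) 0 y := by
    have g1 : |w * bq (r ^ 2) W| ≤ A * r ^ 4 * (A * r ^ 4) := by
      rw [abs_mul, abs_of_nonneg hw0]
      exact mul_le_mul hwA hbA (abs_nonneg _) hAr
    have g2 : |w * bq (r ^ 2) W * P y| ≤ A * r ^ 4 * (A * r ^ 4) * (K * bd (1 / 2) 0 y) := by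
      rw [abs_mul]
      exact mul_le_mul g1 z4 (abs_nonneg _) (by positivity)
    have g3 : 1 / 2 * w * bq (r ^ 2) W * P y = 1 / 2 * (w * bq (r ^ 2) W * P y) := by ring
    rw [g3, abs_mul, abs_of_pos (by norm_num : (0:ℝ) < 1 / 2), hr8]
    have g4 : 0 ≤ |w * bq (r ^ 2) W * P y| := abs_nonneg _
    have g5 : A * r ^ 4 * (A * r ^ 4) * (K * bd (1 / 2) 0 y) =
        r ^ 4 * r ^ 4 * (A ^ 2 * K) * bd (1 / 2) 0 y := by ring
    rw [← g5]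
    linarith
  have c4 : |w * (y * deriv (hf P E (bq (r ^ 2) W) (alf (r ^ 2) W)) y)| ≤
      r ^ 8 * (A * K2) * bd (1 / 2) 0 y := by
    rw [abs_mul, abs_of_nonneg hw0]
    refine (mul_le_mul hwA b3 (abs_nonneg _) hAr).trans (le_of_eq ?_)
    rw [hr8]; ring
  have c5 : |m * deriv (hf P E (bq (r ^ 2) W) (alf (r ^ 2) W)) y| ≤
      r ^ 4 * |m| * K2 * bd (1 / 2) 0 y := by
    rw [abs_mul]
    refine (mul_le_mul_of_nonneg_left b1 (abs_nonneg _)).trans (le_of_eq ?_)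
    ring
  have c6 : |r ^ 8 * deriv (deriv (hf P E (bq (r ^ 2) W) (alf (r ^ 2) W))) y| ≤
      r ^ 8 * K2 * bd (1 / 2) 0 y := by
    rw [abs_mul, abs_of_nonneg hr80]
    refine (mul_le_mul_of_nonneg_left b2 hr80).trans ?_
    have g1 : K2 * r ^ 4 * bd (1 / 2) 0 y ≤ K2 * 1 * bd (1 / 2) 0 y :=
      mul_le_mul_of_nonneg_right (mul_le_mul_of_nonneg_left hr41 hK2) hB0
    refine (mul_le_mul_of_nonneg_left g1 hr80).trans (le_of_eq ?_)
    ring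
  have c7 : |bqD (r ^ 2) w W (ze w m (r ^ 8) W et) * P y| ≤
      |bqD (r ^ 2) w W (ze w m (r ^ 8) W et)| * K * bd (1 / 2) 0 y := by
    rw [abs_mul, mul_assoc]
    exact mul_le_mul_of_nonneg_left z4 (abs_nonneg _)
  have c8 : |alm (r ^ 2) w W (ze w m (r ^ 8) W et) * E y| ≤
      |alm (r ^ 2) w W (ze w m (r ^ 8) W et)| * K := by
    rw [abs_mul]
    exact mul_le_mul_of_nonneg_left z2 (abs_nonneg _)
  have hsum : |Sf P E (r ^ 2) w m (r ^ 8) W et y| ≤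
      |r ^ 8 * deriv (deriv (Qf 4)) y| + |r ^ 8 * deriv (deriv (ep P E (r ^ 2) W)) y|
      + |deriv (Kf (hf P E (bq (r ^ 2) W) (alf (r ^ 2) W)) (ep P E (r ^ 2) W)) y|
      + |1 / 2 * w * bq (r ^ 2) W * P y|
      + |w * (y * deriv (hf P E (bq (r ^ 2) W) (alf (r ^ 2) W)) y)|
      + |m * deriv (hf P E (bq (r ^ 2) W) (alf (r ^ 2) W)) y|
      + |r ^ 8 * deriv (deriv (hf P E (bq (r ^ 2) W) (alf (r ^ 2) W))) y|
      + |bqD (r ^ 2) w W (ze w m (r ^ 8) W et) * P y|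
      + |alm (r ^ 2) w W (ze w m (r ^ 8) W et) * E y| := by
    unfold Sf
    refine (abs_sub _ _).trans (add_le_add ?_ le_rfl)
    refine (abs_sub _ _).trans (add_le_add ?_ le_rfl)
    refine (abs_add_le _ _).trans (add_le_add ?_ le_rfl)
    refine (abs_add_le _ _).trans (add_le_add ?_ le_rfl)
    refine (abs_sub _ _).trans (add_le_add ?_ le_rfl)
    refine (abs_sub _ _).trans (add_le_add ?_ le_rfl)
    refine (abs_sub _ _).trans (add_le_add ?_ le_rfl)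
    exact abs_add_le _ _
  refine hsum.trans ?_
  have hfin := Dcb_fin (C := C) (c1 := 4 * M ^ 3 * K2) (c2 := 12 * M ^ 2 * K2 * K + 4 * M ^ 3 * K2)
    (c3 := K + (16 * M ^ 2 * K2 ^ 2 * K + 4 * M ^ 3 * K2 ^ 2) + A ^ 2 * K + A * K2 + K2)
    (c4 := K2) (c5 := K) (c6 := K) hr4 hr80 (abs_nonneg (ep P E (r ^ 2) W y))
    (abs_nonneg (deriv (ep P E (r ^ 2) W) y)) (abs_nonneg (deriv (deriv (ep P E (r ^ 2) W)) y))
    hB0 (abs_nonneg m) (abs_nonneg (bqD (r ^ 2) w W (ze w m (r ^ 8) W et)))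
    (abs_nonneg (alm (r ^ 2) w W (ze w m (r ^ 8) W et)))
    hC1 (by linarith) (by linarith) (by linarith) (by linarith) (by linarith) (by linarith)
  refine le_trans ?_ hfin
  linarith

end H98KC

end

end S_H98_KC_Dcb

section S_H98_KB_Vrc

/-!
# Vrc : the scaling term `Λε` in the virial functional

`v = vf k δ ε`.  Commutators: `-∂²Λ = Λ(-∂²) - 2∂²`, so
`L Λε = Λ L ε - 2ε'' + y(Q^k)'ε = ΛLε + 2(Lε - ε + Q^kε) + y(Q^k)'ε`;
`Sm Λ h = Λ Sm h + 2δ(Sm Sm h)''` (apply `1-δ∂²`: `(1-δ∂²)Λa = Λ(1-δ∂²)a - 2δa''` with `a=Sm h`, and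
`Sm(a'') = (Sm a)''`), and `δ(Sm a)'' = Sm a - a` (`Sm_eq`).  With `h = Lε`, `a = v`:
`vf k δ (Λε) = Λv + 2(Sm v - v) + 2v + Sm(-2ε+2Q^kε+y(Q^k)'ε)`.
`∫Ψ v Λv = (2/k)∫Ψv² + ∫Ψ y v v' = (2/k-1/2)∫Ψv² - (1/2)∫yΨ'v²`; `|Ψ|, |yΨ'| ≤ C(1+|y|)ch ≤ C·48B²om'` (`ych_le_om1`).
The other terms: Cauchy-Schwarz with weight `ch` (`|Ψ| ≤ (1+η)ch`), `Sm_wt`, `vf_wt` with `W = ch B` and
`ch ≤ 16B om'`.
-/

open MeasureTheory Filter Topology Set
open scoped ContDiff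

namespace H98KB

theorem Vrc_Sm_inv {δ p q : ℝ} {x : ℝ → ℝ} (hδ : 0 < δ) (hδ' : δ ≤ 1 / 16) (hp : |p| ≤ 2)
    (hq : |q| ≤ 2) (hx : Cl p q x) (y : ℝ) :
    Sm δ (fun z => x z - δ * deriv (deriv x) z) y = x y := by
  have hx1 := Cl_der hx
  have hx2 := Cl_der hx1
  have e1 : (fun z => x z - δ * deriv (deriv x) z) = (fun z => x z + (-δ) * deriv (deriv x) z) := by
    funext z; ring
  rw [e1, Sm_add hδ hδ' hp hq hp hq hx (Cl_smul (-δ) hx2) y, Sm_smul]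
  have h3 := Sm_eq hδ hδ' hp hq hx y
  have h4 := Sm_deriv hδ hδ' hp hq hx
  have h5 := Sm_deriv hδ hδ' hp hq hx1
  rw [h4, h5] at h3
  linarith

theorem Vrc_Lam_hd (k : ℕ) {p q : ℝ} {f : ℝ → ℝ} (hf : Cl p q f) (y : ℝ) :
    HasDerivAt (Lam k f) (Lam k (deriv f) y + deriv f y) y := by
  have h1 := Cl_hd hf y
  have h2 := Cl_hd (Cl_der hf) y
  have h3 := (h1.const_mul (2 / (k : ℝ))).fun_add ((hasDerivAt_id y).fun_mul h2)
  have h4 : HasDerivAt (fun y => 2 / (k : ℝ) * f y + y * deriv f y)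
      (Lam k (deriv f) y + deriv f y) y := by
    refine h3.congr_deriv ?_
    simp only [Lam, id]
    ring
  exact h4

theorem Vrc_Lam_deriv (k : ℕ) {p q : ℝ} {f : ℝ → ℝ} (hf : Cl p q f) :
    deriv (Lam k f) = fun y => Lam k (deriv f) y + deriv f y := by
  funext y; exact (Vrc_Lam_hd k hf y).deriv

theorem Vrc_Lam_deriv2 (k : ℕ) {p q : ℝ} {f : ℝ → ℝ} (hf : Cl p q f) :
    deriv (deriv (Lam k f)) = fun y => Lam k (deriv (deriv f)) y + 2 * deriv (deriv f) y := by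
  rw [Vrc_Lam_deriv k hf]
  funext y
  have h1 := Vrc_Lam_hd k (Cl_der hf) y
  have h2 := Cl_hd (Cl_der hf) y
  rw [(h1.fun_add h2).deriv]
  ring

theorem Vrc_Lop_hd {k : ℕ} (hk : 1 ≤ k) {p q : ℝ} {f : ℝ → ℝ} (hf : Cl p q f) (y : ℝ) :
    HasDerivAt (Lop k f) (-deriv (deriv (deriv f)) y + deriv f y
      - (deriv (fun z => Qf k z ^ k) y * f y + Qf k y ^ k * deriv f y)) y := by
  have h0 := Cl_hd hf y
  have h2 := Cl_hd (Cl_der (Cl_der hf)) y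
  have h3 := Cl_hd (Cl_Qk hk) y
  have h4 := (h2.fun_neg.fun_add h0).fun_sub (h3.fun_mul h0)
  exact h4

theorem Vrc_comm {k : ℕ} (hk : 1 ≤ k) {p q : ℝ} {f : ℝ → ℝ} (hf : Cl p q f) (y : ℝ) :
    Lop k (Lam k f) y = Lam k (Lop k f) y + (2 * Lop k f y
      + (-2 * f y + 2 * (Qf k y ^ k * f y) + y * (deriv (fun z => Qf k z ^ k) y * f y))) := by
  have h1 : deriv (deriv (Lam k f)) y = Lam k (deriv (deriv f)) y + 2 * deriv (deriv f) y := by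
    rw [Vrc_Lam_deriv2 k hf]
  have h2 := (Vrc_Lop_hd hk hf y).deriv
  have h3 : Lam k (Lop k f) y = 2 / (k : ℝ) * Lop k f y + y * deriv (Lop k f) y := rfl
  rw [h3, h2]
  unfold Lop
  rw [h1]
  unfold Lam
  ring

theorem Vrc_Sm_Lam (k : ℕ) {δ p q : ℝ} {h : ℝ → ℝ} (hδ : 0 < δ) (hδ' : δ ≤ 1 / 16)
    (hp : |p| ≤ 1) (hq : |q| ≤ 1) (hh : Cl p q h) (y : ℝ) :
    Sm δ (Lam k h) y = Lam k (Sm δ h) y + 2 * (Sm δ (Sm δ h) y - Sm δ h y) := by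
  have hp2 : |p| ≤ 2 := by linarith
  have hq2 : |q| ≤ 2 := by linarith
  have hp1 : |p - 1| ≤ 2 := by
    rw [abs_le] at hp ⊢; constructor <;> linarith
  have hq1 : |q - 1| ≤ 2 := by
    rw [abs_le] at hq ⊢; constructor <;> linarith
  have ha : Cl p q (Sm δ h) := Cl_Sm hδ hδ' hp2 hq2 hh
  have ha1 := Cl_der ha
  have ha2 := Cl_der ha1
  have hx : Cl (p - 1) (q - 1) (Lam k (Sm δ h)) := Cl_Lam k ha one_pos
  have heq : ∀ z, h z = Sm δ h z - δ * deriv (deriv (Sm δ h)) z := fun z =>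
    (Sm_eq hδ hδ' hp2 hq2 hh z).symm
  have hfun : h = fun z => Sm δ h z - δ * deriv (deriv (Sm δ h)) z := funext heq
  have hd : ∀ z, deriv h z = deriv (Sm δ h) z - δ * deriv (deriv (deriv (Sm δ h))) z := by
    intro z
    have h1 := (Cl_hd ha z).fun_sub ((Cl_hd ha2 z).const_mul δ)
    have h2 : HasDerivAt h (deriv (Sm δ h) z - δ * deriv (deriv (deriv (Sm δ h))) z) z := by
      refine h1.congr_of_eventuallyEq ?_
      filter_upwards with w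
      exact heq w
    exact h2.deriv
  have e1 : Lam k h = fun z => (Lam k (Sm δ h) z - δ * deriv (deriv (Lam k (Sm δ h))) z)
      + (2 * δ) * deriv (deriv (Sm δ h)) z := by
    funext z
    rw [Vrc_Lam_deriv2 k ha]
    have : Lam k h z = 2 / (k : ℝ) * h z + z * deriv h z := rfl
    rw [this, hd z, heq z]
    simp only [Lam]
    ring
  have hx2 := Cl_der (Cl_der hx)
  have hxx : Cl (p - 1) (q - 1) (fun z => Lam k (Sm δ h) z
      - δ * deriv (deriv (Lam k (Sm δ h))) z) := Cl_sub hx (Cl_smul δ hx2)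
  rw [e1, Sm_add hδ hδ' hp1 hq1 hp2 hq2 hxx (Cl_smul (2 * δ) ha2) y, Sm_smul,
    Vrc_Sm_inv hδ hδ' hp1 hq1 hx y]
  -- δ Sm(a'') = Sm a - a
  have e2 : Sm δ (Sm δ h) y = Sm δ h y + δ * Sm δ (deriv (deriv (Sm δ h))) y := by
    have e3 : Sm δ h = fun z => h z + δ * deriv (deriv (Sm δ h)) z := by
      funext z
      have := Sm_eq hδ hδ' hp2 hq2 hh z
      linarith
    have e4 : Sm δ (Sm δ h) y = Sm δ (fun z => h z + δ * deriv (deriv (Sm δ h)) z) y :=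
      congrArg (fun f => Sm δ f y) e3
    rw [e4, Sm_add hδ hδ' hp2 hq2 hp2 hq2 hh (Cl_smul δ ha2) y, Sm_smul]
  rw [e2]
  ring

theorem Vrc_P {k : ℕ} (hk : 1 ≤ k) :
    Cl 0 0 (fun z => -2 + 2 * Qf k z ^ k + z * deriv (fun z => Qf k z ^ k) z) := by
  have hk1 : (1 : ℝ) ≤ k := by exact_mod_cast hk
  have hF := Cl_Qk hk
  have hG := Cl_der hF
  have h1 : Cl 0 0 (fun z => Qf k z ^ k) := Cl_mono hF (by linarith) (by linarith)
  have h2 : Cl (-1 + (k : ℝ)) (-1 + (k : ℝ)) (fun z => z * deriv (fun z => Qf k z ^ k) z) :=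
    Cl_mul (Cl_id one_pos) hG
  have h3 : Cl 0 0 (fun z => z * deriv (fun z => Qf k z ^ k) z) :=
    Cl_mono h2 (by linarith) (by linarith)
  exact Cl_add (Cl_add (Cl_const (-2)) (Cl_smul 2 h1)) h3

theorem Vrc_g {k : ℕ} (hk : 1 ≤ k) {p q : ℝ} {ε : ℝ → ℝ} (hε : Cl p q ε) :
    Cl p q (fun z => -2 * ε z + 2 * (Qf k z ^ k * ε z)
          + z * (deriv (fun z => Qf k z ^ k) z * ε z)) := by
  have h := Cl_mul0 (Vrc_P hk) hε
  have e : (fun z => -2 * ε z + 2 * (Qf k z ^ k * ε z)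
          + z * (deriv (fun z => Qf k z ^ k) z * ε z)) =
      fun z => (-2 + 2 * Qf k z ^ k + z * deriv (fun z => Qf k z ^ k) z) * ε z := by
    funext z; ring
  rw [e]; exact h

/-- the commutator formula -/
theorem vf_Lam (k : ℕ) (hk : 1 ≤ k) {δ p q : ℝ} {ε : ℝ → ℝ} (hδ : 0 < δ) (hδ' : δ ≤ 1 / 16)
    (hp : |p| ≤ 1) (hq : |q| ≤ 1) (hε : Cl p q ε) (y : ℝ) :
    vf k δ (Lam k ε) y = Lam k (vf k δ ε) y + 2 * Sm δ (vf k δ ε) y
      + Sm δ (fun z => -2 * ε z + 2 * (Qf k z ^ k * ε z)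
          + z * (deriv (fun z => Qf k z ^ k) z * ε z)) y := by
  have hp2 : |p| ≤ 2 := by linarith
  have hq2 : |q| ≤ 2 := by linarith
  have hp1 : |p - 1| ≤ 2 := by
    rw [abs_le] at hp ⊢; constructor <;> linarith
  have hq1 : |q - 1| ≤ 2 := by
    rw [abs_le] at hq ⊢; constructor <;> linarith
  have hL : Cl p q (Lop k ε) := Cl_Lop hk hε
  have hLam : Cl (p - 1) (q - 1) (Lam k (Lop k ε)) := Cl_Lam k hL one_pos
  have hg := Vrc_g hk hε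
  have e1 : Lop k (Lam k ε) = fun y => Lam k (Lop k ε) y + (2 * Lop k ε y
      + (-2 * ε y + 2 * (Qf k y ^ k * ε y) + y * (deriv (fun z => Qf k z ^ k) y * ε y))) := by
    funext y; exact Vrc_comm hk hε y
  have e2 : vf k δ (Lam k ε) y = Sm δ (Lop k (Lam k ε)) y := rfl
  have e3 : vf k δ ε = Sm δ (Lop k ε) := rfl
  rw [e2, e1, Sm_add hδ hδ' hp1 hq1 hp2 hq2 hLam (Cl_add (Cl_smul 2 hL) hg) y,
    Sm_add hδ hδ' hp2 hq2 hp2 hq2 (Cl_smul 2 hL) hg y, Sm_smul,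
    Vrc_Sm_Lam k hδ hδ' hp hq hL y, e3]
  ring

theorem Vrc_int2 {pw qw p q : ℝ} {W f : ℝ → ℝ} (hW : Cl pw qw W) (hf : Cl p q f)
    (h1 : 0 < 2 * p + pw) (h2 : 0 < 2 * q + qw) : Integrable (fun y => W y * (f y) ^ 2) := by
  have h := Cl_int (Cl_mul hW (Cl_mul hf hf)) (by linarith) (by linarith)
  refine h.congr ?_
  filter_upwards with y
  ring

theorem Vrc_quad (a b c d : ℝ) :
    a * (a + b + 2 * c + d) ≤ 3 * (a ^ 2 + b ^ 2) + c ^ 2 + d ^ 2 := by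
  have h1 := sq_nonneg (a - c)
  have h2 := sq_nonneg (a - b)
  have h3 := sq_nonneg (a - d)
  have h4 := sq_nonneg b
  have h5 := sq_nonneg d
  nlinarith

theorem Vrc_lin (t a b c d L X : ℝ) (ht : 0 ≤ t) (ha : 0 ≤ a) (hb : 0 ≤ b) (hc : 0 ≤ c) (hd : 0 ≤ d)
    (hL : L ≤ a + t * b) (hX : X ≤ L + 2 * c + d) :
    X ≤ (1 + t) * (a + b + 2 * c + d) := by
  have b1 := mul_nonneg ht ha
  have b3 := mul_nonneg ht hc
  have b4 := mul_nonneg ht hd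
  have e : (1 + t) * (a + b + 2 * c + d) = a + b + 2 * c + d + t * a + t * b + 2 * (t * c) + t * d := by
    ring
  rw [e]
  linarith

theorem Vrc_pt (k : ℕ) (hk : 5 ≤ k) {γ η B ρ y a b c d L X V : ℝ} (hη : 0 ≤ η) (hS : Slow B ρ)
    (hL : L = 2 / (k : ℝ) * a + y * b) (hX : X = L + 2 * c + d) (hV : V = a * X) :
    |Psi k η γ B y * V| ≤
      48 * B ^ 2 * (1 + η) * (3 * (deriv (om B ρ) y * (a ^ 2 + b ^ 2))
        + deriv (om B ρ) y * c ^ 2 + deriv (om B ρ) y * d ^ 2) := by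
  have hWp := om1_pos hS y
  have hchp : 0 < ch B y := by
    rw [ch_eq']; exact se2_pos _ _
  have hpsi := psi_abs (k := k) hη γ y
  have hych := ych_le_om1 hS y
  have hk5 : (5 : ℝ) ≤ k := by exact_mod_cast hk
  have hk2 : 2 / (k : ℝ) ≤ 1 := by
    rw [div_le_one (by linarith)]; linarith
  have hk0 : 0 ≤ 2 / (k : ℝ) := by positivity
  have h1 : |L| ≤ |a| + |y| * |b| := by
    rw [hL]
    calc |2 / (k : ℝ) * a + y * b| ≤ |2 / (k : ℝ) * a| + |y * b| := abs_add_le _ _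
      _ = 2 / (k : ℝ) * |a| + |y| * |b| := by
          rw [abs_mul, abs_mul, abs_of_nonneg hk0]
      _ ≤ |a| + |y| * |b| := by
          have : 2 / (k : ℝ) * |a| ≤ 1 * |a| := mul_le_mul_of_nonneg_right hk2 (abs_nonneg _)
          linarith
  have h2 : |X| ≤ |L| + 2 * |c| + |d| := by
    rw [hX]
    calc |L + 2 * c + d| ≤ |L + 2 * c| + |d| := abs_add_le _ _
      _ ≤ |L| + |2 * c| + |d| := by
          have := abs_add_le L (2 * c)
          linarith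
      _ = _ := by rw [abs_mul, abs_two]
  have hXX : |X| ≤ (1 + |y|) * (|a| + |b| + 2 * |c| + |d|) :=
    Vrc_lin _ _ _ _ _ _ _ (abs_nonneg y) (abs_nonneg a) (abs_nonneg b) (abs_nonneg c)
      (abs_nonneg d) h1 h2
  have hPsi : |Psi k η γ B y| ≤ (1 + η) * ch B y := by
    unfold Psi
    rw [abs_mul, abs_of_pos hchp]
    exact mul_le_mul_of_nonneg_right hpsi hchp.le
  have hY : |a| * (|a| + |b| + 2 * |c| + |d|) ≤ 3 * (a ^ 2 + b ^ 2) + c ^ 2 + d ^ 2 := by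
    have := Vrc_quad |a| |b| |c| |d|
    rwa [sq_abs, sq_abs, sq_abs, sq_abs] at this
  have hY0 : 0 ≤ |a| * (|a| + |b| + 2 * |c| + |d|) := by positivity
  have h1η : 0 ≤ 1 + η := by linarith
  rw [hV]
  calc |Psi k η γ B y * (a * X)|
      = |Psi k η γ B y| * (|a| * |X|) := by
        rw [abs_mul, abs_mul]
    _ ≤ ((1 + η) * ch B y) * (|a| * ((1 + |y|) * (|a| + |b| + 2 * |c| + |d|))) := by
        refine mul_le_mul hPsi (mul_le_mul_of_nonneg_left hXX (abs_nonneg a)) (by positivity)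
          (mul_nonneg h1η hchp.le)
    _ = (1 + η) * ((1 + |y|) * ch B y) * (|a| * (|a| + |b| + 2 * |c| + |d|)) := by ring
    _ ≤ (1 + η) * (48 * B ^ 2 * deriv (om B ρ) y) * (|a| * (|a| + |b| + 2 * |c| + |d|)) := by
        refine mul_le_mul_of_nonneg_right ?_ hY0
        exact mul_le_mul_of_nonneg_left hych h1η
    _ ≤ (1 + η) * (48 * B ^ 2 * deriv (om B ρ) y) *
          (3 * (a ^ 2 + b ^ 2) + c ^ 2 + d ^ 2) := by
        refine mul_le_mul_of_nonneg_left hY ?_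
        positivity
    _ = _ := by ring

theorem VS (k : ℕ) (hk : 5 ≤ k) (γ η δ : ℝ) (hγ : 0 < γ) (hγ' : γ ≤ 1 / 8) (hη : 0 ≤ η) (hδ : 0 < δ)
    (hδ' : δ ≤ 1 / 16) (B : ℝ) (hB : 16 ≤ B) :
    ∃ C : ℝ, 0 < C ∧ ∀ ρ, Slow B ρ → ∀ (p q : ℝ) (ε : ℝ → ℝ), ρ < p → p ≤ 1 / 2 → 0 < q → q ≤ 1 / 2 →
    Cl p q ε →
    |∫ y, Psi k η γ B y * (vf k δ ε y * vf k δ (Lam k ε) y)| ≤
      C * ∫ y, deriv (om B ρ) y * ((ε y) ^ 2 + (deriv ε y) ^ 2) := by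
  have hk1 : 1 ≤ k := by omega
  obtain ⟨C1, hC1, H1⟩ := vf_wt k hk1 δ hδ hδ'
  obtain ⟨CP, hCP, HP⟩ := Cl_bnd (Vrc_P hk1)
  refine ⟨48 * B ^ 2 * (1 + η) * (5 * C1 + 2 * CP ^ 2), by positivity, ?_⟩
  intro ρ hS p q ε hρp hp' hq hq' hε
  obtain ⟨hB16, hρ, h4⟩ := id hS
  have hBpos : 0 < B := by linarith
  have hp : 0 < p := by linarith
  have hpa : |p| ≤ 1 := by rw [abs_le]; constructor <;> linarith
  have hqa : |q| ≤ 1 := by rw [abs_le]; constructor <;> linarith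
  have hp2 : |p| ≤ 2 := by linarith
  have hq2 : |q| ≤ 2 := by linarith
  have hW : Cl (-(2 * ρ)) (2 * ρ + 1 / B) (deriv (om B ρ)) := Cl_der (Cl_om hBpos ρ)
  have hWp : ∀ y, 0 < deriv (om B ρ) y := om1_pos hS
  have hW2 : ∀ y, δ * |deriv (deriv (deriv (om B ρ))) y| ≤ deriv (om B ρ) y / 4 := by
    intro y
    have h1 := om3_le hS y
    have h2 : 8 / B ^ 2 ≤ 1 := by
      rw [div_le_one (by positivity)]
      nlinarith
    have h3 : |deriv (deriv (deriv (om B ρ))) y| ≤ deriv (om B ρ) y := by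
      calc |deriv (deriv (deriv (om B ρ))) y| ≤ 8 / B ^ 2 * deriv (om B ρ) y := h1
        _ ≤ 1 * deriv (om B ρ) y := mul_le_mul_of_nonneg_right h2 (hWp y).le
        _ = _ := one_mul _
    calc δ * |deriv (deriv (deriv (om B ρ))) y| ≤ 1 / 16 * deriv (om B ρ) y :=
          mul_le_mul hδ' h3 (abs_nonneg _) (by norm_num)
      _ ≤ deriv (om B ρ) y / 4 := by nlinarith [hWp y]
  have hBinv : 0 < 1 / B := by positivity
  have hc1 : 0 < 2 * p + -(2 * ρ) := by linarith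
  have hc2 : 0 < 2 * q + (2 * ρ + 1 / B) := by linarith
  set v : ℝ → ℝ := vf k δ ε with hv
  have hvC : Cl p q v := Cl_vf hk1 hδ hδ' hp2 hq2 hε
  have hv1 : Cl p q (deriv v) := Cl_der hvC
  have hsv : Cl p q (Sm δ v) := Cl_Sm hδ hδ' hp2 hq2 hvC
  set g : ℝ → ℝ := fun z => -2 * ε z + 2 * (Qf k z ^ k * ε z)
          + z * (deriv (fun z => Qf k z ^ k) z * ε z) with hg
  have hgC : Cl p q g := Vrc_g hk1 hε
  have hsg : Cl p q (Sm δ g) := Cl_Sm hδ hδ' hp2 hq2 hgC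
  have hε1 := Cl_der hε
  -- the weighted integrals
  have Iv := Vrc_int2 hW hvC hc1 hc2
  have Iv1 := Vrc_int2 hW hv1 hc1 hc2
  have Isv := Vrc_int2 hW hsv hc1 hc2
  have Isg := Vrc_int2 hW hsg hc1 hc2
  have Ig := Vrc_int2 hW hgC hc1 hc2
  have Ie := Vrc_int2 hW hε hc1 hc2
  have Ie1 := Vrc_int2 hW hε1 hc1 hc2
  have E1 : ∫ y, deriv (om B ρ) y * ((v y) ^ 2 + (deriv v y) ^ 2) ≤
      C1 * ∫ y, deriv (om B ρ) y * ((ε y) ^ 2 + (deriv ε y) ^ 2) :=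
    H1 p q _ _ ε _ hp2 hq2 hε hW hWp hW2 hc1 hc2
  have E2 := (Sm_wt hδ hδ' hp2 hq2 hvC hW hWp hW2 hc1 hc2).1
  have E3 := (Sm_wt hδ hδ' hp2 hq2 hgC hW hWp hW2 hc1 hc2).1
  have E4 : ∫ y, deriv (om B ρ) y * (g y) ^ 2 ≤ CP ^ 2 * ∫ y, deriv (om B ρ) y * (ε y) ^ 2 := by
    rw [← integral_const_mul]
    refine integral_mono Ig (Ie.const_mul _) ?_
    intro y
    have h1 : |-2 + 2 * Qf k y ^ k + y * deriv (fun z => Qf k z ^ k) y| ≤ CP := by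
      have := HP y
      rwa [bd_zero, mul_one] at this
    have h2 : g y = (-2 + 2 * Qf k y ^ k + y * deriv (fun z => Qf k z ^ k) y) * ε y := by
      simp only [hg]; ring
    have h3 : (g y) ^ 2 ≤ CP ^ 2 * (ε y) ^ 2 := by
      rw [h2, mul_pow]
      refine mul_le_mul_of_nonneg_right ?_ (sq_nonneg _)
      rw [← sq_abs]
      exact pow_le_pow_left₀ (abs_nonneg _) h1 2
    calc deriv (om B ρ) y * (g y) ^ 2 ≤ deriv (om B ρ) y * (CP ^ 2 * (ε y) ^ 2) :=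
          mul_le_mul_of_nonneg_left h3 (hWp y).le
      _ = CP ^ 2 * (deriv (om B ρ) y * (ε y) ^ 2) := by ring
  have E5 : ∫ y, deriv (om B ρ) y * (ε y) ^ 2 ≤
      ∫ y, deriv (om B ρ) y * ((ε y) ^ 2 + (deriv ε y) ^ 2) := by
    refine integral_mono Ie ?_ ?_
    · refine (Ie.add Ie1).congr ?_
      filter_upwards with y
      simp only [Pi.add_apply]
      ring
    · intro y
      have := hWp y
      have h2 : 0 ≤ deriv (om B ρ) y * (deriv ε y) ^ 2 := by positivity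
      show deriv (om B ρ) y * (ε y) ^ 2 ≤ deriv (om B ρ) y * ((ε y) ^ 2 + (deriv ε y) ^ 2)
      (first | linarith only [h2] | nlinarith only [h2])
  have Ivv : Integrable (fun y => deriv (om B ρ) y * ((v y) ^ 2 + (deriv v y) ^ 2)) := by
    refine (Iv.add Iv1).congr ?_
    filter_upwards with y
    simp only [Pi.add_apply]
    ring
  have E6 : ∫ y, deriv (om B ρ) y * (v y) ^ 2 ≤
      ∫ y, deriv (om B ρ) y * ((v y) ^ 2 + (deriv v y) ^ 2) := by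
    refine integral_mono Iv Ivv ?_
    intro y
    have := hWp y
    have h2 : 0 ≤ deriv (om B ρ) y * (deriv v y) ^ 2 := by positivity
    show deriv (om B ρ) y * (v y) ^ 2 ≤ deriv (om B ρ) y * ((v y) ^ 2 + (deriv v y) ^ 2)
    (first | linarith only [h2] | nlinarith only [h2])
  -- pointwise bound
  have hPt : ∀ y, |Psi k η γ B y * (v y * vf k δ (Lam k ε) y)| ≤
      48 * B ^ 2 * (1 + η) * (3 * (deriv (om B ρ) y * ((v y) ^ 2 + (deriv v y) ^ 2))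
        + deriv (om B ρ) y * (Sm δ v y) ^ 2 + deriv (om B ρ) y * (Sm δ g y) ^ 2) := by
    intro y
    have hF := vf_Lam k hk1 hδ hδ' hpa hqa hε y
    have hF' : vf k δ (Lam k ε) y = Lam k v y + 2 * Sm δ v y + Sm δ g y := hF
    exact Vrc_pt k hk hη hS (L := Lam k v y) rfl rfl (by rw [hF'])
  have Ibd : Integrable (fun y => 48 * B ^ 2 * (1 + η) * (3 * (deriv (om B ρ) y *
        ((v y) ^ 2 + (deriv v y) ^ 2))
        + deriv (om B ρ) y * (Sm δ v y) ^ 2 + deriv (om B ρ) y * (Sm δ g y) ^ 2)) :=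
    (((Ivv.const_mul 3).add Isv).add Isg).const_mul _
  have F1 : |∫ y, Psi k η γ B y * (v y * vf k δ (Lam k ε) y)| ≤
      ∫ y, 48 * B ^ 2 * (1 + η) * (3 * (deriv (om B ρ) y *
        ((v y) ^ 2 + (deriv v y) ^ 2))
        + deriv (om B ρ) y * (Sm δ v y) ^ 2 + deriv (om B ρ) y * (Sm δ g y) ^ 2) := by
    have := norm_integral_le_of_norm_le (μ := volume)
      (f := fun y => Psi k η γ B y * (v y * vf k δ (Lam k ε) y)) Ibd
      (by filter_upwards with y; rw [Real.norm_eq_abs]; exact hPt y)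
    rwa [Real.norm_eq_abs] at this
  have F2 : (∫ y, 48 * B ^ 2 * (1 + η) * (3 * (deriv (om B ρ) y *
        ((v y) ^ 2 + (deriv v y) ^ 2))
        + deriv (om B ρ) y * (Sm δ v y) ^ 2 + deriv (om B ρ) y * (Sm δ g y) ^ 2)) =
      48 * B ^ 2 * (1 + η) * (3 * (∫ y, deriv (om B ρ) y * ((v y) ^ 2 + (deriv v y) ^ 2))
        + (∫ y, deriv (om B ρ) y * (Sm δ v y) ^ 2) + ∫ y, deriv (om B ρ) y * (Sm δ g y) ^ 2) := by
    rw [integral_const_mul]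
    congr 1
    have hI1 : Integrable (fun y => 3 * (deriv (om B ρ) y * ((v y) ^ 2 + (deriv v y) ^ 2))) :=
      Ivv.const_mul 3
    have hI2 : Integrable (fun y => 3 * (deriv (om B ρ) y * ((v y) ^ 2 + (deriv v y) ^ 2))
        + deriv (om B ρ) y * (Sm δ v y) ^ 2) := hI1.add Isv
    have e1 := integral_add hI2 Isg
    have e2 := integral_add hI1 Isv
    have e3 : ∫ y, 3 * (deriv (om B ρ) y * ((v y) ^ 2 + (deriv v y) ^ 2)) =
        3 * ∫ y, deriv (om B ρ) y * ((v y) ^ 2 + (deriv v y) ^ 2) := integral_const_mul _ _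
    rw [e1, e2, e3]
  have hT0 : 0 ≤ ∫ y, deriv (om B ρ) y * ((ε y) ^ 2 + (deriv ε y) ^ 2) := by
    refine integral_nonneg ?_
    intro y
    have := hWp y
    show 0 ≤ deriv (om B ρ) y * ((ε y) ^ 2 + (deriv ε y) ^ 2)
    positivity
  set T := ∫ y, deriv (om B ρ) y * ((ε y) ^ 2 + (deriv ε y) ^ 2) with hT
  have F3 : 3 * (∫ y, deriv (om B ρ) y * ((v y) ^ 2 + (deriv v y) ^ 2))
        + (∫ y, deriv (om B ρ) y * (Sm δ v y) ^ 2) + (∫ y, deriv (om B ρ) y * (Sm δ g y) ^ 2)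
      ≤ (5 * C1 + 2 * CP ^ 2) * T := by
    have G1 : (∫ y, deriv (om B ρ) y * (Sm δ v y) ^ 2) ≤ 4 / 3 * (C1 * T) := by linarith
    have G2 : (∫ y, deriv (om B ρ) y * (g y) ^ 2) ≤ CP ^ 2 * T := by
      have := mul_le_mul_of_nonneg_left E5 (sq_nonneg CP)
      linarith
    have G3 : (∫ y, deriv (om B ρ) y * (Sm δ g y) ^ 2) ≤ 4 / 3 * (CP ^ 2 * T) := by linarith
    have G4 : 0 ≤ C1 * T := by positivity
    have G5 : 0 ≤ CP ^ 2 * T := by positivity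
    (first | linarith only [E1, E2, E3, E6, G2, G4, G5] | nlinarith only [E1, E2, E3, E6, G2, G4, G5])
  calc |∫ y, Psi k η γ B y * (v y * vf k δ (Lam k ε) y)| ≤ _ := F1
    _ = _ := F2
    _ ≤ 48 * B ^ 2 * (1 + η) * ((5 * C1 + 2 * CP ^ 2) * T) :=
        mul_le_mul_of_nonneg_left F3 (by positivity)
    _ = 48 * B ^ 2 * (1 + η) * (5 * C1 + 2 * CP ^ 2) * T := by ring

end H98KB

end S_H98_KB_Vrc
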