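import Mathlib
import Pool.Agent.H98.BU.G02
import Pool.Agent.H98.BU.G05
import Pool.Agent.H98.BU.G07
import Pool.Agent.H98.BU.G09

/-! Blow-up for `u_t + u^k u_x + u_xxx - u_xx = 0`, part G15: this file joins several modules
to save build time (`Pool/Agent/H98/{KB,KC}`, `H72/{KB,KC}`, `H68/KC`, `H37/{KB,KC}`). -/

section S_H98_KC_Coe

/-!
# Coe (MP_95be7d_S4): coercivity of `L` with the constraints `Q, Q', ρ` (uses `L_coer`, `ip_L` of `KB/Coc`, `KB/Cob`)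

`n₀ = ΛQ` (class `Cl c c` for `c < 1`), `φ₀ = ph0 4`.  `L ΛQ = -2Q`, `Lφ₀ = -μφ₀`, `μ = 8` (`L_ph0`), so `μ(ΛQ,φ₀) = -(ΛQ,Lφ₀) = -(LΛQ,φ₀) = 2(Q,φ₀) > 0`;
`(LΛQ,ΛQ) = -2(Q,ΛQ) = 0` (`ip_LamQ_Q`, `sc 4 = 0`); `(ΛQ,Q') = 0`; `(ΛQ,ρ) ≠ 0` (`ip_LamQrho`).
For `f ∈ Cl p q` put `c = -(f,φ₀)/(ΛQ,φ₀)`, `g = f + cΛQ` (class `Cl (min p (1/2)) (min q (1/2))`).  Then `(g,φ₀) = 0`, `(g,Q') = (f,Q')`,
`(Lg,g) = (Lf,f)+2c(f,LΛQ)+c²(LΛQ,ΛQ) = (Lf,f)-4c(f,Q)`.  `L_coer`: `c₀|g|²_{H¹} ≤ (Lf,f)-4c(f,Q)+C(f,Q')²`.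
`c(ΛQ,ρ) = (g,ρ)-(f,ρ)`, so `|c| ≤ C(|g|_{L²}+|(f,ρ)|)` and `|f|_{H¹} ≤ |g|_{H¹}+|c||ΛQ|_{H¹} ≤ C(|g|_{H¹}+|(f,ρ)|)`, also `|c| ≤ C|f|_{L²}`.
`|f|²_{H¹} ≤ C(|g|²_{H¹}+(f,ρ)²) ≤ C((Lf,f) + |c||(f,Q)| + (f,Q')²+(f,ρ)²)`, `C|c||(f,Q)| ≤ C|f||(f,Q)| ≤ (1/2)|f|²+C(f,Q)²`.
(`(Lf,f) = ∫(f'²+f²-Q⁴f²)`: `ip_L`.)  Use the auxiliary lemmas `Coc_*` of `KB/Coc.lean`.
-/

open MeasureTheory Filter Topology Set
open scoped ContDiff

noncomputable section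

namespace H98KC

open H98KB H68KC

theorem Coe_k : 1 ≤ 4 := by norm_num

theorem Coe_Cn : Cl (1 / 2) (1 / 2) (Lam 4 (Qf 4)) := Cl_LamQ Coe_k (by norm_num)

theorem Coe_Cph : Cl 3 3 (ph0 4) := Cl_mono (Cl_ph0 Coe_k) (by norm_num) (by norm_num)

/-- Cauchy-Schwarz, squared -/
theorem Coe_cs {p q p' q' : ℝ} {f g : ℝ → ℝ} (hp : 0 < p) (hq : 0 < q) (hf : Cl p q f)
    (hp' : 0 < p') (hq' : 0 < q') (hg : Cl p' q' g) :
    (ip f g) ^ 2 ≤ (∫ y, (f y) ^ 2) * ∫ y, (g y) ^ 2 := by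
  have h6 := (cs_int (Cl_cont hf) (Cl_cont hg) (Coc_X hp hq hf) (Coc_X hp' hq' hg)).2
  have h7 : |ip f g| ≤ √(∫ y, (f y) ^ 2) * √(∫ y, (g y) ^ 2) := h6
  have h9 := pow_le_pow_left₀ (abs_nonneg _) h7 2
  rw [sq_abs, mul_pow, Real.sq_sqrt (integral_nonneg fun y => sq_nonneg _),
    Real.sq_sqrt (integral_nonneg fun y => sq_nonneg _)] at h9
  exact h9

theorem Coe_Qph : 0 < ip (Qf 4) (ph0 4) := by
  unfold ip
  have hi : Integrable (fun y => Qf 4 y * ph0 4 y) :=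
    Cl_int (Cl_mul (Cl_Qf Coe_k) Coe_Cph) (by norm_num) (by norm_num)
  have h0 : (0 : ℝ → ℝ) ≤ fun y => Qf 4 y * ph0 4 y := fun y =>
    (mul_pos (Qf_pos 4 y) (ph0_pos 4 y)).le
  rw [integral_pos_iff_support_of_nonneg h0 hi]
  have hs : Function.support (fun y => Qf 4 y * ph0 4 y) = univ := by
    ext y
    simp only [Function.mem_support, mem_univ, iff_true]
    exact (mul_pos (Qf_pos 4 y) (ph0_pos 4 y)).ne'
  rw [hs]
  simp

theorem Coe_nph : 0 < ip (Lam 4 (Qf 4)) (ph0 4) := by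
  have h1 := Lop_symm Coe_k Coe_Cn Coe_Cph (by norm_num) (by norm_num)
  have e1 : ip (Lop 4 (Lam 4 (Qf 4))) (ph0 4) = -2 * ip (Qf 4) (ph0 4) := by
    unfold ip
    rw [← integral_const_mul]
    congr 1
    funext y
    rw [L_LamQ Coe_k]
    ring
  have e2 : ip (Lam 4 (Qf 4)) (Lop 4 (ph0 4)) = -8 * ip (Lam 4 (Qf 4)) (ph0 4) := by
    unfold ip
    rw [← integral_const_mul]
    congr 1
    funext y
    rw [L_ph0 Coe_k]
    push_cast
    ring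
  rw [e1, e2] at h1
  have := Coe_Qph
  linarith

theorem Coe_nQ : ip (Lam 4 (Qf 4)) (Qf 4) = 0 := by
  rw [ip_LamQ_Q Coe_k]
  have : sc 4 = 0 := by unfold sc; norm_num
  rw [this]
  simp

/-- the elementary inequalities -/
theorem Coe_arith {c₀ C₀ A K s B F G v w z c : ℝ} (hc₀ : 0 < c₀) (hC₀ : 0 < C₀) (hA : 0 < A)
    (hK : 0 < K) (hs : s = c₀ / (2 * A * K)) (hv : 0 ≤ v) (hz : 0 ≤ z)
    (h1 : c₀ * G ≤ B - 4 * c * w + C₀ * v) (h2 : F ≤ A * (G + z)) (h3 : c ^ 2 ≤ K * F) :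
    c₀ / (2 * A) * F ≤ B + (4 / s + C₀ + c₀) * (w ^ 2 + v + z) := by
  have hs0 : 0 < s := by rw [hs]; positivity
  have e1 : s * K = c₀ / (2 * A) := by
    rw [hs]
    field_simp
  have e2 : c₀ / A * F ≤ c₀ * G + c₀ * z := by
    rw [div_mul_eq_mul_div, div_le_iff₀ hA]
    nlinarith
  have e3 : -4 * c * w ≤ s * c ^ 2 + 4 / s * w ^ 2 := by
    have h5 : s * c ^ 2 + 4 / s * w ^ 2 + 4 * c * w = 1 / s * (s * c + 2 * w) ^ 2 := by
      field_simp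
      ring
    have h6 : 0 ≤ 1 / s * (s * c + 2 * w) ^ 2 := by positivity
    linarith
  have e4 : s * c ^ 2 ≤ c₀ / (2 * A) * F := by
    rw [← e1, mul_assoc]
    exact mul_le_mul_of_nonneg_left h3 hs0.le
  have e5 : c₀ / A * F = c₀ / (2 * A) * F + c₀ / (2 * A) * F := by
    field_simp
    ring
  have h4s : 0 < 4 / s := by positivity
  have hw : 0 ≤ w ^ 2 := sq_nonneg w
  have e6 : 4 / s * w ^ 2 + C₀ * v + c₀ * z ≤ (4 / s + C₀ + c₀) * (w ^ 2 + v + z) := by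
    nlinarith [mul_nonneg h4s.le hv, mul_nonneg h4s.le hz, mul_nonneg hC₀.le hw,
      mul_nonneg hC₀.le hz, mul_nonneg hc₀.le hw, mul_nonneg hc₀.le hv]
  linarith

theorem L_coer4 : ∃ c C : ℝ, 0 < c ∧ 0 < C ∧ ∀ (p q : ℝ) (f : ℝ → ℝ), 0 < p → 0 < q → Cl p q f →
    c * ∫ y, ((f y) ^ 2 + (deriv f y) ^ 2) ≤
      (∫ y, ((deriv f y) ^ 2 + (f y) ^ 2 - Qf 4 y ^ 4 * (f y) ^ 2))
        + C * ((ip f (Qf 4)) ^ 2 + (ip f (deriv (Qf 4))) ^ 2 + (ip f rho) ^ 2) := by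
  obtain ⟨c₀, C₀, hc₀, hC₀, hco⟩ := L_coer 4 (by norm_num)
  have hk := Coe_k
  have hn := Coe_Cn
  have hd := Coe_nph
  have hr : 0 < ip (Lam 4 (Qf 4)) rho := by
    rw [ip_LamQrho]
    have := Qd2_pos Coe_k
    positivity
  obtain ⟨n, hne⟩ : ∃ n : ℝ → ℝ, n = Lam 4 (Qf 4) := ⟨_, rfl⟩
  have hnQ := Coe_nQ
  have hnQd := ip_LamQ_Qd Coe_k
  have hLn : Lop 4 n = fun y => -2 * Qf 4 y := by
    funext y
    rw [hne, L_LamQ Coe_k]
  rw [← hne] at hn hd hr hnQ hnQd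
  obtain ⟨d, hde⟩ : ∃ d : ℝ, d = ip n (ph0 4) := ⟨_, rfl⟩
  obtain ⟨r, hre⟩ : ∃ r : ℝ, r = ip n rho := ⟨_, rfl⟩
  obtain ⟨N, hNe⟩ : ∃ N : ℝ, N = ∫ y, ((n y) ^ 2 + (deriv n y) ^ 2) := ⟨_, rfl⟩
  obtain ⟨R, hRe⟩ : ∃ R : ℝ, R = ∫ y, (rho y) ^ 2 := ⟨_, rfl⟩
  obtain ⟨Φ, hΦe⟩ : ∃ Φ : ℝ, Φ = ∫ y, (ph0 4 y) ^ 2 := ⟨_, rfl⟩
  have hN : 0 ≤ N := by
    rw [hNe]
    exact integral_nonneg fun y => by positivity
  have hR : 0 ≤ R := by
    rw [hRe]
    exact integral_nonneg fun y => by positivity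
  have hΦ : 0 < Φ := by
    have := Coc_N0 (k := 4) (by norm_num)
    rwa [Coc_sq, ← hΦe] at this
  rw [← hde] at hd
  rw [← hre] at hr
  obtain ⟨A, hAe⟩ : ∃ A : ℝ, A = 2 + 4 * N * (R + 1) / r ^ 2 := ⟨_, rfl⟩
  have hA : 0 < A := by rw [hAe]; positivity
  obtain ⟨K, hKe⟩ : ∃ K : ℝ, K = Φ / d ^ 2 := ⟨_, rfl⟩
  have hK : 0 < K := by rw [hKe]; positivity
  obtain ⟨s, hse⟩ : ∃ s : ℝ, s = c₀ / (2 * A * K) := ⟨_, rfl⟩
  have hs : 0 < s := by rw [hse]; positivity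
  refine ⟨c₀ / (2 * A), 4 / s + C₀ + c₀, by positivity, by positivity, ?_⟩
  intro p₀ q₀ f hp₀ hq₀ hf₀
  obtain ⟨p, hpe⟩ : ∃ p : ℝ, p = min p₀ (1 / 2) := ⟨_, rfl⟩
  obtain ⟨q, hqe⟩ : ∃ q : ℝ, q = min q₀ (1 / 2) := ⟨_, rfl⟩
  have hp : 0 < p := by rw [hpe]; exact lt_min hp₀ (by norm_num)
  have hq : 0 < q := by rw [hqe]; exact lt_min hq₀ (by norm_num)
  have hp2 : p ≤ 1 / 2 := by rw [hpe]; exact min_le_right _ _
  have hq2 : q ≤ 1 / 2 := by rw [hqe]; exact min_le_right _ _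
  have hf : Cl p q f := Cl_mono hf₀ (by rw [hpe]; exact min_le_left _ _)
    (by rw [hqe]; exact min_le_left _ _)
  have hn' : Cl p q n := Cl_mono hn hp2 hq2
  have hφ : Cl p q (ph0 4) := Cl_mono Coe_Cph (by linarith) (by linarith)
  have hψ : Cl p q (deriv (Qf 4)) := Cl_mono (Cl_der (Cl_Qf hk)) (by linarith) (by linarith)
  have hQ : Cl p q (Qf 4) := Cl_mono (Cl_Qf hk) (by linarith) (by linarith)
  have hρ : Cl p q rho := Cl_mono rho_cl (by linarith) (by linarith)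
  obtain ⟨c, hce⟩ : ∃ c : ℝ, c = -(ip f (ph0 4)) / d := ⟨_, rfl⟩
  obtain ⟨g, hge⟩ : ∃ g : ℝ → ℝ, g = fun y => f y + c * n y := ⟨_, rfl⟩
  have hg : Cl p q g := by rw [hge]; exact Cl_add hf (Cl_smul c hn')
  have hip : ∀ h : ℝ → ℝ, Cl p q h → ip g h = ip f h + c * ip n h := by
    intro h hh
    rw [hge]
    exact Coc_add c hp hq hf hn' hh
  have g1 : ip g (ph0 4) = 0 := by
    rw [hip _ hφ, ← hde, hce]
    field_simp
    ring
  have g2 : ip g (deriv (Qf 4)) = ip f (deriv (Qf 4)) := by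
    rw [hip _ hψ, hnQd]
    ring
  have g3 : ip g rho = ip f rho + c * r := by rw [hip _ hρ, hre]
  have g4 : ip g (Qf 4) = ip f (Qf 4) := by
    rw [hip _ hQ, hnQ]
    ring
  have hLf := Cl_Lop hk hf
  have g5 : ip (Lop 4 g) g = ip (Lop 4 f) f - 4 * c * ip f (Qf 4) := by
    have e1 : Lop 4 g = fun y => Lop 4 f y + (-2 * c) * Qf 4 y := by
      rw [hge, Coc_lop c hf hn', hLn]
      funext y
      ring
    have e2 : ip (Lop 4 f) g = ip (Lop 4 f) f - 2 * c * ip f (Qf 4) := by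
      rw [Coc_comm, hip _ hLf, Coc_comm f (Lop 4 f), ← Lop_symm hk hn' hf (by linarith) (by linarith),
        hLn]
      have e3 : ip (fun y => -2 * Qf 4 y) f = -2 * ip f (Qf 4) := by
        unfold ip
        rw [← integral_const_mul]
        congr 1
        funext y
        ring
      rw [e3]
      ring
    rw [e1, Coc_add (-2 * c) hp hq hLf hQ hg, e2, Coc_comm (Qf 4) g, g4]
    ring
  have h1 := hco p q g hp hq hg
  rw [← ip_L hk hp hq hg, g5, g1, g2] at h1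
  rw [← ip_L hk hp hq hf]
  have iX : ∀ h : ℝ → ℝ, Cl p q h → Integrable (fun y => (h y) ^ 2 + (deriv h y) ^ 2) :=
    fun h hh => (Coc_X hp hq hh).add (Coc_X hp hq (Cl_der hh))
  -- `F ≤ 2 G + 2 c² N`
  have h2 : ∫ y, ((f y) ^ 2 + (deriv f y) ^ 2) ≤
      2 * (∫ y, ((g y) ^ 2 + (deriv g y) ^ 2)) + 2 * c ^ 2 * N := by
    rw [hNe, ← integral_const_mul, ← integral_const_mul, ← integral_add
      ((iX g hg).const_mul _) ((iX n hn').const_mul _)]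
    refine integral_mono (iX f hf) (((iX g hg).const_mul _).add ((iX n hn').const_mul _)) fun y => ?_
    have d1 : deriv g y = deriv f y + c * deriv n y := by
      rw [hge]
      exact ((Cl_hd hf y).add ((Cl_hd hn' y).const_mul c)).deriv
    have d2 : g y = f y + c * n y := by rw [hge]
    show f y ^ 2 + deriv f y ^ 2 ≤ 2 * (g y ^ 2 + deriv g y ^ 2) +
      2 * c ^ 2 * (n y ^ 2 + deriv n y ^ 2)
    rw [d1, d2]
    nlinarith [sq_nonneg (f y + 2 * (c * n y)), sq_nonneg (deriv f y + 2 * (c * deriv n y))]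
  have hgG : ∫ y, (g y) ^ 2 ≤ ∫ y, ((g y) ^ 2 + (deriv g y) ^ 2) :=
    integral_mono (Coc_X hp hq hg) (iX g hg) fun y => by
      show g y ^ 2 ≤ g y ^ 2 + deriv g y ^ 2
      nlinarith [sq_nonneg (deriv g y)]
  have hfF : ∫ y, (f y) ^ 2 ≤ ∫ y, ((f y) ^ 2 + (deriv f y) ^ 2) :=
    integral_mono (Coc_X hp hq hf) (iX f hf) fun y => by
      show f y ^ 2 ≤ f y ^ 2 + deriv f y ^ 2
      nlinarith [sq_nonneg (deriv f y)]
  have h3 := Coe_cs hp hq hg hp hq hρ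
  have h4 := Coe_cs hp hq hf hp hq hφ
  rw [← hRe] at h3
  rw [← hΦe] at h4
  rw [g3] at h3
  have hG0 : 0 ≤ ∫ y, ((g y) ^ 2 + (deriv g y) ^ 2) := integral_nonneg fun y => by positivity
  have hcd : c * d = -(ip f (ph0 4)) := by
    rw [hce]
    field_simp
  generalize (∫ y, ((f y) ^ 2 + (deriv f y) ^ 2)) = F at *
  generalize (∫ y, ((g y) ^ 2 + (deriv g y) ^ 2)) = G at *
  generalize (∫ y, (g y) ^ 2) = g0 at *
  generalize (∫ y, (f y) ^ 2) = f0 at *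
  have h5 : c ^ 2 * r ^ 2 ≤ 2 * R * G + 2 * (ip f rho) ^ 2 := by
    have h6 : (ip f rho + c * r) ^ 2 ≤ G * R :=
      h3.trans (mul_le_mul_of_nonneg_right hgG hR)
    nlinarith [sq_nonneg (2 * ip f rho + c * r)]
  have h7 : F ≤ A * (G + (ip f rho) ^ 2) := by
    have hz : 0 ≤ (ip f rho) ^ 2 := sq_nonneg _
    have h8 : c ^ 2 ≤ (2 * R * G + 2 * (ip f rho) ^ 2) / r ^ 2 := by
      rw [le_div_iff₀ (by positivity)]
      exact h5
    have h9 : (2 * R * G + 2 * (ip f rho) ^ 2) / r ^ 2 ≤ 2 * (R + 1) / r ^ 2 * (G + (ip f rho) ^ 2) := by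
      rw [div_mul_eq_mul_div]
      refine div_le_div_of_nonneg_right ?_ (by positivity)
      nlinarith [mul_nonneg hR hz]
    have h10 : 2 * c ^ 2 * N ≤ 2 * (2 * (R + 1) / r ^ 2 * (G + (ip f rho) ^ 2)) * N := by
      refine mul_le_mul_of_nonneg_right ?_ hN
      linarith [h8.trans h9]
    have h11 : A * (G + (ip f rho) ^ 2) = 2 * (G + (ip f rho) ^ 2) +
        2 * (2 * (R + 1) / r ^ 2 * (G + (ip f rho) ^ 2)) * N := by
      rw [hAe]
      ring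
    rw [h11]
    linarith
  have h12 : c ^ 2 ≤ K * F := by
    have h13 : c ^ 2 * d ^ 2 ≤ Φ * F := by
      have h14 : c ^ 2 * d ^ 2 = (ip f (ph0 4)) ^ 2 := by
        rw [← mul_pow, hcd]
        ring
      rw [h14, mul_comm Φ F]
      exact h4.trans (mul_le_mul_of_nonneg_right hfF hΦ.le)
    rw [hKe, div_mul_eq_mul_div, le_div_iff₀ (by positivity)]
    exact h13
  have h1' : c₀ * G ≤ ip (Lop 4 f) f - 4 * c * ip f (Qf 4) + C₀ * (ip f (deriv (Qf 4))) ^ 2 := by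
    nlinarith
  exact Coe_arith hc₀ hC₀ hA hK hse (sq_nonneg _) (sq_nonneg _) h1' h7 h12

end H98KC

end

end S_H98_KC_Coe

section S_H98_KC_Cof

/-!
# Cof (MP_95be7d_S4): coercivity of the energy `E4` (variant of `CO_E` in `KB/Cos.lean`; uses the statements `L_coer4`, `Wza`, `Wzb`)

`r = √om4` (smooth, positive, class `Cl s (s+1/(2B))`), `F = rε ∈ Cl s (s+1/(2B))`.  `h = r'/r = om4'/(2om4) = (1/2)((1-Th)/B + s Z'/Z)`, `|Z'| ≤ 2Z`, so `|h| ≤ 1/B`.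
`E4 = (1/2)∫om(ε'²+ε²-Q⁴ε²) - ∫om(bF-(1/2)Q⁴ε²)`, second integral `≤ Cν∫omε²` (`bF_cub`).
`r ε' = F' - hF`: `omε'² ≥ (1-1/B)F'² - (C/B)F²` so `∫om(ε'²+ε²-Q⁴ε²) ≥ ∫(F'²+F²-Q⁴F²) - (C/B)∫(F²+F'²)`.
`L_coer4` for `F`.  For `φ ∈ {Q, Q', ρ}` (class `Cl 1 1`): `ip F φ = r(0) ip ε φ + ∫ F (1-r(0)/r) φ`, `|1-r(0)/r(y)| ≤ (|y|/B) e^{|y|/B}` (because `|(log r)'| ≤ 1/B`:
`r e^{y/B}` is nondecreasing and `r e^{-y/B}` is nonincreasing), so `|ip F φ - r(0) ip ε φ| ≤ (C/B)|F|_{L²}`.  `r(0) ≤ 1`.  `∫(F²+F'²) ≥ (1/2)∫om(ε²+ε'²)`.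
Take `B ≥ B₁` large, `ν` small.  In `KB/Cos.lean` the weight is monotone; here use the two monotone functions above.  `Cos_w_int`, `Cos_exp_le`, `Cos_pt`, `Cos_bd_half` are reusable.
-/

open MeasureTheory Filter Topology Set
open scoped ContDiff

noncomputable section

namespace H98KC

open H98KB H68KC

variable {B s : ℝ}

/-- the square root of the weight -/
def Cof_r (B s y : ℝ) : ℝ := √(om4 B s y)

/-- logarithmic derivative of `Cof_r` -/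
def Cof_h (B s y : ℝ) : ℝ := (1 - Th B y) / (2 * B) - s * Real.tanh (s * y - 2)

theorem Cof_r_pos (B s y : ℝ) : 0 < Cof_r B s y := Real.sqrt_pos.2 (om4_pos B s y)

theorem Cof_r_sq (B s y : ℝ) : Cof_r B s y ^ 2 = om4 B s y := Real.sq_sqrt (om4_pos B s y).le

theorem Cof_r_hd (hB : 0 < B) (s y : ℝ) :
    HasDerivAt (Cof_r B s) (Cof_h B s y * Cof_r B s y) y := by
  have h1 := (Wza_h1 hB s y).sqrt (om4_pos B s y).ne'
  have h2 : Cof_r B s = fun y => √(om4 B s y) := rfl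
  rw [h2]
  refine h1.congr_deriv ?_
  have h3 : √(om4 B s y) ≠ 0 := (Cof_r_pos B s y).ne'
  have h4 : (1 / B * (Th B y * (1 - Th B y)) - 2 * s * (Real.tanh (s * y - 2) * Th B y)) *
      Zf (s * y) = 2 * Cof_h B s y * om4 B s y := by
    unfold om4 Cof_h
    field_simp
  have h5 : om4 B s y = √(om4 B s y) * √(om4 B s y) := (Real.mul_self_sqrt (om4_pos B s y).le).symm
  rw [h4, div_eq_iff (by positivity)]
  nth_rewrite 1 [h5]
  ring

theorem Cof_h_le (h : Slow4 B s) (y : ℝ) : |Cof_h B s y| ≤ 1 / B := by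
  obtain ⟨hB, hs, hsB⟩ := Wza_s h
  obtain ⟨t1, t2, -⟩ := Wza_abs (tanh_abs_lt (s * y - 2))
  have h1 := Th_pos B y
  have h2 := Th_lt_one B y
  unfold Cof_h
  have e : (1 - Th B y) / (2 * B) = (1 - Th B y) / 2 * (1 / B) := by
    field_simp
  rw [e]
  obtain ⟨β, hβ⟩ : ∃ β, β = 1 / B := ⟨_, rfl⟩
  rw [← hβ] at hsB ⊢
  have hβ0 : 0 < β := by rw [hβ]; positivity
  have a1 : 0 ≤ (1 - Th B y) / 2 * β := mul_nonneg (by linarith) hβ0.le
  have a2 : (1 - Th B y) / 2 * β ≤ 1 / 2 * β := mul_le_mul_of_nonneg_right (by linarith) hβ0.le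
  have a3 : s * Real.tanh (s * y - 2) ≤ s * 1 := mul_le_mul_of_nonneg_left t2.le hs.le
  have a4 : s * (-1) ≤ s * Real.tanh (s * y - 2) := mul_le_mul_of_nonneg_left t1.le hs.le
  rw [abs_le]
  constructor <;> linarith

theorem Cof_Cl_h (hB : 0 < B) (hs : 0 < s) : Cl 0 0 (Cof_h B s) := by
  have h1 : Cl 0 0 (Th B) := Cl_mono (Cl_Th hB) le_rfl (by positivity)
  have h3 := Wza_tr (Cl_tanh s) (2 / s)
  have h2 := Cl_sub (Cl_sub (Cl_const (1 / (2 * B))) (Cl_smul (1 / (2 * B)) h1)) (Cl_smul s h3)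
  have e : Cof_h B s = fun y => 1 / (2 * B) - 1 / (2 * B) * Th B y
      - s * Real.tanh (s * (y - 2 / s)) := by
    funext y
    unfold Cof_h
    have e1 : s * (y - 2 / s) = s * y - 2 := by
      field_simp
    rw [e1]
    ring
  rw [e]
  exact h2

theorem Cof_smooth (h : Slow4 B s) : ContDiff ℝ ∞ (Cof_r B s) :=
  (Cl_om4 h).1.sqrt (fun y => (om4_pos B s y).ne')

theorem Cof_iter (hB : 0 < B) (hs : 0 < s) (j : ℕ) :
    ∃ P : ℝ → ℝ, Cl 0 0 P ∧ ∀ y, iteratedDeriv j (Cof_r B s) y = P y * Cof_r B s y := by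
  induction j with
  | zero => exact ⟨fun _ => 1, Cl_const 1, fun y => by simp⟩
  | succ j ih =>
    obtain ⟨P, hP, hj⟩ := ih
    refine ⟨fun y => deriv P y + P y * Cof_h B s y, Cl_add (Cl_der hP)
      (Cl_mul0 hP (Cof_Cl_h hB hs)), fun y => ?_⟩
    rw [iteratedDeriv_succ]
    have e : iteratedDeriv j (Cof_r B s) = fun y => P y * Cof_r B s y := funext hj
    rw [e]
    have h := ((Cl_hd hP y).mul (Cof_r_hd hB s y)).deriv
    have h' : deriv (fun y => P y * Cof_r B s y) y =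
        deriv P y * Cof_r B s y + P y * (Cof_h B s y * Cof_r B s y) := h
    rw [h']
    ring

theorem Cof_Cl_r (h : Slow4 B s) : Cl s s (Cof_r B s) := by
  obtain ⟨hB, hs, hsB⟩ := Wza_s h
  refine ⟨Cof_smooth h, fun j => ?_⟩
  obtain ⟨P, hP, hj⟩ := Cof_iter hB hs j
  obtain ⟨A, hA0, hA⟩ := Cl_bnd hP
  obtain ⟨D, hD0, hD⟩ := Cl_bnd (Cl_mono (Cl_om4 h) (p' := 2 * s) (q' := 2 * s) le_rfl
    (by have : 0 < 1 / B := by positivity
        linarith))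
  refine ⟨A * √D, fun y => ?_⟩
  rw [hj, abs_mul, mul_assoc]
  have h1 : |P y| ≤ A := by
    have := hA y
    rwa [bd_zero, mul_one] at this
  have h2 : |Cof_r B s y| ≤ √D * bd s s y := by
    have e1 : bd s s y = √(bd (2 * s) (2 * s) y) := by
      rw [Cos_bd_half]
      congr 1 <;> ring
    rw [abs_of_pos (Cof_r_pos B s y), e1, ← Real.sqrt_mul hD0]
    exact Real.sqrt_le_sqrt ((le_abs_self _).trans (hD y))
  exact mul_le_mul h1 h2 (abs_nonneg _) hA0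

theorem Cof_anti (h : Slow4 B s) :
    Antitone (fun y => Real.exp (-(1 / B * y)) * Cof_r B s y) := by
  obtain ⟨hB, hs, hsB⟩ := Wza_s h
  have hd : ∀ y, HasDerivAt (fun y => Real.exp (-(1 / B * y)) * Cof_r B s y)
      (Real.exp (-(1 / B * y)) * (-(1 / B)) * Cof_r B s y +
        Real.exp (-(1 / B * y)) * (Cof_h B s y * Cof_r B s y)) y := by
    intro y
    have h1 : HasDerivAt (fun y : ℝ => -(1 / B * y)) (-(1 / B)) y := by
      have h0 := ((hasDerivAt_id y).const_mul (1 / B)).neg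
      rw [mul_one] at h0
      exact h0
    exact h1.exp.mul (Cof_r_hd hB s y)
  refine antitone_of_deriv_nonpos (fun y => (hd y).differentiableAt) (fun y => ?_)
  rw [(hd y).deriv]
  have h1 := (abs_le.1 (Cof_h_le h y)).2
  have h2 : 0 ≤ Real.exp (-(1 / B * y)) * Cof_r B s y :=
    mul_nonneg (Real.exp_pos _).le (Cof_r_pos B s y).le
  nlinarith

theorem Cof_mono (h : Slow4 B s) :
    Monotone (fun y => Real.exp (1 / B * y) * Cof_r B s y) := by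
  obtain ⟨hB, hs, hsB⟩ := Wza_s h
  have hd : ∀ y, HasDerivAt (fun y => Real.exp (1 / B * y) * Cof_r B s y)
      (Real.exp (1 / B * y) * (1 / B) * Cof_r B s y +
        Real.exp (1 / B * y) * (Cof_h B s y * Cof_r B s y)) y := by
    intro y
    have h1 : HasDerivAt (fun y : ℝ => 1 / B * y) (1 / B) y := by
      have h0 := (hasDerivAt_id y).const_mul (1 / B)
      rw [mul_one] at h0
      exact h0
    exact h1.exp.mul (Cof_r_hd hB s y)
  refine monotone_of_deriv_nonneg (fun y => (hd y).differentiableAt) (fun y => ?_)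
  rw [(hd y).deriv]
  have h1 := (abs_le.1 (Cof_h_le h y)).1
  have h2 : 0 ≤ Real.exp (1 / B * y) * Cof_r B s y :=
    mul_nonneg (Real.exp_pos _).le (Cof_r_pos B s y).le
  nlinarith

theorem Cof_rat (h : Slow4 B s) (y : ℝ) :
    Real.exp (-(1 / B * |y|)) ≤ Cof_r B s 0 / Cof_r B s y ∧
    Cof_r B s 0 / Cof_r B s y ≤ Real.exp (1 / B * |y|) := by
  have hr := Cof_r_pos B s y
  have e0 : Real.exp (-(1 / B * 0)) * Cof_r B s 0 = Cof_r B s 0 := by simp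
  have e1 : Real.exp (1 / B * 0) * Cof_r B s 0 = Cof_r B s 0 := by simp
  rcases le_total 0 y with hy | hy
  · have m2 : Real.exp (-(1 / B * y)) * Cof_r B s y ≤ Real.exp (-(1 / B * 0)) * Cof_r B s 0 :=
      Cof_anti h hy
    have m3 : Real.exp (1 / B * 0) * Cof_r B s 0 ≤ Real.exp (1 / B * y) * Cof_r B s y :=
      Cof_mono h hy
    rw [e0] at m2
    rw [e1] at m3
    rw [abs_of_nonneg hy]
    exact ⟨(le_div_iff₀ hr).2 m2, (div_le_iff₀ hr).2 m3⟩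
  · have m2 : Real.exp (-(1 / B * 0)) * Cof_r B s 0 ≤ Real.exp (-(1 / B * y)) * Cof_r B s y :=
      Cof_anti h hy
    have m3 : Real.exp (1 / B * y) * Cof_r B s y ≤ Real.exp (1 / B * 0) * Cof_r B s 0 :=
      Cof_mono h hy
    rw [e0] at m2
    rw [e1] at m3
    rw [abs_of_nonpos hy]
    have e2 : -(1 / B * -y) = 1 / B * y := by ring
    have e3 : 1 / B * -y = -(1 / B * y) := by ring
    rw [e2, e3]
    exact ⟨(le_div_iff₀ hr).2 m3, (div_le_iff₀ hr).2 m2⟩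

theorem Cof_ratio (h : Slow4 B s) (y : ℝ) :
    |1 - Cof_r B s 0 / Cof_r B s y| ≤ 1 / B * (|y| * Real.exp (|y| / 16)) := by
  obtain ⟨hB, hs, hsB⟩ := Wza_s h
  obtain ⟨q1, q2⟩ := Cof_rat h y
  have hexp : Real.exp (1 / B * |y|) ≤ Real.exp (|y| / 16) := by
    refine Real.exp_le_exp.2 ?_
    have h1 : 1 / B ≤ 1 / 16 := one_div_le_one_div_of_le (by norm_num) h.1
    have := mul_le_mul_of_nonneg_right h1 (abs_nonneg y)
    linarith
  have hy0 : 0 ≤ |y| := abs_nonneg y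
  have hBi : 0 < 1 / B := by positivity
  have key : 1 / B * |y| * Real.exp (1 / B * |y|) ≤ 1 / B * (|y| * Real.exp (|y| / 16)) := by
    rw [mul_assoc]
    exact mul_le_mul_of_nonneg_left (mul_le_mul_of_nonneg_left hexp hy0) hBi.le
  refine le_trans ?_ key
  have h3 := Real.add_one_le_exp (-(1 / B * |y|))
  have h4 : 1 ≤ Real.exp (1 / B * |y|) := Real.one_le_exp (by positivity)
  have h5 : 0 ≤ 1 / B * |y| := by positivity
  have h6 := Cos_exp_le (1 / B * |y|)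
  have h7 : 1 / B * |y| ≤ 1 / B * |y| * Real.exp (1 / B * |y|) := by nlinarith
  rw [abs_le]
  constructor <;> linarith

/-- change of the test function -/
theorem Cof_ip {φ : ℝ → ℝ} (hφ : Cl 1 1 φ) : ∃ K : ℝ, 0 ≤ K ∧ ∀ B s : ℝ, Slow4 B s →
    ∀ ε : ℝ → ℝ, Cl 0 0 ε →
    (ip (fun y => Cof_r B s y * ε y) φ) ^ 2 ≤
      (ip ε φ) ^ 2 + K / B * ∫ y, (Cof_r B s y * ε y) ^ 2 := by
  obtain ⟨A, hA0, hA⟩ := Cl_bnd hφ
  refine ⟨2 * (A ^ 2 * ∫ y, (|y| * Real.exp (|y| / 16) * bd 1 1 y) ^ 2), ?_, ?_⟩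
  · have : 0 ≤ ∫ y, (|y| * Real.exp (|y| / 16) * bd 1 1 y) ^ 2 :=
      integral_nonneg (fun y => sq_nonneg _)
    positivity
  intro B s h ε hcl
  obtain ⟨hB, hs, hsB⟩ := Wza_s h
  have hBi : 0 < 1 / B := by positivity
  have hF := Cl_mul (Cof_Cl_r h) hcl
  set F : ℝ → ℝ := fun y => Cof_r B s y * ε y with hFdef
  have hFφ := Cl_int (Cl_mul hF hφ) (by linarith) (by linarith)
  have hεφ := Cl_int (Cl_mul hcl hφ) (by linarith) (by linarith)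
  have hF2 : Integrable (fun y => F y ^ 2) := by
    have := Cl_int (Cl_mul hF hF) (by linarith) (by linarith)
    refine this.congr (Eventually.of_forall fun y => ?_)
    show F y * F y = F y ^ 2
    ring
  set G : ℝ → ℝ := fun y => φ y * (1 - Cof_r B s 0 / Cof_r B s y) with hG
  have hGc : Continuous G := by
    refine (Cl_cont hφ).mul (continuous_const.sub (continuous_const.div ?_ ?_))
    · exact (Cof_smooth h).continuous
    · exact fun y => (Cof_r_pos B s y).ne'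
  have hGle : ∀ y, G y ^ 2 ≤ (1 / B) ^ 2 * (A ^ 2 * (|y| * Real.exp (|y| / 16) * bd 1 1 y) ^ 2) := by
    intro y
    have h1 : |G y| ≤ 1 / B * (A * (|y| * Real.exp (|y| / 16) * bd 1 1 y)) := by
      rw [hG]
      show |φ y * (1 - Cof_r B s 0 / Cof_r B s y)| ≤ _
      rw [abs_mul]
      calc |φ y| * |1 - Cof_r B s 0 / Cof_r B s y| ≤
            (A * bd 1 1 y) * (1 / B * (|y| * Real.exp (|y| / 16))) :=
            mul_le_mul (hA y) (Cof_ratio h y) (abs_nonneg _) (mul_nonneg hA0 (bd_pos _ _ _).le)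
        _ = 1 / B * (A * (|y| * Real.exp (|y| / 16) * bd 1 1 y)) := by ring
    calc G y ^ 2 = |G y| ^ 2 := (sq_abs _).symm
      _ ≤ (1 / B * (A * (|y| * Real.exp (|y| / 16) * bd 1 1 y))) ^ 2 :=
          pow_le_pow_left₀ (abs_nonneg _) h1 2
      _ = (1 / B) ^ 2 * (A ^ 2 * (|y| * Real.exp (|y| / 16) * bd 1 1 y) ^ 2) := by ring
  have hWi : Integrable (fun y : ℝ => (1 / B) ^ 2 *
      (A ^ 2 * (|y| * Real.exp (|y| / 16) * bd 1 1 y) ^ 2)) :=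
    (Cos_w_int.const_mul (A ^ 2)).const_mul ((1 / B) ^ 2)
  have hG2 : Integrable (fun y => G y ^ 2) := by
    refine hWi.mono' (hGc.pow 2).aestronglyMeasurable (Eventually.of_forall fun y => ?_)
    rw [Real.norm_eq_abs, abs_of_nonneg (sq_nonneg _)]
    exact hGle y
  have hG2le : ∫ y, G y ^ 2 ≤ (1 / B) ^ 2 *
      (A ^ 2 * ∫ y, (|y| * Real.exp (|y| / 16) * bd 1 1 y) ^ 2) := by
    refine (integral_mono hG2 hWi hGle).trans (le_of_eq ?_)
    rw [integral_const_mul, integral_const_mul]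
  obtain ⟨-, hcs⟩ := cs_int (Cl_cont hF) hGc hF2 hG2
  have hdiff : ip F φ - Cof_r B s 0 * ip ε φ = ∫ y, F y * G y := by
    unfold ip
    rw [← integral_const_mul, ← integral_sub hFφ (hεφ.const_mul _)]
    refine integral_congr_ae (Eventually.of_forall fun y => ?_)
    show F y * φ y - Cof_r B s 0 * (ε y * φ y) = F y * (φ y * (1 - Cof_r B s 0 / Cof_r B s y))
    rw [hFdef]
    have hr := (Cof_r_pos B s y).ne'
    show Cof_r B s y * ε y * φ y - Cof_r B s 0 * (ε y * φ y) =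
      Cof_r B s y * ε y * (φ y * (1 - Cof_r B s 0 / Cof_r B s y))
    field_simp
  have hr0 : Cof_r B s 0 ^ 2 ≤ 1 / 2 := by
    rw [Cof_r_sq]
    unfold om4
    have e1 : Th B 0 = 1 / 2 := by
      unfold Th
      norm_num
    rw [e1]
    have := Zf_le_one (s * 0)
    linarith
  have hsq : (ip F φ - Cof_r B s 0 * ip ε φ) ^ 2 ≤ (∫ y, F y ^ 2) * ∫ y, G y ^ 2 := by
    rw [hdiff, ← sq_abs]
    calc |∫ y, F y * G y| ^ 2 ≤ (√(∫ y, F y ^ 2) * √(∫ y, G y ^ 2)) ^ 2 :=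
          pow_le_pow_left₀ (abs_nonneg _) hcs 2
      _ = (∫ y, F y ^ 2) * ∫ y, G y ^ 2 := by
          rw [mul_pow, Real.sq_sqrt (integral_nonneg fun y => sq_nonneg _),
            Real.sq_sqrt (integral_nonneg fun y => sq_nonneg _)]
  have hF0 : 0 ≤ ∫ y, F y ^ 2 := integral_nonneg fun y => sq_nonneg _
  have hW0 : 0 ≤ A ^ 2 * ∫ y, (|y| * Real.exp (|y| / 16) * bd 1 1 y) ^ 2 :=
    mul_nonneg (sq_nonneg _) (integral_nonneg fun y => sq_nonneg _)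
  set W := A ^ 2 * ∫ y, (|y| * Real.exp (|y| / 16) * bd 1 1 y) ^ 2 with hWdef
  have hB2 : (1 / B) ^ 2 ≤ 1 / B := by
    have : 1 / B ≤ 1 := by
      rw [div_le_one hB]
      linarith [h.1]
    nlinarith
  have h9 : (∫ y, F y ^ 2) * ∫ y, G y ^ 2 ≤ 1 / B * W * ∫ y, F y ^ 2 := by
    have : ∫ y, G y ^ 2 ≤ 1 / B * W := hG2le.trans (mul_le_mul_of_nonneg_right hB2 hW0)
    nlinarith
  have h10 : (ip F φ) ^ 2 ≤ 2 * (Cof_r B s 0 * ip ε φ) ^ 2 +
      2 * (ip F φ - Cof_r B s 0 * ip ε φ) ^ 2 := by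
    nlinarith [sq_nonneg (ip F φ - 2 * (Cof_r B s 0 * ip ε φ))]
  have h11 : (Cof_r B s 0 * ip ε φ) ^ 2 ≤ 1 / 2 * (ip ε φ) ^ 2 := by
    rw [mul_pow]
    exact mul_le_mul_of_nonneg_right hr0 (sq_nonneg _)
  have h12 : 2 * W / B * ∫ y, F y ^ 2 = 2 * (1 / B * W * ∫ y, F y ^ 2) := by ring
  show (ip F φ) ^ 2 ≤ (ip ε φ) ^ 2 + 2 * W / B * ∫ y, F y ^ 2
  rw [h12]
  linarith

theorem Cof_pt {δ a u v : ℝ} (hδ : 0 < δ) (ha : |a| ≤ δ) (hδ1 : δ ≤ 1) :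
    (1 - δ) * u ^ 2 - δ * v ^ 2 ≤ (u - a * v) ^ 2 := by
  rcases le_total 0 a with h | h
  · rw [abs_of_nonneg h] at ha
    exact Cos_pt hδ h ha hδ1
  · rw [abs_of_nonpos h] at ha
    have h1 := Cos_pt (u := u) (v := -v) hδ (by linarith : 0 ≤ -a) ha hδ1
    have e1 : u - -a * -v = u - a * v := by ring
    have e2 : (-v) ^ 2 = v ^ 2 := by ring
    rw [e1, e2] at h1
    exact h1

theorem CO_E4 : ∃ ν c C B₁ : ℝ, 0 < ν ∧ ν ≤ 1 ∧ 0 < c ∧ 0 < C ∧ 16 ≤ B₁ ∧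
    ∀ B s : ℝ, Slow4 B s → B₁ ≤ B → ∀ ε : ℝ → ℝ, Cl 0 0 ε → (∀ y, |ε y| ≤ ν) →
    c * G4 B s ε ≤ E4 B s ε
      + C * ((ip ε (Qf 4)) ^ 2 + (ip ε (deriv (Qf 4))) ^ 2 + (ip ε rho) ^ 2) := by
  obtain ⟨c0, C0', hc0, hC0', hco⟩ := L_coer4
  obtain ⟨C1, hC1, hcub⟩ := bF_cub 4 (by norm_num)
  have hk1 : 1 ≤ 4 := by norm_num
  have cQ : Cl 1 1 (Qf 4) := Cl_Qf hk1
  have crho : Cl 1 1 rho := Cl_mono rho_cl (by norm_num) (by norm_num)
  obtain ⟨K1, hK1, hip1⟩ := Cof_ip cQ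
  obtain ⟨K2, hK2, hip2⟩ := Cof_ip (Cl_der cQ)
  obtain ⟨K3, hK3, hip3⟩ := Cof_ip crho
  have hν0 : 0 < c0 / (8 * C1) := by positivity
  refine ⟨min 1 (c0 / (8 * C1)), c0 / 16, C0', 16 + 4 * C0' * (K1 + K2 + K3) / c0 + 4 / c0,
    lt_min one_pos hν0, min_le_left _ _, by positivity, hC0', ?_, ?_⟩
  · have : 0 ≤ 4 * C0' * (K1 + K2 + K3) / c0 := by positivity
    have : 0 ≤ 4 / c0 := by positivity
    linarith
  intro B s h hB1 ε hcl hεν
  obtain ⟨hB, hs, hsB⟩ := Wza_s h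
  have hBi : 0 < 1 / B := by positivity
  have hBi1 : 1 / B ≤ 1 := by
    rw [div_le_one hB]
    linarith [h.1]
  have hF := Cl_mul (Cof_Cl_r h) hcl
  have hs' : 0 < s + 0 := by linarith
  have hcoF := hco _ _ _ hs' hs' hF
  have hi1 := hip1 B s h ε hcl
  have hi2 := hip2 B s h ε hcl
  have hi3 := hip3 B s h ε hcl
  set F : ℝ → ℝ := fun y => Cof_r B s y * ε y with hFdef
  have hFd : ∀ y, deriv F y = Cof_r B s y * deriv ε y + Cof_h B s y * F y := by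
    intro y
    have := ((Cof_r_hd hB s y).mul (Cl_hd hcl y)).deriv
    have h' : deriv F y = Cof_h B s y * Cof_r B s y * ε y + Cof_r B s y * deriv ε y := this
    rw [h']
    show _ = Cof_r B s y * deriv ε y + Cof_h B s y * (Cof_r B s y * ε y)
    ring
  have hF2 : Integrable (fun y => F y ^ 2) := by
    refine (Cl_int (Cl_mul hF hF) (by linarith) (by linarith)).congr
      (Eventually.of_forall fun y => ?_)
    show F y * F y = F y ^ 2
    ring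
  have hFd2 : Integrable (fun y => deriv F y ^ 2) := by
    refine (Cl_int (Cl_mul (Cl_der hF) (Cl_der hF)) (by linarith) (by linarith)).congr
      (Eventually.of_forall fun y => ?_)
    show deriv F y * deriv F y = deriv F y ^ 2
    ring
  have hQF : Integrable (fun y => Qf 4 y ^ 4 * F y ^ 2) := by
    have hq := Cl_pow0 (Cl_mono cQ (p' := 0) (q' := 0) zero_le_one zero_le_one) 4
    refine (Cl_int (Cl_mul hq (Cl_mul hF hF)) (by linarith) (by linarith)).congr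
      (Eventually.of_forall fun y => ?_)
    show Qf 4 y ^ 4 * (F y * F y) = Qf 4 y ^ 4 * F y ^ 2
    ring
  have hL : Integrable (fun y => om4 B s y * ((deriv ε y) ^ 2 + (ε y) ^ 2 - 2 * bF 4 ε y)) := by
    have h1 := Cl_mul (Cl_der hcl) (Cl_der hcl)
    have h2 := Cl_mul hcl hcl
    have h3 : Cl (0 + 0) (0 + 0) (bF 4 ε) :=
      Cl_mono (Cl_bF hk1 le_rfl le_rfl zero_le_one zero_le_one hcl)
        (by linarith) (by linarith)
    have h4 := Cl_mul (Cl_om4 h) (Cl_sub (Cl_add h1 h2) (Cl_smul 2 h3))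
    refine (Cl_int h4 (by linarith) (by linarith)).congr (Eventually.of_forall fun y => ?_)
    show om4 B s y * (deriv ε y * deriv ε y + ε y * ε y - 2 * bF 4 ε y) = _
    ring
  have hGi : Integrable (fun y => om4 B s y * ((ε y) ^ 2 + (deriv ε y) ^ 2)) := by
    have h1 := Cl_mul (Cl_der hcl) (Cl_der hcl)
    have h2 := Cl_mul hcl hcl
    have h4 := Cl_mul (Cl_om4 h) (Cl_add h2 h1)
    refine (Cl_int h4 (by linarith) (by linarith)).congr (Eventually.of_forall fun y => ?_)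
    show om4 B s y * (ε y * ε y + deriv ε y * deriv ε y) = _
    ring
  set ν := min 1 (c0 / (8 * C1)) with hν
  have hν1 : ν ≤ 1 := min_le_left _ _
  have hν2 : C1 * ν ≤ c0 / 8 := by
    have : ν ≤ c0 / (8 * C1) := min_le_right _ _
    calc C1 * ν ≤ C1 * (c0 / (8 * C1)) := mul_le_mul_of_nonneg_left this hC1.le
      _ = c0 / 8 := by
        field_simp
  have hFsq : ∀ y, om4 B s y * (ε y) ^ 2 = F y ^ 2 := by
    intro y
    show om4 B s y * (ε y) ^ 2 = (Cof_r B s y * ε y) ^ 2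
    rw [mul_pow, Cof_r_sq]
  have hFdsq : ∀ y, om4 B s y * (deriv ε y) ^ 2 = (deriv F y - Cof_h B s y * F y) ^ 2 := by
    intro y
    rw [hFd y, ← Cof_r_sq]
    ring
  -- pointwise lower bound
  have hpt : ∀ y, (deriv F y) ^ 2 + (F y) ^ 2 - Qf 4 y ^ 4 * (F y) ^ 2
      - (1 / B * ((F y) ^ 2 + (deriv F y) ^ 2) + 2 * (C1 * ν) * (F y) ^ 2) ≤
      om4 B s y * ((deriv ε y) ^ 2 + (ε y) ^ 2 - 2 * bF 4 ε y) := by
    intro y
    have h1 := Cof_pt (δ := 1 / B) (a := Cof_h B s y) (u := deriv F y) (v := F y) hBi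
      (Cof_h_le h y) hBi1
    have h2 := hcub ε y ((hεν y).trans hν1)
    have h3 : |ε y| ^ 3 ≤ ν * (ε y) ^ 2 := by
      have : |ε y| ^ 3 = |ε y| * (ε y) ^ 2 := by
        rw [← sq_abs (ε y)]
        ring
      rw [this]
      exact mul_le_mul_of_nonneg_right (hεν y) (sq_nonneg _)
    have h4 : bF 4 ε y - 1 / 2 * (Qf 4 y ^ 4 * (ε y) ^ 2) ≤ C1 * ν * (ε y) ^ 2 := by
      refine (le_abs_self _).trans (h2.trans ?_)
      rw [mul_assoc]
      exact mul_le_mul_of_nonneg_left h3 hC1.le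
    have h5 := mul_le_mul_of_nonneg_left h4 (om4_pos B s y).le
    have e1 : om4 B s y * ((deriv ε y) ^ 2 + (ε y) ^ 2 - 2 * bF 4 ε y) =
        om4 B s y * (deriv ε y) ^ 2 + om4 B s y * (ε y) ^ 2
          - Qf 4 y ^ 4 * (om4 B s y * (ε y) ^ 2)
          - 2 * (om4 B s y * (bF 4 ε y - 1 / 2 * (Qf 4 y ^ 4 * (ε y) ^ 2))) := by ring
    have e2 : om4 B s y * (C1 * ν * (ε y) ^ 2) = C1 * ν * (om4 B s y * (ε y) ^ 2) := by ring
    rw [e2] at h5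
    rw [e1, hFdsq, hFsq]
    rw [hFsq] at h5
    linarith
  have hint := integral_mono (((hFd2.add hF2).sub hQF).sub
    (((hF2.add hFd2).const_mul (1 / B)).add (hF2.const_mul (2 * (C1 * ν))))) hL hpt
  have e3 : ∫ y, ((deriv F y) ^ 2 + (F y) ^ 2 - Qf 4 y ^ 4 * (F y) ^ 2
      - (1 / B * ((F y) ^ 2 + (deriv F y) ^ 2) + 2 * (C1 * ν) * (F y) ^ 2)) =
      (∫ y, ((deriv F y) ^ 2 + (F y) ^ 2 - Qf 4 y ^ 4 * (F y) ^ 2))
      - (1 / B * (∫ y, ((F y) ^ 2 + (deriv F y) ^ 2)) + 2 * (C1 * ν) * ∫ y, (F y) ^ 2) := by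
    have gA : Integrable (fun y => (deriv F y) ^ 2 + (F y) ^ 2 - Qf 4 y ^ 4 * (F y) ^ 2) :=
      (hFd2.add hF2).sub hQF
    have gB : Integrable (fun y => 1 / B * ((F y) ^ 2 + (deriv F y) ^ 2)) :=
      (hF2.add hFd2).const_mul (1 / B)
    have gC : Integrable (fun y => 2 * (C1 * ν) * (F y) ^ 2) := hF2.const_mul _
    have gS : Integrable (fun y => 1 / B * ((F y) ^ 2 + (deriv F y) ^ 2)
        + 2 * (C1 * ν) * (F y) ^ 2) := gB.add gC
    rw [integral_sub gA gS, integral_add gB gC, integral_const_mul, integral_const_mul]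
  have hint' : (∫ y, ((deriv F y) ^ 2 + (F y) ^ 2 - Qf 4 y ^ 4 * (F y) ^ 2))
      - (1 / B * (∫ y, ((F y) ^ 2 + (deriv F y) ^ 2)) + 2 * (C1 * ν) * ∫ y, (F y) ^ 2) ≤
      ∫ y, om4 B s y * ((deriv ε y) ^ 2 + (ε y) ^ 2 - 2 * bF 4 ε y) := by
    rw [← e3]
    exact hint
  have hN2 : ∫ y, (F y) ^ 2 ≤ ∫ y, ((F y) ^ 2 + (deriv F y) ^ 2) :=
    integral_mono hF2 (hF2.add hFd2) (fun y => by
      show F y ^ 2 ≤ F y ^ 2 + deriv F y ^ 2
      linarith [sq_nonneg (deriv F y)])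
  have hN20 : 0 ≤ ∫ y, (F y) ^ 2 := integral_nonneg fun y => sq_nonneg _
  have hG : G4 B s ε ≤ 2 * ∫ y, ((F y) ^ 2 + (deriv F y) ^ 2) := by
    unfold G4
    rw [← integral_const_mul]
    refine integral_mono hGi ((hF2.add hFd2).const_mul 2) (fun y => ?_)
    show om4 B s y * ((ε y) ^ 2 + (deriv ε y) ^ 2) ≤ 2 * (F y ^ 2 + deriv F y ^ 2)
    rw [mul_add, hFsq, hFdsq]
    have h2 : |Cof_h B s y| ≤ 1 / 16 :=
      (Cof_h_le h y).trans (one_div_le_one_div_of_le (by norm_num) h.1)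
    have h3 : Cof_h B s y ^ 2 ≤ 1 / 256 := by
      rw [← sq_abs]
      have := abs_nonneg (Cof_h B s y)
      (first | linarith only [h2, hBi1, hs, hsB, this] | nlinarith only [h2, hBi1, hs, hsB, this])
    have h4 : Cof_h B s y ^ 2 * F y ^ 2 ≤ 1 / 256 * F y ^ 2 :=
      mul_le_mul_of_nonneg_right h3 (sq_nonneg _)
    (first | linarith only [sq_nonneg (deriv F y + Cof_h B s y * F y), sq_nonneg (F y), h4] | nlinarith only [sq_nonneg (deriv F y + Cof_h B s y * F y), sq_nonneg (F y), h4])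
  set N := ∫ y, ((F y) ^ 2 + (deriv F y) ^ 2) with hNdef
  set N2 := ∫ y, (F y) ^ 2 with hN2def
  set I1 := (ip ε (Qf 4)) ^ 2 with hI1
  set I2 := (ip ε (deriv (Qf 4))) ^ 2 with hI2
  set I3 := (ip ε rho) ^ 2 with hI3
  have hE : E4 B s ε = 1 / 2 * ∫ y, om4 B s y * ((deriv ε y) ^ 2 + (ε y) ^ 2 - 2 * bF 4 ε y) := rfl
  have hI0 : 0 ≤ I1 + I2 + I3 := add_nonneg (add_nonneg (sq_nonneg _) (sq_nonneg _)) (sq_nonneg _)
  have hN0 : 0 ≤ N := hN20.trans hN2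
  -- smallness of the parameters
  have hb1 : C0' * ((K1 + K2 + K3) / B) ≤ c0 / 4 := by
    have h1 : 4 * C0' * (K1 + K2 + K3) / c0 ≤ B := by
      have : 0 ≤ 4 / c0 := by positivity
      linarith
    rw [div_le_iff₀ hc0] at h1
    rw [mul_div_assoc', div_le_iff₀ hB]
    linarith
  have hb2 : 1 / B ≤ c0 / 4 := by
    have h1 : 4 / c0 ≤ B := by
      have : 0 ≤ 4 * C0' * (K1 + K2 + K3) / c0 := by positivity
      linarith
    rw [div_le_iff₀ hc0] at h1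
    rw [div_le_iff₀ hB]
    linarith
  have hKN : (K1 + K2 + K3) / B * N2 ≤ (K1 + K2 + K3) / B * N :=
    mul_le_mul_of_nonneg_left hN2 (by positivity)
  have hs1 : C0' * ((K1 + K2 + K3) / B * N2) ≤ c0 / 4 * N := by
    calc C0' * ((K1 + K2 + K3) / B * N2) ≤ C0' * ((K1 + K2 + K3) / B * N) :=
          mul_le_mul_of_nonneg_left hKN hC0'.le
      _ = C0' * ((K1 + K2 + K3) / B) * N := by ring
      _ ≤ c0 / 4 * N := mul_le_mul_of_nonneg_right hb1 hN0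
  have hs2 : 1 / B * N ≤ c0 / 4 * N := mul_le_mul_of_nonneg_right hb2 hN0
  have hs3 : 2 * (C1 * ν) * N2 ≤ c0 / 4 * N := by
    have h1 : 2 * (C1 * ν) ≤ c0 / 4 := by linarith
    calc 2 * (C1 * ν) * N2 ≤ c0 / 4 * N2 := mul_le_mul_of_nonneg_right h1 hN20
      _ ≤ c0 / 4 * N := mul_le_mul_of_nonneg_left hN2 (by positivity)
  have hs4 : C0' * ((ip F (Qf 4)) ^ 2 + (ip F (deriv (Qf 4))) ^ 2 + (ip F rho) ^ 2) ≤
      C0' * (I1 + I2 + I3) + C0' * ((K1 + K2 + K3) / B * N2) := by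
    rw [← mul_add]
    refine mul_le_mul_of_nonneg_left ?_ hC0'.le
    have e5 : (K1 + K2 + K3) / B * N2 = K1 / B * N2 + K2 / B * N2 + K3 / B * N2 := by ring
    rw [e5]
    linarith
  have hC0I : 0 ≤ C0' * (I1 + I2 + I3) := mul_nonneg hC0'.le hI0
  rw [hE]
  have hfin : c0 / 16 * G4 B s ε ≤ c0 / 8 * N := by
    calc c0 / 16 * G4 B s ε ≤ c0 / 16 * (2 * N) := mul_le_mul_of_nonneg_left hG (by positivity)
      _ = c0 / 8 * N := by ring
  linarith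

end H98KC

end

end S_H98_KC_Cof
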