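import Mathlib
import Pool.Agent.H98.BU.G02
import Pool.Agent.H98.BU.G05
import Pool.Agent.H98.BU.G06

/-! Blow-up for `u_t + u^k u_x + u_xxx - u_xx = 0`, part G16: this file joins several modules
to save build time (`Pool/Agent/H98/{KB,KC}`, `H72/{KB,KC}`, `H68/KC`, `H37/{KB,KC}`). -/

section S_H68_KC_MOb

/-!
# Row MOb (MP_95be7d_K4): pairings are controlled by the local norm

`loc γ B y = se2 γ y * ch B y ≥ exp(-2|γ y|) * exp(-2|y/B|) ≥ exp(-(5/8)|y|)` for `γ ≤ 1/4`, `B ≥ 16`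
(`se2_lo`, `ch_eq'`).

## Proofs
* `ip_ln`: Cauchy-Schwarz with weight (`cs_wt` with `W = loc`, `φ = ψ`): `∫ ψ²/loc ≤ C ∫ e^{-|y|} e^{5|y|/8} < ∞`, and
  `∫ loc ε² ≤ ln` (`loc ε²`, `loc ε'²` integrable: `loc` has class `Cl (1/8)..`, it is `≤ 16 e^{-2γ|y|}`: `se2_hi`, `Tan`).
* `ln_dom`: `|ψ| ≤ C e^{-3|y|/4} ≤ C loc`.
* `e_ip`: `e = h + ε` (`ep_split`), `|h| ≤ C r⁴` by `b1`, `a1`, `cP`, `E_cl` (`c0`, `f0` are fixed numbers), so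
  `|ip h ψ| ≤ C r⁴ ∫ |ψ|`; `ip_ln` for `ε`.
* `e_sq`: `e² ≤ 2 h² + 2 ε²`, `ln_dom`.
* `R_ip`: `|Rf 4 e| ≤ C e²` (`R_le` with `|e| ≤ c ≤ 1`), `e_sq`.
* `et_ip`: Cauchy-Schwarz `cs_int`, `∫ et² ≤ ne2 et`.
-/

open MeasureTheory Filter Topology Set
open scoped ContDiff

noncomputable section

namespace H68KC

open H98KB

variable {P E : ℝ → ℝ} {γ B : ℝ}

theorem MOb_pos (γ B y : ℝ) : 0 < loc γ B y := by
  rw [loc, ch_eq']
  exact mul_pos (se2_pos _ _) (se2_pos _ _)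

theorem MOb_ch (hB : 0 < B) (y : ℝ) : Real.exp (-(2 * |y| / B)) ≤ ch B y := by
  rw [ch_eq']
  refine le_trans (le_of_eq ?_) (se2_lo _ _)
  rw [abs_mul, abs_of_pos (one_div_pos.2 hB)]
  congr 1
  ring

theorem loc_low (hγ : 0 < γ) (hγ1 : γ ≤ 1 / 4) (hB : 16 ≤ B) (y : ℝ) :
    Real.exp (-(5 / 8 * |y|)) ≤ loc γ B y := by
  have hB0 : 0 < B := by linarith
  have h1 := se2_lo γ y
  have h2 := MOb_ch hB0 y
  have h3 : Real.exp (-(5 / 8 * |y|)) ≤ Real.exp (-(2 * |γ * y|)) * Real.exp (-(2 * |y| / B)) := by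
    rw [← Real.exp_add]
    refine Real.exp_le_exp.2 ?_
    have hy := abs_nonneg y
    have e1 : |γ * y| ≤ 1 / 4 * |y| := by
      rw [abs_mul, abs_of_pos hγ]
      exact mul_le_mul_of_nonneg_right hγ1 hy
    have e2 : 2 * |y| / B ≤ 1 / 8 * |y| := by
      rw [div_le_iff₀ hB0]
      nlinarith
    linarith
  refine h3.trans ?_
  exact mul_le_mul h1 h2 (Real.exp_pos _).le (se2_pos γ y).le

theorem MOb_loc (hγ : 0 < γ) (hB : 16 ≤ B) : Cl (2 * γ + 2 / B) (2 * γ + 2 / B) (loc γ B) :=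
  Cl_mul (Cl_se2 hγ) (Cl_ch (by linarith))

theorem loc_int (hγ : 0 < γ) (hB : 16 ≤ B) {f : ℝ → ℝ} (hf : Cl 0 0 f) :
    Integrable (fun y => loc γ B y * f y) := by
  have hB0 : 0 < B := by linarith
  have hpos : 0 < 2 * γ + 2 / B + 0 := by positivity
  exact Cl_int (Cl_mul (MOb_loc hγ hB) hf) hpos hpos

theorem MOb_sq {ε : ℝ → ℝ} (hε : Cl 0 0 ε) : Cl 0 0 (fun y => (ε y) ^ 2) := Cl_pow0 hε 2

theorem MOb_le_ln (hγ : 0 < γ) (hB : 16 ≤ B) {ε : ℝ → ℝ} (hε : Cl 0 0 ε) :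
    (∫ y, loc γ B y * (ε y) ^ 2) ≤ ln γ B ε := by
  refine integral_mono (loc_int hγ hB (MOb_sq hε))
    (loc_int hγ hB (Cl_add (MOb_sq hε) (MOb_sq (Cl_der hε)))) (fun y => ?_)
  have h1 := (MOb_pos γ B y).le
  have h2 := sq_nonneg (deriv ε y)
  exact mul_le_mul_of_nonneg_left (by linarith) h1

theorem MOb_wt (hγ : 0 < γ) (hγ1 : γ ≤ 1 / 4) (hB : 16 ≤ B) {ψ : ℝ → ℝ}
    (hψ : Cl (1 / 2) (1 / 2) ψ) : Integrable (fun y => (ψ y) ^ 2 / loc γ B y) := by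
  obtain ⟨C, hC, hb⟩ := Cl_bnd hψ
  have hcont : Continuous (fun y => (ψ y) ^ 2 / loc γ B y) :=
    ((Cl_cont hψ).pow 2).div (Cl_cont (MOb_loc hγ hB)) (fun y => (MOb_pos γ B y).ne')
  refine Clb_int_of_bd (p := 3 / 8) (q := 3 / 8) hcont (by norm_num) (by norm_num) ⟨C ^ 2, fun y => ?_⟩
  have hl := loc_low hγ hγ1 hB y
  have hlp := MOb_pos γ B y
  rw [abs_of_nonneg (div_nonneg (sq_nonneg _) hlp.le), div_le_iff₀ hlp, bd_abs]
  have h1 : (ψ y) ^ 2 ≤ C ^ 2 * (Real.exp (-(1 / 2 * |y|))) ^ 2 := by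
    rw [← mul_pow, ← sq_abs (ψ y)]
    have := hb y
    rw [bd_abs] at this
    exact pow_le_pow_left₀ (abs_nonneg _) this 2
  have h2 : (Real.exp (-(1 / 2 * |y|))) ^ 2 =
      Real.exp (-(3 / 8 * |y|)) * Real.exp (-(5 / 8 * |y|)) := by
    rw [← Real.exp_nat_mul, ← Real.exp_add]
    congr 1
    push_cast
    ring
  rw [h2] at h1
  calc (ψ y) ^ 2 ≤ C ^ 2 * (Real.exp (-(3 / 8 * |y|)) * Real.exp (-(5 / 8 * |y|))) := h1
    _ = C ^ 2 * Real.exp (-(3 / 8 * |y|)) * Real.exp (-(5 / 8 * |y|)) := by ring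
    _ ≤ C ^ 2 * Real.exp (-(3 / 8 * |y|)) * loc γ B y :=
        mul_le_mul_of_nonneg_left hl (by positivity)

theorem ip_ln (hγ : 0 < γ) (hγ1 : γ ≤ 1 / 4) (hB : 16 ≤ B) {ψ : ℝ → ℝ} (hψ : Cl (1 / 2) (1 / 2) ψ) :
    ∃ C : ℝ, 0 ≤ C ∧ ∀ ε : ℝ → ℝ, Cl 0 0 ε → |ip ε ψ| ≤ C * √(ln γ B ε) := by
  refine ⟨√(∫ y, (ψ y) ^ 2 / loc γ B y), Real.sqrt_nonneg _, fun ε hε => ?_⟩
  have h := (cs_wt (Cl_cont hε) (Cl_cont hψ) (Cl_cont (MOb_loc hγ hB)) (MOb_pos γ B)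
    (loc_int hγ hB (MOb_sq hε)) (MOb_wt hγ hγ1 hB hψ)).2
  refine h.trans ?_
  exact mul_le_mul_of_nonneg_left (Real.sqrt_le_sqrt (MOb_le_ln hγ hB hε)) (Real.sqrt_nonneg _)

theorem ln_dom (hγ : 0 < γ) (hγ1 : γ ≤ 1 / 4) (hB : 16 ≤ B) {ψ : ℝ → ℝ} (hψ : Cl (3 / 4) (3 / 4) ψ) :
    ∃ C : ℝ, 0 ≤ C ∧ ∀ ε : ℝ → ℝ, Cl 0 0 ε → (∫ y, |ψ y| * (ε y) ^ 2) ≤ C * ln γ B ε := by
  obtain ⟨C, hC, hb⟩ := Cl_bnd hψ
  refine ⟨C, hC, fun ε hε => ?_⟩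
  have h1 : (∫ y, |ψ y| * (ε y) ^ 2) ≤ ∫ y, C * (loc γ B y * (ε y) ^ 2) := by
    refine integral_mono_of_nonneg (Eventually.of_forall fun y => by positivity)
      ((loc_int hγ hB (MOb_sq hε)).const_mul C) (Eventually.of_forall fun y => ?_)
    show |ψ y| * (ε y) ^ 2 ≤ C * (loc γ B y * (ε y) ^ 2)
    have h2 := hb y
    rw [bd_abs] at h2
    have h3 : Real.exp (-(3 / 4 * |y|)) ≤ loc γ B y := by
      refine le_trans ?_ (loc_low hγ hγ1 hB y)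
      refine Real.exp_le_exp.2 ?_
      have := abs_nonneg y
      linarith
    have h4 : |ψ y| ≤ C * loc γ B y := h2.trans (mul_le_mul_of_nonneg_left h3 hC)
    calc |ψ y| * (ε y) ^ 2 ≤ C * loc γ B y * (ε y) ^ 2 :=
          mul_le_mul_of_nonneg_right h4 (sq_nonneg _)
      _ = C * (loc γ B y * (ε y) ^ 2) := by ring
  rw [integral_const_mul] at h1
  exact h1.trans (mul_le_mul_of_nonneg_left (MOb_le_ln hγ hB hε) hC)

theorem h_le (hp : Prof P E) : ∃ C : ℝ, 0 ≤ C ∧ ∀ c Ca r w m W et,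
    Sit P E γ B c Ca r w m W et → ∀ y, |hf P E (bq (r ^ 2) W) (alf (r ^ 2) W) y| ≤ C * r ^ 4 := by
  obtain ⟨CP, hCP, hP⟩ := Cl_bnd hp.cP
  obtain ⟨CE, hCE, hE⟩ := Cl_bnd (E_cl hp)
  refine ⟨|5 * c0| * CP + (|f0| + 1) * CE, by positivity, fun c Ca r w m W et hS y => ?_⟩
  have hr : 0 < r ^ 4 := pow_pos hS.r0 4
  have h1 : |bq (r ^ 2) W| ≤ |5 * c0| * r ^ 4 :=
    hS.b1.trans (mul_le_mul_of_nonneg_right (le_abs_self _) hr.le)
  have h2 := hP y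
  have h3 := hE y
  rw [bd_zero, mul_one] at h2 h3
  have h4 : |bq (r ^ 2) W * P y| ≤ |5 * c0| * r ^ 4 * CP := by
    rw [abs_mul]
    exact mul_le_mul h1 h2 (abs_nonneg _) (by positivity)
  have h5 : |alf (r ^ 2) W * E y| ≤ (|f0| + 1) * r ^ 4 * CE := by
    rw [abs_mul]
    exact mul_le_mul hS.a1 h3 (abs_nonneg _) (by positivity)
  rw [hf]
  have h6 := abs_add_le (bq (r ^ 2) W * P y) (alf (r ^ 2) W * E y)
  nlinarith

theorem MOb_ep (hp : Prof P E) {c Ca r w m : ℝ} {W et : ℝ → ℝ}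
    (hS : Sit P E γ B c Ca r w m W et) : Cl 0 0 (ep P E (r ^ 2) W) := by
  obtain ⟨p, q, h1, -, h3, -, h5, -⟩ := hS.cl
  exact ep_cl hp h1.le h3.le h5

theorem MOb_e (c Ca r w m : ℝ) {W et : ℝ → ℝ}
    (hS : Sit P E γ B c Ca r w m W et) : Cl 0 0 (fun y => W y - Qf 4 y) := by
  obtain ⟨p, q, h1, -, h3, -, h5, -⟩ := hS.cl
  exact Cl_mono h5 h1.le h3.le

theorem e_ip (hp : Prof P E) (hγ : 0 < γ) (hγ1 : γ ≤ 1 / 4) (hB : 16 ≤ B) {ψ : ℝ → ℝ}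
    (hψ : Cl (1 / 2) (1 / 2) ψ) : ∃ C : ℝ, 0 ≤ C ∧ ∀ c Ca r w m W et,
    Sit P E γ B c Ca r w m W et → |ip (fun y => W y - Qf 4 y) ψ| ≤
      C * (r ^ 4 + √(ln γ B (ep P E (r ^ 2) W))) := by
  obtain ⟨C1, hC1, h1⟩ := h_le (γ := γ) (B := B) hp
  obtain ⟨C2, hC2, h2⟩ := ip_ln hγ hγ1 hB hψ
  have hI : 0 ≤ ∫ y, |ψ y| := integral_nonneg fun y => abs_nonneg _
  have hψi : Integrable ψ := Cl_int hψ (by norm_num) (by norm_num)
  refine ⟨C1 * (∫ y, |ψ y|) + C2, by positivity, fun c Ca r w m W et hS => ?_⟩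
  have hε := MOb_ep hp hS
  have hh := hf_cl hp (bq (r ^ 2) W) (alf (r ^ 2) W)
  have i1 : Integrable (fun y => hf P E (bq (r ^ 2) W) (alf (r ^ 2) W) y * ψ y) :=
    Cl_int (Cl_mul0 hh hψ) (by norm_num) (by norm_num)
  have i2 : Integrable (fun y => ep P E (r ^ 2) W y * ψ y) :=
    Cl_int (Cl_mul0 hε hψ) (by norm_num) (by norm_num)
  have e1 : ip (fun y => W y - Qf 4 y) ψ =
      (∫ y, hf P E (bq (r ^ 2) W) (alf (r ^ 2) W) y * ψ y) + ip (ep P E (r ^ 2) W) ψ := by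
    rw [ip, ip, ← integral_add i1 i2]
    refine integral_congr_ae (Eventually.of_forall fun y => ?_)
    simp only
    rw [ep_split P E (r ^ 2) W y]
    ring
  have e2 : |∫ y, hf P E (bq (r ^ 2) W) (alf (r ^ 2) W) y * ψ y| ≤
      C1 * r ^ 4 * ∫ y, |ψ y| := by
    rw [← integral_const_mul, ← Real.norm_eq_abs]
    refine norm_integral_le_of_norm_le (hψi.abs.const_mul _) (Eventually.of_forall fun y => ?_)
    rw [Real.norm_eq_abs, abs_mul]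
    exact mul_le_mul_of_nonneg_right (h1 c Ca r w m W et hS y) (abs_nonneg _)
  have e3 := h2 _ hε
  rw [e1]
  refine (abs_add_le _ _).trans ?_
  have hs := Real.sqrt_nonneg (ln γ B (ep P E (r ^ 2) W))
  have hr : 0 < r ^ 4 := pow_pos hS.r0 4
  have g1 := mul_nonneg (mul_nonneg hC1 hI) hs
  have g2 := mul_nonneg hC2 hr.le
  nlinarith

theorem e_sq (hp : Prof P E) (hγ : 0 < γ) (hγ1 : γ ≤ 1 / 4) (hB : 16 ≤ B) {ψ : ℝ → ℝ}
    (hψ : Cl (3 / 4) (3 / 4) ψ) : ∃ C : ℝ, 0 ≤ C ∧ ∀ c Ca r w m W et,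
    Sit P E γ B c Ca r w m W et → (∫ y, |ψ y| * (W y - Qf 4 y) ^ 2) ≤
      C * (r ^ 8 + ln γ B (ep P E (r ^ 2) W)) := by
  obtain ⟨C1, hC1, h1⟩ := h_le (γ := γ) (B := B) hp
  obtain ⟨C2, hC2, h2⟩ := ln_dom hγ hγ1 hB hψ
  have hI : 0 ≤ ∫ y, |ψ y| := integral_nonneg fun y => abs_nonneg _
  have hψi : Integrable ψ := Cl_int hψ (by norm_num) (by norm_num)
  refine ⟨2 * C1 ^ 2 * (∫ y, |ψ y|) + 2 * C2, by positivity, fun c Ca r w m W et hS => ?_⟩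
  have hε := MOb_ep hp hS
  have hln0 : 0 ≤ ln γ B (ep P E (r ^ 2) W) := by
    refine integral_nonneg fun y => ?_
    have := (MOb_pos γ B y).le
    positivity
  have i2 : Integrable (fun y => |ψ y| * (ep P E (r ^ 2) W y) ^ 2) := by
    refine (Cl_int (Cl_mul0 (MOb_sq hε) hψ) (by norm_num) (by norm_num)).abs.congr
      (Eventually.of_forall fun y => ?_)
    simp only
    rw [abs_mul, abs_of_nonneg (sq_nonneg _), mul_comm]
  have h3 : (∫ y, |ψ y| * (W y - Qf 4 y) ^ 2) ≤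
      ∫ y, (2 * (C1 * r ^ 4) ^ 2 * |ψ y| + 2 * (|ψ y| * (ep P E (r ^ 2) W y) ^ 2)) := by
    refine integral_mono_of_nonneg (Eventually.of_forall fun y => by positivity)
      ((hψi.abs.const_mul _).add (i2.const_mul 2)) (Eventually.of_forall fun y => ?_)
    simp only
    rw [ep_split P E (r ^ 2) W y]
    have g1 := h1 c Ca r w m W et hS y
    have g2 : (hf P E (bq (r ^ 2) W) (alf (r ^ 2) W) y) ^ 2 ≤ (C1 * r ^ 4) ^ 2 := by
      rw [← sq_abs]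
      exact pow_le_pow_left₀ (abs_nonneg _) g1 2
    have g3 : (hf P E (bq (r ^ 2) W) (alf (r ^ 2) W) y + ep P E (r ^ 2) W y) ^ 2 ≤
        2 * (C1 * r ^ 4) ^ 2 + 2 * (ep P E (r ^ 2) W y) ^ 2 := by
      have := sq_nonneg (hf P E (bq (r ^ 2) W) (alf (r ^ 2) W) y - ep P E (r ^ 2) W y)
      nlinarith
    have g4 := mul_le_mul_of_nonneg_left g3 (abs_nonneg (ψ y))
    refine g4.trans (le_of_eq ?_)
    ring
  have i3 : Integrable (fun y => 2 * (C1 * r ^ 4) ^ 2 * |ψ y|) := hψi.abs.const_mul _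
  have i4 : Integrable (fun y => 2 * (|ψ y| * (ep P E (r ^ 2) W y) ^ 2)) := i2.const_mul 2
  rw [integral_add i3 i4, integral_const_mul, integral_const_mul] at h3
  have h4 := h2 _ hε
  have hr : 0 < r ^ 8 := pow_pos hS.r0 8
  have e8 : (C1 * r ^ 4) ^ 2 = C1 ^ 2 * r ^ 8 := by ring
  rw [e8] at h3
  have g1 := mul_nonneg (mul_nonneg (sq_nonneg C1) hI) hln0
  have g2 := mul_nonneg hC2 hr.le
  nlinarith

theorem R_ip (hp : Prof P E) (hγ : 0 < γ) (hγ1 : γ ≤ 1 / 4) (hB : 16 ≤ B) {ψ : ℝ → ℝ}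
    (hψ : Cl (3 / 4) (3 / 4) ψ) : ∃ C : ℝ, 0 ≤ C ∧ ∀ c Ca r w m W et, c ≤ 1 →
    Sit P E γ B c Ca r w m W et → |ip (Rf 4 (fun y => W y - Qf 4 y)) ψ| ≤
      C * (r ^ 8 + ln γ B (ep P E (r ^ 2) W)) := by
  obtain ⟨C1, hC1, h1⟩ := e_sq hp hγ hγ1 hB hψ
  obtain ⟨C2, hC2, h2⟩ := R_le 4 (by norm_num)
  refine ⟨C2 * C1, mul_nonneg hC2.le hC1, fun c Ca r w m W et hc hS => ?_⟩
  have he := MOb_e c Ca r w m hS
  have i1 : Integrable (fun y => |ψ y| * (W y - Qf 4 y) ^ 2) := by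
    refine (Cl_int (Cl_mul0 (MOb_sq he) hψ) (by norm_num) (by norm_num)).abs.congr
      (Eventually.of_forall fun y => ?_)
    simp only
    rw [abs_mul, abs_of_nonneg (sq_nonneg _), mul_comm]
  have h3 : |ip (Rf 4 (fun y => W y - Qf 4 y)) ψ| ≤ C2 * ∫ y, |ψ y| * (W y - Qf 4 y) ^ 2 := by
    rw [← integral_const_mul, ip, ← Real.norm_eq_abs]
    refine norm_integral_le_of_norm_le (i1.const_mul _) (Eventually.of_forall fun y => ?_)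
    rw [Real.norm_eq_abs, abs_mul]
    have g := h2 (fun y => W y - Qf 4 y) y ((hS.sup y).trans hc)
    have g2 := mul_le_mul_of_nonneg_right g (abs_nonneg (ψ y))
    refine g2.trans (le_of_eq ?_)
    ring
  refine h3.trans ?_
  rw [mul_assoc]
  exact mul_le_mul_of_nonneg_left (h1 c Ca r w m W et hS) hC2.le

theorem et_ip {ψ : ℝ → ℝ} (hψ : Cl (1 / 2) (1 / 2) ψ) : ∃ C : ℝ, 0 ≤ C ∧ ∀ (p q : ℝ) (et : ℝ → ℝ),
    0 < p → 0 < q → Cl p q et → |ip et ψ| ≤ C * √(ne2 et) := by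
  refine ⟨√(∫ y, (ψ y) ^ 2), Real.sqrt_nonneg _, fun p q et hp hq he => ?_⟩
  have i1 : ∀ {a b : ℝ} {f : ℝ → ℝ}, 0 < a → 0 < b → Cl a b f → Integrable (fun y => f y ^ 2) := by
    intro a b f ha hb hf
    exact Cl_int (Cl_pow' hf ha.le hb.le 2 (by norm_num)) ha hb
  have h := (cs_int (Cl_cont he) (Cl_cont hψ) (i1 hp hq he) (i1 (by norm_num) (by norm_num) hψ)).2
  refine h.trans ?_
  rw [mul_comm]
  refine mul_le_mul_of_nonneg_left (Real.sqrt_le_sqrt ?_) (Real.sqrt_nonneg _)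
  refine integral_mono (i1 hp hq he) ((i1 hp hq he).add (i1 hp hq (Cl_der he))) (fun y => ?_)
  show (et y) ^ 2 ≤ (et y) ^ 2 + (deriv et y) ^ 2
  have := sq_nonneg (deriv et y)
  linarith

end H68KC

end

end S_H68_KC_MOb

section S_H68_KC_MOc

/-!
# Row MOc (MP_95be7d_K4): modulation equations: bounds for `m` and `b - w`

Write `e = W - Q`, `n = √(ln ε)`, `ne = √(ne2 et)`, `l = r^8`, `K = ∫ Q'²`, all constants `C` depend on `P, E, γ, B`.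
`n ≤ √c` by `lnc`. `r ≤ 1`.

## Proof of `m_le`
`pair_ze` with `φ = Q'`: `(ζ,Q') = 0` (`or2`), `L Q'' = 4 ρ` (`L_Qdd`), `(e,ρ) = (ε,ρ)` (`ep_rho`), `(ΛQ,Q') = 0`, `(Q'',Q') = 0`:
`0 = -4 (ε,ρ) + (R,Q'') + m K + w (e,ΛQ') - m (e,Q'') + l (e,Q''') + (et,Q'')`.
So `|m| |K - (e,Q'')| ≤ C (n + r^8 + n² + 5c₀ r⁴ (r⁴ + n) + r^8 (r⁴ + n) + ne)` by `ip_ln`, `R_ip`, `e_ip`, `et_ip`, `w0`, `w1`;
`|(e,Q'')| ≤ C (r⁴ + n) ≤ C (r⁴ + √c) ≤ K/2` for `r ≤ r1` and `c ≤ c1` small. Since `n ≤ 1`, `n² ≤ n`, `r ≤ 1`: the claim.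
(`ΛQ'` is of class `1/2 1/2`: `Cl_Lam` with `c = 1/2`.)

## Proof of `bw_eq`, `bw_le`
`pair_ze` with `φ = ρ`: `(ζ,ρ) = 0` (`or1`), `(Q',ρ) = 0` (`ip_Qdrho`). `-(e,Lρ') = -(h,Lρ') - (ε,Lρ')`, `(ε,Lρ') = (Lε,ρ')` (`Lop_symm`) and
`(h,Lρ') = (Lh,ρ') = -((Lh)',ρ) = -b (ΛQ,ρ)` since `Lh = -b J + α` (`Prof.LP`, `Prof.LE`), `Jf_hd`. So
`(b - w)(ΛQ,ρ) - (Lε,ρ') = -(R,ρ') - l (Q'',ρ) - w (e,Λρ) + m (e,ρ') - l (e,ρ'') - (et,ρ')`,
right hand side `≤ C (r^8 + n² + r⁴ (r⁴ + n) + |m| (r⁴ + n) + r^8 + ne)`, and with `m_le`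
`|m| (r⁴ + n) ≤ C (n + r^8 + ne)(r⁴ + n) ≤ C (r⁴ n + n² + r^8 + ne)`.
`bw_le`: `(ΛQ,ρ) = K/2 > 0` (`ip_LamQrho`), `|(Lε,ρ')| = |(ε,Lρ')| ≤ C n` (`ip_ln`).
-/

open MeasureTheory Filter Topology Set
open scoped ContDiff

noncomputable section

namespace H68KC

open H98KB

variable {P E : ℝ → ℝ} {γ B : ℝ}

theorem MOc_ln0 (hγ : 0 < γ) (hγ1 : γ ≤ 1 / 4) (hB : 16 ≤ B) (ε : ℝ → ℝ) : 0 ≤ ln γ B ε :=
  integral_nonneg fun y => mul_nonneg ((Real.exp_pos _).le.trans (loc_low hγ hγ1 hB y))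
    (by positivity)

theorem MOc_c0 : 0 < c0 := by
  unfold c0 cnu
  have h1 : 0 < ∫ y, (deriv (Qf 4) y) ^ 2 := Qd2_pos (by norm_num)
  have h2 := Iq_pos
  positivity

theorem MOc_Q1 : Cl 1 1 (deriv (Qf 4)) := Cl_der (Cl_Qf (by norm_num))

theorem MOc_Q2 : Cl 1 1 (deriv (deriv (Qf 4))) := Cl_der MOc_Q1

theorem MOc_Q3 : Cl 1 1 (deriv (deriv (deriv (Qf 4)))) := Cl_der MOc_Q2

theorem MOc_LQ1 : Cl (1 / 2) (1 / 2) (Lam 4 (deriv (Qf 4))) := by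
  have h := Cl_Lam 4 MOc_Q1 (c := 1 / 2) (by norm_num)
  have e1 : (1 : ℝ) - 1 / 2 = 1 / 2 := by norm_num
  rwa [e1] at h

theorem MOc_r1 : Cl 3 3 (deriv rho) := Cl_der rho_cl

theorem MOc_r2 : Cl 3 3 (deriv (deriv rho)) := Cl_der MOc_r1

theorem MOc_Lr : Cl (1 / 2) (1 / 2) (Lam 4 rho) := by
  have h := Cl_Lam 4 rho_cl (c := 1 / 2) (by norm_num)
  exact Cl_mono h (by norm_num) (by norm_num)

theorem MOc_Lopr : Cl 3 3 (Lop 4 (deriv rho)) := Cl_Lop (by norm_num) MOc_r1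

/-- numerical part of `m_le` -/
theorem MOc_num1 {C1 C2 C3 C4 C5 C6 c0 K r n ne w m A1 A2 A3 A4 A5 A6 : ℝ}
    (hC1 : 0 ≤ C1) (hC2 : 0 ≤ C2) (hC3 : 0 ≤ C3) (hC4 : 0 ≤ C4) (hC5 : 0 ≤ C5) (hC6 : 0 ≤ C6)
    (hc0 : 0 < c0) (hK : 0 < K) (hr0 : 0 < r) (hr1 : r ≤ 1) (hrκ : r ≤ K / (4 * (C4 + 1)))
    (hn0 : 0 ≤ n) (hn1 : n ≤ 1) (hnκ : n ≤ K / (4 * (C4 + 1))) (hne0 : 0 ≤ ne)
    (hw0 : 0 ≤ w) (hw1 : w ≤ 5 * c0 * r ^ 4)
    (b1 : |A1| ≤ C1 * n) (b2 : |A2| ≤ C2 * (r ^ 8 + n ^ 2)) (b3 : |A3| ≤ C3 * (r ^ 4 + n))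
    (b4 : |A4| ≤ C4 * (r ^ 4 + n)) (b5 : |A5| ≤ C5 * (r ^ 4 + n)) (b6 : |A6| ≤ C6 * ne)
    (key : m * (K - A4) = 4 * A1 - A2 - w * A3 - r ^ 8 * A5 - A6) :
    |m| ≤ 2 * (4 * C1 + C2 + 5 * c0 * C3 + C5 + C6 + 1) / K * (n + r ^ 8 + ne) := by
  have hr4 : r ^ 4 ≤ r := by
    have : r ^ 4 ≤ r ^ 1 := pow_le_pow_of_le_one hr0.le hr1 (by norm_num)
    simpa using this
  have hr41 : r ^ 4 ≤ 1 := hr4.trans hr1
  have hr81 : r ^ 8 ≤ 1 := pow_le_one₀ hr0.le hr1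
  have hr40 : 0 ≤ r ^ 4 := by positivity
  have hr80 : 0 ≤ r ^ 8 := by positivity
  have hn2 : n ^ 2 ≤ n := pow_le_of_le_one hn0 hn1 two_ne_zero
  have hA4 : |A4| ≤ K / 2 := by
    refine b4.trans ?_
    have : C4 * (r ^ 4 + n) ≤ (C4 + 1) * (K / (4 * (C4 + 1)) + K / (4 * (C4 + 1))) := by
      apply mul_le_mul (by linarith) (by linarith) (by positivity) (by linarith)
    refine this.trans (le_of_eq ?_)
    field_simp
    ring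
  have hmul : |m| * (K / 2) ≤ |m * (K - A4)| := by
    rw [abs_mul]
    refine mul_le_mul_of_nonneg_left ?_ (abs_nonneg _)
    have h5 := (abs_le.1 hA4).2
    rw [abs_of_nonneg (by linarith)]
    linarith
  have t1 : |4 * A1 - A2 - w * A3 - r ^ 8 * A5 - A6| ≤
      4 * |A1| + |A2| + w * |A3| + r ^ 8 * |A5| + |A6| := by
    have s1 := abs_sub (4 * A1 - A2 - w * A3 - r ^ 8 * A5) A6
    have s2 := abs_sub (4 * A1 - A2 - w * A3) (r ^ 8 * A5)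
    have s3 := abs_sub (4 * A1 - A2) (w * A3)
    have s4 := abs_sub (4 * A1) A2
    rw [abs_mul (r ^ 8), abs_of_nonneg hr80] at s2
    rw [abs_mul w, abs_of_nonneg hw0] at s3
    rw [abs_mul 4, abs_of_pos (by norm_num : (0 : ℝ) < 4)] at s4
    linarith
  have u1 : 4 * |A1| ≤ 4 * C1 * n := by linarith
  have u2 : |A2| ≤ C2 * (n + r ^ 8) := b2.trans (mul_le_mul_of_nonneg_left (by linarith) hC2)
  have u3 : w * |A3| ≤ 5 * c0 * C3 * (n + r ^ 8) := by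
    calc w * |A3| ≤ (5 * c0 * r ^ 4) * (C3 * (r ^ 4 + n)) :=
          mul_le_mul hw1 b3 (abs_nonneg _) (by positivity)
      _ = 5 * c0 * C3 * (r ^ 8 + r ^ 4 * n) := by ring
      _ ≤ 5 * c0 * C3 * (n + r ^ 8) := by
        refine mul_le_mul_of_nonneg_left ?_ (by positivity)
        have := mul_le_of_le_one_left hn0 hr41
        linarith
  have u5 : r ^ 8 * |A5| ≤ C5 * (n + r ^ 8) := by
    calc r ^ 8 * |A5| ≤ r ^ 8 * (C5 * (r ^ 4 + n)) := mul_le_mul_of_nonneg_left b5 hr80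
      _ = C5 * (r ^ 8 * r ^ 4 + r ^ 8 * n) := by ring
      _ ≤ C5 * (n + r ^ 8) := by
        refine mul_le_mul_of_nonneg_left ?_ hC5
        have e1 := mul_le_of_le_one_right hr80 hr41
        have e2 := mul_le_of_le_one_left hn0 hr81
        linarith
  have v1 : 0 ≤ C1 * (r ^ 8 + ne) := by positivity
  have v2 : 0 ≤ C2 * ne := by positivity
  have v3 : 0 ≤ c0 * C3 * ne := by positivity
  have v5 : 0 ≤ C5 * ne := by positivity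
  have v6 : 0 ≤ C6 * (n + r ^ 8) := by positivity
  have v7 : 0 ≤ n + r ^ 8 + ne := by positivity
  have hbound : |4 * A1 - A2 - w * A3 - r ^ 8 * A5 - A6| ≤
      (4 * C1 + C2 + 5 * c0 * C3 + C5 + C6 + 1) * (n + r ^ 8 + ne) := by
    have e : (4 * C1 + C2 + 5 * c0 * C3 + C5 + C6 + 1) * (n + r ^ 8 + ne) =
        4 * C1 * n + 4 * (C1 * (r ^ 8 + ne)) + C2 * (n + r ^ 8) + C2 * ne +
        5 * c0 * C3 * (n + r ^ 8) + 5 * (c0 * C3 * ne) + C5 * (n + r ^ 8) + C5 * ne +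
        C6 * (n + r ^ 8) + C6 * ne + (n + r ^ 8 + ne) := by ring
    rw [e]
    linarith
  rw [key] at hmul
  have hfin := hmul.trans hbound
  have e : |m| = |m| * (K / 2) * (2 / K) := by field_simp
  rw [e]
  calc |m| * (K / 2) * (2 / K) ≤
      ((4 * C1 + C2 + 5 * c0 * C3 + C5 + C6 + 1) * (n + r ^ 8 + ne)) * (2 / K) :=
        mul_le_mul_of_nonneg_right hfin (by positivity)
    _ = _ := by field_simp

/-- the local norm -/
theorem MOc_n (hγ : 0 < γ) (hγ1 : γ ≤ 1 / 4) (hB : 16 ≤ B) {ε : ℝ → ℝ} {t : ℝ} (ht : 0 ≤ t)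
    (h : ln γ B ε ≤ t ^ 2) : √(ln γ B ε) ^ 2 = ln γ B ε ∧ √(ln γ B ε) ≤ t := by
  refine ⟨Real.sq_sqrt (MOc_ln0 hγ hγ1 hB _), ?_⟩
  rw [Real.sqrt_le_left ht]
  exact h

theorem m_le (hp : Prof P E) (hγ : 0 < γ) (hγ1 : γ ≤ 1 / 4) (hB : 16 ≤ B) :
    ∃ C r1 c1 : ℝ, 0 < C ∧ 0 < r1 ∧ 0 < c1 ∧ c1 ≤ 1 ∧ ∀ c Ca r w m W et, c ≤ c1 → r ≤ r1 →
      Sit P E γ B c Ca r w m W et →
      |m| ≤ C * (√(ln γ B (ep P E (r ^ 2) W)) + r ^ 8 + √(ne2 et)) := by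
  obtain ⟨C1, hC1, H1⟩ := ip_ln hγ hγ1 hB (ψ := rho) (Cl_mono rho_cl (by norm_num) (by norm_num))
  obtain ⟨C2, hC2, H2⟩ := R_ip hp hγ hγ1 hB (ψ := deriv (deriv (Qf 4)))
    (Cl_mono MOc_Q2 (by norm_num) (by norm_num))
  obtain ⟨C3, hC3, H3⟩ := e_ip hp hγ hγ1 hB MOc_LQ1
  obtain ⟨C4, hC4, H4⟩ := e_ip hp hγ hγ1 hB (ψ := deriv (deriv (Qf 4)))
    (Cl_mono MOc_Q2 (by norm_num) (by norm_num))
  obtain ⟨C5, hC5, H5⟩ := e_ip hp hγ hγ1 hB (ψ := deriv (deriv (deriv (Qf 4))))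
    (Cl_mono MOc_Q3 (by norm_num) (by norm_num))
  obtain ⟨C6, hC6, H6⟩ := et_ip (ψ := deriv (deriv (Qf 4)))
    (Cl_mono MOc_Q2 (by norm_num) (by norm_num))
  obtain ⟨K, hK⟩ : ∃ K, K = ∫ y, (deriv (Qf 4) y) ^ 2 := ⟨_, rfl⟩
  have hK0 : 0 < K := by rw [hK]; exact Qd2_pos (by norm_num)
  have hc0 := MOc_c0
  have hκ0 : 0 < K / (4 * (C4 + 1)) := by positivity
  refine ⟨2 * (4 * C1 + C2 + 5 * c0 * C3 + C5 + C6 + 1) / K, min 1 (K / (4 * (C4 + 1))),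
    min 1 ((K / (4 * (C4 + 1))) ^ 2), by positivity,
    by positivity, by positivity, min_le_left _ _, ?_⟩
  intro c Ca r w m W et hc hr S
  obtain ⟨p, q, hp0, hp2, hq0, hq2, hW, he⟩ := S.cl
  have b1 := H1 (ep P E (r ^ 2) W) (ep_cl hp hp0.le hq0.le hW)
  have b2 := H2 c Ca r w m W et (hc.trans (min_le_left _ _)) S
  have b3 := H3 c Ca r w m W et S
  have b4 := H4 c Ca r w m W et S
  have b5 := H5 c Ca r w m W et S
  have b6 := H6 p q et hp0 hq0 he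
  have hpz := pair_ze (w := w) (m := m) (l := r ^ 8) hp0 hq0 (by linarith) (by linarith) hW he
    MOc_Q1
  rw [S.or2] at hpz
  have hL : Lop 4 (deriv (deriv (Qf 4))) = fun y => 4 * rho y := funext L_Qdd
  have h1 : ip (fun y => W y - Qf 4 y) (Lop 4 (deriv (deriv (Qf 4)))) =
      4 * ip (ep P E (r ^ 2) W) rho := by
    rw [ep_rho hp hp0 hq0 hW, hL]
    unfold ip
    rw [← integral_const_mul]
    congr 1
    funext y
    ring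
  have h2 : ip (deriv (Qf 4)) (deriv (Qf 4)) = K := by
    rw [hK]
    unfold ip
    congr 1
    funext y
    ring
  rw [h1, ip_LamQ_Qd (by norm_num), ip_Qdd_Qd (by norm_num), h2] at hpz
  have hlnc : ln γ B (ep P E (r ^ 2) W) ≤ min 1 ((K / (4 * (C4 + 1))) ^ 2) := S.lnc.trans hc
  have hN1 := MOc_n hγ hγ1 hB zero_le_one (by
    rw [one_pow]; exact hlnc.trans (min_le_left _ _))
  have hN2 := MOc_n hγ hγ1 hB hκ0.le (hlnc.trans (min_le_right _ _))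
  rw [← hN1.1] at b2
  refine MOc_num1 hC1 hC2 hC3 hC4 hC5 hC6 hc0 hK0 S.r0 (hr.trans (min_le_left _ _))
    (hr.trans (min_le_right _ _)) (Real.sqrt_nonneg _) hN1.2 hN2.2 (Real.sqrt_nonneg _) S.w0 S.w1
    b1 b2 b3 b4 b5 b6 ?_
  linear_combination -hpz

theorem MOc_Lh (hp : Prof P E) (b α : ℝ) (y : ℝ) :
    Lop 4 (hf P E b α) y = -b * Jf y + α := by
  have hP := hp.cP
  have hE := E_cl hp
  have d1 : ∀ y, HasDerivAt (hf P E b α) (b * deriv P y + α * deriv E y) y := fun y =>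
    ((Cl_hd hP y).const_mul b).add ((Cl_hd hE y).const_mul α)
  have d1' : deriv (hf P E b α) = fun y => b * deriv P y + α * deriv E y :=
    funext fun y => (d1 y).deriv
  have d2 : ∀ y, HasDerivAt (fun y => b * deriv P y + α * deriv E y)
      (b * deriv (deriv P) y + α * deriv (deriv E) y) y := fun y =>
    ((Cl_hd (Cl_der hP) y).const_mul b).add ((Cl_hd (Cl_der hE) y).const_mul α)
  have h1 := hp.LP y
  have h2 := hp.LE y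
  unfold Lop at h1 h2 ⊢
  rw [d1', (d2 y).deriv, hf]
  linear_combination b * h1 + α * h2

theorem ep_h_rho (hp : Prof P E) (b α : ℝ) :
    ip (hf P E b α) (Lop 4 (deriv rho)) = -b * ip (Lam 4 (Qf 4)) rho := by
  have hc := hf_cl hp b α
  have hL : Cl 0 0 (Lop 4 (hf P E b α)) := Cl_Lop (by norm_num) hc
  rw [← Lop_symm (by norm_num) hc MOc_r1 (by norm_num) (by norm_num)]
  have h1 := Cl_ibp hL rho_cl (by norm_num) (by norm_num)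
  have hd : ∀ y, deriv (Lop 4 (hf P E b α)) y = b * Lam 4 (Qf 4) y := by
    intro y
    have h2 : Lop 4 (hf P E b α) = fun y => -b * Jf y + α := funext (MOc_Lh hp b α)
    rw [h2]
    have h3 := ((Jf_hd y).const_mul (-b)).add_const α
    rw [h3.deriv]
    ring
  unfold ip
  have h4 : (∫ y, deriv (Lop 4 (hf P E b α)) y * rho y) = b * ∫ y, Lam 4 (Qf 4) y * rho y := by
    rw [← integral_const_mul]
    congr 1
    funext y
    rw [hd y]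
    ring
  linarith

/-- numerical part of `bw_eq` -/
theorem MOc_num2 {Cm C2 C3 C4 C5 C6 c0 r n ne w m A2 A3 A4 A5 A6 A7 : ℝ}
    (hCm : 0 < Cm) (hC2 : 0 ≤ C2) (hC3 : 0 ≤ C3) (hC4 : 0 ≤ C4) (hC5 : 0 ≤ C5) (hC6 : 0 ≤ C6)
    (hc0 : 0 < c0) (hr0 : 0 < r) (hr1 : r ≤ 1)
    (hn0 : 0 ≤ n) (hn1 : n ≤ 1) (hne0 : 0 ≤ ne)
    (hw0 : 0 ≤ w) (hw1 : w ≤ 5 * c0 * r ^ 4) (hm : |m| ≤ Cm * (n + r ^ 8 + ne))
    (b2 : |A2| ≤ C2 * (r ^ 8 + n ^ 2)) (b3 : |A3| ≤ C3 * (r ^ 4 + n))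
    (b4 : |A4| ≤ C4 * (r ^ 4 + n)) (b5 : |A5| ≤ C5 * (r ^ 4 + n)) (b6 : |A6| ≤ C6 * ne) :
    |m * A4 - A2 - w * A3 - r ^ 8 * A5 - r ^ 8 * A7 - A6| ≤
      (C2 + |A7| + 5 * c0 * C3 + 2 * Cm * C4 + C5 + C6 + 1) * (r ^ 8 + r ^ 4 * n + n ^ 2 + ne) := by
  have hr41 : r ^ 4 ≤ 1 := pow_le_one₀ hr0.le hr1
  have hr81 : r ^ 8 ≤ 1 := pow_le_one₀ hr0.le hr1
  have hr84 : r ^ 8 ≤ r ^ 4 := pow_le_pow_of_le_one hr0.le hr1 (by norm_num)
  have hr40 : 0 ≤ r ^ 4 := by positivity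
  have hr80 : 0 ≤ r ^ 8 := by positivity
  have z1 : 0 ≤ r ^ 4 * n := by positivity
  have z2 : 0 ≤ n ^ 2 := by positivity
  obtain ⟨X, hX⟩ : ∃ X, X = r ^ 8 + r ^ 4 * n + n ^ 2 + ne := ⟨_, rfl⟩
  rw [← hX]
  have hX0 : 0 ≤ X := by rw [hX]; positivity
  have t1 : |m * A4 - A2 - w * A3 - r ^ 8 * A5 - r ^ 8 * A7 - A6| ≤
      |m| * |A4| + |A2| + w * |A3| + r ^ 8 * |A5| + r ^ 8 * |A7| + |A6| := by
    have s0 := abs_sub (m * A4 - A2 - w * A3 - r ^ 8 * A5 - r ^ 8 * A7) A6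
    have s1 := abs_sub (m * A4 - A2 - w * A3 - r ^ 8 * A5) (r ^ 8 * A7)
    have s2 := abs_sub (m * A4 - A2 - w * A3) (r ^ 8 * A5)
    have s3 := abs_sub (m * A4 - A2) (w * A3)
    have s4 := abs_sub (m * A4) A2
    rw [abs_mul (r ^ 8), abs_of_nonneg hr80] at s1
    rw [abs_mul (r ^ 8), abs_of_nonneg hr80] at s2
    rw [abs_mul w, abs_of_nonneg hw0] at s3
    rw [abs_mul m] at s4
    linarith
  have u2 : |A2| ≤ C2 * X := by
    refine b2.trans (mul_le_mul_of_nonneg_left ?_ hC2)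
    rw [hX]
    linarith
  have u3 : w * |A3| ≤ 5 * c0 * C3 * X := by
    calc w * |A3| ≤ (5 * c0 * r ^ 4) * (C3 * (r ^ 4 + n)) :=
          mul_le_mul hw1 b3 (abs_nonneg _) (by positivity)
      _ = 5 * c0 * C3 * (r ^ 8 + r ^ 4 * n) := by ring
      _ ≤ 5 * c0 * C3 * X := by
        refine mul_le_mul_of_nonneg_left ?_ (by positivity)
        rw [hX]
        linarith
  have w1 : r ^ 8 * r ^ 4 ≤ r ^ 8 := mul_le_of_le_one_right hr80 hr41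
  have w2 : r ^ 8 * n ≤ r ^ 4 * n := mul_le_mul_of_nonneg_right hr84 hn0
  have u4 : |m| * |A4| ≤ 2 * Cm * C4 * X := by
    calc |m| * |A4| ≤ (Cm * (n + r ^ 8 + ne)) * (C4 * (r ^ 4 + n)) :=
          mul_le_mul hm b4 (abs_nonneg _) (by positivity)
      _ = Cm * C4 * ((n + r ^ 8 + ne) * (r ^ 4 + n)) := by ring
      _ ≤ Cm * C4 * (2 * X) := by
        refine mul_le_mul_of_nonneg_left ?_ (by positivity)
        have w3 : ne * r ^ 4 ≤ ne := mul_le_of_le_one_right hne0 hr41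
        have w4 : ne * n ≤ ne := mul_le_of_le_one_right hne0 hn1
        have w6 : (n + r ^ 8 + ne) * (r ^ 4 + n) = r ^ 4 * n + n ^ 2 + r ^ 8 * r ^ 4 + r ^ 8 * n +
          ne * r ^ 4 + ne * n := by ring
        rw [w6, hX]
        linarith
      _ = _ := by ring
  have u5 : r ^ 8 * |A5| ≤ C5 * X := by
    calc r ^ 8 * |A5| ≤ r ^ 8 * (C5 * (r ^ 4 + n)) := mul_le_mul_of_nonneg_left b5 hr80
      _ = C5 * (r ^ 8 * r ^ 4 + r ^ 8 * n) := by ring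
      _ ≤ C5 * X := by
        refine mul_le_mul_of_nonneg_left ?_ hC5
        rw [hX]
        linarith
  have u7 : r ^ 8 * |A7| ≤ |A7| * X := by
    rw [mul_comm]
    refine mul_le_mul_of_nonneg_left ?_ (abs_nonneg _)
    rw [hX]
    linarith
  have u6 : |A6| ≤ C6 * X := by
    refine b6.trans (mul_le_mul_of_nonneg_left ?_ hC6)
    rw [hX]
    linarith
  have hsum : (C2 + |A7| + 5 * c0 * C3 + 2 * Cm * C4 + C5 + C6 + 1) * X =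
      2 * Cm * C4 * X + C2 * X + 5 * c0 * C3 * X + C5 * X + |A7| * X + C6 * X + X := by ring
  rw [hsum]
  linarith

theorem bw_eq (hp : Prof P E) (hγ : 0 < γ) (hγ1 : γ ≤ 1 / 4) (hB : 16 ≤ B) :
    ∃ C r1 c1 : ℝ, 0 < C ∧ 0 < r1 ∧ 0 < c1 ∧ c1 ≤ 1 ∧ ∀ c Ca r w m W et, c ≤ c1 → r ≤ r1 →
      Sit P E γ B c Ca r w m W et →
      |(bq (r ^ 2) W - w) * ip (Lam 4 (Qf 4)) rho - ip (Lop 4 (ep P E (r ^ 2) W)) (deriv rho)| ≤
      C * (r ^ 8 + r ^ 4 * √(ln γ B (ep P E (r ^ 2) W)) + ln γ B (ep P E (r ^ 2) W) + √(ne2 et)) := by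
  obtain ⟨Cm, rm, cm, hCm, hrm, hcm, hcm1, Hm⟩ := m_le hp hγ hγ1 hB
  obtain ⟨C2, hC2, H2⟩ := R_ip hp hγ hγ1 hB (ψ := deriv rho)
    (Cl_mono MOc_r1 (by norm_num) (by norm_num))
  obtain ⟨C3, hC3, H3⟩ := e_ip hp hγ hγ1 hB MOc_Lr
  obtain ⟨C4, hC4, H4⟩ := e_ip hp hγ hγ1 hB (ψ := deriv rho)
    (Cl_mono MOc_r1 (by norm_num) (by norm_num))
  obtain ⟨C5, hC5, H5⟩ := e_ip hp hγ hγ1 hB (ψ := deriv (deriv rho))
    (Cl_mono MOc_r2 (by norm_num) (by norm_num))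
  obtain ⟨C6, hC6, H6⟩ := et_ip (ψ := deriv rho)
    (Cl_mono MOc_r1 (by norm_num) (by norm_num))
  obtain ⟨A7, hA7⟩ : ∃ A7, A7 = ip (deriv (deriv (Qf 4))) rho := ⟨_, rfl⟩
  have hc0 := MOc_c0
  refine ⟨C2 + |A7| + 5 * c0 * C3 + 2 * Cm * C4 + C5 + C6 + 1, min 1 rm, cm, by positivity,
    by positivity, hcm, hcm1, ?_⟩
  intro c Ca r w m W et hc hr S
  have hm := Hm c Ca r w m W et hc (hr.trans (min_le_right _ _)) S
  obtain ⟨p, q, hp0, hp2, hq0, hq2, hW, he⟩ := S.cl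
  have b2 := H2 c Ca r w m W et (hc.trans hcm1) S
  have b3 := H3 c Ca r w m W et S
  have b4 := H4 c Ca r w m W et S
  have b5 := H5 c Ca r w m W et S
  have b6 := H6 p q et hp0 hq0 he
  have hpz := pair_ze (w := w) (m := m) (l := r ^ 8) hp0 hq0 (by linarith) (by linarith) hW he
    (φ := rho) (Cl_mono rho_cl (by norm_num) (by norm_num))
  rw [S.or1, ip_Qdrho, ← hA7] at hpz
  have hepc : Cl 0 0 (ep P E (r ^ 2) W) := ep_cl hp hp0.le hq0.le hW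
  have hsplit : ip (fun y => W y - Qf 4 y) (Lop 4 (deriv rho)) =
      -bq (r ^ 2) W * ip (Lam 4 (Qf 4)) rho + ip (Lop 4 (ep P E (r ^ 2) W)) (deriv rho) := by
    rw [← ep_h_rho hp (bq (r ^ 2) W) (alf (r ^ 2) W),
      Lop_symm (by norm_num) hepc MOc_r1 (by norm_num) (by norm_num)]
    unfold ip
    rw [← integral_add (Cl_int (Cl_mul (hf_cl hp _ _) MOc_Lopr) (by norm_num) (by norm_num))
      (Cl_int (Cl_mul hepc MOc_Lopr) (by norm_num) (by norm_num))]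
    congr 1
    funext y
    have h9 := ep_split P E (r ^ 2) W y
    change (W y - Qf 4 y) * Lop 4 (deriv rho) y = _
    rw [h9]
    ring
  rw [hsplit] at hpz
  have hN1 := MOc_n hγ hγ1 hB (ε := ep P E (r ^ 2) W) zero_le_one (by
    rw [one_pow]; exact S.lnc.trans (hc.trans hcm1))
  rw [← hN1.1] at b2
  have key : (bq (r ^ 2) W - w) * ip (Lam 4 (Qf 4)) rho -
      ip (Lop 4 (ep P E (r ^ 2) W)) (deriv rho) =
      m * ip (fun y => W y - Qf 4 y) (deriv rho) - ip (Rf 4 (fun y => W y - Qf 4 y)) (deriv rho) -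
      w * ip (fun y => W y - Qf 4 y) (Lam 4 rho) -
      r ^ 8 * ip (fun y => W y - Qf 4 y) (deriv (deriv rho)) - r ^ 8 * A7 - ip et (deriv rho) := by
    linear_combination -hpz
  have hfin := MOc_num2 (A7 := A7) hCm hC2 hC3 hC4 hC5 hC6 hc0 S.r0 (hr.trans (min_le_left _ _))
    (Real.sqrt_nonneg _) hN1.2 (Real.sqrt_nonneg _) S.w0 S.w1 hm b2 b3 b4 b5 b6
  rw [← key, hN1.1] at hfin
  exact hfin

/-- numerical part of `bw_le` -/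
theorem MOc_num3 {Ce C1 K r n ne x A1 : ℝ} (hCe : 0 < Ce) (hC1 : 0 ≤ C1) (hK : 0 < K)
    (hr0 : 0 < r) (hr1 : r ≤ 1) (hn0 : 0 ≤ n) (hn1 : n ≤ 1) (hne0 : 0 ≤ ne)
    (h1 : |x * (1 / 2 * K) - A1| ≤ Ce * (r ^ 8 + r ^ 4 * n + n ^ 2 + ne)) (h2 : |A1| ≤ C1 * n) :
    |x| ≤ 2 * (2 * Ce + C1) / K * (n + r ^ 8 + ne) := by
  have hr41 : r ^ 4 ≤ 1 := pow_le_one₀ hr0.le hr1
  have hr80 : 0 ≤ r ^ 8 := by positivity
  have h3 : |x * (1 / 2 * K)| ≤ |x * (1 / 2 * K) - A1| + |A1| := by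
    have h := abs_add_le (x * (1 / 2 * K) - A1) A1
    rwa [sub_add_cancel] at h
  rw [abs_mul, abs_of_pos (by positivity : 0 < 1 / 2 * K)] at h3
  have h4 : Ce * (r ^ 8 + r ^ 4 * n + n ^ 2 + ne) ≤ 2 * Ce * (n + r ^ 8 + ne) := by
    have e1 : r ^ 4 * n ≤ n := mul_le_of_le_one_left hn0 hr41
    have e2 : n ^ 2 ≤ n := pow_le_of_le_one hn0 hn1 two_ne_zero
    have : r ^ 8 + r ^ 4 * n + n ^ 2 + ne ≤ 2 * (n + r ^ 8 + ne) := by linarith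
    have h := mul_le_mul_of_nonneg_left this hCe.le
    linarith
  have h5 : C1 * n ≤ C1 * (n + r ^ 8 + ne) := mul_le_mul_of_nonneg_left (by linarith) hC1
  have h6 : |x| * (1 / 2 * K) ≤ (2 * Ce + C1) * (n + r ^ 8 + ne) := by
    have : (2 * Ce + C1) * (n + r ^ 8 + ne) =
        2 * Ce * (n + r ^ 8 + ne) + C1 * (n + r ^ 8 + ne) := by ring
    rw [this]
    linarith
  have e : |x| = |x| * (1 / 2 * K) * (2 / K) := by field_simp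
  rw [e]
  calc |x| * (1 / 2 * K) * (2 / K) ≤ ((2 * Ce + C1) * (n + r ^ 8 + ne)) * (2 / K) :=
        mul_le_mul_of_nonneg_right h6 (by positivity)
    _ = _ := by field_simp

theorem bw_le (hp : Prof P E) (hγ : 0 < γ) (hγ1 : γ ≤ 1 / 4) (hB : 16 ≤ B) :
    ∃ C r1 c1 : ℝ, 0 < C ∧ 0 < r1 ∧ 0 < c1 ∧ c1 ≤ 1 ∧ ∀ c Ca r w m W et, c ≤ c1 → r ≤ r1 →
      Sit P E γ B c Ca r w m W et →
      |bq (r ^ 2) W - w| ≤ C * (√(ln γ B (ep P E (r ^ 2) W)) + r ^ 8 + √(ne2 et)) := by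
  obtain ⟨Ce, re, ce, hCe, hre, hce, hce1, He⟩ := bw_eq hp hγ hγ1 hB
  obtain ⟨C1, hC1, H1⟩ := ip_ln hγ hγ1 hB (ψ := Lop 4 (deriv rho))
    (Cl_mono MOc_Lopr (by norm_num) (by norm_num))
  obtain ⟨K, hK⟩ : ∃ K, K = ∫ y, (deriv (Qf 4) y) ^ 2 := ⟨_, rfl⟩
  have hK0 : 0 < K := by rw [hK]; exact Qd2_pos (by norm_num)
  refine ⟨2 * (2 * Ce + C1) / K, min 1 re, ce, by positivity, by positivity, hce, hce1, ?_⟩
  intro c Ca r w m W et hc hr S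
  have h1 := He c Ca r w m W et hc (hr.trans (min_le_right _ _)) S
  obtain ⟨p, q, hp0, hp2, hq0, hq2, hW, he⟩ := S.cl
  have hepc : Cl 0 0 (ep P E (r ^ 2) W) := ep_cl hp hp0.le hq0.le hW
  have h2 := H1 _ hepc
  rw [← Lop_symm (by norm_num) hepc MOc_r1 (by norm_num) (by norm_num)] at h2
  rw [ip_LamQrho, ← hK] at h1
  have hN1 := MOc_n hγ hγ1 hB (ε := ep P E (r ^ 2) W) zero_le_one (by
    rw [one_pow]; exact S.lnc.trans (hc.trans hce1))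
  nth_rewrite 2 [← hN1.1] at h1
  exact MOc_num3 hCe hC1 hK0 S.r0 (hr.trans (min_le_left _ _)) (Real.sqrt_nonneg _) hN1.2
    (Real.sqrt_nonneg _) h1 h2

end H68KC

end

end S_H68_KC_MOc

section S_H68_KC_MOd

/-!
# Row MOd (MP_95be7d_K4): second order expansion of `(R(e),Q')`

`R = Rf 4 e = ((Q+e)^5 - Q^5)/5 - Q⁴ e = 2 Q³ e² + 2 Q² e³ + Q e⁴ + e⁵/5`.

## Proof
`R Q' - 2 Q³ Q' e² = Q' (2 Q² e³ + Q e⁴ + e⁵/5)`, absolute value `≤ C |Q'| |e|³` for `|e| ≤ 1`, and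
`|e|³ ≤ 4 (|h|³ + |ε|³) ≤ C r^{12} + 4 |ε|²` (`ep_split`, `h_le`, `|ε| ≤ c ≤ 1` from `supe`).
`e² - h² = 2 h ε + ε²`, `∫ |4Q³Q'/2| (2|h||ε| + ε²) ≤ C r⁴ ∫ |Q³Q'||ε| + C ln`, and `∫ |Q³ Q'| |ε| ≤ C √ln`: Cauchy-Schwarz as in
`ip_ln` (write `|Q³Q'||ε| ≤ Q^3 |Q'| |ε|`; use `cs_wt` with `F = |ε|`, `φ = |Q³ Q'|`, `W = loc`).
`∫ |ψ| ε² ≤ C ln` : `ln_dom`.
-/

open MeasureTheory Filter Topology Set
open scoped ContDiff

noncomputable section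

namespace H68KC

open H98KB

variable {P E : ℝ → ℝ} {γ B : ℝ}

theorem R4_eq (e : ℝ → ℝ) (y : ℝ) : Rf 4 e y = 2 * (Qf 4 y) ^ 3 * (e y) ^ 2 + 2 * (Qf 4 y) ^ 2 * (e y) ^ 3
    + Qf 4 y * (e y) ^ 4 + (e y) ^ 5 / 5 := by
  simp only [Rf, Df, fl]
  push_cast
  ring

theorem MOd_E (hp : Prof P E) : Cl 0 0 E := by
  have h1 := Cl_add (Cl_mono hp.E1 (p' := 0) (q' := 0) (by norm_num) (by norm_num)) (Cl_const 1)
  have h2 : (fun y => (E y - 1) + 1) = E := by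
    funext y
    ring
  rw [← h2]
  exact h1

theorem MOd_Q0 : Cl 0 0 (Qf 4) := Nla_Q (by norm_num)

theorem MOd_Qd : Cl 1 1 (deriv (Qf 4)) := Cl_der (Cl_Qf (by norm_num))

theorem MOd_psi : Cl 1 1 (fun y => (Qf 4 y) ^ 3 * deriv (Qf 4) y) := Cl_mul0 (Cl_pow0 MOd_Q0 3) MOd_Qd

theorem MOd_psi_mul {f : ℝ → ℝ} (hf : Cl 0 0 f) :
    Cl 1 1 (fun y => (Qf 4 y) ^ 3 * deriv (Qf 4) y * f y) := Nla_mulr MOd_psi hf

theorem MOd_cub : ∃ K : ℝ, 0 ≤ K ∧ ∀ (y e : ℝ), |e| ≤ 1 →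
    |2 * (Qf 4 y) ^ 2 * e ^ 3 + Qf 4 y * e ^ 4 + e ^ 5 / 5| ≤ K * |e| ^ 3 := by
  obtain ⟨M, hM, hQ, -⟩ := Nlb_max (k := 4) (by norm_num)
  refine ⟨2 * M ^ 2 + M + 1, by positivity, fun y e he => ?_⟩
  have h0 := (Qf_pos 4 y).le
  have h1 := hQ y
  have h2 : 2 * (Qf 4 y) ^ 2 * e ^ 3 + Qf 4 y * e ^ 4 + e ^ 5 / 5 =
      (2 * (Qf 4 y) ^ 2 + Qf 4 y * e + e ^ 2 / 5) * e ^ 3 := by ring
  rw [h2, abs_mul, abs_pow]
  refine mul_le_mul_of_nonneg_right ?_ (by positivity)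
  have h3 : (Qf 4 y) ^ 2 ≤ M ^ 2 := by gcongr
  have h4 : e ^ 2 ≤ 1 := by
    rw [← sq_abs]
    exact pow_le_one₀ (abs_nonneg e) he
  obtain ⟨h5, h6⟩ := abs_le.mp he
  have h7 : Qf 4 y * e ≤ M := by nlinarith
  have h8 : -M ≤ Qf 4 y * e := by nlinarith
  rw [abs_le]
  constructor
  · nlinarith [sq_nonneg (Qf 4 y), sq_nonneg e, sq_nonneg M]
  · linarith

theorem MOd_cube {h x : ℝ} (hx : |x| ≤ 1) {A : ℝ} (hh : |h| ≤ A) :
    |h + x| ^ 3 ≤ 4 * A ^ 3 + 4 * x ^ 2 := by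
  have h1 : |h + x| ≤ |h| + |x| := abs_add_le h x
  have h2 : |h + x| ^ 3 ≤ (|h| + |x|) ^ 3 := by gcongr
  have a0 := abs_nonneg h
  have b0 := abs_nonneg x
  have h3 : (|h| + |x|) ^ 3 ≤ 4 * (|h| ^ 3 + |x| ^ 3) := by
    have : 0 ≤ 3 * (|h| + |x|) * (|h| - |x|) ^ 2 := by positivity
    nlinarith
  have h4 : |h| ^ 3 ≤ A ^ 3 := by gcongr
  have h5 : |x| ^ 3 ≤ x ^ 2 := by
    rw [← sq_abs x]
    calc |x| ^ 3 = |x| ^ 2 * |x| := by ring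
      _ ≤ |x| ^ 2 * 1 := by gcongr
      _ = |x| ^ 2 := mul_one _
  linarith

theorem MOd_num {b a r L1 I1 I2 B0 D0 C0 C1 C2 C3 C4 K Ch A1 A2 J : ℝ} (hr : 0 < r) (hL1 : 0 ≤ L1)
    (hb : |b| ≤ A1 * r ^ 4) (ha : |a| ≤ A2 * r ^ 4) (hA1 : 0 ≤ A1) (hA2 : 0 ≤ A2)
    (h1 : |I1| ≤ C1 * √L1) (h2 : |I2| ≤ C2 * √L1) (hB : |B0| ≤ 2 * (C3 * L1))
    (hC1 : 0 ≤ C1) (hC2 : 0 ≤ C2) (hC3 : 0 ≤ C3) (hC4 : 0 ≤ C4) (hK : 0 ≤ K) (hCh : 0 ≤ Ch) (hJ : 0 ≤ J)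
    (hD : |D0| ≤ 4 * K * (Ch * r ^ 4) ^ 3 * J + 4 * K * (C4 * L1))
    (hC0 : C0 = 4 * A1 * C1 + 4 * A2 * C2 + 2 * C3 + 4 * K * Ch ^ 3 * J + 4 * K * C4 + 1) :
    |4 * (b * I1 + a * I2) + B0 + D0| ≤ C0 * (r ^ 12 + r ^ 4 * √L1 + L1) := by
  have hs := Real.sqrt_nonneg L1
  have e1 : |b * I1| ≤ A1 * C1 * (r ^ 4 * √L1) := by
    rw [abs_mul]
    calc |b| * |I1| ≤ (A1 * r ^ 4) * (C1 * √L1) := by gcongr
      _ = A1 * C1 * (r ^ 4 * √L1) := by ring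
  have e2 : |a * I2| ≤ A2 * C2 * (r ^ 4 * √L1) := by
    rw [abs_mul]
    calc |a| * |I2| ≤ (A2 * r ^ 4) * (C2 * √L1) := by gcongr
      _ = A2 * C2 * (r ^ 4 * √L1) := by ring
  have e3 : |4 * (b * I1 + a * I2) + B0 + D0| ≤ 4 * (|b * I1| + |a * I2|) + |B0| + |D0| := by
    have t1 := abs_add_le (4 * (b * I1 + a * I2) + B0) D0
    have t2 := abs_add_le (4 * (b * I1 + a * I2)) B0
    have t3 := abs_add_le (b * I1) (a * I2)
    have t4 : |4 * (b * I1 + a * I2)| = 4 * |b * I1 + a * I2| := by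
      rw [abs_mul]
      norm_num
    linarith
  set u := r ^ 4 * √L1 with hu
  have hu0 : 0 ≤ u := by positivity
  have hr12 : 0 ≤ r ^ 12 := by positivity
  have e4 : 4 * K * (Ch * r ^ 4) ^ 3 * J = 4 * K * Ch ^ 3 * J * r ^ 12 := by ring
  rw [e4] at hD
  have n1 : 0 ≤ A1 * C1 := mul_nonneg hA1 hC1
  have n2 : 0 ≤ A2 * C2 := mul_nonneg hA2 hC2
  have n3 : 0 ≤ K * Ch ^ 3 * J := by positivity
  have n4 : 0 ≤ K * C4 := mul_nonneg hK hC4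
  have e5 : C0 * (r ^ 12 + u + L1) = (4 * (A1 * C1) + 4 * (A2 * C2) + 2 * C3 + 4 * (K * Ch ^ 3 * J) + 4 * (K * C4) + 1)
      * (r ^ 12 + u + L1) := by
    rw [hC0]
    ring
  rw [e5]
  nlinarith [mul_nonneg n1 hr12, mul_nonneg n1 hL1, mul_nonneg n2 hr12, mul_nonneg n2 hL1, mul_nonneg hC3 hr12,
    mul_nonneg hC3 hu0, mul_nonneg n3 hu0, mul_nonneg n3 hL1, mul_nonneg n4 hr12, mul_nonneg n4 hu0]

theorem MOd_int {b a : ℝ} {F1 F2 G D : ℝ → ℝ} (h1 : Integrable F1) (h2 : Integrable F2) (h3 : Integrable G)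
    (h4 : Integrable D) : ∫ y, (4 * (b * F1 y + a * F2 y) + 2 * G y + D y) =
      4 * (b * (∫ y, F1 y) + a * ∫ y, F2 y) + 2 * (∫ y, G y) + ∫ y, D y := by
  have i1 : Integrable (fun y => b * F1 y) := h1.const_mul b
  have i2 : Integrable (fun y => a * F2 y) := h2.const_mul a
  have i12 : Integrable (fun y => b * F1 y + a * F2 y) := i1.add i2
  have i5 : Integrable (fun y => 4 * (b * F1 y + a * F2 y)) := i12.const_mul 4
  have i3 : Integrable (fun y => 2 * G y) := h3.const_mul 2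
  have i6 : Integrable (fun y => 4 * (b * F1 y + a * F2 y) + 2 * G y) := i5.add i3
  rw [integral_add i6 h4, integral_add i5 i3, integral_const_mul, integral_const_mul, integral_add i1 i2,
    integral_const_mul, integral_const_mul]

theorem R_exp (hp : Prof P E) (hγ : 0 < γ) (hγ1 : γ ≤ 1 / 4) (hB : 16 ≤ B) :
    ∃ C : ℝ, 0 < C ∧ ∀ c Ca r w m W et, c ≤ 1 → r ≤ 1 → Sit P E γ B c Ca r w m W et →
      |ip (Rf 4 (fun y => W y - Qf 4 y)) (deriv (Qf 4))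
        - 1 / 2 * (∫ y, 4 * (Qf 4 y) ^ 3 * deriv (Qf 4) y *
            (hf P E (bq (r ^ 2) W) (alf (r ^ 2) W) y) ^ 2)| ≤
      C * (r ^ 12 + r ^ 4 * √(ln γ B (ep P E (r ^ 2) W)) + ln γ B (ep P E (r ^ 2) W)) := by
  obtain ⟨Ch, hCh0, hCh⟩ := h_le (γ := γ) (B := B) hp
  obtain ⟨C1, hC10, hC1⟩ := ip_ln hγ hγ1 hB
    (ψ := fun y => (Qf 4 y) ^ 3 * deriv (Qf 4) y * P y)
    (Cl_mono (MOd_psi_mul hp.cP) (by norm_num) (by norm_num))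
  obtain ⟨C2, hC20, hC2⟩ := ip_ln hγ hγ1 hB
    (ψ := fun y => (Qf 4 y) ^ 3 * deriv (Qf 4) y * E y)
    (Cl_mono (MOd_psi_mul (MOd_E hp)) (by norm_num) (by norm_num))
  obtain ⟨C3, hC30, hC3⟩ := ln_dom hγ hγ1 hB
    (ψ := fun y => (Qf 4 y) ^ 3 * deriv (Qf 4) y) (Cl_mono MOd_psi (by norm_num) (by norm_num))
  obtain ⟨C4, hC40, hC4⟩ := ln_dom hγ hγ1 hB
    (ψ := deriv (Qf 4)) (Cl_mono MOd_Qd (by norm_num) (by norm_num))
  obtain ⟨K, hK0, hK⟩ := MOd_cub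
  set J : ℝ := ∫ y, |deriv (Qf 4) y| with hJ
  have hJ0 : 0 ≤ J := integral_nonneg fun y => abs_nonneg _
  refine ⟨4 * |5 * c0| * C1 + 4 * (|f0| + 1) * C2 + 2 * C3 + 4 * K * Ch ^ 3 * J + 4 * K * C4 + 1,
    by positivity, ?_⟩
  intro c Ca r w m W et hc hr hS
  obtain ⟨p, q, hp0, hp1, hq0, hq1, hcl, -⟩ := hS.cl
  have hr0 := hS.r0
  set b := bq (r ^ 2) W with hb
  set a := alf (r ^ 2) W with ha
  set X := ep P E (r ^ 2) W with hX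
  have hXc : Cl 0 0 X := ep_cl hp hp0.le hq0.le hcl
  have hXb : ∀ y, |X y| ≤ 1 := fun y => (hS.supe y).trans hc
  have hHb : ∀ y, |hf P E b a y| ≤ Ch * r ^ 4 := hCh c Ca r w m W et hS
  have hsp : ∀ y, W y - Qf 4 y = hf P E b a y + X y := fun y => ep_split P E (r ^ 2) W y
  have heb : ∀ y, |W y - Qf 4 y| ≤ 1 := fun y => (hS.sup y).trans hc
  have he0 : Cl 0 0 (fun y => W y - Qf 4 y) := Cl_mono hcl hp0.le hq0.le
  have hH0 : Cl 0 0 (hf P E b a) := hf_cl hp b a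
  -- integrability
  have iR : Integrable (fun y => Rf 4 (fun y => W y - Qf 4 y) y * deriv (Qf 4) y) :=
    Cl_int (Cl_mul0 (Cl_Rf (by norm_num) le_rfl le_rfl he0) MOd_Qd) one_pos one_pos
  have iH : Integrable (fun y => 4 * (Qf 4 y) ^ 3 * deriv (Qf 4) y * (hf P E b a y) ^ 2) := by
    have h1 := Cl_int (Cl_smul 4 (MOd_psi_mul (Cl_pow0 hH0 2))) one_pos one_pos
    refine h1.congr (Eventually.of_forall fun y => ?_)
    show 4 * ((Qf 4 y) ^ 3 * deriv (Qf 4) y * (hf P E b a y) ^ 2) = _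
    ring
  have iA1 : Integrable (fun y => X y * ((Qf 4 y) ^ 3 * deriv (Qf 4) y * P y)) :=
    Cl_int (Cl_mul0 hXc (MOd_psi_mul hp.cP)) one_pos one_pos
  have iA2 : Integrable (fun y => X y * ((Qf 4 y) ^ 3 * deriv (Qf 4) y * E y)) :=
    Cl_int (Cl_mul0 hXc (MOd_psi_mul (MOd_E hp))) one_pos one_pos
  have iB : Integrable (fun y => (Qf 4 y) ^ 3 * deriv (Qf 4) y * (X y) ^ 2) :=
    Cl_int (MOd_psi_mul (Cl_pow0 hXc 2)) one_pos one_pos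
  have iBa : Integrable (fun y => |(Qf 4 y) ^ 3 * deriv (Qf 4) y| * (X y) ^ 2) := by
    refine iB.abs.congr (Eventually.of_forall fun y => ?_)
    show |(Qf 4 y) ^ 3 * deriv (Qf 4) y * (X y) ^ 2| = _
    rw [abs_mul, abs_of_nonneg (sq_nonneg (X y))]
  have iQX : Integrable (fun y => |deriv (Qf 4) y| * (X y) ^ 2) := by
    have h1 := (Cl_int (Nla_mulr MOd_Qd (Cl_pow0 hXc 2)) one_pos one_pos).abs
    refine h1.congr (Eventually.of_forall fun y => ?_)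
    show |deriv (Qf 4) y * (X y) ^ 2| = _
    rw [abs_mul, abs_of_nonneg (sq_nonneg (X y))]
  have iQ : Integrable (fun y => |deriv (Qf 4) y|) := (Cl_int MOd_Qd one_pos one_pos).abs
  have iA : Integrable (fun y => 4 * (b * (X y * ((Qf 4 y) ^ 3 * deriv (Qf 4) y * P y))
      + a * (X y * ((Qf 4 y) ^ 3 * deriv (Qf 4) y * E y)))) :=
    ((iA1.const_mul b).add (iA2.const_mul a)).const_mul 4
  set D : ℝ → ℝ := fun y => deriv (Qf 4) y *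
    (2 * (Qf 4 y) ^ 2 * (W y - Qf 4 y) ^ 3 + Qf 4 y * (W y - Qf 4 y) ^ 4 + (W y - Qf 4 y) ^ 5 / 5) with hDdef
  have hDeq : ∀ y, Rf 4 (fun y => W y - Qf 4 y) y * deriv (Qf 4) y
      - 1 / 2 * (4 * (Qf 4 y) ^ 3 * deriv (Qf 4) y * (hf P E b a y) ^ 2) =
      4 * (b * (X y * ((Qf 4 y) ^ 3 * deriv (Qf 4) y * P y))
      + a * (X y * ((Qf 4 y) ^ 3 * deriv (Qf 4) y * E y)))
      + 2 * ((Qf 4 y) ^ 3 * deriv (Qf 4) y * (X y) ^ 2) + D y := by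
    intro y
    rw [R4_eq]
    have h1 := hsp y
    have h2 : hf P E b a y = b * P y + a * E y := rfl
    simp only [hDdef]
    have h3 : (W y - Qf 4 y) ^ 2 = (b * P y + a * E y + X y) ^ 2 := by rw [h1, h2]
    have h4 : X y * ((Qf 4 y) ^ 3 * deriv (Qf 4) y * P y) = X y * ((Qf 4 y) ^ 3 * deriv (Qf 4) y * P y) := rfl
    rw [h2]
    linear_combination (2 * (Qf 4 y) ^ 3 * deriv (Qf 4) y) * h3
  have iD : Integrable D := by
    have h1 := (iR.sub (iH.const_mul (1 / 2))).sub (iA.add (iB.const_mul 2))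
    refine h1.congr (Eventually.of_forall fun y => ?_)
    have h2 := hDeq y
    show Rf 4 (fun y => W y - Qf 4 y) y * deriv (Qf 4) y
      - 1 / 2 * (4 * (Qf 4 y) ^ 3 * deriv (Qf 4) y * (hf P E b a y) ^ 2) -
      (4 * (b * (X y * ((Qf 4 y) ^ 3 * deriv (Qf 4) y * P y))
      + a * (X y * ((Qf 4 y) ^ 3 * deriv (Qf 4) y * E y)))
      + 2 * ((Qf 4 y) ^ 3 * deriv (Qf 4) y * (X y) ^ 2)) = D y
    linarith
  have hmain : ip (Rf 4 (fun y => W y - Qf 4 y)) (deriv (Qf 4))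
        - 1 / 2 * (∫ y, 4 * (Qf 4 y) ^ 3 * deriv (Qf 4) y * (hf P E b a y) ^ 2) =
      4 * (b * ip X (fun y => (Qf 4 y) ^ 3 * deriv (Qf 4) y * P y)
        + a * ip X (fun y => (Qf 4 y) ^ 3 * deriv (Qf 4) y * E y))
      + 2 * (∫ y, (Qf 4 y) ^ 3 * deriv (Qf 4) y * (X y) ^ 2) + ∫ y, D y := by
    unfold ip
    rw [← integral_const_mul (1 / 2), ← integral_sub iR (iH.const_mul (1 / 2)),
      integral_congr_ae (Eventually.of_forall hDeq)]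
    exact MOd_int iA1 iA2 iB iD
  rw [hmain]
  have hDb : |∫ y, D y| ≤ 4 * K * (Ch * r ^ 4) ^ 3 * J + 4 * K * (C4 * ln γ B X) := by
    have h1 : ∀ y, |D y| ≤ 4 * K * (Ch * r ^ 4) ^ 3 * |deriv (Qf 4) y|
        + 4 * K * (|deriv (Qf 4) y| * (X y) ^ 2) := by
      intro y
      have h2 := hK y (W y - Qf 4 y) (heb y)
      have h3 : |W y - Qf 4 y| ^ 3 ≤ 4 * (Ch * r ^ 4) ^ 3 + 4 * (X y) ^ 2 := by
        rw [hsp y]
        exact MOd_cube (hXb y) (hHb y)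
      simp only [hDdef]
      rw [abs_mul]
      calc |deriv (Qf 4) y| * |2 * (Qf 4 y) ^ 2 * (W y - Qf 4 y) ^ 3 + Qf 4 y * (W y - Qf 4 y) ^ 4
            + (W y - Qf 4 y) ^ 5 / 5| ≤ |deriv (Qf 4) y| * (K * |W y - Qf 4 y| ^ 3) := by gcongr
        _ ≤ |deriv (Qf 4) y| * (K * (4 * (Ch * r ^ 4) ^ 3 + 4 * (X y) ^ 2)) := by gcongr
        _ = _ := by ring
    have h4 : |∫ y, D y| ≤ ∫ y, |D y| := abs_integral_le_integral_abs
    have h5 : ∫ y, |D y| ≤ ∫ y, (4 * K * (Ch * r ^ 4) ^ 3 * |deriv (Qf 4) y|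
        + 4 * K * (|deriv (Qf 4) y| * (X y) ^ 2)) :=
      integral_mono iD.abs ((iQ.const_mul _).add (iQX.const_mul _)) h1
    rw [integral_add (iQ.const_mul _) (iQX.const_mul _), integral_const_mul, integral_const_mul] at h5
    have h6 := hC4 X hXc
    have h7 : 4 * K * (∫ y, |deriv (Qf 4) y| * (X y) ^ 2) ≤ 4 * K * (C4 * ln γ B X) := by gcongr
    linarith
  have hBb : |2 * (∫ y, (Qf 4 y) ^ 3 * deriv (Qf 4) y * (X y) ^ 2)| ≤ 2 * (C3 * ln γ B X) := by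
    rw [abs_mul, abs_of_pos (by norm_num : (0:ℝ) < 2)]
    have h1 : |∫ y, (Qf 4 y) ^ 3 * deriv (Qf 4) y * (X y) ^ 2| ≤
        ∫ y, |(Qf 4 y) ^ 3 * deriv (Qf 4) y| * (X y) ^ 2 := by
      refine abs_integral_le_integral_abs.trans (le_of_eq ?_)
      refine integral_congr_ae (Eventually.of_forall fun y => ?_)
      show |(Qf 4 y) ^ 3 * deriv (Qf 4) y * (X y) ^ 2| = _
      rw [abs_mul, abs_of_nonneg (sq_nonneg (X y))]
    have h2 := hC3 X hXc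
    linarith
  have hln : 0 ≤ ln γ B X := by
    unfold ln loc se2 ch
    exact integral_nonneg fun y => by positivity
  refine MOd_num (A1 := |5 * c0|) (A2 := |f0| + 1) hr0 hln ?_ hS.a1 (abs_nonneg _) (by positivity) (hC1 X hXc)
    (hC2 X hXc) hBb hC10 hC20 hC30 hC40 hK0 hCh0 hJ0 hDb rfl
  refine hS.b1.trans ?_
  have h1 : 5 * c0 ≤ |5 * c0| := le_abs_self _
  gcongr

end H68KC

end

end S_H68_KC_MOd

section S_H68_KC_PRh

/-!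
# Row PRh (MP_95be7d_K4): the quadratic identity behind the law of `b`

## Proof
`h = b P + α E` (class `0 0`), `h' = b P' + α E'` (class `3/4 3/4`), `Lh := Lop 4 h = -b J + α` (linearity of `Lop`),
`(Lh)' = b ΛQ`. Limits: `P, J → 0`, `E → 1` at `+∞`; `P → I/2`, `J → -I/2`, `E → 1` at `-∞`.

(1) `∫ (Lh) h' = ∫ (-h'' h' + h h' - Q⁴ h h')`. Here `-h'' h' + h h' = (-(h'²)/2 + h²/2)'`, and
`-Q⁴ h h' = -(Q⁴ h²/2)' + (1/2)(Q⁴)' h²`. So `∫ (Lh) h' = (1/2)[h²] + (1/2) ∫ (Q⁴)' h²`,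
`[h²] = h(∞)² - h(-∞)² = α² - (α + b I/2)²`.
(2) `∫ (Lh) h' = [(Lh) h] - ∫ (Lh)' h = [h²] - b ∫ ΛQ h`, because `Lh` and `h` have the same limits at `±∞`.
Hence `(1/2) ∫ (Q⁴)' h² = (1/2)[h²] - b (ΛQ,h)` and `(1/2)[h²] = -α b I/2 - b² I²/8`.

In Lean: use `integral_of_hasDerivAt_of_tendsto` (functions `-(h'²)/2 + h²/2 - Q⁴h²/2` and `Lh * h`; the derivatives are
integrable since they contain a factor of class `3/4 3/4`), `(Q⁴)' = 4 Q³ Q'`.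
-/

open MeasureTheory Filter Topology Set
open scoped ContDiff

noncomputable section

namespace H68KC

open H98KB

variable {P E : ℝ → ℝ}

theorem PRh_top {f : ℝ → ℝ} {C : ℝ} (h : ∀ y, 0 ≤ y → |f y| ≤ C * Real.exp (-(3 / 4) * y)) :
    Tendsto f atTop (𝓝 0) := by
  have h1 : Tendsto (fun y : ℝ => C * Real.exp (-(3 / 4) * y)) atTop (𝓝 0) := by
    have h2 : Tendsto (fun y : ℝ => (3 / 4 : ℝ) * y) atTop atTop :=
      tendsto_id.const_mul_atTop (by norm_num)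
    have h3 := (Real.tendsto_exp_neg_atTop_nhds_zero.comp h2).const_mul C
    rw [mul_zero] at h3
    refine h3.congr fun y => ?_
    simp only [Function.comp_apply, neg_mul]
  refine squeeze_zero_norm' ?_ h1
  filter_upwards [eventually_ge_atTop (0 : ℝ)] with y hy
  rw [Real.norm_eq_abs]
  exact h y hy

theorem PRh_bot {f : ℝ → ℝ} {C c : ℝ} (h : ∀ y, y ≤ 0 → |f y - c| ≤ C * Real.exp (3 / 4 * y)) :
    Tendsto f atBot (𝓝 c) := by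
  have h1 : Tendsto (fun y => f (-y) - c) atTop (𝓝 0) := by
    refine PRh_top (C := C) fun y hy => ?_
    have h2 := h (-y) (by linarith)
    have e : 3 / 4 * -y = -(3 / 4) * y := by ring
    rwa [e] at h2
  have h2 := (h1.comp tendsto_neg_atBot_atTop).add_const c
  rw [zero_add] at h2
  refine h2.congr fun y => ?_
  simp only [Function.comp_apply, neg_neg, sub_add_cancel]

theorem PRh_E (h : Prof P E) : Tendsto E atTop (𝓝 1) ∧ Tendsto E atBot (𝓝 1) := by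
  have h1 := (Cl_tendsto_top h.E1 (by norm_num)).add_const 1
  have h2 := (Cl_tendsto_bot h.E1 (by norm_num)).add_const 1
  rw [zero_add] at h1 h2
  simp only [sub_add_cancel] at h1 h2
  exact ⟨h1, h2⟩

theorem PRh_hd (h : Prof P E) (b α y : ℝ) :
    HasDerivAt (hf P E b α) (b * deriv P y + α * deriv E y) y :=
  ((Cl_hd h.cP y).const_mul b).add ((Cl_hd (E_cl h) y).const_mul α)

theorem PRh_dE (h : Prof P E) : Cl (3 / 4) (3 / 4) (deriv E) := by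
  have h1 := Cl_der h.E1
  have h2 : deriv (fun y => E y - 1) = deriv E := by
    funext y
    rw [deriv_sub_const]
  rwa [h2] at h1

theorem PRh_hd2 (h : Prof P E) (b α y : ℝ) :
    HasDerivAt (fun y => b * deriv P y + α * deriv E y)
      (b * deriv (deriv P) y + α * deriv (deriv E) y) y :=
  ((Cl_hd h.dP y).const_mul b).add ((Cl_hd (PRh_dE h) y).const_mul α)

theorem BL_id (h : Prof P E) (b α : ℝ) :
    1 / 2 * (∫ y, 4 * (Qf 4 y) ^ 3 * deriv (Qf 4) y * (hf P E b α y) ^ 2)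
      + b * ip (hf P E b α) (Lam 4 (Qf 4)) = -(1 / 2) * α * b * Iq - 1 / 8 * b ^ 2 * Iq ^ 2 := by
  have hQ := Cl_Qf (k := 4) PRg_k
  have hH : Cl 0 0 (hf P E b α) := Cl_add (Cl_smul b h.cP) (Cl_smul α (E_cl h))
  have hD : Cl (3 / 4) (3 / 4) (fun y => b * deriv P y + α * deriv E y) :=
    Cl_add (Cl_smul b h.dP) (Cl_smul α (PRh_dE h))
  have hcl1 : Cl 4 4 (fun y => 4 * (Qf 4 y) ^ 3 * deriv (Qf 4) y * (hf P E b α y) ^ 2) := by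
    have a := Cl_mul (Cl_mul (Cl_smul 4 (Cl_pow hQ 3)) (Cl_der hQ)) (Cl_pow hH 2)
    exact Cl_mono a (by norm_num) (by norm_num)
  have hcl2 : Cl (1 / 2) (1 / 2) (fun y => hf P E b α y * Lam 4 (Qf 4) y) :=
    Cl_mul0 hH PRg_Lam
  have i1 := Cl_int hcl1 (by norm_num) (by norm_num)
  have i2 := Cl_int hcl2 (by norm_num) (by norm_num)
  have hLop : ∀ y, -(b * deriv (deriv P) y + α * deriv (deriv E) y) + hf P E b α y -
      (Qf 4 y) ^ 4 * hf P E b α y = α - b * Jf y := by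
    intro y
    have h1 := h.LP y
    have h2 := h.LE y
    unfold Lop at h1 h2
    unfold hf
    linear_combination b * h1 + α * h2
  have hder : ∀ y, HasDerivAt (fun y => -((b * deriv P y + α * deriv E y) ^ 2 / 2) +
      (hf P E b α y) ^ 2 / 2 - (Qf 4 y) ^ 4 * (hf P E b α y) ^ 2 / 2 -
      (α - b * Jf y) * hf P E b α y)
      (-(1 / 2) * (4 * (Qf 4 y) ^ 3 * deriv (Qf 4) y * (hf P E b α y) ^ 2) -
        b * (hf P E b α y * Lam 4 (Qf 4) y)) y := by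
    intro y
    have a1 := PRh_hd h b α y
    have a2 := PRh_hd2 h b α y
    have a3 := Cl_hd hQ y
    have a4 := Jf_hd y
    have b1 := ((a2.pow 2).div_const 2).neg
    have b2 := (a1.pow 2).div_const 2
    have b3 := ((a3.pow 4).mul (a1.pow 2)).div_const 2
    have b4 := ((a4.const_mul b).const_sub α).mul a1
    refine (((b1.add b2).sub b3).sub b4).congr_deriv ?_
    have e := hLop y
    simp only [Pi.pow_apply]
    push_cast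
    linear_combination (b * deriv P y + α * deriv E y) * e
  have hi : Integrable (fun y => -(1 / 2) * (4 * (Qf 4 y) ^ 3 * deriv (Qf 4) y * (hf P E b α y) ^ 2) -
        b * (hf P E b α y * Lam 4 (Qf 4) y)) := (i1.const_mul _).sub (i2.const_mul _)
  obtain ⟨C0, hC0⟩ := h.P0
  obtain ⟨C1, hC1⟩ := h.P1
  have tP1 := PRh_top hC0
  have tP2 := PRh_bot hC1
  obtain ⟨tE1, tE2⟩ := PRh_E h
  have tQ1 := Cl_tendsto_top hQ one_pos
  have tQ2 := Cl_tendsto_bot hQ one_pos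
  have tD1 := Cl_tendsto_top hD (by norm_num)
  have tD2 := Cl_tendsto_bot hD (by norm_num)
  have tH1 : Tendsto (hf P E b α) atTop (𝓝 (b * 0 + α * 1)) := (tP1.const_mul b).add (tE1.const_mul α)
  have tH2 : Tendsto (hf P E b α) atBot (𝓝 (b * (Iq / 2) + α * 1)) :=
    (tP2.const_mul b).add (tE2.const_mul α)
  have l1 := ((((tD1.pow 2).div_const 2).neg.add ((tH1.pow 2).div_const 2)).sub
    (((tQ1.pow 4).mul (tH1.pow 2)).div_const 2)).sub (((PRg_top.const_mul b).const_sub α).mul tH1)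
  have l2 := ((((tD2.pow 2).div_const 2).neg.add ((tH2.pow 2).div_const 2)).sub
    (((tQ2.pow 4).mul (tH2.pow 2)).div_const 2)).sub (((PRg_bot.const_mul b).const_sub α).mul tH2)
  have hmain := integral_of_hasDerivAt_of_tendsto hder hi l2 l1
  rw [integral_sub (i1.const_mul _) (i2.const_mul _), integral_const_mul, integral_const_mul] at hmain
  unfold ip
  linear_combination -hmain

end H68KC

end

end S_H68_KC_PRh

section S_H68_KC_MOe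

/-!
# Row MOe (MP_95be7d_K4): the law of `b`

Notation: `e = W - Q = h + ε`, `n = √(ln ε)`, `ne = √(ne2 et)`, `l = r^8`, `K = ∫ Q'²`, `I = Iq`, `b = bq`, `α = alf`,
`Z = ze w m l W et`, `q = ip W Q'`, `A = alm (r^2) w W Z`.

## Proof
`pair_ze` with `φ = Q`: `L Q' = 0`, `(ΛQ,Q) = 0` (`ip_LamQ_Q`, `sc 4 = 0`), `(Q',Q) = 0`, `(Q'',Q) = -K`, `(e,Q') = q` (`ep_Qd`):
`(Z,Q) = (R,Q') - l K + w (e,ΛQ) - m q + l (e,Q'') + (et,Q')`.
`alD = A - w α/2`. So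
`bqD I²/16 = (Z,Q) - alD I/4 = (R,Q') + w (e,ΛQ) - l K + w α I/8 - A I/4 - m q + l (e,Q'') + (et,Q')`.
Now (errors `Er = C (r^{12} + r⁴ n + n² + |A| + |q| + ne)`):
* `(R,Q') = (1/2)∫ 4Q³Q' h² + Er` (`R_exp`);
* `w (e,ΛQ) = w (h,ΛQ) + w (ε,ΛQ) = b (h,ΛQ) + (w - b)(h,ΛQ) + w (ε,ΛQ)`, `|(h,ΛQ)| ≤ C r⁴` (`h_le`), `|w - b| ≤ C (n + r^8 + ne)` (`bw_le`),
  `|(ε,ΛQ)| ≤ C n` (`ip_ln`, `Cl_LamQ`), `0 ≤ w ≤ 5c₀ r⁴`;
* `(1/2)∫ 4Q³Q' h² + b (h,ΛQ) = -α b I/2 - b² I²/8` (`BL_id`);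
* `w α I/8 = b α I/8 + (w - b) α I/8`, `|α| ≤ C r⁴` (`a1`);
* `|m q| ≤ C |q|` (`m_le`: `|m| ≤ C (n + r^8 + ne) ≤ 3 C` as `n² ≤ c ≤ 1`, `ne² ≤ 1`, `r ≤ 1`), `|l (e,Q'')| ≤ C r^8 (r⁴ + n)` (`e_ip`), `|(et,Q')| ≤ C ne`.
Sum: `bqD I²/16 = -(3/8) α b I - b² I²/8 - l K + Er`; multiply by `16/I²` (`Iq_pos`): `-(6/I) α b - 2 b² - cnu l`.
-/

open MeasureTheory Filter Topology Set
open scoped ContDiff

noncomputable section

namespace H68KC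

open H98KB

variable {P E : ℝ → ℝ} {γ B : ℝ}

theorem MOe_alg {Z1 D A w al b I K R X hL eL l q m eQ2 tQ cn : ℝ} (hI : 0 < I)
    (hZ : Z1 = R - l * K + w * (hL + eL) - m * q + l * eQ2 + tQ)
    (hD : D = (Z1 - (A - 1 / 2 * w * al) * (I / 4)) * (16 / I ^ 2))
    (hX : X + b * hL = -(1 / 2) * al * b * I - 1 / 8 * b ^ 2 * I ^ 2)
    (hc : cn = 16 * K / I ^ 2) :
    D + 2 * b ^ 2 + 6 / I * al * b + cn * l =
      16 / I ^ 2 * ((R - X) + (w - b) * (hL + al * I / 8) + w * eL - m * q + l * eQ2 + tQ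
        - A * (I / 4)) := by
  have e1 : (16 : ℝ) / I ^ 2 = 16 * (I⁻¹) ^ 2 := by rw [inv_pow]; rfl
  have e2 : 16 * K / I ^ 2 = 16 * K * (I⁻¹) ^ 2 := by rw [inv_pow]; rfl
  have e3 : (6 : ℝ) / I = 6 * I⁻¹ := rfl
  have h1 : I⁻¹ * I = 1 := inv_mul_cancel₀ hI.ne'
  rw [hc, hD, hZ, e1, e2, e3]
  linear_combination 16 * (I⁻¹) ^ 2 * hX
    - (6 * I⁻¹ * al * b + 2 * b ^ 2 * (1 + I⁻¹ * I)) * h1

theorem MOe_bound {r N Lq ne A q C1 C2 C3 C4 C5 C6 C7 c w b G eL m eQ2 tQ I D1 : ℝ}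
    (hr : 0 ≤ r) (hr1 : r ≤ 1) (hN : 0 ≤ N) (hN1 : N ≤ 1) (hL : 0 ≤ Lq) (hne : 0 ≤ ne)
    (hne1 : ne ≤ 1) (hC1 : 0 ≤ C1) (hC2 : 0 ≤ C2) (hC3 : 0 ≤ C3) (hC4 : 0 ≤ C4) (hC5 : 0 ≤ C5)
    (hC6 : 0 ≤ C6) (hC7 : 0 ≤ C7) (hc : 0 ≤ c) (hI : 0 < I)
    (h1 : |D1| ≤ C1 * (r ^ 12 + r ^ 4 * N + Lq)) (h2 : |w - b| ≤ C2 * (N + r ^ 8 + ne))
    (h3 : |G| ≤ C3 * r ^ 4) (hw0 : 0 ≤ w) (hw : w ≤ 5 * c * r ^ 4) (h4 : |eL| ≤ C4 * N)
    (h5 : |m| ≤ C5 * (N + r ^ 8 + ne)) (h6 : |eQ2| ≤ C6 * (r ^ 4 + N)) (h7 : |tQ| ≤ C7 * ne) :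
    |D1 + (w - b) * G + w * eL - m * q + r ^ 8 * eQ2 + tQ - A * (I / 4)| ≤
      (C1 + C2 * C3 + 5 * c * C4 + 3 * C5 + C6 + C7 + I / 4) *
        (r ^ 12 + r ^ 4 * N + Lq + |A| + |q| + ne) := by
  have r4 : 0 ≤ r ^ 4 := by positivity
  have r41 : r ^ 4 ≤ 1 := pow_le_one₀ hr hr1
  have r8 : 0 ≤ r ^ 8 := by positivity
  have r81 : r ^ 8 ≤ 1 := pow_le_one₀ hr hr1
  have r84 : r ^ 8 ≤ r ^ 4 := pow_le_pow_of_le_one hr hr1 (by norm_num)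
  have r12 : 0 ≤ r ^ 12 := by positivity
  have hA := abs_nonneg A
  have hq := abs_nonneg q
  have h4N : 0 ≤ r ^ 4 * N := mul_nonneg r4 hN
  have h4ne : r ^ 4 * ne ≤ ne := by
    have := mul_le_mul_of_nonneg_right r41 hne
    linarith
  have h8N : r ^ 8 * N ≤ r ^ 4 * N := mul_le_mul_of_nonneg_right r84 hN
  set S := r ^ 12 + r ^ 4 * N + Lq + |A| + |q| + ne with hS
  have k1 : |D1| ≤ C1 * S :=
    h1.trans (mul_le_mul_of_nonneg_left (by rw [hS]; linarith) hC1)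
  have k2 : |(w - b) * G| ≤ C2 * C3 * S := by
    rw [abs_mul]
    calc |w - b| * |G| ≤ (C2 * (N + r ^ 8 + ne)) * (C3 * r ^ 4) :=
          mul_le_mul h2 h3 (abs_nonneg _) (by positivity)
      _ = C2 * C3 * (r ^ 4 * N + r ^ 12 + r ^ 4 * ne) := by ring
      _ ≤ C2 * C3 * S := mul_le_mul_of_nonneg_left (by rw [hS]; linarith) (mul_nonneg hC2 hC3)
  have k3 : |w * eL| ≤ 5 * c * C4 * S := by
    rw [abs_mul, abs_of_nonneg hw0]
    calc w * |eL| ≤ (5 * c * r ^ 4) * (C4 * N) :=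
          mul_le_mul hw h4 (abs_nonneg _) (by positivity)
      _ = 5 * c * C4 * (r ^ 4 * N) := by ring
      _ ≤ 5 * c * C4 * S := mul_le_mul_of_nonneg_left (by rw [hS]; linarith) (by positivity)
  have k4 : |m * q| ≤ 3 * C5 * S := by
    rw [abs_mul]
    have hm : |m| ≤ 3 * C5 := by
      refine h5.trans ?_
      have : C5 * (N + r ^ 8 + ne) ≤ C5 * 3 := mul_le_mul_of_nonneg_left (by linarith) hC5
      linarith
    calc |m| * |q| ≤ (3 * C5) * |q| := mul_le_mul_of_nonneg_right hm hq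
      _ ≤ 3 * C5 * S := mul_le_mul_of_nonneg_left (by rw [hS]; linarith) (by positivity)
  have k5 : |r ^ 8 * eQ2| ≤ C6 * S := by
    rw [abs_mul, abs_of_nonneg r8]
    calc r ^ 8 * |eQ2| ≤ r ^ 8 * (C6 * (r ^ 4 + N)) := mul_le_mul_of_nonneg_left h6 r8
      _ = C6 * (r ^ 12 + r ^ 8 * N) := by ring
      _ ≤ C6 * S := mul_le_mul_of_nonneg_left (by rw [hS]; linarith) hC6
  have k6 : |tQ| ≤ C7 * S :=
    h7.trans (mul_le_mul_of_nonneg_left (by rw [hS]; linarith) hC7)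
  have k7 : |A * (I / 4)| ≤ I / 4 * S := by
    rw [abs_mul, abs_of_pos (by positivity : 0 < I / 4), mul_comm]
    exact mul_le_mul_of_nonneg_left (by rw [hS]; linarith) (by positivity)
  have e : (C1 + C2 * C3 + 5 * c * C4 + 3 * C5 + C6 + C7 + I / 4) * S =
      C1 * S + C2 * C3 * S + 5 * c * C4 * S + 3 * C5 * S + C6 * S + C7 * S + I / 4 * S := by ring
  rw [e]
  obtain ⟨a1, b1⟩ := abs_le.1 k1
  obtain ⟨a2, b2⟩ := abs_le.1 k2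
  obtain ⟨a3, b3⟩ := abs_le.1 k3
  obtain ⟨a4, b4⟩ := abs_le.1 k4
  obtain ⟨a5, b5⟩ := abs_le.1 k5
  obtain ⟨a6, b6⟩ := abs_le.1 k6
  obtain ⟨a7, b7⟩ := abs_le.1 k7
  exact abs_le.2 ⟨by linarith, by linarith⟩

theorem MOe_hL (hp : Prof P E) (b α : ℝ) {K : ℝ} (hK : ∀ y, |hf P E b α y| ≤ K) :
    |ip (hf P E b α) (Lam 4 (Qf 4))| ≤ K * ∫ y, |Lam 4 (Qf 4) y| := by
  have hc : Cl (1 / 2) (1 / 2) (Lam 4 (Qf 4)) := PRg_Lam
  have h1 : Integrable (fun y => hf P E b α y * Lam 4 (Qf 4) y) :=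
    Cl_int (Cl_mul0 (hf_cl hp b α) hc) (by norm_num) (by norm_num)
  have h2 : Integrable (Lam 4 (Qf 4)) := Cl_int hc (by norm_num) (by norm_num)
  unfold ip
  refine abs_integral_le_integral_abs.trans ?_
  rw [← integral_const_mul]
  refine integral_mono h1.abs (h2.abs.const_mul K) fun y => ?_
  show |hf P E b α y * Lam 4 (Qf 4) y| ≤ K * |Lam 4 (Qf 4) y|
  rw [abs_mul]
  exact mul_le_mul_of_nonneg_right (hK y) (abs_nonneg _)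

theorem MOe_comm (f g : ℝ → ℝ) : ip f g = ip g f := by
  unfold ip
  exact integral_congr_ae (Eventually.of_forall fun y => mul_comm _ _)

theorem MOe_c0 : 0 ≤ c0 := by
  unfold c0 cnu
  have h1 : 0 ≤ ∫ y, (deriv (Qf 4) y) ^ 2 := integral_nonneg fun y => sq_nonneg _
  have h2 : 0 ≤ 16 * (∫ y, (deriv (Qf 4) y) ^ 2) / Iq ^ 2 :=
    div_nonneg (by linarith) (sq_nonneg _)
  linarith

theorem MOe_ip {p q w m r : ℝ} {W et : ℝ → ℝ} (hpr : Prof P E) (hp : 0 < p) (hq : 0 < q)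
    (hp1 : p ≤ 1) (hq1 : q ≤ 1) (hW : Cl p q (fun y => W y - Qf 4 y)) (he : Cl p q et) :
    ip (ze w m (r ^ 8) W et) (Qf 4) =
      ip (Rf 4 (fun y => W y - Qf 4 y)) (deriv (Qf 4)) - r ^ 8 * (∫ y, (deriv (Qf 4) y) ^ 2)
      + w * (ip (hf P E (bq (r ^ 2) W) (alf (r ^ 2) W)) (Lam 4 (Qf 4))
        + ip (ep P E (r ^ 2) W) (Lam 4 (Qf 4)))
      - m * ip W (deriv (Qf 4))
      + r ^ 8 * ip (fun y => W y - Qf 4 y) (deriv (deriv (Qf 4))) + ip et (deriv (Qf 4)) := by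
  have h0 := pair_ze (w := w) (m := m) (l := r ^ 8) hp hq hp1 hq1 hW he (Cl_Qf (k := 4) PRg_k)
  have h1 : ip (fun y => W y - Qf 4 y) (Lop 4 (deriv (Qf 4))) = 0 := by
    unfold ip
    have : (fun y => (W y - Qf 4 y) * Lop 4 (deriv (Qf 4)) y) = fun _ => 0 := by
      funext y
      rw [L_Qd PRg_k, mul_zero]
    rw [this, integral_zero]
  have h2 : ip (Lam 4 (Qf 4)) (Qf 4) = 0 := by
    rw [ip_LamQ_Q PRg_k]
    unfold sc
    norm_num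
  have h3 : ip (deriv (Qf 4)) (Qf 4) = 0 := by
    rw [MOe_comm]
    exact ip_Q_Qd PRg_k
  have h4 : ip (deriv (deriv (Qf 4))) (Qf 4) = -∫ y, (deriv (Qf 4) y) ^ 2 := ip_Qdd_Q PRg_k
  have h5 : ip (fun y => W y - Qf 4 y) (deriv (Qf 4)) = ip W (deriv (Qf 4)) :=
    (ep_Qd (s := r ^ 2) hpr hp hq hW).2
  have hc : Cl (1 / 2) (1 / 2) (Lam 4 (Qf 4)) := PRg_Lam
  have h6 : ip (fun y => W y - Qf 4 y) (Lam 4 (Qf 4)) =
      ip (hf P E (bq (r ^ 2) W) (alf (r ^ 2) W)) (Lam 4 (Qf 4))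
        + ip (ep P E (r ^ 2) W) (Lam 4 (Qf 4)) := by
    unfold ip
    rw [← integral_add]
    · refine integral_congr_ae (Eventually.of_forall fun y => ?_)
      show (W y - Qf 4 y) * Lam 4 (Qf 4) y = _
      rw [ep_split P E (r ^ 2) W y]
      ring
    · exact Cl_int (Cl_mul0 (hf_cl hpr _ _) hc) (by norm_num) (by norm_num)
    · exact Cl_int (Cl_mul0 (ep_cl hpr hp.le hq.le hW) hc) (by norm_num) (by norm_num)
  rw [h0, h1, h2, h3, h4, h5, h6]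
  ring

theorem b_law (hp : Prof P E) (hγ : 0 < γ) (hγ1 : γ ≤ 1 / 4) (hB : 16 ≤ B) :
    ∃ C r1 c1 : ℝ, 0 < C ∧ 0 < r1 ∧ 0 < c1 ∧ c1 ≤ 1 ∧ ∀ c Ca r w m W et, c ≤ c1 → r ≤ r1 →
      Sit P E γ B c Ca r w m W et →
      |bqD (r ^ 2) w W (ze w m (r ^ 8) W et) + 2 * (bq (r ^ 2) W) ^ 2
        + 6 / Iq * alf (r ^ 2) W * bq (r ^ 2) W + cnu * r ^ 8| ≤
      C * (r ^ 12 + r ^ 4 * √(ln γ B (ep P E (r ^ 2) W)) + ln γ B (ep P E (r ^ 2) W)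
        + |alm (r ^ 2) w W (ze w m (r ^ 8) W et)| + |ip W (deriv (Qf 4))| + √(ne2 et)) := by
  obtain ⟨C1, hC1, H1⟩ := R_exp hp hγ hγ1 hB
  obtain ⟨C2, ra, ca, hC2, hra, hca, hca1, H2⟩ := bw_le hp hγ hγ1 hB
  obtain ⟨Ch, hCh, Hh⟩ := h_le (γ := γ) (B := B) hp
  obtain ⟨C4, hC4, H4⟩ := ip_ln hγ hγ1 hB (ψ := Lam 4 (Qf 4)) PRg_Lam
  obtain ⟨C5, rb, cb, hC5, hrb, hcb, hcb1, H5⟩ := m_le hp hγ hγ1 hB
  have hQ1 : Cl 1 1 (deriv (Qf 4)) := Cl_der (Cl_Qf PRg_k)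
  obtain ⟨C6, hC6, H6⟩ := e_ip hp hγ hγ1 hB (ψ := deriv (deriv (Qf 4)))
    (Cl_mono PRg_Qdd (by norm_num) (by norm_num))
  obtain ⟨C7, hC7, H7⟩ := et_ip (ψ := deriv (Qf 4)) (Cl_mono hQ1 (by norm_num) (by norm_num))
  have hI := Iq_pos
  have hc0 := MOe_c0
  set IL := ∫ y, |Lam 4 (Qf 4) y| with hIL
  have hIL0 : 0 ≤ IL := integral_nonneg fun y => abs_nonneg _
  set C3 := Ch * IL + (|f0| + 1) * Iq / 8 with hC3d
  have hC3 : 0 ≤ C3 := by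
    have := abs_nonneg f0
    positivity
  refine ⟨16 / Iq ^ 2 * (C1 + C2 * C3 + 5 * c0 * C4 + 3 * C5 + C6 + C7 + Iq / 4),
    min (min ra rb) 1, min (min ca cb) 1, ?_, ?_, ?_, min_le_right _ _, ?_⟩
  · positivity
  · exact lt_min (lt_min hra hrb) one_pos
  · exact lt_min (lt_min hca hcb) one_pos
  intro c Ca r w m W et hc hr hS
  have hca' : c ≤ ca := hc.trans ((min_le_left _ _).trans (min_le_left _ _))
  have hcb' : c ≤ cb := hc.trans ((min_le_left _ _).trans (min_le_right _ _))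
  have hc1 : c ≤ 1 := hc.trans (min_le_right _ _)
  have hra' : r ≤ ra := hr.trans ((min_le_left _ _).trans (min_le_left _ _))
  have hrb' : r ≤ rb := hr.trans ((min_le_left _ _).trans (min_le_right _ _))
  have hr1 : r ≤ 1 := hr.trans (min_le_right _ _)
  obtain ⟨p, q, hp0, hp1, hq0, hq1, hW, he⟩ := hS.cl
  have hL0 : 0 ≤ ln γ B (ep P E (r ^ 2) W) :=
    integral_nonneg fun z => by
      unfold loc se2 ch
      positivity
  have hN1 : √(ln γ B (ep P E (r ^ 2) W)) ≤ 1 := by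
    rw [Real.sqrt_le_one]
    exact hS.lnc.trans hc1
  have hne1 : √(ne2 et) ≤ 1 := by
    rw [Real.sqrt_le_one]
    exact hS.e1.trans hc1
  have hε : Cl 0 0 (ep P E (r ^ 2) W) := ep_cl hp hp0.le hq0.le hW
  have hh := Hh c Ca r w m W et hS
  have hhL : |ip (hf P E (bq (r ^ 2) W) (alf (r ^ 2) W)) (Lam 4 (Qf 4))| ≤ Ch * r ^ 4 * IL :=
    MOe_hL hp _ _ hh
  have hr0 : 0 ≤ r := hS.r0.le
  have h3 : |ip (hf P E (bq (r ^ 2) W) (alf (r ^ 2) W)) (Lam 4 (Qf 4))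
      + alf (r ^ 2) W * Iq / 8| ≤ C3 * r ^ 4 := by
    refine (abs_add_le _ _).trans ?_
    have h31 : |alf (r ^ 2) W * Iq / 8| ≤ (|f0| + 1) * r ^ 4 * Iq / 8 := by
      rw [abs_div, abs_mul, abs_of_pos hI, abs_of_pos (by norm_num : (0 : ℝ) < 8)]
      have := mul_le_mul_of_nonneg_right hS.a1 hI.le
      linarith
    have h32 : C3 * r ^ 4 = Ch * r ^ 4 * IL + (|f0| + 1) * r ^ 4 * Iq / 8 := by
      rw [hC3d]; ring
    rw [h32]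
    exact add_le_add hhL h31
  have h2 : |w - bq (r ^ 2) W| ≤ C2 * (√(ln γ B (ep P E (r ^ 2) W)) + r ^ 8 + √(ne2 et)) := by
    rw [abs_sub_comm]
    exact H2 c Ca r w m W et hca' hra' hS
  have hb := MOe_bound (A := alm (r ^ 2) w W (ze w m (r ^ 8) W et)) (q := ip W (deriv (Qf 4)))
    hr0 hr1 (Real.sqrt_nonneg _) hN1 hL0 (Real.sqrt_nonneg _) hne1 hC1.le hC2.le hC3 hC4 hC5.le
    hC6 hC7 hc0 hI (H1 c Ca r w m W et hc1 hr1 hS) h2 h3 hS.w0 hS.w1 (H4 _ hε)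
    (H5 c Ca r w m W et hcb' hrb' hS) (H6 c Ca r w m W et hS) (H7 p q et hp0 hq0 he)
  have hal : alD (r ^ 2) w W (ze w m (r ^ 8) W et) =
      alm (r ^ 2) w W (ze w m (r ^ 8) W et) - 1 / 2 * w * alf (r ^ 2) W := by
    unfold alm; ring
  have hD : bqD (r ^ 2) w W (ze w m (r ^ 8) W et) = (ip (ze w m (r ^ 8) W et) (Qf 4)
      - (alm (r ^ 2) w W (ze w m (r ^ 8) W et) - 1 / 2 * w * alf (r ^ 2) W) * (Iq / 4))
        * (16 / Iq ^ 2) := by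
    unfold bqD; rw [hal]
  have hA := MOe_alg (cn := cnu) (K := ∫ y, (deriv (Qf 4) y) ^ 2) hI
    (MOe_ip hp hp0 hq0 (by linarith) (by linarith) hW he) hD
    (BL_id hp (bq (r ^ 2) W) (alf (r ^ 2) W)) rfl
  rw [hA, abs_mul, abs_of_pos (by positivity : (0 : ℝ) < 16 / Iq ^ 2), mul_assoc]
  exact mul_le_mul_of_nonneg_left hb (by positivity)

end H68KC

end

end S_H68_KC_MOe

section S_H98_KC_Gof

/-!
# Gof (MP_95be7d_S4): modulation bounds with constants independent of `γ`, `B` (uses the statements `m_le`, `bw_le`, `bw_eq`, `b_law` of `H68/KC`)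

`loc γ B y = sech²(γy) sech²(y/B)` is nonincreasing in `γ` and nondecreasing in `B` (`cosh` is increasing in `|x|`: `Real.cosh_le_cosh`), so for `γ ≤ 1/8`, `16 ≤ B`:
`loc (1/8) 16 ≤ loc γ B`, hence `ln_mono` (integrability: `loc ∈ Cl`-decaying, `ε ∈ Cl 0 0`).  The structure `Sit P E γ B c ...` depends on `γ, B` only through `lnc`, so
`Sit_mono`.  Apply `m_le`, `bw_le`, `bw_eq`, `b_law` with `γ = 1/8`, `B = 16` (`C` = sum of the constants, `r1`, `c1` = minima, `r1 ≤ 1`) and `ln (1/8) 16 ≤ ln γ B`.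
Last bound: `|bqD| ≤ 2b²+(6/Iq)|αb|+cnu r⁸+(b_law) ≤ C r⁸ + ...` from `b1`, `a1` of `Sit`; `r¹² ≤ r⁸`.
-/

open MeasureTheory Filter Topology Set
open scoped ContDiff

noncomputable section

namespace H98KC

open H98KB H68KC

variable {P E : ℝ → ℝ}

theorem Gof_se2 {a b : ℝ} (ha : 0 < a) (hab : a ≤ b) (y : ℝ) : se2 b y ≤ se2 a y := by
  unfold se2
  have h1 : Real.cosh (a * y) ≤ Real.cosh (b * y) := by
    rw [Real.cosh_le_cosh, abs_mul, abs_mul, abs_of_pos ha, abs_of_pos (ha.trans_le hab)]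
    exact mul_le_mul_of_nonneg_right hab (abs_nonneg y)
  have h2 := Real.cosh_pos (a * y)
  have h3 := Real.cosh_pos (b * y)
  exact pow_le_pow_left₀ (by positivity) (one_div_le_one_div_of_le h2 h1) 2

theorem Gof_loc {γ B : ℝ} (hγ : 0 < γ) (hγ' : γ ≤ 1 / 8) (hB : 16 ≤ B) (y : ℝ) :
    loc (1 / 8) 16 y ≤ loc γ B y := by
  unfold loc
  rw [ch_eq', ch_eq']
  have h1 := Gof_se2 hγ hγ' y
  have h2 : se2 (1 / 16) y ≤ se2 (1 / B) y :=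
    Gof_se2 (by positivity) (one_div_le_one_div_of_le (by norm_num) hB) y
  exact mul_le_mul h1 h2 (se2_pos _ _).le (se2_pos _ _).le

theorem ln_mono {γ B : ℝ} (hγ : 0 < γ) (hγ' : γ ≤ 1 / 8) (hB : 16 ≤ B) {ε : ℝ → ℝ} (hε : Cl 0 0 ε) :
    ln (1 / 8) 16 ε ≤ ln γ B ε := by
  refine integral_mono (loc_int (by norm_num) le_rfl (Cl_add (MOb_sq hε) (MOb_sq (Cl_der hε))))
    (loc_int hγ hB (Cl_add (MOb_sq hε) (MOb_sq (Cl_der hε)))) (fun y => ?_)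
  exact mul_le_mul_of_nonneg_right (Gof_loc hγ hγ' hB y) (by positivity)

theorem Sit_mono {γ B c Ca r w m : ℝ} {W et : ℝ → ℝ} (hγ : 0 < γ) (hγ' : γ ≤ 1 / 8) (hB : 16 ≤ B)
    (h : Sit P E γ B c Ca r w m W et) : Sit P E (1 / 8) 16 c Ca r w m W et := by
  obtain ⟨p, q, hp0, hp2, hq0, hq2, hW, he⟩ := h.cl
  have hepc : Cl 0 0 (ep P E (r ^ 2) W) := ep_cl h.pr hp0.le hq0.le hW
  exact ⟨h.pr, h.r0, ⟨p, q, hp0, hp2, hq0, hq2, hW, he⟩, h.or1, h.or2, h.w0, h.w1, h.b1, h.a1, h.sup, h.supe,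
    (ln_mono hγ hγ' hB hepc).trans h.lnc, h.N1, h.X1, h.L1, h.e1⟩

theorem MOu (hp : Prof P E) : ∃ C r1 c1 : ℝ, 0 < C ∧ 0 < r1 ∧ r1 ≤ 1 ∧ 0 < c1 ∧ c1 ≤ 1 ∧
    ∀ γ B c Ca r w m W et, 0 < γ → γ ≤ 1 / 8 → 16 ≤ B → c ≤ c1 → r ≤ r1 →
    Sit P E γ B c Ca r w m W et →
    |m| ≤ C * (√(ln γ B (ep P E (r ^ 2) W)) + r ^ 8 + √(ne2 et)) ∧
    |bq (r ^ 2) W - w| ≤ C * (√(ln γ B (ep P E (r ^ 2) W)) + r ^ 8 + √(ne2 et)) ∧
    |(bq (r ^ 2) W - w) * ip (Lam 4 (Qf 4)) rho - ip (Lop 4 (ep P E (r ^ 2) W)) (deriv rho)| ≤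
      C * (r ^ 8 + r ^ 4 * √(ln γ B (ep P E (r ^ 2) W)) + ln γ B (ep P E (r ^ 2) W)
        + √(ne2 et)) ∧
    |bqD (r ^ 2) w W (ze w m (r ^ 8) W et)| ≤
      C * (r ^ 8 + r ^ 4 * √(ln γ B (ep P E (r ^ 2) W)) + ln γ B (ep P E (r ^ 2) W)
        + |alm (r ^ 2) w W (ze w m (r ^ 8) W et)| + |ip W (deriv (Qf 4))| + √(ne2 et)) := by
  obtain ⟨C1, ra, ca, hC1, hra, hca, hca1, H1⟩ := m_le (γ := 1 / 8) (B := 16) hp (by norm_num) (by norm_num) le_rfl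
  obtain ⟨C2, rb, cb, hC2, hrb, hcb, hcb1, H2⟩ := bw_le (γ := 1 / 8) (B := 16) hp (by norm_num) (by norm_num) le_rfl
  obtain ⟨C3, rc, cc, hC3, hrc, hcc, hcc1, H3⟩ := bw_eq (γ := 1 / 8) (B := 16) hp (by norm_num) (by norm_num) le_rfl
  obtain ⟨C4, rd, cd, hC4, hrd, hcd, hcd1, H4⟩ := b_law (γ := 1 / 8) (B := 16) hp (by norm_num) (by norm_num) le_rfl
  have hI := Iq_pos
  have hcnu : 0 ≤ cnu := by
    unfold cnu
    have h1 : 0 ≤ ∫ y, (deriv (Qf 4) y) ^ 2 := integral_nonneg fun y => sq_nonneg _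
    positivity
  have hc0 : 0 < c0 := by
    unfold c0
    linarith
  have hf0 := abs_nonneg f0
  obtain ⟨K, hK⟩ : ∃ K, K = 2 * (5 * c0) ^ 2 + 6 / Iq * ((|f0| + 1) * (5 * c0)) + cnu := ⟨_, rfl⟩
  have hK0 : 0 ≤ K := by
    rw [hK]
    positivity
  refine ⟨C1 + C2 + C3 + C4 + K, min (min 1 ra) (min (min rb rc) rd), min ca (min (min cb cc) cd),
    by positivity, by positivity, ?_, by positivity, ?_, ?_⟩
  · exact (min_le_left _ _).trans (min_le_left _ _)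
  · exact (min_le_left _ _).trans hca1
  intro γ B c Ca r w m W et hγ hγ' hB hc hr S
  have S' := Sit_mono hγ hγ' hB S
  have hr1 : r ≤ 1 := hr.trans ((min_le_left _ _).trans (min_le_left _ _))
  have b1 := H1 c Ca r w m W et (hc.trans (min_le_left _ _))
    (hr.trans ((min_le_left _ _).trans (min_le_right _ _))) S'
  have b2 := H2 c Ca r w m W et (hc.trans ((min_le_right _ _).trans ((min_le_left _ _).trans (min_le_left _ _))))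
    (hr.trans ((min_le_right _ _).trans ((min_le_left _ _).trans (min_le_left _ _)))) S'
  have b3 := H3 c Ca r w m W et (hc.trans ((min_le_right _ _).trans ((min_le_left _ _).trans (min_le_right _ _))))
    (hr.trans ((min_le_right _ _).trans ((min_le_left _ _).trans (min_le_right _ _)))) S'
  have b4 := H4 c Ca r w m W et (hc.trans ((min_le_right _ _).trans (min_le_right _ _)))
    (hr.trans ((min_le_right _ _).trans (min_le_right _ _))) S'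
  obtain ⟨p, q, hp0, hp2, hq0, hq2, hW, he⟩ := S.cl
  have hepc : Cl 0 0 (ep P E (r ^ 2) W) := ep_cl hp hp0.le hq0.le hW
  have hln := ln_mono hγ hγ' hB hepc
  have hln0 : 0 ≤ ln (1 / 8) 16 (ep P E (r ^ 2) W) :=
    integral_nonneg fun y => mul_nonneg (MOb_pos _ _ y).le (by positivity)
  have hsq := Real.sqrt_le_sqrt hln
  have hr0 := S.r0
  have hr8 : 0 < r ^ 8 := by positivity
  have hr4 : 0 < r ^ 4 := by positivity
  have hr128 : r ^ 12 ≤ r ^ 8 := pow_le_pow_of_le_one hr0.le hr1 (by norm_num)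
  have e1 := Real.sqrt_nonneg (ln (1 / 8) 16 (ep P E (r ^ 2) W))
  have e2 := Real.sqrt_nonneg (ne2 et)
  have e3 := abs_nonneg (alm (r ^ 2) w W (ze w m (r ^ 8) W et))
  have e4 := abs_nonneg (ip W (deriv (Qf 4)))
  have hrsq : r ^ 4 * √(ln (1 / 8) 16 (ep P E (r ^ 2) W)) ≤ r ^ 4 * √(ln γ B (ep P E (r ^ 2) W)) :=
    mul_le_mul_of_nonneg_left hsq hr4.le
  have hrsq0 : 0 ≤ r ^ 4 * √(ln (1 / 8) 16 (ep P E (r ^ 2) W)) := mul_nonneg hr4.le e1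
  refine ⟨?_, ?_, ?_, ?_⟩
  · refine b1.trans (mul_le_mul (by linarith) (by linarith) (by positivity) (by positivity))
  · refine b2.trans (mul_le_mul (by linarith) (by linarith) (by positivity) (by positivity))
  · refine b3.trans (mul_le_mul (by linarith) (by linarith) (by positivity) (by positivity))
  · have k1 : |2 * (bq (r ^ 2) W) ^ 2| ≤ 2 * (5 * c0) ^ 2 * r ^ 8 := by
      rw [abs_mul, abs_pow, abs_of_pos (by norm_num : (0 : ℝ) < 2)]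
      have h1 := pow_le_pow_left₀ (abs_nonneg _) S.b1 2
      calc 2 * |bq (r ^ 2) W| ^ 2 ≤ 2 * (5 * c0 * r ^ 4) ^ 2 := by linarith
        _ = 2 * (5 * c0) ^ 2 * r ^ 8 := by ring
    have k2 : |6 / Iq * alf (r ^ 2) W * bq (r ^ 2) W| ≤ 6 / Iq * ((|f0| + 1) * (5 * c0)) * r ^ 8 := by
      rw [abs_mul, abs_mul, abs_of_pos (by positivity : 0 < 6 / Iq)]
      have h1 := mul_le_mul S.a1 S.b1 (abs_nonneg _) (by positivity)
      have h2 := mul_le_mul_of_nonneg_left h1 (by positivity : 0 ≤ 6 / Iq)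
      calc 6 / Iq * |alf (r ^ 2) W| * |bq (r ^ 2) W| = 6 / Iq * (|alf (r ^ 2) W| * |bq (r ^ 2) W|) := by ring
        _ ≤ 6 / Iq * ((|f0| + 1) * r ^ 4 * (5 * c0 * r ^ 4)) := h2
        _ = 6 / Iq * ((|f0| + 1) * (5 * c0)) * r ^ 8 := by ring
    obtain ⟨S0, hS0⟩ : ∃ S0, S0 = r ^ 8 + r ^ 4 * √(ln γ B (ep P E (r ^ 2) W)) + ln γ B (ep P E (r ^ 2) W)
        + |alm (r ^ 2) w W (ze w m (r ^ 8) W et)| + |ip W (deriv (Qf 4))| + √(ne2 et) := ⟨_, rfl⟩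
    have hS8 : r ^ 8 ≤ S0 := by
      rw [hS0]
      linarith
    have k3 : C4 * (r ^ 12 + r ^ 4 * √(ln (1 / 8) 16 (ep P E (r ^ 2) W)) + ln (1 / 8) 16 (ep P E (r ^ 2) W)
        + |alm (r ^ 2) w W (ze w m (r ^ 8) W et)| + |ip W (deriv (Qf 4))| + √(ne2 et)) ≤ C4 * S0 := by
      rw [hS0]
      exact mul_le_mul_of_nonneg_left (by linarith) hC4.le
    have k4 : K * r ^ 8 ≤ K * S0 := mul_le_mul_of_nonneg_left hS8 hK0
    have k5 : K * r ^ 8 = 2 * (5 * c0) ^ 2 * r ^ 8 + 6 / Iq * ((|f0| + 1) * (5 * c0)) * r ^ 8 + cnu * r ^ 8 := by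
      rw [hK]
      ring
    have k6 : 0 ≤ cnu * r ^ 8 := mul_nonneg hcnu hr8.le
    have k7 : 0 ≤ (C1 + C2 + C3) * S0 := mul_nonneg (by positivity) (hr8.le.trans hS8)
    rw [← hS0]
    have k8 : (C1 + C2 + C3 + C4 + K) * S0 = (C1 + C2 + C3) * S0 + C4 * S0 + K * S0 := by ring
    rw [k8]
    have b5 := b4.trans k3
    rw [abs_le] at k1 k2 b5 ⊢
    constructor <;> linarith [k1.1, k1.2, k2.1, k2.2, b5.1, b5.2]

end H98KC

end

end S_H98_KC_Gof
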