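import Mathlib
import Pool.Agent.H98.BU.G07
import Pool.Agent.H98.BU.G08
import Pool.Agent.H98.BU.G10
import Pool.Agent.H98.BU.G11
import Pool.Agent.H98.BU.G12
import Pool.Agent.H98.BU.G13
import Pool.Agent.H98.BU.G14
import Pool.Agent.H98.BU.G15
import Pool.Agent.H98.BU.G16

/-! Blow-up for `u_t + u^k u_x + u_xxx - u_xx = 0`, part G17: this file joins several modules
to save build time (`Pool/Agent/H98/{KB,KC}`, `H72/{KB,KC}`, `H68/KC`, `H37/{KB,KC}`). -/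

section S_H98_KC_Fmf

/-!
# Fmf (MP_95be7d_S4): differential inequality for the energy (variant of `KB/Efi.lean`; uses the statements of `Fma`, `Fmb`, `Fmc`, `Fmd`)

`EE4` is additive in `ζ` and `ζ = Dz β w m ε S et = g' + βΛQ + mQ' - wΛε + mε' - et' + S` (all pieces in `Cl (-(s/2)) (-(s/2))`; `Λε` contains `yε'`).
`DE4 B s w ε D = EE4 B s ε D - (1/8) w s ∫ y Th Z' (...)` by definition.  Sum of `FT1`, `β·FT2`, `m·FT2`, `FT4`, `m·FT5`, `FT7`, `FT8`: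
`C√T4√(ne2/s) ≤ (1/16)T4 + 4C²ne2/s`, `C√T4(τ₁+τ₂/s) ≤ (1/16)T4 + 8C²(τ₁²+τ₂²/s²)`.
The constant `C` does not depend on `B`, `γ`; `C₂` may depend on `B`.
-/

open MeasureTheory Filter Topology Set
open scoped ContDiff

noncomputable section

namespace H98KC

open H98KB H68KC

theorem Fmf_int {B s : ℝ} {ε ζ : ℝ → ℝ} (h : Slow4 B s) (hε : Cl 0 0 ε)
    (hζ : Cl (-(s / 2)) (-(s / 2)) ζ) :
    Integrable (fun y => om4 B s y * (deriv ε y * deriv ζ y + (ε y - Df 4 ε y) * ζ y)) := by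
  have a1 := Cl_mul (Cl_der hε) (Cl_der hζ)
  have a2 := Cl_mul (Cl_sub hε (Cl_Df (k := 4) (by norm_num) le_rfl le_rfl hε)) hζ
  have a3 := Cl_mul (Cl_om4 h) (Cl_add a1 a2)
  have hs := h.2.1
  have hB : 0 < B := by linarith [h.1]
  have h3 : 0 < 1 / B := by positivity
  exact Cl_int a3 (by linarith) (by linarith)

theorem Fmf_lin {B s : ℝ} {ε ζ₀ ζ₁ : ℝ → ℝ} (h : Slow4 B s) (hε : Cl 0 0 ε) (c : ℝ)
    (h₀ : Cl (-(s / 2)) (-(s / 2)) ζ₀) (h₁ : Cl (-(s / 2)) (-(s / 2)) ζ₁) :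
    EE4 B s ε (fun y => ζ₀ y + c * ζ₁ y) = EE4 B s ε ζ₀ + c * EE4 B s ε ζ₁ := by
  have i0 := Fmf_int h hε h₀
  have i1 := Fmf_int h hε h₁
  unfold EE4
  rw [← integral_const_mul, ← integral_add i0 (i1.const_mul c)]
  refine integral_congr_ae (Eventually.of_forall fun y => ?_)
  simp only
  have e1 : deriv (fun y => ζ₀ y + c * ζ₁ y) y = deriv ζ₀ y + c * deriv ζ₁ y :=
    ((Cl_hd h₀ y).add ((Cl_hd h₁ y).const_mul c)).deriv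
  rw [e1]
  ring

theorem Fmf_T4 {B s : ℝ} (h : Slow4 B s) (ε : ℝ → ℝ) : 0 ≤ T4 B s ε := by
  rw [T4_eq]
  exact integral_nonneg fun y => mul_nonneg (ta_pos h y).le (by positivity)

theorem Fmf_Bad {s : ℝ} (hs : 0 < s) (ε : ℝ → ℝ) : 0 ≤ Bad s ε := by
  rw [Bad_eq]
  exact mul_nonneg hs.le (integral_nonneg fun y => mul_nonneg (bi_nonneg s y) (by positivity))

theorem Fmf_ln (γ B : ℝ) (ε : ℝ → ℝ) : 0 ≤ ln γ B ε :=
  integral_nonneg fun y => mul_nonneg (loc_pos γ B y).le (by positivity)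

theorem Fmf_ne2 (et : ℝ → ℝ) : 0 ≤ ne2 et :=
  integral_nonneg fun y => by positivity

/-- Young -/
theorem Fmf_young {T K X E : ℝ} (hT : 0 ≤ T) (h : |E| ≤ K * √T * X) :
    |E| ≤ 1 / 16 * T + 4 * K ^ 2 * X ^ 2 := by
  have a2 : √T ^ 2 = T := Real.sq_sqrt hT
  have a3 := sq_nonneg (√T / 4 - 2 * (K * X))
  have a4 : (√T / 4 - 2 * (K * X)) ^ 2 = 1 / 16 * √T ^ 2 - K * √T * X + 4 * K ^ 2 * X ^ 2 := by
    ring
  rw [a4, a2] at a3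
  linarith

theorem Fmf_mul {m E A : ℝ} (h : |E| ≤ A) : m * E ≤ |m| * A := by
  calc m * E ≤ |m * E| := le_abs_self _
    _ = |m| * |E| := abs_mul _ _
    _ ≤ |m| * A := mul_le_mul_of_nonneg_left h (abs_nonneg m)

/-- the real arithmetic of the assembly -/
theorem Fmf_arith {C1 C2 C4 C5 C7 C8 T Bd L X P B s w β m N t0 t1 t2 E1 E2 E3 E4 E5 E7 E8 Y : ℝ}
    (hC1 : 0 < C1) (hC2 : 0 < C2) (hC4 : 0 < C4) (hC5 : 0 < C5) (hC8 : 0 < C8)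
    (hT : 0 ≤ T) (hBd : 0 ≤ Bd) (hL : 0 ≤ L) (hX : 0 ≤ X) (hP : 0 ≤ P) (hB : 0 < B)
    (hs : 0 < s) (hw : 0 ≤ w) (hN : 0 ≤ N) (ht0 : 0 ≤ t0)
    (h1 : E1 ≤ -(1 / 4) * T + C1 / B * L + C1 * Bd)
    (h2 : |E2| ≤ C2 * (P + X)) (h3 : |E3| ≤ C2 * X)
    (h4 : -w * E4 - Y ≤ C4 * (w / s) * (T + Bd)) (h5 : |E5| ≤ C5 * (T + L))
    (h7 : |E7| ≤ C7 * √T * √(N / s))
    (h8 : |E8| ≤ C8 * (t0 / s) * T + C8 * √T * (t1 + t2 / s)) :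
    E1 + β * E2 + m * E3 - w * E4 + m * E5 - E7 + E8 - Y ≤
      -(1 / 8) * T + (C1 + C2 + C4 + C5 + 4 * C7 ^ 2) / B * L
      + (C1 + C2 + C4 + C5 + 4 * C7 ^ 2) * (1 + w / s) * Bd
      + (C1 + C2 + C4 + C5 + 4 * C7 ^ 2) * |β| * (P + X)
      + (C1 + C2 + C4 + C5 + 4 * C7 ^ 2) * |m| * X
      + (C4 + C5 + C8 + 8 * C8 ^ 2) * (|m| + w / s + t0 / s) * (T + L)
      + (C1 + C2 + C4 + C5 + 4 * C7 ^ 2) / s * N
      + (C4 + C5 + C8 + 8 * C8 ^ 2) * (t1 ^ 2 + t2 ^ 2 / s ^ 2) := by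
  set K := C1 + C2 + C4 + C5 + 4 * C7 ^ 2 with hK
  set K2 := C4 + C5 + C8 + 8 * C8 ^ 2 with hK2
  have h70 : 0 ≤ 4 * C7 ^ 2 := by positivity
  have h80 : 0 ≤ 8 * C8 ^ 2 := by positivity
  have hm := abs_nonneg m
  have hβ := abs_nonneg β
  have hws : 0 ≤ w / s := div_nonneg hw hs.le
  have hts : 0 ≤ t0 / s := div_nonneg ht0 hs.le
  have hTL : 0 ≤ T + L := add_nonneg hT hL
  -- E7
  have e7 := Fmf_young hT h7
  have e7s : √(N / s) ^ 2 = N / s := Real.sq_sqrt (div_nonneg hN hs.le)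
  rw [e7s] at e7
  have e7' : 4 * C7 ^ 2 * (N / s) ≤ K / s * N := by
    have e : K / s * N = K * (N / s) := by ring
    rw [e]
    exact mul_le_mul_of_nonneg_right (by linarith) (div_nonneg hN hs.le)
  have e7'' : -E7 ≤ 1 / 16 * T + K / s * N := by
    have := neg_abs_le E7
    linarith
  -- E8
  have e8 : |E8| - C8 * (t0 / s) * T ≤ 1 / 16 * T + 8 * C8 ^ 2 * (t1 ^ 2 + t2 ^ 2 / s ^ 2) := by
    have a0 : C8 * √T * (t1 + t2 / s) ≤ 1 / 16 * T + 4 * C8 ^ 2 * (t1 + t2 / s) ^ 2 := by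
      have a2 : √T ^ 2 = T := Real.sq_sqrt hT
      have a3 := sq_nonneg (√T / 4 - 2 * (C8 * (t1 + t2 / s)))
      have a4 : (√T / 4 - 2 * (C8 * (t1 + t2 / s))) ^ 2 =
          1 / 16 * √T ^ 2 - C8 * √T * (t1 + t2 / s) + 4 * C8 ^ 2 * (t1 + t2 / s) ^ 2 := by
        ring
      rw [a4, a2] at a3
      linarith
    have a5 : (t1 + t2 / s) ^ 2 ≤ 2 * (t1 ^ 2 + t2 ^ 2 / s ^ 2) := by
      have a6 := sq_nonneg (t1 - t2 / s)
      have a7 : (t1 - t2 / s) ^ 2 = 2 * (t1 ^ 2 + t2 ^ 2 / s ^ 2) - (t1 + t2 / s) ^ 2 := by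
        rw [← div_pow]
        ring
      rw [a7] at a6
      linarith
    have a8 : 4 * C8 ^ 2 * (t1 + t2 / s) ^ 2 ≤ 4 * C8 ^ 2 * (2 * (t1 ^ 2 + t2 ^ 2 / s ^ 2)) :=
      mul_le_mul_of_nonneg_left a5 (by positivity)
    linarith
  have e8' : 8 * C8 ^ 2 * (t1 ^ 2 + t2 ^ 2 / s ^ 2) ≤ K2 * (t1 ^ 2 + t2 ^ 2 / s ^ 2) :=
    mul_le_mul_of_nonneg_right (by linarith) (by positivity)
  have e8'' : C8 * (t0 / s) * T ≤ K2 * ((t0 / s) * (T + L)) := by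
    have a1 : C8 * ((t0 / s) * T) ≤ K2 * ((t0 / s) * T) :=
      mul_le_mul_of_nonneg_right (by linarith) (mul_nonneg hts hT)
    have a2 : 0 ≤ K2 * ((t0 / s) * L) :=
      mul_nonneg (by linarith) (mul_nonneg hts hL)
    linarith
  have e8l := le_abs_self E8
  -- the others
  have e1 : C1 / B * L ≤ K / B * L :=
    mul_le_mul_of_nonneg_right (div_le_div_of_nonneg_right (by linarith) hB.le) hL
  have e1' : C1 * Bd ≤ K * Bd := mul_le_mul_of_nonneg_right (by linarith) hBd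
  have e2 : β * E2 ≤ K * |β| * (P + X) := by
    have a1 := Fmf_mul (m := β) h2
    have a3 : C2 * (|β| * (P + X)) ≤ K * (|β| * (P + X)) :=
      mul_le_mul_of_nonneg_right (by linarith) (mul_nonneg hβ (add_nonneg hP hX))
    linarith
  have e3 : m * E3 ≤ K * |m| * X := by
    have a1 := Fmf_mul (m := m) h3
    have a3 : C2 * (|m| * X) ≤ K * (|m| * X) :=
      mul_le_mul_of_nonneg_right (by linarith) (mul_nonneg hm hX)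
    linarith
  have e4 : C4 * (w / s) * (T + Bd) ≤ K2 * ((w / s) * (T + L)) + K * ((w / s) * Bd) := by
    have a1 : C4 * ((w / s) * T) ≤ K2 * ((w / s) * T) :=
      mul_le_mul_of_nonneg_right (by linarith) (mul_nonneg hws hT)
    have a2 : 0 ≤ K2 * ((w / s) * L) := mul_nonneg (by linarith) (mul_nonneg hws hL)
    have a3 : C4 * ((w / s) * Bd) ≤ K * ((w / s) * Bd) :=
      mul_le_mul_of_nonneg_right (by linarith) (mul_nonneg hws hBd)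
    linarith
  have e5 : m * E5 ≤ K2 * (|m| * (T + L)) := by
    have a1 := Fmf_mul (m := m) h5
    have a3 : C5 * (|m| * (T + L)) ≤ K2 * (|m| * (T + L)) :=
      mul_le_mul_of_nonneg_right (by linarith) (mul_nonneg hm hTL)
    linarith
  linarith

theorem DE4_le : ∃ ν C : ℝ, 0 < ν ∧ ν ≤ 1 ∧ 0 < C ∧ ∀ γ : ℝ, 0 < γ → γ ≤ 1 / 8 →
    ∀ B : ℝ, 16 ≤ B → ∃ C₂ : ℝ, 0 < C₂ ∧ ∀ s : ℝ, Slow4 B s → ∀ (τ : ℝ) (ε S et : ℝ → ℝ),
    Cl 0 0 ε → Cl 0 0 S → (∃ p q : ℝ, 0 < p ∧ 0 < q ∧ Cl p q et) → τ ≤ ν → (∀ y, |ε y| ≤ τ) →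
    ∀ β w m τ₀ τ₁ τ₂ : ℝ, 0 ≤ w → 0 ≤ τ₀ → 0 ≤ τ₁ → 0 ≤ τ₂ → SB τ₀ τ₁ τ₂ ε S →
    DE4 B s w ε (Dz β w m ε S et) ≤ -(1 / 8) * T4 B s ε + C / B * ln γ B ε
      + C * (1 + w / s) * Bad s ε
      + C * |β| * (|ip ε (Qf 4)| + (1 / B + τ) * √(ln γ B ε))
      + C * |m| * ((1 / B + τ) * √(ln γ B ε))
      + C₂ * (|m| + w / s + τ₀ / s) * (T4 B s ε + ln γ B ε)
      + C / s * ne2 et + C₂ * (τ₁ ^ 2 + τ₂ ^ 2 / s ^ 2) := by
  obtain ⟨ν1, C1, hν1, hν1', hC1, H1⟩ := FT1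
  obtain ⟨C2, hC2, H2⟩ := FT2
  obtain ⟨ν4, C4, hν4, hν4', hC4, H4⟩ := FT4
  obtain ⟨C5, hC5, H5⟩ := FT5
  obtain ⟨C7, hC7, H7⟩ := FT7
  refine ⟨min ν1 ν4, C1 + C2 + C4 + C5 + 4 * C7 ^ 2, lt_min hν1 hν4,
    (min_le_left _ _).trans hν1', by positivity, ?_⟩
  intro γ hγ hγ' B hB
  obtain ⟨C8, hC8, H8⟩ := FT8 B hB
  refine ⟨C4 + C5 + C8 + 8 * C8 ^ 2, by positivity, ?_⟩
  intro s hS τ ε S et hε hSc het hτν hτ β w m τ₀ τ₁ τ₂ hw h0 h1 h2 hSB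
  obtain ⟨p, q, hp, hq, hcle⟩ := het
  have hB0 : 0 < B := by linarith
  have hs : 0 < s := hS.2.1
  have hτ0 : 0 ≤ τ := (abs_nonneg (ε 0)).trans (hτ 0)
  have hτ1 : τ ≤ ν1 := hτν.trans (min_le_left _ _)
  have hτ4 : τ ≤ ν4 := hτν.trans (min_le_right _ _)
  have hτone : τ ≤ 1 := hτ1.trans hν1'
  have hε1 : ∀ y, |ε y| ≤ 1 := fun y => (hτ y).trans hτone
  have hk1 : 1 ≤ 4 := by norm_num
  -- the common class
  have cg : Cl (-(s / 2)) (-(s / 2)) (deriv (gf 4 ε)) :=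
    Cl_mono (Cl_der (Cl_gf hk1 le_rfl le_rfl hε)) (by linarith) (by linarith)
  have cL : Cl (-(s / 2)) (-(s / 2)) (Lam 4 (Qf 4)) :=
    Cl_mono (Cl_LamQ hk1 (c := 3 / 4) (by norm_num)) (by linarith) (by linarith)
  have cQ1 : Cl (-(s / 2)) (-(s / 2)) (deriv (Qf 4)) :=
    Cl_mono (Cl_der (Cl_Qf hk1)) (by linarith) (by linarith)
  have cLe : Cl (-(s / 2)) (-(s / 2)) (Lam 4 ε) :=
    Cl_mono (Cl_Lam 4 hε (c := s / 2) (by linarith)) (by linarith) (by linarith)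
  have ce1 : Cl (-(s / 2)) (-(s / 2)) (deriv ε) :=
    Cl_mono (Cl_der hε) (by linarith) (by linarith)
  have cee : Cl (-(s / 2)) (-(s / 2)) (deriv et) :=
    Cl_mono (Cl_der hcle) (by linarith) (by linarith)
  have cS : Cl (-(s / 2)) (-(s / 2)) S := Cl_mono hSc (by linarith) (by linarith)
  have hlin : ∀ (c : ℝ) (ζ₀ ζ₁ : ℝ → ℝ), Cl (-(s / 2)) (-(s / 2)) ζ₀ →
      Cl (-(s / 2)) (-(s / 2)) ζ₁ →
      EE4 B s ε (fun y => ζ₀ y + c * ζ₁ y) = EE4 B s ε ζ₀ + c * EE4 B s ε ζ₁ :=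
    fun c ζ₀ ζ₁ a0 a1 => Fmf_lin hS hε c a0 a1
  have ez : Dz β w m ε S et = fun y => (fun y => (fun y => (fun y => (fun y => (fun y =>
      deriv (gf 4 ε) y + β * Lam 4 (Qf 4) y) y + m * deriv (Qf 4) y) y
      + (-w) * Lam 4 ε y) y + m * deriv ε y) y
      + (-1) * deriv et y) y + 1 * S y := by
    funext y
    unfold Dz
    ring
  have d1 := Cl_add cg (Cl_smul β cL)
  have d2 := Cl_add d1 (Cl_smul m cQ1)
  have d3 := Cl_add d2 (Cl_smul (-w) cLe)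
  have d4 := Cl_add d3 (Cl_smul m ce1)
  have d5 := Cl_add d4 (Cl_smul (-1) cee)
  have eE : EE4 B s ε (Dz β w m ε S et) = EE4 B s ε (deriv (gf 4 ε))
      + β * EE4 B s ε (Lam 4 (Qf 4)) + m * EE4 B s ε (deriv (Qf 4))
      - w * EE4 B s ε (Lam 4 ε) + m * EE4 B s ε (deriv ε)
      - EE4 B s ε (deriv et) + EE4 B s ε S := by
    rw [ez, hlin _ _ _ d5 cS, hlin _ _ _ d4 cee, hlin _ _ _ d3 ce1, hlin _ _ _ d2 cLe,
      hlin _ _ _ d1 cQ1, hlin _ _ _ cg cL]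
    ring
  have eD : DE4 B s w ε (Dz β w m ε S et) = EE4 B s ε (Dz β w m ε S et)
      - 1 / 8 * w * s * (∫ y, y * Th B y * deriv Zf (s * y) *
        ((deriv ε y) ^ 2 + (ε y) ^ 2 - 2 * bF 4 ε y)) := rfl
  have K1 := H1 γ hγ hγ' B s hS ε hε fun y => (hτ y).trans hτ1
  have K2 := H2 γ hγ hγ' B s hS τ ε hε hτone hτ
  have K4 := H4 B s hS ε hε (fun y => (hτ y).trans hτ4) w hw
  have K5 := H5 γ hγ hγ' B s hS ε hε hε1
  have K7 := H7 B s hS p q ε et hp hq hε hcle hε1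
  have K8 := H8 s hS ε S hε hSc hε1 τ₀ τ₁ τ₂ h0 h1 h2 hSB
  have hX : 0 ≤ (1 / B + τ) * √(ln γ B ε) := by positivity
  have hfin := Fmf_arith (β := β) (m := m) hC1 hC2 hC4 hC5 hC8 (Fmf_T4 hS ε) (Fmf_Bad hs ε)
    (Fmf_ln γ B ε) hX (abs_nonneg (ip ε (Qf 4))) hB0 hs hw (Fmf_ne2 et) h0
    K1 K2.1 K2.2 K4 K5 K7 K8
  rw [eD, eE]
  exact hfin

end H98KC

end

end S_H98_KC_Fmf

section S_H98_KC_Vkh

/-!
# Vkh (MP_95be7d_S4): the linear virial estimate with the `ΛQ` term (variant of `vir_lin` in `KB/Vli.lean`; uses the statements of `Vkb`..`Vkg`)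

`v = vf 4 δ ε`, `F = rh B · v ∈ Cl (1/B) (1/B)`, `σ = ηγ`, `N = ∫ se2 γ (F²+F'²)`, `κ₀ = ip (ΛQ) ρ > 0` (`ip_LamQrho` of `H68/KC/PRg`), `X = β κ₀ - (Lε,ρ')`.
As in `KB/Vli.lean`: `∫Ψ v vf(Lε)' = -Hf 4 Ψ v + ∫Ψ v Ed ≤ -Hf 4 ψ F + (C₂/B)∫χ(v²+v'²) + C₄√δ·3N` (`vir_id` with `W = Psi ∈ Cl (2/B)(2/B)`, `p = q = 0`; `vir_split`; `cut_H0`;
`Ed_le0`; `cut_loc0`) and `-Hf 4 ψ F ≤ -(σ/4)N - Jn F + C(F,G_δ)²` (`vir_coer4`), `(F,G_δ)² ≤ 2(v,G_δ)²+C/B²·∫se2 γ F²` (`cut_ip0` for `Q''` and `Q''''`),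
`(v,G_δ) = (v-δv'',Q'') = (Lε,Q'') = (ε,LQ'') = 4(ε,ρ)` (`L_Qdd`, `Lop_symm`), `∫se2 γ F² = ∫loc v² ≤ ∫χ(v²+v'²)`.
New term: `C₁` from `vir_ext`, `θ = σ+δ+1/B`.  `|β| ≤ (|X| + C₁(√Jn + (δ+1/B)√N))/κ₀`, so
`|β ∫Ψ v vf(ΛQ)| ≤ (C₁/κ₀)θ√N(|X| + C₁√Jn + C₁(δ+1/B)√N) ≤ Jn + X² + [ (1/4)(C₁²/κ₀)²θ² + (1/4)(C₁/κ₀)²θ² + (C₁²/κ₀)θ(δ+1/B) ] N`.
Choose `K ≥ 1` (before `η`) with `K ≥ 100((C₁²/κ₀)²+(C₁/κ₀)²)` and `K ≥ 400 C₁²/κ₀`; `η, δ₀` from `vir_coer4 γ K`; so `σ ≤ η ≤ 1/K`, `δ ≤ δ₀ ≤ σ/K ≤ σ`; `B₀ ≥ K/σ`, `16 ≤ B₀`: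
`1/B ≤ σ/K`; `θ ≤ 3σ`: the bracket is `≤ (9/4)σ²·K/100 + 3σ(C₁²/κ₀)·2σ/K ≤ σ/16`.  `δ = min δ₀ (small)` with `3C₄√δ ≤ σ/16`.
Total: `-(σ/4-σ/16-σ/16)N ≤ -(σ/24)∫loc(v²+v'²)` (`cut_loc0`).
-/

open MeasureTheory Filter Topology Set
open scoped ContDiff

noncomputable section

namespace H98KC

open H98KB H68KC

theorem Vkh_rh {B : ℝ} (hB : 0 < B) : Cl (1 / B) (1 / B) (rh B) := by
  have h := Cl_sech (c := 1 / B) (by positivity)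
  have e : rh B = fun y => 1 / Real.cosh (1 / B * y) := by
    funext y
    unfold rh
    congr 2
    ring
  rw [e]
  exact h

theorem Vkh_sq {p q : ℝ} {f : ℝ → ℝ} (hf : Cl p q f) : Cl (2 * p) (2 * q) (fun y => f y ^ 2) := by
  have h := Cl_pow hf 2
  exact_mod_cast h

theorem Vkh_Q2 : Cl 1 1 (deriv (deriv (Qf 4))) := Cl_der (Cl_der (Cl_Qf (by norm_num)))

theorem Vkh_Q4 : Cl 1 1 (deriv (deriv (deriv (deriv (Qf 4))))) := Cl_der (Cl_der Vkh_Q2)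

/-- `(v, G_δ) = 4 (ε, ρ)` -/
theorem Vkh_ip {δ : ℝ} {ε : ℝ → ℝ} (hδ : 0 < δ) (hδ' : δ ≤ 1 / 16) (hε : Cl 0 0 ε) :
    ip (vf 4 δ ε) (Gd4 δ) = 4 * ip ε rho := by
  have h0 : |(0 : ℝ)| ≤ 2 := by norm_num
  have hv : Cl 0 0 (vf 4 δ ε) := Cl_vf (by norm_num) hδ hδ' h0 h0 hε
  have hL : ∀ y, vf 4 δ ε y - δ * deriv (deriv (vf 4 δ ε)) y = Lop 4 ε y :=
    fun y => vf_L (by norm_num) hδ hδ' h0 h0 hε y
  set v := vf 4 δ ε with hvd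
  have hQ2 := Vkh_Q2
  have hQ3 : Cl 1 1 (deriv (deriv (deriv (Qf 4)))) := Cl_der hQ2
  have hQ4 := Vkh_Q4
  rw [PRg_rho hε]
  have hG : Cl 1 1 (Gd4 δ) := Cl_sub hQ2 (Cl_smul δ hQ4)
  have hH : Cl 1 1 (fun y => (-δ) * (v y * deriv (deriv (deriv (Qf 4))) y
      - deriv v y * deriv (deriv (Qf 4)) y)) :=
    Cl_smul (-δ) (Cl_sub (Cl_mul0 hv hQ3) (Cl_mul0 (Cl_der hv) hQ2))
  unfold ip
  refine Cl_int_eq (Cl_int (Cl_mul0 hv hG) one_pos one_pos)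
    (Cl_int (Cl_mul0 (Cl_Lop (by norm_num) hε) hQ2) one_pos one_pos) hH one_pos one_pos ?_
  intro y
  have d1 : HasDerivAt (fun y => (-δ) * (v y * deriv (deriv (deriv (Qf 4))) y
      - deriv v y * deriv (deriv (Qf 4)) y))
      ((-δ) * ((deriv v y * deriv (deriv (deriv (Qf 4))) y + v y * deriv (deriv (deriv (deriv (Qf 4)))) y)
      - (deriv (deriv v) y * deriv (deriv (Qf 4)) y + deriv v y * deriv (deriv (deriv (Qf 4))) y))) y :=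
    (((Cl_hd hv y).mul (Cl_hd hQ3 y)).sub ((Cl_hd (Cl_der hv) y).mul (Cl_hd hQ2 y))).const_mul (-δ)
  rw [d1.deriv, ← hL y]
  unfold Gd4
  ring

theorem Vkh_num1 {κ C₁ K σ δ b θ a : ℝ} (hκ : 0 < κ) (hC₁ : 0 < C₁)
    (hK1 : 100 * ((C₁ ^ 2 / κ) ^ 2 + (C₁ / κ) ^ 2) ≤ K) (hK2 : 400 * (C₁ ^ 2 / κ) ≤ K) (hK : 1 ≤ K)
    (hσ : 0 < σ) (hσK : 8 * (K * σ) ≤ 1) (hδ : 0 ≤ δ) (hδK : K * δ ≤ σ) (hb : 0 ≤ b) (hbK : K * b ≤ σ)
    (hθ : θ = σ + δ + b) (ha : a = C₁ * θ / κ) :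
    a ^ 2 / 4 + (a * C₁) ^ 2 / 4 + a * C₁ * (δ + b) ≤ σ / 16 := by
  have hK0 : 0 < K := by linarith
  have hδσ : δ ≤ σ := by nlinarith
  have hbσ : b ≤ σ := by nlinarith
  have hθ0 : 0 ≤ θ := by rw [hθ]; linarith
  have hθ3 : θ ≤ 3 * σ := by rw [hθ]; linarith
  set u := C₁ / κ with hu
  set w := C₁ ^ 2 / κ with hw
  have hu0 : 0 < u := by positivity
  have hw0 : 0 < w := by positivity
  have e1 : a = u * θ := by rw [ha, hu]; ring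
  have e2 : a * C₁ = w * θ := by rw [ha, hw]; field_simp
  have hθ2 : θ ^ 2 ≤ 9 * σ ^ 2 := by nlinarith
  have f1 : a ^ 2 / 4 + (a * C₁) ^ 2 / 4 = (u ^ 2 + w ^ 2) * θ ^ 2 / 4 := by
    rw [e2, e1]; ring
  have f2 : (u ^ 2 + w ^ 2) * θ ^ 2 ≤ K / 100 * (9 * σ ^ 2) := by
    apply mul_le_mul (by linarith) hθ2 (by positivity) (by positivity)
  have f3 : K / 100 * (9 * σ ^ 2) ≤ 9 / 800 * σ := by nlinarith
  have f4 : a * C₁ * (δ + b) ≤ w * (3 * σ) * (δ + b) := by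
    rw [e2]
    apply mul_le_mul_of_nonneg_right _ (by linarith)
    exact mul_le_mul_of_nonneg_left hθ3 hw0.le
  have f5 : w * (δ + b) ≤ σ / 200 := by
    have h1 : w ≤ K / 400 := by linarith
    have h2 : w * (δ + b) ≤ K / 400 * (δ + b) := mul_le_mul_of_nonneg_right h1 (by linarith)
    nlinarith
  have hσ8 : 8 * σ ≤ 1 := by nlinarith
  have f6 : w * (3 * σ) * (δ + b) ≤ σ / 200 * (3 * σ) := by
    calc w * (3 * σ) * (δ + b) = w * (δ + b) * (3 * σ) := by ring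
      _ ≤ σ / 200 * (3 * σ) := mul_le_mul_of_nonneg_right f5 (by positivity)
  have f7 : σ / 200 * (3 * σ) ≤ 3 / 1600 * σ := by nlinarith
  rw [f1]
  linarith

theorem Vkh_num2 {κ C₁ θ d β x T n j r : ℝ} (hκ : 0 < κ) (hC₁ : 0 < C₁) (hθ : 0 ≤ θ) (hd : 0 ≤ d)
    (hn : 0 ≤ n) (hj : 0 ≤ j) (hT : |T| ≤ C₁ * θ * n) (hr : |r| ≤ C₁ * (j + d * n))
    (hx : x = β * κ - r) :
    β * T ≤ j ^ 2 + x ^ 2 + ((C₁ * θ / κ) ^ 2 / 4 + (C₁ * θ / κ * C₁) ^ 2 / 4 + C₁ * θ / κ * C₁ * d) * n ^ 2 := by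
  have h1 : |β| * κ ≤ |x| + C₁ * (j + d * n) := by
    have e : β * κ = x + r := by rw [hx]; ring
    have h2 : |β * κ| ≤ |x| + |r| := by rw [e]; exact abs_add_le _ _
    rw [abs_mul, abs_of_pos hκ] at h2
    linarith
  have h2 : |β| ≤ (|x| + C₁ * (j + d * n)) / κ := by
    rw [le_div_iff₀ hκ]; exact h1
  have h3 : β * T ≤ |β| * |T| := by
    rw [← abs_mul]; exact le_abs_self _
  have h4 : |β| * |T| ≤ (|x| + C₁ * (j + d * n)) / κ * (C₁ * θ * n) :=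
    mul_le_mul h2 hT (abs_nonneg _) (by positivity)
  set a := C₁ * θ / κ with ha
  have h5 : (|x| + C₁ * (j + d * n)) / κ * (C₁ * θ * n) = a * n * |x| + a * C₁ * n * j + a * C₁ * d * n ^ 2 := by
    rw [ha]; field_simp; ring
  have h6 : a * n * |x| ≤ x ^ 2 + a ^ 2 / 4 * n ^ 2 := by
    have := sq_nonneg (|x| - a * n / 2)
    have e := sq_abs x
    nlinarith
  have h7 : a * C₁ * n * j ≤ j ^ 2 + (a * C₁) ^ 2 / 4 * n ^ 2 := by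
    nlinarith [sq_nonneg (j - a * C₁ * n / 2)]
  nlinarith

theorem Vkh_sq2 (a b : ℝ) : a ^ 2 ≤ 2 * b ^ 2 + 2 * (a - b) ^ 2 := by
  nlinarith [sq_nonneg (2 * b - a)]

theorem Vkh_thpos (y : ℝ) : 0 ≤ deriv (th 4) y := by
  rw [(th_hd 4 y).deriv]
  have h := (abs_lt.1 (th_abs_lt 4 y))
  push_cast
  nlinarith [h.1, h.2]

theorem vir_lin4 (γ : ℝ) (hγ : 0 < γ) (hγ' : γ ≤ 1 / 8) :
    ∃ η δ c₀ C B₀ : ℝ, 0 < η ∧ η ≤ 1 ∧ 0 < δ ∧ δ ≤ 1 / 16 ∧ 0 < c₀ ∧ 0 < C ∧ 16 ≤ B₀ ∧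
    ∀ B : ℝ, B₀ ≤ B → ∀ ε : ℝ → ℝ, Cl 0 0 ε → ∀ β : ℝ,
    (∫ y, Psi 4 η γ B y * (vf 4 δ ε y * vf 4 δ (deriv (Lop 4 ε)) y))
      + β * (∫ y, Psi 4 η γ B y * (vf 4 δ ε y * vf 4 δ (Lam 4 (Qf 4)) y)) ≤
      -c₀ * (∫ y, loc γ B y * ((vf 4 δ ε y) ^ 2 + (deriv (vf 4 δ ε) y) ^ 2))
        + C / B * (∫ y, ch B y * ((vf 4 δ ε y) ^ 2 + (deriv (vf 4 δ ε) y) ^ 2))
        + C * (ip ε rho) ^ 2
        + C * (β * ip (Lam 4 (Qf 4)) rho - ip (Lop 4 ε) (deriv rho)) ^ 2 := by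
  obtain ⟨κ, hκd⟩ : ∃ κ, κ = ip (Lam 4 (Qf 4)) rho := ⟨_, rfl⟩
  have hκ : 0 < κ := by
    rw [hκd, ip_LamQrho]
    have := Qd2_pos (k := 4) (by norm_num)
    linarith
  obtain ⟨C₁, hC₁, hext⟩ := vir_ext
  obtain ⟨K, hKd⟩ : ∃ K, K = 1 + 100 * ((C₁ ^ 2 / κ) ^ 2 + (C₁ / κ) ^ 2) + 400 * (C₁ ^ 2 / κ) := ⟨_, rfl⟩
  have hw0 : 0 < C₁ ^ 2 / κ := by positivity
  have hu0 : 0 < C₁ / κ := by positivity
  have hK : 1 ≤ K := by rw [hKd]; nlinarith [sq_nonneg (C₁ ^ 2 / κ), sq_nonneg (C₁ / κ)]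
  have hK1 : 100 * ((C₁ ^ 2 / κ) ^ 2 + (C₁ / κ) ^ 2) ≤ K := by rw [hKd]; linarith
  have hK2 : 400 * (C₁ ^ 2 / κ) ≤ K := by
    rw [hKd]; nlinarith [sq_nonneg (C₁ ^ 2 / κ), sq_nonneg (C₁ / κ)]
  obtain ⟨η, δ₀, Cc, hη, hKη, hδ₀, hδ₀', hKδ, hCc, hcoer⟩ := vir_coer4 γ hγ hγ' K hK
  have hη1 : η ≤ 1 := by nlinarith
  obtain ⟨σ, hσd⟩ : ∃ σ, σ = η * γ := ⟨_, rfl⟩
  have hσ : 0 < σ := by rw [hσd]; positivity
  have hσK : 8 * (K * σ) ≤ 1 := by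
    rw [hσd]
    have : K * η * γ ≤ 1 * (1 / 8) := mul_le_mul hKη hγ' hγ.le zero_le_one
    linarith
  obtain ⟨C₂, hC₂, hcut⟩ := cut_H0 η γ
  obtain ⟨C₄, hC₄, hEd⟩ := Ed_le0 η γ hγ hγ'
  obtain ⟨C₅, hC₅, hip5⟩ := cut_ip0 (Cl_mono Vkh_Q2 (by norm_num) (by norm_num))
  obtain ⟨C₆, hC₆, hip6⟩ := cut_ip0 (Cl_mono Vkh_Q4 (by norm_num) (by norm_num))
  obtain ⟨r, hrd⟩ : ∃ r, r = σ / (48 * C₄) := ⟨_, rfl⟩
  have hr0 : 0 < r := by rw [hrd]; positivity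
  obtain ⟨δ, hδd⟩ : ∃ δ, δ = min δ₀ (r ^ 2) := ⟨_, rfl⟩
  have hδ : 0 < δ := by rw [hδd]; exact lt_min hδ₀ (by positivity)
  have hδδ₀ : δ ≤ δ₀ := by rw [hδd]; exact min_le_left _ _
  have hδ' : δ ≤ 1 / 16 := hδδ₀.trans hδ₀'
  have hsq : √δ ≤ r := by
    have h1 : √δ ≤ √(r ^ 2) := Real.sqrt_le_sqrt (by rw [hδd]; exact min_le_right _ _)
    rwa [Real.sqrt_sq hr0.le] at h1
  have hC4r : C₄ * √δ ≤ σ / 48 := by
    have h1 : C₄ * √δ ≤ C₄ * r := mul_le_mul_of_nonneg_left hsq hC₄.le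
    have h2 : C₄ * r = σ / 48 := by
      rw [hrd]
      field_simp
    linarith
  have hKδ' : K * δ ≤ σ := by
    rw [hσd]
    exact (mul_le_mul_of_nonneg_left hδδ₀ (by linarith)).trans hKδ
  refine ⟨η, δ, σ / 24, C₂ + 2 * Cc * (C₅ + C₆) ^ 2 + 32 * Cc + 1, max 16 (K / σ), hη, hη1, hδ, hδ',
    by positivity, by positivity, le_max_left _ _, ?_⟩
  intro B hB ε hε β
  have hB16 : 16 ≤ B := (le_max_left _ _).trans hB
  have hBK : K / σ ≤ B := (le_max_right _ _).trans hB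
  have hB0 : 0 < B := by linarith
  have hBb : K * (1 / B) ≤ σ := by
    rw [div_le_iff₀ hσ] at hBK
    rw [mul_one_div, div_le_iff₀ hB0]
    linarith
  have h0 : |(0 : ℝ)| ≤ 2 := by norm_num
  have hv : Cl 0 0 (vf 4 δ ε) := Cl_vf (by norm_num) hδ hδ' h0 h0 hε
  have e6 := Vkh_ip hδ hδ' hε
  obtain ⟨eT, eR⟩ := hext γ η δ B hγ hγ' hη hη1 hδ hδ' hB16 ε hε
  have hsp := fun y => vir_split (k := 4) (by norm_num) hδ hδ' h0 h0 hε y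
  set v := vf 4 δ ε with hvd
  have h1B : 0 < 1 / B := by positivity
  have h2B : 0 < 2 / B := by positivity
  have hPsi : Cl (2 / B) (2 / B) (Psi 4 η γ B) := Cl_Psi 4 η γ hB0
  have hrh : Cl (1 / B) (1 / B) (rh B) := Vkh_rh hB0
  set F := fun y => rh B y * v y with hF
  have hFC : Cl (1 / B) (1 / B) F := by
    have h := Cl_mul hrh hv
    simpa only [add_zero] using h
  -- splitting
  have hI1 : Integrable (fun y => Psi 4 η γ B y * (v y * Lop 4 (deriv v) y)) :=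
    Cl_int (Cl_mul hPsi (Cl_mul0 hv (Cl_Lop (by norm_num) (Cl_der hv)))) (by linarith) (by linarith)
  have hI2 : Integrable (fun y => Psi 4 η γ B y * (v y * Ed 4 δ v y)) :=
    Cl_int (Cl_mul hPsi (Cl_mul0 hv (Cl_Ed (by norm_num) hδ hδ' h0 h0 hv))) (by linarith) (by linarith)
  have hsplit : ∫ y, Psi 4 η γ B y * (v y * vf 4 δ (deriv (Lop 4 ε)) y) =
      -Hf 4 (Psi 4 η γ B) v + ∫ y, Psi 4 η γ B y * (v y * Ed 4 δ v y) := by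
    rw [← vir_id (by norm_num) hPsi hv (by linarith) (by linarith), ← integral_add hI1 hI2]
    congr 1
    funext y
    rw [hsp y]
    ring
  have e1 := hcut B hB16 v hv
  have e2 := hcoer δ hδ hδδ₀ (1 / B) (1 / B) F h1B h1B hFC
  have e3 := (hip5 γ hγ hγ' B hB16 v hv).1
  have e3' := (hip6 γ hγ hγ' B hB16 v hv).1
  have e4 := hEd B hB16 δ hδ hδ' v hv
  have e5 := cut_loc0 hγ hB16 hv
  obtain ⟨M, hMd⟩ : ∃ M, M = ∫ y, se2 γ y * (rh B y * v y) ^ 2 := ⟨_, rfl⟩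
  obtain ⟨A, hAd⟩ : ∃ A, A = ∫ y, loc γ B y * ((v y) ^ 2 + (deriv v y) ^ 2) := ⟨_, rfl⟩
  obtain ⟨Y, hYd⟩ : ∃ Y, Y = ∫ y, ch B y * ((v y) ^ 2 + (deriv v y) ^ 2) := ⟨_, rfl⟩
  obtain ⟨N, hNd⟩ : ∃ N, N = ∫ y, se2 γ y * ((F y) ^ 2 + (deriv F y) ^ 2) := ⟨_, rfl⟩
  obtain ⟨T, hTd⟩ : ∃ T, T = ∫ y, Psi 4 η γ B y * (v y * vf 4 δ (Lam 4 (Qf 4)) y) := ⟨_, rfl⟩
  obtain ⟨R, hRd⟩ : ∃ R, R = ip (Lop 4 ε) (deriv rho) := ⟨_, rfl⟩
  obtain ⟨J, hJd⟩ : ∃ J, J = Jn F := ⟨_, rfl⟩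
  have hchpos : ∀ y, 0 ≤ ch B y := fun y => by unfold ch; positivity
  have hA0 : 0 ≤ A := by
    rw [hAd]; exact integral_nonneg fun y => mul_nonneg (loc_pos γ B y).le (by positivity)
  have hY0 : 0 ≤ Y := by
    rw [hYd]; exact integral_nonneg fun y => mul_nonneg (hchpos y) (by positivity)
  have hN0 : 0 ≤ N := by
    rw [hNd]; exact integral_nonneg fun y => mul_nonneg (se2_pos γ y).le (by positivity)
  have hM0 : 0 ≤ M := by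
    rw [hMd]; exact integral_nonneg fun y => mul_nonneg (se2_pos γ y).le (sq_nonneg _)
  have hJ0 : 0 ≤ J := by
    rw [hJd]
    unfold Jn
    refine integral_nonneg fun y => mul_nonneg ?_ (sq_nonneg _)
    exact Vkh_thpos y
  have hrhsq : ∀ y, rh B y ^ 2 = ch B y := fun y => rfl
  have hse : Cl (2 * γ) (2 * γ) (se2 γ) := Cl_se2 hγ
  have iM : Integrable (fun y => se2 γ y * (rh B y * v y) ^ 2) := by
    have h := Cl_int (Cl_mul hse (Vkh_sq hFC)) (by positivity) (by positivity)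
    exact h
  have hMN : M ≤ N := by
    rw [hMd, hNd]
    have iN : Integrable (fun y => se2 γ y * ((F y) ^ 2 + (deriv F y) ^ 2)) :=
      Cl_int (Cl_mul hse (Cl_add (Vkh_sq hFC) (Vkh_sq (Cl_der hFC)))) (by positivity) (by positivity)
    refine integral_mono iM iN fun y => ?_
    show se2 γ y * (F y) ^ 2 ≤ se2 γ y * ((F y) ^ 2 + (deriv F y) ^ 2)
    exact mul_le_mul_of_nonneg_left (le_add_of_nonneg_right (sq_nonneg _)) (se2_pos γ y).le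
  have hMY : M ≤ Y := by
    rw [hMd, hYd]
    have hv2 : Cl 0 0 (fun y => v y ^ 2) := by
      have h := Vkh_sq hv
      simpa only [mul_zero] using h
    have hd2 : Cl 0 0 (fun y => deriv v y ^ 2) := by
      have h := Vkh_sq (Cl_der hv)
      simpa only [mul_zero] using h
    have i2 : Integrable (fun y => ch B y * ((v y) ^ 2 + (deriv v y) ^ 2)) := by
      have h := Cl_mul (Cl_ch hB0) (Cl_add hv2 hd2)
      exact Cl_int h (by linarith) (by linarith)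
    refine integral_mono iM i2 fun y => ?_
    show se2 γ y * (rh B y * v y) ^ 2 ≤ ch B y * ((v y) ^ 2 + (deriv v y) ^ 2)
    rw [mul_pow, hrhsq]
    have h1 : 0 ≤ ch B y * v y ^ 2 := mul_nonneg (hchpos y) (sq_nonneg _)
    have h2 : 0 ≤ ch B y * deriv v y ^ 2 := mul_nonneg (hchpos y) (sq_nonneg _)
    have h3 : se2 γ y * (ch B y * v y ^ 2) ≤ 1 * (ch B y * v y ^ 2) :=
      mul_le_mul_of_nonneg_right (se2_le_one γ y) h1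
    linarith
  -- the square of the pairing
  have hipF : ip F (Gd4 δ) = ip F (deriv (deriv (Qf 4))) - δ * ip F (deriv (deriv (deriv (deriv (Qf 4))))) := by
    unfold ip Gd4
    rw [← integral_const_mul, ← integral_sub]
    · congr 1
      funext y
      ring
    · exact Cl_int (Cl_mul hFC Vkh_Q2) (by linarith) (by linarith)
    · exact (Cl_int (Cl_mul hFC Vkh_Q4) (by linarith) (by linarith)).const_mul δ
  have hipv : ip v (Gd4 δ) = ip v (deriv (deriv (Qf 4))) - δ * ip v (deriv (deriv (deriv (deriv (Qf 4))))) := by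
    unfold ip Gd4
    rw [← integral_const_mul, ← integral_sub]
    · congr 1
      funext y
      ring
    · exact Cl_int (Cl_mul0 hv Vkh_Q2) (by linarith) (by linarith)
    · exact (Cl_int (Cl_mul0 hv Vkh_Q4) (by linarith) (by linarith)).const_mul δ
  rw [← hMd] at e3 e3' eT eR
  have hdiff : |ip F (Gd4 δ) - ip v (Gd4 δ)| ≤ (C₅ + C₆) / B * √M := by
    have e : ip F (Gd4 δ) - ip v (Gd4 δ) = (ip F (deriv (deriv (Qf 4))) - ip v (deriv (deriv (Qf 4))))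
        - δ * (ip F (deriv (deriv (deriv (deriv (Qf 4))))) - ip v (deriv (deriv (deriv (deriv (Qf 4)))))) := by
      rw [hipF, hipv]; ring
    rw [e]
    refine (abs_sub _ _).trans ?_
    rw [abs_mul, abs_of_pos hδ]
    have h1 : δ * |ip F (deriv (deriv (deriv (deriv (Qf 4))))) - ip v (deriv (deriv (deriv (deriv (Qf 4)))))| ≤
        1 * (C₆ / B * √M) := mul_le_mul (by linarith) e3' (abs_nonneg _) zero_le_one
    have h2 : (C₅ + C₆) / B * √M = C₅ / B * √M + C₆ / B * √M := by ring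
    rw [h2]
    linarith
  have e8 : (ip F (Gd4 δ)) ^ 2 ≤ 32 * (ip ε rho) ^ 2 + 2 * ((C₅ + C₆) ^ 2 / B * Y) := by
    have h1 : (ip F (Gd4 δ) - ip v (Gd4 δ)) ^ 2 ≤ ((C₅ + C₆) / B) ^ 2 * M := by
      have h2 : |ip F (Gd4 δ) - ip v (Gd4 δ)| ^ 2 ≤ ((C₅ + C₆) / B * √M) ^ 2 :=
        pow_le_pow_left₀ (abs_nonneg _) hdiff 2
      rw [sq_abs, mul_pow, Real.sq_sqrt hM0] at h2
      exact h2
    have h3 : ((C₅ + C₆) / B) ^ 2 * M ≤ (C₅ + C₆) ^ 2 / B * Y := by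
      apply mul_le_mul _ hMY hM0 (by positivity)
      rw [div_pow]
      exact div_le_div_of_nonneg_left (by positivity) hB0 (le_self_pow₀ (by linarith) (by norm_num))
    have h4 : (ip F (Gd4 δ)) ^ 2 ≤ 2 * (ip v (Gd4 δ)) ^ 2 + 2 * (ip F (Gd4 δ) - ip v (Gd4 δ)) ^ 2 :=
      Vkh_sq2 _ _
    rw [e6] at h4
    rw [e6] at h1
    have h5 : 2 * (4 * ip ε rho) ^ 2 = 32 * (ip ε rho) ^ 2 := by ring
    rw [h5] at h4
    linarith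
  -- the term with `β`
  have e9 := Vkh_num2 (κ := κ) (C₁ := C₁) (θ := η * γ + δ + 1 / B) (d := δ + 1 / B) (β := β)
    (x := β * κ - R) (T := T) (n := √M) (j := √J) (r := R) hκ hC₁ (by positivity) (by positivity)
    (Real.sqrt_nonneg _) (Real.sqrt_nonneg _) (by rw [hTd]; exact eT) (by rw [hRd, hJd]; exact eR) rfl
  rw [Real.sq_sqrt hJ0, Real.sq_sqrt hM0] at e9
  have e10 := Vkh_num1 (κ := κ) (C₁ := C₁) (K := K) (σ := σ) (δ := δ) (b := 1 / B)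
    (θ := η * γ + δ + 1 / B) (a := C₁ * (η * γ + δ + 1 / B) / κ) hκ hC₁ hK1 hK2 hK hσ hσK hδ.le hKδ'
    h1B.le hBb (by rw [hσd]) rfl
  have e11 := mul_le_mul e10 hMN hM0 (by positivity)
  rw [hsplit, ← hTd, ← hAd, ← hYd, ← hκd, ← hRd]
  rw [← hYd] at e1
  rw [← hNd, ← hJd, ← hσd] at e2
  rw [← hAd] at e4 e5
  have e5' : A ≤ 3 * N := by rw [hNd]; exact e5
  have e1' := (abs_le.1 e1).1
  have e4' := (abs_le.1 e4).2
  have e12 : C₄ * √δ * A ≤ σ / 48 * A := mul_le_mul_of_nonneg_right hC4r hA0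
  have e13 : σ / 48 * A ≤ σ / 16 * N := by
    have := mul_le_mul_of_nonneg_left e5' (show 0 ≤ σ / 48 by positivity)
    linarith
  have e14 : σ / 24 * A ≤ σ / 8 * N := by
    have := mul_le_mul_of_nonneg_left e5' (show 0 ≤ σ / 24 by positivity)
    linarith
  have e15 : Cc * (ip F (Gd4 δ)) ^ 2 ≤ Cc * (32 * (ip ε rho) ^ 2 + 2 * ((C₅ + C₆) ^ 2 / B * Y)) :=
    mul_le_mul_of_nonneg_left e8 hCc.le
  have hfin : -(σ / 24) * A + (C₂ + 2 * Cc * (C₅ + C₆) ^ 2 + 32 * Cc + 1) / B * Y +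
      (C₂ + 2 * Cc * (C₅ + C₆) ^ 2 + 32 * Cc + 1) * (ip ε rho) ^ 2 +
      (C₂ + 2 * Cc * (C₅ + C₆) ^ 2 + 32 * Cc + 1) * (β * κ - R) ^ 2 =
      -(σ / 24) * A + C₂ / B * Y + Cc * (2 * ((C₅ + C₆) ^ 2 / B * Y)) + (32 * Cc + 1) / B * Y +
      (C₂ + 2 * Cc * (C₅ + C₆) ^ 2 + 1) * (ip ε rho) ^ 2 + Cc * (32 * (ip ε rho) ^ 2)
      + (C₂ + 2 * Cc * (C₅ + C₆) ^ 2 + 32 * Cc) * (β * κ - R) ^ 2 + (β * κ - R) ^ 2 := by ring
  rw [hfin]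
  have p1 : 0 ≤ (32 * Cc + 1) / B * Y := by positivity
  have p2 : 0 ≤ (C₂ + 2 * Cc * (C₅ + C₆) ^ 2 + 1) * (ip ε rho) ^ 2 := by positivity
  have p3 : 0 ≤ (C₂ + 2 * Cc * (C₅ + C₆) ^ 2 + 32 * Cc) * (β * κ - R) ^ 2 := by positivity
  have e1'' : -Hf 4 (Psi 4 η γ B) v ≤ -Hf 4 (psi 4 η γ) F + C₂ / B * Y := by linarith
  linarith

end H98KC

end

end S_H98_KC_Vkh

section S_H98_KC_Vkk

/-!
# Vkk (MP_95be7d_S4): differential inequality for the virial functional (variant of `KB/Vfi.lean`; uses the statements of `Vkh`, `Vki`, `Vkj`, `Wzb`)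

`γ := γ₀` from `inv_loc0` (`C_I`), `(η,δ,c₀,C₀,B₁)` from `vir_lin4 γ`, `B₀ = max B₁ (1/γ)`.
`DV 4 η γ B δ ε ζ = ∫ Psi (vf ε)(vf ζ)`.  `ζ = Dz β w m ε S et = (Lε)' - (Rf 4 ε)' + βΛQ + mQ' - wΛε + mε' - et' + S` (`gf_eq`), `vf` is linear (`vf_add`, `vf_smul`; all
pieces of class `Cl (-c) (-c)`, `c = 1/(2B)`), `vf 4 δ Q' = 0` (`vf_Qd`).  With `G = -(Rf 4 ε)' - wΛε + mε' - et' + S`:
`DV = [∫Ψ v vf((Lε)') + β∫Ψ v vf(ΛQ)] + ∫Ψ v vf(G)`.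
Bracket: `vir_lin4`; `(C₀/B)∫ch(v²+v'²) ≤ (C₀/B)C_δ∫ch(ε²+ε'²) ≤ C₀C_δ·240·T4` (`vf_wt`, `ch_le_ta`), `-c₀∫loc(v²+v'²) ≤ -(c₀/C_I)ln + c₀(ε,Q')²` (`inv_loc0`); `c₁ = c₀/C_I`.
`∫Ψ v vf(G)`: `VF0`.  `∫ch ε² ≤ 240B T4`;  `∫ch G² ≤ 5(∫ch R'²+w²∫ch(Λε)²+m²∫chε'²+∫ch et'²+∫ch S²)`:
`|R'| ≤ C|ε|(|ε|+|ε'|) ≤ Cτ(|ε|+|ε'|)` (`Rd_le`); `(Λε)² ≤ (1+|y|)²(ε²+ε'²)` and `ych_le_ta`; `∫ch et'² ≤ ne2 et`;
`S² ≤ 3(3τ₀²(ε²+ε'²+ε''²)+τ₁²+τ₂²)` (`bd (1/2) 0 y ≤ 1`), `∫ch = 2B`.  So `(∫ch G²)^{1/2} ≤ C_B((τ+w+|m|+τ₀)√T4+√ne2+τ₁+τ₂)` and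
`|∫Ψ v vf G| ≤ C_B(τ+w+|m|+τ₀)T4 + T4 + C_B(ne2+τ₁²+τ₂²)`.
-/

open MeasureTheory Filter Topology Set
open scoped ContDiff

noncomputable section

namespace H98KC

open H98KB H68KC

/-- pairing integrable -/
theorem Vkk_Jint {η γ B δ c : ℝ} {v h : ℝ → ℝ} (hB : 0 < B) (hδ : 0 < δ) (hδ' : δ ≤ 1 / 16)
    (hc : 0 < c) (hc2 : c ≤ 2) (hcB : c < 2 / B) (hv : Cl 0 0 v) (hh : Cl (-c) (-c) h) :
    Integrable (fun y => Psi 4 η γ B y * (v y * vf 4 δ h y)) := by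
  have ha : |(-c)| ≤ 2 := by
    rw [abs_neg, abs_of_pos hc]
    exact hc2
  have h1 : Cl (-c) (-c) (vf 4 δ h) := Cl_vf (by norm_num) hδ hδ' ha ha hh
  exact Cl_int (Cl_mul (Cl_Psi 4 η γ hB) (Cl_mul0 hv h1)) (by linarith) (by linarith)

theorem Vkk_Jlin {η γ B δ c : ℝ} {v f g : ℝ → ℝ} (a : ℝ) (hB : 0 < B) (hδ : 0 < δ)
    (hδ' : δ ≤ 1 / 16) (hc : 0 < c) (hc2 : c ≤ 2) (hcB : c < 2 / B) (hv : Cl 0 0 v)
    (hf : Cl (-c) (-c) f) (hg : Cl (-c) (-c) g) :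
    (∫ y, Psi 4 η γ B y * (v y * vf 4 δ (fun y => f y + a * g y) y)) =
      (∫ y, Psi 4 η γ B y * (v y * vf 4 δ f y)) + a * ∫ y, Psi 4 η γ B y * (v y * vf 4 δ g y) := by
  rw [← integral_const_mul, ← integral_add
    (Vkk_Jint hB hδ hδ' hc hc2 hcB hv hf)
    ((Vkk_Jint hB hδ hδ' hc hc2 hcB hv hg).const_mul a)]
  refine integral_congr_ae (Eventually.of_forall fun y => ?_)
  have ha : |(-c)| ≤ 2 := by
    rw [abs_neg, abs_of_pos hc]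
    exact hc2
  have e1 := vf_add (k := 4) (by norm_num) hδ hδ' ha ha hf (Cl_smul a hg) y
  have e2 := vf_smul (k := 4) (δ := δ) (by norm_num) a hg y
  simp only
  rw [e1, e2]
  ring

/-- the generic part -/
def Vkk_G (w m : ℝ) (ε S et : ℝ → ℝ) (y : ℝ) : ℝ :=
  (((-1) * deriv (Rf 4 ε) y + (-w) * Lam 4 ε y) + m * deriv ε y) + ((-1) * deriv et y + S y)

theorem Vkk_Gcl {w m c : ℝ} {ε S et : ℝ → ℝ} (hc : 0 < c) (hε : Cl 0 0 ε) (hS : Cl 0 0 S)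
    (het : Cl 0 0 et) : Cl (-c) (-c) (Vkk_G w m ε S et) := by
  have m0 : ∀ {f : ℝ → ℝ}, Cl 0 0 f → Cl (-c) (-c) f := fun hf =>
    Cl_mono hf (by linarith) (by linarith)
  have c1 : Cl (-c) (-c) (deriv (Rf 4 ε)) :=
    m0 (Cl_der (Cl_Rf (by norm_num) le_rfl le_rfl hε))
  have c2 : Cl (-c) (-c) (Lam 4 ε) := Cl_mono (Cl_Lam 4 hε hc) (by linarith) (by linarith)
  exact Cl_add (Cl_add (Cl_add (Cl_smul (-1) c1) (Cl_smul (-w) c2)) (Cl_smul m (m0 (Cl_der hε))))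
    (Cl_add (Cl_smul (-1) (m0 (Cl_der het))) (m0 hS))

theorem Vkk_Dz (β w m : ℝ) {ε : ℝ → ℝ} (S et : ℝ → ℝ) (hε : Cl 0 0 ε) :
    Dz β w m ε S et = fun y => (((deriv (Lop 4 ε) y + β * Lam 4 (Qf 4) y) + m * deriv (Qf 4) y)
      + 1 * Vkk_G w m ε S et y) := by
  funext y
  have e1 : gf 4 ε = fun y => Lop 4 ε y - Rf 4 ε y := by
    funext z
    exact gf_eq 4 ε z
  have e2 : deriv (gf 4 ε) y = deriv (Lop 4 ε) y - deriv (Rf 4 ε) y := by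
    rw [e1]
    exact ((Cl_hd (Cl_Lop (by norm_num) hε) y).sub
      (Cl_hd (Cl_Rf (by norm_num) le_rfl le_rfl hε) y)).deriv
  unfold Dz Vkk_G
  rw [e2]
  ring

theorem Vkk_DV {η γ B δ β w m : ℝ} {ε S et : ℝ → ℝ} (hB : 16 ≤ B) (hδ : 0 < δ)
    (hδ' : δ ≤ 1 / 16) (hε : Cl 0 0 ε) (hS : Cl 0 0 S) (het : Cl 0 0 et) :
    DV 4 η γ B δ ε (Dz β w m ε S et) =
      ((∫ y, Psi 4 η γ B y * (vf 4 δ ε y * vf 4 δ (deriv (Lop 4 ε)) y))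
        + β * (∫ y, Psi 4 η γ B y * (vf 4 δ ε y * vf 4 δ (Lam 4 (Qf 4)) y)))
      + ∫ y, Psi 4 η γ B y * (vf 4 δ ε y * vf 4 δ (Vkk_G w m ε S et) y) := by
  have hB0 : 0 < B := by linarith
  obtain ⟨c, hcd⟩ : ∃ c, c = 1 / (2 * B) := ⟨_, rfl⟩
  have hc : 0 < c := by
    rw [hcd]
    positivity
  have hcB : c < 2 / B := by
    rw [hcd, div_lt_div_iff₀ (by positivity) hB0]
    linarith
  have hc2 : c ≤ 2 := by
    have : 2 / B ≤ 2 := by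
      rw [div_le_iff₀ hB0]
      linarith
    linarith
  have m0 : ∀ {f : ℝ → ℝ}, Cl 0 0 f → Cl (-c) (-c) f := fun hf =>
    Cl_mono hf (by linarith) (by linarith)
  have hv : Cl 0 0 (vf 4 δ ε) := Cl_vf (by norm_num) hδ hδ' (by norm_num) (by norm_num) hε
  have c1 : Cl (-c) (-c) (deriv (Lop 4 ε)) := m0 (Cl_der (Cl_Lop (by norm_num) hε))
  have c2 : Cl (-c) (-c) (Lam 4 (Qf 4)) :=
    Cl_mono (Cl_LamQ (by norm_num) (c := 1 / 2) (by norm_num)) (by linarith) (by linarith)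
  have c3 : Cl (-c) (-c) (deriv (Qf 4)) :=
    Cl_mono (Cl_der (Cl_Qf (by norm_num))) (by linarith) (by linarith)
  have c4 := Vkk_Gcl (w := w) (m := m) hc hε hS het
  have d2 := Cl_add c1 (Cl_smul β c2)
  have d3 := Cl_add d2 (Cl_smul m c3)
  have hz : (∫ y, Psi 4 η γ B y * (vf 4 δ ε y * vf 4 δ (deriv (Qf 4)) y)) = 0 := by
    have : (fun y => Psi 4 η γ B y * (vf 4 δ ε y * vf 4 δ (deriv (Qf 4)) y)) =
        fun _ => (0 : ℝ) := by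
      funext y
      rw [vf_Qd (by norm_num) δ y]
      ring
    rw [this, integral_zero]
  unfold DV
  rw [Vkk_Dz β w m S et hε, Vkk_Jlin 1 hB0 hδ hδ' hc hc2 hcB hv d3 c4,
    Vkk_Jlin m hB0 hδ hδ' hc hc2 hcB hv d2 c3, Vkk_Jlin β hB0 hδ hδ' hc hc2 hcB hv c1 c2, hz]
  ring

theorem Vkk_sq5 (a b c d e : ℝ) :
    (((a + b) + c) + (d + e)) ^ 2 ≤ 5 * (a ^ 2 + b ^ 2 + c ^ 2 + d ^ 2 + e ^ 2) := by
  nlinarith [sq_nonneg (a - b), sq_nonneg (a - c), sq_nonneg (a - d), sq_nonneg (a - e),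
    sq_nonneg (b - c), sq_nonneg (b - d), sq_nonneg (b - e), sq_nonneg (c - d), sq_nonneg (c - e),
    sq_nonneg (d - e)]

theorem Vkk_chp (B y : ℝ) : 0 < ch B y := by
  rw [ch_eq']
  exact se2_pos _ _

theorem Vkk_ch1 (B y : ℝ) : ch B y ≤ 1 := by
  unfold ch
  have h1 := Real.one_le_cosh (y / B)
  have h2 : 1 / Real.cosh (y / B) ≤ 1 := by
    rw [div_le_one (by linarith)]
    exact h1
  have h3 : 0 ≤ 1 / Real.cosh (y / B) := by positivity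
  exact pow_le_one₀ h3 h2

theorem Vkk_bd1 (y : ℝ) : bd (1 / 2) 0 y ≤ 1 := by
  have h := bd_mono (p := 1 / 2) (q := 0) (p' := 0) (q' := 0) (by norm_num) le_rfl y
  rwa [bd_zero] at h

/-- pointwise bound for `G²` -/
theorem Vkk_pt {B s C w m τ τ₀ τ₁ τ₂ : ℝ} {ε S et : ℝ → ℝ} (h : Slow4 B s) (hC : 0 < C)
    (hR : ∀ y, |deriv (Rf 4 ε) y| ≤ C * |ε y| * (|ε y| + |deriv ε y|)) (hτ : ∀ y, |ε y| ≤ τ)
    (hτ₀ : 0 ≤ τ₀) (hτ₁ : 0 ≤ τ₁) (hτ₂ : 0 ≤ τ₂) (hSB : SB τ₀ τ₁ τ₂ ε S) (y : ℝ) :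
    ch B y * (Vkk_G w m ε S et y) ^ 2 ≤
      (5 * (2 * C ^ 2 * 240 * B + 4000 * B ^ 3 + 240 * B + 9 * 240 * B)
        * (τ ^ 2 + w ^ 2 + m ^ 2 + τ₀ ^ 2))
        * (ta B s y * ((ε y) ^ 2 + (deriv ε y) ^ 2 + (deriv (deriv ε) y) ^ 2))
      + 5 * ((et y) ^ 2 + (deriv et y) ^ 2) + (15 * (τ₁ ^ 2 + τ₂ ^ 2)) * ch B y := by
  obtain ⟨hB, hB16, hs, h4⟩ := Wzb_h h
  have hch := Vkk_chp B y
  have hch1 := Vkk_ch1 B y
  have hta := ta_pos h y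
  have hτ0 : 0 ≤ τ := (abs_nonneg _).trans (hτ y)
  set a := ε y
  set b := deriv ε y
  set d := deriv (deriv ε) y
  have hA : 0 ≤ ta B s y * (a ^ 2 + b ^ 2 + d ^ 2) := by positivity
  have hab : ch B y * (a ^ 2 + b ^ 2 + d ^ 2) ≤ 240 * B * (ta B s y * (a ^ 2 + b ^ 2 + d ^ 2)) := by
    have h1 := mul_le_mul_of_nonneg_right (ch_le_ta h y) (by positivity : 0 ≤ a ^ 2 + b ^ 2 + d ^ 2)
    linarith
  -- the pieces
  have p1 : ch B y * (deriv (Rf 4 ε) y) ^ 2 ≤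
      2 * C ^ 2 * 240 * B * τ ^ 2 * (ta B s y * (a ^ 2 + b ^ 2 + d ^ 2)) := by
    have h1 : |deriv (Rf 4 ε) y| ≤ C * τ * (|a| + |b|) := by
      refine (hR y).trans ?_
      have := mul_le_mul_of_nonneg_left (hτ y) hC.le
      exact mul_le_mul_of_nonneg_right this (by positivity)
    have h2 : (deriv (Rf 4 ε) y) ^ 2 ≤ (C * τ * (|a| + |b|)) ^ 2 := by
      rw [← sq_abs (deriv (Rf 4 ε) y)]
      exact pow_le_pow_left₀ (abs_nonneg _) h1 2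
    have h3 : (|a| + |b|) ^ 2 ≤ 2 * (a ^ 2 + b ^ 2 + d ^ 2) := by
      have h5 := sq_abs a
      have h6 := sq_abs b
      nlinarith [sq_nonneg (|a| - |b|), sq_nonneg d]
    have h5 : (deriv (Rf 4 ε) y) ^ 2 ≤ C ^ 2 * τ ^ 2 * (2 * (a ^ 2 + b ^ 2 + d ^ 2)) := by
      refine h2.trans ?_
      have h6 := mul_le_mul_of_nonneg_left h3 (by positivity : 0 ≤ C ^ 2 * τ ^ 2)
      have h7 : (C * τ * (|a| + |b|)) ^ 2 = C ^ 2 * τ ^ 2 * (|a| + |b|) ^ 2 := by ring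
      rw [h7]
      exact h6
    have h6 := mul_le_mul_of_nonneg_left h5 hch.le
    have h7 := mul_le_mul_of_nonneg_left hab (by positivity : 0 ≤ 2 * C ^ 2 * τ ^ 2)
    have h8 : ch B y * (C ^ 2 * τ ^ 2 * (2 * (a ^ 2 + b ^ 2 + d ^ 2))) =
        2 * C ^ 2 * τ ^ 2 * (ch B y * (a ^ 2 + b ^ 2 + d ^ 2)) := by ring
    rw [h8] at h6
    refine h6.trans (h7.trans (le_of_eq ?_))
    ring
  have p2 : ch B y * (Lam 4 ε y) ^ 2 ≤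
      4000 * B ^ 3 * (ta B s y * (a ^ 2 + b ^ 2 + d ^ 2)) := by
    have h1 : (Lam 4 ε y) ^ 2 ≤ (1 + |y|) ^ 2 * (a ^ 2 + b ^ 2 + d ^ 2) := by
      have h2 : Lam 4 ε y = 1 / 2 * a + y * b := by
        unfold Lam
        push_cast
        ring
      rw [h2]
      have h3 : (1 / 2 * a + y * b) ^ 2 ≤ (1 / 4 + y ^ 2) * (a ^ 2 + b ^ 2) := by
        nlinarith [sq_nonneg (1 / 2 * b - y * a)]
      have h5 : 1 / 4 + y ^ 2 ≤ (1 + |y|) ^ 2 := by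
        have := sq_abs y
        nlinarith [abs_nonneg y]
      have h6 := mul_le_mul_of_nonneg_right h5 (by positivity : 0 ≤ a ^ 2 + b ^ 2)
      have h7 : 0 ≤ (1 + |y|) ^ 2 * d ^ 2 := by positivity
      nlinarith
    have h2 := mul_le_mul_of_nonneg_left h1 hch.le
    have h3 := mul_le_mul_of_nonneg_right (ych_le_ta h y)
      (by positivity : 0 ≤ a ^ 2 + b ^ 2 + d ^ 2)
    have h5 : ch B y * ((1 + |y|) ^ 2 * (a ^ 2 + b ^ 2 + d ^ 2)) =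
        (1 + |y|) ^ 2 * ch B y * (a ^ 2 + b ^ 2 + d ^ 2) := by ring
    rw [h5] at h2
    refine h2.trans (h3.trans (le_of_eq ?_))
    ring
  have p3 : ch B y * b ^ 2 ≤ 240 * B * (ta B s y * (a ^ 2 + b ^ 2 + d ^ 2)) := by
    refine le_trans ?_ hab
    apply mul_le_mul_of_nonneg_left _ hch.le
    nlinarith [sq_nonneg a, sq_nonneg d]
  have p4 : ch B y * (deriv et y) ^ 2 ≤ (et y) ^ 2 + (deriv et y) ^ 2 := by
    have h1 := mul_le_mul_of_nonneg_right hch1 (sq_nonneg (deriv et y))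
    nlinarith [sq_nonneg (et y)]
  have p5 : ch B y * (S y) ^ 2 ≤ 9 * 240 * B * τ₀ ^ 2 * (ta B s y * (a ^ 2 + b ^ 2 + d ^ 2))
      + 3 * (τ₁ ^ 2 + τ₂ ^ 2) * ch B y := by
    have h1 : |S y| ≤ τ₀ * (|a| + |b| + |d|) + τ₁ + τ₂ := by
      have h2 := hSB y
      have h3 := mul_le_mul_of_nonneg_left (Vkk_bd1 y) hτ₁
      linarith
    have h2 : (S y) ^ 2 ≤ (τ₀ * (|a| + |b| + |d|) + τ₁ + τ₂) ^ 2 := by
      rw [← sq_abs (S y)]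
      exact pow_le_pow_left₀ (abs_nonneg _) h1 2
    have h3 : ∀ x z u : ℝ, (x + z + u) ^ 2 ≤ 3 * (x ^ 2 + z ^ 2 + u ^ 2) := by
      intro x z u
      nlinarith [sq_nonneg (x - z), sq_nonneg (x - u), sq_nonneg (z - u)]
    have h5 := h3 (τ₀ * (|a| + |b| + |d|)) τ₁ τ₂
    have h6 := h3 |a| |b| |d|
    rw [sq_abs, sq_abs, sq_abs] at h6
    have h7 : (S y) ^ 2 ≤ 9 * τ₀ ^ 2 * (a ^ 2 + b ^ 2 + d ^ 2) + 3 * (τ₁ ^ 2 + τ₂ ^ 2) := by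
      have h8 := mul_le_mul_of_nonneg_left h6 (by positivity : 0 ≤ 3 * τ₀ ^ 2)
      have h9 : (τ₀ * (|a| + |b| + |d|)) ^ 2 = τ₀ ^ 2 * (|a| + |b| + |d|) ^ 2 := by ring
      rw [h9] at h5
      linarith
    have h8 := mul_le_mul_of_nonneg_left h7 hch.le
    have h9 := mul_le_mul_of_nonneg_left hab (by positivity : 0 ≤ 9 * τ₀ ^ 2)
    have h10 : ch B y * (9 * τ₀ ^ 2 * (a ^ 2 + b ^ 2 + d ^ 2) + 3 * (τ₁ ^ 2 + τ₂ ^ 2)) =
        9 * τ₀ ^ 2 * (ch B y * (a ^ 2 + b ^ 2 + d ^ 2)) + 3 * (τ₁ ^ 2 + τ₂ ^ 2) * ch B y := by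
      ring
    rw [h10] at h8
    have h11 : 9 * τ₀ ^ 2 * (240 * B * (ta B s y * (a ^ 2 + b ^ 2 + d ^ 2))) =
        9 * 240 * B * τ₀ ^ 2 * (ta B s y * (a ^ 2 + b ^ 2 + d ^ 2)) := by ring
    linarith
  set A := ta B s y * (a ^ 2 + b ^ 2 + d ^ 2)
  have q := Vkk_sq5 ((-1) * deriv (Rf 4 ε) y) ((-w) * Lam 4 ε y) (m * b) ((-1) * deriv et y) (S y)
  have q' := mul_le_mul_of_nonneg_left q hch.le
  have e0 : ch B y * (Vkk_G w m ε S et y) ^ 2 = ch B y * ((((-1) * deriv (Rf 4 ε) y +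
      (-w) * Lam 4 ε y) + m * b) + ((-1) * deriv et y + S y)) ^ 2 := rfl
  rw [e0]
  refine q'.trans ?_
  have e1 : ch B y * (5 * (((-1) * deriv (Rf 4 ε) y) ^ 2 + ((-w) * Lam 4 ε y) ^ 2 + (m * b) ^ 2 +
      ((-1) * deriv et y) ^ 2 + (S y) ^ 2)) = 5 * (ch B y * (deriv (Rf 4 ε) y) ^ 2) +
      5 * (w ^ 2 * (ch B y * (Lam 4 ε y) ^ 2)) + 5 * (m ^ 2 * (ch B y * b ^ 2)) +
      5 * (ch B y * (deriv et y) ^ 2) + 5 * (ch B y * (S y) ^ 2) := by ring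
  rw [e1]
  have r2 := mul_le_mul_of_nonneg_left p2 (sq_nonneg w)
  have r3 := mul_le_mul_of_nonneg_left p3 (sq_nonneg m)
  obtain ⟨K, hK⟩ : ∃ K, K = 2 * C ^ 2 * 240 * B + 4000 * B ^ 3 + 240 * B + 9 * 240 * B :=
    ⟨_, rfl⟩
  rw [← hK]
  have k1 : 2 * C ^ 2 * 240 * B ≤ K := by
    rw [hK]
    have : 0 < 4000 * B ^ 3 := by positivity
    linarith
  have k2 : 4000 * B ^ 3 ≤ K := by
    rw [hK]
    have : 0 < 2 * C ^ 2 * 240 * B := by positivity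
    linarith
  have k3 : 240 * B ≤ K := by
    rw [hK]
    have : 0 < 4000 * B ^ 3 := by positivity
    have : 0 < 2 * C ^ 2 * 240 * B := by positivity
    linarith
  have k4 : 9 * 240 * B ≤ K := by
    rw [hK]
    have : 0 < 4000 * B ^ 3 := by positivity
    have : 0 < 2 * C ^ 2 * 240 * B := by positivity
    linarith
  have g1 := mul_le_mul_of_nonneg_right k1 (by positivity : 0 ≤ τ ^ 2 * A)
  have g2 := mul_le_mul_of_nonneg_right k2 (by positivity : 0 ≤ w ^ 2 * A)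
  have g3 := mul_le_mul_of_nonneg_right k3 (by positivity : 0 ≤ m ^ 2 * A)
  have g4 := mul_le_mul_of_nonneg_right k4 (by positivity : 0 ≤ τ₀ ^ 2 * A)
  have e2 : 5 * K * (τ ^ 2 + w ^ 2 + m ^ 2 + τ₀ ^ 2) * A = 5 * (K * (τ ^ 2 * A)) +
      5 * (K * (w ^ 2 * A)) + 5 * (K * (m ^ 2 * A)) + 5 * (K * (τ₀ ^ 2 * A)) := by ring
  rw [e2]
  linarith

/-- the arithmetic for the generic part -/
theorem Vkk_ar {C B K T θ g X Y Z : ℝ} (hC : 0 < C) (hB : 0 < B) (hK : 0 ≤ K) (hT : 0 ≤ T)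
    (hθ : 0 ≤ θ) (hg : 0 ≤ g) (hX : X ≤ 240 * B * T) (hY : Y ≤ K * (θ ^ 2 * T + g))
    (hZ : |Z| ≤ C * √X * √Y) :
    Z ≤ (C * √(240 * B) * √K) * θ * T + T + (C * √(240 * B) * √K) ^ 2 / 4 * g := by
  have h1 : √X ≤ √(240 * B) * √T := by
    rw [← Real.sqrt_mul (by positivity)]
    exact Real.sqrt_le_sqrt hX
  have h2 : √Y ≤ √K * (θ * √T + √g) := by
    have h3 : √(θ ^ 2 * T + g) ≤ θ * √T + √g := by
      rw [Real.sqrt_le_iff]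
      refine ⟨by positivity, ?_⟩
      have h4 : (√T) ^ 2 = T := Real.sq_sqrt hT
      have h5 : (√g) ^ 2 = g := Real.sq_sqrt hg
      have h6 : 0 ≤ 2 * (θ * √T) * √g := by positivity
      nlinarith
    calc √Y ≤ √(K * (θ ^ 2 * T + g)) := Real.sqrt_le_sqrt hY
      _ = √K * √(θ ^ 2 * T + g) := Real.sqrt_mul hK _
      _ ≤ √K * (θ * √T + √g) := mul_le_mul_of_nonneg_left h3 (Real.sqrt_nonneg _)
  have h3 : Z ≤ C * (√(240 * B) * √T) * (√K * (θ * √T + √g)) := by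
    refine (le_abs_self Z).trans (hZ.trans ?_)
    refine mul_le_mul (mul_le_mul_of_nonneg_left h1 hC.le) h2 (Real.sqrt_nonneg _) ?_
    positivity
  obtain ⟨A, hA⟩ : ∃ A, A = C * √(240 * B) * √K := ⟨_, rfl⟩
  rw [← hA]
  have h4 : C * (√(240 * B) * √T) * (√K * (θ * √T + √g)) = A * θ * √T ^ 2 + A * √T * √g := by
    rw [hA]
    ring
  rw [h4, Real.sq_sqrt hT] at h3
  have h5 : A * √T * √g ≤ T + A ^ 2 / 4 * g := by
    have e1 : (√T) ^ 2 = T := Real.sq_sqrt hT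
    have e2 : (√g) ^ 2 = g := Real.sq_sqrt hg
    have e3 : 0 ≤ (√T - A / 2 * √g) ^ 2 := sq_nonneg _
    have e4 : (√T - A / 2 * √g) ^ 2 = √T ^ 2 + A ^ 2 / 4 * √g ^ 2 - A * √T * √g := by ring
    rw [e4, e1, e2] at e3
    linarith
  linarith

theorem DV4_le : ∃ γ η δ c₁ C₁ B₀ : ℝ, 0 < γ ∧ γ ≤ 1 / 8 ∧ 0 < η ∧ η ≤ 1 ∧ 0 < δ ∧
    δ ≤ 1 / 16 ∧ 0 < c₁ ∧ 0 < C₁ ∧ 16 ≤ B₀ ∧ ∀ B : ℝ, B₀ ≤ B → ∃ C₂ : ℝ, 0 < C₂ ∧
    ∀ s, Slow4 B s → ∀ (τ : ℝ) (ε S et : ℝ → ℝ), Cl 0 0 ε → Cl 0 0 S →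
    (∃ p q : ℝ, 0 < p ∧ 0 < q ∧ Cl p q et) → τ ≤ 1 → (∀ y, |ε y| ≤ τ) →
    ∀ β w m τ₀ τ₁ τ₂ : ℝ, 0 ≤ w → 0 ≤ τ₀ → 0 ≤ τ₁ → 0 ≤ τ₂ → SB τ₀ τ₁ τ₂ ε S →
    DV 4 η γ B δ ε (Dz β w m ε S et) ≤ -c₁ * ln γ B ε + C₁ * T4 B s ε
      + C₁ * ((ip ε rho) ^ 2 + (ip ε (deriv (Qf 4))) ^ 2)
      + C₁ * (β * ip (Lam 4 (Qf 4)) rho - ip (Lop 4 ε) (deriv rho)) ^ 2
      + C₂ * (τ + w + |m| + τ₀) * T4 B s ε + C₂ * (ne2 et + τ₁ ^ 2 + τ₂ ^ 2) := by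
  obtain ⟨γ, Ci, hγ, hγ8, hCi, hinv⟩ := inv_loc0
  obtain ⟨η, δ, c₀, Cv, B₁, hη, hη1, hδ, hδ', hc₀, hCv, hB₁, hvl⟩ := vir_lin4 γ hγ hγ8
  obtain ⟨Cw, hCw, hwt⟩ := vf_wt 4 (by norm_num) δ hδ hδ'
  obtain ⟨CF, hCF, hVF⟩ := VF0 γ η δ hη hη1 hδ hδ'
  obtain ⟨CR, hCR, hRd⟩ := Rd_le 4 (by norm_num)
  refine ⟨γ, η, δ, c₀ / Ci, 240 * Cv * Cw + Cv + c₀ + 1, max B₁ (1 / γ), hγ, hγ8,
    hη, hη1, hδ, hδ', by positivity, by positivity, hB₁.trans (le_max_left _ _), ?_⟩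
  intro B hB
  have hBB : B₁ ≤ B := (le_max_left _ _).trans hB
  have hB16 : 16 ≤ B := hB₁.trans hBB
  have hBγ : 1 / γ ≤ B := (le_max_right _ _).trans hB
  have hB0 : 0 < B := by linarith
  have h2B : 0 < 2 / B := by positivity
  have hch : Cl (2 / B) (2 / B) (ch B) := Cl_ch hB0
  have hchi : Integrable (ch B) := Cl_int hch h2B h2B
  have hI0 : 0 ≤ ∫ y, ch B y := integral_nonneg fun y => (Vkk_chp B y).le
  obtain ⟨K, hKd⟩ : ∃ K, K = 5 * (2 * CR ^ 2 * 240 * B + 4000 * B ^ 3 + 240 * B + 9 * 240 * B)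
      + 5 + 15 * ∫ y, ch B y := ⟨_, rfl⟩
  have hK : 0 ≤ K := by
    rw [hKd]
    positivity
  obtain ⟨A, hA⟩ : ∃ A, A = CF * √(240 * B) * √K := ⟨_, rfl⟩
  have hA0 : 0 ≤ A := by
    rw [hA]
    positivity
  refine ⟨A + A ^ 2 / 4 + 1, by positivity, ?_⟩
  intro s hs τ ε S et hε hS het hτ1 hτ β w m τ₀ τ₁ τ₂ hw hτ₀ hτ₁ hτ₂ hSB
  obtain ⟨p, q, hp, hq, hetc⟩ := het
  have het0 : Cl 0 0 et := Cl_mono hetc hp.le hq.le
  have hτ0 : 0 ≤ τ := (abs_nonneg _).trans (hτ 0)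
  have hε1 : Cl 0 0 (deriv ε) := Cl_der hε
  have hε2 : Cl 0 0 (deriv (deriv ε)) := Cl_der hε1
  have hz2 : |(0 : ℝ)| ≤ 2 := by norm_num
  -- integrability
  have sqc : ∀ {f : ℝ → ℝ}, Cl 0 0 f → Cl 0 0 (fun y => f y ^ 2) := fun hf => Cl_pow0 hf 2
  have i1 : Integrable (fun y => ch B y * ((ε y) ^ 2 + (deriv ε y) ^ 2)) := by
    have h1 := Cl_mul0 (Cl_add (sqc hε) (sqc hε1)) hch
    refine (Cl_int h1 h2B h2B).congr (Eventually.of_forall fun y => ?_)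
    simp only
    ring
  have i0 : Integrable (fun y => ch B y * (ε y) ^ 2) := by
    have h1 := Cl_mul0 (sqc hε) hch
    refine (Cl_int h1 h2B h2B).congr (Eventually.of_forall fun y => ?_)
    simp only
    ring
  obtain ⟨pt, qt, hpt, hqt, htac⟩ : ∃ p q : ℝ, 0 < p ∧ 0 < q ∧ Cl p q (ta B s) := by
    obtain ⟨h1, h2, h3, h4⟩ := Wzb_h hs
    exact ⟨_, _, by positivity, by positivity, Cl_ta hs⟩
  have iT : Integrable (fun y => ta B s y * ((ε y) ^ 2 + (deriv ε y) ^ 2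
      + (deriv (deriv ε) y) ^ 2)) := by
    have h1 := Cl_mul0 (Cl_add (Cl_add (sqc hε) (sqc hε1)) (sqc hε2)) htac
    refine (Cl_int h1 hpt hqt).congr (Eventually.of_forall fun y => ?_)
    simp only
    ring
  have iE : Integrable (fun y => (et y) ^ 2 + (deriv et y) ^ 2) := by
    have h1 := Cl_add (Cl_mul hetc hetc) (Cl_mul (Cl_der hetc) (Cl_der hetc))
    refine (Cl_int h1 (by linarith) (by linarith)).congr (Eventually.of_forall fun y => ?_)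
    simp only
    ring
  have hT0 : 0 ≤ T4 B s ε := by
    rw [T4_eq]
    refine integral_nonneg fun y => ?_
    have := ta_pos hs y
    positivity
  have hE0 : 0 ≤ ne2 et := by
    unfold ne2
    exact integral_nonneg fun y => by positivity
  have hXT : (∫ y, ch B y * ((ε y) ^ 2 + (deriv ε y) ^ 2)) ≤ 240 * B * T4 B s ε := by
    rw [T4_eq, ← integral_const_mul]
    refine integral_mono i1 (iT.const_mul _) fun y => ?_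
    have h1 := ch_le_ta hs y
    have h2 : 0 ≤ (ε y) ^ 2 + (deriv ε y) ^ 2 := by positivity
    have h3 := mul_le_mul_of_nonneg_right h1 h2
    have h4 : 0 ≤ 240 * B * ta B s y * (deriv (deriv ε) y) ^ 2 := by
      have := ta_pos hs y
      positivity
    simp only
    linarith
  have hX0T : (∫ y, ch B y * (ε y) ^ 2) ≤ 240 * B * T4 B s ε := by
    refine le_trans (integral_mono i0 i1 fun y => ?_) hXT
    have h4 : 0 ≤ ch B y * (deriv ε y) ^ 2 := by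
      have := Vkk_chp B y
      positivity
    simp only
    linarith
  have hY : (∫ y, ch B y * ((vf 4 δ ε y) ^ 2 + (deriv (vf 4 δ ε) y) ^ 2)) ≤
      Cw * ∫ y, ch B y * ((ε y) ^ 2 + (deriv ε y) ^ 2) := by
    refine hwt 0 0 (2 / B) (2 / B) ε (ch B) hz2 hz2 hε hch (fun y => Vkk_chp B y) ?_
      (by linarith) (by linarith)
    intro y
    have h1 := ch2_le (B := B) (by linarith) y
    have h2 := Vkk_chp B y
    have h3 : 8 / B ^ 2 ≤ 1 := by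
      rw [div_le_one (by positivity)]
      nlinarith
    have h4 : |deriv (deriv (ch B)) y| ≤ 1 * ch B y :=
      h1.trans (mul_le_mul_of_nonneg_right h3 h2.le)
    have h5 : δ * |deriv (deriv (ch B)) y| ≤ 1 / 16 * (1 * ch B y) :=
      mul_le_mul hδ' h4 (abs_nonneg _) (by norm_num)
    linarith
  -- the generic part
  obtain ⟨θ, hθ⟩ : ∃ θ, θ = τ + w + |m| + τ₀ := ⟨_, rfl⟩
  have hm0 := abs_nonneg m
  have hθ0 : 0 ≤ θ := by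
    rw [hθ]
    positivity
  have hθ2 : τ ^ 2 + w ^ 2 + m ^ 2 + τ₀ ^ 2 ≤ θ ^ 2 := by
    rw [hθ, ← sq_abs m]
    have e : (τ + w + |m| + τ₀) ^ 2 = τ ^ 2 + w ^ 2 + |m| ^ 2 + τ₀ ^ 2 + 2 * (τ * w + τ * |m| +
      τ * τ₀ + w * |m| + w * τ₀ + |m| * τ₀) := by ring
    have : 0 ≤ τ * w + τ * |m| + τ * τ₀ + w * |m| + w * τ₀ + |m| * τ₀ := by positivity
    linarith
  obtain ⟨c, hcd⟩ : ∃ c, c = 1 / (2 * B) := ⟨_, rfl⟩
  have hc : 0 < c := by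
    rw [hcd]
    positivity
  have hcB : c + c < 2 / B := by
    rw [hcd, lt_div_iff₀ hB0]
    have : (1 / (2 * B) + 1 / (2 * B)) * B = 1 := by
      field_simp
      norm_num
    linarith
  have hG := Vkk_Gcl (w := w) (m := m) hc hε hS het0
  have iG : Integrable (fun y => ch B y * (Vkk_G w m ε S et y) ^ 2) := by
    have h1 := Cl_mul hch (Cl_mul hG hG)
    refine (Cl_int h1 (by linarith) (by linarith)).congr (Eventually.of_forall fun y => ?_)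
    simp only
    ring
  obtain ⟨K1, hK1⟩ : ∃ K1, K1 = 5 * (2 * CR ^ 2 * 240 * B + 4000 * B ^ 3 + 240 * B + 9 * 240 * B) :=
    ⟨_, rfl⟩
  have hK10 : 0 ≤ K1 := by
    rw [hK1]
    positivity
  have hGle : (∫ y, ch B y * (Vkk_G w m ε S et y) ^ 2) ≤
      K * (θ ^ 2 * T4 B s ε + (ne2 et + τ₁ ^ 2 + τ₂ ^ 2)) := by
    have h1 : (∫ y, ch B y * (Vkk_G w m ε S et y) ^ 2) ≤
        ∫ y, ((K1 * (τ ^ 2 + w ^ 2 + m ^ 2 + τ₀ ^ 2))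
        * (ta B s y * ((ε y) ^ 2 + (deriv ε y) ^ 2 + (deriv (deriv ε) y) ^ 2))
      + 5 * ((et y) ^ 2 + (deriv et y) ^ 2) + (15 * (τ₁ ^ 2 + τ₂ ^ 2)) * ch B y) := by
      refine integral_mono iG (((iT.const_mul _).add (iE.const_mul _)).add (hchi.const_mul _))
        fun y => ?_
      rw [hK1]
      exact Vkk_pt hs hCR (fun z => hRd 0 0 ε hε z ((hτ z).trans hτ1)) hτ hτ₀ hτ₁ hτ₂ hSB y
    have i12 : Integrable (fun y => (K1 * (τ ^ 2 + w ^ 2 + m ^ 2 + τ₀ ^ 2))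
        * (ta B s y * ((ε y) ^ 2 + (deriv ε y) ^ 2 + (deriv (deriv ε) y) ^ 2))
      + 5 * ((et y) ^ 2 + (deriv et y) ^ 2)) := (iT.const_mul _).add (iE.const_mul _)
    rw [integral_add i12 (hchi.const_mul _),
      integral_add (iT.const_mul _) (iE.const_mul _), integral_const_mul, integral_const_mul,
      integral_const_mul, ← T4_eq] at h1
    have e1 : (∫ y, ((et y) ^ 2 + (deriv et y) ^ 2)) = ne2 et := rfl
    rw [e1] at h1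
    have h2 : K1 * (τ ^ 2 + w ^ 2 + m ^ 2 + τ₀ ^ 2) * T4 B s ε ≤ K * (θ ^ 2 * T4 B s ε) := by
      have h3 : K1 ≤ K := by
        rw [hK1, hKd]
        linarith
      have h4 : K1 * (τ ^ 2 + w ^ 2 + m ^ 2 + τ₀ ^ 2) ≤ K * θ ^ 2 :=
        mul_le_mul h3 hθ2 (by positivity) hK
      have h5 := mul_le_mul_of_nonneg_right h4 hT0
      linarith
    have h3 : 5 * ne2 et ≤ K * ne2 et := by
      apply mul_le_mul_of_nonneg_right _ hE0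
      rw [hKd, ← hK1]
      linarith
    have h4 : 15 * (τ₁ ^ 2 + τ₂ ^ 2) * (∫ y, ch B y) ≤ K * (τ₁ ^ 2 + τ₂ ^ 2) := by
      have h5 : 15 * (∫ y, ch B y) ≤ K := by
        rw [hKd, ← hK1]
        linarith
      have h6 := mul_le_mul_of_nonneg_right h5 (by positivity : 0 ≤ τ₁ ^ 2 + τ₂ ^ 2)
      linarith
    have e2 : K * (θ ^ 2 * T4 B s ε + (ne2 et + τ₁ ^ 2 + τ₂ ^ 2)) = K * (θ ^ 2 * T4 B s ε) +
        K * ne2 et + K * (τ₁ ^ 2 + τ₂ ^ 2) := by ring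
    rw [e2]
    linarith
  have hGc : Cl (-(1 / (2 * B))) (-(1 / (2 * B))) (Vkk_G w m ε S et) := by
    rw [← hcd]
    exact hG
  have hZ := Vkk_ar (θ := θ) (g := ne2 et + τ₁ ^ 2 + τ₂ ^ 2) hCF hB0 hK hT0 hθ0 (by positivity)
    hX0T hGle (hVF B hB16 ε (Vkk_G w m ε S et) hε hGc)
  rw [← hA] at hZ
  rw [Vkk_DV hB16 hδ hδ' hε hS het0]
  have hb := hvl B hBB ε hε β
  have hi := hinv γ B δ hγ le_rfl hB16 hBγ hδ hδ' ε hε
  obtain ⟨A1, hA1⟩ : ∃ A1, A1 = ∫ y, loc γ B y * ((vf 4 δ ε y) ^ 2 + (deriv (vf 4 δ ε) y) ^ 2) :=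
    ⟨_, rfl⟩
  rw [← hA1] at hb hi
  have t0 : Cv / B * (∫ y, ch B y * ((vf 4 δ ε y) ^ 2 + (deriv (vf 4 δ ε) y) ^ 2)) ≤
      240 * Cv * Cw * T4 B s ε := by
    have e1 := mul_le_mul_of_nonneg_left (hY.trans (mul_le_mul_of_nonneg_left hXT hCw.le))
      (by positivity : 0 ≤ Cv / B)
    have e2 : Cv / B * (Cw * (240 * B * T4 B s ε)) = 240 * Cv * Cw * T4 B s ε := by
      field_simp
    linarith
  have t1 : -c₀ * A1 ≤ -(c₀ / Ci) * ln γ B ε + c₀ * (ip ε (deriv (Qf 4))) ^ 2 := by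
    have h1 : c₀ / Ci * ln γ B ε ≤ c₀ / Ci * (Ci * (A1 + (ip ε (deriv (Qf 4))) ^ 2)) :=
      mul_le_mul_of_nonneg_left hi (by positivity)
    have h2 : c₀ / Ci * (Ci * (A1 + (ip ε (deriv (Qf 4))) ^ 2)) =
        c₀ * (A1 + (ip ε (deriv (Qf 4))) ^ 2) := by
      field_simp
    linarith
  obtain ⟨X, hX⟩ : ∃ X, X = β * ip (Lam 4 (Qf 4)) rho - ip (Lop 4 ε) (deriv rho) := ⟨_, rfl⟩
  rw [← hX] at hb ⊢
  obtain ⟨C₁, hC₁⟩ : ∃ C₁, C₁ = 240 * Cv * Cw + Cv + c₀ + 1 := ⟨_, rfl⟩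
  obtain ⟨C₂, hC₂⟩ : ∃ C₂, C₂ = A + A ^ 2 / 4 + 1 := ⟨_, rfl⟩
  rw [← hC₁, ← hC₂, ← hθ]
  have v0 : 0 < 240 * Cv * Cw := by positivity
  have u1 : 240 * Cv * Cw * T4 B s ε + T4 B s ε ≤ C₁ * T4 B s ε := by
    have : 240 * Cv * Cw + 1 ≤ C₁ := by
      rw [hC₁]
      linarith
    have := mul_le_mul_of_nonneg_right this hT0
    linarith
  have u2 : Cv * (ip ε rho) ^ 2 ≤ C₁ * (ip ε rho) ^ 2 := by
    apply mul_le_mul_of_nonneg_right _ (sq_nonneg _)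
    rw [hC₁]
    linarith
  have u3 : c₀ * (ip ε (deriv (Qf 4))) ^ 2 ≤ C₁ * (ip ε (deriv (Qf 4))) ^ 2 := by
    apply mul_le_mul_of_nonneg_right _ (sq_nonneg _)
    rw [hC₁]
    linarith
  have u4 : Cv * X ^ 2 ≤ C₁ * X ^ 2 := by
    apply mul_le_mul_of_nonneg_right _ (sq_nonneg _)
    rw [hC₁]
    linarith
  have u5 : A * θ * T4 B s ε ≤ C₂ * θ * T4 B s ε := by
    have h1 : A ≤ C₂ := by
      rw [hC₂]
      have := sq_nonneg A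
      linarith
    exact mul_le_mul_of_nonneg_right (mul_le_mul_of_nonneg_right h1 hθ0) hT0
  have u6 : A ^ 2 / 4 * (ne2 et + τ₁ ^ 2 + τ₂ ^ 2) ≤ C₂ * (ne2 et + τ₁ ^ 2 + τ₂ ^ 2) := by
    apply mul_le_mul_of_nonneg_right _ (by positivity)
    rw [hC₂]
    linarith
  linarith

end H98KC

end

end S_H98_KC_Vkk

section S_H98_KC_Gog

/-!
# Gog (MP_95be7d_S4): assembly of `GoodA` (variant of `KB/Goo.lean`; uses only the STATEMENTS of the imported rows)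

Notation: `s = r²`, `l = r⁸`, `ε = ep P E s W`, `Λn = ln γ B ε`, `n = √Λn`, `ν₂ = ne2 et`, `A = alm`, `q₀ = ip W Q' = ip ε Q'` (`ep_Qd`), `p₀ = ip (W-Q) ρ = ip ε ρ` (`ep_rho`), `ip ε Q = 0` (`ep_Q`),
`ε ∈ Cl 0 0` (`ep_cl`), `epD = Dz (b-w) w m ε S et` (`epD_eq`), `S = Sf ...` of class `Cl 0 0` (`Sf_cl`), `SB τ₀ τ₁ τ₂ ε S` (`Sf_le`, `C_S`) with
`τ₀ = C_S r⁴`, `τ₁ = C_S(r⁸+r⁴|m|+|bqD|)`, `τ₂ = C_S|A|`; `τ = c` (bound for `|ε|`).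
Constants: `(γ,η,δ,c₁,C₁,B₀)` from `DV4_le`; `(ν,C_E)` from `DE4_le`; `(C_m,r_m,c_m)` from `MOu`; `(ν',c_L,C_L,B₁)` from `CO_E4`; `C_V` from `CV4`; `C_u` from `CO_up4`.
`M := max (64C₁) (4C_V/c_L)`.  `B ≥ B₀, B₁` so large that `M C_E/B ≤ c₁/16` and `8M C_E C_m/B ≤ c₁/16`.  `C₂ = C₂(B)` = max of the constants of `DE4_le`, `DV4_le` for this `B`.
Then `c₁' ≤ ν, ν', c_m, 1/10` small, then for `c ≤ c₁'` and `Ca` the number `r1` small (`16 r1² B ≤ 1`, so `Slow4 B (r²)`).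

ML: `M DE4 + DV ≤ (-M/8+C₁)T4 + (M C_E/B - c₁)Λn + M C_E(1+w/s)Bad + M C_E(|b-w|+|m|)(1/B+c)n + C₂'(|m|+w/s+τ₀/s+c+w+τ₀)(T4+Λn) + (M C_E/s+C₂)ν₂ + C₂'(τ₁²+τ₂²/s²) + C₁(p₀²+q₀²) + C₁X²`
(`C₂' = (M+1)C₂`, `X = (b-w)(ΛQ,ρ)-(Lε,ρ')`, `τ₂² ≤ τ₂²/s²`).  By `MOu`:
* `|m|+|b-w| ≤ 2C_m(n+r⁸+√ν₂)`, `2M C_E C_m(1/B+c)(n+r⁸+√ν₂)n ≤ 2M C_E C_m(1/B+c)(2Λn+r¹⁶+ν₂)`, with `4M C_E C_m(1/B+c) ≤ c₁/16` (`c` small).
* `|m| ≤ C_m(√c+r⁸+√c)` (`lnc`, `e1`), `w/s ≤ 5c0 r²`, `τ₀/s = C_S r²`: the factor `C₂'(...)` is `≤ min(M/64, c₁/16)` for `c`, `r` small.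
* `X² ≤ 4C_m²(r¹⁶+r⁸Λn+Λn²+ν₂)`, `Λn² ≤ cΛn`: `4C₁C_m²(r⁸+c) ≤ c₁/16`.
* `τ₁² ≤ C(r¹⁶+r⁸m²+bqD²)`, `m² ≤ 3C_m²(Λn+r¹⁶+ν₂)`, `bqD² ≤ 6C_m²(r¹⁶+r⁸Λn+Λn²+A²+q₀²+ν₂)`: coefficient of `Λn` is `≤ C(r⁸+c) ≤ c₁/16`; `A² ≤ A²/r⁴`; `τ₂²/s² = C_S²A²/r⁴`.
* `M/8-C₁-M/64 ≥ M/16`; `c₁-5c₁/16 ≥ c₁/2`; `(1+w/s) ≤ 2`; `M C_E/s+C₂ + ... ≤ C/r²`.
So `≤ -(M/16)T4 - (c₁/2)Λn + C Bad + C(r¹⁶+A²/r⁴+q₀²+p₀²) + (C/r²)ν₂`, and `c ≤ M/16, c₁/2`.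
CO: `r1` with `Slow4 B (r²)`: `c_L G4 ≤ E4+C_L(0+q₀²+p₀²)`, `|Vf| ≤ C_V G4`, `M c_L - C_V ≥ (M/2)c_L·(3/2)`: `(M c_L/2) G4 ≤ M E4+Vf+M C_L(q₀²+p₀²)`; upper bound `CO_up4`, `CV4`; `LN4`.
`C₁` of the conclusion = maximum of all constants (and `≥ M C_L`, `≥ 2/(M c_L)`, `≥ 1`); all inequalities are monotone in `C` (for `CO` use `0 ≤ G4` so the bracket is `≥ 0`).
`hc1 : c ≤ 1/10`.
-/

open MeasureTheory Filter Topology Set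
open scoped ContDiff

noncomputable section

namespace H98KC

open H98KB H68KC

variable {P E : ℝ → ℝ}

theorem Gog_min (l : List ℝ) (h : ∀ x ∈ l, 0 < x) : ∃ c : ℝ, 0 < c ∧ ∀ x ∈ l, c ≤ x := by
  induction l with
  | nil => exact ⟨1, one_pos, by simp⟩
  | cons a l ih =>
    obtain ⟨c, hc, h2⟩ := ih fun x hx => h x (List.mem_cons_of_mem _ hx)
    refine ⟨min a c, lt_min (h a List.mem_cons_self) hc, fun x hx => ?_⟩
    rcases List.mem_cons.1 hx with rfl | hx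
    · exact min_le_left _ _
    · exact (min_le_right _ _).trans (h2 x hx)

theorem Gog_max (l : List ℝ) : ∃ c : ℝ, 1 ≤ c ∧ ∀ x ∈ l, x ≤ c := by
  induction l with
  | nil => exact ⟨1, le_rfl, by simp⟩
  | cons a l ih =>
    obtain ⟨c, hc, h2⟩ := ih
    refine ⟨max a c, hc.trans (le_max_right _ _), fun x hx => ?_⟩
    rcases List.mem_cons.1 hx with rfl | hx
    · exact le_max_left _ _
    · exact (h2 x hx).trans (le_max_right _ _)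

theorem Gog_small {a b : ℝ} (ha : 0 ≤ a) (hb : 0 < b) :
    ∃ c₀ : ℝ, 0 < c₀ ∧ ∀ c, c ≤ c₀ → a * √c ≤ b := by
  have ha1 : 0 < a + 1 := by linarith
  refine ⟨(b / (a + 1)) ^ 2, by positivity, fun c hc => ?_⟩
  have h1 : √c ≤ b / (a + 1) := by
    rw [Real.sqrt_le_left (by positivity)]
    exact hc
  have h2 : a * √c ≤ (a + 1) * √c :=
    mul_le_mul_of_nonneg_right (by linarith) (Real.sqrt_nonneg c)
  have h3 := mul_le_mul_of_nonneg_left h1 ha1.le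
  have h4 : (a + 1) * (b / (a + 1)) = b := by field_simp
  linarith

theorem Gog_CO {M cL CL CV' Cup C G E V x : ℝ} (hM : 0 < M) (hcL : 0 < cL) (hG : 0 ≤ G)
    (hx : 0 ≤ x) (hC0 : 0 ≤ C) (h1 : cL * G ≤ E + CL * x) (hV : |V| ≤ CV' * G)
    (hE : |E| ≤ Cup * G) (hM3 : 4 * CV' ≤ M * cL) (hCa : 2 / (M * cL) ≤ C) (hCb : M * CL ≤ C)
    (hCc : M * Cup + CV' ≤ C) :
    G ≤ C * (M * E + V + C * x) ∧ |M * E + V| ≤ C * G := by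
  have hMc : 0 < M * cL := mul_pos hM hcL
  constructor
  · have h2 := mul_le_mul_of_nonneg_left h1 hM.le
    have h3 : 4 * CV' * G ≤ M * cL * G := mul_le_mul_of_nonneg_right hM3 hG
    have h4 := (abs_le.1 hV).1
    have h5 : 0 ≤ M * cL * G := mul_nonneg hMc.le hG
    have h6 : M * cL / 2 * G ≤ M * E + V + M * CL * x := by
      have e1 : M * (cL * G) = M * cL * G := by ring
      have e2 : M * (E + CL * x) = M * E + M * CL * x := by ring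
      rw [e1, e2] at h2
      linarith
    have h7 : 0 ≤ M * E + V + M * CL * x := by
      have : 0 ≤ M * cL / 2 * G := by positivity
      linarith
    have h8 : M * E + V + M * CL * x ≤ M * E + V + C * x := by
      have := mul_le_mul_of_nonneg_right hCb hx
      linarith
    calc G = 2 / (M * cL) * (M * cL / 2 * G) := by field_simp
      _ ≤ 2 / (M * cL) * (M * E + V + M * CL * x) :=
        mul_le_mul_of_nonneg_left h6 (by positivity)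
      _ ≤ C * (M * E + V + M * CL * x) := mul_le_mul_of_nonneg_right hCa h7
      _ ≤ C * (M * E + V + C * x) := mul_le_mul_of_nonneg_left h8 hC0
  · have h2 := mul_le_mul_of_nonneg_right hCc hG
    have h3 : |M * E| ≤ M * (Cup * G) := by
      rw [abs_mul, abs_of_pos hM]
      exact mul_le_mul_of_nonneg_left hE hM.le
    have h4 := abs_add_le (M * E) V
    have e : (M * Cup + CV') * G = M * (Cup * G) + CV' * G := by ring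
    rw [e] at h2
    linarith

theorem Gog_c {A Cm c₁ t x y R β m : ℝ} (hA : 0 < A) (hCm : 0 < Cm) (ht : 0 ≤ t)
    (hx : 0 ≤ x) (hβ : |β| ≤ Cm * (x + R + y)) (hm : |m| ≤ Cm * (x + R + y))
    (h1 : 4 * (A * Cm) * t ≤ c₁ / 8) :
    A * |β| * (t * x) + A * |m| * (t * x) ≤ c₁ / 8 * x ^ 2 + c₁ / 32 * (R ^ 2 + y ^ 2) := by
  have h2 : (|β| + |m|) * x ≤ 2 * (Cm * (x + R + y)) * x :=
    mul_le_mul_of_nonneg_right (by linarith) hx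
  have h3 : 2 * ((x + R + y) * x) ≤ 4 * x ^ 2 + R ^ 2 + y ^ 2 := by
    have a1 := sq_nonneg (x - R)
    have a2 := sq_nonneg (x - y)
    have e1 : (x - R) ^ 2 = x ^ 2 - 2 * (x * R) + R ^ 2 := by ring
    have e2 : (x - y) ^ 2 = x ^ 2 - 2 * (x * y) + y ^ 2 := by ring
    have e3 : 2 * ((x + R + y) * x) = 2 * x ^ 2 + 2 * (x * R) + 2 * (x * y) := by ring
    rw [e3]
    rw [e1] at a1
    rw [e2] at a2
    linarith
  have h4 := mul_le_mul_of_nonneg_left h3 hCm.le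
  have h5 : (|β| + |m|) * x ≤ Cm * (4 * x ^ 2 + R ^ 2 + y ^ 2) := by
    have e1 : 2 * (Cm * (x + R + y)) * x = Cm * (2 * ((x + R + y) * x)) := by ring
    linarith
  have h6 := mul_le_mul_of_nonneg_left h5 (mul_nonneg hA.le ht)
  have h7 : 0 ≤ 4 * x ^ 2 + R ^ 2 + y ^ 2 := by positivity
  have h8 := mul_le_mul_of_nonneg_right h1 h7
  have e1 : A * |β| * (t * x) + A * |m| * (t * x) = A * t * ((|β| + |m|) * x) := by ring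
  have e2 : A * t * (Cm * (4 * x ^ 2 + R ^ 2 + y ^ 2)) =
    1 / 4 * (4 * (A * Cm) * t * (4 * x ^ 2 + R ^ 2 + y ^ 2)) := by ring
  rw [e1]
  rw [e2] at h6
  linarith

theorem Gog_d {M C₂ c₁ σ₁ σ₂ σ T L : ℝ} (hM : 0 < M) (hC₂ : 0 < C₂) (hT : 0 ≤ T) (hL : 0 ≤ L)
    (hσ0 : 0 ≤ σ) (h1 : σ₁ ≤ σ) (h2 : σ₂ ≤ σ) (hσ1 : (M + 1) * C₂ * σ ≤ M / 64)
    (hσ2 : (M + 1) * C₂ * σ ≤ c₁ / 16) :
    M * (C₂ * σ₁ * (T + L)) + C₂ * σ₂ * T ≤ M / 64 * T + c₁ / 16 * L := by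
  have a1 : C₂ * σ₁ * (T + L) ≤ C₂ * σ * (T + L) :=
    mul_le_mul_of_nonneg_right (mul_le_mul_of_nonneg_left h1 hC₂.le) (add_nonneg hT hL)
  have a2 := mul_le_mul_of_nonneg_left a1 hM.le
  have a3 : C₂ * σ₂ * T ≤ C₂ * σ * T :=
    mul_le_mul_of_nonneg_right (mul_le_mul_of_nonneg_left h2 hC₂.le) hT
  have a4 := mul_le_mul_of_nonneg_right hσ1 hT
  have a5 := mul_le_mul_of_nonneg_right hσ2 hL
  have a6 : 0 ≤ C₂ * σ * L := mul_nonneg (mul_nonneg hC₂.le hσ0) hL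
  have e1 : M * (C₂ * σ * (T + L)) + C₂ * σ * T = (M + 1) * C₂ * σ * T + (M + 1) * C₂ * σ * L
    - C₂ * σ * L := by ring
  linarith

theorem Gog_sq3 (a b c : ℝ) : (a + b + c) ^ 2 ≤ 3 * (a ^ 2 + b ^ 2 + c ^ 2) := by
  have a1 := sq_nonneg (a - b)
  have a2 := sq_nonneg (a - c)
  have a3 := sq_nonneg (b - c)
  nlinarith only [a1, a2, a3]

theorem Gog_sq4 (a b c d : ℝ) : (a + b + c + d) ^ 2 ≤ 4 * (a ^ 2 + b ^ 2 + c ^ 2 + d ^ 2) := by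
  have a1 := sq_nonneg (a - b)
  have a2 := sq_nonneg (a - c)
  have a3 := sq_nonneg (b - c)
  have a4 := sq_nonneg (a - d)
  have a5 := sq_nonneg (b - d)
  have a6 := sq_nonneg (c - d)
  nlinarith only [a1, a2, a3, a4, a5, a6]

theorem Gog_sq6 (a b c d e f : ℝ) : (a + b + c + d + e + f) ^ 2 ≤
    6 * (a ^ 2 + b ^ 2 + c ^ 2 + d ^ 2 + e ^ 2 + f ^ 2) := by
  have h1 := Gog_sq3 (a + b) (c + d) (e + f)
  have h2 := sq_nonneg (a - b)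
  have h3 := sq_nonneg (c - d)
  have h4 := sq_nonneg (e - f)
  have e1 : (a + b + c + d + e + f) = (a + b) + (c + d) + (e + f) := by ring
  rw [e1]
  nlinarith only [h1, h2, h3, h4]

/-- the bound for `τ₁²` -/
theorem Gog_f {CS Cm c r4 R x y L e m D A q : ℝ} (hCS : 0 < CS) (hCm : 0 < Cm) (hr4 : 0 ≤ r4)
    (hR : R = r4 ^ 2) (hR1 : R ≤ 1) (hxx : x ^ 2 = L) (hyy : y ^ 2 = e)
    (hL0 : 0 ≤ L) (hLc : L ≤ c)
    (hm : |m| ≤ Cm * (x + R + y)) (hD : |D| ≤ Cm * (R + r4 * x + L + |A| + |q| + y)) :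
    (CS * (R + r4 * |m| + |D|)) ^ 2 ≤ 3 * CS ^ 2 * ((1 + 9 * Cm ^ 2) * R ^ 2
      + (9 * Cm ^ 2 * R + 6 * Cm ^ 2 * c) * L + 9 * Cm ^ 2 * e + 6 * Cm ^ 2 * (A ^ 2 + q ^ 2)) := by
  have hR0 : 0 ≤ R := by rw [hR]; positivity
  have he0 : 0 ≤ e := by rw [← hyy]; positivity
  have h1 := Gog_sq3 R (r4 * |m|) |D|
  have hmm : |m| ^ 2 ≤ (Cm * (x + R + y)) ^ 2 := pow_le_pow_left₀ (abs_nonneg m) hm 2
  have hDD : |D| ^ 2 ≤ (Cm * (R + r4 * x + L + |A| + |q| + y)) ^ 2 :=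
    pow_le_pow_left₀ (abs_nonneg D) hD 2
  have h2 := Gog_sq3 x R y
  have h3 := Gog_sq6 R (r4 * x) L |A| |q| y
  rw [mul_pow] at hmm hDD
  have hC2 : 0 < Cm ^ 2 := by positivity
  have h4 := mul_le_mul_of_nonneg_left h2 hC2.le
  have h5 := mul_le_mul_of_nonneg_left h3 hC2.le
  have h6 : R * |m| ^ 2 ≤ 3 * Cm ^ 2 * (R * L + R ^ 2 + e) := by
    have a1 : R * |m| ^ 2 ≤ R * (Cm ^ 2 * (3 * (L + R ^ 2 + e))) := by
      rw [← hxx, ← hyy]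
      exact mul_le_mul_of_nonneg_left (hmm.trans h4) hR0
    have a2 : R * R ^ 2 ≤ R ^ 2 := mul_le_of_le_one_left (sq_nonneg R) hR1
    have a3 : R * e ≤ e := mul_le_of_le_one_left he0 hR1
    have a4 : R * (Cm ^ 2 * (3 * (L + R ^ 2 + e))) =
      3 * Cm ^ 2 * (R * L + R * R ^ 2 + R * e) := by ring
    have a5 : 3 * Cm ^ 2 * (R * L + R * R ^ 2 + R * e) ≤ 3 * Cm ^ 2 * (R * L + R ^ 2 + e) :=
      mul_le_mul_of_nonneg_left (by linarith only [a2, a3]) (by positivity)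
    linarith only [a1, a4, a5]
  have h7 : |D| ^ 2 ≤ 6 * Cm ^ 2 * (R ^ 2 + R * L + c * L + A ^ 2 + q ^ 2 + e) := by
    have a1 : L ^ 2 ≤ c * L := by
      rw [pow_two]
      exact mul_le_mul_of_nonneg_right hLc hL0
    have a2 : (r4 * x) ^ 2 = R * L := by rw [mul_pow, hR, hxx]
    rw [a2, sq_abs, sq_abs, hyy] at h5
    have a3 : Cm ^ 2 * (6 * (R ^ 2 + R * L + L ^ 2 + A ^ 2 + q ^ 2 + e)) ≤
        6 * Cm ^ 2 * (R ^ 2 + R * L + c * L + A ^ 2 + q ^ 2 + e) := by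
      have : Cm ^ 2 * (6 * (R ^ 2 + R * L + L ^ 2 + A ^ 2 + q ^ 2 + e)) =
        6 * Cm ^ 2 * (R ^ 2 + R * L + L ^ 2 + A ^ 2 + q ^ 2 + e) := by ring
      rw [this]
      exact mul_le_mul_of_nonneg_left (by linarith only [a1]) (by positivity)
    linarith only [hDD, h5, a3]
  have h8 : (r4 * |m|) ^ 2 = R * |m| ^ 2 := by rw [mul_pow, hR]
  rw [h8] at h1
  have h9 : (R + r4 * |m| + |D|) ^ 2 ≤ 3 * (R ^ 2 + 3 * Cm ^ 2 * (R * L + R ^ 2 + e)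
      + 6 * Cm ^ 2 * (R ^ 2 + R * L + c * L + A ^ 2 + q ^ 2 + e)) := by linarith only [h1, h6, h7]
  rw [mul_pow]
  have h10 := mul_le_mul_of_nonneg_left h9 (sq_nonneg CS)
  refine h10.trans (le_of_eq ?_)
  ring

/-- the bound for `X²` -/
theorem Gog_g {Cm c r4 R x y L e X : ℝ} (hCm : 0 < Cm)
    (hR : R = r4 ^ 2) (hxx : x ^ 2 = L) (hyy : y ^ 2 = e) (hL0 : 0 ≤ L) (hLc : L ≤ c)
    (hX : |X| ≤ Cm * (R + r4 * x + L + y)) :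
    X ^ 2 ≤ 4 * Cm ^ 2 * (R ^ 2 + (R + c) * L + e) := by
  have h1 : |X| ^ 2 ≤ (Cm * (R + r4 * x + L + y)) ^ 2 := pow_le_pow_left₀ (abs_nonneg X) hX 2
  rw [sq_abs, mul_pow] at h1
  have h2 := mul_le_mul_of_nonneg_left (Gog_sq4 R (r4 * x) L y) (sq_nonneg Cm)
  have a1 : L ^ 2 ≤ c * L := by
    rw [pow_two]
    exact mul_le_mul_of_nonneg_right hLc hL0
  have a2 : (r4 * x) ^ 2 = R * L := by rw [mul_pow, hR, hxx]
  rw [a2, hyy] at h2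
  have h3 : Cm ^ 2 * (4 * (R ^ 2 + R * L + L ^ 2 + e)) ≤
      4 * Cm ^ 2 * (R ^ 2 + (R + c) * L + e) := by
    have : Cm ^ 2 * (4 * (R ^ 2 + R * L + L ^ 2 + e)) =
      4 * Cm ^ 2 * (R ^ 2 + R * L + L ^ 2 + e) := by ring
    rw [this]
    refine mul_le_mul_of_nonneg_left ?_ (by positivity)
    have e1 : (R + c) * L = R * L + c * L := by ring
    rw [e1]
    linarith only [a1]
  linarith only [h1, h2, h3]

/-- the main inequality in real numbers -/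
theorem Gog_num {M CE C₁ C₂ Cm CS c₁ B r w m β c σ T L Bd e A q p X D DE' DV' : ℝ}
    (hM0 : 0 < M) (hCE : 0 < CE) (hC₁ : 0 < C₁) (hC₂ : 0 < C₂) (hCm : 0 < Cm) (hCS : 0 < CS)
    (hc₁ : 0 < c₁) (hB : 0 < B) (hr : 0 < r) (hr1 : r ≤ 1) (hc0 : 0 < c)
    (hw1 : w / r ^ 2 ≤ 1)
    (hT : 0 ≤ T) (hL : 0 ≤ L) (hLc : L ≤ c) (hBd : 0 ≤ Bd) (he : 0 ≤ e)
    (hDE : DE' ≤ -(1 / 8) * T + CE / B * L + CE * (1 + w / r ^ 2) * Bd
      + CE * |β| * (0 + (1 / B + c) * √L) + CE * |m| * ((1 / B + c) * √L)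
      + C₂ * (|m| + w / r ^ 2 + CS * r ^ 4 / r ^ 2) * (T + L)
      + CE / r ^ 2 * e + C₂ * ((CS * (r ^ 8 + r ^ 4 * |m| + |D|)) ^ 2
        + (CS * |A|) ^ 2 / (r ^ 2) ^ 2))
    (hDV : DV' ≤ -c₁ * L + C₁ * T + C₁ * (p ^ 2 + q ^ 2) + C₁ * X ^ 2
      + C₂ * (c + w + |m| + CS * r ^ 4) * T + C₂ * (e + (CS * (r ^ 8 + r ^ 4 * |m| + |D|)) ^ 2
        + (CS * |A|) ^ 2))
    (hm : |m| ≤ Cm * (√L + r ^ 8 + √e)) (hβ : |β| ≤ Cm * (√L + r ^ 8 + √e))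
    (hX : |X| ≤ Cm * (r ^ 8 + r ^ 4 * √L + L + √e))
    (hD : |D| ≤ Cm * (r ^ 8 + r ^ 4 * √L + L + |A| + |q| + √e))
    (hσ0 : 0 ≤ σ) (hs1 : |m| + w / r ^ 2 + CS * r ^ 4 / r ^ 2 ≤ σ)
    (hs2 : c + w + |m| + CS * r ^ 4 ≤ σ)
    (hσ1 : (M + 1) * C₂ * σ ≤ M / 64) (hσ2 : (M + 1) * C₂ * σ ≤ c₁ / 16)
    (hMC : 64 * C₁ ≤ M) (hB1 : M * CE / B ≤ c₁ / 16)
    (hB2 : 4 * (M * CE * Cm) * (1 / B + c) ≤ c₁ / 8)
    (hf1 : (M + 1) * C₂ * (3 * CS ^ 2 * (9 * Cm ^ 2 * r ^ 8 + 6 * Cm ^ 2 * c)) ≤ c₁ / 16)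
    (hg1 : C₁ * (4 * Cm ^ 2 * (r ^ 8 + c)) ≤ c₁ / 16) :
    M * DE' + DV' ≤ -(M / 16) * T - c₁ / 2 * L
      + (3 * M * CE + c₁ + C₁ + C₂ + 4 * C₁ * Cm ^ 2
          + (M + 1) * C₂ * CS ^ 2 * (4 + 72 * Cm ^ 2)) *
        (Bd + (r ^ 16 + A ^ 2 / r ^ 4 + q ^ 2 + p ^ 2) + e / r ^ 2) := by
  have hx := Real.sqrt_nonneg L
  have hxx : √L ^ 2 = L := Real.sq_sqrt hL
  have hyy : √e ^ 2 = e := Real.sq_sqrt he
  have hr4 : 0 < r ^ 4 := by positivity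
  have hR0 : 0 < r ^ 8 := by positivity
  have hR1 : r ^ 8 ≤ 1 := pow_le_one₀ hr.le hr1
  have hr41 : r ^ 4 ≤ 1 := pow_le_one₀ hr.le hr1
  have hr21 : r ^ 2 ≤ 1 := pow_le_one₀ hr.le hr1
  have hr2 : 0 < r ^ 2 := by positivity
  have hR : r ^ 8 = (r ^ 4) ^ 2 := by ring
  have hR2 : (r ^ 8) ^ 2 = r ^ 16 := by ring
  have hMCE : 0 < M * CE := mul_pos hM0 hCE
  have hBs : 0 ≤ 1 / B + c := by positivity
  obtain ⟨N, hN⟩ : ∃ N, N = (M + 1) * C₂ := ⟨_, rfl⟩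
  have hN0 : 0 < N := by rw [hN]; positivity
  -- the pieces
  have sc := Gog_c (R := r ^ 8) (y := √e) hMCE hCm hBs hx hβ hm hB2
  have sd := Gog_d hM0 hC₂ hT hL hσ0 hs1 hs2 hσ1 hσ2
  have sf := Gog_f hCS hCm hr4.le hR hR1 hxx hyy hL hLc hm hD
  have sg := Gog_g hCm hR hxx hyy hL hLc hX
  rw [hxx, hyy, hR2] at sc
  rw [hR2] at sf sg
  obtain ⟨t, ht⟩ : ∃ t, t = (CS * (r ^ 8 + r ^ 4 * |m| + |D|)) ^ 2 := ⟨_, rfl⟩
  rw [← ht] at hDE hDV sf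
  have ht0 : 0 ≤ t := by rw [ht]; positivity
  -- `A² ≤ A²/r⁴`, `e ≤ e/r²`
  have hA2 : A ^ 2 ≤ A ^ 2 / r ^ 4 := by
    rw [le_div_iff₀ hr4]
    exact mul_le_of_le_one_right (sq_nonneg A) hr41
  have he2 : e ≤ e / r ^ 2 := by
    rw [le_div_iff₀ hr2]
    exact mul_le_of_le_one_right he hr21
  have hA3 : (CS * |A|) ^ 2 / (r ^ 2) ^ 2 = CS ^ 2 * (A ^ 2 / r ^ 4) := by
    rw [mul_pow, sq_abs, ← pow_mul, mul_div_assoc]
  have hA4 : (CS * |A|) ^ 2 ≤ CS ^ 2 * (A ^ 2 / r ^ 4) := by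
    rw [mul_pow, sq_abs]
    exact mul_le_mul_of_nonneg_left hA2 (sq_nonneg CS)
  rw [hA3] at hDE
  have hq0 := sq_nonneg q
  have hp0 := sq_nonneg p
  have hAr0 : 0 ≤ A ^ 2 / r ^ 4 := by positivity
  have her0 : 0 ≤ e / r ^ 2 := by positivity
  have hr16 : 0 < r ^ 16 := by positivity
  -- f
  have sf2 := mul_le_mul_of_nonneg_left sf hN0.le
  rw [← hN] at hf1
  have sf3 := mul_le_mul_of_nonneg_right hf1 hL
  have sf4 : N * t ≤ c₁ / 16 * L + N * CS ^ 2 * (3 + 27 * Cm ^ 2) * r ^ 16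
      + 27 * N * CS ^ 2 * Cm ^ 2 * (e / r ^ 2)
      + 18 * N * CS ^ 2 * Cm ^ 2 * (A ^ 2 / r ^ 4 + q ^ 2) := by
    have k1 : 27 * N * CS ^ 2 * Cm ^ 2 * e ≤ 27 * N * CS ^ 2 * Cm ^ 2 * (e / r ^ 2) :=
      mul_le_mul_of_nonneg_left he2 (by positivity)
    have k2 : 18 * N * CS ^ 2 * Cm ^ 2 * (A ^ 2 + q ^ 2) ≤
        18 * N * CS ^ 2 * Cm ^ 2 * (A ^ 2 / r ^ 4 + q ^ 2) :=
      mul_le_mul_of_nonneg_left (by linarith only [hA2]) (by positivity)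
    have k3 : N * (3 * CS ^ 2 * ((1 + 9 * Cm ^ 2) * r ^ 16
      + (9 * Cm ^ 2 * r ^ 8 + 6 * Cm ^ 2 * c) * L + 9 * Cm ^ 2 * e + 6 * Cm ^ 2 * (A ^ 2 + q ^ 2))) =
      N * (3 * CS ^ 2 * (9 * Cm ^ 2 * r ^ 8 + 6 * Cm ^ 2 * c)) * L
      + N * CS ^ 2 * (3 + 27 * Cm ^ 2) * r ^ 16 + 27 * N * CS ^ 2 * Cm ^ 2 * e
      + 18 * N * CS ^ 2 * Cm ^ 2 * (A ^ 2 + q ^ 2) := by ring
    linarith only [sf2, sf3, k1, k2, k3]
  -- g
  have sg2 := mul_le_mul_of_nonneg_left sg hC₁.le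
  have sg3 := mul_le_mul_of_nonneg_right hg1 hL
  have sg4 : C₁ * X ^ 2 ≤ c₁ / 16 * L + 4 * C₁ * Cm ^ 2 * (r ^ 16 + e / r ^ 2) := by
    have k1 : 4 * C₁ * Cm ^ 2 * (r ^ 16 + e) ≤ 4 * C₁ * Cm ^ 2 * (r ^ 16 + e / r ^ 2) :=
      mul_le_mul_of_nonneg_left (by linarith only [he2]) (by positivity)
    have k2 : C₁ * (4 * Cm ^ 2 * (r ^ 16 + (r ^ 8 + c) * L + e)) =
      C₁ * (4 * Cm ^ 2 * (r ^ 8 + c)) * L + 4 * C₁ * Cm ^ 2 * (r ^ 16 + e) := by ring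
    linarith only [sg2, sg3, k1, k2]
  -- the others
  have s7 := mul_le_mul_of_nonneg_right hB1 hL
  have s8 : C₁ * T ≤ M / 64 * T := mul_le_mul_of_nonneg_right (by linarith only [hMC]) hT
  have s9 : M * (CE * (1 + w / r ^ 2) * Bd) ≤ 2 * (M * CE) * Bd := by
    have k1 : (1 + w / r ^ 2) * Bd ≤ 2 * Bd :=
      mul_le_mul_of_nonneg_right (by linarith only [hw1]) hBd
    have k2 := mul_le_mul_of_nonneg_left k1 hMCE.le
    have k3 : M * (CE * (1 + w / r ^ 2) * Bd) = M * CE * ((1 + w / r ^ 2) * Bd) := by ring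
    have k4 : M * CE * (2 * Bd) = 2 * (M * CE) * Bd := by ring
    linarith only [k2, k3, k4]
  have s10 : C₂ * (CS * |A|) ^ 2 + M * (C₂ * (CS ^ 2 * (A ^ 2 / r ^ 4))) ≤
      N * CS ^ 2 * (A ^ 2 / r ^ 4) := by
    have k1 := mul_le_mul_of_nonneg_left hA4 hC₂.le
    have k2 : N * CS ^ 2 * (A ^ 2 / r ^ 4) = M * (C₂ * (CS ^ 2 * (A ^ 2 / r ^ 4)))
      + C₂ * (CS ^ 2 * (A ^ 2 / r ^ 4)) := by rw [hN]; ring
    linarith only [k1, k2]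
  have s11 : C₂ * e ≤ C₂ * (e / r ^ 2) := mul_le_mul_of_nonneg_left he2 hC₂.le
  have s12 : c₁ / 32 * e ≤ c₁ / 32 * (e / r ^ 2) :=
    mul_le_mul_of_nonneg_left he2 (by positivity)
  have hME := mul_le_mul_of_nonneg_left hDE hM0.le
  have e1 : M * (-(1 / 8) * T + CE / B * L + CE * (1 + w / r ^ 2) * Bd
      + CE * |β| * (0 + (1 / B + c) * √L) + CE * |m| * ((1 / B + c) * √L)
      + C₂ * (|m| + w / r ^ 2 + CS * r ^ 4 / r ^ 2) * (T + L)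
      + CE / r ^ 2 * e + C₂ * (t + CS ^ 2 * (A ^ 2 / r ^ 4))) =
      -(M / 8) * T + M * CE / B * L + M * (CE * (1 + w / r ^ 2) * Bd)
      + (M * CE * |β| * ((1 / B + c) * √L) + M * CE * |m| * ((1 / B + c) * √L))
      + M * (C₂ * (|m| + w / r ^ 2 + CS * r ^ 4 / r ^ 2) * (T + L))
      + M * CE * (e / r ^ 2) + M * C₂ * t + M * (C₂ * (CS ^ 2 * (A ^ 2 / r ^ 4))) := by
    ring
  have e2 : C₂ * (e + t + (CS * |A|) ^ 2) = C₂ * e + C₂ * t + C₂ * (CS * |A|) ^ 2 := by ring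
  have e3 : N * t = M * C₂ * t + C₂ * t := by rw [hN]; ring
  rw [e1] at hME
  rw [e2] at hDV
  have hMT : 0 ≤ M * T := mul_nonneg hM0.le hT
  have hcL : 0 ≤ c₁ * L := mul_nonneg hc₁.le hL
  have step : M * DE' + DV' ≤ -(M / 16) * T - c₁ / 2 * L + 2 * (M * CE) * Bd
      + (c₁ / 32 + N * CS ^ 2 * (3 + 27 * Cm ^ 2) + 4 * C₁ * Cm ^ 2) * r ^ 16
      + (N * CS ^ 2 + 18 * N * CS ^ 2 * Cm ^ 2) * (A ^ 2 / r ^ 4)
      + (C₁ + 18 * N * CS ^ 2 * Cm ^ 2) * q ^ 2 + C₁ * p ^ 2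
      + (M * CE + C₂ + c₁ / 32 + 27 * N * CS ^ 2 * Cm ^ 2 + 4 * C₁ * Cm ^ 2) * (e / r ^ 2) := by
    linarith only [hME, hDV, sc, sd, sf4, sg4, s7, s8, s9, s10, s11, s12, e3, hMT, hcL]
  refine step.trans ?_
  rw [← hN]
  obtain ⟨K, hK⟩ : ∃ K, K = 3 * M * CE + c₁ + C₁ + C₂ + 4 * C₁ * Cm ^ 2
    + N * CS ^ 2 * (4 + 72 * Cm ^ 2) := ⟨_, rfl⟩
  rw [← hK]
  have n1 : 0 < N * CS ^ 2 := by positivity
  have n2 : 0 < N * CS ^ 2 * Cm ^ 2 := by positivity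
  have n3 : 0 < C₁ * Cm ^ 2 := by positivity
  have hK' : K = 3 * (M * CE) + c₁ + C₁ + C₂ + 4 * (C₁ * Cm ^ 2)
    + 4 * (N * CS ^ 2) + 72 * (N * CS ^ 2 * Cm ^ 2) := by rw [hK]; ring
  have q1 : 2 * (M * CE) ≤ K := by linarith only [hK', n1, n2, n3, hMCE, hC₁, hC₂, hc₁]
  have q2 : c₁ / 32 + N * CS ^ 2 * (3 + 27 * Cm ^ 2) + 4 * C₁ * Cm ^ 2 ≤ K := by
    have : c₁ / 32 + N * CS ^ 2 * (3 + 27 * Cm ^ 2) + 4 * C₁ * Cm ^ 2 =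
      c₁ / 32 + 3 * (N * CS ^ 2) + 27 * (N * CS ^ 2 * Cm ^ 2) + 4 * (C₁ * Cm ^ 2) := by ring
    linarith only [this, hK', n1, n2, n3, hMCE, hC₁, hC₂, hc₁]
  have q3 : N * CS ^ 2 + 18 * N * CS ^ 2 * Cm ^ 2 ≤ K := by
    have : N * CS ^ 2 + 18 * N * CS ^ 2 * Cm ^ 2 =
      N * CS ^ 2 + 18 * (N * CS ^ 2 * Cm ^ 2) := by ring
    linarith only [this, hK', n1, n2, n3, hMCE, hC₁, hC₂, hc₁]
  have q4 : C₁ + 18 * N * CS ^ 2 * Cm ^ 2 ≤ K := by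
    have : C₁ + 18 * N * CS ^ 2 * Cm ^ 2 =
      C₁ + 18 * (N * CS ^ 2 * Cm ^ 2) := by ring
    linarith only [this, hK', n1, n2, n3, hMCE, hC₁, hC₂, hc₁]
  have q5 : C₁ ≤ K := by linarith only [hK', n1, n2, n3, hMCE, hC₁, hC₂, hc₁]
  have q6 : M * CE + C₂ + c₁ / 32 + 27 * N * CS ^ 2 * Cm ^ 2 + 4 * C₁ * Cm ^ 2 ≤ K := by
    have : M * CE + C₂ + c₁ / 32 + 27 * N * CS ^ 2 * Cm ^ 2 + 4 * C₁ * Cm ^ 2 =
      M * CE + C₂ + c₁ / 32 + 27 * (N * CS ^ 2 * Cm ^ 2) + 4 * (C₁ * Cm ^ 2) := by ring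
    linarith only [this, hK', n1, n2, n3, hMCE, hC₁, hC₂, hc₁]
  have w1 := mul_le_mul_of_nonneg_right q1 hBd
  have w2 := mul_le_mul_of_nonneg_right q2 hr16.le
  have w3 := mul_le_mul_of_nonneg_right q3 hAr0
  have w4 := mul_le_mul_of_nonneg_right q4 hq0
  have w5 := mul_le_mul_of_nonneg_right q5 hp0
  have w6 := mul_le_mul_of_nonneg_right q6 her0
  have e4 : K * (Bd + (r ^ 16 + A ^ 2 / r ^ 4 + q ^ 2 + p ^ 2) + e / r ^ 2) =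
    K * Bd + K * r ^ 16 + K * (A ^ 2 / r ^ 4) + K * q ^ 2 + K * p ^ 2 + K * (e / r ^ 2) := by ring
  rw [e4]
  linarith only [w1, w2, w3, w4, w5, w6]

/-- smallness of `σ` -/
theorem Gog_tau {N Cm CS K c r w m θ x y : ℝ} (hN : 0 < N) (hCm : 0 < Cm) (hCS : 0 < CS)
    (hr : 0 < r) (hr1 : r ≤ 1) (hw : w ≤ K * r ^ 4) (hK : 0 < K)
    (hm : |m| ≤ Cm * (x + r ^ 8 + y)) (hx : x ≤ √c) (hy : y ≤ √c)
    (h1 : N * (2 * Cm) * √c ≤ θ / 4) (h2 : N * c ≤ θ / 4)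
    (h3 : N * (Cm + 2 * K + 2 * CS) * r ≤ θ / 2) :
    N * (|m| + w / r ^ 2 + CS * r ^ 4 / r ^ 2 + c + w + CS * r ^ 4) ≤ θ := by
  have hr2 : 0 < r ^ 2 := by positivity
  have p8 : r ^ 8 ≤ r := pow_le_of_le_one hr.le hr1 (by norm_num)
  have p4 : r ^ 4 ≤ r := pow_le_of_le_one hr.le hr1 (by norm_num)
  have p2 : r ^ 2 ≤ r := pow_le_of_le_one hr.le hr1 (by norm_num)
  have e1 : CS * r ^ 4 / r ^ 2 = CS * r ^ 2 := by field_simp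
  have h4 : w / r ^ 2 ≤ K * r ^ 2 := by
    rw [div_le_iff₀ hr2]
    linarith
  have h5 : |m| ≤ 2 * Cm * √c + Cm * r := by
    have : Cm * (x + r ^ 8 + y) ≤ Cm * (√c + r + √c) :=
      mul_le_mul_of_nonneg_left (by linarith) hCm.le
    linarith
  have h6 : K * r ^ 2 ≤ K * r := mul_le_mul_of_nonneg_left p2 hK.le
  have h7 : K * r ^ 4 ≤ K * r := mul_le_mul_of_nonneg_left p4 hK.le
  have h8 : CS * r ^ 2 ≤ CS * r := mul_le_mul_of_nonneg_left p2 hCS.le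
  have h9 : CS * r ^ 4 ≤ CS * r := mul_le_mul_of_nonneg_left p4 hCS.le
  have h10 : |m| + w / r ^ 2 + CS * r ^ 4 / r ^ 2 + c + w + CS * r ^ 4 ≤
      2 * Cm * √c + (Cm + 2 * K + 2 * CS) * r + c := by
    rw [e1]
    linarith
  have h11 := mul_le_mul_of_nonneg_left h10 hN.le
  have e2 : N * (2 * Cm * √c + (Cm + 2 * K + 2 * CS) * r + c) =
    N * (2 * Cm) * √c + N * (Cm + 2 * K + 2 * CS) * r + N * c := by ring
  linarith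

theorem goodA (hp : Prof P E) : ∃ γ η δ M B c₁ : ℝ, 0 < γ ∧ γ ≤ 1 / 8 ∧ 0 < η ∧ η ≤ 1 ∧ 0 < δ ∧
    δ ≤ 1 / 16 ∧ 0 < M ∧ 16 ≤ B ∧ 0 < c₁ ∧ c₁ ≤ 1 / 10 ∧
    ∀ c, 0 < c → c ≤ c₁ → ∃ C₁ : ℝ, 1 ≤ C₁ ∧ ∀ C, C₁ ≤ C → GoodA P E γ η δ M B c C := by
  obtain ⟨γ, η, δ, c₁, C₁, B₀, hγ, hγ8, hη, hη1, hδ, hδ16, hc₁, hC₁, hB₀, hDV0⟩ := DV4_le
  obtain ⟨ν, CE, hν, hν1, hCE, hDE0⟩ := DE4_le
  obtain ⟨Cm, rm, cm, hCm, hrm, hrm1, hcm, hcm1, hMO⟩ := MOu hp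
  obtain ⟨ν', cL, CL, B₁, hν', hν'1, hcL, hCL, hB₁, hCO0⟩ := CO_E4
  obtain ⟨Cup, hCup, hUp0⟩ := CO_up4
  obtain ⟨CV', hCV, hCV0⟩ := CV4 γ η δ hη hη1 hδ hδ16
  obtain ⟨CS, hCS, hSf⟩ := Sf_le hp
  have hc0 : 1 ≤ c0 := by
    unfold c0 cnu
    have : 0 ≤ 16 * (∫ y, (deriv (Qf 4) y) ^ 2) / Iq ^ 2 :=
      div_nonneg (mul_nonneg (by norm_num) (integral_nonneg fun y => sq_nonneg _)) (sq_nonneg _)
    linarith
  obtain ⟨M, hM1, hMl⟩ := Gog_max [64 * C₁, 4 * CV' / cL]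
  have hM : 0 < M := by linarith
  have hM2 : 64 * C₁ ≤ M := hMl _ (by simp)
  have hM3 : 4 * CV' ≤ M * cL := by
    have := hMl (4 * CV' / cL) (by simp)
    rwa [div_le_iff₀ hcL] at this
  obtain ⟨B, -, hBl⟩ := Gog_max [16, B₀, B₁, M * CE * 16 / c₁, 4 * (M * CE * Cm) * 16 / c₁]
  have hB16 : 16 ≤ B := hBl _ (by simp)
  have hB : 0 < B := by linarith
  have hBB₀ : B₀ ≤ B := hBl _ (by simp)
  have hBB₁ : B₁ ≤ B := hBl _ (by simp)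
  have hB1 : M * CE / B ≤ c₁ / 16 := by
    have := hBl (M * CE * 16 / c₁) (by simp)
    rw [div_le_iff₀ hc₁] at this
    rw [div_le_div_iff₀ hB (by norm_num)]
    linarith
  have hB2 : 4 * (M * CE * Cm) * (1 / B) ≤ c₁ / 16 := by
    have := hBl (4 * (M * CE * Cm) * 16 / c₁) (by simp)
    rw [div_le_iff₀ hc₁] at this
    rw [mul_one_div, div_le_div_iff₀ hB (by norm_num)]
    linarith
  obtain ⟨C₂E, hC₂E, hDE⟩ := hDE0 γ hγ hγ8 B hB16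
  obtain ⟨C₂V, hC₂V, hDV⟩ := hDV0 B hBB₀
  obtain ⟨C₂, hC₂1, hC₂l⟩ := Gog_max [C₂E, C₂V]
  have hC₂ : 0 < C₂ := by linarith
  have hC₂a : C₂E ≤ C₂ := hC₂l _ (by simp)
  have hC₂b : C₂V ≤ C₂ := hC₂l _ (by simp)
  obtain ⟨N, hNd⟩ : ∃ N, N = (M + 1) * C₂ := ⟨_, rfl⟩
  have hN : 0 < N := by rw [hNd]; positivity
  obtain ⟨θ, hθ, hθl⟩ := Gog_min [M / 64, c₁ / 16] (by
    intro x hx
    simp only [List.mem_cons, List.not_mem_nil, or_false] at hx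
    rcases hx with rfl | rfl <;> positivity)
  have hθ1 : θ ≤ M / 64 := hθl _ (by simp)
  have hθ2 : θ ≤ c₁ / 16 := hθl _ (by simp)
  obtain ⟨d₁, hd₁, hd₁'⟩ := Gog_small (a := N * (2 * Cm)) (b := θ / 4)
    (by positivity) (by positivity)
  obtain ⟨cc, hcc, hccl⟩ := Gog_min [1 / 10, ν, ν', cm, M / 16, c₁ / 2, d₁,
    θ / 4 / N, c₁ / 16 / (4 * (M * CE * Cm)), c₁ / 32 / (N * (18 * CS ^ 2 * Cm ^ 2)),
    c₁ / 32 / (4 * C₁ * Cm ^ 2)] (by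
    intro x hx
    simp only [List.mem_cons, List.not_mem_nil, or_false] at hx
    rcases hx with rfl | rfl | rfl | rfl | rfl | rfl | rfl | rfl | rfl | rfl | rfl <;> positivity)
  refine ⟨γ, η, δ, M, B, cc, hγ, hγ8, hη, hη1, hδ, hδ16, hM, hB16, hcc, hccl _ (by simp), ?_⟩
  intro c hc hcl
  have hc10 : c ≤ 1 / 10 := hcl.trans (hccl _ (by simp))
  have hc1 : c ≤ 1 := by linarith
  have hcν : c ≤ ν := hcl.trans (hccl _ (by simp))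
  have hcν' : c ≤ ν' := hcl.trans (hccl _ (by simp))
  have hccm : c ≤ cm := hcl.trans (hccl _ (by simp))
  have hcM : c ≤ M / 16 := hcl.trans (hccl _ (by simp))
  have hcc₁ : c ≤ c₁ / 2 := hcl.trans (hccl _ (by simp))
  have hcd₁ := hd₁' c (hcl.trans (hccl _ (by simp)))
  have hcN : N * c ≤ θ / 4 := by
    have := hcl.trans (hccl (θ / 4 / N) (by simp))
    rw [le_div_iff₀ hN] at this
    linarith
  have hcB : 4 * (M * CE * Cm) * c ≤ c₁ / 16 := by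
    have := hcl.trans (hccl (c₁ / 16 / (4 * (M * CE * Cm))) (by simp))
    rw [le_div_iff₀ (by positivity)] at this
    linarith
  have hcf : N * (18 * CS ^ 2 * Cm ^ 2) * c ≤ c₁ / 32 := by
    have := hcl.trans (hccl (c₁ / 32 / (N * (18 * CS ^ 2 * Cm ^ 2))) (by simp))
    rw [le_div_iff₀ (by positivity)] at this
    linarith
  have hcg : 4 * C₁ * Cm ^ 2 * c ≤ c₁ / 32 := by
    have := hcl.trans (hccl (c₁ / 32 / (4 * C₁ * Cm ^ 2)) (by simp))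
    rw [le_div_iff₀ (by positivity)] at this
    linarith
  obtain ⟨K, hKd⟩ : ∃ K, K = 3 * M * CE + c₁ + C₁ + C₂ + 4 * C₁ * Cm ^ 2
    + (M + 1) * C₂ * CS ^ 2 * (4 + 72 * Cm ^ 2) := ⟨_, rfl⟩
  obtain ⟨C₃, hC₃, hC₃l⟩ := Gog_max [K, 2 / (M * cL), M * CL, M * Cup + CV', 120]
  refine ⟨C₃, hC₃, fun C hC => ?_⟩
  have hCK : K ≤ C := (hC₃l _ (by simp)).trans hC
  have hCf : 2 / (M * cL) ≤ C := (hC₃l _ (by simp)).trans hC
  have hCg : M * CL ≤ C := (hC₃l _ (by simp)).trans hC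
  have hCh : M * Cup + CV' ≤ C := (hC₃l _ (by simp)).trans hC
  have hCi : 120 ≤ C := (hC₃l _ (by simp)).trans hC
  have hC1 : 1 ≤ C := hC₃.trans hC
  have hC0 : 0 ≤ C := by linarith
  refine ⟨hγ, by linarith, hη, hδ, hM, hB16, hc, hc10, hC1, ?_, ?_⟩
  · -- ML
    intro Ca
    obtain ⟨r₁, hr₁, hr₁l⟩ := Gog_min [1, rm, 1 / (16 * B), 1 / (5 * c0),
      θ / 2 / (N * (Cm + 2 * (5 * c0) + 2 * CS)), c₁ / 32 / (N * (27 * CS ^ 2 * Cm ^ 2)),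
      c₁ / 32 / (4 * C₁ * Cm ^ 2)] (by
      intro x hx
      have : 0 < c0 := by linarith
      simp only [List.mem_cons, List.not_mem_nil, or_false] at hx
      rcases hx with rfl | rfl | rfl | rfl | rfl | rfl | rfl <;> positivity)
    refine ⟨r₁, hr₁, ?_⟩
    intro r w m W et hrr hS
    have hr := hS.r0
    have hr1 : r ≤ 1 := hrr.trans (hr₁l _ (by simp))
    have hrrm : r ≤ rm := hrr.trans (hr₁l _ (by simp))
    have p8 : r ^ 8 ≤ r := pow_le_of_le_one hr.le hr1 (by norm_num)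
    have p2 : r ^ 2 ≤ r := pow_le_of_le_one hr.le hr1 (by norm_num)
    have hr2 : 0 < r ^ 2 := by positivity
    have hSl : Slow4 B (r ^ 2) := by
      refine ⟨hB16, hr2, ?_⟩
      have h1 := hrr.trans (hr₁l (1 / (16 * B)) (by simp))
      rw [le_div_iff₀ (by positivity)] at h1
      have h2 : r ^ 2 * (16 * B) ≤ r * (16 * B) := mul_le_mul_of_nonneg_right p2 (by positivity)
      linarith
    have hc05 : 0 < 5 * c0 := by linarith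
    have hw2 : w / r ^ 2 ≤ 1 := by
      have h1 := hrr.trans (hr₁l (1 / (5 * c0)) (by simp))
      rw [le_div_iff₀ hc05] at h1
      rw [div_le_one hr2]
      have h2 : 5 * c0 * r ^ 4 = 5 * c0 * r ^ 2 * r ^ 2 := by ring
      have h3 : 5 * c0 * r ^ 2 ≤ 1 := by
        have := mul_le_mul_of_nonneg_left p2 hc05.le
        linarith
      calc w ≤ 5 * c0 * r ^ 4 := hS.w1
        _ = 5 * c0 * r ^ 2 * r ^ 2 := h2
        _ ≤ 1 * r ^ 2 := mul_le_mul_of_nonneg_right h3 hr2.le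
        _ = r ^ 2 := one_mul _
    have hr3 : N * (Cm + 2 * (5 * c0) + 2 * CS) * r ≤ θ / 2 := by
      have h1 := hrr.trans (hr₁l (θ / 2 / (N * (Cm + 2 * (5 * c0) + 2 * CS))) (by simp))
      rw [le_div_iff₀ (by positivity)] at h1
      linarith
    have hrf : N * (27 * CS ^ 2 * Cm ^ 2) * r ^ 8 ≤ c₁ / 32 := by
      have h1 := hrr.trans (hr₁l (c₁ / 32 / (N * (27 * CS ^ 2 * Cm ^ 2))) (by simp))
      rw [le_div_iff₀ (by positivity)] at h1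
      have h2 : N * (27 * CS ^ 2 * Cm ^ 2) * r ^ 8 ≤ N * (27 * CS ^ 2 * Cm ^ 2) * r :=
        mul_le_mul_of_nonneg_left p8 (by positivity)
      linarith
    have hrg : 4 * C₁ * Cm ^ 2 * r ^ 8 ≤ c₁ / 32 := by
      have h1 := hrr.trans (hr₁l (c₁ / 32 / (4 * C₁ * Cm ^ 2)) (by simp))
      rw [le_div_iff₀ (by positivity)] at h1
      have h2 : 4 * C₁ * Cm ^ 2 * r ^ 8 ≤ 4 * C₁ * Cm ^ 2 * r :=
        mul_le_mul_of_nonneg_left p8 (by positivity)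
      linarith
    obtain ⟨p, q, hp0, hp1, hq0, hq1, hW, het⟩ := hS.cl
    have hε0 : Cl 0 0 (ep P E (r ^ 2) W) := ep_cl hp hp0.le hq0.le hW
    have hS0 : Cl 0 0 (Sf P E (r ^ 2) w m (r ^ 8) W et) := Sf_cl hp hp0 hq0 hW
    have hSB := hSf r w m p q W et hr hr1 hp0 hq0 hW hS.w0 hS.w1 hS.b1 hS.a1
      (fun y => (hS.supe y).trans hc1)
    obtain ⟨hMm, hMβ, hMX, hMD⟩ := hMO γ B c Ca r w m W et hγ hγ8 hB16 hccm hrrm hS
    rw [epD_eq hp hp0 hq0 hW het]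
    have hQ0 := ep_Q (s := r ^ 2) hp hp0 hq0 hW
    have hρ0 := ep_rho (s := r ^ 2) hp hp0 hq0 hW
    have hQd0 := (ep_Qd (s := r ^ 2) hp hp0 hq0 hW).1
    have hr4 : 0 < r ^ 4 := by positivity
    have hr8 : 0 < r ^ 8 := by positivity
    have DE := hDE (r ^ 2) hSl c _ _ _ hε0 hS0 ⟨p, q, hp0, hq0, het⟩ hcν hS.supe
      (bq (r ^ 2) W - w) w m _ _ _ hS.w0 (by positivity) (by positivity) (by positivity) hSB
    have DV' := hDV (r ^ 2) hSl c _ _ _ hε0 hS0 ⟨p, q, hp0, hq0, het⟩ hc1 hS.supe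
      (bq (r ^ 2) W - w) w m _ _ _ hS.w0 (by positivity) (by positivity) (by positivity) hSB
    rw [hQ0, abs_zero] at DE
    rw [hρ0, hQd0] at DV'
    have nT := T4_nonneg hSl (ep P E (r ^ 2) W)
    have nL := ln_nonneg γ B (ep P E (r ^ 2) W)
    have nB := Bad_nonneg hr2 (ep P E (r ^ 2) W)
    have ne := ne2_nonneg et
    have hw20 : 0 ≤ w / r ^ 2 := div_nonneg hS.w0 hr2.le
    have am := abs_nonneg m
    generalize hTd : T4 B (r ^ 2) (ep P E (r ^ 2) W) = T at DE DV' nT ⊢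
    generalize hLd : ln γ B (ep P E (r ^ 2) W) = L at DE DV' nL hMm hMβ hMX hMD ⊢
    generalize hBd : Bad (r ^ 2) (ep P E (r ^ 2) W) = Bd at DE nB ⊢
    have hLc : L ≤ c := hLd ▸ hS.lnc
    have hec : ne2 et ≤ c := hS.e1
    generalize hAd : alm (r ^ 2) w W (ze w m (r ^ 8) W et) = A at DE DV' hMD ⊢
    generalize hDd : bqD (r ^ 2) w W (ze w m (r ^ 8) W et) = D at DE DV' hMD
    generalize hed : ne2 et = e at DE DV' ne hMm hMβ hMX hMD hec ⊢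
    generalize hXd : (bq (r ^ 2) W - w) * ip (Lam 4 (Qf 4)) rho
      - ip (Lop 4 (ep P E (r ^ 2) W)) (deriv rho) = X at DV' hMX
    generalize hqd : ip W (deriv (Qf 4)) = q' at DV' hMD ⊢
    generalize hpd : ip (fun y => W y - Qf 4 y) rho = p' at DV' ⊢
    have hxc : √L ≤ √c := Real.sqrt_le_sqrt hLc
    have hyc : √e ≤ √c := Real.sqrt_le_sqrt hec
    have hσ := Gog_tau hN hCm hCS hr hr1 hS.w1 hc05 hMm hxc hyc hcd₁ hcN hr3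
    -- enlarge `C₂`
    have nt1 : 0 ≤ CS * r ^ 4 := by positivity
    have nt2 : 0 ≤ CS * r ^ 4 / r ^ 2 := by positivity
    have DE2 := DE.trans (c := -(1 / 8) * T + CE / B * L + CE * (1 + w / r ^ 2) * Bd
      + CE * |bq (r ^ 2) W - w| * (0 + (1 / B + c) * √L) + CE * |m| * ((1 / B + c) * √L)
      + C₂ * (|m| + w / r ^ 2 + CS * r ^ 4 / r ^ 2) * (T + L)
      + CE / r ^ 2 * e + C₂ * ((CS * (r ^ 8 + r ^ 4 * |m| + |D|)) ^ 2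
        + (CS * |A|) ^ 2 / (r ^ 2) ^ 2)) (by
      have k1 : C₂E * (|m| + w / r ^ 2 + CS * r ^ 4 / r ^ 2) * (T + L) ≤
          C₂ * (|m| + w / r ^ 2 + CS * r ^ 4 / r ^ 2) * (T + L) :=
        mul_le_mul_of_nonneg_right (mul_le_mul_of_nonneg_right hC₂a (by linarith)) (by linarith)
      have k2 : C₂E * ((CS * (r ^ 8 + r ^ 4 * |m| + |D|)) ^ 2
          + (CS * |A|) ^ 2 / (r ^ 2) ^ 2) ≤ C₂ * ((CS * (r ^ 8 + r ^ 4 * |m| + |D|)) ^ 2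
          + (CS * |A|) ^ 2 / (r ^ 2) ^ 2) := mul_le_mul_of_nonneg_right hC₂a (by positivity)
      linarith only [k1, k2])
    have DV2 := DV'.trans (c := -c₁ * L + C₁ * T + C₁ * (p' ^ 2 + q' ^ 2) + C₁ * X ^ 2
      + C₂ * (c + w + |m| + CS * r ^ 4) * T + C₂ * (e + (CS * (r ^ 8 + r ^ 4 * |m| + |D|)) ^ 2
        + (CS * |A|) ^ 2)) (by
      have k1 : C₂V * (c + w + |m| + CS * r ^ 4) * T ≤ C₂ * (c + w + |m| + CS * r ^ 4) * T :=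
        mul_le_mul_of_nonneg_right (mul_le_mul_of_nonneg_right hC₂b
          (by linarith [hS.w0])) nT
      have k2 : C₂V * (e + (CS * (r ^ 8 + r ^ 4 * |m| + |D|)) ^ 2 + (CS * |A|) ^ 2) ≤
          C₂ * (e + (CS * (r ^ 8 + r ^ 4 * |m| + |D|)) ^ 2 + (CS * |A|) ^ 2) :=
        mul_le_mul_of_nonneg_right hC₂b (by positivity)
      linarith only [k1, k2])
    have key := Gog_num (σ := |m| + w / r ^ 2 + CS * r ^ 4 / r ^ 2 + c + w + CS * r ^ 4)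
      hM hCE hC₁ hC₂ hCm hCS hc₁ hB hr hr1 hc hw2 nT nL hLc nB ne DE2 DV2 hMm hMβ hMX hMD
      (by linarith [hS.w0]) (by linarith [hS.w0]) (by linarith) (by rw [← hNd]; exact hσ.trans hθ1)
      (by rw [← hNd]; exact hσ.trans hθ2) hM2 hB1
      (by rw [mul_add]; linarith)
      (by
        rw [← hNd]
        have : N * (3 * CS ^ 2 * (9 * Cm ^ 2 * r ^ 8 + 6 * Cm ^ 2 * c)) =
          N * (27 * CS ^ 2 * Cm ^ 2) * r ^ 8 + N * (18 * CS ^ 2 * Cm ^ 2) * c := by ring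
        rw [this]
        linarith)
      (by
        have : C₁ * (4 * Cm ^ 2 * (r ^ 8 + c)) =
          4 * C₁ * Cm ^ 2 * r ^ 8 + 4 * C₁ * Cm ^ 2 * c := by ring
        rw [this]
        linarith)
    rw [← hKd] at key
    refine key.trans ?_
    have nZ : 0 ≤ Bd + (r ^ 16 + A ^ 2 / r ^ 4 + q' ^ 2 + p' ^ 2) + e / r ^ 2 := by positivity
    have k1 := mul_le_mul_of_nonneg_right hCK nZ
    have k2 := mul_le_mul_of_nonneg_right hcM nT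
    have k3 := mul_le_mul_of_nonneg_right hcc₁ nL
    have e1 : C * (Bd + (r ^ 16 + A ^ 2 / r ^ 4 + q' ^ 2 + p' ^ 2) + e / r ^ 2) =
      C * Bd + C * (r ^ 16 + A ^ 2 / r ^ 4 + q' ^ 2 + p' ^ 2) + C / r ^ 2 * e := by ring
    have e2 : -c * (T + L) = -(c * T) - c * L := by ring
    rw [e2]
    linarith only [k1, k2, k3, e1]
  · -- CO
    refine ⟨min 1 (1 / (16 * B)), lt_min one_pos (by positivity), ?_⟩
    intro r W hr hrr hcl' hε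
    obtain ⟨p, q, hp0, hp1, hq0, hq1, hW⟩ := hcl'
    have hr1 : r ≤ 1 := hrr.trans (min_le_left _ _)
    have p2 : r ^ 2 ≤ r := pow_le_of_le_one hr.le hr1 (by norm_num)
    have hr2 : 0 < r ^ 2 := by positivity
    have hSl : Slow4 B (r ^ 2) := by
      refine ⟨hB16, hr2, ?_⟩
      have h1 := hrr.trans (min_le_right _ _)
      rw [le_div_iff₀ (by positivity)] at h1
      have h2 : r ^ 2 * (16 * B) ≤ r * (16 * B) := mul_le_mul_of_nonneg_right p2 (by positivity)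
      linarith
    have hε0 : Cl 0 0 (ep P E (r ^ 2) W) := ep_cl hp hp0.le hq0.le hW
    have hG := G4_nonneg B (r ^ 2) (ep P E (r ^ 2) W)
    have h1 := hCO0 B (r ^ 2) hSl hBB₁ _ hε0 (fun y => (hε y).trans hcν')
    rw [ep_Q (s := r ^ 2) hp hp0 hq0 hW, (ep_Qd (s := r ^ 2) hp hp0 hq0 hW).1,
      ep_rho (s := r ^ 2) hp hp0 hq0 hW] at h1
    have h2 : cL * G4 B (r ^ 2) (ep P E (r ^ 2) W) ≤ E4 B (r ^ 2) (ep P E (r ^ 2) W)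
        + CL * ((ip W (deriv (Qf 4))) ^ 2 + (ip (fun y => W y - Qf 4 y) rho) ^ 2) := by
      refine h1.trans (le_of_eq ?_)
      ring
    have h3 := Gog_CO (C := C) hM hcL hG (by positivity) hC0 h2 (hCV0 B (r ^ 2) hSl _ hε0)
      (hUp0 B (r ^ 2) hSl _ hε0 fun y => (hε y).trans hc1) hM3 hCf hCg hCh
    refine ⟨h3.1, h3.2, (LN4 hγ hSl hε0).trans (mul_le_mul_of_nonneg_right hCi hG)⟩

end H98KC

end

end S_H98_KC_Gog
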