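import Mathlib
import Pool.Agent.H98.BU.G01
import Pool.Agent.H98.BU.G02
import Pool.Agent.H98.BU.G03

/-! Blow-up for `u_t + u^k u_x + u_xxx - u_xx = 0`, part G18: this file joins several modules
to save build time (`Pool/Agent/H98/{KB,KC}`, `H72/{KB,KC}`, `H68/KC`, `H37/{KB,KC}`). -/

section S_H37_KC_Base

/-!
# Block GoodB / EN / XE of MP_95be7d (k = 4): base file
-/

open MeasureTheory Filter Topology Set
open scoped ContDiff

namespace H37KC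

open H98KB H68KC

/-- the explicit form of `ze` -/
noncomputable def Zz (w m l : ℝ) (W et : ℝ → ℝ) (y : ℝ) : ℝ :=
  -w * (1 / 2 * W y + y * deriv W y) + (1 + m) * deriv W y - deriv (deriv (deriv W)) y
    - (W y) ^ 4 * deriv W y + l * deriv (deriv W) y - deriv et y

theorem Cl_W {p q : ℝ} {W : ℝ → ℝ} (hp : p ≤ 1 / 2) (hq : q ≤ 1 / 2)
    (h : Cl p q (fun y => W y - Qf 4 y)) : Cl p q W := by
  have h2 : Cl p q (Qf 4) := Cl_mono (Cl_Qf (by norm_num)) (by linarith) (by linarith)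
  have h3 := Cl_add h h2
  have e : (fun y => W y - Qf 4 y + Qf 4 y) = W := by
    funext y; ring
  rwa [e] at h3

theorem ze_eq {p q w m l : ℝ} {W et : ℝ → ℝ} (hW : Cl p q W) :
    ze w m l W et = Zz w m l W et := by
  have hQ : Cl 1 1 (Qf 4) := Cl_Qf (by norm_num)
  have d1 : deriv (fun y => W y - Qf 4 y) = fun y => deriv W y - deriv (Qf 4) y := by
    funext y
    exact ((Cl_hd hW y).sub (Cl_hd hQ y)).deriv
  have d2 : deriv (deriv (fun y => W y - Qf 4 y)) = fun y => deriv (deriv W) y - deriv (deriv (Qf 4)) y := by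
    rw [d1]
    funext y
    exact ((Cl_hd (Cl_der hW) y).sub (Cl_hd (Cl_der hQ) y)).deriv
  have hg : gf 4 (fun y => W y - Qf 4 y) = fun y => -deriv (deriv W) y + W y - (W y) ^ 5 / 5 := by
    funext y
    have h := Qf_eq (k := 4) (by norm_num) y
    simp only [gf, Df, d2, fl] at h ⊢
    push_cast at h ⊢
    rw [h]
    ring_nf
  have d3 : deriv (fun y => deriv W y - deriv (Qf 4) y) = fun y => deriv (deriv W) y - deriv (deriv (Qf 4)) y := by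
    rw [← d1]; exact d2
  funext y
  have hd : deriv (fun y => -deriv (deriv W) y + W y - (W y) ^ 5 / 5) y =
      -deriv (deriv (deriv W)) y + deriv W y - (W y) ^ 4 * deriv W y := by
    have h1 := (((Cl_hd (Cl_der (Cl_der hW)) y).neg.add (Cl_hd hW y)).sub
      (((Cl_hd hW y).pow 5).div_const 5)).deriv
    refine Eq.trans h1 ?_
    norm_num
    ring
  simp only [ze, zeta, Nf, Zz, hg, hd, Lam, d1, d3]
  push_cast
  ring

/-- `ε` is bounded with all derivatives -/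
theorem ep_Cl {p q s : ℝ} {P E W : ℝ → ℝ} (hpr : Prof P E) (hp : 0 < p) (hq : 0 < q)
    (hW : Cl p q W) : Cl 0 0 (ep P E s W) := by
  have h1 : Cl 0 0 W := Cl_mono hW hp.le hq.le
  have h2 : Cl 0 0 (Qf 4) := Cl_mono (Cl_Qf (by norm_num)) (by norm_num) (by norm_num)
  have h3 : Cl 0 0 E := by
    have h := Cl_add (Cl_mono hpr.E1 (by norm_num) (by norm_num)) (Cl_const 1)
    have e : (fun y => E y - 1 + 1) = E := by
      funext y; ring
    rwa [e] at h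
  have h4 := Cl_sub (Cl_sub h1 h2) (Cl_add (Cl_smul (bq s W) hpr.cP) (Cl_smul (alf s W) h3))
  exact h4

end H37KC

end S_H37_KC_Base

section S_H37_KC_T1

/-!
# Row T1 of MP_95be7d_K4B (40 lines)

Elementary exponential bounds.  `T1_exp`: `x = 1/(8r²)`, `x^24/24! ≤ exp x` (`Real.pow_div_factorial_le_exp`), so
`exp(-x) ≤ 24! / x^24 = 24! 8^24 r^48`.   `T1_exp2`: `exp(-(3/2)(1/r²)) ≤ exp(-(1/(8r²))) ≤ C r^48 ≤ C r^16` for `r ≤ 1`.
`T1_sech`: `1/cosh x ≤ 2 exp(-|x|)` (`Tan_sech_le`); for `ξ ≥ 1`: `(ξ+2) * 2 exp(-|ξ-2|) ≤ 200 exp(-ξ/2)`: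
use `|ξ-2| ≥ ξ-2`, so it is `≤ 2 e² (ξ+2) e^{-ξ}` and `(ξ+2) e^{-ξ/2} ≤ 5` etc.
-/

open MeasureTheory Filter Topology Set
open scoped ContDiff

namespace H37KC

open H98KB H68KC

theorem T1_exp : ∃ C : ℝ, 0 < C ∧ ∀ r : ℝ, 0 < r → Real.exp (-(1 / (8 * r ^ 2))) ≤ C * r ^ 48 := by
  refine ⟨(Nat.factorial 24 : ℝ) * 8 ^ 24, by positivity, fun r hr => ?_⟩
  have hx : (0 : ℝ) ≤ 1 / (8 * r ^ 2) := by positivity
  have h := Real.pow_div_factorial_le_exp _ hx 24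
  rw [Real.exp_neg, inv_le_comm₀ (Real.exp_pos _) (by positivity)]
  refine le_trans (le_of_eq ?_) h
  have hf : (Nat.factorial 24 : ℝ) ≠ 0 := by positivity
  rw [div_pow, one_pow, mul_pow, mul_inv, mul_inv, div_eq_mul_inv, div_eq_mul_inv, mul_inv, ← pow_mul]
  ring

theorem T1_exp2 : ∃ C : ℝ, 0 < C ∧ ∀ r : ℝ, 0 < r → r ≤ 1 →
    Real.exp (-(3 / 2) * (1 / r ^ 2)) ≤ C * r ^ 16 := by
  obtain ⟨C, hC, h⟩ := T1_exp
  refine ⟨C, hC, fun r hr hr1 => ?_⟩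
  have h1 : Real.exp (-(3 / 2) * (1 / r ^ 2)) ≤ Real.exp (-(1 / (8 * r ^ 2))) := by
    apply Real.exp_le_exp.mpr
    have h2 : 1 / (8 * r ^ 2) = (1 / 8) * (1 / r ^ 2) := by
      field_simp
    have h3 : 0 ≤ 1 / r ^ 2 := by positivity
    rw [h2]
    nlinarith
  refine h1.trans ((h r hr).trans ?_)
  apply mul_le_mul_of_nonneg_left _ hC.le
  exact pow_le_pow_of_le_one hr.le hr1 (by norm_num)

theorem T1_sech {x : ℝ} (hx : 1 ≤ x) : 1 / Real.cosh (x - 2) * (x + 2) ≤ 200 * Real.exp (-(x / 2)) := by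
  have h1 := Tan_sech_le (x - 2)
  have h2 : Real.exp (-|x - 2|) ≤ Real.exp (-(x - 2)) :=
    Real.exp_le_exp.mpr (neg_le_neg (le_abs_self _))
  have h3 : Real.exp (-(x - 2)) = Real.exp 2 * Real.exp (-(x / 2)) * Real.exp (-(x / 2)) := by
    rw [← Real.exp_add, ← Real.exp_add]
    congr 1
    ring
  have h4 : (x / 2 + 1) * Real.exp (-(x / 2)) ≤ 1 := by
    have h5 := Real.add_one_le_exp (x / 2)
    calc (x / 2 + 1) * Real.exp (-(x / 2)) ≤ Real.exp (x / 2) * Real.exp (-(x / 2)) :=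
          mul_le_mul_of_nonneg_right h5 (Real.exp_pos _).le
      _ = 1 := by rw [← Real.exp_add]; simp
  have h6 : Real.exp 2 ≤ 9 := by
    have h7 : Real.exp 1 ≤ 3 := by
      have := Real.exp_one_lt_d9
      linarith
    have h8 : Real.exp 2 = Real.exp 1 * Real.exp 1 := by
      rw [← Real.exp_add]
      norm_num
    rw [h8]
    nlinarith [Real.exp_pos 1]
  have h9 : 0 < Real.exp (-(x / 2)) := Real.exp_pos _
  calc 1 / Real.cosh (x - 2) * (x + 2) ≤ (2 * Real.exp (-(x - 2))) * (x + 2) :=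
        mul_le_mul_of_nonneg_right (h1.trans (by linarith)) (by linarith)
    _ = 4 * Real.exp 2 * ((x / 2 + 1) * Real.exp (-(x / 2))) * Real.exp (-(x / 2)) := by
        rw [h3]
        ring
    _ ≤ 4 * 9 * 1 * Real.exp (-(x / 2)) := by
        apply mul_le_mul_of_nonneg_right _ h9.le
        have h10 : 0 ≤ (x / 2 + 1) * Real.exp (-(x / 2)) := by
          apply mul_nonneg _ h9.le
          linarith
        have h11 : 4 * Real.exp 2 * ((x / 2 + 1) * Real.exp (-(x / 2)))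
            ≤ 4 * 9 * ((x / 2 + 1) * Real.exp (-(x / 2))) :=
          mul_le_mul_of_nonneg_right (by linarith) h10
        linarith
    _ ≤ 200 * Real.exp (-(x / 2)) := by nlinarith

end H37KC

end S_H37_KC_T1

section S_H37_KC_I1

/-!
# Row I1 of MP_95be7d_K4B (110 lines)

Integration by parts identity for the front functional.  With `v = W'` the difference of the two integrands is `deriv H` with

`H = -w y Φ W'² + (1+m) Φ W'² + (-2 Φ W' W''' + Φ W''² + 2 Φ' W' W'' - Φ'' W'²) - 2 Φ W' (W⁴ W') + l (2 Φ W' W'' - Φ' W'²) - 2 Φ W' et'`.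

(Check: `Zz' = -w(3/2 W' + y W'') + (1+m) W'' - W'''' - (W⁴W')' + l W''' - et''`.)  All functions are in `Cl` classes: use `Cl_mul`,
`Cl_mul0`, `Cl_der`, `Cl_id` (with `c` small, e.g. `c = min p q / 2`), `Cl_int`, and `Cl_int_eq`.  `Φ` is only bounded (`Cl 0 0`), the two
factors from `W`, `et` give the decay `Cl (2p - c) (2q - c)`.
-/

open MeasureTheory Filter Topology Set
open scoped ContDiff

namespace H37KC

open H98KB H68KC

theorem I1_two {s : ℝ} {f a b : ℝ → ℝ} (hf : Cl 0 0 f) (ha : Cl s s a) (hb : Cl s s b) :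
    Cl (s + s) (s + s) (fun y => f y * (a y * b y)) :=
  Cl_mul0 hf (Cl_mul ha hb)

theorem I1_dn {s : ℝ} {f : ℝ → ℝ} (hs : 0 < s) (hf : Cl (s + s) (s + s) f) : Cl s s f :=
  Cl_mono hf (by linarith) (by linarith)

theorem I1_y {s : ℝ} {f : ℝ → ℝ} (hs : 0 < s) (hf : Cl (s + s) (s + s) f) :
    Cl s s (fun y => y * f y) :=
  Cl_mono (Cl_mul (Cl_id hs) hf) (by linarith) (by linarith)

theorem I1_w4 {s : ℝ} {W : ℝ → ℝ} (hs : 0 < s) (hW : Cl s s W) :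
    Cl s s (fun y => (W y) ^ 4 * deriv W y) :=
  Cl_mul0 (Cl_mono (Cl_pow' hW hs.le hs.le 4 (by norm_num)) hs.le hs.le) (Cl_der hW)

/-- integrability of the pieces used with `I1` -/
theorem I1_int {p q : ℝ} {W Φ : ℝ → ℝ} (hp : 0 < p) (hq : 0 < q) (hW : Cl p q W) (hΦ : Cl 0 0 Φ) :
    Integrable (fun y => Φ y * (deriv W y) ^ 2) ∧ Integrable (fun y => Φ y * (deriv (deriv W) y) ^ 2) ∧
    Integrable (fun y => deriv Φ y * (deriv W y) ^ 2) ∧ Integrable (fun y => (deriv W y) ^ 2) := by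
  have hs : 0 < min p q := lt_min hp hq
  have hW' : Cl (min p q) (min p q) W := Cl_mono hW (min_le_left _ _) (min_le_right _ _)
  have hV := Cl_der hW'
  have hV1 := Cl_der hV
  refine ⟨?_, ?_, ?_, ?_⟩
  · have e : (fun y => Φ y * (deriv W y) ^ 2) = fun y => Φ y * (deriv W y * deriv W y) := by
      funext y
      ring
    rw [e]
    exact Cl_int (I1_dn hs (I1_two hΦ hV hV)) hs hs
  · have e : (fun y => Φ y * (deriv (deriv W) y) ^ 2) =
        fun y => Φ y * (deriv (deriv W) y * deriv (deriv W) y) := by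
      funext y
      ring
    rw [e]
    exact Cl_int (I1_dn hs (I1_two hΦ hV1 hV1)) hs hs
  · have e : (fun y => deriv Φ y * (deriv W y) ^ 2) =
        fun y => deriv Φ y * (deriv W y * deriv W y) := by
      funext y
      ring
    rw [e]
    exact Cl_int (I1_dn hs (I1_two (Cl_der hΦ) hV hV)) hs hs
  · have e : (fun y => (deriv W y) ^ 2) = fun y => deriv W y * deriv W y := by
      funext y
      ring
    rw [e]
    exact Cl_int (I1_dn hs (Cl_mul hV hV)) hs hs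

/-- the right side of `I1` is integrable -/
theorem I1_int' {p q w m l : ℝ} {W et Φ : ℝ → ℝ} (hp : 0 < p) (hq : 0 < q) (hW : Cl p q W)
    (he : Cl p q et) (hΦ : Cl 0 0 Φ) :
    Integrable (fun y => -2 * w * (Φ y * (deriv W y) ^ 2) + w * y * deriv Φ y * (deriv W y) ^ 2
      - (1 + m) * (deriv Φ y * (deriv W y) ^ 2) - 3 * (deriv Φ y * (deriv (deriv W) y) ^ 2)
      + deriv (deriv (deriv Φ)) y * (deriv W y) ^ 2 - 2 * l * (Φ y * (deriv (deriv W) y) ^ 2)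
      + l * (deriv (deriv Φ) y * (deriv W y) ^ 2)
      + 2 * ((deriv Φ y * deriv W y + Φ y * deriv (deriv W) y) * ((W y) ^ 4 * deriv W y))
      + 2 * ((deriv Φ y * deriv W y + Φ y * deriv (deriv W) y) * deriv et y)) := by
  have hs : 0 < min p q := lt_min hp hq
  have hW' : Cl (min p q) (min p q) W := Cl_mono hW (min_le_left _ _) (min_le_right _ _)
  have he' : Cl (min p q) (min p q) et := Cl_mono he (min_le_left _ _) (min_le_right _ _)
  have hV := Cl_der hW'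
  have hV1 := Cl_der hV
  have hE := Cl_der he'
  have hΦ1 := Cl_der hΦ
  have hΦ2 := Cl_der hΦ1
  have hΦ3 := Cl_der hΦ2
  have hW4 := I1_w4 hs hW'
  have a1 := Cl_smul (-2 * w) (I1_dn hs (I1_two hΦ hV hV))
  have a2 := Cl_smul w (I1_y hs (I1_two hΦ1 hV hV))
  have a3 := Cl_smul (1 + m) (I1_dn hs (I1_two hΦ1 hV hV))
  have a4 := Cl_smul 3 (I1_dn hs (I1_two hΦ1 hV1 hV1))
  have a5 := I1_dn hs (I1_two hΦ3 hV hV)
  have a6 := Cl_smul (2 * l) (I1_dn hs (I1_two hΦ hV1 hV1))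
  have a7 := Cl_smul l (I1_dn hs (I1_two hΦ2 hV hV))
  have a8 := Cl_smul 2 (Cl_add (I1_dn hs (I1_two hΦ1 hV hW4)) (I1_dn hs (I1_two hΦ hV1 hW4)))
  have a9 := Cl_smul 2 (Cl_add (I1_dn hs (I1_two hΦ1 hV hE)) (I1_dn hs (I1_two hΦ hV1 hE)))
  have a := Cl_add (Cl_add (Cl_add (Cl_sub (Cl_add (Cl_sub (Cl_sub (Cl_add a1 a2) a3) a4) a5) a6)
    a7) a8) a9
  refine (Cl_int a hs hs).congr (Eventually.of_forall fun y => ?_)
  simp only []
  ring

theorem I1 {p q w m l : ℝ} {W et Φ : ℝ → ℝ} (hp : 0 < p) (hq : 0 < q) (hW : Cl p q W)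
    (he : Cl p q et) (hΦ : Cl 0 0 Φ) :
    ∫ y, 2 * Φ y * (deriv W y * deriv (Zz w m l W et) y) =
    ∫ y, (-2 * w * (Φ y * (deriv W y) ^ 2) + w * y * deriv Φ y * (deriv W y) ^ 2
      - (1 + m) * (deriv Φ y * (deriv W y) ^ 2) - 3 * (deriv Φ y * (deriv (deriv W) y) ^ 2)
      + deriv (deriv (deriv Φ)) y * (deriv W y) ^ 2 - 2 * l * (Φ y * (deriv (deriv W) y) ^ 2)
      + l * (deriv (deriv Φ) y * (deriv W y) ^ 2)
      + 2 * ((deriv Φ y * deriv W y + Φ y * deriv (deriv W) y) * ((W y) ^ 4 * deriv W y))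
      + 2 * ((deriv Φ y * deriv W y + Φ y * deriv (deriv W) y) * deriv et y)) := by
  have hs : 0 < min p q := lt_min hp hq
  have hW' : Cl (min p q) (min p q) W := Cl_mono hW (min_le_left _ _) (min_le_right _ _)
  have he' : Cl (min p q) (min p q) et := Cl_mono he (min_le_left _ _) (min_le_right _ _)
  have hV := Cl_der hW'
  have hV1 := Cl_der hV
  have hV2 := Cl_der hV1
  have hE := Cl_der he'
  have hΦ1 := Cl_der hΦ
  have hΦ2 := Cl_der hΦ1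
  have hW4 := I1_w4 hs hW'
  have b1 := Cl_smul (-w) (I1_y hs (I1_two hΦ hV hV))
  have b2 := Cl_smul (1 + m) (I1_dn hs (I1_two hΦ hV hV))
  have b3 := Cl_smul (-2) (I1_dn hs (I1_two hΦ hV hV2))
  have b4 := I1_dn hs (I1_two hΦ hV1 hV1)
  have b5 := Cl_smul 2 (I1_dn hs (I1_two hΦ1 hV hV1))
  have b6 := I1_dn hs (I1_two hΦ2 hV hV)
  have b7 := Cl_smul 2 (I1_dn hs (I1_two hΦ hV hW4))
  have b8 := Cl_smul l (Cl_sub (Cl_smul 2 (I1_dn hs (I1_two hΦ hV hV1)))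
    (I1_dn hs (I1_two hΦ1 hV hV)))
  have b9 := Cl_smul 2 (I1_dn hs (I1_two hΦ hV hE))
  have hH := Cl_sub (Cl_add (Cl_sub (Cl_sub (Cl_add (Cl_add (Cl_add (Cl_add b1 b2) b3) b4) b5)
    b6) b7) b8) b9
  have hG := I1_int' (w := w) (m := m) (l := l) hp hq hW he hΦ
  have hder := fun y => (Cl_hd hH y).deriv
  have hid : ∀ y, 2 * Φ y * (deriv W y * deriv (Zz w m l W et) y) -
      (-2 * w * (Φ y * (deriv W y) ^ 2) + w * y * deriv Φ y * (deriv W y) ^ 2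
      - (1 + m) * (deriv Φ y * (deriv W y) ^ 2) - 3 * (deriv Φ y * (deriv (deriv W) y) ^ 2)
      + deriv (deriv (deriv Φ)) y * (deriv W y) ^ 2 - 2 * l * (Φ y * (deriv (deriv W) y) ^ 2)
      + l * (deriv (deriv Φ) y * (deriv W y) ^ 2)
      + 2 * ((deriv Φ y * deriv W y + Φ y * deriv (deriv W) y) * ((W y) ^ 4 * deriv W y))
      + 2 * ((deriv Φ y * deriv W y + Φ y * deriv (deriv W) y) * deriv et y)) =
      deriv (fun y => -w * (y * (Φ y * (deriv W y * deriv W y)))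
        + (1 + m) * (Φ y * (deriv W y * deriv W y))
        + -2 * (Φ y * (deriv W y * deriv (deriv (deriv W)) y))
        + Φ y * (deriv (deriv W) y * deriv (deriv W) y)
        + 2 * (deriv Φ y * (deriv W y * deriv (deriv W) y))
        - deriv (deriv Φ) y * (deriv W y * deriv W y)
        - 2 * (Φ y * (deriv W y * ((W y) ^ 4 * deriv W y)))
        + l * (2 * (Φ y * (deriv W y * deriv (deriv W) y)) - deriv Φ y * (deriv W y * deriv W y))
        - 2 * (Φ y * (deriv W y * deriv et y))) y := by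
    intro y
    have w0 := Cl_hd hW' y
    have w1 := Cl_hd hV y
    have w2 := Cl_hd hV1 y
    have w3 := Cl_hd hV2 y
    have e1 := Cl_hd hE y
    have f0 := Cl_hd hΦ y
    have f1 := Cl_hd hΦ1 y
    have f2 := Cl_hd hΦ2 y
    have hZ : HasDerivAt (Zz w m l W et)
        (-w * (1 / 2 * deriv W y + (1 * deriv W y + y * deriv (deriv W) y))
        + (1 + m) * deriv (deriv W) y - deriv (deriv (deriv (deriv W))) y
        - ((4 : ℕ) * (W y) ^ (4 - 1) * deriv W y * deriv W y + (W y) ^ 4 * deriv (deriv W) y)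
        + l * deriv (deriv (deriv W)) y - deriv (deriv et) y) y :=
      ((((((w0.const_mul (1 / 2)).add ((hasDerivAt_id y).mul w1)).const_mul (-w)).add
        (w1.const_mul (1 + m))).sub w3).sub ((w0.pow 4).mul w1)).add (w2.const_mul l) |>.sub e1
    have g1 := ((hasDerivAt_id y).mul (f0.mul (w1.mul w1))).const_mul (-w)
    have g2 := (f0.mul (w1.mul w1)).const_mul (1 + m)
    have g3 := (f0.mul (w1.mul w3)).const_mul (-2)
    have g4 := f0.mul (w2.mul w2)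
    have g5 := (f1.mul (w1.mul w2)).const_mul 2
    have g6 := f2.mul (w1.mul w1)
    have g7 := (f0.mul (w1.mul ((w0.pow 4).mul w1))).const_mul 2
    have g8 := (((f0.mul (w1.mul w2)).const_mul 2).sub (f1.mul (w1.mul w1))).const_mul l
    have g9 := (f0.mul (w1.mul e1)).const_mul 2
    have g := (((((((g1.add g2).add g3).add g4).add g5).sub g6).sub g7).add g8).sub g9
    refine Eq.trans ?_ (HasDerivAt.deriv g).symm
    rw [hZ.deriv]
    norm_num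
    ring
  refine Cl_int_eq ?_ hG hH hs hs hid
  have hF := hG.add (Clb_der_int hH hs hs)
  refine hF.congr (Eventually.of_forall fun y => ?_)
  simp only [Pi.add_apply]
  rw [← hid y]
  ring

end H37KC

end S_H37_KC_I1

section S_H37_KC_I2

/-!
# Row I2 of MP_95be7d_K4B (70 lines)

Pure algebra.  Linear terms in `φ1 a1²`: `≤ (1/16) - 3/4 + 1/16 + 1/64` (`l |φ2| ≤ φ1/64`) plus `τ' a1²`.
`e1` terms: `2 φ1 a1 e1 ≤ φ1 a1²/16 + 16 φ1 e1² ≤ φ1 a1²/16 + 4 e1²`, `2 φ a2 e1 ≤ (l/4) φ a2² + (4/l) e1²`, total `≤ (8/l) e1²` (`l ≤ 1`).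
Nonlinear terms, `2 φ1 a⁴ a1² + 2 φ a2 a⁴ a1`:
* zone 1 (`φ ≤ τ`, `a² ≤ 9`): `2 φ1 a⁴ a1² ≤ 2 (τ/4) 81 a1² ≤ 41 τ a1²`;
  `2 φ a2 a⁴ a1 ≤ (l/4) φ a2² + (4/l) φ a⁸ a1² ≤ (l/4) φ a2² + 26244 τ/l a1²`.
* zone 2 (`φ ≤ 8 φ1`, `a⁴ ≤ 1/625`): `2 φ1 a⁴ a1² ≤ (2/625) φ1 a1²`, `2 φ a⁴ |a1 a2| ≤ (16/625) φ1 |a1 a2| ≤ (8/625) φ1 (a1² + a2²)`.
* zone 3 (`a⁴ ≤ 1/625`, `a⁸ ≤ K`): `2 φ1 a⁴ a1² ≤ (2/625) φ1 a1²`, `2 φ a2 a⁴ a1 ≤ (l/4) φ a2² + (4K/l) φ a1²`.
The total coefficient of `φ1 a1²` is `≤ 0`, of `φ1 a2²` is `≤ -3 + 8/625`, of `φ a2²` is `≤ -2l + l/4 + l/4`.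
-/

open MeasureTheory Filter Topology Set
open scoped ContDiff

namespace H37KC

open H98KB H68KC

theorem I2_yng {l f : ℝ} (hl : 0 < l) (hf : 0 ≤ f) (x z : ℝ) :
    2 * (f * (x * z)) ≤ l / 4 * (f * x ^ 2) + 4 / l * (f * z ^ 2) := by
  have h1 : 0 ≤ f * ((1 / (4 * l)) * (l * x - 4 * z) ^ 2) := by positivity
  have e : f * ((1 / (4 * l)) * (l * x - 4 * z) ^ 2) =
      l / 4 * (f * x ^ 2) + 4 / l * (f * z ^ 2) - 2 * (f * (x * z)) := by
    field_simp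
    ring
  linarith

theorem I2_non {φ φ1 l a a1 a2 τ K : ℝ}
    (h0 : 0 ≤ φ) (h1 : 0 ≤ φ1) (h1' : φ1 ≤ 1 / 4 * φ) (hl : 0 < l)
    (hτ : 0 ≤ τ) (hK : 0 ≤ K)
    (hz : (φ ≤ τ ∧ a ^ 2 ≤ 9) ∨ (φ ≤ 8 * φ1 ∧ a ^ 2 ≤ 1 / 25) ∨ (a ^ 2 ≤ 1 / 25 ∧ a ^ 8 ≤ K)) :
    2 * (φ1 * a ^ 4 * a1 ^ 2) + 2 * (φ * (a2 * (a ^ 4 * a1))) ≤
      l / 4 * (φ * a2 ^ 2) + (41 * τ + 26244 * τ / l) * a1 ^ 2 + 4 * K / l * (φ * a1 ^ 2)
        + 10 / 625 * (φ1 * a1 ^ 2) + 8 / 625 * (φ1 * a2 ^ 2) := by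
  have hA : 0 ≤ a1 ^ 2 := sq_nonneg _
  have hB : 0 ≤ a2 ^ 2 := sq_nonneg _
  have ha : 0 ≤ a ^ 2 := sq_nonneg _
  have hφA : 0 ≤ φ * a1 ^ 2 := mul_nonneg h0 hA
  have hφB : 0 ≤ φ * a2 ^ 2 := mul_nonneg h0 hB
  have h1A : 0 ≤ φ1 * a1 ^ 2 := mul_nonneg h1 hA
  have h1B : 0 ≤ φ1 * a2 ^ 2 := mul_nonneg h1 hB
  have hY := I2_yng hl h0 a2 (a ^ 4 * a1)
  have e4 : a ^ 4 = (a ^ 2) ^ 2 := by ring
  have e8 : (a ^ 4 * a1) ^ 2 = a ^ 8 * a1 ^ 2 := by ring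
  rw [e8] at hY
  have t1 : 0 ≤ 41 * τ * a1 ^ 2 := by positivity
  have t2 : 0 ≤ 26244 * τ / l * a1 ^ 2 := by positivity
  have t3 : 0 ≤ 4 * K / l * (φ * a1 ^ 2) := by positivity
  rcases hz with ⟨z1, z2⟩ | ⟨z1, z2⟩ | ⟨z1, z2⟩
  · have b4 : a ^ 4 ≤ 81 := by
      rw [e4]
      nlinarith
    have b8 : a ^ 8 ≤ 6561 := by
      have e : a ^ 8 = (a ^ 4) ^ 2 := by ring
      have p4 : 0 ≤ a ^ 4 := by positivity
      rw [e]
      nlinarith
    have c1 : φ1 * a ^ 4 * a1 ^ 2 ≤ (1 / 4 * τ * 81) * a1 ^ 2 := by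
      refine mul_le_mul_of_nonneg_right ?_ hA
      exact mul_le_mul (by linarith) b4 (by positivity) (by positivity)
    have c2 : 4 / l * (φ * (a ^ 8 * a1 ^ 2)) ≤ 26244 * τ / l * a1 ^ 2 := by
      have : φ * a ^ 8 ≤ τ * 6561 := mul_le_mul z1 b8 (by positivity) hτ
      have h5 : 4 / l * (φ * a ^ 8 * a1 ^ 2) ≤ 4 / l * (τ * 6561 * a1 ^ 2) :=
        mul_le_mul_of_nonneg_left (mul_le_mul_of_nonneg_right this hA) (by positivity)
      calc 4 / l * (φ * (a ^ 8 * a1 ^ 2)) = 4 / l * (φ * a ^ 8 * a1 ^ 2) := by ring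
        _ ≤ 4 / l * (τ * 6561 * a1 ^ 2) := h5
        _ = 26244 * τ / l * a1 ^ 2 := by ring
    have c3 : (1 / 4 * τ * 81) * a1 ^ 2 * 2 ≤ 41 * τ * a1 ^ 2 := by
      have : 0 ≤ τ * a1 ^ 2 := mul_nonneg hτ hA
      nlinarith
    linarith
  · have b4 : a ^ 4 ≤ 1 / 625 := by
      rw [e4]
      nlinarith
    have p4 : 0 ≤ a ^ 4 := by positivity
    have c1 : φ1 * a ^ 4 * a1 ^ 2 ≤ 1 / 625 * (φ1 * a1 ^ 2) := by
      have : a ^ 4 * (φ1 * a1 ^ 2) ≤ 1 / 625 * (φ1 * a1 ^ 2) := mul_le_mul_of_nonneg_right b4 h1A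
      linarith
    have c2 : φ * (a2 * (a ^ 4 * a1)) ≤ 4 / 625 * (φ1 * a1 ^ 2 + φ1 * a2 ^ 2) := by
      have d1 : φ * (a2 * (a ^ 4 * a1)) ≤ φ * (a ^ 4 * (1 / 2 * (a1 ^ 2 + a2 ^ 2))) := by
        refine mul_le_mul_of_nonneg_left ?_ h0
        have : a ^ 4 * (a1 * a2) ≤ a ^ 4 * (1 / 2 * (a1 ^ 2 + a2 ^ 2)) := by
          refine mul_le_mul_of_nonneg_left ?_ p4
          nlinarith [sq_nonneg (a1 - a2)]
        linarith
      have d2 : φ * (a ^ 4 * (1 / 2 * (a1 ^ 2 + a2 ^ 2))) ≤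
          8 * φ1 * (1 / 625 * (1 / 2 * (a1 ^ 2 + a2 ^ 2))) := by
        refine mul_le_mul z1 ?_ (by positivity) (by positivity)
        exact mul_le_mul_of_nonneg_right b4 (by positivity)
      refine d1.trans (d2.trans (le_of_eq ?_))
      ring
    have c3 : 0 ≤ 26244 * τ / l * a1 ^ 2 := t2
    have c4 : 0 ≤ l / 4 * (φ * a2 ^ 2) := by positivity
    linarith
  · have b4 : a ^ 4 ≤ 1 / 625 := by
      rw [e4]
      nlinarith
    have c1 : φ1 * a ^ 4 * a1 ^ 2 ≤ 1 / 625 * (φ1 * a1 ^ 2) := by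
      have : a ^ 4 * (φ1 * a1 ^ 2) ≤ 1 / 625 * (φ1 * a1 ^ 2) := mul_le_mul_of_nonneg_right b4 h1A
      linarith
    have c2 : 4 / l * (φ * (a ^ 8 * a1 ^ 2)) ≤ 4 * K / l * (φ * a1 ^ 2) := by
      have h5 : 4 / l * (a ^ 8 * (φ * a1 ^ 2)) ≤ 4 / l * (K * (φ * a1 ^ 2)) :=
        mul_le_mul_of_nonneg_left (mul_le_mul_of_nonneg_right z2 hφA) (by positivity)
      calc 4 / l * (φ * (a ^ 8 * a1 ^ 2)) = 4 / l * (a ^ 8 * (φ * a1 ^ 2)) := by ring
        _ ≤ 4 / l * (K * (φ * a1 ^ 2)) := h5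
        _ = 4 * K / l * (φ * a1 ^ 2) := by ring
    linarith

theorem I2 {φ φ1 φ2 φ3 w m l y a a1 a2 e1 κ τ τ' K : ℝ}
    (h0 : 0 ≤ φ) (h1 : 0 ≤ φ1) (h1' : φ1 ≤ 1 / 4 * φ) (hφ1 : φ ≤ 1) (h2 : |φ2| ≤ 1 / 4 * φ1)
    (h3 : |φ3| ≤ 1 / 16 * φ1) (hl : 0 < l) (hl1 : l ≤ 1 / 16) (hm : |m| ≤ 1 / 4) (hκ : 0 ≤ κ)
    (hτ : 0 ≤ τ) (hK : 0 ≤ K) (htr : w * y * φ1 ≤ 1 / 16 * φ1 + τ')
    (hz : (φ ≤ τ ∧ a ^ 2 ≤ 9) ∨ (φ ≤ 8 * φ1 ∧ a ^ 2 ≤ 1 / 25) ∨ (a ^ 2 ≤ 1 / 25 ∧ a ^ 8 ≤ K)) :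
    w * y * φ1 * a1 ^ 2 - (1 + m) * (φ1 * a1 ^ 2) - 3 * (φ1 * a2 ^ 2) + φ3 * a1 ^ 2
      - 2 * l * (φ * a2 ^ 2) + l * (φ2 * a1 ^ 2)
      + 2 * ((φ1 * a1 + φ * a2) * (a ^ 4 * a1)) + 2 * ((φ1 * a1 + φ * a2) * e1)
      - κ * (φ1 * a1 ^ 2) ≤
    -l * (φ * a2 ^ 2) + (τ' + 41 * τ + 26244 * τ / l) * a1 ^ 2 + 4 * K / l * (φ * a1 ^ 2)
      + 8 / l * e1 ^ 2 := by
  have hA : 0 ≤ a1 ^ 2 := sq_nonneg _
  have hB : 0 ≤ a2 ^ 2 := sq_nonneg _
  have hC : 0 ≤ e1 ^ 2 := sq_nonneg _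
  have h1A : 0 ≤ φ1 * a1 ^ 2 := mul_nonneg h1 hA
  have h1B : 0 ≤ φ1 * a2 ^ 2 := mul_nonneg h1 hB
  have hφB : 0 ≤ φ * a2 ^ 2 := mul_nonneg h0 hB
  have hN := I2_non (a1 := a1) (a2 := a2) h0 h1 h1' hl hτ hK hz
  have s1 : w * y * φ1 * a1 ^ 2 ≤ (1 / 16 * φ1 + τ') * a1 ^ 2 := mul_le_mul_of_nonneg_right htr hA
  have s2 : -(1 + m) * (φ1 * a1 ^ 2) ≤ -(3 / 4) * (φ1 * a1 ^ 2) := by
    refine mul_le_mul_of_nonneg_right ?_ h1A
    have := (abs_le.1 hm).1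
    linarith
  have s3 : φ3 * a1 ^ 2 ≤ 1 / 16 * φ1 * a1 ^ 2 :=
    mul_le_mul_of_nonneg_right ((le_abs_self _).trans h3) hA
  have s4 : l * (φ2 * a1 ^ 2) ≤ 1 / 64 * (φ1 * a1 ^ 2) := by
    have q1 : φ2 * a1 ^ 2 ≤ 1 / 4 * φ1 * a1 ^ 2 :=
      mul_le_mul_of_nonneg_right ((le_abs_self _).trans h2) hA
    have q2 : l * (φ2 * a1 ^ 2) ≤ l * (1 / 4 * φ1 * a1 ^ 2) := mul_le_mul_of_nonneg_left q1 hl.le
    have q3 : l * (1 / 4 * φ1 * a1 ^ 2) ≤ 1 / 16 * (1 / 4 * φ1 * a1 ^ 2) :=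
      mul_le_mul_of_nonneg_right hl1 (by positivity)
    linarith
  have s5 : 0 ≤ κ * (φ1 * a1 ^ 2) := mul_nonneg hκ h1A
  have s6 : 2 * (φ1 * (a1 * e1)) ≤ 1 / 16 * (φ1 * a1 ^ 2) + 4 * e1 ^ 2 := by
    have q1 := I2_yng (l := 1 / 4) (by norm_num) h1 a1 e1
    have q2 : φ1 * e1 ^ 2 ≤ 1 / 4 * e1 ^ 2 := mul_le_mul_of_nonneg_right (by linarith) hC
    norm_num at q1
    linarith
  have s7 : 2 * (φ * (a2 * e1)) ≤ l / 4 * (φ * a2 ^ 2) + 4 / l * e1 ^ 2 := by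
    have q1 := I2_yng hl h0 a2 e1
    have q2 : 4 / l * (φ * e1 ^ 2) ≤ 4 / l * (1 * e1 ^ 2) :=
      mul_le_mul_of_nonneg_left (mul_le_mul_of_nonneg_right hφ1 hC) (by positivity)
    linarith
  have s8 : 4 * e1 ^ 2 + 4 / l * e1 ^ 2 ≤ 8 / l * e1 ^ 2 := by
    have q1 : (4 : ℝ) ≤ 4 / l := by
      rw [le_div_iff₀ hl]
      linarith
    have q2 : 4 * e1 ^ 2 ≤ 4 / l * e1 ^ 2 := mul_le_mul_of_nonneg_right q1 hC
    have q3 : 8 / l * e1 ^ 2 = 4 / l * e1 ^ 2 + 4 / l * e1 ^ 2 := by ring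
    linarith
  have s9 : 0 ≤ l * (φ * a2 ^ 2) := mul_nonneg hl.le hφB
  have e : w * y * φ1 * a1 ^ 2 - (1 + m) * (φ1 * a1 ^ 2) - 3 * (φ1 * a2 ^ 2) + φ3 * a1 ^ 2
      - 2 * l * (φ * a2 ^ 2) + l * (φ2 * a1 ^ 2)
      + 2 * ((φ1 * a1 + φ * a2) * (a ^ 4 * a1)) + 2 * ((φ1 * a1 + φ * a2) * e1)
      - κ * (φ1 * a1 ^ 2) =
      w * y * φ1 * a1 ^ 2 + -(1 + m) * (φ1 * a1 ^ 2) - 3 * (φ1 * a2 ^ 2) + φ3 * a1 ^ 2
      - 2 * (l * (φ * a2 ^ 2)) + l * (φ2 * a1 ^ 2)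
      + (2 * (φ1 * a ^ 4 * a1 ^ 2) + 2 * (φ * (a2 * (a ^ 4 * a1))))
      + 2 * (φ1 * (a1 * e1)) + 2 * (φ * (a2 * e1)) - κ * (φ1 * a1 ^ 2) := by
    ring
  rw [e]
  have e2 : (τ' + 41 * τ + 26244 * τ / l) * a1 ^ 2 =
      τ' * a1 ^ 2 + (41 * τ + 26244 * τ / l) * a1 ^ 2 := by ring
  have e3 : l / 4 * (φ * a2 ^ 2) = 1 / 4 * (l * (φ * a2 ^ 2)) := by ring
  rw [e2]
  linarith

end H37KC

end S_H37_KC_I2

section S_H37_KC_F1

/-!
# F1: sizes

Sizes.  `Qf 4 y = 15^{1/4} cosh(2y)^{-1/2}`, so `0 < Q ≤ 15^{1/4} ≤ 2` (from `Qf_pow`: `Q⁴ = C0 4 (1 - th²) ≤ C0 4 = 15`).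
* `F1_W3`: `|W| ≤ |Q| + 1/10`.
* `F1_y0`: `Qf_hi` gives `y0` with `Q ≤ 1/10` on `y ≥ y0`.
* `F1_int`: `W = (W - Q) + Q`, `W² ≤ 2(W-Q)² + 2Q²`, same for the derivative; all integrable by the `Cl` classes.
-/

open MeasureTheory Filter Topology Set
open scoped ContDiff

namespace H37KC

open H98KB H68KC

theorem F1_Q2 (y : ℝ) : Qf 4 y ≤ 2 := by
  have h := Qf_pow (k := 4) (by norm_num) y
  have h0 := Qf_pos 4 y
  have h1 : Qf 4 y ^ 4 ≤ 2 ^ 4 := by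
    rw [h, C0]
    have := sq_nonneg (th 4 y)
    push_cast
    nlinarith
  exact (pow_le_pow_iff_left₀ h0.le (by norm_num) (by norm_num)).1 h1

theorem F1_abs {c : ℝ} {W : ℝ → ℝ} (hc : c ≤ 1 / 10) (h : ∀ y, |W y - Qf 4 y| ≤ c) (y : ℝ) :
    |W y| ≤ 1 / 10 + Qf 4 y := by
  have h1 := (h y).trans hc
  have h0 := Qf_pos 4 y
  rw [abs_le] at h1 ⊢
  constructor <;> linarith [h1.1, h1.2]

theorem F1_W3 {c : ℝ} {W : ℝ → ℝ} (hc : c ≤ 1 / 10) (h : ∀ y, |W y - Qf 4 y| ≤ c) (y : ℝ) :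
    |W y| ≤ 3 := by
  have h1 := F1_abs hc h y
  have h2 := F1_Q2 y
  linarith

theorem F1_y0 : ∃ y0 : ℝ, 0 < y0 ∧ ∀ (c : ℝ) (W : ℝ → ℝ), c ≤ 1 / 10 → (∀ y, |W y - Qf 4 y| ≤ c) →
    ∀ y, y0 ≤ y → |W y| ≤ 1 / 5 := by
  obtain ⟨C, hC, hQ⟩ := Qf_hi (k := 4) (by norm_num)
  refine ⟨|Real.log (10 * C)| + 1, by positivity, ?_⟩
  intro c W hc h y hy
  have h1 := F1_abs hc h y
  have h2 := hQ y
  have h3 : Real.log (10 * C) ≤ |y| := by
    have := le_abs_self (Real.log (10 * C))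
    have := le_abs_self y
    linarith
  have h4 : Real.exp (-|y|) ≤ (10 * C)⁻¹ := by
    rw [Real.exp_neg]
    have h5 : 10 * C ≤ Real.exp |y| := by
      rw [← Real.log_le_iff_le_exp (by positivity)]
      exact h3
    exact inv_anti₀ (by positivity) h5
  have h5 : C * Real.exp (-|y|) ≤ 1 / 10 := by
    calc C * Real.exp (-|y|) ≤ C * (10 * C)⁻¹ := mul_le_mul_of_nonneg_left h4 hC.le
      _ = 1 / 10 := by field_simp
  linarith

theorem F1_two {p q : ℝ} {f g : ℝ → ℝ} (hp : 0 < p) (hq : 0 < q) (hf : Cl p q f) (hg : Cl p q g) :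
    ∫ y, (f y + g y) ^ 2 ≤ 2 * (∫ y, (f y) ^ 2) + 2 * ∫ y, (g y) ^ 2 := by
  have i1 : Integrable (fun y => (f y) ^ 2) :=
    Cl_int (Cl_pow' hf hp.le hq.le 2 (by norm_num)) hp hq
  have i2 : Integrable (fun y => (g y) ^ 2) :=
    Cl_int (Cl_pow' hg hp.le hq.le 2 (by norm_num)) hp hq
  have i3 : Integrable (fun y => (f y + g y) ^ 2) :=
    Cl_int (Cl_pow' (Cl_add hf hg) hp.le hq.le 2 (by norm_num)) hp hq
  rw [← integral_const_mul, ← integral_const_mul, ← integral_add (i1.const_mul 2) (i2.const_mul 2)]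
  refine integral_mono i3 ((i1.const_mul 2).add (i2.const_mul 2)) fun y => ?_
  have := sq_nonneg (f y - g y)
  show (f y + g y) ^ 2 ≤ 2 * (f y) ^ 2 + 2 * (g y) ^ 2
  nlinarith

theorem F1_int : ∃ C : ℝ, 1 ≤ C ∧ ∀ (p q : ℝ) (W : ℝ → ℝ), 0 < p → p ≤ 1 / 2 → 0 < q → q ≤ 1 / 2 →
    Cl p q (fun y => W y - Qf 4 y) → Xn (fun y => W y - Qf 4 y) ≤ 1 →
    (∫ y, (W y - Qf 4 y) ^ 2) ≤ 1 → (∫ y, (deriv W y) ^ 2) ≤ C ∧ (∫ y, (W y) ^ 2) ≤ C := by
  have hA : 0 ≤ ∫ y, (Qf 4 y) ^ 2 := integral_nonneg fun y => sq_nonneg _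
  have hB : 0 ≤ ∫ y, (deriv (Qf 4) y) ^ 2 := integral_nonneg fun y => sq_nonneg _
  refine ⟨2 + 2 * (∫ y, (Qf 4 y) ^ 2) + 2 * ∫ y, (deriv (Qf 4) y) ^ 2, by linarith, ?_⟩
  intro p q W hp hp2 hq hq2 hr hX hL
  have hQ1 : Cl 1 1 (Qf 4) := Cl_Qf (by norm_num)
  have hQ : Cl p q (Qf 4) := Cl_mono hQ1 (by linarith) (by linarith)
  have hW : Cl p q W := Cl_W hp2 hq2 hr
  have hd : ∀ y, deriv W y = deriv (fun y => W y - Qf 4 y) y + deriv (Qf 4) y := by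
    intro y
    have h1 := ((Cl_hd hW y).sub (Cl_hd hQ y)).deriv
    have h2 : deriv (fun y => W y - Qf 4 y) y = deriv W y - deriv (Qf 4) y := h1
    rw [h2]
    ring
  constructor
  · have h1 := F1_two hp hq (Cl_der hr) (Cl_der hQ)
    have h2 : ∫ y, (deriv W y) ^ 2 =
        ∫ y, (deriv (fun y => W y - Qf 4 y) y + deriv (Qf 4) y) ^ 2 := by
      refine integral_congr_ae (Eventually.of_forall fun y => ?_)
      show (deriv W y) ^ 2 = _
      rw [hd y]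
    rw [h2]
    unfold Xn at hX
    linarith
  · have h1 := F1_two hp hq hr hQ
    have h2 : ∫ y, (W y) ^ 2 = ∫ y, (W y - Qf 4 y + Qf 4 y) ^ 2 := by
      refine integral_congr_ae (Eventually.of_forall fun y => ?_)
      show (W y) ^ 2 = _
      ring
    rw [h2]
    linarith

end H37KC

end S_H37_KC_F1

section S_H37_KC_P1

/-!
# Row P1 of MP_95be7d_K4B (120 lines)

Facts on the front `Ph s y = Th 4 (y - 1/(2s))`  (`Th B y = 1/(1+exp(-y/B))`).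

* `P1_shift`: `iteratedDeriv_comp_sub_const` (or induction), and `bd p q (y-a) ≤ exp((p+q)|a|) bd p q y` since
  `max (y-a) 0 ≥ max y 0 - |a|`, same for `max (-(y-a)) 0`.
* `P1_Cl`: `Cl_Th (B := 4)` and `P1_shift`.
* `P1_d1`: `Th_hd`.  Write `F = Ph s y`, `F' = F(1-F)/4`, `F'' = F'(1-2F)/4`,
  `F''' = F' ((1-2F)²/16 - F(1-F)/8) = F' (1-6F(1-F))/16`, so `|F'''| ≤ F'/16`.
* `P1_half`: `exp(-(y-y1)/4) ≤ 1`.  `P1_eight`: `F ≤ 1/2` there.
* `P1_lo`: `1/(1+exp(-z)) ≤ exp z`.   `P1_hi`: `F(1-F) ≤ 1-F = 1/(1+exp z) ≤ exp(-z)`, `z = (y-y1)/4`.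
* `P1_tr`: if `y ≤ 0` the left side is `≤ 0`; if `0 ≤ y ≤ 2/s` then `w y ≤ 2w/s ≤ 1/16`; if `y ≥ 2/s` then `y - 1/(2s) ≥ 3y/4`, so
  `w y F' ≤ (w/4) y exp(-3y/16) ≤ (w/4) 16 exp(-y/8) ≤ 4 w exp(-1/(4s))`  (`y exp(-y/16) ≤ 16`).
-/

open MeasureTheory Filter Topology Set
open scoped ContDiff

namespace H37KC

open H98KB H68KC

theorem P1_bd {p q : ℝ} (hp : 0 ≤ p) (hq : 0 ≤ q) (a y : ℝ) :
    bd p q (y - a) ≤ Real.exp ((p + q) * |a|) * bd p q y := by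
  unfold bd
  rw [← Real.exp_add]
  refine Real.exp_le_exp.2 ?_
  have h1 := le_abs_self a
  have h2 := neg_abs_le a
  have e1 : max y 0 ≤ max (y - a) 0 + |a| := by
    refine max_le ?_ ?_
    · linarith [le_max_left (y - a) 0]
    · linarith [le_max_right (y - a) 0, abs_nonneg a]
  have e2 : max (-y) 0 ≤ max (-(y - a)) 0 + |a| := by
    refine max_le ?_ ?_
    · linarith [le_max_left (-(y - a)) 0]
    · linarith [le_max_right (-(y - a)) 0, abs_nonneg a]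
  have e3 := mul_le_mul_of_nonneg_left e1 hp
  have e4 := mul_le_mul_of_nonneg_left e2 hq
  nlinarith

theorem P1_shift {p q : ℝ} {f : ℝ → ℝ} (hp : 0 ≤ p) (hq : 0 ≤ q) (h : Cl p q f) (a : ℝ) :
    Cl p q (fun y => f (y - a)) := by
  refine ⟨h.1.comp (contDiff_id.sub contDiff_const), fun j => ?_⟩
  obtain ⟨C, hC0, hC⟩ := Cl_bndj h j
  refine ⟨C * Real.exp ((p + q) * |a|), fun y => ?_⟩
  have e : iteratedDeriv j (fun y => f (y - a)) y = iteratedDeriv j f (y - a) := by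
    rw [iteratedDeriv_comp_sub_const]
  rw [e, mul_assoc]
  exact (hC _).trans (mul_le_mul_of_nonneg_left (P1_bd hp hq a y) hC0)

theorem P1_Cl (s : ℝ) : Cl 0 (1 / 4) (Ph s) :=
  P1_shift le_rfl (by norm_num) (Cl_Th (B := 4) (by norm_num)) (1 / (2 * s))

theorem P1_pos (s y : ℝ) : 0 < Ph s y := Th_pos _ _

theorem P1_lt (s y : ℝ) : Ph s y < 1 := Th_lt_one _ _

theorem P1_hd (s y : ℝ) : HasDerivAt (Ph s) (Ph s y * (1 - Ph s y) / 4) y :=
  (Th_hd (B := 4) (by norm_num) (y - 1 / (2 * s))).comp_sub_const y (1 / (2 * s))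

theorem P1_d1 (s : ℝ) : deriv (Ph s) = fun y => Ph s y * (1 - Ph s y) / 4 :=
  funext fun y => (P1_hd s y).deriv

theorem P1_hd2 (s y : ℝ) : HasDerivAt (fun y => Ph s y * (1 - Ph s y) / 4)
    (Ph s y * (1 - Ph s y) / 4 * (1 - 2 * Ph s y) / 4) y := by
  have h := P1_hd s y
  refine ((h.mul (h.const_sub 1)).div_const 4).congr_deriv ?_
  ring

theorem P1_hd3 (s y : ℝ) : HasDerivAt (fun y => Ph s y * (1 - Ph s y) / 4 * (1 - 2 * Ph s y) / 4)
    (Ph s y * (1 - Ph s y) / 4 * (1 - 6 * (Ph s y * (1 - Ph s y))) / 16) y := by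
  have h := P1_hd s y
  have h2 := P1_hd2 s y
  refine ((h2.mul ((h.const_mul 2).const_sub 1)).div_const 4).congr_deriv ?_
  ring

theorem P1_d1_nonneg (s y : ℝ) : 0 ≤ deriv (Ph s) y := by
  rw [P1_d1]
  have h1 := P1_pos s y
  have h2 := P1_lt s y
  have : 0 < 1 - Ph s y := by linarith
  positivity

theorem P1_d1_le (s y : ℝ) : deriv (Ph s) y ≤ 1 / 4 * Ph s y := by
  rw [P1_d1]
  have h1 := P1_pos s y
  simp only
  nlinarith

theorem P1_d2 (s y : ℝ) : |deriv (deriv (Ph s)) y| ≤ 1 / 4 * deriv (Ph s) y := by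
  have h0 := P1_d1_nonneg s y
  rw [P1_d1] at h0 ⊢
  rw [(P1_hd2 s y).deriv]
  simp only at h0 ⊢
  have h1 := P1_pos s y
  have h2 := P1_lt s y
  rw [mul_div_assoc, abs_mul, abs_of_nonneg h0, mul_comm (1 / 4 : ℝ)]
  refine mul_le_mul_of_nonneg_left ?_ h0
  rw [abs_le]
  constructor <;> linarith

theorem P1_d3 (s y : ℝ) : |deriv (deriv (deriv (Ph s))) y| ≤ 1 / 16 * deriv (Ph s) y := by
  have h0 := P1_d1_nonneg s y
  have e2 : deriv (deriv (Ph s)) = fun y => Ph s y * (1 - Ph s y) / 4 * (1 - 2 * Ph s y) / 4 := by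
    rw [P1_d1]
    exact funext fun y => (P1_hd2 s y).deriv
  rw [e2, (P1_hd3 s y).deriv]
  rw [P1_d1] at h0 ⊢
  simp only at h0 ⊢
  have h1 := P1_pos s y
  have h2 := P1_lt s y
  rw [mul_div_assoc, abs_mul, abs_of_nonneg h0, mul_comm (1 / 16 : ℝ)]
  refine mul_le_mul_of_nonneg_left ?_ h0
  have h3 : 0 ≤ Ph s y * (1 - Ph s y) := mul_nonneg h1.le (by linarith)
  have h4 : Ph s y * (1 - Ph s y) ≤ 1 / 4 := by nlinarith [sq_nonneg (Ph s y - 1 / 2)]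
  rw [abs_le]
  constructor <;> linarith

theorem P1_half {s y : ℝ} (hy : 1 / (2 * s) ≤ y) : 1 / 2 ≤ Ph s y := by
  unfold Ph Th
  have h1 : Real.exp (-(y - 1 / (2 * s)) / 4) ≤ 1 := Real.exp_le_one_iff.2 (by linarith)
  have h2 := Real.exp_pos (-(y - 1 / (2 * s)) / 4)
  rw [div_le_div_iff₀ (by norm_num) (by linarith)]
  linarith

theorem P1_eight {s y : ℝ} (hy : y ≤ 1 / (2 * s)) : Ph s y ≤ 8 * deriv (Ph s) y := by
  have h1 := P1_pos s y
  have h2 : Ph s y ≤ 1 / 2 := by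
    unfold Ph Th
    have h3 : 1 ≤ Real.exp (-(y - 1 / (2 * s)) / 4) := Real.one_le_exp (by linarith)
    rw [div_le_div_iff₀ (by linarith) (by norm_num)]
    linarith
  rw [P1_d1]
  simp only
  nlinarith

theorem P1_lo (s y : ℝ) : Ph s y ≤ Real.exp ((y - 1 / (2 * s)) / 4) := by
  unfold Ph Th
  have h1 := Real.exp_pos (-(y - 1 / (2 * s)) / 4)
  have h2 := Real.exp_pos ((y - 1 / (2 * s)) / 4)
  rw [div_le_iff₀ (by linarith), mul_add, ← Real.exp_add]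
  have e : (y - 1 / (2 * s)) / 4 + -(y - 1 / (2 * s)) / 4 = 0 := by ring
  rw [e, Real.exp_zero]
  linarith

theorem P1_hi (s y : ℝ) : deriv (Ph s) y ≤ 1 / 4 * Real.exp (-((y - 1 / (2 * s)) / 4)) := by
  have h1 := P1_pos s y
  have h2 := P1_lt s y
  have e : -((y - 1 / (2 * s)) / 4) = -(y - 1 / (2 * s)) / 4 := by ring
  have h3 : 1 - Ph s y ≤ Real.exp (-((y - 1 / (2 * s)) / 4)) := by
    unfold Ph Th
    rw [e]
    have h4 := Real.exp_pos (-(y - 1 / (2 * s)) / 4)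
    set E := Real.exp (-(y - 1 / (2 * s)) / 4) with hE
    have h5 : 1 - 1 / (1 + E) = E / (1 + E) := by
      field_simp
      ring
    rw [h5, div_le_iff₀ (by linarith)]
    nlinarith
  rw [P1_d1]
  simp only
  have h6 : Ph s y * (1 - Ph s y) ≤ 1 - Ph s y := by nlinarith
  linarith

theorem P1_tr {s w : ℝ} (hs : 0 < s) (hw : 0 ≤ w) (hws : 32 * w ≤ s) (y : ℝ) :
    w * y * deriv (Ph s) y ≤ 1 / 16 * deriv (Ph s) y + 4 * w * Real.exp (-(1 / (4 * s))) := by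
  have h0 := P1_d1_nonneg s y
  have h1 := Real.exp_pos (-(1 / (4 * s)))
  have h2 : 0 ≤ 4 * w * Real.exp (-(1 / (4 * s))) := by positivity
  rcases le_total y (2 / s) with hy | hy
  · have h3 : w * y ≤ 1 / 16 := by
      have h4 : w * y ≤ w * (2 / s) := mul_le_mul_of_nonneg_left hy hw
      have h5 : w * (2 / s) ≤ 1 / 16 := by
        rw [← mul_div_assoc, div_le_iff₀ hs]
        linarith
      linarith
    have h6 := mul_le_mul_of_nonneg_right h3 h0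
    linarith
  · have hy0 : 0 < y := lt_of_lt_of_le (by positivity) hy
    have h3 : 1 / (2 * s) ≤ y / 4 := by
      have : 1 / (2 * s) = 2 / s / 4 := by field_simp; ring
      rw [this]
      linarith
    have h4 := P1_hi s y
    have h5 : Real.exp (-((y - 1 / (2 * s)) / 4)) ≤ Real.exp (-(y / 16)) * Real.exp (-(1 / (4 * s))) := by
      rw [← Real.exp_add]
      refine Real.exp_le_exp.2 ?_
      have h6 : 1 / (4 * s) = 2 / s / 8 := by field_simp; ring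
      rw [h6]
      linarith
    have h7 : y * Real.exp (-(y / 16)) ≤ 16 := by
      have h8 : y / 16 ≤ Real.exp (y / 16) := by
        have := Real.add_one_le_exp (y / 16)
        linarith
      rw [Real.exp_neg, ← div_eq_mul_inv, div_le_iff₀ (Real.exp_pos _)]
      linarith
    have hwy : 0 ≤ w * y := mul_nonneg hw hy0.le
    calc w * y * deriv (Ph s) y
        ≤ w * y * (1 / 4 * (Real.exp (-(y / 16)) * Real.exp (-(1 / (4 * s))))) := by
          refine mul_le_mul_of_nonneg_left (h4.trans ?_) hwy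
          exact mul_le_mul_of_nonneg_left h5 (by norm_num)
      _ = (y * Real.exp (-(y / 16))) * (w * Real.exp (-(1 / (4 * s))) / 4) := by ring
      _ ≤ 16 * (w * Real.exp (-(1 / (4 * s))) / 4) :=
          mul_le_mul_of_nonneg_right h7 (by positivity)
      _ = 4 * w * Real.exp (-(1 / (4 * s))) := by ring
      _ ≤ 1 / 16 * deriv (Ph s) y + 4 * w * Real.exp (-(1 / (4 * s))) := by linarith

end H37KC

end S_H37_KC_P1

section S_H37_KC_F2

/-!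
# Row F2 of MP_95be7d_K4B (90 lines)

Estimates ahead of the front: `Ph s ≥ 1/2` on `y ≥ 1/(2s)` (`P1_half`).
* `F2_tail`: `∫_{Ici a} f² ≤ ∫_{Ici a} 2 Φ f² ≤ 2 ∫ Φ f²` (`setIntegral_mono_on`, `setIntegral_le_integral`).
* `F2_pt`: `W(y)² = -∫_{Ioi y} 2 W W'` (`integral_Ioi_of_hasDerivAt_of_tendsto`, `Cl_tendsto_top`), so by Cauchy-Schwarz
  `W(y)⁴ ≤ 4 (∫ W²) (∫_{Ici y} W'²) ≤ 8 (∫ W²) N`  (e.g. `integral_mul_le_Lp_mul_Lq` on the restricted measure, or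
  for every `t > 0`: `2|W W'| ≤ t W² + W'²/t`, so `W(y)² ≤ t ∫W² + (1/t) 2N` and optimise in `t`).
* `F2_dif`: for `x, y ≥ a`: `W y - W x = ∫_x^y W'`, Cauchy-Schwarz on the interval and `F2_tail`.
-/

open MeasureTheory Filter Topology Set
open scoped ContDiff

namespace H37KC

open H98KB H68KC

theorem F2_nonneg (s : ℝ) (W : ℝ → ℝ) : 0 ≤ Nn s W := by
  unfold Nn
  exact integral_nonneg fun y => mul_nonneg (P1_pos s y).le (sq_nonneg _)

theorem F2_tail {p q s a : ℝ} {f : ℝ → ℝ} (hp : 0 < p) (hq : 0 < q) (hf : Cl p q f)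
    (ha : 1 / (2 * s) ≤ a) : ∫ y in Ici a, (f y) ^ 2 ≤ 2 * ∫ y, Ph s y * (f y) ^ 2 := by
  have hf2 : Cl p q (fun y => (f y) ^ 2) := Cl_pow' hf hp.le hq.le 2 (by norm_num)
  have h1 : Integrable (fun y => (f y) ^ 2) := Cl_int hf2 hp hq
  have h2 : Integrable (fun y => Ph s y * (f y) ^ 2) :=
    Cl_int (Cl_mul (P1_Cl s) hf2) (by linarith) (by linarith)
  have h3 : Integrable (fun y => 2 * (Ph s y * (f y) ^ 2)) := h2.const_mul 2
  calc ∫ y in Ici a, (f y) ^ 2 ≤ ∫ y in Ici a, 2 * (Ph s y * (f y) ^ 2) := by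
        refine setIntegral_mono_on h1.integrableOn h3.integrableOn measurableSet_Ici ?_
        intro y hy
        have h4 : 1 / 2 ≤ Ph s y := P1_half (le_trans ha hy)
        have h5 : 0 ≤ (f y) ^ 2 := sq_nonneg _
        have h6 := mul_le_mul_of_nonneg_right h4 h5
        linarith
    _ ≤ ∫ y, 2 * (Ph s y * (f y) ^ 2) := by
        refine setIntegral_le_integral h3 (Eventually.of_forall fun y => ?_)
        exact mul_nonneg (by norm_num) (mul_nonneg (P1_pos s y).le (sq_nonneg _))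
    _ = 2 * ∫ y, Ph s y * (f y) ^ 2 := integral_const_mul _ _

theorem F2_opt {v A N : ℝ} (hv : 0 ≤ v) (hA : 0 ≤ A) (hN : 0 ≤ N)
    (h : ∀ t : ℝ, 0 < t → v ≤ t * A + 1 / t * (2 * N)) : v ^ 2 ≤ 8 * A * N := by
  rcases hv.eq_or_lt with h0 | h0
  · rw [← h0]
    have := mul_nonneg hA hN
    linarith
  rcases hA.eq_or_lt with h1 | h1
  · exfalso
    have ht : 0 < 2 * (2 * N + 1) / v := by positivity
    have h2 := h _ ht
    rw [← h1, mul_zero, zero_add] at h2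
    have h3 : 1 / (2 * (2 * N + 1) / v) * (2 * N) = v / 2 * (2 * N / (2 * N + 1)) := by
      field_simp
    rw [h3] at h2
    have h4 : 2 * N / (2 * N + 1) ≤ 1 := by
      rw [div_le_one (by positivity)]
      linarith
    have h5 : v / 2 * (2 * N / (2 * N + 1)) ≤ v / 2 * 1 :=
      mul_le_mul_of_nonneg_left h4 (by linarith)
    linarith
  · have ht : 0 < v / (2 * A) := by positivity
    have h2 := h _ ht
    have h3 : v / (2 * A) * A = v / 2 := by field_simp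
    have h4 : 1 / (v / (2 * A)) * (2 * N) = 4 * A * N / v := by
      field_simp
      ring
    rw [h3, h4] at h2
    have h5 : v / 2 ≤ 4 * A * N / v := by linarith
    rw [le_div_iff₀ h0] at h5
    have h6 : v / 2 * v = v ^ 2 / 2 := by ring
    rw [h6] at h5
    linarith

theorem F2_pt {p q s y : ℝ} {W : ℝ → ℝ} (hp : 0 < p) (hq : 0 < q) (hW : Cl p q W)
    (hy : 1 / (2 * s) ≤ y) : (W y) ^ 4 ≤ 8 * (∫ z, (W z) ^ 2) * Nn s W := by
  have hW' : Cl p q (deriv W) := Cl_der hW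
  have hW2 : Cl p q (fun z => (W z) ^ 2) := Cl_pow' hW hp.le hq.le 2 (by norm_num)
  have hD2 : Cl p q (fun z => (deriv W z) ^ 2) := Cl_pow' hW' hp.le hq.le 2 (by norm_num)
  have i1 : Integrable (fun z => (W z) ^ 2) := Cl_int hW2 hp hq
  have i2 : Integrable (fun z => (deriv W z) ^ 2) := Cl_int hD2 hp hq
  have i3 : Integrable (fun z => W z * deriv W z) :=
    Cl_int (Cl_mul hW hW') (by linarith) (by linarith)
  have i4 : Integrable (fun z => 2 * (W z * deriv W z)) := i3.const_mul 2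
  have h1 : ∫ z in Ioi y, 2 * (W z * deriv W z) = 0 - (W y) ^ 2 := by
    refine integral_Ioi_of_hasDerivAt_of_tendsto' (f := fun z => (W z) ^ 2) ?_ i4.integrableOn
      (Cl_tendsto_top hW2 hp)
    intro z _
    have h := (Cl_hd hW z).pow 2
    refine HasDerivAt.congr_deriv (f' := _) h ?_
    norm_num
    ring
  have h2 : (W y) ^ 2 ≤ ∫ z in Ioi y, |2 * (W z * deriv W z)| := by
    have h3 : (W y) ^ 2 = |∫ z in Ioi y, 2 * (W z * deriv W z)| := by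
      rw [h1, zero_sub, abs_neg, abs_of_nonneg (sq_nonneg _)]
    rw [h3]
    exact abs_integral_le_integral_abs
  have hT := F2_tail hp hq hW' hy
  have hN : 0 ≤ Nn s W := F2_nonneg s W
  have hA : 0 ≤ ∫ z, (W z) ^ 2 := integral_nonneg fun z => sq_nonneg _
  have key : ∀ t : ℝ, 0 < t → (W y) ^ 2 ≤ t * (∫ z, (W z) ^ 2) + 1 / t * (2 * Nn s W) := by
    intro t ht
    have h4 : ∫ z in Ioi y, |2 * (W z * deriv W z)| ≤
        ∫ z in Ioi y, (t * (W z) ^ 2 + 1 / t * (deriv W z) ^ 2) := by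
      refine setIntegral_mono_on i4.abs.integrableOn
        ((i1.const_mul t).add (i2.const_mul (1 / t))).integrableOn measurableSet_Ioi ?_
      intro z _
      have h5 : 0 ≤ 1 / t * (t * |W z| - |deriv W z|) ^ 2 :=
        mul_nonneg (by positivity) (sq_nonneg _)
      have h6 : 1 / t * (t * |W z| - |deriv W z|) ^ 2 =
          t * |W z| ^ 2 + 1 / t * |deriv W z| ^ 2 - 2 * (|W z| * |deriv W z|) := by
        field_simp
        ring
      rw [h6, sq_abs, sq_abs] at h5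
      rw [abs_mul, abs_mul, abs_two]
      linarith
    have h7 : ∫ z in Ioi y, (t * (W z) ^ 2 + 1 / t * (deriv W z) ^ 2) =
        t * (∫ z in Ioi y, (W z) ^ 2) + 1 / t * ∫ z in Ioi y, (deriv W z) ^ 2 := by
      rw [integral_add (i1.const_mul t).integrableOn (i2.const_mul (1 / t)).integrableOn,
        integral_const_mul, integral_const_mul]
    have h8 : ∫ z in Ioi y, (W z) ^ 2 ≤ ∫ z, (W z) ^ 2 :=
      setIntegral_le_integral i1 (Eventually.of_forall fun z => sq_nonneg _)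
    have h9 : ∫ z in Ioi y, (deriv W z) ^ 2 ≤ 2 * Nn s W := by
      rw [← integral_Ici_eq_integral_Ioi]
      exact hT
    have h10 := mul_le_mul_of_nonneg_left h8 ht.le
    have h11 := mul_le_mul_of_nonneg_left h9 (by positivity : (0:ℝ) ≤ 1 / t)
    linarith
  have h12 := F2_opt (sq_nonneg (W y)) hA hN key
  calc (W y) ^ 4 = ((W y) ^ 2) ^ 2 := by ring
    _ ≤ _ := h12

theorem F2_cs {g : ℝ → ℝ} (hg : Continuous g) {x y : ℝ} (hxy : x ≤ y) :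
    (∫ z in x..y, g z) ^ 2 ≤ (y - x) * ∫ z in x..y, (g z) ^ 2 := by
  rcases hxy.eq_or_lt with h | h
  · rw [← h]
    simp
  have hl : 0 < y - x := by linarith
  set I := ∫ z in x..y, g z with hI
  set t := I / (y - x) with ht
  have h0 : 0 ≤ ∫ z in x..y, (g z - t) ^ 2 :=
    intervalIntegral.integral_nonneg hxy fun z _ => sq_nonneg _
  have h1 : ∫ z in x..y, (g z - t) ^ 2 =
      (∫ z in x..y, (g z) ^ 2) - 2 * t * I + t ^ 2 * (y - x) := by
    have e : ∀ z, (g z - t) ^ 2 = (g z) ^ 2 - 2 * t * g z + t ^ 2 := fun z => by ring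
    simp_rw [e]
    rw [intervalIntegral.integral_add, intervalIntegral.integral_sub,
      intervalIntegral.integral_const_mul, intervalIntegral.integral_const, smul_eq_mul]
    · ring
    · exact (hg.pow 2).intervalIntegrable _ _
    · exact (continuous_const.mul hg).intervalIntegrable _ _
    · exact ((hg.pow 2).sub (continuous_const.mul hg)).intervalIntegrable _ _
    · exact continuous_const.intervalIntegrable _ _
  rw [h1] at h0
  have h2 : t * (y - x) = I := by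
    rw [ht]
    field_simp
  have h3 : t ^ 2 * (y - x) = t * I := by
    rw [← h2]
    ring
  rw [h3] at h0
  have h4 : t * I ≤ ∫ z in x..y, (g z) ^ 2 := by linarith
  have h5 := mul_le_mul_of_nonneg_left h4 hl.le
  have h6 : (y - x) * (t * I) = I ^ 2 := by
    rw [← mul_assoc, mul_comm (y - x) t, h2]
    ring
  rw [h6] at h5
  exact h5

theorem F2_dif' {p q s x y : ℝ} {W : ℝ → ℝ} (hp : 0 < p) (hq : 0 < q) (hW : Cl p q W)
    (hx : 1 / (2 * s) ≤ x) (hxy : x ≤ y) : (W y - W x) ^ 2 ≤ (y - x) * (2 * Nn s W) := by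
  have hW' : Cl p q (deriv W) := Cl_der hW
  have hc : Continuous (deriv W) := Cl_cont hW'
  have h1 : ∫ z in x..y, deriv W z = W y - W x :=
    intervalIntegral.integral_eq_sub_of_hasDerivAt (fun z _ => Cl_hd hW z)
      (hc.intervalIntegrable _ _)
  have h2 := F2_cs hc hxy
  rw [h1] at h2
  refine h2.trans (mul_le_mul_of_nonneg_left ?_ (by linarith))
  have hD2 : Cl p q (fun z => (deriv W z) ^ 2) := Cl_pow' hW' hp.le hq.le 2 (by norm_num)
  have i2 : Integrable (fun z => (deriv W z) ^ 2) := Cl_int hD2 hp hq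
  have h3 := F2_tail hp hq hW' hx
  rw [intervalIntegral.integral_of_le hxy]
  refine le_trans ?_ h3
  refine setIntegral_mono_set i2.integrableOn (Eventually.of_forall fun z => sq_nonneg _) ?_
  exact (Ioc_subset_Icc_self.trans Icc_subset_Ici_self).eventuallyLE

theorem F2_dif {p q s x y : ℝ} {W : ℝ → ℝ} (hp : 0 < p) (hq : 0 < q) (hW : Cl p q W)
    (hx : 1 / (2 * s) ≤ x) (hy : 1 / (2 * s) ≤ y) : (W y - W x) ^ 2 ≤ |y - x| * (2 * Nn s W) := by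
  rcases le_total x y with h | h
  · rw [abs_of_nonneg (by linarith)]
    exact F2_dif' hp hq hW hx h
  · rw [abs_of_nonpos (by linarith)]
    have h1 := F2_dif' hp hq hW hy h
    have h2 : (W y - W x) ^ 2 = (W x - W y) ^ 2 := by ring
    rw [h2, neg_sub]
    exact h1

end H37KC

end S_H37_KC_F2

section S_H37_KC_AH

/-!
# Row AH of MP_95be7d_K4B (150 lines)

Assembly of `GoodB.AH`.  `s = r²`, `l = r⁸`, `Φ = Ph s`, `y1 = 1/(2s)`, `N = Nn s W`, `(p, q)` from `Sit.cl`, `W ∈ Cl p q` (`Cl_W`),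
`ze w m l W et = Zz w m l W et` (`ze_eq`).   Fix `y0` from `F1_y0`, `C1` from `F1_int`, `C2` from `T1_exp`.
Take `r1` with: `r1 ≤ 1/2` (so `l ≤ 1/16`), `y0 ≤ 1/(2 r1²)`, `160 c0 r1² ≤ 1` (so `32 w ≤ s`; note `c0 ≥ 1`: `cnu ≥ 0`).

`DNn = ∫ 2Φ W' Z' - κ ∫ Φ' W'²` with `κ = w/(8s) ≥ 0`; by `I1` it is `∫ (integrand of I1 - κ Φ' W'²)`.  Pointwise, `I2` with
`φ = Φ y, φ1 = Φ' y, φ2 = Φ'' y, φ3 = Φ''' y, a = W y, a1 = W' y, a2 = W'' y, e1 = et' y, τ = exp(-(1/(8 r²))) exp(y0/4)`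
(for `y ≤ y0`: `Φ y ≤ exp((y0 - y1)/4) = τ` by `P1_lo`, `y1/4 = 1/(8r²)`), `τ' = 4 w exp(-(1/(4 r²)))` (`P1_tr`),
`K = (8 C1 N)²` (`F2_pt`: `a⁸ = (a⁴)²`).  Zones: `y ≤ y0` zone 1 (`|W| ≤ 3`, `F1_W3`); `y0 ≤ y ≤ y1` zone 2 (`P1_eight`, `F1_y0`); `y ≥ y1`
zone 3.  Add `-2 w Φ W'²` and integrate (`integral_mono`, `I1_int`):

`DNn ≤ -2 w N - l ∫ Φ W''² + (τ' + 41 τ + 26244 τ/l) ∫ W'² + (4K/l) N + (8/l) ∫ et'²`.

`∫ W'² ≤ C1`;  `τ ≤ C r^48`, `τ' ≤ 4 w C r^48 ≤ C r^48` (`exp(-(1/(4r²))) ≤ exp(-(1/(8r²)))`, `w ≤ 5 c0`), so with `l = r⁸` the third term is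
`≤ C r^40`;  `(4K/l) N ≤ 256 C1² N³ / r⁸ ≤ 256 C1² (|Ca| r^16)³ / r⁸ = C r^40`;  `∫ et'² ≤ ne2 et`.
(`Sit.N1 : N ≤ Ca r^16` and `N ≥ 0`, so `N ≤ |Ca| r^16`.)
-/

open MeasureTheory Filter Topology Set
open scoped ContDiff

namespace H37KC

open H98KB H68KC

theorem AH_c0 : 1 ≤ c0 := by
  unfold c0 cnu
  have h : 0 ≤ 16 * (∫ y, (deriv (Qf 4) y) ^ 2) / Iq ^ 2 :=
    div_nonneg (mul_nonneg (by norm_num) (integral_nonneg fun y => sq_nonneg _)) (sq_nonneg _)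
  linarith

theorem AH_sq {p q : ℝ} {f : ℝ → ℝ} (hp : 0 < p) (hq : 0 < q) (hf : Cl p q f) :
    Integrable (fun y => (f y) ^ 2) := by
  have h := Cl_int (Cl_mul hf hf) (by linarith) (by linarith)
  refine h.congr (Eventually.of_forall fun y => ?_)
  change f y * f y = f y ^ 2
  ring

/-- the integrated inequality -/
theorem AH_int {p q s w m l κ T K : ℝ} {W et : ℝ → ℝ} (hp : 0 < p) (hq : 0 < q) (hW : Cl p q W)
    (he : Cl p q et) (hκ : κ = w / (8 * s))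
    (hpt : ∀ y, w * y * deriv (Ph s) y * (deriv W y) ^ 2 - (1 + m) * (deriv (Ph s) y * (deriv W y) ^ 2)
      - 3 * (deriv (Ph s) y * (deriv (deriv W) y) ^ 2)
      + deriv (deriv (deriv (Ph s))) y * (deriv W y) ^ 2 - 2 * l * (Ph s y * (deriv (deriv W) y) ^ 2)
      + l * (deriv (deriv (Ph s)) y * (deriv W y) ^ 2)
      + 2 * ((deriv (Ph s) y * deriv W y + Ph s y * deriv (deriv W) y) * ((W y) ^ 4 * deriv W y))
      + 2 * ((deriv (Ph s) y * deriv W y + Ph s y * deriv (deriv W) y) * deriv et y)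
      - κ * (deriv (Ph s) y * (deriv W y) ^ 2) ≤
      -l * (Ph s y * (deriv (deriv W) y) ^ 2) + T * (deriv W y) ^ 2
        + 4 * K / l * (Ph s y * (deriv W y) ^ 2) + 8 / l * (deriv et y) ^ 2) :
    DNn s w W (Zz w m l W et) ≤ -2 * w * Nn s W - l * (∫ y, Ph s y * (deriv (deriv W) y) ^ 2)
      + T * (∫ y, (deriv W y) ^ 2) + 4 * K / l * Nn s W + 8 / l * (∫ y, (deriv et y) ^ 2) := by
  have hΦ : Cl 0 0 (Ph s) := Cl_mono (P1_Cl s) le_rfl (by norm_num)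
  obtain ⟨i1, i2, i3, i4⟩ := I1_int hp hq hW hΦ
  have iF := I1_int' (w := w) (m := m) (l := l) hp hq hW he hΦ
  have i5 := AH_sq hp hq (Cl_der he)
  unfold DNn
  rw [I1 hp hq hW he hΦ, ← hκ, ← integral_const_mul, ← integral_sub iF (i3.const_mul κ)]
  have j1 : Integrable (fun y => (-2 * w) * (Ph s y * (deriv W y) ^ 2) +
      (-l) * (Ph s y * (deriv (deriv W) y) ^ 2)) := (i1.const_mul _).add (i2.const_mul _)
  have j2 : Integrable (fun y => ((-2 * w) * (Ph s y * (deriv W y) ^ 2) +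
      (-l) * (Ph s y * (deriv (deriv W) y) ^ 2)) + T * (deriv W y) ^ 2) := j1.add (i4.const_mul _)
  have j3 : Integrable (fun y => (((-2 * w) * (Ph s y * (deriv W y) ^ 2) +
      (-l) * (Ph s y * (deriv (deriv W) y) ^ 2)) + T * (deriv W y) ^ 2) +
      (4 * K / l) * (Ph s y * (deriv W y) ^ 2)) := j2.add (i1.const_mul _)
  have j4 : Integrable (fun y => ((((-2 * w) * (Ph s y * (deriv W y) ^ 2) +
      (-l) * (Ph s y * (deriv (deriv W) y) ^ 2)) + T * (deriv W y) ^ 2) +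
      (4 * K / l) * (Ph s y * (deriv W y) ^ 2)) + (8 / l) * (deriv et y) ^ 2) :=
    j3.add (i5.const_mul _)
  have hR : (∫ y, (((((-2 * w) * (Ph s y * (deriv W y) ^ 2) +
      (-l) * (Ph s y * (deriv (deriv W) y) ^ 2)) + T * (deriv W y) ^ 2) +
      (4 * K / l) * (Ph s y * (deriv W y) ^ 2)) + (8 / l) * (deriv et y) ^ 2)) =
      -2 * w * Nn s W - l * (∫ y, Ph s y * (deriv (deriv W) y) ^ 2)
      + T * (∫ y, (deriv W y) ^ 2) + 4 * K / l * Nn s W + 8 / l * (∫ y, (deriv et y) ^ 2) := by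
    rw [integral_add j3 (i5.const_mul _), integral_add j2 (i1.const_mul _),
      integral_add j1 (i4.const_mul _), integral_add (i1.const_mul _) (i2.const_mul _),
      integral_const_mul, integral_const_mul, integral_const_mul, integral_const_mul,
      integral_const_mul]
    unfold Nn
    ring
  rw [← hR]
  refine integral_mono (iF.sub (i3.const_mul κ)) j4 ?_
  intro y
  have h := hpt y
  simp only
  linarith

theorem AH_e {r : ℝ} (hr : 0 < r) {y0 : ℝ} : Real.exp ((y0 - 1 / (2 * r ^ 2)) / 4) =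
    Real.exp (-(1 / (8 * r ^ 2))) * Real.exp (y0 / 4) := by
  rw [← Real.exp_add]
  congr 1
  field_simp
  ring

theorem AHt {P E : ℝ → ℝ} {γ B c : ℝ} (hc1 : c ≤ 1 / 10) (Ca : ℝ) :
    ∃ C r1 : ℝ, 0 < C ∧ 0 < r1 ∧ ∀ r w m W et, r ≤ r1 → |m| ≤ 1 / 4 →
    Sit P E γ B c Ca r w m W et →
    DNn (r ^ 2) w W (ze w m (r ^ 8) W et) ≤
      -2 * w * Nn (r ^ 2) W - r ^ 8 * (∫ y, Ph (r ^ 2) y * (deriv (deriv W) y) ^ 2)
        + C * r ^ 40 + C / r ^ 8 * ne2 et := by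
  obtain ⟨y0, hy0, hF⟩ := F1_y0
  obtain ⟨C1, hC1, hI⟩ := F1_int
  obtain ⟨C2, hC2, hexp⟩ := T1_exp
  have hc0 := AH_c0
  set D : ℝ := C2 * Real.exp (y0 / 4) with hD
  have hD0 : 0 < D := by positivity
  have hCa := abs_nonneg Ca
  refine ⟨(20 * c0 * C2 + 26285 * D) * C1 + 256 * C1 ^ 2 * |Ca| ^ 3 + 8,
    min (1 / 2) (min (1 / (2 * y0)) (1 / (160 * c0))), by positivity,
    lt_min (by norm_num) (lt_min (by positivity) (by positivity)), ?_⟩
  intro r w m W et hr hm S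
  have hr0 := S.r0
  have hr1 : r ≤ 1 / 2 := hr.trans (min_le_left _ _)
  have hr2 : r ≤ 1 / (2 * y0) := hr.trans ((min_le_right _ _).trans (min_le_left _ _))
  have hr3 : r ≤ 1 / (160 * c0) := hr.trans ((min_le_right _ _).trans (min_le_right _ _))
  have hrr : r ^ 2 ≤ r := by nlinarith
  have hs0 : 0 < r ^ 2 := by positivity
  have hy1 : y0 ≤ 1 / (2 * r ^ 2) := by
    rw [le_div_iff₀ (by positivity)]
    have h := (le_div_iff₀ (by positivity : 0 < 2 * y0)).1 hr2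
    nlinarith
  have hws : 32 * w ≤ r ^ 2 := by
    have h := (le_div_iff₀ (by positivity : 0 < 160 * c0)).1 hr3
    have h1 : 160 * c0 * r ^ 2 ≤ 1 := by nlinarith
    have h2 := S.w1
    have h3 : 32 * (5 * c0 * r ^ 4) = (160 * c0 * r ^ 2) * r ^ 2 := by ring
    have h4 : (160 * c0 * r ^ 2) * r ^ 2 ≤ 1 * r ^ 2 := mul_le_mul_of_nonneg_right h1 hs0.le
    linarith
  obtain ⟨p, q, hp, hp2, hq, hq2, hWQ, he⟩ := S.cl
  have hW := Cl_W hp2 hq2 hWQ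
  obtain ⟨hI1, hI2⟩ := hI p q W hp hp2 hq hq2 hWQ S.X1 S.L1
  rw [ze_eq hW]
  have hN0 := F2_nonneg (r ^ 2) W
  set N := Nn (r ^ 2) W with hN
  set τ : ℝ := Real.exp (-(1 / (8 * r ^ 2))) * Real.exp (y0 / 4) with hτ
  set τ' : ℝ := 4 * w * Real.exp (-(1 / (4 * r ^ 2))) with hτ'
  have hτ0 : 0 < τ := by positivity
  have hl0 : 0 < r ^ 8 := by positivity
  have hl1 : r ^ 8 ≤ 1 / 16 := by
    have h := pow_le_pow_left₀ hr0.le hr1 8
    norm_num at h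
    linarith
  have hmain := AH_int (s := r ^ 2) (w := w) (m := m) (l := r ^ 8) (κ := w / (8 * r ^ 2))
    (T := τ' + 41 * τ + 26244 * τ / r ^ 8) (K := (8 * C1 * N) ^ 2) hp hq hW he rfl (by
      intro y
      refine I2 (P1_pos _ y).le (P1_d1_nonneg _ y) (P1_d1_le _ y) (P1_lt _ y).le (P1_d2 _ y)
        (P1_d3 _ y) hl0 hl1 hm (div_nonneg S.w0 (by positivity)) hτ0.le (sq_nonneg _)
        (P1_tr hs0 S.w0 hws y) ?_
      have hsm : ∀ y, y0 ≤ y → (W y) ^ 2 ≤ 1 / 25 := by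
        intro y hy
        have h := hF c W hc1 S.sup y hy
        have h2 := sq_abs (W y)
        have h3 := abs_nonneg (W y)
        nlinarith
      rcases le_total y y0 with hy | hy
      · left
        constructor
        · have h := P1_lo (r ^ 2) y
          refine h.trans ?_
          rw [hτ, ← AH_e hr0, Real.exp_le_exp]
          linarith
        · have h := F1_W3 hc1 S.sup y
          have h2 := sq_abs (W y)
          have h3 := abs_nonneg (W y)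
          nlinarith
      · right
        rcases le_total y (1 / (2 * r ^ 2)) with hy2 | hy2
        · exact Or.inl ⟨P1_eight hy2, hsm y hy⟩
        · refine Or.inr ⟨hsm y hy, ?_⟩
          have h := F2_pt hp hq hW hy2
          have h2 : (W y) ^ 4 ≤ 8 * C1 * N := by
            refine h.trans ?_
            have h5 : 8 * (∫ z, (W z) ^ 2) ≤ 8 * C1 := by linarith
            exact mul_le_mul_of_nonneg_right h5 hN0
          have h3 : (W y) ^ 8 = ((W y) ^ 4) ^ 2 := by ring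
          rw [h3]
          exact pow_le_pow_left₀ (by positivity) h2 2)
  -- the constants
  have hr1' : r ≤ 1 := by linarith
  have hr48 : r ^ 48 ≤ r ^ 40 := pow_le_pow_of_le_one hr0.le hr1' (by norm_num)
  have hr40 : 0 < r ^ 40 := by positivity
  have hτb : τ ≤ D * r ^ 48 := by
    have h := mul_le_mul_of_nonneg_right (hexp r hr0) (Real.exp_pos (y0 / 4)).le
    rw [hτ, hD]
    linarith
  have hτ'b : τ' ≤ 20 * c0 * C2 * r ^ 48 := by
    have h1 : Real.exp (-(1 / (4 * r ^ 2))) ≤ Real.exp (-(1 / (8 * r ^ 2))) := by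
      rw [Real.exp_le_exp, neg_le_neg_iff]
      exact one_div_le_one_div_of_le (by positivity) (by linarith)
    have h2 := h1.trans (hexp r hr0)
    have h3 : w ≤ 5 * c0 := by
      have h4 : r ^ 4 ≤ 1 := pow_le_one₀ hr0.le hr1'
      have h5 := S.w1
      have h6 : 5 * c0 * r ^ 4 ≤ 5 * c0 * 1 := mul_le_mul_of_nonneg_left h4 (by linarith)
      linarith
    have h4 : 4 * w * Real.exp (-(1 / (4 * r ^ 2))) ≤ (4 * (5 * c0)) * (C2 * r ^ 48) :=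
      mul_le_mul (by linarith) h2 (Real.exp_pos _).le (by linarith)
    rw [hτ']
    linarith
  have hτl : τ / r ^ 8 ≤ D * r ^ 40 := by
    rw [div_le_iff₀ hl0]
    have : D * r ^ 40 * r ^ 8 = D * r ^ 48 := by ring
    rw [this]
    exact hτb
  have hX0 : 0 ≤ ∫ y, (deriv W y) ^ 2 := integral_nonneg fun y => sq_nonneg _
  have hT0 : 0 ≤ τ' + 41 * τ + 26244 * τ / r ^ 8 := by
    have h1 : 0 ≤ τ' := by
      rw [hτ']
      have := S.w0
      positivity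
    have h2 : 0 ≤ 26244 * τ / r ^ 8 := by positivity
    linarith
  have hT : τ' + 41 * τ + 26244 * τ / r ^ 8 ≤ (20 * c0 * C2 + 26285 * D) * r ^ 40 := by
    have h1 : 26244 * τ / r ^ 8 = 26244 * (τ / r ^ 8) := by ring
    have h2 : D * r ^ 48 ≤ D * r ^ 40 := mul_le_mul_of_nonneg_left hr48 hD0.le
    have h3 : 20 * c0 * C2 * r ^ 48 ≤ 20 * c0 * C2 * r ^ 40 :=
      mul_le_mul_of_nonneg_left hr48 (by positivity)
    rw [h1]
    linarith
  have hTT : (τ' + 41 * τ + 26244 * τ / r ^ 8) * (∫ y, (deriv W y) ^ 2) ≤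
      ((20 * c0 * C2 + 26285 * D) * r ^ 40) * C1 :=
    mul_le_mul hT hI1 hX0 (by positivity)
  have hNb : N ≤ |Ca| * r ^ 16 := by
    refine S.N1.trans ?_
    exact mul_le_mul_of_nonneg_right (le_abs_self Ca) (by positivity)
  have hK : 4 * (8 * C1 * N) ^ 2 / r ^ 8 * N ≤ 256 * C1 ^ 2 * |Ca| ^ 3 * r ^ 40 := by
    have h1 : N ^ 3 ≤ (|Ca| * r ^ 16) ^ 3 := pow_le_pow_left₀ hN0 hNb 3
    have h2 : 4 * (8 * C1 * N) ^ 2 / r ^ 8 * N = 256 * C1 ^ 2 * N ^ 3 / r ^ 8 := by ring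
    rw [h2, div_le_iff₀ hl0]
    have h3 : 256 * C1 ^ 2 * |Ca| ^ 3 * r ^ 40 * r ^ 8 = 256 * C1 ^ 2 * (|Ca| * r ^ 16) ^ 3 := by
      ring
    rw [h3]
    exact mul_le_mul_of_nonneg_left h1 (by positivity)
  have hne : (∫ y, (deriv et y) ^ 2) ≤ ne2 et := by
    unfold ne2
    refine integral_mono (AH_sq hp hq (Cl_der he)) ((AH_sq hp hq he).add (AH_sq hp hq (Cl_der he))) ?_
    intro y
    change (deriv et y) ^ 2 ≤ (et y) ^ 2 + (deriv et y) ^ 2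
    have := sq_nonneg (et y)
    linarith
  have hne0 : 0 ≤ ne2 et := integral_nonneg fun y => by positivity
  have hlast : 8 / r ^ 8 * (∫ y, (deriv et y) ^ 2) ≤
      ((20 * c0 * C2 + 26285 * D) * C1 + 256 * C1 ^ 2 * |Ca| ^ 3 + 8) / r ^ 8 * ne2 et := by
    refine mul_le_mul ?_ hne (integral_nonneg fun y => sq_nonneg _) (by positivity)
    refine div_le_div_of_nonneg_right ?_ hl0.le
    have h1 : 0 ≤ (20 * c0 * C2 + 26285 * D) * C1 := by positivity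
    have h2 : 0 ≤ 256 * C1 ^ 2 * |Ca| ^ 3 := by positivity
    linarith
  have h8 : 0 ≤ 8 * r ^ 40 := by positivity
  have hfin : ((20 * c0 * C2 + 26285 * D) * r ^ 40) * C1 + 256 * C1 ^ 2 * |Ca| ^ 3 * r ^ 40 ≤
      ((20 * c0 * C2 + 26285 * D) * C1 + 256 * C1 ^ 2 * |Ca| ^ 3 + 8) * r ^ 40 := by
    linarith
  linarith

end H37KC

end S_H37_KC_AH

section S_H37_KC_Q1

/-!
# Row Q1 of MP_95be7d_K4B (60 lines)

The weight `pw ξ = 630 t⁴`, `t = (ξ-1)(2-ξ)`, `t' = 3-2ξ`, `t'' = -2`: `pw' = 2520 t³ t' = pw1`, `pw'' = 7560 t² t'² - 5040 t³ = pw2`.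
On `[1,2]`: `0 ≤ t ≤ 1/4`, `|t'| ≤ 1`.   `∫_1^2 pw = 1`: antiderivative in `u = ξ - 1`: `630 (u^5/5 - 4u^6/6 + 6u^7/7 - 4u^8/8 + u^9/9)`
(`intervalIntegral.integral_eq_sub_of_hasDerivAt`).
-/

open MeasureTheory Filter Topology Set
open scoped ContDiff

namespace H37KC

open H98KB H68KC

noncomputable def pw1 (ξ : ℝ) : ℝ := 2520 * ((ξ - 1) * (2 - ξ)) ^ 3 * (3 - 2 * ξ)

noncomputable def pw2 (ξ : ℝ) : ℝ :=
  7560 * ((ξ - 1) * (2 - ξ)) ^ 2 * (3 - 2 * ξ) ^ 2 - 5040 * ((ξ - 1) * (2 - ξ)) ^ 3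

theorem Q1_hd (ξ : ℝ) : HasDerivAt pw (pw1 ξ) ξ := by
  have a1 : HasDerivAt (fun ξ : ℝ => ξ - 1) 1 ξ := (hasDerivAt_id ξ).sub_const 1
  have a2 : HasDerivAt (fun ξ : ℝ => 2 - ξ) (-1) ξ := (hasDerivAt_id ξ).const_sub 2
  have h := ((a1.pow 4).const_mul 630).mul (a2.pow 4)
  refine h.congr_deriv ?_
  unfold pw1
  simp only [Pi.pow_apply]
  push_cast
  ring

theorem Q1_hd1 (ξ : ℝ) : HasDerivAt pw1 (pw2 ξ) ξ := by
  have a1 : HasDerivAt (fun ξ : ℝ => (ξ - 1) * (2 - ξ)) (1 * (2 - ξ) + (ξ - 1) * -1) ξ :=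
    ((hasDerivAt_id ξ).sub_const 1).mul ((hasDerivAt_id ξ).const_sub 2)
  have a2 : HasDerivAt (fun ξ : ℝ => 3 - 2 * ξ) (-(2 * 1)) ξ :=
    ((hasDerivAt_id ξ).const_mul 2).const_sub 3
  have h := ((a1.pow 3).const_mul 2520).mul a2
  refine h.congr_deriv ?_
  unfold pw2
  simp only [Pi.pow_apply]
  push_cast
  ring

theorem Q1_cont : Continuous pw ∧ Continuous pw1 ∧ Continuous pw2 := by
  refine ⟨?_, ?_, ?_⟩
  · exact continuous_iff_continuousAt.2 fun x => (Q1_hd x).continuousAt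
  · exact continuous_iff_continuousAt.2 fun x => (Q1_hd1 x).continuousAt
  · unfold pw2
    fun_prop

theorem Q1_end : pw 1 = 0 ∧ pw 2 = 0 ∧ pw1 1 = 0 ∧ pw1 2 = 0 := by
  unfold pw pw1
  norm_num

theorem Q1_bd {ξ : ℝ} (h1 : 1 ≤ ξ) (h2 : ξ ≤ 2) : 0 ≤ pw ξ ∧ pw ξ ≤ 3 ∧ |pw1 ξ| ≤ 40 ∧ |pw2 ξ| ≤ 600 := by
  obtain ⟨t, ht⟩ : ∃ t : ℝ, t = (ξ - 1) * (2 - ξ) := ⟨_, rfl⟩
  obtain ⟨d, hd⟩ : ∃ d : ℝ, d = 3 - 2 * ξ := ⟨_, rfl⟩
  have t0 : 0 ≤ t := by
    rw [ht]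
    exact mul_nonneg (by linarith) (by linarith)
  have t1 : t ≤ 1 / 4 := by
    rw [ht]
    nlinarith [sq_nonneg (ξ - 3 / 2)]
  have d1 : |d| ≤ 1 := by
    rw [hd, abs_le]
    constructor <;> linarith
  have d2 : d ^ 2 ≤ 1 := by
    rw [← sq_abs]
    exact pow_le_one₀ (abs_nonneg _) d1
  have d20 : 0 ≤ d ^ 2 := sq_nonneg d
  have e2 : t ^ 2 ≤ (1 / 4) ^ 2 := pow_le_pow_left₀ t0 t1 2
  have e3 : t ^ 3 ≤ (1 / 4) ^ 3 := pow_le_pow_left₀ t0 t1 3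
  have e4 : t ^ 4 ≤ (1 / 4) ^ 4 := pow_le_pow_left₀ t0 t1 4
  have f2 : 0 ≤ t ^ 2 := by positivity
  have f3 : 0 ≤ t ^ 3 := by positivity
  have f4 : 0 ≤ t ^ 4 := by positivity
  have p0 : pw ξ = 630 * t ^ 4 := by
    unfold pw
    rw [ht]
    ring
  have p1 : pw1 ξ = 2520 * t ^ 3 * d := by
    unfold pw1
    rw [ht, hd]
  have p2 : pw2 ξ = 7560 * (t ^ 2 * d ^ 2) - 5040 * t ^ 3 := by
    unfold pw2
    rw [ht, hd]
    ring
  refine ⟨?_, ?_, ?_, ?_⟩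
  · rw [p0]
    positivity
  · rw [p0]
    norm_num at e4
    linarith
  · rw [p1, abs_mul, abs_of_nonneg (by positivity : (0 : ℝ) ≤ 2520 * t ^ 3)]
    have : 2520 * t ^ 3 * |d| ≤ 2520 * t ^ 3 * 1 := mul_le_mul_of_nonneg_left d1 (by positivity)
    norm_num at e3
    linarith
  · rw [p2, abs_le]
    have g1 : t ^ 2 * d ^ 2 ≤ (1 / 4) ^ 2 * 1 := mul_le_mul e2 d2 d20 (by norm_num)
    have g2 : 0 ≤ t ^ 2 * d ^ 2 := mul_nonneg f2 d20
    norm_num at g1 e3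
    constructor <;> linarith

theorem Q1_int : ∫ ξ in (1:ℝ)..2, pw ξ = 1 := by
  have hF : ∀ ξ ∈ uIcc (1 : ℝ) 2, HasDerivAt (fun ξ : ℝ => 630 * ((ξ - 1) ^ 5 / 5 - 4 * (ξ - 1) ^ 6 / 6 +
      6 * (ξ - 1) ^ 7 / 7 - 4 * (ξ - 1) ^ 8 / 8 + (ξ - 1) ^ 9 / 9)) (pw ξ) ξ := by
    intro ξ _
    have a1 : HasDerivAt (fun ξ : ℝ => ξ - 1) 1 ξ := (hasDerivAt_id ξ).sub_const 1
    have h := ((((((a1.pow 5).div_const 5).sub (((a1.pow 6).const_mul 4).div_const 6)).add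
      (((a1.pow 7).const_mul 6).div_const 7)).sub (((a1.pow 8).const_mul 4).div_const 8)).add
      ((a1.pow 9).div_const 9)).const_mul 630
    refine h.congr_deriv ?_
    unfold pw
    push_cast
    ring
  rw [intervalIntegral.integral_eq_sub_of_hasDerivAt hF (Q1_cont.1.intervalIntegrable 1 2)]
  norm_num

end H37KC

end S_H37_KC_Q1

section S_H37_KC_Q2

/-!
# Row Q2 of MP_95be7d_K4B (80 lines)

`alm = alD + (w/2) alf`, all integrals over `[1,2]` of continuous functions (combine them into one by `intervalIntegral.integral_add`,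
`integral_const_mul`).  The integrand of the left side is, at `y = ξ/s`,
`pw (-(3/4) w y W' + (1+m) W' - W''' - W⁴ W' + l W'' - et')`  (the terms `-(1/2) w W` and `+(1/2) w W` cancel, `-w y W' + (1/4) w y W'`).
The difference to the right side is `deriv H ξ` with
`H ξ = l s pw ξ W'(ξ/s) - s pw ξ W''(ξ/s) + s² pw1 ξ W'(ξ/s) - s pw ξ et(ξ/s)`, and `H 1 = H 2 = 0` (`Q1_end`): use
`intervalIntegral.integral_eq_sub_of_hasDerivAt` (chain rule: derivative of `f(ξ/s)` is `f'(ξ/s)/s`).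
-/

open MeasureTheory Filter Topology Set
open scoped ContDiff

namespace H37KC

open H98KB H68KC

theorem Q2 {p q s w m l : ℝ} {W et : ℝ → ℝ} (hs : 0 < s) (hW : Cl p q W) (he : Cl p q et) :
    alm s w W (Zz w m l W et) = ∫ ξ in (1:ℝ)..2,
      (((-(3 / 4) * w * (ξ / s) + (1 + m) - (W (ξ / s)) ^ 4) * pw ξ - s ^ 2 * pw2 ξ
          - l * s * pw1 ξ) * deriv W (ξ / s)
        + s * pw1 ξ * et (ξ / s)) := by
  have hs0 : s ≠ 0 := hs.ne'
  obtain ⟨cp, cp1, cp2⟩ := Q1_cont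
  have hW1 := Cl_der hW
  have hW2 := Cl_der hW1
  have hW3 := Cl_der hW2
  have he1 := Cl_der he
  have cdiv : Continuous fun ξ : ℝ => ξ / s := continuous_id.div_const s
  have cW := Cl_cont hW
  have cW1 := Cl_cont hW1
  have cW2 := Cl_cont hW2
  have cW3 := Cl_cont hW3
  have cet := Cl_cont he
  have cet1 := Cl_cont he1
  have c0 : Continuous fun ξ : ℝ => W (ξ / s) := (Cl_cont hW).comp cdiv
  have c1 : Continuous fun ξ : ℝ => deriv W (ξ / s) := (Cl_cont hW1).comp cdiv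
  have c2 : Continuous fun ξ : ℝ => deriv (deriv W) (ξ / s) := (Cl_cont hW2).comp cdiv
  have c3 : Continuous fun ξ : ℝ => deriv (deriv (deriv W)) (ξ / s) := (Cl_cont hW3).comp cdiv
  have ce : Continuous fun ξ : ℝ => et (ξ / s) := (Cl_cont he).comp cdiv
  have ce1 : Continuous fun ξ : ℝ => deriv et (ξ / s) := (Cl_cont he1).comp cdiv
  have hdd : ∀ (f : ℝ → ℝ) {a b : ℝ}, Cl a b f → ∀ ξ : ℝ,
      HasDerivAt (fun ξ : ℝ => f (ξ / s)) (deriv f (ξ / s) / s) ξ := by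
    intro f a b hf ξ
    have h1 : HasDerivAt (fun ξ : ℝ => ξ / s) (1 / s) ξ := (hasDerivAt_id ξ).div_const s
    have h2 := (Cl_hd hf (ξ / s)).comp ξ h1
    have e : deriv f (ξ / s) * (1 / s) = deriv f (ξ / s) / s := by ring
    rw [e] at h2
    exact h2
  -- the total derivative
  have hH : ∀ ξ : ℝ, HasDerivAt (fun ξ : ℝ => l * s * (pw ξ * deriv W (ξ / s))
      - s * (pw ξ * deriv (deriv W) (ξ / s)) + s ^ 2 * (pw1 ξ * deriv W (ξ / s))
      - s * (pw ξ * et (ξ / s)))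
      (pw ξ * (-deriv (deriv (deriv W)) (ξ / s) + l * deriv (deriv W) (ξ / s) - deriv et (ξ / s))
        + s ^ 2 * pw2 ξ * deriv W (ξ / s) + l * s * pw1 ξ * deriv W (ξ / s)
        - s * pw1 ξ * et (ξ / s)) ξ := by
    intro ξ
    have a1 := ((Q1_hd ξ).mul (hdd _ hW1 ξ)).const_mul (l * s)
    have a2 := ((Q1_hd ξ).mul (hdd _ hW2 ξ)).const_mul s
    have a3 := ((Q1_hd1 ξ).mul (hdd _ hW1 ξ)).const_mul (s ^ 2)
    have a4 := ((Q1_hd ξ).mul (hdd _ he ξ)).const_mul s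
    have a5 := ((a1.sub a2).add a3).sub a4
    refine a5.congr_deriv ?_
    field_simp
    ring
  have hI : (∫ ξ in (1:ℝ)..2, (pw ξ * (-deriv (deriv (deriv W)) (ξ / s) + l * deriv (deriv W) (ξ / s)
        - deriv et (ξ / s))
        + s ^ 2 * pw2 ξ * deriv W (ξ / s) + l * s * pw1 ξ * deriv W (ξ / s)
        - s * pw1 ξ * et (ξ / s))) = 0 := by
    rw [intervalIntegral.integral_eq_sub_of_hasDerivAt (fun ξ _ => hH ξ)
      (Continuous.intervalIntegrable (by fun_prop) _ _)]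
    obtain ⟨e1, e2, e3, e4⟩ := Q1_end
    simp only [e1, e2, e3, e4]
    ring
  have iR : IntervalIntegrable (fun ξ : ℝ =>
      (((-(3 / 4) * w * (ξ / s) + (1 + m) - (W (ξ / s)) ^ 4) * pw ξ - s ^ 2 * pw2 ξ
          - l * s * pw1 ξ) * deriv W (ξ / s)
        + s * pw1 ξ * et (ξ / s))) volume 1 2 := Continuous.intervalIntegrable (by fun_prop) _ _
  have iH : IntervalIntegrable (fun ξ : ℝ =>
      (pw ξ * (-deriv (deriv (deriv W)) (ξ / s) + l * deriv (deriv W) (ξ / s)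
        - deriv et (ξ / s))
        + s ^ 2 * pw2 ξ * deriv W (ξ / s) + l * s * pw1 ξ * deriv W (ξ / s)
        - s * pw1 ξ * et (ξ / s))) volume 1 2 := Continuous.intervalIntegrable (by fun_prop) _ _
  have iA : IntervalIntegrable (fun ξ : ℝ =>
      (Zz w m l W et (ξ / s) + 1 / 4 * w * (ξ / s) * deriv W (ξ / s)) * pw ξ) volume 1 2 := by
    apply Continuous.intervalIntegrable
    unfold Zz
    fun_prop
  have iB : IntervalIntegrable (fun ξ : ℝ => W (ξ / s) * pw ξ) volume 1 2 :=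
    Continuous.intervalIntegrable (by fun_prop) _ _
  rw [← add_zero (∫ ξ in (1:ℝ)..2, (((-(3 / 4) * w * (ξ / s) + (1 + m) - (W (ξ / s)) ^ 4) * pw ξ
      - s ^ 2 * pw2 ξ - l * s * pw1 ξ) * deriv W (ξ / s) + s * pw1 ξ * et (ξ / s))), ← hI,
    ← intervalIntegral.integral_add iR iH]
  unfold alm alD alf
  rw [← intervalIntegral.integral_const_mul, ← intervalIntegral.integral_add iA (iB.const_mul _)]
  apply intervalIntegral.integral_congr
  intro ξ _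
  simp only [Zz]
  ring

end H37KC

end S_H37_KC_Q2

section S_H37_KC_Q3

/-!
# Row Q3 of MP_95be7d_K4B (50 lines)

`∫_1^2 |f(ξ/s)| dξ ≤ (∫_1^2 f(ξ/s)² dξ)^{1/2}` (Cauchy-Schwarz with `1` on an interval of length one), and
`∫_1^2 f(ξ/s)² dξ = s ∫_{1/s}^{2/s} f²` (`intervalIntegral.integral_comp_div`) `≤ s ∫_{Ici (1/s)} f²`.
-/

open MeasureTheory Filter Topology Set
open scoped ContDiff

namespace H37KC

open H98KB H68KC

theorem Q3 {p q s : ℝ} {f : ℝ → ℝ} (hp : 0 < p) (hq : 0 < q) (hs : 0 < s) (hf : Cl p q f) :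
    ∫ ξ in (1:ℝ)..2, |f (ξ / s)| ≤ √(s * ∫ y in Ici (1 / s), (f y) ^ 2) := by
  have hfc : Continuous f := Cl_cont hf
  have hgc : Continuous fun ξ : ℝ => f (ξ / s) := hfc.comp (continuous_id.div_const s)
  have hg1 : IntervalIntegrable (fun ξ : ℝ => |f (ξ / s)|) volume 1 2 :=
    (hgc.abs).intervalIntegrable _ _
  have hg2 : IntervalIntegrable (fun ξ : ℝ => (f (ξ / s)) ^ 2) volume 1 2 :=
    (hgc.pow 2).intervalIntegrable _ _
  set c := ∫ ξ in (1:ℝ)..2, |f (ξ / s)| with hc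
  have h1 : 0 ≤ ∫ ξ in (1:ℝ)..2, (|f (ξ / s)| - c) ^ 2 :=
    intervalIntegral.integral_nonneg (by norm_num) fun ξ _ => sq_nonneg _
  have h2 : (∫ ξ in (1:ℝ)..2, (|f (ξ / s)| - c) ^ 2) =
      (∫ ξ in (1:ℝ)..2, (f (ξ / s)) ^ 2) - c ^ 2 := by
    have e1 : (fun ξ : ℝ => (|f (ξ / s)| - c) ^ 2) =
        fun ξ => (f (ξ / s)) ^ 2 - (2 * c * |f (ξ / s)| - c ^ 2) := by
      funext ξ
      have : |f (ξ / s)| ^ 2 = (f (ξ / s)) ^ 2 := sq_abs _
      nlinarith [this]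
    rw [e1, intervalIntegral.integral_sub hg2
      ((hg1.const_mul (2 * c)).sub intervalIntegrable_const),
      intervalIntegral.integral_sub (hg1.const_mul (2 * c)) intervalIntegrable_const,
      intervalIntegral.integral_const_mul, intervalIntegral.integral_const, ← hc]
    simp only [smul_eq_mul]
    ring
  have h3 : (∫ ξ in (1:ℝ)..2, (f (ξ / s)) ^ 2) = s * ∫ y in (1 / s)..(2 / s), (f y) ^ 2 := by
    have := intervalIntegral.integral_comp_div (a := (1:ℝ)) (b := 2) (fun y => (f y) ^ 2) hs.ne'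
    rw [this]
    simp only [smul_eq_mul]
  have hbf : Integrable fun y => (f y) ^ 2 := by
    have h4 := Cl_mul hf hf
    have h5 := Cl_int h4 (by linarith) (by linarith)
    refine h5.congr (Eventually.of_forall fun y => ?_)
    simp only
    ring
  have h6 : (∫ y in (1 / s)..(2 / s), (f y) ^ 2) ≤ ∫ y in Ici (1 / s), (f y) ^ 2 := by
    rw [intervalIntegral.integral_of_le (by gcongr; norm_num)]
    exact setIntegral_mono_set hbf.integrableOn (Eventually.of_forall fun y => sq_nonneg _)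
      (HasSubset.Subset.eventuallyLE fun y hy => hy.1.le)
  have h7 : c ^ 2 ≤ s * ∫ y in Ici (1 / s), (f y) ^ 2 := by
    have := mul_le_mul_of_nonneg_left h6 hs.le
    linarith
  exact Real.le_sqrt_of_sq_le h7

end H37KC

end S_H37_KC_Q3

section S_H37_KC_AL

/-!
# Row AL of MP_95be7d_K4B (80 lines)

Assembly of `GoodB.AL`.  `s = r²`, `l = r⁸`.  `ze = Zz` (`ze_eq`, `Cl_W`), `Q2`.  For `r ≤ r1` (`r1 ≤ 1`, `10 c0 r1² ≤ 1`): `w ξ/s ≤ 2 w/s ≤ 10 c0 r² ≤ 1`,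
`|1+m| ≤ 2`, `W⁴ ≤ 81` (`F1_W3`), `0 ≤ pw ≤ 3`, `|pw1| ≤ 40`, `|pw2| ≤ 600`; hence
`|alm| ≤ C (∫_1^2 |W'(ξ/s)| dξ + ∫_1^2 |et(ξ/s)| dξ)` (`intervalIntegral.abs_integral_le_integral_abs`, mono).  By `Q3` and `F2_tail`
(`1/(2s) ≤ 1/s`): first `≤ √(s * 2 N) ≤ 2 r √N`; second `≤ √(s ∫ et²) ≤ √(ne2 et)` (`s ≤ 1`, `∫_{Ici} et² ≤ ∫ et² ≤ ne2 et`).
-/

open MeasureTheory Filter Topology Set
open scoped ContDiff

namespace H37KC

open H98KB H68KC

/-- pointwise bound of the coefficient -/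
theorem AL_coef {w s m l ξ V p1 p2 p3 c : ℝ} (hs : 0 < s) (hs1 : s ≤ 1) (hw : 0 ≤ w) (hws : 2 * w ≤ s)
    (hm : |m| ≤ 1 / 4) (hl : 0 ≤ l) (hl1 : l ≤ 1) (hξ1 : 1 ≤ ξ) (hξ2 : ξ ≤ 2) (hV : |V| ≤ 3)
    (hp0 : 0 ≤ p1) (hp1 : p1 ≤ 3) (hp2 : |p2| ≤ 40) (hp3 : |p3| ≤ 600) (hc : c =
      (-(3 / 4) * w * (ξ / s) + (1 + m) - V ^ 4) * p1 - s ^ 2 * p3 - l * s * p2) : |c| ≤ 889 := by
  have h1 : 0 ≤ w * (ξ / s) := by positivity
  have h2 : w * (ξ / s) ≤ 1 := by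
    rw [← mul_div_assoc, div_le_one hs]
    nlinarith
  have h3 : V ^ 4 ≤ 81 := by
    have : V ^ 4 = |V| ^ 4 := by rw [← abs_pow, abs_of_nonneg (by positivity)]
    rw [this]
    calc |V| ^ 4 ≤ 3 ^ 4 := pow_le_pow_left₀ (abs_nonneg _) hV 4
      _ = 81 := by norm_num
  have h4 : 0 ≤ V ^ 4 := by positivity
  obtain ⟨m1, m2⟩ := abs_le.1 hm
  have hA : |-(3 / 4) * w * (ξ / s) + (1 + m) - V ^ 4| ≤ 83 := by
    rw [abs_le]
    constructor <;> nlinarith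
  have hA1 : |(-(3 / 4) * w * (ξ / s) + (1 + m) - V ^ 4) * p1| ≤ 83 * 3 := by
    rw [abs_mul, abs_of_nonneg hp0]
    exact mul_le_mul hA hp1 hp0 (by norm_num)
  have hs2 : s ^ 2 ≤ 1 := pow_le_one₀ hs.le hs1
  have hB1 : |s ^ 2 * p3| ≤ 1 * 600 := by
    rw [abs_mul, abs_of_nonneg (by positivity : 0 ≤ s ^ 2)]
    exact mul_le_mul hs2 hp3 (abs_nonneg _) (by norm_num)
  have hls : l * s ≤ 1 := by nlinarith
  have hC1 : |l * s * p2| ≤ 1 * 40 := by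
    rw [abs_mul, abs_of_nonneg (by positivity : 0 ≤ l * s)]
    exact mul_le_mul hls hp2 (abs_nonneg _) (by norm_num)
  rw [hc]
  have t1 := abs_sub ((-(3 / 4) * w * (ξ / s) + (1 + m) - V ^ 4) * p1 - s ^ 2 * p3) (l * s * p2)
  have t2 := abs_sub ((-(3 / 4) * w * (ξ / s) + (1 + m) - V ^ 4) * p1) (s ^ 2 * p3)
  linarith

theorem AL_c0 : 1 ≤ c0 := by
  unfold c0 cnu
  have h : 0 ≤ ∫ y, (deriv (Qf 4) y) ^ 2 := integral_nonneg fun y => by positivity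
  have : 0 ≤ 16 * (∫ y, (deriv (Qf 4) y) ^ 2) / Iq ^ 2 := by positivity
  linarith

theorem ALt {P E : ℝ → ℝ} {γ B c : ℝ} (hc1 : c ≤ 1 / 10) :
    ∃ C r1 : ℝ, 0 < C ∧ 0 < r1 ∧ ∀ Ca r w m W et, r ≤ r1 → |m| ≤ 1 / 4 →
    Sit P E γ B c Ca r w m W et →
    |alm (r ^ 2) w W (ze w m (r ^ 8) W et)| ≤ C * (r * √(Nn (r ^ 2) W) + √(ne2 et)) := by
  have hc0 := AL_c0
  refine ⟨2000, min 1 (1 / (10 * c0)), by norm_num, by positivity, ?_⟩
  intro Ca r w m W et hr hm hS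
  have hr0 := hS.r0
  have hr1 : r ≤ 1 := hr.trans (min_le_left _ _)
  have hr2 : r ≤ 1 / (10 * c0) := hr.trans (min_le_right _ _)
  obtain ⟨p, q, hp, hp2, hq, hq2, hW', he⟩ := hS.cl
  have hW : Cl p q W := Cl_W hp2 hq2 hW'
  have hs : 0 < r ^ 2 := by positivity
  have hs1 : r ^ 2 ≤ 1 := pow_le_one₀ hr0.le hr1
  have hrc : 10 * c0 * r ≤ 1 := by
    rw [le_div_iff₀ (by positivity)] at hr2
    linarith
  have hws : 2 * w ≤ r ^ 2 := by
    have h1 := hS.w1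
    have h2 : 10 * c0 * r ^ 2 ≤ 1 := by nlinarith
    have h3 : 2 * w ≤ 10 * c0 * r ^ 2 * r ^ 2 := by nlinarith
    nlinarith
  have hl1 : r ^ 8 ≤ 1 := pow_le_one₀ hr0.le hr1
  have hl0 : 0 ≤ r ^ 8 := by positivity
  rw [ze_eq hW, Q2 hs hW he]
  obtain ⟨k1, k2, k3⟩ := Q1_cont
  have cW := Cl_cont hW
  have cW' := Cl_cont (Cl_der hW)
  have ce := Cl_cont he
  set s := r ^ 2 with hsdef
  have hdiv : Continuous fun ξ : ℝ => ξ / s := by fun_prop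
  have cW1 : Continuous fun ξ : ℝ => W (ξ / s) := cW.comp hdiv
  have cW2 : Continuous fun ξ : ℝ => deriv W (ξ / s) := cW'.comp hdiv
  have ce1 : Continuous fun ξ : ℝ => et (ξ / s) := ce.comp hdiv
  have cI : Continuous fun ξ : ℝ =>
      (((-(3 / 4) * w * (ξ / s) + (1 + m) - (W (ξ / s)) ^ 4) * pw ξ - s ^ 2 * pw2 ξ
          - r ^ 8 * s * pw1 ξ) * deriv W (ξ / s)
        + s * pw1 ξ * et (ξ / s)) := by
    fun_prop
  have cR : Continuous fun ξ : ℝ => 889 * |deriv W (ξ / s)| + 40 * |et (ξ / s)| := by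
    fun_prop
  have hI : |∫ ξ in (1:ℝ)..2,
      (((-(3 / 4) * w * (ξ / s) + (1 + m) - (W (ξ / s)) ^ 4) * pw ξ - s ^ 2 * pw2 ξ
          - r ^ 8 * s * pw1 ξ) * deriv W (ξ / s)
        + s * pw1 ξ * et (ξ / s))| ≤ ∫ ξ in (1:ℝ)..2, (889 * |deriv W (ξ / s)| + 40 * |et (ξ / s)|) := by
    refine (intervalIntegral.abs_integral_le_integral_abs (by norm_num)).trans ?_
    refine intervalIntegral.integral_mono_on (by norm_num) (cI.abs.intervalIntegrable _ _)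
      (cR.intervalIntegrable _ _) ?_
    intro ξ hξ
    obtain ⟨q0, q1, q2, q3⟩ := Q1_bd hξ.1 hξ.2
    have hco := AL_coef (c := (-(3 / 4) * w * (ξ / s) + (1 + m) - (W (ξ / s)) ^ 4) * pw ξ - s ^ 2 * pw2 ξ
          - r ^ 8 * s * pw1 ξ) hs hs1 hS.w0 hws hm hl0 hl1 hξ.1 hξ.2 (F1_W3 hc1 hS.sup (ξ / s)) q0 q1 q2 q3 rfl
    refine (abs_add_le _ _).trans ?_
    rw [abs_mul, abs_mul (s * pw1 ξ)]
    have h2 : |s * pw1 ξ| ≤ 40 := by
      rw [abs_mul, abs_of_pos hs]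
      nlinarith [abs_nonneg (pw1 ξ)]
    exact add_le_add (mul_le_mul_of_nonneg_right hco (abs_nonneg _))
      (mul_le_mul_of_nonneg_right h2 (abs_nonneg _))
  have hsplit : ∫ ξ in (1:ℝ)..2, (889 * |deriv W (ξ / s)| + 40 * |et (ξ / s)|) =
      889 * (∫ ξ in (1:ℝ)..2, |deriv W (ξ / s)|) + 40 * ∫ ξ in (1:ℝ)..2, |et (ξ / s)| := by
    have i1 : IntervalIntegrable (fun ξ : ℝ => 889 * |deriv W (ξ / s)|) volume 1 2 :=
      (continuous_const.mul cW2.abs).intervalIntegrable _ _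
    have i2 : IntervalIntegrable (fun ξ : ℝ => 40 * |et (ξ / s)|) volume 1 2 :=
      (continuous_const.mul ce1.abs).intervalIntegrable _ _
    rw [intervalIntegral.integral_add i1 i2, intervalIntegral.integral_const_mul,
      intervalIntegral.integral_const_mul]
  have hN : 0 ≤ Nn s W := F2_nonneg s W
  have h1 : ∫ ξ in (1:ℝ)..2, |deriv W (ξ / s)| ≤ 2 * (r * √(Nn s W)) := by
    refine (Q3 hp hq hs (Cl_der hW)).trans ?_
    have ha : 1 / (2 * s) ≤ 1 / s := by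
      apply one_div_le_one_div_of_le hs
      linarith
    have h2 := F2_tail hp hq (Cl_der hW) ha
    have h3 : s * ∫ y in Ici (1 / s), (deriv W y) ^ 2 ≤ (2 * (r * √(Nn s W))) ^ 2 := by
      have e : (2 * (r * √(Nn s W))) ^ 2 = 4 * (s * Nn s W) := by
        rw [mul_pow, mul_pow, Real.sq_sqrt hN]; ring
      rw [e]
      have h4 : s * ∫ y in Ici (1 / s), (deriv W y) ^ 2 ≤ s * (2 * Nn s W) :=
        mul_le_mul_of_nonneg_left h2 hs.le
      have h5 : 0 ≤ s * Nn s W := mul_nonneg hs.le hN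
      linarith
    exact (Real.sqrt_le_sqrt h3).trans (by rw [Real.sqrt_sq (by positivity)])
  have hie : Integrable fun y => (et y) ^ 2 := Cl_int (Cl_pow' he hp.le hq.le 2 (by norm_num)) hp hq
  have hie' : Integrable fun y => (deriv et y) ^ 2 :=
    Cl_int (Cl_pow' (Cl_der he) hp.le hq.le 2 (by norm_num)) hp hq
  have h2 : ∫ ξ in (1:ℝ)..2, |et (ξ / s)| ≤ √(ne2 et) := by
    refine (Q3 hp hq hs he).trans (Real.sqrt_le_sqrt ?_)
    have h3 : ∫ y in Ici (1 / s), (et y) ^ 2 ≤ ∫ y, (et y) ^ 2 :=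
      setIntegral_le_integral hie (Eventually.of_forall fun y => by positivity)
    have h4 : ∫ y, (et y) ^ 2 ≤ ne2 et := by
      unfold ne2
      exact integral_mono hie (hie.add hie') fun y => by
        show (et y) ^ 2 ≤ (et y) ^ 2 + (deriv et y) ^ 2
        have : 0 ≤ (deriv et y) ^ 2 := by positivity
        linarith
    have h5 : 0 ≤ ∫ y in Ici (1 / s), (et y) ^ 2 :=
      setIntegral_nonneg measurableSet_Ici fun y _ => by positivity
    nlinarith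
  have h0 : 0 ≤ r * √(Nn s W) := by positivity
  have h0' : 0 ≤ √(ne2 et) := Real.sqrt_nonneg _
  calc _ ≤ _ := hI
    _ = _ := hsplit
    _ ≤ 889 * (2 * (r * √(Nn s W))) + 40 * √(ne2 et) := by linarith
    _ ≤ 2000 * (r * √(Nn s W) + √(ne2 et)) := by linarith

end H37KC

end S_H37_KC_AL

section S_H37_KC_E1

/-!
# Row E1 of MP_95be7d_K4B (90 lines)

Energy identity.  The left integrand `F = W' Z' - f(W) Z` (`f(W) = W⁵/5`, `Z = Zz w m l W et`) minus the integrand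
`G = -2w (1/2 W'² - W⁶/30) - l W''² + l W⁴ W'² + W'' et' - W⁴ W' et` is `deriv H`, `g = -W'' - W⁵/5`:

`H = W' Z + w (W W'/2 + y W'²/2 + y W⁶/30) + (1+m) (-W'²/2 - W⁶/30) + g²/2 - l W⁵ W'/5 + W⁵ et/5`.

(`W' Z' - f(W) Z = (W' Z)' + g Z`, `Z = -wΛW + (1+m)W' + g' + l W'' - et'`.)  `Cl_int_eq`; the integral of `G` splits (`Cl_int`).
-/

open MeasureTheory Filter Topology Set
open scoped ContDiff

namespace H37KC

open H98KB H68KC

theorem Zz_Cl {p q w m l : ℝ} {W et : ℝ → ℝ} (hp : 0 < p) (hq : 0 < q) (hW : Cl p q W)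
    (he : Cl p q et) : Cl 0 0 (Zz w m l W et) := by
  have hc : 0 < min p q := lt_min hp hq
  have hcp : min p q ≤ p := min_le_left _ _
  have hcq : min p q ≤ q := min_le_right _ _
  have m0 : ∀ {f : ℝ → ℝ}, Cl p q f → Cl 0 0 f := fun h => Cl_mono h hp.le hq.le
  have d1 := Cl_der hW
  have d2 := Cl_der d1
  have d3 := Cl_der d2
  have e1 := Cl_der he
  have hy : Cl 0 0 (fun y => y * deriv W y) :=
    Cl_mono (Cl_mul (Cl_id hc) d1) (by linarith) (by linarith)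
  have h4 : Cl 0 0 (fun y => (W y) ^ 4 * deriv W y) := Cl_mul0 (Cl_pow0 (m0 hW) 4) (m0 d1)
  have h := Cl_sub (Cl_add (Cl_sub (Cl_sub (Cl_add (Cl_smul (-w) (Cl_add (Cl_smul (1 / 2) (m0 hW)) hy))
    (Cl_smul (1 + m) (m0 d1))) (m0 d3)) h4) (Cl_smul l (m0 d2))) (m0 e1)
  exact h

theorem E1 {p q w m l : ℝ} {W et : ℝ → ℝ} (hp : 0 < p) (hq : 0 < q) (hW : Cl p q W)
    (he : Cl p q et) :
    DEW W (Zz w m l W et) = -2 * w * EW W - l * (∫ y, (deriv (deriv W) y) ^ 2)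
      + l * (∫ y, (W y) ^ 4 * (deriv W y) ^ 2) + (∫ y, deriv (deriv W) y * deriv et y)
      - ∫ y, (W y) ^ 4 * (deriv W y * et y) := by
  have hc : 0 < min p q := lt_min hp hq
  have hcp : min p q ≤ p := min_le_left _ _
  have hcq : min p q ≤ q := min_le_right _ _
  have m0 : ∀ {f : ℝ → ℝ}, Cl p q f → Cl 0 0 f := fun h => Cl_mono h hp.le hq.le
  have hZ : Cl 0 0 (Zz w m l W et) := Zz_Cl hp hq hW he
  have d1 := Cl_der hW
  have d2 := Cl_der d1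
  have d3 := Cl_der d2
  have e1 := Cl_der he
  -- generic product
  have mp : ∀ {f g : ℝ → ℝ}, Cl p q f → Cl p q g → Cl p q (fun y => f y * g y) :=
    fun hf hg => Cl_mul0 (m0 hf) hg
  have mid : ∀ {f g : ℝ → ℝ}, Cl p q f → Cl p q g → Cl p q (fun y => y * (f y * g y)) := by
    intro f g hf hg
    have h := Cl_mul (Cl_id hc) (Cl_mul hf hg)
    exact Cl_mono h (by linarith) (by linarith)
  -- integrands
  have i1 : Cl p q (fun y => deriv W y * deriv W y) := mp d1 d1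
  have i2 : Cl p q (fun y => (W y) ^ 6) := Cl_pow' hW hp.le hq.le 6 (by norm_num)
  have i3 : Cl p q (fun y => deriv (deriv W) y * deriv (deriv W) y) := mp d2 d2
  have i4 : Cl p q (fun y => (W y) ^ 4 * (deriv W y * deriv W y)) :=
    Cl_mul0 (Cl_pow0 (m0 hW) 4) i1
  have i5 : Cl p q (fun y => deriv (deriv W) y * deriv et y) := mp d2 e1
  have i6 : Cl p q (fun y => (W y) ^ 4 * (deriv W y * et y)) :=
    Cl_mul0 (Cl_pow0 (m0 hW) 4) (mp d1 he)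
  have I1 : Integrable (fun y => (deriv W y) ^ 2) := by
    have h := Cl_int i1 hp hq
    simpa only [pow_two] using h
  have I2 : Integrable (fun y => (W y) ^ 6) := Cl_int i2 hp hq
  have I3 : Integrable (fun y => (deriv (deriv W) y) ^ 2) := by
    have h := Cl_int i3 hp hq
    simpa only [pow_two] using h
  have I4 : Integrable (fun y => (W y) ^ 4 * (deriv W y) ^ 2) := by
    have h := Cl_int i4 hp hq
    simpa only [pow_two] using h
  have I5 := Cl_int i5 hp hq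
  have I6 := Cl_int i6 hp hq
  -- left integrand
  have hF : Integrable (fun y => deriv W y * deriv (Zz w m l W et) y - fl 4 (W y) * Zz w m l W et y) := by
    have a1 : Cl p q (fun y => deriv (Zz w m l W et) y * deriv W y) := Cl_mul0 (Cl_der hZ) d1
    have a2 : Cl p q (fun y => Zz w m l W et y * (1 / 5 * (W y) ^ 5)) :=
      Cl_mul0 hZ (Cl_smul (1 / 5) (Cl_pow' hW hp.le hq.le 5 (by norm_num)))
    have h := Cl_int (Cl_sub a1 a2) hp hq
    have e : (fun y => deriv (Zz w m l W et) y * deriv W y - Zz w m l W et y * (1 / 5 * (W y) ^ 5)) =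
        (fun y => deriv W y * deriv (Zz w m l W et) y - fl 4 (W y) * Zz w m l W et y) := by
      funext y
      simp only [fl]
      norm_num
      ring
    rwa [e] at h
  have hG : Integrable (fun y => -2 * w * (1 / 2 * (deriv W y) ^ 2 - 1 / 30 * (W y) ^ 6)
      - l * (deriv (deriv W) y) ^ 2 + l * ((W y) ^ 4 * (deriv W y) ^ 2)
      + deriv (deriv W) y * deriv et y - (W y) ^ 4 * (deriv W y * et y)) :=
    (((((I1.const_mul (1 / 2)).sub (I2.const_mul (1 / 30))).const_mul (-2 * w)).sub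
      (I3.const_mul l)).add (I4.const_mul l)).add I5 |>.sub I6
  have hH : Cl p q (fun y => Zz w m l W et y * deriv W y
      + w * (1 / 2 * (W y * deriv W y) + 1 / 2 * (y * (deriv W y * deriv W y))
        + 1 / 30 * (y * ((W y) ^ 3 * (W y) ^ 3)))
      + (1 + m) * (-(1 / 2) * (deriv W y * deriv W y) + -(1 / 30) * (W y) ^ 6)
      + 1 / 2 * ((-deriv (deriv W) y - 1 / 5 * (W y) ^ 5) * (-deriv (deriv W) y - 1 / 5 * (W y) ^ 5))
      + -(l / 5) * ((W y) ^ 5 * deriv W y) + 1 / 5 * ((W y) ^ 5 * et y)) := by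
    have b1 : Cl p q (fun y => Zz w m l W et y * deriv W y) := Cl_mul0 hZ d1
    have b2 : Cl p q (fun y => W y * deriv W y) := mp hW d1
    have b3 : Cl p q (fun y => y * (deriv W y * deriv W y)) := mid d1 d1
    have c3 : Cl p q (fun y => (W y) ^ 3) := Cl_pow' hW hp.le hq.le 3 (by norm_num)
    have b4 : Cl p q (fun y => y * ((W y) ^ 3 * (W y) ^ 3)) := mid c3 c3
    have c5 : Cl p q (fun y => (W y) ^ 5) := Cl_pow' hW hp.le hq.le 5 (by norm_num)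
    have c6 : Cl p q (fun y => -deriv (deriv W) y - 1 / 5 * (W y) ^ 5) :=
      Cl_sub (Cl_neg d2) (Cl_smul (1 / 5) c5)
    have b5 := mp c6 c6
    have b6 := mp c5 d1
    have b7 := mp c5 he
    exact Cl_add (Cl_add (Cl_add (Cl_add (Cl_add b1
      (Cl_smul w (Cl_add (Cl_add (Cl_smul (1 / 2) b2) (Cl_smul (1 / 2) b3)) (Cl_smul (1 / 30) b4))))
      (Cl_smul (1 + m) (Cl_add (Cl_smul (-(1 / 2)) i1) (Cl_smul (-(1 / 30)) i2))))
      (Cl_smul (1 / 2) b5)) (Cl_smul (-(l / 5)) b6)) (Cl_smul (1 / 5) b7)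
  have key := Cl_int_eq hF hG hH hp hq (by
    intro y
    have a0 := Cl_hd hW y
    have a1 := Cl_hd d1 y
    have a2 := Cl_hd d2 y
    have az := Cl_hd hZ y
    have ae := Cl_hd he y
    have ai := hasDerivAt_id y
    have g0 := (a2.neg.sub ((a0.pow 5).const_mul (1 / 5)))
    have h := ((((((az.mul a1).add
      (((((a0.mul a1).const_mul (1 / 2)).add ((ai.mul (a1.mul a1)).const_mul (1 / 2))).add
        ((ai.mul ((a0.pow 3).mul (a0.pow 3))).const_mul (1 / 30))).const_mul w)).add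
      ((((a1.mul a1).const_mul (-(1 / 2))).add ((a0.pow 6).const_mul (-(1 / 30)))).const_mul (1 + m))).add
      ((g0.mul g0).const_mul (1 / 2))).add
      (((a0.pow 5).mul a1).const_mul (-(l / 5)))).add (((a0.pow 5).mul ae).const_mul (1 / 5))).deriv
    refine Eq.trans ?_ h.symm
    have hz : Zz w m l W et y = -w * (1 / 2 * W y + y * deriv W y) + (1 + m) * deriv W y
      - deriv (deriv (deriv W)) y - (W y) ^ 4 * deriv W y + l * deriv (deriv W) y - deriv et y := rfl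
    simp only [fl, Pi.mul_apply, Pi.pow_apply, Pi.neg_apply, Pi.sub_apply, id]
    generalize hD : deriv (Zz w m l W et) y = D
    rw [hz]
    norm_num
    ring)
  have hsplit : ∫ y, (-2 * w * (1 / 2 * (deriv W y) ^ 2 - 1 / 30 * (W y) ^ 6)
      - l * (deriv (deriv W) y) ^ 2 + l * ((W y) ^ 4 * (deriv W y) ^ 2)
      + deriv (deriv W) y * deriv et y - (W y) ^ 4 * (deriv W y * et y)) =
      -2 * w * (1 / 2 * (∫ y, (deriv W y) ^ 2) - 1 / 30 * ∫ y, (W y) ^ 6)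
        - l * (∫ y, (deriv (deriv W) y) ^ 2) + l * (∫ y, (W y) ^ 4 * (deriv W y) ^ 2)
        + (∫ y, deriv (deriv W) y * deriv et y) - ∫ y, (W y) ^ 4 * (deriv W y * et y) := by
    have J1 : Integrable (fun y => 1 / 2 * (deriv W y) ^ 2 - 1 / 30 * (W y) ^ 6) :=
      (I1.const_mul (1 / 2)).sub (I2.const_mul (1 / 30))
    have J2 : Integrable (fun y => -2 * w * (1 / 2 * (deriv W y) ^ 2 - 1 / 30 * (W y) ^ 6)) :=
      J1.const_mul (-2 * w)
    have J3 : Integrable (fun y => -2 * w * (1 / 2 * (deriv W y) ^ 2 - 1 / 30 * (W y) ^ 6)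
        - l * (deriv (deriv W) y) ^ 2) := J2.sub (I3.const_mul l)
    have J4 : Integrable (fun y => -2 * w * (1 / 2 * (deriv W y) ^ 2 - 1 / 30 * (W y) ^ 6)
        - l * (deriv (deriv W) y) ^ 2 + l * ((W y) ^ 4 * (deriv W y) ^ 2)) := J3.add (I4.const_mul l)
    have J5 : Integrable (fun y => -2 * w * (1 / 2 * (deriv W y) ^ 2 - 1 / 30 * (W y) ^ 6)
        - l * (deriv (deriv W) y) ^ 2 + l * ((W y) ^ 4 * (deriv W y) ^ 2)
        + deriv (deriv W) y * deriv et y) := J4.add I5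
    rw [integral_sub J5 I6, integral_add J4 I5, integral_add J3 (I4.const_mul l),
      integral_sub J2 (I3.const_mul l), integral_const_mul, integral_const_mul, integral_const_mul,
      integral_sub (I1.const_mul (1 / 2)) (I2.const_mul (1 / 30)), integral_const_mul, integral_const_mul]
  unfold DEW EW
  rw [key, hsplit]

end H37KC

end S_H37_KC_E1

section S_H37_KC_EN

/-!
# Row EN of MP_95be7d_K4B (70 lines)

`ze = Zz` (`ze_eq`, `Cl_W`), `l = r⁸ ≤ 1`, `E1`.  Bounds: `|W| ≤ 3` (`F1_W3`) so `l ∫ W⁴W'² ≤ 81 l C1` (`F1_int`);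
`∫ W'' et' ≤ (l/2) ∫ W''² + (1/(2l)) ∫ et'²`;  `|∫ W⁴ W' et| ≤ (81/2)(l ∫ W'² + (1/l) ∫ et²)`;  `∫ et² + ∫ et'² = ne2 et`.
-/

open MeasureTheory Filter Topology Set
open scoped ContDiff

namespace H37KC

open H98KB H68KC

theorem EN_a1 {l : ℝ} (hl : 0 < l) (a b : ℝ) : a * b ≤ l * a ^ 2 + 1 / (4 * l) * b ^ 2 := by
  have h : l * a ^ 2 + 1 / (4 * l) * b ^ 2 - a * b = l * (a - 1 / (2 * l) * b) ^ 2 := by
    field_simp
    ring
  have h0 : 0 ≤ l * (a - 1 / (2 * l) * b) ^ 2 := by positivity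
  linarith

theorem EN_a2 {l : ℝ} (hl : 0 < l) (a b u : ℝ) (hu0 : 0 ≤ u) (hu : u ≤ 81) :
    -(u * (a * b)) ≤ 81 / 2 * l * a ^ 2 + 81 / 2 / l * b ^ 2 := by
  have h : 81 / 2 * l * a ^ 2 + 81 / 2 / l * b ^ 2 + u * (a * b) =
      (81 - u) * (1 / 2 * l * a ^ 2 + 1 / 2 / l * b ^ 2) + u * (1 / 2 * l * (a + 1 / l * b) ^ 2) := by
    field_simp
    ring
  have h0 : 0 ≤ (81 - u) * (1 / 2 * l * a ^ 2 + 1 / 2 / l * b ^ 2) :=
    mul_nonneg (by linarith) (by positivity)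
  have h2 : 0 ≤ u * (1 / 2 * l * (a + 1 / l * b) ^ 2) := by positivity
  linarith

theorem ENt : ∃ C : ℝ, 0 < C ∧ ∀ (P E : ℝ → ℝ) (γ B c Ca r w m : ℝ) (W et : ℝ → ℝ), c ≤ 1 / 10 → r ≤ 1 →
    Sit P E γ B c Ca r w m W et →
    DEW W (ze w m (r ^ 8) W et) ≤ -2 * w * EW W + C * r ^ 8 + C / r ^ 8 * ne2 et := by
  obtain ⟨C1, hC1, hint⟩ := F1_int
  refine ⟨122 * C1, by linarith, ?_⟩
  intro P E γ B c Ca r w m W et hc hr1 hS
  obtain ⟨p, q, hp, hp', hq, hq', hcl, he⟩ := hS.cl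
  have hW : Cl p q W := Cl_W hp' hq' hcl
  have hW1 : Cl p q (deriv W) := Cl_der hW
  have hW2 : Cl p q (deriv (deriv W)) := Cl_der hW1
  have he1 : Cl p q (deriv et) := Cl_der he
  obtain ⟨hI1, -⟩ := hint p q W hp hp' hq hq' hcl hS.X1 hS.L1
  have hW3 : ∀ y, |W y| ≤ 3 := fun y => F1_W3 hc hS.sup y
  have hW4 : ∀ y, (W y) ^ 4 ≤ 81 := by
    intro y
    have h1 : (W y) ^ 4 = |W y| ^ 4 := by
      rw [← abs_pow, abs_of_nonneg (by positivity)]
    rw [h1]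
    calc |W y| ^ 4 ≤ 3 ^ 4 := pow_le_pow_left₀ (abs_nonneg _) (hW3 y) 4
      _ = 81 := by norm_num
  have hl : 0 < r ^ 8 := pow_pos hS.r0 8
  have hA : Integrable (fun y => (deriv W y) ^ 2) := Cl_int (Cl_pow' hW1 hp.le hq.le 2 (by norm_num)) hp hq
  have hB : Integrable (fun y => (deriv (deriv W) y) ^ 2) :=
    Cl_int (Cl_pow' hW2 hp.le hq.le 2 (by norm_num)) hp hq
  have hE : Integrable (fun y => (et y) ^ 2) := Cl_int (Cl_pow' he hp.le hq.le 2 (by norm_num)) hp hq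
  have hE1 : Integrable (fun y => (deriv et y) ^ 2) := Cl_int (Cl_pow' he1 hp.le hq.le 2 (by norm_num)) hp hq
  have hD : Integrable (fun y => (W y) ^ 4 * (deriv W y) ^ 2) :=
    Cl_int (Cl_mul (Cl_pow' hW hp.le hq.le 4 (by norm_num)) (Cl_pow' hW1 hp.le hq.le 2 (by norm_num)))
      (by linarith) (by linarith)
  have hF : Integrable (fun y => deriv (deriv W) y * deriv et y) :=
    Cl_int (Cl_mul hW2 he1) (by linarith) (by linarith)
  have hG : Integrable (fun y => (W y) ^ 4 * (deriv W y * et y)) :=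
    Cl_int (Cl_mul (Cl_pow' hW hp.le hq.le 4 (by norm_num)) (Cl_mul hW1 he))
      (by linarith) (by linarith)
  have k1 : (∫ y, (W y) ^ 4 * (deriv W y) ^ 2) ≤ 81 * ∫ y, (deriv W y) ^ 2 := by
    rw [← integral_const_mul]
    refine integral_mono hD (hA.const_mul 81) ?_
    intro y
    exact mul_le_mul_of_nonneg_right (hW4 y) (sq_nonneg _)
  have k2 : (∫ y, deriv (deriv W) y * deriv et y) ≤
      r ^ 8 * (∫ y, (deriv (deriv W) y) ^ 2) + 1 / (4 * r ^ 8) * ∫ y, (deriv et y) ^ 2 := by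
    rw [← integral_const_mul, ← integral_const_mul, ← integral_add (hB.const_mul _) (hE1.const_mul _)]
    refine integral_mono hF ((hB.const_mul _).add (hE1.const_mul _)) ?_
    intro y
    exact EN_a1 hl (deriv (deriv W) y) (deriv et y)
  have k3 : -(∫ y, (W y) ^ 4 * (deriv W y * et y)) ≤
      81 / 2 * r ^ 8 * (∫ y, (deriv W y) ^ 2) + 81 / 2 / r ^ 8 * ∫ y, (et y) ^ 2 := by
    rw [← integral_const_mul, ← integral_const_mul, ← integral_add (hA.const_mul _) (hE.const_mul _),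
      ← integral_neg]
    refine integral_mono hG.neg ((hA.const_mul _).add (hE.const_mul _)) ?_
    intro y
    exact EN_a2 hl (deriv W y) (et y) ((W y) ^ 4) (by positivity) (hW4 y)
  have k4 : ne2 et = (∫ y, (et y) ^ 2) + ∫ y, (deriv et y) ^ 2 := by
    unfold ne2
    exact integral_add hE hE1
  have hE0 : 0 ≤ ∫ y, (et y) ^ 2 := integral_nonneg fun y => sq_nonneg _
  have hE10 : 0 ≤ ∫ y, (deriv et y) ^ 2 := integral_nonneg fun y => sq_nonneg _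
  have hl' : 0 < 1 / r ^ 8 := by positivity
  rw [ze_eq hW, E1 hp hq hW he, k4]
  have m1 : r ^ 8 * (∫ y, (W y) ^ 4 * (deriv W y) ^ 2) ≤ r ^ 8 * (81 * C1) :=
    mul_le_mul_of_nonneg_left (k1.trans (by linarith)) hl.le
  have m2 : 81 / 2 * r ^ 8 * (∫ y, (deriv W y) ^ 2) ≤ 81 / 2 * r ^ 8 * C1 :=
    mul_le_mul_of_nonneg_left hI1 (by positivity)
  have m3 : 81 / 2 / r ^ 8 * (∫ y, (et y) ^ 2) ≤ 122 * C1 / r ^ 8 * ∫ y, (et y) ^ 2 := by
    refine mul_le_mul_of_nonneg_right ?_ hE0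
    rw [div_le_div_iff_of_pos_right hl]
    linarith
  have m4 : 1 / (4 * r ^ 8) * (∫ y, (deriv et y) ^ 2) ≤ 122 * C1 / r ^ 8 * ∫ y, (deriv et y) ^ 2 := by
    refine mul_le_mul_of_nonneg_right ?_ hE10
    have h : 1 / (4 * r ^ 8) = 1 / 4 / r ^ 8 := by field_simp
    rw [h, div_le_div_iff_of_pos_right hl]
    linarith
  have m5 : 0 ≤ r ^ 8 * C1 := by positivity
  have m6 : 122 * C1 / r ^ 8 * ((∫ y, (et y) ^ 2) + ∫ y, (deriv et y) ^ 2) =
      122 * C1 / r ^ 8 * (∫ y, (et y) ^ 2) + 122 * C1 / r ^ 8 * ∫ y, (deriv et y) ^ 2 := by ring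
  rw [m6]
  nlinarith [k2, k3, m1, m2, m3, m4, m5]

end H37KC

end S_H37_KC_EN

section S_H37_KC_X1

/-!
# Row X1 of MP_95be7d_K4B (90 lines)

`X1_Q`: `EW Q = 0`: with `Q'' = Q - Q⁵/5` (`Qf_eq`, `fl 4 u = u⁵/5`): `1/2 ∫Q'² - 1/30 ∫ Q⁶`.  The function
`H = Q Q'/2 + y Q'²/2 + y Q⁶/30 ` satisfies  `H' = Q'²/2 + Q Q''/2 + Q'²/2 + y Q'Q'' + Q⁶/30 + y Q⁵Q'/5 = Q'² + Q²/2 - Q⁶/10 + Q⁶/30 + y Q Q'`
and `(y Q²/2)' = Q²/2 + y Q Q'`, so `(H - y Q²/2)' = Q'² - Q⁶/15 = 2 (Q'²/2 - Q⁶/30)`; integrate (`Cl_int_deriv`).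
(Or pointwise: `Q'² = Q² - Q⁶/15`, from `Qf_deriv`, `Qf_pow`, and `(Q Q')' = Q'² + QQ''`.)
`X1_exp`: expand.  `EW(Q+e) = EW Q + ∫ Q' e' + 1/2 ∫ e'² - ∫ (F(Q+e) - F(Q))`, `F(u) = u⁶/30 = Fl 4 u`, `F(Q+e) - F(Q) = bF 4 e + f(Q) e`,
`∫ Q' e' = -∫ Q'' e` (`Cl_ibp`), `Q'' = Q - f(Q)`.
-/

open MeasureTheory Filter Topology Set
open scoped ContDiff

namespace H37KC

open H98KB H68KC

theorem x1_d (y : ℝ) : 1 / 2 * (deriv (Qf 4) y) ^ 2 - 1 / 30 * (Qf 4 y) ^ 6 =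
    1 / 4 * (deriv (Qf 4) y * deriv (Qf 4) y + Qf 4 y * deriv (deriv (Qf 4)) y) := by
  have h1 : deriv (Qf 4) y = -(th 4 y) * Qf 4 y := by rw [Qf_deriv (by norm_num)]
  have h2 := Qf_pow (k := 4) (by norm_num) y
  have h3 := Qf_eq (k := 4) (by norm_num) y
  have h4 : (th 4 y) ^ 2 = 1 - (Qf 4 y) ^ 4 / 15 := by
    rw [h2, C0]
    push_cast
    ring
  rw [h3, h1, fl]
  push_cast
  have h5 : -(th 4 y) * Qf 4 y * (-(th 4 y) * Qf 4 y) = (Qf 4 y) ^ 2 - (Qf 4 y) ^ 6 / 15 := by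
    have : -(th 4 y) * Qf 4 y * (-(th 4 y) * Qf 4 y) = (th 4 y) ^ 2 * (Qf 4 y) ^ 2 := by ring
    rw [this, h4]
    ring
  have h6 : (-(th 4 y) * Qf 4 y) ^ 2 = (Qf 4 y) ^ 2 - (Qf 4 y) ^ 6 / 15 := by
    rw [← h5]; ring
  rw [h5, h6]
  ring

theorem X1_Q : EW (Qf 4) = 0 := by
  have hQ : Cl 1 1 (Qf 4) := Cl_Qf (by norm_num)
  have hQ' := Cl_der hQ
  have hH := Cl_smul (1 / 4) (Cl_mul hQ hQ')
  have h1 := Cl_int_deriv hH (by norm_num) (by norm_num)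
  have i1 : Integrable (fun y => (deriv (Qf 4) y) ^ 2) :=
    Cl_int (Cl_pow' hQ' (by norm_num) (by norm_num) 2 (by norm_num)) (by norm_num) (by norm_num)
  have i2 : Integrable (fun y => (Qf 4 y) ^ 6) :=
    Cl_int (Cl_pow' hQ (by norm_num) (by norm_num) 6 (by norm_num)) (by norm_num) (by norm_num)
  have e : deriv (fun y => 1 / 4 * (Qf 4 y * deriv (Qf 4) y)) =
      fun y => 1 / 2 * (deriv (Qf 4) y) ^ 2 - 1 / 30 * (Qf 4 y) ^ 6 := by
    funext y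
    rw [x1_d]
    exact (((Cl_hd hQ y).mul (Cl_hd hQ' y)).const_mul (1 / 4)).deriv
  rw [e, integral_sub (i1.const_mul _) (i2.const_mul _), integral_const_mul, integral_const_mul] at h1
  exact h1

theorem X1_exp {p q : ℝ} {W : ℝ → ℝ} (hp : 0 < p) (hq : 0 < q) (hp' : p ≤ 1 / 2) (hq' : q ≤ 1 / 2)
    (h : Cl p q (fun y => W y - Qf 4 y)) :
    EW W = 1 / 2 * Xn (fun y => W y - Qf 4 y) - ip (fun y => W y - Qf 4 y) (Qf 4)
      - ∫ y, bF 4 (fun y => W y - Qf 4 y) y := by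
  have hQ : Cl 1 1 (Qf 4) := Cl_Qf (by norm_num)
  have hQ' := Cl_der hQ
  have hW : Cl p q W := Cl_W hp' hq' h
  have d1 : deriv (fun y => W y - Qf 4 y) = fun y => deriv W y - deriv (Qf 4) y := by
    funext y
    exact ((Cl_hd hW y).sub (Cl_hd hQ y)).deriv
  have iW1 : Integrable (fun y => (deriv W y) ^ 2) :=
    Cl_int (Cl_pow' (Cl_der hW) hp.le hq.le 2 (by norm_num)) hp hq
  have iW6 : Integrable (fun y => (W y) ^ 6) :=
    Cl_int (Cl_pow' hW hp.le hq.le 6 (by norm_num)) hp hq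
  have iQ6 : Integrable (fun y => (Qf 4 y) ^ 6) :=
    Cl_int (Cl_pow' hQ (by norm_num) (by norm_num) 6 (by norm_num)) (by norm_num) (by norm_num)
  have ie1 : Integrable (fun y => (deriv (fun y => W y - Qf 4 y) y) ^ 2) :=
    Cl_int (Cl_pow' (Cl_der h) hp.le hq.le 2 (by norm_num)) hp hq
  have ieQ : Integrable (fun y => (W y - Qf 4 y) * Qf 4 y) :=
    Cl_int (Cl_mul h hQ) (by linarith) (by linarith)
  have if5 : Integrable (fun y => (Qf 4 y) ^ 5 * (W y - Qf 4 y)) :=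
    Cl_int (Cl_mul (Cl_pow' hQ (by norm_num) (by norm_num) 5 (by norm_num)) h)
      (by linarith) (by linarith)
  have eB : bF 4 (fun y => W y - Qf 4 y) = fun y => 1 / 30 * (W y) ^ 6 - 1 / 30 * (Qf 4 y) ^ 6
      - 1 / 5 * ((Qf 4 y) ^ 5 * (W y - Qf 4 y)) := by
    funext y
    simp only [bF, Fl, fl]
    push_cast
    ring
  have ib : Integrable (bF 4 (fun y => W y - Qf 4 y)) := by
    rw [eB]
    exact ((iW6.const_mul _).sub (iQ6.const_mul _)).sub (if5.const_mul _)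
  have hH := Cl_add (Cl_mono (Cl_smul (1 / 4) (Cl_mul hQ hQ')) (p' := p) (q' := q)
    (by linarith) (by linarith)) (Cl_mono (Cl_mul hQ' h) (p' := p) (q' := q) (by linarith) (by linarith))
  have key := Cl_int_eq (F := fun y => 1 / 2 * (deriv W y) ^ 2 - 1 / 30 * (W y) ^ 6)
    (G := fun y => 1 / 2 * (deriv (fun y => W y - Qf 4 y) y) ^ 2 - (W y - Qf 4 y) * Qf 4 y
      - bF 4 (fun y => W y - Qf 4 y) y)
    ((iW1.const_mul _).sub (iW6.const_mul _)) (((ie1.const_mul _).sub ieQ).sub ib) hH hp hq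
    (fun y => by
      have hd : deriv (fun y => 1 / 4 * (Qf 4 y * deriv (Qf 4) y) +
          deriv (Qf 4) y * (W y - Qf 4 y)) y =
          1 / 4 * (deriv (Qf 4) y * deriv (Qf 4) y + Qf 4 y * deriv (deriv (Qf 4)) y) +
          (deriv (deriv (Qf 4)) y * (W y - Qf 4 y) +
            deriv (Qf 4) y * deriv (fun y => W y - Qf 4 y) y) :=
        ((((Cl_hd hQ y).mul (Cl_hd hQ' y)).const_mul (1 / 4)).add
          ((Cl_hd hQ' y).mul (Cl_hd h y))).deriv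
      refine Eq.trans ?_ hd.symm
      rw [← x1_d, d1, eB]
      have h3 := Qf_eq (k := 4) (by norm_num) y
      rw [h3, fl]
      push_cast
      ring)
  have i7 : Integrable (fun y => 1 / 2 * (deriv (fun y => W y - Qf 4 y) y) ^ 2
      - (W y - Qf 4 y) * Qf 4 y) := (ie1.const_mul _).sub ieQ
  rw [integral_sub (iW1.const_mul _) (iW6.const_mul _), integral_const_mul, integral_const_mul,
    integral_sub i7 ib, integral_sub (ie1.const_mul _) ieQ, integral_const_mul] at key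
  simpa only [EW, Xn, ip] using key

end H37KC

end S_H37_KC_X1

section S_H37_KC_X2

/-!
# Row X2 of MP_95be7d_K4B (60 lines)

`bF 4 e y = (1/2) Q⁴e² + (2/3) Q³e³ + (1/2) Q²e⁴ + (1/5) Q e⁵ + e⁶/30` (unfold `bF, Fl, fl`, `ring`); `0 < Q ≤ 2`, `|e| ≤ 1/10`:
`|bF - e⁶/30| ≤ Q e² (4 + 8/30 + 1/100 + 1/5000) ≤ 5 Q e²`.
`X2_6`: `e(y)² ≤ 2 √(∫e²) √(∫e'²)` (`sup_le`), so `e⁴ ≤ 4 (∫ e²)(∫ e'²) ≤ 4 Xn e` and `∫ e⁶ ≤ 4 Xn e ∫ e² ≤ 4 Xn e`.
`X2_bF`: integrate.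
-/

open MeasureTheory Filter Topology Set
open scoped ContDiff

namespace H37KC

open H98KB H68KC

theorem X2_pt {e : ℝ → ℝ} {y : ℝ} (h : |e y| ≤ 1 / 10) :
    |bF 4 e y - (e y) ^ 6 / 30| ≤ 5 * (Qf 4 y * (e y) ^ 2) := by
  have hQ0 : 0 < Qf 4 y := Qf_pos 4 y
  have hQ2 : Qf 4 y ≤ 2 := F1_Q2 y
  set Q := Qf 4 y with hQ
  set x := e y with hx
  have e1 : bF 4 e y - x ^ 6 / 30 =
      Q * x ^ 2 * (Q ^ 3 / 2 + 2 / 3 * Q ^ 2 * x + 1 / 2 * Q * x ^ 2 + x ^ 3 / 5) := by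
    simp only [bF, Fl, fl, ← hQ, ← hx]
    push_cast
    ring
  have hx2 := abs_le.mp h
  have hxx : x ^ 2 ≤ 1 / 100 := by nlinarith
  have hx3 : |x ^ 3| ≤ 1 / 1000 := by
    rw [abs_pow]
    calc |x| ^ 3 ≤ (1 / 10) ^ 3 := pow_le_pow_left₀ (abs_nonneg x) h 3
      _ = 1 / 1000 := by norm_num
  have hx3' := abs_le.mp hx3
  have hQ22 : Q ^ 2 ≤ 4 := by nlinarith
  have hQ3 : Q ^ 3 ≤ 8 := by
    have : Q ^ 3 = Q ^ 2 * Q := by ring
    rw [this]
    nlinarith [sq_nonneg Q]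
  have hb : |Q ^ 3 / 2 + 2 / 3 * Q ^ 2 * x + 1 / 2 * Q * x ^ 2 + x ^ 3 / 5| ≤ 5 := by
    have t1 : |Q ^ 2 * x| ≤ 4 / 10 := by
      rw [abs_mul, abs_of_nonneg (sq_nonneg Q)]
      calc Q ^ 2 * |x| ≤ 4 * (1 / 10) := mul_le_mul hQ22 h (abs_nonneg x) (by norm_num)
        _ = 4 / 10 := by norm_num
    have t1' := abs_le.mp t1
    have t2 : 0 ≤ Q * x ^ 2 := by positivity
    have t3 : Q * x ^ 2 ≤ 2 / 100 := by
      calc Q * x ^ 2 ≤ 2 * (1 / 100) := mul_le_mul hQ2 hxx (sq_nonneg x) (by norm_num)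
        _ = 2 / 100 := by norm_num
    have t4 : 0 < Q ^ 3 := by positivity
    rw [abs_le]
    constructor <;> linarith [t1'.1, t1'.2, hx3'.1, hx3'.2]
  rw [e1, abs_mul, abs_of_nonneg (by positivity : 0 ≤ Q * x ^ 2)]
  have hn : 0 ≤ Q * x ^ 2 := by positivity
  nlinarith [mul_le_mul_of_nonneg_left hb hn]

theorem X2_6 {p q : ℝ} {e : ℝ → ℝ} (hp : 0 < p) (hq : 0 < q) (he : Cl p q e)
    (h1 : (∫ y, (e y) ^ 2) ≤ 1) : (∫ y, (e y) ^ 6) ≤ 4 * Xn e := by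
  have hX0 : 0 ≤ Xn e := integral_nonneg fun y => sq_nonneg _
  have hM0 : 0 ≤ ∫ y, (e y) ^ 2 := integral_nonneg fun y => sq_nonneg _
  have hi2 : Integrable (fun y => e y ^ 2) :=
    Cl_int (Cl_pow' he hp.le hq.le 2 (by norm_num)) hp hq
  have hi6 : Integrable (fun y => e y ^ 6) :=
    Cl_int (Cl_pow' he hp.le hq.le 6 (by norm_num)) hp hq
  have h4 : ∀ y, (e y) ^ 4 ≤ 4 * Xn e := by
    intro y
    have hs := sup_le he hp hq y
    have hs0 : 0 ≤ (e y) ^ 2 := sq_nonneg _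
    have a1 : Real.sqrt (∫ y, (e y) ^ 2) ^ 2 = ∫ y, (e y) ^ 2 := Real.sq_sqrt hM0
    have a2 : Real.sqrt (∫ y, (deriv e y) ^ 2) ^ 2 = ∫ y, (deriv e y) ^ 2 := Real.sq_sqrt hX0
    have a3 : (e y) ^ 4 = ((e y) ^ 2) ^ 2 := by ring
    rw [a3]
    refine (pow_le_pow_left₀ hs0 hs 2).trans ?_
    have a4 : (2 * Real.sqrt (∫ y, (e y) ^ 2) * Real.sqrt (∫ y, (deriv e y) ^ 2)) ^ 2 =
        4 * (∫ y, (e y) ^ 2) * Xn e := by
      rw [mul_pow, mul_pow, a1, a2]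
      unfold Xn
      ring
    rw [a4]
    nlinarith
  calc (∫ y, (e y) ^ 6) ≤ ∫ y, (4 * Xn e) * (e y) ^ 2 := by
        apply integral_mono hi6 (hi2.const_mul _)
        intro y
        have : (e y) ^ 6 = (e y) ^ 4 * (e y) ^ 2 := by ring
        show (e y) ^ 6 ≤ (4 * Xn e) * (e y) ^ 2
        rw [this]
        exact mul_le_mul_of_nonneg_right (h4 y) (sq_nonneg _)
    _ = (4 * Xn e) * ∫ y, (e y) ^ 2 := integral_const_mul _ _
    _ ≤ 4 * Xn e := by nlinarith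

theorem X2_bF {p q : ℝ} {e : ℝ → ℝ} (hp : 0 < p) (hq : 0 < q) (he : Cl p q e)
    (hs : ∀ y, |e y| ≤ 1 / 10) (h1 : (∫ y, (e y) ^ 2) ≤ 1) :
    |∫ y, bF 4 e y| ≤ 5 * (∫ y, Qf 4 y * (e y) ^ 2) + 4 / 30 * Xn e := by
  have hi6 : Integrable (fun y => e y ^ 6) :=
    Cl_int (Cl_pow' he hp.le hq.le 6 (by norm_num)) hp hq
  have hQe : Integrable (fun y => Qf 4 y * e y ^ 2) :=
    Cl_int (Cl_mul0 (Cl_mono (Cl_Qf (by norm_num)) (by norm_num) (by norm_num))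
      (Cl_pow' he hp.le hq.le 2 (by norm_num))) hp hq
  have h6 := X2_6 hp hq he h1
  have hb : ∀ y, |bF 4 e y| ≤ 5 * (Qf 4 y * (e y) ^ 2) + (e y) ^ 6 / 30 := by
    intro y
    have h := X2_pt (hs y)
    have h0 : 0 ≤ (e y) ^ 6 / 30 := by positivity
    have h2 := abs_le.mp h
    rw [abs_le]
    constructor <;> linarith [h2.1, h2.2]
  have hg : Integrable (fun y => 5 * (Qf 4 y * (e y) ^ 2) + (e y) ^ 6 / 30) :=
    (hQe.const_mul 5).add (hi6.div_const 30)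
  calc |∫ y, bF 4 e y| ≤ ∫ y, (5 * (Qf 4 y * (e y) ^ 2) + (e y) ^ 6 / 30) := by
        rw [← Real.norm_eq_abs]
        exact norm_integral_le_of_norm_le hg (Eventually.of_forall fun y => by
          rw [Real.norm_eq_abs]; exact hb y)
    _ = 5 * (∫ y, Qf 4 y * (e y) ^ 2) + (∫ y, (e y) ^ 6) / 30 := by
        rw [integral_add (hQe.const_mul 5) (hi6.div_const 30), integral_const_mul, integral_div]
    _ ≤ _ := by linarith

end H37KC

end S_H37_KC_X2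

section S_H37_KC_X3

/-!
# Row X3 of MP_95be7d_K4B (100 lines)

`e = W - Q = ε + h`, `h = b P + α E`, `|h| ≤ C r⁴` (`Sit.b1, a1`; `P`, `E` bounded: `Prof.cP`, `Prof.E1`).
* `X3_Qe`: `Q e² ≤ 2 Q ε² + 2 Q h²`; `Q ≤ C e^{-|y|} ≤ C e^{-|y|/2} ≤ C loc γ B y` (`Qf_hi`, `ex_le_loc`, needs `γ ≤ 1/8`), so
  `∫ Q ε² ≤ C ∫ loc ε² ≤ C ln γ B ε`;  `∫ Q h² ≤ C r⁸ ∫ Q`.  (`ε` is in `Cl 0 0` by `ep_Cl`, `loc` is `≤ ch B`, so `loc (ε²+ε'²)` is integrable.)
* `X3_ip`: `bq s W = (ip e Q - α Iq/4) * 16/Iq²`, so `ip e Q = b Iq²/16 + α Iq/4` (`Iq > 0`), `|b| ≤ 5 c0 r⁴`, `|α| ≤ (|f0|+1) r⁴`.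
-/

open MeasureTheory Filter Topology Set
open scoped ContDiff

namespace H37KC

open H98KB H68KC

theorem X3_I : 0 < Iq := by
  unfold Iq
  have hi : Integrable (Qf 4) := Cl_int (Cl_Qf (by norm_num)) one_pos one_pos
  rw [integral_pos_iff_support_of_nonneg (fun y => (Qf_pos 4 y).le) hi]
  have : Function.support (Qf 4) = univ := by
    ext y
    simp [(Qf_pos 4 y).ne']
  rw [this]
  simp

theorem X3_ln {γ B : ℝ} (ε : ℝ → ℝ) : 0 ≤ ln γ B ε := by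
  unfold ln
  exact integral_nonneg fun y => mul_nonneg (loc_pos γ B y).le (by positivity)

theorem X3_Qe {P E : ℝ → ℝ} (hpr : Prof P E) {γ B c : ℝ} (hγ : 0 < γ) (hγ' : γ ≤ 1 / 8) (hB : 16 ≤ B) :
    ∃ C : ℝ, 0 < C ∧ ∀ Ca r w m W et, r ≤ 1 → Sit P E γ B c Ca r w m W et →
    (∫ y, Qf 4 y * (W y - Qf 4 y) ^ 2) ≤ C * (r ^ 8 + ln γ B (ep P E (r ^ 2) W)) := by
  obtain ⟨C1, hC1, hQ1⟩ := Qf_hi (k := 4) (by norm_num)
  obtain ⟨CP, hCP, hP⟩ := Cl_bnd hpr.cP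
  obtain ⟨CE, hCE, hE⟩ := Cl_bnd hpr.E1
  have hB0 : 0 < B := by linarith
  have hI := X3_I
  have hQi : Integrable (Qf 4) := Cl_int (Cl_Qf (by norm_num)) one_pos one_pos
  have hP' : ∀ y, |P y| ≤ CP := fun y => by
    have := hP y
    rw [bd_zero, mul_one] at this
    exact this
  have hE' : ∀ y, |E y| ≤ CE + 1 := fun y => by
    have h1 := hE y
    have h2 : bd (3 / 4) (3 / 4) y ≤ 1 := by
      rw [← bd_zero y]
      exact bd_mono (by norm_num) (by norm_num) y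
    have h3 : CE * bd (3 / 4) (3 / 4) y ≤ CE * 1 := mul_le_mul_of_nonneg_left h2 hCE
    have h4 : |E y| ≤ |E y - 1| + |(1 : ℝ)| := by
      have := abs_add_le (E y - 1) 1
      rw [sub_add_cancel] at this
      exact this
    rw [abs_one] at h4
    linarith
  set K : ℝ := 5 * |c0| * CP + (|f0| + 1) * (CE + 1) with hK
  have hK0 : 0 ≤ K := by positivity
  refine ⟨2 * C1 + 2 * K ^ 2 * Iq, by positivity, ?_⟩
  intro Ca r w m W et hr hS
  obtain ⟨p, q, hp, hp2, hq, hq2, hcl, -⟩ := hS.cl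
  have hW : Cl p q W := Cl_W hp2 hq2 hcl
  have hep := ep_Cl (s := r ^ 2) hpr hp hq hW
  have hr0 := hS.r0
  have hr4 : 0 < r ^ 4 := by positivity
  -- the function h
  have hh : ∀ y, |hf P E (bq (r ^ 2) W) (alf (r ^ 2) W) y| ≤ K * r ^ 4 := fun y => by
    unfold hf
    have h1 : |bq (r ^ 2) W * P y| ≤ (5 * |c0| * r ^ 4) * CP := by
      rw [abs_mul]
      refine mul_le_mul ?_ (hP' y) (abs_nonneg _) (by positivity)
      refine hS.b1.trans ?_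
      have := le_abs_self c0
      have := mul_le_mul_of_nonneg_right this hr4.le
      linarith
    have h2 : |alf (r ^ 2) W * E y| ≤ ((|f0| + 1) * r ^ 4) * (CE + 1) := by
      rw [abs_mul]
      exact mul_le_mul hS.a1 (hE' y) (abs_nonneg _) (by positivity)
    have h3 := abs_add_le (bq (r ^ 2) W * P y) (alf (r ^ 2) W * E y)
    rw [hK]
    linarith
  have hloc : Cl (2 * γ + 2 / B) (2 * γ + 2 / B) (loc γ B) := Cl_mul (Cl_se2 hγ) (Cl_ch hB0)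
  have h2B : 0 < 2 / B := by positivity
  have hg1 : Integrable (fun y => loc γ B y * ((ep P E (r ^ 2) W y) ^ 2 + (deriv (ep P E (r ^ 2) W) y) ^ 2)) := by
    have h := Cl_mul hloc (Cl_add (Cl_pow0 hep 2) (Cl_pow0 (Cl_der hep) 2))
    exact Cl_int h (by linarith) (by linarith)
  have hmain : (∫ y, Qf 4 y * (W y - Qf 4 y) ^ 2) ≤
      ∫ y, (2 * C1 * (loc γ B y * ((ep P E (r ^ 2) W y) ^ 2 + (deriv (ep P E (r ^ 2) W) y) ^ 2)) +
        2 * K ^ 2 * r ^ 8 * Qf 4 y) := by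
    refine integral_mono_of_nonneg ?_ ((hg1.const_mul _).add (hQi.const_mul _)) ?_
    · exact ae_of_all _ fun y => mul_nonneg (Qf_pos 4 y).le (sq_nonneg _)
    · refine ae_of_all _ fun y => ?_
      show Qf 4 y * (W y - Qf 4 y) ^ 2 ≤ 2 * C1 * (loc γ B y * ((ep P E (r ^ 2) W y) ^ 2 +
        (deriv (ep P E (r ^ 2) W) y) ^ 2)) + 2 * K ^ 2 * r ^ 8 * Qf 4 y
      have e1 : W y - Qf 4 y = ep P E (r ^ 2) W y + hf P E (bq (r ^ 2) W) (alf (r ^ 2) W) y := by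
        unfold ep; ring
      have hQ0 := (Qf_pos 4 y).le
      have hQl : Qf 4 y ≤ C1 * loc γ B y := by
        have h1 : Real.exp (-|y|) ≤ Real.exp (-(|y| / 2)) := by
          rw [Real.exp_le_exp]
          have := abs_nonneg y
          linarith
        have h2 := h1.trans (ex_le_loc hγ hγ' hB y)
        exact (hQ1 y).trans (mul_le_mul_of_nonneg_left h2 hC1.le)
      have hh2 : (hf P E (bq (r ^ 2) W) (alf (r ^ 2) W) y) ^ 2 ≤ (K * r ^ 4) ^ 2 := by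
        rw [← sq_abs]
        exact pow_le_pow_left₀ (abs_nonneg _) (hh y) 2
      rw [e1]
      generalize ep P E (r ^ 2) W y = a at *
      generalize hf P E (bq (r ^ 2) W) (alf (r ^ 2) W) y = b at *
      generalize (deriv (ep P E (r ^ 2) W) y) = a' at *
      have k1 : (a + b) ^ 2 ≤ 2 * a ^ 2 + 2 * b ^ 2 := by nlinarith [sq_nonneg (a - b)]
      have k2 : Qf 4 y * (a + b) ^ 2 ≤ Qf 4 y * (2 * a ^ 2 + 2 * b ^ 2) := mul_le_mul_of_nonneg_left k1 hQ0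
      have k3 : Qf 4 y * a ^ 2 ≤ C1 * loc γ B y * a ^ 2 := mul_le_mul_of_nonneg_right hQl (sq_nonneg _)
      have k4 : Qf 4 y * b ^ 2 ≤ Qf 4 y * (K * r ^ 4) ^ 2 := mul_le_mul_of_nonneg_left hh2 hQ0
      have k5 : 0 ≤ C1 * loc γ B y * a' ^ 2 := by
        have := (loc_pos γ B y).le
        positivity
      have e2 : (K * r ^ 4) ^ 2 = K ^ 2 * r ^ 8 := by ring
      rw [e2] at k4
      nlinarith
  refine hmain.trans ?_
  rw [integral_add (hg1.const_mul _) (hQi.const_mul _), integral_const_mul, integral_const_mul]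
  have e3 : (∫ y, Qf 4 y) = Iq := rfl
  have e4 : (∫ y, loc γ B y * ((ep P E (r ^ 2) W y) ^ 2 + (deriv (ep P E (r ^ 2) W) y) ^ 2)) =
      ln γ B (ep P E (r ^ 2) W) := rfl
  rw [e3, e4]
  have hl := X3_ln (γ := γ) (B := B) (ep P E (r ^ 2) W)
  have hr8 : 0 < r ^ 8 := by positivity
  have m1 : 0 ≤ C1 * r ^ 8 := by positivity
  have m2 : 0 ≤ K ^ 2 * Iq * ln γ B (ep P E (r ^ 2) W) := by positivity
  nlinarith

theorem X3_ip {P E : ℝ → ℝ} {γ B c : ℝ} :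
    ∃ C : ℝ, 0 < C ∧ ∀ Ca r w m W et, r ≤ 1 → Sit P E γ B c Ca r w m W et →
    |ip (fun y => W y - Qf 4 y) (Qf 4)| ≤ C * r ^ 4 := by
  have hI := X3_I
  refine ⟨5 * |c0| * (Iq ^ 2 / 16) + (|f0| + 1) * (Iq / 4) + 1, by positivity, ?_⟩
  intro Ca r w m W et hr hS
  have hr0 := hS.r0
  have hr4 : 0 < r ^ 4 := by positivity
  have e1 : ip (fun y => W y - Qf 4 y) (Qf 4) = bq (r ^ 2) W * (Iq ^ 2 / 16) + alf (r ^ 2) W * (Iq / 4) := by
    unfold bq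
    field_simp
    ring
  rw [e1]
  have h1 : |bq (r ^ 2) W * (Iq ^ 2 / 16)| ≤ (5 * |c0| * r ^ 4) * (Iq ^ 2 / 16) := by
    rw [abs_mul, abs_of_pos (by positivity : 0 < Iq ^ 2 / 16)]
    refine mul_le_mul_of_nonneg_right ?_ (by positivity)
    refine hS.b1.trans ?_
    have := mul_le_mul_of_nonneg_right (le_abs_self c0) hr4.le
    linarith
  have h2 : |alf (r ^ 2) W * (Iq / 4)| ≤ ((|f0| + 1) * r ^ 4) * (Iq / 4) := by
    rw [abs_mul, abs_of_pos (by positivity : 0 < Iq / 4)]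
    exact mul_le_mul_of_nonneg_right hS.a1 (by positivity)
  have h3 := abs_add_le (bq (r ^ 2) W * (Iq ^ 2 / 16)) (alf (r ^ 2) W * (Iq / 4))
  nlinarith

end H37KC

end S_H37_KC_X3

section S_H37_KC_XE

/-!
# Row XE of MP_95be7d_K4B (50 lines)

`EW = X/2 - (e,Q) - ∫ bF` (`X1_exp`), `|∫ bF| ≤ 5 ∫Qe² + (4/30) X` (`X2_bF`), `∫ Qe² ≤ C (r⁸ + ln) ≤ C (r⁴ + ln)`, `|(e,Q)| ≤ C r⁴`.  Hence
`EW ≥ (1/2 - 4/30) X - C (r⁴ + ln)`, `X ≥ 0`: so `-C(r⁴+ln) ≤ EW` and `4 EW ≥ (22/15) X - 4C(r⁴+ln) ≥ X - 4C(r⁴+ln)`.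
-/

open MeasureTheory Filter Topology Set
open scoped ContDiff

namespace H37KC

open H98KB H68KC

theorem XEt {P E : ℝ → ℝ} (hpr : Prof P E) {γ B c : ℝ} (hγ : 0 < γ) (hγ' : γ ≤ 1 / 8) (hB : 16 ≤ B)
    (hc1 : c ≤ 1 / 10) : ∃ C : ℝ, 0 < C ∧ ∀ Ca r w m W et, r ≤ 1 → Sit P E γ B c Ca r w m W et →
    Xn (fun y => W y - Qf 4 y) ≤ 4 * EW W + C * (r ^ 4 + ln γ B (ep P E (r ^ 2) W)) ∧
    -C * (r ^ 4 + ln γ B (ep P E (r ^ 2) W)) ≤ EW W := by
  obtain ⟨C1, hC1, h1⟩ := X3_Qe hpr (c := c) hγ hγ' hB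
  obtain ⟨C2, hC2, h2⟩ := X3_ip (P := P) (E := E) (γ := γ) (B := B) (c := c)
  refine ⟨4 * (5 * C1 + C2), by positivity, ?_⟩
  intro Ca r w m W et hr S
  obtain ⟨p, q, hp, hp', hq, hq', hcl, hce⟩ := S.cl
  have e1 := X1_exp hp hq hp' hq' hcl
  have e2 := X2_bF hp hq hcl (fun y => (S.sup y).trans hc1) S.L1
  have e3 := h1 Ca r w m W et hr S
  have e4 := h2 Ca r w m W et hr S
  have hX : 0 ≤ Xn (fun y => W y - Qf 4 y) := integral_nonneg fun y => sq_nonneg _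
  have hln := X3_ln (γ := γ) (B := B) (ep P E (r ^ 2) W)
  have hr8 : r ^ 8 ≤ r ^ 4 := pow_le_pow_of_le_one S.r0.le hr (by norm_num)
  have hr4 : 0 ≤ r ^ 4 := pow_nonneg S.r0.le 4
  have e5 : C1 * (r ^ 8 + ln γ B (ep P E (r ^ 2) W)) ≤ C1 * (r ^ 4 + ln γ B (ep P E (r ^ 2) W)) :=
    mul_le_mul_of_nonneg_left (by linarith) hC1.le
  have e6 : C2 * r ^ 4 ≤ C2 * (r ^ 4 + ln γ B (ep P E (r ^ 2) W)) :=
    mul_le_mul_of_nonneg_left (by linarith) hC2.le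
  have e7 : 0 ≤ C1 * (r ^ 4 + ln γ B (ep P E (r ^ 2) W)) := by positivity
  have e8 : 0 ≤ C2 * (r ^ 4 + ln γ B (ep P E (r ^ 2) W)) := by positivity
  rw [abs_le] at e2 e4
  obtain ⟨_, e2b⟩ := e2
  obtain ⟨_, e4b⟩ := e4
  generalize Xn (fun y => W y - Qf 4 y) = X at *
  generalize ln γ B (ep P E (r ^ 2) W) = L at *
  constructor
  · nlinarith
  · nlinarith

end H37KC

end S_H37_KC_XE
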