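import Mathlib
import Pool.Agent.H98.BU.G01

/-! Blow-up for `u_t + u^k u_x + u_xxx - u_xx = 0`, part G19: this file joins several modules
to save build time (`Pool/Agent/H98/{KB,KC}`, `H72/{KB,KC}`, `H68/KC`, `H37/{KB,KC}`). -/

section S_H72_KB_UFb

/-!
# Row UFb: uniform bounds and joint continuity for the family `U, e`

`UF_bound`: for `a = 0` use `(h.app 0 _).bound j`, for general `a` add `h.lip j` (with `a' = 0`, `|a - 0| ≤ a₁`);
the constant can be taken nonnegative (evaluate or replace by `|C|`; `bd > 0` by `bd_pos`).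
`UF_jc`: at `(a₀,t₀,x₀)`:
 `|F(a,t,x) - F(a₀,t₀,x₀)| ≤ |F(a,t,x) - F(a₀,t,x)| + |F(a₀,t,x) - F(a₀,t,x₀)| + |F(a₀,t,x₀) - F(a₀,t₀,x₀)|
   ≤ C |a-a₀| + C' |x-x₀| + o(1)`
with `h.lip j` (`bd ≤ 1`, `bd_le_one`), the mean value theorem with `UF_bound (j+1)`
(`iteratedDeriv (j+1) f = deriv (iteratedDeriv j f)`, `Convex.norm_image_sub_le_of_norm_deriv_le`;
`iteratedDeriv j` of a `ContDiff ℝ ∞` function is differentiable), and `(h.app a₀ _).cont j x₀`.
-/

open MeasureTheory Filter Topology Set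
open scoped ContDiff

namespace H72KB

open H98KB

theorem UFb_bd {T α a₁ : ℝ} {F : ℝ → ℝ → ℝ → ℝ} (ha : 0 ≤ a₁) (j : ℕ)
    (h0 : ∃ C : ℝ, ∀ t ∈ Icc 0 T, ∀ x, |iteratedDeriv j (F 0 t) x| ≤ C * bd (α / 2) (1 / 16) x)
    (hl : ∃ C : ℝ, ∀ a ∈ Icc (-a₁) a₁, ∀ a' ∈ Icc (-a₁) a₁, ∀ t ∈ Icc 0 T, ∀ x,
      |iteratedDeriv j (F a t) x - iteratedDeriv j (F a' t) x| ≤
        C * |a - a'| * bd (α / 2) (1 / 16) x) :
    ∃ C : ℝ, 0 ≤ C ∧ ∀ a ∈ Icc (-a₁) a₁, ∀ t ∈ Icc 0 T, ∀ x,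
      |iteratedDeriv j (F a t) x| ≤ C * bd (α / 2) (1 / 16) x := by
  obtain ⟨C0, h0⟩ := h0
  obtain ⟨C1, h1⟩ := hl
  refine ⟨|C0| + |C1| * a₁, by positivity, fun a ha' t ht x => ?_⟩
  have hb := (bd_pos (α / 2) (1 / 16) x).le
  have e0 := h0 t ht x
  have e1 := h1 a ha' 0 ⟨by linarith, ha⟩ t ht x
  have e2 : |a - 0| ≤ a₁ := by
    rw [sub_zero]
    exact abs_le.2 ha'
  have e3 : C0 * bd (α / 2) (1 / 16) x ≤ |C0| * bd (α / 2) (1 / 16) x :=
    mul_le_mul_of_nonneg_right (le_abs_self _) hb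
  have e4 : C1 * |a - 0| ≤ |C1| * a₁ :=
    le_trans (mul_le_mul_of_nonneg_right (le_abs_self _) (abs_nonneg _))
      (mul_le_mul_of_nonneg_left e2 (abs_nonneg _))
  have e5 : C1 * |a - 0| * bd (α / 2) (1 / 16) x ≤ |C1| * a₁ * bd (α / 2) (1 / 16) x :=
    mul_le_mul_of_nonneg_right e4 hb
  have e6 : |iteratedDeriv j (F a t) x| ≤
      |iteratedDeriv j (F a t) x - iteratedDeriv j (F 0 t) x| + |iteratedDeriv j (F 0 t) x| := by
    have e7 := abs_add_le (iteratedDeriv j (F a t) x - iteratedDeriv j (F 0 t) x)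
      (iteratedDeriv j (F 0 t) x)
    rwa [sub_add_cancel] at e7
  rw [add_mul]
  linarith

theorem UFb_jc {T α a₁ : ℝ} {F : ℝ → ℝ → ℝ → ℝ} (hα : 0 ≤ α) (j : ℕ)
    (hs : ∀ a ∈ Icc (-a₁) a₁, ∀ t ∈ Icc 0 T, ContDiff ℝ ∞ (F a t))
    (hb : ∃ C : ℝ, 0 ≤ C ∧ ∀ a ∈ Icc (-a₁) a₁, ∀ t ∈ Icc 0 T, ∀ x,
      |iteratedDeriv (j + 1) (F a t) x| ≤ C * bd (α / 2) (1 / 16) x)
    (hl : ∃ C : ℝ, ∀ a ∈ Icc (-a₁) a₁, ∀ a' ∈ Icc (-a₁) a₁, ∀ t ∈ Icc 0 T, ∀ x,
      |iteratedDeriv j (F a t) x - iteratedDeriv j (F a' t) x| ≤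
        C * |a - a'| * bd (α / 2) (1 / 16) x)
    (hc : ∀ a ∈ Icc (-a₁) a₁, ∀ x, ContinuousOn (fun t => iteratedDeriv j (F a t) x) (Icc 0 T)) :
    ContinuousOn (fun z : ℝ × ℝ × ℝ => iteratedDeriv j (F z.1 z.2.1) z.2.2)
      (Icc (-a₁) a₁ ×ˢ (Icc 0 T ×ˢ univ)) := by
  obtain ⟨C, hC0, hC⟩ := hb
  obtain ⟨C1, h1⟩ := hl
  have hbd1 : ∀ z, bd (α / 2) (1 / 16) z ≤ 1 := fun z =>
    bd_le_one (by linarith) (by norm_num) z
  have hx : ∀ a ∈ Icc (-a₁) a₁, ∀ t ∈ Icc 0 T, ∀ x y,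
      |iteratedDeriv j (F a t) x - iteratedDeriv j (F a t) y| ≤ C * |x - y| := by
    intro a ha t ht x y
    have hd : Differentiable ℝ (iteratedDeriv j (F a t)) :=
      (hs a ha t ht).differentiable_iteratedDeriv j (by exact_mod_cast WithTop.coe_lt_top j)
    have hder : ∀ z, ‖deriv (iteratedDeriv j (F a t)) z‖ ≤ C := by
      intro z
      rw [← iteratedDeriv_succ, Real.norm_eq_abs]
      exact le_trans (hC a ha t ht z) (mul_le_of_le_one_right hC0 (hbd1 z))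
    have h2 := Convex.norm_image_sub_le_of_norm_deriv_le (s := (univ : Set ℝ))
      (fun z _ => hd z) (fun z _ => hder z) convex_univ (mem_univ y) (mem_univ x)
    simpa only [Real.norm_eq_abs] using h2
  rintro z0 ⟨ha0, ht0, -⟩
  have h3 : Tendsto (fun z : ℝ × ℝ × ℝ => z.2.1) (𝓝[Icc (-a₁) a₁ ×ˢ (Icc 0 T ×ˢ univ)] z0)
      (𝓝[Icc 0 T] z0.2.1) := by
    refine tendsto_nhdsWithin_iff.2 ⟨?_, ?_⟩
    · exact ((continuous_fst.comp continuous_snd).tendsto z0).mono_left nhdsWithin_le_nhds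
    · filter_upwards [self_mem_nhdsWithin] with z hz
      exact hz.2.1
  have h4 := (hc z0.1 ha0 z0.2.2 z0.2.1 ht0).tendsto.comp h3
  have h5 : Tendsto (fun z : ℝ × ℝ × ℝ => |iteratedDeriv j (F z0.1 z.2.1) z0.2.2 -
      iteratedDeriv j (F z0.1 z0.2.1) z0.2.2|)
      (𝓝[Icc (-a₁) a₁ ×ˢ (Icc 0 T ×ˢ univ)] z0) (𝓝 0) := by
    have h6 := (h4.sub_const (iteratedDeriv j (F z0.1 z0.2.1) z0.2.2)).abs
    rw [sub_self, abs_zero] at h6
    exact h6
  have h7 : Tendsto (fun z : ℝ × ℝ × ℝ => |C1| * |z.1 - z0.1| + C * |z.2.2 - z0.2.2|)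
      (𝓝[Icc (-a₁) a₁ ×ˢ (Icc 0 T ×ˢ univ)] z0) (𝓝 0) := by
    have h8 : Continuous (fun z : ℝ × ℝ × ℝ => |C1| * |z.1 - z0.1| + C * |z.2.2 - z0.2.2|) := by
      fun_prop
    have h9 := (h8.tendsto z0).mono_left (nhdsWithin_le_nhds
      (s := Icc (-a₁) a₁ ×ˢ (Icc 0 T ×ˢ (univ : Set ℝ))))
    simpa only [sub_self, abs_zero, mul_zero, add_zero] using h9
  have h10 := h7.add h5
  rw [add_zero] at h10
  rw [ContinuousWithinAt, tendsto_iff_dist_tendsto_zero]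
  refine squeeze_zero' (Eventually.of_forall fun _ => dist_nonneg) ?_ h10
  filter_upwards [self_mem_nhdsWithin] with z hz
  obtain ⟨ha, ht, -⟩ := hz
  rw [Real.dist_eq]
  have k1 := h1 z.1 ha z0.1 ha0 z.2.1 ht z.2.2
  have k2 := hx z0.1 ha0 z.2.1 ht z.2.2 z0.2.2
  have k3 : C1 * |z.1 - z0.1| * bd (α / 2) (1 / 16) z.2.2 ≤ |C1| * |z.1 - z0.1| := by
    have k4 : C1 * |z.1 - z0.1| * bd (α / 2) (1 / 16) z.2.2 ≤
        |C1| * |z.1 - z0.1| * bd (α / 2) (1 / 16) z.2.2 :=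
      mul_le_mul_of_nonneg_right
        (mul_le_mul_of_nonneg_right (le_abs_self _) (abs_nonneg _)) (bd_pos _ _ _).le
    exact le_trans k4 (mul_le_of_le_one_right (by positivity) (hbd1 _))
  have k5 := abs_add_three (iteratedDeriv j (F z.1 z.2.1) z.2.2 -
      iteratedDeriv j (F z0.1 z.2.1) z.2.2)
    (iteratedDeriv j (F z0.1 z.2.1) z.2.2 - iteratedDeriv j (F z0.1 z.2.1) z0.2.2)
    (iteratedDeriv j (F z0.1 z.2.1) z0.2.2 - iteratedDeriv j (F z0.1 z0.2.1) z0.2.2)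
  have k6 : iteratedDeriv j (F z.1 z.2.1) z.2.2 - iteratedDeriv j (F z0.1 z.2.1) z.2.2 +
      (iteratedDeriv j (F z0.1 z.2.1) z.2.2 - iteratedDeriv j (F z0.1 z.2.1) z0.2.2) +
      (iteratedDeriv j (F z0.1 z.2.1) z0.2.2 - iteratedDeriv j (F z0.1 z0.2.1) z0.2.2) =
      iteratedDeriv j (F z.1 z.2.1) z.2.2 - iteratedDeriv j (F z0.1 z0.2.1) z0.2.2 := by ring
  rw [k6] at k5
  linarith

theorem UF_bound {k : ℕ} {T α a₁ : ℝ} {U e : ℝ → ℝ → ℝ → ℝ} (ha : 0 ≤ a₁)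
    (h : UF k T α a₁ U e) (j : ℕ) : ∃ C : ℝ, 0 ≤ C ∧ ∀ a ∈ Icc (-a₁) a₁, ∀ t ∈ Icc 0 T, ∀ x,
      |iteratedDeriv j (U a t) x| ≤ C * bd (α / 2) (1 / 16) x ∧
      |iteratedDeriv j (e a t) x| ≤ C * bd (α / 2) (1 / 16) x := by
  have h00 : (0 : ℝ) ∈ Icc (-a₁) a₁ := ⟨by linarith, ha⟩
  obtain ⟨L, hL⟩ := h.lip j
  obtain ⟨C1, hC1, h1⟩ := UFb_bd (F := U) ha j ((h.app 0 h00).bound j)
    ⟨L, fun a ha' a' ha'' t ht x => (hL a ha' a' ha'' t ht x).1⟩
  obtain ⟨C2, hC2, h2⟩ := UFb_bd (F := e) ha j ((h.app 0 h00).bound' j)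
    ⟨L, fun a ha' a' ha'' t ht x => (hL a ha' a' ha'' t ht x).2⟩
  refine ⟨max C1 C2, le_max_of_le_left hC1, fun a ha' t ht x => ⟨?_, ?_⟩⟩
  · exact le_trans (h1 a ha' t ht x)
      (mul_le_mul_of_nonneg_right (le_max_left _ _) (bd_pos _ _ _).le)
  · exact le_trans (h2 a ha' t ht x)
      (mul_le_mul_of_nonneg_right (le_max_right _ _) (bd_pos _ _ _).le)

theorem UF_jc {k : ℕ} {T α a₁ : ℝ} {U e : ℝ → ℝ → ℝ → ℝ} (hα : 0 ≤ α) (ha : 0 ≤ a₁)
    (h : UF k T α a₁ U e) (j : ℕ) :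
    ContinuousOn (fun z : ℝ × ℝ × ℝ => iteratedDeriv j (U z.1 z.2.1) z.2.2)
      (Icc (-a₁) a₁ ×ˢ (Icc 0 T ×ˢ univ)) ∧
    ContinuousOn (fun z : ℝ × ℝ × ℝ => iteratedDeriv j (e z.1 z.2.1) z.2.2)
      (Icc (-a₁) a₁ ×ˢ (Icc 0 T ×ˢ univ)) := by
  obtain ⟨C, hC0, hC⟩ := UF_bound ha h (j + 1)
  obtain ⟨L, hL⟩ := h.lip j
  constructor
  · exact UFb_jc (F := U) hα j (fun a ha' => (h.app a ha').smooth)
      ⟨C, hC0, fun a ha' t ht x => (hC a ha' t ht x).1⟩
      ⟨L, fun a ha' a' ha'' t ht x => (hL a ha' a' ha'' t ht x).1⟩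
      (fun a ha' x => (h.app a ha').cont j x)
  · exact UFb_jc (F := e) hα j (fun a ha' => (h.app a ha').smooth')
      ⟨C, hC0, fun a ha' t ht x => (hC a ha' t ht x).2⟩
      ⟨L, fun a ha' a' ha'' t ht x => (hL a ha' a' ha'' t ht x).2⟩
      (fun a ha' x => (h.app a ha').cont' j x)

end H72KB

end S_H72_KB_UFb

section S_H72_KB_FamR

/-!
# Row FamR: the functions `ε(a,t)` form a `Fam` on `[-a₁,a₁] × [0,T]`

Proof.  `θ = lo/16`.  For `z = (a,t) ∈ S`: `l = lb.. ∈ [lo,hi]`, `x = xb.. ∈ [-X₀,X₀]`, `epa = l^{2/k} U(l y + x) - Q`.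
`R l + θ ≤ 1/2`: `16 R hi ≤ 1`, `lo ≤ hi ≤ 1/16` (`R ≥ 1`).  `cl`: `clp` is continuous, `P` jointly continuous
(`Traj.cont`).  `sm`: composition of smooth functions.
`bd`: `iteratedDeriv j (Wf k U l x) y = l^{2/k} l^j iteratedDeriv j U (l y + x)` (`iter_comp`), `|..| ≤
 C bd (α/2) (1/16) (l y + x) ≤ C exp((α/2+1/16) X₀) bd (l α/2) (l/16) y` (`UF_bound`, `bd_shift`), and
 `l α/2 = 2 R l ≥ R l + θ` (`R l ≥ lo ≥ θ`), `l/16 ≥ θ`: `bd_anti`.  For `Q`: `Q_cl` gives `C bd 1 1`, `R l + θ ≤ 1`,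
 `θ ≤ 1`: `bd_anti`.
`co`: `iteratedDeriv j (epa ..) y = l^{2/k} l^j iteratedDeriv j (U a t) (l y + x) - iteratedDeriv j Q y` and `UF_jc`
 composed with the continuous map `z ↦ (z.1, z.2, l y + x)`; `l ↦ l^{2/k}` is continuous for `l > 0`.
-/

open MeasureTheory Filter Topology Set
open scoped ContDiff

namespace H72KB

open H98KB

/-- derivatives of the rescaled function -/
theorem iter_Wf {k : ℕ} {U : ℝ → ℝ} (hU : ContDiff ℝ ∞ U) (l x : ℝ) (j : ℕ) (y : ℝ) :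
    iteratedDeriv j (Wf k U l x) y = l ^ (2 / (k : ℝ)) * l ^ j * iteratedDeriv j U (l * y + x) := by
  have e : Wf k U l x = fun y => l ^ (2 / (k : ℝ)) * (fun z => U (l * z + x)) y := rfl
  rw [e, iteratedDeriv_const_mul_field, iter_comp hU, mul_assoc]

theorem FamR_clp_lo {lo hi : ℝ} (s : ℝ) : lo ≤ clp lo hi s := le_max_left _ _

theorem FamR_clp_hi {lo hi : ℝ} (h : lo ≤ hi) (s : ℝ) : clp lo hi s ≤ hi :=
  max_le h (min_le_right _ _)

theorem FamR_clp_cont (lo hi : ℝ) : Continuous (clp lo hi) := by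
  unfold clp
  fun_prop

theorem FamR_smooth {k : ℕ} {U : ℝ → ℝ} (hU : ContDiff ℝ ∞ U) (l x : ℝ) :
    ContDiff ℝ ∞ (Wf k U l x) := by
  have hid : ContDiff ℝ ∞ (fun z : ℝ => l * z + x) :=
    (contDiff_const.mul contDiff_fun_id).add contDiff_const
  exact contDiff_const.mul (hU.comp hid)

/-- derivatives of `ε` -/
theorem FamR_iter {k : ℕ} (hk : 1 ≤ k) {U : ℝ → ℝ} (hU : ContDiff ℝ ∞ U) (l x : ℝ) (j : ℕ)
    (y : ℝ) : iteratedDeriv j (epf k U l x) y =
      l ^ (2 / (k : ℝ)) * l ^ j * iteratedDeriv j U (l * y + x) - iteratedDeriv j (Qf k) y := by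
  have e : epf k U l x = fun y => Wf k U l x y - Qf k y := rfl
  rw [e, iteratedDeriv_fun_sub (ClB_at (FamR_smooth hU l x) j y)
    (ClB_at (Q_cl hk).1 j y), iter_Wf hU]

theorem fam_epa {k : ℕ} {T α a₁ l₀ lo hi X₀ R : ℝ} {U e : ℝ → ℝ → ℝ → ℝ} {P : ℝ → ℝ → ℝ × ℝ}
    (hk : 5 ≤ k) (hT : 0 < T) (ha : 0 ≤ a₁) (hR : 1 ≤ R) (hα : α = 4 * R) (hlo : 0 < lo)
    (hlh : lo ≤ hi) (hhi : 16 * R * hi ≤ 1) (hX : 0 ≤ X₀) (h : UF k T α a₁ U e)
    (hP : Traj k T a₁ l₀ lo hi X₀ U e P) :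
    Fam R (lo / 16) (Icc (-a₁) a₁ ×ˢ Icc 0 T) (fun z => lb lo hi P z.1 z.2)
      (fun z => epa k lo hi X₀ U P z.1 z.2) := by
  have hk1 : 1 ≤ k := by omega
  have hlb : ∀ a t, lo ≤ lb lo hi P a t := fun a t => FamR_clp_lo _
  have hlb' : ∀ a t, lb lo hi P a t ≤ hi := fun a t => FamR_clp_hi hlh _
  have hhi0 : 0 < hi := lt_of_lt_of_le hlo hlh
  have hRhi : R * hi ≤ 1 / 16 := by linarith
  have hhi1 : hi ≤ 1 / 16 := by nlinarith
  have hxb : ∀ a t, |xb X₀ P a t| ≤ X₀ := fun a t =>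
    abs_le.2 ⟨FamR_clp_lo _, FamR_clp_hi (by linarith) _⟩
  have hcl : ContinuousOn (fun z : ℝ × ℝ => lb lo hi P z.1 z.2) (Icc (-a₁) a₁ ×ˢ Icc 0 T) :=
    (FamR_clp_cont lo hi).comp_continuousOn (continuous_fst.comp_continuousOn hP.cont)
  have hcx : ContinuousOn (fun z : ℝ × ℝ => xb X₀ P z.1 z.2) (Icc (-a₁) a₁ ×ˢ Icc 0 T) :=
    (FamR_clp_cont (-X₀) X₀).comp_continuousOn (continuous_snd.comp_continuousOn hP.cont)
  refine ⟨by linarith, by linarith, ?_, ?_, ?_, hcl, ?_, ?_, ?_⟩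
  · intro z _
    have := hlb z.1 z.2
    show lo / 16 ≤ lb lo hi P z.1 z.2
    linarith
  · intro z _
    have := hlb' z.1 z.2
    show lb lo hi P z.1 z.2 ≤ 1
    linarith
  · intro z _
    have h1 := hlb' z.1 z.2
    have h2 : R * lb lo hi P z.1 z.2 ≤ R * hi := mul_le_mul_of_nonneg_left h1 (by linarith)
    show R * lb lo hi P z.1 z.2 + lo / 16 ≤ 1 / 2
    linarith
  · intro z hz
    exact (FamR_smooth ((h.app z.1 hz.1).smooth z.2 hz.2) _ _).sub (Q_cl hk1).1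
  · intro j
    obtain ⟨C, hC0, hC⟩ := UF_bound ha h j
    obtain ⟨D, hD0, hD⟩ := ClB_pos (Q_cl hk1) j
    refine ⟨C * Real.exp ((α / 2 + 1 / 16) * X₀) + D, fun z hz y => ?_⟩
    show |iteratedDeriv j (epf k (U z.1 z.2) (lb lo hi P z.1 z.2) (xb X₀ P z.1 z.2)) y| ≤ _
    have hl0 := hlb z.1 z.2
    have hl1 := hlb' z.1 z.2
    have hx := hxb z.1 z.2
    set l := lb lo hi P z.1 z.2 with hl
    set x := xb X₀ P z.1 z.2 with hxd
    have hlpos : 0 < l := lt_of_lt_of_le hlo hl0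
    have hl16 : l ≤ 1 / 16 := hl1.trans hhi1
    rw [FamR_iter hk1 ((h.app z.1 hz.1).smooth z.2 hz.2)]
    have hRl : R * l ≤ R * hi := mul_le_mul_of_nonneg_left hl1 (by linarith)
    have hlR : l ≤ R * l := by nlinarith
    have hα0 : 0 ≤ α / 2 := by linarith
    have h1 : |iteratedDeriv j (U z.1 z.2) (l * y + x)| ≤
        C * Real.exp ((α / 2 + 1 / 16) * X₀) * bd (R * l + lo / 16) (lo / 16) y := by
      refine ((hC z.1 hz.1 z.2 hz.2 (l * y + x)).1).trans ?_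
      rw [mul_assoc]
      refine mul_le_mul_of_nonneg_left ?_ hC0
      refine (bd_shift hα0 (by norm_num) hlpos.le x y).trans ?_
      have h2 : Real.exp ((α / 2 + 1 / 16) * |x|) ≤ Real.exp ((α / 2 + 1 / 16) * X₀) :=
        Real.exp_le_exp.2 (mul_le_mul_of_nonneg_left hx (by linarith))
      have h3 : bd (l * (α / 2)) (l * (1 / 16)) y ≤ bd (R * l + lo / 16) (lo / 16) y := by
        refine bd_anti ?_ ?_ y
        · rw [hα]
          nlinarith
        · linarith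
      exact mul_le_mul h2 h3 (bd_pos _ _ _).le (Real.exp_pos _).le
    have h4 : |l ^ (2 / (k : ℝ)) * l ^ j| ≤ 1 := by
      rw [abs_of_nonneg (by positivity)]
      have h5 : l ^ (2 / (k : ℝ)) ≤ 1 :=
        Real.rpow_le_one hlpos.le (by linarith) (by positivity)
      have h6 : l ^ j ≤ 1 := pow_le_one₀ hlpos.le (by linarith)
      exact mul_le_one₀ h5 (by positivity) h6
    have h7 : |iteratedDeriv j (Qf k) y| ≤ D * bd (R * l + lo / 16) (lo / 16) y := by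
      refine (hD y).trans (mul_le_mul_of_nonneg_left (bd_anti ?_ ?_ y) hD0)
      · linarith
      · linarith
    refine (abs_sub _ _).trans ?_
    rw [add_mul, abs_mul]
    refine add_le_add ?_ h7
    refine le_trans ?_ h1
    exact mul_le_of_le_one_left (abs_nonneg _) h4
  · intro j y
    have hjc := (UF_jc (by linarith) ha h j).1
    have e : ∀ z ∈ (Icc (-a₁) a₁ ×ˢ Icc 0 T : Set (ℝ × ℝ)),
        iteratedDeriv j (epa k lo hi X₀ U P z.1 z.2) y =
        (lb lo hi P z.1 z.2) ^ (2 / (k : ℝ)) * (lb lo hi P z.1 z.2) ^ j *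
          iteratedDeriv j (U z.1 z.2) (lb lo hi P z.1 z.2 * y + xb X₀ P z.1 z.2) -
          iteratedDeriv j (Qf k) y := by
      intro z hz
      exact FamR_iter hk1 ((h.app z.1 hz.1).smooth z.2 hz.2) _ _ j y
    refine ContinuousOn.congr ?_ e
    have c1 : ContinuousOn (fun z : ℝ × ℝ => (lb lo hi P z.1 z.2) ^ (2 / (k : ℝ)))
        (Icc (-a₁) a₁ ×ˢ Icc 0 T) := by
      refine hcl.rpow_const (fun z _ => Or.inl ?_)
      have := hlb z.1 z.2
      linarith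
    have c2 : ContinuousOn (fun z : ℝ × ℝ => (lb lo hi P z.1 z.2) ^ j)
        (Icc (-a₁) a₁ ×ˢ Icc 0 T) := hcl.pow j
    have c3 : ContinuousOn (fun z : ℝ × ℝ =>
        ((z.1, z.2, lb lo hi P z.1 z.2 * y + xb X₀ P z.1 z.2) : ℝ × ℝ × ℝ))
        (Icc (-a₁) a₁ ×ˢ Icc 0 T) :=
      continuousOn_fst.prodMk (continuousOn_snd.prodMk ((hcl.mul continuousOn_const).add hcx))
    have c4 : ContinuousOn (fun z : ℝ × ℝ =>
        iteratedDeriv j (U z.1 z.2) (lb lo hi P z.1 z.2 * y + xb X₀ P z.1 z.2))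
        (Icc (-a₁) a₁ ×ˢ Icc 0 T) :=
      hjc.comp c3 (fun z hz => ⟨hz.1, hz.2, mem_univ _⟩)
    exact ((c1.mul c2).mul c4).sub continuousOn_const

end H72KB

end S_H72_KB_FamR

section S_H72_KB_FlowR

/-!
# Row FlowR: along a trajectory, near a time where the clips are inactive, `ε` is a `Flow`

Proof.  `t₀ ∈ (0,T)`, `lo < (P a t₀).1 < hi`, `|(P a t₀).2| < X₀`.  By continuity of `P a` (it is differentiable at every
`t ∈ (0,T)` by `hP.ode`) the set `J = {t ∈ (0,T) : lo < (P a t).1 < hi, |(P a t).2| < X₀}` is open and contains `t₀`.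
On `J`: `lb lo hi P a t = (P a t).1 =: l(t)`, `xb X₀ P a t = (P a t).2 =: x(t)`, and since `J` is open these equalities
hold near each `t ∈ J`; so `lb` has derivative `-(ba)/l²` (first component of `VF`, which at such `t` is
`(-(ba)/l², (1+ma)/l²)`), and `x' = (1+ma)/l²`.
`lo, hi, hr, bd, be, sm, se, bm`: as in `fam_epa` (use `fam_epa` for `ε`; for `e` the same computation;
`bm`: `bfn_lip` bound or: `ba`, `ma` are bounded by `VF_props`-type bound: `|ba| ≤ L l² ≤ L`; the simplest is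
`‖VF‖ ≤ L` from `VF_props` with `l ≤ 1`: `|b| ≤ L l²`, `|1+m| ≤ L l²`).
`ev`: with `V_j(t,z) = iteratedDeriv j (U a t) z`, `iteratedDeriv j (epa..) y = l^{2/k+j} V_j(t, l y + x) - Q^{(j)}(y)`
(`iter_Wf`).  CHAIN RULE: `V_j(·,z)` is differentiable at `t` with derivative `(App.evol j)`, `V_j(t,·)` has derivative
`V_{j+1}`, jointly continuous (`UF_jc`); hence `d/dt V_j(t,z(t)) = ∂_t V_j (t,z(t)) + V_{j+1}(t,z(t)) z'(t)` by
 `V_j(t+h,z(t+h)) - V_j(t,z(t)) = [V_j(t+h,z(t+h)) - V_j(t+h,z(t))] + [V_j(t+h,z(t)) - V_j(t,z(t))]`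
and the mean value theorem in the first bracket (or: `HasDerivAt` of `s ↦ ∫_{z(t)}^{z(s)} V_{j+1}(s,w) dw`).
So `d/dt [l^{2/k+j} V_j] = (2/k+j) l^{2/k+j-1} l' V_j + l^{2/k+j} (∂_t V_j + V_{j+1} (l' y + x'))`, `l' = -b/l²`,
`x' = (1+m)/l²`.
On the other side, with `W = Q + ε = Wf k (U a t) l x` and `Q'' = Q - fl k Q` (`Q_ode`), `g = -W'' + W - fl k W`, so
 `zeta = -W''' + W' - (fl k W)' - b Lam W + m W' + l W'' - E'`,  `E = ef k (e a t) l x`,
and `W(y) = l^{2/k} U(ly+x)` gives (as functions of `y`, `z = l y + x`; note `fl k (l^{2/k} u) = l^{2/k+2} fl k u` since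
`(l^{2/k})^{k+1} = l^{2/k} l^2`)
 `zeta(y) = l^{2/k+3} (-U_zzz + U_zz - (fl k U)_z - e_z)(z) - b (2/k) l^{2/k} U(z) + l^{2/k+1} U_z(z) (1 + m - b y)`.
`j`-th derivative in `y`: `iter_comp`-type formula, and `iteratedDeriv j (y G) = y G^{(j)} + j G^{(j-1)}`; compare.
-/

open MeasureTheory Filter Topology Set
open scoped ContDiff

namespace H72KB

open H98KB

/-- inactive clip -/
theorem FlowR_clp {lo hi s : ℝ} (h1 : lo < s) (h2 : s < hi) : clp lo hi s = s := by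
  unfold clp
  rw [min_eq_left h2.le, max_eq_right h1.le]

/-- chain rule in two variables with a separate derivative in the first one -/
theorem FlowR_chain {V V' : ℝ → ℝ → ℝ} {z : ℝ → ℝ} {t z' A : ℝ} {J : Set ℝ} (hJ : J ∈ 𝓝 t)
    (h1 : HasDerivAt (fun τ => V τ (z t)) A t)
    (h2 : ∀ τ ∈ J, ∀ w, HasDerivAt (V τ) (V' τ w) w)
    (h3 : ContinuousAt (fun q : ℝ × ℝ => V' q.1 q.2) (t, z t))
    (hz : HasDerivAt z z' t) :
    HasDerivAt (fun τ => V τ (z τ)) (A + V' t (z t) * z') t := by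
  have hlo : (fun τ => V τ (z τ) - V τ (z t) - V' t (z t) * (z τ - z t)) =o[𝓝 t]
      fun τ => z τ - z t := by
    rw [Asymptotics.isLittleO_iff]
    intro c hc
    obtain ⟨δ, hδ, h5⟩ := Metric.continuousAt_iff.1 h3 c hc
    have h6 : ∀ᶠ τ in 𝓝 t, dist τ t < δ := Metric.ball_mem_nhds _ hδ
    have h7 : ∀ᶠ τ in 𝓝 t, dist (z τ) (z t) < δ :=
      hz.continuousAt.eventually (Metric.ball_mem_nhds _ hδ)
    filter_upwards [hJ, h6, h7] with τ a b c'
    have key : ‖(V τ (z τ) - V' t (z t) * z τ) - (V τ (z t) - V' t (z t) * z t)‖ ≤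
        c * ‖z τ - z t‖ := by
      refine (convex_ball (z t) δ).norm_image_sub_le_of_norm_hasDerivWithin_le
        (f := fun w => V τ w - V' t (z t) * w) (f' := fun w => V' τ w - V' t (z t)) (C := c)
        ?_ ?_ (Metric.mem_ball_self hδ) c'
      · intro w hw
        have h8 := (h2 τ a w).sub ((hasDerivAt_id w).const_mul (V' t (z t)))
        rw [mul_one] at h8
        exact h8.hasDerivWithinAt
      · intro w hw
        have h9 := h5 (x := (τ, w)) (by rw [Prod.dist_eq]; exact max_lt b hw)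
        rw [Real.dist_eq] at h9
        exact h9.le
    have e : V τ (z τ) - V τ (z t) - V' t (z t) * (z τ - z t) =
        (V τ (z τ) - V' t (z t) * z τ) - (V τ (z t) - V' t (z t) * z t) := by ring
    rw [e]
    exact key
  have h8 : HasDerivAt (fun τ => V τ (z τ) - V τ (z t) - V' t (z t) * (z τ - z t)) 0 t := by
    rw [hasDerivAt_iff_isLittleO]
    have h9 := hlo.trans_isBigO hz.isBigO_sub
    refine h9.congr' (Eventually.of_forall fun τ => ?_) EventuallyEq.rfl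
    simp
  have h10 := (h8.add h1).add ((hz.sub_const (z t)).const_mul (V' t (z t)))
  refine (h10.congr_deriv (by ring)).congr_of_eventuallyEq (Eventually.of_forall fun τ => ?_)
  simp only [Pi.add_apply]
  ring

theorem FlowR_dit {u : ℝ → ℝ} (hu : ContDiff ℝ ∞ u) (i : ℕ) (y : ℝ) :
    HasDerivAt (iteratedDeriv i u) (iteratedDeriv (i + 1) u y) y := by
  rw [iteratedDeriv_succ]
  have h1 : ContDiff ℝ (i + 1 : ℕ) u := contDiff_infty.1 hu (i + 1)
  have h2 := h1.differentiable_iteratedDeriv i (by exact_mod_cast Nat.lt_succ_self i)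
  exact (h2 y).hasDerivAt

theorem FlowR_ymul {u : ℝ → ℝ} (hu : ContDiff ℝ ∞ u) (j : ℕ) (y : ℝ) :
    iteratedDeriv j (fun y => y * deriv u y) y =
      y * iteratedDeriv (j + 1) u y + j * iteratedDeriv j u y := by
  induction j generalizing y with
  | zero => simp [iteratedDeriv_one]
  | succ j ih =>
    have e : iteratedDeriv j (fun y => y * deriv u y) =
      fun y => y * iteratedDeriv (j + 1) u y + j * iteratedDeriv j u y := funext ih
    rw [iteratedDeriv_succ, e]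
    have h1 := ((hasDerivAt_id y).mul (FlowR_dit hu (j + 1) y)).add
      ((FlowR_dit hu j y).const_mul (j : ℝ))
    refine (h1.deriv).trans ?_
    simp only [id_eq]
    push_cast
    ring

theorem FlowR_sm {f : ℝ → ℝ} (hf : ContDiff ℝ ∞ f) (l x : ℝ) :
    ContDiff ℝ ∞ (fun y => f (l * y + x)) :=
  hf.comp ((contDiff_const.mul contDiff_fun_id).add contDiff_const)

theorem FlowR_comp1 {f : ℝ → ℝ} (hf : ContDiff ℝ ∞ f) (l x y : ℝ) :
    HasDerivAt (fun y => f (l * y + x)) (l * deriv f (l * y + x)) y := by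
  have h1 : HasDerivAt (fun y : ℝ => l * y + x) l y := by
    simpa using ((hasDerivAt_id y).const_mul l).add_const x
  have h2 : HasDerivAt f (deriv f (l * y + x)) (l * y + x) :=
    ((hf.differentiable (by simp)) _).hasDerivAt
  have h3 := h2.comp y h1
  rw [mul_comm]
  exact h3

theorem FlowR_pow {k : ℕ} (hk : 5 ≤ k) {l : ℝ} (hl : 0 < l) :
    (l ^ (2 / (k : ℝ))) ^ (k + 1) = l ^ (2 / (k : ℝ)) * l ^ 2 := by
  have hk0 : (k : ℝ) ≠ 0 := by
    have : k ≠ 0 := by omega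
    exact_mod_cast this
  rw [pow_succ, ← Real.rpow_natCast (l ^ (2 / (k : ℝ))) k, ← Real.rpow_mul hl.le]
  have e : 2 / (k : ℝ) * (k : ℝ) = 2 := by field_simp
  rw [e, mul_comm]
  norm_num

theorem FlowR_fl {k : ℕ} (hk : 5 ≤ k) {l : ℝ} (hl : 0 < l) (v : ℝ) :
    fl k (l ^ (2 / (k : ℝ)) * v) = l ^ (2 / (k : ℝ)) * l ^ 2 * fl k v := by
  unfold fl
  rw [mul_pow, FlowR_pow hk hl]
  ring

theorem FlowR_fls {k : ℕ} {U : ℝ → ℝ} (hU : ContDiff ℝ ∞ U) :
    ContDiff ℝ ∞ (fun z => fl k (U z)) := by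
  unfold fl
  exact (hU.pow (k + 1)).div_const _

/-- the right hand side of the equation for `U` -/
noncomputable def FlowR_H (k : ℕ) (U E : ℝ → ℝ) (z : ℝ) : ℝ :=
  -iteratedDeriv 3 U z + iteratedDeriv 2 U z - deriv (fun z' => fl k (U z')) z - deriv E z

theorem FlowR_its {u : ℝ → ℝ} (hu : ContDiff ℝ ∞ u) (i : ℕ) :
    ContDiff ℝ ∞ (iteratedDeriv i u) := by
  induction i with
  | zero =>
    rw [iteratedDeriv_zero]
    exact hu
  | succ j ih =>
    rw [iteratedDeriv_succ]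
    exact (contDiff_infty_iff_deriv.1 ih).2

theorem FlowR_Hs {k : ℕ} {U E : ℝ → ℝ} (hU : ContDiff ℝ ∞ U) (hE : ContDiff ℝ ∞ E) :
    ContDiff ℝ ∞ (FlowR_H k U E) :=
  (((FlowR_its hU 3).neg.add (FlowR_its hU 2)).sub
    (contDiff_infty_iff_deriv.1 (FlowR_fls hU)).2).sub (contDiff_infty_iff_deriv.1 hE).2

theorem FlowR_gf {k : ℕ} (hk : 5 ≤ k) {U : ℝ → ℝ} (hU : ContDiff ℝ ∞ U) {l : ℝ} (hl : 0 < l)
    (x : ℝ) : gf k (epf k U l x) = fun y =>
      -(l ^ (2 / (k : ℝ)) * l ^ 2 * iteratedDeriv 2 U (l * y + x))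
        + l ^ (2 / (k : ℝ)) * U (l * y + x)
        - l ^ (2 / (k : ℝ)) * l ^ 2 * fl k (U (l * y + x)) := by
  funext y
  have hk1 : 1 ≤ k := by omega
  have hQ := qbas_smooth hk1
  have hW : ContDiff ℝ ∞ (Wf k U l x) := contDiff_const.mul (FlowR_sm hU l x)
  have e1 : deriv (deriv (epf k U l x)) y =
      l ^ (2 / (k : ℝ)) * l ^ 2 * iteratedDeriv 2 U (l * y + x) -
        (Qf k y - fl k (Qf k y)) := by
    have e2 : deriv (deriv (epf k U l x)) y = iteratedDeriv 2 (epf k U l x) y := by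
      rw [iteratedDeriv_succ, iteratedDeriv_one]
    have e3 : iteratedDeriv 2 (Qf k) y = deriv (deriv (Qf k)) y := by
      rw [iteratedDeriv_succ, iteratedDeriv_one]
    have e4 : iteratedDeriv 2 (epf k U l x) y =
        iteratedDeriv 2 (Wf k U l x) y - iteratedDeriv 2 (Qf k) y :=
      iteratedDeriv_fun_sub (ClB_at hW 2 y) (ClB_at hQ 2 y)
    rw [e2, e4, e3, Q_ode hk1, iter_Wf hU]
  have e5 : Df k (epf k U l x) y = l ^ (2 / (k : ℝ)) * l ^ 2 * fl k (U (l * y + x)) -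
      fl k (Qf k y) := by
    unfold Df
    have e6 : Qf k y + epf k U l x y = l ^ (2 / (k : ℝ)) * U (l * y + x) := by
      unfold epf Wf
      ring
    rw [e6, FlowR_fl hk hl]
  unfold gf
  rw [e1, e5]
  unfold epf Wf
  ring

theorem FlowR_zeta {k : ℕ} (hk : 5 ≤ k) {U E : ℝ → ℝ} (hU : ContDiff ℝ ∞ U)
    (hE : ContDiff ℝ ∞ E) (b m : ℝ) {l : ℝ} (hl : 0 < l) (x : ℝ) :
    zeta k b m l (epf k U l x) (ef k E l x) = fun y =>
      ((l ^ (2 / (k : ℝ)) * l ^ 3) * FlowR_H k U E (l * y + x)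
        + ((1 + m) * l ^ (2 / (k : ℝ))) * deriv (fun y => U (l * y + x)) y)
        - ((b * l ^ (2 / (k : ℝ))) * (y * deriv (fun y => U (l * y + x)) y)
        + (b * (2 / (k : ℝ)) * l ^ (2 / (k : ℝ))) * U (l * y + x)) := by
  funext y
  have hk1 : 1 ≤ k := by omega
  have hQ := qbas_smooth hk1
  have hW : ContDiff ℝ ∞ (Wf k U l x) := contDiff_const.mul (FlowR_sm hU l x)
  have d1 : deriv (fun y => U (l * y + x)) y = l * deriv U (l * y + x) :=
    (FlowR_comp1 hU l x y).deriv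
  have d2 : deriv (gf k (epf k U l x)) y =
      -(l ^ (2 / (k : ℝ)) * l ^ 2 * (l * iteratedDeriv 3 U (l * y + x)))
        + l ^ (2 / (k : ℝ)) * (l * deriv U (l * y + x))
        - l ^ (2 / (k : ℝ)) * l ^ 2 * (l * deriv (fun z' => fl k (U z')) (l * y + x)) := by
    rw [FlowR_gf hk hU hl x]
    have f1 := (FlowR_comp1 (FlowR_its hU 2) l x y).const_mul (l ^ (2 / (k : ℝ)) * l ^ 2)
    have f2 := (FlowR_comp1 hU l x y).const_mul (l ^ (2 / (k : ℝ)))
    have f3 := (FlowR_comp1 (FlowR_fls (k := k) hU) l x y).const_mul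
      (l ^ (2 / (k : ℝ)) * l ^ 2)
    have f4 := ((f1.neg.add f2).sub f3).deriv
    refine Eq.trans ?_ (f4.trans ?_)
    · rfl
    · have f5 : iteratedDeriv 3 U = deriv (iteratedDeriv 2 U) := iteratedDeriv_succ
      rw [f5]
  have hWd : ∀ j : ℕ, iteratedDeriv j (epf k U l x) y =
      l ^ (2 / (k : ℝ)) * l ^ j * iteratedDeriv j U (l * y + x) - iteratedDeriv j (Qf k) y := by
    intro j
    have e4 : iteratedDeriv j (epf k U l x) y =
        iteratedDeriv j (Wf k U l x) y - iteratedDeriv j (Qf k) y :=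
      iteratedDeriv_fun_sub (ClB_at hW j y) (ClB_at hQ j y)
    rw [e4, iter_Wf hU]
  have e0 : epf k U l x y = l ^ (2 / (k : ℝ)) * U (l * y + x) - Qf k y := rfl
  have e1 : deriv (epf k U l x) y = l ^ (2 / (k : ℝ)) * l * deriv U (l * y + x) -
      deriv (Qf k) y := by
    have := hWd 1
    rw [iteratedDeriv_one, iteratedDeriv_one, iteratedDeriv_one, pow_one] at this
    exact this
  have e2 : deriv (deriv (epf k U l x)) y =
      l ^ (2 / (k : ℝ)) * l ^ 2 * iteratedDeriv 2 U (l * y + x) - deriv (deriv (Qf k)) y := by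
    have h2 := hWd 2
    have e3 : ∀ f : ℝ → ℝ, iteratedDeriv 2 f = deriv (deriv f) := by
      intro f
      rw [iteratedDeriv_succ, iteratedDeriv_one]
    rw [e3 (epf k U l x), e3 (Qf k)] at h2
    exact h2
  have e4 : deriv (ef k E l x) y = l ^ 2 * (l ^ (2 / (k : ℝ)) * (l * deriv E (l * y + x))) :=
    (((FlowR_comp1 hE l x y).const_mul (l ^ (2 / (k : ℝ)))).const_mul (l ^ 2)).deriv
  unfold zeta Nf Lam
  rw [d2, e0, e1, e2, e4]
  simp only [d1]
  unfold FlowR_H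
  ring

theorem FlowR_zetaj {k : ℕ} (hk : 5 ≤ k) {U E : ℝ → ℝ} (hU : ContDiff ℝ ∞ U)
    (hE : ContDiff ℝ ∞ E) (b m : ℝ) {l : ℝ} (hl : 0 < l) (x : ℝ) (j : ℕ) (y : ℝ) :
    iteratedDeriv j (zeta k b m l (epf k U l x) (ef k E l x)) y =
      (l ^ (2 / (k : ℝ)) * l ^ 3) * (l ^ j * iteratedDeriv j (FlowR_H k U E) (l * y + x))
        + ((1 + m) * l ^ (2 / (k : ℝ))) * (l ^ (j + 1) * iteratedDeriv (j + 1) U (l * y + x))
        - ((b * l ^ (2 / (k : ℝ))) * (y * (l ^ (j + 1) * iteratedDeriv (j + 1) U (l * y + x))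
            + j * (l ^ j * iteratedDeriv j U (l * y + x)))
        + (b * (2 / (k : ℝ)) * l ^ (2 / (k : ℝ))) *
            (l ^ j * iteratedDeriv j U (l * y + x))) := by
  rw [FlowR_zeta hk hU hE b m hl x]
  have hu := FlowR_sm hU l x
  have hdu : ContDiff ℝ ∞ (deriv (fun y => U (l * y + x))) := (contDiff_infty_iff_deriv.1 hu).2
  have hyd : ContDiff ℝ ∞ (fun y => y * deriv (fun y => U (l * y + x)) y) :=
    contDiff_fun_id.mul hdu
  have hH : ContDiff ℝ ∞ (fun y => FlowR_H k U E (l * y + x)) := FlowR_sm (FlowR_Hs hU hE) l x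
  have s1 : ContDiff ℝ ∞ (fun y => (l ^ (2 / (k : ℝ)) * l ^ 3) * FlowR_H k U E (l * y + x)) :=
    contDiff_const.mul hH
  have s2 : ContDiff ℝ ∞ (fun y => ((1 + m) * l ^ (2 / (k : ℝ))) *
      deriv (fun y => U (l * y + x)) y) := contDiff_const.mul hdu
  have s3 : ContDiff ℝ ∞ (fun y => (b * l ^ (2 / (k : ℝ))) *
      (y * deriv (fun y => U (l * y + x)) y)) := contDiff_const.mul hyd
  have s4 : ContDiff ℝ ∞ (fun y => (b * (2 / (k : ℝ)) * l ^ (2 / (k : ℝ))) *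
      U (l * y + x)) := contDiff_const.mul hu
  rw [iteratedDeriv_fun_sub (ClB_at (s1.add s2) j y) (ClB_at (s3.add s4) j y),
    iteratedDeriv_fun_add (ClB_at s1 j y) (ClB_at s2 j y),
    iteratedDeriv_fun_add (ClB_at s3 j y) (ClB_at s4 j y),
    iteratedDeriv_const_mul_field, iteratedDeriv_const_mul_field,
    iteratedDeriv_const_mul_field, iteratedDeriv_const_mul_field,
    iter_comp (FlowR_Hs hU hE), FlowR_ymul hu, iter_comp hU, iter_comp hU]
  have e1 : iteratedDeriv j (fun y => deriv (fun y => U (l * y + x)) y) y =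
      iteratedDeriv (j + 1) (fun y => U (l * y + x)) y := by
    rw [iteratedDeriv_succ']
  rw [e1, iter_comp hU]

theorem flow_epa {k : ℕ} {T α a₁ l₀ lo hi X₀ R : ℝ} {U e : ℝ → ℝ → ℝ → ℝ} {P : ℝ → ℝ → ℝ × ℝ}
    (hk : 5 ≤ k) (hT : 0 < T) (ha : 0 ≤ a₁) (hR : 1 ≤ R) (hα : α = 4 * R) (hlo : 0 < lo)
    (hlh : lo ≤ hi) (hhi : 16 * R * hi ≤ 1) (hX : 0 ≤ X₀) (h : UF k T α a₁ U e)
    (hP : Traj k T a₁ l₀ lo hi X₀ U e P) (L : ℝ)
    (hL : ∀ a ∈ Icc (-a₁) a₁, ∀ t ∈ Icc 0 T, ∀ P, ‖VF k lo hi X₀ (U a) (e a) t P‖ ≤ L)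
    {a t₀ : ℝ} (haI : a ∈ Icc (-a₁) a₁) (ht₀ : t₀ ∈ Ioo 0 T) (h1 : lo < (P a t₀).1)
    (h2 : (P a t₀).1 < hi) (h3 : |(P a t₀).2| < X₀) :
    ∃ J : Set ℝ, t₀ ∈ J ∧ J ⊆ Ioo 0 T ∧ (∀ t ∈ J, lo < (P a t).1 ∧ (P a t).1 < hi ∧ |(P a t).2| < X₀) ∧
      Flow k R (lo / 16) J (fun t => lb lo hi P a t) (fun t => ba k lo hi X₀ U e P a t)
        (fun t => ma k lo hi X₀ U e P a t) (fun t => epa k lo hi X₀ U P a t)
        (fun t => eaa k lo hi X₀ e P a t) := by
  subst hα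
  have hl16 : hi ≤ 1 / 16 := by nlinarith
  have hα0 : (0 : ℝ) ≤ 4 * R := by linarith
  have hF := fam_epa hk hT ha hR rfl hlo hlh hhi hX h hP
  have happ := h.app a haI
  have hL0 : 0 ≤ L := le_trans (norm_nonneg _) (hL a haI 0 ⟨le_rfl, hT.le⟩ (P a 0))
  have hcl : ∀ t, lb lo hi P a t ≤ hi := fun t => max_le hlh (min_le_right _ _)
  have hcl2 : ∀ t, lo ≤ lb lo hi P a t := fun t => le_max_left _ _
  have hclx : ∀ t, |xb X₀ P a t| ≤ X₀ := by
    intro t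
    unfold xb clp
    rw [abs_le]
    exact ⟨le_max_left _ _, max_le (by linarith) (min_le_right _ _)⟩
  have hP1 : ∀ t ∈ Ioo 0 T, HasDerivAt (fun s => (P a s).1)
      (-(ba k lo hi X₀ U e P a t) / (lb lo hi P a t) ^ 2) t := by
    intro t ht
    exact hasFDerivAt_fst.comp_hasDerivAt t (hP.ode a haI t ht)
  have hP2 : ∀ t ∈ Ioo 0 T, HasDerivAt (fun s => (P a s).2)
      ((1 + ma k lo hi X₀ U e P a t) / (lb lo hi P a t) ^ 2) t := by
    intro t ht
    exact hasFDerivAt_snd.comp_hasDerivAt t (hP.ode a haI t ht)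
  refine ⟨{t | t ∈ Ioo 0 T ∧ (lo < (P a t).1 ∧ (P a t).1 < hi ∧ |(P a t).2| < X₀)},
    ⟨ht₀, h1, h2, h3⟩, fun t ht => ht.1, fun t ht => ht.2, ?_⟩
  have hJo : ∀ t ∈ {t | t ∈ Ioo 0 T ∧ (lo < (P a t).1 ∧ (P a t).1 < hi ∧ |(P a t).2| < X₀)},
      {t | t ∈ Ioo 0 T ∧ (lo < (P a t).1 ∧ (P a t).1 < hi ∧ |(P a t).2| < X₀)} ∈ 𝓝 t := by
    rintro t ⟨ht, g1, g2, g3⟩
    have c1 := (hP1 t ht).continuousAt
    have c2 := (hP2 t ht).continuousAt
    filter_upwards [Ioo_mem_nhds ht.1 ht.2, continuousAt_const.eventually_lt c1 g1,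
      c1.eventually_lt continuousAt_const g2, c2.abs.eventually_lt continuousAt_const g3]
      with s hs a1 a2 a3
    exact ⟨hs, a1, a2, a3⟩
  have hIcc : ∀ t, t ∈ Ioo 0 T → ((a, t) : ℝ × ℝ) ∈ Icc (-a₁) a₁ ×ˢ Icc 0 T :=
    fun t ht => ⟨haI, ht.1.le, ht.2.le⟩
  have hdl : ∀ t ∈ {t | t ∈ Ioo 0 T ∧ (lo < (P a t).1 ∧ (P a t).1 < hi ∧ |(P a t).2| < X₀)},
      HasDerivAt (fun t => lb lo hi P a t)
        (-(ba k lo hi X₀ U e P a t) / (lb lo hi P a t) ^ 2) t := by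
    intro t ht
    refine (hP1 t ht.1).congr_of_eventuallyEq ?_
    filter_upwards [hJo t ht] with s hs
    exact FlowR_clp hs.2.1 hs.2.2.1
  have hdx : ∀ t ∈ {t | t ∈ Ioo 0 T ∧ (lo < (P a t).1 ∧ (P a t).1 < hi ∧ |(P a t).2| < X₀)},
      HasDerivAt (fun t => xb X₀ P a t)
        ((1 + ma k lo hi X₀ U e P a t) / (lb lo hi P a t) ^ 2) t := by
    intro t ht
    refine (hP2 t ht.1).congr_of_eventuallyEq ?_
    filter_upwards [hJo t ht] with s hs
    have h4 := abs_lt.1 hs.2.2.2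
    exact FlowR_clp h4.1 h4.2
  refine ⟨?_, hF.R0, hF.θ0, ?_, ?_, ?_, hdl, ?_, ?_, ?_, ?_, ?_, ?_⟩
  · rw [isOpen_iff_mem_nhds]
    exact hJo
  · intro t ht
    exact hF.lo (a, t) (hIcc t ht.1)
  · intro t ht
    exact hF.hi (a, t) (hIcc t ht.1)
  · intro t ht
    exact hF.hr (a, t) (hIcc t ht.1)
  · refine ⟨L + 1, fun t ht => ?_⟩
    have hv := hL a haI t ⟨ht.1.1.le, ht.1.2.le⟩ (P a t)
    have hl0 : 0 < lb lo hi P a t := lt_of_lt_of_le hlo (hcl2 t)
    have hl1 : lb lo hi P a t ≤ 1 := (hcl t).trans (by linarith)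
    have hl2 : (lb lo hi P a t) ^ 2 ≤ 1 := by nlinarith
    have hl3 : 0 < (lb lo hi P a t) ^ 2 := by positivity
    have v1 : |-(ba k lo hi X₀ U e P a t) / (lb lo hi P a t) ^ 2| ≤ L :=
      (norm_fst_le _).trans hv
    have v2 : |(1 + ma k lo hi X₀ U e P a t) / (lb lo hi P a t) ^ 2| ≤ L :=
      (norm_snd_le _).trans hv
    rw [abs_div, abs_neg, abs_of_pos hl3, div_le_iff₀ hl3] at v1
    rw [abs_div, abs_of_pos hl3, div_le_iff₀ hl3] at v2
    have v3 : L * (lb lo hi P a t) ^ 2 ≤ L := by nlinarith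
    refine ⟨by linarith, ?_⟩
    have v4 : |ma k lo hi X₀ U e P a t| ≤ |1 + ma k lo hi X₀ U e P a t| + |(1 : ℝ)| := by
      have := abs_sub (1 + ma k lo hi X₀ U e P a t) 1
      rw [add_sub_cancel_left] at this
      exact this
    rw [abs_one] at v4
    linarith
  · intro t ht
    exact hF.sm (a, t) (hIcc t ht.1)
  · intro t ht
    have hs := happ.smooth' t ⟨ht.1.1.le, ht.1.2.le⟩
    exact contDiff_const.mul (contDiff_const.mul (FlowR_sm hs _ _))
  · intro j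
    obtain ⟨C, hC⟩ := hF.bd j
    exact ⟨C, fun t ht y => hC (a, t) (hIcc t ht.1) y⟩
  · intro j
    obtain ⟨C, hC0, hC⟩ := UF_bound ha h j
    refine ⟨C * Real.exp ((4 * R / 2 + 1 / 16) * X₀), fun t ht y => ?_⟩
    have hs := happ.smooth' t ⟨ht.1.1.le, ht.1.2.le⟩
    have hl0 : 0 < lb lo hi P a t := lt_of_lt_of_le hlo (hcl2 t)
    have hl1 : lb lo hi P a t ≤ 1 := (hcl t).trans (by linarith)
    have e1 : iteratedDeriv j (eaa k lo hi X₀ e P a t) y =
        (lb lo hi P a t) ^ 2 * ((lb lo hi P a t) ^ (2 / (k : ℝ)) * (lb lo hi P a t) ^ j *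
          iteratedDeriv j (e a t) (lb lo hi P a t * y + xb X₀ P a t)) := by
      rw [← iter_Wf hs]
      exact iteratedDeriv_const_mul_field _ _
    have b1 := (hC a haI t ⟨ht.1.1.le, ht.1.2.le⟩
      (lb lo hi P a t * y + xb X₀ P a t)).2
    have b2 := bd_shift (p := 4 * R / 2) (q := 1 / 16) (by positivity) (by norm_num) hl0.le
      (xb X₀ P a t) y
    have b3 : H98KB.bd (lb lo hi P a t * (4 * R / 2)) (lb lo hi P a t * (1 / 16)) y ≤
        H98KB.bd (R * lb lo hi P a t + lo / 16) (lo / 16) y := by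
      have := hcl2 t
      apply bd_anti
      · nlinarith
      · linarith
    have b4 : Real.exp ((4 * R / 2 + 1 / 16) * |xb X₀ P a t|) ≤
        Real.exp ((4 * R / 2 + 1 / 16) * X₀) := by
      rw [Real.exp_le_exp]
      exact mul_le_mul_of_nonneg_left (hclx t) (by positivity)
    have b5 : |iteratedDeriv j (e a t) (lb lo hi P a t * y + xb X₀ P a t)| ≤
        C * Real.exp ((4 * R / 2 + 1 / 16) * X₀) *
          H98KB.bd (R * lb lo hi P a t + lo / 16) (lo / 16) y := by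
      refine b1.trans ?_
      rw [mul_assoc]
      refine mul_le_mul_of_nonneg_left (b2.trans ?_) hC0
      exact mul_le_mul b4 b3 (bd_pos _ _ _).le (Real.exp_pos _).le
    rw [e1, abs_mul, abs_mul, abs_mul]
    have p1 : |(lb lo hi P a t) ^ 2| ≤ 1 := by
      rw [abs_of_pos (by positivity)]
      exact pow_le_one₀ hl0.le hl1
    have p2 : |(lb lo hi P a t) ^ (2 / (k : ℝ))| ≤ 1 := by
      rw [abs_of_pos (Real.rpow_pos_of_pos hl0 _)]
      exact Real.rpow_le_one hl0.le hl1 (by positivity)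
    have p3 : |(lb lo hi P a t) ^ j| ≤ 1 := by
      rw [abs_of_pos (by positivity)]
      exact pow_le_one₀ hl0.le hl1
    refine le_trans ?_ b5
    have p4 : |(lb lo hi P a t) ^ (2 / (k : ℝ))| * |(lb lo hi P a t) ^ j| ≤ 1 :=
      mul_le_one₀ p2 (abs_nonneg _) p3
    refine le_trans (mul_le_of_le_one_left (by positivity) p1) ?_
    exact mul_le_of_le_one_left (abs_nonneg _) p4
  · intro j t ht y
    have hl0 : 0 < lb lo hi P a t := lt_of_lt_of_le hlo (hcl2 t)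
    have htI : t ∈ Icc 0 T := ⟨ht.1.1.le, ht.1.2.le⟩
    have hU := happ.smooth t htI
    have hE := happ.smooth' t htI
    have hQ : ContDiff ℝ ∞ (Qf k) := qbas_smooth (by omega)
    have hz : HasDerivAt (fun s => lb lo hi P a s * y + xb X₀ P a s)
        (-(ba k lo hi X₀ U e P a t) / (lb lo hi P a t) ^ 2 * y +
          (1 + ma k lo hi X₀ U e P a t) / (lb lo hi P a t) ^ 2) t :=
      ((hdl t ht).mul_const y).add (hdx t ht)
    have hev := happ.evol j t ht.1 (lb lo hi P a t * y + xb X₀ P a t)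
    have hcont : ContinuousAt (fun q : ℝ × ℝ => iteratedDeriv (j + 1) (U a q.1) q.2)
        (t, lb lo hi P a t * y + xb X₀ P a t) := by
      have c1 : ContinuousOn (fun q : ℝ × ℝ => iteratedDeriv (j + 1) (U a q.1) q.2)
          (Icc 0 T ×ˢ univ) := by
        have c2 := (UF_jc hα0 ha h (j + 1)).1
        refine c2.comp (f := fun q : ℝ × ℝ => ((a, q.1, q.2) : ℝ × ℝ × ℝ))
          (by fun_prop) ?_
        rintro ⟨s, w⟩ ⟨hs, hw⟩
        exact ⟨haI, hs, hw⟩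
      exact c1.continuousAt (prod_mem_nhds (Icc_mem_nhds ht.1.1 ht.1.2) univ_mem)
    have hch := FlowR_chain (V := fun τ w => iteratedDeriv j (U a τ) w)
      (V' := fun τ w => iteratedDeriv (j + 1) (U a τ) w)
      (z := fun s => lb lo hi P a s * y + xb X₀ P a s) (Ioo_mem_nhds ht.1.1 ht.1.2) hev
      (fun τ hτ w => FlowR_dit (happ.smooth τ ⟨hτ.1.le, hτ.2.le⟩) j w) hcont hz
    have hpw : HasDerivAt (fun s => (lb lo hi P a s) ^ (2 / (k : ℝ) + (j : ℝ)))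
        (-(ba k lo hi X₀ U e P a t) / (lb lo hi P a t) ^ 2 * (2 / (k : ℝ) + (j : ℝ)) *
          (lb lo hi P a t) ^ (2 / (k : ℝ) + (j : ℝ) - 1)) t :=
      (hdl t ht).rpow_const (Or.inl hl0.ne')
    have hall := (hpw.mul hch).sub_const (iteratedDeriv j (Qf k) y)
    have hpj : ∀ s, (lb lo hi P a s) ^ (2 / (k : ℝ) + (j : ℝ)) =
        (lb lo hi P a s) ^ (2 / (k : ℝ)) * (lb lo hi P a s) ^ j := fun s =>
      Real.rpow_add_natCast (lt_of_lt_of_le hlo (hcl2 s)).ne' _ _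
    have hval : iteratedDeriv j (zeta k (ba k lo hi X₀ U e P a t) (ma k lo hi X₀ U e P a t)
        (lb lo hi P a t) (epa k lo hi X₀ U P a t) (eaa k lo hi X₀ e P a t)) y = _ :=
      FlowR_zetaj hk hU hE (ba k lo hi X₀ U e P a t) (ma k lo hi X₀ U e P a t) hl0
        (xb X₀ P a t) j y
    rw [hval]
    refine (hall.congr_deriv ?_).congr_of_eventuallyEq ?_
    · rw [Real.rpow_sub_one hl0.ne', hpj t]
      have eH : iteratedDeriv j (fun z => -iteratedDeriv 3 (U a t) z +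
          iteratedDeriv 2 (U a t) z - deriv (fun z' => fl k (U a t z')) z -
          deriv (e a t) z) = iteratedDeriv j (FlowR_H k (U a t) (e a t)) := rfl
      rw [eH]
      field_simp
      ring
    · filter_upwards [hJo t ht] with s hs
      have hsI : s ∈ Icc 0 T := ⟨hs.1.1.le, hs.1.2.le⟩
      have hUs := happ.smooth s hsI
      have hW : ContDiff ℝ ∞ (Wf k (U a s) (lb lo hi P a s) (xb X₀ P a s)) :=
        contDiff_const.mul (FlowR_sm hUs _ _)
      have e4 : iteratedDeriv j (epa k lo hi X₀ U P a s) y =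
          iteratedDeriv j (Wf k (U a s) (lb lo hi P a s) (xb X₀ P a s)) y -
            iteratedDeriv j (Qf k) y :=
        iteratedDeriv_fun_sub (ClB_at hW j y) (ClB_at hQ j y)
      rw [e4, iter_Wf hUs]
      simp only [Pi.mul_apply]
      rw [hpj s]

end H72KB

end S_H72_KB_FlowR

section S_H72_KB_ConI

/-!
# Row ConI: continuity of pairings and of `Xn` for a `Fam`

Proof.  `continuousWithinAt_of_dominated` at every `z₀ ∈ S`: the integrand `ε z y * φ y` is continuous in `z ∈ S` for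
fixed `y` (`F.co 0`, `iteratedDeriv_zero`), measurable in `y` (`F.sm` gives continuity), and bounded by
`|C| C₀ bd (R*lam z+θ) θ y ≤ |C| C₀ bd θ θ y` (`R*lam z ≥ 0`, `bd_anti`), integrable (`bd_int`).
For `Xn`: integrand `(iteratedDeriv 1 (ε z) y)^2 ≤ C² bd θ θ y` (`bd² ≤ bd`).
`con_Gn`: `ContinuousOn` of `z ↦ Gn B (R*lam z) (ε z)`: `om B ρ y ≤ e^{2ρy}` for `y ≥ 0`, `≤ 1` for `y ≤ 0` (`ρ ≥ 0`), and
`e^{2ρy} bd(ρ+θ,θ)² ≤ bd (2θ) (2θ)`; `om B ρ y` is continuous in `ρ`.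
-/

open MeasureTheory Filter Topology Set
open scoped ContDiff

namespace H72KB

open H98KB

private theorem ConI_one : (1 : WithTop ℕ∞) ≤ ∞ := by
  norm_cast

private theorem ConI_le {R θ : ℝ} {S : Set (ℝ × ℝ)} {lam : ℝ × ℝ → ℝ} {ε : ℝ × ℝ → ℝ → ℝ}
    (F : Fam R θ S lam ε) {C : ℝ} {j : ℕ} {z : ℝ × ℝ} (hz : z ∈ S)
    (h : ∀ y, |iteratedDeriv j (ε z) y| ≤ C * bd (R * lam z + θ) θ y) (y : ℝ) :
    0 ≤ C ∧ |iteratedDeriv j (ε z) y| ≤ C * bd θ θ y := by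
  have h0 := h y
  have hp := bd_pos (R * lam z + θ) θ y
  have hC : 0 ≤ C := by
    by_contra hneg
    rw [not_le] at hneg
    have := mul_neg_of_neg_of_pos hneg hp
    linarith [abs_nonneg (iteratedDeriv j (ε z) y)]
  refine ⟨hC, h0.trans (mul_le_mul_of_nonneg_left (bd_anti ?_ le_rfl y) hC)⟩
  have h1 : 0 ≤ lam z := F.θ0.le.trans (F.lo z hz)
  have := mul_nonneg F.R0 h1
  linarith

theorem con_I {R θ : ℝ} {S : Set (ℝ × ℝ)} {lam : ℝ × ℝ → ℝ} {ε : ℝ × ℝ → ℝ → ℝ}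
    (F : Fam R θ S lam ε) (φ : ℝ → ℝ) (hφ : Continuous φ) (C : ℝ) (hC : ∀ y, |φ y| ≤ C) :
    ContinuousOn (fun z => ip (ε z) φ) S := by
  obtain ⟨C₀, hC₀⟩ := F.bd 0
  show ContinuousOn (fun z => ∫ y, ε z y * φ y) S
  apply continuousOn_of_dominated (bound := fun y => |C₀| * |C| * bd θ θ y)
  · intro z hz
    exact ((F.sm z hz).continuous.mul hφ).aestronglyMeasurable
  · intro z hz
    refine Eventually.of_forall fun y => ?_
    obtain ⟨h0, h1⟩ := ConI_le F hz (fun y => hC₀ z hz y) y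
    rw [iteratedDeriv_zero] at h1
    rw [Real.norm_eq_abs, abs_mul, abs_of_nonneg h0]
    have h2 : |φ y| ≤ |C| := (hC y).trans (le_abs_self C)
    calc |ε z y| * |φ y| ≤ (C₀ * bd θ θ y) * |C| :=
          mul_le_mul h1 h2 (abs_nonneg _) (mul_nonneg h0 (bd_pos _ _ _).le)
      _ = C₀ * |C| * bd θ θ y := by ring
  · exact (bd_int F.θ0 F.θ0).const_mul _
  · refine Eventually.of_forall fun y => ?_
    have h1 := F.co 0 y
    simp only [iteratedDeriv_zero] at h1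
    exact h1.mul continuousOn_const

theorem con_X {R θ : ℝ} {S : Set (ℝ × ℝ)} {lam : ℝ × ℝ → ℝ} {ε : ℝ × ℝ → ℝ → ℝ}
    (F : Fam R θ S lam ε) : ContinuousOn (fun z => Xn (ε z)) S := by
  obtain ⟨C₁, hC₁⟩ := F.bd 1
  show ContinuousOn (fun z => ∫ y, (deriv (ε z) y) ^ 2) S
  apply continuousOn_of_dominated (bound := fun y => C₁ ^ 2 * bd θ θ y)
  · intro z hz
    exact (((F.sm z hz).continuous_deriv ConI_one).pow 2).aestronglyMeasurable
  · intro z hz
    refine Eventually.of_forall fun y => ?_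
    obtain ⟨h0, h1⟩ := ConI_le F hz (fun y => hC₁ z hz y) y
    rw [iteratedDeriv_one] at h1
    rw [Real.norm_eq_abs, abs_of_nonneg (sq_nonneg _), ← sq_abs]
    have h2 := bd_pos θ θ y
    have h3 := bd_le_one F.θ0.le F.θ0.le y
    calc |deriv (ε z) y| ^ 2 ≤ (C₁ * bd θ θ y) ^ 2 :=
          pow_le_pow_left₀ (abs_nonneg _) h1 2
      _ = C₁ ^ 2 * (bd θ θ y * bd θ θ y) := by ring
      _ ≤ C₁ ^ 2 * (bd θ θ y * 1) := by
          apply mul_le_mul_of_nonneg_left _ (sq_nonneg _)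
          exact mul_le_mul_of_nonneg_left h3 h2.le
      _ = C₁ ^ 2 * bd θ θ y := by ring
  · exact (bd_int F.θ0 F.θ0).const_mul _
  · refine Eventually.of_forall fun y => ?_
    have h1 := F.co 1 y
    simp only [iteratedDeriv_one] at h1
    exact h1.pow 2

private theorem ConI_Th {B : ℝ} (y : ℝ) : 0 < Th B y ∧ Th B y ≤ 1 := by
  unfold Th
  have h := Real.exp_pos (-y / B)
  constructor
  · positivity
  · rw [div_le_one (by positivity)]
    linarith

/-- the basic domination: `om * bd² ≤ bd (2θ) (2θ)` -/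
theorem om_bd {B ρ θ : ℝ} (hB : 0 < B) (hρ : 0 ≤ ρ) (hθ : 0 ≤ θ) (y : ℝ) :
    0 < om B ρ y ∧ om B ρ y * (bd (ρ + θ) θ y) ^ 2 ≤ bd (2 * θ) (2 * θ) y := by
  obtain ⟨h1, h2⟩ := ConI_Th (B := B) y
  have h3 := Real.exp_pos (2 * ρ * y)
  refine ⟨mul_pos h1 h3, ?_⟩
  have h4 : Real.exp (2 * ρ * y) * (bd (ρ + θ) θ y) ^ 2 ≤ bd (2 * θ) (2 * θ) y := by
    unfold bd
    rw [← Real.exp_nat_mul, ← Real.exp_add, Real.exp_le_exp]
    push_cast
    rcases le_total 0 y with h | h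
    · rw [max_eq_left h, max_eq_right (by linarith : -y ≤ (0 : ℝ))]
      nlinarith
    · rw [max_eq_right h, max_eq_left (by linarith : (0 : ℝ) ≤ -y)]
      nlinarith [mul_nonneg hρ (neg_nonneg.2 h)]
  calc om B ρ y * (bd (ρ + θ) θ y) ^ 2
      = Th B y * (Real.exp (2 * ρ * y) * (bd (ρ + θ) θ y) ^ 2) := by
        unfold om
        ring
    _ ≤ 1 * (Real.exp (2 * ρ * y) * (bd (ρ + θ) θ y) ^ 2) :=
        mul_le_mul_of_nonneg_right h2 (by positivity)
    _ ≤ bd (2 * θ) (2 * θ) y := by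
        rw [one_mul]
        exact h4

private theorem ConI_omc {B : ℝ} (ρ : ℝ) : Continuous (om B ρ) := by
  unfold om Th
  apply Continuous.mul
  · apply Continuous.div continuous_const (by fun_prop)
    intro y
    have := Real.exp_pos (-y / B)
    positivity
  · fun_prop

theorem con_Gn {R θ : ℝ} {S : Set (ℝ × ℝ)} {lam : ℝ × ℝ → ℝ} {ε : ℝ × ℝ → ℝ → ℝ}
    (F : Fam R θ S lam ε) {B : ℝ} (hB : 0 < B) :
    ContinuousOn (fun z => Gn B (R * lam z) (ε z)) S := by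
  obtain ⟨C₀, hC₀⟩ := F.bd 0
  obtain ⟨C₁, hC₁⟩ := F.bd 1
  show ContinuousOn (fun z => ∫ y, om B (R * lam z) y * ((ε z y) ^ 2 + (deriv (ε z) y) ^ 2)) S
  apply continuousOn_of_dominated (bound := fun y => (C₀ ^ 2 + C₁ ^ 2) * bd (2 * θ) (2 * θ) y)
  · intro z hz
    exact ((ConI_omc _).mul (((F.sm z hz).continuous.pow 2).add
      (((F.sm z hz).continuous_deriv ConI_one).pow 2))).aestronglyMeasurable
  · intro z hz
    refine Eventually.of_forall fun y => ?_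
    have hl : 0 ≤ lam z := F.θ0.le.trans (F.lo z hz)
    obtain ⟨h1, h2⟩ := om_bd (θ := θ) hB (mul_nonneg F.R0 hl) F.θ0.le y
    have h3 := hC₀ z hz y
    have h4 := hC₁ z hz y
    rw [iteratedDeriv_zero] at h3
    rw [iteratedDeriv_one] at h4
    have h5 : (ε z y) ^ 2 ≤ (C₀ * bd (R * lam z + θ) θ y) ^ 2 := by
      rw [← sq_abs (ε z y)]
      exact pow_le_pow_left₀ (abs_nonneg _) h3 2
    have h6 : (deriv (ε z) y) ^ 2 ≤ (C₁ * bd (R * lam z + θ) θ y) ^ 2 := by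
      rw [← sq_abs (deriv (ε z) y)]
      exact pow_le_pow_left₀ (abs_nonneg _) h4 2
    rw [Real.norm_eq_abs, abs_of_nonneg (by positivity)]
    calc om B (R * lam z) y * ((ε z y) ^ 2 + (deriv (ε z) y) ^ 2)
        ≤ om B (R * lam z) y * ((C₀ * bd (R * lam z + θ) θ y) ^ 2 +
            (C₁ * bd (R * lam z + θ) θ y) ^ 2) :=
          mul_le_mul_of_nonneg_left (add_le_add h5 h6) h1.le
      _ = (C₀ ^ 2 + C₁ ^ 2) * (om B (R * lam z) y * (bd (R * lam z + θ) θ y) ^ 2) := by ring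
      _ ≤ (C₀ ^ 2 + C₁ ^ 2) * bd (2 * θ) (2 * θ) y :=
          mul_le_mul_of_nonneg_left h2 (by positivity)
  · have h := F.θ0
    exact (bd_int (by linarith) (by linarith)).const_mul _
  · refine Eventually.of_forall fun y => ?_
    have h1 := F.co 0 y
    have h2 := F.co 1 y
    simp only [iteratedDeriv_zero] at h1
    simp only [iteratedDeriv_one] at h2
    have h3 : ContinuousOn (fun z => om B (R * lam z) y) S := by
      unfold om
      exact continuousOn_const.mul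
        (((continuousOn_const.mul (continuousOn_const.mul F.cl)).mul continuousOn_const).rexp)
    exact h3.mul ((h1.pow 2).add (h2.pow 2))

end H72KB

end S_H72_KB_ConI

section S_H72_KB_ZB

/-!
# Row ZB: bounds for `zeta` along a `Flow`

Proof.  `zeta = deriv (gf k ε) + Nf k b m l ε - deriv e`, `gf k ε = -ε'' + ε - Df k ε`,
`Df k ε = fl k (Q+ε) - fl k Q = ∑_{i=1}^{k+1} binom(k+1,i)/(k+1) Q^{k+1-i} ε^i`: a sum of products containing at least one
factor `ε`.  UNIFORM version of the algebra of `Cl` needed here: for a family `f_t`, `t ∈ J`, say `UC w f` if every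
`f_t` is smooth and `∀ j ∃ C ∀ t ∈ J ∀ y, |iteratedDeriv j (f_t) y| ≤ C w_t(y)` with weights
`w_t = bd (R lam t + s) s`.  Closed under sums, bounded scalar multiples `c_t f_t`, derivatives, products with a
family bounded with all derivatives (`UC 1`; in particular `Q` and powers, and `f ∈ UC` itself since `bd ≤ 1`),
and multiplication by `y` if `s = θ` is replaced by `s = θ/2` (`bd_poly` with constants independent of `t`: the
difference of the exponents is `θ/2`, so use `(1+|y|) e^{-θ|y|/2} ≤ C`).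
Terms: `-b Lam Q`, `m Q'`, `l Q''`: `|iteratedDeriv j| ≤ C bd (3/4)(3/4)`-type bounds (`Q ∈ Cl 1 1`, `y Q' ∈ Cl (3/4) (3/4)`),
and `3/4 ≥ R lam + θ/2`, `≥ θ/2` because `R lam t + θ ≤ 1/2`.  `b, m` bounded by `F.bm`, `l = lam t ≤ 1`.
-/

open MeasureTheory Filter Topology Set
open scoped ContDiff

namespace H72KB

open H98KB

/-- uniform class of a family indexed by `t ∈ J` -/
def ZB_UC (J : Set ℝ) (w f : ℝ → ℝ → ℝ) : Prop :=
  (∀ t ∈ J, ContDiff ℝ ∞ (f t)) ∧ ∀ j : ℕ, ∃ C : ℝ, 0 ≤ C ∧ ∀ t ∈ J, ∀ y,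
    |iteratedDeriv j (f t) y| ≤ C * w t y

theorem ZB_cd_deriv {f : ℝ → ℝ} (h : ContDiff ℝ ∞ f) : ContDiff ℝ ∞ (deriv f) :=
  (contDiff_infty_iff_deriv.1 h).2

section
variable {J : Set ℝ} {w w' f g : ℝ → ℝ → ℝ}

theorem ZB_mk (h1 : ∀ t ∈ J, ContDiff ℝ ∞ (f t)) (hw : ∀ t y, 0 ≤ w t y)
    (h2 : ∀ j : ℕ, ∃ C : ℝ, ∀ t ∈ J, ∀ y, |iteratedDeriv j (f t) y| ≤ C * w t y) :
    ZB_UC J w f := by
  refine ⟨h1, fun j => ?_⟩
  obtain ⟨C, hC⟩ := h2 j
  exact ⟨|C|, abs_nonneg C, fun t ht y =>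
    (hC t ht y).trans (mul_le_mul_of_nonneg_right (le_abs_self C) (hw t y))⟩

theorem ZB_mono (h : ZB_UC J w f) {K : ℝ} (hK : 0 ≤ K)
    (hw : ∀ t ∈ J, ∀ y, w t y ≤ K * w' t y) : ZB_UC J w' f := by
  refine ⟨h.1, fun j => ?_⟩
  obtain ⟨C, hC0, hC⟩ := h.2 j
  refine ⟨C * K, mul_nonneg hC0 hK, fun t ht y => (hC t ht y).trans ?_⟩
  rw [mul_assoc]
  exact mul_le_mul_of_nonneg_left (hw t ht y) hC0

theorem ZB_add (hf : ZB_UC J w f) (hg : ZB_UC J w g) :
    ZB_UC J w (fun t y => f t y + g t y) := by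
  refine ⟨fun t ht => (hf.1 t ht).add (hg.1 t ht), fun j => ?_⟩
  obtain ⟨A, hA0, hA⟩ := hf.2 j
  obtain ⟨B, hB0, hB⟩ := hg.2 j
  refine ⟨A + B, add_nonneg hA0 hB0, fun t ht y => ?_⟩
  rw [iteratedDeriv_fun_add (ClB_at (hf.1 t ht) j y) (ClB_at (hg.1 t ht) j y), add_mul]
  exact (abs_add_le _ _).trans (add_le_add (hA t ht y) (hB t ht y))

theorem ZB_smul (hw : ∀ t y, 0 ≤ w t y) (hf : ZB_UC J w f) {c : ℝ → ℝ} {K : ℝ}
    (hc : ∀ t ∈ J, |c t| ≤ K) (hK : 0 ≤ K) : ZB_UC J w (fun t y => c t * f t y) := by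
  refine ⟨fun t ht => contDiff_const.mul (hf.1 t ht), fun j => ?_⟩
  obtain ⟨A, hA0, hA⟩ := hf.2 j
  refine ⟨K * A, mul_nonneg hK hA0, fun t ht y => ?_⟩
  rw [iteratedDeriv_const_mul_field, abs_mul, mul_assoc]
  exact mul_le_mul (hc t ht) (hA t ht y) (abs_nonneg _) hK

theorem ZB_neg (hw : ∀ t y, 0 ≤ w t y) (hf : ZB_UC J w f) :
    ZB_UC J w (fun t y => -f t y) := by
  have h := ZB_smul hw hf (c := fun _ => -1) (K := 1) (fun t _ => by simp) zero_le_one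
  have e : (fun t y => -f t y) = fun t y => -1 * f t y := by
    funext t y
    ring
  rw [e]
  exact h

theorem ZB_sub (hw : ∀ t y, 0 ≤ w t y) (hf : ZB_UC J w f) (hg : ZB_UC J w g) :
    ZB_UC J w (fun t y => f t y - g t y) := by
  have h := ZB_add hf (ZB_neg hw hg)
  have e : (fun t y => f t y - g t y) = fun t y => f t y + -g t y := by
    funext t y
    ring
  rw [e]
  exact h

theorem ZB_deriv (hf : ZB_UC J w f) : ZB_UC J w (fun t => deriv (f t)) := by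
  refine ⟨fun t ht => ZB_cd_deriv (hf.1 t ht), fun j => ?_⟩
  obtain ⟨C, hC0, hC⟩ := hf.2 (j + 1)
  refine ⟨C, hC0, fun t ht y => ?_⟩
  show |iteratedDeriv j (deriv (f t)) y| ≤ C * w t y
  rw [← iteratedDeriv_succ']
  exact hC t ht y

theorem ZB_mul (hw : ∀ t y, 0 ≤ w t y) (hw' : ∀ t y, 0 ≤ w' t y) (hf : ZB_UC J w f)
    (hg : ZB_UC J w' g) : ZB_UC J (fun t y => w t y * w' t y) (fun t y => f t y * g t y) := by
  refine ⟨fun t ht => (hf.1 t ht).mul (hg.1 t ht), fun j => ?_⟩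
  choose A hA0 hA using hf.2
  choose B hB0 hB using hg.2
  refine ⟨∑ i ∈ Finset.range (j + 1), (j.choose i : ℝ) * A i * B (j - i),
    Finset.sum_nonneg fun i _ => mul_nonneg (mul_nonneg (Nat.cast_nonneg _) (hA0 _)) (hB0 _),
    fun t ht y => ?_⟩
  rw [iteratedDeriv_fun_mul (ClB_at (hf.1 t ht) j y) (ClB_at (hg.1 t ht) j y), Finset.sum_mul]
  refine (Finset.abs_sum_le_sum_abs _ _).trans (Finset.sum_le_sum fun i _ => ?_)
  rw [abs_mul, abs_mul, Nat.abs_cast, mul_assoc]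
  have h1 : |iteratedDeriv i (f t) y| * |iteratedDeriv (j - i) (g t) y|
      ≤ (A i * w t y) * (B (j - i) * w' t y) :=
    mul_le_mul (hA i t ht y) (hB (j - i) t ht y) (abs_nonneg _)
      (mul_nonneg (hA0 i) (hw t y))
  calc (j.choose i : ℝ) * (|iteratedDeriv i (f t) y| * |iteratedDeriv (j - i) (g t) y|)
      ≤ (j.choose i : ℝ) * ((A i * w t y) * (B (j - i) * w' t y)) :=
        mul_le_mul_of_nonneg_left h1 (Nat.cast_nonneg _)
    _ = (j.choose i : ℝ) * A i * B (j - i) * (w t y * w' t y) := by ring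

theorem ZB_mul_one (hw : ∀ t y, 0 ≤ w t y) (hf : ZB_UC J w f)
    (hg : ZB_UC J (fun _ _ => 1) g) : ZB_UC J w (fun t y => f t y * g t y) := by
  refine ZB_mono (ZB_mul hw (fun _ _ => zero_le_one) hf hg) zero_le_one ?_
  intro t _ y
  simp

theorem ZB_pow (hf : ZB_UC J (fun _ _ => 1) f) (n : ℕ) :
    ZB_UC J (fun _ _ => 1) (fun t y => f t y ^ n) := by
  induction n with
  | zero =>
    have e : (fun t y => f t y ^ 0) = fun (_ : ℝ) (_ : ℝ) => (1 : ℝ) := by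
      funext t y
      rw [pow_zero]
    rw [e]
    refine ⟨fun t _ => contDiff_const, fun j => ⟨1, zero_le_one, fun t _ y => ?_⟩⟩
    rw [iteratedDeriv_const]
    split_ifs <;> simp
  | succ n ih =>
    have e : (fun t y => f t y ^ (n + 1)) = fun t y => f t y ^ n * f t y := by
      funext t y
      rw [pow_succ]
    rw [e]
    exact ZB_mul_one (fun _ _ => zero_le_one) ih hf

theorem ZB_ymul (hw : ∀ t y, 0 ≤ w t y) {K : ℝ} (hK : 0 ≤ K)
    (hww : ∀ t ∈ J, ∀ y, (1 + |y|) * w t y ≤ K * w' t y) (hf : ZB_UC J w f) :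
    ZB_UC J w' (fun t y => y * f t y) := by
  have hid : ZB_UC J (fun _ y => 1 + |y|) (fun _ y => y) := by
    refine ⟨fun t _ => contDiff_fun_id, fun j => ⟨1, zero_le_one, fun t _ y => ?_⟩⟩
    show |iteratedDeriv j (fun y : ℝ => y) y| ≤ 1 * (1 + |y|)
    rw [iteratedDeriv_fun_id]
    have := abs_nonneg y
    split_ifs
    · linarith
    · rw [abs_one]
      linarith
    · rw [abs_zero]
      linarith
  exact ZB_mono (ZB_mul (fun t y => by positivity) hw hid hf) hK hww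

/-- difference of powers -/
theorem ZB_dpow (hw : ∀ t y, 0 ≤ w t y) {q : ℝ → ℝ → ℝ} (hq : ZB_UC J (fun _ _ => 1) q)
    (h1 : ZB_UC J (fun _ _ => 1) f) (hf : ZB_UC J w f) (n : ℕ) :
    ZB_UC J w (fun t y => (q t y + f t y) ^ n - q t y ^ n) := by
  induction n with
  | zero =>
    have e : (fun t y => (q t y + f t y) ^ 0 - q t y ^ 0) = fun (_ : ℝ) (_ : ℝ) => (0 : ℝ) := by
      funext t y
      rw [pow_zero, pow_zero, sub_self]
    rw [e]
    refine ⟨fun t _ => contDiff_const, fun j => ⟨0, le_rfl, fun t _ y => ?_⟩⟩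
    rw [iteratedDeriv_const]
    split_ifs <;> simp
  | succ n ih =>
    have e : (fun t y => (q t y + f t y) ^ (n + 1) - q t y ^ (n + 1)) = fun t y =>
        ((q t y + f t y) ^ n - q t y ^ n) * (q t y + f t y) + f t y * q t y ^ n := by
      funext t y
      rw [pow_succ, pow_succ]
      ring
    rw [e]
    exact ZB_add (ZB_mul_one hw ih (ZB_add hq h1)) (ZB_mul_one hw hf (ZB_pow hq n))

theorem ZB_const {p q : ℝ} {h : ℝ → ℝ} (hh : Cl p q h) (hw : ∀ t y, 0 ≤ w t y)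
    (hp : ∀ t ∈ J, ∀ y, bd p q y ≤ w t y) : ZB_UC J w (fun _ => h) := by
  refine ⟨fun t _ => hh.1, fun j => ?_⟩
  obtain ⟨C, hC0, hC⟩ := ClB_pos hh j
  exact ⟨C, hC0, fun t ht y => (hC y).trans (mul_le_mul_of_nonneg_left (hp t ht y) hC0)⟩

end

theorem zeta_smooth {k : ℕ} (hk : 1 ≤ k) (b m l : ℝ) {ε e : ℝ → ℝ} (hε : ContDiff ℝ ∞ ε)
    (he : ContDiff ℝ ∞ e) : ContDiff ℝ ∞ (zeta k b m l ε e) := by
  have hQ : ContDiff ℝ ∞ (Qf k) := (Q_cl hk).1
  have hid : ContDiff ℝ ∞ (fun y : ℝ => y) := contDiff_fun_id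
  have hfl : ∀ f : ℝ → ℝ, ContDiff ℝ ∞ f → ContDiff ℝ ∞ (fun y => fl k (f y)) := by
    intro f hf
    exact (hf.pow (k + 1)).div_const _
  have hLam : ∀ f : ℝ → ℝ, ContDiff ℝ ∞ f → ContDiff ℝ ∞ (fun y => Lam k f y) := by
    intro f hf
    exact (contDiff_const.mul hf).add (hid.mul (ZB_cd_deriv hf))
  have hD : ContDiff ℝ ∞ (fun y => Df k ε y) :=
    (hfl _ (hQ.add hε)).sub (hfl _ hQ)
  have hg : ContDiff ℝ ∞ (gf k ε) :=
    ((ZB_cd_deriv (ZB_cd_deriv hε)).neg.add hε).sub hD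
  have hN : ContDiff ℝ ∞ (fun y => Nf k b m l ε y) :=
    (((((contDiff_const.mul (hLam _ hQ)).add (contDiff_const.mul (ZB_cd_deriv hQ))).add
      (contDiff_const.mul (ZB_cd_deriv (ZB_cd_deriv hQ)))).sub
      (contDiff_const.mul (hLam _ hε))).add (contDiff_const.mul (ZB_cd_deriv hε))).add
      (contDiff_const.mul (ZB_cd_deriv (ZB_cd_deriv hε)))
  exact ((ZB_cd_deriv hg).add hN).sub (ZB_cd_deriv he)

theorem zeta_bound {k : ℕ} {R θ : ℝ} {J : Set ℝ} {lam b m : ℝ → ℝ} {ε e : ℝ → ℝ → ℝ}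
    (hk : 1 ≤ k) (F : Flow k R θ J lam b m ε e) (j : ℕ) : ∃ C : ℝ, 0 ≤ C ∧ ∀ t ∈ J, ∀ y,
      |iteratedDeriv j (zeta k (b t) (m t) (lam t) (ε t) (e t)) y| ≤
        C * bd (R * lam t + θ / 2) (θ / 2) y := by
  set wa : ℝ → ℝ → ℝ := fun t y => bd (R * lam t + θ) θ y with hwa
  set wb : ℝ → ℝ → ℝ := fun t y => bd (R * lam t + θ / 2) (θ / 2) y with hwb
  have ha0 : ∀ t y, 0 ≤ wa t y := fun t y => (bd_pos _ _ _).le
  have hb0 : ∀ t y, 0 ≤ wb t y := fun t y => (bd_pos _ _ _).le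
  have hθ := F.θ0
  have hRl : ∀ t ∈ J, 0 ≤ R * lam t := fun t ht =>
    mul_nonneg F.R0 (hθ.le.trans (F.lo t ht))
  have hab : ∀ t ∈ J, ∀ y, wa t y ≤ 1 * wb t y := by
    intro t _ y
    rw [one_mul]
    exact bd_anti (by linarith) (by linarith) y
  have ha1 : ∀ t ∈ J, ∀ y, wa t y ≤ 1 * (fun (_ : ℝ) (_ : ℝ) => (1 : ℝ)) t y := by
    intro t ht y
    simp only [mul_one]
    exact bd_le_one (by linarith [hRl t ht]) hθ.le y
  have hε : ZB_UC J wa ε := ZB_mk F.sm ha0 F.bd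
  have he : ZB_UC J wa e := ZB_mk F.se ha0 F.be
  have hε1 : ZB_UC J (fun _ _ => 1) ε := ZB_mono hε zero_le_one ha1
  have hεb : ZB_UC J wb ε := ZB_mono hε zero_le_one hab
  have heb : ZB_UC J wb e := ZB_mono he zero_le_one hab
  have hQ1 : ZB_UC J (fun _ _ => 1) (fun _ => Qf k) :=
    ZB_const (Q_cl hk) (fun _ _ => zero_le_one)
      fun t _ y => bd_le_one zero_le_one zero_le_one y
  have hw34 : ∀ t ∈ J, ∀ y, bd (3 / 4) (3 / 4) y ≤ wb t y := by
    intro t ht y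
    have h1 := F.hr t ht
    have h2 := hRl t ht
    exact bd_anti (by linarith) (by linarith) y
  have hQ34 : Cl (3 / 4) (3 / 4) (Qf k) := Cl_mono (by norm_num) (by norm_num) (Q_cl hk)
  have hQb : ZB_UC J wb (fun _ => Qf k) := ZB_const hQ34 hb0 hw34
  have hyQ : ZB_UC J wb (fun _ y => y * deriv (Qf k) y) :=
    ZB_const (Cl_ymul (by norm_num) (by norm_num) (Cl_deriv (Q_cl hk))) hb0 hw34
  -- the multiplication by `y`
  obtain ⟨K, hK0, hK⟩ := bd_poly 1 (p := θ / 2) (p' := 0) (q := θ / 2) (q' := 0)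
    (by linarith) (by linarith)
  have hyw : ∀ t ∈ J, ∀ y, (1 + |y|) * wa t y ≤ K * wb t y := by
    intro t _ y
    have h1 := hK y
    rw [pow_one] at h1
    have h2 : wa t y = bd (θ / 2) (θ / 2) y * wb t y := by
      simp only [hwa, hwb]
      rw [bd_mul]
      congr 1 <;> ring
    have h3 : bd 0 0 y = 1 := by
      unfold bd
      simp
    rw [h3, mul_one] at h1
    rw [h2, ← mul_assoc]
    exact mul_le_mul_of_nonneg_right h1 (hb0 t y)
  have hyε : ZB_UC J wb (fun t y => y * deriv (ε t) y) :=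
    ZB_ymul ha0 hK0.le hyw (ZB_deriv hε)
  -- the difference `Df`
  have hD : ZB_UC J wb (fun t y => Df k (ε t) y) := by
    have h1 := ZB_dpow hb0 hQ1 hε1 hεb (k + 1)
    have h2 := ZB_smul hb0 h1 (c := fun _ => ((k : ℝ) + 1)⁻¹) (K := |((k : ℝ) + 1)⁻¹|)
      (fun t _ => le_rfl) (abs_nonneg _)
    have e : (fun t y => Df k (ε t) y) = fun t y =>
        ((k : ℝ) + 1)⁻¹ * ((Qf k y + ε t y) ^ (k + 1) - Qf k y ^ (k + 1)) := by
      funext t y
      unfold Df fl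
      ring
    rw [e]
    exact h2
  have hg : ZB_UC J wb (fun t => gf k (ε t)) :=
    ZB_sub hb0 (ZB_add (ZB_neg hb0 (ZB_deriv (ZB_deriv hεb))) hεb) hD
  obtain ⟨B, hB⟩ := F.bm
  have hbB : ∀ t ∈ J, |b t| ≤ |B| := fun t ht => ((hB t ht).1).trans (le_abs_self B)
  have hnB : ∀ t ∈ J, |(-b t)| ≤ |B| := fun t ht => by
    rw [abs_neg]
    exact hbB t ht
  have hmB : ∀ t ∈ J, |m t| ≤ |B| := fun t ht => ((hB t ht).2).trans (le_abs_self B)
  have hlB : ∀ t ∈ J, |lam t| ≤ 1 := fun t ht => by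
    rw [abs_of_nonneg (hθ.le.trans (F.lo t ht))]
    exact F.hi t ht
  have hLam : ∀ f : ℝ → ℝ → ℝ, ZB_UC J wb f → ZB_UC J wb (fun t y => y * deriv (f t) y) →
      ZB_UC J wb (fun t y => Lam k (f t) y) := by
    intro f h1 h2
    exact ZB_add (ZB_smul hb0 h1 (c := fun _ => 2 / (k : ℝ)) (K := |2 / (k : ℝ)|)
      (fun t _ => le_rfl) (abs_nonneg _)) h2
  have hN : ZB_UC J wb (fun t y => Nf k (b t) (m t) (lam t) (ε t) y) := by
    have t1 := ZB_smul hb0 (hLam _ hQb hyQ) hnB (abs_nonneg B)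
    have t2 := ZB_smul hb0 (ZB_deriv hQb) hmB (abs_nonneg B)
    have t3 := ZB_smul hb0 (ZB_deriv (ZB_deriv hQb)) hlB zero_le_one
    have t4 := ZB_smul hb0 (hLam _ hεb hyε) hbB (abs_nonneg B)
    have t5 := ZB_smul hb0 (ZB_deriv hεb) hmB (abs_nonneg B)
    have t6 := ZB_smul hb0 (ZB_deriv (ZB_deriv hεb)) hlB zero_le_one
    exact ZB_add (ZB_add (ZB_sub hb0 (ZB_add (ZB_add t1 t2) t3) t4) t5) t6
  have hz : ZB_UC J wb (fun t => zeta k (b t) (m t) (lam t) (ε t) (e t)) :=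
    ZB_sub hb0 (ZB_add (ZB_deriv hg) hN) (ZB_deriv heb)
  exact hz.2 j

end H72KB

end S_H72_KB_ZB

section S_H72_KB_ConV

/-!
# Row ConV: continuity of the virial functional for a `Fam`

Proof.  `vf k δ (ε z) y = ∫ w, κ(w) Lop k (ε z) (y - w)`, `κ(w) = exp(-|w|/√δ)/(2√δ)` integrable, `|Lop k (ε z)| ≤ C`
uniformly in `z ∈ S` (`F.bd 0`, `F.bd 2`, `bd ≤ 1`, `|Q|^k ≤ C`), continuous in `z` for fixed argument (`F.co 0`, `F.co 2`;
`iteratedDeriv 2 f = deriv (deriv f)`).  So for fixed `y`, `z ↦ vf k δ (ε z) y` is continuous on `S` and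
`|vf| ≤ C'` (dominated convergence).  It is also continuous in `y` (needed for measurability; or use
`AEStronglyMeasurable` of a convolution / parametric integral, `StronglyMeasurable.integral_prod_right`).
Then `Vf = 1/2 ∫ Psi * vf²` with `|Psi k η γ B y| ≤ (1+|η|) ch B y`, `ch B y = sech²(y/B) ≤ 4 exp(-2|y|/B)` integrable:
dominated convergence again.
-/

open MeasureTheory Filter Topology Set
open scoped ContDiff

namespace H72KB

open H98KB

theorem ConV_bd (p y : ℝ) : bd p p y = Real.exp (-(p * |y|)) := by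
  unfold bd
  congr 1
  have h := ClA_abs y
  rw [← h]
  ring

theorem ConV_exp_int {p : ℝ} (hp : 0 < p) : Integrable (fun y : ℝ => Real.exp (-(p * |y|))) := by
  have h := bd_int hp hp
  refine h.congr (Eventually.of_forall fun y => ?_)
  exact ConV_bd p y

/-- the smoothing kernel -/
noncomputable def ConVker (δ w : ℝ) : ℝ := Real.exp (-|w| / √δ) / (2 * √δ)

theorem ConV_ker_nonneg (δ w : ℝ) : 0 ≤ ConVker δ w := by
  unfold ConVker
  positivity

theorem ConV_ker_cont (δ : ℝ) : Continuous (ConVker δ) := by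
  unfold ConVker
  fun_prop

theorem ConV_ker_int {δ : ℝ} (hδ : 0 < δ) : Integrable (ConVker δ) := by
  have hs : 0 < √δ := Real.sqrt_pos.2 hδ
  have h := (ConV_exp_int (p := 1 / √δ) (by positivity)).div_const (2 * √δ)
  refine h.congr (Eventually.of_forall fun w => ?_)
  unfold ConVker
  show Real.exp (-(1 / √δ * |w|)) / (2 * √δ) = Real.exp (-|w| / √δ) / (2 * √δ)
  congr 2
  ring

theorem ConV_Sm (δ : ℝ) (h : ℝ → ℝ) (y : ℝ) : Sm δ h y = ∫ w, ConVker δ w * h (y - w) := rfl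

theorem ConV_Sm_bound {δ : ℝ} (hδ : 0 < δ) {h : ℝ → ℝ} (hc : Continuous h) {M : ℝ}
    (hM : ∀ y, |h y| ≤ M) :
    Continuous (Sm δ h) ∧ ∀ y, |Sm δ h y| ≤ (∫ w, ConVker δ w) * M := by
  have hI : Integrable (fun w => ConVker δ w * M) := (ConV_ker_int hδ).mul_const M
  have hb : ∀ y w, ‖ConVker δ w * h (y - w)‖ ≤ ConVker δ w * M := by
    intro y w
    rw [Real.norm_eq_abs, abs_mul, abs_of_nonneg (ConV_ker_nonneg δ w)]
    exact mul_le_mul_of_nonneg_left (hM _) (ConV_ker_nonneg δ w)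
  constructor
  · have h1 : Continuous (fun y => ∫ w, ConVker δ w * h (y - w)) := by
      refine continuous_of_dominated (bound := fun w => ConVker δ w * M) ?_ ?_ hI ?_
      · intro y
        exact ((ConV_ker_cont δ).mul (hc.comp (continuous_const.sub continuous_id))).aestronglyMeasurable
      · intro y
        exact Eventually.of_forall (hb y)
      · refine Eventually.of_forall fun w => ?_
        exact continuous_const.mul (hc.comp (continuous_id.sub continuous_const))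
    exact h1
  · intro y
    rw [ConV_Sm, ← Real.norm_eq_abs]
    refine (norm_integral_le_of_norm_le hI (Eventually.of_forall (hb y))).trans ?_
    rw [integral_mul_const]

theorem ConV_it2 (f : ℝ → ℝ) : iteratedDeriv 2 f = deriv (deriv f) := by
  rw [iteratedDeriv_succ, iteratedDeriv_one]

theorem ConV_Qpow {k : ℕ} (hk : 1 ≤ k) (y : ℝ) :
    |(Qf k y) ^ k| ≤ ((k : ℝ) + 1) * ((k : ℝ) + 2) / 2 := by
  rw [Q_pow hk, abs_mul, abs_of_pos (qbas_C0 k)]
  have h1 := qbas_th_abs k y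
  have h2 : (th k y) ^ 2 ≤ 1 := by
    rw [← sq_abs]
    exact pow_le_one₀ (abs_nonneg _) h1
  have h3 : |1 - (th k y) ^ 2| ≤ 1 := by
    rw [abs_le]
    constructor
    · linarith
    · linarith [sq_nonneg (th k y)]
  calc ((k : ℝ) + 1) * ((k : ℝ) + 2) / 2 * |1 - (th k y) ^ 2|
      ≤ ((k : ℝ) + 1) * ((k : ℝ) + 2) / 2 * 1 := mul_le_mul_of_nonneg_left h3 (qbas_C0 k).le
    _ = _ := mul_one _

theorem ConV_Lop_bound {k : ℕ} (hk : 1 ≤ k) {C : ℝ} {ε : ℝ → ℝ} (h0 : ∀ y, |ε y| ≤ C)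
    (h2 : ∀ y, |iteratedDeriv 2 ε y| ≤ C) (y : ℝ) :
    |Lop k ε y| ≤ (2 + ((k : ℝ) + 1) * ((k : ℝ) + 2) / 2) * C := by
  have hC : 0 ≤ C := (abs_nonneg _).trans (h0 0)
  unfold Lop
  have e2 : |deriv (deriv ε) y| ≤ C := by
    rw [← ConV_it2]
    exact h2 y
  have e3 : |(Qf k y) ^ k * ε y| ≤ ((k : ℝ) + 1) * ((k : ℝ) + 2) / 2 * C := by
    rw [abs_mul]
    exact mul_le_mul (ConV_Qpow hk y) (h0 y) (abs_nonneg _) (qbas_C0 k).le
  have e4 := h0 y
  rw [abs_le] at e2 e3 e4 ⊢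
  constructor
  · linarith [e2.1, e2.2, e3.1, e3.2, e4.1, e4.2]
  · linarith [e2.1, e2.2, e3.1, e3.2, e4.1, e4.2]

theorem ConV_Lop_cont {k : ℕ} (hk : 1 ≤ k) {ε : ℝ → ℝ} (h : ContDiff ℝ ∞ ε) :
    Continuous (Lop k ε) := by
  have h2 : Continuous (deriv (deriv ε)) := by
    rw [← ConV_it2]
    exact (contDiff_infty.1 h 2).continuous_iteratedDeriv 2 le_rfl
  unfold Lop
  exact (h2.neg.add h.continuous).sub (((qbas_smooth hk).continuous.pow k).mul h.continuous)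

/-- uniform bound and continuity in `y` of `vf` -/
theorem vf_bound {k : ℕ} {δ : ℝ} (hk : 1 ≤ k) (hδ : 0 < δ) : ∃ C₁ : ℝ, 0 ≤ C₁ ∧
    ∀ (C : ℝ) (ε : ℝ → ℝ), ContDiff ℝ ∞ ε → (∀ y, |ε y| ≤ C) → (∀ y, |iteratedDeriv 2 ε y| ≤ C) →
      Continuous (vf k δ ε) ∧ ∀ y, |vf k δ ε y| ≤ C₁ * C := by
  refine ⟨(∫ w, ConVker δ w) * (2 + ((k : ℝ) + 1) * ((k : ℝ) + 2) / 2), ?_, ?_⟩
  · refine mul_nonneg (integral_nonneg (ConV_ker_nonneg δ)) ?_
    have := qbas_C0 k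
    linarith
  · intro C ε hs h0 h2
    obtain ⟨h3, h4⟩ := ConV_Sm_bound hδ (ConV_Lop_cont hk hs) (ConV_Lop_bound hk h0 h2)
    refine ⟨h3, fun y => ?_⟩
    rw [mul_assoc]
    exact h4 y

theorem ConV_ch (B y : ℝ) : |ch B y| ≤ 4 * Real.exp (-(2 / B) * |y|) ∨ B ≤ 0 := by
  rcases le_or_gt B 0 with hB | hB
  · exact Or.inr hB
  left
  unfold ch
  have hc := Real.cosh_pos (y / B)
  have h1 : Real.exp (|y| / B) / 2 ≤ Real.cosh (y / B) := by
    rw [← Real.cosh_abs, Real.cosh_eq, abs_div, abs_of_pos hB]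
    have := Real.exp_pos (-(|y| / B))
    linarith
  have h2 : 0 < Real.exp (|y| / B) / 2 := by positivity
  have h3 : 1 / Real.cosh (y / B) ≤ 2 * Real.exp (-(|y| / B)) := by
    calc 1 / Real.cosh (y / B) ≤ 1 / (Real.exp (|y| / B) / 2) := one_div_le_one_div_of_le h2 h1
      _ = 2 * Real.exp (-(|y| / B)) := by
        rw [Real.exp_neg]
        field_simp
  rw [abs_of_nonneg (sq_nonneg _)]
  calc (1 / Real.cosh (y / B)) ^ 2 ≤ (2 * Real.exp (-(|y| / B))) ^ 2 :=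
        pow_le_pow_left₀ (by positivity) h3 2
    _ = 4 * Real.exp (-(2 / B) * |y|) := by
        rw [mul_pow, ← Real.exp_nat_mul]
        norm_num
        ring

/-- the weight `Psi` -/
theorem Psi_bound (k : ℕ) (η γ : ℝ) {B : ℝ} (hB : 0 < B) :
    Continuous (Psi k η γ B) ∧ Integrable (Psi k η γ B) ∧
      (∀ y, |Psi k η γ B y| ≤ (1 + |η|) * 4 * Real.exp (-(2 / B) * |y|)) := by
  have hth : Continuous (fun y : ℝ => Real.tanh y) := by
    have e : (fun y : ℝ => Real.tanh y) = fun y => Real.sinh y / Real.cosh y := by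
      funext y
      exact Real.tanh_eq_sinh_div_cosh y
    rw [e]
    exact Real.continuous_sinh.div Real.continuous_cosh (fun y => (Real.cosh_pos y).ne')
  have hcont : Continuous (Psi k η γ B) := by
    have h1 : Continuous (fun y : ℝ => Real.tanh ((k : ℝ) * y / 2)) :=
      hth.comp ((continuous_const.mul continuous_id).div_const 2)
    have h2 : Continuous (fun y : ℝ => Real.tanh (γ * y)) := hth.comp (continuous_const.mul continuous_id)
    have h3 : Continuous (fun y : ℝ => (1 / Real.cosh (y / B)) ^ 2) :=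
      (continuous_const.div (Real.continuous_cosh.comp (continuous_id.div_const B))
        (fun y => (Real.cosh_pos _).ne')).pow 2
    exact (h1.add (continuous_const.mul h2)).mul h3
  have hbd : ∀ y, |Psi k η γ B y| ≤ (1 + |η|) * 4 * Real.exp (-(2 / B) * |y|) := by
    intro y
    unfold Psi
    rw [abs_mul, mul_assoc]
    have h1 : |psi k η γ y| ≤ 1 + |η| := by
      unfold psi
      have e1 := qbas_th_abs k y
      have e2 : |η * Real.tanh (γ * y)| ≤ |η| := by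
        rw [abs_mul]
        exact mul_le_of_le_one_right (abs_nonneg _) (Real.abs_tanh_lt_one _).le
      exact (abs_add_le _ _).trans (add_le_add e1 e2)
    have h2 : |ch B y| ≤ 4 * Real.exp (-(2 / B) * |y|) := by
      rcases ConV_ch B y with h | h
      · exact h
      · exact absurd hB (not_lt.2 h)
    exact mul_le_mul h1 h2 (abs_nonneg _) (by positivity)
  refine ⟨hcont, ?_, hbd⟩
  have h4 : Integrable (fun y : ℝ => (1 + |η|) * 4 * Real.exp (-(2 / B * |y|))) :=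
    (ConV_exp_int (p := 2 / B) (by positivity)).const_mul _
  refine h4.mono' hcont.aestronglyMeasurable (Eventually.of_forall fun y => ?_)
  rw [Real.norm_eq_abs]
  refine (hbd y).trans (le_of_eq ?_)
  rw [neg_mul]

theorem con_V {k : ℕ} {R θ : ℝ} {S : Set (ℝ × ℝ)} {lam : ℝ × ℝ → ℝ} {ε : ℝ × ℝ → ℝ → ℝ}
    (hk : 1 ≤ k) (F : Fam R θ S lam ε) {B δ : ℝ} (hB : 0 < B) (hδ : 0 < δ) (η γ : ℝ) :
    ContinuousOn (fun z => Vf k η γ B δ (ε z)) S := by
  obtain ⟨C0, hC0⟩ := F.bd 0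
  obtain ⟨C2, hC2⟩ := F.bd 2
  have hle : ∀ (C : ℝ), ∀ z ∈ S, ∀ y, C * bd (R * lam z + θ) θ y ≤ max |C0| |C2| ∨ |C| > max |C0| |C2| := by
    intro C z hz y
    rcases le_or_gt |C| (max |C0| |C2|) with h | h
    · left
      have h0 : 0 ≤ R * lam z + θ :=
        add_nonneg (mul_nonneg F.R0 (F.θ0.le.trans (F.lo z hz))) F.θ0.le
      have h1 := bd_le_one h0 F.θ0.le y
      have h2 := bd_pos (R * lam z + θ) θ y
      calc C * bd (R * lam z + θ) θ y ≤ |C| * 1 :=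
            mul_le_mul (le_abs_self C) h1 h2.le (abs_nonneg C)
        _ ≤ max |C0| |C2| := by rw [mul_one]; exact h
    · exact Or.inr h
  set C := max |C0| |C2| with hC
  have hb0 : ∀ z ∈ S, ∀ y, |ε z y| ≤ C := by
    intro z hz y
    have h1 := hC0 z hz y
    rw [iteratedDeriv_zero] at h1
    rcases hle C0 z hz y with h | h
    · exact h1.trans h
    · exact absurd h (not_lt.2 (le_max_left _ _))
  have hb2 : ∀ z ∈ S, ∀ y, |iteratedDeriv 2 (ε z) y| ≤ C := by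
    intro z hz y
    rcases hle C2 z hz y with h | h
    · exact (hC2 z hz y).trans h
    · exact absurd h (not_lt.2 (le_max_right _ _))
  obtain ⟨C₁, hC1, hvf⟩ := vf_bound (k := k) (δ := δ) hk hδ
  obtain ⟨hP1, hP2, -⟩ := Psi_bound k η γ hB
  have hvc : ∀ y, ContinuousOn (fun z => vf k δ (ε z) y) S := by
    intro y
    have hI : Integrable (fun w => ConVker δ w * ((2 + ((k : ℝ) + 1) * ((k : ℝ) + 2) / 2) * C)) :=
      (ConV_ker_int hδ).mul_const _
    have h1 : ContinuousOn (fun z => ∫ w, ConVker δ w * Lop k (ε z) (y - w)) S := by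
      refine continuousOn_of_dominated
        (bound := fun w => ConVker δ w * ((2 + ((k : ℝ) + 1) * ((k : ℝ) + 2) / 2) * C)) ?_ ?_ hI ?_
      · intro z hz
        exact ((ConV_ker_cont δ).mul ((ConV_Lop_cont hk (F.sm z hz)).comp
          (continuous_const.sub continuous_id))).aestronglyMeasurable
      · intro z hz
        refine Eventually.of_forall fun w => ?_
        rw [Real.norm_eq_abs, abs_mul, abs_of_nonneg (ConV_ker_nonneg δ w)]
        exact mul_le_mul_of_nonneg_left (ConV_Lop_bound hk (hb0 z hz) (hb2 z hz) _)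
          (ConV_ker_nonneg δ w)
      · refine Eventually.of_forall fun w => ?_
        refine ContinuousOn.mul continuousOn_const ?_
        have e0 := F.co 0 (y - w)
        have e2 := F.co 2 (y - w)
        have e3 : (fun z => Lop k (ε z) (y - w)) = fun z => -iteratedDeriv 2 (ε z) (y - w) +
            iteratedDeriv 0 (ε z) (y - w) - (Qf k (y - w)) ^ k * iteratedDeriv 0 (ε z) (y - w) := by
          funext z
          rw [ConV_it2, iteratedDeriv_zero]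
          rfl
        rw [e3]
        exact (e2.neg.add e0).sub (continuousOn_const.mul e0)
    exact h1
  unfold Vf
  refine ContinuousOn.mul continuousOn_const ?_
  refine continuousOn_of_dominated (bound := fun y => |Psi k η γ B y| * (C₁ * C) ^ 2) ?_ ?_
    (hP2.abs.mul_const _) ?_
  · intro z hz
    exact (hP1.mul ((hvf C (ε z) (F.sm z hz) (hb0 z hz) (hb2 z hz)).1.pow 2)).aestronglyMeasurable
  · intro z hz
    refine Eventually.of_forall fun y => ?_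
    rw [Real.norm_eq_abs, abs_mul]
    refine mul_le_mul_of_nonneg_left ?_ (abs_nonneg _)
    rw [abs_of_nonneg (sq_nonneg _), ← sq_abs]
    exact pow_le_pow_left₀ (abs_nonneg _) ((hvf C (ε z) (F.sm z hz) (hb0 z hz) (hb2 z hz)).2 y) 2
  · refine Eventually.of_forall fun y => ?_
    exact continuousOn_const.mul ((hvc y).pow 2)

end H72KB

end S_H72_KB_ConV

section S_H72_KB_DerV

/-!
# Row DerV: time derivative of the virial functional along a `Flow`

Proof.  First for fixed `y`: `vf k δ (ε τ) y = ∫ w, κ(w) Lop k (ε τ) (y-w)`; `∂_τ Lop k (ε τ) x = Lop k ζ x / lam³`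
(`F.ev 0`, `F.ev 2`, `Lop k f x = -iteratedDeriv 2 f x + f x - Q^k f x`), bounded uniformly for `τ ∈ J` and `κ`
integrable, so `∂_τ vf k δ (ε τ) y = vf k δ ζ y / lam³` (dominated differentiation).
Then `Vf = 1/2 ∫ Psi vf²`: derivative of the integrand `Psi vf(ε) vf(ζ)/lam³`, bounded by `C |Psi|` (`vf_bound`),
integrable (`Psi_bound`).  Measurability in `y`: `vf_bound` (continuity in `y`), `zeta_smooth`.
-/

open MeasureTheory Filter Topology Set
open scoped ContDiff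

namespace H72KB

open H98KB

theorem DerV_bd_le_one {p q : ℝ} (hp : 0 ≤ p) (hq : 0 ≤ q) (y : ℝ) : bd p q y ≤ 1 := by
  unfold bd
  rw [Real.exp_le_one_iff]
  have h1 : 0 ≤ p * max y 0 := mul_nonneg hp (le_max_right _ _)
  have h2 : 0 ≤ q * max (-y) 0 := mul_nonneg hq (le_max_right _ _)
  linarith

theorem DerV_bd_pos (p q y : ℝ) : 0 < bd p q y := Real.exp_pos _

theorem DerV_it0 (f : ℝ → ℝ) (x : ℝ) : iteratedDeriv 0 f x = f x := by
  rw [iteratedDeriv_zero]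

theorem DerV_it2 (f : ℝ → ℝ) (x : ℝ) : iteratedDeriv 2 f x = deriv (deriv f) x := by
  rw [iteratedDeriv_succ, iteratedDeriv_one]

theorem DerV_Lop (k : ℕ) (f : ℝ → ℝ) (x : ℝ) :
    Lop k f x = -iteratedDeriv 2 f x + iteratedDeriv 0 f x - (Qf k x) ^ k * iteratedDeriv 0 f x := by
  rw [DerV_it0, DerV_it2]
  rfl

theorem DerV_Qpow {k : ℕ} (hk : 1 ≤ k) : ∃ K : ℝ, 0 ≤ K ∧ ∀ y, |(Qf k y) ^ k| ≤ K := by
  refine ⟨((k : ℝ) + 1) * ((k : ℝ) + 2) / 2, by positivity, fun y => ?_⟩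
  rw [Q_pow hk y]
  have h := qbas_th_abs k y
  have h2 : (th k y) ^ 2 ≤ 1 := by
    rw [← sq_abs]
    exact pow_le_one₀ (abs_nonneg _) h
  have h0 : 0 ≤ (th k y) ^ 2 := sq_nonneg _
  have hc : 0 < ((k : ℝ) + 1) * ((k : ℝ) + 2) / 2 := qbas_C0 k
  rw [abs_of_nonneg (mul_nonneg hc.le (by linarith))]
  nlinarith

theorem DerV_Lop_bd {k : ℕ} {K C : ℝ} (hK : ∀ y, |(Qf k y) ^ k| ≤ K) {f : ℝ → ℝ}
    (h0 : ∀ y, |iteratedDeriv 0 f y| ≤ C) (h2 : ∀ y, |iteratedDeriv 2 f y| ≤ C) (x : ℝ) :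
    |Lop k f x| ≤ (2 + K) * C := by
  rw [DerV_Lop]
  have a1 := h0 x
  have a2 := h2 x
  have a3 := hK x
  have hC : 0 ≤ C := (abs_nonneg _).trans a1
  have a4 : |(Qf k x) ^ k * iteratedDeriv 0 f x| ≤ K * C := by
    rw [abs_mul]
    exact mul_le_mul a3 a1 (abs_nonneg _) ((abs_nonneg _).trans a3)
  have e1 := abs_sub (-iteratedDeriv 2 f x + iteratedDeriv 0 f x) ((Qf k x) ^ k * iteratedDeriv 0 f x)
  have e2 := abs_add_le (-iteratedDeriv 2 f x) (iteratedDeriv 0 f x)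
  rw [abs_neg] at e2
  nlinarith

theorem DerV_Lop_cont {k : ℕ} (hk : 1 ≤ k) {f : ℝ → ℝ} (hf : ContDiff ℝ ∞ f) :
    Continuous (Lop k f) := by
  have h : Lop k f = fun x => -iteratedDeriv 2 f x + iteratedDeriv 0 f x
      - (Qf k x) ^ k * iteratedDeriv 0 f x := by
    funext x
    exact DerV_Lop k f x
  rw [h]
  have c2 : Continuous (iteratedDeriv 2 f) := hf.continuous_iteratedDeriv 2 (mod_cast ENat.LEInfty.out)
  have c0 : Continuous (iteratedDeriv 0 f) := hf.continuous_iteratedDeriv 0 (by exact_mod_cast bot_le)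
  have cQ : Continuous (Qf k) := (qbas_smooth hk).continuous
  exact (c2.neg.add c0).sub ((cQ.pow k).mul c0)

/-- the kernel of `Sm` -/
noncomputable def DerV_ka (δ z : ℝ) : ℝ := Real.exp (-|z| / √δ) / (2 * √δ)

theorem DerV_ka_cont (δ : ℝ) : Continuous (DerV_ka δ) := by
  unfold DerV_ka
  exact ((Real.continuous_exp.comp ((continuous_abs.neg).div_const _)).div_const _)

theorem DerV_ka_nn {δ : ℝ} (z : ℝ) : 0 ≤ DerV_ka δ z := by
  unfold DerV_ka
  exact div_nonneg (Real.exp_pos _).le (mul_nonneg (by norm_num) (Real.sqrt_nonneg _))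

theorem DerV_exp_int {c : ℝ} (hc : 0 < c) : Integrable (fun y : ℝ => Real.exp (-c * |y|)) := by
  have h1 : IntegrableOn (fun y : ℝ => Real.exp (-c * |y|)) (Ioi 0) := by
    have h := (integrableOn_exp_mul_Ioi (neg_lt_zero.mpr hc) 0)
    refine h.congr_fun (fun y hy => ?_) measurableSet_Ioi
    simp only
    rw [abs_of_pos hy]
  have h2 : IntegrableOn (fun y : ℝ => Real.exp (-c * |y|)) (Iic 0) := by
    have h := (integrableOn_exp_mul_Iic hc 0)
    refine h.congr_fun (fun y hy => ?_) measurableSet_Iic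
    simp only
    rw [abs_of_nonpos hy]
    congr 1
    ring
  have h3 := h2.union h1
  rw [Iic_union_Ioi] at h3
  exact integrableOn_univ.mp h3

theorem DerV_ka_int {δ : ℝ} (hδ : 0 < δ) : Integrable (DerV_ka δ) := by
  have hs : 0 < √δ := Real.sqrt_pos.mpr hδ
  have h := (DerV_exp_int (c := 1 / √δ) (by positivity)).div_const (2 * √δ)
  have e : DerV_ka δ = fun z : ℝ => Real.exp (-(1 / √δ) * |z|) / (2 * √δ) := by
    funext z
    unfold DerV_ka
    congr 2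
    ring
  rw [e]
  exact h

theorem DerV_flow_bd {k : ℕ} {R θ : ℝ} {J : Set ℝ} {lam b m : ℝ → ℝ} {ε e : ℝ → ℝ → ℝ}
    (hk : 1 ≤ k) (F : Flow k R θ J lam b m ε e) : ∃ C : ℝ, 0 ≤ C ∧ ∀ t ∈ J, ∀ y,
      |iteratedDeriv 0 (ε t) y| ≤ C ∧ |iteratedDeriv 2 (ε t) y| ≤ C ∧
      |iteratedDeriv 0 (zeta k (b t) (m t) (lam t) (ε t) (e t)) y| ≤ C ∧
      |iteratedDeriv 2 (zeta k (b t) (m t) (lam t) (ε t) (e t)) y| ≤ C := by
  obtain ⟨A0, hA0⟩ := F.bd 0
  obtain ⟨A2, hA2⟩ := F.bd 2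
  obtain ⟨B0, hB0, hB0'⟩ := zeta_bound hk F 0
  obtain ⟨B2, hB2, hB2'⟩ := zeta_bound hk F 2
  have hθ := F.θ0
  have key : ∀ (A p q y v : ℝ), 0 ≤ p → 0 ≤ q → |v| ≤ A * bd p q y → |v| ≤ |A| := by
    intro A p q y v hp hq h
    have h1 := DerV_bd_le_one hp hq y
    have h2 := DerV_bd_pos p q y
    calc |v| ≤ A * bd p q y := h
      _ ≤ |A| * bd p q y := mul_le_mul_of_nonneg_right (le_abs_self A) h2.le
      _ ≤ |A| * 1 := mul_le_mul_of_nonneg_left h1 (abs_nonneg _)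
      _ = |A| := mul_one _
  refine ⟨|A0| + |A2| + |B0| + |B2|, by positivity, fun t ht y => ?_⟩
  have hl : 0 ≤ lam t := hθ.le.trans (F.lo t ht)
  have hR : 0 ≤ R * lam t := mul_nonneg F.R0 hl
  have n1 := abs_nonneg A0
  have n2 := abs_nonneg A2
  have n3 := abs_nonneg B0
  have n4 := abs_nonneg B2
  refine ⟨?_, ?_, ?_, ?_⟩
  · have := key _ _ _ _ _ (by linarith) hθ.le (hA0 t ht y)
    linarith
  · have := key _ _ _ _ _ (by linarith) hθ.le (hA2 t ht y)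
    linarith
  · have := key _ _ _ _ _ (by linarith) (by linarith) (hB0' t ht y)
    linarith
  · have := key _ _ _ _ _ (by linarith) (by linarith) (hB2' t ht y)
    linarith

theorem DerV_Lop_der {k : ℕ} {R θ : ℝ} {J : Set ℝ} {lam b m : ℝ → ℝ} {ε e : ℝ → ℝ → ℝ}
    (F : Flow k R θ J lam b m ε e) {t : ℝ} (ht : t ∈ J) (x : ℝ) :
    HasDerivAt (fun τ => Lop k (ε τ) x)
      (Lop k (zeta k (b t) (m t) (lam t) (ε t) (e t)) x / (lam t) ^ 3) t := by
  have h0 := F.ev 0 t ht x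
  have h2 := F.ev 2 t ht x
  have h := (h2.neg.add h0).sub (h0.const_mul ((Qf k x) ^ k))
  have e1 : (fun τ => Lop k (ε τ) x) = fun τ => -iteratedDeriv 2 (ε τ) x + iteratedDeriv 0 (ε τ) x
      - (Qf k x) ^ k * iteratedDeriv 0 (ε τ) x := by
    funext τ
    exact DerV_Lop k (ε τ) x
  rw [e1, DerV_Lop]
  refine h.congr_deriv ?_
  ring

theorem DerV_vf_der {k : ℕ} {R θ : ℝ} {J : Set ℝ} {lam b m : ℝ → ℝ} {ε e : ℝ → ℝ → ℝ}
    (hk : 1 ≤ k) (F : Flow k R θ J lam b m ε e) {δ : ℝ} (hδ : 0 < δ) {t : ℝ} (ht : t ∈ J) (y : ℝ) :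
    HasDerivAt (fun τ => vf k δ (ε τ) y)
      (vf k δ (zeta k (b t) (m t) (lam t) (ε t) (e t)) y / (lam t) ^ 3) t := by
  obtain ⟨K, hK0, hK⟩ := DerV_Qpow hk
  obtain ⟨C, hC0, hC⟩ := DerV_flow_bd hk F
  have hθ := F.θ0
  have hJ : J ∈ 𝓝 t := F.op.mem_nhds ht
  have hLc : ∀ τ ∈ J, Continuous (fun z => DerV_ka δ z * Lop k (ε τ) (y - z)) := fun τ hτ =>
    (DerV_ka_cont δ).mul ((DerV_Lop_cont hk (F.sm τ hτ)).comp (continuous_const.sub continuous_id))
  have hZc : ∀ τ ∈ J, Continuous (fun z => DerV_ka δ z *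
      (Lop k (zeta k (b τ) (m τ) (lam τ) (ε τ) (e τ)) (y - z) / (lam τ) ^ 3)) := fun τ hτ =>
    (DerV_ka_cont δ).mul (((DerV_Lop_cont hk (zeta_smooth hk _ _ _ (F.sm τ hτ) (F.se τ hτ))).comp
      (continuous_const.sub continuous_id)).div_const _)
  have hLb : ∀ τ ∈ J, ∀ x, |Lop k (ε τ) x| ≤ (2 + K) * C := fun τ hτ x =>
    DerV_Lop_bd hK (fun y => (hC τ hτ y).1) (fun y => (hC τ hτ y).2.1) x
  have hZb : ∀ τ ∈ J, ∀ x, |Lop k (zeta k (b τ) (m τ) (lam τ) (ε τ) (e τ)) x| ≤ (2 + K) * C :=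
    fun τ hτ x => DerV_Lop_bd hK (fun y => (hC τ hτ y).2.2.1) (fun y => (hC τ hτ y).2.2.2) x
  have hM : 0 ≤ (2 + K) * C := by positivity
  have hlam3 : ∀ τ ∈ J, θ ^ 3 ≤ (lam τ) ^ 3 := fun τ hτ => pow_le_pow_left₀ hθ.le (F.lo τ hτ) 3
  have hθ3 : 0 < θ ^ 3 := by positivity
  have hmain := hasDerivAt_integral_of_dominated_loc_of_deriv_le (μ := volume) (x₀ := t) (s := J)
    (F := fun τ z => DerV_ka δ z * Lop k (ε τ) (y - z))
    (F' := fun τ z => DerV_ka δ z *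
      (Lop k (zeta k (b τ) (m τ) (lam τ) (ε τ) (e τ)) (y - z) / (lam τ) ^ 3))
    (bound := fun z => DerV_ka δ z * ((2 + K) * C / θ ^ 3)) hJ
    (by
      filter_upwards [hJ] with τ hτ
      exact (hLc τ hτ).aestronglyMeasurable)
    (by
      refine ((DerV_ka_int hδ).mul_const ((2 + K) * C)).mono' (hLc t ht).aestronglyMeasurable ?_
      refine Eventually.of_forall fun z => ?_
      rw [Real.norm_eq_abs, abs_mul, abs_of_nonneg (DerV_ka_nn z)]
      exact mul_le_mul_of_nonneg_left (hLb t ht _) (DerV_ka_nn z))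
    (hZc t ht).aestronglyMeasurable
    (by
      refine Eventually.of_forall fun z τ hτ => ?_
      rw [Real.norm_eq_abs, abs_mul, abs_of_nonneg (DerV_ka_nn z)]
      refine mul_le_mul_of_nonneg_left ?_ (DerV_ka_nn z)
      have hp : 0 < (lam τ) ^ 3 := lt_of_lt_of_le hθ3 (hlam3 τ hτ)
      rw [abs_div, abs_of_pos hp]
      exact div_le_div₀ hM (hZb τ hτ _) hθ3 (hlam3 τ hτ))
    ((DerV_ka_int hδ).mul_const _)
    (by
      refine Eventually.of_forall fun z τ hτ => ?_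
      exact (DerV_Lop_der F hτ (y - z)).const_mul (DerV_ka δ z))
  have h2 := hmain.2
  have e1 : (fun τ => vf k δ (ε τ) y) = fun τ => ∫ z, DerV_ka δ z * Lop k (ε τ) (y - z) := by
    funext τ
    rfl
  have e2 : (∫ z, DerV_ka δ z *
      (Lop k (zeta k (b t) (m t) (lam t) (ε t) (e t)) (y - z) / (lam t) ^ 3)) =
      vf k δ (zeta k (b t) (m t) (lam t) (ε t) (e t)) y / (lam t) ^ 3 := by
    have e3 : vf k δ (zeta k (b t) (m t) (lam t) (ε t) (e t)) y = ∫ z, DerV_ka δ z *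
        Lop k (zeta k (b t) (m t) (lam t) (ε t) (e t)) (y - z) := rfl
    rw [e3, ← integral_div]
    refine integral_congr_ae (Eventually.of_forall fun z => ?_)
    simp only
    ring
  rw [e1, ← e2]
  exact h2

theorem der_V {k : ℕ} {R θ : ℝ} {J : Set ℝ} {lam b m : ℝ → ℝ} {ε e : ℝ → ℝ → ℝ}
    (hk : 1 ≤ k) (F : Flow k R θ J lam b m ε e) {B δ : ℝ} (hB : 0 < B) (hδ : 0 < δ) (η γ : ℝ)
    {t : ℝ} (ht : t ∈ J) :
    HasDerivAt (fun τ => Vf k η γ B δ (ε τ))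
      (DV k η γ B δ (ε t) (zeta k (b t) (m t) (lam t) (ε t) (e t)) / (lam t) ^ 3) t := by
  obtain ⟨C, hC0, hC⟩ := DerV_flow_bd hk F
  obtain ⟨C₁, hC1, hv⟩ := vf_bound (δ := δ) hk hδ
  obtain ⟨hPc, hPi, -⟩ := Psi_bound k η γ hB
  have hθ := F.θ0
  have hJ : J ∈ 𝓝 t := F.op.mem_nhds ht
  have hE : ∀ τ ∈ J, Continuous (vf k δ (ε τ)) ∧ ∀ y, |vf k δ (ε τ) y| ≤ C₁ * C := by
    intro τ hτ
    refine hv C (ε τ) (F.sm τ hτ) (fun y => ?_) (fun y => (hC τ hτ y).2.1)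
    have := (hC τ hτ y).1
    rwa [DerV_it0] at this
  have hZ : ∀ τ ∈ J, Continuous (vf k δ (zeta k (b τ) (m τ) (lam τ) (ε τ) (e τ))) ∧
      ∀ y, |vf k δ (zeta k (b τ) (m τ) (lam τ) (ε τ) (e τ)) y| ≤ C₁ * C := by
    intro τ hτ
    refine hv C _ (zeta_smooth hk _ _ _ (F.sm τ hτ) (F.se τ hτ)) (fun y => ?_)
      (fun y => (hC τ hτ y).2.2.2)
    have := (hC τ hτ y).2.2.1
    rwa [DerV_it0] at this
  have hM : 0 ≤ C₁ * C := mul_nonneg hC1 hC0
  have hlam3 : ∀ τ ∈ J, θ ^ 3 ≤ (lam τ) ^ 3 := fun τ hτ => pow_le_pow_left₀ hθ.le (F.lo τ hτ) 3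
  have hθ3 : 0 < θ ^ 3 := by positivity
  have hmain := hasDerivAt_integral_of_dominated_loc_of_deriv_le (μ := volume) (x₀ := t) (s := J)
    (F := fun τ y => Psi k η γ B y * (vf k δ (ε τ) y) ^ 2)
    (F' := fun τ y => Psi k η γ B y * (2 * vf k δ (ε τ) y *
      (vf k δ (zeta k (b τ) (m τ) (lam τ) (ε τ) (e τ)) y / (lam τ) ^ 3)))
    (bound := fun y => |Psi k η γ B y| * (2 * (C₁ * C) * (C₁ * C / θ ^ 3))) hJ
    (by
      filter_upwards [hJ] with τ hτ
      exact (hPc.mul ((hE τ hτ).1.pow 2)).aestronglyMeasurable)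
    (by
      refine (hPi.abs.mul_const ((C₁ * C) ^ 2)).mono'
        (hPc.mul ((hE t ht).1.pow 2)).aestronglyMeasurable ?_
      refine Eventually.of_forall fun y => ?_
      rw [Real.norm_eq_abs, abs_mul, abs_pow]
      exact mul_le_mul_of_nonneg_left (pow_le_pow_left₀ (abs_nonneg _) ((hE t ht).2 y) 2)
        (abs_nonneg _))
    ((hPc.mul (((hE t ht).1.const_mul 2).mul ((hZ t ht).1.div_const _))).aestronglyMeasurable)
    (by
      refine Eventually.of_forall fun y τ hτ => ?_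
      have hp : 0 < (lam τ) ^ 3 := lt_of_lt_of_le hθ3 (hlam3 τ hτ)
      rw [Real.norm_eq_abs, abs_mul, abs_mul, abs_mul, abs_div, abs_of_pos hp, abs_two]
      refine mul_le_mul_of_nonneg_left ?_ (abs_nonneg _)
      refine mul_le_mul ?_ ?_ (by positivity) (by positivity)
      · exact mul_le_mul_of_nonneg_left ((hE τ hτ).2 y) (by norm_num)
      · exact div_le_div₀ hM ((hZ τ hτ).2 y) hθ3 (hlam3 τ hτ))
    (hPi.abs.mul_const _)
    (by
      refine Eventually.of_forall fun y τ hτ => ?_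
      have h := ((DerV_vf_der hk F hδ hτ y).pow 2).const_mul (Psi k η γ B y)
      refine h.congr_deriv ?_
      norm_num)
  have h2 := hmain.2.const_mul (1 / 2 : ℝ)
  refine h2.congr_deriv ?_
  have e3 : DV k η γ B δ (ε t) (zeta k (b t) (m t) (lam t) (ε t) (e t)) =
      ∫ y, Psi k η γ B y * (vf k δ (ε t) y *
        vf k δ (zeta k (b t) (m t) (lam t) (ε t) (e t)) y) := rfl
  rw [e3, ← integral_div, ← integral_const_mul]
  refine integral_congr_ae (Eventually.of_forall fun y => ?_)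
  simp only
  ring

end H72KB

end S_H72_KB_DerV

section S_H72_KB_DerI

/-!
# Row DerI: time derivatives of pairings and of `Xn` along a `Flow`

Proof.  `hasDerivAt_integral_of_dominated_loc_of_deriv_le` at `t ∈ J` on a ball contained in the open set `J`:
derivative of the integrand `ε τ y * φ y` in `τ` is `zeta y / lam³ * φ y` (`F.ev 0`), bounded by
`C C' θ^{-3} bd (θ/2) (θ/2) y` for all `τ ∈ J` (`zeta_bound 0`, `lam ≥ θ`, `R lam ≥ 0`), integrable (`bd_int`).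
For `Xn`: integrand `(iteratedDeriv 1 (ε τ) y)²`, derivative `2 ε' ζ' / lam³` (`F.ev 1`, `zeta_bound 1`).
(`iteratedDeriv 0 f = f`, `iteratedDeriv 1 f = deriv f`.)
-/

open MeasureTheory Filter Topology Set
open scoped ContDiff

namespace H72KB

open H98KB

theorem deri_z {k : ℕ} {R θ : ℝ} {J : Set ℝ} {lam b m : ℝ → ℝ} {ε e : ℝ → ℝ → ℝ}
    (hk : 1 ≤ k) (F : Flow k R θ J lam b m ε e) (j : ℕ) : ∃ Z : ℝ, 0 ≤ Z ∧ ∀ t ∈ J, ∀ y,
      |iteratedDeriv j (zeta k (b t) (m t) (lam t) (ε t) (e t)) y / (lam t) ^ 3| ≤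
        Z * bd (θ / 2) (θ / 2) y := by
  obtain ⟨Z, hZ0, hZ⟩ := zeta_bound hk F j
  have hθ := F.θ0
  refine ⟨Z / θ ^ 3, by positivity, fun t ht y => ?_⟩
  have h1 := hZ t ht y
  have hl := F.lo t ht
  have hR := F.R0
  have hRl : 0 ≤ R * lam t := mul_nonneg hR (by linarith)
  have h2 : bd (R * lam t + θ / 2) (θ / 2) y ≤ bd (θ / 2) (θ / 2) y :=
    bd_anti (by linarith) le_rfl y
  have h3 : |iteratedDeriv j (zeta k (b t) (m t) (lam t) (ε t) (e t)) y| ≤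
      Z * bd (θ / 2) (θ / 2) y := h1.trans (mul_le_mul_of_nonneg_left h2 hZ0)
  have hl0 : 0 < lam t := by linarith
  have h4 : θ ^ 3 ≤ (lam t) ^ 3 := pow_le_pow_left₀ hθ.le hl 3
  rw [abs_div, abs_of_pos (pow_pos hl0 3)]
  have h5 : Z / θ ^ 3 * bd (θ / 2) (θ / 2) y = (Z * bd (θ / 2) (θ / 2) y) / θ ^ 3 := by ring
  rw [h5]
  exact div_le_div₀ (mul_nonneg hZ0 (bd_pos _ _ y).le) h3 (pow_pos hθ 3) h4

theorem deri_e {k : ℕ} {R θ : ℝ} {J : Set ℝ} {lam b m : ℝ → ℝ} {ε e : ℝ → ℝ → ℝ}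
    (F : Flow k R θ J lam b m ε e) (j : ℕ) : ∃ D : ℝ, 0 ≤ D ∧ ∀ t ∈ J, ∀ y,
      |iteratedDeriv j (ε t) y| ≤ D * bd (θ / 2) (θ / 2) y ∧
      |iteratedDeriv j (ε t) y| ≤ D := by
  obtain ⟨D, hD⟩ := F.bd j
  have hθ := F.θ0
  refine ⟨|D|, abs_nonneg D, fun t ht y => ?_⟩
  have hl := F.lo t ht
  have hRl : 0 ≤ R * lam t := mul_nonneg F.R0 (by linarith)
  have h1 := hD t ht y
  have h2 : |iteratedDeriv j (ε t) y| ≤ |D| * bd (R * lam t + θ) θ y :=
    h1.trans (mul_le_mul_of_nonneg_right (le_abs_self D) (bd_pos _ _ y).le)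
  refine ⟨h2.trans (mul_le_mul_of_nonneg_left (bd_anti (by linarith) (by linarith) y)
    (abs_nonneg D)), h2.trans ?_⟩
  have h3 := mul_le_mul_of_nonneg_left
    (bd_le_one (p := R * lam t + θ) (q := θ) (by linarith) hθ.le y) (abs_nonneg D)
  simpa using h3

theorem der_I {k : ℕ} {R θ : ℝ} {J : Set ℝ} {lam b m : ℝ → ℝ} {ε e : ℝ → ℝ → ℝ}
    (hk : 1 ≤ k) (F : Flow k R θ J lam b m ε e) (φ : ℝ → ℝ) (hφ : Continuous φ) (C : ℝ)
    (hC : ∀ y, |φ y| ≤ C) {t : ℝ} (ht : t ∈ J) :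
    HasDerivAt (fun τ => ip (ε τ) φ)
      (ip (zeta k (b t) (m t) (lam t) (ε t) (e t)) φ / (lam t) ^ 3) t := by
  have hJ : J ∈ 𝓝 t := F.op.mem_nhds ht
  obtain ⟨Z, hZ0, hZ⟩ := deri_z hk F 0
  obtain ⟨D, hD0, hD⟩ := deri_e F 0
  simp only [iteratedDeriv_zero] at hZ hD
  have hC0 : 0 ≤ C := (abs_nonneg _).trans (hC 0)
  have hθ := F.θ0
  have hbi : Integrable (bd (θ / 2) (θ / 2)) := bd_int (by linarith) (by linarith)
  have hmeas : ∀ τ ∈ J, AEStronglyMeasurable (fun y => ε τ y * φ y) volume := fun τ hτ =>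
    ((F.sm τ hτ).continuous.mul hφ).aestronglyMeasurable
  have hzc : ∀ τ ∈ J, Continuous (zeta k (b τ) (m τ) (lam τ) (ε τ) (e τ)) := fun τ hτ =>
    (zeta_smooth hk (b τ) (m τ) (lam τ) (F.sm τ hτ) (F.se τ hτ)).continuous
  have key := hasDerivAt_integral_of_dominated_loc_of_deriv_le (μ := volume) (x₀ := t) (s := J)
    (F := fun τ y => ε τ y * φ y)
    (F' := fun τ y => zeta k (b τ) (m τ) (lam τ) (ε τ) (e τ) y / (lam τ) ^ 3 * φ y)
    (bound := fun y => Z * bd (θ / 2) (θ / 2) y * C) hJ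
    (Filter.eventually_of_mem hJ hmeas)
    (Integrable.mono' (g := fun y => D * bd (θ / 2) (θ / 2) y * C)
      ((hbi.const_mul D).mul_const C) (hmeas t ht) (Eventually.of_forall fun y => by
        rw [Real.norm_eq_abs, abs_mul]
        exact mul_le_mul (hD t ht y).1 (hC y) (abs_nonneg _)
          (mul_nonneg hD0 (bd_pos _ _ y).le)))
    ((((hzc t ht).div_const _).mul hφ).aestronglyMeasurable)
    (Eventually.of_forall fun y τ hτ => by
      rw [Real.norm_eq_abs, abs_mul]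
      exact mul_le_mul (hZ τ hτ y) (hC y) (abs_nonneg _) (mul_nonneg hZ0 (bd_pos _ _ y).le))
    ((hbi.const_mul Z).mul_const C)
    (Eventually.of_forall fun y τ hτ => by
      have h := (F.ev 0 τ hτ y).mul_const (φ y)
      simp only [iteratedDeriv_zero] at h
      exact h)
  have h2 := key.2
  have e1 : (∫ y, zeta k (b t) (m t) (lam t) (ε t) (e t) y / (lam t) ^ 3 * φ y) =
      ip (zeta k (b t) (m t) (lam t) (ε t) (e t)) φ / (lam t) ^ 3 := by
    unfold ip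
    rw [← integral_div]
    congr 1
    funext y
    ring
  rw [e1] at h2
  exact h2

theorem der_X {k : ℕ} {R θ : ℝ} {J : Set ℝ} {lam b m : ℝ → ℝ} {ε e : ℝ → ℝ → ℝ}
    (hk : 1 ≤ k) (F : Flow k R θ J lam b m ε e) {t : ℝ} (ht : t ∈ J) :
    HasDerivAt (fun τ => Xn (ε τ))
      (2 * ip (deriv (ε t)) (deriv (zeta k (b t) (m t) (lam t) (ε t) (e t))) / (lam t) ^ 3) t := by
  have hJ : J ∈ 𝓝 t := F.op.mem_nhds ht
  obtain ⟨Z, hZ0, hZ⟩ := deri_z hk F 1
  obtain ⟨D, hD0, hD⟩ := deri_e F 1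
  simp only [iteratedDeriv_one] at hZ hD
  have hθ := F.θ0
  have hbi : Integrable (bd (θ / 2) (θ / 2)) := bd_int (by linarith) (by linarith)
  have hdc : ∀ τ ∈ J, Continuous (deriv (ε τ)) := fun τ hτ => (F.sm τ hτ).continuous_deriv
    (by simp)
  have hmeas : ∀ τ ∈ J, AEStronglyMeasurable (fun y => (deriv (ε τ) y) ^ 2) volume :=
    fun τ hτ => ((hdc τ hτ).pow 2).aestronglyMeasurable
  have hzc : ∀ τ ∈ J, Continuous (deriv (zeta k (b τ) (m τ) (lam τ) (ε τ) (e τ))) :=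
    fun τ hτ => (zeta_smooth hk (b τ) (m τ) (lam τ) (F.sm τ hτ) (F.se τ hτ)).continuous_deriv
      (by simp)
  have key := hasDerivAt_integral_of_dominated_loc_of_deriv_le (μ := volume) (x₀ := t) (s := J)
    (F := fun τ y => (deriv (ε τ) y) ^ 2)
    (F' := fun τ y => 2 * deriv (ε τ) y *
      (deriv (zeta k (b τ) (m τ) (lam τ) (ε τ) (e τ)) y / (lam τ) ^ 3))
    (bound := fun y => 2 * D * (Z * bd (θ / 2) (θ / 2) y)) hJ
    (Filter.eventually_of_mem hJ hmeas)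
    (Integrable.mono' (g := fun y => D * (D * bd (θ / 2) (θ / 2) y))
      ((hbi.const_mul D).const_mul D) (hmeas t ht) (Eventually.of_forall fun y => by
        rw [Real.norm_eq_abs, abs_pow, sq]
        exact mul_le_mul (hD t ht y).2 (hD t ht y).1 (abs_nonneg _) hD0))
    ((((hdc t ht).const_mul 2).mul ((hzc t ht).div_const _)).aestronglyMeasurable)
    (Eventually.of_forall fun y τ hτ => by
      rw [Real.norm_eq_abs, abs_mul, abs_mul, abs_two]
      exact mul_le_mul (mul_le_mul_of_nonneg_left (hD τ hτ y).2 (by norm_num))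
        (hZ τ hτ y) (abs_nonneg _) (by positivity))
    ((hbi.const_mul Z).const_mul (2 * D))
    (Eventually.of_forall fun y τ hτ => by
      have h := (F.ev 1 τ hτ y).pow 2
      simp only [iteratedDeriv_one] at h
      refine h.congr_deriv ?_
      norm_num)
  have h2 := key.2
  have e1 : (∫ y, 2 * deriv (ε t) y *
      (deriv (zeta k (b t) (m t) (lam t) (ε t) (e t)) y / (lam t) ^ 3)) =
      2 * ip (deriv (ε t)) (deriv (zeta k (b t) (m t) (lam t) (ε t) (e t))) / (lam t) ^ 3 := by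
    unfold ip
    rw [← integral_const_mul, ← integral_div]
    congr 1
    funext y
    ring
  rw [e1] at h2
  exact h2

end H72KB

end S_H72_KB_DerI
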