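import Mathlib
import Pool.Agent.H98.BU.G01

/-! Blow-up for `u_t + u^k u_x + u_xxx - u_xx = 0`, part G20: this file joins several modules
to save build time (`Pool/Agent/H98/{KB,KC}`, `H72/{KB,KC}`, `H68/KC`, `H37/{KB,KC}`). -/

section S_H72_KB_ClC

/-!
# Row ClC: integration facts for the classes `Cl p q`

* `Cl_int`: continuous, bounded by `C bd p q` which is integrable (`bd_int`).
* `Cl_ibp`: `integral_mul_deriv_eq_deriv_mul_of_integrable`-type lemma (all products have class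
  `Cl (p+p') (q+q')` by `Cl_mul`, `Cl_deriv`) .
* `Cl_sup`: `f(y)^2 = 2 ∫_{-∞}^y f f'` (`Cl_tendsto`, `integral_Iic_of_hasDerivAt_of_tendsto`), so
  `|f y|^2 ≤ 2 ∫ |f||f'| ≤ 2 (∫ f²)^{1/2} (∫ f'²)^{1/2}` (Cauchy-Schwarz, e.g. from
  `0 ≤ ∫ (s|f| - |f'|)²` for all `s`, discriminant), then square.
-/

open MeasureTheory Filter Topology Set
open scoped ContDiff

namespace H72KB

open H98KB

theorem ClC_abs {p q : ℝ} {f : ℝ → ℝ} (hf : Cl p q f) :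
    ∃ C : ℝ, 0 ≤ C ∧ ∀ y, |f y| ≤ C * bd p q y := by
  obtain ⟨C, hC⟩ := hf.2 0
  refine ⟨|C|, abs_nonneg C, fun y => ?_⟩
  have h1 := hC y
  rw [iteratedDeriv_zero] at h1
  exact h1.trans (mul_le_mul_of_nonneg_right (le_abs_self C) (bd_pos p q y).le)

theorem Cl_bdd {p q : ℝ} {f : ℝ → ℝ} (hp : 0 ≤ p) (hq : 0 ≤ q) (hf : Cl p q f) :
    ∃ C : ℝ, ∀ y, |f y| ≤ C := by
  obtain ⟨C, hC0, hC⟩ := ClC_abs hf
  refine ⟨C, fun y => (hC y).trans ?_⟩
  have h := mul_le_mul_of_nonneg_left (bd_le_one hp hq y) hC0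
  simpa using h

theorem Cl_int {p q : ℝ} {f : ℝ → ℝ} (hp : 0 < p) (hq : 0 < q) (hf : Cl p q f) :
    Integrable f := by
  obtain ⟨C, hC0, hC⟩ := ClC_abs hf
  refine Integrable.mono' ((bd_int hp hq).const_mul C) hf.1.continuous.aestronglyMeasurable
    (Eventually.of_forall fun y => ?_)
  rw [Real.norm_eq_abs]
  exact hC y

/-- integrability of a product with a bounded continuous function -/
theorem Cl_int_mul {p q : ℝ} {f g : ℝ → ℝ} (hp : 0 < p) (hq : 0 < q) (hf : Cl p q f)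
    (hg : Continuous g) (C : ℝ) (hC : ∀ y, |g y| ≤ C) : Integrable (fun y => f y * g y) := by
  obtain ⟨D, hD0, hD⟩ := ClC_abs hf
  refine Integrable.mono' (((bd_int hp hq).const_mul D).mul_const C)
    (hf.1.continuous.mul hg).aestronglyMeasurable (Eventually.of_forall fun y => ?_)
  rw [Real.norm_eq_abs, abs_mul]
  exact mul_le_mul (hD y) (hC y) (abs_nonneg _) (mul_nonneg hD0 (bd_pos p q y).le)

theorem Cl_tendsto {p q : ℝ} {f : ℝ → ℝ} (hp : 0 < p) (hq : 0 < q) (hf : Cl p q f) :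
    Tendsto f atTop (𝓝 0) ∧ Tendsto f atBot (𝓝 0) := by
  obtain ⟨C, hC0, hC⟩ := ClC_abs hf
  have hm : 0 < min p q := lt_min hp hq
  have hb : ∀ y, |f y| ≤ C * Real.exp (-(min p q) * |y|) := fun y =>
    (hC y).trans (mul_le_mul_of_nonneg_left (bd_le_exp y) hC0)
  have key : ∀ l : Filter ℝ, Tendsto (fun y : ℝ => |y|) l atTop → Tendsto f l (𝓝 0) := by
    intro l hl
    have h1 : Tendsto (fun y : ℝ => -(min p q) * |y|) l atBot :=
      hl.const_mul_atTop_of_neg (by linarith)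
    have h2 : Tendsto (fun y : ℝ => C * Real.exp (-(min p q) * |y|)) l (𝓝 0) := by
      have h3 := (Real.tendsto_exp_atBot.comp h1).const_mul C
      simpa using h3
    exact squeeze_zero_norm (fun y => by rw [Real.norm_eq_abs]; exact hb y) h2
  exact ⟨key _ tendsto_abs_atTop_atTop, key _ tendsto_abs_atBot_atTop⟩

/-- integration by parts: `∫ f' g = - ∫ f g'` -/
theorem Cl_ibp {p q p' q' : ℝ} {f g : ℝ → ℝ} (hp : 0 < p + p') (hq : 0 < q + q') (hf : Cl p q f)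
    (hg : Cl p' q' g) : ∫ y, deriv f y * g y = -∫ y, f y * deriv g y := by
  have hfd : ∀ x, HasDerivAt f (deriv f x) x := fun x =>
    ((hf.1.differentiable (by simp)) x).hasDerivAt
  have hgd : ∀ x, HasDerivAt g (deriv g x) x := fun x =>
    ((hg.1.differentiable (by simp)) x).hasDerivAt
  have h1 : Integrable (fun y => f y * deriv g y) := Cl_int hp hq (Cl_mul hf (Cl_deriv hg))
  have h2 : Integrable (fun y => deriv f y * g y) := Cl_int hp hq (Cl_mul (Cl_deriv hf) hg)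
  have h3 : Integrable (fun y => f y * g y) := Cl_int hp hq (Cl_mul hf hg)
  have h := integral_mul_deriv_eq_deriv_mul_of_integrable (fun x _ => hfd x) (fun x _ => hgd x)
    h1 h2 h3
  rw [h, neg_neg]

/-- `f(y)^4 ≤ 4 (∫ f²)(∫ f'²)` -/
theorem Cl_sup {p q : ℝ} {f : ℝ → ℝ} (hp : 0 < p) (hq : 0 < q) (hf : Cl p q f) (y : ℝ) :
    |f y| ^ 4 ≤ 4 * (∫ z, (f z) ^ 2) * ∫ z, (deriv f z) ^ 2 := by
  have hd := Cl_deriv hf
  have hpp : 0 < p + p := by linarith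
  have hqq : 0 < q + q := by linarith
  have hfd : ∀ x, HasDerivAt f (deriv f x) x := fun x =>
    ((hf.1.differentiable (by simp)) x).hasDerivAt
  have h1 : Integrable (fun z => f z * deriv f z) := Cl_int hpp hqq (Cl_mul hf hd)
  have h2 : Integrable (fun z => f z ^ 2) := by
    have h := Cl_int hpp hqq (Cl_mul hf hf)
    refine h.congr (Eventually.of_forall fun z => ?_)
    simp only [pow_two]
  have h3 : Integrable (fun z => deriv f z ^ 2) := by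
    have h := Cl_int hpp hqq (Cl_mul hd hd)
    refine h.congr (Eventually.of_forall fun z => ?_)
    simp only [pow_two]
  have h4 : Integrable (fun z => |f z| * |deriv f z|) := by
    have h := h1.abs
    refine h.congr (Eventually.of_forall fun z => ?_)
    simp only [abs_mul]
  -- the fundamental theorem of calculus
  have h5 : ∫ z in Iic y, 2 * (f z * deriv f z) = f y ^ 2 - 0 := by
    refine integral_Iic_of_hasDerivAt_of_tendsto' (f := fun z => f z ^ 2) (fun x _ => ?_)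
      (h1.const_mul 2).integrableOn ?_
    · have h := (hfd x).pow 2
      refine h.congr_deriv ?_
      push_cast
      ring
    · have h := (Cl_tendsto hp hq hf).2.pow 2
      simpa using h
  have h6 : f y ^ 2 ≤ 2 * ∫ z, |f z| * |deriv f z| := by
    have h7 : f y ^ 2 = ∫ z in Iic y, 2 * (f z * deriv f z) := by rw [h5, sub_zero]
    have h8 : ∫ z in Iic y, 2 * (f z * deriv f z) ≤ ∫ z in Iic y, 2 * (|f z| * |deriv f z|) := by
      refine integral_mono (h1.const_mul 2).integrableOn (h4.const_mul 2).integrableOn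
        (fun z => ?_)
      have h9 : f z * deriv f z ≤ |f z| * |deriv f z| := by
        rw [← abs_mul]
        exact le_abs_self _
      simpa using h9
    have h9 : ∫ z in Iic y, 2 * (|f z| * |deriv f z|) ≤ ∫ z, 2 * (|f z| * |deriv f z|) :=
      setIntegral_le_integral (h4.const_mul 2)
        (Eventually.of_forall fun z => by positivity)
    have h10 : ∫ z, 2 * (|f z| * |deriv f z|) = 2 * ∫ z, |f z| * |deriv f z| :=
      integral_const_mul _ _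
    rw [h10] at h9
    rw [h7]
    exact h8.trans h9
  -- Cauchy-Schwarz
  have h10 : (∫ z, |f z| * |deriv f z|) ^ 2 ≤ (∫ z, f z ^ 2) * ∫ z, deriv f z ^ 2 := by
    have h11 : ∀ s : ℝ, 0 ≤ (∫ z, f z ^ 2) * (s * s) + (-(2 * ∫ z, |f z| * |deriv f z|)) * s +
        ∫ z, deriv f z ^ 2 := by
      intro s
      have h12 : 0 ≤ ∫ z, (s * |f z| - |deriv f z|) ^ 2 :=
        integral_nonneg fun z => sq_nonneg _
      have h13 : ∀ z, (s * |f z| - |deriv f z|) ^ 2 =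
          s ^ 2 * f z ^ 2 - 2 * s * (|f z| * |deriv f z|) + deriv f z ^ 2 := by
        intro z
        have e1 := sq_abs (f z)
        have e2 := sq_abs (deriv f z)
        linear_combination s ^ 2 * e1 + e2
      have h14 : ∫ z, (s * |f z| - |deriv f z|) ^ 2 =
          s ^ 2 * (∫ z, f z ^ 2) - 2 * s * (∫ z, |f z| * |deriv f z|) + ∫ z, deriv f z ^ 2 := by
        have e1 : Integrable (fun z => s ^ 2 * f z ^ 2) := h2.const_mul _
        have e2 : Integrable (fun z => 2 * s * (|f z| * |deriv f z|)) := h4.const_mul _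
        have e3 : Integrable (fun z => s ^ 2 * f z ^ 2 - 2 * s * (|f z| * |deriv f z|)) :=
          e1.sub e2
        rw [integral_congr_ae (Eventually.of_forall h13), integral_add e3 h3,
          integral_sub e1 e2, integral_const_mul, integral_const_mul]
      rw [h14] at h12
      nlinarith [h12]
    have h15 := discrim_le_zero h11
    unfold discrim at h15
    nlinarith [h15]
  have h16 : 0 ≤ f y ^ 2 := sq_nonneg _
  have h17 : (f y ^ 2) ^ 2 ≤ (2 * ∫ z, |f z| * |deriv f z|) ^ 2 := pow_le_pow_left₀ h16 h6 2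
  have h18 : |f y| ^ 4 = (f y ^ 2) ^ 2 := by
    rw [← sq_abs (f y)]
    ring
  rw [h18]
  calc (f y ^ 2) ^ 2 ≤ (2 * ∫ z, |f z| * |deriv f z|) ^ 2 := h17
    _ = 4 * (∫ z, |f z| * |deriv f z|) ^ 2 := by ring
    _ ≤ 4 * ((∫ z, f z ^ 2) * ∫ z, deriv f z ^ 2) := by linarith
    _ = 4 * (∫ z, (f z) ^ 2) * ∫ z, (deriv f z) ^ 2 := by ring

end H72KB

end S_H72_KB_ClC

section S_H72_KC_Bas

/-!
# Case k = 4 of MP_95be7d, ODE part: definitions

The modulation system for `(λ, x)` uses the test functions `φ` (of class `Cl 1 1`) and `Q'`; everything is for a single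
approximate solution `U, e` on `[0,T]` (structure `App`).  Owner helper72.
-/

open MeasureTheory Filter Topology Set
open scoped ContDiff

noncomputable section

namespace H72KC

open H98KB H72KB

/-- determinant of the modulation system with test functions `φ`, `Q'` -/
def Dt (k : ℕ) (φ W : ℝ → ℝ) : ℝ :=
  IA k W φ * IB W (deriv (Qf k)) - IA k W (deriv (Qf k)) * IB W φ

/-- the parameter `w = -λ_s/λ` (with clipped determinant) -/
def wfn (k : ℕ) (φ : ℝ → ℝ) (d l : ℝ) (W E : ℝ → ℝ) : ℝ :=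
  (I1 k l W E φ * IB W (deriv (Qf k)) - I1 k l W E (deriv (Qf k)) * IB W φ)
    / max (Dt k φ W) d

/-- the parameter `m` (with clipped determinant) -/
def nfn (k : ℕ) (φ : ℝ → ℝ) (d l : ℝ) (W E : ℝ → ℝ) : ℝ :=
  (IA k W φ * I1 k l W E (deriv (Qf k)) - IA k W (deriv (Qf k)) * I1 k l W E φ)
    / max (Dt k φ W) d

/-- clipped vector field for `(λ, x)` -/
def VG (k : ℕ) (φ : ℝ → ℝ) (d lo hi X₀ : ℝ) (U e : ℝ → ℝ → ℝ) (t : ℝ) (P : ℝ × ℝ) : ℝ × ℝ :=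
  (-(wfn k φ d (clp lo hi P.1) (Wf k (U t) (clp lo hi P.1) (clp (-X₀) X₀ P.2))
        (ef k (e t) (clp lo hi P.1) (clp (-X₀) X₀ P.2))) / (clp lo hi P.1) ^ 2,
    (1 + nfn k φ d (clp lo hi P.1) (Wf k (U t) (clp lo hi P.1) (clp (-X₀) X₀ P.2))
        (ef k (e t) (clp lo hi P.1) (clp (-X₀) X₀ P.2))) / (clp lo hi P.1) ^ 2)

/-- the trajectory `P t = (λ(t), x(t))` -/
structure Tr (k : ℕ) (φ : ℝ → ℝ) (d T l₀ lo hi X₀ : ℝ) (U e : ℝ → ℝ → ℝ) (P : ℝ → ℝ × ℝ) :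
    Prop where
  init : P 0 = (l₀, 0)
  cont : ContinuousOn P (Icc 0 T)
  ode : ∀ t ∈ Ioo 0 T, HasDerivAt P (VG k φ d lo hi X₀ U e t (P t)) t

/-- clipped `λ` along the trajectory -/
def lt (lo hi : ℝ) (P : ℝ → ℝ × ℝ) (t : ℝ) : ℝ := clp lo hi (P t).1

/-- clipped `x` along the trajectory -/
def xt (X₀ : ℝ) (P : ℝ → ℝ × ℝ) (t : ℝ) : ℝ := clp (-X₀) X₀ (P t).2

/-- rescaled solution along the trajectory -/
def Wt (k : ℕ) (lo hi X₀ : ℝ) (U : ℝ → ℝ → ℝ) (P : ℝ → ℝ × ℝ) (t : ℝ) : ℝ → ℝ :=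
  Wf k (U t) (lt lo hi P t) (xt X₀ P t)

/-- `W - Q` along the trajectory -/
def et (k : ℕ) (lo hi X₀ : ℝ) (U : ℝ → ℝ → ℝ) (P : ℝ → ℝ × ℝ) (t : ℝ) : ℝ → ℝ :=
  epf k (U t) (lt lo hi P t) (xt X₀ P t)

/-- rescaled forcing along the trajectory -/
def ft (k : ℕ) (lo hi X₀ : ℝ) (e : ℝ → ℝ → ℝ) (P : ℝ → ℝ × ℝ) (t : ℝ) : ℝ → ℝ :=
  ef k (e t) (lt lo hi P t) (xt X₀ P t)

/-- `w` along the trajectory -/
def wt' (k : ℕ) (φ : ℝ → ℝ) (d lo hi X₀ : ℝ) (U e : ℝ → ℝ → ℝ) (P : ℝ → ℝ × ℝ) (t : ℝ) : ℝ :=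
  wfn k φ d (lt lo hi P t) (Wt k lo hi X₀ U P t) (ft k lo hi X₀ e P t)

/-- `m` along the trajectory -/
def mt' (k : ℕ) (φ : ℝ → ℝ) (d lo hi X₀ : ℝ) (U e : ℝ → ℝ → ℝ) (P : ℝ → ℝ × ℝ) (t : ℝ) : ℝ :=
  nfn k φ d (lt lo hi P t) (Wt k lo hi X₀ U P t) (ft k lo hi X₀ e P t)

end H72KC

end

end S_H72_KC_Bas

section S_H72_KB_PLip

/-!
# Row PLip: `bfn`, `mfn` are bounded and Lipschitz

Proof.  Let `φ ∈ {Q, Q'}`; `Q, Q'` and all derivatives are of class `Cl 1 1` (`Q_cl`, `Cl_deriv`), so every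
weight occurring in `I1, IA, IB` (that is `φ''' - φ' + l φ''`, `φ'`, `(2/k-1)φ - yφ'`, `|l| ≤ 1`) is continuous and
bounded by `C bd (1/2) (1/2) y` (`bd_poly`), and `∫ (1+|y|) C bd (1/2) (1/2) < ∞` (`bd_poly`, `bd_int`).
Moreover `|fl k u| ≤ C`, `|fl k u - fl k u'| ≤ C |u-u'|` for `|u|,|u'| ≤ C₀` (`fl` = polynomial; e.g.
`abs_pow_sub_pow`-type bound or `Convex.norm_image_sub_le...`).
Hence `|I1|, |IA|, |IB| ≤ C` and `|I1(l,W,E,φ) - I1(l',W',E',φ)| ≤ C d`, same for `IA`, `IB` (all integrands are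
integrable: continuous times bounded by integrable; `abs_integral_le_integral_abs`, `integral_mono`).
Products and sums of bounded `Cd`-close quantities are `Cd`-close; `max (Det) (d0) ≥ d0 > 0` (`d0 k > 0` by
`sc_pos`, `Qsq_pos`, `Q'sq_pos`), `|max x c - max x' c| ≤ |x-x'|`, and
`|N/D - N'/D'| ≤ |N-N'|/D + |N'||D-D'|/(D D')`.
-/

open MeasureTheory Filter Topology Set
open scoped ContDiff

namespace H72KB

open H98KB

private theorem plip_pw {f : ℝ → ℝ} (hf : Cl 1 1 f) : ∃ B : ℝ, 0 ≤ B ∧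
    ∀ y, |f y| ≤ B * bd (1 / 2) (1 / 2) y ∧ (1 + |y|) * |f y| ≤ B * bd (1 / 2) (1 / 2) y ∧
      (1 + |y|) * (|y| * |f y|) ≤ B * bd (1 / 2) (1 / 2) y := by
  obtain ⟨C, hC0, hC⟩ := ClC_abs hf
  obtain ⟨D, hD0, hD⟩ := bd_poly 2 (p := 1) (p' := 1 / 2) (q := 1) (q' := 1 / 2) (by norm_num)
    (by norm_num)
  refine ⟨C * D, by positivity, fun y => ?_⟩
  have h0 : 0 ≤ |y| := abs_nonneg y
  have hf0 : 0 ≤ |f y| := abs_nonneg _
  have h1 : (1 + |y|) ^ 2 * |f y| ≤ C * D * bd (1 / 2) (1 / 2) y := by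
    calc (1 + |y|) ^ 2 * |f y| ≤ (1 + |y|) ^ 2 * (C * bd 1 1 y) :=
          mul_le_mul_of_nonneg_left (hC y) (by positivity)
      _ = C * ((1 + |y|) ^ 2 * bd 1 1 y) := by ring
      _ ≤ C * (D * bd (1 / 2) (1 / 2) y) := mul_le_mul_of_nonneg_left (hD y) hC0
      _ = C * D * bd (1 / 2) (1 / 2) y := by ring
  have hy1 : 0 ≤ |y| * |f y| := by positivity
  have hy2 : 0 ≤ |y| * (|y| * |f y|) := by positivity
  refine ⟨?_, ?_, ?_⟩ <;> nlinarith

private theorem plip_int {F : ℝ → ℝ} (hc : Continuous F) {K : ℝ}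
    (h : ∀ y, |F y| ≤ K * bd (1 / 2) (1 / 2) y) :
    Integrable F ∧ |∫ y, F y| ≤ K * ∫ y, bd (1 / 2) (1 / 2) y := by
  have hi : Integrable (fun y => K * bd (1 / 2) (1 / 2) y) :=
    (bd_int (by norm_num) (by norm_num)).const_mul K
  have h1 : Integrable F := hi.mono' hc.aestronglyMeasurable (Eventually.of_forall fun y => by
    rw [Real.norm_eq_abs]
    exact h y)
  refine ⟨h1, ?_⟩
  rw [← integral_const_mul]
  exact (abs_integral_le_integral_abs).trans (integral_mono h1.abs hi h)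

private theorem plip_fl (k : ℕ) {C₀ : ℝ} (h0 : 0 ≤ C₀) : ∃ F : ℝ, 0 ≤ F ∧
    ∀ u v : ℝ, |u| ≤ C₀ → |v| ≤ C₀ → |fl k u| ≤ F ∧ |fl k u - fl k v| ≤ F * |u - v| := by
  have hk : (0 : ℝ) < (k : ℝ) + 1 := by positivity
  refine ⟨C₀ ^ (k + 1) / ((k : ℝ) + 1) + C₀ ^ k, by positivity, fun u v hu hv => ⟨?_, ?_⟩⟩
  · unfold fl
    rw [abs_div, abs_pow, abs_of_pos hk]
    have h1 : |u| ^ (k + 1) ≤ C₀ ^ (k + 1) := pow_le_pow_left₀ (abs_nonneg u) hu _
    have h2 := div_le_div_of_nonneg_right h1 hk.le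
    have h3 : 0 ≤ C₀ ^ k := by positivity
    linarith
  · unfold fl
    rw [← sub_div, abs_div, abs_of_pos hk, div_le_iff₀ hk]
    have h1 := abs_pow_sub_pow_le u v (k + 1)
    have h2 : max |u| |v| ^ (k + 1 - 1) ≤ C₀ ^ k := by
      rw [Nat.add_sub_cancel]
      exact pow_le_pow_left₀ (le_max_of_le_left (abs_nonneg u)) (max_le hu hv) _
    have h4 : 0 ≤ |u - v| := abs_nonneg _
    have h5 : 0 ≤ C₀ ^ (k + 1) := by positivity
    have h6 : |u - v| * ((k + 1 : ℕ) : ℝ) * max |u| |v| ^ (k + 1 - 1) ≤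
        |u - v| * ((k + 1 : ℕ) : ℝ) * C₀ ^ k :=
      mul_le_mul_of_nonneg_left h2 (by positivity)
    push_cast at h1 h6
    have e : (C₀ ^ (k + 1) / ((k : ℝ) + 1) + C₀ ^ k) * |u - v| * ((k : ℝ) + 1) =
        C₀ ^ (k + 1) * |u - v| + |u - v| * ((k : ℝ) + 1) * C₀ ^ k := by
      field_simp
    rw [e]
    have h7 : 0 ≤ C₀ ^ (k + 1) * |u - v| := by positivity
    linarith

/-- bounds for the three basic functionals -/
private theorem plip_fun {k : ℕ} (hk : 5 ≤ k) {C₀ : ℝ} (h0 : 0 ≤ C₀) {φ : ℝ → ℝ} (hφ : Cl 1 1 φ) :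
    ∃ A : ℝ, 0 ≤ A ∧
    ∀ (l l' : ℝ) (W W' E E' : ℝ → ℝ) (d : ℝ), 0 ≤ l → l ≤ 1 → 0 ≤ l' → l' ≤ 1 → 0 ≤ d →
      |l - l'| ≤ d → Continuous W → Continuous W' → Continuous E → Continuous E' →
      (∀ y, |W y| ≤ C₀) → (∀ y, |W' y| ≤ C₀) → (∀ y, |E y| ≤ C₀) → (∀ y, |E' y| ≤ C₀) →
      (∀ y, |W y - W' y| ≤ d * (1 + |y|)) → (∀ y, |E y - E' y| ≤ d * (1 + |y|)) →
      (|I1 k l W E φ| ≤ A ∧ |I1 k l W E φ - I1 k l' W' E' φ| ≤ A * d) ∧
      (|IA k W φ| ≤ A ∧ |IA k W φ - IA k W' φ| ≤ A * d) ∧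
      (|IB W φ| ≤ A ∧ |IB W φ - IB W' φ| ≤ A * d) := by
  have h5 : (5 : ℝ) ≤ (k : ℝ) := by exact_mod_cast hk
  have hk2 : |2 / (k : ℝ) - 1| ≤ 1 := by
    have h1 : 2 / (k : ℝ) ≤ 2 / 5 := div_le_div_of_nonneg_left (by norm_num) (by norm_num) h5
    have h2 : 0 < 2 / (k : ℝ) := by positivity
    rw [abs_le]
    constructor <;> linarith
  obtain ⟨F, hF0, hF⟩ := plip_fl k h0
  obtain ⟨B0, hB0, hb0⟩ := plip_pw hφ
  obtain ⟨B1, hB1, hb1⟩ := plip_pw (Cl_deriv hφ)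
  obtain ⟨B2, hB2, hb2⟩ := plip_pw (Cl_iter hφ 2)
  obtain ⟨B3, hB3, hb3⟩ := plip_pw (Cl_iter hφ 3)
  have c0 : Continuous φ := hφ.1.continuous
  have c1 : Continuous (deriv φ) := (Cl_deriv hφ).1.continuous
  have c2 : Continuous (iteratedDeriv 2 φ) := (Cl_iter hφ 2).1.continuous
  have c3 : Continuous (iteratedDeriv 3 φ) := (Cl_iter hφ 3).1.continuous
  have hJ : 0 ≤ ∫ y, bd (1 / 2) (1 / 2) y := integral_nonneg fun y => (bd_pos _ _ y).le
  set J := ∫ y, bd (1 / 2) (1 / 2) y with hJdef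
  set B := B0 + B1 + B2 + B3 with hBdef
  have hB : 0 ≤ B := by positivity
  -- pointwise bounds with the common constant
  have hw : ∀ y, 0 < bd (1 / 2) (1 / 2) y := fun y => bd_pos _ _ y
  have up : ∀ (X y : ℝ), X ≤ B → X * bd (1 / 2) (1 / 2) y ≤ B * bd (1 / 2) (1 / 2) y :=
    fun X y h => mul_le_mul_of_nonneg_right h (hw y).le
  have l0 : B0 ≤ B := by rw [hBdef]; linarith
  have l1 : B1 ≤ B := by rw [hBdef]; linarith
  have l2 : B2 ≤ B := by rw [hBdef]; linarith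
  have l3 : B3 ≤ B := by rw [hBdef]; linarith
  set T := (10 + 10 * C₀ + 2 * F) * B with hTdef
  have hT : 0 ≤ T := by positivity
  refine ⟨T * J, by positivity, ?_⟩
  intro l l' W W' E E' d hl hl1 hl' hl1' hd hld cW cW' cE cE' bW bW' bE bE' dW dE
  have cfl : Continuous (fl k) := by unfold fl; fun_prop
  -- products of a bounded and a decaying function
  have key : ∀ (a g X Y : ℝ), |a| ≤ X → |g| ≤ Y → |a * g| ≤ X * Y := by
    intro a g X Y h1 h2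
    rw [abs_mul]
    exact mul_le_mul h1 h2 (abs_nonneg _) ((abs_nonneg _).trans h1)
  have key2 : ∀ (a g y Z : ℝ), |a| ≤ d * (1 + |y|) → (1 + |y|) * |g| ≤ Z → |a * g| ≤ d * Z := by
    intro a g y Z h1 h2
    rw [abs_mul]
    calc |a| * |g| ≤ d * (1 + |y|) * |g| := mul_le_mul_of_nonneg_right h1 (abs_nonneg _)
      _ = d * ((1 + |y|) * |g|) := by ring
      _ ≤ d * Z := mul_le_mul_of_nonneg_left h2 hd
  -- bound of `I1`
  have hI : ∀ (l : ℝ) (W E : ℝ → ℝ), 0 ≤ l → l ≤ 1 → Continuous W → Continuous E →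
      (∀ y, |W y| ≤ C₀) → (∀ y, |E y| ≤ C₀) →
      Integrable (fun y => W y * (iteratedDeriv 3 φ y - deriv φ y + l * iteratedDeriv 2 φ y)
        + fl k (W y) * deriv φ y + E y * deriv φ y) ∧ |I1 k l W E φ| ≤ T * J := by
    intro l W E hl hl1 cW cE bW bE
    refine plip_int (by fun_prop) fun y => ?_
    have e0 := (hb0 y).1.trans (up B0 y l0)
    have e1 := (hb1 y).1.trans (up B1 y l1)
    have e2 := (hb2 y).1.trans (up B2 y l2)
    have e3 := (hb3 y).1.trans (up B3 y l3)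
    have a1 := key _ _ _ _ (bW y) e3
    have a2 := key _ _ _ _ (bW y) e1
    have a3 := key _ _ _ _ (bW y) e2
    have a4 := key _ _ _ _ (hF _ _ (bW y) (bW y)).1 e1
    have a5 := key _ _ _ _ (bE y) e1
    have a3' : |l * (W y * iteratedDeriv 2 φ y)| ≤ C₀ * (B * bd (1 / 2) (1 / 2) y) := by
      rw [abs_mul, abs_of_nonneg hl]
      calc l * |W y * iteratedDeriv 2 φ y| ≤ 1 * |W y * iteratedDeriv 2 φ y| :=
            mul_le_mul_of_nonneg_right hl1 (abs_nonneg _)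
        _ = |W y * iteratedDeriv 2 φ y| := one_mul _
        _ ≤ _ := a3
    have e : W y * (iteratedDeriv 3 φ y - deriv φ y + l * iteratedDeriv 2 φ y)
        + fl k (W y) * deriv φ y + E y * deriv φ y = W y * iteratedDeriv 3 φ y
        - W y * deriv φ y + l * (W y * iteratedDeriv 2 φ y) + fl k (W y) * deriv φ y
        + E y * deriv φ y := by ring
    rw [e]
    have hbb : 0 ≤ B * bd (1 / 2) (1 / 2) y := mul_nonneg hB (hw y).le
    have hcb : 0 ≤ C₀ * (B * bd (1 / 2) (1 / 2) y) := mul_nonneg h0 hbb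
    have hfb : 0 ≤ F * (B * bd (1 / 2) (1 / 2) y) := mul_nonneg hF0 hbb
    have eT : T * bd (1 / 2) (1 / 2) y = 10 * (B * bd (1 / 2) (1 / 2) y) +
        10 * (C₀ * (B * bd (1 / 2) (1 / 2) y)) + 2 * (F * (B * bd (1 / 2) (1 / 2) y)) := by
      rw [hTdef]; ring
    rw [eT]
    rw [abs_le] at a1 a2 a3' a4 a5 ⊢
    constructor <;> linarith [a1.1, a1.2, a2.1, a2.2, a3'.1, a3'.2, a4.1, a4.2, a5.1, a5.2]
  -- bound of `IA`
  have hA : ∀ (W : ℝ → ℝ), Continuous W → (∀ y, |W y| ≤ C₀) →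
      Integrable (fun y => W y * ((2 / (k : ℝ) - 1) * φ y - y * deriv φ y)) ∧
        |IA k W φ| ≤ T * J := by
    intro W cW bW
    refine plip_int (by fun_prop) fun y => ?_
    have e0 := (hb0 y).1.trans (up B0 y l0)
    have e1 := (hb1 y).2.1.trans (up B1 y l1)
    have a0 : |(2 / (k : ℝ) - 1) * φ y| ≤ 1 * (B * bd (1 / 2) (1 / 2) y) := key _ _ _ _ hk2 e0
    have a1 : |y * deriv φ y| ≤ B * bd (1 / 2) (1 / 2) y := by
      rw [abs_mul]
      have : 0 ≤ |deriv φ y| := abs_nonneg _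
      linarith
    have a2 : |(2 / (k : ℝ) - 1) * φ y - y * deriv φ y| ≤ 2 * (B * bd (1 / 2) (1 / 2) y) := by
      rw [abs_le] at a0 a1 ⊢
      constructor <;> linarith [a0.1, a0.2, a1.1, a1.2]
    have a3 := key _ _ _ _ (bW y) a2
    have hbb : 0 ≤ B * bd (1 / 2) (1 / 2) y := mul_nonneg hB (hw y).le
    have hcb : 0 ≤ C₀ * (B * bd (1 / 2) (1 / 2) y) := mul_nonneg h0 hbb
    have hfb : 0 ≤ F * (B * bd (1 / 2) (1 / 2) y) := mul_nonneg hF0 hbb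
    have eT : T * bd (1 / 2) (1 / 2) y = 10 * (B * bd (1 / 2) (1 / 2) y) +
        10 * (C₀ * (B * bd (1 / 2) (1 / 2) y)) + 2 * (F * (B * bd (1 / 2) (1 / 2) y)) := by
      rw [hTdef]; ring
    rw [eT]
    linarith
  have hBi : ∀ (W : ℝ → ℝ), Continuous W → (∀ y, |W y| ≤ C₀) →
      Integrable (fun y => W y * deriv φ y) ∧ |IB W φ| ≤ T * J := by
    intro W cW bW
    refine plip_int (by fun_prop) fun y => ?_
    have e1 := (hb1 y).1.trans (up B1 y l1)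
    have a3 := key _ _ _ _ (bW y) e1
    have hbb : 0 ≤ B * bd (1 / 2) (1 / 2) y := mul_nonneg hB (hw y).le
    have hcb : 0 ≤ C₀ * (B * bd (1 / 2) (1 / 2) y) := mul_nonneg h0 hbb
    have hfb : 0 ≤ F * (B * bd (1 / 2) (1 / 2) y) := mul_nonneg hF0 hbb
    have eT : T * bd (1 / 2) (1 / 2) y = 10 * (B * bd (1 / 2) (1 / 2) y) +
        10 * (C₀ * (B * bd (1 / 2) (1 / 2) y)) + 2 * (F * (B * bd (1 / 2) (1 / 2) y)) := by
      rw [hTdef]; ring
    rw [eT]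
    linarith
  obtain ⟨i1, n1⟩ := hI l W E hl hl1 cW cE bW bE
  obtain ⟨i2, n2⟩ := hI l' W' E' hl' hl1' cW' cE' bW' bE'
  obtain ⟨i3, n3⟩ := hA W cW bW
  obtain ⟨i4, n4⟩ := hA W' cW' bW'
  obtain ⟨i5, n5⟩ := hBi W cW bW
  obtain ⟨i6, n6⟩ := hBi W' cW' bW'
  have eT : ∀ y, T * d * bd (1 / 2) (1 / 2) y = 10 * (d * (B * bd (1 / 2) (1 / 2) y)) +
      10 * (C₀ * (d * (B * bd (1 / 2) (1 / 2) y))) +
      2 * (F * (d * (B * bd (1 / 2) (1 / 2) y))) := by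
    intro y
    rw [hTdef]; ring
  have hdb : ∀ y, 0 ≤ d * (B * bd (1 / 2) (1 / 2) y) := fun y =>
    mul_nonneg hd (mul_nonneg hB (hw y).le)
  refine ⟨⟨n1, ?_⟩, ⟨n3, ?_⟩, ⟨n5, ?_⟩⟩
  · unfold I1
    rw [← integral_sub i1 i2]
    have h := (plip_int (F := fun y => (W y * (iteratedDeriv 3 φ y - deriv φ y +
        l * iteratedDeriv 2 φ y) + fl k (W y) * deriv φ y + E y * deriv φ y) -
        (W' y * (iteratedDeriv 3 φ y - deriv φ y + l' * iteratedDeriv 2 φ y)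
        + fl k (W' y) * deriv φ y + E' y * deriv φ y)) (by fun_prop) (K := T * d) ?_).2
    · calc _ ≤ T * d * J := h
        _ = T * J * d := by ring
    intro y
    have e1 := (hb1 y).2.1.trans (up B1 y l1)
    have e2 := (hb2 y).2.1.trans (up B2 y l2)
    have e2' := (hb2 y).1.trans (up B2 y l2)
    have e3 := (hb3 y).2.1.trans (up B3 y l3)
    have a1 := key2 _ _ _ _ (dW y) e3
    have a2 := key2 _ _ _ _ (dW y) e1
    have a3 := key2 _ _ _ _ (dW y) e2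
    have a4 := key2 _ _ _ _ (dE y) e1
    have a3' : |l * ((W y - W' y) * iteratedDeriv 2 φ y)| ≤ d * (B * bd (1 / 2) (1 / 2) y) := by
      rw [abs_mul, abs_of_nonneg hl]
      calc l * |(W y - W' y) * iteratedDeriv 2 φ y| ≤ 1 * |(W y - W' y) * iteratedDeriv 2 φ y| :=
            mul_le_mul_of_nonneg_right hl1 (abs_nonneg _)
        _ = |(W y - W' y) * iteratedDeriv 2 φ y| := one_mul _
        _ ≤ _ := a3
    have a5 : |W' y * ((l - l') * iteratedDeriv 2 φ y)| ≤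
        C₀ * (d * (B * bd (1 / 2) (1 / 2) y)) := key _ _ _ _ (bW' y) (key _ _ _ _ hld e2')
    have a6 : |(fl k (W y) - fl k (W' y)) * deriv φ y| ≤
        F * (d * (B * bd (1 / 2) (1 / 2) y)) := by
      rw [abs_mul]
      calc |fl k (W y) - fl k (W' y)| * |deriv φ y|
          ≤ F * |W y - W' y| * |deriv φ y| :=
            mul_le_mul_of_nonneg_right (hF _ _ (bW y) (bW' y)).2 (abs_nonneg _)
        _ = F * |(W y - W' y) * deriv φ y| := by rw [abs_mul]; ring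
        _ ≤ F * (d * (B * bd (1 / 2) (1 / 2) y)) := mul_le_mul_of_nonneg_left a2 hF0
    have e : (W y * (iteratedDeriv 3 φ y - deriv φ y + l * iteratedDeriv 2 φ y)
        + fl k (W y) * deriv φ y + E y * deriv φ y) -
        (W' y * (iteratedDeriv 3 φ y - deriv φ y + l' * iteratedDeriv 2 φ y)
        + fl k (W' y) * deriv φ y + E' y * deriv φ y) =
        (W y - W' y) * iteratedDeriv 3 φ y - (W y - W' y) * deriv φ y +
        l * ((W y - W' y) * iteratedDeriv 2 φ y) + W' y * ((l - l') * iteratedDeriv 2 φ y) +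
        (fl k (W y) - fl k (W' y)) * deriv φ y + (E y - E' y) * deriv φ y := by ring
    show |_| ≤ _
    rw [e, eT]
    have hdb' := hdb y
    have hcb : 0 ≤ C₀ * (d * (B * bd (1 / 2) (1 / 2) y)) := mul_nonneg h0 hdb'
    have hfb : 0 ≤ F * (d * (B * bd (1 / 2) (1 / 2) y)) := mul_nonneg hF0 hdb'
    rw [abs_le] at a1 a2 a3' a4 a5 a6 ⊢
    constructor <;> linarith [a1.1, a1.2, a2.1, a2.2, a3'.1, a3'.2, a4.1, a4.2, a5.1, a5.2,
      a6.1, a6.2]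
  · unfold IA
    rw [← integral_sub i3 i4]
    have h := (plip_int (F := fun y => W y * ((2 / (k : ℝ) - 1) * φ y - y * deriv φ y) -
        W' y * ((2 / (k : ℝ) - 1) * φ y - y * deriv φ y)) (by fun_prop) (K := T * d) ?_).2
    · calc _ ≤ T * d * J := h
        _ = T * J * d := by ring
    intro y
    have e0 := (hb0 y).2.1.trans (up B0 y l0)
    have e1 := (hb1 y).2.2.trans (up B1 y l1)
    have a0 := key2 _ _ _ _ (dW y) e0
    have a1 : |(W y - W' y) * (y * deriv φ y)| ≤ d * (B * bd (1 / 2) (1 / 2) y) := by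
      refine key2 _ _ y _ (dW y) ?_
      rw [abs_mul]
      exact e1
    have a2 : |(2 / (k : ℝ) - 1) * ((W y - W' y) * φ y)| ≤
        1 * (d * (B * bd (1 / 2) (1 / 2) y)) := key _ _ _ _ hk2 a0
    have e : W y * ((2 / (k : ℝ) - 1) * φ y - y * deriv φ y) -
        W' y * ((2 / (k : ℝ) - 1) * φ y - y * deriv φ y) =
        (2 / (k : ℝ) - 1) * ((W y - W' y) * φ y) - (W y - W' y) * (y * deriv φ y) := by ring
    show |_| ≤ _
    rw [e, eT]
    have hdb' := hdb y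
    have hcb : 0 ≤ C₀ * (d * (B * bd (1 / 2) (1 / 2) y)) := mul_nonneg h0 hdb'
    have hfb : 0 ≤ F * (d * (B * bd (1 / 2) (1 / 2) y)) := mul_nonneg hF0 hdb'
    rw [abs_le] at a1 a2 ⊢
    constructor <;> linarith [a1.1, a1.2, a2.1, a2.2]
  · unfold IB
    rw [← integral_sub i5 i6]
    have h := (plip_int (F := fun y => W y * deriv φ y - W' y * deriv φ y) (by fun_prop)
      (K := T * d) ?_).2
    · calc _ ≤ T * d * J := h
        _ = T * J * d := by ring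
    intro y
    have e1 := (hb1 y).2.1.trans (up B1 y l1)
    have a1 := key2 _ _ _ _ (dW y) e1
    have e : W y * deriv φ y - W' y * deriv φ y = (W y - W' y) * deriv φ y := by ring
    show |_| ≤ _
    rw [e, eT]
    have hdb' := hdb y
    have hcb : 0 ≤ C₀ * (d * (B * bd (1 / 2) (1 / 2) y)) := mul_nonneg h0 hdb'
    have hfb : 0 ≤ F * (d * (B * bd (1 / 2) (1 / 2) y)) := mul_nonneg hF0 hdb'
    linarith

/-- a difference of products of bounded, `A d`-close quantities -/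
private theorem plip_prod {A d p q r s p' q' r' s' : ℝ} (hA : 0 ≤ A) (hd : 0 ≤ d)
    (hp : |p| ≤ A) (hq : |q| ≤ A) (hr : |r| ≤ A) (hs : |s| ≤ A)
    (hp' : |p'| ≤ A) (hr' : |r'| ≤ A)
    (h1 : |p - p'| ≤ A * d) (h2 : |q - q'| ≤ A * d) (h3 : |r - r'| ≤ A * d)
    (h4 : |s - s'| ≤ A * d) :
    |p * q - r * s| ≤ 2 * A ^ 2 ∧ |(p * q - r * s) - (p' * q' - r' * s')| ≤ 4 * A ^ 2 * d := by
  have key : ∀ a b X Y : ℝ, |a| ≤ X → |b| ≤ Y → |a * b| ≤ X * Y := by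
    intro a b X Y ha hb
    rw [abs_mul]
    exact mul_le_mul ha hb (abs_nonneg _) ((abs_nonneg _).trans ha)
  constructor
  · have a1 := key _ _ _ _ hp hq
    have a2 := key _ _ _ _ hr hs
    rw [abs_le] at a1 a2 ⊢
    constructor <;> linarith only [a1.1, a1.2, a2.1, a2.2]
  · have a1 := key _ _ _ _ h1 hq
    have a2 := key _ _ _ _ hp' h2
    have a3 := key _ _ _ _ h3 hs
    have a4 := key _ _ _ _ hr' h4
    have e : (p * q - r * s) - (p' * q' - r' * s') =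
        (p - p') * q + p' * (q - q') - (r - r') * s - r' * (s - s') := by ring
    rw [e]
    have e1 : A * d * A = A ^ 2 * d := by ring
    have e2 : A * (A * d) = A ^ 2 * d := by ring
    rw [e1] at a1 a3
    rw [e2] at a2 a4
    rw [abs_le] at a1 a2 a3 a4 ⊢
    constructor <;> linarith [a1.1, a1.2, a2.1, a2.2, a3.1, a3.2, a4.1, a4.2]

private theorem plip_div {N N' D D' c M d : ℝ} (hc : 0 < c) (hM : 0 ≤ M) (hd : 0 ≤ d)
    (hD : c ≤ D) (hD' : c ≤ D') (hN : |N| ≤ M) (hN' : |N'| ≤ M) (h1 : |N - N'| ≤ M * d)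
    (h2 : |D - D'| ≤ M * d) :
    |N / D| ≤ M / c ∧ |N / D - N' / D'| ≤ (M / c + M ^ 2 / c ^ 2) * d := by
  have hD0 : 0 < D := hc.trans_le hD
  have hD0' : 0 < D' := hc.trans_le hD'
  constructor
  · rw [abs_div, abs_of_pos hD0]
    exact div_le_div₀ hM hN hc hD
  · have e : N / D - N' / D' = (N - N') / D + N' * (D' - D) / (D * D') := by
      field_simp
      ring
    rw [e]
    have a1 : |(N - N') / D| ≤ M * d / c := by
      rw [abs_div, abs_of_pos hD0]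
      exact div_le_div₀ (by positivity) h1 hc hD
    have a2 : |N' * (D' - D) / (D * D')| ≤ M * (M * d) / (c * c) := by
      rw [abs_div, abs_mul, abs_of_pos (mul_pos hD0 hD0'), abs_sub_comm D' D]
      refine div_le_div₀ (by positivity) ?_ (by positivity) ?_
      · exact mul_le_mul hN' h2 (abs_nonneg _) hM
      · exact mul_le_mul hD hD' hc.le hD0.le
    have e2 : (M / c + M ^ 2 / c ^ 2) * d = M * d / c + M * (M * d) / (c * c) := by
      field_simp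
    rw [e2]
    exact (abs_add_le _ _).trans (add_le_add a1 a2)

theorem d0_pos {k : ℕ} (hk : 5 ≤ k) : 0 < d0 k := by
  have h1 : 1 ≤ k := by omega
  unfold d0
  have a := (sc_pos hk).1
  have b := Qsq_pos h1
  have c := Q'sq_pos h1
  positivity

theorem bfn_lip {k : ℕ} (hk : 5 ≤ k) (C₀ : ℝ) : ∃ C₁ : ℝ, 0 ≤ C₁ ∧
    ∀ (l l' : ℝ) (W W' E E' : ℝ → ℝ) (d : ℝ), 0 ≤ l → l ≤ 1 → 0 ≤ l' → l' ≤ 1 → 0 ≤ d →
      |l - l'| ≤ d → Continuous W → Continuous W' → Continuous E → Continuous E' →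
      (∀ y, |W y| ≤ C₀) → (∀ y, |W' y| ≤ C₀) → (∀ y, |E y| ≤ C₀) → (∀ y, |E' y| ≤ C₀) →
      (∀ y, |W y - W' y| ≤ d * (1 + |y|)) → (∀ y, |E y - E' y| ≤ d * (1 + |y|)) →
      |bfn k l W E| ≤ C₁ ∧ |mfn k l W E| ≤ C₁ ∧ |bfn k l W E - bfn k l' W' E'| ≤ C₁ * d ∧
        |mfn k l W E - mfn k l' W' E'| ≤ C₁ * d := by
  by_cases h0 : 0 ≤ C₀
  swap
  · refine ⟨0, le_refl _, ?_⟩
    intro l l' W W' E E' d _ _ _ _ _ _ _ _ _ _ bW
    exact absurd ((abs_nonneg _).trans (bW 0)) h0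
  have hk1 : 1 ≤ k := by omega
  obtain ⟨A1, hA1, H1⟩ := plip_fun hk h0 (Q_cl hk1)
  obtain ⟨A2, hA2, H2⟩ := plip_fun hk h0 (Cl_deriv (Q_cl hk1))
  have hc := d0_pos hk
  set A := A1 + A2 with hAdef
  have hA : 0 ≤ A := by positivity
  have u1 : A1 ≤ A := by rw [hAdef]; linarith
  have u2 : A2 ≤ A := by rw [hAdef]; linarith
  set M := 4 * A ^ 2 with hMdef
  have hM : 0 ≤ M := by positivity
  refine ⟨M / d0 k + M ^ 2 / (d0 k) ^ 2, by positivity, ?_⟩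
  intro l l' W W' E E' d hl hl1 hl' hl1' hd hld cW cW' cE cE' bW bW' bE bE' dW dE
  have v1 : A1 * d ≤ A * d := mul_le_mul_of_nonneg_right u1 hd
  have v2 : A2 * d ≤ A * d := mul_le_mul_of_nonneg_right u2 hd
  obtain ⟨⟨a1, a2⟩, ⟨a3, a4⟩, ⟨a5, a6⟩⟩ := H1 l l' W W' E E' d hl hl1 hl' hl1' hd hld cW cW' cE cE'
    bW bW' bE bE' dW dE
  obtain ⟨⟨b1, b2⟩, ⟨b3, b4⟩, ⟨b5, b6⟩⟩ := H2 l l' W W' E E' d hl hl1 hl' hl1' hd hld cW cW' cE cE'
    bW bW' bE bE' dW dE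
  have zz : ∀ y : ℝ, |(0 : ℝ)| ≤ 0 * (1 + |y|) := fun y => by simp
  obtain ⟨⟨a1', _⟩, ⟨a3', _⟩, ⟨a5', _⟩⟩ := H1 l' l' W' W' E' E' 0 hl' hl1' hl' hl1' le_rfl
    (by simp) cW' cW' cE' cE' bW' bW' bE' bE' (fun y => by simp) (fun y => by simp)
  obtain ⟨⟨b1', _⟩, ⟨b3', _⟩, ⟨b5', _⟩⟩ := H2 l' l' W' W' E' E' 0 hl' hl1' hl' hl1' le_rfl
    (by simp) cW' cW' cE' cE' bW' bW' bE' bE' (fun y => by simp) (fun y => by simp)
  have hDet := plip_prod hA hd (a3.trans u1) (b5.trans u2) (b3.trans u2) (a5.trans u1)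
    (a3'.trans u1) (b3'.trans u2) (a4.trans v1) (b6.trans v2) (b4.trans v2) (a6.trans v1)
  have hNb := plip_prod hA hd (a1.trans u1) (b5.trans u2) (b1.trans u2) (a5.trans u1)
    (a1'.trans u1) (b1'.trans u2) (a2.trans v1) (b6.trans v2) (b2.trans v2) (a6.trans v1)
  have hNb' := (plip_prod hA (le_refl (0 : ℝ)) (a1'.trans u1) (b5'.trans u2) (b1'.trans u2)
    (a5'.trans u1) (a1'.trans u1) (b1'.trans u2) (p' := I1 k l' W' E' (Qf k))
    (q' := IB W' (deriv (Qf k))) (r' := I1 k l' W' E' (deriv (Qf k))) (s' := IB W' (Qf k))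
    (by simp) (by simp) (by simp) (by simp)).1
  have hNm := plip_prod hA hd (a3.trans u1) (b1.trans u2) (b3.trans u2) (a1.trans u1)
    (a3'.trans u1) (b3'.trans u2) (a4.trans v1) (b2.trans v2) (b4.trans v2) (a2.trans v1)
  have hNm' := (plip_prod hA (le_refl (0 : ℝ)) (a3'.trans u1) (b1'.trans u2) (b3'.trans u2)
    (a1'.trans u1) (a3'.trans u1) (b3'.trans u2) (p' := IA k W' (Qf k))
    (q' := I1 k l' W' E' (deriv (Qf k))) (r' := IA k W' (deriv (Qf k)))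
    (s' := I1 k l' W' E' (Qf k)) (by simp) (by simp) (by simp) (by simp)).1
  have m2 : 2 * A ^ 2 ≤ M := by
    rw [hMdef]
    linarith only [sq_nonneg A]
  have hDD : |max (Det k W) (d0 k) - max (Det k W') (d0 k)| ≤ M * d :=
    (abs_max_sub_max_le_abs _ _ _).trans hDet.2
  have r1 := plip_div hc hM hd (le_max_right (Det k W) (d0 k)) (le_max_right (Det k W') (d0 k))
    (hNb.1.trans m2) (hNb'.trans m2) hNb.2 hDD
  have r2 := plip_div hc hM hd (le_max_right (Det k W) (d0 k)) (le_max_right (Det k W') (d0 k))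
    (hNm.1.trans m2) (hNm'.trans m2) hNm.2 hDD
  have m3 : M / d0 k ≤ M / d0 k + M ^ 2 / (d0 k) ^ 2 := by
    have : 0 ≤ M ^ 2 / (d0 k) ^ 2 := by positivity
    linarith
  exact ⟨r1.1.trans m3, r2.1.trans m3, r1.2, r2.2⟩

end H72KB

end S_H72_KB_PLip

section S_H72_KB_PCon

/-!
# Row PCon: continuity of `bfn`, `mfn` along a pointwise continuous bounded family

Proof.  Each of `t ↦ I1 k l (W t) (E t) φ`, `IA k (W t) φ`, `IB (W t) φ` (`φ = Q, Q'`) is continuous on `J` by dominated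
convergence (`continuousWithinAt_of_dominated`, bound `C bd (1/2) (1/2) y`; the weights are as in the header of
PLip).  Then `Det` is continuous, `max (Det) (d0) ≥ d0 > 0` (`d0_pos`), and quotients are continuous.
-/

open MeasureTheory Filter Topology Set
open scoped ContDiff

namespace H72KB

open H98KB

theorem PCon_dom (J : Set ℝ) (K : ℝ → ℝ → ℝ) (g : ℝ → ℝ) (hg : Integrable g)
    (hK : ∀ t ∈ J, Continuous (K t)) (hb : ∀ t ∈ J, ∀ y, |K t y| ≤ g y)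
    (hc : ∀ y, ContinuousOn (fun t => K t y) J) : ContinuousOn (fun t => ∫ y, K t y) J := by
  intro t₀ ht₀
  refine continuousWithinAt_of_dominated (bound := g) ?_ ?_ hg ?_
  · filter_upwards [self_mem_nhdsWithin] with t ht
    exact (hK t ht).aestronglyMeasurable
  · filter_upwards [self_mem_nhdsWithin] with t ht
    refine Eventually.of_forall fun y => ?_
    rw [Real.norm_eq_abs]
    exact hb t ht y
  · exact Eventually.of_forall fun y => hc y t₀ ht₀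

theorem PCon_fl (k : ℕ) : Continuous (fl k) := by
  unfold fl
  fun_prop

theorem PCon_flb (k : ℕ) (C₀ : ℝ) : ∃ M : ℝ, ∀ u : ℝ, |u| ≤ C₀ → |fl k u| ≤ M := by
  obtain ⟨M, hM⟩ := (isCompact_Icc (a := -C₀) (b := C₀)).exists_bound_of_continuousOn
    (f := fl k) (PCon_fl k).continuousOn
  refine ⟨M, fun u hu => ?_⟩
  have := hM u ⟨(abs_le.1 hu).1, (abs_le.1 hu).2⟩
  rwa [Real.norm_eq_abs] at this

theorem PCon_lin (J : Set ℝ) (C₀ : ℝ) (W : ℝ → ℝ → ℝ) (A : ℝ → ℝ)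
    (hW : ∀ t ∈ J, Continuous (W t)) (bW : ∀ t ∈ J, ∀ y, |W t y| ≤ C₀)
    (cW : ∀ y, ContinuousOn (fun t => W t y) J) (hA : Continuous A) (iA : Integrable A) :
    ContinuousOn (fun t => ∫ y, W t y * A y) J := by
  refine PCon_dom J (fun t y => W t y * A y) (fun y => C₀ * |A y|) (iA.abs.const_mul C₀)
    (fun t ht => (hW t ht).mul hA) ?_ (fun y => (cW y).mul continuousOn_const)
  intro t ht y
  show |W t y * A y| ≤ _
  rw [abs_mul]
  exact mul_le_mul_of_nonneg_right (bW t ht y) (abs_nonneg _)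

theorem PCon_I1 (k : ℕ) (J : Set ℝ) (l C₀ : ℝ) (W E : ℝ → ℝ → ℝ) (φ : ℝ → ℝ) (hφ : Cl 1 1 φ)
    (hW : ∀ t ∈ J, Continuous (W t)) (hE : ∀ t ∈ J, Continuous (E t))
    (bW : ∀ t ∈ J, ∀ y, |W t y| ≤ C₀) (bE : ∀ t ∈ J, ∀ y, |E t y| ≤ C₀)
    (cW : ∀ y, ContinuousOn (fun t => W t y) J) (cE : ∀ y, ContinuousOn (fun t => E t y) J) :
    ContinuousOn (fun t => I1 k l (W t) (E t) φ) J := by
  obtain ⟨M, hM⟩ := PCon_flb k C₀
  have hd := Cl_deriv hφ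
  have id : Integrable (deriv φ) := Cl_int one_pos one_pos hd
  have hA : Cl 1 1 (fun y => iteratedDeriv 3 φ y - deriv φ y + l * iteratedDeriv 2 φ y) :=
    Cl_add (Cl_sub (Cl_iter hφ 3) hd) (Cl_smul l (Cl_iter hφ 2))
  have iA := Cl_int one_pos one_pos hA
  unfold I1
  refine PCon_dom J (fun t y => W t y * (iteratedDeriv 3 φ y - deriv φ y + l * iteratedDeriv 2 φ y)
    + fl k (W t y) * deriv φ y + E t y * deriv φ y)
    (fun y => C₀ * |iteratedDeriv 3 φ y - deriv φ y + l * iteratedDeriv 2 φ y|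
      + M * |deriv φ y| + C₀ * |deriv φ y|)
    (((iA.abs.const_mul C₀).add (id.abs.const_mul M)).add (id.abs.const_mul C₀)) ?_ ?_ ?_
  · intro t ht
    exact (((hW t ht).mul hA.1.continuous).add
      (((PCon_fl k).comp (hW t ht)).mul hd.1.continuous)).add ((hE t ht).mul hd.1.continuous)
  · intro t ht y
    refine (abs_add_le _ _).trans (add_le_add ((abs_add_le _ _).trans (add_le_add ?_ ?_)) ?_)
    · rw [abs_mul]
      exact mul_le_mul_of_nonneg_right (bW t ht y) (abs_nonneg _)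
    · rw [abs_mul]
      exact mul_le_mul_of_nonneg_right (hM _ (bW t ht y)) (abs_nonneg _)
    · rw [abs_mul]
      exact mul_le_mul_of_nonneg_right (bE t ht y) (abs_nonneg _)
  · intro y
    exact (((cW y).mul continuousOn_const).add
      (((PCon_fl k).comp_continuousOn (cW y)).mul continuousOn_const)).add
        ((cE y).mul continuousOn_const)

theorem PCon_IA (k : ℕ) (J : Set ℝ) (C₀ : ℝ) (W : ℝ → ℝ → ℝ) (φ : ℝ → ℝ) (hφ : Cl 1 1 φ)
    (hW : ∀ t ∈ J, Continuous (W t)) (bW : ∀ t ∈ J, ∀ y, |W t y| ≤ C₀)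
    (cW : ∀ y, ContinuousOn (fun t => W t y) J) :
    ContinuousOn (fun t => IA k (W t) φ) J := by
  have hd := Cl_deriv hφ
  have h1 : Cl (1 / 2) (1 / 2) (fun y => (2 / (k : ℝ) - 1) * φ y) :=
    Cl_smul _ (Cl_mono (by norm_num) (by norm_num) hφ)
  have h2 : Cl (1 / 2) (1 / 2) (fun y => y * deriv φ y) := Cl_ymul (by norm_num) (by norm_num) hd
  have hA := Cl_sub h1 h2
  unfold IA
  exact PCon_lin J C₀ W _ hW bW cW hA.1.continuous (Cl_int (by norm_num) (by norm_num) hA)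

theorem PCon_IB (J : Set ℝ) (C₀ : ℝ) (W : ℝ → ℝ → ℝ) (φ : ℝ → ℝ) (hφ : Cl 1 1 φ)
    (hW : ∀ t ∈ J, Continuous (W t)) (bW : ∀ t ∈ J, ∀ y, |W t y| ≤ C₀)
    (cW : ∀ y, ContinuousOn (fun t => W t y) J) :
    ContinuousOn (fun t => IB (W t) φ) J := by
  have hd := Cl_deriv hφ
  unfold IB
  exact PCon_lin J C₀ W _ hW bW cW hd.1.continuous (Cl_int one_pos one_pos hd)

theorem bfn_cont {k : ℕ} (hk : 5 ≤ k) (J : Set ℝ) (l C₀ : ℝ) (W E : ℝ → ℝ → ℝ)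
    (hW : ∀ t ∈ J, Continuous (W t)) (hE : ∀ t ∈ J, Continuous (E t))
    (bW : ∀ t ∈ J, ∀ y, |W t y| ≤ C₀) (bE : ∀ t ∈ J, ∀ y, |E t y| ≤ C₀)
    (cW : ∀ y, ContinuousOn (fun t => W t y) J) (cE : ∀ y, ContinuousOn (fun t => E t y) J) :
    ContinuousOn (fun t => bfn k l (W t) (E t)) J ∧
      ContinuousOn (fun t => mfn k l (W t) (E t)) J := by
  have hQ : Cl 1 1 (Qf k) := Q_cl (by omega)
  have hQ' : Cl 1 1 (deriv (Qf k)) := Cl_deriv hQ
  have a1 := PCon_I1 k J l C₀ W E _ hQ hW hE bW bE cW cE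
  have a2 := PCon_I1 k J l C₀ W E _ hQ' hW hE bW bE cW cE
  have b1 := PCon_IA k J C₀ W _ hQ hW bW cW
  have b2 := PCon_IA k J C₀ W _ hQ' hW bW cW
  have c1 := PCon_IB J C₀ W _ hQ hW bW cW
  have c2 := PCon_IB J C₀ W _ hQ' hW bW cW
  have hD : ContinuousOn (fun t => Det k (W t)) J := by
    unfold Det
    exact (b1.mul c2).sub (b2.mul c1)
  have hM : ContinuousOn (fun t => max (Det k (W t)) (d0 k)) J := hD.sup continuousOn_const
  have hne : ∀ t ∈ J, max (Det k (W t)) (d0 k) ≠ 0 := fun t _ =>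
    (lt_of_lt_of_le (d0_pos hk) (le_max_right _ _)).ne'
  constructor
  · unfold bfn
    exact ((a1.mul c2).sub (a2.mul c1)).div hM hne
  · unfold mfn
    exact ((b1.mul a2).sub (b2.mul a1)).div hM hne

end H72KB

end S_H72_KB_PCon

section S_H72_KC_PLg

/-!
# `wfn`, `nfn` are bounded and Lipschitz (generic test function `φ`; copy of `KB/PLip`)
-/

open MeasureTheory Filter Topology Set
open scoped ContDiff

namespace H72KC

open H98KB H72KB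

private theorem plip_pw {f : ℝ → ℝ} (hf : Cl 1 1 f) : ∃ B : ℝ, 0 ≤ B ∧
    ∀ y, |f y| ≤ B * bd (1 / 2) (1 / 2) y ∧ (1 + |y|) * |f y| ≤ B * bd (1 / 2) (1 / 2) y ∧
      (1 + |y|) * (|y| * |f y|) ≤ B * bd (1 / 2) (1 / 2) y := by
  obtain ⟨C, hC0, hC⟩ := ClC_abs hf
  obtain ⟨D, hD0, hD⟩ := bd_poly 2 (p := 1) (p' := 1 / 2) (q := 1) (q' := 1 / 2) (by norm_num)
    (by norm_num)
  refine ⟨C * D, by positivity, fun y => ?_⟩
  have h0 : 0 ≤ |y| := abs_nonneg y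
  have hf0 : 0 ≤ |f y| := abs_nonneg _
  have h1 : (1 + |y|) ^ 2 * |f y| ≤ C * D * bd (1 / 2) (1 / 2) y := by
    calc (1 + |y|) ^ 2 * |f y| ≤ (1 + |y|) ^ 2 * (C * bd 1 1 y) :=
          mul_le_mul_of_nonneg_left (hC y) (by positivity)
      _ = C * ((1 + |y|) ^ 2 * bd 1 1 y) := by ring
      _ ≤ C * (D * bd (1 / 2) (1 / 2) y) := mul_le_mul_of_nonneg_left (hD y) hC0
      _ = C * D * bd (1 / 2) (1 / 2) y := by ring
  have hy1 : 0 ≤ |y| * |f y| := by positivity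
  have hy2 : 0 ≤ |y| * (|y| * |f y|) := by positivity
  refine ⟨?_, ?_, ?_⟩ <;> nlinarith

private theorem plip_int {F : ℝ → ℝ} (hc : Continuous F) {K : ℝ}
    (h : ∀ y, |F y| ≤ K * bd (1 / 2) (1 / 2) y) :
    Integrable F ∧ |∫ y, F y| ≤ K * ∫ y, bd (1 / 2) (1 / 2) y := by
  have hi : Integrable (fun y => K * bd (1 / 2) (1 / 2) y) :=
    (H72KB.bd_int (by norm_num) (by norm_num)).const_mul K
  have h1 : Integrable F := hi.mono' hc.aestronglyMeasurable (Eventually.of_forall fun y => by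
    rw [Real.norm_eq_abs]
    exact h y)
  refine ⟨h1, ?_⟩
  rw [← integral_const_mul]
  exact (abs_integral_le_integral_abs).trans (integral_mono h1.abs hi h)

private theorem plip_fl (k : ℕ) {C₀ : ℝ} (h0 : 0 ≤ C₀) : ∃ F : ℝ, 0 ≤ F ∧
    ∀ u v : ℝ, |u| ≤ C₀ → |v| ≤ C₀ → |fl k u| ≤ F ∧ |fl k u - fl k v| ≤ F * |u - v| := by
  have hk : (0 : ℝ) < (k : ℝ) + 1 := by positivity
  refine ⟨C₀ ^ (k + 1) / ((k : ℝ) + 1) + C₀ ^ k, by positivity, fun u v hu hv => ⟨?_, ?_⟩⟩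
  · unfold fl
    rw [abs_div, abs_pow, abs_of_pos hk]
    have h1 : |u| ^ (k + 1) ≤ C₀ ^ (k + 1) := pow_le_pow_left₀ (abs_nonneg u) hu _
    have h2 := div_le_div_of_nonneg_right h1 hk.le
    have h3 : 0 ≤ C₀ ^ k := by positivity
    linarith
  · unfold fl
    rw [← sub_div, abs_div, abs_of_pos hk, div_le_iff₀ hk]
    have h1 := abs_pow_sub_pow_le u v (k + 1)
    have h2 : max |u| |v| ^ (k + 1 - 1) ≤ C₀ ^ k := by
      rw [Nat.add_sub_cancel]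
      exact pow_le_pow_left₀ (le_max_of_le_left (abs_nonneg u)) (max_le hu hv) _
    have h4 : 0 ≤ |u - v| := abs_nonneg _
    have h5 : 0 ≤ C₀ ^ (k + 1) := by positivity
    have h6 : |u - v| * ((k + 1 : ℕ) : ℝ) * max |u| |v| ^ (k + 1 - 1) ≤
        |u - v| * ((k + 1 : ℕ) : ℝ) * C₀ ^ k :=
      mul_le_mul_of_nonneg_left h2 (by positivity)
    push_cast at h1 h6
    have e : (C₀ ^ (k + 1) / ((k : ℝ) + 1) + C₀ ^ k) * |u - v| * ((k : ℝ) + 1) =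
        C₀ ^ (k + 1) * |u - v| + |u - v| * ((k : ℝ) + 1) * C₀ ^ k := by
      field_simp
    rw [e]
    have h7 : 0 ≤ C₀ ^ (k + 1) * |u - v| := by positivity
    linarith

/-- bounds for the three basic functionals -/
private theorem plip_fun {k : ℕ} (hk : 1 ≤ k) {C₀ : ℝ} (h0 : 0 ≤ C₀) {φ : ℝ → ℝ} (hφ : Cl 1 1 φ) :
    ∃ A : ℝ, 0 ≤ A ∧
    ∀ (l l' : ℝ) (W W' E E' : ℝ → ℝ) (d : ℝ), 0 ≤ l → l ≤ 1 → 0 ≤ l' → l' ≤ 1 → 0 ≤ d →
      |l - l'| ≤ d → Continuous W → Continuous W' → Continuous E → Continuous E' →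
      (∀ y, |W y| ≤ C₀) → (∀ y, |W' y| ≤ C₀) → (∀ y, |E y| ≤ C₀) → (∀ y, |E' y| ≤ C₀) →
      (∀ y, |W y - W' y| ≤ d * (1 + |y|)) → (∀ y, |E y - E' y| ≤ d * (1 + |y|)) →
      (|I1 k l W E φ| ≤ A ∧ |I1 k l W E φ - I1 k l' W' E' φ| ≤ A * d) ∧
      (|IA k W φ| ≤ A ∧ |IA k W φ - IA k W' φ| ≤ A * d) ∧
      (|IB W φ| ≤ A ∧ |IB W φ - IB W' φ| ≤ A * d) := by
  have h5 : (1 : ℝ) ≤ (k : ℝ) := by exact_mod_cast hk
  have hk2 : |2 / (k : ℝ) - 1| ≤ 1 := by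
    have h1 : 2 / (k : ℝ) ≤ 2 / 1 := div_le_div_of_nonneg_left (by norm_num) (by norm_num) h5
    have h2 : 0 < 2 / (k : ℝ) := by positivity
    rw [abs_le]
    constructor <;> linarith
  obtain ⟨F, hF0, hF⟩ := plip_fl k h0
  obtain ⟨B0, hB0, hb0⟩ := plip_pw hφ
  obtain ⟨B1, hB1, hb1⟩ := plip_pw (Cl_deriv hφ)
  obtain ⟨B2, hB2, hb2⟩ := plip_pw (Cl_iter hφ 2)
  obtain ⟨B3, hB3, hb3⟩ := plip_pw (Cl_iter hφ 3)
  have c0 : Continuous φ := hφ.1.continuous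
  have c1 : Continuous (deriv φ) := (Cl_deriv hφ).1.continuous
  have c2 : Continuous (iteratedDeriv 2 φ) := (Cl_iter hφ 2).1.continuous
  have c3 : Continuous (iteratedDeriv 3 φ) := (Cl_iter hφ 3).1.continuous
  have hJ : 0 ≤ ∫ y, bd (1 / 2) (1 / 2) y := integral_nonneg fun y => (H72KB.bd_pos _ _ y).le
  set J := ∫ y, bd (1 / 2) (1 / 2) y with hJdef
  set B := B0 + B1 + B2 + B3 with hBdef
  have hB : 0 ≤ B := by positivity
  -- pointwise bounds with the common constant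
  have hw : ∀ y, 0 < bd (1 / 2) (1 / 2) y := fun y => H72KB.bd_pos _ _ y
  have up : ∀ (X y : ℝ), X ≤ B → X * bd (1 / 2) (1 / 2) y ≤ B * bd (1 / 2) (1 / 2) y :=
    fun X y h => mul_le_mul_of_nonneg_right h (hw y).le
  have l0 : B0 ≤ B := by rw [hBdef]; linarith
  have l1 : B1 ≤ B := by rw [hBdef]; linarith
  have l2 : B2 ≤ B := by rw [hBdef]; linarith
  have l3 : B3 ≤ B := by rw [hBdef]; linarith
  set T := (10 + 10 * C₀ + 2 * F) * B with hTdef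
  have hT : 0 ≤ T := by positivity
  refine ⟨T * J, by positivity, ?_⟩
  intro l l' W W' E E' d hl hl1 hl' hl1' hd hld cW cW' cE cE' bW bW' bE bE' dW dE
  have cfl : Continuous (fl k) := by unfold fl; fun_prop
  -- products of a bounded and a decaying function
  have key : ∀ (a g X Y : ℝ), |a| ≤ X → |g| ≤ Y → |a * g| ≤ X * Y := by
    intro a g X Y h1 h2
    rw [abs_mul]
    exact mul_le_mul h1 h2 (abs_nonneg _) ((abs_nonneg _).trans h1)
  have key2 : ∀ (a g y Z : ℝ), |a| ≤ d * (1 + |y|) → (1 + |y|) * |g| ≤ Z → |a * g| ≤ d * Z := by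
    intro a g y Z h1 h2
    rw [abs_mul]
    calc |a| * |g| ≤ d * (1 + |y|) * |g| := mul_le_mul_of_nonneg_right h1 (abs_nonneg _)
      _ = d * ((1 + |y|) * |g|) := by ring
      _ ≤ d * Z := mul_le_mul_of_nonneg_left h2 hd
  -- bound of `I1`
  have hI : ∀ (l : ℝ) (W E : ℝ → ℝ), 0 ≤ l → l ≤ 1 → Continuous W → Continuous E →
      (∀ y, |W y| ≤ C₀) → (∀ y, |E y| ≤ C₀) →
      Integrable (fun y => W y * (iteratedDeriv 3 φ y - deriv φ y + l * iteratedDeriv 2 φ y)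
        + fl k (W y) * deriv φ y + E y * deriv φ y) ∧ |I1 k l W E φ| ≤ T * J := by
    intro l W E hl hl1 cW cE bW bE
    refine plip_int (by fun_prop) fun y => ?_
    have e0 := (hb0 y).1.trans (up B0 y l0)
    have e1 := (hb1 y).1.trans (up B1 y l1)
    have e2 := (hb2 y).1.trans (up B2 y l2)
    have e3 := (hb3 y).1.trans (up B3 y l3)
    have a1 := key _ _ _ _ (bW y) e3
    have a2 := key _ _ _ _ (bW y) e1
    have a3 := key _ _ _ _ (bW y) e2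
    have a4 := key _ _ _ _ (hF _ _ (bW y) (bW y)).1 e1
    have a5 := key _ _ _ _ (bE y) e1
    have a3' : |l * (W y * iteratedDeriv 2 φ y)| ≤ C₀ * (B * bd (1 / 2) (1 / 2) y) := by
      rw [abs_mul, abs_of_nonneg hl]
      calc l * |W y * iteratedDeriv 2 φ y| ≤ 1 * |W y * iteratedDeriv 2 φ y| :=
            mul_le_mul_of_nonneg_right hl1 (abs_nonneg _)
        _ = |W y * iteratedDeriv 2 φ y| := one_mul _
        _ ≤ _ := a3
    have e : W y * (iteratedDeriv 3 φ y - deriv φ y + l * iteratedDeriv 2 φ y)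
        + fl k (W y) * deriv φ y + E y * deriv φ y = W y * iteratedDeriv 3 φ y
        - W y * deriv φ y + l * (W y * iteratedDeriv 2 φ y) + fl k (W y) * deriv φ y
        + E y * deriv φ y := by ring
    rw [e]
    have hbb : 0 ≤ B * bd (1 / 2) (1 / 2) y := mul_nonneg hB (hw y).le
    have hcb : 0 ≤ C₀ * (B * bd (1 / 2) (1 / 2) y) := mul_nonneg h0 hbb
    have hfb : 0 ≤ F * (B * bd (1 / 2) (1 / 2) y) := mul_nonneg hF0 hbb
    have eT : T * bd (1 / 2) (1 / 2) y = 10 * (B * bd (1 / 2) (1 / 2) y) +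
        10 * (C₀ * (B * bd (1 / 2) (1 / 2) y)) + 2 * (F * (B * bd (1 / 2) (1 / 2) y)) := by
      rw [hTdef]; ring
    rw [eT]
    rw [abs_le] at a1 a2 a3' a4 a5 ⊢
    constructor <;> linarith [a1.1, a1.2, a2.1, a2.2, a3'.1, a3'.2, a4.1, a4.2, a5.1, a5.2]
  -- bound of `IA`
  have hA : ∀ (W : ℝ → ℝ), Continuous W → (∀ y, |W y| ≤ C₀) →
      Integrable (fun y => W y * ((2 / (k : ℝ) - 1) * φ y - y * deriv φ y)) ∧
        |IA k W φ| ≤ T * J := by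
    intro W cW bW
    refine plip_int (by fun_prop) fun y => ?_
    have e0 := (hb0 y).1.trans (up B0 y l0)
    have e1 := (hb1 y).2.1.trans (up B1 y l1)
    have a0 : |(2 / (k : ℝ) - 1) * φ y| ≤ 1 * (B * bd (1 / 2) (1 / 2) y) := key _ _ _ _ hk2 e0
    have a1 : |y * deriv φ y| ≤ B * bd (1 / 2) (1 / 2) y := by
      rw [abs_mul]
      have : 0 ≤ |deriv φ y| := abs_nonneg _
      linarith
    have a2 : |(2 / (k : ℝ) - 1) * φ y - y * deriv φ y| ≤ 2 * (B * bd (1 / 2) (1 / 2) y) := by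
      rw [abs_le] at a0 a1 ⊢
      constructor <;> linarith [a0.1, a0.2, a1.1, a1.2]
    have a3 := key _ _ _ _ (bW y) a2
    have hbb : 0 ≤ B * bd (1 / 2) (1 / 2) y := mul_nonneg hB (hw y).le
    have hcb : 0 ≤ C₀ * (B * bd (1 / 2) (1 / 2) y) := mul_nonneg h0 hbb
    have hfb : 0 ≤ F * (B * bd (1 / 2) (1 / 2) y) := mul_nonneg hF0 hbb
    have eT : T * bd (1 / 2) (1 / 2) y = 10 * (B * bd (1 / 2) (1 / 2) y) +
        10 * (C₀ * (B * bd (1 / 2) (1 / 2) y)) + 2 * (F * (B * bd (1 / 2) (1 / 2) y)) := by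
      rw [hTdef]; ring
    rw [eT]
    linarith
  have hBi : ∀ (W : ℝ → ℝ), Continuous W → (∀ y, |W y| ≤ C₀) →
      Integrable (fun y => W y * deriv φ y) ∧ |IB W φ| ≤ T * J := by
    intro W cW bW
    refine plip_int (by fun_prop) fun y => ?_
    have e1 := (hb1 y).1.trans (up B1 y l1)
    have a3 := key _ _ _ _ (bW y) e1
    have hbb : 0 ≤ B * bd (1 / 2) (1 / 2) y := mul_nonneg hB (hw y).le
    have hcb : 0 ≤ C₀ * (B * bd (1 / 2) (1 / 2) y) := mul_nonneg h0 hbb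
    have hfb : 0 ≤ F * (B * bd (1 / 2) (1 / 2) y) := mul_nonneg hF0 hbb
    have eT : T * bd (1 / 2) (1 / 2) y = 10 * (B * bd (1 / 2) (1 / 2) y) +
        10 * (C₀ * (B * bd (1 / 2) (1 / 2) y)) + 2 * (F * (B * bd (1 / 2) (1 / 2) y)) := by
      rw [hTdef]; ring
    rw [eT]
    linarith
  obtain ⟨i1, n1⟩ := hI l W E hl hl1 cW cE bW bE
  obtain ⟨i2, n2⟩ := hI l' W' E' hl' hl1' cW' cE' bW' bE'
  obtain ⟨i3, n3⟩ := hA W cW bW
  obtain ⟨i4, n4⟩ := hA W' cW' bW'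
  obtain ⟨i5, n5⟩ := hBi W cW bW
  obtain ⟨i6, n6⟩ := hBi W' cW' bW'
  have eT : ∀ y, T * d * bd (1 / 2) (1 / 2) y = 10 * (d * (B * bd (1 / 2) (1 / 2) y)) +
      10 * (C₀ * (d * (B * bd (1 / 2) (1 / 2) y))) +
      2 * (F * (d * (B * bd (1 / 2) (1 / 2) y))) := by
    intro y
    rw [hTdef]; ring
  have hdb : ∀ y, 0 ≤ d * (B * bd (1 / 2) (1 / 2) y) := fun y =>
    mul_nonneg hd (mul_nonneg hB (hw y).le)
  refine ⟨⟨n1, ?_⟩, ⟨n3, ?_⟩, ⟨n5, ?_⟩⟩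
  · unfold I1
    rw [← integral_sub i1 i2]
    have h := (plip_int (F := fun y => (W y * (iteratedDeriv 3 φ y - deriv φ y +
        l * iteratedDeriv 2 φ y) + fl k (W y) * deriv φ y + E y * deriv φ y) -
        (W' y * (iteratedDeriv 3 φ y - deriv φ y + l' * iteratedDeriv 2 φ y)
        + fl k (W' y) * deriv φ y + E' y * deriv φ y)) (by fun_prop) (K := T * d) ?_).2
    · calc _ ≤ T * d * J := h
        _ = T * J * d := by ring
    intro y
    have e1 := (hb1 y).2.1.trans (up B1 y l1)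
    have e2 := (hb2 y).2.1.trans (up B2 y l2)
    have e2' := (hb2 y).1.trans (up B2 y l2)
    have e3 := (hb3 y).2.1.trans (up B3 y l3)
    have a1 := key2 _ _ _ _ (dW y) e3
    have a2 := key2 _ _ _ _ (dW y) e1
    have a3 := key2 _ _ _ _ (dW y) e2
    have a4 := key2 _ _ _ _ (dE y) e1
    have a3' : |l * ((W y - W' y) * iteratedDeriv 2 φ y)| ≤ d * (B * bd (1 / 2) (1 / 2) y) := by
      rw [abs_mul, abs_of_nonneg hl]
      calc l * |(W y - W' y) * iteratedDeriv 2 φ y| ≤ 1 * |(W y - W' y) * iteratedDeriv 2 φ y| :=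
            mul_le_mul_of_nonneg_right hl1 (abs_nonneg _)
        _ = |(W y - W' y) * iteratedDeriv 2 φ y| := one_mul _
        _ ≤ _ := a3
    have a5 : |W' y * ((l - l') * iteratedDeriv 2 φ y)| ≤
        C₀ * (d * (B * bd (1 / 2) (1 / 2) y)) := key _ _ _ _ (bW' y) (key _ _ _ _ hld e2')
    have a6 : |(fl k (W y) - fl k (W' y)) * deriv φ y| ≤
        F * (d * (B * bd (1 / 2) (1 / 2) y)) := by
      rw [abs_mul]
      calc |fl k (W y) - fl k (W' y)| * |deriv φ y|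
          ≤ F * |W y - W' y| * |deriv φ y| :=
            mul_le_mul_of_nonneg_right (hF _ _ (bW y) (bW' y)).2 (abs_nonneg _)
        _ = F * |(W y - W' y) * deriv φ y| := by rw [abs_mul]; ring
        _ ≤ F * (d * (B * bd (1 / 2) (1 / 2) y)) := mul_le_mul_of_nonneg_left a2 hF0
    have e : (W y * (iteratedDeriv 3 φ y - deriv φ y + l * iteratedDeriv 2 φ y)
        + fl k (W y) * deriv φ y + E y * deriv φ y) -
        (W' y * (iteratedDeriv 3 φ y - deriv φ y + l' * iteratedDeriv 2 φ y)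
        + fl k (W' y) * deriv φ y + E' y * deriv φ y) =
        (W y - W' y) * iteratedDeriv 3 φ y - (W y - W' y) * deriv φ y +
        l * ((W y - W' y) * iteratedDeriv 2 φ y) + W' y * ((l - l') * iteratedDeriv 2 φ y) +
        (fl k (W y) - fl k (W' y)) * deriv φ y + (E y - E' y) * deriv φ y := by ring
    show |_| ≤ _
    rw [e, eT]
    have hdb' := hdb y
    have hcb : 0 ≤ C₀ * (d * (B * bd (1 / 2) (1 / 2) y)) := mul_nonneg h0 hdb'
    have hfb : 0 ≤ F * (d * (B * bd (1 / 2) (1 / 2) y)) := mul_nonneg hF0 hdb'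
    rw [abs_le] at a1 a2 a3' a4 a5 a6 ⊢
    constructor <;> linarith [a1.1, a1.2, a2.1, a2.2, a3'.1, a3'.2, a4.1, a4.2, a5.1, a5.2,
      a6.1, a6.2]
  · unfold IA
    rw [← integral_sub i3 i4]
    have h := (plip_int (F := fun y => W y * ((2 / (k : ℝ) - 1) * φ y - y * deriv φ y) -
        W' y * ((2 / (k : ℝ) - 1) * φ y - y * deriv φ y)) (by fun_prop) (K := T * d) ?_).2
    · calc _ ≤ T * d * J := h
        _ = T * J * d := by ring
    intro y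
    have e0 := (hb0 y).2.1.trans (up B0 y l0)
    have e1 := (hb1 y).2.2.trans (up B1 y l1)
    have a0 := key2 _ _ _ _ (dW y) e0
    have a1 : |(W y - W' y) * (y * deriv φ y)| ≤ d * (B * bd (1 / 2) (1 / 2) y) := by
      refine key2 _ _ y _ (dW y) ?_
      rw [abs_mul]
      exact e1
    have a2 : |(2 / (k : ℝ) - 1) * ((W y - W' y) * φ y)| ≤
        1 * (d * (B * bd (1 / 2) (1 / 2) y)) := key _ _ _ _ hk2 a0
    have e : W y * ((2 / (k : ℝ) - 1) * φ y - y * deriv φ y) -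
        W' y * ((2 / (k : ℝ) - 1) * φ y - y * deriv φ y) =
        (2 / (k : ℝ) - 1) * ((W y - W' y) * φ y) - (W y - W' y) * (y * deriv φ y) := by ring
    show |_| ≤ _
    rw [e, eT]
    have hdb' := hdb y
    have hcb : 0 ≤ C₀ * (d * (B * bd (1 / 2) (1 / 2) y)) := mul_nonneg h0 hdb'
    have hfb : 0 ≤ F * (d * (B * bd (1 / 2) (1 / 2) y)) := mul_nonneg hF0 hdb'
    rw [abs_le] at a1 a2 ⊢
    constructor <;> linarith [a1.1, a1.2, a2.1, a2.2]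
  · unfold IB
    rw [← integral_sub i5 i6]
    have h := (plip_int (F := fun y => W y * deriv φ y - W' y * deriv φ y) (by fun_prop)
      (K := T * d) ?_).2
    · calc _ ≤ T * d * J := h
        _ = T * J * d := by ring
    intro y
    have e1 := (hb1 y).2.1.trans (up B1 y l1)
    have a1 := key2 _ _ _ _ (dW y) e1
    have e : W y * deriv φ y - W' y * deriv φ y = (W y - W' y) * deriv φ y := by ring
    show |_| ≤ _
    rw [e, eT]
    have hdb' := hdb y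
    have hcb : 0 ≤ C₀ * (d * (B * bd (1 / 2) (1 / 2) y)) := mul_nonneg h0 hdb'
    have hfb : 0 ≤ F * (d * (B * bd (1 / 2) (1 / 2) y)) := mul_nonneg hF0 hdb'
    linarith

/-- a difference of products of bounded, `A d`-close quantities -/
private theorem plip_prod {A d p q r s p' q' r' s' : ℝ} (hA : 0 ≤ A) (hd : 0 ≤ d)
    (hp : |p| ≤ A) (hq : |q| ≤ A) (hr : |r| ≤ A) (hs : |s| ≤ A)
    (hp' : |p'| ≤ A) (hr' : |r'| ≤ A)
    (h1 : |p - p'| ≤ A * d) (h2 : |q - q'| ≤ A * d) (h3 : |r - r'| ≤ A * d)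
    (h4 : |s - s'| ≤ A * d) :
    |p * q - r * s| ≤ 2 * A ^ 2 ∧ |(p * q - r * s) - (p' * q' - r' * s')| ≤ 4 * A ^ 2 * d := by
  have key : ∀ a b X Y : ℝ, |a| ≤ X → |b| ≤ Y → |a * b| ≤ X * Y := by
    intro a b X Y ha hb
    rw [abs_mul]
    exact mul_le_mul ha hb (abs_nonneg _) ((abs_nonneg _).trans ha)
  constructor
  · have a1 := key _ _ _ _ hp hq
    have a2 := key _ _ _ _ hr hs
    rw [abs_le] at a1 a2 ⊢
    constructor <;> linarith only [a1.1, a1.2, a2.1, a2.2]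
  · have a1 := key _ _ _ _ h1 hq
    have a2 := key _ _ _ _ hp' h2
    have a3 := key _ _ _ _ h3 hs
    have a4 := key _ _ _ _ hr' h4
    have e : (p * q - r * s) - (p' * q' - r' * s') =
        (p - p') * q + p' * (q - q') - (r - r') * s - r' * (s - s') := by ring
    rw [e]
    have e1 : A * d * A = A ^ 2 * d := by ring
    have e2 : A * (A * d) = A ^ 2 * d := by ring
    rw [e1] at a1 a3
    rw [e2] at a2 a4
    rw [abs_le] at a1 a2 a3 a4 ⊢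
    constructor <;> linarith [a1.1, a1.2, a2.1, a2.2, a3.1, a3.2, a4.1, a4.2]

private theorem plip_div {N N' D D' c M d : ℝ} (hc : 0 < c) (hM : 0 ≤ M) (hd : 0 ≤ d)
    (hD : c ≤ D) (hD' : c ≤ D') (hN : |N| ≤ M) (hN' : |N'| ≤ M) (h1 : |N - N'| ≤ M * d)
    (h2 : |D - D'| ≤ M * d) :
    |N / D| ≤ M / c ∧ |N / D - N' / D'| ≤ (M / c + M ^ 2 / c ^ 2) * d := by
  have hD0 : 0 < D := hc.trans_le hD
  have hD0' : 0 < D' := hc.trans_le hD'
  constructor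
  · rw [abs_div, abs_of_pos hD0]
    exact div_le_div₀ hM hN hc hD
  · have e : N / D - N' / D' = (N - N') / D + N' * (D' - D) / (D * D') := by
      field_simp
      ring
    rw [e]
    have a1 : |(N - N') / D| ≤ M * d / c := by
      rw [abs_div, abs_of_pos hD0]
      exact div_le_div₀ (by positivity) h1 hc hD
    have a2 : |N' * (D' - D) / (D * D')| ≤ M * (M * d) / (c * c) := by
      rw [abs_div, abs_mul, abs_of_pos (mul_pos hD0 hD0'), abs_sub_comm D' D]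
      refine div_le_div₀ (by positivity) ?_ (by positivity) ?_
      · exact mul_le_mul hN' h2 (abs_nonneg _) hM
      · exact mul_le_mul hD hD' hc.le hD0.le
    have e2 : (M / c + M ^ 2 / c ^ 2) * d = M * d / c + M * (M * d) / (c * c) := by
      field_simp
    rw [e2]
    exact (abs_add_le _ _).trans (add_le_add a1 a2)

theorem wfn_lip {k : ℕ} (hk1 : 1 ≤ k) {φ : ℝ → ℝ} (hφ : Cl 1 1 φ) {dd : ℝ} (hc : 0 < dd)
    (C₀ : ℝ) : ∃ C₁ : ℝ, 0 ≤ C₁ ∧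
    ∀ (l l' : ℝ) (W W' E E' : ℝ → ℝ) (d : ℝ), 0 ≤ l → l ≤ 1 → 0 ≤ l' → l' ≤ 1 → 0 ≤ d →
      |l - l'| ≤ d → Continuous W → Continuous W' → Continuous E → Continuous E' →
      (∀ y, |W y| ≤ C₀) → (∀ y, |W' y| ≤ C₀) → (∀ y, |E y| ≤ C₀) → (∀ y, |E' y| ≤ C₀) →
      (∀ y, |W y - W' y| ≤ d * (1 + |y|)) → (∀ y, |E y - E' y| ≤ d * (1 + |y|)) →
      |wfn k φ dd l W E| ≤ C₁ ∧ |nfn k φ dd l W E| ≤ C₁ ∧ |wfn k φ dd l W E - wfn k φ dd l' W' E'| ≤ C₁ * d ∧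
        |nfn k φ dd l W E - nfn k φ dd l' W' E'| ≤ C₁ * d := by
  by_cases h0 : 0 ≤ C₀
  swap
  · refine ⟨0, le_refl _, ?_⟩
    intro l l' W W' E E' d _ _ _ _ _ _ _ _ _ _ bW
    exact absurd ((abs_nonneg _).trans (bW 0)) h0
  obtain ⟨A1, hA1, H1⟩ := plip_fun hk1 h0 hφ
  obtain ⟨A2, hA2, H2⟩ := plip_fun hk1 h0 (Cl_deriv (Q_cl hk1))
  set A := A1 + A2 with hAdef
  have hA : 0 ≤ A := by positivity
  have u1 : A1 ≤ A := by rw [hAdef]; linarith
  have u2 : A2 ≤ A := by rw [hAdef]; linarith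
  set M := 4 * A ^ 2 with hMdef
  have hM : 0 ≤ M := by positivity
  refine ⟨M / dd + M ^ 2 / (dd) ^ 2, by positivity, ?_⟩
  intro l l' W W' E E' d hl hl1 hl' hl1' hd hld cW cW' cE cE' bW bW' bE bE' dW dE
  have v1 : A1 * d ≤ A * d := mul_le_mul_of_nonneg_right u1 hd
  have v2 : A2 * d ≤ A * d := mul_le_mul_of_nonneg_right u2 hd
  obtain ⟨⟨a1, a2⟩, ⟨a3, a4⟩, ⟨a5, a6⟩⟩ := H1 l l' W W' E E' d hl hl1 hl' hl1' hd hld cW cW' cE cE'
    bW bW' bE bE' dW dE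
  obtain ⟨⟨b1, b2⟩, ⟨b3, b4⟩, ⟨b5, b6⟩⟩ := H2 l l' W W' E E' d hl hl1 hl' hl1' hd hld cW cW' cE cE'
    bW bW' bE bE' dW dE
  have zz : ∀ y : ℝ, |(0 : ℝ)| ≤ 0 * (1 + |y|) := fun y => by simp
  obtain ⟨⟨a1', _⟩, ⟨a3', _⟩, ⟨a5', _⟩⟩ := H1 l' l' W' W' E' E' 0 hl' hl1' hl' hl1' le_rfl
    (by simp) cW' cW' cE' cE' bW' bW' bE' bE' (fun y => by simp) (fun y => by simp)
  obtain ⟨⟨b1', _⟩, ⟨b3', _⟩, ⟨b5', _⟩⟩ := H2 l' l' W' W' E' E' 0 hl' hl1' hl' hl1' le_rfl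
    (by simp) cW' cW' cE' cE' bW' bW' bE' bE' (fun y => by simp) (fun y => by simp)
  have hDet := plip_prod hA hd (a3.trans u1) (b5.trans u2) (b3.trans u2) (a5.trans u1)
    (a3'.trans u1) (b3'.trans u2) (a4.trans v1) (b6.trans v2) (b4.trans v2) (a6.trans v1)
  have hNb := plip_prod hA hd (a1.trans u1) (b5.trans u2) (b1.trans u2) (a5.trans u1)
    (a1'.trans u1) (b1'.trans u2) (a2.trans v1) (b6.trans v2) (b2.trans v2) (a6.trans v1)
  have hNb' := (plip_prod hA (le_refl (0 : ℝ)) (a1'.trans u1) (b5'.trans u2) (b1'.trans u2)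
    (a5'.trans u1) (a1'.trans u1) (b1'.trans u2) (p' := I1 k l' W' E' φ)
    (q' := IB W' (deriv (Qf k))) (r' := I1 k l' W' E' (deriv (Qf k))) (s' := IB W' φ)
    (by simp) (by simp) (by simp) (by simp)).1
  have hNm := plip_prod hA hd (a3.trans u1) (b1.trans u2) (b3.trans u2) (a1.trans u1)
    (a3'.trans u1) (b3'.trans u2) (a4.trans v1) (b2.trans v2) (b4.trans v2) (a2.trans v1)
  have hNm' := (plip_prod hA (le_refl (0 : ℝ)) (a3'.trans u1) (b1'.trans u2) (b3'.trans u2)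
    (a1'.trans u1) (a3'.trans u1) (b3'.trans u2) (p' := IA k W' φ)
    (q' := I1 k l' W' E' (deriv (Qf k))) (r' := IA k W' (deriv (Qf k)))
    (s' := I1 k l' W' E' φ) (by simp) (by simp) (by simp) (by simp)).1
  have m2 : 2 * A ^ 2 ≤ M := by
    rw [hMdef]
    linarith only [sq_nonneg A]
  have hDD : |max (Dt k φ W) (dd) - max (Dt k φ W') (dd)| ≤ M * d :=
    (abs_max_sub_max_le_abs _ _ _).trans hDet.2
  have r1 := plip_div hc hM hd (le_max_right (Dt k φ W) (dd)) (le_max_right (Dt k φ W') (dd))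
    (hNb.1.trans m2) (hNb'.trans m2) hNb.2 hDD
  have r2 := plip_div hc hM hd (le_max_right (Dt k φ W) (dd)) (le_max_right (Dt k φ W') (dd))
    (hNm.1.trans m2) (hNm'.trans m2) hNm.2 hDD
  have m3 : M / dd ≤ M / dd + M ^ 2 / (dd) ^ 2 := by
    have : 0 ≤ M ^ 2 / (dd) ^ 2 := by positivity
    linarith
  exact ⟨r1.1.trans m3, r2.1.trans m3, r1.2, r2.2⟩

end H72KC

end S_H72_KC_PLg

section S_H72_KC_PCg

/-!
# Continuity of `wfn`, `nfn` along a pointwise continuous bounded family (copy of `KB/PCon`)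
-/

open MeasureTheory Filter Topology Set
open scoped ContDiff

namespace H72KC

open H98KB H72KB

theorem wfn_cont {k : ℕ} (hk : 1 ≤ k) {φ : ℝ → ℝ} (hφ : Cl 1 1 φ) {dd : ℝ} (hc : 0 < dd) (J : Set ℝ) (l C₀ : ℝ) (W E : ℝ → ℝ → ℝ)
    (hW : ∀ t ∈ J, Continuous (W t)) (hE : ∀ t ∈ J, Continuous (E t))
    (bW : ∀ t ∈ J, ∀ y, |W t y| ≤ C₀) (bE : ∀ t ∈ J, ∀ y, |E t y| ≤ C₀)
    (cW : ∀ y, ContinuousOn (fun t => W t y) J) (cE : ∀ y, ContinuousOn (fun t => E t y) J) :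
    ContinuousOn (fun t => wfn k φ dd l (W t) (E t)) J ∧
      ContinuousOn (fun t => nfn k φ dd l (W t) (E t)) J := by
  have hQ' : Cl 1 1 (deriv (Qf k)) := Cl_deriv (Q_cl hk)
  have a1 := PCon_I1 k J l C₀ W E _ hφ hW hE bW bE cW cE
  have a2 := PCon_I1 k J l C₀ W E _ hQ' hW hE bW bE cW cE
  have b1 := PCon_IA k J C₀ W _ hφ hW bW cW
  have b2 := PCon_IA k J C₀ W _ hQ' hW bW cW
  have c1 := PCon_IB J C₀ W _ hφ hW bW cW
  have c2 := PCon_IB J C₀ W _ hQ' hW bW cW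
  have hD : ContinuousOn (fun t => Dt k φ (W t)) J := by
    unfold Dt
    exact (b1.mul c2).sub (b2.mul c1)
  have hM : ContinuousOn (fun t => max (Dt k φ (W t)) dd) J := hD.sup continuousOn_const
  have hne : ∀ t ∈ J, max (Dt k φ (W t)) dd ≠ 0 := fun t _ =>
    (lt_of_lt_of_le hc (le_max_right _ _)).ne'
  constructor
  · unfold wfn
    exact ((a1.mul c2).sub (a2.mul c1)).div hM hne
  · unfold nfn
    exact ((b1.mul a2).sub (b2.mul a1)).div hM hne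

end H72KC

end S_H72_KC_PCg

section S_H72_KB_DetR

/-!
# Row DetR: the determinant is close to `Det k Q = 2 d0 > 0`

`Det_Q`: `IA k Q Q = (2/k-1)|Q|² - ∫ y Q Q' = (2/k - 1)|Q|² + |Q|²/2 = -s_c |Q|²` (`∫ y Q Q' = -|Q|²/2` by parts),
`IB Q Q = ∫ Q Q' = 0`, `IA k Q Q' = (2/k-1)∫QQ' - ∫ y Q Q'' = 0` (odd integrand; or by parts), `IB Q Q' = ∫ Q Q'' = -|Q'|²`.
For `Det_Q` only `IA(Q)(Q)`, `IB(Q)(Q')`, `IB(Q)(Q)=0` are needed (the last kills the second product).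
`Det_low`: `Det` is a polynomial in the four linear functionals `W ↦ IA k W φ, IB W φ` (`φ = Q, Q'`), of the form
`∫ W ψ`, `|ψ y| ≤ C exp(-(3/4)|y|)` (`Q_cl`, `Cl_deriv`, `Cl_ymul`, `bd_le_exp`).  Cauchy-Schwarz:
`|∫ ε ψ| ≤ (∫ om ε²)^{1/2} (∫ ψ²/om)^{1/2} ≤ C √(Gn B ρ ε)`, because `om B ρ y ≥ 1/2` for `y ≥ 0` and, for `y ≤ 0`,
`Th ≥ (1/2) e^{y/B}`, `e^{2ρy} ≥ e^{y/(2B)}` (`4ρB ≤ 1`), so `om ≥ (1/2) e^{-|y|/8}` (`B ≥ 16`).
(`om ε²` is integrable since `ε ∈ Cl p q`, `p > ρ`, `q > 0`: `om ≤ e^{2ρy}` for `y ≥ 0`, `≤ 1` for `y ≤ 0`; and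
`∫ om ε² ≤ Gn`.)  So `|Det(Q+ε) - Det(Q)| ≤ C (√G + G)`, small if `G ≤ g`.
-/

open MeasureTheory Filter Topology Set
open scoped ContDiff

namespace H72KB

open H98KB

theorem DetR_cd {p q : ℝ} {f : ℝ → ℝ} (hf : Cl p q f) (y : ℝ) : HasDerivAt f (deriv f y) y :=
  ((hf.1.differentiable (by simp)) y).hasDerivAt

theorem Det_Q {k : ℕ} (hk : 5 ≤ k) : Det k (Qf k) = 2 * d0 k := by
  have hQ : Cl 1 1 (Qf k) := Q_cl (by omega)
  have hQ' : Cl 1 1 (deriv (Qf k)) := Cl_deriv hQ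
  have hyQ : Cl (1 / 2) (1 / 2) (fun y => y * Qf k y) := Cl_ymul (by norm_num) (by norm_num) hQ
  have hyQ' : Cl (1 / 2) (1 / 2) (fun y => y * deriv (Qf k) y) :=
    Cl_ymul (by norm_num) (by norm_num) hQ'
  have hB1 : IB (Qf k) (Qf k) = 0 := by
    have h := Cl_ibp (by norm_num) (by norm_num) hQ hQ
    have e : ∫ y, deriv (Qf k) y * Qf k y = ∫ y, Qf k y * deriv (Qf k) y :=
      integral_congr_ae (Eventually.of_forall fun y => mul_comm _ _)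
    unfold IB
    rw [e] at h
    linarith
  have hB2 : IB (Qf k) (deriv (Qf k)) = -∫ y, (deriv (Qf k) y) ^ 2 := by
    have h := Cl_ibp (by norm_num) (by norm_num) hQ' hQ
    have e : ∫ y, deriv (deriv (Qf k)) y * Qf k y = ∫ y, Qf k y * deriv (deriv (Qf k)) y :=
      integral_congr_ae (Eventually.of_forall fun y => mul_comm _ _)
    have e2 : ∫ y, deriv (Qf k) y * deriv (Qf k) y = ∫ y, (deriv (Qf k) y) ^ 2 :=
      integral_congr_ae (Eventually.of_forall fun y => (pow_two _).symm)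
    unfold IB
    rw [← e, h, e2]
  have i1 : Integrable (fun y => (Qf k y) ^ 2) := by
    have h := Cl_int (by norm_num) (by norm_num) (Cl_mul hQ hQ)
    refine h.congr (Eventually.of_forall fun y => ?_)
    exact (pow_two _).symm
  have i2 : Integrable (fun y => Qf k y * (y * deriv (Qf k) y)) :=
    Cl_int (by norm_num) (by norm_num) (Cl_mul hQ hyQ')
  have hy : 2 * ∫ y, Qf k y * (y * deriv (Qf k) y) = -∫ y, (Qf k y) ^ 2 := by
    have h := Cl_ibp (by norm_num) (by norm_num) hQ hyQ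
    have e1 : ∫ y, deriv (Qf k) y * (y * Qf k y) = ∫ y, Qf k y * (y * deriv (Qf k) y) :=
      integral_congr_ae (Eventually.of_forall fun y => by
        show deriv (Qf k) y * (y * Qf k y) = Qf k y * (y * deriv (Qf k) y)
        ring)
    have e2 : ∫ y, Qf k y * deriv (fun y => y * Qf k y) y =
        (∫ y, (Qf k y) ^ 2) + ∫ y, Qf k y * (y * deriv (Qf k) y) := by
      rw [← integral_add i1 i2]
      refine integral_congr_ae (Eventually.of_forall fun y => ?_)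
      have hd : deriv (fun y => y * Qf k y) y = Qf k y + y * deriv (Qf k) y := by
        have := ((hasDerivAt_id y).mul (DetR_cd hQ y)).deriv
        have e3 : (fun y => y * Qf k y) = id * Qf k := rfl
        rw [e3, this]
        simp
      show Qf k y * deriv (fun y => y * Qf k y) y = (Qf k y) ^ 2 + Qf k y * (y * deriv (Qf k) y)
      rw [hd]
      ring
    rw [e1, e2] at h
    linarith
  have hA : IA k (Qf k) (Qf k) = -(sc k * ∫ y, (Qf k y) ^ 2) := by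
    have e : IA k (Qf k) (Qf k) = (2 / (k : ℝ) - 1) * (∫ y, (Qf k y) ^ 2) -
        ∫ y, Qf k y * (y * deriv (Qf k) y) := by
      unfold IA
      rw [← integral_const_mul, ← integral_sub (i1.const_mul _) i2]
      refine integral_congr_ae (Eventually.of_forall fun y => ?_)
      show Qf k y * ((2 / (k : ℝ) - 1) * Qf k y - y * deriv (Qf k) y) =
        (2 / (k : ℝ) - 1) * (Qf k y) ^ 2 - Qf k y * (y * deriv (Qf k) y)
      ring
    rw [e]
    unfold sc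
    linarith
  unfold Det d0
  rw [hB1, hB2, hA]
  ring

theorem DetR_om {B ρ : ℝ} (h : Slow B ρ) (y : ℝ) :
    1 / 2 * Real.exp (-(1 / 8) * |y|) ≤ om B ρ y ∧ om B ρ y ≤ bd (-(2 * ρ)) 0 y := by
  obtain ⟨hB, hρ, hρB⟩ := h
  have hB0 : 0 < B := by linarith
  have hE := Real.exp_pos (-y / B)
  have hE2 := Real.exp_pos (2 * ρ * y)
  unfold om Th
  have e0 : 1 / (1 + Real.exp (-y / B)) * Real.exp (2 * ρ * y) =
      Real.exp (2 * ρ * y) / (1 + Real.exp (-y / B)) := one_div_mul_eq_div _ _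
  rw [e0]
  constructor
  · rw [le_div_iff₀ (by linarith)]
    rcases le_total 0 y with hy | hy
    · have h1 : Real.exp (-y / B) ≤ 1 := by
        rw [Real.exp_le_one_iff]
        exact div_nonpos_of_nonpos_of_nonneg (by linarith) hB0.le
      have h2 : 1 ≤ Real.exp (2 * ρ * y) := Real.one_le_exp (by positivity)
      have h3 : Real.exp (-(1 / 8) * |y|) ≤ 1 := by
        rw [Real.exp_le_one_iff]
        have := abs_nonneg y
        linarith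
      have h4 : 1 / 2 * Real.exp (-(1 / 8) * |y|) * (1 + Real.exp (-y / B)) ≤
          1 / 2 * 1 * (1 + 1) := by
        refine mul_le_mul ?_ (by linarith) (by linarith) (by norm_num)
        exact mul_le_mul_of_nonneg_left h3 (by norm_num)
      linarith
    · have h1 : 1 ≤ Real.exp (-y / B) := Real.one_le_exp (div_nonneg (by linarith) hB0.le)
      have h2 : 1 / 2 * Real.exp (-(1 / 8) * |y|) * (1 + Real.exp (-y / B)) ≤
          Real.exp (-(1 / 8) * |y|) * Real.exp (-y / B) := by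
        have h3 := Real.exp_pos (-(1 / 8) * |y|)
        nlinarith
      refine h2.trans ?_
      rw [← Real.exp_add, Real.exp_le_exp, abs_of_nonpos hy]
      have h5 : 1 / B ≤ 1 / 16 := one_div_le_one_div_of_le (by norm_num) hB
      have h6 : ρ ≤ 1 / 64 := by nlinarith
      have h7 : -y / B ≤ (-y) * (1 / 16) := by
        rw [div_eq_mul_one_div]
        exact mul_le_mul_of_nonneg_left h5 (by linarith)
      nlinarith
  · have h0 : Real.exp (2 * ρ * y) / (1 + Real.exp (-y / B)) ≤ Real.exp (2 * ρ * y) :=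
      div_le_self hE2.le (by linarith)
    refine h0.trans ?_
    unfold bd
    rw [Real.exp_le_exp]
    have h8 : y ≤ max y 0 := le_max_left _ _
    have h9 : 2 * ρ * y ≤ 2 * ρ * max y 0 := mul_le_mul_of_nonneg_left h8 (by linarith)
    linarith

theorem DetR_omc (B ρ : ℝ) : Continuous (om B ρ) := by
  unfold om Th
  refine Continuous.mul (continuous_const.div (by fun_prop) fun y => ?_) (by fun_prop)
  have := Real.exp_pos (-y / B)
  linarith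

theorem DetR_int {B ρ p q : ℝ} {ε : ℝ → ℝ} (h : Slow B ρ) (ha : Adm ρ p q ε) :
    Integrable (fun y => om B ρ y * ((ε y) ^ 2 + (deriv ε y) ^ 2)) := by
  obtain ⟨h1, h2, h3, h4, h5⟩ := ha
  obtain ⟨C, hC0, hC⟩ := ClC_abs h5
  obtain ⟨D, hD0, hD⟩ := ClC_abs (Cl_deriv h5)
  have hi : Integrable (fun y => (C ^ 2 + D ^ 2) * bd (2 * p - 2 * ρ) (2 * q) y) :=
    (bd_int (by linarith) (by linarith)).const_mul _
  refine hi.mono' ?_ (Eventually.of_forall fun y => ?_)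
  · exact ((DetR_omc B ρ).mul ((h5.1.continuous.pow 2).add
      ((Cl_deriv h5).1.continuous.pow 2))).aestronglyMeasurable
  · have ho : 0 ≤ om B ρ y := by
      have := (DetR_om h y).1
      have := Real.exp_pos (-(1 / 8) * |y|)
      linarith
    rw [Real.norm_eq_abs, abs_of_nonneg (mul_nonneg ho (by positivity))]
    have e1 : (ε y) ^ 2 ≤ C ^ 2 * bd (p + p) (q + q) y := by
      rw [← bd_mul, ← sq_abs]
      calc |ε y| ^ 2 ≤ (C * bd p q y) ^ 2 := pow_le_pow_left₀ (abs_nonneg _) (hC y) 2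
        _ = C ^ 2 * (bd p q y * bd p q y) := by ring
    have e2 : (deriv ε y) ^ 2 ≤ D ^ 2 * bd (p + p) (q + q) y := by
      rw [← bd_mul, ← sq_abs]
      calc |deriv ε y| ^ 2 ≤ (D * bd p q y) ^ 2 := pow_le_pow_left₀ (abs_nonneg _) (hD y) 2
        _ = D ^ 2 * (bd p q y * bd p q y) := by ring
    have e3 : bd (-(2 * ρ)) 0 y * bd (p + p) (q + q) y = bd (2 * p - 2 * ρ) (2 * q) y := by
      rw [bd_mul]
      congr 1 <;> ring
    calc om B ρ y * ((ε y) ^ 2 + (deriv ε y) ^ 2)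
        ≤ bd (-(2 * ρ)) 0 y * (C ^ 2 * bd (p + p) (q + q) y + D ^ 2 * bd (p + p) (q + q) y) :=
          mul_le_mul (DetR_om h y).2 (add_le_add e1 e2) (by positivity) (bd_pos _ _ _).le
      _ = (C ^ 2 + D ^ 2) * (bd (-(2 * ρ)) 0 y * bd (p + p) (q + q) y) := by ring
      _ = (C ^ 2 + D ^ 2) * bd (2 * p - 2 * ρ) (2 * q) y := by rw [e3]

theorem DetR_bd (a y : ℝ) : bd a a y = Real.exp (-a * |y|) := by
  unfold bd
  rw [← ClA_abs y]
  congr 1
  ring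

/-- pairing with a rapidly decreasing function is controlled by `Gn` -/
theorem ip_Gn (C : ℝ) : ∃ C₁ : ℝ, 0 ≤ C₁ ∧ ∀ (B ρ p q : ℝ) (ε ψ : ℝ → ℝ), Slow B ρ →
    Adm ρ p q ε → Continuous ψ → (∀ y, |ψ y| ≤ C * Real.exp (-(1 / 4) * |y|)) →
    |∫ y, ε y * ψ y| ≤ C₁ * √(Gn B ρ ε) := by
  refine ⟨√(∫ y, 2 * C ^ 2 * bd (3 / 8) (3 / 8) y), Real.sqrt_nonneg _, ?_⟩
  intro B ρ p q ε ψ hS hA hψ hb
  have hA' := hA
  obtain ⟨h1, h2, h3, h4, h5⟩ := hA'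
  have hρ : 0 < ρ := hS.2.1
  have hbd : ∀ y, |ψ y| ≤ |C| := by
    intro y
    refine (hb y).trans ?_
    have hE : Real.exp (-(1 / 4) * |y|) ≤ 1 := by
      rw [Real.exp_le_one_iff]
      have := abs_nonneg y
      linarith
    have hE0 := Real.exp_pos (-(1 / 4) * |y|)
    calc C * Real.exp (-(1 / 4) * |y|) ≤ |C| * Real.exp (-(1 / 4) * |y|) :=
          mul_le_mul_of_nonneg_right (le_abs_self C) hE0.le
      _ ≤ |C| * 1 := mul_le_mul_of_nonneg_left hE (abs_nonneg C)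
      _ = |C| := mul_one _
  have iεψ : Integrable (fun y => ε y * ψ y) :=
    Cl_int_mul (by linarith) h3 h5 hψ |C| hbd
  have iG := DetR_int hS hA
  have iK : Integrable (fun y => 2 * C ^ 2 * bd (3 / 8) (3 / 8) y) :=
    (bd_int (by norm_num) (by norm_num)).const_mul _
  have hpt : ∀ (s y : ℝ), 2 * s * (ε y * ψ y) ≤
      s * s * (om B ρ y * ((ε y) ^ 2 + (deriv ε y) ^ 2)) + 2 * C ^ 2 * bd (3 / 8) (3 / 8) y := by
    intro s y
    have ho := (DetR_om hS y).1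
    have hE := Real.exp_pos (-(1 / 8) * |y|)
    have ho0 : 0 < om B ρ y := by linarith
    have hψ2 : (ψ y) ^ 2 ≤ 2 * C ^ 2 * bd (3 / 8) (3 / 8) y * om B ρ y := by
      have a1 : (ψ y) ^ 2 ≤ C ^ 2 * Real.exp (-(1 / 2) * |y|) := by
        rw [← sq_abs (ψ y)]
        calc |ψ y| ^ 2 ≤ (C * Real.exp (-(1 / 4) * |y|)) ^ 2 :=
              pow_le_pow_left₀ (abs_nonneg _) (hb y) 2
          _ = C ^ 2 * (Real.exp (-(1 / 4) * |y|) * Real.exp (-(1 / 4) * |y|)) := by ring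
          _ = C ^ 2 * Real.exp (-(1 / 2) * |y|) := by
              rw [← Real.exp_add]
              congr 2
              ring
      have a2 : Real.exp (-(1 / 2) * |y|) = bd (3 / 8) (3 / 8) y * Real.exp (-(1 / 8) * |y|) := by
        rw [DetR_bd, ← Real.exp_add]
        congr 1
        ring
      rw [a2] at a1
      have a3 : 0 ≤ 2 * C ^ 2 * bd (3 / 8) (3 / 8) y := by
        have := bd_pos (3 / 8) (3 / 8) y
        positivity
      have a4 := mul_le_mul_of_nonneg_left ho a3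
      linarith
    have hsq : 0 ≤ (s * om B ρ y * ε y - ψ y) ^ 2 := sq_nonneg _
    have hd2 : 0 ≤ s * s * om B ρ y * (om B ρ y * (deriv ε y) ^ 2) := by
      have : 0 ≤ s * s := mul_self_nonneg s
      positivity
    have hmul : 0 ≤ om B ρ y * (s * s * (om B ρ y * ((ε y) ^ 2 + (deriv ε y) ^ 2)) +
        2 * C ^ 2 * bd (3 / 8) (3 / 8) y - 2 * s * (ε y * ψ y)) := by
      nlinarith [hsq, hd2, hψ2]
    have := (mul_nonneg_iff_of_pos_left ho0).1 hmul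
    linarith
  have hall : ∀ s : ℝ, 0 ≤ Gn B ρ ε * (s * s) + (-(2 * ∫ y, ε y * ψ y)) * s +
      ∫ y, 2 * C ^ 2 * bd (3 / 8) (3 / 8) y := by
    intro s
    have h6 : ∫ y, 2 * s * (ε y * ψ y) ≤ ∫ y, (s * s * (om B ρ y * ((ε y) ^ 2 + (deriv ε y) ^ 2)) +
        2 * C ^ 2 * bd (3 / 8) (3 / 8) y) :=
      integral_mono (iεψ.const_mul _) ((iG.const_mul _).add iK) (hpt s)
    rw [integral_add (iG.const_mul _) iK, integral_const_mul, integral_const_mul] at h6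
    unfold Gn
    linarith
  have hdis := discrim_le_zero hall
  unfold discrim at hdis
  have hfin : (∫ y, ε y * ψ y) ^ 2 ≤ (∫ y, 2 * C ^ 2 * bd (3 / 8) (3 / 8) y) * Gn B ρ ε := by
    nlinarith [hdis]
  have hK0 : 0 ≤ ∫ y, 2 * C ^ 2 * bd (3 / 8) (3 / 8) y := integral_nonneg fun y => by
    have := bd_pos (3 / 8) (3 / 8) y
    show 0 ≤ 2 * C ^ 2 * bd (3 / 8) (3 / 8) y
    positivity
  rw [← Real.sqrt_mul hK0]
  exact Real.abs_le_sqrt hfin

theorem DetR_psi {ψ : ℝ → ℝ} (hψ : Cl (1 / 2) (1 / 2) ψ) : ∃ C₁ : ℝ, 0 ≤ C₁ ∧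
    ∀ (B ρ p q : ℝ) (ε : ℝ → ℝ), Slow B ρ → Adm ρ p q ε →
      |∫ y, ε y * ψ y| ≤ C₁ * √(Gn B ρ ε) := by
  obtain ⟨C, hC0, hC⟩ := ClC_abs hψ
  obtain ⟨C₁, h0, h⟩ := ip_Gn C
  refine ⟨C₁, h0, fun B ρ p q ε hS hA => h B ρ p q ε ψ hS hA hψ.1.continuous fun y => ?_⟩
  refine (hC y).trans (mul_le_mul_of_nonneg_left ?_ hC0)
  rw [DetR_bd, Real.exp_le_exp]
  have := abs_nonneg y
  linarith

theorem DetR_wA {k : ℕ} {φ : ℝ → ℝ} (hφ : Cl 1 1 φ) :
    Cl (1 / 2) (1 / 2) (fun y => (2 / (k : ℝ) - 1) * φ y - y * deriv φ y) :=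
  Cl_sub (Cl_smul _ (Cl_mono (by norm_num) (by norm_num) hφ))
    (Cl_ymul (by norm_num) (by norm_num) (Cl_deriv hφ))

theorem DetR_add {p q p' q' : ℝ} {f g ψ : ℝ → ℝ} (hp : 0 < p) (hq : 0 < q) (hp' : 0 < p')
    (hq' : 0 < q') (hf : Cl p q f) (hg : Cl p' q' g) (hψ : Cl (1 / 2) (1 / 2) ψ) :
    ∫ y, (f y + g y) * ψ y = (∫ y, f y * ψ y) + ∫ y, g y * ψ y := by
  obtain ⟨C, hC⟩ := Cl_bdd (by norm_num) (by norm_num) hψ
  rw [← integral_add (Cl_int_mul hp hq hf hψ.1.continuous C hC)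
    (Cl_int_mul hp' hq' hg hψ.1.continuous C hC)]
  refine integral_congr_ae (Eventually.of_forall fun y => ?_)
  exact add_mul _ _ _

theorem DetR_d0 {k : ℕ} (hk : 5 ≤ k) : 0 < d0 k := by
  unfold d0
  have h1 := (sc_pos hk).1
  have h2 := Qsq_pos (k := k) (by omega)
  have h3 := Q'sq_pos (k := k) (by omega)
  positivity

theorem DetR_alg {d M c r a1 a2 b1 b2 e1 e2 f1 f2 : ℝ} (hM : 0 ≤ M) (hc : 0 ≤ c) (hr : 0 ≤ r)
    (hr1 : r ≤ 1) (hS : (4 * M * c + 2 * c ^ 2) * r < d)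
    (ha1 : |a1| ≤ M) (ha2 : |a2| ≤ M) (hb1 : |b1| ≤ M) (hb2 : |b2| ≤ M)
    (he1 : |e1| ≤ c * r) (he2 : |e2| ≤ c * r) (hf1 : |f1| ≤ c * r) (hf2 : |f2| ≤ c * r)
    (hD : a1 * b2 - a2 * b1 = 2 * d) :
    d < (a1 + e1) * (b2 + f2) - (a2 + e2) * (b1 + f1) := by
  have key : ∀ x y X Y : ℝ, |x| ≤ X → |y| ≤ Y → |x * y| ≤ X * Y := by
    intro x y X Y hx hy
    rw [abs_mul]
    exact mul_le_mul hx hy (abs_nonneg _) ((abs_nonneg _).trans hx)
  have k1 := abs_le.1 (key _ _ _ _ ha1 hf2)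
  have k2 := abs_le.1 (key _ _ _ _ he1 hb2)
  have k3 := abs_le.1 (key _ _ _ _ he1 hf2)
  have k4 := abs_le.1 (key _ _ _ _ ha2 hf1)
  have k5 := abs_le.1 (key _ _ _ _ he2 hb1)
  have k6 := abs_le.1 (key _ _ _ _ he2 hf1)
  have hrr : (c * r) * (c * r) ≤ c ^ 2 * r := by
    have : r * r ≤ r * 1 := mul_le_mul_of_nonneg_left hr1 hr
    nlinarith [sq_nonneg c]
  have e : (a1 + e1) * (b2 + f2) - (a2 + e2) * (b1 + f1) = 2 * d + a1 * f2 + e1 * b2 + e1 * f2 -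
      a2 * f1 - e2 * b1 - e2 * f1 := by
    rw [← hD]
    ring
  rw [e]
  nlinarith [k1.1, k2.1, k3.1, k4.2, k5.2, k6.2, hrr, hS]

theorem Det_low {k : ℕ} (hk : 5 ≤ k) : ∃ g : ℝ, 0 < g ∧ ∀ (B ρ p q : ℝ) (ε : ℝ → ℝ),
    Slow B ρ → Adm ρ p q ε → Gn B ρ ε ≤ g → d0 k < Det k (fun y => Qf k y + ε y) := by
  have hQ : Cl 1 1 (Qf k) := Q_cl (by omega)
  have hQ' : Cl 1 1 (deriv (Qf k)) := Cl_deriv hQ
  have w1 := DetR_wA (k := k) hQ
  have w2 := DetR_wA (k := k) hQ'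
  have w3 : Cl (1 / 2) (1 / 2) (deriv (Qf k)) := Cl_mono (by norm_num) (by norm_num) hQ'
  have w4 : Cl (1 / 2) (1 / 2) (deriv (deriv (Qf k))) :=
    Cl_mono (by norm_num) (by norm_num) (Cl_deriv hQ')
  obtain ⟨c1, c10, hc1⟩ := DetR_psi w1
  obtain ⟨c2, c20, hc2⟩ := DetR_psi w2
  obtain ⟨c3, c30, hc3⟩ := DetR_psi w3
  obtain ⟨c4, c40, hc4⟩ := DetR_psi w4
  have hd := DetR_d0 hk
  let c : ℝ := c1 + c2 + c3 + c4
  let M : ℝ := |IA k (Qf k) (Qf k)| + |IA k (Qf k) (deriv (Qf k))| + |IB (Qf k) (Qf k)| +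
    |IB (Qf k) (deriv (Qf k))|
  have hc0 : 0 ≤ c := by positivity
  have hM0 : 0 ≤ M := by positivity
  let S : ℝ := 4 * M * c + 2 * c ^ 2 + 1
  have hS0 : 0 < S := by positivity
  let r0 : ℝ := min 1 (d0 k / (2 * S))
  have hr0 : 0 < r0 := lt_min one_pos (by positivity)
  refine ⟨r0 ^ 2, by positivity, ?_⟩
  intro B ρ p q ε hSl hA hG
  have hr : √(Gn B ρ ε) ≤ r0 := by
    rw [← Real.sqrt_sq hr0.le]
    exact Real.sqrt_le_sqrt hG
  have hrn : 0 ≤ √(Gn B ρ ε) := Real.sqrt_nonneg _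
  have hr1 : √(Gn B ρ ε) ≤ 1 := hr.trans (min_le_left _ _)
  have hr2 : √(Gn B ρ ε) ≤ d0 k / (2 * S) := hr.trans (min_le_right _ _)
  have hA' := hA
  obtain ⟨g1, g2, g3, g4, g5⟩ := hA'
  have hp : 0 < p := by
    have := hSl.2.1
    linarith
  have hsmall : (4 * M * c + 2 * c ^ 2) * √(Gn B ρ ε) < d0 k := by
    have h1 : (4 * M * c + 2 * c ^ 2) * √(Gn B ρ ε) ≤ S * √(Gn B ρ ε) := by
      refine mul_le_mul_of_nonneg_right ?_ hrn
      show 4 * M * c + 2 * c ^ 2 ≤ 4 * M * c + 2 * c ^ 2 + 1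
      linarith
    have h2 : S * √(Gn B ρ ε) ≤ S * (d0 k / (2 * S)) := mul_le_mul_of_nonneg_left hr2 hS0.le
    have h3 : S * (d0 k / (2 * S)) = d0 k / 2 := by
      field_simp
    linarith
  have hcc : ∀ ci : ℝ, 0 ≤ ci → ci ≤ c → ∀ z : ℝ, |z| ≤ ci * √(Gn B ρ ε) →
      |z| ≤ c * √(Gn B ρ ε) := by
    intro ci _ hle z hz
    exact hz.trans (mul_le_mul_of_nonneg_right hle hrn)
  have a1 : IA k (fun y => Qf k y + ε y) (Qf k) = IA k (Qf k) (Qf k) + IA k ε (Qf k) :=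
    DetR_add one_pos one_pos hp g3 hQ g5 w1
  have a2 : IA k (fun y => Qf k y + ε y) (deriv (Qf k)) =
      IA k (Qf k) (deriv (Qf k)) + IA k ε (deriv (Qf k)) :=
    DetR_add one_pos one_pos hp g3 hQ g5 w2
  have a3 : IB (fun y => Qf k y + ε y) (Qf k) = IB (Qf k) (Qf k) + IB ε (Qf k) :=
    DetR_add one_pos one_pos hp g3 hQ g5 w3
  have a4 : IB (fun y => Qf k y + ε y) (deriv (Qf k)) =
      IB (Qf k) (deriv (Qf k)) + IB ε (deriv (Qf k)) :=
    DetR_add one_pos one_pos hp g3 hQ g5 w4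
  have hDQ := Det_Q hk
  unfold Det at hDQ ⊢
  rw [a1, a2, a3, a4]
  have n1 := abs_nonneg (IA k (Qf k) (Qf k))
  have n2 := abs_nonneg (IA k (Qf k) (deriv (Qf k)))
  have n3 := abs_nonneg (IB (Qf k) (Qf k))
  have n4 := abs_nonneg (IB (Qf k) (deriv (Qf k)))
  refine DetR_alg (M := M) (c := c) (r := √(Gn B ρ ε)) hM0 hc0 hrn hr1 hsmall ?_ ?_ ?_ ?_
    (hcc c1 c10 ?_ _ (hc1 B ρ p q ε hSl hA)) (hcc c2 c20 ?_ _ (hc2 B ρ p q ε hSl hA))
    (hcc c3 c30 ?_ _ (hc3 B ρ p q ε hSl hA)) (hcc c4 c40 ?_ _ (hc4 B ρ p q ε hSl hA)) hDQ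
  · show |IA k (Qf k) (Qf k)| ≤ |IA k (Qf k) (Qf k)| + |IA k (Qf k) (deriv (Qf k))| +
      |IB (Qf k) (Qf k)| + |IB (Qf k) (deriv (Qf k))|
    linarith
  · show |IA k (Qf k) (deriv (Qf k))| ≤ |IA k (Qf k) (Qf k)| + |IA k (Qf k) (deriv (Qf k))| +
      |IB (Qf k) (Qf k)| + |IB (Qf k) (deriv (Qf k))|
    linarith
  · show |IB (Qf k) (Qf k)| ≤ |IA k (Qf k) (Qf k)| + |IA k (Qf k) (deriv (Qf k))| +
      |IB (Qf k) (Qf k)| + |IB (Qf k) (deriv (Qf k))|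
    linarith
  · show |IB (Qf k) (deriv (Qf k))| ≤ |IA k (Qf k) (Qf k)| + |IA k (Qf k) (deriv (Qf k))| +
      |IB (Qf k) (Qf k)| + |IB (Qf k) (deriv (Qf k))|
    linarith
  · show c1 ≤ c1 + c2 + c3 + c4
    linarith
  · show c2 ≤ c1 + c2 + c3 + c4
    linarith
  · show c3 ≤ c1 + c2 + c3 + c4
    linarith
  · show c4 ≤ c1 + c2 + c3 + c4
    linarith

end H72KB

end S_H72_KB_DetR

section S_H72_KB_PairR

/-!
# Row PairR: the pairing formula `(ζ, φ) = I1 - b IA - m IB` and solution of the modulation system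

Proof of `zeta_ip`.  Put `W = Q + ε ∈ Cl p q` (`Q_cl`, `Cl_mono`).  `gf k ε = -ε'' + ε - (fl k W - fl k Q) = -W'' + W - fl k W`
because `Q'' = Q - fl k Q` (`Q_ode`).  So
 `zeta = -W''' + W' - (fl k W)' - b ((2/k) W + y W') + m W' + l W'' - e'`.
Pair with `φ ∈ Cl 1 1` and integrate by parts (`Cl_ibp`; all functions are in `Cl p' q'` with positive exponents:
`fl k W ∈ Cl p q` (`Cl_pow`, `Cl_smul`), `y φ ∈ Cl (1/2) (1/2)` (`Cl_ymul`)):
 `-∫ W''' φ = ∫ W φ'''`, `∫ W' φ = -∫ W φ'`, `-∫ (fl W)' φ = ∫ fl W φ'`, `∫ W'' φ = ∫ W φ''`, `-∫ e' φ = ∫ e φ'`,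
 `∫ y W' φ = -∫ W (φ + y φ')`.
All separate integrals exist (`Cl_int`, `Cl_mul`), so the integrals may be split and recombined
(`integral_add`, `integral_sub`, `integral_const_mul`).  `iteratedDeriv 2 f = deriv (deriv f)` etc.

`orth_of_det`: with `φ = Q` and `φ = Q'` (`Cl_deriv`) the two equations of `Orth` read
`b IA(Q) + m IB(Q) = I1(Q)`, `b IA(Q') + m IB(Q') = I1(Q')`; since `Det > d0`, `max Det d0 = Det > 0` and
`bfn`, `mfn` are the Cramer solutions (`field_simp; ring`).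
-/

open MeasureTheory Filter Topology Set
open scoped ContDiff

namespace H72KB

open H98KB

/-- integrable with integral `I` -/
def PairR_HI (f : ℝ → ℝ) (I : ℝ) : Prop := Integrable f ∧ ∫ y, f y = I

theorem PairR_add {f g : ℝ → ℝ} {I J : ℝ} (hf : PairR_HI f I) (hg : PairR_HI g J) :
    PairR_HI (fun y => f y + g y) (I + J) :=
  ⟨hf.1.add hg.1, by rw [integral_add hf.1 hg.1, hf.2, hg.2]⟩

theorem PairR_sub {f g : ℝ → ℝ} {I J : ℝ} (hf : PairR_HI f I) (hg : PairR_HI g J) :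
    PairR_HI (fun y => f y - g y) (I - J) :=
  ⟨hf.1.sub hg.1, by rw [integral_sub hf.1 hg.1, hf.2, hg.2]⟩

theorem PairR_smul {f : ℝ → ℝ} {I : ℝ} (c : ℝ) (hf : PairR_HI f I) :
    PairR_HI (fun y => c * f y) (c * I) :=
  ⟨hf.1.const_mul c, by rw [integral_const_mul, hf.2]⟩

theorem PairR_congr {f g : ℝ → ℝ} {I : ℝ} (hf : PairR_HI f I) (h : ∀ y, g y = f y) :
    PairR_HI g I := by
  have e : g = f := funext h
  rw [e]
  exact hf

theorem PairR_of {p q p' q' : ℝ} {f g : ℝ → ℝ} (hp : 0 < p + p') (hq : 0 < q + q')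
    (hf : Cl p q f) (hg : Cl p' q' g) : PairR_HI (fun y => f y * g y) (∫ y, f y * g y) :=
  ⟨Cl_int hp hq (Cl_mul hf hg), rfl⟩

theorem PairR_ibp {p q p' q' : ℝ} {f g : ℝ → ℝ} (hp : 0 < p + p') (hq : 0 < q + q')
    (hf : Cl p q f) (hg : Cl p' q' g) :
    PairR_HI (fun y => deriv f y * g y) (-∫ y, f y * deriv g y) :=
  ⟨Cl_int hp hq (Cl_mul (Cl_deriv hf) hg), Cl_ibp hp hq hf hg⟩

theorem PairR_der {p q : ℝ} {f : ℝ → ℝ} (hf : Cl p q f) (y : ℝ) : HasDerivAt f (deriv f y) y :=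
  ((hf.1.differentiable (by simp)) y).hasDerivAt

theorem PairR_W {p q : ℝ} {f g : ℝ → ℝ} (hf : Cl p q f) (hg : Cl p q g) :
    deriv (fun y => f y + g y) = fun y => deriv f y + deriv g y := by
  funext y
  exact ((PairR_der hf y).add (PairR_der hg y)).deriv

theorem PairR_y {p q : ℝ} {f : ℝ → ℝ} (hf : Cl p q f) :
    deriv (fun y => y * f y) = fun y => f y + y * deriv f y := by
  funext y
  have h := ((hasDerivAt_id y).mul (PairR_der hf y)).deriv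
  have e : (fun y => y * f y) = id * f := rfl
  rw [e, h]
  simp

theorem PairR_fl {k : ℕ} {p q : ℝ} {f : ℝ → ℝ} (hp : 0 ≤ p) (hq : 0 ≤ q) (hf : Cl p q f) :
    Cl p q (fun y => fl k (f y)) := by
  have h := Cl_smul (1 / ((k : ℝ) + 1)) (Cl_pow hp hq hf (k + 1) (by omega))
  have e : (fun y => fl k (f y)) = fun y => 1 / ((k : ℝ) + 1) * f y ^ (k + 1) := by
    funext y
    unfold fl
    ring
  rw [e]
  exact h

/-- the formula for `zeta` in terms of `W = Q + ε` -/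
theorem PairR_zeta {k : ℕ} (hk : 1 ≤ k) {p q : ℝ} (hp : 0 < p) (hq : 0 < q) (hp1 : p ≤ 1)
    (hq1 : q ≤ 1) {ε e : ℝ → ℝ} (hε : Cl p q ε) (b m l : ℝ) (y : ℝ) :
    zeta k b m l ε e y =
      -deriv (deriv (deriv (fun y => Qf k y + ε y))) y + deriv (fun y => Qf k y + ε y) y
      - deriv (fun y => fl k (Qf k y + ε y)) y
      - b * (2 / (k : ℝ) * (Qf k y + ε y) + y * deriv (fun y => Qf k y + ε y) y)
      + m * deriv (fun y => Qf k y + ε y) y + l * deriv (deriv (fun y => Qf k y + ε y)) y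
      - deriv e y := by
  have hQ : Cl p q (Qf k) := Cl_mono hp1 hq1 (Q_cl hk)
  have hQ1 := Cl_deriv hQ
  have hQ2 := Cl_deriv hQ1
  have hε1 := Cl_deriv hε
  have hε2 := Cl_deriv hε1
  have hW : Cl p q (fun y => Qf k y + ε y) := Cl_add hQ hε
  have d1 : deriv (fun y => Qf k y + ε y) = fun y => deriv (Qf k) y + deriv ε y := PairR_W hQ hε
  have d2 : deriv (deriv (fun y => Qf k y + ε y)) =
      fun y => deriv (deriv (Qf k)) y + deriv (deriv ε) y := by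
    rw [d1]
    exact PairR_W hQ1 hε1
  have hW1 := Cl_deriv hW
  have hW2 := Cl_deriv hW1
  have hF : Cl p q (fun y => fl k (Qf k y + ε y)) := PairR_fl hp.le hq.le hW
  have hg : gf k ε = fun y => -deriv (deriv (fun y => Qf k y + ε y)) y + (Qf k y + ε y) -
      fl k (Qf k y + ε y) := by
    funext z
    have h1 := Q_ode hk z
    have h2 := congrFun d2 z
    rw [h2]
    unfold gf Df
    rw [h1]
    ring
  have hgd : deriv (gf k ε) y = -deriv (deriv (deriv (fun y => Qf k y + ε y))) y +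
      deriv (fun y => Qf k y + ε y) y - deriv (fun y => fl k (Qf k y + ε y)) y := by
    rw [hg]
    exact ((((PairR_der hW2 y).neg).add (PairR_der hW y)).sub (PairR_der hF y)).deriv
  unfold zeta
  rw [hgd]
  have h3 := congrFun d1 y
  have h4 := congrFun d2 y
  have hN : Nf k b m l ε y =
      -(b * (2 / (k : ℝ) * (Qf k y + ε y) + y * deriv (fun y => Qf k y + ε y) y))
      + m * deriv (fun y => Qf k y + ε y) y + l * deriv (deriv (fun y => Qf k y + ε y)) y := by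
    rw [h3, h4]
    unfold Nf Lam
    ring
  rw [hN]
  ring

theorem zeta_ip {k : ℕ} (hk : 1 ≤ k) {p q : ℝ} (hp : 0 < p) (hq : 0 < q) (hp1 : p ≤ 1)
    (hq1 : q ≤ 1) {ε e : ℝ → ℝ} (hε : Cl p q ε) (he : Cl p q e) (b m l : ℝ) {φ : ℝ → ℝ}
    (hφ : Cl 1 1 φ) :
    ip (zeta k b m l ε e) φ = I1 k l (fun y => Qf k y + ε y) e φ
      - b * IA k (fun y => Qf k y + ε y) φ - m * IB (fun y => Qf k y + ε y) φ := by
  have hQ : Cl p q (Qf k) := Cl_mono hp1 hq1 (Q_cl hk)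
  obtain ⟨W, hWd⟩ : ∃ W : ℝ → ℝ, W = fun y => Qf k y + ε y := ⟨_, rfl⟩
  obtain ⟨F, hFd⟩ : ∃ F : ℝ → ℝ, F = fun y => fl k (Qf k y + ε y) := ⟨_, rfl⟩
  have hW : Cl p q W := by
    rw [hWd]
    exact Cl_add hQ hε
  have hF : Cl p q F := by
    rw [hFd]
    exact PairR_fl hp.le hq.le (Cl_add hQ hε)
  have hz : ∀ y, zeta k b m l ε e y = -deriv (deriv (deriv W)) y + deriv W y - deriv F y
      - b * (2 / (k : ℝ) * W y + y * deriv W y) + m * deriv W y + l * deriv (deriv W) y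
      - deriv e y := by
    intro y
    have h := PairR_zeta hk hp hq hp1 hq1 (e := e) hε b m l y
    rw [h, hWd, hFd]
  have hFW : ∀ y, F y = fl k (W y) := fun y => by rw [hFd, hWd]
  have hyφ : Cl (1 / 2) (1 / 2) (fun y => y * φ y) := Cl_ymul (by norm_num) (by norm_num) hφ
  have hφ1 := Cl_deriv hφ
  have hφ2 := Cl_deriv hφ1
  have hφ3 := Cl_deriv hφ2
  have hyφ1 : Cl (1 / 2) (1 / 2) (fun y => y * deriv φ y) :=
    Cl_ymul (by norm_num) (by norm_num) hφ1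
  have hW1 := Cl_deriv hW
  have hW2 := Cl_deriv hW1
  have q1 : 0 < p + 1 := by linarith
  have q2 : 0 < q + 1 := by linarith
  have q3 : 0 < p + 1 / 2 := by linarith
  have q4 : 0 < q + 1 / 2 := by linarith
  -- integrals
  have jA : PairR_HI (fun y => W y * φ y) (∫ y, W y * φ y) := PairR_of q1 q2 hW hφ
  have jB : PairR_HI (fun y => W y * deriv φ y) (∫ y, W y * deriv φ y) := PairR_of q1 q2 hW hφ1
  have jC : PairR_HI (fun y => W y * deriv (deriv φ) y) (∫ y, W y * deriv (deriv φ) y) :=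
    PairR_of q1 q2 hW hφ2
  have jD : PairR_HI (fun y => W y * deriv (deriv (deriv φ)) y)
      (∫ y, W y * deriv (deriv (deriv φ)) y) := PairR_of q1 q2 hW hφ3
  have jE : PairR_HI (fun y => W y * (y * deriv φ y)) (∫ y, W y * (y * deriv φ y)) :=
    PairR_of q3 q4 hW hyφ1
  have jF : PairR_HI (fun y => F y * deriv φ y) (∫ y, F y * deriv φ y) := PairR_of q1 q2 hF hφ1
  have je : PairR_HI (fun y => e y * deriv φ y) (∫ y, e y * deriv φ y) := PairR_of q1 q2 he hφ1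
  -- integrations by parts
  have k1 : PairR_HI (fun y => deriv W y * φ y) (-∫ y, W y * deriv φ y) := PairR_ibp q1 q2 hW hφ
  have k2 : PairR_HI (fun y => deriv (deriv W) y * φ y) (∫ y, W y * deriv (deriv φ) y) := by
    have h1 := PairR_ibp q1 q2 hW1 hφ
    have h2 := PairR_ibp q1 q2 hW hφ1
    rw [h2.2, neg_neg] at h1
    exact h1
  have k3 : PairR_HI (fun y => deriv (deriv (deriv W)) y * φ y)
      (-∫ y, W y * deriv (deriv (deriv φ)) y) := by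
    have h1 := PairR_ibp q1 q2 hW2 hφ
    have h2 := PairR_ibp q1 q2 hW1 hφ1
    have h3 := PairR_ibp q1 q2 hW hφ2
    rw [h2.2, neg_neg, h3.2] at h1
    exact h1
  have kF : PairR_HI (fun y => deriv F y * φ y) (-∫ y, F y * deriv φ y) := PairR_ibp q1 q2 hF hφ
  have ke : PairR_HI (fun y => deriv e y * φ y) (-∫ y, e y * deriv φ y) := PairR_ibp q1 q2 he hφ
  have kY : PairR_HI (fun y => deriv W y * (y * φ y))
      (-((∫ y, W y * φ y) + ∫ y, W y * (y * deriv φ y))) := by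
    have h1 := PairR_ibp q3 q4 hW hyφ
    have h2 : ∫ y, W y * deriv (fun y => y * φ y) y =
        (∫ y, W y * φ y) + ∫ y, W y * (y * deriv φ y) := by
      have h3 := PairR_add jA jE
      rw [← h3.2]
      refine integral_congr_ae (Eventually.of_forall fun y => ?_)
      have h4 := congrFun (PairR_y hφ) y
      show W y * deriv (fun y => y * φ y) y = W y * φ y + W y * (y * deriv φ y)
      rw [h4]
      ring
    rw [h2] at h1
    exact h1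
  -- the left side
  have hL : PairR_HI (fun y => zeta k b m l ε e y * φ y)
      (-1 * (-∫ y, W y * deriv (deriv (deriv φ)) y) + (-∫ y, W y * deriv φ y)
        - (-∫ y, F y * deriv φ y)
        - (b * (2 / (k : ℝ)) * (∫ y, W y * φ y)
          + b * (-((∫ y, W y * φ y) + ∫ y, W y * (y * deriv φ y))))
        + m * (-∫ y, W y * deriv φ y) + l * (∫ y, W y * deriv (deriv φ) y)
        - (-∫ y, e y * deriv φ y)) := by
    refine PairR_congr (PairR_sub (PairR_add (PairR_add (PairR_sub (PairR_sub (PairR_add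
      (PairR_smul (-1) k3) k1) kF) (PairR_add (PairR_smul (b * (2 / (k : ℝ))) jA)
        (PairR_smul b kY))) (PairR_smul m k1)) (PairR_smul l k2)) ke) fun y => ?_
    rw [hz]
    ring
  have i2 : iteratedDeriv 2 φ = deriv (deriv φ) := by
    simp only [iteratedDeriv_succ, iteratedDeriv_zero]
  have i3 : iteratedDeriv 3 φ = deriv (deriv (deriv φ)) := by
    simp only [iteratedDeriv_succ, iteratedDeriv_zero]
  have hI1 : PairR_HI (fun y => W y * (iteratedDeriv 3 φ y - deriv φ y + l * iteratedDeriv 2 φ y)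
      + fl k (W y) * deriv φ y + e y * deriv φ y)
      ((∫ y, W y * deriv (deriv (deriv φ)) y) - (∫ y, W y * deriv φ y)
        + l * (∫ y, W y * deriv (deriv φ) y) + (∫ y, F y * deriv φ y)
        + ∫ y, e y * deriv φ y) := by
    refine PairR_congr (PairR_add (PairR_add (PairR_add (PairR_sub jD jB) (PairR_smul l jC)) jF)
      je) fun y => ?_
    rw [i2, i3, hFW]
    ring
  have hIA : PairR_HI (fun y => W y * ((2 / (k : ℝ) - 1) * φ y - y * deriv φ y))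
      ((2 / (k : ℝ) - 1) * (∫ y, W y * φ y) - ∫ y, W y * (y * deriv φ y)) := by
    refine PairR_congr (PairR_sub (PairR_smul (2 / (k : ℝ) - 1) jA) jE) fun y => ?_
    ring
  have e1 : I1 k l W e φ = (∫ y, W y * deriv (deriv (deriv φ)) y) - (∫ y, W y * deriv φ y)
        + l * (∫ y, W y * deriv (deriv φ) y) + (∫ y, F y * deriv φ y)
        + ∫ y, e y * deriv φ y := hI1.2
  have e2 : IA k W φ = (2 / (k : ℝ) - 1) * (∫ y, W y * φ y) - ∫ y, W y * (y * deriv φ y) := hIA.2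
  have e3 : IB W φ = ∫ y, W y * deriv φ y := rfl
  rw [← hWd, e1, e2, e3]
  unfold ip
  rw [hL.2]
  ring

theorem orth_of_det {k : ℕ} (hk : 5 ≤ k) {p q : ℝ} (hp : 0 < p) (hq : 0 < q) (hp1 : p ≤ 1)
    (hq1 : q ≤ 1) {ε e : ℝ → ℝ} (hε : Cl p q ε) (he : Cl p q e) (l : ℝ)
    (hd : d0 k < Det k (fun y => Qf k y + ε y)) (hd0 : 0 < d0 k) :
    Orth k (bfn k l (fun y => Qf k y + ε y) e) (mfn k l (fun y => Qf k y + ε y) e) l ε e := by
  have hk1 : 1 ≤ k := by omega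
  have hQ : Cl 1 1 (Qf k) := Q_cl hk1
  have hmax : max (Det k (fun y => Qf k y + ε y)) (d0 k) = Det k (fun y => Qf k y + ε y) :=
    max_eq_left hd.le
  have hD : Det k (fun y => Qf k y + ε y) ≠ 0 := by
    have : 0 < Det k (fun y => Qf k y + ε y) := by linarith
    exact this.ne'
  unfold Orth
  rw [zeta_ip hk1 hp hq hp1 hq1 hε he _ _ _ hQ, zeta_ip hk1 hp hq hp1 hq1 hε he _ _ _ (Cl_deriv hQ)]
  unfold bfn mfn
  rw [hmax]
  have hDe : Det k (fun y => Qf k y + ε y) =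
      IA k (fun y => Qf k y + ε y) (Qf k) * IB (fun y => Qf k y + ε y) (deriv (Qf k)) -
        IA k (fun y => Qf k y + ε y) (deriv (Qf k)) * IB (fun y => Qf k y + ε y) (Qf k) := rfl
  constructor
  · field_simp
    rw [hDe]
    ring
  · field_simp
    rw [hDe]
    ring

end H72KB

end S_H72_KB_PairR

section S_H72_KB_Stat

/-! # Definitions for the static part of the bootstrap -/

open MeasureTheory Filter Topology Set
open scoped ContDiff

noncomputable section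

namespace H72KB

open H98KB

/-- the trapped region at a given time (`l = λ`) -/
structure Reg (k : ℕ) (γ η δ M B R μ K2 K3 K6 K7 ν₁ l : ℝ) (ε : ℝ → ℝ) : Prop where
  w0 : -(4 * μ * l) < LL k η γ δ M B (R * l) ε
  w1 : LL k η γ δ M B (R * l) ε < μ * l
  w2 : (ip ε (ph0 k)) ^ 2 + K2 * LL k η γ δ M B (R * l) ε < K3 * μ * l
  w3 : Xn ε + K6 * LL k η γ δ M B (R * l) ε < K7 * l
  wp : (ip ε (Qf k)) ^ 2 < ν₁ ^ 2
  wq : (ip ε (deriv (Qf k))) ^ 2 < ν₁ ^ 2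

/-- `λ³ d/dt LL` -/
def W3 (k : ℕ) (η γ δ M B R l b m : ℝ) (ε e : ℝ → ℝ) : ℝ :=
  M * DE k B (R * l) b ε (zeta k b m l ε e) + DV k η γ B δ ε (zeta k b m l ε e)

/-- all facts on the state used by the differential inequalities -/
structure St (k : ℕ) (γ η δ M B c R μ K2 K3 K6 K7 ν₁ ν l b m p q : ℝ) (ε e : ℝ → ℝ) :
    Prop where
  l0 : 0 < l
  l1 : l ≤ 1
  a1 : Adm (R * l) p q ε
  a2 : Adm (R * l) p q e
  sup : ∀ y, |ε y| ≤ c
  reg : Reg k γ η δ M B R μ K2 K3 K6 K7 ν₁ l ε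
  ge : Gn B (R * l) e ≤ ν
  xe : Xn e ≤ ν
  ln1 : ln γ B ε ≤ c
  ge1 : Gn B (R * l) e ≤ c
  slow : Slow B (R * l)
  orth : Orth k b m l ε e
  b1 : kap k * l / 2 ≤ b
  b2 : b ≤ 2 * kap k * l
  dx : ∀ y, |ε y| ^ (4 * (k - 1)) * (Xn ε) ^ 5 ≤ l ^ 7

/-- conclusions used by the shooting argument -/
structure Dyn (k : ℕ) (γ η δ M B R μ K2 K3 K6 K7 l b m : ℝ) (ε e : ℝ → ℝ) : Prop where
  orth : Orth k b m l ε e
  b1 : kap k * l / 2 ≤ b
  b2 : b ≤ 2 * kap k * l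
  m1 : |m| ≤ 1
  t1 : μ * l / 2 ≤ |LL k η γ δ M B (R * l) ε| → W3 k η γ δ M B R l b m ε e < -(μ * b * l)
  t2 : K3 * μ * l / 2 ≤ (ip ε (ph0 k)) ^ 2 + K2 * LL k η γ δ M B (R * l) ε →
    2 * ip ε (ph0 k) * ip (zeta k b m l ε e) (ph0 k) + K2 * W3 k η γ δ M B R l b m ε e <
      -(K3 * μ * b * l)
  t3 : ((k : ℝ) + 3) / ((k : ℝ) + 4) * K7 * l ≤ Xn ε + K6 * LL k η γ δ M B (R * l) ε →
    2 * ip (deriv ε) (deriv (zeta k b m l ε e)) + K6 * W3 k η γ δ M B R l b m ε e <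
      -(K7 * b * l)
  nz : LL k η γ δ M B (R * l) ε ≤ -(μ * l) → ip ε (ph0 k) ≠ 0

end H72KB

end

end S_H72_KB_Stat

section S_H72_KB_StA

/-!
# Row StA: the three barrier inequalities (real arithmetic from `Good` and `St`)

Notation: `G = Gn B (R l) ε`, `TT = Tn B (R l) ε`, `n = ln γ B ε`, `L = LL ..`, `φ = ip ε ph0`, `X = Xn ε`, `Ge = Gn B (R l) e`,
`Xe = Xn e`, `κ = kap k`.  `0 ≤ G, TT, n, Ge, Xe`: integrals of nonnegative functions (`om ≥ 0`; `deriv (om B ρ) ≥ 0` since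
`om' = (Th' + 2ρ Th) e^{2ρy}`, `Th' = Th (1-Th)/B ≥ 0`; `loc ≥ 0`).

`st_main`: `ML` with `l ≤ l₁`: `W3 ≤ -c(TT+n) - cRlG + C(l² + p² + q²) + (C/l) Ge`; `p², q² < ν₁² ≤ l²`, `Ge ≤ ν ≤ l³`, so
 `W3 ≤ -c(TT+n) - cRlG + 4 C l²`.
`st_T1`: `|L| ≤ C G` (`CO`), so `G ≥ μl/(2C)`, `W3 ≤ -cRμl²/(2C) + 4Cl² < -2κμl² ≤ -μbl`.
`st_nz`: `CO`: `0 ≤ G ≤ C(L + φ² + q²)`, so `φ² ≥ -L - q² ≥ μl - ν₁² > 0`.
`st_T2`: `DL`: `|ip ζ φ0| ≤ C(√n + l + √Ge)`, `LN`: `|φ| ≤ C√n`: `2|φ||ip ζ φ0| ≤ 2C²√n(√n+l+√Ge) ≤ 4C²n + C²l² + C²Ge`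
 (`2√n l ≤ n + l²`, `2√n√Ge ≤ n + Ge`); `K2 W3 ≤ -5C²n + 4CK2 l²` (`K2 c = 5C²`; drop `TT, G`).  Sum `≤ -C²n + (2C²+4CK2) l²`
 (`Ge ≤ l²`).  If `Z = φ²+K2 L ≥ K3μl/2` then `φ² ≥ K3μl/2 - K2μl ≥ K3μl/4` (`L < μl`, `4K2 ≤ K3`) and `C²n ≥ φ²`, so
 sum `≤ -K3μl/4 + (2C²+4CK2) l² < -2κK3μl² ≤ -K3μbl` by the numerical hypothesis.
`st_T3`: `DX`: `2 ip(ε',ζ') ≤ -2b(1-sc)X + 2C(TT+n) + 2Cl² + 2C Ge + (2C/l) Xe`; `K6 W3 ≤ -2C(TT+n) + 4CK6 l²` (`K6 c = 2C`);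
 so the sum is `≤ -2b(1-sc)X + C₇ l²`, `C₇ = 2C+4CK6+1` (`2Cν + 2Cν/l ≤ l²`).  `2(1-sc) = 1+4/k ≤ 2`.  If
 `X + K6 L ≥ (k+3)/(k+4) K7 l` then `X ≥ (k+3)/(k+4) K7 l - K6μl`, `(1+4/k)(k+3)/(k+4) = 1+3/k`, so
 `2b(1-sc)X ≥ b l ((1+3/k)K7 - 2K6μ)` (`b ≥ 0`), and the sum is `≤ -K7bl - (3/k)K7 b l + 2K6μ b l + C₇l² < -K7bl` since `b ≥ κl/2`,
 `b ≤ 2κl` and the numerical hypothesis.
-/

open MeasureTheory Filter Topology Set
open scoped ContDiff

namespace H72KB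

open H98KB

theorem StA_th (B y : ℝ) : 0 < Th B y := by
  unfold Th
  positivity

theorem StA_omd {B ρ : ℝ} (hB : 0 < B) (hρ : 0 ≤ ρ) (y : ℝ) : 0 ≤ deriv (om B ρ) y := by
  have h0 : HasDerivAt (fun y : ℝ => -y / B) (-1 / B) y := by
    simpa using (hasDerivAt_id y).neg.div_const B
  have h1 : HasDerivAt (fun y : ℝ => Real.exp (-y / B)) (Real.exp (-y / B) * (-1 / B)) y := h0.exp
  have h2 : HasDerivAt (fun y : ℝ => 1 + Real.exp (-y / B)) (Real.exp (-y / B) * (-1 / B)) y := by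
    simpa using h1.const_add 1
  have hpos : 0 < 1 + Real.exp (-y / B) := by positivity
  have h3 : HasDerivAt (fun y : ℝ => (1 + Real.exp (-y / B))⁻¹)
      (-(Real.exp (-y / B) * (-1 / B)) / (1 + Real.exp (-y / B)) ^ 2) y := h2.inv hpos.ne'
  have h4 : HasDerivAt (fun y : ℝ => Real.exp (2 * ρ * y)) (Real.exp (2 * ρ * y) * (2 * ρ)) y := by
    have : HasDerivAt (fun y : ℝ => 2 * ρ * y) (2 * ρ) y := by
      simpa using (hasDerivAt_id y).const_mul (2 * ρ)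
    exact this.exp
  have h5 := h3.mul h4
  have h6 : om B ρ = (fun y : ℝ => (1 + Real.exp (-y / B))⁻¹) * (fun y : ℝ => Real.exp (2 * ρ * y)) := by
    funext z
    simp [om, Th]
  rw [h6, h5.deriv]
  have e1 : -(Real.exp (-y / B) * (-1 / B)) / (1 + Real.exp (-y / B)) ^ 2 =
      Real.exp (-y / B) / B / (1 + Real.exp (-y / B)) ^ 2 := by
    ring
  rw [e1]
  positivity

theorem Gn_nonneg {B ρ : ℝ} (hB : 0 < B) (ε : ℝ → ℝ) : 0 ≤ Gn B ρ ε := by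
  unfold Gn
  refine integral_nonneg (fun y => ?_)
  have h1 : 0 ≤ om B ρ y := by
    unfold om
    have := StA_th B y
    positivity
  positivity

theorem Tn_nonneg {B ρ : ℝ} (hB : 0 < B) (hρ : 0 ≤ ρ) (ε : ℝ → ℝ) : 0 ≤ Tn B ρ ε := by
  unfold Tn
  refine integral_nonneg (fun y => ?_)
  have h1 := StA_omd hB hρ y
  positivity

theorem ln_nonneg (γ B : ℝ) (ε : ℝ → ℝ) : 0 ≤ ln γ B ε := by
  unfold H98KB.ln
  refine integral_nonneg (fun y => ?_)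
  have h1 : 0 ≤ loc γ B y := by
    unfold loc se2 ch
    positivity
  positivity

theorem Xn_nonneg (ε : ℝ → ℝ) : 0 ≤ Xn ε := by
  unfold Xn
  exact integral_nonneg (fun y => sq_nonneg _)

theorem st_main {k : ℕ} {γ η δ M B c C R μ K2 K3 K6 K7 ν₁ ν l b m p q : ℝ} {ε e : ℝ → ℝ}
    (hG : Good k γ η δ M B c C) (h : St k γ η δ M B c R μ K2 K3 K6 K7 ν₁ ν l b m p q ε e)
    (hRC : C ≤ R) (l₁ : ℝ) (hl₁ : 0 < l₁) (hll : l ≤ l₁)
    (hML : ∀ l, 0 < l → l ≤ l₁ → ∀ (p q : ℝ) (ε e : ℝ → ℝ),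
      Adm (R * l) p q ε → Adm (R * l) p q e → (∀ y, |ε y| ≤ c) → ln γ B ε ≤ c →
      Gn B (R * l) e ≤ c → ∀ b m, 0 ≤ b → b ≤ 2 * kap k * l → Orth k b m l ε e →
      M * DE k B (R * l) b ε (zeta k b m l ε e) + DV k η γ B δ ε (zeta k b m l ε e) ≤
        -c * (Tn B (R * l) ε + ln γ B ε) - c * R * l * Gn B (R * l) ε
          + C * (l ^ 2 + (ip ε (Qf k)) ^ 2 + (ip ε (deriv (Qf k))) ^ 2) + C / l * Gn B (R * l) e)
    (hκ : 0 < kap k) (hν₁ : ν₁ ^ 2 ≤ l ^ 2) (hν : ν ≤ l ^ 3) :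
    W3 k η γ δ M B R l b m ε e ≤ -c * (Tn B (R * l) ε + ln γ B ε) - c * R * l * Gn B (R * l) ε
      + 4 * C * l ^ 2 := by
  have hl := h.l0
  have hb0 : 0 ≤ b := le_trans (by positivity) h.b1
  have h1 := hML l hl hll p q ε e h.a1 h.a2 h.sup h.ln1 h.ge1 b m hb0 h.b2 h.orth
  have hC : 0 ≤ C := le_trans zero_le_one hG.hC
  have h2 : (ip ε (Qf k)) ^ 2 ≤ l ^ 2 := h.reg.wp.le.trans hν₁
  have h3 : (ip ε (deriv (Qf k))) ^ 2 ≤ l ^ 2 := h.reg.wq.le.trans hν₁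
  have h4 : C / l * Gn B (R * l) e ≤ C * l ^ 2 := by
    calc C / l * Gn B (R * l) e ≤ C / l * l ^ 3 :=
          mul_le_mul_of_nonneg_left (h.ge.trans hν) (by positivity)
      _ = C * l ^ 2 := by
          field_simp
  have h5 : C * (l ^ 2 + (ip ε (Qf k)) ^ 2 + (ip ε (deriv (Qf k))) ^ 2) ≤ C * (3 * l ^ 2) :=
    mul_le_mul_of_nonneg_left (by linarith) hC
  unfold W3
  linarith

theorem st_T1 {k : ℕ} {γ η δ M B c C R μ K2 K3 K6 K7 ν₁ ν l b m p q : ℝ} {ε e : ℝ → ℝ}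
    (hG : Good k γ η δ M B c C) (h : St k γ η δ M B c R μ K2 K3 K6 K7 ν₁ ν l b m p q ε e)
    (hm : W3 k η γ δ M B R l b m ε e ≤ -c * (Tn B (R * l) ε + ln γ B ε)
      - c * R * l * Gn B (R * l) ε + 4 * C * l ^ 2)
    (hR : 0 < R) (hμ : 0 < μ) (hn : 4 * C + 2 * kap k * μ < c * R * μ / (2 * C))
    (hL : μ * l / 2 ≤ |LL k η γ δ M B (R * l) ε|) :
    W3 k η γ δ M B R l b m ε e < -(μ * b * l) := by
  have hl := h.l0
  have hC : 0 < C := lt_of_lt_of_le zero_lt_one hG.hC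
  have hc := hG.hc
  have hB : 0 < B := lt_of_lt_of_le (by norm_num) hG.hB
  have h1 := (hG.CO (R * l) h.slow p q ε h.a1 h.sup).2
  have h2 : μ * l / (2 * C) ≤ Gn B (R * l) ε := by
    rw [div_le_iff₀ (by positivity)]
    nlinarith [hL.trans h1]
  have h3 : 0 ≤ Tn B (R * l) ε := Tn_nonneg hB (by positivity) ε
  have h4 := ln_nonneg γ B ε
  have h5 : c * R * l * (μ * l / (2 * C)) ≤ c * R * l * Gn B (R * l) ε :=
    mul_le_mul_of_nonneg_left h2 (by positivity)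
  have h6 : c * R * l * (μ * l / (2 * C)) = c * R * μ / (2 * C) * l ^ 2 := by
    ring
  have h7 : (4 * C + 2 * kap k * μ) * l ^ 2 < c * R * μ / (2 * C) * l ^ 2 :=
    mul_lt_mul_of_pos_right hn (by positivity)
  have h8 : μ * b * l ≤ 2 * kap k * μ * l ^ 2 := by
    calc μ * b * l = (μ * l) * b := by ring
      _ ≤ (μ * l) * (2 * kap k * l) := mul_le_mul_of_nonneg_left h.b2 (by positivity)
      _ = 2 * kap k * μ * l ^ 2 := by ring
  have h9 : 0 ≤ c * (Tn B (R * l) ε + ln γ B ε) := by positivity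
  nlinarith

theorem st_nz {k : ℕ} {γ η δ M B c C R μ K2 K3 K6 K7 ν₁ ν l b m p q : ℝ} {ε e : ℝ → ℝ}
    (hG : Good k γ η δ M B c C) (h : St k γ η δ M B c R μ K2 K3 K6 K7 ν₁ ν l b m p q ε e)
    (hν₁ : C * ν₁ ^ 2 ≤ μ * l) (hL : LL k η γ δ M B (R * l) ε ≤ -(μ * l)) : ip ε (ph0 k) ≠ 0 := by
  intro h0
  have hC : 0 < C := lt_of_lt_of_le zero_lt_one hG.hC
  have hB : 0 < B := lt_of_lt_of_le (by norm_num) hG.hB
  have h1 := (hG.CO (R * l) h.slow p q ε h.a1 h.sup).1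
  have h2 : 0 ≤ Gn B (R * l) ε := Gn_nonneg hB ε
  have h3 : 0 ≤ C * (LL k η γ δ M B (R * l) ε + C * ((ip ε (ph0 k)) ^ 2 +
      (ip ε (deriv (Qf k))) ^ 2)) := h2.trans h1
  have h4 : 0 ≤ LL k η γ δ M B (R * l) ε + C * ((ip ε (ph0 k)) ^ 2 +
      (ip ε (deriv (Qf k))) ^ 2) := nonneg_of_mul_nonneg_right h3 hC
  have h5 := mul_lt_mul_of_pos_left h.reg.wq hC
  rw [h0] at h4
  nlinarith

end H72KB

end S_H72_KB_StA

section S_H72_KB_StB

/-!
# Row StB: bounds valid in the trapped region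

Notation as in StA; `κ = kap k > 0` (`kap_pos`), `C₄ = C (2 + K3 + 4 K2)`, `g` from `Det_low`.
`μs`: `C * C * C₄ * μs ≤ κ/8`, `μs ≤ 1`.
`ls` (depends on `μ, R`): `ls ≤ 1/2`, `8 R ls B ≤ 1` (so `Slow B (R l)` for `l ≤ 2 ls`: `16 ≤ B`, `0 < R l`, `4 R l B ≤ 1`),
 `C C₄ μ 2 ls ≤ c`, `C₄ μ 2 ls ≤ g`, `C √(2 C C₄ μ ls) ≤ κ/8`, `C √(2 C C₄ μ ls) ≤ 1/2`.
`νs` (depends on `lm`): `νs ≤ 1`, `νs² ≤ μ lm`, `C νs ≤ κ lm/8`, `C √νs ≤ κ lm/8`, `νs ≤ c`, `C √νs ≤ 1/2`.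
Proof.  (1) `CO`: `G ≤ C (L + φ² + q²)`; `L < μl`, `φ² < K3μl - K2 L ≤ K3μl + 4K2μl` (`L > -4μl`, `K2 ≥ 0`), `q² < ν₁² ≤ νs² ≤ μ lm ≤ μl`;
 so `G ≤ C₄ μ l`.  (2) `LN`: `n ≤ C G ≤ C C₄ μ l ≤ c`.  (3) `G ≤ g`: `Det > d0`, `orth_of_det` (`Adm` gives `0 < p, q ≤ 1/2`).
(4) `BM`: `|b - κl| ≤ C (l √n + n + |q| + √Ge)`: `l √n ≤ l √(C C₄ μ 2 l₀)`, so `C l √n ≤ κl/8`; `C n ≤ C C C₄ μ l ≤ κl/8`;
 `C|q| ≤ C ν₁ ≤ κ lm/8 ≤ κl/8`; `C√Ge ≤ κl/8`.  Sum `≤ κl/2`.  `|m| ≤ C(√n+√Ge) ≤ 1`.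
`st_X`: `X < K7 l - K6 L ≤ (K7 + 4 K6 μ) l`.
-/

open MeasureTheory Filter Topology Set
open scoped ContDiff

namespace H72KB

open H98KB

theorem st_X {k : ℕ} {γ η δ M B R μ K2 K3 K6 K7 ν₁ l : ℝ} {ε : ℝ → ℝ} (hK6 : 0 ≤ K6)
    (h : Reg k γ η δ M B R μ K2 K3 K6 K7 ν₁ l ε) : Xn ε ≤ (K7 + 4 * K6 * μ) * l := by
  have h1 := h.w3
  have h2 := mul_le_mul_of_nonneg_left h.w0.le hK6
  nlinarith

theorem st_bounds {k : ℕ} (hk : 5 ≤ k) {γ η δ M B c C : ℝ} (hG : Good k γ η δ M B c C)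
    (K2 K3 : ℝ) (hK2 : 0 ≤ K2) (hK3 : 0 ≤ K3) :
    ∃ μs : ℝ, 0 < μs ∧ ∀ μ, 0 < μ → μ ≤ μs → ∀ R, C ≤ R → 1 ≤ R →
    ∃ ls : ℝ, 0 < ls ∧ ls ≤ 1 / 2 ∧ ∀ l₀, 0 < l₀ → l₀ ≤ ls → ∀ lm, 0 < lm →
    ∃ νs : ℝ, 0 < νs ∧ ∀ ν₁, 0 < ν₁ → ν₁ ≤ νs → ∀ l, lm ≤ l → l ≤ 2 * l₀ →
    ∀ (K6 K7 p q : ℝ) (ε e : ℝ → ℝ), Adm (R * l) p q ε → Adm (R * l) p q e →
    (∀ y, |ε y| ≤ c) → Reg k γ η δ M B R μ K2 K3 K6 K7 ν₁ l ε → Gn B (R * l) e ≤ νs →
    ln γ B ε ≤ c ∧ Gn B (R * l) e ≤ c ∧ Slow B (R * l) ∧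
      Orth k (bfn k l (fun y => Qf k y + ε y) e) (mfn k l (fun y => Qf k y + ε y) e) l ε e ∧
      kap k * l / 2 ≤ bfn k l (fun y => Qf k y + ε y) e ∧
      bfn k l (fun y => Qf k y + ε y) e ≤ 2 * kap k * l ∧
      |mfn k l (fun y => Qf k y + ε y) e| ≤ 1 := by
  obtain ⟨g, hg, hDet⟩ := Det_low hk
  have hκ := kap_pos hk
  have hC : 1 ≤ C := hG.hC
  have hC0 : 0 < C := by linarith
  have hB := hG.hB
  have hB0 : 0 < B := by linarith
  have hc := hG.hc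
  set κ := kap k with hκdef
  set C₄ := C * (C * (2 + K3 + 4 * K2)) with hC4
  have hC4p : 0 < C₄ := by
    rw [hC4]
    positivity
  have hμs : 0 < κ / (8 * C * C * C₄) := by positivity
  refine ⟨κ / (8 * C * C * C₄), hμs, ?_⟩
  intro μ hμ hμμ R hRC hR1
  have hR0 : 0 < R := by linarith
  set T := C * C₄ * μ with hT
  have hTp : 0 < T := by
    rw [hT]
    positivity
  have hCT : C * T ≤ κ / 8 := by
    have h1 : μ * (8 * C * C * C₄) ≤ κ := (le_div_iff₀ (by positivity)).1 hμμ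
    rw [hT]
    linarith only [h1]
  have hC4T : C₄ * μ ≤ T := by
    rw [hT]
    have e1 := mul_le_mul_of_nonneg_right hC (mul_pos hC4p hμ).le
    linarith only [e1]
  set s₁ := κ / (8 * C) with hs1
  set s₂ := 1 / (2 * C) with hs2
  have hs1p : 0 < s₁ := by rw [hs1]; positivity
  have hs2p : 0 < s₂ := by rw [hs2]; positivity
  have hs1C : C * s₁ = κ / 8 := by
    rw [hs1]
    field_simp
  have hs2C : C * s₂ = 1 / 2 := by
    rw [hs2]
    field_simp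
  set t₀ := min (min c g) (min (s₁ ^ 2) (s₂ ^ 2)) with ht0
  have ht0p : 0 < t₀ := by
    rw [ht0]
    exact lt_min (lt_min hc hg) (lt_min (by positivity) (by positivity))
  have t1 : t₀ ≤ c := (min_le_left _ _).trans (min_le_left _ _)
  have t2 : t₀ ≤ g := (min_le_left _ _).trans (min_le_right _ _)
  have t3 : t₀ ≤ s₁ ^ 2 := (min_le_right _ _).trans (min_le_left _ _)
  have t4 : t₀ ≤ s₂ ^ 2 := (min_le_right _ _).trans (min_le_right _ _)
  refine ⟨min (1 / 2) (min (1 / (8 * R * B)) (t₀ / (2 * T))), ?_, min_le_left _ _, ?_⟩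
  · exact lt_min (by norm_num) (lt_min (by positivity) (by positivity))
  intro l₀ hl₀ hl₀s lm hlm
  have q1 : l₀ ≤ 1 / 2 := hl₀s.trans (min_le_left _ _)
  have q2 : l₀ ≤ 1 / (8 * R * B) := hl₀s.trans ((min_le_right _ _).trans (min_le_left _ _))
  have q3 : l₀ ≤ t₀ / (2 * T) := hl₀s.trans ((min_le_right _ _).trans (min_le_right _ _))
  have q2' : l₀ * (8 * R * B) ≤ 1 := (le_div_iff₀ (by positivity)).1 q2
  have q3' : l₀ * (2 * T) ≤ t₀ := (le_div_iff₀ (by positivity)).1 q3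
  set νs := min (min (min 1 c) (min (μ * lm) (s₁ * lm))) (min ((s₁ * lm) ^ 2) (s₂ ^ 2)) with hνs
  have hνsp : 0 < νs := by
    rw [hνs]
    refine lt_min (lt_min (lt_min one_pos hc) (lt_min (by positivity) (by positivity)))
      (lt_min (by positivity) (by positivity))
  have n1 : νs ≤ 1 := (min_le_left _ _).trans ((min_le_left _ _).trans (min_le_left _ _))
  have n2 : νs ≤ c := (min_le_left _ _).trans ((min_le_left _ _).trans (min_le_right _ _))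
  have n3 : νs ≤ μ * lm := (min_le_left _ _).trans ((min_le_right _ _).trans (min_le_left _ _))
  have n4 : νs ≤ s₁ * lm := (min_le_left _ _).trans ((min_le_right _ _).trans (min_le_right _ _))
  have n5 : νs ≤ (s₁ * lm) ^ 2 := (min_le_right _ _).trans (min_le_left _ _)
  have n6 : νs ≤ s₂ ^ 2 := (min_le_right _ _).trans (min_le_right _ _)
  refine ⟨νs, hνsp, ?_⟩
  intro ν₁ hν₁ hν₁s l hlml hll K6 K7 p q ε e hA1 hA2 hsup hreg hGe
  have hl : 0 < l := hlm.trans_le hlml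
  have hl1 : l ≤ 1 := by linarith
  have hRl : 0 < R * l := mul_pos hR0 hl
  have hslow : Slow B (R * l) := by
    refine ⟨hB, hRl, ?_⟩
    have h1 : R * l * B ≤ R * (2 * l₀) * B := by
      have := mul_le_mul_of_nonneg_left hll hR0.le
      exact mul_le_mul_of_nonneg_right this hB0.le
    linarith only [h1, q2']
  obtain ⟨hco, -⟩ := hG.CO (R * l) hslow p q ε hA1 hsup
  obtain ⟨hln, -, -, -⟩ := hG.LN (R * l) hslow p q ε hA1
  have hGe1 : Gn B (R * l) e ≤ c := hGe.trans n2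
  -- the bound of `G`
  have hν2 : ν₁ ^ 2 ≤ μ * l := by
    have h1 : ν₁ ^ 2 ≤ νs := by
      have e1 : ν₁ * ν₁ ≤ νs * 1 := mul_le_mul hν₁s (hν₁s.trans n1) hν₁.le hνsp.le
      rw [pow_two]
      linarith only [e1]
    have h2 : μ * lm ≤ μ * l := mul_le_mul_of_nonneg_left hlml hμ.le
    linarith
  have hGn : Gn B (R * l) ε ≤ C₄ * μ * l := by
    have h1 := hreg.w1
    have h2 := hreg.w2
    have h3 := hreg.wq
    have h4 := mul_le_mul_of_nonneg_left hreg.w0.le hK2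
    have h50 : (ip ε (ph0 k)) ^ 2 + (ip ε (deriv (Qf k))) ^ 2 ≤
        (1 + K3 + 4 * K2) * (μ * l) := by linarith only [h2, h3, h4, hν2]
    have h51 := mul_le_mul_of_nonneg_left h50 hC0.le
    have h52 : μ * l ≤ C * (μ * l) := le_mul_of_one_le_left (mul_pos hμ hl).le hC
    have h5 : LL k η γ δ M B (R * l) ε + C * ((ip ε (ph0 k)) ^ 2 + (ip ε (deriv (Qf k))) ^ 2) ≤
        C * (2 + K3 + 4 * K2) * (μ * l) := by linarith only [h1, h51, h52]
    have h6 := mul_le_mul_of_nonneg_left h5 hC0.le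
    calc Gn B (R * l) ε ≤ _ := hco
      _ ≤ C * (C * (2 + K3 + 4 * K2) * (μ * l)) := h6
      _ = C₄ * μ * l := by rw [hC4]; ring
  have hnT : ln γ B ε ≤ T * l := by
    have h6 := mul_le_mul_of_nonneg_left hGn hC0.le
    calc ln γ B ε ≤ C * Gn B (R * l) ε := hln
      _ ≤ C * (C₄ * μ * l) := h6
      _ = T * l := by rw [hT]; ring
  have hTl : T * l ≤ t₀ := by
    have := mul_le_mul_of_nonneg_left hll hTp.le
    linarith
  have hnt : ln γ B ε ≤ t₀ := hnT.trans hTl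
  have hn1 : ln γ B ε ≤ c := hnt.trans t1
  have hGg : Gn B (R * l) ε ≤ g := by
    have h1 : C₄ * μ * l ≤ T * l := mul_le_mul_of_nonneg_right hC4T hl.le
    linarith
  have hD := hDet B (R * l) p q ε hslow hA1 hGg
  obtain ⟨a1, a2, a3, a4, a5⟩ := hA1
  obtain ⟨b1, b2, b3, b4, b5⟩ := hA2
  have horth := orth_of_det hk (hRl.trans a1) a3 (by linarith) (by linarith) a5 b5 l hD (d0_pos hk)
  obtain ⟨hb, hm⟩ := hG.BM (R * l) hslow l hl hl1 p q ε e ⟨a1, a2, a3, a4, a5⟩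
    ⟨b1, b2, b3, b4, b5⟩ hsup hn1 hGe1 _ _ horth
  -- the square roots
  have r1 : √(ln γ B ε) ≤ s₁ := by
    rw [← Real.sqrt_sq hs1p.le]
    exact Real.sqrt_le_sqrt (hnt.trans t3)
  have r2 : √(ln γ B ε) ≤ s₂ := by
    rw [← Real.sqrt_sq hs2p.le]
    exact Real.sqrt_le_sqrt (hnt.trans t4)
  have r3 : √(Gn B (R * l) e) ≤ s₁ * lm := by
    rw [← Real.sqrt_sq (mul_pos hs1p hlm).le]
    exact Real.sqrt_le_sqrt (hGe.trans n5)
  have r4 : √(Gn B (R * l) e) ≤ s₂ := by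
    rw [← Real.sqrt_sq hs2p.le]
    exact Real.sqrt_le_sqrt (hGe.trans n6)
  have r5 : |ip ε (deriv (Qf k))| ≤ s₁ * lm := by
    have := abs_lt_of_sq_lt_sq hreg.wq hν₁.le
    linarith
  have hs1l : s₁ * lm ≤ s₁ * l := mul_le_mul_of_nonneg_left hlml hs1p.le
  have e1 : C * (l * √(ln γ B ε)) ≤ κ / 8 * l := by
    calc C * (l * √(ln γ B ε)) ≤ C * (l * s₁) :=
          mul_le_mul_of_nonneg_left (mul_le_mul_of_nonneg_left r1 hl.le) hC0.le
      _ = C * s₁ * l := by ring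
      _ = κ / 8 * l := by rw [hs1C]
  have e2 : C * ln γ B ε ≤ κ / 8 * l := by
    calc C * ln γ B ε ≤ C * (T * l) := mul_le_mul_of_nonneg_left hnT hC0.le
      _ = C * T * l := by ring
      _ ≤ κ / 8 * l := mul_le_mul_of_nonneg_right hCT hl.le
  have e3 : C * |ip ε (deriv (Qf k))| ≤ κ / 8 * l := by
    calc C * |ip ε (deriv (Qf k))| ≤ C * (s₁ * l) :=
          mul_le_mul_of_nonneg_left (r5.trans hs1l) hC0.le
      _ = C * s₁ * l := by ring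
      _ = κ / 8 * l := by rw [hs1C]
  have e4 : C * √(Gn B (R * l) e) ≤ κ / 8 * l := by
    calc C * √(Gn B (R * l) e) ≤ C * (s₁ * l) :=
          mul_le_mul_of_nonneg_left (r3.trans hs1l) hC0.le
      _ = C * s₁ * l := by ring
      _ = κ / 8 * l := by rw [hs1C]
  have e5 : C * √(ln γ B ε) ≤ 1 / 2 := by
    rw [← hs2C]
    exact mul_le_mul_of_nonneg_left r2 hC0.le
  have e6 : C * √(Gn B (R * l) e) ≤ 1 / 2 := by
    rw [← hs2C]
    exact mul_le_mul_of_nonneg_left r4 hC0.le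
  have hb' : |bfn k l (fun y => Qf k y + ε y) e - κ * l| ≤ κ * l / 2 := by
    refine hb.trans ?_
    have : C * (l * √(ln γ B ε) + ln γ B ε + |ip ε (deriv (Qf k))| + √(Gn B (R * l) e)) =
        C * (l * √(ln γ B ε)) + C * ln γ B ε + C * |ip ε (deriv (Qf k))| +
          C * √(Gn B (R * l) e) := by ring
    rw [this]
    linarith
  have hm' : |mfn k l (fun y => Qf k y + ε y) e| ≤ 1 := by
    refine hm.trans ?_
    have : C * (√(ln γ B ε) + √(Gn B (R * l) e)) =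
        C * √(ln γ B ε) + C * √(Gn B (R * l) e) := by ring
    rw [this]
    linarith
  have hκl : 0 < κ * l := mul_pos hκ hl
  rw [abs_le] at hb'
  refine ⟨hn1, hGe1, hslow, horth, ?_, ?_, hm'⟩
  · linarith [hb'.1]
  · linarith [hb'.2]

end H72KB

end S_H72_KB_StB

section S_H72_KB_IniA

/-!
# Row IniA: the initial data are in the trapped region, and at `a = ±a₁` they have already left it

Notation: `n = nf k`, `n0 = ip n (ph0 k) ≠ 0`, `n1 = Xn n`, `cn > 0` from `Good.IN`, `d = ε - a n`, `φ(ε) = ip ε (ph0 k)`, `LL(ε) = LL ..(R l₀) ε`.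
Constants: `A3 = 8 n0²/cn`, `A7 = 4 n1/cn`;  `a₁ = √(2 μ l₀/cn)`.
`ls`: for `l₀ ≤ ls`: `l₀ ≤ 1/2`, `a₁ ≤ 1`, `a₁ ≤ c/(2 N)` with `|n y| ≤ N` (`N ≥ 1`, `Cl_bdd`), `R l₀ ≤ 1/4`, `4 R l₀ B ≤ 1` (`Slow`),
 `C (R l₀ a₁² + a₁³) ≤ μ l₀/8`: as `a₁² = 2μl₀/cn` this reads `C (R l₀ 2/cn + a₁ 2/cn) ≤ 1/8`, true for `l₀` small.
For fixed `l₀` (then `a₁` fixed) and `ν₁`, choose `νs` small such that (everything below tends to 0 with `νs`):
 (a) `|d y| ≤ c/2`: `|d|⁴ ≤ 4 νs νs` (`Cl_sup`), so `|ε| ≤ |a| N + c/2 ≤ c`;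
 (b) `|LL(ε) - LL(a n)| ≤ C √(Gn d)(√(Gn ε) + √(Gn (a n))) ≤ μ l₀/8`: `LIP`; `Gn (a n) = a² Gn n ≤ Gn n`, `Gn ε ≤ 2 Gn (a n) + 2 Gn d`;
 (c) `|ip d (ph0 k)| , |ip d Q|, |ip d Q'| ≤ C₁ √νs` (`ip_Gn`: `|Q|,|Q'|,|ph0| ≤ C e^{-|y|} ≤ C e^{-|y|/4}`).
 `d ∈ Adm (R l₀) p' q'`: `ε ∈ Cl p q`, `n ∈ Cl (1/2) (1/2)` (`ThmN`), so `d ∈ Cl p q` (`p, q ≤ 1/2`, `Cl_mono`, `Cl_sub`).
Then: `LL(ε) ≤ -cn a² + μl₀/8 + μl₀/8 ≤ μl₀/4 < μ l₀` (w1); `LL(ε) ≥ -cn a₁² - μl₀/4 = -2μl₀ - μl₀/4 > -4μl₀` (w0);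
 `φ(ε) = a n0 + ip d ph0`, `φ² ≤ 2a₁² n0² + 2 C₁² νs = 4μl₀ n0²/cn + ..`, `K2 LL ≤ K2 μ l₀`: sum `< (8 n0²/cn + K2 + 2) μl₀ ≤ K3 μ l₀` (w2);
 `Xn ε ≤ 2 a₁² n1 + 2 νs = 4μl₀ n1/cn + 2νs`, `K6 LL ≤ K6 μl₀`, `μ ≤ 1`: `< (A7 + K6 + 2) l₀ ≤ K7 l₀` (w3);
 `ip ε Q = a·0 + ip d Q` (`ThmN`), so `(ip ε Q)² ≤ C₁² νs < ν₁²` (wp), same for `Q'` (wq).
If `|a| = a₁`: `LL(ε) ≤ -2μl₀ + μl₀/4 < -μl₀`; `φ(ε) (a n0) = a² n0² + a n0 ip d ph0 > 0` as `|ip d ph0| < a₁ |n0|`.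
(The pairings split because `ε`, `n`, `d` are in `Cl` with positive exponents: `Cl_int_mul`.)
-/

open MeasureTheory Filter Topology Set
open scoped ContDiff

namespace H72KB

open H98KB

theorem IniA_ls {cn t s μ R : ℝ} (hcn : 0 < cn) (ht : 0 < t) (hs : 0 < s) (hμ : 0 < μ)
    (hR : 1 ≤ R) :
    ∃ ls : ℝ, 0 < ls ∧ ∀ l, 0 < l → l ≤ ls → R * l ≤ s ∧ √(2 * μ * l / cn) ≤ t := by
  have hR0 : 0 < R := by linarith
  refine ⟨min (s / R) (cn * t ^ 2 / (2 * μ)), lt_min (by positivity) (by positivity),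
    fun l hl0 hl => ⟨?_, ?_⟩⟩
  · have h := hl.trans (min_le_left _ _)
    rw [le_div_iff₀ hR0] at h
    linarith
  · have h := hl.trans (min_le_right _ _)
    rw [le_div_iff₀ (by positivity)] at h
    rw [Real.sqrt_le_left ht.le, div_le_iff₀ hcn]
    linarith

theorem IniA_nu {m1 m2 m3 P D : ℝ} (h1 : 0 < m1) (h2 : 0 < m2) (h3 : 0 < m3) (hP : 0 ≤ P)
    (hD : 0 ≤ D) : ∃ ν : ℝ, 0 < ν ∧ ν ≤ m1 ∧ P * √ν ≤ m2 ∧ D * ν ≤ m3 := by
  have hP1 : 0 < P + 1 := by linarith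
  have hD1 : 0 < D + 1 := by linarith
  obtain ⟨ν, hν⟩ : ∃ ν, ν = min m1 (min ((m2 / (P + 1)) ^ 2) (m3 / (D + 1))) := ⟨_, rfl⟩
  have e1 : ν ≤ m1 := by rw [hν]; exact min_le_left _ _
  have e2 : ν ≤ (m2 / (P + 1)) ^ 2 := by
    rw [hν]; exact (min_le_right _ _).trans (min_le_left _ _)
  have e3 : ν ≤ m3 / (D + 1) := by
    rw [hν]; exact (min_le_right _ _).trans (min_le_right _ _)
  refine ⟨ν, ?_, e1, ?_, ?_⟩
  · rw [hν]
    exact lt_min h1 (lt_min (by positivity) (by positivity))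
  · have h4 : √ν ≤ m2 / (P + 1) := by
      rw [Real.sqrt_le_left (by positivity)]
      exact e2
    have h5 : (P + 1) * (m2 / (P + 1)) = m2 := mul_div_cancel₀ _ hP1.ne'
    have h6 : 0 < m2 / (P + 1) := by positivity
    calc P * √ν ≤ P * (m2 / (P + 1)) := mul_le_mul_of_nonneg_left h4 hP
      _ ≤ m2 := by linarith
  · have h5 : (D + 1) * (m3 / (D + 1)) = m3 := mul_div_cancel₀ _ hD1.ne'
    have h6 : 0 < m3 / (D + 1) := by positivity
    calc D * ν ≤ D * (m3 / (D + 1)) := mul_le_mul_of_nonneg_left e3 hD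
      _ ≤ m3 := by linarith

theorem IniA_diff {p q : ℝ} {f : ℝ → ℝ} (hf : Cl p q f) : Differentiable ℝ f :=
  hf.1.differentiable (by simp)

theorem IniA_ds {p q : ℝ} {f g : ℝ → ℝ} (hf : Cl p q f) (hg : Cl p q g) (y : ℝ) :
    deriv (fun y => f y - g y) y = deriv f y - deriv g y :=
  deriv_fun_sub (IniA_diff hf y) (IniA_diff hg y)

theorem IniA_om {B ρ : ℝ} (h : Slow B ρ) (y : ℝ) : 0 ≤ om B ρ y := by
  have h1 := (DetR_om h y).1
  have h2 := Real.exp_pos (-(1 / 8) * |y|)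
  linarith

theorem IniA_Gn {B ρ p q : ℝ} {f g : ℝ → ℝ} (h : Slow B ρ) (hf : Adm ρ p q f)
    (hg : Adm ρ p q g) : Gn B ρ f ≤ 2 * Gn B ρ g + 2 * Gn B ρ (fun y => f y - g y) := by
  have hd : Adm ρ p q (fun y => f y - g y) :=
    ⟨hf.1, hf.2.1, hf.2.2.1, hf.2.2.2.1, Cl_sub hf.2.2.2.2 hg.2.2.2.2⟩
  have i1 := DetR_int h hf
  have i2 := DetR_int h hg
  have i3 := DetR_int h hd
  unfold Gn
  rw [← integral_const_mul, ← integral_const_mul, ← integral_add (i2.const_mul 2) (i3.const_mul 2)]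
  refine integral_mono i1 ((i2.const_mul 2).add (i3.const_mul 2)) fun y => ?_
  have hder := IniA_ds hf.2.2.2.2 hg.2.2.2.2 y
  have ho := IniA_om h y
  simp only [hder]
  have hh := mul_nonneg ho (add_nonneg (sq_nonneg (f y - 2 * g y))
    (sq_nonneg (deriv f y - 2 * deriv g y)))
  nlinarith [hh]

theorem IniA_Xn {p q : ℝ} {f g : ℝ → ℝ} (hp : 0 < p) (hq : 0 < q) (hf : Cl p q f)
    (hg : Cl p q g) : Xn f ≤ 2 * Xn g + 2 * Xn (fun y => f y - g y) := by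
  have key : ∀ h : ℝ → ℝ, Cl p q h → Integrable (fun y => (deriv h y) ^ 2) := by
    intro h hh
    have h1 := Cl_int (by linarith : 0 < p + p) (by linarith : 0 < q + q)
      (Cl_mul (Cl_deriv hh) (Cl_deriv hh))
    refine h1.congr (Eventually.of_forall fun y => ?_)
    simp only [pow_two]
  have i1 := key f hf
  have i2 := key g hg
  have i3 := key _ (Cl_sub hf hg)
  unfold Xn
  rw [← integral_const_mul, ← integral_const_mul, ← integral_add (i2.const_mul 2) (i3.const_mul 2)]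
  refine integral_mono i1 ((i2.const_mul 2).add (i3.const_mul 2)) fun y => ?_
  have hder := IniA_ds hf hg y
  simp only [hder]
  nlinarith [sq_nonneg (deriv f y - 2 * deriv g y)]

theorem IniA_Gs (B ρ a : ℝ) (f : ℝ → ℝ) :
    Gn B ρ (fun y => a * f y) = a ^ 2 * Gn B ρ f := by
  unfold Gn
  rw [← integral_const_mul]
  refine integral_congr_ae (Eventually.of_forall fun y => ?_)
  have hd : deriv (fun y => a * f y) y = a * deriv f y := deriv_const_mul_field a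
  simp only [hd]
  ring

theorem IniA_Xs (a : ℝ) (f : ℝ → ℝ) : Xn (fun y => a * f y) = a ^ 2 * Xn f := by
  unfold Xn
  rw [← integral_const_mul]
  refine integral_congr_ae (Eventually.of_forall fun y => ?_)
  have hd : deriv (fun y => a * f y) y = a * deriv f y := deriv_const_mul_field a
  simp only [hd]
  ring

theorem IniA_ip {p q a D : ℝ} {ε n ψ : ℝ → ℝ} (hp : 0 < p) (hq : 0 < q) (hε : Cl p q ε)
    (hn : Cl p q n) (hψ : Continuous ψ) (hD : ∀ y, |ψ y| ≤ D) :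
    ip ε ψ = a * ip n ψ + ip (fun y => ε y - a * n y) ψ := by
  unfold ip
  have i1 := Cl_int_mul hp hq hn hψ D hD
  have i2 := Cl_int_mul hp hq (Cl_sub hε (Cl_smul a hn)) hψ D hD
  rw [← integral_const_mul, ← integral_add (i1.const_mul a) i2]
  refine integral_congr_ae (Eventually.of_forall fun y => ?_)
  simp only
  ring

theorem IniA_pair {k : ℕ} (hk : 5 ≤ k) : ∃ C₁ : ℝ, 0 ≤ C₁ ∧
    ∀ ψ : ℝ → ℝ, (ψ = Qf k ∨ ψ = deriv (Qf k) ∨ ψ = ph0 k) →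
      Continuous ψ ∧ (∃ D : ℝ, ∀ y, |ψ y| ≤ D) ∧
      ∀ (B ρ p q : ℝ) (d : ℝ → ℝ), Slow B ρ → Adm ρ p q d →
        |ip d ψ| ≤ C₁ * √(Gn B ρ d) := by
  have hQ : Cl 1 1 (Qf k) := Q_cl (by omega)
  have hQ' : Cl 1 1 (deriv (Qf k)) := Cl_deriv hQ
  obtain ⟨K₁, hK₁0, hK₁⟩ := ClC_abs hQ
  obtain ⟨K₂, hK₂0, hK₂⟩ := ClC_abs hQ'
  obtain ⟨K, hK⟩ : ∃ K, K = max K₁ K₂ := ⟨_, rfl⟩
  have hK0 : 0 ≤ K := by rw [hK]; exact hK₁0.trans (le_max_left _ _)
  have hKa : K₁ ≤ K := by rw [hK]; exact le_max_left _ _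
  have hKb : K₂ ≤ K := by rw [hK]; exact le_max_right _ _
  obtain ⟨C₁, hC₁, hip⟩ := ip_Gn K
  have hcosh : ∀ y : ℝ, 1 ≤ Real.cosh ((k : ℝ) * y / 2) := fun y => Real.one_le_cosh _
  have hbQ : ∀ y, |Qf k y| ≤ K * bd 1 1 y := fun y =>
    (hK₁ y).trans (mul_le_mul_of_nonneg_right hKa (bd_pos 1 1 y).le)
  have hc : ∀ ψ : ℝ → ℝ, (ψ = Qf k ∨ ψ = deriv (Qf k) ∨ ψ = ph0 k) →
      Continuous ψ ∧ ∀ y, |ψ y| ≤ K * bd 1 1 y := by
    rintro ψ (rfl | rfl | rfl)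
    · exact ⟨hQ.1.continuous, hbQ⟩
    · exact ⟨hQ'.1.continuous, fun y =>
        (hK₂ y).trans (mul_le_mul_of_nonneg_right hKb (bd_pos 1 1 y).le)⟩
    · refine ⟨?_, fun y => ?_⟩
      · unfold ph0
        refine hQ.1.continuous.div (Real.continuous_cosh.comp (by fun_prop)) fun y => ?_
        have := hcosh y
        linarith
      · unfold ph0
        rw [abs_div, abs_of_pos (by linarith [hcosh y] : 0 < Real.cosh ((k : ℝ) * y / 2))]
        exact (div_le_self (abs_nonneg _) (hcosh y)).trans (hbQ y)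
  refine ⟨C₁, hC₁, fun ψ hψ => ⟨(hc ψ hψ).1, ⟨K, fun y => ?_⟩, ?_⟩⟩
  · refine ((hc ψ hψ).2 y).trans ?_
    have h := mul_le_mul_of_nonneg_left (bd_le_one (p := 1) (q := 1) (by norm_num)
      (by norm_num) y) hK0
    rwa [mul_one] at h
  · intro B ρ p q d hS hA
    refine hip B ρ p q d ψ hS hA (hc ψ hψ).1 fun y => ?_
    refine ((hc ψ hψ).2 y).trans (mul_le_mul_of_nonneg_left ?_ hK0)
    rw [DetR_bd, Real.exp_le_exp]
    have := abs_nonneg y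
    linarith

theorem IniA_LL {cn a a₁ μ l L La : ℝ} (hcn : 0 < cn) (hμ : 0 < μ) (hl : 0 < l)
    (ha₁ : a₁ ^ 2 = 2 * μ * l / cn) (ha : a ^ 2 ≤ a₁ ^ 2) (h1 : |La + cn * a ^ 2| ≤ μ * l / 8)
    (h2 : |L - La| ≤ μ * l / 8) :
    -(4 * μ * l) < L ∧ L ≤ μ * l / 4 ∧ (a ^ 2 = a₁ ^ 2 → L < -(μ * l)) := by
  have hml : 0 < μ * l := mul_pos hμ hl
  have e : cn * a₁ ^ 2 = 2 * (μ * l) := by
    rw [ha₁]
    field_simp
  have h3 := abs_le.1 h1
  have h4 := abs_le.1 h2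
  have h5 : cn * a ^ 2 ≤ cn * a₁ ^ 2 := mul_le_mul_of_nonneg_left ha hcn.le
  have h6 : 0 ≤ cn * a ^ 2 := by positivity
  refine ⟨?_, ?_, fun h => ?_⟩
  · linarith [h3.1, h3.2, h4.1, h4.2]
  · linarith [h3.1, h3.2, h4.1, h4.2]
  · rw [h] at h3 
    linarith [h3.1, h3.2, h4.1, h4.2]

theorem IniA_w2 {cn a a₁ μ l L n0 x0 K2 K3 : ℝ} (hcn : 0 < cn) (hμ : 0 < μ) (hl : 0 < l)
    (ha₁ : a₁ ^ 2 = 2 * μ * l / cn) (ha : a ^ 2 ≤ a₁ ^ 2) (hL : L ≤ μ * l / 4)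
    (hx : x0 ^ 2 ≤ μ * l / 4) (hK2 : 0 ≤ K2) (hK : 8 * n0 ^ 2 / cn + K2 + 2 ≤ K3) :
    (a * n0 + x0) ^ 2 + K2 * L < K3 * μ * l := by
  have hml : 0 < μ * l := mul_pos hμ hl
  have h1 : a ^ 2 * n0 ^ 2 ≤ a₁ ^ 2 * n0 ^ 2 := mul_le_mul_of_nonneg_right ha (sq_nonneg _)
  have h2 : a₁ ^ 2 * n0 ^ 2 = (8 * n0 ^ 2 / cn) * (μ * l) / 4 := by
    rw [ha₁]
    field_simp
    ring
  have h3 : (a * n0 + x0) ^ 2 ≤ 2 * (a ^ 2 * n0 ^ 2) + 2 * x0 ^ 2 := by
    nlinarith [sq_nonneg (a * n0 - x0)]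
  have h4 : K2 * L ≤ K2 * (μ * l) := mul_le_mul_of_nonneg_left (by linarith) hK2
  have h5 : (8 * n0 ^ 2 / cn + K2 + 2) * (μ * l) ≤ K3 * (μ * l) :=
    mul_le_mul_of_nonneg_right hK hml.le
  have h6 : 0 ≤ 8 * n0 ^ 2 / cn * (μ * l) := by positivity
  nlinarith [h1, h2, h3, h4, h5, h6]

theorem IniA_w3 {cn a a₁ μ l L n1 ν X K6 K7 : ℝ} (hcn : 0 < cn) (hμ : 0 < μ) (hμ1 : μ ≤ 1)
    (hl : 0 < l) (ha₁ : a₁ ^ 2 = 2 * μ * l / cn) (ha : a ^ 2 ≤ a₁ ^ 2) (hn : 0 ≤ n1)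
    (hL : L ≤ μ * l / 4) (hν : ν ≤ l / 2) (hX : X ≤ 2 * (a ^ 2 * n1) + 2 * ν) (hK6 : 0 ≤ K6)
    (hK : 4 * n1 / cn + K6 + 2 ≤ K7) : X + K6 * L < K7 * l := by
  have hml : μ * l ≤ l := by nlinarith
  have h1 : a ^ 2 * n1 ≤ a₁ ^ 2 * n1 := mul_le_mul_of_nonneg_right ha hn
  have h2 : a₁ ^ 2 * n1 = (4 * n1 / cn) * (μ * l) / 2 := by
    rw [ha₁]
    field_simp
    ring
  have h3 : (4 * n1 / cn) * (μ * l) ≤ (4 * n1 / cn) * l :=
    mul_le_mul_of_nonneg_left hml (by positivity)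
  have h4 : K6 * L ≤ K6 * l := mul_le_mul_of_nonneg_left (by linarith) hK6
  have h5 : (4 * n1 / cn + K6 + 2) * l ≤ K7 * l := mul_le_mul_of_nonneg_right hK hl.le
  nlinarith [h1, h2, h3, h4, h5]

theorem IniA_sg {a a₁ n0 x0 : ℝ} (h : |a| = a₁) (h1 : 0 < a₁) (hn : n0 ≠ 0)
    (hx : x0 ^ 2 ≤ a₁ ^ 2 * n0 ^ 2 / 4) : 0 < (a * n0 + x0) * (a * n0) := by
  have e : a ^ 2 = a₁ ^ 2 := by rw [← h, sq_abs]
  have e2 : 0 < a₁ ^ 2 * n0 ^ 2 := by positivity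
  have e3 : (a * n0) ^ 2 = a₁ ^ 2 * n0 ^ 2 := by rw [mul_pow, e]
  nlinarith [sq_nonneg (x0 + a * n0)]

theorem initial {k : ℕ} (hk : 5 ≤ k) {γ η δ M B c C : ℝ} (hG : Good k γ η δ M B c C)
    (hN : ThmN) : ∃ A3 A7 : ℝ, 0 ≤ A3 ∧ 0 ≤ A7 ∧ ∀ K2 K3 K6 K7 μ R : ℝ, 0 ≤ K2 → 0 ≤ K6 →
      A3 + K2 + 2 ≤ K3 → A7 + K6 + 2 ≤ K7 → 0 < μ → μ ≤ 1 → 1 ≤ R →
      ∃ ls : ℝ, 0 < ls ∧ ∀ l₀, 0 < l₀ → l₀ ≤ ls → ∃ a₁ : ℝ, 0 < a₁ ∧ a₁ ≤ 1 ∧
      ∀ ν₁, 0 < ν₁ → ∃ νs : ℝ, 0 < νs ∧ ∀ (a p q : ℝ) (ε : ℝ → ℝ), a ∈ Icc (-a₁) a₁ →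
        Adm (R * l₀) p q ε → Gn B (R * l₀) (fun y => ε y - a * nf k y) ≤ νs →
        ∫ y, (ε y - a * nf k y) ^ 2 ≤ νs → Xn (fun y => ε y - a * nf k y) ≤ νs →
        Reg k γ η δ M B R μ K2 K3 K6 K7 ν₁ l₀ ε ∧
        (|a| = a₁ → LL k η γ δ M B (R * l₀) ε < -(μ * l₀) ∧
          0 < ip ε (ph0 k) * (a * ip (nf k) (ph0 k))) := by
  obtain ⟨hn, hnQ, hnQ', hn0⟩ := hN k hk
  obtain ⟨cn, hcn, hIN⟩ := hG.IN
  obtain ⟨N₀, hN₀⟩ := Cl_bdd (by norm_num : (0 : ℝ) ≤ 1 / 2) (by norm_num : (0 : ℝ) ≤ 1 / 2) hn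
  obtain ⟨C₁, hC₁, hpair⟩ := IniA_pair hk
  obtain ⟨n0, hn0e⟩ : ∃ x, x = ip (nf k) (ph0 k) := ⟨_, rfl⟩
  obtain ⟨n1, hn1e⟩ : ∃ x, x = Xn (nf k) := ⟨_, rfl⟩
  have hn1 : 0 ≤ n1 := by rw [hn1e]; exact Xn_nonneg _
  rw [← hn0e] at hn0
  obtain ⟨N, hNe⟩ : ∃ x, x = max N₀ 1 := ⟨_, rfl⟩
  have hN1 : 1 ≤ N := by rw [hNe]; exact le_max_right _ _
  have hNb : ∀ y, |nf k y| ≤ N := fun y => (hN₀ y).trans (by rw [hNe]; exact le_max_left _ _)
  have hB := hG.hB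
  have hB0 : 0 < B := by linarith
  have hc := hG.hc
  have hC := hG.hC
  have hC0 : 0 < C := by linarith
  have hN0 : 0 < N := by linarith
  refine ⟨8 * n0 ^ 2 / cn, 4 * n1 / cn, by positivity, by positivity, ?_⟩
  intro K2 K3 K6 K7 μ R hK2 hK6 hK3 hK7 hμ hμ1 hR
  have hR0 : 0 < R := by linarith
  obtain ⟨t, hte⟩ : ∃ x, x = min 1 (min (c / (2 * N)) (cn / (32 * C))) := ⟨_, rfl⟩
  have ht0 : 0 < t := by
    rw [hte]
    exact lt_min one_pos (lt_min (by positivity) (by positivity))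
  have ht1 : t ≤ 1 := by rw [hte]; exact min_le_left _ _
  have ht2 : t ≤ c / (2 * N) := by
    rw [hte]; exact (min_le_right _ _).trans (min_le_left _ _)
  have ht3 : t ≤ cn / (32 * C) := by
    rw [hte]; exact (min_le_right _ _).trans (min_le_right _ _)
  obtain ⟨s, hse⟩ : ∃ x, x = min (1 / (4 * B)) (cn / (32 * C)) := ⟨_, rfl⟩
  have hs0 : 0 < s := by
    rw [hse]
    exact lt_min (by positivity) (by positivity)
  have hs1 : s ≤ 1 / (4 * B) := by rw [hse]; exact min_le_left _ _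
  have hs2 : s ≤ cn / (32 * C) := by rw [hse]; exact min_le_right _ _
  obtain ⟨ls, hls0, hls⟩ := IniA_ls hcn ht0 hs0 hμ hR
  refine ⟨ls, hls0, fun l hl hll => ?_⟩
  obtain ⟨hl1, hl2⟩ := hls l hl hll
  obtain ⟨a₁, ha₁e⟩ : ∃ x, x = √(2 * μ * l / cn) := ⟨_, rfl⟩
  rw [← ha₁e] at hl2
  have ha₁0 : 0 < a₁ := by rw [ha₁e]; exact Real.sqrt_pos.2 (by positivity)
  have ha₁2 : a₁ ^ 2 = 2 * μ * l / cn := by
    rw [ha₁e]
    exact Real.sq_sqrt (by positivity)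
  have ha₁N : a₁ * N ≤ c / 2 := by
    have h := hl2.trans ht2
    rw [le_div_iff₀ (by positivity)] at h
    linarith
  have hslow : Slow B (R * l) := by
    refine ⟨hB, by positivity, ?_⟩
    have h := hl1.trans hs1
    rw [le_div_iff₀ (by positivity)] at h
    linarith
  have hCs : C * (R * l + a₁) ≤ cn / 16 := by
    have h1 : R * l + a₁ ≤ cn / (32 * C) + cn / (32 * C) :=
      add_le_add (hl1.trans hs2) (hl2.trans ht3)
    have h2 := mul_le_mul_of_nonneg_left h1 hC0.le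
    have h3 : C * (cn / (32 * C) + cn / (32 * C)) = cn / 16 := by
      field_simp
      ring
    linarith
  refine ⟨a₁, ha₁0, hl2.trans ht1, fun ν₁ hν₁ => ?_⟩
  obtain ⟨G0, hG0e⟩ : ∃ x, x = Gn B (R * l) (nf k) := ⟨_, rfl⟩
  have hG00 : 0 ≤ G0 := by rw [hG0e]; exact Gn_nonneg hB0 _
  obtain ⟨νs, hνs0, hνs1, hνs2, hνs3⟩ := IniA_nu
    (m1 := min (min 1 (c ^ 2 / 8)) (l / 2)) (m2 := μ * l / 8)
    (m3 := min (μ * l / 4) (min (ν₁ ^ 2 / 2) (a₁ ^ 2 * n0 ^ 2 / 4)))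
    (P := C * (√(2 * G0 + 2) + √G0)) (D := C₁ ^ 2)
    (lt_min (lt_min one_pos (by positivity)) (by positivity)) (by positivity)
    (lt_min (by positivity) (lt_min (by positivity) (by positivity))) (by positivity)
    (by positivity)
  have hν1 : νs ≤ 1 := hνs1.trans ((min_le_left _ _).trans (min_le_left _ _))
  have hν2 : νs ≤ c ^ 2 / 8 := hνs1.trans ((min_le_left _ _).trans (min_le_right _ _))
  have hν3 : νs ≤ l / 2 := hνs1.trans (min_le_right _ _)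
  have hν4 : C₁ ^ 2 * νs ≤ μ * l / 4 := hνs3.trans (min_le_left _ _)
  have hν5 : C₁ ^ 2 * νs ≤ ν₁ ^ 2 / 2 := hνs3.trans ((min_le_right _ _).trans (min_le_left _ _))
  have hν6 : C₁ ^ 2 * νs ≤ a₁ ^ 2 * n0 ^ 2 / 4 :=
    hνs3.trans ((min_le_right _ _).trans (min_le_right _ _))
  refine ⟨νs, hνs0, fun a p q ε ha hA hGd hL2 hXd => ?_⟩
  obtain ⟨hA1, hA2, hA3, hA4, hA5⟩ := hA
  have haa : |a| ≤ a₁ := abs_le.2 ⟨ha.1, ha.2⟩
  have ha2 : a ^ 2 ≤ a₁ ^ 2 := by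
    rw [← sq_abs a]
    exact pow_le_pow_left₀ (abs_nonneg a) haa 2
  have hp0 : 0 < p := lt_trans (by positivity) hA1
  have hnpq : Cl p q (nf k) := Cl_mono hA2 hA4 hn
  have hanpq : Cl p q (fun y => a * nf k y) := Cl_smul a hnpq
  have hdpq : Cl p q (fun y => ε y - a * nf k y) := Cl_sub hA5 hanpq
  have hAε : Adm (R * l) p q ε := ⟨hA1, hA2, hA3, hA4, hA5⟩
  have hAn : Adm (R * l) p q (fun y => a * nf k y) := ⟨hA1, hA2, hA3, hA4, hanpq⟩
  have hAd : Adm (R * l) p q (fun y => ε y - a * nf k y) := ⟨hA1, hA2, hA3, hA4, hdpq⟩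
  -- pointwise bounds
  have hban : ∀ y, |a * nf k y| ≤ c / 2 := fun y => by
    rw [abs_mul]
    calc |a| * |nf k y| ≤ a₁ * N := mul_le_mul haa (hNb y) (abs_nonneg _) ha₁0.le
      _ ≤ c / 2 := ha₁N
  have hbd : ∀ y, |ε y - a * nf k y| ≤ c / 2 := fun y => by
    have h1 := Cl_sup hp0 hA3 hdpq y
    have h2 : 0 ≤ ∫ z, (ε z - a * nf k z) ^ 2 := integral_nonneg fun z => sq_nonneg _
    have h3 : 0 ≤ ∫ z, (deriv (fun y => ε y - a * nf k y) z) ^ 2 :=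
      integral_nonneg fun z => sq_nonneg _
    have h4 : (∫ z, (ε z - a * nf k z) ^ 2) *
        ∫ z, (deriv (fun y => ε y - a * nf k y) z) ^ 2 ≤ νs * νs :=
      mul_le_mul hL2 hXd h3 hνs0.le
    have h5 : |ε y - a * nf k y| ^ 4 ≤ (c / 2) ^ 4 := by
      have h6 : νs * νs ≤ c ^ 2 / 8 * (c ^ 2 / 8) := mul_le_mul hν2 hν2 hνs0.le (by positivity)
      linarith only [h1, h4, h6]
    exact (pow_le_pow_iff_left₀ (abs_nonneg _) (by positivity) (by norm_num)).1 h5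
  have hbε : ∀ y, |ε y| ≤ c := fun y => by
    have h1 : ε y = (ε y - a * nf k y) + a * nf k y := by ring
    rw [h1]
    exact (abs_add_le _ _).trans (by linarith [hbd y, hban y])
  have hban' : ∀ y, |a * nf k y| ≤ c := fun y => (hban y).trans (by linarith)
  have hac : |a| ≤ c := by
    refine haa.trans ?_
    have e1 := mul_le_mul_of_nonneg_left hN1 ha₁0.le
    linarith only [e1, ha₁N, hG.hc]
  -- the Lyapunov functional
  have hIN' : |LL k η γ δ M B (R * l) (fun y => a * nf k y) + cn * a ^ 2| ≤ μ * l / 8 := by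
    refine (hIN (R * l) hslow a hac).trans ?_
    have h1 : R * l * a ^ 2 ≤ R * l * a₁ ^ 2 := mul_le_mul_of_nonneg_left ha2 (by positivity)
    have h2 : |a| ^ 3 ≤ a₁ ^ 3 := pow_le_pow_left₀ (abs_nonneg a) haa 3
    have h3 : C * (R * l * a ^ 2 + |a| ^ 3) ≤ C * (R * l + a₁) * a₁ ^ 2 := by
      have := mul_le_mul_of_nonneg_left (add_le_add h1 h2) hC0.le
      calc C * (R * l * a ^ 2 + |a| ^ 3) ≤ C * (R * l * a₁ ^ 2 + a₁ ^ 3) := this
        _ = C * (R * l + a₁) * a₁ ^ 2 := by ring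
    have h4 : C * (R * l + a₁) * a₁ ^ 2 ≤ cn / 16 * a₁ ^ 2 :=
      mul_le_mul_of_nonneg_right hCs (sq_nonneg _)
    have h5 : cn / 16 * a₁ ^ 2 = μ * l / 8 := by
      rw [ha₁2]
      field_simp
      ring
    linarith
  have hGan : Gn B (R * l) (fun y => a * nf k y) ≤ G0 := by
    rw [IniA_Gs, ← hG0e]
    have h1 : a ^ 2 ≤ 1 := by
      have : a₁ ^ 2 ≤ 1 := pow_le_one₀ ha₁0.le (hl2.trans ht1)
      linarith
    calc a ^ 2 * G0 ≤ 1 * G0 := mul_le_mul_of_nonneg_right h1 hG00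
      _ = G0 := one_mul _
  have hGε : Gn B (R * l) ε ≤ 2 * G0 + 2 := by
    have h1 := IniA_Gn hslow hAε hAn
    linarith
  have hLIP : |LL k η γ δ M B (R * l) ε - LL k η γ δ M B (R * l) (fun y => a * nf k y)| ≤
      μ * l / 8 := by
    refine (hG.LIP (R * l) hslow p q ε (fun y => a * nf k y) hAε hAn hbε hban').trans ?_
    have h1 : √(Gn B (R * l) (fun y => ε y - a * nf k y)) ≤ √νs := Real.sqrt_le_sqrt hGd
    have h2 : √(Gn B (R * l) ε) ≤ √(2 * G0 + 2) := Real.sqrt_le_sqrt hGε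
    have h3 : √(Gn B (R * l) (fun y => a * nf k y)) ≤ √G0 := Real.sqrt_le_sqrt hGan
    calc C * √(Gn B (R * l) (fun y => ε y - a * nf k y)) *
          (√(Gn B (R * l) ε) + √(Gn B (R * l) (fun y => a * nf k y)))
        ≤ C * √νs * (√(2 * G0 + 2) + √G0) := by
          refine mul_le_mul (mul_le_mul_of_nonneg_left h1 hC0.le) (add_le_add h2 h3)
            (by positivity) (by positivity)
      _ = C * (√(2 * G0 + 2) + √G0) * √νs := by ring
      _ ≤ μ * l / 8 := hνs2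
  obtain ⟨hLa, hLb, hLc⟩ := IniA_LL hcn hμ hl ha₁2 ha2 hIN' hLIP
  -- pairings
  have hx : ∀ ψ : ℝ → ℝ, (ψ = Qf k ∨ ψ = deriv (Qf k) ∨ ψ = ph0 k) →
      ip ε ψ = a * ip (nf k) ψ + ip (fun y => ε y - a * nf k y) ψ ∧
      (ip (fun y => ε y - a * nf k y) ψ) ^ 2 ≤ C₁ ^ 2 * νs := by
    intro ψ hψ
    obtain ⟨h1, ⟨D, h2⟩, h3⟩ := hpair ψ hψ
    refine ⟨IniA_ip hp0 hA3 hA5 hnpq h1 h2, ?_⟩
    have h4 := h3 B (R * l) p q _ hslow hAd
    have h5 : C₁ * √(Gn B (R * l) (fun y => ε y - a * nf k y)) ≤ C₁ * √νs :=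
      mul_le_mul_of_nonneg_left (Real.sqrt_le_sqrt hGd) hC₁
    have h6 := pow_le_pow_left₀ (abs_nonneg _) (h4.trans h5) 2
    rw [sq_abs, mul_pow, Real.sq_sqrt hνs0.le] at h6
    exact h6
  obtain ⟨p1, p2⟩ := hx (ph0 k) (Or.inr (Or.inr rfl))
  obtain ⟨q1, q2⟩ := hx (Qf k) (Or.inl rfl)
  obtain ⟨r1, r2⟩ := hx (deriv (Qf k)) (Or.inr (Or.inl rfl))
  rw [← hn0e] at p1
  rw [hnQ, mul_zero, zero_add] at q1
  rw [hnQ', mul_zero, zero_add] at r1
  have hXε : Xn ε ≤ 2 * (a ^ 2 * n1) + 2 * νs := by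
    have h1 := IniA_Xn hp0 hA3 hA5 hanpq
    rw [IniA_Xs, ← hn1e] at h1
    linarith
  refine ⟨⟨hLa, ?_, ?_, ?_, ?_, ?_⟩, fun hae => ⟨?_, ?_⟩⟩
  · have : 0 < μ * l := by positivity
    linarith
  · rw [p1]
    exact IniA_w2 hcn hμ hl ha₁2 ha2 hLb (p2.trans hν4) hK2 hK3
  · exact IniA_w3 hcn hμ hμ1 hl ha₁2 ha2 hn1 hLb hν3 hXε hK6 hK7
  · rw [q1]
    have : 0 < ν₁ ^ 2 := by positivity
    linarith
  · rw [r1]
    have : 0 < ν₁ ^ 2 := by positivity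
    linarith
  · refine hLc ?_
    rw [← hae, sq_abs]
  · rw [p1, ← hn0e]
    exact IniA_sg hae ha₁0 hn0 (p2.trans hν6)

end H72KB

end S_H72_KB_IniA
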