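import Mathlib
import Pool.Agent.H98.BU.G01
import Pool.Agent.H98.BU.G02
import Pool.Agent.H98.BU.G19
import Pool.Agent.H98.BU.G20

/-! Blow-up for `u_t + u^k u_x + u_xxx - u_xx = 0`, part G21: this file joins several modules
to save build time (`Pool/Agent/H98/{KB,KC}`, `H72/{KB,KC}`, `H68/KC`, `H37/{KB,KC}`). -/

section S_H72_KC_Base4

/-!
# Case k = 4 of MP_95be7d: abstract flows in the rescaled variables, basic tools

`r = λ^{1/8}`, `s = r^2 = λ^{1/4}`, `λ^3 = r^24`.  `Z = λ^3 W_t`, `D = λ^3 ε_t`.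
The rows on continuity and on time derivatives of the functionals use only the structures below.
-/

open MeasureTheory Filter Topology Set
open scoped ContDiff

noncomputable section

namespace H72KC

open H98KB H72KB H68KC

/-- `W` moves with velocity `Z / λ^3` for the times in the open set `J`; everything decays exponentially -/
structure Flo (θ : ℝ) (J : Set ℝ) (r w : ℝ → ℝ) (W Z : ℝ → ℝ → ℝ) : Prop where
  op : IsOpen J
  θ0 : 0 < θ
  θ1 : θ ≤ 1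
  lo : ∀ t ∈ J, θ ≤ r t
  hi : ∀ t ∈ J, r t ≤ 1
  dr : ∀ t ∈ J, HasDerivAt r (-(w t * r t / 8) / (r t) ^ 24) t
  bw : ∃ C : ℝ, 0 ≤ C ∧ ∀ t ∈ J, |w t| ≤ C
  sm : ∀ t ∈ J, ContDiff ℝ ∞ (W t)
  sz : ∀ t ∈ J, ContDiff ℝ ∞ (Z t)
  bd : ∀ j : ℕ, ∃ C : ℝ, 0 ≤ C ∧ ∀ t ∈ J, ∀ y, |iteratedDeriv j (W t) y| ≤ C * H98KB.bd θ θ y ∧
    |iteratedDeriv j (Z t) y| ≤ C * H98KB.bd θ θ y
  ev : ∀ j : ℕ, ∀ t ∈ J, ∀ y, HasDerivAt (fun τ => iteratedDeriv j (W τ) y)
    (iteratedDeriv j (Z t) y / (r t) ^ 24) t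

/-- the same for a function `ε` which is only bounded in space -/
structure Fle (θ : ℝ) (J : Set ℝ) (r w : ℝ → ℝ) (ε D : ℝ → ℝ → ℝ) : Prop where
  op : IsOpen J
  θ0 : 0 < θ
  θ1 : θ ≤ 1
  lo : ∀ t ∈ J, θ ≤ r t
  hi : ∀ t ∈ J, r t ≤ 1
  dr : ∀ t ∈ J, HasDerivAt r (-(w t * r t / 8) / (r t) ^ 24) t
  bw : ∃ C : ℝ, 0 ≤ C ∧ ∀ t ∈ J, |w t| ≤ C
  sm : ∀ t ∈ J, ContDiff ℝ ∞ (ε t)
  sd : ∀ t ∈ J, ContDiff ℝ ∞ (D t)
  bd : ∀ j : ℕ, ∃ C : ℝ, 0 ≤ C ∧ ∀ t ∈ J, ∀ y, |iteratedDeriv j (ε t) y| ≤ C ∧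
    |iteratedDeriv j (D t) y| ≤ C
  ev : ∀ j : ℕ, ∀ t ∈ J, ∀ y, HasDerivAt (fun τ => iteratedDeriv j (ε τ) y)
    (iteratedDeriv j (D t) y / (r t) ^ 24) t

/-- a continuous family of exponentially decaying functions -/
structure Fa (θ : ℝ) (S : Set ℝ) (r : ℝ → ℝ) (W : ℝ → ℝ → ℝ) : Prop where
  θ0 : 0 < θ
  θ1 : θ ≤ 1
  lo : ∀ t ∈ S, θ ≤ r t
  hi : ∀ t ∈ S, r t ≤ 1
  cr : ContinuousOn r S
  sm : ∀ t ∈ S, ContDiff ℝ ∞ (W t)
  bd : ∀ j : ℕ, ∃ C : ℝ, 0 ≤ C ∧ ∀ t ∈ S, ∀ y, |iteratedDeriv j (W t) y| ≤ C * H98KB.bd θ θ y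
  co : ∀ (j : ℕ) (y : ℝ), ContinuousOn (fun t => iteratedDeriv j (W t) y) S

/-- a continuous family of functions bounded in space -/
structure Fae (θ : ℝ) (S : Set ℝ) (r : ℝ → ℝ) (ε : ℝ → ℝ → ℝ) : Prop where
  θ0 : 0 < θ
  θ1 : θ ≤ 1
  lo : ∀ t ∈ S, θ ≤ r t
  hi : ∀ t ∈ S, r t ≤ 1
  cr : ContinuousOn r S
  sm : ∀ t ∈ S, ContDiff ℝ ∞ (ε t)
  bd : ∀ j : ℕ, ∃ C : ℝ, 0 ≤ C ∧ ∀ t ∈ S, ∀ y, |iteratedDeriv j (ε t) y| ≤ C
  co : ∀ (j : ℕ) (y : ℝ), ContinuousOn (fun t => iteratedDeriv j (ε t) y) S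

/-- differentiation under the integral sign -/
theorem dInt {J : Set ℝ} (hJ : IsOpen J) {G G' : ℝ → ℝ → ℝ} {g : ℝ → ℝ} (hg : Integrable g)
    (hm : ∀ τ ∈ J, Continuous (G τ)) (hm' : ∀ τ ∈ J, Continuous (G' τ))
    (hb : ∀ τ ∈ J, ∀ y, |G τ y| ≤ g y) (hb' : ∀ τ ∈ J, ∀ y, |G' τ y| ≤ g y)
    (hd : ∀ τ ∈ J, ∀ y, HasDerivAt (fun τ => G τ y) (G' τ y) τ) {t : ℝ} (ht : t ∈ J) :
    Integrable (G t) ∧ Integrable (G' t) ∧
      HasDerivAt (fun τ => ∫ y, G τ y) (∫ y, G' t y) t := by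
  have h1 : Integrable (G t) := hg.mono' (hm t ht).aestronglyMeasurable
    (Eventually.of_forall fun y => by
      rw [Real.norm_eq_abs]
      exact hb t ht y)
  have key := hasDerivAt_integral_of_dominated_loc_of_deriv_le (μ := volume) (x₀ := t) (s := J)
    (F := fun τ y => G τ y) (F' := fun τ y => G' τ y) (bound := g) (hJ.mem_nhds ht)
    (Filter.eventually_of_mem (hJ.mem_nhds ht) fun τ hτ => (hm τ hτ).aestronglyMeasurable)
    h1 (hm' t ht).aestronglyMeasurable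
    (Eventually.of_forall fun y τ hτ => by
      rw [Real.norm_eq_abs]
      exact hb' τ hτ y) hg
    (Eventually.of_forall fun y τ hτ => hd τ hτ y)
  exact ⟨h1, key.1, key.2⟩

/-- continuity of a parametric integral -/
theorem cInt {S : Set ℝ} {G : ℝ → ℝ → ℝ} {g : ℝ → ℝ} (hg : Integrable g)
    (hm : ∀ τ ∈ S, Continuous (G τ)) (hb : ∀ τ ∈ S, ∀ y, |G τ y| ≤ g y)
    (hc : ∀ y, ContinuousOn (fun τ => G τ y) S) : ContinuousOn (fun τ => ∫ y, G τ y) S :=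
  PCon_dom S G g hg hm hb hc

end H72KC

end

end S_H72_KC_Base4

section S_H72_KC_WtZ

/-!
# Row WtZ: the weights

`Zf ξ = (1/cosh(ξ-2))^2`, `om4 B s y = Th B y * Zf (s*y)`, `Th B y = 1/(1+exp(-y/B)) ∈ (0,1)`, `Ph s y = Th 4 (y - 1/(2s))`.
Proof.  `cosh x ≥ e^{|x|}/2`, so `0 < Zf ξ ≤ 4 e^{-2|ξ-2|} ≤ 4 e^4 e^{-2|ξ|}`; for `s ≥ σ > 0`: `e^{-2 s |y|} ≤ e^{-2σ|y|} = bd (2σ) (2σ) y ≤ bd σ σ y`
(`bd a a y = exp(-a |y|)`: `max y 0 + max (-y) 0 = |y|`, `ClA_abs`).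
`Zf' ξ = -2 tanh(ξ-2) Zf ξ` (derivative of `cosh^{-2}`), so `|Zf'| ≤ 2 Zf`.
`Ph s y ≤ 1`; its derivative in `y` is `Th(1-Th)/4`, `|deriv (Ph s) y| ≤ 1`.
-/

open MeasureTheory Filter Topology Set
open scoped ContDiff

namespace H72KC

open H98KB H72KB H68KC

theorem zf_smooth : ContDiff ℝ ∞ Zf := by
  unfold Zf
  exact (contDiff_const.div (Real.contDiff_cosh.comp (contDiff_id.sub contDiff_const))
    (fun x => (Real.cosh_pos _).ne')).pow 2

theorem WtZ_hd (ξ : ℝ) : HasDerivAt Zf (-(2 * Real.sinh (ξ - 2)) / Real.cosh (ξ - 2) ^ 3) ξ := by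
  have h1 : HasDerivAt (fun ξ => Real.cosh (ξ - 2)) (Real.sinh (ξ - 2)) ξ := by
    have := (Real.hasDerivAt_cosh (ξ - 2)).comp ξ ((hasDerivAt_id ξ).sub_const 2)
    rw [mul_one] at this
    exact this
  have hc : Real.cosh (ξ - 2) ≠ 0 := (Real.cosh_pos _).ne'
  have h2 : HasDerivAt (fun ξ => 1 / Real.cosh (ξ - 2))
      (-Real.sinh (ξ - 2) / Real.cosh (ξ - 2) ^ 2) ξ := by
    have := h1.inv hc
    simpa only [one_div] using! this
  have h3 := h2.pow 2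
  have h4 : -(2 * Real.sinh (ξ - 2)) / Real.cosh (ξ - 2) ^ 3 =
      ((2 : ℕ) : ℝ) * (1 / Real.cosh (ξ - 2)) ^ (2 - 1) *
        (-Real.sinh (ξ - 2) / Real.cosh (ξ - 2) ^ 2) := by
    push_cast
    field_simp
  rw [h4]
  exact h3

theorem WtZ_sinh (x : ℝ) : |Real.sinh x| ≤ Real.cosh x := by
  rw [Real.abs_sinh, ← Real.cosh_abs]
  exact (Real.sinh_lt_cosh _).le

theorem zf_der (ξ : ℝ) : HasDerivAt Zf (deriv Zf ξ) ξ ∧ |deriv Zf ξ| ≤ 2 * Zf ξ ∧ 0 < Zf ξ ∧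
    Zf ξ ≤ 1 := by
  have h := WtZ_hd ξ
  have hc := Real.one_le_cosh (ξ - 2)
  have hc0 := Real.cosh_pos (ξ - 2)
  refine ⟨?_, ?_, ?_, ?_⟩
  · rw [h.deriv]
    exact h
  · rw [h.deriv]
    have h1 := WtZ_sinh (ξ - 2)
    have h2 : Zf ξ = 1 / Real.cosh (ξ - 2) ^ 2 := by
      unfold Zf
      rw [div_pow, one_pow]
    rw [h2, abs_div, abs_neg, abs_mul, abs_two, abs_of_pos (pow_pos hc0 3),
      div_le_iff₀ (pow_pos hc0 3)]
    have h3 : 2 * (1 / Real.cosh (ξ - 2) ^ 2) * Real.cosh (ξ - 2) ^ 3 =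
        2 * Real.cosh (ξ - 2) := by
      field_simp
    rw [h3]
    linarith
  · unfold Zf
    positivity
  · unfold Zf
    rw [div_pow, one_pow, div_le_one (pow_pos hc0 2)]
    exact one_le_pow₀ hc

theorem th_bnd (B y : ℝ) : 0 < Th B y ∧ Th B y < 1 := by
  unfold Th
  have h := Real.exp_pos (-y / B)
  constructor
  · positivity
  · rw [div_lt_one (by positivity)]
    linarith

theorem th_smooth (B : ℝ) : ContDiff ℝ ∞ (Th B) := by
  unfold Th
  refine contDiff_const.div ?_ ?_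
  · exact contDiff_const.add (Real.contDiff_exp.comp (contDiff_id.neg.div_const B))
  · intro y
    have h := Real.exp_pos (-y / B)
    positivity

theorem WtZ_up (ξ : ℝ) : Zf ξ ≤ 4 * Real.exp 4 * Real.exp (-(2 * |ξ|)) := by
  have h1 : Real.exp |ξ - 2| / 2 ≤ Real.cosh (ξ - 2) := by
    rw [← Real.cosh_abs, Real.cosh_eq]
    have := Real.exp_pos (-|ξ - 2|)
    linarith
  have h2 : 1 / Real.cosh (ξ - 2) ≤ 2 * Real.exp (-|ξ - 2|) := by
    rw [div_le_iff₀ (Real.cosh_pos _)]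
    have h3 := mul_le_mul_of_nonneg_left h1 (Real.exp_pos (-|ξ - 2|)).le
    have h4 : Real.exp (-|ξ - 2|) * (Real.exp |ξ - 2| / 2) = 1 / 2 := by
      rw [mul_div_assoc', ← Real.exp_add, neg_add_cancel, Real.exp_zero]
    linarith
  have h3 : Zf ξ ≤ (2 * Real.exp (-|ξ - 2|)) ^ 2 := by
    unfold Zf
    exact pow_le_pow_left₀ (by positivity) h2 2
  have h4 : (2 * Real.exp (-|ξ - 2|)) ^ 2 = 4 * Real.exp (-(2 * |ξ - 2|)) := by
    rw [mul_pow, ← Real.exp_nat_mul]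
    norm_num
  have h5 : |ξ| ≤ |ξ - 2| + 2 := by
    have := abs_add_le (ξ - 2) 2
    rw [sub_add_cancel, abs_two] at this
    exact this
  rw [h4] at h3
  refine h3.trans ?_
  rw [mul_assoc, ← Real.exp_add]
  refine mul_le_mul_of_nonneg_left (Real.exp_le_exp.2 ?_) (by norm_num)
  linarith

/-- the weight and its derivative in `s` are dominated by an integrable function, uniformly in
`s ≥ σ` -/
theorem om4_dom {σ : ℝ} (hσ : 0 < σ) : ∃ C : ℝ, 0 ≤ C ∧ ∀ B s y : ℝ, σ ≤ s →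
    |om4 B s y| ≤ C * bd (σ / 2) (σ / 2) y ∧ |y * Th B y * deriv Zf (s * y)| ≤ C * bd (σ / 2) (σ / 2) y := by
  refine ⟨4 * Real.exp 4 + 8 * Real.exp 4 / σ, by positivity, ?_⟩
  intro B s y hs
  have hbd : bd (σ / 2) (σ / 2) y = Real.exp (-(σ / 2 * |y|)) := by
    unfold bd
    rw [← ClA_abs y]
    congr 1
    ring
  have hT := th_bnd B y
  have hz := zf_der (s * y)
  have hup := WtZ_up (s * y)
  have hs0 : 0 < s := by linarith
  have hy0 := abs_nonneg y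
  have e1 : Real.exp (-(2 * |s * y|)) ≤ Real.exp (-(2 * σ * |y|)) := by
    rw [Real.exp_le_exp, abs_mul, abs_of_pos hs0]
    have := mul_le_mul_of_nonneg_right hs hy0
    linarith
  have e2 : Zf (s * y) ≤ 4 * Real.exp 4 * Real.exp (-(2 * σ * |y|)) :=
    hup.trans (mul_le_mul_of_nonneg_left e1 (by positivity))
  have e3 : Real.exp (-(2 * σ * |y|)) = Real.exp (-(3 / 2 * σ * |y|)) *
      Real.exp (-(σ / 2 * |y|)) := by
    rw [← Real.exp_add]
    congr 1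
    ring
  have e4 : Real.exp (-(3 / 2 * σ * |y|)) ≤ 1 := by
    rw [Real.exp_le_one_iff]
    have := mul_nonneg hσ.le hy0
    linarith
  have e5 : |y| * Real.exp (-(3 / 2 * σ * |y|)) ≤ 1 / σ := by
    have h1 := Real.add_one_le_exp (3 / 2 * σ * |y|)
    have h2 : σ * |y| ≤ Real.exp (3 / 2 * σ * |y|) := by
      have := mul_nonneg hσ.le hy0
      linarith
    have h3 := mul_le_mul_of_nonneg_right h2 (Real.exp_pos (-(3 / 2 * σ * |y|))).le
    rw [← Real.exp_add, add_neg_cancel, Real.exp_zero] at h3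
    rw [le_div_iff₀ hσ]
    linarith
  have hE := Real.exp_pos (-(σ / 2 * |y|))
  have h4 := Real.exp_pos (4 : ℝ)
  rw [hbd]
  constructor
  · unfold om4
    rw [abs_of_pos (mul_pos hT.1 hz.2.2.1)]
    have h5 : Th B y * Zf (s * y) ≤ 1 * Zf (s * y) :=
      mul_le_mul_of_nonneg_right hT.2.le hz.2.2.1.le
    have h6 : Real.exp (-(3 / 2 * σ * |y|)) * Real.exp (-(σ / 2 * |y|)) ≤
        1 * Real.exp (-(σ / 2 * |y|)) := mul_le_mul_of_nonneg_right e4 hE.le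
    have h7 : 4 * Real.exp 4 * Real.exp (-(2 * σ * |y|)) ≤
        4 * Real.exp 4 * Real.exp (-(σ / 2 * |y|)) := by
      rw [e3]
      refine mul_le_mul_of_nonneg_left ?_ (by positivity)
      linarith
    have h8 : 0 ≤ 8 * Real.exp 4 / σ * Real.exp (-(σ / 2 * |y|)) := by positivity
    rw [add_mul]
    linarith
  · rw [abs_mul, abs_mul, abs_of_pos hT.1]
    have h5 : |y| * Th B y ≤ |y| * 1 := mul_le_mul_of_nonneg_left hT.2.le hy0
    have h6 : |deriv Zf (s * y)| ≤ 2 * (4 * Real.exp 4 * Real.exp (-(2 * σ * |y|))) := by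
      linarith [hz.2.1]
    have h7 : |y| * Th B y * |deriv Zf (s * y)| ≤
        (|y| * 1) * (2 * (4 * Real.exp 4 * Real.exp (-(2 * σ * |y|)))) :=
      mul_le_mul h5 h6 (abs_nonneg _) (by positivity)
    have h8 : (|y| * 1) * (2 * (4 * Real.exp 4 * Real.exp (-(2 * σ * |y|)))) =
        8 * Real.exp 4 * ((|y| * Real.exp (-(3 / 2 * σ * |y|))) * Real.exp (-(σ / 2 * |y|))) := by
      rw [e3]
      ring
    have h9 : (|y| * Real.exp (-(3 / 2 * σ * |y|))) * Real.exp (-(σ / 2 * |y|)) ≤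
        1 / σ * Real.exp (-(σ / 2 * |y|)) := mul_le_mul_of_nonneg_right e5 hE.le
    have h10 := mul_le_mul_of_nonneg_left h9 (by positivity : 0 ≤ 8 * Real.exp 4)
    have h11 : 0 ≤ 4 * Real.exp 4 * Real.exp (-(σ / 2 * |y|)) := by positivity
    have h12 : 8 * Real.exp 4 * (1 / σ * Real.exp (-(σ / 2 * |y|))) =
        8 * Real.exp 4 / σ * Real.exp (-(σ / 2 * |y|)) := by ring
    rw [add_mul]
    linarith

theorem WtZ_Th (u : ℝ) : HasDerivAt (Th 4)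
    (1 / 4 * Real.exp (-u / 4) / (1 + Real.exp (-u / 4)) ^ 2) u := by
  have h0 := Real.exp_pos (-u / 4)
  have h1 : HasDerivAt (fun u : ℝ => -u / 4) (-1 / 4) u := by
    have := (hasDerivAt_id u).neg.div_const 4
    exact this
  have h2 : HasDerivAt (fun u : ℝ => 1 + Real.exp (-u / 4)) (Real.exp (-u / 4) * (-1 / 4)) u :=
    h1.exp.const_add 1
  have h3 := h2.inv (by positivity : 1 + Real.exp (-u / 4) ≠ 0)
  have h4 : 1 / 4 * Real.exp (-u / 4) / (1 + Real.exp (-u / 4)) ^ 2 =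
      -(Real.exp (-u / 4) * (-1 / 4)) / (1 + Real.exp (-u / 4)) ^ 2 := by ring
  rw [h4]
  have h5 : Th 4 = (fun u : ℝ => 1 + Real.exp (-u / 4))⁻¹ := by
    funext v
    unfold Th
    rw [one_div]
    rfl
  rw [h5]
  exact h3

/-- derivatives of the front `Ph s y = Th 4 (y - 1/(2s))` -/
theorem ph_der {s : ℝ} (hs : 0 < s) (y : ℝ) : HasDerivAt (Ph s) (deriv (Ph s) y) y ∧
    HasDerivAt (fun s => Ph s y) (deriv (Ph s) y * (1 / (2 * s ^ 2))) s ∧
    |deriv (Ph s) y| ≤ 1 ∧ 0 < Ph s y ∧ Ph s y < 1 ∧ Continuous (Ph s) ∧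
    Continuous (deriv (Ph s)) := by
  have hc : ContDiff ℝ ∞ (Ph s) := by
    unfold Ph
    exact (th_smooth 4).comp (contDiff_id.sub contDiff_const)
  have h1 : HasDerivAt (Ph s) (1 / 4 * Real.exp (-(y - 1 / (2 * s)) / 4) /
      (1 + Real.exp (-(y - 1 / (2 * s)) / 4)) ^ 2) y := by
    have h := (WtZ_Th (y - 1 / (2 * s))).comp y ((hasDerivAt_id y).sub_const (1 / (2 * s)))
    rw [mul_one] at h
    exact h
  have h2 : HasDerivAt (fun s : ℝ => y - 1 / (2 * s)) (1 / (2 * s ^ 2)) s := by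
    have h3 : HasDerivAt (fun s : ℝ => 2 * s) 2 s := by
      have := (hasDerivAt_id s).const_mul 2
      rw [mul_one] at this
      exact this
    have h4 := (h3.inv (by positivity : 2 * s ≠ 0)).const_sub y
    have h5 : 1 / (2 * s ^ 2) = -(-2 / (2 * s) ^ 2) := by
      field_simp
    rw [h5]
    simpa only [one_div] using! h4
  refine ⟨?_, ?_, ?_, (th_bnd 4 _).1, (th_bnd 4 _).2, hc.continuous, ?_⟩
  · rw [h1.deriv]
    exact h1
  · rw [h1.deriv]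
    exact (WtZ_Th (y - 1 / (2 * s))).comp s h2
  · rw [h1.deriv]
    have h0 := Real.exp_pos (-(y - 1 / (2 * s)) / 4)
    rw [abs_of_pos (by positivity), div_le_one (by positivity)]
    nlinarith
  · exact hc.continuous_deriv (by simp)

end H72KC

end S_H72_KC_WtZ

section S_H72_KB_ConE

/-!
# Row ConE: continuity of the energy functional for a `Fam`

Proof.  `continuousWithinAt_of_dominated`: for fixed `y` the integrand
`om B (R lam z) y * ((ε')² + ε² - 2 bF)` is continuous in `z` (`F.cl`, `F.co 0`, `F.co 1`; `bF` is a polynomial in `ε z y`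
and `Q y`).  Domination: `|bF k ε y| ≤ C₁ (ε y)²` when `|ε y| ≤ C₀` (and `|Q| ≤ C`): Taylor
`F(Q+ε)-F(Q)-f(Q)ε = ε² ∫_0^1 (1-s)(Q+sε)^k ds`, or expand `(Q+ε)^{k+2}` binomially (every term from `ε²` on has a factor
`ε²`); so `|(ε')²+ε²-2bF| ≤ C₂ (bd (ρ+θ) θ y)²`, and `om * bd² ≤ bd (2θ) (2θ)` (`om_bd`), integrable (`bd_int`).
-/

open MeasureTheory Filter Topology Set
open scoped ContDiff

namespace H72KB

open H98KB

theorem ConE_bin (M : ℝ) (hM : 0 ≤ M) (n : ℕ) : ∃ K : ℝ, 0 ≤ K ∧ ∀ a e : ℝ, |a| ≤ M →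
    |a + e| ≤ M → |(a + e) ^ (n + 1) - a ^ (n + 1) - ((n : ℝ) + 1) * a ^ n * e| ≤ K * e ^ 2 := by
  induction n with
  | zero =>
    refine ⟨0, le_refl 0, fun a e _ _ => ?_⟩
    have h : (a + e) ^ (0 + 1) - a ^ (0 + 1) - (((0 : ℕ) : ℝ) + 1) * a ^ 0 * e = 0 := by
      push_cast
      ring
    rw [h]
    simp
  | succ n ih =>
    obtain ⟨K, hK, h⟩ := ih
    refine ⟨M * K + ((n : ℝ) + 1) * M ^ n, by positivity, fun a e ha hae => ?_⟩
    have h1 := h a e ha hae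
    have h2 : (a + e) ^ (n + 1 + 1) - a ^ (n + 1 + 1) - (((n + 1 : ℕ) : ℝ) + 1) * a ^ (n + 1) * e =
        (a + e) * ((a + e) ^ (n + 1) - a ^ (n + 1) - ((n : ℝ) + 1) * a ^ n * e) +
          ((n : ℝ) + 1) * a ^ n * e ^ 2 := by
      push_cast
      ring
    rw [h2]
    refine (abs_add_le _ _).trans ?_
    have h3 : |(a + e) * ((a + e) ^ (n + 1) - a ^ (n + 1) - ((n : ℝ) + 1) * a ^ n * e)| ≤
        M * (K * e ^ 2) := by
      rw [abs_mul]
      exact mul_le_mul hae h1 (abs_nonneg _) hM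
    have h4 : |((n : ℝ) + 1) * a ^ n * e ^ 2| ≤ ((n : ℝ) + 1) * M ^ n * e ^ 2 := by
      have h5 : (0 : ℝ) ≤ (n : ℝ) + 1 := by positivity
      rw [abs_mul, abs_mul, abs_pow, abs_of_nonneg h5, abs_of_nonneg (sq_nonneg e)]
      refine mul_le_mul_of_nonneg_right (mul_le_mul_of_nonneg_left ?_ h5) (sq_nonneg e)
      exact pow_le_pow_left₀ (abs_nonneg a) ha n
    calc _ ≤ M * (K * e ^ 2) + ((n : ℝ) + 1) * M ^ n * e ^ 2 := add_le_add h3 h4
      _ = _ := by ring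

/-- quadratic bound for `bF` -/
theorem bF_bound {k : ℕ} (hk : 1 ≤ k) (C₀ : ℝ) : ∃ C₁ : ℝ, 0 ≤ C₁ ∧ ∀ (ε : ℝ → ℝ) (y : ℝ),
    |ε y| ≤ C₀ → |bF k ε y| ≤ C₁ * (ε y) ^ 2 := by
  obtain ⟨C, hC⟩ := (Q_cl hk).2 0
  obtain ⟨K, hK, h⟩ := ConE_bin (|C| + |C₀|) (by positivity) (k + 1)
  refine ⟨K, hK, fun ε y hy => ?_⟩
  have hQ : |Qf k y| ≤ |C| := by
    have h1 := hC y
    rw [iteratedDeriv_zero] at h1
    have h2 : bd 1 1 y ≤ 1 := bd_le_one zero_le_one zero_le_one y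
    have h3 := bd_pos 1 1 y
    have h4 : C * bd 1 1 y ≤ |C| * bd 1 1 y := mul_le_mul_of_nonneg_right (le_abs_self C) h3.le
    have h5 : |C| * bd 1 1 y ≤ |C| * 1 := mul_le_mul_of_nonneg_left h2 (abs_nonneg C)
    linarith
  have h6 : |Qf k y| ≤ |C| + |C₀| := by
    have := abs_nonneg C₀
    linarith
  have h7 : |Qf k y + ε y| ≤ |C| + |C₀| := by
    refine (abs_add_le _ _).trans ?_
    have := le_abs_self C₀
    linarith
  have h8 := h (Qf k y) (ε y) h6 h7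
  have h9 : (0 : ℝ) < ((k : ℝ) + 1) * ((k : ℝ) + 2) := by positivity
  have h10 : (1 : ℝ) ≤ ((k : ℝ) + 1) * ((k : ℝ) + 2) := by
    have : (0 : ℝ) ≤ (k : ℝ) := Nat.cast_nonneg k
    nlinarith
  have h11 : bF k ε y = ((Qf k y + ε y) ^ (k + 1 + 1) - (Qf k y) ^ (k + 1 + 1) -
      (((k + 1 : ℕ) : ℝ) + 1) * (Qf k y) ^ (k + 1) * ε y) / (((k : ℝ) + 1) * ((k : ℝ) + 2)) := by
    unfold bF Fl fl
    have e1 : (k : ℝ) + 1 ≠ 0 := by positivity
    have e2 : (k : ℝ) + 2 ≠ 0 := by positivity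
    push_cast
    field_simp
    ring
  rw [h11, abs_div, abs_of_pos h9]
  exact (div_le_self (abs_nonneg _) h10).trans h8

theorem con_E {k : ℕ} {R θ : ℝ} {S : Set (ℝ × ℝ)} {lam : ℝ × ℝ → ℝ} {ε : ℝ × ℝ → ℝ → ℝ}
    (hk : 1 ≤ k) (F : Fam R θ S lam ε) {B : ℝ} (hB : 0 < B) :
    ContinuousOn (fun z => Ef k B (R * lam z) (ε z)) S := by
  have hθ := F.θ0
  obtain ⟨C0, hC0⟩ := F.bd 0
  obtain ⟨C1, hC1⟩ := F.bd 1
  obtain ⟨C2, hC2, hbF⟩ := bF_bound hk |C0|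
  have hQ : Continuous (Qf k) := (Q_cl hk).1.continuous
  have hρ : ∀ z ∈ S, 0 ≤ R * lam z := fun z hz =>
    mul_nonneg F.R0 (hθ.le.trans (F.lo z hz))
  have hf0 : ∀ z ∈ S, ∀ y, |ε z y| ≤ |C0| * bd (R * lam z + θ) θ y := by
    intro z hz y
    have h1 := hC0 z hz y
    rw [iteratedDeriv_zero] at h1
    exact h1.trans (mul_le_mul_of_nonneg_right (le_abs_self C0) (bd_pos _ _ y).le)
  have hf1 : ∀ z ∈ S, ∀ y, |deriv (ε z) y| ≤ |C1| * bd (R * lam z + θ) θ y := by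
    intro z hz y
    have h1 := hC1 z hz y
    rw [iteratedDeriv_one] at h1
    exact h1.trans (mul_le_mul_of_nonneg_right (le_abs_self C1) (bd_pos _ _ y).le)
  have hbd1 : ∀ z ∈ S, ∀ y, bd (R * lam z + θ) θ y ≤ 1 := fun z hz y =>
    bd_le_one (by linarith [hρ z hz]) hθ.le y
  have hf2 : ∀ z ∈ S, ∀ y, |bF k (ε z) y| ≤ C2 * (ε z y) ^ 2 := by
    intro z hz y
    refine hbF (ε z) y ((hf0 z hz y).trans ?_)
    have h := mul_le_mul_of_nonneg_left (hbd1 z hz y) (abs_nonneg C0)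
    linarith
  intro z₀ hz₀
  have key : ContinuousWithinAt (fun z => ∫ y, om B (R * lam z) y *
      ((deriv (ε z) y) ^ 2 + (ε z y) ^ 2 - 2 * bF k (ε z) y)) S z₀ := by
    refine continuousWithinAt_of_dominated
      (bound := fun y => (C1 ^ 2 + C0 ^ 2 + 2 * (C2 * C0 ^ 2)) * bd (2 * θ) (2 * θ) y) ?_ ?_ ?_ ?_
    · filter_upwards [self_mem_nhdsWithin] with z hz
      have c0 : Continuous (ε z) := (F.sm z hz).continuous
      have c1 : Continuous (deriv (ε z)) := (F.sm z hz).continuous_deriv (by simp)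
      have c2 : Continuous (fun y => om B (R * lam z) y) := by
        unfold om Th
        refine Continuous.mul (Continuous.div continuous_const ?_ ?_) ?_
        · fun_prop
        · intro y
          have := Real.exp_pos (-y / B)
          positivity
        · fun_prop
      have c3 : Continuous (fun y => bF k (ε z) y) := by
        unfold bF Fl fl
        fun_prop
      exact (c2.mul (((c1.pow 2).add (c0.pow 2)).sub (c3.const_mul 2))).aestronglyMeasurable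
    · filter_upwards [self_mem_nhdsWithin] with z hz
      refine Eventually.of_forall fun y => ?_
      obtain ⟨o1, o2⟩ := om_bd (θ := θ) hB (hρ z hz) hθ.le y
      have b0 := bd_pos (R * lam z + θ) θ y
      have e0 : (ε z y) ^ 2 ≤ C0 ^ 2 * (bd (R * lam z + θ) θ y) ^ 2 := by
        rw [← sq_abs (ε z y), ← sq_abs C0, ← mul_pow]
        exact pow_le_pow_left₀ (abs_nonneg _) (hf0 z hz y) 2
      have e1 : (deriv (ε z) y) ^ 2 ≤ C1 ^ 2 * (bd (R * lam z + θ) θ y) ^ 2 := by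
        rw [← sq_abs (deriv (ε z) y), ← sq_abs C1, ← mul_pow]
        exact pow_le_pow_left₀ (abs_nonneg _) (hf1 z hz y) 2
      have e2 := hf2 z hz y
      have e3 : C2 * (ε z y) ^ 2 ≤ C2 * (C0 ^ 2 * (bd (R * lam z + θ) θ y) ^ 2) :=
        mul_le_mul_of_nonneg_left e0 hC2
      have e4 : |(deriv (ε z) y) ^ 2 + (ε z y) ^ 2 - 2 * bF k (ε z) y| ≤
          (C1 ^ 2 + C0 ^ 2 + 2 * (C2 * C0 ^ 2)) * (bd (R * lam z + θ) θ y) ^ 2 := by
        have e5 := abs_le.1 e2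
        rw [abs_le]
        constructor
        · nlinarith [sq_nonneg (deriv (ε z) y), sq_nonneg (ε z y), e5.1, e5.2]
        · nlinarith [sq_nonneg (deriv (ε z) y), sq_nonneg (ε z y), e5.1, e5.2]
      rw [Real.norm_eq_abs, abs_mul, abs_of_pos o1]
      calc om B (R * lam z) y * |(deriv (ε z) y) ^ 2 + (ε z y) ^ 2 - 2 * bF k (ε z) y|
          ≤ om B (R * lam z) y * ((C1 ^ 2 + C0 ^ 2 + 2 * (C2 * C0 ^ 2)) *
            (bd (R * lam z + θ) θ y) ^ 2) := mul_le_mul_of_nonneg_left e4 o1.le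
        _ = (C1 ^ 2 + C0 ^ 2 + 2 * (C2 * C0 ^ 2)) *
            (om B (R * lam z) y * (bd (R * lam z + θ) θ y) ^ 2) := by ring
        _ ≤ (C1 ^ 2 + C0 ^ 2 + 2 * (C2 * C0 ^ 2)) * bd (2 * θ) (2 * θ) y :=
          mul_le_mul_of_nonneg_left o2 (by positivity)
    · exact (bd_int (by linarith) (by linarith)).const_mul _
    · refine Eventually.of_forall fun y => ?_
      have d0 : ContinuousWithinAt (fun z => ε z y) S z₀ := by
        have h := F.co 0 y z₀ hz₀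
        simpa [iteratedDeriv_zero] using h
      have d1 : ContinuousWithinAt (fun z => deriv (ε z) y) S z₀ := by
        have h := F.co 1 y z₀ hz₀
        simpa [iteratedDeriv_one] using h
      have dl : ContinuousWithinAt lam S z₀ := F.cl z₀ hz₀
      have d2 : ContinuousWithinAt (fun z => om B (R * lam z) y) S z₀ := by
        unfold om
        refine continuousWithinAt_const.mul ?_
        refine Real.continuous_exp.continuousAt.comp_continuousWithinAt ?_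
        exact (continuousWithinAt_const.mul (continuousWithinAt_const.mul dl)).mul
          continuousWithinAt_const
      have d3 : ContinuousWithinAt (fun z => bF k (ε z) y) S z₀ := by
        unfold bF Fl fl
        refine ContinuousWithinAt.sub (ContinuousWithinAt.sub ?_ continuousWithinAt_const) ?_
        · exact ((continuousWithinAt_const.add d0).pow _).div_const _
        · exact continuousWithinAt_const.mul d0
      exact d2.mul (((d1.pow 2).add (d0.pow 2)).sub (continuousWithinAt_const.mul d3))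
  have h := key.const_mul (1 / 2 : ℝ)
  exact h

end H72KB

end S_H72_KB_ConE

section S_H72_KC_CE4

/-!
# Row CE4: continuity of the energy functional `E4 B (r^2) (ε t)` for a bounded family

`E4 B s ε = 1/2 * ∫ om4 B s y * (ε'^2 + ε^2 - 2 bF 4 ε y)`.
Proof.  `cInt`: `G t y = om4 B ((r t)^2) y * (..)`.  `|ε|,|ε'| ≤ C` (`F.bd 0`, `F.bd 1`), `|bF 4 ε y| ≤ C₁ ε^2 ≤ C₁ C^2` (`bF_bound` with `C₀ = C`),
`|om4| ≤ C bd (σ/2) (σ/2)` with `σ = θ^2` (`om4_dom`, `(r t)^2 ≥ θ^2`), integrable (`bd_int`).  Pointwise continuity: `F.co 0`, `F.co 1`,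
`F.cr` (`om4 B s y` is continuous in `s`: `zf_smooth`; `bF`, `Fl`, `fl` are polynomials in `ε y`).  `iteratedDeriv_one`.
Model: `con_E` in `Pool/Agent/H72/KB/ConE.lean`.
-/

open MeasureTheory Filter Topology Set
open scoped ContDiff

namespace H72KC

open H98KB H72KB H68KC

theorem con_E4 {θ : ℝ} {S : Set ℝ} {r : ℝ → ℝ} {ε : ℝ → ℝ → ℝ} (F : Fae θ S r ε) (B : ℝ) :
    ContinuousOn (fun t => E4 B ((r t) ^ 2) (ε t)) S := by
  have hθ := F.θ0
  have hσ : 0 < θ ^ 2 := by positivity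
  obtain ⟨C, hC, hom⟩ := om4_dom hσ
  obtain ⟨C0, hC0, h0⟩ := F.bd 0
  obtain ⟨C1, hC1, h1⟩ := F.bd 1
  obtain ⟨C2, hC2, hbF⟩ := bF_bound (k := 4) (by norm_num) C0
  have hQ : Continuous (Qf 4) := (Q_cl (by norm_num)).1.continuous
  have key : ContinuousOn (fun t => ∫ y, om4 B ((r t) ^ 2) y *
      ((deriv (ε t) y) ^ 2 + (ε t y) ^ 2 - 2 * bF 4 (ε t) y)) S := by
    refine cInt (g := fun y => (C * (C1 ^ 2 + C0 ^ 2 + 2 * (C2 * C0 ^ 2))) *
      bd (θ ^ 2 / 2) (θ ^ 2 / 2) y)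
      ((H72KB.bd_int (by positivity) (by positivity)).const_mul _) ?_ ?_ ?_
    · intro t ht
      have c0 : Continuous (ε t) := (F.sm t ht).continuous
      have c1 : Continuous (deriv (ε t)) := (F.sm t ht).continuous_deriv (by simp)
      have c2 : Continuous (fun y => om4 B ((r t) ^ 2) y) := by
        unfold om4
        exact (th_smooth B).continuous.mul (zf_smooth.continuous.comp (by fun_prop))
      have c3 : Continuous (fun y => bF 4 (ε t) y) := by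
        unfold bF Fl fl
        fun_prop
      exact c2.mul (((c1.pow 2).add (c0.pow 2)).sub (c3.const_mul 2))
    · intro t ht y
      have hs : θ ^ 2 ≤ (r t) ^ 2 := pow_le_pow_left₀ hθ.le (F.lo t ht) 2
      have o1 := (hom B ((r t) ^ 2) y hs).1
      have f0 : |ε t y| ≤ C0 := by
        have := h0 t ht y
        rwa [iteratedDeriv_zero] at this
      have f1 : |deriv (ε t) y| ≤ C1 := by
        have := h1 t ht y
        rwa [iteratedDeriv_one] at this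
      have e0 : (ε t y) ^ 2 ≤ C0 ^ 2 := by
        rw [← sq_abs (ε t y)]
        exact pow_le_pow_left₀ (abs_nonneg _) f0 2
      have e1 : (deriv (ε t) y) ^ 2 ≤ C1 ^ 2 := by
        rw [← sq_abs (deriv (ε t) y)]
        exact pow_le_pow_left₀ (abs_nonneg _) f1 2
      have e2 := hbF (ε t) y f0
      have e3 : C2 * (ε t y) ^ 2 ≤ C2 * C0 ^ 2 := mul_le_mul_of_nonneg_left e0 hC2
      have e4 : |(deriv (ε t) y) ^ 2 + (ε t y) ^ 2 - 2 * bF 4 (ε t) y| ≤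
          C1 ^ 2 + C0 ^ 2 + 2 * (C2 * C0 ^ 2) := by
        have e5 := abs_le.1 e2
        rw [abs_le]
        constructor
        · nlinarith [sq_nonneg (deriv (ε t) y), sq_nonneg (ε t y), e5.1, e5.2]
        · nlinarith [sq_nonneg (deriv (ε t) y), sq_nonneg (ε t y), e5.1, e5.2]
      rw [abs_mul]
      have hb : 0 ≤ C * bd (θ ^ 2 / 2) (θ ^ 2 / 2) y := (abs_nonneg _).trans o1
      calc |om4 B ((r t) ^ 2) y| * |(deriv (ε t) y) ^ 2 + (ε t y) ^ 2 - 2 * bF 4 (ε t) y|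
          ≤ (C * bd (θ ^ 2 / 2) (θ ^ 2 / 2) y) * (C1 ^ 2 + C0 ^ 2 + 2 * (C2 * C0 ^ 2)) :=
            mul_le_mul o1 e4 (abs_nonneg _) hb
        _ = (C * (C1 ^ 2 + C0 ^ 2 + 2 * (C2 * C0 ^ 2))) * bd (θ ^ 2 / 2) (θ ^ 2 / 2) y := by ring
    · intro y
      have d0 : ContinuousOn (fun t => ε t y) S := by
        have h := F.co 0 y
        simpa [iteratedDeriv_zero] using h
      have d1 : ContinuousOn (fun t => deriv (ε t) y) S := by
        have h := F.co 1 y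
        simpa [iteratedDeriv_one] using h
      have d2 : ContinuousOn (fun t => om4 B ((r t) ^ 2) y) S := by
        unfold om4
        refine continuousOn_const.mul ?_
        exact zf_smooth.continuous.comp_continuousOn ((F.cr.pow 2).mul continuousOn_const)
      have d3 : ContinuousOn (fun t => bF 4 (ε t) y) S := by
        unfold bF Fl fl
        refine ContinuousOn.sub (ContinuousOn.sub ?_ continuousOn_const) ?_
        · exact ((continuousOn_const.add d0).pow _).div_const _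
        · exact continuousOn_const.mul d0
      exact d2.mul (((d1.pow 2).add (d0.pow 2)).sub (continuousOn_const.mul d3))
  exact continuousOn_const.mul key

end H72KC

end S_H72_KC_CE4

section S_H72_KC_DtL

/-!
# Row DtL: the modulation determinant for `k = 4`, test functions `-ρ` and `Q'`

`rho = Q^3 Q'^2`, `nrh = -rho`, `Dt 4 φ W = IA 4 W φ * IB W Q' - IA 4 W Q' * IB W φ`.
`IA 4 W φ = ∫ W ((2/4 - 1) φ - y φ')`, `IB W φ = ∫ W φ'`.
Proof.  `nrh_cl`: products of the class `Cl` (`Q_cl`, `Cl_deriv`, `H72KB.Cl_pow`, `H72KB.Cl_mul`, `H72KB.Cl_smul`, `H72KB.Cl_mono`: `Q^3 Q'^2` is `Cl 5 5`, weaken to `Cl 1 1`;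
or `H72KB.Cl_pow` then `H72KB.Cl_mul`).
`Dt_Q4`: `IB Q φ = ∫ Q φ' = -∫ Q' φ = ∫ Q' Q^3 Q'^2 = 0` (odd integrand: `Q` even, `Q'` odd: `integral_comp_neg`/`integral_neg_eq_self`-type
argument, or `∫ Q^3 Q'^3`: substitute `y → -y`), `IB Q Q' = ∫ Q Q'' = -∫ Q'^2` (as in `Det_Q`, file `KB/DetR.lean`), and
`IA 4 Q φ = -∫ (1/2) Q φ - ∫ Q y φ' = ∫ (Q/2 + y Q') φ` (by parts `∫ Q y φ' = -∫ (Q + y Q') φ`) `= -∫ (ΛQ) ρ`.
Now `∫ (ΛQ) ρ = (1/2) ∫ Q'^2`: `4 ρ = L Q'' = -Q'''' + Q'' - Q^4 Q''` (differentiate `-Q''' + Q' - Q^4 Q' = 0`, i.e. `Q_ode`: `Q'' = Q - Q^5/5`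
twice; all functions are polynomials in `t = tanh(2y)` times `Q`, see `qbas_poly`), and `L (ΛQ) = -2 Q` (same), `L` symmetric:
`4∫ ΛQ ρ = ∫ ΛQ L Q'' = ∫ (L ΛQ) Q'' = -2 ∫ Q Q'' = 2 ∫ Q'^2`.
ALTERNATIVE without the operator: with `Q' = -t Q`, `Q^4 = 15 (1-t^2)` (`Q_der`, `Q_pow`), `t' = 2(1-t^2)`; `∫ (Q/2 + yQ') Q^3 Q'^2 = (1/2)∫ Q^4 Q'^2 + ∫ y Q' Q^3 Q'^2`;
`Q'^3 Q^3 = -t^3 Q^6 = (15/4) d/dy[ ... ]`: find `G` with `G' = Q^3 Q'^3` and integrate by parts; then compare with `∫ Q'^2 = ∫ t^2 Q^2`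
using `∫ d/dy (t^n Q^m) = 0` (`d/dy (t^n Q^m) = 2n t^{n-1}(1-t^2) Q^m - m t^{n+1} Q^m`).
`Dt_low4`: each of the four functionals is `∫ W ψ` with `ψ` of class `Cl (1/2) (1/2)`, so `|∫ e ψ| ≤ g ∫ |ψ|` if `|e| ≤ g`; expand the determinant
(`DetR_alg` in `KB/DetR.lean` with `r = g`, `d = d4`): `Dt(Q+e) > d4` for `g` small.
-/

open MeasureTheory Filter Topology Set
open scoped ContDiff

namespace H72KC

open H98KB H72KB H68KC

/-- minus the test function `ρ = Q³Q'²` -/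
noncomputable def nrh (y : ℝ) : ℝ := -rho y

/-- half of the determinant at `Q` -/
noncomputable def d4 : ℝ := (∫ y, (deriv (Qf 4) y) ^ 2) ^ 2 / 4

theorem DtL_Q : Cl 1 1 (Qf 4) := Q_cl (by norm_num)

theorem DtL_Qd : Cl 1 1 (deriv (Qf 4)) := Cl_deriv DtL_Q

theorem DtL_rho : Cl 1 1 rho := by
  have h1 : Cl 1 1 (fun y => Qf 4 y ^ 3) := H72KB.Cl_pow (by norm_num) (by norm_num) DtL_Q 3 (by norm_num)
  have h2 : Cl 1 1 (fun y => deriv (Qf 4) y ^ 2) :=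
    H72KB.Cl_pow (by norm_num) (by norm_num) DtL_Qd 2 (by norm_num)
  exact H72KB.Cl_mono (by norm_num) (by norm_num) (H72KB.Cl_mul h1 h2)

theorem nrh_cl : Cl 1 1 nrh := by
  have h := H72KB.Cl_smul (-1) DtL_rho
  have e : nrh = fun y => -1 * rho y := by
    funext y
    unfold nrh
    ring
  rw [e]
  exact h

theorem d4_pos : 0 < d4 := by
  have h := Q'sq_pos (k := 4) (by norm_num)
  unfold d4
  positivity

theorem DtL_ode (y : ℝ) : deriv (deriv (Qf 4)) y = Qf 4 y - (Qf 4 y) ^ 5 / 5 := by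
  rw [Q_ode (by norm_num) y]
  unfold fl
  norm_num

theorem DtL_sq (y : ℝ) : (deriv (Qf 4) y) ^ 2 = (Qf 4 y) ^ 2 - (Qf 4 y) ^ 6 / 15 := by
  have h := Q_pow (k := 4) (by norm_num) y
  have e : deriv (Qf 4) y = -(th 4 y) * Qf 4 y := congrFun (qbas_deriv (by norm_num)) y
  norm_num at h
  have e2 : (Qf 4 y) ^ 6 = (Qf 4 y) ^ 4 * (Qf 4 y) ^ 2 := by ring
  rw [e, e2, h]
  ring

theorem DtL_h1 (y : ℝ) : HasDerivAt (Qf 4) (deriv (Qf 4) y) y := DetR_cd DtL_Q y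

theorem DtL_h2 (y : ℝ) : HasDerivAt (deriv (Qf 4)) (Qf 4 y - (Qf 4 y) ^ 5 / 5) y := by
  rw [← DtL_ode]
  exact DetR_cd DtL_Qd y

/-- the primitive -/
noncomputable def DtL_H (y : ℝ) : ℝ :=
  y * ((Qf 4 y) ^ 6 / 6 - (Qf 4 y) ^ 10 / 150) +
    Qf 4 y * deriv (Qf 4) y * (-1 / 4 + (Qf 4 y) ^ 4 / 20)

theorem DtL_Hcl : Cl (1 / 2) (1 / 2) DtL_H := by
  have h6 := H72KB.Cl_smul (1 / 6) (H72KB.Cl_pow (by norm_num) (by norm_num) DtL_Q 6 (by norm_num))
  have h10 := H72KB.Cl_smul (1 / 150) (H72KB.Cl_pow (by norm_num) (by norm_num) DtL_Q 10 (by norm_num))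
  have hy : Cl (1 / 2) (1 / 2) (fun y => y * (1 / 6 * Qf 4 y ^ 6 - 1 / 150 * Qf 4 y ^ 10)) :=
    Cl_ymul (by norm_num) (by norm_num) (H72KB.Cl_sub h6 h10)
  have hq := H72KB.Cl_mul DtL_Q DtL_Qd
  have h4 := H72KB.Cl_pow (by norm_num) (by norm_num) DtL_Q 4 (by norm_num)
  have a1 : Cl (1 / 2) (1 / 2) (fun y => -1 / 4 * (Qf 4 y * deriv (Qf 4) y)) :=
    H72KB.Cl_mono (by norm_num) (by norm_num) (H72KB.Cl_smul (-1 / 4) hq)
  have a2 : Cl (1 / 2) (1 / 2) (fun y => 1 / 20 * (Qf 4 y * deriv (Qf 4) y * Qf 4 y ^ 4)) :=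
    H72KB.Cl_mono (by norm_num) (by norm_num) (H72KB.Cl_smul (1 / 20) (H72KB.Cl_mul hq h4))
  have h := H72KB.Cl_add hy (H72KB.Cl_add a1 a2)
  have e : DtL_H = fun y => y * (1 / 6 * Qf 4 y ^ 6 - 1 / 150 * Qf 4 y ^ 10) +
      (-1 / 4 * (Qf 4 y * deriv (Qf 4) y) + 1 / 20 * (Qf 4 y * deriv (Qf 4) y * Qf 4 y ^ 4)) := by
    funext y
    unfold DtL_H
    ring
  rw [e]
  exact h

theorem DtL_Hd (y : ℝ) : HasDerivAt DtL_H
    ((1 / 2 * Qf 4 y + y * deriv (Qf 4) y) * rho y - 1 / 2 * (deriv (Qf 4) y) ^ 2) y := by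
  have q1 := DtL_h1 y
  have q2 := DtL_h2 y
  have h := ((hasDerivAt_id y).mul (((q1.pow 6).div_const 6).sub ((q1.pow 10).div_const 150))).add
    ((q1.mul q2).mul (((q1.pow 4).div_const 20).const_add (-1 / 4)))
  have hs := DtL_sq y
  refine (h.congr_deriv ?_)
  unfold rho
  simp only [id, Pi.pow_apply, Pi.mul_apply, Pi.sub_apply]
  push_cast
  generalize deriv (Qf 4) y = d at *
  generalize Qf 4 y = q at *
  linear_combination (exp := 1) (-(y * d * q ^ 3) - (q ^ 4) / 2 + 1 / 2 + (-1 / 4 + q ^ 4 / 20) + q ^ 4 / 5) * hs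

theorem DtL_int0 : ∫ y, ((1 / 2 * Qf 4 y + y * deriv (Qf 4) y) * rho y -
    1 / 2 * (deriv (Qf 4) y) ^ 2) = 0 := by
  have hd : deriv DtL_H = fun y => (1 / 2 * Qf 4 y + y * deriv (Qf 4) y) * rho y -
      1 / 2 * (deriv (Qf 4) y) ^ 2 := by
    funext y
    exact (DtL_Hd y).deriv
  have hi : Integrable (deriv DtL_H) := H72KB.Cl_int (by norm_num) (by norm_num) (Cl_deriv DtL_Hcl)
  have ht := Cl_tendsto (by norm_num) (by norm_num) DtL_Hcl
  have h := integral_of_hasDerivAt_of_tendsto (fun y => DetR_cd DtL_Hcl y) hi ht.2 ht.1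
  rw [sub_zero, hd] at h
  exact h

theorem DtL_odd (y : ℝ) : deriv (Qf 4) (-y) = -deriv (Qf 4) y := by
  have e : deriv (Qf 4) (-y) = -(th 4 (-y)) * Qf 4 (-y) := congrFun (qbas_deriv (by norm_num)) (-y)
  have e2 : deriv (Qf 4) y = -(th 4 y) * Qf 4 y := congrFun (qbas_deriv (by norm_num)) y
  have e3 : th 4 (-y) = -th 4 y := by
    unfold th
    rw [show (((4 : ℕ) : ℝ)) * (-y) / 2 = -(((4 : ℕ) : ℝ) * y / 2) by ring, Real.tanh_neg]
  rw [e, e2, e3, Q_even]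
  ring

theorem DtL_IB : IB (Qf 4) nrh = 0 := by
  have h := H72KB.Cl_ibp (by norm_num) (by norm_num) DtL_Q nrh_cl
  unfold IB
  have e : ∫ y, deriv (Qf 4) y * nrh y = 0 := by
    have h1 : ∫ y, deriv (Qf 4) (-y) * nrh (-y) = ∫ y, deriv (Qf 4) y * nrh y :=
      integral_neg_eq_self (fun y => deriv (Qf 4) y * nrh y) volume
    have h2 : (fun y => deriv (Qf 4) (-y) * nrh (-y)) = fun y => -(deriv (Qf 4) y * nrh y) := by
      funext y
      unfold nrh rho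
      rw [DtL_odd, Q_even]
      ring
    rw [h2, integral_neg] at h1
    linarith
  rw [e] at h
  linarith

theorem DtL_IA : IA 4 (Qf 4) nrh = -(1 / 2 * ∫ y, (deriv (Qf 4) y) ^ 2) := by
  have hφ := nrh_cl
  have hyQ : Cl (1 / 2) (1 / 2) (fun y => y * Qf 4 y) := Cl_ymul (by norm_num) (by norm_num) DtL_Q
  have hyQ' : Cl (1 / 2) (1 / 2) (fun y => y * deriv (Qf 4) y) :=
    Cl_ymul (by norm_num) (by norm_num) DtL_Qd
  have hyφ : Cl (1 / 2) (1 / 2) (fun y => y * nrh y) := Cl_ymul (by norm_num) (by norm_num) hφ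
  have hyφ' : Cl (1 / 2) (1 / 2) (fun y => y * deriv nrh y) :=
    Cl_ymul (by norm_num) (by norm_num) (Cl_deriv hφ)
  have i1 : Integrable (fun y => Qf 4 y * nrh y) :=
    H72KB.Cl_int (by norm_num) (by norm_num) (H72KB.Cl_mul DtL_Q hφ)
  have i2 : Integrable (fun y => Qf 4 y * (y * deriv nrh y)) :=
    H72KB.Cl_int (by norm_num) (by norm_num) (H72KB.Cl_mul DtL_Q hyφ')
  have i3 : Integrable (fun y => deriv (Qf 4) y * (y * nrh y)) :=
    H72KB.Cl_int (by norm_num) (by norm_num) (H72KB.Cl_mul DtL_Qd hyφ)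
  have i4 : Integrable (fun y => (deriv (Qf 4) y) ^ 2) := qbas_sq_int DtL_Qd
  have hb := H72KB.Cl_ibp (by norm_num) (by norm_num) DtL_Q hyφ
  have hd : ∀ y, deriv (fun y => y * nrh y) y = nrh y + y * deriv nrh y := by
    intro y
    exact congrFun (PairR_y hφ) y
  have e1 : ∫ y, Qf 4 y * deriv (fun y => y * nrh y) y =
      (∫ y, Qf 4 y * nrh y) + ∫ y, Qf 4 y * (y * deriv nrh y) := by
    rw [← integral_add i1 i2]
    refine integral_congr_ae (Eventually.of_forall fun y => ?_)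
    show Qf 4 y * deriv (fun y => y * nrh y) y = Qf 4 y * nrh y + Qf 4 y * (y * deriv nrh y)
    rw [hd]
    ring
  rw [e1] at hb
  have e2 : IA 4 (Qf 4) nrh = -(1 / 2) * (∫ y, Qf 4 y * nrh y) -
      ∫ y, Qf 4 y * (y * deriv nrh y) := by
    unfold IA
    rw [← integral_const_mul, ← integral_sub (i1.const_mul _) i2]
    refine integral_congr_ae (Eventually.of_forall fun y => ?_)
    show Qf 4 y * ((2 / ((4 : ℕ) : ℝ) - 1) * nrh y - y * deriv nrh y) =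
      -(1 / 2) * (Qf 4 y * nrh y) - Qf 4 y * (y * deriv nrh y)
    push_cast
    ring
  have e3 : (0 : ℝ) = -(1 / 2) * (∫ y, Qf 4 y * nrh y) - (∫ y, deriv (Qf 4) y * (y * nrh y)) -
      1 / 2 * ∫ y, (deriv (Qf 4) y) ^ 2 := by
    have i5 : Integrable (fun y => -(1 / 2) * (Qf 4 y * nrh y) - deriv (Qf 4) y * (y * nrh y)) :=
      (i1.const_mul _).sub i3
    rw [← DtL_int0, ← integral_const_mul, ← integral_const_mul,
      ← integral_sub (i1.const_mul _) i3, ← integral_sub i5 (i4.const_mul _)]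
    refine integral_congr_ae (Eventually.of_forall fun y => ?_)
    show (1 / 2 * Qf 4 y + y * deriv (Qf 4) y) * rho y - 1 / 2 * (deriv (Qf 4) y) ^ 2 =
      -(1 / 2) * (Qf 4 y * nrh y) - deriv (Qf 4) y * (y * nrh y) - 1 / 2 * (deriv (Qf 4) y) ^ 2
    unfold nrh
    ring
  rw [e2]
  linarith

theorem DtL_IB2 : IB (Qf 4) (deriv (Qf 4)) = -∫ y, (deriv (Qf 4) y) ^ 2 := by
  have h := H72KB.Cl_ibp (by norm_num) (by norm_num) DtL_Qd DtL_Q
  have e : ∫ y, deriv (deriv (Qf 4)) y * Qf 4 y = ∫ y, Qf 4 y * deriv (deriv (Qf 4)) y :=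
    integral_congr_ae (Eventually.of_forall fun y => mul_comm _ _)
  have e2 : ∫ y, deriv (Qf 4) y * deriv (Qf 4) y = ∫ y, (deriv (Qf 4) y) ^ 2 :=
    integral_congr_ae (Eventually.of_forall fun y => (pow_two _).symm)
  unfold IB
  rw [← e, h, e2]

theorem Dt_Q4 : Dt 4 nrh (Qf 4) = 2 * d4 := by
  unfold Dt d4
  rw [DtL_IB, DtL_IA, DtL_IB2]
  ring

theorem DtL_psi {ψ : ℝ → ℝ} (hψ : Cl (1 / 2) (1 / 2) ψ) : ∃ C₁ : ℝ, 0 ≤ C₁ ∧
    ∀ (g : ℝ) (p q : ℝ) (e : ℝ → ℝ), 0 < p → 0 < q → Cl p q e → (∀ y, |e y| ≤ g) →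
      |∫ y, e y * ψ y| ≤ C₁ * g := by
  refine ⟨∫ y, |ψ y|, integral_nonneg fun y => abs_nonneg _, ?_⟩
  intro g p q e hp hq he hg
  have hi : Integrable ψ := H72KB.Cl_int (by norm_num) (by norm_num) hψ
  obtain ⟨C, hC⟩ := Cl_bdd (by norm_num) (by norm_num) hψ
  have hi2 : Integrable (fun y => e y * ψ y) := Cl_int_mul hp hq he hψ.1.continuous C hC
  calc |∫ y, e y * ψ y| ≤ ∫ y, |e y * ψ y| := abs_integral_le_integral_abs
    _ ≤ ∫ y, g * |ψ y| := by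
        refine integral_mono hi2.abs (hi.abs.const_mul g) fun y => ?_
        show |e y * ψ y| ≤ g * |ψ y|
        rw [abs_mul]
        exact mul_le_mul_of_nonneg_right (hg y) (abs_nonneg _)
    _ = (∫ y, |ψ y|) * g := by rw [integral_const_mul, mul_comm]

theorem Dt_low4 : ∃ g : ℝ, 0 < g ∧ ∀ (p q : ℝ) (e : ℝ → ℝ), 0 < p → 0 < q → Cl p q e →
    (∀ y, |e y| ≤ g) → d4 < Dt 4 nrh (fun y => Qf 4 y + e y) := by
  have hφ := nrh_cl
  have hQ := DtL_Q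
  have hQ' := DtL_Qd
  have w1 := DetR_wA (k := 4) hφ
  have w2 := DetR_wA (k := 4) hQ'
  have w3 : Cl (1 / 2) (1 / 2) (deriv nrh) := H72KB.Cl_mono (by norm_num) (by norm_num) (Cl_deriv hφ)
  have w4 : Cl (1 / 2) (1 / 2) (deriv (deriv (Qf 4))) :=
    H72KB.Cl_mono (by norm_num) (by norm_num) (Cl_deriv hQ')
  obtain ⟨c1, c10, hc1⟩ := DtL_psi w1
  obtain ⟨c2, c20, hc2⟩ := DtL_psi w2
  obtain ⟨c3, c30, hc3⟩ := DtL_psi w3
  obtain ⟨c4, c40, hc4⟩ := DtL_psi w4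
  have hd := d4_pos
  obtain ⟨c, hcd⟩ : ∃ c : ℝ, c = c1 + c2 + c3 + c4 := ⟨_, rfl⟩
  obtain ⟨M, hMd⟩ : ∃ M : ℝ, M = |IA 4 (Qf 4) nrh| + |IA 4 (Qf 4) (deriv (Qf 4))| +
    |IB (Qf 4) nrh| + |IB (Qf 4) (deriv (Qf 4))| := ⟨_, rfl⟩
  have n1 := abs_nonneg (IA 4 (Qf 4) nrh)
  have n2 := abs_nonneg (IA 4 (Qf 4) (deriv (Qf 4)))
  have n3 := abs_nonneg (IB (Qf 4) nrh)
  have n4 := abs_nonneg (IB (Qf 4) (deriv (Qf 4)))
  have hc0 : 0 ≤ c := by
    rw [hcd]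
    positivity
  have hM0 : 0 ≤ M := by
    rw [hMd]
    positivity
  obtain ⟨S, hSd⟩ : ∃ S : ℝ, S = 4 * M * c + 2 * c ^ 2 + 1 := ⟨_, rfl⟩
  have hS0 : 0 < S := by
    rw [hSd]
    positivity
  refine ⟨min 1 (d4 / (2 * S)), lt_min one_pos (by positivity), ?_⟩
  intro p q e hp hq he hg
  obtain ⟨g, hgd⟩ : ∃ g : ℝ, g = min 1 (d4 / (2 * S)) := ⟨_, rfl⟩
  rw [← hgd] at hg
  have hg0 : 0 < g := by
    rw [hgd]
    exact lt_min one_pos (by positivity)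
  have hg1 : g ≤ 1 := by
    rw [hgd]
    exact min_le_left _ _
  have hg2 : g ≤ d4 / (2 * S) := by
    rw [hgd]
    exact min_le_right _ _
  have hsmall : (4 * M * c + 2 * c ^ 2) * g < d4 := by
    have h1 : (4 * M * c + 2 * c ^ 2) * g ≤ S * g := by
      refine mul_le_mul_of_nonneg_right ?_ hg0.le
      linarith
    have h2 : S * g ≤ S * (d4 / (2 * S)) := mul_le_mul_of_nonneg_left hg2 hS0.le
    have h3 : S * (d4 / (2 * S)) = d4 / 2 := by
      field_simp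
    linarith
  have hcc : ∀ ci : ℝ, 0 ≤ ci → ci ≤ c → ∀ z : ℝ, |z| ≤ ci * g → |z| ≤ c * g := by
    intro ci _ hle z hz
    exact hz.trans (mul_le_mul_of_nonneg_right hle hg0.le)
  have a1 : IA 4 (fun y => Qf 4 y + e y) nrh = IA 4 (Qf 4) nrh + IA 4 e nrh :=
    DetR_add one_pos one_pos hp hq hQ he w1
  have a2 : IA 4 (fun y => Qf 4 y + e y) (deriv (Qf 4)) =
      IA 4 (Qf 4) (deriv (Qf 4)) + IA 4 e (deriv (Qf 4)) :=
    DetR_add one_pos one_pos hp hq hQ he w2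
  have a3 : IB (fun y => Qf 4 y + e y) nrh = IB (Qf 4) nrh + IB e nrh :=
    DetR_add one_pos one_pos hp hq hQ he w3
  have a4 : IB (fun y => Qf 4 y + e y) (deriv (Qf 4)) =
      IB (Qf 4) (deriv (Qf 4)) + IB e (deriv (Qf 4)) :=
    DetR_add one_pos one_pos hp hq hQ he w4
  have hDQ := Dt_Q4
  unfold Dt at hDQ ⊢
  rw [a1, a2, a3, a4]
  exact DetR_alg (M := M) (c := c) (r := g) hM0 hc0 hg0.le hg1 hsmall
    (by rw [hMd]; linarith) (by rw [hMd]; linarith) (by rw [hMd]; linarith) (by rw [hMd]; linarith)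
    (hcc c1 c10 (by linarith) _ (hc1 g p q e hp hq he hg))
    (hcc c2 c20 (by linarith) _ (hc2 g p q e hp hq he hg))
    (hcc c3 c30 (by linarith) _ (hc3 g p q e hp hq he hg))
    (hcc c4 c40 (by linarith) _ (hc4 g p q e hp hq he hg)) hDQ

end H72KC

end S_H72_KC_DtL

section S_H72_KC_OrR

/-!
# Row OrR: the modulation equations are satisfied when the determinant is large

Proof.  `zeta_ip` (file `KB/PairR.lean`, `hk : 1 ≤ 4`) gives `ip (zeta ..) φ = I1 - w IA - m IB` for `φ = nrh` and `φ = Q'`; with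
`wfn, nfn` (Cramer's rule, `max (Dt) d4 = Dt` since `d4 < Dt`) both vanish (`field_simp`, `ring`), see `orth_of_det` in `KB/PairR.lean`.
`ip ζ rho = -ip ζ nrh`.
-/

open MeasureTheory Filter Topology Set
open scoped ContDiff

namespace H72KC

open H98KB H72KB H68KC

theorem orth4 {p q : ℝ} (hp : 0 < p) (hq : 0 < q) (hp1 : p ≤ 1) (hq1 : q ≤ 1) {W e : ℝ → ℝ}
    (hW : Cl p q (fun y => W y - Qf 4 y)) (he : Cl p q e) (l : ℝ) (hd : d4 < Dt 4 nrh W) :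
    ip (ze (wfn 4 nrh d4 l W e) (nfn 4 nrh d4 l W e) l W e) rho = 0 ∧
    ip (ze (wfn 4 nrh d4 l W e) (nfn 4 nrh d4 l W e) l W e) (deriv (Qf 4)) = 0 := by
  have hk1 : 1 ≤ 4 := by norm_num
  have hQ : Cl 1 1 (Qf 4) := Q_cl hk1
  have hmax : max (Dt 4 nrh W) d4 = Dt 4 nrh W := max_eq_left hd.le
  have hD : Dt 4 nrh W ≠ 0 := by
    have : 0 < Dt 4 nrh W := d4_pos.trans hd
    exact this.ne'
  have hW' : (fun y => Qf 4 y + (fun y => W y - Qf 4 y) y) = W := by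
    funext y
    simp
  have key : ∀ φ : ℝ → ℝ, Cl 1 1 φ →
      ip (ze (wfn 4 nrh d4 l W e) (nfn 4 nrh d4 l W e) l W e) φ = I1 4 l W e φ
        - wfn 4 nrh d4 l W e * IA 4 W φ - nfn 4 nrh d4 l W e * IB W φ := by
    intro φ hφ
    have h := zeta_ip hk1 hp hq hp1 hq1 hW he (wfn 4 nrh d4 l W e) (nfn 4 nrh d4 l W e) l hφ
    rw [hW'] at h
    exact h
  have hDe : Dt 4 nrh W = IA 4 W nrh * IB W (deriv (Qf 4)) - IA 4 W (deriv (Qf 4)) * IB W nrh :=
    rfl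
  constructor
  · have h1 : ip (ze (wfn 4 nrh d4 l W e) (nfn 4 nrh d4 l W e) l W e) nrh = 0 := by
      rw [key nrh nrh_cl]
      unfold wfn nfn
      rw [hmax]
      field_simp
      rw [hDe]
      ring
    have h2 : ip (ze (wfn 4 nrh d4 l W e) (nfn 4 nrh d4 l W e) l W e) nrh =
        -ip (ze (wfn 4 nrh d4 l W e) (nfn 4 nrh d4 l W e) l W e) rho := by
      unfold ip nrh
      rw [← integral_neg]
      congr 1
      funext y
      ring
    linarith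
  · rw [key _ (Cl_deriv hQ)]
    unfold wfn nfn
    rw [hmax]
    field_simp
    rw [hDe]
    ring

end H72KC

end S_H72_KC_OrR
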