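import Mathlib
import Pool.Agent.H98.BU.G01
import Pool.Agent.H98.BU.G19
import Pool.Agent.H98.BU.G20
import Pool.Agent.H98.BU.G21

/-! Blow-up for `u_t + u^k u_x + u_xxx - u_xx = 0`, part G22: this file joins several modules
to save build time (`Pool/Agent/H98/{KB,KC}`, `H72/{KB,KC}`, `H68/KC`, `H37/{KB,KC}`). -/

section S_H72_KC_CIp

/-!
# Row CIp: pairings with a bounded continuous function

Proof.  `ip f φ = ∫ f y * φ y`.  `con_ip`: `cInt` with `G t y = W t y * φ y`, `g y = C' * bd θ θ y * |C|` (`F.bd 0`,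
`iteratedDeriv_zero`, integrable by `H72KB.bd_int`), pointwise continuity `F.co 0`.
`der_ip`: `dInt` with `G' t y = Z t y / (r t)^24 * φ y`, `g y = (C' / θ^24 + C') * bd θ θ y * |C|` (`r ≥ θ`, so `(r t)^24 ≥ θ^24`),
pointwise derivative `F.ev 0`; then `∫ Z / r^24 * φ = ip Z φ / r^24` (`integral_div` or `integral_const_mul`).
Model: `der_I` in `Pool/Agent/H72/KB/DerI.lean`.
-/

open MeasureTheory Filter Topology Set
open scoped ContDiff

namespace H72KC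

open H98KB H72KB H68KC

theorem CIp_mul_le {a b A B : ℝ} (ha : |a| ≤ A) (hb : |b| ≤ B) : |a * b| ≤ A * |B| := by
  rw [abs_mul]
  exact mul_le_mul ha (hb.trans (le_abs_self B)) (abs_nonneg _) ((abs_nonneg _).trans ha)

theorem CIp_ib {G : ℝ → ℝ} {φ : ℝ → ℝ} {θ K C : ℝ} (hθ : 0 < θ) (hK : 0 ≤ K)
    (hG : ∀ y, |G y| ≤ K * H98KB.bd θ θ y) (hC : ∀ y, |φ y| ≤ C) :
    |ip G φ| ≤ ∫ y, K * H98KB.bd θ θ y * |C| := by
  have hbi : Integrable (H98KB.bd θ θ) := H72KB.bd_int hθ hθ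
  unfold ip
  rw [← Real.norm_eq_abs]
  refine norm_integral_le_of_norm_le ((hbi.const_mul K).mul_const _)
    (Eventually.of_forall fun y => ?_)
  rw [Real.norm_eq_abs]
  exact CIp_mul_le (hG y) (hC y)

theorem con_ip {θ : ℝ} {S : Set ℝ} {r : ℝ → ℝ} {W : ℝ → ℝ → ℝ} (F : Fa θ S r W) {φ : ℝ → ℝ}
    (hφ : Continuous φ) {C : ℝ} (hC : ∀ y, |φ y| ≤ C) : ContinuousOn (fun t => ip (W t) φ) S := by
  obtain ⟨K, hK0, hK⟩ := F.bd 0
  simp only [iteratedDeriv_zero] at hK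
  have hbi : Integrable (H98KB.bd θ θ) := H72KB.bd_int F.θ0 F.θ0
  have h := cInt (S := S) (G := fun t y => W t y * φ y)
    (g := fun y => K * H98KB.bd θ θ y * |C|) ((hbi.const_mul K).mul_const _)
    (fun τ hτ => (F.sm τ hτ).continuous.mul hφ)
    (fun τ hτ y => CIp_mul_le (hK τ hτ y) (hC y))
    (fun y => by
      have h0 := F.co 0 y
      simp only [iteratedDeriv_zero] at h0
      exact h0.mul continuousOn_const)
  exact h

theorem der_ip {θ : ℝ} {J : Set ℝ} {r w : ℝ → ℝ} {W Z : ℝ → ℝ → ℝ} (F : Flo θ J r w W Z)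
    {φ : ℝ → ℝ} (hφ : Continuous φ) {C : ℝ} (hC : ∀ y, |φ y| ≤ C) {t : ℝ} (ht : t ∈ J) :
    HasDerivAt (fun τ => ip (W τ) φ) (ip (Z t) φ / (r t) ^ 24) t := by
  obtain ⟨K, hK0, hK⟩ := F.bd 0
  simp only [iteratedDeriv_zero] at hK
  have hθ := F.θ0
  have hbi : Integrable (H98KB.bd θ θ) := H72KB.bd_int F.θ0 F.θ0
  have hb0 : ∀ y, 0 ≤ H98KB.bd θ θ y := fun y => (H72KB.bd_pos _ _ y).le
  have hZ : ∀ τ ∈ J, ∀ y, |Z τ y / (r τ) ^ 24| ≤ K / θ ^ 24 * H98KB.bd θ θ y := by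
    intro τ hτ y
    have h1 := (hK τ hτ y).2
    have hr := F.lo τ hτ
    have h4 : θ ^ 24 ≤ (r τ) ^ 24 := pow_le_pow_left₀ hθ.le hr 24
    have hr0 : 0 < r τ := by linarith
    rw [abs_div, abs_of_pos (pow_pos hr0 24)]
    have h5 : K / θ ^ 24 * H98KB.bd θ θ y = (K * H98KB.bd θ θ y) / θ ^ 24 := by ring
    rw [h5]
    exact div_le_div₀ (mul_nonneg hK0 (hb0 y)) h1 (pow_pos hθ 24) h4
  have hKt : 0 ≤ K / θ ^ 24 := by positivity
  have key := dInt F.op (G := fun t y => W t y * φ y) (G' := fun t y => Z t y / (r t) ^ 24 * φ y)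
    (g := fun y => (K / θ ^ 24 + K) * H98KB.bd θ θ y * |C|)
    ((hbi.const_mul _).mul_const _)
    (fun τ hτ => (F.sm τ hτ).continuous.mul hφ)
    (fun τ hτ => ((F.sz τ hτ).continuous.div_const _).mul hφ)
    (fun τ hτ y => CIp_mul_le (((hK τ hτ y).1).trans
      (mul_le_mul_of_nonneg_right (by linarith) (hb0 y))) (hC y))
    (fun τ hτ y => CIp_mul_le ((hZ τ hτ y).trans
      (mul_le_mul_of_nonneg_right (by linarith) (hb0 y))) (hC y))
    (fun τ hτ y => by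
      have h := (F.ev 0 τ hτ y).mul_const (φ y)
      simp only [iteratedDeriv_zero] at h
      exact h) ht
  have h2 := key.2.2
  have e1 : (∫ y, Z t y / (r t) ^ 24 * φ y) = ip (Z t) φ / (r t) ^ 24 := by
    unfold ip
    rw [← integral_div]
    congr 1
    funext y
    ring
  rw [e1] at h2
  exact h2

/-- uniform bounds of the pairings -/
theorem bnd_ip {θ : ℝ} {J : Set ℝ} {r w : ℝ → ℝ} {W Z : ℝ → ℝ → ℝ} (F : Flo θ J r w W Z)
    {φ : ℝ → ℝ} (hφ : Continuous φ) {C : ℝ} (hC : ∀ y, |φ y| ≤ C) :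
    ∃ K : ℝ, 0 ≤ K ∧ ∀ t ∈ J, |ip (W t) φ| ≤ K ∧ |ip (Z t) φ| ≤ K := by
  obtain ⟨K, hK0, hK⟩ := F.bd 0
  simp only [iteratedDeriv_zero] at hK
  refine ⟨∫ y, K * H98KB.bd θ θ y * |C|, integral_nonneg fun y => ?_, fun t ht => ⟨?_, ?_⟩⟩
  · exact mul_nonneg (mul_nonneg hK0 (H72KB.bd_pos _ _ y).le) (abs_nonneg _)
  · exact CIp_ib F.θ0 hK0 (fun y => (hK t ht y).1) hC
  · exact CIp_ib F.θ0 hK0 (fun y => (hK t ht y).2) hC

theorem bnd_ip' {θ : ℝ} {S : Set ℝ} {r : ℝ → ℝ} {W : ℝ → ℝ → ℝ} (F : Fa θ S r W) {φ : ℝ → ℝ}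
    (hφ : Continuous φ) {C : ℝ} (hC : ∀ y, |φ y| ≤ C) :
    ∃ K : ℝ, 0 ≤ K ∧ ∀ t ∈ S, |ip (W t) φ| ≤ K := by
  obtain ⟨K, hK0, hK⟩ := F.bd 0
  simp only [iteratedDeriv_zero] at hK
  refine ⟨∫ y, K * H98KB.bd θ θ y * |C|, integral_nonneg fun y => ?_, fun t ht => ?_⟩
  · exact mul_nonneg (mul_nonneg hK0 (H72KB.bd_pos _ _ y).le) (abs_nonneg _)
  · exact CIp_ib F.θ0 hK0 (fun y => hK t ht y) hC

end H72KC

end S_H72_KC_CIp

section S_H72_KC_CEw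

/-!
# Row CEw: continuity and time derivative of the energy `EW W`

`EW W = 1/2 * (∫ (W')^2) - 1/30 * ∫ W^6`, `DEW W Z = ∫ (W' Z' - fl 4 (W y) * Z)`, `fl 4 u = u^5/5` (`fl k u = u^(k+1)/((k:ℝ)+1)`).
Proof.  `cInt` / `dInt` for the two integrals; `∂_τ (W')^2 = 2 W' Z'/r^24` (`F.ev 1`), `∂_τ W^6 = 6 W^5 Z / r^24` (`F.ev 0`);
`1/2*2 = 1`, `6/30 = 1/5`.  Domination: `|W|,|W'|,|Z|,|Z'| ≤ C bd θ θ y`, products of several factors `bd θ θ ≤ bd θ θ`.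
Combine the two integrals of the derivative by `integral_sub` (both integrable by the first two outputs of `dInt`).
-/

open MeasureTheory Filter Topology Set
open scoped ContDiff

namespace H72KC

open H98KB H72KB H68KC

theorem CEw_pow {θ C a y : ℝ} (h0 : 0 ≤ θ) {n : ℕ} (hn : n ≠ 0)
    (ha : |a| ≤ C * H98KB.bd θ θ y) : |a ^ n| ≤ C ^ n * H98KB.bd θ θ y := by
  have hb := H72KB.bd_pos θ θ y
  have hb1 := bd_le_one h0 h0 y
  have hC : 0 ≤ C := by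
    by_contra h
    push Not at h
    have := mul_neg_of_neg_of_pos h hb
    have := abs_nonneg a
    linarith
  rw [abs_pow]
  calc |a| ^ n ≤ (C * H98KB.bd θ θ y) ^ n := pow_le_pow_left₀ (abs_nonneg _) ha n
    _ = C ^ n * (H98KB.bd θ θ y) ^ n := mul_pow _ _ _
    _ ≤ C ^ n * H98KB.bd θ θ y :=
      mul_le_mul_of_nonneg_left (pow_le_of_le_one hb.le hb1 hn) (pow_nonneg hC n)

theorem con_EW {θ : ℝ} {S : Set ℝ} {r : ℝ → ℝ} {W : ℝ → ℝ → ℝ} (F : Fa θ S r W) :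
    ContinuousOn (fun t => EW (W t)) S := by
  obtain ⟨C0, hC0, h0⟩ := F.bd 0
  obtain ⟨C1, hC1, h1⟩ := F.bd 1
  have hbi := H72KB.bd_int F.θ0 F.θ0
  have hcd : ∀ t ∈ S, Continuous (deriv (W t)) := fun t ht =>
    (F.sm t ht).continuous_deriv (by simp)
  have e1 : ContinuousOn (fun t => ∫ y, (deriv (W t) y) ^ 2) S := by
    refine cInt (g := fun y => C1 ^ 2 * H98KB.bd θ θ y) (hbi.const_mul _)
      (fun t ht => (hcd t ht).pow 2) ?_ ?_
    · intro t ht y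
      have := h1 t ht y
      rw [iteratedDeriv_one] at this
      exact CEw_pow F.θ0.le (by norm_num) this
    · intro y
      have := F.co 1 y
      simp only [iteratedDeriv_one] at this
      exact this.pow 2
  have e2 : ContinuousOn (fun t => ∫ y, (W t y) ^ 6) S := by
    refine cInt (g := fun y => C0 ^ 6 * H98KB.bd θ θ y) (hbi.const_mul _)
      (fun t ht => (F.sm t ht).continuous.pow 6) ?_ ?_
    · intro t ht y
      have := h0 t ht y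
      rw [iteratedDeriv_zero] at this
      exact CEw_pow F.θ0.le (by norm_num) this
    · intro y
      have := F.co 0 y
      simp only [iteratedDeriv_zero] at this
      exact this.pow 6
  unfold EW
  exact (continuousOn_const.mul e1).sub (continuousOn_const.mul e2)

theorem CEw_div {R θ x b : ℝ} (hθ : 0 < θ) (hR : θ ≤ R) (hx : |x| ≤ b) :
    |x / R ^ 24| ≤ b / θ ^ 24 := by
  have hR0 : 0 < R := by linarith
  rw [abs_div, abs_of_pos (pow_pos hR0 24)]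
  have h1 : θ ^ 24 ≤ R ^ 24 := pow_le_pow_left₀ hθ.le hR 24
  have hb : 0 ≤ b := (abs_nonneg x).trans hx
  exact div_le_div₀ hb hx (pow_pos hθ 24) h1

theorem CEw_mul {θ A B a b y : ℝ} (h0 : 0 ≤ θ) (hA : 0 ≤ A) (hB : 0 ≤ B)
    (ha : |a| ≤ A * H98KB.bd θ θ y) (hb : |b| ≤ B * H98KB.bd θ θ y) :
    |a * b| ≤ A * B * H98KB.bd θ θ y := by
  have h1 := H72KB.bd_pos θ θ y
  have h2 := bd_le_one h0 h0 y
  rw [abs_mul]
  calc |a| * |b| ≤ (A * H98KB.bd θ θ y) * (B * H98KB.bd θ θ y) :=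
        mul_le_mul ha hb (abs_nonneg _) (by positivity)
    _ = A * B * H98KB.bd θ θ y * H98KB.bd θ θ y := by ring
    _ ≤ A * B * H98KB.bd θ θ y * 1 := mul_le_mul_of_nonneg_left h2 (by positivity)
    _ = _ := mul_one _

theorem der_EW {θ : ℝ} {J : Set ℝ} {r w : ℝ → ℝ} {W Z : ℝ → ℝ → ℝ} (F : Flo θ J r w W Z)
    {t : ℝ} (ht : t ∈ J) :
    HasDerivAt (fun τ => EW (W τ)) (DEW (W t) (Z t) / (r t) ^ 24) t := by
  obtain ⟨C0, hC0, h0⟩ := F.bd 0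
  obtain ⟨C1, hC1, h1⟩ := F.bd 1
  simp only [iteratedDeriv_zero] at h0
  simp only [iteratedDeriv_one] at h1
  have hθ := F.θ0
  have hbi := H72KB.bd_int F.θ0 F.θ0
  have hcW : ∀ τ ∈ J, Continuous (W τ) := fun τ hτ => (F.sm τ hτ).continuous
  have hcZ : ∀ τ ∈ J, Continuous (Z τ) := fun τ hτ => (F.sz τ hτ).continuous
  have hcW' : ∀ τ ∈ J, Continuous (deriv (W τ)) := fun τ hτ =>
    (F.sm τ hτ).continuous_deriv (by simp)
  have hcZ' : ∀ τ ∈ J, Continuous (deriv (Z τ)) := fun τ hτ =>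
    (F.sz τ hτ).continuous_deriv (by simp)
  have e1 := dInt F.op (G := fun τ y => (deriv (W τ) y) ^ 2)
    (G' := fun τ y => 2 * (deriv (W τ) y * deriv (Z τ) y) / (r τ) ^ 24)
    (g := fun y => (C1 ^ 2 + 2 * (C1 * C1) / θ ^ 24) * H98KB.bd θ θ y) (hbi.const_mul _)
    (fun τ hτ => (hcW' τ hτ).pow 2)
    (fun τ hτ => ((continuous_const.mul ((hcW' τ hτ).mul (hcZ' τ hτ))).div_const _))
    (by
      intro τ hτ y
      have h2 := CEw_pow F.θ0.le (n := 2) (by norm_num) (h1 τ hτ y).1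
      have h3 : 0 ≤ 2 * (C1 * C1) / θ ^ 24 * H98KB.bd θ θ y :=
        mul_nonneg (by positivity) (H72KB.bd_pos θ θ y).le
      calc |(deriv (W τ) y) ^ 2| ≤ C1 ^ 2 * H98KB.bd θ θ y := h2
        _ ≤ (C1 ^ 2 + 2 * (C1 * C1) / θ ^ 24) * H98KB.bd θ θ y := by
          rw [add_mul]
          linarith)
    (by
      intro τ hτ y
      have h2 := CEw_mul F.θ0.le hC1 hC1 (h1 τ hτ y).1 (h1 τ hτ y).2
      have h3 : |2 * (deriv (W τ) y * deriv (Z τ) y)| ≤ 2 * (C1 * C1 * H98KB.bd θ θ y) := by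
        rw [abs_mul, abs_two]
        linarith
      have h4 := CEw_div hθ (F.lo τ hτ) h3
      have h5 : 0 ≤ C1 ^ 2 * H98KB.bd θ θ y :=
        mul_nonneg (by positivity) (H72KB.bd_pos θ θ y).le
      calc _ ≤ 2 * (C1 * C1 * H98KB.bd θ θ y) / θ ^ 24 := h4
        _ = 2 * (C1 * C1) / θ ^ 24 * H98KB.bd θ θ y := by ring
        _ ≤ (C1 ^ 2 + 2 * (C1 * C1) / θ ^ 24) * H98KB.bd θ θ y := by
          rw [add_mul]
          linarith)
    (by
      intro τ hτ y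
      have h2 := F.ev 1 τ hτ y
      simp only [iteratedDeriv_one] at h2
      refine (h2.pow 2).congr_deriv ?_
      push_cast
      ring) ht
  have e2 := dInt F.op (G := fun τ y => (W τ y) ^ 6)
    (G' := fun τ y => 6 * ((W τ y) ^ 5 * Z τ y) / (r τ) ^ 24)
    (g := fun y => (C0 ^ 6 + 6 * (C0 ^ 5 * C0) / θ ^ 24) * H98KB.bd θ θ y) (hbi.const_mul _)
    (fun τ hτ => (hcW τ hτ).pow 6)
    (fun τ hτ => ((continuous_const.mul (((hcW τ hτ).pow 5).mul (hcZ τ hτ))).div_const _))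
    (by
      intro τ hτ y
      have h2 := CEw_pow F.θ0.le (n := 6) (by norm_num) (h0 τ hτ y).1
      have h3 : 0 ≤ 6 * (C0 ^ 5 * C0) / θ ^ 24 * H98KB.bd θ θ y :=
        mul_nonneg (by positivity) (H72KB.bd_pos θ θ y).le
      calc |(W τ y) ^ 6| ≤ C0 ^ 6 * H98KB.bd θ θ y := h2
        _ ≤ (C0 ^ 6 + 6 * (C0 ^ 5 * C0) / θ ^ 24) * H98KB.bd θ θ y := by
          rw [add_mul]
          linarith)
    (by
      intro τ hτ y
      have h2 := CEw_mul F.θ0.le (pow_nonneg hC0 5) hC0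
        (CEw_pow F.θ0.le (n := 5) (by norm_num) (h0 τ hτ y).1) (h0 τ hτ y).2
      have h3 : |6 * ((W τ y) ^ 5 * Z τ y)| ≤ 6 * (C0 ^ 5 * C0 * H98KB.bd θ θ y) := by
        rw [abs_mul, abs_of_pos (by norm_num : (0 : ℝ) < 6)]
        linarith
      have h4 := CEw_div hθ (F.lo τ hτ) h3
      have h5 : 0 ≤ C0 ^ 6 * H98KB.bd θ θ y :=
        mul_nonneg (by positivity) (H72KB.bd_pos θ θ y).le
      calc _ ≤ 6 * (C0 ^ 5 * C0 * H98KB.bd θ θ y) / θ ^ 24 := h4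
        _ = 6 * (C0 ^ 5 * C0) / θ ^ 24 * H98KB.bd θ θ y := by ring
        _ ≤ (C0 ^ 6 + 6 * (C0 ^ 5 * C0) / θ ^ 24) * H98KB.bd θ θ y := by
          rw [add_mul]
          linarith)
    (by
      intro τ hτ y
      have h2 := F.ev 0 τ hτ y
      simp only [iteratedDeriv_zero] at h2
      refine (h2.pow 6).congr_deriv ?_
      push_cast
      ring) ht
  have e3 := (e1.2.2.const_mul (1 / 2)).sub (e2.2.2.const_mul (1 / 30))
  refine e3.congr_deriv ?_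
  rw [← integral_const_mul, ← integral_const_mul,
    ← integral_sub (e1.2.1.const_mul _) (e2.2.1.const_mul _)]
  unfold DEW
  rw [← integral_div]
  refine integral_congr_ae (Eventually.of_forall fun y => ?_)
  simp only [fl]
  push_cast
  ring

end H72KC

end S_H72_KC_CEw

section S_H72_KC_Sub4

/-! # The family `W - Q`: continuity of `Xn`, `∫ (W-Q)^2`, pairings -/

open MeasureTheory Filter Topology Set
open scoped ContDiff

namespace H72KC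

open H98KB H72KB H68KC

theorem fa_sub {θ : ℝ} {S : Set ℝ} {r : ℝ → ℝ} {W : ℝ → ℝ → ℝ} (F : Fa θ S r W) :
    Fa θ S r (fun t y => W t y - Qf 4 y) := by
  have hQ : Cl 1 1 (Qf 4) := Q_cl (by norm_num)
  have hi : ∀ (j : ℕ), ∀ t ∈ S, ∀ y, iteratedDeriv j (fun y => W t y - Qf 4 y) y =
      iteratedDeriv j (W t) y - iteratedDeriv j (Qf 4) y := fun j t ht y =>
    iteratedDeriv_fun_sub (ClB_at (F.sm t ht) j y) (ClB_at hQ.1 j y)
  refine ⟨F.θ0, F.θ1, F.lo, F.hi, F.cr, fun t ht => (F.sm t ht).sub hQ.1, ?_, ?_⟩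
  · intro j
    obtain ⟨C, hC0, hC⟩ := F.bd j
    obtain ⟨D, hD0, hD⟩ := ClB_pos hQ j
    refine ⟨C + D, by positivity, fun t ht y => ?_⟩
    rw [hi j t ht y, add_mul]
    refine (abs_sub _ _).trans (add_le_add (hC t ht y) ?_)
    exact (hD y).trans (mul_le_mul_of_nonneg_left (bd_anti F.θ1 F.θ1 y) hD0)
  · intro j y
    exact ((F.co j y).sub continuousOn_const).congr fun t ht => hi j t ht y

theorem con_sq {θ : ℝ} {S : Set ℝ} {r : ℝ → ℝ} {W : ℝ → ℝ → ℝ} (F : Fa θ S r W) :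
    ContinuousOn (fun t => ∫ y, (W t y) ^ 2) S ∧ ContinuousOn (fun t => Xn (W t)) S := by
  have hbi : Integrable (bd θ θ) := H72KB.bd_int F.θ0 F.θ0
  have key : ∀ (j : ℕ), ContinuousOn (fun t => ∫ y, (iteratedDeriv j (W t) y) ^ 2) S := by
    intro j
    obtain ⟨C, hC0, hC⟩ := F.bd j
    refine cInt (g := fun y => C * (C * bd θ θ y)) ((hbi.const_mul C).const_mul C) ?_ ?_ ?_
    · intro τ hτ
      have h1 : ContDiff ℝ ∞ (iteratedDeriv j (W τ)) :=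
        (Cl_iter (p := 0) (q := 0) (f := W τ) ⟨F.sm τ hτ, fun i => by
          obtain ⟨D, hD0, hD⟩ := F.bd i
          refine ⟨D, fun y => (hD τ hτ y).trans (mul_le_mul_of_nonneg_left ?_ hD0)⟩
          exact bd_anti F.θ0.le F.θ0.le y⟩ j).1
      exact h1.continuous.pow 2
    · intro τ hτ y
      have h1 := hC τ hτ y
      have h2 := bd_le_one F.θ0.le F.θ0.le y
      have h3 := H72KB.bd_pos θ θ y
      have h4 : |iteratedDeriv j (W τ) y| ≤ C := h1.trans (mul_le_of_le_one_right hC0 h2)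
      rw [abs_pow, sq]
      exact mul_le_mul h4 h1 (abs_nonneg _) hC0
    · intro y
      exact (F.co j y).pow 2
  constructor
  · have h := key 0
    simp only [iteratedDeriv_zero] at h
    exact h
  · have h := key 1
    simp only [iteratedDeriv_one] at h
    exact h

end H72KC

end S_H72_KC_Sub4

section S_H72_KC_CJc

/-!
# Row CJc: joint continuity

Proof (`flo_jc`, at `(t,y)`, `t ∈ J`).  `|F(τ,z) - F(t,y)| ≤ |F(τ,z) - F(τ,y)| + |F(τ,y) - F(t,y)|` with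
`F(τ,z) = iteratedDeriv j (W τ) z`.  For `τ ∈ J` (`J` is open) the first term is `≤ C |z - y|` by the mean value theorem
(`Convex.norm_image_sub_le_of_norm_deriv_le`, `deriv (iteratedDeriv j f) = iteratedDeriv (j+1) f`, bound `F.bd (j+1)`,
`bd ≤ 1` by `bd_le_one`), the second tends to `0` because `τ ↦ F(τ,y)` is differentiable at `t` (`F.ev j`), hence continuous.
`fa_jc`: the same with `nhdsWithin` (`F.co j y`).  Model: `UFb_jc` in `Pool/Agent/H72/KB/UFb.lean`.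
-/

open MeasureTheory Filter Topology Set
open scoped ContDiff

namespace H72KC

open H98KB H72KB H68KC

/-- joint continuity from a Lipschitz bound in space and continuity in time -/
theorem CJc_aux {S : Set ℝ} {W : ℝ → ℝ → ℝ} {C : ℝ} (j : ℕ)
    (hs : ∀ t ∈ S, ContDiff ℝ ∞ (W t))
    (hC : ∀ t ∈ S, ∀ y, |iteratedDeriv (j + 1) (W t) y| ≤ C)
    {t : ℝ} (y : ℝ) (ht : t ∈ S)
    (hc : ContinuousWithinAt (fun τ => iteratedDeriv j (W τ) y) S t) :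
    ContinuousWithinAt (fun q : ℝ × ℝ => iteratedDeriv j (W q.1) q.2) (S ×ˢ univ) (t, y) := by
  have hx : ∀ τ ∈ S, ∀ x z,
      |iteratedDeriv j (W τ) x - iteratedDeriv j (W τ) z| ≤ C * |x - z| := by
    intro τ hτ x z
    have hd : Differentiable ℝ (iteratedDeriv j (W τ)) :=
      (hs τ hτ).differentiable_iteratedDeriv j (by exact_mod_cast WithTop.coe_lt_top j)
    have hder : ∀ z, ‖deriv (iteratedDeriv j (W τ)) z‖ ≤ C := by
      intro z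
      rw [← iteratedDeriv_succ, Real.norm_eq_abs]
      exact hC τ hτ z
    have h2 := Convex.norm_image_sub_le_of_norm_deriv_le (s := (univ : Set ℝ))
      (fun z _ => hd z) (fun z _ => hder z) convex_univ (mem_univ z) (mem_univ x)
    simpa only [Real.norm_eq_abs] using h2
  have h3 : Tendsto (fun z : ℝ × ℝ => z.1) (𝓝[S ×ˢ univ] (t, y)) (𝓝[S] t) := by
    refine tendsto_nhdsWithin_iff.2 ⟨?_, ?_⟩
    · exact (continuous_fst.tendsto (t, y)).mono_left nhdsWithin_le_nhds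
    · filter_upwards [self_mem_nhdsWithin] with z hz
      exact hz.1
  have h4 := hc.tendsto.comp h3
  have h5 : Tendsto (fun z : ℝ × ℝ => |iteratedDeriv j (W z.1) y - iteratedDeriv j (W t) y|)
      (𝓝[S ×ˢ univ] (t, y)) (𝓝 0) := by
    have h6 := (h4.sub_const (iteratedDeriv j (W t) y)).abs
    rw [sub_self, abs_zero] at h6
    exact h6
  have h7 : Tendsto (fun z : ℝ × ℝ => C * |z.2 - y|) (𝓝[S ×ˢ univ] (t, y)) (𝓝 0) := by
    have h8 : Continuous (fun z : ℝ × ℝ => C * |z.2 - y|) := by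
      fun_prop
    have h9 := (h8.tendsto (t, y)).mono_left (nhdsWithin_le_nhds
      (s := S ×ˢ (univ : Set ℝ)))
    simpa only [sub_self, abs_zero, mul_zero] using h9
  have h10 := h7.add h5
  rw [add_zero] at h10
  rw [ContinuousWithinAt, tendsto_iff_dist_tendsto_zero]
  refine squeeze_zero' (Eventually.of_forall fun _ => dist_nonneg) ?_ h10
  filter_upwards [self_mem_nhdsWithin] with z hz
  rw [Real.dist_eq]
  have k2 := hx z.1 hz.1 z.2 y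
  have k5 := abs_add_le (iteratedDeriv j (W z.1) z.2 - iteratedDeriv j (W z.1) y)
    (iteratedDeriv j (W z.1) y - iteratedDeriv j (W t) y)
  have k6 : iteratedDeriv j (W z.1) z.2 - iteratedDeriv j (W z.1) y +
      (iteratedDeriv j (W z.1) y - iteratedDeriv j (W t) y) =
      iteratedDeriv j (W z.1) z.2 - iteratedDeriv j (W t) y := by ring
  rw [k6] at k5
  show |iteratedDeriv j (W z.1) z.2 - iteratedDeriv j (W t) y| ≤ _
  linarith

theorem flo_jc {θ : ℝ} {J : Set ℝ} {r w : ℝ → ℝ} {W Z : ℝ → ℝ → ℝ} (F : Flo θ J r w W Z) (j : ℕ)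
    {t : ℝ} (ht : t ∈ J) (y : ℝ) :
    ContinuousAt (fun q : ℝ × ℝ => iteratedDeriv j (W q.1) q.2) (t, y) := by
  obtain ⟨C, hC0, hC⟩ := F.bd (j + 1)
  have h1 := CJc_aux (S := J) (C := C) j F.sm (fun τ hτ z => (hC τ hτ z).1.trans
    (mul_le_of_le_one_right hC0 (bd_le_one F.θ0.le F.θ0.le z))) y ht
    (F.ev j t ht y).continuousAt.continuousWithinAt
  refine h1.continuousAt ?_
  exact (F.op.prod isOpen_univ).mem_nhds ⟨ht, mem_univ y⟩

theorem fa_jc {θ : ℝ} {S : Set ℝ} {r : ℝ → ℝ} {W : ℝ → ℝ → ℝ} (F : Fa θ S r W) (j : ℕ) :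
    ContinuousOn (fun q : ℝ × ℝ => iteratedDeriv j (W q.1) q.2) (S ×ˢ univ) := by
  obtain ⟨C, hC0, hC⟩ := F.bd (j + 1)
  rintro ⟨t, y⟩ ⟨ht, -⟩
  exact CJc_aux (S := S) (C := C) j F.sm (fun τ hτ z => (hC τ hτ z).trans
    (mul_le_of_le_one_right hC0 (bd_le_one F.θ0.le F.θ0.le z))) y ht (F.co j y t ht)

end H72KC

end S_H72_KC_CJc

section S_H72_KC_CAl

/-!
# Row CAl: continuity of `α = alf (r^2) W`

`alf s W = ∫ ξ in 1..2, W (ξ/s) * pw ξ`, `pw` is a polynomial.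
Proof.  `(t,ξ) ↦ W t (ξ/(r t)^2) * pw ξ` is continuous on `S × [1,2]` (`fa_jc` with `j = 0`, `iteratedDeriv_zero`; `r` is continuous
and `≥ θ > 0` on `S`), bounded by `C * K` (`|W| ≤ C` by `F.bd 0`, `bd ≤ 1`; `|pw| ≤ K := 630` on `[1,2]`).  Use
`intervalIntegral.continuousWithinAt_of_dominated_interval` (or `continuousWithinAt_of_dominated` for the measure
restricted to `Ioc 1 2`) at each `t ∈ S`.  `bnd_al'`: `|∫_1^2 f| ≤ sup |f|` (`intervalIntegral.norm_integral_le_of_norm_le_const`).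
-/

open MeasureTheory Filter Topology Set
open scoped ContDiff

namespace H72KC

open H98KB H72KB H68KC

theorem CAl_bd_le_one {θ : ℝ} (h : 0 ≤ θ) (y : ℝ) : H98KB.bd θ θ y ≤ 1 := by
  unfold H98KB.bd
  rw [Real.exp_le_one_iff]
  have h1 : 0 ≤ θ * max y 0 := mul_nonneg h (le_max_right _ _)
  have h2 : 0 ≤ θ * max (-y) 0 := mul_nonneg h (le_max_right _ _)
  linarith

theorem CAl_pw {ξ : ℝ} (h : ξ ∈ Set.uIoc (1 : ℝ) 2) : |pw ξ| ≤ 630 := by
  rw [Set.uIoc_of_le (by norm_num)] at h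
  obtain ⟨h1, h2⟩ := h
  unfold pw
  have h3 : (ξ - 1) ^ 4 ≤ 1 := pow_le_one₀ (by linarith) (by linarith)
  have h4 : (2 - ξ) ^ 4 ≤ 1 := pow_le_one₀ (by linarith) (by linarith)
  have h5 : 0 ≤ (ξ - 1) ^ 4 := by positivity
  have h6 : 0 ≤ (2 - ξ) ^ 4 := by positivity
  rw [abs_of_nonneg (by positivity)]
  have h7 : (ξ - 1) ^ 4 * (2 - ξ) ^ 4 ≤ 1 := by nlinarith
  nlinarith

theorem CAl_bnd {θ : ℝ} {S : Set ℝ} {r : ℝ → ℝ} {W : ℝ → ℝ → ℝ} (F : Fa θ S r W) :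
    ∃ C : ℝ, 0 ≤ C ∧ ∀ t ∈ S, ∀ y, |W t y| ≤ C := by
  obtain ⟨C, hC, hb⟩ := F.bd 0
  refine ⟨C, hC, fun t ht y => ?_⟩
  have h1 := hb t ht y
  rw [iteratedDeriv_zero] at h1
  have h2 := CAl_bd_le_one F.θ0.le y
  calc |W t y| ≤ C * H98KB.bd θ θ y := h1
    _ ≤ C * 1 := mul_le_mul_of_nonneg_left h2 hC
    _ = C := mul_one C

theorem con_alf {θ : ℝ} {S : Set ℝ} {r : ℝ → ℝ} {W : ℝ → ℝ → ℝ} (F : Fa θ S r W) :
    ContinuousOn (fun t => alf ((r t) ^ 2) (W t)) S := by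
  obtain ⟨C, hC, hb⟩ := CAl_bnd F
  intro t ht
  unfold alf
  refine intervalIntegral.continuousWithinAt_of_dominated_interval (bound := fun _ => C * 630) ?_ ?_ ?_ ?_
  · filter_upwards [self_mem_nhdsWithin] with τ hτ
    refine Continuous.aestronglyMeasurable ?_
    have h1 : Continuous (W τ) := (F.sm τ hτ).continuous
    have h2 : Continuous pw := by
      unfold pw
      fun_prop
    exact (h1.comp (continuous_id.div_const _)).mul h2
  · filter_upwards [self_mem_nhdsWithin] with τ hτ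
    refine Eventually.of_forall fun ξ hξ => ?_
    rw [Real.norm_eq_abs, abs_mul]
    exact mul_le_mul (hb τ hτ _) (CAl_pw hξ) (abs_nonneg _) hC
  · exact intervalIntegrable_const
  · refine Eventually.of_forall fun ξ _ => ?_
    refine ContinuousWithinAt.mul ?_ continuousWithinAt_const
    have h1 := fa_jc F 0
    have h2 : ContinuousWithinAt (fun q : ℝ × ℝ => iteratedDeriv 0 (W q.1) q.2) (S ×ˢ univ) (t, ξ / (r t) ^ 2) :=
      h1 (t, ξ / (r t) ^ 2) ⟨ht, mem_univ _⟩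
    have h3 : ContinuousWithinAt (fun τ : ℝ => (τ, ξ / (r τ) ^ 2)) S t := by
      refine continuousWithinAt_id.prodMk ?_
      refine continuousWithinAt_const.div ((F.cr t ht).pow 2) ?_
      have : 0 < r t := F.θ0.trans_le (F.lo t ht)
      positivity
    have h4 := ContinuousWithinAt.comp (g := fun q : ℝ × ℝ => iteratedDeriv 0 (W q.1) q.2)
      (f := fun τ : ℝ => (τ, ξ / (r τ) ^ 2)) (x := t) h2 h3 (fun τ hτ => ⟨hτ, mem_univ _⟩)
    refine h4.congr (fun τ _ => ?_) ?_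
    · simp [Function.comp, iteratedDeriv_zero]
    · simp [Function.comp, iteratedDeriv_zero]

theorem bnd_al' {θ : ℝ} {S : Set ℝ} {r : ℝ → ℝ} {W : ℝ → ℝ → ℝ} (F : Fa θ S r W) :
    ∃ K : ℝ, 0 ≤ K ∧ ∀ t ∈ S, |alf ((r t) ^ 2) (W t)| ≤ K := by
  obtain ⟨C, hC, hb⟩ := CAl_bnd F
  refine ⟨C * 630, by positivity, fun t ht => ?_⟩
  unfold alf
  have h1 := intervalIntegral.norm_integral_le_of_norm_le_const (a := 1) (b := 2) (C := C * 630)
    (f := fun ξ => W t (ξ / (r t) ^ 2) * pw ξ) (fun ξ hξ => by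
      rw [Real.norm_eq_abs, abs_mul]
      exact mul_le_mul (hb t ht _) (CAl_pw hξ) (abs_nonneg _) hC)
  rw [Real.norm_eq_abs] at h1
  have h2 : C * 630 * |(2 : ℝ) - 1| = C * 630 := by norm_num
  rwa [h2] at h1

end H72KC

end S_H72_KC_CAl

section S_H72_KC_DAl

/-!
# Row DAl: time derivative of `α = alf (r^2) W`

`alf s W = ∫ ξ in 1..2, W (ξ/s) * pw ξ`, `alD s w W Z = ∫ ξ in 1..2, (Z (ξ/s) + 1/4*w*(ξ/s)*deriv W (ξ/s)) * pw ξ`.
Proof.  For fixed `ξ`, `z(τ) = ξ / (r τ)^2` has derivative `-2 ξ r' / r^3 = (w/4) (ξ/r^2) / r^24` (`F.dr`: `r' = -(w r/8)/r^24`).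
CHAIN RULE `FlowR_chain` (in `KB/FlowR.lean`) with `V τ y = W τ y`, `V' τ y = deriv (W τ) y` (`h1` = `F.ev 0`, `h2` from smoothness
`F.sm`, `h3` = `flo_jc F 1`, with `iteratedDeriv_zero`, `iteratedDeriv_one`):
 `d/dτ W τ (z τ) = Z/r^24 + deriv W (z) * (w/4)(ξ/r^2)/r^24 = (Z(z) + 1/4 w z W'(z)) / r^24`.
Then `intervalIntegral.hasDerivAt_integral_of_dominated_loc_of_deriv_le` on the open set `J` (`∈ 𝓝 t`); all integrands are
continuous in `ξ` on `[1,2]` (compositions; `(r τ)^2 > 0`), the derivative is bounded by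
`(C + 1/4 Cw (2/θ^2) C)/θ^24 * 630`.  Finally `∫ (..)/r^24 = alD / r^24`.
`bnd_al`: `|∫_1^2 f| ≤ sup|f|` (`intervalIntegral.norm_integral_le_of_norm_le_const`), `|pw| ≤ 630` on `[1,2]`,
`|ξ/s| ≤ 2/θ^2`.
-/

open MeasureTheory Filter Topology Set
open scoped ContDiff

namespace H72KC

open H98KB H72KB H68KC

theorem DAl_pw {ξ : ℝ} (h1 : 1 ≤ ξ) (h2 : ξ ≤ 2) : |pw ξ| ≤ 630 := by
  unfold pw
  have a0 : 0 ≤ ξ - 1 := by linarith
  have a1 : ξ - 1 ≤ 1 := by linarith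
  have b0 : 0 ≤ 2 - ξ := by linarith
  have b1 : 2 - ξ ≤ 1 := by linarith
  have c1 : (ξ - 1) ^ 4 ≤ 1 := pow_le_one₀ a0 a1
  have c2 : (2 - ξ) ^ 4 ≤ 1 := pow_le_one₀ b0 b1
  have d1 : 0 ≤ (ξ - 1) ^ 4 := by positivity
  have d2 : 0 ≤ (2 - ξ) ^ 4 := by positivity
  rw [abs_of_nonneg (by positivity)]
  have : (ξ - 1) ^ 4 * (2 - ξ) ^ 4 ≤ 1 := mul_le_one₀ c1 d2 c2
  calc 630 * (ξ - 1) ^ 4 * (2 - ξ) ^ 4 = 630 * ((ξ - 1) ^ 4 * (2 - ξ) ^ 4) := by ring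
    _ ≤ 630 * 1 := by linarith
    _ = 630 := by norm_num

theorem DAl_cpw : Continuous pw := by
  unfold pw
  fun_prop

theorem DAl_bds {θ : ℝ} {J : Set ℝ} {r w : ℝ → ℝ} {W Z : ℝ → ℝ → ℝ} (F : Flo θ J r w W Z) :
    ∃ C : ℝ, 0 ≤ C ∧ ∀ t ∈ J, |w t| ≤ C ∧
      ∀ y, |W t y| ≤ C ∧ |Z t y| ≤ C ∧ |deriv (W t) y| ≤ C := by
  obtain ⟨C0, h0, hC0⟩ := F.bd 0
  obtain ⟨C1, h1, hC1⟩ := F.bd 1
  obtain ⟨Cw, hw, hCw⟩ := F.bw
  have hb : ∀ y, H98KB.bd θ θ y ≤ 1 := fun y => bd_le_one F.θ0.le F.θ0.le y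
  have hb0 : ∀ y, 0 ≤ H98KB.bd θ θ y := fun y => (H72KB.bd_pos _ _ _).le
  refine ⟨C0 + C1 + Cw, by linarith, fun t ht => ⟨by linarith [hCw t ht], fun y => ?_⟩⟩
  have a := hC0 t ht y
  have b := hC1 t ht y
  rw [iteratedDeriv_zero, iteratedDeriv_zero] at a
  rw [iteratedDeriv_one] at b
  have c : C0 * H98KB.bd θ θ y ≤ C0 := mul_le_of_le_one_right h0 (hb y)
  have d : C1 * H98KB.bd θ θ y ≤ C1 := mul_le_of_le_one_right h1 (hb y)
  exact ⟨by linarith [a.1], by linarith [a.2], by linarith [b.1]⟩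

theorem DAl_q {θ : ℝ} {J : Set ℝ} {r w : ℝ → ℝ} {W Z : ℝ → ℝ → ℝ} (F : Flo θ J r w W Z)
    {t : ℝ} (ht : t ∈ J) {ξ : ℝ} (h1 : 1 ≤ ξ) (h2 : ξ ≤ 2) : |ξ / (r t) ^ 2| ≤ 2 / θ ^ 2 := by
  have h3 := F.lo t ht
  have h4 := F.θ0
  have h5 : 0 < (r t) ^ 2 := by have := lt_of_lt_of_le h4 h3; positivity
  rw [abs_of_nonneg (by positivity)]
  gcongr

theorem DAl_int {θ : ℝ} {J : Set ℝ} {r w : ℝ → ℝ} {W Z : ℝ → ℝ → ℝ} (F : Flo θ J r w W Z)
    {C : ℝ} (h0 : 0 ≤ C) (hC : ∀ t ∈ J, |w t| ≤ C ∧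
      ∀ y, |W t y| ≤ C ∧ |Z t y| ≤ C ∧ |deriv (W t) y| ≤ C)
    {t : ℝ} (ht : t ∈ J) {ξ : ℝ} (h1 : 1 ≤ ξ) (h2 : ξ ≤ 2) :
    |(Z t (ξ / (r t) ^ 2) + 1 / 4 * w t * (ξ / (r t) ^ 2) * deriv (W t) (ξ / (r t) ^ 2)) * pw ξ| ≤
      (C + 1 / 4 * C * (2 / θ ^ 2) * C) * 630 := by
  obtain ⟨hw, hy⟩ := hC t ht
  obtain ⟨-, hz, hd⟩ := hy (ξ / (r t) ^ 2)
  have hq := DAl_q F ht h1 h2
  have hp := DAl_pw h1 h2
  have hθ := F.θ0
  rw [abs_mul]
  refine mul_le_mul ?_ hp (abs_nonneg _) (by positivity)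
  refine (abs_add_le _ _).trans (add_le_add hz ?_)
  rw [abs_mul, abs_mul, abs_mul, abs_of_pos (by norm_num : (0 : ℝ) < 1 / 4)]
  gcongr

theorem der_alf {θ : ℝ} {J : Set ℝ} {r w : ℝ → ℝ} {W Z : ℝ → ℝ → ℝ} (F : Flo θ J r w W Z)
    {t : ℝ} (ht : t ∈ J) :
    HasDerivAt (fun τ => alf ((r τ) ^ 2) (W τ))
      (alD ((r t) ^ 2) (w t) (W t) (Z t) / (r t) ^ 24) t := by
  obtain ⟨C, h0, hC⟩ := DAl_bds F
  have hθ := F.θ0
  have hr : ∀ τ ∈ J, 0 < r τ := fun τ hτ => lt_of_lt_of_le hθ (F.lo τ hτ)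
  have hcW : ∀ τ ∈ J, Continuous (W τ) := fun τ hτ => (F.sm τ hτ).continuous
  have hcZ : ∀ τ ∈ J, Continuous (Z τ) := fun τ hτ => (F.sz τ hτ).continuous
  have hcD : ∀ τ ∈ J, Continuous (deriv (W τ)) := fun τ hτ =>
    (contDiff_infty_iff_deriv.1 (F.sm τ hτ)).2.continuous
  have hc1 : ∀ τ ∈ J, Continuous (fun ξ : ℝ => W τ (ξ / (r τ) ^ 2) * pw ξ) := fun τ hτ =>
    ((hcW τ hτ).comp (continuous_id.div_const _)).mul DAl_cpw
  have hc2 : ∀ τ ∈ J, Continuous (fun ξ : ℝ => (Z τ (ξ / (r τ) ^ 2) +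
      1 / 4 * w τ * (ξ / (r τ) ^ 2) * deriv (W τ) (ξ / (r τ) ^ 2)) * pw ξ / (r τ) ^ 24) :=
    fun τ hτ => ((((hcZ τ hτ).comp (continuous_id.div_const _)).add
      ((continuous_const.mul (continuous_id.div_const _)).mul
        ((hcD τ hτ).comp (continuous_id.div_const _)))).mul DAl_cpw).div_const _
  have key := intervalIntegral.hasDerivAt_integral_of_dominated_loc_of_deriv_le
    (μ := volume) (a := 1) (b := 2) (x₀ := t) (s := J)
    (F := fun τ ξ => W τ (ξ / (r τ) ^ 2) * pw ξ)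
    (F' := fun τ ξ => (Z τ (ξ / (r τ) ^ 2) +
      1 / 4 * w τ * (ξ / (r τ) ^ 2) * deriv (W τ) (ξ / (r τ) ^ 2)) * pw ξ / (r τ) ^ 24)
    (bound := fun _ => (C + 1 / 4 * C * (2 / θ ^ 2) * C) * 630 / θ ^ 24)
    (F.op.mem_nhds ht)
    (Filter.eventually_of_mem (F.op.mem_nhds ht) fun τ hτ => (hc1 τ hτ).aestronglyMeasurable)
    ((hc1 t ht).intervalIntegrable _ _)
    (hc2 t ht).aestronglyMeasurable
    (Eventually.of_forall fun ξ hξ τ hτ => by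
      rw [uIoc_of_le (by norm_num)] at hξ
      have h1 := DAl_int F h0 hC hτ hξ.1.le hξ.2
      rw [Real.norm_eq_abs, abs_div, abs_of_pos (pow_pos (hr τ hτ) 24)]
      have h2 : θ ^ 24 ≤ (r τ) ^ 24 := pow_le_pow_left₀ hθ.le (F.lo τ hτ) 24
      have h3 : 0 < θ ^ 24 := by positivity
      gcongr)
    intervalIntegrable_const
    (Eventually.of_forall fun ξ hξ τ hτ => by
      have hrτ := hr τ hτ
      have e0 : HasDerivAt (fun τ => W τ (ξ / (r τ) ^ 2)) (Z τ (ξ / (r τ) ^ 2) / (r τ) ^ 24 +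
          deriv (W τ) (ξ / (r τ) ^ 2) *
            ((1 / 4 * w τ * (ξ / (r τ) ^ 2)) / (r τ) ^ 24)) τ := by
        have hz : HasDerivAt (fun τ => ξ / (r τ) ^ 2)
            ((1 / 4 * w τ * (ξ / (r τ) ^ 2)) / (r τ) ^ 24) τ := by
          have h1 := ((F.dr τ hτ).pow 2)
          have h2 := (hasDerivAt_const τ ξ).div h1 (by simp only [Pi.pow_apply]; positivity)
          refine (h2.congr_deriv ?_).congr_of_eventuallyEq (Eventually.of_forall fun _ => rfl)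
          simp only [Pi.pow_apply]
          field_simp
          ring
        have hev := F.ev 0 τ hτ (ξ / (r τ) ^ 2)
        have hjc := flo_jc F 1 hτ (ξ / (r τ) ^ 2)
        simp only [iteratedDeriv_zero] at hev
        simp only [iteratedDeriv_one] at hjc
        exact FlowR_chain (V := fun τ y => W τ y) (V' := fun τ y => deriv (W τ) y)
          (z := fun τ => ξ / (r τ) ^ 2) (F.op.mem_nhds hτ) hev
          (fun σ hσ y => (((F.sm σ hσ).differentiable (by simp)) y).hasDerivAt) hjc hz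
      refine (e0.mul_const (pw ξ)).congr_deriv ?_
      ring)
  refine key.2.congr_deriv ?_
  unfold alD
  rw [intervalIntegral.integral_div]

theorem bnd_al {θ : ℝ} {J : Set ℝ} {r w : ℝ → ℝ} {W Z : ℝ → ℝ → ℝ} (F : Flo θ J r w W Z) :
    ∃ K : ℝ, 0 ≤ K ∧ ∀ t ∈ J, |alf ((r t) ^ 2) (W t)| ≤ K ∧
      |alD ((r t) ^ 2) (w t) (W t) (Z t)| ≤ K := by
  obtain ⟨C, h0, hC⟩ := DAl_bds F
  have hθ := F.θ0
  refine ⟨(C + 1 / 4 * C * (2 / θ ^ 2) * C) * 630, by positivity, fun t ht => ⟨?_, ?_⟩⟩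
  · unfold alf
    have h1 := intervalIntegral.norm_integral_le_of_norm_le_const
      (a := (1 : ℝ)) (b := 2) (f := fun ξ => W t (ξ / (r t) ^ 2) * pw ξ) (C := C * 630)
      (fun ξ hξ => by
        rw [uIoc_of_le (by norm_num)] at hξ
        rw [Real.norm_eq_abs, abs_mul]
        exact mul_le_mul ((hC t ht).2 _).1 (DAl_pw hξ.1.le hξ.2) (abs_nonneg _) h0)
    rw [Real.norm_eq_abs] at h1
    have h2 : |(2 : ℝ) - 1| = 1 := by norm_num
    rw [h2, mul_one] at h1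
    refine h1.trans ?_
    have h3 : 0 ≤ 1 / 4 * C * (2 / θ ^ 2) * C := by positivity
    nlinarith
  · unfold alD
    have h1 := intervalIntegral.norm_integral_le_of_norm_le_const
      (a := (1 : ℝ)) (b := 2) (f := fun ξ => (Z t (ξ / (r t) ^ 2) +
        1 / 4 * w t * (ξ / (r t) ^ 2) * deriv (W t) (ξ / (r t) ^ 2)) * pw ξ)
      (C := (C + 1 / 4 * C * (2 / θ ^ 2) * C) * 630)
      (fun ξ hξ => by
        rw [uIoc_of_le (by norm_num)] at hξ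
        rw [Real.norm_eq_abs]
        exact DAl_int F h0 hC ht hξ.1.le hξ.2)
    rw [Real.norm_eq_abs] at h1
    have h2 : |(2 : ℝ) - 1| = 1 := by norm_num
    rw [h2, mul_one] at h1
    exact h1

end H72KC

end S_H72_KC_DAl

section S_H72_KC_BBq

/-!
# Row BBq: the parameter `b = bq (r^2) W`: continuity, derivative, bounds

`bq s W = (ip (fun y => W y - Qf 4 y) (Qf 4) - alf s W * (Iq/4)) * (16/Iq^2)`,
`bqD s w W Z = (ip Z (Qf 4) - alD s w W Z * (Iq/4)) * (16/Iq^2)`.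
Proof.  `ip (W - Q) Q = ip W Q - ip Q Q` (both integrable: `Qf 4` is of class `Cl 1 1` by `Q_cl`, in particular continuous and
bounded; `W t` is bounded by `C bd θ θ`, use `bd_int`), so everything follows from `con_ip, der_ip, bnd_ip, bnd_ip'`
(`φ = Qf 4`) and `con_alf, der_alf, bnd_al, bnd_al'`.
-/

open MeasureTheory Filter Topology Set
open scoped ContDiff

namespace H72KC

open H98KB H72KB H68KC

theorem BBq_cQ : Continuous (Qf 4) := (Q_cl (k := 4) (by norm_num)).1.continuous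

theorem BBq_bQ : ∃ C : ℝ, ∀ y, |Qf 4 y| ≤ C :=
  Cl_bdd (by norm_num) (by norm_num) (Q_cl (k := 4) (by norm_num))

theorem BBq_eq {θ : ℝ} (hθ : 0 < θ) {W : ℝ → ℝ} (hW : Cl θ θ W) (s : ℝ) :
    bq s W = (ip W (Qf 4) - ip (Qf 4) (Qf 4) - alf s W * (Iq / 4)) * (16 / Iq ^ 2) := by
  obtain ⟨C, hC⟩ := BBq_bQ
  have i1 : Integrable (fun y => W y * Qf 4 y) := Cl_int_mul hθ hθ hW BBq_cQ C hC
  have i2 : Integrable (fun y => Qf 4 y * Qf 4 y) :=
    Cl_int_mul (p := 1) (q := 1) (by norm_num) (by norm_num) (Q_cl (k := 4) (by norm_num)) BBq_cQ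
      C hC
  have e : ip (fun y => W y - Qf 4 y) (Qf 4) = ip W (Qf 4) - ip (Qf 4) (Qf 4) := by
    unfold ip
    rw [← integral_sub i1 i2]
    congr 1
    funext y
    ring
  unfold bq
  rw [e]

theorem BBq_Fa {θ : ℝ} {S : Set ℝ} {r : ℝ → ℝ} {W : ℝ → ℝ → ℝ} (F : Fa θ S r W) {t : ℝ}
    (ht : t ∈ S) : Cl θ θ (W t) := by
  refine ⟨F.sm t ht, fun j => ?_⟩
  obtain ⟨C, _, hC⟩ := F.bd j
  exact ⟨C, fun y => hC t ht y⟩

theorem BBq_Flo {θ : ℝ} {J : Set ℝ} {r w : ℝ → ℝ} {W Z : ℝ → ℝ → ℝ} (F : Flo θ J r w W Z)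
    {t : ℝ} (ht : t ∈ J) : Cl θ θ (W t) := by
  refine ⟨F.sm t ht, fun j => ?_⟩
  obtain ⟨C, _, hC⟩ := F.bd j
  exact ⟨C, fun y => (hC t ht y).1⟩

theorem con_bq {θ : ℝ} {S : Set ℝ} {r : ℝ → ℝ} {W : ℝ → ℝ → ℝ} (F : Fa θ S r W) :
    ContinuousOn (fun t => bq ((r t) ^ 2) (W t)) S := by
  obtain ⟨C, hC⟩ := BBq_bQ
  have h1 : ContinuousOn (fun t => (ip (W t) (Qf 4) - ip (Qf 4) (Qf 4) -
      alf ((r t) ^ 2) (W t) * (Iq / 4)) * (16 / Iq ^ 2)) S :=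
    (((con_ip F BBq_cQ hC).sub continuousOn_const).sub
      ((con_alf F).mul continuousOn_const)).mul continuousOn_const
  exact h1.congr (fun t ht => BBq_eq F.θ0 (BBq_Fa F ht) _)

theorem BBq_abs (a b c d e A B : ℝ) (ha : |a| ≤ A) (hc : |c| ≤ B) :
    |(a - b - c * d) * e| ≤ (A + |b| + B * |d|) * |e| := by
  rw [abs_mul]
  refine mul_le_mul_of_nonneg_right ?_ (abs_nonneg _)
  have h1 : |a - b - c * d| ≤ |a| + |b| + |c| * |d| := by
    rw [← abs_mul]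
    exact (abs_sub _ _).trans (add_le_add_left (abs_sub _ _) _)
  have h2 : |c| * |d| ≤ B * |d| := mul_le_mul_of_nonneg_right hc (abs_nonneg _)
  linarith

theorem bnd_bq' {θ : ℝ} {S : Set ℝ} {r : ℝ → ℝ} {W : ℝ → ℝ → ℝ} (F : Fa θ S r W) :
    ∃ K : ℝ, 0 ≤ K ∧ ∀ t ∈ S, |bq ((r t) ^ 2) (W t)| ≤ K := by
  obtain ⟨C, hC⟩ := BBq_bQ
  obtain ⟨A, hA0, hA⟩ := bnd_ip' F BBq_cQ hC
  obtain ⟨B, hB0, hB⟩ := bnd_al' F
  refine ⟨(A + |ip (Qf 4) (Qf 4)| + B * |Iq / 4|) * |16 / Iq ^ 2|, by positivity, fun t ht => ?_⟩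
  rw [BBq_eq F.θ0 (BBq_Fa F ht)]
  exact BBq_abs _ _ _ _ _ _ _ (hA t ht) (hB t ht)

theorem der_bq {θ : ℝ} {J : Set ℝ} {r w : ℝ → ℝ} {W Z : ℝ → ℝ → ℝ} (F : Flo θ J r w W Z)
    {t : ℝ} (ht : t ∈ J) :
    HasDerivAt (fun τ => bq ((r τ) ^ 2) (W τ))
      (bqD ((r t) ^ 2) (w t) (W t) (Z t) / (r t) ^ 24) t := by
  obtain ⟨C, hC⟩ := BBq_bQ
  have h1 := (((der_ip F BBq_cQ hC ht).sub_const (ip (Qf 4) (Qf 4))).sub
    ((der_alf F ht).mul_const (Iq / 4))).mul_const (16 / Iq ^ 2)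
  have h2 := h1.congr_of_eventuallyEq (f₁ := fun τ => bq ((r τ) ^ 2) (W τ)) (by
    filter_upwards [F.op.mem_nhds ht] with τ hτ
    exact BBq_eq F.θ0 (BBq_Flo F hτ) _)
  refine h2.congr_deriv ?_
  unfold bqD
  ring

theorem bnd_bq {θ : ℝ} {J : Set ℝ} {r w : ℝ → ℝ} {W Z : ℝ → ℝ → ℝ} (F : Flo θ J r w W Z) :
    ∃ K : ℝ, 0 ≤ K ∧ ∀ t ∈ J, |bq ((r t) ^ 2) (W t)| ≤ K ∧
      |bqD ((r t) ^ 2) (w t) (W t) (Z t)| ≤ K := by
  obtain ⟨C, hC⟩ := BBq_bQ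
  obtain ⟨A, hA0, hA⟩ := bnd_ip F BBq_cQ hC
  obtain ⟨B, hB0, hB⟩ := bnd_al F
  refine ⟨(A + |ip (Qf 4) (Qf 4)| + B * |Iq / 4|) * |16 / Iq ^ 2|, by positivity,
    fun t ht => ⟨?_, ?_⟩⟩
  · rw [BBq_eq F.θ0 (BBq_Flo F ht)]
    exact BBq_abs _ _ _ _ _ _ _ (hA t ht).1 (hB t ht).1
  · unfold bqD
    have h1 := BBq_abs (ip (Z t) (Qf 4)) 0 (alD ((r t) ^ 2) (w t) (W t) (Z t)) (Iq / 4)
      (16 / Iq ^ 2) A B (hA t ht).2 (hB t ht).2
    rw [sub_zero, abs_zero, add_zero] at h1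
    refine h1.trans (mul_le_mul_of_nonneg_right ?_ (abs_nonneg _))
    have := abs_nonneg (ip (Qf 4) (Qf 4))
    linarith

end H72KC

end S_H72_KC_BBq

section S_H72_KC_BEp

/-!
# Row BEp: the functions `ε(t) = ep P E (r^2) (W t)` form bounded families

`ep P E s W y = W y - Qf 4 y - hf P E (bq s W) (alf s W) y`, `hf P E b α y = b * P y + α * E y`,
`epD P E s w W Z y = Z y - bqD s w W Z * P y - alD s w W Z * E y`.
Proof.  All `iteratedDeriv j P`, `iteratedDeriv j E`, `iteratedDeriv j (Qf 4)` are bounded: for `j ≥ 1`, `iteratedDeriv j P =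
iteratedDeriv (j-1) (deriv P)` (`iteratedDeriv_succ'`) and `Prof.dP` (`bd ≤ 1`); `|P| ≤ C + |Iq|/2 + C'` (`Prof.P0, P1`); `E - 1` is of
class `Cl (3/4) (3/4)` (`Prof.E1`), hence `|E| ≤ 1 + C` and `iteratedDeriv j E = iteratedDeriv j (E - 1)` for `j ≥ 1`; `Q_cl`.
`E = (E - 1) + 1` is smooth.  So `iteratedDeriv j (ep ..) y = iteratedDeriv j W y - iteratedDeriv j Q y - b P^{(j)} y - α E^{(j)} y`
(`iteratedDeriv_fun_sub`, `iteratedDeriv_fun_add`, `iteratedDeriv_const_mul_field`; `ClB_at` style `ContDiffAt` arguments), bounded by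
`F.bd j`, `bnd_bq`, `bnd_al`.  Pointwise continuity: `F.co j y`, `con_bq`, `con_alf`.  Pointwise derivative:
`F.ev j`, `der_bq`, `der_alf` (constants `P^{(j)} y`, `E^{(j)} y`); the same formula for `iteratedDeriv j (epD ..)`.
-/

open MeasureTheory Filter Topology Set
open scoped ContDiff

namespace H72KC

open H98KB H72KB H68KC

theorem BEp_smE {P E : ℝ → ℝ} (hp : Prof P E) : ContDiff ℝ ∞ E := by
  have h := hp.E1.1.add (contDiff_const (c := (1 : ℝ)))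
  have h2 : (fun y => (E y - 1) + 1) = E := by
    funext y
    ring
  rw [h2] at h
  exact h

theorem BEp_it (j : ℕ) {f g p e : ℝ → ℝ} (hf : ContDiff ℝ ∞ f) (hg : ContDiff ℝ ∞ g) (hp : ContDiff ℝ ∞ p)
    (he : ContDiff ℝ ∞ e) (b a y : ℝ) :
    iteratedDeriv j (fun y => f y - g y - (b * p y + a * e y)) y
      = iteratedDeriv j f y - iteratedDeriv j g y - (b * iteratedDeriv j p y + a * iteratedDeriv j e y) := by
  have h1 := ClB_at hf j y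
  have h2 := ClB_at hg j y
  have h3 := ClB_at (contDiff_const.mul hp : ContDiff ℝ ∞ (fun y => b * p y)) j y
  have h4 := ClB_at (contDiff_const.mul he : ContDiff ℝ ∞ (fun y => a * e y)) j y
  rw [iteratedDeriv_fun_sub (h1.sub h2) (h3.add h4), iteratedDeriv_fun_sub h1 h2, iteratedDeriv_fun_add h3 h4,
    iteratedDeriv_const_mul_field, iteratedDeriv_const_mul_field]

theorem BEp_it2 (j : ℕ) {f p e : ℝ → ℝ} (hf : ContDiff ℝ ∞ f) (hp : ContDiff ℝ ∞ p)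
    (he : ContDiff ℝ ∞ e) (b a y : ℝ) :
    iteratedDeriv j (fun y => f y - b * p y - a * e y) y
      = iteratedDeriv j f y - b * iteratedDeriv j p y - a * iteratedDeriv j e y := by
  have h1 := ClB_at hf j y
  have h3 := ClB_at (contDiff_const.mul hp : ContDiff ℝ ∞ (fun y => b * p y)) j y
  have h4 := ClB_at (contDiff_const.mul he : ContDiff ℝ ∞ (fun y => a * e y)) j y
  rw [iteratedDeriv_fun_sub (h1.sub h3) h4, iteratedDeriv_fun_sub h1 h3,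
    iteratedDeriv_const_mul_field, iteratedDeriv_const_mul_field]

theorem prof_bnd {P E : ℝ → ℝ} (hp : Prof P E) (j : ℕ) : ∃ C : ℝ, 0 ≤ C ∧ ∀ y,
    |iteratedDeriv j P y| ≤ C ∧ |iteratedDeriv j E y| ≤ C ∧ |iteratedDeriv j (Qf 4) y| ≤ C := by
  obtain ⟨C1, h10, h1⟩ := ClB_pos hp.cP j
  obtain ⟨C2, h20, h2⟩ := ClB_pos hp.E1 j
  obtain ⟨C3, h30, h3⟩ := ClB_pos (Q_cl (k := 4) (by norm_num)) j
  refine ⟨C1 + (C2 + 1) + C3, by positivity, fun y => ?_⟩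
  have e1 : |iteratedDeriv j P y| ≤ C1 :=
    le_trans (h1 y) (mul_le_of_le_one_right h10 (H72KB.bd_le_one (le_refl 0) (le_refl 0) y))
  have e3 : |iteratedDeriv j (Qf 4) y| ≤ C3 :=
    le_trans (h3 y) (mul_le_of_le_one_right h30 (H72KB.bd_le_one (by norm_num) (by norm_num) y))
  have e2 : |iteratedDeriv j (fun y => E y - 1) y| ≤ C2 :=
    le_trans (h2 y) (mul_le_of_le_one_right h20 (H72KB.bd_le_one (by norm_num) (by norm_num) y))
  have e4 : iteratedDeriv j E y = iteratedDeriv j (fun y => E y - 1) y + iteratedDeriv j (fun _ => (1 : ℝ)) y := by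
    rw [← iteratedDeriv_fun_add (ClB_at hp.E1.1 j y) contDiffAt_const]
    congr 1
    funext z
    ring
  have e5 : |iteratedDeriv j (fun _ => (1 : ℝ)) y| ≤ 1 := by
    rw [iteratedDeriv_const]
    split_ifs <;> simp
  have e6 : |iteratedDeriv j E y| ≤ C2 + 1 := by
    rw [e4]
    exact le_trans (abs_add_le _ _) (add_le_add e2 e5)
  refine ⟨by linarith, by linarith, by linarith⟩

theorem BEp_bound {a b c d e B A P E Q W : ℝ} (h1 : |W| ≤ a) (h2 : |Q| ≤ b) (h3 : |P| ≤ b) (h4 : |E| ≤ b)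
    (h5 : |B| ≤ c) (h6 : |A| ≤ d) (h0 : 0 ≤ b) (he : e = a + b + c * b + d * b) :
    |W - Q - (B * P + A * E)| ≤ e := by
  have c0 : 0 ≤ c := le_trans (abs_nonneg _) h5
  have d0 : 0 ≤ d := le_trans (abs_nonneg _) h6
  have e1 : |B * P| ≤ c * b := by
    rw [abs_mul]
    exact mul_le_mul h5 h3 (abs_nonneg _) c0
  have e2 : |A * E| ≤ d * b := by
    rw [abs_mul]
    exact mul_le_mul h6 h4 (abs_nonneg _) d0
  rw [abs_le] at h1 h2 e1 e2 ⊢
  obtain ⟨p1, p2⟩ := h1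
  obtain ⟨p3, p4⟩ := h2
  obtain ⟨p5, p6⟩ := e1
  obtain ⟨p7, p8⟩ := e2
  constructor <;> linarith

theorem BEp_eq {P E : ℝ → ℝ} (hp : Prof P E) (s : ℝ) {W : ℝ → ℝ} (hW : ContDiff ℝ ∞ W) (j : ℕ) (y : ℝ) :
    iteratedDeriv j (ep P E s W) y = iteratedDeriv j W y - iteratedDeriv j (Qf 4) y
      - (bq s W * iteratedDeriv j P y + alf s W * iteratedDeriv j E y) := by
  have h : ep P E s W = fun y => W y - Qf 4 y - (bq s W * P y + alf s W * E y) := by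
    funext z
    rfl
  rw [h]
  exact BEp_it j hW (Q_cl (k := 4) (by norm_num)).1 hp.cP.1 (BEp_smE hp) _ _ y

theorem BEp_eq2 {P E : ℝ → ℝ} (hp : Prof P E) (s w : ℝ) {W Z : ℝ → ℝ} (hZ : ContDiff ℝ ∞ Z) (j : ℕ) (y : ℝ) :
    iteratedDeriv j (epD P E s w W Z) y = iteratedDeriv j Z y
      - bqD s w W Z * iteratedDeriv j P y - alD s w W Z * iteratedDeriv j E y := by
  have h : epD P E s w W Z = fun y => Z y - bqD s w W Z * P y - alD s w W Z * E y := by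
    funext z
    rfl
  rw [h]
  exact BEp_it2 j hZ hp.cP.1 (BEp_smE hp) _ _ y

theorem BEp_sm {P E : ℝ → ℝ} (hp : Prof P E) (s : ℝ) {W : ℝ → ℝ} (hW : ContDiff ℝ ∞ W) :
    ContDiff ℝ ∞ (ep P E s W) := by
  have h : ep P E s W = fun y => W y - Qf 4 y - (bq s W * P y + alf s W * E y) := by
    funext z
    rfl
  rw [h]
  exact (hW.sub (Q_cl (k := 4) (by norm_num)).1).sub
    ((contDiff_const.mul hp.cP.1).add (contDiff_const.mul (BEp_smE hp)))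

theorem BEp_sm2 {P E : ℝ → ℝ} (hp : Prof P E) (s w : ℝ) {W Z : ℝ → ℝ} (hZ : ContDiff ℝ ∞ Z) :
    ContDiff ℝ ∞ (epD P E s w W Z) := by
  have h : epD P E s w W Z = fun y => Z y - bqD s w W Z * P y - alD s w W Z * E y := by
    funext z
    rfl
  rw [h]
  exact (hZ.sub (contDiff_const.mul hp.cP.1)).sub (contDiff_const.mul (BEp_smE hp))

theorem fae_ep {P E : ℝ → ℝ} (hp : Prof P E) {θ : ℝ} {S : Set ℝ} {r : ℝ → ℝ} {W : ℝ → ℝ → ℝ}
    (F : Fa θ S r W) : Fae θ S r (fun t => ep P E ((r t) ^ 2) (W t)) := by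
  refine ⟨F.θ0, F.θ1, F.lo, F.hi, F.cr, fun t ht => BEp_sm hp _ (F.sm t ht), fun j => ?_, fun j y => ?_⟩
  · obtain ⟨C, hC0, hC⟩ := F.bd j
    obtain ⟨C', hC'0, hC'⟩ := prof_bnd hp j
    obtain ⟨K, hK0, hK⟩ := bnd_bq' F
    obtain ⟨K', hK'0, hK'⟩ := bnd_al' F
    refine ⟨C + C' + K * C' + K' * C', by positivity, fun t ht y => ?_⟩
    rw [BEp_eq hp _ (F.sm t ht)]
    have e1 : |iteratedDeriv j (W t) y| ≤ C :=
      le_trans (hC t ht y) (mul_le_of_le_one_right hC0 (H72KB.bd_le_one F.θ0.le F.θ0.le y))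
    exact BEp_bound e1 (hC' y).2.2 (hC' y).1 (hC' y).2.1 (hK t ht) (hK' t ht) hC'0 rfl
  · have h1 := ((F.co j y).sub (continuousOn_const (c := iteratedDeriv j (Qf 4) y))).sub
      (((con_bq F).mul (continuousOn_const (c := iteratedDeriv j P y))).add
        ((con_alf F).mul (continuousOn_const (c := iteratedDeriv j E y))))
    refine h1.congr fun t ht => ?_
    exact BEp_eq hp _ (F.sm t ht) j y

theorem fle_ep {P E : ℝ → ℝ} (hp : Prof P E) {θ : ℝ} {J : Set ℝ} {r w : ℝ → ℝ}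
    {W Z : ℝ → ℝ → ℝ} (F : Flo θ J r w W Z) :
    Fle θ J r w (fun t => ep P E ((r t) ^ 2) (W t))
      (fun t => epD P E ((r t) ^ 2) (w t) (W t) (Z t)) := by
  refine ⟨F.op, F.θ0, F.θ1, F.lo, F.hi, F.dr, F.bw, fun t ht => BEp_sm hp _ (F.sm t ht),
    fun t ht => BEp_sm2 hp _ _ (F.sz t ht), fun j => ?_, fun j t ht y => ?_⟩
  · obtain ⟨C, hC0, hC⟩ := F.bd j
    obtain ⟨C', hC'0, hC'⟩ := prof_bnd hp j
    obtain ⟨K, hK0, hK⟩ := bnd_bq F
    obtain ⟨K', hK'0, hK'⟩ := bnd_al F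
    refine ⟨C + C' + K * C' + K' * C', by positivity, fun t ht y => ⟨?_, ?_⟩⟩
    · rw [BEp_eq hp _ (F.sm t ht)]
      have e1 : |iteratedDeriv j (W t) y| ≤ C :=
        le_trans (hC t ht y).1 (mul_le_of_le_one_right hC0 (H72KB.bd_le_one F.θ0.le F.θ0.le y))
      exact BEp_bound e1 (hC' y).2.2 (hC' y).1 (hC' y).2.1 (hK t ht).1 (hK' t ht).1 hC'0 rfl
    · rw [BEp_eq2 hp _ _ (F.sz t ht)]
      have e1 : |iteratedDeriv j (Z t) y| ≤ C :=
        le_trans (hC t ht y).2 (mul_le_of_le_one_right hC0 (H72KB.bd_le_one F.θ0.le F.θ0.le y))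
      have e2 : |(0 : ℝ)| ≤ C' := by
        rw [abs_zero]
        exact hC'0
      have h := BEp_bound e1 e2 (hC' y).1 (hC' y).2.1 (hK t ht).2 (hK' t ht).2 hC'0 rfl
      have h2 : iteratedDeriv j (Z t) y - bqD ((r t) ^ 2) (w t) (W t) (Z t) * iteratedDeriv j P y
          - alD ((r t) ^ 2) (w t) (W t) (Z t) * iteratedDeriv j E y
          = iteratedDeriv j (Z t) y - 0 - (bqD ((r t) ^ 2) (w t) (W t) (Z t) * iteratedDeriv j P y
          + alD ((r t) ^ 2) (w t) (W t) (Z t) * iteratedDeriv j E y) := by ring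
      rw [h2]
      exact h
  · have h1 := ((F.ev j t ht y).sub (hasDerivAt_const t (iteratedDeriv j (Qf 4) y))).sub
      (((der_bq F ht).mul_const (iteratedDeriv j P y)).add
        ((der_alf F ht).mul_const (iteratedDeriv j E y)))
    rw [BEp_eq2 hp _ _ (F.sz t ht)]
    have h2 := h1.congr_of_eventuallyEq (f₁ := fun τ => iteratedDeriv j (ep P E ((r τ) ^ 2) (W τ)) y)
      (Filter.eventually_of_mem (F.op.mem_nhds ht) fun τ hτ => BEp_eq hp _ (F.sm τ hτ) j y)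
    refine h2.congr_deriv ?_
    ring

end H72KC

end S_H72_KC_BEp

section S_H72_KB_DerE

/-!
# Row DerE: time derivative of the energy functional along a `Flow`

Proof.  `hasDerivAt_integral_of_dominated_loc_of_deriv_le`.  Integrand
`I(τ,y) = om B (R lam τ) y * ((ε')² + ε² - 2 bF k (ε τ) y)`, `om B ρ y = Th B y * exp(2ρy)`.  With `l = lam τ`, `ρ = R l`,
`ζ = zeta..`:
 `∂_τ om = 2 R lam' y om = -2 b ρ y om / l³`   (`lam' = -b/l²`, `F.dl`),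
 `∂_τ ε = ζ/l³`, `∂_τ ε' = ζ'/l³` (`F.ev 0`, `F.ev 1`), `∂_τ bF = (fl(Q+ε) - fl(Q)) ∂_τ ε = Df k ε ζ / l³`
 (`Fl' = fl`: derivative of `u^{k+2}/((k+1)(k+2))` is `u^{k+1}/(k+1)`).
So `l³ ∂_τ (I/2) = -b ρ y om ((ε')²+ε²-2bF) + om (ε' ζ' + (ε - Df) ζ)`, which integrates to `DE`.
DOMINATION for `τ ∈ J` (`C` independent of `τ`): `|ε|,|ε'| ≤ C bd (ρ+θ) θ ≤ C bd (ρ+θ/2) (θ/2)`,
`|ζ|,|ζ'| ≤ C bd (ρ+θ/2) (θ/2)` (`zeta_bound`), `|bF| ≤ C ε²` (`bF_bound`), `|Df| ≤ C |ε|`, `|b| ≤ C`, `ρ ≤ 1/2`,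
`om * bd(ρ+θ/2,θ/2)² ≤ bd θ θ` (`om_bd` with `θ/2`), and `|y| bd θ θ y ≤ C bd (θ/2) (θ/2) y` (`bd_poly`).
-/

open MeasureTheory Filter Topology Set
open scoped ContDiff

namespace H72KB

open H98KB

theorem DerE_Df {k : ℕ} (hk : 1 ≤ k) (C₀ : ℝ) : ∃ C : ℝ, 0 ≤ C ∧ ∀ (ε : ℝ → ℝ) (y : ℝ),
    |ε y| ≤ C₀ → |Df k ε y| ≤ C * |ε y| := by
  obtain ⟨CQ, hCQ, hQ⟩ := qbas_decay hk
  refine ⟨(CQ + |C₀|) ^ k, by positivity, fun ε y hε => ?_⟩
  have hQ0 := Q_pos hk y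
  have hQ1 : Qf k y ≤ CQ := by
    have h1 := bd_le_one (p := 1) (q := 1) zero_le_one zero_le_one y
    have h2 := hQ y
    nlinarith
  have hε' : |ε y| ≤ |C₀| := hε.trans (le_abs_self _)
  have h1 : Df k ε y = ((Qf k y + ε y) ^ (k + 1) - (Qf k y) ^ (k + 1)) / ((k : ℝ) + 1) := by
    unfold Df fl
    rw [sub_div]
  have h2 := abs_pow_sub_pow_le (Qf k y + ε y) (Qf k y) (k + 1)
  rw [add_sub_cancel_left, Nat.add_sub_cancel] at h2
  have h3 : max |Qf k y + ε y| |Qf k y| ≤ CQ + |C₀| := by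
    refine max_le ?_ ?_
    · have := abs_add_le (Qf k y) (ε y)
      rw [abs_of_pos hQ0] at this
      linarith
    · rw [abs_of_pos hQ0]
      linarith [abs_nonneg C₀]
  have h4 : max |Qf k y + ε y| |Qf k y| ^ k ≤ (CQ + |C₀|) ^ k :=
    pow_le_pow_left₀ ((abs_nonneg _).trans (le_max_left _ _)) h3 k
  have hk0 : (0 : ℝ) < (k : ℝ) + 1 := by positivity
  rw [h1, abs_div, abs_of_pos hk0, div_le_iff₀ hk0]
  refine h2.trans ?_
  push_cast
  calc |ε y| * ((k : ℝ) + 1) * max |Qf k y + ε y| |Qf k y| ^ k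
      ≤ |ε y| * ((k : ℝ) + 1) * (CQ + |C₀|) ^ k :=
        mul_le_mul_of_nonneg_left h4 (by positivity)
    _ = (CQ + |C₀|) ^ k * |ε y| * ((k : ℝ) + 1) := by ring

theorem DerE_ptA {o β w e0 e1 z0 z1 df C0 C1 Z0 Z1 Cd : ℝ} (ho : 0 ≤ o) (hC0 : 0 ≤ C0)
    (hC1 : 0 ≤ C1) (hZ0 : 0 ≤ Z0) (hZ1 : 0 ≤ Z1) (hCd : 0 ≤ Cd) (h0 : |e0| ≤ C0 * β)
    (h1 : |e1| ≤ C1 * β) (hz0 : |z0| ≤ Z0 * β) (hz1 : |z1| ≤ Z1 * β) (hdf : |df| ≤ Cd * |e0|)
    (hw : o * β ^ 2 ≤ w) :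
    |o * (e1 * z1 + (e0 - df) * z0)| ≤ (C1 * Z1 + (C0 + Cd * C0) * Z0) * w := by
  have h2 : |e1 * z1| ≤ C1 * Z1 * β ^ 2 := by
    rw [abs_mul]
    calc |e1| * |z1| ≤ (C1 * β) * (Z1 * β) :=
          mul_le_mul h1 hz1 (abs_nonneg _) ((abs_nonneg _).trans h1)
      _ = C1 * Z1 * β ^ 2 := by ring
  have h3 : |e0 - df| ≤ (C0 + Cd * C0) * β := by
    have h4 := abs_sub e0 df
    have h5 := mul_le_mul_of_nonneg_left h0 hCd
    nlinarith
  have h4 : |(e0 - df) * z0| ≤ (C0 + Cd * C0) * Z0 * β ^ 2 := by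
    rw [abs_mul]
    calc |e0 - df| * |z0| ≤ ((C0 + Cd * C0) * β) * (Z0 * β) :=
          mul_le_mul h3 hz0 (abs_nonneg _) ((abs_nonneg _).trans h3)
      _ = (C0 + Cd * C0) * Z0 * β ^ 2 := by ring
  rw [abs_mul, abs_of_nonneg ho]
  have h5 := abs_add_le (e1 * z1) ((e0 - df) * z0)
  have h6 : |e1 * z1 + (e0 - df) * z0| ≤ (C1 * Z1 + (C0 + Cd * C0) * Z0) * β ^ 2 := by
    nlinarith
  have hK : 0 ≤ C1 * Z1 + (C0 + Cd * C0) * Z0 := by positivity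
  calc o * |e1 * z1 + (e0 - df) * z0| ≤ o * ((C1 * Z1 + (C0 + Cd * C0) * Z0) * β ^ 2) :=
        mul_le_mul_of_nonneg_left h6 ho
    _ = (C1 * Z1 + (C0 + Cd * C0) * Z0) * (o * β ^ 2) := by ring
    _ ≤ _ := mul_le_mul_of_nonneg_left hw hK

theorem DerE_ptG {o β w e0 e1 bf C0 C1 Cb : ℝ} (ho : 0 ≤ o) (_hC0 : 0 ≤ C0)
    (_hC1 : 0 ≤ C1) (hCb : 0 ≤ Cb) (h0 : |e0| ≤ C0 * β)
    (h1 : |e1| ≤ C1 * β) (hbf : |bf| ≤ Cb * e0 ^ 2) (hw : o * β ^ 2 ≤ w) :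
    |o * (e1 ^ 2 + e0 ^ 2 - 2 * bf)| ≤ (C1 ^ 2 + C0 ^ 2 + 2 * Cb * C0 ^ 2) * w := by
  have h2 : e1 ^ 2 ≤ C1 ^ 2 * β ^ 2 := by
    rw [← sq_abs e1, ← mul_pow]
    exact pow_le_pow_left₀ (abs_nonneg _) h1 2
  have h3 : e0 ^ 2 ≤ C0 ^ 2 * β ^ 2 := by
    rw [← sq_abs e0, ← mul_pow]
    exact pow_le_pow_left₀ (abs_nonneg _) h0 2
  have h6 : |e1 ^ 2 + e0 ^ 2 - 2 * bf| ≤ (C1 ^ 2 + C0 ^ 2 + 2 * Cb * C0 ^ 2) * β ^ 2 := by
    have h7 := abs_le.1 hbf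
    have h8 := mul_le_mul_of_nonneg_left h3 hCb
    rw [abs_le]
    constructor
    · nlinarith [sq_nonneg e1, sq_nonneg e0]
    · nlinarith [sq_nonneg e1, sq_nonneg e0]
  have hK : 0 ≤ C1 ^ 2 + C0 ^ 2 + 2 * Cb * C0 ^ 2 := by positivity
  rw [abs_mul, abs_of_nonneg ho]
  calc o * |e1 ^ 2 + e0 ^ 2 - 2 * bf| ≤ o * ((C1 ^ 2 + C0 ^ 2 + 2 * Cb * C0 ^ 2) * β ^ 2) :=
        mul_le_mul_of_nonneg_left h6 ho
    _ = (C1 ^ 2 + C0 ^ 2 + 2 * Cb * C0 ^ 2) * (o * β ^ 2) := by ring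
    _ ≤ _ := mul_le_mul_of_nonneg_left hw hK

/-- first part of the derivative of the integrand -/
noncomputable def DerE_A (k : ℕ) (B R : ℝ) (lam b m : ℝ → ℝ) (ε e : ℝ → ℝ → ℝ) (τ y : ℝ) : ℝ :=
  om B (R * lam τ) y * (deriv (ε τ) y * deriv (zeta k (b τ) (m τ) (lam τ) (ε τ) (e τ)) y +
    (ε τ y - Df k (ε τ) y) * zeta k (b τ) (m τ) (lam τ) (ε τ) (e τ) y)

/-- the integrand -/
noncomputable def DerE_G (k : ℕ) (B R : ℝ) (lam : ℝ → ℝ) (ε : ℝ → ℝ → ℝ) (τ y : ℝ) : ℝ :=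
  om B (R * lam τ) y * ((deriv (ε τ) y) ^ 2 + (ε τ y) ^ 2 - 2 * bF k (ε τ) y)

theorem DerE_bounds {k : ℕ} {R θ : ℝ} {J : Set ℝ} {lam b m : ℝ → ℝ} {ε e : ℝ → ℝ → ℝ}
    (hk : 1 ≤ k) (F : Flow k R θ J lam b m ε e) {B : ℝ} (hB : 0 < B) :
    ∃ K : ℝ, 0 ≤ K ∧ ∀ τ ∈ J, ∀ y, |DerE_A k B R lam b m ε e τ y| ≤ K * bd θ θ y ∧
      |DerE_G k B R lam ε τ y| ≤ K * bd θ θ y := by
  obtain ⟨C0, hC0⟩ := F.bd 0
  obtain ⟨C1, hC1⟩ := F.bd 1
  obtain ⟨Z0, hZ0n, hZ0⟩ := zeta_bound hk F 0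
  obtain ⟨Z1, hZ1n, hZ1⟩ := zeta_bound hk F 1
  obtain ⟨Cb, hCbn, hCb⟩ := bF_bound hk |C0|
  obtain ⟨Cd, hCdn, hCd⟩ := DerE_Df hk |C0|
  refine ⟨(|C1| * Z1 + (|C0| + Cd * |C0|) * Z0) + (|C1| ^ 2 + |C0| ^ 2 + 2 * Cb * |C0| ^ 2),
    by positivity, fun τ hτ y => ?_⟩
  have hθ := F.θ0
  have hρ : 0 ≤ R * lam τ := mul_nonneg F.R0 (hθ.le.trans (F.lo τ hτ))
  obtain ⟨ho, hw⟩ := om_bd (B := B) (ρ := R * lam τ) (θ := θ / 2) hB hρ (by linarith) y
  have e2 : (2 : ℝ) * (θ / 2) = θ := by ring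
  rw [e2] at hw
  have hbp : 0 < bd (R * lam τ + θ / 2) (θ / 2) y := bd_pos _ _ _
  have hb2 : bd (R * lam τ + θ) θ y ≤ bd (R * lam τ + θ / 2) (θ / 2) y :=
    bd_anti (by linarith) (by linarith) y
  have hb1 : bd (R * lam τ + θ) θ y ≤ 1 := bd_le_one (by linarith) hθ.le y
  have h00 : |ε τ y| ≤ |C0| * bd (R * lam τ + θ) θ y := by
    have := hC0 τ hτ y
    rw [iteratedDeriv_zero] at this
    exact this.trans (mul_le_mul_of_nonneg_right (le_abs_self _) (bd_pos _ _ _).le)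
  have h0 : |ε τ y| ≤ |C0| * bd (R * lam τ + θ / 2) (θ / 2) y :=
    h00.trans (mul_le_mul_of_nonneg_left hb2 (abs_nonneg _))
  have h1 : |deriv (ε τ) y| ≤ |C1| * bd (R * lam τ + θ / 2) (θ / 2) y := by
    have := hC1 τ hτ y
    rw [iteratedDeriv_one] at this
    exact (this.trans (mul_le_mul_of_nonneg_right (le_abs_self _) (bd_pos _ _ _).le)).trans
      (mul_le_mul_of_nonneg_left hb2 (abs_nonneg _))
  have hz0 : |zeta k (b τ) (m τ) (lam τ) (ε τ) (e τ) y| ≤ Z0 * bd (R * lam τ + θ / 2) (θ / 2) y := by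
    have := hZ0 τ hτ y
    rwa [iteratedDeriv_zero] at this
  have hz1 : |deriv (zeta k (b τ) (m τ) (lam τ) (ε τ) (e τ)) y| ≤
      Z1 * bd (R * lam τ + θ / 2) (θ / 2) y := by
    have := hZ1 τ hτ y
    rwa [iteratedDeriv_one] at this
  have hle : |ε τ y| ≤ |C0| := by
    have := mul_le_mul_of_nonneg_left hb1 (abs_nonneg C0)
    linarith
  have hA := DerE_ptA ho.le (abs_nonneg C0) (abs_nonneg C1) hZ0n hZ1n hCdn h0 h1 hz0 hz1
    (hCd (ε τ) y hle) hw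
  have hG := DerE_ptG ho.le (abs_nonneg C0) (abs_nonneg C1) hCbn h0 h1 (hCb (ε τ) y hle) hw
  have hbθ : 0 < bd θ θ y := bd_pos _ _ _
  constructor
  · refine hA.trans (mul_le_mul_of_nonneg_right ?_ hbθ.le)
    have : 0 ≤ |C1| ^ 2 + |C0| ^ 2 + 2 * Cb * |C0| ^ 2 := by positivity
    linarith
  · refine hG.trans (mul_le_mul_of_nonneg_right ?_ hbθ.le)
    have : 0 ≤ |C1| * Z1 + (|C0| + Cd * |C0|) * Z0 := by positivity
    linarith

theorem DerE_om_cont (B ρ : ℝ) : Continuous (om B ρ) := by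
  unfold om Th
  have h : ∀ y : ℝ, 1 + Real.exp (-y / B) ≠ 0 := fun y => by positivity
  fun_prop (disch := exact h _)

theorem DerE_Qcont {k : ℕ} (hk : 1 ≤ k) : Continuous (Qf k) := (qbas_smooth hk).continuous

theorem DerE_contG {k : ℕ} (hk : 1 ≤ k) (B R : ℝ) (lam : ℝ → ℝ) (ε : ℝ → ℝ → ℝ) (τ : ℝ)
    (hε : ContDiff ℝ ∞ (ε τ)) : Continuous (DerE_G k B R lam ε τ) := by
  have h1 := DerE_om_cont B (R * lam τ)
  have h2 : Continuous (ε τ) := hε.continuous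
  have h3 : Continuous (deriv (ε τ)) := hε.continuous_deriv (by simp)
  have h4 := DerE_Qcont hk
  have h5 : Continuous fun y => bF k (ε τ) y := by
    unfold bF Fl fl
    fun_prop
  unfold DerE_G
  fun_prop

theorem DerE_contA {k : ℕ} (hk : 1 ≤ k) (B R : ℝ) (lam b m : ℝ → ℝ) (ε e : ℝ → ℝ → ℝ) (τ : ℝ)
    (hε : ContDiff ℝ ∞ (ε τ)) (he : ContDiff ℝ ∞ (e τ)) :
    Continuous (DerE_A k B R lam b m ε e τ) := by
  have h1 := DerE_om_cont B (R * lam τ)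
  have h2 : Continuous (ε τ) := hε.continuous
  have h3 : Continuous (deriv (ε τ)) := hε.continuous_deriv (by simp)
  have h4 := DerE_Qcont hk
  have h5 : Continuous fun y => Df k (ε τ) y := by
    unfold Df fl
    fun_prop
  have hz := zeta_smooth hk (b τ) (m τ) (lam τ) hε he
  have h6 : Continuous (zeta k (b τ) (m τ) (lam τ) (ε τ) (e τ)) := hz.continuous
  have h7 : Continuous (deriv (zeta k (b τ) (m τ) (lam τ) (ε τ) (e τ))) :=
    hz.continuous_deriv (by simp)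
  unfold DerE_A
  fun_prop

theorem DerE_diff {k : ℕ} {R θ : ℝ} {J : Set ℝ} {lam b m : ℝ → ℝ} {ε e : ℝ → ℝ → ℝ}
    (hk : 1 ≤ k) (F : Flow k R θ J lam b m ε e) (B : ℝ) (y τ : ℝ) (hτ : τ ∈ J) :
    HasDerivAt (fun τ => DerE_G k B R lam ε τ y)
      (2 / (lam τ) ^ 3 * (DerE_A k B R lam b m ε e τ y -
        b τ * (R * lam τ) * (y * DerE_G k B R lam ε τ y))) τ := by
  have hl : lam τ ≠ 0 := (F.θ0.trans_le (F.lo τ hτ)).ne'
  have h0 := F.ev 0 τ hτ y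
  have h1 := F.ev 1 τ hτ y
  simp only [iteratedDeriv_zero] at h0
  simp only [iteratedDeriv_one] at h1
  have hlam := F.dl τ hτ
  have hom : HasDerivAt (fun τ => om B (R * lam τ) y)
      (Th B y * (Real.exp (2 * (R * lam τ) * y) * (2 * (R * (-(b τ) / (lam τ) ^ 2)) * y))) τ :=
    ((((hlam.const_mul R).const_mul 2).mul_const y).exp).const_mul (Th B y)
  have hk1 : (k : ℝ) + 1 ≠ 0 := by positivity
  have hk2 : (k : ℝ) + 2 ≠ 0 := by positivity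
  have hbF : HasDerivAt (fun τ => bF k (ε τ) y)
      (Df k (ε τ) y * (zeta k (b τ) (m τ) (lam τ) (ε τ) (e τ) y / (lam τ) ^ 3)) τ := by
    have h2 := (((h0.const_add (Qf k y)).pow (k + 2)).div_const (((k : ℝ) + 1) * ((k : ℝ) + 2)))
    have h3 := (h2.sub_const (Fl k (Qf k y))).sub (h0.const_mul (fl k (Qf k y)))
    refine h3.congr_deriv ?_
    unfold Df fl
    have e1 : k + 2 - 1 = k + 1 := by omega
    rw [e1]
    push_cast
    field_simp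
  have hG := ((h1.pow 2).add (h0.pow 2)).sub (hbF.const_mul 2)
  have h := hom.mul hG
  refine h.congr_deriv ?_
  simp only [Pi.add_apply, Pi.sub_apply, Pi.pow_apply]
  unfold DerE_A DerE_G om
  field_simp
  ring

theorem der_E {k : ℕ} {R θ : ℝ} {J : Set ℝ} {lam b m : ℝ → ℝ} {ε e : ℝ → ℝ → ℝ}
    (hk : 1 ≤ k) (F : Flow k R θ J lam b m ε e) {B : ℝ} (hB : 0 < B) {t : ℝ} (ht : t ∈ J) :
    HasDerivAt (fun τ => Ef k B (R * lam τ) (ε τ))
      (DE k B (R * lam t) (b t) (ε t) (zeta k (b t) (m t) (lam t) (ε t) (e t)) / (lam t) ^ 3) t := by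
  obtain ⟨K, hK, hKb⟩ := DerE_bounds hk F hB
  obtain ⟨Cbm, hCbm⟩ := F.bm
  have hθ := F.θ0
  obtain ⟨Cp, hCp, hpoly⟩ := bd_poly 1 (p := θ) (p' := θ / 2) (q := θ) (q' := θ / 2)
    (by linarith) (by linarith)
  have hKint : Integrable (fun y => K * bd θ θ y) := (bd_int hθ hθ).const_mul K
  have hpoly' : ∀ y, |y| * bd θ θ y ≤ Cp * bd (θ / 2) (θ / 2) y := by
    intro y
    have h1 := hpoly y
    have h2 := bd_pos θ θ y
    rw [pow_one] at h1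
    nlinarith
  have hcG : ∀ τ ∈ J, Continuous (DerE_G k B R lam ε τ) := fun τ hτ =>
    DerE_contG hk B R lam ε τ (F.sm τ hτ)
  have hcA : ∀ τ ∈ J, Continuous (DerE_A k B R lam b m ε e τ) := fun τ hτ =>
    DerE_contA hk B R lam b m ε e τ (F.sm τ hτ) (F.se τ hτ)
  have hiG : Integrable (DerE_G k B R lam ε t) := by
    refine hKint.mono' (hcG t ht).aestronglyMeasurable (Eventually.of_forall fun y => ?_)
    exact (hKb t ht y).2
  have hiA : Integrable (DerE_A k B R lam b m ε e t) := by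
    refine hKint.mono' (hcA t ht).aestronglyMeasurable (Eventually.of_forall fun y => ?_)
    exact (hKb t ht y).1
  have hyG : ∀ τ ∈ J, ∀ y, |y * DerE_G k B R lam ε τ y| ≤ K * Cp * bd (θ / 2) (θ / 2) y := by
    intro τ hτ y
    rw [abs_mul]
    have h1 := mul_le_mul_of_nonneg_left (hKb τ hτ y).2 (abs_nonneg y)
    have h2 := mul_le_mul_of_nonneg_left (hpoly' y) hK
    nlinarith
  have hint2 : Integrable (bd (θ / 2) (θ / 2)) := bd_int (by linarith) (by linarith)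
  have hiyG : Integrable (fun y => y * DerE_G k B R lam ε t y) := by
    refine (hint2.const_mul (K * Cp)).mono'
      (continuous_id.mul (hcG t ht)).aestronglyMeasurable (Eventually.of_forall fun y => ?_)
    exact hyG t ht y
  have main := hasDerivAt_integral_of_dominated_loc_of_deriv_le (μ := volume) (x₀ := t) (s := J)
    (F := fun τ y => DerE_G k B R lam ε τ y)
    (F' := fun τ y => 2 / (lam τ) ^ 3 * (DerE_A k B R lam b m ε e τ y -
        b τ * (R * lam τ) * (y * DerE_G k B R lam ε τ y)))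
    (bound := fun y => 2 / θ ^ 3 * (K + |Cbm| * (1 / 2) * (K * Cp)) * bd (θ / 2) (θ / 2) y)
    (F.op.mem_nhds ht) ?_ hiG ?_ ?_ ?_ ?_
  · have h2 := main.2.const_mul (1 / 2)
    have e1 : (fun τ => Ef k B (R * lam τ) (ε τ)) =
        fun τ => 1 / 2 * ∫ y, DerE_G k B R lam ε τ y := rfl
    rw [e1]
    refine h2.congr_deriv ?_
    rw [integral_const_mul, integral_sub hiA (hiyG.const_mul _), integral_const_mul]
    unfold DE
    have e2 : (∫ y, y * om B (R * lam t) y * ((deriv (ε t) y) ^ 2 + (ε t y) ^ 2 -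
        2 * bF k (ε t) y)) = ∫ y, y * DerE_G k B R lam ε t y := by
      refine integral_congr_ae (Eventually.of_forall fun y => ?_)
      simp only [DerE_G]
      ring
    rw [e2]
    have e3 : (∫ y, om B (R * lam t) y * (deriv (ε t) y *
        deriv (zeta k (b t) (m t) (lam t) (ε t) (e t)) y +
        (ε t y - Df k (ε t) y) * zeta k (b t) (m t) (lam t) (ε t) (e t) y)) =
        ∫ y, DerE_A k B R lam b m ε e t y := rfl
    rw [e3]
    ring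
  · filter_upwards [F.op.mem_nhds ht] with τ hτ
    exact (hcG τ hτ).aestronglyMeasurable
  · have h1 := hcA t ht
    have h2 := hcG t ht
    have h3 : Continuous (fun y => 2 / (lam t) ^ 3 * (DerE_A k B R lam b m ε e t y -
        b t * (R * lam t) * (y * DerE_G k B R lam ε t y))) := by fun_prop
    exact h3.aestronglyMeasurable
  · refine Eventually.of_forall fun y τ hτ => ?_
    have hl := F.lo τ hτ
    have hl0 : 0 < lam τ := hθ.trans_le hl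
    have hl3 : 2 / (lam τ) ^ 3 ≤ 2 / θ ^ 3 := by
      refine div_le_div_of_nonneg_left (by norm_num) (by positivity) ?_
      exact pow_le_pow_left₀ hθ.le hl 3
    have hρ0 : 0 ≤ R * lam τ := mul_nonneg F.R0 hl0.le
    have hρ1 : R * lam τ ≤ 1 / 2 := by linarith [F.hr τ hτ]
    have hb := (hCbm τ hτ).1.trans (le_abs_self Cbm)
    have hbd1 : bd θ θ y ≤ bd (θ / 2) (θ / 2) y := bd_anti (by linarith) (by linarith) y
    have hA := (hKb τ hτ y).1.trans (mul_le_mul_of_nonneg_left hbd1 hK)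
    have hG := hyG τ hτ y
    have hbr : |b τ * (R * lam τ)| ≤ |Cbm| * (1 / 2) := by
      rw [abs_mul, abs_of_nonneg hρ0]
      exact mul_le_mul hb hρ1 hρ0 (abs_nonneg _)
    have h5 : |b τ * (R * lam τ) * (y * DerE_G k B R lam ε τ y)| ≤
        |Cbm| * (1 / 2) * (K * Cp * bd (θ / 2) (θ / 2) y) := by
      rw [abs_mul]
      exact mul_le_mul hbr hG (abs_nonneg _) (by positivity)
    have h6 := abs_sub (DerE_A k B R lam b m ε e τ y)
      (b τ * (R * lam τ) * (y * DerE_G k B R lam ε τ y))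
    rw [Real.norm_eq_abs, abs_mul, abs_of_pos (by positivity : (0 : ℝ) < 2 / (lam τ) ^ 3)]
    have h7 : |DerE_A k B R lam b m ε e τ y - b τ * (R * lam τ) * (y * DerE_G k B R lam ε τ y)| ≤
        (K + |Cbm| * (1 / 2) * (K * Cp)) * bd (θ / 2) (θ / 2) y := by
      linarith
    calc 2 / (lam τ) ^ 3 * |DerE_A k B R lam b m ε e τ y -
          b τ * (R * lam τ) * (y * DerE_G k B R lam ε τ y)|
        ≤ 2 / θ ^ 3 * ((K + |Cbm| * (1 / 2) * (K * Cp)) * bd (θ / 2) (θ / 2) y) :=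
          mul_le_mul hl3 h7 (abs_nonneg _) (by positivity)
      _ = _ := by ring
  · exact hint2.const_mul _
  · exact Eventually.of_forall fun y τ hτ => DerE_diff hk F B y τ hτ

end H72KB

end S_H72_KB_DerE

section S_H72_KC_DE4r

/-!
# Row DE4r: time derivative of the energy functional `E4 B (r^2) (ε t)` along a bounded flow

`DE4 B s w ε D = (∫ om4 B s y * (ε' D' + (ε - Df 4 ε) D)) - 1/8 w s ∫ y * Th B y * Zf'(s y) * (ε'^2 + ε^2 - 2 bF 4 ε)`.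
Proof.  `dInt` with `G τ y = om4 B ((r τ)^2) y * (ε'^2 + ε^2 - 2 bF 4 ε y)`.  With `s = r^2`: `s' = 2 r r' = -(w/4) s / r^24` (`F.dr`), so
 `∂_τ om4 = Th B y * Zf'(s y) * y * s' = -(w/4) s y Th Zf'(s y) / r^24`;
 `∂_τ ε = D/r^24`, `∂_τ ε' = D'/r^24` (`F.ev 0, 1`), `∂_τ bF 4 ε = Df 4 ε * D / r^24` (`Fl' = fl`; see `DerE_diff` in `KB/DerE.lean`).
So `G' = [2 om4 (ε' D' + (ε - Df) D) - (w/4) s y Th Zf'(s y) (ε'^2+ε^2-2bF)] / r^24`, and `1/2 ∫ G' = DE4 / r^24`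
(split the integral: both parts are integrable by the bounds below; `integral_sub, integral_const_mul, integral_div`).
DOMINATION: `|ε|,|ε'|,|D|,|D'| ≤ C`, `|bF| ≤ C₁ ε^2` (`bF_bound`), `|Df| ≤ C₂ |ε|` (`DerE_Df`), `|w| ≤ Cw`, `s ≤ 1`, `r^24 ≥ θ^24`, and `om4_dom`
with `σ = θ^2` (`C bd (σ/2) (σ/2)` is integrable).
-/

open MeasureTheory Filter Topology Set
open scoped ContDiff

namespace H72KC

open H98KB H72KB H68KC

/-- the quadratic expression -/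
noncomputable def DE4r_q (ε : ℝ → ℝ) (y : ℝ) : ℝ := (deriv ε y) ^ 2 + (ε y) ^ 2 - 2 * bF 4 ε y

/-- the bilinear expression -/
noncomputable def DE4r_p (ε D : ℝ → ℝ) (y : ℝ) : ℝ := deriv ε y * deriv D y + (ε y - Df 4 ε y) * D y

theorem DE4r_contQ {ε : ℝ → ℝ} (hε : ContDiff ℝ ∞ ε) : Continuous (DE4r_q ε) := by
  have h2 : Continuous ε := hε.continuous
  have h3 : Continuous (deriv ε) := hε.continuous_deriv (by simp)
  have h4 := DerE_Qcont (k := 4) (by norm_num)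
  have h5 : Continuous fun y => bF 4 ε y := by
    unfold bF Fl fl
    fun_prop
  unfold DE4r_q
  fun_prop

theorem DE4r_contP {ε D : ℝ → ℝ} (hε : ContDiff ℝ ∞ ε) (hD : ContDiff ℝ ∞ D) :
    Continuous (DE4r_p ε D) := by
  have h2 : Continuous ε := hε.continuous
  have h3 : Continuous (deriv ε) := hε.continuous_deriv (by simp)
  have h6 : Continuous D := hD.continuous
  have h7 : Continuous (deriv D) := hD.continuous_deriv (by simp)
  have h4 := DerE_Qcont (k := 4) (by norm_num)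
  have h5 : Continuous fun y => Df 4 ε y := by
    unfold Df fl
    fun_prop
  unfold DE4r_p
  fun_prop

theorem DE4r_contO (B s : ℝ) : Continuous (om4 B s) := by
  have h1 : Continuous (Th B) := (th_smooth B).continuous
  have h2 : Continuous Zf := zf_smooth.continuous
  unfold om4
  fun_prop

theorem DE4r_contW (B s : ℝ) : Continuous (fun y => y * Th B y * deriv Zf (s * y)) := by
  have h1 : Continuous (Th B) := (th_smooth B).continuous
  have h2 : Continuous (deriv Zf) := zf_smooth.continuous_deriv (by simp)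
  fun_prop

theorem DE4r_ptP {e0 e1 z0 z1 df C0 C1 Z0 Z1 Cd : ℝ} (hC0 : 0 ≤ C0) (hC1 : 0 ≤ C1)
    (hCd : 0 ≤ Cd) (h0 : |e0| ≤ C0) (h1 : |e1| ≤ C1) (hz0 : |z0| ≤ Z0) (hz1 : |z1| ≤ Z1)
    (hdf : |df| ≤ Cd * |e0|) : |e1 * z1 + (e0 - df) * z0| ≤ C1 * Z1 + (C0 + Cd * C0) * Z0 := by
  have h2 : |e1 * z1| ≤ C1 * Z1 := by
    rw [abs_mul]
    exact mul_le_mul h1 hz1 (abs_nonneg _) hC1
  have h3 : |e0 - df| ≤ C0 + Cd * C0 := by
    have h4 := abs_sub e0 df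
    have h5 := mul_le_mul_of_nonneg_left h0 hCd
    linarith
  have h4 : |(e0 - df) * z0| ≤ (C0 + Cd * C0) * Z0 := by
    rw [abs_mul]
    exact mul_le_mul h3 hz0 (abs_nonneg _) (by positivity)
  have h5 := abs_add_le (e1 * z1) ((e0 - df) * z0)
  linarith

theorem DE4r_ptQ {e0 e1 bf C0 C1 Cb : ℝ} (hCb : 0 ≤ Cb) (h0 : |e0| ≤ C0)
    (h1 : |e1| ≤ C1) (hbf : |bf| ≤ Cb * e0 ^ 2) :
    |e1 ^ 2 + e0 ^ 2 - 2 * bf| ≤ C1 ^ 2 + C0 ^ 2 + 2 * Cb * C0 ^ 2 := by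
  have h2 : e1 ^ 2 ≤ C1 ^ 2 := by
    rw [← sq_abs e1]
    exact pow_le_pow_left₀ (abs_nonneg _) h1 2
  have h3 : e0 ^ 2 ≤ C0 ^ 2 := by
    rw [← sq_abs e0]
    exact pow_le_pow_left₀ (abs_nonneg _) h0 2
  have h7 := abs_le.1 hbf
  have h8 := mul_le_mul_of_nonneg_left h3 hCb
  rw [abs_le]
  constructor
  · nlinarith [sq_nonneg e1, sq_nonneg e0]
  · nlinarith [sq_nonneg e1, sq_nonneg e0]

/-- the integrand -/
noncomputable def DE4r_G (B : ℝ) (r : ℝ → ℝ) (ε : ℝ → ℝ → ℝ) (τ y : ℝ) : ℝ :=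
  om4 B ((r τ) ^ 2) y * DE4r_q (ε τ) y

/-- its time derivative -/
noncomputable def DE4r_G' (B : ℝ) (r w : ℝ → ℝ) (ε D : ℝ → ℝ → ℝ) (τ y : ℝ) : ℝ :=
  1 / (r τ) ^ 24 * (2 * (om4 B ((r τ) ^ 2) y * DE4r_p (ε τ) (D τ) y) -
    w τ / 4 * (r τ) ^ 2 * (y * Th B y * deriv Zf ((r τ) ^ 2 * y) * DE4r_q (ε τ) y))

theorem DE4r_diff {θ : ℝ} {J : Set ℝ} {r w : ℝ → ℝ} {ε D : ℝ → ℝ → ℝ} (F : Fle θ J r w ε D) (B : ℝ)
    {τ : ℝ} (hτ : τ ∈ J) (y : ℝ) :
    HasDerivAt (fun τ => DE4r_G B r ε τ y) (DE4r_G' B r w ε D τ y) τ := by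
  have hr0 : r τ ≠ 0 := (F.θ0.trans_le (F.lo τ hτ)).ne'
  have h0 := F.ev 0 τ hτ y
  have h1 := F.ev 1 τ hτ y
  simp only [iteratedDeriv_zero] at h0
  simp only [iteratedDeriv_one] at h1
  have hr := F.dr τ hτ
  have hs := (hr.pow 2).mul_const y
  have hZ := ((zf_der ((r τ) ^ 2 * y)).1)
  have hom := (HasDerivAt.comp τ hZ hs).const_mul (Th B y)
  have hbF : HasDerivAt (fun τ => bF 4 (ε τ) y)
      (Df 4 (ε τ) y * (D τ y / (r τ) ^ 24)) τ := by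
    have h2 := (((h0.const_add (Qf 4 y)).pow (4 + 2)).div_const (((4 : ℕ) + 1 : ℝ) * ((4 : ℕ) + 2 : ℝ)))
    have h3 := (h2.sub_const (Fl 4 (Qf 4 y))).sub (h0.const_mul (fl 4 (Qf 4 y)))
    refine h3.congr_deriv ?_
    unfold Df fl
    norm_num
    field_simp
    ring
  have hG := ((h1.pow 2).add (h0.pow 2)).sub (hbF.const_mul 2)
  have h := hom.mul hG
  refine h.congr_deriv ?_
  simp only [Pi.add_apply, Pi.sub_apply, Pi.pow_apply, Function.comp]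
  unfold DE4r_G' DE4r_q DE4r_p om4
  field_simp
  ring

theorem der_E4 {θ : ℝ} {J : Set ℝ} {r w : ℝ → ℝ} {ε D : ℝ → ℝ → ℝ} (F : Fle θ J r w ε D) (B : ℝ)
    {t : ℝ} (ht : t ∈ J) :
    HasDerivAt (fun τ => E4 B ((r τ) ^ 2) (ε τ))
      (DE4 B ((r t) ^ 2) (w t) (ε t) (D t) / (r t) ^ 24) t := by
  obtain ⟨C0, hC0, b0⟩ := F.bd 0
  obtain ⟨C1, hC1, b1⟩ := F.bd 1
  obtain ⟨Cb, hCb, hb⟩ := bF_bound (k := 4) (by norm_num) C0
  obtain ⟨Cd, hCd, hd⟩ := DerE_Df (k := 4) (by norm_num) C0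
  obtain ⟨Cw, hCw, hw⟩ := F.bw
  have hθ := F.θ0
  have hσ : 0 < θ ^ 2 := by positivity
  obtain ⟨K, hK, hdom⟩ := om4_dom hσ
  set KP := C1 * C1 + (C0 + Cd * C0) * C0 with hKP
  set KQ := C1 ^ 2 + C0 ^ 2 + 2 * Cb * C0 ^ 2 with hKQ
  have hKP0 : 0 ≤ KP := by positivity
  have hKQ0 : 0 ≤ KQ := by positivity
  have hbint : Integrable (bd (θ ^ 2 / 2) (θ ^ 2 / 2)) := H72KB.bd_int (by positivity) (by positivity)
  have hsτ : ∀ τ ∈ J, θ ^ 2 ≤ (r τ) ^ 2 := fun τ hτ => pow_le_pow_left₀ hθ.le (F.lo τ hτ) 2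
  have hP : ∀ τ ∈ J, ∀ y, |DE4r_p (ε τ) (D τ) y| ≤ KP := by
    intro τ hτ y
    have e0 := b0 τ hτ y
    have e1 := b1 τ hτ y
    simp only [iteratedDeriv_zero] at e0
    simp only [iteratedDeriv_one] at e1
    exact DE4r_ptP hC0 hC1 hCd e0.1 e1.1 e0.2 e1.2 (hd (ε τ) y e0.1)
  have hQ : ∀ τ ∈ J, ∀ y, |DE4r_q (ε τ) y| ≤ KQ := by
    intro τ hτ y
    have e0 := b0 τ hτ y
    have e1 := b1 τ hτ y
    simp only [iteratedDeriv_zero] at e0
    simp only [iteratedDeriv_one] at e1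
    exact DE4r_ptQ hCb e0.1 e1.1 (hb (ε τ) y e0.1)
  have hbn : ∀ y, 0 ≤ bd (θ ^ 2 / 2) (θ ^ 2 / 2) y := fun y => (H72KB.bd_pos _ _ _).le
  have hG : ∀ τ ∈ J, ∀ y, |DE4r_G B r ε τ y| ≤ K * KQ * bd (θ ^ 2 / 2) (θ ^ 2 / 2) y := by
    intro τ hτ y
    unfold DE4r_G
    rw [abs_mul]
    have h1 := (hdom B ((r τ) ^ 2) y (hsτ τ hτ)).1
    have h2 := hQ τ hτ y
    have h3 := mul_le_mul h1 h2 (abs_nonneg _) (mul_nonneg hK (hbn y))
    linarith
  have hA : ∀ τ ∈ J, ∀ y, |om4 B ((r τ) ^ 2) y * DE4r_p (ε τ) (D τ) y| ≤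
      K * KP * bd (θ ^ 2 / 2) (θ ^ 2 / 2) y := by
    intro τ hτ y
    rw [abs_mul]
    have h1 := (hdom B ((r τ) ^ 2) y (hsτ τ hτ)).1
    have h2 := hP τ hτ y
    have h3 := mul_le_mul h1 h2 (abs_nonneg _) (mul_nonneg hK (hbn y))
    linarith
  have hH : ∀ τ ∈ J, ∀ y, |y * Th B y * deriv Zf ((r τ) ^ 2 * y) * DE4r_q (ε τ) y| ≤
      K * KQ * bd (θ ^ 2 / 2) (θ ^ 2 / 2) y := by
    intro τ hτ y
    rw [abs_mul]
    have h1 := (hdom B ((r τ) ^ 2) y (hsτ τ hτ)).2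
    have h2 := hQ τ hτ y
    have h3 := mul_le_mul h1 h2 (abs_nonneg _) (mul_nonneg hK (hbn y))
    linarith
  have cA : ∀ τ ∈ J, Continuous (fun y => om4 B ((r τ) ^ 2) y * DE4r_p (ε τ) (D τ) y) :=
    fun τ hτ => (DE4r_contO B _).mul (DE4r_contP (F.sm τ hτ) (F.sd τ hτ))
  have cH : ∀ τ ∈ J, Continuous (fun y => y * Th B y * deriv Zf ((r τ) ^ 2 * y) * DE4r_q (ε τ) y) :=
    fun τ hτ => (DE4r_contW B _).mul (DE4r_contQ (F.sm τ hτ))
  have iA : Integrable (fun y => om4 B ((r t) ^ 2) y * DE4r_p (ε t) (D t) y) :=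
    (hbint.const_mul (K * KP)).mono' (cA t ht).aestronglyMeasurable
      (Eventually.of_forall fun y => hA t ht y)
  have iH : Integrable (fun y => y * Th B y * deriv Zf ((r t) ^ 2 * y) * DE4r_q (ε t) y) :=
    (hbint.const_mul (K * KQ)).mono' (cH t ht).aestronglyMeasurable
      (Eventually.of_forall fun y => hH t ht y)
  have main := dInt F.op (G := DE4r_G B r ε) (G' := DE4r_G' B r w ε D)
    (g := fun y => (K * KQ + 1 / θ ^ 24 * (2 * (K * KP) + Cw / 4 * (K * KQ))) *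
      bd (θ ^ 2 / 2) (θ ^ 2 / 2) y)
    (hbint.const_mul _)
    (fun τ hτ => (DE4r_contO B _).mul (DE4r_contQ (F.sm τ hτ)))
    (fun τ hτ => by
      have h1 := cA τ hτ
      have h2 := cH τ hτ
      unfold DE4r_G'
      fun_prop)
    (fun τ hτ y => by
      have h1 := hG τ hτ y
      have h2 : 0 ≤ 1 / θ ^ 24 * (2 * (K * KP) + Cw / 4 * (K * KQ)) *
        bd (θ ^ 2 / 2) (θ ^ 2 / 2) y := mul_nonneg (by positivity) (hbn y)
      linarith)
    (fun τ hτ y => by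
      have hr0 : 0 < r τ := hθ.trans_le (F.lo τ hτ)
      have h1 := hA τ hτ y
      have h2 := hH τ hτ y
      have h3 : 1 / (r τ) ^ 24 ≤ 1 / θ ^ 24 :=
        one_div_le_one_div_of_le (by positivity) (pow_le_pow_left₀ hθ.le (F.lo τ hτ) 24)
      have h4 : |w τ / 4 * (r τ) ^ 2| ≤ Cw / 4 := by
        rw [abs_mul, abs_div, abs_of_pos (by norm_num : (0 : ℝ) < 4),
          abs_of_nonneg (by positivity : 0 ≤ (r τ) ^ 2)]
        have h5 : (r τ) ^ 2 ≤ 1 := pow_le_one₀ hr0.le (F.hi τ hτ)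
        have h6 := hw τ hτ
        calc |w τ| / 4 * (r τ) ^ 2 ≤ Cw / 4 * 1 :=
              mul_le_mul (by linarith) h5 (by positivity) (by positivity)
          _ = Cw / 4 := by ring
      have h5 : |w τ / 4 * (r τ) ^ 2 * (y * Th B y * deriv Zf ((r τ) ^ 2 * y) * DE4r_q (ε τ) y)| ≤
          Cw / 4 * (K * KQ * bd (θ ^ 2 / 2) (θ ^ 2 / 2) y) := by
        rw [abs_mul]
        exact mul_le_mul h4 h2 (abs_nonneg _) (by positivity)
      have h6 : |2 * (om4 B ((r τ) ^ 2) y * DE4r_p (ε τ) (D τ) y)| ≤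
          2 * (K * KP * bd (θ ^ 2 / 2) (θ ^ 2 / 2) y) := by
        rw [abs_mul, abs_of_pos (by norm_num : (0 : ℝ) < 2)]
        linarith
      have h7 := abs_sub (2 * (om4 B ((r τ) ^ 2) y * DE4r_p (ε τ) (D τ) y))
        (w τ / 4 * (r τ) ^ 2 * (y * Th B y * deriv Zf ((r τ) ^ 2 * y) * DE4r_q (ε τ) y))
      unfold DE4r_G'
      rw [abs_mul, abs_of_pos (by positivity : 0 < 1 / (r τ) ^ 24)]
      have h8 : 0 ≤ K * KQ * bd (θ ^ 2 / 2) (θ ^ 2 / 2) y :=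
        mul_nonneg (by positivity) (hbn y)
      calc _ ≤ 1 / θ ^ 24 * (2 * (K * KP * bd (θ ^ 2 / 2) (θ ^ 2 / 2) y) +
            Cw / 4 * (K * KQ * bd (θ ^ 2 / 2) (θ ^ 2 / 2) y)) :=
            mul_le_mul h3 (by linarith) (abs_nonneg _) (by positivity)
        _ ≤ _ := by linarith)
    (fun τ hτ y => DE4r_diff F B hτ y) ht
  have h2 := main.2.2.const_mul (1 / 2)
  refine h2.congr_deriv ?_
  unfold DE4r_G'
  rw [integral_const_mul, integral_sub (iA.const_mul _) (iH.const_mul _), integral_const_mul,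
    integral_const_mul]
  unfold DE4
  have e2 : (∫ y, y * Th B y * deriv Zf ((r t) ^ 2 * y) * ((deriv (ε t) y) ^ 2 + (ε t y) ^ 2 -
      2 * bF 4 (ε t) y)) = ∫ y, y * Th B y * deriv Zf ((r t) ^ 2 * y) * DE4r_q (ε t) y := rfl
  have e3 : (∫ y, om4 B ((r t) ^ 2) y * (deriv (ε t) y * deriv (D t) y +
      (ε t y - Df 4 (ε t) y) * D t y)) = ∫ y, om4 B ((r t) ^ 2) y * DE4r_p (ε t) (D t) y := rfl
  rw [e2, e3]
  ring

end H72KC

end S_H72_KC_DE4r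

section S_H72_KC_CNr

/-!
# Row CNr: continuity and time derivative of `Nn (r^2) W`

`Nn s W = ∫ Ph s y * (W')^2`, `DNn s w W Z = (∫ 2 * Ph s y * (W' Z')) - w/(8 s) * ∫ (Ph s)' (W')^2`.
Proof.  `cInt` / `dInt`.  With `s = r^2`, `s' = 2 r r' = -(w/4) s/r^24` (`F.dr`) and `∂_s Ph s y = (Ph s)'(y) / (2 s^2)` (`ph_der`), so
`∂_τ Ph (s τ) y = -(w/(8 s)) (Ph s)'(y) / r^24`; `∂_τ (W')^2 = 2 W' Z'/r^24` (`F.ev 1`).  Domination: `0 < Ph < 1`, `|(Ph s)'| ≤ 1`,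
`|W'|,|Z'| ≤ C bd θ θ y`, `(bd θ θ)^2 ≤ bd θ θ` (`bd_le_one`), `|w| ≤ Cw`, `1/s ≤ 1/θ^2`, `r^24 ≥ θ^24`.  Continuity in `t` of `Ph ((r t)^2) y`: it is
differentiable in `s > 0` (`ph_der`).
-/

open MeasureTheory Filter Topology Set
open scoped ContDiff

namespace H72KC

open H98KB H72KB H68KC

theorem CNr_sq {C b x : ℝ} (hb0 : 0 ≤ b) (hb1 : b ≤ 1) (hx : |x| ≤ C * b) (hC : 0 ≤ C) :
    x ^ 2 ≤ C ^ 2 * b := by
  have h1 : x ^ 2 ≤ (C * b) ^ 2 := by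
    rw [← sq_abs]
    exact pow_le_pow_left₀ (abs_nonneg x) hx 2
  have h2 : C ^ 2 * b ^ 2 ≤ C ^ 2 * b := by
    apply mul_le_mul_of_nonneg_left _ (sq_nonneg C)
    nlinarith
  nlinarith

theorem CNr_mul {C b x y : ℝ} (hb0 : 0 ≤ b) (hb1 : b ≤ 1) (hx : |x| ≤ C * b) (hy : |y| ≤ C * b) (hC : 0 ≤ C) :
    |x * y| ≤ C ^ 2 * b := by
  rw [abs_mul]
  have h1 : |x| * |y| ≤ (C * b) * (C * b) := mul_le_mul hx hy (abs_nonneg y) (by positivity)
  have h2 : C ^ 2 * b ^ 2 ≤ C ^ 2 * b := by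
    apply mul_le_mul_of_nonneg_left _ (sq_nonneg C)
    nlinarith
  nlinarith

theorem con_Nn {θ : ℝ} {S : Set ℝ} {r : ℝ → ℝ} {W : ℝ → ℝ → ℝ} (F : Fa θ S r W) :
    ContinuousOn (fun t => Nn ((r t) ^ 2) (W t)) S := by
  obtain ⟨C, hC0, hC⟩ := F.bd 1
  have hrpos : ∀ t ∈ S, 0 < (r t) ^ 2 := fun t ht => pow_pos (lt_of_lt_of_le F.θ0 (F.lo t ht)) 2
  unfold Nn
  refine cInt (g := fun y => C ^ 2 * bd θ θ y) ((H72KB.bd_int F.θ0 F.θ0).const_mul _) ?_ ?_ ?_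
  · intro τ hτ
    exact ((ph_der (hrpos τ hτ) 0).2.2.2.2.2.1).mul
      ((((F.sm τ hτ).of_le (by exact_mod_cast le_top)).continuous_deriv (le_refl 1)).pow 2)
  · intro τ hτ y
    obtain ⟨_, _, _, h1, h2, _, _⟩ := ph_der (hrpos τ hτ) y
    have h3 := hC τ hτ y
    rw [iteratedDeriv_one] at h3
    have h4 := CNr_sq (H72KB.bd_pos θ θ y).le (bd_le_one F.θ0.le F.θ0.le y) h3 hC0
    rw [abs_of_nonneg (mul_nonneg h1.le (sq_nonneg _))]
    nlinarith [sq_nonneg (deriv (W τ) y)]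
  · intro y
    refine ContinuousOn.mul ?_ (ContinuousOn.pow ?_ 2)
    · intro τ hτ
      have h1 : ContinuousAt (fun s => Ph s y) ((r τ) ^ 2) := ((ph_der (hrpos τ hτ) y).2.1).continuousAt
      have h2 : ContinuousWithinAt (fun t => (r t) ^ 2) S τ := (F.cr τ hτ).pow 2
      exact ContinuousAt.comp_continuousWithinAt (f := fun t => (r t) ^ 2) (g := fun s => Ph s y) h1 h2
    · have h := F.co 1 y
      simp only [iteratedDeriv_one] at h
      exact h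

theorem der_Nn {θ : ℝ} {J : Set ℝ} {r w : ℝ → ℝ} {W Z : ℝ → ℝ → ℝ} (F : Flo θ J r w W Z)
    {t : ℝ} (ht : t ∈ J) :
    HasDerivAt (fun τ => Nn ((r τ) ^ 2) (W τ))
      (DNn ((r t) ^ 2) (w t) (W t) (Z t) / (r t) ^ 24) t := by
  obtain ⟨C, hC0, hC⟩ := F.bd 1
  obtain ⟨Cw, hCw0, hCw⟩ := F.bw
  have hr0 : ∀ t ∈ J, 0 < r t := fun t ht => lt_of_lt_of_le F.θ0 (F.lo t ht)
  have hrpos : ∀ t ∈ J, 0 < (r t) ^ 2 := fun t ht => pow_pos (hr0 t ht) 2
  have hθ := F.θ0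
  set K : ℝ := C ^ 2 * (1 + Cw / (8 * θ ^ 26) + 2 / θ ^ 24) with hK
  have hK1 : C ^ 2 ≤ K := by
    have : 0 ≤ Cw / (8 * θ ^ 26) := by positivity
    have : 0 ≤ 2 / θ ^ 24 := by positivity
    rw [hK]
    nlinarith [sq_nonneg C]
  have hcd : ∀ τ ∈ J, Continuous (deriv (W τ)) := fun τ hτ =>
    ((F.sm τ hτ).of_le (by exact_mod_cast le_top)).continuous_deriv (le_refl 1)
  have hcz : ∀ τ ∈ J, Continuous (deriv (Z τ)) := fun τ hτ =>
    ((F.sz τ hτ).of_le (by exact_mod_cast le_top)).continuous_deriv (le_refl 1)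
  have hmain := dInt (J := J) F.op (G := fun τ y => Ph ((r τ) ^ 2) y * (deriv (W τ) y) ^ 2)
    (G' := fun τ y => (2 * Ph ((r τ) ^ 2) y * (deriv (W τ) y * deriv (Z τ) y)
      - w τ / (8 * (r τ) ^ 2) * (deriv (Ph ((r τ) ^ 2)) y * (deriv (W τ) y) ^ 2)) / (r τ) ^ 24)
    (g := fun y => K * bd θ θ y) ((H72KB.bd_int F.θ0 F.θ0).const_mul _) ?_ ?_ ?_ ?_ ?_ ht
  · obtain ⟨_, _, h3⟩ := hmain
    have e : DNn ((r t) ^ 2) (w t) (W t) (Z t) / (r t) ^ 24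
        = ∫ y, (2 * Ph ((r t) ^ 2) y * (deriv (W t) y * deriv (Z t) y)
      - w t / (8 * (r t) ^ 2) * (deriv (Ph ((r t) ^ 2)) y * (deriv (W t) y) ^ 2)) / (r t) ^ 24 := by
      rw [integral_div, integral_sub, integral_const_mul]
      · rfl
      · refine Integrable.mono' (((H72KB.bd_int hθ hθ).const_mul (2 * C ^ 2))) ?_ (Eventually.of_forall fun y => ?_)
        · exact ((continuous_const.mul (ph_der (hrpos t ht) 0).2.2.2.2.2.1).mul
            ((hcd t ht).mul (hcz t ht))).aestronglyMeasurable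
        · obtain ⟨_, _, _, h1, h2, _, _⟩ := ph_der (hrpos t ht) y
          have h3 := hC t ht y
          rw [iteratedDeriv_one, iteratedDeriv_one] at h3
          have h4 := CNr_mul (H72KB.bd_pos θ θ y).le (bd_le_one hθ.le hθ.le y) h3.1 h3.2 hC0
          rw [Real.norm_eq_abs, abs_mul, abs_mul, abs_of_pos h1, abs_two]
          nlinarith [abs_nonneg (deriv (W t) y * deriv (Z t) y)]
      · refine Integrable.const_mul (Integrable.mono' (((H72KB.bd_int hθ hθ).const_mul (C ^ 2))) ?_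
          (Eventually.of_forall fun y => ?_)) _
        · exact ((ph_der (hrpos t ht) 0).2.2.2.2.2.2.mul ((hcd t ht).pow 2)).aestronglyMeasurable
        · obtain ⟨_, _, h0, h1, h2, _, _⟩ := ph_der (hrpos t ht) y
          have h3 := hC t ht y
          rw [iteratedDeriv_one, iteratedDeriv_one] at h3
          have h4 := CNr_sq (H72KB.bd_pos θ θ y).le (bd_le_one hθ.le hθ.le y) h3.1 hC0
          rw [Real.norm_eq_abs, abs_mul, abs_of_nonneg (sq_nonneg (deriv (W t) y))]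
          nlinarith [sq_nonneg (deriv (W t) y)]
    rw [e]
    exact h3
  · intro τ hτ
    exact ((ph_der (hrpos τ hτ) 0).2.2.2.2.2.1).mul ((hcd τ hτ).pow 2)
  · intro τ hτ
    refine Continuous.div_const ?_ _
    refine ((continuous_const.mul (ph_der (hrpos τ hτ) 0).2.2.2.2.2.1).mul
            ((hcd τ hτ).mul (hcz τ hτ))).sub ?_
    exact continuous_const.mul ((ph_der (hrpos τ hτ) 0).2.2.2.2.2.2.mul ((hcd τ hτ).pow 2))
  · intro τ hτ y
    obtain ⟨_, _, _, h1, h2, _, _⟩ := ph_der (hrpos τ hτ) y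
    have h3 := hC τ hτ y
    rw [iteratedDeriv_one, iteratedDeriv_one] at h3
    have h4 := CNr_sq (H72KB.bd_pos θ θ y).le (bd_le_one F.θ0.le F.θ0.le y) h3.1 hC0
    rw [abs_of_nonneg (mul_nonneg h1.le (sq_nonneg _))]
    have h5 := (H72KB.bd_pos θ θ y)
    have h6 : C ^ 2 * bd θ θ y ≤ K * bd θ θ y := mul_le_mul_of_nonneg_right hK1 h5.le
    nlinarith [sq_nonneg (deriv (W τ) y)]
  · intro τ hτ y
    obtain ⟨_, _, h0, h1, h2, _, _⟩ := ph_der (hrpos τ hτ) y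
    have h3 := hC τ hτ y
    rw [iteratedDeriv_one, iteratedDeriv_one] at h3
    have hb0 := H72KB.bd_pos θ θ y
    have hb1 := bd_le_one hθ.le hθ.le y
    have h4 := CNr_sq hb0.le hb1 h3.1 hC0
    have h5 := CNr_mul hb0.le hb1 h3.1 h3.2 hC0
    have h6 := hCw τ hτ
    have hrp := hr0 τ hτ
    have h24 : θ ^ 24 ≤ (r τ) ^ 24 := pow_le_pow_left₀ hθ.le (F.lo τ hτ) 24
    have h2' : θ ^ 2 ≤ (r τ) ^ 2 := pow_le_pow_left₀ hθ.le (F.lo τ hτ) 2
    have hθ24 : 0 < θ ^ 24 := pow_pos hθ 24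
    have hθ2 : 0 < θ ^ 2 := pow_pos hθ 2
    set B := C ^ 2 * bd θ θ y with hB
    have hB0 : 0 ≤ B := by positivity
    have a1 : |2 * Ph ((r τ) ^ 2) y * (deriv (W τ) y * deriv (Z τ) y)| ≤ 2 * B := by
      rw [abs_mul, abs_mul, abs_of_pos h1, abs_two]
      nlinarith [abs_nonneg (deriv (W τ) y * deriv (Z τ) y)]
    have a2 : |w τ / (8 * (r τ) ^ 2) * (deriv (Ph ((r τ) ^ 2)) y * (deriv (W τ) y) ^ 2)| ≤
        Cw / (8 * θ ^ 2) * B := by
      rw [abs_mul]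
      refine mul_le_mul ?_ ?_ (abs_nonneg _) (by positivity)
      · rw [abs_div, abs_of_pos (show (0 : ℝ) < 8 * (r τ) ^ 2 by positivity)]
        exact div_le_div₀ hCw0 h6 (by positivity) (by linarith)
      · rw [abs_mul, abs_of_nonneg (sq_nonneg (deriv (W τ) y))]
        nlinarith [sq_nonneg (deriv (W τ) y)]
    rw [abs_div, abs_of_pos (show (0 : ℝ) < (r τ) ^ 24 by positivity)]
    have a3 := (abs_sub (2 * Ph ((r τ) ^ 2) y * (deriv (W τ) y * deriv (Z τ) y))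
      (w τ / (8 * (r τ) ^ 2) * (deriv (Ph ((r τ) ^ 2)) y * (deriv (W τ) y) ^ 2)))
    have a4 : |2 * Ph ((r τ) ^ 2) y * (deriv (W τ) y * deriv (Z τ) y)
      - w τ / (8 * (r τ) ^ 2) * (deriv (Ph ((r τ) ^ 2)) y * (deriv (W τ) y) ^ 2)| / (r τ) ^ 24
      ≤ (2 * B + Cw / (8 * θ ^ 2) * B) / θ ^ 24 :=
      div_le_div₀ (by positivity) (by linarith) hθ24 h24
    refine a4.trans ?_
    have a5 : K * bd θ θ y = B + Cw / (8 * θ ^ 26) * B + 2 / θ ^ 24 * B := by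
      rw [hK, hB]; ring
    have a6 : (2 * B + Cw / (8 * θ ^ 2) * B) / θ ^ 24 = Cw / (8 * θ ^ 26) * B + 2 / θ ^ 24 * B := by
      field_simp
      ring
    rw [a5, a6]
    linarith
  · intro τ hτ y
    have hrp := hr0 τ hτ
    have d1 : HasDerivAt (fun τ => (r τ) ^ 2) (2 * r τ * (-(w τ * r τ / 8) / (r τ) ^ 24)) τ := by
      have h := HasDerivAt.fun_pow (F.dr τ hτ) 2
      refine HasDerivAt.congr_deriv h ?_
      norm_num
    have d2 := (ph_der (hrpos τ hτ) y).2.1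
    have d3 : HasDerivAt (fun τ => Ph ((r τ) ^ 2) y)
        (deriv (Ph ((r τ) ^ 2)) y * (1 / (2 * ((r τ) ^ 2) ^ 2)) * (2 * r τ * (-(w τ * r τ / 8) / (r τ) ^ 24))) τ :=
      HasDerivAt.comp τ (h₂ := fun s => Ph s y) (h := fun τ => (r τ) ^ 2) d2 d1
    have d4 := F.ev 1 τ hτ y
    simp only [iteratedDeriv_one] at d4
    have d5 := HasDerivAt.fun_mul d3 (HasDerivAt.fun_pow d4 2)
    refine HasDerivAt.congr_deriv d5 ?_
    have : r τ ≠ 0 := hrp.ne'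
    norm_num
    field_simp
    ring

end H72KC

end S_H72_KC_CNr
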