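import Mathlib
import Pool.Agent.H98.BU.G19
import Pool.Agent.H98.BU.G20
import Pool.Agent.H98.BU.G21

/-! Blow-up for `u_t + u^k u_x + u_xxx - u_xx = 0`, part G23: this file joins several modules
to save build time (`Pool/Agent/H98/{KB,KC}`, `H72/{KB,KC}`, `H68/KC`, `H37/{KB,KC}`). -/

section S_H72_KB_OdeAbs

/-!
# Row OdeAbs: a family of ODEs with a bounded globally Lipschitz vector field

Proof.  Fix `a ∈ I = [-a₁,a₁]`.  Picard-Lindelof on `[0,T]` with ball radius `L*T+1` around `P₀`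
(`IsPicardLindelof` with `tmin = 0`, `tmax = T`, `t₀ = 0`, radius `L*T+1`, bound `L` (or `max L 0`), Lipschitz
constant `max L 0`; `exists_eq_forall_mem_Icc_hasDerivWithinAt`-type lemma): there is `P_a` with `P_a(0)=P₀`,
`HasDerivWithinAt P_a (F a t (P_a t)) (Icc 0 T) t` for `t ∈ [0,T]`; at interior points this is `HasDerivAt`
(`HasDerivWithinAt.hasDerivAt` with `Icc_mem_nhds`).  Choose `P a` for each `a` (`Classical.choose`, any
function for `a ∉ I`).  Joint continuity: for `a, a' ∈ I`, `t ∈ [0,T]`: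
 `|P_a(t) - P_a'(t)| <= C |a-a'|` with `C = T L exp(L T)`-like constant by Gronwall
 (`dist_le_of_approx_trajectories_ODE`(`_of_mem`) with `εf = 0`, `εg = L|a-a'|`, or
 `norm_le_gronwallBound_of_norm_deriv_right_le`), and `|P_a(t)-P_a(t')| <= L |t-t'|` (mean value,
 `Convex.norm_image_sub_le_of_norm_hasDerivWithin_le`).  Hence `(a,t) ↦ P_a(t)` is continuous on
 `I × [0,T]`.  (`0 ≤ L` may be assumed: replace `L` by `max L 0`.)
-/

open Filter Topology Set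

namespace H72KB

theorem OdeAbs_exists (T : ℝ) (L : NNReal) (hT : 0 < T) (F : ℝ → ℝ × ℝ → ℝ × ℝ) (P₀ : ℝ × ℝ)
    (hb : ∀ t ∈ Icc 0 T, ∀ P, ‖F t P‖ ≤ L)
    (hl : ∀ t ∈ Icc 0 T, ∀ P P', ‖F t P - F t P'‖ ≤ L * ‖P - P'‖)
    (hc : ∀ P, ContinuousOn (fun t => F t P) (Icc 0 T)) :
    ∃ P : ℝ → ℝ × ℝ, P 0 = P₀ ∧
      ∀ t ∈ Icc 0 T, HasDerivWithinAt P (F t (P t)) (Icc 0 T) t := by
  let t₀ : Icc (0 : ℝ) T := ⟨0, le_refl 0, hT.le⟩
  have h : IsPicardLindelof F t₀ P₀ (L * ⟨T, hT.le⟩) 0 L L :=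
    { lipschitzOnWith := by
        intro t ht
        apply LipschitzOnWith.of_dist_le_mul
        intro x _ y _
        rw [dist_eq_norm, dist_eq_norm]
        exact hl t ht x y
      continuousOn := fun x _ => hc x
      norm_le := fun t ht x _ => hb t ht x
      mul_max_le := by
        have h1 : max (T - (t₀ : ℝ)) ((t₀ : ℝ) - 0) = T := by
          show max (T - 0) (0 - 0) = T
          rw [sub_zero, sub_zero]
          exact max_eq_left hT.le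
        rw [h1]
        simp
        rfl }
  obtain ⟨α, h1, h2⟩ := h.exists_eq_forall_mem_Icc_hasDerivWithinAt₀
  exact ⟨α, h1, h2⟩

theorem OdeAbs_gron (K ε x : ℝ) : gronwallBound 0 K ε x = ε * gronwallBound 0 K 1 x := by
  by_cases hK : K = 0
  · subst hK
    simp [gronwallBound_K0]
  · rw [gronwallBound_of_K_ne_0 hK, gronwallBound_of_K_ne_0 hK]
    simp only [zero_mul, zero_add]
    ring

theorem ode_family (T a₁ L : ℝ) (hT : 0 < T) (F : ℝ → ℝ → ℝ × ℝ → ℝ × ℝ) (P₀ : ℝ × ℝ)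
    (hb : ∀ a ∈ Icc (-a₁) a₁, ∀ t ∈ Icc 0 T, ∀ P, ‖F a t P‖ ≤ L)
    (hl : ∀ a ∈ Icc (-a₁) a₁, ∀ t ∈ Icc 0 T, ∀ P P', ‖F a t P - F a t P'‖ ≤ L * ‖P - P'‖)
    (ha : ∀ a ∈ Icc (-a₁) a₁, ∀ a' ∈ Icc (-a₁) a₁, ∀ t ∈ Icc 0 T, ∀ P,
      ‖F a t P - F a' t P‖ ≤ L * |a - a'|)
    (hc : ∀ a ∈ Icc (-a₁) a₁, ∀ P, ContinuousOn (fun t => F a t P) (Icc 0 T)) :
    ∃ P : ℝ → ℝ → ℝ × ℝ, (∀ a ∈ Icc (-a₁) a₁, P a 0 = P₀) ∧
      ContinuousOn (fun z : ℝ × ℝ => P z.1 z.2) (Icc (-a₁) a₁ ×ˢ Icc 0 T) ∧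
      ∀ a ∈ Icc (-a₁) a₁, ∀ t ∈ Ioo 0 T, HasDerivAt (P a) (F a t (P a t)) t := by
  classical
  by_cases hI : (Icc (-a₁) a₁).Nonempty
  swap
  · have hE : Icc (-a₁) a₁ = ∅ := Set.not_nonempty_iff_eq_empty.mp hI
    refine ⟨fun _ _ => P₀, ?_, ?_, ?_⟩
    · intro a h; exact absurd (hE ▸ h) (Set.notMem_empty a)
    · exact continuousOn_const
    · intro a h; exact absurd (hE ▸ h) (Set.notMem_empty a)
  obtain ⟨c, hcI⟩ := hI
  have hL : 0 ≤ L := le_trans (norm_nonneg _) (hb c hcI 0 ⟨le_refl 0, hT.le⟩ P₀)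
  lift L to NNReal using hL
  have hex : ∀ a : ℝ, ∃ P : ℝ → ℝ × ℝ, a ∈ Icc (-a₁) a₁ → (P 0 = P₀ ∧
      ∀ t ∈ Icc 0 T, HasDerivWithinAt P (F a t (P t)) (Icc 0 T) t) := by
    intro a
    by_cases haI : a ∈ Icc (-a₁) a₁
    · obtain ⟨P, h1, h2⟩ := OdeAbs_exists T L hT (F a) P₀ (hb a haI) (hl a haI) (hc a haI)
      exact ⟨P, fun _ => ⟨h1, h2⟩⟩
    · exact ⟨fun _ => P₀, fun h => absurd h haI⟩
  choose P hP using hex
  have hcont : ∀ a ∈ Icc (-a₁) a₁, ContinuousOn (P a) (Icc 0 T) := fun a haI t ht =>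
    ((hP a haI).2 t ht).continuousWithinAt
  have hder : ∀ a ∈ Icc (-a₁) a₁, ∀ t ∈ Ico 0 T,
      HasDerivWithinAt (P a) (F a t (P a t)) (Ici t) t := by
    intro a haI t ht
    have h := (hP a haI).2 t ⟨ht.1, ht.2.le⟩
    exact h.mono_of_mem_nhdsWithin (Icc_mem_nhdsGE_of_mem ht)
  have hdist : ∀ a ∈ Icc (-a₁) a₁, ∀ a' ∈ Icc (-a₁) a₁, ∀ t ∈ Icc 0 T,
      dist (P a t) (P a' t) ≤ |a - a'| * (L * gronwallBound 0 L 1 T) := by
    intro a haI a' haI' t ht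
    have h := dist_le_of_approx_trajectories_ODE_of_mem (v := F a) (K := L) (s := fun _ => univ)
      (f := P a) (g := P a') (f' := fun t => F a t (P a t)) (g' := fun t => F a' t (P a' t))
      (a := 0) (b := T) (εf := 0) (εg := L * |a - a'|) (δ := 0)
      (fun s hs => by
        apply LipschitzOnWith.of_dist_le_mul
        intro x _ y _
        rw [dist_eq_norm, dist_eq_norm]
        exact hl a haI s ⟨hs.1, hs.2.le⟩ x y)
      (hcont a haI) (hder a haI) (fun s _ => by rw [dist_self]) (fun _ _ => trivial)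
      (hcont a' haI') (hder a' haI')
      (fun s hs => by
        rw [dist_comm, dist_eq_norm]
        exact ha a haI a' haI' s ⟨hs.1, hs.2.le⟩ _)
      (fun _ _ => trivial)
      (by rw [(hP a haI).1, (hP a' haI').1, dist_self]) t ht
    rw [zero_add, sub_zero, OdeAbs_gron] at h
    refine h.trans ?_
    have hm : gronwallBound 0 (L : ℝ) 1 t ≤ gronwallBound 0 (L : ℝ) 1 T :=
      gronwallBound_mono (le_refl 0) zero_le_one L.2 ht.2
    have h0 : 0 ≤ (L : ℝ) * |a - a'| := mul_nonneg L.2 (abs_nonneg _)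
    calc (L : ℝ) * |a - a'| * gronwallBound 0 (L : ℝ) 1 t
        ≤ (L : ℝ) * |a - a'| * gronwallBound 0 (L : ℝ) 1 T := mul_le_mul_of_nonneg_left hm h0
      _ = |a - a'| * (L * gronwallBound 0 L 1 T) := by ring
  refine ⟨P, fun a haI => (hP a haI).1, ?_, ?_⟩
  · rintro ⟨a0, t0⟩ ⟨ha0, ht0⟩
    simp only at ha0 ht0
    show Tendsto (fun z : ℝ × ℝ => P z.1 z.2) (𝓝[Icc (-a₁) a₁ ×ˢ Icc 0 T] (a0, t0)) (𝓝 (P a0 t0))
    rw [tendsto_iff_dist_tendsto_zero]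
    have hfst : Tendsto (fun z : ℝ × ℝ => z.1) (𝓝[Icc (-a₁) a₁ ×ˢ Icc 0 T] (a0, t0)) (𝓝 a0) :=
      (continuous_fst.tendsto (a0, t0)).mono_left nhdsWithin_le_nhds
    have hsnd : Tendsto (fun z : ℝ × ℝ => z.2) (𝓝[Icc (-a₁) a₁ ×ˢ Icc 0 T] (a0, t0))
        (𝓝[Icc 0 T] t0) := by
      apply tendsto_nhdsWithin_iff.mpr
      refine ⟨(continuous_snd.tendsto (a0, t0)).mono_left nhdsWithin_le_nhds, ?_⟩
      filter_upwards [self_mem_nhdsWithin] with z hz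
      exact hz.2
    have hc2 : Tendsto (fun z : ℝ × ℝ => P a0 z.2) (𝓝[Icc (-a₁) a₁ ×ˢ Icc 0 T] (a0, t0))
        (𝓝 (P a0 t0)) := (hcont a0 ha0 t0 ht0).tendsto.comp hsnd
    have hlim : Tendsto (fun z : ℝ × ℝ => |z.1 - a0| * (L * gronwallBound 0 L 1 T)
        + dist (P a0 z.2) (P a0 t0)) (𝓝[Icc (-a₁) a₁ ×ˢ Icc 0 T] (a0, t0)) (𝓝 0) := by
      have e1 : Tendsto (fun z : ℝ × ℝ => |z.1 - a0| * (L * gronwallBound 0 L 1 T))
          (𝓝[Icc (-a₁) a₁ ×ˢ Icc 0 T] (a0, t0)) (𝓝 0) := by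
        have : Tendsto (fun z : ℝ × ℝ => |z.1 - a0| * ((L : ℝ) * gronwallBound 0 L 1 T))
          (𝓝[Icc (-a₁) a₁ ×ˢ Icc 0 T] (a0, t0)) (𝓝 (|a0 - a0| * ((L : ℝ) * gronwallBound 0 L 1 T))) :=
          ((hfst.sub tendsto_const_nhds).abs).mul_const _
        simpa using this
      have e2 := tendsto_iff_dist_tendsto_zero.mp hc2
      simpa using e1.add e2
    refine squeeze_zero' (Eventually.of_forall fun z => dist_nonneg) ?_ hlim
    filter_upwards [self_mem_nhdsWithin] with z hz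
    calc dist (P z.1 z.2) (P a0 t0)
        ≤ dist (P z.1 z.2) (P a0 z.2) + dist (P a0 z.2) (P a0 t0) := dist_triangle _ _ _
      _ ≤ _ := by
        gcongr
        exact hdist z.1 hz.1 a0 ha0 z.2 hz.2
  · intro a haI t ht
    exact ((hP a haI).2 t ⟨ht.1.le, ht.2.le⟩).hasDerivAt (Icc_mem_nhds ht.1 ht.2)

end H72KB

end S_H72_KB_OdeAbs

section S_H72_KB_VFr

/-!
# Row VFr: the clipped vector field is bounded, Lipschitz, continuous in time; existence of the trajectories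

Proof.  Put `l = clp lo hi P.1 ∈ [lo,hi]`, `x = clp (-X₀) X₀ P.2 ∈ [-X₀,X₀]`; `clp` is 1-Lipschitz
(`|max lo (min s hi) - max lo (min s' hi)| ≤ |s-s'|`) and `‖P - P'‖ = max |..| |..|` on `ℝ × ℝ`.
`W(l,x,y) = l^{2/k} U(l y + x)`: with `UF_bound` for `j = 0, 1` (`bd ≤ 1`) there is `C` (independent of `a,t`) with
`|W| ≤ C`, `|W(l,x,y) - W(l',x',y)| ≤ C (1+|y|) (|l-l'| + |x-x'|)` (`l ↦ l^{2/k}` is Lipschitz on `[lo,hi]`, `lo > 0`;
mean value theorem for `U`), and `|W_a - W_a'| ≤ C |a-a'|` (`h.lip 0`); the same for `ef = l² Wf k e l x`.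
Apply `bfn_lip` (with `d = C (|l-l'| + |x-x'|)` resp. `d = C|a-a'|`), then divide by `l² ≥ lo²` (`l ↦ 1/l²` Lipschitz on
`[lo,hi]`).  Continuity in `t` for fixed `P`: `bfn_cont` with `W t = Wf k (U a t) l x` etc. (`J = Icc 0 T`;
pointwise continuity from `App.cont 0`, `App.cont' 0`; `iteratedDeriv 0 f = f`).
`traj_exists`: `ode_family` with `F a t P = VF k lo hi X₀ (U a) (e a) t P`, `P₀ = (l₀, 0)`.
-/

open MeasureTheory Filter Topology Set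
open scoped ContDiff

namespace H72KB

open H98KB

theorem VFr_clp_mem {lo hi : ℝ} (h : lo ≤ hi) (s : ℝ) : lo ≤ clp lo hi s ∧ clp lo hi s ≤ hi := by
  unfold clp
  exact ⟨le_max_left _ _, max_le h (min_le_right _ _)⟩

theorem VFr_clp_lip (lo hi s s' : ℝ) : |clp lo hi s - clp lo hi s'| ≤ |s - s'| := by
  unfold clp
  have h1 := abs_max_sub_max_le_max lo (min s hi) lo (min s' hi)
  have h2 := abs_min_sub_min_le_max s hi s' hi
  rw [sub_self, abs_zero, max_eq_right (abs_nonneg (min s hi - min s' hi))] at h1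
  rw [sub_self, abs_zero, max_eq_left (abs_nonneg (s - s'))] at h2
  exact h1.trans h2

theorem VFr_rpow {s lo : ℝ} (hs0 : 0 ≤ s) (hs1 : s ≤ 1) (hlo : 0 < lo) {l l' : ℝ} (hl : lo ≤ l)
    (hl' : lo ≤ l') : |l ^ s - l' ^ s| ≤ s * lo ^ (s - 1) * |l - l'| := by
  have h := Convex.norm_image_sub_le_of_norm_hasDerivWithin_le (f := fun x : ℝ => x ^ s)
    (f' := fun x : ℝ => s * x ^ (s - 1)) (s := Ici lo) (C := s * lo ^ (s - 1)) (x := l') (y := l)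
    (fun x hx => (Real.hasDerivAt_rpow_const
      (Or.inl (ne_of_gt (lt_of_lt_of_le hlo hx)))).hasDerivWithinAt)
    (fun x hx => by
      have hx0 : 0 < x := lt_of_lt_of_le hlo hx
      rw [Real.norm_eq_abs, abs_of_nonneg (mul_nonneg hs0 (Real.rpow_nonneg hx0.le _))]
      refine mul_le_mul_of_nonneg_left ?_ hs0
      exact Real.rpow_le_rpow_of_nonpos hlo hx (by linarith))
    (convex_Ici lo) hl' hl
  simpa [Real.norm_eq_abs] using h

theorem VFr_lipg {g : ℝ → ℝ} {M : ℝ} (hg : ContDiff ℝ ∞ g) (h1 : ∀ x, |iteratedDeriv 1 g x| ≤ M)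
    (x x' : ℝ) : |g x - g x'| ≤ M * |x - x'| := by
  have h := Convex.norm_image_sub_le_of_norm_deriv_le (f := g) (s := univ) (C := M) (x := x')
    (y := x)
    (fun z _ => (hg.differentiable (by simp)).differentiableAt)
    (fun z _ => by
      have := h1 z
      rw [iteratedDeriv_one] at this
      exact this)
    convex_univ (mem_univ _) (mem_univ _)
  simpa [Real.norm_eq_abs] using h

theorem VFr_s {k : ℕ} (hk : 5 ≤ k) : 0 ≤ 2 / (k : ℝ) ∧ 2 / (k : ℝ) ≤ 1 := by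
  have h5 : (5 : ℝ) ≤ (k : ℝ) := by exact_mod_cast hk
  refine ⟨by positivity, ?_⟩
  rw [div_le_one (by linarith)]
  linarith

theorem VFr_pw {s l : ℝ} (hs0 : 0 ≤ s) (hl : 0 < l) (hl1 : l ≤ 1) : 0 ≤ l ^ s ∧ l ^ s ≤ 1 :=
  ⟨Real.rpow_nonneg hl.le _, Real.rpow_le_one hl.le hl1 hs0⟩

theorem VFr_Wb {k : ℕ} (hk : 5 ≤ k) {g : ℝ → ℝ} {M : ℝ} (h0 : ∀ x, |g x| ≤ M) {l : ℝ}
    (hl : 0 < l) (hl1 : l ≤ 1) (x y : ℝ) : |Wf k g l x y| ≤ M := by
  unfold Wf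
  obtain ⟨h1, h2⟩ := VFr_pw (VFr_s hk).1 hl hl1
  rw [abs_mul, abs_of_nonneg h1]
  calc l ^ (2 / (k : ℝ)) * |g (l * y + x)| ≤ 1 * |g (l * y + x)| :=
        mul_le_mul_of_nonneg_right h2 (abs_nonneg _)
    _ ≤ M := by
        rw [one_mul]
        exact h0 _

theorem VFr_eb {k : ℕ} (hk : 5 ≤ k) {g : ℝ → ℝ} {M : ℝ} (h0 : ∀ x, |g x| ≤ M) {l : ℝ}
    (hl : 0 < l) (hl1 : l ≤ 1) (x y : ℝ) : |ef k g l x y| ≤ M := by
  unfold ef
  have h1 := VFr_Wb hk h0 hl hl1 x y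
  have h2 : l ^ 2 ≤ 1 := pow_le_one₀ hl.le hl1
  rw [abs_mul, abs_of_nonneg (sq_nonneg l)]
  calc l ^ 2 * |Wf k g l x y| ≤ 1 * |Wf k g l x y| :=
        mul_le_mul_of_nonneg_right h2 (abs_nonneg _)
    _ ≤ M := by
        rw [one_mul]
        exact h1

theorem VFr_Wc (k : ℕ) {g : ℝ → ℝ} (hg : Continuous g) (l x : ℝ) : Continuous (Wf k g l x) := by
  unfold Wf
  fun_prop

theorem VFr_ec (k : ℕ) {g : ℝ → ℝ} (hg : Continuous g) (l x : ℝ) : Continuous (ef k g l x) := by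
  have h := VFr_Wc k hg l x
  unfold ef
  fun_prop

theorem VFr_Wl {k : ℕ} (hk : 5 ≤ k) {g : ℝ → ℝ} {M lo : ℝ} (hM : 0 ≤ M) (hlo : 0 < lo)
    (h0 : ∀ x, |g x| ≤ M) (h1 : ∀ x x', |g x - g x'| ≤ M * |x - x'|) {l l' : ℝ} (hl : lo ≤ l)
    (hl' : lo ≤ l') (hl1' : l' ≤ 1) (x x' y : ℝ) :
    |Wf k g l x y - Wf k g l' x' y| ≤
      M * (2 / (k : ℝ) * lo ^ (2 / (k : ℝ) - 1) + 1) * (|l - l'| + |x - x'|) * (1 + |y|) := by
  obtain ⟨hs0, hs1⟩ := VFr_s hk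
  obtain ⟨h2, h3⟩ := VFr_pw hs0 (lt_of_lt_of_le hlo hl') hl1'
  have h4 := VFr_rpow hs0 hs1 hlo hl hl'
  obtain ⟨K, hK⟩ : ∃ K, K = 2 / (k : ℝ) * lo ^ (2 / (k : ℝ) - 1) := ⟨_, rfl⟩
  have hK0 : 0 ≤ K := by
    rw [hK]
    exact mul_nonneg hs0 (Real.rpow_nonneg hlo.le _)
  rw [← hK] at h4 ⊢
  unfold Wf
  have e : l ^ (2 / (k : ℝ)) * g (l * y + x) - l' ^ (2 / (k : ℝ)) * g (l' * y + x') =
      (l ^ (2 / (k : ℝ)) - l' ^ (2 / (k : ℝ))) * g (l * y + x) +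
        l' ^ (2 / (k : ℝ)) * (g (l * y + x) - g (l' * y + x')) := by ring
  rw [e]
  have a1 : |(l ^ (2 / (k : ℝ)) - l' ^ (2 / (k : ℝ))) * g (l * y + x)| ≤ K * |l - l'| * M := by
    rw [abs_mul]
    exact mul_le_mul h4 (h0 _) (abs_nonneg _) (by positivity)
  have a2 : |l * y + x - (l' * y + x')| ≤ |l - l'| * |y| + |x - x'| := by
    have e2 : l * y + x - (l' * y + x') = (l - l') * y + (x - x') := by ring
    rw [e2, ← abs_mul]
    exact abs_add_le _ _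
  have a3 : |l' ^ (2 / (k : ℝ)) * (g (l * y + x) - g (l' * y + x'))| ≤
      M * (|l - l'| * |y| + |x - x'|) := by
    rw [abs_mul, abs_of_nonneg h2]
    calc l' ^ (2 / (k : ℝ)) * |g (l * y + x) - g (l' * y + x')|
        ≤ 1 * |g (l * y + x) - g (l' * y + x')| :=
          mul_le_mul_of_nonneg_right h3 (abs_nonneg _)
      _ ≤ M * |l * y + x - (l' * y + x')| := by
          rw [one_mul]
          exact h1 _ _
      _ ≤ M * (|l - l'| * |y| + |x - x'|) := mul_le_mul_of_nonneg_left a2 hM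
  refine (abs_add_le _ _).trans ((add_le_add a1 a3).trans ?_)
  obtain ⟨A, hA⟩ : ∃ A, A = |l - l'| := ⟨_, rfl⟩
  obtain ⟨B, hB⟩ : ∃ B, B = |x - x'| := ⟨_, rfl⟩
  obtain ⟨Y, hY⟩ : ∃ Y, Y = |y| := ⟨_, rfl⟩
  have hA0 : 0 ≤ A := by
    rw [hA]
    exact abs_nonneg _
  have hB0 : 0 ≤ B := by
    rw [hB]
    exact abs_nonneg _
  have hY0 : 0 ≤ Y := by
    rw [hY]
    exact abs_nonneg _
  rw [← hA, ← hB, ← hY]
  have e3 : M * (K + 1) * (A + B) * (1 + Y) - (K * A * M + M * (A * Y + B)) =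
      M * (K * A * Y + K * B + K * B * Y + A + B * Y) := by ring
  have h5 : 0 ≤ M * (K * A * Y + K * B + K * B * Y + A + B * Y) := by positivity
  linarith

theorem VFr_el {k : ℕ} (hk : 5 ≤ k) {g : ℝ → ℝ} {M lo : ℝ} (hM : 0 ≤ M) (hlo : 0 < lo)
    (h0 : ∀ x, |g x| ≤ M) (h1 : ∀ x x', |g x - g x'| ≤ M * |x - x'|) {l l' : ℝ} (hl : lo ≤ l)
    (hl1 : l ≤ 1) (hl' : lo ≤ l') (hl1' : l' ≤ 1) (x x' y : ℝ) :
    |ef k g l x y - ef k g l' x' y| ≤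
      M * (2 / (k : ℝ) * lo ^ (2 / (k : ℝ) - 1) + 3) * (|l - l'| + |x - x'|) * (1 + |y|) := by
  have h2 := VFr_Wl hk hM hlo h0 h1 hl hl' hl1' x x' y
  have h3 := VFr_Wb hk h0 (lt_of_lt_of_le hlo hl) hl1 x y
  obtain ⟨K, hK⟩ : ∃ K, K = 2 / (k : ℝ) * lo ^ (2 / (k : ℝ) - 1) := ⟨_, rfl⟩
  rw [← hK] at h2 ⊢
  unfold ef
  have e : l ^ 2 * Wf k g l x y - l' ^ 2 * Wf k g l' x' y =
      (l - l') * (l + l') * Wf k g l x y + l' ^ 2 * (Wf k g l x y - Wf k g l' x' y) := by ring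
  rw [e]
  have a1 : |(l - l') * (l + l') * Wf k g l x y| ≤ |l - l'| * 2 * M := by
    rw [abs_mul, abs_mul]
    have b1 : |l + l'| ≤ 2 := by
      rw [abs_of_nonneg (by linarith)]
      linarith
    exact mul_le_mul (mul_le_mul_of_nonneg_left b1 (abs_nonneg _)) h3 (abs_nonneg _)
      (by positivity)
  have a2 : |l' ^ 2 * (Wf k g l x y - Wf k g l' x' y)| ≤ |Wf k g l x y - Wf k g l' x' y| := by
    rw [abs_mul, abs_of_nonneg (sq_nonneg l')]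
    have b2 : l' ^ 2 ≤ 1 := pow_le_one₀ (by linarith) hl1'
    calc l' ^ 2 * |Wf k g l x y - Wf k g l' x' y| ≤ 1 * |Wf k g l x y - Wf k g l' x' y| :=
          mul_le_mul_of_nonneg_right b2 (abs_nonneg _)
      _ = _ := one_mul _
  refine (abs_add_le _ _).trans ((add_le_add a1 (a2.trans h2)).trans ?_)
  obtain ⟨A, hA⟩ : ∃ A, A = |l - l'| := ⟨_, rfl⟩
  obtain ⟨B, hB⟩ : ∃ B, B = |x - x'| := ⟨_, rfl⟩
  obtain ⟨Y, hY⟩ : ∃ Y, Y = |y| := ⟨_, rfl⟩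
  have hA0 : 0 ≤ A := by
    rw [hA]
    exact abs_nonneg _
  have hB0 : 0 ≤ B := by
    rw [hB]
    exact abs_nonneg _
  have hY0 : 0 ≤ Y := by
    rw [hY]
    exact abs_nonneg _
  rw [← hA, ← hB, ← hY]
  have e3 : M * (K + 3) * (A + B) * (1 + Y) - (A * 2 * M + M * (K + 1) * (A + B) * (1 + Y)) =
      M * (2 * A * Y + 2 * B + 2 * B * Y) := by ring
  have h5 : 0 ≤ M * (2 * A * Y + 2 * B + 2 * B * Y) := by positivity
  linarith

theorem VFr_div1 {N l lo C : ℝ} (hlo : 0 < lo) (hl : lo ≤ l) (hN : |N| ≤ C) :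
    |N / l ^ 2| ≤ C / lo ^ 2 := by
  have hl0 : 0 < l := lt_of_lt_of_le hlo hl
  rw [abs_div, abs_of_nonneg (sq_nonneg l)]
  have h1 : lo ^ 2 ≤ l ^ 2 := pow_le_pow_left₀ hlo.le hl 2
  exact div_le_div₀ ((abs_nonneg _).trans hN) hN (by positivity) h1

theorem VFr_div2 {N N' l l' lo C D d : ℝ} (hlo : 0 < lo) (hl : lo ≤ l) (hl1 : l ≤ 1)
    (hl' : lo ≤ l') (hl1' : l' ≤ 1) (hN' : |N'| ≤ C) (hD : |N - N'| ≤ D) (hd : |l - l'| ≤ d) :
    |N / l ^ 2 - N' / l' ^ 2| ≤ (D + 2 * C * d) / lo ^ 4 := by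
  have hl0 : 0 < l := lt_of_lt_of_le hlo hl
  have hl0' : 0 < l' := lt_of_lt_of_le hlo hl'
  have e : N / l ^ 2 - N' / l' ^ 2 =
      ((N - N') * l' ^ 2 + N' * (l' - l) * (l' + l)) / (l ^ 2 * l' ^ 2) := by
    field_simp
    ring
  rw [e, abs_div, abs_of_pos (by positivity : 0 < l ^ 2 * l' ^ 2)]
  have h1 : lo ^ 4 ≤ l ^ 2 * l' ^ 2 := by
    calc lo ^ 4 = lo ^ 2 * lo ^ 2 := by ring
      _ ≤ l ^ 2 * l' ^ 2 := mul_le_mul (pow_le_pow_left₀ hlo.le hl 2)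
          (pow_le_pow_left₀ hlo.le hl' 2) (by positivity) (by positivity)
  have h2 : |(N - N') * l' ^ 2 + N' * (l' - l) * (l' + l)| ≤ D + 2 * C * d := by
    refine (abs_add_le _ _).trans (add_le_add ?_ ?_)
    · rw [abs_mul, abs_of_nonneg (sq_nonneg l')]
      have b2 : l' ^ 2 ≤ 1 := pow_le_one₀ hl0'.le hl1'
      calc |N - N'| * l' ^ 2 ≤ |N - N'| * 1 := mul_le_mul_of_nonneg_left b2 (abs_nonneg _)
        _ ≤ D := by
          rw [mul_one]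
          exact hD
    · rw [abs_mul, abs_mul, abs_sub_comm l' l]
      have b1 : |l' + l| ≤ 2 := by
        rw [abs_of_nonneg (by linarith)]
        linarith
      have hC : 0 ≤ C := (abs_nonneg _).trans hN'
      have hd0 : 0 ≤ d := (abs_nonneg _).trans hd
      calc |N'| * |l - l'| * |l' + l| ≤ C * d * 2 :=
            mul_le_mul (mul_le_mul hN' hd (abs_nonneg _) hC) b1 (abs_nonneg _) (by positivity)
        _ = 2 * C * d := by ring
  exact div_le_div₀ ((abs_nonneg _).trans h2) h2 (by positivity) h1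

theorem VFr_unif {k : ℕ} {T α a₁ : ℝ} {U e : ℝ → ℝ → ℝ → ℝ} (ha : 0 ≤ a₁) (hα : 0 ≤ α)
    (h : UF k T α a₁ U e) : ∃ M : ℝ, 0 ≤ M ∧ ∀ a ∈ Icc (-a₁) a₁, ∀ t ∈ Icc 0 T,
      ((∀ x, |U a t x| ≤ M) ∧ (∀ x x', |U a t x - U a t x'| ≤ M * |x - x'|)) ∧
      ((∀ x, |e a t x| ≤ M) ∧ (∀ x x', |e a t x - e a t x'| ≤ M * |x - x'|)) := by
  obtain ⟨C0, hC0, h0⟩ := UF_bound ha h 0
  obtain ⟨C1, hC1, h1⟩ := UF_bound ha h 1
  refine ⟨C0 + C1, by linarith, fun a haa t ht => ?_⟩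
  have hb : ∀ x, bd (α / 2) (1 / 16) x ≤ 1 := fun x =>
    bd_le_one (by linarith) (by norm_num) x
  have b0 : ∀ x, C0 * bd (α / 2) (1 / 16) x ≤ C0 + C1 := fun x => by
    have := mul_le_mul_of_nonneg_left (hb x) hC0
    linarith
  have b1 : ∀ x, C1 * bd (α / 2) (1 / 16) x ≤ C0 + C1 := fun x => by
    have := mul_le_mul_of_nonneg_left (hb x) hC1
    linarith
  have hA := h.app a haa
  refine ⟨⟨fun x => ?_, ?_⟩, ⟨fun x => ?_, ?_⟩⟩
  · have h2 := (h0 a haa t ht x).1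
    rw [iteratedDeriv_zero] at h2
    exact h2.trans (b0 x)
  · exact VFr_lipg (hA.smooth t ht) fun x => ((h1 a haa t ht x).1).trans (b1 x)
  · have h2 := (h0 a haa t ht x).2
    rw [iteratedDeriv_zero] at h2
    exact h2.trans (b0 x)
  · exact VFr_lipg (hA.smooth' t ht) fun x => ((h1 a haa t ht x).2).trans (b1 x)

theorem VF_props {k : ℕ} {T α a₁ lo hi X₀ : ℝ} {U e : ℝ → ℝ → ℝ → ℝ} (hk : 5 ≤ k) (hT : 0 < T)
    (ha : 0 ≤ a₁) (hα : 0 ≤ α) (hlo : 0 < lo) (hlh : lo ≤ hi) (hhi : hi ≤ 1) (hX : 0 ≤ X₀)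
    (h : UF k T α a₁ U e) : ∃ L : ℝ,
    (∀ a ∈ Icc (-a₁) a₁, ∀ t ∈ Icc 0 T, ∀ P, ‖VF k lo hi X₀ (U a) (e a) t P‖ ≤ L) ∧
    (∀ a ∈ Icc (-a₁) a₁, ∀ t ∈ Icc 0 T, ∀ P P',
      ‖VF k lo hi X₀ (U a) (e a) t P - VF k lo hi X₀ (U a) (e a) t P'‖ ≤ L * ‖P - P'‖) ∧
    (∀ a ∈ Icc (-a₁) a₁, ∀ a' ∈ Icc (-a₁) a₁, ∀ t ∈ Icc 0 T, ∀ P,
      ‖VF k lo hi X₀ (U a) (e a) t P - VF k lo hi X₀ (U a') (e a') t P‖ ≤ L * |a - a'|) ∧
    (∀ a ∈ Icc (-a₁) a₁, ∀ P, ContinuousOn (fun t => VF k lo hi X₀ (U a) (e a) t P) (Icc 0 T)) := by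
  obtain ⟨M, hM, hU⟩ := VFr_unif ha hα h
  obtain ⟨C₁, hC₁, hbf⟩ := bfn_lip hk M
  obtain ⟨CL, hCL⟩ := h.lip 0
  obtain ⟨K, hK⟩ : ∃ K, K = 2 / (k : ℝ) * lo ^ (2 / (k : ℝ) - 1) := ⟨_, rfl⟩
  have hK0 : 0 ≤ K := by
    rw [hK]
    exact mul_nonneg (VFr_s hk).1 (Real.rpow_nonneg hlo.le _)
  obtain ⟨C, hC⟩ : ∃ C, C = M * (K + 3) + 1 := ⟨_, rfl⟩
  have hC1 : 1 ≤ C := by
    rw [hC]
    have : 0 ≤ M * (K + 3) := by positivity
    linarith
  have hlm : ∀ s, lo ≤ clp lo hi s ∧ clp lo hi s ≤ 1 := fun s =>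
    ⟨(VFr_clp_mem hlh s).1, (VFr_clp_mem hlh s).2.trans hhi⟩
  have hl0 : ∀ s, 0 < clp lo hi s := fun s => lt_of_lt_of_le hlo (hlm s).1
  have hUc : ∀ a ∈ Icc (-a₁) a₁, ∀ t ∈ Icc 0 T, Continuous (U a t) ∧ Continuous (e a t) :=
    fun a haa t ht => ⟨((h.app a haa).smooth t ht).continuous,
      ((h.app a haa).smooth' t ht).continuous⟩
  have hlo2 : 0 < lo ^ 2 := by positivity
  have hlo4 : 0 < lo ^ 4 := by positivity
  obtain ⟨L, hL⟩ : ∃ L, L = (1 + C₁) / lo ^ 2 + (C₁ + 2 * (1 + C₁)) / lo ^ 4 * (2 * C) +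
    C₁ * |CL| / lo ^ 4 := ⟨_, rfl⟩
  have hp1 : 0 ≤ (1 + C₁) / lo ^ 2 := by positivity
  have hp2 : 0 ≤ (C₁ + 2 * (1 + C₁)) / lo ^ 4 * (2 * C) := by positivity
  have hp3 : 0 ≤ C₁ * |CL| / lo ^ 4 := by positivity
  -- bound of the functionals
  have hB : ∀ a ∈ Icc (-a₁) a₁, ∀ t ∈ Icc 0 T, ∀ P : ℝ × ℝ,
      |bfn k (clp lo hi P.1) (Wf k (U a t) (clp lo hi P.1) (clp (-X₀) X₀ P.2))
        (ef k (e a t) (clp lo hi P.1) (clp (-X₀) X₀ P.2))| ≤ C₁ ∧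
      |mfn k (clp lo hi P.1) (Wf k (U a t) (clp lo hi P.1) (clp (-X₀) X₀ P.2))
        (ef k (e a t) (clp lo hi P.1) (clp (-X₀) X₀ P.2))| ≤ C₁ := by
    intro a haa t ht P
    obtain ⟨⟨u0, u1⟩, ⟨v0, v1⟩⟩ := hU a haa t ht
    obtain ⟨c1, c2⟩ := hUc a haa t ht
    have h1 := hbf (clp lo hi P.1) (clp lo hi P.1)
      (Wf k (U a t) (clp lo hi P.1) (clp (-X₀) X₀ P.2))
      (Wf k (U a t) (clp lo hi P.1) (clp (-X₀) X₀ P.2))
      (ef k (e a t) (clp lo hi P.1) (clp (-X₀) X₀ P.2))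
      (ef k (e a t) (clp lo hi P.1) (clp (-X₀) X₀ P.2)) 0 (hl0 _).le (hlm _).2 (hl0 _).le
      (hlm _).2 le_rfl (by simp) (VFr_Wc k c1 _ _) (VFr_Wc k c1 _ _) (VFr_ec k c2 _ _)
      (VFr_ec k c2 _ _) (VFr_Wb hk u0 (hl0 _) (hlm _).2 _) (VFr_Wb hk u0 (hl0 _) (hlm _).2 _)
      (VFr_eb hk v0 (hl0 _) (hlm _).2 _) (VFr_eb hk v0 (hl0 _) (hlm _).2 _) (by simp) (by simp)
    exact ⟨h1.1, h1.2.1⟩
  refine ⟨L, ?_, ?_, ?_, ?_⟩
  · intro a haa t ht P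
    obtain ⟨h1, h2⟩ := hB a haa t ht P
    unfold VF
    rw [norm_prod_le_iff]
    constructor
    · have h3 := VFr_div1 hlo (hlm P.1).1 (N := -(bfn k (clp lo hi P.1)
        (Wf k (U a t) (clp lo hi P.1) (clp (-X₀) X₀ P.2))
        (ef k (e a t) (clp lo hi P.1) (clp (-X₀) X₀ P.2)))) (C := 1 + C₁) (by
          rw [abs_neg]
          linarith)
      rw [Real.norm_eq_abs]
      refine h3.trans ?_
      rw [hL]
      linarith
    · have h3 := VFr_div1 hlo (hlm P.1).1 (N := 1 + mfn k (clp lo hi P.1)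
        (Wf k (U a t) (clp lo hi P.1) (clp (-X₀) X₀ P.2))
        (ef k (e a t) (clp lo hi P.1) (clp (-X₀) X₀ P.2))) (C := 1 + C₁) (by
          refine (abs_add_le _ _).trans ?_
          rw [abs_one]
          linarith)
      rw [Real.norm_eq_abs]
      refine h3.trans ?_
      rw [hL]
      linarith
  · intro a haa t ht P P'
    obtain ⟨⟨u0, u1⟩, ⟨v0, v1⟩⟩ := hU a haa t ht
    obtain ⟨c1, c2⟩ := hUc a haa t ht
    obtain ⟨h1, h2⟩ := hB a haa t ht P'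
    obtain ⟨l, hl⟩ : ∃ l, l = clp lo hi P.1 := ⟨_, rfl⟩
    obtain ⟨l', hl'⟩ : ∃ l', l' = clp lo hi P'.1 := ⟨_, rfl⟩
    obtain ⟨x, hx⟩ : ∃ x, x = clp (-X₀) X₀ P.2 := ⟨_, rfl⟩
    obtain ⟨x', hx'⟩ : ∃ x', x' = clp (-X₀) X₀ P'.2 := ⟨_, rfl⟩
    have hle : |l - l'| ≤ |P.1 - P'.1| := by
      rw [hl, hl']
      exact VFr_clp_lip _ _ _ _
    have hxe : |x - x'| ≤ |P.2 - P'.2| := by
      rw [hx, hx']
      exact VFr_clp_lip _ _ _ _
    have hl1 := hlm P.1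
    have hl1' := hlm P'.1
    have hl2 := hl0 P.1
    have hl2' := hl0 P'.1
    rw [← hl] at hl1 hl2
    rw [← hl'] at hl1' hl2' h1 h2
    rw [← hx'] at h1 h2
    obtain ⟨d, hd⟩ : ∃ d, d = C * (|l - l'| + |x - x'|) := ⟨_, rfl⟩
    have hs0 : 0 ≤ |l - l'| + |x - x'| := by positivity
    have hld : |l - l'| ≤ d := by
      rw [hd]
      have h3 := mul_le_mul_of_nonneg_right hC1 hs0
      have h4 := abs_nonneg (x - x')
      linarith
    have hd0 : 0 ≤ d := (abs_nonneg _).trans hld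
    have hMC : M * (K + 3) ≤ C := by
      rw [hC]
      linarith
    have hMC' : M * (K + 1) ≤ C := by
      refine le_trans ?_ hMC
      exact mul_le_mul_of_nonneg_left (by linarith) hM
    have hW : ∀ y, |Wf k (U a t) l x y - Wf k (U a t) l' x' y| ≤ d * (1 + |y|) := by
      intro y
      have h3 := VFr_Wl hk hM hlo u0 u1 hl1.1 hl1'.1 hl1'.2 x x' y
      rw [← hK] at h3
      refine h3.trans ?_
      rw [hd]
      exact mul_le_mul_of_nonneg_right (mul_le_mul_of_nonneg_right hMC' hs0) (by positivity)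
    have hE : ∀ y, |ef k (e a t) l x y - ef k (e a t) l' x' y| ≤ d * (1 + |y|) := by
      intro y
      have h3 := VFr_el hk hM hlo v0 v1 hl1.1 hl1.2 hl1'.1 hl1'.2 x x' y
      rw [← hK] at h3
      refine h3.trans ?_
      rw [hd]
      exact mul_le_mul_of_nonneg_right (mul_le_mul_of_nonneg_right hMC hs0) (by positivity)
    obtain ⟨-, -, g3, g4⟩ := hbf l l' (Wf k (U a t) l x) (Wf k (U a t) l' x')
      (ef k (e a t) l x) (ef k (e a t) l' x') d hl2.le hl1.2 hl2'.le hl1'.2 hd0 hld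
      (VFr_Wc k c1 _ _) (VFr_Wc k c1 _ _) (VFr_ec k c2 _ _) (VFr_ec k c2 _ _)
      (VFr_Wb hk u0 hl2 hl1.2 _) (VFr_Wb hk u0 hl2' hl1'.2 _)
      (VFr_eb hk v0 hl2 hl1.2 _) (VFr_eb hk v0 hl2' hl1'.2 _) hW hE
    have hdP : d ≤ 2 * C * ‖P - P'‖ := by
      have n1 : |P.1 - P'.1| ≤ ‖P - P'‖ := norm_fst_le (P - P')
      have n2 : |P.2 - P'.2| ≤ ‖P - P'‖ := norm_snd_le (P - P')
      rw [hd]
      calc C * (|l - l'| + |x - x'|) ≤ C * (‖P - P'‖ + ‖P - P'‖) :=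
            mul_le_mul_of_nonneg_left (by linarith) (by linarith)
        _ = 2 * C * ‖P - P'‖ := by ring
    have hfin : (C₁ * d + 2 * (1 + C₁) * d) / lo ^ 4 ≤ L * ‖P - P'‖ := by
      calc (C₁ * d + 2 * (1 + C₁) * d) / lo ^ 4 = (C₁ + 2 * (1 + C₁)) / lo ^ 4 * d := by ring
        _ ≤ (C₁ + 2 * (1 + C₁)) / lo ^ 4 * (2 * C * ‖P - P'‖) :=
            mul_le_mul_of_nonneg_left hdP (by positivity)
        _ = (C₁ + 2 * (1 + C₁)) / lo ^ 4 * (2 * C) * ‖P - P'‖ := by ring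
        _ ≤ L * ‖P - P'‖ := by
            refine mul_le_mul_of_nonneg_right ?_ (norm_nonneg _)
            rw [hL]
            linarith
    unfold VF
    rw [← hl, ← hl', ← hx, ← hx']
    rw [Prod.mk_sub_mk, norm_prod_le_iff]
    constructor
    · rw [Real.norm_eq_abs]
      refine le_trans ?_ hfin
      refine VFr_div2 hlo hl1.1 hl1.2 hl1'.1 hl1'.2 ?_ ?_ hld
      · rw [abs_neg]
        linarith
      · rw [neg_sub_neg, abs_sub_comm]
        exact g3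
    · rw [Real.norm_eq_abs]
      refine le_trans ?_ hfin
      refine VFr_div2 hlo hl1.1 hl1.2 hl1'.1 hl1'.2 ?_ ?_ hld
      · refine (abs_add_le _ _).trans ?_
        rw [abs_one]
        linarith
      · rw [add_sub_add_left_eq_sub]
        exact g4
  · intro a haa a' haa' t ht P
    obtain ⟨⟨u0, u1⟩, ⟨v0, v1⟩⟩ := hU a haa t ht
    obtain ⟨⟨u0', u1'⟩, ⟨v0', v1'⟩⟩ := hU a' haa' t ht
    obtain ⟨c1, c2⟩ := hUc a haa t ht
    obtain ⟨c1', c2'⟩ := hUc a' haa' t ht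
    obtain ⟨h1, h2⟩ := hB a' haa' t ht P
    obtain ⟨l, hl⟩ : ∃ l, l = clp lo hi P.1 := ⟨_, rfl⟩
    obtain ⟨x, hx⟩ : ∃ x, x = clp (-X₀) X₀ P.2 := ⟨_, rfl⟩
    have hl1 := hlm P.1
    have hl2 := hl0 P.1
    rw [← hl] at hl1 hl2 h1 h2
    rw [← hx] at h1 h2
    obtain ⟨d, hd⟩ : ∃ d, d = |CL| * |a - a'| := ⟨_, rfl⟩
    have hd0 : 0 ≤ d := by
      rw [hd]
      positivity
    have hb : ∀ z, bd (α / 2) (1 / 16) z ≤ 1 := fun z =>
      bd_le_one (by linarith) (by norm_num) z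
    have hle : ∀ z, CL * |a - a'| * bd (α / 2) (1 / 16) z ≤ d := by
      intro z
      rw [hd]
      have q1 : CL * |a - a'| ≤ |CL| * |a - a'| :=
        mul_le_mul_of_nonneg_right (le_abs_self _) (abs_nonneg _)
      have q2 : 0 ≤ |CL| * |a - a'| := by positivity
      calc CL * |a - a'| * bd (α / 2) (1 / 16) z ≤ |CL| * |a - a'| * bd (α / 2) (1 / 16) z :=
            mul_le_mul_of_nonneg_right q1 (bd_pos _ _ _).le
        _ ≤ |CL| * |a - a'| * 1 := mul_le_mul_of_nonneg_left (hb z) q2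
        _ = |CL| * |a - a'| := mul_one _
    have hUa : ∀ z, |U a t z - U a' t z| ≤ d := by
      intro z
      have h3 := (hCL a haa a' haa' t ht z).1
      rw [iteratedDeriv_zero, iteratedDeriv_zero] at h3
      exact h3.trans (hle z)
    have hea : ∀ z, |e a t z - e a' t z| ≤ d := by
      intro z
      have h3 := (hCL a haa a' haa' t ht z).2
      rw [iteratedDeriv_zero, iteratedDeriv_zero] at h3
      exact h3.trans (hle z)
    have hy1 : ∀ y : ℝ, d ≤ d * (1 + |y|) := by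
      intro y
      have := mul_nonneg hd0 (abs_nonneg y)
      linarith
    have hWd : ∀ (g g' : ℝ → ℝ), (∀ z, |g z - g' z| ≤ d) → ∀ y,
        |Wf k g l x y - Wf k g' l x y| ≤ d := by
      intro g g' hgg y
      unfold Wf
      obtain ⟨p1, p2⟩ := VFr_pw (VFr_s hk).1 hl2 hl1.2
      rw [← mul_sub, abs_mul, abs_of_nonneg p1]
      calc l ^ (2 / (k : ℝ)) * |g (l * y + x) - g' (l * y + x)|
          ≤ 1 * |g (l * y + x) - g' (l * y + x)| :=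
            mul_le_mul_of_nonneg_right p2 (abs_nonneg _)
        _ ≤ d := by
            rw [one_mul]
            exact hgg _
    have hW : ∀ y, |Wf k (U a t) l x y - Wf k (U a' t) l x y| ≤ d * (1 + |y|) :=
      fun y => (hWd _ _ hUa y).trans (hy1 y)
    have hE : ∀ y, |ef k (e a t) l x y - ef k (e a' t) l x y| ≤ d * (1 + |y|) := by
      intro y
      refine le_trans ?_ (hy1 y)
      unfold ef
      rw [← mul_sub, abs_mul, abs_of_nonneg (sq_nonneg l)]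
      have b2 : l ^ 2 ≤ 1 := pow_le_one₀ hl2.le hl1.2
      calc l ^ 2 * |Wf k (e a t) l x y - Wf k (e a' t) l x y|
          ≤ 1 * |Wf k (e a t) l x y - Wf k (e a' t) l x y| :=
            mul_le_mul_of_nonneg_right b2 (abs_nonneg _)
        _ ≤ d := by
            rw [one_mul]
            exact hWd _ _ hea y
    obtain ⟨-, -, g3, g4⟩ := hbf l l (Wf k (U a t) l x) (Wf k (U a' t) l x)
      (ef k (e a t) l x) (ef k (e a' t) l x) d hl2.le hl1.2 hl2.le hl1.2 hd0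
      (by
        rw [sub_self, abs_zero]
        exact hd0)
      (VFr_Wc k c1 _ _) (VFr_Wc k c1' _ _) (VFr_ec k c2 _ _) (VFr_ec k c2' _ _)
      (VFr_Wb hk u0 hl2 hl1.2 _) (VFr_Wb hk u0' hl2 hl1.2 _)
      (VFr_eb hk v0 hl2 hl1.2 _) (VFr_eb hk v0' hl2 hl1.2 _) hW hE
    have hfin : (C₁ * d + 2 * (1 + C₁) * 0) / lo ^ 4 ≤ L * |a - a'| := by
      calc (C₁ * d + 2 * (1 + C₁) * 0) / lo ^ 4 = C₁ * |CL| / lo ^ 4 * |a - a'| := by
            rw [hd]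
            ring
        _ ≤ L * |a - a'| := by
            refine mul_le_mul_of_nonneg_right ?_ (abs_nonneg _)
            rw [hL]
            linarith
    have hll : |l - l| ≤ 0 := by simp
    unfold VF
    rw [← hl, ← hx]
    rw [Prod.mk_sub_mk, norm_prod_le_iff]
    constructor
    · rw [Real.norm_eq_abs]
      refine le_trans ?_ hfin
      refine VFr_div2 hlo hl1.1 hl1.2 hl1.1 hl1.2 ?_ ?_ hll
      · rw [abs_neg]
        linarith
      · rw [neg_sub_neg, abs_sub_comm]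
        exact g3
    · rw [Real.norm_eq_abs]
      refine le_trans ?_ hfin
      refine VFr_div2 hlo hl1.1 hl1.2 hl1.1 hl1.2 ?_ ?_ hll
      · refine (abs_add_le _ _).trans ?_
        rw [abs_one]
        linarith
      · rw [add_sub_add_left_eq_sub]
        exact g4
  · intro a haa P
    obtain ⟨l, hl⟩ : ∃ l, l = clp lo hi P.1 := ⟨_, rfl⟩
    obtain ⟨x, hx⟩ : ∃ x, x = clp (-X₀) X₀ P.2 := ⟨_, rfl⟩
    have hl1 := hlm P.1
    have hl2 := hl0 P.1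
    rw [← hl] at hl1 hl2
    have hA := h.app a haa
    obtain ⟨q1, q2⟩ := bfn_cont hk (Icc 0 T) l M (fun t => Wf k (U a t) l x)
      (fun t => ef k (e a t) l x)
      (fun t ht => VFr_Wc k (hUc a haa t ht).1 _ _) (fun t ht => VFr_ec k (hUc a haa t ht).2 _ _)
      (fun t ht => VFr_Wb hk (hU a haa t ht).1.1 hl2 hl1.2 _)
      (fun t ht => VFr_eb hk (hU a haa t ht).2.1 hl2 hl1.2 _)
      (fun y => by
        have h3 := hA.cont 0 (l * y + x)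
        simp only [iteratedDeriv_zero] at h3
        unfold Wf
        exact continuousOn_const.mul h3)
      (fun y => by
        have h3 := hA.cont' 0 (l * y + x)
        simp only [iteratedDeriv_zero] at h3
        unfold ef Wf
        exact continuousOn_const.mul (continuousOn_const.mul h3))
    unfold VF
    rw [← hl, ← hx]
    exact (q1.neg.div_const _).prodMk ((continuousOn_const.add q2).div_const _)

theorem traj_exists {k : ℕ} {T α a₁ lo hi X₀ : ℝ} {U e : ℝ → ℝ → ℝ → ℝ} (l₀ : ℝ) (hk : 5 ≤ k)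
    (hT : 0 < T) (ha : 0 ≤ a₁) (hα : 0 ≤ α) (hlo : 0 < lo) (hlh : lo ≤ hi) (hhi : hi ≤ 1)
    (hX : 0 ≤ X₀) (h : UF k T α a₁ U e) : ∃ P, Traj k T a₁ l₀ lo hi X₀ U e P := by
  obtain ⟨L, h1, h2, h3, h4⟩ := VF_props hk hT ha hα hlo hlh hhi hX h
  obtain ⟨P, p1, p2, p3⟩ := ode_family T a₁ L hT
    (fun a t P => VF k lo hi X₀ (U a) (e a) t P) (l₀, 0) h1 h2 h3 h4
  exact ⟨P, ⟨p1, p2, p3⟩⟩

end H72KB

end S_H72_KB_VFr

section S_H72_KC_VFg

/-!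
# The clipped vector field is bounded, Lipschitz, continuous in time; existence of the trajectory
(generic test function `φ`, single solution; copy of `KB/VFr`)
-/

open MeasureTheory Filter Topology Set
open scoped ContDiff

namespace H72KC

open H98KB H72KB

theorem VFg_s {k : ℕ} (hk : 2 ≤ k) : 0 ≤ 2 / (k : ℝ) ∧ 2 / (k : ℝ) ≤ 1 := by
  have h5 : (2 : ℝ) ≤ (k : ℝ) := by exact_mod_cast hk
  refine ⟨by positivity, ?_⟩
  rw [div_le_one (by linarith)]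
  linarith

theorem VFg_Wb {k : ℕ} (hk : 2 ≤ k) {g : ℝ → ℝ} {M : ℝ} (h0 : ∀ x, |g x| ≤ M) {l : ℝ}
    (hl : 0 < l) (hl1 : l ≤ 1) (x y : ℝ) : |Wf k g l x y| ≤ M := by
  unfold Wf
  obtain ⟨h1, h2⟩ := VFr_pw (VFg_s hk).1 hl hl1
  rw [abs_mul, abs_of_nonneg h1]
  calc l ^ (2 / (k : ℝ)) * |g (l * y + x)| ≤ 1 * |g (l * y + x)| :=
        mul_le_mul_of_nonneg_right h2 (abs_nonneg _)
    _ ≤ M := by
        rw [one_mul]
        exact h0 _

theorem VFg_eb {k : ℕ} (hk : 2 ≤ k) {g : ℝ → ℝ} {M : ℝ} (h0 : ∀ x, |g x| ≤ M) {l : ℝ}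
    (hl : 0 < l) (hl1 : l ≤ 1) (x y : ℝ) : |ef k g l x y| ≤ M := by
  unfold ef
  have h1 := VFg_Wb hk h0 hl hl1 x y
  have h2 : l ^ 2 ≤ 1 := pow_le_one₀ hl.le hl1
  rw [abs_mul, abs_of_nonneg (sq_nonneg l)]
  calc l ^ 2 * |Wf k g l x y| ≤ 1 * |Wf k g l x y| :=
        mul_le_mul_of_nonneg_right h2 (abs_nonneg _)
    _ ≤ M := by
        rw [one_mul]
        exact h1

theorem VFg_Wl {k : ℕ} (hk : 2 ≤ k) {g : ℝ → ℝ} {M lo : ℝ} (hM : 0 ≤ M) (hlo : 0 < lo)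
    (h0 : ∀ x, |g x| ≤ M) (h1 : ∀ x x', |g x - g x'| ≤ M * |x - x'|) {l l' : ℝ} (hl : lo ≤ l)
    (hl' : lo ≤ l') (hl1' : l' ≤ 1) (x x' y : ℝ) :
    |Wf k g l x y - Wf k g l' x' y| ≤
      M * (2 / (k : ℝ) * lo ^ (2 / (k : ℝ) - 1) + 1) * (|l - l'| + |x - x'|) * (1 + |y|) := by
  obtain ⟨hs0, hs1⟩ := VFg_s hk
  obtain ⟨h2, h3⟩ := VFr_pw hs0 (lt_of_lt_of_le hlo hl') hl1'
  have h4 := VFr_rpow hs0 hs1 hlo hl hl'
  obtain ⟨K, hK⟩ : ∃ K, K = 2 / (k : ℝ) * lo ^ (2 / (k : ℝ) - 1) := ⟨_, rfl⟩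
  have hK0 : 0 ≤ K := by
    rw [hK]
    exact mul_nonneg hs0 (Real.rpow_nonneg hlo.le _)
  rw [← hK] at h4 ⊢
  unfold Wf
  have e : l ^ (2 / (k : ℝ)) * g (l * y + x) - l' ^ (2 / (k : ℝ)) * g (l' * y + x') =
      (l ^ (2 / (k : ℝ)) - l' ^ (2 / (k : ℝ))) * g (l * y + x) +
        l' ^ (2 / (k : ℝ)) * (g (l * y + x) - g (l' * y + x')) := by ring
  rw [e]
  have a1 : |(l ^ (2 / (k : ℝ)) - l' ^ (2 / (k : ℝ))) * g (l * y + x)| ≤ K * |l - l'| * M := by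
    rw [abs_mul]
    exact mul_le_mul h4 (h0 _) (abs_nonneg _) (by positivity)
  have a2 : |l * y + x - (l' * y + x')| ≤ |l - l'| * |y| + |x - x'| := by
    have e2 : l * y + x - (l' * y + x') = (l - l') * y + (x - x') := by ring
    rw [e2, ← abs_mul]
    exact abs_add_le _ _
  have a3 : |l' ^ (2 / (k : ℝ)) * (g (l * y + x) - g (l' * y + x'))| ≤
      M * (|l - l'| * |y| + |x - x'|) := by
    rw [abs_mul, abs_of_nonneg h2]
    calc l' ^ (2 / (k : ℝ)) * |g (l * y + x) - g (l' * y + x')|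
        ≤ 1 * |g (l * y + x) - g (l' * y + x')| :=
          mul_le_mul_of_nonneg_right h3 (abs_nonneg _)
      _ ≤ M * |l * y + x - (l' * y + x')| := by
          rw [one_mul]
          exact h1 _ _
      _ ≤ M * (|l - l'| * |y| + |x - x'|) := mul_le_mul_of_nonneg_left a2 hM
  refine (abs_add_le _ _).trans ((add_le_add a1 a3).trans ?_)
  obtain ⟨A, hA⟩ : ∃ A, A = |l - l'| := ⟨_, rfl⟩
  obtain ⟨B, hB⟩ : ∃ B, B = |x - x'| := ⟨_, rfl⟩
  obtain ⟨Y, hY⟩ : ∃ Y, Y = |y| := ⟨_, rfl⟩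
  have hA0 : 0 ≤ A := by
    rw [hA]
    exact abs_nonneg _
  have hB0 : 0 ≤ B := by
    rw [hB]
    exact abs_nonneg _
  have hY0 : 0 ≤ Y := by
    rw [hY]
    exact abs_nonneg _
  rw [← hA, ← hB, ← hY]
  have e3 : M * (K + 1) * (A + B) * (1 + Y) - (K * A * M + M * (A * Y + B)) =
      M * (K * A * Y + K * B + K * B * Y + A + B * Y) := by ring
  have h5 : 0 ≤ M * (K * A * Y + K * B + K * B * Y + A + B * Y) := by positivity
  linarith

theorem VFg_el {k : ℕ} (hk : 2 ≤ k) {g : ℝ → ℝ} {M lo : ℝ} (hM : 0 ≤ M) (hlo : 0 < lo)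
    (h0 : ∀ x, |g x| ≤ M) (h1 : ∀ x x', |g x - g x'| ≤ M * |x - x'|) {l l' : ℝ} (hl : lo ≤ l)
    (hl1 : l ≤ 1) (hl' : lo ≤ l') (hl1' : l' ≤ 1) (x x' y : ℝ) :
    |ef k g l x y - ef k g l' x' y| ≤
      M * (2 / (k : ℝ) * lo ^ (2 / (k : ℝ) - 1) + 3) * (|l - l'| + |x - x'|) * (1 + |y|) := by
  have h2 := VFg_Wl hk hM hlo h0 h1 hl hl' hl1' x x' y
  have h3 := VFg_Wb hk h0 (lt_of_lt_of_le hlo hl) hl1 x y
  obtain ⟨K, hK⟩ : ∃ K, K = 2 / (k : ℝ) * lo ^ (2 / (k : ℝ) - 1) := ⟨_, rfl⟩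
  rw [← hK] at h2 ⊢
  unfold ef
  have e : l ^ 2 * Wf k g l x y - l' ^ 2 * Wf k g l' x' y =
      (l - l') * (l + l') * Wf k g l x y + l' ^ 2 * (Wf k g l x y - Wf k g l' x' y) := by ring
  rw [e]
  have a1 : |(l - l') * (l + l') * Wf k g l x y| ≤ |l - l'| * 2 * M := by
    rw [abs_mul, abs_mul]
    have b1 : |l + l'| ≤ 2 := by
      rw [abs_of_nonneg (by linarith)]
      linarith
    exact mul_le_mul (mul_le_mul_of_nonneg_left b1 (abs_nonneg _)) h3 (abs_nonneg _)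
      (by positivity)
  have a2 : |l' ^ 2 * (Wf k g l x y - Wf k g l' x' y)| ≤ |Wf k g l x y - Wf k g l' x' y| := by
    rw [abs_mul, abs_of_nonneg (sq_nonneg l')]
    have b2 : l' ^ 2 ≤ 1 := pow_le_one₀ (by linarith) hl1'
    calc l' ^ 2 * |Wf k g l x y - Wf k g l' x' y| ≤ 1 * |Wf k g l x y - Wf k g l' x' y| :=
          mul_le_mul_of_nonneg_right b2 (abs_nonneg _)
      _ = _ := one_mul _
  refine (abs_add_le _ _).trans ((add_le_add a1 (a2.trans h2)).trans ?_)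
  obtain ⟨A, hA⟩ : ∃ A, A = |l - l'| := ⟨_, rfl⟩
  obtain ⟨B, hB⟩ : ∃ B, B = |x - x'| := ⟨_, rfl⟩
  obtain ⟨Y, hY⟩ : ∃ Y, Y = |y| := ⟨_, rfl⟩
  have hA0 : 0 ≤ A := by
    rw [hA]
    exact abs_nonneg _
  have hB0 : 0 ≤ B := by
    rw [hB]
    exact abs_nonneg _
  have hY0 : 0 ≤ Y := by
    rw [hY]
    exact abs_nonneg _
  rw [← hA, ← hB, ← hY]
  have e3 : M * (K + 3) * (A + B) * (1 + Y) - (A * 2 * M + M * (K + 1) * (A + B) * (1 + Y)) =
      M * (2 * A * Y + 2 * B + 2 * B * Y) := by ring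
  have h5 : 0 ≤ M * (2 * A * Y + 2 * B + 2 * B * Y) := by positivity
  linarith

/-- the single solution as a (trivial) family -/
theorem uf_of_app {k : ℕ} {T α : ℝ} {U e : ℝ → ℝ → ℝ} (h : App k T α U e) :
    UF k T α 0 (fun _ => U) (fun _ => e) := by
  refine ⟨fun _ _ => h, fun j => ⟨0, fun a _ a' _ t _ x => ?_⟩⟩
  simp

theorem app_bound {k : ℕ} {T α : ℝ} {U e : ℝ → ℝ → ℝ} (h : App k T α U e) (j : ℕ) :
    ∃ C : ℝ, 0 ≤ C ∧ ∀ t ∈ Icc 0 T, ∀ x, |iteratedDeriv j (U t) x| ≤ C * bd (α / 2) (1 / 16) x ∧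
      |iteratedDeriv j (e t) x| ≤ C * bd (α / 2) (1 / 16) x := by
  obtain ⟨C, hC, h1⟩ := UF_bound le_rfl (uf_of_app h) j
  exact ⟨C, hC, fun t ht x => h1 0 ⟨by simp, le_rfl⟩ t ht x⟩

theorem app_jc {k : ℕ} {T α : ℝ} {U e : ℝ → ℝ → ℝ} (hα : 0 ≤ α) (h : App k T α U e) (j : ℕ) :
    ContinuousOn (fun z : ℝ × ℝ => iteratedDeriv j (U z.1) z.2) (Icc 0 T ×ˢ univ) ∧
    ContinuousOn (fun z : ℝ × ℝ => iteratedDeriv j (e z.1) z.2) (Icc 0 T ×ˢ univ) := by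
  obtain ⟨h1, h2⟩ := UF_jc hα le_rfl (uf_of_app h) j
  constructor
  · refine h1.comp (f := fun z : ℝ × ℝ => ((0, z.1, z.2) : ℝ × ℝ × ℝ)) (by fun_prop) ?_
    rintro ⟨s, w⟩ ⟨hs, hw⟩
    exact ⟨⟨by simp, le_rfl⟩, hs, hw⟩
  · refine h2.comp (f := fun z : ℝ × ℝ => ((0, z.1, z.2) : ℝ × ℝ × ℝ)) (by fun_prop) ?_
    rintro ⟨s, w⟩ ⟨hs, hw⟩
    exact ⟨⟨by simp, le_rfl⟩, hs, hw⟩

theorem app_unif {k : ℕ} {T α : ℝ} {U e : ℝ → ℝ → ℝ} (hα : 0 ≤ α)
    (h : App k T α U e) : ∃ M : ℝ, 0 ≤ M ∧ ∀ t ∈ Icc 0 T,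
      ((∀ x, |U t x| ≤ M) ∧ (∀ x x', |U t x - U t x'| ≤ M * |x - x'|)) ∧
      ((∀ x, |e t x| ≤ M) ∧ (∀ x x', |e t x - e t x'| ≤ M * |x - x'|)) := by
  obtain ⟨M, hM, h1⟩ := VFr_unif le_rfl hα (uf_of_app h)
  exact ⟨M, hM, fun t ht => h1 0 ⟨by simp, le_rfl⟩ t ht⟩

theorem VG_props {k : ℕ} {φ : ℝ → ℝ} {d T α lo hi X₀ : ℝ} {U e : ℝ → ℝ → ℝ} (hk : 2 ≤ k)
    (hφ : Cl 1 1 φ) (hd : 0 < d) (hα : 0 ≤ α) (hlo : 0 < lo) (hlh : lo ≤ hi)
    (hhi : hi ≤ 1) (h : App k T α U e) : ∃ L : ℝ,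
    (∀ t ∈ Icc 0 T, ∀ P, ‖VG k φ d lo hi X₀ U e t P‖ ≤ L) ∧
    (∀ t ∈ Icc 0 T, ∀ P P',
      ‖VG k φ d lo hi X₀ U e t P - VG k φ d lo hi X₀ U e t P'‖ ≤ L * ‖P - P'‖) ∧
    (∀ P, ContinuousOn (fun t => VG k φ d lo hi X₀ U e t P) (Icc 0 T)) := by
  obtain ⟨M, hM, hU⟩ := app_unif hα h
  obtain ⟨C₁, hC₁, hbf⟩ := wfn_lip (show 1 ≤ k by omega) hφ hd M
  obtain ⟨K, hK⟩ : ∃ K, K = 2 / (k : ℝ) * lo ^ (2 / (k : ℝ) - 1) := ⟨_, rfl⟩
  have hK0 : 0 ≤ K := by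
    rw [hK]
    exact mul_nonneg (VFg_s hk).1 (Real.rpow_nonneg hlo.le _)
  obtain ⟨C, hC⟩ : ∃ C, C = M * (K + 3) + 1 := ⟨_, rfl⟩
  have hC1 : 1 ≤ C := by
    rw [hC]
    have : 0 ≤ M * (K + 3) := by positivity
    linarith
  have hlm : ∀ s, lo ≤ clp lo hi s ∧ clp lo hi s ≤ 1 := fun s =>
    ⟨(VFr_clp_mem hlh s).1, (VFr_clp_mem hlh s).2.trans hhi⟩
  have hl0 : ∀ s, 0 < clp lo hi s := fun s => lt_of_lt_of_le hlo (hlm s).1
  have hUc : ∀ t ∈ Icc 0 T, Continuous (U t) ∧ Continuous (e t) :=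
    fun t ht => ⟨(h.smooth t ht).continuous, (h.smooth' t ht).continuous⟩
  have hlo2 : 0 < lo ^ 2 := by positivity
  have hlo4 : 0 < lo ^ 4 := by positivity
  obtain ⟨L, hL⟩ : ∃ L, L = (1 + C₁) / lo ^ 2 + (C₁ + 2 * (1 + C₁)) / lo ^ 4 * (2 * C) :=
    ⟨_, rfl⟩
  have hp1 : 0 ≤ (1 + C₁) / lo ^ 2 := by positivity
  have hp2 : 0 ≤ (C₁ + 2 * (1 + C₁)) / lo ^ 4 * (2 * C) := by positivity
  -- bound of the functionals
  have hB : ∀ t ∈ Icc 0 T, ∀ P : ℝ × ℝ,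
      |wfn k φ d (clp lo hi P.1) (Wf k (U t) (clp lo hi P.1) (clp (-X₀) X₀ P.2))
        (ef k (e t) (clp lo hi P.1) (clp (-X₀) X₀ P.2))| ≤ C₁ ∧
      |nfn k φ d (clp lo hi P.1) (Wf k (U t) (clp lo hi P.1) (clp (-X₀) X₀ P.2))
        (ef k (e t) (clp lo hi P.1) (clp (-X₀) X₀ P.2))| ≤ C₁ := by
    intro t ht P
    obtain ⟨⟨u0, u1⟩, ⟨v0, v1⟩⟩ := hU t ht
    obtain ⟨c1, c2⟩ := hUc t ht
    have h1 := hbf (clp lo hi P.1) (clp lo hi P.1)
      (Wf k (U t) (clp lo hi P.1) (clp (-X₀) X₀ P.2))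
      (Wf k (U t) (clp lo hi P.1) (clp (-X₀) X₀ P.2))
      (ef k (e t) (clp lo hi P.1) (clp (-X₀) X₀ P.2))
      (ef k (e t) (clp lo hi P.1) (clp (-X₀) X₀ P.2)) 0 (hl0 _).le (hlm _).2 (hl0 _).le
      (hlm _).2 le_rfl (by simp) (VFr_Wc k c1 _ _) (VFr_Wc k c1 _ _) (VFr_ec k c2 _ _)
      (VFr_ec k c2 _ _) (VFg_Wb hk u0 (hl0 _) (hlm _).2 _) (VFg_Wb hk u0 (hl0 _) (hlm _).2 _)
      (VFg_eb hk v0 (hl0 _) (hlm _).2 _) (VFg_eb hk v0 (hl0 _) (hlm _).2 _) (by simp) (by simp)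
    exact ⟨h1.1, h1.2.1⟩
  refine ⟨L, ?_, ?_, ?_⟩
  · intro t ht P
    obtain ⟨h1, h2⟩ := hB t ht P
    unfold VG
    rw [norm_prod_le_iff]
    constructor
    · have h3 := VFr_div1 hlo (hlm P.1).1 (N := -(wfn k φ d (clp lo hi P.1)
        (Wf k (U t) (clp lo hi P.1) (clp (-X₀) X₀ P.2))
        (ef k (e t) (clp lo hi P.1) (clp (-X₀) X₀ P.2)))) (C := 1 + C₁) (by
          rw [abs_neg]
          linarith)
      rw [Real.norm_eq_abs]
      refine h3.trans ?_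
      rw [hL]
      linarith
    · have h3 := VFr_div1 hlo (hlm P.1).1 (N := 1 + nfn k φ d (clp lo hi P.1)
        (Wf k (U t) (clp lo hi P.1) (clp (-X₀) X₀ P.2))
        (ef k (e t) (clp lo hi P.1) (clp (-X₀) X₀ P.2))) (C := 1 + C₁) (by
          refine (abs_add_le _ _).trans ?_
          rw [abs_one]
          linarith)
      rw [Real.norm_eq_abs]
      refine h3.trans ?_
      rw [hL]
      linarith
  · intro t ht P P'
    obtain ⟨⟨u0, u1⟩, ⟨v0, v1⟩⟩ := hU t ht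
    obtain ⟨c1, c2⟩ := hUc t ht
    obtain ⟨h1, h2⟩ := hB t ht P'
    obtain ⟨l, hl⟩ : ∃ l, l = clp lo hi P.1 := ⟨_, rfl⟩
    obtain ⟨l', hl'⟩ : ∃ l', l' = clp lo hi P'.1 := ⟨_, rfl⟩
    obtain ⟨x, hx⟩ : ∃ x, x = clp (-X₀) X₀ P.2 := ⟨_, rfl⟩
    obtain ⟨x', hx'⟩ : ∃ x', x' = clp (-X₀) X₀ P'.2 := ⟨_, rfl⟩
    have hle : |l - l'| ≤ |P.1 - P'.1| := by
      rw [hl, hl']
      exact VFr_clp_lip _ _ _ _
    have hxe : |x - x'| ≤ |P.2 - P'.2| := by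
      rw [hx, hx']
      exact VFr_clp_lip _ _ _ _
    have hl1 := hlm P.1
    have hl1' := hlm P'.1
    have hl2 := hl0 P.1
    have hl2' := hl0 P'.1
    rw [← hl] at hl1 hl2
    rw [← hl'] at hl1' hl2' h1 h2
    rw [← hx'] at h1 h2
    obtain ⟨dd, hdd⟩ : ∃ dd, dd = C * (|l - l'| + |x - x'|) := ⟨_, rfl⟩
    have hs0 : 0 ≤ |l - l'| + |x - x'| := by positivity
    have hld : |l - l'| ≤ dd := by
      rw [hdd]
      have h3 := mul_le_mul_of_nonneg_right hC1 hs0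
      have h4 := abs_nonneg (x - x')
      linarith
    have hd0 : 0 ≤ dd := (abs_nonneg _).trans hld
    have hMC : M * (K + 3) ≤ C := by
      rw [hC]
      linarith
    have hMC' : M * (K + 1) ≤ C := by
      refine le_trans ?_ hMC
      exact mul_le_mul_of_nonneg_left (by linarith) hM
    have hW : ∀ y, |Wf k (U t) l x y - Wf k (U t) l' x' y| ≤ dd * (1 + |y|) := by
      intro y
      have h3 := VFg_Wl hk hM hlo u0 u1 hl1.1 hl1'.1 hl1'.2 x x' y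
      rw [← hK] at h3
      refine h3.trans ?_
      rw [hdd]
      exact mul_le_mul_of_nonneg_right (mul_le_mul_of_nonneg_right hMC' hs0) (by positivity)
    have hE : ∀ y, |ef k (e t) l x y - ef k (e t) l' x' y| ≤ dd * (1 + |y|) := by
      intro y
      have h3 := VFg_el hk hM hlo v0 v1 hl1.1 hl1.2 hl1'.1 hl1'.2 x x' y
      rw [← hK] at h3
      refine h3.trans ?_
      rw [hdd]
      exact mul_le_mul_of_nonneg_right (mul_le_mul_of_nonneg_right hMC hs0) (by positivity)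
    obtain ⟨-, -, g3, g4⟩ := hbf l l' (Wf k (U t) l x) (Wf k (U t) l' x')
      (ef k (e t) l x) (ef k (e t) l' x') dd hl2.le hl1.2 hl2'.le hl1'.2 hd0 hld
      (VFr_Wc k c1 _ _) (VFr_Wc k c1 _ _) (VFr_ec k c2 _ _) (VFr_ec k c2 _ _)
      (VFg_Wb hk u0 hl2 hl1.2 _) (VFg_Wb hk u0 hl2' hl1'.2 _)
      (VFg_eb hk v0 hl2 hl1.2 _) (VFg_eb hk v0 hl2' hl1'.2 _) hW hE
    have hdP : dd ≤ 2 * C * ‖P - P'‖ := by
      have n1 : |P.1 - P'.1| ≤ ‖P - P'‖ := norm_fst_le (P - P')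
      have n2 : |P.2 - P'.2| ≤ ‖P - P'‖ := norm_snd_le (P - P')
      rw [hdd]
      calc C * (|l - l'| + |x - x'|) ≤ C * (‖P - P'‖ + ‖P - P'‖) :=
            mul_le_mul_of_nonneg_left (by linarith) (by linarith)
        _ = 2 * C * ‖P - P'‖ := by ring
    have hfin : (C₁ * dd + 2 * (1 + C₁) * dd) / lo ^ 4 ≤ L * ‖P - P'‖ := by
      calc (C₁ * dd + 2 * (1 + C₁) * dd) / lo ^ 4 = (C₁ + 2 * (1 + C₁)) / lo ^ 4 * dd := by ring
        _ ≤ (C₁ + 2 * (1 + C₁)) / lo ^ 4 * (2 * C * ‖P - P'‖) :=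
            mul_le_mul_of_nonneg_left hdP (by positivity)
        _ = (C₁ + 2 * (1 + C₁)) / lo ^ 4 * (2 * C) * ‖P - P'‖ := by ring
        _ ≤ L * ‖P - P'‖ := by
            refine mul_le_mul_of_nonneg_right ?_ (norm_nonneg _)
            rw [hL]
            linarith
    unfold VG
    rw [← hl, ← hl', ← hx, ← hx']
    rw [Prod.mk_sub_mk, norm_prod_le_iff]
    constructor
    · rw [Real.norm_eq_abs]
      refine le_trans ?_ hfin
      refine VFr_div2 hlo hl1.1 hl1.2 hl1'.1 hl1'.2 ?_ ?_ hld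
      · rw [abs_neg]
        linarith
      · rw [neg_sub_neg, abs_sub_comm]
        exact g3
    · rw [Real.norm_eq_abs]
      refine le_trans ?_ hfin
      refine VFr_div2 hlo hl1.1 hl1.2 hl1'.1 hl1'.2 ?_ ?_ hld
      · refine (abs_add_le _ _).trans ?_
        rw [abs_one]
        linarith
      · rw [add_sub_add_left_eq_sub]
        exact g4
  · intro P
    obtain ⟨l, hl⟩ : ∃ l, l = clp lo hi P.1 := ⟨_, rfl⟩
    obtain ⟨x, hx⟩ : ∃ x, x = clp (-X₀) X₀ P.2 := ⟨_, rfl⟩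
    have hl1 := hlm P.1
    have hl2 := hl0 P.1
    rw [← hl] at hl1 hl2
    obtain ⟨q1, q2⟩ := wfn_cont (show 1 ≤ k by omega) hφ hd (Icc 0 T) l M (fun t => Wf k (U t) l x)
      (fun t => ef k (e t) l x)
      (fun t ht => VFr_Wc k (hUc t ht).1 _ _) (fun t ht => VFr_ec k (hUc t ht).2 _ _)
      (fun t ht => VFg_Wb hk (hU t ht).1.1 hl2 hl1.2 _)
      (fun t ht => VFg_eb hk (hU t ht).2.1 hl2 hl1.2 _)
      (fun y => by
        have h3 := h.cont 0 (l * y + x)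
        simp only [iteratedDeriv_zero] at h3
        unfold Wf
        exact continuousOn_const.mul h3)
      (fun y => by
        have h3 := h.cont' 0 (l * y + x)
        simp only [iteratedDeriv_zero] at h3
        unfold ef Wf
        exact continuousOn_const.mul (continuousOn_const.mul h3))
    unfold VG
    rw [← hl, ← hx]
    exact (q1.neg.div_const _).prodMk ((continuousOn_const.add q2).div_const _)

theorem tr_exists {k : ℕ} {φ : ℝ → ℝ} {d T α lo hi X₀ : ℝ} {U e : ℝ → ℝ → ℝ} (l₀ : ℝ)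
    (hk : 2 ≤ k) (hφ : Cl 1 1 φ) (hd : 0 < d) (hT : 0 < T) (hα : 0 ≤ α) (hlo : 0 < lo)
    (hlh : lo ≤ hi) (hhi : hi ≤ 1) (h : App k T α U e) :
    ∃ P L, Tr k φ d T l₀ lo hi X₀ U e P ∧
      ∀ t ∈ Icc 0 T, ∀ P, ‖VG k φ d lo hi X₀ U e t P‖ ≤ L := by
  obtain ⟨L, h1, h2, h4⟩ := VG_props (X₀ := X₀) hk hφ hd hα hlo hlh hhi h
  have hL : 0 ≤ L := le_trans (norm_nonneg _) (h1 0 ⟨le_rfl, hT.le⟩ (l₀, 0))
  lift L to NNReal using hL
  obtain ⟨P, p1, p2⟩ := OdeAbs_exists T L hT (fun t P => VG k φ d lo hi X₀ U e t P) (l₀, 0)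
    h1 h2 h4
  exact ⟨P, L, ⟨p1, fun t ht => (p2 t ht).continuousWithinAt,
    fun t ht => (p2 t ⟨ht.1.le, ht.2.le⟩).hasDerivAt (Icc_mem_nhds ht.1 ht.2)⟩, h1⟩

end H72KC

end S_H72_KC_VFg

section S_H72_KC_Flg

/-!
# Along the trajectory, near a time where the clips are inactive, `W - Q` is a `Flow` (with `R = 0`)
(generic test function, single solution; copy of `KB/FlowR`)
-/

open MeasureTheory Filter Topology Set
open scoped ContDiff

namespace H72KC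

open H98KB H72KB

theorem Flg_pow {k : ℕ} (hk : 1 ≤ k) {l : ℝ} (hl : 0 < l) :
    (l ^ (2 / (k : ℝ))) ^ (k + 1) = l ^ (2 / (k : ℝ)) * l ^ 2 := by
  have hk0 : (k : ℝ) ≠ 0 := by
    have : k ≠ 0 := by omega
    exact_mod_cast this
  rw [pow_succ, ← Real.rpow_natCast (l ^ (2 / (k : ℝ))) k, ← Real.rpow_mul hl.le]
  have e : 2 / (k : ℝ) * (k : ℝ) = 2 := by field_simp
  rw [e, mul_comm]
  norm_num

theorem Flg_fl {k : ℕ} (hk : 1 ≤ k) {l : ℝ} (hl : 0 < l) (v : ℝ) :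
    fl k (l ^ (2 / (k : ℝ)) * v) = l ^ (2 / (k : ℝ)) * l ^ 2 * fl k v := by
  unfold fl
  rw [mul_pow, Flg_pow hk hl]
  ring

theorem Flg_gf {k : ℕ} (hk : 1 ≤ k) {U : ℝ → ℝ} (hU : ContDiff ℝ ∞ U) {l : ℝ} (hl : 0 < l)
    (x : ℝ) : gf k (epf k U l x) = fun y =>
      -(l ^ (2 / (k : ℝ)) * l ^ 2 * iteratedDeriv 2 U (l * y + x))
        + l ^ (2 / (k : ℝ)) * U (l * y + x)
        - l ^ (2 / (k : ℝ)) * l ^ 2 * fl k (U (l * y + x)) := by
  funext y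
  have hk1 : 1 ≤ k := by omega
  have hQ := qbas_smooth hk1
  have hW : ContDiff ℝ ∞ (Wf k U l x) := contDiff_const.mul (FlowR_sm hU l x)
  have e1 : deriv (deriv (epf k U l x)) y =
      l ^ (2 / (k : ℝ)) * l ^ 2 * iteratedDeriv 2 U (l * y + x) -
        (Qf k y - fl k (Qf k y)) := by
    have e2 : deriv (deriv (epf k U l x)) y = iteratedDeriv 2 (epf k U l x) y := by
      rw [iteratedDeriv_succ, iteratedDeriv_one]
    have e3 : iteratedDeriv 2 (Qf k) y = deriv (deriv (Qf k)) y := by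
      rw [iteratedDeriv_succ, iteratedDeriv_one]
    have e4 : iteratedDeriv 2 (epf k U l x) y =
        iteratedDeriv 2 (Wf k U l x) y - iteratedDeriv 2 (Qf k) y :=
      iteratedDeriv_fun_sub (ClB_at hW 2 y) (ClB_at hQ 2 y)
    rw [e2, e4, e3, Q_ode hk1, iter_Wf hU]
  have e5 : Df k (epf k U l x) y = l ^ (2 / (k : ℝ)) * l ^ 2 * fl k (U (l * y + x)) -
      fl k (Qf k y) := by
    unfold Df
    have e6 : Qf k y + epf k U l x y = l ^ (2 / (k : ℝ)) * U (l * y + x) := by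
      unfold epf Wf
      ring
    rw [e6, Flg_fl hk hl]
  unfold gf
  rw [e1, e5]
  unfold epf Wf
  ring

theorem Flg_zeta {k : ℕ} (hk : 1 ≤ k) {U E : ℝ → ℝ} (hU : ContDiff ℝ ∞ U)
    (hE : ContDiff ℝ ∞ E) (b m : ℝ) {l : ℝ} (hl : 0 < l) (x : ℝ) :
    zeta k b m l (epf k U l x) (ef k E l x) = fun y =>
      ((l ^ (2 / (k : ℝ)) * l ^ 3) * FlowR_H k U E (l * y + x)
        + ((1 + m) * l ^ (2 / (k : ℝ))) * deriv (fun y => U (l * y + x)) y)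
        - ((b * l ^ (2 / (k : ℝ))) * (y * deriv (fun y => U (l * y + x)) y)
        + (b * (2 / (k : ℝ)) * l ^ (2 / (k : ℝ))) * U (l * y + x)) := by
  funext y
  have hk1 : 1 ≤ k := by omega
  have hQ := qbas_smooth hk1
  have hW : ContDiff ℝ ∞ (Wf k U l x) := contDiff_const.mul (FlowR_sm hU l x)
  have d1 : deriv (fun y => U (l * y + x)) y = l * deriv U (l * y + x) :=
    (FlowR_comp1 hU l x y).deriv
  have d2 : deriv (gf k (epf k U l x)) y =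
      -(l ^ (2 / (k : ℝ)) * l ^ 2 * (l * iteratedDeriv 3 U (l * y + x)))
        + l ^ (2 / (k : ℝ)) * (l * deriv U (l * y + x))
        - l ^ (2 / (k : ℝ)) * l ^ 2 * (l * deriv (fun z' => fl k (U z')) (l * y + x)) := by
    rw [Flg_gf hk hU hl x]
    have f1 := (FlowR_comp1 (FlowR_its hU 2) l x y).const_mul (l ^ (2 / (k : ℝ)) * l ^ 2)
    have f2 := (FlowR_comp1 hU l x y).const_mul (l ^ (2 / (k : ℝ)))
    have f3 := (FlowR_comp1 (FlowR_fls (k := k) hU) l x y).const_mul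
      (l ^ (2 / (k : ℝ)) * l ^ 2)
    have f4 := ((f1.neg.add f2).sub f3).deriv
    refine Eq.trans ?_ (f4.trans ?_)
    · rfl
    · have f5 : iteratedDeriv 3 U = deriv (iteratedDeriv 2 U) := iteratedDeriv_succ
      rw [f5]
  have hWd : ∀ j : ℕ, iteratedDeriv j (epf k U l x) y =
      l ^ (2 / (k : ℝ)) * l ^ j * iteratedDeriv j U (l * y + x) - iteratedDeriv j (Qf k) y := by
    intro j
    have e4 : iteratedDeriv j (epf k U l x) y =
        iteratedDeriv j (Wf k U l x) y - iteratedDeriv j (Qf k) y :=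
      iteratedDeriv_fun_sub (ClB_at hW j y) (ClB_at hQ j y)
    rw [e4, iter_Wf hU]
  have e0 : epf k U l x y = l ^ (2 / (k : ℝ)) * U (l * y + x) - Qf k y := rfl
  have e1 : deriv (epf k U l x) y = l ^ (2 / (k : ℝ)) * l * deriv U (l * y + x) -
      deriv (Qf k) y := by
    have := hWd 1
    rw [iteratedDeriv_one, iteratedDeriv_one, iteratedDeriv_one, pow_one] at this
    exact this
  have e2 : deriv (deriv (epf k U l x)) y =
      l ^ (2 / (k : ℝ)) * l ^ 2 * iteratedDeriv 2 U (l * y + x) - deriv (deriv (Qf k)) y := by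
    have h2 := hWd 2
    have e3 : ∀ f : ℝ → ℝ, iteratedDeriv 2 f = deriv (deriv f) := by
      intro f
      rw [iteratedDeriv_succ, iteratedDeriv_one]
    rw [e3 (epf k U l x), e3 (Qf k)] at h2
    exact h2
  have e4 : deriv (ef k E l x) y = l ^ 2 * (l ^ (2 / (k : ℝ)) * (l * deriv E (l * y + x))) :=
    (((FlowR_comp1 hE l x y).const_mul (l ^ (2 / (k : ℝ)))).const_mul (l ^ 2)).deriv
  unfold zeta Nf Lam
  rw [d2, e0, e1, e2, e4]
  simp only [d1]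
  unfold FlowR_H
  ring

theorem Flg_zetaj {k : ℕ} (hk : 1 ≤ k) {U E : ℝ → ℝ} (hU : ContDiff ℝ ∞ U)
    (hE : ContDiff ℝ ∞ E) (b m : ℝ) {l : ℝ} (hl : 0 < l) (x : ℝ) (j : ℕ) (y : ℝ) :
    iteratedDeriv j (zeta k b m l (epf k U l x) (ef k E l x)) y =
      (l ^ (2 / (k : ℝ)) * l ^ 3) * (l ^ j * iteratedDeriv j (FlowR_H k U E) (l * y + x))
        + ((1 + m) * l ^ (2 / (k : ℝ))) * (l ^ (j + 1) * iteratedDeriv (j + 1) U (l * y + x))
        - ((b * l ^ (2 / (k : ℝ))) * (y * (l ^ (j + 1) * iteratedDeriv (j + 1) U (l * y + x))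
            + j * (l ^ j * iteratedDeriv j U (l * y + x)))
        + (b * (2 / (k : ℝ)) * l ^ (2 / (k : ℝ))) *
            (l ^ j * iteratedDeriv j U (l * y + x))) := by
  rw [Flg_zeta hk hU hE b m hl x]
  have hu := FlowR_sm hU l x
  have hdu : ContDiff ℝ ∞ (deriv (fun y => U (l * y + x))) := (contDiff_infty_iff_deriv.1 hu).2
  have hyd : ContDiff ℝ ∞ (fun y => y * deriv (fun y => U (l * y + x)) y) :=
    contDiff_fun_id.mul hdu
  have hH : ContDiff ℝ ∞ (fun y => FlowR_H k U E (l * y + x)) := FlowR_sm (FlowR_Hs hU hE) l x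
  have s1 : ContDiff ℝ ∞ (fun y => (l ^ (2 / (k : ℝ)) * l ^ 3) * FlowR_H k U E (l * y + x)) :=
    contDiff_const.mul hH
  have s2 : ContDiff ℝ ∞ (fun y => ((1 + m) * l ^ (2 / (k : ℝ))) *
      deriv (fun y => U (l * y + x)) y) := contDiff_const.mul hdu
  have s3 : ContDiff ℝ ∞ (fun y => (b * l ^ (2 / (k : ℝ))) *
      (y * deriv (fun y => U (l * y + x)) y)) := contDiff_const.mul hyd
  have s4 : ContDiff ℝ ∞ (fun y => (b * (2 / (k : ℝ)) * l ^ (2 / (k : ℝ))) *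
      U (l * y + x)) := contDiff_const.mul hu
  rw [iteratedDeriv_fun_sub (ClB_at (s1.add s2) j y) (ClB_at (s3.add s4) j y),
    iteratedDeriv_fun_add (ClB_at s1 j y) (ClB_at s2 j y),
    iteratedDeriv_fun_add (ClB_at s3 j y) (ClB_at s4 j y),
    iteratedDeriv_const_mul_field, iteratedDeriv_const_mul_field,
    iteratedDeriv_const_mul_field, iteratedDeriv_const_mul_field,
    iter_comp (FlowR_Hs hU hE), FlowR_ymul hu, iter_comp hU, iter_comp hU]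
  have e1 : iteratedDeriv j (fun y => deriv (fun y => U (l * y + x)) y) y =
      iteratedDeriv (j + 1) (fun y => U (l * y + x)) y := by
    rw [iteratedDeriv_succ']
  rw [e1, iter_comp hU]

/-- along the trajectory: uniform bounds and continuity on `[0,T]` -/
theorem fam_Wt {k : ℕ} {φ : ℝ → ℝ} {d T α l₀ lo hi X₀ : ℝ} {U e : ℝ → ℝ → ℝ} {P : ℝ → ℝ × ℝ}
    (hα : 1 ≤ α) (hlo : 0 < lo) (hlh : lo ≤ hi) (hhi : hi ≤ 1) (hX : 0 ≤ X₀)
    (h : App k T α U e) (hP : Tr k φ d T l₀ lo hi X₀ U e P) :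
    ContinuousOn (fun t => lt lo hi P t) (Icc 0 T) ∧
    (∀ t ∈ Icc 0 T, ContDiff ℝ ∞ (Wt k lo hi X₀ U P t)) ∧
    (∀ j : ℕ, ∃ C : ℝ, 0 ≤ C ∧ ∀ t ∈ Icc 0 T, ∀ y,
      |iteratedDeriv j (Wt k lo hi X₀ U P t) y| ≤ C * bd (lo / 16) (lo / 16) y ∧
      |iteratedDeriv j (ft k lo hi X₀ e P t) y| ≤ C * bd (lo / 16) (lo / 16) y) ∧
    (∀ (j : ℕ) (y : ℝ), ContinuousOn (fun t => iteratedDeriv j (Wt k lo hi X₀ U P t) y)
      (Icc 0 T)) := by
  have hlb : ∀ t, lo ≤ lt lo hi P t := fun t => FamR_clp_lo _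
  have hlb' : ∀ t, lt lo hi P t ≤ hi := fun t => FamR_clp_hi hlh _
  have hxb : ∀ t, |xt X₀ P t| ≤ X₀ := fun t =>
    abs_le.2 ⟨FamR_clp_lo _, FamR_clp_hi (by linarith) _⟩
  have hcl : ContinuousOn (fun t => lt lo hi P t) (Icc 0 T) :=
    (FamR_clp_cont lo hi).comp_continuousOn (continuous_fst.comp_continuousOn hP.cont)
  have hcx : ContinuousOn (fun t => xt X₀ P t) (Icc 0 T) :=
    (FamR_clp_cont (-X₀) X₀).comp_continuousOn (continuous_snd.comp_continuousOn hP.cont)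
  refine ⟨hcl, fun t ht => FamR_smooth (h.smooth t ht) _ _, ?_, ?_⟩
  · intro j
    obtain ⟨C, hC0, hC⟩ := app_bound h j
    refine ⟨C * Real.exp ((α / 2 + 1 / 16) * X₀), by positivity, fun t ht y => ?_⟩
    have hl0 := hlb t
    have hl1 := hlb' t
    have hx := hxb t
    show |iteratedDeriv j (Wf k (U t) (lt lo hi P t) (xt X₀ P t)) y| ≤ _ ∧
      |iteratedDeriv j (ef k (e t) (lt lo hi P t) (xt X₀ P t)) y| ≤ _
    set l := lt lo hi P t with hl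
    set x := xt X₀ P t with hxd
    have hlpos : 0 < l := lt_of_lt_of_le hlo hl0
    have hl1' : l ≤ 1 := hl1.trans hhi
    have hα0 : 0 ≤ α / 2 := by linarith
    have key : ∀ v : ℝ, |v| ≤ C * bd (α / 2) (1 / 16) (l * y + x) →
        |v| ≤ C * Real.exp ((α / 2 + 1 / 16) * X₀) * bd (lo / 16) (lo / 16) y := by
      intro v hv
      refine hv.trans ?_
      rw [mul_assoc]
      refine mul_le_mul_of_nonneg_left ?_ hC0
      refine (bd_shift hα0 (by norm_num) hlpos.le x y).trans ?_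
      have h2 : Real.exp ((α / 2 + 1 / 16) * |x|) ≤ Real.exp ((α / 2 + 1 / 16) * X₀) :=
        Real.exp_le_exp.2 (mul_le_mul_of_nonneg_left hx (by linarith))
      have h3 : bd (l * (α / 2)) (l * (1 / 16)) y ≤ bd (lo / 16) (lo / 16) y := by
        refine bd_anti ?_ ?_ y
        · nlinarith
        · linarith
      exact mul_le_mul h2 h3 (H72KB.bd_pos _ _ _).le (Real.exp_pos _).le
    have h4 : |l ^ (2 / (k : ℝ)) * l ^ j| ≤ 1 := by
      rw [abs_of_nonneg (by positivity)]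
      have h5 : l ^ (2 / (k : ℝ)) ≤ 1 := Real.rpow_le_one hlpos.le hl1' (by positivity)
      have h6 : l ^ j ≤ 1 := pow_le_one₀ hlpos.le hl1'
      exact mul_le_one₀ h5 (by positivity) h6
    constructor
    · rw [iter_Wf (h.smooth t ht), abs_mul]
      exact (mul_le_of_le_one_left (abs_nonneg _) h4).trans (key _ ((hC t ht _).1))
    · have e1 : iteratedDeriv j (ef k (e t) l x) y =
          l ^ 2 * (l ^ (2 / (k : ℝ)) * l ^ j * iteratedDeriv j (e t) (l * y + x)) := by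
        rw [← iter_Wf (h.smooth' t ht)]
        exact iteratedDeriv_const_mul_field _ _
      rw [e1, abs_mul, abs_mul]
      have p1 : |l ^ 2| ≤ 1 := by
        rw [abs_of_pos (by positivity)]
        exact pow_le_one₀ hlpos.le hl1'
      refine (mul_le_of_le_one_left (by positivity) p1).trans ?_
      exact (mul_le_of_le_one_left (abs_nonneg _) h4).trans (key _ ((hC t ht _).2))
  · intro j y
    have hjc := (app_jc (by linarith) h j).1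
    have e : ∀ t ∈ Icc 0 T,
        iteratedDeriv j (Wt k lo hi X₀ U P t) y =
        (lt lo hi P t) ^ (2 / (k : ℝ)) * (lt lo hi P t) ^ j *
          iteratedDeriv j (U t) (lt lo hi P t * y + xt X₀ P t) := by
      intro t ht
      exact iter_Wf (h.smooth t ht) _ _ j y
    refine ContinuousOn.congr ?_ e
    have c1 : ContinuousOn (fun t => (lt lo hi P t) ^ (2 / (k : ℝ))) (Icc 0 T) := by
      refine hcl.rpow_const (fun t _ => Or.inl ?_)
      have := hlb t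
      linarith
    have c2 : ContinuousOn (fun t => (lt lo hi P t) ^ j) (Icc 0 T) := hcl.pow j
    have c3 : ContinuousOn (fun t => ((t, lt lo hi P t * y + xt X₀ P t) : ℝ × ℝ)) (Icc 0 T) :=
      continuousOn_id.prodMk ((hcl.mul continuousOn_const).add hcx)
    have c4 : ContinuousOn (fun t => iteratedDeriv j (U t) (lt lo hi P t * y + xt X₀ P t))
        (Icc 0 T) := hjc.comp c3 (fun t ht => ⟨ht, mem_univ _⟩)
    exact (c1.mul c2).mul c4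

theorem flow_et {k : ℕ} {φ : ℝ → ℝ} {d T α l₀ lo hi X₀ : ℝ} {U e : ℝ → ℝ → ℝ} {P : ℝ → ℝ × ℝ}
    (hk : 1 ≤ k) (hT : 0 < T) (hα : 1 ≤ α) (hlo : 0 < lo) (hlh : lo ≤ hi) (hhi : hi ≤ 1)
    (hX : 0 ≤ X₀) (h : App k T α U e) (hP : Tr k φ d T l₀ lo hi X₀ U e P) (L : ℝ)
    (hL : ∀ t ∈ Icc 0 T, ∀ P, ‖VG k φ d lo hi X₀ U e t P‖ ≤ L)
    {t₀ : ℝ} (ht₀ : t₀ ∈ Ioo 0 T) (h1 : lo < (P t₀).1)
    (h2 : (P t₀).1 < hi) (h3 : |(P t₀).2| < X₀) :
    ∃ J : Set ℝ, t₀ ∈ J ∧ J ⊆ Ioo 0 T ∧ (∀ t ∈ J, lo < (P t).1 ∧ (P t).1 < hi ∧ |(P t).2| < X₀) ∧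
      Flow k 0 (lo / 16) J (fun t => lt lo hi P t) (fun t => wt' k φ d lo hi X₀ U e P t)
        (fun t => mt' k φ d lo hi X₀ U e P t) (fun t => et k lo hi X₀ U P t)
        (fun t => ft k lo hi X₀ e P t) := by
  obtain ⟨hF1, hF2, hF3, hF4⟩ := fam_Wt hα hlo hlh hhi hX h hP
  have hL0 : 0 ≤ L := le_trans (norm_nonneg _) (hL 0 ⟨le_rfl, hT.le⟩ (P 0))
  have hcl : ∀ t, lt lo hi P t ≤ hi := fun t => max_le hlh (min_le_right _ _)
  have hcl2 : ∀ t, lo ≤ lt lo hi P t := fun t => le_max_left _ _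
  have hP1 : ∀ t ∈ Ioo 0 T, HasDerivAt (fun s => (P s).1)
      (-(wt' k φ d lo hi X₀ U e P t) / (lt lo hi P t) ^ 2) t := by
    intro t ht
    exact hasFDerivAt_fst.comp_hasDerivAt t (hP.ode t ht)
  have hP2 : ∀ t ∈ Ioo 0 T, HasDerivAt (fun s => (P s).2)
      ((1 + mt' k φ d lo hi X₀ U e P t) / (lt lo hi P t) ^ 2) t := by
    intro t ht
    exact hasFDerivAt_snd.comp_hasDerivAt t (hP.ode t ht)
  refine ⟨{t | t ∈ Ioo 0 T ∧ (lo < (P t).1 ∧ (P t).1 < hi ∧ |(P t).2| < X₀)},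
    ⟨ht₀, h1, h2, h3⟩, fun t ht => ht.1, fun t ht => ht.2, ?_⟩
  have hJo : ∀ t ∈ {t | t ∈ Ioo 0 T ∧ (lo < (P t).1 ∧ (P t).1 < hi ∧ |(P t).2| < X₀)},
      {t | t ∈ Ioo 0 T ∧ (lo < (P t).1 ∧ (P t).1 < hi ∧ |(P t).2| < X₀)} ∈ 𝓝 t := by
    rintro t ⟨ht, g1, g2, g3⟩
    have c1 := (hP1 t ht).continuousAt
    have c2 := (hP2 t ht).continuousAt
    filter_upwards [Ioo_mem_nhds ht.1 ht.2, continuousAt_const.eventually_lt c1 g1,
      c1.eventually_lt continuousAt_const g2, c2.abs.eventually_lt continuousAt_const g3]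
      with s hs a1 a2 a3
    exact ⟨hs, a1, a2, a3⟩
  have hIcc : ∀ t, t ∈ Ioo 0 T → t ∈ Icc 0 T := fun t ht => ⟨ht.1.le, ht.2.le⟩
  have hdl : ∀ t ∈ {t | t ∈ Ioo 0 T ∧ (lo < (P t).1 ∧ (P t).1 < hi ∧ |(P t).2| < X₀)},
      HasDerivAt (fun t => lt lo hi P t)
        (-(wt' k φ d lo hi X₀ U e P t) / (lt lo hi P t) ^ 2) t := by
    intro t ht
    refine (hP1 t ht.1).congr_of_eventuallyEq ?_
    filter_upwards [hJo t ht] with s hs
    exact FlowR_clp hs.2.1 hs.2.2.1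
  have hdx : ∀ t ∈ {t | t ∈ Ioo 0 T ∧ (lo < (P t).1 ∧ (P t).1 < hi ∧ |(P t).2| < X₀)},
      HasDerivAt (fun t => xt X₀ P t)
        ((1 + mt' k φ d lo hi X₀ U e P t) / (lt lo hi P t) ^ 2) t := by
    intro t ht
    refine (hP2 t ht.1).congr_of_eventuallyEq ?_
    filter_upwards [hJo t ht] with s hs
    have h4 := abs_lt.1 hs.2.2.2
    exact FlowR_clp h4.1 h4.2
  have hQ : ContDiff ℝ ∞ (Qf k) := qbas_smooth hk
  have hlo1 : lo ≤ 1 := hlh.trans hhi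
  have hab : ∀ t y, H98KB.bd (0 * lt lo hi P t + lo / 16) (lo / 16) y =
      bd (lo / 16) (lo / 16) y := by
    intro t y
    rw [zero_mul, zero_add]
  refine ⟨?_, le_rfl, by linarith, ?_, ?_, ?_, hdl, ?_, ?_, ?_, ?_, ?_, ?_⟩
  · rw [isOpen_iff_mem_nhds]
    exact hJo
  · intro t ht
    have := hcl2 t
    linarith
  · intro t ht
    exact (hcl t).trans hhi
  · intro t ht
    linarith
  · refine ⟨L + 1, fun t ht => ?_⟩
    have hv := hL t ⟨ht.1.1.le, ht.1.2.le⟩ (P t)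
    have hl0 : 0 < lt lo hi P t := lt_of_lt_of_le hlo (hcl2 t)
    have hl1 : lt lo hi P t ≤ 1 := (hcl t).trans hhi
    have hl2 : (lt lo hi P t) ^ 2 ≤ 1 := by nlinarith
    have hl3 : 0 < (lt lo hi P t) ^ 2 := by positivity
    have v1 : |-(wt' k φ d lo hi X₀ U e P t) / (lt lo hi P t) ^ 2| ≤ L :=
      (norm_fst_le _).trans hv
    have v2 : |(1 + mt' k φ d lo hi X₀ U e P t) / (lt lo hi P t) ^ 2| ≤ L :=
      (norm_snd_le _).trans hv
    rw [abs_div, abs_neg, abs_of_pos hl3, div_le_iff₀ hl3] at v1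
    rw [abs_div, abs_of_pos hl3, div_le_iff₀ hl3] at v2
    have v3 : L * (lt lo hi P t) ^ 2 ≤ L := by nlinarith
    refine ⟨by linarith, ?_⟩
    have v4 : |mt' k φ d lo hi X₀ U e P t| ≤ |1 + mt' k φ d lo hi X₀ U e P t| + |(1 : ℝ)| := by
      have := abs_sub (1 + mt' k φ d lo hi X₀ U e P t) 1
      rw [add_sub_cancel_left] at this
      exact this
    rw [abs_one] at v4
    linarith
  · intro t ht
    exact (hF2 t (hIcc t ht.1)).sub hQ
  · intro t ht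
    have hs := h.smooth' t ⟨ht.1.1.le, ht.1.2.le⟩
    exact contDiff_const.mul (contDiff_const.mul (FlowR_sm hs _ _))
  · intro j
    obtain ⟨C, hC0, hC⟩ := hF3 j
    obtain ⟨D, hD0, hD⟩ := ClB_pos (Q_cl hk) j
    refine ⟨C + D, fun t ht y => ?_⟩
    rw [hab]
    have e4 : iteratedDeriv j (et k lo hi X₀ U P t) y =
        iteratedDeriv j (Wt k lo hi X₀ U P t) y - iteratedDeriv j (Qf k) y :=
      iteratedDeriv_fun_sub (ClB_at (hF2 t (hIcc t ht.1)) j y) (ClB_at hQ j y)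
    rw [e4]
    refine (abs_sub _ _).trans ?_
    rw [add_mul]
    refine add_le_add (hC t (hIcc t ht.1) y).1 ?_
    exact (hD y).trans (mul_le_mul_of_nonneg_left (bd_anti (by linarith) (by linarith) y) hD0)
  · intro j
    obtain ⟨C, hC0, hC⟩ := hF3 j
    refine ⟨C, fun t ht y => ?_⟩
    rw [hab]
    exact (hC t (hIcc t ht.1) y).2
  · intro j t ht y
    have hl0 : 0 < lt lo hi P t := lt_of_lt_of_le hlo (hcl2 t)
    have htI : t ∈ Icc 0 T := ⟨ht.1.1.le, ht.1.2.le⟩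
    have hU := h.smooth t htI
    have hE := h.smooth' t htI
    have hz : HasDerivAt (fun s => lt lo hi P s * y + xt X₀ P s)
        (-(wt' k φ d lo hi X₀ U e P t) / (lt lo hi P t) ^ 2 * y +
          (1 + mt' k φ d lo hi X₀ U e P t) / (lt lo hi P t) ^ 2) t :=
      ((hdl t ht).mul_const y).add (hdx t ht)
    have hev := h.evol j t ht.1 (lt lo hi P t * y + xt X₀ P t)
    have hcont : ContinuousAt (fun q : ℝ × ℝ => iteratedDeriv (j + 1) (U q.1) q.2)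
        (t, lt lo hi P t * y + xt X₀ P t) :=
      (app_jc (by linarith) h (j + 1)).1.continuousAt
        (prod_mem_nhds (Icc_mem_nhds ht.1.1 ht.1.2) univ_mem)
    have hch := FlowR_chain (V := fun τ w => iteratedDeriv j (U τ) w)
      (V' := fun τ w => iteratedDeriv (j + 1) (U τ) w)
      (z := fun s => lt lo hi P s * y + xt X₀ P s) (Ioo_mem_nhds ht.1.1 ht.1.2) hev
      (fun τ hτ w => FlowR_dit (h.smooth τ ⟨hτ.1.le, hτ.2.le⟩) j w) hcont hz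
    have hpw : HasDerivAt (fun s => (lt lo hi P s) ^ (2 / (k : ℝ) + (j : ℝ)))
        (-(wt' k φ d lo hi X₀ U e P t) / (lt lo hi P t) ^ 2 * (2 / (k : ℝ) + (j : ℝ)) *
          (lt lo hi P t) ^ (2 / (k : ℝ) + (j : ℝ) - 1)) t :=
      (hdl t ht).rpow_const (Or.inl hl0.ne')
    have hall := (hpw.mul hch).sub_const (iteratedDeriv j (Qf k) y)
    have hpj : ∀ s, (lt lo hi P s) ^ (2 / (k : ℝ) + (j : ℝ)) =
        (lt lo hi P s) ^ (2 / (k : ℝ)) * (lt lo hi P s) ^ j := fun s =>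
      Real.rpow_add_natCast (lt_of_lt_of_le hlo (hcl2 s)).ne' _ _
    have hval : iteratedDeriv j (zeta k (wt' k φ d lo hi X₀ U e P t)
        (mt' k φ d lo hi X₀ U e P t)
        (lt lo hi P t) (et k lo hi X₀ U P t) (ft k lo hi X₀ e P t)) y = _ :=
      Flg_zetaj hk hU hE (wt' k φ d lo hi X₀ U e P t) (mt' k φ d lo hi X₀ U e P t) hl0
        (xt X₀ P t) j y
    rw [hval]
    refine (hall.congr_deriv ?_).congr_of_eventuallyEq ?_
    · rw [Real.rpow_sub_one hl0.ne', hpj t]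
      have eH : iteratedDeriv j (fun z => -iteratedDeriv 3 (U t) z +
          iteratedDeriv 2 (U t) z - deriv (fun z' => fl k (U t z')) z -
          deriv (e t) z) = iteratedDeriv j (FlowR_H k (U t) (e t)) := rfl
      rw [eH]
      field_simp
      ring
    · filter_upwards [hJo t ht] with s hs
      have hsI : s ∈ Icc 0 T := ⟨hs.1.1.le, hs.1.2.le⟩
      have hUs := h.smooth s hsI
      have e4 : iteratedDeriv j (et k lo hi X₀ U P s) y =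
          iteratedDeriv j (Wf k (U s) (lt lo hi P s) (xt X₀ P s)) y -
            iteratedDeriv j (Qf k) y :=
        iteratedDeriv_fun_sub (ClB_at (hF2 s hsI) j y) (ClB_at hQ j y)
      rw [e4, iter_Wf hUs]
      simp only [Pi.mul_apply]
      rw [hpj s]

end H72KC

end S_H72_KC_Flg

section S_H72_KC_FlU

/-!
# Row FlU: the trajectory gives `Fa` on `[0,T]` and `Flo` near interior times

`r t = (lt lo hi P t)^(1/8)` (real power), so `(r t)^8 = lt`, `(r t)^24 = lt^3`, `r` continuous, `lo ≤ r ≤ 1` (`lo ≤ lt ≤ r` because `lt ≤ 1`).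
`θ = lo/32`.
`fa_Wt`: from `fam_Wt` (`bd (lo/16) (lo/16) ≤ bd (lo/32) (lo/32)`, `bd_anti`).
`flo_Wt`: from `flow_et` (a `Flow 4 0 (lo/16) J ..` for `et = Wt - Q`, `lam = lt`): `op`; `dr`: `r = lt^(1/8)`, `lt' = -w/lt^2` (`Flow.dl`), so
`r' = (1/8) lt^(1/8-1) lt' = (1/8) r/lt * (-w/lt^2) = -(w r/8)/lt^3`; `bw`: `Flow.bm`; `sm`: `fam_Wt` or `Wt = Q + et`; `sz`: `zeta_smooth`;
`bd`: for `W` `fam_Wt`, for `Z = zeta ..`: `zeta_bound` (`R = 0`, `bd (0*lam + θ'/2) (θ'/2)` with `θ' = lo/16`, i.e. `bd (lo/32) (lo/32)`);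
`ev`: `Flow.ev` for `et` and `iteratedDeriv j (Wt) = iteratedDeriv j (et) + iteratedDeriv j Q` near `t` (`J` open; `Q` does not depend on time).
`ze w m l W et = zeta 4 w m l (fun y => W y - Qf 4 y) et` and `et k .. t = fun y => Wt .. y - Qf k y` (`rfl`, `epf`).
-/

open MeasureTheory Filter Topology Set
open scoped ContDiff

namespace H72KC

open H98KB H72KB H68KC

/-- `r = λ^{1/8}` along the trajectory -/
noncomputable def rt (lo hi : ℝ) (P : ℝ → ℝ × ℝ) (t : ℝ) : ℝ := (lt lo hi P t) ^ ((1:ℝ) / 8)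

theorem FlU_lt {lo hi : ℝ} (hlo : 0 < lo) (P : ℝ → ℝ × ℝ) (t : ℝ) :
    0 < lt lo hi P t ∧ lo ≤ lt lo hi P t := by
  have h : lo ≤ lt lo hi P t := FamR_clp_lo _
  exact ⟨by linarith, h⟩

theorem rt_pow {lo hi : ℝ} (hlo : 0 < lo) (P : ℝ → ℝ × ℝ) (t : ℝ) :
    0 < rt lo hi P t ∧ (rt lo hi P t) ^ 8 = lt lo hi P t := by
  have h := FlU_lt (hi := hi) hlo P t
  refine ⟨Real.rpow_pos_of_pos h.1 _, ?_⟩
  unfold rt
  rw [← Real.rpow_natCast, ← Real.rpow_mul h.1.le]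
  norm_num

theorem FlU_r {lo hi : ℝ} (hlo : 0 < lo) (hlh : lo ≤ hi) (hhi : hi ≤ 1) (P : ℝ → ℝ × ℝ) (t : ℝ) :
    lo / 32 ≤ rt lo hi P t ∧ rt lo hi P t ≤ 1 := by
  have h := FlU_lt (hi := hi) hlo P t
  have h2 : lt lo hi P t ≤ 1 := (FamR_clp_hi hlh _).trans hhi
  have h3 := rt_pow (hi := hi) hlo P t
  have h4 : rt lo hi P t ≤ 1 := Real.rpow_le_one h.1.le h2 (by norm_num)
  refine ⟨?_, h4⟩
  have h5 : (rt lo hi P t) ^ 8 ≤ rt lo hi P t :=
    pow_le_of_le_one h3.1.le h4 (by norm_num)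
  rw [h3.2] at h5
  linarith [h.2]

theorem FlU_bd {lo : ℝ} (hlo : 0 < lo) (y : ℝ) :
    H98KB.bd (lo / 16) (lo / 16) y ≤ H98KB.bd (lo / 32) (lo / 32) y :=
  bd_anti (by linarith) (by linarith) y

theorem fa_Wt {φ : ℝ → ℝ} {d T α l₀ lo hi X₀ : ℝ} {U e : ℝ → ℝ → ℝ} {P : ℝ → ℝ × ℝ}
    (hα : 1 ≤ α) (hlo : 0 < lo) (hlh : lo ≤ hi) (hhi : hi ≤ 1) (hX : 0 ≤ X₀)
    (h : App 4 T α U e) (hP : Tr 4 φ d T l₀ lo hi X₀ U e P) :
    Fa (lo / 32) (Icc 0 T) (rt lo hi P) (Wt 4 lo hi X₀ U P) := by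
  obtain ⟨h1, h2, h3, h4⟩ := fam_Wt hα hlo hlh hhi hX h hP
  refine ⟨by positivity, by linarith, fun t _ => (FlU_r hlo hlh hhi P t).1,
    fun t _ => (FlU_r hlo hlh hhi P t).2, ?_, h2, ?_, h4⟩
  · exact h1.rpow_const (fun t _ => Or.inl (FlU_lt hlo P t).1.ne')
  · intro j
    obtain ⟨C, hC0, hC⟩ := h3 j
    exact ⟨C, hC0, fun t ht y => ((hC t ht y).1).trans
      (mul_le_mul_of_nonneg_left (FlU_bd hlo y) hC0)⟩

theorem flo_Wt {φ : ℝ → ℝ} {d T α l₀ lo hi X₀ : ℝ} {U e : ℝ → ℝ → ℝ} {P : ℝ → ℝ × ℝ}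
    (hT : 0 < T) (hα : 1 ≤ α) (hlo : 0 < lo) (hlh : lo ≤ hi) (hhi : hi ≤ 1)
    (hX : 0 ≤ X₀) (h : App 4 T α U e) (hP : Tr 4 φ d T l₀ lo hi X₀ U e P) (L : ℝ)
    (hL : ∀ t ∈ Icc 0 T, ∀ P, ‖VG 4 φ d lo hi X₀ U e t P‖ ≤ L)
    {t₀ : ℝ} (ht₀ : t₀ ∈ Ioo 0 T) (h1 : lo < (P t₀).1)
    (h2 : (P t₀).1 < hi) (h3 : |(P t₀).2| < X₀) :
    ∃ J : Set ℝ, t₀ ∈ J ∧ J ⊆ Ioo 0 T ∧ (∀ t ∈ J, lo < (P t).1 ∧ (P t).1 < hi ∧ |(P t).2| < X₀) ∧
      Flo (lo / 32) J (rt lo hi P) (wt' 4 φ d lo hi X₀ U e P) (Wt 4 lo hi X₀ U P)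
        (fun t => ze (wt' 4 φ d lo hi X₀ U e P t) (mt' 4 φ d lo hi X₀ U e P t)
          (lt lo hi P t) (Wt 4 lo hi X₀ U P t) (ft 4 lo hi X₀ e P t)) := by
  obtain ⟨g1, g2, g3, g4⟩ := fam_Wt hα hlo hlh hhi hX h hP
  obtain ⟨J, hJ1, hJ2, hJ3, F⟩ := flow_et (by norm_num : 1 ≤ 4) hT hα hlo hlh hhi hX h hP L hL
    ht₀ h1 h2 h3
  have hQ : ContDiff ℝ ∞ (Qf 4) := qbas_smooth (by norm_num : 1 ≤ 4)
  have hIcc : ∀ t ∈ J, t ∈ Icc 0 T := fun t ht => ⟨(hJ2 ht).1.le, (hJ2 ht).2.le⟩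
  have h24 : ∀ t, (rt lo hi P t) ^ 24 = (lt lo hi P t) ^ 3 := by
    intro t
    have := (rt_pow (hi := hi) hlo P t).2
    rw [← this]; ring
  refine ⟨J, hJ1, hJ2, hJ3, F.op, by positivity, by linarith,
    fun t _ => (FlU_r hlo hlh hhi P t).1, fun t _ => (FlU_r hlo hlh hhi P t).2, ?_, ?_,
    fun t ht => g2 t (hIcc t ht), ?_, ?_, ?_⟩
  · intro t ht
    have hl := FlU_lt (hi := hi) hlo P t
    have hd := (F.dl t ht).rpow_const (p := (1:ℝ) / 8) (Or.inl hl.1.ne')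
    refine hd.congr_deriv ?_
    rw [h24, Real.rpow_sub_one hl.1.ne']
    have hr : (lt lo hi P t) ^ ((1:ℝ) / 8) = rt lo hi P t := rfl
    have hl0 := hl.1.ne'
    rw [hr]
    field_simp
  · obtain ⟨C, hC⟩ := F.bm
    exact ⟨|C|, abs_nonneg C, fun t ht => (hC t ht).1.trans (le_abs_self C)⟩
  · intro t ht
    exact zeta_smooth (by norm_num : 1 ≤ 4) _ _ _ (F.sm t ht) (F.se t ht)
  · intro j
    obtain ⟨C, hC0, hC⟩ := g3 j
    obtain ⟨D, hD0, hD⟩ := zeta_bound (by norm_num : 1 ≤ 4) F j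
    refine ⟨max C D, le_trans hC0 (le_max_left _ _), fun t ht y => ⟨?_, ?_⟩⟩
    · refine ((hC t (hIcc t ht) y).1).trans ?_
      exact mul_le_mul (le_max_left _ _) (FlU_bd hlo y) (H72KB.bd_pos _ _ _).le
        (le_trans hC0 (le_max_left _ _))
    · refine (hD t ht y).trans ?_
      have e1 : H98KB.bd (0 * lt lo hi P t + lo / 16 / 2) (lo / 16 / 2) y =
          H98KB.bd (lo / 32) (lo / 32) y := by
        congr 1 <;> ring
      rw [e1]
      exact mul_le_mul_of_nonneg_right (le_max_right _ _) (H72KB.bd_pos _ _ _).le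
  · intro j t ht y
    have hev := (F.ev j t ht y).add_const (iteratedDeriv j (Qf 4) y)
    rw [h24]
    refine (hev.congr_deriv rfl).congr_of_eventuallyEq ?_
    filter_upwards [F.op.mem_nhds ht] with s hs
    have e4 : iteratedDeriv j (et 4 lo hi X₀ U P s) y =
        iteratedDeriv j (Wt 4 lo hi X₀ U P s) y - iteratedDeriv j (Qf 4) y :=
      iteratedDeriv_fun_sub (ClB_at (g2 s (hIcc s hs)) j y) (ClB_at hQ j y)
    rw [e4]
    ring

end H72KC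

end S_H72_KC_FlU
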