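import Mathlib
import Pool.Agent.H98.BU.G01
import Pool.Agent.H98.BU.G19
import Pool.Agent.H98.BU.G20

/-! Blow-up for `u_t + u^k u_x + u_xxx - u_xx = 0`, part G24: this file joins several modules
to save build time (`Pool/Agent/H98/{KB,KC}`, `H72/{KB,KC}`, `H68/KC`, `H37/{KB,KC}`). -/

section S_H72_KB_Scal

/-!
# Row Scal: scaling of norms

`W = Wf k U l x`, `W(y) = l^{2/k} U(ly+x)`, `W'(y) = l^{2/k+1} U'(ly+x)` (`iter_Wf` with `j = 1`).  Change of variables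
`z = ly+x` (`integral_comp_mul_add`-type lemma: `∫ f(l y + x) dy = l⁻¹ ∫ f` for `l > 0`):
* `∫ W² = l^{4/k} l^{-1} ∫ U²`;  `∫ W'² = l^{4/k+2} l^{-1} ∫ U'²`.
* `Gn`: for `ρ = R l`: `om B ρ y ≤ max 1 (e^{2ρy})`, `2 ρ y = 2R(z - x)`, so `om ≤ e^{2R|x|} max 1 (e^{2Rz}) ≤
  e^{2R|x|} wt α z` (`2R ≤ α`; for `z ≥ 0`: `e^{2Rz} ≤ e^{αz}`, for `z ≤ 0`: `1 ≤ e^{-z/8}`).  `W² + W'² =
  l^{4/k}(U² + l² U'²)(z) ≤ l^{4/k} (U²+U'²)(z)` for `l ≤ 1`.
* for `ef = l² Wf k e l x` multiply by `l⁴`; `l^{4/k} l^{-1} l^4 ≤ 1`, `l^{4/k+1} l^4 ≤ 1` for `0 < l ≤ 1`.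
* `wt ≥ 1`.
(all `rpow` identities: `0 < l`, `(l^{2/k})² = l^{4/k}`.)
-/

open MeasureTheory Filter Topology Set
open scoped ContDiff

namespace H72KB

open H98KB

theorem Scal_cv (f : ℝ → ℝ) {l : ℝ} (hl : 0 < l) (x : ℝ) :
    ∫ y, f (l * y + x) = l⁻¹ * ∫ z, f z := by
  have h1 := MeasureTheory.Measure.integral_comp_mul_left (fun z => f (z + x)) l
  rw [h1, integral_add_right_eq_self (fun z => f z) x, abs_of_pos (inv_pos.2 hl), smul_eq_mul]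

theorem Scal_int {f : ℝ → ℝ} (hf : Integrable f) {l : ℝ} (hl : 0 < l) (x : ℝ) :
    Integrable (fun y => f (l * y + x)) :=
  (hf.comp_add_right x).comp_mul_left' hl.ne'

theorem Scal_sq (k : ℕ) {l : ℝ} (hl : 0 < l) : (l ^ (2 / (k : ℝ))) ^ 2 = l ^ (4 / (k : ℝ)) := by
  rw [← Real.rpow_natCast, ← Real.rpow_mul hl.le]
  congr 1
  push_cast
  ring

theorem Scal_der {k : ℕ} {U : ℝ → ℝ} (hU : ContDiff ℝ ∞ U) (l x y : ℝ) :
    deriv (Wf k U l x) y = l ^ (2 / (k : ℝ)) * l * deriv U (l * y + x) := by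
  have h := iter_Wf (k := k) hU l x 1 y
  rw [iteratedDeriv_one, iteratedDeriv_one, pow_one] at h
  exact h

theorem Wf_cl {k : ℕ} {α l : ℝ} {U : ℝ → ℝ} (hα : 0 ≤ α) (hl : 0 ≤ l) (x : ℝ)
    (hU : Cl (α / 2) (1 / 16) U) : Cl (l * (α / 2)) (l * (1 / 16)) (Wf k U l x) := by
  exact Cl_smul (l ^ (2 / (k : ℝ))) (Cl_comp (by linarith) (by norm_num) hl x hU)

theorem ef_cl {k : ℕ} {α l : ℝ} {U : ℝ → ℝ} (hα : 0 ≤ α) (hl : 0 ≤ l) (x : ℝ)
    (hU : Cl (α / 2) (1 / 16) U) : Cl (l * (α / 2)) (l * (1 / 16)) (ef k U l x) := by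
  exact Cl_smul (l ^ 2) (Wf_cl hα hl x hU)

theorem Wf_sq {k : ℕ} {l : ℝ} (U : ℝ → ℝ) (hl : 0 < l) (x : ℝ) :
    ∫ y, (Wf k U l x y) ^ 2 = l ^ (4 / (k : ℝ) - 1) * ∫ z, (U z) ^ 2 := by
  have e : ∀ y, (Wf k U l x y) ^ 2 = l ^ (4 / (k : ℝ)) * (fun z => (U z) ^ 2) (l * y + x) := by
    intro y
    unfold Wf
    rw [mul_pow, Scal_sq k hl]
  simp_rw [e]
  rw [integral_const_mul, Scal_cv (fun z => (U z) ^ 2) hl x, Real.rpow_sub_one hl.ne']
  ring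

theorem Wf_X {k : ℕ} {l : ℝ} {U : ℝ → ℝ} (hU : ContDiff ℝ ∞ U) (hl : 0 < l) (x : ℝ) :
    Xn (Wf k U l x) = l ^ (4 / (k : ℝ) + 1) * ∫ z, (deriv U z) ^ 2 := by
  have e : ∀ y, (deriv (Wf k U l x) y) ^ 2 =
      (l ^ (4 / (k : ℝ)) * l ^ 2) * (fun z => (deriv U z) ^ 2) (l * y + x) := by
    intro y
    rw [Scal_der hU, mul_pow, mul_pow, Scal_sq k hl]
  unfold Xn
  simp_rw [e]
  rw [integral_const_mul, Scal_cv (fun z => (deriv U z) ^ 2) hl x, Real.rpow_add_one hl.ne']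
  field_simp

theorem one_le_wt {α : ℝ} (hα : 0 ≤ α) (x : ℝ) : 1 ≤ wt α x := by
  unfold wt
  rcases le_total 0 x with h | h
  · have h1 : 1 ≤ Real.exp (α * x) := Real.one_le_exp (mul_nonneg hα h)
    have h2 := Real.exp_pos (-x / 8)
    linarith
  · have h1 : 1 ≤ Real.exp (-x / 8) := Real.one_le_exp (by linarith)
    have h2 := Real.exp_pos (α * x)
    linarith

theorem sq_le_nw {α : ℝ} {U : ℝ → ℝ} (hα : 0 ≤ α) (hU : ContDiff ℝ ∞ U)
    (hi : Integrable (fun x => wt α x * ((U x) ^ 2 + (deriv U x) ^ 2))) :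
    ∫ x, (U x) ^ 2 ≤ nw α U ∧ ∫ x, (deriv U x) ^ 2 ≤ nw α U ∧ 0 ≤ nw α U := by
  have hw : ∀ x, 1 ≤ wt α x := one_le_wt hα
  unfold nw
  refine ⟨?_, ?_, ?_⟩
  · refine integral_mono_of_nonneg (Eventually.of_forall fun x => sq_nonneg _) hi
      (Eventually.of_forall fun x => ?_)
    show (U x) ^ 2 ≤ wt α x * ((U x) ^ 2 + (deriv U x) ^ 2)
    nlinarith [hw x, sq_nonneg (U x), sq_nonneg (deriv U x),
      mul_nonneg (sub_nonneg.2 (hw x)) (add_nonneg (sq_nonneg (U x)) (sq_nonneg (deriv U x)))]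
  · refine integral_mono_of_nonneg (Eventually.of_forall fun x => sq_nonneg _) hi
      (Eventually.of_forall fun x => ?_)
    show (deriv U x) ^ 2 ≤ wt α x * ((U x) ^ 2 + (deriv U x) ^ 2)
    nlinarith [hw x, sq_nonneg (U x), sq_nonneg (deriv U x),
      mul_nonneg (sub_nonneg.2 (hw x)) (add_nonneg (sq_nonneg (U x)) (sq_nonneg (deriv U x)))]
  · refine integral_nonneg fun x => ?_
    exact mul_nonneg (by linarith [hw x]) (add_nonneg (sq_nonneg _) (sq_nonneg _))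

theorem Scal_om {α l R B x : ℝ} (hα : 2 * R ≤ α) (hR : 0 ≤ R) (hl : 0 < l) (y : ℝ) :
    0 ≤ om B (R * l) y ∧
      om B (R * l) y ≤ Real.exp (2 * R * |x|) * wt α (l * y + x) := by
  have hα0 : 0 ≤ α := by linarith
  have hden : 1 ≤ 1 + Real.exp (-y / B) := by
    have := Real.exp_pos (-y / B)
    linarith
  have hT0 : 0 ≤ Th B y := by
    unfold Th
    positivity
  have hT1 : Th B y ≤ 1 := by
    unfold Th
    rw [div_le_one (by linarith)]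
    exact hden
  unfold om
  refine ⟨mul_nonneg hT0 (Real.exp_pos _).le, ?_⟩
  have h1 : Th B y * Real.exp (2 * (R * l) * y) ≤ Real.exp (2 * (R * l) * y) := by
    have := mul_le_mul_of_nonneg_right hT1 (Real.exp_pos (2 * (R * l) * y)).le
    rwa [one_mul] at this
  refine h1.trans ?_
  have hRx : 0 ≤ 2 * R * |x| := by positivity
  have hE1 : 1 ≤ Real.exp (2 * R * |x|) := Real.one_le_exp hRx
  rcases le_total 0 (l * y + x) with hz | hz
  · have h2 : Real.exp (2 * (R * l) * y) ≤ Real.exp (2 * R * |x|) * Real.exp (α * (l * y + x)) := by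
      rw [← Real.exp_add, Real.exp_le_exp]
      have h3 : 2 * R * (l * y + x) ≤ α * (l * y + x) := mul_le_mul_of_nonneg_right hα hz
      have h4 : -x ≤ |x| := neg_le_abs x
      have h5 : 2 * R * (-x) ≤ 2 * R * |x| := mul_le_mul_of_nonneg_left h4 (by linarith)
      nlinarith [h3, h5]
    refine h2.trans (mul_le_mul_of_nonneg_left ?_ (Real.exp_pos _).le)
    unfold wt
    have := Real.exp_pos (-(l * y + x) / 8)
    linarith
  · have h2 : Real.exp (2 * (R * l) * y) ≤ Real.exp (2 * R * |x|) := by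
      rw [Real.exp_le_exp]
      have h4 : -x ≤ |x| := neg_le_abs x
      have h5 : 2 * R * (-x) ≤ 2 * R * |x| := mul_le_mul_of_nonneg_left h4 (by linarith)
      have h6 : 2 * R * (l * y + x) ≤ 0 := mul_nonpos_of_nonneg_of_nonpos (by linarith) hz
      nlinarith [h5, h6]
    have h7 := mul_le_mul_of_nonneg_left (one_le_wt hα0 (l * y + x)) (Real.exp_pos (2 * R * |x|)).le
    rw [mul_one] at h7
    exact h2.trans h7

theorem Wf_Gn {k : ℕ} {α l R B x : ℝ} {U : ℝ → ℝ} (hk : 1 ≤ k) (hα : 2 * R ≤ α) (hR : 0 ≤ R)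
    (hB : 0 < B) (hl : 0 < l) (hl1 : l ≤ 1) (hU : ContDiff ℝ ∞ U)
    (hi : Integrable (fun x => wt α x * ((U x) ^ 2 + (deriv U x) ^ 2))) :
    Gn B (R * l) (Wf k U l x) ≤ l⁻¹ * Real.exp (2 * R * |x|) * nw α U := by
  have hα0 : 0 ≤ α := by linarith
  let Φ : ℝ → ℝ := fun z => wt α z * ((U z) ^ 2 + (deriv U z) ^ 2)
  have hΦi : Integrable Φ := hi
  have h4 : l ^ (4 / (k : ℝ)) ≤ 1 := Real.rpow_le_one hl.le hl1 (by positivity)
  have h40 : 0 ≤ l ^ (4 / (k : ℝ)) := Real.rpow_nonneg hl.le _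
  have h2 : l ^ 2 ≤ 1 := pow_le_one₀ hl.le hl1
  have hp : ∀ y, om B (R * l) y * ((Wf k U l x y) ^ 2 + (deriv (Wf k U l x) y) ^ 2) ≤
      Real.exp (2 * R * |x|) * Φ (l * y + x) := by
    intro y
    obtain ⟨o0, o1⟩ := Scal_om (B := B) (x := x) hα hR hl y
    have e1 : (Wf k U l x y) ^ 2 + (deriv (Wf k U l x) y) ^ 2 ≤
        (U (l * y + x)) ^ 2 + (deriv U (l * y + x)) ^ 2 := by
      have a1 : (Wf k U l x y) ^ 2 = l ^ (4 / (k : ℝ)) * (U (l * y + x)) ^ 2 := by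
        unfold Wf
        rw [mul_pow, Scal_sq k hl]
      have a2 : (deriv (Wf k U l x) y) ^ 2 =
          l ^ (4 / (k : ℝ)) * l ^ 2 * (deriv U (l * y + x)) ^ 2 := by
        rw [Scal_der hU, mul_pow, mul_pow, Scal_sq k hl]
      rw [a1, a2]
      have b1 : l ^ (4 / (k : ℝ)) * (U (l * y + x)) ^ 2 ≤ 1 * (U (l * y + x)) ^ 2 :=
        mul_le_mul_of_nonneg_right h4 (sq_nonneg _)
      have b2 : l ^ (4 / (k : ℝ)) * l ^ 2 ≤ 1 := mul_le_one₀ h4 (sq_nonneg _) h2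
      have b3 := mul_le_mul_of_nonneg_right b2 (sq_nonneg (deriv U (l * y + x)))
      linarith
    have e0 : 0 ≤ (Wf k U l x y) ^ 2 + (deriv (Wf k U l x) y) ^ 2 := by positivity
    calc om B (R * l) y * ((Wf k U l x y) ^ 2 + (deriv (Wf k U l x) y) ^ 2)
        ≤ (Real.exp (2 * R * |x|) * wt α (l * y + x)) *
            ((U (l * y + x)) ^ 2 + (deriv U (l * y + x)) ^ 2) :=
          mul_le_mul o1 e1 e0 (o0.trans o1)
      _ = Real.exp (2 * R * |x|) * Φ (l * y + x) := by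
          show _ = Real.exp (2 * R * |x|) * (wt α (l * y + x) *
            ((U (l * y + x)) ^ 2 + (deriv U (l * y + x)) ^ 2))
          ring
  have hmain : Gn B (R * l) (Wf k U l x) ≤ ∫ y, Real.exp (2 * R * |x|) * Φ (l * y + x) := by
    unfold Gn
    refine integral_mono_of_nonneg (Eventually.of_forall fun y => ?_)
      ((Scal_int hΦi hl x).const_mul _) (Eventually.of_forall hp)
    exact mul_nonneg (Scal_om (B := B) (x := x) hα hR hl y).1 (by positivity)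
  rw [integral_const_mul, Scal_cv Φ hl x] at hmain
  refine hmain.trans (le_of_eq ?_)
  unfold nw
  show Real.exp (2 * R * |x|) * (l⁻¹ * ∫ z, wt α z * ((U z) ^ 2 + (deriv U z) ^ 2)) = _
  ring

theorem Scal_ef {k : ℕ} (U : ℝ → ℝ) (l x y : ℝ) :
    deriv (ef k U l x) y = l ^ 2 * deriv (Wf k U l x) y := by
  have e : ef k U l x = fun y => l ^ 2 * Wf k U l x y := rfl
  rw [e, deriv_const_mul_field]

theorem ef_Gn {k : ℕ} {α l R B x : ℝ} {U : ℝ → ℝ} (hk : 1 ≤ k) (hα : 2 * R ≤ α) (hR : 0 ≤ R)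
    (hB : 0 < B) (hl : 0 < l) (hl1 : l ≤ 1) (hU : ContDiff ℝ ∞ U)
    (hi : Integrable (fun x => wt α x * ((U x) ^ 2 + (deriv U x) ^ 2))) :
    Gn B (R * l) (ef k U l x) ≤ Real.exp (2 * R * |x|) * nw α U ∧
      Xn (ef k U l x) ≤ nw α U := by
  have hα0 : 0 ≤ α := by linarith
  obtain ⟨q1, q2, q3⟩ := sq_le_nw hα0 hU hi
  constructor
  · have e : Gn B (R * l) (ef k U l x) = l ^ 4 * Gn B (R * l) (Wf k U l x) := by
      unfold Gn
      rw [← integral_const_mul]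
      refine integral_congr_ae (Eventually.of_forall fun y => ?_)
      show om B (R * l) y * ((ef k U l x y) ^ 2 + (deriv (ef k U l x) y) ^ 2) =
        l ^ 4 * (om B (R * l) y * ((Wf k U l x y) ^ 2 + (deriv (Wf k U l x) y) ^ 2))
      rw [Scal_ef]
      unfold ef
      ring
    rw [e]
    have h := Wf_Gn (B := B) (x := x) hk hα hR hB hl hl1 hU hi
    have h3 : l ^ 3 ≤ 1 := pow_le_one₀ hl.le hl1
    have hE : 0 ≤ Real.exp (2 * R * |x|) * nw α U := mul_nonneg (Real.exp_pos _).le q3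
    calc l ^ 4 * Gn B (R * l) (Wf k U l x)
        ≤ l ^ 4 * (l⁻¹ * Real.exp (2 * R * |x|) * nw α U) :=
          mul_le_mul_of_nonneg_left h (by positivity)
      _ = l ^ 3 * (Real.exp (2 * R * |x|) * nw α U) := by
          field_simp
      _ ≤ 1 * (Real.exp (2 * R * |x|) * nw α U) := mul_le_mul_of_nonneg_right h3 hE
      _ = Real.exp (2 * R * |x|) * nw α U := one_mul _
  · have e : Xn (ef k U l x) = l ^ 4 * Xn (Wf k U l x) := by
      unfold Xn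
      rw [← integral_const_mul]
      refine integral_congr_ae (Eventually.of_forall fun y => ?_)
      show (deriv (ef k U l x) y) ^ 2 = l ^ 4 * (deriv (Wf k U l x) y) ^ 2
      rw [Scal_ef]
      ring
    rw [e, Wf_X hU hl x]
    have h4 : l ^ 4 ≤ 1 := pow_le_one₀ hl.le hl1
    have h5 : l ^ (4 / (k : ℝ) + 1) ≤ 1 := Real.rpow_le_one hl.le hl1 (by positivity)
    have h50 : 0 ≤ l ^ (4 / (k : ℝ) + 1) := Real.rpow_nonneg hl.le _
    have h6 : l ^ 4 * l ^ (4 / (k : ℝ) + 1) ≤ 1 := mul_le_one₀ h4 h50 h5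
    have hd : 0 ≤ ∫ z, (deriv U z) ^ 2 := integral_nonneg fun z => sq_nonneg _
    calc l ^ 4 * (l ^ (4 / (k : ℝ) + 1) * ∫ z, (deriv U z) ^ 2)
        = (l ^ 4 * l ^ (4 / (k : ℝ) + 1)) * ∫ z, (deriv U z) ^ 2 := by ring
      _ ≤ 1 * ∫ z, (deriv U z) ^ 2 := mul_le_mul_of_nonneg_right h6 hd
      _ ≤ nw α U := by rw [one_mul]; exact q2

end H72KB

end S_H72_KB_Scal

section S_H72_KB_IniB

/-!
# Row IniB: the initial data in the physical variable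

`Q, n ∈ Cl (1/2) (1/2)` (`Q_cl`, `Cl_mono`; `ThmN`), so `dat k l₀ a = l₀^{-2/k} (Q + a n)(x/l₀) ∈ Cl (1/(2l₀)) (1/(2l₀))`
(`Cl_comp` with `l = 1/l₀`, shift 0).
* `dat_H1`: `dat` and its derivative are continuous, bounded by `C bd`, hence in `L²` (`MemLp ... 2`), and
  `dat y - dat x = ∫ deriv` (`intervalIntegral.integral_deriv_eq_sub`).
* `dat_int`: `wt α ≤ 2 e^{α|x|}`-type bound (`e^{-x/8} ≤ e^{α|x|}` as `α ≥ 1`), `dat² + dat'² ≤ C e^{-|x|/l₀}`, `1/l₀ ≥ 8α > α`.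
* `dat_resc`: `Wf k (dat k l₀ a) l₀ 0 y = Q y + a n y` (`l₀^{2/k} l₀^{-2/k} = 1`, `l₀ y / l₀ = y`), so
  `epf k U l₀ 0 y - a n y = Wf k (U - dat) l₀ 0 y`.
* `ini_diff`: `Wf_Gn`, `Wf_sq`, `Wf_X` with `x = 0` for `U - dat` (smooth; `wt ((U-dat)² + ..)` integrable by
  `(a-b)² ≤ 2a²+2b²`, `hi`, `dat_int`), `sq_le_nw`, and `l₀^{4/k-1} ≤ l₀⁻¹`, `l₀^{4/k+1} ≤ 1 ≤ l₀⁻¹` for `l₀ ≤ 1`.
* `mass_ini`: `∫U² ≤ 2∫dat² + 2∫(U-dat)²`, `∫(U-dat)² ≤ ν` (`sq_le_nw`), `∫ dat² = l₀^{1-4/k} ∫(Q+an)²` (from `Wf_sq`),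
  `(Q+an)² ≤ 2Q² + 2n²` (`|a| ≤ 1`).
-/

open MeasureTheory Filter Topology Set
open scoped ContDiff

namespace H72KB

open H98KB

theorem inib_f {k : ℕ} (hk : 5 ≤ k) (hN : ThmN) (a : ℝ) :
    Cl (1 / 2) (1 / 2) (fun y => Qf k y + a * nf k y) :=
  Cl_add (Cl_mono (by norm_num) (by norm_num) (Q_cl (by omega))) (Cl_smul a (hN k hk).1)

theorem inib_eq (k : ℕ) (l₀ a : ℝ) : dat k l₀ a = fun x => l₀ ^ (-(2 / (k : ℝ))) *
    (fun y => Qf k y + a * nf k y) (1 / l₀ * x + 0) := by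
  funext x
  unfold dat
  have e : 1 / l₀ * x + 0 = x / l₀ := by ring
  simp only [e]

theorem dat_cl {k : ℕ} (hk : 5 ≤ k) (hN : ThmN) {l₀ : ℝ} (hl : 0 < l₀) (a : ℝ) :
    Cl (1 / (2 * l₀)) (1 / (2 * l₀)) (dat k l₀ a) := by
  have h1 := Cl_comp (l := 1 / l₀) (by norm_num) (by norm_num) (by positivity) 0
    (inib_f hk hN a)
  have h2 := Cl_smul (l₀ ^ (-(2 / (k : ℝ)))) h1
  have e : 1 / (2 * l₀) = 1 / l₀ * (1 / 2) := by
    field_simp
  rw [e, inib_eq]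
  exact h2

theorem inib_sq {p q : ℝ} {f : ℝ → ℝ} (hp : 0 < p) (hq : 0 < q) (hf : Cl p q f) :
    Integrable (fun x => (f x) ^ 2) :=
  Cl_int hp hq (Cl_pow hp.le hq.le hf 2 (by norm_num))

theorem inib_mem {p q : ℝ} {f : ℝ → ℝ} (hp : 0 < p) (hq : 0 < q) (hf : Cl p q f) :
    MemLp f 2 volume :=
  (memLp_two_iff_integrable_sq hf.1.continuous.aestronglyMeasurable).2 (inib_sq hp hq hf)

theorem dat_H1 {k : ℕ} (hk : 5 ≤ k) (hN : ThmN) {l₀ : ℝ} (hl : 0 < l₀) (a : ℝ) :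
    IsH1 (dat k l₀ a) (deriv (dat k l₀ a)) := by
  have hc := dat_cl hk hN hl a
  have hp : 0 < 1 / (2 * l₀) := by positivity
  refine ⟨inib_mem hp hp hc, inib_mem hp hp (Cl_deriv hc), fun x y => ?_⟩
  rw [intervalIntegral.integral_deriv_eq_sub]
  · intro z _
    exact (hc.1.differentiable (by simp)) z
  · exact ((Cl_deriv hc).1.continuous).intervalIntegrable x y

theorem inib_wt {α : ℝ} (hα : 1 ≤ α) (x : ℝ) : wt α x ≤ 2 * bd (-α) (-α) x := by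
  have e : bd (-α) (-α) x = Real.exp (α * |x|) := by
    unfold bd
    congr 1
    rcases le_total 0 x with h | h
    · rw [max_eq_left h, max_eq_right (by linarith), abs_of_nonneg h]
      ring
    · rw [max_eq_right h, max_eq_left (by linarith), abs_of_nonpos h]
      ring
  rw [e]
  unfold wt
  have h1 : Real.exp (α * x) ≤ Real.exp (α * |x|) :=
    Real.exp_le_exp.2 (mul_le_mul_of_nonneg_left (le_abs_self x) (by linarith))
  have h2 : Real.exp (-x / 8) ≤ Real.exp (α * |x|) := by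
    refine Real.exp_le_exp.2 ?_
    have h3 := neg_le_abs x
    have h4 := abs_nonneg x
    nlinarith
  linarith

theorem dat_int {k : ℕ} (hk : 5 ≤ k) (hN : ThmN) {l₀ α : ℝ} (hl : 0 < l₀) (hα : 1 ≤ α)
    (hαl : 8 * α * l₀ ≤ 1) (a : ℝ) :
    Integrable (fun x => wt α x * ((dat k l₀ a x) ^ 2 + (deriv (dat k l₀ a) x) ^ 2)) := by
  have hc := dat_cl hk hN hl a
  have hd := Cl_deriv hc
  have hg := Cl_add (Cl_mul hc hc) (Cl_mul hd hd)
  obtain ⟨C, hC0, hC⟩ := ClC_abs hg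
  have hs : 1 / (2 * l₀) + 1 / (2 * l₀) = 1 / l₀ := by
    field_simp
    norm_num
  rw [hs] at hC
  have hα8 : 8 * α ≤ 1 / l₀ := by
    rw [le_div_iff₀ hl]
    exact hαl
  have hbi : Integrable (bd (1 / l₀ + -α) (1 / l₀ + -α)) :=
    bd_int (by linarith) (by linarith)
  have hwc : Continuous (wt α) := by
    unfold wt
    fun_prop
  refine Integrable.mono' ((hbi.const_mul C).const_mul 2) ?_ (Eventually.of_forall fun x => ?_)
  · exact (hwc.mul ((hc.1.continuous.pow 2).add (hd.1.continuous.pow 2))).aestronglyMeasurable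
  · have hw0 : 0 ≤ wt α x := by
      unfold wt
      positivity
    have h0 : 0 ≤ (dat k l₀ a x) ^ 2 + (deriv (dat k l₀ a) x) ^ 2 := by positivity
    rw [Real.norm_eq_abs, abs_of_nonneg (mul_nonneg hw0 h0)]
    have h1 : (dat k l₀ a x) ^ 2 + (deriv (dat k l₀ a) x) ^ 2 ≤ C * bd (1 / l₀) (1 / l₀) x := by
      refine le_trans (le_of_eq ?_) ((le_abs_self _).trans (hC x))
      ring
    have h2 := mul_le_mul (inib_wt hα x) h1 h0 (by
      have := bd_pos (-α) (-α) x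
      linarith)
    refine h2.trans (le_of_eq ?_)
    rw [← bd_mul]
    ring

theorem dat_resc {k : ℕ} (hk : 5 ≤ k) {l₀ : ℝ} (hl : 0 < l₀) (a : ℝ) (U : ℝ → ℝ) (y : ℝ) :
    epf k U l₀ 0 y - a * nf k y = Wf k (fun x => U x - dat k l₀ a x) l₀ 0 y := by
  unfold epf Wf dat
  have e : (l₀ * y + 0) / l₀ = y := by
    field_simp
    ring
  have e2 : l₀ ^ (2 / (k : ℝ)) * l₀ ^ (-(2 / (k : ℝ))) = 1 := by
    rw [← Real.rpow_add hl, add_neg_cancel, Real.rpow_zero]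
  simp only [e]
  rw [mul_sub, ← mul_assoc, e2]
  ring

theorem inib_V {k : ℕ} (hk : 5 ≤ k) (hN : ThmN) {l₀ α a : ℝ} {U : ℝ → ℝ} (hl : 0 < l₀)
    (hα1 : 1 ≤ α) (hαl : 8 * α * l₀ ≤ 1) (hU : ContDiff ℝ ∞ U)
    (hi : Integrable (fun x => wt α x * ((U x) ^ 2 + (deriv U x) ^ 2))) :
    ContDiff ℝ ∞ (fun x => U x - dat k l₀ a x) ∧
    Integrable (fun x => wt α x * ((U x - dat k l₀ a x) ^ 2 +
      (deriv (fun x => U x - dat k l₀ a x) x) ^ 2)) := by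
  have hc := dat_cl hk hN hl a
  have hV : ContDiff ℝ ∞ (fun x => U x - dat k l₀ a x) := hU.sub hc.1
  refine ⟨hV, ?_⟩
  have hwc : Continuous (wt α) := by
    unfold wt
    fun_prop
  have hb := (hi.const_mul 2).add ((dat_int hk hN hl hα1 hαl a).const_mul 2)
  refine Integrable.mono' hb ?_ (Eventually.of_forall fun x => ?_)
  · exact (hwc.mul ((hV.continuous.pow 2).add
      ((hV.continuous_deriv (by simp)).pow 2))).aestronglyMeasurable
  · have hw0 : 0 ≤ wt α x := by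
      unfold wt
      positivity
    have hder : deriv (fun x => U x - dat k l₀ a x) x = deriv U x - deriv (dat k l₀ a) x :=
      deriv_fun_sub ((hU.differentiable (by simp)) x) ((hc.1.differentiable (by simp)) x)
    rw [hder, Real.norm_eq_abs, abs_of_nonneg (mul_nonneg hw0 (by positivity))]
    change wt α x * _ ≤ 2 * (wt α x * ((U x) ^ 2 + (deriv U x) ^ 2)) +
      2 * (wt α x * ((dat k l₀ a x) ^ 2 + (deriv (dat k l₀ a) x) ^ 2))
    have h1 : (U x - dat k l₀ a x) ^ 2 + (deriv U x - deriv (dat k l₀ a) x) ^ 2 ≤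
        2 * ((U x) ^ 2 + (deriv U x) ^ 2) +
          2 * ((dat k l₀ a x) ^ 2 + (deriv (dat k l₀ a) x) ^ 2) := by
      nlinarith [sq_nonneg (U x + dat k l₀ a x), sq_nonneg (deriv U x + deriv (dat k l₀ a) x)]
    have h2 := mul_le_mul_of_nonneg_left h1 hw0
    linarith

theorem ini_diff {k : ℕ} (hk : 5 ≤ k) (hN : ThmN) {l₀ α R B ν a : ℝ} {U : ℝ → ℝ} (hl : 0 < l₀)
    (hl1 : l₀ ≤ 1) (hR : 0 ≤ R) (hα1 : 1 ≤ α) (hα : 2 * R ≤ α) (hαl : 8 * α * l₀ ≤ 1) (hB : 0 < B)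
    (hU : ContDiff ℝ ∞ U)
    (hi : Integrable (fun x => wt α x * ((U x) ^ 2 + (deriv U x) ^ 2)))
    (hn : nw α (fun x => U x - dat k l₀ a x) ≤ ν) :
    Gn B (R * l₀) (fun y => epf k U l₀ 0 y - a * nf k y) ≤ l₀⁻¹ * ν ∧
      ∫ y, (epf k U l₀ 0 y - a * nf k y) ^ 2 ≤ l₀⁻¹ * ν ∧
      Xn (fun y => epf k U l₀ 0 y - a * nf k y) ≤ l₀⁻¹ * ν := by
  obtain ⟨hV, hiV⟩ := inib_V (a := a) hk hN hl hα1 hαl hU hi
  have e : (fun y => epf k U l₀ 0 y - a * nf k y) =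
      Wf k (fun x => U x - dat k l₀ a x) l₀ 0 := by
    funext y
    exact dat_resc hk hl a U y
  obtain ⟨q1, q2, q3⟩ := sq_le_nw (by linarith) hV hiV
  have hl' : 0 < l₀⁻¹ := inv_pos.2 hl
  have hν : 0 ≤ ν := q3.trans hn
  refine ⟨?_, ?_, ?_⟩
  · rw [e]
    have h := Wf_Gn (k := k) (B := B) (x := 0) (by omega) hα hR hB hl hl1 hV hiV
    rw [abs_zero, mul_zero, Real.exp_zero, mul_one] at h
    exact h.trans (mul_le_mul_of_nonneg_left hn hl'.le)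
  · have e' : (fun y => (epf k U l₀ 0 y - a * nf k y) ^ 2) =
        fun y => (Wf k (fun x => U x - dat k l₀ a x) l₀ 0 y) ^ 2 := by
      funext y
      rw [dat_resc hk hl a U y]
    rw [e', Wf_sq _ hl 0, Real.rpow_sub_one hl.ne', div_eq_mul_inv]
    have h1 : l₀ ^ (4 / (k : ℝ)) ≤ 1 := Real.rpow_le_one hl.le hl1 (by positivity)
    have h2 : l₀ ^ (4 / (k : ℝ)) * l₀⁻¹ ≤ l₀⁻¹ := by
      have := mul_le_mul_of_nonneg_right h1 hl'.le
      rwa [one_mul] at this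
    exact mul_le_mul h2 (q1.trans hn) (integral_nonneg fun z => sq_nonneg _) hl'.le
  · rw [e, Wf_X hV hl 0]
    have h1 : l₀ ^ (4 / (k : ℝ) + 1) ≤ 1 := Real.rpow_le_one hl.le hl1 (by positivity)
    have h2 : (1 : ℝ) ≤ l₀⁻¹ := (one_le_inv₀ hl).2 hl1
    exact mul_le_mul (h1.trans h2) (q2.trans hn) (integral_nonneg fun z => sq_nonneg _) hl'.le

theorem mass_ini {k : ℕ} (hk : 5 ≤ k) (hN : ThmN) {l₀ α ν a : ℝ} {U : ℝ → ℝ} (hl : 0 < l₀)
    (hα1 : 1 ≤ α) (hαl : 8 * α * l₀ ≤ 1) (ha : |a| ≤ 1) (hU : ContDiff ℝ ∞ U)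
    (hi : Integrable (fun x => wt α x * ((U x) ^ 2 + (deriv U x) ^ 2)))
    (hn : nw α (fun x => U x - dat k l₀ a x) ≤ ν) :
    ∫ x, (U x) ^ 2 ≤ l₀ ^ (1 - 4 / (k : ℝ)) *
      (4 * ((∫ y, (Qf k y) ^ 2) + ∫ y, (nf k y) ^ 2)) + 2 * ν := by
  obtain ⟨hV, hiV⟩ := inib_V (a := a) hk hN hl hα1 hαl hU hi
  obtain ⟨q1, q2, q3⟩ := sq_le_nw (by linarith) hV hiV
  have hc := dat_cl hk hN hl a
  have hp : 0 < 1 / (2 * l₀) := by positivity
  have hdi : Integrable (fun x => (dat k l₀ a x) ^ 2) := inib_sq hp hp hc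
  have hVi : Integrable (fun x => (U x - dat k l₀ a x) ^ 2) := by
    refine Integrable.mono' hiV ((hV.continuous.pow 2).aestronglyMeasurable)
      (Eventually.of_forall fun x => ?_)
    rw [Real.norm_eq_abs, abs_of_nonneg (sq_nonneg _)]
    have hw := one_le_wt (α := α) (by linarith) x
    have h0 : 0 ≤ (U x - dat k l₀ a x) ^ 2 + (deriv (fun x => U x - dat k l₀ a x) x) ^ 2 := by
      positivity
    have h1 := mul_le_mul_of_nonneg_right hw h0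
    have h2 := sq_nonneg (deriv (fun x => U x - dat k l₀ a x) x)
    linarith
  have h1 : ∫ x, (U x) ^ 2 ≤ ∫ x, (2 * (dat k l₀ a x) ^ 2 + 2 * (U x - dat k l₀ a x) ^ 2) := by
    refine integral_mono_of_nonneg (Eventually.of_forall fun x => sq_nonneg _)
      ((hdi.const_mul 2).add (hVi.const_mul 2)) (Eventually.of_forall fun x => ?_)
    show (U x) ^ 2 ≤ 2 * (dat k l₀ a x) ^ 2 + 2 * (U x - dat k l₀ a x) ^ 2
    nlinarith [sq_nonneg (U x - 2 * dat k l₀ a x)]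
  rw [integral_add (hdi.const_mul 2) (hVi.const_mul 2), integral_const_mul,
    integral_const_mul] at h1
  -- the integral of `dat²`
  have hQi : Integrable (fun y => (Qf k y) ^ 2) :=
    inib_sq (by norm_num) (by norm_num) (Q_cl (k := k) (by omega))
  have hni : Integrable (fun y => (nf k y) ^ 2) :=
    inib_sq (by norm_num) (by norm_num) (hN k hk).1
  have e : ∀ y, Wf k (dat k l₀ a) l₀ 0 y = Qf k y + a * nf k y := by
    intro y
    have h := dat_resc hk hl a (fun _ => 0) y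
    unfold epf Wf at h
    unfold Wf
    simp only [mul_zero, zero_sub, mul_neg] at h
    linarith
  have h2 := Wf_sq (k := k) (dat k l₀ a) hl 0
  simp_rw [e] at h2
  have h3 : ∫ x, (dat k l₀ a x) ^ 2 =
      l₀ ^ (1 - 4 / (k : ℝ)) * ∫ y, (Qf k y + a * nf k y) ^ 2 := by
    rw [h2, ← mul_assoc, ← Real.rpow_add hl]
    have e3 : 1 - 4 / (k : ℝ) + (4 / (k : ℝ) - 1) = 0 := by ring
    rw [e3, Real.rpow_zero, one_mul]
  have h4 : ∫ y, (Qf k y + a * nf k y) ^ 2 ≤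
      ∫ y, (2 * (Qf k y) ^ 2 + 2 * (nf k y) ^ 2) := by
    refine integral_mono_of_nonneg (Eventually.of_forall fun x => sq_nonneg _)
      ((hQi.const_mul 2).add (hni.const_mul 2)) (Eventually.of_forall fun x => ?_)
    show (Qf k x + a * nf k x) ^ 2 ≤ 2 * (Qf k x) ^ 2 + 2 * (nf k x) ^ 2
    have ha2 : a ^ 2 ≤ 1 := by
      have := pow_le_pow_left₀ (abs_nonneg a) ha 2
      rwa [sq_abs, one_pow] at this
    have h5 : a ^ 2 * (nf k x) ^ 2 ≤ 1 * (nf k x) ^ 2 :=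
      mul_le_mul_of_nonneg_right ha2 (sq_nonneg _)
    nlinarith [sq_nonneg (Qf k x - a * nf k x)]
  rw [integral_add (hQi.const_mul 2) (hni.const_mul 2), integral_const_mul,
    integral_const_mul] at h4
  have hr : 0 ≤ l₀ ^ (1 - 4 / (k : ℝ)) := Real.rpow_nonneg hl.le _
  have h5 := mul_le_mul_of_nonneg_left h4 hr
  rw [← h3] at h5
  have h6 : l₀ ^ (1 - 4 / (k : ℝ)) * (4 * ((∫ y, (Qf k y) ^ 2) + ∫ y, (nf k y) ^ 2)) =
      2 * (l₀ ^ (1 - 4 / (k : ℝ)) *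
        (2 * (∫ y, (Qf k y) ^ 2) + 2 * ∫ y, (nf k y) ^ 2)) := by ring
  rw [h6]
  linarith

end H72KB

end S_H72_KB_IniB

section S_H72_KB_Mass

/-!
# Row Mass: almost conservation (decrease) of the mass

Proof.  `M(t) = ∫ U(t,x)² dx`.  `App.bound`: `|∂^j U|, |∂^j e| ≤ C bd (α/2) (1/16)` uniformly in `t ∈ [0,T]` (`α > 0`), so
`M` is continuous on `[0,T]` (dominated convergence, `App.cont 0`), and for `t ∈ (0,T)`
(`hasDerivAt_integral_of_dominated_loc_of_deriv_le`, `App.evol 0`; domination: `|∂_t U| ≤ C bd (α/2) (1/16)`: it is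
`-U_xxx + U_xx - U^k U_x - e_x`)
 `M'(t) = 2 ∫ U (-U_xxx + U_xx - (fl k U)_x - e_x) = -2 ∫ U_x² + 2 ∫ U_x e ≤ ∫ e² ≤ nw α e ≤ ν`
(`Cl_ibp`: `∫ U U_xxx = -∫ U_x U_xx = 0` as `∫ U_x U_xx = -∫ U_xx U_x`; `∫ U U_xx = -∫ U_x²`; `∫ U (fl U)_x = -∫ U_x fl(U)
= -∫ (Fl(U))_x = 0`; `-∫ U e_x = ∫ U_x e`; `2 U_x e ≤ 2U_x² + e²/2`; `∫ e² ≤ nw` by `sq_le_nw`).
Mean value inequality: `M(t) - M(0) ≤ ν t`.
-/

open MeasureTheory Filter Topology Set
open scoped ContDiff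

namespace H72KB

open H98KB

theorem Mass_fl {k : ℕ} {p q : ℝ} {f : ℝ → ℝ} (hp : 0 ≤ p) (hq : 0 ≤ q) (hf : Cl p q f) :
    Cl p q (fun y => fl k (f y)) := by
  have h := Cl_smul (1 / ((k : ℝ) + 1)) (Cl_pow hp hq hf (k + 1) (by omega))
  have e : (fun y => fl k (f y)) = fun y => 1 / ((k : ℝ) + 1) * f y ^ (k + 1) := by
    funext y
    unfold fl
    ring
  rw [e]
  exact h

theorem Mass_hd {p q : ℝ} {f : ℝ → ℝ} (hf : Cl p q f) (x : ℝ) : HasDerivAt f (deriv f x) x :=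
  ((hf.1.differentiable (by simp)) x).hasDerivAt

theorem Mass_dfl {k : ℕ} {p q : ℝ} {f : ℝ → ℝ} (hf : Cl p q f) (x : ℝ) :
    deriv (fun y => fl k (f y)) x = f x ^ k * deriv f x := by
  have h1 : HasDerivAt (fun y => fl k (f y)) (((k + 1 : ℕ) : ℝ) * f x ^ k * deriv f x / ((k : ℝ) + 1)) x := by
    have h2 := ((Mass_hd hf x).pow (k + 1)).div_const ((k : ℝ) + 1)
    refine h2.congr_deriv ?_
    simp
  rw [h1.deriv]
  have hk : (k : ℝ) + 1 ≠ 0 := by positivity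
  push_cast
  field_simp

/-- the identity for the derivative of the mass -/
theorem Mass_id {k : ℕ} {p q : ℝ} {U e : ℝ → ℝ} (hp : 0 < p) (hq : 0 < q) (hU : Cl p q U)
    (he : Cl p q e) :
    ∫ x, 2 * U x * (-iteratedDeriv 3 U x + iteratedDeriv 2 U x - deriv (fun z => fl k (U z)) x
      - deriv e x) = ∫ x, (-(2 * (deriv U x) ^ 2) + 2 * (deriv U x * e x)) := by
  have hpp : 0 < p + p := by linarith
  have hqq : 0 < q + q := by linarith
  have h1 := Cl_iter hU 1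
  have h2 := Cl_iter hU 2
  have h3 := Cl_iter hU 3
  have e1 : iteratedDeriv 1 U = deriv U := iteratedDeriv_one
  have e2 : iteratedDeriv 2 U = deriv (deriv U) := by
    rw [iteratedDeriv_succ, iteratedDeriv_one]
  have e3 : iteratedDeriv 3 U = deriv (iteratedDeriv 2 U) := iteratedDeriv_succ
  rw [e1] at h1
  have hF := Mass_fl (k := k) hp.le hq.le hU
  -- integrability
  have i3 : Integrable (fun x => iteratedDeriv 3 U x * U x) := Cl_int hpp hqq (Cl_mul h3 hU)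
  have i2 : Integrable (fun x => iteratedDeriv 2 U x * U x) := Cl_int hpp hqq (Cl_mul h2 hU)
  have iF : Integrable (fun x => deriv (fun z => fl k (U z)) x * U x) :=
    Cl_int hpp hqq (Cl_mul (Cl_deriv hF) hU)
  have ie : Integrable (fun x => deriv e x * U x) := Cl_int hpp hqq (Cl_mul (Cl_deriv he) hU)
  have iU : Integrable (fun x => deriv U x * deriv U x) := Cl_int hpp hqq (Cl_mul h1 h1)
  have ieU : Integrable (fun x => e x * deriv U x) := Cl_int hpp hqq (Cl_mul he h1)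
  -- the integrals
  have a3 : ∫ x, iteratedDeriv 3 U x * U x = 0 := by
    have b1 := Cl_ibp hpp hqq h2 hU
    have b2 := Cl_ibp hpp hqq h1 h1
    rw [← e3] at b1
    rw [b1, e2]
    have b3 : ∫ x, deriv U x * deriv (deriv U) x = ∫ x, deriv (deriv U) x * deriv U x :=
      integral_congr_ae (Eventually.of_forall fun x => mul_comm _ _)
    rw [b3] at b2
    have b4 : ∫ x, deriv (deriv U) x * deriv U x = 0 := by linarith
    rw [b4, neg_zero]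
  have a2 : ∫ x, iteratedDeriv 2 U x * U x = -∫ x, deriv U x * deriv U x := by
    rw [e2]
    exact Cl_ibp hpp hqq h1 hU
  have aF : ∫ x, deriv (fun z => fl k (U z)) x * U x = 0 := by
    have b1 := Cl_ibp hpp hqq hF hU
    have b2 : ∫ x, deriv (fun z => fl k (U z)) x * U x =
        ((k : ℝ) + 1) * ∫ x, fl k (U x) * deriv U x := by
      rw [← integral_const_mul]
      refine integral_congr_ae (Eventually.of_forall fun x => ?_)
      simp only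
      rw [Mass_dfl hU x]
      unfold fl
      have hk : (k : ℝ) + 1 ≠ 0 := by positivity
      field_simp
      ring
    have b3 : ((k : ℝ) + 2) * ∫ x, fl k (U x) * deriv U x = 0 := by
      linarith
    have hk : (k : ℝ) + 2 ≠ 0 := by positivity
    have b4 : ∫ x, fl k (U x) * deriv U x = 0 := by
      rcases mul_eq_zero.1 b3 with h | h
      · exact absurd h hk
      · exact h
    rw [b1, b4, neg_zero]
  have ae : ∫ x, deriv e x * U x = -∫ x, e x * deriv U x := Cl_ibp hpp hqq he hU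
  have l1 : ∫ x, 2 * U x * (-iteratedDeriv 3 U x + iteratedDeriv 2 U x
      - deriv (fun z => fl k (U z)) x - deriv e x) =
      ∫ x, (2 * (iteratedDeriv 2 U x * U x) - 2 * (iteratedDeriv 3 U x * U x)
        - 2 * (deriv (fun z => fl k (U z)) x * U x) - 2 * (deriv e x * U x)) := by
    refine integral_congr_ae (Eventually.of_forall fun x => ?_)
    simp only
    ring
  have l2 : ∫ x, (-(2 * (deriv U x) ^ 2) + 2 * (deriv U x * e x)) =
      ∫ x, (2 * (e x * deriv U x) - 2 * (deriv U x * deriv U x)) := by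
    refine integral_congr_ae (Eventually.of_forall fun x => ?_)
    simp only
    ring
  have j1 : Integrable (fun x => 2 * (iteratedDeriv 2 U x * U x)
      - 2 * (iteratedDeriv 3 U x * U x)) := (i2.const_mul 2).sub (i3.const_mul 2)
  have j2 : Integrable (fun x => 2 * (iteratedDeriv 2 U x * U x)
      - 2 * (iteratedDeriv 3 U x * U x) - 2 * (deriv (fun z => fl k (U z)) x * U x)) :=
    j1.sub (iF.const_mul 2)
  rw [l1, l2, integral_sub j2 (ie.const_mul 2), integral_sub j1 (iF.const_mul 2),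
    integral_sub (i2.const_mul 2) (i3.const_mul 2), integral_sub (ieU.const_mul 2)
    (iU.const_mul 2), integral_const_mul, integral_const_mul, integral_const_mul,
    integral_const_mul, integral_const_mul, integral_const_mul, a3, a2, aF, ae]
  ring

theorem mass {k : ℕ} {T α ν : ℝ} {U e : ℝ → ℝ → ℝ} (hk : 1 ≤ k) (hT : 0 < T) (hα : 0 < α)
    (h : App k T α U e) (hν : ∀ t ∈ Icc 0 T, nw α (e t) ≤ ν)
    (hi : ∀ t ∈ Icc 0 T, Integrable (fun x => wt α x * ((e t x) ^ 2 + (deriv (e t) x) ^ 2))) :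
    ∀ t ∈ Icc 0 T, ∫ x, (U t x) ^ 2 ≤ (∫ x, (U 0 x) ^ 2) + T * ν := by
  have hp : 0 < α / 2 := by linarith
  have hq : (0 : ℝ) < 1 / 16 := by norm_num
  have hU : ∀ t ∈ Icc 0 T, Cl (α / 2) (1 / 16) (U t) := fun t ht =>
    ⟨h.smooth t ht, fun j => by
      obtain ⟨C, hC⟩ := h.bound j
      exact ⟨C, hC t ht⟩⟩
  have he : ∀ t ∈ Icc 0 T, Cl (α / 2) (1 / 16) (e t) := fun t ht =>
    ⟨h.smooth' t ht, fun j => by
      obtain ⟨C, hC⟩ := h.bound' j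
      exact ⟨C, hC t ht⟩⟩
  have hbp : ∀ x, 0 < bd (α / 2) (1 / 16) x := fun x => bd_pos _ _ x
  have hb1 : ∀ x, bd (α / 2) (1 / 16) x ≤ 1 := fun x => bd_le_one hp.le hq.le x
  have posC : ∀ j : ℕ, ∃ C : ℝ, 0 ≤ C ∧ ∀ t ∈ Icc 0 T, ∀ x,
      |iteratedDeriv j (U t) x| ≤ C * bd (α / 2) (1 / 16) x := by
    intro j
    obtain ⟨C, hC⟩ := h.bound j
    refine ⟨|C|, abs_nonneg C, fun t ht x => (hC t ht x).trans ?_⟩
    exact mul_le_mul_of_nonneg_right (le_abs_self C) (hbp x).le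
  have posE : ∀ j : ℕ, ∃ C : ℝ, 0 ≤ C ∧ ∀ t ∈ Icc 0 T, ∀ x,
      |iteratedDeriv j (e t) x| ≤ C * bd (α / 2) (1 / 16) x := by
    intro j
    obtain ⟨C, hC⟩ := h.bound' j
    refine ⟨|C|, abs_nonneg C, fun t ht x => (hC t ht x).trans ?_⟩
    exact mul_le_mul_of_nonneg_right (le_abs_self C) (hbp x).le
  obtain ⟨C0, hC0, hB0⟩ := posC 0
  obtain ⟨C1, hC1, hB1⟩ := posC 1
  obtain ⟨C2, hC2, hB2⟩ := posC 2
  obtain ⟨C3, hC3, hB3⟩ := posC 3
  obtain ⟨E1, hE1, hBE⟩ := posE 1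
  simp only [iteratedDeriv_zero, iteratedDeriv_one] at hB0 hB1 hBE
  have hB0' : ∀ t ∈ Icc 0 T, ∀ x, |U t x| ≤ C0 := fun t ht x =>
    (hB0 t ht x).trans (mul_le_of_le_one_right hC0 (hb1 x))
  set V : ℝ → ℝ → ℝ := fun t x => -iteratedDeriv 3 (U t) x + iteratedDeriv 2 (U t) x
    - deriv (fun z => fl k (U t z)) x - deriv (e t) x with hV
  have hVb : ∀ t ∈ Icc 0 T, ∀ x, |V t x| ≤
      (C3 + C2 + C0 ^ k * C1 + E1) * bd (α / 2) (1 / 16) x := by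
    intro t ht x
    have b1 := hB3 t ht x
    have b2 := hB2 t ht x
    have b3 : |deriv (fun z => fl k (U t z)) x| ≤ C0 ^ k * C1 * bd (α / 2) (1 / 16) x := by
      rw [Mass_dfl (hU t ht) x, abs_mul, abs_pow, mul_assoc]
      exact mul_le_mul (pow_le_pow_left₀ (abs_nonneg _) (hB0' t ht x) k) (hB1 t ht x)
        (abs_nonneg _) (pow_nonneg hC0 k)
    have b4 := hBE t ht x
    have b5 : |V t x| ≤ |iteratedDeriv 3 (U t) x| + |iteratedDeriv 2 (U t) x|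
        + |deriv (fun z => fl k (U t z)) x| + |deriv (e t) x| := by
      rw [hV]
      simp only
      refine (abs_sub _ _).trans (add_le_add ((abs_sub _ _).trans (add_le_add
        ((abs_add_le _ _).trans (add_le_add (abs_neg _).le le_rfl)) le_rfl)) le_rfl)
    have b6 : (C3 + C2 + C0 ^ k * C1 + E1) * bd (α / 2) (1 / 16) x =
      C3 * bd (α / 2) (1 / 16) x + C2 * bd (α / 2) (1 / 16) x
      + C0 ^ k * C1 * bd (α / 2) (1 / 16) x + E1 * bd (α / 2) (1 / 16) x := by ring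
    rw [b6]
    linarith
  -- continuity of the mass
  have hcont : ContinuousOn (fun t => ∫ x, (U t x) ^ 2) (Icc 0 T) := by
    refine continuousOn_of_dominated (bound := fun x => C0 ^ 2 * bd (α / 2) (1 / 16) x) ?_ ?_
      ((bd_int hp hq).const_mul _) ?_
    · intro t ht
      exact ((h.smooth t ht).continuous.pow 2).aestronglyMeasurable
    · intro t ht
      refine Eventually.of_forall fun x => ?_
      rw [Real.norm_eq_abs, abs_pow, pow_two, pow_two, mul_assoc]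
      exact mul_le_mul (hB0' t ht x) (hB0 t ht x) (abs_nonneg _) hC0
    · refine Eventually.of_forall fun x => ?_
      have := h.cont 0 x
      simp only [iteratedDeriv_zero] at this
      exact this.pow 2
  -- the derivative
  have hder : ∀ t ∈ Ioo 0 T, HasDerivAt (fun t => ∫ x, (U t x) ^ 2)
      (∫ x, 2 * U t x * V t x) t := by
    intro t ht
    have hs : Ioo 0 T ∈ 𝓝 t := Ioo_mem_nhds ht.1 ht.2
    refine (hasDerivAt_integral_of_dominated_loc_of_deriv_le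
      (F' := fun t x => 2 * U t x * V t x)
      (bound := fun x => 2 * C0 * ((C3 + C2 + C0 ^ k * C1 + E1) * bd (α / 2) (1 / 16) x))
      hs ?_ ?_ ?_ ?_ (((bd_int hp hq).const_mul _).const_mul _) ?_).2
    · filter_upwards [hs] with s hs'
      exact ((h.smooth s (Ioo_subset_Icc_self hs')).continuous.pow 2).aestronglyMeasurable
    · have hc := Cl_int (by linarith) (by norm_num)
        (Cl_mul (hU t (Ioo_subset_Icc_self ht)) (hU t (Ioo_subset_Icc_self ht)))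
      refine hc.congr (Eventually.of_forall fun x => ?_)
      simp only [pow_two]
    · have ht' := Ioo_subset_Icc_self ht
      have c0 := (h.smooth t ht').continuous
      have c3 := (Cl_iter (hU t ht') 3).1.continuous
      have c2 := (Cl_iter (hU t ht') 2).1.continuous
      have cF := (Cl_deriv (Mass_fl (k := k) hp.le hq.le (hU t ht'))).1.continuous
      have ce := (Cl_deriv (he t ht')).1.continuous
      exact ((continuous_const.mul c0).mul (((c3.neg.add c2).sub cF).sub ce)).aestronglyMeasurable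
    · refine Eventually.of_forall fun x s hs' => ?_
      have hs'' := Ioo_subset_Icc_self hs'
      rw [Real.norm_eq_abs, abs_mul, abs_mul, abs_of_pos (zero_lt_two' ℝ)]
      exact mul_le_mul (mul_le_mul_of_nonneg_left (hB0' s hs'' x) zero_le_two) (hVb s hs'' x)
        (abs_nonneg _) (by positivity)
    · refine Eventually.of_forall fun x s hs' => ?_
      have hev := h.evol 0 s hs' x
      simp only [iteratedDeriv_zero] at hev
      have h2 := hev.pow 2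
      refine h2.congr_deriv ?_
      rw [hV]
      simp only
      push_cast
      ring
  have hderiv_le : ∀ t ∈ Ioo 0 T, ∫ x, 2 * U t x * V t x ≤ ν := by
    intro t ht
    have ht' := Ioo_subset_Icc_self ht
    have h1 := Mass_id (k := k) hp hq (hU t ht') (he t ht')
    have h2 : ∫ x, 2 * U t x * V t x =
        ∫ x, (-(2 * (deriv (U t) x) ^ 2) + 2 * (deriv (U t) x * e t x)) := h1
    have h3 := (sq_le_nw hα.le (h.smooth' t ht') (hi t ht')).1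
    have iU : Integrable (fun x => (deriv (U t) x) ^ 2) := by
      have hc := Cl_int (by linarith) (by norm_num)
        (Cl_mul (Cl_deriv (hU t ht')) (Cl_deriv (hU t ht')))
      refine hc.congr (Eventually.of_forall fun x => ?_)
      simp only [pow_two]
    have ie : Integrable (fun x => (e t x) ^ 2) := by
      have hc := Cl_int (by linarith) (by norm_num) (Cl_mul (he t ht') (he t ht'))
      refine hc.congr (Eventually.of_forall fun x => ?_)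
      simp only [pow_two]
    have iUe : Integrable (fun x => deriv (U t) x * e t x) :=
      Cl_int (by linarith) (by norm_num) (Cl_mul (Cl_deriv (hU t ht')) (he t ht'))
    have h4 : ∫ x, (-(2 * (deriv (U t) x) ^ 2) + 2 * (deriv (U t) x * e t x)) ≤
        ∫ x, (e t x) ^ 2 := by
      refine integral_mono ((iU.const_mul 2).neg.add (iUe.const_mul 2)) ie fun x => ?_
      nlinarith [sq_nonneg (2 * deriv (U t) x - e t x), sq_nonneg (e t x)]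
    rw [h2]
    exact h4.trans (h3.trans (hν t ht'))
  have h0mem : (0 : ℝ) ∈ Icc 0 T := ⟨le_rfl, hT.le⟩
  have hν0 : 0 ≤ ν := (sq_le_nw hα.le (h.smooth' 0 h0mem) (hi 0 h0mem)).2.2.trans (hν 0 h0mem)
  intro t ht
  have hmv := (convex_Icc 0 T).image_sub_le_mul_sub_of_deriv_le hcont
    (by
      rw [interior_Icc]
      intro s hs
      exact (hder s hs).differentiableAt.differentiableWithinAt)
    (C := ν)
    (by
      rw [interior_Icc]
      intro s hs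
      rw [(hder s hs).deriv]
      exact hderiv_le s hs) 0 h0mem t ht ht.1
  have h5 : ν * (t - 0) ≤ T * ν := by
    rw [sub_zero, mul_comm]
    exact mul_le_mul_of_nonneg_right ht.2 hν0
  linarith

end H72KB

end S_H72_KB_Mass

section S_H72_KB_SupR

/-!
# Row SupR: sup bound from mass and gradient; lower bound for the scale

`sup_small`.  `A = ∫ (Q+ε)²`, `q₀ = ∫ Q²`, `N = ∫ ε² ≤ 2A + 2q₀`, so `N^k ≤ 4^k (A^k + q₀^k)`, and
`N^k l^{k-4} ≤ 4^k (M₀^k l₀^{k-4} + q₀^k l^{k-4}) ≤ 4^k (M₀^k + q₀^k 2^{k-4}) l₀^{k-4}` (`l ≤ 2 l₀`).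
`Cl_sup`: `|ε|⁴ ≤ 4 N X`, `X = Xn ε ≤ K8 l`.  So `|ε|^{4k} ≤ 4^k N^k X^k ≤ 4^k K8^k (N^k l^{k-4}) l^4 ≤ C₉ l₀^{k-4} l^4`,
`C₉ = 16^k K8^k (M₀^k + q₀^k 2^{k-4})`.  (i) `≤ 16 C₉ l₀^k ≤ 16 C₉ l₀ ≤ c^{4k}` if `l₀ ≤ ls` small (`l₀ ≤ 1`), hence
`|ε| ≤ c` (`pow_le_pow_left` contrapositive: `abs_le_of_pow_le`/`lt_of_pow_lt_pow_left`).
(ii) `(|ε|^{4(k-1)} X⁵)^k = (|ε|^{4k})^{k-1} X^{5k} ≤ (C₉ l⁴)^{k-1} (K8 l)^{5k}` (`l₀ ≤ 1`) `= C₉^{k-1} K8^{5k} l^{2k-4} l^{7k} ≤ (l^7)^k`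
when `C₉^{k-1} K8^{5k} l^{2k-4} ≤ 1`, true for `l ≤ 2 l₀ ≤ 2 ls` small (`l^{2k-4} ≤ l` for `l ≤ 1`, `k ≥ 5`); take `k`-th roots.

`lam_low`.  `W = Wf k U l x = Q + ε`, `∫ Q'² ≤ 2∫W'² + 2∫ε'²` so `∫ W'² ≥ (∫Q'² - 2X)/2 ≥ ∫Q'²/4`; `∫ W'² = l^{4/k+1} ∫ U'² ≤ l K`
(`Wf_X`, `sq_le_nw`, `l ≤ 1`, `4/k ≥ 0`).  (`Q'`, `ε'`, `W'` square integrable: class `Cl` with positive exponents;
`hα : 0 < α`, `l > 0`, `Wf_cl`.)
-/

open MeasureTheory Filter Topology Set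
open scoped ContDiff

namespace H72KB

open H98KB

theorem SupR_sq {p q : ℝ} {f : ℝ → ℝ} (hp : 0 < p) (hq : 0 < q) (hf : Cl p q f) :
    Integrable (fun y => (f y) ^ 2) := by
  have h := Cl_int (by linarith : 0 < p + p) (by linarith : 0 < q + q) (Cl_mul hf hf)
  refine h.congr (Eventually.of_forall fun y => ?_)
  simp only [pow_two]

theorem SupR_le {k : ℕ} (hk : 5 ≤ k) {K8 M₀ q₀ l l₀ N A X e : ℝ} (h8 : 0 < K8)
    (hq₀ : 0 < q₀) (hl : 0 < l) (hl₀ : 0 < l₀) (hll : l ≤ 2 * l₀)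
    (hN0 : 0 ≤ N) (hA : 0 ≤ A) (hX0 : 0 ≤ X) (he0 : 0 ≤ e) (hN : N ≤ 2 * A + 2 * q₀)
    (hX : X ≤ K8 * l) (hA2 : A ^ k * l ^ (k - 4) ≤ M₀ ^ k * l₀ ^ (k - 4)) (he : e ^ 4 ≤ 4 * N * X) :
    e ^ (4 * k) ≤ 16 ^ k * K8 ^ k * (M₀ ^ k + q₀ ^ k * 2 ^ (k - 4)) * l₀ ^ (k - 4) * l ^ 4 := by
  have h1 : N ^ k ≤ 4 ^ k * (A ^ k + q₀ ^ k) := by
    have h2 := add_pow_le hA hq₀.le k
    have h3 : N ^ k ≤ (2 * (A + q₀)) ^ k := pow_le_pow_left₀ hN0 (by linarith) k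
    have h4 : (2 : ℝ) ^ (k - 1) ≤ 2 ^ k := pow_le_pow_right₀ (by norm_num) (by omega)
    have h5 : 0 ≤ A ^ k + q₀ ^ k := by positivity
    have h6 := mul_le_mul_of_nonneg_right h4 h5
    calc N ^ k ≤ (2 * (A + q₀)) ^ k := h3
      _ = 2 ^ k * (A + q₀) ^ k := by rw [mul_pow]
      _ ≤ 2 ^ k * (2 ^ k * (A ^ k + q₀ ^ k)) :=
          mul_le_mul_of_nonneg_left (h2.trans h6) (by positivity)
      _ = 4 ^ k * (A ^ k + q₀ ^ k) := by
          rw [← mul_assoc, ← mul_pow]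
          norm_num
  have h2 : l ^ (k - 4) ≤ 2 ^ (k - 4) * l₀ ^ (k - 4) := by
    rw [← mul_pow]
    exact pow_le_pow_left₀ hl.le hll _
  have h3 : N ^ k * l ^ (k - 4) ≤ 4 ^ k * (M₀ ^ k + q₀ ^ k * 2 ^ (k - 4)) * l₀ ^ (k - 4) := by
    have h4 : 0 ≤ l ^ (k - 4) := by positivity
    have h5 := mul_le_mul_of_nonneg_right h1 h4
    have h6 := mul_le_mul_of_nonneg_left h2 (by positivity : 0 ≤ q₀ ^ k)
    have h7 : (0 : ℝ) ≤ 4 ^ k := by positivity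
    have h8 := mul_le_mul_of_nonneg_left (add_le_add hA2 h6) h7
    calc N ^ k * l ^ (k - 4) ≤ 4 ^ k * (A ^ k + q₀ ^ k) * l ^ (k - 4) := h5
      _ = 4 ^ k * (A ^ k * l ^ (k - 4) + q₀ ^ k * l ^ (k - 4)) := by ring
      _ ≤ 4 ^ k * (M₀ ^ k * l₀ ^ (k - 4) + q₀ ^ k * (2 ^ (k - 4) * l₀ ^ (k - 4))) := h8
      _ = _ := by ring
  have h4 : e ^ (4 * k) ≤ 4 ^ k * N ^ k * X ^ k := by
    rw [pow_mul, ← mul_pow, ← mul_pow]
    exact pow_le_pow_left₀ (by positivity) he k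
  have h5 : X ^ k ≤ K8 ^ k * (l ^ (k - 4) * l ^ 4) := by
    rw [← pow_add, Nat.sub_add_cancel (by omega), ← mul_pow]
    exact pow_le_pow_left₀ hX0 hX k
  have h6 := mul_le_mul_of_nonneg_left h5 (by positivity : 0 ≤ 4 ^ k * N ^ k)
  have h7 := mul_le_mul_of_nonneg_left h3 (by positivity : 0 ≤ 4 ^ k * K8 ^ k * l ^ 4)
  have h8 : (16 : ℝ) ^ k = 4 ^ k * 4 ^ k := by
    rw [← mul_pow]
    norm_num
  calc e ^ (4 * k) ≤ 4 ^ k * N ^ k * X ^ k := h4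
    _ ≤ 4 ^ k * N ^ k * (K8 ^ k * (l ^ (k - 4) * l ^ 4)) := h6
    _ = 4 ^ k * K8 ^ k * l ^ 4 * (N ^ k * l ^ (k - 4)) := by ring
    _ ≤ 4 ^ k * K8 ^ k * l ^ 4 * (4 ^ k * (M₀ ^ k + q₀ ^ k * 2 ^ (k - 4)) * l₀ ^ (k - 4)) := h7
    _ = _ := by rw [h8]; ring

theorem sup_small {k : ℕ} (hk : 5 ≤ k) (K8 M₀ c : ℝ) (h8 : 0 < K8) (hM : 0 < M₀) (hc : 0 < c) :
    ∃ ls : ℝ, 0 < ls ∧ ∀ l₀, 0 < l₀ → l₀ ≤ ls → ∀ l, 0 < l → l ≤ 2 * l₀ →
      ∀ (p q : ℝ) (ε : ℝ → ℝ), 0 < p → 0 < q → p ≤ 1 → q ≤ 1 → Cl p q ε → Xn ε ≤ K8 * l →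
      (∫ y, (Qf k y + ε y) ^ 2) ^ k * l ^ (k - 4) ≤ M₀ ^ k * l₀ ^ (k - 4) →
      (∀ y, |ε y| ≤ c) ∧ ∀ y, |ε y| ^ (4 * (k - 1)) * (Xn ε) ^ 5 ≤ l ^ 7 := by
  have hk1 : 1 ≤ k := by omega
  have hq₀ : 0 < ∫ y, (Qf k y) ^ 2 := Qsq_pos hk1
  set q₀ : ℝ := ∫ y, (Qf k y) ^ 2 with hq₀def
  set C9 : ℝ := 16 ^ k * K8 ^ k * (M₀ ^ k + q₀ ^ k * 2 ^ (k - 4)) with hC9
  have hC9p : 0 < C9 := by positivity
  refine ⟨min (1 / 2) (min (c ^ (4 * k) / (16 * C9)) (1 / (2 * (C9 ^ (k - 1) * K8 ^ (5 * k))))),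
    by positivity, ?_⟩
  intro l₀ hl₀ hls l hl hll p q ε hp hq hp1 hq1 hε hX hmass
  have hl₀1 : l₀ ≤ 1 / 2 := hls.trans (min_le_left _ _)
  have hl₀2 : l₀ ≤ c ^ (4 * k) / (16 * C9) := hls.trans ((min_le_right _ _).trans (min_le_left _ _))
  have hl₀3 : l₀ ≤ 1 / (2 * (C9 ^ (k - 1) * K8 ^ (5 * k))) :=
    hls.trans ((min_le_right _ _).trans (min_le_right _ _))
  have hl1 : l ≤ 1 := by linarith
  have hQcl := Q_cl hk1
  have hiQ : Integrable (fun y => (Qf k y) ^ 2) := SupR_sq one_pos one_pos hQcl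
  have hiε : Integrable (fun y => (ε y) ^ 2) := SupR_sq hp hq hε
  have hiS : Integrable (fun y => (Qf k y + ε y) ^ 2) :=
    SupR_sq hp hq (Cl_add (Cl_mono hp1 hq1 hQcl) hε)
  have hA0 : 0 ≤ ∫ y, (Qf k y + ε y) ^ 2 := integral_nonneg fun y => sq_nonneg _
  have hN0 : 0 ≤ ∫ y, (ε y) ^ 2 := integral_nonneg fun y => sq_nonneg _
  have hX0 : 0 ≤ Xn ε := integral_nonneg fun y => sq_nonneg _
  have hN : ∫ y, (ε y) ^ 2 ≤ 2 * (∫ y, (Qf k y + ε y) ^ 2) + 2 * q₀ := by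
    rw [hq₀def, ← integral_const_mul, ← integral_const_mul,
      ← integral_add (hiS.const_mul 2) (hiQ.const_mul 2)]
    refine integral_mono hiε ((hiS.const_mul 2).add (hiQ.const_mul 2)) fun y => ?_
    change (ε y) ^ 2 ≤ 2 * (Qf k y + ε y) ^ 2 + 2 * (Qf k y) ^ 2
    nlinarith [sq_nonneg (2 * Qf k y + ε y)]
  have key : ∀ y, |ε y| ^ (4 * k) ≤ C9 * l₀ ^ (k - 4) * l ^ 4 := by
    intro y
    have h4 : |ε y| ^ 4 ≤ 4 * (∫ z, (ε z) ^ 2) * Xn ε := Cl_sup hp hq hε y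
    exact SupR_le hk h8 hq₀ hl hl₀ hll hN0 hA0 hX0 (abs_nonneg _) hN hX hmass h4
  constructor
  · intro y
    have h1 := key y
    have h2 : l ^ 4 ≤ 16 * l₀ ^ 4 := by
      calc l ^ 4 ≤ (2 * l₀) ^ 4 := pow_le_pow_left₀ hl.le hll 4
        _ = 16 * l₀ ^ 4 := by ring
    have h3 : l₀ ^ k ≤ l₀ := by
      calc l₀ ^ k ≤ l₀ ^ 1 := pow_le_pow_of_le_one hl₀.le (by linarith) (by omega)
        _ = l₀ := pow_one _
    have h4 : l₀ ^ (k - 4) * l₀ ^ 4 = l₀ ^ k := by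
      rw [← pow_add, Nat.sub_add_cancel (by omega)]
    rw [le_div_iff₀ (by positivity)] at hl₀2
    have h5 : |ε y| ^ (4 * k) ≤ c ^ (4 * k) := by
      calc |ε y| ^ (4 * k) ≤ C9 * l₀ ^ (k - 4) * l ^ 4 := h1
        _ ≤ C9 * l₀ ^ (k - 4) * (16 * l₀ ^ 4) := mul_le_mul_of_nonneg_left h2 (by positivity)
        _ = 16 * C9 * (l₀ ^ (k - 4) * l₀ ^ 4) := by ring
        _ = 16 * C9 * l₀ ^ k := by rw [h4]
        _ ≤ 16 * C9 * l₀ := mul_le_mul_of_nonneg_left h3 (by positivity)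
        _ = l₀ * (16 * C9) := by ring
        _ ≤ c ^ (4 * k) := hl₀2
    exact (pow_le_pow_iff_left₀ (abs_nonneg _) hc.le (by omega)).1 h5
  · intro y
    have h1 := key y
    have h2 : |ε y| ^ (4 * k) ≤ C9 * l ^ 4 := by
      have h3 : l₀ ^ (k - 4) ≤ 1 := pow_le_one₀ hl₀.le (by linarith)
      calc |ε y| ^ (4 * k) ≤ C9 * l₀ ^ (k - 4) * l ^ 4 := h1
        _ ≤ C9 * 1 * l ^ 4 :=
          mul_le_mul_of_nonneg_right (mul_le_mul_of_nonneg_left h3 hC9p.le) (by positivity)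
        _ = C9 * l ^ 4 := by ring
    have h3 : (|ε y| ^ (4 * (k - 1)) * (Xn ε) ^ 5) ^ k ≤ (l ^ 7) ^ k := by
      have e1 : (|ε y| ^ (4 * (k - 1)) * (Xn ε) ^ 5) ^ k =
          (|ε y| ^ (4 * k)) ^ (k - 1) * ((Xn ε) ^ 5) ^ k := by
        have e0 : 4 * (k - 1) * k = 4 * k * (k - 1) := by ring
        rw [mul_pow, ← pow_mul (|ε y|) (4 * (k - 1)) k, ← pow_mul (|ε y|) (4 * k) (k - 1), e0]
      have h4 : (|ε y| ^ (4 * k)) ^ (k - 1) ≤ (C9 * l ^ 4) ^ (k - 1) :=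
        pow_le_pow_left₀ (by positivity) h2 _
      have h5 : ((Xn ε) ^ 5) ^ k ≤ ((K8 * l) ^ 5) ^ k :=
        pow_le_pow_left₀ (by positivity) (pow_le_pow_left₀ hX0 hX 5) k
      have h6 : l ^ (2 * k - 4) ≤ l := by
        calc l ^ (2 * k - 4) ≤ l ^ 1 := pow_le_pow_of_le_one hl.le hl1 (by omega)
          _ = l := pow_one _
      have h7 : C9 ^ (k - 1) * K8 ^ (5 * k) * l ≤ 1 := by
        rw [le_div_iff₀ (by positivity)] at hl₀3
        calc C9 ^ (k - 1) * K8 ^ (5 * k) * l ≤ C9 ^ (k - 1) * K8 ^ (5 * k) * (2 * l₀) :=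
              mul_le_mul_of_nonneg_left hll (by positivity)
          _ = l₀ * (2 * (C9 ^ (k - 1) * K8 ^ (5 * k))) := by ring
          _ ≤ 1 := hl₀3
      have e2 : (C9 * l ^ 4) ^ (k - 1) * ((K8 * l) ^ 5) ^ k =
          C9 ^ (k - 1) * K8 ^ (5 * k) * l ^ (2 * k - 4) * (l ^ 7) ^ k := by
        have e3 : l ^ (4 * (k - 1)) * l ^ (5 * k) = l ^ (2 * k - 4) * l ^ (7 * k) := by
          rw [← pow_add, ← pow_add]
          congr 1
          omega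
        rw [mul_pow, mul_pow K8 l 5, mul_pow (K8 ^ 5), ← pow_mul, ← pow_mul, ← pow_mul, ← pow_mul]
        calc C9 ^ (k - 1) * l ^ (4 * (k - 1)) * (K8 ^ (5 * k) * l ^ (5 * k))
            = C9 ^ (k - 1) * K8 ^ (5 * k) * (l ^ (4 * (k - 1)) * l ^ (5 * k)) := by ring
          _ = _ := by rw [e3]; ring
      rw [e1]
      calc (|ε y| ^ (4 * k)) ^ (k - 1) * ((Xn ε) ^ 5) ^ k
          ≤ (C9 * l ^ 4) ^ (k - 1) * ((K8 * l) ^ 5) ^ k :=
            mul_le_mul h4 h5 (by positivity) (by positivity)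
        _ = C9 ^ (k - 1) * K8 ^ (5 * k) * l ^ (2 * k - 4) * (l ^ 7) ^ k := e2
        _ ≤ C9 ^ (k - 1) * K8 ^ (5 * k) * l * (l ^ 7) ^ k :=
            mul_le_mul_of_nonneg_right (mul_le_mul_of_nonneg_left h6 (by positivity))
              (by positivity)
        _ ≤ 1 * (l ^ 7) ^ k := mul_le_mul_of_nonneg_right h7 (by positivity)
        _ = (l ^ 7) ^ k := one_mul _
    exact (pow_le_pow_iff_left₀ (by positivity) (by positivity) (by omega)).1 h3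

theorem lam_low {k : ℕ} (hk : 5 ≤ k) {α l x K : ℝ} {U : ℝ → ℝ} (hα : 0 < α) (hl : 0 < l)
    (hl1 : l ≤ 1) (hK : 0 < K) (hU : Cl (α / 2) (1 / 16) U)
    (hi : Integrable (fun x => wt α x * ((U x) ^ 2 + (deriv U x) ^ 2))) (hn : nw α U ≤ K)
    (hX : Xn (epf k U l x) ≤ (∫ y, (deriv (Qf k) y) ^ 2) / 4) :
    (∫ y, (deriv (Qf k) y) ^ 2) / (4 * K) ≤ l := by
  have hk1 : 1 ≤ k := by omega
  have hW := Wf_cl (k := k) hα.le hl.le x hU
  have hQ := Q_cl hk1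
  have hp : 0 < l * (α / 2) := by positivity
  have hq : 0 < l * (1 / 16) := by positivity
  have hiW : Integrable (fun y => (deriv (Wf k U l x) y) ^ 2) := SupR_sq hp hq (Cl_deriv hW)
  have hiQ : Integrable (fun y => (deriv (Qf k) y) ^ 2) := SupR_sq one_pos one_pos (Cl_deriv hQ)
  have hder : ∀ y, deriv (epf k U l x) y = deriv (Wf k U l x) y - deriv (Qf k) y := by
    intro y
    have e : epf k U l x = fun y => Wf k U l x y - Qf k y := rfl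
    rw [e]
    exact deriv_fun_sub ((hW.1.differentiable (by simp)) y) ((hQ.1.differentiable (by simp)) y)
  have hp' : 0 < min (l * (α / 2)) 1 := lt_min hp one_pos
  have hq' : 0 < min (l * (1 / 16)) 1 := lt_min hq one_pos
  have hiE : Integrable (fun y => (deriv (epf k U l x) y) ^ 2) := by
    have h1 : Cl (min (l * (α / 2)) 1) (min (l * (1 / 16)) 1)
        (fun y => deriv (Wf k U l x) y - deriv (Qf k) y) :=
      Cl_sub (Cl_mono (min_le_left _ _) (min_le_left _ _) (Cl_deriv hW))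
        (Cl_mono (min_le_right _ _) (min_le_right _ _) (Cl_deriv hQ))
    refine (SupR_sq hp' hq' h1).congr (Eventually.of_forall fun y => ?_)
    simp only [hder]
  have h1 : ∫ y, (deriv (Qf k) y) ^ 2 ≤ 2 * Xn (Wf k U l x) + 2 * Xn (epf k U l x) := by
    unfold Xn
    rw [← integral_const_mul, ← integral_const_mul,
      ← integral_add (hiW.const_mul 2) (hiE.const_mul 2)]
    refine integral_mono hiQ ((hiW.const_mul 2).add (hiE.const_mul 2)) fun y => ?_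
    change (deriv (Qf k) y) ^ 2 ≤ 2 * (deriv (Wf k U l x) y) ^ 2 + 2 * (deriv (epf k U l x) y) ^ 2
    rw [hder]
    nlinarith [sq_nonneg (2 * deriv (Wf k U l x) y - deriv (Qf k) y)]
  have h2 := Wf_X (k := k) hU.1 hl x
  have h3 := (sq_le_nw hα.le hU.1 hi).2.1
  have hk0 : (0 : ℝ) < k := qbas_kpos hk1
  have h4 : l ^ (4 / (k : ℝ) + 1) ≤ l := by
    have h5 : l ^ (4 / (k : ℝ) + 1) ≤ l ^ (1 : ℝ) :=
      Real.rpow_le_rpow_of_exponent_ge hl hl1 (by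
        have : 0 < 4 / (k : ℝ) := by positivity
        linarith)
    rwa [Real.rpow_one] at h5
  have h5 : Xn (Wf k U l x) ≤ l * K := by
    rw [h2]
    exact mul_le_mul h4 (h3.trans hn) (integral_nonneg fun y => sq_nonneg _) hl.le
  rw [div_le_iff₀ (by positivity)]
  nlinarith

/-- the mass condition in the form used by `sup_small` -/
theorem mass_pow {k : ℕ} (hk : 5 ≤ k) {A l l₀ M₀ : ℝ} (hA : 0 ≤ A) (hl : 0 < l) (hl₀ : 0 < l₀)
    (hM : 0 ≤ M₀) (h : A ≤ l ^ (4 / (k : ℝ) - 1) * (l₀ ^ (1 - 4 / (k : ℝ)) * M₀)) :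
    A ^ k * l ^ (k - 4) ≤ M₀ ^ k * l₀ ^ (k - 4) := by
  -- raise to the power `k`: `(l^{4/k-1})^k = l^{4-k}`, `(l₀^{1-4/k})^k = l₀^{k-4}`
  have hk0 : (k : ℝ) ≠ 0 := qbas_k0 (by omega)
  have hcast : ((k - 4 : ℕ) : ℝ) = (k : ℝ) - 4 := by
    rw [Nat.cast_sub (by omega)]
    norm_num
  have e1 : (l ^ (4 / (k : ℝ) - 1)) ^ k * l ^ (k - 4) = 1 := by
    rw [← Real.rpow_natCast (l ^ (4 / (k : ℝ) - 1)), ← Real.rpow_mul hl.le,
      ← Real.rpow_natCast l (k - 4), ← Real.rpow_add hl, hcast]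
    have e : (4 / (k : ℝ) - 1) * (k : ℝ) + ((k : ℝ) - 4) = 0 := by
      field_simp
      ring
    rw [e, Real.rpow_zero]
  have e2 : (l₀ ^ (1 - 4 / (k : ℝ))) ^ k = l₀ ^ (k - 4) := by
    rw [← Real.rpow_natCast (l₀ ^ (1 - 4 / (k : ℝ))), ← Real.rpow_mul hl₀.le,
      ← Real.rpow_natCast l₀ (k - 4), hcast]
    congr 1
    field_simp
  have h1 := pow_le_pow_left₀ hA h k
  have h2 := mul_le_mul_of_nonneg_right h1 (by positivity : 0 ≤ l ^ (k - 4))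
  refine h2.trans (le_of_eq ?_)
  rw [mul_pow, mul_pow, e2]
  calc (l ^ (4 / (k : ℝ) - 1)) ^ k * (l₀ ^ (k - 4) * M₀ ^ k) * l ^ (k - 4)
      = ((l ^ (4 / (k : ℝ) - 1)) ^ k * l ^ (k - 4)) * (M₀ ^ k * l₀ ^ (k - 4)) := by ring
    _ = _ := by rw [e1, one_mul]

end H72KB

end S_H72_KB_SupR

section S_H72_KB_StC

/-!
# Row StC: the barrier inequalities T2 and T3 (real arithmetic from `Good` and `St`)

Notation and proofs: see the header of StA.lean.  Repeated here: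
`st_T2`: `DL`: `|ip ζ φ0| ≤ C(√n + l + √Ge)`, `LN`: `|φ| ≤ C√n`: `2|φ||ip ζ φ0| ≤ 2C²√n(√n+l+√Ge) ≤ 4C²n + C²l² + C²Ge`
 (`2√n l ≤ n + l²`, `2√n√Ge ≤ n + Ge`); `K2 W3 ≤ -5C²n + 4CK2 l²` (`K2 c = 5C²`; drop `TT, G`).  Sum `≤ -C²n + (2C²+4CK2) l²`
 (`Ge ≤ l²`).  If `Z = φ²+K2 L ≥ K3μl/2` then `φ² ≥ K3μl/2 - K2μl ≥ K3μl/4` (`L < μl`, `4K2 ≤ K3`) and `C²n ≥ φ²`, so
 sum `≤ -K3μl/4 + (2C²+4CK2) l² < -2κK3μl² ≤ -K3μbl` by the numerical hypothesis.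
`st_T3`: `DX`: `2 ip(ε',ζ') ≤ -2b(1-sc)X + 2C(TT+n) + 2Cl² + 2C Ge + (2C/l) Xe`; `K6 W3 ≤ -2C(TT+n) + 4CK6 l²` (`K6 c = 2C`);
 so the sum is `≤ -2b(1-sc)X + C₇ l²`, `C₇ = 2C+4CK6+1` (`2Cν + 2Cν/l ≤ l²`).  `2(1-sc) = 1+4/k ≤ 2`.  If
 `X + K6 L ≥ (k+3)/(k+4) K7 l` then `X ≥ (k+3)/(k+4) K7 l - K6μl`, `(1+4/k)(k+3)/(k+4) = 1+3/k`, so
 `2b(1-sc)X ≥ b l ((1+3/k)K7 - 2K6μ)` (`b ≥ 0`), and the sum is `≤ -K7bl - (3/k)K7 b l + 2K6μ b l + C₇l² < -K7bl` since `b ≥ κl/2`,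
 `b ≤ 2κl` and the numerical hypothesis.
-/

open MeasureTheory Filter Topology Set
open scoped ContDiff

namespace H72KB

open H98KB

theorem StC_key {s l g C φ z : ℝ} (hs : 0 ≤ s) (hC : 0 ≤ C) (hφ : |φ| ≤ C * s)
    (hz : |z| ≤ C * (s + l + g)) :
    2 * φ * z ≤ 4 * C ^ 2 * s ^ 2 + C ^ 2 * l ^ 2 + C ^ 2 * g ^ 2 := by
  have h1 : φ * z ≤ |φ| * |z| := by
    rw [← abs_mul]
    exact le_abs_self _
  have h2 : |φ| * |z| ≤ (C * s) * (C * (s + l + g)) :=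
    mul_le_mul hφ hz (abs_nonneg _) (mul_nonneg hC hs)
  have h3 : 0 ≤ C ^ 2 * ((s - l) ^ 2 + (s - g) ^ 2) := by positivity
  nlinarith

theorem st_T2 {k : ℕ} {γ η δ M B c C R μ K2 K3 K6 K7 ν₁ ν l b m p q : ℝ} {ε e : ℝ → ℝ}
    (hG : Good k γ η δ M B c C) (h : St k γ η δ M B c R μ K2 K3 K6 K7 ν₁ ν l b m p q ε e)
    (hm : W3 k η γ δ M B R l b m ε e ≤ -c * (Tn B (R * l) ε + ln γ B ε)
      - c * R * l * Gn B (R * l) ε + 4 * C * l ^ 2)
    (hR : 0 < R) (hμ : 0 < μ) (hκ : 0 < kap k) (hK2 : K2 = 5 * C ^ 2 / c) (hK3 : 4 * K2 ≤ K3)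
    (hν : ν ≤ l ^ 2)
    (hn : l * (2 * C ^ 2 + 4 * C * K2 + 2 * kap k * K3 * μ) < K3 * μ / 4)
    (hZ : K3 * μ * l / 2 ≤ (ip ε (ph0 k)) ^ 2 + K2 * LL k η γ δ M B (R * l) ε) :
    2 * ip ε (ph0 k) * ip (zeta k b m l ε e) (ph0 k) + K2 * W3 k η γ δ M B R l b m ε e <
      -(K3 * μ * b * l) := by
  have hC : 1 ≤ C := hG.hC
  have hC0 : 0 < C := by linarith
  have hc := hG.hc
  have hB := hG.hB
  have hB0 : 0 < B := by linarith
  have hl := h.l0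
  have hRl : 0 < R * l := mul_pos hR hl
  have hT := Tn_nonneg hB0 hRl.le ε
  have hn0 := ln_nonneg γ B ε
  have hG0 := Gn_nonneg hB0 (ρ := R * l) ε
  have hGe0 := Gn_nonneg hB0 (ρ := R * l) e
  have hge := h.ge
  have hb0 : 0 ≤ b := by
    have h1 := h.b1
    have h2 : 0 < kap k * l := mul_pos hκ hl
    linarith
  have hK2p : 0 < K2 := by
    rw [hK2]
    positivity
  have hK3p : 0 < K3 := by linarith
  have hK2c : K2 * c = 5 * C ^ 2 := by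
    rw [hK2]
    field_simp
  obtain ⟨-, hφ, -, -⟩ := hG.LN (R * l) h.slow p q ε h.a1
  have hz := hG.DL (R * l) h.slow l hl h.l1 p q ε e h.a1 h.a2 h.sup h.ln1 h.ge1 b m hb0 h.b2
    h.orth
  have hs0 : 0 ≤ √(ln γ B ε) := Real.sqrt_nonneg _
  have hs2 : √(ln γ B ε) ^ 2 = ln γ B ε := Real.sq_sqrt hn0
  have hg2 : √(Gn B (R * l) e) ^ 2 = Gn B (R * l) e := Real.sq_sqrt hGe0
  have hkey := StC_key hs0 hC0.le hφ hz
  rw [hs2, hg2] at hkey
  have hφ2 : (ip ε (ph0 k)) ^ 2 ≤ C ^ 2 * ln γ B ε := by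
    have h1 : (ip ε (ph0 k)) ^ 2 ≤ (C * √(ln γ B ε)) ^ 2 := by
      rw [← sq_abs (ip ε (ph0 k))]
      exact pow_le_pow_left₀ (abs_nonneg _) hφ 2
    rw [mul_pow, hs2] at h1
    exact h1
  have hW := mul_le_mul_of_nonneg_left hm hK2p.le
  have hW2 : K2 * (-c * (Tn B (R * l) ε + ln γ B ε)
      - c * R * l * Gn B (R * l) ε + 4 * C * l ^ 2) ≤ -(5 * C ^ 2) * ln γ B ε
        + 4 * C * K2 * l ^ 2 := by
    have e1 : 0 ≤ K2 * c * Tn B (R * l) ε := by positivity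
    have e2 : 0 ≤ K2 * c * (R * l) * Gn B (R * l) ε := by positivity
    have e3 : K2 * (-c * (Tn B (R * l) ε + ln γ B ε)
      - c * R * l * Gn B (R * l) ε + 4 * C * l ^ 2) = -(K2 * c * Tn B (R * l) ε)
        - K2 * c * ln γ B ε - K2 * c * (R * l) * Gn B (R * l) ε + 4 * C * K2 * l ^ 2 := by ring
    rw [e3]
    have e4 : K2 * c * ln γ B ε = 5 * C ^ 2 * ln γ B ε := by rw [hK2c]
    linarith
  have hGe : C ^ 2 * Gn B (R * l) e ≤ C ^ 2 * l ^ 2 :=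
    mul_le_mul_of_nonneg_left (hge.trans hν) (by positivity)
  have hφl : K3 * μ * l / 4 ≤ (ip ε (ph0 k)) ^ 2 := by
    have h1 := mul_le_mul_of_nonneg_left h.reg.w1.le hK2p.le
    have h2 : 4 * K2 * (μ * l) ≤ K3 * (μ * l) :=
      mul_le_mul_of_nonneg_right hK3 (by positivity)
    nlinarith
  have hnl := mul_lt_mul_of_pos_right hn hl
  have hbl : K3 * μ * b * l ≤ K3 * μ * (2 * kap k * l) * l := by
    have h1 := mul_le_mul_of_nonneg_left h.b2 (mul_pos hK3p hμ).le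
    exact mul_le_mul_of_nonneg_right h1 hl.le
  have hx : l * (2 * C ^ 2 + 4 * C * K2 + 2 * kap k * K3 * μ) * l =
      (2 * C ^ 2 + 4 * C * K2) * l ^ 2 + K3 * μ * (2 * kap k * l) * l := by ring
  have hy : K3 * μ / 4 * l = K3 * μ * l / 4 := by ring
  rw [hx, hy] at hnl
  linarith

theorem st_T3 {k : ℕ} {γ η δ M B c C R μ K2 K3 K6 K7 ν₁ ν l b m p q : ℝ} {ε e : ℝ → ℝ}
    (hk : 5 ≤ k) (hG : Good k γ η δ M B c C)
    (h : St k γ η δ M B c R μ K2 K3 K6 K7 ν₁ ν l b m p q ε e)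
    (hm : W3 k η γ δ M B R l b m ε e ≤ -c * (Tn B (R * l) ε + ln γ B ε)
      - c * R * l * Gn B (R * l) ε + 4 * C * l ^ 2)
    (hR : 0 < R) (hμ : 0 < μ) (hκ : 0 < kap k) (hK6 : K6 = 2 * C / c)
    (hν : 2 * C * ν + 2 * C * ν / l ≤ l ^ 2)
    (hn : 4 * kap k * K6 * μ + (2 * C + 4 * C * K6 + 1) < kap k * (3 / (2 * (k : ℝ))) * K7)
    (hX : ((k : ℝ) + 3) / ((k : ℝ) + 4) * K7 * l ≤ Xn ε + K6 * LL k η γ δ M B (R * l) ε) :
    2 * ip (deriv ε) (deriv (zeta k b m l ε e)) + K6 * W3 k η γ δ M B R l b m ε e <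
      -(K7 * b * l) := by
  have hC : 1 ≤ C := hG.hC
  have hC0 : 0 < C := by linarith
  have hc := hG.hc
  have hB := hG.hB
  have hB0 : 0 < B := by linarith
  have hl := h.l0
  have hk5 : (5 : ℝ) ≤ (k : ℝ) := by exact_mod_cast hk
  have hk0 : (0 : ℝ) < (k : ℝ) := by linarith
  have hRl : 0 < R * l := mul_pos hR hl
  have hT := Tn_nonneg hB0 hRl.le ε
  have hn0 := ln_nonneg γ B ε
  have hG0 := Gn_nonneg hB0 (ρ := R * l) ε
  have hXe0 := Xn_nonneg e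
  have hκl : 0 < kap k * l := mul_pos hκ hl
  have hb1 := h.b1
  have hb0 : 0 < b := by linarith
  have hK6p : 0 < K6 := by
    rw [hK6]
    positivity
  have hK6c : K6 * c = 2 * C := by
    rw [hK6]
    field_simp
  have hK7p : 0 < K7 := by
    have h1 : 0 < kap k * (3 / (2 * (k : ℝ))) * K7 := by
      have : 0 < 4 * kap k * K6 * μ + (2 * C + 4 * C * K6 + 1) := by positivity
      linarith
    have h2 : 0 < kap k * (3 / (2 * (k : ℝ))) := by positivity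
    exact (mul_pos_iff_of_pos_left h2).1 h1
  have hD := hG.DX (R * l) h.slow l hl h.l1 p q ε e h.a1 h.a2 h.sup h.ln1 h.ge1 h.dx b m hb0.le
    h.b2 h.orth
  have hW := mul_le_mul_of_nonneg_left hm hK6p.le
  have hW2 : K6 * (-c * (Tn B (R * l) ε + ln γ B ε)
      - c * R * l * Gn B (R * l) ε + 4 * C * l ^ 2) ≤ -(2 * C) * (Tn B (R * l) ε + ln γ B ε)
        + 4 * C * K6 * l ^ 2 := by
    have e2 : 0 ≤ K6 * c * (R * l) * Gn B (R * l) ε := by positivity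
    have e3 : K6 * (-c * (Tn B (R * l) ε + ln γ B ε)
      - c * R * l * Gn B (R * l) ε + 4 * C * l ^ 2) = -(K6 * c * (Tn B (R * l) ε + ln γ B ε))
        - K6 * c * (R * l) * Gn B (R * l) ε + 4 * C * K6 * l ^ 2 := by ring
    rw [e3]
    have e4 : K6 * c * (Tn B (R * l) ε + ln γ B ε) = 2 * C * (Tn B (R * l) ε + ln γ B ε) := by
      rw [hK6c]
    linarith
  have hge : 2 * C * Gn B (R * l) e ≤ 2 * C * ν :=
    mul_le_mul_of_nonneg_left h.ge (by positivity)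
  have hxe : 2 * (C / l * Xn e) ≤ 2 * C * ν / l := by
    have h1 := mul_le_mul_of_nonneg_left h.xe (div_pos hC0 hl).le
    have h2 : 2 * C * ν / l = 2 * (C / l * ν) := by ring
    rw [h2]
    linarith
  have hsc : 1 - sc k = 1 / 2 + 2 / (k : ℝ) := by
    unfold sc
    ring
  have hXl : ((k : ℝ) + 3) / ((k : ℝ) + 4) * K7 * l - K6 * (μ * l) ≤ Xn ε := by
    have h1 := mul_le_mul_of_nonneg_left h.reg.w1.le hK6p.le
    linarith
  have hfac : 0 < b * (1 + 4 / (k : ℝ)) := by positivity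
  have hmain := mul_le_mul_of_nonneg_left hXl hfac.le
  have hid : b * (1 + 4 / (k : ℝ)) * (((k : ℝ) + 3) / ((k : ℝ) + 4) * K7 * l - K6 * (μ * l)) =
      b * l * ((1 + 3 / (k : ℝ)) * K7) - b * l * ((1 + 4 / (k : ℝ)) * (K6 * μ)) := by
    field_simp
  have h4k : 4 / (k : ℝ) ≤ 1 := by
    rw [div_le_one hk0]
    linarith
  have hbl : 0 < b * l := mul_pos hb0 hl
  have hle1 : b * l * ((1 + 4 / (k : ℝ)) * (K6 * μ)) ≤ 4 * kap k * K6 * μ * l ^ 2 := by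
    have h1 : (1 + 4 / (k : ℝ)) * (K6 * μ) ≤ 2 * (K6 * μ) :=
      mul_le_mul_of_nonneg_right (by linarith) (by positivity)
    have h2 : b * l ≤ 2 * kap k * l * l := mul_le_mul_of_nonneg_right h.b2 hl.le
    calc b * l * ((1 + 4 / (k : ℝ)) * (K6 * μ)) ≤ b * l * (2 * (K6 * μ)) :=
          mul_le_mul_of_nonneg_left h1 hbl.le
      _ ≤ 2 * kap k * l * l * (2 * (K6 * μ)) := mul_le_mul_of_nonneg_right h2 (by positivity)
      _ = 4 * kap k * K6 * μ * l ^ 2 := by ring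
  have hle2 : kap k * (3 / (2 * (k : ℝ))) * K7 * l ^ 2 ≤ b * l * (3 / (k : ℝ) * K7) := by
    have h2 : kap k * l / 2 * l ≤ b * l := mul_le_mul_of_nonneg_right hb1 hl.le
    have h0 : 0 ≤ 3 / (k : ℝ) * K7 := by positivity
    have h3 := mul_le_mul_of_nonneg_right h2 h0
    calc kap k * (3 / (2 * (k : ℝ))) * K7 * l ^ 2 = kap k * l / 2 * l * (3 / (k : ℝ) * K7) := by
          field_simp
      _ ≤ _ := h3
  have hnl := mul_lt_mul_of_pos_right hn (pow_pos hl 2)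
  rw [hid] at hmain
  rw [hsc] at hD
  have hD2 : 2 * (-b * (1 / 2 + 2 / (k : ℝ)) * Xn ε) = -(b * (1 + 4 / (k : ℝ)) * Xn ε) := by ring
  have hsplit : b * l * ((1 + 3 / (k : ℝ)) * K7) = K7 * b * l + b * l * (3 / (k : ℝ) * K7) := by
    ring
  have hx : (4 * kap k * K6 * μ + (2 * C + 4 * C * K6 + 1)) * l ^ 2 =
      4 * kap k * K6 * μ * l ^ 2 + 2 * C * l ^ 2 + 4 * C * K6 * l ^ 2 + l ^ 2 := by ring
  rw [hx] at hnl
  linarith

end H72KB

end S_H72_KB_StC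

section S_H72_KB_StD

/-!
# Row StD: the static theorem (choice of all constants)

Order: `K2 = 5C²/c`, `K6 = 2C/c`, `K3 = max (A3+K2+2) (4K2)` (or the sum), `C₇ = 2C+4CK6+1`, `K7` with
 `A7+K6+2 ≤ K7`, `4κK6 + C₇ < κ (3/(2k)) K7`;  `μ = min 1 μs` (`μs` of `st_bounds` for `K2, K3`); `R ≥ max 1 C` with
 `4C + 2κμ < c R μ/(2C)`;  `l₁` from `Good.ML R`; `ls₁` from `st_bounds`, `ls₂` from `sup_small` with `K8 = K7+4K6`, and
 `ls₃`: `2 ls₃ ≤ l₁`, `2 ls₃ (2C²+4CK2+2κK3μ) < K3μ/4`, `2 ls₃ (K7+4K6) ≤ (∫Q'²)/4`.  `ls` = the minimum (and `≤ 1/2`).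
First conclusion: `st_X` and `μ ≤ 1`.
Second: given `lm`: `νs` = min of `st_bounds`' one and: `νs² ≤ lm²`, `νs ≤ lm³`, `νs ≤ lm²`, `νs² ≤ μ lm`,
 `2Cνs + 2Cνs/lm ≤ lm²`, `νs ≤ 1`.  For the state: `sup_small` (`Xn ε ≤ (K7+4K6) l`; exponents from `Adm`: `0 ≤ R l < p`) gives
 `|ε| ≤ c` and `dx`; `st_bounds` gives the rest of `St` (with `ν = νs`); then `st_main`, `st_T1`, `st_T2`, `st_T3`, `st_nz`
 (all `νs` conditions transfer from `lm` to `l ≥ lm` by monotonicity).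
-/

open MeasureTheory Filter Topology Set
open scoped ContDiff

namespace H72KB

open H98KB

theorem static {k : ℕ} (hk : 5 ≤ k) {γ η δ M B c C : ℝ} (hG : Good k γ η δ M B c C)
    (A3 A7 M₀ : ℝ) (hA3 : 0 ≤ A3) (hA7 : 0 ≤ A7) (hM : 0 < M₀) :
    ∃ K2 K3 K6 K7 μ R : ℝ, 0 < K2 ∧ 0 < K6 ∧ A3 + K2 + 2 ≤ K3 ∧ A7 + K6 + 2 ≤ K7 ∧ 0 < μ ∧
      μ ≤ 1 ∧ 1 ≤ R ∧ ∃ ls : ℝ, 0 < ls ∧ ls ≤ 1 / 2 ∧ ∀ l₀, 0 < l₀ → l₀ ≤ ls →
      (∀ (l ν₁ : ℝ) (ε : ℝ → ℝ), 0 < l → l ≤ 2 * l₀ → Reg k γ η δ M B R μ K2 K3 K6 K7 ν₁ l ε →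
        Xn ε ≤ (∫ y, (deriv (Qf k) y) ^ 2) / 4) ∧
      ∀ lm, 0 < lm → ∃ νs : ℝ, 0 < νs ∧ ∀ ν₁, 0 < ν₁ → ν₁ ≤ νs → ∀ l, lm ≤ l → l ≤ 2 * l₀ →
        ∀ (p q : ℝ) (ε e : ℝ → ℝ), Adm (R * l) p q ε → Adm (R * l) p q e →
        (∫ y, (Qf k y + ε y) ^ 2) ^ k * l ^ (k - 4) ≤ M₀ ^ k * l₀ ^ (k - 4) →
        Reg k γ η δ M B R μ K2 K3 K6 K7 ν₁ l ε → Gn B (R * l) e ≤ νs → Xn e ≤ νs →
        Dyn k γ η δ M B R μ K2 K3 K6 K7 l (bfn k l (fun y => Qf k y + ε y) e)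
          (mfn k l (fun y => Qf k y + ε y) e) ε e := by
  have hκ := kap_pos hk
  have hQ' : 0 < ∫ y, (deriv (Qf k) y) ^ 2 := Q'sq_pos (by omega)
  have hC : 1 ≤ C := hG.hC
  have hC0 : 0 < C := by linarith
  have hc := hG.hc
  have hk0 : (0 : ℝ) < (k : ℝ) := by
    have : 0 < k := by omega
    exact_mod_cast this
  obtain ⟨K2, hK2d⟩ : ∃ K2 : ℝ, K2 = 5 * C ^ 2 / c := ⟨_, rfl⟩
  obtain ⟨K6, hK6d⟩ : ∃ K6 : ℝ, K6 = 2 * C / c := ⟨_, rfl⟩
  have hK2 : 0 < K2 := by rw [hK2d]; positivity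
  have hK6 : 0 < K6 := by rw [hK6d]; positivity
  obtain ⟨K3, hK3d⟩ : ∃ K3 : ℝ, K3 = A3 + 5 * K2 + 2 := ⟨_, rfl⟩
  have hK3 : 0 < K3 := by rw [hK3d]; positivity
  obtain ⟨K7, hK7d⟩ : ∃ K7 : ℝ, K7 = A7 + K6 + 2 +
      2 * (k : ℝ) / (3 * kap k) * (4 * kap k * K6 + (2 * C + 4 * C * K6 + 1) + 1) := ⟨_, rfl⟩
  have hK7p : 0 < 2 * (k : ℝ) / (3 * kap k) * (4 * kap k * K6 + (2 * C + 4 * C * K6 + 1) + 1) := by
    positivity
  have hK7 : 0 < K7 := by rw [hK7d]; positivity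
  have hK7n : 4 * kap k * K6 + (2 * C + 4 * C * K6 + 1) < kap k * (3 / (2 * (k : ℝ))) * K7 := by
    have h1 : kap k * (3 / (2 * (k : ℝ))) * (2 * (k : ℝ) / (3 * kap k) *
        (4 * kap k * K6 + (2 * C + 4 * C * K6 + 1) + 1)) =
        4 * kap k * K6 + (2 * C + 4 * C * K6 + 1) + 1 := by
      field_simp
    have h2 : 0 ≤ kap k * (3 / (2 * (k : ℝ))) * (A7 + K6 + 2) := by positivity
    rw [hK7d, mul_add, h1]
    linarith
  obtain ⟨μs, hμs, hstb⟩ := st_bounds hk hG K2 K3 hK2.le hK3.le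
  obtain ⟨μ, hμd⟩ : ∃ μ : ℝ, μ = min 1 μs := ⟨_, rfl⟩
  have hμ : 0 < μ := by rw [hμd]; exact lt_min one_pos hμs
  have hμ1 : μ ≤ 1 := by rw [hμd]; exact min_le_left _ _
  have hμ2 : μ ≤ μs := by rw [hμd]; exact min_le_right _ _
  obtain ⟨R, hRd⟩ : ∃ R : ℝ, R = C + 2 * C / (c * μ) * (4 * C + 2 * kap k * μ + 1) := ⟨_, rfl⟩
  have hRp : 0 < 2 * C / (c * μ) * (4 * C + 2 * kap k * μ + 1) := by positivity
  have hRC : C ≤ R := by rw [hRd]; linarith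
  have hR1 : 1 ≤ R := hC.trans hRC
  have hR0 : 0 < R := by linarith
  have hRn : 4 * C + 2 * kap k * μ < c * R * μ / (2 * C) := by
    have h1 : c * (2 * C / (c * μ) * (4 * C + 2 * kap k * μ + 1)) * μ / (2 * C) =
        4 * C + 2 * kap k * μ + 1 := by
      field_simp
    have h2 : 0 < c * C * μ / (2 * C) := by positivity
    have h3 : c * R * μ / (2 * C) = c * C * μ / (2 * C) +
        c * (2 * C / (c * μ) * (4 * C + 2 * kap k * μ + 1)) * μ / (2 * C) := by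
      rw [hRd]
      ring
    rw [h3, h1]
    linarith
  obtain ⟨l₁, hl₁, hl₁1, hML⟩ := hG.ML R hRC
  obtain ⟨ls₁, hls₁, hls₁2, hb1⟩ := hstb μ hμ hμ2 R hRC hR1
  have hK8 : 0 < K7 + 4 * K6 := by positivity
  obtain ⟨ls₂, hls₂, hb2⟩ := sup_small hk (K7 + 4 * K6) M₀ c hK8 hM hc
  obtain ⟨D₁, hD₁d⟩ : ∃ D₁ : ℝ, D₁ = 2 * C ^ 2 + 4 * C * K2 + 2 * kap k * K3 * μ := ⟨_, rfl⟩
  have hD₁ : 0 < D₁ := by rw [hD₁d]; positivity
  obtain ⟨ls, hlsd⟩ : ∃ ls : ℝ, ls = min (min ls₁ ls₂) (min (l₁ / 2) (min (K3 * μ / (16 * D₁))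
    ((∫ y, (deriv (Qf k) y) ^ 2) / (8 * (K7 + 4 * K6))))) := ⟨_, rfl⟩
  have hls : 0 < ls := by
    rw [hlsd]
    refine lt_min (lt_min hls₁ hls₂) (lt_min (by positivity) (lt_min (by positivity)
      (by positivity)))
  have g1 : ls ≤ ls₁ := by rw [hlsd]; exact (min_le_left _ _).trans (min_le_left _ _)
  have g2 : ls ≤ ls₂ := by rw [hlsd]; exact (min_le_left _ _).trans (min_le_right _ _)
  have g3 : ls ≤ l₁ / 2 := by rw [hlsd]; exact (min_le_right _ _).trans (min_le_left _ _)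
  have g4 : ls ≤ K3 * μ / (16 * D₁) := by
    rw [hlsd]
    exact (min_le_right _ _).trans ((min_le_right _ _).trans (min_le_left _ _))
  have g5 : ls ≤ (∫ y, (deriv (Qf k) y) ^ 2) / (8 * (K7 + 4 * K6)) := by
    rw [hlsd]
    exact (min_le_right _ _).trans ((min_le_right _ _).trans (min_le_right _ _))
  refine ⟨K2, K3, K6, K7, μ, R, hK2, hK6, by rw [hK3d]; linarith, by rw [hK7d]; linarith, hμ, hμ1,
    hR1, ls, hls, g1.trans hls₁2, ?_⟩
  intro l₀ hl₀ hl₀s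
  have g4' : l₀ * (16 * D₁) ≤ K3 * μ := (le_div_iff₀ (by positivity)).1 (hl₀s.trans g4)
  have g5' : l₀ * (8 * (K7 + 4 * K6)) ≤ ∫ y, (deriv (Qf k) y) ^ 2 :=
    (le_div_iff₀ (by positivity)).1 (hl₀s.trans g5)
  have hXk : ∀ (l ν₁ : ℝ) (ε : ℝ → ℝ), 0 < l → Reg k γ η δ M B R μ K2 K3 K6 K7 ν₁ l ε →
      Xn ε ≤ (K7 + 4 * K6) * l := by
    intro l ν₁ ε hl hreg
    have h1 := st_X hK6.le hreg
    have h2 : (K7 + 4 * K6 * μ) * l ≤ (K7 + 4 * K6) * l := by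
      refine mul_le_mul_of_nonneg_right ?_ hl.le
      have := mul_le_mul_of_nonneg_left hμ1 hK6.le
      linarith
    exact h1.trans h2
  constructor
  · intro l ν₁ ε hl hll hreg
    have h1 := hXk l ν₁ ε hl hreg
    have h2 := mul_le_mul_of_nonneg_left hll hK8.le
    linarith
  intro lm hlm
  obtain ⟨ν', hν', hb1'⟩ := hb1 l₀ hl₀ (hl₀s.trans g1) lm hlm
  obtain ⟨νs, hνsd⟩ : ∃ νs : ℝ, νs = min (min (min 1 ν') (min lm (lm ^ 2)))
    (min (lm ^ 3) (min (μ * lm / C) (lm ^ 2 / (2 * C + 2 * C / lm)))) := ⟨_, rfl⟩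
  have hνs : 0 < νs := by
    rw [hνsd]
    refine lt_min (lt_min (lt_min one_pos hν') (lt_min hlm (by positivity)))
      (lt_min (by positivity) (lt_min (by positivity) (by positivity)))
  have n1 : νs ≤ 1 := by
    rw [hνsd]
    exact (min_le_left _ _).trans ((min_le_left _ _).trans (min_le_left _ _))
  have n2 : νs ≤ ν' := by
    rw [hνsd]
    exact (min_le_left _ _).trans ((min_le_left _ _).trans (min_le_right _ _))
  have n3 : νs ≤ lm := by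
    rw [hνsd]
    exact (min_le_left _ _).trans ((min_le_right _ _).trans (min_le_left _ _))
  have n4 : νs ≤ lm ^ 2 := by
    rw [hνsd]
    exact (min_le_left _ _).trans ((min_le_right _ _).trans (min_le_right _ _))
  have n5 : νs ≤ lm ^ 3 := by
    rw [hνsd]
    exact (min_le_right _ _).trans (min_le_left _ _)
  have n6 : νs ≤ μ * lm / C := by
    rw [hνsd]
    exact (min_le_right _ _).trans ((min_le_right _ _).trans (min_le_left _ _))
  have n7 : νs ≤ lm ^ 2 / (2 * C + 2 * C / lm) := by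
    rw [hνsd]
    exact (min_le_right _ _).trans ((min_le_right _ _).trans (min_le_right _ _))
  have n7' : νs * (2 * C + 2 * C / lm) ≤ lm ^ 2 := (le_div_iff₀ (by positivity)).1 n7
  refine ⟨νs, hνs, ?_⟩
  intro ν₁ hν₁ hν₁s l hlml hll p q ε e hA1 hA2 hmass hreg hGe hXe
  have hl : 0 < l := hlm.trans_le hlml
  have hl1 : l ≤ 1 := by
    have : l₀ ≤ 1 / 2 := hl₀s.trans (g1.trans hls₁2)
    linarith
  have hRl : 0 < R * l := mul_pos hR0 hl
  have hp : 0 < p := hRl.trans hA1.1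
  obtain ⟨hsup, hdx⟩ := hb2 l₀ hl₀ (hl₀s.trans g2) l hl hll p q ε hp hA1.2.2.1
    (by linarith [hA1.2.1]) (by linarith [hA1.2.2.2.1]) hA1.2.2.2.2 (hXk l ν₁ ε hl hreg) hmass
  obtain ⟨c1, c2, c3, c4, c5, c6, c7⟩ := hb1' ν₁ hν₁ (hν₁s.trans n2) l hlml hll K6 K7 p q ε e hA1
    hA2 hsup hreg (hGe.trans n2)
  have hSt : St k γ η δ M B c R μ K2 K3 K6 K7 ν₁ νs l (bfn k l (fun y => Qf k y + ε y) e)
      (mfn k l (fun y => Qf k y + ε y) e) p q ε e :=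
    ⟨hl, hl1, hA1, hA2, hsup, hreg, hGe, hXe, c1, c2, c3, c4, c5, c6, hdx⟩
  have hν1lm : ν₁ ^ 2 ≤ lm ^ 2 := pow_le_pow_left₀ hν₁.le (hν₁s.trans n3) 2
  have hν1l : ν₁ ^ 2 ≤ l ^ 2 := hν1lm.trans (pow_le_pow_left₀ hlm.le hlml 2)
  have hν3 : νs ≤ l ^ 3 := n5.trans (pow_le_pow_left₀ hlm.le hlml 3)
  have hν2 : νs ≤ l ^ 2 := n4.trans (pow_le_pow_left₀ hlm.le hlml 2)
  have hm := st_main hG hSt hRC l₁ hl₁ (by linarith) hML hκ hν1l hν3
  have hν1μ : C * ν₁ ^ 2 ≤ μ * l := by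
    have h1 : ν₁ ^ 2 ≤ νs := by
      have e1 : ν₁ * ν₁ ≤ νs * 1 :=
        mul_le_mul hν₁s (hν₁s.trans n1) hν₁.le hνs.le
      rw [pow_two]
      linarith only [e1]
    have h2 : μ * lm ≤ μ * l := mul_le_mul_of_nonneg_left hlml hμ.le
    have hC0 : 0 < C := by linarith [hG.hC]
    have h3 := (le_div_iff₀ hC0).1 (h1.trans n6)
    linarith
  have hνl : 2 * C * νs + 2 * C * νs / l ≤ l ^ 2 := by
    have h1 : 2 * C * νs / l ≤ 2 * C * νs / lm :=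
      div_le_div_of_nonneg_left (by positivity) hlm hlml
    have h2 : νs * (2 * C + 2 * C / lm) = 2 * C * νs + 2 * C * νs / lm := by ring
    have h3 : lm ^ 2 ≤ l ^ 2 := pow_le_pow_left₀ hlm.le hlml 2
    rw [h2] at n7'
    linarith
  have hnl : l * (2 * C ^ 2 + 4 * C * K2 + 2 * kap k * K3 * μ) < K3 * μ / 4 := by
    rw [← hD₁d]
    have h1 : l * D₁ ≤ 2 * l₀ * D₁ := mul_le_mul_of_nonneg_right hll hD₁.le
    have h2 : 0 < K3 * μ := mul_pos hK3 hμ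
    linarith only [h1, h2, g4']
  have hn7 : 4 * kap k * K6 * μ + (2 * C + 4 * C * K6 + 1) <
      kap k * (3 / (2 * (k : ℝ))) * K7 := by
    have h1 : 4 * kap k * K6 * μ ≤ 4 * kap k * K6 * 1 :=
      mul_le_mul_of_nonneg_left hμ1 (by positivity)
    linarith
  refine ⟨c4, c5, c6, c7, ?_, ?_, ?_, ?_⟩
  · intro hL
    exact st_T1 hG hSt hm hR0 hμ hRn hL
  · intro hZ
    exact st_T2 hG hSt hm hR0 hμ hκ hK2d (by rw [hK3d]; linarith) hν2 hnl hZ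
  · intro hX
    exact st_T3 hk hG hSt hm hR0 hμ hκ hK6d hνl hn7 hX
  · intro hL
    exact st_nz hG hSt hν1μ hL

end H72KB

end S_H72_KB_StD
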