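import Mathlib
import Pool.Agent.H98.BU.G16
import Pool.Agent.H98.BU.G18
import Pool.Agent.H98.BU.G19
import Pool.Agent.H98.BU.G20
import Pool.Agent.H98.BU.G21
import Pool.Agent.H98.BU.G22
import Pool.Agent.H98.BU.G23
import Pool.Agent.H98.BU.G24

/-! Blow-up for `u_t + u^k u_x + u_xxx - u_xx = 0`, part G25: this file joins several modules
to save build time (`Pool/Agent/H98/{KB,KC}`, `H72/{KB,KC}`, `H68/KC`, `H37/{KB,KC}`). -/

section S_H37_KC_B1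

/-!
# Row B1 of MP_95be7d_K4B (60 lines)

`W y - alf s W = ∫_1^2 (W y - W(ξ/s)) pw ξ dξ` (`Q1_int`).  For `ξ ∈ [1,2]`: `ξ/s ≥ 1/s ≥ 1/(2s)`, `|y - ξ/s| ≤ y + 2/s`, so by `F2_dif`
`|W y - W(ξ/s)| ≤ R := √((y + 2/s) (2 N))`, hence `|W y - alf s W| ≤ R ∫ pw = R` (`pw ≥ 0`), and square.
-/

open MeasureTheory Filter Topology Set
open scoped ContDiff

namespace H37KC

open H98KB H68KC

theorem B1 {p q s y : ℝ} {W : ℝ → ℝ} (hp : 0 < p) (hq : 0 < q) (hs : 0 < s) (hW : Cl p q W)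
    (hy : 1 / s ≤ y) : (W y - alf s W) ^ 2 ≤ (y + 2 / s) * (2 * Nn s W) := by
  have hN := F2_nonneg s W
  have hs' : 0 < 1 / s := by positivity
  have hy0 : 0 < y := lt_of_lt_of_le hs' hy
  have hhalf : 1 / (2 * s) ≤ 1 / s := by
    apply one_div_le_one_div_of_le hs
    linarith
  set R : ℝ := Real.sqrt ((y + 2 / s) * (2 * Nn s W)) with hR
  have hRR : 0 ≤ (y + 2 / s) * (2 * Nn s W) := by positivity
  have hR0 : 0 ≤ R := Real.sqrt_nonneg _
  have hWc : Continuous W := hW.1.continuous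
  have hpc : Continuous pw := Q1_cont.1
  have hd : Continuous (fun ξ : ℝ => ξ / s) := continuous_id.div_const s
  have c1 : Continuous (fun ξ : ℝ => W (ξ / s) * pw ξ) := (hWc.comp hd).mul hpc
  have c2 : Continuous (fun ξ : ℝ => W y * pw ξ) := continuous_const.mul hpc
  have key : W y - alf s W = ∫ ξ in (1:ℝ)..2, (W y - W (ξ / s)) * pw ξ := by
    have e1 : W y = ∫ ξ in (1:ℝ)..2, W y * pw ξ := by
      rw [intervalIntegral.integral_const_mul, Q1_int, mul_one]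
    have e2 : ∫ ξ in (1:ℝ)..2, (W y - W (ξ / s)) * pw ξ
        = (∫ ξ in (1:ℝ)..2, W y * pw ξ) - ∫ ξ in (1:ℝ)..2, W (ξ / s) * pw ξ := by
      rw [← intervalIntegral.integral_sub (c2.intervalIntegrable _ _) (c1.intervalIntegrable _ _)]
      congr 1
      funext ξ
      ring
    rw [e2, ← e1]
    rfl
  have c3 : Continuous (fun ξ : ℝ => |(W y - W (ξ / s)) * pw ξ|) :=
    ((continuous_const.sub (hWc.comp hd)).mul hpc).abs
  have c4 : Continuous (fun ξ : ℝ => R * pw ξ) := continuous_const.mul hpc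
  have hb : |W y - alf s W| ≤ R := by
    rw [key]
    refine le_trans (intervalIntegral.abs_integral_le_integral_abs (by norm_num)) ?_
    have hmono : ∫ ξ in (1:ℝ)..2, |(W y - W (ξ / s)) * pw ξ| ≤ ∫ ξ in (1:ℝ)..2, R * pw ξ := by
      refine intervalIntegral.integral_mono_on (by norm_num) (c3.intervalIntegrable _ _)
        (c4.intervalIntegrable _ _) ?_
      intro ξ hξ
      obtain ⟨h1, h2⟩ := hξ
      have hpw : 0 ≤ pw ξ := (Q1_bd h1 h2).1
      rw [abs_mul, abs_of_nonneg hpw]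
      apply mul_le_mul_of_nonneg_right _ hpw
      have g1 : 1 / s ≤ ξ / s := div_le_div_of_nonneg_right h1 hs.le
      have g2 : ξ / s ≤ 2 / s := div_le_div_of_nonneg_right h2 hs.le
      have g3 := F2_dif hp hq hW (le_trans hhalf g1) (le_trans hhalf hy)
      have g4 : |y - ξ / s| ≤ y + 2 / s := by
        rw [abs_le]
        constructor <;> linarith
      have g5 : (W y - W (ξ / s)) ^ 2 ≤ (y + 2 / s) * (2 * Nn s W) :=
        le_trans g3 (mul_le_mul_of_nonneg_right g4 (by positivity))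
      exact Real.abs_le_sqrt g5
    rw [intervalIntegral.integral_const_mul, Q1_int, mul_one] at hmono
    exact hmono
  calc (W y - alf s W) ^ 2 = |W y - alf s W| ^ 2 := (sq_abs _).symm
    _ ≤ R ^ 2 := pow_le_pow_left₀ (abs_nonneg _) hb 2
    _ = (y + 2 / s) * (2 * Nn s W) := Real.sq_sqrt hRR

end H37KC

end S_H37_KC_B1

section S_H37_KC_B2

/-!
# Row B2 of MP_95be7d_K4B (90 lines)

`ε = ep P E s W = W - Q - (b P + α E) = (W - α) - Q - b P - α (E - 1)`, `b = bq s W`, `α = alf s W` constants, `|b| ≤ 5 c0`, `|α| ≤ |f0| + 1`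
(`Sit.b1, a1`, `r ≤ 1`; note `c0 > 0`).  For `y ≥ 0`: `|Q|, |Q'|, |Q''| ≤ C e^{-y} ≤ C e^{-3y/4}` (`Cl_Qf`, `Cl_bndj`, `bd_of_nonneg`),
`|P| ≤ C e^{-3y/4}` (`Prof.P0`), `|P'|, |P''| ≤ C e^{-3y/4}` (`Prof.dP`), `|E - 1|, |E'|, |E''| ≤ C e^{-3y/4}` (`Prof.E1`).
So `|ε| ≤ |W - α| + C e^{-3y/4}`, `|ε'| ≤ |W'| + C e^{-3y/4}`, `|ε''| ≤ |W''| + C e^{-3y/4}`; square with `(x+y)² ≤ 2x² + 2y²`.
-/

open MeasureTheory Filter Topology Set
open scoped ContDiff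

namespace H37KC

open H98KB H68KC

theorem B2_c0 : 0 ≤ c0 := by
  unfold c0 cnu
  have h1 : 0 ≤ ∫ y, (deriv (Qf 4) y) ^ 2 := integral_nonneg fun y => sq_nonneg _
  have h2 : 0 ≤ 16 * (∫ y, (deriv (Qf 4) y) ^ 2) / Iq ^ 2 :=
    div_nonneg (by linarith) (sq_nonneg _)
  linarith

theorem B2_bd {Cq Cp Ce B0 A0 b al X q p e : ℝ} (hX : 0 ≤ X) (hq : |q| ≤ Cq * X)
    (hp : |p| ≤ Cp * X) (he : |e| ≤ Ce * X) (hb : |b| ≤ B0) (ha : |al| ≤ A0) (hCp : 0 ≤ Cp)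
    (hCe : 0 ≤ Ce) : |q + b * p + al * e| ≤ (Cq + B0 * Cp + A0 * Ce) * X := by
  have h1 : |b * p| ≤ B0 * (Cp * X) := by
    rw [abs_mul]
    exact mul_le_mul hb hp (abs_nonneg _) ((abs_nonneg _).trans hb)
  have h2 : |al * e| ≤ A0 * (Ce * X) := by
    rw [abs_mul]
    exact mul_le_mul ha he (abs_nonneg _) ((abs_nonneg _).trans ha)
  have h3 := abs_add_le (q + b * p) (al * e)
  have h4 := abs_add_le q (b * p)
  calc |q + b * p + al * e| ≤ Cq * X + B0 * (Cp * X) + A0 * (Ce * X) := by linarith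
    _ = (Cq + B0 * Cp + A0 * Ce) * X := by ring

theorem B2_sq {a g K C y : ℝ} (hK : 0 ≤ K) (hC : 2 * K ^ 2 ≤ C)
    (hg : |g| ≤ K * Real.exp (-(3 / 4) * y)) :
    (a - g) ^ 2 ≤ 2 * a ^ 2 + C * Real.exp (-(3 / 2) * y) := by
  have h1 : Real.exp (-(3 / 4) * y) ^ 2 = Real.exp (-(3 / 2) * y) := by
    rw [← Real.exp_nat_mul]
    congr 1
    push_cast
    ring
  have h2 : g ^ 2 ≤ K ^ 2 * Real.exp (-(3 / 2) * y) := by
    rw [← h1, ← mul_pow, ← sq_abs g]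
    exact pow_le_pow_left₀ (abs_nonneg _) hg 2
  have h3 : 2 * K ^ 2 * Real.exp (-(3 / 2) * y) ≤ C * Real.exp (-(3 / 2) * y) :=
    mul_le_mul_of_nonneg_right hC (Real.exp_pos _).le
  have h4 : 0 ≤ (a + g) ^ 2 := sq_nonneg _
  nlinarith

theorem B2 {P E : ℝ → ℝ} (hpr : Prof P E) {γ B c : ℝ} : ∃ C : ℝ, 0 < C ∧ ∀ Ca r w m W et, r ≤ 1 →
    Sit P E γ B c Ca r w m W et → ∀ y, 0 ≤ y →
    (ep P E (r ^ 2) W y) ^ 2 ≤ 2 * (W y - alf (r ^ 2) W) ^ 2 + C * Real.exp (-(3 / 2) * y) ∧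
    (deriv (ep P E (r ^ 2) W) y) ^ 2 ≤ 2 * (deriv W y) ^ 2 + C * Real.exp (-(3 / 2) * y) ∧
    (deriv (deriv (ep P E (r ^ 2) W)) y) ^ 2 ≤
      2 * (deriv (deriv W) y) ^ 2 + C * Real.exp (-(3 / 2) * y) := by
  have hQ : Cl (3 / 4) (3 / 4) (Qf 4) := Cl_mono (Cl_Qf (by norm_num)) (by norm_num) (by norm_num)
  obtain ⟨q0, hq0, Hq0⟩ := Cl_bnd hQ
  obtain ⟨q1, hq1, Hq1⟩ := Cl_bnd (Cl_der hQ)
  obtain ⟨q2, hq2, Hq2⟩ := Cl_bnd (Cl_der (Cl_der hQ))
  obtain ⟨p0, Hp0⟩ := hpr.P0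
  obtain ⟨p1, hp1, Hp1⟩ := Cl_bnd hpr.dP
  obtain ⟨p2, hp2, Hp2⟩ := Cl_bnd (Cl_der hpr.dP)
  have hEd : deriv (fun y => E y - 1) = deriv E := by
    funext y
    exact deriv_sub_const _
  obtain ⟨e0, he0, He0⟩ := Cl_bnd hpr.E1
  obtain ⟨e1, he1, He1⟩ := Cl_bnd (Cl_der hpr.E1)
  obtain ⟨e2, he2, He2⟩ := Cl_bnd (Cl_der (Cl_der hpr.E1))
  rw [hEd] at He1 He2
  have hc0 := B2_c0
  have hf0 := abs_nonneg f0
  have hbd : ∀ y : ℝ, 0 ≤ y → bd (3 / 4) (3 / 4) y = Real.exp (-(3 / 4) * y) := by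
    intro y hy
    rw [bd, max_eq_left hy, max_eq_right (by linarith)]
    congr 1
    ring
  set K0 := q0 + 5 * c0 * |p0| + (|f0| + 1) * e0 with hK0
  set K1 := q1 + 5 * c0 * p1 + (|f0| + 1) * e1 with hK1
  set K2 := q2 + 5 * c0 * p2 + (|f0| + 1) * e2 with hK2
  have k0 : 0 ≤ K0 := by positivity
  have k1 : 0 ≤ K1 := by positivity
  have k2 : 0 ≤ K2 := by positivity
  refine ⟨1 + 2 * K0 ^ 2 + 2 * K1 ^ 2 + 2 * K2 ^ 2, by positivity, ?_⟩
  intro Ca r w m W et hr hS y hy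
  obtain ⟨p, q, hp0, hp1', hq0', hq1', hW, -⟩ := hS.cl
  have hWc : Cl p q W := Cl_W hp1' hq1' hW
  have r4 : r ^ 4 ≤ 1 := pow_le_one₀ hS.r0.le hr
  have hb : |bq (r ^ 2) W| ≤ 5 * c0 := by
    refine hS.b1.trans ?_
    have := mul_le_mul_of_nonneg_left r4 (by positivity : 0 ≤ 5 * c0)
    linarith
  have ha : |alf (r ^ 2) W| ≤ |f0| + 1 := by
    refine hS.a1.trans ?_
    have := mul_le_mul_of_nonneg_left r4 (by positivity : 0 ≤ |f0| + 1)
    linarith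
  have hEc : Cl 0 0 E := by
    have h := Cl_add (Cl_mono hpr.E1 (p' := 0) (q' := 0) (by norm_num) (by norm_num)) (Cl_const 1)
    have e : (fun y => E y - 1 + 1) = E := by
      funext y; ring
    rwa [e] at h
  have hQ1 : Cl 1 1 (Qf 4) := Cl_Qf (by norm_num)
  have hX := (Real.exp_pos (-(3 / 4) * y)).le
  have d1 : deriv (ep P E (r ^ 2) W) = fun y => deriv W y - (deriv (Qf 4) y
      + bq (r ^ 2) W * deriv P y + alf (r ^ 2) W * deriv E y) := by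
    funext z
    have h := ((Cl_hd hWc z).sub (Cl_hd hQ1 z)).sub (((Cl_hd hpr.cP z).const_mul (bq (r ^ 2) W)).add
      ((Cl_hd hEc z).const_mul (alf (r ^ 2) W)))
    refine Eq.trans h.deriv ?_
    ring
  have d2 : deriv (deriv (ep P E (r ^ 2) W)) y = deriv (deriv W) y - (deriv (deriv (Qf 4)) y
      + bq (r ^ 2) W * deriv (deriv P) y + alf (r ^ 2) W * deriv (deriv E) y) := by
    rw [d1]
    have h := (Cl_hd (Cl_der hWc) y).sub (((Cl_hd (Cl_der hQ1) y).add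
      ((Cl_hd (Cl_der hpr.cP) y).const_mul (bq (r ^ 2) W))).add
      ((Cl_hd (Cl_der hEc) y).const_mul (alf (r ^ 2) W)))
    exact h.deriv
  refine ⟨?_, ?_, ?_⟩
  · have e : ep P E (r ^ 2) W y = (W y - alf (r ^ 2) W) - (Qf 4 y + bq (r ^ 2) W * P y
        + alf (r ^ 2) W * (E y - 1)) := by
      unfold ep hf
      ring
    rw [e]
    refine B2_sq k0 (by nlinarith [sq_nonneg K1, sq_nonneg K2]) ?_
    refine B2_bd hX ?_ ?_ ?_ hb ha (abs_nonneg _) he0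
    · rw [← hbd y hy]; exact Hq0 y
    · exact (Hp0 y hy).trans (mul_le_mul_of_nonneg_right (le_abs_self _) hX)
    · rw [← hbd y hy]; exact He0 y
  · rw [d1]
    refine B2_sq k1 (by nlinarith [sq_nonneg K0, sq_nonneg K2]) ?_
    refine B2_bd hX ?_ ?_ ?_ hb ha hp1 he1
    · rw [← hbd y hy]; exact Hq1 y
    · rw [← hbd y hy]; exact Hp1 y
    · rw [← hbd y hy]; exact He1 y
  · rw [d2]
    refine B2_sq k2 (by nlinarith [sq_nonneg K0, sq_nonneg K1]) ?_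
    refine B2_bd hX ?_ ?_ ?_ hb ha hp2 he2
    · rw [← hbd y hy]; exact Hq2 y
    · rw [← hbd y hy]; exact Hp2 y
    · rw [← hbd y hy]; exact He2 y

end H37KC

end S_H37_KC_B2

section S_H37_KC_BA

/-!
# Row BA of MP_95be7d_K4B (110 lines)

Assembly of `GoodB.BA`.  `s = r²`, `Y = 1/s`, `N = Nn s W`.  On `y ≥ Y`, with `B1`, `B2` (constant `C0`) and `sech ≤ 1`,
`sech(sy-2) (ε² + ε'² + ε''²) ≤ 4 N sech(sy-2) (y + 2/s) + 2 W'² + 2 W''² + 3 C0 e^{-3y/2}`, and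
`sech(sy-2)(y + 2/s) = (1/s) sech(sy-2)(sy+2) ≤ (200/s) e^{-sy/2}` (`T1_sech`, `sy ≥ 1`).  Integrate over `Ici Y`:
`∫_{Ici Y} e^{-sy/2} ≤ 2/s` , `∫_{Ici Y} W'² ≤ 2N`, `∫_{Ici Y} W''² ≤ 2 ∫ Φ W''²` (`F2_tail`), `∫_{Ici Y} e^{-3y/2} ≤ e^{-(3/2) Y}`.  Multiply by `s`:
`Bad ≤ s (4N * 200/s * 2/s + 4N + 4 ∫ΦW''² + 3 C0 e^{-(3/2)/s}) ≤ C (s ∫ΦW''² + N/s + r^16)` using `s ≤ 1` and `T1_exp2`.
Integrability on `Ici Y`: continuous and dominated by the integrable right side (`ep_Cl` for continuity), or `integral_mono_of_nonneg`.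
-/

open MeasureTheory Filter Topology Set
open scoped ContDiff

namespace H37KC

open H98KB H68KC

theorem BAt_exp {a : ℝ} (ha : a < 0) (c : ℝ) :
    IntegrableOn (fun x => Real.exp (a * x)) (Ici c) ∧
      ∫ x in Ici c, Real.exp (a * x) = -Real.exp (a * c) / a := by
  refine ⟨?_, ?_⟩
  · rw [integrableOn_Ici_iff_integrableOn_Ioi]
    exact integrableOn_exp_mul_Ioi ha c
  · rw [integral_Ici_eq_integral_Ioi]
    exact integral_exp_mul_Ioi ha c

theorem BAt_sq {p q : ℝ} {f : ℝ → ℝ} (hp : 0 < p) (hq : 0 < q) (hf : Cl p q f) :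
    Integrable (fun y => (f y) ^ 2) := by
  have h := Cl_int (Cl_mul hf hf) (add_pos hp hp) (add_pos hq hq)
  refine h.congr (Eventually.of_forall fun y => ?_)
  simp only
  ring

theorem BAt_add4 {μ : Measure ℝ} {f g h k : ℝ → ℝ} (hf : Integrable f μ) (hg : Integrable g μ)
    (hh : Integrable h μ) (hk : Integrable k μ) :
    ∫ y, (f y + g y + h y + k y) ∂μ = (∫ y, f y ∂μ) + (∫ y, g y ∂μ) + (∫ y, h y ∂μ) + ∫ y, k y ∂μ := by
  have h1 : Integrable (fun y => f y + g y) μ := hf.add hg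
  have h2 : Integrable (fun y => f y + g y + h y) μ := h1.add hh
  rw [integral_add h2 hk, integral_add h1 hh, integral_add hf hg]

theorem BAt {P E : ℝ → ℝ} (hpr : Prof P E) {γ B c : ℝ} :
    ∃ C r1 : ℝ, 0 < C ∧ 0 < r1 ∧ ∀ Ca r w m W et, r ≤ r1 →
    Sit P E γ B c Ca r w m W et →
    Bad (r ^ 2) (ep P E (r ^ 2) W) ≤
      C * (r ^ 2 * (∫ y, Ph (r ^ 2) y * (deriv (deriv W) y) ^ 2) + Nn (r ^ 2) W / r ^ 2 + r ^ 16) := by
  obtain ⟨C0, hC0, h2⟩ := B2 (γ := γ) (B := B) (c := c) hpr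
  obtain ⟨C2, hC2, h3⟩ := T1_exp2
  refine ⟨1604 + 2 * C0 * C2, 1, by positivity, one_pos, ?_⟩
  intro Ca r w m W et hr S
  have hr0 := S.r0
  obtain ⟨p, q, hp, hp2, hq, hq2, hcl, _⟩ := S.cl
  have hW : Cl p q W := Cl_W hp2 hq2 hcl
  have hb2 := h2 Ca r w m W et hr S
  have hex := h3 r hr0 hr
  set s : ℝ := r ^ 2 with hs
  have hs0 : 0 < s := by positivity
  have hs1 : s ≤ 1 := by
    rw [hs]; nlinarith
  have hN : 0 ≤ Nn s W := F2_nonneg s W
  set N := Nn s W with hNd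
  have hY : 1 / (2 * s) ≤ 1 / s := by
    apply one_div_le_one_div_of_le hs0
    linarith
  have hD1 : Cl p q (deriv W) := Cl_der hW
  have hD2 : Cl p q (deriv (deriv W)) := Cl_der hD1
  have hT1 : ∫ y in Ici (1 / s), (deriv W y) ^ 2 ≤ 2 * N := F2_tail hp hq hD1 hY
  have hT2 : ∫ y in Ici (1 / s), (deriv (deriv W) y) ^ 2 ≤ 2 * ∫ y, Ph s y * (deriv (deriv W) y) ^ 2 :=
    F2_tail hp hq hD2 hY
  set K := ∫ y, Ph s y * (deriv (deriv W) y) ^ 2 with hK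
  have hI1 : IntegrableOn (fun y => (deriv W y) ^ 2) (Ici (1 / s)) := (BAt_sq hp hq hD1).integrableOn
  have hI2 : IntegrableOn (fun y => (deriv (deriv W) y) ^ 2) (Ici (1 / s)) := (BAt_sq hp hq hD2).integrableOn
  have hE1 := BAt_exp (a := -(s / 2)) (by linarith) (1 / s)
  have hE2 := BAt_exp (a := -(3 / 2)) (by norm_num) (1 / s)
  have hmain : ∫ y in Ici (1 / s), 1 / Real.cosh (s * y - 2) *
      ((ep P E s W y) ^ 2 + (deriv (ep P E s W) y) ^ 2 + (deriv (deriv (ep P E s W)) y) ^ 2) ≤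
      ∫ y in Ici (1 / s), (800 * N / s * Real.exp (-(s / 2) * y) + 2 * (deriv W y) ^ 2
        + 2 * (deriv (deriv W) y) ^ 2 + 3 * C0 * Real.exp (-(3 / 2) * y)) := by
    refine integral_mono_of_nonneg (Eventually.of_forall fun y => ?_) ?_
      (ae_restrict_of_forall_mem measurableSet_Ici fun y hy => ?_)
    · have := Real.cosh_pos (s * y - 2)
      simp only [Pi.zero_apply]
      positivity
    · exact (((hE1.1.const_mul _).add (hI1.const_mul 2)).add (hI2.const_mul 2)).add (hE2.1.const_mul _)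
    · have hy1 : 1 / s ≤ y := hy
      have hsy : 1 ≤ s * y := by
        rw [div_le_iff₀ hs0] at hy1
        linarith
      have hy0 : 0 ≤ y := le_trans (by positivity) hy1
      obtain ⟨a1, a2, a3⟩ := hb2 y hy0
      have b1 := B1 hp hq hs0 hW hy1
      have t1 := T1_sech hsy
      have hc0 : 0 < 1 / Real.cosh (s * y - 2) := by
        have := Real.cosh_pos (s * y - 2)
        positivity
      have hc1 : 1 / Real.cosh (s * y - 2) ≤ 1 := by
        rw [div_le_one (Real.cosh_pos _)]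
        exact Real.one_le_cosh _
      set h := 1 / Real.cosh (s * y - 2) with hh
      have e1 : h * (y + 2 / s) = (1 / s) * (h * (s * y + 2)) := by
        field_simp
      have e2 : h * (y + 2 / s) ≤ (1 / s) * (200 * Real.exp (-(s / 2) * y)) := by
        rw [e1]
        apply mul_le_mul_of_nonneg_left _ (by positivity)
        have : -(s / 2) * y = -(s * y / 2) := by ring
        rw [this]
        exact t1
      have e3 : h * (2 * (W y - alf s W) ^ 2) ≤ 800 * N / s * Real.exp (-(s / 2) * y) := by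
        calc h * (2 * (W y - alf s W) ^ 2) ≤ h * (2 * ((y + 2 / s) * (2 * N))) := by
              apply mul_le_mul_of_nonneg_left _ hc0.le
              linarith
          _ = (4 * N) * (h * (y + 2 / s)) := by ring
          _ ≤ (4 * N) * ((1 / s) * (200 * Real.exp (-(s / 2) * y))) :=
              mul_le_mul_of_nonneg_left e2 (by positivity)
          _ = 800 * N / s * Real.exp (-(s / 2) * y) := by ring
      have hexp : 0 < Real.exp (-(3 / 2) * y) := Real.exp_pos _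
      have e4 : h * ((ep P E s W y) ^ 2 + (deriv (ep P E s W) y) ^ 2 + (deriv (deriv (ep P E s W)) y) ^ 2)
          ≤ h * (2 * (W y - alf s W) ^ 2 + (2 * (deriv W y) ^ 2 + 2 * (deriv (deriv W) y) ^ 2
            + 3 * C0 * Real.exp (-(3 / 2) * y))) := by
        apply mul_le_mul_of_nonneg_left _ hc0.le
        linarith
      have e5 : h * (2 * (deriv W y) ^ 2 + 2 * (deriv (deriv W) y) ^ 2
            + 3 * C0 * Real.exp (-(3 / 2) * y)) ≤ 1 * (2 * (deriv W y) ^ 2 + 2 * (deriv (deriv W) y) ^ 2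
            + 3 * C0 * Real.exp (-(3 / 2) * y)) :=
        mul_le_mul_of_nonneg_right hc1 (by positivity)
      rw [mul_add] at e4
      linarith
  have hsplit : ∫ y in Ici (1 / s), (800 * N / s * Real.exp (-(s / 2) * y) + 2 * (deriv W y) ^ 2
        + 2 * (deriv (deriv W) y) ^ 2 + 3 * C0 * Real.exp (-(3 / 2) * y)) =
      800 * N / s * (-Real.exp (-(s / 2) * (1 / s)) / -(s / 2)) + 2 * (∫ y in Ici (1 / s), (deriv W y) ^ 2)
        + 2 * (∫ y in Ici (1 / s), (deriv (deriv W) y) ^ 2)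
        + 3 * C0 * (-Real.exp (-(3 / 2) * (1 / s)) / -(3 / 2)) := by
    rw [BAt_add4 (f := fun y => 800 * N / s * Real.exp (-(s / 2) * y)) (g := fun y => 2 * (deriv W y) ^ 2)
      (h := fun y => 2 * (deriv (deriv W) y) ^ 2) (k := fun y => 3 * C0 * Real.exp (-(3 / 2) * y))
      (hE1.1.const_mul _) (hI1.const_mul 2) (hI2.const_mul 2) (hE2.1.const_mul _),
      integral_const_mul, integral_const_mul,
      integral_const_mul, integral_const_mul, hE1.2, hE2.2]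
  have hBad : Bad s (ep P E s W) ≤ s * (800 * N / s * (-Real.exp (-(s / 2) * (1 / s)) / -(s / 2))
        + 2 * (∫ y in Ici (1 / s), (deriv W y) ^ 2)
        + 2 * (∫ y in Ici (1 / s), (deriv (deriv W) y) ^ 2)
        + 3 * C0 * (-Real.exp (-(3 / 2) * (1 / s)) / -(3 / 2))) := by
    unfold Bad
    rw [← hsplit]
    exact mul_le_mul_of_nonneg_left hmain hs0.le
  have hx1 : Real.exp (-(s / 2) * (1 / s)) ≤ 1 := by
    rw [Real.exp_le_one_iff]
    have : 0 < (s / 2) * (1 / s) := by positivity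
    linarith
  have hx2 : 800 * N / s * (-Real.exp (-(s / 2) * (1 / s)) / -(s / 2)) ≤ 1600 * N / s ^ 2 := by
    have e : 800 * N / s * (-Real.exp (-(s / 2) * (1 / s)) / -(s / 2))
        = 1600 * N / s ^ 2 * Real.exp (-(s / 2) * (1 / s)) := by
      rw [neg_div_neg_eq]
      field_simp
      ring
    rw [e]
    have : 0 ≤ 1600 * N / s ^ 2 := by positivity
    nlinarith
  have hx3 : 3 * C0 * (-Real.exp (-(3 / 2) * (1 / s)) / -(3 / 2)) ≤ 2 * C0 * (C2 * r ^ 16) := by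
    have e : 3 * C0 * (-Real.exp (-(3 / 2) * (1 / s)) / -(3 / 2)) = 2 * C0 * Real.exp (-(3 / 2) * (1 / s)) := by
      rw [neg_div_neg_eq]
      ring
    rw [e]
    exact mul_le_mul_of_nonneg_left hex (by positivity)
  have hK0 : 0 ≤ K := by
    rw [hK]
    apply integral_nonneg
    intro y
    have := P1_pos s y
    simp only [Pi.zero_apply]
    positivity
  have hfin : Bad s (ep P E s W) ≤ s * (1600 * N / s ^ 2 + 2 * (2 * N) + 2 * (2 * K) + 2 * C0 * (C2 * r ^ 16)) := by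
    refine hBad.trans (mul_le_mul_of_nonneg_left ?_ hs0.le)
    linarith
  have hNs : N ≤ N / s ^ 2 := by
    rw [le_div_iff₀ (by positivity)]
    have : s ^ 2 ≤ 1 := by nlinarith
    nlinarith
  have hr16 : 0 ≤ r ^ 16 := by positivity
  have y1 : s * (1600 * N / s ^ 2) = 1600 * (N / s) := by
    field_simp
  have y2 : s * (2 * (2 * N)) ≤ 4 * (N / s) := by
    have h1 : s * N ≤ N / s := by
      rw [le_div_iff₀ hs0]
      have : s * s ≤ 1 := by nlinarith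
      nlinarith
    linarith
  have y3 : s * (2 * C0 * (C2 * r ^ 16)) ≤ 2 * C0 * C2 * r ^ 16 := by
    have : 0 ≤ 2 * C0 * C2 * r ^ 16 := by positivity
    nlinarith
  have hCC : 0 ≤ 2 * C0 * C2 := by positivity
  have hsK : 0 ≤ s * K := by positivity
  have hNs0 : 0 ≤ N / s := by positivity
  have z : s * (1600 * N / s ^ 2 + 2 * (2 * N) + 2 * (2 * K) + 2 * C0 * (C2 * r ^ 16)) =
      s * (1600 * N / s ^ 2) + s * (2 * (2 * N)) + 4 * (s * K) + s * (2 * C0 * (C2 * r ^ 16)) := by ring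
  rw [z] at hfin
  have w1 : 0 ≤ 2 * C0 * C2 * (s * K) := mul_nonneg hCC hsK
  have w2 : 0 ≤ 2 * C0 * C2 * (N / s) := mul_nonneg hCC hNs0
  nlinarith

end H37KC

end S_H37_KC_BA

section S_H68_KC_GC

/-!
# MP_95be7d_K4: assembly of `GoodB`, `GoodC`
-/

open MeasureTheory Filter Topology Set
open scoped ContDiff

noncomputable section

namespace H68KC

open H98KB

variable {P E : ℝ → ℝ}

theorem goodB (hp : Prof P E) {γ B c : ℝ} (hc1 : c ≤ 1 / 10) : GoodB P E γ B c where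
  AH := H37KC.AHt hc1
  AL := H37KC.ALt hc1
  BA := H37KC.BAt hp

theorem ln_nonneg (γ B : ℝ) (ε : ℝ → ℝ) : 0 ≤ ln γ B ε := by
  unfold ln
  refine integral_nonneg fun y => ?_
  unfold loc se2 ch
  positivity

theorem ne2_nonneg (et : ℝ → ℝ) : 0 ≤ ne2 et := by
  unfold ne2
  exact integral_nonneg fun y => by positivity

theorem goodC (hp : Prof P E) {γ B : ℝ} (hγ : 0 < γ) (hγ1 : γ ≤ 1 / 8) (hB : 16 ≤ B) :
    ∃ c1 : ℝ, 0 < c1 ∧ ∀ c, c ≤ c1 → ∃ C1 : ℝ, ∀ C, C1 ≤ C → GoodC P E γ B c C := by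
  have hγ2 : γ ≤ 1 / 4 := by linarith
  obtain ⟨C1, r1, c1, hC1, hr1, hc1, hc1', h1⟩ := m_le hp hγ hγ2 hB
  obtain ⟨C2, r2, c2, hC2, hr2, hc2, hc2', h2⟩ := bw_le hp hγ hγ2 hB
  obtain ⟨C3, r3, c3, hC3, hr3, hc3, hc3', h3⟩ := bw_eq hp hγ hγ2 hB
  obtain ⟨C4, r4, c4, hC4, hr4, hc4, hc4', h4⟩ := b_law hp hγ hγ2 hB
  obtain ⟨C5, hC5, h5⟩ := H37KC.ENt
  refine ⟨min (min (min c1 c2) (min c3 c4)) (1 / 10), by positivity, fun c hc => ?_⟩
  have hca : c ≤ c1 := hc.trans ((min_le_left _ _).trans ((min_le_left _ _).trans (min_le_left _ _)))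
  have hcb : c ≤ c2 := hc.trans ((min_le_left _ _).trans ((min_le_left _ _).trans (min_le_right _ _)))
  have hcc : c ≤ c3 := hc.trans ((min_le_left _ _).trans ((min_le_right _ _).trans (min_le_left _ _)))
  have hcd : c ≤ c4 := hc.trans ((min_le_left _ _).trans ((min_le_right _ _).trans (min_le_right _ _)))
  have hce : c ≤ 1 / 10 := hc.trans (min_le_right _ _)
  obtain ⟨C6, hC6, h6⟩ := H37KC.XEt hp (c := c) hγ hγ1 hB hce
  refine ⟨C1 + C2 + C3 + C4 + C5 + C6, fun C hC => ?_⟩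
  have k1 : C1 ≤ C := by linarith
  have k2 : C2 ≤ C := by linarith
  have k3 : C3 ≤ C := by linarith
  have k4 : C4 ≤ C := by linarith
  have k5 : C5 ≤ C := by linarith
  have k6 : C6 ≤ C := by linarith
  constructor
  · refine ⟨min (min r1 r2) (min r3 r4), by positivity, fun Ca r w m W et hr hS => ?_⟩
    have ra : r ≤ r1 := hr.trans ((min_le_left _ _).trans (min_le_left _ _))
    have rb : r ≤ r2 := hr.trans ((min_le_left _ _).trans (min_le_right _ _))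
    have rc : r ≤ r3 := hr.trans ((min_le_right _ _).trans (min_le_left _ _))
    have rd : r ≤ r4 := hr.trans ((min_le_right _ _).trans (min_le_right _ _))
    have r0 := hS.r0
    have hL := ln_nonneg γ B (ep P E (r ^ 2) W)
    have hsL := Real.sqrt_nonneg (ln γ B (ep P E (r ^ 2) W))
    have hsE := Real.sqrt_nonneg (ne2 et)
    have hab := abs_nonneg (alm (r ^ 2) w W (ze w m (r ^ 8) W et))
    have hqb := abs_nonneg (ip W (deriv (Qf 4)))
    refine ⟨(h1 c Ca r w m W et hca ra hS).trans ?_, (h2 c Ca r w m W et hcb rb hS).trans ?_,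
      (h3 c Ca r w m W et hcc rc hS).trans ?_, (h4 c Ca r w m W et hcd rd hS).trans ?_⟩
    · exact mul_le_mul_of_nonneg_right k1 (by positivity)
    · exact mul_le_mul_of_nonneg_right k2 (by positivity)
    · exact mul_le_mul_of_nonneg_right k3 (by positivity)
    · exact mul_le_mul_of_nonneg_right k4 (by positivity)
  · intro Ca r w m W et hr hS
    have r0 := hS.r0
    have hE := ne2_nonneg et
    refine (h5 P E γ B c Ca r w m W et hce hr hS).trans ?_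
    have e1 : C5 * r ^ 8 ≤ C * r ^ 8 := mul_le_mul_of_nonneg_right k5 (by positivity)
    have e2 : C5 / r ^ 8 * ne2 et ≤ C / r ^ 8 * ne2 et :=
      mul_le_mul_of_nonneg_right (div_le_div_of_nonneg_right k5 (by positivity)) hE
    linarith
  · refine ⟨1, one_pos, fun Ca r w m W et hr hS => ?_⟩
    have r0 := hS.r0
    have hL := ln_nonneg γ B (ep P E (r ^ 2) W)
    obtain ⟨e1, e2⟩ := h6 Ca r w m W et hr hS
    have e3 : C6 * (r ^ 4 + ln γ B (ep P E (r ^ 2) W)) ≤ C * (r ^ 4 + ln γ B (ep P E (r ^ 2) W)) :=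
      mul_le_mul_of_nonneg_right k6 (by positivity)
    constructor <;> linarith

end H68KC

end

end S_H68_KC_GC

section S_H72_KB_Shoot

/-!
# Row Shoot: abstract shooting lemma (pure real analysis)

Proof.  Write `I = [-a₁,a₁]`, `S = I × [0,T]`.  For a sign `σ = ±1` let `U_σ` be the set of `a ∈ I` for
which there is `t ∈ [0,T]` with
 (A) `h(a,t) < 0` and `σ l(a,t) > 0`;
 (B) for all `s ∈ [0,t]` and all `j`: `ω_j(a,s) > 0`, and `max (σ l(a,s)) (h(a,s)) > 0`.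
(1) `U_+ ∩ U_- = ∅`: let `t₊, t₋` be witnesses, say `t₊ ≤ t₋`.  At `s = t₊` (B) for `σ = -1` gives
 `-l > 0` or `h > 0`, but (A) for `σ = 1` says `h < 0` and `l > 0`.  Same for `t₋ ≤ t₊`.
(2) `U_σ` is relatively open in `I`: fix `a₀ ∈ U_σ` with witness `t`.  All functions are continuous on the
 compact `S`, hence uniformly continuous (`IsCompact.uniformContinuousOn_of_continuous`); the continuous
 functions `s ↦ ω_j(a₀,s)` and `s ↦ max (σ l) h` have positive minima on the compact `[0,t]`; so for `a ∈ I`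
 near `a₀` the same `t` is a witness.
(3) `I = U_+ ∪ U_-`.  Let `a ∈ I`.
 (3a) If `h(a,0) < 0`: by `nz` (at `t = 0`, `r0`, `h0`) `l(a,0) ≠ 0`; take `t = 0`, `σ` = sign of `l(a,0)`.
 (3b) If `h(a,0) ≥ 0`: let `G = {t ∈ [0,T] : ∀ s ∈ [0,t], (∀ j, ω_j(a,s) > 0) ∧ h(a,s) ≥ 0}`, `0 ∈ G`,
  `τ = sSup G`.  For `s < τ` the conditions hold at `s`.  CLAIM `τ ∈ G`.  `h(a,τ) ≥ 0` by continuity.  If some
  `ω_i(a,τ) ≤ 0` then `τ > 0`, `ω_i(a,τ) = 0` by continuity; take `ε` from `bar i`; on some `(τ-δ,τ)`,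
  `ω_i < ε`, all `ω_j > 0`, `h ≥ 0` hence `r > 0` (`rh`), so `ω_i` has a nonnegative derivative there and is
  monotone on `[τ-δ/2, τ]` (`monotoneOn_of_deriv_nonneg`), so `ω_i(a,τ) ≥ ω_i(a,τ-δ/2) > 0`, contradiction.
  By `nf`, `τ ≠ T`, so `τ < T`.  If `h(a,τ) > 0` all conditions persist (continuity in `t`, finitely many
  functions) on `[τ,τ+δ]`, contradicting `τ = sSup G`.  So `h(a,τ) = 0`, `r(a,τ) > 0` (`rh`), `l(a,τ) ≠ 0` (`nz`).
  LOCAL FACT: if `s₀ ∈ [0,τ]` (so `s₀ < T`) and `h(a,s₀) = 0` then (all `ω_j > 0`, `r > 0` at `s₀`; take `ε` from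
  `tr`) there is `δ > 0`, `s₀ + δ < T`, such that on `[0,T] ∩ [s₀-δ,s₀+δ]`: `ω_j > 0`, `r > 0`, `h < ε`; hence `h` has
  negative derivative on the interior and is strictly decreasing there (`strictAntiOn_of_deriv_neg`); in
  particular `h(a,s) < 0` for `s ∈ (s₀, s₀+δ]`.
  Hence `h(a,s) > 0` for all `s ∈ [0,τ)` (otherwise `h(a,s) = 0` and `h < 0` just after `s`, contradicting
  `h ≥ 0` on `[0,τ]`).  Let `σ` = sign of `l(a,τ)`; shrinking `δ` for `s₀ = τ` we also have `σ l > 0` on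
  `[τ,τ+δ]`.  Then `t = τ+δ` is a witness for `a ∈ U_σ`.
(4) `a₁ ∈ U_σ`, `-a₁ ∈ U_{-σ}` by `e1 e2 e3` and (3a) (the sign of `l(a₁,0)` and `l(-a₁,0)` are opposite).
(5) `I` is preconnected (`isPreconnected_Icc`), `U_±` relatively open, disjoint, both nonempty, cover `I`:
 contradiction (`isPreconnected_iff_subset_of_disjoint` or `IsPreconnected` applied to open sets
 `V_± ⊆ ℝ` with `V_± ∩ I = U_±`).
-/

open Filter Topology Set

namespace H72KB


private lemma Shoot_ev {T c : ℝ} {Q : ℝ → Prop} (h : ∀ᶠ s in 𝓝[Icc 0 T] c, Q s) :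
    ∃ δ > 0, ∀ s ∈ Icc (0:ℝ) T, |s - c| < δ → Q s := by
  rw [eventually_nhdsWithin_iff, Metric.eventually_nhds_iff] at h
  obtain ⟨δ, hδ, h⟩ := h
  exact ⟨δ, hδ, fun s hs hd => h (by rwa [Real.dist_eq]) hs⟩

private lemma Shoot_pos {T c : ℝ} {f : ℝ → ℝ} (hf : ContinuousOn f (Icc 0 T))
    (hc : c ∈ Icc (0:ℝ) T) (h : 0 < f c) : ∀ᶠ s in 𝓝[Icc 0 T] c, 0 < f s :=
  (hf c hc).eventually (Ioi_mem_nhds h)

private lemma Shoot_lt {T c K : ℝ} {f : ℝ → ℝ} (hf : ContinuousOn f (Icc 0 T))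
    (hc : c ∈ Icc (0:ℝ) T) (h : f c < K) : ∀ᶠ s in 𝓝[Icc 0 T] c, f s < K :=
  (hf c hc).eventually (Iio_mem_nhds h)

private lemma Shoot_loc {n : ℕ} {T : ℝ} {H R : ℝ → ℝ} {Ω : Fin n → ℝ → ℝ}
    (hH : ContinuousOn H (Icc 0 T)) (hR : ContinuousOn R (Icc 0 T))
    (hΩ : ∀ i, ContinuousOn (Ω i) (Icc 0 T))
    (tr : ∃ ε > 0, ∀ t ∈ Ioo 0 T, (∀ j, 0 < Ω j t) → 0 < R t → H t < ε →
      ∃ d < 0, HasDerivAt H d t)
    {c : ℝ} (hc : c ∈ Icc (0:ℝ) T) (hcΩ : ∀ j, 0 < Ω j c) (hcR : 0 < R c) (hcH : H c = 0) :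
    ∃ δ > 0, ∀ s ∈ Icc (0:ℝ) T, c < s → s < c + δ → H s < 0 ∧ ∀ j, 0 < Ω j s := by
  obtain ⟨ε, hε, htr⟩ := tr
  have h1 : ∀ᶠ s in 𝓝[Icc 0 T] c, (∀ j, 0 < Ω j s) ∧ 0 < R s ∧ H s < ε :=
    (eventually_all.2 fun j => Shoot_pos (hΩ j) hc (hcΩ j)).and
      ((Shoot_pos hR hc hcR).and (Shoot_lt hH hc (by rw [hcH]; exact hε)))
  obtain ⟨δ, hδ, h2⟩ := Shoot_ev h1
  refine ⟨δ, hδ, ?_⟩
  intro s hs hcs hsd
  have hsI : |s - c| < δ := by rw [abs_of_pos (by linarith)]; linarith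
  refine ⟨?_, (h2 s hs hsI).1⟩
  have h3 : StrictAntiOn H (Icc c s) := by
    apply strictAntiOn_of_deriv_neg (convex_Icc c s)
    · exact hH.mono (Icc_subset_Icc hc.1 hs.2)
    · intro x hx
      rw [interior_Icc] at hx
      have hx0 : x ∈ Ioo (0:ℝ) T := ⟨lt_of_le_of_lt hc.1 hx.1, lt_of_lt_of_le hx.2 hs.2⟩
      have hxd : |x - c| < δ := by
        rw [abs_of_pos (by linarith [hx.1])]
        linarith [hx.2]
      obtain ⟨a1, a2, a3⟩ := h2 x ⟨hx0.1.le, hx0.2.le⟩ hxd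
      obtain ⟨d, hd, hD⟩ := htr x hx0 a1 a2 a3
      rw [hD.deriv]
      exact hd
  have h4 := h3 (left_mem_Icc.2 hcs.le) (right_mem_Icc.2 hcs.le) hcs
  rw [hcH] at h4
  exact h4

private lemma Shoot_one {n : ℕ} {T : ℝ} (hT : 0 < T) {H L R : ℝ → ℝ} {Ω : Fin n → ℝ → ℝ}
    (hH : ContinuousOn H (Icc 0 T)) (hL : ContinuousOn L (Icc 0 T))
    (hR : ContinuousOn R (Icc 0 T))
    (hΩ : ∀ i, ContinuousOn (Ω i) (Icc 0 T))
    (h0 : ∀ i, 0 < Ω i 0) (r0 : 0 < R 0)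
    (rh : ∀ t ∈ Icc 0 T, (∀ i, 0 < Ω i t) → 0 ≤ H t → 0 < R t)
    (bar : ∀ i, ∃ ε > 0, ∀ t ∈ Ioo 0 T, (∀ j, 0 < Ω j t) → 0 < R t → Ω i t < ε →
      ∃ d, 0 ≤ d ∧ HasDerivAt (Ω i) d t)
    (tr : ∃ ε > 0, ∀ t ∈ Ioo 0 T, (∀ j, 0 < Ω j t) → 0 < R t → H t < ε →
      ∃ d < 0, HasDerivAt H d t)
    (nz : ∀ t ∈ Icc 0 T, (∀ j, 0 < Ω j t) → 0 < R t → H t ≤ 0 → L t ≠ 0)
    (nf : ¬ ∀ t ∈ Icc 0 T, (∀ j, 0 < Ω j t) ∧ 0 ≤ H t) :
    ∃ σ : ℝ, (σ = 1 ∨ σ = -1) ∧ ∃ t ∈ Icc 0 T, H t < 0 ∧ 0 < σ * L t ∧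
      ∀ s ∈ Icc 0 t, (∀ j, 0 < Ω j s) ∧ (0 < σ * L s ∨ 0 < H s) := by
  have hsgn : ∀ x : ℝ, x ≠ 0 → ∃ σ : ℝ, (σ = 1 ∨ σ = -1) ∧ 0 < σ * x := by
    intro x hx
    rcases lt_or_gt_of_ne hx with h | h
    · exact ⟨-1, Or.inr rfl, by linarith⟩
    · exact ⟨1, Or.inl rfl, by linarith⟩
  have hI0 : (0:ℝ) ∈ Icc (0:ℝ) T := ⟨le_rfl, hT.le⟩
  by_cases hH0 : H 0 < 0
  · obtain ⟨σ, hσ, hσL⟩ := hsgn (L 0) (nz 0 hI0 h0 r0 hH0.le)
    refine ⟨σ, hσ, 0, hI0, hH0, hσL, ?_⟩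
    intro s hs
    have hs0 : s = 0 := le_antisymm hs.2 hs.1
    subst hs0
    exact ⟨h0, Or.inl hσL⟩
  · have hH0' : 0 ≤ H 0 := not_lt.1 hH0
    let G : Set ℝ := {t | t ∈ Icc (0:ℝ) T ∧ ∀ s ∈ Icc 0 t, (∀ j, 0 < Ω j s) ∧ 0 ≤ H s}
    have hG0 : (0:ℝ) ∈ G := by
      refine ⟨hI0, ?_⟩
      intro s hs
      have hs0 : s = 0 := le_antisymm hs.2 hs.1
      subst hs0
      exact ⟨h0, hH0'⟩
    have hGb : BddAbove G := ⟨T, fun t ht => ht.1.2⟩
    obtain ⟨τ, hτdef⟩ : ∃ τ, τ = sSup G := ⟨_, rfl⟩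
    have hle : ∀ t ∈ G, t ≤ τ := fun t ht => by rw [hτdef]; exact le_csSup hGb ht
    have hτ0 : 0 ≤ τ := hle 0 hG0
    have hτT : τ ≤ T := by rw [hτdef]; exact csSup_le ⟨0, hG0⟩ fun t ht => ht.1.2
    have hτI : τ ∈ Icc (0:ℝ) T := ⟨hτ0, hτT⟩
    have hlt : ∀ s, 0 ≤ s → s < τ → (∀ j, 0 < Ω j s) ∧ 0 ≤ H s := by
      intro s hs0 hs
      rw [hτdef] at hs
      obtain ⟨t, ht, hst⟩ := exists_lt_of_lt_csSup ⟨0, hG0⟩ hs
      exact ht.2 s ⟨hs0, hst.le⟩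
    have hPτ : (∀ j, 0 < Ω j τ) ∧ 0 ≤ H τ := by
      rcases eq_or_lt_of_le hτ0 with h1 | hpos
      · rw [← h1]
        exact ⟨h0, hH0'⟩
      constructor
      · intro i
        by_contra hneg
        rw [not_lt] at hneg
        obtain ⟨ε, hε, hbar⟩ := bar i
        obtain ⟨δ, hδ, h2⟩ := Shoot_ev (Shoot_lt (hΩ i) hτI (lt_of_le_of_lt hneg hε))
        obtain ⟨b, hb⟩ : ∃ b, b = max (τ - δ / 2) (τ / 2) := ⟨_, rfl⟩
        have hb1 : b < τ := by rw [hb]; exact max_lt (by linarith) (by linarith)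
        have hb2 : τ - δ / 2 ≤ b := by rw [hb]; exact le_max_left _ _
        have hb3 : τ / 2 ≤ b := by rw [hb]; exact le_max_right _ _
        have hb0 : 0 < b := by linarith
        have h3 : MonotoneOn (Ω i) (Icc b τ) := by
          have hder : ∀ x ∈ interior (Icc b τ), ∃ d, 0 ≤ d ∧ HasDerivAt (Ω i) d x := by
            intro x hx
            rw [interior_Icc] at hx
            have hx0 : 0 < x := lt_trans hb0 hx.1
            have hP := hlt x hx0.le hx.2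
            have hxI : x ∈ Icc (0:ℝ) T := ⟨hx0.le, hx.2.le.trans hτT⟩
            refine hbar x ⟨hx0, lt_of_lt_of_le hx.2 hτT⟩ hP.1 (rh x hxI hP.1 hP.2)
              (h2 x hxI ?_)
            rw [abs_of_neg (by linarith [hx.2])]
            linarith [hx.1]
          apply monotoneOn_of_deriv_nonneg (convex_Icc b τ)
          · exact (hΩ i).mono (Icc_subset_Icc hb0.le hτT)
          · intro x hx
            obtain ⟨d, _, hD⟩ := hder x hx
            exact hD.differentiableAt.differentiableWithinAt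
          · intro x hx
            obtain ⟨d, hd, hD⟩ := hder x hx
            rw [hD.deriv]
            exact hd
        have h4 := h3 (left_mem_Icc.2 hb1.le) (right_mem_Icc.2 hb1.le) hb1.le
        have h5 := (hlt b hb0.le hb1).1 i
        linarith
      · by_contra hneg
        rw [not_le] at hneg
        obtain ⟨δ, hδ, h2⟩ := Shoot_ev (Shoot_lt hH hτI hneg)
        obtain ⟨b, hb⟩ : ∃ b, b = max (τ - δ / 2) (τ / 2) := ⟨_, rfl⟩
        have hb1 : b < τ := by rw [hb]; exact max_lt (by linarith) (by linarith)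
        have hb2 : τ - δ / 2 ≤ b := by rw [hb]; exact le_max_left _ _
        have hb3 : τ / 2 ≤ b := by rw [hb]; exact le_max_right _ _
        have hb0 : 0 < b := by linarith
        have h3 := h2 b ⟨hb0.le, hb1.le.trans hτT⟩ (by
          rw [abs_of_neg (by linarith)]
          linarith)
        have h4 := (hlt b hb0.le hb1).2
        linarith
    have hτne : τ < T := by
      rcases lt_or_eq_of_le hτT with h | h
      · exact h
      · exfalso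
        apply nf
        intro t ht
        rcases lt_or_eq_of_le ht.2 with h1 | h1
        · exact hlt t ht.1 (by rw [h]; exact h1)
        · rw [h1, ← h]
          exact hPτ
    have hHτ : H τ = 0 := by
      by_contra hne
      have hpos : 0 < H τ := lt_of_le_of_ne hPτ.2 (Ne.symm hne)
      obtain ⟨δ, hδ, h2⟩ := Shoot_ev
        ((eventually_all.2 fun j => Shoot_pos (hΩ j) hτI (hPτ.1 j)).and (Shoot_pos hH hτI hpos))
      obtain ⟨b, hb⟩ : ∃ b, b = min (τ + δ / 2) T := ⟨_, rfl⟩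
      have hb1 : τ < b := by rw [hb]; exact lt_min (by linarith) hτne
      have hb2 : b ≤ τ + δ / 2 := by rw [hb]; exact min_le_left _ _
      have hb3 : b ≤ T := by rw [hb]; exact min_le_right _ _
      have hbG : b ∈ G := by
        refine ⟨⟨by linarith, hb3⟩, ?_⟩
        intro s hs
        rcases lt_or_ge s τ with h | h
        · exact hlt s hs.1 h
        · have h3 := h2 s ⟨hs.1, hs.2.trans hb3⟩ (by
            rw [abs_of_nonneg (by linarith)]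
            linarith [hs.2])
          exact ⟨h3.1, h3.2.le⟩
      have := hle b hbG
      linarith
    have hRτ : 0 < R τ := rh τ hτI hPτ.1 hPτ.2
    have hpos : ∀ s, 0 ≤ s → s < τ → 0 < H s := by
      intro s hs0 hs
      obtain ⟨hsΩ, hsH⟩ := hlt s hs0 hs
      rcases lt_or_eq_of_le hsH with h | h
      · exact h
      · exfalso
        have hsI : s ∈ Icc (0:ℝ) T := ⟨hs0, hs.le.trans hτT⟩
        obtain ⟨δ, hδ, h2⟩ := Shoot_loc hH hR hΩ tr hsI hsΩ (rh s hsI hsΩ hsH) h.symm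
        obtain ⟨b, hb⟩ : ∃ b, b = min (s + δ / 2) ((s + τ) / 2) := ⟨_, rfl⟩
        have hb1 : s < b := by rw [hb]; exact lt_min (by linarith) (by linarith)
        have hb2 : b ≤ s + δ / 2 := by rw [hb]; exact min_le_left _ _
        have hb3 : b ≤ (s + τ) / 2 := by rw [hb]; exact min_le_right _ _
        have h3 := (h2 b ⟨by linarith, by linarith⟩ hb1 (by linarith)).1
        have h4 := (hlt b (by linarith) (by linarith)).2
        linarith
    obtain ⟨σ, hσ, hσL⟩ := hsgn (L τ) (nz τ hτI hPτ.1 hRτ hHτ.le)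
    obtain ⟨δ₁, hδ₁, h1⟩ := Shoot_loc hH hR hΩ tr hτI hPτ.1 hRτ hHτ
    obtain ⟨δ₂, hδ₂, h2⟩ := Shoot_ev
      (Shoot_pos (f := fun s => σ * L s) (continuousOn_const.mul hL) hτI hσL)
    obtain ⟨b, hb⟩ : ∃ b, b = min (min (τ + δ₁ / 2) (τ + δ₂ / 2)) ((τ + T) / 2) := ⟨_, rfl⟩
    have hb1 : τ < b := by
      rw [hb]; exact lt_min (lt_min (by linarith) (by linarith)) (by linarith)
    have hb2 : b ≤ τ + δ₁ / 2 := by
      rw [hb]; exact (min_le_left _ _).trans (min_le_left _ _)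
    have hb3 : b ≤ τ + δ₂ / 2 := by
      rw [hb]; exact (min_le_left _ _).trans (min_le_right _ _)
    have hb4 : b ≤ (τ + T) / 2 := by rw [hb]; exact min_le_right _ _
    have hbI : b ∈ Icc (0:ℝ) T := ⟨by linarith, by linarith⟩
    have hLb : ∀ s ∈ Icc τ b, 0 < σ * L s := by
      intro s hs
      exact h2 s ⟨by linarith [hs.1], by linarith [hs.2]⟩ (by
        rw [abs_of_nonneg (by linarith [hs.1])]
        linarith [hs.2])
    refine ⟨σ, hσ, b, hbI, (h1 b hbI hb1 (by linarith)).1, hLb b ⟨hb1.le, le_rfl⟩, ?_⟩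
    intro s hs
    rcases lt_trichotomy s τ with h | h | h
    · exact ⟨(hlt s hs.1 h).1, Or.inr (hpos s hs.1 h)⟩
    · subst h
      exact ⟨hPτ.1, Or.inl hσL⟩
    · exact ⟨(h1 s ⟨hs.1, hs.2.trans hbI.2⟩ h (by linarith [hs.2])).2,
        Or.inl (hLb s ⟨h.le, hs.2⟩)⟩

/-- clamping to the rectangle -/
private noncomputable def Shoot_P (a₁ T : ℝ) (x : ℝ × ℝ) : ℝ × ℝ :=
  (max (-a₁) (min a₁ x.1), max 0 (min T x.2))

private lemma Shoot_Pc (a₁ T : ℝ) : Continuous (Shoot_P a₁ T) := by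
  unfold Shoot_P
  fun_prop

private lemma Shoot_Pm {a₁ T : ℝ} (ha : 0 < a₁) (hT : 0 < T) (x : ℝ × ℝ) :
    Shoot_P a₁ T x ∈ Icc (-a₁) a₁ ×ˢ Icc 0 T := by
  refine ⟨⟨le_max_left _ _, ?_⟩, ⟨le_max_left _ _, ?_⟩⟩
  · exact max_le (by linarith) (min_le_left _ _)
  · exact max_le hT.le (min_le_left _ _)

private lemma Shoot_Pe {a₁ T : ℝ} {a t : ℝ} (ha : a ∈ Icc (-a₁) a₁) (ht : t ∈ Icc 0 T) :
    Shoot_P a₁ T (a, t) = (a, t) := by
  unfold Shoot_P
  rw [min_eq_right ha.2, max_eq_right ha.1, min_eq_right ht.2, max_eq_right ht.1]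

private lemma Shoot_open {n : ℕ} {T : ℝ} (σ : ℝ) {h l : ℝ × ℝ → ℝ} {ω : Fin n → ℝ × ℝ → ℝ}
    (hh : Continuous h) (hl : Continuous l) (hω : ∀ i, Continuous (ω i)) :
    IsOpen {a : ℝ | ∃ t ∈ Icc 0 T, h (a, t) < 0 ∧ 0 < σ * l (a, t) ∧
      ∀ s ∈ Icc 0 t, (∀ j, 0 < ω j (a, s)) ∧ (0 < σ * l (a, s) ∨ 0 < h (a, s))} := by
  rw [isOpen_iff_mem_nhds]
  rintro a₀ ⟨t, ht, h1, h2, h3⟩
  have e1 : ∀ᶠ a in 𝓝 a₀, h (a, t) < 0 := by
    have hc : Continuous fun a => h (a, t) := hh.comp (by fun_prop)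
    exact hc.continuousAt.eventually (Iio_mem_nhds h1)
  have e2 : ∀ᶠ a in 𝓝 a₀, 0 < σ * l (a, t) := by
    have hc : Continuous fun a => σ * l (a, t) := continuous_const.mul (hl.comp (by fun_prop))
    exact hc.continuousAt.eventually (Ioi_mem_nhds h2)
  have e3 : ∀ᶠ a in 𝓝 a₀, ∀ s ∈ Icc 0 t,
      (∀ j, 0 < ω j (a, s)) ∧ (0 < σ * l (a, s) ∨ 0 < h (a, s)) := by
    refine IsCompact.eventually_forall_of_forall_eventually isCompact_Icc ?_
    intro s hs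
    obtain ⟨a1, a2⟩ := h3 s hs
    have b1 : ∀ᶠ z in 𝓝 (a₀, s), ∀ j, 0 < ω j z :=
      eventually_all.2 fun j => (hω j).continuousAt.eventually (Ioi_mem_nhds (a1 j))
    have b2 : ∀ᶠ z in 𝓝 (a₀, s), 0 < σ * l z ∨ 0 < h z := by
      rcases a2 with a2 | a2
      · have hc : Continuous fun z => σ * l z := continuous_const.mul hl
        exact (hc.continuousAt.eventually (Ioi_mem_nhds a2)).mono fun z hz => Or.inl hz
      · exact (hh.continuousAt.eventually (Ioi_mem_nhds a2)).mono fun z hz => Or.inr hz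
    exact b1.and b2
  filter_upwards [e1, e2, e3] with a f1 f2 f3
  exact ⟨t, ht, f1, f2, f3⟩

theorem shoot {n : ℕ} (a₁ T : ℝ) (ha : 0 < a₁) (hT : 0 < T)
    (h l r : ℝ × ℝ → ℝ) (ω : Fin n → ℝ × ℝ → ℝ)
    (hh : ContinuousOn h (Icc (-a₁) a₁ ×ˢ Icc 0 T))
    (hl : ContinuousOn l (Icc (-a₁) a₁ ×ˢ Icc 0 T))
    (hr : ContinuousOn r (Icc (-a₁) a₁ ×ˢ Icc 0 T))
    (hω : ∀ i, ContinuousOn (ω i) (Icc (-a₁) a₁ ×ˢ Icc 0 T))
    (h0 : ∀ a ∈ Icc (-a₁) a₁, ∀ i, 0 < ω i (a, 0))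
    (r0 : ∀ a ∈ Icc (-a₁) a₁, 0 < r (a, 0))
    (rh : ∀ a ∈ Icc (-a₁) a₁, ∀ t ∈ Icc 0 T, (∀ i, 0 < ω i (a, t)) → 0 ≤ h (a, t) → 0 < r (a, t))
    (bar : ∀ i, ∃ ε > 0, ∀ a ∈ Icc (-a₁) a₁, ∀ t ∈ Ioo 0 T, (∀ j, 0 < ω j (a, t)) →
      0 < r (a, t) → ω i (a, t) < ε → ∃ d, 0 ≤ d ∧ HasDerivAt (fun s => ω i (a, s)) d t)
    (tr : ∃ ε > 0, ∀ a ∈ Icc (-a₁) a₁, ∀ t ∈ Ioo 0 T, (∀ j, 0 < ω j (a, t)) →
      0 < r (a, t) → h (a, t) < ε → ∃ d < 0, HasDerivAt (fun s => h (a, s)) d t)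
    (nz : ∀ a ∈ Icc (-a₁) a₁, ∀ t ∈ Icc 0 T, (∀ j, 0 < ω j (a, t)) → 0 < r (a, t) →
      h (a, t) ≤ 0 → l (a, t) ≠ 0)
    (nf : ∀ a ∈ Icc (-a₁) a₁, ¬ ∀ t ∈ Icc 0 T, (∀ j, 0 < ω j (a, t)) ∧ 0 ≤ h (a, t))
    (e1 : h (a₁, 0) < 0) (e2 : h (-a₁, 0) < 0) (e3 : l (a₁, 0) * l (-a₁, 0) < 0) : False := by
  classical
  let h' : ℝ × ℝ → ℝ := fun x => h (Shoot_P a₁ T x)
  let l' : ℝ × ℝ → ℝ := fun x => l (Shoot_P a₁ T x)
  let ω' : Fin n → ℝ × ℝ → ℝ := fun i x => ω i (Shoot_P a₁ T x)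
  have hext : ∀ f : ℝ × ℝ → ℝ, ContinuousOn f (Icc (-a₁) a₁ ×ˢ Icc 0 T) →
      Continuous fun x => f (Shoot_P a₁ T x) := fun f hf =>
    hf.comp_continuous (Shoot_Pc a₁ T) (Shoot_Pm ha hT)
  let V : ℝ → Set ℝ := fun σ => {a : ℝ | ∃ t ∈ Icc 0 T, h' (a, t) < 0 ∧ 0 < σ * l' (a, t) ∧
      ∀ s ∈ Icc 0 t, (∀ j, 0 < ω' j (a, s)) ∧ (0 < σ * l' (a, s) ∨ 0 < h' (a, s))}
  have hV : ∀ σ, IsOpen (V σ) := fun σ =>
    Shoot_open σ (hext h hh) (hext l hl) fun i => hext (ω i) (hω i)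
  have hVm : ∀ σ a, a ∈ Icc (-a₁) a₁ → (∃ t ∈ Icc 0 T, h (a, t) < 0 ∧ 0 < σ * l (a, t) ∧
      ∀ s ∈ Icc 0 t, (∀ j, 0 < ω j (a, s)) ∧ (0 < σ * l (a, s) ∨ 0 < h (a, s))) → a ∈ V σ := by
    rintro σ a haI ⟨t, ht, f1, f2, f3⟩
    refine ⟨t, ht, ?_, ?_, ?_⟩
    · show h (Shoot_P a₁ T (a, t)) < 0
      rw [Shoot_Pe haI ht]
      exact f1
    · show 0 < σ * l (Shoot_P a₁ T (a, t))
      rw [Shoot_Pe haI ht]
      exact f2
    · intro s hs
      have hs' : s ∈ Icc 0 T := ⟨hs.1, hs.2.trans ht.2⟩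
      show (∀ j, 0 < ω j (Shoot_P a₁ T (a, s))) ∧
        (0 < σ * l (Shoot_P a₁ T (a, s)) ∨ 0 < h (Shoot_P a₁ T (a, s)))
      rw [Shoot_Pe haI hs']
      exact f3 s hs
  have hline : ∀ a ∈ Icc (-a₁) a₁, ∀ f : ℝ × ℝ → ℝ,
      ContinuousOn f (Icc (-a₁) a₁ ×ˢ Icc 0 T) → ContinuousOn (fun t => f (a, t)) (Icc 0 T) := by
    intro a haI f hf
    exact hf.comp (by fun_prop) fun t ht => ⟨haI, ht⟩
  have hT0 : (0:ℝ) ∈ Icc (0:ℝ) T := ⟨le_rfl, hT.le⟩
  have hcov : Icc (-a₁) a₁ ⊆ V 1 ∪ V (-1) := by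
    intro a haI
    obtain ⟨σ, hσ, t, ht, f⟩ := Shoot_one (Ω := fun i t => ω i (a, t)) hT
      (hline a haI h hh) (hline a haI l hl) (hline a haI r hr)
      (fun i => hline a haI (ω i) (hω i)) (h0 a haI) (r0 a haI) (rh a haI)
      (fun i => by
        obtain ⟨ε, hε, hb⟩ := bar i
        exact ⟨ε, hε, fun t ht => hb a haI t ht⟩)
      (by
        obtain ⟨ε, hε, hb⟩ := tr
        exact ⟨ε, hε, fun t ht => hb a haI t ht⟩)
      (nz a haI) (nf a haI)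
    rcases hσ with rfl | rfl
    · exact Or.inl (hVm 1 a haI ⟨t, ht, f⟩)
    · exact Or.inr (hVm (-1) a haI ⟨t, ht, f⟩)
  have hstart : ∀ σ a, a ∈ Icc (-a₁) a₁ → h (a, 0) < 0 → 0 < σ * l (a, 0) → a ∈ V σ := by
    intro σ a haI f1 f2
    refine hVm σ a haI ⟨0, hT0, f1, f2, ?_⟩
    intro s hs
    have hs0 : s = 0 := le_antisymm hs.2 hs.1
    subst hs0
    exact ⟨h0 a haI, Or.inl f2⟩
  have hp : a₁ ∈ Icc (-a₁) a₁ := ⟨by linarith, le_rfl⟩
  have hm : -a₁ ∈ Icc (-a₁) a₁ := ⟨le_rfl, by linarith⟩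
  have hne : (Icc (-a₁) a₁ ∩ V 1).Nonempty ∧ (Icc (-a₁) a₁ ∩ V (-1)).Nonempty := by
    rcases mul_neg_iff.1 e3 with ⟨g1, g2⟩ | ⟨g1, g2⟩
    · exact ⟨⟨a₁, hp, hstart 1 a₁ hp e1 (by linarith)⟩,
        ⟨-a₁, hm, hstart (-1) (-a₁) hm e2 (by linarith)⟩⟩
    · exact ⟨⟨-a₁, hm, hstart 1 (-a₁) hm e2 (by linarith)⟩,
        ⟨a₁, hp, hstart (-1) a₁ hp e1 (by linarith)⟩⟩
  obtain ⟨a, _, ⟨t, _, f1, f2, f3⟩, ⟨t', _, f1', f2', f3'⟩⟩ :=
    isPreconnected_Icc (V 1) (V (-1)) (hV 1) (hV (-1)) hcov hne.1 hne.2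
  rcases le_total t t' with htt | htt
  · rcases le_or_gt 0 t with ht0 | ht0
    · rcases (f3' t ⟨ht0, htt⟩).2 with g | g <;> linarith
    · rename_i q1 q2
      linarith [q1.1]
  · rcases le_or_gt 0 t' with ht0 | ht0
    · rcases (f3 t' ⟨ht0, htt⟩).2 with g | g <;> linarith
    · rename_i q1 q2
      linarith [q2.1]

end H72KB

end S_H72_KB_Shoot

section S_H72_KB_Glue

/-!
# Row Glue: continuity and time derivatives of all functionals along the trajectories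

`con_all`: `fam_epa` + `con_E`, `con_V`, `con_I`, `con_X` (`LL = M * Ef + Vf`; `ph0, Q, Q'` are continuous and bounded:
`Q_cl`, `Cl_deriv`, `|ph0| ≤ Q`); `P` is jointly continuous (`Traj.cont`).
`der_all`: `L` from `VF_props` (`hi ≤ 1` since `16 R hi ≤ 1`, `R ≥ 1`); `flow_epa` gives `J` and the `Flow`; `der_E`, `der_V`, `der_I`,
`der_X` at `t ∈ J`; `lb = (P a t).1` at points of `J` (clips inactive: `clp lo hi s = s` for `lo ≤ s ≤ hi`), `J` open
(`Flow.op`) for the `HasDerivAt` of `(P a ·).1`: `Flow.dl` and `HasDerivAt.congr_of_eventuallyEq`, or directly from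
`Traj.ode` (`HasDerivAt.fst`, `.snd`; at `t` the clips are inactive, `VF = (-b/l², (1+m)/l²)`).
-/

open MeasureTheory Filter Topology Set
open scoped ContDiff

namespace H72KB

open H98KB

theorem Glue_bnd {k : ℕ} (hk : 5 ≤ k) : ∃ C : ℝ, (∀ y, |ph0 k y| ≤ C) ∧ (∀ y, |Qf k y| ≤ C) ∧
    ∀ y, |deriv (Qf k) y| ≤ C := by
  have hk1 : 1 ≤ k := by omega
  obtain ⟨C0, hC0, h0⟩ := ClB_pos (Q_cl hk1) 0
  obtain ⟨C1, hC1, h1⟩ := ClB_pos (Q_cl hk1) 1
  have hb : ∀ y, bd 1 1 y ≤ 1 := fun y => bd_le_one (by norm_num) (by norm_num) y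
  have hQ : ∀ y, |Qf k y| ≤ C0 := by
    intro y
    have h := h0 y
    rw [iteratedDeriv_zero] at h
    exact h.trans (mul_le_of_le_one_right hC0 (hb y))
  have hQ' : ∀ y, |deriv (Qf k) y| ≤ C1 := by
    intro y
    have h := h1 y
    rw [iteratedDeriv_one] at h
    exact h.trans (mul_le_of_le_one_right hC1 (hb y))
  refine ⟨C0 + C1, fun y => ?_, fun y => (hQ y).trans (by linarith), fun y =>
    (hQ' y).trans (by linarith)⟩
  have h2 : |ph0 k y| ≤ |Qf k y| := by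
    unfold ph0
    rw [abs_div, abs_of_pos (Real.cosh_pos _)]
    exact div_le_self (abs_nonneg _) (Real.one_le_cosh _)
  exact h2.trans ((hQ y).trans (by linarith))

theorem Glue_cont {k : ℕ} (hk : 5 ≤ k) : Continuous (ph0 k) ∧ Continuous (Qf k) ∧
    Continuous (deriv (Qf k)) := by
  have hk1 : 1 ≤ k := by omega
  have hQ : Continuous (Qf k) := (Q_cl hk1).1.continuous
  refine ⟨?_, hQ, (Cl_deriv (Q_cl hk1)).1.continuous⟩
  show Continuous (fun y => Qf k y / Real.cosh ((k : ℝ) * y / 2))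
  exact hQ.div (Real.continuous_cosh.comp (by fun_prop)) (fun y => (Real.cosh_pos _).ne')

theorem con_all {k : ℕ} {T α a₁ l₀ lo hi X₀ R : ℝ} {U e : ℝ → ℝ → ℝ → ℝ} {P : ℝ → ℝ → ℝ × ℝ}
    (hk : 5 ≤ k) (hT : 0 < T) (ha : 0 ≤ a₁) (hR : 1 ≤ R) (hα : α = 4 * R) (hlo : 0 < lo)
    (hlh : lo ≤ hi) (hhi : 16 * R * hi ≤ 1) (hX : 0 ≤ X₀) (h : UF k T α a₁ U e)
    (hP : Traj k T a₁ l₀ lo hi X₀ U e P) (γ η M : ℝ) {δ B : ℝ} (hB : 0 < B) (hδ : 0 < δ) :
    ContinuousOn (fun z : ℝ × ℝ => (P z.1 z.2).1) (Icc (-a₁) a₁ ×ˢ Icc 0 T) ∧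
    ContinuousOn (fun z : ℝ × ℝ => (P z.1 z.2).2) (Icc (-a₁) a₁ ×ˢ Icc 0 T) ∧
    ContinuousOn (fun z : ℝ × ℝ => LL k η γ δ M B (R * lb lo hi P z.1 z.2)
      (epa k lo hi X₀ U P z.1 z.2)) (Icc (-a₁) a₁ ×ˢ Icc 0 T) ∧
    ContinuousOn (fun z : ℝ × ℝ => ip (epa k lo hi X₀ U P z.1 z.2) (ph0 k))
      (Icc (-a₁) a₁ ×ˢ Icc 0 T) ∧
    ContinuousOn (fun z : ℝ × ℝ => ip (epa k lo hi X₀ U P z.1 z.2) (Qf k))
      (Icc (-a₁) a₁ ×ˢ Icc 0 T) ∧
    ContinuousOn (fun z : ℝ × ℝ => ip (epa k lo hi X₀ U P z.1 z.2) (deriv (Qf k)))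
      (Icc (-a₁) a₁ ×ˢ Icc 0 T) ∧
    ContinuousOn (fun z : ℝ × ℝ => Xn (epa k lo hi X₀ U P z.1 z.2))
      (Icc (-a₁) a₁ ×ˢ Icc 0 T) := by
  have hk1 : 1 ≤ k := by omega
  have F := fam_epa hk hT ha hR hα hlo hlh hhi hX h hP
  obtain ⟨C, hC1, hC2, hC3⟩ := Glue_bnd hk
  obtain ⟨hc1, hc2, hc3⟩ := Glue_cont hk
  refine ⟨continuous_fst.comp_continuousOn hP.cont, continuous_snd.comp_continuousOn hP.cont, ?_,
    con_I F _ hc1 C hC1, con_I F _ hc2 C hC2, con_I F _ hc3 C hC3, con_X F⟩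
  exact ((con_E hk1 F hB).const_mul M).add (con_V hk1 F hB hδ η γ)

theorem der_all {k : ℕ} {T α a₁ l₀ lo hi X₀ R : ℝ} {U e : ℝ → ℝ → ℝ → ℝ} {P : ℝ → ℝ → ℝ × ℝ}
    (hk : 5 ≤ k) (hT : 0 < T) (ha : 0 ≤ a₁) (hR : 1 ≤ R) (hα : α = 4 * R) (hlo : 0 < lo)
    (hlh : lo ≤ hi) (hhi : 16 * R * hi ≤ 1) (hX : 0 ≤ X₀) (h : UF k T α a₁ U e)
    (hP : Traj k T a₁ l₀ lo hi X₀ U e P) (γ η M : ℝ) {δ B : ℝ} (hB : 0 < B) (hδ : 0 < δ)
    {a t : ℝ} (haI : a ∈ Icc (-a₁) a₁) (ht : t ∈ Ioo 0 T) (h1 : lo < (P a t).1)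
    (h2 : (P a t).1 < hi) (h3 : |(P a t).2| < X₀) {b m l : ℝ} {ε E : ℝ → ℝ}
    (hl : l = (P a t).1) (hb : b = ba k lo hi X₀ U e P a t) (hm : m = ma k lo hi X₀ U e P a t)
    (hε : ε = epa k lo hi X₀ U P a t) (hE : E = eaa k lo hi X₀ e P a t) :
    HasDerivAt (fun s => (P a s).1) (-b / l ^ 2) t ∧
    HasDerivAt (fun s => (P a s).2) ((1 + m) / l ^ 2) t ∧
    HasDerivAt (fun s => LL k η γ δ M B (R * lb lo hi P a s) (epa k lo hi X₀ U P a s))
      (W3 k η γ δ M B R l b m ε E / l ^ 3) t ∧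
    HasDerivAt (fun s => ip (epa k lo hi X₀ U P a s) (ph0 k))
      (ip (zeta k b m l ε E) (ph0 k) / l ^ 3) t ∧
    HasDerivAt (fun s => ip (epa k lo hi X₀ U P a s) (Qf k))
      (ip (zeta k b m l ε E) (Qf k) / l ^ 3) t ∧
    HasDerivAt (fun s => ip (epa k lo hi X₀ U P a s) (deriv (Qf k)))
      (ip (zeta k b m l ε E) (deriv (Qf k)) / l ^ 3) t ∧
    HasDerivAt (fun s => Xn (epa k lo hi X₀ U P a s))
      (2 * ip (deriv ε) (deriv (zeta k b m l ε E)) / l ^ 3) t := by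
  have hk1 : 1 ≤ k := by omega
  have hhi1 : hi ≤ 1 := by nlinarith
  obtain ⟨L, hL, -, -, -⟩ := VF_props hk hT ha (by rw [hα]; linarith) hlo hlh hhi1 hX h
  obtain ⟨J, htJ, hJT, hJc, F⟩ := flow_epa hk hT ha hR hα hlo hlh hhi hX h hP L hL haI ht h1 h2 h3
  obtain ⟨C, hC1, hC2, hC3⟩ := Glue_bnd hk
  obtain ⟨hc1, hc2, hc3⟩ := Glue_cont hk
  have hlt : lb lo hi P a t = l := by
    rw [hl]
    exact FlowR_clp h1 h2
  have hode := hP.ode a haI t ht
  have e1 : clp lo hi (P a t).1 = l := hlt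
  subst hb hm hε hE
  have hI := fun φ (hφ : Continuous φ) (hC : ∀ y, |φ y| ≤ C) => der_I hk1 F φ hφ C hC htJ
  have hX' := der_X hk1 F htJ
  have hE' := der_E hk1 F hB htJ
  have hV' := der_V hk1 F hB hδ η γ htJ
  simp only [hlt] at hI hX' hE' hV'
  refine ⟨?_, ?_, ?_, hI _ hc1 hC1, hI _ hc2 hC2, hI _ hc3 hC3, hX'⟩
  · have h4 : HasDerivAt (fun s => (P a s).1) (VF k lo hi X₀ (U a) (e a) t (P a t)).1 t :=
      (hasFDerivAt_fst (𝕜 := ℝ) (p := P a t)).comp_hasDerivAt t hode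
    have e2 : (VF k lo hi X₀ (U a) (e a) t (P a t)).1 = -ba k lo hi X₀ U e P a t / l ^ 2 := by
      show -(ba k lo hi X₀ U e P a t) / (clp lo hi (P a t).1) ^ 2 = _
      rw [e1]
    rw [e2] at h4
    exact h4
  · have h4 : HasDerivAt (fun s => (P a s).2) (VF k lo hi X₀ (U a) (e a) t (P a t)).2 t :=
      (hasFDerivAt_snd (𝕜 := ℝ) (p := P a t)).comp_hasDerivAt t hode
    have e2 : (VF k lo hi X₀ (U a) (e a) t (P a t)).2 =
        (1 + ma k lo hi X₀ U e P a t) / l ^ 2 := by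
      show (1 + ma k lo hi X₀ U e P a t) / (clp lo hi (P a t).1) ^ 2 = _
      rw [e1]
    rw [e2] at h4
    exact h4
  · have h4 := (hE'.const_mul M).add hV'
    have e2 : W3 k η γ δ M B R l (ba k lo hi X₀ U e P a t) (ma k lo hi X₀ U e P a t)
        (epa k lo hi X₀ U P a t) (eaa k lo hi X₀ e P a t) / l ^ 3 =
        M * (DE k B (R * l) (ba k lo hi X₀ U e P a t) (epa k lo hi X₀ U P a t)
          (zeta k (ba k lo hi X₀ U e P a t) (ma k lo hi X₀ U e P a t) l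
            (epa k lo hi X₀ U P a t) (eaa k lo hi X₀ e P a t)) / l ^ 3) +
        DV k η γ B δ (epa k lo hi X₀ U P a t)
          (zeta k (ba k lo hi X₀ U e P a t) (ma k lo hi X₀ U e P a t) l
            (epa k lo hi X₀ U P a t) (eaa k lo hi X₀ e P a t)) / l ^ 3 := by
      unfold W3
      ring
    rw [e2]
    exact h4

end H72KB

end S_H72_KB_Glue

section S_H72_KB_Core

/-! # Core: the shooting argument along the trajectories -/

open MeasureTheory Filter Topology Set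
open scoped ContDiff

namespace H72KB

open H98KB

theorem core_clp {lo hi s : ℝ} (h1 : lo ≤ s) (h2 : s ≤ hi) : clp lo hi s = s := by
  unfold clp
  rw [min_eq_left h2, max_eq_right h1]

theorem core {k : ℕ} (hk : 5 ≤ k) {γ η δ M B : ℝ} (hB : 0 < B) (hδ : 0 < δ)
    {K2 K3 K6 K7 μ R l₀ a₁ T α lm X₀ ν₁ : ℝ} (hκ : 0 < kap k) (hμ : 0 < μ) (hK3 : 0 < K3)
    (hK7 : 0 < K7) (hR : 1 ≤ R) (hα : α = 4 * R) (hl₀ : 0 < l₀) (hRl : 32 * R * l₀ ≤ 1)
    (hT : T = l₀ ^ 2 / kap k) (ha₁ : 0 < a₁) (hlm : 0 < lm) (hlm' : lm ≤ l₀)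
    (hX₀ : X₀ = 2 + 2 / lm ^ 2 * T) {U e : ℝ → ℝ → ℝ → ℝ} {P : ℝ → ℝ → ℝ × ℝ}
    (hU : UF k T α a₁ U e) (hP : Traj k T a₁ l₀ (lm / 2) (2 * l₀) X₀ U e P)
    (hdyn : ∀ a ∈ Icc (-a₁) a₁, ∀ t ∈ Icc 0 T, lm / 2 < (P a t).1 → (P a t).1 < 2 * l₀ →
      |(P a t).2| < X₀ →
      Reg k γ η δ M B R μ K2 K3 K6 K7 ν₁ (P a t).1 (epa k (lm / 2) (2 * l₀) X₀ U P a t) →
      lm ≤ (P a t).1 ∧
      Dyn k γ η δ M B R μ K2 K3 K6 K7 (P a t).1 (ba k (lm / 2) (2 * l₀) X₀ U e P a t)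
        (ma k (lm / 2) (2 * l₀) X₀ U e P a t) (epa k (lm / 2) (2 * l₀) X₀ U P a t)
        (eaa k (lm / 2) (2 * l₀) X₀ e P a t))
    (hini : ∀ a ∈ Icc (-a₁) a₁,
      Reg k γ η δ M B R μ K2 K3 K6 K7 ν₁ l₀ (epa k (lm / 2) (2 * l₀) X₀ U P a 0))
    (hend : ∀ a ∈ Icc (-a₁) a₁, |a| = a₁ →
      LL k η γ δ M B (R * l₀) (epa k (lm / 2) (2 * l₀) X₀ U P a 0) < -(μ * l₀) ∧
      0 < ip (epa k (lm / 2) (2 * l₀) X₀ U P a 0) (ph0 k) * (a * ip (nf k) (ph0 k))) :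
    False := by
  have hT0 : 0 < T := by rw [hT]; positivity
  have hX0 : 0 ≤ X₀ := by rw [hX₀]; positivity
  have hlo : 0 < lm / 2 := by positivity
  have hlh : lm / 2 ≤ 2 * l₀ := by linarith
  have hhi : 16 * R * (2 * l₀) ≤ 1 := by linarith
  obtain ⟨c1, c2, c3, c4, c5, c6, c7⟩ := con_all hk hT0 ha₁.le hR hα hlo hlh hhi hX0 hU hP γ η M
    hB hδ
  set lam : ℝ × ℝ → ℝ := fun z => (P z.1 z.2).1 with hlam
  set xx : ℝ × ℝ → ℝ := fun z => (P z.1 z.2).2 with hxx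
  set W : ℝ × ℝ → ℝ := fun z => LL k η γ δ M B (R * lb (lm / 2) (2 * l₀) P z.1 z.2)
      (epa k (lm / 2) (2 * l₀) X₀ U P z.1 z.2) with hW
  set φ : ℝ × ℝ → ℝ := fun z => ip (epa k (lm / 2) (2 * l₀) X₀ U P z.1 z.2) (ph0 k) with hφ
  set pp : ℝ × ℝ → ℝ := fun z => ip (epa k (lm / 2) (2 * l₀) X₀ U P z.1 z.2) (Qf k) with hpp
  set qq : ℝ × ℝ → ℝ := fun z => ip (epa k (lm / 2) (2 * l₀) X₀ U P z.1 z.2) (deriv (Qf k))
    with hqq
  set X : ℝ × ℝ → ℝ := fun z => Xn (epa k (lm / 2) (2 * l₀) X₀ U P z.1 z.2) with hX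
  -- the barrier functions
  set wv : Fin 9 → ℝ × ℝ → ℝ := ![
    fun z => μ * lam z - W z,
    fun z => K3 * μ * lam z - ((φ z) ^ 2 + K2 * W z),
    fun z => K7 * lam z - (X z + K6 * W z),
    fun z => 2 * l₀ - lam z,
    fun z => lam z - lm / 2,
    fun z => 1 + 2 / lm ^ 2 * z.2 - xx z,
    fun z => 1 + xx z,
    fun z => ν₁ ^ 2 - (pp z) ^ 2,
    fun z => ν₁ ^ 2 - (qq z) ^ 2] with hwd
  have hall : ∀ z, (∀ i, 0 < wv i z) ↔ (0 < μ * lam z - W z ∧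
      0 < K3 * μ * lam z - ((φ z) ^ 2 + K2 * W z) ∧ 0 < K7 * lam z - (X z + K6 * W z) ∧
      0 < 2 * l₀ - lam z ∧ 0 < lam z - lm / 2 ∧ 0 < 1 + 2 / lm ^ 2 * z.2 - xx z ∧
      0 < 1 + xx z ∧ 0 < ν₁ ^ 2 - (pp z) ^ 2 ∧ 0 < ν₁ ^ 2 - (qq z) ^ 2) := by
    intro z
    constructor
    · intro h
      exact ⟨h 0, h 1, h 2, h 3, h 4, h 5, h 6, h 7, h 8⟩
    · rintro ⟨h0, h1, h2, h3, h4, h5, h6, h7, h8⟩ i
      fin_cases i
      · exact h0
      · exact h1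
      · exact h2
      · exact h3
      · exact h4
      · exact h5
      · exact h6
      · exact h7
      · exact h8
  have hlb : ∀ a t, lm / 2 < (P a t).1 → (P a t).1 < 2 * l₀ →
      lb (lm / 2) (2 * l₀) P a t = (P a t).1 := by
    intro a t h1 h2
    exact core_clp h1.le h2.le
  -- the state in the region
  have key : ∀ a ∈ Icc (-a₁) a₁, ∀ t ∈ Icc 0 T, (∀ i, 0 < wv i (a, t)) →
      0 < W (a, t) + 4 * μ * lam (a, t) →
      (lm / 2 < (P a t).1 ∧ (P a t).1 < 2 * l₀ ∧ |(P a t).2| < X₀ ∧ lm ≤ (P a t).1 ∧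
        W (a, t) = LL k η γ δ M B (R * (P a t).1) (epa k (lm / 2) (2 * l₀) X₀ U P a t) ∧
      Dyn k γ η δ M B R μ K2 K3 K6 K7 (P a t).1 (ba k (lm / 2) (2 * l₀) X₀ U e P a t)
        (ma k (lm / 2) (2 * l₀) X₀ U e P a t) (epa k (lm / 2) (2 * l₀) X₀ U P a t)
        (eaa k (lm / 2) (2 * l₀) X₀ e P a t)) := by
    intro a ha t ht hhwv hr
    rw [hall] at hhwv
    obtain ⟨h0, h1, h2, h3, h4, h5, h6, h7, h8⟩ := hhwv
    have g1 : lm / 2 < (P a t).1 := by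
      have := h4; simp only [hlam] at this; linarith
    have g2 : (P a t).1 < 2 * l₀ := by
      have := h3; simp only [hlam] at this; linarith
    have g3 : |(P a t).2| < X₀ := by
      have e5 := h5
      have e6 := h6
      simp only [hxx] at e5 e6
      have ht2 : 2 / lm ^ 2 * t ≤ 2 / lm ^ 2 * T :=
        mul_le_mul_of_nonneg_left ht.2 (by positivity)
      rw [hX₀, abs_lt]
      have : 0 ≤ 2 / lm ^ 2 * T := by positivity
      constructor <;> linarith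
    have gW : W (a, t) = LL k η γ δ M B (R * (P a t).1) (epa k (lm / 2) (2 * l₀) X₀ U P a t) := by
      simp only [hW, hlb a t g1 g2]
    have hreg : Reg k γ η δ M B R μ K2 K3 K6 K7 ν₁ (P a t).1
        (epa k (lm / 2) (2 * l₀) X₀ U P a t) := by
      refine ⟨?_, ?_, ?_, ?_, ?_, ?_⟩
      · rw [← gW]
        have := hr
        simp only [hlam] at this
        linarith
      · rw [← gW]
        have := h0
        simp only [hlam] at this
        linarith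
      · rw [← gW]
        have := h1
        simp only [hlam, hφ] at this
        linarith
      · rw [← gW]
        have := h2
        simp only [hlam, hX] at this
        linarith
      · have := h7
        simp only [hpp] at this
        linarith
      · have := h8
        simp only [hqq] at this
        linarith
    obtain ⟨d1, d2⟩ := hdyn a ha t ht g1 g2 g3 hreg
    exact ⟨g1, g2, g3, d1, gW, d2⟩
  have hder : ∀ a ∈ Icc (-a₁) a₁, ∀ t ∈ Ioo 0 T, lm / 2 < (P a t).1 → (P a t).1 < 2 * l₀ →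
      |(P a t).2| < X₀ → _ := fun a ha t ht g1 g2 g3 =>
    der_all hk hT0 ha₁.le hR hα hlo hlh hhi hX0 hU hP γ η M hB hδ ha ht g1 g2 g3 rfl rfl rfl rfl rfl
  have hI1 : a₁ ∈ Icc (-a₁) a₁ := ⟨by linarith, le_refl _⟩
  have hI2 : -a₁ ∈ Icc (-a₁) a₁ := ⟨le_refl _, by linarith⟩
  have hP0 : ∀ a ∈ Icc (-a₁) a₁, lam (a, 0) = l₀ ∧ xx (a, 0) = 0 := by
    intro a ha
    have := hP.init a ha
    simp only [hlam, hxx, this, and_self]
  have hW0 : ∀ a ∈ Icc (-a₁) a₁, W (a, 0) =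
      LL k η γ δ M B (R * l₀) (epa k (lm / 2) (2 * l₀) X₀ U P a 0) := by
    intro a ha
    have h1 : (P a 0).1 = l₀ := (hP0 a ha).1
    simp only [hW]
    rw [hlb a 0 (by rw [h1]; linarith) (by rw [h1]; linarith), h1]
  have hsub : ∀ t, t ∈ Ioo (0:ℝ) T → t ∈ Icc (0:ℝ) T := fun t h => ⟨h.1.le, h.2.le⟩
  refine shoot a₁ T ha₁ hT0 (fun z => W z + μ * lam z) φ (fun z => W z + 4 * μ * lam z) wv
    (c3.add (c1.const_mul μ |>.congr fun _ _ => rfl)) c4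
    (c3.add ((c1.const_mul (4 * μ)).congr fun _ _ => rfl)) ?_ ?_ ?_ ?_ ?_ ?_ ?_ ?_ ?_ ?_ ?_
  · -- continuity of wv
    intro i
    fin_cases i
    · exact (continuousOn_const.mul c1).sub c3
    · exact (continuousOn_const.mul c1).sub ((c4.pow 2).add (continuousOn_const.mul c3))
    · exact (continuousOn_const.mul c1).sub (c7.add (continuousOn_const.mul c3))
    · exact continuousOn_const.sub c1
    · exact c1.sub continuousOn_const
    · exact (continuousOn_const.add (continuousOn_const.mul continuousOn_snd)).sub c2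
    · exact continuousOn_const.add c2
    · exact continuousOn_const.sub (c5.pow 2)
    · exact continuousOn_const.sub (c6.pow 2)
  · -- initial positivity
    intro a ha
    rw [hall]
    have hr := hini a ha
    obtain ⟨h1, h2⟩ := hP0 a ha
    have e0 := hr.w1
    have e1 := hr.w2
    have e2 := hr.w3
    have e7 := hr.wp
    have e8 := hr.wq
    rw [← hW0 a ha] at e0 e1 e2
    rw [h1, h2]
    simp only [hφ, hX, hpp, hqq]
    refine ⟨by linarith, by linarith, by linarith, by linarith, by linarith, by norm_num, by norm_num,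
      by linarith, by linarith⟩
  · intro a ha
    have h := (hini a ha).w0
    rw [← hW0 a ha] at h
    have h1 := (hP0 a ha).1
    simp only [h1]
    linarith
  · intro a ha t ht hwv hh
    rw [hall] at hwv
    have h4 := hwv.2.2.2.2.1
    have : 0 < lam (a, t) := by linarith
    have := mul_pos hμ this
    have hh' : 0 ≤ W (a, t) + μ * lam (a, t) := hh
    show 0 < W (a, t) + 4 * μ * lam (a, t)
    linarith
  · -- barriers
    have hb0 : ∀ a ∈ Icc (-a₁) a₁, ∀ t ∈ Ioo 0 T, (∀ i, 0 < wv i (a, t)) →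
      0 < W (a, t) + 4 * μ * lam (a, t) → 0 < (P a t).1 ∧
        0 ≤ ba k (lm / 2) (2 * l₀) X₀ U e P a t := by
      intro a ha t ht hwv hr
      obtain ⟨g1, g2, g3, g4, g5, g6⟩ := key a ha t (hsub t ht) hwv hr
      have : 0 < (P a t).1 := by linarith
      exact ⟨this, le_trans (by positivity) g6.b1⟩
    intro i
    fin_cases i
    · refine ⟨μ * lm / 4, by positivity, ?_⟩
      intro a ha t ht hwv hr hlt
      obtain ⟨g1, g2, g3, g4, g5, g6⟩ := key a ha t (hsub t ht) hwv hr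
      obtain ⟨p1, p2⟩ := hb0 a ha t ht hwv hr
      obtain ⟨d1, d2, d3, d4, d5, d6, d7⟩ := hder a ha t ht g1 g2 g3
      have hlt' : μ * (P a t).1 - W (a, t) < μ * lm / 4 := hlt
      have hm : μ * lm ≤ μ * (P a t).1 := mul_le_mul_of_nonneg_left g4 hμ.le
      have hm0 : 0 < μ * (P a t).1 := mul_pos hμ p1
      have ht1 := g6.t1 (by
        rw [← g5, abs_of_nonneg (by linarith)]
        linarith)
      refine ⟨_, ?_, (d1.const_mul μ).sub d3⟩
      have : μ * (-ba k (lm / 2) (2 * l₀) X₀ U e P a t / (P a t).1 ^ 2) -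
          W3 k η γ δ M B R (P a t).1 (ba k (lm / 2) (2 * l₀) X₀ U e P a t)
            (ma k (lm / 2) (2 * l₀) X₀ U e P a t) (epa k (lm / 2) (2 * l₀) X₀ U P a t)
            (eaa k (lm / 2) (2 * l₀) X₀ e P a t) / (P a t).1 ^ 3 =
          (-(μ * ba k (lm / 2) (2 * l₀) X₀ U e P a t * (P a t).1) -
          W3 k η γ δ M B R (P a t).1 (ba k (lm / 2) (2 * l₀) X₀ U e P a t)
            (ma k (lm / 2) (2 * l₀) X₀ U e P a t) (epa k (lm / 2) (2 * l₀) X₀ U P a t)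
            (eaa k (lm / 2) (2 * l₀) X₀ e P a t)) / (P a t).1 ^ 3 := by
        field_simp
      rw [this]
      exact div_nonneg (by linarith) (by positivity)
    · refine ⟨K3 * μ * lm / 4, by positivity, ?_⟩
      intro a ha t ht hwv hr hlt
      obtain ⟨g1, g2, g3, g4, g5, g6⟩ := key a ha t (hsub t ht) hwv hr
      obtain ⟨p1, p2⟩ := hb0 a ha t ht hwv hr
      obtain ⟨d1, d2, d3, d4, d5, d6, d7⟩ := hder a ha t ht g1 g2 g3
      have hlt' : K3 * μ * (P a t).1 - ((φ (a, t)) ^ 2 + K2 * W (a, t)) < K3 * μ * lm / 4 := hlt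
      have hm : K3 * μ * lm ≤ K3 * μ * (P a t).1 := mul_le_mul_of_nonneg_left g4 (by positivity)
      have hm0 : 0 < K3 * μ * (P a t).1 := by positivity
      have ht1 := g6.t2 (by
        rw [← g5]
        show _ ≤ (φ (a, t)) ^ 2 + K2 * W (a, t)
        linarith)
      refine ⟨_, ?_, (d1.const_mul (K3 * μ)).sub ((d4.pow 2).add (d3.const_mul K2))⟩
      generalize W3 k η γ δ M B R (P a t).1 (ba k (lm / 2) (2 * l₀) X₀ U e P a t)
            (ma k (lm / 2) (2 * l₀) X₀ U e P a t) (epa k (lm / 2) (2 * l₀) X₀ U P a t)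
            (eaa k (lm / 2) (2 * l₀) X₀ e P a t) = w at ht1 ⊢
      generalize ip (zeta k (ba k (lm / 2) (2 * l₀) X₀ U e P a t)
        (ma k (lm / 2) (2 * l₀) X₀ U e P a t) (P a t).1 (epa k (lm / 2) (2 * l₀) X₀ U P a t)
            (eaa k (lm / 2) (2 * l₀) X₀ e P a t)) (ph0 k) = w' at ht1 ⊢
      generalize ba k (lm / 2) (2 * l₀) X₀ U e P a t = bb at ht1 ⊢
      generalize ip (epa k (lm / 2) (2 * l₀) X₀ U P a t) (ph0 k) = f at ht1 ⊢
      generalize (P a t).1 = l at ht1 p1 ⊢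
      have : K3 * μ * (-bb / l ^ 2) - (((2 : ℕ) : ℝ) * f ^ (2 - 1) * (w' / l ^ 3) + K2 * (w / l ^ 3)) =
          (-(K3 * μ * bb * l) - (2 * f * w' + K2 * w)) / l ^ 3 := by
        push_cast
        field_simp
      rw [this]
      exact div_nonneg (by linarith) (by positivity)
    · refine ⟨K7 * lm / (k + 4), by positivity, ?_⟩
      intro a ha t ht hwv hr hlt
      obtain ⟨g1, g2, g3, g4, g5, g6⟩ := key a ha t (hsub t ht) hwv hr
      obtain ⟨p1, p2⟩ := hb0 a ha t ht hwv hr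
      obtain ⟨d1, d2, d3, d4, d5, d6, d7⟩ := hder a ha t ht g1 g2 g3
      have hlt' : K7 * (P a t).1 - (X (a, t) + K6 * W (a, t)) < K7 * lm / (k + 4) := hlt
      have hk0 : (0 : ℝ) < (k : ℝ) + 4 := by positivity
      have hm : K7 * lm / (k + 4) ≤ K7 * (P a t).1 / (k + 4) :=
        div_le_div_of_nonneg_right (mul_le_mul_of_nonneg_left g4 hK7.le) hk0.le
      have hm2 : K7 * (P a t).1 / (k + 4) = K7 * (P a t).1 -
        ((k : ℝ) + 3) / ((k : ℝ) + 4) * K7 * (P a t).1 := by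
        field_simp
        ring
      have ht1 := g6.t3 (by
        rw [← g5]
        show _ ≤ X (a, t) + K6 * W (a, t)
        linarith)
      refine ⟨_, ?_, (d1.const_mul K7).sub (d7.add (d3.const_mul K6))⟩
      generalize W3 k η γ δ M B R (P a t).1 (ba k (lm / 2) (2 * l₀) X₀ U e P a t)
            (ma k (lm / 2) (2 * l₀) X₀ U e P a t) (epa k (lm / 2) (2 * l₀) X₀ U P a t)
            (eaa k (lm / 2) (2 * l₀) X₀ e P a t) = w at ht1 ⊢
      generalize ip (deriv (epa k (lm / 2) (2 * l₀) X₀ U P a t))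
        (deriv (zeta k (ba k (lm / 2) (2 * l₀) X₀ U e P a t)
        (ma k (lm / 2) (2 * l₀) X₀ U e P a t) (P a t).1 (epa k (lm / 2) (2 * l₀) X₀ U P a t)
            (eaa k (lm / 2) (2 * l₀) X₀ e P a t))) = w' at ht1 ⊢
      generalize ba k (lm / 2) (2 * l₀) X₀ U e P a t = bb at ht1 ⊢
      generalize (P a t).1 = l at ht1 p1 ⊢
      have : K7 * (-bb / l ^ 2) - (2 * w' / l ^ 3 + K6 * (w / l ^ 3)) =
          (-(K7 * bb * l) - (2 * w' + K6 * w)) / l ^ 3 := by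
        field_simp
      rw [this]
      exact div_nonneg (by linarith) (by positivity)
    · refine ⟨1, one_pos, ?_⟩
      intro a ha t ht hwv hr hlt
      obtain ⟨g1, g2, g3, g4, g5, g6⟩ := key a ha t (hsub t ht) hwv hr
      obtain ⟨p1, p2⟩ := hb0 a ha t ht hwv hr
      obtain ⟨d1, d2, d3, d4, d5, d6, d7⟩ := hder a ha t ht g1 g2 g3
      refine ⟨_, ?_, d1.const_sub (2 * l₀)⟩
      rw [neg_div, neg_neg]
      positivity
    · refine ⟨lm / 2, hlo, ?_⟩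
      intro a ha t ht hwv hr hlt
      obtain ⟨g1, g2, g3, g4, g5, g6⟩ := key a ha t (hsub t ht) hwv hr
      have hlt' : (P a t).1 - lm / 2 < lm / 2 := hlt
      exfalso
      linarith
    · refine ⟨1, one_pos, ?_⟩
      intro a ha t ht hwv hr hlt
      obtain ⟨g1, g2, g3, g4, g5, g6⟩ := key a ha t (hsub t ht) hwv hr
      obtain ⟨p1, p2⟩ := hb0 a ha t ht hwv hr
      obtain ⟨d1, d2, d3, d4, d5, d6, d7⟩ := hder a ha t ht g1 g2 g3
      refine ⟨_, ?_, (((hasDerivAt_id t).const_mul (2 / lm ^ 2)).const_add 1).sub d2⟩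
      have hm1 := (abs_le.mp g6.m1).2
      have : (1 + ma k (lm / 2) (2 * l₀) X₀ U e P a t) / (P a t).1 ^ 2 ≤ 2 / lm ^ 2 := by
        apply div_le_div₀ (by norm_num) (by linarith) (by positivity)
        exact pow_le_pow_left₀ hlm.le g4 2
      linarith
    · refine ⟨1, one_pos, ?_⟩
      intro a ha t ht hwv hr hlt
      obtain ⟨g1, g2, g3, g4, g5, g6⟩ := key a ha t (hsub t ht) hwv hr
      obtain ⟨p1, p2⟩ := hb0 a ha t ht hwv hr
      obtain ⟨d1, d2, d3, d4, d5, d6, d7⟩ := hder a ha t ht g1 g2 g3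
      refine ⟨_, ?_, d2.const_add 1⟩
      have hm1 := (abs_le.mp g6.m1).1
      exact div_nonneg (by linarith) (by positivity)
    · refine ⟨1, one_pos, ?_⟩
      intro a ha t ht hwv hr hlt
      obtain ⟨g1, g2, g3, g4, g5, g6⟩ := key a ha t (hsub t ht) hwv hr
      obtain ⟨d1, d2, d3, d4, d5, d6, d7⟩ := hder a ha t ht g1 g2 g3
      refine ⟨_, ?_, (d5.pow 2).const_sub (ν₁ ^ 2)⟩
      rw [g6.orth.1]
      simp
    · refine ⟨1, one_pos, ?_⟩
      intro a ha t ht hwv hr hlt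
      obtain ⟨g1, g2, g3, g4, g5, g6⟩ := key a ha t (hsub t ht) hwv hr
      obtain ⟨d1, d2, d3, d4, d5, d6, d7⟩ := hder a ha t ht g1 g2 g3
      refine ⟨_, ?_, (d6.pow 2).const_sub (ν₁ ^ 2)⟩
      rw [g6.orth.2]
      simp
  · -- transversality
    refine ⟨μ * lm / 2, by positivity, ?_⟩
    intro a ha t ht hwv hr hlt
    obtain ⟨g1, g2, g3, g4, g5, g6⟩ := key a ha t (hsub t ht) hwv hr
    obtain ⟨d1, d2, d3, d4, d5, d6, d7⟩ := hder a ha t ht g1 g2 g3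
    have p1 : 0 < (P a t).1 := by linarith
    have p2 : 0 ≤ ba k (lm / 2) (2 * l₀) X₀ U e P a t := le_trans (by positivity) g6.b1
    have hlt' : W (a, t) + μ * (P a t).1 < μ * lm / 2 := hlt
    have hm : μ * lm ≤ μ * (P a t).1 := mul_le_mul_of_nonneg_left g4 hμ.le
    have hm0 : 0 < μ * (P a t).1 := mul_pos hμ p1
    have ht1 := g6.t1 (by
      rw [← g5, abs_of_nonpos (by linarith)]
      linarith)
    refine ⟨_, ?_, d3.add (d1.const_mul μ)⟩
    generalize W3 k η γ δ M B R (P a t).1 (ba k (lm / 2) (2 * l₀) X₀ U e P a t)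
          (ma k (lm / 2) (2 * l₀) X₀ U e P a t) (epa k (lm / 2) (2 * l₀) X₀ U P a t)
          (eaa k (lm / 2) (2 * l₀) X₀ e P a t) = w at ht1 ⊢
    generalize ba k (lm / 2) (2 * l₀) X₀ U e P a t = bb at ht1 p2 ⊢
    generalize (P a t).1 = l at ht1 p1 ⊢
    have : w / l ^ 3 + μ * (-bb / l ^ 2) = (w - μ * bb * l) / l ^ 3 := by
      field_simp
      ring
    rw [this]
    have : 0 ≤ μ * bb * l := by positivity
    exact div_neg_of_neg_of_pos (by linarith) (by positivity)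
  · -- nz
    intro a ha t ht hwv hr hh
    obtain ⟨g1, g2, g3, g4, g5, g6⟩ := key a ha t ht hwv hr
    apply g6.nz
    rw [← g5]
    have hh' : W (a, t) + μ * (P a t).1 ≤ 0 := hh
    linarith
  · -- no trajectory is trapped up to time `T`
    intro a ha hall'
    have hreg : ∀ t ∈ Icc 0 T, 0 < W (a, t) + 4 * μ * lam (a, t) := by
      intro t ht
      obtain ⟨q1, q2⟩ := hall' t ht
      rw [hall] at q1
      have h4 := q1.2.2.2.2.1
      have : 0 < lam (a, t) := by linarith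
      have := mul_pos hμ this
      have hh' : 0 ≤ W (a, t) + μ * lam (a, t) := q2
      linarith
    have hc : ContinuousOn (fun s => (P a s).1 ^ 2) (Icc 0 T) := by
      have : ContinuousOn (fun s : ℝ => lam (a, s)) (Icc 0 T) :=
        c1.comp (by fun_prop) (fun s hs => ⟨ha, hs⟩)
      exact this.pow 2
    have hd : ∀ t ∈ Ioo 0 T, ∃ d, d ≤ -kap k ∧ HasDerivAt (fun s => (P a s).1 ^ 2) d t := by
      intro t ht
      obtain ⟨g1, g2, g3, g4, g5, g6⟩ := key a ha t (hsub t ht) (hall' t (hsub t ht)).1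
        (hreg t (hsub t ht))
      obtain ⟨d1, d2, d3, d4, d5, d6, d7⟩ := hder a ha t ht g1 g2 g3
      have p1 : 0 < (P a t).1 := by linarith
      have hb1 := g6.b1
      refine ⟨_, ?_, d1.pow 2⟩
      generalize ba k (lm / 2) (2 * l₀) X₀ U e P a t = bb at hb1 ⊢
      generalize (P a t).1 = l at hb1 p1 ⊢
      have : ((2 : ℕ) : ℝ) * l ^ (2 - 1) * (-bb / l ^ 2) = -(2 * bb / l) := by
        push_cast
        field_simp
      rw [this]
      have : kap k ≤ 2 * bb / l := by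
        rw [le_div_iff₀ p1]
        linarith
      linarith
    have hmv := Convex.image_sub_le_mul_sub_of_deriv_le (convex_Icc (0:ℝ) T) hc
      (fun t ht => by
        rw [interior_Icc] at ht
        obtain ⟨d, _, hd2⟩ := hd t ht
        exact hd2.differentiableAt.differentiableWithinAt)
      (C := -kap k)
      (fun t ht => by
        rw [interior_Icc] at ht
        obtain ⟨d, hd1, hd2⟩ := hd t ht
        rw [hd2.deriv]
        exact hd1)
      0 ⟨le_refl _, hT0.le⟩ T ⟨hT0.le, le_refl _⟩ hT0.le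
    have h0 : (P a 0).1 = l₀ := (hP0 a ha).1
    obtain ⟨q1, q2⟩ := hall' T ⟨hT0.le, le_refl _⟩
    rw [hall] at q1
    have h4 : 0 < (P a T).1 - lm / 2 := q1.2.2.2.2.1
    have h5 : 0 < (P a T).1 := by linarith
    have h6 : kap k * T = l₀ ^ 2 := by
      rw [hT]
      field_simp
    have h7 : 0 < (P a T).1 ^ 2 := by positivity
    simp only [h0] at hmv
    linarith only [hmv, h6, h7]
  · have h := (hend a₁ hI1 (abs_of_pos ha₁)).1
    rw [← hW0 a₁ hI1] at h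
    have h1 := (hP0 a₁ hI1).1
    simp only [h1]
    linarith
  · have h := (hend (-a₁) hI2 (by rw [abs_neg, abs_of_pos ha₁])).1
    rw [← hW0 (-a₁) hI2] at h
    have h1 := (hP0 (-a₁) hI2).1
    simp only [h1]
    linarith
  · have h := (hend a₁ hI1 (abs_of_pos ha₁)).2
    have h' := (hend (-a₁) hI2 (by rw [abs_neg, abs_of_pos ha₁])).2
    have h2 := mul_pos h h'
    have e1 : φ (a₁, 0) = ip (epa k (lm / 2) (2 * l₀) X₀ U P a₁ 0) (ph0 k) := rfl
    have e2 : φ (-a₁, 0) = ip (epa k (lm / 2) (2 * l₀) X₀ U P (-a₁) 0) (ph0 k) := rfl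
    rw [← e1, ← e2] at h2
    have h3 : φ (a₁, 0) * (a₁ * ip (nf k) (ph0 k)) * (φ (-a₁, 0) * (-a₁ * ip (nf k) (ph0 k))) =
      -(φ (a₁, 0) * φ (-a₁, 0)) * (a₁ * ip (nf k) (ph0 k)) ^ 2 := by ring
    rw [h3] at h2
    by_contra hc
    rw [not_lt] at hc
    have : -(φ (a₁, 0) * φ (-a₁, 0)) * (a₁ * ip (nf k) (ph0 k)) ^ 2 ≤ 0 := by
      have := mul_nonneg hc (sq_nonneg (a₁ * ip (nf k) (ph0 k)))
      linarith
    linarith

end H72KB

end S_H72_KB_Core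

section S_H72_KB_Fin

/-! # Final theorem of part 2: from Theorem A (approximation) and Theorem G (static inequalities) -/

open MeasureTheory Filter Topology Set
open scoped ContDiff

namespace H72KB

open H98KB

theorem blowup_of (hA : ThmA) (hGG : ThmG) (hN : ThmN) (k : ℕ) (hk : 5 ≤ k) :
    ∃ φ p₀ : ℝ → ℝ, IsH1 φ p₀ ∧ ¬ ∃ u p : ℝ → ℝ → ℝ, IsGlobalSol k φ u p := by
  by_contra H
  have H' : ∀ φ p₀ : ℝ → ℝ, IsH1 φ p₀ → ∃ u p : ℝ → ℝ → ℝ, IsGlobalSol k φ u p := by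
    intro φ p₀ h
    by_contra hc
    exact H ⟨φ, p₀, h, hc⟩
  obtain ⟨γ, η, δ, M, B, c, C, hG⟩ := hGG k hk
  have hκ : 0 < kap k := kap_pos hk
  have hB : 0 < B := by linarith [hG.hB]
  obtain ⟨A3, A7, hA3, hA7, hini⟩ := initial hk hG hN
  set q0 : ℝ := (∫ y, (Qf k y) ^ 2) + ∫ y, (nf k y) ^ 2 with hq0
  have hq0' : 0 ≤ q0 := add_nonneg (integral_nonneg fun _ => sq_nonneg _)
    (integral_nonneg fun _ => sq_nonneg _)
  obtain ⟨K2, K3, K6, K7, μ, R, hK2, hK6, hK3, hK7, hμ, hμ1, hR, ls1, hls1, hls1', hst⟩ :=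
    static hk hG A3 A7 (4 * q0 + 1) hA3 hA7 (by positivity)
  obtain ⟨ls2, hls2, hini⟩ := hini K2 K3 K6 K7 μ R hK2.le hK6.le hK3 hK7 hμ hμ1 hR
  -- choice of l₀
  set l₀ : ℝ := min (min ls1 ls2) (1 / (32 * R)) with hl₀
  have hR0 : 0 < R := by linarith
  have hl₀0 : 0 < l₀ := by
    rw [hl₀]
    exact lt_min (lt_min hls1 hls2) (by positivity)
  have hl1 : l₀ ≤ ls1 := le_trans (min_le_left _ _) (min_le_left _ _)
  have hl2 : l₀ ≤ ls2 := le_trans (min_le_left _ _) (min_le_right _ _)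
  have hRl : 32 * R * l₀ ≤ 1 := by
    have : l₀ ≤ 1 / (32 * R) := min_le_right _ _
    rw [le_div_iff₀ (by positivity)] at this
    linarith
  have hl₀1 : l₀ ≤ 1 / 32 := by
    have e1 := mul_le_mul_of_nonneg_right hR hl₀0.le
    linarith only [hRl, e1]
  obtain ⟨hst1, hst2⟩ := hst l₀ hl₀0 hl1
  obtain ⟨a₁, ha₁, ha₁', hini⟩ := hini l₀ hl₀0 hl2
  set T : ℝ := l₀ ^ 2 / kap k with hT
  have hT0 : 0 < T := by positivity
  set α : ℝ := 4 * R with hα
  have hα0 : 0 < α := by positivity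
  have hα1 : 1 ≤ α := by linarith
  have hαl : 8 * α * l₀ ≤ 1 := by rw [hα]; linarith
  -- the hypothetical solutions
  choose u hu using fun a : ℝ => H' (dat k l₀ a) _ (dat_H1 hk hN hl₀0 a)
  choose p hp using hu
  obtain ⟨K, hK0, hK⟩ := hA k hk l₀ T α a₁ hl₀0 (by linarith) hT0 hα1 hαl ha₁ ha₁' u p
    (fun a _ => hp a)
  set q1 : ℝ := ∫ y, (deriv (Qf k) y) ^ 2 with hq1
  have hq1' : 0 < q1 := Q'sq_pos (by omega)
  set K' : ℝ := max K (q1 / (4 * l₀)) with hK'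
  have hK'0 : 0 < K' := lt_of_lt_of_le hK0 (le_max_left _ _)
  set lm : ℝ := q1 / (4 * K') with hlm
  have hlm0 : 0 < lm := by positivity
  have hlml : lm ≤ l₀ := by
    have : q1 / (4 * l₀) ≤ K' := le_max_right _ _
    rw [div_le_iff₀ (by positivity)] at this
    rw [hlm, div_le_iff₀ (by positivity)]
    linarith
  obtain ⟨νs1, hνs1, hst2⟩ := hst2 lm hlm0
  obtain ⟨νs2, hνs2, hini⟩ := hini νs1 hνs1
  set X₀ : ℝ := 2 + 2 / lm ^ 2 * T with hX₀
  have hX0 : 0 ≤ X₀ := by positivity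
  -- choice of ν
  obtain ⟨ν, hν0, hν1, hν2, hν3⟩ : ∃ ν : ℝ, 0 < ν ∧ Real.exp (2 * R * X₀) * ν ≤ νs1 ∧
      l₀⁻¹ * ν ≤ νs2 ∧ (2 + T) * ν ≤ l₀ ^ (1 - 4 / (k : ℝ)) := by
    have hE := Real.exp_pos (2 * R * X₀)
    have hr := Real.rpow_pos_of_pos hl₀0 (1 - 4 / (k : ℝ))
    refine ⟨min (min (νs1 / Real.exp (2 * R * X₀)) (νs2 * l₀))
      (l₀ ^ (1 - 4 / (k : ℝ)) / (2 + T)), ?_, ?_, ?_, ?_⟩
    · refine lt_min (lt_min ?_ ?_) ?_ <;> positivity
    · have h1 : min (min (νs1 / Real.exp (2 * R * X₀)) (νs2 * l₀))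
        (l₀ ^ (1 - 4 / (k : ℝ)) / (2 + T)) ≤ νs1 / Real.exp (2 * R * X₀) :=
        le_trans (min_le_left _ _) (min_le_left _ _)
      rw [le_div_iff₀ hE] at h1
      linarith
    · have h1 : min (min (νs1 / Real.exp (2 * R * X₀)) (νs2 * l₀))
        (l₀ ^ (1 - 4 / (k : ℝ)) / (2 + T)) ≤ νs2 * l₀ :=
        le_trans (min_le_left _ _) (min_le_right _ _)
      rw [inv_mul_le_iff₀ hl₀0]
      linarith
    · have h1 : min (min (νs1 / Real.exp (2 * R * X₀)) (νs2 * l₀))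
        (l₀ ^ (1 - 4 / (k : ℝ)) / (2 + T)) ≤ l₀ ^ (1 - 4 / (k : ℝ)) / (2 + T) :=
        min_le_right _ _
      rw [le_div_iff₀ (by positivity)] at h1
      linarith
  obtain ⟨U, e, hUe, hLip⟩ := hK ν hν0
  have hU : UF k T α a₁ U e := ⟨fun a ha => (hUe a ha).1, hLip⟩
  obtain ⟨P, hP⟩ := traj_exists (X₀ := X₀) (lo := lm / 2) (hi := 2 * l₀) l₀ hk hT0 ha₁.le hα0.le
    (by positivity) (by linarith) (by linarith) hX0 hU
  have hcl : ∀ a ∈ Icc (-a₁) a₁, ∀ t ∈ Icc 0 T, Cl (α / 2) (1 / 16) (U a t) ∧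
      Cl (α / 2) (1 / 16) (e a t) := by
    intro a ha t ht
    refine ⟨⟨(hU.app a ha).smooth t ht, fun j => ?_⟩, ⟨(hU.app a ha).smooth' t ht, fun j => ?_⟩⟩
    · obtain ⟨C', hC'⟩ := (hU.app a ha).bound j
      exact ⟨C', hC' t ht⟩
    · obtain ⟨C', hC'⟩ := (hU.app a ha).bound' j
      exact ⟨C', hC' t ht⟩
  have hQ : Cl 1 1 (Qf k) := Q_cl (by omega)
  -- admissibility
  have hadm : ∀ a ∈ Icc (-a₁) a₁, ∀ t ∈ Icc 0 T, ∀ l x : ℝ, 0 < l → l ≤ 2 * l₀ →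
      Adm (R * l) (l * (α / 2)) (l * (1 / 16)) (epf k (U a t) l x) ∧
      Adm (R * l) (l * (α / 2)) (l * (1 / 16)) (ef k (e a t) l x) := by
    intro a ha t ht l x hl hl'
    have hRl' : R * l ≤ R * (2 * l₀) := mul_le_mul_of_nonneg_left hl' hR0.le
    have hpos : 0 < R * l := mul_pos hR0 hl
    have e1 : l * (α / 2) = 2 * (R * l) := by rw [hα]; ring
    have h1 : R * l < l * (α / 2) := by rw [e1]; linarith
    have h2 : l * (α / 2) ≤ 1 / 2 := by rw [e1]; linarith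
    have h3 : 0 < l * (1 / 16) := by positivity
    have h4 : l * (1 / 16) ≤ 1 / 2 := by linarith
    refine ⟨⟨h1, h2, h3, h4, ?_⟩, ⟨h1, h2, h3, h4, ?_⟩⟩
    · exact Cl_sub (Wf_cl hα0.le hl.le x (hcl a ha t ht).1)
        (Cl_mono (by linarith) (by linarith) hQ)
    · exact ef_cl hα0.le hl.le x (hcl a ha t ht).2
  have hmass : ∀ a ∈ Icc (-a₁) a₁, ∀ t ∈ Icc 0 T,
      ∫ x, (U a t x) ^ 2 ≤ l₀ ^ (1 - 4 / (k : ℝ)) * (4 * q0 + 1) := by
    intro a ha t ht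
    have h1 := mass (ν := ν) (by omega) hT0 hα0 (hU.app a ha) (fun t ht => ((hUe a ha).2.1 t ht).2)
      (fun t ht => (hU.app a ha).int' t ht) t ht
    have h0 : (0:ℝ) ∈ Icc 0 T := ⟨le_refl _, hT0.le⟩
    have h2 := mass_ini (ν := ν) (a := a) hk hN hl₀0 hα1 hαl
      (abs_le.mpr ⟨by linarith [ha.1], by linarith [ha.2]⟩)
      ((hU.app a ha).smooth 0 h0) ((hU.app a ha).int 0 h0) (hUe a ha).2.2
    have h3 : l₀ ^ (1 - 4 / (k : ℝ)) * (4 * q0 + 1) = l₀ ^ (1 - 4 / (k : ℝ)) * (4 * q0) +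
      l₀ ^ (1 - 4 / (k : ℝ)) := by ring
    rw [h3]
    linarith
  have hstart : ∀ a ∈ Icc (-a₁) a₁,
      Reg k γ η δ M B R μ K2 K3 K6 K7 νs1 l₀ (epa k (lm / 2) (2 * l₀) X₀ U P a 0) ∧
      (|a| = a₁ → LL k η γ δ M B (R * l₀) (epa k (lm / 2) (2 * l₀) X₀ U P a 0) < -(μ * l₀) ∧
        0 < ip (epa k (lm / 2) (2 * l₀) X₀ U P a 0) (ph0 k) * (a * ip (nf k) (ph0 k))) := by
    intro a ha
    have h0 : (0:ℝ) ∈ Icc 0 T := ⟨le_refl _, hT0.le⟩
    have hlb : lb (lm / 2) (2 * l₀) P a 0 = l₀ := by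
      unfold lb
      rw [hP.init a ha]
      exact core_clp (by linarith) (by linarith)
    have hxb : xb X₀ P a 0 = 0 := by
      unfold xb
      rw [hP.init a ha]
      exact core_clp (by linarith) hX0
    have e1 : epa k (lm / 2) (2 * l₀) X₀ U P a 0 = epf k (U a 0) l₀ 0 := by
      unfold epa
      rw [hlb, hxb]
    obtain ⟨g1, g2, g3⟩ := ini_diff (R := R) (B := B) (a := a) hk hN hl₀0 (by linarith) hR0.le hα1
      (by rw [hα]; linarith) hαl hB ((hU.app a ha).smooth 0 h0) ((hU.app a ha).int 0 h0)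
      (hUe a ha).2.2
    rw [e1]
    exact hini a (l₀ * (α / 2)) (l₀ * (1 / 16)) _ ha (hadm a ha 0 h0 l₀ 0 hl₀0 (by linarith)).1
      (le_trans g1 hν2) (le_trans g2 hν2) (le_trans g3 hν2)
  refine core hk hB hG.hδ hκ hμ (K2 := K2) (K3 := K3) (K6 := K6) (K7 := K7) (γ := γ) (η := η)
    (M := M) (ν₁ := νs1) (by linarith) (by linarith) hR hα hl₀0 hRl hT ha₁ hlm0 hlml hX₀ hU hP
    ?_ ?_ ?_
  · -- dynamics in the region
    intro a ha t ht g1 g2 g3 hreg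
    have hl0 : 0 < (P a t).1 := by linarith
    have hlb : lb (lm / 2) (2 * l₀) P a t = (P a t).1 := core_clp g1.le g2.le
    have hxb : xb X₀ P a t = (P a t).2 := core_clp (abs_lt.mp g3).1.le (abs_lt.mp g3).2.le
    have e1 : epa k (lm / 2) (2 * l₀) X₀ U P a t = epf k (U a t) (P a t).1 (P a t).2 := by
      unfold epa
      rw [hlb, hxb]
    have e2 : eaa k (lm / 2) (2 * l₀) X₀ e P a t = ef k (e a t) (P a t).1 (P a t).2 := by
      unfold eaa
      rw [hlb, hxb]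
    have e3 : (fun y => Qf k y + epa k (lm / 2) (2 * l₀) X₀ U P a t y) =
        Wf k (U a t) (P a t).1 (P a t).2 := by
      funext y
      rw [e1]
      unfold epf
      ring
    have e4 : ba k (lm / 2) (2 * l₀) X₀ U e P a t = bfn k (P a t).1
        (fun y => Qf k y + epa k (lm / 2) (2 * l₀) X₀ U P a t y)
        (eaa k (lm / 2) (2 * l₀) X₀ e P a t) := by
      rw [e3]
      unfold ba
      rw [hlb, hxb]
    have e5 : ma k (lm / 2) (2 * l₀) X₀ U e P a t = mfn k (P a t).1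
        (fun y => Qf k y + epa k (lm / 2) (2 * l₀) X₀ U P a t y)
        (eaa k (lm / 2) (2 * l₀) X₀ e P a t) := by
      rw [e3]
      unfold ma
      rw [hlb, hxb]
    have hl1' : (P a t).1 ≤ 1 := by linarith
    have hX := hst1 (P a t).1 νs1 _ hl0 g2.le hreg
    have hlow : lm ≤ (P a t).1 := by
      rw [e1] at hX
      exact lam_low hk hα0 hl0 hl1' hK'0 (hcl a ha t ht).1 ((hU.app a ha).int t ht)
        (le_trans ((hUe a ha).2.1 t ht).1 (le_max_left _ _)) hX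
    refine ⟨hlow, ?_⟩
    rw [e4, e5]
    have hGe := ef_Gn (k := k) (x := (P a t).2) (U := e a t) (α := α) (l := (P a t).1) (R := R)
      (B := B) (by omega) (by rw [hα]; linarith) hR0.le hB hl0 hl1' ((hU.app a ha).smooth' t ht)
      ((hU.app a ha).int' t ht)
    have hnw := ((hUe a ha).2.1 t ht).2
    have hnw0 : 0 ≤ nw α (e a t) := (sq_le_nw hα0.le ((hU.app a ha).smooth' t ht)
      ((hU.app a ha).int' t ht)).2.2
    have hexp : Real.exp (2 * R * |(P a t).2|) ≤ Real.exp (2 * R * X₀) := by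
      apply Real.exp_le_exp.mpr
      exact mul_le_mul_of_nonneg_left g3.le (by positivity)
    have hexp1 : 1 ≤ Real.exp (2 * R * X₀) := Real.one_le_exp (by positivity)
    refine hst2 νs1 hνs1 (le_refl _) (P a t).1 hlow g2.le ((P a t).1 * (α / 2))
      ((P a t).1 * (1 / 16)) _ _ ?_ ?_ ?_ hreg ?_ ?_
    · rw [e1]
      exact (hadm a ha t ht _ _ hl0 g2.le).1
    · rw [e2]
      exact (hadm a ha t ht _ _ hl0 g2.le).2
    · have e3' : ∀ y, Qf k y + epa k (lm / 2) (2 * l₀) X₀ U P a t y =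
          Wf k (U a t) (P a t).1 (P a t).2 y := fun y => congrFun e3 y
      simp only [e3']
      rw [Wf_sq (U a t) hl0 (P a t).2]
      refine mass_pow hk (mul_nonneg (Real.rpow_nonneg hl0.le _)
        (integral_nonneg fun _ => sq_nonneg _)) hl0 hl₀0 (by positivity) ?_
      exact mul_le_mul_of_nonneg_left (hmass a ha t ht) (Real.rpow_nonneg hl0.le _)
    · rw [e2]
      calc Gn B (R * (P a t).1) (ef k (e a t) (P a t).1 (P a t).2) ≤ _ := hGe.1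
        _ ≤ Real.exp (2 * R * X₀) * ν := mul_le_mul hexp hnw hnw0 (Real.exp_pos _).le
        _ ≤ νs1 := hν1
    · rw [e2]
      calc Xn (ef k (e a t) (P a t).1 (P a t).2) ≤ _ := hGe.2
        _ ≤ ν := hnw
        _ ≤ Real.exp (2 * R * X₀) * ν := le_mul_of_one_le_left (by positivity) hexp1
        _ ≤ νs1 := hν1
  · intro a ha
    exact (hstart a ha).1
  · intro a ha haa
    exact (hstart a ha).2 haa

end H72KB

end S_H72_KB_Fin
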