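import Mathlib
import Pool.Agent.H98.BU.G02
import Pool.Agent.H98.BU.G03
import Pool.Agent.H98.BU.G16

/-! Blow-up for `u_t + u^k u_x + u_xxx - u_xx = 0`, part G26: this file joins several modules
to save build time (`Pool/Agent/H98/{KB,KC}`, `H72/{KB,KC}`, `H68/KC`, `H37/{KB,KC}`). -/

section S_H68_KC_MOp

/-!
# Row MOp (MP_95be7d_K4): a priori bounds for `m` and `b - w` without any bound on `w`

`Sit0` = `Sit` without `w0`, `w1`.  The lemmas `e_ip0`, `e_sq0`, `R_ip0` are copies of `e_ip`, `e_sq`, `R_ip` (row MOb), whose proofs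
do not use `w0`, `w1`: `e = h + ε` (`ep_split`), `|h| ≤ C r⁴` by `b1`, `a1`, `cP`, `E_cl`; `ip_ln`, `ln_dom`, `R_le`.

## Proof of `mod_pre`
`e = W - Q`, `n = √(ln ε)`, `ne = √(ne2 et)`, `l = r^8`, `K = ∫ Q'²`, `x = |b - w|`, `z = |m|`, `|w| ≤ |b| + x ≤ 5c₀ r⁴ + x`.
`pair_ze` with `φ = Q'` and `or2` (`L_Qdd`, `(e,ρ) = (ε,ρ)` by `ep_rho`, `ip_LamQ_Qd`, `ip_Qdd_Qd`):
(A) `m (K - (e,Q'')) = 4 (ε,ρ) - (R,Q'') - w (e,ΛQ') - l (e,Q''') - (et,Q'')`.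
`pair_ze` with `φ = ρ` and `or1` (`ip_Qdrho`, `(h,Lρ') = (Lh,ρ') = -b (ΛQ,ρ)` since `Lh = -bJ + α`, `(ε,Lρ')` bounded by `C n`, `ip_LamQrho`):
(B) `(b - w) K/2 = (ε,Lρ') - (R,ρ') - l (Q'',ρ) - w (e,Λρ) + m (e,ρ') - l (e,ρ'') - (et,ρ')`.
Let `d = C₁ (r⁴ + n)`, a common bound for all `|(e,ψ)|` here (`e_ip0`). For `c ≤ c1`, `r ≤ r1` small `d ≤ K/16` (`n ≤ √c`). Then
`z K/2 ≤ C (n + r^8 + n² + ne) + (5c₀ r⁴ + x) d`, `x K/2 ≤ C (n + r^8 + n² + ne) + (5c₀ r⁴ + x) d + z d`.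
Sum: `(x + z) K/2 ≤ C (n + r^8 + ne) + 10 c₀ r⁴ d + 2 (x + z) d`, so `(x + z) K/4 ≤ C (n + r^8 + ne) + C r⁴ (r⁴ + n)`
(`n² ≤ n` since `n ≤ 1`, `r ≤ 1`).
-/

open MeasureTheory Filter Topology Set
open scoped ContDiff

noncomputable section

namespace H68KC

open H98KB

/-- `Sit` without the bounds on `w` -/
structure Sit0 (P E : ℝ → ℝ) (γ B c Ca r w m : ℝ) (W et : ℝ → ℝ) : Prop where
  pr : Prof P E
  r0 : 0 < r
  cl : ∃ p q : ℝ, 0 < p ∧ p ≤ 1 / 2 ∧ 0 < q ∧ q ≤ 1 / 2 ∧ Cl p q (fun y => W y - Qf 4 y) ∧ Cl p q et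
  or1 : ip (ze w m (r ^ 8) W et) rho = 0
  or2 : ip (ze w m (r ^ 8) W et) (deriv (Qf 4)) = 0
  b1 : |bq (r ^ 2) W| ≤ 5 * c0 * r ^ 4
  a1 : |alf (r ^ 2) W| ≤ (|f0| + 1) * r ^ 4
  sup : ∀ y, |W y - Qf 4 y| ≤ c
  supe : ∀ y, |ep P E (r ^ 2) W y| ≤ c
  lnc : ln γ B (ep P E (r ^ 2) W) ≤ c
  N1 : Nn (r ^ 2) W ≤ Ca * r ^ 16
  X1 : Xn (fun y => W y - Qf 4 y) ≤ 1
  L1 : (∫ y, (W y - Qf 4 y) ^ 2) ≤ 1
  e1 : ne2 et ≤ c

variable {P E : ℝ → ℝ} {γ B : ℝ}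

theorem MOp_h (hp : Prof P E) : ∃ C : ℝ, 0 ≤ C ∧ ∀ c Ca r w m W et,
    Sit0 P E γ B c Ca r w m W et → ∀ y, |hf P E (bq (r ^ 2) W) (alf (r ^ 2) W) y| ≤ C * r ^ 4 := by
  obtain ⟨CP, hCP, hP⟩ := Cl_bnd hp.cP
  obtain ⟨CE, hCE, hE⟩ := Cl_bnd (E_cl hp)
  refine ⟨|5 * c0| * CP + (|f0| + 1) * CE, by positivity, fun c Ca r w m W et hS y => ?_⟩
  have hr : 0 < r ^ 4 := pow_pos hS.r0 4
  have h1 : |bq (r ^ 2) W| ≤ |5 * c0| * r ^ 4 :=
    hS.b1.trans (mul_le_mul_of_nonneg_right (le_abs_self _) hr.le)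
  have h2 := hP y
  have h3 := hE y
  rw [bd_zero, mul_one] at h2 h3
  have h4 : |bq (r ^ 2) W * P y| ≤ |5 * c0| * r ^ 4 * CP := by
    rw [abs_mul]
    exact mul_le_mul h1 h2 (abs_nonneg _) (by positivity)
  have h5 : |alf (r ^ 2) W * E y| ≤ (|f0| + 1) * r ^ 4 * CE := by
    rw [abs_mul]
    exact mul_le_mul hS.a1 h3 (abs_nonneg _) (by positivity)
  rw [hf]
  have h6 := abs_add_le (bq (r ^ 2) W * P y) (alf (r ^ 2) W * E y)
  nlinarith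

theorem MOp_ep (hp : Prof P E) {c Ca r w m : ℝ} {W et : ℝ → ℝ}
    (hS : Sit0 P E γ B c Ca r w m W et) : Cl 0 0 (ep P E (r ^ 2) W) := by
  obtain ⟨p, q, h1, -, h3, -, h5, -⟩ := hS.cl
  exact ep_cl hp h1.le h3.le h5

theorem MOp_e (c Ca r w m : ℝ) {W et : ℝ → ℝ}
    (hS : Sit0 P E γ B c Ca r w m W et) : Cl 0 0 (fun y => W y - Qf 4 y) := by
  obtain ⟨p, q, h1, -, h3, -, h5, -⟩ := hS.cl
  exact Cl_mono h5 h1.le h3.le

theorem e_ip0 (hp : Prof P E) (hγ : 0 < γ) (hγ1 : γ ≤ 1 / 4) (hB : 16 ≤ B) {ψ : ℝ → ℝ}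
    (hψ : Cl (1 / 2) (1 / 2) ψ) : ∃ C : ℝ, 0 ≤ C ∧ ∀ c Ca r w m W et,
    Sit0 P E γ B c Ca r w m W et → |ip (fun y => W y - Qf 4 y) ψ| ≤
      C * (r ^ 4 + √(ln γ B (ep P E (r ^ 2) W))) := by
  obtain ⟨C1, hC1, h1⟩ := MOp_h (γ := γ) (B := B) hp
  obtain ⟨C2, hC2, h2⟩ := ip_ln hγ hγ1 hB hψ
  have hI : 0 ≤ ∫ y, |ψ y| := integral_nonneg fun y => abs_nonneg _
  have hψi : Integrable ψ := Cl_int hψ (by norm_num) (by norm_num)
  refine ⟨C1 * (∫ y, |ψ y|) + C2, by positivity, fun c Ca r w m W et hS => ?_⟩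
  have hε := MOp_ep hp hS
  have hh := hf_cl hp (bq (r ^ 2) W) (alf (r ^ 2) W)
  have i1 : Integrable (fun y => hf P E (bq (r ^ 2) W) (alf (r ^ 2) W) y * ψ y) :=
    Cl_int (Cl_mul0 hh hψ) (by norm_num) (by norm_num)
  have i2 : Integrable (fun y => ep P E (r ^ 2) W y * ψ y) :=
    Cl_int (Cl_mul0 hε hψ) (by norm_num) (by norm_num)
  have e1 : ip (fun y => W y - Qf 4 y) ψ =
      (∫ y, hf P E (bq (r ^ 2) W) (alf (r ^ 2) W) y * ψ y) + ip (ep P E (r ^ 2) W) ψ := by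
    rw [ip, ip, ← integral_add i1 i2]
    refine integral_congr_ae (Eventually.of_forall fun y => ?_)
    simp only
    rw [ep_split P E (r ^ 2) W y]
    ring
  have e2 : |∫ y, hf P E (bq (r ^ 2) W) (alf (r ^ 2) W) y * ψ y| ≤
      C1 * r ^ 4 * ∫ y, |ψ y| := by
    rw [← integral_const_mul, ← Real.norm_eq_abs]
    refine norm_integral_le_of_norm_le (hψi.abs.const_mul _) (Eventually.of_forall fun y => ?_)
    rw [Real.norm_eq_abs, abs_mul]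
    exact mul_le_mul_of_nonneg_right (h1 c Ca r w m W et hS y) (abs_nonneg _)
  have e3 := h2 _ hε
  rw [e1]
  refine (abs_add_le _ _).trans ?_
  have hs := Real.sqrt_nonneg (ln γ B (ep P E (r ^ 2) W))
  have hr : 0 < r ^ 4 := pow_pos hS.r0 4
  have g1 := mul_nonneg (mul_nonneg hC1 hI) hs
  have g2 := mul_nonneg hC2 hr.le
  nlinarith

theorem e_sq0 (hp : Prof P E) (hγ : 0 < γ) (hγ1 : γ ≤ 1 / 4) (hB : 16 ≤ B) {ψ : ℝ → ℝ}
    (hψ : Cl (3 / 4) (3 / 4) ψ) : ∃ C : ℝ, 0 ≤ C ∧ ∀ c Ca r w m W et,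
    Sit0 P E γ B c Ca r w m W et → (∫ y, |ψ y| * (W y - Qf 4 y) ^ 2) ≤
      C * (r ^ 8 + ln γ B (ep P E (r ^ 2) W)) := by
  obtain ⟨C1, hC1, h1⟩ := MOp_h (γ := γ) (B := B) hp
  obtain ⟨C2, hC2, h2⟩ := ln_dom hγ hγ1 hB hψ
  have hI : 0 ≤ ∫ y, |ψ y| := integral_nonneg fun y => abs_nonneg _
  have hψi : Integrable ψ := Cl_int hψ (by norm_num) (by norm_num)
  refine ⟨2 * C1 ^ 2 * (∫ y, |ψ y|) + 2 * C2, by positivity, fun c Ca r w m W et hS => ?_⟩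
  have hε := MOp_ep hp hS
  have hln0 : 0 ≤ ln γ B (ep P E (r ^ 2) W) := by
    refine integral_nonneg fun y => ?_
    have := (MOb_pos γ B y).le
    positivity
  have i2 : Integrable (fun y => |ψ y| * (ep P E (r ^ 2) W y) ^ 2) := by
    refine (Cl_int (Cl_mul0 (MOb_sq hε) hψ) (by norm_num) (by norm_num)).abs.congr
      (Eventually.of_forall fun y => ?_)
    simp only
    rw [abs_mul, abs_of_nonneg (sq_nonneg _), mul_comm]
  have h3 : (∫ y, |ψ y| * (W y - Qf 4 y) ^ 2) ≤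
      ∫ y, (2 * (C1 * r ^ 4) ^ 2 * |ψ y| + 2 * (|ψ y| * (ep P E (r ^ 2) W y) ^ 2)) := by
    refine integral_mono_of_nonneg (Eventually.of_forall fun y => by positivity)
      ((hψi.abs.const_mul _).add (i2.const_mul 2)) (Eventually.of_forall fun y => ?_)
    simp only
    rw [ep_split P E (r ^ 2) W y]
    have g1 := h1 c Ca r w m W et hS y
    have g2 : (hf P E (bq (r ^ 2) W) (alf (r ^ 2) W) y) ^ 2 ≤ (C1 * r ^ 4) ^ 2 := by
      rw [← sq_abs]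
      exact pow_le_pow_left₀ (abs_nonneg _) g1 2
    have g3 : (hf P E (bq (r ^ 2) W) (alf (r ^ 2) W) y + ep P E (r ^ 2) W y) ^ 2 ≤
        2 * (C1 * r ^ 4) ^ 2 + 2 * (ep P E (r ^ 2) W y) ^ 2 := by
      have := sq_nonneg (hf P E (bq (r ^ 2) W) (alf (r ^ 2) W) y - ep P E (r ^ 2) W y)
      nlinarith
    have g4 := mul_le_mul_of_nonneg_left g3 (abs_nonneg (ψ y))
    refine g4.trans (le_of_eq ?_)
    ring
  have i3 : Integrable (fun y => 2 * (C1 * r ^ 4) ^ 2 * |ψ y|) := hψi.abs.const_mul _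
  have i4 : Integrable (fun y => 2 * (|ψ y| * (ep P E (r ^ 2) W y) ^ 2)) := i2.const_mul 2
  rw [integral_add i3 i4, integral_const_mul, integral_const_mul] at h3
  have h4 := h2 _ hε
  have hr : 0 < r ^ 8 := pow_pos hS.r0 8
  have e8 : (C1 * r ^ 4) ^ 2 = C1 ^ 2 * r ^ 8 := by ring
  rw [e8] at h3
  have g1 := mul_nonneg (mul_nonneg (sq_nonneg C1) hI) hln0
  have g2 := mul_nonneg hC2 hr.le
  nlinarith

theorem R_ip0 (hp : Prof P E) (hγ : 0 < γ) (hγ1 : γ ≤ 1 / 4) (hB : 16 ≤ B) {ψ : ℝ → ℝ}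
    (hψ : Cl (3 / 4) (3 / 4) ψ) : ∃ C : ℝ, 0 ≤ C ∧ ∀ c Ca r w m W et, c ≤ 1 →
    Sit0 P E γ B c Ca r w m W et → |ip (Rf 4 (fun y => W y - Qf 4 y)) ψ| ≤
      C * (r ^ 8 + ln γ B (ep P E (r ^ 2) W)) := by
  obtain ⟨C1, hC1, h1⟩ := e_sq0 hp hγ hγ1 hB hψ
  obtain ⟨C2, hC2, h2⟩ := R_le 4 (by norm_num)
  refine ⟨C2 * C1, mul_nonneg hC2.le hC1, fun c Ca r w m W et hc hS => ?_⟩
  have he := MOp_e c Ca r w m hS
  have i1 : Integrable (fun y => |ψ y| * (W y - Qf 4 y) ^ 2) := by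
    refine (Cl_int (Cl_mul0 (MOb_sq he) hψ) (by norm_num) (by norm_num)).abs.congr
      (Eventually.of_forall fun y => ?_)
    simp only
    rw [abs_mul, abs_of_nonneg (sq_nonneg _), mul_comm]
  have h3 : |ip (Rf 4 (fun y => W y - Qf 4 y)) ψ| ≤ C2 * ∫ y, |ψ y| * (W y - Qf 4 y) ^ 2 := by
    rw [← integral_const_mul, ip, ← Real.norm_eq_abs]
    refine norm_integral_le_of_norm_le (i1.const_mul _) (Eventually.of_forall fun y => ?_)
    rw [Real.norm_eq_abs, abs_mul]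
    have g := h2 (fun y => W y - Qf 4 y) y ((hS.sup y).trans hc)
    have g2 := mul_le_mul_of_nonneg_right g (abs_nonneg (ψ y))
    refine g2.trans (le_of_eq ?_)
    ring
  refine h3.trans ?_
  rw [mul_assoc]
  exact mul_le_mul_of_nonneg_left (h1 c Ca r w m W et hS) hC2.le


theorem MOp_hp (hp : Prof P E) (b α : ℝ) :
    ip (hf P E b α) (Lop 4 (deriv rho)) = -b * ip (Lam 4 (Qf 4)) rho := by
  have hh := hf_cl hp b α
  have hr1 : Cl 3 3 (deriv rho) := Cl_der rho_cl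
  rw [← Lop_symm (by norm_num) hh hr1 (by norm_num) (by norm_num)]
  have hL : Lop 4 (hf P E b α) = fun y => α - b * Jf y := by
    funext y
    have h1 := hp.LP y
    have h2 := hp.LE y
    have d1 : deriv (hf P E b α) = fun y => b * deriv P y + α * deriv E y := by
      funext z
      exact (PRh_hd hp b α z).deriv
    unfold Lop at h1 h2 ⊢
    rw [d1, (PRh_hd2 hp b α y).deriv]
    unfold hf
    linear_combination b * h1 + α * h2
  have i1 : Integrable (fun y => deriv rho y) := Cl_int hr1 (by norm_num) (by norm_num)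
  have i2 : Integrable (fun y => deriv rho y * Jf y) :=
    Cl_int (Cl_mul hr1 Jf_cl) (by norm_num) (by norm_num)
  have e1 : ∫ y, deriv rho y * Jf y = ip (Lam 4 (Qf 4)) rho := by
    have h := Cl_ibp rho_cl Jf_cl (by norm_num) (by norm_num)
    rw [h, ip, ← integral_neg]
    refine integral_congr_ae (Eventually.of_forall fun y => ?_)
    simp only
    rw [(Jf_hd y).deriv]
    ring
  have e2 : ∫ y, deriv rho y = 0 := Cl_int_deriv rho_cl (by norm_num) (by norm_num)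
  rw [hL, ip]
  have e3 : ∫ y, (α - b * Jf y) * deriv rho y = α * (∫ y, deriv rho y) - b * ∫ y, deriv rho y * Jf y := by
    rw [← integral_const_mul, ← integral_const_mul, ← integral_sub (i1.const_mul α) (i2.const_mul b)]
    refine integral_congr_ae (Eventually.of_forall fun y => ?_)
    simp only
    ring
  rw [e3, e1, e2]
  ring

/-- the numerical part -/
theorem MOp_num {K A C1 n l ne r4 x z w b D : ℝ} (hK : 0 < K) (hA : 0 ≤ A) (hC1 : 0 ≤ C1)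
    (hn : 0 ≤ n) (hn1 : n ≤ 1) (hl : 0 ≤ l) (hne : 0 ≤ ne) (hr4 : 0 ≤ r4) (hr41 : r4 ≤ 1)
    (hr8 : r4 * r4 = l) (hb : |b| ≤ A * r4) (hx : x = |b - w|) (hz : 0 ≤ z)
    (hD : D = C1 * (r4 + n)) (hDK : D ≤ K / 16)
    (h1 : z * K ≤ z * D + C1 * n + C1 * (l + n ^ 2) + |w| * D + l * D + C1 * ne)
    (h2 : x * (K / 2) ≤ C1 * n + C1 * (l + n ^ 2) + l * C1 + |w| * D + z * D + l * D + C1 * ne) :
    x + z ≤ 16 / 3 * ((8 * C1 + 2 * (A * C1) + K / 8) / K) * (n + l + ne) := by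
  have hx0 : 0 ≤ x := hx ▸ abs_nonneg _
  have hw : |w| ≤ A * r4 + x := by
    have h3 : w = b - (b - w) := by ring
    have h4 : |w| ≤ |b| + |b - w| := by
      calc |w| = |b - (b - w)| := by rw [← h3]
        _ ≤ |b| + |b - w| := abs_sub _ _
    rw [hx]
    linarith
  have hD0 : 0 ≤ D := by rw [hD]; positivity
  set S := n + l + ne with hS
  have hS0 : 0 ≤ S := by positivity
  have hr4D : r4 * D ≤ C1 * S := by
    rw [hD]
    have e : r4 * (C1 * (r4 + n)) = C1 * (l + r4 * n) := by rw [← hr8]; ring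
    rw [e]
    refine mul_le_mul_of_nonneg_left ?_ hC1
    nlinarith
  have hwD : |w| * D ≤ A * C1 * S + x * (K / 16) := by
    have h5 : |w| * D ≤ (A * r4 + x) * D := mul_le_mul_of_nonneg_right hw hD0
    have h6 : A * (r4 * D) ≤ A * (C1 * S) := mul_le_mul_of_nonneg_left hr4D hA
    have h7 : x * D ≤ x * (K / 16) := mul_le_mul_of_nonneg_left hDK hx0
    nlinarith
  have hzD : z * D ≤ z * (K / 16) := mul_le_mul_of_nonneg_left hDK hz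
  have hlD : l * D ≤ S * (K / 16) := by
    have h5 : l * D ≤ l * (K / 16) := mul_le_mul_of_nonneg_left hDK hl
    have h6 : l * (K / 16) ≤ S * (K / 16) := mul_le_mul_of_nonneg_right (by linarith) (by linarith)
    linarith
  have hn2 : n ^ 2 ≤ n := by nlinarith
  have hcS : C1 * n + C1 * (l + n ^ 2) + C1 * ne ≤ 3 * (C1 * S) := by
    have h5 : C1 * n ≤ C1 * S := mul_le_mul_of_nonneg_left (by linarith) hC1
    have h6 : C1 * (l + n ^ 2) ≤ C1 * S := mul_le_mul_of_nonneg_left (by linarith) hC1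
    have h7 : C1 * ne ≤ C1 * S := mul_le_mul_of_nonneg_left (by linarith) hC1
    linarith
  have hlC : l * C1 ≤ C1 * S := by
    rw [mul_comm]
    exact mul_le_mul_of_nonneg_left (by linarith) hC1
  have g1 : z * K ≤ z * (K / 16) + x * (K / 16) + 3 * (C1 * S) + A * C1 * S + S * (K / 16) := by
    linarith
  have g2 : x * (K / 2) ≤ z * (K / 16) + x * (K / 16) + 4 * (C1 * S) + A * C1 * S + S * (K / 16) := by
    linarith
  have g3 : (x + z) * (3 / 8 * K) ≤ (8 * C1 + 2 * (A * C1) + K / 8) * S := by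
    have hxK : 0 ≤ x * K := by positivity
    have hzK : 0 ≤ z * K := by positivity
    have hCS : 0 ≤ C1 * S := by positivity
    nlinarith
  have e1 : 16 / 3 * ((8 * C1 + 2 * (A * C1) + K / 8) / K) * S =
      (16 / 3 * ((8 * C1 + 2 * (A * C1) + K / 8) * S)) / K := by ring
  rw [e1, le_div_iff₀ hK]
  have hCC : 0 ≤ (8 * C1 + 2 * (A * C1) + K / 8) * S := by positivity
  nlinarith

theorem MOp_Lam {φ : ℝ → ℝ} (hφ : Cl 1 1 φ) : Cl (1 / 2) (1 / 2) (Lam 4 φ) := by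
  have h := Cl_Lam 4 hφ (c := 1 / 2) (by norm_num)
  exact Cl_mono h (by norm_num) (by norm_num)

theorem mod_pre (hp : Prof P E) (hγ : 0 < γ) (hγ1 : γ ≤ 1 / 4) (hB : 16 ≤ B) :
    ∃ C r1 c1 : ℝ, 0 < C ∧ 0 < r1 ∧ 0 < c1 ∧ c1 ≤ 1 ∧ ∀ c Ca r w m W et, c ≤ c1 → r ≤ r1 →
      Sit0 P E γ B c Ca r w m W et →
      |bq (r ^ 2) W - w| + |m| ≤ C * (√(ln γ B (ep P E (r ^ 2) W)) + r ^ 8 + √(ne2 et)) := by
  have hQ1 : Cl 1 1 (deriv (Qf 4)) := Cl_der MOa_Q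
  have hQ2 : Cl 1 1 (deriv (deriv (Qf 4))) := Cl_der hQ1
  have hQ3 : Cl 1 1 (deriv (deriv (deriv (Qf 4)))) := Cl_der hQ2
  have hr0 := MOa_rho
  have hr1 : Cl 1 1 (deriv rho) := Cl_der hr0
  have hr2 : Cl 1 1 (deriv (deriv rho)) := Cl_der hr1
  have hLr : Cl 1 1 (Lop 4 (deriv rho)) := Cl_Lop (by norm_num) hr1
  have half : ∀ {f : ℝ → ℝ}, Cl 1 1 f → Cl (1 / 2) (1 / 2) f := fun h =>
    Cl_mono h (by norm_num) (by norm_num)
  have thr : ∀ {f : ℝ → ℝ}, Cl 1 1 f → Cl (3 / 4) (3 / 4) f := fun h =>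
    Cl_mono h (by norm_num) (by norm_num)
  obtain ⟨a1, ha1, h1⟩ := e_ip0 hp hγ hγ1 hB (half hQ2)
  obtain ⟨a2, ha2, h2⟩ := e_ip0 hp hγ hγ1 hB (MOp_Lam hQ1)
  obtain ⟨a3, ha3, h3⟩ := e_ip0 hp hγ hγ1 hB (half hQ3)
  obtain ⟨a4, ha4, h4⟩ := e_ip0 hp hγ hγ1 hB (MOp_Lam hr0)
  obtain ⟨a5, ha5, h5⟩ := e_ip0 hp hγ hγ1 hB (half hr1)
  obtain ⟨a6, ha6, h6⟩ := e_ip0 hp hγ hγ1 hB (half hr2)
  obtain ⟨b1, hb1, k1⟩ := ip_ln hγ hγ1 hB (half hr0)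
  obtain ⟨b2, hb2, k2⟩ := ip_ln hγ hγ1 hB (half hLr)
  obtain ⟨d1, hd1, l1⟩ := R_ip0 hp hγ hγ1 hB (thr hQ2)
  obtain ⟨d2, hd2, l2⟩ := R_ip0 hp hγ hγ1 hB (thr hr1)
  obtain ⟨f1, hf1, m1⟩ := et_ip (half hQ2)
  obtain ⟨f2, hf2, m2⟩ := et_ip (half hr1)
  set K : ℝ := ∫ y, (deriv (Qf 4) y) ^ 2 with hKd
  have hK : 0 < K := Qd2_pos (by norm_num)
  set C1 : ℝ := a1 + a2 + a3 + a4 + a5 + a6 + 4 * b1 + b2 + d1 + d2 + f1 + f2 +
    |ip (deriv (deriv (Qf 4))) rho| + 1 with hC1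
  have hI0 := abs_nonneg (ip (deriv (deriv (Qf 4))) rho)
  have hC1p : 0 < C1 := by positivity
  -- smallness
  set t : ℝ := min 1 (K / (32 * C1)) with ht
  have ht0 : 0 < t := lt_min one_pos (by positivity)
  have ht1 : t ≤ 1 := min_le_left _ _
  have htK : C1 * (t + t) ≤ K / 16 := by
    have : t ≤ K / (32 * C1) := min_le_right _ _
    calc C1 * (t + t) = 2 * C1 * t := by ring
      _ ≤ 2 * C1 * (K / (32 * C1)) := mul_le_mul_of_nonneg_left this (by positivity)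
      _ = K / 16 := by field_simp; norm_num
  refine ⟨16 / 3 * ((8 * C1 + 2 * (|5 * c0| * C1) + K / 8) / K), t, t ^ 2, by positivity, ht0,
    by positivity, pow_le_one₀ ht0.le ht1, fun c Ca r w m W et hc hr hS => ?_⟩
  obtain ⟨p, q, hp0, hp1, hq0, hq1, hcl, hcle⟩ := hS.cl
  have hr0' := hS.r0
  have hr1' : r ≤ 1 := hr.trans ht1
  set n : ℝ := √(ln γ B (ep P E (r ^ 2) W)) with hn
  set ne : ℝ := √(ne2 et) with hne
  have hln0 : 0 ≤ ln γ B (ep P E (r ^ 2) W) := by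
    refine integral_nonneg fun y => ?_
    have := (MOb_pos γ B y).le
    positivity
  have hn0 : 0 ≤ n := Real.sqrt_nonneg _
  have hne0 : 0 ≤ ne := Real.sqrt_nonneg _
  have hnt : n ≤ t := by
    rw [hn]
    refine (Real.sqrt_le_sqrt (hS.lnc.trans hc)).trans (le_of_eq ?_)
    exact Real.sqrt_sq ht0.le
  have hn2 : n ^ 2 = ln γ B (ep P E (r ^ 2) W) := Real.sq_sqrt hln0
  have hr4 : r ^ 4 ≤ t := by
    calc r ^ 4 ≤ t ^ 4 := pow_le_pow_left₀ hr0'.le hr 4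
      _ ≤ t := by
        calc t ^ 4 = t * t ^ 3 := by ring
          _ ≤ t * 1 := mul_le_mul_of_nonneg_left (pow_le_one₀ ht0.le ht1) ht0.le
          _ = t := mul_one t
  have hr4p : 0 < r ^ 4 := by positivity
  have hr8p : 0 < r ^ 8 := by positivity
  have hc1 : c ≤ 1 := hc.trans (pow_le_one₀ ht0.le ht1)
  set D : ℝ := C1 * (r ^ 4 + n) with hD
  have hD0 : 0 ≤ D := by positivity
  have hDK : D ≤ K / 16 := by
    refine le_trans ?_ htK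
    exact mul_le_mul_of_nonneg_left (add_le_add hr4 hnt) hC1p.le
  have up : ∀ {a x : ℝ}, a ≤ C1 → x ≤ a * (r ^ 4 + n) → x ≤ D := fun ha hx =>
    hx.trans (mul_le_mul_of_nonneg_right ha (by positivity))
  have e1 := up (by linarith) (h1 c Ca r w m W et hS)
  have e2 := up (by linarith) (h2 c Ca r w m W et hS)
  have e3 := up (by linarith) (h3 c Ca r w m W et hS)
  have e4 := up (by linarith) (h4 c Ca r w m W et hS)
  have e5 := up (by linarith) (h5 c Ca r w m W et hS)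
  have e6 := up (by linarith) (h6 c Ca r w m W et hS)
  have hε := MOp_ep hp hS
  have g1 := k1 _ hε
  have g2 := k2 _ hε
  rw [← hn] at g1 g2
  have q1 := l1 c Ca r w m W et hc1 hS
  have q2 := l2 c Ca r w m W et hc1 hS
  rw [← hn2] at q1 q2
  have s1 := m1 p q et hp0 hq0 hcle
  have s2 := m2 p q et hp0 hq0 hcle
  rw [← hne] at s1 s2
  -- the two equations
  have A1 := pair_ze (w := w) (m := m) (l := r ^ 8) hp0 hq0 (by linarith) (by linarith) hcl hcle hQ1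
  rw [hS.or2, ip_LamQ_Qd (by norm_num), ip_Qdd_Qd (by norm_num)] at A1
  have A2 : ip (fun y => W y - Qf 4 y) (Lop 4 (deriv (deriv (Qf 4)))) =
      4 * ip (ep P E (r ^ 2) W) rho := by
    rw [ep_rho hp hp0 hq0 hcl]
    unfold ip
    rw [← integral_const_mul]
    refine integral_congr_ae (Eventually.of_forall fun y => ?_)
    simp only
    rw [L_Qdd]
    ring
  have A3 : ip (deriv (Qf 4)) (deriv (Qf 4)) = K := by
    rw [hKd, ip]
    refine integral_congr_ae (Eventually.of_forall fun y => ?_)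
    simp only
    ring
  rw [A2, A3] at A1
  have B1 := pair_ze (w := w) (m := m) (l := r ^ 8) hp0 hq0 (by linarith) (by linarith) hcl hcle hr0
  rw [hS.or1, ip_LamQrho, ip_Qdrho] at B1
  have B2 : ip (fun y => W y - Qf 4 y) (Lop 4 (deriv rho)) =
      -bq (r ^ 2) W * (1 / 2 * K) + ip (ep P E (r ^ 2) W) (Lop 4 (deriv rho)) := by
    have hh := hf_cl hp (bq (r ^ 2) W) (alf (r ^ 2) W)
    have i1 : Integrable (fun y => hf P E (bq (r ^ 2) W) (alf (r ^ 2) W) y * Lop 4 (deriv rho) y) :=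
      Cl_int (Cl_mul0 hh hLr) (by norm_num) (by norm_num)
    have i2 : Integrable (fun y => ep P E (r ^ 2) W y * Lop 4 (deriv rho) y) :=
      Cl_int (Cl_mul0 hε hLr) (by norm_num) (by norm_num)
    have j1 := MOp_hp hp (bq (r ^ 2) W) (alf (r ^ 2) W)
    rw [ip_LamQrho, ← hKd] at j1
    rw [← j1, ip, ip, ip, ← integral_add i1 i2]
    refine integral_congr_ae (Eventually.of_forall fun y => ?_)
    simp only
    rw [ep_split P E (r ^ 2) W y]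
    ring
  rw [B2, ← hKd] at B1
  clear_value K C1 D
  set x1 := ip (fun y => W y - Qf 4 y) (deriv (deriv (Qf 4))) with hx1
  set x2 := ip (fun y => W y - Qf 4 y) (Lam 4 (deriv (Qf 4))) with hx2
  set x3 := ip (fun y => W y - Qf 4 y) (deriv (deriv (deriv (Qf 4)))) with hx3
  set x4 := ip (fun y => W y - Qf 4 y) (Lam 4 rho) with hx4
  set x5 := ip (fun y => W y - Qf 4 y) (deriv rho) with hx5
  set x6 := ip (fun y => W y - Qf 4 y) (deriv (deriv rho)) with hx6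
  set y1 := ip (ep P E (r ^ 2) W) rho with hy1
  set y2 := ip (ep P E (r ^ 2) W) (Lop 4 (deriv rho)) with hy2
  set z1 := ip (Rf 4 (fun y => W y - Qf 4 y)) (deriv (deriv (Qf 4))) with hz1
  set z2 := ip (Rf 4 (fun y => W y - Qf 4 y)) (deriv rho) with hz2
  set v1 := ip et (deriv (deriv (Qf 4))) with hv1
  set v2 := ip et (deriv rho) with hv2
  set J := ip (deriv (deriv (Qf 4))) rho with hJ
  have Aeq : m * K = m * x1 + 4 * y1 - z1 - w * x2 - r ^ 8 * x3 - v1 := by linarith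
  have Beq : (bq (r ^ 2) W - w) * (K / 2) =
      y2 - z2 - r ^ 8 * J - w * x4 + m * x5 - r ^ 8 * x6 - v2 := by linarith
  have abs_m : ∀ a b : ℝ, |a * b| = |a| * |b| := abs_mul
  have T1 : |m| * K ≤ |m| * D + C1 * n + C1 * (r ^ 8 + n ^ 2) + |w| * D + r ^ 8 * D + C1 * ne := by
    have u1 : |m| * K = |m * K| := by rw [abs_mul, abs_of_pos hK]
    have u2 : |m * x1 + 4 * y1 - z1 - w * x2 - r ^ 8 * x3 - v1| ≤
        |m| * |x1| + 4 * |y1| + |z1| + |w| * |x2| + r ^ 8 * |x3| + |v1| := by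
      have w1 := abs_sub (m * x1 + 4 * y1 - z1 - w * x2 - r ^ 8 * x3) v1
      have w2 := abs_sub (m * x1 + 4 * y1 - z1 - w * x2) (r ^ 8 * x3)
      have w3 := abs_sub (m * x1 + 4 * y1 - z1) (w * x2)
      have w4 := abs_sub (m * x1 + 4 * y1) z1
      have w5 := abs_add_le (m * x1) (4 * y1)
      rw [abs_mul, abs_of_pos hr8p] at w2
      rw [abs_mul w x2] at w3
      rw [abs_mul m x1, abs_mul 4 y1, abs_of_pos (by norm_num : (0:ℝ) < 4)] at w5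
      linarith
    rw [u1, Aeq]
    refine u2.trans ?_
    have o1 : |m| * |x1| ≤ |m| * D := mul_le_mul_of_nonneg_left e1 (abs_nonneg _)
    have o2 : |w| * |x2| ≤ |w| * D := mul_le_mul_of_nonneg_left e2 (abs_nonneg _)
    have o3 : r ^ 8 * |x3| ≤ r ^ 8 * D := mul_le_mul_of_nonneg_left e3 hr8p.le
    have o4 : 4 * |y1| ≤ C1 * n := by
      have : 4 * b1 * n ≤ C1 * n := mul_le_mul_of_nonneg_right (by linarith) hn0
      linarith
    have o5 : |z1| ≤ C1 * (r ^ 8 + n ^ 2) :=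
      q1.trans (mul_le_mul_of_nonneg_right (by linarith) (by positivity))
    have o6 : |v1| ≤ C1 * ne := s1.trans (mul_le_mul_of_nonneg_right (by linarith) hne0)
    linarith
  have T2 : |bq (r ^ 2) W - w| * (K / 2) ≤ C1 * n + C1 * (r ^ 8 + n ^ 2) + r ^ 8 * C1 + |w| * D +
      |m| * D + r ^ 8 * D + C1 * ne := by
    have u1 : |bq (r ^ 2) W - w| * (K / 2) = |(bq (r ^ 2) W - w) * (K / 2)| := by
      rw [abs_mul, abs_of_pos (by positivity : 0 < K / 2)]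
    have u2 : |y2 - z2 - r ^ 8 * J - w * x4 + m * x5 - r ^ 8 * x6 - v2| ≤
        |y2| + |z2| + r ^ 8 * |J| + |w| * |x4| + |m| * |x5| + r ^ 8 * |x6| + |v2| := by
      have w1 := abs_sub (y2 - z2 - r ^ 8 * J - w * x4 + m * x5 - r ^ 8 * x6) v2
      have w2 := abs_sub (y2 - z2 - r ^ 8 * J - w * x4 + m * x5) (r ^ 8 * x6)
      have w3 := abs_add_le (y2 - z2 - r ^ 8 * J - w * x4) (m * x5)
      have w4 := abs_sub (y2 - z2 - r ^ 8 * J) (w * x4)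
      have w5 := abs_sub (y2 - z2) (r ^ 8 * J)
      have w6 := abs_sub y2 z2
      rw [abs_mul, abs_of_pos hr8p] at w2 w5
      rw [abs_mul m x5] at w3
      rw [abs_mul w x4] at w4
      linarith
    rw [u1, Beq]
    refine u2.trans ?_
    have o1 : |m| * |x5| ≤ |m| * D := mul_le_mul_of_nonneg_left e5 (abs_nonneg _)
    have o2 : |w| * |x4| ≤ |w| * D := mul_le_mul_of_nonneg_left e4 (abs_nonneg _)
    have o3 : r ^ 8 * |x6| ≤ r ^ 8 * D := mul_le_mul_of_nonneg_left e6 hr8p.le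
    have o4 : |y2| ≤ C1 * n := g2.trans (mul_le_mul_of_nonneg_right (by linarith) hn0)
    have o5 : |z2| ≤ C1 * (r ^ 8 + n ^ 2) :=
      q2.trans (mul_le_mul_of_nonneg_right (by linarith) (by positivity))
    have o6 : |v2| ≤ C1 * ne := s2.trans (mul_le_mul_of_nonneg_right (by linarith) hne0)
    have o7 : r ^ 8 * |J| ≤ r ^ 8 * C1 := mul_le_mul_of_nonneg_left (by linarith) hr8p.le
    linarith
  have hb : |bq (r ^ 2) W| ≤ |5 * c0| * r ^ 4 :=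
    hS.b1.trans (mul_le_mul_of_nonneg_right (le_abs_self _) hr4p.le)
  exact MOp_num hK (abs_nonneg _) hC1p.le hn0 (hnt.trans ht1) hr8p.le hne0 hr4p.le (hr4.trans ht1)
    (by ring) hb rfl (abs_nonneg _) hD hDK T1 T2

end H68KC

end

end S_H68_KC_MOp

section S_H68_KC_TRa

/-!
# Row TRa (MP_95be7d_K4): static consequences of the trap

Write `ε = ep P E (r^2) W`, `e = W - Q`.

## Proof of `T4_ge`
`(Th' + s Th) Z (ε² + ε'² + ε''²) ≥ s Th Z (ε² + ε'²)` pointwise (`Th' ≥ 0`, `Th > 0`, `Z ≥ 0`); both integrable: `ε` is of class `0 0` and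
`(Th' + s Th) Z(s·)` is continuous and bounded by `C e^{-c|y|}` (`Z(s y) = sech²(s y - 2) ≤ 4 e^{-2|s y - 2|}`, `Th ≤ 1`, `|Th'| ≤ 1/B`).

## Proof of `TR_sit0`
* `t`: `(Ca + KN t) r^16 ≤ (Ca + 1) r^16`, so `N1` from `g5`.
* `b1`: `g2`, `g3`. `a1`: `g6`, `g7`, `K5 r^5 ≥ 0`: `|alf - f0 r⁴| < σ r⁴ ≤ r⁴`.
* `X1`, `L1`: `g8`, `g9`, `r ≤ 1`.
* `sup`: `sup_le` (`Clb`): `e² ≤ 2 √(∫e²) √(∫e'²) ≤ 2 * 1 * r` (`Xn e < r²`, `√(r²) = r`), so `|e| ≤ √(2r) ≤ c'/2` for `r ≤ c'²/8`.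
* `supe`: `ε = e - h` (`ep_split`), `|h| ≤ C r⁴` (from `b1`, `a1`, `cP`, `E_cl`) `≤ c'/2` for `r` small.
* `ln`: `Nn ≥ 0` (the integrand is `≥ 0`), so `M E4 + Vf = LL4 - K0/r^6 Nn ≤ LL4 < K9 r^10` (`g1`); by `GoodA.CO`
  `G4 ≤ C (K9 r^10 + C (r^60 + r^60)) ≤ C (K9 + 2 C) r^10` (`mq`, `mr`), and `ln ≤ C G4`. `KL := C² (K9 + 2 C)`.
  `CO` needs the class of `W - Q` (`Fac.cl`) and `|ε| ≤ c' ≤ c`.
* `lnc`: `KL r^10 ≤ c'` for `r` small. `e1`: `ne ≤ r^60 ≤ 1`.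
-/

open MeasureTheory Filter Topology Set
open scoped ContDiff

noncomputable section

namespace H68KC

open H98KB

variable {P E : ℝ → ℝ} {γ η δ M B c C : ℝ}

theorem TRa_Zup (ξ : ℝ) : 0 ≤ Zf ξ ∧ Zf ξ ≤ 4 * Real.exp 4 * Real.exp (-(2 * |ξ|)) := by
  have h1 : Real.exp |ξ - 2| / 2 ≤ Real.cosh (ξ - 2) := by
    rw [← Real.cosh_abs, Real.cosh_eq]
    have := Real.exp_pos (-|ξ - 2|)
    linarith
  have h2 : 1 / Real.cosh (ξ - 2) ≤ 2 * Real.exp (-|ξ - 2|) := by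
    rw [div_le_iff₀ (Real.cosh_pos _)]
    have h3 := mul_le_mul_of_nonneg_left h1 (Real.exp_pos (-|ξ - 2|)).le
    have h4 : Real.exp (-|ξ - 2|) * (Real.exp |ξ - 2| / 2) = 1 / 2 := by
      rw [mul_div_assoc', ← Real.exp_add, neg_add_cancel, Real.exp_zero]
    linarith
  have h3 : Zf ξ ≤ (2 * Real.exp (-|ξ - 2|)) ^ 2 := by
    unfold Zf
    exact pow_le_pow_left₀ (by positivity) h2 2
  have h4 : (2 * Real.exp (-|ξ - 2|)) ^ 2 = 4 * Real.exp (-(2 * |ξ - 2|)) := by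
    rw [mul_pow, ← Real.exp_nat_mul]
    norm_num
  have h5 : |ξ| ≤ |ξ - 2| + 2 := by
    have := abs_add_le (ξ - 2) 2
    rw [sub_add_cancel, abs_two] at this
    exact this
  rw [h4] at h3
  refine ⟨sq_nonneg _, h3.trans ?_⟩
  rw [mul_assoc, ← Real.exp_add]
  refine mul_le_mul_of_nonneg_left (Real.exp_le_exp.2 ?_) (by norm_num)
  linarith

theorem TRa_Zc : Continuous Zf := by
  unfold Zf
  exact (continuous_const.div (Real.continuous_cosh.comp (continuous_id.sub continuous_const))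
    (fun x => (Real.cosh_pos _).ne')).pow 2

theorem TRa_int {s : ℝ} (hs : 0 < s) {F : ℝ → ℝ} (hF : Cl 0 0 F) :
    Integrable (fun y => Zf (s * y) * F y) := by
  have hc : Continuous (fun y => Zf (s * y) * F y) :=
    (TRa_Zc.comp (continuous_const.mul continuous_id)).mul (Cl_cont hF)
  obtain ⟨C, hC, hb⟩ := Cl_bnd hF
  refine int_of_bd hc (p := 2 * s) (q := 2 * s) (by linarith) (by linarith)
    ⟨4 * Real.exp 4 * C, fun y => ?_⟩
  obtain ⟨z0, z1⟩ := TRa_Zup (s * y)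
  have h1 := hb y
  rw [bd_zero, mul_one] at h1
  rw [bd_abs, abs_mul, abs_of_nonneg z0]
  have h2 : 2 * |s * y| = 2 * s * |y| := by
    rw [abs_mul, abs_of_pos hs]
    ring
  rw [h2] at z1
  calc Zf (s * y) * |F y| ≤ (4 * Real.exp 4 * Real.exp (-(2 * s * |y|))) * C :=
        mul_le_mul z1 h1 (abs_nonneg _) (by positivity)
    _ = 4 * Real.exp 4 * C * Real.exp (-(2 * s * |y|)) := by ring

theorem T4_ge {B s : ℝ} (hB : 16 ≤ B) (hs : 0 < s) {ε : ℝ → ℝ} (h : Cl 0 0 ε) :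
    s * G4 B s ε ≤ T4 B s ε := by
  have hB0 : 0 < B := by linarith
  have hT : Cl 0 0 (Th B) := Cl_mono (Cl_Th hB0) le_rfl (by positivity)
  have hT' := Cl_der hT
  have h1 := Cl_der h
  have h2 := Cl_der h1
  have q0 := Cl_pow0 h 2
  have q1 := Cl_pow0 h1 2
  have q2 := Cl_pow0 h2 2
  have i1 := (TRa_int hs (Cl_mul0 hT (Cl_add q0 q1))).const_mul s
  have i2 := TRa_int hs (Cl_mul0 (Cl_add hT' (Cl_smul s hT)) (Cl_add (Cl_add q0 q1) q2))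
  have e1 : s * G4 B s ε = ∫ y, s * (Zf (s * y) * (Th B y * (ε y ^ 2 + deriv ε y ^ 2))) := by
    rw [integral_const_mul]
    unfold G4 om4
    congr 1
    congr 1
    funext y
    ring
  have e2 : T4 B s ε = ∫ y, Zf (s * y) * ((deriv (Th B) y + s * Th B y) *
      (ε y ^ 2 + deriv ε y ^ 2 + deriv (deriv ε) y ^ 2)) := by
    unfold T4
    congr 1
    funext y
    ring
  rw [e1, e2]
  refine integral_mono i1 i2 ?_
  intro y
  change s * (Zf (s * y) * (Th B y * (ε y ^ 2 + deriv ε y ^ 2))) ≤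
    Zf (s * y) * ((deriv (Th B) y + s * Th B y) *
      (ε y ^ 2 + deriv ε y ^ 2 + deriv (deriv ε) y ^ 2))
  have t0 := Th_pos B y
  have t1 := Th_lt_one B y
  have t2 : 0 ≤ deriv (Th B) y := by
    rw [(Th_hd hB0 y).deriv]
    exact div_nonneg (mul_nonneg t0.le (by linarith)) hB0.le
  have z0 := (TRa_Zup (s * y)).1
  have k1 : 0 ≤ Zf (s * y) * (deriv (Th B) y *
      (ε y ^ 2 + deriv ε y ^ 2 + deriv (deriv ε) y ^ 2)) := by positivity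
  have k2 : 0 ≤ Zf (s * y) * (s * Th B y * deriv (deriv ε) y ^ 2) := by positivity
  linarith

theorem Nn_nonneg (s : ℝ) (W : ℝ → ℝ) : 0 ≤ Nn s W := by
  unfold Nn
  refine integral_nonneg fun y => mul_nonneg ?_ (sq_nonneg _)
  unfold Ph
  exact (Th_pos 4 _).le

theorem TRa_c0 : 1 ≤ c0 := by
  unfold c0 cnu
  have h : 0 ≤ 16 * (∫ y, (deriv (Qf 4) y) ^ 2) / Iq ^ 2 :=
    div_nonneg (mul_nonneg (by norm_num) (integral_nonneg fun y => sq_nonneg _)) (sq_nonneg _)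
  linarith

theorem TRa_h (hp : Prof P E) : ∃ CH : ℝ, 0 ≤ CH ∧ ∀ (r b α y : ℝ), 0 < r →
    |b| ≤ 5 * c0 * r ^ 4 → |α| ≤ (|f0| + 1) * r ^ 4 → |hf P E b α y| ≤ CH * r ^ 4 := by
  obtain ⟨CP, hCP, hP⟩ := Cl_bnd hp.cP
  obtain ⟨CE, hCE, hE⟩ := Cl_bnd (E_cl hp)
  have hc0 := TRa_c0
  refine ⟨5 * c0 * CP + (|f0| + 1) * CE, by positivity, ?_⟩
  intro r b α y hr hb hα
  have h1 := hP y
  have h2 := hE y
  rw [bd_zero, mul_one] at h1 h2
  unfold hf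
  calc |b * P y + α * E y| ≤ |b * P y| + |α * E y| := abs_add_le _ _
    _ = |b| * |P y| + |α| * |E y| := by rw [abs_mul, abs_mul]
    _ ≤ (5 * c0 * r ^ 4) * CP + ((|f0| + 1) * r ^ 4) * CE :=
        add_le_add (mul_le_mul hb h1 (abs_nonneg _) (by positivity))
          (mul_le_mul hα h2 (abs_nonneg _) (by positivity))
    _ = (5 * c0 * CP + (|f0| + 1) * CE) * r ^ 4 := by ring

theorem TRa_sup {p q r c' : ℝ} {f : ℝ → ℝ} (hp : 0 < p) (hq : 0 < q) (hf : Cl p q f) (hr : 0 < r)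
    (hc' : 0 < c') (hrc : r ≤ c' ^ 2 / 8) (hX : Xn f ≤ r ^ 2) (hL : (∫ y, (f y) ^ 2) ≤ 1) (y : ℝ) :
    |f y| ≤ c' / 2 := by
  have h := sup_le hf hp hq y
  have h1 : √(∫ z, f z ^ 2) ≤ 1 := by
    rw [Real.sqrt_le_one]
    exact hL
  have h2 : √(∫ z, deriv f z ^ 2) ≤ r := by
    rw [Real.sqrt_le_left hr.le]
    exact hX
  have h3 : 2 * √(∫ z, f z ^ 2) * √(∫ z, deriv f z ^ 2) ≤ 2 * 1 * r :=
    mul_le_mul (by linarith) h2 (Real.sqrt_nonneg _) (by norm_num)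
  have h4 : f y ^ 2 ≤ (c' / 2) ^ 2 := by
    have : (c' / 2) ^ 2 = 2 * 1 * (c' ^ 2 / 8) := by ring
    rw [this]
    linarith
  exact abs_le_of_sq_le_sq h4 (by linarith)

theorem TR_sit0 (hp : Prof P E) (hA : GoodA P E γ η δ M B c C) (K0 K9 Ca : ℝ) (hK0 : 0 < K0)
    (hK9 : 0 < K9) :
    ∃ KL : ℝ, 0 < KL ∧ ∀ c' KE KN K5 : ℝ, 0 < c' → c' ≤ c → 0 < K5 → ∃ r1 : ℝ, 0 < r1 ∧ r1 ≤ 1 ∧
      ∀ (σ t r w m : ℝ) (W et : ℝ → ℝ), r ≤ r1 → 0 ≤ t → KN * t ≤ 1 → σ ≤ 1 →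
      Fac P E r w m W et → Trd P E η γ δ M B K0 K9 KE Ca KN K5 σ t r W →
      Sit0 P E γ B c' (Ca + 1) r w m W et ∧ ln γ B (ep P E (r ^ 2) W) ≤ KL * r ^ 10 := by
  have hC1 := hA.hC
  have hC0 : 0 < C := by linarith
  obtain ⟨rC, hrC, hCO⟩ := hA.CO
  obtain ⟨CH, hCH, hh⟩ := TRa_h hp
  have hKL : 0 < C ^ 2 * (K9 + 2 * C) := by positivity
  refine ⟨C ^ 2 * (K9 + 2 * C), hKL, ?_⟩
  intro c' KE KN K5 hc' hcc hK5
  refine ⟨min 1 (min rC (min (c' ^ 2 / 8) (min (c' / (2 * (CH + 1)))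
    (c' / (C ^ 2 * (K9 + 2 * C)))))), by positivity, min_le_left _ _, ?_⟩
  intro σ t r w m W et hr ht hKt hσ F T
  have r0 := F.r0
  have r1 : r ≤ 1 := hr.trans (min_le_left _ _)
  have hr' := hr.trans (min_le_right _ _)
  have r2 : r ≤ rC := hr'.trans (min_le_left _ _)
  have hr'' := hr'.trans (min_le_right _ _)
  have r3 : r ≤ c' ^ 2 / 8 := hr''.trans (min_le_left _ _)
  have hr3 := hr''.trans (min_le_right _ _)
  have r4 : r ≤ c' / (2 * (CH + 1)) := hr3.trans (min_le_left _ _)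
  have r5 : r ≤ c' / (C ^ 2 * (K9 + 2 * C)) := hr3.trans (min_le_right _ _)
  have hc0 := TRa_c0
  have hr4 : 0 < r ^ 4 := by positivity
  have hr5 : 0 < r ^ 5 := by positivity
  have hp4 : r ^ 4 ≤ r := by
    have h := pow_le_pow_of_le_one r0.le r1 (by norm_num : 1 ≤ 4)
    rwa [pow_one] at h
  have hp10 : r ^ 10 ≤ r := by
    have h := pow_le_pow_of_le_one r0.le r1 (by norm_num : 1 ≤ 10)
    rwa [pow_one] at h
  have hp60 : r ^ 60 ≤ r ^ 10 := pow_le_pow_of_le_one r0.le r1 (by norm_num)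
  have hp60' : r ^ 60 ≤ 1 := pow_le_one₀ r0.le r1
  have hp2 : r ^ 2 ≤ 1 := pow_le_one₀ r0.le r1
  obtain ⟨p, q, hp0, hp1, hq0, hq1, hW, he⟩ := F.cl
  have b1 : |bq (r ^ 2) W| ≤ 5 * c0 * r ^ 4 := by
    have g2 := T.g2
    have g3 := T.g3
    have h1 : 0 ≤ c0 * r ^ 4 := by positivity
    rw [abs_le]
    constructor <;> linarith
  have a1 : |alf (r ^ 2) W| ≤ (|f0| + 1) * r ^ 4 := by
    have g6 := T.g6
    have g7 := T.g7
    have h1 : 0 ≤ K5 * r ^ 5 := by positivity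
    have h2 : (f0 + σ) * r ^ 4 ≤ (|f0| + 1) * r ^ 4 :=
      mul_le_mul_of_nonneg_right (add_le_add (le_abs_self _) hσ) hr4.le
    have h3 : (-(|f0| + 1)) * r ^ 4 ≤ (f0 - σ) * r ^ 4 := by
      refine mul_le_mul_of_nonneg_right ?_ hr4.le
      have := neg_abs_le f0
      linarith
    rw [abs_le]
    constructor <;> linarith
  have hsup : ∀ y, |W y - Qf 4 y| ≤ c' / 2 := fun y =>
    TRa_sup hp0 hq0 hW r0 hc' r3 T.g8.le T.g9.le y
  have hsupe : ∀ y, |ep P E (r ^ 2) W y| ≤ c' := by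
    intro y
    have h1 := ep_split P E (r ^ 2) W y
    have h2 := hh r _ _ y r0 b1 a1
    have h3 : CH * r ^ 4 ≤ c' / 2 := by
      have h4 : CH * r ^ 4 ≤ (CH + 1) * r := mul_le_mul (by linarith) hp4 hr4.le (by linarith)
      have h5 := (le_div_iff₀ (by positivity : 0 < 2 * (CH + 1))).1 r4
      linarith
    have h4 : ep P E (r ^ 2) W y = (W y - Qf 4 y) - hf P E (bq (r ^ 2) W) (alf (r ^ 2) W) y := by
      linarith
    rw [h4]
    have h5 := abs_sub (W y - Qf 4 y) (hf P E (bq (r ^ 2) W) (alf (r ^ 2) W) y)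
    linarith [hsup y]
  have hln : ln γ B (ep P E (r ^ 2) W) ≤ C ^ 2 * (K9 + 2 * C) * r ^ 10 := by
    obtain ⟨c1, -, c3⟩ := hCO r W r0 r2 ⟨p, q, hp0, hp1, hq0, hq1, hW⟩
      (fun y => (hsupe y).trans hcc)
    have g1 := T.g1
    unfold LL4 at g1
    have hN := Nn_nonneg (r ^ 2) W
    have h1 : 0 ≤ K0 / r ^ 6 * Nn (r ^ 2) W := by positivity
    have h2 : (ip W (deriv (Qf 4))) ^ 2 ≤ r ^ 60 := by
      have h3 := pow_le_pow_left₀ (abs_nonneg _) F.mq 2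
      rw [sq_abs] at h3
      have h4 : (r ^ 30) ^ 2 = r ^ 60 := by ring
      rwa [h4] at h3
    have h3 : (ip (fun y => W y - Qf 4 y) rho) ^ 2 ≤ r ^ 60 := by
      have h3 := pow_le_pow_left₀ (abs_nonneg _) F.mr 2
      rw [sq_abs] at h3
      have h4 : (r ^ 30) ^ 2 = r ^ 60 := by ring
      rwa [h4] at h3
    have h4 : C * ((ip W (deriv (Qf 4))) ^ 2 + (ip (fun y => W y - Qf 4 y) rho) ^ 2) ≤
        C * (2 * r ^ 10) := mul_le_mul_of_nonneg_left (by linarith) hC0.le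
    have h5 : G4 B (r ^ 2) (ep P E (r ^ 2) W) ≤ C * (K9 * r ^ 10 + C * (2 * r ^ 10)) := by
      refine c1.trans (mul_le_mul_of_nonneg_left ?_ hC0.le)
      linarith
    refine c3.trans ((mul_le_mul_of_nonneg_left h5 hC0.le).trans (le_of_eq ?_))
    ring
  refine ⟨?_, hln⟩
  exact
    { pr := F.pr
      r0 := r0
      cl := F.cl
      or1 := F.or1
      or2 := F.or2
      b1 := b1
      a1 := a1
      sup := fun y => (hsup y).trans (by linarith)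
      supe := hsupe
      lnc := by
        refine hln.trans ?_
        have h1 := (le_div_iff₀ hKL).1 r5
        have h2 : C ^ 2 * (K9 + 2 * C) * r ^ 10 ≤ C ^ 2 * (K9 + 2 * C) * r :=
          mul_le_mul_of_nonneg_left hp10 hKL.le
        linarith
      N1 := by
        refine T.g5.le.trans (mul_le_mul_of_nonneg_right ?_ (by positivity))
        linarith
      X1 := T.g8.le.trans hp2
      L1 := T.g9.le
      e1 := by
        have hz : c' ^ 2 / 8 ≤ c' := by nlinarith [hA.hc1]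
        exact F.ne.trans (hp60.trans (hp10.trans (r3.trans hz))) }

end H68KC

end

end S_H68_KC_TRa

section S_H68_KC_TRb

/-!
# Row TRb (MP_95be7d_K4): all quantitative bounds in the trap

`Big` collects the bounds used in the derivative inequalities.

## Proof
`c0 = 1 + cnu ≥ 1` (`cnu ≥ 0`: quotient of nonnegative numbers). Apply `mod_pre` (constants `C2, r2, c2`) and `TR_sit0` with `c' = min c c2`: `Sit0` with `c'`,
`ln ≤ KL r^10`, so `√ln ≤ √KL r^5`, `√(ne2 et) ≤ √(r^60) = r^30`; `|b - w| + |m| ≤ C2 (√KL r^5 + r^8 + r^30) ≤ K r^5`, `K ≥ C2 (√KL + 2)`.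
`2 c0 r⁴ < b < 4 c0 r⁴` (`g2`, `g3`): `w ≥ 2 c0 r⁴ - K r^5 ≥ c0 r⁴`, `w ≤ 5 c0 r⁴` for `K r ≤ 1 ≤ c0`; `|m| ≤ K r^5 ≤ 1/4`.
Then `Sit P E γ B c (Ca+1) r w m W et` (fields of `Sit0` with `c' ≤ c`, and `w0`, `w1`).
`al`: `GoodB.AL` (`C3`, `r3`): `|alm| ≤ C3 (r √Nn + √ne2) ≤ C3 (r √(Ca+1) r^8 + r^30) ≤ K r^9` (`√((Ca+1) r^16) = √(Ca+1) r^8`; `0 ≤ Ca`).
`K := max` of all the constants.
-/

open MeasureTheory Filter Topology Set
open scoped ContDiff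

noncomputable section

namespace H68KC

open H98KB

variable {P E : ℝ → ℝ} {γ η δ M B c C : ℝ}

structure Big (P E : ℝ → ℝ) (γ B c Ca K r w m : ℝ) (W et : ℝ → ℝ) : Prop where
  sit : Sit P E γ B c (Ca + 1) r w m W et
  ln : ln γ B (ep P E (r ^ 2) W) ≤ K * r ^ 10
  bw : |bq (r ^ 2) W - w| ≤ K * r ^ 5
  m1 : |m| ≤ K * r ^ 5
  m2 : |m| ≤ 1 / 4
  w1 : c0 * r ^ 4 ≤ w
  al : |alm (r ^ 2) w W (ze w m (r ^ 8) W et)| ≤ K * r ^ 9

theorem c0_ge : 1 ≤ c0 ∧ 0 ≤ cnu := by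
  have h : 0 ≤ cnu := by
    have h1 : 0 ≤ ∫ y, (deriv (Qf 4) y) ^ 2 := integral_nonneg fun y => sq_nonneg _
    rw [cnu]
    positivity
  exact ⟨by rw [c0]; linarith, h⟩

theorem cnu_pos : 0 < cnu := by
  have h1 : 0 < ∫ y, (deriv (Qf 4) y) ^ 2 := Qd2_pos (by norm_num)
  have h2 := Iq_pos
  rw [cnu]
  positivity

theorem TRb_sqrt {x a r : ℝ} (hr : 0 < r) (n : ℕ) (h : x ≤ a * r ^ (2 * n)) : √x ≤ √a * r ^ n := by
  have h1 : √x ≤ √(a * r ^ (2 * n)) := Real.sqrt_le_sqrt h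
  rcases le_or_gt 0 a with ha | ha
  · rw [Real.sqrt_mul ha, mul_comm 2 n, pow_mul, Real.sqrt_sq (pow_pos hr n).le] at h1
    exact h1
  · have h2 : x ≤ 0 := h.trans (mul_nonpos_of_nonpos_of_nonneg ha.le (pow_pos hr _).le)
    rw [Real.sqrt_eq_zero'.2 h2]
    positivity

theorem TR_big (hp : Prof P E) (hA : GoodA P E γ η δ M B c C) (hBg : GoodB P E γ B c)
    (K0 K9 Ca : ℝ) (hCa : 0 ≤ Ca) (hK0 : 0 < K0) (hK9 : 0 < K9) :
    ∃ K : ℝ, 1 ≤ K ∧ ∀ KE KN K5 : ℝ, 0 < K5 → ∃ r1 : ℝ, 0 < r1 ∧ r1 ≤ 1 ∧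
      ∀ (σ t r w m : ℝ) (W et : ℝ → ℝ), r ≤ r1 → 0 ≤ t → KN * t ≤ 1 → σ ≤ 1 →
      Fac P E r w m W et → Trd P E η γ δ M B K0 K9 KE Ca KN K5 σ t r W →
      Big P E γ B c Ca K r w m W et := by
  obtain ⟨C2, r2, c2, hC2, hr2, hc2, -, h2⟩ := mod_pre hp hA.hγ (hA.hγ1.trans (by norm_num)) hA.hB
  obtain ⟨C3, r3, hC3, hr3, h3⟩ := hBg.AL
  obtain ⟨KL, hKL, h4⟩ := TR_sit0 hp hA K0 K9 Ca hK0 hK9
  have s1 := Real.sqrt_nonneg KL
  have s2 := Real.sqrt_nonneg (Ca + 1)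
  have p1 : 0 ≤ C2 * (√KL + 2) := by positivity
  have p2 : 0 ≤ C3 * (√(Ca + 1) + 1) := by positivity
  obtain ⟨K, hK⟩ : ∃ K : ℝ, K = 1 + KL + C2 * (√KL + 2) + C3 * (√(Ca + 1) + 1) := ⟨_, rfl⟩
  have hK1 : 1 ≤ K := by linarith
  have hK2 : KL ≤ K := by linarith
  have hK3 : C2 * (√KL + 2) ≤ K := by linarith
  have hK4 : C3 * (√(Ca + 1) + 1) ≤ K := by linarith
  refine ⟨K, hK1, fun KE KN K5 hK5 => ?_⟩
  obtain ⟨r1, hr1, hr11, h5⟩ := h4 (min c c2) KE KN K5 (lt_min hA.hc hc2) (min_le_left _ _) hK5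
  have hK0' : 0 < K := by linarith
  refine ⟨min r1 (min r2 (min r3 (1 / (4 * K)))), by positivity, (min_le_left _ _).trans hr11,
    fun σ t r w m W et hr ht hKN hσ hF hT => ?_⟩
  have e1 : r ≤ r1 := hr.trans (min_le_left _ _)
  have hr' := hr.trans (min_le_right _ _)
  have e2 : r ≤ r2 := hr'.trans (min_le_left _ _)
  have hr'' := hr'.trans (min_le_right _ _)
  have e3 : r ≤ r3 := hr''.trans (min_le_left _ _)
  have e4 : r ≤ 1 / (4 * K) := hr''.trans (min_le_right _ _)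
  have e5 : r ≤ 1 := e1.trans hr11
  have r0 : 0 < r := hF.r0
  have e6 : K * r ≤ 1 / 4 := by
    rw [le_div_iff₀ (by positivity)] at e4
    linarith
  obtain ⟨hS, hL⟩ := h5 σ t r w m W et e1 ht hKN hσ hF hT
  have h6 := h2 (min c c2) (Ca + 1) r w m W et (min_le_right _ _) e2 hS
  have q1 : √(ln γ B (ep P E (r ^ 2) W)) ≤ √KL * r ^ 5 := TRb_sqrt r0 5 hL
  have q2 : √(ne2 et) ≤ r ^ 30 := by
    have h := TRb_sqrt (x := ne2 et) (a := 1) r0 30 (by rw [one_mul]; exact hF.ne)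
    rwa [Real.sqrt_one, one_mul] at h
  have q3 : r ^ 30 ≤ r ^ 9 := pow_le_pow_of_le_one r0.le e5 (by norm_num)
  have q4 : r ^ 30 ≤ r ^ 5 := pow_le_pow_of_le_one r0.le e5 (by norm_num)
  have q5 : r ^ 8 ≤ r ^ 5 := pow_le_pow_of_le_one r0.le e5 (by norm_num)
  have r4 : 0 < r ^ 4 := pow_pos r0 4
  have r5 : 0 < r ^ 5 := pow_pos r0 5
  have r9 : 0 < r ^ 9 := pow_pos r0 9
  have h7 : |bq (r ^ 2) W - w| + |m| ≤ K * r ^ 5 := by
    calc |bq (r ^ 2) W - w| + |m| ≤ C2 * (√(ln γ B (ep P E (r ^ 2) W)) + r ^ 8 + √(ne2 et)) := h6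
      _ ≤ C2 * (√KL * r ^ 5 + r ^ 5 + r ^ 5) :=
          mul_le_mul_of_nonneg_left (by linarith) hC2.le
      _ = C2 * (√KL + 2) * r ^ 5 := by ring
      _ ≤ K * r ^ 5 := mul_le_mul_of_nonneg_right hK3 r5.le
  have a1 := abs_nonneg (bq (r ^ 2) W - w)
  have a2 := abs_nonneg m
  have hb : |bq (r ^ 2) W - w| ≤ K * r ^ 5 := by linarith
  have hm : |m| ≤ K * r ^ 5 := by linarith
  have hc0 := c0_ge.1
  have k4 : K * r ^ 5 ≤ 1 / 4 * r ^ 4 := by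
    calc K * r ^ 5 = K * r * r ^ 4 := by ring
      _ ≤ 1 / 4 * r ^ 4 := mul_le_mul_of_nonneg_right e6 r4.le
  have r41 : r ^ 4 ≤ 1 := pow_le_one₀ r0.le e5
  have hm4 : |m| ≤ 1 / 4 := by linarith
  have hcr : r ^ 4 ≤ c0 * r ^ 4 := by
    have := mul_le_mul_of_nonneg_right hc0 r4.le
    linarith
  have hb1 := (abs_le.1 hb).1
  have hb2 := (abs_le.1 hb).2
  have g2 := hT.g2
  have g3 := hT.g3
  have hw1 : c0 * r ^ 4 ≤ w := by
    have : 2 * c0 * r ^ 4 = c0 * r ^ 4 + c0 * r ^ 4 := by ring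
    linarith
  have hw2 : w ≤ 5 * c0 * r ^ 4 := by
    have h1 : 4 * c0 * r ^ 4 = 4 * (c0 * r ^ 4) := by ring
    have h2 : 5 * c0 * r ^ 4 = 5 * (c0 * r ^ 4) := by ring
    linarith
  have hw0 : 0 ≤ w := by linarith
  have hSit : Sit P E γ B c (Ca + 1) r w m W et :=
    ⟨hS.pr, hS.r0, hS.cl, hS.or1, hS.or2, hw0, hw2, hS.b1, hS.a1,
      fun y => (hS.sup y).trans (min_le_left _ _), fun y => (hS.supe y).trans (min_le_left _ _),
      hS.lnc.trans (min_le_left _ _), hS.N1, hS.X1, hS.L1,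
      hS.e1.trans (min_le_left _ _)⟩
  have h8 := h3 (Ca + 1) r w m W et e3 hm4 hSit
  have q6 : √(Nn (r ^ 2) W) ≤ √(Ca + 1) * r ^ 8 := TRb_sqrt r0 8 hS.N1
  have h9 : |alm (r ^ 2) w W (ze w m (r ^ 8) W et)| ≤ K * r ^ 9 := by
    calc |alm (r ^ 2) w W (ze w m (r ^ 8) W et)| ≤ C3 * (r * √(Nn (r ^ 2) W) + √(ne2 et)) := h8
      _ ≤ C3 * (r * (√(Ca + 1) * r ^ 8) + r ^ 9) := by
          refine mul_le_mul_of_nonneg_left ?_ hC3.le
          have := mul_le_mul_of_nonneg_left q6 r0.le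
          linarith
      _ = C3 * (√(Ca + 1) + 1) * r ^ 9 := by ring
      _ ≤ K * r ^ 9 := mul_le_mul_of_nonneg_right hK4 r9.le
  exact ⟨hSit, hL.trans (mul_le_mul_of_nonneg_right hK2 (pow_pos r0 10).le), hb, hm, hm4, hw1, h9⟩

end H68KC

end

end S_H68_KC_TRb

section S_H68_KC_TRc

/-!
# Row TRc (MP_95be7d_K4): the derivative of the Lyapunov functional in the trap

Write `ε = ep P E (r^2) W`, `Z = ze w m (r^8) W et`, `N = Nn (r^2) W`, `A = alm (r^2) w W Z`, `X2 = ∫ Φ W''² ≥ 0` (`Φ = Ph (r^2)`), `Ca' = Ca + 1`.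

## Proof
`GoodA.ML Ca'` (constant `C`), `GoodB.BA` (`CB`), `GoodB.AH Ca'` (`CH`), `|m| ≤ 1/4`; `K0 = C * CB`.
`DLL4 = (M DE4 + DV) + K0/r^6 (DNn + (3/4) w N)
 ≤ -c (T4 + ln) + C Bad + C (r^16 + A²/r⁴ + q² + ρ²) + C/r² ne2 + K0/r^6 (-2wN - r^8 X2 + CH r^40 + CH/r^8 ne2 + (3/4) w N)`.
`C Bad ≤ C CB (r² X2 + N/r² + r^16)` and `K0/r^6 r^8 X2 = C CB r² X2`: these cancel. `w N ≥ 0`: drop `-(5/4) w N K0/r^6`.
`N ≤ Ca' r^16`, `|A| ≤ K r^9` (so `A²/r⁴ ≤ K² r^14`), `q², ρ² ≤ r^60`, `ne2 ≤ r^60`, `ln ≥ 0`: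
`DLL4 ≤ -c T4 + K' r^14` with `K' = C CB (Ca' + 1) + C (1 + K² + 2) + C + K0 (CH + CH)` (all powers `≥ 14`, `r ≤ 1`).
If `LL4 ≥ K9/2 r^10`: `M E4 + Vf = LL4 - K0/r^6 N ≥ (K9/2 - K0 Ca') r^10 ≥ (K9/4) r^10` (`4 K0 (Ca+1) ≤ K9`), so by `GoodA.CO`
`G4 ≥ (K9/(4C)) r^10`, `T4 ≥ r² G4` (`T4_ge`), and
`DLL4 ≤ -(c K9/(4C)) r^12 + K' r^14 ≤ -(25/4) c0 K9 r^14 ≤ -(5/4) w K9 r^10` as soon as `r² (K' + (25/4) c0 K9) ≤ c K9/(4C)`, because `w ≤ 5 c0 r⁴`.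
-/

open MeasureTheory Filter Topology Set
open scoped ContDiff

noncomputable section

namespace H68KC

open H98KB

variable {P E : ℝ → ℝ} {γ η δ M B c C : ℝ}

/-- the final algebra of the row -/
theorem TRc_alg {c C CB CH K0 Ca K9 K M' r w T L Bd X2 N A q ρ nn D1 DN LL VE G : ℝ}
    (hc : 0 < c) (hC : 1 ≤ C) (hCB : 0 < CB) (hCH : 0 < CH) (hK0 : K0 = C * CB) (hCa : 0 ≤ Ca)
    (h49 : 4 * K0 * (Ca + 1) ≤ K9) (hK9 : 0 < K9) (hr0 : 0 < r) (hr1 : r ≤ 1)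
    (hM' : M' = C * CB * (Ca + 2) + C * (3 + K ^ 2) + C + 2 * K0 * CH)
    (hr : r * (M' + 25 / 4 * c0 * K9) ≤ c * K9 / (4 * C)) (hM0 : 0 ≤ M' + 25 / 4 * c0 * K9)
    (hw0 : 0 ≤ w) (hw1 : w ≤ 5 * c0 * r ^ 4)
    (h1 : D1 ≤ -c * (T + L) + C * Bd + C * (r ^ 16 + A ^ 2 / r ^ 4 + q ^ 2 + ρ ^ 2) + C / r ^ 2 * nn)
    (h2 : Bd ≤ CB * (r ^ 2 * X2 + N / r ^ 2 + r ^ 16))
    (h3 : DN ≤ -2 * w * N - r ^ 8 * X2 + CH * r ^ 40 + CH / r ^ 8 * nn)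
    (hN0 : 0 ≤ N) (hN : N ≤ (Ca + 1) * r ^ 16) (hA : |A| ≤ K * r ^ 9) (hq : |q| ≤ r ^ 30)
    (hρ : |ρ| ≤ r ^ 30) (hnn : nn ≤ r ^ 60) (hL : 0 ≤ L) (hT : r ^ 2 * G ≤ T)
    (hG : |VE| ≤ C * G) (hLL : K9 / 2 * r ^ 10 ≤ LL) (hE : LL = VE + K0 / r ^ 6 * N) :
    D1 + K0 / r ^ 6 * (DN + 3 / 4 * w * N) ≤ -(5 / 4) * w * K9 * r ^ 10 := by
  have hC0 : 0 < C := by linarith
  have hK0p : 0 < K0 := by rw [hK0]; positivity
  have hpow : ∀ a b : ℕ, b ≤ a → r ^ a ≤ r ^ b := fun a b hab =>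
    pow_le_pow_of_le_one hr0.le hr1 hab
  -- squares
  have hq2 : q ^ 2 ≤ r ^ 14 := by
    have h := pow_le_pow_left₀ (abs_nonneg q) hq 2
    rw [sq_abs] at h
    exact h.trans (by rw [← pow_mul]; exact hpow _ _ (by norm_num))
  have hρ2 : ρ ^ 2 ≤ r ^ 14 := by
    have h := pow_le_pow_left₀ (abs_nonneg ρ) hρ 2
    rw [sq_abs] at h
    exact h.trans (by rw [← pow_mul]; exact hpow _ _ (by norm_num))
  have hA2 : A ^ 2 / r ^ 4 ≤ K ^ 2 * r ^ 14 := by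
    rw [div_le_iff₀ (by positivity)]
    have h := pow_le_pow_left₀ (abs_nonneg A) hA 2
    rw [sq_abs] at h
    calc A ^ 2 ≤ (K * r ^ 9) ^ 2 := h
      _ = K ^ 2 * r ^ 14 * r ^ 4 := by ring
  have hn2 : C / r ^ 2 * nn ≤ C * r ^ 14 := by
    calc C / r ^ 2 * nn ≤ C / r ^ 2 * r ^ 60 := by
          apply mul_le_mul_of_nonneg_left hnn; positivity
      _ = C * r ^ 58 := by field_simp
      _ ≤ C * r ^ 14 := mul_le_mul_of_nonneg_left (hpow _ _ (by norm_num)) hC0.le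
  have hn8 : CH / r ^ 8 * nn ≤ CH * r ^ 20 := by
    calc CH / r ^ 8 * nn ≤ CH / r ^ 8 * r ^ 60 := by
          apply mul_le_mul_of_nonneg_left hnn; positivity
      _ = CH * r ^ 52 := by field_simp
      _ ≤ CH * r ^ 20 := mul_le_mul_of_nonneg_left (hpow _ _ (by norm_num)) hCH.le
  have hH40 : CH * r ^ 40 ≤ CH * r ^ 20 := mul_le_mul_of_nonneg_left (hpow _ _ (by norm_num)) hCH.le
  have hN2 : N / r ^ 2 ≤ (Ca + 1) * r ^ 14 := by
    rw [div_le_iff₀ (by positivity)]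
    calc N ≤ (Ca + 1) * r ^ 16 := hN
      _ = (Ca + 1) * r ^ 14 * r ^ 2 := by ring
  -- the `N` part
  have hDN : K0 / r ^ 6 * (DN + 3 / 4 * w * N) ≤ -(K0 * r ^ 2 * X2) + 2 * K0 * CH * r ^ 14 := by
    have hwN : 0 ≤ w * N := mul_nonneg hw0 hN0
    calc K0 / r ^ 6 * (DN + 3 / 4 * w * N)
        ≤ K0 / r ^ 6 * (-(r ^ 8 * X2) + 2 * CH * r ^ 20) := by
          apply mul_le_mul_of_nonneg_left _ (by positivity)
          linarith
      _ = -(K0 * r ^ 2 * X2) + 2 * K0 * CH * r ^ 14 := by field_simp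
  have hBd : C * Bd ≤ K0 * r ^ 2 * X2 + C * CB * (Ca + 2) * r ^ 14 := by
    have h16 := hpow 16 14 (by norm_num)
    calc C * Bd ≤ C * (CB * (r ^ 2 * X2 + N / r ^ 2 + r ^ 16)) :=
          mul_le_mul_of_nonneg_left h2 hC0.le
      _ ≤ C * (CB * (r ^ 2 * X2 + (Ca + 1) * r ^ 14 + r ^ 14)) := by
          apply mul_le_mul_of_nonneg_left _ hC0.le
          apply mul_le_mul_of_nonneg_left _ hCB.le
          linarith
      _ = K0 * r ^ 2 * X2 + C * CB * (Ca + 2) * r ^ 14 := by rw [hK0]; ring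
  have hsq : C * (r ^ 16 + A ^ 2 / r ^ 4 + q ^ 2 + ρ ^ 2) ≤ C * (3 + K ^ 2) * r ^ 14 := by
    have h16 := hpow 16 14 (by norm_num)
    calc C * (r ^ 16 + A ^ 2 / r ^ 4 + q ^ 2 + ρ ^ 2)
        ≤ C * (r ^ 14 + K ^ 2 * r ^ 14 + r ^ 14 + r ^ 14) := by
          apply mul_le_mul_of_nonneg_left _ hC0.le
          linarith
      _ = C * (3 + K ^ 2) * r ^ 14 := by ring
  -- lower bound for `G`
  have hVE : K9 / 4 * r ^ 10 ≤ VE := by
    have h6 : K0 / r ^ 6 * N ≤ K0 * (Ca + 1) * r ^ 10 := by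
      calc K0 / r ^ 6 * N ≤ K0 / r ^ 6 * ((Ca + 1) * r ^ 16) := by
            apply mul_le_mul_of_nonneg_left hN; positivity
        _ = K0 * (Ca + 1) * r ^ 10 := by field_simp
    have h7 : K0 * (Ca + 1) * r ^ 10 ≤ K9 / 4 * r ^ 10 := by
      apply mul_le_mul_of_nonneg_right _ (by positivity)
      linarith
    linarith
  have hCG : K9 / 4 * r ^ 10 ≤ C * G := hVE.trans ((le_abs_self _).trans hG)
  have hcT : c * K9 / (4 * C) * r ^ 12 ≤ c * T := by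
    have h8 : K9 / (4 * C) * r ^ 10 ≤ G := by
      rw [div_mul_eq_mul_div, div_le_iff₀ (by positivity)]
      linarith
    calc c * K9 / (4 * C) * r ^ 12 = c * (r ^ 2 * (K9 / (4 * C) * r ^ 10)) := by ring
      _ ≤ c * (r ^ 2 * G) := by
          apply mul_le_mul_of_nonneg_left _ hc.le
          exact mul_le_mul_of_nonneg_left h8 (by positivity)
      _ ≤ c * T := mul_le_mul_of_nonneg_left hT hc.le
  have hsum : D1 + K0 / r ^ 6 * (DN + 3 / 4 * w * N) ≤ -(c * T) + M' * r ^ 14 := by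
    have hcL : 0 ≤ c * L := mul_nonneg hc.le hL
    have hMr : M' * r ^ 14 = C * CB * (Ca + 2) * r ^ 14 + C * (3 + K ^ 2) * r ^ 14 + C * r ^ 14
        + 2 * K0 * CH * r ^ 14 := by rw [hM']; ring
    rw [hMr]
    nlinarith [h1, hBd, hsq, hn2, hDN, hcL]
  have hwK : 5 / 4 * w * K9 * r ^ 10 ≤ 25 / 4 * c0 * K9 * r ^ 14 := by
    calc 5 / 4 * w * K9 * r ^ 10 = w * (5 / 4 * K9 * r ^ 10) := by ring
      _ ≤ 5 * c0 * r ^ 4 * (5 / 4 * K9 * r ^ 10) := by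
          apply mul_le_mul_of_nonneg_right hw1; positivity
      _ = 25 / 4 * c0 * K9 * r ^ 14 := by ring
  have hfin : (M' + 25 / 4 * c0 * K9) * r ^ 14 ≤ c * K9 / (4 * C) * r ^ 12 := by
    have h9 : (M' + 25 / 4 * c0 * K9) * r ^ 2 ≤ c * K9 / (4 * C) := by
      calc (M' + 25 / 4 * c0 * K9) * r ^ 2 ≤ (M' + 25 / 4 * c0 * K9) * r := by
            apply mul_le_mul_of_nonneg_left _ hM0
            have := hpow 2 1 (by norm_num)
            rwa [pow_one] at this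
        _ = r * (M' + 25 / 4 * c0 * K9) := by ring
        _ ≤ _ := hr
    calc (M' + 25 / 4 * c0 * K9) * r ^ 14 = (M' + 25 / 4 * c0 * K9) * r ^ 2 * r ^ 12 := by ring
      _ ≤ c * K9 / (4 * C) * r ^ 12 := mul_le_mul_of_nonneg_right h9 (by positivity)
  nlinarith [hsum, hwK, hfin, hcT]

theorem TR_d1 (hp : Prof P E) (hA : GoodA P E γ η δ M B c C) (hBg : GoodB P E γ B c) :
    ∃ K0 : ℝ, 0 < K0 ∧ ∀ (Ca K9 K : ℝ), 0 ≤ Ca → 4 * K0 * (Ca + 1) ≤ K9 → 0 < K9 → 1 ≤ K →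
      ∃ r1 : ℝ, 0 < r1 ∧ r1 ≤ 1 ∧ ∀ (r w m : ℝ) (W et : ℝ → ℝ), r ≤ r1 →
      Fac P E r w m W et → Big P E γ B c Ca K r w m W et →
      K9 / 2 * r ^ 10 ≤ LL4 P E η γ δ M B K0 r W →
      DLL4 P E η γ δ M B K0 r w W (ze w m (r ^ 8) W et) ≤ -(5 / 4) * w * K9 * r ^ 10 := by
  obtain ⟨CB, rB, hCB, hrB, hBA⟩ := hBg.BA
  have hC0 : 0 < C := by linarith [hA.hC]
  refine ⟨C * CB, by positivity, fun Ca K9 K hCa h49 hK9 hK => ?_⟩
  obtain ⟨rM, hrM, hML⟩ := hA.ML (Ca + 1)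
  obtain ⟨CH, rH, hCH, hrH, hAH⟩ := hBg.AH (Ca + 1)
  obtain ⟨rC, hrC, hCO⟩ := hA.CO
  have hc0 := c0_ge.1
  set M' : ℝ := C * CB * (Ca + 2) + C * (3 + K ^ 2) + C + 2 * (C * CB) * CH with hM'
  have hMp : 0 < M' + 25 / 4 * c0 * K9 := by
    have : 0 < M' := by rw [hM']; positivity
    have h2 : 0 ≤ 25 / 4 * c0 * K9 := by positivity
    linarith
  have hc := hA.hc
  refine ⟨min 1 (min (min rB rM) (min (min rH rC) (c * K9 / (4 * C) / (M' + 25 / 4 * c0 * K9)))),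
    by positivity, min_le_left _ _, fun r w m W et hr hF hBig hLL => ?_⟩
  simp only [le_min_iff] at hr
  obtain ⟨hr1, ⟨hrB', hrM'⟩, ⟨hrH', hrC'⟩, hrX⟩ := hr
  have hr0 := hF.r0
  have hrX' : r * (M' + 25 / 4 * c0 * K9) ≤ c * K9 / (4 * C) := (le_div_iff₀ hMp).1 hrX
  obtain ⟨p, q, hp0, hp1, hq0, hq1, hcl, hcle⟩ := hF.cl
  have hcl' : ∃ p q : ℝ, 0 < p ∧ p ≤ 1 / 2 ∧ 0 < q ∧ q ≤ 1 / 2 ∧ Cl p q (fun y => W y - Qf 4 y) :=
    ⟨p, q, hp0, hp1, hq0, hq1, hcl⟩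
  have hCO' := hCO r W hr0 hrC' hcl' hBig.sit.supe
  refine TRc_alg (M' := M') (K := K) (CH := CH) (CB := CB) hc hA.hC hCB hCH rfl hCa h49 hK9 hr0 hr1 hM' hrX' hMp.le
    hBig.sit.w0 hBig.sit.w1 (hML r w m W et hrM' hBig.sit) (hBA _ r w m W et hrB' hBig.sit)
    (hAH r w m W et hrH' hBig.m2 hBig.sit) (Nn_nonneg _ _) hBig.sit.N1 hBig.al hF.mq hF.mr hF.ne
    ?_ (T4_ge hA.hB (by positivity) (ep_cl hp hp0.le hq0.le hcl)) hCO'.2.1 hLL rfl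
  exact integral_nonneg fun z => mul_nonneg
    (mul_nonneg (sq_nonneg _) (sq_nonneg _)) (add_nonneg (sq_nonneg _) (sq_nonneg _))

end H68KC

end

end S_H68_KC_TRc

section S_H68_KC_TRd

/-!
# Row TRd (MP_95be7d_K4): barriers for `b`

Write `b = bq (r^2) W`, `α = alf (r^2) W`, `β = b/r⁴`, `a = α/r⁴`, `D = bqD (r^2) w W (ze ..)`.

## Proof
`GoodC.MO` (fourth statement) with `Big.ln` (`√ln ≤ √K r^5`), `Big.al`, `Fac.mq`, `Fac.ne`:
`|D + 2 b² + (6/I) α b + cnu r^8| ≤ C (r^12 + √K r^9 + K r^10 + K r^9 + r^30 + r^30) ≤ K' r^9`; and `|b - w| ≤ K r^5` (`Big.bw`).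
`a` : `g6`, `g7` give `|a - f0| ≤ σ ≤ σ0` (`K5 r^5 ≥ 0`), `f0 = -c0 I`, `I > 0` (`Iq_pos`), so `|6a/I + 6 c0| ≤ 6σ0/I`.
(d2) `β ∈ [4c0 - δ0, 4c0]`: `D + 2 c0 w r⁴ ≤ -2b² - (6/I)αb - cnu r^8 + 2 c0 b r⁴ + (K' + 2 c0 K) r^9
 = r^8 (-2β² - (6a/I) β - cnu + 2 c0 β) + K'' r^9`. `-2β² + 6 c0 β + 2 c0 β = -2β (β - 4c0) ≤ 8 c0 δ0`, and `|(6a/I + 6c0) β| ≤ 24 c0 σ0/I`.
So `≤ r^8 (-cnu + 8 c0 δ0 + 24 c0 σ0/I) + K'' r^9 ≤ 0` if `8 c0 δ0 ≤ cnu/4`, `24 c0 σ0/I ≤ cnu/4`, `K'' r ≤ cnu/2` (`cnu_pos`).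
(d3) `β ∈ [2c0, 2c0 + δ0]`: `D + c0 w r⁴ ≥ r^8 (-2β² + 6 c0 β - 24 c0 σ0/I - cnu + c0 β) - K'' r^9` and
`-2β² + 7 c0 β ≥ -2β²+7c0β` at `β ∈ [2c0, 2c0+δ0]`, `= β (7c0 - 2β) ≥ 2c0 (3 c0 - 2δ0) ≥ 6 c0² - 4 c0 δ0`; since `c0 = 1 + cnu`,
`6 c0² ≥ 6 + cnu`, so the bracket is `≥ 6 - cnu/4 - cnu/8 + ... ≥ 1` if also `4 c0 δ0 ≤ 1`, `24 c0 σ0/I ≤ 1`.
-/

open MeasureTheory Filter Topology Set
open scoped ContDiff

noncomputable section

namespace H68KC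

open H98KB

variable {P E : ℝ → ℝ} {γ η δ M B c C : ℝ}

theorem TRd_sqrt10 {K x r : ℝ} (hK : 1 ≤ K) (hr : 0 < r) (hx : x ≤ K * r ^ 10) :
    √x ≤ K * r ^ 5 := by
  have h1 : x ≤ (K * r ^ 5) ^ 2 := by
    have : K * r ^ 10 ≤ K ^ 2 * r ^ 10 := by
      have hKK : K ≤ K ^ 2 := by nlinarith
      gcongr
    calc x ≤ K * r ^ 10 := hx
      _ ≤ K ^ 2 * r ^ 10 := this
      _ = (K * r ^ 5) ^ 2 := by ring
  exact (Real.sqrt_le_sqrt h1).trans (by rw [Real.sqrt_sq (by positivity)])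

theorem TRd_sqrt60 {x r : ℝ} (hr : 0 < r) (hx : x ≤ r ^ 60) : √x ≤ r ^ 30 := by
  have h1 : x ≤ (r ^ 30) ^ 2 := by
    calc x ≤ r ^ 60 := hx
      _ = (r ^ 30) ^ 2 := by ring
  exact (Real.sqrt_le_sqrt h1).trans (by rw [Real.sqrt_sq (by positivity)])

theorem TRd_err {C K r a b s n e f : ℝ} (hC0 : 0 < C) (hK : 1 ≤ K) (hr : 0 < r) (hr1 : r ≤ 1)
    (hs : s ≤ K * r ^ 5) (hn : n ≤ K * r ^ 10) (ha : a ≤ K * r ^ 9) (he : e ≤ r ^ 30)
    (hf : f ≤ r ^ 30) (hb : b ≤ C * (r ^ 12 + r ^ 4 * s + n + a + e + f)) :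
    b ≤ 6 * C * K * r ^ 9 := by
  have h12 : r ^ 12 ≤ r ^ 9 := pow_le_pow_of_le_one hr.le hr1 (by norm_num)
  have h10 : r ^ 10 ≤ r ^ 9 := pow_le_pow_of_le_one hr.le hr1 (by norm_num)
  have h30 : r ^ 30 ≤ r ^ 9 := pow_le_pow_of_le_one hr.le hr1 (by norm_num)
  have h9 : 0 < r ^ 9 := by positivity
  have hs' : r ^ 4 * s ≤ K * r ^ 9 := by
    have h4 : 0 < r ^ 4 := by positivity
    calc r ^ 4 * s ≤ r ^ 4 * (K * r ^ 5) := by gcongr
      _ = K * r ^ 9 := by ring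
  have hn' : n ≤ K * r ^ 9 := hn.trans (by gcongr)
  have hK9 : r ^ 9 ≤ K * r ^ 9 := by nlinarith
  calc b ≤ C * (r ^ 12 + r ^ 4 * s + n + a + e + f) := hb
    _ ≤ C * (6 * (K * r ^ 9)) := by gcongr; linarith
    _ = 6 * C * K * r ^ 9 := by ring

/-- the cross term -/
theorem TRd_cross {I c0' R a f b s s0 K5 r5 : ℝ} (hI : 0 < I) (hR : 0 < R) (hc : 0 < c0')
    (hf : f = -c0' * I) (hb0 : 0 ≤ b) (hb1 : b ≤ 4 * c0' * R) (hs : s ≤ s0) (hK : 0 < K5)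
    (hr5 : 0 < r5) (h6 : a + K5 * r5 < (f + s) * R) (h7 : (f - s) * R < a - K5 * r5) :
    |6 / I * a * b + 6 * c0' * R * b| ≤ 24 * c0' * s0 / I * R ^ 2 := by
  have hKr : 0 < K5 * r5 := by positivity
  have e : 6 / I * a * b + 6 * c0' * R * b = 6 / I * (a - f * R) * b := by
    rw [hf]
    field_simp
    ring
  have hs0 : 0 < s0 * R := by nlinarith
  have h1 : |a - f * R| ≤ s0 * R := by
    rw [abs_le]
    constructor <;> nlinarith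
  rw [e, abs_mul, abs_mul, abs_of_pos (by positivity : 0 < 6 / I), abs_of_nonneg hb0]
  calc 6 / I * |a - f * R| * b ≤ 6 / I * (s0 * R) * (4 * c0' * R) := by gcongr
    _ = 24 * c0' * s0 / I * R ^ 2 := by
      field_simp
      ring

theorem TR_d23 (hp : Prof P E) (hC : GoodC P E γ B c C) (hC0 : 0 < C) :
    ∃ σ0 δ0 : ℝ, 0 < σ0 ∧ σ0 ≤ 1 ∧ 0 < δ0 ∧ ∀ K : ℝ, 1 ≤ K → ∃ r1 : ℝ, 0 < r1 ∧ r1 ≤ 1 ∧
      ∀ (Ca K0 K9 KE KN K5 σ t r w m : ℝ) (W et : ℝ → ℝ), r ≤ r1 → σ ≤ σ0 → 0 < K5 →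
      Fac P E r w m W et → Big P E γ B c Ca K r w m W et →
      Trd P E η γ δ M B K0 K9 KE Ca KN K5 σ t r W →
      ((4 * c0 - δ0) * r ^ 4 ≤ bq (r ^ 2) W →
        bqD (r ^ 2) w W (ze w m (r ^ 8) W et) + 2 * c0 * w * r ^ 4 ≤ 0) ∧
      (bq (r ^ 2) W ≤ (2 * c0 + δ0) * r ^ 4 →
        0 ≤ bqD (r ^ 2) w W (ze w m (r ^ 8) W et) + c0 * w * r ^ 4) := by
  obtain ⟨hc1, -⟩ := c0_ge
  have hcn := cnu_pos
  have hI := Iq_pos
  have hc0 : 0 < c0 := by linarith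
  obtain ⟨rM, hrM, hM⟩ := hC.MO
  refine ⟨min 1 (min (cnu * Iq / (96 * c0)) (Iq / (24 * c0))),
    min (cnu / (32 * c0)) (1 / (4 * c0)), by positivity, min_le_left _ _, by positivity, ?_⟩
  intro K hK
  have hK0 : 0 < K := by linarith
  set σ0 := min 1 (min (cnu * Iq / (96 * c0)) (Iq / (24 * c0))) with hσ0
  set δ0 := min (cnu / (32 * c0)) (1 / (4 * c0)) with hδ0
  have hs1 : 24 * c0 * σ0 / Iq ≤ cnu / 4 := by
    have h : σ0 ≤ cnu * Iq / (96 * c0) := (min_le_right _ _).trans (min_le_left _ _)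
    calc 24 * c0 * σ0 / Iq ≤ 24 * c0 * (cnu * Iq / (96 * c0)) / Iq := by gcongr
      _ = cnu / 4 := by
        field_simp
        ring
  have hs2 : 24 * c0 * σ0 / Iq ≤ 1 := by
    have h : σ0 ≤ Iq / (24 * c0) := (min_le_right _ _).trans (min_le_right _ _)
    calc 24 * c0 * σ0 / Iq ≤ 24 * c0 * (Iq / (24 * c0)) / Iq := by gcongr
      _ = 1 := by field_simp
  have hδp : 0 < δ0 := by positivity
  have hd1 : 8 * c0 * δ0 ≤ cnu / 4 := by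
    have h : δ0 ≤ cnu / (32 * c0) := min_le_left _ _
    calc 8 * c0 * δ0 ≤ 8 * c0 * (cnu / (32 * c0)) := by gcongr
      _ = cnu / 4 := by
        field_simp
        ring
  have hd2 : 4 * c0 * δ0 ≤ 1 := by
    have h : δ0 ≤ 1 / (4 * c0) := min_le_right _ _
    calc 4 * c0 * δ0 ≤ 4 * c0 * (1 / (4 * c0)) := by gcongr
      _ = 1 := by field_simp
  have hKK : 0 < 6 * C * K + 2 * c0 * K := by positivity
  refine ⟨min 1 (min rM (min (cnu / (2 * (6 * C * K + 2 * c0 * K))) (1 / (6 * C * K + 2 * c0 * K)))),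
    by positivity, min_le_left _ _, ?_⟩
  intro Ca K0 K9 KE KN K5 σ t r w m W et hr hσ hK5 hF hB hT
  have hr1 : r ≤ 1 := hr.trans (min_le_left _ _)
  have hr2 : r ≤ rM := hr.trans ((min_le_right _ _).trans (min_le_left _ _))
  have hr3 : (6 * C * K + 2 * c0 * K) * r ≤ cnu / 2 := by
    have h : r ≤ cnu / (2 * (6 * C * K + 2 * c0 * K)) :=
      hr.trans ((min_le_right _ _).trans ((min_le_right _ _).trans (min_le_left _ _)))
    calc (6 * C * K + 2 * c0 * K) * r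
        ≤ (6 * C * K + 2 * c0 * K) * (cnu / (2 * (6 * C * K + 2 * c0 * K))) := by gcongr
      _ = cnu / 2 := by field_simp
  have hr4 : (6 * C * K + 2 * c0 * K) * r ≤ 1 := by
    have h : r ≤ 1 / (6 * C * K + 2 * c0 * K) :=
      hr.trans ((min_le_right _ _).trans ((min_le_right _ _).trans (min_le_right _ _)))
    calc (6 * C * K + 2 * c0 * K) * r
        ≤ (6 * C * K + 2 * c0 * K) * (1 / (6 * C * K + 2 * c0 * K)) := by gcongr
      _ = 1 := by field_simp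
  have hr0 : 0 < r := hF.r0
  obtain ⟨-, -, -, hm⟩ := hM (Ca + 1) r w m W et hr2 hB.sit
  have herr := TRd_err hC0 hK hr0 hr1 (TRd_sqrt10 hK hr0 hB.ln) hB.ln hB.al hF.mq
    (TRd_sqrt60 hr0 hF.ne) hm
  have hR : 0 < r ^ 4 := by positivity
  have hcr := TRd_cross (c0' := c0) (s0 := σ0) hI hR hc0 rfl
    (by nlinarith [hT.g3] : 0 ≤ bq (r ^ 2) W) hT.g2.le hσ hK5 (by positivity : 0 < r ^ 5)
    hT.g6 hT.g7
  have hbw := hB.bw
  have g2 := hT.g2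
  have g3 := hT.g3
  generalize bqD (r ^ 2) w W (ze w m (r ^ 8) W et) = D at herr ⊢
  generalize bq (r ^ 2) W = b at herr hcr hbw g2 g3 ⊢
  generalize alf (r ^ 2) W = a at herr hcr
  rw [abs_le] at herr hcr hbw
  have hR8 : r ^ 8 = (r ^ 4) ^ 2 := by ring
  have hR9 : r ^ 9 = r * (r ^ 4) ^ 2 := by ring
  have hR5 : r ^ 5 = r * r ^ 4 := by ring
  rw [hR8, hR9] at herr
  rw [hR5] at hbw
  clear hm
  generalize r ^ 4 = R at *
  have hRR : 0 < R ^ 2 := by positivity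
  have hw1 : c0 * w * R ≤ c0 * (b + K * (r * R)) * R := by
    have : w ≤ b + K * (r * R) := by linarith [hbw.1]
    gcongr
  have hw2 : c0 * (b - K * (r * R)) * R ≤ c0 * w * R := by
    have : b - K * (r * R) ≤ w := by linarith [hbw.2]
    gcongr
  have hx1 : (6 * C * K + 2 * c0 * K) * r * R ^ 2 ≤ cnu / 2 * R ^ 2 := by gcongr
  have hx2 : (6 * C * K + 2 * c0 * K) * r * R ^ 2 ≤ 1 * R ^ 2 := by gcongr
  have hs1' : 24 * c0 * σ0 / Iq * R ^ 2 ≤ cnu / 4 * R ^ 2 := by gcongr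
  have hs2' : 24 * c0 * σ0 / Iq * R ^ 2 ≤ 1 * R ^ 2 := by gcongr
  constructor
  · intro hb
    have h1 : 2 * b * (4 * c0 * R - b) ≤ 2 * (4 * c0 * R) * (δ0 * R) := by
      have hb0 : 0 ≤ 4 * c0 * R - b := by linarith
      have hb1 : 4 * c0 * R - b ≤ δ0 * R := by linarith
      gcongr
    have hd1' : 8 * c0 * δ0 * R ^ 2 ≤ cnu / 4 * R ^ 2 := by gcongr
    have e1 := herr.2
    have e2 := hcr.1
    nlinarith [mul_pos hcn hRR]
  · intro hb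
    have hδ1 : δ0 ≤ 1 := by
      have : δ0 ≤ 4 * c0 * δ0 := by nlinarith
      linarith
    have h1 : 2 * c0 * R * (7 * c0 * R - 2 * ((2 * c0 + δ0) * R)) ≤ b * (7 * c0 * R - 2 * b) := by
      have hb0 : 0 ≤ (3 * c0 - 2 * δ0) * R := by
        have : 0 ≤ 3 * c0 - 2 * δ0 := by linarith
        positivity
      have hb1 : 7 * c0 * R - 2 * ((2 * c0 + δ0) * R) ≤ 7 * c0 * R - 2 * b := by linarith
      have hb2 : 0 ≤ 7 * c0 * R - 2 * ((2 * c0 + δ0) * R) := by linarith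
      have hb3 : 0 < 2 * c0 * R := by positivity
      exact mul_le_mul g3.le hb1 hb2 (hb3.trans g3).le
    have hd2' : 4 * c0 * δ0 * R ^ 2 ≤ 1 * R ^ 2 := by gcongr
    have hcc : (6 + cnu) * R ^ 2 ≤ 6 * c0 ^ 2 * R ^ 2 := by
      have : 6 + cnu ≤ 6 * c0 ^ 2 := by
        have : c0 = 1 + cnu := rfl
        rw [this]
        nlinarith
      gcongr
    have e1 := herr.1
    have e2 := hcr.2
    have hcK : 0 ≤ c0 * K * r * R ^ 2 := by positivity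
    nlinarith [mul_pos hcn hRR]

end H68KC

end

end S_H68_KC_TRd

section S_H68_KC_TRe

/-!
# Row TRe (MP_95be7d_K4): energy, gradient norm, mass, front functional, drift of `α` in the trap

## Proofs (`e = W - Q`)
* `TR_d4`: `GoodC.EN`: `DEW ≤ -2 w EW + C r^8 + C/r^8 ne2 ≤ -w KE r⁴ + 2 C r^8` (`EW ≥ KE/2 r⁴`, `w ≥ 0`, `ne2 ≤ r^60`, `r ≤ 1`), and
  `2 C r^8 ≤ (1/2) w KE r⁴` because `w ≥ c0 r⁴ ≥ r⁴` (`c0_ge`) and `KE ≥ 4 C`.
* `TR_s8`: `GoodC.XE`: `Xn e ≤ 4 EW + C (r⁴ + ln) ≤ 4 KE r⁴ + C (r⁴ + K r^10) ≤ r²/2` for `r` small (`g4`, `Big.ln`).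
* `TR_s9`: `∫ e² = ∫ W² - ∫ Q² - 2 ∫ Q e` (`e` of class `p q`, `W = Q + e`), `∫ Q e = ∫ Q h + ∫ Q ε = b I²/16 + α I/4` (`ep_split`, `ip_PQ`, `ip_EQ`, `ep_Q`), so
  `|∫ Q e| ≤ C' r⁴` (`Sit.b1`, `Sit.a1`), `∫ e² ≤ 1/2 + 2 C' r⁴ ≤ 3/4` (`Fac.ms`).
* `TR_x1`: `W'² = (Q' + e')² ≥ Q'²/2 - e'²`, so `∫ W'² ≥ K/2 - Xn e ≥ K/2 - r²/2 ≥ K/4` for `r` small (`K = ∫ Q'² > 0`, `Qd2_pos`; `g8`).
* `TR_d5`: `GoodB.AH (Ca+1)`: `DNn ≤ -2wN - r^8 X2 + CH r^40 + CH/r^8 ne2 ≤ -2wN + 2 CH r^40`; `KN = 2 CH`.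
* `TR_d6`: `Big.al` and `w ≥ c0 r⁴ ≥ r⁴`: `K r^9 ≤ K5/8 w r^5` for `K5 ≥ 8 K`.
-/

open MeasureTheory Filter Topology Set
open scoped ContDiff

noncomputable section

namespace H68KC

open H98KB

variable {P E : ℝ → ℝ} {γ η δ M B c C : ℝ}

theorem TRe_e {C r x : ℝ} (hC : 0 ≤ C) (hr : 0 < r) (hx : x ≤ r ^ 60) :
    C / r ^ 8 * x ≤ C * r ^ 52 := by
  have h1 : C / r ^ 8 * x ≤ C / r ^ 8 * r ^ 60 := mul_le_mul_of_nonneg_left hx (by positivity)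
  have h2 : C / r ^ 8 * r ^ 60 = C * r ^ 52 := by
    field_simp
  linarith

theorem TRe_w {Ca K r w m : ℝ} {W et : ℝ → ℝ} (hr0 : 0 < r) (hBig : Big P E γ B c Ca K r w m W et) :
    r ^ 4 ≤ w := by
  have h1 := hBig.w1
  have h2 := c0_ge.1
  have h3 : 1 * r ^ 4 ≤ c0 * r ^ 4 := mul_le_mul_of_nonneg_right h2 (by positivity)
  linarith

theorem TR_d4 (hC : GoodC P E γ B c C) (hC0 : 0 < C) {KE K Ca r w m : ℝ} {W et : ℝ → ℝ}
    (hKE : 4 * C ≤ KE) (hr : r ≤ 1) (hF : Fac P E r w m W et) (hBig : Big P E γ B c Ca K r w m W et)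
    (h : KE / 2 * r ^ 4 ≤ EW W) :
    DEW W (ze w m (r ^ 8) W et) ≤ -(1 / 2) * w * KE * r ^ 4 := by
  have hr0 := hF.r0
  have h1 := hC.EN (Ca + 1) r w m W et hr hBig.sit
  have h2 := TRe_e hC0.le hr0 hF.ne
  have h3 : r ^ 52 ≤ r ^ 8 := pow_le_pow_of_le_one hr0.le hr (by norm_num)
  have h4 := TRe_w hr0 hBig
  have hr4 := pow_pos hr0 4
  have hw : 0 < w := by linarith
  have h5 : w * (KE / 2 * r ^ 4) ≤ w * EW W := mul_le_mul_of_nonneg_left h hw.le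
  have h6 : r ^ 4 * (4 * C * r ^ 4) ≤ w * (KE * r ^ 4) :=
    mul_le_mul h4 (mul_le_mul_of_nonneg_right hKE hr4.le) (by positivity) hw.le
  have h7 : C * r ^ 52 ≤ C * r ^ 8 := mul_le_mul_of_nonneg_left h3 hC0.le
  have h8 : r ^ 4 * (4 * C * r ^ 4) = 4 * (C * r ^ 8) := by ring
  rw [h8] at h6
  linarith

theorem TR_s8 (hC : GoodC P E γ B c C) (hC0 : 0 < C) (KE K : ℝ) :
    ∃ r1 : ℝ, 0 < r1 ∧ r1 ≤ 1 ∧ ∀ (Ca K0 K9 KN K5 σ t r w m : ℝ) (W et : ℝ → ℝ), r ≤ r1 →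
      Big P E γ B c Ca K r w m W et → Trd P E η γ δ M B K0 K9 KE Ca KN K5 σ t r W →
      Xn (fun y => W y - Qf 4 y) ≤ r ^ 2 / 2 := by
  obtain ⟨r0, hr0, hX⟩ := hC.XE
  set A : ℝ := 4 * |KE| + C + C * |K| + 1 with hA
  have hA1 : 1 ≤ A := by
    have := abs_nonneg KE
    have := mul_nonneg hC0.le (abs_nonneg K)
    linarith
  refine ⟨min r0 (1 / (2 * A)), lt_min hr0 (by positivity), (min_le_right _ _).trans ?_, ?_⟩
  · rw [div_le_one (by linarith)]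
    linarith
  intro Ca K0 K9 KN K5 σ t r w m W et hr hBig hT
  have hrp := hBig.sit.r0
  have hrA : r ≤ 1 / (2 * A) := hr.trans (min_le_right _ _)
  have hrA1 : r * (2 * A) ≤ 1 := (le_div_iff₀ (by linarith)).1 hrA
  have hr1 : r ≤ 1 := by nlinarith
  have h1 := (hX (Ca + 1) r w m W et (hr.trans (min_le_left _ _)) hBig.sit).1
  have h2 := hT.g4
  have h3 := hBig.ln
  have hr4 := pow_pos hrp 4
  have h4 : KE * r ^ 4 ≤ |KE| * r ^ 4 := mul_le_mul_of_nonneg_right (le_abs_self _) hr4.le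
  have h5 : K * r ^ 10 ≤ |K| * r ^ 4 :=
    mul_le_mul (le_abs_self _) (pow_le_pow_of_le_one hrp.le hr1 (by norm_num)) (by positivity)
      (abs_nonneg _)
  have h6 : C * (r ^ 4 + ln γ B (ep P E (r ^ 2) W)) ≤ C * (r ^ 4 + |K| * r ^ 4) :=
    mul_le_mul_of_nonneg_left (by linarith) hC0.le
  have h7 : Xn (fun y => W y - Qf 4 y) ≤ A * r ^ 4 := by
    have h8 : A * r ^ 4 = 4 * (|KE| * r ^ 4) + C * (r ^ 4 + |K| * r ^ 4) + r ^ 4 := by
      rw [hA]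
      ring
    rw [h8]
    linarith
  have h9 : A * r ^ 4 ≤ r ^ 2 / 2 := by
    have h10 : r ^ 2 ≤ r := by nlinarith
    have h11 : A * r ^ 2 ≤ A * r := mul_le_mul_of_nonneg_left h10 (by linarith)
    have h12 : A * r ^ 2 ≤ 1 / 2 := by linarith
    have h13 : (A * r ^ 2) * r ^ 2 ≤ 1 / 2 * r ^ 2 := mul_le_mul_of_nonneg_right h12 (by positivity)
    have h14 : (A * r ^ 2) * r ^ 2 = A * r ^ 4 := by ring
    linarith
  linarith

theorem TRe_Q : Cl 1 1 (Qf 4) := Cl_Qf (by norm_num)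

theorem TRe_ip {W : ℝ → ℝ} (s : ℝ) : ip (fun y => W y - Qf 4 y) (Qf 4) =
    bq s W * (Iq ^ 2 / 16) + alf s W * (Iq / 4) := by
  have hI := Iq_pos
  unfold bq
  field_simp
  ring

theorem TRe_sq {p q : ℝ} {W : ℝ → ℝ} (hp : 0 < p) (hq : 0 < q)
    (hW : Cl p q (fun y => W y - Qf 4 y)) : (∫ y, (W y) ^ 2) = (∫ y, (Qf 4 y) ^ 2) +
      2 * ip (fun y => W y - Qf 4 y) (Qf 4) + ∫ y, (W y - Qf 4 y) ^ 2 := by
  have i1 : Integrable (fun y => (Qf 4 y) ^ 2) :=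
    Cl_int (Cl_pow TRe_Q 2) (by norm_num) (by norm_num)
  have i2 : Integrable (fun y => (W y - Qf 4 y) * Qf 4 y) :=
    Cl_int (Cl_mul hW TRe_Q) (by linarith) (by linarith)
  have i3 : Integrable (fun y => (W y - Qf 4 y) ^ 2) :=
    Cl_int (Cl_pow hW 2) (by push_cast; linarith) (by push_cast; linarith)
  have i4 : Integrable (fun y => (Qf 4 y) ^ 2 + 2 * ((W y - Qf 4 y) * Qf 4 y)) :=
    i1.add (i2.const_mul 2)
  unfold ip
  rw [← integral_const_mul, ← integral_add i1 (i2.const_mul 2), ← integral_add i4 i3]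
  refine integral_congr_ae (Eventually.of_forall fun y => ?_)
  simp only
  ring

theorem TR_s9 (hp : Prof P E) :
    ∃ r1 : ℝ, 0 < r1 ∧ r1 ≤ 1 ∧ ∀ (Ca K r w m : ℝ) (W et : ℝ → ℝ), r ≤ r1 →
      Fac P E r w m W et → Big P E γ B c Ca K r w m W et →
      (∫ y, (W y - Qf 4 y) ^ 2) ≤ 3 / 4 := by
  have hI := Iq_pos
  have hc := c0_ge.1
  have hf := abs_nonneg f0
  set A : ℝ := 5 * c0 * (Iq ^ 2 / 16) + (|f0| + 1) * (Iq / 4) with hA
  have hA0 : 0 ≤ A := by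
    have : 0 ≤ c0 := by linarith
    positivity
  refine ⟨1 / (8 * (A + 1)), by positivity, ?_, ?_⟩
  · rw [div_le_one (by linarith)]
    linarith
  intro Ca K r w m W et hr hF hBig
  have hr0 := hF.r0
  have hr8 : r * (8 * (A + 1)) ≤ 1 := (le_div_iff₀ (by linarith)).1 hr
  have hr1 : r ≤ 1 := by nlinarith
  obtain ⟨p, q, hp0, -, hq0, -, hW, -⟩ := hF.cl
  have h1 := TRe_sq hp0 hq0 hW
  have h2 := TRe_ip (W := W) (r ^ 2)
  have h3 := hBig.sit.b1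
  have h4 := hBig.sit.a1
  have h5 := hF.ms
  have h6 : |bq (r ^ 2) W * (Iq ^ 2 / 16)| ≤ 5 * c0 * r ^ 4 * (Iq ^ 2 / 16) := by
    rw [abs_mul, abs_of_nonneg (show (0:ℝ) ≤ Iq ^ 2 / 16 by positivity)]
    exact mul_le_mul_of_nonneg_right h3 (by positivity)
  have h7 : |alf (r ^ 2) W * (Iq / 4)| ≤ (|f0| + 1) * r ^ 4 * (Iq / 4) := by
    rw [abs_mul, abs_of_nonneg (show (0:ℝ) ≤ Iq / 4 by positivity)]
    exact mul_le_mul_of_nonneg_right h4 (by positivity)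
  have h8 := (abs_le.1 h6).1
  have h9 := (abs_le.1 h7).1
  have h10 : 5 * c0 * r ^ 4 * (Iq ^ 2 / 16) + (|f0| + 1) * r ^ 4 * (Iq / 4) = A * r ^ 4 := by
    rw [hA]
    ring
  have h11 : r ^ 4 ≤ r := by
    have := pow_le_pow_of_le_one hr0.le hr1 (show 1 ≤ 4 by norm_num)
    simpa using this
  have h12 : A * r ^ 4 ≤ A * r := mul_le_mul_of_nonneg_left h11 hA0
  linarith

theorem TR_x1 : ∃ r1 : ℝ, 0 < r1 ∧ r1 ≤ 1 ∧ ∀ (P E : ℝ → ℝ) (r w m : ℝ) (W et : ℝ → ℝ), r ≤ r1 →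
      Fac P E r w m W et → Xn (fun y => W y - Qf 4 y) < r ^ 2 →
      1 / 4 * (∫ y, (deriv (Qf 4) y) ^ 2) ≤ ∫ y, (deriv W y) ^ 2 := by
  have hK : 0 < ∫ y, (deriv (Qf 4) y) ^ 2 := Qd2_pos (by norm_num)
  refine ⟨min 1 ((∫ y, (deriv (Qf 4) y) ^ 2) / 4), lt_min one_pos (by linarith),
    min_le_left _ _, ?_⟩
  intro P E r w m W et hr hF hX
  have hr0 := hF.r0
  have hr1 : r ≤ 1 := hr.trans (min_le_left _ _)
  have hr2 : r ≤ (∫ y, (deriv (Qf 4) y) ^ 2) / 4 := hr.trans (min_le_right _ _)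
  obtain ⟨p, q, hp0, -, hq0, -, hW, -⟩ := hF.cl
  have hQd : Cl 1 1 (deriv (Qf 4)) := Cl_der TRe_Q
  have hWd := Cl_der hW
  have hd : ∀ y, deriv W y = deriv (Qf 4) y + deriv (fun y => W y - Qf 4 y) y := by
    intro y
    have h1 := (Cl_hd TRe_Q y).add (Cl_hd hW y)
    have h2 : (Qf 4 + fun y => W y - Qf 4 y) = W := by
      funext z
      simp
    rw [h2] at h1
    exact h1.deriv
  have i1 : Integrable (fun y => (deriv (Qf 4) y) ^ 2) :=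
    Cl_int (Cl_pow hQd 2) (by norm_num) (by norm_num)
  have i2 : Integrable (fun y => deriv (Qf 4) y * deriv (fun y => W y - Qf 4 y) y) :=
    Cl_int (Cl_mul hQd hWd) (by linarith) (by linarith)
  have i3 : Integrable (fun y => (deriv (fun y => W y - Qf 4 y) y) ^ 2) :=
    Cl_int (Cl_pow hWd 2) (by push_cast; linarith) (by push_cast; linarith)
  have i4 : Integrable (fun y => (deriv W y) ^ 2) := by
    refine ((i1.add (i2.const_mul 2)).add i3).congr (Eventually.of_forall fun y => ?_)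
    simp only [Pi.add_apply]
    rw [hd y]
    ring
  have h1 : (∫ y, ((1:ℝ) / 2 * (deriv (Qf 4) y) ^ 2 - (deriv (fun y => W y - Qf 4 y) y) ^ 2)) ≤
      ∫ y, (deriv W y) ^ 2 := by
    refine integral_mono ((i1.const_mul _).sub i3) i4 fun y => ?_
    simp only
    rw [hd y]
    nlinarith [sq_nonneg (deriv (Qf 4) y + 2 * deriv (fun y => W y - Qf 4 y) y)]
  rw [integral_sub (i1.const_mul _) i3, integral_const_mul] at h1
  have h2 : Xn (fun y => W y - Qf 4 y) = ∫ y, (deriv (fun y => W y - Qf 4 y) y) ^ 2 := rfl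
  rw [← h2] at h1
  have h3 : r ^ 2 ≤ r := by nlinarith
  linarith

theorem TR_d5 (hBg : GoodB P E γ B c) (Ca : ℝ) :
    ∃ KN r1 : ℝ, 0 < KN ∧ 0 < r1 ∧ r1 ≤ 1 ∧ ∀ (K r w m : ℝ) (W et : ℝ → ℝ), r ≤ r1 →
      Fac P E r w m W et → Big P E γ B c Ca K r w m W et →
      DNn (r ^ 2) w W (ze w m (r ^ 8) W et) + 2 * w * Nn (r ^ 2) W ≤ KN * r ^ 40 := by
  obtain ⟨CH, r0, hCH, hr0, hAH⟩ := hBg.AH (Ca + 1)
  refine ⟨2 * CH, min 1 r0, by positivity, lt_min one_pos hr0, min_le_left _ _, ?_⟩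
  intro K r w m W et hr hF hBig
  have hrp := hF.r0
  have hr1 : r ≤ 1 := hr.trans (min_le_left _ _)
  have h1 := hAH r w m W et (hr.trans (min_le_right _ _)) hBig.m2 hBig.sit
  have h2 := TRe_e hCH.le hrp hF.ne
  have h3 : r ^ 52 ≤ r ^ 40 := pow_le_pow_of_le_one hrp.le hr1 (by norm_num)
  have h4 : CH * r ^ 52 ≤ CH * r ^ 40 := mul_le_mul_of_nonneg_left h3 hCH.le
  have h5 : 0 ≤ ∫ y, Ph (r ^ 2) y * (deriv (deriv W) y) ^ 2 := by
    refine integral_nonneg fun y => mul_nonneg ?_ (sq_nonneg _)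
    unfold Ph Th
    positivity
  have h6 : 0 ≤ r ^ 8 * ∫ y, Ph (r ^ 2) y * (deriv (deriv W) y) ^ 2 := mul_nonneg (by positivity) h5
  linarith

theorem TR_d6 {K K5 Ca r w m : ℝ} {W et : ℝ → ℝ} (hK : 0 ≤ K) (hK5 : 8 * K ≤ K5)
    (hF : Fac P E r w m W et) (hBig : Big P E γ B c Ca K r w m W et) :
    |alm (r ^ 2) w W (ze w m (r ^ 8) W et)| ≤ K5 / 8 * w * r ^ 5 := by
  have hr0 := hF.r0
  have h1 := hBig.al
  have h2 := TRe_w hr0 hBig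
  have h3 : K * r ^ 4 ≤ K5 / 8 * w := mul_le_mul (by linarith) h2 (by positivity) (by linarith)
  have h4 : K * r ^ 4 * r ^ 5 ≤ K5 / 8 * w * r ^ 5 := mul_le_mul_of_nonneg_right h3 (by positivity)
  have h5 : K * r ^ 4 * r ^ 5 = K * r ^ 9 := by ring
  linarith

end H68KC

end

end S_H68_KC_TRe

section S_H68_KC_TRf

/-!
# Row TRf (MP_95be7d_K4): assembly of the static trap theorem

## Proof
Order of the constants: `GoodC` gives `C` (replace it by `max C 1` where positivity is needed: all statements of `GoodC` with `C` imply those with a larger constant,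
or note `0 < C` from `GoodA.hC : 1 ≤ C`, the same `C`). `TR_d1` gives `K0`; `K9 := 4 K0 (Ca + 1) + 1`; `TR_big` (with `K0 K9 Ca`) gives `K`; `TR_d5 Ca` gives `KN`;
`KE := max KI (4 C)`; `K5 := 8 K`; `TR_d23` gives `σ0 δ0`; `r1` := minimum of the `r1` of `TR_big` (with `KE KN K5`), `TR_d1` (with `Ca K9 K`), `TR_d23` (with `K`),
`TR_s8 KE K`, `TR_s9`, `TR_x1`, `TR_d5`. Then for `Fac`, `Trd`: `Big` by `TR_big` (`σ ≤ σ0 ≤ 1`); `w1 := Big.w1`, `w2 := Big.sit.w1`, `m1 := Big.m2`, `d1 := TR_d1`, `d2 d3 := TR_d23`,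
`d4 := TR_d4`, `d5 := TR_d5`, `d6 := TR_d6`, `s8 := TR_s8`, `s9 := TR_s9`, `x1 := TR_x1` (with `g8`).
-/

open MeasureTheory Filter Topology Set
open scoped ContDiff

noncomputable section

namespace H68KC

open H98KB

theorem thmTrap : ThmTrap := by
  intro P E γ η δ M B c C hp hA hBg hC Ca KI hCa hKI
  have hC0 : 0 < C := lt_of_lt_of_le one_pos hA.hC
  have hCa0 : 0 ≤ Ca := le_trans zero_le_one hCa
  obtain ⟨K0, hK0, H1⟩ := TR_d1 hp hA hBg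
  have hK9 : 0 < 4 * K0 * (Ca + 1) + 1 := by positivity
  obtain ⟨K, hK1, H2⟩ := TR_big hp hA hBg K0 (4 * K0 * (Ca + 1) + 1) Ca hCa0 hK0 hK9
  have hK : 0 < K := lt_of_lt_of_le one_pos hK1
  obtain ⟨KN, r5, hKN, hr50, hr51, H5⟩ := TR_d5 hBg Ca
  obtain ⟨rb, hrb0, hrb1, HB⟩ := H2 (max KI (4 * C)) KN (8 * K) (by positivity)
  obtain ⟨rd, hrd0, hrd1, HD1⟩ := H1 Ca (4 * K0 * (Ca + 1) + 1) K hCa0 (by linarith) hK9 hK1
  obtain ⟨σ0, δ0, hσ0, hσ1, hδ0, H23⟩ := TR_d23 hp hC hC0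
  obtain ⟨r23, hr230, hr231, HD23⟩ := H23 K hK1
  obtain ⟨r8, hr80, hr81, HS8⟩ := TR_s8 hC hC0 (max KI (4 * C)) K
  obtain ⟨r9, hr90, hr91, HS9⟩ := TR_s9 hp
  obtain ⟨rx, hrx0, hrx1, HX1⟩ := TR_x1
  refine ⟨K0, 4 * K0 * (Ca + 1) + 1, max KI (4 * C), KN, 8 * K, σ0, δ0,
    min r5 (min rb (min rd (min r23 (min r8 (min r9 rx))))), hK0, by linarith, le_max_left _ _, hKN,
    by positivity, hσ0, hδ0, ?_, ?_, ?_⟩
  · exact lt_min hr50 (lt_min hrb0 (lt_min hrd0 (lt_min hr230 (lt_min hr80 (lt_min hr90 hrx0)))))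
  · exact le_trans (min_le_left _ _) hr51
  · intro σ t r w m W et hr ht0 ht1 hσ hF hT
    rw [le_min_iff, le_min_iff, le_min_iff, le_min_iff, le_min_iff, le_min_iff] at hr
    obtain ⟨e5, eb, ed, e23, e8, e9, ex⟩ := hr
    have hbig := HB σ t r w m W et eb ht0 ht1 (le_trans hσ hσ1) hF hT
    have h23 := HD23 Ca K0 (4 * K0 * (Ca + 1) + 1) (max KI (4 * C)) KN (8 * K) σ t r w m W et e23 hσ
      (by positivity) hF hbig hT
    exact
      { w1 := hbig.w1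
        w2 := hbig.sit.w1
        m1 := hbig.m2
        d1 := HD1 r w m W et ed hF hbig
        d2 := h23.1
        d3 := h23.2
        d4 := TR_d4 hC hC0 (le_max_right _ _) (le_trans e5 hr51) hF hbig
        d5 := H5 K r w m W et e5 hF hbig
        d6 := TR_d6 hK.le le_rfl hF hbig
        s8 := HS8 Ca K0 (4 * K0 * (Ca + 1) + 1) KN (8 * K) σ t r w m W et e8 hbig hT
        s9 := HS9 Ca K r w m W et e9 hF hbig
        x1 := HX1 P E r w m W et ex hF hT.g8 }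

end H68KC

end

end S_H68_KC_TRf
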