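import Mathlib
import Pool.Agent.H98.BU.G01
import Pool.Agent.H98.BU.G02
import Pool.Agent.H98.BU.G06

/-! Blow-up for `u_t + u^k u_x + u_xxx - u_xx = 0`, part G27: this file joins several modules
to save build time (`Pool/Agent/H98/{KB,KC}`, `H72/{KB,KC}`, `H68/KC`, `H37/{KB,KC}`). -/

section S_H68_KC_INa

/-!
# Row INa (MP_95be7d_K4): the cut-off factor `kap4 w1 x = 1/cosh(x/w1)`

## Proofs
* `sech_cl`: `w = 1/cosh(c y)` has `w' = -c tanh(c y) w`; all derivatives are polynomials in `tanh(c y)` times `w` (`Tan_iter` with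
  `R = -c X`), `|tanh| < 1`, `w ≤ 2 e^{-|c y|}` (`Tan_sech_le`). Smooth: `Real.contDiff_cosh`, `cosh ≠ 0`.
* `kap_cl`, `kapr_cl`: `x/w1 = (1/w1) x`, `r^8 y/w1 = (r^8/w1) y`.
* `kap_one`: `0 ≤ 1 - 1/cosh z ≤ 1`, so fine if `|z| ≥ 1`; for `|z| ≤ 1`: `1 - 1/cosh z ≤ cosh z - 1 ≤ z²` (`cosh z ≤ e^{z²/2}`
  (`Real.cosh_le_exp_half_sq`) and `e^{t} ≤ 1 + 2 t` for `0 ≤ t ≤ 1/2`).
* `kap_der`: `(1/cosh)' = -sinh/cosh²`, `|sinh| ≤ cosh`.
* `kap_int`: `κ² ≤ 4 e^{-2 r^8 |y|/w1}`, `∫ e^{-2a|y|} = 1/a`, `a = r^8/w1`.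
-/

open MeasureTheory Filter Topology Set
open scoped ContDiff

noncomputable section

namespace H68KC

open H98KB

theorem INa_eq (w1 : ℝ) : kap4 w1 = fun y => 1 / Real.cosh (1 / w1 * y) := by
  funext y
  unfold kap4
  congr 2
  ring

theorem INa_eqr (w1 r : ℝ) : (fun y => kap4 w1 (r ^ 8 * y)) = fun y => 1 / Real.cosh (r ^ 8 / w1 * y) := by
  funext y
  unfold kap4
  congr 2
  ring

theorem INa_int {a : ℝ} (ha : 0 < a) : ∫ y : ℝ, Real.exp (-(2 * a * |y|)) = 1 / a := by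
  rw [integral_comp_abs (f := fun x => Real.exp (-(2 * a * x)))]
  have h := integral_exp_mul_Ioi (a := -(2 * a)) (by linarith) 0
  have e : (fun x : ℝ => Real.exp (-(2 * a * x))) = fun x => Real.exp (-(2 * a) * x) := by
    funext x
    congr 1
    ring
  rw [e, h, mul_zero, Real.exp_zero]
  field_simp

theorem sech_cl {c : ℝ} (hc : 0 < c) : Cl c c (fun y => 1 / Real.cosh (c * y)) := by
  exact Cl_sech hc

theorem kap_le (w1 x : ℝ) : 0 < kap4 w1 x ∧ kap4 w1 x ≤ 1 := by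
  have h0 := Real.cosh_pos (x / w1)
  have h1 := Real.one_le_cosh (x / w1)
  unfold kap4
  refine ⟨by positivity, ?_⟩
  rw [div_le_one h0]
  exact h1

theorem kap_one {w1 : ℝ} (h : 0 < w1) (x : ℝ) : |kap4 w1 x - 1| ≤ (x / w1) ^ 2 := by
  have _ := h
  have h0 := Real.cosh_pos (x / w1)
  have hk := kap_le w1 x
  have h1 : Real.exp (-((x / w1) ^ 2 / 2)) ≤ kap4 w1 x := by
    unfold kap4
    rw [Real.exp_neg, ← one_div]
    exact one_div_le_one_div_of_le h0 (Real.cosh_le_exp_half_sq _)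
  have h2 := Real.add_one_le_exp (-((x / w1) ^ 2 / 2))
  have h3 := sq_nonneg (x / w1)
  rw [abs_le]
  constructor <;> linarith [hk.2]

theorem kap_der {w1 : ℝ} (h : 0 < w1) (x : ℝ) : |deriv (kap4 w1) x| ≤ 1 / w1 * kap4 w1 x := by
  have h0 := Real.cosh_pos (x / w1)
  have h1 : HasDerivAt (fun y : ℝ => y / w1) (1 / w1) x := (hasDerivAt_id x).div_const w1
  have h0' : (Real.cosh ∘ fun y : ℝ => y / w1) x ≠ 0 := h0.ne'
  have h2 := ((Real.hasDerivAt_cosh (x / w1)).comp x h1).inv h0'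
  have h3 : kap4 w1 = (Real.cosh ∘ fun y => y / w1)⁻¹ := by
    funext y
    simp [kap4]
  rw [h3, h2.deriv, ← h3]
  have h4 : |Real.sinh (x / w1)| ≤ Real.cosh (x / w1) := by
    rw [abs_le]
    constructor
    · have h5 := (Real.sinh_lt_cosh (-(x / w1))).le
      rw [Real.sinh_neg, Real.cosh_neg] at h5
      linarith
    · exact (Real.sinh_lt_cosh _).le
  simp only [Function.comp]
  unfold kap4
  rw [abs_div, abs_neg, abs_mul, abs_of_pos (by positivity : (0 : ℝ) < 1 / w1), abs_of_pos (by positivity :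
    (0 : ℝ) < Real.cosh (x / w1) ^ 2), div_le_iff₀ (by positivity)]
  have h6 : 1 / w1 * (1 / Real.cosh (x / w1)) * Real.cosh (x / w1) ^ 2 = Real.cosh (x / w1) * (1 / w1) := by
    field_simp
  rw [h6]
  exact mul_le_mul_of_nonneg_right h4 (by positivity)

theorem kap_cl {w1 : ℝ} (h : 0 < w1) : Cl (1 / w1) (1 / w1) (kap4 w1) := by
  rw [INa_eq]
  exact Cl_sech (by positivity)

theorem kapr_cl {w1 r : ℝ} (h : 0 < w1) (hr : 0 < r) :
    Cl (r ^ 8 / w1) (r ^ 8 / w1) (fun y => kap4 w1 (r ^ 8 * y)) := by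
  rw [INa_eqr]
  exact Cl_sech (by positivity)

theorem kap_int {w1 r : ℝ} (h : 0 < w1) (hr : 0 < r) :
    Integrable (fun y => (kap4 w1 (r ^ 8 * y)) ^ 2) ∧
    (∫ y, (kap4 w1 (r ^ 8 * y)) ^ 2) ≤ 4 * w1 / r ^ 8 := by
  have ha : 0 < r ^ 8 / w1 := by positivity
  have hcl := kapr_cl h hr
  have hc2 := Cl_mul hcl hcl
  have e : (fun y => (kap4 w1 (r ^ 8 * y)) ^ 2) = fun y => kap4 w1 (r ^ 8 * y) * kap4 w1 (r ^ 8 * y) := by
    funext y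
    ring
  have hI : Integrable (fun y => (kap4 w1 (r ^ 8 * y)) ^ 2) := by
    rw [e]
    exact Cl_int hc2 (by positivity) (by positivity)
  refine ⟨hI, ?_⟩
  have hbd : Integrable (fun y : ℝ => 4 * Real.exp (-(2 * (r ^ 8 / w1) * |y|))) := by
    have h1 := (bd_int (p := 2 * (r ^ 8 / w1)) (q := 2 * (r ^ 8 / w1)) (by positivity) (by positivity)).const_mul 4
    refine h1.congr (Eventually.of_forall fun y => ?_)
    show 4 * bd _ _ y = _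
    rw [bd_abs]
  have hle : ∫ y, (kap4 w1 (r ^ 8 * y)) ^ 2 ≤ ∫ y, 4 * Real.exp (-(2 * (r ^ 8 / w1) * |y|)) := by
    refine integral_mono hI hbd fun y => ?_
    have h1 : kap4 w1 (r ^ 8 * y) ≤ 2 * Real.exp (-|r ^ 8 * y / w1|) := Tan_sech_le _
    have h2 := (kap_le w1 (r ^ 8 * y)).1
    have h3 : (2 * Real.exp (-|r ^ 8 * y / w1|)) ^ 2 = 4 * Real.exp (-(2 * (r ^ 8 / w1) * |y|)) := by
      rw [mul_pow, ← Real.exp_nat_mul]
      have e1 : r ^ 8 * y / w1 = r ^ 8 / w1 * y := by ring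
      rw [e1, abs_mul, abs_of_pos ha]
      norm_num
      ring
    show (kap4 w1 (r ^ 8 * y)) ^ 2 ≤ 4 * Real.exp (-(2 * (r ^ 8 / w1) * |y|))
    rw [← h3]
    exact pow_le_pow_left₀ h2.le h1 2
  refine hle.trans (le_of_eq ?_)
  rw [integral_const_mul, INa_int ha]
  field_simp

end H68KC

end

end S_H68_KC_INa

section S_H68_KC_INb

/-!
# Row INb (MP_95be7d_K4): the background `hk4 = h₀ κ`

`h₀ = hf P E (3 c₀ r⁴) (f₀ r⁴)`, `κ = kap4 w1 (r^8 y)`.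

## Proofs
* `h0_le`: `P`, `E` bounded (`cP`, `E_cl`, `Cl_bnd`, `bd_zero`), `P'`, `E'` are of class `3/4 3/4` (`dP`, `Cl_der E1` since `E' = (E-1)'`),
  `Cl_bnd`, `bd_abs`; `Ch := max 1 (3 c₀ C_P + |f₀| C_E)` etc.
* `hk_le`: `|κ| ≤ 1`, `kap_one` at `r^8 y`, `(h₀κ)' = h₀' κ + h₀ r^8 κ'(r^8 y)` (`kap_der`).
* `hk_int`: `hk4² ≤ Ch² r^8 κ²`, `kap_int`.
* `hk_cl`: `Cl_mul` of class `0 0` (`hf_cl`) and `kapr_cl`.
-/

open MeasureTheory Filter Topology Set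
open scoped ContDiff

noncomputable section

namespace H68KC

open H98KB

variable {P E : ℝ → ℝ}

theorem h0_le (hp : Prof P E) : ∃ Ch : ℝ, 1 ≤ Ch ∧ ∀ r, 0 < r → ∀ y,
    |hf P E (3 * c0 * r ^ 4) (f0 * r ^ 4) y| ≤ Ch * r ^ 4 ∧
    |deriv (hf P E (3 * c0 * r ^ 4) (f0 * r ^ 4)) y| ≤ Ch * r ^ 4 * Real.exp (-(3 / 4 * |y|)) := by
  obtain ⟨C1, hC1, h1⟩ := Cl_bnd hp.cP
  obtain ⟨C2, hC2, h2⟩ := Cl_bnd (E_cl hp)
  obtain ⟨C3, hC3, h3⟩ := Cl_bnd hp.dP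
  obtain ⟨C4, hC4, h4⟩ := Cl_bnd (Cl_der hp.E1)
  have a1 : 0 ≤ |3 * c0| := abs_nonneg _
  have a2 : 0 ≤ |f0| := abs_nonneg _
  have a3 : 0 ≤ |3 * c0| * (C1 + C3) := mul_nonneg a1 (add_nonneg hC1 hC3)
  have a4 : 0 ≤ |f0| * (C2 + C4) := mul_nonneg a2 (add_nonneg hC2 hC4)
  refine ⟨1 + |3 * c0| * (C1 + C3) + |f0| * (C2 + C4), by linarith, fun r hr y => ?_⟩
  have b1 := h1 y
  have b2 := h2 y
  have b3 := h3 y
  have b4 := h4 y
  rw [bd_zero, mul_one] at b1 b2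
  rw [bd_abs] at b3 b4
  have hE : deriv (fun z => E z - 1) y = deriv E y := deriv_sub_const (1 : ℝ)
  rw [hE] at b4
  have r4 : (0:ℝ) < r ^ 4 := by positivity
  have e0 := Real.exp_pos (-(3 / 4 * |y|))
  have d1 : ∀ a p c : ℝ, |p| ≤ c → |a * r ^ 4 * p| ≤ |a| * c * r ^ 4 := by
    intro a p c hpc
    rw [abs_mul, abs_mul, abs_of_pos r4]
    nlinarith [mul_le_mul_of_nonneg_left hpc (mul_nonneg (abs_nonneg a) r4.le)]
  constructor
  · unfold hf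
    have c1 := abs_add_le (3 * c0 * r ^ 4 * P y) (f0 * r ^ 4 * E y)
    have c2 := d1 (3 * c0) _ _ b1
    have c3 := d1 f0 _ _ b2
    have c4 : 0 ≤ |3 * c0| * C3 * r ^ 4 := by positivity
    have c5 : 0 ≤ |f0| * C4 * r ^ 4 := by positivity
    nlinarith
  · have hd : HasDerivAt (hf P E (3 * c0 * r ^ 4) (f0 * r ^ 4))
        (3 * c0 * r ^ 4 * deriv P y + f0 * r ^ 4 * deriv E y) y :=
      ((Cl_hd hp.cP y).const_mul _).add ((Cl_hd (E_cl hp) y).const_mul _)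
    rw [hd.deriv]
    have c1 := abs_add_le (3 * c0 * r ^ 4 * deriv P y) (f0 * r ^ 4 * deriv E y)
    have c2 := d1 (3 * c0) _ _ b3
    have c3 := d1 f0 _ _ b4
    have c4 : 0 ≤ |3 * c0| * C1 * r ^ 4 * Real.exp (-(3 / 4 * |y|)) := by positivity
    have c5 : 0 ≤ |f0| * C2 * r ^ 4 * Real.exp (-(3 / 4 * |y|)) := by positivity
    have c6 : 0 ≤ r ^ 4 * Real.exp (-(3 / 4 * |y|)) := by positivity
    nlinarith

theorem INb_d {P E : ℝ → ℝ} (hp : Prof P E) {w1 r : ℝ} (h : 0 < w1) (y : ℝ) :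
    HasDerivAt (hk4 P E w1 r)
      (deriv (hf P E (3 * c0 * r ^ 4) (f0 * r ^ 4)) y * kap4 w1 (r ^ 8 * y) +
        hf P E (3 * c0 * r ^ 4) (f0 * r ^ 4) y * (deriv (kap4 w1) (r ^ 8 * y) * r ^ 8)) y := by
  have h1 := Cl_hd (hf_cl hp (3 * c0 * r ^ 4) (f0 * r ^ 4)) y
  have h2 := Cl_hd (kap_cl h) (r ^ 8 * y)
  have h3 : HasDerivAt (fun z : ℝ => r ^ 8 * z) (r ^ 8) y := by
    simpa using (hasDerivAt_id y).const_mul (r ^ 8)
  have h4 : HasDerivAt (fun z : ℝ => kap4 w1 (r ^ 8 * z)) (deriv (kap4 w1) (r ^ 8 * y) * r ^ 8) y :=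
    h2.comp y h3
  exact h1.mul h4

theorem hk_le (hp : Prof P E) {Ch : ℝ} (hCh : 0 ≤ Ch) {w1 r : ℝ} (h : 0 < w1) (hr : 0 < r)
    (h0 : ∀ y, |hf P E (3 * c0 * r ^ 4) (f0 * r ^ 4) y| ≤ Ch * r ^ 4 ∧
      |deriv (hf P E (3 * c0 * r ^ 4) (f0 * r ^ 4)) y| ≤ Ch * r ^ 4 * Real.exp (-(3 / 4 * |y|)))
    (y : ℝ) :
    |hk4 P E w1 r y| ≤ Ch * r ^ 4 * kap4 w1 (r ^ 8 * y) ∧
    |hk4 P E w1 r y - hf P E (3 * c0 * r ^ 4) (f0 * r ^ 4) y| ≤ Ch * r ^ 4 * (r ^ 8 * y / w1) ^ 2 ∧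
    |deriv (hk4 P E w1 r) y| ≤ Ch * r ^ 4 * Real.exp (-(3 / 4 * |y|))
      + Ch * r ^ 12 / w1 * kap4 w1 (r ^ 8 * y) ∧
    |deriv (hk4 P E w1 r) y - deriv (hf P E (3 * c0 * r ^ 4) (f0 * r ^ 4)) y| ≤
      Ch * r ^ 4 * Real.exp (-(3 / 4 * |y|)) * (r ^ 8 * y / w1) ^ 2
        + Ch * r ^ 12 / w1 * kap4 w1 (r ^ 8 * y) := by
  obtain ⟨g1, g2⟩ := h0 y
  obtain ⟨k0, k1⟩ := kap_le w1 (r ^ 8 * y)
  have k2 := kap_one h (r ^ 8 * y)
  have k3 := kap_der h (r ^ 8 * y)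
  have hd := INb_d hp (r := r) h y
  set H := hf P E (3 * c0 * r ^ 4) (f0 * r ^ 4) y with hH
  set H' := deriv (hf P E (3 * c0 * r ^ 4) (f0 * r ^ 4)) y with hH'
  set κ := kap4 w1 (r ^ 8 * y) with hκ
  set κ' := deriv (kap4 w1) (r ^ 8 * y) with hκ'
  have hk : hk4 P E w1 r y = H * κ := rfl
  have r4 : (0:ℝ) < r ^ 4 := by positivity
  have r8 : (0:ℝ) < r ^ 8 := by positivity
  have e0 := Real.exp_pos (-(3 / 4 * |y|))
  have C0 : 0 ≤ Ch * r ^ 4 := by positivity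
  have m3 : |H * (κ' * r ^ 8)| ≤ Ch * r ^ 12 / w1 * κ := by
    rw [abs_mul, abs_mul, abs_of_pos r8]
    calc |H| * (|κ'| * r ^ 8) ≤ Ch * r ^ 4 * ((1 / w1 * κ) * r ^ 8) :=
          mul_le_mul g1 (mul_le_mul_of_nonneg_right k3 r8.le) (by positivity) C0
      _ = Ch * r ^ 12 / w1 * κ := by ring
  refine ⟨?_, ?_, ?_, ?_⟩
  · rw [hk, abs_mul, abs_of_pos k0]
    exact mul_le_mul_of_nonneg_right g1 k0.le
  · rw [hk, show H * κ - H = H * (κ - 1) by ring, abs_mul]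
    exact mul_le_mul g1 k2 (abs_nonneg _) C0
  · rw [hd.deriv]
    refine (abs_add_le _ _).trans (add_le_add ?_ m3)
    rw [abs_mul, abs_of_pos k0]
    calc |H'| * κ ≤ |H'| * 1 := mul_le_mul_of_nonneg_left k1 (abs_nonneg _)
      _ ≤ _ := by rw [mul_one]; exact g2
  · rw [hd.deriv, show H' * κ + H * (κ' * r ^ 8) - H' = H' * (κ - 1) + H * (κ' * r ^ 8) by ring]
    refine (abs_add_le _ _).trans (add_le_add ?_ m3)
    rw [abs_mul]
    exact mul_le_mul g2 k2 (abs_nonneg _) (by positivity)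

theorem hk_cl (hp : Prof P E) {w1 r : ℝ} (h : 0 < w1) (hr : 0 < r) :
    Cl (r ^ 8 / w1) (r ^ 8 / w1) (hk4 P E w1 r) := by
  exact Cl_mul0 (hf_cl hp (3 * c0 * r ^ 4) (f0 * r ^ 4)) (kapr_cl h hr)

theorem hk_int (hp : Prof P E) {Ch : ℝ} (hCh : 0 ≤ Ch) {w1 r : ℝ} (h : 0 < w1) (hr : 0 < r)
    (h0 : ∀ y, |hk4 P E w1 r y| ≤ Ch * r ^ 4 * kap4 w1 (r ^ 8 * y)) :
    (∫ y, (hk4 P E w1 r y) ^ 2) ≤ 4 * Ch ^ 2 * w1 := by
  obtain ⟨i1, i2⟩ := kap_int h hr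
  have r8 : (0:ℝ) < r ^ 8 := by positivity
  calc (∫ y, (hk4 P E w1 r y) ^ 2) ≤ ∫ y, Ch ^ 2 * r ^ 8 * (kap4 w1 (r ^ 8 * y)) ^ 2 := by
        refine integral_mono_of_nonneg (Eventually.of_forall fun y => sq_nonneg _)
          (i1.const_mul _) (Eventually.of_forall fun y => ?_)
        have h1 := h0 y
        have h2 := pow_le_pow_left₀ (abs_nonneg _) h1 2
        rw [sq_abs] at h2
        refine h2.trans (le_of_eq ?_)
        ring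
    _ = Ch ^ 2 * r ^ 8 * ∫ y, (kap4 w1 (r ^ 8 * y)) ^ 2 := integral_const_mul _ _
    _ ≤ Ch ^ 2 * r ^ 8 * (4 * w1 / r ^ 8) := mul_le_mul_of_nonneg_left i2 (by positivity)
    _ = 4 * Ch ^ 2 * w1 := by field_simp

end H68KC

end

end S_H68_KC_INb

section S_H68_KC_INc

/-!
# Row INc (MP_95be7d_K4): the datum `W0`: coefficients, orthogonality, classes

`ck1 = - (hk4,Q')/∫Q'²`, `ck2 = -(hk4,ρ)/(ΛQ,ρ)`, `W0 = Q + hk4 + ck1 Q' + ck2 ΛQ`.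

## Proofs
* `W0_eq`: definitions, `ring`.
* `ck_le`: `(h₀,Q') = 0`, `(h₀,ρ) = 0` (`Prof.PQ`, `ip_EQd`, `ip_Prho`, `ip_Erho`), so `(hk4,Q') = (hk4 - h₀, Q')`, and by `hk_le`
  `|(hk4 - h₀,ψ)| ≤ Ch r⁴ (r^8/w1)² ∫ y² |ψ| = C r^20`, `C = Ch ∫ y²|ψ| / w1²` (`ψ = Q', ρ` of class `1 1`, `3 3`).
* `W0_orth`: `(W0 - Q,Q') = (hk4,Q') + ck1 ∫Q'² + ck2 (ΛQ,Q') = 0` (`ip_LamQ_Qd`), `(W0-Q,ρ) = (hk4,ρ) + ck1 (Q',ρ) + ck2 (ΛQ,ρ) = 0`
  (`ip_Qdrho`, `ip_LamQrho ≠ 0`), and `(Q,Q') = 0` (`ip_Q_Qd`).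
* `W0_cl`: `Cl_add`, `hk_cl`, `Cl_smul`, `Sol2_Cd`, `Cl_LamQ` and `Cl_mono`; `μ = min (r^8/w1) (1/2)`.
* `dat_cl`: `dat4 x = r^{-4} (Q(x/r^8) + h₀(x/r^8) kap4 w1 x + ck1 Q'(x/r^8) + ck2 ΛQ(x/r^8))`; the class `p q` becomes `p/r^8`, `q/r^8` under
  `x ↦ x/r^8` (chain rule `iteratedDeriv_comp_const_mul`; see `H72KB.Cl_comp` in `Pool/Agent/H72/KB/ClB.lean` for a proof to copy), `kap_cl` with
  `1/w1 ≥ 1`, `1/r^8 ≥ 4/3` for `r ≤ 1/2`.
-/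

open MeasureTheory Filter Topology Set
open scoped ContDiff

noncomputable section

namespace H68KC

open H98KB

variable {P E : ℝ → ℝ}

def ck1 (P E : ℝ → ℝ) (w1 r : ℝ) : ℝ :=
  -(ip (hk4 P E w1 r) (deriv (Qf 4)) / (∫ y, (deriv (Qf 4) y) ^ 2))

def ck2 (P E : ℝ → ℝ) (w1 r : ℝ) : ℝ := -(ip (hk4 P E w1 r) rho / ip (Lam 4 (Qf 4)) rho)

theorem W0_eq (P E : ℝ → ℝ) (w1 r y : ℝ) : W0 P E w1 r y - Qf 4 y =
    hk4 P E w1 r y + ck1 P E w1 r * deriv (Qf 4) y + ck2 P E w1 r * Lam 4 (Qf 4) y := by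
  unfold W0 ck1 ck2
  ring

theorem INc_k : 1 ≤ 4 := by norm_num

theorem INc_y2 {φ : ℝ → ℝ} (hφ : Cl 1 1 φ) : Integrable (fun y => y ^ 2 * |φ y|) := by
  have hid := Cl_id (c := 1 / 4) (by norm_num)
  have h1 : Cl (-(1 / 4) + (-(1 / 4) + 1)) (-(1 / 4) + (-(1 / 4) + 1)) (fun y => y * (y * φ y)) :=
    Cl_mul hid (Cl_mul hid hφ)
  obtain ⟨C, hC0, hC⟩ := Cl_bnd h1
  have hc : Continuous φ := Cl_cont hφ
  refine int_of_bd (p := -(1 / 4) + (-(1 / 4) + 1)) (q := -(1 / 4) + (-(1 / 4) + 1))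
    ((continuous_id.pow 2).mul hc.abs) (by norm_num) (by norm_num) ⟨C, fun y => ?_⟩
  refine le_trans (le_of_eq ?_) (hC y)
  rw [abs_mul, abs_mul, abs_mul, abs_abs, abs_pow]
  ring

theorem INc_pair (hp : Prof P E) {w1 : ℝ} (h : 0 < w1) {φ : ℝ → ℝ} (hφ : Cl 1 1 φ)
    (hP : ip P φ = 0) (hE : ip E φ = 0) :
    ∃ C : ℝ, 0 ≤ C ∧ ∀ r, 0 < r → r ≤ 1 → |ip (hk4 P E w1 r) φ| ≤ C * r ^ 20 := by
  obtain ⟨Ch, hCh1, hCh⟩ := h0_le hp
  have hI0 : 0 ≤ ∫ y, y ^ 2 * |φ y| :=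
    integral_nonneg (fun y => mul_nonneg (sq_nonneg y) (abs_nonneg _))
  have hI := INc_y2 hφ
  refine ⟨Ch / w1 ^ 2 * ∫ y, y ^ 2 * |φ y|, by positivity, fun r hr _ => ?_⟩
  have hk := hk_cl hp h hr
  have hr8 : 0 ≤ r ^ 8 / w1 := by positivity
  have i1 : Integrable (fun y => hk4 P E w1 r y * φ y) := MOa_i hr8 hr8 hk hφ
  have i2 : Integrable (fun y => P y * φ y) := MOa_i le_rfl le_rfl hp.cP hφ
  have i3 : Integrable (fun y => E y * φ y) := MOa_i le_rfl le_rfl (E_cl hp) hφ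
  have e0 : ∫ y, hf P E (3 * c0 * r ^ 4) (f0 * r ^ 4) y * φ y = 0 := by
    have e1 : (fun y => hf P E (3 * c0 * r ^ 4) (f0 * r ^ 4) y * φ y)
        = fun y => 3 * c0 * r ^ 4 * (P y * φ y) + f0 * r ^ 4 * (E y * φ y) := by
      funext y; unfold hf; ring
    rw [e1, integral_add (i2.const_mul _) (i3.const_mul _), integral_const_mul, integral_const_mul]
    unfold ip at hP hE
    rw [hP, hE]
    ring
  have i4 : Integrable (fun y => hf P E (3 * c0 * r ^ 4) (f0 * r ^ 4) y * φ y) :=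
    MOa_i le_rfl le_rfl (hf_cl hp _ _) hφ
  have e2 : ip (hk4 P E w1 r) φ =
      ∫ y, (hk4 P E w1 r y * φ y - hf P E (3 * c0 * r ^ 4) (f0 * r ^ 4) y * φ y) := by
    rw [integral_sub i1 i4, e0]
    unfold ip
    ring
  rw [e2]
  have b1 : |∫ y, (hk4 P E w1 r y * φ y - hf P E (3 * c0 * r ^ 4) (f0 * r ^ 4) y * φ y)| ≤
      ∫ y, |hk4 P E w1 r y * φ y - hf P E (3 * c0 * r ^ 4) (f0 * r ^ 4) y * φ y| :=
    abs_integral_le_integral_abs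
  refine b1.trans ?_
  have b2 : (∫ y, |hk4 P E w1 r y * φ y - hf P E (3 * c0 * r ^ 4) (f0 * r ^ 4) y * φ y|) ≤
      ∫ y, Ch * r ^ 20 / w1 ^ 2 * (y ^ 2 * |φ y|) := by
    refine integral_mono (i1.sub i4).abs (hI.const_mul _) (fun y => ?_)
    show |hk4 P E w1 r y * φ y - hf P E (3 * c0 * r ^ 4) (f0 * r ^ 4) y * φ y| ≤
      Ch * r ^ 20 / w1 ^ 2 * (y ^ 2 * |φ y|)
    have h2 := (hk_le hp (by linarith) h hr (hCh r hr) y).2.1
    rw [← sub_mul, abs_mul]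
    have h3 := mul_le_mul_of_nonneg_right h2 (abs_nonneg (φ y))
    refine h3.trans (le_of_eq ?_)
    field_simp
  refine b2.trans (le_of_eq ?_)
  rw [integral_const_mul]
  ring

theorem ck_le (hp : Prof P E) {w1 : ℝ} (h : 0 < w1) : ∃ C : ℝ, 1 ≤ C ∧ ∀ r, 0 < r → r ≤ 1 →
    |ck1 P E w1 r| ≤ C * r ^ 20 ∧ |ck2 P E w1 r| ≤ C * r ^ 20 := by
  obtain ⟨C1, hC1, h1⟩ := INc_pair hp h (Sol2_Cd (k := 4) INc_k) hp.PQ (ip_EQd hp)
  obtain ⟨C2, hC2, h2⟩ := INc_pair hp h MOa_rho (ip_Prho hp) (ip_Erho hp)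
  have hD : 0 < ∫ y, (deriv (Qf 4) y) ^ 2 := Qd2_pos (k := 4) INc_k
  refine ⟨1 + C1 / (∫ y, (deriv (Qf 4) y) ^ 2) + C2 / (1 / 2 * ∫ y, (deriv (Qf 4) y) ^ 2),
    ?_, fun r hr hr1 => ⟨?_, ?_⟩⟩
  · have a1 : 0 ≤ C1 / (∫ y, (deriv (Qf 4) y) ^ 2) := by positivity
    have a2 : 0 ≤ C2 / (1 / 2 * ∫ y, (deriv (Qf 4) y) ^ 2) := by positivity
    linarith
  · unfold ck1
    rw [abs_neg, abs_div, abs_of_pos hD]
    have a1 : |ip (hk4 P E w1 r) (deriv (Qf 4))| / (∫ y, (deriv (Qf 4) y) ^ 2) ≤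
        C1 * r ^ 20 / (∫ y, (deriv (Qf 4) y) ^ 2) :=
      div_le_div_of_nonneg_right (h1 r hr hr1) hD.le
    refine a1.trans ?_
    have a2 : 0 ≤ C2 / (1 / 2 * ∫ y, (deriv (Qf 4) y) ^ 2) := by positivity
    have a3 : C1 * r ^ 20 / (∫ y, (deriv (Qf 4) y) ^ 2) =
        C1 / (∫ y, (deriv (Qf 4) y) ^ 2) * r ^ 20 := by ring
    rw [a3]
    exact mul_le_mul_of_nonneg_right (by linarith) (by positivity)
  · unfold ck2
    rw [ip_LamQrho]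
    have hD2 : 0 < 1 / 2 * ∫ y, (deriv (Qf 4) y) ^ 2 := by positivity
    rw [abs_neg, abs_div, abs_of_pos hD2]
    have a1 : |ip (hk4 P E w1 r) rho| / (1 / 2 * ∫ y, (deriv (Qf 4) y) ^ 2) ≤
        C2 * r ^ 20 / (1 / 2 * ∫ y, (deriv (Qf 4) y) ^ 2) :=
      div_le_div_of_nonneg_right (h2 r hr hr1) hD2.le
    refine a1.trans ?_
    have a2 : 0 ≤ C1 / (∫ y, (deriv (Qf 4) y) ^ 2) := by positivity
    have a3 : C2 * r ^ 20 / (1 / 2 * ∫ y, (deriv (Qf 4) y) ^ 2) =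
        C2 / (1 / 2 * ∫ y, (deriv (Qf 4) y) ^ 2) * r ^ 20 := by ring
    rw [a3]
    exact mul_le_mul_of_nonneg_right (by linarith) (by positivity)

theorem INc_cl (hp : Prof P E) {w1 r : ℝ} (h : 0 < w1) (hr : 0 < r) :
    Cl (min (r ^ 8 / w1) (1 / 2)) (min (r ^ 8 / w1) (1 / 2)) (fun y => W0 P E w1 r y - Qf 4 y) := by
  have e : (fun y => W0 P E w1 r y - Qf 4 y) = fun y =>
      hk4 P E w1 r y + ck1 P E w1 r * deriv (Qf 4) y + ck2 P E w1 r * Lam 4 (Qf 4) y := by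
    funext y; exact W0_eq P E w1 r y
  rw [e]
  have m1 : min (r ^ 8 / w1) (1 / 2) ≤ r ^ 8 / w1 := min_le_left _ _
  have m2 : min (r ^ 8 / w1) (1 / 2) ≤ 1 / 2 := min_le_right _ _
  have m3 : min (r ^ 8 / w1) (1 / 2) ≤ 1 := m2.trans (by norm_num)
  refine Cl_add (Cl_add (Cl_mono (hk_cl hp h hr) m1 m1)
    (Cl_smul _ (Cl_mono (Sol2_Cd (k := 4) INc_k) m3 m3))) (Cl_smul _ ?_)
  exact Cl_mono PRg_Lam m2 m2

theorem INc_ip (hp : Prof P E) {w1 r : ℝ} (h : 0 < w1) (hr : 0 < r) {φ : ℝ → ℝ} (hφ : Cl 1 1 φ) :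
    ip (fun y => W0 P E w1 r y - Qf 4 y) φ = ip (hk4 P E w1 r) φ
      + ck1 P E w1 r * ip (deriv (Qf 4)) φ + ck2 P E w1 r * ip (Lam 4 (Qf 4)) φ := by
  have hr8 : 0 ≤ r ^ 8 / w1 := by positivity
  have i1 : Integrable (fun y => hk4 P E w1 r y * φ y) := MOa_i hr8 hr8 (hk_cl hp h hr) hφ
  have i2 : Integrable (fun y => deriv (Qf 4) y * φ y) :=
    MOa_i zero_le_one zero_le_one (Sol2_Cd (k := 4) INc_k) hφ
  have i3 : Integrable (fun y => Lam 4 (Qf 4) y * φ y) :=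
    MOa_i (by norm_num) (by norm_num) PRg_Lam hφ
  unfold ip
  have e : (fun y => (W0 P E w1 r y - Qf 4 y) * φ y) = fun y => (hk4 P E w1 r y * φ y
      + ck1 P E w1 r * (deriv (Qf 4) y * φ y)) + ck2 P E w1 r * (Lam 4 (Qf 4) y * φ y) := by
    funext y; rw [W0_eq]; ring
  have i4 : Integrable (fun y => hk4 P E w1 r y * φ y
      + ck1 P E w1 r * (deriv (Qf 4) y * φ y)) := i1.add (i2.const_mul _)
  rw [e, integral_add i4 (i3.const_mul _),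
    integral_add i1 (i2.const_mul _), integral_const_mul, integral_const_mul]

theorem W0_orth (hp : Prof P E) {w1 r : ℝ} (h : 0 < w1) (hr : 0 < r) :
    ip (W0 P E w1 r) (deriv (Qf 4)) = 0 ∧ ip (fun y => W0 P E w1 r y - Qf 4 y) rho = 0 := by
  have hD : 0 < ∫ y, (deriv (Qf 4) y) ^ 2 := Qd2_pos (k := 4) INc_k
  have hmp : 0 < min (r ^ 8 / w1) (1 / 2) := lt_min (by positivity) (by norm_num)
  constructor
  · have h1 := (ep_Qd (s := r) hp hmp hmp (INc_cl hp h hr)).2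
    rw [← h1, INc_ip hp h hr (Sol2_Cd (k := 4) INc_k), ip_LamQ_Qd INc_k]
    have e : ip (deriv (Qf 4)) (deriv (Qf 4)) = ∫ y, (deriv (Qf 4) y) ^ 2 := by
      unfold ip
      refine integral_congr_ae (Filter.Eventually.of_forall (fun y => ?_))
      show deriv (Qf 4) y * deriv (Qf 4) y = deriv (Qf 4) y ^ 2
      ring
    rw [e]
    unfold ck1
    field_simp
    ring
  · rw [INc_ip hp h hr MOa_rho, ip_Qdrho]
    unfold ck2
    have hD2 : ip (Lam 4 (Qf 4)) rho ≠ 0 := by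
      rw [ip_LamQrho]
      positivity
    field_simp
    ring

theorem W0_cl (hp : Prof P E) {w1 r : ℝ} (h : 0 < w1) (hr : 0 < r) :
    Cl (min (r ^ 8 / w1) (1 / 2)) (min (r ^ 8 / w1) (1 / 2)) (fun y => W0 P E w1 r y - Qf 4 y) :=
  INc_cl hp h hr

theorem INc_comp {p q l : ℝ} {f : ℝ → ℝ} (hl : 0 ≤ l) (hf : Cl p q f) :
    Cl (l * p) (l * q) (fun y => f (l * y)) := by
  refine ⟨hf.1.comp (contDiff_const.mul contDiff_fun_id), fun j => ?_⟩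
  obtain ⟨C, hC0, hC⟩ := Cl_bndj hf j
  refine ⟨l ^ j * C, fun y => ?_⟩
  have h1 := congrFun (iteratedDeriv_comp_const_mul (contDiff_infty.1 hf.1 j) l) y
  have h2 : bd p q (l * y) = bd (l * p) (l * q) y := by
    unfold bd
    have e1 : max (l * y) 0 = l * max y 0 := by
      rw [mul_max_of_nonneg _ _ hl, mul_zero]
    have e2 : max (-(l * y)) 0 = l * max (-y) 0 := by
      rw [mul_max_of_nonneg _ _ hl, mul_zero, mul_neg]
    rw [e1, e2]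
    ring_nf
  rw [h1, abs_mul, abs_of_nonneg (pow_nonneg hl j), mul_assoc, ← h2]
  exact mul_le_mul_of_nonneg_left (hC _) (pow_nonneg hl j)

theorem dat_cl (hp : Prof P E) {w1 r : ℝ} (h : 0 < w1) (h1 : w1 ≤ 1 / 4) (hr : 0 < r) (hr1 : r ≤ 1 / 2) :
    Cl 4 4 (dat4 P E w1 r) := by
  have hr8 : 0 < r ^ 8 := by positivity
  have hr8' : r ^ 8 ≤ 3 / 16 := by
    have := pow_le_pow_left₀ hr.le hr1 8
    norm_num at this
    linarith
  have hl : 0 ≤ 1 / r ^ 8 := by positivity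
  have hl1 : 4 ≤ 1 / r ^ 8 * (3 / 4) := by
    rw [one_div, inv_mul_eq_div, le_div_iff₀ hr8]
    linarith
  have hl2 : 4 ≤ 1 / r ^ 8 * 1 := by linarith
  have hw : 4 ≤ 1 / w1 := by
    rw [le_div_iff₀ h]
    linarith
  have e : dat4 P E w1 r = fun x => 1 / r ^ 4 *
      (((Qf 4 (1 / r ^ 8 * x) + hf P E (3 * c0 * r ^ 4) (f0 * r ^ 4) (1 / r ^ 8 * x) * kap4 w1 x)
        + ck1 P E w1 r * deriv (Qf 4) (1 / r ^ 8 * x))
        + ck2 P E w1 r * Lam 4 (Qf 4) (1 / r ^ 8 * x)) := by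
    funext x
    have e1 : x / r ^ 8 = 1 / r ^ 8 * x := by ring
    have e2 := W0_eq P E w1 r (1 / r ^ 8 * x)
    have e3 : r ^ 8 * (1 / r ^ 8 * x) = x := by field_simp
    unfold dat4
    rw [e1]
    unfold hk4 at e2
    rw [e3] at e2
    have e4 : W0 P E w1 r (1 / r ^ 8 * x) =
        ((Qf 4 (1 / r ^ 8 * x) + hf P E (3 * c0 * r ^ 4) (f0 * r ^ 4) (1 / r ^ 8 * x) * kap4 w1 x)
        + ck1 P E w1 r * deriv (Qf 4) (1 / r ^ 8 * x))
        + ck2 P E w1 r * Lam 4 (Qf 4) (1 / r ^ 8 * x) := by linarith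
    rw [e4]
  rw [e]
  have c1 : Cl 4 4 (fun x => Qf 4 (1 / r ^ 8 * x)) :=
    Cl_mono (INc_comp hl (Cl_Qf (k := 4) INc_k)) hl2 hl2
  have c2 : Cl 4 4 (fun x => deriv (Qf 4) (1 / r ^ 8 * x)) :=
    Cl_mono (INc_comp hl (Sol2_Cd (k := 4) INc_k)) hl2 hl2
  have c3 : Cl 4 4 (fun x => Lam 4 (Qf 4) (1 / r ^ 8 * x)) :=
    Cl_mono (INc_comp hl PRe_CL) hl1 hl1
  have c4 : Cl (1 / r ^ 8 * 0) (1 / r ^ 8 * 0)
      (fun x => hf P E (3 * c0 * r ^ 4) (f0 * r ^ 4) (1 / r ^ 8 * x)) :=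
    INc_comp hl (hf_cl hp _ _)
  rw [mul_zero] at c4
  have c5 : Cl 4 4 (fun x => hf P E (3 * c0 * r ^ 4) (f0 * r ^ 4) (1 / r ^ 8 * x) * kap4 w1 x) :=
    Cl_mono (Cl_mul0 c4 (kap_cl h)) hw hw
  exact Cl_smul _ (Cl_add (Cl_add (Cl_add c1 c5) (Cl_smul _ c2)) (Cl_smul _ c3))

end H68KC

end

end S_H68_KC_INc

section S_H68_KC_INd

/-!
# Row INd (MP_95be7d_K4): `α` and `b` of the datum

## Proofs
* `pw_int`: `∫_1^2 630 (ξ-1)^4 (2-ξ)^4 dξ = 1` (expand the polynomial, or substitute `x = ξ - 1`: `∫_0^1 x^4 (1-x)^4 = 1/630`), `0 ≤ pw ≤ 630` on `[1,2]`.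
* `exp_small`: `e^{-z} ≤ n! / z^n` (from `z^n/n! ≤ e^z`, `Real.pow_div_factorial_le_exp`), with `z = 3/(4 r²)`, `n = 10`: `e^{-3/(4r²)} ≤ C r^20`.
* `alf_W0`: for `ξ ∈ [1,2]`, `y = ξ/r² ≥ 1/r²`: `|W0 y - f₀ r⁴| ≤ |Q y| + 3c₀ r⁴ |P y| + |f₀| r⁴ |E y - 1| + |hk4 y - h₀ y| + |ck1 Q'| + |ck2 ΛQ| ≤ C r^16`:
  the first three by `Qf_hi`, `Prof.P0`, `Prof.E1` (`Cl_bnd`, `bd_of_nonneg`) and `exp_small`; `|hk4 - h₀| ≤ Ch r⁴ (r^8 · 2/(r² w1))² = 4 Ch r^16/w1²`.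
  Then `alf - f₀ r⁴ = ∫ (W0(ξ/r²) - f₀ r⁴) pw` by `pw_int`.
* `bq_W0`: `(W0 - Q,Q) = (hk4,Q)` because `(Q',Q) = 0`, `(ΛQ,Q) = 0` (`ip_LamQ_Q`, `sc 4 = 0`); `(hk4,Q) = (h₀,Q) + O(r^20)` as in `ck_le`;
  `(h₀,Q) = 3c₀ r⁴ I²/16 + f₀ r⁴ I/4` (`ip_PQ`, `ip_EQ`). So `bq - 3c₀ r⁴ = (16/I²)(O(r^20) - (alf - f₀ r⁴) I/4)`.
-/

open MeasureTheory Filter Topology Set
open scoped ContDiff

noncomputable section

namespace H68KC

open H98KB

variable {P E : ℝ → ℝ}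

theorem pw_int : (∫ ξ in (1:ℝ)..2, pw ξ) = 1 := by
  have h1 : (∫ ξ in (1:ℝ)..2, pw ξ) = ∫ x in (0:ℝ)..1, pw (x + 1) := by
    rw [intervalIntegral.integral_comp_add_right (fun x => pw x) 1]
    norm_num
  rw [h1]
  have h2 : (fun x : ℝ => pw (x + 1)) =
      fun x => 630 * x ^ 4 - 2520 * x ^ 5 + 3780 * x ^ 6 - 2520 * x ^ 7 + 630 * x ^ 8 := by
    funext x
    simp only [pw]
    ring
  rw [h2]
  have i : ∀ (c : ℝ) (n : ℕ), IntervalIntegrable (fun x : ℝ => c * x ^ n) volume 0 1 := fun c n =>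
    (Continuous.intervalIntegrable (by fun_prop) _ _)
  rw [intervalIntegral.integral_add ((((i _ _).sub (i _ _)).add (i _ _)).sub (i _ _)) (i _ _),
    intervalIntegral.integral_sub (((i _ _).sub (i _ _)).add (i _ _)) (i _ _),
    intervalIntegral.integral_add ((i _ _).sub (i _ _)) (i _ _),
    intervalIntegral.integral_sub (i _ _) (i _ _)]
  simp only [intervalIntegral.integral_const_mul, integral_pow]
  norm_num

theorem pw_bd {ξ : ℝ} (h : ξ ∈ Icc (1:ℝ) 2) : 0 ≤ pw ξ ∧ pw ξ ≤ 630 := by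
  obtain ⟨h1, h2⟩ := h
  have a1 : 0 ≤ ξ - 1 := by linarith
  have a2 : ξ - 1 ≤ 1 := by linarith
  have b1 : 0 ≤ 2 - ξ := by linarith
  have b2 : 2 - ξ ≤ 1 := by linarith
  have a3 : (ξ - 1) ^ 4 ≤ 1 := pow_le_one₀ a1 a2
  have b3 : (2 - ξ) ^ 4 ≤ 1 := pow_le_one₀ b1 b2
  have a4 : 0 ≤ (ξ - 1) ^ 4 := by positivity
  have b4 : 0 ≤ (2 - ξ) ^ 4 := by positivity
  unfold pw
  refine ⟨by positivity, ?_⟩
  nlinarith [mul_le_one₀ a3 b4 b3]

theorem exp_small : ∃ C : ℝ, 1 ≤ C ∧ ∀ r y : ℝ, 0 < r → 1 / r ^ 2 ≤ y →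
    Real.exp (-(3 / 4) * y) ≤ C * r ^ 20 := by
  refine ⟨(Nat.factorial 10 : ℝ) * (4 / 3) ^ 10, ?_, fun r y hr hy => ?_⟩
  · norm_num [Nat.factorial]
  have hz : 0 < 3 / 4 * (1 / r ^ 2) := by positivity
  have h1 : Real.exp (-(3 / 4) * y) ≤ Real.exp (-(3 / 4 * (1 / r ^ 2))) := by
    apply Real.exp_le_exp.mpr
    linarith
  refine h1.trans ?_
  have h2 := Real.pow_div_factorial_le_exp (3 / 4 * (1 / r ^ 2)) hz.le 10
  have hf : (0 : ℝ) < (Nat.factorial 10 : ℝ) := by positivity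
  rw [Real.exp_neg]
  have h3 : 0 < (3 / 4 * (1 / r ^ 2)) ^ 10 / (Nat.factorial 10 : ℝ) := by positivity
  have h4 := inv_anti₀ h3 h2
  refine h4.trans (le_of_eq ?_)
  field_simp

theorem INd_ck (hp : Prof P E) {w1 : ℝ} (h : 0 < w1) : ∃ C : ℝ, 0 ≤ C ∧ ∀ r, 0 < r → r ≤ 1 →
    ∀ y, |ck1 P E w1 r * deriv (Qf 4) y + ck2 P E w1 r * Lam 4 (Qf 4) y| ≤ C * r ^ 20 := by
  obtain ⟨C, hC1, hC⟩ := ck_le hp h
  obtain ⟨A, hA0, hA⟩ := Cl_bnd (Cl_mono (Sol2_Cd (k := 4) (by norm_num)) (p' := 0) (q' := 0)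
    (by norm_num) (by norm_num))
  obtain ⟨B, hB0, hB⟩ := Cl_bnd (Cl_LamQ (k := 4) (by norm_num) (c := 0) (by norm_num))
  refine ⟨C * A + C * B, by positivity, fun r hr hr1 y => ?_⟩
  obtain ⟨c1, c2⟩ := hC r hr hr1
  have a1 := hA y
  have b1 := hB y
  rw [bd_zero, mul_one] at a1 b1
  have hCr : 0 ≤ C * r ^ 20 := by positivity
  calc |ck1 P E w1 r * deriv (Qf 4) y + ck2 P E w1 r * Lam 4 (Qf 4) y|
      ≤ |ck1 P E w1 r * deriv (Qf 4) y| + |ck2 P E w1 r * Lam 4 (Qf 4) y| := abs_add_le _ _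
    _ = |ck1 P E w1 r| * |deriv (Qf 4) y| + |ck2 P E w1 r| * |Lam 4 (Qf 4) y| := by
        rw [abs_mul, abs_mul]
    _ ≤ C * r ^ 20 * A + C * r ^ 20 * B :=
        add_le_add (mul_le_mul c1 a1 (abs_nonneg _) hCr) (mul_le_mul c2 b1 (abs_nonneg _) hCr)
    _ = (C * A + C * B) * r ^ 20 := by ring

theorem INd_h0 (hp : Prof P E) : ∃ C : ℝ, 0 ≤ C ∧ ∀ r, 0 < r → r ≤ 1 → ∀ y, 1 / r ^ 2 ≤ y →
    |Qf 4 y + (hf P E (3 * c0 * r ^ 4) (f0 * r ^ 4) y - f0 * r ^ 4)| ≤ C * r ^ 20 := by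
  obtain ⟨K, hK1, hK⟩ := exp_small
  obtain ⟨A, hA0, hA⟩ := Qf_hi (k := 4) (by norm_num)
  obtain ⟨B, hB⟩ := hp.P0
  obtain ⟨D, hD0, hD⟩ := Cl_bnd hp.E1
  refine ⟨(A + |3 * c0| * |B| + |f0| * D) * K, by positivity, fun r hr hr1 y hy => ?_⟩
  have hy0 : 0 ≤ y := le_trans (by positivity) hy
  have e0 := hK r y hr hy
  have ep : 0 < Real.exp (-(3 / 4) * y) := Real.exp_pos _
  have a1 : |Qf 4 y| ≤ A * Real.exp (-(3 / 4) * y) := by
    rw [abs_of_pos (Qf_pos 4 y)]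
    refine (hA y).trans (mul_le_mul_of_nonneg_left ?_ hA0.le)
    apply Real.exp_le_exp.mpr
    rw [abs_of_nonneg hy0]
    linarith
  have b1 : |P y| ≤ |B| * Real.exp (-(3 / 4) * y) :=
    (hB y hy0).trans (mul_le_mul_of_nonneg_right (le_abs_self B) ep.le)
  have d1 : |E y - 1| ≤ D * Real.exp (-(3 / 4) * y) := by
    have h1 := hD y
    rw [bd_of_nonneg hy0] at h1
    have e1 : -(3 / 4 * y) = -(3 / 4) * y := by ring
    rwa [e1] at h1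
  have hr4 : r ^ 4 ≤ 1 := pow_le_one₀ hr.le hr1
  have hr40 : 0 < r ^ 4 := by positivity
  have e1 : Qf 4 y + (hf P E (3 * c0 * r ^ 4) (f0 * r ^ 4) y - f0 * r ^ 4) =
      Qf 4 y + ((3 * c0) * P y + f0 * (E y - 1)) * r ^ 4 := by
    unfold hf
    ring
  have h2 : |(3 * c0) * P y + f0 * (E y - 1)| ≤
      (|3 * c0| * |B| + |f0| * D) * Real.exp (-(3 / 4) * y) := by
    calc |(3 * c0) * P y + f0 * (E y - 1)| ≤ |(3 * c0) * P y| + |f0 * (E y - 1)| := abs_add_le _ _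
      _ = |3 * c0| * |P y| + |f0| * |E y - 1| := by rw [abs_mul (3 * c0), abs_mul f0]
      _ ≤ |3 * c0| * (|B| * Real.exp (-(3 / 4) * y)) + |f0| * (D * Real.exp (-(3 / 4) * y)) :=
          add_le_add (mul_le_mul_of_nonneg_left b1 (abs_nonneg _))
            (mul_le_mul_of_nonneg_left d1 (abs_nonneg _))
      _ = (|3 * c0| * |B| + |f0| * D) * Real.exp (-(3 / 4) * y) := by ring
  have hG : 0 ≤ |3 * c0| * |B| + |f0| * D := by positivity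
  rw [e1]
  calc |Qf 4 y + ((3 * c0) * P y + f0 * (E y - 1)) * r ^ 4|
      ≤ |Qf 4 y| + |((3 * c0) * P y + f0 * (E y - 1)) * r ^ 4| := abs_add_le _ _
    _ = |Qf 4 y| + |(3 * c0) * P y + f0 * (E y - 1)| * r ^ 4 := by
        rw [abs_mul _ (r ^ 4), abs_of_pos hr40]
    _ ≤ |Qf 4 y| + |(3 * c0) * P y + f0 * (E y - 1)| * 1 :=
        add_le_add le_rfl (mul_le_mul_of_nonneg_left hr4 (abs_nonneg _))
    _ ≤ A * Real.exp (-(3 / 4) * y) + (|3 * c0| * |B| + |f0| * D) * Real.exp (-(3 / 4) * y) := by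
        rw [mul_one]
        exact add_le_add a1 h2
    _ = (A + |3 * c0| * |B| + |f0| * D) * Real.exp (-(3 / 4) * y) := by ring
    _ ≤ (A + |3 * c0| * |B| + |f0| * D) * (K * r ^ 20) :=
        mul_le_mul_of_nonneg_left e0 (by positivity)
    _ = (A + |3 * c0| * |B| + |f0| * D) * K * r ^ 20 := by ring

theorem INd_pt (hp : Prof P E) {w1 : ℝ} (h : 0 < w1) : ∃ C : ℝ, 0 ≤ C ∧ ∀ r, 0 < r → r ≤ 1 →
    ∀ y, 1 / r ^ 2 ≤ y → y ≤ 2 / r ^ 2 → |W0 P E w1 r y - f0 * r ^ 4| ≤ C * r ^ 16 := by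
  obtain ⟨C1, hC10, hC1⟩ := INd_ck hp h
  obtain ⟨C2, hC20, hC2⟩ := INd_h0 hp
  obtain ⟨Ch, hCh, hh0⟩ := h0_le hp
  refine ⟨C1 + C2 + Ch * 4 / w1 ^ 2, by positivity, fun r hr hr1 y hy1 hy2 => ?_⟩
  have hCh0 : 0 ≤ Ch := by linarith
  have hy0 : 0 < y := lt_of_lt_of_le (by positivity) hy1
  have k1 := (hk_le hp hCh0 h hr (fun z => hh0 r hr z) y).2.1
  have k2 : (r ^ 8 * y / w1) ^ 2 ≤ (2 * r ^ 6 / w1) ^ 2 := by
    have q0 : r ^ 8 * y ≤ 2 * r ^ 6 := by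
      have q1 : r ^ 8 * y ≤ r ^ 8 * (2 / r ^ 2) := mul_le_mul_of_nonneg_left hy2 (by positivity)
      have q2 : r ^ 8 * (2 / r ^ 2) = 2 * r ^ 6 := by field_simp
      linarith
    have q3 : r ^ 8 * y / w1 ≤ 2 * r ^ 6 / w1 := div_le_div_of_nonneg_right q0 h.le
    exact pow_le_pow_left₀ (by positivity) q3 2
  have k3 : |hk4 P E w1 r y - hf P E (3 * c0 * r ^ 4) (f0 * r ^ 4) y| ≤ Ch * 4 / w1 ^ 2 * r ^ 16 := by
    refine k1.trans ((mul_le_mul_of_nonneg_left k2 (by positivity)).trans (le_of_eq ?_))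
    field_simp
    ring
  have a1 := hC1 r hr hr1 y
  have a2 := hC2 r hr hr1 y hy1
  have hr20 : r ^ 20 ≤ r ^ 16 := pow_le_pow_of_le_one hr.le hr1 (by norm_num)
  have e1 : W0 P E w1 r y - f0 * r ^ 4 =
      (ck1 P E w1 r * deriv (Qf 4) y + ck2 P E w1 r * Lam 4 (Qf 4) y)
      + (Qf 4 y + (hf P E (3 * c0 * r ^ 4) (f0 * r ^ 4) y - f0 * r ^ 4))
      + (hk4 P E w1 r y - hf P E (3 * c0 * r ^ 4) (f0 * r ^ 4) y) := by
    have q := W0_eq P E w1 r y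
    linarith
  rw [e1]
  refine (abs_add_three _ _ _).trans ?_
  have a3 : C1 * r ^ 20 ≤ C1 * r ^ 16 := mul_le_mul_of_nonneg_left hr20 hC10
  have a4 : C2 * r ^ 20 ≤ C2 * r ^ 16 := mul_le_mul_of_nonneg_left hr20 hC20
  have e2 : (C1 + C2 + Ch * 4 / w1 ^ 2) * r ^ 16 =
      C1 * r ^ 16 + C2 * r ^ 16 + Ch * 4 / w1 ^ 2 * r ^ 16 := by ring
  rw [e2]
  linarith

theorem INd_W0_cont (hp : Prof P E) {w1 r : ℝ} (h : 0 < w1) (hr : 0 < r) :
    Continuous (W0 P E w1 r) := by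
  have h1 := Cl_cont (W0_cl hp h hr)
  have h2 := Cl_cont (Cl_Qf (k := 4) (by norm_num))
  have h3 := h1.add h2
  refine h3.congr fun y => ?_
  change (W0 P E w1 r y - Qf 4 y) + Qf 4 y = W0 P E w1 r y
  ring

theorem alf_W0 (hp : Prof P E) {w1 : ℝ} (h : 0 < w1) : ∃ C : ℝ, 1 ≤ C ∧ ∀ r, 0 < r → r ≤ 1 →
    |alf (r ^ 2) (W0 P E w1 r) - f0 * r ^ 4| ≤ C * r ^ 16 := by
  obtain ⟨C, hC0, hC⟩ := INd_pt hp h
  refine ⟨630 * C + 1, by linarith, fun r hr hr1 => ?_⟩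
  have hc := INd_W0_cont hp h hr
  have hpw : Continuous pw := by
    unfold pw
    fun_prop
  have hc2 : Continuous (fun ξ : ℝ => W0 P E w1 r (ξ / r ^ 2)) :=
    hc.comp (continuous_id.div_const _)
  have i1 : IntervalIntegrable (fun ξ : ℝ => W0 P E w1 r (ξ / r ^ 2) * pw ξ) volume 1 2 :=
    (hc2.mul hpw).intervalIntegrable _ _
  have i2 : IntervalIntegrable (fun ξ : ℝ => f0 * r ^ 4 * pw ξ) volume 1 2 :=
    (continuous_const.mul hpw).intervalIntegrable _ _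
  have e1 : alf (r ^ 2) (W0 P E w1 r) - f0 * r ^ 4 =
      ∫ ξ in (1:ℝ)..2, (W0 P E w1 r (ξ / r ^ 2) * pw ξ - f0 * r ^ 4 * pw ξ) := by
    rw [intervalIntegral.integral_sub i1 i2, intervalIntegral.integral_const_mul, pw_int, mul_one]
    rfl
  rw [e1]
  have b1 : ∀ ξ ∈ Set.uIoc (1:ℝ) 2,
      ‖W0 P E w1 r (ξ / r ^ 2) * pw ξ - f0 * r ^ 4 * pw ξ‖ ≤ 630 * (C * r ^ 16) := by
    intro ξ hξ
    rw [Set.uIoc_of_le (by norm_num)] at hξ
    obtain ⟨p0, p1⟩ := pw_bd (ξ := ξ) ⟨hξ.1.le, hξ.2⟩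
    have w1' := hC r hr hr1 (ξ / r ^ 2) (div_le_div_of_nonneg_right hξ.1.le (by positivity))
      (div_le_div_of_nonneg_right hξ.2 (by positivity))
    rw [← sub_mul, Real.norm_eq_abs, abs_mul, abs_of_nonneg p0, mul_comm (630 : ℝ)]
    exact mul_le_mul w1' p1 p0 (by positivity)
  have b2 := intervalIntegral.norm_integral_le_of_norm_le_const b1
  rw [Real.norm_eq_abs] at b2
  refine b2.trans ?_
  have r16 : 0 ≤ r ^ 16 := by positivity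
  have e2 : |(2:ℝ) - 1| = 1 := by norm_num
  rw [e2]
  nlinarith

theorem INd_dh (hp : Prof P E) {w1 : ℝ} (h : 0 < w1) : ∃ C : ℝ, 0 ≤ C ∧ ∀ r, 0 < r → r ≤ 1 →
    |ip (hk4 P E w1 r) (Qf 4) - ip (hf P E (3 * c0 * r ^ 4) (f0 * r ^ 4)) (Qf 4)| ≤ C * r ^ 16 := by
  obtain ⟨Ch, hCh, hh0⟩ := h0_le hp
  have hQ : Cl 1 1 (Qf 4) := Cl_Qf (k := 4) (by norm_num)
  have hid : Cl (-(1 / 4)) (-(1 / 4)) (fun y : ℝ => y) := Cl_id (by norm_num)
  have iy : Integrable (fun y => y * (y * Qf 4 y)) :=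
    Cl_int (Cl_mul hid (Cl_mul hid hQ)) (by norm_num) (by norm_num)
  have hI : 0 ≤ ∫ y, y * (y * Qf 4 y) := by
    refine integral_nonneg fun y => ?_
    change 0 ≤ y * (y * Qf 4 y)
    rw [← mul_assoc]
    exact mul_nonneg (mul_self_nonneg y) (Qf_pos 4 y).le
  refine ⟨Ch / w1 ^ 2 * ∫ y, y * (y * Qf 4 y), by positivity, fun r hr hr1 => ?_⟩
  have hCh0 : 0 ≤ Ch := by linarith
  have hr8 : 0 < r ^ 8 / w1 := by positivity
  have i1 : Integrable (fun y => hk4 P E w1 r y * Qf 4 y) :=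
    Cl_int (Cl_mul (hk_cl hp h hr) hQ) (by linarith) (by linarith)
  have i2 : Integrable (fun y => hf P E (3 * c0 * r ^ 4) (f0 * r ^ 4) y * Qf 4 y) :=
    Cl_int (Cl_mul (hf_cl hp _ _) hQ) (by norm_num) (by norm_num)
  unfold ip
  rw [← integral_sub i1 i2]
  have b1 : |∫ y, (hk4 P E w1 r y * Qf 4 y - hf P E (3 * c0 * r ^ 4) (f0 * r ^ 4) y * Qf 4 y)| ≤
      ∫ y, |hk4 P E w1 r y * Qf 4 y - hf P E (3 * c0 * r ^ 4) (f0 * r ^ 4) y * Qf 4 y| :=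
    abs_integral_le_integral_abs
  refine b1.trans ?_
  have b2 : ∫ y, |hk4 P E w1 r y * Qf 4 y - hf P E (3 * c0 * r ^ 4) (f0 * r ^ 4) y * Qf 4 y| ≤
      ∫ y, (Ch / w1 ^ 2 * r ^ 20) * (y * (y * Qf 4 y)) := by
    refine integral_mono (i1.sub i2).abs (iy.const_mul _) fun y => ?_
    change |hk4 P E w1 r y * Qf 4 y - hf P E (3 * c0 * r ^ 4) (f0 * r ^ 4) y * Qf 4 y| ≤
      (Ch / w1 ^ 2 * r ^ 20) * (y * (y * Qf 4 y))
    rw [← sub_mul, abs_mul, abs_of_pos (Qf_pos 4 y)]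
    have k1 := (hk_le hp hCh0 h hr (fun z => hh0 r hr z) y).2.1
    refine (mul_le_mul_of_nonneg_right k1 (Qf_pos 4 y).le).trans (le_of_eq ?_)
    field_simp
  refine b2.trans ?_
  rw [integral_const_mul]
  have hr20 : r ^ 20 ≤ r ^ 16 := pow_le_pow_of_le_one hr.le hr1 (by norm_num)
  have q1 : 0 ≤ Ch / w1 ^ 2 * ∫ y, y * (y * Qf 4 y) := by positivity
  calc Ch / w1 ^ 2 * r ^ 20 * ∫ y, y * (y * Qf 4 y)
      = (Ch / w1 ^ 2 * ∫ y, y * (y * Qf 4 y)) * r ^ 20 := by ring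
    _ ≤ (Ch / w1 ^ 2 * ∫ y, y * (y * Qf 4 y)) * r ^ 16 := mul_le_mul_of_nonneg_left hr20 q1

theorem INd_ipW (hp : Prof P E) {w1 r : ℝ} (h : 0 < w1) (hr : 0 < r) :
    ip (fun y => W0 P E w1 r y - Qf 4 y) (Qf 4) = ip (hk4 P E w1 r) (Qf 4) := by
  have hQ : Cl 1 1 (Qf 4) := Cl_Qf (k := 4) (by norm_num)
  have hr8 : 0 < r ^ 8 / w1 := by positivity
  have i1 : Integrable (fun y => hk4 P E w1 r y * Qf 4 y) :=
    Cl_int (Cl_mul (hk_cl hp h hr) hQ) (by linarith) (by linarith)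
  have i2 : Integrable (fun y => deriv (Qf 4) y * Qf 4 y) :=
    Cl_int (Cl_mul (Sol2_Cd (k := 4) (by norm_num)) hQ) (by norm_num) (by norm_num)
  have i3 : Integrable (fun y => Lam 4 (Qf 4) y * Qf 4 y) :=
    Cl_int (Cl_mul (Cl_LamQ (k := 4) (by norm_num) (c := 0) (by norm_num)) hQ)
      (by norm_num) (by norm_num)
  have e1 : ip (fun y => W0 P E w1 r y - Qf 4 y) (Qf 4) =
      ∫ y, (hk4 P E w1 r y * Qf 4 y + ck1 P E w1 r * (deriv (Qf 4) y * Qf 4 y)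
        + ck2 P E w1 r * (Lam 4 (Qf 4) y * Qf 4 y)) := by
    unfold ip
    congr 1
    funext y
    change (W0 P E w1 r y - Qf 4 y) * Qf 4 y = _
    rw [W0_eq]
    ring
  have j1 : (∫ y, deriv (Qf 4) y * Qf 4 y) = 0 := by
    have h1 := ip_Q_Qd (k := 4) (by norm_num)
    unfold ip at h1
    rw [← h1]
    congr 1
    funext y
    ring
  have j2 : (∫ y, Lam 4 (Qf 4) y * Qf 4 y) = 0 := by
    have h1 := ip_LamQ_Q (k := 4) (by norm_num)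
    unfold ip at h1
    rw [h1]
    have h2 : sc 4 = 0 := by
      unfold sc
      norm_num
    rw [h2]
    ring
  have k1 := integral_add (i1.add (i2.const_mul (ck1 P E w1 r))) (i3.const_mul (ck2 P E w1 r))
  have k2 := integral_add i1 (i2.const_mul (ck1 P E w1 r))
  simp only [Pi.add_apply] at k1 k2
  rw [e1, k1, k2, integral_const_mul, integral_const_mul, j1, j2]
  unfold ip
  ring

theorem INd_iph (hp : Prof P E) (b a : ℝ) :
    ip (hf P E b a) (Qf 4) = b * (Iq ^ 2 / 16) + a * (Iq / 4) := by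
  have hQ : Cl 1 1 (Qf 4) := Cl_Qf (k := 4) (by norm_num)
  have i1 : Integrable (fun y => P y * Qf 4 y) :=
    Cl_int (Cl_mul hp.cP hQ) (by norm_num) (by norm_num)
  have i2 : Integrable (fun y => E y * Qf 4 y) :=
    Cl_int (Cl_mul (E_cl hp) hQ) (by norm_num) (by norm_num)
  have e1 : ip (hf P E b a) (Qf 4) = ∫ y, (b * (P y * Qf 4 y) + a * (E y * Qf 4 y)) := by
    unfold ip hf
    congr 1
    funext y
    ring
  have k2 := integral_add (i1.const_mul b) (i2.const_mul a)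
  have p1 := ip_PQ hp
  have p2 := ip_EQ hp
  unfold ip at p1 p2
  rw [e1, k2, integral_const_mul, integral_const_mul, p1, p2]

theorem bq_W0 (hp : Prof P E) {w1 : ℝ} (h : 0 < w1) : ∃ C : ℝ, 1 ≤ C ∧ ∀ r, 0 < r → r ≤ 1 →
    |bq (r ^ 2) (W0 P E w1 r) - 3 * c0 * r ^ 4| ≤ C * r ^ 16 := by
  obtain ⟨C1, hC1, hA⟩ := alf_W0 hp h
  obtain ⟨C2, hC2, hB⟩ := INd_dh hp h
  have hI := Iq_pos
  refine ⟨(C2 + C1 * (Iq / 4)) * (16 / Iq ^ 2) + 1, ?_, fun r hr hr1 => ?_⟩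
  · have q : 0 ≤ (C2 + C1 * (Iq / 4)) * (16 / Iq ^ 2) := by positivity
    linarith
  have a1 := hA r hr hr1
  have b1 := hB r hr hr1
  rw [INd_iph hp] at b1
  have e1 : bq (r ^ 2) (W0 P E w1 r) - 3 * c0 * r ^ 4 =
      ((ip (hk4 P E w1 r) (Qf 4) - (3 * c0 * r ^ 4 * (Iq ^ 2 / 16) + f0 * r ^ 4 * (Iq / 4)))
        - (alf (r ^ 2) (W0 P E w1 r) - f0 * r ^ 4) * (Iq / 4)) * (16 / Iq ^ 2) := by
    unfold bq
    rw [INd_ipW hp h hr]
    field_simp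
    ring
  rw [e1, abs_mul, abs_of_pos (by positivity : 0 < 16 / Iq ^ 2)]
  have r16 : 0 ≤ r ^ 16 := by positivity
  have c1 : |(ip (hk4 P E w1 r) (Qf 4) - (3 * c0 * r ^ 4 * (Iq ^ 2 / 16) + f0 * r ^ 4 * (Iq / 4)))
        - (alf (r ^ 2) (W0 P E w1 r) - f0 * r ^ 4) * (Iq / 4)| ≤
      C2 * r ^ 16 + C1 * r ^ 16 * (Iq / 4) := by
    refine (abs_sub _ _).trans (add_le_add b1 ?_)
    rw [abs_mul, abs_of_pos (by positivity : 0 < Iq / 4)]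
    exact mul_le_mul_of_nonneg_right a1 (by positivity)
  refine (mul_le_mul_of_nonneg_right c1 (by positivity)).trans ?_
  have e2 : ((C2 + C1 * (Iq / 4)) * (16 / Iq ^ 2) + 1) * r ^ 16 =
      (C2 * r ^ 16 + C1 * r ^ 16 * (Iq / 4)) * (16 / Iq ^ 2) + r ^ 16 := by ring
  rw [e2]
  linarith

end H68KC

end

end S_H68_KC_INd

section S_H68_KC_INe

/-!
# Row INe (MP_95be7d_K4): perturbation of `W0` in `H¹`: parameters, `ε`, the norm `G4`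

`ω = W - W0` of class `μ μ` (some `μ > 0`), `ne2 ω = ∫ (ω² + ω'²)`, `s = r²`.

## Proofs
* `om_sup`: `sup_le`: `ω² ≤ 2 √∫ω² √∫ω'² ≤ 2 ne2 ω`.
* `alf_pert`: `alf s W - alf s W0 = ∫_1^2 ω(ξ/s) pw ξ`, absolute value `≤ sup |ω| ≤ √(2 ne2 ω)` (`pw ≥ 0`, `∫ pw = 1`).
* `bq_pert`: `bq s W - bq s W0 = (16/I²)((ω,Q) - (alf s W - alf s W0) I/4)`, Cauchy-Schwarz (`cs_int`).
* `ep_pert`: `ε(W) = hk4 - h₀ + ck1 Q' + ck2 ΛQ - (bq s W - 3c₀r⁴) P - (alf s W - f₀r⁴) E + ω` (`W0_eq`, definitions, `ring`). With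
  `|bq s W - 3 c₀ r⁴|, |alf s W - f₀ r⁴| ≤ C (r^16 + √(ne2 ω))`.
  `sup`: `|hk4 - h₀| ≤ 2 Ch r⁴`. 
* `G4_pert`: `G4 = ∫ om4 (ε² + ε'²)`, `0 ≤ om4 B s y ≤ Z(r² y) ≤ 4 e^{-2|r² y - 2|} ≤ 4 e^4 e^{-2 r²|y|}`, so `∫ om4 ≤ C r^{-2}`, `∫ om4 y⁴ ≤ C r^{-10}`; `(a₁+…+a₆)² ≤ 6 Σ a_i²`:
  `∫ om4 (hk4-h₀)² ≤ Ch² r^8 (r^8/w1)^4 C r^{-10} ≤ C r^30`; derivative: `Ch² r^8 ∫ e^{-3|y|/2}(r^8 y/w1)^4 + Ch² r^24/w1² ∫ om4 ≤ C r^22`;
  `ck` terms `≤ C r^40`; parameters: `C (r^32 + ne2 ω) r^{-2}`; `ω`: `∫ om4 (ω² + ω'²) ≤ 4 e^4 ne2 ω`. Total `≤ C (r^22 + ne2 ω / r²)` for `r ≤ 1`.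
-/

open MeasureTheory Filter Topology Set
open scoped ContDiff

noncomputable section

namespace H68KC

open H98KB

variable {P E : ℝ → ℝ}

theorem INe_sq {p q : ℝ} {g : ℝ → ℝ} (h : Cl p q g) (hp : 0 < p) (hq : 0 < q) :
    Integrable (fun y => (g y) ^ 2) :=
  Cl_int (Cl_pow' h hp.le hq.le 2 (by norm_num)) hp hq

theorem INe_nn (g : ℝ → ℝ) : 0 ≤ ne2 g := integral_nonneg fun y => by positivity

theorem INe_eq {μ : ℝ} (hμ : 0 < μ) {g : ℝ → ℝ} (h : Cl μ μ g) :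
    ne2 g = (∫ y, (g y) ^ 2) + ∫ y, (deriv g y) ^ 2 :=
  integral_add (INe_sq h hμ hμ) (INe_sq (Cl_der h) hμ hμ)

theorem INe_A {μ : ℝ} (hμ : 0 < μ) {g : ℝ → ℝ} (h : Cl μ μ g) : (∫ y, (g y) ^ 2) ≤ ne2 g := by
  rw [INe_eq hμ h]
  have : 0 ≤ ∫ y, (deriv g y) ^ 2 := integral_nonneg fun y => by positivity
  linarith

theorem INe_B {μ : ℝ} (hμ : 0 < μ) {g : ℝ → ℝ} (h : Cl μ μ g) : (∫ y, (deriv g y) ^ 2) ≤ ne2 g := by
  rw [INe_eq hμ h]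
  have : 0 ≤ ∫ y, (g y) ^ 2 := integral_nonneg fun y => by positivity
  linarith

theorem om_sup {μ : ℝ} (hμ : 0 < μ) {g : ℝ → ℝ} (h : Cl μ μ g) (y : ℝ) : (g y) ^ 2 ≤ 2 * ne2 g := by
  have h1 := sup_le h hμ hμ y
  have h2 : √(∫ z, g z ^ 2) * √(∫ z, deriv g z ^ 2) ≤ ne2 g := by
    calc √(∫ z, g z ^ 2) * √(∫ z, deriv g z ^ 2) ≤ √(ne2 g) * √(ne2 g) :=
          mul_le_mul (Real.sqrt_le_sqrt (INe_A hμ h)) (Real.sqrt_le_sqrt (INe_B hμ h))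
            (Real.sqrt_nonneg _) (Real.sqrt_nonneg _)
      _ = ne2 g := Real.mul_self_sqrt (INe_nn g)
  have h3 : 2 * √(∫ z, g z ^ 2) * √(∫ z, deriv g z ^ 2) =
      2 * (√(∫ z, g z ^ 2) * √(∫ z, deriv g z ^ 2)) := by ring
  linarith

theorem INe_abs {μ : ℝ} (hμ : 0 < μ) {g : ℝ → ℝ} (h : Cl μ μ g) (y : ℝ) : |g y| ≤ 2 * √(ne2 g) := by
  apply abs_le_of_sq_le_sq _ (by positivity)
  rw [mul_pow, Real.sq_sqrt (INe_nn g)]
  have h1 := om_sup hμ h y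
  have h2 := INe_nn g
  linarith

theorem INe_W {μ : ℝ} (hμ : 0 < μ) {W : ℝ → ℝ} (h : Cl μ μ (fun y => W y - Qf 4 y)) : Cl 0 0 W := by
  have h1 := Cl_add (Cl_mono h hμ.le hμ.le) (Cl_mono MOa_Q (p' := 0) (q' := 0) (by norm_num) (by norm_num))
  simpa only [sub_add_cancel] using h1

theorem INe_mu {w1 r : ℝ} (h : 0 < w1) (hr : 0 < r) : 0 < min (r ^ 8 / w1) (1 / 2) := by positivity

theorem INe_pw : Continuous pw := by
  unfold pw
  fun_prop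

/-- auxiliary class facts: everything in this row may use `W0_cl` -/
theorem par_pert (hp : Prof P E) {w1 : ℝ} (h : 0 < w1) : ∃ C : ℝ, 1 ≤ C ∧ ∀ (r μ : ℝ) (W : ℝ → ℝ),
    0 < r → r ≤ 1 → 0 < μ → Cl μ μ (fun y => W y - Qf 4 y) →
    Cl μ μ (fun y => W y - W0 P E w1 r y) →
    |alf (r ^ 2) W - f0 * r ^ 4| ≤ C * (r ^ 16 + √(ne2 (fun y => W y - W0 P E w1 r y))) ∧
    |bq (r ^ 2) W - 3 * c0 * r ^ 4| ≤ C * (r ^ 16 + √(ne2 (fun y => W y - W0 P E w1 r y))) := by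
  obtain ⟨C1, hC1, h1⟩ := alf_W0 hp h
  obtain ⟨C2, hC2, h2⟩ := bq_W0 hp h
  have hI := Iq_pos
  have hK : 0 ≤ (√(∫ y, (Qf 4 y) ^ 2) + Iq / 2) * (16 / Iq ^ 2) := by positivity
  refine ⟨C1 + C2 + 2 + (√(∫ y, (Qf 4 y) ^ 2) + Iq / 2) * (16 / Iq ^ 2), by linarith, ?_⟩
  intro r μ W hr hr1 hμ hW hv
  have g1 := h1 r hr hr1
  have g2 := h2 r hr hr1
  set vv : ℝ → ℝ := fun y => W y - W0 P E w1 r y with hvd
  have hN := INe_nn vv
  set N := ne2 vv with hNd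
  have hsN : 0 ≤ √N := Real.sqrt_nonneg _
  have hr16 : 0 ≤ r ^ 16 := by positivity
  set s := r ^ 2 with hsd
  have cW : Continuous W := Cl_cont (INe_W hμ hW)
  have cW0 : Continuous (W0 P E w1 r) := Cl_cont (INe_W (INe_mu h hr) (W0_cl hp h hr))
  have cd : Continuous fun ξ : ℝ => ξ / s := by fun_prop
  have c1 : Continuous fun ξ => W (ξ / s) * pw ξ := (cW.comp cd).mul INe_pw
  have c2 : Continuous fun ξ => W0 P E w1 r (ξ / s) * pw ξ := (cW0.comp cd).mul INe_pw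
  have ea : alf s W - alf s (W0 P E w1 r) = ∫ ξ in (1:ℝ)..2, vv (ξ / s) * pw ξ := by
    unfold alf
    rw [← intervalIntegral.integral_sub (c1.intervalIntegrable _ _) (c2.intervalIntegrable _ _)]
    congr 1
    funext ξ
    rw [hvd]
    ring
  have ha : |alf s W - alf s (W0 P E w1 r)| ≤ 2 * √N := by
    rw [ea]
    have c3 : Continuous fun ξ => vv (ξ / s) * pw ξ := by
      have : Continuous vv := Cl_cont hv
      exact (this.comp cd).mul INe_pw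
    refine (intervalIntegral.abs_integral_le_integral_abs (by norm_num)).trans ?_
    have k1 : ∫ ξ in (1:ℝ)..2, |vv (ξ / s) * pw ξ| ≤ ∫ ξ in (1:ℝ)..2, 2 * √N * pw ξ := by
      refine intervalIntegral.integral_mono_on (by norm_num) (c3.abs.intervalIntegrable _ _)
        ((continuous_const.mul INe_pw).intervalIntegrable _ _) ?_
      intro ξ hξ
      have k2 := (pw_bd hξ).1
      rw [abs_mul, abs_of_nonneg k2]
      exact mul_le_mul_of_nonneg_right (INe_abs hμ hv _) k2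
    rw [intervalIntegral.integral_const_mul, pw_int, mul_one] at k1
    exact k1
  have i1 : Integrable (fun y => (W y - Qf 4 y) * Qf 4 y) := MOa_i hμ.le hμ.le hW MOa_Q
  have i2 : Integrable (fun y => (W0 P E w1 r y - Qf 4 y) * Qf 4 y) :=
    MOa_i (INe_mu h hr).le (INe_mu h hr).le (W0_cl hp h hr) MOa_Q
  have ei : ip (fun y => W y - Qf 4 y) (Qf 4) - ip (fun y => W0 P E w1 r y - Qf 4 y) (Qf 4) =
      ∫ y, vv y * Qf 4 y := by
    unfold ip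
    rw [← integral_sub i1 i2]
    congr 1
    funext y
    rw [hvd]
    ring
  have hi : |∫ y, vv y * Qf 4 y| ≤ √N * √(∫ y, (Qf 4 y) ^ 2) := by
    have k := (cs_int (Cl_cont hv) (Cl_cont MOa_Q) (INe_sq hv hμ hμ)
      (INe_sq MOa_Q one_pos one_pos)).2
    refine k.trans (mul_le_mul_of_nonneg_right (Real.sqrt_le_sqrt (INe_A hμ hv)) (Real.sqrt_nonneg _))
  have hb : |bq s W - bq s (W0 P E w1 r)| ≤
      (√(∫ y, (Qf 4 y) ^ 2) + Iq / 2) * (16 / Iq ^ 2) * √N := by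
    have e : bq s W - bq s (W0 P E w1 r) =
        ((∫ y, vv y * Qf 4 y) - (alf s W - alf s (W0 P E w1 r)) * (Iq / 4)) * (16 / Iq ^ 2) := by
      unfold bq
      rw [← ei]
      ring
    rw [e, abs_mul, abs_of_pos (by positivity : 0 < 16 / Iq ^ 2)]
    have k1 : |(∫ y, vv y * Qf 4 y) - (alf s W - alf s (W0 P E w1 r)) * (Iq / 4)| ≤
        √N * √(∫ y, (Qf 4 y) ^ 2) + 2 * √N * (Iq / 4) := by
      refine (abs_sub _ _).trans (add_le_add hi ?_)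
      rw [abs_mul, abs_of_pos (by positivity : 0 < Iq / 4)]
      exact mul_le_mul_of_nonneg_right ha (by positivity)
    calc _ ≤ (√N * √(∫ y, (Qf 4 y) ^ 2) + 2 * √N * (Iq / 4)) * (16 / Iq ^ 2) :=
          mul_le_mul_of_nonneg_right k1 (by positivity)
      _ = _ := by ring
  set K := (√(∫ y, (Qf 4 y) ^ 2) + Iq / 2) * (16 / Iq ^ 2) with hKd
  have q1 : 0 ≤ K * r ^ 16 := by positivity
  have q2 : 0 ≤ K * √N := by positivity
  have q3 : 0 ≤ C1 * √N := by positivity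
  have q4 : 0 ≤ C2 * √N := by positivity
  have q5 : 0 ≤ C1 * r ^ 16 := by positivity
  have q6 : 0 ≤ C2 * r ^ 16 := by positivity
  constructor
  · have e : alf s W - f0 * r ^ 4 = (alf s W - alf s (W0 P E w1 r)) + (alf s (W0 P E w1 r) - f0 * r ^ 4) := by
      ring
    rw [e]
    refine (abs_add_le _ _).trans ?_
    nlinarith
  · have e : bq s W - 3 * c0 * r ^ 4 =
        (bq s W - bq s (W0 P E w1 r)) + (bq s (W0 P E w1 r) - 3 * c0 * r ^ 4) := by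
      ring
    rw [e]
    refine (abs_add_le _ _).trans ?_
    nlinarith

theorem INe_bd {f : ℝ → ℝ} (h : Cl 0 0 f) : ∃ C : ℝ, 0 ≤ C ∧ ∀ y, |f y| ≤ C := by
  obtain ⟨C, hC, hb⟩ := Cl_bnd h
  refine ⟨C, hC, fun y => ?_⟩
  have := hb y
  rwa [bd_zero, mul_one] at this

theorem INe_Q0 : Cl 0 0 (deriv (Qf 4)) := Cl_mono (Cl_der MOa_Q) (by norm_num) (by norm_num)

theorem INe_L0 : Cl 0 0 (Lam 4 (Qf 4)) :=
  Cl_mono PRg_Lam (by norm_num) (by norm_num)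

theorem sup_pert (hp : Prof P E) {w1 : ℝ} (h : 0 < w1) : ∃ C : ℝ, 1 ≤ C ∧ ∀ (r μ : ℝ) (W : ℝ → ℝ),
    0 < r → r ≤ 1 → 0 < μ → Cl μ μ (fun y => W y - Qf 4 y) →
    Cl μ μ (fun y => W y - W0 P E w1 r y) →
    ∀ y, |ep P E (r ^ 2) W y| ≤ C * (r ^ 4 + √(ne2 (fun y => W y - W0 P E w1 r y))) ∧
      |W y - Qf 4 y| ≤ C * (r ^ 4 + √(ne2 (fun y => W y - W0 P E w1 r y))) := by
  obtain ⟨Cp, hCp, hpar⟩ := par_pert hp h
  obtain ⟨Cc, hCc, hck⟩ := ck_le hp h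
  obtain ⟨Ch, hCh, hh0⟩ := h0_le hp
  obtain ⟨CQ, hCQ, hQ⟩ := INe_bd INe_Q0
  obtain ⟨CL, hCL, hL⟩ := INe_bd INe_L0
  obtain ⟨CP, hCP, hP⟩ := INe_bd hp.cP
  obtain ⟨CE, hCE, hE⟩ := INe_bd (E_cl hp)
  have hc0 : 0 ≤ c0 := by
    unfold c0 cnu
    have : 0 ≤ ∫ y, (deriv (Qf 4) y) ^ 2 := integral_nonneg fun y => by positivity
    positivity
  have hf0 := abs_nonneg f0
  refine ⟨(Ch + Cc * CQ + Cc * CL + 2) + ((3 * c0 + Cp) * CP + (|f0| + Cp) * CE), ?_, ?_⟩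
  · have t1 : 0 ≤ Cc * CQ := by positivity
    have t2 : 0 ≤ Cc * CL := by positivity
    have t3 : 0 ≤ (3 * c0 + Cp) * CP := by positivity
    have t4 : 0 ≤ (|f0| + Cp) * CE := by positivity
    linarith
  intro r μ W hr hr1 hμ hW hv y
  obtain ⟨ga, gb⟩ := hpar r μ W hr hr1 hμ hW hv
  obtain ⟨k1, k2⟩ := hck r hr hr1
  have hk := (hk_le hp (by linarith : 0 ≤ Ch) h hr (hh0 r hr) y).1
  have hv1 := INe_abs hμ hv y
  set vv : ℝ → ℝ := fun y => W y - W0 P E w1 r y with hvd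
  set N := √(ne2 vv) with hNd
  have hN : 0 ≤ N := Real.sqrt_nonneg _
  have hr4 : 0 ≤ r ^ 4 := by positivity
  have h20 : r ^ 20 ≤ r ^ 4 := pow_le_pow_of_le_one hr.le hr1 (by norm_num)
  have h16 : r ^ 16 ≤ r ^ 4 := pow_le_pow_of_le_one hr.le hr1 (by norm_num)
  have hkap := kap_le w1 (r ^ 8 * y)
  have b1 : |hk4 P E w1 r y| ≤ Ch * r ^ 4 := by
    refine hk.trans ?_
    have : 0 ≤ Ch * r ^ 4 := by positivity
    nlinarith [hkap.1, hkap.2]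
  have b2 : |ck1 P E w1 r * deriv (Qf 4) y| ≤ Cc * CQ * r ^ 4 := by
    rw [abs_mul]
    calc _ ≤ (Cc * r ^ 20) * CQ := mul_le_mul k1 (hQ y) (abs_nonneg _) (by positivity)
      _ ≤ (Cc * r ^ 4) * CQ := by gcongr
      _ = _ := by ring
  have b3 : |ck2 P E w1 r * Lam 4 (Qf 4) y| ≤ Cc * CL * r ^ 4 := by
    rw [abs_mul]
    calc _ ≤ (Cc * r ^ 20) * CL := mul_le_mul k2 (hL y) (abs_nonneg _) (by positivity)
      _ ≤ (Cc * r ^ 4) * CL := by gcongr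
      _ = _ := by ring
  have hWQ : |W y - Qf 4 y| ≤ (Ch + Cc * CQ + Cc * CL + 2) * (r ^ 4 + N) := by
    have e : W y - Qf 4 y = hk4 P E w1 r y + ck1 P E w1 r * deriv (Qf 4) y
        + ck2 P E w1 r * Lam 4 (Qf 4) y + vv y := by
      rw [← W0_eq P E w1 r y, hvd]
      ring
    rw [e]
    refine (abs_add_le _ _).trans ?_
    have t1 := abs_add_le (hk4 P E w1 r y + ck1 P E w1 r * deriv (Qf 4) y) (ck2 P E w1 r * Lam 4 (Qf 4) y)
    have t2 := abs_add_le (hk4 P E w1 r y) (ck1 P E w1 r * deriv (Qf 4) y)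
    have t3 : 0 ≤ (Ch + Cc * CQ + Cc * CL) * N := by positivity
    nlinarith
  have hha : |hf P E (bq (r ^ 2) W) (alf (r ^ 2) W) y| ≤
      ((3 * c0 + Cp) * CP + (|f0| + Cp) * CE) * (r ^ 4 + N) := by
    unfold hf
    have u1 : |bq (r ^ 2) W| ≤ (3 * c0 + Cp) * (r ^ 4 + N) := by
      have e : bq (r ^ 2) W = (bq (r ^ 2) W - 3 * c0 * r ^ 4) + 3 * c0 * r ^ 4 := by ring
      rw [e]
      refine (abs_add_le _ _).trans ?_
      rw [abs_of_nonneg (by positivity : 0 ≤ 3 * c0 * r ^ 4)]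
      have t1 : Cp * (r ^ 16 + N) ≤ Cp * (r ^ 4 + N) := by gcongr
      have t2 : 0 ≤ 3 * c0 * N := by positivity
      nlinarith
    have u2 : |alf (r ^ 2) W| ≤ (|f0| + Cp) * (r ^ 4 + N) := by
      have e : alf (r ^ 2) W = (alf (r ^ 2) W - f0 * r ^ 4) + f0 * r ^ 4 := by ring
      rw [e]
      refine (abs_add_le _ _).trans ?_
      rw [abs_mul f0, abs_of_nonneg hr4]
      have t1 : Cp * (r ^ 16 + N) ≤ Cp * (r ^ 4 + N) := by gcongr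
      have t2 : 0 ≤ |f0| * N := by positivity
      nlinarith
    refine (abs_add_le _ _).trans ?_
    rw [abs_mul, abs_mul]
    have v1 : |bq (r ^ 2) W| * |P y| ≤ ((3 * c0 + Cp) * (r ^ 4 + N)) * CP :=
      mul_le_mul u1 (hP y) (abs_nonneg _) (by positivity)
    have v2 : |alf (r ^ 2) W| * |E y| ≤ ((|f0| + Cp) * (r ^ 4 + N)) * CE :=
      mul_le_mul u2 (hE y) (abs_nonneg _) (by positivity)
    linarith
  have z1 : 0 ≤ (Ch + Cc * CQ + Cc * CL + 2) * (r ^ 4 + N) := by positivity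
  have z2 : 0 ≤ ((3 * c0 + Cp) * CP + (|f0| + Cp) * CE) * (r ^ 4 + N) := by positivity
  constructor
  · have e : ep P E (r ^ 2) W y = (W y - Qf 4 y) - hf P E (bq (r ^ 2) W) (alf (r ^ 2) W) y := rfl
    rw [e, add_mul]
    exact (abs_sub _ _).trans (add_le_add hWQ hha)
  · rw [add_mul]
    linarith

/-- the derivative of `ε` -/
theorem INe_dep (hp : Prof P E) {w1 r μ : ℝ} (h : 0 < w1) (hr : 0 < r) {W : ℝ → ℝ}
    (hv : Cl μ μ (fun y => W y - W0 P E w1 r y)) (y : ℝ) :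
    deriv (ep P E (r ^ 2) W) y =
      (deriv (hk4 P E w1 r) y - deriv (hf P E (3 * c0 * r ^ 4) (f0 * r ^ 4)) y)
      + (ck1 P E w1 r * deriv (deriv (Qf 4)) y + ck2 P E w1 r * deriv (Lam 4 (Qf 4)) y
      - (bq (r ^ 2) W - 3 * c0 * r ^ 4) * deriv P y - (alf (r ^ 2) W - f0 * r ^ 4) * deriv E y)
      + deriv (fun y => W y - W0 P E w1 r y) y := by
  have d1 := Cl_hd (hk_cl hp h hr) y
  have d2 := Cl_hd INe_Q0 y
  have d3 := Cl_hd INe_L0 y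
  have d4 := Cl_hd hp.cP y
  have d5 := Cl_hd (E_cl hp) y
  have d6 := Cl_hd hv y
  have d7 : HasDerivAt (hf P E (3 * c0 * r ^ 4) (f0 * r ^ 4))
      (3 * c0 * r ^ 4 * deriv P y + f0 * r ^ 4 * deriv E y) y :=
    (d4.const_mul _).add (d5.const_mul _)
  have e : ep P E (r ^ 2) W = fun y => hk4 P E w1 r y + ck1 P E w1 r * deriv (Qf 4) y
      + ck2 P E w1 r * Lam 4 (Qf 4) y + (W y - W0 P E w1 r y)
      - (bq (r ^ 2) W * P y + alf (r ^ 2) W * E y) := by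
    funext z
    have := W0_eq P E w1 r z
    unfold ep hf
    linarith
  have d8 := (((d1.add (d2.const_mul (ck1 P E w1 r))).add (d3.const_mul (ck2 P E w1 r))).add d6).sub
    ((d4.const_mul (bq (r ^ 2) W)).add (d5.const_mul (alf (r ^ 2) W)))
  have d9 : HasDerivAt (ep P E (r ^ 2) W) (deriv (hk4 P E w1 r) y + ck1 P E w1 r * deriv (deriv (Qf 4)) y
      + ck2 P E w1 r * deriv (Lam 4 (Qf 4)) y + deriv (fun y => W y - W0 P E w1 r y) y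
      - (bq (r ^ 2) W * deriv P y + alf (r ^ 2) W * deriv E y)) y := by
    rw [e]
    exact d8
  rw [d9.deriv, d7.deriv]
  ring

theorem INe_epeq {w1 r : ℝ} {W : ℝ → ℝ} (y : ℝ) :
    ep P E (r ^ 2) W y =
      (hk4 P E w1 r y - hf P E (3 * c0 * r ^ 4) (f0 * r ^ 4) y)
      + (ck1 P E w1 r * deriv (Qf 4) y + ck2 P E w1 r * Lam 4 (Qf 4) y
      - (bq (r ^ 2) W - 3 * c0 * r ^ 4) * P y - (alf (r ^ 2) W - f0 * r ^ 4) * E y)
      + (W y - W0 P E w1 r y) := by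
  have := W0_eq P E w1 r y
  unfold ep hf
  linarith

theorem INe_om {B s y : ℝ} (hs : 0 < s) :
    0 ≤ om4 B s y ∧ om4 B s y ≤ 4 * Real.exp 4 * Real.exp (-(2 * s * |y|)) := by
  have hT0 : 0 ≤ Th B y := by unfold Th; positivity
  have hT1 : Th B y ≤ 1 := by
    unfold Th
    rw [div_le_one (by positivity)]
    have := Real.exp_pos (-y / B)
    linarith
  have hZ0 : 0 ≤ Zf (s * y) := by unfold Zf; positivity
  have hZ1 : Zf (s * y) ≤ 4 * Real.exp 4 * Real.exp (-(2 * s * |y|)) := by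
    unfold Zf
    have h1 := Tan_sech_le (s * y - 2)
    have h2 : 0 ≤ 1 / Real.cosh (s * y - 2) := by positivity
    have h3 : |s * y| - 2 ≤ |s * y - 2| := by
      have := abs_sub_abs_le_abs_sub (s * y) 2
      rw [abs_of_pos (by norm_num : (0:ℝ) < 2)] at this
      exact this
    rw [abs_mul, abs_of_pos hs] at h3
    calc (1 / Real.cosh (s * y - 2)) ^ 2 ≤ (2 * Real.exp (-|s * y - 2|)) ^ 2 :=
          pow_le_pow_left₀ h2 h1 2
      _ = 4 * Real.exp (-(2 * |s * y - 2|)) := by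
          rw [mul_pow, ← Real.exp_nat_mul]
          norm_num
      _ ≤ 4 * Real.exp (4 + -(2 * s * |y|)) := by
          have : -(2 * |s * y - 2|) ≤ 4 + -(2 * s * |y|) := by linarith
          have := Real.exp_le_exp.2 this
          linarith
      _ = _ := by rw [Real.exp_add]; ring
  unfold om4
  refine ⟨mul_nonneg hT0 hZ0, ?_⟩
  calc Th B y * Zf (s * y) ≤ 1 * Zf (s * y) := mul_le_mul_of_nonneg_right hT1 hZ0
    _ ≤ _ := by rw [one_mul]; exact hZ1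

theorem INe_y4 {s : ℝ} (hs : 0 < s) (y : ℝ) :
    y ^ 4 * Real.exp (-(2 * s * |y|)) ≤ 24 / s ^ 4 * Real.exp (-(s * |y|)) := by
  have h1 := Real.pow_div_factorial_le_exp (s * |y|) (by positivity) 4
  have h2 : ((4 : ℕ).factorial : ℝ) = 24 := by norm_num [Nat.factorial]
  rw [h2, div_le_iff₀ (by norm_num)] at h1
  have h3 : y ^ 4 = |y| ^ 4 := by rw [← abs_pow, abs_of_nonneg (by positivity)]
  have h4 : Real.exp (-(2 * s * |y|)) = Real.exp (-(s * |y|)) * Real.exp (-(s * |y|)) := by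
    rw [← Real.exp_add]; congr 1; ring
  have h5 : Real.exp (s * |y|) * Real.exp (-(s * |y|)) = 1 := by
    rw [← Real.exp_add]; simp
  have h6 := Real.exp_pos (-(s * |y|))
  rw [h3, h4, div_mul_eq_mul_div, le_div_iff₀ (by positivity)]
  have h7 : (s * |y|) ^ 4 * Real.exp (-(s * |y|)) ≤ 24 := by
    calc _ ≤ (Real.exp (s * |y|) * 24) * Real.exp (-(s * |y|)) := mul_le_mul_of_nonneg_right h1 h6.le
      _ = 24 * (Real.exp (s * |y|) * Real.exp (-(s * |y|))) := by ring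
      _ = 24 := by rw [h5, mul_one]
  calc _ = ((s * |y|) ^ 4 * Real.exp (-(s * |y|))) * Real.exp (-(s * |y|)) := by ring
    _ ≤ 24 * Real.exp (-(s * |y|)) := mul_le_mul_of_nonneg_right h7 h6.le

theorem INe_int {s : ℝ} (hs : 0 < s) : Integrable (fun y : ℝ => Real.exp (-(s * |y|))) ∧
    ∫ y : ℝ, Real.exp (-(s * |y|)) = 2 / s := by
  constructor
  · have := bd_int hs hs
    refine this.congr (Eventually.of_forall fun y => ?_)
    exact bd_abs s y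
  · have h1 := integral_comp_abs (f := fun y => Real.exp (-(s * y)))
    rw [h1]
    have h2 := integral_exp_mul_Ioi (a := -s) (by linarith) 0
    simp only [neg_mul, mul_zero, Real.exp_zero] at h2
    rw [h2]
    field_simp

/-- algebra for the pointwise bound -/
theorem INe_alg {o eL eS F x D1 D2 om dom a b K R : ℝ} (ho0 : 0 ≤ o)
    (hF : F = 4 * Real.exp 4) (ho : o ≤ F * eL) (heL : 0 ≤ eL) (heL1 : eL ≤ 1) (hLS : eL ≤ eS)
    (hR : 0 ≤ R)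
    (ha : |a| ≤ K * x) (hb : |b| ≤ K * x)
    (hD1 : D1 ^ 2 * eL ≤ R * eS) (hD2 : D2 ^ 2 ≤ R) :
    o * ((D1 + a + om) ^ 2 + (D2 + b + dom) ^ 2) ≤
      (3 * F * (2 * R + 2 * K ^ 2 * x ^ 2)) * eS + 3 * F * (om ^ 2 + dom ^ 2) := by
  have hF0 : 0 < F := by rw [hF]; positivity
  have h1 : (D1 + a + om) ^ 2 ≤ 3 * (D1 ^ 2 + a ^ 2 + om ^ 2) := by
    nlinarith [sq_nonneg (D1 - a), sq_nonneg (D1 - om), sq_nonneg (a - om)]
  have h2 : (D2 + b + dom) ^ 2 ≤ 3 * (D2 ^ 2 + b ^ 2 + dom ^ 2) := by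
    nlinarith [sq_nonneg (D2 - b), sq_nonneg (D2 - dom), sq_nonneg (b - dom)]
  have ha2 : a ^ 2 ≤ K ^ 2 * x ^ 2 := by
    rw [← mul_pow, ← sq_abs a]
    exact pow_le_pow_left₀ (abs_nonneg _) ha 2
  have hb2 : b ^ 2 ≤ K ^ 2 * x ^ 2 := by
    rw [← mul_pow, ← sq_abs b]
    exact pow_le_pow_left₀ (abs_nonneg _) hb 2
  have heS : 0 ≤ eS := heL.trans hLS
  have hW0 : 0 ≤ om ^ 2 + dom ^ 2 := by positivity
  have hKx : 0 ≤ K ^ 2 * x ^ 2 := by positivity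
  have h3 : o * ((D1 + a + om) ^ 2 + (D2 + b + dom) ^ 2) ≤
      o * (3 * (D1 ^ 2 + (R + 2 * (K ^ 2 * x ^ 2)) + (om ^ 2 + dom ^ 2))) := by
    apply mul_le_mul_of_nonneg_left _ ho0
    linarith
  have h4 : o * D1 ^ 2 ≤ F * (R * eS) := by
    calc o * D1 ^ 2 ≤ F * eL * D1 ^ 2 := mul_le_mul_of_nonneg_right ho (by positivity)
      _ = F * (D1 ^ 2 * eL) := by ring
      _ ≤ _ := mul_le_mul_of_nonneg_left hD1 hF0.le
  have h5 : o ≤ F * eS := ho.trans (mul_le_mul_of_nonneg_left hLS hF0.le)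
  have h6 : o * (R + 2 * (K ^ 2 * x ^ 2)) ≤ F * eS * (R + 2 * (K ^ 2 * x ^ 2)) :=
    mul_le_mul_of_nonneg_right h5 (by positivity)
  have h7 : o ≤ F := ho.trans (by nlinarith)
  have h8 : o * (om ^ 2 + dom ^ 2) ≤ F * (om ^ 2 + dom ^ 2) := mul_le_mul_of_nonneg_right h7 hW0
  calc _ ≤ _ := h3
    _ = 3 * (o * D1 ^ 2) + 3 * (o * (R + 2 * (K ^ 2 * x ^ 2))) + 3 * (o * (om ^ 2 + dom ^ 2)) := by ring
    _ ≤ 3 * (F * (R * eS)) + 3 * (F * eS * (R + 2 * (K ^ 2 * x ^ 2))) + 3 * (F * (om ^ 2 + dom ^ 2)) := by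
        linarith
    _ = _ := by ring

theorem INe_bd2 {f : ℝ → ℝ} (h : Cl 0 0 f) : ∃ C : ℝ, 0 ≤ C ∧ ∀ y, |f y| ≤ C ∧ |deriv f y| ≤ C := by
  obtain ⟨C, hC, hb⟩ := INe_bd h
  obtain ⟨D, hD, hd⟩ := INe_bd (Cl_der h)
  exact ⟨C + D, by positivity, fun y => ⟨by linarith [hb y], by linarith [hd y]⟩⟩

theorem INe_par {c1 c2 B A q l p e K Cc Cp CQ CL CP CE t x : ℝ}
    (hK : K = Cc * (CQ + CL) + Cp * (CP + CE)) (hCc : 0 ≤ Cc) (hCp : 0 ≤ Cp) (_hCQ : 0 ≤ CQ) (_hCL : 0 ≤ CL)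
    (ht : 0 ≤ t) (htx : t ≤ x) (h1 : |c1| ≤ Cc * t) (h2 : |c2| ≤ Cc * t) (h3 : |B| ≤ Cp * x)
    (h4 : |A| ≤ Cp * x) (hq : |q| ≤ CQ) (hl : |l| ≤ CL) (hp : |p| ≤ CP) (he : |e| ≤ CE) :
    |c1 * q + c2 * l - B * p - A * e| ≤ K * x := by
  have hx : 0 ≤ x := ht.trans htx
  have t1 := abs_sub (c1 * q + c2 * l - B * p) (A * e)
  have t2 := abs_sub (c1 * q + c2 * l) (B * p)
  have t3 := abs_add_le (c1 * q) (c2 * l)
  have u1 : |c1 * q| ≤ (Cc * x) * CQ := by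
    rw [abs_mul]
    exact mul_le_mul (h1.trans (mul_le_mul_of_nonneg_left htx hCc)) hq (abs_nonneg _) (by positivity)
  have u2 : |c2 * l| ≤ (Cc * x) * CL := by
    rw [abs_mul]
    exact mul_le_mul (h2.trans (mul_le_mul_of_nonneg_left htx hCc)) hl (abs_nonneg _) (by positivity)
  have u3 : |B * p| ≤ (Cp * x) * CP := by
    rw [abs_mul]
    exact mul_le_mul h3 hp (abs_nonneg _) (by positivity)
  have u4 : |A * e| ≤ (Cp * x) * CE := by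
    rw [abs_mul]
    exact mul_le_mul h4 he (abs_nonneg _) (by positivity)
  rw [hK]
  linarith

theorem INe_y2 (y : ℝ) : y ^ 2 * Real.exp (-(3 / 4 * |y|)) ≤ 4 := by
  have h1 := Real.pow_div_factorial_le_exp (3 / 4 * |y|) (by positivity) 2
  have h2 : ((2 : ℕ).factorial : ℝ) = 2 := by norm_num [Nat.factorial]
  rw [h2, div_le_iff₀ (by norm_num)] at h1
  have h3 : y ^ 2 = |y| ^ 2 := (sq_abs y).symm
  have h5 : Real.exp (3 / 4 * |y|) * Real.exp (-(3 / 4 * |y|)) = 1 := by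
    rw [← Real.exp_add]; simp
  have h6 := Real.exp_pos (-(3 / 4 * |y|))
  have h7 : (3 / 4 * |y|) ^ 2 * Real.exp (-(3 / 4 * |y|)) ≤ 2 := by
    calc _ ≤ (Real.exp (3 / 4 * |y|) * 2) * Real.exp (-(3 / 4 * |y|)) := mul_le_mul_of_nonneg_right h1 h6.le
      _ = 2 * (Real.exp (3 / 4 * |y|) * Real.exp (-(3 / 4 * |y|))) := by ring
      _ = 2 := by rw [h5, mul_one]
  rw [h3]
  nlinarith

theorem G4_pert (hp : Prof P E) {w1 : ℝ} (h : 0 < w1) {B : ℝ} (hB : 16 ≤ B) :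
    ∃ C : ℝ, 1 ≤ C ∧ ∀ (r μ : ℝ) (W : ℝ → ℝ),
    0 < r → r ≤ 1 → 0 < μ → Cl μ μ (fun y => W y - Qf 4 y) →
    Cl μ μ (fun y => W y - W0 P E w1 r y) →
    G4 B (r ^ 2) (ep P E (r ^ 2) W) ≤ C * (r ^ 22 + ne2 (fun y => W y - W0 P E w1 r y) / r ^ 2) := by
  obtain ⟨Cp, hCp, hpar⟩ := par_pert hp h
  obtain ⟨Cc, hCc, hck⟩ := ck_le hp h
  obtain ⟨Ch, hCh, hh0⟩ := h0_le hp
  obtain ⟨CQ, hCQ, hQ⟩ := INe_bd2 INe_Q0
  obtain ⟨CL, hCL, hL⟩ := INe_bd2 INe_L0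
  obtain ⟨CP, hCP, hP⟩ := INe_bd2 hp.cP
  obtain ⟨CE, hCE, hE⟩ := INe_bd2 (E_cl hp)
  obtain ⟨K, hK⟩ : ∃ K, K = Cc * (CQ + CL) + Cp * (CP + CE) := ⟨_, rfl⟩
  obtain ⟨R0, hR0⟩ : ∃ R0, R0 = 24 * Ch ^ 2 / w1 ^ 4 + (4 * Ch / w1 ^ 2 + Ch / w1) ^ 2 := ⟨_, rfl⟩
  obtain ⟨F, hF⟩ : ∃ F, F = 4 * Real.exp 4 := ⟨_, rfl⟩
  have hF0 : 0 < F := by rw [hF]; positivity
  have hR0' : 0 ≤ R0 := by rw [hR0]; positivity
  refine ⟨12 * F * R0 + 24 * F * K ^ 2 + 3 * F + 1, ?_, ?_⟩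
  · have t1 : 0 ≤ 12 * F * R0 + 24 * F * K ^ 2 + 3 * F := by positivity
    linarith
  intro r μ W hr hr1 hμ hW hv
  obtain ⟨ga, gb⟩ := hpar r μ W hr hr1 hμ hW hv
  obtain ⟨k1, k2⟩ := hck r hr hr1
  have hNN := INe_nn (fun y => W y - W0 P E w1 r y)
  have hvs := INe_sq hv hμ hμ
  have hvs' := INe_sq (Cl_der hv) hμ hμ
  set N := ne2 (fun y => W y - W0 P E w1 r y) with hNd
  set x := r ^ 16 + √N with hxd
  have hsN : 0 ≤ √N := Real.sqrt_nonneg _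
  have hr20 : (0:ℝ) ≤ r ^ 20 := by positivity
  have h20 : r ^ 20 ≤ x := by
    have : r ^ 20 ≤ r ^ 16 := pow_le_pow_of_le_one hr.le hr1 (by norm_num)
    linarith
  have hs : 0 < r ^ 2 := by positivity
  obtain ⟨iE, eE⟩ := INe_int hs
  have hR24 : 0 ≤ R0 * r ^ 24 := by positivity
  -- the pointwise bound
  have key : ∀ y, om4 B (r ^ 2) y * ((ep P E (r ^ 2) W y) ^ 2 + (deriv (ep P E (r ^ 2) W) y) ^ 2) ≤
      (3 * F * (2 * (R0 * r ^ 24) + 2 * K ^ 2 * x ^ 2)) * Real.exp (-(r ^ 2 * |y|)) +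
        3 * F * ((W y - W0 P E w1 r y) ^ 2 + (deriv (fun y => W y - W0 P E w1 r y) y) ^ 2) := by
    intro y
    obtain ⟨o0, o1⟩ := INe_om (B := B) (y := y) hs
    rw [INe_dep hp h hr hv y, INe_epeq (w1 := w1) y]
    obtain ⟨m1, m2, m3, m4⟩ := hk_le hp (by linarith : 0 ≤ Ch) h hr (hh0 r hr) y
    have hkap := kap_le w1 (r ^ 8 * y)
    refine INe_alg (eL := Real.exp (-(2 * r ^ 2 * |y|))) (F := F) o0 hF ?_ (Real.exp_pos _).le ?_ ?_ hR24 ?_ ?_ ?_ ?_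
    · rw [hF]; exact o1
    · rw [Real.exp_le_one_iff]
      have : 0 ≤ 2 * r ^ 2 * |y| := by positivity
      linarith
    · apply Real.exp_le_exp.2
      have : 0 ≤ r ^ 2 * |y| := by positivity
      linarith
    · exact INe_par hK (by linarith) (by linarith) hCQ hCL hr20 h20 k1 k2 gb ga (hQ y).1 (hL y).1 (hP y).1 (hE y).1
    · exact INe_par hK (by linarith) (by linarith) hCQ hCL hr20 h20 k1 k2 gb ga (hQ y).2 (hL y).2 (hP y).2 (hE y).2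
    · have e1 : (hk4 P E w1 r y - hf P E (3 * c0 * r ^ 4) (f0 * r ^ 4) y) ^ 2 ≤
          (Ch * r ^ 4 * (r ^ 8 * y / w1) ^ 2) ^ 2 := by
        rw [← sq_abs (hk4 P E w1 r y - hf P E (3 * c0 * r ^ 4) (f0 * r ^ 4) y)]
        exact pow_le_pow_left₀ (abs_nonneg _) m2 2
      have e2 : (Ch * r ^ 4 * (r ^ 8 * y / w1) ^ 2) ^ 2 = Ch ^ 2 * r ^ 40 / w1 ^ 4 * y ^ 4 := by
        field_simp
      rw [e2] at e1
      have e3 := INe_y4 hs y
      have e5 : r ^ 32 ≤ r ^ 24 := pow_le_pow_of_le_one hr.le hr1 (by norm_num)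
      have e6 := Real.exp_pos (-(r ^ 2 * |y|))
      calc _ ≤ Ch ^ 2 * r ^ 40 / w1 ^ 4 * y ^ 4 * Real.exp (-(2 * r ^ 2 * |y|)) :=
            mul_le_mul_of_nonneg_right e1 (Real.exp_pos _).le
        _ = Ch ^ 2 * r ^ 40 / w1 ^ 4 * (y ^ 4 * Real.exp (-(2 * r ^ 2 * |y|))) := by ring
        _ ≤ Ch ^ 2 * r ^ 40 / w1 ^ 4 * (24 / (r ^ 2) ^ 4 * Real.exp (-(r ^ 2 * |y|))) :=
            mul_le_mul_of_nonneg_left e3 (by positivity)
        _ = (24 * Ch ^ 2 / w1 ^ 4) * r ^ 32 * Real.exp (-(r ^ 2 * |y|)) := by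
            field_simp
        _ ≤ R0 * r ^ 24 * Real.exp (-(r ^ 2 * |y|)) := by
            apply mul_le_mul_of_nonneg_right _ e6.le
            apply mul_le_mul _ e5 (by positivity) hR0'
            rw [hR0]
            have : 0 ≤ (4 * Ch / w1 ^ 2 + Ch / w1) ^ 2 := by positivity
            linarith
    · have e0 : Ch * r ^ 4 * Real.exp (-(3 / 4 * |y|)) * (r ^ 8 * y / w1) ^ 2 ≤ 4 * Ch / w1 ^ 2 * r ^ 20 := by
        have e2 : Ch * r ^ 4 * Real.exp (-(3 / 4 * |y|)) * (r ^ 8 * y / w1) ^ 2 =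
            Ch / w1 ^ 2 * r ^ 20 * (y ^ 2 * Real.exp (-(3 / 4 * |y|))) := by
          field_simp
        rw [e2]
        calc _ ≤ Ch / w1 ^ 2 * r ^ 20 * 4 := mul_le_mul_of_nonneg_left (INe_y2 y) (by positivity)
          _ = _ := by ring
      have e20 : r ^ 20 ≤ r ^ 12 := pow_le_pow_of_le_one hr.le hr1 (by norm_num)
      have e3 : Ch * r ^ 12 / w1 * kap4 w1 (r ^ 8 * y) ≤ Ch / w1 * r ^ 12 := by
        calc _ ≤ Ch * r ^ 12 / w1 * 1 := mul_le_mul_of_nonneg_left hkap.2 (by positivity)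
          _ = _ := by ring
      have e4 : 4 * Ch / w1 ^ 2 * r ^ 20 ≤ 4 * Ch / w1 ^ 2 * r ^ 12 :=
        mul_le_mul_of_nonneg_left e20 (by positivity)
      have e5 : |deriv (hk4 P E w1 r) y - deriv (hf P E (3 * c0 * r ^ 4) (f0 * r ^ 4)) y| ≤
          (4 * Ch / w1 ^ 2 + Ch / w1) * r ^ 12 := by
        rw [add_mul]
        linarith
      calc _ = |deriv (hk4 P E w1 r) y - deriv (hf P E (3 * c0 * r ^ 4) (f0 * r ^ 4)) y| ^ 2 := (sq_abs _).symm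
        _ ≤ ((4 * Ch / w1 ^ 2 + Ch / w1) * r ^ 12) ^ 2 := pow_le_pow_left₀ (abs_nonneg _) e5 2
        _ = (4 * Ch / w1 ^ 2 + Ch / w1) ^ 2 * r ^ 24 := by ring
        _ ≤ R0 * r ^ 24 := by
            apply mul_le_mul_of_nonneg_right _ (by positivity)
            rw [hR0]
            have : 0 ≤ 24 * Ch ^ 2 / w1 ^ 4 := by positivity
            linarith
  have hint : Integrable (fun y => (3 * F * (2 * (R0 * r ^ 24) + 2 * K ^ 2 * x ^ 2)) * Real.exp (-(r ^ 2 * |y|)) +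
        3 * F * ((W y - W0 P E w1 r y) ^ 2 + (deriv (fun y => W y - W0 P E w1 r y) y) ^ 2)) :=
    (iE.const_mul _).add ((hvs.add hvs').const_mul _)
  have hG : G4 B (r ^ 2) (ep P E (r ^ 2) W) ≤
      (3 * F * (2 * (R0 * r ^ 24) + 2 * K ^ 2 * x ^ 2)) * (2 / r ^ 2) + 3 * F * N := by
    unfold G4
    refine (integral_mono_of_nonneg (Eventually.of_forall fun y => ?_) hint (Eventually.of_forall key)).trans ?_
    · obtain ⟨o0, o1⟩ := INe_om (B := B) (y := y) hs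
      show 0 ≤ om4 B (r ^ 2) y * ((ep P E (r ^ 2) W y) ^ 2 + (deriv (ep P E (r ^ 2) W) y) ^ 2)
      positivity
    · have e1 : ∫ y, ((3 * F * (2 * (R0 * r ^ 24) + 2 * K ^ 2 * x ^ 2)) * Real.exp (-(r ^ 2 * |y|)) +
          3 * F * ((W y - W0 P E w1 r y) ^ 2 + (deriv (fun y => W y - W0 P E w1 r y) y) ^ 2)) =
          (∫ y, (3 * F * (2 * (R0 * r ^ 24) + 2 * K ^ 2 * x ^ 2)) * Real.exp (-(r ^ 2 * |y|))) +
          ∫ y, 3 * F * ((W y - W0 P E w1 r y) ^ 2 + (deriv (fun y => W y - W0 P E w1 r y) y) ^ 2) :=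
        integral_add (iE.const_mul _) ((hvs.add hvs').const_mul _)
      rw [e1, integral_const_mul, integral_const_mul, eE]
      exact le_rfl
  refine hG.trans ?_
  have hx2 : x ^ 2 ≤ 2 * (r ^ 24 + N) := by
    have e1 : x ^ 2 ≤ 2 * (r ^ 32 + N) := by
      have e2 : √N ^ 2 = N := Real.sq_sqrt hNN
      have e3 : r ^ 32 = (r ^ 16) ^ 2 := by ring
      rw [hxd, e3]
      nlinarith [sq_nonneg (r ^ 16 - √N)]
    have e5 : r ^ 32 ≤ r ^ 24 := pow_le_pow_of_le_one hr.le hr1 (by norm_num)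
    linarith
  have hNr : N ≤ N / r ^ 2 := by
    rw [le_div_iff₀ hs]
    have : r ^ 2 ≤ 1 := pow_le_one₀ hr.le hr1
    nlinarith
  have e7 : r ^ 24 * (2 / r ^ 2) = 2 * r ^ 22 := by field_simp
  have e8 : (3 * F * (2 * (R0 * r ^ 24) + 2 * K ^ 2 * x ^ 2)) * (2 / r ^ 2) ≤
      (3 * F * (2 * (R0 * r ^ 24) + 2 * K ^ 2 * (2 * (r ^ 24 + N)))) * (2 / r ^ 2) := by
    apply mul_le_mul_of_nonneg_right _ (by positivity)
    apply mul_le_mul_of_nonneg_left _ (by positivity)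
    have : 2 * K ^ 2 * x ^ 2 ≤ 2 * K ^ 2 * (2 * (r ^ 24 + N)) :=
      mul_le_mul_of_nonneg_left hx2 (by positivity)
    linarith
  have e9 : (3 * F * (2 * (R0 * r ^ 24) + 2 * K ^ 2 * (2 * (r ^ 24 + N)))) * (2 / r ^ 2) =
      12 * F * R0 * r ^ 22 + 24 * F * K ^ 2 * (r ^ 22 + N / r ^ 2) := by
    field_simp
    ring
  have f1 : 0 ≤ F * R0 * (N / r ^ 2) := by positivity
  have f2 : 0 ≤ F * r ^ 22 := by positivity
  have f3 : 0 ≤ r ^ 22 + N / r ^ 2 := by positivity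
  have f4 : F * N ≤ F * (N / r ^ 2) := mul_le_mul_of_nonneg_left hNr hF0.le
  rw [e9] at e8
  nlinarith

end H68KC

end

end S_H68_KC_INe

section S_H68_KC_INf

/-!
# Row INf (MP_95be7d_K4): front functional, gradient norm and mass of the perturbed datum

`ω = W - W0`, `W - Q = hk4 + ck1 Q' + ck2 ΛQ + ω`.

## Proofs
* `Nn_pert`: `W' = (Q' + hk4' ) + ck1 Q'' + ck2 (ΛQ)' + ω'`, with `|Q'| ≤ C e^{-3|y|/4}` and `|hk4'| ≤ Ch r⁴ e^{-3|y|/4} + Ch r^12/w1 κ` (`hk_le`, `h0_le`).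
  `N ≤ 2 ∫ Φ (W0')² + 2 ∫ ω'²` (`0 ≤ Φ ≤ 1`), `∫Φ (W0')² ≤ 4 [C ∫ Φ e^{-3|y|/2} + Ch² r^24/w1² ∫ κ² + C (ck1² + ck2²)]`, `∫κ² ≤ 4 w1/r^8` (`kap_int`).
  `Φ = Ph (r²) y = 1/(1 + e^{-(y - 1/(2r²))/4})`: for `y ≤ 1/(4r²)`: `Φ ≤ e^{-1/(16 r²)}`; for `y ≥ 1/(4r²)`: `e^{-3y/2} ≤ e^{-3y/4} e^{-3/(16r²)}`;
  and `e^{-1/(16r²)} ≤ C r^16` (`z^8/8! ≤ e^z`). So `N ≤ C1 r^16 + 2 ne2 ω`.
* `X_pert`: `Xn (W-Q) ≤ 4 (∫ hk4'² + ck1² ∫Q''² + ck2² ∫ (ΛQ)'² + ∫ω'²) ≤ C r^8 + 4 ne2 ω` (`∫ hk4'² ≤ 2 Ch² r^8 ∫e^{-3|y|/2} + 2 Ch² r^24/w1² · 4 w1/r^8`).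
* `L_pert`: `∫ (W-Q)² ≤ 4 (∫hk4² + ck1²∫Q'² + ck2²∫(ΛQ)² + ∫ω²) ≤ 16 Ch² w1 + C r^40 + 4 ne2 ω` (`hk_int`).
* `QW_pert`: `(Q, W-Q) = (Q,hk4) + ck1·0 + ck2·0 + (Q,ω)`, `|(Q,hk4)| ≤ Ch r⁴ ∫ Q`.
* `orth_pert`: `ip W Q' = ip ω Q' + ip W0 Q' = ip ω Q'` (`W0_orth`), Cauchy-Schwarz (`cs_int`); same for `ρ`.
The class hypotheses make everything integrable (`Cl_int (Cl_mul ..)`).
-/

open MeasureTheory Filter Topology Set
open scoped ContDiff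

noncomputable section

namespace H68KC

open H98KB

variable {P E : ℝ → ℝ}

theorem INf_sq {μ : ℝ} {f : ℝ → ℝ} (hμ : 0 < μ) (hf : Cl μ μ f) :
    Integrable (fun y => (f y) ^ 2) := by
  have h1 := Cl_int (Cl_mul hf hf) (by linarith) (by linarith)
  refine h1.congr (Eventually.of_forall fun y => ?_)
  show f y * f y = f y ^ 2
  ring

theorem INf_ne {μ : ℝ} {f : ℝ → ℝ} (hμ : 0 < μ) (hf : Cl μ μ f) :
    Integrable (fun y => (f y) ^ 2 + (deriv f y) ^ 2) :=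
  (INf_sq hμ hf).add (INf_sq hμ (Cl_der hf))

theorem INf_ne0 {μ : ℝ} {f : ℝ → ℝ} (hμ : 0 < μ) (hf : Cl μ μ f) : (∫ y, (f y) ^ 2) ≤ ne2 f := by
  unfold ne2
  refine integral_mono (INf_sq hμ hf) (INf_ne hμ hf) fun y => ?_
  show f y ^ 2 ≤ f y ^ 2 + deriv f y ^ 2
  nlinarith [sq_nonneg (deriv f y)]

theorem INf_nn (f : ℝ → ℝ) : 0 ≤ ne2 f := by
  unfold ne2
  exact integral_nonneg fun y => by positivity

theorem INf_b {f : ℝ → ℝ} (hf : Cl (3 / 4) (3 / 4) f) :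
    ∃ C : ℝ, 0 ≤ C ∧ ∀ y, |f y| ≤ C * Real.exp (-(3 / 4 * |y|)) := by
  obtain ⟨C, h0, h1⟩ := Cl_bnd hf
  refine ⟨C, h0, fun y => ?_⟩
  rw [← bd_abs]
  exact h1 y

theorem INf_der (hp : Prof P E) {w1 r : ℝ} (h : 0 < w1) (hr : 0 < r) (y : ℝ) :
    deriv (fun y => W0 P E w1 r y - Qf 4 y) y = deriv (hk4 P E w1 r) y
      + ck1 P E w1 r * deriv (deriv (Qf 4)) y + ck2 P E w1 r * deriv (Lam 4 (Qf 4)) y := by
  have e : (fun y => W0 P E w1 r y - Qf 4 y) = fun y =>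
      hk4 P E w1 r y + ck1 P E w1 r * deriv (Qf 4) y + ck2 P E w1 r * Lam 4 (Qf 4) y := by
    funext y; exact W0_eq P E w1 r y
  rw [e]
  exact (((Cl_hd (hk_cl hp h hr) y).add ((Cl_hd (Sol2_Cd (k := 4) INc_k) y).const_mul _)).add
    ((Cl_hd PRg_Lam y).const_mul _)).deriv

theorem INf_pt (hp : Prof P E) {w1 : ℝ} (h : 0 < w1) : ∃ C : ℝ, 1 ≤ C ∧ ∀ r, 0 < r → r ≤ 1 → ∀ y,
    |deriv (fun y => W0 P E w1 r y - Qf 4 y) y| ≤ C * r ^ 4 * Real.exp (-(3 / 4 * |y|))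
      + C * r ^ 12 * kap4 w1 (r ^ 8 * y) := by
  obtain ⟨Ch, hCh1, hCh⟩ := h0_le hp
  obtain ⟨Ck, hCk1, hCk⟩ := ck_le hp h
  obtain ⟨A, hA0, hA⟩ := INf_b (Cl_mono (Cl_der (Sol2_Cd (k := 4) INc_k)) (by norm_num) (by norm_num))
  obtain ⟨B, hB0, hB⟩ := INf_b (Cl_der PRe_CL)
  have hCh0 : 0 ≤ Ch := by linarith
  have hCk0 : 0 ≤ Ck := by linarith
  have c1 : 0 ≤ Ch / w1 := by positivity
  have c2 : 0 ≤ Ck * A := by positivity
  have c3 : 0 ≤ Ck * B := by positivity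
  refine ⟨Ch + Ch / w1 + Ck * A + Ck * B, by linarith, fun r hr hr1 y => ?_⟩
  rw [INf_der hp h hr]
  have h2 := (hk_le hp hCh0 h hr (hCh r hr) y).2.2.1
  obtain ⟨k1, k2⟩ := hCk r hr hr1
  have hE := Real.exp_pos (-(3 / 4 * |y|))
  have hk := (kap_le w1 (r ^ 8 * y)).1
  have h20 : r ^ 20 ≤ r ^ 4 := pow_le_pow_of_le_one hr.le hr1 (by norm_num)
  have k3 : |ck1 P E w1 r| ≤ Ck * r ^ 4 := k1.trans (mul_le_mul_of_nonneg_left h20 hCk0)
  have k4 : |ck2 P E w1 r| ≤ Ck * r ^ 4 := k2.trans (mul_le_mul_of_nonneg_left h20 hCk0)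
  have a1 : |ck1 P E w1 r * deriv (deriv (Qf 4)) y| ≤
      Ck * r ^ 4 * (A * Real.exp (-(3 / 4 * |y|))) := by
    rw [abs_mul]
    exact mul_le_mul k3 (hA y) (abs_nonneg _) (by positivity)
  have a2 : |ck2 P E w1 r * deriv (Lam 4 (Qf 4)) y| ≤
      Ck * r ^ 4 * (B * Real.exp (-(3 / 4 * |y|))) := by
    rw [abs_mul]
    exact mul_le_mul k4 (hB y) (abs_nonneg _) (by positivity)
  have a3 := abs_add_le (deriv (hk4 P E w1 r) y + ck1 P E w1 r * deriv (deriv (Qf 4)) y)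
    (ck2 P E w1 r * deriv (Lam 4 (Qf 4)) y)
  have a4 := abs_add_le (deriv (hk4 P E w1 r) y) (ck1 P E w1 r * deriv (deriv (Qf 4)) y)
  have p1 : 0 ≤ Ch / w1 * (r ^ 4 * Real.exp (-(3 / 4 * |y|))) := by positivity
  have p2 : 0 ≤ (Ch + Ck * A + Ck * B) * (r ^ 12 * kap4 w1 (r ^ 8 * y)) := by positivity
  have e1 : Ch * r ^ 12 / w1 * kap4 w1 (r ^ 8 * y) = Ch / w1 * r ^ 12 * kap4 w1 (r ^ 8 * y) := by ring
  rw [e1] at h2
  nlinarith

theorem INf_quad {D a b : ℝ} (h : |D| ≤ a + b) : D ^ 2 ≤ 2 * a ^ 2 + 2 * b ^ 2 := by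
  have h1 : D ^ 2 ≤ (a + b) ^ 2 := by
    rw [← sq_abs D]
    exact pow_le_pow_left₀ (abs_nonneg _) h 2
  nlinarith [sq_nonneg (a - b)]

theorem INf_esq (y : ℝ) : Real.exp (-(3 / 4 * |y|)) ^ 2 = bd (3 / 2) (3 / 2) y := by
  rw [bd_abs, ← Real.exp_nat_mul]
  congr 1
  push_cast
  ring

theorem INf_split (hp : Prof P E) {w1 r μ : ℝ} {W : ℝ → ℝ} (h : 0 < w1) (hr : 0 < r)
    (hW : Cl μ μ (fun y => W y - W0 P E w1 r y)) (y : ℝ) :
    deriv (fun y => W y - Qf 4 y) y = deriv (fun y => W0 P E w1 r y - Qf 4 y) y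
      + deriv (fun y => W y - W0 P E w1 r y) y := by
  have e : (fun y => W y - Qf 4 y) = fun y => (W0 P E w1 r y - Qf 4 y) + (W y - W0 P E w1 r y) := by
    funext y; ring
  rw [e]
  exact ((Cl_hd (W0_cl hp h hr) y).add (Cl_hd hW y)).deriv

theorem INf_splitW (hp : Prof P E) {w1 r μ : ℝ} {W : ℝ → ℝ} (h : 0 < w1) (hr : 0 < r)
    (hW : Cl μ μ (fun y => W y - W0 P E w1 r y)) (y : ℝ) :
    deriv W y = (deriv (Qf 4) y + deriv (fun y => W0 P E w1 r y - Qf 4 y) y)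
      + deriv (fun y => W y - W0 P E w1 r y) y := by
  have e : W = fun y => (Qf 4 y + (W0 P E w1 r y - Qf 4 y)) + (W y - W0 P E w1 r y) := by
    funext y; ring
  have h1 := (((Cl_hd (Cl_Qf (k := 4) INc_k) y).add (Cl_hd (W0_cl hp h hr) y)).add (Cl_hd hW y)).deriv
  calc deriv W y = deriv (fun y => (Qf 4 y + (W0 P E w1 r y - Qf 4 y)) + (W y - W0 P E w1 r y)) y := by
        rw [← e]
    _ = _ := h1

/-- integral of the dominating function -/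
theorem INf_dom {w1 r a b c p : ℝ} {v : ℝ → ℝ} {μ : ℝ} (h : 0 < w1) (hr : 0 < r) (hp : 0 < p)
    (hb : 0 ≤ b) (hμ : 0 < μ) (hv : Cl μ μ v) {F : ℝ → ℝ} (hF0 : ∀ y, 0 ≤ F y)
    (hF : ∀ y, F y ≤ a * bd p p y + b * (kap4 w1 (r ^ 8 * y)) ^ 2
      + c * ((v y) ^ 2 + (deriv v y) ^ 2)) :
    (∫ y, F y) ≤ a * (∫ y, bd p p y) + b * (4 * w1 / r ^ 8) + c * ne2 v := by
  obtain ⟨k1, k2⟩ := kap_int (r := r) h hr
  have i1 : Integrable (fun y => a * bd p p y) := (bd_int hp hp).const_mul a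
  have i2 : Integrable (fun y => b * (kap4 w1 (r ^ 8 * y)) ^ 2) := k1.const_mul b
  have i3 : Integrable (fun y => c * ((v y) ^ 2 + (deriv v y) ^ 2)) := (INf_ne hμ hv).const_mul c
  have i4 : Integrable (fun y => a * bd p p y + b * (kap4 w1 (r ^ 8 * y)) ^ 2) := i1.add i2
  have h1 : (∫ y, F y) ≤ ∫ y, (a * bd p p y + b * (kap4 w1 (r ^ 8 * y)) ^ 2
      + c * ((v y) ^ 2 + (deriv v y) ^ 2)) :=
    integral_mono_of_nonneg (Eventually.of_forall hF0) (i4.add i3) (Eventually.of_forall hF)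
  rw [integral_add i4 i3, integral_add i1 i2, integral_const_mul, integral_const_mul,
    integral_const_mul] at h1
  have h2 := mul_le_mul_of_nonneg_left k2 hb
  unfold ne2
  linarith

theorem INf_exp {r : ℝ} (hr : 0 < r) : Real.exp (-(1 / (8 * r ^ 2))) ≤ 40320 * 8 ^ 8 * r ^ 16 := by
  have hz : 0 ≤ 1 / (8 * r ^ 2) := by positivity
  have h1 := Real.pow_div_factorial_le_exp (1 / (8 * r ^ 2)) hz 8
  have h2 : ((Nat.factorial 8 : ℕ) : ℝ) = 40320 := by norm_num [Nat.factorial]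
  rw [h2] at h1
  rw [Real.exp_neg]
  have h3 : 0 < (1 / (8 * r ^ 2)) ^ 8 / 40320 := by positivity
  have h4 := inv_anti₀ h3 h1
  refine h4.trans (le_of_eq ?_)
  field_simp

theorem INf_Th (y : ℝ) : 0 < Th 4 y ∧ Th 4 y < 1 := by
  have h1 := Real.exp_pos (-y / 4)
  unfold Th
  refine ⟨by positivity, ?_⟩
  rw [div_lt_one (by positivity)]
  linarith

theorem INf_Ph {r : ℝ} (hr : 0 < r) (y : ℝ) : 0 < Ph (r ^ 2) y ∧ Ph (r ^ 2) y < 1 ∧
    Ph (r ^ 2) y * bd (3 / 2) (3 / 2) y ≤ 40320 * 8 ^ 8 * r ^ 16 * bd (5 / 4) (5 / 4) y := by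
  refine ⟨(INf_Th _).1, (INf_Th _).2, ?_⟩
  have h1 : Ph (r ^ 2) y ≤ Real.exp ((y - 1 / (2 * r ^ 2)) / 4) := by
    unfold Ph Th
    have h2 := Real.exp_pos (-(y - 1 / (2 * r ^ 2)) / 4)
    rw [div_le_iff₀ (by positivity), mul_add, ← Real.exp_add]
    have h3 : (y - 1 / (2 * r ^ 2)) / 4 + -(y - 1 / (2 * r ^ 2)) / 4 = 0 := by ring
    rw [h3, Real.exp_zero]
    have h4 := Real.exp_pos ((y - 1 / (2 * r ^ 2)) / 4)
    linarith
  have h5 := mul_le_mul_of_nonneg_right h1 (bd_pos (3 / 2) (3 / 2) y).le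
  refine h5.trans ?_
  have h6 : Real.exp ((y - 1 / (2 * r ^ 2)) / 4) * bd (3 / 2) (3 / 2) y ≤
      Real.exp (-(1 / (8 * r ^ 2))) * bd (5 / 4) (5 / 4) y := by
    rw [bd_abs, bd_abs, ← Real.exp_add, ← Real.exp_add]
    apply Real.exp_le_exp.mpr
    have e : 1 / (8 * r ^ 2) = 1 / (2 * r ^ 2) / 4 := by
      field_simp
      norm_num
    rw [e]
    have := le_abs_self y
    linarith
  refine h6.trans ?_
  exact mul_le_mul_of_nonneg_right (INf_exp hr) (bd_pos _ _ _).le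

theorem Nn_pert (hp : Prof P E) {w1 : ℝ} (h : 0 < w1) : ∃ C : ℝ, 1 ≤ C ∧ ∀ (r μ : ℝ) (W : ℝ → ℝ),
    0 < r → r ≤ 1 → 0 < μ → Cl μ μ (fun y => W y - Qf 4 y) →
    Cl μ μ (fun y => W y - W0 P E w1 r y) →
    Nn (r ^ 2) W ≤ C * r ^ 16 + 2 * ne2 (fun y => W y - W0 P E w1 r y) := by
  obtain ⟨C, hC1, hC⟩ := INf_pt hp h
  obtain ⟨A, hA0, hA⟩ := INf_b (Cl_mono (Sol2_Cd (k := 4) INc_k) (by norm_num) (by norm_num))
  have hI : 0 ≤ ∫ y, bd (5 / 4) (5 / 4) y := integral_nonneg fun y => (bd_pos _ _ _).le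
  refine ⟨1 + 4 * (A + C) ^ 2 * (40320 * 8 ^ 8) * (∫ y, bd (5 / 4) (5 / 4) y)
    + 16 * C ^ 2 * w1, ?_, fun r μ W hr hr1 hμ _ hW => ?_⟩
  · have a1 : 0 ≤ 4 * (A + C) ^ 2 * (40320 * 8 ^ 8) * (∫ y, bd (5 / 4) (5 / 4) y) := by positivity
    have a2 : 0 ≤ 16 * C ^ 2 * w1 := by positivity
    linarith
  · unfold Nn
    have hdom := INf_dom (a := 4 * (A + C) ^ 2 * (40320 * 8 ^ 8 * r ^ 16)) (b := 4 * C ^ 2 * r ^ 24)
      (c := 2) (p := 5 / 4) (v := fun y => W y - W0 P E w1 r y) (μ := μ) h hr (by norm_num)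
      (by positivity) hμ hW
      (F := fun y => Ph (r ^ 2) y * (deriv W y) ^ 2)
      (fun y => mul_nonneg (INf_Ph hr y).1.le (sq_nonneg _)) (fun y => ?_)
    · refine hdom.trans ?_
      have e1 : 4 * C ^ 2 * r ^ 24 * (4 * w1 / r ^ 8) = 16 * C ^ 2 * w1 * r ^ 16 := by
        field_simp
        ring
      rw [e1]
      have h16 : 0 ≤ r ^ 16 := by positivity
      nlinarith
    · show Ph (r ^ 2) y * (deriv W y) ^ 2 ≤ _
      obtain ⟨f0, f1, f2⟩ := INf_Ph hr y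
      rw [INf_splitW hp h hr hW y]
      have b1 := hC r hr hr1 y
      have b2 := hA y
      have hE := Real.exp_pos (-(3 / 4 * |y|))
      have hk := (kap_le w1 (r ^ 8 * y)).1
      have hr4 : r ^ 4 ≤ 1 := pow_le_one₀ hr.le hr1
      have b3 : |deriv (Qf 4) y + deriv (fun y => W0 P E w1 r y - Qf 4 y) y| ≤
          (A + C) * Real.exp (-(3 / 4 * |y|)) + C * r ^ 12 * kap4 w1 (r ^ 8 * y) := by
        refine (abs_add_le _ _).trans ?_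
        have b4 : C * r ^ 4 * Real.exp (-(3 / 4 * |y|)) ≤ C * Real.exp (-(3 / 4 * |y|)) := by
          refine mul_le_mul_of_nonneg_right ?_ hE.le
          nlinarith
        linarith
      have b5 := INf_quad b3
      have b6 : ((A + C) * Real.exp (-(3 / 4 * |y|))) ^ 2 = (A + C) ^ 2 * bd (3 / 2) (3 / 2) y := by
        rw [mul_pow, INf_esq]
      rw [b6] at b5
      have b7 : (deriv (Qf 4) y + deriv (fun y => W0 P E w1 r y - Qf 4 y) y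
          + deriv (fun y => W y - W0 P E w1 r y) y) ^ 2 ≤
          2 * (deriv (Qf 4) y + deriv (fun y => W0 P E w1 r y - Qf 4 y) y) ^ 2
          + 2 * (deriv (fun y => W y - W0 P E w1 r y) y) ^ 2 := by
        nlinarith [sq_nonneg ((deriv (Qf 4) y + deriv (fun y => W0 P E w1 r y - Qf 4 y) y)
          - deriv (fun y => W y - W0 P E w1 r y) y)]
      have b8 : (deriv (Qf 4) y + deriv (fun y => W0 P E w1 r y - Qf 4 y) y
          + deriv (fun y => W y - W0 P E w1 r y) y) ^ 2 ≤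
          4 * ((A + C) ^ 2 * bd (3 / 2) (3 / 2) y)
          + 4 * (C * r ^ 12 * kap4 w1 (r ^ 8 * y)) ^ 2
          + 2 * (deriv (fun y => W y - W0 P E w1 r y) y) ^ 2 := by linarith
      refine (mul_le_mul_of_nonneg_left b8 f0.le).trans ?_
      have g1 := mul_le_mul_of_nonneg_left f2 (by positivity : 0 ≤ 4 * (A + C) ^ 2)
      have g2 : Ph (r ^ 2) y * (4 * (C * r ^ 12 * kap4 w1 (r ^ 8 * y)) ^ 2) ≤
          4 * (C * r ^ 12 * kap4 w1 (r ^ 8 * y)) ^ 2 :=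
        mul_le_of_le_one_left (by positivity) f1.le
      have g3 : Ph (r ^ 2) y * (2 * (deriv (fun y => W y - W0 P E w1 r y) y) ^ 2) ≤
          2 * (deriv (fun y => W y - W0 P E w1 r y) y) ^ 2 :=
        mul_le_of_le_one_left (by positivity) f1.le
      have g4 : 0 ≤ 2 * (W y - W0 P E w1 r y) ^ 2 := by positivity
      have g5 : 4 * (C * r ^ 12 * kap4 w1 (r ^ 8 * y)) ^ 2 =
          4 * C ^ 2 * r ^ 24 * (kap4 w1 (r ^ 8 * y)) ^ 2 := by ring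
      linarith

theorem X_pert (hp : Prof P E) {w1 : ℝ} (h : 0 < w1) : ∃ C : ℝ, 1 ≤ C ∧ ∀ (r μ : ℝ) (W : ℝ → ℝ),
    0 < r → r ≤ 1 → 0 < μ → Cl μ μ (fun y => W y - Qf 4 y) →
    Cl μ μ (fun y => W y - W0 P E w1 r y) →
    Xn (fun y => W y - Qf 4 y) ≤ C * r ^ 8 + 4 * ne2 (fun y => W y - W0 P E w1 r y) := by
  obtain ⟨C, hC1, hC⟩ := INf_pt hp h
  have hI : 0 ≤ ∫ y, bd (3 / 2) (3 / 2) y := integral_nonneg fun y => (bd_pos _ _ _).le
  refine ⟨1 + 4 * C ^ 2 * (∫ y, bd (3 / 2) (3 / 2) y) + 16 * C ^ 2 * w1, ?_,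
    fun r μ W hr hr1 hμ _ hW => ?_⟩
  · have a1 : 0 ≤ 4 * C ^ 2 * (∫ y, bd (3 / 2) (3 / 2) y) := by positivity
    have a2 : 0 ≤ 16 * C ^ 2 * w1 := by positivity
    linarith
  · unfold Xn
    have hdom := INf_dom (a := 4 * C ^ 2 * r ^ 8) (b := 4 * C ^ 2 * r ^ 24)
      (c := 2) (p := 3 / 2) (v := fun y => W y - W0 P E w1 r y) (μ := μ) h hr (by norm_num)
      (by positivity) hμ hW
      (F := fun y => (deriv (fun y => W y - Qf 4 y) y) ^ 2)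
      (fun y => sq_nonneg _) (fun y => ?_)
    · refine hdom.trans ?_
      have e1 : 4 * C ^ 2 * r ^ 24 * (4 * w1 / r ^ 8) = 16 * C ^ 2 * w1 * r ^ 16 := by
        field_simp
        ring
      rw [e1]
      have h16 : r ^ 16 ≤ r ^ 8 := pow_le_pow_of_le_one hr.le hr1 (by norm_num)
      have h8 : 0 ≤ r ^ 8 := by positivity
      have h9 := INf_nn (fun y => W y - W0 P E w1 r y)
      have h10 := mul_le_mul_of_nonneg_left h16 (by positivity : 0 ≤ 16 * C ^ 2 * w1)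
      nlinarith
    · show (deriv (fun y => W y - Qf 4 y) y) ^ 2 ≤ _
      rw [INf_split hp h hr hW y]
      have b5 := INf_quad (hC r hr hr1 y)
      have b6 : (C * r ^ 4 * Real.exp (-(3 / 4 * |y|))) ^ 2 = C ^ 2 * r ^ 8 * bd (3 / 2) (3 / 2) y := by
        rw [mul_pow, INf_esq]
        ring
      rw [b6] at b5
      have b7 : (deriv (fun y => W0 P E w1 r y - Qf 4 y) y
          + deriv (fun y => W y - W0 P E w1 r y) y) ^ 2 ≤
          2 * (deriv (fun y => W0 P E w1 r y - Qf 4 y) y) ^ 2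
          + 2 * (deriv (fun y => W y - W0 P E w1 r y) y) ^ 2 := by
        nlinarith [sq_nonneg ((deriv (fun y => W0 P E w1 r y - Qf 4 y) y)
          - deriv (fun y => W y - W0 P E w1 r y) y)]
      have g4 : 0 ≤ 2 * (W y - W0 P E w1 r y) ^ 2 := by positivity
      have g5 : (C * r ^ 12 * kap4 w1 (r ^ 8 * y)) ^ 2 =
          C ^ 2 * r ^ 24 * (kap4 w1 (r ^ 8 * y)) ^ 2 := by ring
      rw [g5] at b5
      linarith

theorem L_pert (hp : Prof P E) : ∃ Ch : ℝ, 1 ≤ Ch ∧ ∀ w1 : ℝ, 0 < w1 → ∃ C : ℝ, 1 ≤ C ∧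
    ∀ (r μ : ℝ) (W : ℝ → ℝ),
    0 < r → r ≤ 1 → 0 < μ → Cl μ μ (fun y => W y - Qf 4 y) →
    Cl μ μ (fun y => W y - W0 P E w1 r y) →
    (∫ y, (W y - Qf 4 y) ^ 2) ≤ 16 * Ch ^ 2 * w1 + C * r ^ 40
      + 4 * ne2 (fun y => W y - W0 P E w1 r y) := by
  obtain ⟨Ch, hCh1, hCh⟩ := h0_le hp
  refine ⟨Ch, hCh1, fun w1 h => ?_⟩
  obtain ⟨Ck, hCk1, hCk⟩ := ck_le hp h
  have hCh0 : 0 ≤ Ch := by linarith
  have j1 : 0 ≤ ∫ y, (deriv (Qf 4) y) ^ 2 := integral_nonneg fun y => sq_nonneg _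
  have j2 : 0 ≤ ∫ y, (Lam 4 (Qf 4) y) ^ 2 := integral_nonneg fun y => sq_nonneg _
  refine ⟨1 + 4 * Ck ^ 2 * ((∫ y, (deriv (Qf 4) y) ^ 2) + ∫ y, (Lam 4 (Qf 4) y) ^ 2), ?_,
    fun r μ W hr hr1 hμ _ hW => ?_⟩
  · have a1 : 0 ≤ 4 * Ck ^ 2 * ((∫ y, (deriv (Qf 4) y) ^ 2) + ∫ y, (Lam 4 (Qf 4) y) ^ 2) := by
      positivity
    linarith
  · obtain ⟨k1, k2⟩ := hCk r hr hr1
    have q1 : (ck1 P E w1 r) ^ 2 ≤ Ck ^ 2 * r ^ 40 := by
      have := pow_le_pow_left₀ (abs_nonneg _) k1 2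
      rw [sq_abs] at this
      refine this.trans (le_of_eq ?_)
      ring
    have q2 : (ck2 P E w1 r) ^ 2 ≤ Ck ^ 2 * r ^ 40 := by
      have := pow_le_pow_left₀ (abs_nonneg _) k2 2
      rw [sq_abs] at this
      refine this.trans (le_of_eq ?_)
      ring
    have hr8 : 0 < r ^ 8 / w1 := by positivity
    have i1 : Integrable (fun y => 4 * (hk4 P E w1 r y) ^ 2) :=
      (INf_sq hr8 (hk_cl hp h hr)).const_mul 4
    have i2 : Integrable (fun y => 4 * (ck1 P E w1 r) ^ 2 * (deriv (Qf 4) y) ^ 2) :=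
      (INf_sq zero_lt_one (Sol2_Cd (k := 4) INc_k)).const_mul _
    have i3 : Integrable (fun y => 4 * (ck2 P E w1 r) ^ 2 * (Lam 4 (Qf 4) y) ^ 2) :=
      (INf_sq (by norm_num) PRg_Lam).const_mul _
    have i4 : Integrable (fun y => 4 * (W y - W0 P E w1 r y) ^ 2) :=
      (INf_sq hμ hW).const_mul 4
    have i12 : Integrable (fun y => 4 * (hk4 P E w1 r y) ^ 2
        + 4 * (ck1 P E w1 r) ^ 2 * (deriv (Qf 4) y) ^ 2) := i1.add i2
    have i123 : Integrable (fun y => 4 * (hk4 P E w1 r y) ^ 2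
        + 4 * (ck1 P E w1 r) ^ 2 * (deriv (Qf 4) y) ^ 2
        + 4 * (ck2 P E w1 r) ^ 2 * (Lam 4 (Qf 4) y) ^ 2) := i12.add i3
    have h1 : (∫ y, (W y - Qf 4 y) ^ 2) ≤ ∫ y, (4 * (hk4 P E w1 r y) ^ 2
        + 4 * (ck1 P E w1 r) ^ 2 * (deriv (Qf 4) y) ^ 2
        + 4 * (ck2 P E w1 r) ^ 2 * (Lam 4 (Qf 4) y) ^ 2
        + 4 * (W y - W0 P E w1 r y) ^ 2) := by
      refine integral_mono_of_nonneg (Eventually.of_forall fun y => sq_nonneg _) (i123.add i4)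
        (Eventually.of_forall fun y => ?_)
      show (W y - Qf 4 y) ^ 2 ≤ 4 * (hk4 P E w1 r y) ^ 2
        + 4 * (ck1 P E w1 r) ^ 2 * (deriv (Qf 4) y) ^ 2
        + 4 * (ck2 P E w1 r) ^ 2 * (Lam 4 (Qf 4) y) ^ 2
        + 4 * (W y - W0 P E w1 r y) ^ 2
      have e1 : W y - Qf 4 y = hk4 P E w1 r y + ck1 P E w1 r * deriv (Qf 4) y
          + ck2 P E w1 r * Lam 4 (Qf 4) y + (W y - W0 P E w1 r y) := by
        rw [← W0_eq]
        ring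
      rw [e1]
      have key : ∀ a b c d : ℝ, (a + b + c + d) ^ 2 ≤ 4 * a ^ 2 + 4 * b ^ 2 + 4 * c ^ 2 + 4 * d ^ 2 := by
        intro a b c d
        nlinarith [sq_nonneg (a - b), sq_nonneg (a - c), sq_nonneg (a - d), sq_nonneg (b - c),
          sq_nonneg (b - d), sq_nonneg (c - d)]
      refine (key _ _ _ _).trans (le_of_eq ?_)
      ring
    rw [integral_add i123 i4, integral_add i12 i3, integral_add i1 i2, integral_const_mul,
      integral_const_mul, integral_const_mul, integral_const_mul] at h1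
    have h2 := hk_int hp hCh0 h hr (fun y => (hk_le hp hCh0 h hr (hCh r hr) y).1)
    have h3 := INf_ne0 hμ hW
    have h4 := mul_le_mul_of_nonneg_right q1 j1
    have h5 := mul_le_mul_of_nonneg_right q2 j2
    have h6 : 0 ≤ r ^ 40 := by positivity
    nlinarith

/-- Cauchy-Schwarz against a fixed function -/
theorem INf_cs {μ : ℝ} {v φ : ℝ → ℝ} (hμ : 0 < μ) (hv : Cl μ μ v) (hφ : Cl 1 1 φ) :
    Integrable (fun y => v y * φ y) ∧ |∫ y, v y * φ y| ≤ √(∫ y, (φ y) ^ 2) * √(ne2 v) := by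
  obtain ⟨h1, h2⟩ := cs_int (Cl_cont hv) (Cl_cont hφ) (INf_sq hμ hv) (INf_sq zero_lt_one hφ)
  refine ⟨h1, h2.trans ?_⟩
  rw [mul_comm]
  exact mul_le_mul_of_nonneg_left (Real.sqrt_le_sqrt (INf_ne0 hμ hv)) (Real.sqrt_nonneg _)

theorem QW_pert (hp : Prof P E) {w1 : ℝ} (h : 0 < w1) : ∃ C : ℝ, 1 ≤ C ∧ ∀ (r μ : ℝ) (W : ℝ → ℝ),
    0 < r → r ≤ 1 → 0 < μ → Cl μ μ (fun y => W y - Qf 4 y) →
    Cl μ μ (fun y => W y - W0 P E w1 r y) →
    |ip (Qf 4) (fun y => W y - Qf 4 y)| ≤ C * (r ^ 4 + √(ne2 (fun y => W y - W0 P E w1 r y))) := by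
  obtain ⟨Ch, hCh1, hCh⟩ := h0_le hp
  obtain ⟨Ck, hCk1, hCk⟩ := ck_le hp h
  have hCh0 : 0 ≤ Ch := by linarith
  have hCk0 : 0 ≤ Ck := by linarith
  obtain ⟨A, hA0, hA⟩ := Cl_bnd (Cl_mono (Sol2_Cd (k := 4) INc_k) zero_le_one zero_le_one)
  obtain ⟨B, hB0, hB⟩ := Cl_bnd (Cl_mono PRe_CL (p' := 0) (q' := 0) (by norm_num) (by norm_num))
  have cQ : Cl 1 1 (Qf 4) := Cl_Qf (k := 4) INc_k
  have iQ : Integrable (fun y => |Qf 4 y|) := (Cl_int cQ zero_lt_one zero_lt_one).abs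
  have hI : 0 ≤ ∫ y, |Qf 4 y| := integral_nonneg fun y => abs_nonneg _
  have hs := Real.sqrt_nonneg (∫ y, (Qf 4 y) ^ 2)
  have hm : 0 ≤ (Ch + Ck * A + Ck * B) * ∫ y, |Qf 4 y| := by positivity
  refine ⟨1 + (Ch + Ck * A + Ck * B) * (∫ y, |Qf 4 y|) + √(∫ y, (Qf 4 y) ^ 2), by linarith,
    fun r μ W hr hr1 hμ _ hW => ?_⟩
  obtain ⟨k1, k2⟩ := hCk r hr hr1
  have h20 : r ^ 20 ≤ r ^ 4 := pow_le_pow_of_le_one hr.le hr1 (by norm_num)
  have k3 : |ck1 P E w1 r| ≤ Ck * r ^ 4 := k1.trans (mul_le_mul_of_nonneg_left h20 hCk0)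
  have k4 : |ck2 P E w1 r| ≤ Ck * r ^ 4 := k2.trans (mul_le_mul_of_nonneg_left h20 hCk0)
  have hpt : ∀ y, |W0 P E w1 r y - Qf 4 y| ≤ (Ch + Ck * A + Ck * B) * r ^ 4 := by
    intro y
    rw [W0_eq]
    have g1 := (hk_le hp hCh0 h hr (hCh r hr) y).1
    have hk := (kap_le w1 (r ^ 8 * y)).2
    have g2 : Ch * r ^ 4 * kap4 w1 (r ^ 8 * y) ≤ Ch * r ^ 4 * 1 :=
      mul_le_mul_of_nonneg_left hk (by positivity)
    have a0 := hA y
    have b0 := hB y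
    rw [bd_zero, mul_one] at a0 b0
    have a1 : |ck1 P E w1 r * deriv (Qf 4) y| ≤ Ck * r ^ 4 * A := by
      rw [abs_mul]
      exact mul_le_mul k3 a0 (abs_nonneg _) (by positivity)
    have a2 : |ck2 P E w1 r * Lam 4 (Qf 4) y| ≤ Ck * r ^ 4 * B := by
      rw [abs_mul]
      exact mul_le_mul k4 b0 (abs_nonneg _) (by positivity)
    have a3 := abs_add_le (hk4 P E w1 r y + ck1 P E w1 r * deriv (Qf 4) y)
      (ck2 P E w1 r * Lam 4 (Qf 4) y)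
    have a4 := abs_add_le (hk4 P E w1 r y) (ck1 P E w1 r * deriv (Qf 4) y)
    linarith
  have hm8 : 0 < min (r ^ 8 / w1) (1 / 2) := lt_min (by positivity) (by norm_num)
  have iE : Integrable (fun y => Qf 4 y * (W0 P E w1 r y - Qf 4 y)) :=
    Cl_int (Cl_mul cQ (W0_cl hp h hr)) (by linarith) (by linarith)
  obtain ⟨iO, hO⟩ := INf_cs hμ hW cQ
  have iO' : Integrable (fun y => Qf 4 y * (W y - W0 P E w1 r y)) := by
    refine iO.congr (Eventually.of_forall fun y => ?_)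
    show (W y - W0 P E w1 r y) * Qf 4 y = _
    ring
  have e1 : ip (Qf 4) (fun y => W y - Qf 4 y) = (∫ y, Qf 4 y * (W0 P E w1 r y - Qf 4 y))
      + ∫ y, (W y - W0 P E w1 r y) * Qf 4 y := by
    rw [← integral_add iE iO]
    unfold ip
    congr 1
    funext y
    ring
  rw [e1]
  refine (abs_add_le _ _).trans ?_
  have g5 : |∫ y, Qf 4 y * (W0 P E w1 r y - Qf 4 y)| ≤
      (Ch + Ck * A + Ck * B) * r ^ 4 * ∫ y, |Qf 4 y| := by
    refine abs_integral_le_integral_abs.trans ?_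
    rw [← integral_const_mul]
    refine integral_mono_of_nonneg (Eventually.of_forall fun y => abs_nonneg _)
      (iQ.const_mul _) (Eventually.of_forall fun y => ?_)
    show |Qf 4 y * (W0 P E w1 r y - Qf 4 y)| ≤ (Ch + Ck * A + Ck * B) * r ^ 4 * |Qf 4 y|
    rw [abs_mul, mul_comm]
    exact mul_le_mul_of_nonneg_right (hpt y) (abs_nonneg _)
  have hr4 : 0 ≤ r ^ 4 := by positivity
  have hn := Real.sqrt_nonneg (ne2 (fun y => W y - W0 P E w1 r y))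
  have m1 := mul_nonneg hs hr4
  have m2 := mul_nonneg hm hn
  nlinarith

theorem orth_pert (hp : Prof P E) {w1 : ℝ} (h : 0 < w1) : ∃ C : ℝ, 1 ≤ C ∧ ∀ (r μ : ℝ) (W : ℝ → ℝ),
    0 < r → r ≤ 1 → 0 < μ → Cl μ μ (fun y => W y - Qf 4 y) →
    Cl μ μ (fun y => W y - W0 P E w1 r y) →
    |ip W (deriv (Qf 4))| ≤ C * √(ne2 (fun y => W y - W0 P E w1 r y)) ∧
    |ip (fun y => W y - Qf 4 y) rho| ≤ C * √(ne2 (fun y => W y - W0 P E w1 r y)) := by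
  have hs1 := Real.sqrt_nonneg (∫ y, (deriv (Qf 4) y) ^ 2)
  have hs2 := Real.sqrt_nonneg (∫ y, (rho y) ^ 2)
  refine ⟨1 + √(∫ y, (deriv (Qf 4) y) ^ 2) + √(∫ y, (rho y) ^ 2), by linarith,
    fun r μ W hr _ hμ _ hW => ?_⟩
  have hn := Real.sqrt_nonneg (ne2 (fun y => W y - W0 P E w1 r y))
  have hm8 : 0 ≤ min (r ^ 8 / w1) (1 / 2) := le_min (by positivity) (by norm_num)
  obtain ⟨o1, o2⟩ := W0_orth hp h hr
  have cD : Cl 1 1 (deriv (Qf 4)) := Sol2_Cd (k := 4) INc_k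
  have cQ : Cl 1 1 (Qf 4) := Cl_Qf (k := 4) INc_k
  constructor
  · obtain ⟨iO, hO⟩ := INf_cs hμ hW cD
    have i1 : Integrable (fun y => (W0 P E w1 r y - Qf 4 y) * deriv (Qf 4) y) :=
      MOa_i hm8 hm8 (W0_cl hp h hr) cD
    have i2 : Integrable (fun y => Qf 4 y * deriv (Qf 4) y) := MOa_i zero_le_one zero_le_one cQ cD
    have i3 : Integrable (fun y => W0 P E w1 r y * deriv (Qf 4) y) := by
      refine (i1.add i2).congr (Eventually.of_forall fun y => ?_)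
      show (W0 P E w1 r y - Qf 4 y) * deriv (Qf 4) y + Qf 4 y * deriv (Qf 4) y = _
      ring
    have e1 : ip W (deriv (Qf 4)) = ∫ y, (W y - W0 P E w1 r y) * deriv (Qf 4) y := by
      have e2 : ip W (deriv (Qf 4)) = ip (W0 P E w1 r) (deriv (Qf 4))
          + ∫ y, (W y - W0 P E w1 r y) * deriv (Qf 4) y := by
        unfold ip
        rw [← integral_add i3 iO]
        congr 1
        funext y
        ring
      rw [e2, o1, zero_add]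
    rw [e1]
    refine hO.trans (mul_le_mul_of_nonneg_right ?_ hn)
    linarith
  · obtain ⟨iO, hO⟩ := INf_cs hμ hW MOa_rho
    have i1 : Integrable (fun y => (W0 P E w1 r y - Qf 4 y) * rho y) :=
      MOa_i hm8 hm8 (W0_cl hp h hr) MOa_rho
    have e1 : ip (fun y => W y - Qf 4 y) rho = ∫ y, (W y - W0 P E w1 r y) * rho y := by
      have e2 : ip (fun y => W y - Qf 4 y) rho = ip (fun y => W0 P E w1 r y - Qf 4 y) rho
          + ∫ y, (W y - W0 P E w1 r y) * rho y := by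
        unfold ip
        rw [← integral_add i1 iO]
        congr 1
        funext y
        ring
      rw [e2, o2, zero_add]
    rw [e1]
    refine hO.trans (mul_le_mul_of_nonneg_right ?_ hn)
    linarith

end H68KC

end

end S_H68_KC_INf

section S_H68_KC_INg

/-!
# Row INg (MP_95be7d_K4): the energy of `W = Q + e`

## Proofs
* `EQ_zero`: `(1/2)∫Q'² = (1/30)∫Q⁶`: `Q'² = Q² - Q⁶/15` (`Q' = -tQ`, `Q⁴ = 15(1-t²)`), and `∫ Q'² = -∫ Q'' Q = -∫ Q² + ∫ Q⁶/5` (`Qf_eq`, `Cl_ibp`).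
  Add: `2∫Q'² = ∫Q⁶ (1/5 - 1/15) = (2/15)∫Q⁶`.
* `EW_id`: `W = Q + e`, `e` of class `p q`: `(1/2)∫(Q'+e')² = (1/2)∫Q'² + ∫Q'e' + (1/2)∫e'²`, `∫Q'e' = -∫Q''e = -∫Qe + ∫(Q⁵/5) e` and
  `(Q+e)⁶/30 = Q⁶/30 + (Q⁵/5) e + bF 4 e` (definition of `bF`, `Fl`, `fl`). So `EW = (1/2) Xn e - ∫ Q e - ∫ bF 4 e`.
* `EW_up`: `|bF 4 e| ≤ C (Q⁴ + |e|⁴) e²` (`bF_le`), `|e| ≤ d ≤ 1`: `|∫ bF| ≤ C ∫ Q⁴ d² + C d⁴ ∫ e²`.
-/

open MeasureTheory Filter Topology Set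
open scoped ContDiff

noncomputable section

namespace H68KC

open H98KB

theorem INg_k : 1 ≤ 4 := by norm_num

theorem INg_Q6 : Cl 6 6 (fun y => (Qf 4 y) ^ 6) := by
  have h := Cl_pow (Cl_Qf (k := 4) INg_k) 6
  exact Cl_mono h (by norm_num) (by norm_num)

theorem INg_Q2 : Cl 2 2 (fun y => (Qf 4 y) ^ 2) := by
  have h := Cl_pow (Cl_Qf (k := 4) INg_k) 2
  exact Cl_mono h (by norm_num) (by norm_num)

theorem EQ_zero : 1 / 2 * (∫ y, (deriv (Qf 4) y) ^ 2) = 1 / 30 * ∫ y, (Qf 4 y) ^ 6 := by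
  have hQ := Cl_Qf (k := 4) INg_k
  have i6 := Cl_int INg_Q6 (by norm_num) (by norm_num)
  have i2 := Cl_int INg_Q2 (by norm_num) (by norm_num)
  have e1 : ∫ y, (deriv (Qf 4) y) ^ 2 = (∫ y, (Qf 4 y) ^ 2) - 1 / 15 * ∫ y, (Qf 4 y) ^ 6 := by
    rw [← integral_const_mul, ← integral_sub i2 (i6.const_mul _)]
    refine integral_congr_ae (Eventually.of_forall fun y => ?_)
    simp only
    have h1 := Qf_pow (k := 4) INg_k y
    have h2 : deriv (Qf 4) y = -(th 4 y) * Qf 4 y := by rw [Qf_deriv INg_k]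
    unfold C0 at h1
    push_cast at h1
    rw [h2]
    have h3 : (Qf 4 y) ^ 6 = (Qf 4 y) ^ 4 * (Qf 4 y) ^ 2 := by ring
    rw [h3, h1]
    ring
  have e2 : ∫ y, (deriv (Qf 4) y) ^ 2 = -(∫ y, (Qf 4 y) ^ 2) + 1 / 5 * ∫ y, (Qf 4 y) ^ 6 := by
    have h1 := ip_Qdd_Q (k := 4) INg_k
    have h2 : ip (deriv (deriv (Qf 4))) (Qf 4) =
        (∫ y, (Qf 4 y) ^ 2) - 1 / 5 * ∫ y, (Qf 4 y) ^ 6 := by
      rw [ip, ← integral_const_mul, ← integral_sub i2 (i6.const_mul _)]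
      refine integral_congr_ae (Eventually.of_forall fun y => ?_)
      simp only
      rw [Qf_eq INg_k, fl]
      push_cast
      ring
    linarith
  linarith

theorem EW_id {p q : ℝ} {W : ℝ → ℝ} (hp : 0 < p) (hq : 0 < q) (hp1 : p ≤ 1) (hq1 : q ≤ 1)
    (hW : Cl p q (fun y => W y - Qf 4 y)) :
    EW W = 1 / 2 * Xn (fun y => W y - Qf 4 y) - ip (Qf 4) (fun y => W y - Qf 4 y)
      - ∫ y, bF 4 (fun y => W y - Qf 4 y) y := by
  have hQ := Cl_Qf (k := 4) INg_k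
  have hQd := Cl_der hQ
  set e : ℝ → ℝ := fun y => W y - Qf 4 y with he
  have hed := Cl_der hW
  have hWe : ∀ y, W y = Qf 4 y + e y := fun y => by rw [he]; ring
  have hWd : ∀ y, deriv W y = deriv (Qf 4) y + deriv e y := by
    intro y
    have h1 : W = fun y => Qf 4 y + e y := funext hWe
    have h2 := ((Cl_hd hQ y).add (Cl_hd hW y)).deriv
    rw [h1]
    exact h2
  have iA : Integrable (fun y => (deriv (Qf 4) y) ^ 2) :=
    Cl_int (Cl_mono (Cl_pow hQd 2) (p' := 1) (q' := 1) (by norm_num) (by norm_num)) one_pos one_pos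
  have iB : Integrable (fun y => deriv (Qf 4) y * deriv e y) :=
    Cl_int (Cl_mul hQd hed) (by linarith) (by linarith)
  have iC : Integrable (fun y => (deriv e y) ^ 2) :=
    Cl_int (Cl_pow' hed hp.le hq.le 2 (by norm_num)) hp hq
  have iD := Cl_int INg_Q6 (by norm_num) (by norm_num)
  have hQ5 : Cl 1 1 (fun y => (Qf 4 y) ^ 5) :=
    Cl_pow' hQ zero_le_one zero_le_one 5 (by norm_num)
  have iE : Integrable (fun y => (Qf 4 y) ^ 5 * e y) :=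
    Cl_int (Cl_mul hQ5 hW) (by linarith) (by linarith)
  have iF : Integrable (fun y => bF 4 e y) :=
    Cl_int (Cl_bF INg_k hp.le hq.le hp1 hq1 hW) (by linarith) (by linarith)
  have iG : Integrable (fun y => Qf 4 y * e y) :=
    Cl_int (Cl_mul hQ hW) (by linarith) (by linarith)
  have e1 : ∫ y, (deriv W y) ^ 2 = (∫ y, (deriv (Qf 4) y) ^ 2) +
      2 * (∫ y, deriv (Qf 4) y * deriv e y) + ∫ y, (deriv e y) ^ 2 := by
    have iAB : Integrable (fun y => (deriv (Qf 4) y) ^ 2 + 2 * (deriv (Qf 4) y * deriv e y)) :=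
      iA.add (iB.const_mul 2)
    rw [← integral_const_mul, ← integral_add iA (iB.const_mul 2), ← integral_add iAB iC]
    refine integral_congr_ae (Eventually.of_forall fun y => ?_)
    simp only
    rw [hWd]
    ring
  have e2 : ∫ y, (W y) ^ 6 = (∫ y, (Qf 4 y) ^ 6) + 6 * (∫ y, (Qf 4 y) ^ 5 * e y) +
      30 * ∫ y, bF 4 e y := by
    have iDE : Integrable (fun y => (Qf 4 y) ^ 6 + 6 * ((Qf 4 y) ^ 5 * e y)) :=
      iD.add (iE.const_mul 6)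
    rw [← integral_const_mul, ← integral_const_mul, ← integral_add iD (iE.const_mul 6),
      ← integral_add iDE (iF.const_mul 30)]
    refine integral_congr_ae (Eventually.of_forall fun y => ?_)
    simp only
    rw [hWe, bF, Fl, Fl, fl]
    push_cast
    ring
  have e3 : ∫ y, deriv (Qf 4) y * deriv e y =
      -(ip (Qf 4) e) + 1 / 5 * ∫ y, (Qf 4 y) ^ 5 * e y := by
    have h1 := Cl_ibp hQd hW (by linarith) (by linarith)
    have h2 : ∫ y, deriv (deriv (Qf 4)) y * e y = ip (Qf 4) e - 1 / 5 * ∫ y, (Qf 4 y) ^ 5 * e y := by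
      rw [ip, ← integral_const_mul, ← integral_sub iG (iE.const_mul _)]
      refine integral_congr_ae (Eventually.of_forall fun y => ?_)
      simp only
      rw [Qf_eq INg_k, fl]
      push_cast
      ring
    linarith
  have e4 := EQ_zero
  have e5 : EW W = 1 / 2 * (∫ y, (deriv W y) ^ 2) - 1 / 30 * ∫ y, (W y) ^ 6 := rfl
  have e6 : Xn e = ∫ y, (deriv e y) ^ 2 := rfl
  rw [e5, e1, e2, e3, e6]
  linarith

theorem EW_up : ∃ C : ℝ, 1 ≤ C ∧ ∀ (p q d : ℝ) (W : ℝ → ℝ), 0 < p → 0 < q → p ≤ 1 → q ≤ 1 →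
    Cl p q (fun y => W y - Qf 4 y) → 0 ≤ d → d ≤ 1 → (∀ y, |W y - Qf 4 y| ≤ d) →
    EW W ≤ 1 / 2 * Xn (fun y => W y - Qf 4 y) + |ip (Qf 4) (fun y => W y - Qf 4 y)|
      + C * d ^ 2 * (1 + ∫ y, (W y - Qf 4 y) ^ 2) := by
  obtain ⟨C, hC, hbF⟩ := bF_le 4 (by norm_num)
  have hQ := Cl_Qf (k := 4) INg_k
  have i4 : Integrable (fun y => (Qf 4 y) ^ 4) :=
    Cl_int (Cl_pow' hQ zero_le_one zero_le_one 4 (by norm_num)) one_pos one_pos
  have hJ : 0 ≤ ∫ y, (Qf 4 y) ^ 4 := integral_nonneg fun y => by positivity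
  refine ⟨1 + C * (∫ y, (Qf 4 y) ^ 4) + C, by nlinarith [mul_nonneg hC.le hJ],
    fun p q d W hp hq hp1 hq1 hW hd hd1 hb => ?_⟩
  rw [EW_id hp hq hp1 hq1 hW]
  set e : ℝ → ℝ := fun y => W y - Qf 4 y with he
  have i2 : Integrable (fun y => (e y) ^ 2) := Cl_int (Cl_pow' hW hp.le hq.le 2 (by norm_num)) hp hq
  have hE : 0 ≤ ∫ y, (e y) ^ 2 := integral_nonneg fun y => sq_nonneg _
  have h1 : |∫ y, bF 4 e y| ≤ ∫ y, (C * d ^ 2 * (Qf 4 y) ^ 4 + C * d ^ 2 * (e y) ^ 2) := by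
    rw [← Real.norm_eq_abs]
    refine norm_integral_le_of_norm_le ((i4.const_mul _).add (i2.const_mul _))
      (Eventually.of_forall fun y => ?_)
    rw [Real.norm_eq_abs]
    refine (hbF e y).trans ?_
    have hy : |e y| ≤ d := hb y
    have hy2 : (e y) ^ 2 ≤ d ^ 2 := by
      rw [← sq_abs]
      exact pow_le_pow_left₀ (abs_nonneg _) hy 2
    have hy4 : |e y| ^ 4 ≤ d ^ 2 := by
      calc |e y| ^ 4 ≤ d ^ 4 := pow_le_pow_left₀ (abs_nonneg _) hy 4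
        _ = d ^ 2 * d ^ 2 := by ring
        _ ≤ d ^ 2 * 1 := mul_le_mul_of_nonneg_left (pow_le_one₀ hd hd1) (sq_nonneg _)
        _ = d ^ 2 := mul_one _
    have hQ4 : 0 ≤ (Qf 4 y) ^ 4 := by positivity
    have g1 : (Qf 4 y) ^ 4 * (e y) ^ 2 ≤ (Qf 4 y) ^ 4 * d ^ 2 := mul_le_mul_of_nonneg_left hy2 hQ4
    have g2 : |e y| ^ 4 * (e y) ^ 2 ≤ d ^ 2 * (e y) ^ 2 := mul_le_mul_of_nonneg_right hy4 (sq_nonneg _)
    calc C * ((Qf 4 y) ^ 4 + |e y| ^ 4) * (e y) ^ 2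
        = C * ((Qf 4 y) ^ 4 * (e y) ^ 2 + |e y| ^ 4 * (e y) ^ 2) := by ring
      _ ≤ C * ((Qf 4 y) ^ 4 * d ^ 2 + d ^ 2 * (e y) ^ 2) :=
          mul_le_mul_of_nonneg_left (add_le_add g1 g2) hC.le
      _ = C * d ^ 2 * (Qf 4 y) ^ 4 + C * d ^ 2 * (e y) ^ 2 := by ring
  rw [integral_add (i4.const_mul _) (i2.const_mul _), integral_const_mul, integral_const_mul] at h1
  have h2 := neg_abs_le (∫ y, bF 4 e y)
  have h3 := neg_abs_le (ip (Qf 4) e)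
  have h4 : (1 + C * (∫ y, (Qf 4 y) ^ 4) + C) * d ^ 2 * (1 + ∫ y, (e y) ^ 2) ≥
      C * d ^ 2 * (∫ y, (Qf 4 y) ^ 4) + C * d ^ 2 * ∫ y, (e y) ^ 2 := by
    have k1 : 0 ≤ d ^ 2 := sq_nonneg d
    have k2 : 0 ≤ C * (∫ y, (Qf 4 y) ^ 4) := mul_nonneg hC.le hJ
    have k3 := mul_nonneg (mul_nonneg k2 k1) hE
    have k4 := mul_nonneg k1 hE
    have k5 := mul_nonneg hC.le k1
    nlinarith
  have h5 : (∫ y, (W y - Qf 4 y) ^ 2) = ∫ y, (e y) ^ 2 := rfl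
  rw [h5]
  linarith

end H68KC

end

end S_H68_KC_INg

section S_H68_KC_INh

/-!
# Row INh (MP_95be7d_K4): assembly of the initial data theorem

## Proof of `thmIni`
`L_pert` gives `Ch`; `w1 := min 1 (1/(512 Ch²))`, so `16 Ch² w1 ≤ 1/32`. With this `w1` take the constants `C` of `par_pert`, `sup_pert`, `G4_pert` (with `B` of `GoodA`),
`Nn_pert` (`CN`), `X_pert` (`CX`), `L_pert` (`CL`), `QW_pert` (`CQ`), `orth_pert` (`CO`), `EW_up` (`CE`).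
`Ca := CN + 1`, `KI := CX + 2 CQ + 8 C² CE + 1` (any sufficiently large constant; see (g4)).
Given `K0 K9 KE KN K5`. Let `r` be small (finitely many conditions below, all of the form (constant)·r ≤ 1) and `ν` small depending on `r`: `ν ≤ r^60` is more than enough for
small `r`. `ω = W - W0` is of class `μ μ` with `μ` the minimum of the classes of `W - Q` and `W0 - Q` (`W0_cl`, `Cl_sub`, `Cl_mono`), `W - Q` also. Let `n = ne2 ω ≤ ν ≤ r^60`, `√n ≤ r^30`.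
* g1: `|ε| ≤ C (r⁴ + r^30) ≤ c`, `GoodA.CO` (second part): `M E4 + Vf ≤ CA G4 ≤ CA C (r^22 + r^58)`; `K0/r^6 N ≤ K0/r^6 (CN r^16 + 2 r^60)`. Sum `≤ K0 (CN + 1/2) r^10 + CA C 2 r^22 < K9 r^10`
  since `K9 ≥ 4 K0 (Ca + 1)`.
* g2, g3: `|bq - 3c₀r⁴| ≤ 2 C r^16 < c₀ r⁴` (`c₀ ≥ 1`: `cnu ≥ 0`).
* g4: `EW ≤ (1/2)(CX r^8 + 4 r^60) + CQ (r⁴ + r^30) + CE d² · 2`, `d = C (r⁴ + r^30) ≤ 2 C r⁴ ≤ 1` (`sup_pert`), total `< KI r⁴ ≤ KE r⁴`.
* g5: `N ≤ CN r^16 + 2 r^60 < (CN + 1) r^16`.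
* g6: `alf + K5 r^5 ≤ f₀ r⁴ + 2 C r^16 + K5 r^5 < (f₀ + 2 K5 r) r⁴` for `2 C r^11 < K5`. g7 likewise.
* g8: `CX r^8 + 4 r^60 < r²`. g9: `1/32 + CL r^40 + 4 r^60 < 1`.
* mass: `∫W² = ∫Q² + 2 (Q,W-Q) + ∫(W-Q)² ≤ ∫Q² + 2 CQ (r⁴ + r^30) + 1/16 ≤ ∫Q² + 1/4`.
* `C' := CO`. `Cl 1 1 (dat4 ..)`: `dat_cl`.
-/

open MeasureTheory Filter Topology Set
open scoped ContDiff

noncomputable section

namespace H68KC

open H98KB

private theorem INh_pw {r : ℝ} (h0 : 0 < r) (h1 : r ≤ 1 / 2) {a b : ℕ} (h : a ≤ b) : r ^ b ≤ r ^ a :=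
  pow_le_pow_of_le_one h0.le (by linarith) h

private theorem INh_div {a r D : ℝ} (h : a ≤ D) (hr : 0 ≤ r) (hD : D * r ≤ 1) : a * r ≤ 1 :=
  (mul_le_mul_of_nonneg_right h hr).trans hD

private theorem INh_mass {p q : ℝ} {W : ℝ → ℝ} (hp : 0 < p) (hq : 0 < q)
    (hW : Cl p q (fun y => W y - Qf 4 y)) :
    (∫ y, (W y) ^ 2) = (∫ y, (Qf 4 y) ^ 2) + 2 * ip (Qf 4) (fun y => W y - Qf 4 y)
      + ∫ y, (W y - Qf 4 y) ^ 2 := by
  have i1 : Integrable (fun y => (Qf 4 y) ^ 2) := by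
    have := MOa_i zero_le_one zero_le_one MOa_Q MOa_Q
    simpa only [pow_two] using this
  have i2 : Integrable (fun y => Qf 4 y * (W y - Qf 4 y)) := by
    have := MOa_i hp.le hq.le hW MOa_Q
    refine this.congr (Filter.Eventually.of_forall fun y => ?_)
    ring
  have i3 : Integrable (fun y => (W y - Qf 4 y) ^ 2) := by
    have := Cl_int (Cl_mul hW hW) (by linarith) (by linarith)
    simpa only [pow_two] using this
  have k1 := integral_add (i1.add (i2.const_mul 2)) i3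
  have k2 := integral_add i1 (i2.const_mul 2)
  simp only [Pi.add_apply] at k1 k2
  rw [integral_const_mul] at k2
  unfold ip
  rw [← k2, ← k1]
  refine integral_congr_ae (Filter.Eventually.of_forall fun y => ?_)
  simp only
  ring

theorem thmIni : ThmIni := by
  intro P E γ η δ M B c C hp hA
  obtain ⟨Ch, hCh, hL0⟩ := L_pert hp
  have hCh0 : 0 < Ch := by linarith
  set w1 : ℝ := min (1 / 4) (1 / (512 * Ch ^ 2)) with hw1d
  have hw1 : 0 < w1 := lt_min (by norm_num) (by positivity)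
  have hw14 : w1 ≤ 1 / 4 := min_le_left _ _
  have hw11 : w1 ≤ 1 := hw14.trans (by norm_num)
  have hw12 : 16 * Ch ^ 2 * w1 ≤ 1 / 32 := by
    have h1 : w1 ≤ 1 / (512 * Ch ^ 2) := min_le_right _ _
    calc 16 * Ch ^ 2 * w1 ≤ 16 * Ch ^ 2 * (1 / (512 * Ch ^ 2)) :=
          mul_le_mul_of_nonneg_left h1 (by positivity)
      _ = 1 / 32 := by field_simp; norm_num
  clear_value w1
  obtain ⟨CL, hCL, hL⟩ := hL0 w1 hw1
  obtain ⟨Cp, hCp, hpar⟩ := par_pert hp hw1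
  obtain ⟨Cs, hCs, hsup⟩ := sup_pert hp hw1
  obtain ⟨Cg, hCg, hG⟩ := G4_pert hp hw1 hA.hB
  obtain ⟨CN, hCN, hN⟩ := Nn_pert hp hw1
  obtain ⟨CX, hCX, hX⟩ := X_pert hp hw1
  obtain ⟨CQ, hCQ, hQ⟩ := QW_pert hp hw1
  obtain ⟨CO, hCO, hO⟩ := orth_pert hp hw1
  obtain ⟨CE, hCE, hE⟩ := EW_up
  obtain ⟨rA, hrA, hCo⟩ := hA.CO
  have hc0 : 1 ≤ c0 := by
    unfold c0 cnu
    have : 0 ≤ 16 * (∫ y, (deriv (Qf 4) y) ^ 2) / Iq ^ 2 :=
      div_nonneg (mul_nonneg (by norm_num) (integral_nonneg fun y => sq_nonneg _)) (sq_nonneg _)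
    linarith
  refine ⟨w1, CN + 1, CX + 2 + 2 * CQ + 8 * CE * Cs ^ 2 + 1, hw1, hw11, by linarith, ?_, ?_⟩
  · have : 0 ≤ 8 * CE * Cs ^ 2 := by positivity
    linarith
  intro K0 K9 KE KN K5 hK0 hK9 hKE hK5
  have hC := hA.hC
  have hc := hA.hc
  have hC0 : 0 < C := by linarith
  have hCs0 : 0 < Cs := by linarith
  have hCg0 : 0 < Cg := by linarith
  have hCp0 : 0 < Cp := by linarith
  have t1 : 0 < 2 * Cs / c := by positivity
  have t2 : 0 < 2 * C * Cg / K0 := by positivity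
  have t3 : 0 < 4 * Cp / K5 := by positivity
  set D : ℝ := 2 * Cs / c + 2 * C * Cg / K0 + 4 * Cp / K5 + 4 * Cp + 2 * Cs + 4 * CX + 64 * CQ
    + 32 * CL with hDd
  have hD0 : 0 < D := by linarith
  have d1 : 2 * Cs / c ≤ D := by linarith
  have d2 : 2 * C * Cg / K0 ≤ D := by linarith
  have d3 : 4 * Cp / K5 ≤ D := by linarith
  have d4 : 4 * Cp ≤ D := by linarith
  have d5 : 2 * Cs ≤ D := by linarith
  have d6 : 4 * CX ≤ D := by linarith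
  have d7 : 64 * CQ ≤ D := by linarith
  have d8 : 32 * CL ≤ D := by linarith
  clear_value D
  refine ⟨min (1 / 2) (min rA (1 / D)), lt_min (by norm_num) (lt_min hrA (by positivity)),
    min_le_left _ _, ?_⟩
  intro r hr0 hr
  have hr2 : r ≤ 1 / 2 := hr.trans (min_le_left _ _)
  have hrA' : r ≤ rA := hr.trans ((min_le_right _ _).trans (min_le_left _ _))
  have hrD : D * r ≤ 1 := by
    have : r ≤ 1 / D := hr.trans ((min_le_right _ _).trans (min_le_right _ _))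
    rw [le_div_iff₀ hD0] at this
    linarith
  have hr1 : r ≤ 1 := by linarith
  have e1 : 2 * Cs * r ≤ c := by
    have := INh_div d1 hr0.le hrD
    rw [div_mul_eq_mul_div, div_le_one hc] at this
    exact this
  have e2 : 2 * C * Cg * r ≤ K0 := by
    have := INh_div d2 hr0.le hrD
    rw [div_mul_eq_mul_div, div_le_one hK0] at this
    exact this
  have e3 : 4 * Cp * r ≤ K5 := by
    have := INh_div d3 hr0.le hrD
    rw [div_mul_eq_mul_div, div_le_one hK5] at this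
    exact this
  have e4 : 4 * Cp * r ≤ 1 := INh_div d4 hr0.le hrD
  have e5 : 2 * Cs * r ≤ 1 := INh_div d5 hr0.le hrD
  have e6 : 4 * CX * r ≤ 1 := INh_div d6 hr0.le hrD
  have e7 : 64 * CQ * r ≤ 1 := INh_div d7 hr0.le hrD
  have e8 : 32 * CL * r ≤ 1 := INh_div d8 hr0.le hrD
  have pos : ∀ n : ℕ, 0 < r ^ n := fun n => pow_pos hr0 n
  have pw : ∀ {a b : ℕ}, a ≤ b → r ^ b ≤ r ^ a := fun h => INh_pw hr0 hr2 h
  refine ⟨dat_cl hp hw1 hw14 hr0 hr2, r ^ 60, CO, pos 60, by linarith, ?_⟩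
  rintro W ⟨p, q, hp0, hp1, hq0, hq1, hW⟩ hn
  -- the class of om
  set om : ℝ → ℝ := fun y => W y - W0 P E w1 r y with homd
  set μ : ℝ := min (min p q) (min (r ^ 8 / w1) (1 / 2)) with hμd
  have hμ0 : 0 < μ := lt_min (lt_min hp0 hq0) (lt_min (by positivity) (by norm_num))
  have hWμ : Cl μ μ (fun y => W y - Qf 4 y) :=
    Cl_mono hW ((min_le_left _ _).trans (min_le_left _ _))
      ((min_le_left _ _).trans (min_le_right _ _))
  have homμ : Cl μ μ om := by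
    have h1 := Cl_sub hWμ (Cl_mono (W0_cl hp hw1 hr0) (min_le_right (min p q) _)
      (min_le_right (min p q) _))
    have h2 : (fun y => W y - Qf 4 y - (W0 P E w1 r y - Qf 4 y)) = om := by
      funext y
      simp only [homd]
      ring
    rw [h2] at h1
    exact h1
  clear_value μ
  have hn0 : 0 ≤ ne2 om := integral_nonneg fun y => by positivity
  have hsn : √(ne2 om) ≤ r ^ 30 := by
    rw [Real.sqrt_le_left (pos 30).le]
    calc ne2 om ≤ r ^ 60 := hn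
      _ = (r ^ 30) ^ 2 := by ring
  have hsn0 : 0 ≤ √(ne2 om) := Real.sqrt_nonneg _
  obtain ⟨ha, hb⟩ := hpar r μ W hr0 hr1 hμ0 hWμ homμ
  have hs := hsup r μ W hr0 hr1 hμ0 hWμ homμ
  have hg := hG r μ W hr0 hr1 hμ0 hWμ homμ
  have hNn := hN r μ W hr0 hr1 hμ0 hWμ homμ
  have hXx := hX r μ W hr0 hr1 hμ0 hWμ homμ
  have hLl := hL r μ W hr0 hr1 hμ0 hWμ homμ
  have hQq := hQ r μ W hr0 hr1 hμ0 hWμ homμ
  have hOo := hO r μ W hr0 hr1 hμ0 hWμ homμ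
  change _ ≤ Cp * (r ^ 16 + √(ne2 om)) at ha
  change _ ≤ Cp * (r ^ 16 + √(ne2 om)) at hb
  change ∀ y, _ ≤ Cs * (r ^ 4 + √(ne2 om)) ∧ _ ≤ Cs * (r ^ 4 + √(ne2 om)) at hs
  change _ ≤ Cg * (r ^ 22 + ne2 om / r ^ 2) at hg
  change _ ≤ CN * r ^ 16 + 2 * ne2 om at hNn
  change _ ≤ CX * r ^ 8 + 4 * ne2 om at hXx
  change _ ≤ 16 * Ch ^ 2 * w1 + CL * r ^ 40 + 4 * ne2 om at hLl
  change _ ≤ CQ * (r ^ 4 + √(ne2 om)) at hQq
  -- simple bounds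
  have q16 : Cp * (r ^ 16 + √(ne2 om)) ≤ 2 * Cp * r ^ 16 := by
    have h1 := pw (show 16 ≤ 30 by norm_num)
    calc Cp * (r ^ 16 + √(ne2 om)) ≤ Cp * (r ^ 16 + r ^ 16) :=
          mul_le_mul_of_nonneg_left (by linarith only [h1, hsn]) hCp0.le
      _ = 2 * Cp * r ^ 16 := by ring
  have q4 : r ^ 4 + √(ne2 om) ≤ 2 * r ^ 4 := by
    have := pw (show 4 ≤ 30 by norm_num)
    linarith
  have h60 : ∀ k : ℕ, k ≤ 50 → r ^ 60 ≤ 1 / 1024 * r ^ k := by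
    intro k hk
    have h1 : r ^ 60 = r ^ 10 * r ^ 50 := by ring
    have h2 : r ^ 10 ≤ (1 / 2) ^ 10 := pow_le_pow_left₀ hr0.le hr2 10
    rw [h1]
    calc r ^ 10 * r ^ 50 ≤ (1 / 2) ^ 10 * r ^ k :=
          mul_le_mul h2 (pw hk) (pos 50).le (by norm_num)
      _ = 1 / 1024 * r ^ k := by norm_num
  have f16 : 2 * Cp * r ^ 16 ≤ 1 / 2 * r ^ 15 := by
    have h1 : 2 * Cp * r ^ 16 = (4 * Cp * r) * (1 / 2 * r ^ 15) := by ring
    rw [h1]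
    exact mul_le_of_le_one_left (by have := pos 15; positivity) e4
  have f16' : 2 * Cp * r ^ 16 ≤ K5 * (1 / 2 * r ^ 15) := by
    have h1 : 2 * Cp * r ^ 16 = (4 * Cp * r) * (1 / 2 * r ^ 15) := by ring
    rw [h1]
    exact mul_le_mul_of_nonneg_right e3 (by have := pos 15; positivity)
  have hintL : (∫ y, (W y - Qf 4 y) ^ 2) ≤ 1 / 8 := by
    have h1 : CL * r ^ 40 ≤ 1 / 32 := by
      have h2 : CL * r ^ 40 ≤ CL * r ^ 1 := mul_le_mul_of_nonneg_left (pw (by norm_num)) (by linarith)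
      linarith
    have h3 := h60 0 (by norm_num)
    rw [pow_zero] at h3
    linarith
  have hd4 : Cs * (r ^ 4 + √(ne2 om)) ≤ 2 * Cs * r ^ 4 := by
    calc Cs * (r ^ 4 + √(ne2 om)) ≤ Cs * (2 * r ^ 4) := mul_le_mul_of_nonneg_left q4 hCs0.le
      _ = 2 * Cs * r ^ 4 := by ring
  have hd1 : 2 * Cs * r ^ 4 ≤ 2 * Cs * r := by
    have h1 := pw (show 1 ≤ 4 by norm_num)
    rw [pow_one] at h1
    exact mul_le_mul_of_nonneg_left h1 (by positivity)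
  have hQ4 : CQ * (r ^ 4 + √(ne2 om)) ≤ 2 * CQ * r ^ 4 := by
    calc CQ * (r ^ 4 + √(ne2 om)) ≤ CQ * (2 * r ^ 4) :=
          mul_le_mul_of_nonneg_left q4 (by linarith only [hCQ])
      _ = 2 * CQ * r ^ 4 := by ring
  refine ⟨⟨?_, ?_, ?_, ?_, ?_, ?_, ?_, ?_, ?_⟩, ?_, hOo.1, hOo.2⟩
  · -- g1
    have h1 := (hCo r W hr0 hrA' ⟨p, q, hp0, hp1, hq0, hq1, hW⟩ (fun y => by
      have := (hs y).1
      linarith)).2.1
    have h2 := (le_abs_self _).trans h1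
    have h3 : ne2 om / r ^ 2 ≤ r ^ 22 := by
      rw [div_le_iff₀ (pos 2)]
      calc ne2 om ≤ r ^ 60 := hn
        _ ≤ r ^ 24 := pw (by norm_num)
        _ = r ^ 22 * r ^ 2 := by ring
    have h4 : C * G4 B (r ^ 2) (ep P E (r ^ 2) W) ≤ K0 * r ^ 10 := by
      calc C * G4 B (r ^ 2) (ep P E (r ^ 2) W) ≤ C * (Cg * (r ^ 22 + ne2 om / r ^ 2)) :=
            mul_le_mul_of_nonneg_left hg hC0.le
        _ ≤ C * (Cg * (r ^ 22 + r ^ 22)) := by gcongr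
        _ = (2 * C * Cg * r) * r ^ 21 := by ring
        _ ≤ K0 * r ^ 21 := mul_le_mul_of_nonneg_right e2 (pos 21).le
        _ ≤ K0 * r ^ 10 := mul_le_mul_of_nonneg_left (pw (by norm_num)) hK0.le
    have h5 : K0 / r ^ 6 * Nn (r ^ 2) W ≤ K0 * (CN + 2) * r ^ 10 := by
      have h6 : Nn (r ^ 2) W ≤ (CN + 2) * r ^ 16 := by
        have := h60 16 (by norm_num)
        have := pos 16
        linarith
      calc K0 / r ^ 6 * Nn (r ^ 2) W ≤ K0 / r ^ 6 * ((CN + 2) * r ^ 16) :=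
            mul_le_mul_of_nonneg_left h6 (by have := pos 6; positivity)
        _ = K0 * (CN + 2) * r ^ 10 := by
            have := (pos 6).ne'
            field_simp
    unfold LL4
    have h7 : 4 * K0 * (CN + 1 + 1) * r ^ 10 ≤ K9 * r ^ 10 :=
      mul_le_mul_of_nonneg_right hK9 (pos 10).le
    have h8 : 0 < K0 * r ^ 10 := mul_pos hK0 (pos 10)
    have h9 : 0 < K0 * CN * r ^ 10 := mul_pos (mul_pos hK0 (by linarith)) (pos 10)
    linarith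
  · -- g2
    have h1 := (abs_le.1 hb).2
    have h2 := pw (show 4 ≤ 15 by norm_num)
    have h3 : r ^ 4 ≤ c0 * r ^ 4 := le_mul_of_one_le_left (pos 4).le hc0
    have := pos 4
    linarith
  · -- g3
    have h1 := (abs_le.1 hb).1
    have h2 := pw (show 4 ≤ 15 by norm_num)
    have h3 : r ^ 4 ≤ c0 * r ^ 4 := le_mul_of_one_le_left (pos 4).le hc0
    have := pos 4
    linarith
  · -- g4
    have hd0 : 0 ≤ 2 * Cs * r ^ 4 := by have := pos 4; positivity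
    have h1 := hE p q (2 * Cs * r ^ 4) W hp0 hq0 (by linarith) (by linarith) hW hd0 (by linarith)
      (fun y => by
        have := (hs y).2
        linarith)
    have h2 : CE * (2 * Cs * r ^ 4) ^ 2 * (1 + ∫ y, (W y - Qf 4 y) ^ 2) ≤
        8 * CE * Cs ^ 2 * r ^ 4 := by
      calc CE * (2 * Cs * r ^ 4) ^ 2 * (1 + ∫ y, (W y - Qf 4 y) ^ 2) ≤
            CE * (2 * Cs * r ^ 4) ^ 2 * 2 :=
            mul_le_mul_of_nonneg_left (by linarith) (by positivity)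
        _ = 8 * CE * Cs ^ 2 * r ^ 8 := by ring
        _ ≤ 8 * CE * Cs ^ 2 * r ^ 4 :=
            mul_le_mul_of_nonneg_left (pw (by norm_num)) (by positivity)
    have h3 : CX * r ^ 8 ≤ CX * r ^ 4 := mul_le_mul_of_nonneg_left (pw (by norm_num)) (by linarith)
    have h4 := h60 4 (by norm_num)
    have h5 : (CX + 2 + 2 * CQ + 8 * CE * Cs ^ 2 + 1) * r ^ 4 ≤ KE * r ^ 4 :=
      mul_le_mul_of_nonneg_right hKE (pos 4).le
    have h6 : 0 < CX * r ^ 4 := mul_pos (by linarith) (pos 4)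
    have := pos 4
    linarith
  · -- g5
    have := h60 16 (by norm_num)
    have := pos 16
    have h1 : (CN + 1 + KN * 0) * r ^ 16 = CN * r ^ 16 + r ^ 16 := by ring
    rw [h1]
    linarith
  · -- g6
    have h1 := (abs_le.1 ha).2
    have h2 : K5 * (1 / 2 * r ^ 15) ≤ 1 / 2 * (K5 * r ^ 5) := by
      have := mul_le_mul_of_nonneg_left (pw (show 5 ≤ 15 by norm_num)) hK5.le
      linarith
    have h3 : 0 < K5 * r ^ 5 := mul_pos hK5 (pos 5)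
    have h4 : (f0 + 2 * K5 * r) * r ^ 4 = f0 * r ^ 4 + 2 * (K5 * r ^ 5) := by ring
    rw [h4]
    linarith
  · -- g7
    have h1 := (abs_le.1 ha).1
    have h2 : K5 * (1 / 2 * r ^ 15) ≤ 1 / 2 * (K5 * r ^ 5) := by
      have := mul_le_mul_of_nonneg_left (pw (show 5 ≤ 15 by norm_num)) hK5.le
      linarith
    have h3 : 0 < K5 * r ^ 5 := mul_pos hK5 (pos 5)
    have h4 : (f0 - 2 * K5 * r) * r ^ 4 = f0 * r ^ 4 - 2 * (K5 * r ^ 5) := by ring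
    rw [h4]
    linarith
  · -- g8
    have h1 : CX * r ^ 8 ≤ 1 / 4 * r ^ 2 := by
      have h2 : CX * r ^ 8 = (4 * CX * r) * (1 / 4 * r ^ 7) := by ring
      rw [h2]
      calc (4 * CX * r) * (1 / 4 * r ^ 7) ≤ 1 / 4 * r ^ 7 :=
            mul_le_of_le_one_left (by have := pos 7; positivity) e6
        _ ≤ 1 / 4 * r ^ 2 := mul_le_mul_of_nonneg_left (pw (by norm_num)) (by norm_num)
    have h3 := h60 2 (by norm_num)
    have := pos 2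
    linarith
  · -- g9
    linarith
  · -- mass
    rw [INh_mass hp0 hq0 hW]
    have h1 := (le_abs_self _).trans hQq
    have h2 : 2 * CQ * r ^ 4 ≤ 1 / 32 := by
      have h3 : CQ * r ^ 4 ≤ CQ * r ^ 1 := mul_le_mul_of_nonneg_left (pw (by norm_num)) (by linarith)
      linarith
    linarith

end H68KC

end

end S_H68_KC_INh
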