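import Mathlib
import Pool.Agent.H98.BU.G01
import Pool.Agent.H98.BU.G02

/-! Blow-up for `u_t + u^k u_x + u_xxx - u_xx = 0`, part G28: this file joins several modules
to save build time (`Pool/Agent/H98/{KB,KC}`, `H72/{KB,KC}`, `H68/KC`, `H37/{KB,KC}`). -/

section S_H37_KB_Base

/-!
# PDE part of MP_95be7d (Theorem A of the note, `H98KB.ThmA`): definitions

Weak solutions `w ∈ C([0,T]; L²)` of `w_t = -w_xxx + w_xx - G_x`, slowly varying weights, mollification, families.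
-/

open MeasureTheory Filter Topology Set
open scoped ContDiff

noncomputable section

namespace H37KB

open H98KB

/-- `∫ f²` -/
def n2 (f : ℝ → ℝ) : ℝ := ∫ x, (f x) ^ 2

/-- square of the `H¹` norm of `f` with weak derivative `p` -/
def nh (f p : ℝ → ℝ) : ℝ := n2 f + n2 p

/-- `w ∈ C([0,T]; L²)` -/
structure CL2 (T : ℝ) (w : ℝ → ℝ → ℝ) : Prop where
  mem : ∀ t ∈ Icc 0 T, MemLp (w t) 2 volume
  cont : ∀ t₀ ∈ Icc 0 T, Tendsto (fun t => n2 (fun x => w t x - w t₀ x)) (𝓝[Icc 0 T] t₀) (𝓝 0)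

/-- `w_t = -w_xxx + w_xx - G_x` weakly on `[0,T]` -/
def Lin (T : ℝ) (w G : ℝ → ℝ → ℝ) : Prop :=
  ∀ θ : ℝ → ℝ, ContDiff ℝ ∞ θ → HasCompactSupport θ → ∀ t ∈ Icc 0 T,
    (∫ x, w t x * θ x) - (∫ x, w 0 x * θ x) =
      ∫ τ in (0:ℝ)..t, ∫ x, (w τ x * (iteratedDeriv 2 θ x + iteratedDeriv 3 θ x)
        + G τ x * deriv θ x)

/-- positive bounded slowly varying weights, with `W' ≥ -W/4` -/
structure Wt (c : ℝ) (W : ℝ → ℝ) : Prop where
  smooth : ContDiff ℝ ∞ W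
  pos : ∀ x, 0 < W x
  bdd : ∃ C, ∀ x, W x ≤ C
  low : ∀ x, -(1 / 4) * W x ≤ deriv W x
  b1 : ∀ x, |deriv W x| ≤ c * W x
  b2 : ∀ x, |iteratedDeriv 2 W x| ≤ c * W x
  b3 : ∀ x, |iteratedDeriv 3 W x| ≤ c * W x

/-- mollifier supported in `[-r,r]` -/
structure Mol (r : ℝ) (ρ : ℝ → ℝ) : Prop where
  smooth : ContDiff ℝ ∞ ρ
  nonneg : ∀ x, 0 ≤ ρ x
  supp : ∀ x, r ≤ |x| → ρ x = 0
  int : ∫ x, ρ x = 1

/-- `(ρ * v)(x) = ∫ ρ(x-z) v(z) dz` -/
def mol (ρ v : ℝ → ℝ) (x : ℝ) : ℝ := ∫ z, ρ (x - z) * v z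

/-- families of smooth functions, uniformly bounded by `bd (α/2) (1/16)` with all derivatives, Lipschitz in `a`, continuous in `t` -/
structure Fam (a₁ T α : ℝ) (F : ℝ → ℝ → ℝ → ℝ) : Prop where
  smooth : ∀ a ∈ Icc (-a₁) a₁, ∀ t ∈ Icc 0 T, ContDiff ℝ ∞ (F a t)
  bound : ∀ j : ℕ, ∃ C : ℝ, ∀ a ∈ Icc (-a₁) a₁, ∀ t ∈ Icc 0 T, ∀ x,
    |iteratedDeriv j (F a t) x| ≤ C * bd (α / 2) (1 / 16) x
  cont : ∀ j : ℕ, ∀ a ∈ Icc (-a₁) a₁, ∀ x, ContinuousOn (fun t => iteratedDeriv j (F a t) x) (Icc 0 T)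
  lip : ∀ j : ℕ, ∃ C : ℝ, ∀ a ∈ Icc (-a₁) a₁, ∀ a' ∈ Icc (-a₁) a₁, ∀ t ∈ Icc 0 T, ∀ x,
    |iteratedDeriv j (F a t) x - iteratedDeriv j (F a' t) x| ≤ C * |a - a'| * bd (α / 2) (1 / 16) x

/-- weighted bounds `∫ wt g_a(t)² ≤ K`, `∫ wt (g_a(t)-g_{a'}(t))² ≤ K |a-a'|²`, with integrability -/
structure WB (a₁ T α K : ℝ) (g : ℝ → ℝ → ℝ → ℝ) : Prop where
  int : ∀ a ∈ Icc (-a₁) a₁, ∀ t ∈ Icc 0 T, Integrable (fun x => wt α x * (g a t x) ^ 2)
  le : ∀ a ∈ Icc (-a₁) a₁, ∀ t ∈ Icc 0 T, ∫ x, wt α x * (g a t x) ^ 2 ≤ K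
  int' : ∀ a ∈ Icc (-a₁) a₁, ∀ a' ∈ Icc (-a₁) a₁, ∀ t ∈ Icc 0 T,
    Integrable (fun x => wt α x * (g a t x - g a' t x) ^ 2)
  le' : ∀ a ∈ Icc (-a₁) a₁, ∀ a' ∈ Icc (-a₁) a₁, ∀ t ∈ Icc 0 T,
    ∫ x, wt α x * (g a t x - g a' t x) ^ 2 ≤ K * |a - a'| ^ 2

end H37KB

end

end S_H37_KB_Base

section S_H37_KB_A1

/-!
# Row A1 of MP_95be7d_PDE (90 lines)

Elementary `L²(ℝ)` calculus for real functions (`n2 f = ∫ f²`, possibly with a bounded continuous weight `W`).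

* `A1_sq`, `A1_mul`: `MemLp.integrable_sq`, `MemLp.integrable_mul`.
* `A1_cs`, `A1_abs`: Cauchy-Schwarz.  Either `integral_mul_le_Lp_mul_Lq_of_nonneg` with `p = q = 2` for `|f|, |g|`, or the discriminant
  argument: `0 ≤ ∫ (s|f| - |g|)²` for all real `s`.
* `A1_add`, `A1_sub`: `(f ± g)² ≤ 2f² + 2g²` pointwise, integrate.
* `A1_W`: `W f²` is measurable and bounded by `C f²` (use `Integrable.mono'` or `Integrable.bdd_mul`), `|∫ W f²| ≤ ∫ |W| f² ≤ C n2 f`.
* `A1_diff`: `|∫ W (f² - g²)| ≤ C ∫ |f - g| |f + g| ≤ C √(n2 (f-g)) √(n2 (f+g))` and `n2 (f+g) ≤ 2 n2 f + 2 n2 g`.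
-/

open MeasureTheory Filter Topology Set
open scoped ContDiff

namespace H37KB

open H98KB

theorem A1_nonneg (f : ℝ → ℝ) : 0 ≤ n2 f :=
  integral_nonneg fun x => sq_nonneg (f x)

theorem A1_sq {f : ℝ → ℝ} (hf : MemLp f 2 volume) : Integrable (fun x => (f x) ^ 2) :=
  hf.integrable_sq

theorem A1_mul {f g : ℝ → ℝ} (hf : MemLp f 2 volume) (hg : MemLp g 2 volume) :
    Integrable (fun x => f x * g x) :=
  hf.integrable_mul hg

theorem A1_abs {f g : ℝ → ℝ} (hf : MemLp f 2 volume) (hg : MemLp g 2 volume) :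
    ∫ x, |f x * g x| ≤ √(n2 f) * √(n2 g) := by
  have i1 := A1_sq hf
  have i2 := A1_sq hg
  have i3 : Integrable (fun x => |f x * g x|) := (A1_mul hf hg).abs
  have key : ∀ s : ℝ, 0 ≤ n2 f * (s * s) + (-2 * ∫ x, |f x * g x|) * s + n2 g := by
    intro s
    have h1 : 0 ≤ ∫ x, (s * |f x| - |g x|) ^ 2 := integral_nonneg fun x => sq_nonneg _
    have h2 : ∫ x, (s * |f x| - |g x|) ^ 2 =
        ∫ x, (s ^ 2 * (f x) ^ 2 + ((-2 * s) * |f x * g x| + (g x) ^ 2)) := by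
      refine integral_congr_ae (ae_of_all _ fun x => ?_)
      have e1 := sq_abs (f x)
      have e2 := sq_abs (g x)
      have e3 := abs_mul (f x) (g x)
      simp only
      rw [e3, ← e1, ← e2]
      ring
    have j1 : Integrable (fun x => s ^ 2 * (f x) ^ 2) := i1.const_mul _
    have j3 : Integrable (fun x => (-2 * s) * |f x * g x|) := i3.const_mul _
    have j2 : Integrable (fun x => (-2 * s) * |f x * g x| + (g x) ^ 2) := j3.add i2
    rw [h2, integral_add j1 j2, integral_add j3 i2, integral_const_mul, integral_const_mul] at h1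
    unfold n2
    linarith
  have hd := discrim_le_zero key
  unfold discrim at hd
  rw [← Real.sqrt_mul (A1_nonneg f)]
  refine Real.le_sqrt_of_sq_le ?_
  linarith

theorem A1_cs {f g : ℝ → ℝ} (hf : MemLp f 2 volume) (hg : MemLp g 2 volume) :
    |∫ x, f x * g x| ≤ √(n2 f) * √(n2 g) :=
  abs_integral_le_integral_abs.trans (A1_abs hf hg)

theorem A1_add {f g : ℝ → ℝ} (hf : MemLp f 2 volume) (hg : MemLp g 2 volume) :
    n2 (fun x => f x + g x) ≤ 2 * n2 f + 2 * n2 g := by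
  have i1 := A1_sq hf
  have i2 := A1_sq hg
  have i3 : Integrable (fun x => (f x + g x) ^ 2) := A1_sq (hf.add hg)
  unfold n2
  rw [← integral_const_mul, ← integral_const_mul,
    ← integral_add (i1.const_mul _) (i2.const_mul _)]
  refine integral_mono i3 ((i1.const_mul _).add (i2.const_mul _)) fun x => ?_
  simp only
  nlinarith [sq_nonneg (f x - g x)]

theorem A1_sub {f g : ℝ → ℝ} (hf : MemLp f 2 volume) (hg : MemLp g 2 volume) :
    n2 (fun x => f x - g x) ≤ 2 * n2 f + 2 * n2 g := by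
  have i1 := A1_sq hf
  have i2 := A1_sq hg
  have i3 : Integrable (fun x => (f x - g x) ^ 2) := A1_sq (hf.sub hg)
  unfold n2
  rw [← integral_const_mul, ← integral_const_mul,
    ← integral_add (i1.const_mul _) (i2.const_mul _)]
  refine integral_mono i3 ((i1.const_mul _).add (i2.const_mul _)) fun x => ?_
  simp only
  nlinarith [sq_nonneg (f x + g x)]

theorem A1_W {W f : ℝ → ℝ} {C : ℝ} (hW : Continuous W) (hb : ∀ x, |W x| ≤ C)
    (hf : MemLp f 2 volume) :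
    Integrable (fun x => W x * (f x) ^ 2) ∧ |∫ x, W x * (f x) ^ 2| ≤ C * n2 f := by
  have i1 := A1_sq hf
  have hle : ∀ x, ‖W x * (f x) ^ 2‖ ≤ C * (f x) ^ 2 := fun x => by
    rw [Real.norm_eq_abs, abs_mul, abs_of_nonneg (sq_nonneg (f x))]
    exact mul_le_mul_of_nonneg_right (hb x) (sq_nonneg _)
  constructor
  · exact (i1.const_mul C).mono' (hW.aestronglyMeasurable.mul i1.aestronglyMeasurable)
      (ae_of_all _ hle)
  · have h := norm_integral_le_of_norm_le (i1.const_mul C) (ae_of_all _ hle)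
    rw [integral_const_mul] at h
    exact h

theorem A1_Wmul {W f g : ℝ → ℝ} {C : ℝ} (hW : Continuous W) (hb : ∀ x, |W x| ≤ C)
    (hf : MemLp f 2 volume) (hg : MemLp g 2 volume) :
    Integrable (fun x => W x * (f x * g x)) ∧
      ∫ x, |W x * (f x * g x)| ≤ C * (√(n2 f) * √(n2 g)) := by
  have i1 := A1_mul hf hg
  have hC : 0 ≤ C := (abs_nonneg (W 0)).trans (hb 0)
  have hle : ∀ x, |W x * (f x * g x)| ≤ C * |f x * g x| := fun x => by
    rw [abs_mul]
    exact mul_le_mul_of_nonneg_right (hb x) (abs_nonneg _)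
  have i2 : Integrable (fun x => W x * (f x * g x)) :=
    (i1.abs.const_mul C).mono' (hW.aestronglyMeasurable.mul i1.aestronglyMeasurable)
      (ae_of_all _ hle)
  refine ⟨i2, ?_⟩
  have h := integral_mono i2.abs (i1.abs.const_mul C) hle
  rw [integral_const_mul] at h
  exact h.trans (mul_le_mul_of_nonneg_left (A1_abs hf hg) hC)

theorem A1_diff {W f g : ℝ → ℝ} {C : ℝ} (hW : Continuous W) (hb : ∀ x, |W x| ≤ C)
    (hf : MemLp f 2 volume) (hg : MemLp g 2 volume) :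
    |(∫ x, W x * (f x) ^ 2) - ∫ x, W x * (g x) ^ 2| ≤
      C * (√(n2 (fun x => f x - g x)) * √(2 * n2 f + 2 * n2 g)) := by
  have hC : 0 ≤ C := (abs_nonneg (W 0)).trans (hb 0)
  have hs : MemLp (fun x => f x - g x) 2 volume := hf.sub hg
  have ha : MemLp (fun x => f x + g x) 2 volume := hf.add hg
  rw [← integral_sub (A1_W hW hb hf).1 (A1_W hW hb hg).1]
  have e : (fun x => W x * (f x) ^ 2 - W x * (g x) ^ 2) =
      fun x => W x * ((f x - g x) * (f x + g x)) := by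
    funext x
    ring
  rw [e]
  refine abs_integral_le_integral_abs.trans ((A1_Wmul hW hb hs ha).2.trans ?_)
  refine mul_le_mul_of_nonneg_left ?_ hC
  refine mul_le_mul_of_nonneg_left ?_ (Real.sqrt_nonneg _)
  exact Real.sqrt_le_sqrt (A1_add hf hg)

end H37KB

end S_H37_KB_A1

section S_H37_KB_A2

/-!
# Row A2 of MP_95be7d_PDE (110 lines)

Facts on `CL2 T w` (`w ∈ C([0,T]; L²)`).

* `A2_pair`: `|∫ w(t)θ - ∫ w(t₀)θ| ≤ √(n2 (w t - w t₀)) √(n2 θ) → 0` (`A1_cs`).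
* `A2_W`: `A1_diff` with `f = w t`, `g = w t₀`, and `n2 (w t) ≤ 2 n2 (w t₀) + 2 n2 (w t - w t₀)` stays bounded as `t → t₀`.
* `A2_n2`: the case `W = 1` (`n2 f = ∫ 1 * f²`).   `A2_bdd`: continuous on the compact `Icc 0 T` (if `T < 0` trivial).
* `A2_add`, `A2_sub`: `A1_add`, `A1_sub`.  `A2_mono`: `nhdsWithin_mono`.
-/

open MeasureTheory Filter Topology Set
open scoped ContDiff

namespace H37KB

open H98KB

theorem A2_pair {T : ℝ} {w : ℝ → ℝ → ℝ} {θ : ℝ → ℝ} (hw : CL2 T w) (hθ : MemLp θ 2 volume) :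
    ContinuousOn (fun t => ∫ x, w t x * θ x) (Icc 0 T) := by
  intro t₀ ht₀
  have h0 := hw.cont t₀ ht₀
  have h1 : Tendsto (fun t => √(n2 (fun x => w t x - w t₀ x)) * √(n2 θ)) (𝓝[Icc 0 T] t₀) (𝓝 0) := by
    have := (Real.continuous_sqrt.tendsto 0).comp h0
    rw [Real.sqrt_zero] at this
    simpa using this.mul_const (√(n2 θ))
  rw [ContinuousWithinAt, tendsto_iff_norm_sub_tendsto_zero]
  refine squeeze_zero' (Eventually.of_forall fun t => norm_nonneg _) ?_ h1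
  filter_upwards [self_mem_nhdsWithin] with t ht
  rw [Real.norm_eq_abs, ← integral_sub (A1_mul (hw.mem t ht) hθ) (A1_mul (hw.mem t₀ ht₀) hθ)]
  have e : (fun x => w t x * θ x - w t₀ x * θ x) = fun x => (w t x - w t₀ x) * θ x := by
    funext x
    ring
  rw [e]
  exact A1_cs ((hw.mem t ht).sub (hw.mem t₀ ht₀)) hθ

theorem A2_W {T C : ℝ} {w : ℝ → ℝ → ℝ} {W : ℝ → ℝ} (hw : CL2 T w) (hW : Continuous W)
    (hb : ∀ x, |W x| ≤ C) : ContinuousOn (fun t => ∫ x, W x * (w t x) ^ 2) (Icc 0 T) := by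
  intro t₀ ht₀
  have hC : 0 ≤ C := (abs_nonneg (W 0)).trans (hb 0)
  have h0 := hw.cont t₀ ht₀
  have h1 : Tendsto (fun t => C * (√(n2 (fun x => w t x - w t₀ x)) *
      √(2 * (2 * n2 (fun x => w t x - w t₀ x) + 2 * n2 (w t₀)) + 2 * n2 (w t₀))))
      (𝓝[Icc 0 T] t₀) (𝓝 0) := by
    have a1 := (Real.continuous_sqrt.tendsto 0).comp h0
    rw [Real.sqrt_zero] at a1
    have a2 : Tendsto (fun t => √(2 * (2 * n2 (fun x => w t x - w t₀ x) + 2 * n2 (w t₀)) +
        2 * n2 (w t₀))) (𝓝[Icc 0 T] t₀) (𝓝 (√(2 * (2 * 0 + 2 * n2 (w t₀)) + 2 * n2 (w t₀)))) :=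
      (Real.continuous_sqrt.tendsto _).comp
        ((((h0.const_mul 2).add_const _).const_mul 2).add_const _)
    have a3 := (a1.mul a2).const_mul C
    simpa using a3
  rw [ContinuousWithinAt, tendsto_iff_norm_sub_tendsto_zero]
  refine squeeze_zero' (Eventually.of_forall fun t => norm_nonneg _) ?_ h1
  filter_upwards [self_mem_nhdsWithin] with t ht
  rw [Real.norm_eq_abs]
  refine (A1_diff hW hb (hw.mem t ht) (hw.mem t₀ ht₀)).trans ?_
  refine mul_le_mul_of_nonneg_left ?_ hC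
  refine mul_le_mul_of_nonneg_left ?_ (Real.sqrt_nonneg _)
  refine Real.sqrt_le_sqrt ?_
  have h2 : n2 (w t) ≤ 2 * n2 (fun x => w t x - w t₀ x) + 2 * n2 (w t₀) := by
    have h3 := A1_add (f := fun x => w t x - w t₀ x) (g := w t₀)
      ((hw.mem t ht).sub (hw.mem t₀ ht₀)) (hw.mem t₀ ht₀)
    simpa using h3
  linarith

theorem A2_n2 {T : ℝ} {w : ℝ → ℝ → ℝ} (hw : CL2 T w) :
    ContinuousOn (fun t => n2 (w t)) (Icc 0 T) := by
  have h := A2_W (C := 1) (W := fun _ => (1 : ℝ)) hw continuous_const (fun x => by simp)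
  simpa [n2] using h

theorem A2_bdd {T : ℝ} {w : ℝ → ℝ → ℝ} (hw : CL2 T w) :
    ∃ M, 0 ≤ M ∧ ∀ t ∈ Icc 0 T, n2 (w t) ≤ M := by
  obtain ⟨M, hM⟩ := (isCompact_Icc (a := (0:ℝ)) (b := T)).bddAbove_image (A2_n2 hw)
  refine ⟨max M 0, le_max_right _ _, fun t ht => ?_⟩
  exact (hM (mem_image_of_mem _ ht)).trans (le_max_left _ _)

theorem A2_add {T : ℝ} {w v : ℝ → ℝ → ℝ} (hw : CL2 T w) (hv : CL2 T v) :
    CL2 T (fun t x => w t x + v t x) := by
  refine ⟨fun t ht => (hw.mem t ht).add (hv.mem t ht), fun t₀ ht₀ => ?_⟩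
  have h1 : Tendsto (fun t => 2 * n2 (fun x => w t x - w t₀ x) + 2 * n2 (fun x => v t x - v t₀ x))
      (𝓝[Icc 0 T] t₀) (𝓝 0) := by
    have := ((hw.cont t₀ ht₀).const_mul 2).add ((hv.cont t₀ ht₀).const_mul 2)
    simpa using this
  refine squeeze_zero' (Eventually.of_forall fun t => A1_nonneg _) ?_ h1
  filter_upwards [self_mem_nhdsWithin] with t ht
  have e : (fun x => w t x + v t x - (w t₀ x + v t₀ x)) =
      fun x => (w t x - w t₀ x) + (v t x - v t₀ x) := by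
    funext x
    ring
  rw [e]
  exact A1_add ((hw.mem t ht).sub (hw.mem t₀ ht₀)) ((hv.mem t ht).sub (hv.mem t₀ ht₀))

theorem A2_sub {T : ℝ} {w v : ℝ → ℝ → ℝ} (hw : CL2 T w) (hv : CL2 T v) :
    CL2 T (fun t x => w t x - v t x) := by
  refine ⟨fun t ht => (hw.mem t ht).sub (hv.mem t ht), fun t₀ ht₀ => ?_⟩
  have h1 : Tendsto (fun t => 2 * n2 (fun x => w t x - w t₀ x) + 2 * n2 (fun x => v t x - v t₀ x))
      (𝓝[Icc 0 T] t₀) (𝓝 0) := by
    have := ((hw.cont t₀ ht₀).const_mul 2).add ((hv.cont t₀ ht₀).const_mul 2)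
    simpa using this
  refine squeeze_zero' (Eventually.of_forall fun t => A1_nonneg _) ?_ h1
  filter_upwards [self_mem_nhdsWithin] with t ht
  have e : (fun x => w t x - v t x - (w t₀ x - v t₀ x)) =
      fun x => (w t x - w t₀ x) - (v t x - v t₀ x) := by
    funext x
    ring
  rw [e]
  exact A1_sub ((hw.mem t ht).sub (hw.mem t₀ ht₀)) ((hv.mem t ht).sub (hv.mem t₀ ht₀))

theorem A2_mono {T T' : ℝ} {w : ℝ → ℝ → ℝ} (hw : CL2 T w) (h : T' ≤ T) : CL2 T' w := by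
  have hs : Icc 0 T' ⊆ Icc 0 T := Icc_subset_Icc_right h
  exact ⟨fun t ht => hw.mem t (hs ht), fun t₀ ht₀ =>
    (hw.cont t₀ (hs ht₀)).mono_left (nhdsWithin_mono _ hs)⟩

end H37KB

end S_H37_KB_A2

section S_H37_KB_B1

/-!
# Row B1 of MP_95be7d_PDE (130 lines)

Mollification `mol ρ v x = ∫ ρ(x-z) v(z) dz` with `ρ` smooth of compact support and `v ∈ L²`, pointwise facts.

`mol ρ v` is the convolution `v ⋆[lsmul or mul] ρ` of Mathlib (`convolution` is `∫ v t * ρ (x - t)`, commute the factors):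
`HasCompactSupport.contDiff_convolution_right`, `HasCompactSupport.hasDerivAt_convolution_right` with `v` locally integrable
(`MemLp.locallyIntegrable`).

* `B1_test`: `iteratedDeriv j ρ` is smooth with compact support (`HasCompactSupport.iteratedFDeriv` or induction with
  `HasCompactSupport.deriv`), continuous with compact support is in `L²` (`Continuous.memLp_of_hasCompactSupport`).
* `B1_shift`: `z ↦ ρ(x - z)`; derivatives: `iteratedDeriv_comp_const_sub` or induction.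
* `B1_iter`: induction on `j` from `B1_deriv`.
* `B1_cs`: `A1_cs` for `z ↦ ρ(x-z)`; `n2 (fun z => ρ (x - z)) = n2 ρ` (`integral_sub_left_eq_self`).
* `B1_joint`: `|mol ρ (w t) x - mol ρ (w s) y| ≤ √(n2 ρ) √(n2 (w t - w s)) + |mol ρ (w s) x - mol ρ (w s) y|`, the last term tends to `0` as `x → y`
  since `mol ρ (w s)` is continuous.
-/

open MeasureTheory Filter Topology Set
open scoped ContDiff

namespace H37KB

open H98KB

theorem B1_cd {ρ : ℝ → ℝ} (h : ContDiff ℝ ∞ ρ) : ContDiff ℝ 1 ρ := by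
  have := contDiff_infty.1 h 1
  exact_mod_cast this

theorem B1_conv (ρ v : ℝ → ℝ) :
    mol ρ v = MeasureTheory.convolution v ρ (ContinuousLinearMap.mul ℝ ℝ) volume := by
  funext x
  unfold mol MeasureTheory.convolution
  refine integral_congr_ae (Filter.Eventually.of_forall fun z => ?_)
  simp only [ContinuousLinearMap.mul_apply']
  ring

theorem B1_loc {v : ℝ → ℝ} (hv : MemLp v 2 volume) : LocallyIntegrable v volume :=
  hv.locallyIntegrable (by norm_num)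

theorem B1_test {ρ : ℝ → ℝ} (h : ContDiff ℝ ∞ ρ) (hc : HasCompactSupport ρ) (j : ℕ) :
    ContDiff ℝ ∞ (iteratedDeriv j ρ) ∧ HasCompactSupport (iteratedDeriv j ρ) ∧
      MemLp (iteratedDeriv j ρ) 2 volume := by
  have key : ContDiff ℝ ∞ (iteratedDeriv j ρ) ∧ HasCompactSupport (iteratedDeriv j ρ) := by
    induction j with
    | zero =>
      rw [iteratedDeriv_zero]
      exact ⟨h, hc⟩
    | succ j ih =>
      rw [iteratedDeriv_succ]
      exact ⟨(contDiff_infty_iff_deriv.1 ih.1).2, ih.2.deriv⟩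
  exact ⟨key.1, key.2, key.1.continuous.memLp_of_hasCompactSupport key.2⟩

theorem B1_shift {ρ : ℝ → ℝ} (h : ContDiff ℝ ∞ ρ) (hc : HasCompactSupport ρ) (x : ℝ) :
    ContDiff ℝ ∞ (fun z => ρ (x - z)) ∧ HasCompactSupport (fun z => ρ (x - z)) ∧
      MemLp (fun z => ρ (x - z)) 2 volume ∧
      (∀ (j : ℕ) (z : ℝ), iteratedDeriv j (fun z => ρ (x - z)) z =
        (-1) ^ j * iteratedDeriv j ρ (x - z)) := by
  have h1 : ContDiff ℝ ∞ (fun z : ℝ => x - z) := contDiff_const.sub contDiff_fun_id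
  have h2 : ContDiff ℝ ∞ (fun z => ρ (x - z)) := h.comp h1
  have h3 : HasCompactSupport (fun z => ρ (x - z)) :=
    hc.comp_homeomorph (Homeomorph.subLeft x)
  refine ⟨h2, h3, h2.continuous.memLp_of_hasCompactSupport h3, ?_⟩
  intro j z
  have h4 := congrFun (iteratedDeriv_comp_const_sub j ρ x) z
  rw [h4, smul_eq_mul]

theorem B1_smooth {ρ v : ℝ → ℝ} (h : ContDiff ℝ ∞ ρ) (hc : HasCompactSupport ρ)
    (hv : MemLp v 2 volume) : ContDiff ℝ ∞ (mol ρ v) := by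
  rw [B1_conv]
  exact hc.contDiff_convolution_right _ (B1_loc hv) h

theorem B1_deriv {ρ v : ℝ → ℝ} (h : ContDiff ℝ ∞ ρ) (hc : HasCompactSupport ρ)
    (hv : MemLp v 2 volume) : deriv (mol ρ v) = mol (deriv ρ) v := by
  rw [B1_conv, B1_conv]
  funext x
  exact (HasCompactSupport.hasDerivAt_convolution_right (ContinuousLinearMap.mul ℝ ℝ)
    (B1_loc hv) hc (B1_cd h) x).deriv

theorem B1_iter {ρ v : ℝ → ℝ} (h : ContDiff ℝ ∞ ρ) (hc : HasCompactSupport ρ)
    (hv : MemLp v 2 volume) (j : ℕ) : iteratedDeriv j (mol ρ v) = mol (iteratedDeriv j ρ) v := by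
  induction j with
  | zero => rw [iteratedDeriv_zero, iteratedDeriv_zero]
  | succ j ih =>
    rw [iteratedDeriv_succ, ih, B1_deriv (B1_test h hc j).1 (B1_test h hc j).2.1 hv,
      ← iteratedDeriv_succ]

theorem B1_sub {ρ v w : ℝ → ℝ} (h : ContDiff ℝ ∞ ρ) (hc : HasCompactSupport ρ)
    (hv : MemLp v 2 volume) (hw : MemLp w 2 volume) (x : ℝ) :
    mol ρ (fun z => v z - w z) x = mol ρ v x - mol ρ w x := by
  unfold mol
  have h1 := (B1_shift h hc x).2.2.1
  rw [← integral_sub (A1_mul h1 hv) (A1_mul h1 hw)]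
  refine integral_congr_ae (Filter.Eventually.of_forall fun z => ?_)
  simp only
  ring

theorem B1_cs {ρ v : ℝ → ℝ} (h : ContDiff ℝ ∞ ρ) (hc : HasCompactSupport ρ)
    (hv : MemLp v 2 volume) (x : ℝ) : |mol ρ v x| ≤ √(n2 ρ) * √(n2 v) := by
  have h1 := A1_cs (B1_shift h hc x).2.2.1 hv
  have h2 : n2 (fun z => ρ (x - z)) = n2 ρ := by
    unfold n2
    exact integral_sub_left_eq_self (fun y => (ρ y) ^ 2) volume x
  rw [h2] at h1
  exact h1

theorem B1_joint {T : ℝ} {w : ℝ → ℝ → ℝ} {ρ : ℝ → ℝ} (hw : CL2 T w) (h : ContDiff ℝ ∞ ρ)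
    (hc : HasCompactSupport ρ) :
    ContinuousOn (fun q : ℝ × ℝ => mol ρ (w q.1) q.2) (Icc 0 T ×ˢ univ) := by
  rintro ⟨t₀, x₀⟩ ⟨ht₀, -⟩
  have ht₀' : t₀ ∈ Icc 0 T := ht₀
  rw [ContinuousWithinAt, tendsto_iff_norm_sub_tendsto_zero]
  have hfst : Tendsto (fun q : ℝ × ℝ => q.1) (𝓝[Icc 0 T ×ˢ univ] (t₀, x₀)) (𝓝[Icc 0 T] t₀) := by
    rw [nhdsWithin_prod_eq]
    exact tendsto_fst
  have hsnd : Tendsto (fun q : ℝ × ℝ => q.2) (𝓝[Icc 0 T ×ˢ univ] (t₀, x₀)) (𝓝 x₀) := by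
    rw [nhdsWithin_prod_eq, nhdsWithin_univ]
    exact tendsto_snd
  have l1 : Tendsto (fun q : ℝ × ℝ => √(n2 ρ) * √(n2 (fun x => w q.1 x - w t₀ x)))
      (𝓝[Icc 0 T ×ˢ univ] (t₀, x₀)) (𝓝 0) := by
    have h1 := (hw.cont t₀ ht₀').comp hfst
    have h2 := (Real.continuous_sqrt.tendsto 0).comp h1
    rw [Real.sqrt_zero] at h2
    have h3 := h2.const_mul (√(n2 ρ))
    rw [mul_zero] at h3
    exact h3
  have l2 : Tendsto (fun q : ℝ × ℝ => |mol ρ (w t₀) q.2 - mol ρ (w t₀) x₀|)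
      (𝓝[Icc 0 T ×ˢ univ] (t₀, x₀)) (𝓝 0) := by
    have h1 := ((B1_smooth h hc (hw.mem t₀ ht₀')).continuous.tendsto x₀).comp hsnd
    have h2 := tendsto_iff_norm_sub_tendsto_zero.1 h1
    exact h2
  have l3 := l1.add l2
  rw [add_zero] at l3
  refine squeeze_zero' (Filter.Eventually.of_forall fun q => norm_nonneg _) ?_ l3
  filter_upwards [self_mem_nhdsWithin] with q hq
  have hq1 : q.1 ∈ Icc 0 T := hq.1
  have e : mol ρ (w q.1) q.2 - mol ρ (w t₀) x₀ =
      mol ρ (fun z => w q.1 z - w t₀ z) q.2 + (mol ρ (w t₀) q.2 - mol ρ (w t₀) x₀) := by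
    rw [B1_sub h hc (hw.mem _ hq1) (hw.mem _ ht₀')]
    ring
  rw [Real.norm_eq_abs]
  change |mol ρ (w q.1) q.2 - mol ρ (w t₀) x₀| ≤ _
  rw [e]
  refine (abs_add_le _ _).trans (add_le_add ?_ le_rfl)
  exact B1_cs h hc ((hw.mem _ hq1).sub (hw.mem _ ht₀')) q.2

end H37KB

end S_H37_KB_B1

section S_H37_KB_B2

/-!
# Row B2 of MP_95be7d_PDE (140 lines)

Mollification and (weighted) `L²` norms.

General fact (Cauchy-Schwarz for the measure `|ρ(x-z)| dz`): `(mol ρ v x)² ≤ (∫ |ρ|) ∫ |ρ(x-z)| v(z)² dz`, for `v ∈ L²`, `ρ` continuous with compact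
support (write `|ρ v| = √|ρ| · √|ρ| |v|` and use `A1_cs`, both factors being in `L²`).
Then for `W ≥ 0` continuous, by Tonelli `∫ W(x) ∫ |ρ(x-z)| v(z)² dz dx = ∫ v(z)² (∫ W(x)|ρ(x-z)| dx) dz`; for `W = 1` the inner integral is `∫ |ρ|`, for
`Mol r ρ` and `W x ≤ κ W z` when `|x-z| ≤ r` it is at most `κ W z` (`ρ(x-z) = 0` unless `|x-z| ≤ r`).
Measurability of `mol ρ v`: it is continuous (for smooth `ρ` by `B1_smooth`; for continuous compactly supported `ρ`:
`HasCompactSupport.continuous_convolution_right`).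
`B2_avg` is the pointwise bound with `∫ |ρ| = ∫ ρ = 1`.   `B2_CL2`: `mol ρ (w t) - mol ρ (w t₀) = mol ρ (w t - w t₀)` (`B1_sub`) and `B2_L2`.
`B2_cpt`: `ρ = 0` off `[-r,r]`: `HasCompactSupport.intro isCompact_Icc`.
-/

open MeasureTheory Filter Topology Set
open scoped ContDiff

namespace H37KB

open H98KB

theorem B2_cm {ρ : ℝ → ℝ} (h : Continuous ρ) (hc : HasCompactSupport ρ) (x : ℝ) :
    Continuous (fun z => ρ (x - z)) ∧ HasCompactSupport (fun z => ρ (x - z)) := by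
  refine ⟨h.comp (continuous_const.sub continuous_id), ?_⟩
  exact hc.comp_homeomorph (Homeomorph.subLeft x)

theorem B2_gen {ρ v : ℝ → ℝ} (h : Continuous ρ) (hc : HasCompactSupport ρ)
    (hv : MemLp v 2 volume) (x : ℝ) :
    Integrable (fun z => |ρ (x - z)| * (v z) ^ 2) ∧
      (mol ρ v x) ^ 2 ≤ (∫ z, |ρ z|) * ∫ z, |ρ (x - z)| * (v z) ^ 2 := by
  obtain ⟨h1, h2⟩ := B2_cm h hc x
  obtain ⟨C, hC⟩ := h1.bounded_above_of_compact_support h2
  have hC' : ∀ z, |(fun z => |ρ (x - z)|) z| ≤ C := fun z => by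
    have := hC z
    rw [Real.norm_eq_abs] at this
    simpa using this
  have hi := (A1_W (W := fun z => |ρ (x - z)|) h1.abs hC' hv).1
  refine ⟨hi, ?_⟩
  have hf : MemLp (fun z => √|ρ (x - z)|) 2 volume := by
    refine (Real.continuous_sqrt.comp h1.abs).memLp_of_hasCompactSupport ?_
    refine h2.mono ?_
    intro z hz hz0
    apply hz
    have hz1 : ρ (x - z) = 0 := hz0
    change √|ρ (x - z)| = 0
    rw [hz1, abs_zero, Real.sqrt_zero]
  have hg : MemLp (fun z => √|ρ (x - z)| * |v z|) 2 volume := by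
    rw [memLp_two_iff_integrable_sq]
    · refine hi.congr (ae_of_all _ fun z => ?_)
      change |ρ (x - z)| * (v z) ^ 2 = (√|ρ (x - z)| * |v z|) ^ 2
      rw [mul_pow, Real.sq_sqrt (abs_nonneg _), sq_abs]
    · exact ((Real.continuous_sqrt.comp h1.abs).aestronglyMeasurable).mul hv.1.norm
  have h3 := A1_cs hf hg
  have e1 : n2 (fun z => √|ρ (x - z)|) = ∫ z, |ρ z| := by
    unfold n2
    rw [← integral_sub_left_eq_self (fun z => |ρ z|) volume x]
    refine integral_congr_ae (ae_of_all _ fun z => ?_)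
    change (√|ρ (x - z)|) ^ 2 = |ρ (x - z)|
    rw [Real.sq_sqrt (abs_nonneg _)]
  have e2 : n2 (fun z => √|ρ (x - z)| * |v z|) = ∫ z, |ρ (x - z)| * (v z) ^ 2 := by
    unfold n2
    refine integral_congr_ae (ae_of_all _ fun z => ?_)
    change (√|ρ (x - z)| * |v z|) ^ 2 = |ρ (x - z)| * (v z) ^ 2
    rw [mul_pow, Real.sq_sqrt (abs_nonneg _), sq_abs]
  have e3 : ∫ z, √|ρ (x - z)| * (√|ρ (x - z)| * |v z|) = ∫ z, |ρ (x - z) * v z| := by
    refine integral_congr_ae (ae_of_all _ fun z => ?_)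
    change √|ρ (x - z)| * (√|ρ (x - z)| * |v z|) = |ρ (x - z) * v z|
    rw [← mul_assoc, Real.mul_self_sqrt (abs_nonneg _), abs_mul]
  rw [e1, e2, e3] at h3
  have h4 : |mol ρ v x| ≤ ∫ z, |ρ (x - z) * v z| := by
    unfold mol
    exact abs_integral_le_integral_abs
  have h5 : |mol ρ v x| ≤ √(∫ z, |ρ z|) * √(∫ z, |ρ (x - z)| * (v z) ^ 2) :=
    h4.trans ((le_abs_self _).trans h3)
  have p1 : 0 ≤ ∫ z, |ρ z| := integral_nonneg fun z => abs_nonneg _
  have p2 : 0 ≤ ∫ z, |ρ (x - z)| * (v z) ^ 2 :=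
    integral_nonneg fun z => mul_nonneg (abs_nonneg _) (sq_nonneg _)
  calc (mol ρ v x) ^ 2 = |mol ρ v x| ^ 2 := (sq_abs _).symm
    _ ≤ (√(∫ z, |ρ z|) * √(∫ z, |ρ (x - z)| * (v z) ^ 2)) ^ 2 :=
        pow_le_pow_left₀ (abs_nonneg _) h5 2
    _ = (∫ z, |ρ z|) * ∫ z, |ρ (x - z)| * (v z) ^ 2 := by
        rw [mul_pow, Real.sq_sqrt p1, Real.sq_sqrt p2]

theorem B2_T {κ : ℝ} {ρ W v : ℝ → ℝ} (h : Continuous ρ) (hc : HasCompactSupport ρ) (h0 : ∀ x, 0 ≤ ρ x)
    (hW : Continuous W) (hW0 : ∀ x, 0 ≤ W x) (hκ : ∀ x z, ρ (x - z) ≠ 0 → W x ≤ κ * W z)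
    (hv : MemLp v 2 volume) (hi : Integrable (fun x => W x * (v x) ^ 2)) :
    Integrable (fun x => W x * ∫ z, ρ (x - z) * (v z) ^ 2) ∧
      ∫ x, W x * (∫ z, ρ (x - z) * (v z) ^ 2) ≤ κ * (∫ x, ρ x) * ∫ x, W x * (v x) ^ 2 := by
  have hF : AEStronglyMeasurable (fun p : ℝ × ℝ => W p.1 * (ρ (p.1 - p.2) * (v p.2) ^ 2))
      (volume.prod volume) := by
    have m1 : AEStronglyMeasurable (fun p : ℝ × ℝ => W p.1) (volume.prod volume) :=
      (hW.comp continuous_fst).aestronglyMeasurable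
    have m2 : AEStronglyMeasurable (fun p : ℝ × ℝ => ρ (p.1 - p.2)) (volume.prod volume) :=
      (h.comp (continuous_fst.sub continuous_snd)).aestronglyMeasurable
    have m3 : AEStronglyMeasurable (fun p : ℝ × ℝ => (v p.2) ^ 2) (volume.prod volume) :=
      (hv.1.comp_snd).pow 2
    exact m1.mul (m2.mul m3)
  have hin : ∀ z, Integrable (fun x => W x * ρ (x - z)) := fun z => by
    have c1 : Continuous (fun x => W x * ρ (x - z)) :=
      hW.mul (h.comp (continuous_id.sub continuous_const))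
    have c2 : HasCompactSupport (fun x => ρ (x - z)) := hc.comp_homeomorph (Homeomorph.subRight z)
    exact c1.integrable_of_hasCompactSupport (HasCompactSupport.mul_left c2)
  have hρi : Integrable ρ := h.integrable_of_hasCompactSupport hc
  have hle : ∀ z, ∫ x, W x * ρ (x - z) ≤ κ * W z * ∫ x, ρ x := fun z => by
    have e : ∫ x, ρ x = ∫ x, ρ (x - z) := (integral_sub_right_eq_self ρ z).symm
    rw [e, ← integral_const_mul]
    refine integral_mono (hin z) ((hρi.comp_sub_right z).const_mul _) fun x => ?_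
    change W x * ρ (x - z) ≤ κ * W z * ρ (x - z)
    by_cases hz : ρ (x - z) = 0
    · rw [hz, mul_zero, mul_zero]
    · exact mul_le_mul_of_nonneg_right (hκ x z hz) (h0 _)
  have hpos : ∀ z, 0 ≤ ∫ x, W x * ρ (x - z) := fun z =>
    integral_nonneg fun x => mul_nonneg (hW0 x) (h0 _)
  have e4 : ∀ z, ∫ x, W x * (ρ (x - z) * (v z) ^ 2) = (∫ x, W x * ρ (x - z)) * (v z) ^ 2 := fun z => by
    rw [← integral_mul_const]
    refine integral_congr_ae (ae_of_all _ fun x => ?_)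
    change W x * (ρ (x - z) * (v z) ^ 2) = W x * ρ (x - z) * (v z) ^ 2
    ring
  have hI : Integrable (fun p : ℝ × ℝ => W p.1 * (ρ (p.1 - p.2) * (v p.2) ^ 2))
      (volume.prod volume) := by
    rw [integrable_prod_iff' hF]
    constructor
    · refine ae_of_all _ fun z => ?_
      refine ((hin z).mul_const ((v z) ^ 2)).congr (ae_of_all _ fun x => ?_)
      change W x * ρ (x - z) * (v z) ^ 2 = W x * (ρ (x - z) * (v z) ^ 2)
      ring
    · refine (hi.const_mul (κ * ∫ x, ρ x)).mono' hF.norm.prod_swap.integral_prod_right' ?_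
      refine ae_of_all _ fun z => ?_
      have e5 : ∫ x, ‖W x * (ρ (x - z) * (v z) ^ 2)‖ = (∫ x, W x * ρ (x - z)) * (v z) ^ 2 := by
        rw [← e4]
        refine integral_congr_ae (ae_of_all _ fun x => ?_)
        exact Real.norm_of_nonneg (mul_nonneg (hW0 x) (mul_nonneg (h0 _) (sq_nonneg _)))
      change ‖∫ x, ‖W x * (ρ (x - z) * (v z) ^ 2)‖‖ ≤ κ * (∫ x, ρ x) * (W z * (v z) ^ 2)
      rw [e5, Real.norm_of_nonneg (mul_nonneg (hpos z) (sq_nonneg _))]
      calc (∫ x, W x * ρ (x - z)) * (v z) ^ 2 ≤ (κ * W z * ∫ x, ρ x) * (v z) ^ 2 :=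
            mul_le_mul_of_nonneg_right (hle z) (sq_nonneg _)
        _ = κ * (∫ x, ρ x) * (W z * (v z) ^ 2) := by ring
  have e6 : (fun x => W x * ∫ z, ρ (x - z) * (v z) ^ 2) =
      fun x => ∫ z, W x * (ρ (x - z) * (v z) ^ 2) := by
    funext x
    rw [integral_const_mul]
  rw [e6]
  refine ⟨hI.integral_prod_left, ?_⟩
  have e7 : ∫ x, ∫ z, W x * (ρ (x - z) * (v z) ^ 2) = ∫ z, ∫ x, W x * (ρ (x - z) * (v z) ^ 2) :=
    integral_integral_swap hI
  rw [e7, ← integral_const_mul]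
  refine integral_mono hI.integral_prod_right (hi.const_mul _) fun z => ?_
  change ∫ x, W x * (ρ (x - z) * (v z) ^ 2) ≤ κ * (∫ x, ρ x) * (W z * (v z) ^ 2)
  rw [e4]
  calc (∫ x, W x * ρ (x - z)) * (v z) ^ 2 ≤ (κ * W z * ∫ x, ρ x) * (v z) ^ 2 :=
        mul_le_mul_of_nonneg_right (hle z) (sq_nonneg _)
    _ = κ * (∫ x, ρ x) * (W z * (v z) ^ 2) := by ring

theorem B2_cpt {r : ℝ} {ρ : ℝ → ℝ} (hρ : Mol r ρ) : HasCompactSupport ρ := by
  refine HasCompactSupport.intro (K := Icc (-r) r) isCompact_Icc fun x hx => ?_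
  refine hρ.supp x ?_
  by_contra hcon
  push Not at hcon
  exact hx ⟨(abs_lt.1 hcon).1.le, (abs_lt.1 hcon).2.le⟩

theorem B2_L2 {ρ v : ℝ → ℝ} (h : ContDiff ℝ ∞ ρ) (hc : HasCompactSupport ρ)
    (hv : MemLp v 2 volume) :
    MemLp (mol ρ v) 2 volume ∧ n2 (mol ρ v) ≤ (∫ x, |ρ x|) ^ 2 * n2 v := by
  have hk := B2_T (κ := 1) (ρ := fun x => |ρ x|) (W := fun _ => 1) (v := v) h.continuous.abs hc.abs
    (fun x => abs_nonneg _) continuous_const (fun _ => zero_le_one) (fun _ _ _ => by norm_num) hv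
    (by simpa using A1_sq hv)
  have hsm := (B1_smooth h hc hv).continuous
  have h1 : Integrable (fun x => (∫ x, |ρ x|) * ∫ z, |ρ (x - z)| * (v z) ^ 2) := by
    have := hk.1
    simp only [one_mul] at this
    exact this.const_mul _
  have hint : Integrable (fun x => (mol ρ v x) ^ 2) := by
    refine h1.mono' (hsm.pow 2).aestronglyMeasurable (ae_of_all _ fun x => ?_)
    rw [Real.norm_of_nonneg (sq_nonneg _)]
    exact (B2_gen h.continuous hc hv x).2
  refine ⟨(memLp_two_iff_integrable_sq hsm.aestronglyMeasurable).2 hint, ?_⟩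
  unfold n2
  calc ∫ x, (mol ρ v x) ^ 2 ≤ ∫ x, (∫ x, |ρ x|) * ∫ z, |ρ (x - z)| * (v z) ^ 2 :=
        integral_mono hint h1 fun x => (B2_gen h.continuous hc hv x).2
    _ = (∫ x, |ρ x|) * ∫ x, ∫ z, |ρ (x - z)| * (v z) ^ 2 := integral_const_mul _ _
    _ ≤ (∫ x, |ρ x|) * ((∫ x, |ρ x|) * ∫ x, (v x) ^ 2) := by
        refine mul_le_mul_of_nonneg_left ?_ (integral_nonneg fun x => abs_nonneg _)
        have := hk.2
        simp only [one_mul] at this
        exact this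
    _ = (∫ x, |ρ x|) ^ 2 * ∫ x, (v x) ^ 2 := by ring

theorem B2_CL2 {T : ℝ} {w : ℝ → ℝ → ℝ} {ρ : ℝ → ℝ} (hw : CL2 T w) (h : ContDiff ℝ ∞ ρ)
    (hc : HasCompactSupport ρ) : CL2 T (fun t => mol ρ (w t)) := by
  refine ⟨fun t ht => (B2_L2 h hc (hw.mem t ht)).1, fun t₀ ht₀ => ?_⟩
  have h1 : Tendsto (fun t => (∫ x, |ρ x|) ^ 2 * n2 (fun x => w t x - w t₀ x)) (𝓝[Icc 0 T] t₀)
      (𝓝 0) := by
    have := (hw.cont t₀ ht₀).const_mul ((∫ x, |ρ x|) ^ 2)
    rwa [mul_zero] at this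
  refine squeeze_zero' (Eventually.of_forall fun t => A1_nonneg _) ?_ h1
  filter_upwards [self_mem_nhdsWithin] with t ht
  have e : (fun x => mol ρ (w t) x - mol ρ (w t₀) x) = mol ρ (fun z => w t z - w t₀ z) := by
    funext x
    exact (B1_sub h hc (hw.mem t ht) (hw.mem t₀ ht₀) x).symm
  rw [e]
  exact (B2_L2 h hc ((hw.mem t ht).sub (hw.mem t₀ ht₀))).2

theorem B2_avg {r : ℝ} {ρ v : ℝ → ℝ} (hρ : Mol r ρ) (hv : MemLp v 2 volume) (x : ℝ) :
    Integrable (fun z => ρ (x - z) * (v z) ^ 2) ∧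
      (mol ρ v x) ^ 2 ≤ ∫ z, ρ (x - z) * (v z) ^ 2 := by
  have h1 := B2_gen hρ.smooth.continuous (B2_cpt hρ) hv x
  have e : ∀ y, |ρ y| = ρ y := fun y => abs_of_nonneg (hρ.nonneg y)
  simp only [e, hρ.int, one_mul] at h1
  exact h1

theorem B2_tonelli {r κ : ℝ} {ρ W v : ℝ → ℝ} (hρ : Mol r ρ) (hW : Continuous W)
    (hW0 : ∀ x, 0 ≤ W x) (hκ : ∀ x z, |x - z| ≤ r → W x ≤ κ * W z) (hv : MemLp v 2 volume)
    (hi : Integrable (fun x => W x * (v x) ^ 2)) :
    Integrable (fun x => W x * ∫ z, ρ (x - z) * (v z) ^ 2) ∧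
      ∫ x, W x * (∫ z, ρ (x - z) * (v z) ^ 2) ≤ κ * ∫ x, W x * (v x) ^ 2 := by
  have h1 := B2_T (κ := κ) hρ.smooth.continuous (B2_cpt hρ) hρ.nonneg hW hW0 (fun x z hz => by
    refine hκ x z ?_
    by_contra hcon
    push Not at hcon
    exact hz (hρ.supp _ hcon.le)) hv hi
  rw [hρ.int, mul_one] at h1
  exact h1

theorem B2_W {r κ : ℝ} {ρ W v : ℝ → ℝ} (hρ : Mol r ρ) (hW : Continuous W)
    (hW0 : ∀ x, 0 ≤ W x) (hκ : ∀ x z, |x - z| ≤ r → W x ≤ κ * W z) (hv : MemLp v 2 volume)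
    (hi : Integrable (fun x => W x * (v x) ^ 2)) :
    Integrable (fun x => W x * (mol ρ v x) ^ 2) ∧
      ∫ x, W x * (mol ρ v x) ^ 2 ≤ κ * ∫ x, W x * (v x) ^ 2 := by
  obtain ⟨h1, h2⟩ := B2_tonelli hρ hW hW0 hκ hv hi
  have hsm := (B1_smooth hρ.smooth (B2_cpt hρ) hv).continuous
  have hle : ∀ x, W x * (mol ρ v x) ^ 2 ≤ W x * ∫ z, ρ (x - z) * (v z) ^ 2 := fun x =>
    mul_le_mul_of_nonneg_left (B2_avg hρ hv x).2 (hW0 x)
  have hint : Integrable (fun x => W x * (mol ρ v x) ^ 2) := by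
    refine h1.mono' (hW.mul (hsm.pow 2)).aestronglyMeasurable (ae_of_all _ fun x => ?_)
    rw [Real.norm_of_nonneg (mul_nonneg (hW0 x) (sq_nonneg _))]
    exact hle x
  exact ⟨hint, (integral_mono hint h1 hle).trans h2⟩

end H37KB

end S_H37_KB_B2

section S_H37_KB_C1

/-!
# Row C1 of MP_95be7d_PDE (130 lines)

`H¹` functions (`IsH1 f p`: `f, p ∈ L²`, `f y - f x = ∫_x^y p`).

Mathlib has absolutely continuous functions: `IntervalIntegrable.absolutelyContinuousOnInterval_intervalIntegral`,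
`AbsolutelyContinuousOnInterval.integral_deriv_eq_sub`, `.fun_mul`, `.ae_differentiableAt`, and
`IntervalIntegrable.ae_hasDerivAt_integral` (see Mathlib/MeasureTheory/Integral/IntervalIntegral/AbsolutelyContinuousFun.lean).

* `C1_loc`: `p ∈ L²` is locally integrable.  `C1_cont`: `f x = f 0 + ∫_0^x p` (`intervalIntegral.continuous_primitive`).
* `C1_ac`, `C1_ae`: `f = const + primitive of p` on `uIcc a b`; `HasDerivAt f (p x) x` for a.e. `x` (on each `[-N,N]`, then countable union).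
* `C1_mul`: `f g` is absolutely continuous with `deriv (f g) = p g + f q` a.e.; FTC.
* `C1_pow`: `IsH1 (fl k ∘ f) (f^k p)` where `fl k u = u^(k+1)/(k+1)`: `f` is bounded (`C1_bdd`), so both are in `L²`; `f^(k+1)` is absolutely continuous by
  induction, derivative a.e. `(k+1) f^k p`.
* `C1_hold`: `|f x - f y| ≤ ∫_x^y |p| ≤ √|x-y| √(n2 p)` (Cauchy-Schwarz with the indicator of the interval, `A1_cs`).
* `C1_bdd`: e.g. from `C1_sup`: `f(y)² - f(x)² = ∫_x^y 2 f p ≤ ∫ 2|f p| ≤ n2 f + n2 p`, so `f(y)² ≤ f(x)² + n2 f + n2 p` for all `x`; since `f² ` is integrable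
  `f(x)²` takes values `≤ ε` for every `ε > 0` (otherwise `∫ f² = ∞`), so `f(y)² ≤ n2 f + n2 p`.
-/

open MeasureTheory Filter Topology Set
open scoped ContDiff

namespace H37KB

open H98KB

theorem C1_loc {f p : ℝ → ℝ} (h : IsH1 f p) : LocallyIntegrable p volume :=
  h.2.1.locallyIntegrable (by norm_num)

theorem C1_int {f p : ℝ → ℝ} (h : IsH1 f p) (a b : ℝ) : IntervalIntegrable p volume a b :=
  intervalIntegrable_iff.mpr
    ((LocallyIntegrable.integrableOn_isCompact (C1_loc h) isCompact_uIcc).mono_set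
      uIoc_subset_uIcc)

theorem C1_eq {f p : ℝ → ℝ} (h : IsH1 f p) (a : ℝ) : f = fun x => f a + ∫ z in a..x, p z := by
  funext x
  rw [← h.2.2 a x]
  ring

theorem C1_cont {f p : ℝ → ℝ} (h : IsH1 f p) : Continuous f := by
  rw [C1_eq h 0]
  exact continuous_const.add (intervalIntegral.continuous_primitive (C1_int h) 0)

theorem C1_ac {f p : ℝ → ℝ} (h : IsH1 f p) (a b : ℝ) : AbsolutelyContinuousOnInterval f a b := by
  rw [C1_eq h a]
  have h1 : AbsolutelyContinuousOnInterval (fun _ : ℝ => f a) a b :=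
    ((LipschitzWith.const (f a)).lipschitzOnWith (s := uIcc a b)).absolutelyContinuousOnInterval
  exact h1.add ((C1_int h a b).absolutelyContinuousOnInterval_intervalIntegral left_mem_uIcc)

theorem C1_ae {f p : ℝ → ℝ} (h : IsH1 f p) : ∀ᵐ x : ℝ, HasDerivAt f (p x) x := by
  filter_upwards [LocallyIntegrable.ae_hasDerivAt_integral (C1_loc h)] with x hx
  have h1 := (hx 0).const_add (f 0)
  rwa [← C1_eq h 0] at h1

theorem C1_mul {f p g q : ℝ → ℝ} (hf : IsH1 f p) (hg : IsH1 g q) (x y : ℝ) :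
    f y * g y - f x * g x = ∫ z in x..y, (p z * g z + f z * q z) := by
  have h1 := ((C1_ac hf x y).mul (C1_ac hg x y)).integral_deriv_eq_sub
  simp only [Pi.mul_apply] at h1
  rw [← h1]
  apply intervalIntegral.integral_congr_ae
  filter_upwards [C1_ae hf, C1_ae hg] with z h2 h3 _
  exact (h2.mul h3).deriv

theorem C1_sup {f p : ℝ → ℝ} (h : IsH1 f p) (x : ℝ) : (f x) ^ 2 ≤ n2 f + n2 p := by
  have hff := A1_sq h.1
  have hpp := A1_sq h.2.1
  have hfp := A1_mul h.1 h.2.1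
  have key : ∀ y : ℝ, (f x) ^ 2 ≤ (f y) ^ 2 + (n2 f + n2 p) := by
    intro y
    have h1 := C1_mul h h y x
    have h2 : ∫ z in y..x, (p z * f z + f z * p z) ≤ n2 f + n2 p := by
      calc ∫ z in y..x, (p z * f z + f z * p z)
          ≤ ‖∫ z in y..x, (p z * f z + f z * p z)‖ := Real.le_norm_self _
        _ ≤ ∫ z in uIoc y x, ‖p z * f z + f z * p z‖ :=
            intervalIntegral.norm_integral_le_integral_norm_uIoc
        _ ≤ ∫ z, ‖p z * f z + f z * p z‖ := by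
            apply setIntegral_le_integral
            · refine Integrable.norm ?_
              have h3 := hfp.add hfp
              refine h3.congr (Filter.Eventually.of_forall fun z => ?_)
              simp only [Pi.add_apply]
              ring
            · exact Filter.Eventually.of_forall fun z => norm_nonneg _
        _ ≤ ∫ z, ((f z) ^ 2 + (p z) ^ 2) := by
            apply integral_mono_of_nonneg
            · exact Filter.Eventually.of_forall fun z => norm_nonneg _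
            · exact hff.add hpp
            · refine Filter.Eventually.of_forall fun z => ?_
              simp only []
              rw [Real.norm_eq_abs, abs_le]
              constructor <;> nlinarith [sq_nonneg (f z + p z), sq_nonneg (f z - p z)]
        _ = n2 f + n2 p := integral_add hff hpp
    nlinarith [h1, h2]
  by_contra hcon
  push Not at hcon
  have h1 : Integrable (fun _ : ℝ => (f x) ^ 2 - (n2 f + n2 p)) := by
    refine hff.mono' aestronglyMeasurable_const (Filter.Eventually.of_forall fun y => ?_)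
    rw [Real.norm_of_nonneg (by linarith)]
    linarith [key y]
  rw [integrable_const_iff] at h1
  rcases h1 with h1 | h1
  · linarith
  · exact absurd h1.measure_univ_lt_top (by simp)

theorem C1_hold {f p : ℝ → ℝ} (h : IsH1 f p) (x y : ℝ) : (f x - f y) ^ 2 ≤ n2 p * |x - y| := by
  have h1 : f x - f y = ∫ z, p z * (uIoc y x).indicator (fun _ => (1 : ℝ)) z ∨
      f x - f y = -∫ z, p z * (uIoc y x).indicator (fun _ => (1 : ℝ)) z := by
    have h2 : ∫ z, p z * (uIoc y x).indicator (fun _ => (1 : ℝ)) z = ∫ z in uIoc y x, p z := by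
      rw [← integral_indicator measurableSet_uIoc]
      congr 1
      funext z
      by_cases hz : z ∈ uIoc y x
      · rw [indicator_of_mem hz, indicator_of_mem hz, mul_one]
      · rw [indicator_of_notMem hz, indicator_of_notMem hz, mul_zero]
    rw [h.2.2 y x, h2]
    rcases le_total y x with hxy | hxy
    · left
      rw [intervalIntegral.integral_of_le hxy, uIoc_of_le hxy]
    · right
      rw [intervalIntegral.integral_of_ge hxy, uIoc_of_ge hxy]
  have hg : MemLp ((uIoc y x).indicator (fun _ => (1 : ℝ))) 2 volume := by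
    refine memLp_indicator_const 2 measurableSet_uIoc 1 (Or.inr ?_)
    rw [Real.volume_uIoc]
    exact ENNReal.ofReal_ne_top
  have hng : n2 ((uIoc y x).indicator (fun _ => (1 : ℝ))) = |x - y| := by
    have h3 : (fun z => ((uIoc y x).indicator (fun _ => (1 : ℝ)) z) ^ 2) =
        (uIoc y x).indicator (fun _ => (1 : ℝ)) := by
      funext z
      by_cases hz : z ∈ uIoc y x
      · rw [indicator_of_mem hz, one_pow]
      · rw [indicator_of_notMem hz]
        norm_num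
    rw [n2, h3, integral_indicator measurableSet_uIoc, setIntegral_const, smul_eq_mul, mul_one,
      Measure.real, Real.volume_uIoc, ENNReal.toReal_ofReal (abs_nonneg _)]
  have hcs := A1_cs h.2.1 hg
  rw [hng] at hcs
  have h4 : |f x - f y| ≤ √(n2 p) * √|x - y| := by
    rcases h1 with h1 | h1
    · rw [h1]; exact hcs
    · rw [h1, abs_neg]; exact hcs
  calc (f x - f y) ^ 2 = |f x - f y| ^ 2 := (sq_abs _).symm
    _ ≤ (√(n2 p) * √|x - y|) ^ 2 := by gcongr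
    _ = n2 p * |x - y| := by
      rw [mul_pow, Real.sq_sqrt (A1_nonneg p), Real.sq_sqrt (abs_nonneg _)]

theorem C1_sub {f p g q : ℝ → ℝ} (hf : IsH1 f p) (hg : IsH1 g q) :
    IsH1 (fun x => f x - g x) (fun x => p x - q x) := by
  refine ⟨hf.1.sub hg.1, hf.2.1.sub hg.2.1, fun x y => ?_⟩
  rw [intervalIntegral.integral_sub (C1_int hf x y) (C1_int hg x y), ← hf.2.2, ← hg.2.2]
  ring

theorem C1_acpow {f p : ℝ → ℝ} (h : IsH1 f p) (a b : ℝ) (n : ℕ) :
    AbsolutelyContinuousOnInterval (fun x => (f x) ^ n) a b := by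
  induction n with
  | zero =>
    simp only [pow_zero]
    exact ((LipschitzWith.const (1 : ℝ)).lipschitzOnWith
      (s := uIcc a b)).absolutelyContinuousOnInterval
  | succ n ih =>
    have h1 := ih.mul (C1_ac h a b)
    have h2 : (fun x => (f x) ^ (n + 1)) = (fun x => (f x) ^ n) * f := by
      funext x
      rw [Pi.mul_apply, pow_succ]
    rw [h2]
    exact h1

theorem C1_pow {f p : ℝ → ℝ} (h : IsH1 f p) (k : ℕ) :
    IsH1 (fun x => fl k (f x)) (fun x => (f x) ^ k * p x) := by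
  have hk : (0 : ℝ) < (k : ℝ) + 1 := by positivity
  have hc := C1_cont h
  have hS : 0 ≤ n2 f + n2 p := add_nonneg (A1_nonneg f) (A1_nonneg p)
  have hb : ∀ x, |f x| ≤ √(n2 f + n2 p) := fun x => Real.abs_le_sqrt (C1_sup h x)
  have hbk : ∀ x, |f x| ^ k ≤ √(n2 f + n2 p) ^ k := fun x => by
    have := hb x
    gcongr
  refine ⟨?_, ?_, fun x y => ?_⟩
  · refine h.1.of_le_mul (c := √(n2 f + n2 p) ^ k) ?_ (Filter.Eventually.of_forall fun x => ?_)
    · exact (by unfold fl; fun_prop : Continuous fun x => fl k (f x)).aestronglyMeasurable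
    · rw [fl, norm_div, norm_pow, pow_succ, Real.norm_eq_abs, Real.norm_eq_abs,
        abs_of_pos hk, div_le_iff₀ hk]
      have h1 : |f x| ^ k * |f x| ≤ √(n2 f + n2 p) ^ k * |f x| := by
        have := hbk x
        gcongr
      have h2 : 0 ≤ √(n2 f + n2 p) ^ k * |f x| := by positivity
      have h3 : (0 : ℝ) ≤ (k : ℝ) := Nat.cast_nonneg k
      nlinarith [mul_nonneg h2 h3]
  · refine h.2.1.of_le_mul (c := √(n2 f + n2 p) ^ k) ?_ (Filter.Eventually.of_forall fun x => ?_)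
    · exact (hc.pow k).aestronglyMeasurable.mul h.2.1.1
    · rw [norm_mul, norm_pow, Real.norm_eq_abs]
      have := hbk x
      gcongr
  · have h1 := (C1_acpow h x y (k + 1)).integral_deriv_eq_sub
    have h2 : ∫ z in x..y, deriv (fun x => (f x) ^ (k + 1)) z =
        ∫ z in x..y, ((k : ℝ) + 1) * ((f z) ^ k * p z) := by
      apply intervalIntegral.integral_congr_ae
      filter_upwards [C1_ae h] with z h3 _
      have h4 := (h3.pow (k + 1)).deriv
      have h5 : deriv (fun x => (f x) ^ (k + 1)) z = deriv (f ^ (k + 1)) z := rfl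
      rw [h5, h4]
      push_cast
      ring
    rw [h2, intervalIntegral.integral_const_mul] at h1
    simp only [fl]
    rw [← sub_div, ← h1]
    field_simp

end H37KB

end S_H37_KB_C1

section S_H37_KB_G0

/-!
# Row G0 of MP_95be7d_PDE (60 lines)

Elementary inequalities for `fl k u = u^(k+1)/(k+1)`: telescoping `a^n - b^n = (a-b) Σ a^i b^(n-1-i)` (`Commute.mul_geom_sum₂` / `geom_sum₂`), each
term is bounded by a power of `max |a| |b|`.  (`G0_fl2`: `|fl a - fl b| ≤ max(|a|,|b|)^k |a-b|` and `max^k ≤ S^(k-1) (|a|+|b|)`.)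
-/

open MeasureTheory Filter Topology Set
open scoped ContDiff

namespace H37KB

open H98KB

theorem pow_sub_pow_le (n : ℕ) {S a b : ℝ} (ha : |a| ≤ S) (hb : |b| ≤ S) :
    |a ^ (n + 1) - b ^ (n + 1)| ≤ (n + 1) * S ^ n * |a - b| := by
  have hS : 0 ≤ S := (abs_nonneg a).trans ha
  have h := Commute.geom_sum₂_mul (Commute.all a b) (n + 1)
  rw [← h, abs_mul]
  refine mul_le_mul_of_nonneg_right ?_ (abs_nonneg _)
  refine (Finset.abs_sum_le_sum_abs _ _).trans ?_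
  have h1 : ∀ i ∈ Finset.range (n + 1), |a ^ i * b ^ (n + 1 - 1 - i)| ≤ S ^ n := by
    intro i hi
    have hi' : i ≤ n := by
      have := Finset.mem_range.1 hi
      omega
    rw [abs_mul, abs_pow, abs_pow]
    calc |a| ^ i * |b| ^ (n + 1 - 1 - i) ≤ S ^ i * S ^ (n + 1 - 1 - i) :=
          mul_le_mul (pow_le_pow_left₀ (abs_nonneg _) ha _)
            (pow_le_pow_left₀ (abs_nonneg _) hb _) (by positivity) (by positivity)
      _ = S ^ n := by
          rw [← pow_add]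
          congr 1
          omega
  calc ∑ i ∈ Finset.range (n + 1), |a ^ i * b ^ (n + 1 - 1 - i)|
      ≤ ∑ _i ∈ Finset.range (n + 1), S ^ n := Finset.sum_le_sum h1
    _ = (n + 1) * S ^ n := by
        rw [Finset.sum_const, Finset.card_range, nsmul_eq_mul]
        push_cast
        ring

theorem G0_fl (k : ℕ) {S a b : ℝ} (ha : |a| ≤ S) (hb : |b| ≤ S) :
    |fl k a - fl k b| ≤ S ^ k * |a - b| := by
  have h := pow_sub_pow_le k ha hb
  have hk : (0 : ℝ) < (k : ℝ) + 1 := by positivity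
  have e : fl k a - fl k b = (a ^ (k + 1) - b ^ (k + 1)) / ((k : ℝ) + 1) := by
    simp only [fl]
    ring
  rw [e, abs_div, abs_of_pos hk, div_le_iff₀ hk]
  calc |a ^ (k + 1) - b ^ (k + 1)| ≤ (k + 1) * S ^ k * |a - b| := h
    _ = S ^ k * |a - b| * ((k : ℝ) + 1) := by ring

theorem fl_zero' (k : ℕ) : fl k 0 = 0 := by
  simp [fl]

theorem G0_fl1 (k : ℕ) {S a : ℝ} (ha : |a| ≤ S) : |fl k a| ≤ S ^ k * |a| := by
  have hS : 0 ≤ S := (abs_nonneg a).trans ha
  have h := G0_fl k ha (b := 0) (by rw [abs_zero]; exact hS)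
  rwa [fl_zero', sub_zero, sub_zero] at h

theorem G0_fl2 (k : ℕ) (hk : 1 ≤ k) {S a b : ℝ} (ha : |a| ≤ S) (hb : |b| ≤ S) :
    |fl k a - fl k b| ≤ S ^ (k - 1) * ((|a| + |b|) * |a - b|) := by
  have hS : 0 ≤ S := (abs_nonneg a).trans ha
  set M := max |a| |b| with hM
  have h0 : 0 ≤ M := (abs_nonneg a).trans (le_max_left _ _)
  have h1 := G0_fl k (S := M) (a := a) (b := b) (le_max_left _ _) (le_max_right _ _)
  have h2 : M ^ k ≤ S ^ (k - 1) * (|a| + |b|) := by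
    obtain ⟨m, rfl⟩ : ∃ m, k = m + 1 := ⟨k - 1, by omega⟩
    rw [Nat.add_sub_cancel, pow_succ]
    refine mul_le_mul (pow_le_pow_left₀ h0 (max_le ha hb) _) ?_ h0 (by positivity)
    exact max_le (le_add_of_nonneg_right (abs_nonneg _)) (le_add_of_nonneg_left (abs_nonneg _))
  calc |fl k a - fl k b| ≤ M ^ k * |a - b| := h1
    _ ≤ S ^ (k - 1) * (|a| + |b|) * |a - b| := mul_le_mul_of_nonneg_right h2 (abs_nonneg _)
    _ = S ^ (k - 1) * ((|a| + |b|) * |a - b|) := by ring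

theorem G0_pow (k : ℕ) {S a b : ℝ} (ha : |a| ≤ S) (hb : |b| ≤ S) :
    |a ^ k - b ^ k| ≤ k * S ^ (k - 1) * |a - b| := by
  rcases Nat.eq_zero_or_pos k with h0 | h0
  · subst h0
    simp
  · obtain ⟨m, rfl⟩ : ∃ m, k = m + 1 := ⟨k - 1, by omega⟩
    have h := pow_sub_pow_le m ha hb
    rw [Nat.add_sub_cancel]
    push_cast
    exact h

theorem G0_mul (k : ℕ) {S a b p q : ℝ} (ha : |a| ≤ S) (hb : |b| ≤ S) :
    |a ^ k * p - b ^ k * q| ≤ S ^ k * |p - q| + k * S ^ (k - 1) * (|a - b| * |q|) := by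
  have h := G0_pow k ha hb
  have e : a ^ k * p - b ^ k * q = a ^ k * (p - q) + (a ^ k - b ^ k) * q := by ring
  rw [e]
  refine (abs_add_le _ _).trans (add_le_add ?_ ?_)
  · rw [abs_mul, abs_pow]
    exact mul_le_mul_of_nonneg_right (pow_le_pow_left₀ (abs_nonneg _) ha _) (abs_nonneg _)
  · rw [abs_mul]
    calc |a ^ k - b ^ k| * |q| ≤ (k * S ^ (k - 1) * |a - b|) * |q| :=
          mul_le_mul_of_nonneg_right h (abs_nonneg _)
      _ = k * S ^ (k - 1) * (|a - b| * |q|) := by ring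

end H37KB

end S_H37_KB_G0

section S_H37_KB_G1

/-!
# Row G1 of MP_95be7d_PDE (130 lines)

Continuity in time of `u`, `p = u_x`, `fl k u`, `u^k p` with values in `L²`, for a global solution.

* `G1_u`, `G1_p`: from `h.h1` and `h.cont` (both summands are `≥ 0`; `𝓝[Icc 0 T] t₀ ≤ 𝓝[Ici 0] t₀`; `n2` of the difference is one summand).
* `G1_bdd`: `A2_bdd` twice.
* `G1_fl`: `|u t x| ≤ S := 1 + M` (`C1_sup`, `(u t x)² ≤ nh ≤ M ≤ S²`), `n2 (fl u(t) - fl u(t₀)) ≤ S^(2k) n2 (u(t) - u(t₀))` by `G0_fl`.  Membership: `C1_pow`.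
* `G1_up`: `G0_mul`: `|u^k p - u₀^k p₀|² ≤ 2 S^(2k) |p-p₀|² + 2 (k S^(k-1))² |u-u₀|² |p₀|²` and `|u - u₀|² ≤ nh (u-u₀) (p-p₀)` (`C1_sup`, `C1_sub`), so
  `n2 ≤ 2 S^(2k) n2 (p-p₀) + 2 (k S^(k-1))² nh(u-u₀,p-p₀) n2 p₀ → 0`.
-/

open MeasureTheory Filter Topology Set
open scoped ContDiff

namespace H37KB

open H98KB

theorem G1_u {k : ℕ} {φ : ℝ → ℝ} {u p : ℝ → ℝ → ℝ} (h : IsGlobalSol k φ u p) (T : ℝ) :
    CL2 T u := by
  refine ⟨fun t ht => (h.h1 t ht.1).1, fun t₀ ht₀ => ?_⟩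
  have h1 := (h.cont t₀ ht₀.1).mono_left
    (nhdsWithin_mono t₀ (Icc_subset_Ici_self : Icc 0 T ⊆ Ici 0))
  refine squeeze_zero (fun t => A1_nonneg _) (fun t => ?_) h1
  have h2 := A1_nonneg (fun x => p t x - p t₀ x)
  unfold n2 at h2 ⊢
  linarith

theorem G1_p {k : ℕ} {φ : ℝ → ℝ} {u p : ℝ → ℝ → ℝ} (h : IsGlobalSol k φ u p) (T : ℝ) :
    CL2 T p := by
  refine ⟨fun t ht => (h.h1 t ht.1).2.1, fun t₀ ht₀ => ?_⟩
  have h1 := (h.cont t₀ ht₀.1).mono_left
    (nhdsWithin_mono t₀ (Icc_subset_Ici_self : Icc 0 T ⊆ Ici 0))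
  refine squeeze_zero (fun t => A1_nonneg _) (fun t => ?_) h1
  have h2 := A1_nonneg (fun x => u t x - u t₀ x)
  unfold n2 at h2 ⊢
  linarith

theorem G1_bdd {k : ℕ} {φ : ℝ → ℝ} {u p : ℝ → ℝ → ℝ} (h : IsGlobalSol k φ u p) (T : ℝ) :
    ∃ M, 0 ≤ M ∧ ∀ t ∈ Icc 0 T, nh (u t) (p t) ≤ M := by
  obtain ⟨M1, h1, h1'⟩ := A2_bdd (G1_u h T)
  obtain ⟨M2, h2, h2'⟩ := A2_bdd (G1_p h T)
  refine ⟨M1 + M2, by linarith, fun t ht => ?_⟩
  unfold nh
  have := h1' t ht
  have := h2' t ht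
  linarith

theorem G1_le {k : ℕ} {φ : ℝ → ℝ} {u p : ℝ → ℝ → ℝ} (h : IsGlobalSol k φ u p) {M t : ℝ}
    (ht : 0 ≤ t) (hM : 0 ≤ M) (hb : nh (u t) (p t) ≤ M) (x : ℝ) : |u t x| ≤ 1 + M := by
  have h1 := C1_sup (h.h1 t ht) x
  unfold nh at hb
  by_contra hc
  push Not at hc
  have h2 : (1 + M) ^ 2 < |u t x| ^ 2 := pow_lt_pow_left₀ hc (by linarith) (by norm_num)
  rw [sq_abs] at h2
  nlinarith

theorem g1_n2_le {F : ℝ → ℝ} {C D : ℝ} {a b : ℝ → ℝ} (hF : MemLp F 2 volume)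
    (ha : MemLp a 2 volume) (hb : MemLp b 2 volume)
    (hle : ∀ x, (F x) ^ 2 ≤ C * (a x) ^ 2 + D * (b x) ^ 2) :
    n2 F ≤ C * n2 a + D * n2 b := by
  unfold n2
  rw [← integral_const_mul, ← integral_const_mul,
    ← integral_add ((A1_sq ha).const_mul C) ((A1_sq hb).const_mul D)]
  exact integral_mono (A1_sq hF) (((A1_sq ha).const_mul C).add ((A1_sq hb).const_mul D)) hle

theorem G1_fl {k : ℕ} {φ : ℝ → ℝ} {u p : ℝ → ℝ → ℝ} (h : IsGlobalSol k φ u p) (T : ℝ) :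
    CL2 T (fun t x => fl k (u t x)) := by
  obtain ⟨M, hM, hb⟩ := G1_bdd h T
  have hmem : ∀ t ∈ Icc 0 T, MemLp (fun x => fl k (u t x)) 2 volume :=
    fun t ht => (C1_pow (h.h1 t ht.1) k).1
  refine ⟨hmem, fun t₀ ht₀ => ?_⟩
  have h1 := ((G1_u h T).cont t₀ ht₀).const_mul (((1 + M) ^ k) ^ 2)
  rw [mul_zero] at h1
  refine squeeze_zero' (Eventually.of_forall fun t => A1_nonneg _) ?_ h1
  filter_upwards [self_mem_nhdsWithin] with t ht
  have hu : MemLp (fun x => u t x - u t₀ x) 2 volume :=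
    ((h.h1 t ht.1).1).sub ((h.h1 t₀ ht₀.1).1)
  have hF : MemLp (fun x => fl k (u t x) - fl k (u t₀ x)) 2 volume :=
    (hmem t ht).sub (hmem t₀ ht₀)
  have h2 := g1_n2_le (C := ((1 + M) ^ k) ^ 2) (D := 0) hF hu hu (fun x => ?_)
  · simpa using h2
  · have h3 := G0_fl k (G1_le h ht.1 hM (hb t ht) x) (G1_le h ht₀.1 hM (hb t₀ ht₀) x)
    have h4 := pow_le_pow_left₀ (abs_nonneg _) h3 2
    rw [sq_abs, mul_pow, sq_abs] at h4
    linarith

theorem g1_up_pt {A B X Y Z N : ℝ} (hA : |A| ≤ B * |X| + Z * (|Y| * |N|)) :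
    A ^ 2 ≤ 2 * B ^ 2 * X ^ 2 + 2 * Z ^ 2 * (Y ^ 2 * N ^ 2) := by
  have h1 := pow_le_pow_left₀ (abs_nonneg _) hA 2
  rw [sq_abs] at h1
  have h2 : (B * |X| + Z * (|Y| * |N|)) ^ 2 ≤
      2 * (B * |X|) ^ 2 + 2 * (Z * (|Y| * |N|)) ^ 2 := by
    nlinarith [sq_nonneg (B * |X| - Z * (|Y| * |N|))]
  have h3 : 2 * (B * |X|) ^ 2 + 2 * (Z * (|Y| * |N|)) ^ 2 =
      2 * B ^ 2 * X ^ 2 + 2 * Z ^ 2 * (Y ^ 2 * N ^ 2) := by
    rw [mul_pow, mul_pow, mul_pow, sq_abs, sq_abs, sq_abs]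
    ring
  linarith

theorem G1_up {k : ℕ} {φ : ℝ → ℝ} {u p : ℝ → ℝ → ℝ} (h : IsGlobalSol k φ u p) (T : ℝ) :
    CL2 T (fun t x => (u t x) ^ k * p t x) := by
  obtain ⟨M, hM, hb⟩ := G1_bdd h T
  have hmem : ∀ t ∈ Icc 0 T, MemLp (fun x => (u t x) ^ k * p t x) 2 volume :=
    fun t ht => (C1_pow (h.h1 t ht.1) k).2.1
  refine ⟨hmem, fun t₀ ht₀ => ?_⟩
  have h1 := ((G1_p h T).cont t₀ ht₀).const_mul (2 * ((1 + M) ^ k) ^ 2)
  have h2 := ((((G1_u h T).cont t₀ ht₀).add ((G1_p h T).cont t₀ ht₀)).const_mul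
    (2 * ((k : ℝ) * (1 + M) ^ (k - 1)) ^ 2)).mul_const (n2 (p t₀))
  have h3 := h1.add h2
  simp only [add_zero, mul_zero, zero_mul] at h3
  refine squeeze_zero' (Eventually.of_forall fun t => A1_nonneg _) ?_ h3
  filter_upwards [self_mem_nhdsWithin] with t ht
  have hp : MemLp (fun x => p t x - p t₀ x) 2 volume :=
    ((h.h1 t ht.1).2.1).sub ((h.h1 t₀ ht₀.1).2.1)
  have hF : MemLp (fun x => (u t x) ^ k * p t x - (u t₀ x) ^ k * p t₀ x) 2 volume :=
    (hmem t ht).sub (hmem t₀ ht₀)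
  refine g1_n2_le hF hp (h.h1 t₀ ht₀.1).2.1 (fun x => ?_)
  have h4 := G0_mul k (p := p t x) (q := p t₀ x) (G1_le h ht.1 hM (hb t ht) x)
    (G1_le h ht₀.1 hM (hb t₀ ht₀) x)
  have h5 := g1_up_pt h4
  have h6 := C1_sup (C1_sub (h.h1 t ht.1) (h.h1 t₀ ht₀.1)) x
  have h7 : (u t x - u t₀ x) ^ 2 * (p t₀ x) ^ 2 ≤
      (n2 (fun x => u t x - u t₀ x) + n2 (fun x => p t x - p t₀ x)) * (p t₀ x) ^ 2 :=
    mul_le_mul_of_nonneg_right h6 (sq_nonneg _)
  have h8 := mul_le_mul_of_nonneg_left h7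
    (by positivity : 0 ≤ 2 * ((k : ℝ) * (1 + M) ^ (k - 1)) ^ 2)
  refine h5.trans ?_
  have e : 2 * ((k : ℝ) * (1 + M) ^ (k - 1)) ^ 2 *
      (n2 (fun x => u t x - u t₀ x) + n2 (fun x => p t x - p t₀ x)) * (p t₀ x) ^ 2 =
      2 * ((k : ℝ) * (1 + M) ^ (k - 1)) ^ 2 *
      ((n2 (fun x => u t x - u t₀ x) + n2 (fun x => p t x - p t₀ x)) * (p t₀ x) ^ 2) := by
    ring
  rw [e]
  linarith

end H37KB

end S_H37_KB_G1

section S_H37_KB_D1

/-!
# Row D1 of MP_95be7d_PDE (110 lines)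

Weights.

* `D1_one`: constants.
* `D1_add`: everything is additive (`|a+b| ≤ |a|+|b|`).
* `D1_exp`: `h(x) = A e^{-ax} + B e^{bx} > 0`, `W = 1/h`.  `h' = -aA e^{-ax} + bB e^{bx}`, so `|h'|, |h''|, |h'''| ≤ m h, m² h, m³ h` with `m = max a b ≤ a + 1`, and `h' ≤ b h ≤ h/4`.
  `W' = -h'/h²`, `W'' = -h''/h² + 2h'²/h³`, `W''' = -h'''/h² + 6 h'h''/h³ - 6 h'³/h⁴`: hence `W' ≥ -W/4`, `|W'| ≤ m W`, `|W''| ≤ 3m² W`, `|W'''| ≤ 13 m³ W`, all
  `≤ 13 (a+1)³ W`.  Bounded: for `x ≥ 0` `W ≤ 1/B`, for `x ≤ 0` `W ≤ 1/A`.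
-/

open MeasureTheory Filter Topology Set
open scoped ContDiff

namespace H37KB

open H98KB

theorem D1_it2 (f : ℝ → ℝ) : iteratedDeriv 2 f = deriv (deriv f) := by
  rw [iteratedDeriv_succ, iteratedDeriv_one]

theorem D1_it3 (f : ℝ → ℝ) : iteratedDeriv 3 f = deriv (deriv (deriv f)) := by
  rw [iteratedDeriv_succ, D1_it2]

theorem D1_one {c : ℝ} (hc : 0 ≤ c) : Wt c (fun _ => (1 : ℝ)) := by
  have h1 : deriv (fun _ : ℝ => (1 : ℝ)) = fun _ => 0 := by
    funext x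
    exact deriv_const x 1
  have h2 : deriv (fun _ : ℝ => (0 : ℝ)) = fun _ => 0 := by
    funext x
    exact deriv_const x 0
  refine ⟨contDiff_const, fun _ => one_pos, ⟨1, fun _ => le_rfl⟩, ?_, ?_, ?_, ?_⟩
  · intro x
    rw [h1]
    norm_num
  · intro x
    rw [h1]
    simpa using hc
  · intro x
    rw [D1_it2, h1, h2]
    simpa using hc
  · intro x
    rw [D1_it3, h1, h2, h2]
    simpa using hc

theorem D1_add {c : ℝ} {W V : ℝ → ℝ} (hW : Wt c W) (hV : Wt c V) :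
    Wt c (fun x => W x + V x) := by
  have e : (fun x => W x + V x) = W + V := rfl
  have hd : ∀ x, deriv (W + V) x = deriv W x + deriv V x := fun x =>
    deriv_add (hW.smooth.differentiable (by simp) x) (hV.smooth.differentiable (by simp) x)
  have hi : ∀ (n : ℕ) (x : ℝ), iteratedDeriv n (W + V) x = iteratedDeriv n W x + iteratedDeriv n V x := by
    intro n x
    exact iteratedDeriv_add (hW.smooth.contDiffAt.of_le (by exact_mod_cast le_top))
      (hV.smooth.contDiffAt.of_le (by exact_mod_cast le_top))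
  rw [e]
  refine ⟨hW.smooth.add hV.smooth, fun x => add_pos (hW.pos x) (hV.pos x), ?_, ?_, ?_, ?_, ?_⟩
  · obtain ⟨C, hC⟩ := hW.bdd
    obtain ⟨C', hC'⟩ := hV.bdd
    exact ⟨C + C', fun x => add_le_add (hC x) (hC' x)⟩
  · intro x
    rw [hd, Pi.add_apply]
    have h1 := hW.low x
    have h2 := hV.low x
    linarith
  · intro x
    rw [hd, Pi.add_apply]
    have h1 := hW.b1 x
    have h2 := hV.b1 x
    have h3 := abs_add_le (deriv W x) (deriv V x)
    linarith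
  · intro x
    rw [hi, Pi.add_apply]
    have h1 := hW.b2 x
    have h2 := hV.b2 x
    have h3 := abs_add_le (iteratedDeriv 2 W x) (iteratedDeriv 2 V x)
    linarith
  · intro x
    rw [hi, Pi.add_apply]
    have h1 := hW.b3 x
    have h2 := hV.b3 x
    have h3 := abs_add_le (iteratedDeriv 3 W x) (iteratedDeriv 3 V x)
    linarith

theorem D1_mono {c c' : ℝ} {W : ℝ → ℝ} (hW : Wt c W) (h : c ≤ c') : Wt c' W := by
  have h0 : ∀ x, c * W x ≤ c' * W x := fun x => mul_le_mul_of_nonneg_right h (hW.pos x).le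
  exact ⟨hW.smooth, hW.pos, hW.bdd, hW.low, fun x => (hW.b1 x).trans (h0 x),
    fun x => (hW.b2 x).trans (h0 x), fun x => (hW.b3 x).trans (h0 x)⟩

theorem D1_exp {A B a b : ℝ} (hA : 0 < A) (hB : 0 < B) (ha : 0 < a) (hb : 0 < b)
    (hb' : b ≤ 1 / 4) :
    Wt (13 * (a + 1) ^ 3) (fun x => (A * Real.exp (-(a * x)) + B * Real.exp (b * x))⁻¹) := by
  set h : ℝ → ℝ := fun x => A * Real.exp (-(a * x)) + B * Real.exp (b * x) with hh
  set h1 : ℝ → ℝ := fun x => -a * (A * Real.exp (-(a * x))) + b * (B * Real.exp (b * x)) with hh1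
  set h2 : ℝ → ℝ := fun x => a ^ 2 * (A * Real.exp (-(a * x))) + b ^ 2 * (B * Real.exp (b * x)) with hh2
  set h3 : ℝ → ℝ := fun x => -a ^ 3 * (A * Real.exp (-(a * x))) + b ^ 3 * (B * Real.exp (b * x)) with hh3
  set w : ℝ → ℝ := fun x => (h x)⁻¹ with hw
  have hea : ∀ x : ℝ, HasDerivAt (fun x => A * Real.exp (-(a * x))) (-a * (A * Real.exp (-(a * x)))) x := by
    intro x
    have e1 : HasDerivAt (fun x : ℝ => -(a * x)) (-a) x := by
      have e0 := ((hasDerivAt_id' x).const_mul a).neg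
      rw [mul_one] at e0
      exact e0
    have e2 := (e1.exp).const_mul A
    refine e2.congr_deriv ?_
    ring
  have heb : ∀ x : ℝ, HasDerivAt (fun x => B * Real.exp (b * x)) (b * (B * Real.exp (b * x))) x := by
    intro x
    have e1 : HasDerivAt (fun x : ℝ => b * x) b x := by
      simpa using (hasDerivAt_id x).const_mul b
    have e2 := (e1.exp).const_mul B
    refine e2.congr_deriv ?_
    ring
  have hd0 : ∀ x, HasDerivAt h (h1 x) x := fun x => (hea x).add (heb x)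
  have hd1 : ∀ x, HasDerivAt h1 (h2 x) x := by
    intro x
    refine (((hea x).const_mul (-a)).add ((heb x).const_mul b)).congr_deriv ?_
    rw [hh2]
    ring
  have hd2 : ∀ x, HasDerivAt h2 (h3 x) x := by
    intro x
    refine (((hea x).const_mul (a ^ 2)).add ((heb x).const_mul (b ^ 2))).congr_deriv ?_
    rw [hh3]
    ring
  have pa : ∀ x, 0 < A * Real.exp (-(a * x)) := fun x => by positivity
  have pb : ∀ x, 0 < B * Real.exp (b * x) := fun x => by positivity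
  have hpos : ∀ x, 0 < h x := fun x => add_pos (pa x) (pb x)
  have hwpos : ∀ x, 0 < w x := fun x => inv_pos.2 (hpos x)
  have hwd : ∀ x, HasDerivAt w (-h1 x * w x ^ 2) x := by
    intro x
    refine ((hd0 x).inv (hpos x).ne').congr_deriv ?_
    rw [hw]
    field_simp
  have dw1 : deriv w = fun x => -h1 x * w x ^ 2 := funext fun x => (hwd x).deriv
  have hwd1 : ∀ x, HasDerivAt (fun x => -h1 x * w x ^ 2)
      (-h2 x * w x ^ 2 + 2 * h1 x ^ 2 * w x ^ 3) x := by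
    intro x
    refine (((hd1 x).neg).mul ((hwd x).pow 2)).congr_deriv ?_
    simp only [Pi.neg_apply, Nat.cast_ofNat, Pi.pow_apply]
    ring
  have dw2 : deriv (deriv w) = fun x => -h2 x * w x ^ 2 + 2 * h1 x ^ 2 * w x ^ 3 := by
    rw [dw1]
    exact funext fun x => (hwd1 x).deriv
  have hwd2 : ∀ x, HasDerivAt (fun x => -h2 x * w x ^ 2 + 2 * h1 x ^ 2 * w x ^ 3)
      (-h3 x * w x ^ 2 + 6 * h1 x * h2 x * w x ^ 3 - 6 * h1 x ^ 3 * w x ^ 4) x := by
    intro x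
    refine ((((hd2 x).neg).mul ((hwd x).pow 2)).add
      ((((hd1 x).pow 2).const_mul 2).mul ((hwd x).pow 3))).congr_deriv ?_
    simp only [Pi.neg_apply, Nat.cast_ofNat, Pi.pow_apply]
    ring
  have dw3 : deriv (deriv (deriv w)) = fun x =>
      -h3 x * w x ^ 2 + 6 * h1 x * h2 x * w x ^ 3 - 6 * h1 x ^ 3 * w x ^ 4 := by
    rw [dw2]
    exact funext fun x => (hwd2 x).deriv
  -- bounds
  set m : ℝ := a + 1 with hm
  have hm1 : 1 ≤ m := by linarith
  have hma : a ≤ m := by linarith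
  have hmb : b ≤ m := by linarith
  have hpw : ∀ n : ℕ, a ^ n ≤ m ^ n ∧ b ^ n ≤ m ^ n := fun n =>
    ⟨pow_le_pow_left₀ ha.le hma n, pow_le_pow_left₀ hb.le hmb n⟩
  have hhw : ∀ x, h x * w x = 1 := fun x => mul_inv_cancel₀ (hpos x).ne'
  have ub : ∀ (x s : ℝ) (n : ℕ), |s| ≤ m ^ n * h x → |s * w x| ≤ m ^ n := by
    intro x s n hs
    rw [abs_mul, abs_of_pos (hwpos x)]
    calc |s| * w x ≤ (m ^ n * h x) * w x := mul_le_mul_of_nonneg_right hs (hwpos x).le
      _ = m ^ n := by rw [mul_assoc, hhw, mul_one]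
  have u1 : ∀ x, |h1 x * w x| ≤ m ^ 1 := by
    intro x
    apply ub x
    have e1 := mul_le_mul_of_nonneg_right (hpw 1).1 (pa x).le
    have e2 := mul_le_mul_of_nonneg_right (hpw 1).2 (pb x).le
    have e3 : 0 < a * (A * Real.exp (-(a * x))) := mul_pos ha (pa x)
    have e4 : 0 < b * (B * Real.exp (b * x)) := mul_pos hb (pb x)
    rw [abs_le, hh1, hh]
    constructor <;> simp only [pow_one] at * <;> linarith
  have u2 : ∀ x, |h2 x * w x| ≤ m ^ 2 := by
    intro x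
    apply ub x
    have e1 := mul_le_mul_of_nonneg_right (hpw 2).1 (pa x).le
    have e2 := mul_le_mul_of_nonneg_right (hpw 2).2 (pb x).le
    have e3 : 0 < a ^ 2 * (A * Real.exp (-(a * x))) := mul_pos (by positivity) (pa x)
    have e4 : 0 < b ^ 2 * (B * Real.exp (b * x)) := mul_pos (by positivity) (pb x)
    rw [abs_le, hh2, hh]
    constructor <;> simp only at * <;> linarith
  have u3 : ∀ x, |h3 x * w x| ≤ m ^ 3 := by
    intro x
    apply ub x
    have e1 := mul_le_mul_of_nonneg_right (hpw 3).1 (pa x).le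
    have e2 := mul_le_mul_of_nonneg_right (hpw 3).2 (pb x).le
    have e3 : 0 < a ^ 3 * (A * Real.exp (-(a * x))) := mul_pos (by positivity) (pa x)
    have e4 : 0 < b ^ 3 * (B * Real.exp (b * x)) := mul_pos (by positivity) (pb x)
    rw [abs_le, hh3, hh]
    constructor <;> simp only at * <;> linarith
  have hm0 : 0 ≤ m := by linarith
  have p1 : m ^ 1 ≤ m ^ 3 := pow_le_pow_right₀ hm1 (by norm_num)
  have p2 : m ^ 2 ≤ m ^ 3 := pow_le_pow_right₀ hm1 (by norm_num)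
  refine ⟨?_, hwpos, ?_, ?_, ?_, ?_, ?_⟩
  · have hsm : ContDiff ℝ ∞ h := by
      rw [hh]
      fun_prop
    exact hsm.inv fun x => (hpos x).ne'
  · refine ⟨A⁻¹ + B⁻¹, fun x => ?_⟩
    have hA' : 0 < A⁻¹ := inv_pos.2 hA
    have hB' : 0 < B⁻¹ := inv_pos.2 hB
    rcases le_total 0 x with hx | hx
    · have e1 : B ≤ h x := by
        have e2 : 1 ≤ Real.exp (b * x) := Real.one_le_exp (by positivity)
        have e3 : B * 1 ≤ B * Real.exp (b * x) := mul_le_mul_of_nonneg_left e2 hB.le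
        have e4 := pa x
        rw [hh]
        simp only
        linarith
      have e5 : (h x)⁻¹ ≤ B⁻¹ := inv_anti₀ hB e1
      show (h x)⁻¹ ≤ _
      linarith
    · have e1 : A ≤ h x := by
        have e2 : 1 ≤ Real.exp (-(a * x)) := Real.one_le_exp (by nlinarith)
        have e3 : A * 1 ≤ A * Real.exp (-(a * x)) := mul_le_mul_of_nonneg_left e2 hA.le
        have e4 := pb x
        rw [hh]
        simp only
        linarith
      have e5 : (h x)⁻¹ ≤ A⁻¹ := inv_anti₀ hA e1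
      show (h x)⁻¹ ≤ _
      linarith
  · intro x
    change -(1 / 4) * w x ≤ deriv w x
    rw [dw1]
    simp only
    have e1 : h1 x ≤ 1 / 4 * h x := by
      have e3 : 0 < a * (A * Real.exp (-(a * x))) := mul_pos ha (pa x)
      have e4 := mul_le_mul_of_nonneg_right hb' (pb x).le
      have e5 := pa x
      rw [hh1, hh]
      simp only
      linarith
    have e2 : h1 x * w x ≤ 1 / 4 := by
      calc h1 x * w x ≤ (1 / 4 * h x) * w x := mul_le_mul_of_nonneg_right e1 (hwpos x).le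
        _ = 1 / 4 := by rw [mul_assoc, hhw, mul_one]
    have e3 := mul_le_mul_of_nonneg_right e2 (hwpos x).le
    nlinarith
  · intro x
    change |deriv w x| ≤ _ * w x
    rw [dw1]
    simp only
    have e : -h1 x * w x ^ 2 = -(h1 x * w x) * w x := by ring
    rw [e, abs_mul, abs_neg, abs_of_pos (hwpos x)]
    apply mul_le_mul_of_nonneg_right _ (hwpos x).le
    have := u1 x
    have h0 : 0 ≤ m ^ 3 := by positivity
    linarith
  · intro x
    change |iteratedDeriv 2 w x| ≤ _ * w x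
    rw [D1_it2, dw2]
    simp only
    have e : -h2 x * w x ^ 2 + 2 * h1 x ^ 2 * w x ^ 3 =
        (-(h2 x * w x) + 2 * (h1 x * w x) ^ 2) * w x := by ring
    rw [e, abs_mul, abs_of_pos (hwpos x)]
    apply mul_le_mul_of_nonneg_right _ (hwpos x).le
    have e1 := abs_le.1 (u1 x)
    have e2 := abs_le.1 (u2 x)
    have e3 : (h1 x * w x) ^ 2 ≤ m ^ 2 := by
      rw [pow_one] at e1
      exact sq_le_sq' e1.1 e1.2
    have e4 : 0 ≤ (h1 x * w x) ^ 2 := sq_nonneg _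
    have h0 : 0 ≤ m ^ 3 := by positivity
    rw [abs_le]
    constructor <;> linarith
  · intro x
    change |iteratedDeriv 3 w x| ≤ _ * w x
    rw [D1_it3, dw3]
    simp only
    have e : -h3 x * w x ^ 2 + 6 * h1 x * h2 x * w x ^ 3 - 6 * h1 x ^ 3 * w x ^ 4 =
        (-(h3 x * w x) + 6 * ((h1 x * w x) * (h2 x * w x)) - 6 * (h1 x * w x) ^ 3) * w x := by ring
    rw [e, abs_mul, abs_of_pos (hwpos x)]
    apply mul_le_mul_of_nonneg_right _ (hwpos x).le
    have e1 := u1 x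
    have e2 := u2 x
    have e3 := abs_le.1 (u3 x)
    rw [pow_one] at e1
    have e4 : |(h1 x * w x) * (h2 x * w x)| ≤ m ^ 3 := by
      rw [abs_mul]
      calc |h1 x * w x| * |h2 x * w x| ≤ m * m ^ 2 :=
            mul_le_mul e1 e2 (abs_nonneg _) hm0
        _ = m ^ 3 := by ring
    have e5 : |(h1 x * w x) ^ 3| ≤ m ^ 3 := by
      rw [abs_pow]
      exact pow_le_pow_left₀ (abs_nonneg _) e1 3
    rw [abs_le] at e4 e5
    rw [abs_le]
    constructor <;> linarith [e3.1, e3.2, e4.1, e4.2, e5.1, e5.2]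

end H37KB

end S_H37_KB_D1

section S_H37_KB_C2

/-!
# Row C2 of MP_95be7d_PDE (100 lines)

Consequences of the `H¹` calculus.

* `C2_ibp`: for a test function `θ`: choose `R` with `supp θ ⊆ (-R,R)`; `θ` restricted is smooth hence `IsH1 θ θ'`, apply `C1_mul` on `[-R,R]`: the boundary
  terms vanish and `0 = ∫_{-R}^{R} (p θ + f θ')`, and both integrands vanish outside `[-R,R]`.
* `C2_mol`: `C2_ibp` for `θ(z) = ρ(x-z)`, `θ' = -ρ'(x-z)` (`B1_shift`).
* `C2_W`: `W f²`: let `h = W f`, `IsH1 h (W' f + W p)` (W smooth and bounded with bounded derivative; absolute continuity of the product as in `C1_mul`, on each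
  interval), so `W(y) f(y)² - W(x) f(x)² = ∫_x^y (W' f² + 2 W f p)` (product of `h` and `f`, `C1_mul`) and
  `|W' f² + 2 W f p| ≤ c W f² + W (f² + p²) ≤ (c+1) W (f²+p²)`.  So `W(y) f(y)² ≤ W(x) f(x)² + (c+1) ∫ W(f²+p²)` for all `x`, and `W(x)f(x)²` is integrable, hence
  takes arbitrarily small values (same argument as for `C1_sup`).
* `C2_data`: if `f` is smooth and `IsH1 f p` then `p = f'` a.e. (`C1_ae` and uniqueness of derivatives).
-/

open MeasureTheory Filter Topology Set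
open scoped ContDiff

namespace H37KB

open H98KB

theorem C2_test {θ : ℝ → ℝ} (hθ : ContDiff ℝ ∞ θ) (hc : HasCompactSupport θ) :
    IsH1 θ (deriv θ) := by
  have h0 := (B1_test hθ hc 0).2.2
  have h1 := (B1_test hθ hc 1).2.2
  rw [iteratedDeriv_zero] at h0
  rw [iteratedDeriv_one] at h1
  refine ⟨h0, h1, fun x y => ?_⟩
  rw [intervalIntegral.integral_deriv_eq_sub]
  · exact fun z _ => (hθ.differentiable (by simp)).differentiableAt
  · exact ((hθ.continuous_deriv (by simp)).intervalIntegrable _ _)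

theorem C2_ibp {f p θ : ℝ → ℝ} (h : IsH1 f p) (hθ : ContDiff ℝ ∞ θ) (hc : HasCompactSupport θ) :
    ∫ x, f x * deriv θ x = -∫ x, p x * θ x := by
  have ht := C2_test hθ hc
  have i1 : Integrable (fun x => f x * deriv θ x) := A1_mul h.1 ht.2.1
  have i2 : Integrable (fun x => p x * θ x) := A1_mul h.2.1 ht.1
  obtain ⟨R, hR⟩ := hc.isCompact.isBounded.subset_ball (0 : ℝ)
  have hsub : ∀ z, z ∈ tsupport θ → |z| < R := fun z hz => by
    have := hR hz
    rwa [Metric.mem_ball, dist_zero_right, Real.norm_eq_abs] at this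
  have hz0 : ∀ z, R ≤ |z| → θ z = 0 := fun z hz => by
    by_contra hne
    exact absurd (hsub z (subset_tsupport θ hne)) (not_lt.2 hz)
  have hsupp : Function.support (fun z => p z * θ z + f z * deriv θ z) ⊆ Ioc (-R) R := by
    intro z hz
    have hz' : z ∈ tsupport θ := by
      by_contra hn
      have h1 : θ z = 0 := image_eq_zero_of_notMem_tsupport hn
      have h2 : deriv θ z = 0 := by
        have := (support_deriv_subset (f := θ))
        by_contra hne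
        exact hn (this hne)
      simp [h1, h2] at hz
    have := hsub z hz'
    rw [abs_lt] at this
    exact ⟨this.1, this.2.le⟩
  have h1 := C1_mul h ht (-R) R
  by_cases hRn : 0 ≤ R
  · rw [hz0 R (by rw [abs_of_nonneg hRn]), hz0 (-R) (by rw [abs_neg, abs_of_nonneg hRn]),
      intervalIntegral.integral_eq_integral_of_support_subset hsupp, integral_add i2 i1] at h1
    linarith
  · have hθ0 : ∀ z, θ z = 0 := fun z => hz0 z (by
      have := abs_nonneg z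
      linarith)
    have hd0 : ∀ z, deriv θ z = 0 := fun z => by
      have : θ = fun _ => 0 := funext hθ0
      rw [this]
      simp
    simp [hθ0, hd0]

theorem C2_mol {f p ρ : ℝ → ℝ} (h : IsH1 f p) (hρ : ContDiff ℝ ∞ ρ) (hc : HasCompactSupport ρ)
    (x : ℝ) : mol (deriv ρ) f x = mol ρ p x := by
  obtain ⟨s1, s2, _, s4⟩ := B1_shift hρ hc x
  have h1 := C2_ibp h s1 s2
  have h2 : ∀ z, deriv (fun z => ρ (x - z)) z = -deriv ρ (x - z) := fun z => by
    have := s4 1 z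
    rw [iteratedDeriv_one, iteratedDeriv_one] at this
    rw [this]
    ring
  simp only [h2] at h1
  unfold mol
  have h3 : ∫ z, deriv ρ (x - z) * f z = -∫ z, f z * -deriv ρ (x - z) := by
    rw [← integral_neg]
    refine integral_congr_ae (Eventually.of_forall fun z => ?_)
    simp only
    ring
  rw [h3, h1, neg_neg]
  refine integral_congr_ae (Eventually.of_forall fun z => ?_)
  simp only
  ring

theorem C2_small {g : ℝ → ℝ} {a b : ℝ} (hg : Integrable g) (h : ∀ y, a ≤ g y + b) : a ≤ b := by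
  by_contra hlt
  have hpos : 0 < a - b := by linarith [not_le.1 hlt]
  have hi : Integrable (fun _ : ℝ => a - b) volume := by
    refine Integrable.mono' hg aestronglyMeasurable_const (Eventually.of_forall fun y => ?_)
    rw [Real.norm_eq_abs, abs_of_pos hpos]
    linarith [h y]
  rcases integrable_const_iff.1 hi with h1 | h1
  · exact hpos.ne' h1
  · have h2 := isFiniteMeasure_iff (volume : Measure ℝ)|>.1 h1
    simp at h2

theorem C2_W {c : ℝ} {W f p : ℝ → ℝ} (hc : 0 ≤ c) (hW : Wt c W) (h : IsH1 f p) (x : ℝ) :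
    W x * (f x) ^ 2 ≤ (c + 1) * ∫ y, W y * ((f y) ^ 2 + (p y) ^ 2) := by
  obtain ⟨B, hB⟩ := hW.bdd
  have hB' : ∀ x, |W x| ≤ B := fun x => by
    rw [abs_of_pos (hW.pos x)]
    exact hB x
  have i1 := (A1_W hW.smooth.continuous hB' h.1).1
  have i2 := (A1_W hW.smooth.continuous hB' h.2.1).1
  have i3 : Integrable (fun y => W y * ((f y) ^ 2 + (p y) ^ 2)) := by
    refine (i1.add i2).congr (Eventually.of_forall fun x => ?_)
    simp only [Pi.add_apply]
    ring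
  refine C2_small i1 fun y => ?_
  have hWac : AbsolutelyContinuousOnInterval W x y :=
    (hW.smooth.of_le (by simp)).contDiffOn.absolutelyContinuousOnInterval
  have hfac := C1_ac h x y
  have hg : AbsolutelyContinuousOnInterval (fun z => W z * (f z * f z)) x y :=
    hWac.fun_mul (hfac.fun_mul hfac)
  have h1 := hg.integral_deriv_eq_sub
  have h2 : |∫ z in x..y, deriv (fun z => W z * (f z * f z)) z| ≤
      (c + 1) * ∫ y, W y * ((f y) ^ 2 + (p y) ^ 2) := by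
    have hae : ∀ᵐ z : ℝ, ‖deriv (fun z => W z * (f z * f z)) z‖ ≤
        (c + 1) * (W z * ((f z) ^ 2 + (p z) ^ 2)) := by
      filter_upwards [C1_ae h] with z hz
      have hWd : HasDerivAt W (deriv W z) z :=
        ((hW.smooth.differentiable (by simp)) z).hasDerivAt
      have hd : HasDerivAt (fun z => W z * (f z * f z))
          (deriv W z * (f z * f z) + W z * (p z * f z + f z * p z)) z := hWd.mul (hz.mul hz)
      rw [hd.deriv, Real.norm_eq_abs]
      have hw := hW.pos z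
      have hb := hW.b1 z
      have e1 : |deriv W z * (f z * f z)| ≤ c * W z * (f z) ^ 2 := by
        rw [abs_mul, abs_mul_self, ← sq]
        exact mul_le_mul_of_nonneg_right hb (sq_nonneg _)
      have e2 : |W z * (p z * f z + f z * p z)| ≤ W z * ((f z) ^ 2 + (p z) ^ 2) := by
        rw [abs_mul, abs_of_pos hw]
        refine mul_le_mul_of_nonneg_left ?_ hw.le
        rw [abs_le]
        constructor
        · nlinarith [sq_nonneg (f z + p z)]
        · nlinarith [sq_nonneg (f z - p z)]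
      have e3 : 0 ≤ c * W z * (p z) ^ 2 := by positivity
      calc |deriv W z * (f z * f z) + W z * (p z * f z + f z * p z)|
          ≤ |deriv W z * (f z * f z)| + |W z * (p z * f z + f z * p z)| := abs_add_le _ _
        _ ≤ c * W z * (f z) ^ 2 + W z * ((f z) ^ 2 + (p z) ^ 2) := add_le_add e1 e2
        _ ≤ (c + 1) * (W z * ((f z) ^ 2 + (p z) ^ 2)) := by nlinarith
    have hn : ‖∫ z in x..y, deriv (fun z => W z * (f z * f z)) z‖ ≤
        ∫ z in uIoc x y, (c + 1) * (W z * ((f z) ^ 2 + (p z) ^ 2)) := by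
      refine (intervalIntegral.norm_integral_le_integral_norm_uIoc).trans ?_
      refine integral_mono_ae ?_ (i3.const_mul (c + 1)).integrableOn (ae_restrict_of_ae hae)
      exact (intervalIntegrable_iff.1 hg.intervalIntegrable_deriv).norm
    rw [← Real.norm_eq_abs]
    refine hn.trans ?_
    rw [← integral_const_mul]
    refine setIntegral_le_integral (i3.const_mul (c + 1)) (Eventually.of_forall fun z => ?_)
    have hw := hW.pos z
    simp only [Pi.zero_apply]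
    positivity
  rw [h1] at h2
  have h3 := (abs_le.1 h2).1
  have e : (f y) ^ 2 = f y * f y := sq _
  have e' : (f x) ^ 2 = f x * f x := sq _
  rw [e, e']
  linarith

theorem C2_data {f p : ℝ → ℝ} (h : IsH1 f p) (hf : ContDiff ℝ ∞ f) :
    ∀ᵐ x : ℝ, p x = deriv f x := by
  filter_upwards [C1_ae h] with x hx
  exact hx.deriv.symm

end H37KB

end S_H37_KB_C2

section S_H37_KB_G2

/-!
# Row G2 of MP_95be7d_PDE (120 lines)

The linear equations satisfied by (differences of) solutions.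

* `G2_zero`: everything is `0` (`0^(k+1) = 0`).
* `G2_single`: the weak form `h.weak` (`∫ φ θ = ∫ u 0 θ` by `h.init`; `fl k u = u^(k+1)/(k+1)`).
* `G2_sub`: subtract; the time integrals may be subtracted because the inner integrals are continuous in `τ` on `[0,T]` (`A2_pair` with the test functions
  `θ''+θ'''` and `θ'`, `G1_u`, `G1_fl`), and the inner integrals because all products are integrable.
* `G2_dx`: derivative of a linear equation: for `Lin T v g` with `IsH1 (v t) (q t)`, `IsH1 (g t) (γ t)` for `t ∈ [0,T]`: use the test function `θ'` in `Lin T v g`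
  (`iteratedDeriv j (deriv θ) = iteratedDeriv (j+1) θ = deriv (iteratedDeriv j θ)`) and `C2_ibp` for the test functions `θ`, `θ''+θ'''`, `θ'`:
  `-∫ q(t)θ + ∫ q(0)θ = ∫_0^t -∫ (q(θ''+θ''') + γ θ')`.
-/

open MeasureTheory Filter Topology Set
open scoped ContDiff

namespace H37KB

open H98KB

theorem G2_zero (k : ℕ) : IsGlobalSol k (fun _ => 0) (fun _ _ => 0) (fun _ _ => 0) := by
  refine ⟨fun t _ => ⟨MemLp.zero', MemLp.zero', fun x y => by simp⟩, fun x => rfl,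
    fun t₀ _ => by simpa using tendsto_const_nhds, fun θ _ _ t _ => by simp⟩

theorem G2_single {k : ℕ} {φ : ℝ → ℝ} {u p : ℝ → ℝ → ℝ} (h : IsGlobalSol k φ u p) (T : ℝ) :
    Lin T u (fun t x => fl k (u t x)) := by
  intro θ hθ hc t ht
  have h1 := h.weak θ hθ hc t ht.1
  have h2 : u 0 = φ := funext h.init
  rw [h2]
  exact h1

theorem G2_test {θ : ℝ → ℝ} (hθ : ContDiff ℝ ∞ θ) (hc : HasCompactSupport θ) :
    MemLp (fun x => iteratedDeriv 2 θ x + iteratedDeriv 3 θ x) 2 volume ∧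
      MemLp (deriv θ) 2 volume ∧ MemLp θ 2 volume := by
  have h1 := (B1_test hθ hc 1).2.2
  have h0 := (B1_test hθ hc 0).2.2
  rw [iteratedDeriv_one] at h1
  rw [iteratedDeriv_zero] at h0
  exact ⟨(B1_test hθ hc 2).2.2.add (B1_test hθ hc 3).2.2, h1, h0⟩

theorem G2_cont {T : ℝ} {w G : ℝ → ℝ → ℝ} (hw : CL2 T w) (hG : CL2 T G) {a b : ℝ → ℝ}
    (ha : MemLp a 2 volume) (hb : MemLp b 2 volume) :
    ContinuousOn (fun t => ∫ x, (w t x * a x + G t x * b x)) (Icc 0 T) := by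
  refine ((A2_pair hw ha).add (A2_pair hG hb)).congr fun t ht => ?_
  exact integral_add (A1_mul (hw.mem t ht) ha) (A1_mul (hG.mem t ht) hb)

theorem G2_lin_sub {T : ℝ} {w G w' G' : ℝ → ℝ → ℝ} (hw : CL2 T w) (hG : CL2 T G)
    (hw' : CL2 T w') (hG' : CL2 T G') (h : Lin T w G) (h' : Lin T w' G') :
    Lin T (fun t x => w t x - w' t x) (fun t x => G t x - G' t x) := by
  intro θ hθ hc t ht
  obtain ⟨ha, hb, h0⟩ := G2_test hθ hc
  have e0 : (0 : ℝ) ∈ Icc 0 T := ⟨le_rfl, ht.1.trans ht.2⟩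
  have e1 : ∀ s ∈ Icc 0 T, ∫ x, (w s x - w' s x) * θ x =
      (∫ x, w s x * θ x) - ∫ x, w' s x * θ x := by
    intro s hs
    rw [← integral_sub (A1_mul (hw.mem s hs) h0) (A1_mul (hw'.mem s hs) h0)]
    exact integral_congr_ae (Eventually.of_forall fun x => by simp only; ring)
  have hsub : uIcc 0 t ⊆ Icc 0 T := by
    rw [uIcc_of_le ht.1]; exact Icc_subset_Icc le_rfl ht.2
  have i1 : IntervalIntegrable (fun τ => ∫ x, (w τ x * (iteratedDeriv 2 θ x + iteratedDeriv 3 θ x)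
      + G τ x * deriv θ x)) volume 0 t :=
    ((G2_cont hw hG ha hb).mono hsub).intervalIntegrable
  have i2 : IntervalIntegrable (fun τ => ∫ x, (w' τ x * (iteratedDeriv 2 θ x + iteratedDeriv 3 θ x)
      + G' τ x * deriv θ x)) volume 0 t :=
    ((G2_cont hw' hG' ha hb).mono hsub).intervalIntegrable
  have e2 : ∫ τ in (0:ℝ)..t, ∫ x, ((w τ x - w' τ x) * (iteratedDeriv 2 θ x + iteratedDeriv 3 θ x)
        + (G τ x - G' τ x) * deriv θ x) =
      (∫ τ in (0:ℝ)..t, ∫ x, (w τ x * (iteratedDeriv 2 θ x + iteratedDeriv 3 θ x)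
        + G τ x * deriv θ x)) -
      ∫ τ in (0:ℝ)..t, ∫ x, (w' τ x * (iteratedDeriv 2 θ x + iteratedDeriv 3 θ x)
        + G' τ x * deriv θ x) := by
    rw [← intervalIntegral.integral_sub i1 i2]
    refine intervalIntegral.integral_congr fun τ hτ => ?_
    have hτ' := hsub hτ
    have j1 : Integrable (fun x => w τ x * (iteratedDeriv 2 θ x + iteratedDeriv 3 θ x)
        + G τ x * deriv θ x) := (A1_mul (hw.mem τ hτ') ha).add (A1_mul (hG.mem τ hτ') hb)
    have j2 : Integrable (fun x => w' τ x * (iteratedDeriv 2 θ x + iteratedDeriv 3 θ x)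
        + G' τ x * deriv θ x) := (A1_mul (hw'.mem τ hτ') ha).add (A1_mul (hG'.mem τ hτ') hb)
    rw [← integral_sub j1 j2]
    exact integral_congr_ae (Eventually.of_forall fun x => by simp only; ring)
  simp only
  rw [e1 t ht, e1 0 e0, e2, ← h θ hθ hc t ht, ← h' θ hθ hc t ht]
  ring

theorem G2_sub {k : ℕ} {φ φ' : ℝ → ℝ} {u p u' p' : ℝ → ℝ → ℝ} (h : IsGlobalSol k φ u p)
    (h' : IsGlobalSol k φ' u' p') (T : ℝ) :
    Lin T (fun t x => u t x - u' t x) (fun t x => fl k (u t x) - fl k (u' t x)) :=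
  G2_lin_sub (G1_u h T) (G1_fl h T) (G1_u h' T) (G1_fl h' T) (G2_single h T) (G2_single h' T)

theorem G2_dx {T : ℝ} {v g q γ : ℝ → ℝ → ℝ} (hl : Lin T v g)
    (hv : ∀ t ∈ Icc 0 T, IsH1 (v t) (q t)) (hg : ∀ t ∈ Icc 0 T, IsH1 (g t) (γ t)) :
    Lin T q γ := by
  intro θ hθ hc t ht
  obtain ⟨ha, hb, h0⟩ := G2_test hθ hc
  have hθ1 : ContDiff ℝ ∞ (deriv θ) := (contDiff_infty_iff_deriv.1 hθ).2
  have hc1 : HasCompactSupport (deriv θ) := hc.deriv
  obtain ⟨ha1, hb1, -⟩ := G2_test hθ1 hc1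
  have e0 : (0 : ℝ) ∈ Icc 0 T := ⟨le_rfl, ht.1.trans ht.2⟩
  have h1 := hl (deriv θ) hθ1 hc1 t ht
  rw [C2_ibp (hv t ht) hθ hc, C2_ibp (hv 0 e0) hθ hc] at h1
  have hΘ : ContDiff ℝ ∞ (fun x => iteratedDeriv 2 θ x + iteratedDeriv 3 θ x) :=
    (B1_test hθ hc 2).1.add (B1_test hθ hc 3).1
  have hΘc : HasCompactSupport (fun x => iteratedDeriv 2 θ x + iteratedDeriv 3 θ x) :=
    (B1_test hθ hc 2).2.1.add (B1_test hθ hc 3).2.1
  have hd : ∀ (j : ℕ) (x : ℝ), deriv (iteratedDeriv j θ) x = iteratedDeriv j (deriv θ) x := by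
    intro j x
    rw [← iteratedDeriv_succ, iteratedDeriv_succ']
  have hΘd : ∀ x, deriv (fun x => iteratedDeriv 2 θ x + iteratedDeriv 3 θ x) x =
      iteratedDeriv 2 (deriv θ) x + iteratedDeriv 3 (deriv θ) x := by
    intro x
    rw [deriv_fun_add, hd, hd]
    · exact (B1_cd (B1_test hθ hc 2).1).differentiable (by norm_num) x
    · exact (B1_cd (B1_test hθ hc 3).1).differentiable (by norm_num) x
  have hsub : uIcc 0 t ⊆ Icc 0 T := by
    rw [uIcc_of_le ht.1]; exact Icc_subset_Icc le_rfl ht.2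
  have e2 : ∫ τ in (0:ℝ)..t, ∫ x, (v τ x * (iteratedDeriv 2 (deriv θ) x +
        iteratedDeriv 3 (deriv θ) x) + g τ x * deriv (deriv θ) x) =
      -∫ τ in (0:ℝ)..t, ∫ x, (q τ x * (iteratedDeriv 2 θ x + iteratedDeriv 3 θ x)
        + γ τ x * deriv θ x) := by
    rw [← intervalIntegral.integral_neg]
    refine intervalIntegral.integral_congr fun τ hτ => ?_
    have hτ' := hsub hτ
    rw [integral_add (A1_mul (hv τ hτ').1 ha1) (A1_mul (hg τ hτ').1 hb1),
      integral_add (A1_mul (hv τ hτ').2.1 ha) (A1_mul (hg τ hτ').2.1 hb),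
      C2_ibp (hg τ hτ') hθ1 hc1]
    have h2 := C2_ibp (hv τ hτ') hΘ hΘc
    simp only [hΘd] at h2
    rw [h2]
    ring
  rw [e2] at h1
  linarith

theorem G2_subx {k : ℕ} {φ φ' : ℝ → ℝ} {u p u' p' : ℝ → ℝ → ℝ} (h : IsGlobalSol k φ u p)
    (h' : IsGlobalSol k φ' u' p') (T : ℝ) :
    Lin T (fun t x => p t x - p' t x) (fun t x => (u t x) ^ k * p t x - (u' t x) ^ k * p' t x) :=
  G2_dx (G2_sub h h' T) (fun t ht => C1_sub (h.h1 t ht.1) (h'.h1 t ht.1))
    (fun t ht => C1_sub (C1_pow (h.h1 t ht.1) k) (C1_pow (h'.h1 t ht.1) k))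

end H37KB

end S_H37_KB_G2

section S_H37_KB_E1

/-!
# Row E1 of MP_95be7d_PDE (130 lines)

The spatial energy inequality.  Pointwise identity (`w, G` smooth; `w' = deriv w`, ...):

  `2 W w (w'' - w''' - G') = Φ' - (2W + 3W') w'² + (W''' + W'') w² + 2 (W' w + W w') G`,
  `Φ = -2 W w w'' + 2 W' w w' - W'' w² + W w'² + 2 W w w' - W' w² - 2 W w G`.

(`-2Www''' = (-2Www'' + 2W'ww' - W''w² + Ww'²)' + W'''w² - 3W'w'²`, `2Www'' = (2Www' - W'w²)' + W''w² - 2Ww'²`, `-2WwG' = (-2WwG)' + 2(Ww)'G`.)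
`Φ` and `Φ'` are integrable (weights with bounded derivatives times products of two `L²` functions, `A1_Wmul`, `A1_W`; `W ≤ C`, `|W'|,|W''|,|W'''| ≤ cC`), so
`∫ Φ' = 0` (`integral_eq_zero_of_hasDerivAt_of_integrable`).  Since `W' ≥ -W/4`: `-(2W+3W')w'² ≤ -(5/4) W w'²`, `2Ww'G ≤ (5/4) W w'² + W G²`,
`(W'''+W'')w² ≤ 2cWw²`, `2W'wG ≤ cW(w²+G²)`.  Total `≤ 3cWw² + (c+1)WG² ≤ (3c+1) W (w² + G²)`.
-/

open MeasureTheory Filter Topology Set
open scoped ContDiff

namespace H37KB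

open H98KB

theorem E1_core {c C : ℝ} {W0 W1 W2 W3 w0 w1 w2 w3 G0 G1 : ℝ → ℝ} (hc : 0 ≤ c)
    (cW0 : Continuous W0) (cW1 : Continuous W1) (cW2 : Continuous W2) (cW3 : Continuous W3)
    (dW0 : ∀ x, HasDerivAt W0 (W1 x) x) (dW1 : ∀ x, HasDerivAt W1 (W2 x) x)
    (dW2 : ∀ x, HasDerivAt W2 (W3 x) x)
    (dw0 : ∀ x, HasDerivAt w0 (w1 x) x) (dw1 : ∀ x, HasDerivAt w1 (w2 x) x)
    (dw2 : ∀ x, HasDerivAt w2 (w3 x) x) (dG0 : ∀ x, HasDerivAt G0 (G1 x) x)
    (pos : ∀ x, 0 < W0 x) (bdd : ∀ x, W0 x ≤ C) (low : ∀ x, -(1 / 4) * W0 x ≤ W1 x)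
    (b1 : ∀ x, |W1 x| ≤ c * W0 x) (b2 : ∀ x, |W2 x| ≤ c * W0 x) (b3 : ∀ x, |W3 x| ≤ c * W0 x)
    (h0 : MemLp w0 2 volume) (h1 : MemLp w1 2 volume) (h2 : MemLp w2 2 volume)
    (h3 : MemLp w3 2 volume) (g0 : MemLp G0 2 volume) (g1 : MemLp G1 2 volume) :
    ∫ x, W0 x * (2 * w0 x * (w2 x - w3 x - G1 x)) ≤
      (3 * c + 1) * ∫ x, W0 x * ((w0 x) ^ 2 + (G0 x) ^ 2) := by
  have q0 : ∀ x, |W0 x| ≤ C := fun x => by
    rw [abs_of_pos (pos x)]
    exact bdd x
  have q : ∀ V : ℝ → ℝ, (∀ x, |V x| ≤ c * W0 x) → ∀ x, |V x| ≤ c * C := fun V hV x =>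
    (hV x).trans (mul_le_mul_of_nonneg_left (bdd x) hc)
  have i1 := (A1_Wmul cW0 q0 h0 h2).1
  have i2 := (A1_Wmul cW1 (q W1 b1) h0 h1).1
  have i3 := (A1_Wmul cW2 (q W2 b2) h0 h0).1
  have i4 := (A1_Wmul cW0 q0 h1 h1).1
  have i5 := (A1_Wmul cW0 q0 h0 h1).1
  have i6 := (A1_Wmul cW1 (q W1 b1) h0 h0).1
  have i7 := (A1_Wmul cW0 q0 h0 g0).1
  have j1 := (A1_Wmul cW0 q0 h0 h3).1
  have j2 := (A1_Wmul cW1 (q W1 b1) h1 h1).1
  have j3 := (A1_Wmul cW3 (q W3 b3) h0 h0).1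
  have j4 := (A1_Wmul cW1 (q W1 b1) h0 g0).1
  have j5 := (A1_Wmul cW0 q0 h1 g0).1
  have j6 := (A1_Wmul cW0 q0 h0 g1).1
  have j7 := (A1_Wmul cW0 q0 h0 h0).1
  have j8 := (A1_Wmul cW0 q0 g0 g0).1
  -- the primitive
  have hd : ∀ x, HasDerivAt (fun x => -2 * (W0 x * (w0 x * w2 x)) + 2 * (W1 x * (w0 x * w1 x))
      - W2 x * (w0 x * w0 x) + W0 x * (w1 x * w1 x) + 2 * (W0 x * (w0 x * w1 x))
      - W1 x * (w0 x * w0 x) - 2 * (W0 x * (w0 x * G0 x)))
      (-2 * (W0 x * (w0 x * w3 x)) + 3 * (W1 x * (w1 x * w1 x)) - W3 x * (w0 x * w0 x)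
        + 2 * (W0 x * (w1 x * w1 x)) + 2 * (W0 x * (w0 x * w2 x)) - W2 x * (w0 x * w0 x)
        - 2 * (W1 x * (w0 x * G0 x)) - 2 * (W0 x * (w1 x * G0 x))
        - 2 * (W0 x * (w0 x * G1 x))) x := by
    intro x
    have a1 := ((dW0 x).mul ((dw0 x).mul (dw2 x))).const_mul (-2)
    have a2 := ((dW1 x).mul ((dw0 x).mul (dw1 x))).const_mul 2
    have a3 := (dW2 x).mul ((dw0 x).mul (dw0 x))
    have a4 := (dW0 x).mul ((dw1 x).mul (dw1 x))
    have a5 := ((dW0 x).mul ((dw0 x).mul (dw1 x))).const_mul 2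
    have a6 := (dW1 x).mul ((dw0 x).mul (dw0 x))
    have a7 := ((dW0 x).mul ((dw0 x).mul (dG0 x))).const_mul 2
    have h := (((((a1.add a2).sub a3).add a4).add a5).sub a6).sub a7
    refine h.congr_deriv ?_
    simp only [Pi.mul_apply]
    ring
  have hint : Integrable (fun x => -2 * (W0 x * (w0 x * w2 x)) + 2 * (W1 x * (w0 x * w1 x))
      - W2 x * (w0 x * w0 x) + W0 x * (w1 x * w1 x) + 2 * (W0 x * (w0 x * w1 x))
      - W1 x * (w0 x * w0 x) - 2 * (W0 x * (w0 x * G0 x))) :=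
    ((((((i1.const_mul (-2)).add (i2.const_mul 2)).sub i3).add i4).add (i5.const_mul 2)).sub
      i6).sub (i7.const_mul 2)
  have hint' : Integrable (fun x => -2 * (W0 x * (w0 x * w3 x)) + 3 * (W1 x * (w1 x * w1 x))
        - W3 x * (w0 x * w0 x)
        + 2 * (W0 x * (w1 x * w1 x)) + 2 * (W0 x * (w0 x * w2 x)) - W2 x * (w0 x * w0 x)
        - 2 * (W1 x * (w0 x * G0 x)) - 2 * (W0 x * (w1 x * G0 x))
        - 2 * (W0 x * (w0 x * G1 x))) :=
    ((((((((j1.const_mul (-2)).add (j2.const_mul 3)).sub j3).add (i4.const_mul 2)).add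
      (i1.const_mul 2)).sub i3).sub (j4.const_mul 2)).sub (j5.const_mul 2)).sub (j6.const_mul 2)
  have hz := integral_eq_zero_of_hasDerivAt_of_integrable hd hint' hint
  have hL : Integrable (fun x => W0 x * (2 * w0 x * (w2 x - w3 x - G1 x))) := by
    have h := ((i1.const_mul 2).sub (j1.const_mul 2)).sub (j6.const_mul 2)
    refine h.congr (Eventually.of_forall fun x => ?_)
    simp only [Pi.sub_apply]
    ring
  have hR : Integrable (fun x => W0 x * ((w0 x) ^ 2 + (G0 x) ^ 2)) := by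
    refine (j7.add j8).congr (Eventually.of_forall fun x => ?_)
    simp only [Pi.add_apply]
    ring
  have hsub := integral_sub hL hint'
  rw [hz, sub_zero] at hsub
  rw [← hsub, ← integral_const_mul]
  refine integral_mono (hL.sub hint') (hR.const_mul _) (fun x => ?_)
  simp only []
  have p0 := pos x
  have c1 : -(2 * W0 x + 3 * W1 x) * (w1 x) ^ 2 ≤ -(5 / 4) * W0 x * (w1 x) ^ 2 :=
    mul_le_mul_of_nonneg_right (by linarith [low x]) (sq_nonneg _)
  have c2 : (W3 x + W2 x) * (w0 x) ^ 2 ≤ 2 * c * W0 x * (w0 x) ^ 2 :=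
    mul_le_mul_of_nonneg_right
      (by linarith [(le_abs_self (W3 x)).trans (b3 x), (le_abs_self (W2 x)).trans (b2 x)])
      (sq_nonneg _)
  have c3 : 2 * W1 x * w0 x * G0 x ≤ c * W0 x * ((w0 x) ^ 2 + (G0 x) ^ 2) := by
    have e1 : 2 * W1 x * w0 x * G0 x ≤ |W1 x| * ((w0 x) ^ 2 + (G0 x) ^ 2) := by
      have e2 : 2 * W1 x * w0 x * G0 x ≤ |W1 x * (2 * w0 x * G0 x)| := by
        have := le_abs_self (W1 x * (2 * w0 x * G0 x))
        linarith
      rw [abs_mul] at e2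
      refine e2.trans (mul_le_mul_of_nonneg_left ?_ (abs_nonneg _))
      rw [abs_le]
      constructor <;> nlinarith [sq_nonneg (w0 x + G0 x), sq_nonneg (w0 x - G0 x)]
    exact e1.trans (mul_le_mul_of_nonneg_right (b1 x) (by positivity))
  have c4 : 2 * W0 x * w1 x * G0 x ≤ (5 / 4) * W0 x * (w1 x) ^ 2 + W0 x * (G0 x) ^ 2 := by
    have e1 : 2 * w1 x * G0 x ≤ (5 / 4) * (w1 x) ^ 2 + (G0 x) ^ 2 := by
      nlinarith [sq_nonneg (w1 x - G0 x), sq_nonneg (w1 x)]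
    have e2 := mul_le_mul_of_nonneg_left e1 p0.le
    linarith
  have c5 : 0 ≤ 3 * c * (W0 x * (G0 x) ^ 2) + W0 x * (w0 x) ^ 2 := by positivity
  have c6 : c * W0 x * (G0 x) ^ 2 ≤ 3 * c * (W0 x * (G0 x) ^ 2) := by
    have : 0 ≤ c * (W0 x * (G0 x) ^ 2) := by positivity
    linarith
  have c7 : 0 ≤ W0 x * (w0 x) ^ 2 := by positivity
  have key : W0 x * (2 * w0 x * (w2 x - w3 x - G1 x)) -
      (-2 * (W0 x * (w0 x * w3 x)) + 3 * (W1 x * (w1 x * w1 x)) - W3 x * (w0 x * w0 x)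
        + 2 * (W0 x * (w1 x * w1 x)) + 2 * (W0 x * (w0 x * w2 x)) - W2 x * (w0 x * w0 x)
        - 2 * (W1 x * (w0 x * G0 x)) - 2 * (W0 x * (w1 x * G0 x))
        - 2 * (W0 x * (w0 x * G1 x))) =
      -(2 * W0 x + 3 * W1 x) * (w1 x) ^ 2 + (W3 x + W2 x) * (w0 x) ^ 2
        + 2 * W1 x * w0 x * G0 x + 2 * W0 x * w1 x * G0 x := by ring
  rw [key]
  nlinarith [c1, c2, c3, c4, c5, c6, c7]

theorem E1 {c : ℝ} {W w G : ℝ → ℝ} (hc : 0 ≤ c) (hW : Wt c W) (hw : ContDiff ℝ ∞ w)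
    (hG : ContDiff ℝ ∞ G) (h0 : MemLp w 2 volume) (h1 : MemLp (deriv w) 2 volume)
    (h2 : MemLp (iteratedDeriv 2 w) 2 volume) (h3 : MemLp (iteratedDeriv 3 w) 2 volume)
    (g0 : MemLp G 2 volume) (g1 : MemLp (deriv G) 2 volume) :
    ∫ x, W x * (2 * w x * (iteratedDeriv 2 w x - iteratedDeriv 3 w x - deriv G x)) ≤
      (3 * c + 1) * ∫ x, W x * ((w x) ^ 2 + (G x) ^ 2) := by
  obtain ⟨C, hC⟩ := hW.bdd
  have key : ∀ f : ℝ → ℝ, ContDiff ℝ ∞ f → ∀ n : ℕ, ∀ x,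
      HasDerivAt (iteratedDeriv n f) (iteratedDeriv (n + 1) f x) x := by
    intro f hf n x
    rw [iteratedDeriv_succ]
    exact ((hf.differentiable_iteratedDeriv n (by exact_mod_cast ENat.coe_lt_top n)) x).hasDerivAt
  have k0 : ∀ f : ℝ → ℝ, ContDiff ℝ ∞ f → ∀ x, HasDerivAt f (deriv f x) x := fun f hf x =>
    ((hf.differentiable (by simp)) x).hasDerivAt
  have k1 : ∀ f : ℝ → ℝ, ContDiff ℝ ∞ f → ∀ x,
      HasDerivAt (deriv f) (iteratedDeriv 2 f x) x := by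
    intro f hf x
    have h := key f hf 1 x
    rwa [iteratedDeriv_one] at h
  have cc : ∀ f : ℝ → ℝ, ContDiff ℝ ∞ f → ∀ n : ℕ, Continuous (iteratedDeriv n f) :=
    fun f hf n => hf.continuous_iteratedDeriv n (by exact_mod_cast le_top)
  have hW1 : Continuous (deriv W) := by
    have h := cc W hW.smooth 1
    rwa [iteratedDeriv_one] at h
  exact E1_core hc hW.smooth.continuous hW1 (cc W hW.smooth 2) (cc W hW.smooth 3)
    (k0 W hW.smooth) (k1 W hW.smooth) (key W hW.smooth 2) (k0 w hw) (k1 w hw) (key w hw 2)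
    (k0 G hG) hW.pos hC hW.low hW.b1 hW.b2 hW.b3 h0 h1 h2 h3 g0 g1

end H37KB

end S_H37_KB_E1

section S_H37_KB_E2

/-!
# Row E2 of MP_95be7d_PDE (90 lines)

The mollified linear equation, pointwise in `x`.

Apply `Lin` with the test function `θ(z) = ρ(x-z)` (`B1_shift`): `θ' = -ρ'(x-z)`, `θ'' = ρ''(x-z)`, `θ''' = -ρ'''(x-z)`, so
`∫ (w(θ''+θ''') + Gθ') = mol ρ'' w x - mol ρ''' w x - mol ρ' G x` (split the integral: products of `L²` functions).
Continuity in `τ` of the integrand: `A2_pair` (or `B1_joint`).  `E2_deriv`: fundamental theorem of calculus at an interior point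
(`intervalIntegral.integral_hasDerivAt_right`; the integrand is continuous on `Icc 0 T`, a neighbourhood of `t ∈ Ioo 0 T`).
-/

open MeasureTheory Filter Topology Set
open scoped ContDiff

namespace H37KB

open H98KB

/-- right hand side of the mollified equation -/
noncomputable def rhs (ρ : ℝ → ℝ) (w G : ℝ → ℝ) (x : ℝ) : ℝ :=
  mol (iteratedDeriv 2 ρ) w x - mol (iteratedDeriv 3 ρ) w x - mol (deriv ρ) G x

theorem E2_slice {T : ℝ} {w : ℝ → ℝ → ℝ} {ρ : ℝ → ℝ} (hw : CL2 T w)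
    (h : ContDiff ℝ ∞ ρ) (hc : HasCompactSupport ρ) (j : ℕ) (x : ℝ) :
    ContinuousOn (fun τ => mol (iteratedDeriv j ρ) (w τ) x) (Icc 0 T) := by
  have h1 := B1_joint hw (B1_test h hc j).1 (B1_test h hc j).2.1
  have h2 : ContinuousOn (fun τ : ℝ => (τ, x)) (Icc 0 T) := by fun_prop
  exact h1.comp h2 (fun τ hτ => ⟨hτ, mem_univ _⟩)

theorem E2_cont {T : ℝ} {w G : ℝ → ℝ → ℝ} {ρ : ℝ → ℝ} (hw : CL2 T w) (hG : CL2 T G)
    (h : ContDiff ℝ ∞ ρ) (hc : HasCompactSupport ρ) (x : ℝ) :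
    ContinuousOn (fun τ => rhs ρ (w τ) (G τ) x) (Icc 0 T) := by
  unfold rhs
  have h1 := E2_slice hG h hc 1 x
  simp only [iteratedDeriv_one] at h1
  exact ((E2_slice hw h hc 2 x).sub (E2_slice hw h hc 3 x)).sub h1

theorem E2_rhs {v g ρ : ℝ → ℝ} (hv : MemLp v 2 volume) (hg : MemLp g 2 volume)
    (h : ContDiff ℝ ∞ ρ) (hc : HasCompactSupport ρ) (x : ℝ) :
    ∫ z, (v z * (iteratedDeriv 2 (fun z => ρ (x - z)) z +
      iteratedDeriv 3 (fun z => ρ (x - z)) z) + g z * deriv (fun z => ρ (x - z)) z) =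
      rhs ρ v g x := by
  have hs := (B1_shift h hc x).2.2.2
  have e : (fun z => v z * (iteratedDeriv 2 (fun z => ρ (x - z)) z +
      iteratedDeriv 3 (fun z => ρ (x - z)) z) + g z * deriv (fun z => ρ (x - z)) z) =
      fun z => (iteratedDeriv 2 ρ (x - z) * v z - iteratedDeriv 3 ρ (x - z) * v z) -
        deriv ρ (x - z) * g z := by
    funext z
    have h1 := hs 1 z
    rw [iteratedDeriv_one, iteratedDeriv_one] at h1
    rw [hs 2 z, hs 3 z, h1]
    ring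
  have i2 : Integrable (fun z => iteratedDeriv 2 ρ (x - z) * v z) :=
    A1_mul (B1_shift (B1_test h hc 2).1 (B1_test h hc 2).2.1 x).2.2.1 hv
  have i3 : Integrable (fun z => iteratedDeriv 3 ρ (x - z) * v z) :=
    A1_mul (B1_shift (B1_test h hc 3).1 (B1_test h hc 3).2.1 x).2.2.1 hv
  have i1 : Integrable (fun z => deriv ρ (x - z) * g z) := by
    have h1 := A1_mul (B1_shift (B1_test h hc 1).1 (B1_test h hc 1).2.1 x).2.2.1 hg
    simp only [iteratedDeriv_one] at h1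
    exact h1
  have i4 : Integrable (fun z => iteratedDeriv 2 ρ (x - z) * v z -
      iteratedDeriv 3 ρ (x - z) * v z) := i2.sub i3
  rw [e, integral_sub i4 i1, integral_sub i2 i3]
  rfl

theorem E2_int {T : ℝ} {w G : ℝ → ℝ → ℝ} {ρ : ℝ → ℝ} (hw : CL2 T w) (hG : CL2 T G)
    (hl : Lin T w G) (h : ContDiff ℝ ∞ ρ) (hc : HasCompactSupport ρ) (x t : ℝ)
    (ht : t ∈ Icc 0 T) :
    mol ρ (w t) x - mol ρ (w 0) x = ∫ τ in (0:ℝ)..t, rhs ρ (w τ) (G τ) x := by
  have h1 := hl (fun z => ρ (x - z)) (B1_shift h hc x).1 (B1_shift h hc x).2.1 t ht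
  have e1 : ∀ s, ∫ z, w s z * ρ (x - z) = mol ρ (w s) x := fun s => by
    unfold mol
    refine integral_congr_ae (Filter.Eventually.of_forall fun z => ?_)
    simp only
    ring
  rw [e1, e1] at h1
  rw [h1]
  refine intervalIntegral.integral_congr fun τ hτ => ?_
  rw [uIcc_of_le ht.1] at hτ
  have hτ' : τ ∈ Icc 0 T := ⟨hτ.1, hτ.2.trans ht.2⟩
  exact E2_rhs (hw.mem τ hτ') (hG.mem τ hτ') h hc x

theorem E2_deriv {T : ℝ} {w G : ℝ → ℝ → ℝ} {ρ : ℝ → ℝ} (hw : CL2 T w) (hG : CL2 T G)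
    (hl : Lin T w G) (h : ContDiff ℝ ∞ ρ) (hc : HasCompactSupport ρ) (x t : ℝ)
    (ht : t ∈ Ioo 0 T) :
    HasDerivAt (fun τ => mol ρ (w τ) x) (rhs ρ (w t) (G t) x) t := by
  have hcont := E2_cont hw hG h hc x
  have hin : IntervalIntegrable (fun τ => rhs ρ (w τ) (G τ) x) volume 0 t := by
    refine ContinuousOn.intervalIntegrable (hcont.mono ?_)
    rw [uIcc_of_le ht.1.le]
    exact Icc_subset_Icc le_rfl ht.2.le
  have hca : ContinuousAt (fun τ => rhs ρ (w τ) (G τ) x) t :=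
    hcont.continuousAt (Icc_mem_nhds ht.1 ht.2)
  have hm : StronglyMeasurableAtFilter (fun τ => rhs ρ (w τ) (G τ) x) (𝓝 t) volume :=
    (hcont.mono Ioo_subset_Icc_self).stronglyMeasurableAtFilter isOpen_Ioo t ht
  have hd := intervalIntegral.integral_hasDerivAt_right hin hm hca
  have hd2 := hd.const_add (mol ρ (w 0) x)
  refine hd2.congr_of_eventuallyEq ?_
  filter_upwards [Icc_mem_nhds ht.1 ht.2] with τ hτ
  have h1 := E2_int hw hG hl h hc x τ hτ
  linarith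

end H37KB

end S_H37_KB_E2

section S_H37_KB_E3

/-!
# Row E3 of MP_95be7d_PDE (170 lines)

The integrated energy inequality for the mollified function `m(τ,x) = mol ρ (w τ) x`; `g(τ,x) = mol ρ (G τ) x`, `r(τ,x) = rhs ρ (w τ) (G τ) x`.

1. Fixed `x`: `m(t,x)² - m(0,x)² = ∫_0^t 2 m r dτ` (FTC: `m(·,x)` is continuous on `[0,t]` (`B1_joint`) and has derivative `r` on `(0,T)` (`E2_deriv`), `r(·,x)` continuous on
   `[0,T]` (`E2_cont`); `intervalIntegral.integral_eq_sub_of_hasDerivAt_of_le` with the derivative inside).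
2. Multiply by `W x`, integrate in `x` and swap (Fubini): `(τ,x) ↦ W(x) 2 m r` is continuous on `Icc 0 T ×ˢ univ` (`B1_joint` for `ρ, ρ'', ρ''', ρ'`), for each
   `τ` its `L¹(dx)` norm is `≤ 2 C √(n2 m) √(n2 r) ≤ const` (`A1_Wmul`, `B2_CL2` + `A2_bdd` for the four mollified functions), so it is integrable on
   `(volume.restrict (Ioc 0 t)).prod volume` (`integrable_prod_iff`).
3. For each `τ`: `∫ W 2 m r dx ≤ (3c+1) ∫ W (m² + g²)` by `E1` (`r = iteratedDeriv 2 m - iteratedDeriv 3 m - deriv g` by `B1_iter`, `B1_deriv`; the hypotheses of `E1` by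
   `B1_smooth`, `B1_iter`, `B2_L2`, `B1_test`).
4. Integrate in `τ` (`intervalIntegral.integral_mono_on`); the right side is continuous in `τ` by `A2_W` for `B2_CL2`.
-/

open MeasureTheory Filter Topology Set
open scoped ContDiff

namespace H37KB

open H98KB

theorem E3 {T c : ℝ} {w G : ℝ → ℝ → ℝ} {ρ W : ℝ → ℝ} (hc0 : 0 ≤ c) (hW : Wt c W)
    (hw : CL2 T w) (hG : CL2 T G) (hl : Lin T w G) (h : ContDiff ℝ ∞ ρ)
    (hc : HasCompactSupport ρ) (t : ℝ) (ht : t ∈ Icc 0 T) :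
    ∫ x, W x * (mol ρ (w t) x) ^ 2 ≤ (∫ x, W x * (mol ρ (w 0) x) ^ 2) +
      (3 * c + 1) * ∫ τ in (0:ℝ)..t, ∫ x, W x * ((mol ρ (w τ) x) ^ 2 + (mol ρ (G τ) x) ^ 2) := by
  obtain ⟨C, hC⟩ := hW.bdd
  have hWc : Continuous W := hW.smooth.continuous
  have hWb : ∀ x, |W x| ≤ C := fun x => by
    rw [abs_of_pos (hW.pos x)]
    exact hC x
  have hC0 : 0 ≤ C := (abs_nonneg (W 0)).trans (hWb 0)
  have h0T : (0:ℝ) ∈ Icc (0:ℝ) T := ⟨le_rfl, ht.1.trans ht.2⟩
  have hsub : Icc (0:ℝ) t ⊆ Icc 0 T := Icc_subset_Icc_right ht.2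
  -- test functions
  obtain ⟨s2, c2, -⟩ := B1_test h hc 2
  obtain ⟨s3, c3, -⟩ := B1_test h hc 3
  obtain ⟨s1, c1, -⟩ := B1_test h hc 1
  rw [iteratedDeriv_one] at s1 c1
  -- CL2 facts
  have km : CL2 T (fun τ => mol ρ (w τ)) := B2_CL2 hw h hc
  have kg : CL2 T (fun τ => mol ρ (G τ)) := B2_CL2 hG h hc
  have kr : CL2 T (fun τ x => rhs ρ (w τ) (G τ) x) :=
    A2_sub (A2_sub (B2_CL2 hw s2 c2) (B2_CL2 hw s3 c3)) (B2_CL2 hG s1 c1)
  obtain ⟨Mm, hMm0, hMm⟩ := A2_bdd km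
  obtain ⟨Mr, hMr0, hMr⟩ := A2_bdd kr
  let F : ℝ → ℝ → ℝ := fun τ x => W x * (2 * mol ρ (w τ) x * rhs ρ (w τ) (G τ) x)
  have hFeq : ∀ τ x, F τ x = 2 * (W x * (mol ρ (w τ) x * rhs ρ (w τ) (G τ) x)) := fun τ x => by
    show W x * (2 * mol ρ (w τ) x * rhs ρ (w τ) (G τ) x) = _
    ring
  -- joint continuity
  have jm : ContinuousOn (fun q : ℝ × ℝ => mol ρ (w q.1) q.2) (Icc 0 T ×ˢ univ) := B1_joint hw h hc
  have jr : ContinuousOn (fun q : ℝ × ℝ => rhs ρ (w q.1) (G q.1) q.2) (Icc 0 T ×ˢ univ) :=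
    ((B1_joint hw s2 c2).sub (B1_joint hw s3 c3)).sub (B1_joint hG s1 c1)
  have jF : ContinuousOn (fun q : ℝ × ℝ => F q.1 q.2) (Icc 0 T ×ˢ univ) := by
    have hWq : ContinuousOn (fun q : ℝ × ℝ => W q.2) (Icc 0 T ×ˢ univ) :=
      (hWc.comp continuous_snd).continuousOn
    exact hWq.mul ((continuousOn_const.mul jm).mul jr)
  have hmeas : AEStronglyMeasurable (fun q : ℝ × ℝ => F q.1 q.2)
      ((volume.restrict (Ioc (0:ℝ) t)).prod (volume : Measure ℝ)) := by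
    have e : (volume.restrict (Ioc (0:ℝ) t)).prod (volume : Measure ℝ) =
        ((volume : Measure ℝ).prod (volume : Measure ℝ)).restrict (Ioc (0:ℝ) t ×ˢ univ) := by
      rw [← Measure.prod_restrict, Measure.restrict_univ]
    rw [e]
    refine (jF.mono ?_).aestronglyMeasurable (measurableSet_Ioc.prod MeasurableSet.univ)
    exact prod_mono (Ioc_subset_Icc_self.trans hsub) le_rfl
  have hFint : ∀ τ ∈ Icc 0 T, Integrable (fun x => F τ x) ∧
      ∫ x, ‖F τ x‖ ≤ 2 * (C * (√Mm * √Mr)) := by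
    intro τ hτ
    obtain ⟨i1, i2⟩ := A1_Wmul hWc hWb (km.mem τ hτ) (kr.mem τ hτ)
    constructor
    · have := i1.const_mul 2
      refine this.congr (Eventually.of_forall fun x => ?_)
      exact (hFeq τ x).symm
    · have e : ∀ x, ‖F τ x‖ = 2 * |W x * (mol ρ (w τ) x * rhs ρ (w τ) (G τ) x)| := fun x => by
        rw [hFeq, Real.norm_eq_abs, abs_mul, abs_of_pos (by norm_num : (0:ℝ) < 2)]
      simp_rw [e]
      rw [integral_const_mul]
      refine mul_le_mul_of_nonneg_left (i2.trans ?_) (by norm_num)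
      refine mul_le_mul_of_nonneg_left ?_ hC0
      exact mul_le_mul (Real.sqrt_le_sqrt (hMm τ hτ)) (Real.sqrt_le_sqrt (hMr τ hτ))
        (Real.sqrt_nonneg _) (Real.sqrt_nonneg _)
  have hint : Integrable (fun q : ℝ × ℝ => F q.1 q.2)
      ((volume.restrict (Ioc (0:ℝ) t)).prod (volume : Measure ℝ)) := by
    rw [integrable_prod_iff hmeas]
    constructor
    · refine (ae_restrict_iff' measurableSet_Ioc).2 (Eventually.of_forall fun τ hτ => ?_)
      exact (hFint τ (hsub (Ioc_subset_Icc_self hτ))).1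
    · have hm2 : AEStronglyMeasurable (fun τ => ∫ x, ‖F τ x‖) (volume.restrict (Ioc (0:ℝ) t)) :=
        hmeas.norm.integral_prod_right'
      refine Integrable.mono' (integrable_const (2 * (C * (√Mm * √Mr)))) hm2 ?_
      refine (ae_restrict_iff' measurableSet_Ioc).2 (Eventually.of_forall fun τ hτ => ?_)
      rw [Real.norm_eq_abs, abs_of_nonneg (integral_nonneg fun x => norm_nonneg _)]
      exact (hFint τ (hsub (Ioc_subset_Icc_self hτ))).2
  -- step 1
  have step1 : ∀ x, (mol ρ (w t) x) ^ 2 - (mol ρ (w 0) x) ^ 2 =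
      ∫ τ in (0:ℝ)..t, 2 * mol ρ (w τ) x * rhs ρ (w τ) (G τ) x := by
    intro x
    have cm : ContinuousOn (fun τ => mol ρ (w τ) x) (Icc 0 T) := by
      have : ContinuousOn ((fun q : ℝ × ℝ => mol ρ (w q.1) q.2) ∘ fun τ : ℝ => (τ, x)) (Icc 0 T) :=
        jm.comp (by fun_prop) (fun τ hτ => ⟨hτ, mem_univ _⟩)
      exact this
    have cr := E2_cont hw hG h hc x
    symm
    refine intervalIntegral.integral_eq_sub_of_hasDerivAt_of_le
      (f := fun τ => (mol ρ (w τ) x) ^ 2) ht.1 ((cm.mono hsub).pow 2) ?_ ?_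
    · intro τ hτ
      have hτ' : τ ∈ Ioo 0 T := ⟨hτ.1, hτ.2.trans_le ht.2⟩
      have hd := (E2_deriv hw hG hl h hc x τ hτ').pow 2
      refine hd.congr_deriv ?_
      simp
    · have : ContinuousOn (fun τ => 2 * mol ρ (w τ) x * rhs ρ (w τ) (G τ) x) (Icc 0 t) :=
        ((continuousOn_const.mul cm).mul cr).mono hsub
      rw [← uIcc_of_le ht.1] at this
      exact this.intervalIntegrable
  -- step 2
  have step2 : ∫ x, W x * ((mol ρ (w t) x) ^ 2 - (mol ρ (w 0) x) ^ 2) =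
      ∫ τ in (0:ℝ)..t, ∫ x, F τ x := by
    have e : ∀ x, W x * ((mol ρ (w t) x) ^ 2 - (mol ρ (w 0) x) ^ 2) = ∫ τ in Ioc (0:ℝ) t, F τ x := by
      intro x
      rw [step1 x, ← intervalIntegral.integral_of_le ht.1, ← intervalIntegral.integral_const_mul]
    simp_rw [e]
    rw [intervalIntegral.integral_of_le ht.1]
    exact (integral_integral_swap (f := fun τ x => F τ x) hint).symm
  -- step 3
  have step3 : ∀ τ ∈ Icc 0 T, ∫ x, F τ x ≤
      (3 * c + 1) * ∫ x, W x * ((mol ρ (w τ) x) ^ 2 + (mol ρ (G τ) x) ^ 2) := by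
    intro τ hτ
    have hwτ := hw.mem τ hτ
    have hGτ := hG.mem τ hτ
    have d2 : iteratedDeriv 2 (mol ρ (w τ)) = mol (iteratedDeriv 2 ρ) (w τ) := B1_iter h hc hwτ 2
    have d3 : iteratedDeriv 3 (mol ρ (w τ)) = mol (iteratedDeriv 3 ρ) (w τ) := B1_iter h hc hwτ 3
    have d1 : deriv (mol ρ (w τ)) = mol (deriv ρ) (w τ) := B1_deriv h hc hwτ
    have e1 : deriv (mol ρ (G τ)) = mol (deriv ρ) (G τ) := B1_deriv h hc hGτ
    have key := E1 hc0 hW (B1_smooth h hc hwτ) (B1_smooth h hc hGτ) (B2_L2 h hc hwτ).1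
      (by rw [d1]; exact (B2_L2 s1 c1 hwτ).1) (by rw [d2]; exact (B2_L2 s2 c2 hwτ).1)
      (by rw [d3]; exact (B2_L2 s3 c3 hwτ).1) (B2_L2 h hc hGτ).1
      (by rw [e1]; exact (B2_L2 s1 c1 hGτ).1)
    rw [d2, d3, e1] at key
    exact key
  -- step 4
  have hR : ContinuousOn (fun τ => ∫ x, W x * ((mol ρ (w τ) x) ^ 2 + (mol ρ (G τ) x) ^ 2))
      (Icc 0 T) := by
    have a1 := (A2_W km hWc hWb).add (A2_W kg hWc hWb)
    refine a1.congr fun τ hτ => ?_
    have i1 := (A1_W hWc hWb (km.mem τ hτ)).1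
    have i2 := (A1_W hWc hWb (kg.mem τ hτ)).1
    show ∫ x, W x * ((mol ρ (w τ) x) ^ 2 + (mol ρ (G τ) x) ^ 2) =
      (∫ x, W x * (mol ρ (w τ) x) ^ 2) + ∫ x, W x * (mol ρ (G τ) x) ^ 2
    rw [← integral_add i1 i2]
    refine integral_congr_ae (Eventually.of_forall fun x => ?_)
    show W x * ((mol ρ (w τ) x) ^ 2 + (mol ρ (G τ) x) ^ 2) = _
    ring
  have step4 : ∫ τ in (0:ℝ)..t, ∫ x, F τ x ≤
      (3 * c + 1) * ∫ τ in (0:ℝ)..t, ∫ x, W x * ((mol ρ (w τ) x) ^ 2 + (mol ρ (G τ) x) ^ 2) := by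
    rw [← intervalIntegral.integral_const_mul]
    refine intervalIntegral.integral_mono_on ht.1 ?_ ?_ (fun τ hτ => step3 τ (hsub hτ))
    · rw [intervalIntegrable_iff_integrableOn_Ioc_of_le ht.1]
      exact hint.integral_prod_left
    · have : ContinuousOn (fun τ => (3 * c + 1) *
          ∫ x, W x * ((mol ρ (w τ) x) ^ 2 + (mol ρ (G τ) x) ^ 2)) (Icc 0 t) :=
        (continuousOn_const.mul hR).mono hsub
      rw [← uIcc_of_le ht.1] at this
      exact this.intervalIntegrable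
  have it := (A1_W hWc hWb (km.mem t ht)).1
  have i0 := (A1_W hWc hWb (km.mem 0 h0T)).1
  have fin : ∫ x, W x * ((mol ρ (w t) x) ^ 2 - (mol ρ (w 0) x) ^ 2) =
      (∫ x, W x * (mol ρ (w t) x) ^ 2) - ∫ x, W x * (mol ρ (w 0) x) ^ 2 := by
    rw [← integral_sub it i0]
    refine integral_congr_ae (Eventually.of_forall fun x => ?_)
    show W x * ((mol ρ (w t) x) ^ 2 - (mol ρ (w 0) x) ^ 2) = _
    ring
  have := step2
  rw [fin] at this
  linarith

end H37KB

end S_H37_KB_E3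

section S_H37_KB_B3

/-!
# Row B3 of MP_95be7d_PDE (120 lines)

Mollifiers exist and approximate in `L²`.

* `B3_exists`: `ContDiffBump (0:ℝ)` with `rIn = r/2`, `rOut = r`, and `ρ = φ.normed volume` (`ContDiffBump.integral_normed`, `nonneg_normed`,
  `contDiff_normed`; support = `ball 0 r`).
* `B3_tendsto`: given `η > 0` take `h` continuous with compact support and `n2 (v - h) ≤ η`
  (`MemLp.exists_hasCompactSupport_integral_rpow_sub_le` or `MemLp.exists_hasCompactSupport_eLpNorm_sub_le`).  Then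
  `mol ρ v - v = mol ρ (v-h) - (v-h) + (mol ρ h - h)`, the first two have `n2 ≤ η` (`B2_L2`, `∫|ρ| = 1`).  `h` is uniformly continuous: for `r` small
  `|mol ρ h x - h x| = |∫ ρ(x-z)(h z - h x) dz| ≤ η'` for all `x`, and it vanishes for `x` outside a fixed bounded interval
  `[-R-1,R+1]` (`supp h ⊆ [-R,R]`), so `n2 (mol ρ h - h) ≤ η'^2 (2R+2)`.
-/

open MeasureTheory Filter Topology Set
open scoped ContDiff

namespace H37KB

open H98KB


theorem B3_exists (r : ℝ) (hr : 0 < r) : ∃ ρ, Mol r ρ := by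
  let φ : ContDiffBump (0 : ℝ) :=
    { rIn := r / 2, rOut := r, rIn_pos := by linarith, rIn_lt_rOut := by linarith }
  refine ⟨φ.normed volume, ?_, ?_, ?_, ?_⟩
  · exact φ.contDiff_normed
  · exact fun x => φ.nonneg_normed x
  · intro x hx
    by_contra h
    have h1 : x ∈ Function.support (φ.normed volume) := h
    rw [φ.support_normed_eq, Metric.mem_ball, Real.dist_eq, sub_zero] at h1
    have h2 : |x| < r := h1
    linarith
  · exact φ.integral_normed

private lemma B3_aux_rho {r : ℝ} {ρ : ℝ → ℝ} (hρ : Mol r ρ) (x : ℝ) :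
    Integrable (fun z => ρ (x - z)) ∧ ∫ z, ρ (x - z) = 1 := by
  have hc : HasCompactSupport ρ := B2_cpt hρ
  have hi : Integrable ρ := hρ.smooth.continuous.integrable_of_hasCompactSupport hc
  refine ⟨hi.comp_sub_left x, ?_⟩
  rw [integral_sub_left_eq_self (fun z => ρ z) volume x]
  exact hρ.int

private lemma B3_aux_pt {r η : ℝ} {ρ h : ℝ → ℝ} (hρ : Mol r ρ) (hh : Continuous h)
    (hr : ∀ x z, |x - z| < r → |h z - h x| ≤ η) (x : ℝ) : |mol ρ h x - h x| ≤ η := by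
  obtain ⟨h1, h2⟩ := B3_aux_rho hρ x
  have hc : HasCompactSupport ρ := B2_cpt hρ
  obtain ⟨C, hC⟩ : ∃ C, ∀ z, |z - x| ≤ r → |h z| ≤ C := by
    obtain ⟨C, hC⟩ := (isCompact_closedBall x r).exists_bound_of_continuousOn hh.continuousOn
    exact ⟨C, fun z hz => hC z (by rwa [Metric.mem_closedBall, Real.dist_eq])⟩
  have hcs : HasCompactSupport (fun z => ρ (x - z) * h z) := by
    apply HasCompactSupport.intro (isCompact_closedBall x r)
    intro z hz
    rw [Metric.mem_closedBall, Real.dist_eq, not_le] at hz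
    rw [hρ.supp (x - z) (by rw [abs_sub_comm]; exact hz.le), zero_mul]
  have h3 : Integrable (fun z => ρ (x - z) * h z) := by
    apply Continuous.integrable_of_hasCompactSupport _ hcs
    exact (hρ.smooth.continuous.comp (by fun_prop)).mul hh
  have h4 : mol ρ h x - h x = ∫ z, ρ (x - z) * (h z - h x) := by
    have h5 : (fun z => ρ (x - z) * (h z - h x)) =
        fun z => ρ (x - z) * h z - ρ (x - z) * h x := by
      funext z
      ring
    rw [h5, integral_sub h3 (h1.mul_const _), integral_mul_const, h2, one_mul]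
    rfl
  rw [h4]
  calc |∫ z, ρ (x - z) * (h z - h x)| ≤ ∫ z, |ρ (x - z) * (h z - h x)| :=
        abs_integral_le_integral_abs
    _ ≤ ∫ z, ρ (x - z) * η := by
        apply integral_mono_of_nonneg
        · exact Eventually.of_forall fun z => abs_nonneg _
        · exact h1.mul_const _
        · refine Eventually.of_forall fun z => ?_
          show |ρ (x - z) * (h z - h x)| ≤ ρ (x - z) * η
          rcases lt_or_ge |x - z| r with hz | hz
          · rw [abs_mul, abs_of_nonneg (hρ.nonneg _)]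
            exact mul_le_mul_of_nonneg_left (hr x z hz) (hρ.nonneg _)
          · rw [hρ.supp _ hz, zero_mul, zero_mul, abs_zero]
    _ = η := by rw [integral_mul_const, h2, one_mul]

private lemma B3_aux_n2 {r η R : ℝ} {ρ h : ℝ → ℝ} (hρ : Mol r ρ) (hh : Continuous h)
    (hr1 : r ≤ 1) (hR : 0 ≤ R) (hsupp : ∀ x, R < |x| → h x = 0)
    (hr : ∀ x z, |x - z| < r → |h z - h x| ≤ η) :
    n2 (fun x => mol ρ h x - h x) ≤ η ^ 2 * (2 * (R + 1)) := by
  have hpt : ∀ x, (mol ρ h x - h x) ^ 2 ≤ (Icc (-(R + 1)) (R + 1)).indicator (fun _ => η ^ 2) x := by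
    intro x
    by_cases hx : x ∈ Icc (-(R + 1)) (R + 1)
    · rw [indicator_of_mem hx]
      have h1 := B3_aux_pt hρ hh hr x
      have h2 : 0 ≤ η := (abs_nonneg _).trans h1
      exact sq_le_sq' (by linarith [(abs_le.1 h1).1]) (abs_le.1 h1).2
    · rw [indicator_of_notMem hx]
      have hx' : R + 1 < |x| := by
        by_contra hne
        rw [not_lt, abs_le] at hne
        exact hx ⟨hne.1, hne.2⟩
      have h1 : h x = 0 := hsupp x (by linarith)
      have h2 : mol ρ h x = 0 := by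
        unfold mol
        apply integral_eq_zero_of_ae
        refine Eventually.of_forall fun z => ?_
        show ρ (x - z) * h z = 0
        rcases lt_or_ge |x - z| r with hz | hz
        · have h3 : |x| ≤ |x - z| + |z| := by
            have := abs_add_le (x - z) z
            rwa [sub_add_cancel] at this
          rw [hsupp z (by linarith), mul_zero]
        · rw [hρ.supp _ hz, zero_mul]
      rw [h1, h2]
      norm_num
  unfold n2
  calc ∫ x, (mol ρ h x - h x) ^ 2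
      ≤ ∫ x, (Icc (-(R + 1)) (R + 1)).indicator (fun _ => η ^ 2) x := by
        apply integral_mono_of_nonneg
        · exact Eventually.of_forall fun x => sq_nonneg _
        · rw [integrable_indicator_iff measurableSet_Icc]
          exact integrableOn_const (by simp)
        · exact Eventually.of_forall hpt
    _ = η ^ 2 * (2 * (R + 1)) := by
        rw [integral_indicator measurableSet_Icc, setIntegral_const, Measure.real,
          Real.volume_Icc, ENNReal.toReal_ofReal (by linarith), smul_eq_mul]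
        ring

theorem B3_tendsto {v : ℝ → ℝ} (hv : MemLp v 2 volume) {ρ : ℕ → ℝ → ℝ}
    (hρ : ∀ n : ℕ, Mol (1 / ((n : ℝ) + 1)) (ρ n)) :
    Tendsto (fun n => n2 (fun x => mol (ρ n) v x - v x)) atTop (𝓝 0) := by
  rw [Metric.tendsto_atTop]
  intro ε hε
  -- approximation
  obtain ⟨h, hhs, hhn, hhc, hhm⟩ := MemLp.exists_hasCompactSupport_integral_rpow_sub_le
    (p := 2) (by norm_num) (f := v) (μ := volume)
    (by rw [show ENNReal.ofReal 2 = 2 by simp]; exact hv) (ε := ε / 16) (by positivity)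
  rw [show ENNReal.ofReal 2 = 2 by simp] at hhm
  have hvh : n2 (fun x => v x - h x) ≤ ε / 16 := by
    unfold n2
    refine le_trans (le_of_eq ?_) hhn
    congr 1
    funext x
    rw [Real.rpow_two, Real.norm_eq_abs, sq_abs]
  have hvhm : MemLp (fun x => v x - h x) 2 volume := hv.sub hhm
  -- the compact support of `h`
  obtain ⟨R, hR0, hR⟩ : ∃ R : ℝ, 0 ≤ R ∧ ∀ x, R < |x| → h x = 0 := by
    obtain ⟨R, hR⟩ := hhs.isCompact.isBounded.exists_norm_le
    refine ⟨max R 0, le_max_right _ _, ?_⟩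
    intro x hx
    by_contra hne
    have h1 : x ∈ tsupport h := subset_tsupport h hne
    have h2 := hR x h1
    rw [Real.norm_eq_abs] at h2
    exact absurd (h2.trans (le_max_left _ _)) (not_le.2 hx)
  -- uniform continuity
  have huc : UniformContinuous h := hhs.uniformContinuous_of_continuous hhc
  obtain ⟨η, hη0, hη⟩ : ∃ η : ℝ, 0 < η ∧ η ^ 2 * (2 * (R + 1)) ≤ ε / 16 := by
    refine ⟨√(ε / 16 / (2 * (R + 1))), by positivity, ?_⟩
    rw [Real.sq_sqrt (by positivity), div_mul_cancel₀ _ (by positivity)]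
  obtain ⟨δ, hδ, hδh⟩ := Metric.uniformContinuous_iff.1 huc η hη0
  obtain ⟨N, hN⟩ := exists_nat_one_div_lt hδ
  refine ⟨N, ?_⟩
  intro n hn
  have hρn := hρ n
  have hr1 : 1 / ((n : ℝ) + 1) ≤ 1 := by
    rw [div_le_one (by positivity)]
    have : (0 : ℝ) ≤ n := Nat.cast_nonneg n
    linarith
  have hr2 : 1 / ((n : ℝ) + 1) ≤ δ := by
    refine le_trans ?_ hN.le
    apply one_div_le_one_div_of_le (by positivity)
    have : (N : ℝ) ≤ n := by exact_mod_cast hn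
    linarith
  have hB := B3_aux_n2 hρn hhc hr1 hR0 hR (η := η) (by
    intro x z hxz
    have h1 := hδh (a := z) (b := x) (by
      rw [Real.dist_eq, abs_sub_comm]
      exact lt_of_lt_of_le hxz hr2)
    rw [Real.dist_eq] at h1
    exact h1.le)
  have hcρ : HasCompactSupport (ρ n) := B2_cpt hρn
  obtain ⟨hAm, hA⟩ := B2_L2 hρn.smooth hcρ hvhm
  have hint : ∫ x, |ρ n x| = 1 := by
    rw [← hρn.int]
    congr 1
    funext x
    exact abs_of_nonneg (hρn.nonneg x)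
  rw [hint, one_pow, one_mul] at hA
  obtain ⟨hHm, _⟩ := B2_L2 hρn.smooth hcρ hhm
  have hDm : MemLp (fun x => mol (ρ n) h x - h x) 2 volume := hHm.sub hhm
  have h1 := A1_sub hDm hvhm
  have h2 := A1_add hAm (hDm.sub hvhm)
  have e1 : (fun x => mol (ρ n) v x - v x) = fun x =>
      mol (ρ n) (fun x => v x - h x) x +
        ((fun x => mol (ρ n) h x - h x) - fun x => v x - h x) x := by
    funext x
    rw [B1_sub hρn.smooth hcρ hv hhm x]
    show _ = _ + ((mol (ρ n) h x - h x) - (v x - h x))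
    ring
  have e2 : n2 (fun x => mol (ρ n) v x - v x) < ε := by
    rw [e1]
    have h3 : n2 ((fun x => mol (ρ n) h x - h x) - fun x => v x - h x) =
        n2 (fun x => (mol (ρ n) h x - h x) - (v x - h x)) := rfl
    rw [h3] at h2
    linarith
  rw [Real.dist_eq, sub_zero, abs_of_nonneg (A1_nonneg _)]
  exact e2

end H37KB

end S_H37_KB_B3

section S_H37_KB_E4

/-!
# Row E4 of MP_95be7d_PDE (120 lines)

The energy inequality for weak solutions: let `n → ∞` in `E3` with mollifiers `ρ n`, `Mol (1/(n+1)) (ρ n)` (`B3_exists`, `B2_cpt`).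

For `v ∈ L²`: `∫ W (mol (ρ n) v)² → ∫ W v²` by `A1_diff`, `B3_tendsto` and `n2 (mol (ρ n) v) ≤ n2 v` (`B2_L2`, `∫ |ρ| = ∫ ρ = 1`).
Time integral: dominated convergence (`intervalIntegral.tendsto_integral_filter_of_dominated_convergence`): for each `τ` convergence by the above, bound
`C (n2 (w τ) + n2 (G τ)) ≤ C (M_w + M_G)` (`A1_W`, `A2_bdd`), measurability from continuity in `τ` on `Icc 0 T` (`A2_W`, `B2_CL2`).
-/

open MeasureTheory Filter Topology Set
open scoped ContDiff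

namespace H37KB

open H98KB

theorem E4_n2 {r : ℝ} {ρ v : ℝ → ℝ} (hρ : Mol r ρ) (hv : MemLp v 2 volume) :
    MemLp (mol ρ v) 2 volume ∧ n2 (mol ρ v) ≤ n2 v := by
  obtain ⟨h1, h2⟩ := B2_L2 hρ.smooth (B2_cpt hρ) hv
  refine ⟨h1, ?_⟩
  have e : ∫ x, |ρ x| = 1 := by
    rw [← hρ.int]
    exact integral_congr_ae (Eventually.of_forall fun x => abs_of_nonneg (hρ.nonneg x))
  rw [e, one_pow, one_mul] at h2
  exact h2

theorem E4_lim {W v : ℝ → ℝ} {C : ℝ} (hW : Continuous W) (hb : ∀ x, |W x| ≤ C)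
    (hv : MemLp v 2 volume) {ρ : ℕ → ℝ → ℝ} (hρ : ∀ n : ℕ, Mol (1 / ((n : ℝ) + 1)) (ρ n)) :
    Tendsto (fun n => ∫ x, W x * (mol (ρ n) v x) ^ 2) atTop (𝓝 (∫ x, W x * (v x) ^ 2)) := by
  have hC : 0 ≤ C := (abs_nonneg (W 0)).trans (hb 0)
  rw [tendsto_iff_norm_sub_tendsto_zero]
  have h1 : Tendsto (fun n => C * (√(n2 (fun x => mol (ρ n) v x - v x)) * √(2 * n2 v + 2 * n2 v)))
      atTop (𝓝 0) := by
    have h2 := ((Real.continuous_sqrt.tendsto 0).comp (B3_tendsto hv hρ)).mul_const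
      (√(2 * n2 v + 2 * n2 v))
    have h3 := h2.const_mul C
    rw [Real.sqrt_zero, zero_mul, mul_zero] at h3
    exact h3
  refine squeeze_zero (fun n => norm_nonneg _) (fun n => ?_) h1
  obtain ⟨hm, hle⟩ := E4_n2 (hρ n) hv
  rw [Real.norm_eq_abs]
  refine (A1_diff hW hb hm hv).trans ?_
  refine mul_le_mul_of_nonneg_left ?_ hC
  refine mul_le_mul_of_nonneg_left ?_ (Real.sqrt_nonneg _)
  exact Real.sqrt_le_sqrt (by linarith)

theorem E4 {T c : ℝ} {w G : ℝ → ℝ → ℝ} {W : ℝ → ℝ} (hc0 : 0 ≤ c) (hW : Wt c W)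
    (hw : CL2 T w) (hG : CL2 T G) (hl : Lin T w G) (t : ℝ) (ht : t ∈ Icc 0 T) :
    ∫ x, W x * (w t x) ^ 2 ≤ (∫ x, W x * (w 0 x) ^ 2) +
      (3 * c + 1) * ∫ τ in (0:ℝ)..t, ∫ x, W x * ((w τ x) ^ 2 + (G τ x) ^ 2) := by
  obtain ⟨C, hC⟩ := hW.bdd
  have hWc : Continuous W := hW.smooth.continuous
  have hWb : ∀ x, |W x| ≤ C := fun x => by
    rw [abs_of_pos (hW.pos x)]
    exact hC x
  have hC0 : 0 ≤ C := (abs_nonneg (W 0)).trans (hWb 0)
  have h0T : (0:ℝ) ∈ Icc (0:ℝ) T := ⟨le_rfl, ht.1.trans ht.2⟩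
  have hsub : Icc (0:ℝ) t ⊆ Icc 0 T := Icc_subset_Icc_right ht.2
  have hex : ∀ n : ℕ, ∃ ρ, Mol (1 / ((n : ℝ) + 1)) ρ := fun n => B3_exists _ (by positivity)
  choose ρ hρ using hex
  obtain ⟨Mw, hMw0, hMw⟩ := A2_bdd hw
  obtain ⟨MG, hMG0, hMG⟩ := A2_bdd hG
  have km : ∀ n, CL2 T (fun τ => mol (ρ n) (w τ)) := fun n =>
    B2_CL2 hw (hρ n).smooth (B2_cpt (hρ n))
  have kg : ∀ n, CL2 T (fun τ => mol (ρ n) (G τ)) := fun n =>
    B2_CL2 hG (hρ n).smooth (B2_cpt (hρ n))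
  -- splitting of the inner integral
  have split : ∀ (f g : ℝ → ℝ), MemLp f 2 volume → MemLp g 2 volume →
      ∫ x, W x * ((f x) ^ 2 + (g x) ^ 2) = (∫ x, W x * (f x) ^ 2) + ∫ x, W x * (g x) ^ 2 := by
    intro f g hf hg
    rw [← integral_add (A1_W hWc hWb hf).1 (A1_W hWc hWb hg).1]
    refine integral_congr_ae (Eventually.of_forall fun x => ?_)
    simp only
    ring
  have hlim : Tendsto (fun n => ∫ τ in (0:ℝ)..t,
      ∫ x, W x * ((mol (ρ n) (w τ) x) ^ 2 + (mol (ρ n) (G τ) x) ^ 2)) atTop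
      (𝓝 (∫ τ in (0:ℝ)..t, ∫ x, W x * ((w τ x) ^ 2 + (G τ x) ^ 2))) := by
    refine intervalIntegral.tendsto_integral_filter_of_dominated_convergence
      (fun _ => C * (Mw + MG)) ?_ ?_ ?_ ?_
    · refine Eventually.of_forall fun n => ?_
      rw [uIoc_of_le ht.1]
      have c1 : ContinuousOn (fun τ => (∫ x, W x * (mol (ρ n) (w τ) x) ^ 2) +
          ∫ x, W x * (mol (ρ n) (G τ) x) ^ 2) (Icc 0 T) :=
        (A2_W (km n) hWc hWb).add (A2_W (kg n) hWc hWb)
      have c2 : ContinuousOn (fun τ =>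
          ∫ x, W x * ((mol (ρ n) (w τ) x) ^ 2 + (mol (ρ n) (G τ) x) ^ 2)) (Icc 0 T) :=
        c1.congr fun τ hτ => split _ _ ((km n).mem τ hτ) ((kg n).mem τ hτ)
      exact (c2.mono (Ioc_subset_Icc_self.trans hsub)).aestronglyMeasurable measurableSet_Ioc
    · refine Eventually.of_forall fun n => Eventually.of_forall fun τ hτ => ?_
      rw [uIoc_of_le ht.1] at hτ
      have hτT := hsub (Ioc_subset_Icc_self hτ)
      obtain ⟨m1, m2⟩ := E4_n2 (hρ n) (hw.mem τ hτT)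
      obtain ⟨g1, g2⟩ := E4_n2 (hρ n) (hG.mem τ hτT)
      rw [split _ _ m1 g1]
      refine (norm_add_le _ _).trans ?_
      rw [Real.norm_eq_abs, Real.norm_eq_abs, mul_add]
      refine add_le_add ?_ ?_
      · exact (A1_W hWc hWb m1).2.trans (mul_le_mul_of_nonneg_left (m2.trans (hMw τ hτT)) hC0)
      · exact (A1_W hWc hWb g1).2.trans (mul_le_mul_of_nonneg_left (g2.trans (hMG τ hτT)) hC0)
    · exact intervalIntegrable_const
    · refine Eventually.of_forall fun τ hτ => ?_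
      rw [uIoc_of_le ht.1] at hτ
      have hτT := hsub (Ioc_subset_Icc_self hτ)
      rw [split _ _ (hw.mem τ hτT) (hG.mem τ hτT)]
      have e : (fun n => ∫ x, W x * ((mol (ρ n) (w τ) x) ^ 2 + (mol (ρ n) (G τ) x) ^ 2)) =
          fun n => (∫ x, W x * (mol (ρ n) (w τ) x) ^ 2) + ∫ x, W x * (mol (ρ n) (G τ) x) ^ 2 := by
        funext n
        exact split _ _ (E4_n2 (hρ n) (hw.mem τ hτT)).1 (E4_n2 (hρ n) (hG.mem τ hτT)).1
      rw [e]
      exact (E4_lim hWc hWb (hw.mem τ hτT) hρ).add (E4_lim hWc hWb (hG.mem τ hτT) hρ)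
  refine le_of_tendsto_of_tendsto' (E4_lim hWc hWb (hw.mem t ht) hρ)
    ((E4_lim hWc hWb (hw.mem 0 h0T) hρ).add (hlim.const_mul (3 * c + 1))) fun n => ?_
  exact E3 hc0 hW hw hG hl (hρ n).smooth (B2_cpt (hρ n)) t ht

end H37KB

end S_H37_KB_E4

section S_H37_KB_F1

/-!
# Row F1 of MP_95be7d_PDE
-/

open MeasureTheory Filter Topology Set
open scoped ContDiff

namespace H37KB

open H98KB

theorem F1 {T C : ℝ} {y : ℝ → ℝ} (hC : 0 ≤ C) (hy : ContinuousOn y (Icc 0 T))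
    (h : ∀ t ∈ Icc 0 T, y t ≤ y 0 + C * ∫ τ in (0:ℝ)..t, y τ) (t : ℝ) (ht : t ∈ Icc 0 T) :
    y t ≤ y 0 * Real.exp (C * t) := by
  have hT : 0 ≤ T := ht.1.trans ht.2
  set Y : ℝ → ℝ := fun t => ∫ τ in (0:ℝ)..t, y τ with hY
  have hint : IntervalIntegrable y volume 0 T := by
    apply ContinuousOn.intervalIntegrable
    rwa [uIcc_of_le hT]
  have hYc : ContinuousOn Y (Icc 0 T) := by
    have h1 : IntegrableOn y (uIcc 0 T) volume := by
      rw [uIcc_of_le hT]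
      exact hy.integrableOn_Icc
    have h2 := intervalIntegral.continuousOn_primitive_interval h1
    rwa [uIcc_of_le hT] at h2
  have hYd : ∀ s ∈ Ioo 0 T, HasDerivAt Y (y s) s := by
    intro s hs
    apply intervalIntegral.integral_hasDerivAt_right
    · apply hint.mono_set
      rw [uIcc_of_le hT, uIcc_of_le hs.1.le]
      exact Icc_subset_Icc le_rfl hs.2.le
    · exact (hy.mono Ioo_subset_Icc_self).stronglyMeasurableAtFilter isOpen_Ioo s hs
    · exact hy.continuousAt (Icc_mem_nhds hs.1 hs.2)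
  set Z : ℝ → ℝ := fun t => (y 0 + C * Y t) * Real.exp (-(C * t)) with hZ
  have hZc : ContinuousOn Z (Icc 0 T) := by
    apply ContinuousOn.mul
    · exact continuousOn_const.add (continuousOn_const.mul hYc)
    · exact (Real.continuous_exp.comp (continuous_const.mul continuous_id).neg).continuousOn
  have hZd : ∀ s ∈ Ioo 0 T, HasDerivAt Z (C * (y s - (y 0 + C * Y s)) * Real.exp (-(C * s))) s := by
    intro s hs
    have e1 : HasDerivAt (fun t => y 0 + C * Y t) (C * y s) s :=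
      ((hYd s hs).const_mul C).const_add (y 0)
    have e2 : HasDerivAt (fun t : ℝ => Real.exp (-(C * t))) (Real.exp (-(C * s)) * (-(C * 1))) s := by
      have e3 : HasDerivAt (fun t : ℝ => -(C * t)) (-(C * 1)) s :=
        ((hasDerivAt_id s).const_mul C).neg
      exact e3.exp
    have e4 := e1.mul e2
    refine e4.congr_deriv ?_
    ring
  have hanti : AntitoneOn Z (Icc 0 T) := by
    apply antitoneOn_of_deriv_nonpos (convex_Icc 0 T) hZc
    · intro s hs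
      rw [interior_Icc] at hs
      exact (hZd s hs).differentiableAt.differentiableWithinAt
    · intro s hs
      rw [interior_Icc] at hs
      rw [(hZd s hs).deriv]
      have h1 := h s ⟨hs.1.le, hs.2.le⟩
      have h2 : y s - (y 0 + C * Y s) ≤ 0 := by
        have : y s ≤ y 0 + C * Y s := h1
        linarith
      exact mul_nonpos_of_nonpos_of_nonneg (mul_nonpos_of_nonneg_of_nonpos hC h2) (Real.exp_pos _).le
  have h3 : Z t ≤ Z 0 := hanti ⟨le_rfl, hT⟩ ht ht.1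
  have h4 : Z 0 = y 0 := by
    simp [hZ, hY]
  rw [h4] at h3
  have h5 : y t ≤ y 0 + C * Y t := h t ht
  have h6 : y 0 + C * Y t = Z t * Real.exp (C * t) := by
    simp only [hZ]
    rw [mul_assoc, ← Real.exp_add]
    simp
  rw [h6] at h5
  exact h5.trans (mul_le_mul_of_nonneg_right h3 (Real.exp_pos _).le)

theorem F2 {T : ℝ} {D : ℝ → ℝ} (hT : 0 ≤ T) (hD : ContinuousOn D (Icc 0 T)) (h0 : D 0 < 1)
    (h : ∀ s ∈ Icc 0 T, (∀ t ∈ Icc 0 s, D t ≤ 1) → D s < 1) : ∀ t ∈ Icc 0 T, D t < 1 := by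
  by_contra hne
  push_neg at hne
  obtain ⟨t₀, ht₀, hDt₀⟩ := hne
  set S : Set ℝ := Icc 0 T ∩ D ⁻¹' (Ici 1) with hS
  have hSc : IsCompact S := by
    apply IsCompact.of_isClosed_subset isCompact_Icc
    · exact hD.preimage_isClosed_of_isClosed isClosed_Icc isClosed_Ici
    · exact inter_subset_left
  have hSn : S.Nonempty := ⟨t₀, ht₀, hDt₀⟩
  obtain ⟨s, hs, hmin⟩ := hSc.exists_isLeast hSn
  have hsT : s ∈ Icc 0 T := hs.1
  have hs1 : 1 ≤ D s := hs.2
  have hlt : ∀ t ∈ Icc 0 T, t < s → D t < 1 := by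
    intro t ht hts
    by_contra hc
    push_neg at hc
    have := hmin ⟨ht, hc⟩
    linarith
  have hs0 : 0 < s := by
    rcases hsT.1.lt_or_eq with h1 | h1
    · exact h1
    · rw [← h1] at hs1
      linarith
  have hle : D s ≤ 1 := by
    have hc : ContinuousWithinAt D (Ico 0 s) s := by
      apply (hD s hsT).mono
      intro x hx
      exact ⟨hx.1, hx.2.le.trans hsT.2⟩
    have hne : (𝓝[Ico 0 s] s).NeBot := by
      rw [← mem_closure_iff_nhdsWithin_neBot, closure_Ico hs0.ne]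
      exact ⟨hs0.le, le_rfl⟩
    apply le_of_tendsto (f := D) (x := 𝓝[Ico 0 s] s) hc
    filter_upwards [self_mem_nhdsWithin] with x hx
    exact (hlt x ⟨hx.1, hx.2.le.trans hsT.2⟩ hx.2).le
  have := h s hsT (by
    intro t ht
    rcases ht.2.lt_or_eq with h1 | h1
    · exact (hlt t ⟨ht.1, ht.2.trans hsT.2⟩ h1).le
    · rw [h1]; exact hle)
  linarith

theorem F3 {F : ℕ → ℝ → ℝ} {f : ℝ → ℝ} {K : ℝ} (h0 : ∀ n x, 0 ≤ F n x)
    (hi : ∀ n, Integrable (F n)) (hb : ∀ n, ∫ x, F n x ≤ K)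
    (hl : ∀ x, Tendsto (fun n => F n x) atTop (𝓝 (f x))) :
    Integrable f ∧ ∫ x, f x ≤ K := by
  have hf0 : ∀ x, 0 ≤ f x := fun x => ge_of_tendsto' (hl x) (fun n => h0 n x)
  have hfm : AEStronglyMeasurable f volume :=
    aestronglyMeasurable_of_tendsto_ae atTop (fun n => (hi n).aestronglyMeasurable)
      (Eventually.of_forall hl)
  have hK : 0 ≤ K := (integral_nonneg (h0 0)).trans (hb 0)
  have hlim : ∀ x, Tendsto (fun n => ENNReal.ofReal (F n x)) atTop (𝓝 (ENNReal.ofReal (f x))) :=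
    fun x => (ENNReal.continuous_ofReal.tendsto _).comp (hl x)
  have hle : ∫⁻ x, ENNReal.ofReal (f x) ≤ ENNReal.ofReal K := by
    calc ∫⁻ x, ENNReal.ofReal (f x)
        = ∫⁻ x, liminf (fun n => ENNReal.ofReal (F n x)) atTop := by
          apply lintegral_congr
          intro x
          exact (hlim x).liminf_eq.symm
      _ ≤ liminf (fun n => ∫⁻ x, ENNReal.ofReal (F n x)) atTop := by
          apply lintegral_liminf_le'
          intro n
          exact (hi n).aestronglyMeasurable.aemeasurable.ennreal_ofReal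
      _ ≤ ENNReal.ofReal K := by
          apply liminf_le_of_le
          · isBoundedDefault
          intro b hb'
          obtain ⟨n, hn⟩ := hb'.exists
          refine hn.trans ?_
          rw [← ofReal_integral_eq_lintegral_ofReal (hi n) (Eventually.of_forall (h0 n))]
          exact ENNReal.ofReal_le_ofReal (hb n)
  have hfi : Integrable f := by
    refine ⟨hfm, ?_⟩
    rw [hasFiniteIntegral_iff_ofReal (Eventually.of_forall hf0)]
    exact hle.trans_lt ENNReal.ofReal_lt_top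
  refine ⟨hfi, ?_⟩
  have h5 : ENNReal.ofReal (∫ x, f x) ≤ ENNReal.ofReal K := by
    rw [ofReal_integral_eq_lintegral_ofReal hfi (Eventually.of_forall hf0)]
    exact hle
  exact (ENNReal.ofReal_le_ofReal_iff hK).1 h5

end H37KB

end S_H37_KB_F1

section S_H37_KB_H1

/-!
# Row H1 of MP_95be7d_PDE (150 lines)

STABILITY.  `v = u - u'`, `q = p - p'`, `g = fl u - fl u'`, `γ = u^k p - u'^k p'`, `S = 1 + M ≥ |u|,|u'|` (`G1_le`), `y(t) = ∫ W (v² + q²)`.

`E4` for `(v,g)` (`G2_sub`) and `(q,γ)` (`G2_subx`) and adding: `y(t) ≤ y(0) + (3c+1) ∫_0^t ∫ W (v² + g² + q² + γ²)`.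
`g² ≤ S^(2k) v²` (`G0_fl`), `γ² ≤ 2 S^(2k) q² + 2 (k S^(k-1))² v² p'²` (`G0_mul`), `W v² ≤ (c+1) y` pointwise (`C2_W`, `C1_sub`), so
`∫ W v² p'² ≤ (c+1) y n2 p' ≤ (c+1) M y`.  Hence `∫ W (v²+g²+q²+γ²) ≤ C₀ y`, `C₀ = 1 + 3 S^(2k) + 2 (k S^(k-1))² (c+1) M`, and with
`C = (3c+1) C₀`: `y(t) ≤ y(0) + C ∫_0^t y`.  `y` is continuous on `[0,T]` (`A2_W`, `G1_u`, `G1_p`, `A2_sub`), so `F1` gives the claim.
-/

open MeasureTheory Filter Topology Set
open scoped ContDiff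

namespace H37KB

open H98KB

theorem H1_pt {A B W v g q γ r : ℝ} (hA : 0 ≤ A) (hB : 0 ≤ B) (hW : 0 ≤ W)
    (hg : |g| ≤ A * |v|) (hγ : |γ| ≤ A * |q| + B * (|v| * |r|)) :
    W * (v ^ 2 + g ^ 2) ≤ (1 + A ^ 2) * (W * v ^ 2) ∧
      W * (q ^ 2 + γ ^ 2) ≤ (1 + 2 * A ^ 2) * (W * q ^ 2) + 2 * B ^ 2 * ((W * v ^ 2) * r ^ 2) := by
  have h1 : g ^ 2 ≤ A ^ 2 * v ^ 2 := by
    rw [← sq_abs g, ← sq_abs v, ← mul_pow]
    exact pow_le_pow_left₀ (abs_nonneg g) hg 2
  have h2 : γ ^ 2 ≤ 2 * A ^ 2 * q ^ 2 + 2 * B ^ 2 * (v ^ 2 * r ^ 2) := by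
    have h3 : γ ^ 2 ≤ (A * |q| + B * (|v| * |r|)) ^ 2 := by
      rw [← sq_abs γ]
      exact pow_le_pow_left₀ (abs_nonneg γ) hγ 2
    have h4 : (A * |q| + B * (|v| * |r|)) ^ 2 ≤
        2 * (A * |q|) ^ 2 + 2 * (B * (|v| * |r|)) ^ 2 := by
      nlinarith [sq_nonneg (A * |q| - B * (|v| * |r|))]
    have h5 : (A * |q|) ^ 2 = A ^ 2 * q ^ 2 := by rw [mul_pow, sq_abs]
    have h6 : (B * (|v| * |r|)) ^ 2 = B ^ 2 * (v ^ 2 * r ^ 2) := by
      rw [mul_pow, mul_pow, sq_abs, sq_abs]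
    rw [h5, h6] at h4
    linarith
  constructor
  · have := mul_le_mul_of_nonneg_left h1 hW
    nlinarith
  · have := mul_le_mul_of_nonneg_left h2 hW
    nlinarith

theorem H1 (k : ℕ) {c M : ℝ} (hc : 0 ≤ c) (hM : 0 ≤ M) : ∃ C : ℝ, 0 ≤ C ∧
    ∀ (W : ℝ → ℝ), Wt c W → ∀ (φ φ' : ℝ → ℝ) (u p u' p' : ℝ → ℝ → ℝ),
      IsGlobalSol k φ u p → IsGlobalSol k φ' u' p' → ∀ T : ℝ, 0 ≤ T →
      (∀ t ∈ Icc 0 T, nh (u t) (p t) ≤ M) → (∀ t ∈ Icc 0 T, nh (u' t) (p' t) ≤ M) →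
      ∀ t ∈ Icc 0 T, ∫ x, W x * ((u t x - u' t x) ^ 2 + (p t x - p' t x) ^ 2) ≤
        Real.exp (C * T) * ∫ x, W x * ((u 0 x - u' 0 x) ^ 2 + (p 0 x - p' 0 x) ^ 2) := by
  obtain ⟨A, hA⟩ : ∃ A, A = (1 + M) ^ k := ⟨_, rfl⟩
  obtain ⟨B, hB⟩ : ∃ B, B = (k : ℝ) * (1 + M) ^ (k - 1) := ⟨_, rfl⟩
  have hA0 : 0 ≤ A := by rw [hA]; positivity
  have hB0 : 0 ≤ B := by rw [hB]; positivity
  obtain ⟨C0, hC0⟩ : ∃ C0, C0 = (1 + 2 * A ^ 2) + 2 * B ^ 2 * ((c + 1) * M) := ⟨_, rfl⟩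
  have hC00 : 0 ≤ C0 := by rw [hC0]; positivity
  have hC : 0 ≤ (3 * c + 1) * C0 := by positivity
  refine ⟨(3 * c + 1) * C0, hC, ?_⟩
  intro W hW φ φ' u p u' p' h h' T hT hb hb' t ht
  obtain ⟨Cw, hCw⟩ := hW.bdd
  have hWc : Continuous W := hW.smooth.continuous
  have hWb : ∀ x, |W x| ≤ Cw := fun x => by
    rw [abs_of_pos (hW.pos x)]
    exact hCw x
  have cv : CL2 T (fun t x => u t x - u' t x) := A2_sub (G1_u h T) (G1_u h' T)
  have cg : CL2 T (fun t x => fl k (u t x) - fl k (u' t x)) := A2_sub (G1_fl h T) (G1_fl h' T)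
  have cq : CL2 T (fun t x => p t x - p' t x) := A2_sub (G1_p h T) (G1_p h' T)
  have cγ : CL2 T (fun t x => (u t x) ^ k * p t x - (u' t x) ^ k * p' t x) :=
    A2_sub (G1_up h T) (G1_up h' T)
  have iv : ∀ τ ∈ Icc 0 T, Integrable (fun x => W x * (u τ x - u' τ x) ^ 2) := fun τ hτ =>
    (A1_W hWc hWb (cv.mem τ hτ)).1
  have ig : ∀ τ ∈ Icc 0 T, Integrable (fun x => W x * (fl k (u τ x) - fl k (u' τ x)) ^ 2) :=
    fun τ hτ => (A1_W hWc hWb (cg.mem τ hτ)).1
  have iq : ∀ τ ∈ Icc 0 T, Integrable (fun x => W x * (p τ x - p' τ x) ^ 2) := fun τ hτ =>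
    (A1_W hWc hWb (cq.mem τ hτ)).1
  have iγ : ∀ τ ∈ Icc 0 T,
      Integrable (fun x => W x * ((u τ x) ^ k * p τ x - (u' τ x) ^ k * p' τ x) ^ 2) :=
    fun τ hτ => (A1_W hWc hWb (cγ.mem τ hτ)).1
  obtain ⟨y, hyd⟩ : ∃ y : ℝ → ℝ, y = fun t =>
    ∫ x, W x * ((u t x - u' t x) ^ 2 + (p t x - p' t x) ^ 2) := ⟨_, rfl⟩
  have hyd' : ∀ t, y t = ∫ x, W x * ((u t x - u' t x) ^ 2 + (p t x - p' t x) ^ 2) := fun t => by
    rw [hyd]
  have hy0 : ∀ τ, 0 ≤ y τ := fun τ => by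
    rw [hyd']
    exact integral_nonneg fun x => mul_nonneg (hW.pos x).le (by positivity)
  have hy : ∀ τ ∈ Icc 0 T, y τ = (∫ x, W x * (u τ x - u' τ x) ^ 2) +
      ∫ x, W x * (p τ x - p' τ x) ^ 2 := by
    intro τ hτ
    rw [hyd', ← integral_add (iv τ hτ) (iq τ hτ)]
    congr 1
    funext x
    ring
  have hcv := A2_W cv hWc hWb
  have hcg := A2_W cg hWc hWb
  have hcq := A2_W cq hWc hWb
  have hcγ := A2_W cγ hWc hWb
  have hyc : ContinuousOn y (Icc 0 T) := (hcv.add hcq).congr hy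
  -- the spatial integrals
  have hg1 : ∀ τ ∈ Icc 0 T, ∫ x, W x * ((u τ x - u' τ x) ^ 2 + (fl k (u τ x) - fl k (u' τ x)) ^ 2) =
      (∫ x, W x * (u τ x - u' τ x) ^ 2) + ∫ x, W x * (fl k (u τ x) - fl k (u' τ x)) ^ 2 := by
    intro τ hτ
    rw [← integral_add (iv τ hτ) (ig τ hτ)]
    congr 1
    funext x
    ring
  have hg2 : ∀ τ ∈ Icc 0 T,
      ∫ x, W x * ((p τ x - p' τ x) ^ 2 + ((u τ x) ^ k * p τ x - (u' τ x) ^ k * p' τ x) ^ 2) =
      (∫ x, W x * (p τ x - p' τ x) ^ 2) +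
        ∫ x, W x * ((u τ x) ^ k * p τ x - (u' τ x) ^ k * p' τ x) ^ 2 := by
    intro τ hτ
    rw [← integral_add (iq τ hτ) (iγ τ hτ)]
    congr 1
    funext x
    ring
  have hG1c : ContinuousOn (fun τ => ∫ x, W x * ((u τ x - u' τ x) ^ 2 +
      (fl k (u τ x) - fl k (u' τ x)) ^ 2)) (Icc 0 T) := (hcv.add hcg).congr hg1
  have hG2c : ContinuousOn (fun τ => ∫ x, W x * ((p τ x - p' τ x) ^ 2 +
      ((u τ x) ^ k * p τ x - (u' τ x) ^ k * p' τ x) ^ 2)) (Icc 0 T) := (hcq.add hcγ).congr hg2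
  have key : ∀ τ ∈ Icc 0 T,
      (∫ x, W x * ((u τ x - u' τ x) ^ 2 + (fl k (u τ x) - fl k (u' τ x)) ^ 2)) +
      (∫ x, W x * ((p τ x - p' τ x) ^ 2 + ((u τ x) ^ k * p τ x - (u' τ x) ^ k * p' τ x) ^ 2)) ≤
      C0 * y τ := by
    intro τ hτ
    have hu : ∀ x, |u τ x| ≤ 1 + M := G1_le h hτ.1 hM (hb τ hτ)
    have hu' : ∀ x, |u' τ x| ≤ 1 + M := G1_le h' hτ.1 hM (hb' τ hτ)
    have hH := C1_sub (h.h1 τ hτ.1) (h'.h1 τ hτ.1)
    have hsup : ∀ x, W x * (u τ x - u' τ x) ^ 2 ≤ (c + 1) * y τ := by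
      intro x
      rw [hyd']
      exact C2_W hc hW hH x
    have hpt := fun x => H1_pt (W := W x) (v := u τ x - u' τ x) (g := fl k (u τ x) - fl k (u' τ x))
      (q := p τ x - p' τ x) (γ := (u τ x) ^ k * p τ x - (u' τ x) ^ k * p' τ x) (r := p' τ x)
      hA0 hB0 (hW.pos x).le (by rw [hA]; exact G0_fl k (hu x) (hu' x))
      (by rw [hA, hB]; exact G0_mul k (hu x) (hu' x))
    have ip : Integrable (fun x => (p' τ x) ^ 2) := A1_sq (h'.h1 τ hτ.1).2.1
    have hn : n2 (p' τ) ≤ M := by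
      have h1 := hb' τ hτ
      have h2 := A1_nonneg (u' τ)
      unfold nh at h1
      linarith
    have b1 : (∫ x, W x * ((u τ x - u' τ x) ^ 2 + (fl k (u τ x) - fl k (u' τ x)) ^ 2)) ≤
        (1 + A ^ 2) * ∫ x, W x * (u τ x - u' τ x) ^ 2 := by
      rw [← integral_const_mul]
      refine integral_mono ?_ ((iv τ hτ).const_mul _) fun x => (hpt x).1
      refine ((iv τ hτ).add (ig τ hτ)).congr (Eventually.of_forall fun x => ?_)
      simp only [Pi.add_apply]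
      ring
    have b2 : (∫ x, W x * ((p τ x - p' τ x) ^ 2 +
        ((u τ x) ^ k * p τ x - (u' τ x) ^ k * p' τ x) ^ 2)) ≤
        (1 + 2 * A ^ 2) * (∫ x, W x * (p τ x - p' τ x) ^ 2) +
          2 * B ^ 2 * (((c + 1) * y τ) * n2 (p' τ)) := by
      have e : (1 + 2 * A ^ 2) * (∫ x, W x * (p τ x - p' τ x) ^ 2) +
          2 * B ^ 2 * (((c + 1) * y τ) * n2 (p' τ)) =
          ∫ x, ((1 + 2 * A ^ 2) * (W x * (p τ x - p' τ x) ^ 2) +
            2 * B ^ 2 * (((c + 1) * y τ) * (p' τ x) ^ 2)) := by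
        rw [integral_add ((iq τ hτ).const_mul _) ((ip.const_mul _).const_mul _),
          integral_const_mul, integral_const_mul, integral_const_mul]
        rfl
      rw [e]
      refine integral_mono ?_ (((iq τ hτ).const_mul _).add ((ip.const_mul _).const_mul _))
        fun x => ?_
      · refine ((iq τ hτ).add (iγ τ hτ)).congr (Eventually.of_forall fun x => ?_)
        simp only [Pi.add_apply]
        ring
      · refine (hpt x).2.trans ?_
        have h1 := mul_le_mul_of_nonneg_right (hsup x) (sq_nonneg (p' τ x))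
        have h2 : 0 ≤ 2 * B ^ 2 := by positivity
        have h3 := mul_le_mul_of_nonneg_left h1 h2
        linarith
    have hv0 : 0 ≤ ∫ x, W x * (u τ x - u' τ x) ^ 2 :=
      integral_nonneg fun x => mul_nonneg (hW.pos x).le (sq_nonneg _)
    have b3 : 2 * B ^ 2 * (((c + 1) * y τ) * n2 (p' τ)) ≤ 2 * B ^ 2 * (((c + 1) * y τ) * M) := by
      have h2 : 0 ≤ 2 * B ^ 2 := by positivity
      exact mul_le_mul_of_nonneg_left (mul_le_mul_of_nonneg_left hn
        (mul_nonneg (by linarith) (hy0 τ))) h2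
    have b4 : (1 + A ^ 2) * (∫ x, W x * (u τ x - u' τ x) ^ 2) ≤
        (1 + 2 * A ^ 2) * ∫ x, W x * (u τ x - u' τ x) ^ 2 := by
      refine mul_le_mul_of_nonneg_right ?_ hv0
      nlinarith [sq_nonneg A]
    have e5 : C0 * y τ = (1 + 2 * A ^ 2) * ((∫ x, W x * (u τ x - u' τ x) ^ 2) +
      ∫ x, W x * (p τ x - p' τ x) ^ 2) + 2 * B ^ 2 * (((c + 1) * y τ) * M) := by
      rw [← hy τ hτ, hC0]
      ring
    rw [e5]
    linarith
  have hmain : ∀ t ∈ Icc 0 T, y t ≤ y 0 + ((3 * c + 1) * C0) * ∫ τ in (0:ℝ)..t, y τ := by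
    intro t ht
    have h0T : (0:ℝ) ∈ Icc 0 T := ⟨le_rfl, hT⟩
    have e1 := E4 hc hW cv cg (G2_sub h h' T) t ht
    have e2 := E4 hc hW cq cγ (G2_subx h h' T) t ht
    have hsub : uIcc 0 t ⊆ Icc 0 T := by
      rw [uIcc_of_le ht.1]
      exact Icc_subset_Icc le_rfl ht.2
    have i1 : IntervalIntegrable (fun τ => ∫ x, W x * ((u τ x - u' τ x) ^ 2 +
      (fl k (u τ x) - fl k (u' τ x)) ^ 2)) volume 0 t := (hG1c.mono hsub).intervalIntegrable
    have i2 : IntervalIntegrable (fun τ => ∫ x, W x * ((p τ x - p' τ x) ^ 2 +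
      ((u τ x) ^ k * p τ x - (u' τ x) ^ k * p' τ x) ^ 2)) volume 0 t :=
      (hG2c.mono hsub).intervalIntegrable
    have i3 : IntervalIntegrable y volume 0 t := (hyc.mono hsub).intervalIntegrable
    have e3 : (∫ τ in (0:ℝ)..t, ∫ x, W x * ((u τ x - u' τ x) ^ 2 +
        (fl k (u τ x) - fl k (u' τ x)) ^ 2)) +
        (∫ τ in (0:ℝ)..t, ∫ x, W x * ((p τ x - p' τ x) ^ 2 +
        ((u τ x) ^ k * p τ x - (u' τ x) ^ k * p' τ x) ^ 2)) ≤ C0 * ∫ τ in (0:ℝ)..t, y τ := by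
      rw [← intervalIntegral.integral_add i1 i2, ← intervalIntegral.integral_const_mul]
      exact intervalIntegral.integral_mono_on ht.1 (i1.add i2) (i3.const_mul _)
        fun τ hτ => key τ ⟨hτ.1, hτ.2.trans ht.2⟩
    have e4 := mul_le_mul_of_nonneg_left e3 (show (0:ℝ) ≤ 3 * c + 1 by linarith)
    rw [hy t ht, hy 0 h0T]
    calc (∫ x, W x * (u t x - u' t x) ^ 2) + ∫ x, W x * (p t x - p' t x) ^ 2
        ≤ ((∫ x, W x * (u 0 x - u' 0 x) ^ 2) + ∫ x, W x * (p 0 x - p' 0 x) ^ 2) +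
          (3 * c + 1) * ((∫ τ in (0:ℝ)..t, ∫ x, W x * ((u τ x - u' τ x) ^ 2 +
            (fl k (u τ x) - fl k (u' τ x)) ^ 2)) +
            (∫ τ in (0:ℝ)..t, ∫ x, W x * ((p τ x - p' τ x) ^ 2 +
            ((u τ x) ^ k * p τ x - (u' τ x) ^ k * p' τ x) ^ 2))) := by
          rw [mul_add]
          linarith
      _ ≤ _ := by
          rw [mul_assoc]
          linarith
  have hF := F1 hC hyc hmain t ht
  rw [← hyd', ← hyd']
  calc y t ≤ y 0 * Real.exp ((3 * c + 1) * C0 * t) := hF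
    _ ≤ y 0 * Real.exp ((3 * c + 1) * C0 * T) :=
        mul_le_mul_of_nonneg_left (Real.exp_le_exp.2 (mul_le_mul_of_nonneg_left ht.2 hC)) (hy0 0)
    _ = Real.exp ((3 * c + 1) * C0 * T) * y 0 := mul_comm _ _

end H37KB

end S_H37_KB_H1

section S_H37_KB_D2

/-!
# Row D2 of MP_95be7d_PDE (90 lines)

The weight `wt α = e^{αx} + e^{-x/8}` and its approximation by admissible weights.

* `D2_approx`: `W n x = (e^{-αx} + (1/(n+1)) e^{x/4})⁻¹ + ((1/(n+1)) e^{-x} + e^{x/8})⁻¹`; `D1_exp` with `(A,B,a,b) = (1,1/(n+1),α,1/4)` and `(1/(n+1),1,1,1/8)`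
  (`13·2³ ≤ 13(α+1)³`, `D1_mono`), `D1_add`.  The first summand is `≤ e^{αx}` and tends to it, the second is `≤ e^{-x/8}` and tends to it.
* `D2_one`: one of the two exponents is `≥ 0`.
* `D2_slow`: `e^{αx} ≤ e^{α} e^{αz}` and `e^{-x/8} ≤ e^{1/8} e^{-z/8}`.
* `D2_bd`: `bd p q x = e^{-p max(x,0) - q max(-x,0)}`: for `x ≥ 0` `bd (α/2) (1/16) x ^ 2 = e^{-αx}`, for `x ≤ 0` it is `e^{x/8}`.
-/

open MeasureTheory Filter Topology Set
open scoped ContDiff

namespace H37KB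

open H98KB

theorem D2_approx (α : ℝ) (hα : 1 ≤ α) : ∃ W : ℕ → ℝ → ℝ,
    (∀ n, Wt (13 * (α + 1) ^ 3) (W n)) ∧ (∀ n x, W n x ≤ wt α x) ∧
      ∀ x, Tendsto (fun n => W n x) atTop (𝓝 (wt α x)) := by
  have hα0 : 0 < α := by linarith
  have hε : ∀ n : ℕ, (0 : ℝ) < 1 / ((n : ℝ) + 1) := fun n => by positivity
  have e1 : ∀ x : ℝ, (1 * Real.exp (-(α * x)))⁻¹ = Real.exp (α * x) := fun x => by
    rw [one_mul, Real.exp_neg, inv_inv]
  have e2 : ∀ x : ℝ, (1 * Real.exp (1 / 8 * x))⁻¹ = Real.exp (-x / 8) := fun x => by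
    rw [one_mul, ← Real.exp_neg]
    congr 1
    ring
  refine ⟨fun n x => (1 * Real.exp (-(α * x)) + 1 / ((n : ℝ) + 1) * Real.exp (1 / 4 * x))⁻¹ +
    (1 / ((n : ℝ) + 1) * Real.exp (-(1 * x)) + 1 * Real.exp (1 / 8 * x))⁻¹, ?_, ?_, ?_⟩
  · intro n
    refine D1_add (D1_exp one_pos (hε n) hα0 (by norm_num) le_rfl) ?_
    refine D1_mono (D1_exp (hε n) one_pos one_pos (by norm_num) (by norm_num)) ?_
    have : (1 + 1 : ℝ) ^ 3 ≤ (α + 1) ^ 3 := pow_le_pow_left₀ (by norm_num) (by linarith) 3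
    linarith
  · intro n x
    refine add_le_add ?_ ?_
    · rw [← e1 x]
      refine inv_anti₀ (by positivity) ?_
      have := mul_pos (hε n) (Real.exp_pos (1 / 4 * x))
      linarith
    · rw [← e2 x]
      refine inv_anti₀ (by positivity) ?_
      have := mul_pos (hε n) (Real.exp_pos (-(1 * x)))
      linarith
  · intro x
    have ht : Tendsto (fun n : ℕ => 1 / ((n : ℝ) + 1)) atTop (𝓝 0) :=
      tendsto_one_div_add_atTop_nhds_zero_nat
    have t1 : Tendsto (fun n : ℕ => (1 * Real.exp (-(α * x)) +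
        1 / ((n : ℝ) + 1) * Real.exp (1 / 4 * x))⁻¹) atTop (𝓝 (Real.exp (α * x))) := by
      rw [← e1 x]
      refine Tendsto.inv₀ ?_ (by positivity)
      have h := (ht.mul_const (Real.exp (1 / 4 * x))).const_add (1 * Real.exp (-(α * x)))
      rwa [zero_mul, add_zero] at h
    have t2 : Tendsto (fun n : ℕ => (1 / ((n : ℝ) + 1) * Real.exp (-(1 * x)) +
        1 * Real.exp (1 / 8 * x))⁻¹) atTop (𝓝 (Real.exp (-x / 8))) := by
      rw [← e2 x]
      refine Tendsto.inv₀ ?_ (by positivity)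
      have h := (ht.mul_const (Real.exp (-(1 * x)))).add_const (1 * Real.exp (1 / 8 * x))
      rwa [zero_mul, zero_add] at h
    exact t1.add t2

theorem D2_cont (α : ℝ) : Continuous (wt α) := by
  unfold wt
  fun_prop

theorem D2_pos (α x : ℝ) : 0 < wt α x := by
  unfold wt
  positivity

theorem D2_one {α : ℝ} (hα : 1 ≤ α) (x : ℝ) : 1 ≤ wt α x := by
  unfold wt
  rcases le_total 0 x with h | h
  · have h1 : 1 ≤ Real.exp (α * x) := Real.one_le_exp (by positivity)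
    have h2 := Real.exp_pos (-x / 8)
    linarith
  · have h1 : 1 ≤ Real.exp (-x / 8) := Real.one_le_exp (by linarith)
    have h2 := Real.exp_pos (α * x)
    linarith

theorem D2_slow {α : ℝ} (hα : 1 ≤ α) (x z : ℝ) (h : |x - z| ≤ 1) :
    wt α x ≤ Real.exp α * wt α z := by
  unfold wt
  obtain ⟨h1, h2⟩ := abs_le.1 h
  rw [mul_add, ← Real.exp_add, ← Real.exp_add]
  refine add_le_add (Real.exp_le_exp.2 ?_) (Real.exp_le_exp.2 (by linarith))
  nlinarith

theorem D2_bd {α : ℝ} (hα : 1 ≤ α) (x : ℝ) : 1 ≤ (bd (α / 2) (1 / 16) x) ^ 2 * wt α x ∧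
    0 < bd (α / 2) (1 / 16) x ∧ bd (α / 2) (1 / 16) x ≤ 1 := by
  refine ⟨?_, Real.exp_pos _, ?_⟩
  · unfold bd wt
    rcases le_total 0 x with h | h
    · rw [max_eq_left h, max_eq_right (by linarith : -x ≤ 0), pow_two, ← Real.exp_add, mul_add,
        ← Real.exp_add]
      have e : -(α / 2 * x) - 1 / 16 * 0 + (-(α / 2 * x) - 1 / 16 * 0) + α * x = 0 := by ring
      rw [e, Real.exp_zero]
      have := mul_pos (Real.exp_pos (-(α / 2 * x) - 1 / 16 * 0 + (-(α / 2 * x) - 1 / 16 * 0)))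
        (Real.exp_pos (-x / 8))
      linarith
    · rw [max_eq_right h, max_eq_left (by linarith : 0 ≤ -x), pow_two, ← Real.exp_add, mul_add,
        ← Real.exp_add, ← Real.exp_add]
      have e : -(α / 2 * 0) - 1 / 16 * -x + (-(α / 2 * 0) - 1 / 16 * -x) + -x / 8 = 0 := by ring
      rw [e, Real.exp_zero]
      have := Real.exp_pos (-(α / 2 * 0) - 1 / 16 * -x + (-(α / 2 * 0) - 1 / 16 * -x) + α * x)
      linarith
  · unfold bd
    rw [Real.exp_le_one_iff]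
    have h1 : 0 ≤ max x 0 := le_max_right _ _
    have h2 : 0 ≤ max (-x) 0 := le_max_right _ _
    have h3 : 0 ≤ α / 2 * max x 0 := mul_nonneg (by linarith) h1
    linarith

end H37KB

end S_H37_KB_D2

section S_H37_KB_I1

/-!
# Row I1 of MP_95be7d_PDE (130 lines)

The data `dat k l₀ a x = l₀^(-2/k) (Q(x/l₀) + a n(x/l₀))` (`Qf k`, `nf k` are in `Cl (1/2) (1/2)`: smooth with all derivatives `≤ C e^{-|y|/2}`; hypotheses here,
proved elsewhere).  `iteratedDeriv j (x ↦ f(x/l₀)) = l₀^(-j) (iteratedDeriv j f)(x/l₀)` (`iteratedDeriv_comp_const_mul` or similar) and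
`e^{-|x|/(2 l₀)} ≤ e^{-4α|x|}` since `8 α l₀ ≤ 1`; `bd p p x = e^{-p|x|}`.
`dat a - dat a' = l₀^(-2/k) (a-a') n(x/l₀)`.
`I1_int`: `0 ≤ W ≤ wt α`, `wt α x ≤ 2 e^{α|x|}`: `W (dat² + dat'²) ≤ C e^{α|x|} e^{-8α|x|} ≤ C e^{-|x|}`, integrable; the same for differences with the factor `(a-a')²`.
-/

open MeasureTheory Filter Topology Set
open scoped ContDiff

namespace H37KB

open H98KB

private theorem I1_iter {k : ℕ} {l₀ : ℝ} (hQ : Cl (1 / 2) (1 / 2) (Qf k))
    (hn : Cl (1 / 2) (1 / 2) (nf k)) (a : ℝ) (j : ℕ) (x : ℝ) :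
    iteratedDeriv j (dat k l₀ a) x = l₀ ^ (-(2 / (k : ℝ))) * (l₀⁻¹) ^ j *
      (iteratedDeriv j (Qf k) (x / l₀) + a * iteratedDeriv j (nf k) (x / l₀)) := by
  have hs : ∀ f : ℝ → ℝ, ContDiff ℝ ∞ f → ∀ y, iteratedDeriv j (fun x => f (x / l₀)) y =
      (l₀⁻¹) ^ j * iteratedDeriv j f (y / l₀) := by
    intro f hf y
    have h1 := iteratedDeriv_comp_const_mul (n := j) (f := f)
      (hf.of_le (by exact_mod_cast le_top)) (l₀⁻¹)
    have h2 := congrFun h1 y
    have h3 : (fun x => f (l₀⁻¹ * x)) = fun x => f (x / l₀) := by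
      funext z; rw [div_eq_inv_mul]
    rw [h3] at h2
    rw [h2, div_eq_inv_mul]
  have hc : ∀ f : ℝ → ℝ, ContDiff ℝ ∞ f → ContDiff ℝ ∞ (fun x => f (x / l₀)) := by
    intro f hf
    exact hf.comp (contDiff_id.div_const l₀)
  have hdat : dat k l₀ a = fun x => l₀ ^ (-(2 / (k : ℝ))) *
      (Qf k (x / l₀) + a * nf k (x / l₀)) := rfl
  have hQc := hc _ hQ.1
  have hnc := hc _ hn.1
  have hQj : ContDiffAt ℝ j (fun x => Qf k (x / l₀)) x :=
    (hQc.of_le (by exact_mod_cast le_top)).contDiffAt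
  have hnj : ContDiffAt ℝ j (fun x => a * nf k (x / l₀)) x :=
    ((contDiff_const.mul hnc).of_le (by exact_mod_cast le_top)).contDiffAt
  rw [hdat, iteratedDeriv_const_mul_field]
  have hadd : iteratedDeriv j (fun x => Qf k (x / l₀) + a * nf k (x / l₀)) x =
      iteratedDeriv j (fun x => Qf k (x / l₀)) x +
        iteratedDeriv j (fun x => a * nf k (x / l₀)) x :=
    iteratedDeriv_add hQj hnj
  rw [hadd, iteratedDeriv_const_mul_field, hs _ hQ.1, hs _ hn.1]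
  ring

private theorem I1_bdle {l₀ α : ℝ} (hl : 0 < l₀) (hαl : 8 * α * l₀ ≤ 1) (x : ℝ) :
    bd (1 / 2) (1 / 2) (x / l₀) ≤ bd (4 * α) (4 * α) x := by
  have key : ∀ p y : ℝ, bd p p y = Real.exp (-(p * |y|)) := by
    intro p y
    unfold bd
    congr 1
    rcases le_total 0 y with h | h
    · rw [max_eq_left h, max_eq_right (by linarith), abs_of_nonneg h]; ring
    · rw [max_eq_right h, max_eq_left (by linarith), abs_of_nonpos h]; ring
  rw [key, key]
  apply Real.exp_le_exp.mpr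
  rw [abs_div, abs_of_pos hl]
  have h1 : 4 * α * |x| ≤ 1 / 2 * (|x| / l₀) := by
    rw [← mul_div_assoc, le_div_iff₀ hl]
    nlinarith [abs_nonneg x]
  linarith

theorem I1_smooth {k : ℕ} {l₀ : ℝ} (hQ : Cl (1 / 2) (1 / 2) (Qf k)) (hn : Cl (1 / 2) (1 / 2) (nf k))
    (a : ℝ) : ContDiff ℝ ∞ (dat k l₀ a) := by
  have hc : ∀ f : ℝ → ℝ, ContDiff ℝ ∞ f → ContDiff ℝ ∞ (fun x => f (x / l₀)) := by
    intro f hf
    exact hf.comp (contDiff_id.div_const l₀)
  exact contDiff_const.mul ((hc _ hQ.1).add (contDiff_const.mul (hc _ hn.1)))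

theorem I1_bd {k : ℕ} {l₀ α : ℝ} (hl : 0 < l₀) (hα : 1 ≤ α) (hαl : 8 * α * l₀ ≤ 1)
    (hQ : Cl (1 / 2) (1 / 2) (Qf k)) (hn : Cl (1 / 2) (1 / 2) (nf k)) (j : ℕ) :
    ∃ C : ℝ, 0 ≤ C ∧ ∀ a ∈ Icc (-1 : ℝ) 1, ∀ a' ∈ Icc (-1 : ℝ) 1, ∀ x,
      |iteratedDeriv j (dat k l₀ a) x| ≤ C * bd (4 * α) (4 * α) x ∧
      |iteratedDeriv j (dat k l₀ a) x - iteratedDeriv j (dat k l₀ a') x| ≤
        C * |a - a'| * bd (4 * α) (4 * α) x := by
  obtain ⟨C₁, h₁⟩ := hQ.2 j
  obtain ⟨C₂, h₂⟩ := hn.2 j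
  set A : ℝ := |l₀ ^ (-(2 / (k : ℝ))) * (l₀⁻¹) ^ j| with hA
  have hA0 : 0 ≤ A := abs_nonneg _
  have hB0 : ∀ x, 0 ≤ bd (4 * α) (4 * α) x := fun x => (Real.exp_pos _).le
  have hQb : ∀ x, |iteratedDeriv j (Qf k) (x / l₀)| ≤ |C₁| * bd (4 * α) (4 * α) x := by
    intro x
    calc |iteratedDeriv j (Qf k) (x / l₀)| ≤ C₁ * bd (1 / 2) (1 / 2) (x / l₀) := h₁ _
      _ ≤ |C₁| * bd (1 / 2) (1 / 2) (x / l₀) :=
        mul_le_mul_of_nonneg_right (le_abs_self _) (Real.exp_pos _).le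
      _ ≤ |C₁| * bd (4 * α) (4 * α) x :=
        mul_le_mul_of_nonneg_left (I1_bdle hl hαl x) (abs_nonneg _)
  have hnb : ∀ x, |iteratedDeriv j (nf k) (x / l₀)| ≤ |C₂| * bd (4 * α) (4 * α) x := by
    intro x
    calc |iteratedDeriv j (nf k) (x / l₀)| ≤ C₂ * bd (1 / 2) (1 / 2) (x / l₀) := h₂ _
      _ ≤ |C₂| * bd (1 / 2) (1 / 2) (x / l₀) :=
        mul_le_mul_of_nonneg_right (le_abs_self _) (Real.exp_pos _).le
      _ ≤ |C₂| * bd (4 * α) (4 * α) x :=
        mul_le_mul_of_nonneg_left (I1_bdle hl hαl x) (abs_nonneg _)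
  refine ⟨A * (|C₁| + |C₂|), by positivity, ?_⟩
  intro a ha a' _ x
  have haa : |a| ≤ 1 := abs_le.mpr ha
  constructor
  · rw [I1_iter hQ hn, abs_mul, ← hA, mul_assoc]
    apply mul_le_mul_of_nonneg_left _ hA0
    calc |iteratedDeriv j (Qf k) (x / l₀) + a * iteratedDeriv j (nf k) (x / l₀)|
        ≤ |iteratedDeriv j (Qf k) (x / l₀)| + |a * iteratedDeriv j (nf k) (x / l₀)| :=
          abs_add_le _ _
      _ ≤ |C₁| * bd (4 * α) (4 * α) x + |C₂| * bd (4 * α) (4 * α) x := by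
          apply add_le_add (hQb x)
          rw [abs_mul]
          calc |a| * |iteratedDeriv j (nf k) (x / l₀)|
              ≤ 1 * |iteratedDeriv j (nf k) (x / l₀)| :=
                mul_le_mul_of_nonneg_right haa (abs_nonneg _)
            _ ≤ _ := by rw [one_mul]; exact hnb x
      _ = _ := by ring
  · have hsub : iteratedDeriv j (dat k l₀ a) x - iteratedDeriv j (dat k l₀ a') x =
        (l₀ ^ (-(2 / (k : ℝ))) * (l₀⁻¹) ^ j) *
          ((a - a') * iteratedDeriv j (nf k) (x / l₀)) := by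
      rw [I1_iter hQ hn, I1_iter hQ hn]; ring
    rw [hsub, abs_mul, ← hA, abs_mul]
    have h3 : |a - a'| * |iteratedDeriv j (nf k) (x / l₀)| ≤
        |a - a'| * ((|C₁| + |C₂|) * bd (4 * α) (4 * α) x) := by
      apply mul_le_mul_of_nonneg_left _ (abs_nonneg _)
      refine (hnb x).trans ?_
      apply mul_le_mul_of_nonneg_right _ (hB0 x)
      linarith [abs_nonneg C₁]
    calc A * (|a - a'| * |iteratedDeriv j (nf k) (x / l₀)|)
        ≤ A * (|a - a'| * ((|C₁| + |C₂|) * bd (4 * α) (4 * α) x)) :=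
          mul_le_mul_of_nonneg_left h3 hA0
      _ = _ := by ring

private theorem I1_expint : Integrable (fun x : ℝ => Real.exp (-|x|)) := by
  rw [← integrableOn_univ, ← Iic_union_Ioi (a := (0 : ℝ)), integrableOn_union]
  constructor
  · refine (integrableOn_exp_Iic 0).congr_fun ?_ measurableSet_Iic
    intro x hx
    have hx' : x ≤ 0 := hx
    simp only [abs_of_nonpos hx', neg_neg]
  · refine (integrableOn_exp_neg_Ioi 0).congr_fun ?_ measurableSet_Ioi
    intro x hx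
    have hx' : 0 < x := hx
    simp only [abs_of_pos hx']

theorem I1_int {k : ℕ} {l₀ α : ℝ} (hl : 0 < l₀) (hα : 1 ≤ α) (hαl : 8 * α * l₀ ≤ 1)
    (hQ : Cl (1 / 2) (1 / 2) (Qf k)) (hn : Cl (1 / 2) (1 / 2) (nf k)) :
    ∃ C : ℝ, 0 ≤ C ∧ ∀ W : ℝ → ℝ, Continuous W → (∀ x, 0 ≤ W x) → (∀ x, W x ≤ wt α x) →
      ∀ a ∈ Icc (-1 : ℝ) 1, ∀ a' ∈ Icc (-1 : ℝ) 1,
      Integrable (fun x => W x * ((dat k l₀ a x) ^ 2 + (deriv (dat k l₀ a) x) ^ 2)) ∧
      ∫ x, W x * ((dat k l₀ a x) ^ 2 + (deriv (dat k l₀ a) x) ^ 2) ≤ C ∧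
      ∫ x, W x * ((dat k l₀ a x - dat k l₀ a' x) ^ 2
        + (deriv (dat k l₀ a) x - deriv (dat k l₀ a') x) ^ 2) ≤ C * |a - a'| ^ 2 := by
  obtain ⟨C0, hC0, h0⟩ := I1_bd hl hα hαl hQ hn 0
  obtain ⟨C1, hC1, h1⟩ := I1_bd hl hα hαl hQ hn 1
  simp only [iteratedDeriv_zero] at h0
  simp only [iteratedDeriv_one] at h1
  have hI0 : 0 ≤ ∫ x : ℝ, Real.exp (-|x|) := integral_nonneg fun x => (Real.exp_pos _).le
  have hwB : ∀ x, wt α x * (bd (4 * α) (4 * α) x) ^ 2 ≤ 2 * Real.exp (-|x|) := by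
    intro x
    have hb : bd (4 * α) (4 * α) x = Real.exp (-(4 * α * |x|)) := by
      unfold bd
      congr 1
      rcases le_total 0 x with h | h
      · rw [max_eq_left h, max_eq_right (by linarith), abs_of_nonneg h]; ring
      · rw [max_eq_right h, max_eq_left (by linarith), abs_of_nonpos h]; ring
    rw [hb, ← Real.exp_nat_mul]
    unfold wt
    rw [add_mul, ← Real.exp_add, ← Real.exp_add]
    have hx1 := le_abs_self x
    have hx2 := neg_abs_le x
    have hx0 := abs_nonneg x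
    have e1 : Real.exp (α * x + ((2 : ℕ) : ℝ) * -(4 * α * |x|)) ≤ Real.exp (-|x|) := by
      apply Real.exp_le_exp.mpr
      push_cast
      nlinarith [mul_le_mul_of_nonneg_left hx1 (by linarith : (0 : ℝ) ≤ α),
        mul_le_mul_of_nonneg_right hα hx0]
    have e2 : Real.exp (-x / 8 + ((2 : ℕ) : ℝ) * -(4 * α * |x|)) ≤ Real.exp (-|x|) := by
      apply Real.exp_le_exp.mpr
      push_cast
      nlinarith [mul_le_mul_of_nonneg_right hα hx0]
    exact (add_le_add e1 e2).trans (by rw [two_mul])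
  -- the general estimate
  have gen : ∀ W : ℝ → ℝ, Continuous W → (∀ x, 0 ≤ W x) → (∀ x, W x ≤ wt α x) →
      ∀ (f g : ℝ → ℝ) (s : ℝ), 0 ≤ s → Continuous f → Continuous g →
      (∀ x, |f x| ≤ C0 * s * bd (4 * α) (4 * α) x) → (∀ x, |g x| ≤ C1 * s * bd (4 * α) (4 * α) x) →
      Integrable (fun x => W x * ((f x) ^ 2 + (g x) ^ 2)) ∧
      ∫ x, W x * ((f x) ^ 2 + (g x) ^ 2) ≤
        2 * (C0 ^ 2 + C1 ^ 2) * (∫ x : ℝ, Real.exp (-|x|)) * s ^ 2 := by
    intro W hW hW0 hWw f g s hs hf hg hfb hgb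
    have hB0 : ∀ x, 0 ≤ bd (4 * α) (4 * α) x := fun x => (Real.exp_pos _).le
    have hpt : ∀ x, W x * ((f x) ^ 2 + (g x) ^ 2) ≤
        2 * (C0 ^ 2 + C1 ^ 2) * s ^ 2 * Real.exp (-|x|) := by
      intro x
      have hf2 : (f x) ^ 2 ≤ (C0 * s * bd (4 * α) (4 * α) x) ^ 2 := by
        rw [← sq_abs (f x)]
        exact pow_le_pow_left₀ (abs_nonneg _) (hfb x) 2
      have hg2 : (g x) ^ 2 ≤ (C1 * s * bd (4 * α) (4 * α) x) ^ 2 := by
        rw [← sq_abs (g x)]
        exact pow_le_pow_left₀ (abs_nonneg _) (hgb x) 2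
      calc W x * ((f x) ^ 2 + (g x) ^ 2)
          ≤ wt α x * ((f x) ^ 2 + (g x) ^ 2) :=
            mul_le_mul_of_nonneg_right (hWw x) (by positivity)
        _ ≤ wt α x * ((C0 * s * bd (4 * α) (4 * α) x) ^ 2 +
            (C1 * s * bd (4 * α) (4 * α) x) ^ 2) :=
            mul_le_mul_of_nonneg_left (add_le_add hf2 hg2)
              ((hW0 x).trans (hWw x))
        _ = (C0 ^ 2 + C1 ^ 2) * s ^ 2 * (wt α x * (bd (4 * α) (4 * α) x) ^ 2) := by ring
        _ ≤ (C0 ^ 2 + C1 ^ 2) * s ^ 2 * (2 * Real.exp (-|x|)) :=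
            mul_le_mul_of_nonneg_left (hwB x) (by positivity)
        _ = _ := by ring
    have hint : Integrable (fun x => W x * ((f x) ^ 2 + (g x) ^ 2)) := by
      refine (I1_expint.const_mul (2 * (C0 ^ 2 + C1 ^ 2) * s ^ 2)).mono'
        (hW.mul ((hf.pow 2).add (hg.pow 2))).aestronglyMeasurable ?_
      filter_upwards with x
      rw [Real.norm_of_nonneg (mul_nonneg (hW0 x) (by positivity))]
      exact hpt x
    refine ⟨hint, ?_⟩
    calc ∫ x, W x * ((f x) ^ 2 + (g x) ^ 2)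
        ≤ ∫ x : ℝ, 2 * (C0 ^ 2 + C1 ^ 2) * s ^ 2 * Real.exp (-|x|) :=
          integral_mono hint (I1_expint.const_mul _) hpt
      _ = _ := by rw [integral_const_mul]; ring
  refine ⟨2 * (C0 ^ 2 + C1 ^ 2) * ∫ x : ℝ, Real.exp (-|x|), by positivity, ?_⟩
  intro W hW hW0 hWw a ha a' ha'
  have hsm := fun b => I1_smooth (l₀ := l₀) hQ hn b
  have hcd : ∀ b, Continuous (dat k l₀ b) := fun b => (hsm b).continuous
  have hcd' : ∀ b, Continuous (deriv (dat k l₀ b)) := fun b =>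
    (hsm b).continuous_deriv (by exact_mod_cast le_top)
  have g1 := gen W hW hW0 hWw (dat k l₀ a) (deriv (dat k l₀ a)) 1 zero_le_one (hcd a) (hcd' a)
    (fun x => by rw [mul_one]; exact (h0 a ha a' ha' x).1)
    (fun x => by rw [mul_one]; exact (h1 a ha a' ha' x).1)
  have g2 := gen W hW hW0 hWw (fun x => dat k l₀ a x - dat k l₀ a' x)
    (fun x => deriv (dat k l₀ a) x - deriv (dat k l₀ a') x) |a - a'| (abs_nonneg _)
    ((hcd a).sub (hcd a')) ((hcd' a).sub (hcd' a'))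
    (fun x => (h0 a ha a' ha' x).2) (fun x => (h1 a ha a' ha' x).2)
  refine ⟨g1.1, ?_, g2.2⟩
  have := g1.2
  rwa [one_pow, mul_one] at this

end H37KB

end S_H37_KB_I1

section S_H37_KB_H2

/-!
# Row H2 of MP_95be7d_PDE (120 lines)

Uniform `H¹` bound for the family `u a` on `[0,T]`.

Fix `a`, let `m` bound `nh (u a t) (p a t)` on `[0,T]` (`G1_bdd`), `M' = 2m + 2`, `C` the constant of `H1` for `c = 0`, `M'`.  For `a'` put
`D(t) = nh (u a t - u a' t) (p a t - p a' t)` (`= ∫ 1·(..)`), continuous on `[0,T]` (`A2_n2`, `A2_sub`), `D(0) ≤ C₁ |a-a'|²` (`I1_int` with `W = 1 ≤ wt α` (`D2_one`);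
`u a 0 = dat a` by `init`, `p a 0 = deriv (dat a)` a.e. by `C2_data`).
If `e^{CT} C₁ |a-a'|² < 1` then `D < 1` on `[0,T]` by `F2`: if `D ≤ 1` on `[0,s]` then `nh (u a' t) (p a' t) ≤ 2 m + 2` there (`A1_sub`: `u a' = u a - (u a - u a')`), so `H1` on `[0,s]`
with `W = 1` (`D1_one`) gives `D(s) ≤ e^{Cs} D(0) < 1`.  So `nh (u a' t)(p a' t) ≤ 2m+2` on `[0,T]` for all `a'` in a neighbourhood of `a`.
Compactness of `[-a₁,a₁]` (`IsCompact.induction_on` or a finite subcover) gives a uniform bound.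
-/

open MeasureTheory Filter Topology Set
open scoped ContDiff

namespace H37KB

open H98KB

theorem H2_eq {f g p q : ℝ → ℝ} (h : IsH1 f p) (h' : IsH1 g q) :
    ∫ x, (fun _ : ℝ => (1 : ℝ)) x * ((f x - g x) ^ 2 + (p x - q x) ^ 2) =
      n2 (fun x => f x - g x) + n2 (fun x => p x - q x) := by
  have h1 := integral_add (A1_sq (h.1.sub h'.1)) (A1_sq (h.2.1.sub h'.2.1))
  refine Eq.trans (integral_congr_ae (Filter.Eventually.of_forall fun x => ?_)) h1
  simp only [one_mul, Pi.sub_apply]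

theorem H2_nh {f g p q : ℝ → ℝ} (h : IsH1 f p) (h' : IsH1 g q) :
    nh g q ≤ 2 * nh f p + 2 * (n2 (fun x => f x - g x) + n2 (fun x => p x - q x)) := by
  have h1 := A1_sub h.1 (h.1.sub h'.1)
  have h2 := A1_sub h.2.1 (h.2.1.sub h'.2.1)
  have e1 : (fun x => f x - (f - g) x) = g := by
    funext x
    simp
  have e2 : (fun x => p x - (p - q) x) = q := by
    funext x
    simp
  rw [e1] at h1
  rw [e2] at h2
  have e3 : n2 (f - g) = n2 (fun x => f x - g x) := rfl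
  have e4 : n2 (p - q) = n2 (fun x => p x - q x) := rfl
  rw [e3] at h1
  rw [e4] at h2
  unfold nh
  linarith

theorem H2_zero {k : ℕ} {l₀ : ℝ} (hQ : Cl (1 / 2) (1 / 2) (Qf k))
    (hn : Cl (1 / 2) (1 / 2) (nf k)) {a : ℝ} {u p : ℝ → ℝ → ℝ}
    (h : IsGlobalSol k (dat k l₀ a) u p) : ∀ᵐ x : ℝ, p 0 x = deriv (dat k l₀ a) x := by
  have h1 := h.h1 0 le_rfl
  have e : u 0 = dat k l₀ a := funext h.init
  rw [e] at h1
  exact C2_data h1 (I1_smooth hQ hn a)

theorem H2_loc {k : ℕ} {l₀ T α a₁ : ℝ} (hl : 0 < l₀) (hT : 0 < T) (hα : 1 ≤ α)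
    (hαl : 8 * α * l₀ ≤ 1) (ha1 : a₁ ≤ 1) (hQ : Cl (1 / 2) (1 / 2) (Qf k))
    (hn : Cl (1 / 2) (1 / 2) (nf k)) {u p : ℝ → ℝ → ℝ → ℝ}
    (h : ∀ a ∈ Icc (-a₁) a₁, IsGlobalSol k (dat k l₀ a) (u a) (p a)) (a : ℝ)
    (ha : a ∈ Icc (-a₁) a₁) :
    ∃ δ, 0 < δ ∧ ∃ M, 0 ≤ M ∧ ∀ a' ∈ Icc (-a₁) a₁, |a - a'| < δ →
      ∀ t ∈ Icc 0 T, nh (u a' t) (p a' t) ≤ M := by
  obtain ⟨m, hm, hmb⟩ := G1_bdd (h a ha) T
  obtain ⟨C, hC, hH⟩ := H1 k (c := 0) (M := 2 * m + 2) le_rfl (by linarith)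
  obtain ⟨C₁, hC₁, hI⟩ := I1_int hl hα hαl hQ hn
  have hexp : 0 < Real.exp (C * T) := Real.exp_pos _
  set E : ℝ := Real.exp (C * T) * C₁ + C₁ + 2 with hE
  have hE2 : 2 ≤ E := by
    have := mul_nonneg hexp.le hC₁
    rw [hE]
    linarith
  have hEpos : 0 < E := by linarith
  refine ⟨1 / E, by positivity, 2 * m + 2, by linarith, ?_⟩
  intro a' ha' had
  have h1a : a ∈ Icc (-1 : ℝ) 1 := ⟨by linarith [ha.1], by linarith [ha.2]⟩
  have h1a' : a' ∈ Icc (-1 : ℝ) 1 := ⟨by linarith [ha'.1], by linarith [ha'.2]⟩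
  have hsq : |a - a'| ^ 2 ≤ (1 / E) ^ 2 := pow_le_pow_left₀ (abs_nonneg _) had.le 2
  have hEsq : E * (1 / E) ^ 2 < 1 := by
    have : E * (1 / E) ^ 2 = 1 / E := by
      field_simp
    rw [this, div_lt_one hEpos]
    linarith
  have hsmall1 : C₁ * |a - a'| ^ 2 < 1 := by
    have h2 : C₁ * |a - a'| ^ 2 ≤ E * (1 / E) ^ 2 := by
      refine mul_le_mul ?_ hsq (by positivity) hEpos.le
      have := mul_nonneg hexp.le hC₁
      rw [hE]
      linarith
    linarith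
  have hsmall2 : Real.exp (C * T) * (C₁ * |a - a'| ^ 2) < 1 := by
    have h2 : Real.exp (C * T) * C₁ * |a - a'| ^ 2 ≤ E * (1 / E) ^ 2 := by
      refine mul_le_mul ?_ hsq (by positivity) hEpos.le
      rw [hE]
      linarith
    rw [← mul_assoc]
    linarith
  -- the difference
  set D : ℝ → ℝ := fun t => n2 (fun x => u a t x - u a' t x) + n2 (fun x => p a t x - p a' t x)
    with hD
  have hDc : ContinuousOn D (Icc 0 T) :=
    (A2_n2 (A2_sub (G1_u (h a ha) T) (G1_u (h a' ha') T))).add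
      (A2_n2 (A2_sub (G1_p (h a ha) T) (G1_p (h a' ha') T)))
  have hD0 : D 0 ≤ C₁ * |a - a'| ^ 2 := by
    have h3 := (hI (fun _ => 1) continuous_const (fun _ => zero_le_one) (fun x => D2_one hα x)
      a h1a a' h1a').2.2
    have h4 := H2_eq ((h a ha).h1 0 le_rfl) ((h a' ha').h1 0 le_rfl)
    have h5 : D 0 = ∫ x, (fun _ : ℝ => (1 : ℝ)) x * ((dat k l₀ a x - dat k l₀ a' x) ^ 2
        + (deriv (dat k l₀ a) x - deriv (dat k l₀ a') x) ^ 2) := by
      rw [hD]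
      change n2 (fun x => u a 0 x - u a' 0 x) + n2 (fun x => p a 0 x - p a' 0 x) = _
      rw [← h4]
      refine integral_congr_ae ?_
      filter_upwards [H2_zero hQ hn (h a ha), H2_zero hQ hn (h a' ha')] with x hx hx'
      rw [hx, hx', (h a ha).init, (h a' ha').init]
    rw [h5]
    exact h3
  have hnh : ∀ t, 0 ≤ t → t ≤ T → D t ≤ 1 → nh (u a' t) (p a' t) ≤ 2 * m + 2 := by
    intro t ht0 htT hDt
    have h6 := H2_nh ((h a ha).h1 t ht0) ((h a' ha').h1 t ht0)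
    have h7 := hmb t ⟨ht0, htT⟩
    have h8 : n2 (fun x => u a t x - u a' t x) + n2 (fun x => p a t x - p a' t x) ≤ 1 := hDt
    linarith
  have hF := F2 hT.le hDc (lt_of_le_of_lt hD0 hsmall1) (fun s hs hle => by
    have h9 := hH (fun _ => 1) (D1_one le_rfl) _ _ (u a) (p a) (u a') (p a') (h a ha) (h a' ha') s
      hs.1 (fun t ht => by
        have := hmb t ⟨ht.1, ht.2.trans hs.2⟩
        linarith) (fun t ht => hnh t ht.1 (ht.2.trans hs.2) (hle t ht)) s ⟨hs.1, le_rfl⟩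
    have h10 := H2_eq ((h a ha).h1 s hs.1) ((h a' ha').h1 s hs.1)
    have h11 := H2_eq ((h a ha).h1 0 le_rfl) ((h a' ha').h1 0 le_rfl)
    rw [h10, h11] at h9
    have h12 : D s ≤ Real.exp (C * s) * D 0 := h9
    have hD0n : 0 ≤ D 0 := add_nonneg (A1_nonneg _) (A1_nonneg _)
    have h13 : Real.exp (C * s) ≤ Real.exp (C * T) :=
      Real.exp_le_exp.2 (mul_le_mul_of_nonneg_left hs.2 hC)
    calc D s ≤ Real.exp (C * s) * D 0 := h12
      _ ≤ Real.exp (C * T) * (C₁ * |a - a'| ^ 2) := mul_le_mul h13 hD0 hD0n hexp.le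
      _ < 1 := hsmall2)
  intro t ht
  exact hnh t ht.1 ht.2 (hF t ht).le

theorem H2 {k : ℕ} {l₀ T α a₁ : ℝ} (hl : 0 < l₀) (hT : 0 < T) (hα : 1 ≤ α)
    (hαl : 8 * α * l₀ ≤ 1) (ha1 : a₁ ≤ 1) (hQ : Cl (1 / 2) (1 / 2) (Qf k))
    (hn : Cl (1 / 2) (1 / 2) (nf k)) {u p : ℝ → ℝ → ℝ → ℝ}
    (h : ∀ a ∈ Icc (-a₁) a₁, IsGlobalSol k (dat k l₀ a) (u a) (p a)) :
    ∃ M, 0 ≤ M ∧ ∀ a ∈ Icc (-a₁) a₁, ∀ t ∈ Icc 0 T, nh (u a t) (p a t) ≤ M := by
  have key := (isCompact_Icc (a := -a₁) (b := a₁)).induction_on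
    (p := fun S : Set ℝ => ∃ M, 0 ≤ M ∧ ∀ a ∈ S, a ∈ Icc (-a₁) a₁ →
      ∀ t ∈ Icc 0 T, nh (u a t) (p a t) ≤ M)
    ⟨0, le_rfl, fun a ha => absurd ha (Set.notMem_empty a)⟩
    (by
      rintro S S' hSS ⟨M, hM, hb⟩
      exact ⟨M, hM, fun a ha => hb a (hSS ha)⟩)
    (by
      rintro S S' ⟨M, hM, hb⟩ ⟨M', hM', hb'⟩
      refine ⟨M + M', by linarith, ?_⟩
      rintro a (ha | ha) hI t ht
      · have := hb a ha hI t ht
        linarith
      · have := hb' a ha hI t ht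
        linarith)
    (by
      intro a ha
      obtain ⟨δ, hδ, M, hM, hb⟩ := H2_loc hl hT hα hαl ha1 hQ hn h a ha
      refine ⟨Metric.ball a δ, mem_nhdsWithin_of_mem_nhds (Metric.ball_mem_nhds a hδ), M, hM, ?_⟩
      intro a' ha' hI t ht
      refine hb a' hI ?_ t ht
      rw [Metric.mem_ball, Real.dist_eq, abs_sub_comm] at ha'
      exact ha')
  obtain ⟨M, hM, hb⟩ := key
  exact ⟨M, hM, fun a ha t ht => hb a ha ha t ht⟩

end H37KB

end S_H37_KB_H2

section S_H37_KB_J1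

/-!
# Row J1 of MP_95be7d_PDE (140 lines)

Weighted bounds.  `M` from `H2`, `c = 13(α+1)³`, `W n` from `D2_approx`, `C` from `H1 k` for `c, M`.

* `J1_main`: (i) `H1` for the pair `u a`, `0` (`G2_zero`; `nh 0 0 = 0 ≤ M`) with weight `W n`: `∫ W n (u² + p²)(t) ≤ e^{CT} ∫ W n (u² + p²)(0) ≤ e^{CT} C₁` by `I1_int` (`u a 0 = dat a`,
  `p a 0 = deriv (dat a)` a.e., `C2_data`, `I1_smooth`).  `F3` with `F n = W n (u² + p²) → wt α (u² + p²)` (integrable: `W n` bounded, `A1_W`) gives integrability and the bound.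
  (ii) the same for the pair `u a, u a'`, with `C₁ |a-a'|²`.
* `J1_WB`: each of `wt u²`, `wt p²` is dominated by `wt (u²+p²)` (measurable); `fl k u`: `|fl u| ≤ S^k |u|`, `|fl u - fl u'| ≤ S^k |u-u'|` (`G0_fl1`, `G0_fl`, `G1_le`).
-/

open MeasureTheory Filter Topology Set
open scoped ContDiff

namespace H37KB

open H98KB

theorem J1_aux {c α K : ℝ} {W : ℕ → ℝ → ℝ} (hW : ∀ n, Wt c (W n))
    (hlim : ∀ x, Tendsto (fun n => W n x) atTop (𝓝 (wt α x))) {f g : ℝ → ℝ}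
    (hf : MemLp f 2 volume) (hg : MemLp g 2 volume)
    (hb : ∀ n, ∫ x, W n x * ((f x) ^ 2 + (g x) ^ 2) ≤ K) :
    Integrable (fun x => wt α x * ((f x) ^ 2 + (g x) ^ 2)) ∧
      ∫ x, wt α x * ((f x) ^ 2 + (g x) ^ 2) ≤ K := by
  refine F3 (F := fun n x => W n x * ((f x) ^ 2 + (g x) ^ 2)) ?_ ?_ hb ?_
  · intro n x
    exact mul_nonneg ((hW n).pos x).le (by positivity)
  · intro n
    obtain ⟨B, hB⟩ := (hW n).bdd
    have hB' : ∀ x, |W n x| ≤ B := fun x => by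
      rw [abs_of_pos ((hW n).pos x)]
      exact hB x
    have h1 := (A1_W (hW n).smooth.continuous hB' hf).1
    have h2 := (A1_W (hW n).smooth.continuous hB' hg).1
    refine (h1.add h2).congr (Eventually.of_forall fun x => ?_)
    simp only [Pi.add_apply]
    ring
  · intro x
    exact (hlim x).mul_const _

theorem J1_dom {F G : ℝ → ℝ} {c : ℝ} (hG : Integrable G) (hm : AEStronglyMeasurable F volume)
    (h0 : ∀ x, 0 ≤ F x) (hle : ∀ x, F x ≤ c * G x) :
    Integrable F ∧ ∫ x, F x ≤ c * ∫ x, G x := by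
  have hi : Integrable F := by
    refine Integrable.mono' (hG.const_mul c) hm (Eventually.of_forall fun x => ?_)
    rw [Real.norm_eq_abs, abs_of_nonneg (h0 x)]
    exact hle x
  refine ⟨hi, ?_⟩
  rw [← integral_const_mul]
  exact integral_mono hi (hG.const_mul c) hle

theorem J1_init {k : ℕ} {l₀ a : ℝ} (hQ : Cl (1 / 2) (1 / 2) (Qf k))
    (hn : Cl (1 / 2) (1 / 2) (nf k)) {u p : ℝ → ℝ → ℝ}
    (h : IsGlobalSol k (dat k l₀ a) u p) :
    (u 0 = dat k l₀ a) ∧ ∀ᵐ x : ℝ, p 0 x = deriv (dat k l₀ a) x := by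
  have h1 : u 0 = dat k l₀ a := funext h.init
  refine ⟨h1, ?_⟩
  have h2 := h.h1 0 le_rfl
  rw [h1] at h2
  exact C2_data h2 (I1_smooth hQ hn a)

theorem J1_main {k : ℕ} {l₀ T α a₁ : ℝ} (hl : 0 < l₀) (hT : 0 < T) (hα : 1 ≤ α)
    (hαl : 8 * α * l₀ ≤ 1) (ha1 : a₁ ≤ 1) (hQ : Cl (1 / 2) (1 / 2) (Qf k))
    (hn : Cl (1 / 2) (1 / 2) (nf k)) {u p : ℝ → ℝ → ℝ → ℝ}
    (h : ∀ a ∈ Icc (-a₁) a₁, IsGlobalSol k (dat k l₀ a) (u a) (p a)) :
    ∃ M K : ℝ, 0 ≤ M ∧ 0 ≤ K ∧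
      (∀ a ∈ Icc (-a₁) a₁, ∀ t ∈ Icc 0 T, nh (u a t) (p a t) ≤ M) ∧
      (∀ a ∈ Icc (-a₁) a₁, ∀ t ∈ Icc 0 T,
        Integrable (fun x => wt α x * ((u a t x) ^ 2 + (p a t x) ^ 2)) ∧
        ∫ x, wt α x * ((u a t x) ^ 2 + (p a t x) ^ 2) ≤ K) ∧
      (∀ a ∈ Icc (-a₁) a₁, ∀ a' ∈ Icc (-a₁) a₁, ∀ t ∈ Icc 0 T,
        Integrable (fun x => wt α x * ((u a t x - u a' t x) ^ 2 + (p a t x - p a' t x) ^ 2)) ∧
        ∫ x, wt α x * ((u a t x - u a' t x) ^ 2 + (p a t x - p a' t x) ^ 2) ≤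
          K * |a - a'| ^ 2) := by
  obtain ⟨M, hM, hMb⟩ := H2 hl hT hα hαl ha1 hQ hn h
  have hc : (0 : ℝ) ≤ 13 * (α + 1) ^ 3 := by
    have : 0 ≤ α + 1 := by linarith
    positivity
  obtain ⟨C, hC, hH⟩ := H1 k hc hM
  obtain ⟨W, hW, hWle, hWlim⟩ := D2_approx α hα
  obtain ⟨C₁, hC₁, hI⟩ := I1_int hl hα hαl hQ hn
  have hI' : ∀ n, ∀ a ∈ Icc (-a₁) a₁, ∀ a' ∈ Icc (-a₁) a₁, _ := fun n a ha a' ha' =>
    hI (W n) (hW n).smooth.continuous (fun x => ((hW n).pos x).le) (hWle n) a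
      ⟨by linarith [ha.1], by linarith [ha.2]⟩ a' ⟨by linarith [ha'.1], by linarith [ha'.2]⟩
  have hE : 0 ≤ Real.exp (C * T) := (Real.exp_pos _).le
  refine ⟨M, Real.exp (C * T) * C₁, hM, mul_nonneg hE hC₁, hMb, ?_, ?_⟩
  · intro a ha t ht
    refine J1_aux hW hWlim ((h a ha).h1 t ht.1).1 ((h a ha).h1 t ht.1).2.1 fun n => ?_
    have h0 : ∀ t ∈ Icc 0 T, nh ((fun _ _ => (0 : ℝ)) t) ((fun _ _ => (0 : ℝ)) t) ≤ M := by
      intro t _
      simpa [nh, n2] using hM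
    have h1 := hH (W n) (hW n) _ _ (u a) (p a) (fun _ _ => 0) (fun _ _ => 0) (h a ha)
      (G2_zero k) T hT.le (hMb a ha) h0 t ht
    simp only [sub_zero] at h1
    refine h1.trans (mul_le_mul_of_nonneg_left ?_ hE)
    obtain ⟨hu0, hp0⟩ := J1_init hQ hn (h a ha)
    have h2 : ∫ x, W n x * ((u a 0 x) ^ 2 + (p a 0 x) ^ 2) =
        ∫ x, W n x * ((dat k l₀ a x) ^ 2 + (deriv (dat k l₀ a) x) ^ 2) := by
      refine integral_congr_ae ?_
      filter_upwards [hp0] with x hx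
      rw [hu0, hx]
    rw [h2]
    exact (hI' n a ha a ha).2.1
  · intro a ha a' ha' t ht
    refine J1_aux hW hWlim (((h a ha).h1 t ht.1).1.sub ((h a' ha').h1 t ht.1).1)
      (((h a ha).h1 t ht.1).2.1.sub ((h a' ha').h1 t ht.1).2.1) fun n => ?_
    have h1 := hH (W n) (hW n) _ _ (u a) (p a) (u a') (p a') (h a ha) (h a' ha') T hT.le
      (hMb a ha) (hMb a' ha') t ht
    refine h1.trans ?_
    rw [mul_assoc]
    refine mul_le_mul_of_nonneg_left ?_ hE
    obtain ⟨hu0, hp0⟩ := J1_init hQ hn (h a ha)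
    obtain ⟨hu0', hp0'⟩ := J1_init hQ hn (h a' ha')
    have h2 : ∫ x, W n x * ((u a 0 x - u a' 0 x) ^ 2 + (p a 0 x - p a' 0 x) ^ 2) =
        ∫ x, W n x * ((dat k l₀ a x - dat k l₀ a' x) ^ 2
          + (deriv (dat k l₀ a) x - deriv (dat k l₀ a') x) ^ 2) := by
      refine integral_congr_ae ?_
      filter_upwards [hp0, hp0'] with x hx hx'
      rw [hu0, hx, hu0', hx']
    rw [h2]
    exact (hI' n a ha a' ha').2.2

theorem J1_WB {k : ℕ} {l₀ T α a₁ : ℝ} (hl : 0 < l₀) (hT : 0 < T) (hα : 1 ≤ α)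
    (hαl : 8 * α * l₀ ≤ 1) (ha1 : a₁ ≤ 1) (hQ : Cl (1 / 2) (1 / 2) (Qf k))
    (hn : Cl (1 / 2) (1 / 2) (nf k)) {u p : ℝ → ℝ → ℝ → ℝ}
    (h : ∀ a ∈ Icc (-a₁) a₁, IsGlobalSol k (dat k l₀ a) (u a) (p a)) :
    ∃ K : ℝ, 0 ≤ K ∧ WB a₁ T α K u ∧ WB a₁ T α K (fun a t x => fl k (u a t x)) := by
  obtain ⟨M, K, hM, hK, hMb, h1, h2⟩ := J1_main hl hT hα hαl ha1 hQ hn h
  have hS : (0 : ℝ) ≤ ((1 + M) ^ k) ^ 2 := by positivity
  have hKK : K ≤ (1 + ((1 + M) ^ k) ^ 2) * K := by nlinarith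
  have hKK' : ((1 + M) ^ k) ^ 2 * K ≤ (1 + ((1 + M) ^ k) ^ 2) * K := by nlinarith
  have hwt : Continuous (wt α) := D2_cont α
  have hwp : ∀ x, 0 < wt α x := D2_pos α
  have hm : ∀ a ∈ Icc (-a₁) a₁, ∀ t ∈ Icc 0 T, MemLp (u a t) 2 volume := fun a ha t ht =>
    ((h a ha).h1 t ht.1).1
  have hmf : ∀ a ∈ Icc (-a₁) a₁, ∀ t ∈ Icc 0 T,
      MemLp (fun x => fl k (u a t x)) 2 volume := fun a ha t ht => (G1_fl (h a ha) T).mem t ht
  have hS1 : ∀ a ∈ Icc (-a₁) a₁, ∀ t ∈ Icc 0 T, ∀ x, |u a t x| ≤ 1 + M := fun a ha t ht x =>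
    G1_le (h a ha) ht.1 hM (hMb a ha t ht) x
  have key : ∀ {F G : ℝ → ℝ}, AEStronglyMeasurable F volume → ∀ {q : ℝ → ℝ} {c : ℝ}, 0 ≤ c →
      Integrable (fun x => wt α x * ((G x) ^ 2 + (q x) ^ 2)) →
      (∀ x, |F x| ≤ c * |G x|) →
      Integrable (fun x => wt α x * (F x) ^ 2) ∧
        ∫ x, wt α x * (F x) ^ 2 ≤ c ^ 2 * ∫ x, wt α x * ((G x) ^ 2 + (q x) ^ 2) := by
    intro F G hF q c hc hG hle
    refine J1_dom hG (hwt.aestronglyMeasurable.mul (hF.pow 2)) (fun x => ?_) (fun x => ?_)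
    · exact mul_nonneg (hwp x).le (sq_nonneg _)
    · have h3 : (F x) ^ 2 ≤ c ^ 2 * (G x) ^ 2 := by
        rw [← sq_abs (F x), ← sq_abs (G x), ← mul_pow]
        exact pow_le_pow_left₀ (abs_nonneg _) (hle x) 2
      have h4 : (F x) ^ 2 ≤ c ^ 2 * ((G x) ^ 2 + (q x) ^ 2) := by
        nlinarith [mul_nonneg (sq_nonneg c) (sq_nonneg (q x))]
      calc wt α x * (F x) ^ 2 ≤ wt α x * (c ^ 2 * ((G x) ^ 2 + (q x) ^ 2)) :=
            mul_le_mul_of_nonneg_left h4 (hwp x).le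
        _ = c ^ 2 * (wt α x * ((G x) ^ 2 + (q x) ^ 2)) := by ring
  have hone : ∀ f : ℝ → ℝ, ∀ x, |f x| ≤ 1 * |f x| := fun f x => by rw [one_mul]
  refine ⟨(1 + ((1 + M) ^ k) ^ 2) * K, by positivity, ?_, ?_⟩
  · constructor
    · intro a ha t ht
      exact (key (hm a ha t ht).1 zero_le_one (h1 a ha t ht).1 (hone _)).1
    · intro a ha t ht
      have h3 := (key (hm a ha t ht).1 zero_le_one (h1 a ha t ht).1 (hone _)).2
      rw [one_pow, one_mul] at h3
      exact h3.trans ((h1 a ha t ht).2.trans hKK)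
    · intro a ha a' ha' t ht
      exact (key ((hm a ha t ht).sub (hm a' ha' t ht)).1 zero_le_one (h2 a ha a' ha' t ht).1
        (hone _)).1
    · intro a ha a' ha' t ht
      have h3 := (key ((hm a ha t ht).sub (hm a' ha' t ht)).1 zero_le_one (h2 a ha a' ha' t ht).1
        (hone _)).2
      rw [one_pow, one_mul] at h3
      refine (h3.trans (h2 a ha a' ha' t ht).2).trans ?_
      exact mul_le_mul_of_nonneg_right hKK (by positivity)
  · constructor
    · intro a ha t ht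
      exact (key (hmf a ha t ht).1 (by positivity) (h1 a ha t ht).1
        (fun x => G0_fl1 k (hS1 a ha t ht x))).1
    · intro a ha t ht
      have h3 := (key (hmf a ha t ht).1 (by positivity) (h1 a ha t ht).1
        (fun x => G0_fl1 k (hS1 a ha t ht x))).2
      refine h3.trans ((mul_le_mul_of_nonneg_left (h1 a ha t ht).2 hS).trans hKK')
    · intro a ha a' ha' t ht
      exact (key ((hmf a ha t ht).sub (hmf a' ha' t ht)).1 (by positivity)
        (h2 a ha a' ha' t ht).1 (fun x => G0_fl k (hS1 a ha t ht x) (hS1 a' ha' t ht x))).1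
    · intro a ha a' ha' t ht
      have h3 := (key ((hmf a ha t ht).sub (hmf a' ha' t ht)).1 (by positivity)
        (h2 a ha a' ha' t ht).1 (fun x => G0_fl k (hS1 a ha t ht x) (hS1 a' ha' t ht x))).2
      refine (h3.trans (mul_le_mul_of_nonneg_left (h2 a ha a' ha' t ht).2 hS)).trans ?_
      rw [← mul_assoc]
      exact mul_le_mul_of_nonneg_right hKK' (by positivity)

end H37KB

end S_H37_KB_J1

section S_H37_KB_K1

/-!
# Row K1 of MP_95be7d_PDE (150 lines)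

`Fam a₁ T α` is closed under differences, products, powers, `fl k`.

Derivatives of products: Leibniz `iteratedDeriv j (F G) x = Σ_{i ≤ j} C(j,i) iteratedDeriv i F x * iteratedDeriv (j-i) G x` (`iteratedDeriv_mul` or
`iteratedDeriv_fun_mul`), `bd (α/2) (1/16) ≤ 1` (`D2_bd`) so `bd² ≤ bd`; for Lipschitz: `FG - F'G' = (F-F')G + F'(G-G')` termwise; continuity in `t` termwise.
`K1_pow` by induction (`n ≥ 1`), `K1_fl`: `fl k u = u^(k+1)/(k+1) = const * power`.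
-/

open MeasureTheory Filter Topology Set
open scoped ContDiff

namespace H37KB

open H98KB

theorem K1_sm {F : ℝ → ℝ} (h : ContDiff ℝ ∞ F) (j : ℕ) (x : ℝ) : ContDiffAt ℝ j F x :=
  (h.of_le (mod_cast le_top)).contDiffAt

theorem K1_dsub {F G : ℝ → ℝ} (hF : ContDiff ℝ ∞ F) (hG : ContDiff ℝ ∞ G) (j : ℕ) (x : ℝ) :
    iteratedDeriv j (fun z => F z - G z) x = iteratedDeriv j F x - iteratedDeriv j G x :=
  iteratedDeriv_fun_sub (K1_sm hF j x) (K1_sm hG j x)

theorem K1_dmul {F G : ℝ → ℝ} (hF : ContDiff ℝ ∞ F) (hG : ContDiff ℝ ∞ G) (j : ℕ) (x : ℝ) :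
    iteratedDeriv j (fun z => F z * G z) x = ∑ i ∈ Finset.range (j + 1),
      (j.choose i : ℝ) * iteratedDeriv i F x * iteratedDeriv (j - i) G x :=
  iteratedDeriv_fun_mul (K1_sm hF j x) (K1_sm hG j x)

theorem K1_sub {a₁ T α : ℝ} {F G : ℝ → ℝ → ℝ → ℝ} (hα : 1 ≤ α) (hF : Fam a₁ T α F)
    (hG : Fam a₁ T α G) : Fam a₁ T α (fun a t x => F a t x - G a t x) := by
  refine ⟨fun a ha t ht => (hF.smooth a ha t ht).sub (hG.smooth a ha t ht), fun j => ?_,
    fun j a ha x => ?_, fun j => ?_⟩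
  · obtain ⟨C1, h1⟩ := hF.bound j
    obtain ⟨C2, h2⟩ := hG.bound j
    refine ⟨C1 + C2, fun a ha t ht x => ?_⟩
    rw [K1_dsub (hF.smooth a ha t ht) (hG.smooth a ha t ht) j x]
    have h3 := h1 a ha t ht x
    have h4 := h2 a ha t ht x
    have h5 := abs_sub (iteratedDeriv j (F a t) x) (iteratedDeriv j (G a t) x)
    linarith
  · refine ((hF.cont j a ha x).sub (hG.cont j a ha x)).congr (fun t ht => ?_)
    exact K1_dsub (hF.smooth a ha t ht) (hG.smooth a ha t ht) j x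
  · obtain ⟨C1, h1⟩ := hF.lip j
    obtain ⟨C2, h2⟩ := hG.lip j
    refine ⟨C1 + C2, fun a ha a' ha' t ht x => ?_⟩
    rw [K1_dsub (hF.smooth a ha t ht) (hG.smooth a ha t ht) j x,
      K1_dsub (hF.smooth a' ha' t ht) (hG.smooth a' ha' t ht) j x]
    have h3 := h1 a ha a' ha' t ht x
    have h4 := h2 a ha a' ha' t ht x
    have h5 := abs_sub (iteratedDeriv j (F a t) x - iteratedDeriv j (F a' t) x)
      (iteratedDeriv j (G a t) x - iteratedDeriv j (G a' t) x)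
    have h6 : iteratedDeriv j (F a t) x - iteratedDeriv j (G a t) x -
        (iteratedDeriv j (F a' t) x - iteratedDeriv j (G a' t) x) =
        (iteratedDeriv j (F a t) x - iteratedDeriv j (F a' t) x) -
        (iteratedDeriv j (G a t) x - iteratedDeriv j (G a' t) x) := by ring
    rw [h6]
    linarith

theorem K1_bb {α : ℝ} (hα : 1 ≤ α) (x : ℝ) :
    bd (α / 2) (1 / 16) x * bd (α / 2) (1 / 16) x ≤ bd (α / 2) (1 / 16) x := by
  obtain ⟨_, h2, h3⟩ := D2_bd hα x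
  have := mul_le_mul_of_nonneg_left h3 h2.le
  linarith

theorem K1_term {α : ℝ} (hα : 1 ≤ α) (x : ℝ) {c u v A B s : ℝ} (hc : 0 ≤ c) (hs : 0 ≤ s)
    (hu : |u| ≤ A * s * bd (α / 2) (1 / 16) x) (hv : |v| ≤ B * bd (α / 2) (1 / 16) x) :
    |c * u * v| ≤ c * |A| * |B| * s * bd (α / 2) (1 / 16) x := by
  obtain ⟨_, h2, h3⟩ := D2_bd hα x
  have hu' : |u| ≤ |A| * s * bd (α / 2) (1 / 16) x :=
    hu.trans (mul_le_mul_of_nonneg_right (mul_le_mul_of_nonneg_right (le_abs_self A) hs) h2.le)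
  have hv' : |v| ≤ |B| * bd (α / 2) (1 / 16) x :=
    hv.trans (mul_le_mul_of_nonneg_right (le_abs_self B) h2.le)
  rw [abs_mul, abs_mul, abs_of_nonneg hc]
  have h4 : |u| * |v| ≤ (|A| * s * bd (α / 2) (1 / 16) x) * (|B| * bd (α / 2) (1 / 16) x) :=
    mul_le_mul hu' hv' (abs_nonneg v) (by positivity)
  have h5 : (|A| * s * bd (α / 2) (1 / 16) x) * (|B| * bd (α / 2) (1 / 16) x) =
      |A| * |B| * s * (bd (α / 2) (1 / 16) x * bd (α / 2) (1 / 16) x) := by ring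
  have h6 : |A| * |B| * s * (bd (α / 2) (1 / 16) x * bd (α / 2) (1 / 16) x) ≤
      |A| * |B| * s * bd (α / 2) (1 / 16) x :=
    mul_le_mul_of_nonneg_left (K1_bb hα x) (by positivity)
  calc c * |u| * |v| = c * (|u| * |v|) := by ring
    _ ≤ c * (|A| * |B| * s * bd (α / 2) (1 / 16) x) :=
        mul_le_mul_of_nonneg_left (by linarith) hc
    _ = _ := by ring

theorem K1_mul {a₁ T α : ℝ} {F G : ℝ → ℝ → ℝ → ℝ} (hα : 1 ≤ α) (hF : Fam a₁ T α F)
    (hG : Fam a₁ T α G) : Fam a₁ T α (fun a t x => F a t x * G a t x) := by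
  choose CF hCF using hF.bound
  choose CG hCG using hG.bound
  choose LF hLF using hF.lip
  choose LG hLG using hG.lip
  refine ⟨fun a ha t ht => (hF.smooth a ha t ht).mul (hG.smooth a ha t ht), fun j => ?_,
    fun j a ha x => ?_, fun j => ?_⟩
  · refine ⟨∑ i ∈ Finset.range (j + 1), (j.choose i : ℝ) * |CF i| * |CG (j - i)| * 1,
      fun a ha t ht x => ?_⟩
    rw [K1_dmul (hF.smooth a ha t ht) (hG.smooth a ha t ht) j x]
    refine (Finset.abs_sum_le_sum_abs _ _).trans ?_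
    rw [Finset.sum_mul]
    refine Finset.sum_le_sum (fun i _ => ?_)
    refine K1_term hα x (Nat.cast_nonneg _) zero_le_one ?_ (hCG (j - i) a ha t ht x)
    rw [mul_one]
    exact hCF i a ha t ht x
  · have h1 : ContinuousOn (fun t => ∑ i ∈ Finset.range (j + 1),
        (j.choose i : ℝ) * iteratedDeriv i (F a t) x * iteratedDeriv (j - i) (G a t) x) (Icc 0 T) :=
      continuousOn_finset_sum _ (fun i _ =>
        (continuousOn_const.mul (hF.cont i a ha x)).mul (hG.cont (j - i) a ha x))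
    refine h1.congr (fun t ht => ?_)
    exact K1_dmul (hF.smooth a ha t ht) (hG.smooth a ha t ht) j x
  · refine ⟨∑ i ∈ Finset.range (j + 1), ((j.choose i : ℝ) * |LF i| * |CG (j - i)| +
      (j.choose i : ℝ) * |LG (j - i)| * |CF i|), fun a ha a' ha' t ht x => ?_⟩
    rw [K1_dmul (hF.smooth a ha t ht) (hG.smooth a ha t ht) j x,
      K1_dmul (hF.smooth a' ha' t ht) (hG.smooth a' ha' t ht) j x, ← Finset.sum_sub_distrib]
    refine (Finset.abs_sum_le_sum_abs _ _).trans ?_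
    rw [mul_assoc, Finset.sum_mul]
    refine Finset.sum_le_sum (fun i _ => ?_)
    have h1 := K1_term (c := (j.choose i : ℝ)) hα x (Nat.cast_nonneg _) (abs_nonneg (a - a'))
      (hLF i a ha a' ha' t ht x) (hCG (j - i) a ha t ht x)
    have h2 := K1_term (c := (j.choose i : ℝ)) hα x (Nat.cast_nonneg _) (abs_nonneg (a - a'))
      (hLG (j - i) a ha a' ha' t ht x) (hCF i a' ha' t ht x)
    have h3 : (j.choose i : ℝ) * iteratedDeriv i (F a t) x * iteratedDeriv (j - i) (G a t) x -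
        (j.choose i : ℝ) * iteratedDeriv i (F a' t) x * iteratedDeriv (j - i) (G a' t) x =
        (j.choose i : ℝ) * (iteratedDeriv i (F a t) x - iteratedDeriv i (F a' t) x) *
          iteratedDeriv (j - i) (G a t) x +
        (j.choose i : ℝ) * (iteratedDeriv (j - i) (G a t) x - iteratedDeriv (j - i) (G a' t) x) *
          iteratedDeriv i (F a' t) x := by ring
    rw [h3]
    refine (abs_add_le _ _).trans ?_
    linarith

theorem K1_const {a₁ T α : ℝ} {F : ℝ → ℝ → ℝ → ℝ} (hα : 1 ≤ α) (hF : Fam a₁ T α F)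
    (c : ℝ) : Fam a₁ T α (fun a t x => c * F a t x) := by
  have hd : ∀ (j : ℕ) (a t x : ℝ), iteratedDeriv j (fun z => c * F a t z) x =
      c * iteratedDeriv j (F a t) x := fun j a t x => iteratedDeriv_const_mul_field c (F a t)
  refine ⟨fun a ha t ht => contDiff_const.mul (hF.smooth a ha t ht), fun j => ?_,
    fun j a ha x => ?_, fun j => ?_⟩
  · obtain ⟨C1, h1⟩ := hF.bound j
    refine ⟨|c| * C1, fun a ha t ht x => ?_⟩
    rw [hd, abs_mul, mul_assoc]
    exact mul_le_mul_of_nonneg_left (h1 a ha t ht x) (abs_nonneg c)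
  · have h1 : ContinuousOn (fun t => c * iteratedDeriv j (F a t) x) (Icc 0 T) :=
      continuousOn_const.mul (hF.cont j a ha x)
    exact h1.congr (fun t _ => hd j a t x)
  · obtain ⟨C1, h1⟩ := hF.lip j
    refine ⟨|c| * C1, fun a ha a' ha' t ht x => ?_⟩
    rw [hd, hd, ← mul_sub, abs_mul]
    have h2 := mul_le_mul_of_nonneg_left (h1 a ha a' ha' t ht x) (abs_nonneg c)
    calc _ ≤ |c| * (C1 * |a - a'| * bd (α / 2) (1 / 16) x) := h2
      _ = _ := by ring

theorem K1_pow {a₁ T α : ℝ} {F : ℝ → ℝ → ℝ → ℝ} (hα : 1 ≤ α) (hF : Fam a₁ T α F) (n : ℕ) :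
    Fam a₁ T α (fun a t x => (F a t x) ^ (n + 1)) := by
  induction n with
  | zero =>
    have h : (fun a t x => (F a t x) ^ (0 + 1)) = F := by
      funext a t x
      rw [zero_add, pow_one]
    rw [h]
    exact hF
  | succ n ih =>
    have h : (fun a t x => (F a t x) ^ (n + 1 + 1)) = fun a t x => (F a t x) ^ (n + 1) * F a t x := by
      funext a t x
      rw [pow_succ]
    rw [h]
    exact K1_mul hα ih hF

theorem K1_fl {a₁ T α : ℝ} {F : ℝ → ℝ → ℝ → ℝ} (hα : 1 ≤ α) (hF : Fam a₁ T α F) (k : ℕ) :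
    Fam a₁ T α (fun a t x => fl k (F a t x)) := by
  have h : (fun a t x => fl k (F a t x)) = fun a t x => 1 / ((k : ℝ) + 1) * (F a t x) ^ (k + 1) := by
    funext a t x
    rw [fl]
    ring
  rw [h]
  exact K1_const hα (K1_pow hα hF k) _

end H37KB

end S_H37_KB_K1

section S_H37_KB_K2

/-!
# Row K2 of MP_95be7d_PDE (110 lines)

Mollified families.  `iteratedDeriv j (mol ρ g) = mol ρ_j g`, `ρ_j = iteratedDeriv j ρ` (`B1_iter`), vanishing for `|x| ≥ 1` (it vanishes on the open set `|x| > 1`, and at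
`|x| = 1` by continuity).

Pointwise bound `K2_pt`: `|mol ρ_j v x| ≤ ∫_{|x-z| ≤ 1} |ρ_j(x-z)| |v z| dz ≤ √(n2 ρ_j) (∫_{|x-z|≤1} v²)^{1/2}` (Cauchy-Schwarz `A1_cs` with `v` replaced by `v · 1_{|x-z| ≤ 1}`), and there
`wt α x ≤ e^α wt α z` (`D2_slow`), so `∫_{|x-z|≤1} v² ≤ e^α (wt α x)⁻¹ ∫ wt v²`; finally `(wt α x)⁻¹ ≤ bd(x)²` (`D2_bd`).
`bound`: `v = g a t`.  `lip`: `v = g a t - g a' t` (`B1_sub`), `√(K |a-a'|²) = √K |a-a'|`.  `cont`: `A2_pair` / `B1_joint` for `ρ_j`.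
-/

open MeasureTheory Filter Topology Set
open scoped ContDiff

namespace H37KB

open H98KB

theorem K2_pt {α : ℝ} {ρ v : ℝ → ℝ} (hα : 1 ≤ α) (h : ContDiff ℝ ∞ ρ)
    (hs : ∀ x, 1 ≤ |x| → ρ x = 0) (hv : MemLp v 2 volume)
    (hi : Integrable (fun x => wt α x * (v x) ^ 2)) (x : ℝ) :
    |mol ρ v x| ≤ √(n2 ρ) * (√(Real.exp α * ∫ z, wt α z * (v z) ^ 2) * bd (α / 2) (1 / 16) x) := by
  have hc : HasCompactSupport ρ := by
    refine HasCompactSupport.intro (isCompact_Icc (a := (-1:ℝ)) (b := 1)) fun y hy => hs y ?_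
    rw [mem_Icc, ← abs_le, not_le] at hy
    exact hy.le
  obtain ⟨_, _, hsh, _⟩ := B1_shift h hc x
  set S : Set ℝ := Metric.closedBall x 1 with hS
  have hSm : MeasurableSet S := measurableSet_closedBall
  set v' : ℝ → ℝ := S.indicator v with hv'
  have mv' : MemLp v' 2 volume := hv.indicator hSm
  have e1 : mol ρ v x = ∫ z, ρ (x - z) * v' z := by
    unfold mol
    congr 1
    funext z
    by_cases hz : z ∈ S
    · rw [hv', indicator_of_mem hz]
    · rw [hv', indicator_of_notMem hz, hs (x - z), zero_mul, zero_mul]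
      rw [hS, Metric.mem_closedBall, Real.dist_eq, abs_sub_comm, not_le] at hz
      exact hz.le
  have e2 : n2 (fun z => ρ (x - z)) = n2 ρ := by
    unfold n2
    exact integral_sub_left_eq_self (fun y => (ρ y) ^ 2) volume x
  have hcs := A1_cs hsh mv'
  rw [e2, ← e1] at hcs
  refine hcs.trans (mul_le_mul_of_nonneg_left ?_ (Real.sqrt_nonneg _))
  obtain ⟨b1, b2, _⟩ := D2_bd hα x
  have e3 : √(Real.exp α * ∫ z, wt α z * (v z) ^ 2) * bd (α / 2) (1 / 16) x =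
      √((bd (α / 2) (1 / 16) x) ^ 2 * (Real.exp α * ∫ z, wt α z * (v z) ^ 2)) := by
    rw [Real.sqrt_mul (sq_nonneg _), Real.sqrt_sq b2.le, mul_comm]
  rw [e3]
  apply Real.sqrt_le_sqrt
  unfold n2
  rw [← integral_const_mul, ← integral_const_mul]
  refine integral_mono (A1_sq mv') ((hi.const_mul _).const_mul _) fun z => ?_
  simp only
  have hw : 0 < wt α z := D2_pos α z
  by_cases hz : z ∈ S
  · rw [hv', indicator_of_mem hz]
    have hz' : |x - z| ≤ 1 := by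
      rw [hS, Metric.mem_closedBall, Real.dist_eq, abs_sub_comm] at hz
      exact hz
    have h1 := D2_slow hα x z hz'
    have h2 : 1 ≤ (bd (α / 2) (1 / 16) x) ^ 2 * (Real.exp α * wt α z) :=
      b1.trans (mul_le_mul_of_nonneg_left h1 (sq_nonneg _))
    have h3 := mul_le_mul_of_nonneg_right h2 (sq_nonneg (v z))
    calc (v z) ^ 2 = 1 * (v z) ^ 2 := (one_mul _).symm
      _ ≤ _ := h3
      _ = _ := by ring
  · rw [hv', indicator_of_notMem hz]
    have h0 := (Real.exp_pos α).le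
    have h4 : (0:ℝ) ^ 2 = 0 := by norm_num
    rw [h4]
    positivity

theorem K2 {a₁ T α K : ℝ} {g : ℝ → ℝ → ℝ → ℝ} {ρ : ℝ → ℝ} (hα : 1 ≤ α) (hK : 0 ≤ K)
    (hc : ∀ a ∈ Icc (-a₁) a₁, CL2 T (g a)) (hg : WB a₁ T α K g) (h : ContDiff ℝ ∞ ρ)
    (hs : ∀ x, 1 ≤ |x| → ρ x = 0) : Fam a₁ T α (fun a t => mol ρ (g a t)) := by
  have hcs : HasCompactSupport ρ := by
    refine HasCompactSupport.intro (isCompact_Icc (a := (-1:ℝ)) (b := 1)) fun y hy => hs y ?_
    rw [mem_Icc, ← abs_le, not_le] at hy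
    exact hy.le
  -- derivatives vanish outside the unit ball
  have hs' : ∀ (j : ℕ) (x : ℝ), 1 ≤ |x| → iteratedDeriv j ρ x = 0 := by
    intro j
    have hz : ∀ x : ℝ, 1 < |x| → iteratedDeriv j ρ x = 0 := by
      intro x hx
      have hev : ρ =ᶠ[𝓝 x] fun _ => 0 := by
        have : ∀ᶠ y in 𝓝 x, 1 < |y| := (continuous_abs.tendsto x).eventually (lt_mem_nhds hx)
        filter_upwards [this] with y hy using hs y hy.le
      rw [hev.iteratedDeriv_eq j]
      simp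
    intro x hx
    have hcont : Continuous (iteratedDeriv j ρ) := (B1_test h hcs j).1.continuous
    have hcl : IsClosed {y : ℝ | iteratedDeriv j ρ y = 0} := isClosed_eq hcont continuous_const
    have hx0 : x ≠ 0 := by
      rintro rfl
      simp at hx
      linarith
    have hseq : Tendsto (fun n : ℕ => x + (1 / ((n:ℝ) + 1)) * x) atTop (𝓝 (x + 0 * x)) :=
      tendsto_const_nhds.add ((tendsto_one_div_add_atTop_nhds_zero_nat).mul_const x)
    rw [zero_mul, add_zero] at hseq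
    refine hcl.mem_of_tendsto hseq (Eventually.of_forall fun n => hz _ ?_)
    have hp : 0 < 1 / ((n:ℝ) + 1) := by positivity
    have : x + 1 / ((n:ℝ) + 1) * x = (1 + 1 / ((n:ℝ) + 1)) * x := by ring
    rw [this, abs_mul, abs_of_pos (by positivity)]
    nlinarith
  have hj := fun j => B1_test h hcs j
  have mg : ∀ a ∈ Icc (-a₁) a₁, ∀ t ∈ Icc 0 T, MemLp (g a t) 2 volume :=
    fun a ha t ht => (hc a ha).mem t ht
  have hit : ∀ (j : ℕ), ∀ a ∈ Icc (-a₁) a₁, ∀ t ∈ Icc 0 T,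
      iteratedDeriv j (mol ρ (g a t)) = mol (iteratedDeriv j ρ) (g a t) :=
    fun j a ha t ht => B1_iter h hcs (mg a ha t ht) j
  refine ⟨fun a ha t ht => B1_smooth h hcs (mg a ha t ht), ?_, ?_, ?_⟩
  · intro j
    refine ⟨√(n2 (iteratedDeriv j ρ)) * √(Real.exp α * K), ?_⟩
    intro a ha t ht x
    rw [hit j a ha t ht]
    refine (K2_pt hα (hj j).1 (hs' j) (mg a ha t ht) (hg.int a ha t ht) x).trans ?_
    rw [mul_assoc]
    have hb : 0 ≤ bd (α / 2) (1 / 16) x := (Real.exp_pos _).le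
    gcongr
    exact hg.le a ha t ht
  · intro j a ha x
    have : ContinuousOn (fun t => mol (iteratedDeriv j ρ) (g a t) x) (Icc 0 T) := by
      have h1 := B1_joint (hc a ha) (hj j).1 (hj j).2.1
      exact h1.comp (f := fun t : ℝ => ((t, x) : ℝ × ℝ))
        (Continuous.continuousOn (by fun_prop)) (fun t ht => ⟨ht, mem_univ _⟩)
    refine this.congr fun t ht => ?_
    simp only [hit j a ha t ht]
  · intro j
    refine ⟨√(n2 (iteratedDeriv j ρ)) * √(Real.exp α * K), ?_⟩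
    intro a ha a' ha' t ht x
    rw [hit j a ha t ht, hit j a' ha' t ht,
      ← B1_sub (hj j).1 (hj j).2.1 (mg a ha t ht) (mg a' ha' t ht)]
    refine (K2_pt hα (hj j).1 (hs' j) ((mg a ha t ht).sub (mg a' ha' t ht))
      (hg.int' a ha a' ha' t ht) x).trans ?_
    have hb : 0 ≤ bd (α / 2) (1 / 16) x := (Real.exp_pos _).le
    have hle : √(Real.exp α * ∫ z, wt α z * (g a t z - g a' t z) ^ 2) ≤
        √(Real.exp α * K) * |a - a'| := by
      have : √(Real.exp α * K) * |a - a'| = √(Real.exp α * K * |a - a'| ^ 2) := by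
        rw [Real.sqrt_mul (mul_nonneg (Real.exp_pos _).le hK) (|a - a'| ^ 2),
          Real.sqrt_sq (abs_nonneg _)]
      rw [this]
      apply Real.sqrt_le_sqrt
      rw [mul_assoc]
      exact mul_le_mul_of_nonneg_left (hg.le' a ha a' ha' t ht) (Real.exp_pos _).le
    calc √(n2 (iteratedDeriv j ρ)) *
          (√(Real.exp α * ∫ z, wt α z * (g a t z - g a' t z) ^ 2) * bd (α / 2) (1 / 16) x)
        ≤ √(n2 (iteratedDeriv j ρ)) * ((√(Real.exp α * K) * |a - a'|) * bd (α / 2) (1 / 16) x) := by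
          gcongr
      _ = _ := by ring

end H37KB

end S_H37_KB_K2

section S_H37_KB_L1

/-!
# Row L1 of MP_95be7d_PDE (150 lines)

The commutator error is small.  `v` with `IsH1 v q`, `nh v q ≤ M`, `S = 1 + M`, `|v| ≤ S`, `U = mol ρ v`, `|U| ≤ S`, `Mol r ρ`, `r ≤ 1`, `k ≥ 1`.

For `|x-z| ≤ r`: `|v z - U x| = |∫ ρ(x-z') (v z - v z') dz'| ≤ √(2 r M)` (`C1_hold`, `n2 q ≤ M`, `|z-z'| ≤ 2r`).
`e(x) = mol ρ (fl k ∘ v) x - fl k (U x) = ∫ ρ(x-z) (fl k (v z) - fl k (U x)) dz`, so by `G0_fl2` `|e(x)| ≤ S^(k-1) √(2rM) ∫ ρ(x-z) (|v z| + |U x|) dz` and (`B2_avg`)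
`e(x)² ≤ S^(2k-2) 2rM · 4 ∫ ρ(x-z) v(z)² dz`.
`e'(x) = mol ρ (v^k q) x - U(x)^k mol ρ q x = ∫ ρ(x-z) (v(z)^k - U(x)^k) q(z) dz` (`B1_deriv`, `C2_mol` for `v` and for `C1_pow`), so by `G0_pow`
`e'(x)² ≤ (k S^(k-1))² 2rM ∫ ρ(x-z) q(z)² dz` (Cauchy-Schwarz for `ρ(x-z)dz`, as in `B2_avg`, applied to `|q|`).
Integrate with the weight `wt α`: `B2_tonelli` with `κ = e^α` (`D2_slow`): `nw α e ≤ (8 S^(2k-2) M + 2 (k S^(k-1))² M) e^α r ∫ wt (v² + q²)`.
(If the product is not integrable its integral is `0`, so only upper bounds matter; but all are integrable.)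
`L1_U`: `B2_W` for `v` and `q`, `(mol ρ v)' = mol ρ q`.
-/

open MeasureTheory Filter Topology Set
open scoped ContDiff

namespace H37KB

open H98KB

theorem L1_one {r : ℝ} {ρ : ℝ → ℝ} (hρ : Mol r ρ) (x : ℝ) : ∫ z, ρ (x - z) = 1 := by
  rw [integral_sub_left_eq_self (μ := volume) ρ x]
  exact hρ.int

theorem L1_int {r : ℝ} {ρ : ℝ → ℝ} (hρ : Mol r ρ) (x : ℝ) : Integrable (fun z => ρ (x - z)) := by
  have hb := B1_shift hρ.smooth (B2_cpt hρ) x
  exact hb.1.continuous.integrable_of_hasCompactSupport hb.2.1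

theorem L1_intm {r : ℝ} {ρ g : ℝ → ℝ} (hρ : Mol r ρ) (hg : MemLp g 2 volume) (x : ℝ) :
    Integrable (fun z => ρ (x - z) * g z) := by
  have hb := B1_shift hρ.smooth (B2_cpt hρ) x
  exact A1_mul hb.2.2.1 hg

theorem L1_abs {g : ℝ → ℝ} (hg : MemLp g 2 volume) : MemLp (fun x => |g x|) 2 volume := by
  have := hg.norm
  simpa [Real.norm_eq_abs] using this

theorem L1_diff {r M : ℝ} {ρ v q : ℝ → ℝ} (hρ : Mol r ρ) (h : IsH1 v q)
    (hM : n2 q ≤ M) {x z : ℝ} (hxz : |x - z| ≤ r) :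
    |v z - mol ρ v x| ≤ √(2 * r * M) := by
  have h0 : 0 ≤ n2 q := A1_nonneg q
  have e1 : v z - mol ρ v x = ∫ z', ρ (x - z') * (v z - v z') := by
    simp_rw [mul_sub]
    rw [integral_sub ((L1_int hρ x).mul_const _) (L1_intm hρ h.1 x), integral_mul_const,
      L1_one hρ x, one_mul]
    rfl
  rw [e1]
  calc |∫ z', ρ (x - z') * (v z - v z')| ≤ ∫ z', |ρ (x - z') * (v z - v z')| :=
        abs_integral_le_integral_abs
    _ ≤ ∫ z', ρ (x - z') * √(2 * r * M) := by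
        apply integral_mono_of_nonneg (ae_of_all _ fun z' => abs_nonneg _)
          ((L1_int hρ x).mul_const _)
        refine ae_of_all _ fun z' => ?_
        show |ρ (x - z') * (v z - v z')| ≤ ρ (x - z') * √(2 * r * M)
        rw [abs_mul, abs_of_nonneg (hρ.nonneg _)]
        rcases le_or_gt r |x - z'| with h1 | h1
        · rw [hρ.supp _ h1]; simp
        · apply mul_le_mul_of_nonneg_left _ (hρ.nonneg _)
          apply Real.le_sqrt_of_sq_le
          rw [sq_abs]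
          have h2 := C1_hold h z z'
          have h3 : |z - z'| ≤ 2 * r := by
            have : z - z' = -(x - z) + (x - z') := by ring
            rw [this]
            refine (abs_add_le _ _).trans ?_
            rw [abs_neg]
            linarith
          calc (v z - v z') ^ 2 ≤ n2 q * |z - z'| := h2
            _ ≤ M * (2 * r) := mul_le_mul hM h3 (abs_nonneg _) (h0.trans hM)
            _ = 2 * r * M := by ring
    _ = √(2 * r * M) := by
        rw [integral_mul_const, L1_one hρ x, one_mul]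

theorem L1_pt {r : ℝ} {ρ g : ℝ → ℝ} (hρ : Mol r ρ) (hg : MemLp g 2 volume) (x : ℝ) :
    (∫ z, ρ (x - z) * |g z|) ^ 2 ≤ ∫ z, ρ (x - z) * (g z) ^ 2 := by
  have := (B2_avg hρ (L1_abs hg) x).2
  simp only [sq_abs] at this
  exact this

theorem L1_sup {r M : ℝ} {ρ v q : ℝ → ℝ} (hρ : Mol r ρ) (h : IsH1 v q) (hM0 : 0 ≤ M)
    (hM : nh v q ≤ M) (x : ℝ) : |v x| ≤ 1 + M ∧ |mol ρ v x| ≤ 1 + M := by
  have key : ∀ y, (v y) ^ 2 ≤ M := fun y => (C1_sup h y).trans hM
  have key2 : (mol ρ v x) ^ 2 ≤ M := by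
    refine (B2_avg hρ h.1 x).2.trans ?_
    calc ∫ z, ρ (x - z) * (v z) ^ 2 ≤ ∫ z, ρ (x - z) * M :=
          integral_mono (B2_avg hρ h.1 x).1 ((L1_int hρ x).mul_const _)
            (fun z => mul_le_mul_of_nonneg_left (key z) (hρ.nonneg _))
      _ = M := by rw [integral_mul_const, L1_one hρ x, one_mul]
  have aux : ∀ y : ℝ, y ^ 2 ≤ M → |y| ≤ 1 + M := by
    intro y hy
    apply abs_le_of_sq_le_sq _ (by positivity)
    nlinarith
  exact ⟨aux _ (key x), aux _ key2⟩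

/-- bound for `e` -/
theorem L1_e0 (k : ℕ) (hk : 1 ≤ k) {r M : ℝ} {ρ v q : ℝ → ℝ} (hM0 : 0 ≤ M) (hr : 0 < r)
    (hρ : Mol r ρ) (h : IsH1 v q) (hM : nh v q ≤ M) (x : ℝ) :
    (mol ρ (fun z => fl k (v z)) x - fl k (mol ρ v x)) ^ 2 ≤
      4 * ((1 + M) ^ (k - 1)) ^ 2 * (2 * r * M) * ∫ z, ρ (x - z) * (v z) ^ 2 := by
  have hq : n2 q ≤ M := by
    have := A1_nonneg v
    unfold nh at hM
    linarith
  set S : ℝ := 1 + M with hS
  have hS0 : 0 ≤ S := by positivity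
  set δ : ℝ := √(2 * r * M) with hδ
  have hδ0 : 0 ≤ δ := Real.sqrt_nonneg _
  have hδ2 : δ ^ 2 = 2 * r * M := Real.sq_sqrt (by positivity)
  have hfl := C1_pow h k
  have e1 : mol ρ (fun z => fl k (v z)) x - fl k (mol ρ v x) =
      ∫ z, ρ (x - z) * (fl k (v z) - fl k (mol ρ v x)) := by
    simp_rw [mul_sub]
    rw [integral_sub (L1_intm hρ hfl.1 x) ((L1_int hρ x).mul_const _), integral_mul_const,
      L1_one hρ x, one_mul]
    rfl
  have e2 : |mol ρ (fun z => fl k (v z)) x - fl k (mol ρ v x)| ≤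
      S ^ (k - 1) * δ * ((∫ z, ρ (x - z) * |v z|) + |mol ρ v x|) := by
    rw [e1]
    calc |∫ z, ρ (x - z) * (fl k (v z) - fl k (mol ρ v x))| ≤
        ∫ z, |ρ (x - z) * (fl k (v z) - fl k (mol ρ v x))| := abs_integral_le_integral_abs
      _ ≤ ∫ z, (S ^ (k - 1) * δ * (ρ (x - z) * |v z|) +
            ρ (x - z) * (S ^ (k - 1) * δ * |mol ρ v x|)) := by
          apply integral_mono_of_nonneg (ae_of_all _ fun z' => abs_nonneg _)
            (((L1_intm hρ (L1_abs h.1) x).const_mul _).add ((L1_int hρ x).mul_const _))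
          refine ae_of_all _ fun z => ?_
          show |ρ (x - z) * (fl k (v z) - fl k (mol ρ v x))| ≤ S ^ (k - 1) * δ * (ρ (x - z) * |v z|) +
            ρ (x - z) * (S ^ (k - 1) * δ * |mol ρ v x|)
          rw [abs_mul, abs_of_nonneg (hρ.nonneg _)]
          rcases le_or_gt r |x - z| with h1 | h1
          · rw [hρ.supp _ h1]; simp
          · have h2 := L1_diff hρ h hq h1.le
            have h3 := G0_fl2 k hk (L1_sup hρ h hM0 hM z).1 (L1_sup hρ h hM0 hM x).2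
            have h4 : S ^ (k - 1) * ((|v z| + |mol ρ v x|) * |v z - mol ρ v x|) ≤
                S ^ (k - 1) * ((|v z| + |mol ρ v x|) * δ) := by
              gcongr
            calc ρ (x - z) * |fl k (v z) - fl k (mol ρ v x)|
                ≤ ρ (x - z) * (S ^ (k - 1) * ((|v z| + |mol ρ v x|) * δ)) :=
                  mul_le_mul_of_nonneg_left (h3.trans h4) (hρ.nonneg _)
              _ = _ := by ring
      _ = S ^ (k - 1) * δ * ((∫ z, ρ (x - z) * |v z|) + |mol ρ v x|) := by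
          rw [integral_add ((L1_intm hρ (L1_abs h.1) x).const_mul _) ((L1_int hρ x).mul_const _),
            integral_const_mul, integral_mul_const, L1_one hρ x]
          ring
  have e3 := L1_pt hρ h.1 x
  have e4 := (B2_avg hρ h.1 x).2
  set A : ℝ := ∫ z, ρ (x - z) * (v z) ^ 2
  set I : ℝ := ∫ z, ρ (x - z) * |v z|
  set U : ℝ := mol ρ v x
  have e5 : (I + |U|) ^ 2 ≤ 4 * A := by
    nlinarith [sq_nonneg (I - |U|), sq_abs U]
  rw [← sq_abs]
  calc |mol ρ (fun z => fl k (v z)) x - fl k U| ^ 2 ≤ (S ^ (k - 1) * δ * (I + |U|)) ^ 2 := by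
        gcongr
    _ = (S ^ (k - 1)) ^ 2 * δ ^ 2 * (I + |U|) ^ 2 := by ring
    _ ≤ (S ^ (k - 1)) ^ 2 * δ ^ 2 * (4 * A) := by gcongr
    _ = _ := by rw [hδ2]; ring

/-- derivative of a mollification of an `H¹` function -/
theorem L1_dm {r : ℝ} {ρ v q : ℝ → ℝ} (hρ : Mol r ρ) (h : IsH1 v q) (x : ℝ) :
    deriv (mol ρ v) x = mol ρ q x := by
  rw [B1_deriv hρ.smooth (B2_cpt hρ) h.1]
  exact C2_mol h hρ.smooth (B2_cpt hρ) x

theorem L1_deriv (k : ℕ) {r : ℝ} {ρ v q : ℝ → ℝ} (hρ : Mol r ρ) (h : IsH1 v q) (x : ℝ) :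
    deriv (fun x => mol ρ (fun z => fl k (v z)) x - fl k (mol ρ v x)) x =
      ∫ z, ρ (x - z) * (((v z) ^ k - (mol ρ v x) ^ k) * q z) := by
  have hfl := C1_pow h k
  have hd1 : DifferentiableAt ℝ (mol ρ (fun z => fl k (v z))) x :=
    (B1_smooth hρ.smooth (B2_cpt hρ) hfl.1).differentiable (by simp) x
  have hd2 : DifferentiableAt ℝ (mol ρ v) x :=
    (B1_smooth hρ.smooth (B2_cpt hρ) h.1).differentiable (by simp) x
  have hd3 : HasDerivAt (fun x => fl k (mol ρ v x)) ((mol ρ v x) ^ k * mol ρ q x) x := by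
    have h1 : HasDerivAt (mol ρ v) (mol ρ q x) x := by
      rw [← L1_dm hρ h x]; exact hd2.hasDerivAt
    have h2 := (h1.pow (k + 1)).div_const ((k : ℝ) + 1)
    have hk1 : (k : ℝ) + 1 ≠ 0 := by positivity
    have h3 : (mol ρ v x) ^ k * mol ρ q x =
        ((k + 1 : ℕ) : ℝ) * mol ρ v x ^ (k + 1 - 1) * mol ρ q x / ((k : ℝ) + 1) := by
      rw [Nat.add_sub_cancel]
      push_cast
      field_simp
    rw [h3]
    exact h2
  have hd4 : HasDerivAt (mol ρ (fun z => fl k (v z))) (mol ρ (fun z => (v z) ^ k * q z) x) x := by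
    rw [← L1_dm hρ hfl x]; exact hd1.hasDerivAt
  have hd5 : HasDerivAt (fun x => mol ρ (fun z => fl k (v z)) x - fl k (mol ρ v x))
      (mol ρ (fun z => (v z) ^ k * q z) x - (mol ρ v x) ^ k * mol ρ q x) x := hd4.sub hd3
  rw [hd5.deriv]
  have : ∀ z, ρ (x - z) * (((v z) ^ k - (mol ρ v x) ^ k) * q z) =
      ρ (x - z) * ((v z) ^ k * q z) - (mol ρ v x) ^ k * (ρ (x - z) * q z) := by
    intro z; ring
  simp_rw [this]
  rw [integral_sub (L1_intm hρ hfl.2.1 x) ((L1_intm hρ h.2.1 x).const_mul _), integral_const_mul]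
  rfl

/-- bound for `e'` -/
theorem L1_e1 (k : ℕ) {r M : ℝ} {ρ v q : ℝ → ℝ} (hM0 : 0 ≤ M) (hr : 0 < r)
    (hρ : Mol r ρ) (h : IsH1 v q) (hM : nh v q ≤ M) (x : ℝ) :
    (deriv (fun x => mol ρ (fun z => fl k (v z)) x - fl k (mol ρ v x)) x) ^ 2 ≤
      (k * (1 + M) ^ (k - 1)) ^ 2 * (2 * r * M) * ∫ z, ρ (x - z) * (q z) ^ 2 := by
  have hq : n2 q ≤ M := by
    have := A1_nonneg v
    unfold nh at hM
    linarith
  rw [L1_deriv k hρ h x]
  set S : ℝ := 1 + M with hS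
  have hS0 : 0 ≤ S := by positivity
  set δ : ℝ := √(2 * r * M) with hδ
  have hδ0 : 0 ≤ δ := Real.sqrt_nonneg _
  have hδ2 : δ ^ 2 = 2 * r * M := Real.sq_sqrt (by positivity)
  have e2 : |∫ z, ρ (x - z) * (((v z) ^ k - (mol ρ v x) ^ k) * q z)| ≤
      k * S ^ (k - 1) * δ * ∫ z, ρ (x - z) * |q z| := by
    calc |∫ z, ρ (x - z) * (((v z) ^ k - (mol ρ v x) ^ k) * q z)| ≤
        ∫ z, |ρ (x - z) * (((v z) ^ k - (mol ρ v x) ^ k) * q z)| := abs_integral_le_integral_abs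
      _ ≤ ∫ z, k * S ^ (k - 1) * δ * (ρ (x - z) * |q z|) := by
          apply integral_mono_of_nonneg (ae_of_all _ fun z' => abs_nonneg _)
            ((L1_intm hρ (L1_abs h.2.1) x).const_mul _)
          refine ae_of_all _ fun z => ?_
          show |ρ (x - z) * (((v z) ^ k - (mol ρ v x) ^ k) * q z)| ≤
            k * S ^ (k - 1) * δ * (ρ (x - z) * |q z|)
          rw [abs_mul, abs_of_nonneg (hρ.nonneg _), abs_mul]
          rcases le_or_gt r |x - z| with h1 | h1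
          · rw [hρ.supp _ h1]; simp
          · have h2 := L1_diff hρ h hq h1.le
            have h3 := G0_pow k (L1_sup hρ h hM0 hM z).1 (L1_sup hρ h hM0 hM x).2
            have h4 : (k : ℝ) * S ^ (k - 1) * |v z - mol ρ v x| ≤ k * S ^ (k - 1) * δ := by
              gcongr
            calc ρ (x - z) * (|v z ^ k - mol ρ v x ^ k| * |q z|)
                ≤ ρ (x - z) * ((k * S ^ (k - 1) * δ) * |q z|) :=
                  mul_le_mul_of_nonneg_left
                    (mul_le_mul_of_nonneg_right (h3.trans h4) (abs_nonneg _)) (hρ.nonneg _)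
              _ = _ := by ring
      _ = k * S ^ (k - 1) * δ * ∫ z, ρ (x - z) * |q z| := integral_const_mul _ _
  have e3 := L1_pt hρ h.2.1 x
  rw [← sq_abs]
  calc |∫ z, ρ (x - z) * (((v z) ^ k - (mol ρ v x) ^ k) * q z)| ^ 2 ≤
      (k * S ^ (k - 1) * δ * ∫ z, ρ (x - z) * |q z|) ^ 2 := by gcongr
    _ = (k * S ^ (k - 1)) ^ 2 * δ ^ 2 * (∫ z, ρ (x - z) * |q z|) ^ 2 := by ring
    _ ≤ (k * S ^ (k - 1)) ^ 2 * δ ^ 2 * ∫ z, ρ (x - z) * (q z) ^ 2 := by gcongr
    _ = _ := by rw [hδ2]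

theorem L1_split {α : ℝ} {v q : ℝ → ℝ} (h : IsH1 v q)
    (hi : Integrable (fun x => wt α x * ((v x) ^ 2 + (q x) ^ 2))) :
    Integrable (fun x => wt α x * (v x) ^ 2) ∧ Integrable (fun x => wt α x * (q x) ^ 2) := by
  have hm : AEStronglyMeasurable (wt α) volume := (D2_cont α).aestronglyMeasurable
  constructor
  · refine hi.mono' (hm.mul (h.1.1.pow 2)) (ae_of_all _ fun x => ?_)
    have := D2_pos α x
    rw [Real.norm_eq_abs, abs_of_nonneg (by positivity)]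
    nlinarith [sq_nonneg (q x)]
  · refine hi.mono' (hm.mul (h.2.1.1.pow 2)) (ae_of_all _ fun x => ?_)
    have := D2_pos α x
    rw [Real.norm_eq_abs, abs_of_nonneg (by positivity)]
    nlinarith [sq_nonneg (v x)]

theorem L1_e (k : ℕ) (hk : 1 ≤ k) {α M : ℝ} (hα : 1 ≤ α) (hM : 0 ≤ M) : ∃ C : ℝ, 0 ≤ C ∧
    ∀ (r : ℝ) (ρ v q : ℝ → ℝ), 0 < r → r ≤ 1 → Mol r ρ → IsH1 v q → nh v q ≤ M →
      Integrable (fun x => wt α x * ((v x) ^ 2 + (q x) ^ 2)) →
      nw α (fun x => mol ρ (fun z => fl k (v z)) x - fl k (mol ρ v x)) ≤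
        C * r * ∫ x, wt α x * ((v x) ^ 2 + (q x) ^ 2) := by
  set c1 : ℝ := 4 * ((1 + M) ^ (k - 1)) ^ 2 with hc1
  set c2 : ℝ := (k * (1 + M) ^ (k - 1)) ^ 2 with hc2
  have hc10 : 0 ≤ c1 := by positivity
  have hc20 : 0 ≤ c2 := by positivity
  refine ⟨(c1 + c2) * (2 * M) * Real.exp α, by positivity, ?_⟩
  intro r ρ v q hr hr1 hρ h hM1 hi
  obtain ⟨hiv, hiq⟩ := L1_split h hi
  have hκ : ∀ x z, |x - z| ≤ r → wt α x ≤ Real.exp α * wt α z :=
    fun x z hxz => D2_slow hα x z (hxz.trans hr1)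
  have hW0 : ∀ x, 0 ≤ wt α x := fun x => (D2_pos α x).le
  have tv := B2_tonelli hρ (D2_cont α) hW0 hκ h.1 hiv
  have tq := B2_tonelli hρ (D2_cont α) hW0 hκ h.2.1 hiq
  set m : ℝ := 2 * r * M with hm
  have hm0 : 0 ≤ m := by positivity
  have step : nw α (fun x => mol ρ (fun z => fl k (v z)) x - fl k (mol ρ v x)) ≤
      ∫ x, (c1 * m * (wt α x * ∫ z, ρ (x - z) * (v z) ^ 2) +
        c2 * m * (wt α x * ∫ z, ρ (x - z) * (q z) ^ 2)) := by
    unfold nw
    apply integral_mono_of_nonneg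
      (ae_of_all _ fun x => mul_nonneg (hW0 x) (add_nonneg (sq_nonneg _) (sq_nonneg _)))
      ((tv.1.const_mul _).add (tq.1.const_mul _))
    refine ae_of_all _ fun x => ?_
    have a1 := L1_e0 k hk hM hr hρ h hM1 x
    have a2 := L1_e1 k hM hr hρ h hM1 x
    have a3 := mul_le_mul_of_nonneg_left (add_le_add a1 a2) (hW0 x)
    refine a3.trans (le_of_eq ?_)
    show _ = c1 * m * (wt α x * ∫ z, ρ (x - z) * (v z) ^ 2) +
        c2 * m * (wt α x * ∫ z, ρ (x - z) * (q z) ^ 2)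
    simp only [hc1, hc2, hm]
    ring
  have iv0 : 0 ≤ ∫ x, wt α x * (v x) ^ 2 := integral_nonneg fun x => mul_nonneg (hW0 x) (sq_nonneg _)
  have iq0 : 0 ≤ ∫ x, wt α x * (q x) ^ 2 := integral_nonneg fun x => mul_nonneg (hW0 x) (sq_nonneg _)
  have hsum : ∫ x, wt α x * ((v x) ^ 2 + (q x) ^ 2) =
      (∫ x, wt α x * (v x) ^ 2) + ∫ x, wt α x * (q x) ^ 2 := by
    rw [← integral_add hiv hiq]
    congr 1; ext x; ring
  rw [integral_add (tv.1.const_mul _) (tq.1.const_mul _), integral_const_mul,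
    integral_const_mul] at step
  refine step.trans ?_
  rw [hsum]
  have b1 := mul_le_mul_of_nonneg_left tv.2 (mul_nonneg hc10 hm0)
  have b2 := mul_le_mul_of_nonneg_left tq.2 (mul_nonneg hc20 hm0)
  have he : 0 < Real.exp α := Real.exp_pos α
  set X : ℝ := ∫ x, wt α x * (v x) ^ 2
  set Y : ℝ := ∫ x, wt α x * (q x) ^ 2
  have b3 : 0 ≤ c2 * m * (Real.exp α * X) := by positivity
  have b4 : 0 ≤ c1 * m * (Real.exp α * Y) := by positivity
  calc _ ≤ c1 * m * (Real.exp α * X) + c2 * m * (Real.exp α * Y) := add_le_add b1 b2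
    _ ≤ c1 * m * (Real.exp α * X) + c2 * m * (Real.exp α * Y) +
        (c2 * m * (Real.exp α * X) + c1 * m * (Real.exp α * Y)) := by linarith
    _ = _ := by simp only [hm]; ring

theorem L1_U {α r : ℝ} {ρ v q : ℝ → ℝ} (hα : 1 ≤ α) (hr : r ≤ 1) (hρ : Mol r ρ) (h : IsH1 v q)
    (hi : Integrable (fun x => wt α x * ((v x) ^ 2 + (q x) ^ 2))) :
    nw α (mol ρ v) ≤ Real.exp α * ∫ x, wt α x * ((v x) ^ 2 + (q x) ^ 2) := by
  obtain ⟨hiv, hiq⟩ := L1_split h hi
  have hκ : ∀ x z, |x - z| ≤ r → wt α x ≤ Real.exp α * wt α z :=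
    fun x z hxz => D2_slow hα x z (hxz.trans hr)
  have hW0 : ∀ x, 0 ≤ wt α x := fun x => (D2_pos α x).le
  have tv := B2_W hρ (D2_cont α) hW0 hκ h.1 hiv
  have tq := B2_W hρ (D2_cont α) hW0 hκ h.2.1 hiq
  have hsum : ∫ x, wt α x * ((v x) ^ 2 + (q x) ^ 2) =
      (∫ x, wt α x * (v x) ^ 2) + ∫ x, wt α x * (q x) ^ 2 := by
    rw [← integral_add hiv hiq]
    congr 1; ext x; ring
  have e : nw α (mol ρ v) = (∫ x, wt α x * (mol ρ v x) ^ 2) + ∫ x, wt α x * (mol ρ q x) ^ 2 := by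
    rw [← integral_add tv.1 tq.1]
    unfold nw
    congr 1; ext x
    rw [L1_dm hρ h x]; ring
  rw [e, hsum, mul_add]
  exact add_le_add tv.2 tq.2

end H37KB

end S_H37_KB_L1

section S_H37_KB_L2

/-!
# Row L2 of MP_95be7d_PDE (110 lines)

Mollification of the data.  For smooth `φ` with `|φ^(j)(x)| ≤ C e^{-4α|x|}` (`j ≤ 2`) and `Mol r ρ`, `r ≤ 1`:
`mol ρ φ x - φ x = ∫ ρ(x-z) (φ z - φ x) dz`, `|φ z - φ x| ≤ r sup_{|y-x| ≤ r} |φ'| ≤ r C e^{4α} e^{-4α|x|}`; `(mol ρ φ)' = mol (deriv ρ) φ = mol ρ φ'` (`B1_deriv`, `C2_mol` with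
`IsH1 φ φ'`), so the same bound for the derivative with `φ''`.  Hence with `wt α x ≤ 2 e^{α|x|}`: `nw α (mol ρ φ - φ) ≤ C' r² ∫ e^{α|x| - 8α|x|} ≤ C'' r²`.
-/

open MeasureTheory Filter Topology Set
open scoped ContDiff

namespace H37KB

open H98KB

theorem L2_bd (p x : ℝ) : bd p p x = Real.exp (-(p * |x|)) := by
  unfold bd
  congr 1
  rcases le_total 0 x with h | h
  · rw [max_eq_left h, max_eq_right (by linarith), abs_of_nonneg h]; ring
  · rw [max_eq_right h, max_eq_left (by linarith), abs_of_nonpos h]; ring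

theorem L2_w {α : ℝ} (hα : 1 ≤ α) (x : ℝ) :
    wt α x * (Real.exp (-(4 * α * |x|))) ^ 2 ≤ 2 * (1 + x ^ 2)⁻¹ := by
  have h1 : wt α x ≤ 2 * Real.exp (α * |x|) := by
    unfold wt
    have e1 : Real.exp (α * x) ≤ Real.exp (α * |x|) :=
      Real.exp_le_exp.2 (mul_le_mul_of_nonneg_left (le_abs_self x) (by linarith))
    have e2 : Real.exp (-x / 8) ≤ Real.exp (α * |x|) := by
      apply Real.exp_le_exp.2
      have h := neg_abs_le x
      have h' := abs_nonneg x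
      nlinarith
    linarith
  have h2 : (0 : ℝ) ≤ (Real.exp (-(4 * α * |x|))) ^ 2 := sq_nonneg _
  have h3 : 2 * Real.exp (α * |x|) * (Real.exp (-(4 * α * |x|))) ^ 2 =
      2 * (Real.exp (7 * α * |x|))⁻¹ := by
    rw [← Real.exp_nat_mul, mul_assoc, ← Real.exp_add, ← Real.exp_neg]
    congr 2
    push_cast
    ring
  have h4 : 1 + x ^ 2 ≤ Real.exp (7 * α * |x|) := by
    have h' := abs_nonneg x
    have h5 := Real.quadratic_le_exp_of_nonneg (x := 7 * |x|) (by positivity)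
    have h6 : Real.exp (7 * |x|) ≤ Real.exp (7 * α * |x|) := by
      apply Real.exp_le_exp.2
      nlinarith
    have h7 : |x| ^ 2 = x ^ 2 := sq_abs x
    nlinarith
  calc wt α x * (Real.exp (-(4 * α * |x|))) ^ 2
      ≤ 2 * Real.exp (α * |x|) * (Real.exp (-(4 * α * |x|))) ^ 2 :=
        mul_le_mul_of_nonneg_right h1 h2
    _ = 2 * (Real.exp (7 * α * |x|))⁻¹ := h3
    _ ≤ 2 * (1 + x ^ 2)⁻¹ := by
        apply mul_le_mul_of_nonneg_left _ (by norm_num)
        exact inv_anti₀ (by positivity) h4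

theorem L2_cont (α : ℝ) : Continuous (fun x : ℝ => (Real.exp (-(4 * α * |x|))) ^ 2) := by
  fun_prop

theorem L2_int {α : ℝ} (hα : 1 ≤ α) :
    Integrable (fun x => wt α x * (Real.exp (-(4 * α * |x|))) ^ 2) := by
  refine (integrable_inv_one_add_sq.const_mul 2).mono'
    ((D2_cont α).mul (L2_cont α)).aestronglyMeasurable (ae_of_all _ fun x => ?_)
  rw [Real.norm_of_nonneg (mul_nonneg (D2_pos α x).le (sq_nonneg _))]
  exact L2_w hα x

/-- pointwise bound for the mollification error -/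
theorem L2_pt {r C α : ℝ} {ρ φ : ℝ → ℝ} (hr : 0 < r) (hr1 : r ≤ 1) (hα : 1 ≤ α) (hρ : Mol r ρ)
    (hφ : Differentiable ℝ φ) (hC : ∀ y, |deriv φ y| ≤ C * Real.exp (-(4 * α * |y|))) (x : ℝ) :
    |mol ρ φ x - φ x| ≤ r * (C * Real.exp (4 * α)) * Real.exp (-(4 * α * |x|)) := by
  have hC0 : 0 ≤ C := by
    have := (abs_nonneg _).trans (hC 0)
    simpa using this
  have hcs := B2_cm hρ.smooth.continuous (B2_cpt hρ) x
  set B : ℝ := r * (C * Real.exp (4 * α)) * Real.exp (-(4 * α * |x|)) with hB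
  have hB0 : 0 ≤ B := by rw [hB]; positivity
  have hd : ∀ z, |x - z| ≤ r → |φ z - φ x| ≤ B := by
    intro z hz
    have hconv : Convex ℝ (Icc (x - r) (x + r)) := convex_Icc _ _
    have hb : ∀ y ∈ Icc (x - r) (x + r), ‖deriv φ y‖ ≤ C * Real.exp (4 * α) *
        Real.exp (-(4 * α * |x|)) := by
      intro y hy
      rw [Real.norm_eq_abs]
      refine (hC y).trans ?_
      rw [mul_assoc C, ← Real.exp_add]
      apply mul_le_mul_of_nonneg_left _ hC0
      apply Real.exp_le_exp.2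
      have h1 : |x| ≤ |y| + 1 := by
        have h2 : |x - y| ≤ r := by
          rw [abs_le]; exact ⟨by linarith [hy.2], by linarith [hy.1]⟩
        have h3 : |x| ≤ |x - y| + |y| := by
          have := abs_add_le (x - y) y
          simpa using this
        linarith
      nlinarith
    have hx : x ∈ Icc (x - r) (x + r) := ⟨by linarith, by linarith⟩
    have hz' : z ∈ Icc (x - r) (x + r) := by
      rw [abs_le] at hz
      exact ⟨by linarith [hz.2], by linarith [hz.1]⟩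
    have h := hconv.norm_image_sub_le_of_norm_deriv_le (fun y _ => hφ y) hb hx hz'
    rw [Real.norm_eq_abs, Real.norm_eq_abs] at h
    refine h.trans ?_
    rw [abs_sub_comm] at hz
    calc C * Real.exp (4 * α) * Real.exp (-(4 * α * |x|)) * |z - x|
        ≤ C * Real.exp (4 * α) * Real.exp (-(4 * α * |x|)) * r :=
          mul_le_mul_of_nonneg_left hz (by positivity)
      _ = B := by rw [hB]; ring
  have i1 : Integrable (fun z => ρ (x - z) * φ z) :=
    (hcs.1.mul hφ.continuous).integrable_of_hasCompactSupport hcs.2.mul_right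
  have i0 : Integrable (fun z => ρ (x - z)) := hcs.1.integrable_of_hasCompactSupport hcs.2
  have e0 : ∫ z, ρ (x - z) = 1 := by
    rw [← hρ.int]
    exact integral_sub_left_eq_self ρ volume x
  have e1 : mol ρ φ x - φ x = ∫ z, ρ (x - z) * (φ z - φ x) := by
    have : (fun z => ρ (x - z) * (φ z - φ x)) =
        fun z => ρ (x - z) * φ z - ρ (x - z) * φ x := by
      funext z; ring
    rw [this, integral_sub i1 (i0.mul_const _), integral_mul_const, e0, one_mul]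
    rfl
  rw [e1]
  have h := norm_integral_le_of_norm_le (f := fun z => ρ (x - z) * (φ z - φ x))
    (i0.mul_const B) (ae_of_all _ fun z => by
      rw [Real.norm_eq_abs, abs_mul, abs_of_nonneg (hρ.nonneg _)]
      by_cases hz : |x - z| ≤ r
      · exact mul_le_mul_of_nonneg_left (hd z hz) (hρ.nonneg _)
      · rw [hρ.supp _ (not_le.mp hz).le, zero_mul, zero_mul])
  rw [integral_mul_const, e0, one_mul] at h
  exact h

theorem L2 {k : ℕ} {l₀ α a₁ : ℝ} (hl : 0 < l₀) (hα : 1 ≤ α) (hαl : 8 * α * l₀ ≤ 1)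
    (ha1 : a₁ ≤ 1) (hQ : Cl (1 / 2) (1 / 2) (Qf k)) (hn : Cl (1 / 2) (1 / 2) (nf k)) :
    ∃ C : ℝ, 0 ≤ C ∧ ∀ (r : ℝ) (ρ : ℝ → ℝ), 0 < r → r ≤ 1 → Mol r ρ →
      ∀ a ∈ Icc (-a₁) a₁, nw α (fun x => mol ρ (dat k l₀ a) x - dat k l₀ a x) ≤ C * r ^ 2 := by
  obtain ⟨C1, hC1, h1⟩ := I1_bd hl hα hαl hQ hn 1
  obtain ⟨C2, hC2, h2⟩ := I1_bd hl hα hαl hQ hn 2
  obtain ⟨C3, hC3, h3⟩ := I1_int hl hα hαl hQ hn
  set I : ℝ := ∫ x, wt α x * (Real.exp (-(4 * α * |x|))) ^ 2 with hI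
  have hI0 : 0 ≤ I := integral_nonneg fun x => mul_nonneg (D2_pos α x).le (sq_nonneg _)
  refine ⟨((C1 * Real.exp (4 * α)) ^ 2 + (C2 * Real.exp (4 * α)) ^ 2) * I, by positivity, ?_⟩
  intro r ρ hr hr1 hρ a ha
  have ha' : a ∈ Icc (-1 : ℝ) 1 := ⟨by linarith [ha.1], by linarith [ha.2]⟩
  set φ : ℝ → ℝ := dat k l₀ a with hφdef
  have hs : ContDiff ℝ ∞ φ := I1_smooth hQ hn a
  have hs' : ContDiff ℝ ∞ (deriv φ) := (contDiff_infty_iff_deriv.1 hs).2
  have hd : Differentiable ℝ φ := (contDiff_infty_iff_deriv.1 hs).1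
  have hd' : Differentiable ℝ (deriv φ) := (contDiff_infty_iff_deriv.1 hs').1
  have b1 : ∀ y, |deriv φ y| ≤ C1 * Real.exp (-(4 * α * |y|)) := by
    intro y
    have := (h1 a ha' a ha' y).1
    rw [iteratedDeriv_one, L2_bd] at this
    exact this
  have b2 : ∀ y, |deriv (deriv φ) y| ≤ C2 * Real.exp (-(4 * α * |y|)) := by
    intro y
    have := (h2 a ha' a ha' y).1
    rw [iteratedDeriv_succ, iteratedDeriv_one, L2_bd] at this
    exact this
  have hint : Integrable (fun x => (φ x) ^ 2 + (deriv φ x) ^ 2) := by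
    have := (h3 (fun _ => 1) continuous_const (fun _ => zero_le_one) (D2_one hα) a ha' a ha').1
    simpa using this
  have m1 : MemLp φ 2 volume := by
    rw [memLp_two_iff_integrable_sq hs.continuous.aestronglyMeasurable]
    refine hint.mono' (hs.continuous.pow 2).aestronglyMeasurable (ae_of_all _ fun x => ?_)
    rw [Real.norm_of_nonneg (sq_nonneg _)]
    linarith [sq_nonneg (deriv φ x)]
  have m2 : MemLp (deriv φ) 2 volume := by
    rw [memLp_two_iff_integrable_sq hs'.continuous.aestronglyMeasurable]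
    refine hint.mono' (hs'.continuous.pow 2).aestronglyMeasurable (ae_of_all _ fun x => ?_)
    rw [Real.norm_of_nonneg (sq_nonneg _)]
    linarith [sq_nonneg (φ x)]
  have hH : IsH1 φ (deriv φ) := by
    refine ⟨m1, m2, fun x y => ?_⟩
    exact (intervalIntegral.integral_deriv_eq_sub (fun z _ => hd z)
      (hs'.continuous.intervalIntegrable _ _)).symm
  have hmd : deriv (mol ρ φ) = mol ρ (deriv φ) := by
    rw [B1_deriv hρ.smooth (B2_cpt hρ) m1]
    funext x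
    exact C2_mol hH hρ.smooth (B2_cpt hρ) x
  have hmdiff : Differentiable ℝ (mol ρ φ) :=
    (contDiff_infty_iff_deriv.1 (B1_smooth hρ.smooth (B2_cpt hρ) m1)).1
  have hder : ∀ x, deriv (fun x => mol ρ φ x - φ x) x = mol ρ (deriv φ) x - deriv φ x := by
    intro x
    rw [deriv_fun_sub (hmdiff x) (hd x), hmd]
  have hpt : ∀ x, wt α x * ((mol ρ φ x - φ x) ^ 2 + (deriv (fun x => mol ρ φ x - φ x) x) ^ 2) ≤
      (((C1 * Real.exp (4 * α)) ^ 2 + (C2 * Real.exp (4 * α)) ^ 2) * r ^ 2) *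
        (wt α x * (Real.exp (-(4 * α * |x|))) ^ 2) := by
    intro x
    rw [hder x]
    have p1 := L2_pt hr hr1 hα hρ hd b1 x
    have p2 := L2_pt hr hr1 hα hρ hd' b2 x
    have q1 : (mol ρ φ x - φ x) ^ 2 ≤
        (r * (C1 * Real.exp (4 * α)) * Real.exp (-(4 * α * |x|))) ^ 2 := by
      rw [← sq_abs]
      exact pow_le_pow_left₀ (abs_nonneg _) p1 2
    have q2 : (mol ρ (deriv φ) x - deriv φ x) ^ 2 ≤
        (r * (C2 * Real.exp (4 * α)) * Real.exp (-(4 * α * |x|))) ^ 2 := by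
      rw [← sq_abs]
      exact pow_le_pow_left₀ (abs_nonneg _) p2 2
    calc wt α x * ((mol ρ φ x - φ x) ^ 2 + (mol ρ (deriv φ) x - deriv φ x) ^ 2)
        ≤ wt α x * ((r * (C1 * Real.exp (4 * α)) * Real.exp (-(4 * α * |x|))) ^ 2 +
          (r * (C2 * Real.exp (4 * α)) * Real.exp (-(4 * α * |x|))) ^ 2) :=
          mul_le_mul_of_nonneg_left (add_le_add q1 q2) (D2_pos α x).le
      _ = _ := by ring
  unfold nw
  have hmono := integral_mono_of_nonneg (μ := (volume : Measure ℝ))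
    (ae_of_all _ fun x => mul_nonneg (D2_pos α x).le
      (add_nonneg (sq_nonneg (mol ρ φ x - φ x)) (sq_nonneg (deriv (fun x => mol ρ φ x - φ x) x))))
    ((L2_int hα).const_mul (((C1 * Real.exp (4 * α)) ^ 2 + (C2 * Real.exp (4 * α)) ^ 2) * r ^ 2))
    (ae_of_all _ hpt)
  refine hmono.trans (le_of_eq ?_)
  rw [integral_const_mul, ← hI]
  ring

end H37KB

end S_H37_KB_L2

section S_H37_KB_M0

/-!
# Weighted integrability of the mollified solution and of the commutator error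
-/

open MeasureTheory Filter Topology Set
open scoped ContDiff

namespace H37KB

open H98KB

theorem M0_split {α : ℝ} {f g : ℝ → ℝ} (hf : AEStronglyMeasurable f volume)
    (hg : AEStronglyMeasurable g volume)
    (hi : Integrable (fun x => wt α x * ((f x) ^ 2 + (g x) ^ 2))) :
    Integrable (fun x => wt α x * (f x) ^ 2) ∧ Integrable (fun x => wt α x * (g x) ^ 2) := by
  have mw : AEStronglyMeasurable (wt α) volume := (D2_cont α).aestronglyMeasurable
  constructor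
  · refine hi.mono' (mw.mul (hf.pow 2)) (Eventually.of_forall fun x => ?_)
    have := D2_pos α x
    rw [Real.norm_of_nonneg (by positivity)]
    have h2 : 0 ≤ wt α x * (g x) ^ 2 := by positivity
    nlinarith
  · refine hi.mono' (mw.mul (hg.pow 2)) (Eventually.of_forall fun x => ?_)
    have := D2_pos α x
    rw [Real.norm_of_nonneg (by positivity)]
    have h2 : 0 ≤ wt α x * (f x) ^ 2 := by positivity
    nlinarith

theorem M0_mol {α r : ℝ} {ρ v : ℝ → ℝ} (hα : 1 ≤ α) (hr : r ≤ 1) (hρ : Mol r ρ)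
    (hv : MemLp v 2 volume) (hi : Integrable (fun x => wt α x * (v x) ^ 2)) :
    Integrable (fun x => wt α x * (mol ρ v x) ^ 2) :=
  (B2_W hρ (D2_cont α) (fun x => (D2_pos α x).le)
    (fun x z h => D2_slow hα x z (h.trans hr)) hv hi).1

theorem int_U {α r : ℝ} {ρ v q : ℝ → ℝ} (hα : 1 ≤ α) (hr : r ≤ 1) (hρ : Mol r ρ) (h : IsH1 v q)
    (hi : Integrable (fun x => wt α x * ((v x) ^ 2 + (q x) ^ 2))) :
    Integrable (fun x => wt α x * ((mol ρ v x) ^ 2 + (deriv (mol ρ v) x) ^ 2)) := by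
  obtain ⟨i1, i2⟩ := M0_split h.1.1 h.2.1.1 hi
  have hc := B2_cpt hρ
  have e : deriv (mol ρ v) = mol ρ q := by
    rw [B1_deriv hρ.smooth hc h.1]
    funext x
    exact C2_mol h hρ.smooth hc x
  rw [e]
  have := (M0_mol hα hr hρ h.1 i1).add (M0_mol hα hr hρ h.2.1 i2)
  refine this.congr (Eventually.of_forall fun x => ?_)
  simp only [Pi.add_apply]
  ring

theorem M0_dom {α C : ℝ} {f g : ℝ → ℝ} (hg : AEStronglyMeasurable g volume)
    (hi : Integrable (fun x => wt α x * (f x) ^ 2)) (h : ∀ x, |g x| ≤ C * |f x|) :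
    Integrable (fun x => wt α x * (g x) ^ 2) := by
  have mw : AEStronglyMeasurable (wt α) volume := (D2_cont α).aestronglyMeasurable
  refine (hi.const_mul (C ^ 2)).mono' (mw.mul (hg.pow 2)) (Eventually.of_forall fun x => ?_)
  have hp := D2_pos α x
  rw [Real.norm_of_nonneg (by positivity)]
  have h1 : (g x) ^ 2 ≤ C ^ 2 * (f x) ^ 2 := by
    rw [← sq_abs (g x), ← sq_abs (f x), ← mul_pow]
    exact pow_le_pow_left₀ (abs_nonneg _) (h x) 2
  calc wt α x * (g x) ^ 2 ≤ wt α x * (C ^ 2 * (f x) ^ 2) := by gcongr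
    _ = _ := by ring

theorem int_e (k : ℕ) {α r : ℝ} {ρ v q : ℝ → ℝ} (hα : 1 ≤ α) (hr : r ≤ 1) (hρ : Mol r ρ)
    (h : IsH1 v q) (hi : Integrable (fun x => wt α x * ((v x) ^ 2 + (q x) ^ 2))) :
    Integrable (fun x => wt α x * ((mol ρ (fun z => fl k (v z)) x - fl k (mol ρ v x)) ^ 2
      + (deriv (fun y => mol ρ (fun z => fl k (v z)) y - fl k (mol ρ v y)) x) ^ 2)) := by
  obtain ⟨i1, i2⟩ := M0_split h.1.1 h.2.1.1 hi
  have hc := B2_cpt hρ
  set S : ℝ := √(nh v q) with hS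
  have bv : ∀ x, |v x| ≤ S := fun x => by
    rw [hS, ← Real.sqrt_sq_eq_abs]
    exact Real.sqrt_le_sqrt (C1_sup h x)
  have hS0 : 0 ≤ S := Real.sqrt_nonneg _
  have hp := C1_pow h k
  have j1 : Integrable (fun x => wt α x * (fl k (v x)) ^ 2) :=
    M0_dom (C := S ^ k) hp.1.1 i1 fun x => G0_fl1 k (bv x)
  have j2 : Integrable (fun x => wt α x * ((v x) ^ k * q x) ^ 2) := by
    refine M0_dom (C := S ^ k) hp.2.1.1 i2 fun x => ?_
    rw [abs_mul, abs_pow]
    gcongr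
    exact bv x
  have s1 : ContDiff ℝ ∞ (mol ρ v) := B1_smooth hρ.smooth hc h.1
  have s2 : ContDiff ℝ ∞ (mol ρ (fun z => fl k (v z))) := B1_smooth hρ.smooth hc hp.1
  have s3 : ContDiff ℝ ∞ (fun x => fl k (mol ρ v x)) := by
    unfold fl
    exact (s1.pow _).div_const _
  have bU : ∀ x, |mol ρ v x| ≤ S := by
    intro x
    have hcs := B2_avg hρ h.1 x
    have h1 : ∫ z, ρ (x - z) * (v z) ^ 2 ≤ ∫ z, ρ (x - z) * S ^ 2 := by
      obtain ⟨c1, c2, _⟩ := B1_shift hρ.smooth hc x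
      refine integral_mono hcs.1 ((c1.continuous.integrable_of_hasCompactSupport c2).mul_const _)
        fun z => ?_
      simp only
      have := hρ.nonneg (x - z)
      have h3 : (v z) ^ 2 ≤ S ^ 2 := by
        rw [← sq_abs]
        exact pow_le_pow_left₀ (abs_nonneg _) (bv z) 2
      gcongr
    have h2 : ∫ z, ρ (x - z) * S ^ 2 = S ^ 2 := by
      rw [integral_mul_const, integral_sub_left_eq_self ρ volume x, hρ.int, one_mul]
    have h3 : (mol ρ v x) ^ 2 ≤ S ^ 2 := by linarith [hcs.2]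
    exact abs_le_of_sq_le_sq h3 hS0
  have k1 := M0_mol hα hr hρ h.1 i1
  have k2 := M0_mol hα hr hρ h.2.1 i2
  have k3 := M0_mol hα hr hρ hp.1 j1
  have k4 := M0_mol hα hr hρ hp.2.1 j2
  have k5 : Integrable (fun x => wt α x * (fl k (mol ρ v x)) ^ 2) :=
    M0_dom (C := S ^ k) s3.continuous.aestronglyMeasurable k1 fun x => G0_fl1 k (bU x)
  have mq : Continuous (mol ρ q) := (B1_smooth hρ.smooth hc h.2.1).continuous
  have k6 : Integrable (fun x => wt α x * ((mol ρ v x) ^ k * mol ρ q x) ^ 2) := by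
    refine M0_dom (C := S ^ k) ((s1.continuous.pow k).mul mq).aestronglyMeasurable k2 fun x => ?_
    rw [abs_mul, abs_pow]
    gcongr
    exact bU x
  have hd : ∀ x, deriv (fun y => mol ρ (fun z => fl k (v z)) y - fl k (mol ρ v y)) x =
      mol ρ (fun z => (v z) ^ k * q z) x - (mol ρ v x) ^ k * mol ρ q x := by
    intro x
    have d2 : DifferentiableAt ℝ (mol ρ (fun z => fl k (v z))) x :=
      s2.differentiable (by simp) x
    have d3 : DifferentiableAt ℝ (fun z => fl k (mol ρ v z)) x :=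
      s3.differentiable (by simp) x
    have d1 : HasDerivAt (mol ρ v) (mol ρ q x) x := by
      have := (s1.differentiable (by simp) x).hasDerivAt
      rwa [B1_deriv hρ.smooth hc h.1, C2_mol h hρ.smooth hc x] at this
    have d4 : HasDerivAt (fun z => fl k (mol ρ v z)) ((mol ρ v x) ^ k * mol ρ q x) x := by
      unfold fl
      have h5 := (d1.pow (k + 1)).div_const ((k:ℝ) + 1)
      refine h5.congr_deriv ?_
      have : (k:ℝ) + 1 ≠ 0 := by positivity
      rw [Nat.add_sub_cancel]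
      push_cast
      field_simp
    rw [deriv_fun_sub d2 d3, d4.deriv, B1_deriv hρ.smooth hc hp.1, C2_mol hp hρ.smooth hc x]
  simp only [hd]
  have mw : Continuous (wt α) := D2_cont α
  have m4 : Continuous (mol ρ (fun z => (v z) ^ k * q z)) :=
    (B1_smooth hρ.smooth hc hp.2.1).continuous
  have tot := (((k3.add k5).add (k4.add k6)).const_mul 2)
  refine tot.mono' ?_ (Eventually.of_forall fun x => ?_)
  · exact (mw.mul (((s2.continuous.sub s3.continuous).pow 2).add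
      ((m4.sub ((s1.continuous.pow k).mul mq)).pow 2))).aestronglyMeasurable
  · have hp := D2_pos α x
    simp only [Pi.add_apply]
    rw [Real.norm_of_nonneg (by positivity)]
    nlinarith [mul_nonneg hp.le (sq_nonneg (mol ρ (fun z => fl k (v z)) x + fl k (mol ρ v x))),
      mul_nonneg hp.le (sq_nonneg (mol ρ (fun z => (v z) ^ k * q z) x
        + (mol ρ v x) ^ k * mol ρ q x))]

end H37KB

end S_H37_KB_M0

section S_H37_KB_M1

/-!
# Row M1 of MP_95be7d_PDE (150 lines)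

`ThmA`.  `hQ`, `hn` are hypotheses here.

`M, K` from `J1_main`, `K'` from `J1_WB`, `C₁` from `L1_e`, `C₂` from `L2`.  Bound `K_final = e^α K + 1`.  Given `ν > 0` choose `r ∈ (0,1]` with `C₁ r K ≤ ν`, `C₂ r² ≤ ν`,
`ρ` with `Mol r ρ` (`B3_exists`), `U a t = mol ρ (u a t)`, `e a t x = mol ρ (fl k ∘ u a t) x - fl k (mol ρ (u a t) x)`.
* `Fam U` (`K2`, `G1_u`), `Fam (mol ρ (fl k ∘ u))` (`K2`, `G1_fl`), `Fam (fl k ∘ U)` (`K1_fl`), `Fam e` (`K1_sub`): give all fields of `App` except `evol`, and the Lipschitz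
  bounds.
* `evol`: `fl k (U) + e = mol ρ (fl k ∘ u)`, so `-(fl k ∘ U)' - e' = -(mol ρ (fl k ∘ u))' = -mol ρ' (fl k ∘ u)` and the `j`-th derivative of the right side is
  `rhs (iteratedDeriv j ρ) (u a t) (fl k ∘ u a t) x` (`B1_iter`; derivatives of `iteratedDeriv j ρ` are `iteratedDeriv (j+i) ρ`); `E2_deriv` for `iteratedDeriv j ρ` with
  `G2_single`.
* `nw` bounds: `L1_U`, `L1_e`, `L2` (`u a 0 = dat a` by `init`, funext).
-/

open MeasureTheory Filter Topology Set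
open scoped ContDiff

namespace H37KB

open H98KB

theorem itit (i j : ℕ) (f : ℝ → ℝ) :
    iteratedDeriv j (iteratedDeriv i f) = iteratedDeriv (j + i) f := by
  rw [iteratedDeriv_eq_iterate, iteratedDeriv_eq_iterate, iteratedDeriv_eq_iterate,
    Function.iterate_add_apply]

theorem ititc (i j : ℕ) (f : ℝ → ℝ) :
    iteratedDeriv j (iteratedDeriv i f) = iteratedDeriv i (iteratedDeriv j f) := by
  rw [itit, itit, add_comm]

theorem flsmooth (k : ℕ) {f : ℝ → ℝ} (hf : ContDiff ℝ ∞ f) :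
    ContDiff ℝ ∞ (fun x => fl k (f x)) := by
  unfold fl
  exact (hf.pow _).div_const _

theorem evolM {T : ℝ} {k : ℕ} {φ : ℝ → ℝ} {u p : ℝ → ℝ → ℝ} {ρ : ℝ → ℝ}
    (hs : IsGlobalSol k φ u p) (h : ContDiff ℝ ∞ ρ) (hc : HasCompactSupport ρ) (j : ℕ)
    (t : ℝ) (ht : t ∈ Ioo 0 T) (x : ℝ) :
    HasDerivAt (fun τ => iteratedDeriv j (mol ρ (u τ)) x)
      (iteratedDeriv j (fun z => -iteratedDeriv 3 (mol ρ (u t)) z
        + iteratedDeriv 2 (mol ρ (u t)) z - deriv (fun z' => fl k (mol ρ (u t) z')) z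
        - deriv (fun y => mol ρ (fun z => fl k (u t z)) y - fl k (mol ρ (u t) y)) z) x) t := by
  have cu : CL2 T u := G1_u hs T
  have cf : CL2 T (fun t x => fl k (u t x)) := G1_fl hs T
  have hl := G2_single hs T
  have htI : t ∈ Icc 0 T := Ioo_subset_Icc_self ht
  have mu : MemLp (u t) 2 volume := cu.mem t htI
  have mf : MemLp (fun z => fl k (u t z)) 2 volume := cf.mem t htI
  obtain ⟨hj1, hj2, hj3⟩ := B1_test h hc j
  have key := E2_deriv cu cf hl hj1 hj2 x t ht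
  have e1 : (fun z => -iteratedDeriv 3 (mol ρ (u t)) z
        + iteratedDeriv 2 (mol ρ (u t)) z - deriv (fun z' => fl k (mol ρ (u t) z')) z
        - deriv (fun y => mol ρ (fun z => fl k (u t z)) y - fl k (mol ρ (u t) y)) z)
      = fun z => mol (iteratedDeriv 2 ρ) (u t) z - mol (iteratedDeriv 3 ρ) (u t) z
        - mol (iteratedDeriv 1 ρ) (fun z => fl k (u t z)) z := by
    funext z
    have s1 : ContDiff ℝ ∞ (mol ρ (u t)) := B1_smooth h hc mu
    have s2 : ContDiff ℝ ∞ (mol ρ (fun z => fl k (u t z))) := B1_smooth h hc mf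
    have s3 : ContDiff ℝ ∞ (fun z => fl k (mol ρ (u t) z)) := flsmooth k s1
    have d2 : DifferentiableAt ℝ (mol ρ (fun z => fl k (u t z))) z :=
      s2.differentiable (by simp) z
    have d3 : DifferentiableAt ℝ (fun z => fl k (mol ρ (u t) z)) z :=
      s3.differentiable (by simp) z
    rw [deriv_fun_sub d2 d3, B1_iter h hc mu, B1_iter h hc mu, B1_deriv h hc mf,
      iteratedDeriv_one]
    ring
  rw [e1]
  have t1 := B1_test h hc 1
  have t2 := B1_test h hc 2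
  have t3 := B1_test h hc 3
  have e2 : iteratedDeriv j (fun z => mol (iteratedDeriv 2 ρ) (u t) z
      - mol (iteratedDeriv 3 ρ) (u t) z
        - mol (iteratedDeriv 1 ρ) (fun z => fl k (u t z)) z) x
      = rhs (iteratedDeriv j ρ) (u t) (fun x => fl k (u t x)) x := by
    have c1 : ContDiff ℝ ∞ (mol (iteratedDeriv 1 ρ) (fun z => fl k (u t z))) :=
      B1_smooth t1.1 t1.2.1 mf
    have c2 : ContDiff ℝ ∞ (mol (iteratedDeriv 2 ρ) (u t)) := B1_smooth t2.1 t2.2.1 mu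
    have c3 : ContDiff ℝ ∞ (mol (iteratedDeriv 3 ρ) (u t)) := B1_smooth t3.1 t3.2.1 mu
    have le : ((j : ℕ∞) : WithTop ℕ∞) ≤ ∞ := by exact_mod_cast le_top
    have c1' : ContDiffAt ℝ j (mol (iteratedDeriv 1 ρ) (fun z => fl k (u t z))) x :=
      (c1.of_le le).contDiffAt
    have c2' : ContDiffAt ℝ j (mol (iteratedDeriv 2 ρ) (u t)) x := (c2.of_le le).contDiffAt
    have c3' : ContDiffAt ℝ j (mol (iteratedDeriv 3 ρ) (u t)) x := (c3.of_le le).contDiffAt
    have c23 : ContDiffAt ℝ j (fun z => mol (iteratedDeriv 2 ρ) (u t) z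
        - mol (iteratedDeriv 3 ρ) (u t) z) x := c2'.sub c3'
    rw [iteratedDeriv_fun_sub c23 c1', iteratedDeriv_fun_sub c2' c3',
      B1_iter t1.1 t1.2.1 mf, B1_iter t2.1 t2.2.1 mu, B1_iter t3.1 t3.2.1 mu]
    unfold rhs
    rw [ititc 1 j, ititc 2 j, ititc 3 j, iteratedDeriv_one]
  rw [e2]
  refine key.congr_of_eventuallyEq ?_
  filter_upwards [Ioo_mem_nhds ht.1 ht.2] with τ hτ
  rw [B1_iter h hc (cu.mem τ (Ioo_subset_Icc_self hτ))]

theorem thmA_of (hQ : ∀ k : ℕ, 5 ≤ k → Cl (1 / 2) (1 / 2) (Qf k))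
    (hn : ∀ k : ℕ, 5 ≤ k → Cl (1 / 2) (1 / 2) (nf k)) : ThmA := by
  intro k hk l₀ T α a₁ hl hl1 hT hα hαl ha ha1 u p h
  have hQ' := hQ k hk
  have hn' := hn k hk
  obtain ⟨M, K, hM, hK, hb, hw, hd⟩ := J1_main hl hT hα hαl ha1 hQ' hn' h
  obtain ⟨K', hK', w1, w2⟩ := J1_WB hl hT hα hαl ha1 hQ' hn' h
  obtain ⟨C1, hC1, h1⟩ := L1_e k (by omega) hα hM
  obtain ⟨C2, hC2, h2⟩ := L2 (a₁ := a₁) hl hα hαl ha1 hQ' hn'
  refine ⟨Real.exp α * K + 1, by positivity, ?_⟩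
  intro ν hν
  -- choice of the scale
  obtain ⟨r, hr, hr1, hr2, hr3⟩ : ∃ r : ℝ, 0 < r ∧ r ≤ 1 ∧ C1 * r * K ≤ ν ∧ C2 * r ^ 2 ≤ ν := by
    refine ⟨min 1 (ν / (C1 * K + C2 + 1)), by positivity, min_le_left _ _, ?_, ?_⟩
    · have hp : 0 < C1 * K + C2 + 1 := by positivity
      have hle : min 1 (ν / (C1 * K + C2 + 1)) ≤ ν / (C1 * K + C2 + 1) := min_le_right _ _
      have h3 : min 1 (ν / (C1 * K + C2 + 1)) * (C1 * K + C2 + 1) ≤ ν := by
        rwa [le_div_iff₀ hp] at hle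
      have h0 : 0 ≤ min 1 (ν / (C1 * K + C2 + 1)) := by positivity
      nlinarith
    · have hp : 0 < C1 * K + C2 + 1 := by positivity
      have hle : min 1 (ν / (C1 * K + C2 + 1)) ≤ ν / (C1 * K + C2 + 1) := min_le_right _ _
      have hle1 : min 1 (ν / (C1 * K + C2 + 1)) ≤ 1 := min_le_left _ _
      have h3 : min 1 (ν / (C1 * K + C2 + 1)) * (C1 * K + C2 + 1) ≤ ν := by
        rwa [le_div_iff₀ hp] at hle
      have h0 : 0 ≤ min 1 (ν / (C1 * K + C2 + 1)) := by positivity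
      have h4 : min 1 (ν / (C1 * K + C2 + 1)) ^ 2 ≤ min 1 (ν / (C1 * K + C2 + 1)) := by
        nlinarith
      have h5 : 0 ≤ C1 * K := by positivity
      have h6 : C2 * min 1 (ν / (C1 * K + C2 + 1)) ^ 2 ≤ C2 * min 1 (ν / (C1 * K + C2 + 1)) :=
        mul_le_mul_of_nonneg_left h4 hC2
      nlinarith
  obtain ⟨ρ, hρ⟩ := B3_exists r hr
  have hc : HasCompactSupport ρ := B2_cpt hρ
  have hs : ∀ x, 1 ≤ |x| → ρ x = 0 := fun x hx => hρ.supp x (hr1.trans hx)
  have hT0 : (0:ℝ) ∈ Icc 0 T := ⟨le_rfl, hT.le⟩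
  -- families
  have fU : Fam a₁ T α (fun a t => mol ρ (u a t)) :=
    K2 hα hK' (fun a ha => G1_u (h a ha) T) w1 hρ.smooth hs
  have fF : Fam a₁ T α (fun a t => mol ρ (fun z => fl k (u a t z))) :=
    K2 (g := fun a t z => fl k (u a t z)) hα hK' (fun a ha => G1_fl (h a ha) T) w2 hρ.smooth hs
  have fE := K1_sub hα fF (K1_fl hα fU k)
  refine ⟨fun a t => mol ρ (u a t),
    fun a t x => mol ρ (fun z => fl k (u a t z)) x - fl k (mol ρ (u a t) x), ?_, ?_⟩
  · intro a ha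
    refine ⟨⟨fU.smooth a ha, fE.smooth a ha, ?_, ?_, fun j x => fU.cont j a ha x,
      fun j x => fE.cont j a ha x,
      fun t ht => int_U hα hr1 hρ ((h a ha).h1 t ht.1) (hw a ha t ht).1,
      fun t ht => int_e k hα hr1 hρ ((h a ha).h1 t ht.1) (hw a ha t ht).1, ?_⟩, ?_, ?_⟩
    · intro j
      obtain ⟨C, hC⟩ := fU.bound j
      exact ⟨C, hC a ha⟩
    · intro j
      obtain ⟨C, hC⟩ := fE.bound j
      exact ⟨C, hC a ha⟩
    · intro j t ht x
      exact evolM (h a ha) hρ.smooth hc j t ht x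
    · intro t ht
      have hh := (h a ha).h1 t ht.1
      obtain ⟨i1, i2⟩ := hw a ha t ht
      constructor
      · have := L1_U hα hr1 hρ hh i1
        have h3 : Real.exp α * ∫ x, wt α x * ((u a t x) ^ 2 + (p a t x) ^ 2) ≤
            Real.exp α * K := mul_le_mul_of_nonneg_left i2 (Real.exp_pos _).le
        linarith
      · have h3 := h1 r ρ (u a t) (p a t) hr hr1 hρ hh (hb a ha t ht) i1
        have h4 : C1 * r * ∫ x, wt α x * ((u a t x) ^ 2 + (p a t x) ^ 2) ≤ C1 * r * K :=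
          mul_le_mul_of_nonneg_left i2 (by positivity)
        exact (h3.trans h4).trans hr2
    · have h3 := h2 r ρ hr hr1 hρ a ha
      have e : u a 0 = dat k l₀ a := funext (h a ha).init
      simp only [e]
      exact h3.trans hr3
  · intro j
    obtain ⟨C, hC⟩ := fU.lip j
    obtain ⟨C', hC'⟩ := fE.lip j
    refine ⟨max C C', ?_⟩
    intro a ha a' ha' t ht x
    have hbd : 0 ≤ bd (α / 2) (1 / 16) x := (Real.exp_pos _).le
    constructor
    · refine (hC a ha a' ha' t ht x).trans ?_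
      gcongr
      exact le_max_left _ _
    · refine (hC' a ha a' ha' t ht x).trans ?_
      gcongr
      exact le_max_right _ _

end H37KB

end S_H37_KB_M1

section S_H37_KB_N5

/-!
# Row N5 of MP_95be7d_PDE (80 lines)

Mollification of smooth decaying data in `H²`: `φ ∈ Cl α 1`: `iteratedDeriv j (mol ρ φ - φ) x = ∫ ρ(x-z) (φ^(j)(z) - φ^(j)(x)) dz` (`mol (iteratedDeriv j ρ) φ = mol ρ (φ^(j))` by `C2_mol` iterated or
`B1_iter` + integration by parts), `|φ^(j)(z) - φ^(j)(x)| ≤ r sup_{|y-x| ≤ 1} |φ^(j+1)| ≤ r C bd α 1 (x)` (`bd α 1 y ≤ e^{α+1} bd α 1 x` for `|x-y| ≤ 1`); square and integrate.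
`N5_w`: `wt α φ²` is integrable etc.: `wt α x * (bd α 1 x)² ≤ 2 e^{-|x|/2}`-like (`x ≥ 0`: `e^{αx - 2αx} + ..`; `x ≤ 0`: `e^{|x|/8 - 2|x|} + ..`).
-/

open MeasureTheory Filter Topology Set
open scoped ContDiff

namespace H37KB

open H98KB

theorem N5_iter {p q : ℝ} (j : ℕ) : ∀ {φ : ℝ → ℝ}, Cl p q φ → Cl p q (iteratedDeriv j φ) := by
  induction j with
  | zero => intro φ h; rwa [iteratedDeriv_zero]
  | succ j ih => intro φ h; rw [iteratedDeriv_succ']; exact ih (Cl_der h)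

theorem N5_bd2 {α : ℝ} (y : ℝ) : (bd α 1 y) ^ 2 = bd (α + α) (1 + 1) y := by
  rw [sq, bd_mul]

theorem N5_bd2i {α : ℝ} (hα : 1 ≤ α) : Integrable (fun y => (bd α 1 y) ^ 2) := by
  have : (fun y => (bd α 1 y) ^ 2) = bd (α + α) (1 + 1) := funext fun y => N5_bd2 y
  rw [this]
  exact bd_int (by linarith) (by norm_num)

theorem N5_mem {α : ℝ} (hα : 1 ≤ α) {φ : ℝ → ℝ} (hφ : Cl α 1 φ) : MemLp φ 2 volume := by
  rw [memLp_two_iff_integrable_sq (Cl_cont hφ).aestronglyMeasurable]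
  obtain ⟨C, hC0, hC⟩ := Cl_bnd hφ
  refine ((N5_bd2i hα).const_mul (C ^ 2)).mono' ((Cl_cont hφ).pow 2).aestronglyMeasurable ?_
  refine Eventually.of_forall fun y => ?_
  rw [Real.norm_eq_abs, abs_of_nonneg (sq_nonneg _), ← mul_pow, ← sq_abs]
  exact pow_le_pow_left₀ (abs_nonneg _) (hC y) 2

theorem N5_H1 {α : ℝ} (hα : 1 ≤ α) {φ : ℝ → ℝ} (hφ : Cl α 1 φ) : IsH1 φ (deriv φ) := by
  refine ⟨N5_mem hα hφ, N5_mem hα (Cl_der hφ), fun x y => ?_⟩
  rw [intervalIntegral.integral_deriv_eq_sub]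
  · exact fun z _ => (Cl_hd hφ z).differentiableAt
  · exact (Cl_cont (Cl_der hφ)).intervalIntegrable _ _

theorem N5_molj {α : ℝ} (hα : 1 ≤ α) (j : ℕ) : ∀ {φ : ℝ → ℝ} {ρ : ℝ → ℝ}, Cl α 1 φ →
    ContDiff ℝ ∞ ρ → HasCompactSupport ρ → ∀ x,
    mol (iteratedDeriv j ρ) φ x = mol ρ (iteratedDeriv j φ) x := by
  induction j with
  | zero => intro φ ρ _ _ _ x; rw [iteratedDeriv_zero, iteratedDeriv_zero]
  | succ j ih =>
    intro φ ρ h h1 h2 x
    rw [iteratedDeriv_succ, C2_mol (N5_H1 hα h) (B1_test h1 h2 j).1 (B1_test h1 h2 j).2.1,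
      ih (Cl_der h) h1 h2, iteratedDeriv_succ']

theorem N5_slow {α : ℝ} (hα : 1 ≤ α) {x y : ℝ} (h : |y - x| ≤ 1) :
    bd α 1 y ≤ Real.exp (α + 1) * bd α 1 x := by
  unfold bd
  rw [← Real.exp_add]
  refine Real.exp_le_exp.2 ?_
  obtain ⟨h1, h2⟩ := abs_le.1 h
  have e1 : max x 0 ≤ max y 0 + 1 := by
    refine max_le ?_ ?_
    · linarith [le_max_left y 0]
    · linarith [le_max_right y 0]
  have e2 : max (-x) 0 ≤ max (-y) 0 + 1 := by
    refine max_le ?_ ?_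
    · linarith [le_max_left (-y) 0]
    · linarith [le_max_right (-y) 0]
  have e3 : α * max x 0 ≤ α * (max y 0 + 1) := mul_le_mul_of_nonneg_left e1 (by linarith)
  linarith

theorem N5_pt {α : ℝ} (hα : 1 ≤ α) {ψ : ℝ → ℝ} (hψ : Cl α 1 ψ) : ∃ D : ℝ, 0 ≤ D ∧
    ∀ (r : ℝ) (ρ : ℝ → ℝ), 0 < r → r ≤ 1 → Mol r ρ → ∀ x,
      |mol ρ ψ x - ψ x| ≤ r * (D * bd α 1 x) := by
  obtain ⟨C, hC0, hC⟩ := Cl_bnd (Cl_der hψ)
  refine ⟨C * Real.exp (α + 1), by positivity, fun r ρ hr hr1 hρ x => ?_⟩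
  have hcs : HasCompactSupport ρ := B2_cpt hρ
  obtain ⟨s1, s2, s3, _⟩ := B1_shift hρ.smooth hcs x
  have hI : ∫ z, ρ (x - z) = 1 := by
    rw [integral_sub_left_eq_self (fun y => ρ y) volume x, hρ.int]
  have i0 : Integrable (fun z => ρ (x - z)) := s1.continuous.integrable_of_hasCompactSupport s2
  have i1 : Integrable (fun z => ρ (x - z) * ψ z) := A1_mul s3 (N5_mem hα hψ)
  have e : mol ρ ψ x - ψ x = ∫ z, ρ (x - z) * (ψ z - ψ x) := by
    have : ∫ z, ρ (x - z) * (ψ z - ψ x) = ∫ z, (ρ (x - z) * ψ z - ρ (x - z) * ψ x) :=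
      integral_congr_ae (Eventually.of_forall fun z => by simp only; ring)
    rw [this, integral_sub i1 (i0.mul_const _), integral_mul_const, hI, one_mul]
    rfl
  have hpt : ∀ z, |ρ (x - z) * (ψ z - ψ x)| ≤ ρ (x - z) * (r * (C * Real.exp (α + 1) * bd α 1 x)) := by
    intro z
    rw [abs_mul, abs_of_nonneg (hρ.nonneg _)]
    rcases le_or_gt r |x - z| with h | h
    · rw [hρ.supp _ h, zero_mul, zero_mul]
    · refine mul_le_mul_of_nonneg_left ?_ (hρ.nonneg _)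
      have hb : ∀ y ∈ uIcc x z, ‖deriv ψ y‖ ≤ C * Real.exp (α + 1) * bd α 1 x := by
        intro y hy
        rw [Real.norm_eq_abs]
        refine (hC y).trans ?_
        rw [mul_assoc]
        refine mul_le_mul_of_nonneg_left (N5_slow hα ?_) hC0
        have h3 : |y - x| ≤ |z - x| := abs_sub_left_of_mem_uIcc hy
        rw [abs_sub_comm z x] at h3
        linarith
      have hm := Convex.norm_image_sub_le_of_norm_deriv_le (f := ψ) (s := uIcc x z)
        (fun y _ => (Cl_hd hψ y).differentiableAt) hb (convex_uIcc x z) left_mem_uIcc right_mem_uIcc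
      rw [Real.norm_eq_abs, Real.norm_eq_abs] at hm
      refine hm.trans ?_
      rw [mul_comm r, abs_sub_comm z x]
      refine mul_le_mul_of_nonneg_left h.le ?_
      have := bd_pos α 1 x
      positivity
  rw [e]
  refine abs_integral_le_integral_abs.trans ?_
  have h4 : ∫ z, |ρ (x - z) * (ψ z - ψ x)| ≤
      ∫ z, ρ (x - z) * (r * (C * Real.exp (α + 1) * bd α 1 x)) := by
    refine integral_mono_of_nonneg (Eventually.of_forall fun z => abs_nonneg _)
      (i0.mul_const _) (Eventually.of_forall hpt)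
  refine h4.trans (le_of_eq ?_)
  rw [integral_mul_const, hI, one_mul]

theorem N5_der {α : ℝ} (hα : 1 ≤ α) {φ : ℝ → ℝ} (hφ : Cl α 1 φ) {r : ℝ} {ρ : ℝ → ℝ}
    (hρ : Mol r ρ) (j : ℕ) : iteratedDeriv j (fun x => mol ρ φ x - φ x) =
      fun x => mol ρ (iteratedDeriv j φ) x - iteratedDeriv j φ x := by
  have hcs : HasCompactSupport ρ := B2_cpt hρ
  have hm := N5_mem hα hφ
  have c1 : ContDiff ℝ ∞ (mol ρ φ) := B1_smooth hρ.smooth hcs hm
  have c2 : ContDiff ℝ ∞ φ := hφ.1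
  funext x
  have h := iteratedDeriv_fun_sub (n := j) (f := mol ρ φ) (g := φ) (x := x)
    ((c1.of_le (by exact_mod_cast le_top)).contDiffAt) ((c2.of_le (by exact_mod_cast le_top)).contDiffAt)
  rw [h, B1_iter hρ.smooth hcs hm, N5_molj hα j hφ hρ.smooth hcs]

theorem N5 {α : ℝ} (hα : 1 ≤ α) {φ : ℝ → ℝ} (hφ : Cl α 1 φ) : ∃ C : ℝ, 0 ≤ C ∧
    ∀ (r : ℝ) (ρ : ℝ → ℝ), 0 < r → r ≤ 1 → Mol r ρ →
      ∀ j ≤ 2, n2 (iteratedDeriv j (fun x => mol ρ φ x - φ x)) ≤ C * r ^ 2 := by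
  choose D hD0 hD using fun j : ℕ => N5_pt hα (N5_iter j hφ)
  set I : ℝ := ∫ y, (bd α 1 y) ^ 2 with hI
  have hI0 : 0 ≤ I := integral_nonneg fun y => sq_nonneg _
  refine ⟨(D 0 ^ 2 + D 1 ^ 2 + D 2 ^ 2) * I, by positivity, fun r ρ hr hr1 hρ j hj => ?_⟩
  rw [N5_der hα hφ hρ j]
  unfold n2
  have h1 : ∫ x, (mol ρ (iteratedDeriv j φ) x - iteratedDeriv j φ x) ^ 2 ≤
      ∫ x, (r * D j) ^ 2 * (bd α 1 x) ^ 2 := by
    refine integral_mono_of_nonneg (Eventually.of_forall fun x => sq_nonneg _)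
      ((N5_bd2i hα).const_mul _) (Eventually.of_forall fun x => ?_)
    simp only
    rw [← mul_pow, ← sq_abs]
    refine pow_le_pow_left₀ (abs_nonneg _) ((hD j r ρ hr hr1 hρ x).trans (le_of_eq ?_)) 2
    ring
  refine h1.trans ?_
  rw [integral_const_mul, ← hI]
  have h2 : D j ^ 2 ≤ D 0 ^ 2 + D 1 ^ 2 + D 2 ^ 2 := by
    have a0 := sq_nonneg (D 0)
    have a1 := sq_nonneg (D 1)
    have a2 := sq_nonneg (D 2)
    interval_cases j <;> linarith
  have h3 : (r * D j) ^ 2 * I = D j ^ 2 * (I * r ^ 2) := by ring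
  have h4 : (D 0 ^ 2 + D 1 ^ 2 + D 2 ^ 2) * I * r ^ 2 =
    (D 0 ^ 2 + D 1 ^ 2 + D 2 ^ 2) * (I * r ^ 2) := by ring
  rw [h3, h4]
  exact mul_le_mul_of_nonneg_right h2 (by positivity)

theorem N5_w {α : ℝ} (hα : 1 ≤ α) {φ : ℝ → ℝ} (hφ : Cl α 1 φ) :
    Integrable (fun x => wt α x * ((φ x) ^ 2 + (deriv φ x) ^ 2)) := by
  obtain ⟨C, hC0, hC⟩ := Cl_bnd hφ
  obtain ⟨C', hC0', hC'⟩ := Cl_bnd (Cl_der hφ)
  have hcont : Continuous (fun x => wt α x * ((φ x) ^ 2 + (deriv φ x) ^ 2)) :=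
    (D2_cont α).mul (((Cl_cont hφ).pow 2).add ((Cl_cont (Cl_der hφ)).pow 2))
  refine ((bd_int (p := α) (q := 1) (by linarith) one_pos).const_mul (2 * (C ^ 2 + C' ^ 2))).mono'
    hcont.aestronglyMeasurable (Eventually.of_forall fun x => ?_)
  have hw := D2_pos α x
  have hb := bd_pos α 1 x
  rw [Real.norm_eq_abs, abs_of_nonneg (by positivity)]
  have h1 : (φ x) ^ 2 ≤ C ^ 2 * (bd α 1 x) ^ 2 := by
    rw [← mul_pow, ← sq_abs]
    exact pow_le_pow_left₀ (abs_nonneg _) (hC x) 2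
  have h2 : (deriv φ x) ^ 2 ≤ C' ^ 2 * (bd α 1 x) ^ 2 := by
    rw [← mul_pow, ← sq_abs]
    exact pow_le_pow_left₀ (abs_nonneg _) (hC' x) 2
  have h3 : wt α x * (bd α 1 x) ^ 2 ≤ 2 * bd α 1 x := by
    have h4 : wt α x * bd α 1 x ≤ 2 := by
      unfold wt
      rcases le_total 0 x with h | h
      · rw [bd_of_nonneg h, add_mul, ← Real.exp_add, ← Real.exp_add]
        have e1 : Real.exp (α * x + -(α * x)) ≤ 1 := Real.exp_le_one_iff.2 (by linarith)
        have e2 : Real.exp (-x / 8 + -(α * x)) ≤ 1 := Real.exp_le_one_iff.2 (by nlinarith)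
        linarith
      · rw [bd_of_nonpos h, add_mul, ← Real.exp_add, ← Real.exp_add]
        have e1 : Real.exp (α * x + 1 * x) ≤ 1 := Real.exp_le_one_iff.2 (by nlinarith)
        have e2 : Real.exp (-x / 8 + 1 * x) ≤ 1 := Real.exp_le_one_iff.2 (by linarith)
        linarith
    calc wt α x * (bd α 1 x) ^ 2 = wt α x * bd α 1 x * bd α 1 x := by ring
      _ ≤ 2 * bd α 1 x := mul_le_mul_of_nonneg_right h4 hb.le
  calc wt α x * ((φ x) ^ 2 + (deriv φ x) ^ 2)
      ≤ wt α x * (C ^ 2 * (bd α 1 x) ^ 2 + C' ^ 2 * (bd α 1 x) ^ 2) :=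
        mul_le_mul_of_nonneg_left (add_le_add h1 h2) hw.le
    _ = (C ^ 2 + C' ^ 2) * (wt α x * (bd α 1 x) ^ 2) := by ring
    _ ≤ (C ^ 2 + C' ^ 2) * (2 * bd α 1 x) := mul_le_mul_of_nonneg_left h3 (by positivity)
    _ = 2 * (C ^ 2 + C' ^ 2) * bd α 1 x := by ring

end H37KB

end S_H37_KB_N5

section S_H37_KB_N6

/-!
# Row N6 of MP_95be7d_PDE (110 lines)

Weighted bounds for a single solution with data `φ ∈ Cl α 1` (as in J1, without the parameter `a`): `M` from `G1_bdd`; `W n` from `D2_approx`, `c = 13(α+1)³`; `H1` for the pair `u`, `0` (`G2_zero`):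
`∫ W n (u² + p²)(t) ≤ e^{CT} ∫ W n (φ² + φ'²) ≤ e^{CT} ∫ wt (φ² + φ'²) =: K` (`init`, `C2_data`, `N5_w`, `W n ≤ wt`); `F3` as `n → ∞`.
`N6_WB` puts it in the form used by `K2` with the constant family (`a₁ = 0`, `u a = u`): all differences are `0`; `|fl k u| ≤ (1+M)^k |u|`.
(Look at the proof of J1, file Pool/Agent/H37/KB/J1.lean.)
-/

open MeasureTheory Filter Topology Set
open scoped ContDiff

namespace H37KB

open H98KB

theorem N6_aux {c α K : ℝ} {W : ℕ → ℝ → ℝ} (hW : ∀ n, Wt c (W n))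
    (hlim : ∀ x, Tendsto (fun n => W n x) atTop (𝓝 (wt α x))) {f g : ℝ → ℝ}
    (hf : MemLp f 2 volume) (hg : MemLp g 2 volume)
    (hb : ∀ n, ∫ x, W n x * ((f x) ^ 2 + (g x) ^ 2) ≤ K) :
    Integrable (fun x => wt α x * ((f x) ^ 2 + (g x) ^ 2)) ∧
      ∫ x, wt α x * ((f x) ^ 2 + (g x) ^ 2) ≤ K := by
  refine F3 (F := fun n x => W n x * ((f x) ^ 2 + (g x) ^ 2)) ?_ ?_ hb ?_
  · intro n x
    exact mul_nonneg ((hW n).pos x).le (by positivity)
  · intro n
    obtain ⟨B, hB⟩ := (hW n).bdd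
    have hB' : ∀ x, |W n x| ≤ B := fun x => by
      rw [abs_of_pos ((hW n).pos x)]
      exact hB x
    have h1 := (A1_W (hW n).smooth.continuous hB' hf).1
    have h2 := (A1_W (hW n).smooth.continuous hB' hg).1
    refine (h1.add h2).congr (Eventually.of_forall fun x => ?_)
    simp only [Pi.add_apply]
    ring
  · intro x
    exact (hlim x).mul_const _

theorem N6_key {α : ℝ} {F G q : ℝ → ℝ} {c : ℝ} (hF : AEStronglyMeasurable F volume)
    (hG : Integrable (fun x => wt α x * ((G x) ^ 2 + (q x) ^ 2)))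
    (hle : ∀ x, |F x| ≤ c * |G x|) :
    Integrable (fun x => wt α x * (F x) ^ 2) ∧
      ∫ x, wt α x * (F x) ^ 2 ≤ c ^ 2 * ∫ x, wt α x * ((G x) ^ 2 + (q x) ^ 2) := by
  have hwp : ∀ x, 0 < wt α x := D2_pos α
  have h0 : ∀ x, 0 ≤ wt α x * (F x) ^ 2 := fun x => mul_nonneg (hwp x).le (sq_nonneg _)
  have h1 : ∀ x, wt α x * (F x) ^ 2 ≤ c ^ 2 * (wt α x * ((G x) ^ 2 + (q x) ^ 2)) := by
    intro x
    have h3 : (F x) ^ 2 ≤ c ^ 2 * (G x) ^ 2 := by
      rw [← sq_abs (F x), ← sq_abs (G x), ← mul_pow]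
      exact pow_le_pow_left₀ (abs_nonneg _) (hle x) 2
    have h4 : (F x) ^ 2 ≤ c ^ 2 * ((G x) ^ 2 + (q x) ^ 2) := by
      nlinarith [mul_nonneg (sq_nonneg c) (sq_nonneg (q x))]
    calc wt α x * (F x) ^ 2 ≤ wt α x * (c ^ 2 * ((G x) ^ 2 + (q x) ^ 2)) :=
          mul_le_mul_of_nonneg_left h4 (hwp x).le
      _ = c ^ 2 * (wt α x * ((G x) ^ 2 + (q x) ^ 2)) := by ring
  have hi : Integrable (fun x => wt α x * (F x) ^ 2) := by
    refine Integrable.mono' (hG.const_mul (c ^ 2))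
      ((D2_cont α).aestronglyMeasurable.mul (hF.pow 2)) (Eventually.of_forall fun x => ?_)
    rw [Real.norm_eq_abs, abs_of_nonneg (h0 x)]
    exact h1 x
  refine ⟨hi, ?_⟩
  rw [← integral_const_mul]
  exact integral_mono hi (hG.const_mul _) h1

theorem N6_full {k : ℕ} {α T : ℝ} (hT : 0 < T) (hα : 1 ≤ α) {φ : ℝ → ℝ} (hφ : Cl α 1 φ)
    {u p : ℝ → ℝ → ℝ} (h : IsGlobalSol k φ u p) : ∃ M K : ℝ, 0 ≤ M ∧ 0 ≤ K ∧
    (∀ t ∈ Icc 0 T, nh (u t) (p t) ≤ M) ∧ ∀ t ∈ Icc 0 T,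
    Integrable (fun x => wt α x * ((u t x) ^ 2 + (p t x) ^ 2)) ∧
      ∫ x, wt α x * ((u t x) ^ 2 + (p t x) ^ 2) ≤ K := by
  obtain ⟨M, hM, hMb⟩ := G1_bdd h T
  have hc : (0 : ℝ) ≤ 13 * (α + 1) ^ 3 := by
    have : 0 ≤ α + 1 := by linarith
    positivity
  obtain ⟨C, hC, hH⟩ := H1 k hc hM
  obtain ⟨W, hW, hWle, hWlim⟩ := D2_approx α hα
  have hE : 0 ≤ Real.exp (C * T) := (Real.exp_pos _).le
  have hK0 : 0 ≤ ∫ x, wt α x * ((φ x) ^ 2 + (deriv φ x) ^ 2) :=
    integral_nonneg fun x => mul_nonneg (D2_pos α x).le (by positivity)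
  refine ⟨M, Real.exp (C * T) * ∫ x, wt α x * ((φ x) ^ 2 + (deriv φ x) ^ 2), hM,
    mul_nonneg hE hK0, hMb, ?_⟩
  intro t ht
  refine N6_aux hW hWlim (h.h1 t ht.1).1 (h.h1 t ht.1).2.1 fun n => ?_
  have h0 : ∀ t ∈ Icc 0 T, nh ((fun _ _ => (0 : ℝ)) t) ((fun _ _ => (0 : ℝ)) t) ≤ M := by
    intro t _
    simpa [nh, n2] using hM
  have h1 := hH (W n) (hW n) _ _ u p (fun _ _ => 0) (fun _ _ => 0) h
    (G2_zero k) T hT.le hMb h0 t ht
  simp only [sub_zero] at h1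
  refine h1.trans (mul_le_mul_of_nonneg_left ?_ hE)
  have hu0 : u 0 = φ := funext h.init
  have hp0 : ∀ᵐ x : ℝ, p 0 x = deriv φ x := by
    have h2 := h.h1 0 le_rfl
    rw [hu0] at h2
    exact C2_data h2 hφ.1
  have h2 : ∫ x, W n x * ((u 0 x) ^ 2 + (p 0 x) ^ 2) =
      ∫ x, W n x * ((φ x) ^ 2 + (deriv φ x) ^ 2) := by
    refine integral_congr_ae ?_
    filter_upwards [hp0] with x hx
    rw [hu0, hx]
  rw [h2]
  refine integral_mono_of_nonneg (Eventually.of_forall fun x => ?_) (N5_w hα hφ)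
    (Eventually.of_forall fun x => ?_)
  · exact mul_nonneg ((hW n).pos x).le (by positivity)
  · exact mul_le_mul_of_nonneg_right (hWle n x) (by positivity)

theorem N6_main {k : ℕ} {α T : ℝ} (hT : 0 < T) (hα : 1 ≤ α) {φ : ℝ → ℝ} (hφ : Cl α 1 φ)
    {u p : ℝ → ℝ → ℝ} (h : IsGlobalSol k φ u p) : ∃ K : ℝ, 0 ≤ K ∧ ∀ t ∈ Icc 0 T,
    Integrable (fun x => wt α x * ((u t x) ^ 2 + (p t x) ^ 2)) ∧
      ∫ x, wt α x * ((u t x) ^ 2 + (p t x) ^ 2) ≤ K := by
  obtain ⟨M, K, -, hK, -, h1⟩ := N6_full hT hα hφ h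
  exact ⟨K, hK, h1⟩

theorem N6_WB {k : ℕ} {α T : ℝ} (hT : 0 < T) (hα : 1 ≤ α) {φ : ℝ → ℝ} (hφ : Cl α 1 φ)
    {u p : ℝ → ℝ → ℝ} (h : IsGlobalSol k φ u p) : ∃ K : ℝ, 0 ≤ K ∧
    WB 0 T α K (fun _ => u) ∧ WB 0 T α K (fun _ t x => fl k (u t x)) := by
  obtain ⟨M, K, hM, hK, hMb, h1⟩ := N6_full hT hα hφ h
  have hS : (0 : ℝ) ≤ ((1 + M) ^ k) ^ 2 := by positivity
  have hKK : K ≤ (1 + ((1 + M) ^ k) ^ 2) * K := by nlinarith
  have hKK' : ((1 + M) ^ k) ^ 2 * K ≤ (1 + ((1 + M) ^ k) ^ 2) * K := by nlinarith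
  have hK2 : 0 ≤ (1 + ((1 + M) ^ k) ^ 2) * K := by positivity
  have hm : ∀ t ∈ Icc 0 T, MemLp (u t) 2 volume := fun t ht => (h.h1 t ht.1).1
  have hmf : ∀ t ∈ Icc 0 T, MemLp (fun x => fl k (u t x)) 2 volume := fun t ht =>
    (G1_fl h T).mem t ht
  have hS1 : ∀ t ∈ Icc 0 T, ∀ x, |u t x| ≤ 1 + M := fun t ht x =>
    G1_le h ht.1 hM (hMb t ht) x
  have hone : ∀ f : ℝ → ℝ, ∀ x, |f x| ≤ 1 * |f x| := fun f x => by rw [one_mul]
  have hz : ∀ f : ℝ → ℝ, (fun x => wt α x * (f x - f x) ^ 2) = fun _ => 0 := fun f => by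
    funext x
    rw [sub_self]
    ring
  refine ⟨(1 + ((1 + M) ^ k) ^ 2) * K, hK2, ?_, ?_⟩
  · constructor
    · intro a _ t ht
      exact (N6_key (hm t ht).1 (h1 t ht).1 (hone _)).1
    · intro a _ t ht
      have h3 := (N6_key (hm t ht).1 (h1 t ht).1 (hone _)).2
      rw [one_pow, one_mul] at h3
      exact h3.trans ((h1 t ht).2.trans hKK)
    · intro a _ a' _ t _
      rw [hz]
      exact integrable_zero _ _ _
    · intro a _ a' _ t _
      rw [hz, integral_zero]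
      exact mul_nonneg hK2 (sq_nonneg _)
  · constructor
    · intro a _ t ht
      exact (N6_key (hmf t ht).1 (h1 t ht).1 (fun x => G0_fl1 k (hS1 t ht x))).1
    · intro a _ t ht
      have h3 := (N6_key (hmf t ht).1 (h1 t ht).1 (fun x => G0_fl1 k (hS1 t ht x))).2
      exact h3.trans ((mul_le_mul_of_nonneg_left (h1 t ht).2 hS).trans hKK')
    · intro a _ a' _ t _
      rw [hz]
      exact integrable_zero _ _ _
    · intro a _ a' _ t _
      rw [hz, integral_zero]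
      exact mul_nonneg hK2 (sq_nonneg _)

end H37KB

end S_H37_KB_N6

section S_H37_KB_M2

/-!
# Theorem A, unconditional
-/

namespace H37KB

open H98KB

theorem thmA : ThmA :=
  thmA_of
    (fun _ hk => Cl_mono (Cl_Qf (by omega)) (by norm_num) (by norm_num))
    (fun _ hk => Cl_nf (by omega) (by norm_num))

end H37KB

end S_H37_KB_M2
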