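import Mathlib
import Pool.Agent.H98.BU.G01
import Pool.Agent.H98.BU.G02
import Pool.Agent.H98.BU.G19
import Pool.Agent.H98.BU.G21
import Pool.Agent.H98.BU.G22
import Pool.Agent.H98.BU.G23
import Pool.Agent.H98.BU.G24
import Pool.Agent.H98.BU.G28

/-! Blow-up for `u_t + u^k u_x + u_xxx - u_xx = 0`, part G29: this file joins several modules
to save build time (`Pool/Agent/H98/{KB,KC}`, `H72/{KB,KC}`, `H68/KC`, `H37/{KB,KC}`). -/

section S_H72_KC_CV4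

/-!
# Row CV4: continuity and time derivative of the virial functional for bounded families

`Vf 4 η γ B δ ε = 1/2 ∫ Psi 4 η γ B y * (vf 4 δ ε y)^2`, `vf 4 δ ε = Sm δ (Lop 4 ε)`, `DV .. ε D = ∫ Psi * (vf ε * vf D)`.
Proof.  `|Lop 4 ε| ≤ |ε''| + |ε| + Q^4 |ε| ≤ C` (`F.bd 0`, `F.bd 2`; lemmas `ConV_Lop_bound`, `DerV_Lop_bd`, `ConV_Lop_cont`); `Sm δ h y = ∫ ker(z) h(y - z) dz` with
`ker = exp(-|z|/√δ)/(2√δ)` integrable, so `|vf| ≤ C'` and `vf 4 δ (ε t)` is continuous in `y` (`ConV_Sm_bound`, `vf_bound`).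
Pointwise in `y`: `t ↦ vf 4 δ (ε t) y` is continuous (`cInt` in the variable `z`), and has derivative `vf 4 δ (D t) y / (r t)^24`
(`dInt` in the variable `z`, integrand `ker z * Lop 4 (ε τ) (y - z)`, derivative `ker z * Lop 4 (D τ) (y-z)/r^24` by `F.ev 0`, `F.ev 2`).
Then `cInt`/`dInt` in `y` for `Psi * vf^2` (`|Psi| ≤ C exp(-c|y|)` integrable: `Psi_bound`), derivative `2 Psi vf(ε) vf(D) / r^24`.
Models: `con_V` (`KB/ConV.lean`), `der_V` (`KB/DerV.lean`), which do the same for exponentially decaying families.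
-/

open MeasureTheory Filter Topology Set
open scoped ContDiff

namespace H72KC

open H98KB H72KB H68KC

theorem CV4_bdd {θ : ℝ} {S : Set ℝ} {r : ℝ → ℝ} {ε : ℝ → ℝ → ℝ} (F : Fae θ S r ε) :
    ∃ C : ℝ, 0 ≤ C ∧ ∀ t ∈ S, (∀ y, |iteratedDeriv 0 (ε t) y| ≤ C) ∧
      (∀ y, |iteratedDeriv 2 (ε t) y| ≤ C) := by
  obtain ⟨A, hA, hA'⟩ := F.bd 0
  obtain ⟨B, hB, hB'⟩ := F.bd 2
  refine ⟨max A B, le_max_of_le_left hA, fun t ht => ⟨fun y => ?_, fun y => ?_⟩⟩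
  · exact (hA' t ht y).trans (le_max_left _ _)
  · exact (hB' t ht y).trans (le_max_right _ _)

theorem CV4_vc {θ : ℝ} {S : Set ℝ} {r : ℝ → ℝ} {ε : ℝ → ℝ → ℝ} (F : Fae θ S r ε) {δ : ℝ}
    (hδ : 0 < δ) (y : ℝ) : ContinuousOn (fun t => vf 4 δ (ε t) y) S := by
  obtain ⟨K, hK0, hK⟩ := DerV_Qpow (k := 4) (by norm_num)
  obtain ⟨C, hC0, hC⟩ := CV4_bdd F
  have h1 : ContinuousOn (fun t => ∫ w, ConVker δ w * Lop 4 (ε t) (y - w)) S := by
    refine cInt (g := fun w => ConVker δ w * ((2 + K) * C)) ((ConV_ker_int hδ).mul_const _)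
      ?_ ?_ ?_
    · intro t ht
      exact (ConV_ker_cont δ).mul ((ConV_Lop_cont (by norm_num) (F.sm t ht)).comp
        (continuous_const.sub continuous_id))
    · intro t ht w
      rw [abs_mul, abs_of_nonneg (ConV_ker_nonneg δ w)]
      exact mul_le_mul_of_nonneg_left (DerV_Lop_bd hK (hC t ht).1 (hC t ht).2 _)
        (ConV_ker_nonneg δ w)
    · intro w
      refine ContinuousOn.mul continuousOn_const ?_
      have e0 := F.co 0 (y - w)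
      have e2 := F.co 2 (y - w)
      have e3 : (fun t => Lop 4 (ε t) (y - w)) = fun t => -iteratedDeriv 2 (ε t) (y - w) +
          iteratedDeriv 0 (ε t) (y - w) - (Qf 4 (y - w)) ^ 4 * iteratedDeriv 0 (ε t) (y - w) := by
        funext t
        exact DerV_Lop 4 (ε t) (y - w)
      rw [e3]
      exact (e2.neg.add e0).sub (continuousOn_const.mul e0)
  exact h1

theorem con_V4 {θ : ℝ} {S : Set ℝ} {r : ℝ → ℝ} {ε : ℝ → ℝ → ℝ} (F : Fae θ S r ε) {B δ : ℝ}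
    (hB : 0 < B) (hδ : 0 < δ) (η γ : ℝ) :
    ContinuousOn (fun t => Vf 4 η γ B δ (ε t)) S := by
  obtain ⟨C, hC0, hC⟩ := CV4_bdd F
  obtain ⟨C₁, hC1, hvf⟩ := vf_bound (k := 4) (δ := δ) (by norm_num) hδ
  obtain ⟨hP1, hP2, -⟩ := Psi_bound 4 η γ hB
  have hb0 : ∀ t ∈ S, ∀ y, |ε t y| ≤ C := by
    intro t ht y
    have h := (hC t ht).1 y
    rwa [DerV_it0] at h
  unfold Vf
  refine ContinuousOn.mul continuousOn_const ?_
  refine cInt (g := fun y => |Psi 4 η γ B y| * (C₁ * C) ^ 2) (hP2.abs.mul_const _) ?_ ?_ ?_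
  · intro t ht
    exact hP1.mul ((hvf C (ε t) (F.sm t ht) (hb0 t ht) (hC t ht).2).1.pow 2)
  · intro t ht y
    rw [abs_mul, abs_pow]
    exact mul_le_mul_of_nonneg_left (pow_le_pow_left₀ (abs_nonneg _)
      ((hvf C (ε t) (F.sm t ht) (hb0 t ht) (hC t ht).2).2 y) 2) (abs_nonneg _)
  · intro y
    exact continuousOn_const.mul ((CV4_vc F hδ y).pow 2)

theorem CV4_bdd2 {θ : ℝ} {J : Set ℝ} {r w : ℝ → ℝ} {ε D : ℝ → ℝ → ℝ} (F : Fle θ J r w ε D) :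
    ∃ C : ℝ, 0 ≤ C ∧ ∀ t ∈ J, (∀ y, |iteratedDeriv 0 (ε t) y| ≤ C) ∧
      (∀ y, |iteratedDeriv 2 (ε t) y| ≤ C) ∧ (∀ y, |iteratedDeriv 0 (D t) y| ≤ C) ∧
      (∀ y, |iteratedDeriv 2 (D t) y| ≤ C) := by
  obtain ⟨A, hA, hA'⟩ := F.bd 0
  obtain ⟨B, hB, hB'⟩ := F.bd 2
  refine ⟨max A B, le_max_of_le_left hA,
    fun t ht => ⟨fun y => ?_, fun y => ?_, fun y => ?_, fun y => ?_⟩⟩
  · exact (hA' t ht y).1.trans (le_max_left _ _)
  · exact (hB' t ht y).1.trans (le_max_right _ _)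
  · exact (hA' t ht y).2.trans (le_max_left _ _)
  · exact (hB' t ht y).2.trans (le_max_right _ _)

theorem CV4_Lop_der {θ : ℝ} {J : Set ℝ} {r w : ℝ → ℝ} {ε D : ℝ → ℝ → ℝ} (F : Fle θ J r w ε D)
    {t : ℝ} (ht : t ∈ J) (x : ℝ) :
    HasDerivAt (fun τ => Lop 4 (ε τ) x) (Lop 4 (D t) x / (r t) ^ 24) t := by
  have h0 := F.ev 0 t ht x
  have h2 := F.ev 2 t ht x
  have h := (h2.neg.add h0).sub (h0.const_mul ((Qf 4 x) ^ 4))
  have e1 : (fun τ => Lop 4 (ε τ) x) = fun τ => -iteratedDeriv 2 (ε τ) x + iteratedDeriv 0 (ε τ) x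
      - (Qf 4 x) ^ 4 * iteratedDeriv 0 (ε τ) x := by
    funext τ
    exact DerV_Lop 4 (ε τ) x
  rw [e1, DerV_Lop]
  refine h.congr_deriv ?_
  ring

theorem CV4_r {θ : ℝ} {J : Set ℝ} {r w : ℝ → ℝ} {ε D : ℝ → ℝ → ℝ} (F : Fle θ J r w ε D)
    {t : ℝ} (ht : t ∈ J) : 0 < θ ^ 24 ∧ θ ^ 24 ≤ (r t) ^ 24 ∧ 0 < (r t) ^ 24 := by
  have h1 : 0 < θ ^ 24 := pow_pos F.θ0 24
  have h2 : θ ^ 24 ≤ (r t) ^ 24 := pow_le_pow_left₀ F.θ0.le (F.lo t ht) 24
  exact ⟨h1, h2, lt_of_lt_of_le h1 h2⟩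

theorem CV4_div {θ : ℝ} {J : Set ℝ} {r w : ℝ → ℝ} {ε D : ℝ → ℝ → ℝ} (F : Fle θ J r w ε D)
    {t : ℝ} (ht : t ∈ J) {v M : ℝ} (hM : 0 ≤ M) (h : |v| ≤ M) :
    |v / (r t) ^ 24| ≤ M / θ ^ 24 := by
  obtain ⟨h1, h2, h3⟩ := CV4_r F ht
  rw [abs_div, abs_of_pos h3]
  exact div_le_div₀ hM h h1 h2

theorem CV4_vf_der {θ : ℝ} {J : Set ℝ} {r w : ℝ → ℝ} {ε D : ℝ → ℝ → ℝ} (F : Fle θ J r w ε D)
    {δ : ℝ} (hδ : 0 < δ) {t : ℝ} (ht : t ∈ J) (y : ℝ) :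
    HasDerivAt (fun τ => vf 4 δ (ε τ) y) (vf 4 δ (D t) y / (r t) ^ 24) t := by
  obtain ⟨K, hK0, hK⟩ := DerV_Qpow (k := 4) (by norm_num)
  obtain ⟨C, hC0, hC⟩ := CV4_bdd2 F
  have hM : 0 ≤ (2 + K) * C := mul_nonneg (by linarith) hC0
  have hθ24 : 0 < θ ^ 24 := pow_pos F.θ0 24
  have hk4 : 1 ≤ 4 := by norm_num
  obtain ⟨-, -, h3⟩ := dInt F.op
    (G := fun τ z => ConVker δ z * Lop 4 (ε τ) (y - z))
    (G' := fun τ z => ConVker δ z * (Lop 4 (D τ) (y - z) / (r τ) ^ 24))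
    (g := fun z => ConVker δ z * ((2 + K) * C + (2 + K) * C / θ ^ 24))
    ((ConV_ker_int hδ).mul_const _)
    (fun τ hτ => (ConV_ker_cont δ).mul ((ConV_Lop_cont hk4 (F.sm τ hτ)).comp
      (continuous_const.sub continuous_id)))
    (fun τ hτ => (ConV_ker_cont δ).mul (((ConV_Lop_cont hk4 (F.sd τ hτ)).comp
      (continuous_const.sub continuous_id)).div_const _))
    (fun τ hτ z => by
      rw [abs_mul, abs_of_nonneg (ConV_ker_nonneg δ z)]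
      refine mul_le_mul_of_nonneg_left ?_ (ConV_ker_nonneg δ z)
      have h := DerV_Lop_bd hK (hC τ hτ).1 (hC τ hτ).2.1 (y - z)
      have h2 : 0 ≤ (2 + K) * C / θ ^ 24 := div_nonneg hM hθ24.le
      linarith)
    (fun τ hτ z => by
      rw [abs_mul, abs_of_nonneg (ConV_ker_nonneg δ z)]
      refine mul_le_mul_of_nonneg_left ?_ (ConV_ker_nonneg δ z)
      have h := CV4_div F hτ hM (DerV_Lop_bd hK (hC τ hτ).2.2.1 (hC τ hτ).2.2.2 (y - z))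
      linarith)
    (fun τ hτ z => (CV4_Lop_der F hτ (y - z)).const_mul (ConVker δ z)) ht
  have e1 : (fun τ => vf 4 δ (ε τ) y) = fun τ => ∫ z, ConVker δ z * Lop 4 (ε τ) (y - z) := by
    funext τ
    rfl
  have e2 : (∫ z, ConVker δ z * (Lop 4 (D t) (y - z) / (r t) ^ 24)) =
      vf 4 δ (D t) y / (r t) ^ 24 := by
    have e3 : vf 4 δ (D t) y = ∫ z, ConVker δ z * Lop 4 (D t) (y - z) := rfl
    rw [e3, ← integral_div]
    refine integral_congr_ae (Eventually.of_forall fun z => ?_)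
    simp only
    ring
  rw [e1, ← e2]
  exact h3

theorem der_V4 {θ : ℝ} {J : Set ℝ} {r w : ℝ → ℝ} {ε D : ℝ → ℝ → ℝ} (F : Fle θ J r w ε D) {B δ : ℝ}
    (hB : 0 < B) (hδ : 0 < δ) (η γ : ℝ) {t : ℝ} (ht : t ∈ J) :
    HasDerivAt (fun τ => Vf 4 η γ B δ (ε τ)) (DV 4 η γ B δ (ε t) (D t) / (r t) ^ 24) t := by
  obtain ⟨C, hC0, hC⟩ := CV4_bdd2 F
  obtain ⟨C₁, hC1, hv⟩ := vf_bound (k := 4) (δ := δ) (by norm_num) hδ
  obtain ⟨hPc, hPi, -⟩ := Psi_bound 4 η γ hB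
  have hE : ∀ τ ∈ J, Continuous (vf 4 δ (ε τ)) ∧ ∀ y, |vf 4 δ (ε τ) y| ≤ C₁ * C := by
    intro τ hτ
    refine hv C (ε τ) (F.sm τ hτ) (fun y => ?_) (hC τ hτ).2.1
    have h := (hC τ hτ).1 y
    rwa [DerV_it0] at h
  have hZ : ∀ τ ∈ J, Continuous (vf 4 δ (D τ)) ∧ ∀ y, |vf 4 δ (D τ) y| ≤ C₁ * C := by
    intro τ hτ
    refine hv C (D τ) (F.sd τ hτ) (fun y => ?_) (hC τ hτ).2.2.2
    have h := (hC τ hτ).2.2.1 y
    rwa [DerV_it0] at h
  have hM : 0 ≤ C₁ * C := mul_nonneg hC1 hC0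
  have hθ24 : 0 < θ ^ 24 := pow_pos F.θ0 24
  have hA : 0 ≤ (C₁ * C) ^ 2 := sq_nonneg _
  have hB' : 0 ≤ 2 * (C₁ * C) * (C₁ * C / θ ^ 24) :=
    mul_nonneg (mul_nonneg (by norm_num) hM) (div_nonneg hM hθ24.le)
  obtain ⟨-, -, h3⟩ := dInt F.op
    (G := fun τ y => Psi 4 η γ B y * (vf 4 δ (ε τ) y) ^ 2)
    (G' := fun τ y => Psi 4 η γ B y * (2 * vf 4 δ (ε τ) y * (vf 4 δ (D τ) y / (r τ) ^ 24)))
    (g := fun y => |Psi 4 η γ B y| * ((C₁ * C) ^ 2 + 2 * (C₁ * C) * (C₁ * C / θ ^ 24)))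
    (hPi.abs.mul_const _)
    (fun τ hτ => hPc.mul ((hE τ hτ).1.pow 2))
    (fun τ hτ => hPc.mul (((hE τ hτ).1.const_mul 2).mul ((hZ τ hτ).1.div_const _)))
    (fun τ hτ y => by
      rw [abs_mul, abs_pow]
      refine mul_le_mul_of_nonneg_left ?_ (abs_nonneg _)
      have h := pow_le_pow_left₀ (abs_nonneg _) ((hE τ hτ).2 y) 2
      linarith)
    (fun τ hτ y => by
      rw [abs_mul, abs_mul, abs_mul, abs_two]
      refine mul_le_mul_of_nonneg_left ?_ (abs_nonneg _)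
      have h1 := CV4_div F hτ hM ((hZ τ hτ).2 y)
      have h2 : 2 * |vf 4 δ (ε τ) y| ≤ 2 * (C₁ * C) :=
        mul_le_mul_of_nonneg_left ((hE τ hτ).2 y) (by norm_num)
      have h3 := mul_le_mul h2 h1 (abs_nonneg _) (mul_nonneg (by norm_num) hM)
      linarith)
    (fun τ hτ y => by
      have h := ((CV4_vf_der F hδ hτ y).pow 2).const_mul (Psi 4 η γ B y)
      refine h.congr_deriv ?_
      norm_num) ht
  have h4 := h3.const_mul (1 / 2 : ℝ)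
  refine h4.congr_deriv ?_
  have e3 : DV 4 η γ B δ (ε t) (D t) = ∫ y, Psi 4 η γ B y * (vf 4 δ (ε t) y * vf 4 δ (D t) y) := rfl
  rw [e3, ← integral_div, ← integral_const_mul]
  refine integral_congr_ae (Eventually.of_forall fun y => ?_)
  simp only
  ring

end H72KC

end S_H72_KC_CV4

section S_H72_KC_GLl

/-!
# Row GLl: the Lyapunov functional

`LL4 = M * E4 + Vf + K0 / r^6 * Nn`; `DLL4 = M * DE4 + DV + K0/r^6 * (DNn + 3/4 w Nn)`.
Proof.  `fae_ep`/`fle_ep` + `con_E4, con_V4, con_Nn` / `der_E4, der_V4, der_Nn`; `(K0/r^6)' = -6 K0 r'/r^7 = (3/4) w K0 / r^6 / r^24` (`F.dr`).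
-/

open MeasureTheory Filter Topology Set
open scoped ContDiff

namespace H72KC

open H98KB H72KB H68KC

theorem con_LL4 {P E : ℝ → ℝ} (hp : Prof P E) {θ : ℝ} {S : Set ℝ} {r : ℝ → ℝ} {W : ℝ → ℝ → ℝ}
    (F : Fa θ S r W) {B δ : ℝ} (hB : 0 < B) (hδ : 0 < δ) (η γ M K0 : ℝ) :
    ContinuousOn (fun t => LL4 P E η γ δ M B K0 (r t) (W t)) S := by
  have hA := fae_ep hp F
  have h1 := con_E4 hA B
  have h2 := con_V4 hA hB hδ η γ
  have h3 := con_Nn F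
  have hr : ∀ t ∈ S, (r t) ^ 6 ≠ 0 := fun t ht =>
    pow_ne_zero 6 (lt_of_lt_of_le F.θ0 (F.lo t ht)).ne'
  have h4 : ContinuousOn (fun t => K0 / (r t) ^ 6) S := continuousOn_const.div (F.cr.pow 6) hr
  exact ((continuousOn_const.mul h1).add h2).add (h4.mul h3)

theorem der_LL4 {P E : ℝ → ℝ} (hp : Prof P E) {θ : ℝ} {J : Set ℝ} {r w : ℝ → ℝ}
    {W Z : ℝ → ℝ → ℝ} (F : Flo θ J r w W Z) {B δ : ℝ} (hB : 0 < B) (hδ : 0 < δ) (η γ M K0 : ℝ)
    {t : ℝ} (ht : t ∈ J) :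
    HasDerivAt (fun τ => LL4 P E η γ δ M B K0 (r τ) (W τ))
      (DLL4 P E η γ δ M B K0 (r t) (w t) (W t) (Z t) / (r t) ^ 24) t := by
  have hA := fle_ep hp F
  have h1 := der_E4 hA B ht
  have h2 := der_V4 hA hB hδ η γ ht
  have h3 := der_Nn F ht
  have hr0 : 0 < r t := lt_of_lt_of_le F.θ0 (F.lo t ht)
  have hr6 : (r t) ^ 6 ≠ 0 := pow_ne_zero 6 hr0.ne'
  have h4 : HasDerivAt (fun τ => K0 / (r τ) ^ 6) (3 / 4 * w t * (K0 / (r t) ^ 6) / (r t) ^ 24) t := by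
    have h := (hasDerivAt_const t K0).div ((F.dr t ht).pow 6) hr6
    refine h.congr_deriv ?_
    have hr := hr0.ne'
    rw [Pi.pow_apply]
    field_simp
    ring
  have h5 := ((h1.const_mul M).add h2).add (h4.mul h3)
  refine HasDerivAt.congr_deriv (f' := _) h5 ?_
  unfold DLL4
  ring

end H72KC

end S_H72_KC_GLl

section S_H72_KC_Glu4

/-! # Continuity and time derivatives of all functionals along the trajectory, `k = 4` -/

open MeasureTheory Filter Topology Set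
open scoped ContDiff

namespace H72KC

open H98KB H72KB H68KC

theorem glu_rho : Continuous rho ∧ (∃ C : ℝ, ∀ y, |rho y| ≤ C) ∧ Cl 1 1 rho := by
  have h : Cl 1 1 rho := by
    have h1 := H72KB.Cl_smul (-1) nrh_cl
    have e : (fun y => (-1 : ℝ) * nrh y) = rho := by
      funext y
      unfold nrh
      ring
    rwa [e] at h1
  exact ⟨h.1.continuous, Cl_bdd (by norm_num) (by norm_num) h, h⟩

theorem glu_dQ : Continuous (deriv (Qf 4)) ∧ (∃ C : ℝ, ∀ y, |deriv (Qf 4) y| ≤ C) := by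
  have h : Cl 1 1 (deriv (Qf 4)) := Cl_deriv (Q_cl (by norm_num))
  exact ⟨h.1.continuous, Cl_bdd (by norm_num) (by norm_num) h⟩

theorem con_all4 {Pp Ee : ℝ → ℝ} (hp : Prof Pp Ee) {d T α l₀ lo hi X₀ : ℝ} {U e : ℝ → ℝ → ℝ}
    {P : ℝ → ℝ × ℝ} (hα : 1 ≤ α) (hlo : 0 < lo) (hlh : lo ≤ hi) (hhi : hi ≤ 1) (hX : 0 ≤ X₀)
    (h : App 4 T α U e) (hP : Tr 4 nrh d T l₀ lo hi X₀ U e P) {B δ : ℝ} (hB : 0 < B) (hδ : 0 < δ)
    (η γ M K0 : ℝ) :
    ContinuousOn (fun t => (P t).1) (Icc 0 T) ∧ ContinuousOn (fun t => (P t).2) (Icc 0 T) ∧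
    ContinuousOn (rt lo hi P) (Icc 0 T) ∧
    ContinuousOn (fun t => LL4 Pp Ee η γ δ M B K0 (rt lo hi P t) (Wt 4 lo hi X₀ U P t))
      (Icc 0 T) ∧
    ContinuousOn (fun t => bq ((rt lo hi P t) ^ 2) (Wt 4 lo hi X₀ U P t)) (Icc 0 T) ∧
    ContinuousOn (fun t => EW (Wt 4 lo hi X₀ U P t)) (Icc 0 T) ∧
    ContinuousOn (fun t => Nn ((rt lo hi P t) ^ 2) (Wt 4 lo hi X₀ U P t)) (Icc 0 T) ∧
    ContinuousOn (fun t => alf ((rt lo hi P t) ^ 2) (Wt 4 lo hi X₀ U P t)) (Icc 0 T) ∧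
    ContinuousOn (fun t => ip (Wt 4 lo hi X₀ U P t) (deriv (Qf 4))) (Icc 0 T) ∧
    ContinuousOn (fun t => ip (fun y => Wt 4 lo hi X₀ U P t y - Qf 4 y) rho) (Icc 0 T) ∧
    ContinuousOn (fun t => Xn (fun y => Wt 4 lo hi X₀ U P t y - Qf 4 y)) (Icc 0 T) ∧
    ContinuousOn (fun t => ∫ y, (Wt 4 lo hi X₀ U P t y - Qf 4 y) ^ 2) (Icc 0 T) := by
  have F := fa_Wt hα hlo hlh hhi hX h hP
  obtain ⟨r1, ⟨C1, r2⟩, -⟩ := glu_rho
  obtain ⟨q1, ⟨C2, q2⟩⟩ := glu_dQ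
  have F' := fa_sub F
  obtain ⟨s1, s2⟩ := con_sq F'
  exact ⟨continuous_fst.comp_continuousOn hP.cont, continuous_snd.comp_continuousOn hP.cont,
    F.cr, con_LL4 hp F hB hδ η γ M K0, con_bq F, con_EW F, con_Nn F, con_alf F,
    con_ip F q1 q2, con_ip F' r1 r2, s2, s1⟩

theorem der_all4 {Pp Ee : ℝ → ℝ} (hp : Prof Pp Ee) {d T α l₀ lo hi X₀ : ℝ} {U e : ℝ → ℝ → ℝ}
    {P : ℝ → ℝ × ℝ} (hT : 0 < T) (hα : 1 ≤ α) (hlo : 0 < lo) (hlh : lo ≤ hi) (hhi : hi ≤ 1)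
    (hX : 0 ≤ X₀) (h : App 4 T α U e) (hP : Tr 4 nrh d T l₀ lo hi X₀ U e P) (L : ℝ)
    (hL : ∀ t ∈ Icc 0 T, ∀ P, ‖VG 4 nrh d lo hi X₀ U e t P‖ ≤ L) {B δ : ℝ} (hB : 0 < B)
    (hδ : 0 < δ) (η γ M K0 : ℝ) {t : ℝ} (ht : t ∈ Ioo 0 T) (h1 : lo < (P t).1)
    (h2 : (P t).1 < hi) (h3 : |(P t).2| < X₀) {r w m : ℝ} {W E : ℝ → ℝ}
    (hr : r = rt lo hi P t) (hw : w = wt' 4 nrh d lo hi X₀ U e P t)
    (hm : m = mt' 4 nrh d lo hi X₀ U e P t) (hW : W = Wt 4 lo hi X₀ U P t)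
    (hE : E = ft 4 lo hi X₀ e P t) :
    HasDerivAt (fun s => (P s).1) (-w / (P t).1 ^ 2) t ∧
    HasDerivAt (fun s => (P s).2) ((1 + m) / (P t).1 ^ 2) t ∧
    HasDerivAt (rt lo hi P) (-(w * r / 8) / r ^ 24) t ∧
    HasDerivAt (fun s => LL4 Pp Ee η γ δ M B K0 (rt lo hi P s) (Wt 4 lo hi X₀ U P s))
      (DLL4 Pp Ee η γ δ M B K0 r w W (ze w m (r ^ 8) W E) / r ^ 24) t ∧
    HasDerivAt (fun s => bq ((rt lo hi P s) ^ 2) (Wt 4 lo hi X₀ U P s))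
      (bqD (r ^ 2) w W (ze w m (r ^ 8) W E) / r ^ 24) t ∧
    HasDerivAt (fun s => EW (Wt 4 lo hi X₀ U P s)) (DEW W (ze w m (r ^ 8) W E) / r ^ 24) t ∧
    HasDerivAt (fun s => Nn ((rt lo hi P s) ^ 2) (Wt 4 lo hi X₀ U P s))
      (DNn (r ^ 2) w W (ze w m (r ^ 8) W E) / r ^ 24) t ∧
    HasDerivAt (fun s => alf ((rt lo hi P s) ^ 2) (Wt 4 lo hi X₀ U P s))
      (alD (r ^ 2) w W (ze w m (r ^ 8) W E) / r ^ 24) t ∧
    HasDerivAt (fun s => ip (Wt 4 lo hi X₀ U P s) (deriv (Qf 4)))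
      (ip (ze w m (r ^ 8) W E) (deriv (Qf 4)) / r ^ 24) t ∧
    HasDerivAt (fun s => ip (fun y => Wt 4 lo hi X₀ U P s y - Qf 4 y) rho)
      (ip (ze w m (r ^ 8) W E) rho / r ^ 24) t := by
  obtain ⟨J, htJ, hJT, hJc, F⟩ := flo_Wt hT hα hlo hlh hhi hX h hP L hL ht h1 h2 h3
  obtain ⟨r1, ⟨C1, r2⟩, hrc⟩ := glu_rho
  obtain ⟨q1, ⟨C2, q2⟩⟩ := glu_dQ
  have hQ : Cl 1 1 (Qf 4) := Q_cl (by norm_num)
  have hr8 : r ^ 8 = lt lo hi P t := by
    rw [hr]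
    exact (rt_pow hlo P t).2
  have hlt : lt lo hi P t = (P t).1 := FlowR_clp h1 h2
  have hode := hP.ode t ht
  have e1 : clp lo hi (P t).1 = (P t).1 := hlt
  subst hr hw hm hW hE
  have dL := der_LL4 hp F hB hδ η γ M K0 htJ
  have dB := der_bq F htJ
  have dE := der_EW F htJ
  have dN := der_Nn F htJ
  have dA := der_alf F htJ
  have dI := der_ip F q1 q2 htJ
  have dR := der_ip F r1 r2 htJ
  simp only [← hr8] at dL dB dE dN dA dI dR
  refine ⟨?_, ?_, F.dr t htJ, dL, dB, dE, dN, dA, dI, ?_⟩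
  · have h4 : HasDerivAt (fun s => (P s).1) (VG 4 nrh d lo hi X₀ U e t (P t)).1 t :=
      (hasFDerivAt_fst (𝕜 := ℝ) (p := P t)).comp_hasDerivAt t hode
    have e2 : (VG 4 nrh d lo hi X₀ U e t (P t)).1 =
        -wt' 4 nrh d lo hi X₀ U e P t / (P t).1 ^ 2 := by
      show -(wt' 4 nrh d lo hi X₀ U e P t) / (clp lo hi (P t).1) ^ 2 = _
      rw [e1]
    rw [e2] at h4
    exact h4
  · have h4 : HasDerivAt (fun s => (P s).2) (VG 4 nrh d lo hi X₀ U e t (P t)).2 t :=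
      (hasFDerivAt_snd (𝕜 := ℝ) (p := P t)).comp_hasDerivAt t hode
    have e2 : (VG 4 nrh d lo hi X₀ U e t (P t)).2 =
        (1 + mt' 4 nrh d lo hi X₀ U e P t) / (P t).1 ^ 2 := by
      show (1 + mt' 4 nrh d lo hi X₀ U e P t) / (clp lo hi (P t).1) ^ 2 = _
      rw [e1]
    rw [e2] at h4
    exact h4
  · have hc : ∀ s ∈ J, ip (fun y => Wt 4 lo hi X₀ U P s y - Qf 4 y) rho =
        ip (Wt 4 lo hi X₀ U P s) rho - ip (Qf 4) rho := by
      intro s hs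
      obtain ⟨D, hD0, hD⟩ := F.bd 0
      have i1 : Integrable (fun y => Wt 4 lo hi X₀ U P s y * rho y) := by
        have hg : Integrable (fun y => D * C1 * bd (lo / 32) (lo / 32) y) :=
          (H72KB.bd_int F.θ0 F.θ0).const_mul _
        refine hg.mono' ((F.sm s hs).continuous.mul r1).aestronglyMeasurable
          (Eventually.of_forall fun y => ?_)
        have h5 := (hD s hs y).1
        rw [iteratedDeriv_zero] at h5
        rw [Real.norm_eq_abs, abs_mul]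
        have h6 : |Wt 4 lo hi X₀ U P s y| * |rho y| ≤ (D * bd (lo / 32) (lo / 32) y) * C1 :=
          mul_le_mul h5 (r2 y) (abs_nonneg _) (mul_nonneg hD0 (H72KB.bd_pos _ _ _).le)
        linarith
      have i2 : Integrable (fun y => Qf 4 y * rho y) :=
        H72KB.Cl_int (by norm_num) (by norm_num) (H72KB.Cl_mul hQ hrc)
      unfold ip
      rw [← integral_sub i1 i2]
      congr 1
      funext y
      ring
    refine (dR.sub_const (ip (Qf 4) rho)).congr_of_eventuallyEq ?_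
    filter_upwards [F.op.mem_nhds htJ] with s hs
    exact hc s hs

end H72KC

end S_H72_KC_Glu4

section S_H72_KC_Trp

/-!
# Row Trp: the abstract trap

Proof.  Suppose some `g i` is `≤ 0` somewhere in `[0,T]`.  The set `A = {t ∈ [0,T] | ∃ i, g i t ≤ 0}` is closed (finite union of closed sets,
continuity on `Icc 0 T`) and nonempty; let `t₀ = sInf A ∈ A`, `t₀ > 0` by `h0`.  On `[0,t₀)` all `g j > 0`.  Let `i` with `g i t₀ ≤ 0` and `δ` from `hd i`.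
By continuity there is `t₁ ∈ (0,t₀)` with `g i t < δ` on `[t₁,t₀)`; on `(t₁,t₀)` the derivative of `g i` is `≥ 0`, so `g i` is
monotone on `[t₁,t₀]` (`monotoneOn_of_deriv_nonneg` on `Icc t₁ t₀`, interior `Ioo`), so `g i t₀ ≥ g i t₁ > 0`, contradiction.
-/

open MeasureTheory Filter Topology Set
open scoped ContDiff

namespace H72KC

open H98KB H72KB H68KC

theorem trap {n : ℕ} {T : ℝ} (hT : 0 < T) (g : Fin n → ℝ → ℝ)
    (hc : ∀ i, ContinuousOn (g i) (Icc 0 T)) (h0 : ∀ i, 0 < g i 0)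
    (hd : ∀ i, ∃ δ : ℝ, 0 < δ ∧ ∀ t ∈ Ioo 0 T, (∀ j, 0 < g j t) → g i t < δ →
      ∃ d : ℝ, 0 ≤ d ∧ HasDerivAt (g i) d t) :
    ∀ i, ∀ t ∈ Icc 0 T, 0 < g i t := by
  by_contra hcon
  push Not at hcon
  obtain ⟨i0, s0, hs0, hneg⟩ := hcon
  obtain ⟨A, hA⟩ : ∃ A : Set ℝ, A = {t | t ∈ Icc (0:ℝ) T ∧ ∃ i, g i t ≤ 0} := ⟨_, rfl⟩
  have hAm : ∀ t, t ∈ A ↔ t ∈ Icc (0:ℝ) T ∧ ∃ i, g i t ≤ 0 := fun t => by rw [hA]; rfl
  have hAne : A.Nonempty := ⟨s0, (hAm s0).2 ⟨hs0, i0, hneg⟩⟩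
  have hAb : BddBelow A := ⟨0, fun t ht => ((hAm t).1 ht).1.1⟩
  have hAc : IsClosed A := by
    have h1 : A = ⋃ i, (Icc (0:ℝ) T ∩ g i ⁻¹' Iic 0) := by
      ext t
      rw [hAm]
      simp only [mem_iUnion, mem_inter_iff, mem_preimage, mem_Iic]
      exact ⟨fun h => h.2.imp fun i hi => ⟨h.1, hi⟩, fun ⟨i, h⟩ => ⟨h.1, i, h.2⟩⟩
    rw [h1]
    exact isClosed_iUnion_of_finite fun i =>
      (hc i).preimage_isClosed_of_isClosed isClosed_Icc isClosed_Iic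
  have ht0 := (hAm _).1 (hAc.csInf_mem hAne hAb)
  have hlow : ∀ t ∈ A, sInf A ≤ t := fun t ht => csInf_le hAb ht
  generalize sInf A = t0 at ht0 hlow
  obtain ⟨ht0I, i, hi⟩ := ht0
  have hpos : 0 < t0 := by
    rcases ht0I.1.lt_or_eq with h | h
    · exact h
    · rw [← h] at hi
      exact absurd (h0 i) (not_lt.2 hi)
  have hbef : ∀ t, 0 ≤ t → t < t0 → ∀ j, 0 < g j t := by
    intro t ht1 ht2 j
    by_contra hh
    have := hlow t ((hAm t).2 ⟨⟨ht1, ht2.le.trans ht0I.2⟩, j, not_lt.1 hh⟩)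
    linarith
  obtain ⟨δ, hδ, hd'⟩ := hd i
  have hev : ∀ᶠ t in 𝓝[Icc 0 T] t0, g i t < δ :=
    (hc i t0 ht0I) (Iio_mem_nhds (lt_of_le_of_lt hi hδ))
  obtain ⟨ε, hε, hball⟩ := Metric.mem_nhdsWithin_iff.1 hev
  obtain ⟨t1, h1a, h1b, h1c⟩ : ∃ t1, 0 < t1 ∧ t1 < t0 ∧ t0 - ε < t1 :=
    ⟨max (t0 / 2) (t0 - ε / 2), lt_max_of_lt_left (by linarith), max_lt (by linarith) (by linarith),
      lt_max_of_lt_right (by linarith)⟩
  have key : ∀ t ∈ Ioo t1 t0, ∃ d : ℝ, 0 ≤ d ∧ HasDerivAt (g i) d t := by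
    intro t ht
    have h0t : 0 < t := h1a.trans ht.1
    refine hd' t ⟨h0t, ht.2.trans_le ht0I.2⟩ (hbef t h0t.le ht.2) ?_
    refine hball ⟨?_, ⟨h0t.le, ht.2.le.trans ht0I.2⟩⟩
    rw [Metric.mem_ball, Real.dist_eq, abs_lt]
    constructor <;> linarith [ht.1, ht.2]
  have hmono : MonotoneOn (g i) (Icc t1 t0) := by
    apply monotoneOn_of_deriv_nonneg (convex_Icc t1 t0)
    · exact (hc i).mono (Icc_subset_Icc h1a.le ht0I.2)
    · intro t ht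
      rw [interior_Icc] at ht
      obtain ⟨d, _, hd2⟩ := key t ht
      exact hd2.differentiableAt.differentiableWithinAt
    · intro t ht
      rw [interior_Icc] at ht
      obtain ⟨d, hd1, hd2⟩ := key t ht
      rw [hd2.deriv]
      exact hd1
  have h2 := hmono (left_mem_Icc.2 h1b.le) (right_mem_Icc.2 h1b.le) h1b.le
  have h3 := hbef t1 h1a.le h1b i
  linarith

end H72KC

end S_H72_KC_Trp

section S_H72_KC_Core4

/-! # Core of the case k = 4: the trap along the trajectory gives a contradiction -/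

open MeasureTheory Filter Topology Set
open scoped ContDiff

namespace H72KC

open H98KB H72KB H68KC

theorem core4_c0 : 0 < c0 := by
  unfold c0 cnu
  have : 0 ≤ 16 * (∫ y, (deriv (Qf 4) y) ^ 2) / Iq ^ 2 := by
    have h : 0 ≤ ∫ y, (deriv (Qf 4) y) ^ 2 := integral_nonneg fun _ => sq_nonneg _
    positivity
  linarith

theorem core4 {Pp Ee : ℝ → ℝ} (hp : Prof Pp Ee)
    {η γ δ M B K0 K9 KE Ca KN K5 σ δ0 ν₁ : ℝ} (hB : 0 < B) (hδ : 0 < δ) (hK9 : 0 < K9)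
    (hKE : 0 < KE) (hδ0 : 0 < δ0) (hν₁ : 0 < ν₁) {r₀ T α rm X₀ : ℝ} (hr₀ : 0 < r₀)
    (hr₀' : 2 * r₀ ^ 8 ≤ 1) (hT : T = r₀ ^ 20 / (2 * c0)) (hα : 1 ≤ α) (hrm : 0 < rm)
    (hrm' : rm ≤ r₀) (hX₀ : X₀ = 2 + 2 / (rm ^ 8) ^ 2 * T) {U e : ℝ → ℝ → ℝ} {P : ℝ → ℝ × ℝ}
    (h : App 4 T α U e) (hP : Tr 4 nrh d4 T (r₀ ^ 8) (rm ^ 8 / 2) (2 * r₀ ^ 8) X₀ U e P) (L : ℝ)
    (hL : ∀ t ∈ Icc 0 T, ∀ P, ‖VG 4 nrh d4 (rm ^ 8 / 2) (2 * r₀ ^ 8) X₀ U e t P‖ ≤ L)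
    (hdyn : ∀ t ∈ Icc 0 T, rm ^ 8 / 2 < (P t).1 → (P t).1 < 2 * r₀ ^ 8 → |(P t).2| < X₀ →
      Trd Pp Ee η γ δ M B K0 K9 KE Ca KN K5 σ t (rt (rm ^ 8 / 2) (2 * r₀ ^ 8) P t)
        (Wt 4 (rm ^ 8 / 2) (2 * r₀ ^ 8) X₀ U P t) →
      |ip (Wt 4 (rm ^ 8 / 2) (2 * r₀ ^ 8) X₀ U P t) (deriv (Qf 4))| < ν₁ →
      |ip (fun y => Wt 4 (rm ^ 8 / 2) (2 * r₀ ^ 8) X₀ U P t y - Qf 4 y) rho| < ν₁ →
      rm ≤ rt (rm ^ 8 / 2) (2 * r₀ ^ 8) P t ∧
      Dyn4 Pp Ee η γ δ M B K0 K9 KE KN K5 δ0 (rt (rm ^ 8 / 2) (2 * r₀ ^ 8) P t)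
        (wt' 4 nrh d4 (rm ^ 8 / 2) (2 * r₀ ^ 8) X₀ U e P t)
        (mt' 4 nrh d4 (rm ^ 8 / 2) (2 * r₀ ^ 8) X₀ U e P t)
        (Wt 4 (rm ^ 8 / 2) (2 * r₀ ^ 8) X₀ U P t) (ft 4 (rm ^ 8 / 2) (2 * r₀ ^ 8) X₀ e P t) ∧
      ip (ze (wt' 4 nrh d4 (rm ^ 8 / 2) (2 * r₀ ^ 8) X₀ U e P t)
        (mt' 4 nrh d4 (rm ^ 8 / 2) (2 * r₀ ^ 8) X₀ U e P t)
        ((rt (rm ^ 8 / 2) (2 * r₀ ^ 8) P t) ^ 8)
        (Wt 4 (rm ^ 8 / 2) (2 * r₀ ^ 8) X₀ U P t) (ft 4 (rm ^ 8 / 2) (2 * r₀ ^ 8) X₀ e P t)) rho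
        = 0 ∧
      ip (ze (wt' 4 nrh d4 (rm ^ 8 / 2) (2 * r₀ ^ 8) X₀ U e P t)
        (mt' 4 nrh d4 (rm ^ 8 / 2) (2 * r₀ ^ 8) X₀ U e P t)
        ((rt (rm ^ 8 / 2) (2 * r₀ ^ 8) P t) ^ 8)
        (Wt 4 (rm ^ 8 / 2) (2 * r₀ ^ 8) X₀ U P t) (ft 4 (rm ^ 8 / 2) (2 * r₀ ^ 8) X₀ e P t))
        (deriv (Qf 4)) = 0)
    (hini : Trd Pp Ee η γ δ M B K0 K9 KE Ca KN K5 σ 0 r₀
      (Wt 4 (rm ^ 8 / 2) (2 * r₀ ^ 8) X₀ U P 0) ∧
      |ip (Wt 4 (rm ^ 8 / 2) (2 * r₀ ^ 8) X₀ U P 0) (deriv (Qf 4))| < ν₁ ∧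
      |ip (fun y => Wt 4 (rm ^ 8 / 2) (2 * r₀ ^ 8) X₀ U P 0 y - Qf 4 y) rho| < ν₁) :
    False := by
  have hc0 := core4_c0
  have hT0 : 0 < T := by rw [hT]; positivity
  have hX0 : 0 ≤ X₀ := by rw [hX₀]; positivity
  have hlo : 0 < rm ^ 8 / 2 := by positivity
  have hle8 : rm ^ 8 ≤ r₀ ^ 8 := pow_le_pow_left₀ hrm.le hrm' 8
  have hlh : rm ^ 8 / 2 ≤ 2 * r₀ ^ 8 := by
    have : 0 < r₀ ^ 8 := by positivity
    linarith
  obtain ⟨c1, c2, c3, c4, c5, c6, c7, c8, c9, c10, c11, c12⟩ :=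
    con_all4 hp hα hlo hlh hr₀' hX0 h hP hB hδ η γ M K0
  set lo : ℝ := rm ^ 8 / 2 with hlod
  set hi : ℝ := 2 * r₀ ^ 8 with hhid
  obtain ⟨r, hr⟩ : ∃ r : ℝ → ℝ, r = rt lo hi P := ⟨_, rfl⟩
  obtain ⟨W, hW⟩ : ∃ W : ℝ → ℝ → ℝ, W = Wt 4 lo hi X₀ U P := ⟨_, rfl⟩
  obtain ⟨F, hF⟩ : ∃ F : ℝ → ℝ → ℝ, F = ft 4 lo hi X₀ e P := ⟨_, rfl⟩
  obtain ⟨w, hw⟩ : ∃ w : ℝ → ℝ, w = wt' 4 nrh d4 lo hi X₀ U e P := ⟨_, rfl⟩
  obtain ⟨m, hm⟩ : ∃ m : ℝ → ℝ, m = mt' 4 nrh d4 lo hi X₀ U e P := ⟨_, rfl⟩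
  have hder := fun t ht g1 g2 g3 => der_all4 hp hT0 hα hlo hlh hr₀' hX0 h hP L hL hB hδ η γ M K0
    (t := t) ht g1 g2 g3 (r := r t) (w := w t) (m := m t) (W := W t) (E := F t)
    (by rw [hr]) (by rw [hw]) (by rw [hm]) (by rw [hW]) (by rw [hF])
  have hrp : ∀ t, 0 < r t := fun t => by
    rw [hr]
    exact (rt_pow hlo P t).1
  have hr8 : ∀ t, (r t) ^ 8 = lt lo hi P t := fun t => by
    rw [hr]
    exact (rt_pow hlo P t).2
  rw [← hr] at c3 c4 c5 c7 c8 hder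
  rw [← hW] at c4 c5 c6 c7 c8 c9 c10 c11 c12 hder
  simp only [← hr, ← hW, ← hF, ← hw, ← hm] at hdyn hini
  clear_value lo hi
  -- the barrier functions
  set gv : Fin 15 → ℝ → ℝ := ![
    fun t => K9 * (r t) ^ 10 - LL4 Pp Ee η γ δ M B K0 (r t) (W t),
    fun t => 4 * c0 * (r t) ^ 4 - bq ((r t) ^ 2) (W t),
    fun t => bq ((r t) ^ 2) (W t) - 2 * c0 * (r t) ^ 4,
    fun t => KE * (r t) ^ 4 - EW (W t),
    fun t => (Ca + KN * t) - Nn ((r t) ^ 2) (W t) / (r t) ^ 16,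
    fun t => (f0 + σ) - alf ((r t) ^ 2) (W t) / (r t) ^ 4 - K5 * r t,
    fun t => alf ((r t) ^ 2) (W t) / (r t) ^ 4 - K5 * r t - (f0 - σ),
    fun t => (r t) ^ 2 - Xn (fun y => W t y - Qf 4 y),
    fun t => 1 - ∫ y, (W t y - Qf 4 y) ^ 2,
    fun t => hi - (P t).1,
    fun t => (P t).1 - lo,
    fun t => 1 + 2 / (rm ^ 8) ^ 2 * t - (P t).2,
    fun t => 1 + (P t).2,
    fun t => ν₁ ^ 2 - (ip (W t) (deriv (Qf 4))) ^ 2,
    fun t => ν₁ ^ 2 - (ip (fun y => W t y - Qf 4 y) rho) ^ 2] with hgv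
  have hall : ∀ t, (∀ i, 0 < gv i t) ↔ (
      0 < K9 * (r t) ^ 10 - LL4 Pp Ee η γ δ M B K0 (r t) (W t) ∧
      0 < 4 * c0 * (r t) ^ 4 - bq ((r t) ^ 2) (W t) ∧
      0 < bq ((r t) ^ 2) (W t) - 2 * c0 * (r t) ^ 4 ∧
      0 < KE * (r t) ^ 4 - EW (W t) ∧
      0 < (Ca + KN * t) - Nn ((r t) ^ 2) (W t) / (r t) ^ 16 ∧
      0 < (f0 + σ) - alf ((r t) ^ 2) (W t) / (r t) ^ 4 - K5 * r t ∧
      0 < alf ((r t) ^ 2) (W t) / (r t) ^ 4 - K5 * r t - (f0 - σ) ∧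
      0 < (r t) ^ 2 - Xn (fun y => W t y - Qf 4 y) ∧
      0 < 1 - (∫ y, (W t y - Qf 4 y) ^ 2) ∧
      0 < hi - (P t).1 ∧ 0 < (P t).1 - lo ∧ 0 < 1 + 2 / (rm ^ 8) ^ 2 * t - (P t).2 ∧
      0 < 1 + (P t).2 ∧ 0 < ν₁ ^ 2 - (ip (W t) (deriv (Qf 4))) ^ 2 ∧
      0 < ν₁ ^ 2 - (ip (fun y => W t y - Qf 4 y) rho) ^ 2) := by
    intro t
    constructor
    · intro h
      exact ⟨h 0, h 1, h 2, h 3, h 4, h 5, h 6, h 7, h 8, h 9, h 10, h 11, h 12, h 13, h 14⟩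
    · rintro ⟨h0, h1, h2, h3, h4, h5, h6, h7, h8, h9, h10, h11, h12, h13, h14⟩ i
      fin_cases i
      · exact h0
      · exact h1
      · exact h2
      · exact h3
      · exact h4
      · exact h5
      · exact h6
      · exact h7
      · exact h8
      · exact h9
      · exact h10
      · exact h11
      · exact h12
      · exact h13
      · exact h14
  -- the state in the region
  have key : ∀ t ∈ Icc 0 T, (∀ i, 0 < gv i t) →
      (lo < (P t).1 ∧ (P t).1 < hi ∧ |(P t).2| < X₀ ∧ rm ≤ r t ∧ (P t).1 = (r t) ^ 8 ∧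
      Dyn4 Pp Ee η γ δ M B K0 K9 KE KN K5 δ0 (r t) (w t) (m t) (W t) (F t) ∧
      ip (ze (w t) (m t) ((r t) ^ 8) (W t) (F t)) rho = 0 ∧
      ip (ze (w t) (m t) ((r t) ^ 8) (W t) (F t)) (deriv (Qf 4)) = 0) := by
    intro t ht hh
    rw [hall] at hh
    obtain ⟨h0, h1, h2, h3, h4, h5, h6, h7, h8, h9, h10, h11, h12, h13, h14⟩ := hh
    have hr0 := hrp t
    have g1 : lo < (P t).1 := by linarith
    have g2 : (P t).1 < hi := by linarith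
    have g3 : |(P t).2| < X₀ := by
      have ht2 : 2 / (rm ^ 8) ^ 2 * t ≤ 2 / (rm ^ 8) ^ 2 * T :=
        mul_le_mul_of_nonneg_left ht.2 (by positivity)
      rw [hX₀, abs_lt]
      have : 0 ≤ 2 / (rm ^ 8) ^ 2 * T := by positivity
      constructor <;> linarith
    have g5 : (P t).1 = (r t) ^ 8 := by
      rw [hr8 t]
      exact (FlowR_clp g1 g2).symm
    have e4 : Nn ((r t) ^ 2) (W t) < (Ca + KN * t) * (r t) ^ 16 := by
      have h41 : Nn ((r t) ^ 2) (W t) / (r t) ^ 16 < Ca + KN * t := by linarith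
      rwa [div_lt_iff₀ (by positivity)] at h41
    have e5 : alf ((r t) ^ 2) (W t) + K5 * (r t) ^ 5 < (f0 + σ) * (r t) ^ 4 := by
      have h51 : alf ((r t) ^ 2) (W t) / (r t) ^ 4 < f0 + σ - K5 * r t := by linarith
      rw [div_lt_iff₀ (by positivity)] at h51
      have h52 : (f0 + σ - K5 * r t) * (r t) ^ 4 = (f0 + σ) * (r t) ^ 4 - K5 * (r t) ^ 5 := by
        ring
      linarith
    have e6 : (f0 - σ) * (r t) ^ 4 < alf ((r t) ^ 2) (W t) - K5 * (r t) ^ 5 := by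
      have h61 : f0 - σ + K5 * r t < alf ((r t) ^ 2) (W t) / (r t) ^ 4 := by linarith
      rw [lt_div_iff₀ (by positivity)] at h61
      have h62 : (f0 - σ + K5 * r t) * (r t) ^ 4 = (f0 - σ) * (r t) ^ 4 + K5 * (r t) ^ 5 := by
        ring
      linarith
    have htrd : Trd Pp Ee η γ δ M B K0 K9 KE Ca KN K5 σ t (r t) (W t) :=
      ⟨by linarith, by linarith, by linarith, by linarith, e4, e5, e6, by linarith,
        by linarith⟩
    have hq : |ip (W t) (deriv (Qf 4))| < ν₁ := abs_lt_of_sq_lt_sq (by linarith) hν₁.le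
    have hrr : |ip (fun y => W t y - Qf 4 y) rho| < ν₁ :=
      abs_lt_of_sq_lt_sq (by linarith) hν₁.le
    obtain ⟨k1, k2, k3, k4⟩ := hdyn t ht g1 g2 g3 htrd hq hrr
    exact ⟨g1, g2, g3, k1, g5, k2, k3, k4⟩
  have hsub : ∀ t, t ∈ Ioo (0:ℝ) T → t ∈ Icc (0:ℝ) T := fun t h => ⟨h.1.le, h.2.le⟩
  have hP0 : (P 0).1 = r₀ ^ 8 ∧ (P 0).2 = 0 := by
    rw [hP.init]
    exact ⟨rfl, rfl⟩
  have h8pos : 0 < r₀ ^ 8 := by positivity
  have hr00 : r 0 = r₀ := by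
    have h1 : (r 0) ^ 8 = r₀ ^ 8 := by
      rw [hr8 0]
      show clp lo hi (P 0).1 = _
      rw [hP0.1]
      exact FlowR_clp (by linarith) (by linarith)
    exact (pow_left_inj₀ (hrp 0).le hr₀.le (by norm_num)).1 h1
  have htrap := trap hT0 gv ?_ ?_ ?_
  · -- contradiction
    have hc : ContinuousOn (fun s => (r s) ^ 20) (Icc 0 T) := c3.pow 20
    have hd : ∀ t ∈ Ioo 0 T, ∃ d, d ≤ -(5 / 2 * c0) ∧ HasDerivAt (fun s => (r s) ^ 20) d t := by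
      intro t ht
      obtain ⟨g1, g2, g3, g4, g5, g6, -, -⟩ := key t (hsub t ht)
        (fun i => htrap i t (hsub t ht))
      obtain ⟨-, -, d3, -⟩ := hder t ht g1 g2 g3
      have p1 := hrp t
      refine ⟨_, ?_, d3.pow 20⟩
      have hw1 := g6.w1
      generalize w t = ww at hw1 ⊢
      generalize r t = rr at hw1 p1 ⊢
      have e1 : ((20 : ℕ) : ℝ) * rr ^ (20 - 1) * (-(ww * rr / 8) / rr ^ 24) =
          -(5 / 2 * (ww / rr ^ 4)) := by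
        push_cast
        field_simp
        ring
      rw [e1]
      have e2 : c0 ≤ ww / rr ^ 4 := by
        rw [le_div_iff₀ (by positivity)]
        exact hw1
      linarith
    have hmv := Convex.image_sub_le_mul_sub_of_deriv_le (convex_Icc (0:ℝ) T) hc
      (fun t ht => by
        rw [interior_Icc] at ht
        obtain ⟨d, _, hd2⟩ := hd t ht
        exact hd2.differentiableAt.differentiableWithinAt)
      (C := -(5 / 2 * c0))
      (fun t ht => by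
        rw [interior_Icc] at ht
        obtain ⟨d, hd1, hd2⟩ := hd t ht
        rw [hd2.deriv]
        exact hd1)
      0 ⟨le_refl _, hT0.le⟩ T ⟨hT0.le, le_refl _⟩ hT0.le
    simp only [hr00] at hmv
    have h6 : 2 * c0 * T = r₀ ^ 20 := by
      rw [hT]
      field_simp
    have h7 : 0 < (r T) ^ 20 := pow_pos (hrp T) 20
    have h8 : 0 < r₀ ^ 20 := by positivity
    linarith only [hmv, h6, h7, h8]
  · -- continuity
    have hne : ∀ (n : ℕ), ∀ t ∈ Icc 0 T, (r t) ^ n ≠ 0 := fun n t _ => (pow_pos (hrp t) n).ne'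
    intro i
    fin_cases i
    · exact (continuousOn_const.mul (c3.pow 10)).sub c4
    · exact (continuousOn_const.mul (c3.pow 4)).sub c5
    · exact c5.sub (continuousOn_const.mul (c3.pow 4))
    · exact (continuousOn_const.mul (c3.pow 4)).sub c6
    · exact (continuousOn_const.add (continuousOn_const.mul continuousOn_id)).sub
        (c7.div (c3.pow 16) (hne 16))
    · exact (continuousOn_const.sub (c8.div (c3.pow 4) (hne 4))).sub (continuousOn_const.mul c3)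
    · exact ((c8.div (c3.pow 4) (hne 4)).sub (continuousOn_const.mul c3)).sub continuousOn_const
    · exact (c3.pow 2).sub c11
    · exact continuousOn_const.sub c12
    · exact continuousOn_const.sub c1
    · exact c1.sub continuousOn_const
    · exact (continuousOn_const.add (continuousOn_const.mul continuousOn_id)).sub c2
    · exact continuousOn_const.add c2
    · exact continuousOn_const.sub (c9.pow 2)
    · exact continuousOn_const.sub (c10.pow 2)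
  · -- initial positivity
    rw [hall]
    obtain ⟨ht, hq, hrr⟩ := hini
    rw [hr00, hP0.1, hP0.2]
    have e4 : Nn (r₀ ^ 2) (W 0) / r₀ ^ 16 < Ca + KN * 0 := by
      rw [div_lt_iff₀ (by positivity)]
      exact ht.g5
    have e5 : alf (r₀ ^ 2) (W 0) / r₀ ^ 4 < f0 + σ - K5 * r₀ := by
      rw [div_lt_iff₀ (by positivity)]
      have := ht.g6
      have h52 : (f0 + σ - K5 * r₀) * r₀ ^ 4 = (f0 + σ) * r₀ ^ 4 - K5 * r₀ ^ 5 := by ring
      linarith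
    have e6 : f0 - σ + K5 * r₀ < alf (r₀ ^ 2) (W 0) / r₀ ^ 4 := by
      rw [lt_div_iff₀ (by positivity)]
      have := ht.g7
      have h62 : (f0 - σ + K5 * r₀) * r₀ ^ 4 = (f0 - σ) * r₀ ^ 4 + K5 * r₀ ^ 5 := by ring
      linarith
    have hq2 : (ip (W 0) (deriv (Qf 4))) ^ 2 < ν₁ ^ 2 :=
      sq_lt_sq' (abs_lt.1 hq).1 (abs_lt.1 hq).2
    have hr2 : (ip (fun y => W 0 y - Qf 4 y) rho) ^ 2 < ν₁ ^ 2 :=
      sq_lt_sq' (abs_lt.1 hrr).1 (abs_lt.1 hrr).2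
    have f1 := ht.g1
    have f2 := ht.g2
    have f3 := ht.g3
    have f4 := ht.g4
    have f8 := ht.g8
    have f9 := ht.g9
    refine ⟨by linarith, by linarith, by linarith, by linarith, by linarith, by linarith,
      by linarith, by linarith, by linarith, by linarith, by linarith, by norm_num, by norm_num,
      by linarith, by linarith⟩
  · -- barriers
    have hrm8 : ∀ t, rm ≤ r t → rm ^ 8 ≤ (r t) ^ 8 := fun t ht => pow_le_pow_left₀ hrm.le ht 8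
    have hw0 : ∀ t ∈ Ioo 0 T, (∀ j, 0 < gv j t) → 0 ≤ w t := by
      intro t ht hh
      obtain ⟨-, -, -, -, -, g6, -, -⟩ := key t (hsub t ht) hh
      have := g6.w1
      have hr4 : 0 < (r t) ^ 4 := pow_pos (hrp t) 4
      have : 0 ≤ c0 * (r t) ^ 4 := by positivity
      linarith
    intro i
    fin_cases i
    · refine ⟨K9 / 2 * rm ^ 10, by positivity, ?_⟩
      intro t ht hh hlt
      obtain ⟨g1, g2, g3, g4, g5, g6, g7, g8⟩ := key t (hsub t ht) hh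
      obtain ⟨d1, d2, d3, d4, d5, d6, d7, d8, d9, d10⟩ := hder t ht g1 g2 g3
      have hlt' : K9 * (r t) ^ 10 - LL4 Pp Ee η γ δ M B K0 (r t) (W t) < K9 / 2 * rm ^ 10 := hlt
      have h10 : rm ^ 10 ≤ (r t) ^ 10 := pow_le_pow_left₀ hrm.le g4 10
      have h11 : K9 / 2 * rm ^ 10 ≤ K9 / 2 * (r t) ^ 10 :=
        mul_le_mul_of_nonneg_left h10 (by positivity)
      have hh1 := g6.d1 (by linarith)
      have p1 := hrp t
      refine ⟨_, ?_, ((d3.pow 10).const_mul K9).sub d4⟩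
      generalize DLL4 Pp Ee η γ δ M B K0 (r t) (w t) (W t)
        (ze (w t) (m t) ((r t) ^ 8) (W t) (F t)) = D at hh1 ⊢
      generalize w t = ww at hh1 ⊢
      generalize r t = rr at hh1 p1 ⊢
      have e1 : K9 * (((10 : ℕ) : ℝ) * rr ^ (10 - 1) * (-(ww * rr / 8) / rr ^ 24)) - D / rr ^ 24 =
          (-(5 / 4) * ww * K9 * rr ^ 10 - D) / rr ^ 24 := by
        push_cast
        field_simp
        ring
      rw [e1]
      exact div_nonneg (by linarith) (by positivity)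
    · refine ⟨δ0 * rm ^ 4, by positivity, ?_⟩
      intro t ht hh hlt
      obtain ⟨g1, g2, g3, g4, g5, g6, g7, g8⟩ := key t (hsub t ht) hh
      obtain ⟨d1, d2, d3, d4, d5, d6, d7, d8, d9, d10⟩ := hder t ht g1 g2 g3
      have hlt' : 4 * c0 * (r t) ^ 4 - bq ((r t) ^ 2) (W t) < δ0 * rm ^ 4 := hlt
      have h10 : rm ^ 4 ≤ (r t) ^ 4 := pow_le_pow_left₀ hrm.le g4 4
      have h11 : δ0 * rm ^ 4 ≤ δ0 * (r t) ^ 4 := mul_le_mul_of_nonneg_left h10 hδ0.le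
      have hh1 := g6.d2 (by
        have : (4 * c0 - δ0) * (r t) ^ 4 = 4 * c0 * (r t) ^ 4 - δ0 * (r t) ^ 4 := by ring
        linarith)
      have p1 := hrp t
      refine ⟨_, ?_, ((d3.pow 4).const_mul (4 * c0)).sub d5⟩
      generalize bqD ((r t) ^ 2) (w t) (W t)
        (ze (w t) (m t) ((r t) ^ 8) (W t) (F t)) = D at hh1 ⊢
      generalize w t = ww at hh1 ⊢
      generalize r t = rr at hh1 p1 ⊢
      have e1 : 4 * c0 * (((4 : ℕ) : ℝ) * rr ^ (4 - 1) * (-(ww * rr / 8) / rr ^ 24)) -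
          D / rr ^ 24 = -(D + 2 * c0 * ww * rr ^ 4) / rr ^ 24 := by
        push_cast
        field_simp
        ring
      rw [e1]
      exact div_nonneg (by linarith) (by positivity)
    · refine ⟨δ0 * rm ^ 4, by positivity, ?_⟩
      intro t ht hh hlt
      obtain ⟨g1, g2, g3, g4, g5, g6, g7, g8⟩ := key t (hsub t ht) hh
      obtain ⟨d1, d2, d3, d4, d5, d6, d7, d8, d9, d10⟩ := hder t ht g1 g2 g3
      have hlt' : bq ((r t) ^ 2) (W t) - 2 * c0 * (r t) ^ 4 < δ0 * rm ^ 4 := hlt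
      have h10 : rm ^ 4 ≤ (r t) ^ 4 := pow_le_pow_left₀ hrm.le g4 4
      have h11 : δ0 * rm ^ 4 ≤ δ0 * (r t) ^ 4 := mul_le_mul_of_nonneg_left h10 hδ0.le
      have hh1 := g6.d3 (by
        have : (2 * c0 + δ0) * (r t) ^ 4 = 2 * c0 * (r t) ^ 4 + δ0 * (r t) ^ 4 := by ring
        linarith)
      have p1 := hrp t
      refine ⟨_, ?_, d5.sub ((d3.pow 4).const_mul (2 * c0))⟩
      generalize bqD ((r t) ^ 2) (w t) (W t)
        (ze (w t) (m t) ((r t) ^ 8) (W t) (F t)) = D at hh1 ⊢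
      generalize w t = ww at hh1 ⊢
      generalize r t = rr at hh1 p1 ⊢
      have e1 : D / rr ^ 24 - 2 * c0 * (((4 : ℕ) : ℝ) * rr ^ (4 - 1) *
          (-(ww * rr / 8) / rr ^ 24)) = (D + c0 * ww * rr ^ 4) / rr ^ 24 := by
        push_cast
        field_simp
        ring
      rw [e1]
      exact div_nonneg (by linarith) (by positivity)
    · refine ⟨KE / 2 * rm ^ 4, by positivity, ?_⟩
      intro t ht hh hlt
      obtain ⟨g1, g2, g3, g4, g5, g6, g7, g8⟩ := key t (hsub t ht) hh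
      obtain ⟨d1, d2, d3, d4, d5, d6, d7, d8, d9, d10⟩ := hder t ht g1 g2 g3
      have hlt' : KE * (r t) ^ 4 - EW (W t) < KE / 2 * rm ^ 4 := hlt
      have h10 : rm ^ 4 ≤ (r t) ^ 4 := pow_le_pow_left₀ hrm.le g4 4
      have h11 : KE / 2 * rm ^ 4 ≤ KE / 2 * (r t) ^ 4 :=
        mul_le_mul_of_nonneg_left h10 (by positivity)
      have hh1 := g6.d4 (by linarith)
      have p1 := hrp t
      refine ⟨_, ?_, ((d3.pow 4).const_mul KE).sub d6⟩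
      generalize DEW (W t) (ze (w t) (m t) ((r t) ^ 8) (W t) (F t)) = D at hh1 ⊢
      generalize w t = ww at hh1 ⊢
      generalize r t = rr at hh1 p1 ⊢
      have e1 : KE * (((4 : ℕ) : ℝ) * rr ^ (4 - 1) * (-(ww * rr / 8) / rr ^ 24)) - D / rr ^ 24 =
          (-(1 / 2) * ww * KE * rr ^ 4 - D) / rr ^ 24 := by
        push_cast
        field_simp
        ring
      rw [e1]
      exact div_nonneg (by linarith) (by positivity)
    · refine ⟨1, one_pos, ?_⟩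
      intro t ht hh hlt
      obtain ⟨g1, g2, g3, g4, g5, g6, g7, g8⟩ := key t (hsub t ht) hh
      obtain ⟨d1, d2, d3, d4, d5, d6, d7, d8, d9, d10⟩ := hder t ht g1 g2 g3
      have hh1 := g6.d5
      have p1 := hrp t
      refine ⟨_, ?_, (((hasDerivAt_id t).const_mul KN).const_add Ca).sub
        (d7.div (d3.pow 16) (pow_pos p1 16).ne')⟩
      generalize DNn ((r t) ^ 2) (w t) (W t)
        (ze (w t) (m t) ((r t) ^ 8) (W t) (F t)) = D at hh1 ⊢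
      try simp only [Pi.pow_apply]
      generalize Nn ((r t) ^ 2) (W t) = N at hh1 ⊢
      generalize w t = ww at hh1 ⊢
      generalize r t = rr at hh1 p1 ⊢
      have e1 : KN * 1 - (D / rr ^ 24 * rr ^ 16 - N * (((16 : ℕ) : ℝ) * rr ^ (16 - 1) *
          (-(ww * rr / 8) / rr ^ 24))) / (rr ^ 16) ^ 2 =
          (KN * rr ^ 40 - (D + 2 * ww * N)) / rr ^ 40 := by
        push_cast
        field_simp
        ring
      rw [e1]
      exact div_nonneg (by linarith) (by positivity)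
    · refine ⟨1, one_pos, ?_⟩
      intro t ht hh hlt
      obtain ⟨g1, g2, g3, g4, g5, g6, g7, g8⟩ := key t (hsub t ht) hh
      obtain ⟨d1, d2, d3, d4, d5, d6, d7, d8, d9, d10⟩ := hder t ht g1 g2 g3
      have hh1 := (abs_le.1 g6.d6).2
      have p1 := hrp t
      refine ⟨_, ?_, (((d8.div (d3.pow 4) (pow_pos p1 4).ne')).const_sub (f0 + σ)).sub
        (d3.const_mul K5)⟩
      unfold alm at hh1
      generalize alD ((r t) ^ 2) (w t) (W t)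
        (ze (w t) (m t) ((r t) ^ 8) (W t) (F t)) = D at hh1 ⊢
      try simp only [Pi.pow_apply]
      generalize alf ((r t) ^ 2) (W t) = N at hh1 ⊢
      generalize w t = ww at hh1 ⊢
      generalize r t = rr at hh1 p1 ⊢
      have e1 : -((D / rr ^ 24 * rr ^ 4 - N * (((4 : ℕ) : ℝ) * rr ^ (4 - 1) *
          (-(ww * rr / 8) / rr ^ 24))) / (rr ^ 4) ^ 2) - K5 * (-(ww * rr / 8) / rr ^ 24) =
          (K5 / 8 * ww * rr ^ 5 - (D + 1 / 2 * ww * N)) / rr ^ 28 := by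
        push_cast
        field_simp
        ring
      rw [e1]
      exact div_nonneg (by linarith) (by positivity)
    · refine ⟨1, one_pos, ?_⟩
      intro t ht hh hlt
      obtain ⟨g1, g2, g3, g4, g5, g6, g7, g8⟩ := key t (hsub t ht) hh
      obtain ⟨d1, d2, d3, d4, d5, d6, d7, d8, d9, d10⟩ := hder t ht g1 g2 g3
      have hh1 := (abs_le.1 g6.d6).1
      have p1 := hrp t
      refine ⟨_, ?_, ((d8.div (d3.pow 4) (pow_pos p1 4).ne').sub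
        (d3.const_mul K5)).sub_const (f0 - σ)⟩
      unfold alm at hh1
      generalize alD ((r t) ^ 2) (w t) (W t)
        (ze (w t) (m t) ((r t) ^ 8) (W t) (F t)) = D at hh1 ⊢
      try simp only [Pi.pow_apply]
      generalize alf ((r t) ^ 2) (W t) = N at hh1 ⊢
      generalize w t = ww at hh1 ⊢
      generalize r t = rr at hh1 p1 ⊢
      have e1 : (D / rr ^ 24 * rr ^ 4 - N * (((4 : ℕ) : ℝ) * rr ^ (4 - 1) *
          (-(ww * rr / 8) / rr ^ 24))) / (rr ^ 4) ^ 2 - K5 * (-(ww * rr / 8) / rr ^ 24) =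
          (K5 / 8 * ww * rr ^ 5 + (D + 1 / 2 * ww * N)) / rr ^ 28 := by
        push_cast
        field_simp
        ring
      rw [e1]
      exact div_nonneg (by linarith) (by positivity)
    · refine ⟨rm ^ 2 / 2, by positivity, ?_⟩
      intro t ht hh hlt
      obtain ⟨g1, g2, g3, g4, g5, g6, g7, g8⟩ := key t (hsub t ht) hh
      have hlt' : (r t) ^ 2 - Xn (fun y => W t y - Qf 4 y) < rm ^ 2 / 2 := hlt
      have h10 : rm ^ 2 ≤ (r t) ^ 2 := pow_le_pow_left₀ hrm.le g4 2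
      have := g6.s8
      exfalso
      linarith
    · refine ⟨1 / 4, by norm_num, ?_⟩
      intro t ht hh hlt
      obtain ⟨g1, g2, g3, g4, g5, g6, g7, g8⟩ := key t (hsub t ht) hh
      have hlt' : 1 - (∫ y, (W t y - Qf 4 y) ^ 2) < 1 / 4 := hlt
      have := g6.s9
      exfalso
      linarith
    · refine ⟨1, one_pos, ?_⟩
      intro t ht hh hlt
      obtain ⟨g1, g2, g3, g4, g5, g6, g7, g8⟩ := key t (hsub t ht) hh
      obtain ⟨d1, -⟩ := hder t ht g1 g2 g3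
      have p2 := hw0 t ht hh
      refine ⟨_, ?_, d1.const_sub hi⟩
      rw [neg_div, neg_neg]
      positivity
    · refine ⟨rm ^ 8 / 2, by positivity, ?_⟩
      intro t ht hh hlt
      obtain ⟨g1, g2, g3, g4, g5, g6, g7, g8⟩ := key t (hsub t ht) hh
      have hlt' : (P t).1 - lo < rm ^ 8 / 2 := hlt
      have := hrm8 t g4
      exfalso
      rw [g5] at hlt'
      linarith
    · refine ⟨1, one_pos, ?_⟩
      intro t ht hh hlt
      obtain ⟨g1, g2, g3, g4, g5, g6, g7, g8⟩ := key t (hsub t ht) hh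
      obtain ⟨-, d2, -⟩ := hder t ht g1 g2 g3
      refine ⟨_, ?_, (((hasDerivAt_id t).const_mul (2 / (rm ^ 8) ^ 2)).const_add 1).sub d2⟩
      have hm1 := (abs_le.mp g6.m1).2
      have h9 := hrm8 t g4
      have : (1 + m t) / (P t).1 ^ 2 ≤ 2 / (rm ^ 8) ^ 2 := by
        apply div_le_div₀ (by norm_num) (by linarith) (by positivity)
        rw [g5]
        exact pow_le_pow_left₀ (by positivity) h9 2
      linarith
    · refine ⟨1, one_pos, ?_⟩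
      intro t ht hh hlt
      obtain ⟨g1, g2, g3, g4, g5, g6, g7, g8⟩ := key t (hsub t ht) hh
      obtain ⟨-, d2, -⟩ := hder t ht g1 g2 g3
      refine ⟨_, ?_, d2.const_add 1⟩
      have hm1 := (abs_le.mp g6.m1).1
      exact div_nonneg (by linarith) (by positivity)
    · refine ⟨1, one_pos, ?_⟩
      intro t ht hh hlt
      obtain ⟨g1, g2, g3, g4, g5, g6, g7, g8⟩ := key t (hsub t ht) hh
      obtain ⟨d1, d2, d3, d4, d5, d6, d7, d8, d9, d10⟩ := hder t ht g1 g2 g3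
      refine ⟨_, ?_, (d9.pow 2).const_sub (ν₁ ^ 2)⟩
      rw [g8]
      simp
    · refine ⟨1, one_pos, ?_⟩
      intro t ht hh hlt
      obtain ⟨g1, g2, g3, g4, g5, g6, g7, g8⟩ := key t (hsub t ht) hh
      obtain ⟨d1, d2, d3, d4, d5, d6, d7, d8, d9, d10⟩ := hder t ht g1 g2 g3
      refine ⟨_, ?_, (d10.pow 2).const_sub (ν₁ ^ 2)⟩
      rw [g7]
      simp

end H72KC

end S_H72_KC_Core4

section S_H72_KC_Scl4

/-! # Scaling identities for `k = 4` -/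

open MeasureTheory Filter Topology Set
open scoped ContDiff

namespace H72KC

open H98KB H72KB H68KC

theorem scl_44 : (4 : ℝ) / ((4 : ℕ) : ℝ) = 1 := by norm_num

/-- `∫ W² = ∫ U²` -/
theorem scl_sq (U : ℝ → ℝ) {l : ℝ} (hl : 0 < l) (x : ℝ) :
    ∫ y, (Wf 4 U l x y) ^ 2 = ∫ z, (U z) ^ 2 := by
  rw [Wf_sq U hl x, scl_44, sub_self, Real.rpow_zero, one_mul]

/-- `∫ W'² = l² ∫ U'²` -/
theorem scl_X {U : ℝ → ℝ} (hU : ContDiff ℝ ∞ U) {l : ℝ} (hl : 0 < l) (x : ℝ) :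
    Xn (Wf 4 U l x) = l ^ 2 * ∫ z, (deriv U z) ^ 2 := by
  rw [Wf_X hU hl x, scl_44]
  have : (1 : ℝ) + 1 = ((2 : ℕ) : ℝ) := by norm_num
  rw [this, Real.rpow_natCast]

theorem scl_ne {V : ℝ → ℝ} (hV : ContDiff ℝ ∞ V)
    (hi : Integrable (fun x => wt 1 x * ((V x) ^ 2 + (deriv V x) ^ 2))) {l : ℝ} (hl : 0 < l)
    (hl1 : l ≤ 1) (x : ℝ) : ne2 (Wf 4 V l x) ≤ nw 1 V ∧ ne2 (ef 4 V l x) ≤ nw 1 V := by
  have hw : ∀ z, 1 ≤ wt 1 z := one_le_wt zero_le_one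
  obtain ⟨Φ, hΦ⟩ : ∃ Φ : ℝ → ℝ, Φ = fun z => wt 1 z * ((V z) ^ 2 + (deriv V z) ^ 2) := ⟨_, rfl⟩
  have hi' : Integrable (fun y => l * Φ (l * y + x)) := by
    rw [hΦ]
    exact (Scal_int hi hl x).const_mul l
  have hI : ∫ y, l * Φ (l * y + x) = nw 1 V := by
    rw [integral_const_mul, Scal_cv Φ hl x, hΦ]
    unfold nw
    field_simp
  have hs : (l ^ (2 / ((4 : ℕ) : ℝ))) ^ 2 = l := by
    rw [Scal_sq 4 hl, scl_44, Real.rpow_one]
  have hpt : ∀ y, (Wf 4 V l x y) ^ 2 + (deriv (Wf 4 V l x) y) ^ 2 ≤ l * Φ (l * y + x) := by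
    intro y
    rw [Scal_der hV, hΦ]
    unfold Wf
    rw [mul_pow, mul_pow, mul_pow, hs]
    have h1 := hw (l * y + x)
    have h2 : l ^ 2 ≤ 1 := pow_le_one₀ hl.le hl1
    have h3 := sq_nonneg (V (l * y + x))
    have h4 := sq_nonneg (deriv V (l * y + x))
    have h5 : l ^ 2 * (deriv V (l * y + x)) ^ 2 ≤ (deriv V (l * y + x)) ^ 2 :=
      mul_le_of_le_one_left h4 h2
    have h6 : (V (l * y + x)) ^ 2 + (deriv V (l * y + x)) ^ 2 ≤
        wt 1 (l * y + x) * ((V (l * y + x)) ^ 2 + (deriv V (l * y + x)) ^ 2) :=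
      le_mul_of_one_le_left (by positivity) h1
    have h7 : l * (V (l * y + x)) ^ 2 + l * l ^ 2 * (deriv V (l * y + x)) ^ 2 =
        l * ((V (l * y + x)) ^ 2 + l ^ 2 * (deriv V (l * y + x)) ^ 2) := by ring
    rw [h7]
    exact mul_le_mul_of_nonneg_left (by linarith) hl.le
  constructor
  · rw [← hI]
    refine integral_mono_of_nonneg (Eventually.of_forall fun y => by positivity) hi'
      (Eventually.of_forall hpt)
  · rw [← hI]
    refine integral_mono_of_nonneg (Eventually.of_forall fun y => by positivity) hi'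
      (Eventually.of_forall fun y => ?_)
    show (ef 4 V l x y) ^ 2 + (deriv (ef 4 V l x) y) ^ 2 ≤ _
    rw [Scal_ef]
    unfold ef
    have h4 : l ^ 4 ≤ 1 := pow_le_one₀ hl.le hl1
    have h5 : 0 ≤ (Wf 4 V l x y) ^ 2 + (deriv (Wf 4 V l x) y) ^ 2 := by positivity
    have h6 : (l ^ 2 * Wf 4 V l x y) ^ 2 + (l ^ 2 * deriv (Wf 4 V l x) y) ^ 2 =
        l ^ 4 * ((Wf 4 V l x y) ^ 2 + (deriv (Wf 4 V l x) y) ^ 2) := by ring
    rw [h6]
    exact (mul_le_of_le_one_left h5 h4).trans (hpt y)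

/-- the rescaled datum -/
theorem scl_dat (Pp Ee : ℝ → ℝ) (w1 : ℝ) {r : ℝ} (hr : 0 < r) (y : ℝ) :
    Wf 4 (dat4 Pp Ee w1 r) (r ^ 8) 0 y = W0 Pp Ee w1 r y := by
  have h1 : (r ^ 8) ^ (2 / ((4 : ℕ) : ℝ)) = r ^ 4 := by
    rw [← Real.rpow_natCast r 8, ← Real.rpow_mul hr.le, ← Real.rpow_natCast r 4]
    norm_num
  unfold Wf dat4
  rw [h1, add_zero]
  have h2 : r ^ 8 * y / r ^ 8 = y := by field_simp
  rw [h2]
  field_simp

/-- `λ` is bounded below -/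
theorem scl_low {U : ℝ → ℝ} (hU : ContDiff ℝ ∞ U)
    (hi : Integrable (fun x => wt 1 x * ((U x) ^ 2 + (deriv U x) ^ 2))) {r rm K x : ℝ}
    (hr : 0 < r) (hrm : 0 < rm) (hK : nw 1 U ≤ K)
    (hrmK : rm ^ 16 * K ≤ 1 / 4 * ∫ y, (deriv (Qf 4) y) ^ 2) (hK0 : 0 < K)
    (hx : 1 / 4 * (∫ y, (deriv (Qf 4) y) ^ 2) ≤ ∫ y, (deriv (Wf 4 U (r ^ 8) x) y) ^ 2) :
    rm ≤ r := by
  have h1 : ∫ y, (deriv (Wf 4 U (r ^ 8) x) y) ^ 2 = (r ^ 8) ^ 2 * ∫ z, (deriv U z) ^ 2 :=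
    scl_X hU (by positivity) x
  have h2 := (sq_le_nw zero_le_one hU hi).2.1
  rw [h1] at hx
  have h3 : (r ^ 8) ^ 2 * ∫ z, (deriv U z) ^ 2 ≤ r ^ 16 * K := by
    have : (r ^ 8) ^ 2 = r ^ 16 := by ring
    rw [this]
    exact mul_le_mul_of_nonneg_left (h2.trans hK) (by positivity)
  have h4 : rm ^ 16 * K ≤ r ^ 16 * K := by linarith
  have h5 : rm ^ 16 ≤ r ^ 16 := le_of_mul_le_mul_right h4 hK0
  exact (pow_le_pow_iff_left₀ hrm.le hr.le (by norm_num)).1 h5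

end H72KC

end S_H72_KC_Scl4

section S_H37_KB_N8

/-!
# Theorem A for a single solution (all `k ≥ 1`), `H¹` level
-/

open MeasureTheory Filter Topology Set
open scoped ContDiff

namespace H37KB

open H98KB

theorem N8_ini {α : ℝ} (hα : 1 ≤ α) {φ : ℝ → ℝ} (hφ : Cl (4 * α) (4 * α) φ) :
    ∃ C : ℝ, 0 ≤ C ∧ ∀ (r : ℝ) (ρ : ℝ → ℝ), 0 < r → r ≤ 1 → Mol r ρ →
      Integrable (fun x => wt α x * ((mol ρ φ x - φ x) ^ 2
        + (deriv (fun x => mol ρ φ x - φ x) x) ^ 2)) ∧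
      nw α (fun x => mol ρ φ x - φ x) ≤ C * r ^ 2 := by
  obtain ⟨C0, hC0, h0⟩ := Cl_bnd hφ
  obtain ⟨C1, hC1, h1⟩ := Cl_bnd (Cl_der hφ)
  obtain ⟨C2, hC2, h2⟩ := Cl_bnd (Cl_der (Cl_der hφ))
  set I : ℝ := ∫ x, wt α x * (Real.exp (-(4 * α * |x|))) ^ 2 with hI
  have hI0 : 0 ≤ I := integral_nonneg fun x => mul_nonneg (D2_pos α x).le (sq_nonneg _)
  refine ⟨((C1 * Real.exp (4 * α)) ^ 2 + (C2 * Real.exp (4 * α)) ^ 2) * I, by positivity, ?_⟩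
  intro r ρ hr hr1 hρ
  have hs : ContDiff ℝ ∞ φ := hφ.1
  have hs' : ContDiff ℝ ∞ (deriv φ) := (contDiff_infty_iff_deriv.1 hs).2
  have hd : Differentiable ℝ φ := (contDiff_infty_iff_deriv.1 hs).1
  have hd' : Differentiable ℝ (deriv φ) := (contDiff_infty_iff_deriv.1 hs').1
  have b0 : ∀ y, |φ y| ≤ C0 * Real.exp (-(4 * α * |y|)) := by
    intro y
    have := h0 y
    rwa [L2_bd] at this
  have b1 : ∀ y, |deriv φ y| ≤ C1 * Real.exp (-(4 * α * |y|)) := by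
    intro y
    have := h1 y
    rwa [L2_bd] at this
  have b2 : ∀ y, |deriv (deriv φ) y| ≤ C2 * Real.exp (-(4 * α * |y|)) := by
    intro y
    have := h2 y
    rwa [L2_bd] at this
  have mlp : ∀ {f : ℝ → ℝ} {C : ℝ}, Continuous f →
      (∀ y, |f y| ≤ C * Real.exp (-(4 * α * |y|))) → MemLp f 2 volume := by
    intro f C hf hb
    rw [memLp_two_iff_integrable_sq hf.aestronglyMeasurable]
    refine ((L2_int hα).const_mul (C ^ 2)).mono' (hf.pow 2).aestronglyMeasurable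
      (ae_of_all _ fun x => ?_)
    rw [Real.norm_of_nonneg (sq_nonneg _)]
    have q : (f x) ^ 2 ≤ (C * Real.exp (-(4 * α * |x|))) ^ 2 := by
      rw [← sq_abs]
      exact pow_le_pow_left₀ (abs_nonneg _) (hb x) 2
    have hw := D2_one hα x
    have h3 : 0 ≤ C ^ 2 * (Real.exp (-(4 * α * |x|))) ^ 2 := by positivity
    calc (f x) ^ 2 ≤ 1 * (C ^ 2 * (Real.exp (-(4 * α * |x|))) ^ 2) := by
          rw [one_mul]
          exact q.trans (le_of_eq (by ring))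
      _ ≤ wt α x * (C ^ 2 * (Real.exp (-(4 * α * |x|))) ^ 2) :=
          mul_le_mul_of_nonneg_right hw h3
      _ = _ := by ring
  have m1 : MemLp φ 2 volume := mlp hs.continuous b0
  have m2 : MemLp (deriv φ) 2 volume := mlp hs'.continuous b1
  have hH : IsH1 φ (deriv φ) := by
    refine ⟨m1, m2, fun x y => ?_⟩
    exact (intervalIntegral.integral_deriv_eq_sub (fun z _ => hd z)
      (hs'.continuous.intervalIntegrable _ _)).symm
  have hmd : deriv (mol ρ φ) = mol ρ (deriv φ) := by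
    rw [B1_deriv hρ.smooth (B2_cpt hρ) m1]
    funext x
    exact C2_mol hH hρ.smooth (B2_cpt hρ) x
  have hms := B1_smooth hρ.smooth (B2_cpt hρ) m1
  have hmdiff : Differentiable ℝ (mol ρ φ) := (contDiff_infty_iff_deriv.1 hms).1
  have hder : ∀ x, deriv (fun x => mol ρ φ x - φ x) x = mol ρ (deriv φ) x - deriv φ x := by
    intro x
    rw [deriv_fun_sub (hmdiff x) (hd x), hmd]
  have hpt : ∀ x, wt α x * ((mol ρ φ x - φ x) ^ 2 + (deriv (fun x => mol ρ φ x - φ x) x) ^ 2) ≤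
      (((C1 * Real.exp (4 * α)) ^ 2 + (C2 * Real.exp (4 * α)) ^ 2) * r ^ 2) *
        (wt α x * (Real.exp (-(4 * α * |x|))) ^ 2) := by
    intro x
    rw [hder x]
    have p1 := L2_pt hr hr1 hα hρ hd b1 x
    have p2 := L2_pt hr hr1 hα hρ hd' b2 x
    have q1 : (mol ρ φ x - φ x) ^ 2 ≤
        (r * (C1 * Real.exp (4 * α)) * Real.exp (-(4 * α * |x|))) ^ 2 := by
      rw [← sq_abs]
      exact pow_le_pow_left₀ (abs_nonneg _) p1 2
    have q2 : (mol ρ (deriv φ) x - deriv φ x) ^ 2 ≤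
        (r * (C2 * Real.exp (4 * α)) * Real.exp (-(4 * α * |x|))) ^ 2 := by
      rw [← sq_abs]
      exact pow_le_pow_left₀ (abs_nonneg _) p2 2
    calc wt α x * ((mol ρ φ x - φ x) ^ 2 + (mol ρ (deriv φ) x - deriv φ x) ^ 2)
        ≤ wt α x * ((r * (C1 * Real.exp (4 * α)) * Real.exp (-(4 * α * |x|))) ^ 2 +
          (r * (C2 * Real.exp (4 * α)) * Real.exp (-(4 * α * |x|))) ^ 2) :=
          mul_le_mul_of_nonneg_left (add_le_add q1 q2) (D2_pos α x).le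
      _ = _ := by ring
  have hnn : ∀ x, 0 ≤ wt α x * ((mol ρ φ x - φ x) ^ 2
      + (deriv (fun x => mol ρ φ x - φ x) x) ^ 2) := fun x =>
    mul_nonneg (D2_pos α x).le
      (add_nonneg (sq_nonneg (mol ρ φ x - φ x)) (sq_nonneg (deriv (fun x => mol ρ φ x - φ x) x)))
  have hdom := (L2_int hα).const_mul
    (((C1 * Real.exp (4 * α)) ^ 2 + (C2 * Real.exp (4 * α)) ^ 2) * r ^ 2)
  have hcd : Continuous (fun x => deriv (fun x => mol ρ φ x - φ x) x) := by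
    have : (fun x => deriv (fun x => mol ρ φ x - φ x) x)
        = fun x => mol ρ (deriv φ) x - deriv φ x := funext hder
    rw [this]
    exact ((B1_smooth hρ.smooth (B2_cpt hρ) m2).continuous).sub hs'.continuous
  have hint : Integrable (fun x => wt α x * ((mol ρ φ x - φ x) ^ 2
      + (deriv (fun x => mol ρ φ x - φ x) x) ^ 2)) := by
    refine hdom.mono' ?_ (ae_of_all _ fun x => ?_)
    · exact ((D2_cont α).mul (((hms.continuous.sub hs.continuous).pow 2).add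
        (hcd.pow 2))).aestronglyMeasurable
    · rw [Real.norm_of_nonneg (hnn x)]
      exact hpt x
  refine ⟨hint, ?_⟩
  unfold nw
  refine (integral_mono hint hdom hpt).trans (le_of_eq ?_)
  rw [integral_const_mul, ← hI]
  ring

/-- Theorem A for a single solution -/
theorem thm1 (k : ℕ) (hk : 1 ≤ k) {α T : ℝ} (hT : 0 < T) (hα : 1 ≤ α) {φ : ℝ → ℝ}
    (hφ : Cl (4 * α) (4 * α) φ) {u p : ℝ → ℝ → ℝ} (h : IsGlobalSol k φ u p) :
    ∃ K : ℝ, 0 < K ∧ ∀ ν : ℝ, 0 < ν → ∃ U e : ℝ → ℝ → ℝ, App k T α U e ∧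
      (∀ t ∈ Icc 0 T, nw α (U t) ≤ K ∧ nw α (e t) ≤ ν) ∧
      Integrable (fun x => wt α x * ((U 0 x - φ x) ^ 2 + (deriv (fun x => U 0 x - φ x) x) ^ 2)) ∧
      nw α (fun x => U 0 x - φ x) ≤ ν := by
  have hφ' : Cl α 1 φ := Cl_mono hφ (by linarith) (by linarith)
  obtain ⟨M, hM, hb⟩ := G1_bdd h T
  obtain ⟨K, hK, hw⟩ := N6_main hT hα hφ' h
  obtain ⟨K', hK', w1, w2⟩ := N6_WB hT hα hφ' h
  obtain ⟨C1, hC1, h1⟩ := L1_e k hk hα hM
  obtain ⟨C2, hC2, h2⟩ := N8_ini hα hφ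
  refine ⟨Real.exp α * K + 1, by positivity, ?_⟩
  intro ν hν
  obtain ⟨r, hr, hr1, hr2, hr3⟩ : ∃ r : ℝ, 0 < r ∧ r ≤ 1 ∧ C1 * r * K ≤ ν ∧ C2 * r ^ 2 ≤ ν := by
    refine ⟨min 1 (ν / (C1 * K + C2 + 1)), by positivity, min_le_left _ _, ?_, ?_⟩
    · have hp : 0 < C1 * K + C2 + 1 := by positivity
      have hle : min 1 (ν / (C1 * K + C2 + 1)) ≤ ν / (C1 * K + C2 + 1) := min_le_right _ _
      have h3 : min 1 (ν / (C1 * K + C2 + 1)) * (C1 * K + C2 + 1) ≤ ν := by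
        rwa [le_div_iff₀ hp] at hle
      have h0 : 0 ≤ min 1 (ν / (C1 * K + C2 + 1)) := by positivity
      nlinarith
    · have hp : 0 < C1 * K + C2 + 1 := by positivity
      have hle : min 1 (ν / (C1 * K + C2 + 1)) ≤ ν / (C1 * K + C2 + 1) := min_le_right _ _
      have hle1 : min 1 (ν / (C1 * K + C2 + 1)) ≤ 1 := min_le_left _ _
      have h3 : min 1 (ν / (C1 * K + C2 + 1)) * (C1 * K + C2 + 1) ≤ ν := by
        rwa [le_div_iff₀ hp] at hle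
      have h0 : 0 ≤ min 1 (ν / (C1 * K + C2 + 1)) := by positivity
      have h4 : min 1 (ν / (C1 * K + C2 + 1)) ^ 2 ≤ min 1 (ν / (C1 * K + C2 + 1)) := by
        nlinarith
      have h5 : 0 ≤ C1 * K := by positivity
      have h6 : C2 * min 1 (ν / (C1 * K + C2 + 1)) ^ 2 ≤ C2 * min 1 (ν / (C1 * K + C2 + 1)) :=
        mul_le_mul_of_nonneg_left h4 hC2
      nlinarith
  obtain ⟨ρ, hρ⟩ := B3_exists r hr
  have hc : HasCompactSupport ρ := B2_cpt hρ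
  have hs : ∀ x, 1 ≤ |x| → ρ x = 0 := fun x hx => hρ.supp x (hr1.trans hx)
  have h00 : (0:ℝ) ∈ Icc (-0 : ℝ) 0 := by simp
  have fU : Fam 0 T α (fun _ t => mol ρ (u t)) :=
    K2 hα hK' (fun _ _ => G1_u h T) w1 hρ.smooth hs
  have fF : Fam 0 T α (fun _ t => mol ρ (fun z => fl k (u t z))) :=
    K2 (g := fun _ t z => fl k (u t z)) hα hK' (fun _ _ => G1_fl h T) w2 hρ.smooth hs
  have fE := K1_sub hα fF (K1_fl hα fU k)
  refine ⟨fun t => mol ρ (u t),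
    fun t x => mol ρ (fun z => fl k (u t z)) x - fl k (mol ρ (u t) x), ?_, ?_, ?_⟩
  · refine ⟨fU.smooth 0 h00, fE.smooth 0 h00, ?_, ?_, fun j x => fU.cont j 0 h00 x,
      fun j x => fE.cont j 0 h00 x,
      fun t ht => int_U hα hr1 hρ (h.h1 t ht.1) (hw t ht).1,
      fun t ht => int_e k hα hr1 hρ (h.h1 t ht.1) (hw t ht).1, ?_⟩
    · intro j
      obtain ⟨C, hC⟩ := fU.bound j
      exact ⟨C, hC 0 h00⟩
    · intro j
      obtain ⟨C, hC⟩ := fE.bound j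
      exact ⟨C, hC 0 h00⟩
    · intro j t ht x
      exact evolM h hρ.smooth hc j t ht x
  · intro t ht
    have hh := h.h1 t ht.1
    obtain ⟨i1, i2⟩ := hw t ht
    constructor
    · have := L1_U hα hr1 hρ hh i1
      have h3 : Real.exp α * ∫ x, wt α x * ((u t x) ^ 2 + (p t x) ^ 2) ≤
          Real.exp α * K := mul_le_mul_of_nonneg_left i2 (Real.exp_pos _).le
      linarith
    · have h3 := h1 r ρ (u t) (p t) hr hr1 hρ hh (hb t ht) i1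
      have h4 : C1 * r * ∫ x, wt α x * ((u t x) ^ 2 + (p t x) ^ 2) ≤ C1 * r * K :=
        mul_le_mul_of_nonneg_left i2 (by positivity)
      exact (h3.trans h4).trans hr2
  · have h3 := h2 r ρ hr hr1 hρ
    have e : u 0 = φ := funext h.init
    simp only [e]
    exact ⟨h3.1, h3.2.trans hr3⟩

end H37KB

end S_H37_KB_N8

section S_H72_KC_Fin4

/-! # Final theorem for `k = 4` from the static blocks -/

open MeasureTheory Filter Topology Set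
open scoped ContDiff

namespace H72KC

open H98KB H72KB H68KC

/-- the gradient of `W` is not small -/
theorem fin_x1 {p q : ℝ} (hp : 0 < p) (hq : 0 < q) (hp1 : p ≤ 1) (hq1 : q ≤ 1) {W : ℝ → ℝ}
    (hW : Cl p q (fun y => W y - Qf 4 y))
    (hx : Xn (fun y => W y - Qf 4 y) ≤ 1 / 4 * ∫ y, (deriv (Qf 4) y) ^ 2) :
    1 / 4 * (∫ y, (deriv (Qf 4) y) ^ 2) ≤ ∫ y, (deriv W y) ^ 2 := by
  have hQ1 : Cl 1 1 (Qf 4) := Q_cl (by norm_num)
  have hQ : Cl p q (Qf 4) := Cl_mono hp1 hq1 hQ1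
  have hWc : Cl p q W := by
    have h := H72KB.Cl_add hW hQ
    have e : (fun y => (W y - Qf 4 y) + Qf 4 y) = W := by
      funext y
      ring
    rwa [e] at h
  have hder : ∀ y, deriv (fun y => W y - Qf 4 y) y = deriv W y - deriv (Qf 4) y := fun y =>
    deriv_fun_sub ((hWc.1.differentiable (by simp)) y) ((hQ.1.differentiable (by simp)) y)
  have hiW : Integrable (fun y => (deriv W y) ^ 2) := SupR_sq hp hq (Cl_deriv hWc)
  have hiQ : Integrable (fun y => (deriv (Qf 4) y) ^ 2) := SupR_sq hp hq (Cl_deriv hQ)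
  have hiE : Integrable (fun y => (deriv (fun y => W y - Qf 4 y) y) ^ 2) :=
    SupR_sq hp hq (Cl_deriv hW)
  have h1 : ∫ y, (deriv (Qf 4) y) ^ 2 ≤ 2 * (∫ y, (deriv W y) ^ 2) +
      2 * Xn (fun y => W y - Qf 4 y) := by
    unfold Xn
    rw [← integral_const_mul, ← integral_const_mul,
      ← integral_add (hiW.const_mul 2) (hiE.const_mul 2)]
    refine integral_mono hiQ ((hiW.const_mul 2).add (hiE.const_mul 2)) fun y => ?_
    change (deriv (Qf 4) y) ^ 2 ≤ 2 * (deriv W y) ^ 2 + 2 * (deriv (fun y => W y - Qf 4 y) y) ^ 2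
    rw [hder]
    nlinarith [sq_nonneg (2 * deriv W y - deriv (Qf 4) y)]
  linarith

theorem blowup4 (hTr : ThmTrap) (hIn : ThmIni)
    (hG : ∃ (Pp Ee : ℝ → ℝ) (γ η δ M B c C : ℝ), Prof Pp Ee ∧ GoodA Pp Ee γ η δ M B c C ∧
      GoodB Pp Ee γ B c ∧ GoodC Pp Ee γ B c C) :
    ∃ φ p₀ : ℝ → ℝ, IsH1 φ p₀ ∧ ¬ ∃ u p : ℝ → ℝ → ℝ, IsGlobalSol 4 φ u p := by
  obtain ⟨Pp, Ee, γ, η, δ, M, B, c, C, hpr, hGA, hGB, hGC⟩ := hG
  have hc0 := core4_c0
  have hB : 0 < B := by linarith [hGA.hB]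
  obtain ⟨g, hg0, hg⟩ := Dt_low4
  obtain ⟨w1, Ca, KI, hw1, hw1', hCa, hKI, hIn2⟩ := hIn Pp Ee γ η δ M B c C hpr hGA
  obtain ⟨K0, K9, KE, KN, K5, σ0, δ0, r1, hK0, hK9, hKE, hKN, hK5, hσ0, hδ0, hr1, hr1', htrap⟩ :=
    hTr Pp Ee γ η δ M B c C hpr hGA hGB hGC Ca KI hCa hKI
  obtain ⟨r2, hr2, hr2', hIn3⟩ := hIn2 K0 K9 KE KN K5 hK0 hK9 hKE hK5
  have hK9' : 0 < K9 := lt_of_lt_of_le (by positivity) hK9
  have hKE' : 0 < KE := by linarith
  set q1 : ℝ := ∫ y, (deriv (Qf 4) y) ^ 2 with hq1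
  have hq1' : 0 < q1 := Q'sq_pos (by norm_num)
  -- choice of `r₀`
  obtain ⟨r₀, hr₀, a1, a2, a3, a4, a5, a6⟩ : ∃ r₀ : ℝ, 0 < r₀ ∧ r₀ ≤ r1 / 2 ∧ r₀ ≤ r2 ∧
      KN * r₀ ≤ 2 * c0 ∧ 2 * K5 * r₀ ≤ σ0 ∧ 4 * r₀ ≤ g ^ 2 ∧ 16 * r₀ ≤ q1 := by
    have h1 : 0 < min (min (r1 / 2) r2) (min (min (2 * c0 / KN) (σ0 / (2 * K5)))
        (min (g ^ 2 / 4) (q1 / 16))) := by
      refine lt_min (lt_min (by positivity) hr2) (lt_min (lt_min (by positivity) (by positivity))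
        (lt_min (by positivity) (by positivity)))
    refine ⟨_, h1, ?_, ?_, ?_, ?_, ?_, ?_⟩
    · exact (min_le_left _ _).trans (min_le_left _ _)
    · exact (min_le_left _ _).trans (min_le_right _ _)
    · have h2 : min (min (r1 / 2) r2) (min (min (2 * c0 / KN) (σ0 / (2 * K5)))
        (min (g ^ 2 / 4) (q1 / 16))) ≤ 2 * c0 / KN :=
        (min_le_right _ _).trans ((min_le_left _ _).trans (min_le_left _ _))
      rw [le_div_iff₀ hKN] at h2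
      linarith
    · have h2 : min (min (r1 / 2) r2) (min (min (2 * c0 / KN) (σ0 / (2 * K5)))
        (min (g ^ 2 / 4) (q1 / 16))) ≤ σ0 / (2 * K5) :=
        (min_le_right _ _).trans ((min_le_left _ _).trans (min_le_right _ _))
      rw [le_div_iff₀ (by positivity)] at h2
      linarith
    · have h2 : min (min (r1 / 2) r2) (min (min (2 * c0 / KN) (σ0 / (2 * K5)))
        (min (g ^ 2 / 4) (q1 / 16))) ≤ g ^ 2 / 4 :=
        (min_le_right _ _).trans ((min_le_right _ _).trans (min_le_left _ _))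
      linarith
    · have h2 : min (min (r1 / 2) r2) (min (min (2 * c0 / KN) (σ0 / (2 * K5)))
        (min (g ^ 2 / 4) (q1 / 16))) ≤ q1 / 16 :=
        (min_le_right _ _).trans ((min_le_right _ _).trans (min_le_right _ _))
      linarith
  have hr₀2 : r₀ ≤ 1 / 2 := a2.trans hr2'
  have hr₀8 : r₀ ^ 8 ≤ (1 / 2) ^ 8 := pow_le_pow_left₀ hr₀.le hr₀2 8
  have hr₀8' : 0 < r₀ ^ 8 := by positivity
  have hhi : 2 * r₀ ^ 8 ≤ 1 := by norm_num at hr₀8 ⊢; linarith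
  obtain ⟨hdat, νs, C', hνs, hC', hini⟩ := hIn3 r₀ hr₀ a2
  set T : ℝ := r₀ ^ 20 / (2 * c0) with hT
  have hT0 : 0 < T := by positivity
  have hKT : KN * T ≤ 1 := by
    have h1 : r₀ ^ 20 ≤ r₀ := by
      calc r₀ ^ 20 ≤ r₀ ^ 1 := pow_le_pow_of_le_one hr₀.le (by linarith) (by norm_num)
        _ = r₀ := pow_one _
    rw [hT, ← mul_div_assoc, div_le_one (by positivity)]
    exact (mul_le_mul_of_nonneg_left h1 hKN.le).trans a3
  refine ⟨dat4 Pp Ee w1 r₀, deriv (dat4 Pp Ee w1 r₀), ?_, ?_⟩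
  · refine ⟨inib_mem (by norm_num) (by norm_num) hdat,
      inib_mem (by norm_num) (by norm_num) (Cl_deriv hdat), fun x y => ?_⟩
    rw [intervalIntegral.integral_deriv_eq_sub]
    · intro z _
      exact (hdat.1.differentiable (by simp)) z
    · exact ((Cl_deriv hdat).1.continuous).intervalIntegrable x y
  rintro ⟨u, p, hsol⟩
  obtain ⟨K, hK0', hK⟩ := H37KB.thm1 4 (by norm_num) hT0 (α := 1) le_rfl
    (by rw [mul_one]; exact hdat) hsol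
  set K' : ℝ := max K (q1 / (4 * r₀ ^ 16)) with hK'
  have hK'0 : 0 < K' := lt_of_lt_of_le hK0' (le_max_left _ _)
  -- lower bound of `r`
  obtain ⟨rm, hrm, hrm16⟩ : ∃ rm : ℝ, 0 < rm ∧ rm ^ 16 = q1 / (4 * K') := by
    have h1 : 0 < q1 / (4 * K') := by positivity
    refine ⟨(q1 / (4 * K')) ^ ((1:ℝ) / 16), Real.rpow_pos_of_pos h1 _, ?_⟩
    rw [← Real.rpow_natCast, ← Real.rpow_mul h1.le]
    norm_num
  have hrmK : rm ^ 16 * K' ≤ 1 / 4 * q1 := by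
    rw [hrm16]
    have : q1 / (4 * K') * K' = 1 / 4 * q1 := by field_simp
    exact this.le
  have hrm' : rm ≤ r₀ := by
    have h1 : rm ^ 16 ≤ r₀ ^ 16 := by
      have h2 : q1 / (4 * r₀ ^ 16) ≤ K' := le_max_right _ _
      rw [div_le_iff₀ (by positivity)] at h2
      rw [hrm16, div_le_iff₀ (by positivity)]
      linarith
    exact (pow_le_pow_iff_left₀ hrm.le hr₀.le (by norm_num)).1 h1
  -- choice of `ν`
  obtain ⟨ν, hν0, b1, b2, b3, b4⟩ : ∃ ν : ℝ, 0 < ν ∧ ν ≤ rm ^ 60 ∧ ν ≤ νs ∧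
      C' * √ν < rm ^ 30 ∧ T * ν ≤ 1 / 4 := by
    have h1 : 0 < min (min (rm ^ 60) νs) (min ((rm ^ 30 / (2 * C')) ^ 2) (1 / (4 * T))) :=
      lt_min (lt_min (by positivity) hνs) (lt_min (by positivity) (by positivity))
    refine ⟨_, h1, (min_le_left _ _).trans (min_le_left _ _),
      (min_le_left _ _).trans (min_le_right _ _), ?_, ?_⟩
    · have h2 : min (min (rm ^ 60) νs) (min ((rm ^ 30 / (2 * C')) ^ 2) (1 / (4 * T))) ≤
          (rm ^ 30 / (2 * C')) ^ 2 := (min_le_right _ _).trans (min_le_left _ _)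
      have h3 := Real.sqrt_le_sqrt h2
      rw [Real.sqrt_sq (by positivity)] at h3
      have h4 := mul_le_mul_of_nonneg_left h3 hC'.le
      have h5 : C' * (rm ^ 30 / (2 * C')) = rm ^ 30 / 2 := by field_simp
      have h6 : 0 < rm ^ 30 := by positivity
      linarith
    · have h2 : min (min (rm ^ 60) νs) (min ((rm ^ 30 / (2 * C')) ^ 2) (1 / (4 * T))) ≤
          1 / (4 * T) := (min_le_right _ _).trans (min_le_right _ _)
      rw [le_div_iff₀ (by positivity)] at h2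
      linarith
  obtain ⟨U, e, happ, hnw, hi0, hnw0⟩ := hK ν hν0
  obtain ⟨X₀, hX₀⟩ : ∃ X₀ : ℝ, X₀ = 2 + 2 / (rm ^ 8) ^ 2 * T := ⟨_, rfl⟩
  have hX0 : 0 ≤ X₀ := by rw [hX₀]; positivity
  have hle8 : rm ^ 8 ≤ r₀ ^ 8 := pow_le_pow_left₀ hrm.le hrm' 8
  have hlo : 0 < rm ^ 8 / 2 := by positivity
  have hlh : rm ^ 8 / 2 ≤ 2 * r₀ ^ 8 := by linarith
  obtain ⟨P, L, hP, hL⟩ := tr_exists (X₀ := X₀) (r₀ ^ 8) (k := 4) (by norm_num) nrh_cl d4_pos hT0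
    zero_le_one hlo hlh hhi happ
  have h0 : (0:ℝ) ∈ Icc 0 T := ⟨le_rfl, hT0.le⟩
  -- initial state
  have hlt0 : lt (rm ^ 8 / 2) (2 * r₀ ^ 8) P 0 = r₀ ^ 8 := by
    unfold lt
    rw [hP.init]
    exact FlowR_clp (by show rm ^ 8 / 2 < r₀ ^ 8; linarith) (by show r₀ ^ 8 < 2 * r₀ ^ 8; linarith)
  have hxt0 : xt X₀ P 0 = 0 := by
    unfold xt
    rw [hP.init]
    unfold clp
    rw [min_eq_left hX0, max_eq_right (by linarith)]
  have hW0 : Wt 4 (rm ^ 8 / 2) (2 * r₀ ^ 8) X₀ U P 0 = Wf 4 (U 0) (r₀ ^ 8) 0 := by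
    unfold Wt
    rw [hlt0, hxt0]
  have hcl : ∀ t ∈ Icc 0 T, Cl ((1:ℝ) / 2) (1 / 16) (U t) ∧ Cl ((1:ℝ) / 2) (1 / 16) (e t) := by
    intro t ht
    refine ⟨⟨happ.smooth t ht, fun j => ?_⟩, ⟨happ.smooth' t ht, fun j => ?_⟩⟩
    · obtain ⟨D, hD⟩ := happ.bound j
      exact ⟨D, hD t ht⟩
    · obtain ⟨D, hD⟩ := happ.bound' j
      exact ⟨D, hD t ht⟩
  have hQ : Cl 1 1 (Qf 4) := Q_cl (by norm_num)
  have hadm : ∀ t ∈ Icc 0 T, ∀ l x : ℝ, 0 < l → l ≤ 1 →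
      Cl (l * (1 / 2)) (l * (1 / 16)) (fun y => Wf 4 (U t) l x y - Qf 4 y) ∧
      Cl (l * (1 / 2)) (l * (1 / 16)) (ef 4 (e t) l x) := by
    intro t ht l x hl hl1
    refine ⟨?_, ef_cl zero_le_one hl.le x (hcl t ht).2⟩
    exact H72KB.Cl_sub (Wf_cl zero_le_one hl.le x (hcl t ht).1)
      (Cl_mono (by linarith) (by linarith) hQ)
  obtain ⟨i1, i2, i3, i4⟩ := hini (Wf 4 (U 0) (r₀ ^ 8) 0)
    ⟨r₀ ^ 8 * (1 / 2), r₀ ^ 8 * (1 / 16), by positivity, by linarith, by positivity, by linarith,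
      (hadm 0 h0 (r₀ ^ 8) 0 hr₀8' (by linarith)).1⟩ (by
      have e1 : (fun y => Wf 4 (U 0) (r₀ ^ 8) 0 y - W0 Pp Ee w1 r₀ y) =
          Wf 4 (fun x => U 0 x - dat4 Pp Ee w1 r₀ x) (r₀ ^ 8) 0 := by
        funext y
        rw [← scl_dat Pp Ee w1 hr₀ y]
        unfold Wf
        ring
      rw [e1]
      exact ((scl_ne ((happ.smooth 0 h0).sub hdat.1) hi0 hr₀8' (by linarith) 0).1.trans hnw0).trans
        b2)
  have hne0 : ne2 (fun y => Wf 4 (U 0) (r₀ ^ 8) 0 y - W0 Pp Ee w1 r₀ y) ≤ ν := by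
    have e1 : (fun y => Wf 4 (U 0) (r₀ ^ 8) 0 y - W0 Pp Ee w1 r₀ y) =
        Wf 4 (fun x => U 0 x - dat4 Pp Ee w1 r₀ x) (r₀ ^ 8) 0 := by
      funext y
      rw [← scl_dat Pp Ee w1 hr₀ y]
      unfold Wf
      ring
    rw [e1]
    exact (scl_ne ((happ.smooth 0 h0).sub hdat.1) hi0 hr₀8' (by linarith) 0).1.trans hnw0
  have hsq : C' * √(ne2 (fun y => Wf 4 (U 0) (r₀ ^ 8) 0 y - W0 Pp Ee w1 r₀ y)) < rm ^ 30 :=
    lt_of_le_of_lt (mul_le_mul_of_nonneg_left (Real.sqrt_le_sqrt hne0) hC'.le) b3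
  have hmass0 : ∫ x, (U 0 x) ^ 2 ≤ (∫ y, (Qf 4 y) ^ 2) + 1 / 4 := by
    rw [← scl_sq (U 0) hr₀8' 0]
    exact i2
  have hmass := mass (ν := ν) (by norm_num : 1 ≤ 4) hT0 (by norm_num : (0:ℝ) < 1) happ
    (fun t ht => (hnw t ht).2) (fun t ht => happ.int' t ht)
  refine core4 hpr hB hGA.hδ hK9' hKE' hδ0 (ν₁ := rm ^ 30) (by positivity) hr₀ hhi hT
    (le_refl (1:ℝ)) hrm hrm' hX₀ happ hP L hL (K0 := K0) (K9 := K9) (KE := KE) (Ca := Ca)
    (KN := KN) (K5 := K5) (σ := 2 * K5 * r₀) (δ0 := δ0) (η := η) (γ := γ) (M := M) ?_ ?_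
  · intro t ht g1 g2 g3 htrd hq hrr
    have hlt : lt (rm ^ 8 / 2) (2 * r₀ ^ 8) P t = (P t).1 := FlowR_clp g1 g2
    obtain ⟨hrp, hr8⟩ := rt_pow (hi := 2 * r₀ ^ 8) hlo P t
    rw [hlt] at hr8
    have hxt : xt X₀ P t = (P t).2 := FlowR_clp (abs_lt.1 g3).1 (abs_lt.1 g3).2
    have hWt : Wt 4 (rm ^ 8 / 2) (2 * r₀ ^ 8) X₀ U P t = Wf 4 (U t)
        ((rt (rm ^ 8 / 2) (2 * r₀ ^ 8) P t) ^ 8) (P t).2 := by
      unfold Wt
      rw [hlt, hxt, hr8]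
    have hft : ft 4 (rm ^ 8 / 2) (2 * r₀ ^ 8) X₀ e P t = ef 4 (e t)
        ((rt (rm ^ 8 / 2) (2 * r₀ ^ 8) P t) ^ 8) (P t).2 := by
      unfold ft
      rw [hlt, hxt, hr8]
    have hwt : wt' 4 nrh d4 (rm ^ 8 / 2) (2 * r₀ ^ 8) X₀ U e P t = wfn 4 nrh d4
        ((rt (rm ^ 8 / 2) (2 * r₀ ^ 8) P t) ^ 8) (Wt 4 (rm ^ 8 / 2) (2 * r₀ ^ 8) X₀ U P t)
        (ft 4 (rm ^ 8 / 2) (2 * r₀ ^ 8) X₀ e P t) := by
      unfold wt'
      rw [hlt, hr8]
    have hmt : mt' 4 nrh d4 (rm ^ 8 / 2) (2 * r₀ ^ 8) X₀ U e P t = nfn 4 nrh d4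
        ((rt (rm ^ 8 / 2) (2 * r₀ ^ 8) P t) ^ 8) (Wt 4 (rm ^ 8 / 2) (2 * r₀ ^ 8) X₀ U P t)
        (ft 4 (rm ^ 8 / 2) (2 * r₀ ^ 8) X₀ e P t) := by
      unfold mt'
      rw [hlt, hr8]
    rw [hwt, hmt]
    have hr20 : rt (rm ^ 8 / 2) (2 * r₀ ^ 8) P t < 2 * r₀ := by
      have h1 : (rt (rm ^ 8 / 2) (2 * r₀ ^ 8) P t) ^ 8 < (2 * r₀) ^ 8 := by
        rw [hr8, mul_pow]
        refine lt_of_lt_of_le g2 (mul_le_mul_of_nonneg_right (by norm_num) hr₀8'.le)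
      exact lt_of_pow_lt_pow_left₀ 8 (by positivity) h1
    obtain ⟨r, hr⟩ : ∃ r : ℝ, r = rt (rm ^ 8 / 2) (2 * r₀ ^ 8) P t := ⟨_, rfl⟩
    obtain ⟨W, hW⟩ : ∃ W : ℝ → ℝ, W = Wt 4 (rm ^ 8 / 2) (2 * r₀ ^ 8) X₀ U P t := ⟨_, rfl⟩
    obtain ⟨F, hF⟩ : ∃ F : ℝ → ℝ, F = ft 4 (rm ^ 8 / 2) (2 * r₀ ^ 8) X₀ e P t := ⟨_, rfl⟩
    rw [← hr] at hrp hr8 hWt hft htrd hr20 ⊢
    rw [← hW] at hWt htrd hq hrr ⊢
    rw [← hF] at hft ⊢
    have hl0 : 0 < r ^ 8 := by positivity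
    have hl1 : r ^ 8 ≤ 1 := by
      rw [hr8]
      linarith
    have hr1le : r ≤ 1 := by linarith
    obtain ⟨k1, k2⟩ := hadm t ht (r ^ 8) (P t).2 hl0 hl1
    rw [← hWt] at k1
    rw [← hft] at k2
    have hp0 : 0 < r ^ 8 * (1 / 2) := by positivity
    have hq0 : 0 < r ^ 8 * (1 / 16) := by positivity
    have hp2 : r ^ 8 * (1 / 2) ≤ 1 / 2 := by linarith
    have hq2 : r ^ 8 * (1 / 16) ≤ 1 / 2 := by linarith
    -- the gradient is not small, `rm ≤ r`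
    have hrr1 : r ^ 2 ≤ 2 * r₀ * 1 := by
      rw [sq]
      exact mul_le_mul hr20.le hr1le hrp.le (by positivity)
    have hX1 : Xn (fun y => W y - Qf 4 y) ≤ 1 / 4 * q1 := by
      have := htrd.g8
      linarith
    have hx1 := fin_x1 hp0 hq0 (by linarith) (by linarith) k1 hX1
    have hrml : rm ≤ r := by
      refine scl_low (happ.smooth t ht) (happ.int t ht) hrp hrm
        ((hnw t ht).1.trans (le_max_left _ _)) hrmK hK'0 (x := (P t).2) ?_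
      rw [← hWt]
      exact hx1
    -- the determinant
    have hsup : ∀ y, |W y - Qf 4 y| ≤ g := by
      intro y
      have h1 := Cl_sup hp0 hq0 k1 y
      have h2 : (∫ z, (W z - Qf 4 z) ^ 2) ≤ 1 := htrd.g9.le
      have h3 : (∫ z, (deriv (fun y => W y - Qf 4 y) z) ^ 2) ≤ r ^ 2 := htrd.g8.le
      have h30 : 0 ≤ ∫ z, (deriv (fun y => W y - Qf 4 y) z) ^ 2 :=
        integral_nonneg fun z => sq_nonneg _
      have h4 : |W y - Qf 4 y| ^ 4 ≤ 4 * 1 * r ^ 2 := by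
        refine h1.trans (mul_le_mul (mul_le_mul_of_nonneg_left h2 (by norm_num)) h3 h30
          (by norm_num))
      have h5 : 4 * 1 * r ^ 2 ≤ g ^ 4 := by
        have h6 : r ^ 2 ≤ (2 * r₀) ^ 2 := pow_le_pow_left₀ hrp.le hr20.le 2
        have h7 : (4 * r₀) ^ 2 ≤ (g ^ 2) ^ 2 := pow_le_pow_left₀ (by positivity) a5 2
        have h8 : (g ^ 2) ^ 2 = g ^ 4 := by ring
        linarith only [h6, h7, h8, sq_nonneg r₀]
      exact (pow_le_pow_iff_left₀ (abs_nonneg _) hg0.le (by norm_num)).1 (h4.trans h5)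
    have hdet : d4 < Dt 4 nrh W := by
      have h1 := hg (r ^ 8 * (1 / 2)) (r ^ 8 * (1 / 16)) (fun y => W y - Qf 4 y) hp0 hq0 k1 hsup
      have e1 : (fun y => Qf 4 y + (W y - Qf 4 y)) = W := by
        funext y
        ring
      rwa [e1] at h1
    obtain ⟨o1, o2⟩ := orth4 hp0 hq0 (by linarith) (by linarith) k1 k2 (r ^ 8) hdet
    have hr30 : rm ^ 30 ≤ r ^ 30 := pow_le_pow_left₀ hrm.le hrml 30
    have hr60 : rm ^ 60 ≤ r ^ 60 := pow_le_pow_left₀ hrm.le hrml 60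
    have hfac : Fac Pp Ee r (wfn 4 nrh d4 (r ^ 8) W F) (nfn 4 nrh d4 (r ^ 8) W F) W F := by
      refine ⟨hpr, hrp, ⟨_, _, hp0, hp2, hq0, hq2, k1, k2⟩, o1, o2, ?_, hq.le.trans hr30,
        hrr.le.trans hr30, ?_⟩
      · rw [hft]
        exact (((scl_ne (happ.smooth' t ht) (happ.int' t ht) hl0 hl1 (P t).2).2.trans
          (hnw t ht).2).trans b1).trans hr60
      · rw [hWt, scl_sq (U t) hl0 (P t).2]
        have := hmass t ht
        linarith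
    refine ⟨hrml, htrap (2 * K5 * r₀) t r _ _ W F (by linarith) ht.1 ?_ a4 hfac htrd, o1, o2⟩
    exact (mul_le_mul_of_nonneg_left ht.2 hKN.le).trans hKT
  · rw [hW0]
    exact ⟨i1, lt_of_le_of_lt i3 hsq, lt_of_le_of_lt i4 hsq⟩

end H72KC

end S_H72_KC_Fin4
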