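import Mathlib
import Pool.Agent.H98.BU.G08
import Pool.Agent.H98.BU.G17
import Pool.Agent.H98.BU.G25
import Pool.Agent.H98.BU.G26
import Pool.Agent.H98.BU.G27
import Pool.Agent.H98.BU.G29

/-! Blow-up for `u_t + u^k u_x + u_xxx - u_xx = 0`, part G30: this file joins several modules
to save build time (`Pool/Agent/H98/{KB,KC}`, `H72/{KB,KC}`, `H68/KC`, `H37/{KB,KC}`). -/

section S_H98_KC_Fin

/-!
# Final theorem for `k = 4`
-/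

namespace H98KC

open H98KB H68KC

theorem blow4 : ∃ φ p₀ : ℝ → ℝ, IsH1 φ p₀ ∧ ¬ ∃ u p : ℝ → ℝ → ℝ, IsGlobalSol 4 φ u p := by
  obtain ⟨P, E, hp⟩ := prof_exists
  obtain ⟨γ, η, δ, M, B, c₁, hγ, hγ1, -, -, -, -, -, hB, hc₁, hc₁', hA⟩ := goodA hp
  obtain ⟨c₂, hc₂, hC⟩ := goodC hp hγ hγ1 hB
  have hc : 0 < min c₁ c₂ := lt_min hc₁ hc₂
  obtain ⟨C₁, -, h1⟩ := hA (min c₁ c₂) hc (min_le_left _ _)
  obtain ⟨C₂, h2⟩ := hC (min c₁ c₂) (min_le_right _ _)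
  exact H72KC.blowup4 thmTrap thmIni ⟨P, E, γ, η, δ, M, B, min c₁ c₂, max C₁ C₂, hp,
    h1 _ (le_max_left _ _), H68KC.goodB hp ((min_le_left _ _).trans hc₁'), h2 _ (le_max_right _ _)⟩

end H98KC

end S_H98_KC_Fin
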