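import Mathlib
import Pool.Agent.H98.BU.G06

/-! Blow-up for `u_t + u^k u_x + u_xxx - u_xx = 0`, part G31: this file joins several modules
to save build time (`Pool/Agent/H98/{KB,KC}`, `H72/{KB,KC}`, `H68/KC`, `H37/{KB,KC}`). -/

section S_H98_KB_Ema

/-!
# Ema : the main energy dissipation (uses `EE_main`, weights, `D_le`)

Write `g = g₀ - D`, `g₀ = ε-ε''`.  `(3/2)g²-(ε-D)g = (3/2)g₀²-εg₀+D(ε-2g₀)+(1/2)D²`.
`∫om'((3/2)g₀²-εg₀)-∫om''ε'g₀ = ∫[(1/2)om'ε²+2om'ε'²+(3/2)om'ε''²-(1/2)om'''(ε²+ε'²)]`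
(potential: `-2om'εε''=-2(om'εε')'+2om'ε'²+2om''εε'`; total first order terms: `2om''εε'-om''εε'+om''ε'ε''`
`= (1/2)(om''(ε²+ε'²))'-(1/2)om'''(ε²+ε'²)`).
`|om'''| ≤ (8/B²)om' ≤ om'/32`.
Error: `≥ -∫om'|D|(|ε|+2|g₀|) - ∫|om''||ε'||D| ≥ -∫om'|D|(3|ε|+2|ε''|+|ε'|)`, `|D| ≤ A(Q^k+|ε|^k)|ε|`, `A=2^k`.
`|ε|^k`-part: `≤ Aν^k∫om'(5ε²+ε''²+ε'²)` (small).  `Q^k`-part:
`AQ^k|ε|(3|ε|+2|ε''|+|ε'|) ≤ (1/8)(ε''²+ε'²)+C Q^kε²`.  Total:
`EE(g') ≤ -(1/4)∫om'(ε²+ε'²+ε''²) + C∫om'Q^kε²`; `om'Q^k ≤ (2/B)e^{|y|/32}C e^{-k|y|} ≤ (C/B)e^{-|y|/2} ≤ (C/B)loc`.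
-/

open MeasureTheory Filter Topology Set
open scoped ContDiff

namespace H98KB

private theorem Ema_alg {P Pm a b c : ℝ} (hP : 0 ≤ P) (hPm : P ≤ Pm) (ha : 0 ≤ a) (hb : 0 ≤ b)
    (hc : 0 ≤ c) : (P + 1 / 100) * a * (a + b + 2 * c) ≤
      1 / 100 * (5 / 2 * a ^ 2 + 1 / 2 * b ^ 2 + c ^ 2) + 1 / 8 * (b ^ 2 + c ^ 2)
        + (1 + 10 * Pm) * P * a ^ 2 := by
  have h1 : P * a * b ≤ 1 / 8 * b ^ 2 + 2 * P ^ 2 * a ^ 2 := by nlinarith [sq_nonneg (b - 4 * P * a)]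
  have h2 : 2 * P * a * c ≤ 1 / 8 * c ^ 2 + 8 * P ^ 2 * a ^ 2 := by
    nlinarith [sq_nonneg (c - 8 * P * a)]
  have h3 : P ^ 2 * a ^ 2 ≤ Pm * P * a ^ 2 := by
    have : P ^ 2 ≤ Pm * P := by nlinarith
    exact mul_le_mul_of_nonneg_right this (sq_nonneg a)
  have h4 : a * b ≤ 1 / 2 * (a ^ 2 + b ^ 2) := by nlinarith [sq_nonneg (a - b)]
  have h5 : a * c ≤ 1 / 2 * (a ^ 2 + c ^ 2) := by nlinarith [sq_nonneg (a - c)]
  have h6 : (P + 1 / 100) * a * (a + b + 2 * c) = P * a ^ 2 + P * a * b + 2 * P * a * c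
      + 1 / 100 * (a ^ 2 + a * b + 2 * (a * c)) := by ring
  rw [h6]
  (first | linarith only [h1, h2, h3, h4, h5] | nlinarith only [h1, h2, h3, h4, h5])

private theorem Ema_pt {w1 w2 w3 e e1 e2 D P Pm : ℝ} (hw1 : 0 ≤ w1) (hw2 : |w2| ≤ w1)
    (hw3 : |w3| ≤ 1 / 32 * w1) (hP : 0 ≤ P) (hPm : P ≤ Pm) (hD : |D| ≤ (P + 1 / 100) * |e|) :
    -(3 / 2) * (w1 * (-e2 + e - D) ^ 2) + w1 * ((e - D) * (-e2 + e - D))
        + w2 * (e1 * (-e2 + e - D)) ≤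
      -(1 / 4) * (w1 * (e ^ 2 + e1 ^ 2 + e2 ^ 2)) + (1 + 10 * Pm) * P * (w1 * e ^ 2)
        + ((2 * (w2 * (e * e1)) + 2 * (w1 * (e1 * e1)) + 2 * (w1 * (e * e2)))
          - 1 / 2 * (w3 * (e ^ 2 + e1 ^ 2) + w2 * (2 * (e * e1) + 2 * (e1 * e2)))) := by
  have hid : -(3 / 2) * (w1 * (-e2 + e - D) ^ 2) + w1 * ((e - D) * (-e2 + e - D))
        + w2 * (e1 * (-e2 + e - D)) =
      -(w1 * (1 / 2 * e ^ 2 + 2 * e1 ^ 2 + 3 / 2 * e2 ^ 2)) + 1 / 2 * (w3 * (e ^ 2 + e1 ^ 2))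
        + ((2 * (w2 * (e * e1)) + 2 * (w1 * (e1 * e1)) + 2 * (w1 * (e * e2)))
          - 1 / 2 * (w3 * (e ^ 2 + e1 ^ 2) + w2 * (2 * (e * e1) + 2 * (e1 * e2))))
        + (w1 * (D * (e - 2 * e2)) - w1 * (1 / 2 * D ^ 2)) - w2 * e1 * D := by ring
  rw [hid]
  have hw3' : w3 * (e ^ 2 + e1 ^ 2) ≤ 1 / 32 * w1 * (e ^ 2 + e1 ^ 2) :=
    mul_le_mul_of_nonneg_right ((le_abs_self _).trans hw3) (by positivity)
  have hD2 : 0 ≤ w1 * (1 / 2 * D ^ 2) := by positivity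
  have hE1 : D * (e - 2 * e2) ≤ |D| * (|e| + 2 * |e2|) := by
    calc D * (e - 2 * e2) ≤ |D * (e - 2 * e2)| := le_abs_self _
      _ = |D| * |e - 2 * e2| := abs_mul _ _
      _ ≤ |D| * (|e| + 2 * |e2|) := by
        apply mul_le_mul_of_nonneg_left _ (abs_nonneg _)
        calc |e - 2 * e2| ≤ |e| + |2 * e2| := abs_sub _ _
          _ = |e| + 2 * |e2| := by rw [abs_mul, abs_two]
  have hE2 : -(w2 * e1 * D) ≤ w1 * (|D| * |e1|) := by
    calc -(w2 * e1 * D) ≤ |w2 * e1 * D| := neg_le_abs _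
      _ = |w2| * (|D| * |e1|) := by rw [abs_mul, abs_mul]; ring
      _ ≤ w1 * (|D| * |e1|) := mul_le_mul_of_nonneg_right hw2 (by positivity)
  have hE3 : |D| * (|e| + |e1| + 2 * |e2|) ≤ 1 / 100 * (5 / 2 * e ^ 2 + 1 / 2 * e1 ^ 2 + e2 ^ 2)
      + 1 / 8 * (e1 ^ 2 + e2 ^ 2) + (1 + 10 * Pm) * P * e ^ 2 := by
    have h1 := Ema_alg hP hPm (abs_nonneg e) (abs_nonneg e1) (abs_nonneg e2)
    rw [sq_abs, sq_abs, sq_abs] at h1
    refine le_trans ?_ h1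
    exact mul_le_mul_of_nonneg_right hD (by positivity)
  have hE4 := mul_le_mul_of_nonneg_left hE3 hw1
  have hE1' := mul_le_mul_of_nonneg_left hE1 hw1
  have hs0 : 0 ≤ w1 * e ^ 2 := by positivity
  have hs1 : 0 ≤ w1 * e1 ^ 2 := by positivity
  have hs2 : 0 ≤ w1 * e2 ^ 2 := by positivity
  have hE5 : w1 * (|D| * (|e| + |e1| + 2 * |e2|)) =
      w1 * (|D| * (|e| + 2 * |e2|)) + w1 * (|D| * |e1|) := by ring
  have hE6 : w1 * (1 / 100 * (5 / 2 * e ^ 2 + 1 / 2 * e1 ^ 2 + e2 ^ 2)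
      + 1 / 8 * (e1 ^ 2 + e2 ^ 2) + (1 + 10 * Pm) * P * e ^ 2) =
      1 / 40 * (w1 * e ^ 2) + 1 / 200 * (w1 * e1 ^ 2) + 1 / 100 * (w1 * e2 ^ 2)
        + 1 / 8 * (w1 * e1 ^ 2) + 1 / 8 * (w1 * e2 ^ 2) + (1 + 10 * Pm) * P * (w1 * e ^ 2) := by
    ring
  (first | linarith only [hD2, hE1', hE2, hE4, hs0, hs1, hs2, hw3'] | nlinarith only [hD2, hE1', hE2, hE4, hs0, hs1, hs2, hw3'])

private theorem Ema_cl {B ρ p q : ℝ} (hB : 0 < B) (hρ : 0 < ρ) {w f g : ℝ → ℝ}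
    (hw : Cl (-(2 * ρ)) (2 * ρ + 1 / B) w) (hf : Cl p q f) (hg : Cl p q g) :
    Cl (2 * p - 2 * ρ) (2 * q) (fun y => w y * (f y * g y)) := by
  refine Cl_mono (Cl_mul hw (Cl_mul hf hg)) (by linarith) ?_
  have : 0 < 1 / B := by positivity
  linarith

theorem ET1 (k : ℕ) (hk : 5 ≤ k) : ∃ ν C : ℝ, 0 < ν ∧ ν ≤ 1 ∧ 0 < C ∧ ∀ γ : ℝ, 0 < γ → γ ≤ 1 / 8 →
    ∀ B ρ : ℝ, Slow B ρ → ∀ (p q : ℝ) (ε : ℝ → ℝ), Adm ρ p q ε → (∀ y, |ε y| ≤ ν) →
    EE k B ρ ε (deriv (gf k ε)) ≤ -(1 / 4) * Tn B ρ ε + C / B * ln γ B ε := by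
  have hk1 : 1 ≤ k := by omega
  obtain ⟨C1, hC1, hQ⟩ := Qf_hi hk1
  set A : ℝ := 2 ^ k with hA
  have hA1 : 1 ≤ A := one_le_pow₀ (by norm_num)
  have hA0 : 0 < A := by linarith
  set K : ℝ := C1 ^ k with hK
  have hK0 : 0 < K := by positivity
  have hQk : ∀ y, Qf k y ^ k ≤ K * Real.exp (-|y|) := by
    intro y
    have h1 : Qf k y ^ k ≤ (C1 * Real.exp (-|y|)) ^ k :=
      pow_le_pow_left₀ (Qf_pos k y).le (hQ y) k
    rw [mul_pow] at h1
    have h2 : Real.exp (-|y|) ^ k ≤ Real.exp (-|y|) :=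
      pow_le_of_le_one (Real.exp_pos _).le (Real.exp_le_one_iff.2 (by linarith [abs_nonneg y]))
        (by omega)
    exact h1.trans (mul_le_mul_of_nonneg_left h2 hK0.le)
  have hQk' : ∀ y, Qf k y ^ k ≤ K := by
    intro y
    refine (hQk y).trans ?_
    have : Real.exp (-|y|) ≤ 1 := Real.exp_le_one_iff.2 (by linarith [abs_nonneg y])
    nlinarith
  refine ⟨1 / (100 * A), (1 + 10 * (A * K)) * A * (2 * K), by positivity, ?_, by positivity, ?_⟩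
  · rw [div_le_one (by positivity)]; linarith
  intro γ hγ hγ' B ρ hs p q ε hε hεν
  obtain ⟨hB, hρ, hρB⟩ := hs
  have hs : Slow B ρ := ⟨hB, hρ, hρB⟩
  obtain ⟨hp1, hp2, hq1, hq2, hcl⟩ := hε
  have hε' : Adm ρ p q ε := ⟨hp1, hp2, hq1, hq2, hcl⟩
  have hB0 : 0 < B := by linarith
  have hp0 : 0 < p := hρ.trans hp1
  have hc1 : Cl p q (deriv ε) := Cl_der hcl
  have hc2 : Cl p q (deriv (deriv ε)) := Cl_der hc1
  have hcD : Cl p q (Df k ε) := Cl_Df hk1 hp0.le hq1.le hcl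
  have hcg : Cl p q (gf k ε) := Cl_gf hk1 hp0.le hq1.le hcl
  have hw0 : Cl (-(2 * ρ)) (2 * ρ + 1 / B) (om B ρ) := Cl_om hB0 ρ
  have hw1 : Cl (-(2 * ρ)) (2 * ρ + 1 / B) (deriv (om B ρ)) := Cl_der hw0
  have hw2 : Cl (-(2 * ρ)) (2 * ρ + 1 / B) (deriv (deriv (om B ρ))) := Cl_der hw1
  have hPp : 0 < 2 * p - 2 * ρ := by linarith
  have hQp : 0 < 2 * q := by linarith
  -- integrability of the pieces
  have i1 : Integrable (fun y => deriv (om B ρ) y * (gf k ε y) ^ 2) := by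
    have := Cl_int (Ema_cl hB0 hρ hw1 hcg hcg) hPp hQp
    refine this.congr (Eventually.of_forall fun y => ?_)
    simp only; ring
  have i2 : Integrable (fun y => deriv (om B ρ) y * ((ε y - Df k ε y) * gf k ε y)) :=
    Cl_int (Ema_cl hB0 hρ hw1 (Cl_sub hcl hcD) hcg) hPp hQp
  have i3 : Integrable (fun y => deriv (deriv (om B ρ)) y * (deriv ε y * gf k ε y)) :=
    Cl_int (Ema_cl hB0 hρ hw2 hc1 hcg) hPp hQp
  have sqi : ∀ f : ℝ → ℝ, Cl p q f → Integrable (fun y => deriv (om B ρ) y * (f y) ^ 2) := by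
    intro f hf
    have := Cl_int (Ema_cl hB0 hρ hw1 hf hf) hPp hQp
    refine this.congr (Eventually.of_forall fun y => ?_)
    simp only; ring
  have iT : Integrable (fun y => deriv (om B ρ) y *
      ((ε y) ^ 2 + (deriv ε y) ^ 2 + (deriv (deriv ε) y) ^ 2)) := by
    refine (((sqi _ hcl).add (sqi _ hc1)).add (sqi _ hc2)).congr (Eventually.of_forall fun y => ?_)
    simp only [Pi.add_apply]; ring
  have hloc : Cl 0 0 (loc γ B) := by
    have h := Cl_mul (Cl_se2 hγ) (Cl_ch hB0)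
    exact Cl_mono h (by positivity) (by positivity)
  have sql : ∀ f : ℝ → ℝ, Cl p q f → Integrable (fun y => loc γ B y * (f y) ^ 2) := by
    intro f hf
    have h1 : Cl (0 + (p + p)) (0 + (q + q)) (fun y => loc γ B y * (f y * f y)) :=
      Cl_mul hloc (Cl_mul hf hf)
    refine (Cl_int h1 (by linarith) (by linarith)).congr (Eventually.of_forall fun y => ?_)
    simp only; ring
  have iL : Integrable (fun y => loc γ B y * ((ε y) ^ 2 + (deriv ε y) ^ 2)) := by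
    refine ((sql _ hcl).add (sql _ hc1)).congr (Eventually.of_forall fun y => ?_)
    simp only [Pi.add_apply]; ring
  -- the primitive
  set H : ℝ → ℝ := fun y => 2 * (deriv (om B ρ) y * (ε y * deriv ε y))
    - 1 / 2 * (deriv (deriv (om B ρ)) y * (ε y * ε y)
      + deriv (deriv (om B ρ)) y * (deriv ε y * deriv ε y)) with hH
  have hHcl : Cl (2 * p - 2 * ρ) (2 * q) H :=
    Cl_sub (Cl_smul 2 (Ema_cl hB0 hρ hw1 hcl hc1))
      (Cl_smul (1 / 2) (Cl_add (Ema_cl hB0 hρ hw2 hcl hcl) (Ema_cl hB0 hρ hw2 hc1 hc1)))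
  have hHd : ∀ y, deriv H y = (2 * (deriv (deriv (om B ρ)) y * (ε y * deriv ε y))
      + 2 * (deriv (om B ρ) y * (deriv ε y * deriv ε y))
      + 2 * (deriv (om B ρ) y * (ε y * deriv (deriv ε) y)))
      - 1 / 2 * (deriv (deriv (deriv (om B ρ))) y * ((ε y) ^ 2 + (deriv ε y) ^ 2)
        + deriv (deriv (om B ρ)) y * (2 * (ε y * deriv ε y)
          + 2 * (deriv ε y * deriv (deriv ε) y))) := by
    intro y
    have d0 := Cl_hd hcl y
    have d1 := Cl_hd hc1 y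
    have w1 := Cl_hd hw1 y
    have w2 := Cl_hd hw2 y
    have hd : HasDerivAt H _ y :=
      ((w1.mul (d0.mul d1)).const_mul 2).sub
        (((w2.mul (d0.mul d0)).add (w2.mul (d1.mul d1))).const_mul (1 / 2))
    rw [hd.deriv]
    simp only [Pi.mul_apply]
    ring
  -- pointwise estimate
  have hF : Integrable (fun y => -(3 / 2) * (deriv (om B ρ) y * (gf k ε y) ^ 2)
      + deriv (om B ρ) y * ((ε y - Df k ε y) * gf k ε y)
      + deriv (deriv (om B ρ)) y * (deriv ε y * gf k ε y)) :=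
    ((i1.const_mul _).add i2).add i3
  have hG : Integrable (fun y => -(1 / 4) * (deriv (om B ρ) y *
      ((ε y) ^ 2 + (deriv ε y) ^ 2 + (deriv (deriv ε) y) ^ 2))
      + (1 + 10 * (A * K)) * A * (2 * K) / B * (loc γ B y * ((ε y) ^ 2 + (deriv ε y) ^ 2))) :=
    (iT.const_mul _).add (iL.const_mul _)
  have hle := Cl_int_le hF hG hHcl hPp hQp ?_
  · have hEE := EE_main hk1 hs hε'
    have e1 : (∫ y, (-(3 / 2) * (deriv (om B ρ) y * (gf k ε y) ^ 2)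
      + deriv (om B ρ) y * ((ε y - Df k ε y) * gf k ε y)
      + deriv (deriv (om B ρ)) y * (deriv ε y * gf k ε y))) =
      -(3 / 2) * (∫ y, deriv (om B ρ) y * (gf k ε y) ^ 2)
      + (∫ y, deriv (om B ρ) y * ((ε y - Df k ε y) * gf k ε y))
      + ∫ y, deriv (deriv (om B ρ)) y * (deriv ε y * gf k ε y) := by
      have i12 : Integrable (fun y => -(3 / 2) * (deriv (om B ρ) y * (gf k ε y) ^ 2)
          + deriv (om B ρ) y * ((ε y - Df k ε y) * gf k ε y)) := (i1.const_mul _).add i2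
      rw [integral_add i12 i3, integral_add (i1.const_mul _) i2, integral_const_mul]
    have e2 : (∫ y, (-(1 / 4) * (deriv (om B ρ) y *
      ((ε y) ^ 2 + (deriv ε y) ^ 2 + (deriv (deriv ε) y) ^ 2))
      + (1 + 10 * (A * K)) * A * (2 * K) / B * (loc γ B y * ((ε y) ^ 2 + (deriv ε y) ^ 2)))) =
      -(1 / 4) * Tn B ρ ε + (1 + 10 * (A * K)) * A * (2 * K) / B * ln γ B ε := by
      rw [integral_add (iT.const_mul _) (iL.const_mul _), integral_const_mul, integral_const_mul]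
      rfl
    rw [hEE, ← e1, ← e2]
    exact hle
  · intro y
    rw [hHd]
    have hP : 0 ≤ A * Qf k y ^ k := mul_nonneg hA0.le (pow_nonneg (Qf_pos k y).le k)
    have hPm : A * Qf k y ^ k ≤ A * K := mul_le_mul_of_nonneg_left (hQk' y) hA0.le
    have hw1' : 0 ≤ deriv (om B ρ) y := (om1_pos hs y).le
    have hB2 : 2 / B ≤ 1 := by rw [div_le_one hB0]; linarith
    have hw2' : |deriv (deriv (om B ρ)) y| ≤ deriv (om B ρ) y := by
      refine (om2_le hs y).trans ?_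
      calc 2 / B * deriv (om B ρ) y ≤ 1 * deriv (om B ρ) y :=
            mul_le_mul_of_nonneg_right hB2 hw1'
        _ = _ := one_mul _
    have hw3' : |deriv (deriv (deriv (om B ρ))) y| ≤ 1 / 32 * deriv (om B ρ) y := by
      refine (om3_le hs y).trans (mul_le_mul_of_nonneg_right ?_ hw1')
      rw [div_le_div_iff₀ (by positivity) (by norm_num)]
      (first | linarith only [hB] | nlinarith only [hB])
    have hDle : |Df k ε y| ≤ (A * Qf k y ^ k + 1 / 100) * |ε y| := by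
      refine (D_le k ε y).trans (mul_le_mul_of_nonneg_right ?_ (abs_nonneg _))
      have h1 : |ε y| ^ k ≤ 1 / (100 * A) := by
        have hle1 : |ε y| ≤ 1 := (hεν y).trans (by rw [div_le_one (by positivity)]; linarith)
        exact (pow_le_of_le_one (abs_nonneg _) hle1 (by omega)).trans (hεν y)
      have h2 : A * |ε y| ^ k ≤ 1 / 100 := by
        calc A * |ε y| ^ k ≤ A * (1 / (100 * A)) := mul_le_mul_of_nonneg_left h1 hA0.le
          _ = 1 / 100 := by field_simp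
      rw [← hA, mul_add]
      linarith
    have hpt := Ema_pt (e1 := deriv ε y) (e2 := deriv (deriv ε) y) hw1' hw2' hw3' hP hPm hDle
    have hgf : gf k ε y = -deriv (deriv ε) y + ε y - Df k ε y := rfl
    rw [hgf]
    refine hpt.trans ?_
    have hlast : (1 + 10 * (A * K)) * (A * Qf k y ^ k) * (deriv (om B ρ) y * ε y ^ 2) ≤
        (1 + 10 * (A * K)) * A * (2 * K) / B * (loc γ B y * ((ε y) ^ 2 + (deriv ε y) ^ 2)) := by
      have h1 : Qf k y ^ k * deriv (om B ρ) y ≤ 2 * K / B * loc γ B y := by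
        calc Qf k y ^ k * deriv (om B ρ) y
            ≤ (K * Real.exp (-|y|)) * (2 / B * Real.exp (|y| / 32)) :=
              mul_le_mul (hQk y) (om1_hi hs y) hw1' (by positivity)
          _ = 2 * K / B * (Real.exp (-|y|) * Real.exp (|y| / 32)) := by ring
          _ ≤ 2 * K / B * loc γ B y := by
              apply mul_le_mul_of_nonneg_left _ (by positivity)
              refine le_trans ?_ (ex_le_loc hγ hγ' hB y)
              rw [← Real.exp_add]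
              apply Real.exp_le_exp.2
              linarith [abs_nonneg y]
      have h2 : (Qf k y ^ k * deriv (om B ρ) y) * ε y ^ 2 ≤
          (2 * K / B * loc γ B y) * ((ε y) ^ 2 + (deriv ε y) ^ 2) := by
        apply mul_le_mul h1 _ (by positivity) (by have := (loc_pos γ B y).le; positivity)
        (first | linarith only [sq_nonneg (deriv ε y)] | nlinarith only [sq_nonneg (deriv ε y)])
      calc (1 + 10 * (A * K)) * (A * Qf k y ^ k) * (deriv (om B ρ) y * ε y ^ 2)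
          = ((1 + 10 * (A * K)) * A) * ((Qf k y ^ k * deriv (om B ρ) y) * ε y ^ 2) := by ring
        _ ≤ ((1 + 10 * (A * K)) * A) * ((2 * K / B * loc γ B y) *
            ((ε y) ^ 2 + (deriv ε y) ^ 2)) := mul_le_mul_of_nonneg_left h2 (by positivity)
        _ = _ := by ring
    linarith

end H98KB

end S_H98_KB_Ema

section S_H98_KB_Emb

/-!
# Emb : the source terms, `ε'`, `ε''`, `e'` in the energy (uses the statements of `Eid`, `Wts`, `Nla`)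

Local bound used everywhere: for `φ` with `|φ| ≤ C e^{-3|y|/4}` (up to a factor `e^{|y|/32}`):
`∫|ε||φ| ≤ C(∫loc ε²)^{1/2}` since `loc ≥ e^{-3|y|/8}`-ish (`ex_le_loc`: `loc ≥ e^{-|y|/2}`, `φ²/loc ≤ C e^{-|y|}·e^{...}`
integrable) ; constants independent of `B, γ, ρ`.
* `ET2`: by definition of `EE` with `ζ = ΛQ`, `Q''` (no derivative falls on `ε'`), `|D| ≤ C|ε|`, `om ≤ e^{|y|/32}`.
* `ET3`: `EE_Qd`, `om' ≤ (2/B)e^{|y|/32}`, `|R| ≤ C s|ε|`.
* `ET5`: `EE_d`, `|bF| ≤ Cε²`, `∫om|R||Q'| ≤ C∫ e^{|y|/32}e^{-|y|}ε² ≤ C ln`.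
* `ET6`: `EE_dd`; `|om''| ≤ (2/B)om'`; `∫om|D||ε''| ≤ ∫om 2^k(Q^k+s^k)|ε||ε''| ≤ ∫om ε''² + C∫omQ^{2k}ε²+C s^{2k}∫omε²`.
* `ET7`: `EE_g`; `∫om'g² ≤ C Tn`, `om² ≤ om·om'/(2ρ)` (`om1_ge`), `om' ≤ om`, Cauchy-Schwarz.
-/

open MeasureTheory Filter Topology Set
open scoped ContDiff

namespace H98KB

theorem Emb_key : ∃ K : ℝ, 0 < K ∧ ∀ γ : ℝ, 0 < γ → γ ≤ 1 / 8 → ∀ B ρ : ℝ, Slow B ρ →
    ∀ (p q : ℝ) (ε : ℝ → ℝ), Adm ρ p q ε → ∀ (A : ℝ) (f : ℝ → ℝ), 0 ≤ A →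
    (∀ y, |f y| ≤ A * (Real.exp (-(23 / 32 * |y|)) * (|ε y| + |deriv ε y|))) →
    |∫ y, f y| ≤ A * K * √(ln γ B ε) := by
  refine ⟨√(∫ y, bd (15 / 16) (15 / 16) y) * √2 + 1, by positivity, ?_⟩
  intro γ hγ hγ' B ρ hs p q ε hε A f hA hf
  obtain ⟨hp1, -, hq, -, hC⟩ := hε
  have hρ := hs.2.1
  have hp : 0 < p := hρ.trans hp1
  have hB16 := hs.1
  have hB : 0 < B := by linarith
  have hC' := Cl_der hC
  have h2 : Cl (2 * p) (2 * q) (fun y => ε y ^ 2) := by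
    have h := Cl_pow hC 2
    norm_num at h
    exact h
  have h2' : Cl (2 * p) (2 * q) (fun y => deriv ε y ^ 2) := by
    have h := Cl_pow hC' 2
    norm_num at h
    exact h
  have hE := Cl_add h2 h2'
  have hFc : Continuous (fun y => |ε y| + |deriv ε y|) :=
    (Cl_cont hC).abs.add (Cl_cont hC').abs
  have hW : ∀ y, bd (1 / 2) (1 / 2) y ≤ 1 := by
    intro y
    rw [bd_abs]
    exact Real.exp_le_one_iff.2 (by have := abs_nonneg y; linarith)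
  have hsq : ∀ y, (|ε y| + |deriv ε y|) ^ 2 ≤ 2 * (ε y ^ 2 + deriv ε y ^ 2) := by
    intro y
    have h1 := sq_abs (ε y)
    have h3 := sq_abs (deriv ε y)
    nlinarith [sq_nonneg (|ε y| - |deriv ε y|)]
  have hWF : Integrable (fun y => bd (1 / 2) (1 / 2) y * (|ε y| + |deriv ε y|) ^ 2) := by
    obtain ⟨C, hC0, hCb⟩ := Cl_bnd hE
    refine int_of_bd (p := 2 * p) (q := 2 * q) ((bd_cont _ _).mul (hFc.pow 2)) (by linarith)
      (by linarith) ⟨2 * C, fun y => ?_⟩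
    have hb := (bd_pos (1 / 2) (1 / 2) y).le
    rw [abs_of_nonneg (mul_nonneg hb (sq_nonneg _))]
    calc _ ≤ 1 * (2 * (ε y ^ 2 + deriv ε y ^ 2)) :=
          mul_le_mul (hW y) (hsq y) (sq_nonneg _) zero_le_one
      _ ≤ 2 * (C * bd (2 * p) (2 * q) y) := by
          rw [one_mul]
          exact mul_le_mul_of_nonneg_left ((le_abs_self _).trans (hCb y)) (by norm_num)
      _ = _ := by ring
  have hφ2 : ∀ y, bd (23 / 32) (23 / 32) y ^ 2 / bd (1 / 2) (1 / 2) y = bd (15 / 16) (15 / 16) y := by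
    intro y
    have hb := (bd_pos (1 / 2) (1 / 2) y).ne'
    rw [div_eq_iff hb, bd_mul, pow_two, bd_mul]
    norm_num
  have hI : Integrable (fun y => bd (23 / 32) (23 / 32) y ^ 2 / bd (1 / 2) (1 / 2) y) := by
    simp only [hφ2]
    exact bd_int (by norm_num) (by norm_num)
  obtain ⟨hint, hcs⟩ := cs_wt (F := fun y => |ε y| + |deriv ε y|) (φ := bd (23 / 32) (23 / 32))
    (W := bd (1 / 2) (1 / 2)) hFc (bd_cont _ _) (bd_cont _ _) (fun y => bd_pos _ _ y) hWF hI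
  simp only [hφ2] at hcs
  have hln : ∫ y, bd (1 / 2) (1 / 2) y * (|ε y| + |deriv ε y|) ^ 2 ≤ 2 * ln γ B ε := by
    unfold ln
    rw [← integral_const_mul]
    refine integral_mono hWF ?_ fun y => ?_
    · refine Integrable.const_mul ?_ 2
      have h5 := Cl_mul (Cl_mul (Cl_se2 hγ) (Cl_ch hB)) hE
      have hB' : 0 < 2 / B := by positivity
      exact Cl_int h5 (by linarith) (by linarith)
    · show bd (1 / 2) (1 / 2) y * (|ε y| + |deriv ε y|) ^ 2 ≤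
        2 * (loc γ B y * (ε y ^ 2 + deriv ε y ^ 2))
      have h6 : bd (1 / 2) (1 / 2) y ≤ loc γ B y := by
        rw [bd_abs]
        refine le_trans (le_of_eq ?_) (ex_le_loc hγ hγ' hB16 y)
        congr 1
        ring
      calc _ ≤ loc γ B y * (2 * (ε y ^ 2 + deriv ε y ^ 2)) :=
            mul_le_mul h6 (hsq y) (sq_nonneg _) (loc_pos γ B y).le
        _ = _ := by ring
  have h7 : |∫ y, f y| ≤ ∫ y, A * ((|ε y| + |deriv ε y|) * bd (23 / 32) (23 / 32) y) := by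
    rw [← Real.norm_eq_abs]
    refine norm_integral_le_of_norm_le (hint.const_mul A) (Eventually.of_forall fun y => ?_)
    rw [Real.norm_eq_abs]
    refine (hf y).trans (le_of_eq ?_)
    rw [bd_abs]
    ring
  rw [integral_const_mul] at h7
  refine h7.trans ?_
  have h8 : ∫ y, (|ε y| + |deriv ε y|) * bd (23 / 32) (23 / 32) y ≤
      √(∫ y, bd (15 / 16) (15 / 16) y) * √(2 * ln γ B ε) := by
    refine (le_abs_self _).trans (hcs.trans ?_)
    exact mul_le_mul_of_nonneg_left (Real.sqrt_le_sqrt hln) (Real.sqrt_nonneg _)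
  rw [Real.sqrt_mul (by norm_num : (0 : ℝ) ≤ 2)] at h8
  have h9 := Real.sqrt_nonneg (ln γ B ε)
  calc _ ≤ A * (√(∫ y, bd (15 / 16) (15 / 16) y) * (√2 * √(ln γ B ε))) :=
        mul_le_mul_of_nonneg_left h8 hA
    _ ≤ A * (√(∫ y, bd (15 / 16) (15 / 16) y) * (√2 * √(ln γ B ε))) + A * √(ln γ B ε) := by
        have := mul_nonneg hA h9
        linarith
    _ = _ := by ring

theorem Emb_exp (y : ℝ) : Real.exp (|y| / 32) * bd (3 / 4) (3 / 4) y =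
    Real.exp (-(23 / 32 * |y|)) := by
  rw [bd_abs, ← Real.exp_add]
  congr 1
  ring

theorem Emb_D (k : ℕ) (hk : 1 ≤ k) : ∃ C : ℝ, 0 < C ∧ ∀ (ε : ℝ → ℝ) (y : ℝ), |ε y| ≤ 1 →
    |Df k ε y| ≤ C * |ε y| := by
  obtain ⟨M, hM, hQM, -⟩ := Nlb_max hk
  refine ⟨2 ^ k * (M ^ k + 1), by positivity, fun ε y hε => ?_⟩
  refine (D_le k ε y).trans (mul_le_mul_of_nonneg_right ?_ (abs_nonneg _))
  refine mul_le_mul_of_nonneg_left ?_ (by positivity)
  exact add_le_add (pow_le_pow_left₀ (Qf_pos k y).le (hQM y) k)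
    (pow_le_one₀ (abs_nonneg _) hε)

theorem Emb_EE (k : ℕ) (hk : 1 ≤ k) {ζ : ℝ → ℝ} (hζ : Cl (3 / 4) (3 / 4) ζ) : ∃ C : ℝ, 0 < C ∧
    ∀ γ : ℝ, 0 < γ → γ ≤ 1 / 8 →
    ∀ B ρ : ℝ, Slow B ρ → ∀ (p q : ℝ) (ε : ℝ → ℝ), Adm ρ p q ε → (∀ y, |ε y| ≤ 1) →
    |EE k B ρ ε ζ| ≤ C * √(ln γ B ε) := by
  obtain ⟨K, hK, hkey⟩ := Emb_key
  obtain ⟨CD, hCD, hD⟩ := Emb_D k hk
  obtain ⟨C0, hC0, hz0⟩ := Cl_bnd hζ
  obtain ⟨C1, hC1, hz1⟩ := Cl_bnd (Cl_der hζ)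
  refine ⟨((C0 + C1) * (1 + CD)) * K + 1, by positivity, ?_⟩
  intro γ hγ hγ' B ρ hs p q ε hε h1
  have h := hkey γ hγ hγ' B ρ hs p q ε hε ((C0 + C1) * (1 + CD))
    (fun y => om B ρ y * (deriv ε y * deriv ζ y + (ε y - Df k ε y) * ζ y)) (by positivity) ?_
  · unfold EE
    refine h.trans ?_
    have := Real.sqrt_nonneg (ln γ B ε)
    nlinarith
  · intro y
    have ho := om_hi hs y
    have hop := (om_pos B ρ y).le
    have hb := (bd_pos (3 / 4) (3 / 4) y).le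
    have a0 := abs_nonneg (ε y)
    have a1 := abs_nonneg (deriv ε y)
    have hin : |deriv ε y * deriv ζ y + (ε y - Df k ε y) * ζ y| ≤
        (C0 + C1) * (1 + CD) * (bd (3 / 4) (3 / 4) y * (|ε y| + |deriv ε y|)) := by
      have e1 : |deriv ε y * deriv ζ y| ≤ |deriv ε y| * (C1 * bd (3 / 4) (3 / 4) y) := by
        rw [abs_mul]
        exact mul_le_mul_of_nonneg_left (hz1 y) a1
      have e2 : |(ε y - Df k ε y) * ζ y| ≤ ((1 + CD) * |ε y|) * (C0 * bd (3 / 4) (3 / 4) y) := by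
        rw [abs_mul]
        refine mul_le_mul ?_ (hz0 y) (abs_nonneg _) (by positivity)
        have e3 := hD ε y (h1 y)
        have e4 := abs_sub (ε y) (Df k ε y)
        linarith
      refine (abs_add_le _ _).trans ((add_le_add e1 e2).trans ?_)
      have n1 : 0 ≤ CD * C1 * |deriv ε y| * bd (3 / 4) (3 / 4) y := by positivity
      have n2 : 0 ≤ C0 * |deriv ε y| * bd (3 / 4) (3 / 4) y * (1 + CD) := by positivity
      have n3 : 0 ≤ C1 * |ε y| * bd (3 / 4) (3 / 4) y * (1 + CD) := by positivity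
      nlinarith
    show |om B ρ y * (deriv ε y * deriv ζ y + (ε y - Df k ε y) * ζ y)| ≤ _
    rw [abs_mul, abs_of_nonneg hop]
    refine (mul_le_mul ho hin (abs_nonneg _) (Real.exp_pos _).le).trans (le_of_eq ?_)
    rw [← Emb_exp y]
    ring

theorem ET2 (k : ℕ) (hk : 5 ≤ k) : ∃ C : ℝ, 0 < C ∧ ∀ γ : ℝ, 0 < γ → γ ≤ 1 / 8 →
    ∀ B ρ : ℝ, Slow B ρ → ∀ (p q : ℝ) (ε : ℝ → ℝ), Adm ρ p q ε → (∀ y, |ε y| ≤ 1) →
    |EE k B ρ ε (Lam k (Qf k))| ≤ C * √(ln γ B ε) ∧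
    |EE k B ρ ε (deriv (deriv (Qf k)))| ≤ C * √(ln γ B ε) := by
  have hk1 : 1 ≤ k := by omega
  obtain ⟨C1, hC1, h1⟩ := Emb_EE k hk1 (Cl_LamQ hk1 (c := 3 / 4) (by norm_num))
  obtain ⟨C2, hC2, h2⟩ := Emb_EE k hk1 (ζ := deriv (deriv (Qf k)))
    (Cl_mono (Cl_der (Cl_der (Cl_Qf hk1))) (by norm_num) (by norm_num))
  refine ⟨C1 + C2, by positivity, ?_⟩
  intro γ hγ hγ' B ρ hs p q ε hε hb
  have e1 := h1 γ hγ hγ' B ρ hs p q ε hε hb
  have e2 := h2 γ hγ hγ' B ρ hs p q ε hε hb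
  have := Real.sqrt_nonneg (ln γ B ε)
  constructor
  · nlinarith
  · nlinarith

theorem ET3 (k : ℕ) (hk : 5 ≤ k) : ∃ C : ℝ, 0 < C ∧ ∀ γ : ℝ, 0 < γ → γ ≤ 1 / 8 →
    ∀ B ρ : ℝ, Slow B ρ → ∀ (p q s : ℝ) (ε : ℝ → ℝ), Adm ρ p q ε → s ≤ 1 → (∀ y, |ε y| ≤ s) →
    |EE k B ρ ε (deriv (Qf k))| ≤ C * (1 / B + s) * √(ln γ B ε) := by
  have hk1 : 1 ≤ k := by omega
  obtain ⟨K, hK, hkey⟩ := Emb_key
  obtain ⟨CR, hCR, hR⟩ := R_le k (by omega)
  have hQ1 : Cl (3 / 4) (3 / 4) (deriv (Qf k)) :=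
    Cl_mono (Cl_der (Cl_Qf hk1)) (by norm_num) (by norm_num)
  obtain ⟨C1, hC1, hz1⟩ := Cl_bnd hQ1
  obtain ⟨C2, hC2, hz2⟩ := Cl_bnd (Cl_der hQ1)
  refine ⟨2 * C2 * K + CR * C1 * K + 1, by positivity, ?_⟩
  intro γ hγ hγ' B ρ hs p q s ε hε hs1 hb
  have hB16 := hs.1
  have hB : 0 < B := by linarith
  have hs0 : 0 ≤ s := (abs_nonneg _).trans (hb 0)
  rw [EE_Qd hk1 hs hε]
  have h1 := hkey γ hγ hγ' B ρ hs p q ε hε (2 / B * C2)
    (fun y => deriv (om B ρ) y * (ε y * deriv (deriv (Qf k)) y)) (by positivity) (by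
      intro y
      have ho := om1_hi hs y
      have hop := (om1_pos hs y).le
      have a1 := abs_nonneg (deriv ε y)
      show |deriv (om B ρ) y * (ε y * deriv (deriv (Qf k)) y)| ≤ _
      rw [abs_mul, abs_of_nonneg hop, abs_mul]
      have e1 : |ε y| * |deriv (deriv (Qf k)) y| ≤
          (|ε y| + |deriv ε y|) * (C2 * bd (3 / 4) (3 / 4) y) :=
        mul_le_mul (by linarith) (hz2 y) (abs_nonneg _) (by positivity)
      refine (mul_le_mul ho e1 (by positivity) (by positivity)).trans (le_of_eq ?_)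
      rw [← Emb_exp y]
      ring)
  have h2 := hkey γ hγ hγ' B ρ hs p q ε hε (CR * s * C1)
    (fun y => om B ρ y * (Rf k ε y * deriv (Qf k) y)) (by positivity) (by
      intro y
      have ho := om_hi hs y
      have hop := (om_pos B ρ y).le
      have a0 := abs_nonneg (ε y)
      have a1 := abs_nonneg (deriv ε y)
      show |om B ρ y * (Rf k ε y * deriv (Qf k) y)| ≤ _
      rw [abs_mul, abs_of_nonneg hop, abs_mul]
      have e0 : |Rf k ε y| ≤ CR * s * (|ε y| + |deriv ε y|) := by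
        refine (hR ε y ((hb y).trans hs1)).trans ?_
        rw [mul_assoc]
        refine mul_le_mul_of_nonneg_left ?_ hCR.le
        rw [← sq_abs, pow_two]
        exact mul_le_mul (hb y) (by linarith) a0 hs0
      have e1 : |Rf k ε y| * |deriv (Qf k) y| ≤
          (CR * s * (|ε y| + |deriv ε y|)) * (C1 * bd (3 / 4) (3 / 4) y) :=
        mul_le_mul e0 (hz1 y) (abs_nonneg _) (by positivity)
      refine (mul_le_mul ho e1 (by positivity) (by positivity)).trans (le_of_eq ?_)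
      rw [← Emb_exp y]
      ring)
  have h3 := Real.sqrt_nonneg (ln γ B ε)
  have hB' : 0 < 1 / B := by positivity
  have h4 : |-(∫ y, deriv (om B ρ) y * (ε y * deriv (deriv (Qf k)) y)) -
      ∫ y, om B ρ y * (Rf k ε y * deriv (Qf k) y)| ≤
      2 / B * C2 * K * √(ln γ B ε) + CR * s * C1 * K * √(ln γ B ε) := by
    refine (abs_sub _ _).trans ?_
    rw [abs_neg]
    exact add_le_add h1 h2
  refine h4.trans ?_
  have e : 2 / B = 2 * (1 / B) := by ring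
  rw [e]
  have n1 : 0 ≤ 2 * C2 * K * s * √(ln γ B ε) := by positivity
  have n2 : 0 ≤ CR * C1 * K * (1 / B) * √(ln γ B ε) := by positivity
  have n3 : 0 ≤ (1 / B + s) * √(ln γ B ε) := by positivity
  nlinarith

end H98KB

end S_H98_KB_Emb

section S_H98_KB_Emd

/-!
# Emd (second half of Emb) : the source terms, `ε'`, `ε''`, `e'` in the energy (uses the statements of `Eid`, `Wts`, `Nla`)

Local bound used everywhere: for `φ` with `|φ| ≤ C e^{-3|y|/4}` (up to a factor `e^{|y|/32}`):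
`∫|ε||φ| ≤ C(∫loc ε²)^{1/2}` since `loc ≥ e^{-3|y|/8}`-ish (`ex_le_loc`: `loc ≥ e^{-|y|/2}`, `φ²/loc ≤ C e^{-|y|}·e^{...}`
integrable) ; constants independent of `B, γ, ρ`.
* `ET2`: by definition of `EE` with `ζ = ΛQ`, `Q''` (no derivative falls on `ε'`), `|D| ≤ C|ε|`, `om ≤ e^{|y|/32}`.
* `ET3`: `EE_Qd`, `om' ≤ (2/B)e^{|y|/32}`, `|R| ≤ C s|ε|`.
* `ET5`: `EE_d`, `|bF| ≤ Cε²`, `∫om|R||Q'| ≤ C∫ e^{|y|/32}e^{-|y|}ε² ≤ C ln`.
* `ET6`: `EE_dd`; `|om''| ≤ (2/B)om'`; `∫om|D||ε''| ≤ ∫om 2^k(Q^k+s^k)|ε||ε''| ≤ ∫om ε''² + C∫omQ^{2k}ε²+C s^{2k}∫omε²`.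
* `ET7`: `EE_g`; `∫om'g² ≤ C Tn`, `om² ≤ om·om'/(2ρ)` (`om1_ge`), `om' ≤ om`, Cauchy-Schwarz.
-/

open MeasureTheory Filter Topology Set
open scoped ContDiff

namespace H98KB

theorem Emd_sq {p q : ℝ} {f g : ℝ → ℝ} (hf : Cl p q f) (hg : Cl p q g) :
    Cl (2 * p) (2 * q) (fun y => f y * g y) :=
  Cl_mono (Cl_mul hf hg) (by linarith) (by linarith)

theorem Emd_sq' {p q : ℝ} {f : ℝ → ℝ} (hf : Cl p q f) :
    Cl (2 * p) (2 * q) (fun y => f y ^ 2) := by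
  have h := Emd_sq hf hf
  have e : (fun y => f y ^ 2) = fun y => f y * f y := by funext y; ring
  rw [e]; exact h

theorem Emd_int {B ρ p q γ : ℝ} {ε F : ℝ → ℝ} (hs : Slow B ρ) (hε : Adm ρ p q ε) (hγ : 0 < γ)
    (hF : Cl (2 * p) (2 * q) F) :
    Integrable (fun y => om B ρ y * F y) ∧ Integrable (fun y => deriv (om B ρ) y * F y) ∧
      Integrable (fun y => deriv (deriv (om B ρ)) y * F y) ∧
      Integrable (fun y => loc γ B y * F y) := by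
  obtain ⟨h1, h2, h3⟩ := hs
  obtain ⟨a1, a2, a3, a4, a5⟩ := hε
  have hB : 0 < B := by linarith
  have hBi : 0 < 1 / B := by positivity
  have c0 := Cl_om hB ρ
  have c1 := Cl_der c0
  have c2 := Cl_der c1
  have cl : Cl (2 * γ + 2 / B) (2 * γ + 2 / B) (loc γ B) := Cl_mul (Cl_se2 hγ) (Cl_ch hB)
  have hB2 : 0 < 2 / B := by positivity
  exact ⟨Cl_int (Cl_mul c0 hF) (by linarith) (by linarith),
    Cl_int (Cl_mul c1 hF) (by linarith) (by linarith),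
    Cl_int (Cl_mul c2 hF) (by linarith) (by linarith),
    Cl_int (Cl_mul cl hF) (by linarith) (by linarith)⟩

theorem Emd_omQ (k : ℕ) (hk : 1 ≤ k) : ∃ C : ℝ, 0 < C ∧ ∀ γ : ℝ, 0 < γ → γ ≤ 1 / 8 →
    ∀ B ρ : ℝ, Slow B ρ → ∀ y, om B ρ y * Qf k y ≤ C * loc γ B y := by
  obtain ⟨C, hC, hQ⟩ := Qf_hi hk
  refine ⟨C, hC, fun γ hγ hγ' B ρ hs y => ?_⟩
  have h1 := om_hi hs y
  have h2 := ex_le_loc hγ hγ' hs.1 y
  have h3 : om B ρ y * Qf k y ≤ Real.exp (|y| / 32) * (C * Real.exp (-|y|)) :=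
    mul_le_mul h1 (hQ y) (Qf_pos k y).le (Real.exp_pos _).le
  have h4 : Real.exp (|y| / 32) * (C * Real.exp (-|y|)) = C * Real.exp (|y| / 32 + -|y|) := by
    rw [Real.exp_add]; ring
  have h5 : Real.exp (|y| / 32 + -|y|) ≤ Real.exp (-(|y| / 2)) :=
    Real.exp_le_exp.2 (by linarith [abs_nonneg y])
  calc _ ≤ _ := h3
    _ = _ := h4
    _ ≤ C * Real.exp (-(|y| / 2)) := mul_le_mul_of_nonneg_left h5 hC.le
    _ ≤ _ := mul_le_mul_of_nonneg_left h2 hC.le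

theorem Emd_Tn {B ρ p q : ℝ} {ε : ℝ → ℝ} (hs : Slow B ρ) (hε : Adm ρ p q ε) :
    (∫ y, deriv (om B ρ) y * ((deriv ε y) ^ 2 + (ε y) ^ 2)) ≤ Tn B ρ ε ∧
    (∫ y, deriv (om B ρ) y * (ε y) ^ 2) ≤ Tn B ρ ε ∧
    0 ≤ ∫ y, deriv (om B ρ) y * ((deriv ε y) ^ 2 + (ε y) ^ 2) := by
  have c := hε.2.2.2.2
  have s0 := Emd_sq' c
  have s1 := Emd_sq' (Cl_der c)
  have s2 := Emd_sq' (Cl_der (Cl_der c))
  have i0 := (Emd_int hs hε (γ := 1) one_pos s0).2.1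
  have i1 := (Emd_int hs hε (γ := 1) one_pos (Cl_add s1 s0)).2.1
  have i2 := (Emd_int hs hε (γ := 1) one_pos (Cl_add (Cl_add s0 s1) s2)).2.1
  refine ⟨integral_mono i1 i2 fun y => ?_, integral_mono i0 i2 fun y => ?_,
    integral_nonneg fun y => ?_⟩
  · refine mul_le_mul_of_nonneg_left ?_ (om1_pos hs y).le
    nlinarith [sq_nonneg (deriv (deriv ε) y)]
  · refine mul_le_mul_of_nonneg_left ?_ (om1_pos hs y).le
    nlinarith [sq_nonneg (deriv (deriv ε) y), sq_nonneg (deriv ε y)]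
  · exact mul_nonneg (om1_pos hs y).le (by positivity)

theorem Emd_ln {γ B ρ p q : ℝ} {ε : ℝ → ℝ} (hγ : 0 < γ) (hs : Slow B ρ) (hε : Adm ρ p q ε) :
    (∫ y, loc γ B y * (ε y) ^ 2) ≤ ln γ B ε := by
  have c := hε.2.2.2.2
  have s0 := Emd_sq' c
  have s1 := Emd_sq' (Cl_der c)
  refine integral_mono (Emd_int hs hε hγ s0).2.2.2 (Emd_int hs hε hγ (Cl_add s0 s1)).2.2.2
    fun y => ?_
  refine mul_le_mul_of_nonneg_left ?_ (loc_pos γ B y).le
  nlinarith [sq_nonneg (deriv ε y)]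

theorem Emd_Gn {B ρ p q : ℝ} {ε : ℝ → ℝ} (hs : Slow B ρ) (hε : Adm ρ p q ε) :
    (∫ y, om B ρ y * (ε y) ^ 2) ≤ Gn B ρ ε := by
  have c := hε.2.2.2.2
  have s0 := Emd_sq' c
  have s1 := Emd_sq' (Cl_der c)
  refine integral_mono (Emd_int hs hε (γ := 1) one_pos s0).1
    (Emd_int hs hε (γ := 1) one_pos (Cl_add s0 s1)).1 fun y => ?_
  refine mul_le_mul_of_nonneg_left ?_ (om_pos B ρ y).le
  nlinarith [sq_nonneg (deriv ε y)]

theorem Emd_Qd (k : ℕ) (hk : 1 ≤ k) (y : ℝ) : |deriv (Qf k) y| ≤ Qf k y := by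
  rw [Qf_deriv hk, abs_mul, abs_neg, abs_of_pos (Qf_pos k y)]
  nlinarith [th_abs_lt k y, Qf_pos k y]

theorem ET5 (k : ℕ) (hk : 5 ≤ k) : ∃ C : ℝ, 0 < C ∧ ∀ γ : ℝ, 0 < γ → γ ≤ 1 / 8 →
    ∀ B ρ : ℝ, Slow B ρ → ∀ (p q : ℝ) (ε : ℝ → ℝ), Adm ρ p q ε → (∀ y, |ε y| ≤ 1) →
    |EE k B ρ ε (deriv ε)| ≤ C * (Tn B ρ ε + ln γ B ε) := by
  have hk1 : 1 ≤ k := by omega
  obtain ⟨C1, hC1, hQ1⟩ := Emd_omQ k hk1
  obtain ⟨C2, hC2, hb⟩ := bF_le k (by omega)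
  obtain ⟨C3, hC3, hR⟩ := R_le k (by omega)
  obtain ⟨M, hM, hQM, -⟩ := Nlb_max (k := k) hk1
  refine ⟨1 + C2 * (M ^ k + 1) + C3 * C1, by positivity, fun γ hγ hγ' B ρ hs p q ε hε hb1 => ?_⟩
  have c := hε.2.2.2.2
  have s0 := Emd_sq' c
  obtain ⟨a1, a2, a3, a4, -⟩ := hε
  have hε : Adm ρ p q ε := ⟨a1, a2, a3, a4, c⟩
  have a5 : 0 < p := by linarith [hs.2.1]
  obtain ⟨T1, T2, T3⟩ := Emd_Tn hs hε
  have L1 := Emd_ln hγ hs hε
  rw [EE_d hk1 hs hε]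
  -- the term with `bF`
  have cb : Cl (2 * p) (2 * q) (bF k ε) := Cl_bF hk1 a5.le a3.le (by linarith) (by linarith) c
  have ib := (Emd_int hs hε hγ cb).2.1
  have i0 := (Emd_int hs hε hγ s0).2.1
  have hbF : |∫ y, deriv (om B ρ) y * bF k ε y| ≤ C2 * (M ^ k + 1) * Tn B ρ ε := by
    have h1 : |∫ y, deriv (om B ρ) y * bF k ε y| ≤
        ∫ y, C2 * (M ^ k + 1) * (deriv (om B ρ) y * (ε y) ^ 2) := by
      rw [← Real.norm_eq_abs]
      refine norm_integral_le_of_norm_le (i0.const_mul _) (Eventually.of_forall fun y => ?_)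
      rw [Real.norm_eq_abs, abs_mul, abs_of_pos (om1_pos hs y)]
      have h2 : |bF k ε y| ≤ C2 * (M ^ k + 1) * (ε y) ^ 2 := by
        refine (hb ε y).trans ?_
        have h3 : Qf k y ^ k ≤ M ^ k := pow_le_pow_left₀ (Qf_pos k y).le (hQM y) k
        have h4 : |ε y| ^ k ≤ 1 := pow_le_one₀ (abs_nonneg _) (hb1 y)
        refine mul_le_mul_of_nonneg_right ?_ (sq_nonneg _)
        exact mul_le_mul_of_nonneg_left (by linarith) hC2.le
      calc _ ≤ deriv (om B ρ) y * (C2 * (M ^ k + 1) * (ε y) ^ 2) :=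
            mul_le_mul_of_nonneg_left h2 (om1_pos hs y).le
        _ = _ := by ring
    rw [integral_const_mul] at h1
    exact h1.trans (mul_le_mul_of_nonneg_left T2 (by positivity))
  -- the term with `R Q'`
  have il := (Emd_int hs hε hγ s0).2.2.2
  have hRQ : |∫ y, om B ρ y * (Rf k ε y * deriv (Qf k) y)| ≤ C3 * C1 * ln γ B ε := by
    have h1 : |∫ y, om B ρ y * (Rf k ε y * deriv (Qf k) y)| ≤
        ∫ y, C3 * C1 * (loc γ B y * (ε y) ^ 2) := by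
      rw [← Real.norm_eq_abs]
      refine norm_integral_le_of_norm_le (il.const_mul _) (Eventually.of_forall fun y => ?_)
      rw [Real.norm_eq_abs, abs_mul, abs_mul, abs_of_pos (om_pos B ρ y)]
      have h2 := hR ε y (hb1 y)
      have h3 := Emd_Qd k hk1 y
      have h4 := hQ1 γ hγ hγ' B ρ hs y
      have h5 : |Rf k ε y| * |deriv (Qf k) y| ≤ (C3 * (ε y) ^ 2) * Qf k y :=
        mul_le_mul h2 h3 (abs_nonneg _) (by positivity)
      calc om B ρ y * (|Rf k ε y| * |deriv (Qf k) y|)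
          ≤ om B ρ y * ((C3 * (ε y) ^ 2) * Qf k y) :=
            mul_le_mul_of_nonneg_left h5 (om_pos B ρ y).le
        _ = (C3 * (ε y) ^ 2) * (om B ρ y * Qf k y) := by ring
        _ ≤ (C3 * (ε y) ^ 2) * (C1 * loc γ B y) :=
            mul_le_mul_of_nonneg_left h4 (by positivity)
        _ = _ := by ring
    rw [integral_const_mul] at h1
    exact h1.trans (mul_le_mul_of_nonneg_left L1 (by positivity))
  have hTn : 0 ≤ Tn B ρ ε := T3.trans T1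
  have hln : 0 ≤ ln γ B ε :=
    (integral_nonneg fun y => mul_nonneg (loc_pos γ B y).le (sq_nonneg _)).trans L1
  have f1 : |(-(1 / 2) * (∫ y, deriv (om B ρ) y * ((deriv ε y) ^ 2 + (ε y) ^ 2)))| ≤
      1 * Tn B ρ ε := by
    rw [abs_mul, abs_of_nonneg T3, abs_neg, abs_of_pos (by norm_num : (0 : ℝ) < 1 / 2)]
    linarith
  refine (abs_add_le _ _).trans ((add_le_add (abs_add_le _ _) le_rfl).trans ?_)
  have g1 : 0 ≤ C2 * (M ^ k + 1) * ln γ B ε := by positivity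
  have g2 : 0 ≤ C3 * C1 * Tn B ρ ε := by positivity
  (first | linarith only [f1, g1, g2, hRQ, hbF, hln] | nlinarith only [f1, g1, g2, hRQ, hbF, hln])

theorem ET6 (k : ℕ) (hk : 5 ≤ k) : ∃ C : ℝ, 0 < C ∧ ∀ γ : ℝ, 0 < γ → γ ≤ 1 / 8 →
    ∀ B ρ : ℝ, Slow B ρ → ∀ (p q s : ℝ) (ε : ℝ → ℝ), Adm ρ p q ε → s ≤ 1 → (∀ y, |ε y| ≤ s) →
    EE k B ρ ε (deriv (deriv ε)) ≤ C * (Tn B ρ ε + ln γ B ε) + C * s * Gn B ρ ε := by
  have hk1 : 1 ≤ k := by omega
  obtain ⟨C1, hC1, hQ1⟩ := Emd_omQ k hk1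
  obtain ⟨M, hM, hQM, -⟩ := Nlb_max (k := k) hk1
  refine ⟨1 + (2 ^ k) ^ 2 * (M ^ (2 * k) * C1) + (2 ^ k) ^ 2, by positivity,
    fun γ hγ hγ' B ρ hs p q s ε hε hs1 hb1 => ?_⟩
  have c := hε.2.2.2.2
  have s0 := Emd_sq' c
  have s1 := Emd_sq' (Cl_der c)
  have s2 := Emd_sq' (Cl_der (Cl_der c))
  obtain ⟨a1, a2, a3, a4, -⟩ := hε
  have hε : Adm ρ p q ε := ⟨a1, a2, a3, a4, c⟩
  have a5 : 0 < p := by linarith [hs.2.1]
  have hsn : 0 ≤ s := (abs_nonneg _).trans (hb1 0)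
  obtain ⟨T1, T2, T3⟩ := Emd_Tn hs hε
  have L1 := Emd_ln hγ hs hε
  have G1 := Emd_Gn hs hε
  rw [EE_dd hk1 hs hε]
  have hB : 0 < B := by linarith [hs.1]
  have hTn : 0 ≤ Tn B ρ ε := T3.trans T1
  have hln : 0 ≤ ln γ B ε :=
    (integral_nonneg fun y => mul_nonneg (loc_pos γ B y).le (sq_nonneg _)).trans L1
  have hGn : 0 ≤ Gn B ρ ε :=
    (integral_nonneg fun y => mul_nonneg (om_pos B ρ y).le (sq_nonneg _)).trans G1
  -- second derivative of the weight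
  have h2 : (∫ y, deriv (deriv (om B ρ)) y * ((deriv ε y) ^ 2 + (ε y) ^ 2)) ≤ Tn B ρ ε := by
    have j1 := (Emd_int hs hε hγ (Cl_add s1 s0)).2.2.1
    have j2 := (Emd_int hs hε hγ (Cl_add s1 s0)).2.1
    refine (integral_mono j1 j2 fun y => ?_).trans T1
    refine mul_le_mul_of_nonneg_right ?_ (by positivity)
    refine (le_abs_self _).trans ((om2_le hs y).trans ?_)
    have h3 : 2 / B ≤ 1 := by rw [div_le_one hB]; linarith [hs.1]
    (first | linarith only [om1_pos hs y, h3, hs, hγ, hγ'] | nlinarith only [om1_pos hs y, h3, hs, hγ, hγ'])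
  have h3 : 0 ≤ ∫ y, om B ρ y * (deriv ε y) ^ 2 :=
    integral_nonneg fun y => mul_nonneg (om_pos B ρ y).le (sq_nonneg _)
  -- the nonlinear term
  have cD : Cl p q (Df k ε) := Cl_Df hk1 a5.le a3.le c
  have iD := (Emd_int hs hε hγ (Emd_sq cD (Cl_der (Cl_der c)))).1
  have i2 := (Emd_int hs hε hγ s2).1
  have i0 := (Emd_int hs hε hγ s0).1
  have il := (Emd_int hs hε hγ s0).2.2.2
  have h4 : -(∫ y, om B ρ y * (Df k ε y * deriv (deriv ε) y)) ≤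
      (∫ y, om B ρ y * (deriv (deriv ε) y) ^ 2)
      + ((2 ^ k) ^ 2 * (M ^ (2 * k) * C1) * (∫ y, loc γ B y * (ε y) ^ 2)
      + (2 ^ k) ^ 2 * s * ∫ y, om B ρ y * (ε y) ^ 2) := by
    have j3 : Integrable (fun y => (2 ^ k) ^ 2 * (M ^ (2 * k) * C1) * (loc γ B y * (ε y) ^ 2)
        + (2 ^ k) ^ 2 * s * (om B ρ y * (ε y) ^ 2)) := (il.const_mul _).add (i0.const_mul _)
    rw [← integral_neg, ← integral_const_mul, ← integral_const_mul,
      ← integral_add (il.const_mul _) (i0.const_mul _), ← integral_add i2 j3]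
    refine integral_mono iD.neg (i2.add j3) fun y => ?_
    have g1 := D_le k ε y
    have g2 := hQ1 γ hγ hγ' B ρ hs y
    have g3 := om_pos B ρ y
    have hQp := Qf_pos k y
    -- `D² ≤ 2 · 4^k (Q^{2k} + s) ε²`
    have g4 : |ε y| ^ k ≤ 1 := pow_le_one₀ (abs_nonneg _) ((hb1 y).trans hs1)
    have g5 : |ε y| ^ k ≤ s := by
      have : |ε y| ^ k ≤ |ε y| ^ 1 :=
        pow_le_pow_of_le_one (abs_nonneg _) ((hb1 y).trans hs1) hk1
      rw [pow_one] at this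
      exact this.trans (hb1 y)
    have g6 : (|ε y| ^ k) ^ 2 ≤ s := by
      have h0 : 0 ≤ |ε y| ^ k := by positivity
      (first | linarith only [g4, g5, h0, hγ, hγ'] | nlinarith only [g4, g5, h0, hγ, hγ'])
    have g7 : (Qf k y ^ k) ^ 2 ≤ M ^ (2 * k) * Qf k y := by
      have e1 : (Qf k y ^ k) ^ 2 = Qf k y ^ (2 * k - 1) * Qf k y := by
        rw [← pow_mul, ← pow_succ]; congr 1; omega
      have e2 : Qf k y ^ (2 * k - 1) ≤ M ^ (2 * k - 1) := pow_le_pow_left₀ hQp.le (hQM y) _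
      have e3 : M ^ (2 * k - 1) ≤ M ^ (2 * k) := pow_le_pow_right₀ hM (by omega)
      rw [e1]
      exact mul_le_mul_of_nonneg_right (e2.trans e3) hQp.le
    have g8 : (Df k ε y) ^ 2 ≤ 2 * ((2 ^ k) ^ 2 * (M ^ (2 * k) * Qf k y + s) * (ε y) ^ 2) := by
      have e1 := pow_le_pow_left₀ (abs_nonneg _) g1 2
      rw [sq_abs] at e1
      have e2 : (2 ^ k * (Qf k y ^ k + |ε y| ^ k) * |ε y|) ^ 2 =
          (2 ^ k) ^ 2 * (Qf k y ^ k + |ε y| ^ k) ^ 2 * (ε y) ^ 2 := by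
        rw [mul_pow, mul_pow, sq_abs]
      rw [e2] at e1
      refine e1.trans ?_
      have e3 : (Qf k y ^ k + |ε y| ^ k) ^ 2 ≤ 2 * (M ^ (2 * k) * Qf k y + s) := by
        (first | linarith only [sq_nonneg (Qf k y ^ k - |ε y| ^ k), g6, g7] | nlinarith only [sq_nonneg (Qf k y ^ k - |ε y| ^ k), g6, g7])
      calc (2 ^ k) ^ 2 * (Qf k y ^ k + |ε y| ^ k) ^ 2 * (ε y) ^ 2
          ≤ (2 ^ k) ^ 2 * (2 * (M ^ (2 * k) * Qf k y + s)) * (ε y) ^ 2 := by gcongr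
        _ = _ := by ring
    have g9 : -(Df k ε y * deriv (deriv ε) y) ≤ (deriv (deriv ε) y) ^ 2 + 1 / 2 * (Df k ε y) ^ 2 := by
      (first | linarith only [sq_nonneg (Df k ε y + deriv (deriv ε) y), sq_nonneg (deriv (deriv ε) y)] | nlinarith only [sq_nonneg (Df k ε y + deriv (deriv ε) y), sq_nonneg (deriv (deriv ε) y)])
    have g10 : -(Df k ε y * deriv (deriv ε) y) ≤ (deriv (deriv ε) y) ^ 2 +
        (2 ^ k) ^ 2 * (M ^ (2 * k) * Qf k y + s) * (ε y) ^ 2 := by linarith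
    have g11 := mul_le_mul_of_nonneg_left g10 g3.le
    have g12 : (2 ^ k) ^ 2 * M ^ (2 * k) * (ε y) ^ 2 * (om B ρ y * Qf k y) ≤
        (2 ^ k) ^ 2 * M ^ (2 * k) * (ε y) ^ 2 * (C1 * loc γ B y) :=
      mul_le_mul_of_nonneg_left g2 (by positivity)
    simp only [Pi.add_apply]
    calc -(om B ρ y * (Df k ε y * deriv (deriv ε) y))
        = om B ρ y * (-(Df k ε y * deriv (deriv ε) y)) := by ring
      _ ≤ _ := g11
      _ = om B ρ y * (deriv (deriv ε) y) ^ 2 +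
          ((2 ^ k) ^ 2 * M ^ (2 * k) * (ε y) ^ 2 * (om B ρ y * Qf k y)
          + (2 ^ k) ^ 2 * s * (om B ρ y * (ε y) ^ 2)) := by ring
      _ ≤ om B ρ y * (deriv (deriv ε) y) ^ 2 +
          ((2 ^ k) ^ 2 * M ^ (2 * k) * (ε y) ^ 2 * (C1 * loc γ B y)
          + (2 ^ k) ^ 2 * s * (om B ρ y * (ε y) ^ 2)) := by linarith
      _ = _ := by ring
  have h5 : (2 ^ k) ^ 2 * (M ^ (2 * k) * C1) * (∫ y, loc γ B y * (ε y) ^ 2) ≤
      (2 ^ k) ^ 2 * (M ^ (2 * k) * C1) * ln γ B ε :=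
    mul_le_mul_of_nonneg_left L1 (by positivity)
  have h6 : (2 ^ k) ^ 2 * s * (∫ y, om B ρ y * (ε y) ^ 2) ≤ (2 ^ k) ^ 2 * s * Gn B ρ ε :=
    mul_le_mul_of_nonneg_left G1 (by positivity)
  have k1 : 0 ≤ (2 ^ k) ^ 2 * (M ^ (2 * k) * C1) * Tn B ρ ε := by positivity
  have k2 : 0 ≤ (2 ^ k) ^ 2 * (M ^ (2 * k) * C1) * (s * Gn B ρ ε) := by positivity
  have k3 : 0 ≤ ((2 : ℝ) ^ k) ^ 2 * (Tn B ρ ε + ln γ B ε) := by positivity
  have k4 : 0 ≤ s * Gn B ρ ε := by positivity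
  (first | linarith only [T1, T3, h2, h3, h4, h5, h6, hln, k1, k2, k3, k4] | nlinarith only [T1, T3, h2, h3, h4, h5, h6, hln, k1, k2, k3, k4])

end H98KB

end S_H98_KB_Emd

section S_H98_KB_Eme

/-!
# Eme (second half of Emb) : the source terms, `ε'`, `ε''`, `e'` in the energy (uses the statements of `Eid`, `Wts`, `Nla`)

Local bound used everywhere: for `φ` with `|φ| ≤ C e^{-3|y|/4}` (up to a factor `e^{|y|/32}`):
`∫|ε||φ| ≤ C(∫loc ε²)^{1/2}` since `loc ≥ e^{-3|y|/8}`-ish (`ex_le_loc`: `loc ≥ e^{-|y|/2}`, `φ²/loc ≤ C e^{-|y|}·e^{...}`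
integrable) ; constants independent of `B, γ, ρ`.
* `ET2`: by definition of `EE` with `ζ = ΛQ`, `Q''` (no derivative falls on `ε'`), `|D| ≤ C|ε|`, `om ≤ e^{|y|/32}`.
* `ET3`: `EE_Qd`, `om' ≤ (2/B)e^{|y|/32}`, `|R| ≤ C s|ε|`.
* `ET5`: `EE_d`, `|bF| ≤ Cε²`, `∫om|R||Q'| ≤ C∫ e^{|y|/32}e^{-|y|}ε² ≤ C ln`.
* `ET6`: `EE_dd`; `|om''| ≤ (2/B)om'`; `∫om|D||ε''| ≤ ∫om 2^k(Q^k+s^k)|ε||ε''| ≤ ∫om ε''² + C∫omQ^{2k}ε²+C s^{2k}∫omε²`.
* `ET7`: `EE_g`; `∫om'g² ≤ C Tn`, `om² ≤ om·om'/(2ρ)` (`om1_ge`), `om' ≤ om`, Cauchy-Schwarz.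
-/

open MeasureTheory Filter Topology Set
open scoped ContDiff

namespace H98KB

theorem Eme_g (k : ℕ) (hk : 5 ≤ k) : ∃ C : ℝ, 0 < C ∧ ∀ (ε : ℝ → ℝ) (y : ℝ), |ε y| ≤ 1 →
    (gf k ε y) ^ 2 ≤ C * ((ε y) ^ 2 + (deriv ε y) ^ 2 + (deriv (deriv ε) y) ^ 2) := by
  obtain ⟨M, hM, hQ, -⟩ := Nlb_max (k := k) (by omega)
  refine ⟨2 * (1 + (1 + 2 ^ k * (M ^ k + 1)) ^ 2), by positivity, fun ε y h1 => ?_⟩
  have hD := D_le k ε y
  have hQk : Qf k y ^ k ≤ M ^ k := pow_le_pow_left₀ (Qf_pos k y).le (hQ y) k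
  have hek : |ε y| ^ k ≤ 1 := pow_le_one₀ (abs_nonneg _) h1
  have hD2 : |Df k ε y| ≤ 2 ^ k * (M ^ k + 1) * |ε y| := by
    refine hD.trans ?_
    apply mul_le_mul_of_nonneg_right _ (abs_nonneg _)
    apply mul_le_mul_of_nonneg_left _ (by positivity)
    linarith
  set K : ℝ := 2 ^ k * (M ^ k + 1) with hK
  have hK0 : 0 ≤ K := by rw [hK]; positivity
  have hg : |gf k ε y| ≤ |deriv (deriv ε) y| + (1 + K) * |ε y| := by
    unfold gf
    have e1 : |(-deriv (deriv ε) y + ε y - Df k ε y)| ≤ |deriv (deriv ε) y| + |ε y| + |Df k ε y| := by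
      have a1 := abs_sub (-deriv (deriv ε) y + ε y) (Df k ε y)
      have a2 := abs_add_le (-deriv (deriv ε) y) (ε y)
      rw [abs_neg] at a2
      linarith
    linarith
  have hg2 : (gf k ε y) ^ 2 ≤ (|deriv (deriv ε) y| + (1 + K) * |ε y|) ^ 2 := by
    rw [← sq_abs (gf k ε y)]
    exact pow_le_pow_left₀ (abs_nonneg _) hg 2
  have s1 := sq_abs (deriv (deriv ε) y)
  have s2 := sq_abs (ε y)
  have t1 : (|deriv (deriv ε) y| + (1 + K) * |ε y|) ^ 2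
      ≤ 2 * (deriv (deriv ε) y) ^ 2 + 2 * (1 + K) ^ 2 * (ε y) ^ 2 := by
    rw [← s1, ← s2]
    (first | linarith only [sq_nonneg (|deriv (deriv ε) y| - (1 + K) * |ε y|)] | nlinarith only [sq_nonneg (|deriv (deriv ε) y| - (1 + K) * |ε y|)])
  have t2 : 0 ≤ (1 + K) ^ 2 * (deriv (deriv ε) y) ^ 2 := by positivity
  have t3 : 0 ≤ (1 + K) ^ 2 * (deriv ε y) ^ 2 := by positivity
  have t4 : 0 ≤ (ε y) ^ 2 := by positivity
  have t5 : 0 ≤ (deriv ε y) ^ 2 := by positivity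
  (first | linarith only [hg2, t1, t2, t3] | nlinarith only [hg2, t1, t2, t3])

theorem Eme_cs {F φ W V : ℝ → ℝ} (hF : Continuous F) (hφ : Continuous φ) (hW : Continuous W)
    (hWp : ∀ y, 0 < W y) (hF2 : Integrable (fun y => W y * F y ^ 2))
    (hV : Integrable V) (hVφ : ∀ y, φ y ^ 2 / W y ≤ V y) :
    |∫ y, F y * φ y| ≤ √(∫ y, V y) * √(∫ y, W y * F y ^ 2) := by
  have hc : Continuous fun y => φ y ^ 2 / W y := (hφ.pow 2).div₀ hW fun y => (hWp y).ne'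
  have hi : Integrable (fun y => φ y ^ 2 / W y) := by
    refine hV.mono' hc.aestronglyMeasurable (ae_of_all _ fun y => ?_)
    rw [Real.norm_eq_abs, abs_of_nonneg (div_nonneg (sq_nonneg _) (hWp y).le)]
    exact hVφ y
  refine (cs_wt hF hφ hW hWp hF2 hi).2.trans ?_
  exact mul_le_mul_of_nonneg_right (Real.sqrt_le_sqrt (integral_mono hi hV hVφ)) (Real.sqrt_nonneg _)

theorem ET7 (k : ℕ) (hk : 5 ≤ k) : ∃ C : ℝ, 0 < C ∧
    ∀ B ρ : ℝ, Slow B ρ → ∀ (p q : ℝ) (ε e : ℝ → ℝ), Adm ρ p q ε → Adm ρ p q e → (∀ y, |ε y| ≤ 1) →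
    |EE k B ρ ε (deriv e)| ≤ C * √(Tn B ρ ε) * √(Gn B ρ e / ρ) := by
  obtain ⟨C, hC0, hC⟩ := Eme_g k hk
  refine ⟨√C + 1, by positivity, fun B ρ hs p q ε e hε he h1 => ?_⟩
  obtain ⟨hρp, hp2, hq0, hq2, cε⟩ := hε
  obtain ⟨-, -, -, -, ce⟩ := he
  have hB16 : 16 ≤ B := hs.1
  have hρ : 0 < ρ := hs.2.1
  have hρB : 4 * ρ * B ≤ 1 := hs.2.2
  have hB : 0 < B := by linarith
  have hp0 : 0 < p := hρ.trans hρp
  have hρ1 : ρ ≤ 1 := by nlinarith
  have hinvB : 0 < 1 / B := by positivity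
  have com := Cl_om hB ρ
  have com1 := Cl_der com
  have cg : Cl p q (gf k ε) := Cl_gf (by omega) hp0.le hq0.le cε
  have cε1 := Cl_der cε
  have cε2 := Cl_der cε1
  have ce1 := Cl_der ce
  rw [EE_g (by omega) hs ⟨hρp, hp2, hq0, hq2, cε⟩ ce1 (by linarith) (by linarith)]
  -- integrability
  have pos1 : 0 < -(2 * ρ) + (2 : ℕ) * p := by push_cast; linarith
  have pos2 : 0 < 2 * ρ + 1 / B + (2 : ℕ) * q := by push_cast; linarith
  have i1 : ∀ {w f : ℝ → ℝ}, Cl (-(2 * ρ)) (2 * ρ + 1 / B) w → Cl p q f →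
      Integrable (fun y => w y * f y ^ 2) := fun hw hf =>
    Cl_int (Cl_mul hw (Cl_pow hf 2)) pos1 pos2
  have iTn : Integrable (fun y => deriv (om B ρ) y *
      ((ε y) ^ 2 + (deriv ε y) ^ 2 + (deriv (deriv ε) y) ^ 2)) := by
    have := ((i1 com1 cε).add (i1 com1 cε1)).add (i1 com1 cε2)
    refine this.congr (ae_of_all _ fun y => ?_)
    simp only [Pi.add_apply]
    ring
  have iGn : Integrable (fun y => om B ρ y * ((e y) ^ 2 + (deriv e y) ^ 2)) := by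
    have := (i1 com ce).add (i1 com ce1)
    refine this.congr (ae_of_all _ fun y => ?_)
    simp only [Pi.add_apply]
    ring
  have hTn0 : 0 ≤ Tn B ρ ε := integral_nonneg fun y =>
    mul_nonneg (om1_pos hs y).le (by positivity)
  have hGn0 : 0 ≤ Gn B ρ e := integral_nonneg fun y =>
    mul_nonneg (om_pos B ρ y).le (by positivity)
  have iV : Integrable (fun y => om B ρ y * ((e y) ^ 2 + (deriv e y) ^ 2) / ρ) := iGn.div_const ρ
  have eV : ∫ y, om B ρ y * ((e y) ^ 2 + (deriv e y) ^ 2) / ρ = Gn B ρ e / ρ := by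
    rw [integral_div]
    rfl
  -- first term
  have T1 : |∫ y, om B ρ y * (gf k ε y * deriv e y)| ≤ √(Gn B ρ e / ρ) * √(C * Tn B ρ ε) := by
    have h := Eme_cs (F := gf k ε) (φ := fun y => om B ρ y * deriv e y) (W := deriv (om B ρ))
      (V := fun y => om B ρ y * ((e y) ^ 2 + (deriv e y) ^ 2) / ρ) (Cl_cont cg)
      ((Cl_cont com).mul (Cl_cont ce1)) (Cl_cont com1) (om1_pos hs) (i1 com1 cg) iV (fun y => by
        have a1 := om1_ge hs y
        have a2 := om_pos B ρ y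
        have a3 := om1_pos hs y
        rw [div_le_div_iff₀ a3 hρ]
        have a4 : ρ * om B ρ y ≤ deriv (om B ρ) y := by nlinarith
        have a5 : 0 ≤ om B ρ y * (deriv e y) ^ 2 := by positivity
        have a6 := mul_le_mul_of_nonneg_left a4 a5
        have a7 : 0 ≤ om B ρ y * (e y) ^ 2 * deriv (om B ρ) y := by positivity
        nlinarith)
    rw [eV] at h
    have e1 : ∫ y, om B ρ y * (gf k ε y * deriv e y) = ∫ y, gf k ε y * (om B ρ y * deriv e y) := by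
      congr 1
      funext y
      ring
    rw [e1]
    refine h.trans (mul_le_mul_of_nonneg_left (Real.sqrt_le_sqrt ?_) (Real.sqrt_nonneg _))
    have e2 : C * Tn B ρ ε = ∫ y, C * (deriv (om B ρ) y *
        ((ε y) ^ 2 + (deriv ε y) ^ 2 + (deriv (deriv ε) y) ^ 2)) := by
      rw [integral_const_mul]
      rfl
    rw [e2]
    refine integral_mono (i1 com1 cg) (iTn.const_mul C) fun y => ?_
    have b1 := hC ε y (h1 y)
    have b2 := (om1_pos hs y).le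
    have b3 := mul_le_mul_of_nonneg_left b1 b2
    show deriv (om B ρ) y * gf k ε y ^ 2 ≤ _
    linarith
  -- second term
  have T2 : |∫ y, deriv (om B ρ) y * (deriv ε y * deriv e y)| ≤ √(Gn B ρ e / ρ) * √(Tn B ρ ε) := by
    have h := Eme_cs (F := deriv ε) (φ := fun y => deriv (om B ρ) y * deriv e y)
      (W := deriv (om B ρ))
      (V := fun y => om B ρ y * ((e y) ^ 2 + (deriv e y) ^ 2) / ρ) (Cl_cont cε1)
      ((Cl_cont com1).mul (Cl_cont ce1)) (Cl_cont com1) (om1_pos hs) (i1 com1 cε1) iV (fun y => by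
        have a1 := om1_le hs y
        have a2 := om_pos B ρ y
        have a3 := om1_pos hs y
        have a4 : 2 / B ≤ 1 := by
          rw [div_le_one hB]
          linarith
        have a5 : deriv (om B ρ) y ≤ om B ρ y := by nlinarith
        rw [div_le_div_iff₀ a3 hρ]
        have c1 : ρ * deriv (om B ρ) y ≤ om B ρ y := by nlinarith
        have c2 : 0 ≤ deriv (om B ρ) y * (deriv e y) ^ 2 := by positivity
        have c3 := mul_le_mul_of_nonneg_left c1 c2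
        have c4 : 0 ≤ om B ρ y * (e y) ^ 2 * deriv (om B ρ) y := by positivity
        (first | linarith only [c3, c4] | nlinarith only [c3, c4]))
    rw [eV] at h
    have e1 : ∫ y, deriv (om B ρ) y * (deriv ε y * deriv e y)
        = ∫ y, deriv ε y * (deriv (om B ρ) y * deriv e y) := by
      congr 1
      funext y
      ring
    rw [e1]
    refine h.trans (mul_le_mul_of_nonneg_left (Real.sqrt_le_sqrt ?_) (Real.sqrt_nonneg _))
    refine integral_mono (i1 com1 cε1) iTn fun y => ?_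
    have b2 := (om1_pos hs y).le
    have b3 : 0 ≤ deriv (om B ρ) y * ((ε y) ^ 2 + (deriv (deriv ε) y) ^ 2) := by positivity
    show deriv (om B ρ) y * deriv ε y ^ 2 ≤ _
    nlinarith
  rw [Real.sqrt_mul hC0.le] at T1
  have fin := abs_sub (∫ y, om B ρ y * (gf k ε y * deriv e y))
    (∫ y, deriv (om B ρ) y * (deriv ε y * deriv e y))
  calc _ ≤ _ := fin
    _ ≤ √(Gn B ρ e / ρ) * (√C * √(Tn B ρ ε)) + √(Gn B ρ e / ρ) * √(Tn B ρ ε) := add_le_add T1 T2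
    _ = (√C + 1) * √(Tn B ρ ε) * √(Gn B ρ e / ρ) := by ring

end H98KB

end S_H98_KB_Eme
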