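import Mathlib
import Pool.Agent.H98.BU.G06
import Pool.Agent.H98.BU.G31

/-! Blow-up for `u_t + u^k u_x + u_xxx - u_xx = 0`, part G32: this file joins several modules
to save build time (`Pool/Agent/H98/{KB,KC}`, `H72/{KB,KC}`, `H68/KC`, `H37/{KB,KC}`). -/

section S_H98_KB_Emc

/-!
# Emc : the scaling term in the energy (uses the statement `EE_Lam`)

By `EE_Lam`, `-b EE(Λε) - bρ∫y om(...) = -b(1-s_c)∫omε'²+b s_c∫omε²+(2b/k)∫omDε-b∫ombF-b∫om y R Q'`
`+(b/2)∫y Tp(ε'²+ε²-2bF)`, `Tp = om'-2ρom = Th' e^{2ρy}`, `Th'=Th(1-Th)/B`.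
* `s_c < 1/2`; `|Dε|+|bF| ≤ C(Q^k+|ε|^k)ε²`; `∫omQ^kε² ≤ C ln`; `C ν^k ≤ 1/4`; `∫om|y||R||Q'| ≤ C ln`.
* `y ≤ 0` in the last integral: `y(ε'²+ε²-2bF) ≤ 2|y||bF| - |y|ε² ≤ 2C|y|Q^kε²` if `2Cν^k ≤ 1`; `Tp ≤ 1`, local: `≤ C ln`.
* `y ≥ 0`: `ε'²+ε²-2bF ≤ ε'²+Cε²`; and `b y Tp ≤ ς'(Tp + ρ om)` for all `y ≥ 0` if `l ≤ l₁`: choose `Y` with
  `2C_b e^{-Y/(2B)} ≤ ς' R` ; for `y ≤ Y`: `b y ≤ C_b l Y ≤ ς'` if `l₁ ≤ ς'/(C_bY)`; for `y ≥ Y`: `Th' ≤ (1/B)e^{-y/B}`,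
  `y Th' ≤ (y/B)e^{-y/B} ≤ e^{-y/(2B)} ≤ e^{-Y/(2B)}`, so `b y Th' ≤ C_b l e^{-Y/2B} ≤ ς' R l/2 ≤ ς'ρ Th` (`Th ≥ 1/2`).
  `Tp+ρom ≤ om'`.  Take `ς' = ς/(C+1)`.
-/

open MeasureTheory Filter Topology Set
open scoped ContDiff

namespace H98KB

/-- pointwise part of the claim: `b y Tp ≤ ς' (Tp + ρ om)` for `y ≥ 0` -/
theorem Emc_wt {B ς' Cb R l b y : ℝ} (hB : 16 ≤ B) (hς : 0 < ς') (hCb : 0 < Cb) (hR : 1 ≤ R)
    (hl : 0 < l) (hl1 : l ≤ ς' ^ 2 / (4 * B * Cb ^ 2)) (hb : 0 ≤ b) (hb1 : b ≤ Cb * l)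
    (hy : 0 ≤ y) :
    b * (y * (Th B y * (1 - Th B y) / B)) ≤
      ς' * (Th B y * (1 - Th B y) / B + R * l * Th B y) := by
  have hB0 : 0 < B := by linarith
  have hT0 := Th_pos B y
  have hT1 := Th_lt_one B y
  have hT' : 0 ≤ Th B y * (1 - Th B y) / B := by
    have : 0 ≤ 1 - Th B y := by linarith
    positivity
  have hrl : 0 ≤ R * l * Th B y := by positivity
  by_cases hyY : y ≤ 4 * B * Cb / ς'
  · have h1 : b * y ≤ ς' := by
      calc b * y ≤ (Cb * l) * (4 * B * Cb / ς') :=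
            mul_le_mul hb1 hyY hy (by positivity)
        _ ≤ (Cb * (ς' ^ 2 / (4 * B * Cb ^ 2))) * (4 * B * Cb / ς') := by gcongr
        _ = ς' := by field_simp
    calc b * (y * (Th B y * (1 - Th B y) / B)) = (b * y) * (Th B y * (1 - Th B y) / B) := by ring
      _ ≤ ς' * (Th B y * (1 - Th B y) / B) := mul_le_mul_of_nonneg_right h1 hT'
      _ ≤ _ := by
        refine mul_le_mul_of_nonneg_left ?_ hς.le
        linarith
  · push Not at hyY
    have hE : 1 - Th B y ≤ Real.exp (-(y / B)) := by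
      unfold Th
      have he := Real.exp_pos (-y / B)
      have e1 : -y / B = -(y / B) := by ring
      rw [e1] at he ⊢
      rw [sub_le_iff_le_add, ← sub_le_iff_le_add', le_div_iff₀ (by linarith)]
      (first | linarith only [sq_nonneg (Real.exp (-(y / B)))] | nlinarith only [sq_nonneg (Real.exp (-(y / B)))])
    have hhalf : 1 / 2 ≤ Th B y := by
      unfold Th
      have he : Real.exp (-y / B) ≤ 1 := by
        rw [Real.exp_le_one_iff]
        exact div_nonpos_of_nonpos_of_nonneg (by linarith) hB0.le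
      rw [div_le_div_iff₀ (by norm_num) (by linarith [Real.exp_pos (-y / B)])]
      linarith
    have hz : 0 ≤ y / (2 * B) := by positivity
    have h2 : y / B * Real.exp (-(y / B)) ≤ Real.exp (-(y / (2 * B))) := by
      have e1 : y / B = y / (2 * B) + y / (2 * B) := by field_simp; ring
      have h3 : y / (2 * B) + y / (2 * B) ≤ Real.exp (y / (2 * B)) := by
        have h4 := Real.quadratic_le_exp_of_nonneg hz
        (first | linarith only [sq_nonneg (y / (2 * B) - 1), h4, hT0, hT1] | nlinarith only [sq_nonneg (y / (2 * B) - 1), h4, hT0, hT1])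
      have h5 : Real.exp (-(y / B)) = Real.exp (-(y / (2 * B))) * Real.exp (-(y / (2 * B))) := by
        rw [← Real.exp_add]
        congr 1
        rw [e1]
        ring
      have h6 : Real.exp (y / (2 * B)) * Real.exp (-(y / (2 * B))) = 1 := by
        rw [← Real.exp_add]
        simp
      have hpos := Real.exp_pos (-(y / (2 * B)))
      rw [h5]
      nth_rewrite 1 [e1]
      calc (y / (2 * B) + y / (2 * B)) * (Real.exp (-(y / (2 * B))) * Real.exp (-(y / (2 * B))))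
          ≤ Real.exp (y / (2 * B)) * (Real.exp (-(y / (2 * B))) * Real.exp (-(y / (2 * B)))) :=
            mul_le_mul_of_nonneg_right h3 (by positivity)
        _ = Real.exp (-(y / (2 * B))) := by rw [← mul_assoc, h6, one_mul]
    have h7 : Real.exp (-(y / (2 * B))) ≤ ς' / (2 * Cb) := by
      have h8 : 2 * Cb / ς' ≤ y / (2 * B) := by
        rw [div_le_div_iff₀ hς (by positivity)]
        rw [div_lt_iff₀ hς] at hyY
        (first | linarith only [hyY] | nlinarith only [hyY])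
      have h9 : 0 < 2 * Cb / ς' := by positivity
      have h10 : 2 * Cb / ς' ≤ Real.exp (y / (2 * B)) := by
        linarith [Real.add_one_le_exp (y / (2 * B))]
      rw [Real.exp_neg]
      have := inv_anti₀ h9 h10
      rwa [inv_div] at this
    have h11 : y * (Th B y * (1 - Th B y) / B) ≤ ς' / (2 * Cb) := by
      refine le_trans ?_ (h2.trans h7)
      have h12 : Th B y * (1 - Th B y) ≤ Real.exp (-(y / B)) := by
        have : 0 ≤ 1 - Th B y := by linarith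
        (first | linarith only [hE, hT1] | nlinarith only [hE, hT1])
      calc y * (Th B y * (1 - Th B y) / B) = y / B * (Th B y * (1 - Th B y)) := by ring
        _ ≤ y / B * Real.exp (-(y / B)) := mul_le_mul_of_nonneg_left h12 (by positivity)
    have hyT : 0 ≤ y * (Th B y * (1 - Th B y) / B) := by positivity
    calc b * (y * (Th B y * (1 - Th B y) / B)) ≤ (Cb * l) * (ς' / (2 * Cb)) :=
          mul_le_mul hb1 h11 hyT (by positivity)
      _ = ς' * (l * (1 / 2)) := by field_simp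
      _ ≤ ς' * (Th B y * (1 - Th B y) / B + R * l * Th B y) := by
        refine mul_le_mul_of_nonneg_left ?_ hς.le
        have : l * (1 / 2) ≤ R * l * Th B y := by
          calc l * (1 / 2) = 1 * l * (1 / 2) := by ring
            _ ≤ R * l * Th B y := by gcongr
        linarith

/-- constants depending on `k` only -/
theorem Emc_c (k : ℕ) (hk : 5 ≤ k) : ∃ K : ℝ, 0 < K ∧ ∀ γ B ρ : ℝ, 0 < γ → γ ≤ 1 / 8 → Slow B ρ →
    ∀ y, om B ρ y * Qf k y ^ k ≤ K * loc γ B y ∧ om B ρ y * (|y| * |deriv (Qf k) y|) ≤ K * loc γ B y ∧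
      |y| * Qf k y ^ k ≤ K * loc γ B y ∧ Qf k y ^ k ≤ K := by
  obtain ⟨C, hC, hQ⟩ := Qf_hi (k := k) (by omega)
  refine ⟨C ^ k + 3 * C, by positivity, fun γ B ρ hγ hγ' hs y => ?_⟩
  have hloc := ex_le_loc hγ hγ' hs.1 y
  have hom := om_hi hs y
  have homp := om_pos B ρ y
  have hQp := Qf_pos k y
  have hQk : Qf k y ^ k ≤ C ^ k * Real.exp (-(k * |y|)) := by
    have := pow_le_pow_left₀ hQp.le (hQ y) k
    rw [mul_pow, ← Real.exp_nat_mul] at this
    refine this.trans (le_of_eq ?_)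
    congr 2
    ring
  have hk5 : (5 : ℝ) ≤ k := by exact_mod_cast hk
  have hy := abs_nonneg y
  have hky : 5 * |y| ≤ k * |y| := mul_le_mul_of_nonneg_right hk5 hy
  have hE := Real.exp_pos (-(|y| / 2))
  have hxe : |y| ≤ Real.exp |y| := by linarith [Real.add_one_le_exp |y|]
  have hQd : |deriv (Qf k) y| ≤ Qf k y := by
    rw [Qf_deriv (by omega)]
    simp only [neg_mul, abs_neg, abs_mul, abs_of_pos hQp]
    (first | linarith only [th_abs_lt k y, abs_nonneg (th k y), hQp, hγ, hγ'] | nlinarith only [th_abs_lt k y, abs_nonneg (th k y), hQp, hγ, hγ'])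
  have a1 : om B ρ y * Qf k y ^ k ≤ C ^ k * Real.exp (-(|y| / 2)) := by
    calc om B ρ y * Qf k y ^ k ≤ Real.exp (|y| / 32) * (C ^ k * Real.exp (-(k * |y|))) :=
          mul_le_mul hom hQk (by positivity) (Real.exp_pos _).le
      _ = C ^ k * Real.exp (|y| / 32 + -(k * |y|)) := by rw [Real.exp_add]; ring
      _ ≤ C ^ k * Real.exp (-(|y| / 2)) := by
        gcongr
        linarith
  have a2 : om B ρ y * (|y| * |deriv (Qf k) y|) ≤ 3 * C * Real.exp (-(|y| / 2)) := by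
    have h1 : |y| ≤ 3 * Real.exp (15 / 32 * |y|) := by
      linarith [Real.add_one_le_exp (15 / 32 * |y|)]
    calc om B ρ y * (|y| * |deriv (Qf k) y|)
        ≤ Real.exp (|y| / 32) * (3 * Real.exp (15 / 32 * |y|) * (C * Real.exp (-|y|))) := by
          refine mul_le_mul hom ?_ (by positivity) (Real.exp_pos _).le
          exact mul_le_mul h1 (hQd.trans (hQ y)) (abs_nonneg _) (by positivity)
      _ = 3 * C * Real.exp (|y| / 32 + 15 / 32 * |y| + -|y|) := by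
        rw [Real.exp_add, Real.exp_add]; ring
      _ = 3 * C * Real.exp (-(|y| / 2)) := by
        congr 2
        ring
  have a3 : |y| * Qf k y ^ k ≤ C ^ k * Real.exp (-(|y| / 2)) := by
    calc |y| * Qf k y ^ k ≤ Real.exp |y| * (C ^ k * Real.exp (-(k * |y|))) :=
          mul_le_mul hxe hQk (by positivity) (Real.exp_pos _).le
      _ = C ^ k * Real.exp (|y| + -(k * |y|)) := by rw [Real.exp_add]; ring
      _ ≤ C ^ k * Real.exp (-(|y| / 2)) := by
        gcongr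
        linarith
  have hCk : 0 < C ^ k := by positivity
  refine ⟨?_, ?_, ?_, ?_⟩
  · (first | linarith only [a1, hC, hCk, hE, hloc, hγ, hγ'] | nlinarith only [a1, hC, hCk, hE, hloc, hγ, hγ'])
  · (first | linarith only [a2, hC, hCk, hE, hloc, hγ, hγ'] | nlinarith only [a2, hC, hCk, hE, hloc, hγ, hγ'])
  · (first | linarith only [a3, hC, hCk, hE, hloc, hγ, hγ'] | nlinarith only [a3, hC, hCk, hE, hloc, hγ, hγ'])
  · have : Real.exp (-(k * |y|)) ≤ 1 := by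
      rw [Real.exp_le_one_iff]
      (first | linarith only [hky, hy] | nlinarith only [hky, hy])
    (first | linarith only [hC, hCk, hQk, hγ, hγ', this] | nlinarith only [hC, hCk, hQk, hγ, hγ', this])

/-- `om' = Tp + 2 ρ om` with `Tp = Th' e^{2ρy}` -/
theorem Emc_om {B ρ : ℝ} (hB : 0 < B) (y : ℝ) : deriv (om B ρ) y - 2 * ρ * om B ρ y =
    Th B y * (1 - Th B y) / B * Real.exp (2 * ρ * y) := by
  rw [(om_hd hB ρ y).deriv]
  unfold om
  ring

theorem Emc_six {f1 f2 f3 f4 f5 f6 : ℝ → ℝ} (i1 : Integrable f1) (i2 : Integrable f2)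
    (i3 : Integrable f3) (i4 : Integrable f4) (i5 : Integrable f5) (i6 : Integrable f6)
    (b c1 c2 c3 c6 : ℝ) :
    ∫ y, b * (c1 * f1 y + c2 * f2 y + c3 * f3 y - f4 y - f5 y + c6 * f6 y) =
      b * (c1 * (∫ y, f1 y) + c2 * (∫ y, f2 y) + c3 * (∫ y, f3 y) - (∫ y, f4 y) - (∫ y, f5 y)
        + c6 * (∫ y, f6 y)) := by
  have a1 : Integrable (fun y => c1 * f1 y) := i1.const_mul c1
  have a2 : Integrable (fun y => c2 * f2 y) := i2.const_mul c2
  have a3 : Integrable (fun y => c3 * f3 y) := i3.const_mul c3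
  have a6 : Integrable (fun y => c6 * f6 y) := i6.const_mul c6
  have b2 : Integrable (fun y => c1 * f1 y + c2 * f2 y) := a1.add a2
  have b3 : Integrable (fun y => c1 * f1 y + c2 * f2 y + c3 * f3 y) := b2.add a3
  have b4 : Integrable (fun y => c1 * f1 y + c2 * f2 y + c3 * f3 y - f4 y) := b3.sub i4
  have b5 : Integrable (fun y => c1 * f1 y + c2 * f2 y + c3 * f3 y - f4 y - f5 y) := b4.sub i5
  rw [integral_const_mul, integral_add b5 a6, integral_sub b4 i5, integral_sub b3 i4,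
    integral_add b2 a3, integral_add a1 a2, integral_const_mul, integral_const_mul,
    integral_const_mul, integral_const_mul]

theorem Emc_three {f1 f2 f3 : ℝ → ℝ} (i1 : Integrable f1) (i2 : Integrable f2)
    (i3 : Integrable f3) (b c d : ℝ) :
    ∫ y, (b * f1 y + c * (b * f2 y) + d * f3 y) =
      b * (∫ y, f1 y) + c * (b * (∫ y, f2 y)) + d * (∫ y, f3 y) := by
  have a1 : Integrable (fun y => b * f1 y) := i1.const_mul b
  have a2 : Integrable (fun y => c * (b * f2 y)) := (i2.const_mul b).const_mul c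
  have a3 : Integrable (fun y => d * f3 y) := i3.const_mul d
  have b2 : Integrable (fun y => b * f1 y + c * (b * f2 y)) := a1.add a2
  rw [integral_add b2 a3, integral_add a1 a2, integral_const_mul, integral_const_mul,
    integral_const_mul, integral_const_mul]

/-- real arithmetic, `y ≤ 0` -/
theorem Emc_neg {CF K Q E ν lo e e1 F b y T : ℝ} (hCF : 0 < CF) (hK : 0 < K)
    (hQ : 0 < Q) (hE : 0 ≤ E) (hEν : E ≤ ν) (hν : ν * (2 * CF) ≤ 1) (hlo : 0 < lo)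
    (hF : |F| ≤ CF * (Q + E) * e ^ 2) (hb : 0 ≤ b) (hy : y ≤ 0) (hT0 : 0 ≤ T) (hT1 : T ≤ 1)
    (h3 : -y * Q ≤ K * lo) :
    b * (1 / 2 * (y * T * (e1 ^ 2 + e ^ 2 - 2 * F))) ≤ CF * K * (b * (lo * (e ^ 2 + e1 ^ 2))) := by
  have hyT : 0 ≤ -y * T := mul_nonneg (by linarith) hT0
  have he : 0 ≤ e ^ 2 := sq_nonneg e
  have he1 : 0 ≤ e1 ^ 2 := sq_nonneg e1
  have h6 : 2 * CF * E ≤ 1 := by
    have : 2 * CF * E ≤ 2 * CF * ν := by gcongr
    linarith
  have h4 : 2 * F ≤ 2 * CF * Q * e ^ 2 + e ^ 2 := by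
    have h5 := (le_abs_self F).trans hF
    have h7 := mul_le_mul_of_nonneg_right h6 he
    have h8 : CF * (Q + E) * e ^ 2 = CF * Q * e ^ 2 + CF * E * e ^ 2 := by ring
    have h9 : 2 * CF * E * e ^ 2 = 2 * (CF * E * e ^ 2) := by ring
    have h10 : 2 * CF * Q * e ^ 2 = 2 * (CF * Q * e ^ 2) := by ring
    rw [h8] at h5
    rw [h9, one_mul] at h7
    rw [h10]
    linarith
  have h5 : y * T * (e1 ^ 2 + e ^ 2 - 2 * F) ≤ 2 * CF * (K * lo) * e ^ 2 := by
    calc y * T * (e1 ^ 2 + e ^ 2 - 2 * F)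
        = (-y * T) * (2 * F - e ^ 2 - e1 ^ 2) := by ring
      _ ≤ (-y * T) * (2 * CF * Q * e ^ 2) := by
        refine mul_le_mul_of_nonneg_left ?_ hyT
        linarith
      _ = T * (2 * CF * (-y * Q) * e ^ 2) := by ring
      _ ≤ 1 * (2 * CF * (-y * Q) * e ^ 2) := by
        refine mul_le_mul_of_nonneg_right hT1 ?_
        have : 0 ≤ -y * Q := mul_nonneg (by linarith) hQ.le
        positivity
      _ ≤ 2 * CF * (K * lo) * e ^ 2 := by
        rw [one_mul]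
        gcongr
  calc b * (1 / 2 * (y * T * (e1 ^ 2 + e ^ 2 - 2 * F)))
      ≤ b * (1 / 2 * (2 * CF * (K * lo) * e ^ 2)) := by gcongr
    _ = CF * K * (b * (lo * (e ^ 2 + 0))) := by ring
    _ ≤ CF * K * (b * (lo * (e ^ 2 + e1 ^ 2))) := by gcongr

/-- real arithmetic, `0 ≤ y` -/
theorem Emc_pos {CF K Q E C2 om' T e e1 F b y ς : ℝ} (hCF : 0 < CF) (hK : 0 < K)
    (hQK : Q ≤ K) (hE1 : E ≤ 1) (hC2 : C2 = 1 + 2 * CF * (K + 1))
    (hF : |F| ≤ CF * (Q + E) * e ^ 2) (hb : 0 ≤ b) (hy : 0 ≤ y) (hT0 : 0 ≤ T) (hς : 0 < ς)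
    (hom : 0 ≤ om') (h6 : b * (y * T) ≤ ς / C2 * om') :
    b * (1 / 2 * (y * T * (e1 ^ 2 + e ^ 2 - 2 * F))) ≤ ς * (om' * (e ^ 2 + e1 ^ 2)) := by
  have he : 0 ≤ e ^ 2 := sq_nonneg e
  have he1 : 0 ≤ e1 ^ 2 := sq_nonneg e1
  have hC2p : 0 < C2 := by rw [hC2]; positivity
  have h3 : e1 ^ 2 + e ^ 2 - 2 * F ≤ C2 * (e ^ 2 + e1 ^ 2) := by
    have h4 : CF * (Q + E) * e ^ 2 ≤ CF * (K + 1) * e ^ 2 := by gcongr
    have h5 : 0 ≤ 2 * CF * (K + 1) * e1 ^ 2 := by positivity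
    have h7 := (neg_le_abs F).trans (hF.trans h4)
    have h8 : C2 * (e ^ 2 + e1 ^ 2) =
        e ^ 2 + e1 ^ 2 + 2 * (CF * (K + 1) * e ^ 2) + 2 * CF * (K + 1) * e1 ^ 2 := by
      rw [hC2]; ring
    rw [h8]
    linarith
  have hyT : 0 ≤ b * (y * T) := by positivity
  have hA : 0 ≤ ς * (om' * (e ^ 2 + e1 ^ 2)) := by positivity
  calc b * (1 / 2 * (y * T * (e1 ^ 2 + e ^ 2 - 2 * F)))
      = 1 / 2 * ((b * (y * T)) * (e1 ^ 2 + e ^ 2 - 2 * F)) := by ring
    _ ≤ 1 / 2 * ((b * (y * T)) * (C2 * (e ^ 2 + e1 ^ 2))) := by gcongr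
    _ ≤ 1 / 2 * ((ς / C2 * om') * (C2 * (e ^ 2 + e1 ^ 2))) := by gcongr
    _ = 1 / 2 * (ς * (om' * (e ^ 2 + e1 ^ 2))) := by field_simp
    _ ≤ ς * (om' * (e ^ 2 + e1 ^ 2)) := by linarith

/-- the pointwise inequality -/
theorem Emc_pt {k : ℕ} (hk : 5 ≤ k) {CF CR K γ B R l b ς Cb ν : ℝ} (hCF : 0 < CF) (hCR : 0 < CR)
    (hK : 0 < K)
    (hB : 16 ≤ B) (hR : 1 ≤ R) (hs : Slow B (R * l)) (hl : 0 < l) (hς : 0 < ς) (hCb : 0 < Cb)
    (hν : 0 < ν) (hν1 : ν ≤ 1) (hν2 : ν * (2 * (2 ^ k + CF)) ≤ 1)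
    (hl1 : l ≤ (ς / (1 + 2 * CF * (K + 1))) ^ 2 / (4 * B * Cb ^ 2)) (hb : 0 ≤ b)
    (hb1 : b ≤ Cb * l) (y : ℝ)
    (hKy : om B (R * l) y * Qf k y ^ k ≤ K * loc γ B y ∧
      om B (R * l) y * (|y| * |deriv (Qf k) y|) ≤ K * loc γ B y ∧
      |y| * Qf k y ^ k ≤ K * loc γ B y ∧ Qf k y ^ k ≤ K)
    {e e1 e2 D F r : ℝ} (he : |e| ≤ ν) (hD : |D| ≤ 2 ^ k * (Qf k y ^ k + |e| ^ k) * |e|)
    (hF : |F| ≤ CF * (Qf k y ^ k + |e| ^ k) * e ^ 2) (hr : |r| ≤ CR * e ^ 2) :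
    b * (-(1 - sc k) * (om B (R * l) y * e1 ^ 2) + sc k * (om B (R * l) y * e ^ 2)
      + 2 / (k : ℝ) * (om B (R * l) y * (D * e)) - om B (R * l) y * F
      - om B (R * l) y * (y * (r * deriv (Qf k) y))
      + 1 / 2 * (y * (deriv (om B (R * l)) y - 2 * (R * l) * om B (R * l) y) *
          (e1 ^ 2 + e ^ 2 - 2 * F))) ≤
    b * (om B (R * l) y * (e ^ 2 + e1 ^ 2))
      + ((2 ^ k + CF) * K + CR * K + CF * K) * (b * (loc γ B y * (e ^ 2 + e1 ^ 2)))
      + ς * (deriv (om B (R * l)) y * (e ^ 2 + e1 ^ 2 + e2 ^ 2)) := by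
  have hB0 : 0 < B := by linarith
  obtain ⟨k1, k2, k3, k4⟩ := hKy
  have homp := om_pos B (R * l) y
  have hlp := loc_pos γ B y
  have hom1 := om1_pos hs y
  have hQp : 0 < Qf k y ^ k := pow_pos (Qf_pos k y) k
  have hk5 : (5 : ℝ) ≤ k := by exact_mod_cast hk
  have hk0 : (0 : ℝ) < k := by linarith
  have hsc : sc k ≤ 1 / 2 := by
    unfold sc
    have : 0 ≤ 2 / (k : ℝ) := by positivity
    linarith
  have hsc0 := sc_pos hk
  have h2k : (0 : ℝ) < 2 ^ k := by positivity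
  have hek : |e| ^ k ≤ ν := by
    calc |e| ^ k ≤ ν ^ k := pow_le_pow_left₀ (abs_nonneg _) he k
      _ ≤ ν ^ 1 := pow_le_pow_of_le_one hν.le hν1 (by omega)
      _ = ν := pow_one ν
  have hek0 : 0 ≤ |e| ^ k := by positivity
  have he2 : 0 ≤ e ^ 2 := sq_nonneg e
  have hee1 : 0 ≤ e1 ^ 2 := sq_nonneg e1
  have hee2 : 0 ≤ e2 ^ 2 := sq_nonneg e2
  -- bounds for the first group
  have t3 : 2 / (k : ℝ) * (om B (R * l) y * (D * e)) ≤
      2 ^ k * (K * loc γ B y) * e ^ 2 + 2 ^ k * ν * om B (R * l) y * e ^ 2 := by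
    have h1 : |D * e| ≤ 2 ^ k * (Qf k y ^ k + |e| ^ k) * e ^ 2 := by
      rw [abs_mul]
      calc |D| * |e| ≤ 2 ^ k * (Qf k y ^ k + |e| ^ k) * |e| * |e| :=
            mul_le_mul_of_nonneg_right hD (abs_nonneg _)
        _ = _ := by rw [mul_assoc, abs_mul_abs_self, sq]
    have h2 : 2 / (k : ℝ) ≤ 1 := by
      rw [div_le_one hk0]
      linarith
    have h3 : 0 ≤ om B (R * l) y * |D * e| := by positivity
    calc 2 / (k : ℝ) * (om B (R * l) y * (D * e)) ≤ 2 / (k : ℝ) * (om B (R * l) y * |D * e|) := by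
          gcongr
          exact le_abs_self _
      _ ≤ 1 * (om B (R * l) y * |D * e|) := mul_le_mul_of_nonneg_right h2 h3
      _ ≤ 1 * (om B (R * l) y * (2 ^ k * (Qf k y ^ k + |e| ^ k) * e ^ 2)) := by gcongr
      _ = 2 ^ k * (om B (R * l) y * Qf k y ^ k) * e ^ 2
          + 2 ^ k * |e| ^ k * om B (R * l) y * e ^ 2 := by ring
      _ ≤ _ := by gcongr
  have t4 : -(om B (R * l) y * F) ≤
      CF * (K * loc γ B y) * e ^ 2 + CF * ν * om B (R * l) y * e ^ 2 := by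
    calc -(om B (R * l) y * F) = om B (R * l) y * (-F) := by ring
      _ ≤ om B (R * l) y * (CF * (Qf k y ^ k + |e| ^ k) * e ^ 2) := by
          gcongr
          exact (neg_le_abs _).trans hF
      _ = CF * (om B (R * l) y * Qf k y ^ k) * e ^ 2
          + CF * |e| ^ k * om B (R * l) y * e ^ 2 := by ring
      _ ≤ _ := by gcongr
  have t5 : -(om B (R * l) y * (y * (r * deriv (Qf k) y))) ≤ CR * (K * loc γ B y) * e ^ 2 := by
    have h1 : |om B (R * l) y * (y * (r * deriv (Qf k) y))| =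
        (om B (R * l) y * (|y| * |deriv (Qf k) y|)) * |r| := by
      rw [abs_mul, abs_mul, abs_mul, abs_of_pos homp]
      ring
    refine (neg_le_abs _).trans ?_
    rw [h1]
    calc (om B (R * l) y * (|y| * |deriv (Qf k) y|)) * |r| ≤ (K * loc γ B y) * (CR * e ^ 2) :=
          mul_le_mul k2 hr (abs_nonneg _) (by positivity)
      _ = _ := by ring
  -- the last term
  have hTp := Emc_om (ρ := R * l) hB0 y
  have hT0 := Th_pos B y
  have hT1 := Th_lt_one B y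
  have hTT : 0 ≤ Th B y * (1 - Th B y) / B := by
    have : 0 ≤ 1 - Th B y := by linarith
    positivity
  have hTp0 : 0 ≤ deriv (om B (R * l)) y - 2 * (R * l) * om B (R * l) y := by
    rw [hTp]
    positivity
  have hF2 : -(2 * F) ≤ 2 * CF * (Qf k y ^ k + |e| ^ k) * e ^ 2 := by
    have := (neg_le_abs F).trans hF
    linarith
  set C2 : ℝ := 1 + 2 * CF * (K + 1) with hC2
  have hC2p : 0 < C2 := by positivity
  have hC21 : 1 ≤ C2 := by
    have : 0 < 2 * CF * (K + 1) := by positivity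
    linarith
  have t6 : b * (1 / 2 * (y * (deriv (om B (R * l)) y - 2 * (R * l) * om B (R * l) y) *
          (e1 ^ 2 + e ^ 2 - 2 * F))) ≤
      CF * K * (b * (loc γ B y * (e ^ 2 + e1 ^ 2))) +
        ς * (deriv (om B (R * l)) y * (e ^ 2 + e1 ^ 2)) := by
    have hA1 : 0 ≤ ς * (deriv (om B (R * l)) y * (e ^ 2 + e1 ^ 2)) := by positivity
    have hA2 : 0 ≤ CF * K * (b * (loc γ B y * (e ^ 2 + e1 ^ 2))) := by positivity
    rcases le_total y 0 with hy | hy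
    · -- `y ≤ 0`
      have hyabs : |y| = -y := abs_of_nonpos hy
      have hTp1 : deriv (om B (R * l)) y - 2 * (R * l) * om B (R * l) y ≤ 1 := by
        rw [hTp]
        have h1 : Real.exp (2 * (R * l) * y) ≤ 1 := by
          rw [Real.exp_le_one_iff]
          have : 0 ≤ 2 * (R * l) := by positivity
          exact mul_nonpos_of_nonneg_of_nonpos this hy
        have h2 : Th B y * (1 - Th B y) / B ≤ 1 := by
          rw [div_le_one hB0]
          (first | linarith only [h2k, hB, hCF, hT0, hT1, hsc, hsc0, hν, hν2] | nlinarith only [h2k, hB, hCF, hT0, hT1, hsc, hsc0, hν, hν2])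
        exact mul_le_one₀ h2 (Real.exp_pos _).le h1
      rw [hyabs] at k3
      have h2ν : ν * (2 * CF) ≤ 1 := by
        have : 0 ≤ ν * (2 * 2 ^ k) := by positivity
        linarith
      have := Emc_neg (e1 := e1) hCF hK hQp hek0 hek h2ν hlp hF hb hy hTp0 hTp1 k3
      linarith
    · -- `0 ≤ y`
      have hw := Emc_wt (ς' := ς / C2) hB (by positivity) hCb hR hl hl1 hb hb1 hy
      have hE := Real.exp_pos (2 * (R * l) * y)
      have h6 : b * (y * (deriv (om B (R * l)) y - 2 * (R * l) * om B (R * l) y)) ≤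
          ς / C2 * deriv (om B (R * l)) y := by
        have h7 := mul_le_mul_of_nonneg_right hw hE.le
        have h9 : om B (R * l) y = Th B y * Real.exp (2 * (R * l) * y) := rfl
        have h10 : 0 ≤ R * l * om B (R * l) y := by positivity
        calc b * (y * (deriv (om B (R * l)) y - 2 * (R * l) * om B (R * l) y))
            = b * (y * (Th B y * (1 - Th B y) / B)) * Real.exp (2 * (R * l) * y) := by
              rw [hTp]; ring
          _ ≤ ς / C2 * (Th B y * (1 - Th B y) / B + R * l * Th B y)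
                * Real.exp (2 * (R * l) * y) := h7
          _ = ς / C2 * ((deriv (om B (R * l)) y - 2 * (R * l) * om B (R * l) y)
                + R * l * om B (R * l) y) := by rw [hTp, h9]; ring
          _ ≤ ς / C2 * deriv (om B (R * l)) y := by
            refine mul_le_mul_of_nonneg_left ?_ (by positivity)
            linarith
      have := Emc_pos (e1 := e1) hCF hK k4 (hek.trans hν1) hC2 hF hb hy hTp0 hς hom1.le h6
      linarith
  have t1 : -(1 - sc k) * (om B (R * l) y * e1 ^ 2) ≤ 0 := by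
    have : 0 ≤ (1 - sc k) * (om B (R * l) y * e1 ^ 2) := by
      have : 0 ≤ 1 - sc k := by linarith
      positivity
    linarith
  have t2 : sc k * (om B (R * l) y * e ^ 2) ≤ 1 / 2 * (om B (R * l) y * e ^ 2) := by gcongr
  have t7 : 2 ^ k * ν * om B (R * l) y * e ^ 2 + CF * ν * om B (R * l) y * e ^ 2 ≤
      1 / 2 * (om B (R * l) y * e ^ 2) := by
    have h1 : (2 ^ k + CF) * ν ≤ 1 / 2 := by linarith
    have h2 : 0 ≤ om B (R * l) y * e ^ 2 := by positivity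
    have := mul_le_mul_of_nonneg_right h1 h2
    linarith
  have t8 : b * (-(1 - sc k) * (om B (R * l) y * e1 ^ 2) + sc k * (om B (R * l) y * e ^ 2)
      + 2 / (k : ℝ) * (om B (R * l) y * (D * e)) - om B (R * l) y * F
      - om B (R * l) y * (y * (r * deriv (Qf k) y))) ≤
      b * (om B (R * l) y * e ^ 2 + ((2 ^ k + CF) * K + CR * K) * (loc γ B y * e ^ 2)) := by
    refine mul_le_mul_of_nonneg_left ?_ hb
    linarith
  have t9 : b * (om B (R * l) y * e ^ 2 + ((2 ^ k + CF) * K + CR * K) * (loc γ B y * e ^ 2)) ≤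
      b * (om B (R * l) y * (e ^ 2 + e1 ^ 2))
      + ((2 ^ k + CF) * K + CR * K) * (b * (loc γ B y * (e ^ 2 + e1 ^ 2))) := by
    have h1 : 0 ≤ b * (om B (R * l) y * e1 ^ 2) := by positivity
    have h2 : 0 ≤ ((2 ^ k + CF) * K + CR * K) * (b * (loc γ B y * e1 ^ 2)) := by positivity
    linarith
  have t10 : 0 ≤ ς * (deriv (om B (R * l)) y * e2 ^ 2) := by positivity
  linarith

theorem ET4 (k : ℕ) (hk : 5 ≤ k) : ∃ ν C : ℝ, 0 < ν ∧ ν ≤ 1 ∧ 0 < C ∧ ∀ γ : ℝ, 0 < γ → γ ≤ 1 / 8 →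
    ∀ B : ℝ, 16 ≤ B → ∀ R ς Cb : ℝ, 1 ≤ R → 0 < ς → 0 < Cb → ∃ l₁ : ℝ, 0 < l₁ ∧ l₁ ≤ 1 ∧ ∀ l : ℝ, 0 < l →
    l ≤ l₁ → Slow B (R * l) ∧ ∀ (p q : ℝ) (ε : ℝ → ℝ), Adm (R * l) p q ε → (∀ y, |ε y| ≤ ν) →
    ∀ b : ℝ, 0 ≤ b → b ≤ Cb * l →
    -b * EE k B (R * l) ε (Lam k ε)
      - b * (R * l) * (∫ y, y * om B (R * l) y * ((deriv ε y) ^ 2 + (ε y) ^ 2 - 2 * bF k ε y)) ≤
      b * Gn B (R * l) ε + C * b * ln γ B ε + ς * Tn B (R * l) ε := by
  obtain ⟨CF, hCF, hbF⟩ := bF_le k (by omega)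
  obtain ⟨CR, hCR, hR'⟩ := R_le k (by omega)
  obtain ⟨K, hK, hKK⟩ := Emc_c k hk
  have h2k : (0 : ℝ) < 2 ^ k := by positivity
  have hk1 : 1 ≤ k := by omega
  refine ⟨min 1 (1 / (2 * (2 ^ k + CF))), (2 ^ k + CF) * K + CR * K + CF * K, by positivity,
    min_le_left _ _, by positivity, ?_⟩
  intro γ hγ hγ' B hB R ς Cb hR hς hCb
  have hB0 : 0 < B := by linarith
  have hR0 : 0 < R := by linarith
  refine ⟨min 1 (min (1 / (4 * R * B)) ((ς / (1 + 2 * CF * (K + 1))) ^ 2 / (4 * B * Cb ^ 2))),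
    by positivity, min_le_left _ _, ?_⟩
  intro l hl hl'
  have hla : l ≤ 1 / (4 * R * B) := hl'.trans ((min_le_right _ _).trans (min_le_left _ _))
  have hlb : l ≤ (ς / (1 + 2 * CF * (K + 1))) ^ 2 / (4 * B * Cb ^ 2) :=
    hl'.trans ((min_le_right _ _).trans (min_le_right _ _))
  have hs : Slow B (R * l) := by
    refine ⟨hB, by positivity, ?_⟩
    rw [le_div_iff₀ (by positivity)] at hla
    linarith
  refine ⟨hs, ?_⟩
  intro p q ε hε hεν b hb hb1
  have hρ : 0 < R * l := by positivity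
  obtain ⟨hp, hp2, hq, hq2, hcl⟩ := hε
  have hp0 : 0 < p := hρ.trans hp
  have hcl' := Cl_der hcl
  have hcl'' := Cl_der hcl'
  have hom := Cl_om hB0 (R * l)
  have hom' := Cl_der hom
  have hB1 : 0 < 1 / B := by positivity
  have e2 := Cl_pow hcl 2
  have e12 := Cl_pow hcl' 2
  have e22 := Cl_pow hcl'' 2
  push_cast at e2 e12 e22
  have i1 : Integrable (fun y => om B (R * l) y * (deriv ε y) ^ 2) :=
    Cl_int (Cl_mul hom e12) (by linarith) (by linarith)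
  have i2 : Integrable (fun y => om B (R * l) y * (ε y) ^ 2) :=
    Cl_int (Cl_mul hom e2) (by linarith) (by linarith)
  have hDf := Cl_Df hk1 hp0.le hq.le hcl
  have hRf := Cl_Rf hk1 hp0.le hq.le hcl
  have hbFc := Cl_bF hk1 hp0.le hq.le (by linarith) (by linarith) hcl
  have i3 : Integrable (fun y => om B (R * l) y * (Df k ε y * ε y)) :=
    Cl_int (Cl_mul hom (Cl_mul hDf hcl)) (by linarith) (by linarith)
  have i4 : Integrable (fun y => om B (R * l) y * bF k ε y) :=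
    Cl_int (Cl_mul hom hbFc) (by linarith) (by linarith)
  have hρ64 : R * l ≤ 1 / 64 := by
    have h1 := hs.2.2
    (first | linarith only [h1, hB, hρ] | nlinarith only [h1, hB, hρ])
  have i5 : Integrable (fun y => om B (R * l) y * (y * (Rf k ε y * deriv (Qf k) y))) :=
    Cl_int (Cl_mul hom (Cl_mul (Cl_id (c := 1 / 2) (by norm_num))
      (Cl_mul hRf (Cl_der (Cl_Qf hk1))))) (by linarith) (by linarith)
  have hc : 0 < min (p - R * l) q := lt_min (by linarith) hq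
  have hc1 : min (p - R * l) q ≤ p - R * l := min_le_left _ _
  have hc2 : min (p - R * l) q ≤ q := min_le_right _ _
  have i6 : Integrable (fun y => y * (deriv (om B (R * l)) y - 2 * (R * l) * om B (R * l) y) *
      ((deriv ε y) ^ 2 + (ε y) ^ 2 - 2 * bF k ε y)) :=
    Cl_int (Cl_mul (Cl_mul (Cl_id hc) (Cl_sub hom' (Cl_smul (2 * (R * l)) hom)))
      (Cl_sub (Cl_add e12 e2) (Cl_smul 2 hbFc))) (by linarith) (by linarith)
  have j1 : Integrable (fun y => om B (R * l) y * ((ε y) ^ 2 + (deriv ε y) ^ 2)) :=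
    Cl_int (Cl_mul hom (Cl_add e2 e12)) (by linarith) (by linarith)
  have j2 : Integrable (fun y => loc γ B y * ((ε y) ^ 2 + (deriv ε y) ^ 2)) := by
    have hl1 : Cl (2 * γ + 2 / B) (2 * γ + 2 / B) (loc γ B) := Cl_mul (Cl_se2 hγ) (Cl_ch hB0)
    have : 0 < 2 / B := by positivity
    exact Cl_int (Cl_mul hl1 (Cl_add e2 e12)) (by linarith) (by linarith)
  have j3 : Integrable (fun y => deriv (om B (R * l)) y *
      ((ε y) ^ 2 + (deriv ε y) ^ 2 + (deriv (deriv ε) y) ^ 2)) :=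
    Cl_int (Cl_mul hom' (Cl_add (Cl_add e2 e12) e22)) (by linarith) (by linarith)
  have hmain := EE_Lam hk1 hs (ε := ε) ⟨hp, hp2, hq, hq2, hcl⟩
  have hL : -b * EE k B (R * l) ε (Lam k ε)
      - b * (R * l) * (∫ y, y * om B (R * l) y * ((deriv ε y) ^ 2 + (ε y) ^ 2 - 2 * bF k ε y)) =
      ∫ y, b * (-(1 - sc k) * (om B (R * l) y * (deriv ε y) ^ 2)
        + sc k * (om B (R * l) y * (ε y) ^ 2)
        + 2 / (k : ℝ) * (om B (R * l) y * (Df k ε y * ε y)) - om B (R * l) y * bF k ε y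
        - om B (R * l) y * (y * (Rf k ε y * deriv (Qf k) y))
        + 1 / 2 * (y * (deriv (om B (R * l)) y - 2 * (R * l) * om B (R * l) y) *
          ((deriv ε y) ^ 2 + (ε y) ^ 2 - 2 * bF k ε y))) := by
    rw [Emc_six i1 i2 i3 i4 i5 i6]
    linear_combination (-b) * hmain
  have hRt : b * Gn B (R * l) ε + ((2 ^ k + CF) * K + CR * K + CF * K) * b * ln γ B ε
      + ς * Tn B (R * l) ε =
      ∫ y, (b * (om B (R * l) y * ((ε y) ^ 2 + (deriv ε y) ^ 2))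
      + ((2 ^ k + CF) * K + CR * K + CF * K) * (b * (loc γ B y * ((ε y) ^ 2 + (deriv ε y) ^ 2)))
      + ς * (deriv (om B (R * l)) y *
        ((ε y) ^ 2 + (deriv ε y) ^ 2 + (deriv (deriv ε) y) ^ 2))) := by
    rw [Emc_three j1 j2 j3]
    unfold Gn ln Tn
    ring
  rw [hL, hRt]
  refine integral_mono ?_ ?_ fun y => ?_
  · exact (((((((i1.const_mul (-(1 - sc k))).add (i2.const_mul (sc k))).add
      (i3.const_mul (2 / (k : ℝ)))).sub i4).sub i5).add (i6.const_mul (1 / 2)))).const_mul b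
  · exact ((j1.const_mul b).add ((j2.const_mul b).const_mul
      ((2 ^ k + CF) * K + CR * K + CF * K))).add (j3.const_mul ς)
  · have hν := hεν y
    refine Emc_pt hk hCF hCR hK hB hR hs hl hς hCb (ν := min 1 (1 / (2 * (2 ^ k + CF))))
      (by positivity) (min_le_left _ _) ?_ hlb hb hb1 y (hKK γ B (R * l) hγ hγ' hs y) hν
      (D_le k ε y) (hbF ε y) (hR' ε y (hν.trans (min_le_left _ _)))
    have h3 : min 1 (1 / (2 * (2 ^ k + CF))) ≤ 1 / (2 * (2 ^ k + CF)) := min_le_right _ _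
    rwa [le_div_iff₀ (by positivity)] at h3

end H98KB

end S_H98_KB_Emc

section S_H98_KB_Efi

/-!
# Efi : differential inequality for the energy (uses the statements of `Ema`, `Emb`, `Emc`, `Eid`)

`EE` is linear in `ζ` and `ζ = g' - bΛQ + mQ' + lQ'' - bΛε + mε' + lε'' - e'` (`zeta`, `Nf`; all pieces in `Cl`).
`DE = EE(ζ) - bρ∫y om(...)`.  Sum of `ET1` (`-(1/4)Tn`), `ET4` with `ς=1/16`, `ET7`:
`C√Tn√(Gn e/ρ) ≤ (1/16)Tn + 4C²Gn e/ρ`, `ET2`, `ET3`, `ET5`, `ET6`.  `s` = bound for `|ε|`, `s ≤ ν`.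
-/

open MeasureTheory Filter Topology Set
open scoped ContDiff

namespace H98KB

theorem Efi_int {k : ℕ} {B ρ p q p' q' : ℝ} {ε ζ : ℝ → ℝ} (hk : 1 ≤ k) (hB : 0 < B) (hρ : 0 ≤ ρ)
    (hp : 0 ≤ p) (hq : 0 ≤ q) (hε : Cl p q ε) (h1 : 2 * ρ < p + p') (h2 : 0 < q + q')
    (hζ : Cl p' q' ζ) :
    Integrable (fun y => om B ρ y * (deriv ε y * deriv ζ y + (ε y - Df k ε y) * ζ y)) := by
  have a1 := Cl_mul (Cl_der hε) (Cl_der hζ)
  have a2 := Cl_mul (Cl_sub hε (Cl_Df hk hp hq hε)) hζ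
  have a3 := Cl_mul (Cl_om hB ρ) (Cl_add a1 a2)
  have h3 : 0 < 1 / B := by positivity
  exact Cl_int a3 (by linarith) (by linarith)

theorem Efi_lin {k : ℕ} {B ρ p q p' q' : ℝ} {ε ζ₀ ζ₁ : ℝ → ℝ} (hk : 1 ≤ k) (hB : 0 < B) (hρ : 0 ≤ ρ)
    (hp : 0 ≤ p) (hq : 0 ≤ q) (hε : Cl p q ε) (h1 : 2 * ρ < p + p') (h2 : 0 < q + q') (c : ℝ)
    (h₀ : Cl p' q' ζ₀) (h₁ : Cl p' q' ζ₁) :
    EE k B ρ ε (fun y => ζ₀ y + c * ζ₁ y) = EE k B ρ ε ζ₀ + c * EE k B ρ ε ζ₁ := by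
  have i0 := Efi_int hk hB hρ hp hq hε h1 h2 h₀
  have i1 := Efi_int hk hB hρ hp hq hε h1 h2 h₁
  unfold EE
  rw [← integral_const_mul, ← integral_add i0 (i1.const_mul c)]
  refine integral_congr_ae (Eventually.of_forall fun y => ?_)
  simp only
  have e1 : deriv (fun y => ζ₀ y + c * ζ₁ y) y = deriv ζ₀ y + c * deriv ζ₁ y :=
    ((Cl_hd h₀ y).add ((Cl_hd h₁ y).const_mul c)).deriv
  rw [e1]
  ring

theorem Efi_Tn {B ρ : ℝ} (h : Slow B ρ) (ε : ℝ → ℝ) : 0 ≤ Tn B ρ ε :=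
  integral_nonneg fun y => mul_nonneg (om1_pos h y).le (by positivity)

theorem Efi_Gn (B ρ : ℝ) (ε : ℝ → ℝ) : 0 ≤ Gn B ρ ε :=
  integral_nonneg fun y => mul_nonneg (om_pos B ρ y).le (by positivity)

theorem Efi_ln (γ B : ℝ) (ε : ℝ → ℝ) : 0 ≤ ln γ B ε :=
  integral_nonneg fun y => mul_nonneg (loc_pos γ B y).le (by positivity)

/-- the real arithmetic of the assembly -/
theorem Efi_arith {C1 C2 C3 C4 C5 C6 C7 T G L sL B b l m s Rl Ge Y E1 E2 E2' E3 E4 E5 E6 E7 : ℝ}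
    (hC1 : 0 < C1) (hC2 : 0 < C2) (hC3 : 0 < C3) (hC4 : 0 < C4) (hC5 : 0 < C5) (hC6 : 0 < C6)
    (_hC7 : 0 < C7) (hT : 0 ≤ T) (hG : 0 ≤ G) (hL : 0 ≤ L) (hsL : 0 ≤ sL) (hB : 0 < B)
    (hb : 0 ≤ b) (hl : 0 < l) (hs : 0 ≤ s) (hRl : 0 < Rl) (hGe : 0 ≤ Ge)
    (h1 : E1 ≤ -(1 / 4) * T + C1 / B * L) (h2 : |E2| ≤ C2 * sL) (h2' : |E2'| ≤ C2 * sL)
    (h3 : |E3| ≤ C3 * (1 / B + s) * sL)
    (h4 : -b * E4 - Y ≤ b * G + C4 * b * L + 1 / 16 * T)
    (h5 : |E5| ≤ C5 * (T + L)) (h6 : E6 ≤ C6 * (T + L) + C6 * s * G)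
    (h7 : |E7| ≤ C7 * √T * √(Ge / Rl)) :
    E1 - b * E2 + m * E3 + l * E2' - b * E4 + m * E5 + l * E6 - E7 - Y ≤
      -(1 / 8) * T + (C1 + C2 + C3 + C4 + C5 + C6 + 4 * C7 ^ 2) / B * L
      + b * G + (C1 + C2 + C3 + C4 + C5 + C6 + 4 * C7 ^ 2) * (b + l) * sL
      + (C1 + C2 + C3 + C4 + C5 + C6 + 4 * C7 ^ 2) * |m| * (1 / B + s) * sL
      + (C1 + C2 + C3 + C4 + C5 + C6 + 4 * C7 ^ 2) * (|m| + b + l) * (T + L)
      + (C1 + C2 + C3 + C4 + C5 + C6 + 4 * C7 ^ 2) * l * s * G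
      + (C1 + C2 + C3 + C4 + C5 + C6 + 4 * C7 ^ 2) / Rl * Ge := by
  set K := C1 + C2 + C3 + C4 + C5 + C6 + 4 * C7 ^ 2 with hK
  have h70 : 0 ≤ 4 * C7 ^ 2 := by positivity
  have hm := abs_nonneg m
  have hTL : 0 ≤ T + L := add_nonneg hT hL
  have hBs : 0 ≤ 1 / B + s := by positivity
  -- E7
  have e7 : -E7 ≤ 1 / 16 * T + 4 * C7 ^ 2 * (Ge / Rl) := by
    have a1 := neg_abs_le E7
    have a2 : √T ^ 2 = T := Real.sq_sqrt hT
    have a3 : √(Ge / Rl) ^ 2 = Ge / Rl := Real.sq_sqrt (by positivity)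
    (first | linarith only [sq_nonneg (√T / 4 - 2 * (C7 * √(Ge / Rl))), a1, a2, a3, h7] | nlinarith only [sq_nonneg (√T / 4 - 2 * (C7 * √(Ge / Rl))), a1, a2, a3, h7])
  have e7' : 4 * C7 ^ 2 * (Ge / Rl) ≤ K / Rl * Ge := by
    have : K / Rl * Ge = K * (Ge / Rl) := by ring
    rw [this]
    exact mul_le_mul_of_nonneg_right (by linarith) (by positivity)
  have e1 : C1 / B * L ≤ K / B * L :=
    mul_le_mul_of_nonneg_right (div_le_div_of_nonneg_right (by linarith) hB.le) hL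
  have e2 : -b * E2 + l * E2' ≤ K * (b + l) * sL := by
    have a1 : -b * E2 ≤ b * (C2 * sL) := by
      have := mul_le_mul_of_nonneg_left ((neg_le_abs E2).trans h2) hb
      linarith
    have a2 : l * E2' ≤ l * (C2 * sL) := mul_le_mul_of_nonneg_left ((le_abs_self E2').trans h2') hl.le
    have a3 : C2 * ((b + l) * sL) ≤ K * ((b + l) * sL) :=
      mul_le_mul_of_nonneg_right (by linarith) (by positivity)
    linarith
  have hmul : ∀ E A : ℝ, |E| ≤ A → m * E ≤ |m| * A := by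
    intro E A h
    calc m * E ≤ |m * E| := le_abs_self _
      _ = |m| * |E| := abs_mul _ _
      _ ≤ |m| * A := mul_le_mul_of_nonneg_left h hm
  have e3 : m * E3 ≤ K * |m| * (1 / B + s) * sL := by
    have a1 := hmul _ _ h3
    have a3 : C3 * (|m| * (1 / B + s) * sL) ≤ K * (|m| * (1 / B + s) * sL) :=
      mul_le_mul_of_nonneg_right (by linarith) (by positivity)
    linarith
  have e4 : C4 * b * L ≤ K * (b * (T + L)) := by
    have a1 : C4 * (b * L) ≤ K * (b * L) := mul_le_mul_of_nonneg_right (by linarith) (by positivity)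
    have a2 : 0 ≤ K * (b * T) := by
      have : 0 ≤ K := by linarith
      positivity
    linarith
  have e5 : m * E5 ≤ K * (|m| * (T + L)) := by
    have a1 := hmul _ _ h5
    have a3 : C5 * (|m| * (T + L)) ≤ K * (|m| * (T + L)) :=
      mul_le_mul_of_nonneg_right (by linarith) (by positivity)
    linarith
  have e6 : l * E6 ≤ K * (l * (T + L)) + K * l * s * G := by
    have a1 := mul_le_mul_of_nonneg_left h6 hl.le
    have a2 : C6 * (l * (T + L)) ≤ K * (l * (T + L)) :=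
      mul_le_mul_of_nonneg_right (by linarith) (by positivity)
    have a3 : C6 * (l * s * G) ≤ K * (l * s * G) :=
      mul_le_mul_of_nonneg_right (by linarith) (by positivity)
    linarith
  linarith

theorem DE_le (k : ℕ) (hk : 5 ≤ k) : ∃ ν C : ℝ, 0 < ν ∧ ν ≤ 1 ∧ 0 < C ∧ ∀ γ : ℝ, 0 < γ → γ ≤ 1 / 8 →
    ∀ B : ℝ, 16 ≤ B → ∀ R : ℝ, 1 ≤ R → ∀ Cb : ℝ, 0 < Cb → ∃ l₁ : ℝ, 0 < l₁ ∧ l₁ ≤ 1 ∧ ∀ l : ℝ, 0 < l →
    l ≤ l₁ → Slow B (R * l) ∧ ∀ (p q s : ℝ) (ε e : ℝ → ℝ), Adm (R * l) p q ε → Adm (R * l) p q e →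
    s ≤ ν → (∀ y, |ε y| ≤ s) → ∀ b m : ℝ, 0 ≤ b → b ≤ Cb * l →
    DE k B (R * l) b ε (zeta k b m l ε e) ≤ -(1 / 8) * Tn B (R * l) ε + C / B * ln γ B ε
      + b * Gn B (R * l) ε + C * (b + l) * √(ln γ B ε) + C * |m| * (1 / B + s) * √(ln γ B ε)
      + C * (|m| + b + l) * (Tn B (R * l) ε + ln γ B ε) + C * l * s * Gn B (R * l) ε
      + C / (R * l) * Gn B (R * l) e := by
  have hk1 : 1 ≤ k := by omega
  obtain ⟨ν1, C1, hν1, hν1', hC1, H1⟩ := ET1 k hk
  obtain ⟨C2, hC2, H2⟩ := ET2 k hk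
  obtain ⟨C3, hC3, H3⟩ := ET3 k hk
  obtain ⟨ν4, C4, hν4, hν4', hC4, H4⟩ := ET4 k hk
  obtain ⟨C5, hC5, H5⟩ := ET5 k hk
  obtain ⟨C6, hC6, H6⟩ := ET6 k hk
  obtain ⟨C7, hC7, H7⟩ := ET7 k hk
  refine ⟨min ν1 ν4, C1 + C2 + C3 + C4 + C5 + C6 + 4 * C7 ^ 2, lt_min hν1 hν4,
    (min_le_left _ _).trans hν1', by positivity, ?_⟩
  intro γ hγ hγ' B hB R hR Cb hCb
  obtain ⟨l1, hl1, hl1', H4'⟩ := H4 γ hγ hγ' B hB R (1 / 16) Cb hR (by norm_num) hCb
  refine ⟨l1, hl1, hl1', ?_⟩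
  intro l hl hll
  obtain ⟨hS, H4''⟩ := H4' l hl hll
  refine ⟨hS, ?_⟩
  intro p q s ε e hε he hsν hs b m hb hbC
  have hB0 : 0 < B := by linarith
  have hρ : 0 < R * l := hS.2.1
  have hs0 : 0 ≤ s := (abs_nonneg (ε 0)).trans (hs 0)
  have hsν1 : s ≤ ν1 := hsν.trans (min_le_left _ _)
  have hsν4 : s ≤ ν4 := hsν.trans (min_le_right _ _)
  have hs1 : s ≤ 1 := hsν1.trans hν1'
  obtain ⟨hp1, hp2, hq1, hq2, hcl⟩ := hε
  have hε' : Adm (R * l) p q ε := ⟨hp1, hp2, hq1, hq2, hcl⟩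
  obtain ⟨-, -, -, -, hcle⟩ := id he
  have hp0 : 0 ≤ p := by linarith
  -- the common class
  set p' := (p + R * l) / 2 with hp'
  set q' := q / 2 with hq'
  have hpp : p' ≤ p := by rw [hp']; linarith
  have hqq : q' ≤ q := by rw [hq']; linarith
  have h1 : 2 * (R * l) < p + p' := by rw [hp']; linarith
  have h2 : 0 < q + q' := by rw [hq']; linarith
  have hp'1 : p' < 1 / 2 := by rw [hp']; linarith
  have hq'1 : q' < 1 / 2 := by rw [hq']; linarith
  have cg : Cl p' q' (deriv (gf k ε)) := Cl_mono (Cl_der (Cl_gf hk1 hp0 hq1.le hcl)) hpp hqq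
  have cL : Cl p' q' (Lam k (Qf k)) :=
    Cl_mono (Cl_LamQ hk1 (c := 3 / 4) (by norm_num)) (by linarith) (by linarith)
  have cQ1 : Cl p' q' (deriv (Qf k)) :=
    Cl_mono (Cl_der (Cl_Qf hk1)) (by linarith) (by linarith)
  have cQ2 : Cl p' q' (deriv (deriv (Qf k))) :=
    Cl_mono (Cl_der (Cl_der (Cl_Qf hk1))) (by linarith) (by linarith)
  have cLe : Cl p' q' (Lam k ε) := by
    have hc : 0 < min (p - p') (q - q') := by
      refine lt_min ?_ ?_
      · rw [hp']; linarith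
      · rw [hq']; linarith
    refine Cl_mono (Cl_Lam k hcl hc) ?_ ?_
    · have := min_le_left (p - p') (q - q')
      linarith
    · have := min_le_right (p - p') (q - q')
      linarith
  have ce1 : Cl p' q' (deriv ε) := Cl_mono (Cl_der hcl) hpp hqq
  have ce2 : Cl p' q' (deriv (deriv ε)) := Cl_mono (Cl_der (Cl_der hcl)) hpp hqq
  have cee : Cl p' q' (deriv e) := Cl_mono (Cl_der hcle) hpp hqq
  -- the decomposition
  have hlin : ∀ (c : ℝ) (ζ₀ ζ₁ : ℝ → ℝ), Cl p' q' ζ₀ → Cl p' q' ζ₁ →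
      EE k B (R * l) ε (fun y => ζ₀ y + c * ζ₁ y) = EE k B (R * l) ε ζ₀ + c * EE k B (R * l) ε ζ₁ :=
    fun c ζ₀ ζ₁ a0 a1 => Efi_lin hk1 hB0 hρ.le hp0 hq1.le hcl h1 h2 c a0 a1
  have ez : zeta k b m l ε e = fun y => (fun y => (fun y => (fun y => (fun y => (fun y => (fun y =>
      deriv (gf k ε) y + (-b) * Lam k (Qf k) y) y + m * deriv (Qf k) y) y
      + l * deriv (deriv (Qf k)) y) y + (-b) * Lam k ε y) y + m * deriv ε y) y
      + l * deriv (deriv ε) y) y + (-1) * deriv e y := by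
    funext y
    unfold zeta Nf
    ring
  have d1 := Cl_add cg (Cl_smul (-b) cL)
  have d2 := Cl_add d1 (Cl_smul m cQ1)
  have d3 := Cl_add d2 (Cl_smul l cQ2)
  have d4 := Cl_add d3 (Cl_smul (-b) cLe)
  have d5 := Cl_add d4 (Cl_smul m ce1)
  have d6 := Cl_add d5 (Cl_smul l ce2)
  have eE : EE k B (R * l) ε (zeta k b m l ε e) = EE k B (R * l) ε (deriv (gf k ε))
      - b * EE k B (R * l) ε (Lam k (Qf k)) + m * EE k B (R * l) ε (deriv (Qf k))
      + l * EE k B (R * l) ε (deriv (deriv (Qf k))) - b * EE k B (R * l) ε (Lam k ε)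
      + m * EE k B (R * l) ε (deriv ε) + l * EE k B (R * l) ε (deriv (deriv ε))
      - EE k B (R * l) ε (deriv e) := by
    rw [ez, hlin _ _ _ d6 cee, hlin _ _ _ d5 ce2, hlin _ _ _ d4 ce1, hlin _ _ _ d3 cLe,
      hlin _ _ _ d2 cQ2, hlin _ _ _ d1 cQ1, hlin _ _ _ cg cL]
    ring
  have eD : DE k B (R * l) b ε (zeta k b m l ε e) = EE k B (R * l) ε (zeta k b m l ε e)
      - b * (R * l) * (∫ y, y * om B (R * l) y * ((deriv ε y) ^ 2 + (ε y) ^ 2 - 2 * bF k ε y)) := rfl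
  have hsy1 : ∀ y, |ε y| ≤ 1 := fun y => (hs y).trans hs1
  have K1 := H1 γ hγ hγ' B (R * l) hS p q ε hε' fun y => (hs y).trans hsν1
  have K2 := H2 γ hγ hγ' B (R * l) hS p q ε hε' hsy1
  have K3 := H3 γ hγ hγ' B (R * l) hS p q s ε hε' hs1 hs
  have K4 := H4'' p q ε hε' (fun y => (hs y).trans hsν4) b hb hbC
  have K5 := H5 γ hγ hγ' B (R * l) hS p q ε hε' hsy1
  have K6 := H6 γ hγ hγ' B (R * l) hS p q s ε hε' hs1 hs
  have K7 := H7 B (R * l) hS p q ε e hε' he hsy1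
  have hfin := Efi_arith (m := m) hC1 hC2 hC3 hC4 hC5 hC6 hC7 (Efi_Tn hS ε) (Efi_Gn B (R * l) ε)
    (Efi_ln γ B ε) (Real.sqrt_nonneg (ln γ B ε)) hB0 hb hl hs0 hρ (Efi_Gn B (R * l) e)
    K1 K2.1 K2.2 K3 K4 K5 K6 K7
  rw [eD, eE]
  exact hfin

end H98KB

end S_H98_KB_Efi
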