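import Mathlib
import Pool.Agent.H98.BU.G01
import Pool.Agent.H98.BU.G02
import Pool.Agent.H98.BU.G03
import Pool.Agent.H98.BU.G04

/-! Blow-up for `u_t + u^k u_x + u_xxx - u_xx = 0`, part G33: this file joins several modules
to save build time (`Pool/Agent/H98/{KB,KC}`, `H72/{KB,KC}`, `H68/KC`, `H37/{KB,KC}`). -/

section S_H98_KB_Bms

/-!
# Bms : bounds for the modulation parameters and for `(ζ, φ₀)`

Integrating by parts (all functions in `Cl`), with `p₀=(ε,Q)`, `q₀=(ε,Q')`: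
`(ζ,Q) = -(g,Q') - b(ΛQ,Q) - l|Q'|² - b(Λε,Q) + m(ε',Q) + l(ε,Q'') + (e,Q')`,
`(g,Q') = -(R,Q')` (`LQ'=0`), `(ΛQ,Q)=-s_c|Q|²`, `(ε',Q) = -q₀`, `(Λε,Q) = ∫((2/k)Q - (yQ)')ε`.
Hence `b(s_c|Q|² - (Λε,Q)) = l|Q'|² - l(ε,Q'') - (R,Q') - (e,Q') + m q₀`   (1)
`(ζ,Q') = -(g,Q'') + m|Q'|² - b(Λε,Q') + m(ε',Q') + l(ε'',Q') + (e,Q'')`, i.e.
`m(|Q'|² - (ε,Q'')) = (g,Q'') + b(Λε,Q') + l... - (e,Q'')` with `(g,Q'')=(ε,LQ'')-(R,Q'')`, `l(ε'',Q')=l(ε,Q''')`   (2)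
Every pairing of `ε` with a function `O(e^{-3|y|/4})` is `≤ C(∫loc ε²)^{1/2} ≤ C√ln` (`loc ≥ e^{-|y|/2}`), every pairing of
`R` is `≤ C ln` (`|R| ≤ Cε²`), of `e` is `≤ C√Gn e` (`om ≥ e^{-|y|/2}/2`); constants depend on `k` only.
Choose `c` so small that `C√c` is `≤` half of `s_c|Q|²` and of `|Q'|²`.  From (1),(2): `|b|,|m| ≤ C` first
(`|b| ≤ C(l+√ln+√Gn e+|m|√ln)`, `|m| ≤ C(√ln+|b|√ln+l√ln+√Gn e)`), then `|m| ≤ C(√ln+√Gn e)`, then (1) gives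
`|b - κl| ≤ C(l√ln + ln + |q₀| + √Gn e)` (`κ=|Q'|²/(s_c|Q|²)`; `|b||(Λε,Q)| ≤ C|b|√ln`, `|b| ≤ C(l + ln + |q₀||m| + √Gn e)`).
`(ζ,φ₀)`: `-(g,φ₀')`, `-b(ΛQ,φ₀)`, `m(Q',φ₀)=0`-or bounded, `l(Q'',φ₀)`, `-b(Λε,φ₀)`, `-m(ε,φ₀')`, `l(ε,φ₀'')`, `(e,φ₀')`; `b ≤ 2κl`.
-/

open MeasureTheory Filter Topology Set
open scoped ContDiff

namespace H98KB

theorem Bms_loc {γ B : ℝ} (hγ : 0 < γ) (hB : 0 < B) :
    Cl (2 * γ + 2 / B) (2 * γ + 2 / B) (loc γ B) :=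
  Cl_mul (Cl_se2 hγ) (Cl_ch hB)

theorem Bms_intl {γ B p q : ℝ} (hγ : 0 < γ) (hB : 0 < B) (hp : 0 < p) (hq : 0 < q)
    {f : ℝ → ℝ} (hf : Cl p q f) : Integrable (fun y => loc γ B y * f y ^ 2) := by
  have h1 := Cl_mul (Bms_loc hγ hB) (Cl_pow hf 2)
  refine Cl_int h1 ?_ ?_
  · positivity
  · positivity

theorem Bms_into {B ρ p q : ℝ} (h : Slow B ρ) {f : ℝ → ℝ} (hρ : ρ < p) (hq : 0 < q)
    (hf : Cl p q f) : Integrable (fun y => om B ρ y * f y ^ 2) := by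
  obtain ⟨hB, hρ0, -⟩ := h
  have hB0 : 0 < B := by linarith
  have h1 := Cl_mul (Cl_om hB0 ρ) (Cl_pow hf 2)
  refine Cl_int h1 ?_ ?_
  · push_cast
    linarith
  · push_cast
    have h2 : 0 < 1 / B := by positivity
    linarith

theorem Bms_ln_ge {γ B p q : ℝ} (hγ : 0 < γ) (hB : 0 < B) (hp : 0 < p) (hq : 0 < q)
    {f : ℝ → ℝ} (hf : Cl p q f) : ∫ y, loc γ B y * f y ^ 2 ≤ ln γ B f := by
  have i1 := Bms_intl hγ hB hp hq hf
  have i2 := Bms_intl hγ hB hp hq (Cl_der hf)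
  unfold ln
  refine integral_mono i1 ?_ ?_
  · refine (i1.add i2).congr (Eventually.of_forall fun y => ?_)
    show loc γ B y * f y ^ 2 + loc γ B y * deriv f y ^ 2 =
      loc γ B y * (f y ^ 2 + deriv f y ^ 2)
    ring
  · intro y
    show loc γ B y * f y ^ 2 ≤ loc γ B y * (f y ^ 2 + deriv f y ^ 2)
    have h1 := loc_pos γ B y
    refine mul_le_mul_of_nonneg_left ?_ h1.le
    linarith [sq_nonneg (deriv f y)]

theorem Bms_Gn_ge {B ρ p q : ℝ} (h : Slow B ρ) {f : ℝ → ℝ} (hρ : ρ < p) (hq : 0 < q)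
    (hf : Cl p q f) : ∫ y, om B ρ y * f y ^ 2 ≤ Gn B ρ f := by
  have i1 := Bms_into h hρ hq hf
  have i2 := Bms_into h hρ hq (Cl_der hf)
  unfold Gn
  refine integral_mono i1 ?_ ?_
  · refine (i1.add i2).congr (Eventually.of_forall fun y => ?_)
    show om B ρ y * f y ^ 2 + om B ρ y * deriv f y ^ 2 =
      om B ρ y * (f y ^ 2 + deriv f y ^ 2)
    ring
  · intro y
    show om B ρ y * f y ^ 2 ≤ om B ρ y * (f y ^ 2 + deriv f y ^ 2)
    have h1 := om_pos B ρ y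
    refine mul_le_mul_of_nonneg_left ?_ h1.le
    linarith [sq_nonneg (deriv f y)]

theorem Bms_pair {W Φ f : ℝ → ℝ} {C : ℝ} (hf : Continuous f) (hΦ : Continuous Φ)
    (hW : Continuous W) (hWp : ∀ y, 0 < W y) (hlo : ∀ y, bd (1 / 2) (1 / 2) y ≤ 2 * W y)
    (hf2 : Integrable (fun y => W y * f y ^ 2)) (hC : 0 ≤ C)
    (hb : ∀ y, |Φ y| ≤ C * bd (3 / 4) (3 / 4) y) :
    |ip f Φ| ≤ (C * √(2 * ∫ y, bd 1 1 y)) * √(∫ y, W y * f y ^ 2) := by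
  have hpt : ∀ y, Φ y ^ 2 / W y ≤ 2 * C ^ 2 * bd 1 1 y := by
    intro y
    rw [div_le_iff₀ (hWp y)]
    have h1 : Φ y ^ 2 ≤ (C * bd (3 / 4) (3 / 4) y) ^ 2 := by
      rw [← sq_abs]
      exact pow_le_pow_left₀ (abs_nonneg _) (hb y) 2
    have h2 : bd (3 / 4) (3 / 4) y * bd (3 / 4) (3 / 4) y = bd 1 1 y * bd (1 / 2) (1 / 2) y := by
      rw [bd_mul, bd_mul]
      norm_num
    have h3 := mul_le_mul_of_nonneg_left (hlo y) (bd_pos 1 1 y).le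
    calc Φ y ^ 2 ≤ (C * bd (3 / 4) (3 / 4) y) ^ 2 := h1
      _ = C ^ 2 * (bd (3 / 4) (3 / 4) y * bd (3 / 4) (3 / 4) y) := by ring
      _ = C ^ 2 * (bd 1 1 y * bd (1 / 2) (1 / 2) y) := by rw [h2]
      _ ≤ C ^ 2 * (bd 1 1 y * (2 * W y)) := mul_le_mul_of_nonneg_left h3 (sq_nonneg _)
      _ = 2 * C ^ 2 * bd 1 1 y * W y := by ring
  have hI1 : Integrable (fun y => 2 * C ^ 2 * bd 1 1 y) :=
    (bd_int one_pos one_pos).const_mul _
  have hI2 : Integrable (fun y => Φ y ^ 2 / W y) := by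
    refine hI1.mono' ?_ ?_
    · exact ((hΦ.pow 2).div hW (fun y => (hWp y).ne')).aestronglyMeasurable
    · refine Eventually.of_forall fun y => ?_
      rw [Real.norm_eq_abs, abs_of_nonneg (div_nonneg (sq_nonneg _) (hWp y).le)]
      exact hpt y
  obtain ⟨-, h4⟩ := cs_wt hf hΦ hW hWp hf2 hI2
  refine h4.trans (mul_le_mul_of_nonneg_right ?_ (Real.sqrt_nonneg _))
  have h5 : ∫ y, Φ y ^ 2 / W y ≤ C ^ 2 * (2 * ∫ y, bd 1 1 y) := by
    calc ∫ y, Φ y ^ 2 / W y ≤ ∫ y, 2 * C ^ 2 * bd 1 1 y := integral_mono hI2 hI1 hpt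
      _ = C ^ 2 * (2 * ∫ y, bd 1 1 y) := by
        rw [integral_const_mul]
        ring
  calc √(∫ y, Φ y ^ 2 / W y) ≤ √(C ^ 2 * (2 * ∫ y, bd 1 1 y)) := Real.sqrt_le_sqrt h5
    _ = C * √(2 * ∫ y, bd 1 1 y) := by
      rw [Real.sqrt_mul (sq_nonneg C), Real.sqrt_sq hC]

theorem Bms_bd12 (y : ℝ) : bd (1 / 2) (1 / 2) y = Real.exp (-(|y| / 2)) := by
  rw [bd_abs]
  congr 1
  ring

theorem Bms_A {Φ : ℝ → ℝ} (hΦ : Cl (3 / 4) (3 / 4) Φ) : ∃ C : ℝ, 0 ≤ C ∧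
    ∀ γ : ℝ, 0 < γ → γ ≤ 1 / 8 → ∀ B : ℝ, 16 ≤ B → ∀ (p q : ℝ) (ε : ℝ → ℝ), 0 < p → 0 < q →
    Cl p q ε → |ip ε Φ| ≤ C * √(ln γ B ε) := by
  obtain ⟨C, hC, hb⟩ := Cl_bnd hΦ
  refine ⟨C * √(2 * ∫ y, bd 1 1 y), by positivity, ?_⟩
  intro γ hγ hγ' B hB p q ε hp hq hε
  have hB0 : 0 < B := by linarith
  have h1 := Bms_pair (W := loc γ B) (Cl_cont hε) (Cl_cont hΦ) (Cl_cont (Bms_loc hγ hB0))
    (loc_pos γ B) (fun y => by
      rw [Bms_bd12]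
      have h2 := ex_le_loc hγ hγ' hB y
      have h3 := loc_pos γ B y
      linarith) (Bms_intl hγ hB0 hp hq hε) hC hb
  refine h1.trans (mul_le_mul_of_nonneg_left ?_ (by positivity))
  exact Real.sqrt_le_sqrt (Bms_ln_ge hγ hB0 hp hq hε)

theorem Bms_B {Φ : ℝ → ℝ} (hΦ : Cl (3 / 4) (3 / 4) Φ) : ∃ C : ℝ, 0 ≤ C ∧
    ∀ B ρ : ℝ, Slow B ρ → ∀ (p q : ℝ) (e : ℝ → ℝ), Adm ρ p q e →
    |ip e Φ| ≤ C * √(Gn B ρ e) := by
  obtain ⟨C, hC, hb⟩ := Cl_bnd hΦ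
  refine ⟨C * √(2 * ∫ y, bd 1 1 y), by positivity, ?_⟩
  intro B ρ hS p q e he
  obtain ⟨a1, a2, a3, a4, a5⟩ := he
  have hB0 : 0 < B := by linarith [hS.1]
  have h1 := Bms_pair (W := om B ρ) (Cl_cont a5) (Cl_cont hΦ) (Cl_cont (Cl_om hB0 ρ))
    (om_pos B ρ) (fun y => by
      rw [Bms_bd12]
      exact ex_le_om hS y) (Bms_into hS a1 a3 a5) hC hb
  refine h1.trans (mul_le_mul_of_nonneg_left ?_ (by positivity))
  exact Real.sqrt_le_sqrt (Bms_Gn_ge hS a1 a3 a5)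

theorem Bms_C {k : ℕ} (hk : 2 ≤ k) {Φ : ℝ → ℝ} (hΦ : Cl (3 / 4) (3 / 4) Φ) : ∃ C : ℝ, 0 ≤ C ∧
    ∀ γ : ℝ, 0 < γ → γ ≤ 1 / 8 → ∀ B : ℝ, 16 ≤ B → ∀ (p q : ℝ) (ε : ℝ → ℝ), 0 < p → 0 < q →
    Cl p q ε → (∀ y, |ε y| ≤ 1) → |ip (Rf k ε) Φ| ≤ C * ln γ B ε := by
  obtain ⟨C, hC, hb⟩ := Cl_bnd hΦ
  obtain ⟨C', hC', hR⟩ := R_le k hk
  refine ⟨C' * C, by positivity, ?_⟩
  intro γ hγ hγ' B hB p q ε hp hq hε h1
  have hB0 : 0 < B := by linarith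
  have hI := Bms_intl hγ hB0 hp hq hε
  have h2 : ‖∫ y, Rf k ε y * Φ y‖ ≤ ∫ y, C' * C * (loc γ B y * ε y ^ 2) := by
    refine norm_integral_le_of_norm_le (hI.const_mul _) (Eventually.of_forall fun y => ?_)
    rw [Real.norm_eq_abs, abs_mul]
    have h3 := hR ε y (h1 y)
    have h4 : |Φ y| ≤ C * loc γ B y := by
      refine (hb y).trans (mul_le_mul_of_nonneg_left ?_ hC)
      refine (bd_mono (p' := 1 / 2) (q' := 1 / 2) (by norm_num) (by norm_num) y).trans ?_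
      rw [Bms_bd12]
      exact ex_le_loc hγ hγ' hB y
    calc |Rf k ε y| * |Φ y| ≤ C' * ε y ^ 2 * (C * loc γ B y) :=
          mul_le_mul h3 h4 (abs_nonneg _) (by positivity)
      _ = C' * C * (loc γ B y * ε y ^ 2) := by ring
  rw [integral_const_mul, Real.norm_eq_abs] at h2
  refine h2.trans (mul_le_mul_of_nonneg_left ?_ (by positivity))
  exact Bms_ln_ge hγ hB0 hp hq hε

/-- `(2/k - 1) φ - y φ'` -/
noncomputable def Bms_psi (k : ℕ) (φ : ℝ → ℝ) (y : ℝ) : ℝ :=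
  (2 / (k : ℝ) - 1) * φ y - y * deriv φ y

theorem Bms_psi_cl (k : ℕ) {φ : ℝ → ℝ} (hφ : Cl 1 1 φ) : Cl (3 / 4) (3 / 4) (Bms_psi k φ) := by
  have h1 : Cl (3 / 4) (3 / 4) (fun y => (2 / (k : ℝ) - 1) * φ y) :=
    Cl_smul _ (Cl_mono hφ (by norm_num) (by norm_num))
  have h2 : Cl (3 / 4) (3 / 4) (fun y => y * deriv φ y) :=
    Cl_mono (Cl_mul (Cl_id (c := 1 / 4) (by norm_num)) (Cl_der hφ)) (by norm_num) (by norm_num)
  exact Cl_sub h1 h2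

theorem Bms_Lam {k : ℕ} {p q : ℝ} {φ ε : ℝ → ℝ} (hφ : Cl 1 1 φ) (hp : 0 < p) (hq : 0 < q)
    (hε : Cl p q ε) : ip (Lam k ε) φ = ip ε (Bms_psi k φ) := by
  have hL : Cl (p - 1 / 2) (q - 1 / 2) (Lam k ε) := Cl_Lam k hε (by norm_num)
  have hH : Cl (-(1 / 2) + (p + 1)) (-(1 / 2) + (q + 1)) (fun y => y * (ε y * φ y)) :=
    Cl_mul (Cl_id (c := 1 / 2) (by norm_num)) (Cl_mul hε hφ)
  unfold ip
  refine Cl_int_eq (Cl_int (Cl_mul hL hφ) (by linarith) (by linarith))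
    (Cl_int (Cl_mul hε (Bms_psi_cl k hφ)) (by linarith) (by linarith)) hH (by linarith)
    (by linarith) (fun y => ?_)
  have h1 : HasDerivAt (fun y => y * (ε y * φ y))
      (1 * (ε y * φ y) + y * (deriv ε y * φ y + ε y * deriv φ y)) y :=
    (hasDerivAt_id y).mul ((Cl_hd hε y).mul (Cl_hd hφ y))
  rw [h1.deriv]
  unfold Lam Bms_psi
  ring

theorem Bms_id {k : ℕ} {p q : ℝ} (hk : 1 ≤ k) (hp : 0 < p) (hp1 : p ≤ 1 / 2) (hq : 0 < q)
    (hq1 : q ≤ 1 / 2) {φ ε e : ℝ → ℝ} (hφ : Cl 1 1 φ) (hε : Cl p q ε) {p' q' : ℝ} (hp' : 0 < p')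
    (hq' : 0 < q') (he : Cl p' q' e) (b m l : ℝ) :
    ip (zeta k b m l ε e) φ = -ip ε (Lop k (deriv φ)) + ip (Rf k ε) (deriv φ)
      - b * ip (Lam k (Qf k)) φ + m * ip (deriv (Qf k)) φ + l * ip (deriv (deriv (Qf k))) φ
      - b * ip ε (Bms_psi k φ) - m * ip ε (deriv φ) + l * ip ε (deriv (deriv φ))
      + ip e (deriv φ) := by
  have hφ' := Cl_der hφ
  have hQ := Cl_Qf (k := k) hk
  have hg : Cl p q (gf k ε) := Cl_gf hk hp.le hq.le hε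
  have hRf : Cl p q (Rf k ε) := Cl_Rf hk hp.le hq.le hε
  have hLQ : Cl (1 / 2) (1 / 2) (Lam k (Qf k)) := Cl_LamQ hk (by norm_num)
  have hLe : Cl (p - 1 / 2) (q - 1 / 2) (Lam k ε) := Cl_Lam k hε (by norm_num)
  have i1 : Integrable (fun y => deriv (gf k ε) y * φ y) :=
    Cl_int (Cl_mul (Cl_der hg) hφ) (by linarith) (by linarith)
  have i2 : Integrable (fun y => Lam k (Qf k) y * φ y) :=
    Cl_int (Cl_mul hLQ hφ) (by norm_num) (by norm_num)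
  have i3 : Integrable (fun y => deriv (Qf k) y * φ y) :=
    Cl_int (Cl_mul (Cl_der hQ) hφ) (by norm_num) (by norm_num)
  have i4 : Integrable (fun y => deriv (deriv (Qf k)) y * φ y) :=
    Cl_int (Cl_mul (Cl_der (Cl_der hQ)) hφ) (by norm_num) (by norm_num)
  have i5 : Integrable (fun y => Lam k ε y * φ y) :=
    Cl_int (Cl_mul hLe hφ) (by linarith) (by linarith)
  have i6 : Integrable (fun y => deriv ε y * φ y) :=
    Cl_int (Cl_mul (Cl_der hε) hφ) (by linarith) (by linarith)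
  have i7 : Integrable (fun y => deriv (deriv ε) y * φ y) :=
    Cl_int (Cl_mul (Cl_der (Cl_der hε)) hφ) (by linarith) (by linarith)
  have i8 : Integrable (fun y => deriv e y * φ y) :=
    Cl_int (Cl_mul (Cl_der he) hφ) (by linarith) (by linarith)
  have e0 : ip (zeta k b m l ε e) φ = (∫ y, deriv (gf k ε) y * φ y)
      - b * (∫ y, Lam k (Qf k) y * φ y) + m * (∫ y, deriv (Qf k) y * φ y)
      + l * (∫ y, deriv (deriv (Qf k)) y * φ y) - b * (∫ y, Lam k ε y * φ y)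
      + m * (∫ y, deriv ε y * φ y) + l * (∫ y, deriv (deriv ε) y * φ y)
      - ∫ y, deriv e y * φ y := by
    have j1 : Integrable (fun y => deriv (gf k ε) y * φ y - b * (Lam k (Qf k) y * φ y)) :=
      i1.sub (i2.const_mul b)
    have j2 : Integrable (fun y => deriv (gf k ε) y * φ y - b * (Lam k (Qf k) y * φ y) +
        m * (deriv (Qf k) y * φ y)) := j1.add (i3.const_mul m)
    have j3 : Integrable (fun y => deriv (gf k ε) y * φ y - b * (Lam k (Qf k) y * φ y) +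
        m * (deriv (Qf k) y * φ y) + l * (deriv (deriv (Qf k)) y * φ y)) :=
      j2.add (i4.const_mul l)
    have j4 : Integrable (fun y => deriv (gf k ε) y * φ y - b * (Lam k (Qf k) y * φ y) +
        m * (deriv (Qf k) y * φ y) + l * (deriv (deriv (Qf k)) y * φ y) -
        b * (Lam k ε y * φ y)) := j3.sub (i5.const_mul b)
    have j5 : Integrable (fun y => deriv (gf k ε) y * φ y - b * (Lam k (Qf k) y * φ y) +
        m * (deriv (Qf k) y * φ y) + l * (deriv (deriv (Qf k)) y * φ y) -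
        b * (Lam k ε y * φ y) + m * (deriv ε y * φ y)) := j4.add (i6.const_mul m)
    have j6 : Integrable (fun y => deriv (gf k ε) y * φ y - b * (Lam k (Qf k) y * φ y) +
        m * (deriv (Qf k) y * φ y) + l * (deriv (deriv (Qf k)) y * φ y) -
        b * (Lam k ε y * φ y) + m * (deriv ε y * φ y) + l * (deriv (deriv ε) y * φ y)) :=
      j5.add (i7.const_mul l)
    have hz : (fun y => zeta k b m l ε e y * φ y) = fun y => deriv (gf k ε) y * φ y -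
        b * (Lam k (Qf k) y * φ y) + m * (deriv (Qf k) y * φ y) +
        l * (deriv (deriv (Qf k)) y * φ y) - b * (Lam k ε y * φ y) + m * (deriv ε y * φ y) +
        l * (deriv (deriv ε) y * φ y) - deriv e y * φ y := by
      funext y
      unfold zeta Nf
      ring
    unfold ip
    rw [hz, integral_sub j6 i8, integral_add j5 (i7.const_mul l),
      integral_add j4 (i6.const_mul m), integral_sub j3 (i5.const_mul b),
      integral_add j2 (i4.const_mul l), integral_add j1 (i3.const_mul m),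
      integral_sub i1 (i2.const_mul b), integral_const_mul, integral_const_mul,
      integral_const_mul, integral_const_mul, integral_const_mul, integral_const_mul]
  have e1 : ∫ y, deriv (gf k ε) y * φ y = -ip ε (Lop k (deriv φ)) + ip (Rf k ε) (deriv φ) := by
    rw [Cl_ibp hg hφ (by linarith) (by linarith)]
    have j1 : Integrable (fun y => Lop k ε y * deriv φ y) :=
      Cl_int (Cl_mul (Cl_Lop hk hε) hφ') (by linarith) (by linarith)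
    have j2 : Integrable (fun y => Rf k ε y * deriv φ y) :=
      Cl_int (Cl_mul hRf hφ') (by linarith) (by linarith)
    have j3 : ∫ y, gf k ε y * deriv φ y =
        (∫ y, Lop k ε y * deriv φ y) - ∫ y, Rf k ε y * deriv φ y := by
      rw [← integral_sub j1 j2]
      refine integral_congr_ae (Eventually.of_forall fun y => ?_)
      show gf k ε y * deriv φ y = Lop k ε y * deriv φ y - Rf k ε y * deriv φ y
      rw [gf_eq]
      ring
    have j4 : ∫ y, Lop k ε y * deriv φ y = ip ε (Lop k (deriv φ)) :=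
      Lop_symm hk hε hφ' (by linarith) (by linarith)
    rw [j3, j4]
    unfold ip
    ring
  have e5 : ∫ y, Lam k ε y * φ y = ip ε (Bms_psi k φ) := Bms_Lam hφ hp hq hε
  have e6 : ∫ y, deriv ε y * φ y = -ip ε (deriv φ) :=
    Cl_ibp hε hφ (by linarith) (by linarith)
  have e7 : ∫ y, deriv (deriv ε) y * φ y = ip ε (deriv (deriv φ)) := by
    rw [Cl_ibp (Cl_der hε) hφ (by linarith) (by linarith),
      Cl_ibp hε hφ' (by linarith) (by linarith), neg_neg]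
    rfl
  have e8 : ∫ y, deriv e y * φ y = -ip e (deriv φ) :=
    Cl_ibp he hφ (by linarith) (by linarith)
  rw [e0, e1, e5, e6, e7, e8]
  unfold ip
  ring

theorem Bms_num {A P K : ℝ} (hA : 0 < A) (hP : 0 < P) (hK : 1 ≤ K) :
    ∃ c C : ℝ, 0 < c ∧ c ≤ 1 ∧ 0 < C ∧ ∀ S G l q₀ b m : ℝ, 0 ≤ S → S ^ 2 ≤ c → 0 ≤ G → G ≤ 1 →
      0 ≤ l → l ≤ 1 → 0 ≤ q₀ → q₀ ≤ K * S →
      |b * A - l * P| ≤ K * S ^ 2 + |b| * (K * S) + |m| * q₀ + l * (K * S) + K * G →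
      |m| * P ≤ K * S + K * S ^ 2 + |b| * (K * S) + |m| * (K * S) + l * (K * S) + K * G →
      |b - P / A * l| ≤ C * (l * S + S ^ 2 + q₀ + G) ∧ |m| ≤ C * (S + G) := by
  obtain ⟨D, hD⟩ : ∃ D, D = min A P := ⟨_, rfl⟩
  have hD0 : 0 < D := by
    rw [hD]
    exact lt_min hA hP
  have hDA : D ≤ A := by
    rw [hD]
    exact min_le_left _ _
  have hDP : D ≤ P := by
    rw [hD]
    exact min_le_right _ _
  have hK0 : 0 < K := by linarith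
  obtain ⟨s, hs⟩ : ∃ s, s = min 1 (D / (8 * K)) := ⟨_, rfl⟩
  have hs0 : 0 < s := by
    rw [hs]
    exact lt_min one_pos (by positivity)
  have hs1 : s ≤ 1 := by
    rw [hs]
    exact min_le_left _ _
  have hs2 : s ≤ D / (8 * K) := by
    rw [hs]
    exact min_le_right _ _
  have hKs : K * s ≤ D / 8 := by
    calc K * s ≤ K * (D / (8 * K)) := mul_le_mul_of_nonneg_left hs2 hK0.le
      _ = D / 8 := by
        field_simp
  obtain ⟨M, hM⟩ : ∃ M, M = 2 * (P + 7 * K) / D := ⟨_, rfl⟩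
  have hM0 : 0 < M := by
    rw [hM]
    positivity
  have hMD : M * D = 2 * (P + 7 * K) := by
    rw [hM]
    field_simp
  obtain ⟨C₁, hC₁⟩ : ∃ C₁, C₁ = 2 * (3 * K + M * K) / D := ⟨_, rfl⟩
  have hC₁0 : 0 < C₁ := by
    rw [hC₁]
    positivity
  have hC₁D : C₁ * D = 2 * (3 * K + M * K) := by
    rw [hC₁]
    field_simp
  obtain ⟨C₂, hC₂⟩ : ∃ C₂, C₂ = 2 * (P + 2 * K + M) / D := ⟨_, rfl⟩
  have hC₂0 : 0 < C₂ := by
    rw [hC₂]
    positivity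
  have hC₂D : C₂ * D = 2 * (P + 2 * K + M) := by
    rw [hC₂]
    field_simp
  obtain ⟨C₃, hC₃⟩ : ∃ C₃, C₃ = (K + M + K * C₂) / A := ⟨_, rfl⟩
  have hC₃0 : 0 < C₃ := by
    rw [hC₃]
    positivity
  refine ⟨s ^ 2, C₁ + C₃, by positivity, pow_le_one₀ hs0.le hs1, by positivity, ?_⟩
  intro S G l q₀ b m hS hSs hG hG1 hl hl1 hq hqS h1 h2
  have hSs' : S ≤ s := (pow_le_pow_iff_left₀ hS hs0.le two_ne_zero).1 hSs
  have hS1 : S ≤ 1 := hSs'.trans hs1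
  have hKS : K * S ≤ D / 8 := (mul_le_mul_of_nonneg_left hSs' hK0.le).trans hKs
  have hKS0 : 0 ≤ K * S := by positivity
  have hSS : S ^ 2 ≤ S := by (first | linarith only [hS, hSs', hs0, hs1] | nlinarith only [hS, hSs', hs0, hs1])
  have hb0 := abs_nonneg b
  have hm0 := abs_nonneg m
  have t1 : K * S ^ 2 ≤ K * S := mul_le_mul_of_nonneg_left hSS hK0.le
  have t2 : |m| * (K * S) ≤ |m| * (D / 8) := mul_le_mul_of_nonneg_left hKS hm0
  have t3 : |b| * (K * S) ≤ |b| * (D / 8) := mul_le_mul_of_nonneg_left hKS hb0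
  have t4 : l * (K * S) ≤ K * S := by
    calc l * (K * S) ≤ 1 * (K * S) := mul_le_mul_of_nonneg_right hl1 hKS0
      _ = K * S := one_mul _
  have t5 : K * G ≤ K := by
    calc K * G ≤ K * 1 := mul_le_mul_of_nonneg_left hG1 hK0.le
      _ = K := mul_one _
  have t6 : K * S ≤ K := by
    calc K * S ≤ K * 1 := mul_le_mul_of_nonneg_left hS1 hK0.le
      _ = K := mul_one _
  have t7 : |m| * q₀ ≤ |m| * (D / 8) :=
    (mul_le_mul_of_nonneg_left hqS hm0).trans t2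
  have t8 : |m| * D ≤ |m| * P := mul_le_mul_of_nonneg_left hDP hm0
  have t9 : |b| * D ≤ |b| * A := mul_le_mul_of_nonneg_left hDA hb0
  have t10 : |b| * A ≤ l * P + |b * A - l * P| := by
    have h3 : |b * A| ≤ |l * P| + |b * A - l * P| := by
      have h4 := abs_add_le (l * P) (b * A - l * P)
      rwa [add_sub_cancel] at h4
    rw [abs_mul, abs_of_pos hA, abs_of_nonneg (mul_nonneg hl hP.le)] at h3
    exact h3
  have t11 : l * P ≤ P := by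
    calc l * P ≤ 1 * P := mul_le_mul_of_nonneg_right hl1 hP.le
      _ = P := one_mul _
  -- crude bound
  have c1 : |m| + |b| ≤ M := by
    have h5 : (|m| + |b|) * D ≤ M * D := by
      rw [hMD]
      (first | linarith only [h1, h2, hDP, hK, hKS, t1, t10, t11, t2, t3, t4, t5, t6, t7, t8, t9] | nlinarith only [h1, h2, hDP, hK, hKS, t1, t10, t11, t2, t3, t4, t5, t6, t7, t8, t9])
    exact le_of_mul_le_mul_right h5 hD0
  -- bound for m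
  have c2 : |m| ≤ C₁ * (S + G) := by
    have h6 : |b| * (K * S) ≤ M * (K * S) := mul_le_mul_of_nonneg_right (by linarith) hKS0
    have h7 : M * K * G ≥ 0 := by positivity
    have h8 : K * G ≥ 0 := by positivity
    have h5 : |m| * D ≤ C₁ * (S + G) * D := by
      have h9 : C₁ * (S + G) * D = 2 * (3 * K + M * K) * (S + G) := by
        rw [← hC₁D]
        ring
      rw [h9]
      have h10 : 2 * (3 * K + M * K) * (S + G) = 6 * (K * S) + 6 * (K * G) + 2 * (M * (K * S))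
        + 2 * (M * K * G) := by ring
      rw [h10]
      (first | linarith only [h2, h6, h7, h8, hP, hm0, t1, t2, t4, t8] | nlinarith only [h2, h6, h7, h8, hP, hm0, t1, t2, t4, t8])
    exact le_of_mul_le_mul_right h5 hD0
  obtain ⟨X, hX⟩ : ∃ X, X = l * S + S ^ 2 + q₀ + G := ⟨_, rfl⟩
  have x1 : 0 ≤ l * S := by positivity
  have x2 : 0 ≤ S ^ 2 := by positivity
  have hX0 : 0 ≤ X := by
    rw [hX]
    positivity
  have m1 : |m| * q₀ ≤ M * q₀ := mul_le_mul_of_nonneg_right (by linarith) hq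
  -- bound for b S
  have c3 : |b| * S ≤ C₂ * X := by
    have h5 : |b| * S * D ≤ C₂ * X * D := by
      have h9 : C₂ * X * D = 2 * (P + 2 * K + M) * X := by
        rw [← hC₂D]
        ring
      rw [h9]
      have h11 : |b| * D ≤ 2 * (l * P + K * S ^ 2 + M * q₀ + l * (K * S) + K * G) := by
        (first | linarith only [h1, hA, hb0, m1, t10, t3, t9] | nlinarith only [h1, hA, hb0, m1, t10, t3, t9])
      have h12 : |b| * S * D ≤ 2 * (l * P + K * S ^ 2 + M * q₀ + l * (K * S) + K * G) * S := by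
        calc |b| * S * D = |b| * D * S := by ring
          _ ≤ _ := mul_le_mul_of_nonneg_right h11 hS
      refine h12.trans ?_
      have y1 : K * S ^ 2 * S ≤ K * S ^ 2 := by
        calc K * S ^ 2 * S ≤ K * S ^ 2 * 1 := mul_le_mul_of_nonneg_left hS1 (by positivity)
          _ = _ := mul_one _
      have y2 : M * q₀ * S ≤ M * q₀ := by
        calc M * q₀ * S ≤ M * q₀ * 1 := mul_le_mul_of_nonneg_left hS1 (by positivity)
          _ = _ := mul_one _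
      have y3 : l * (K * S) * S ≤ l * (K * S) := by
        calc l * (K * S) * S ≤ l * (K * S) * 1 :=
              mul_le_mul_of_nonneg_left hS1 (by positivity)
          _ = _ := mul_one _
      have y4 : K * G * S ≤ K * G := by
        calc K * G * S ≤ K * G * 1 := mul_le_mul_of_nonneg_left hS1 (by positivity)
          _ = _ := mul_one _
      have z1 : P * (l * S) ≤ P * X := by
        refine mul_le_mul_of_nonneg_left ?_ hP.le
        rw [hX]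
        linarith
      have z2 : K * (S ^ 2 + l * S + G) ≤ K * X := by
        refine mul_le_mul_of_nonneg_left ?_ hK0.le
        rw [hX]
        linarith
      have z3 : M * q₀ ≤ M * X := by
        refine mul_le_mul_of_nonneg_left ?_ hM0.le
        rw [hX]
        linarith
      have z4 : 0 ≤ K * X := by positivity
      (first | linarith only [y1, y2, y3, y4, z1, z2, z3, z4] | nlinarith only [y1, y2, y3, y4, z1, z2, z3, z4])
    exact le_of_mul_le_mul_right h5 hD0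
  have c4 : |b * A - l * P| ≤ (K + M + K * C₂) * X := by
    have h13 : |b| * (K * S) ≤ K * (C₂ * X) := by
      calc |b| * (K * S) = K * (|b| * S) := by ring
        _ ≤ K * (C₂ * X) := mul_le_mul_of_nonneg_left c3 hK0.le
    have z2 : K * (S ^ 2 + l * S + G) ≤ K * X := by
      refine mul_le_mul_of_nonneg_left ?_ hK0.le
      rw [hX]
      linarith
    have z3 : M * q₀ ≤ M * X := by
      refine mul_le_mul_of_nonneg_left ?_ hM0.le
      rw [hX]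
      linarith
    (first | linarith only [h1, h13, m1, z2, z3] | nlinarith only [h1, h13, m1, z2, z3])
  refine ⟨?_, ?_⟩
  · have h14 : b - P / A * l = (b * A - l * P) / A := by
      field_simp
    rw [h14, abs_div, abs_of_pos hA]
    have h15 : |b * A - l * P| / A ≤ C₃ * X := by
      rw [hC₃, div_mul_eq_mul_div]
      exact div_le_div_of_nonneg_right c4 hA.le
    refine h15.trans ?_
    rw [← hX]
    exact mul_le_mul_of_nonneg_right (by linarith) hX0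
  · refine c2.trans (mul_le_mul_of_nonneg_right (by linarith) (by positivity))

theorem BM_st (k : ℕ) (hk : 5 ≤ k) : ∃ c C : ℝ, 0 < c ∧ c ≤ 1 ∧ 0 < C ∧ ∀ γ : ℝ, 0 < γ → γ ≤ 1 / 8 →
    ∀ B ρ : ℝ, Slow B ρ → ∀ l : ℝ, 0 < l → l ≤ 1 → ∀ (p q : ℝ) (ε e : ℝ → ℝ),
    Adm ρ p q ε → Adm ρ p q e → (∀ y, |ε y| ≤ 1) → ln γ B ε ≤ c → Gn B ρ e ≤ 1 →
    ∀ b m, Orth k b m l ε e →
    |b - kap k * l| ≤ C * (l * √(ln γ B ε) + ln γ B ε + |ip ε (deriv (Qf k))| + √(Gn B ρ e)) ∧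
    |m| ≤ C * (√(ln γ B ε) + √(Gn B ρ e)) := by
  have hk1 : 1 ≤ k := by omega
  have hk2 : 2 ≤ k := by omega
  have hQ : Cl 1 1 (Qf k) := Cl_Qf hk1
  have hQ1 := Cl_der hQ
  have hQ2 := Cl_der hQ1
  have hQ3 := Cl_der hQ2
  have w : ∀ {f : ℝ → ℝ}, Cl 1 1 f → Cl (3 / 4) (3 / 4) f := fun h =>
    Cl_mono h (by norm_num) (by norm_num)
  obtain ⟨A, hA⟩ : ∃ A, A = sc k * ∫ y, (Qf k y) ^ 2 := ⟨_, rfl⟩
  obtain ⟨P, hP⟩ : ∃ P, P = ∫ y, (deriv (Qf k) y) ^ 2 := ⟨_, rfl⟩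
  have hA0 : 0 < A := by
    rw [hA]
    exact mul_pos (sc_pos hk) (Q2_pos hk1)
  have hP0 : 0 < P := by
    rw [hP]
    exact Qd2_pos hk1
  obtain ⟨K1, k1, a1⟩ := Bms_A (w hQ1)
  obtain ⟨K2, k2, a2⟩ := Bms_A (w hQ2)
  obtain ⟨K3, k3, a3⟩ := Bms_A (w hQ3)
  obtain ⟨K4, k4, a4⟩ := Bms_A (Bms_psi_cl k hQ)
  obtain ⟨K5, k5, a5⟩ := Bms_A (Bms_psi_cl k hQ1)
  obtain ⟨K6, k6, a6⟩ := Bms_A (w (Cl_Lop hk1 hQ2))
  obtain ⟨K7, k7, a7⟩ := Bms_B (w hQ1)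
  obtain ⟨K8, k8, a8⟩ := Bms_B (w hQ2)
  obtain ⟨K9, k9, a9⟩ := Bms_C hk2 (w hQ1)
  obtain ⟨K0, k0, a0⟩ := Bms_C hk2 (w hQ2)
  obtain ⟨K, hK⟩ : ∃ K, K = 1 + K1 + K2 + K3 + K4 + K5 + K6 + K7 + K8 + K9 + K0 := ⟨_, rfl⟩
  have hK1 : 1 ≤ K := by
    rw [hK]
    linarith
  obtain ⟨c, C, hc, hc1, hC, hmain⟩ := Bms_num hA0 hP0 hK1
  refine ⟨c, C, hc, hc1, hC, ?_⟩
  intro γ hγ hγ' B ρ hS l hl hl1 p q ε e hε he hε1 hln hGn b m hO
  obtain ⟨r1, r2, r3, r4, r5⟩ := hε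
  have he' := he
  obtain ⟨s1, s2, s3, s4, s5⟩ := he
  have hρ := hS.2.1
  have hp : 0 < p := by linarith
  have hB := hS.1
  have hB0 : 0 < B := by linarith
  have hln0 : 0 ≤ ln γ B ε := by
    unfold ln
    refine integral_nonneg fun y => ?_
    exact mul_nonneg (loc_pos γ B y).le (by positivity)
  obtain ⟨S, hSd⟩ : ∃ S, S = √(ln γ B ε) := ⟨_, rfl⟩
  obtain ⟨G, hGd⟩ : ∃ G, G = √(Gn B ρ e) := ⟨_, rfl⟩
  have hS0 : 0 ≤ S := by
    rw [hSd]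
    exact Real.sqrt_nonneg _
  have hG0 : 0 ≤ G := by
    rw [hGd]
    exact Real.sqrt_nonneg _
  have hS2 : S ^ 2 = ln γ B ε := by
    rw [hSd]
    exact Real.sq_sqrt hln0
  have hG1 : G ≤ 1 := by
    rw [hGd]
    rw [← Real.sqrt_one]
    exact Real.sqrt_le_sqrt hGn
  have v1 := a1 γ hγ hγ' B hB p q ε hp r3 r5
  have v2 := a2 γ hγ hγ' B hB p q ε hp r3 r5
  have v3 := a3 γ hγ hγ' B hB p q ε hp r3 r5
  have v4 := a4 γ hγ hγ' B hB p q ε hp r3 r5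
  have v5 := a5 γ hγ hγ' B hB p q ε hp r3 r5
  have v6 := a6 γ hγ hγ' B hB p q ε hp r3 r5
  have v7 := a7 B ρ hS p q e he'
  have v8 := a8 B ρ hS p q e he'
  have v9 := a9 γ hγ hγ' B hB p q ε hp r3 r5 hε1
  have v0 := a0 γ hγ hγ' B hB p q ε hp r3 r5 hε1
  rw [← hSd] at v1 v2 v3 v4 v5 v6
  rw [← hGd] at v7 v8
  rw [← hS2] at v9 v0
  have up : ∀ {x Ki Z : ℝ}, 0 ≤ Z → Ki ≤ K → x ≤ Ki * Z → x ≤ K * Z := fun hZ hi hx =>
    hx.trans (mul_le_mul_of_nonneg_right hi hZ)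
  have u1 := up hS0 (by rw [hK]; linarith) v1
  have u2 := up hS0 (by rw [hK]; linarith) v2
  have u3 := up hS0 (by rw [hK]; linarith) v3
  have u4 := up hS0 (by rw [hK]; linarith) v4
  have u5 := up hS0 (by rw [hK]; linarith) v5
  have u6 := up hS0 (by rw [hK]; linarith) v6
  have u7 := up hG0 (by rw [hK]; linarith) v7
  have u8 := up hG0 (by rw [hK]; linarith) v8
  have u9 := up (sq_nonneg S) (by rw [hK]; linarith) v9
  have u0 := up (sq_nonneg S) (by rw [hK]; linarith) v0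
  obtain ⟨o1, o2⟩ := hO
  rw [Bms_id hk1 hp r2 r3 r4 hQ r5 hp r3 s5 b m l] at o1
  rw [Bms_id hk1 hp r2 r3 r4 hQ1 r5 hp r3 s5 b m l] at o2
  have z1 : ip ε (Lop k (deriv (Qf k))) = 0 := by
    unfold ip
    have : (fun y => ε y * Lop k (deriv (Qf k)) y) = fun _ => 0 := by
      funext y
      rw [L_Qd hk1, mul_zero]
    rw [this, integral_zero]
  have z2 : ip (deriv (Qf k)) (Qf k) = 0 := by
    rw [← ip_Q_Qd hk1]
    unfold ip
    refine integral_congr_ae (Eventually.of_forall fun y => ?_)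
    exact mul_comm _ _
  have z3 : ip (deriv (Qf k)) (deriv (Qf k)) = P := by
    rw [hP]
    unfold ip
    refine integral_congr_ae (Eventually.of_forall fun y => ?_)
    exact (sq _).symm
  rw [z1, z2, ip_LamQ_Q hk1, ip_Qdd_Q hk1] at o1
  rw [ip_LamQ_Qd hk1, z3, ip_Qdd_Qd hk1] at o2
  rw [← hP] at o1
  have hA' : sc k * ∫ y, (Qf k y) ^ 2 = A := hA.symm
  have q1 : b * A - l * P = -ip (Rf k ε) (deriv (Qf k)) + b * ip ε (Bms_psi k (Qf k)) +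
      m * ip ε (deriv (Qf k)) - l * ip ε (deriv (deriv (Qf k))) - ip e (deriv (Qf k)) := by
    rw [← hA']
    linarith
  have q2 : m * P = ip ε (Lop k (deriv (deriv (Qf k)))) - ip (Rf k ε) (deriv (deriv (Qf k))) +
      b * ip ε (Bms_psi k (deriv (Qf k))) + m * ip ε (deriv (deriv (Qf k))) -
      l * ip ε (deriv (deriv (deriv (Qf k)))) - ip e (deriv (deriv (Qf k))) := by
    linarith
  have tri : ∀ a₁ a₂ a₃ a₄ a₅ : ℝ, |-a₁ + a₂ + a₃ - a₄ - a₅| ≤ |a₁| + |a₂| + |a₃| + |a₄| + |a₅| := by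
    intro a₁ a₂ a₃ a₄ a₅
    have j1 := abs_sub (-a₁ + a₂ + a₃ - a₄) a₅
    have j2 := abs_sub (-a₁ + a₂ + a₃) a₄
    have j3 := abs_add_le (-a₁ + a₂) a₃
    have j4 := abs_add_le (-a₁) a₂
    rw [abs_neg] at j4
    linarith
  have g1 : |b * A - l * P| ≤ K * S ^ 2 + |b| * (K * S) + |m| * |ip ε (deriv (Qf k))| +
      l * (K * S) + K * G := by
    rw [q1]
    refine (tri _ _ _ _ _).trans ?_
    rw [abs_mul b, abs_mul m, abs_mul l, abs_of_pos hl]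
    have n1 := mul_le_mul_of_nonneg_left u4 (abs_nonneg b)
    have n2 := mul_le_mul_of_nonneg_left u2 hl.le
    linarith
  have g2 : |m| * P ≤ K * S + K * S ^ 2 + |b| * (K * S) + |m| * (K * S) + l * (K * S) +
      K * G := by
    have n0 : |m| * P = |m * P| := by rw [abs_mul, abs_of_pos hP0]
    rw [n0, q2]
    have n1 := mul_le_mul_of_nonneg_left u5 (abs_nonneg b)
    have n2 := mul_le_mul_of_nonneg_left u3 hl.le
    have n3 := mul_le_mul_of_nonneg_left u2 (abs_nonneg m)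
    have n4 : ∀ a₀ a₁ a₂ a₃ a₄ a₅ : ℝ,
        |a₀ - a₁ + a₂ + a₃ - a₄ - a₅| ≤ |a₀| + (|a₁| + |a₂| + |a₃| + |a₄| + |a₅|) := by
      intro a₀ a₁ a₂ a₃ a₄ a₅
      have j0 : a₀ - a₁ + a₂ + a₃ - a₄ - a₅ = a₀ + (-a₁ + a₂ + a₃ - a₄ - a₅) := by ring
      rw [j0]
      exact (abs_add_le _ _).trans (add_le_add le_rfl (tri _ _ _ _ _))
    refine (n4 _ _ _ _ _ _).trans ?_
    rw [abs_mul b, abs_mul m, abs_mul l, abs_of_pos hl]
    linarith
  have hfin := hmain S G l (|ip ε (deriv (Qf k))|) b m hS0 (by rw [hS2]; exact hln) hG0 hG1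
    hl.le hl1 (abs_nonneg _) u1 g1 g2
  have hkap : kap k = P / A := by
    rw [hP, hA]
    rfl
  rw [hkap, ← hSd, ← hGd]
  rw [← hS2]
  exact hfin

end H98KB

end S_H98_KB_Bms

section S_H98_KB_Bmt

/-!
# Bmt (second half of Bms) : bounds for the modulation parameters and for `(ζ, φ₀)`

Integrating by parts (all functions in `Cl`), with `p₀=(ε,Q)`, `q₀=(ε,Q')`:
`(ζ,Q) = -(g,Q') - b(ΛQ,Q) - l|Q'|² - b(Λε,Q) + m(ε',Q) + l(ε,Q'') + (e,Q')`,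
`(g,Q') = -(R,Q')` (`LQ'=0`), `(ΛQ,Q)=-s_c|Q|²`, `(ε',Q) = -q₀`, `(Λε,Q) = ∫((2/k)Q - (yQ)')ε`.
Hence `b(s_c|Q|² - (Λε,Q)) = l|Q'|² - l(ε,Q'') - (R,Q') - (e,Q') + m q₀`   (1)
`(ζ,Q') = -(g,Q'') + m|Q'|² - b(Λε,Q') + m(ε',Q') + l(ε'',Q') + (e,Q'')`, i.e.
`m(|Q'|² - (ε,Q'')) = (g,Q'') + b(Λε,Q') + l... - (e,Q'')` with `(g,Q'')=(ε,LQ'')-(R,Q'')`, `l(ε'',Q')=l(ε,Q''')`   (2)
Every pairing of `ε` with a function `O(e^{-3|y|/4})` is `≤ C(∫loc ε²)^{1/2} ≤ C√ln` (`loc ≥ e^{-|y|/2}`), every pairing of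
`R` is `≤ C ln` (`|R| ≤ Cε²`), of `e` is `≤ C√Gn e` (`om ≥ e^{-|y|/2}/2`); constants depend on `k` only.
Choose `c` so small that `C√c` is `≤` half of `s_c|Q|²` and of `|Q'|²`.  From (1),(2): `|b|,|m| ≤ C` first
(`|b| ≤ C(l+√ln+√Gn e+|m|√ln)`, `|m| ≤ C(√ln+|b|√ln+l√ln+√Gn e)`), then `|m| ≤ C(√ln+√Gn e)`, then (1) gives
`|b - κl| ≤ C(l√ln + ln + |q₀| + √Gn e)` (`κ=|Q'|²/(s_c|Q|²)`; `|b||(Λε,Q)| ≤ C|b|√ln`, `|b| ≤ C(l + ln + |q₀||m| + √Gn e)`).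
`(ζ,φ₀)`: `-(g,φ₀')`, `-b(ΛQ,φ₀)`, `m(Q',φ₀)=0`-or bounded, `l(Q'',φ₀)`, `-b(Λε,φ₀)`, `-m(ε,φ₀')`, `l(ε,φ₀'')`, `(e,φ₀')`; `b ≤ 2κl`.
-/

open MeasureTheory Filter Topology Set
open scoped ContDiff

namespace H98KB

theorem Bmt_add {f g : ℝ → ℝ} {a b : ℝ} (hf : Integrable f ∧ |∫ y, f y| ≤ a)
    (hg : Integrable g ∧ |∫ y, g y| ≤ b) :
    Integrable (fun y => f y + g y) ∧ |∫ y, (f y + g y)| ≤ a + b := by
  refine ⟨hf.1.add hg.1, ?_⟩
  rw [integral_add hf.1 hg.1]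
  exact (abs_add_le _ _).trans (add_le_add hf.2 hg.2)

theorem Bmt_smul {f : ℝ → ℝ} {a : ℝ} (c : ℝ) (hf : Integrable f ∧ |∫ y, f y| ≤ a) :
    Integrable (fun y => c * f y) ∧ |∫ y, c * f y| ≤ |c| * a := by
  refine ⟨hf.1.const_mul c, ?_⟩
  rw [integral_const_mul, abs_mul]
  exact mul_le_mul_of_nonneg_left hf.2 (abs_nonneg _)

theorem Bmt_pair {φ : ℝ → ℝ} (hφ : Cl (3 / 4) (3 / 4) φ) : ∃ A : ℝ, 0 ≤ A ∧
    ∀ W F : ℝ → ℝ, Continuous W → (∀ y, 0 < W y) → (∀ y, Real.exp (-(|y| / 2)) ≤ 2 * W y) →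
    Continuous F → Integrable (fun y => W y * F y ^ 2) → ∀ S : ℝ, √(∫ y, W y * F y ^ 2) ≤ S →
    Integrable (fun y => F y * φ y) ∧ |∫ y, F y * φ y| ≤ A * S := by
  obtain ⟨C, hC0, hC⟩ := Cl_bnd hφ
  refine ⟨√(2 * C ^ 2 * ∫ y, bd 1 1 y), Real.sqrt_nonneg _, ?_⟩
  intro W F hW hWp hW1 hF hF2 S hS
  have hb : ∀ y, φ y ^ 2 / W y ≤ 2 * C ^ 2 * bd 1 1 y := by
    intro y
    have h1 : φ y ^ 2 ≤ C ^ 2 * (bd (3 / 4) (3 / 4) y) ^ 2 := by
      rw [← sq_abs, ← mul_pow]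
      exact pow_le_pow_left₀ (abs_nonneg _) (hC y) 2
    have h2 : (bd (3 / 4) (3 / 4) y) ^ 2 = bd 1 1 y * Real.exp (-(|y| / 2)) := by
      rw [bd_abs, bd_abs, ← Real.exp_add, sq, ← Real.exp_add]
      congr 1
      ring
    have h3 : 0 < bd 1 1 y := bd_pos _ _ _
    rw [div_le_iff₀ (hWp y)]
    calc φ y ^ 2 ≤ C ^ 2 * (bd 1 1 y * Real.exp (-(|y| / 2))) := by rw [← h2]; exact h1
      _ ≤ C ^ 2 * (bd 1 1 y * (2 * W y)) := by
          have := hW1 y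
          gcongr
      _ = _ := by ring
  have hc : Continuous (fun y => φ y ^ 2 / W y) :=
    ((Cl_cont hφ).pow 2).div hW (fun y => (hWp y).ne')
  have hφ2 : Integrable (fun y => φ y ^ 2 / W y) := by
    refine int_of_bd hc (p := 1) (q := 1) one_pos one_pos ⟨2 * C ^ 2, fun y => ?_⟩
    rw [abs_of_nonneg (div_nonneg (sq_nonneg _) (hWp y).le)]
    exact hb y
  have h := cs_wt hF (Cl_cont hφ) hW hWp hF2 hφ2
  refine ⟨h.1, h.2.trans ?_⟩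
  have h4 : ∫ y, φ y ^ 2 / W y ≤ 2 * C ^ 2 * ∫ y, bd 1 1 y := by
    rw [← integral_const_mul]
    exact integral_mono hφ2 ((bd_int one_pos one_pos).const_mul _) hb
  exact mul_le_mul (Real.sqrt_le_sqrt h4) hS (Real.sqrt_nonneg _) (Real.sqrt_nonneg _)

theorem Bmt_Clloc {γ B : ℝ} (hγ : 0 < γ) (hB : 0 < B) :
    Cl (2 * γ + 2 / B) (2 * γ + 2 / B) (loc γ B) := Cl_mul (Cl_se2 hγ) (Cl_ch hB)

/-- `∫ W F²` is integrable if `W F²` is in the class -/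
theorem Bmt_i2 {W F : ℝ → ℝ} {p q p' q' : ℝ} (hW : Cl p' q' W) (hF : Cl p q F)
    (hp : 0 < p' + 2 * p) (hq : 0 < q' + 2 * q) : Integrable (fun y => W y * F y ^ 2) := by
  have h := Cl_mul hW (Cl_pow hF 2)
  push_cast at h
  exact Cl_int h hp hq

theorem Bmt_two {W F G : ℝ → ℝ} (hWp : ∀ y, 0 < W y) (hF : Integrable (fun y => W y * F y ^ 2))
    (hG : Integrable (fun y => W y * G y ^ 2)) :
    √(∫ y, W y * F y ^ 2) ≤ √(∫ y, W y * (F y ^ 2 + G y ^ 2)) ∧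
    √(∫ y, W y * G y ^ 2) ≤ √(∫ y, W y * (F y ^ 2 + G y ^ 2)) := by
  have hi : Integrable (fun y => W y * (F y ^ 2 + G y ^ 2)) := by
    have := hF.add hG
    refine this.congr (Eventually.of_forall fun y => ?_)
    show W y * F y ^ 2 + W y * G y ^ 2 = W y * (F y ^ 2 + G y ^ 2)
    ring
  constructor
  · refine Real.sqrt_le_sqrt (integral_mono hF hi fun y => ?_)
    exact mul_le_mul_of_nonneg_left (by nlinarith [sq_nonneg (G y)]) (hWp y).le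
  · refine Real.sqrt_le_sqrt (integral_mono hG hi fun y => ?_)
    exact mul_le_mul_of_nonneg_left (by nlinarith [sq_nonneg (F y)]) (hWp y).le

/-- the facts on the weight `loc` -/
theorem Bmt_loc {γ B : ℝ} (hγ : 0 < γ) (hγ' : γ ≤ 1 / 8) (hB : 16 ≤ B) {p q : ℝ} (hp : 0 < p)
    (hq : 0 < q) {ε : ℝ → ℝ} (hε : Cl p q ε) :
    Continuous (loc γ B) ∧ (∀ y, 0 < loc γ B y) ∧ (∀ y, Real.exp (-(|y| / 2)) ≤ 2 * loc γ B y) ∧
    Integrable (fun y => loc γ B y * ε y ^ 2) ∧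
    Integrable (fun y => loc γ B y * deriv ε y ^ 2) ∧
    √(∫ y, loc γ B y * ε y ^ 2) ≤ √(ln γ B ε) ∧
    √(∫ y, loc γ B y * deriv ε y ^ 2) ≤ √(ln γ B ε) := by
  have hB0 : 0 < B := by linarith
  have hC := Bmt_Clloc hγ hB0
  have h0 : 0 < 2 / B := by positivity
  have i1 : Integrable (fun y => loc γ B y * ε y ^ 2) := Bmt_i2 hC hε (by linarith) (by linarith)
  have i2 : Integrable (fun y => loc γ B y * deriv ε y ^ 2) :=
    Bmt_i2 hC (Cl_der hε) (by linarith) (by linarith)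
  have h2 := Bmt_two (loc_pos γ B) i1 i2
  refine ⟨Cl_cont hC, loc_pos γ B, fun y => ?_, i1, i2, h2.1, h2.2⟩
  have := ex_le_loc hγ hγ' hB y
  linarith [loc_pos γ B y]

/-- the facts on the weight `om` -/
theorem Bmt_om {B ρ : ℝ} (h : Slow B ρ) {p q : ℝ} (hp : ρ < p)
    (hq : 0 < q) {ε : ℝ → ℝ} (hε : Cl p q ε) :
    Continuous (om B ρ) ∧ (∀ y, 0 < om B ρ y) ∧ (∀ y, Real.exp (-(|y| / 2)) ≤ 2 * om B ρ y) ∧
    Integrable (fun y => om B ρ y * ε y ^ 2) ∧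
    Integrable (fun y => om B ρ y * deriv ε y ^ 2) ∧
    √(∫ y, om B ρ y * ε y ^ 2) ≤ √(Gn B ρ ε) ∧
    √(∫ y, om B ρ y * deriv ε y ^ 2) ≤ √(Gn B ρ ε) := by
  have hB0 : 0 < B := by linarith [h.1]
  have hρ := h.2.1
  have hC := Cl_om hB0 ρ
  have h0 : 0 < 1 / B := by positivity
  have i1 : Integrable (fun y => om B ρ y * ε y ^ 2) := Bmt_i2 hC hε (by linarith) (by linarith)
  have i2 : Integrable (fun y => om B ρ y * deriv ε y ^ 2) :=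
    Bmt_i2 hC (Cl_der hε) (by linarith) (by linarith)
  have h2 := Bmt_two (om_pos B ρ) i1 i2
  exact ⟨Cl_cont hC, om_pos B ρ, ex_le_om h, i1, i2, h2.1, h2.2⟩

theorem Bmt_ph (k : ℕ) (hk : 5 ≤ k) : Cl (3 / 4) (3 / 4) (ph0 k) ∧
    Cl (3 / 4) (3 / 4) (deriv (ph0 k)) ∧ Cl (3 / 4) (3 / 4) (deriv (deriv (ph0 k))) ∧
    Cl (3 / 4) (3 / 4) (fun y => y * ph0 k y) := by
  have h5 : (5 : ℝ) ≤ k := by exact_mod_cast hk
  have h := Cl_ph0 (k := k) (by omega)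
  have h1 : Cl (3 / 4) (3 / 4) (ph0 k) := Cl_mono h (by linarith) (by linarith)
  refine ⟨h1, Cl_der h1, Cl_der (Cl_der h1), ?_⟩
  exact Cl_mono (Cl_mul (Cl_id (c := 1) one_pos) h) (by linarith) (by linarith)

theorem Bmt_D (k : ℕ) (hk : 1 ≤ k) : ∃ C : ℝ, 0 ≤ C ∧ ∀ (ε : ℝ → ℝ), (∀ y, |ε y| ≤ 1) →
    ∀ y, |Df k ε y| ≤ C * |ε y| := by
  have hC0 : 0 ≤ C0 k := by
    unfold C0
    positivity
  refine ⟨2 ^ k * (C0 k + 1), by positivity, fun ε hε y => (D_le k ε y).trans ?_⟩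
  have h1 : Qf k y ^ k ≤ C0 k := by
    rw [Qf_pow hk]
    nlinarith [mul_nonneg hC0 (sq_nonneg (th k y))]
  have h2 : |ε y| ^ k ≤ 1 := pow_le_one₀ (abs_nonneg _) (hε y)
  have h3 : 0 ≤ |ε y| := abs_nonneg _
  gcongr

theorem DL_st (k : ℕ) (hk : 5 ≤ k) : ∃ C : ℝ, 0 < C ∧ ∀ γ : ℝ, 0 < γ → γ ≤ 1 / 8 →
    ∀ B ρ : ℝ, Slow B ρ → ∀ l : ℝ, 0 < l → l ≤ 1 → ∀ (p q : ℝ) (ε e : ℝ → ℝ),
    Adm ρ p q ε → Adm ρ p q e → (∀ y, |ε y| ≤ 1) → ln γ B ε ≤ 1 → Gn B ρ e ≤ 1 →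
    ∀ b m, |b| ≤ 2 * kap k * l → |m| ≤ 1 →
    |ip (zeta k b m l ε e) (ph0 k)| ≤ C * (√(ln γ B ε) + l + |m| + √(Gn B ρ e)) := by
  have hk1 : 1 ≤ k := by omega
  have hkap := kap_pos hk
  obtain ⟨c0, c1, c2, c3⟩ := Bmt_ph k hk
  obtain ⟨A0, hA0, P0⟩ := Bmt_pair c0
  obtain ⟨A1, hA1, P1⟩ := Bmt_pair c1
  obtain ⟨A2, hA2, P2⟩ := Bmt_pair c2
  obtain ⟨A3, hA3, P3⟩ := Bmt_pair c3
  obtain ⟨CD, hCD, hD⟩ := Bmt_D k hk1
  -- constants
  set I1 := |∫ y, Lam k (Qf k) y * ph0 k y| with hI1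
  set I2 := |∫ y, deriv (Qf k) y * ph0 k y| with hI2
  set I3 := |∫ y, deriv (deriv (Qf k)) y * ph0 k y| with hI3
  have hI1' : 0 ≤ I1 := abs_nonneg _
  have hI2' : 0 ≤ I2 := abs_nonneg _
  have hI3' : 0 ≤ I3 := abs_nonneg _
  have hk0 : (0 : ℝ) < k := by exact_mod_cast (by omega : 0 < k)
  refine ⟨1 + (A2 + A1 + CD * A1) + (2 * kap k * I1) + I2 + I3 + (2 * kap k * (2 / k)) * A0 +
    2 * kap k * A3 + A0 + A1 + A0, by positivity, ?_⟩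
  intro γ hγ hγ' B ρ hS l hl hl1 p q ε e hε he hε1 _ _ b m hb hm
  obtain ⟨hρp, -, hq, -, hεC⟩ := hε
  obtain ⟨-, -, -, -, heC⟩ := he
  have hp : 0 < p := hS.2.1.trans hρp
  obtain ⟨wc, wp, w1, i1, i2, s1, s2⟩ := Bmt_loc hγ hγ' hS.1 hp hq hεC
  obtain ⟨vc, vp, v1, j1, j2, t1, t2⟩ := Bmt_om hS hρp hq heC
  set S := √(ln γ B ε) with hSdef
  set G := √(Gn B ρ e) with hGdef
  have hS0 : 0 ≤ S := Real.sqrt_nonneg _
  have hG0 : 0 ≤ G := Real.sqrt_nonneg _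
  have hεc := Cl_cont hεC
  have hεc' := Cl_cont (Cl_der hεC)
  -- pairings
  have q1 := P0 _ _ wc wp w1 hεc i1 S s1
  have q2 := P1 _ _ wc wp w1 hεc i1 S s1
  have q3 := P2 _ _ wc wp w1 hεc' i2 S s2
  have q4 := P3 _ _ wc wp w1 hεc' i2 S s2
  have q5 := P0 _ _ wc wp w1 hεc' i2 S s2
  have q6 := P1 _ _ wc wp w1 hεc' i2 S s2
  have q7 := P0 _ _ vc vp v1 (Cl_cont (Cl_der heC)) j2 G t2
  -- the term with `D`
  have hDC : Cl p q (Df k ε) := Cl_Df hk1 hp.le hq.le hεC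
  have hB0 : 0 < B := by linarith [hS.1]
  have h2B : 0 < 2 / B := by positivity
  have i3 : Integrable (fun y => loc γ B y * Df k ε y ^ 2) :=
    Bmt_i2 (Bmt_Clloc hγ hB0) hDC (by linarith) (by linarith)
  have s3 : √(∫ y, loc γ B y * Df k ε y ^ 2) ≤ CD * S := by
    have h1 : ∫ y, loc γ B y * Df k ε y ^ 2 ≤ CD ^ 2 * ∫ y, loc γ B y * ε y ^ 2 := by
      rw [← integral_const_mul]
      refine integral_mono i3 (i1.const_mul _) fun y => ?_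
      have h2 : Df k ε y ^ 2 ≤ CD ^ 2 * ε y ^ 2 := by
        rw [← sq_abs (Df k ε y), ← sq_abs (ε y), ← mul_pow]
        exact pow_le_pow_left₀ (abs_nonneg _) (hD ε hε1 y) 2
      calc loc γ B y * Df k ε y ^ 2 ≤ loc γ B y * (CD ^ 2 * ε y ^ 2) :=
            mul_le_mul_of_nonneg_left h2 (wp y).le
        _ = _ := by ring
    calc √(∫ y, loc γ B y * Df k ε y ^ 2) ≤ √(CD ^ 2 * ∫ y, loc γ B y * ε y ^ 2) :=
          Real.sqrt_le_sqrt h1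
      _ = CD * √(∫ y, loc γ B y * ε y ^ 2) := by
          rw [Real.sqrt_mul (sq_nonneg _), Real.sqrt_sq hCD]
      _ ≤ CD * S := mul_le_mul_of_nonneg_left s1 hCD
  have q8 := P1 _ _ wc wp w1 (Cl_cont hDC) i3 (CD * S) s3
  -- second derivatives of `ε`
  have hd2 : Integrable (fun y => deriv (deriv ε) y * deriv (ph0 k) y) ∧
      |∫ y, deriv (deriv ε) y * deriv (ph0 k) y| ≤ A2 * S := by
    refine ⟨Cl_int (Cl_mul (Cl_der (Cl_der hεC)) c1) (by linarith) (by linarith), ?_⟩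
    rw [Cl_ibp (Cl_der hεC) c1 (by linarith) (by linarith), abs_neg]
    exact q3.2
  have hd3 : Integrable (fun y => deriv (deriv ε) y * ph0 k y) ∧
      |∫ y, deriv (deriv ε) y * ph0 k y| ≤ A1 * S := by
    refine ⟨Cl_int (Cl_mul (Cl_der (Cl_der hεC)) c0) (by linarith) (by linarith), ?_⟩
    rw [Cl_ibp (Cl_der hεC) c0 (by linarith) (by linarith), abs_neg]
    exact q6.2
  have hgC : Cl p q (gf k ε) := Cl_gf hk1 hp.le hq.le hεC
  have hg : Integrable (fun y => deriv (gf k ε) y * ph0 k y) ∧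
      |∫ y, deriv (gf k ε) y * ph0 k y| ≤ (A2 + A1 + CD * A1) * S := by
    refine ⟨Cl_int (Cl_mul (Cl_der hgC) c0) (by linarith) (by linarith), ?_⟩
    rw [Cl_ibp hgC c0 (by linarith) (by linarith), abs_neg]
    have h1 := Bmt_add (Bmt_add (Bmt_smul (-1) hd2) q2) (Bmt_smul (-1) q8)
    have h2 : (fun y => gf k ε y * deriv (ph0 k) y) = fun y =>
        ((-1) * (deriv (deriv ε) y * deriv (ph0 k) y) + ε y * deriv (ph0 k) y) +
          (-1) * (Df k ε y * deriv (ph0 k) y) := by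
      funext y
      unfold gf
      ring
    rw [h2]
    refine h1.2.trans (le_of_eq ?_)
    rw [abs_neg, abs_one]
    ring
  have k1 : Integrable (fun y => Lam k (Qf k) y * ph0 k y) ∧
      |∫ y, Lam k (Qf k) y * ph0 k y| ≤ I1 :=
    ⟨Cl_int (Cl_mul (Cl_LamQ (c := 1 / 2) hk1 (by norm_num)) c0) (by norm_num) (by norm_num), le_rfl⟩
  have k2 : Integrable (fun y => deriv (Qf k) y * ph0 k y) ∧
      |∫ y, deriv (Qf k) y * ph0 k y| ≤ I2 :=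
    ⟨Cl_int (Cl_mul (Cl_der (Cl_Qf hk1)) c0) (by norm_num) (by norm_num), le_rfl⟩
  have k3 : Integrable (fun y => deriv (deriv (Qf k)) y * ph0 k y) ∧
      |∫ y, deriv (deriv (Qf k)) y * ph0 k y| ≤ I3 :=
    ⟨Cl_int (Cl_mul (Cl_der (Cl_der (Cl_Qf hk1))) c0) (by norm_num) (by norm_num), le_rfl⟩
  have hall := Bmt_add (Bmt_add (Bmt_add (Bmt_add (Bmt_add (Bmt_add (Bmt_add (Bmt_add hg
    (Bmt_smul (-b) k1)) (Bmt_smul m k2)) (Bmt_smul l k3)) (Bmt_smul (-b * (2 / k)) q1))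
    (Bmt_smul (-b) q4)) (Bmt_smul m q5)) (Bmt_smul l hd3)) (Bmt_smul (-1) q7)
  have hfun : (fun y => zeta k b m l ε e y * ph0 k y) = fun y =>
      (((((((deriv (gf k ε) y * ph0 k y + -b * (Lam k (Qf k) y * ph0 k y)) +
        m * (deriv (Qf k) y * ph0 k y)) + l * (deriv (deriv (Qf k)) y * ph0 k y)) +
        -b * (2 / k) * (ε y * ph0 k y)) + -b * (deriv ε y * (y * ph0 k y))) +
        m * (deriv ε y * ph0 k y)) + l * (deriv (deriv ε) y * ph0 k y)) +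
        (-1) * (deriv e y * ph0 k y) := by
    funext y
    simp only [zeta, Nf, Lam]
    ring
  unfold ip
  rw [hfun]
  refine hall.2.trans ?_
  rw [abs_neg, abs_neg, abs_one, abs_mul, abs_neg, abs_of_pos hl,
    abs_of_pos (by positivity : (0 : ℝ) < 2 / k)]
  have hkl : 2 * kap k * l ≤ 2 * kap k := mul_le_of_le_one_right (by positivity) hl1
  have hm0 : 0 ≤ |m| := abs_nonneg m
  have hb0 : 0 ≤ |b| := abs_nonneg b
  have e1 : |b| * I1 ≤ 2 * kap k * I1 * l := by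
    calc |b| * I1 ≤ (2 * kap k * l) * I1 := mul_le_mul_of_nonneg_right hb hI1'
      _ = _ := by ring
  have e2 : |b| * (2 / k) * (A0 * S) ≤ (2 * kap k * (2 / k)) * A0 * S := by
    have : 0 ≤ (2 / (k : ℝ)) * (A0 * S) := by positivity
    calc |b| * (2 / k) * (A0 * S) = |b| * ((2 / k) * (A0 * S)) := by ring
      _ ≤ (2 * kap k) * ((2 / k) * (A0 * S)) := mul_le_mul_of_nonneg_right (hb.trans hkl) this
      _ = _ := by ring
  have e3 : |b| * (A3 * S) ≤ 2 * kap k * A3 * S := by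
    have : 0 ≤ A3 * S := by positivity
    calc |b| * (A3 * S) ≤ (2 * kap k) * (A3 * S) := mul_le_mul_of_nonneg_right (hb.trans hkl) this
      _ = _ := by ring
  have e4 : |m| * (A0 * S) ≤ A0 * S := by
    have : 0 ≤ A0 * S := by positivity
    exact mul_le_of_le_one_left this hm
  have e5 : l * (A1 * S) ≤ A1 * S := by
    have : 0 ≤ A1 * S := by positivity
    exact mul_le_of_le_one_left this hl1
  set X := S + l + |m| + G with hX
  have hX0 : 0 ≤ X := by positivity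
  have x1 : S ≤ X := by linarith
  have x2 : l ≤ X := by linarith
  have x3 : |m| ≤ X := by linarith
  have x4 : G ≤ X := by linarith
  have f1 : (A2 + A1 + CD * A1) * S ≤ (A2 + A1 + CD * A1) * X :=
    mul_le_mul_of_nonneg_left x1 (by positivity)
  have f2 : 2 * kap k * I1 * l ≤ 2 * kap k * I1 * X := mul_le_mul_of_nonneg_left x2 (by positivity)
  have f3 : |m| * I2 ≤ I2 * X := by rw [mul_comm]; exact mul_le_mul_of_nonneg_left x3 hI2'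
  have f4 : l * I3 ≤ I3 * X := by rw [mul_comm]; exact mul_le_mul_of_nonneg_left x2 hI3'
  have f5 : (2 * kap k * (2 / k)) * A0 * S ≤ (2 * kap k * (2 / k)) * A0 * X :=
    mul_le_mul_of_nonneg_left x1 (by positivity)
  have f6 : 2 * kap k * A3 * S ≤ 2 * kap k * A3 * X := mul_le_mul_of_nonneg_left x1 (by positivity)
  have f7 : A0 * S ≤ A0 * X := mul_le_mul_of_nonneg_left x1 hA0
  have f8 : A1 * S ≤ A1 * X := mul_le_mul_of_nonneg_left x1 hA1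
  have f9 : 1 * (A0 * G) ≤ A0 * X := by
    rw [one_mul]
    exact mul_le_mul_of_nonneg_left x4 hA0
  have hE : (1 + (A2 + A1 + CD * A1) + (2 * kap k * I1) + I2 + I3 + (2 * kap k * (2 / k)) * A0 +
    2 * kap k * A3 + A0 + A1 + A0) * X = X + (A2 + A1 + CD * A1) * X + 2 * kap k * I1 * X + I2 * X +
    I3 * X + (2 * kap k * (2 / k)) * A0 * X + 2 * kap k * A3 * X + A0 * X + A1 * X + A0 * X := by
    ring
  rw [hE]
  linarith

theorem LN_st (k : ℕ) (hk : 5 ≤ k) : ∃ C : ℝ, 0 < C ∧ ∀ γ : ℝ, 0 < γ → γ ≤ 1 / 8 →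
    ∀ B ρ : ℝ, Slow B ρ → ∀ (p q : ℝ) (ε : ℝ → ℝ), Adm ρ p q ε →
    ln γ B ε ≤ C * Gn B ρ ε ∧ |ip ε (ph0 k)| ≤ C * √(ln γ B ε) ∧
    |ip ε (Qf k)| ≤ C * √(ln γ B ε) ∧ |ip ε (deriv (Qf k))| ≤ C * √(ln γ B ε) := by
  have hk1 : 1 ≤ k := by omega
  have cQ : Cl (3 / 4) (3 / 4) (Qf k) := Cl_mono (Cl_Qf hk1) (by norm_num) (by norm_num)
  obtain ⟨A0, hA0, P0⟩ := Bmt_pair (Bmt_ph k hk).1
  obtain ⟨A1, hA1, P1⟩ := Bmt_pair cQ
  obtain ⟨A2, hA2, P2⟩ := Bmt_pair (Cl_der cQ)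
  refine ⟨8 + A0 + A1 + A2, by positivity, ?_⟩
  intro γ hγ hγ' B ρ hS p q ε hε
  obtain ⟨hρp, -, hq, -, hεC⟩ := hε
  have hp : 0 < p := hS.2.1.trans hρp
  obtain ⟨wc, wp, w1, i1, i2, s1, s2⟩ := Bmt_loc hγ hγ' hS.1 hp hq hεC
  obtain ⟨vc, vp, v1, j1, j2, t1, t2⟩ := Bmt_om hS hρp hq hεC
  set S := √(ln γ B ε) with hSdef
  have hS0 : 0 ≤ S := Real.sqrt_nonneg _
  have hG0 : 0 ≤ Gn B ρ ε := integral_nonneg fun y => mul_nonneg (vp y).le (by positivity)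
  have q1 := (P0 _ _ wc wp w1 (Cl_cont hεC) i1 S s1).2
  have q2 := (P1 _ _ wc wp w1 (Cl_cont hεC) i1 S s1).2
  have q3 := (P2 _ _ wc wp w1 (Cl_cont hεC) i1 S s1).2
  have hln : ln γ B ε ≤ 8 * Gn B ρ ε := by
    unfold ln Gn
    rw [← integral_const_mul]
    refine integral_mono ?_ ?_ fun y => ?_
    · refine (i1.add i2).congr (Eventually.of_forall fun y => ?_)
      show loc γ B y * ε y ^ 2 + loc γ B y * deriv ε y ^ 2 = loc γ B y * (ε y ^ 2 + deriv ε y ^ 2)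
      ring
    · refine ((j1.add j2).const_mul 8).congr (Eventually.of_forall fun y => ?_)
      show 8 * (om B ρ y * ε y ^ 2 + om B ρ y * deriv ε y ^ 2) =
        8 * (om B ρ y * (ε y ^ 2 + deriv ε y ^ 2))
      ring
    · have h1 := (loc_le_ch γ B y).trans (ch_le_om hS y)
      calc loc γ B y * (ε y ^ 2 + deriv ε y ^ 2) ≤ 8 * om B ρ y * (ε y ^ 2 + deriv ε y ^ 2) :=
            mul_le_mul_of_nonneg_right h1 (by positivity)
        _ = _ := by ring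
  refine ⟨?_, ?_, ?_, ?_⟩
  · refine hln.trans (mul_le_mul_of_nonneg_right (by linarith) hG0)
  · exact q1.trans (mul_le_mul_of_nonneg_right (by linarith) hS0)
  · exact q2.trans (mul_le_mul_of_nonneg_right (by linarith) hS0)
  · exact q3.trans (mul_le_mul_of_nonneg_right (by linarith) hS0)

end H98KB

end S_H98_KB_Bmt

section S_H98_KB_Dxa

/-!
# Dxa : the gradient norm, identity

`(ε',ζ') = -∫ε''ζ`, `ζ = g'+N-e'`, `g'=-ε'''+ε'-D'`, `D' = (Q+ε)^k(Q'+ε')-Q^kQ'`: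
* `-∫ε''(-ε'''+ε') = 0`;
* `∫ε''D' = ∫ε''(Q+ε)^kε' + ∫ε''((Q+ε)^k-Q^k)Q' = -(k/2)∫(Q+ε)^{k-1}(Q'+ε')ε'² + ∫ε''((Q+ε)^k-Q^k)Q'`;
* `-∫ε''N = b∫ε''ΛQ - m∫ε''Q' - l∫ε''Q'' + b∫ε''Λε - 0 - l∫ε''²`, `∫ε''Λε = -(2/k)∫ε'²+∫yε'ε'' = -(2/k+1/2)∫ε'² = -(1-s_c)X`;
* `+∫ε''e'`.
-/

open MeasureTheory Filter Topology Set
open scoped ContDiff

namespace H98KB

theorem Dxa_add {F f : ℝ → ℝ} {A : ℝ} (hF : Integrable F ∧ ∫ y, F y = A) (hf : Integrable f)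
    (c : ℝ) : Integrable (fun y => F y + c * f y) ∧
      ∫ y, (F y + c * f y) = A + c * ∫ y, f y := by
  have h1 : Integrable (fun y => c * f y) := hf.const_mul c
  refine ⟨hF.1.add h1, ?_⟩
  rw [integral_add hF.1 h1, integral_const_mul, hF.2]

theorem Dxa_gf {k : ℕ} (hk : 1 ≤ k) {p q : ℝ} {ε : ℝ → ℝ} (hε : Cl p q ε) (y : ℝ) :
    HasDerivAt (gf k ε) (-deriv (deriv (deriv ε)) y + deriv ε y -
      ((Qf k y + ε y) ^ k * (deriv (Qf k) y + deriv ε y) - Qf k y ^ k * deriv (Qf k) y)) y := by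
  have h0 := Cl_hd hε y
  have h2 := Cl_hd (Cl_der (Cl_der hε)) y
  have hQ := Nlb_Qhd hk y
  have h3 := Nlb_fl_hd k (hQ.add h0)
  have h4 := Nlb_fl_hd k hQ
  exact (h2.neg.add h0).sub (h3.sub h4)

theorem Dxa_H {k : ℕ} (hk : 1 ≤ k) {p q : ℝ} {ε : ℝ → ℝ} (hε : Cl p q ε) (b m : ℝ) (y : ℝ) :
    HasDerivAt (fun y => 1 / 2 * (deriv (deriv ε) y * deriv (deriv ε) y)
      + (-1 / 2 - m / 2) * (deriv ε y * deriv ε y)
      + 1 / 2 * ((Qf k y + ε y) ^ k * (deriv ε y * deriv ε y))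
      + b * (2 / (k : ℝ)) * (ε y * deriv ε y)
      + b / 2 * (y * (deriv ε y * deriv ε y)))
      (deriv (deriv ε) y * deriv (deriv (deriv ε)) y
        + (-1 - m) * (deriv ε y * deriv (deriv ε) y)
        + ((k : ℝ) / 2 * ((Qf k y + ε y) ^ (k - 1) * (deriv (Qf k) y + deriv ε y) * (deriv ε y) ^ 2)
          + (Qf k y + ε y) ^ k * (deriv ε y * deriv (deriv ε) y))
        + b * (2 / (k : ℝ)) * ((deriv ε y) ^ 2 + ε y * deriv (deriv ε) y)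
        + b / 2 * ((deriv ε y) ^ 2 + 2 * (y * (deriv ε y * deriv (deriv ε) y)))) y := by
  have h0 := Cl_hd hε y
  have h1 := Cl_hd (Cl_der hε) y
  have h2 := Cl_hd (Cl_der (Cl_der hε)) y
  have hQ := Nlb_Qhd hk y
  have h3 := ((hQ.add h0).pow k).mul (h1.mul h1)
  have h4 := (h2.mul h2).const_mul (1 / 2 : ℝ)
  have h5 := (h1.mul h1).const_mul (-1 / 2 - m / 2 : ℝ)
  have h6 := h3.const_mul (1 / 2 : ℝ)
  have h7 := (h0.mul h1).const_mul (b * (2 / (k : ℝ)))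
  have h8 := ((hasDerivAt_id y).mul (h1.mul h1)).const_mul (b / 2)
  refine ((((h4.add h5).add h6).add h7).add h8).congr_deriv ?_
  simp only [Pi.add_apply, Pi.mul_apply, Pi.pow_apply, id]
  ring

theorem Dxa_Hcl {k : ℕ} (hk : 1 ≤ k) {p q : ℝ} {ε : ℝ → ℝ} (hp : 0 < p) (hq : 0 < q)
    (hε : Cl p q ε) (b m : ℝ) :
    Cl p q (fun y => 1 / 2 * (deriv (deriv ε) y * deriv (deriv ε) y)
      + (-1 / 2 - m / 2) * (deriv ε y * deriv ε y)
      + 1 / 2 * ((Qf k y + ε y) ^ k * (deriv ε y * deriv ε y))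
      + b * (2 / (k : ℝ)) * (ε y * deriv ε y)
      + b / 2 * (y * (deriv ε y * deriv ε y))) := by
  have h1 := Cl_der hε
  have h2 := Cl_der h1
  have h11 := Cl_mul h1 h1
  have h11' : Cl p q (fun y => deriv ε y * deriv ε y) :=
    Cl_mono h11 (by linarith) (by linarith)
  have h22 : Cl p q (fun y => deriv (deriv ε) y * deriv (deriv ε) y) :=
    Cl_mono (Cl_mul h2 h2) (by linarith) (by linarith)
  have h01 : Cl p q (fun y => ε y * deriv ε y) :=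
    Cl_mono (Cl_mul hε h1) (by linarith) (by linarith)
  have hQ := Cl_pow0 (Nla_Qe hk hp.le hq.le hε) k
  have h3 := Cl_mul0 hQ h11'
  have hc : 0 < min p q := lt_min hp hq
  have h4 : Cl p q (fun y => y * (deriv ε y * deriv ε y)) :=
    Cl_mono (Cl_mul (Cl_id hc) h11) (by linarith [min_le_left p q])
      (by linarith [min_le_right p q])
  exact Cl_add (Cl_add (Cl_add (Cl_add (Cl_smul _ h22) (Cl_smul _ h11')) (Cl_smul _ h3))
    (Cl_smul _ h01)) (Cl_smul _ h4)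

theorem DX_id (k : ℕ) (hk : 5 ≤ k) {p q : ℝ} {ε e : ℝ → ℝ} (hp : 0 < p) (hq : 0 < q) (hp1 : p ≤ 1)
    (hq1 : q ≤ 1) (hε : Cl p q ε) (he : Cl p q e) (b m l : ℝ) :
    ip (deriv ε) (deriv (zeta k b m l ε e)) = -b * (1 - sc k) * Xn ε
      - l * (∫ y, (deriv (deriv ε) y) ^ 2)
      - (k : ℝ) / 2 * (∫ y, (Qf k y + ε y) ^ (k - 1) * (deriv (Qf k) y + deriv ε y) * (deriv ε y) ^ 2)
      + (∫ y, deriv (deriv ε) y * (((Qf k y + ε y) ^ k - Qf k y ^ k) * deriv (Qf k) y))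
      + b * (∫ y, deriv (deriv ε) y * Lam k (Qf k) y) - m * (∫ y, deriv (deriv ε) y * deriv (Qf k) y)
      - l * (∫ y, deriv (deriv ε) y * deriv (deriv (Qf k)) y)
      + ∫ y, deriv (deriv ε) y * deriv e y := by
  have hk1 : 1 ≤ k := by omega
  have hk0 : (k : ℝ) ≠ 0 := by
    have : 0 < k := by omega
    positivity
  have z0 : Cl 0 0 ε := Cl_mono hε hp.le hq.le
  have h1 := Cl_der hε
  have h2 := Cl_der h1
  have h10 : Cl 0 0 (deriv ε) := Cl_mono h1 hp.le hq.le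
  have hQ0 := Nla_Q hk1
  have hQ1 : Cl 0 0 (deriv (Qf k)) := Cl_der hQ0
  have hQ2 : Cl 0 0 (deriv (deriv (Qf k))) := Cl_der hQ1
  have hQe := Nla_Qe hk1 hp.le hq.le hε
  have hL : Cl 0 0 (Lam k (Qf k)) := Cl_LamQ hk1 (by norm_num)
  have he1 : Cl 0 0 (deriv e) := Cl_mono (Cl_der he) hp.le hq.le
  have g1 : Cl p q (fun y => (deriv ε y) ^ 2) := Cl_pow' h1 hp.le hq.le 2 (by norm_num)
  have g2 : Cl p q (fun y => (deriv (deriv ε) y) ^ 2) := Cl_pow' h2 hp.le hq.le 2 (by norm_num)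
  have g3 : Cl p q (fun y => (Qf k y + ε y) ^ (k - 1) * (deriv (Qf k) y + deriv ε y) *
      (deriv ε y) ^ 2) := Cl_mul0 (Nla_mulr (Cl_pow0 hQe (k - 1)) (Cl_add hQ1 h10)) g1
  have g4 : Cl p q (fun y => deriv (deriv ε) y *
      (((Qf k y + ε y) ^ k - Qf k y ^ k) * deriv (Qf k) y)) :=
    Nla_mulr h2 (Nla_mulr (Cl_sub (Cl_pow0 hQe k) (Cl_pow0 hQ0 k)) hQ1)
  have g5 : Cl p q (fun y => deriv (deriv ε) y * Lam k (Qf k) y) := Nla_mulr h2 hL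
  have g6 : Cl p q (fun y => deriv (deriv ε) y * deriv (Qf k) y) := Nla_mulr h2 hQ1
  have g7 : Cl p q (fun y => deriv (deriv ε) y * deriv (deriv (Qf k)) y) := Nla_mulr h2 hQ2
  have g8 : Cl p q (fun y => deriv (deriv ε) y * deriv e y) := Nla_mulr h2 he1
  have s0 : Integrable (fun _ : ℝ => (0 : ℝ)) ∧ ∫ _ : ℝ, (0 : ℝ) = 0 :=
    ⟨integrable_zero _ _ _, integral_zero _ _⟩
  have S := Dxa_add (Dxa_add (Dxa_add (Dxa_add (Dxa_add (Dxa_add (Dxa_add (Dxa_add s0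
    (Cl_int g1 hp hq) (-b * (1 - sc k))) (Cl_int g2 hp hq) (-l))
    (Cl_int g3 hp hq) (-((k : ℝ) / 2))) (Cl_int g4 hp hq) 1) (Cl_int g5 hp hq) b)
    (Cl_int g6 hp hq) (-m)) (Cl_int g7 hp hq) (-l)) (Cl_int g8 hp hq) 1
  have hz : Cl (p / 2) (q / 2) (zeta k b m l ε e) :=
    Cl_zeta hk1 hp hq hp1 hq1 hε he b m l (by linarith) (by linarith)
  have hibp := Cl_ibp h1 hz (by linarith) (by linarith)
  have hzi : Integrable (fun y => -1 * (deriv (deriv ε) y * zeta k b m l ε e y)) :=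
    Cl_int (Cl_smul (-1) (Cl_mul h2 hz)) (by linarith) (by linarith)
  have hmain := Cl_int_eq hzi S.1 (Dxa_Hcl hk1 hp hq hε b m) hp hq (by
    intro y
    rw [(Dxa_H hk1 hε b m y).deriv]
    unfold zeta
    rw [(Dxa_gf hk1 hε y).deriv]
    unfold Nf sc
    simp only [Lam]
    field_simp
    ring)
  rw [S.2, integral_const_mul, hibp] at hmain
  unfold ip Xn
  linarith

end H98KB

end S_H98_KB_Dxa

section S_H98_KB_Dxb

/-!
# Dxb : the gradient norm, estimate (uses the statement `DX_id`)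

`Z := ∫ε''²`, `τ := Tn+ln`, `e^{-|y|/2} ≤ 4B om'` and `≤ loc`; constants may depend on `B`.
* `-(k/2)∫(Q+ε)^{k-1}Q'ε'²`: `≤ C∫Qε'² ≤ C ln`.
* `-(k/2)∫(Q+ε)^{k-1}ε'³`: `|Q+ε|^{k-1} ≤ 2^{k-2}(Q^{k-1}+|ε|^{k-1})`.
   - `∫Q^{k-1}|ε'|³ ≤ sup(Q^{1/2}|ε'|)·∫Q^{k-3/2}ε'²`; `sup(Qε'^2) ≤ ∫|(Qε'²)'| ≤ C∫Q(ε'²+ε''²) ≤ C Tn`; so
     `≤ C√Tn·ln ≤ C√Tn√ln ≤ Cτ` (`ln ≤ c ≤ 1`).
   - `∫|ε|^{k-1}|ε'|³ ≤ S^{k-1} sup|ε'| X`, `S = sup|ε|`, `sup|ε'|² ≤ 2√X√Z` (`sup_le`), so it is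
     `≤ √2 S^{k-1}X^{5/4}Z^{1/4} = √2 (S^{4(k-1)}X⁵ Z)^{1/4} ≤ √2 (l⁷Z)^{1/4} = √2 (l⁶·lZ)^{1/4}`
     `≤ small·lZ + C l²` (Young: `a^{3/4}b^{1/4} ≤ C_θ a + θ b`, `a=l²`, `b = lZ`).  Hypothesis: `|ε y|^{4(k-1)}X⁵ ≤ l⁷` for
     all `y`: it gives `(|ε|^{k-1}|ε'| ...)` pointwise: `|ε y|^{k-1} ≤ (l⁷/X⁵)^{1/4}` (if `X=0` then `ε=0`).
* `|(Q+ε)^k-Q^k| ≤ C|ε|`: `∫|ε''||ε|Q ≤ Cτ`.
* `(|b|+|m|+l)∫|ε''|(1+|y|)Q ≤ C(|b|+|m|+l)√Tn ≤ Cτ + C(b²+m²+l²)`, `b ≤ 2κl`, `m² ≤ C(ln+Gn e)` (`BM_st`).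
* `∫ε''e' ≤ (l/4)Z+(1/l)Xn e`.
-/

open MeasureTheory Filter Topology Set
open scoped ContDiff

namespace H98KB

theorem Dxb_A {k : ℕ} (hk : 1 ≤ k) : ∃ A : ℝ, 1 ≤ A ∧
    (∀ y, Qf k y ≤ A * Real.exp (-(|y| / 2))) ∧
    (∀ y, |deriv (Qf k) y| ≤ A * Real.exp (-(|y| / 2))) ∧ (∀ y, Qf k y ≤ A) := by
  obtain ⟨C, hC, h⟩ := Qf_hi (k := k) hk
  have h1 : ∀ y : ℝ, Real.exp (-|y|) ≤ Real.exp (-(|y| / 2)) := fun y => by
    apply Real.exp_le_exp.2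
    have := abs_nonneg y
    linarith
  have h2 : ∀ y : ℝ, Real.exp (-(|y| / 2)) ≤ 1 := fun y => by
    rw [Real.exp_le_one_iff]
    have := abs_nonneg y
    linarith
  have h3 : ∀ y, Qf k y ≤ (C + 1) * Real.exp (-(|y| / 2)) := fun y => by
    have e1 := h y
    have e2 := mul_le_mul_of_nonneg_left (h1 y) hC.le
    have e3 := Real.exp_pos (-(|y| / 2))
    linarith
  refine ⟨C + 1, by linarith, h3, fun y => ?_, fun y => ?_⟩
  · have e0 : deriv (Qf k) y = -(th k y) * Qf k y := by rw [Qf_deriv hk]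
    have e1 := th_abs_lt k y
    have e2 := Qf_pos k y
    rw [e0, abs_mul, abs_neg, abs_of_pos e2]
    have e3 : |th k y| * Qf k y ≤ 1 * Qf k y := mul_le_mul_of_nonneg_right e1.le e2.le
    have e4 := h3 y
    linarith
  · have e1 := h3 y
    have e2 := mul_le_mul_of_nonneg_left (h2 y) (by linarith : (0 : ℝ) ≤ C + 1)
    linarith

theorem Dxb_young {t a w : ℝ} (ha : 0 ≤ a) (hw : 0 ≤ w) (h : t ^ 4 ≤ 256 * a * w ^ 3) :
    t ≤ a + 3 * w := by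
  have h1 : 256 * a * w ^ 3 ≤ (a + 3 * w) ^ 4 := by
    have h2 : (a + 3 * w) ^ 4 - 256 * a * w ^ 3 =
        (a - w) ^ 2 * (a ^ 2 + 14 * a * w + 81 * w ^ 2) := by ring
    have h3 : 0 ≤ (a - w) ^ 2 * (a ^ 2 + 14 * a * w + 81 * w ^ 2) := by positivity
    linarith
  have h4 : t ^ 4 ≤ (a + 3 * w) ^ 4 := h.trans h1
  by_contra hcon
  push Not at hcon
  have h5 : 0 ≤ a + 3 * w := by positivity
  have h6 := pow_lt_pow_left₀ hcon h5 (by norm_num : (4 : ℕ) ≠ 0)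
  linarith

theorem Dxb_pt {A w u d h h1 MX T4 : ℝ} {j : ℕ} (hA : 1 ≤ A) (hu0 : 0 ≤ u) (huA : u ≤ A)
    (huw : u ≤ A * w) (hw : 0 < w) (hd : |d| ≤ A * w) (hh : |h| ≤ 1) (hT : u * h1 ^ 2 ≤ T4)
    (hT0 : 0 ≤ T4) (hM : |h| ^ (j + 2) * |h1| * h1 ^ 2 ≤ MX * h1 ^ 2) :
    |(u + h) ^ (j + 2) * (d + h1) * h1 ^ 2| ≤
      ((A + 1) ^ (j + 2) * A + 2 ^ (j + 1) * A ^ (j + 1) * ((1 + A * T4) / 2)) * (w * h1 ^ 2) +
        2 ^ (j + 1) * (MX * h1 ^ 2) := by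
  have hA0 : 0 ≤ A := by linarith
  have q0 : 0 ≤ h1 ^ 2 := sq_nonneg h1
  have s1 : |u + h| ^ (j + 2) ≤ (A + 1) ^ (j + 2) := by
    refine pow_le_pow_left₀ (abs_nonneg _) ?_ _
    refine (abs_add_le _ _).trans ?_
    rw [abs_of_nonneg hu0]
    linarith
  have s2 : |u + h| ^ (j + 2) ≤ 2 ^ (j + 1) * (u ^ (j + 2) + |h| ^ (j + 2)) := by
    have e1 : |u + h| ^ (j + 2) ≤ (u + |h|) ^ (j + 2) := by
      refine pow_le_pow_left₀ (abs_nonneg _) ?_ _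
      refine (abs_add_le _ _).trans ?_
      rw [abs_of_nonneg hu0]
    exact e1.trans (add_pow_le hu0 (abs_nonneg h) (j + 2))
  have s3 : u ^ (j + 2) * |h1| ≤ A ^ (j + 1) * w * ((1 + A * T4) / 2) := by
    have e1 : u ^ (j + 1) ≤ A ^ (j + 1) * w := by
      have e2 : u ^ j ≤ A ^ j := pow_le_pow_left₀ hu0 huA j
      calc u ^ (j + 1) = u ^ j * u := pow_succ u j
        _ ≤ A ^ j * (A * w) := mul_le_mul e2 huw hu0 (by positivity)
        _ = A ^ (j + 1) * w := by ring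
    have e3 : u * |h1| ≤ (1 + A * T4) / 2 := by
      have e4 : (u * |h1|) ^ 2 ≤ A * T4 := by
        rw [mul_pow, sq_abs]
        calc u ^ 2 * h1 ^ 2 = u * (u * h1 ^ 2) := by ring
          _ ≤ A * T4 := mul_le_mul huA hT (by positivity) hA0
      (first | linarith only [sq_nonneg (u * |h1| - 1), e4] | nlinarith only [sq_nonneg (u * |h1| - 1), e4])
    calc u ^ (j + 2) * |h1| = u ^ (j + 1) * (u * |h1|) := by ring
      _ ≤ (A ^ (j + 1) * w) * ((1 + A * T4) / 2) :=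
        mul_le_mul e1 e3 (by positivity) (by positivity)
  have s4 : |(u + h) ^ (j + 2) * (d + h1) * h1 ^ 2| ≤
      |u + h| ^ (j + 2) * |d| * h1 ^ 2 + |u + h| ^ (j + 2) * |h1| * h1 ^ 2 := by
    rw [abs_mul, abs_mul, abs_pow, abs_of_nonneg q0]
    have e1 : |d + h1| ≤ |d| + |h1| := abs_add_le _ _
    have e2 : |u + h| ^ (j + 2) * |d + h1| ≤ |u + h| ^ (j + 2) * (|d| + |h1|) :=
      mul_le_mul_of_nonneg_left e1 (by positivity)
    have e3 := mul_le_mul_of_nonneg_right e2 q0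
    linarith
  have s5 : |u + h| ^ (j + 2) * |d| * h1 ^ 2 ≤ (A + 1) ^ (j + 2) * (A * w) * h1 ^ 2 :=
    mul_le_mul_of_nonneg_right (mul_le_mul s1 hd (abs_nonneg _) (by positivity)) q0
  have s6 : |u + h| ^ (j + 2) * |h1| * h1 ^ 2 ≤
      2 ^ (j + 1) * (u ^ (j + 2) + |h| ^ (j + 2)) * |h1| * h1 ^ 2 :=
    mul_le_mul_of_nonneg_right (mul_le_mul_of_nonneg_right s2 (abs_nonneg _)) q0
  have s7 : 2 ^ (j + 1) * (u ^ (j + 2) + |h| ^ (j + 2)) * |h1| * h1 ^ 2 =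
      2 ^ (j + 1) * (u ^ (j + 2) * |h1| * h1 ^ 2) + 2 ^ (j + 1) * (|h| ^ (j + 2) * |h1| * h1 ^ 2) := by
    ring
  have s8 : (2 : ℝ) ^ (j + 1) * (u ^ (j + 2) * |h1| * h1 ^ 2) ≤
      2 ^ (j + 1) * (A ^ (j + 1) * w * ((1 + A * T4) / 2) * h1 ^ 2) :=
    mul_le_mul_of_nonneg_left (mul_le_mul_of_nonneg_right s3 q0) (by positivity)
  have s9 : (2 : ℝ) ^ (j + 1) * (|h| ^ (j + 2) * |h1| * h1 ^ 2) ≤ 2 ^ (j + 1) * (MX * h1 ^ 2) :=
    mul_le_mul_of_nonneg_left hM (by positivity)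
  calc _ ≤ _ := s4
    _ ≤ (A + 1) ^ (j + 2) * (A * w) * h1 ^ 2 +
        (2 ^ (j + 1) * (A ^ (j + 1) * w * ((1 + A * T4) / 2) * h1 ^ 2) +
          2 ^ (j + 1) * (MX * h1 ^ 2)) := by linarith
    _ = _ := by ring

section
variable {k : ℕ} {B ρ p q γ : ℝ} {ε : ℝ → ℝ}

theorem Dxb_p (hs : Slow B ρ) (hε : Adm ρ p q ε) : 0 < p := by
  have h1 := hs.2.1
  have h2 := hε.1
  linarith

theorem Dxb_i1 (hs : Slow B ρ) (hε : Adm ρ p q ε) {f g : ℝ → ℝ} (hf : Cl p q f)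
    (hg : Cl p q g) : Integrable (fun y => deriv (om B ρ) y * (f y * g y)) := by
  have hB : 0 < B := by linarith [hs.1]
  have h1 := hs.2.1
  have h2 := hε.1
  have h3 := hε.2.2.1
  refine Cl_int (Cl_mul (Cl_der (Cl_om hB ρ)) (Cl_mul hf hg)) ?_ ?_
  · linarith
  · have : 0 < 1 / B := by positivity
    linarith

theorem Dxb_i2 (hs : Slow B ρ) (hε : Adm ρ p q ε) (hγ : 0 < γ) {f g : ℝ → ℝ} (hf : Cl p q f)
    (hg : Cl p q g) : Integrable (fun y => loc γ B y * (f y * g y)) := by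
  have hB : 0 < B := by linarith [hs.1]
  have h1 := Dxb_p hs hε
  have h3 := hε.2.2.1
  have hl : Cl (2 * γ + 2 / B) (2 * γ + 2 / B) (loc γ B) := Cl_mul (Cl_se2 hγ) (Cl_ch hB)
  have h4 : 0 < 2 / B := by positivity
  refine Cl_int (Cl_mul hl (Cl_mul hf hg)) ?_ ?_
  · linarith
  · linarith

theorem Dxb_i3 (hs : Slow B ρ) (hε : Adm ρ p q ε) {f g : ℝ → ℝ} (hf : Cl p q f)
    (hg : Cl p q g) : Integrable (fun y => f y * g y) := by
  have h1 := Dxb_p hs hε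
  have h3 := hε.2.2.1
  exact Cl_int (Cl_mul hf hg) (by linarith) (by linarith)

theorem Dxb_iT (hs : Slow B ρ) (hε : Adm ρ p q ε) : Integrable (fun y =>
    deriv (om B ρ) y * ((ε y) ^ 2 + (deriv ε y) ^ 2 + (deriv (deriv ε) y) ^ 2)) := by
  have c0 := hε.2.2.2.2
  have c1 := Cl_der c0
  have c2 := Cl_der c1
  refine (((Dxb_i1 hs hε c0 c0).add (Dxb_i1 hs hε c1 c1)).add (Dxb_i1 hs hε c2 c2)).congr
    (Eventually.of_forall fun y => ?_)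
  simp only [Pi.add_apply]
  ring

theorem Dxb_iL (hs : Slow B ρ) (hε : Adm ρ p q ε) (hγ : 0 < γ) : Integrable (fun y =>
    loc γ B y * ((ε y) ^ 2 + (deriv ε y) ^ 2)) := by
  have c0 := hε.2.2.2.2
  have c1 := Cl_der c0
  refine ((Dxb_i2 hs hε hγ c0 c0).add (Dxb_i2 hs hε hγ c1 c1)).congr
    (Eventually.of_forall fun y => ?_)
  simp only [Pi.add_apply]
  ring

theorem Dxb_iS (hs : Slow B ρ) (hε : Adm ρ p q ε) {f : ℝ → ℝ} (hf : Cl p q f) :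
    Integrable (fun y => (f y) ^ 2) := by
  refine (Dxb_i3 hs hε hf hf).congr (Eventually.of_forall fun y => ?_)
  simp only [pow_two]

theorem Dxb_cmp (hs : Slow B ρ) (hε : Adm ρ p q ε) (hγ : 0 < γ) {F : ℝ → ℝ} (hF : Integrable F)
    (a1 a2 a3 a4 : ℝ) (h : ∀ y, F y ≤
      a1 * (deriv (om B ρ) y * ((ε y) ^ 2 + (deriv ε y) ^ 2 + (deriv (deriv ε) y) ^ 2)) +
      a2 * (loc γ B y * ((ε y) ^ 2 + (deriv ε y) ^ 2)) + a3 * (deriv ε y) ^ 2 + a4 * bd 1 1 y) :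
    ∫ y, F y ≤ a1 * Tn B ρ ε + a2 * ln γ B ε + a3 * Xn ε + a4 * ∫ y, bd 1 1 y := by
  have j1 := (Dxb_iT hs hε).const_mul a1
  have j2 := (Dxb_iL hs hε hγ).const_mul a2
  have j3 := (Dxb_iS hs hε (Cl_der hε.2.2.2.2)).const_mul a3
  have j4 : Integrable (fun y => a4 * bd 1 1 y) := (bd_int one_pos one_pos).const_mul a4
  have h1 := integral_mono hF (((j1.add j2).add j3).add j4) h
  refine h1.trans (le_of_eq ?_)
  have e1 : ∫ y, (a1 * (deriv (om B ρ) y *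
        ((ε y) ^ 2 + (deriv ε y) ^ 2 + (deriv (deriv ε) y) ^ 2)) +
      a2 * (loc γ B y * ((ε y) ^ 2 + (deriv ε y) ^ 2)) + a3 * (deriv ε y) ^ 2 + a4 * bd 1 1 y) =
      a1 * Tn B ρ ε + a2 * ln γ B ε + a3 * Xn ε + a4 * ∫ y, bd 1 1 y := by
    have k12 : Integrable (fun y => a1 * (deriv (om B ρ) y *
        ((ε y) ^ 2 + (deriv ε y) ^ 2 + (deriv (deriv ε) y) ^ 2)) +
      a2 * (loc γ B y * ((ε y) ^ 2 + (deriv ε y) ^ 2))) := j1.add j2
    have k123 : Integrable (fun y => a1 * (deriv (om B ρ) y *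
        ((ε y) ^ 2 + (deriv ε y) ^ 2 + (deriv (deriv ε) y) ^ 2)) +
      a2 * (loc γ B y * ((ε y) ^ 2 + (deriv ε y) ^ 2)) + a3 * (deriv ε y) ^ 2) := k12.add j3
    rw [integral_add k123 j4, integral_add k12 j3, integral_add j1 j2, integral_const_mul,
      integral_const_mul, integral_const_mul, integral_const_mul]
    rfl
  exact e1

theorem Dxb_sup (hk : 1 ≤ k) (hs : Slow B ρ) (hε : Adm ρ p q ε) {A : ℝ} (hA : 1 ≤ A)
    (hQ : ∀ y, Qf k y ≤ A * Real.exp (-(|y| / 2)))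
    (hQ' : ∀ y, |deriv (Qf k) y| ≤ A * Real.exp (-(|y| / 2))) (y : ℝ) :
    Qf k y * (deriv ε y) ^ 2 ≤ 8 * A * B * Tn B ρ ε := by
  have hp := Dxb_p hs hε
  have hq := hε.2.2.1
  have hB : 0 < B := by linarith [hs.1]
  have c1 := Cl_der hε.2.2.2.2
  have cf : Cl (1 + p) (1 + q) (fun z => Qf k z * (deriv ε z) ^ 2) :=
    Cl_mul (Cl_Qf hk) (Cl_pow' c1 hp.le hq.le 2 (by norm_num))
  have cf' := Cl_der cf
  have hi' := Cl_int cf' (by linarith) (by linarith)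
  have hT := (Dxb_iT hs hε).const_mul (8 * A * B)
  have h1 := integral_Iic_of_hasDerivAt_of_tendsto' (a := y) (fun x _ => Cl_hd cf x)
    hi'.integrableOn (Cl_tendsto_bot cf (by linarith))
  simp only [sub_zero] at h1
  rw [← h1]
  have hpt : ∀ z, deriv (fun z => Qf k z * (deriv ε z) ^ 2) z ≤ 8 * A * B *
      (deriv (om B ρ) z * ((ε z) ^ 2 + (deriv ε z) ^ 2 + (deriv (deriv ε) z) ^ 2)) := by
    intro z
    have d1 := (Cl_hd (Cl_Qf hk) z).mul ((Cl_hd c1 z).pow 2)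
    have d2 : deriv (fun z => Qf k z * (deriv ε z) ^ 2) z =
        deriv (Qf k) z * (deriv ε z) ^ 2 + Qf k z * (2 * deriv ε z * deriv (deriv ε) z) := by
      have := d1.deriv
      refine Eq.trans ?_ (this.trans ?_)
      · rfl
      · simp only [Pi.pow_apply]
        push_cast
        ring
    rw [d2]
    have w1 := ex_le_om1 hs z
    have w0 := Real.exp_pos (-(|z| / 2))
    have e1 : deriv (Qf k) z * (deriv ε z) ^ 2 ≤ A * Real.exp (-(|z| / 2)) * (deriv ε z) ^ 2 :=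
      mul_le_mul_of_nonneg_right ((le_abs_self _).trans (hQ' z)) (sq_nonneg _)
    have e2 : Qf k z * (2 * deriv ε z * deriv (deriv ε) z) ≤
        A * Real.exp (-(|z| / 2)) * ((deriv ε z) ^ 2 + (deriv (deriv ε) z) ^ 2) := by
      have e3 : Qf k z * (2 * deriv ε z * deriv (deriv ε) z) ≤
          Qf k z * ((deriv ε z) ^ 2 + (deriv (deriv ε) z) ^ 2) :=
        mul_le_mul_of_nonneg_left (by (first | linarith only [sq_nonneg (deriv ε z - deriv (deriv ε) z)] | nlinarith only [sq_nonneg (deriv ε z - deriv (deriv ε) z)]))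
          (Qf_pos k z).le
      exact e3.trans (mul_le_mul_of_nonneg_right (hQ z) (by positivity))
    have e4 : A * Real.exp (-(|z| / 2)) ≤ 4 * A * B * deriv (om B ρ) z := by
      have := mul_le_mul_of_nonneg_left w1 (by linarith : (0 : ℝ) ≤ A)
      linarith
    have o1 := om1_pos hs z
    have e5 : A * Real.exp (-(|z| / 2)) * (deriv ε z) ^ 2 ≤
        4 * A * B * deriv (om B ρ) z * (deriv ε z) ^ 2 :=
      mul_le_mul_of_nonneg_right e4 (sq_nonneg _)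
    have e6 : A * Real.exp (-(|z| / 2)) * ((deriv ε z) ^ 2 + (deriv (deriv ε) z) ^ 2) ≤
        4 * A * B * deriv (om B ρ) z * ((deriv ε z) ^ 2 + (deriv (deriv ε) z) ^ 2) :=
      mul_le_mul_of_nonneg_right e4 (by positivity)
    have e7 : 0 ≤ 4 * A * B * deriv (om B ρ) z * (2 * (ε z) ^ 2 + (deriv (deriv ε) z) ^ 2) := by
      positivity
    linarith
  have h2 : ∫ z in Iic y, deriv (fun z => Qf k z * (deriv ε z) ^ 2) z ≤ ∫ z in Iic y,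
      8 * A * B * (deriv (om B ρ) z * ((ε z) ^ 2 + (deriv ε z) ^ 2 + (deriv (deriv ε) z) ^ 2)) :=
    integral_mono hi'.integrableOn hT.integrableOn hpt
  have h3 : ∫ z in Iic y, 8 * A * B * (deriv (om B ρ) z *
      ((ε z) ^ 2 + (deriv ε z) ^ 2 + (deriv (deriv ε) z) ^ 2)) ≤ ∫ z, 8 * A * B *
      (deriv (om B ρ) z * ((ε z) ^ 2 + (deriv ε z) ^ 2 + (deriv (deriv ε) z) ^ 2)) := by
    refine setIntegral_le_integral hT (Eventually.of_forall fun z => ?_)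
    have o1 := om1_pos hs z
    positivity
  refine (h2.trans h3).trans (le_of_eq ?_)
  rw [integral_const_mul]
  rfl

theorem Dxb_M (hs : Slow B ρ) (hε : Adm ρ p q ε) {l : ℝ} (hl : 0 < l)
    (hX : ∀ y, |ε y| ^ (4 * (k - 1)) * (Xn ε) ^ 5 ≤ l ^ 7) {D : ℝ} (hD : 1 ≤ D) (y : ℝ) :
    |ε y| ^ (k - 1) * |deriv ε y| * Xn ε ≤
      1 / D * (l * ∫ z, (deriv (deriv ε) z) ^ 2) + 3 * (D * l ^ 2) := by
  have hp := Dxb_p hs hε
  have hq := hε.2.2.1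
  have c1 := Cl_der hε.2.2.2.2
  have hX0 : 0 ≤ Xn ε := integral_nonneg fun z => sq_nonneg _
  have hZ0 : 0 ≤ ∫ z, (deriv (deriv ε) z) ^ 2 := integral_nonneg fun z => sq_nonneg _
  have h1 : deriv ε y ^ 2 ≤ 2 * √(Xn ε) * √(∫ z, (deriv (deriv ε) z) ^ 2) :=
    sup_le c1 hp hq y
  set X := Xn ε with hXd
  set Z := ∫ z, (deriv (deriv ε) z) ^ 2 with hZd
  have h2 : (deriv ε y ^ 2) ^ 2 ≤ 4 * X * Z := by
    calc (deriv ε y ^ 2) ^ 2 ≤ (2 * √X * √Z) ^ 2 := pow_le_pow_left₀ (sq_nonneg _) h1 2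
      _ = 4 * (√X ^ 2) * (√Z ^ 2) := by ring
      _ = 4 * X * Z := by rw [Real.sq_sqrt hX0, Real.sq_sqrt hZ0]
  have hD0 : 0 < D := by linarith
  refine Dxb_young (by positivity) (by positivity) ?_
  have h3 : (|ε y| ^ (k - 1) * |deriv ε y| * X) ^ 4 =
      |ε y| ^ (4 * (k - 1)) * (deriv ε y ^ 2) ^ 2 * X ^ 4 := by
    rw [mul_pow, mul_pow, ← pow_mul, mul_comm (k - 1) 4, ← sq_abs (deriv ε y)]
    ring
  have h4 : |ε y| ^ (4 * (k - 1)) * (deriv ε y ^ 2) ^ 2 * X ^ 4 ≤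
      |ε y| ^ (4 * (k - 1)) * (4 * X * Z) * X ^ 4 :=
    mul_le_mul_of_nonneg_right (mul_le_mul_of_nonneg_left h2 (by positivity)) (by positivity)
  have h5 : |ε y| ^ (4 * (k - 1)) * (4 * X * Z) * X ^ 4 =
      4 * Z * (|ε y| ^ (4 * (k - 1)) * X ^ 5) := by ring
  have h6 : 4 * Z * (|ε y| ^ (4 * (k - 1)) * X ^ 5) ≤ 4 * Z * l ^ 7 :=
    mul_le_mul_of_nonneg_left (hX y) (by positivity)
  have h7 : 256 * (1 / D * (l * Z)) * (D * l ^ 2) ^ 3 = 256 * D ^ 2 * (Z * l ^ 7) := by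
    field_simp
  rw [h3, h7]
  have h8 : 1 ≤ D ^ 2 := one_le_pow₀ hD
  have h9 : 0 ≤ Z * l ^ 7 := by positivity
  have h10 : 4 * (Z * l ^ 7) ≤ 256 * D ^ 2 * (Z * l ^ 7) :=
    mul_le_mul_of_nonneg_right (by linarith) h9
  linarith

end

/-- linear terms -/
theorem Dxb_lin {k : ℕ} {B ρ p q γ : ℝ} {ε φ : ℝ → ℝ} (hs : Slow B ρ) (hε : Adm ρ p q ε)
    (hγ : 0 < γ) (hφ : Cl (3 / 4) (3 / 4) φ) {K : ℝ} (hK : 0 ≤ K)
    (hb : ∀ y, |φ y| ≤ K * bd (3 / 4) (3 / 4) y) (x : ℝ) :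
    x * (∫ y, deriv (deriv ε) y * φ y) ≤
      Tn B ρ ε + (B * K ^ 2 * ∫ y, bd 1 1 y) * x ^ 2 := by
  have hp := Dxb_p hs hε
  have hq := hε.2.2.1
  have hB : 0 < B := by linarith [hs.1]
  have c2 := Cl_der (Cl_der hε.2.2.2.2)
  have hF : Integrable (fun y => deriv (deriv ε) y * φ y) :=
    Cl_int (Cl_mul c2 hφ) (by linarith) (by linarith)
  have h := Dxb_cmp hs hε hγ (hF.const_mul x) 1 0 0 (B * K ^ 2 * x ^ 2) (fun y => ?_)
  · rw [integral_const_mul] at h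
    linarith
  · have o1 := om1_pos hs y
    have w1 := ex_le_om1 hs y
    have e1 : bd (3 / 4) (3 / 4) y = Real.exp (-(3 / 4 * |y|)) := bd_abs _ _
    have e2 : bd 1 1 y = Real.exp (-(1 * |y|)) := bd_abs _ _
    have hE0 := Real.exp_pos (-(|y| / 4))
    have f1 : Real.exp (-(|y| / 4)) ^ 2 = Real.exp (-(|y| / 2)) := by
      rw [← Real.exp_nat_mul]
      congr 1
      push_cast
      ring
    have f2 : bd (3 / 4) (3 / 4) y = Real.exp (-(|y| / 4)) * Real.exp (-(|y| / 2)) := by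
      rw [e1, ← Real.exp_add]
      congr 1
      ring
    have f3 : Real.exp (-(|y| / 2)) ^ 2 = bd 1 1 y := by
      rw [e2, ← Real.exp_nat_mul]
      congr 1
      push_cast
      ring
    have g1 : x * (deriv (deriv ε) y * φ y) ≤
        (Real.exp (-(|y| / 4)) * |deriv (deriv ε) y|) * (|x| * K * Real.exp (-(|y| / 2))) := by
      have a1 : x * (deriv (deriv ε) y * φ y) ≤ |x| * (|deriv (deriv ε) y| * |φ y|) := by
        rw [← abs_mul, ← abs_mul]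
        exact le_abs_self _
      have a2 : |x| * (|deriv (deriv ε) y| * |φ y|) ≤
          |x| * (|deriv (deriv ε) y| * (K * bd (3 / 4) (3 / 4) y)) :=
        mul_le_mul_of_nonneg_left (mul_le_mul_of_nonneg_left (hb y) (abs_nonneg _)) (abs_nonneg _)
      rw [f2] at a2
      linarith
    have g2 : (Real.exp (-(|y| / 4)) * |deriv (deriv ε) y|) *
        (|x| * K * Real.exp (-(|y| / 2))) ≤
        (Real.exp (-(|y| / 4)) * |deriv (deriv ε) y|) ^ 2 / (4 * B) +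
          B * (|x| * K * Real.exp (-(|y| / 2))) ^ 2 := by
      have a1 : 0 ≤ ((Real.exp (-(|y| / 4)) * |deriv (deriv ε) y|) -
          2 * B * (|x| * K * Real.exp (-(|y| / 2)))) ^ 2 := sq_nonneg _
      rw [div_add' _ _ _ (by positivity), le_div_iff₀ (by positivity)]
      linarith
    have g3 : (Real.exp (-(|y| / 4)) * |deriv (deriv ε) y|) ^ 2 / (4 * B) ≤
        deriv (om B ρ) y * (deriv (deriv ε) y) ^ 2 := by
      rw [mul_pow, f1, sq_abs, div_le_iff₀ (by positivity)]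
      have := mul_le_mul_of_nonneg_right w1 (sq_nonneg (deriv (deriv ε) y))
      linarith
    have g4 : B * (|x| * K * Real.exp (-(|y| / 2))) ^ 2 = B * K ^ 2 * x ^ 2 * bd 1 1 y := by
      rw [mul_pow, mul_pow, sq_abs, f3]
      ring
    have g5 : 0 ≤ deriv (om B ρ) y * ((ε y) ^ 2 + (deriv ε y) ^ 2) := by positivity
    rw [g4] at g2
    linarith

/-- the first cubic term -/
theorem Dxb_I1 {k : ℕ} (hk : 5 ≤ k) {B ρ p q γ : ℝ} {ε : ℝ → ℝ} (hs : Slow B ρ)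
    (hε : Adm ρ p q ε) (hγ : 0 < γ) (hγ' : γ ≤ 1 / 8) {A : ℝ} (hA : 1 ≤ A)
    (hQ : ∀ y, Qf k y ≤ A * Real.exp (-(|y| / 2)))
    (hQ' : ∀ y, |deriv (Qf k) y| ≤ A * Real.exp (-(|y| / 2))) (hQA : ∀ y, Qf k y ≤ A)
    (hε1 : ∀ y, |ε y| ≤ 1) (hL : ln γ B ε ≤ 1) {l : ℝ} (hl : 0 < l)
    (hX : ∀ y, |ε y| ^ (4 * (k - 1)) * (Xn ε) ^ 5 ≤ l ^ 7) {D : ℝ} (hD : 1 ≤ D) :
    -(∫ y, (Qf k y + ε y) ^ (k - 1) * (deriv (Qf k) y + deriv ε y) * (deriv ε y) ^ 2) ≤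
      ((A + 1) ^ (k - 1) * A + 2 ^ (k - 2) * A ^ (k - 2)) * ln γ B ε +
      (2 ^ (k - 2) * A ^ (k - 2) * (8 * A ^ 2 * B)) * Tn B ρ ε +
      2 ^ (k - 2) * (1 / D * (l * ∫ z, (deriv (deriv ε) z) ^ 2) + 3 * (D * l ^ 2)) := by
  obtain ⟨j, hj⟩ : ∃ j, k - 1 = j + 2 := ⟨k - 3, by omega⟩
  have hj2 : k - 2 = j + 1 := by omega
  have hk1 : 1 ≤ k := by omega
  have hp := Dxb_p hs hε
  have hq := hε.2.2.1
  have hB : 0 < B := by linarith [hs.1]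
  have c0 := hε.2.2.2.2
  have c1 := Cl_der c0
  have hL0 : 0 ≤ ln γ B ε := integral_nonneg fun z => mul_nonneg (loc_pos γ B z).le
    (by positivity)
  have hT0 : 0 ≤ Tn B ρ ε := integral_nonneg fun z => mul_nonneg (om1_pos hs z).le
    (by positivity)
  have hZ0 : 0 ≤ ∫ z, (deriv (deriv ε) z) ^ 2 := integral_nonneg fun z => sq_nonneg _
  have hX0 : 0 ≤ Xn ε := integral_nonneg fun z => sq_nonneg _
  have hD0 : 0 < D := by linarith
  set M := 1 / D * (l * ∫ z, (deriv (deriv ε) z) ^ 2) + 3 * (D * l ^ 2) with hM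
  have hM0 : 0 ≤ M := by positivity
  have hMy : ∀ y, |ε y| ^ (j + 2) * |deriv ε y| * Xn ε ≤ M := by
    intro y
    have h := Dxb_M (k := k) hs hε hl hX hD y
    rwa [hj] at h
  set T4 := 8 * A * B * Tn B ρ ε with hT4
  have hT40 : 0 ≤ T4 := by positivity
  have hsup : ∀ y, Qf k y * (deriv ε y) ^ 2 ≤ T4 := fun y => Dxb_sup hk1 hs hε hA hQ hQ' y
  have hMX : ∀ y, |ε y| ^ (j + 2) * |deriv ε y| * (deriv ε y) ^ 2 ≤
      (M / Xn ε) * (deriv ε y) ^ 2 := by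
    intro y
    rcases hX0.lt_or_eq with hpos | hzero
    · refine mul_le_mul_of_nonneg_right ?_ (sq_nonneg _)
      rw [le_div_iff₀ hpos]
      exact hMy y
    · have h1 : (fun z => (deriv ε z) ^ 2) = 0 := by
        have h2 : ∫ z, (deriv ε z) ^ 2 = 0 := hzero.symm
        have h3 := (integral_eq_zero_iff_of_nonneg (fun z => sq_nonneg (deriv ε z))
          (Dxb_iS hs hε c1)).1 h2
        exact Continuous.ae_eq_iff_eq volume ((Cl_cont c1).pow 2) continuous_zero |>.1 h3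
      have h4 : (deriv ε y) ^ 2 = 0 := congrFun h1 y
      rw [h4]
      simp
  -- integrability
  have iF : Integrable (fun y => (Qf k y + ε y) ^ (k - 1) * (deriv (Qf k) y + deriv ε y) *
      (deriv ε y) ^ 2) := by
    have a0 : Cl 0 0 (fun y => Qf k y + ε y) :=
      Cl_add (Cl_mono (Cl_Qf hk1) zero_le_one zero_le_one) (Cl_mono c0 hp.le hq.le)
    have a1 : Cl 0 0 (fun y => deriv (Qf k) y + deriv ε y) :=
      Cl_add (Cl_mono (Cl_der (Cl_Qf hk1)) zero_le_one zero_le_one) (Cl_mono c1 hp.le hq.le)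
    have a2 : Cl 0 0 (fun y => (Qf k y + ε y) ^ (k - 1) * (deriv (Qf k) y + deriv ε y)) :=
      Cl_mul0 (Cl_pow0 a0 (k - 1)) a1
    exact Cl_int (Cl_mul0 a2 (Cl_pow' c1 hp.le hq.le 2 (by norm_num))) hp hq
  have h := Dxb_cmp hs hε hγ iF.neg 0
    ((A + 1) ^ (j + 2) * A + 2 ^ (j + 1) * A ^ (j + 1) * ((1 + A * T4) / 2))
    (2 ^ (j + 1) * (M / Xn ε)) 0 (fun y => ?_)
  · simp only [Pi.neg_apply] at h
    rw [integral_neg] at h
    have e1 : (M / Xn ε) * Xn ε ≤ M := by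
      rcases hX0.lt_or_eq with hpos | hzero
      · rw [div_mul_cancel₀ _ hpos.ne']
      · rw [← hzero]
        simpa using hM0
    have e2 : (2 : ℝ) ^ (j + 1) * ((M / Xn ε) * Xn ε) ≤ 2 ^ (j + 1) * M :=
      mul_le_mul_of_nonneg_left e1 (by positivity)
    have hP : (0 : ℝ) ≤ 2 ^ (j + 1) * A ^ (j + 1) := by positivity
    have e3 : 2 ^ (j + 1) * A ^ (j + 1) * ((1 + A * T4) / 2) * ln γ B ε ≤
        2 ^ (j + 1) * A ^ (j + 1) * ln γ B ε + 2 ^ (j + 1) * A ^ (j + 1) * (A * T4) := by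
      have e4 : (1 + A * T4) / 2 * ln γ B ε ≤ ln γ B ε + A * T4 := by
        have e5 : 0 ≤ A * T4 := by positivity
        (first | linarith only [e5, hL, hL0, hγ, hγ'] | nlinarith only [e5, hL, hL0, hγ, hγ'])
      have := mul_le_mul_of_nonneg_left e4 hP
      linarith
    have e6 : 2 ^ (j + 1) * A ^ (j + 1) * (A * T4) =
        2 ^ (j + 1) * A ^ (j + 1) * (8 * A ^ 2 * B) * Tn B ρ ε := by
      rw [hT4]
      ring
    rw [hj2]
    rw [e6] at e3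
    have e7 : ((A + 1) ^ (j + 2) * A + 2 ^ (j + 1) * A ^ (j + 1) * ((1 + A * T4) / 2)) *
        ln γ B ε = (A + 1) ^ (j + 2) * A * ln γ B ε +
        2 ^ (j + 1) * A ^ (j + 1) * ((1 + A * T4) / 2) * ln γ B ε := by ring
    rw [e7] at h
    simp only [hj] at h ⊢
    linarith
  · simp only [Pi.neg_apply, hj]
    have w0 := Real.exp_pos (-(|y| / 2))
    have w1 := ex_le_loc (B := B) hγ hγ' hs.1 y
    have e0 := Dxb_pt (A := A) (w := Real.exp (-(|y| / 2))) (u := Qf k y) (d := deriv (Qf k) y)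
      (h := ε y) (h1 := deriv ε y) (MX := M / Xn ε) (T4 := T4) (j := j) hA (Qf_pos k y).le
      (hQA y) (hQ y) w0 (hQ' y) (hε1 y) (hsup y) hT40 (hMX y)
    have e1 := neg_le_abs ((Qf k y + ε y) ^ (j + 2) * (deriv (Qf k) y + deriv ε y) *
      (deriv ε y) ^ 2)
    have e2 : Real.exp (-(|y| / 2)) * (deriv ε y) ^ 2 ≤
        loc γ B y * ((ε y) ^ 2 + (deriv ε y) ^ 2) := by
      have a1 := mul_le_mul_of_nonneg_right w1 (sq_nonneg (deriv ε y))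
      have a2 : 0 ≤ loc γ B y * (ε y) ^ 2 := mul_nonneg (loc_pos γ B y).le (sq_nonneg _)
      linarith
    have e3 : ((A + 1) ^ (j + 2) * A + 2 ^ (j + 1) * A ^ (j + 1) * ((1 + A * T4) / 2)) *
        (Real.exp (-(|y| / 2)) * (deriv ε y) ^ 2) ≤
        ((A + 1) ^ (j + 2) * A + 2 ^ (j + 1) * A ^ (j + 1) * ((1 + A * T4) / 2)) *
        (loc γ B y * ((ε y) ^ 2 + (deriv ε y) ^ 2)) :=
      mul_le_mul_of_nonneg_left e2 (by positivity)
    linarith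

/-- the second nonlinear term -/
theorem Dxb_I2 {k : ℕ} (hk : 5 ≤ k) {B ρ p q γ : ℝ} {ε : ℝ → ℝ} (hs : Slow B ρ)
    (hε : Adm ρ p q ε) (hγ : 0 < γ) {A : ℝ} (hA : 1 ≤ A)
    (hQ' : ∀ y, |deriv (Qf k) y| ≤ A * Real.exp (-(|y| / 2))) (hQA : ∀ y, Qf k y ≤ A)
    (hε1 : ∀ y, |ε y| ≤ 1) :
    (∫ y, deriv (deriv ε) y * (((Qf k y + ε y) ^ k - Qf k y ^ k) * deriv (Qf k) y)) ≤
      (4 * A * B * ((k : ℝ) * (A + 1) ^ (k - 1))) * Tn B ρ ε := by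
  have hk1 : 1 ≤ k := by omega
  have hp := Dxb_p hs hε
  have hq := hε.2.2.1
  have hB : 0 < B := by linarith [hs.1]
  have c0 := hε.2.2.2.2
  have c2 := Cl_der (Cl_der c0)
  have q0 : Cl 0 0 (Qf k) := Cl_mono (Cl_Qf hk1) zero_le_one zero_le_one
  have iF : Integrable (fun y => deriv (deriv ε) y *
      (((Qf k y + ε y) ^ k - Qf k y ^ k) * deriv (Qf k) y)) := by
    have a0 : Cl 0 0 (fun y => Qf k y + ε y) := Cl_add q0 (Cl_mono c0 hp.le hq.le)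
    have a1 : Cl 0 0 (fun y => (Qf k y + ε y) ^ k - Qf k y ^ k) :=
      Cl_sub (Cl_pow0 a0 k) (Cl_pow0 q0 k)
    have a2 : Cl 0 0 (fun y => ((Qf k y + ε y) ^ k - Qf k y ^ k) * deriv (Qf k) y) :=
      Cl_mul0 a1 (Cl_mono (Cl_der (Cl_Qf hk1)) zero_le_one zero_le_one)
    exact Cl_int (Cl_mul c2 a2) (by linarith) (by linarith)
  have h := Dxb_cmp hs hε hγ iF (4 * A * B * ((k : ℝ) * (A + 1) ^ (k - 1))) 0 0 0 (fun y => ?_)
  · linarith
  · have o1 := om1_pos hs y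
    have w1 := ex_le_om1 hs y
    have e1 : |(Qf k y + ε y) ^ k - Qf k y ^ k| ≤ |ε y| * ((k : ℝ) * (A + 1) ^ (k - 1)) := by
      have a1 := abs_pow_sub_pow_le (Qf k y + ε y) (Qf k y) k
      have a2 : Qf k y + ε y - Qf k y = ε y := by ring
      rw [a2] at a1
      have a3 : max |Qf k y + ε y| |Qf k y| ^ (k - 1) ≤ (A + 1) ^ (k - 1) := by
        refine pow_le_pow_left₀ (le_max_of_le_left (abs_nonneg _)) ?_ _
        refine max_le ((abs_add_le _ _).trans ?_) ?_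
        · rw [abs_of_pos (Qf_pos k y)]
          linarith [hQA y, hε1 y]
        · rw [abs_of_pos (Qf_pos k y)]
          linarith [hQA y]
      have a4 := mul_le_mul_of_nonneg_left a3 (by positivity : 0 ≤ |ε y| * (k : ℝ))
      linarith
    have e2 : deriv (deriv ε) y * (((Qf k y + ε y) ^ k - Qf k y ^ k) * deriv (Qf k) y) ≤
        |deriv (deriv ε) y| * ((|ε y| * ((k : ℝ) * (A + 1) ^ (k - 1))) *
          (A * Real.exp (-(|y| / 2)))) := by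
      refine (le_abs_self _).trans ?_
      rw [abs_mul, abs_mul]
      exact mul_le_mul_of_nonneg_left (mul_le_mul e1 (hQ' y) (abs_nonneg _) (by positivity))
        (abs_nonneg _)
    have e3 : |deriv (deriv ε) y| * |ε y| ≤ (ε y) ^ 2 + (deriv ε y) ^ 2 +
        (deriv (deriv ε) y) ^ 2 := by
      have a1 := sq_nonneg (|deriv (deriv ε) y| - |ε y|)
      have a2 := sq_abs (deriv (deriv ε) y)
      have a3 := sq_abs (ε y)
      have a4 := sq_nonneg (deriv ε y)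
      (first | linarith only [sq_nonneg (ε y), sq_nonneg (deriv (deriv ε) y), a2, a3] | nlinarith only [sq_nonneg (ε y), sq_nonneg (deriv (deriv ε) y), a2, a3])
    have e4 : A * Real.exp (-(|y| / 2)) ≤ A * (4 * B * deriv (om B ρ) y) :=
      mul_le_mul_of_nonneg_left w1 (by linarith)
    have e5 : |deriv (deriv ε) y| * ((|ε y| * ((k : ℝ) * (A + 1) ^ (k - 1))) *
          (A * Real.exp (-(|y| / 2)))) =
        ((k : ℝ) * (A + 1) ^ (k - 1)) * ((|deriv (deriv ε) y| * |ε y|) *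
          (A * Real.exp (-(|y| / 2)))) := by ring
    have e6 : (|deriv (deriv ε) y| * |ε y|) * (A * Real.exp (-(|y| / 2))) ≤
        ((ε y) ^ 2 + (deriv ε y) ^ 2 + (deriv (deriv ε) y) ^ 2) *
          (A * (4 * B * deriv (om B ρ) y)) :=
      mul_le_mul e3 e4 (by positivity) (by positivity)
    have e7 := mul_le_mul_of_nonneg_left e6
      (by positivity : (0 : ℝ) ≤ (k : ℝ) * (A + 1) ^ (k - 1))
    rw [e5] at e2
    linarith

theorem Dxb_fin {b m l X Z T L G Xe sck kc C1 C2 C3 C4 C5 Km Cm κ I1 I2 I3 I4 I5 I6 : ℝ}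
    (hl : 0 < l) (hl1 : l ≤ 1) (hZ : 0 ≤ Z) (hT : 0 ≤ T) (hL : 0 ≤ L) (hG : 0 ≤ G)
    (hXe : 0 ≤ Xe) (hC1 : 0 ≤ C1) (hC2 : 0 ≤ C2) (hC3 : 0 ≤ C3) (hC4 : 0 ≤ C4) (hC5 : 0 ≤ C5)
    (hKm : 0 ≤ Km) (hb : b ^ 2 ≤ 4 * κ ^ 2 * l ^ 2) (hm : m ^ 2 ≤ 2 * Cm ^ 2 * (L + G))
    (h1 : -(kc * I1) ≤ C1 * L + C2 * T + 1 / 8 * (l * Z) + C3 * l ^ 2) (h2 : I2 ≤ C4 * T)
    (h3 : b * I3 ≤ T + C5 * b ^ 2) (h4 : -m * I4 ≤ T + Km * m ^ 2)
    (h5 : -l * I5 ≤ T + C5 * l ^ 2) (h6 : I6 ≤ l / 4 * Z + 1 / l * Xe) :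
    -b * (1 - sck) * X - l * Z - kc * I1 + I2 + b * I3 - m * I4 - l * I5 + I6 ≤
      -b * (1 - sck) * X +
      (C1 + C2 + C3 + C4 + 3 + 4 * κ ^ 2 * C5 + C5 + 2 * Km * Cm ^ 2 + 1) * (T + L) +
      (C1 + C2 + C3 + C4 + 3 + 4 * κ ^ 2 * C5 + C5 + 2 * Km * Cm ^ 2 + 1) * l ^ 2 +
      (C1 + C2 + C3 + C4 + 3 + 4 * κ ^ 2 * C5 + C5 + 2 * Km * Cm ^ 2 + 1) * G +
      (C1 + C2 + C3 + C4 + 3 + 4 * κ ^ 2 * C5 + C5 + 2 * Km * Cm ^ 2 + 1) / l * Xe := by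
  set C := C1 + C2 + C3 + C4 + 3 + 4 * κ ^ 2 * C5 + C5 + 2 * Km * Cm ^ 2 + 1 with hC
  have a1 : 0 ≤ 4 * κ ^ 2 * C5 := by positivity
  have a2 : 0 ≤ 2 * Km * Cm ^ 2 := by positivity
  have t1 : (C1 + 2 * Km * Cm ^ 2) * L ≤ C * L := mul_le_mul_of_nonneg_right (by linarith) hL
  have t2 : (C2 + C4 + 3) * T ≤ C * T := mul_le_mul_of_nonneg_right (by linarith) hT
  have t3 : (C3 + 4 * κ ^ 2 * C5 + C5) * l ^ 2 ≤ C * l ^ 2 :=
    mul_le_mul_of_nonneg_right (by linarith) (sq_nonneg l)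
  have t4 : (2 * Km * Cm ^ 2) * G ≤ C * G := mul_le_mul_of_nonneg_right (by linarith) hG
  have t5 : 1 / l * Xe ≤ C / l * Xe :=
    mul_le_mul_of_nonneg_right (div_le_div_of_nonneg_right (by linarith) hl.le) hXe
  have t6 : C5 * b ^ 2 ≤ C5 * (4 * κ ^ 2 * l ^ 2) := mul_le_mul_of_nonneg_left hb hC5
  have t7 : Km * m ^ 2 ≤ Km * (2 * Cm ^ 2 * (L + G)) := mul_le_mul_of_nonneg_left hm hKm
  have t8 : 0 ≤ l * Z := by positivity
  linarith

theorem DX_st (k : ℕ) (hk : 5 ≤ k) (B : ℝ) (hB : 16 ≤ B) : ∃ c C : ℝ, 0 < c ∧ c ≤ 1 ∧ 0 < C ∧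
    ∀ γ : ℝ, 0 < γ → γ ≤ 1 / 8 → ∀ ρ : ℝ, Slow B ρ → ∀ l, 0 < l → l ≤ 1 → ∀ (p q : ℝ) (ε e : ℝ → ℝ),
    Adm ρ p q ε → Adm ρ p q e → (∀ y, |ε y| ≤ 1) → ln γ B ε ≤ c → Gn B ρ e ≤ 1 →
    (∀ y, |ε y| ^ (4 * (k - 1)) * (Xn ε) ^ 5 ≤ l ^ 7) →
    ∀ b m, 0 ≤ b → b ≤ 2 * kap k * l → Orth k b m l ε e →
    ip (deriv ε) (deriv (zeta k b m l ε e)) ≤ -b * (1 - sc k) * Xn ε
      + C * (Tn B ρ ε + ln γ B ε) + C * l ^ 2 + C * Gn B ρ e + C / l * Xn e := by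
  have hk1 : 1 ≤ k := by omega
  have hB0 : 0 < B := by linarith
  obtain ⟨c, Cm, hc, hc1, hCm, hBM⟩ := BM_st k hk
  obtain ⟨A, hA, hQ, hQ', hQA⟩ := Dxb_A (k := k) hk1
  have hJ : 0 ≤ ∫ y, bd 1 1 y := integral_nonneg fun y => (bd_pos 1 1 y).le
  have cL : Cl (3 / 4) (3 / 4) (Lam k (Qf k)) := Cl_LamQ hk1 (by norm_num)
  have cQ1 : Cl (3 / 4) (3 / 4) (deriv (Qf k)) :=
    Cl_mono (Cl_der (Cl_Qf hk1)) (by norm_num) (by norm_num)
  have cQ2 : Cl (3 / 4) (3 / 4) (deriv (deriv (Qf k))) :=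
    Cl_mono (Cl_der (Cl_der (Cl_Qf hk1))) (by norm_num) (by norm_num)
  obtain ⟨K3, hK3, hb3⟩ := Cl_bnd cL
  obtain ⟨K4, hK4, hb4⟩ := Cl_bnd cQ1
  obtain ⟨K5, hK5, hb5⟩ := Cl_bnd cQ2
  set D : ℝ := (k : ℝ) * 2 ^ k with hD
  have hkr : (5 : ℝ) ≤ (k : ℝ) := by exact_mod_cast hk
  have hD1 : 1 ≤ D := by
    have : (1 : ℝ) ≤ 2 ^ k := one_le_pow₀ (by norm_num)
    (first | linarith only [hkr, this] | nlinarith only [hkr, this])
  set C1 : ℝ := (k : ℝ) / 2 * ((A + 1) ^ (k - 1) * A + 2 ^ (k - 2) * A ^ (k - 2)) with hC1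
  set C2 : ℝ := (k : ℝ) / 2 * (2 ^ (k - 2) * A ^ (k - 2) * (8 * A ^ 2 * B)) with hC2
  set C3 : ℝ := (k : ℝ) / 2 * (2 ^ (k - 2) * (3 * D)) with hC3
  set C4 : ℝ := 4 * A * B * ((k : ℝ) * (A + 1) ^ (k - 1)) with hC4
  set C5 : ℝ := B * K3 ^ 2 * (∫ y, bd 1 1 y) + B * K5 ^ 2 * ∫ y, bd 1 1 y with hC5
  set Km : ℝ := B * K4 ^ 2 * ∫ y, bd 1 1 y with hKm
  have p1 : 0 ≤ C1 := by positivity
  have p2 : 0 ≤ C2 := by positivity
  have p3 : 0 ≤ C3 := by positivity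
  have p4 : 0 ≤ C4 := by positivity
  have p5 : 0 ≤ C5 := by positivity
  have pm : 0 ≤ Km := by positivity
  refine ⟨c, C1 + C2 + C3 + C4 + 3 + 4 * (kap k) ^ 2 * C5 + C5 + 2 * Km * Cm ^ 2 + 1, hc, hc1,
    by positivity, ?_⟩
  intro γ hγ hγ' ρ hs l hl hl1 p q ε e hε he hε1 hLc hGe hX b m hb0 hbl ho
  have hp := Dxb_p hs hε
  have hq := hε.2.2.1
  have c0 := hε.2.2.2.2
  have c2 := Cl_der (Cl_der c0)
  have ce := he.2.2.2.2
  have hp1 : p ≤ 1 := by linarith [hε.2.1]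
  have hq1 : q ≤ 1 := by linarith [hε.2.2.2.1]
  have hL0 : 0 ≤ ln γ B ε := integral_nonneg fun z => mul_nonneg (loc_pos γ B z).le
    (by positivity)
  have hT0 : 0 ≤ Tn B ρ ε := integral_nonneg fun z => mul_nonneg (om1_pos hs z).le
    (by positivity)
  have hG0 : 0 ≤ Gn B ρ e := integral_nonneg fun z => mul_nonneg (om_pos B ρ z).le
    (by positivity)
  have hZ0 : 0 ≤ ∫ z, (deriv (deriv ε) z) ^ 2 := integral_nonneg fun z => sq_nonneg _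
  have hXe0 : 0 ≤ Xn e := integral_nonneg fun z => sq_nonneg _
  have hbm := (hBM γ hγ hγ' B ρ hs l hl hl1 p q ε e hε he hε1 hLc hGe b m ho).2
  have hm2 : m ^ 2 ≤ 2 * Cm ^ 2 * (ln γ B ε + Gn B ρ e) := by
    have e1 : m ^ 2 ≤ (Cm * (√(ln γ B ε) + √(Gn B ρ e))) ^ 2 := by
      rw [← sq_abs m]
      exact pow_le_pow_left₀ (abs_nonneg _) hbm 2
    have e2 : (√(ln γ B ε) + √(Gn B ρ e)) ^ 2 ≤ 2 * (ln γ B ε + Gn B ρ e) := by
      have a1 := Real.sq_sqrt hL0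
      have a2 := Real.sq_sqrt hG0
      (first | linarith only [sq_nonneg (√(ln γ B ε) - √(Gn B ρ e)), a1, a2] | nlinarith only [sq_nonneg (√(ln γ B ε) - √(Gn B ρ e)), a1, a2])
    rw [mul_pow] at e1
    have e3 := mul_le_mul_of_nonneg_left e2 (sq_nonneg Cm)
    linarith
  have hb2 : b ^ 2 ≤ 4 * (kap k) ^ 2 * l ^ 2 := by
    have e1 := pow_le_pow_left₀ hb0 hbl 2
    calc b ^ 2 ≤ (2 * kap k * l) ^ 2 := e1
      _ = 4 * (kap k) ^ 2 * l ^ 2 := by ring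
  rw [DX_id k hk hp hq hp1 hq1 c0 ce b m l]
  have hI1 := Dxb_I1 hk hs hε hγ hγ' hA hQ hQ' hQA hε1 (hLc.trans hc1) hl hX hD1
  have hI1' : -((k : ℝ) / 2 * ∫ y, (Qf k y + ε y) ^ (k - 1) * (deriv (Qf k) y + deriv ε y) *
      (deriv ε y) ^ 2) ≤ C1 * ln γ B ε + C2 * Tn B ρ ε +
        1 / 8 * (l * ∫ z, (deriv (deriv ε) z) ^ 2) + C3 * l ^ 2 := by
    have e1 := mul_le_mul_of_nonneg_left hI1 (by positivity : (0 : ℝ) ≤ (k : ℝ) / 2)
    have e2 : (k : ℝ) / 2 * (2 ^ (k - 2) * (1 / D)) = 1 / 8 := by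
      have e3 : (2 : ℝ) ^ k = 2 ^ (k - 2) * 4 := by
        have : k = (k - 2) + 2 := by omega
        conv_lhs => rw [this]
        rw [pow_add]
        norm_num
      rw [hD, e3]
      have h2 : (2 : ℝ) ^ (k - 2) ≠ 0 := by positivity
      have h3 : (k : ℝ) ≠ 0 := by positivity
      field_simp
      norm_num
    have e4 : (k : ℝ) / 2 * (((A + 1) ^ (k - 1) * A + 2 ^ (k - 2) * A ^ (k - 2)) * ln γ B ε +
      (2 ^ (k - 2) * A ^ (k - 2) * (8 * A ^ 2 * B)) * Tn B ρ ε +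
      2 ^ (k - 2) * (1 / D * (l * ∫ z, (deriv (deriv ε) z) ^ 2) + 3 * (D * l ^ 2))) =
      C1 * ln γ B ε + C2 * Tn B ρ ε +
        ((k : ℝ) / 2 * (2 ^ (k - 2) * (1 / D))) * (l * ∫ z, (deriv (deriv ε) z) ^ 2) +
        C3 * l ^ 2 := by
      rw [hC1, hC2, hC3]
      ring
    rw [e4, e2] at e1
    linarith
  have hI2 := Dxb_I2 hk hs hε hγ hA hQ' hQA hε1
  have hI3 := Dxb_lin (k := k) hs hε hγ cL hK3 hb3 b
  have hI4 := Dxb_lin (k := k) hs hε hγ cQ1 hK4 hb4 (-m)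
  have hI5 := Dxb_lin (k := k) hs hε hγ cQ2 hK5 hb5 (-l)
  have hI6 : ∫ y, deriv (deriv ε) y * deriv e y ≤
      l / 4 * (∫ z, (deriv (deriv ε) z) ^ 2) + 1 / l * Xn e := by
    have j1 : Integrable (fun y => deriv (deriv ε) y * deriv e y) :=
      Dxb_i3 hs hε c2 (Cl_der ce)
    have j2 := (Dxb_iS hs hε c2).const_mul (l / 4)
    have j3 := (Dxb_iS hs hε (Cl_der ce)).const_mul (1 / l)
    have h := integral_mono j1 (j2.add j3) (fun y => ?_)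
    · have h' : ∫ y, (l / 4 * (deriv (deriv ε) y) ^ 2 + 1 / l * (deriv e y) ^ 2) =
          l / 4 * (∫ z, (deriv (deriv ε) z) ^ 2) + 1 / l * Xn e := by
        rw [integral_add j2 j3, integral_const_mul, integral_const_mul]
        rfl
      exact h.trans (le_of_eq h')
    · simp only [Pi.add_apply]
      have a1 : 0 ≤ (l * deriv (deriv ε) y - 2 * deriv e y) ^ 2 := sq_nonneg _
      have a2 : l / 4 * (deriv (deriv ε) y) ^ 2 + 1 / l * (deriv e y) ^ 2 -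
          deriv (deriv ε) y * deriv e y = (l * deriv (deriv ε) y - 2 * deriv e y) ^ 2 / (4 * l) := by
        field_simp
        ring
      have a3 : 0 ≤ (l * deriv (deriv ε) y - 2 * deriv e y) ^ 2 / (4 * l) := by positivity
      linarith
  have hsq : 0 ≤ ∫ y, bd 1 1 y := hJ
  refine Dxb_fin (κ := kap k) (Km := Km) (Cm := Cm) (C1 := C1) (C2 := C2) (C3 := C3) (C4 := C4)
    (C5 := C5) hl hl1 hZ0 hT0 hL0 hG0 hXe0 p1 p2 p3 p4 p5 pm hb2 hm2 hI1' hI2 ?_ ?_ ?_ hI6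
  · refine hI3.trans ?_
    have a1 : 0 ≤ B * K5 ^ 2 * (∫ y, bd 1 1 y) * b ^ 2 := by positivity
    rw [hC5]
    linarith
  · rw [neg_sq] at hI4
    exact hI4
  · rw [neg_sq] at hI5
    refine hI5.trans ?_
    have a1 : 0 ≤ B * K3 ^ 2 * (∫ y, bd 1 1 y) * l ^ 2 := by positivity
    rw [hC5]
    linarith

end H98KB

end S_H98_KB_Dxb
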