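import Mathlib
import Pool.Agent.H98.BU.G01
import Pool.Agent.H98.BU.G04
import Pool.Agent.H98.BU.G06
import Pool.Agent.H98.BU.G10
import Pool.Agent.H98.BU.G11
import Pool.Agent.H98.BU.G12
import Pool.Agent.H98.BU.G13
import Pool.Agent.H98.BU.G14
import Pool.Agent.H98.BU.G32
import Pool.Agent.H98.BU.G33

/-! Blow-up for `u_t + u^k u_x + u_xxx - u_xx = 0`, part G34: this file joins several modules
to save build time (`Pool/Agent/H98/{KB,KC}`, `H72/{KB,KC}`, `H68/KC`, `H37/{KB,KC}`). -/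

section S_H98_KB_Vli

/-!
# Vli : the linear virial estimate V7 (uses the statements of `Vid`, `Vcp`, `Vcu`, `Smb`)

`v = vf k δ ε`, `ṽ = rh B · v`, `Ψ=Psi`.  `vf k δ (Lε)' = L v' + Ed` (`vir_split`), so
`∫Ψ v vf(Lε)' = -Hf k Ψ v + ∫Ψ v Ed ≤ -Hf k ψ ṽ + (C/B)∫χ(v²+v'²) + C√δ∫loc(v²+v'²)`
`≤ -(ηγ/4)∫w(ṽ²+ṽ'²) + C(ip ṽ G)² + ...`; `(ip ṽ G)² ≤ 2(ip v G)²+(2C²/B²)∫wṽ²`, `ip v G = -2 ip ε Q` (`ip_vf`);
`∫w ṽ² = ∫ loc v² ≤ ∫χ v²` so that term is `≤ (C/B)∫χ(v²+v'²)`; `∫w(ṽ²+ṽ'²) ≥ (1/3)∫loc(v²+v'²)`;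
choose `δ` so small that `C√δ ≤ ηγ/24`; `c₀ = ηγ/24`.  `c₀` and `C` are independent of `B`.
(`η` comes from `vir_coer`, `δ ≤ δ₀`.)
-/

open MeasureTheory Filter Topology Set
open scoped ContDiff

namespace H98KB

theorem Vli_rh {B : ℝ} (hB : 0 < B) : Cl (1 / B) (1 / B) (rh B) := by
  have h := Cl_sech (c := 1 / B) (by positivity)
  have e : rh B = fun y => 1 / Real.cosh (1 / B * y) := by
    funext y
    unfold rh
    congr 2
    ring
  rw [e]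
  exact h

theorem Vli_loc {γ B : ℝ} (hγ : 0 < γ) (hB : 0 < B) : Cl 0 0 (loc γ B) := by
  have h := Cl_mul (Cl_se2 hγ) (Cl_ch hB)
  exact Cl_mono h (by positivity) (by positivity)

theorem Vli_sq {p q : ℝ} {f : ℝ → ℝ} (hf : Cl p q f) : Cl (2 * p) (2 * q) (fun y => f y ^ 2) := by
  have h := Cl_pow hf 2
  exact_mod_cast h

theorem vir_lin (k : ℕ) (hk : 5 ≤ k) (γ : ℝ) (hγ : 0 < γ) (hγ' : γ ≤ 1 / 8) :
    ∃ η δ c₀ C : ℝ, 0 < η ∧ η ≤ 1 ∧ 0 < δ ∧ δ ≤ 1 / 16 ∧ 0 < c₀ ∧ 0 < C ∧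
    ∀ B : ℝ, 16 ≤ B → ∀ (p q : ℝ) (ε : ℝ → ℝ), 0 < p → p ≤ 1 → 0 < q → q ≤ 1 → Cl p q ε →
    ∫ y, Psi k η γ B y * (vf k δ ε y * vf k δ (deriv (Lop k ε)) y) ≤
      -c₀ * (∫ y, loc γ B y * ((vf k δ ε y) ^ 2 + (deriv (vf k δ ε) y) ^ 2))
        + C / B * (∫ y, ch B y * ((vf k δ ε y) ^ 2 + (deriv (vf k δ ε) y) ^ 2))
        + C * (ip ε (Qf k)) ^ 2 := by
  have hk1 : 1 ≤ k := by omega
  obtain ⟨η, δ₀, C1, hη, hη1, hδ₀, hδ₀', hC1, hcoer⟩ := vir_coer k hk γ hγ hγ'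
  obtain ⟨C2, hC2, hcut⟩ := cut_H k hk1 η γ
  obtain ⟨C3, hC3, hip⟩ := cut_ip k hk1 γ hγ hγ'
  obtain ⟨C4, hC4, hEd⟩ := Ed_le k hk η γ hγ hγ'
  set r : ℝ := η * γ / (24 * C4) with hr
  have hr0 : 0 < r := by positivity
  set δ : ℝ := min δ₀ (r ^ 2) with hδd
  have hδ : 0 < δ := lt_min hδ₀ (by positivity)
  have hδδ₀ : δ ≤ δ₀ := min_le_left _ _
  have hδ' : δ ≤ 1 / 16 := hδδ₀.trans hδ₀'
  have hsq : √δ ≤ r := by
    have h1 : √δ ≤ √(r ^ 2) := Real.sqrt_le_sqrt (min_le_right _ _)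
    rwa [Real.sqrt_sq hr0.le] at h1
  have hC4r : C4 * √δ ≤ η * γ / 24 := by
    have h1 : C4 * √δ ≤ C4 * r := mul_le_mul_of_nonneg_left hsq hC4.le
    have h2 : C4 * r = η * γ / 24 := by
      rw [hr]
      field_simp
    linarith
  refine ⟨η, δ, η * γ / 24, C2 + 2 * C1 * C3 ^ 2 + 8 * C1, hη, hη1, hδ, hδ', by positivity,
    by positivity, ?_⟩
  intro B hB p q ε hp hp1 hq hq1 hε
  have hB0 : 0 < B := by linarith
  have hpa : |p| ≤ 2 := by rw [abs_of_pos hp]; linarith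
  have hqa : |q| ≤ 2 := by rw [abs_of_pos hq]; linarith
  set v := vf k δ ε with hv
  have hvC : Cl p q v := Cl_vf hk1 hδ hδ' hpa hqa hε
  have hPsi : Cl (2 / B) (2 / B) (Psi k η γ B) := Cl_Psi k η γ hB0
  have hrh : Cl (1 / B) (1 / B) (rh B) := Vli_rh hB0
  set w := fun y => rh B y * v y with hw
  have h1B : 0 ≤ 1 / B := by positivity
  have h2B : 0 ≤ 2 / B := by positivity
  have hwC : Cl p q w := Cl_mono (Cl_mul hrh hvC) (by linarith) (by linarith)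
  -- the integrals
  have hI1 : Integrable (fun y => Psi k η γ B y * (v y * Lop k (deriv v) y)) :=
    Cl_int (Cl_mul hPsi (Cl_mul hvC (Cl_Lop hk1 (Cl_der hvC)))) (by linarith) (by linarith)
  have hI2 : Integrable (fun y => Psi k η γ B y * (v y * Ed k δ v y)) :=
    Cl_int (Cl_mul hPsi (Cl_mul hvC (Cl_Ed hk1 hδ hδ' hpa hqa hvC))) (by linarith) (by linarith)
  have hsplit : ∫ y, Psi k η γ B y * (v y * vf k δ (deriv (Lop k ε)) y) =
      -Hf k (Psi k η γ B) v + ∫ y, Psi k η γ B y * (v y * Ed k δ v y) := by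
    rw [← vir_id hk1 hPsi hvC (by linarith) (by linarith), ← integral_add hI1 hI2]
    congr 1
    funext y
    rw [vir_split hk1 hδ hδ' hpa hqa hε y]
    ring
  have e1 := hcut B hB p q v hp hq hvC
  have e2 := hcoer δ hδ hδδ₀ p q w hp hq hwC
  have e3 := hip B hB δ hδ hδ' p q v hp hq hvC
  have e4 := hEd B hB δ hδ hδ' p q v hp hp1 hq hq1 hvC
  have e5 := cut_loc hγ hB hp hq hvC
  have e6 : ip v (Gd k δ) = -2 * ip ε (Qf k) :=
    ip_vf hk1 hδ hδ' hp (by linarith) hq (by linarith) hε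
  set X := ∫ y, loc γ B y * ((v y) ^ 2 + (deriv v y) ^ 2) with hX
  set Y := ∫ y, ch B y * ((v y) ^ 2 + (deriv v y) ^ 2) with hY
  set Z := ∫ y, se2 γ y * ((w y) ^ 2 + (deriv w y) ^ 2) with hZ
  have hchpos : ∀ y, 0 ≤ ch B y := fun y => by unfold ch; positivity
  have hX0 : 0 ≤ X := integral_nonneg fun y => mul_nonneg (loc_pos γ B y).le (by positivity)
  have hY0 : 0 ≤ Y := integral_nonneg fun y => mul_nonneg (hchpos y) (by positivity)
  have hrhsq : ∀ y, rh B y ^ 2 = ch B y := fun y => rfl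
  have e7 : ∫ y, se2 γ y * (rh B y * v y) ^ 2 ≤ Y := by
    have hv2 : Cl (2 * p) (2 * q) (fun y => v y ^ 2) := Vli_sq hvC
    have hd2 : Cl (2 * p) (2 * q) (fun y => deriv v y ^ 2) := Vli_sq (Cl_der hvC)
    have hch0 : Cl 0 0 (ch B) := Cl_mono (Cl_ch hB0) h2B h2B
    have i1 : Integrable (fun y => se2 γ y * (rh B y * v y) ^ 2) := by
      have h := Cl_int (Cl_mul0 (Vli_loc hγ hB0) hv2) (by linarith) (by linarith)
      refine h.congr (Eventually.of_forall fun y => ?_)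
      show loc γ B y * v y ^ 2 = se2 γ y * (rh B y * v y) ^ 2
      rw [mul_pow, hrhsq, loc]
      ring
    have i2 : Integrable (fun y => ch B y * ((v y) ^ 2 + (deriv v y) ^ 2)) :=
      Cl_int (Cl_mul0 hch0 (Cl_add hv2 hd2)) (by linarith) (by linarith)
    refine integral_mono i1 i2 fun y => ?_
    show se2 γ y * (rh B y * v y) ^ 2 ≤ ch B y * ((v y) ^ 2 + (deriv v y) ^ 2)
    rw [mul_pow, hrhsq]
    have h1 : 0 ≤ ch B y * v y ^ 2 := mul_nonneg (hchpos y) (sq_nonneg _)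
    have h2 : 0 ≤ ch B y * deriv v y ^ 2 := mul_nonneg (hchpos y) (sq_nonneg _)
    have h3 : se2 γ y * (ch B y * v y ^ 2) ≤ 1 * (ch B y * v y ^ 2) :=
      mul_le_mul_of_nonneg_right (se2_le_one γ y) h1
    linarith
  have hse0 : 0 ≤ ∫ y, se2 γ y * (rh B y * v y) ^ 2 :=
    integral_nonneg fun y => mul_nonneg (se2_pos γ y).le (sq_nonneg _)
  -- the square of the pairing
  have e8 : (ip w (Gd k δ)) ^ 2 ≤ 8 * (ip ε (Qf k)) ^ 2 + 2 * (C3 ^ 2 / B ^ 2) * Y := by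
    have h1 : (ip w (Gd k δ) - ip v (Gd k δ)) ^ 2 ≤ (C3 / B) ^ 2 *
        (∫ y, se2 γ y * (rh B y * v y) ^ 2) := by
      have h2 : |ip w (Gd k δ) - ip v (Gd k δ)| ^ 2 ≤
          (C3 / B * √(∫ y, se2 γ y * (rh B y * v y) ^ 2)) ^ 2 :=
        pow_le_pow_left₀ (abs_nonneg _) e3 2
      rw [sq_abs, mul_pow, Real.sq_sqrt hse0] at h2
      exact h2
    have h3 : (C3 / B) ^ 2 * (∫ y, se2 γ y * (rh B y * v y) ^ 2) ≤ (C3 / B) ^ 2 * Y :=
      mul_le_mul_of_nonneg_left e7 (by positivity)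
    have h4 : (ip w (Gd k δ)) ^ 2 ≤ 2 * (ip v (Gd k δ)) ^ 2 +
        2 * (ip w (Gd k δ) - ip v (Gd k δ)) ^ 2 := by
      (first | linarith only [sq_nonneg (2 * ip v (Gd k δ) - ip w (Gd k δ))] | nlinarith only [sq_nonneg (2 * ip v (Gd k δ) - ip w (Gd k δ))])
    rw [e6] at h4
    have h5 : (C3 / B) ^ 2 = C3 ^ 2 / B ^ 2 := div_pow _ _ _
    rw [h5] at h3 h1
    rw [e6] at h1
    (first | linarith only [h1, h3, h4] | nlinarith only [h1, h3, h4])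
  have hBB : C3 ^ 2 / B ^ 2 ≤ C3 ^ 2 / B := by
    apply div_le_div_of_nonneg_left (by positivity) hB0
    (first | linarith only [hB, hδ₀, hδ₀'] | nlinarith only [hB, hδ₀, hδ₀'])
  have e9 : C3 ^ 2 / B ^ 2 * Y ≤ C3 ^ 2 / B * Y := mul_le_mul_of_nonneg_right hBB hY0
  have e10 : C4 * √δ * X ≤ η * γ / 24 * X := mul_le_mul_of_nonneg_right hC4r hX0
  have e1' := (abs_le.1 e1).1
  have e4' := (abs_le.1 e4).2
  have hZ' : η * γ / 4 * (X / 3) ≤ η * γ / 4 * Z :=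
    mul_le_mul_of_nonneg_left (by linarith) (by positivity)
  have e11 : C1 * (ip w (Gd k δ)) ^ 2 ≤ C1 * (8 * (ip ε (Qf k)) ^ 2 + 2 * (C3 ^ 2 / B * Y)) :=
    mul_le_mul_of_nonneg_left (by linarith) hC1.le
  rw [hsplit]
  have hfin : -(η * γ / 24) * X + (C2 + 2 * C1 * C3 ^ 2 + 8 * C1) / B * Y +
      (C2 + 2 * C1 * C3 ^ 2 + 8 * C1) * (ip ε (Qf k)) ^ 2 =
      -(η * γ / 24) * X + C2 / B * Y + C1 * (2 * (C3 ^ 2 / B * Y)) + 8 * C1 / B * Y +
      (C2 + 2 * C1 * C3 ^ 2) * (ip ε (Qf k)) ^ 2 + C1 * (8 * (ip ε (Qf k)) ^ 2) := by ring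
  rw [hfin]
  have p1 : 0 ≤ 8 * C1 / B * Y := by positivity
  have p2 : 0 ≤ (C2 + 2 * C1 * C3 ^ 2) * (ip ε (Qf k)) ^ 2 := by positivity
  have e1'' : -Hf k (Psi k η γ B) v ≤ -Hf k (psi k η γ) w + C2 / B * Y := by linarith
  (first | linarith only [e1', e10, e11, e2, e4', hZ', p1, p2] | nlinarith only [e1', e10, e11, e2, e4', hZ', p1, p2])

end H98KB

end S_H98_KB_Vli

section S_H98_KB_Vra

/-!
# Vra : the terms `R'`, `ΛQ`, `Q''` in the virial functional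

`v = vf k δ ε`, `|Ψ| ≤ (1+η)χ ≤ 1+η`.
* `VR`: `|∫Ψ v vf(R')| ≤ (1+η)(∫χv²)^{1/2}(∫χ (vf R')²)^{1/2}`; `vf_wt0`, `vf_wt` with `W=ch B`
  (`|ch''| ≤ (8/B²)ch`, `δ ≤ 1/16`), `|R'| ≤ C|ε|(|ε|+|ε'|) ≤ C s(|ε|+|ε'|)` (`Rd_le`).
* `VQ`: `|∫Ψ v h| ≤ (1+η)(∫loc v²)^{1/2}(∫ (χ/w)h²)^{1/2}`, `h = vf k δ ΛQ` or `vf k δ Q''` in `Cl (3/4)(3/4)`, `1/w ≤ e^{|y|/4}`,
  `χ ≤ 1`: the constant is independent of `B`.
-/

open MeasureTheory Filter Topology Set
open scoped ContDiff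

namespace H98KB

private theorem Vra_ch_pos (B y : ℝ) : 0 < ch B y := by
  rw [ch_eq']; exact se2_pos _ _

private theorem Vra_ch_le_one (B y : ℝ) : ch B y ≤ 1 := by
  rw [ch_eq']; exact se2_le_one _ _

private theorem Vra_psi_sq {k : ℕ} {η : ℝ} (hη : 0 ≤ η) (γ y : ℝ) :
    psi k η γ y ^ 2 ≤ (1 + η) ^ 2 := by
  have h := psi_abs (k := k) hη γ y
  have h1 := abs_nonneg (psi k η γ y)
  rw [← sq_abs]
  exact pow_le_pow_left₀ h1 h 2

private theorem Vra_chW {δ B : ℝ} (hδ : 0 < δ) (hδ' : δ ≤ 1 / 16) (hB : 16 ≤ B) (y : ℝ) :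
    δ * |deriv (deriv (ch B)) y| ≤ ch B y / 4 := by
  have h := ch2_le (B := B) (by linarith) y
  have h1 := Vra_ch_pos B y
  have h2 : 8 / B ^ 2 ≤ 1 := by
    rw [div_le_one (by positivity)]
    nlinarith
  have h3 : |deriv (deriv (ch B)) y| ≤ ch B y := by
    refine h.trans ?_
    calc 8 / B ^ 2 * ch B y ≤ 1 * ch B y := by gcongr
      _ = ch B y := one_mul _
  calc δ * |deriv (deriv (ch B)) y| ≤ 1 / 16 * ch B y := by
        apply mul_le_mul hδ' h3 (abs_nonneg _) (by norm_num)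
    _ ≤ ch B y / 4 := by linarith

/-- Cauchy–Schwarz against a weight `W` with `ch² ≤ c · W · w`. -/
private theorem Vra_int2 {p q pw qw : ℝ} {a W : ℝ → ℝ} (ha : Cl p q a) (hW : Cl pw qw W)
    (h1 : 0 < 2 * p + pw) (h2 : 0 < 2 * q + qw) : Integrable (fun y => W y * (a y) ^ 2) := by
  have h := Cl_mul hW (Cl_mul ha ha)
  have e1 : pw + (p + p) = 2 * p + pw := by ring
  have e2 : qw + (q + q) = 2 * q + qw := by ring
  rw [e1, e2] at h
  refine (Cl_int h h1 h2).congr (Filter.Eventually.of_forall fun y => ?_)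
  simp only
  ring

theorem VR (k : ℕ) (hk : 2 ≤ k) (γ η δ : ℝ) (hη : 0 ≤ η) (hδ : 0 < δ) (hδ' : δ ≤ 1 / 16) :
    ∃ C : ℝ, 0 < C ∧ ∀ B : ℝ, 16 ≤ B → ∀ (p q s : ℝ) (ε : ℝ → ℝ), 0 < p → p ≤ 1 → 0 < q → q ≤ 1 →
    Cl p q ε → s ≤ 1 → (∀ y, |ε y| ≤ s) →
    |∫ y, Psi k η γ B y * (vf k δ ε y * vf k δ (deriv (Rf k ε)) y)| ≤
      C * s * ∫ y, ch B y * ((ε y) ^ 2 + (deriv ε y) ^ 2) := by
  have hk1 : 1 ≤ k := by omega
  obtain ⟨C1, hC1, H1⟩ := vf_wt0 k hk1 δ hδ hδ'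
  obtain ⟨C2, hC2, H2⟩ := Rd_le k hk
  refine ⟨√((1 + η) ^ 2 * (C1 * (2 * C2 ^ 2))) * √C1, by positivity, ?_⟩
  intro B hB p q s ε hp hp1 hq hq1 hε hs1 hs
  have hB0 : 0 < B := by linarith
  have hp2 : |p| ≤ 2 := by rw [abs_of_pos hp]; linarith
  have hq2 : |q| ≤ 2 := by rw [abs_of_pos hq]; linarith
  have hs0 : 0 ≤ s := (abs_nonneg _).trans (hs 0)
  have hB2 : 0 < 2 / B := by positivity
  have hR : Cl p q (deriv (Rf k ε)) := Cl_der (Cl_Rf hk1 hp.le hq.le hε)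
  have hv : Cl p q (vf k δ ε) := Cl_vf hk1 hδ hδ' hp2 hq2 hε
  have hw : Cl p q (vf k δ (deriv (Rf k ε))) := Cl_vf hk1 hδ hδ' hp2 hq2 hR
  have hε1 := Cl_der hε
  have hch := Cl_ch hB0
  have hi1 : 0 < 2 * p + 2 / B := by linarith
  have hi2 : 0 < 2 * q + 2 / B := by linarith
  have iv := Vra_int2 hv hch hi1 hi2
  have iw := Vra_int2 hw hch hi1 hi2
  have ie := Vra_int2 hε hch hi1 hi2
  have ie1 := Vra_int2 hε1 hch hi1 hi2
  have iR := Vra_int2 hR hch hi1 hi2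
  have iN : Integrable (fun y => ch B y * ((ε y) ^ 2 + (deriv ε y) ^ 2)) := by
    refine (ie.add ie1).congr (Filter.Eventually.of_forall fun y => ?_)
    simp only [Pi.add_apply]; ring
  set N := ∫ y, ch B y * ((ε y) ^ 2 + (deriv ε y) ^ 2) with hN
  have hN0 : 0 ≤ N := integral_nonneg fun y => mul_nonneg (Vra_ch_pos B y).le (by positivity)
  have hA : ∫ y, ch B y * (vf k δ ε y) ^ 2 ≤ C1 * N := by
    refine (H1 p q _ _ ε (ch B) hp2 hq2 hε hch (Vra_ch_pos B) (Vra_chW hδ hδ' hB) hi1 hi2).trans ?_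
    refine mul_le_mul_of_nonneg_left (integral_mono ie iN fun y => ?_) hC1.le
    have := Vra_ch_pos B y
    have h2 := sq_nonneg (deriv ε y)
    nlinarith
  have hD : ∫ y, ch B y * (vf k δ (deriv (Rf k ε)) y) ^ 2 ≤ C1 * (2 * C2 ^ 2 * s ^ 2 * N) := by
    refine (H1 p q _ _ _ (ch B) hp2 hq2 hR hch (Vra_ch_pos B) (Vra_chW hδ hδ' hB) hi1 hi2).trans ?_
    refine mul_le_mul_of_nonneg_left ?_ hC1.le
    rw [hN, ← integral_const_mul]
    refine integral_mono iR (iN.const_mul _) fun y => ?_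
    have h1 := H2 p q ε hε y ((hs y).trans hs1)
    have h2 : |deriv (Rf k ε) y| ≤ C2 * s * (|ε y| + |deriv ε y|) := by
      refine h1.trans ?_
      have := hs y
      gcongr
    have h3 : (deriv (Rf k ε) y) ^ 2 ≤ 2 * C2 ^ 2 * s ^ 2 * ((ε y) ^ 2 + (deriv ε y) ^ 2) := by
      rw [← sq_abs]
      calc |deriv (Rf k ε) y| ^ 2 ≤ (C2 * s * (|ε y| + |deriv ε y|)) ^ 2 :=
            pow_le_pow_left₀ (abs_nonneg _) h2 2
        _ = (C2 ^ 2 * s ^ 2) * (|ε y| + |deriv ε y|) ^ 2 := by ring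
        _ ≤ (C2 ^ 2 * s ^ 2) * (2 * (|ε y| ^ 2 + |deriv ε y| ^ 2)) := by
            apply mul_le_mul_of_nonneg_left _ (by positivity)
            (first | linarith only [sq_nonneg (|ε y| - |deriv ε y|)] | nlinarith only [sq_nonneg (|ε y| - |deriv ε y|)])
        _ = _ := by rw [sq_abs, sq_abs]; ring
    have h4 := (Vra_ch_pos B y).le
    calc ch B y * deriv (Rf k ε) y ^ 2
        ≤ ch B y * (2 * C2 ^ 2 * s ^ 2 * ((ε y) ^ 2 + (deriv ε y) ^ 2)) :=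
          mul_le_mul_of_nonneg_left h3 h4
      _ = _ := by ring
  -- Cauchy-Schwarz
  have hψ : Continuous (psi k η γ) := Cl_cont (Cl_psi k η γ)
  have hcc : Continuous (ch B) := Cl_cont hch
  have hvc := Cl_cont hv
  have hwc := Cl_cont hw
  have key := cs_wt (F := vf k δ ε)
    (φ := fun y => psi k η γ y * ch B y * vf k δ (deriv (Rf k ε)) y) (W := ch B) hvc
    (by fun_prop) hcc (Vra_ch_pos B) iv (by
      refine Integrable.mono' (iw.const_mul ((1 + η) ^ 2)) ?_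
        (Filter.Eventually.of_forall fun y => ?_)
      · exact (Continuous.div (by fun_prop) hcc fun y => (Vra_ch_pos B y).ne').aestronglyMeasurable
      · have h0 := Vra_ch_pos B y
        rw [Real.norm_eq_abs, abs_of_nonneg (by positivity)]
        have e : (psi k η γ y * ch B y * vf k δ (deriv (Rf k ε)) y) ^ 2 / ch B y =
            psi k η γ y ^ 2 * (ch B y * vf k δ (deriv (Rf k ε)) y ^ 2) := by
          field_simp
        rw [e]
        exact mul_le_mul_of_nonneg_right (Vra_psi_sq hη γ y) (by positivity))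
  have e1 : ∫ y, Psi k η γ B y * (vf k δ ε y * vf k δ (deriv (Rf k ε)) y) =
      ∫ y, vf k δ ε y * (psi k η γ y * ch B y * vf k δ (deriv (Rf k ε)) y) := by
    congr 1
    funext y
    simp only [Psi]
    ring
  rw [e1]
  refine key.2.trans ?_
  have e2 : ∫ y, (psi k η γ y * ch B y * vf k δ (deriv (Rf k ε)) y) ^ 2 / ch B y ≤
      (1 + η) ^ 2 * (C1 * (2 * C2 ^ 2)) * (s ^ 2 * N) := by
    calc ∫ y, (psi k η γ y * ch B y * vf k δ (deriv (Rf k ε)) y) ^ 2 / ch B y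
        ≤ ∫ y, (1 + η) ^ 2 * (ch B y * vf k δ (deriv (Rf k ε)) y ^ 2) := by
          refine integral_mono_of_nonneg (Filter.Eventually.of_forall fun y => ?_)
            (iw.const_mul _) (Filter.Eventually.of_forall fun y => ?_)
          · have h0 := Vra_ch_pos B y
            simp only [Pi.zero_apply]
            positivity
          · have h0 := Vra_ch_pos B y
            have e : (psi k η γ y * ch B y * vf k δ (deriv (Rf k ε)) y) ^ 2 / ch B y =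
                psi k η γ y ^ 2 * (ch B y * vf k δ (deriv (Rf k ε)) y ^ 2) := by
              field_simp
            simp only [e]
            exact mul_le_mul_of_nonneg_right (Vra_psi_sq hη γ y) (by positivity)
      _ = (1 + η) ^ 2 * ∫ y, ch B y * vf k δ (deriv (Rf k ε)) y ^ 2 := integral_const_mul _ _
      _ ≤ (1 + η) ^ 2 * (C1 * (2 * C2 ^ 2 * s ^ 2 * N)) :=
          mul_le_mul_of_nonneg_left hD (by positivity)
      _ = _ := by ring
  calc √(∫ y, (psi k η γ y * ch B y * vf k δ (deriv (Rf k ε)) y) ^ 2 / ch B y) *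
        √(∫ y, ch B y * vf k δ ε y ^ 2)
      ≤ √((1 + η) ^ 2 * (C1 * (2 * C2 ^ 2)) * (s ^ 2 * N)) * √(C1 * N) :=
        mul_le_mul (Real.sqrt_le_sqrt e2) (Real.sqrt_le_sqrt hA) (Real.sqrt_nonneg _)
          (Real.sqrt_nonneg _)
    _ = √((1 + η) ^ 2 * (C1 * (2 * C2 ^ 2))) * √C1 * s * (√N * √N) := by
        rw [Real.sqrt_mul (by positivity), Real.sqrt_mul (by positivity) N,
          Real.sqrt_sq hs0, Real.sqrt_mul hC1.le]
        ring
    _ = _ := by rw [Real.mul_self_sqrt hN0]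

private theorem Vra_h (k : ℕ) (γ η : ℝ) (hγ : 0 < γ) (hγ' : γ ≤ 1 / 8) (hη : 0 ≤ η) {h : ℝ → ℝ}
    (hh : Cl (3 / 4) (3 / 4) h) :
    ∃ C : ℝ, 0 < C ∧ ∀ B : ℝ, 16 ≤ B → ∀ (p q : ℝ) (v : ℝ → ℝ), 0 < p → 0 < q → Cl p q v →
    |∫ y, Psi k η γ B y * (v y * h y)| ≤ C * √(∫ y, loc γ B y * (v y) ^ 2) := by
  obtain ⟨C, hC, hb⟩ := Cl_bnd hh
  have hbi : Integrable (bd (5 / 4) (5 / 4)) := bd_int (by norm_num) (by norm_num)
  have hI0 : 0 ≤ ∫ y, bd (5 / 4) (5 / 4) y := integral_nonneg fun y => (bd_pos _ _ y).le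
  refine ⟨√((1 + η) ^ 2 * C ^ 2 * ∫ y, bd (5 / 4) (5 / 4) y) + 1, by positivity, ?_⟩
  intro B hB p q v hp hq hv
  have hB0 : 0 < B := by linarith
  have hψ : Continuous (psi k η γ) := Cl_cont (Cl_psi k η γ)
  have hch := Cl_ch hB0
  have hcc : Continuous (ch B) := Cl_cont hch
  have hse : Continuous (se2 γ) := Cl_cont (Cl_se2 hγ)
  have hvc := Cl_cont hv
  have hhc := Cl_cont hh
  have hlc : Continuous (loc γ B) := by
    unfold loc
    exact hse.mul hcc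
  have hpt : ∀ y, (psi k η γ y * ch B y * h y) ^ 2 / loc γ B y ≤
      (1 + η) ^ 2 * C ^ 2 * bd (5 / 4) (5 / 4) y := by
    intro y
    have h0 := Vra_ch_pos B y
    have h1 := se2_pos γ y
    have h2 := se2_lo γ y
    have h3 := Vra_ch_le_one B y
    have e : (psi k η γ y * ch B y * h y) ^ 2 / loc γ B y =
        psi k η γ y ^ 2 * ch B y * (h y ^ 2 / se2 γ y) := by
      unfold loc
      field_simp
    rw [e]
    have h4 : h y ^ 2 / se2 γ y ≤ C ^ 2 * bd (5 / 4) (5 / 4) y := by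
      rw [div_le_iff₀ h1]
      have h5 : h y ^ 2 ≤ (C * bd (3 / 4) (3 / 4) y) ^ 2 := by
        rw [← sq_abs]
        exact pow_le_pow_left₀ (abs_nonneg _) (hb y) 2
      have h6 : (bd (3 / 4) (3 / 4) y) ^ 2 ≤ bd (5 / 4) (5 / 4) y * se2 γ y := by
        calc (bd (3 / 4) (3 / 4) y) ^ 2 = Real.exp (-(3 / 2 * |y|)) := by
              rw [bd_abs, ← Real.exp_nat_mul]; congr 1; push_cast; ring
          _ ≤ Real.exp (-(5 / 4 * |y|)) * Real.exp (-(2 * |γ * y|)) := by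
              rw [← Real.exp_add, Real.exp_le_exp, abs_mul, abs_of_pos hγ]
              nlinarith [abs_nonneg y]
          _ ≤ Real.exp (-(5 / 4 * |y|)) * se2 γ y :=
              mul_le_mul_of_nonneg_left h2 (Real.exp_pos _).le
          _ = _ := by rw [bd_abs]
      calc h y ^ 2 ≤ (C * bd (3 / 4) (3 / 4) y) ^ 2 := h5
        _ = C ^ 2 * (bd (3 / 4) (3 / 4) y) ^ 2 := by ring
        _ ≤ C ^ 2 * (bd (5 / 4) (5 / 4) y * se2 γ y) :=
            mul_le_mul_of_nonneg_left h6 (by positivity)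
        _ = _ := by ring
    calc psi k η γ y ^ 2 * ch B y * (h y ^ 2 / se2 γ y)
        ≤ ((1 + η) ^ 2 * 1) * (C ^ 2 * bd (5 / 4) (5 / 4) y) := by
          apply mul_le_mul _ h4 (by positivity) (by positivity)
          exact mul_le_mul (Vra_psi_sq hη γ y) h3 h0.le (by positivity)
      _ = _ := by ring
  have key := cs_wt (F := v) (φ := fun y => psi k η γ y * ch B y * h y) (W := loc γ B) hvc
    (by fun_prop) hlc (loc_pos γ B) (by
      have iv : Integrable (fun y => 1 * (v y) ^ 2) :=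
        Vra_int2 hv (Cl_const 1) (by linarith) (by linarith)
      refine Integrable.mono' iv (by fun_prop : Continuous _).aestronglyMeasurable
        (Filter.Eventually.of_forall fun y => ?_)
      have h0 := loc_pos γ B y
      rw [Real.norm_eq_abs, abs_of_nonneg (by positivity)]
      exact mul_le_mul_of_nonneg_right (loc_le_one γ B y) (sq_nonneg _)) (by
      refine Integrable.mono' (hbi.const_mul ((1 + η) ^ 2 * C ^ 2)) ?_
        (Filter.Eventually.of_forall fun y => ?_)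
      · exact (Continuous.div (by fun_prop) hlc fun y => (loc_pos γ B y).ne').aestronglyMeasurable
      · have h0 := loc_pos γ B y
        rw [Real.norm_eq_abs, abs_of_nonneg (by positivity)]
        exact hpt y)
  have e1 : ∫ y, Psi k η γ B y * (v y * h y) =
      ∫ y, v y * (psi k η γ y * ch B y * h y) := by
    congr 1
    funext y
    simp only [Psi]
    ring
  rw [e1]
  refine key.2.trans (mul_le_mul_of_nonneg_right ?_ (Real.sqrt_nonneg _))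
  have e2 : ∫ y, (psi k η γ y * ch B y * h y) ^ 2 / loc γ B y ≤
      (1 + η) ^ 2 * C ^ 2 * ∫ y, bd (5 / 4) (5 / 4) y := by
    rw [← integral_const_mul]
    refine integral_mono_of_nonneg (Filter.Eventually.of_forall fun y => ?_)
      (hbi.const_mul _) (Filter.Eventually.of_forall hpt)
    have h0 := loc_pos γ B y
    simp only [Pi.zero_apply]
    positivity
  have := Real.sqrt_le_sqrt e2
  linarith

theorem VQ (k : ℕ) (hk : 2 ≤ k) (γ η δ : ℝ) (hγ : 0 < γ) (hγ' : γ ≤ 1 / 8) (hη : 0 ≤ η) (hδ : 0 < δ)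
    (hδ' : δ ≤ 1 / 16) :
    ∃ C : ℝ, 0 < C ∧ ∀ B : ℝ, 16 ≤ B → ∀ (p q : ℝ) (ε : ℝ → ℝ), 0 < p → p ≤ 1 → 0 < q → q ≤ 1 →
    Cl p q ε →
    |∫ y, Psi k η γ B y * (vf k δ ε y * vf k δ (Lam k (Qf k)) y)| ≤
      C * √(∫ y, loc γ B y * (vf k δ ε y) ^ 2) ∧
    |∫ y, Psi k η γ B y * (vf k δ ε y * vf k δ (deriv (deriv (Qf k))) y)| ≤
      C * √(∫ y, loc γ B y * (vf k δ ε y) ^ 2) := by
  have hk1 : 1 ≤ k := by omega
  have h34 : |(3 / 4 : ℝ)| ≤ 2 := by rw [abs_of_pos (by norm_num)]; norm_num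
  have hA : Cl (3 / 4) (3 / 4) (vf k δ (Lam k (Qf k))) :=
    Cl_vf hk1 hδ hδ' h34 h34 (Cl_LamQ hk1 (by norm_num))
  have hD : Cl (3 / 4) (3 / 4) (vf k δ (deriv (deriv (Qf k)))) :=
    Cl_vf hk1 hδ hδ' h34 h34
      (Cl_mono (Cl_der (Cl_der (Cl_Qf hk1))) (by norm_num) (by norm_num))
  obtain ⟨C1, hC1, H1⟩ := Vra_h k γ η hγ hγ' hη hA
  obtain ⟨C2, hC2, H2⟩ := Vra_h k γ η hγ hγ' hη hD
  refine ⟨max C1 C2, lt_max_of_lt_left hC1, ?_⟩
  intro B hB p q ε hp hp1 hq hq1 hε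
  have hp2 : |p| ≤ 2 := by rw [abs_of_pos hp]; linarith
  have hq2 : |q| ≤ 2 := by rw [abs_of_pos hq]; linarith
  have hv : Cl p q (vf k δ ε) := Cl_vf hk1 hδ hδ' hp2 hq2 hε
  exact ⟨(H1 B hB p q _ hp hq hv).trans
      (mul_le_mul_of_nonneg_right (le_max_left _ _) (Real.sqrt_nonneg _)),
    (H2 B hB p q _ hp hq hv).trans
      (mul_le_mul_of_nonneg_right (le_max_right _ _) (Real.sqrt_nonneg _))⟩

end H98KB

end S_H98_KB_Vra

section S_H98_KB_Vrb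

/-!
# Vrb : the terms `ε'`, `ε''`, `e'` in the virial functional

`v = vf k δ ε`, `|ψ| ≤ 1+η`, `|ψ'| ≤ C w`, `|Ψ'| ≤ C wχ + (2(1+η)/B)χ`, `|Ψ''| ≤ Cχ`.
* `L ε' = (Lε)' + (Q^k)'ε`, so `vf ε' = v' + Sm((Q^k)'ε)`; `∫Ψvv' = -(1/2)∫Ψ'v²`;
  `|∫Ψ v Sm h| ≤ (1+η)(∫wχv²)^{1/2}(∫(χ/w)(Sm h)²)^{1/2}`, weight `W=χ cosh²(γy)` as in `Vcu`, `h=(Q^k)'ε`,
  `W h² ≤ C wχε²`.
* `L ε'' = (Lε)'' + (Q^k)''ε + 2(Q^k)'ε'`, `vf ε'' = v'' + Sm(...)`; `∫Ψvv'' = -∫Ψv'²+(1/2)∫Ψ''v²`; then `Sm_wt`, `vf_wt`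
  with `W=ch B`.
* `e'`: Cauchy-Schwarz, `vf_wt0` with `W = ch B`.
-/

open MeasureTheory Filter Topology Set
open scoped ContDiff

namespace H98KB

private lemma Vrb_dom {F G : ℝ → ℝ} (hG : Integrable G) (h : ∀ y, |F y| ≤ G y) :
    |∫ y, F y| ≤ ∫ y, G y := by
  have h1 := norm_integral_le_of_norm_le (f := F) hG (Eventually.of_forall fun y => by
    rw [Real.norm_eq_abs]; exact h y)
  rwa [Real.norm_eq_abs] at h1

private lemma Vrb_int {a b c d : ℝ} {W f : ℝ → ℝ} (hW : Cl c d W) (hf : Cl a b f)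
    (h1 : 0 < 2 * a + c) (h2 : 0 < 2 * b + d) : Integrable (fun y => W y * (f y) ^ 2) := by
  refine Cl_int (Cl_mul hW (Cl_pow hf 2)) ?_ ?_
  · push_cast
    linarith
  · push_cast
    linarith

private lemma Vrb_ch2 {δ B : ℝ} (hδ : 0 < δ) (hδ' : δ ≤ 1 / 16) (hB : 16 ≤ B) (y : ℝ) :
    δ * |deriv (deriv (ch B)) y| ≤ ch B y / 4 := by
  have h1 := ch2_le (B := B) (by linarith) y
  have h2 : 0 < ch B y := by rw [ch_eq']; exact se2_pos _ _
  have h3 : 8 / B ^ 2 ≤ 1 := by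
    rw [div_le_one (by positivity)]
    nlinarith
  have h4 : |deriv (deriv (ch B)) y| ≤ ch B y :=
    h1.trans (by nlinarith)
  have h5 := mul_le_mul hδ' h4 (abs_nonneg _) (by norm_num)
  linarith

private lemma Vrb_Qk0 {k : ℕ} (hk : 1 ≤ k) : Cl 0 0 (deriv (fun y => Qf k y ^ k)) :=
  Cl_mono (Cl_der (Cl_Qk hk)) (Nat.cast_nonneg k) (Nat.cast_nonneg k)

/-- `vf ε' = (vf ε)' + Sm ((Q^k)' ε)` -/
private lemma Vrb_id {k : ℕ} (hk : 1 ≤ k) {δ p q : ℝ} {ε : ℝ → ℝ} (hδ : 0 < δ)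
    (hδ' : δ ≤ 1 / 16) (hp : |p| ≤ 2) (hq : |q| ≤ 2) (hε : Cl p q ε) (y : ℝ) :
    vf k δ (deriv ε) y = deriv (vf k δ ε) y +
      Sm δ (fun y => deriv (fun y => Qf k y ^ k) y * ε y) y := by
  have h1 : Lop k (deriv ε) = fun y => deriv (Lop k ε) y +
      deriv (fun y => Qf k y ^ k) y * ε y := by
    funext z
    have e1 := Cl_hd (Cl_der (Cl_der hε)) z
    have e2 := Cl_hd hε z
    have e3 := Cl_hd (Cl_Qk hk) z
    have e4 : HasDerivAt (Lop k ε) (-deriv (deriv (deriv ε)) z + deriv ε z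
        - (deriv (fun y => Qf k y ^ k) z * ε z + Qf k z ^ k * deriv ε z)) z :=
      (e1.neg.add e2).sub (e3.mul e2)
    rw [e4.deriv]
    unfold Lop
    ring
  have hL := Cl_Lop hk hε
  have hh : Cl p q (fun y => deriv (fun y => Qf k y ^ k) y * ε y) := Cl_mul0 (Vrb_Qk0 hk) hε
  show Sm δ (Lop k (deriv ε)) y = deriv (Sm δ (Lop k ε)) y + _
  rw [h1, Sm_add hδ hδ' hp hq hp hq (Cl_der hL) hh, Sm_deriv hδ hδ' hp hq hL]

private lemma Vrb_psi_hd (k : ℕ) (η γ y : ℝ) : HasDerivAt (psi k η γ)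
    ((k : ℝ) / 2 * (1 - th k y ^ 2) + η * (γ * (1 - Real.tanh (γ * y) ^ 2))) y :=
  (th_hd k y).add ((tanh_hd γ y).const_mul η)

private lemma Vrb_exp {k : ℕ} (hk : 5 ≤ k) {γ : ℝ} (hγ : 0 < γ) (hγ' : γ ≤ 1 / 8) (y : ℝ) :
    Real.exp (-((k : ℝ) * |y|)) ≤ se2 γ y := by
  refine le_trans ?_ (se2_lo γ y)
  rw [Real.exp_le_exp, abs_mul, abs_of_pos hγ]
  have h1 : (5 : ℝ) ≤ k := by exact_mod_cast hk
  have h2 := abs_nonneg y
  nlinarith

private lemma Vrb_psi1 {k : ℕ} (hk : 5 ≤ k) {γ η : ℝ} (hγ : 0 < γ) (hγ' : γ ≤ 1 / 8)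
    (hη : 0 ≤ η) (y : ℝ) : |deriv (psi k η γ) y| ≤ (2 * k + η) * se2 γ y := by
  have hk0 : (0 : ℝ) ≤ k := Nat.cast_nonneg k
  rw [(Vrb_psi_hd k η γ y).deriv, th_eq, ← se2_eq, ← se2_eq]
  have h1 := se2_pos ((k : ℝ) / 2) y
  have h2 := se2_pos γ y
  have h3 : se2 ((k : ℝ) / 2) y ≤ 4 * se2 γ y := by
    refine (se2_hi _ y).trans ?_
    have h4 := Vrb_exp hk hγ hγ' y
    have h5 : 2 * |(k : ℝ) / 2 * y| = (k : ℝ) * |y| := by
      rw [abs_mul, abs_of_nonneg (by positivity)]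
      ring
    rw [h5]
    linarith
  rw [abs_of_nonneg (by positivity)]
  have h6 : (k : ℝ) / 2 * se2 ((k : ℝ) / 2) y ≤ (k : ℝ) / 2 * (4 * se2 γ y) :=
    mul_le_mul_of_nonneg_left h3 (by positivity)
  have h7 : η * (γ * se2 γ y) ≤ η * (1 * se2 γ y) :=
    mul_le_mul_of_nonneg_left (mul_le_mul_of_nonneg_right (by linarith) h2.le) hη
  (first | linarith only [h6, h7] | nlinarith only [h6, h7])

private lemma Vrb_Psi1 {k : ℕ} (hk : 5 ≤ k) {γ η B : ℝ} (hγ : 0 < γ) (hγ' : γ ≤ 1 / 8)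
    (hη : 0 ≤ η) (hB : 16 ≤ B) (y : ℝ) : |deriv (Psi k η γ B) y| ≤
      (2 * k + η) * loc γ B y + 2 * (1 + η) / B * ch B y := by
  have hB0 : 0 < B := by linarith
  have h1 : HasDerivAt (Psi k η γ B) (deriv (psi k η γ) y * ch B y +
      psi k η γ y * deriv (ch B) y) y :=
    (Cl_hd (Cl_psi k η γ) y).mul (Cl_hd (Cl_ch hB0) y)
  have hc : 0 < ch B y := by rw [ch_eq']; exact se2_pos _ _
  rw [h1.deriv]
  refine (abs_add_le _ _).trans ?_
  rw [abs_mul, abs_mul, abs_of_pos hc]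
  have h2 := mul_le_mul_of_nonneg_right (Vrb_psi1 hk hγ hγ' hη y) hc.le
  have h3 := mul_le_mul (psi_abs (k := k) hη γ y) (ch1_le (B := B) (by linarith) y) (abs_nonneg _)
    (by linarith)
  have h4 : (2 * (k : ℝ) + η) * se2 γ y * ch B y = (2 * k + η) * loc γ B y := by
    unfold loc
    ring
  have h5 : (1 + η) * (2 / B * ch B y) = 2 * (1 + η) / B * ch B y := by ring
  rw [h4] at h2
  rw [h5] at h3
  linarith

private lemma Vrb_Psi_abs {k : ℕ} {γ η B : ℝ} (hη : 0 ≤ η) (y : ℝ) :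
    |Psi k η γ B y| ≤ (1 + η) * ch B y := by
  have hc : 0 < ch B y := by rw [ch_eq']; exact se2_pos _ _
  unfold Psi
  rw [abs_mul, abs_of_pos hc]
  exact mul_le_mul_of_nonneg_right (psi_abs hη γ y) hc.le

private lemma Vrb_chpos (B y : ℝ) : 0 < ch B y := by
  rw [ch_eq']
  exact se2_pos _ _

/-- the weight `χ cosh²(γ y)` -/
private noncomputable def Vrb_W (γ B y : ℝ) : ℝ := ch B y * Real.cosh (γ * y) ^ 2

private lemma Vrb_ClW {γ B : ℝ} (hγ : 0 < γ) (hB : 0 < B) :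
    Cl (2 / B + -(2 * γ)) (2 / B + -(2 * γ)) (Vrb_W γ B) := by
  have h1 : Cl (-(2 * γ)) (-(2 * γ)) (fun y => Real.cosh (γ * y) ^ 2) := by
    have e : (fun y => Real.cosh (γ * y) ^ 2) = fun y =>
        (1 / 4 * Real.exp (2 * γ * y) + 1 / 4 * Real.exp (-(2 * γ) * y)) + 1 / 2 := by
      funext y
      rw [Real.cosh_eq]
      have e1 : Real.exp (2 * γ * y) = Real.exp (γ * y) * Real.exp (γ * y) := by
        rw [← Real.exp_add]
        congr 1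
        ring
      have e2 : Real.exp (-(2 * γ) * y) = Real.exp (-(γ * y)) * Real.exp (-(γ * y)) := by
        rw [← Real.exp_add]
        congr 1
        ring
      have e3 : Real.exp (γ * y) * Real.exp (-(γ * y)) = 1 := by
        rw [← Real.exp_add, add_neg_cancel, Real.exp_zero]
      rw [e1, e2]
      linear_combination (1 / 2) * e3
    rw [e]
    refine Cl_add (Cl_add (Cl_smul _ ?_) (Cl_smul _ ?_)) ?_
    · exact Cl_mono (Cl_exp (2 * γ)) le_rfl (by linarith)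
    · exact Cl_mono (Cl_exp (-(2 * γ))) (by linarith) le_rfl
    · exact Cl_mono (Cl_const _) (by linarith) (by linarith)
  exact Cl_mul (Cl_ch hB) h1

private lemma Vrb_W2 {γ B δ : ℝ} (hγ : 0 < γ) (hγ' : γ ≤ 1 / 8) (hB : 16 ≤ B) (hδ : 0 < δ)
    (hδ' : δ ≤ 1 / 16) (y : ℝ) : δ * |deriv (deriv (Vrb_W γ B)) y| ≤ Vrb_W γ B y / 4 := by
  have hB0 : 0 < B := by linarith
  -- logarithmic derivative
  let a : ℝ → ℝ := fun y => -(2 / B) * Real.tanh (1 / B * y) + 2 * γ * Real.tanh (γ * y)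
  have hW1 : ∀ y, HasDerivAt (Vrb_W γ B) (Vrb_W γ B y * a y) y := by
    intro y
    have e1 : HasDerivAt (ch B) (-2 * (1 / B) * Real.tanh (1 / B * y) * ch B y) y := by
      have h := se2_hd (1 / B) y
      have h' : ch B = se2 (1 / B) := by
        funext z
        exact ch_eq' B z
      rw [h']
      exact h
    have e2 : HasDerivAt (fun y => Real.cosh (γ * y)) (Real.sinh (γ * y) * γ) y := by
      have h0 : HasDerivAt (fun y : ℝ => γ * y) γ y := by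
        simpa using (hasDerivAt_id y).const_mul γ
      exact h0.cosh
    have e3 : HasDerivAt (Vrb_W γ B) (-2 * (1 / B) * Real.tanh (1 / B * y) * ch B y *
        Real.cosh (γ * y) ^ 2 + ch B y * (((2 : ℕ) : ℝ) * Real.cosh (γ * y) ^ (2 - 1) *
        (Real.sinh (γ * y) * γ))) y := e1.mul (e2.pow 2)
    have hc : Real.cosh (γ * y) ≠ 0 := (Real.cosh_pos _).ne'
    refine e3.congr_deriv ?_
    show _ = ch B y * Real.cosh (γ * y) ^ 2 *
      (-(2 / B) * Real.tanh (1 / B * y) + 2 * γ * Real.tanh (γ * y))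
    rw [Real.tanh_eq_sinh_div_cosh (γ * y)]
    field_simp
    ring
  have ha : ∀ y, HasDerivAt a (-(2 / B) * (1 / B * (1 - Real.tanh (1 / B * y) ^ 2)) +
      2 * γ * (γ * (1 - Real.tanh (γ * y) ^ 2))) y := fun y =>
    ((tanh_hd (1 / B) y).const_mul _).add ((tanh_hd γ y).const_mul _)
  have hd1 : deriv (Vrb_W γ B) = fun y => Vrb_W γ B y * a y := funext fun y => (hW1 y).deriv
  have hd2 : deriv (deriv (Vrb_W γ B)) y = Vrb_W γ B y * (a y * a y +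
      (-(2 / B) * (1 / B * (1 - Real.tanh (1 / B * y) ^ 2)) +
      2 * γ * (γ * (1 - Real.tanh (γ * y) ^ 2)))) := by
    rw [hd1]
    refine (((hW1 y).mul (ha y)).deriv).trans ?_
    ring
  have hWp : 0 < Vrb_W γ B y := mul_pos (Vrb_chpos B y) (pow_pos (Real.cosh_pos _) 2)
  have t1 := abs_lt.1 (tanh_abs_lt (1 / B * y))
  have t2 := abs_lt.1 (tanh_abs_lt (γ * y))
  have b1 : 2 / B ≤ 1 / 8 := by
    rw [div_le_div_iff₀ hB0 (by norm_num)]
    linarith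
  have b0 : 0 < 2 / B := by positivity
  have b2 : 1 / B ≤ 1 / 16 := by
    rw [div_le_div_iff₀ hB0 (by norm_num)]
    linarith
  have b3 : 0 < 1 / B := by positivity
  have ha1 : |a y| ≤ 1 := by
    show |-(2 / B) * Real.tanh (1 / B * y) + 2 * γ * Real.tanh (γ * y)| ≤ 1
    have f1 : |2 / B * Real.tanh (1 / B * y)| ≤ 1 / 8 * 1 := by
      rw [abs_mul, abs_of_pos b0]
      exact mul_le_mul b1 (tanh_abs_lt _).le (abs_nonneg _) (by norm_num)
    have f2 : |2 * γ * Real.tanh (γ * y)| ≤ 1 / 4 * 1 := by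
      rw [abs_mul, abs_of_pos (by positivity)]
      exact mul_le_mul (by linarith) (tanh_abs_lt _).le (abs_nonneg _) (by norm_num)
    rw [abs_le] at f1 f2 ⊢
    constructor
    · linarith [f1.2, f2.1]
    · linarith [f1.1, f2.2]
  have ha2 : |a y * a y| ≤ 1 := by
    rw [abs_mul]
    have := mul_le_mul ha1 ha1 (abs_nonneg _) (by norm_num)
    linarith
  have hs1 : 0 ≤ 1 - Real.tanh (1 / B * y) ^ 2 ∧ 1 - Real.tanh (1 / B * y) ^ 2 ≤ 1 := by
    constructor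
    · (first | linarith only [t1.1, t1.2, hδ, hδ', t1] | nlinarith only [t1.1, t1.2, hδ, hδ', t1])
    · linarith [sq_nonneg (Real.tanh (1 / B * y))]
  have hs2 : 0 ≤ 1 - Real.tanh (γ * y) ^ 2 ∧ 1 - Real.tanh (γ * y) ^ 2 ≤ 1 := by
    constructor
    · (first | linarith only [t2.1, t2.2, hδ, hδ', t2] | nlinarith only [t2.1, t2.2, hδ, hδ', t2])
    · linarith [sq_nonneg (Real.tanh (γ * y))]
  have g1 : 2 / B * (1 / B * (1 - Real.tanh (1 / B * y) ^ 2)) ≤ 1 / 8 * (1 / 16 * 1) := by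
    apply mul_le_mul b1 _ (mul_nonneg b3.le hs1.1) (by norm_num)
    exact mul_le_mul b2 hs1.2 hs1.1 (by norm_num)
  have g1' : 0 ≤ 2 / B * (1 / B * (1 - Real.tanh (1 / B * y) ^ 2)) :=
    mul_nonneg b0.le (mul_nonneg b3.le hs1.1)
  have g2 : 2 * γ * (γ * (1 - Real.tanh (γ * y) ^ 2)) ≤ 1 / 4 * (1 / 8 * 1) := by
    apply mul_le_mul (by linarith) _ (mul_nonneg hγ.le hs2.1) (by norm_num)
    exact mul_le_mul hγ' hs2.2 hs2.1 (by norm_num)
  have g2' : 0 ≤ 2 * γ * (γ * (1 - Real.tanh (γ * y) ^ 2)) :=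
    mul_nonneg (by linarith) (mul_nonneg hγ.le hs2.1)
  have hfin : |a y * a y + (-(2 / B) * (1 / B * (1 - Real.tanh (1 / B * y) ^ 2)) +
      2 * γ * (γ * (1 - Real.tanh (γ * y) ^ 2)))| ≤ 2 := by
    rw [abs_le] at ha2 ⊢
    constructor
    · linarith [ha2.1]
    · linarith [ha2.2]
  rw [hd2, abs_mul, abs_of_pos hWp]
  have hm : Vrb_W γ B y * |a y * a y + (-(2 / B) * (1 / B * (1 - Real.tanh (1 / B * y) ^ 2)) +
      2 * γ * (γ * (1 - Real.tanh (γ * y) ^ 2)))| ≤ Vrb_W γ B y * 2 :=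
    mul_le_mul_of_nonneg_left hfin hWp.le
  have hm2 := mul_le_mul hδ' hm (mul_nonneg hWp.le (abs_nonneg _)) (by norm_num)
  linarith

theorem VM (k : ℕ) (hk : 5 ≤ k) (γ η δ : ℝ) (hγ : 0 < γ) (hγ' : γ ≤ 1 / 8) (hη : 0 ≤ η) (hδ : 0 < δ)
    (hδ' : δ ≤ 1 / 16) :
    ∃ C : ℝ, 0 < C ∧ ∀ B : ℝ, 16 ≤ B → ∀ (p q : ℝ) (ε : ℝ → ℝ), 0 < p → p ≤ 1 → 0 < q → q ≤ 1 →
    Cl p q ε →
    |∫ y, Psi k η γ B y * (vf k δ ε y * vf k δ (deriv ε) y)| ≤
      C * ((∫ y, loc γ B y * ((vf k δ ε y) ^ 2 + (ε y) ^ 2))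
        + 1 / B * ∫ y, ch B y * (vf k δ ε y) ^ 2) := by
  have hk1 : 1 ≤ k := by omega
  have hkR : (5 : ℝ) ≤ k := by exact_mod_cast hk
  obtain ⟨Cq, hCq0, hCq⟩ := Cl_bnd (Cl_der (Cl_Qk hk1))
  have hQ : ∀ y, |deriv (fun y => Qf k y ^ k) y| ≤ Cq * se2 γ y := by
    intro y
    refine (hCq y).trans (mul_le_mul_of_nonneg_left ?_ hCq0)
    rw [bd_abs]
    exact Vrb_exp hk hγ hγ' y
  refine ⟨(2 * k + η) + (1 + η) + (1 + η) * (4 / 3 * Cq ^ 2), by positivity, ?_⟩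
  intro B hB p q ε hp hp1 hq hq1 hε
  have hB0 : 0 < B := by linarith
  have hp2 : |p| ≤ 2 := by rw [abs_of_pos hp]; linarith
  have hq2 : |q| ≤ 2 := by rw [abs_of_pos hq]; linarith
  have h2B : 0 < 2 / B := by positivity
  obtain ⟨v, hv⟩ : ∃ v, v = vf k δ ε := ⟨_, rfl⟩
  obtain ⟨h, hh⟩ : ∃ h : ℝ → ℝ, h = fun y => deriv (fun y => Qf k y ^ k) y * ε y := ⟨_, rfl⟩
  have hvC : Cl p q v := by rw [hv]; exact Cl_vf hk1 hδ hδ' hp2 hq2 hε
  have hhC : Cl 1 1 h := by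
    rw [hh]
    exact Cl_mono (Cl_mul (Cl_der (Cl_Qk hk1)) hε) (by linarith) (by linarith)
  have hSC : Cl 1 1 (Sm δ h) := Cl_Sm hδ hδ' (by norm_num) (by norm_num) hhC
  have hlocC : Cl (2 * γ + 2 / B) (2 * γ + 2 / B) (loc γ B) := Cl_mul (Cl_se2 hγ) (Cl_ch hB0)
  have hWC := Vrb_ClW (B := B) hγ hB0
  have hPC := Cl_Psi k η γ hB0
  -- integrability
  have i1 : Integrable (fun y => loc γ B y * (v y) ^ 2) :=
    Vrb_int hlocC hvC (by linarith) (by linarith)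
  have i2 : Integrable (fun y => loc γ B y * (ε y) ^ 2) :=
    Vrb_int hlocC hε (by linarith) (by linarith)
  have i3 : Integrable (fun y => ch B y * (v y) ^ 2) :=
    Vrb_int (Cl_ch hB0) hvC (by linarith) (by linarith)
  have i4 : Integrable (fun y => Vrb_W γ B y * (Sm δ h y) ^ 2) :=
    Vrb_int hWC hSC (by linarith) (by linarith)
  have i5 : Integrable (fun y => Vrb_W γ B y * (h y) ^ 2) :=
    Vrb_int hWC hhC (by linarith) (by linarith)
  -- splitting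
  have hsplit : (fun y => Psi k η γ B y * (vf k δ ε y * vf k δ (deriv ε) y)) =
      fun y => Psi k η γ B y * (v y * deriv v y) + Psi k η γ B y * (v y * Sm δ h y) := by
    funext y
    rw [Vrb_id hk1 hδ hδ' hp2 hq2 hε y, ← hh, hv]
    ring
  have i6 : Integrable (fun y => Psi k η γ B y * (v y * deriv v y)) :=
    Cl_int (Cl_mul hPC (Cl_mul hvC (Cl_der hvC))) (by linarith) (by linarith)
  have i7 : Integrable (fun y => Psi k η γ B y * (v y * Sm δ h y)) :=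
    Cl_int (Cl_mul hPC (Cl_mul hvC hSC)) (by linarith) (by linarith)
  -- first part
  have hA : |∫ y, Psi k η γ B y * (v y * deriv v y)| ≤
      1 / 2 * ((2 * k + η) * (∫ y, loc γ B y * (v y) ^ 2)
        + 2 * (1 + η) / B * ∫ y, ch B y * (v y) ^ 2) := by
    have e1 : ∫ y, deriv (Psi k η γ B) y * (v y * v y) =
        -∫ y, Psi k η γ B y * deriv (fun y => v y * v y) y :=
      Cl_ibp hPC (Cl_mul hvC hvC) (by linarith) (by linarith)
    have e2 : (fun y => Psi k η γ B y * deriv (fun y => v y * v y) y) =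
        fun y => 2 * (Psi k η γ B y * (v y * deriv v y)) := by
      funext y
      have e3 : HasDerivAt (fun y => v y * v y) (deriv v y * v y + v y * deriv v y) y :=
        (Cl_hd hvC y).mul (Cl_hd hvC y)
      rw [e3.deriv]
      ring
    rw [e2, integral_const_mul] at e1
    have e4 : ∫ y, Psi k η γ B y * (v y * deriv v y) =
        -(1 / 2) * ∫ y, deriv (Psi k η γ B) y * (v y * v y) := by linarith
    rw [e4, abs_mul, abs_neg, abs_of_pos (by norm_num : (0 : ℝ) < 1 / 2)]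
    refine mul_le_mul_of_nonneg_left ?_ (by norm_num)
    refine (Vrb_dom (G := fun y => (2 * k + η) * (loc γ B y * (v y) ^ 2) +
      2 * (1 + η) / B * (ch B y * (v y) ^ 2)) ((i1.const_mul _).add (i3.const_mul _)) ?_).trans
      (le_of_eq ?_)
    · intro y
      rw [abs_mul, abs_mul_self]
      have e5 := mul_le_mul_of_nonneg_right (Vrb_Psi1 hk hγ hγ' hη hB y) (mul_self_nonneg (v y))
      refine e5.trans (le_of_eq ?_)
      ring
    · rw [integral_add (i1.const_mul _) (i3.const_mul _), integral_const_mul, integral_const_mul]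
  -- second part
  have hBq : |∫ y, Psi k η γ B y * (v y * Sm δ h y)| ≤
      (1 + η) / 2 * ((∫ y, loc γ B y * (v y) ^ 2) + 4 / 3 * (Cq ^ 2 *
        ∫ y, loc γ B y * (ε y) ^ 2)) := by
    have e1 : ∫ y, Vrb_W γ B y * (Sm δ h y) ^ 2 ≤ 4 / 3 * ∫ y, Vrb_W γ B y * (h y) ^ 2 :=
      (Sm_wt hδ hδ' (by norm_num) (by norm_num) hhC hWC
        (fun y => mul_pos (Vrb_chpos B y) (pow_pos (Real.cosh_pos _) 2))
        (Vrb_W2 hγ hγ' hB hδ hδ') (by linarith) (by linarith)).1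
    have e2 : ∫ y, Vrb_W γ B y * (h y) ^ 2 ≤ Cq ^ 2 * ∫ y, loc γ B y * (ε y) ^ 2 := by
      rw [← integral_const_mul]
      apply integral_mono i5 (i2.const_mul _)
      intro y
      show Vrb_W γ B y * (h y) ^ 2 ≤ Cq ^ 2 * (loc γ B y * (ε y) ^ 2)
      have f1 := hQ y
      have f2 : (deriv (fun y => Qf k y ^ k) y) ^ 2 ≤ (Cq * se2 γ y) ^ 2 := by
        rw [← sq_abs (deriv (fun y => Qf k y ^ k) y)]
        exact pow_le_pow_left₀ (abs_nonneg _) f1 2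
      have f3 : 0 ≤ Vrb_W γ B y * (ε y) ^ 2 :=
        mul_nonneg (mul_nonneg (Vrb_chpos B y).le (by positivity)) (sq_nonneg _)
      have f4 := mul_le_mul_of_nonneg_left f2 f3
      have f5 : Real.cosh (γ * y) ^ 2 * se2 γ y = 1 := by
        unfold se2
        have hc : Real.cosh (γ * y) ≠ 0 := (Real.cosh_pos _).ne'
        field_simp
      calc Vrb_W γ B y * (h y) ^ 2
          = Vrb_W γ B y * (ε y) ^ 2 * (deriv (fun y => Qf k y ^ k) y) ^ 2 := by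
            rw [hh]
            ring
        _ ≤ Vrb_W γ B y * (ε y) ^ 2 * (Cq * se2 γ y) ^ 2 := f4
        _ = Cq ^ 2 * (loc γ B y * (ε y) ^ 2) * (Real.cosh (γ * y) ^ 2 * se2 γ y) := by
            unfold Vrb_W loc
            ring
        _ = Cq ^ 2 * (loc γ B y * (ε y) ^ 2) := by rw [f5, mul_one]
    have e3 := Vrb_dom (F := fun y => Psi k η γ B y * (v y * Sm δ h y))
      (G := fun y => (1 + η) / 2 * (loc γ B y * (v y) ^ 2 + Vrb_W γ B y * (Sm δ h y) ^ 2))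
      ((i1.add i4).const_mul _) (by
        intro y
        show |Psi k η γ B y * (v y * Sm δ h y)| ≤ _
        rw [abs_mul, abs_mul]
        have g1 := mul_le_mul_of_nonneg_right (Vrb_Psi_abs (k := k) (γ := γ) (B := B) hη y)
          (mul_nonneg (abs_nonneg (v y)) (abs_nonneg (Sm δ h y)))
        refine g1.trans ?_
        have hc : 0 < Real.cosh (γ * y) := Real.cosh_pos _
        have g2 : 2 * (|v y| * |Sm δ h y|) ≤ se2 γ y * (v y) ^ 2 +
            Real.cosh (γ * y) ^ 2 * (Sm δ h y) ^ 2 := by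
          have g3 := sq_nonneg (1 / Real.cosh (γ * y) * |v y| - Real.cosh (γ * y) * |Sm δ h y|)
          have g4 : 1 / Real.cosh (γ * y) * Real.cosh (γ * y) = 1 := by field_simp
          have g5 : (1 / Real.cosh (γ * y) * |v y| - Real.cosh (γ * y) * |Sm δ h y|) ^ 2 =
              (1 / Real.cosh (γ * y)) ^ 2 * |v y| ^ 2 +
              Real.cosh (γ * y) ^ 2 * |Sm δ h y| ^ 2 -
              2 * (1 / Real.cosh (γ * y) * Real.cosh (γ * y)) * (|v y| * |Sm δ h y|) := by ring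
          rw [g5, g4, sq_abs, sq_abs] at g3
          unfold se2
          linarith
        have g6 := mul_le_mul_of_nonneg_left g2
          (mul_nonneg (by linarith : (0 : ℝ) ≤ 1 + η) (Vrb_chpos B y).le)
        have g7 : (1 + η) / 2 * (loc γ B y * (v y) ^ 2 + Vrb_W γ B y * (Sm δ h y) ^ 2) =
            1 / 2 * ((1 + η) * ch B y * (se2 γ y * (v y) ^ 2 +
            Real.cosh (γ * y) ^ 2 * (Sm δ h y) ^ 2)) := by
          unfold loc Vrb_W
          ring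
        rw [g7]
        linarith)
    refine e3.trans ?_
    rw [integral_const_mul, integral_add i1 i4]
    refine mul_le_mul_of_nonneg_left ?_ (by linarith)
    linarith
  have hI1 : 0 ≤ ∫ y, loc γ B y * (v y) ^ 2 :=
    integral_nonneg fun y => mul_nonneg (loc_pos γ B y).le (sq_nonneg _)
  have hI2 : 0 ≤ ∫ y, loc γ B y * (ε y) ^ 2 :=
    integral_nonneg fun y => mul_nonneg (loc_pos γ B y).le (sq_nonneg _)
  have hI3 : 0 ≤ ∫ y, ch B y * (v y) ^ 2 :=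
    integral_nonneg fun y => mul_nonneg (Vrb_chpos B y).le (sq_nonneg _)
  have hsum : ∫ y, loc γ B y * ((vf k δ ε y) ^ 2 + (ε y) ^ 2) =
      (∫ y, loc γ B y * (v y) ^ 2) + ∫ y, loc γ B y * (ε y) ^ 2 := by
    rw [← integral_add i1 i2, hv]
    congr 1
    funext y
    ring
  rw [hsplit, integral_add i6 i7, hsum, ← hv]
  refine (abs_add_le _ _).trans ((add_le_add hA hBq).trans ?_)
  generalize (∫ y, loc γ B y * (v y) ^ 2) = I1 at hI1 ⊢
  generalize (∫ y, loc γ B y * (ε y) ^ 2) = I2 at hI2 ⊢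
  generalize (∫ y, ch B y * (v y) ^ 2) = I3 at hI3 ⊢
  have hk0 : (0 : ℝ) ≤ 2 * k + η := by positivity
  have hb : 0 < 1 / B := by positivity
  have m1 := mul_nonneg hk0 hI1
  have m2 := mul_nonneg hk0 hI2
  have m3 := mul_nonneg (mul_nonneg hk0 hb.le) hI3
  have m4 := mul_nonneg (by linarith : (0 : ℝ) ≤ 1 + η) hI1
  have m5 := mul_nonneg (by linarith : (0 : ℝ) ≤ 1 + η) hI2
  have m6 : 0 ≤ (1 + η) * (4 / 3 * Cq ^ 2) * I1 := by positivity
  have m7 : 0 ≤ (1 + η) * (4 / 3 * Cq ^ 2) * I2 := by positivity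
  have m8 : 0 ≤ (1 + η) * (4 / 3 * Cq ^ 2) * (1 / B * I3) := by positivity
  have e1 : 1 / 2 * ((2 * (k : ℝ) + η) * I1 + 2 * (1 + η) / B * I3) =
      1 / 2 * ((2 * k + η) * I1) + (1 + η) * (1 / B * I3) := by ring
  rw [e1]
  have m3' : 0 ≤ (2 * (k : ℝ) + η) * (1 / B * I3) := by positivity
  (first | linarith only [m1, m2, m3, m4, m5, m6, m7, m8] | nlinarith only [m1, m2, m3, m4, m5, m6, m7, m8])

theorem VL (k : ℕ) (hk : 5 ≤ k) (γ η δ : ℝ) (hγ : 0 < γ) (hγ' : γ ≤ 1 / 8) (hη : 0 ≤ η) (hδ : 0 < δ)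
    (hδ' : δ ≤ 1 / 16) :
    ∃ C : ℝ, 0 < C ∧ ∀ B : ℝ, 16 ≤ B → ∀ (p q : ℝ) (ε : ℝ → ℝ), 0 < p → p ≤ 1 → 0 < q → q ≤ 1 →
    Cl p q ε →
    |∫ y, Psi k η γ B y * (vf k δ ε y * vf k δ (deriv (deriv ε)) y)| ≤
      C * ∫ y, ch B y * ((ε y) ^ 2 + (deriv ε y) ^ 2) := by
  have hk1 : 1 ≤ k := by omega
  have hkR : (5 : ℝ) ≤ k := by exact_mod_cast hk
  obtain ⟨Cq, hCq0, hCq⟩ := Cl_bnd (Vrb_Qk0 hk1)
  have hQ : ∀ y, (deriv (fun y => Qf k y ^ k) y) ^ 2 ≤ Cq ^ 2 := by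
    intro y
    have h1 := hCq y
    rw [bd_zero, mul_one] at h1
    rw [← sq_abs]
    exact pow_le_pow_left₀ (abs_nonneg _) h1 2
  obtain ⟨Cv, hCv0, hCv⟩ := vf_wt k hk1 δ hδ hδ'
  obtain ⟨D, hD⟩ : ∃ D : ℝ, D = 2 * k + η + (1 + η) := ⟨_, rfl⟩
  have hD0 : 0 < D := by rw [hD]; positivity
  refine ⟨(D + (1 + η)) * Cv + (1 + η) * (Cv + Cq ^ 2 / δ) + (1 + η) * (Cv + 4 / 3 * Cq ^ 2),
    by positivity, ?_⟩
  intro B hB p q ε hp hp1 hq hq1 hε
  have hB0 : 0 < B := by linarith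
  have hp2 : |p| ≤ 2 := by rw [abs_of_pos hp]; linarith
  have hq2 : |q| ≤ 2 := by rw [abs_of_pos hq]; linarith
  have h2B : 0 < 2 / B := by positivity
  have h2B1 : 2 / B ≤ 1 := by rw [div_le_one hB0]; linarith
  obtain ⟨v, hv⟩ : ∃ v, v = vf k δ ε := ⟨_, rfl⟩
  obtain ⟨h, hh⟩ : ∃ h : ℝ → ℝ, h = fun y => deriv (fun y => Qf k y ^ k) y * ε y := ⟨_, rfl⟩
  obtain ⟨g, hg⟩ : ∃ g : ℝ → ℝ, g = fun y => deriv (fun y => Qf k y ^ k) y * deriv ε y := ⟨_, rfl⟩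
  have hvC : Cl p q v := by rw [hv]; exact Cl_vf hk1 hδ hδ' hp2 hq2 hε
  have hv1C := Cl_der hvC
  have hv2C := Cl_der hv1C
  have hhC : Cl p q h := by rw [hh]; exact Cl_mul0 (Vrb_Qk0 hk1) hε
  have hgC : Cl p q g := by rw [hg]; exact Cl_mul0 (Vrb_Qk0 hk1) (Cl_der hε)
  have hShC : Cl p q (Sm δ h) := Cl_Sm hδ hδ' hp2 hq2 hhC
  have hSgC : Cl p q (Sm δ g) := Cl_Sm hδ hδ' hp2 hq2 hgC
  have hSh1C := Cl_der hShC
  have hχ := Cl_ch hB0
  have hPC := Cl_Psi k η γ hB0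
  have w1 : 0 < 2 * p + 2 / B := by linarith
  have w2 : 0 < 2 * q + 2 / B := by linarith
  have iv := Vrb_int hχ hvC w1 w2
  have iv1 := Vrb_int hχ hv1C w1 w2
  have ie := Vrb_int hχ hε w1 w2
  have ie1 := Vrb_int hχ (Cl_der hε) w1 w2
  have ih := Vrb_int hχ hhC w1 w2
  have ig := Vrb_int hχ hgC w1 w2
  have ish := Vrb_int hχ hSh1C w1 w2
  have isg := Vrb_int hχ hSgC w1 w2
  have hchw := Vrb_ch2 hδ hδ' hB
  obtain ⟨J, hJ⟩ : ∃ J, J = ∫ y, ch B y * ((ε y) ^ 2 + (deriv ε y) ^ 2) := ⟨_, rfl⟩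
  have nn : ∀ f : ℝ → ℝ, 0 ≤ ∫ y, ch B y * (f y) ^ 2 := fun f =>
    integral_nonneg fun y => mul_nonneg (Vrb_chpos B y).le (sq_nonneg _)
  have hJs : J = (∫ y, ch B y * (ε y) ^ 2) + ∫ y, ch B y * (deriv ε y) ^ 2 := by
    rw [hJ, ← integral_add ie ie1]
    congr 1
    funext y
    ring
  have hJ0 : 0 ≤ J := by
    rw [hJs]
    exact add_nonneg (nn _) (nn _)
  have hvJ : (∫ y, ch B y * (v y) ^ 2) + (∫ y, ch B y * (deriv v y) ^ 2) ≤ Cv * J := by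
    have h1 := hCv p q (2 / B) (2 / B) ε (ch B) hp2 hq2 hε hχ (Vrb_chpos B) hchw w1 w2
    rw [← hv, ← hJ] at h1
    refine le_trans (le_of_eq ?_) h1
    rw [← integral_add iv iv1]
    congr 1
    funext y
    ring
  have hvJ1 : ∫ y, ch B y * (v y) ^ 2 ≤ Cv * J := by
    have := nn (deriv v)
    linarith
  have hhJ : ∫ y, ch B y * (h y) ^ 2 ≤ Cq ^ 2 * J := by
    have e1 : ∫ y, ch B y * (h y) ^ 2 ≤ Cq ^ 2 * ∫ y, ch B y * (ε y) ^ 2 := by
      rw [← integral_const_mul]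
      apply integral_mono ih (ie.const_mul _)
      intro y
      show ch B y * (h y) ^ 2 ≤ Cq ^ 2 * (ch B y * (ε y) ^ 2)
      have f3 : 0 ≤ ch B y * (ε y) ^ 2 := mul_nonneg (Vrb_chpos B y).le (sq_nonneg _)
      have f4 := mul_le_mul_of_nonneg_right (hQ y) f3
      refine le_trans (le_of_eq ?_) f4
      rw [hh]
      ring
    have e2 := mul_nonneg (sq_nonneg Cq) (nn (deriv ε))
    rw [hJs]
    linarith
  have hgJ : ∫ y, ch B y * (g y) ^ 2 ≤ Cq ^ 2 * J := by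
    have e1 : ∫ y, ch B y * (g y) ^ 2 ≤ Cq ^ 2 * ∫ y, ch B y * (deriv ε y) ^ 2 := by
      rw [← integral_const_mul]
      apply integral_mono ig (ie1.const_mul _)
      intro y
      show ch B y * (g y) ^ 2 ≤ Cq ^ 2 * (ch B y * (deriv ε y) ^ 2)
      have f3 : 0 ≤ ch B y * (deriv ε y) ^ 2 := mul_nonneg (Vrb_chpos B y).le (sq_nonneg _)
      have f4 := mul_le_mul_of_nonneg_right (hQ y) f3
      refine le_trans (le_of_eq ?_) f4
      rw [hg]
      ring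
    have e2 := mul_nonneg (sq_nonneg Cq) (nn ε)
    rw [hJs]
    linarith
  have hShJ : ∫ y, ch B y * (deriv (Sm δ h) y) ^ 2 ≤ Cq ^ 2 / δ * J := by
    have e1 := (Sm_wt hδ hδ' hp2 hq2 hhC hχ (Vrb_chpos B) hchw w1 w2).2
    have e2 : ∫ y, ch B y * (deriv (Sm δ h) y) ^ 2 ≤ (Cq ^ 2 * J) / δ := by
      rw [le_div_iff₀ hδ]
      linarith
    refine e2.trans (le_of_eq ?_)
    ring
  have hSgJ : ∫ y, ch B y * (Sm δ g y) ^ 2 ≤ 4 / 3 * Cq ^ 2 * J := by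
    have e1 := (Sm_wt hδ hδ' hp2 hq2 hgC hχ (Vrb_chpos B) hchw w1 w2).1
    linarith
  -- splitting
  have hid1 : vf k δ (deriv ε) = fun y => deriv v y + Sm δ h y := by
    funext y
    rw [Vrb_id hk1 hδ hδ' hp2 hq2 hε y, ← hh, hv]
  have hid2 : ∀ y, vf k δ (deriv (deriv ε)) y =
      deriv (deriv v) y + deriv (Sm δ h) y + Sm δ g y := by
    intro y
    rw [Vrb_id hk1 hδ hδ' hp2 hq2 (Cl_der hε) y, ← hg, hid1]
    have e1 : HasDerivAt (fun y => deriv v y + Sm δ h y)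
        (deriv (deriv v) y + deriv (Sm δ h) y) y := (Cl_hd hv1C y).add (Cl_hd hShC y)
    rw [e1.deriv]
  have hsplit : (fun y => Psi k η γ B y * (vf k δ ε y * vf k δ (deriv (deriv ε)) y)) =
      fun y => (Psi k η γ B y * (v y * deriv (deriv v) y) +
        Psi k η γ B y * (v y * deriv (Sm δ h) y)) + Psi k η γ B y * (v y * Sm δ g y) := by
    funext y
    rw [hid2 y, hv]
    ring
  have j1 : Integrable (fun y => Psi k η γ B y * (v y * deriv (deriv v) y)) :=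
    Cl_int (Cl_mul hPC (Cl_mul hvC hv2C)) (by linarith) (by linarith)
  have j2 : Integrable (fun y => Psi k η γ B y * (v y * deriv (Sm δ h) y)) :=
    Cl_int (Cl_mul hPC (Cl_mul hvC hSh1C)) (by linarith) (by linarith)
  have j3 : Integrable (fun y => Psi k η γ B y * (v y * Sm δ g y)) :=
    Cl_int (Cl_mul hPC (Cl_mul hvC hSgC)) (by linarith) (by linarith)
  -- general Young estimate
  have young : ∀ f : ℝ → ℝ, Cl p q f → |∫ y, Psi k η γ B y * (v y * f y)| ≤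
      (1 + η) * ((∫ y, ch B y * (v y) ^ 2) + ∫ y, ch B y * (f y) ^ 2) := by
    intro f hf
    have i1 := Vrb_int hχ hf w1 w2
    refine (Vrb_dom (G := fun y => (1 + η) * (ch B y * (v y) ^ 2 + ch B y * (f y) ^ 2))
      ((iv.add i1).const_mul _) ?_).trans (le_of_eq ?_)
    · intro y
      rw [abs_mul]
      have g1 := mul_le_mul_of_nonneg_right (Vrb_Psi_abs (k := k) (γ := γ) (B := B) hη y)
        (abs_nonneg (v y * f y))
      refine g1.trans ?_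
      have g2 : |v y * f y| ≤ (v y) ^ 2 + (f y) ^ 2 := by
        rw [abs_le]
        constructor
        · (first | linarith only [sq_nonneg (v y + f y), sq_nonneg (v y), sq_nonneg (f y)] | nlinarith only [sq_nonneg (v y + f y), sq_nonneg (v y), sq_nonneg (f y)])
        · (first | linarith only [sq_nonneg (v y - f y), sq_nonneg (v y), sq_nonneg (f y)] | nlinarith only [sq_nonneg (v y - f y), sq_nonneg (v y), sq_nonneg (f y)])
      have g3 := mul_le_mul_of_nonneg_left g2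
        (mul_nonneg (by linarith : (0 : ℝ) ≤ 1 + η) (Vrb_chpos B y).le)
      refine g3.trans (le_of_eq ?_)
      ring
    · rw [integral_const_mul, integral_add iv i1]
  -- first term
  have T1 : |∫ y, Psi k η γ B y * (v y * deriv (deriv v) y)| ≤ (D + (1 + η)) * (Cv * J) := by
    have e0 : (fun y => Psi k η γ B y * (v y * deriv (deriv v) y)) =
        fun y => deriv (deriv v) y * (Psi k η γ B y * v y) := by
      funext y
      ring
    have e1 : ∫ y, deriv (deriv v) y * (Psi k η γ B y * v y) =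
        -∫ y, deriv v y * deriv (fun y => Psi k η γ B y * v y) y :=
      Cl_ibp hv1C (Cl_mul hPC hvC) (by linarith) (by linarith)
    have e2 : ∀ y, deriv (fun y => Psi k η γ B y * v y) y =
        deriv (Psi k η γ B) y * v y + Psi k η γ B y * deriv v y := fun y =>
      ((Cl_hd hPC y).mul (Cl_hd hvC y)).deriv
    rw [e0, e1, abs_neg]
    refine (Vrb_dom (G := fun y => (D + (1 + η)) * (ch B y * (v y) ^ 2 +
      ch B y * (deriv v y) ^ 2)) ((iv.add iv1).const_mul _) ?_).trans ?_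
    · intro y
      rw [e2 y]
      have c0 := Vrb_chpos B y
      have g1 : |deriv (Psi k η γ B) y| ≤ D * ch B y := by
        refine (Vrb_Psi1 hk hγ hγ' hη hB y).trans ?_
        have g2 := mul_le_mul_of_nonneg_left (loc_le_ch γ B y) (by positivity : (0 : ℝ) ≤ 2 * k + η)
        have g3 : 2 * (1 + η) / B * ch B y ≤ (1 + η) * ch B y := by
          apply mul_le_mul_of_nonneg_right _ c0.le
          have g4 := mul_le_mul_of_nonneg_left h2B1 (by linarith : (0 : ℝ) ≤ 1 + η)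
          refine le_trans (le_of_eq ?_) (g4.trans (le_of_eq (mul_one _)))
          ring
        rw [hD]
        linarith
      have g5 := Vrb_Psi_abs (k := k) (γ := γ) (B := B) hη y
      have g6 : |deriv v y * (deriv (Psi k η γ B) y * v y + Psi k η γ B y * deriv v y)| ≤
          |deriv (Psi k η γ B) y| * |v y * deriv v y| + |Psi k η γ B y| * (deriv v y) ^ 2 := by
        have e3 : deriv v y * (deriv (Psi k η γ B) y * v y + Psi k η γ B y * deriv v y) =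
            deriv (Psi k η γ B) y * (v y * deriv v y) + Psi k η γ B y * (deriv v y) ^ 2 := by ring
        rw [e3]
        refine (abs_add_le _ _).trans ?_
        rw [abs_mul, abs_mul (Psi k η γ B y), abs_of_nonneg (sq_nonneg (deriv v y))]
      have g7 : |v y * deriv v y| ≤ (v y) ^ 2 + (deriv v y) ^ 2 := by
        rw [abs_le]
        constructor
        · (first | linarith only [sq_nonneg (v y + deriv v y), sq_nonneg (v y), sq_nonneg (deriv v y)] | nlinarith only [sq_nonneg (v y + deriv v y), sq_nonneg (v y), sq_nonneg (deriv v y)])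
        · (first | linarith only [sq_nonneg (v y - deriv v y), sq_nonneg (v y), sq_nonneg (deriv v y)] | nlinarith only [sq_nonneg (v y - deriv v y), sq_nonneg (v y), sq_nonneg (deriv v y)])
      have g8 := mul_le_mul g1 g7 (abs_nonneg _) (by positivity)
      have g9 := mul_le_mul_of_nonneg_right g5 (sq_nonneg (deriv v y))
      have g10 : 0 ≤ (1 + η) * (ch B y * (v y) ^ 2) := by positivity
      refine g6.trans ((add_le_add g8 g9).trans ?_)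
      linarith
    · rw [integral_const_mul, integral_add iv iv1]
      exact mul_le_mul_of_nonneg_left hvJ (by positivity)
  have T2 := young _ hSh1C
  have T3 := young _ hSgC
  have j12 : Integrable (fun y => Psi k η γ B y * (v y * deriv (deriv v) y) +
      Psi k η γ B y * (v y * deriv (Sm δ h) y)) := j1.add j2
  rw [hsplit, integral_add j12 j3, integral_add j1 j2, ← hJ]
  refine (abs_add_le _ _).trans ?_
  have T4 := abs_add_le (∫ y, Psi k η γ B y * (v y * deriv (deriv v) y))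
    (∫ y, Psi k η γ B y * (v y * deriv (Sm δ h) y))
  have T2' : (1 + η) * ((∫ y, ch B y * (v y) ^ 2) + ∫ y, ch B y * (deriv (Sm δ h) y) ^ 2) ≤
      (1 + η) * (Cv * J + Cq ^ 2 / δ * J) :=
    mul_le_mul_of_nonneg_left (add_le_add hvJ1 hShJ) (by linarith)
  have T3' : (1 + η) * ((∫ y, ch B y * (v y) ^ 2) + ∫ y, ch B y * (Sm δ g y) ^ 2) ≤
      (1 + η) * (Cv * J + 4 / 3 * Cq ^ 2 * J) :=
    mul_le_mul_of_nonneg_left (add_le_add hvJ1 hSgJ) (by linarith)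
  have T5 : ((D + (1 + η)) * Cv + (1 + η) * (Cv + Cq ^ 2 / δ) +
      (1 + η) * (Cv + 4 / 3 * Cq ^ 2)) * J = (D + (1 + η)) * (Cv * J) +
      (1 + η) * (Cv * J + Cq ^ 2 / δ * J) + (1 + η) * (Cv * J + 4 / 3 * Cq ^ 2 * J) := by ring
  rw [T5]
  linarith

theorem VE (k : ℕ) (hk : 5 ≤ k) (γ η δ : ℝ) (hη : 0 ≤ η) (hδ : 0 < δ) (hδ' : δ ≤ 1 / 16) :
    ∃ C : ℝ, 0 < C ∧ ∀ B : ℝ, 16 ≤ B → ∀ (p q : ℝ) (ε e : ℝ → ℝ), 0 < p → p ≤ 1 → 0 < q → q ≤ 1 →
    Cl p q ε → Cl p q e →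
    |∫ y, Psi k η γ B y * (vf k δ ε y * vf k δ (deriv e) y)| ≤
      C * √(∫ y, ch B y * (ε y) ^ 2) * √(∫ y, ch B y * (deriv e y) ^ 2) := by
  have hk1 : 1 ≤ k := by omega
  obtain ⟨Cv, hCv0, hCv⟩ := vf_wt0 k hk1 δ hδ hδ'
  refine ⟨(1 + η) * Cv, by positivity, ?_⟩
  intro B hB p q ε e hp hp1 hq hq1 hε he
  have hB0 : 0 < B := by linarith
  have hp2 : |p| ≤ 2 := by rw [abs_of_pos hp]; linarith
  have hq2 : |q| ≤ 2 := by rw [abs_of_pos hq]; linarith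
  have h2B : 0 < 2 / B := by positivity
  have w1 : 0 < 2 * p + 2 / B := by linarith
  have w2 : 0 < 2 * q + 2 / B := by linarith
  have hχ := Cl_ch hB0
  have hchw := Vrb_ch2 hδ hδ' hB
  obtain ⟨v, hv⟩ : ∃ v, v = vf k δ ε := ⟨_, rfl⟩
  obtain ⟨u, hu⟩ : ∃ u, u = vf k δ (deriv e) := ⟨_, rfl⟩
  have hvC : Cl p q v := by rw [hv]; exact Cl_vf hk1 hδ hδ' hp2 hq2 hε
  have huC : Cl p q u := by rw [hu]; exact Cl_vf hk1 hδ hδ' hp2 hq2 (Cl_der he)
  have iv := Vrb_int hχ hvC w1 w2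
  have iu := Vrb_int hχ huC w1 w2
  have e1 : ∫ y, ch B y * (v y) ^ 2 ≤ Cv * ∫ y, ch B y * (ε y) ^ 2 := by
    rw [hv]
    exact hCv p q (2 / B) (2 / B) ε (ch B) hp2 hq2 hε hχ (Vrb_chpos B) hchw w1 w2
  have e2 : ∫ y, ch B y * (u y) ^ 2 ≤ Cv * ∫ y, ch B y * (deriv e y) ^ 2 := by
    rw [hu]
    exact hCv p q (2 / B) (2 / B) (deriv e) (ch B) hp2 hq2 (Cl_der he) hχ (Vrb_chpos B) hchw w1 w2
  have hρ : Continuous (fun y : ℝ => 1 / Real.cosh (y / B)) := by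
    apply Continuous.div continuous_const (Real.continuous_cosh.comp (continuous_id.div_const B))
    intro y
    exact (Real.cosh_pos _).ne'
  have hρ2 : ∀ y, (1 / Real.cosh (y / B)) ^ 2 = ch B y := fun y => rfl
  have hψc : Continuous (psi k η γ) := Cl_cont (Cl_psi k η γ)
  have a1 : (fun y => (1 / Real.cosh (y / B) * v y) ^ 2) = fun y => ch B y * (v y) ^ 2 := by
    funext y
    rw [mul_pow, hρ2]
  have a2 : (fun y => (psi k η γ y * (1 / Real.cosh (y / B) * u y)) ^ 2) =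
      fun y => (psi k η γ y) ^ 2 * (ch B y * (u y) ^ 2) := by
    funext y
    rw [mul_pow, mul_pow, hρ2]
  have hψ2 : ∀ y, (psi k η γ y) ^ 2 ≤ (1 + η) ^ 2 := by
    intro y
    rw [← sq_abs]
    exact pow_le_pow_left₀ (abs_nonneg _) (psi_abs hη γ y) 2
  have iG : Integrable (fun y => (psi k η γ y) ^ 2 * (ch B y * (u y) ^ 2)) :=
    Cl_int (Cl_mul0 (Cl_pow0 (Cl_psi k η γ) 2) (Cl_mul hχ (Cl_pow huC 2)))
      (by push_cast; linarith) (by push_cast; linarith)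
  have hcs := (cs_int (F := fun y => 1 / Real.cosh (y / B) * v y)
    (G := fun y => psi k η γ y * (1 / Real.cosh (y / B) * u y))
    (hρ.mul (Cl_cont hvC)) (hψc.mul (hρ.mul (Cl_cont huC)))
    (by rw [a1]; exact iv) (by rw [a2]; exact iG)).2
  have a3 : (fun y => Psi k η γ B y * (v y * u y)) = fun y =>
      (1 / Real.cosh (y / B) * v y) * (psi k η γ y * (1 / Real.cosh (y / B) * u y)) := by
    funext y
    unfold Psi
    rw [← hρ2]
    ring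
  rw [← hv, ← hu, a3]
  refine hcs.trans ?_
  rw [a1, a2]
  have b1 : ∫ y, (psi k η γ y) ^ 2 * (ch B y * (u y) ^ 2) ≤
      (1 + η) ^ 2 * ∫ y, ch B y * (u y) ^ 2 := by
    rw [← integral_const_mul]
    apply integral_mono iG (iu.const_mul _)
    intro y
    exact mul_le_mul_of_nonneg_right (hψ2 y) (mul_nonneg (Vrb_chpos B y).le (sq_nonneg _))
  have c1 : √(∫ y, ch B y * (v y) ^ 2) ≤ √Cv * √(∫ y, ch B y * (ε y) ^ 2) := by
    rw [← Real.sqrt_mul hCv0.le]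
    exact Real.sqrt_le_sqrt e1
  have c2 : √(∫ y, (psi k η γ y) ^ 2 * (ch B y * (u y) ^ 2)) ≤
      (1 + η) * (√Cv * √(∫ y, ch B y * (deriv e y) ^ 2)) := by
    have b2 : ∫ y, (psi k η γ y) ^ 2 * (ch B y * (u y) ^ 2) ≤
        (1 + η) ^ 2 * (Cv * ∫ y, ch B y * (deriv e y) ^ 2) :=
      b1.trans (mul_le_mul_of_nonneg_left e2 (sq_nonneg _))
    refine (Real.sqrt_le_sqrt b2).trans (le_of_eq ?_)
    rw [Real.sqrt_mul (sq_nonneg _), Real.sqrt_sq (by linarith), Real.sqrt_mul hCv0.le]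
  refine (mul_le_mul c1 c2 (Real.sqrt_nonneg _) (by positivity)).trans (le_of_eq ?_)
  have c3 : √Cv * √Cv = Cv := Real.mul_self_sqrt hCv0.le
  calc √Cv * √(∫ y, ch B y * (ε y) ^ 2) * ((1 + η) * (√Cv * √(∫ y, ch B y * (deriv e y) ^ 2)))
      = (1 + η) * (√Cv * √Cv) * √(∫ y, ch B y * (ε y) ^ 2) *
          √(∫ y, ch B y * (deriv e y) ^ 2) := by ring
    _ = (1 + η) * Cv * √(∫ y, ch B y * (ε y) ^ 2) * √(∫ y, ch B y * (deriv e y) ^ 2) := by
        rw [c3]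

end H98KB

end S_H98_KB_Vrb

section S_H98_KB_Vfi

/-!
# Vfi : the differential inequality for the virial functional (uses the statements of
`Vli, Vra, Vrb, Vrc, Inv, Smb`)

`ζ = (Lε)' - R' - bΛQ + mQ' + lQ'' - bΛε + mε' + lε'' - e'` (`gf_eq`), `vf` is linear (`vf_add`, `vf_smul`; all summands are in a
common class `Cl p' q'`, `0<p'<p`, `0<q'<q`), `vf Q' = 0`.  So `DV = ∫Ψ v vf(Lε)' - ∫Ψ v vf R' - b∫Ψ v vf ΛQ + l∫Ψ v vf Q'' - ...`.
`γ = γ₀` from `inv_loc`; `η, δ, c₀` from `vir_lin`; `B ≥ B₀ = max 16 (1/γ)`.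
Weights: `∫ch(ε²+ε'²) ≤ 16B Tn`, `(1/B)∫ch(v²+v'²) ≤ (C/B)∫ch(ε²+ε'²) ≤ 16C Tn` (`vf_wt` with `W = ch B`, `ch_le_om1`),
`∫ch e'² ≤ 8 Gn e`.  `C√(∫loc v²)(|b|+l) ≤ (c₀/4)∫loc v² + C'(b²+l²)`.
`|m|∫loc(v²+ε²) ≤ C_δ|m|·∫ch... `: use `∫loc v² ≤ ∫ch(v²+v'^2) ≤ C·16B·Tn` (constant depending on `B` is allowed there).
`-(c₀/2)∫loc(v²+v'²) ≤ -c₁ ln + C(ip ε Q')²` (`inv_loc`).
`C√(∫chε²)√(∫ch e'²) ≤ Tn + C_B Gn e`.
-/

open MeasureTheory Filter Topology Set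
open scoped ContDiff

namespace H98KB

variable {k : ℕ} {δ p q : ℝ}

theorem Vfi_sq {p q : ℝ} {f : ℝ → ℝ} (hf : Cl p q f) : Cl (p + p) (q + q) (fun y => f y ^ 2) := by
  have h := Cl_mul hf hf
  have e : (fun y => f y ^ 2) = fun y => f y * f y := by
    funext y
    ring
  rw [e]
  exact h

theorem Vfi_int2 {pw qw p q : ℝ} {W f g : ℝ → ℝ} (hW : Cl pw qw W) (hf : Cl p q f) (hg : Cl p q g)
    (h1 : 0 < pw + (p + p)) (h2 : 0 < qw + (q + q)) :
    Integrable (fun y => W y * ((f y) ^ 2 + (g y) ^ 2)) :=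
  Cl_int (Cl_mul hW (Cl_add (Vfi_sq hf) (Vfi_sq hg))) h1 h2

theorem Vfi_int3 {pw qw p q : ℝ} {W f g h : ℝ → ℝ} (hW : Cl pw qw W) (hf : Cl p q f) (hg : Cl p q g)
    (hh : Cl p q h) (h1 : 0 < pw + (p + p)) (h2 : 0 < qw + (q + q)) :
    Integrable (fun y => W y * ((f y) ^ 2 + (g y) ^ 2 + (h y) ^ 2)) :=
  Cl_int (Cl_mul hW (Cl_add (Cl_add (Vfi_sq hf) (Vfi_sq hg)) (Vfi_sq hh))) h1 h2

theorem Vfi_int1 {pw qw p q : ℝ} {W f : ℝ → ℝ} (hW : Cl pw qw W) (hf : Cl p q f)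
    (h1 : 0 < pw + (p + p)) (h2 : 0 < qw + (q + q)) :
    Integrable (fun y => W y * (f y) ^ 2) :=
  Cl_int (Cl_mul hW (Vfi_sq hf)) h1 h2

theorem Vfi_loc {γ B : ℝ} (hγ : 0 < γ) (hB : 0 < B) :
    Cl (2 * γ + 2 / B) (2 * γ + 2 / B) (loc γ B) :=
  Cl_mul (Cl_se2 hγ) (Cl_ch hB)

theorem Vfi_ch_pos (B y : ℝ) : 0 < ch B y := by
  rw [ch_eq']
  exact se2_pos _ _

/-- the pairing -/
noncomputable def Vfi_J (k : ℕ) (η γ B δ : ℝ) (v h : ℝ → ℝ) : ℝ :=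
  ∫ y, Psi k η γ B y * (v y * vf k δ h y)

theorem Vfi_J_int (hk : 1 ≤ k) {η γ B δ p q p' q' : ℝ} {v h : ℝ → ℝ} (hB : 0 < B) (hδ : 0 < δ)
    (hδ' : δ ≤ 1 / 16) (hp : 0 < p) (hq : 0 < q) (hp' : 0 < p') (hp2 : p' ≤ 2) (hq' : 0 < q')
    (hq2 : q' ≤ 2) (hv : Cl p q v) (hh : Cl p' q' h) :
    Integrable (fun y => Psi k η γ B y * (v y * vf k δ h y)) := by
  have h1 := Cl_vf hk hδ hδ' (abs_le.2 ⟨by linarith, hp2⟩) (abs_le.2 ⟨by linarith, hq2⟩) hh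
  have hB2 : 0 < 2 / B := by positivity
  exact Cl_int (Cl_mul (Cl_Psi k η γ hB) (Cl_mul hv h1)) (by positivity) (by positivity)

theorem Vfi_J_lin (hk : 1 ≤ k) {η γ B δ p q p' q' : ℝ} {v f g : ℝ → ℝ} (c : ℝ) (hB : 0 < B)
    (hδ : 0 < δ)
    (hδ' : δ ≤ 1 / 16) (hp : 0 < p) (hq : 0 < q) (hp' : 0 < p') (hp2 : p' ≤ 2) (hq' : 0 < q')
    (hq2 : q' ≤ 2) (hv : Cl p q v) (hf : Cl p' q' f) (hg : Cl p' q' g) :
    Vfi_J k η γ B δ v (fun y => f y + c * g y) =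
      Vfi_J k η γ B δ v f + c * Vfi_J k η γ B δ v g := by
  unfold Vfi_J
  rw [← integral_const_mul, ← integral_add
    (Vfi_J_int hk hB hδ hδ' hp hq hp' hp2 hq' hq2 hv hf)
    ((Vfi_J_int hk hB hδ hδ' hp hq hp' hp2 hq' hq2 hv hg).const_mul c)]
  refine integral_congr_ae (Eventually.of_forall fun y => ?_)
  have hpa : |p'| ≤ 2 := abs_le.2 ⟨by linarith, hp2⟩
  have hqa : |q'| ≤ 2 := abs_le.2 ⟨by linarith, hq2⟩
  have e1 := vf_add (k := k) hk hδ hδ' hpa hqa hf (Cl_smul c hg) y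
  have e2 := vf_smul (k := k) (δ := δ) hk c hg y
  simp only
  rw [e1, e2]
  ring

theorem Vfi_zeta (hk : 1 ≤ k) {p q : ℝ} {ε e : ℝ → ℝ} (hp : 0 < p) (hq : 0 < q) (hε : Cl p q ε)
    (b m l : ℝ) :
    zeta k b m l ε e = fun y => ((((((((deriv (Lop k ε) y + (-1) * deriv (Rf k ε) y)
      + (-b) * Lam k (Qf k) y) + m * deriv (Qf k) y) + l * deriv (deriv (Qf k)) y)
      + (-b) * Lam k ε y) + m * deriv ε y) + l * deriv (deriv ε) y) + (-1) * deriv e y) := by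
  funext y
  have e1 : gf k ε = fun y => Lop k ε y - Rf k ε y := by
    funext z
    exact gf_eq k ε z
  have e2 : deriv (gf k ε) y = deriv (Lop k ε) y - deriv (Rf k ε) y := by
    rw [e1]
    exact ((Cl_hd (Cl_Lop hk hε) y).sub (Cl_hd (Cl_Rf hk hp.le hq.le hε) y)).deriv
  unfold zeta Nf
  rw [e2]
  ring

theorem Vfi_J_zeta (hk : 1 ≤ k) {η γ B δ p q : ℝ} {v ε e : ℝ → ℝ} (hB : 0 < B) (hδ : 0 < δ)
    (hδ' : δ ≤ 1 / 16) (hp : 0 < p) (hp1 : p ≤ 1 / 2) (hq : 0 < q) (hq1 : q ≤ 1 / 2)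
    (hv : Cl p q v) (hε : Cl p q ε) (he : Cl p q e) (b m l : ℝ) :
    Vfi_J k η γ B δ v (zeta k b m l ε e) =
      Vfi_J k η γ B δ v (deriv (Lop k ε)) - Vfi_J k η γ B δ v (deriv (Rf k ε))
      - b * Vfi_J k η γ B δ v (Lam k (Qf k)) + l * Vfi_J k η γ B δ v (deriv (deriv (Qf k)))
      - b * Vfi_J k η γ B δ v (Lam k ε) + m * Vfi_J k η γ B δ v (deriv ε)
      + l * Vfi_J k η γ B δ v (deriv (deriv ε)) - Vfi_J k η γ B δ v (deriv e) := by
  set p' := p / 2 with hp'd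
  set q' := q / 2 with hq'd
  have hp' : 0 < p' := by positivity
  have hq' : 0 < q' := by positivity
  have hp2 : p' ≤ 2 := by linarith
  have hq2 : q' ≤ 2 := by linarith
  have hpp : p' ≤ p := by linarith
  have hqq : q' ≤ q := by linarith
  have c1 : Cl p' q' (deriv (Lop k ε)) := Cl_mono (Cl_der (Cl_Lop hk hε)) hpp hqq
  have c2 : Cl p' q' (deriv (Rf k ε)) := Cl_mono (Cl_der (Cl_Rf hk hp.le hq.le hε)) hpp hqq
  have c3 : Cl p' q' (Lam k (Qf k)) :=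
    Cl_mono (Cl_LamQ hk (c := 1 / 2) (by norm_num)) (by linarith) (by linarith)
  have c4 : Cl p' q' (deriv (Qf k)) := Cl_mono (Cl_der (Cl_Qf hk)) (by linarith) (by linarith)
  have c5 : Cl p' q' (deriv (deriv (Qf k))) :=
    Cl_mono (Cl_der (Cl_der (Cl_Qf hk))) (by linarith) (by linarith)
  have hmin : 0 < min p q / 2 := by
    have : 0 < min p q := lt_min hp hq
    positivity
  have c6 : Cl p' q' (Lam k ε) := by
    refine Cl_mono (Cl_Lam k hε hmin) ?_ ?_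
    · have := min_le_left p q
      linarith
    · have := min_le_right p q
      linarith
  have c7 : Cl p' q' (deriv ε) := Cl_mono (Cl_der hε) hpp hqq
  have c8 : Cl p' q' (deriv (deriv ε)) := Cl_mono (Cl_der (Cl_der hε)) hpp hqq
  have c9 : Cl p' q' (deriv e) := Cl_mono (Cl_der he) hpp hqq
  have hz : Vfi_J k η γ B δ v (deriv (Qf k)) = 0 := by
    unfold Vfi_J
    have : (fun y => Psi k η γ B y * (v y * vf k δ (deriv (Qf k)) y)) = fun _ => (0 : ℝ) := by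
      funext y
      rw [vf_Qd hk δ y]
      ring
    rw [this, integral_zero]
  rw [Vfi_zeta hk hp hq hε b m l]
  have d2 := Cl_add c1 (Cl_smul (-1) c2)
  have d3 := Cl_add d2 (Cl_smul (-b) c3)
  have d4 := Cl_add d3 (Cl_smul m c4)
  have d5 := Cl_add d4 (Cl_smul l c5)
  have d6 := Cl_add d5 (Cl_smul (-b) c6)
  have d7 := Cl_add d6 (Cl_smul m c7)
  have d8 := Cl_add d7 (Cl_smul l c8)
  rw [Vfi_J_lin hk (-1) hB hδ hδ' hp hq hp' hp2 hq' hq2 hv d8 c9,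
    Vfi_J_lin hk l hB hδ hδ' hp hq hp' hp2 hq' hq2 hv d7 c8,
    Vfi_J_lin hk m hB hδ hδ' hp hq hp' hp2 hq' hq2 hv d6 c7,
    Vfi_J_lin hk (-b) hB hδ hδ' hp hq hp' hp2 hq' hq2 hv d5 c6,
    Vfi_J_lin hk l hB hδ hδ' hp hq hp' hp2 hq' hq2 hv d4 c5,
    Vfi_J_lin hk m hB hδ hδ' hp hq hp' hp2 hq' hq2 hv d3 c4,
    Vfi_J_lin hk (-b) hB hδ hδ' hp hq hp' hp2 hq' hq2 hv d2 c3,
    Vfi_J_lin hk (-1) hB hδ hδ' hp hq hp' hp2 hq' hq2 hv c1 c2, hz]
  ring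

/-- the arithmetic -/
theorem Vfi_arith {J I0 IR IQ IQ2 IS IM IL IE b m l s c0 Cv B CR CQ CS CM CL CE Cw Ci A1 Av X Y Y1 T L
    G E2 Xe P P' Ml Om : ℝ}
    (hc0 : 0 < c0) (hCv : 0 < Cv) (hB : 16 ≤ B) (hCR : 0 < CR) (hCQ : 0 < CQ) (hCS : 0 < CS)
    (hCM : 0 < CM) (hCL : 0 < CL) (hCE : 0 < CE) (hCw : 0 < Cw) (hCi : 0 < Ci)
    (hJ : J = I0 - IR - b * IQ + l * IQ2 - b * IS + m * IM + l * IL - IE)
    (hb : 0 ≤ b) (hb1 : b ≤ 1) (hl : 0 < l) (hl1 : l ≤ 1) (hs : 0 ≤ s)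
    (h0 : I0 ≤ -c0 * A1 + Cv / B * Y + Cv * P ^ 2)
    (hR : |IR| ≤ CR * s * X) (hQ : |IQ| ≤ CQ * √Av) (hQ2 : |IQ2| ≤ CQ * √Av)
    (hS : |IS| ≤ CS * Om) (hM : |IM| ≤ CM * (Ml + 1 / B * Y1)) (hL : |IL| ≤ CL * X)
    (hE : |IE| ≤ CE * √Xe * √E2)
    (hAv0 : 0 ≤ Av) (hAv : Av ≤ A1) (hX0 : 0 ≤ X) (hY : Y ≤ Cw * X) (hY0 : 0 ≤ Y1) (hY1 : Y1 ≤ Y)
    (hXT : X ≤ 16 * B * T) (hT : 0 ≤ T) (hOm : Om ≤ T) (hMl : Ml ≤ Y + X) (hXe0 : 0 ≤ Xe)
    (hXe : Xe ≤ X) (hE20 : 0 ≤ E2) (hE2 : E2 ≤ 8 * G) (hLn0 : 0 ≤ L) (hG : 0 ≤ G)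
    (hinv : L ≤ Ci * (A1 + P' ^ 2)) :
    J ≤ -(c0 / (2 * Ci)) * L + (16 * Cv * Cw + 1 + Cv + c0 + CQ ^ 2 / c0) * T
      + (16 * Cv * Cw + 1 + Cv + c0 + CQ ^ 2 / c0) * (P ^ 2 + P' ^ 2)
      + (16 * Cv * Cw + 1 + Cv + c0 + CQ ^ 2 / c0) * (b ^ 2 + l ^ 2)
      + (16 * B * (CR + CM * (2 * Cw + 1) + CL) + CS + 32 * B * CE ^ 2 + 1) * (s + l + b + |m|)
        * (T + L)
      + (16 * B * (CR + CM * (2 * Cw + 1) + CL) + CS + 32 * B * CE ^ 2 + 1) * G := by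
  have hB0 : 0 < B := by linarith
  have hm0 := abs_nonneg m
  -- pieces
  have t0 : Cv / B * Y ≤ 16 * Cv * Cw * T := by
    have e1 : Cv / B * Y ≤ Cv / B * (Cw * (16 * B * T)) := by
      refine mul_le_mul_of_nonneg_left ?_ (by positivity)
      exact hY.trans (mul_le_mul_of_nonneg_left hXT hCw.le)
    have e2 : Cv / B * (Cw * (16 * B * T)) = 16 * Cv * Cw * T := by
      field_simp
    linarith
  have tR : -IR ≤ 16 * B * CR * s * T := by
    have e1 : CR * s * X ≤ CR * s * (16 * B * T) :=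
      mul_le_mul_of_nonneg_left hXT (by positivity)
    have := (abs_le.1 hR).1
    have e2 : CR * s * (16 * B * T) = 16 * B * CR * s * T := by ring
    linarith
  have hsq : √Av ^ 2 = Av := Real.sq_sqrt hAv0
  have tQ : -(b * IQ) + l * IQ2 ≤ c0 / 2 * A1 + CQ ^ 2 / c0 * (b ^ 2 + l ^ 2) := by
    have e1 : -(b * IQ) ≤ b * (CQ * √Av) := by
      have h1 : -IQ ≤ CQ * √Av := by
        have := (abs_le.1 hQ).1
        linarith
      have h2 := mul_le_mul_of_nonneg_left h1 hb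
      have h3 : b * -IQ = -(b * IQ) := by ring
      linarith
    have e2 : l * IQ2 ≤ l * (CQ * √Av) := mul_le_mul_of_nonneg_left (abs_le.1 hQ2).2 hl.le
    have e3 : (b + l) * CQ * √Av ≤ c0 / 2 * Av + CQ ^ 2 / (2 * c0) * (b + l) ^ 2 := by
      have h1 : 0 ≤ (c0 * √Av - CQ * (b + l)) ^ 2 := sq_nonneg _
      have h2 : ∀ a : ℝ, c0 / 2 * a ^ 2 + CQ ^ 2 / (2 * c0) * (b + l) ^ 2 - (b + l) * CQ * a =
          (c0 * a - CQ * (b + l)) ^ 2 / (2 * c0) := by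
        intro a
        field_simp
        ring
      have h2' := h2 (√Av)
      rw [hsq] at h2'
      have h3 : 0 ≤ (c0 * √Av - CQ * (b + l)) ^ 2 / (2 * c0) := by positivity
      linarith
    have e4 : CQ ^ 2 / (2 * c0) * (b + l) ^ 2 ≤ CQ ^ 2 / c0 * (b ^ 2 + l ^ 2) := by
      have h1 : CQ ^ 2 / (2 * c0) = CQ ^ 2 / c0 / 2 := by
        field_simp
      rw [h1]
      have h2 : 0 ≤ CQ ^ 2 / c0 := by positivity
      have h3 : 0 ≤ CQ ^ 2 / c0 * (b - l) ^ 2 := mul_nonneg h2 (sq_nonneg (b - l))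
      have h4 : CQ ^ 2 / c0 * (b ^ 2 + l ^ 2) - CQ ^ 2 / c0 / 2 * (b + l) ^ 2 =
          CQ ^ 2 / c0 * (b - l) ^ 2 / 2 := by ring
      linarith
    have e5 : c0 / 2 * Av ≤ c0 / 2 * A1 := mul_le_mul_of_nonneg_left hAv (by positivity)
    have e6 : b * (CQ * √Av) + l * (CQ * √Av) = (b + l) * CQ * √Av := by ring
    linarith
  have tS : -(b * IS) ≤ CS * b * T := by
    have e1 : -IS ≤ CS * T := by
      have := (abs_le.1 hS).1
      have h2 := mul_le_mul_of_nonneg_left hOm hCS.le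
      linarith
    have e2 := mul_le_mul_of_nonneg_left e1 hb
    have e3 : b * -IS = -(b * IS) := by ring
    have e4 : b * (CS * T) = CS * b * T := by ring
    linarith
  have hMle : Ml + 1 / B * Y1 ≤ (2 * Cw + 1) * (16 * B * T) := by
    have h1 : 1 / B * Y1 ≤ Y := by
      have h2 : 1 / B ≤ 1 := by
        rw [div_le_one hB0]
        linarith
      calc 1 / B * Y1 ≤ 1 * Y1 := mul_le_mul_of_nonneg_right h2 hY0
        _ ≤ Y := by linarith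
    have h3 : Ml + 1 / B * Y1 ≤ (2 * Cw + 1) * X := by linarith
    exact h3.trans (mul_le_mul_of_nonneg_left hXT (by positivity))
  have tM : m * IM ≤ 16 * B * (CM * (2 * Cw + 1)) * |m| * T := by
    have h1 : |IM| ≤ CM * ((2 * Cw + 1) * (16 * B * T)) :=
      hM.trans (mul_le_mul_of_nonneg_left hMle hCM.le)
    have h2 : m * IM ≤ |m| * |IM| := by
      rw [← abs_mul]
      exact le_abs_self _
    have h3 := mul_le_mul_of_nonneg_left h1 hm0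
    have h4 : |m| * (CM * ((2 * Cw + 1) * (16 * B * T))) =
        16 * B * (CM * (2 * Cw + 1)) * |m| * T := by ring
    linarith
  have tL : l * IL ≤ 16 * B * CL * l * T := by
    have h1 : IL ≤ CL * (16 * B * T) :=
      ((abs_le.1 hL).2).trans (mul_le_mul_of_nonneg_left hXT hCL.le)
    have h2 := mul_le_mul_of_nonneg_left h1 hl.le
    have h3 : l * (CL * (16 * B * T)) = 16 * B * CL * l * T := by ring
    linarith
  have tE : -IE ≤ T + 32 * B * CE ^ 2 * G := by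
    have h1 : -IE ≤ CE * √Xe * √E2 := by
      have := (abs_le.1 hE).1
      linarith
    have hx : √Xe ^ 2 = Xe := Real.sq_sqrt hXe0
    have hy : √E2 ^ 2 = E2 := Real.sq_sqrt hE20
    have h2 : CE * √Xe * √E2 ≤ Xe / (16 * B) + 4 * B * CE ^ 2 * E2 := by
      have h3 : ∀ a c : ℝ, a ^ 2 / (16 * B) + 4 * B * CE ^ 2 * c ^ 2 - CE * a * c =
          (a - 8 * B * CE * c) ^ 2 / (16 * B) := by
        intro a c
        field_simp
        ring
      have h3' := h3 (√Xe) (√E2)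
      rw [hx, hy] at h3'
      have h4 : 0 ≤ (√Xe - 8 * B * CE * √E2) ^ 2 / (16 * B) := by positivity
      linarith
    have h5 : Xe / (16 * B) ≤ T := by
      rw [div_le_iff₀ (by positivity)]
      linarith
    have h6 : 4 * B * CE ^ 2 * E2 ≤ 4 * B * CE ^ 2 * (8 * G) :=
      mul_le_mul_of_nonneg_left hE2 (by positivity)
    linarith
  have tI : -(c0 / 2) * A1 ≤ -(c0 / (2 * Ci)) * L + c0 / 2 * P' ^ 2 := by
    have h1 : c0 / (2 * Ci) * L ≤ c0 / (2 * Ci) * (Ci * (A1 + P' ^ 2)) :=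
      mul_le_mul_of_nonneg_left hinv (by positivity)
    have h2 : c0 / (2 * Ci) * (Ci * (A1 + P' ^ 2)) = c0 / 2 * (A1 + P' ^ 2) := by
      field_simp
    linarith
  -- assemble
  have main : J ≤ -(c0 / (2 * Ci)) * L + c0 / 2 * P' ^ 2 + 16 * Cv * Cw * T + Cv * P ^ 2
      + 16 * B * CR * s * T + CQ ^ 2 / c0 * (b ^ 2 + l ^ 2) + CS * b * T
      + 16 * B * (CM * (2 * Cw + 1)) * |m| * T + 16 * B * CL * l * T
      + (T + 32 * B * CE ^ 2 * G) := by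
    rw [hJ]
    linarith
  set K1 := 16 * Cv * Cw + 1 + Cv + c0 + CQ ^ 2 / c0 with hK1
  set K2 := 16 * B * (CR + CM * (2 * Cw + 1) + CL) + CS + 32 * B * CE ^ 2 + 1 with hK2
  have q0 : 0 < CQ ^ 2 / c0 := by positivity
  have q1 : 16 * Cv * Cw * T + T ≤ K1 * T := by
    have : 0 ≤ (Cv + c0 + CQ ^ 2 / c0) * T := by positivity
    rw [hK1]
    linarith
  have q2 : c0 / 2 * P' ^ 2 + Cv * P ^ 2 ≤ K1 * (P ^ 2 + P' ^ 2) := by
    have h1 : Cv ≤ K1 := by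
      rw [hK1]
      have : 0 < 16 * Cv * Cw := by positivity
      linarith
    have h2 : c0 / 2 ≤ K1 := by
      rw [hK1]
      have : 0 < 16 * Cv * Cw := by positivity
      linarith
    have h3 := mul_le_mul_of_nonneg_right h1 (sq_nonneg P)
    have h4 := mul_le_mul_of_nonneg_right h2 (sq_nonneg P')
    linarith
  have q3 : CQ ^ 2 / c0 * (b ^ 2 + l ^ 2) ≤ K1 * (b ^ 2 + l ^ 2) := by
    refine mul_le_mul_of_nonneg_right ?_ (by positivity)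
    rw [hK1]
    have : 0 < 16 * Cv * Cw := by positivity
    linarith
  have hTL : T ≤ T + L := by linarith
  have r1 : 16 * B * CR ≤ K2 := by
    rw [hK2]
    have h1 : 0 < 16 * B * (CM * (2 * Cw + 1) + CL) := by positivity
    have h2 : 0 < 32 * B * CE ^ 2 := by positivity
    linarith
  have r2 : CS ≤ K2 := by
    rw [hK2]
    have h1 : 0 < 16 * B * (CR + CM * (2 * Cw + 1) + CL) := by positivity
    have h2 : 0 < 32 * B * CE ^ 2 := by positivity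
    linarith
  have r3 : 16 * B * (CM * (2 * Cw + 1)) ≤ K2 := by
    rw [hK2]
    have h1 : 0 < 16 * B * (CR + CL) := by positivity
    have h2 : 0 < 32 * B * CE ^ 2 := by positivity
    linarith
  have r4 : 16 * B * CL ≤ K2 := by
    rw [hK2]
    have h1 : 0 < 16 * B * (CR + CM * (2 * Cw + 1)) := by positivity
    have h2 : 0 < 32 * B * CE ^ 2 := by positivity
    linarith
  have r5 : 32 * B * CE ^ 2 ≤ K2 := by
    rw [hK2]
    have h1 : 0 < 16 * B * (CR + CM * (2 * Cw + 1) + CL) := by positivity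
    linarith
  have hK20 : 0 < K2 := lt_of_lt_of_le hCS r2
  have q4 : 16 * B * CR * s * T + CS * b * T + 16 * B * (CM * (2 * Cw + 1)) * |m| * T
      + 16 * B * CL * l * T ≤ K2 * (s + l + b + |m|) * (T + L) := by
    have g1 : 16 * B * CR * s * T ≤ K2 * s * T :=
      mul_le_mul_of_nonneg_right (mul_le_mul_of_nonneg_right r1 hs) hT
    have g2 : CS * b * T ≤ K2 * b * T :=
      mul_le_mul_of_nonneg_right (mul_le_mul_of_nonneg_right r2 hb) hT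
    have g3 : 16 * B * (CM * (2 * Cw + 1)) * |m| * T ≤ K2 * |m| * T :=
      mul_le_mul_of_nonneg_right (mul_le_mul_of_nonneg_right r3 hm0) hT
    have g4 : 16 * B * CL * l * T ≤ K2 * l * T :=
      mul_le_mul_of_nonneg_right (mul_le_mul_of_nonneg_right r4 hl.le) hT
    have g5 : K2 * (s + l + b + |m|) * T ≤ K2 * (s + l + b + |m|) * (T + L) :=
      mul_le_mul_of_nonneg_left hTL (by positivity)
    linarith
  have q5 : 32 * B * CE ^ 2 * G ≤ K2 * G := mul_le_mul_of_nonneg_right r5 hG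
  linarith

theorem DV_le (k : ℕ) (hk : 5 ≤ k) : ∃ γ η δ c₁ C₁ B₀ : ℝ, 0 < γ ∧ γ ≤ 1 / 8 ∧ 0 < η ∧ η ≤ 1 ∧ 0 < δ ∧
    δ ≤ 1 / 16 ∧ 0 < c₁ ∧ 0 < C₁ ∧ 16 ≤ B₀ ∧ ∀ B : ℝ, B₀ ≤ B → ∃ C₂ : ℝ, 0 < C₂ ∧ ∀ ρ, Slow B ρ →
    ∀ (p q : ℝ) (ε e : ℝ → ℝ), Adm ρ p q ε → Adm ρ p q e → ∀ s : ℝ, s ≤ 1 → (∀ y, |ε y| ≤ s) →
    ∀ b m l : ℝ, 0 ≤ b → b ≤ 1 → 0 < l → l ≤ 1 →
    DV k η γ B δ ε (zeta k b m l ε e) ≤ -c₁ * ln γ B ε + C₁ * Tn B ρ ε
      + C₁ * ((ip ε (Qf k)) ^ 2 + (ip ε (deriv (Qf k))) ^ 2) + C₁ * (b ^ 2 + l ^ 2)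
      + C₂ * (s + l + b + |m|) * (Tn B ρ ε + ln γ B ε) + C₂ * Gn B ρ e := by
  have hk1 : 1 ≤ k := by omega
  have hk2 : 2 ≤ k := by omega
  obtain ⟨γ, Ci, hγ, hγ8, hCi, hinv⟩ := inv_loc k hk2
  obtain ⟨η, δ, c₀, Cv, hη, hη1, hδ, hδ', hc₀, hCv, hvl⟩ := vir_lin k hk γ hγ hγ8
  obtain ⟨CR, hCR, hVR⟩ := VR k hk2 γ η δ hη.le hδ hδ'
  obtain ⟨CQ, hCQ, hVQ⟩ := VQ k hk2 γ η δ hγ hγ8 hη.le hδ hδ'
  obtain ⟨CM, hCM, hVM⟩ := VM k hk γ η δ hγ hγ8 hη.le hδ hδ'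
  obtain ⟨CL, hCL, hVL⟩ := VL k hk γ η δ hγ hγ8 hη.le hδ hδ'
  obtain ⟨CE, hCE, hVE⟩ := VE k hk γ η δ hη.le hδ hδ'
  obtain ⟨Cw, hCw, hwt⟩ := vf_wt k hk1 δ hδ hδ'
  refine ⟨γ, η, δ, c₀ / (2 * Ci), 16 * Cv * Cw + 1 + Cv + c₀ + CQ ^ 2 / c₀, max 16 (1 / γ), hγ, hγ8,
    hη, hη1, hδ, hδ', by positivity, by positivity, le_max_left _ _, ?_⟩
  intro B hB
  have hB16 : 16 ≤ B := (le_max_left _ _).trans hB
  have hBγ : 1 / γ ≤ B := (le_max_right _ _).trans hB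
  have hB0 : 0 < B := by linarith
  have h2B : 0 < 2 / B := by positivity
  obtain ⟨CS, hCS, hVS⟩ := VS k hk γ η δ hγ hγ8 hη.le hδ hδ' B hB16
  refine ⟨16 * B * (CR + CM * (2 * Cw + 1) + CL) + CS + 32 * B * CE ^ 2 + 1, by positivity, ?_⟩
  intro ρ hρ p q ε e hAε hAe s hs1 hs b m l hb hb1 hl hl1
  obtain ⟨hρp, hp2, hq, hq2, hε⟩ := hAε
  obtain ⟨-, -, -, -, he⟩ := hAe
  have hρ0 : 0 < ρ := hρ.2.1
  have hp : 0 < p := hρ0.trans hρp
  have hs0 : 0 ≤ s := (abs_nonneg _).trans (hs 0)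
  have hpa : |p| ≤ 2 := abs_le.2 ⟨by linarith, by linarith⟩
  have hqa : |q| ≤ 2 := abs_le.2 ⟨by linarith, by linarith⟩
  have hp1 : p ≤ 1 := by linarith
  have hq1 : q ≤ 1 := by linarith
  have hv : Cl p q (vf k δ ε) := Cl_vf hk1 hδ hδ' hpa hqa hε
  have hε1 : Cl p q (deriv ε) := Cl_der hε
  have hε2 : Cl p q (deriv (deriv ε)) := Cl_der hε1
  have hv1 : Cl p q (deriv (vf k δ ε)) := Cl_der hv
  have he1 : Cl p q (deriv e) := Cl_der he
  have hch : Cl (2 / B) (2 / B) (ch B) := Cl_ch hB0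
  have hloc : Cl (2 * γ + 2 / B) (2 * γ + 2 / B) (loc γ B) := Vfi_loc hγ hB0
  have hom : Cl (-(2 * ρ)) (2 * ρ + 1 / B) (om B ρ) := Cl_om hB0 ρ
  have hom1 := Cl_der hom
  have s1 : 0 < 2 / B + (p + p) := by positivity
  have s2 : 0 < 2 / B + (q + q) := by positivity
  have s3 : 0 < 2 * γ + 2 / B + (p + p) := by positivity
  have s4 : 0 < 2 * γ + 2 / B + (q + q) := by positivity
  have s5 : 0 < -(2 * ρ) + (p + p) := by linarith
  have s6 : 0 < 2 * ρ + 1 / B + (q + q) := by positivity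
  -- the integral inequalities
  have hXT : (∫ y, ch B y * ((ε y) ^ 2 + (deriv ε y) ^ 2)) ≤ 16 * B * Tn B ρ ε := by
    unfold Tn
    rw [← integral_const_mul]
    refine integral_mono (Vfi_int2 hch hε hε1 s1 s2)
      ((Vfi_int3 hom1 hε hε1 hε2 s5 s6).const_mul _) fun y => ?_
    have h1 := ch_le_om1 hρ y
    have h2 : 0 ≤ (ε y) ^ 2 + (deriv ε y) ^ 2 := by positivity
    have h3 := mul_le_mul_of_nonneg_right h1 h2
    have h4 : 0 ≤ 16 * B * deriv (om B ρ) y * (deriv (deriv ε) y) ^ 2 := by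
      have := om1_pos hρ y
      positivity
    simp only
    linarith
  have hT0 : 0 ≤ Tn B ρ ε := by
    unfold Tn
    refine integral_nonneg fun y => ?_
    have := om1_pos hρ y
    positivity
  have hOm : (∫ y, deriv (om B ρ) y * ((ε y) ^ 2 + (deriv ε y) ^ 2)) ≤ Tn B ρ ε := by
    unfold Tn
    refine integral_mono (Vfi_int2 hom1 hε hε1 s5 s6) (Vfi_int3 hom1 hε hε1 hε2 s5 s6) fun y => ?_
    have h4 : 0 ≤ deriv (om B ρ) y * (deriv (deriv ε) y) ^ 2 := by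
      have := om1_pos hρ y
      positivity
    simp only
    linarith
  have hX0 : 0 ≤ ∫ y, ch B y * ((ε y) ^ 2 + (deriv ε y) ^ 2) := by
    refine integral_nonneg fun y => ?_
    have := Vfi_ch_pos B y
    positivity
  have hAv0 : 0 ≤ ∫ y, loc γ B y * (vf k δ ε y) ^ 2 := by
    refine integral_nonneg fun y => ?_
    have := loc_pos γ B y
    positivity
  have hAv : (∫ y, loc γ B y * (vf k δ ε y) ^ 2) ≤
      ∫ y, loc γ B y * ((vf k δ ε y) ^ 2 + (deriv (vf k δ ε) y) ^ 2) := by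
    refine integral_mono (Vfi_int1 hloc hv s3 s4) (Vfi_int2 hloc hv hv1 s3 s4) fun y => ?_
    have h4 : 0 ≤ loc γ B y * (deriv (vf k δ ε) y) ^ 2 := by
      have := loc_pos γ B y
      positivity
    simp only
    linarith
  have hY : (∫ y, ch B y * ((vf k δ ε y) ^ 2 + (deriv (vf k δ ε) y) ^ 2)) ≤
      Cw * ∫ y, ch B y * ((ε y) ^ 2 + (deriv ε y) ^ 2) := by
    refine hwt p q (2 / B) (2 / B) ε (ch B) hpa hqa hε hch (fun y => Vfi_ch_pos B y) ?_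
      (by positivity) (by positivity)
    intro y
    have h1 := ch2_le (B := B) (by linarith) y
    have h2 := Vfi_ch_pos B y
    have h3 : 8 / B ^ 2 ≤ 1 := by
      rw [div_le_one (by positivity)]
      (first | linarith only [hB16, hδ, hδ'] | nlinarith only [hB16, hδ, hδ'])
    have h4 : |deriv (deriv (ch B)) y| ≤ 1 * ch B y :=
      h1.trans (mul_le_mul_of_nonneg_right h3 h2.le)
    have h5 : δ * |deriv (deriv (ch B)) y| ≤ 1 / 16 * (1 * ch B y) :=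
      mul_le_mul hδ' h4 (abs_nonneg _) (by norm_num)
    linarith
  have hY10 : 0 ≤ ∫ y, ch B y * (vf k δ ε y) ^ 2 := by
    refine integral_nonneg fun y => ?_
    have := Vfi_ch_pos B y
    positivity
  have hY1 : (∫ y, ch B y * (vf k δ ε y) ^ 2) ≤
      ∫ y, ch B y * ((vf k δ ε y) ^ 2 + (deriv (vf k δ ε) y) ^ 2) := by
    refine integral_mono (Vfi_int1 hch hv s1 s2) (Vfi_int2 hch hv hv1 s1 s2) fun y => ?_
    have h4 : 0 ≤ ch B y * (deriv (vf k δ ε) y) ^ 2 := by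
      have := Vfi_ch_pos B y
      positivity
    simp only
    linarith
  have hMl : (∫ y, loc γ B y * ((vf k δ ε y) ^ 2 + (ε y) ^ 2)) ≤
      (∫ y, ch B y * ((vf k δ ε y) ^ 2 + (deriv (vf k δ ε) y) ^ 2))
        + ∫ y, ch B y * ((ε y) ^ 2 + (deriv ε y) ^ 2) := by
    rw [← integral_add (Vfi_int2 hch hv hv1 s1 s2) (Vfi_int2 hch hε hε1 s1 s2)]
    refine integral_mono (Vfi_int2 hloc hv hε s3 s4)
      ((Vfi_int2 hch hv hv1 s1 s2).add (Vfi_int2 hch hε hε1 s1 s2)) fun y => ?_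
    have h1 := loc_le_ch γ B y
    have h2 : 0 ≤ (vf k δ ε y) ^ 2 + (ε y) ^ 2 := by positivity
    have h3 := mul_le_mul_of_nonneg_right h1 h2
    have h4 : 0 ≤ ch B y * ((deriv (vf k δ ε) y) ^ 2 + (deriv ε y) ^ 2) := by
      have := Vfi_ch_pos B y
      positivity
    simp only
    linarith
  have hXe0 : 0 ≤ ∫ y, ch B y * (ε y) ^ 2 := by
    refine integral_nonneg fun y => ?_
    have := Vfi_ch_pos B y
    positivity
  have hXe : (∫ y, ch B y * (ε y) ^ 2) ≤ ∫ y, ch B y * ((ε y) ^ 2 + (deriv ε y) ^ 2) := by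
    refine integral_mono (Vfi_int1 hch hε s1 s2) (Vfi_int2 hch hε hε1 s1 s2) fun y => ?_
    have h4 : 0 ≤ ch B y * (deriv ε y) ^ 2 := by
      have := Vfi_ch_pos B y
      positivity
    simp only
    linarith
  have hE20 : 0 ≤ ∫ y, ch B y * (deriv e y) ^ 2 := by
    refine integral_nonneg fun y => ?_
    have := Vfi_ch_pos B y
    positivity
  have hE2 : (∫ y, ch B y * (deriv e y) ^ 2) ≤ 8 * Gn B ρ e := by
    unfold Gn
    rw [← integral_const_mul]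
    refine integral_mono (Vfi_int1 hch he1 s1 s2)
      ((Vfi_int2 hom he he1 s5 s6).const_mul _) fun y => ?_
    have h1 := ch_le_om hρ y
    have h3 := mul_le_mul_of_nonneg_right h1 (sq_nonneg (deriv e y))
    have h4 : 0 ≤ 8 * (om B ρ y * (e y) ^ 2) := by
      have := om_pos B ρ y
      positivity
    simp only
    linarith
  have hL0 : 0 ≤ ln γ B ε := by
    unfold ln
    refine integral_nonneg fun y => ?_
    have := loc_pos γ B y
    positivity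
  have hG0 : 0 ≤ Gn B ρ e := by
    unfold Gn
    refine integral_nonneg fun y => ?_
    have := om_pos B ρ y
    positivity
  obtain ⟨hQ1, hQ2⟩ := hVQ B hB16 p q ε hp hp1 hq hq1 hε
  have hJ := Vfi_J_zeta (η := η) (γ := γ) hk1 hB0 hδ hδ' hp hp2 hq hq2 hv hε he b m l
  have hfin := Vfi_arith (s := s) (A1 := ∫ y, loc γ B y * ((vf k δ ε y) ^ 2 + (deriv (vf k δ ε) y) ^ 2))
    (P := ip ε (Qf k)) (P' := ip ε (deriv (Qf k)))
    hc₀ hCv hB16 hCR hCQ hCS hCM hCL hCE hCw hCi hJ hb hb1 hl hl1 hs0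
    (hvl B hB16 p q ε hp hp1 hq hq1 hε)
    (hVR B hB16 p q s ε hp hp1 hq hq1 hε hs1 hs) hQ1 hQ2
    (hVS ρ hρ p q ε hρp hp2 hq hq2 hε)
    (hVM B hB16 p q ε hp hp1 hq hq1 hε)
    (hVL B hB16 p q ε hp hp1 hq hq1 hε)
    (hVE B hB16 p q ε e hp hp1 hq hq1 hε he)
    hAv0 hAv hX0 hY hY10 hY1 hXT hT0 hOm hMl hXe0 hXe hE20 hE2 hL0 hG0
    (hinv γ B δ hγ le_rfl hB16 hBγ hδ hδ' p q ε hp hp1 hq hq1 hε)
  exact hfin

end H98KB

end S_H98_KB_Vfi

section S_H98_KB_Goo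

/-!
# Goo : assembly of the static part (`ThmG`)

Constants: `(γ,η,δ,c₁,C₁,B₀)` from `DV_le`; `C_m, c_m` from `BM_st`; `(ν,C_E)` from `DE_le` (`Cb = 2κ`); `(ν',c_L,C_L,B₁)` from
`CO_E`; `C_V` from `CV`.
`M := max (64 C₁) (4C_V/c_L)` (so `M/16 ≥ 2C₁`... and `M c_L - C_V ≥ (M/2)c_L`).
`B := max(B₀,B₁)` and so large that `M C_E/B ≤ c₁/16` and `2M C_E C_m/B ≤ c₁/16`.  `C₂ = C₂(B)` from `DV_le`.
ML: `M DE + DV ≤ M[-(1/8)Tn + (C_E/B)ln + bGn + C_E(b+l)√ln + C_E|m|(1/B+s)√ln + C_E(|m|+b+l)(Tn+ln) + C_E l s Gn`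
`+ C_E/(Rl) Gn e] - c₁ln + C₁Tn + C₁(p₀²+q₀²) + C₁(b²+l²) + C₂(s+l+b+|m|)(Tn+ln) + C₂Gn e`.
`M/8-C₁ ≥ M/16`.  `C_E M(b+l)√ln ≤ (c₁/16)ln + C(b²+l²)`, `b ≤ 2κl`.
`|m|√ln ≤ C_m(√ln+√Gn e)√ln ≤ 2C_m(ln+Gn e)`; with `s := c` small, `M C_E·2C_m(1/B+s) ≤ c₁/8`.
`(|m|+b+l+s)` is small (`≤` any prescribed number) if `c`, `l₁` are small: `|m| ≤ C_m(√c+√c)`; absorb
`(M C_E + C₂)(...)(Tn+ln)` in `-(M/64)Tn - (c₁/16)ln`.
`Tn ≥ 2ρGn-type`: `Tn B ρ ε ≥ 2ρ ∫om(ε²+ε'²) = 2ρ Gn` (`om1_ge`), `ρ = R l`; so `-(M/32)Tn ≤ -(M/64)Tn - (M/32)R l Gn`, and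
`bGn·M + M C_E l s Gn ≤ M(2κ+C_E) l Gn ≤ (M/64)R l Gn` if `R ≥ 64(2κ+C_E)`.
The constant `C` of `Good` is the maximum of everything (also `≥ 64(2κ+C_E)`), `c` the minimum.
CO: `LL = M Ef + Vf ≥ M c_L Gn - M C_L(...) - C_V Gn ≥ (M c_L/2)Gn - M C_L(...)`; `|LL| ≤ C Gn`: `CO_up` with `ε'=0`, `CV`.
BM, DL (with `BM`'s bound for `m`, and `|m| ≤ 1` for small `c`), DX, LN, LIP (`CO_up`, `CV`), IN from the statements.
-/

open MeasureTheory Filter Topology Set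
open scoped ContDiff

namespace H98KB

theorem Goo_G_nonneg {B ρ : ℝ} (f : ℝ → ℝ) : 0 ≤ Gn B ρ f :=
  integral_nonneg fun y => mul_nonneg (om_pos B ρ y).le (by positivity)

theorem Goo_T_nonneg {B ρ : ℝ} (h : Slow B ρ) (f : ℝ → ℝ) : 0 ≤ Tn B ρ f :=
  integral_nonneg fun y => mul_nonneg (om1_pos h y).le (by positivity)

theorem Goo_l_nonneg (γ B : ℝ) (f : ℝ → ℝ) : 0 ≤ ln γ B f :=
  integral_nonneg fun y => mul_nonneg (loc_pos γ B y).le (by positivity)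

theorem Goo_X_nonneg (f : ℝ → ℝ) : 0 ≤ Xn f :=
  integral_nonneg fun y => sq_nonneg _

theorem Goo_sq {p q : ℝ} {f : ℝ → ℝ} (h : Cl p q f) : Cl (p + p) (q + q) (fun y => (f y) ^ 2) := by
  have h1 := Cl_mul h h
  have h2 : (fun y => f y * f y) = fun y => (f y) ^ 2 := by
    funext y
    ring
  rw [h2] at h1
  exact h1

theorem Goo_TG {B ρ p q : ℝ} {ε : ℝ → ℝ} (h : Slow B ρ) (hA : Adm ρ p q ε) :
    2 * ρ * Gn B ρ ε ≤ Tn B ρ ε := by
  obtain ⟨a1, a2, a3, a4, a5⟩ := hA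
  obtain ⟨s1, s2, s3⟩ := h
  have hB : 0 < B := by linarith
  have hom := Cl_om hB ρ
  have c0 := Goo_sq a5
  have c1 := Goo_sq (Cl_der a5)
  have c2 := Goo_sq (Cl_der (Cl_der a5))
  have e1 : 0 < -(2 * ρ) + (p + p) := by linarith
  have e2 : 0 < 2 * ρ + 1 / B + (q + q) := by positivity
  have hG : Integrable (fun y => 2 * ρ * (om B ρ y * ((ε y) ^ 2 + (deriv ε y) ^ 2))) :=
    (Cl_int (Cl_mul hom (Cl_add c0 c1)) e1 e2).const_mul _
  have hT : Integrable (fun y => deriv (om B ρ) y *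
      ((ε y) ^ 2 + (deriv ε y) ^ 2 + (deriv (deriv ε) y) ^ 2)) :=
    Cl_int (Cl_mul (Cl_der hom) (Cl_add (Cl_add c0 c1) c2)) e1 e2
  unfold Gn Tn
  rw [← integral_const_mul]
  refine integral_mono hG hT fun y => ?_
  have h1 := om1_ge ⟨s1, s2, s3⟩ y
  have h2 := (om1_pos (B := B) (ρ := ρ) ⟨s1, s2, s3⟩ y).le
  have h3 : 0 ≤ (ε y) ^ 2 + (deriv ε y) ^ 2 := by positivity
  have h4 := mul_le_mul_of_nonneg_right h1 h3
  have h5 : 0 ≤ deriv (om B ρ) y * (deriv (deriv ε) y) ^ 2 := mul_nonneg h2 (sq_nonneg _)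
  show 2 * ρ * (om B ρ y * ((ε y) ^ 2 + (deriv ε y) ^ 2)) ≤
    deriv (om B ρ) y * ((ε y) ^ 2 + (deriv ε y) ^ 2 + (deriv (deriv ε) y) ^ 2)
  calc 2 * ρ * (om B ρ y * ((ε y) ^ 2 + (deriv ε y) ^ 2))
      = 2 * ρ * om B ρ y * ((ε y) ^ 2 + (deriv ε y) ^ 2) := by ring
    _ ≤ deriv (om B ρ) y * ((ε y) ^ 2 + (deriv ε y) ^ 2) := h4
    _ ≤ deriv (om B ρ) y * ((ε y) ^ 2 + (deriv ε y) ^ 2) +
        deriv (om B ρ) y * (deriv (deriv ε) y) ^ 2 := by linarith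
    _ = _ := by ring

theorem Goo_Adm_zero {ρ p q : ℝ} {ε : ℝ → ℝ} (hA : Adm ρ p q ε) :
    Adm ρ p q (fun _ => (0 : ℝ)) := by
  obtain ⟨a1, a2, a3, a4, a5⟩ := hA
  refine ⟨a1, a2, a3, a4, ?_⟩
  have h := Cl_smul 0 a5
  have h2 : (fun y => 0 * ε y) = fun _ => (0 : ℝ) := by
    funext y
    ring
  rw [h2] at h
  exact h

theorem Goo_G_zero (B ρ : ℝ) : Gn B ρ (fun _ => (0 : ℝ)) = 0 := by
  unfold Gn
  simp

theorem Goo_E_zero (k : ℕ) (B ρ : ℝ) : Ef k B ρ (fun _ => (0 : ℝ)) = 0 := by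
  unfold Ef bF
  simp

/-- upper bound for the energy -/
theorem Goo_E_up {k : ℕ} {C B ρ p q : ℝ} {ε : ℝ → ℝ} (hA : Adm ρ p q ε)
    (h : |Ef k B ρ ε - Ef k B ρ (fun _ => (0 : ℝ))| ≤
      C * √(Gn B ρ (fun y => ε y - (fun _ => (0 : ℝ)) y)) *
        (√(Gn B ρ ε) + √(Gn B ρ (fun _ => (0 : ℝ))))) :
    |Ef k B ρ ε| ≤ C * Gn B ρ ε := by
  rw [Goo_E_zero, Goo_G_zero] at h
  simp only [sub_zero, Real.sqrt_zero, add_zero] at h
  rw [mul_assoc, Real.mul_self_sqrt (Goo_G_nonneg ε)] at h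
  exact h

theorem Goo_s1 {A c₁ K b l x L : ℝ} (hA : 0 < A) (hc₁ : 0 < c₁) (hK : 0 < K) (hl : 0 < l)
    (hbl : b ≤ K * l) (hx : 0 ≤ x) (hxx : x * x = L) :
    A * (b + l) * x ≤ c₁ / 16 * L + 4 / c₁ * (A * (K + 1)) ^ 2 * l ^ 2 := by
  have h1 : b + l ≤ (K + 1) * l := by linarith
  have h2 : A * (b + l) * x ≤ A * ((K + 1) * l) * x :=
    mul_le_mul_of_nonneg_right (mul_le_mul_of_nonneg_left h1 hA.le) hx
  have h6 : c₁ / 16 * (x * x) + 4 / c₁ * (A * ((K + 1) * l)) ^ 2 - A * ((K + 1) * l) * x =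
      (c₁ * x / 4 - 2 * (A * ((K + 1) * l))) ^ 2 / c₁ := by
    field_simp
    ring
  have h7 : 0 ≤ (c₁ * x / 4 - 2 * (A * ((K + 1) * l))) ^ 2 / c₁ := by positivity
  have h8 : 4 / c₁ * (A * ((K + 1) * l)) ^ 2 = 4 / c₁ * (A * (K + 1)) ^ 2 * l ^ 2 := by ring
  rw [← hxx, ← h8]
  linarith

theorem Goo_s2 {A Cm c₁ t x y L Ge m : ℝ} (hA : 0 < A) (hCm : 0 < Cm) (ht : 0 ≤ t)
    (hx : 0 ≤ x) (hxx : x * x = L) (hyy : y * y = Ge) (hm : |m| ≤ Cm * (x + y))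
    (hB2 : 2 * (A * Cm) * t ≤ c₁ / 8) :
    A * |m| * t * x ≤ c₁ / 8 * L + c₁ / 16 * Ge := by
  have h2 := mul_le_mul_of_nonneg_right hm hx
  have h3 : (x + y) * x ≤ 2 * (x * x) + y * y := by
    have := sq_nonneg (x - y)
    have h4 := mul_self_nonneg x
    have h5 := mul_self_nonneg y
    have h6 : (x - y) ^ 2 = x * x - 2 * (x * y) + y * y := by ring
    have h7 : (x + y) * x = x * x + x * y := by ring
    rw [h6] at this
    rw [h7]
    linarith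
  have h4 := mul_le_mul_of_nonneg_left h3 hCm.le
  have h5 : |m| * x ≤ Cm * (2 * (x * x) + y * y) := by
    have : Cm * (x + y) * x = Cm * ((x + y) * x) := by ring
    linarith
  have h6 : 0 ≤ A * t := mul_nonneg hA.le ht
  have h7 := mul_le_mul_of_nonneg_left h5 h6
  have h8 : 0 ≤ 2 * (x * x) + y * y := by
    have h4 := mul_self_nonneg x
    have h5 := mul_self_nonneg y
    linarith
  have h9 := mul_le_mul_of_nonneg_right hB2 h8
  rw [← hxx, ← hyy]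
  have e1 : A * |m| * t * x = A * t * (|m| * x) := by ring
  have e2 : A * t * (Cm * (2 * (x * x) + y * y)) =
      1 / 2 * (2 * (A * Cm) * t * (2 * (x * x) + y * y)) := by ring
  rw [e1]
  rw [e2] at h7
  linarith

theorem Goo_s3 {A C₂ M c₁ σ s T L : ℝ} (hA : 0 < A) (hs0 : 0 ≤ s) (hT : 0 ≤ T) (hL : 0 ≤ L)
    (hσ1 : (A + C₂) * (σ + s) ≤ M / 64) (hσ2 : (A + C₂) * (σ + s) ≤ c₁ / 16) :
    A * σ * (T + L) + C₂ * (σ + s) * (T + L) ≤ M / 64 * T + c₁ / 16 * L := by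
  have h3 := mul_le_mul_of_nonneg_right hσ1 hT
  have h4 := mul_le_mul_of_nonneg_right hσ2 hL
  have h5 : 0 ≤ A * s * (T + L) := mul_nonneg (mul_nonneg hA.le hs0) (by linarith)
  have e1 : A * σ * (T + L) + C₂ * (σ + s) * (T + L) =
    (A + C₂) * (σ + s) * T + (A + C₂) * (σ + s) * L - A * s * (T + L) := by ring
  linarith

theorem Goo_s4 {M CE K R b l s G : ℝ} (hM : 0 < M) (hCE : 0 < CE) (hl : 0 < l) (hG : 0 ≤ G)
    (hbl : b ≤ K * l) (hs1 : s ≤ 1) (hR : 64 * (K + CE) ≤ R) :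
    M * (b * G) + M * (CE * l * s * G) ≤ M / 64 * (R * l * G) := by
  have hlG : 0 ≤ l * G := mul_nonneg hl.le hG
  have h1 : b * G ≤ K * (l * G) := by
    have := mul_le_mul_of_nonneg_right hbl hG
    linarith
  have h2 : CE * l * s * G ≤ CE * (l * G) := by
    have h3 := mul_le_mul_of_nonneg_left hs1 (mul_nonneg hCE.le hlG)
    linarith
  have h4 : (K + CE) * (l * G) ≤ R / 64 * (l * G) :=
    mul_le_mul_of_nonneg_right (by linarith) hlG
  have h5 := mul_le_mul_of_nonneg_left (add_le_add h1 h2) hM.le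
  have h6 := mul_le_mul_of_nonneg_left h4 hM.le
  linarith

theorem Goo_s5 {M CE C₂ c₁ R l Ge : ℝ} (hM : 0 < M) (hCE : 0 < CE) (hC₂ : 0 < C₂) (hc₁ : 0 < c₁)
    (hR : 1 ≤ R) (hl : 0 < l) (hl1 : l ≤ 1) (hGe : 0 ≤ Ge) :
    M * (CE / (R * l) * Ge) + C₂ * Ge + c₁ / 16 * Ge ≤ (M * CE + C₂ + c₁ / 16) / l * Ge := by
  have hR0 : 0 < R := by linarith
  have h1 : CE / (R * l) ≤ CE / l := by
    apply div_le_div_of_nonneg_left hCE.le hl
    exact le_mul_of_one_le_left hl.le hR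
  have h2 : C₂ ≤ C₂ / l := by
    rw [le_div_iff₀ hl]
    exact mul_le_of_le_one_right hC₂.le hl1
  have h3 : c₁ / 16 ≤ c₁ / 16 / l := by
    rw [le_div_iff₀ hl]
    exact mul_le_of_le_one_right (by positivity) hl1
  have h4 : (M * CE + C₂ + c₁ / 16) / l = M * (CE / l) + C₂ / l + c₁ / 16 / l := by
    field_simp
  rw [h4]
  have h5 := mul_le_mul_of_nonneg_left (mul_le_mul_of_nonneg_right h1 hGe) hM.le
  have h6 := mul_le_mul_of_nonneg_right h2 hGe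
  have h7 := mul_le_mul_of_nonneg_right h3 hGe
  have e : (M * (CE / l) + C₂ / l + c₁ / 16 / l) * Ge =
    M * (CE / l * Ge) + C₂ / l * Ge + c₁ / 16 / l * Ge := by ring
  rw [e]
  linarith

theorem Goo_s6 {C₁ K b l : ℝ} (hC₁ : 0 < C₁) (hb : 0 ≤ b) (hbl : b ≤ K * l) :
    C₁ * (b ^ 2 + l ^ 2) ≤ C₁ * (K ^ 2 + 1) * l ^ 2 := by
  have h1 : b ^ 2 ≤ (K * l) ^ 2 := pow_le_pow_left₀ hb hbl 2
  have h2 : b ^ 2 + l ^ 2 ≤ (K ^ 2 + 1) * l ^ 2 := by
    have : (K ^ 2 + 1) * l ^ 2 = (K * l) ^ 2 + l ^ 2 := by ring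
    rw [this]
    linarith
  have h3 := mul_le_mul_of_nonneg_left h2 hC₁.le
  rw [mul_assoc]
  exact h3

/-- the main inequality in real numbers -/
theorem Goo_num {M CE C₁ C₂ Cm c₁ K R B l b m s T L G Ge P DE' DV' : ℝ}
    (hM0 : 0 < M) (hCE : 0 < CE) (hC₁ : 0 < C₁) (hC₂ : 0 < C₂) (hCm : 0 < Cm) (hc₁ : 0 < c₁)
    (hK : 0 < K) (hR1 : 1 ≤ R) (hB : 0 < B) (hl : 0 < l) (hl1 : l ≤ 1) (hb : 0 ≤ b)
    (hbl : b ≤ K * l) (hs0 : 0 ≤ s) (hs1 : s ≤ 1) (hT : 0 ≤ T) (hL : 0 ≤ L) (hG : 0 ≤ G)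
    (hGe : 0 ≤ Ge)
    (hDE : DE' ≤ -(1 / 8) * T + CE / B * L + b * G + CE * (b + l) * √L
      + CE * |m| * (1 / B + s) * √L + CE * (|m| + b + l) * (T + L) + CE * l * s * G
      + CE / (R * l) * Ge)
    (hDV : DV' ≤ -c₁ * L + C₁ * T + C₁ * P + C₁ * (b ^ 2 + l ^ 2)
      + C₂ * (s + l + b + |m|) * (T + L) + C₂ * Ge)
    (hm : |m| ≤ Cm * (√L + √Ge)) (hTG : 2 * (R * l) * G ≤ T)
    (hσ1 : (M * CE + C₂) * (|m| + b + l + s) ≤ M / 64)
    (hσ2 : (M * CE + C₂) * (|m| + b + l + s) ≤ c₁ / 16)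
    (hMC : 64 * C₁ ≤ M) (hB1 : M * CE / B ≤ c₁ / 16)
    (hB2 : 2 * (M * CE * Cm) * (1 / B + s) ≤ c₁ / 8) (hR : 64 * (K + CE) ≤ R) :
    M * DE' + DV' ≤ -(M / 32) * T - c₁ / 2 * L - M / 32 * (R * l * G)
      + (4 / c₁ * (M * CE * (K + 1)) ^ 2 + C₁ * (K ^ 2 + 1)) * l ^ 2 + C₁ * P
      + (M * CE + C₂ + c₁ / 16) / l * Ge := by
  have hx := Real.sqrt_nonneg L
  have hxx : √L * √L = L := Real.mul_self_sqrt hL
  have hyy : √Ge * √Ge = Ge := Real.mul_self_sqrt hGe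
  have hMCE : 0 < M * CE := mul_pos hM0 hCE
  have hBs : 0 ≤ 1 / B + s := by positivity
  have s1 := Goo_s1 hMCE hc₁ hK hl hbl hx hxx
  have s2 := Goo_s2 hMCE hCm hBs hx hxx hyy hm hB2
  have s3 := Goo_s3 hMCE hs0 hT hL hσ1 hσ2
  have s4 := Goo_s4 hM0 hCE hl hG hbl hs1 hR
  have s5 := Goo_s5 hM0 hCE hC₂ hc₁ hR1 hl hl1 hGe
  have s6 := Goo_s6 (C₁ := C₁) hC₁ hb hbl
  have s7 := mul_le_mul_of_nonneg_right hB1 hL
  have s8 : C₁ * T ≤ M / 64 * T := mul_le_mul_of_nonneg_right (by linarith) hT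
  have s9 : M / 64 * (2 * (R * l) * G) ≤ M / 64 * T :=
    mul_le_mul_of_nonneg_left hTG (by positivity)
  have hRlG : 0 ≤ R * l * G := mul_nonneg (mul_nonneg (by linarith) hl.le) hG
  have hMR : 0 ≤ M * (R * l * G) := mul_nonneg hM0.le hRlG
  have hME := mul_le_mul_of_nonneg_left hDE hM0.le
  have e1 : M * (-(1 / 8) * T + CE / B * L + b * G + CE * (b + l) * √L
      + CE * |m| * (1 / B + s) * √L + CE * (|m| + b + l) * (T + L) + CE * l * s * G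
      + CE / (R * l) * Ge) = -(M / 8) * T + M * CE / B * L + M * (b * G)
      + M * CE * (b + l) * √L + M * CE * |m| * (1 / B + s) * √L
      + M * CE * (|m| + b + l) * (T + L) + M * (CE * l * s * G) + M * (CE / (R * l) * Ge) := by
    ring
  have e2 : C₂ * (s + l + b + |m|) * (T + L) = C₂ * (|m| + b + l + s) * (T + L) := by ring
  rw [e1] at hME
  rw [e2] at hDV
  have hMT : 0 ≤ M * T := mul_nonneg hM0.le hT
  have hcL : 0 ≤ c₁ * L := mul_nonneg hc₁.le hL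
  linarith

theorem Goo_kap_nonneg {k : ℕ} (hk : 5 ≤ k) : 0 ≤ kap k := by
  unfold kap sc
  have h5 : (5 : ℝ) ≤ k := by exact_mod_cast hk
  have h0 : (0 : ℝ) < k := by linarith
  have h1 : 0 ≤ 1 / 2 - 2 / (k : ℝ) := by
    rw [sub_nonneg, div_le_div_iff₀ h0 (by norm_num)]
    linarith
  exact div_nonneg (integral_nonneg fun y => sq_nonneg _)
    (mul_nonneg h1 (integral_nonneg fun y => sq_nonneg _))

theorem Goo_min (l : List ℝ) (h : ∀ x ∈ l, 0 < x) : ∃ c : ℝ, 0 < c ∧ ∀ x ∈ l, c ≤ x := by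
  induction l with
  | nil => exact ⟨1, one_pos, by simp⟩
  | cons a l ih =>
    obtain ⟨c, hc, h2⟩ := ih fun x hx => h x (List.mem_cons_of_mem _ hx)
    refine ⟨min a c, lt_min (h a List.mem_cons_self) hc, fun x hx => ?_⟩
    rcases List.mem_cons.1 hx with rfl | hx
    · exact min_le_left _ _
    · exact (min_le_right _ _).trans (h2 x hx)

theorem Goo_max (l : List ℝ) : ∃ c : ℝ, 1 ≤ c ∧ ∀ x ∈ l, x ≤ c := by
  induction l with
  | nil => exact ⟨1, le_rfl, by simp⟩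
  | cons a l ih =>
    obtain ⟨c, hc, h2⟩ := ih
    refine ⟨max a c, hc.trans (le_max_right _ _), fun x hx => ?_⟩
    rcases List.mem_cons.1 hx with rfl | hx
    · exact le_max_left _ _
    · exact (h2 x hx).trans (le_max_right _ _)

theorem Goo_small {a b : ℝ} (ha : 0 ≤ a) (hb : 0 < b) :
    ∃ c₀ : ℝ, 0 < c₀ ∧ ∀ c, c ≤ c₀ → a * √c ≤ b := by
  have ha1 : 0 < a + 1 := by linarith
  refine ⟨(b / (a + 1)) ^ 2, by positivity, fun c hc => ?_⟩
  have h1 : √c ≤ b / (a + 1) := by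
    rw [Real.sqrt_le_left (by positivity)]
    exact hc
  have h2 : a * √c ≤ (a + 1) * √c :=
    mul_le_mul_of_nonneg_right (by linarith) (Real.sqrt_nonneg c)
  have h3 := mul_le_mul_of_nonneg_left h1 ha1.le
  have h4 : (a + 1) * (b / (a + 1)) = b := by field_simp
  linarith

theorem Goo_CO {M cL CL CV' Cup C G E V x : ℝ} (hM : 0 < M) (hcL : 0 < cL) (hG : 0 ≤ G)
    (hx : 0 ≤ x) (hC0 : 0 ≤ C) (h1 : cL * G ≤ E + CL * x) (hV : |V| ≤ CV' * G)
    (hE : |E| ≤ Cup * G) (hM3 : 4 * CV' ≤ M * cL) (hCa : 2 / (M * cL) ≤ C) (hCb : M * CL ≤ C)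
    (hCc : M * Cup + CV' ≤ C) :
    G ≤ C * (M * E + V + C * x) ∧ |M * E + V| ≤ C * G := by
  have hMc : 0 < M * cL := mul_pos hM hcL
  constructor
  · have h2 := mul_le_mul_of_nonneg_left h1 hM.le
    have h3 : 4 * CV' * G ≤ M * cL * G := mul_le_mul_of_nonneg_right hM3 hG
    have h4 := (abs_le.1 hV).1
    have h5 : 0 ≤ M * cL * G := mul_nonneg hMc.le hG
    have h6 : M * cL / 2 * G ≤ M * E + V + M * CL * x := by
      have e1 : M * (cL * G) = M * cL * G := by ring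
      have e2 : M * (E + CL * x) = M * E + M * CL * x := by ring
      rw [e1, e2] at h2
      linarith
    have h7 : 0 ≤ M * E + V + M * CL * x := by
      have : 0 ≤ M * cL / 2 * G := by positivity
      linarith
    have h8 : M * E + V + M * CL * x ≤ M * E + V + C * x := by
      have := mul_le_mul_of_nonneg_right hCb hx
      linarith
    calc G = 2 / (M * cL) * (M * cL / 2 * G) := by field_simp
      _ ≤ 2 / (M * cL) * (M * E + V + M * CL * x) :=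
        mul_le_mul_of_nonneg_left h6 (by positivity)
      _ ≤ C * (M * E + V + M * CL * x) := mul_le_mul_of_nonneg_right hCa h7
      _ ≤ C * (M * E + V + C * x) := mul_le_mul_of_nonneg_left h8 hC0
  · have h2 := mul_le_mul_of_nonneg_right hCc hG
    have h3 : |M * E| ≤ M * (Cup * G) := by
      rw [abs_mul, abs_of_pos hM]
      exact mul_le_mul_of_nonneg_left hE hM.le
    have h4 := abs_add_le (M * E) V
    have e : (M * Cup + CV') * G = M * (Cup * G) + CV' * G := by ring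
    rw [e] at h2
    linarith

theorem Goo_LIP {M Cup CV' C x y E E' V V' : ℝ} (hM : 0 < M) (hx : 0 ≤ x) (hy : 0 ≤ y)
    (hE : |E - E'| ≤ Cup * x * y) (hV : |V - V'| ≤ CV' * x * y) (hCc : M * Cup + CV' ≤ C) :
    |M * E + V - (M * E' + V')| ≤ C * x * y := by
  have e1 : M * E + V - (M * E' + V') = M * (E - E') + (V - V') := by ring
  rw [e1]
  have h1 := abs_add_le (M * (E - E')) (V - V')
  have h2 : |M * (E - E')| ≤ M * (Cup * x * y) := by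
    rw [abs_mul, abs_of_pos hM]
    exact mul_le_mul_of_nonneg_left hE hM.le
  have h3 := mul_le_mul_of_nonneg_right hCc (mul_nonneg hx hy)
  have e2 : (M * Cup + CV') * (x * y) = M * (Cup * x * y) + CV' * x * y := by ring
  rw [e2, ← mul_assoc] at h3
  linarith

/-- comparison of constants in the main inequality -/
theorem Goo_cmp {M c c₁ X C₁ Y C T L R l G Ge p q D : ℝ} (hl : 0 < l) (hT : 0 ≤ T) (hL : 0 ≤ L)
    (hRG : 0 ≤ R * l * G) (hGe : 0 ≤ Ge)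
    (h : D ≤ -(M / 32) * T - c₁ / 2 * L - M / 32 * (R * l * G)
      + X * l ^ 2 + C₁ * (p ^ 2 + q ^ 2) + Y / l * Ge)
    (hc1 : c ≤ M / 32) (hc2 : c ≤ c₁ / 2) (hX : X ≤ C) (hC₁ : C₁ ≤ C) (hY : Y ≤ C) :
    D ≤ -c * (T + L) - c * R * l * G + C * (l ^ 2 + p ^ 2 + q ^ 2) + C / l * Ge := by
  have s1 := mul_le_mul_of_nonneg_right hc1 hT
  have s2 := mul_le_mul_of_nonneg_right hc2 hL
  have s3 := mul_le_mul_of_nonneg_right hc1 hRG
  have s4 := mul_le_mul_of_nonneg_right hX (sq_nonneg l)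
  have s5 := mul_le_mul_of_nonneg_right hC₁ (add_nonneg (sq_nonneg p) (sq_nonneg q))
  have s6 := mul_le_mul_of_nonneg_right (div_le_div_of_nonneg_right hY hl.le) hGe
  have e1 : -c * (T + L) - c * R * l * G + C * (l ^ 2 + p ^ 2 + q ^ 2) + C / l * Ge =
    -(c * T) - c * L - c * (R * l * G) + C * l ^ 2 + C * (p ^ 2 + q ^ 2) + C / l * Ge := by ring
  rw [e1]
  linarith

theorem Goo_tau {A Cm K c l m b τ x y : ℝ} (hA : 0 < A) (hCm : 0 < Cm) (hm : |m| ≤ Cm * (x + y))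
    (hx : x ≤ √c) (hy : y ≤ √c) (hbl : b ≤ K * l)
    (h1 : A * (2 * Cm) * √c ≤ τ / 4) (h2 : A * c ≤ τ / 4) (h3 : A * (K + 1) * l ≤ τ / 2) :
    A * (|m| + b + l + c) ≤ τ := by
  have h4 : Cm * (x + y) ≤ Cm * (√c + √c) := mul_le_mul_of_nonneg_left (by linarith) hCm.le
  have h5 : |m| + b + l + c ≤ 2 * Cm * √c + (K + 1) * l + c := by
    have e1 : Cm * (√c + √c) = 2 * Cm * √c := by ring
    have e2 : (K + 1) * l = K * l + l := by ring
    linarith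
  have h6 := mul_le_mul_of_nonneg_left h5 hA.le
  have e3 : A * (2 * Cm * √c + (K + 1) * l + c) =
    A * (2 * Cm) * √c + A * (K + 1) * l + A * c := by ring
  linarith

theorem thmG : ThmG := by
  intro k hk
  obtain ⟨γ, η, δ, c₁, C₁, B₀, hγ, hγ8, hη, hη1, hδ, hδ16, hc₁, hC₁, hB₀, hDV0⟩ := DV_le k hk
  obtain ⟨ν, CE, hν, hν1, hCE, hDE0⟩ := DE_le k hk
  obtain ⟨cm, Cm, hcm, hcm1, hCm, hBM0⟩ := BM_st k hk
  obtain ⟨ν', cL, CL, B₁, hν', hν'1, hcL, hCL, hB₁, hCO0⟩ := CO_E k hk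
  obtain ⟨Cup, hCup, hUp0⟩ := CO_up k hk
  obtain ⟨CV', hCV, hCV0⟩ := CV k hk γ η δ hη hη1 hδ hδ16
  obtain ⟨CD, hCD, hDL0⟩ := DL_st k hk
  obtain ⟨CN, hCN, hLN0⟩ := LN_st k hk
  have hkap := Goo_kap_nonneg hk
  obtain ⟨K, hKdef⟩ : ∃ K : ℝ, K = 2 * kap k + 1 := ⟨_, rfl⟩
  have hK : 0 < K := by linarith
  have hK2 : 2 * kap k ≤ K := by linarith
  obtain ⟨M, hM1, hMl⟩ := Goo_max [64 * C₁, 4 * CV' / cL]
  have hM : 0 < M := by linarith
  have hM2 : 64 * C₁ ≤ M := hMl _ (by simp)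
  have hM3 : 4 * CV' ≤ M * cL := by
    have := hMl (4 * CV' / cL) (by simp)
    rwa [div_le_iff₀ hcL] at this
  obtain ⟨B, -, hBl⟩ := Goo_max [16, B₀, B₁, M * CE * 16 / c₁, 2 * (M * CE * Cm) * 16 / c₁]
  have hB16 : 16 ≤ B := hBl _ (by simp)
  have hB : 0 < B := by linarith
  have hBB₀ : B₀ ≤ B := hBl _ (by simp)
  have hBB₁ : B₁ ≤ B := hBl _ (by simp)
  have hB1 : M * CE / B ≤ c₁ / 16 := by
    have := hBl (M * CE * 16 / c₁) (by simp)
    rw [div_le_iff₀ hc₁] at this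
    rw [div_le_div_iff₀ hB (by norm_num)]
    linarith
  have hB2 : 2 * (M * CE * Cm) * (1 / B) ≤ c₁ / 16 := by
    have := hBl (2 * (M * CE * Cm) * 16 / c₁) (by simp)
    rw [div_le_iff₀ hc₁] at this
    rw [mul_one_div, div_le_div_iff₀ hB (by norm_num)]
    linarith
  obtain ⟨C₂, hC₂, hDV⟩ := hDV0 B hBB₀
  obtain ⟨cX, CX, hcX, hcX1, hCX, hDX0⟩ := DX_st k hk B hB16
  obtain ⟨cI, CI, cn, hcI, hcI1, hCI, hcn, hIN0⟩ := IN_st k hk M hM
  have hA : 0 < M * CE + C₂ := by positivity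
  obtain ⟨τ, hτ, hτl⟩ := Goo_min [M / 64, c₁ / 16] (by
    intro x hx
    rcases List.mem_cons.1 hx with rfl | hx
    · positivity
    rcases List.mem_cons.1 hx with rfl | hx
    · positivity
    · simp at hx)
  have hτ1 : τ ≤ M / 64 := hτl _ (by simp)
  have hτ2 : τ ≤ c₁ / 16 := hτl _ (by simp)
  obtain ⟨d₁, hd₁, hd₁'⟩ := Goo_small (a := (M * CE + C₂) * (2 * Cm)) (b := τ / 4)
    (by positivity) (by positivity)
  obtain ⟨d₂, hd₂, hd₂'⟩ := Goo_small (a := 2 * Cm) (b := 1) (by positivity) one_pos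
  obtain ⟨c, hc, hcl⟩ := Goo_min [1, ν, ν', cm, cX, cI, M / 32, c₁ / 2, d₁, d₂,
    τ / 4 / (M * CE + C₂), c₁ / 16 / (2 * (M * CE * Cm))] (by
    intro x hx
    simp only [List.mem_cons, List.not_mem_nil, or_false] at hx
    rcases hx with rfl | rfl | rfl | rfl | rfl | rfl | rfl | rfl | rfl | rfl | rfl | rfl <;>
    positivity)
  have hc1 : c ≤ 1 := hcl _ (by simp)
  have hcν : c ≤ ν := hcl _ (by simp)
  have hcν' : c ≤ ν' := hcl _ (by simp)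
  have hccm : c ≤ cm := hcl _ (by simp)
  have hccX : c ≤ cX := hcl _ (by simp)
  have hccI : c ≤ cI := hcl _ (by simp)
  have hcM : c ≤ M / 32 := hcl _ (by simp)
  have hcc₁ : c ≤ c₁ / 2 := hcl _ (by simp)
  have hcd₁ := hd₁' c (hcl _ (by simp))
  have hcd₂ := hd₂' c (hcl _ (by simp))
  have hcA : (M * CE + C₂) * c ≤ τ / 4 := by
    have := hcl (τ / 4 / (M * CE + C₂)) (by simp)
    rw [le_div_iff₀ hA] at this
    linarith
  have hcB : 2 * (M * CE * Cm) * c ≤ c₁ / 16 := by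
    have := hcl (c₁ / 16 / (2 * (M * CE * Cm))) (by simp)
    rw [le_div_iff₀ (by positivity)] at this
    linarith
  obtain ⟨C, hC1, hCl⟩ := Goo_max [64 * (K + CE), C₁,
    4 / c₁ * (M * CE * (K + 1)) ^ 2 + C₁ * (K ^ 2 + 1), M * CE + C₂ + c₁ / 16, Cm,
    2 / (M * cL), M * CL, M * Cup + CV', CD * (1 + Cm), CX, CN, CI]
  have hCa : 64 * (K + CE) ≤ C := hCl _ (by simp)
  have hCb : C₁ ≤ C := hCl _ (by simp)
  have hCc : 4 / c₁ * (M * CE * (K + 1)) ^ 2 + C₁ * (K ^ 2 + 1) ≤ C := hCl _ (by simp)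
  have hCd : M * CE + C₂ + c₁ / 16 ≤ C := hCl _ (by simp)
  have hCe : Cm ≤ C := hCl _ (by simp)
  have hCf : 2 / (M * cL) ≤ C := hCl _ (by simp)
  have hCg : M * CL ≤ C := hCl _ (by simp)
  have hCh : M * Cup + CV' ≤ C := hCl _ (by simp)
  have hCi : CD * (1 + Cm) ≤ C := hCl _ (by simp)
  have hCj : CX ≤ C := hCl _ (by simp)
  have hCk : CN ≤ C := hCl _ (by simp)
  have hCn : CI ≤ C := hCl _ (by simp)
  have hC0 : 0 ≤ C := by linarith
  refine ⟨γ, η, δ, M, B, c, C, hγ, hη, hδ, hM, hB16, hc, hc1, hC1, ?_, ?_, ?_, ?_, ?_, ?_, ?_,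
    ?_⟩
  · -- ML
    intro R hR
    have hR1 : 1 ≤ R := hC1.trans hR
    obtain ⟨l₁, hl₁, hl₁1, hE⟩ := hDE0 γ hγ hγ8 B hB16 R hR1 K hK
    obtain ⟨l₂, hl₂, hl₂l⟩ := Goo_min [1, l₁, 1 / K, τ / 2 / ((M * CE + C₂) * (K + 1))] (by
      intro x hx
      simp only [List.mem_cons, List.not_mem_nil, or_false] at hx
      rcases hx with rfl | rfl | rfl | rfl <;> positivity)
    refine ⟨l₂, hl₂, hl₂l _ (by simp), ?_⟩
    intro l hl hll p q ε e hAε hAe hε hln hGe b m hb hbl hO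
    have hl1 : l ≤ 1 := hll.trans (hl₂l _ (by simp))
    obtain ⟨hS, hE'⟩ := hE l hl (hll.trans (hl₂l _ (by simp)))
    have hbK : b ≤ K * l := hbl.trans (mul_le_mul_of_nonneg_right hK2 hl.le)
    have hb1 : b ≤ 1 := by
      have h1 : l ≤ 1 / K := hll.trans (hl₂l _ (by simp))
      rw [le_div_iff₀ hK] at h1
      linarith
    have hl3 : (M * CE + C₂) * (K + 1) * l ≤ τ / 2 := by
      have h1 : l ≤ τ / 2 / ((M * CE + C₂) * (K + 1)) := hll.trans (hl₂l _ (by simp))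
      rw [le_div_iff₀ (by positivity)] at h1
      linarith
    have DE := hE' p q c ε e hAε hAe hcν hε b m hb hbK
    have DV := hDV (R * l) hS p q ε e hAε hAe c hc1 hε b m l hb hb1 hl hl1
    have BM := (hBM0 γ hγ hγ8 B (R * l) hS l hl hl1 p q ε e hAε hAe
      (fun y => (hε y).trans hc1) (hln.trans hccm) (hGe.trans hc1) b m hO).2
    have nT := Goo_T_nonneg hS ε
    have nL := Goo_l_nonneg γ B ε
    have nG := Goo_G_nonneg (B := B) (ρ := R * l) ε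
    have nGe := Goo_G_nonneg (B := B) (ρ := R * l) e
    have hxc : √(ln γ B ε) ≤ √c := Real.sqrt_le_sqrt hln
    have hyc : √(Gn B (R * l) e) ≤ √c := Real.sqrt_le_sqrt hGe
    have hσ := Goo_tau hA hCm BM hxc hyc hbK hcd₁ hcA hl3
    have key := Goo_num (K := K) hM hCE hC₁ hC₂ hCm hc₁ hK hR1 hB hl hl1 hb hbK hc.le hc1 nT nL
      nG nGe DE DV BM (Goo_TG hS hAε) (hσ.trans hτ1) (hσ.trans hτ2) hM2 hB1
      (by rw [mul_add]; linarith) (hCa.trans hR)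
    exact Goo_cmp hl nT nL (mul_nonneg (mul_nonneg (by linarith) hl.le) nG) nGe key hcM hcc₁
      hCc hCb hCd
  · -- BM
    intro ρ hS l hl hl1 p q ε e hAε hAe hε hln hGe b m hO
    obtain ⟨h1, h2⟩ := hBM0 γ hγ hγ8 B ρ hS l hl hl1 p q ε e hAε hAe
      (fun y => (hε y).trans hc1) (hln.trans hccm) (hGe.trans hc1) b m hO
    have nL := Goo_l_nonneg γ B ε
    refine ⟨h1.trans (mul_le_mul_of_nonneg_right hCe (by positivity)),
      h2.trans (mul_le_mul_of_nonneg_right hCe (by positivity))⟩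
  · -- CO
    intro ρ hS p q ε hAε hε
    have hε1 : ∀ y, |ε y| ≤ 1 := fun y => (hε y).trans hc1
    have hA0 := Goo_Adm_zero hAε
    have hE := Goo_E_up (C := Cup) hAε (hUp0 B ρ hS p q ε (fun _ => (0 : ℝ)) hAε hA0 hε1
      (fun y => by simp))
    exact Goo_CO hM hcL (Goo_G_nonneg ε) (by positivity) hC0
      (hCO0 B ρ hS hBB₁ p q ε hAε fun y => (hε y).trans hcν')
      (hCV0 B ρ hS p q ε ε hAε hAε).1 hE hM3 hCf hCg hCh
  · -- DL
    intro ρ hS l hl hl1 p q ε e hAε hAe hε hln hGe b m hb hbl hO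
    have hε1 : ∀ y, |ε y| ≤ 1 := fun y => (hε y).trans hc1
    obtain ⟨-, h2⟩ := hBM0 γ hγ hγ8 B ρ hS l hl hl1 p q ε e hAε hAe hε1
      (hln.trans hccm) (hGe.trans hc1) b m hO
    have hxc : √(ln γ B ε) ≤ √c := Real.sqrt_le_sqrt hln
    have hyc : √(Gn B ρ e) ≤ √c := Real.sqrt_le_sqrt hGe
    have hm1 : |m| ≤ 1 := by
      have h3 : Cm * (√(ln γ B ε) + √(Gn B ρ e)) ≤ Cm * (√c + √c) :=
        mul_le_mul_of_nonneg_left (by linarith) hCm.le
      have e1 : Cm * (√c + √c) = 2 * Cm * √c := by ring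
      linarith
    have h3 := hDL0 γ hγ hγ8 B ρ hS l hl hl1 p q ε e hAε hAe hε1 (hln.trans hc1)
      (hGe.trans hc1) b m (by rw [abs_of_nonneg hb]; exact hbl) hm1
    have nx := Real.sqrt_nonneg (ln γ B ε)
    have ny := Real.sqrt_nonneg (Gn B ρ e)
    have h4 : √(ln γ B ε) + l + |m| + √(Gn B ρ e) ≤
        (1 + Cm) * (√(ln γ B ε) + l + √(Gn B ρ e)) := by
      have e2 : (1 + Cm) * (√(ln γ B ε) + l + √(Gn B ρ e)) =
        √(ln γ B ε) + l + √(Gn B ρ e) + Cm * (√(ln γ B ε) + √(Gn B ρ e)) + Cm * l := by ring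
      have := mul_pos hCm hl
      rw [e2]
      linarith
    calc |ip (zeta k b m l ε e) (ph0 k)| ≤ CD * (√(ln γ B ε) + l + |m| + √(Gn B ρ e)) := h3
      _ ≤ CD * ((1 + Cm) * (√(ln γ B ε) + l + √(Gn B ρ e))) :=
        mul_le_mul_of_nonneg_left h4 hCD.le
      _ = CD * (1 + Cm) * (√(ln γ B ε) + l + √(Gn B ρ e)) := by ring
      _ ≤ C * (√(ln γ B ε) + l + √(Gn B ρ e)) :=
        mul_le_mul_of_nonneg_right hCi (by positivity)
  · -- DX
    intro ρ hS l hl hl1 p q ε e hAε hAe hε hln hGe hX b m hb hbl hO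
    have hε1 : ∀ y, |ε y| ≤ 1 := fun y => (hε y).trans hc1
    have h1 := hDX0 γ hγ hγ8 ρ hS l hl hl1 p q ε e hAε hAe hε1 (hln.trans hccX)
      (hGe.trans hc1) hX b m hb hbl hO
    have nT := Goo_T_nonneg hS ε
    have nL := Goo_l_nonneg γ B ε
    have nGe := Goo_G_nonneg (B := B) (ρ := ρ) e
    have s1 := mul_le_mul_of_nonneg_right hCj (add_nonneg nT nL)
    have s2 := mul_le_mul_of_nonneg_right hCj (sq_nonneg l)
    have s3 := mul_le_mul_of_nonneg_right hCj nGe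
    have s4 := mul_le_mul_of_nonneg_right (div_le_div_of_nonneg_right hCj hl.le)
      (Goo_X_nonneg e)
    linarith
  · -- LN
    intro ρ hS p q ε hAε
    obtain ⟨h1, h2, h3, h4⟩ := hLN0 γ hγ hγ8 B ρ hS p q ε hAε
    have hs := Real.sqrt_nonneg (ln γ B ε)
    exact ⟨h1.trans (mul_le_mul_of_nonneg_right hCk (Goo_G_nonneg ε)),
      h2.trans (mul_le_mul_of_nonneg_right hCk hs), h3.trans (mul_le_mul_of_nonneg_right hCk hs),
      h4.trans (mul_le_mul_of_nonneg_right hCk hs)⟩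
  · -- LIP
    intro ρ hS p q ε ε' hAε hAε' hε hε'
    exact Goo_LIP hM (Real.sqrt_nonneg _) (add_nonneg (Real.sqrt_nonneg _) (Real.sqrt_nonneg _))
      (hUp0 B ρ hS p q ε ε' hAε hAε' (fun y => (hε y).trans hc1) fun y => (hε' y).trans hc1)
      (hCV0 B ρ hS p q ε ε' hAε hAε').2 hCh
  · -- IN
    refine ⟨cn, hcn, fun ρ hS a ha => ?_⟩
    have hρ : 0 < ρ := hS.2.1
    exact (hIN0 γ η δ B ρ hS a (ha.trans hccI)).trans
      (mul_le_mul_of_nonneg_right hCn (by positivity))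

end H98KB

end S_H98_KB_Goo
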